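import Pool.Agent.Work.MP_6bf1e5_an.H.ResHom

/-! Polar coordinates. -/

open scoped ContDiff ENNReal FourierTransform Real
open Set MeasureTheory

namespace Pool.Agent.Work.MP_6bf1e5_an.H

variable {d : ℕ} {Q Q' : Sc}

theorem ResSph_int (h : Continuous Q) :
    Integrable (fun x : Metric.sphere (0 : R3) 1 => Q x) (volume : Measure R3).toSphere :=
  integrableOn_univ.1
    ((h.comp continuous_subtype_val).continuousOn.integrableOn_compact isCompact_univ)

theorem ResSph_gauss (n : ℕ) :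
    IntegrableOn (fun r : ℝ => r ^ n * Real.exp (-r ^ 2)) (Ioi 0) ∧
      ∫ r in Ioi (0 : ℝ), r ^ n * Real.exp (-r ^ 2) = 1 / 2 * Real.Gamma ((n + 1) / 2) := by
  have hn : (-1 : ℝ) < n := neg_one_lt_zero.trans_le n.cast_nonneg
  have h1 := integrableOn_rpow_mul_exp_neg_mul_sq one_pos hn
  have h2 := integral_rpow_mul_exp_neg_rpow two_pos hn
  simp only [Real.rpow_natCast, Real.rpow_ofNat, neg_mul, one_mul] at h1 h2
  exact ⟨h1, h2⟩

theorem ResSph_beta {u v : ℝ} (hu : 0 < u) (hv : 0 < v) :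
    IntegrableOn (fun x : ℝ => x ^ (u - 1) * (1 - x) ^ (v - 1)) (Ioo 0 1) ∧
      ∫ x in Ioo (0 : ℝ) 1, x ^ (u - 1) * (1 - x) ^ (v - 1) =
        Real.Gamma u * Real.Gamma v / Real.Gamma (u + v) := by
  have h1 := Complex.betaIntegral_convergent (u := u) (v := v) (by simpa) (by simpa)
  rw [intervalIntegrable_iff_integrableOn_Ioo_of_le zero_le_one] at h1
  have e : ∀ x ∈ Ioo (0 : ℝ) 1, (x : ℂ) ^ ((u : ℂ) - 1) * (1 - (x : ℂ)) ^ ((v : ℂ) - 1) =
      ((x ^ (u - 1) * (1 - x) ^ (v - 1) : ℝ) : ℂ) := fun x hx => by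
    rw [Complex.ofReal_mul, Complex.ofReal_cpow hx.1.le, Complex.ofReal_cpow (sub_pos.2 hx.2).le]
    push_cast
    rfl
  rw [integrableOn_congr_fun e measurableSet_Ioo] at h1
  refine ⟨h1.re, ?_⟩
  have h2 := ProbabilityTheory.beta_eq_betaIntegralReal u v hu hv
  rw [Complex.betaIntegral, intervalIntegral.integral_of_le zero_le_one,
    integral_Ioc_eq_integral_Ioo, setIntegral_congr_fun measurableSet_Ioo e, integral_complex_ofReal,
    Complex.ofReal_re] at h2
  exact h2.symm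

theorem ResSph_G32 : Real.Gamma (3 / 2) = √π / 2 := by
  rw [show (3 / 2 : ℝ) = 1 / 2 + 1 by norm_num, Real.Gamma_add_one (by norm_num),
    Real.Gamma_one_half_eq]
  ring

/-- No integrability is needed: `Measure.measurePreserving_homeomorphUnitSphereProd`,
`integral_prod_mul`; see the proof of `integral_fun_norm_addHaar` in Mathlib. -/
theorem polar (h : ∀ r : ℝ, 0 < r → ∀ y, Q (r • y) = r ^ d * Q y) (g : ℝ → ℝ) :
    ∫ y, Q y * g ‖y‖ = sph Q * ∫ r in Ioi (0 : ℝ), r ^ (d + 2) * g r := by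
  have e1 : ∫ y, Q y * g ‖y‖ =
      ∫ x : ({(0)}ᶜ : Set R3), Q x * g ‖x.1‖ ∂((volume : Measure R3).comap (↑)) := by
    rw [integral_subtype_comap (measurableSet_singleton _).compl fun x => Q x * g ‖x‖,
      restrict_compl_singleton]
  have e2 := (volume : Measure R3).measurePreserving_homeomorphUnitSphereProd.integral_comp
    (Homeomorph.measurableEmbedding _)
    (fun p : Metric.sphere (0 : R3) 1 × Ioi (0 : ℝ) => Q p.1 * (p.2.1 ^ d * g p.2))
  have e3 : ∀ x : ({(0)}ᶜ : Set R3), Q x * g ‖x.1‖ = Q (homeomorphUnitSphereProd R3 x).1 *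
      ((homeomorphUnitSphereProd R3 x).2.1 ^ d * g (homeomorphUnitSphereProd R3 x).2) := fun x => by
    have hx : 0 < ‖x.1‖ := norm_pos_iff.2 x.2
    have := h _ hx (‖x.1‖⁻¹ • x.1)
    rw [smul_inv_smul₀ hx.ne'] at this
    rw [homeomorphUnitSphereProd_apply_snd_coe, homeomorphUnitSphereProd_apply_fst_coe, this]
    ring
  rw [e1, integral_congr_ae (.of_forall e3), e2,
    integral_prod_mul (fun x : Metric.sphere (0 : R3) 1 => Q x)
      (fun r : Ioi (0 : ℝ) => r.1 ^ d * g r), sph]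
  congr 1
  simp only [Measure.volumeIoiPow, ENNReal.ofReal]
  rw [integral_withDensity_eq_integral_smul, integral_subtype_comap measurableSet_Ioi
      fun a => Real.toNNReal (a ^ (Module.finrank ℝ R3 - 1)) • (a ^ d * g a),
    setIntegral_congr_fun measurableSet_Ioi fun x hx => ?_]
  · rw [NNReal.smul_def, Real.coe_toNNReal _ (pow_nonneg hx.out.le _), finrank_euclideanSpace_fin,
      smul_eq_mul]
    ring
  · exact (measurable_subtype_coe.pow_const _).real_toNNReal

theorem ResSph_polar (h : Hom d Q) (g : ℝ → ℝ) :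
    ∫ y, Q y * g ‖y‖ = sph Q * ∫ r in Ioi (0 : ℝ), r ^ (d + 2) * g r :=
  polar h.hom g

theorem integrable_polar (h : Hom d Q) {g : ℝ → ℝ}
    (hg : IntegrableOn (fun r => r ^ (d + 2) * g r) (Ioi 0)) :
    Integrable fun y : R3 => Q y * g ‖y‖ := by
  obtain ⟨C, -, hC⟩ := h.bound
  have h1 : Integrable fun y : R3 => ‖y‖ ^ d * g ‖y‖ := by
    refine (integrable_fun_norm_addHaar (volume : Measure R3) (f := fun r => r ^ d * g r)).2
      (hg.congr_fun (fun r _ => ?_) measurableSet_Ioi)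
    rw [finrank_euclideanSpace_fin, smul_eq_mul]
    ring
  have h2 : ∀ᵐ y : R3, y ≠ 0 := by simp [ae_iff]
  have h3 : Measurable fun y : R3 => Q y / ‖y‖ ^ d :=
    h.smooth.continuous.measurable.div (by fun_prop)
  refine (h1.bdd_mul (c := C) h3.aestronglyMeasurable (h2.mono fun y hy => ?_)).congr
    (h2.mono fun y hy => ?_)
  · have : 0 < ‖y‖ ^ d := pow_pos (norm_pos_iff.2 hy) d
    rw [Real.norm_eq_abs, abs_div, abs_of_pos this, div_le_iff₀ this]
    exact hC y
  · have : ‖y‖ ^ d ≠ 0 := (pow_pos (norm_pos_iff.2 hy) d).ne'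
    simp only
    field_simp

theorem sph_add (h : Continuous Q) (h' : Continuous Q') :
    sph (fun y => Q y + Q' y) = sph Q + sph Q' :=
  integral_add (ResSph_int h) (ResSph_int h')
theorem sph_sub (h : Continuous Q) (h' : Continuous Q') :
    sph (fun y => Q y - Q' y) = sph Q - sph Q' :=
  integral_sub (ResSph_int h) (ResSph_int h')
theorem sph_cmul (c : ℝ) (Q : Sc) : sph (fun y => c * Q y) = c * sph Q :=
  integral_const_mul _ _
theorem sph_congr (h : ∀ y : R3, ‖y‖ = 1 → Q y = Q' y) : sph Q = sph Q' :=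
  integral_congr_ae (.of_forall fun x => h x (by simp))
theorem sph_nonneg (h : ∀ y, 0 ≤ Q y) : 0 ≤ sph Q :=
  integral_nonneg fun _ => h _
theorem sph_one : sph (fun _ => 1) = 4 * π := by
  rw [sph, integral_const, Measure.toSphere_real_apply_univ, finrank_euclideanSpace_fin,
    Measure.real, EuclideanSpace.volume_ball_fin_three, ENNReal.toReal_mul,
    ENNReal.toReal_ofReal (by positivity)]
  simp
  ring

/-- Integrate `div (V exp (-|y|²)) ` over space and use `polar` twice. -/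
theorem sph_dvg {V : Vc} (h : ∀ i, Hom (d + 1) (V i)) :
    sph (dvg V) = (d + 3) * sph (dot pos V) := by
  have hE : ∀ (i : Fin 3) (y : R3), fderiv ℝ (fun y : R3 => Real.exp (-‖y‖ ^ 2)) y
      (EuclideanSpace.single i 1) = -2 * y i * Real.exp (-‖y‖ ^ 2) := fun i y => by
    rw [((hasStrictFDerivAt_norm_sq y).hasFDerivAt.fun_neg.exp).fderiv]
    simp [EuclideanSpace.inner_single_right]
    ring
  have hD : Differentiable ℝ fun y : R3 => Real.exp (-‖y‖ ^ 2) := fun y =>
    ((hasStrictFDerivAt_norm_sq y).hasFDerivAt.neg.exp).differentiableAt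
  have hI : ∀ {e : ℕ} {P : Sc}, Hom e P → Integrable fun y : R3 => P y * Real.exp (-‖y‖ ^ 2) :=
    fun hP => integrable_polar (g := fun r => Real.exp (-r ^ 2)) hP (ResSph_gauss _).1
  have hy : ∀ i, Hom (1 + (d + 1)) fun y => y i * V i y := fun i => (hom_coord i).mul (h i)
  have key : ∀ i, ∫ y : R3, pd i (V i) y * Real.exp (-‖y‖ ^ 2) =
      2 * ∫ y : R3, y i * V i y * Real.exp (-‖y‖ ^ 2) := fun i => by
    have e : ∀ y : R3, V i y * fderiv ℝ (fun y : R3 => Real.exp (-‖y‖ ^ 2)) y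
        (EuclideanSpace.single i 1) = -2 * (y i * V i y * Real.exp (-‖y‖ ^ 2)) := fun y => by
      rw [hE]
      ring
    have := integral_mul_fderiv_eq_neg_fderiv_mul_of_integrable (μ := volume) (f := V i)
      (g := fun y : R3 => Real.exp (-‖y‖ ^ 2)) (v := EuclideanSpace.single i 1) (hI ((h i).pd i))
      (((hI (hy i)).const_mul (-2)).congr (.of_forall fun y => (e y).symm)) (hI (h i))
      (fun y _ => (h i).smooth.differentiable (by simp) y) fun y _ => hD y
    simp only [e, integral_const_mul] at this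
    simp only [pd]
    linarith
  have h1 := ResSph_polar (Hom.sum Finset.univ fun i _ => (h i).pd i) fun r => Real.exp (-r ^ 2)
  have h2 := ResSph_polar (Hom.sum Finset.univ fun i _ => hy i) fun r => Real.exp (-r ^ 2)
  simp only [Finset.sum_mul] at h1 h2
  rw [integral_finsetSum _ fun i _ => hI ((h i).pd i), (ResSph_gauss _).2] at h1
  rw [integral_finsetSum _ fun i _ => hI (hy i), (ResSph_gauss _).2] at h2
  simp only [key, ← Finset.mul_sum] at h1
  have hp : (0 : ℝ) < (((d + 2 : ℕ) : ℝ) + 1) / 2 := by positivity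
  have e : (((1 + (d + 1) + 2 : ℕ) : ℝ) + 1) / 2 = (((d + 2 : ℕ) : ℝ) + 1) / 2 + 1 := by
    push_cast
    ring
  rw [h2, e, Real.Gamma_add_one hp.ne'] at h1
  have hG := Real.Gamma_pos_of_pos hp
  refine mul_right_cancel₀ hG.ne' ?_
  change sph (fun y => ∑ i, pd i (V i) y) * _ = _ * sph (fun y => ∑ i, y i * V i y) * _
  push_cast at h1 ⊢
  linarith

/-- The Beta integral. -/
theorem int_beta {a q b : ℝ} (ha : 0 < a) (hq : -1 < q) (hb : q + 1 < 2 * b) :
    IntegrableOn (fun r : ℝ => r ^ q * (1 + a * r ^ 2) ^ (-b)) (Ioi 0) ∧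
    ∫ r in Ioi (0 : ℝ), r ^ q * (1 + a * r ^ 2) ^ (-b) = 1 / 2 * a ^ (-((q + 1) / 2)) *
      (Real.Gamma ((q + 1) / 2) * Real.Gamma (b - (q + 1) / 2) / Real.Gamma b) := by
  set u := (q + 1) / 2 with hu
  have hu0 : 0 < u := by linarith
  have hv0 : 0 < b - u := by linarith
  have hpos : ∀ r : ℝ, 0 < 1 + a * r ^ 2 := fun r => by positivity
  have hder : ∀ r ∈ Ioi (0 : ℝ), HasDerivWithinAt (fun r : ℝ => 1 - (1 + a * r ^ 2)⁻¹)
      (2 * a * r / (1 + a * r ^ 2) ^ 2) (Ioi 0) r := fun r _ => by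
    refine (HasDerivAt.congr_deriv (((((hasDerivAt_pow 2 r).const_mul a).const_add 1).inv
      (hpos r).ne').const_sub 1) ?_).hasDerivWithinAt
    simp only [Nat.cast_ofNat, Nat.add_one_sub_one, pow_one]
    ring
  have hinj : InjOn (fun r : ℝ => 1 - (1 + a * r ^ 2)⁻¹) (Ioi 0) := fun r hr s hs e => by
    simp only [sub_right_inj, inv_inj, add_right_inj] at e
    exact (pow_left_inj₀ hr.out.le hs.out.le two_ne_zero).1 (mul_left_cancel₀ ha.ne' e)
  have him : (fun r : ℝ => 1 - (1 + a * r ^ 2)⁻¹) '' Ioi 0 = Ioo 0 1 := by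
    ext x
    constructor
    · rintro ⟨r, hr, rfl⟩
      have h1 : 0 < a * r ^ 2 := mul_pos ha (pow_pos hr 2)
      exact ⟨sub_pos.2 (inv_lt_one_of_one_lt₀ (by linarith)), sub_lt_self _ (inv_pos.2 (hpos r))⟩
    · rintro ⟨h0, h1⟩
      have h2 : 0 < 1 - x := sub_pos.2 h1
      have h3 : 0 < x / (a * (1 - x)) := by positivity
      refine ⟨√(x / (a * (1 - x))), Real.sqrt_pos.2 h3, ?_⟩
      simp only [Real.sq_sqrt h3.le]
      field_simp
      ring
  have hpt : ∀ r ∈ Ioi (0 : ℝ), |2 * a * r / (1 + a * r ^ 2) ^ 2| •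
      ((1 - (1 + a * r ^ 2)⁻¹) ^ (u - 1) * (1 - (1 - (1 + a * r ^ 2)⁻¹)) ^ (b - u - 1)) =
      2 * a ^ u * (r ^ q * (1 + a * r ^ 2) ^ (-b)) := fun r hr => by
    have hr' : 0 < r := hr
    have hw := hpos r
    have e1 : 1 - (1 + a * r ^ 2)⁻¹ = a * r ^ 2 * (1 + a * r ^ 2)⁻¹ := by
      field_simp
      ring
    have e2 : a ^ u = a * a ^ (u - 1) := by
      rw [Real.rpow_sub_one ha.ne']
      field_simp
    have e3 : r ^ q = r * (r ^ 2) ^ (u - 1) := by
      rw [← Real.rpow_natCast, ← Real.rpow_mul hr'.le, mul_comm r, ← Real.rpow_add_one hr'.ne']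
      congr 1
      push_cast
      linarith
    have e4 : (1 + a * r ^ 2) ^ (-b) = ((1 + a * r ^ 2) ^ 2)⁻¹ *
        ((1 + a * r ^ 2)⁻¹ ^ (u - 1) * (1 + a * r ^ 2)⁻¹ ^ (b - u - 1)) := by
      rw [← Real.rpow_add (inv_pos.2 hw), ← inv_pow, ← Real.rpow_natCast (_⁻¹),
        ← Real.rpow_add (inv_pos.2 hw), Real.inv_rpow hw.le, Real.rpow_neg hw.le]
      congr 2
      push_cast
      ring
    rw [abs_of_pos (by positivity), sub_sub_cancel, e1, Real.mul_rpow (by positivity) (by positivity),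
      Real.mul_rpow ha.le (by positivity), e2, e3, e4, smul_eq_mul]
    ring
  have hau : 0 < 2 * a ^ u := by positivity
  obtain ⟨b1, b2⟩ := ResSph_beta hu0 hv0
  rw [← him] at b1 b2
  rw [integrableOn_image_iff_integrableOn_abs_deriv_smul measurableSet_Ioi hder hinj,
    integrableOn_congr_fun hpt measurableSet_Ioi] at b1
  rw [integral_image_eq_integral_abs_deriv_smul measurableSet_Ioi hder hinj,
    setIntegral_congr_fun measurableSet_Ioi hpt, integral_const_mul, add_sub_cancel] at b2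
  refine ⟨(integrable_const_mul_iff (isUnit_iff_ne_zero.2 hau.ne') _).1 b1, ?_⟩
  rw [← b2, Real.rpow_neg ha.le]
  field_simp

theorem int_Om_cube : Integrable (fun y => Om y ^ 3) ∧ ∫ y, Om y ^ 3 = 2 * π ^ 2 := by
  obtain ⟨h1, h2⟩ := int_beta (a := 1) (q := 2) (b := 3) one_pos (by norm_num) (by norm_num)
  have e : ∀ r ∈ Ioi (0 : ℝ), r ^ (0 + 2) * (2 / (1 + r ^ 2)) ^ 3 =
      8 * (r ^ (2 : ℝ) * (1 + 1 * r ^ 2) ^ (-3 : ℝ)) := fun r _ => by
    rw [Real.rpow_neg (by positivity), Real.rpow_ofNat, Real.rpow_ofNat]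
    field_simp
    ring
  have h3 := integrable_polar (hom_const 1) (g := fun r => (2 / (1 + r ^ 2)) ^ 3)
    ((integrableOn_congr_fun e measurableSet_Ioi).2 (h1.const_mul 8))
  have h4 := ResSph_polar (hom_const 1) fun r => (2 / (1 + r ^ 2)) ^ 3
  rw [setIntegral_congr_fun measurableSet_Ioi e, integral_const_mul, integral_const_mul, h2, sph_one,
    show ((2 : ℝ) + 1) / 2 = 3 / 2 by norm_num, show (3 : ℝ) - 3 / 2 = 3 / 2 by norm_num,
    ResSph_G32, Real.one_rpow] at h4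
  simp only [one_mul] at h3 h4
  refine ⟨h3, h4.trans ?_⟩
  have := Real.mul_self_sqrt Real.pi_pos.le
  rw [Real.Gamma_ofNat_eq_factorial 2]
  norm_num [Nat.factorial]
  linear_combination 2 * π * this

theorem int_Om_sq_div : Integrable (fun y : R3 => Om y ^ 2 / ‖y‖ ^ 2) ∧
    ∫ y : R3, Om y ^ 2 / ‖y‖ ^ 2 = 4 * π ^ 2 := by
  obtain ⟨h1, h2⟩ := int_beta (a := 1) (q := 0) (b := 2) one_pos (by norm_num) (by norm_num)
  have e : ∀ r ∈ Ioi (0 : ℝ), r ^ (0 + 2) * ((2 / (1 + r ^ 2)) ^ 2 / r ^ 2) =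
      4 * (r ^ (0 : ℝ) * (1 + 1 * r ^ 2) ^ (-2 : ℝ)) := fun r hr => by
    have : r ≠ 0 := hr.out.ne'
    rw [Real.rpow_neg (by positivity), Real.rpow_ofNat, Real.rpow_zero]
    field_simp
    ring
  have h3 := integrable_polar (hom_const 1) (g := fun r => (2 / (1 + r ^ 2)) ^ 2 / r ^ 2)
    ((integrableOn_congr_fun e measurableSet_Ioi).2 (h1.const_mul 4))
  have h4 := ResSph_polar (hom_const 1) fun r => (2 / (1 + r ^ 2)) ^ 2 / r ^ 2
  rw [setIntegral_congr_fun measurableSet_Ioi e, integral_const_mul, integral_const_mul, h2, sph_one,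
    show ((0 : ℝ) + 1) / 2 = 1 / 2 by norm_num, show (2 : ℝ) - 1 / 2 = 3 / 2 by norm_num,
    ResSph_G32, Real.Gamma_one_half_eq, Real.one_rpow, Real.Gamma_two] at h4
  simp only [one_mul] at h3 h4
  refine ⟨h3, h4.trans ?_⟩
  have := Real.mul_self_sqrt Real.pi_pos.le
  linear_combination 4 * π * this

end Pool.Agent.Work.MP_6bf1e5_an.H
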