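import Pool.Agent.Work.MP_6bf1e5_an.H.ResHl
import Pool.Agent.Work.MP_6bf1e5_an.H.ResSph

/-! Angular orthogonality and norms. -/

open scoped ContDiff ENNReal FourierTransform Real
open Set MeasureTheory

namespace Pool.Agent.Work.MP_6bf1e5_an.H

theorem ResOrt_smooth_pd {f : Sc} (hf : ContDiff ℝ ∞ f) (j : Fin 3) : ContDiff ℝ ∞ (pd j f) := by
  have h1 : ContDiff ℝ ∞ (fderiv ℝ f) := hf.fderiv_right (m := ∞) (by simp)
  exact h1.clm_apply contDiff_const

theorem ResOrt_diff {f : Sc} (hf : ContDiff ℝ ∞ f) : Differentiable ℝ f :=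
  hf.differentiable (by simp)

theorem ResOrt_pd_mul {f g : Sc} (hf : ContDiff ℝ ∞ f) (hg : ContDiff ℝ ∞ g) (j : Fin 3) (y : R3) :
    pd j (fun z => f z * g z) y = pd j f y * g y + f y * pd j g y := by
  unfold pd
  rw [fderiv_fun_mul (ResOrt_diff hf y) (ResOrt_diff hg y)]
  simp only [add_apply, smul_apply, smul_eq_mul]
  ring

theorem ResOrt_pd_add {f g : Sc} (hf : ContDiff ℝ ∞ f) (hg : ContDiff ℝ ∞ g) (j : Fin 3) (y : R3) :
    pd j (fun z => f z + g z) y = pd j f y + pd j g y := by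
  unfold pd
  rw [fderiv_fun_add (ResOrt_diff hf y) (ResOrt_diff hg y)]
  simp only [add_apply]

theorem ResOrt_pd_sub {f g : Sc} (hf : ContDiff ℝ ∞ f) (hg : ContDiff ℝ ∞ g) (j : Fin 3) (y : R3) :
    pd j (fun z => f z - g z) y = pd j f y - pd j g y := by
  unfold pd
  rw [fderiv_fun_sub (ResOrt_diff hf y) (ResOrt_diff hg y)]
  simp only [sub_apply]

theorem ResOrt_pd_normsq (j : Fin 3) (y : R3) : pd j (fun z : R3 => ‖z‖ ^ 2) y = 2 * y j := by
  unfold pd
  rw [(hasStrictFDerivAt_norm_sq y).hasFDerivAt.fderiv]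
  simp [EuclideanSpace.inner_single_right]

theorem ResOrt_smooth_normsq : ContDiff ℝ ∞ fun z : R3 => ‖z‖ ^ 2 := contDiff_norm_sq ℝ

/-- The divergence of `|y|² W`. -/
theorem ResOrt_dvg {W : Vc} (hW : ∀ i, ContDiff ℝ ∞ (W i)) (y : R3) :
    dvg (fun i z => ‖z‖ ^ 2 * W i z) y = 2 * dot pos W y + ‖y‖ ^ 2 * dvg W y := by
  unfold dvg dot pos
  rw [Finset.mul_sum, Finset.mul_sum, ← Finset.sum_add_distrib]
  refine Finset.sum_congr rfl fun i _ => ?_
  rw [ResOrt_pd_mul ResOrt_smooth_normsq (hW i), ResOrt_pd_normsq]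
  ring

theorem ResOrt_hom_pd {d : ℕ} {Q : Sc} (h : Hom d Q) (j : Fin 3) :
    Hom (d + 1) fun y => ‖y‖ ^ 2 * pd j Q y := by
  cases d with
  | zero =>
    have : (fun y : R3 => ‖y‖ ^ 2 * pd j Q y) = fun _ => 0 := by
      funext y
      rw [h.pd_zero j y, mul_zero]
    rw [this]
    exact hom_zero _
  | succ k =>
    have := hom_normsq.mul (h.pd j)
    rwa [show 2 + k = k + 1 + 1 by omega] at this

/-- The divergence theorem on the sphere in the form used below. -/
theorem ResOrt_sph_dvg {n : ℕ} {W : Vc} (hW : ∀ i, ContDiff ℝ ∞ (W i))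
    (h : ∀ i, Hom (n + 1) fun y => ‖y‖ ^ 2 * W i y) :
    sph (dvg W) = (n + 1) * sph (dot pos W) := by
  have h1 := sph_dvg (V := fun i z => ‖z‖ ^ 2 * W i z) h
  have hc1 : Continuous (dot pos W) := by
    unfold dot pos
    exact continuous_finsetSum _ fun i _ =>
      (EuclideanSpace.proj (𝕜 := ℝ) i).continuous.mul (hW i).continuous
  have hc2 : Continuous (dvg W) := by
    unfold dvg
    exact continuous_finsetSum _ fun i _ => (ResOrt_smooth_pd (hW i) i).continuous
  have h2 : sph (dvg fun i z => ‖z‖ ^ 2 * W i z) = 2 * sph (dot pos W) + sph (dvg W) := by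
    rw [← sph_cmul, ← sph_add (Q := fun y => 2 * dot pos W y) (continuous_const.mul hc1) hc2]
    refine sph_congr fun y hy => ?_
    rw [ResOrt_dvg hW, hy]
    ring
  have h3 : sph (dot pos fun i z => ‖z‖ ^ 2 * W i z) = sph (dot pos W) := by
    refine sph_congr fun y hy => ?_
    unfold dot
    simp only [hy, one_pow, one_mul]
  rw [h2, h3] at h1
  linarith

/-- `sph_dvg` for `P ∇ Q - Q ∇ P` times a coordinate-free factor: its divergence vanishes and its
radial part is (l' - l) P Q. For `l + l' = 1` use `|y|² (P ∇ Q - Q ∇ P)`, or always do so. -/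
theorem Harm.sph_mul {l l' : ℕ} {P Q : Sc} (h : Harm l P) (h' : Harm l' Q) (hl : l ≠ l') :
    sph (fun y => P y * Q y) = 0 := by
  have hP := h.smooth
  have hQ := h'.smooth
  have hW : ∀ i : Fin 3, ContDiff ℝ ∞ fun y => P y * H.pd i Q y - Q y * H.pd i P y := fun i =>
    (hP.mul (ResOrt_smooth_pd hQ i)).sub (hQ.mul (ResOrt_smooth_pd hP i))
  have hH : ∀ i : Fin 3,
      Hom (l + l' + 1) fun y => ‖y‖ ^ 2 * (P y * H.pd i Q y - Q y * H.pd i P y) := by
    intro i
    have h1 := h.toHom.mul (ResOrt_hom_pd h'.toHom i)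
    have h2 := h'.toHom.mul (ResOrt_hom_pd h.toHom i)
    rw [show l' + (l + 1) = l + (l' + 1) by omega] at h2
    have h3 := h1.sub h2
    have e : (fun y : R3 => ‖y‖ ^ 2 * (P y * H.pd i Q y - Q y * H.pd i P y)) =
        fun y => P y * (‖y‖ ^ 2 * H.pd i Q y) - Q y * (‖y‖ ^ 2 * H.pd i P y) := by
      funext y
      ring
    rw [e]
    exact h3
  have h1 := ResOrt_sph_dvg (W := fun i y => P y * H.pd i Q y - Q y * H.pd i P y) hW hH
  have h2 : dvg (fun i y => P y * H.pd i Q y - Q y * H.pd i P y) = fun y => 0 * P y := by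
    funext y
    have a1 := h.harm y
    have a2 := h'.harm y
    unfold lap at a1 a2
    unfold dvg
    have : ∀ i : Fin 3, H.pd i (fun y => P y * H.pd i Q y - Q y * H.pd i P y) y =
        P y * H.pd i (H.pd i Q) y - Q y * H.pd i (H.pd i P) y := by
      intro i
      rw [ResOrt_pd_sub (hP.mul (ResOrt_smooth_pd hQ i)) (hQ.mul (ResOrt_smooth_pd hP i)),
        ResOrt_pd_mul hP (ResOrt_smooth_pd hQ i), ResOrt_pd_mul hQ (ResOrt_smooth_pd hP i)]
      ring
    simp only [this]
    rw [Finset.sum_sub_distrib, ← Finset.mul_sum, ← Finset.mul_sum, a1, a2]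
    ring
  have h3 : dot pos (fun i y => P y * H.pd i Q y - Q y * H.pd i P y) =
      fun y => ((l' : ℝ) - l) * (P y * Q y) := by
    funext y
    have a1 := h.toHom.euler y
    have a2 := h'.toHom.euler y
    unfold yd at a1 a2
    unfold dot pos
    simp only [Fin.sum_univ_three] at a1 a2 ⊢
    linear_combination P y * a2 - Q y * a1
  rw [h2, h3, sph_cmul, sph_cmul, zero_mul] at h1
  have hne : (l' : ℝ) - l ≠ 0 := sub_ne_zero.2 (by exact_mod_cast hl.symm)
  have hpos : (((l + l' : ℕ) : ℝ) + 1) ≠ 0 := by positivity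
  rcases mul_eq_zero.1 h1.symm with h4 | h4
  · exact absurd h4 hpos
  · exact (mul_eq_zero.1 h4).resolve_left hne

/-- `lap (P Q) = 2 ∇ P · ∇ Q` and `sph_dvg` for `grad (P Q)`. -/
theorem Harm.sph_grad {l l' : ℕ} {P Q : Sc} (h : Harm l P) (h' : Harm l' Q) :
    2 * sph (dot (grad P) (grad Q)) = (l + l') * (l + l' + 1) * sph fun y => P y * Q y := by
  have hP := h.smooth
  have hQ := h'.smooth
  have hR := h.toHom.mul h'.toHom
  have h1 := ResOrt_sph_dvg (W := grad fun y => P y * Q y)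
    (fun i => ResOrt_smooth_pd hR.smooth i) (fun i => ResOrt_hom_pd hR i)
  have h2 : dvg (grad fun y => P y * Q y) = fun y => 2 * dot (grad P) (grad Q) y := by
    funext y
    have a1 := h.harm y
    have a2 := h'.harm y
    unfold lap at a1 a2
    unfold dvg grad dot
    have : ∀ i : Fin 3, H.pd i (H.pd i fun y => P y * Q y) y =
        H.pd i (H.pd i P) y * Q y + 2 * (H.pd i P y * H.pd i Q y) + P y * H.pd i (H.pd i Q) y := by
      intro i
      have e : (H.pd i fun y => P y * Q y) = fun y => H.pd i P y * Q y + P y * H.pd i Q y := by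
        funext z
        exact ResOrt_pd_mul hP hQ i z
      rw [e, ResOrt_pd_add ((ResOrt_smooth_pd hP i).mul hQ) (hP.mul (ResOrt_smooth_pd hQ i)),
        ResOrt_pd_mul (ResOrt_smooth_pd hP i) hQ, ResOrt_pd_mul hP (ResOrt_smooth_pd hQ i)]
      ring
    simp only [this]
    simp only [Fin.sum_univ_three] at a1 a2 ⊢
    linear_combination Q y * a1 + P y * a2
  have h3 : dot pos (grad fun y => P y * Q y) = fun y => ((l + l' : ℕ) : ℝ) * (P y * Q y) := by
    funext y
    exact hR.euler y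
  rw [h2, h3, sph_cmul, sph_cmul] at h1
  push_cast at h1
  linarith

theorem ResOrt_cont_Hl (l : ℕ) : Continuous (Hl l) := (hom_Hl l).smooth.continuous

/-- The recurrence on the sphere, tested with `Hl k`. -/
theorem ResOrt_rec (n k : ℕ) : (n + 2) * sph (fun y => Hl (n + 2) y * Hl k y) =
    (2 * n + 3) * sph (fun y => y 2 * (Hl (n + 1) y * Hl k y))
      - (n + 1) * sph (fun y => Hl n y * Hl k y) := by
  have hc : Continuous fun y : R3 => y 2 := (EuclideanSpace.proj (𝕜 := ℝ) (2 : Fin 3)).continuous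
  rw [← sph_cmul, ← sph_cmul, ← sph_cmul, ← sph_sub
    (Q := fun y => (2 * (n : ℝ) + 3) * (y 2 * (Hl (n + 1) y * Hl k y)))
    (Q' := fun y => ((n : ℝ) + 1) * (Hl n y * Hl k y))
    (continuous_const.mul (hc.mul ((ResOrt_cont_Hl _).mul (ResOrt_cont_Hl _))))
    (continuous_const.mul ((ResOrt_cont_Hl _).mul (ResOrt_cont_Hl _)))]
  refine sph_congr fun y hy => ?_
  have hn : (n : ℝ) + 2 ≠ 0 := by positivity
  simp only [Hl, hy]
  field_simp

theorem ResOrt_diag (l : ℕ) : sph (fun y => Hl l y * Hl l y) = 4 * π / (2 * l + 1) := by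
  have h0 : sph (fun y => Hl 0 y * Hl 0 y) = 4 * π := by
    rw [← sph_one]
    exact sph_congr fun y _ => by simp [Hl]
  have key : ∀ n : ℕ, sph (fun y => Hl (n + 1) y * Hl (n + 1) y) = 4 * π / (2 * (n + 1 : ℕ) + 1) := by
    intro n
    induction n with
    | zero =>
      have h1 := ResOrt_rec 0 0
      rw [(harm_Hl (0 + 2)).sph_mul (harm_Hl 0) (by omega), h0] at h1
      have h2 : sph (fun y => y 2 * (Hl (0 + 1) y * Hl 0 y)) =
          sph (fun y => Hl (0 + 1) y * Hl (0 + 1) y) :=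
        sph_congr fun y _ => by simp [Hl]
      rw [h2] at h1
      push_cast at h1 ⊢
      rw [eq_div_iff (by norm_num)]
      linarith
    | succ n ih =>
      have h1 := ResOrt_rec n (n + 2)
      have h2 := ResOrt_rec (n + 1) (n + 1)
      rw [(harm_Hl n).sph_mul (harm_Hl (n + 2)) (by omega)] at h1
      rw [(harm_Hl (n + 1 + 2)).sph_mul (harm_Hl (n + 1)) (by omega), ih] at h2
      have h3 : sph (fun y => y 2 * (Hl (n + 1 + 1) y * Hl (n + 1) y)) =
          sph (fun y => y 2 * (Hl (n + 1) y * Hl (n + 2) y)) :=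
        sph_congr fun y _ => by rw [mul_comm (Hl (n + 1 + 1) y)]
      rw [h3] at h2
      push_cast at h1 h2 ⊢
      have a1 : (2 * ((n : ℝ) + 1) + 1) ≠ 0 := by positivity
      have a2 : (2 * ((n : ℝ) + 1 + 1) + 1) ≠ 0 := by positivity
      have a3 : (n : ℝ) + 2 ≠ 0 := by positivity
      rw [eq_div_iff a2]
      have h4 : 4 * π / (2 * ((n : ℝ) + 1) + 1) * (2 * ((n : ℝ) + 1) + 1) = 4 * π :=
        div_mul_cancel₀ _ a1
      apply mul_left_cancel₀ a3
      change ((n : ℝ) + 2) * (sph (fun y => Hl (n + 2) y * Hl (n + 2) y) * _) = _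
      linear_combination (2 * (n : ℝ) + 5) * h1 - (2 * (n : ℝ) + 3) * h2 + ((n : ℝ) + 2) * h4
  cases l with
  | zero => rw [h0]; simp
  | succ n => exact key n

/-- Multiply the recurrence by `Hl (n + 2)` and the next one by `Hl (n + 1)`. -/
theorem sph_Hl (l l' : ℕ) :
    sph (fun y => Hl l y * Hl l' y) = if l = l' then 4 * π / (2 * l + 1) else 0 := by
  split_ifs with h
  · subst h
    exact ResOrt_diag l
  · exact (harm_Hl l).sph_mul (harm_Hl l') h

theorem sph_grad_Hl (l l' : ℕ) :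
    sph (dot (grad (Hl l)) (grad (Hl l'))) = if l = l' then 4 * π * l else 0 := by
  have h1 := (harm_Hl l).sph_grad (harm_Hl l')
  rw [sph_Hl] at h1
  split_ifs at h1 ⊢ with h
  · subst h
    have a1 : (2 * (l : ℝ) + 1) ≠ 0 := by positivity
    have h4 : 4 * π / (2 * (l : ℝ) + 1) * (2 * (l : ℝ) + 1) = 4 * π := div_mul_cancel₀ _ a1
    linear_combination h1 / 2 + l * h4
  · linarith

theorem sph_TT (l l' : ℕ) : sph (dot (TT l) (TT l')) = if l = l' then nT l else 0 := by
  have hc : Continuous (dot (grad (Hl l)) (grad (Hl l'))) := by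
    unfold dot grad
    exact continuous_finsetSum _ fun i _ =>
      (ResOrt_smooth_pd (hom_Hl l).smooth i).continuous.mul
        (ResOrt_smooth_pd (hom_Hl l').smooth i).continuous
  have h1 : sph (dot (TT l) (TT l')) = sph (dot (grad (Hl l)) (grad (Hl l')))
      - l * l' * sph (fun y => Hl l y * Hl l' y) := by
    rw [← sph_cmul, ← sph_sub (Q' := fun y => (l : ℝ) * l' * (Hl l y * Hl l' y)) hc
      (continuous_const.mul ((ResOrt_cont_Hl _).mul (ResOrt_cont_Hl _)))]
    refine sph_congr fun y hy => ?_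
    rw [dot_TT, hy]
    ring
  rw [h1, sph_grad_Hl, sph_Hl]
  split_ifs with h
  · subst h
    have a1 : (2 * (l : ℝ) + 1) ≠ 0 := by positivity
    unfold nT
    field_simp
    ring
  · simp

theorem hom_dot_TT (l l' : ℕ) : Hom (l + l') (dot (TT l) (TT l')) :=
  Hom.sum Finset.univ fun i _ => (harm_TT l i).toHom.mul (harm_TT l' i).toHom

theorem int_TT (l l' : ℕ) (g : ℝ → ℝ) : ∫ y, dot (TT l) (TT l') y * g ‖y‖ =
    if l = l' then nT l * ∫ r in Ioi (0 : ℝ), r ^ (2 * l + 2) * g r else 0 := by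
  rw [polar (hom_dot_TT l l').hom g, sph_TT]
  split_ifs with h
  · subst h
    rw [two_mul]
  · simp

end Pool.Agent.Work.MP_6bf1e5_an.H
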