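import Pool.Agent.Work.MP_6bf1e5_an.H.ResHl

/-! Calculus of the radial variable, and the potentials. -/

open scoped ContDiff ENNReal FourierTransform Real
open Set MeasureTheory

namespace Pool.Agent.Work.MP_6bf1e5_an.H

variable {a m : ℝ} {d l : ℕ} {P Q : Sc} {L : Finset ℕ}

theorem tau_pos (ha : 0 < a) (y : R3) : 0 < tau a y :=
  Real.rpow_pos_of_pos (by positivity) _
theorem tau_le_one (ha : 0 < a) (y : R3) : tau a y ≤ 1 :=
  Real.rpow_le_one_of_one_le_of_nonpos (le_add_of_nonneg_right (by positivity)) (by norm_num)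
theorem tau_pow (ha : 0 < a) (k : ℕ) (y : R3) :
    tau a y ^ k = (1 + a * ‖y‖ ^ 2) ^ (-((k : ℝ) / 4)) := by
  rw [tau, ← Real.rpow_natCast, ← Real.rpow_mul (by positivity)]
  congr 1; ring
theorem tau_four (ha : 0 < a) (y : R3) : tau a y ^ 4 * (1 + a * ‖y‖ ^ 2) = 1 := by
  have h : (0 : ℝ) < 1 + a * ‖y‖ ^ 2 := by positivity
  rw [tau_pow ha, show -(((4 : ℕ) : ℝ) / 4) = -1 by norm_num, Real.rpow_neg_one,
    inv_mul_cancel₀ h.ne']

theorem ResRad_w (a : ℝ) : ContDiff ℝ ∞ fun y : R3 => 1 + a * ‖y‖ ^ 2 :=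
  contDiff_const.add (contDiff_const.mul hom_normsq.smooth)

theorem tau_smooth (ha : 0 < a) : ContDiff ℝ ∞ (tau a) :=
  (ResRad_w a).rpow_const_of_ne fun y => by positivity
theorem pd_tau_pow (ha : 0 < a) (k : ℕ) (j : Fin 3) (y : R3) :
    pd j (fun y => tau a y ^ k) y = -(k / 2 * a * y j * tau a y ^ (k + 4)) := by
  have h : (0 : ℝ) < 1 + a * ‖y‖ ^ 2 := by positivity
  have h1 := (ResHl_diff (ResRad_w a) y).hasFDerivAt.rpow_const (p := -((k : ℝ) / 4)) (Or.inl h.ne')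
  have h2 : pd j (fun y : R3 => 1 + a * ‖y‖ ^ 2) y = a * (2 * y j) := by
    rw [ResHl_pd_add contDiff_const (contDiff_const.mul hom_normsq.smooth),
      ResHl_pd_mul contDiff_const hom_normsq.smooth, ResHl_pd_const, ResHl_pd_const,
      ResHl_pd_normsq]
    ring
  simp only [tau_pow ha]
  rw [pd, h1.fderiv, _root_.smul_apply, smul_eq_mul]
  rw [pd] at h2
  rw [h2, show -(((k + 4 : ℕ) : ℝ) / 4) = -((k : ℝ) / 4) - 1 by push_cast; ring]
  ring

theorem ResRad_pds_smooth {f : Sc} (h : ContDiff ℝ ∞ f) (l : List (Fin 3)) :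
    ContDiff ℝ ∞ (pds l f) := by
  induction l with
  | nil => exact h
  | cons j l ih => exact ResHl_sm_pd ih j

theorem ResRad_pds_add {f g : Sc} (hf : ContDiff ℝ ∞ f) (hg : ContDiff ℝ ∞ g) (l : List (Fin 3)) :
    pds l (fun y => f y + g y) = fun y => pds l f y + pds l g y := by
  induction l with
  | nil => rfl
  | cons j l ih =>
    funext y
    change pd j (pds l fun y => f y + g y) y = pd j (pds l f) y + pd j (pds l g) y
    rw [ih, ResHl_pd_add (ResRad_pds_smooth hf l) (ResRad_pds_smooth hg l)]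

theorem ResRad_pds_zero (l : List (Fin 3)) : pds l (fun _ => 0) = fun _ => 0 := by
  induction l with
  | nil => rfl
  | cons j l ih =>
    funext y
    change pd j (pds l fun _ => 0) y = 0
    rw [ih, ResHl_pd_const]

theorem ResRad_tau_le (ha : 0 < a) (k : ℕ) :
    ∃ C, 0 ≤ C ∧ ∀ y, tau a y ^ k ≤ C * (1 + ‖y‖) ^ (-((k : ℝ) / 2)) := by
  have hc : 0 < min 1 a / 2 := by positivity
  refine ⟨(min 1 a / 2) ^ (-((k : ℝ) / 4)), by positivity, fun y => ?_⟩
  have hy := norm_nonneg y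
  have h1 : min 1 a / 2 * (1 + ‖y‖) ^ (2 : ℝ) ≤ 1 + a * ‖y‖ ^ 2 := by
    rw [Real.rpow_two]
    have h2 : min 1 a * ‖y‖ ^ 2 ≤ a * ‖y‖ ^ 2 :=
      mul_le_mul_of_nonneg_right (min_le_right _ _) (by positivity)
    have h3 : min 1 a / 2 * (1 + ‖y‖) ^ 2 ≤ min 1 a / 2 * (2 + 2 * ‖y‖ ^ 2) :=
      mul_le_mul_of_nonneg_left (by nlinarith [sq_nonneg (1 - ‖y‖)]) hc.le
    have h4 := min_le_left 1 a
    linarith
  rw [tau_pow ha, show -((k : ℝ) / 2) = 2 * -((k : ℝ) / 4) by ring,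
    Real.rpow_mul (by positivity), ← Real.mul_rpow hc.le (by positivity)]
  exact Real.rpow_le_rpow_of_nonpos (by positivity) h1 (by
    have : (0 : ℝ) ≤ k / 4 := by positivity
    linarith)

theorem ResRad_pd_tau_mul (ha : 0 < a) (h : ContDiff ℝ ∞ Q) (k : ℕ) (j : Fin 3) (y : R3) :
    pd j (fun y => tau a y ^ k * Q y) y =
      tau a y ^ (k + 4) * (-(k / 2 * a) * (y j * Q y)) + tau a y ^ k * pd j Q y := by
  rw [ResHl_pd_mul ((tau_smooth ha).pow k) h, pd_tau_pow ha]
  ring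

/-- Induction on the list of derivatives for the whole family (all `k`, `d`, `Q`): a derivative of
`tau ^ k * Q` is `tau ^ (k + 4) * (c y_j Q) + tau ^ k * pd j Q`; both have order `d - k / 2 - 1`.
Use `Hom.bound` and `tau ^ k ≤ C (1 + ‖y‖) ^ (-k / 2)`. -/
theorem sym_tau_mul (ha : 0 < a) (h : Hom d Q) (k : ℕ) :
    Sym (d - k / 2) fun y => tau a y ^ k * Q y := by
  refine ⟨((tau_smooth ha).pow k).mul h.smooth, fun l => ?_⟩
  induction l using List.reverseRecOn generalizing k d Q with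
  | nil =>
    obtain ⟨C, hC, h1⟩ := ResRad_tau_le ha k
    obtain ⟨C', hC', h2⟩ := h.bound
    refine ⟨C * C', fun y => ?_⟩
    have hy := norm_nonneg y
    have h3 : |Q y| ≤ C' * (1 + ‖y‖) ^ (d : ℝ) := by
      rw [Real.rpow_natCast]
      exact (h2 y).trans (by gcongr; linarith)
    change |tau a y ^ k * Q y| ≤ _
    rw [abs_mul, abs_of_pos (pow_pos (tau_pos ha y) k), List.length_nil, Nat.cast_zero, sub_zero,
      sub_eq_add_neg, Real.rpow_add (by positivity)]
    refine (mul_le_mul (h1 y) h3 (abs_nonneg _) (by positivity)).trans (le_of_eq ?_)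
    ring
  | append_singleton l j ih =>
    have hA := ((hom_coord j).mul h).cmul (-(k / 2 * a))
    obtain ⟨C, h1⟩ := ih hA (k + 4)
    have h2 : ∃ C, ∀ y, |pds l (fun y => tau a y ^ k * pd j Q y) y| ≤
        C * (1 + ‖y‖) ^ ((d : ℝ) - k / 2 - (l.length + 1)) := by
      cases d with
      | zero =>
        refine ⟨0, fun y => ?_⟩
        simp only [h.pd_zero, mul_zero, ResRad_pds_zero, abs_zero, zero_mul, le_refl]
      | succ d =>
        obtain ⟨C, h2⟩ := ih (h.pd j) k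
        refine ⟨C, fun y => (h2 y).trans (le_of_eq ?_)⟩
        congr 2
        push_cast; ring
    obtain ⟨C', h2⟩ := h2
    refine ⟨C + C', fun y => ?_⟩
    have e : pds (l ++ [j]) (fun y => tau a y ^ k * Q y) =
        pds l (pd j fun y => tau a y ^ k * Q y) := List.foldr_append
    rw [e, funext (ResRad_pd_tau_mul ha h.smooth k j), ResRad_pds_add
      (((tau_smooth ha).pow _).mul hA.smooth)
      (((tau_smooth ha).pow _).mul (ResHl_sm_pd h.smooth j)), add_mul]
    refine (abs_add_le _ _).trans (add_le_add ((h1 y).trans (le_of_eq ?_))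
      ((h2 y).trans (le_of_eq ?_)))
    · congr 2
      simp only [List.length_append, List.length_singleton]
      push_cast; ring
    · simp

theorem ResRad_four (ha : 0 < a) (k : ℕ) (y : R3) :
    a * (y 0 * y 0 + y 1 * y 1 + y 2 * y 2) * tau a y ^ (k + 4) =
      tau a y ^ k - tau a y ^ (k + 4) := by
  have h := tau_four ha y
  rw [← ResHl_normsq, pow_add]
  linear_combination tau a y ^ k * h

theorem yd_tau_mul (ha : 0 < a) (h : Hom d Q) (k : ℕ) (y : R3) :
    yd (fun y => tau a y ^ k * Q y) y =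
      ((d - k / 2) * tau a y ^ k + k / 2 * tau a y ^ (k + 4)) * Q y := by
  have h1 := h.euler y
  have h2 := ResRad_four ha k y
  simp only [yd, Fin.sum_univ_three, ResRad_pd_tau_mul ha h.smooth] at h1 ⊢
  linear_combination tau a y ^ k * h1 - k / 2 * Q y * h2

theorem lap_tau_mul (ha : 0 < a) (h : Harm l P) (k : ℕ) (y : R3) :
    -lap (fun y => tau a y ^ k * P y) y = a * (k * (k + 4) / 4 * tau a y ^ (k + 8)
      + k * (4 * l + 2 - k) / 4 * tau a y ^ (k + 4)) * P y := by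
  have h1 := h.toHom.euler y
  have h2 := ResRad_four ha (k + 4) y
  have h3 : ∀ j, pd j (pd j fun y => tau a y ^ k) y = -(k / 2 * a) * (tau a y ^ (k + 4) -
      ((k + 4 : ℕ) : ℝ) / 2 * a * (y j * y j) * tau a y ^ (k + 4 + 4)) := by
    intro j
    have e : (pd j fun y => tau a y ^ k) =
        fun y => tau a y ^ (k + 4) * (-(k / 2 * a) * y j) := by
      funext z
      rw [pd_tau_pow ha]; ring
    rw [e, ResRad_pd_tau_mul ha ((hom_coord j).cmul _).smooth,
      ResHl_pd_mul contDiff_const (ResHl_sm_coord j), ResHl_pd_const, ResHl_pd_coord, if_pos rfl]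
    ring
  rw [ResHl_lap_mul ((tau_smooth ha).pow k) h.smooth, h.harm]
  simp only [yd, lap, Fin.sum_univ_three, pd_tau_pow ha, h3] at h1 ⊢
  rw [show k + 4 + 4 = k + 8 from rfl] at h2 ⊢
  push_cast
  linear_combination k * a * tau a y ^ (k + 4) * h1 - k * (k + 4) / 4 * a * P y * h2

theorem ResRad_sym_mono {f : Sc} {m' : ℝ} (h : Sym m f) (hm : m ≤ m') : Sym m' f := by
  refine ⟨h.1, fun l => ?_⟩
  obtain ⟨C, hC⟩ := h.2 l
  refine ⟨|C|, fun y => (hC y).trans ?_⟩
  have hy := norm_nonneg y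
  exact mul_le_mul (le_abs_self C) (Real.rpow_le_rpow_of_exponent_le (by linarith) (by linarith))
    (by positivity) (abs_nonneg C)

theorem ResRad_sym_sum {ι : Type} (s : Finset ι) {f : ι → Sc} (h : ∀ i ∈ s, Sym m (f i)) :
    Sym m fun y => ∑ i ∈ s, f i y := by
  classical
  induction s using Finset.induction_on with
  | empty =>
    refine ⟨by simpa using contDiff_const, fun l => ⟨0, fun y => ?_⟩⟩
    simp [ResRad_pds_zero]
  | insert i s hi ih =>
    have h1 := h i (Finset.mem_insert_self i s)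
    have h2 := ih fun j hj => h j (Finset.mem_insert_of_mem hj)
    simp only [Finset.sum_insert hi]
    refine ⟨h1.1.add h2.1, fun l => ?_⟩
    obtain ⟨C, hC⟩ := h1.2 l
    obtain ⟨C', hC'⟩ := h2.2 l
    refine ⟨C + C', fun y => ?_⟩
    rw [ResRad_pds_add h1.1 h2.1, add_mul]
    exact (abs_add_le _ _).trans (add_le_add (hC y) (hC' y))

theorem ResRad_TR (a : ℝ) (L : Finset ℕ) (R : ℕ → Rad) (i : Fin 3) : TR a L R i =
    fun y => ∑ l ∈ L, ∑ j ∈ Finset.range (R l).N,
      tau a y ^ ((R l).e + j) * ((R l).c j * TT l i y) := by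
  funext y
  simp only [TR, TF, Rad.f, Finset.sum_mul]
  exact Finset.sum_congr rfl fun l _ => Finset.sum_congr rfl fun j _ => by ring

theorem ResRad_pd_sum {ι : Type} (s : Finset ι) {f : ι → Sc} (h : ∀ i ∈ s, ContDiff ℝ ∞ (f i))
    (j : Fin 3) (y : R3) : pd j (fun y => ∑ i ∈ s, f i y) y = ∑ i ∈ s, pd j (f i) y := by
  rw [pd, fderiv_fun_sum fun i hi => ResHl_diff (h i hi) y, _root_.sum_apply]
  rfl

theorem sym_TR (ha : 0 < a) {R : ℕ → Rad} (h : ∀ l ∈ L, (l : ℝ) - (R l).e / 2 ≤ m) (i : Fin 3) :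
    Sym m (TR a L R i) := by
  rw [ResRad_TR]
  refine ResRad_sym_sum _ fun l hl => ResRad_sym_sum _ fun j _ => ?_
  refine ResRad_sym_mono (sym_tau_mul ha ((harm_TT l i).toHom.cmul _) _) ?_
  have h1 := h l hl
  have h2 : (0 : ℝ) ≤ j := Nat.cast_nonneg j
  push_cast
  linarith

theorem dot_pos_TF (a : ℝ) (L : Finset ℕ) (f : ℕ → ℝ → ℝ) (y : R3) :
    dot pos (TF a L f) y = 0 := by
  simp only [dot, TF, Finset.mul_sum]
  rw [Finset.sum_comm]
  refine Finset.sum_eq_zero fun l _ => ?_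
  have h := dot_pos_TT l y
  simp only [dot, Fin.sum_univ_three] at h ⊢
  linear_combination f l (tau a y) * h

theorem dvg_TR (ha : 0 < a) (L : Finset ℕ) (R : ℕ → Rad) (y : R3) : dvg (TR a L R) y = 0 := by
  have hs : ∀ (l k : ℕ) (c : ℝ) (i : Fin 3), ContDiff ℝ ∞ fun y => tau a y ^ k * (c * TT l i y) :=
    fun l k c i => ((tau_smooth ha).pow k).mul ((harm_TT l i).toHom.cmul c).smooth
  have e : ∀ i, pd i (TR a L R i) y = ∑ l ∈ L, ∑ j ∈ Finset.range (R l).N,
      pd i (fun y => tau a y ^ ((R l).e + j) * ((R l).c j * TT l i y)) y := by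
    intro i
    rw [ResRad_TR, ResRad_pd_sum _ fun l _ => ContDiff.sum fun j _ => hs l _ _ i]
    exact Finset.sum_congr rfl fun l _ => ResRad_pd_sum _ (fun j _ => hs l _ _ i) i y
  simp only [dvg, e]
  rw [Finset.sum_comm]
  refine Finset.sum_eq_zero fun l _ => ?_
  rw [Finset.sum_comm]
  refine Finset.sum_eq_zero fun j _ => ?_
  have h1 := dot_pos_TT l y
  have h2 := dvg_TT l y
  have h3 : ∀ i, pd i (fun y => tau a y ^ ((R l).e + j) * ((R l).c j * TT l i y)) y =
      tau a y ^ ((R l).e + j + 4) * (-((((R l).e + j : ℕ) : ℝ) / 2 * a) *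
        (y i * ((R l).c j * TT l i y))) +
      tau a y ^ ((R l).e + j) * ((R l).c j * pd i (TT l i) y) := by
    intro i
    rw [ResRad_pd_tau_mul ha ((harm_TT l i).toHom.cmul _).smooth,
      ResHl_pd_mul contDiff_const (harm_TT l i).smooth, ResHl_pd_const, zero_mul, zero_add]
  simp only [dot, dvg, pos, Fin.sum_univ_three, h3] at h1 h2 ⊢
  linear_combination tau a y ^ ((R l).e + j + 4) * (-((((R l).e + j : ℕ) : ℝ) / 2 * a)) *
    (R l).c j * h1 + tau a y ^ ((R l).e + j) * (R l).c j * h2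

theorem curl_curl_of_dvg {V : Vc} (hV : ∀ i, ContDiff ℝ ∞ (V i)) (hd : ∀ y, dvg V y = 0)
    (i : Fin 3) (y : R3) : curl (curl V) i y = -lap (V i) y := by
  have hc : ∀ i j k, pd i (pd j (V k)) y = pd j (pd i (V k)) y :=
    fun i j k => ResHl_pd_comm (hV k) i j y
  have h0 : ∑ k, pd i (pd k (V k)) y = 0 := by
    rw [← ResHom_pd_sum fun k => ResHl_sm_pd (hV k) k]
    have : (fun y => ∑ k, pd k (V k) y) = fun _ => 0 := funext hd
    rw [this, ResHl_pd_const]
  have h1 : ∀ j k, pd j (curl V k) y =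
      pd j (pd (k + 1) (V (k + 2))) y - pd j (pd (k + 2) (V (k + 1))) y :=
    fun j k => ResHl_pd_sub (ResHl_sm_pd (hV _) _) (ResHl_sm_pd (hV _) _) j y
  change pd (i + 1) (curl V (i + 2)) y - pd (i + 2) (curl V (i + 1)) y = _
  rw [h1, h1, lap]
  rw [Fin.sum_univ_three] at h0 ⊢
  have a1 := hc 0 1 1
  have a2 := hc 0 2 2
  have a3 := hc 1 0 0
  have a4 := hc 1 2 2
  have a5 := hc 2 0 0
  have a6 := hc 2 1 1
  fin_cases i <;> simp at h0 ⊢ <;> linarith

theorem pot_TR (ha : 0 < a) (hL : ∀ l ∈ L, Even l) {f s : ℕ → Rad}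
    (hf : ∀ l ∈ L, (l : ℝ) - (f l).e / 2 ≤ m + 1) (hs : ∀ l ∈ L, (l : ℝ) - (s l).e / 2 ≤ m) :
    Pot m (TR a L f) (TR a L s) :=
  ⟨sym_TR ha hf, sym_TR ha hs, dot_pos_TF a L _, dvg_TR ha L s, eqv_TF a hL _, eqv_TF a hL _⟩

end Pool.Agent.Work.MP_6bf1e5_an.H
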