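import Pool.Agent.Work.MP_6bf1e5_an.H.FrA
import Pool.Agent.Work.MP_6bf1e5_an.H.ResOrt
import Pool.Agent.Work.MP_6bf1e5_an.H.ResRad

/-! Integrals of separated functions (owner helper18). -/

open scoped ContDiff ENNReal FourierTransform Real
open Set MeasureTheory Polynomial

namespace Pool.Agent.Work.MP_6bf1e5_an.H

variable {a s : ℝ}

theorem cos_phA (ha : 0 < a) (y : R3) : Real.cos (phA a y) = 2 * tau a y - 1 :=
  Real.cos_arccos (by linarith [tau_pos ha y]) (by linarith [tau_le_one ha y])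

theorem cos_omA (ha : 0 < a) (y : R3) : Real.cos (omA a y) = √(tau a y) :=
  Real.cos_arccos (by linarith [Real.sqrt_nonneg (tau a y)]) (Real.sqrt_le_one.2 (tau_le_one ha y))

theorem cos_omA_sq (ha : 0 < a) (y : R3) : Real.cos (omA a y) ^ 2 = tau a y := by
  rw [cos_omA ha, Real.sq_sqrt (tau_pos ha y).le]

theorem omA_mem (a : ℝ) (y : R3) : omA a y ∈ Icc 0 (π / 2) :=
  ⟨Real.arccos_nonneg _, Real.arccos_le_pi_div_two.2 (Real.sqrt_nonneg _)⟩

theorem phA_eq (ha : 0 < a) (y : R3) : phA a y = 2 * omA a y := by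
  have h := omA_mem a y
  rw [phA, ← cos_omA_sq ha, ← Real.cos_two_mul, Real.arccos_cos (by linarith [h.1]) (by linarith [h.2])]

theorem meas_tau (ha : 0 < a) : Measurable (tau a) := (tau_smooth ha).continuous.measurable

theorem meas_phA (ha : 0 < a) : Measurable (phA a) :=
  Real.continuous_arccos.measurable.comp (((meas_tau ha).const_mul 2).sub_const 1)

theorem meas_omA (ha : 0 < a) : Measurable (omA a) :=
  Real.continuous_arccos.measurable.comp (meas_tau ha).sqrt

theorem meas_th2 : Measurable th2 := meas_pa.const_mul 2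

theorem meas_kA (ha : 0 < a) : Measurable (kA a) := (((meas_tau ha).pow_const 4).const_sub 1).sqrt

theorem FrI_hom : ∀ k : ℕ, Hom k fun y => y 2 ^ k
  | 0 => by simpa using hom_const 1
  | k + 1 => by simpa only [pow_succ] using (FrI_hom k).mul (hom_coord 2)

theorem FrI_step (k : ℕ) :
    (k + 1) * sph (fun y => y 2 ^ k) = (k + 3) * sph fun y => y 2 ^ (k + 2) := by
  have h := sph_dvg (d := k) (V := ![fun _ => 0, fun _ => 0, fun y => y 2 ^ (k + 1)]) fun i => by
    fin_cases i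
    exacts [hom_zero _, hom_zero _, FrI_hom _]
  have e1 : dvg ![fun _ => 0, fun _ => 0, fun y => y 2 ^ (k + 1)] =
      fun y : R3 => (k + 1) * y 2 ^ k := by
    funext y
    have h1 : HasFDerivAt (fun y : R3 => y 2 ^ (k + 1)) _ y :=
      (EuclideanSpace.proj (𝕜 := ℝ) (2 : Fin 3)).hasFDerivAt.pow (k + 1)
    simp [dvg, Fin.sum_univ_three, pd, h1.fderiv]
  have e2 : dot pos ![fun _ => 0, fun _ => 0, fun y => y 2 ^ (k + 1)] = fun y => y 2 ^ (k + 2) := by
    funext y
    simp [dot, pos, Fin.sum_univ_three]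
    ring
  rwa [e1, e2, sph_cmul] at h

theorem FrI_mono : ∀ k : ℕ, sph (fun y => y 2 ^ k) = 2 * π * ∫ c in (-1 : ℝ)..1, c ^ k
  | 0 => by
    simp only [pow_zero, sph_one, integral_one]
    ring
  | 1 => by simpa [Hl] using sph_Hl 1 0
  | k + 2 => by
    have h := FrI_step k
    rw [FrI_mono k, integral_pow] at h
    have h1 : (k + 3 : ℝ) ≠ 0 := by positivity
    have h2 : (k + 1 : ℝ) ≠ 0 := by positivity
    refine mul_left_cancel₀ h1 ?_
    rw [← h, integral_pow]
    push_cast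
    rw [show (k + 2 + 1 : ℝ) = k + 3 by ring]
    field_simp
    ring

theorem FrI_poly (p : ℝ[X]) :
    sph (fun y => p.eval (y 2)) = 2 * π * ∫ c in (-1 : ℝ)..1, p.eval c := by
  have hc : ∀ p : ℝ[X], Continuous fun y : R3 => p.eval (y 2) := fun p =>
    p.continuous.comp (by fun_prop)
  induction p using Polynomial.induction_on' with
  | add p q hp hq =>
    simp only [eval_add]
    rw [sph_add (hc p) (hc q), hp, hq, intervalIntegral.integral_add
      (p.continuous.intervalIntegrable _ _) (q.continuous.intervalIntegrable _ _), mul_add]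
  | monomial n c =>
    simp only [eval_monomial]
    rw [sph_cmul, FrI_mono, intervalIntegral.integral_const_mul]
    ring

/-- Zonal functions on the sphere. -/
theorem sph_zonal {b : ℝ → ℝ} (hb : Continuous b) :
    sph (fun y => b (y 2)) = 2 * π * ∫ c in (-1 : ℝ)..1, b c := by
  refine eq_of_forall_dist_le fun ε hε => ?_
  have hπ := Real.pi_pos
  obtain ⟨p, hp⟩ := exists_polynomial_near_of_continuousOn (-1) 1 b hb.continuousOn (ε / (8 * π))
    (by positivity)
  have h1 : |sph fun y => p.eval (y 2) - b (y 2)| ≤ ε / (8 * π) * (4 * π) := by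
    have h2 := sph_one
    simp only [sph, integral_const, smul_eq_mul, mul_one] at h2
    rw [← h2, sph, ← Real.norm_eq_abs]
    refine norm_integral_le_of_norm_le_const (Filter.Eventually.of_forall fun x => ?_)
    refine (hp (x.1 2) ?_).le
    have h3 : |x.1 2| ≤ ‖x.1‖ := by simpa using PiLp.norm_apply_le x.1 2
    rw [norm_eq_of_mem_sphere] at h3
    exact abs_le.1 h3
  have h2 : |∫ c in (-1 : ℝ)..1, (p.eval c - b c)| ≤ ε / (8 * π) * |(1 : ℝ) - -1| := by
    rw [← Real.norm_eq_abs]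
    refine intervalIntegral.norm_integral_le_of_norm_le_const fun c hc => ?_
    rw [uIoc_of_le (by norm_num)] at hc
    exact (hp c (Ioc_subset_Icc_self hc)).le
  rw [sph_sub (Q := fun y => p.eval (y 2)) (Q' := fun y => b (y 2)) (p.continuous.comp (by fun_prop))
    (hb.comp (by fun_prop)), FrI_poly] at h1
  rw [intervalIntegral.integral_sub (p.continuous.intervalIntegrable _ _)
    (hb.intervalIntegrable _ _), show |(1 : ℝ) - -1| = 2 by norm_num] at h2
  have h3 : ε / (8 * π) * (4 * π) = ε / 2 := by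
    field_simp
    ring
  have h4 := mul_le_mul_of_nonneg_left h2 (show 0 ≤ 2 * π by positivity)
  rw [← abs_of_pos (show 0 < 2 * π by positivity), ← abs_mul, abs_of_pos (show 0 < 2 * π by positivity),
    mul_sub] at h4
  rw [Real.dist_eq, abs_le]
  rw [abs_le] at h1 h4
  constructor <;> nlinarith [h1.1, h1.2, h4.1, h4.2]

theorem sph_pa {B : ℝ → ℝ} (hB : Continuous B) :
    sph (fun y => B (pa y)) = 2 * π * ∫ θ in (0 : ℝ)..π, B θ * Real.sin θ := by
  have hb : Continuous fun c => B (Real.arccos c) := hB.comp Real.continuous_arccos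
  rw [sph_congr (Q' := fun y => B (Real.arccos (y 2))) fun y hy => by rw [pa, hy, div_one],
    sph_zonal hb]
  have h := intervalIntegral.integral_comp_mul_deriv (a := 0) (b := π)
    (fun x _ => Real.hasDerivAt_cos x) Real.continuous_sin.neg.continuousOn hb
  rw [Real.cos_zero, Real.cos_pi, intervalIntegral.integral_symm (-1) 1] at h
  rw [← neg_neg (∫ c in (-1 : ℝ)..1, _), ← h, ← intervalIntegral.integral_neg]
  congr 1
  refine intervalIntegral.integral_congr fun θ hθ => ?_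
  rw [uIcc_of_le Real.pi_pos.le] at hθ
  simp only [Function.comp_apply, Real.arccos_cos hθ.1 hθ.2, mul_neg, neg_neg]

theorem pa_smul {r : ℝ} (hr : 0 < r) (y : R3) : pa (r • y) = pa y := by
  simp only [pa, PiLp.smul_apply, smul_eq_mul, norm_smul, Real.norm_eq_abs, abs_of_pos hr,
    mul_div_mul_left _ _ hr.ne']

/-- Separated functions, radial variable `‖y‖`. -/
theorem int_rad_pa (g : ℝ → ℝ) {B : ℝ → ℝ} (hB : Continuous B) :
    ∫ y : R3, g ‖y‖ * B (pa y) =
      (∫ r in Ioi (0 : ℝ), r ^ 2 * g r) * (2 * π * ∫ θ in (0 : ℝ)..π, B θ * Real.sin θ) := by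
  have h := polar (d := 0) (Q := fun y => B (pa y))
    (fun r hr y => by rw [pa_smul hr, pow_zero, one_mul]) g
  simp only [mul_comm (g _)]
  rw [h, sph_pa hB, mul_comm]

/-- The substitution `t = τ (r)`. -/
theorem FrI_sub (hs : 0 < s) (A : ℝ → ℝ) :
    (IntegrableOn (fun t => A t * (2 * √(1 - t ^ 4) / (s ^ 3 * t ^ 7))) (Ioo 0 1) ↔
      IntegrableOn (fun r : ℝ => r ^ 2 * A ((1 + s ^ 2 * r ^ 2) ^ (-(1 / 4) : ℝ))) (Ioi 0)) ∧
    ∫ t in Ioo (0 : ℝ) 1, A t * (2 * √(1 - t ^ 4) / (s ^ 3 * t ^ 7)) =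
      ∫ r in Ioi (0 : ℝ), r ^ 2 * A ((1 + s ^ 2 * r ^ 2) ^ (-(1 / 4) : ℝ)) := by
  have hpos : ∀ r : ℝ, 0 < 1 + s ^ 2 * r ^ 2 := fun r => by positivity
  set T : ℝ → ℝ := fun r => (1 + s ^ 2 * r ^ 2) ^ (-(1 / 4) : ℝ) with hT
  have h0 : ∀ r, 0 < T r := fun r => Real.rpow_pos_of_pos (hpos r) _
  have h4 : ∀ r, T r ^ 4 * (1 + s ^ 2 * r ^ 2) = 1 := fun r => by
    rw [hT, ← Real.rpow_natCast, ← Real.rpow_mul (hpos r).le]
    norm_num
    rw [Real.rpow_neg_one, inv_mul_cancel₀ (hpos r).ne']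
  have hder : ∀ r ∈ Ioi (0 : ℝ), HasDerivWithinAt T (-(s ^ 2 * r / 2 * T r ^ 5)) (Ioi 0) r :=
    fun r _ => by
      refine (HasDerivAt.congr_deriv ((((hasDerivAt_pow 2 r).const_mul (s ^ 2)).const_add 1).rpow_const
        (Or.inl (hpos r).ne')) ?_).hasDerivWithinAt
      rw [Real.rpow_sub_one (hpos r).ne', eq_div_of_mul_eq (hpos r).ne' (h4 r) |> fun e =>
        show T r ^ 5 = T r * (1 / (1 + s ^ 2 * r ^ 2)) by rw [← e]; ring]
      simp only [Nat.cast_ofNat, Nat.add_one_sub_one, pow_one, hT]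
      ring
  have hinj : InjOn T (Ioi 0) := fun r hr r' hr' e => by
    have h1 := (h4 r).trans (h4 r').symm
    rw [e] at h1
    have h2 := mul_left_cancel₀ (pow_pos hs 2).ne'
      (add_left_cancel (mul_left_cancel₀ (pow_pos (h0 r') 4).ne' h1))
    exact (pow_left_inj₀ hr.out.le hr'.out.le two_ne_zero).1 h2
  have him : T '' Ioi 0 = Ioo 0 1 := by
    ext x
    constructor
    · rintro ⟨r, hr, rfl⟩
      have h1 : 0 < s ^ 2 * r ^ 2 := mul_pos (pow_pos hs 2) (pow_pos hr 2)
      exact ⟨h0 r, Real.rpow_lt_one_of_one_lt_of_neg (by linarith) (by norm_num)⟩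
    · rintro ⟨x0, x1⟩
      have h2 : 0 < 1 - x ^ 4 := sub_pos.2 (pow_lt_one₀ x0.le x1 (by norm_num))
      have h3 : 0 < (1 - x ^ 4) / (s ^ 2 * x ^ 4) := by positivity
      refine ⟨√((1 - x ^ 4) / (s ^ 2 * x ^ 4)), Real.sqrt_pos.2 h3, ?_⟩
      refine (pow_left_inj₀ (h0 _).le x0.le four_ne_zero).1
        (mul_right_cancel₀ (hpos √((1 - x ^ 4) / (s ^ 2 * x ^ 4))).ne' ?_)
      rw [h4, Real.sq_sqrt h3.le]
      field_simp
      ring
  have hpt : ∀ r ∈ Ioi (0 : ℝ), |-(s ^ 2 * r / 2 * T r ^ 5)| •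
      (A (T r) * (2 * √(1 - T r ^ 4) / (s ^ 3 * T r ^ 7))) = r ^ 2 * A (T r) := fun r hr => by
    have hr' : 0 < r := hr
    have := h0 r
    rw [abs_neg, abs_of_pos (by positivity), show 1 - T r ^ 4 = (s * r * T r ^ 2) ^ 2 by
      linear_combination -h4 r, Real.sqrt_sq (by positivity), smul_eq_mul]
    field_simp
  rw [← him, integrableOn_image_iff_integrableOn_abs_deriv_smul measurableSet_Ioi hder hinj,
    integrableOn_congr_fun hpt measurableSet_Ioi,
    integral_image_eq_integral_abs_deriv_smul measurableSet_Ioi hder hinj,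
    setIntegral_congr_fun measurableSet_Ioi hpt]
  exact ⟨Iff.rfl, rfl⟩

/-- Separated functions, radial variable `τ`. -/
theorem int_sep (hs : 0 < s) (A : ℝ → ℝ) {B : ℝ → ℝ} (hB : Continuous B) :
    ∫ y : R3, A (tau (s ^ 2) y) * B (pa y) =
      (∫ t in Ioo (0 : ℝ) 1, A t * (2 * √(1 - t ^ 4) / (s ^ 3 * t ^ 7)))
        * (2 * π * ∫ θ in (0 : ℝ)..π, B θ * Real.sin θ) := by
  rw [(FrI_sub hs A).2]
  exact int_rad_pa (fun r => A ((1 + s ^ 2 * r ^ 2) ^ (-(1 / 4) : ℝ))) hB

theorem integrable_sep (hs : 0 < s) {A B : ℝ → ℝ}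
    (hA : IntegrableOn (fun t => A t * (2 * √(1 - t ^ 4) / (s ^ 3 * t ^ 7))) (Ioo 0 1))
    (hB : Continuous B) : Integrable fun y : R3 => A (tau (s ^ 2) y) * B (pa y) := by
  have h1 : Integrable fun y : R3 => A (tau (s ^ 2) y) := by
    refine (integrable_fun_norm_addHaar (volume : Measure R3)
      (f := fun r => A ((1 + s ^ 2 * r ^ 2) ^ (-(1 / 4) : ℝ)))).2
      (((FrI_sub hs A).1.1 hA).congr_fun (fun r _ => ?_) measurableSet_Ioi)
    rw [finrank_euclideanSpace_fin, smul_eq_mul]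
  obtain ⟨C, hC⟩ := isCompact_Icc.exists_bound_of_continuousOn (hB.continuousOn (s := Icc 0 π))
  exact h1.mul_bdd (c := C) (hB.measurable.comp meas_pa).aestronglyMeasurable
    (Filter.Eventually.of_forall fun y => hC _ (pa_mem y))

theorem int_sep_one (A : ℝ → ℝ) {B : ℝ → ℝ} (hB : Continuous B) :
    ∫ y : R3, A (tau 1 y) * B (pa y) =
      (∫ t in Ioo (0 : ℝ) 1, A t * (2 * √(1 - t ^ 4) / t ^ 7))
        * (2 * π * ∫ θ in (0 : ℝ)..π, B θ * Real.sin θ) := by
  simpa using int_sep one_pos A hB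

theorem integrable_sep_one {A B : ℝ → ℝ}
    (hA : IntegrableOn (fun t => A t * (2 * √(1 - t ^ 4) / t ^ 7)) (Ioo 0 1))
    (hB : Continuous B) : Integrable fun y : R3 => A (tau 1 y) * B (pa y) := by
  simpa using integrable_sep one_pos (A := A) (by simpa using hA) hB

end Pool.Agent.Work.MP_6bf1e5_an.H
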