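import Pool.Agent.Work.MP_6bf1e5_an.H.FrB
import Pool.Agent.Work.MP_6bf1e5_an.H.FrI

/-!
Separated fields whose frame components are polynomials in `t = tau 1`. The degree is
`l = 2 k + 2`; `jM k p a b` has the components `(kap t ^ p a P_l, kap t ^ p b dP_l, 0)`,
`jT k p c` has `(0, 0, t ^ p c dP_l)`, and `jS k p c = t ^ p c P_l`.
-/

open scoped ContDiff ENNReal FourierTransform Real
open Set MeasureTheory Polynomial

namespace Pool.Agent.Work.MP_6bf1e5_an.H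

noncomputable section

/-- The square of `kap`. -/
def qX : ℝ[X] := 1 - X ^ 4

/-- `(a + b t⁴ + 2 ρ ∂ρ) P`. -/
def LX (a b : ℝ) (P : ℝ[X]) : ℝ[X] :=
  (C a + C b * X ^ 4) * P - (1 + X + X ^ 2 + X ^ 3) * (X * (1 - X) * derivative P)

/-- The profile `t ^ p P t / z ^ k`. -/
def sF (k p : ℕ) (P : ℝ[X]) : ℝ → ℝ := fun z => tF 1 p P z / z ^ k

def jM (k p : ℕ) (a b : ℝ[X]) : Vc :=
  mer (2 * k + 2) (sF k (p + 2) b) (sF (k + 1) (p + 2) (a - C (2 * k + 2 : ℝ) * b))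

def jT (k p : ℕ) (c : ℝ[X]) : Vc := tor (2 * k + 2) (sF (k + 1) p c)

def jS (k p : ℕ) (c : ℝ[X]) : Sc := rad (sF (k + 1) p c) * Hl (2 * k + 2)

/-- `l (l + 1)`. -/
def lK (k : ℕ) : ℝ := (2 * k + 2) * (2 * k + 3)

variable {k p n : ℕ} {a b c w a' b' c' P Q : ℝ[X]} {y : R3} {z : ℝ}

/-! ### The profiles -/

theorem sF_add (z : ℝ) : sF k p (P + Q) z = sF k p P z + sF k p Q z := by
  simp only [sF, tF, eval_add]
  ring

theorem sF_sub (z : ℝ) : sF k p (P - Q) z = sF k p P z - sF k p Q z := by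
  simp only [sF, tF, eval_sub]
  ring

theorem sF_C (r z : ℝ) : sF k p (C r * P) z = r * sF k p P z := by
  simp only [sF, tF, eval_mul, eval_C]
  ring

theorem sF_eq (hz : 0 ≤ z) (k p : ℕ) (P : ℝ[X]) : sF k p P z =
    ((1 + z) ^ (-(1 / 4) : ℝ)) ^ p * P.eval ((1 + z) ^ (-(1 / 4) : ℝ)) / z ^ k := by
  have h : (0 : ℝ) ≤ 1 + z := by linarith
  simp only [sF, tF, one_mul]
  rw [← Real.rpow_natCast _ p, ← Real.rpow_mul h]
  congr 3
  ring

theorem sF_four (hz : 0 ≤ z) : ((1 + z) ^ (-(1 / 4) : ℝ)) ^ 4 * (1 + z) = 1 := by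
  have h : (0 : ℝ) < 1 + z := by linarith
  rw [← Real.rpow_natCast _ 4, ← Real.rpow_mul h.le,
    show (-(1 / 4) * ((4 : ℕ) : ℝ) : ℝ) = -1 by norm_num, Real.rpow_neg_one]
  exact inv_mul_cancel₀ h.ne'

/-- The value of all profiles in terms of one number `t`. -/
theorem sF_val (hz : 0 < z) : ∃ t : ℝ, 0 < t ∧ 1 - t ^ 4 ≠ 0 ∧ z = (1 - t ^ 4) / t ^ 4 ∧
    ∀ (k p : ℕ) (P : ℝ[X]), sF k p P z = t ^ p * P.eval t / z ^ k := by
  have h : (0 : ℝ) < 1 + z := by linarith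
  have h4 := sF_four hz.le
  have ht : (0 : ℝ) < (1 + z) ^ (-(1 / 4) : ℝ) := Real.rpow_pos_of_pos h _
  refine ⟨_, ht, ?_, ?_, sF_eq hz.le⟩
  · generalize ((1 + z) ^ (-(1 / 4) : ℝ)) = t at *
    have : 1 - t ^ 4 = t ^ 4 * z := by linarith
    rw [this]
    positivity
  · generalize ((1 + z) ^ (-(1 / 4) : ℝ)) = t at *
    rw [eq_div_iff (by positivity)]
    linarith

theorem sF_pow (hz : 0 ≤ z) (i : ℕ) : sF k (p + i) P z = sF k p (X ^ i * P) z := by
  simp only [sF_eq hz, eval_mul, eval_pow, eval_X]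
  ring

theorem sF_Om (hz : 0 ≤ z) : 2 / (1 + z) * sF k p P z = sF k (p + 4) (2 * P) z := by
  have h4 := sF_four hz
  have h : (0 : ℝ) < 1 + z := by linarith
  simp only [sF_eq hz, eval_mul, eval_ofNat]
  generalize ((1 + z) ^ (-(1 / 4) : ℝ)) = t at *
  have : 2 / (1 + z) = 2 * t ^ 4 := by
    rw [div_eq_iff h.ne']
    linarith
  rw [this]
  ring

theorem sF_q (hz : 0 < z) : sF (k + 1) p (qX * P) z = sF k (p + 4) P z := by
  obtain ⟨t, ht, h1, e, h⟩ := sF_val hz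
  simp only [h, qX, eval_mul, eval_sub, eval_one, eval_pow, eval_X, pow_succ z]
  have hZ : z ^ k ≠ 0 := by positivity
  generalize z ^ k = Z at *
  rw [e]
  field_simp
  ring

theorem has_sF (hz : 0 < z) : HasDerivAt (sF k p P)
    (sF (k + 1) p (C (1 / 4) * LX (-p - 4 * k) p P) z) z := by
  have h1 := (rg_has (a := 1) (e := p) (P := P) one_pos (z := z) (by linarith)).div
    (hasDerivAt_pow k z) (by positivity)
  refine h1.congr_deriv ?_
  have e1 : ∀ (Q : ℝ[X]), tF 1 ((p : ℝ) + 4) Q z = sF 0 (p + 4) Q z := fun Q => by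
    simp [sF]
  have e2 : tF 1 (p : ℝ) P z = sF 0 p P z := by simp [sF]
  rw [e1, e2]
  obtain ⟨t, ht, h1, e, h⟩ := sF_val hz
  have e3 : (k : ℝ) * z ^ (k - 1) = k * z ^ k / z := by
    rcases k with _ | k
    · simp
    · rw [Nat.add_sub_cancel, pow_succ]
      field_simp
  simp only [h, e3, LX, eval_mul, eval_sub, eval_add, eval_one, eval_pow, eval_X, eval_C,
    pow_succ z, pow_zero, pow_add t p]
  have hZ : z ^ k ≠ 0 := by positivity
  generalize z ^ k = Z at *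
  rw [e]
  field_simp
  ring

/-! ### Algebra -/

theorem jT_add : jT k p (c + c') = jT k p c + jT k p c' := by
  funext i y
  simp only [jT, Pi.add_apply, sp_tor_apply, sF_add]
  ring

theorem jM_add : jM k p (a + a') (b + b') = jM k p a b + jM k p a' b' := by
  funext i y
  simp only [jM, Pi.add_apply, sp_mer_apply, sF_add, sF_sub, sF_C]
  ring

theorem jT_C (r : ℝ) (i : Fin 3) (y : R3) : jT k p (C r * c) i y = r * jT k p c i y := by
  simp only [jT, sp_tor_apply, sF_C]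
  ring

theorem jM_C (r : ℝ) (i : Fin 3) (y : R3) :
    jM k p (C r * a) (C r * b) i y = r * jM k p a b i y := by
  simp only [jM, sp_mer_apply, sF_sub, sF_C]
  ring

theorem jT_pow (i : ℕ) : jT k (p + i) c = jT k p (X ^ i * c) :=
  tor_congr fun _ hz => sF_pow hz i

theorem jM_pow (i : ℕ) : jM k (p + i) a b = jM k p (X ^ i * a) (X ^ i * b) := by
  refine mer_congr (fun z hz => ?_) fun z hz => ?_
  · rw [Nat.add_right_comm, sF_pow hz]
  · rw [Nat.add_right_comm, sF_pow hz]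
    congr 1
    ring

theorem jS_pow (i : ℕ) : jS k (p + i) c = jS k p (X ^ i * c) := by
  funext y
  simp only [jS, Pi.mul_apply, rad, sF_pow (sq_nonneg ‖y‖)]

theorem sm_Om_jM : sm Om (jM k p a b) = jM k (p + 4) (2 * a) (2 * b) := by
  funext i y
  have h : 2 * a - C (2 * k + 2 : ℝ) * (2 * b) = 2 * (a - C (2 * k + 2 : ℝ) * b) := by ring
  simp only [sm, jM, sp_mer_apply, Om, h, Nat.add_right_comm p 4 2, ← sF_Om (sq_nonneg ‖y‖)]
  ring

theorem sm_Om_jT : sm Om (jT k p c) = jT k (p + 4) (2 * c) := by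
  funext i y
  simp only [sm, jT, sp_tor_apply, Om, ← sF_Om (sq_nonneg ‖y‖)]
  ring

/-! ### Frame components -/

theorem sF_tp (k p : ℕ) (P : ℝ[X]) (y : R3) :
    sF k p P (‖y‖ ^ 2) = tp 1 p P y / ‖y‖ ^ (2 * k) := by
  rw [tp_eq one_pos, pow_mul]
  rfl

theorem Off.jT_eq (hy : Off y) (i : Fin 3) :
    jT k p c i y = zF (2 * k + 2) (tp 1 p c) i y := by
  rw [jT, hy.tor_eq]
  refine zF_congr ?_ i
  have := hy.norm_pos
  rw [sF_tp, show 2 * (k + 1) = 2 * k + 2 by ring]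
  field_simp

theorem Off.jS_eq (hy : Off y) : jS k p c y = tp 1 p c y * Pa (2 * k + 2) (pa y) := by
  have := hy.norm_pos
  simp only [jS, Pi.mul_apply, rad]
  rw [hy.Hl_eq, sF_tp, show 2 * (k + 1) = 2 * k + 2 by ring]
  field_simp

theorem Off.jM_eq (hy : Off y) (i : Fin 3) :
    jM k p a b i y = rF (2 * k + 2) (fun y => kA 1 y * tp 1 p a y)
      (fun y => kA 1 y * tp 1 p b y) i y := by
  rw [jM, hy.mer_eq]
  have := hy.norm_pos
  have hk : kA 1 y = ‖y‖ * tau 1 y ^ 2 := by simpa using kA_eq one_pos y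
  have ht : ∀ Q : ℝ[X], tp 1 ((p + 2 : ℕ) : ℝ) Q y = tau 1 y ^ 2 * tp 1 p Q y := fun Q => by
    push_cast
    rw [tp_add_two one_pos, tp]
    ring
  refine rF_congr ?_ ?_ i
  · rw [sF_sub, sF_C, sF_tp, sF_tp, sF_tp, ht, ht, hk, show 2 * (k + 1) = 2 * k + 2 by ring,
      pow_add]
    push_cast
    field_simp
    ring
  · rw [sF_tp, ht, hk, pow_add]
    field_simp

theorem bd_tp (p : ℝ) (P : ℝ[X]) : Bd (-(p / 2)) (tp 1 p P) := by
  rw [tp_eq one_pos]
  exact (sym_tF one_pos).bd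

theorem bd_kA : Bd 0 (kA 1) :=
  ⟨(meas_kA one_pos).aestronglyMeasurable, 1, Filter.Eventually.of_forall fun y => by
    rw [Real.rpow_zero, one_mul, abs_of_nonneg (kA_nonneg 1 y)]
    exact kA_le_one 1 y⟩

theorem bd_ang {B : ℝ → ℝ} (h : Continuous B) : Bd 0 fun y => B (pa y) := by
  obtain ⟨C, hC⟩ := isCompact_Icc.exists_bound_of_continuousOn (h.continuousOn (s := Icc 0 π))
  refine ⟨(h.measurable.comp meas_pa).aestronglyMeasurable, C,
    Filter.Eventually.of_forall fun y => ?_⟩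
  rw [Real.rpow_zero, mul_one]
  exact hC _ (pa_mem y)

theorem Bd.off {m : ℝ} {f g : Sc} (h : Bd m f) (e : ∀ y, Off y → g y = f y) : Bd m g := by
  have e' : f =ᵐ[volume] g := ae_off.mono fun y hy => (e y hy).symm
  obtain ⟨h1, C, h2⟩ := h
  refine ⟨h1.congr e', C, ?_⟩
  filter_upwards [h2, e'] with y hy hy'
  rwa [← hy']

theorem Bd.zF {m : ℝ} {f : Sc} (h : Bd m f) (l : ℕ) (i : Fin 3) : Bd m (zF l f i) :=
  (((h.mul (bd_ang (cont_dPa l))).mul (bd_fr 2 i)).of_eq (by ring)).congr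
    fun y => zF_apply l f i y

theorem Bd.rF {m : ℝ} {f g : Sc} (h : Bd m f) (h' : Bd m g) (l : ℕ) (i : Fin 3) :
    Bd m (rF l f g i) :=
  ((((h.mul (bd_ang (cont_Pa l))).mul (bd_fr 0 i)).add
    ((h'.mul (bd_ang (cont_dPa l))).mul (bd_fr 1 i))).of_eq (by ring)).congr
    fun y => rF_apply l f g i y

theorem bd_jT (i : Fin 3) : Bd (-(p / 2 : ℝ)) (jT k p c i) :=
  ((bd_tp p c).zF _ i).off fun _ hy => hy.jT_eq i

theorem bd_jM (i : Fin 3) : Bd (-(p / 2 : ℝ)) (jM k p a b i) :=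
  (((bd_kA.mul (bd_tp p a)).of_eq (zero_add _)).rF ((bd_kA.mul (bd_tp p b)).of_eq (zero_add _))
    _ i).off fun _ hy => hy.jM_eq i

theorem bd_jS : Bd (-(p / 2 : ℝ)) (jS k p c) :=
  (((bd_tp p c).mul (bd_ang (cont_Pa _))).of_eq (add_zero _)).off fun _ hy => hy.jS_eq

/-! ### Calculus off the origin -/

theorem jet_pos (hy : y ≠ 0) : 0 < ‖y‖ ^ 2 := pow_pos (norm_pos_iff.mpr hy) 2

theorem curl_jT (hy : y ≠ 0) (i : Fin 3) : curl (jT k p (qX * w)) i y =
    jM k (p + 2) (C (-lK k) * w) (C (-1 / 2) * LX (2 - p) (4 + p) w) i y := by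
  have hz := jet_pos hy
  refine (sp_curl_tor (has_sF hz) (2 * k + 2) i).trans ?_
  rw [jM, sp_mer_apply, mul_comm (Hl _ y)]
  generalize ‖y‖ ^ 2 = z at *
  obtain ⟨t, ht, h1, e, h⟩ := sF_val hz
  simp only [h, LX, qX, lK, eval_mul, eval_sub, eval_add, eval_one, eval_pow, eval_X, eval_C,
    derivative_mul, derivative_sub, derivative_one, derivative_X_pow, pow_succ z, pow_add t,
    eval_zero]
  have hZ : z ^ k ≠ 0 := by positivity
  generalize z ^ k = Z at *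
  rw [e]
  push_cast
  field_simp
  ring

theorem curl_jM (hy : y ≠ 0) (i : Fin 3) : curl (jM k p a b) i y =
    jT k (p + 2) (C (1 / 2) * LX (2 - p) (2 + p) b - a) i y := by
  have hz := jet_pos hy
  rw [jM, sp_mer_eq]
  refine (sp_curl_mer (has_sF hz) (has_sF hz) (2 * k + 2) i).trans ?_
  rw [jT, sp_tor_apply]
  generalize ‖y‖ ^ 2 = z at *
  simp only [sF_eq hz.le, LX, eval_mul, eval_sub, eval_add, eval_one, eval_pow, eval_X, eval_C]
  push_cast
  ring

theorem yd_jT' (hy : y ≠ 0) (i : Fin 3) :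
    yd (jT k p c i) y = jT k p (C (1 / 2) * LX (-p) p c) i y := by
  have hz := jet_pos hy
  refine (sp_yd_tor (has_sF hz) (2 * k + 2) i).trans ?_
  rw [jT, sp_tor_apply]
  generalize ‖y‖ ^ 2 = z at *
  simp only [sF_eq hz.le, LX, eval_mul, eval_sub, eval_add, eval_one, eval_pow, eval_X, eval_C,
    pow_succ z]
  have hZ : z ^ k ≠ 0 := by positivity
  push_cast
  field_simp
  ring

theorem LX_q (a b : ℝ) (w : ℝ[X]) : LX a b (qX * w) = qX * LX a (4 + b) w := by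
  simp only [LX, qX, derivative_mul, derivative_sub, derivative_one, derivative_X_pow, map_add,
    map_natCast, map_ofNat]
  push_cast
  ring

theorem yd_jT (hy : y ≠ 0) (i : Fin 3) : yd (jT k p (qX * w) i) y =
    jT k p (qX * (C (1 / 2) * LX (-p) (4 + p) w)) i y := by
  rw [yd_jT' hy, LX_q, mul_left_comm]

theorem yd_jM (hy : y ≠ 0) (i : Fin 3) : yd (jM k p a b i) y =
    jM k p (C (1 / 2) * LX (-p) (2 + p) a) (C (1 / 2) * LX (-p) (2 + p) b) i y := by
  have hz := jet_pos hy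
  rw [jM, sp_mer_eq]
  refine (sp_yd_mer (has_sF hz) (has_sF hz) (2 * k + 2) i).trans ?_
  rw [jM, sp_mer_apply, mul_comm (Hl _ y)]
  generalize ‖y‖ ^ 2 = z at *
  simp only [sF_eq hz.le, LX, eval_mul, eval_sub, eval_add, eval_one, eval_pow, eval_X, eval_C,
    pow_succ z, derivative_sub, derivative_C_mul]
  have hZ : z ^ k ≠ 0 := by positivity
  push_cast
  field_simp
  ring

theorem grad_jS (hy : y ≠ 0) (i : Fin 3) : grad (jS k p (qX * w)) i y =
    jM k (p + 2) (C (1 / 2) * LX (-p) (4 + p) w) w i y := by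
  have hz := jet_pos hy
  have h1 := has_sF (k := k + 1) (p := p) (P := qX * w) hz
  have h2 := sp_pd_mul (sp_diff_rad h1.differentiableAt) (sp_diff_Hl (2 * k + 2) y) i
  refine h2.trans ?_
  rw [sp_pd_rad h1, jM, sp_mer_apply, LX_q, mul_left_comm _ qX, sF_q hz, sF_q hz]
  generalize ‖y‖ ^ 2 = z at *
  simp only [sF_eq hz.le, LX, eval_mul, eval_sub, eval_add, eval_one, eval_pow, eval_X, eval_C]
  push_cast
  ring

/-- Fields that agree off the origin have the same curl there. -/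
theorem curl_congr_ne {V W : Vc} (h : ∀ y ≠ 0, ∀ i, V i y = W i y) (hy : y ≠ 0) (i : Fin 3) :
    curl V i y = curl W i y := by
  have e : ∀ a j, pd j (V a) y = pd j (W a) y := fun a j => by
    have : V a =ᶠ[nhds y] W a :=
      (isOpen_ne.mem_nhds hy : {x : R3 | x ≠ 0} ∈ nhds y) |> fun m =>
        Filter.mem_of_superset m fun x hx => h x hx a
    simp only [pd, this.fderiv_eq]
  simp only [curl, e]

/-! ### Smooth members -/

theorem sF_q_pow (hz : 0 < z) (j : ℕ) : sF (k + j) p (qX ^ j * P) z = sF k (p + 4 * j) P z := by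
  induction j generalizing p with
  | zero => simp
  | succ j ih =>
    rw [← add_assoc, pow_succ', mul_assoc, sF_q hz, ih]
    congr 1
    ring

theorem TT_zero (l : ℕ) (i : Fin 3) : TT l i 0 = 0 := by simp [TT, cross, pos]

theorem tor_congr_pos {l : ℕ} {f g : ℝ → ℝ} (h : ∀ z, 0 < z → f z = g z) : tor l f = tor l g := by
  funext i y
  rcases eq_or_ne y 0 with rfl | hy
  · simp only [sp_tor_apply, TT_zero, mul_zero]
  · simp only [sp_tor_apply, h _ (jet_pos hy)]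

theorem pd_Hl_zero (l : ℕ) (i : Fin 3) : pd i (Hl (l + 2)) 0 = 0 := by
  obtain ⟨C, -, h⟩ := ((hom_Hl (l + 2)).pd i).bound
  simpa using h 0

theorem mer_congr_pos {l : ℕ} {α β α' β' : ℝ → ℝ} (h : ∀ z, 0 < z → α z = α' z)
    (h' : ∀ z, 0 < z → β z = β' z) : mer (l + 2) α β = mer (l + 2) α' β' := by
  funext i y
  rcases eq_or_ne y 0 with rfl | hy
  · simp [sp_mer_apply, pd_Hl_zero]
  · simp only [sp_mer_apply, h _ (jet_pos hy), h' _ (jet_pos hy)]

theorem tF_sF (p : ℕ) (P : ℝ[X]) (z : ℝ) : tF 1 p P z = sF 0 p P z := by simp [sF]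

theorem tor_tF : tor (2 * k + 2) (tF 1 (4 * k + 4 + p : ℕ) P) = jT k p (qX * (qX ^ k * P)) := by
  refine tor_congr_pos fun z hz => ?_
  rw [tF_sF, sF_q hz]
  have := sF_q_pow (k := 0) (p := p + 4) (P := P) hz k
  rw [zero_add] at this
  rw [this]
  congr 1
  ring

theorem jet_comp (r : ℝ) (k : ℕ) (P : ℝ[X]) :
    (C r * X ^ k * (1 - X) ^ k * P.comp (2 * X - 1)).comp qX =
      X ^ (4 * k) * (qX ^ k * (C r * P.comp (1 - 2 * X ^ 4))) := by
  have h : (2 * X - 1 : ℝ[X]).comp qX = 1 - 2 * X ^ 4 := by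
    simp only [qX, sub_comp, mul_comp, X_comp, one_comp, ofNat_comp]
    ring
  have h2 : (1 - qX) ^ k = X ^ (4 * k) := by
    rw [qX, sub_sub_cancel, pow_mul]
  simp only [mul_comp, C_comp, pow_comp, X_comp, sub_comp, one_comp, comp_assoc, h, h2]
  ring

/-- The conformal toroidal fields, with `P` as a polynomial in `kap ^ 2`. -/
theorem tO_jT : tO (2 * k + 2) ((2 * k + 2 : ℕ) + p / 4) P = jT k (p + 4) (qX *
    (C ((2 : ℝ) ^ ((2 * k + 2 : ℕ) + p / 4 : ℝ)) * X ^ k * (1 - X) ^ k * P.comp (2 * X - 1)).comp qX) := by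
  rw [jet_comp, mul_left_comm, ← jT_pow, ← tor_tF]
  refine tor_congr fun z hz => ?_
  rw [omF_eq_tF (by linarith)]
  congr 1
  push_cast
  ring

theorem mO_jM : mO (2 * k + 2) ((2 * k + 2 : ℕ) + 5 / 4) P 0 = jM k 11
    (C (2 * k + 2 : ℝ) * (C ((2 : ℝ) ^ ((2 * k + 2 : ℕ) + 5 / 4 : ℝ)) * X ^ k * (1 - X) ^ k
      * P.comp (2 * X - 1)).comp qX)
    ((C ((2 : ℝ) ^ ((2 * k + 2 : ℕ) + 5 / 4 : ℝ)) * X ^ k * (1 - X) ^ k
      * P.comp (2 * X - 1)).comp qX) := by
  refine mer_congr_pos (fun z hz => ?_) fun z hz => ?_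
  · have := sF_q_pow (k := 0) (p := 11 + 2 + 4 * k)
      (P := C ((2 : ℝ) ^ ((2 * k + 2 : ℕ) + 5 / 4 : ℝ)) * P.comp (1 - 2 * X ^ 4)) hz k
    rw [zero_add] at this
    rw [jet_comp, ← sF_pow hz.le, this, ← tF_sF, omF_eq_tF (by linarith)]
    congr 1
    push_cast
    ring
  · simp [omF, sF, tF]

end

end Pool.Agent.Work.MP_6bf1e5_an.H
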