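import Pool.Agent.Work.MP_6bf1e5_an.H.JetAng
import Pool.Agent.Work.MP_6bf1e5_an.H.FrI
import Pool.Agent.Work.MP_6bf1e5_an.H.JetA
import Pool.Agent.Lib.KBlk.TermS

/-! The rows of a tile as pairings of separated fields (owner helper89). -/

open scoped Real
open Finset MeasureTheory Polynomial Pool.Agent.Lib.KBlk Pool.Agent.Lib.KLA

namespace Pool.Agent.Work.MP_6bf1e5_an.H.Gl

noncomputable section

/-- The slot of the frame component `s` in the class `c`: `false` is the first field. -/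
def slot (c : ℕ) (s : Fin 3) : Bool := if c = 0 then decide (s = 2) else decide (s ≠ 2)

/-- The factor that is not stored. -/
def pre (e : Bool → ℕ) (c : ℕ) (s : Fin 3) : Sc := fun y =>
  (if s = 2 then 1 else kA 1 y) * tau 1 y ^ e (slot c s)

/-- The angular factor. -/
def anF (l : ℕ) (s : Fin 3) : Sc := fun y => if s = 0 then Pa l (pa y) else dPa l (pa y)

/-- The column `b` of the angular tables belongs to the degree `lf b`. -/
def An (an : Bool → ℕ → ℕ → ℝ) (m p : ℕ) (N lf : ℕ → ℕ) (nb : ℕ) : Prop :=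
  ∀ b < nb, ∀ θ, ts false m (fun k => an false k b) (2 * θ) = 2 ^ p * Pa (lf b) θ ∧
    N b * ts true m (fun k => an true k b) (2 * θ) = 2 ^ p * dPa (lf b) θ

/-- The frame components of the field in slot `a`. -/
def cmp (e : Bool → ℕ) (c k : ℕ) (R : ℕ → ℝ[X]) (a : Bool) : Vc := fun s y =>
  if slot c s = a then pre e c s y * ((R s).eval (tau 1 y) * anF k s y) else 0

/-- The pair `x` has the class `c`, the degree `k` and the radial parts `R`. -/
def Is (e : Bool → ℕ) (c k : ℕ) (R : ℕ → ℝ[X]) (x : Bool → Vc) : Prop :=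
  ∀ y, Off y → ∀ a i, x a i y = vF (cmp e c k R a) i y

/-- The form of a block matrix field on two pairs. -/
def pr6 (G : Bool → Bool → Mc) (x x' : Bool → Vc) : ℝ :=
  (∫ y, bf (G false false) (x false) (x' false) y) + (∫ y, bf (G false true) (x false) (x' true) y)
    + (∫ y, bf (G true false) (x true) (x' false) y) + ∫ y, bf (G true true) (x true) (x' true) y

/-- The scalar fields whose moments are stored, for rows of class `c`. -/
def Fld (G : Bool → Bool → Mc) (σ : ℝ) (e e' : Bool → ℕ) (c : ℕ) (F : ℕ → ℕ → Sc) : Prop :=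
  ∀ s : Fin 3, ∀ c' < 2, ∀ s' : Fin 3, F s (3 * c' + s') =ᵐ[volume] fun y =>
    σ * (pre e c s y * pre e' c' s' y * mC (G (slot c s) (slot c' s')) s s' y)

/-- The table `r` describes `α` times the radial parts up to `δ`. -/
def Rad (n J : ℕ) (r : ℕ → ℕ → ℝ) (α ν δ : ℝ) (R : ℕ → ℕ → ℝ[X]) : Prop :=
  ∀ j < J, ∀ s < 3, ∀ φ, |α * (if s = 0 then 1 else ν) * (R j s).eval ((1 + Real.cos φ) / 2)
    - ts false n (fun k => r (s * n + k) j) φ| ≤ δ

/-- The members `x (b, c, j)` of the block `(b, c)` are described by the table `D`. -/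
def Blk1 (W K d n L : ℕ) (N lf : ℕ → ℕ) (e : Bool → ℕ) (α δ : ℝ) (x : ℕ × ℕ × ℕ → Bool → Vc)
    (b c J : ℕ) (D : Rows) : Prop :=
  ∃ r S, Tg W J K d (3 * n) L D r ∧ Rad n J r α (N b) δ S ∧
    ∀ j < J, Is e c (lf b) (S j) (x (b, c, j))

/-- The pair with given radial parts. -/
def jet (e : Bool → ℕ) (c k : ℕ) (R : ℕ → ℝ[X]) : Bool → Vc := fun a =>
  if (c = 0 ↔ a = false) then jM k (e a) (R 0) (R 1) else jT k (e a) (R 2)

/-- The radial pair. -/
def jet0 (e : Bool → ℕ) (c : ℕ) (R : ℝ[X]) : Bool → Vc := fun a =>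
  if (c = 0 ↔ a = false) then sm (tp 1 (e a + 2 : ℕ) R) pos else 0

/-- The error caused by the tables. -/
def err (P : Par) (Q : Err) (I δ δ' : ℝ) : ℝ :=
  8 / 2 ^ (P.s1 + P.s2 + P.s3) * (I * (((Q.Lr + 16 * P.cA) * δ' + δ * (Q.Lc + 16 * P.cB + δ'))
    * (Q.La + (P.mK + 1)) ^ 2))

end

variable {G : Bool → Bool → Mc} {e e' : Bool → ℕ} {c c' k k' : ℕ} {R R' : ℕ → ℝ[X]}
  {x x' : Bool → Vc}

theorem ts_le {J n L m d j : ℕ} {r : ℕ → ℕ → ℝ} {p : (ℕ → ℕ → ℤ) → Prop}
    (h : ∃ z, p z ∧ (∀ j < J, ∑ a ∈ range n, |z a j| ≤ L) ∧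
      ∀ a < n, ∀ j < J, |(z a j : ℝ) - r a j| ≤ 1) (hj : j < J)
    (hd : d + m ≤ n) (f : Bool) (φ : ℝ) : |ts f m (fun k => r (d + k) j) φ| ≤ L + m := by
  obtain ⟨z, -, h1, h2⟩ := h
  have h3 : ∑ a ∈ range m, |z (d + a) j| ≤ ∑ a ∈ range n, |z a j| := by
    obtain ⟨u, rfl⟩ := Nat.exists_eq_add_of_le hd
    rw [sum_range_add, sum_range_add]
    have a1 : 0 ≤ ∑ a ∈ range d, |z a j| := sum_nonneg fun _ _ => abs_nonneg _
    have a2 : 0 ≤ ∑ a ∈ range u, |z (d + m + a) j| := sum_nonneg fun _ _ => abs_nonneg _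
    omega
  have h4 : ((∑ a ∈ range m, |z (d + a) j| : ℤ) : ℝ) ≤ L := by exact_mod_cast h3.trans (h1 j hj)
  refine (abs_sum_le_sum_abs _ _).trans (le_trans (sum_le_sum (g := fun a =>
    |(z (d + a) j : ℝ)| + 1) fun a ha => ?_) ?_)
  · have a1 := h2 (d + a) (by have := mem_range.1 ha; omega) j hj
    have a2 := abs_sub_abs_le_abs_sub (r (d + a) j) (z (d + a) j)
    rw [abs_sub_comm] at a2
    rw [abs_mul]
    nlinarith [abs_cs_le f (a * φ), abs_nonneg (r (d + a) j), abs_nonneg (cs f (a * φ))]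
  · push_cast at h4
    rw [sum_add_distrib, sum_const, card_range, nsmul_eq_mul, mul_one]
    linarith

theorem tg_le {W J K n m L : ℕ} {D : Rows} {r : ℕ → ℕ → ℝ} (h : Tg W J K n m L D r) :
    ∃ z, Mat W (8 * J) K n D (grp z) ∧ (∀ j < J, ∑ a ∈ range m, |z a j| ≤ L) ∧
      ∀ a < m, ∀ j < J, |(z a j : ℝ) - r a j| ≤ 1 :=
  let ⟨z, h1, h2, h3⟩ := h
  ⟨z, h1, h2, fun a ha j hj => by rw [h3 a ha j hj, sub_self, abs_zero]; exact zero_le_one⟩

theorem meas_ts (f : Bool) (n : ℕ) (r : ℕ → ℝ) {χ : Sc} (h : Measurable χ) :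
    Measurable fun y => ts f n r (χ y) :=
  measurable_sum _ fun _ _ => ((continuous_cs f).measurable.comp (h.const_mul _)).const_mul _

theorem bf_cmp (h : Is e c k R x) (h' : Is e' c' k' R' x') {y : R3} (hy : Off y) (a b : Bool) :
    bf (G a b) (x a) (x' b) y = ∑ s, ∑ s', if slot c s = a ∧ slot c' s' = b then
      pre e c s y * pre e' c' s' y * mC (G (slot c s) (slot c' s')) s s' y
        * ((R s).eval (tau 1 y) * (R' s').eval (tau 1 y) * (anF k s y * anF k' s' y)) else 0 := by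
  have h1 : bf (G a b) (x a) (x' b) y
      = bf (mF (mC (G a b))) (vF (cmp e c k R a)) (vF (cmp e' c' k' R' b)) y := by
    simp only [bf, h y hy, h' y hy, hy.mF_mC]
  rw [h1, hy.bf_mF, bf]
  refine sum_congr rfl fun s _ => sum_congr rfl fun s' _ => ?_
  unfold cmp
  by_cases h2 : slot c s = a <;> by_cases h3 : slot c' s' = b <;> simp [h2, h3]
  ring

theorem is_jet (e : Bool → ℕ) (c k : ℕ) (R : ℕ → ℝ[X]) :
    Is e c (2 * k + 2) R (jet e c k R) := by
  intro y hy a i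
  unfold jet
  split_ifs with h
  · rw [hy.jM_eq]
    refine vF_congr (fun s => ?_) i
    by_cases hc : c = 0 <;> cases a <;> fin_cases s <;>
      simp_all [cmp, slot, pre, anF, tp, mul_assoc]
  · rw [hy.jT_eq]
    refine vF_congr (fun s => ?_) i
    by_cases hc : c = 0 <;> cases a <;> fin_cases s <;>
      simp_all [cmp, slot, pre, anF, tp, mul_assoc]

theorem is_jet0 (e : Bool → ℕ) (c : ℕ) (R : ℕ → ℝ[X]) : Is e c 0 R (jet0 e c (R 0)) := by
  intro y hy a i
  have hk : kA 1 y = ‖y‖ * tau 1 y ^ 2 := by simpa using kA_eq one_pos y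
  unfold jet0
  split_ifs with h
  · rw [sm, hy.pos_eq, ← sm, ← vF_sm]
    refine vF_congr (fun s => ?_) i
    by_cases hc : c = 0 <;> cases a <;> fin_cases s <;>
      simp_all [cmp, slot, pre, anF, tp, sm, Pa, dPa, geg, -Nat.cast_add] <;> ring
  · by_cases hc : c = 0 <;> cases a <;>
      simp_all [vF, cmp, slot, anF, dPa, geg]

theorem Is.congr {z : Bool → Vc} (h : Is e c k R x) (hz : ∀ y, Off y → ∀ a i, z a i y = x a i y) :
    Is e c k R z := fun y hy a i => (hz y hy a i).trans (h y hy a i)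

/-- The form as a sum over frame components. -/
theorem pr6_eq {σ : ℝ} {F : ℕ → ℕ → Sc} (hF : Fld G σ e e' c F) (hc : c' < 2)
    (h : Is e c k R x) (h' : Is e' c' k' R' x')
    (hi : ∀ s s' : Fin 3, Integrable fun y => F s (3 * c' + s') y *
      ((R s).eval (tau 1 y) * (R' s').eval (tau 1 y) * (anF k s y * anF k' s' y))) :
    σ * pr6 G x x' = ∑ s : Fin 3, ∑ s' : Fin 3, ∫ y, F s (3 * c' + s') y *
      ((R s).eval (tau 1 y) * (R' s').eval (tau 1 y) * (anF k s y * anF k' s' y)) := by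
  have key : ∀ a b, σ * ∫ y, bf (G a b) (x a) (x' b) y = ∑ s : Fin 3, ∑ s' : Fin 3,
      if slot c s = a ∧ slot c' s' = b then ∫ y, F s (3 * c' + s') y *
        ((R s).eval (tau 1 y) * (R' s').eval (tau 1 y) * (anF k s y * anF k' s' y)) else 0 := by
    intro a b
    have i1 : ∀ s s' : Fin 3, Integrable fun y => if slot c s = a ∧ slot c' s' = b then
        F s (3 * c' + s') y * ((R s).eval (tau 1 y) * (R' s').eval (tau 1 y)
          * (anF k s y * anF k' s' y)) else 0 := fun s s' => by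
      split_ifs
      exacts [hi s s', integrable_zero _ _ _]
    have e1 : ∀ᵐ y, ∀ s s' : Fin 3, F s (3 * c' + s') y =
        σ * (pre e c s y * pre e' c' s' y * mC (G (slot c s) (slot c' s')) s s' y) :=
      ae_all_iff.2 fun s => ae_all_iff.2 fun s' => hF s c' hc s'
    rw [← integral_const_mul, integral_congr_ae (g := fun y => ∑ s : Fin 3, ∑ s' : Fin 3,
      if slot c s = a ∧ slot c' s' = b then F s (3 * c' + s') y * ((R s).eval (tau 1 y)
        * (R' s').eval (tau 1 y) * (anF k s y * anF k' s' y)) else 0) ?_,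
      integral_finsetSum _ fun s _ => integrable_finsetSum _ fun s' _ => i1 s s']
    · refine sum_congr rfl fun s _ => ?_
      rw [integral_finsetSum _ fun s' _ => i1 s s']
      refine sum_congr rfl fun s' _ => ?_
      split_ifs <;> simp
    · filter_upwards [ae_off, e1] with y hy h2
      simp only [bf_cmp h h' hy, mul_sum, h2]
      refine sum_congr rfl fun s _ => sum_congr rfl fun s' _ => ?_
      split_ifs <;> ring
  rw [pr6, mul_add, mul_add, mul_add, key, key, key, key]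
  simp only [← sum_add_distrib]
  refine sum_congr rfl fun s _ => sum_congr rfl fun s' _ => ?_
  cases slot c s <;> cases slot c' s' <;> simp

theorem near_mul {t t' A A' δ δ' L L' : ℝ} (h : |A - t| ≤ δ) (h' : |A' - t'| ≤ δ') (l : |t| ≤ L)
    (l' : |t'| ≤ L') : |t * t' - A * A'| ≤ L * δ' + δ * (L' + δ') := by
  have e : t * t' - A * A' = -(t * (A' - t')) - (A - t) * (t' + (A' - t')) := by ring
  have a1 : |t' + (A' - t')| ≤ L' + δ' := (abs_add_le _ _).trans (add_le_add l' h')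
  rw [e]
  refine (abs_sub _ _).trans (add_le_add ?_ ?_)
  · rw [abs_neg, abs_mul]
    exact mul_le_mul l h' (abs_nonneg _) ((abs_nonneg _).trans l)
  · rw [abs_mul]
    exact mul_le_mul h a1 (abs_nonneg _) ((abs_nonneg _).trans h)

variable {P : Par} {Q : Err} {F : ℕ → ℕ → Sc} {nb p : ℕ} {T0 T1 : Rows} {dg N lf : ℕ → ℕ}
  {M : ℕ → ℕ → Rows} {an : Bool → ℕ → ℕ → ℝ}

theorem an_anP {m : ℕ} (hm : nb < m) (hN : ∀ b < nb, 0 < N b) :
    An (anP p N) m p N (fun b => 2 * b + 2) nb := fun b hb θ => by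
  have : (N b : ℝ) ≠ 0 := by exact_mod_cast (hN b hb).ne'
  rw [ts_Pa N (by omega), ts_dPa N (by omega)]
  exact ⟨rfl, by field_simp⟩

theorem ts_an {m : ℕ} (h : An an m p N lf nb) (hk : k < nb) (s : Fin 3) (y : R3) :
    (if (s : ℕ) = 0 then 1 else (N k : ℝ)) * ts ((s : ℕ) != 0) m
      (fun m => an ((s : ℕ) != 0) m k) (th2 y) = 2 ^ p * anF (lf k) s y := by
  fin_cases s <;> simp [anF, th2, (h k hk _).1, (h k hk _).2]

/-- An entry of a tile and the form on the true fields. -/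
theorem ent_near (h : Src P Q volume (phA 1) th2 F nb T0 T1 dg M an) {σ I α α' δ δ' : ℝ}
    (hα : α ≠ 0) (hα' : α' ≠ 0) (hF : Fld G σ e e' c F)
    (hI : ∀ c' < 2, ∑ s ∈ range 3, ∑ s' ∈ range 3, ∫ y, |F s (3 * c' + s') y| ≤ I)
    (hA : An an (P.mK + 1) p N lf nb) {J J' j j' : ℕ} {D D' : Rows} {r : ℕ → ℕ → ℝ}
    {rc : ℕ → ℕ → ℕ → ℕ → ℝ} {S S' : ℕ → ℕ → ℝ[X]} (hk : k < nb) (hk' : k' < nb) (hc : c' < 2)
    (hj : j < J) (hj' : j' < J')
    (t : Tg P.W J P.Kr (16 * P.dA) (3 * (16 * P.cA)) Q.Lr D r)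
    (t' : Tg P.W J' P.Kc (16 * P.dB) (3 * (16 * P.cB)) Q.Lc D' (rc k' c'))
    (q : Rad (16 * P.cA) J r α (N k) δ S) (q' : Rad (16 * P.cB) J' (rc k' c') α' (N k') δ' S')
    (m : Is e c (lf k) (S j) x) (m' : Is e' c' (lf k') (S' j') x') :
    |Lib.KBlk.ent P volume (phA 1) th2 F an r rc k j (k', c', j')
      - 8 / 2 ^ (P.s1 + P.s2 + P.s3) * (α * α' * 4 ^ p * σ) * pr6 G x x'| ≤ err P Q I δ δ' := by
  have hph : ∀ y, (1 + Real.cos (phA 1 y)) / 2 = tau 1 y := fun y => by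
    rw [cos_phA one_pos]; ring
  set E := ((Q.Lr + 16 * P.cA) * δ' + δ * (Q.Lc + 16 * P.cB + δ')) * (Q.La + (P.mK + 1)) ^ 2
    with hE
  set u : Fin 3 → Fin 3 → Sc := fun s s' y =>
    ts false (16 * P.cA) (fun a => r (s * (16 * P.cA) + a) j) (phA 1 y)
      * ts false (16 * P.cB) (fun a => rc k' c' (s' * (16 * P.cB) + a) j') (phA 1 y) with hu
  set w : Fin 3 → Fin 3 → Sc := fun s s' y =>
    ts ((s : ℕ) != 0) (P.mK + 1) (fun a => an ((s : ℕ) != 0) a k) (th2 y)
      * ts ((s' : ℕ) != 0) (P.mK + 1) (fun a => an ((s' : ℕ) != 0) a k') (th2 y) with hw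
  set v : Fin 3 → Fin 3 → Sc := fun s s' y =>
    (α * (if (s : ℕ) = 0 then 1 else (N k : ℝ)) * (S j s).eval (tau 1 y))
      * (α' * (if (s' : ℕ) = 0 then 1 else (N k' : ℝ)) * (S' j' s').eval (tau 1 y)) with hv
  have ab : ∀ (s : Fin 3) b, b < nb → ∀ φ, |ts ((s : ℕ) != 0) (P.mK + 1)
      (fun a => an ((s : ℕ) != 0) a b) φ| ≤ Q.La + (P.mK + 1) := fun s b hb φ => by
    cases ((s : ℕ) != 0)
    · simpa using ts_le (d := 0) (m := P.mK + 1) h.t0 hb (by omega) false φ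
    · simpa using ts_le (d := 0) (m := P.mK + 1) h.t1 hb (by omega) true φ
  have b0 : ∀ s s' y, |w s s' y| ≤ (Q.La + (P.mK + 1)) ^ 2 := fun s s' y => by
    rw [hw, abs_mul, sq]
    exact mul_le_mul (ab s k hk _) (ab s' k' hk' _) (abs_nonneg _) (by positivity)
  have l1 : ∀ (s : Fin 3) φ, |ts false (16 * P.cA) (fun a => r (s * (16 * P.cA) + a) j) φ|
      ≤ Q.Lr + 16 * P.cA := fun s φ => by
    simpa using ts_le (d := s * (16 * P.cA)) (m := 16 * P.cA) (tg_le t) hj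
      (by have := s.2; nlinarith) false φ
  have l2 : ∀ (s : Fin 3) φ, |ts false (16 * P.cB) (fun a => rc k' c' (s * (16 * P.cB) + a) j') φ|
      ≤ Q.Lc + 16 * P.cB := fun s φ => by
    simpa using ts_le (d := s * (16 * P.cB)) (m := 16 * P.cB) (tg_le t') hj'
      (by have := s.2; nlinarith) false φ
  have b1 : ∀ s s' y, |u s s' y - v s s' y|
      ≤ (Q.Lr + 16 * P.cA) * δ' + δ * (Q.Lc + 16 * P.cB + δ') := fun s s' y =>
    near_mul (hph y ▸ q j hj s s.2 (phA 1 y)) (hph y ▸ q' j' hj' s' s'.2 (phA 1 y)) (l1 s _) (l2 s' _)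
  have b2 : ∀ s s' y, |u s s' y * w s s' y - v s s' y * w s s' y| ≤ E := fun s s' y => by
    rw [← sub_mul, abs_mul]
    exact mul_le_mul (b1 s s' y) (b0 s s' y) (abs_nonneg _) ((abs_nonneg _).trans (b1 s s' y))
  have iF : ∀ s s' : Fin 3, Integrable (F s (3 * c' + s')) := fun s s' =>
    h.int s s.2 _ (by have := s'.2; omega)
  have mu : ∀ s s', Measurable (u s s') := fun s s' =>
    (meas_ts _ _ _ (meas_phA one_pos)).mul (meas_ts _ _ _ (meas_phA one_pos))
  have mw : ∀ s s', Measurable (w s s') := fun s s' =>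
    (meas_ts _ _ _ meas_th2).mul (meas_ts _ _ _ meas_th2)
  have mp : ∀ z : ℝ[X], Measurable fun y => z.eval (tau 1 y) := fun z =>
    z.continuous.measurable.comp (meas_tau one_pos)
  have mv : ∀ s s', Measurable (v s s') := fun s s' =>
    ((mp _).const_mul _).mul ((mp _).const_mul _)
  have i1 : ∀ s s' : Fin 3, Integrable fun y => F s (3 * c' + s') y * (u s s' y * w s s' y) :=
    fun s s' => (iF s s').mul_bdd (c := (Q.Lr + 16 * P.cA) * (Q.Lc + 16 * P.cB)
        * (Q.La + (P.mK + 1)) ^ 2) ((mu s s').mul (mw s s')).aestronglyMeasurable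
      (.of_forall fun y => by
        rw [Real.norm_eq_abs, abs_mul, hu, abs_mul]
        exact mul_le_mul (mul_le_mul (l1 s _) (l2 s' _) (abs_nonneg _) (by positivity))
          (b0 s s' y) (abs_nonneg _) (by positivity))
  have i2 : ∀ s s' : Fin 3, Integrable fun y => F s (3 * c' + s') y
      * (u s s' y * w s s' y - v s s' y * w s s' y) := fun s s' =>
    (iF s s').mul_bdd (c := E) (((mu s s').mul (mw s s')).sub
      ((mv s s').mul (mw s s'))).aestronglyMeasurable (.of_forall fun y => b2 s s' y)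
  have e1 : ∀ s s' y, v s s' y * w s s' y = α * α' * 4 ^ p * ((S j s).eval (tau 1 y)
      * (S' j' s').eval (tau 1 y) * (anF (lf k) s y * anF (lf k') s' y)) := fun s s' y => by
    have a1 := ts_an hA hk s y
    have a2 := ts_an hA hk' s' y
    rw [show (4 : ℝ) ^ p = 2 ^ p * 2 ^ p by rw [← mul_pow]; norm_num]
    simp only [hv, hw]
    linear_combination α * α' * (S j s).eval (tau 1 y) * (S' j' s').eval (tau 1 y)
      * ((if (s' : ℕ) = 0 then 1 else (N k' : ℝ)) * ts ((s' : ℕ) != 0) (P.mK + 1)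
        (fun a => an ((s' : ℕ) != 0) a k') (th2 y) * a1 + 2 ^ p * anF (lf k) s y * a2)
  have hκ : α * α' * 4 ^ p ≠ 0 := by positivity
  have i3 : ∀ s s' : Fin 3, Integrable fun y => F s (3 * c' + s') y * ((S j s).eval (tau 1 y)
      * (S' j' s').eval (tau 1 y) * (anF (lf k) s y * anF (lf k') s' y)) := fun s s' => by
    refine (((i1 s s').sub (i2 s s')).const_mul (α * α' * 4 ^ p)⁻¹).congr (.of_forall fun y => ?_)
    simp only [Pi.sub_apply, e1]
    field_simp
    ring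
  have e2 := pr6_eq hF hc m m' i3
  have e3 : frm volume (phA 1) th2 (fun s s' => F s (3 * c' + s')) (P.mA + 1) (16 * P.cB) (P.mK + 1)
      (fun s a => r (s * (16 * P.cA) + a) j) (fun s a => rc k' c' (s * (16 * P.cB) + a) j')
      (fun f a => an f a k) (fun f a => an f a k') - α * α' * 4 ^ p * σ * pr6 G x x'
      = ∑ s : Fin 3, ∑ s' : Fin 3, ∫ y, F s (3 * c' + s') y
        * (u s s' y * w s s' y - v s s' y * w s s' y) := by
    rw [mul_assoc _ σ, e2, frm, ← h.ok.a1]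
    simp only [sum_range, mul_sum, ← sum_sub_distrib]
    refine sum_congr rfl fun s _ => sum_congr rfl fun s' _ => ?_
    rw [← integral_const_mul, ← integral_sub (i1 s s') ((i3 s s').const_mul _)]
    refine integral_congr_ae (.of_forall fun y => ?_)
    simp only [e1]
    ring
  have hE0 : 0 ≤ E := (abs_nonneg _).trans (b2 0 0 0)
  rw [Lib.KBlk.ent, mul_assoc (8 / _), ← mul_sub, abs_mul, abs_of_nonneg (by positivity), err]
  refine mul_le_mul_of_nonneg_left ?_ (by positivity)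
  rw [e3, ← hE]
  refine le_trans ?_ (mul_le_mul_of_nonneg_right (hI c' hc) hE0)
  simp only [sum_range, sum_mul]
  refine (abs_sum_le_sum_abs _ _).trans (sum_le_sum fun s _ =>
    (abs_sum_le_sum_abs _ _).trans (sum_le_sum fun s' _ => ?_))
  rw [← integral_mul_const]
  refine abs_integral_le_integral_abs.trans (integral_mono (i2 s s').abs
    ((iF s s').abs.mul_const _) fun y => ?_)
  simp only [abs_mul]
  exact mul_le_mul_of_nonneg_left (b2 s s' y) (abs_nonneg _)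

theorem tok_near {W q J K : ℕ} {T : Trm} {g g' : ℕ → ℕ → ℝ} {ε ε' : ℝ} (h : TOk W q J T K g ε)
    (hg : ∀ j < J, ∀ n < q, |g j n - g' j n| ≤ ε') : TOk W q J T K g' (ε + ε') :=
  fun j hj z f K0 g0 e0 hz hf => by
    obtain ⟨y, y1, v, v1, v2⟩ := h j hj z f K0 g0 e0 hz hf
    refine ⟨y, y1, v, v1, fun n hn => ?_⟩
    have a1 := abs_le.1 (v2 n hn)
    have a2 := abs_le.1 (hg j hj n hn)
    exact abs_le.2 ⟨by linarith [a1.1, a2.1], by linarith [a1.2, a2.2]⟩

/-- The rows of a tile as a term, in terms of the true fields. -/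
theorem tC_pair (h : Src P Q volume (phA 1) th2 F nb T0 T1 dg M an) {σ I α α' δ δ' : ℝ}
    (hα : α ≠ 0) (hα' : α' ≠ 0) (hF : Fld G σ e e' c F)
    (hI : ∀ c' < 2, ∑ s ∈ range 3, ∑ s' ∈ range 3, ∫ y, |F s (3 * c' + s') y| ≤ I)
    (hA : An an (P.mK + 1) p N lf nb) {x x' : ℕ × ℕ × ℕ → Bool → Vc} {b0 q b J : ℕ}
    (h0 : b0 < nb) (hb : b + q ≤ nb) {Jc : ℕ → ℕ → ℕ} {D : ℕ → ℕ → Rows} {R : Rows}
    (hD : ∀ b' < b + q, ∀ Y < 2,
      Blk1 P.W P.Kc (16 * P.dB) (16 * P.cB) Q.Lc N lf e' α' δ' x' b' Y (Jc b' Y) (D b' Y))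
    (hR : Blk1 P.W P.Kr (16 * P.dA) (16 * P.cA) Q.Lr N lf e α δ x b0 c J R) {f : Tile → Bool}
    (hf : tile0 P b0 T0 T1 dg M Jc D q b f = true) {S : Scl} (hS : S.Ok P.W P.E4) :
    ∃ t, f t = true ∧ TOk P.W (tot Jc q b) J (tC P (tot Jc q b) S R t) (S.c * S.K)
      (fun j n => S.val * (8 / 2 ^ (P.s1 + P.s2 + P.s3) * (α * α' * 4 ^ p * σ)
        * pr6 G (x (b0, c, j)) (x' (dec Jc q b n))))
      (S.c / 2 ^ S.s * Q.e4 + 1 + S.c / 2 ^ S.s * err P Q I δ δ') := by
  obtain ⟨r, S0, t0, q0, m0⟩ := hR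
  choose! rc S1 t1 q1 m1 using hD
  obtain ⟨t, ht, h1⟩ := tC_ok h h0 hb t1 hf hS t0
  refine ⟨t, ht, tok_near h1 fun j hj n hn => ?_⟩
  obtain ⟨-, a2, a3, a4⟩ := dec_spec Jc q b n hn
  generalize dec Jc q b n = d at a2 a3 a4
  obtain ⟨k', c', j'⟩ := d
  have h2 := ent_near h hα hα' hF hI hA h0 (by omega) a3 hj a4 t0 (t1 k' a2 c' a3) q0
    (q1 k' a2 c' a3) (m0 j hj) (m1 k' a2 c' a3 j' a4)
  have h3 : |S.val| = S.c / 2 ^ S.s := by
    unfold Scl.val
    split_ifs <;> simp [abs_div]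
  rw [← mul_sub, abs_mul, h3]
  exact mul_le_mul_of_nonneg_left h2 (by positivity)

end Pool.Agent.Work.MP_6bf1e5_an.H.Gl
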