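import Pool.Agent.Work.MP_6bf1e5_an.H.CertFin
import Pool.Agent.Work.MP_6bf1e5_an.H.Glue

/-! The pairings of the certificate as forms of block matrix fields. -/

open scoped ContDiff ENNReal FourierTransform Real
open Set MeasureTheory

namespace Pool.Agent.Work.MP_6bf1e5_an.H.Ca

open Gl Fn

abbrev V6 := Bool → Vc

abbrev M6 := Bool → Bool → Mc

noncomputable section

/-- The pair of a mode. -/
def xU (w : Vc) : V6 := fun a => bif a then w else curl w

/-- The pair of a test field of the functional. -/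
def xT (θ : Vc) : V6 := fun a => bif a then curl θ else fun i y => -θ i y - 2 / 3 * yd (θ i) y

def oo (ov ou : Sc) (a : Bool) : Sc := bif a then ou else ov

/-- The matrix of the cross product with `U`. -/
def cM (U : Vc) : Mc := fun i j y =>
  if j = i + 2 then U (i + 1) y else if j = i + 1 then -U (i + 2) y else 0

def dM (f : Sc) : Mc := fun i j y => if i = j then f y else 0

def G0 (V B : Mc) : M6 := fun a b i j y =>
  bif a then (bif b then 0 else B j i y) else bif b then B i j y else 2 * V i j y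

def G1 (U W : Vc) : M6 := fun a b i j y =>
  bif a then (bif b then -cM W i j y else 0) else bif b then cM U i j y else dM 1 i j y

def F0 (V B : Mc) : M6 := fun a b i j y =>
  bif a then (bif b then 0 else B j i y / 2) else bif b then B i j y / 2 else V i j y

def oI (ov ou : Sc) : M6 := fun a b i j y => if a = b then dM (oo ov ou a) i j y else 0

def oG (ov ou : Sc) (G : M6) : M6 := fun a b i j y => oo ov ou a y * G a b i j y

def tG (ov ou : Sc) (G G' : M6) : M6 := fun a b i j y =>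
  ∑ c, oo ov ou c y * ∑ k, G c a k i y * G' c b k j y

def cG (x z : ℝ) (G G' : M6) : M6 := fun a b i j y => x * G a b i j y - z * G' a b i j y

def trG (G : M6) : M6 := fun a b i j => G b a j i

def QM (V B : Mc) (ov ou : Sc) (x z : ℝ) : M6 := cG x z (F0 V B) (tG ov ou (G0 V B) (G0 V B))

def LM (V B : Mc) (U W : Vc) (ov ou : Sc) (x z : ℝ) : M6 :=
  cG x (2 * z) (G1 U W) (tG ov ou (G0 V B) (G1 U W))

/-- A block matrix field applied to a pair. -/
def ap (G : M6) (x : V6) : V6 := fun a i y => ∑ b, mv3 (G a b) (x b) i y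

def mP (a : Bool) : ℝ := bif a then -4 else -3

def mU (a : Bool) : ℝ := bif a then 0 else -1

def Xb (m : Bool → ℝ) (x : V6) : Prop := ∀ a i, Bd (m a) (x a i)

def Gb (m m' : Bool → ℝ) (G : M6) : Prop := ∀ a b i j, Bd (m a - m' b) (G a b i j)

/-- The frame components of `G` are `g`. -/
def Fr6 (G g : M6) : Prop := ∀ y, Off y → ∀ a b s r, mC (G a b) s r y = g a b s r y

end

variable {ι : Type} [Fintype ι] {L : Lyap} {T : Tab L} {ov ou : Sc} {G G' g g' : M6} {x z : V6}
  {m m' : Bool → ℝ} {V B : Mc} {U W w θ : Vc} {y : R3}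

theorem mv3_cM (U a : Vc) (i : Fin 3) (y : R3) : mv3 (cM U) a i y = cross U a i y := by
  fin_cases i <;> simp [mv3, cM, cross, Fin.sum_univ_three] <;> ring

theorem mv3_dM (f : Sc) (a : Vc) (i : Fin 3) (y : R3) : mv3 (dM f) a i y = f y * a i y := by
  simp [mv3, dM]

theorem bf_tG (a b : Bool) (p q : Vc) (y : R3) : bf (tG ov ou G G' a b) p q y =
    ∑ c, oo ov ou c y * dot (mv3 (G c a) p) (mv3 (G' c b) q) y := by
  simp only [bf, tG, dot, mv3, Fin.sum_univ_three, Fintype.sum_bool]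
  ring

theorem bf_cG (c d : ℝ) (a b : Bool) (p q : Vc) (y : R3) :
    bf (cG c d G G' a b) p q y = c * bf (G a b) p q y - d * bf (G' a b) p q y := by
  simp only [bf, cG, Fin.sum_univ_three]
  ring

theorem Off.mC_of (h : Off y) {M n : Mc} (e : ∀ a i, mv3 M (vF a) i y = vF (mv3 n a) i y)
    (s r : Fin 3) : mC M s r y = n s r y := by
  have f : ∀ s i, fr s i y = vF (fun a _ => if a = s then 1 else 0) i y := fun s i => by simp [vF]
  have := h.dot_vF (fun a _ => if a = s then 1 else 0) (mv3 n fun a _ => if a = r then 1 else 0)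
  simp only [dot, ← e] at this
  simp only [mv3, ← f] at this
  simpa [mC, bf, Finset.mul_sum, mul_assoc] using this

theorem mC_tr (M : Mc) (s r : Fin 3) (y : R3) : mC (fun i j => M j i) s r y = mC M r s y := by
  simp only [mC, bf, Fin.sum_univ_three]
  ring

theorem mC_mul (f : Sc) (M : Mc) (s r : Fin 3) (y : R3) :
    mC (fun i j y => f y * M i j y) s r y = f y * mC M s r y := by
  simp only [mC, bf, Fin.sum_univ_three]
  ring

theorem Off.mC_dM (h : Off y) (f : Sc) (s r : Fin 3) : mC (dM f) s r y = dM f s r y :=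
  Off.mC_of h (fun a i => by
    simp only [vF, mv3_dM, Fin.sum_univ_three]
    ring) s r

theorem Off.mC_cM (h : Off y) (U : Vc) (s r : Fin 3) : mC (cM (vF U)) s r y = cM U s r y :=
  Off.mC_of h (fun a i => by
    rw [mv3_cM, h.cross_vF]
    exact vF_congr (fun k => (mv3_cM _ _ _ _).symm) i) s r

theorem mC_zero (s r : Fin 3) (y : R3) : mC (fun _ _ _ => 0) s r y = 0 := by simp [mC, bf]

theorem fr_G0 (V B : Mc) : Fr6 (G0 (mF V) (mF B)) (G0 V B) := fun y h a b s r => by
  cases a <;> cases b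
  · exact (mC_mul (fun _ => 2) _ s r y).trans (congrArg _ (h.mC_mF V s r))
  · exact h.mC_mF B s r
  · exact (mC_tr _ s r y).trans (h.mC_mF B r s)
  · exact mC_zero s r y

theorem fr_F0 (V B : Mc) : Fr6 (F0 (mF V) (mF B)) (F0 V B) := fun y h a b s r => by
  have e : ∀ M : Mc, mC (fun i j y => M i j y / 2) s r y = mC M s r y / 2 := fun M => by
    simp only [mC, bf, Fin.sum_univ_three]
    ring
  cases a <;> cases b
  · exact h.mC_mF V s r
  · exact (e _).trans (congrArg (· / 2) (h.mC_mF B s r))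
  · exact (e _).trans (congrArg (· / 2) ((mC_tr _ s r y).trans (h.mC_mF B r s)))
  · exact mC_zero s r y

theorem fr_G1 (U W : Vc) : Fr6 (G1 (vF U) (vF W)) (G1 U W) := fun y h a b s r => by
  cases a <;> cases b
  · exact Off.mC_dM h 1 s r
  · exact Off.mC_cM h U s r
  · exact mC_zero s r y
  · have := mC_mul (fun _ => -1) (cM (vF W)) s r y
    simp only [neg_one_mul, Off.mC_cM h] at this
    exact this

theorem fr_oI (ov ou : Sc) : Fr6 (oI ov ou) (oI ov ou) := fun y h a b s r => by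
  cases a <;> cases b
  exacts [Off.mC_dM h _ s r, mC_zero s r y, mC_zero s r y, Off.mC_dM h _ s r]

theorem Fr6.oG (h : Fr6 G g) : Fr6 (oG ov ou G) (oG ov ou g) := fun y k a b s r =>
  (mC_mul _ _ s r y).trans (congrArg _ (h y k a b s r))

theorem Fr6.cG (h : Fr6 G g) (h' : Fr6 G' g') (c d : ℝ) : Fr6 (cG c d G G') (cG c d g g') :=
  fun y k a b s r => by
    rw [mC, bf_cG, Ca.cG, ← h y k, ← h' y k]
    rfl

theorem Fr6.tG (h : Fr6 G g) (h' : Fr6 G' g') : Fr6 (tG ov ou G G') (tG ov ou g g') :=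
  fun y k a b s r => by
    rw [mC, bf_tG, Ca.tG]
    refine Finset.sum_congr rfl fun c _ => congrArg _ ?_
    have := k.dot_vF (vC (mv3 (G c a) (fr s))) (vC (mv3 (G' c b) (fr r)))
    simp only [dot, k.vF_vC] at this
    simp only [← h y k, ← h' y k, mC, bf_eq_dot, dot_comm (fr _)]
    exact this

theorem Fr6.trG (h : Fr6 G g) : Fr6 (trG G) (trG g) := fun y k a b s r =>
  (mC_tr _ s r y).trans (h y k b a r s)

theorem fr_QM (V B : Mc) (ov ou : Sc) (c d : ℝ) :
    Fr6 (QM (mF V) (mF B) ov ou c d) (QM V B ov ou c d) :=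
  (fr_F0 V B).cG ((fr_G0 V B).tG (fr_G0 V B)) c d

theorem fr_LM (V B : Mc) (U W : Vc) (ov ou : Sc) (c d : ℝ) :
    Fr6 (LM (mF V) (mF B) (vF U) (vF W) ov ou c d) (LM V B U W ov ou c d) :=
  (fr_G1 U W).cG ((fr_G0 V B).tG (fr_G1 U W)) c _

/-- The target of the moment tables in terms of the frame components. -/
theorem Fr6.fld (h : Fr6 G g) {σ : ℝ} {e e' : Bool → ℕ} {c : ℕ} {F : ℕ → ℕ → Sc}
    (hF : ∀ s : Fin 3, ∀ c' < 2, ∀ s' : Fin 3, ∀ y, Off y → F s (3 * c' + s') y =
      σ * (pre e c s y * pre e' c' s' y * g (slot c s) (slot c' s') s s' y)) : Fld G σ e e' c F :=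
  fun s c' hc s' => ae_off.mono fun y k => by simp only [hF s c' hc s' y k, h y k]

theorem xb_pb : Xb mP x ↔ Pb (x false) (x true) :=
  ⟨fun h => ⟨h false, h true⟩, fun h a => by cases a; exacts [h.1, h.2]⟩

theorem xb_U (h : ∀ i, Sym (-2) (w i)) : Xb mU (xU w) := fun a i => by
  cases a
  · exact (bd_curl h i).mono (by norm_num [mU])
  · exact (h i).bd.mono (by norm_num [mU])

theorem xb_T (h : ∀ i, Sym (-3) (θ i)) : Xb mP (xT θ) := fun a i => by
  cases a
  exacts [(h i).bd.neg.sub ((bd_yd (h i)).cmul _), SkCert_curl h i]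

theorem bd_oo (h : Wt ov ou) (a : Bool) : Bd (-4 - 2 * mP a) (oo ov ou a) := by
  cases a
  · exact h.1.1.of_eq (by norm_num [mP])
  · exact h.2.1.of_eq (by norm_num [mP])

theorem bd_dM {k : ℝ} {f : Sc} (h : Bd k f) (i j : Fin 3) : Bd k (dM f i j) := by
  unfold dM
  split_ifs
  exacts [h, bd_zero _]

theorem bd_cM {k : ℝ} (h : ∀ i, Bd k (U i)) (i j : Fin 3) : Bd k (cM U i j) := by
  unfold cM
  split_ifs
  exacts [h _, (h _).neg, bd_zero _]

theorem gb_G0 (bV : ∀ i j, Bd (-2) (V i j)) (bB : ∀ i j, Bd (-3) (B i j)) : Gb mP mU (G0 V B) :=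
  fun a b i j => by
    cases a <;> cases b
    · exact ((bV i j).cmul 2).of_eq (by norm_num [mP, mU])
    · exact (bB i j).of_eq (by norm_num [mP, mU])
    · exact (bB j i).of_eq (by norm_num [mP, mU])
    · exact bd_zero _

theorem gb_F0 (bV : ∀ i j, Bd (-2) (V i j)) (bB : ∀ i j, Bd (-3) (B i j)) : Gb mP mU (F0 V B) :=
  fun a b i j => by
    have e : ∀ i j, Bd (-3) fun y => B i j y / 2 := fun i j =>
      ((bB i j).cmul 2⁻¹).congr fun y => by ring
    cases a <;> cases b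
    · exact (bV i j).of_eq (by norm_num [mP, mU])
    · exact (e i j).of_eq (by norm_num [mP, mU])
    · exact (e j i).of_eq (by norm_num [mP, mU])
    · exact bd_zero _

theorem gb_G1 (bU : ∀ i, Bd 0 (U i)) (bW : ∀ i, Bd 0 (W i)) : Gb mP mP (G1 U W) :=
  fun a b i j => by
    cases a <;> cases b
    · exact (bd_dM (bd_const 1) i j).of_eq (by simp)
    · exact (bd_cM bU i j).mono (by norm_num [mP])
    · exact bd_zero _
    · exact (bd_cM bW i j).neg.of_eq (by simp)

theorem gb_oI (h : Wt ov ou) : Gb (fun a => -4 - mP a) mP (oI ov ou) := fun a b i j => by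
  unfold oI
  split_ifs with e
  · exact (bd_dM (bd_oo h a) i j).of_eq (by rw [e]; ring)
  · exact bd_zero _

theorem Gb.oG (h : Gb mP m G) (k : Wt ov ou) : Gb (fun a => -4 - mP a) m (oG ov ou G) :=
  fun a b i j => ((bd_oo k a).mul (h a b i j)).of_eq (by ring)

theorem Gb.tG (h : Gb mP m G) (h' : Gb mP m' G') (k : Wt ov ou) :
    Gb (fun a => -4 - m a) m' (tG ov ou G G') := fun a b i j =>
  Bd.sum _ fun c _ => ((bd_oo k c).mul (Bd.sum _ fun l _ => (h c a l i).mul (h' c b l j))).of_eq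
    (by ring)

theorem Gb.cG (h : Gb m m' G) (h' : Gb m m' G') (c d : ℝ) : Gb m m' (cG c d G G') :=
  fun a b i j => ((h a b i j).cmul c).sub ((h' a b i j).cmul d)

theorem Gb.dual (h : Gb mP m G) : Gb (fun a => -4 - mU a) m G := fun a b i j =>
  (h a b i j).of_eq (by cases a <;> norm_num [mP, mU])

theorem Gb.ap (h : Gb m m' G) (k : Xb m' x) : Xb m (ap G x) := fun a i =>
  Bd.sum _ fun b _ => bd_mv3 (h a b) (k b) (by simp) i

theorem Gb.int (h : Gb (fun a => -4 - m a) m' G) (k : Xb m x) (k' : Xb m' z) (a b : Bool) :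
    Integrable (bf (G a b) (x a) (z b)) :=
  Ca.int_bf (h a b) (k a) (k' b) (by linarith)

theorem pr6_int (h : Gb (fun a => -4 - m a) m' G) (k : Xb m x) (k' : Xb m' z) :
    pr6 G x z = ∫ y, ∑ a, ∑ b, bf (G a b) (x a) (z b) y := by
  rw [integral_finsetSum _ fun a _ => integrable_finsetSum _ fun b _ => h.int k k' a b]
  simp only [integral_finsetSum _ fun b _ => h.int k k' _ b]
  simp only [pr6, Fintype.sum_bool]
  ring

theorem pr_int (h : Wt ov ou) (k : Xb mP x) (k' : Xb mP z) :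
    pr ov ou (x false) (x true) (z false) (z true) =
      ∫ y, ∑ c, oo ov ou c y * dot (x c) (z c) y := by
  rw [integral_finsetSum _ fun c _ => (bd_oo h c).int_nw (k c) (k' c) (by linarith)]
  simp only [pr, ip, dot_sm, Fintype.sum_bool, add_comm]
  rfl

/-- The Gram matrix. -/
theorem pr_six (h : Wt ov ou) (k : Xb mP x) (k' : Xb mP z) :
    pr ov ou (x false) (x true) (z false) (z true) = pr6 (oI ov ou) x z := by
  rw [pr_int h k k', pr6_int (gb_oI h) k k']
  simp [bf, oI, dM, dot, Finset.mul_sum, mul_comm, mul_left_comm, mul_assoc]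

theorem pr_ap (h : Wt ov ou) (hG : Gb mP m G) (k : Xb m x) (k' : Xb mP z) :
    pr ov ou (ap G x false) (ap G x true) (z false) (z true) = pr6 (oG ov ou G) z x := by
  rw [pr_int h (hG.ap k) k', pr6_int (hG.oG h) k' k]
  congr 1
  funext y
  simp only [bf, oG, ap, dot, mv3, Fin.sum_univ_three, Fintype.sum_bool]
  ring

theorem pr_ap2 (h : Wt ov ou) (hG : Gb mP m G) (hG' : Gb mP m' G') (k : Xb m x) (k' : Xb m' z) :
    pr ov ou (ap G x false) (ap G x true) (ap G' z false) (ap G' z true) =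
      pr6 (tG ov ou G G') x z := by
  rw [pr_int h (hG.ap k) (hG'.ap k'), pr6_int (hG.tG hG' h) k k']
  congr 1
  funext y
  simp only [bf_tG, ap, dot, Fin.sum_univ_three, Fintype.sum_bool]
  ring

theorem pr6_cG (h : Gb (fun a => -4 - m a) m' G) (h' : Gb (fun a => -4 - m a) m' G') (k : Xb m x)
    (k' : Xb m' z) (c d : ℝ) : pr6 (cG c d G G') x z = c * pr6 G x z - d * pr6 G' x z := by
  have e : ∀ a b, ∫ y, bf (cG c d G G' a b) (x a) (z b) y =
      c * (∫ y, bf (G a b) (x a) (z b) y) - d * ∫ y, bf (G' a b) (x a) (z b) y := fun a b => by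
    simp only [bf_cG]
    rw [integral_sub ((h.int k k' a b).const_mul c) ((h'.int k k' a b).const_mul d),
      integral_const_mul, integral_const_mul]
  simp only [pr6, e]
  ring

theorem pr6_trG (G : M6) (x z : V6) : pr6 (trG G) x z = pr6 G z x := by
  have e : ∀ a b, bf (trG G a b) (x a) (z b) = bf (G b a) (z b) (x a) := fun a b => by
    funext y
    simp only [bf, trG, Fin.sum_univ_three]
    ring
  simp only [pr6, e]
  ring

theorem pr6_symm (h : ∀ a b i j y, G a b i j y = G b a j i y) (x z : V6) :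
    pr6 G x z = pr6 G z x := by
  rw [← pr6_trG]
  congr 1
  funext a b i j y
  exact (h a b i j y).symm

theorem ap_G0 (T : Tab L) (w : Vc) :
    T.hV0 w = ap (G0 T.V T.B) (xU w) false ∧ T.hU0 w = ap (G0 T.V T.B) (xU w) true := by
  constructor <;> funext i y <;>
    simp [Tab.hV0, Tab.hU0, ap, G0, xU, mv3, vm3, Fin.sum_univ_three] <;> ring

theorem ap_G1 (U W θ : Vc) :
    kp U θ = ap (G1 U W) (xT θ) false ∧ kqW W θ = ap (G1 U W) (xT θ) true := by
  constructor <;> funext i y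
  · have h1 := mv3_cM U (curl θ) i y
    simp only [mv3, cross] at h1
    simp [kp, ap, G1, xT, mv3, dM, h1, cross]
    ring
  · have h1 := mv3_cM W (curl θ) i y
    simp only [mv3] at h1
    simp [kqW, ap, G1, xT, mv3, h1]

/-- The tables of the finite problem. -/
structure Six (T : Tab L) (U W : Vc) (ov ou : Sc) : Prop where
  good : L.Good
  bV : ∀ i j, Bd (-2) (T.V i j)
  sV : ∀ i j, T.V i j = T.V j i
  bB : ∀ i j, Bd (-3) (T.B i j)
  bU : ∀ i, Bd 0 (U i)
  bW : ∀ i, Bd 0 (W i)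
  hP : ∀ a, T.P a = kp U (L.θ a)
  hQ : ∀ a, T.Q a = kqW W (L.θ a)
  wt : Wt ov ou

namespace Six

variable (h : Six T U W ov ou)

include h

theorem eP (a : Fin L.r) : T.P a = ap (G1 U W) (xT (L.θ a)) false := (h.hP a).trans (ap_G1 ..).1

theorem eQ (a : Fin L.r) : T.Q a = ap (G1 U W) (xT (L.θ a)) true := (h.hQ a).trans (ap_G1 ..).2

theorem xb (a : Fin L.r) : Xb mP (xT (L.θ a)) := xb_T (h.good.1 a)

theorem pb (a : Fin L.r) : Pb (T.P a) (T.Q a) := by
  rw [h.eP, h.eQ]
  exact xb_pb.1 ((gb_G1 h.bU h.bW).ap (h.xb a))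

theorem p0_eq (hw : ∀ i, Sym (-2) (w i)) (k : Xb mP z) :
    p0 T ov ou w (z false) (z true) = pr6 (oG ov ou (G0 T.V T.B)) z (xU w) := by
  rw [p0, (ap_G0 T w).1, (ap_G0 T w).2, pr_ap h.wt (gb_G0 h.bV h.bB) (xb_U hw) k]

theorem pP_eq (a : Fin L.r) (k : Xb mP z) :
    pP T ov ou a (z false) (z true) = pr6 (oG ov ou (G1 U W)) z (xT (L.θ a)) := by
  rw [pP, h.eP, h.eQ, pr_ap h.wt (gb_G1 h.bU h.bW) (h.xb a) k]

theorem pPP_eq (a b : Fin L.r) : pP T ov ou a (T.P b) (T.Q b) =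
    pr6 (tG ov ou (G1 U W) (G1 U W)) (xT (L.θ a)) (xT (L.θ b)) := by
  rw [pP, h.eP, h.eQ, h.eP, h.eQ,
    pr_ap2 h.wt (gb_G1 h.bU h.bW) (gb_G1 h.bU h.bW) (h.xb a) (h.xb b)]

theorem pL_eq (a : Fin L.r) (hw : ∀ i, Sym (-2) (w i)) : p0 T ov ou w (T.P a) (T.Q a) =
    pr6 (tG ov ou (G1 U W) (G0 T.V T.B)) (xT (L.θ a)) (xU w) := by
  rw [p0, pr_comm, (ap_G0 T w).1, (ap_G0 T w).2, h.eP, h.eQ,
    pr_ap2 h.wt (gb_G1 h.bU h.bW) (gb_G0 h.bV h.bB) (h.xb a) (xb_U hw)]

theorem k_eq (a : Fin L.r) (hw : ∀ i, Sym (-2) (w i)) : T.k a w =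
    T.ν * ip (LamV (curl w)) (L.θ a) + pr6 (G1 U W) (xU w) (xT (L.θ a)) := by
  have k := xb_U hw
  have i1 := ((k false |> fun k => Bd.dot k (h.pb a).1).integrable (by norm_num [mU]))
  have i2 := ((k true |> fun k => Bd.dot k (h.pb a).2).integrable (by norm_num [mU]))
  rw [Tab.k, add_assoc, pr6_int (gb_G1 h.bU h.bW).dual k (h.xb a), ip, ip]
  erw [← integral_add i1 i2]
  congr 2
  funext y
  simp only [h.eP, h.eQ, bf, ap, dot, mv3, Fin.sum_univ_three, Fintype.sum_bool]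
  ring

theorem L_eq (a : Fin L.r) (hw : ∀ i, Sym (-2) (w i)) (c d : ℝ) :
    c * T.k a w - 2 * d * p0 T ov ou w (T.P a) (T.Q a) = c * T.ν * ip (LamV (curl w)) (L.θ a)
      + pr6 (LM T.V T.B U W ov ou c d) (xU w) (xT (L.θ a)) := by
  have g0 := gb_G0 h.bV h.bB
  have g1 := gb_G1 h.bU h.bW
  rw [h.k_eq a hw, LM, pr6_cG g1.dual (g0.tG g1 h.wt) (xb_U hw) (h.xb a), p0, (ap_G0 T w).1,
    (ap_G0 T w).2, h.eP, h.eQ, pr_ap2 h.wt g0 g1 (xb_U hw) (h.xb a)]
  ring

theorem Q_symm (c d : ℝ) (x z : V6) :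
    pr6 (QM T.V T.B ov ou c d) x z = pr6 (QM T.V T.B ov ou c d) z x :=
  pr6_symm (fun a b i j y => by
    simp only [QM, cG, tG, mul_comm (G0 T.V T.B _ a _ _ _)]
    cases a <;> cases b <;> simp [F0, h.sV i j]) x z

/-- The field `hQ` of `Pass`. -/
theorem Q_eq {u : ι → Vc} (hu : ∀ j i, Sym (-2) (u j i)) (d e : ℝ) (c : ι → ℝ) :
    ∑ j, ∑ k, pr6 (QM T.V T.B ov ou d e) (xU (u j)) (xU (u k)) * (c j * c k) = d *
      ((∫ y, bf T.V (curl (lc c u)) (curl (lc c u)) y) + ∫ y, bf T.B (curl (lc c u)) (lc c u) y)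
        - e * (nw ov (T.hV0 (lc c u)) + nw ou (T.hU0 (lc c u))) := by
  have g0 := gb_G0 h.bV h.bB
  have f0 := gb_F0 h.bV h.bB
  have k := xb_U (sym_lc c hu)
  have e1 : ∀ a, xU (lc c u) a = lc c fun j => xU (u j) a := fun a => by
    cases a
    exacts [SkCert_curl_lc hu c, rfl]
  have e2 : pr6 (QM T.V T.B ov ou d e) (xU (lc c u)) (xU (lc c u)) =
      ∑ j, ∑ k, pr6 (QM T.V T.B ov ou d e) (xU (u j)) (xU (u k)) * (c j * c k) := by
    simp only [pr6, e1, fun a b => bf_lc c c fun j k =>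
      (f0.dual.cG (g0.tG g0 h.wt) d e).int (xb_U (hu j)) (xb_U (hu k)) a b, QM, add_mul,
      Finset.sum_add_distrib]
  have e3 : ∀ y, bf (F0 T.V T.B false true) (curl (lc c u)) (lc c u) y =
      2⁻¹ * bf T.B (curl (lc c u)) (lc c u) y ∧ bf (F0 T.V T.B true false) (lc c u)
      (curl (lc c u)) y = 2⁻¹ * bf T.B (curl (lc c u)) (lc c u) y := fun y => by
    constructor <;> simp only [bf, F0, cond_true, cond_false, Fin.sum_univ_three] <;> ring
  rw [← e2, QM, pr6_cG f0.dual (g0.tG g0 h.wt) k k, ← pr_ap2 h.wt g0 g0 k k, pr_self,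
    ← (ap_G0 T _).1, ← (ap_G0 T _).2]
  simp only [pr6, xU, cond_true, cond_false, funext fun y => (e3 y).1, funext fun y => (e3 y).2,
    integral_const_mul]
  have e4 : F0 T.V T.B false false = T.V := rfl
  have e5 : ∀ y, bf (F0 T.V T.B true true) (lc c u) (lc c u) y = 0 := fun y => by simp [bf, F0]
  simp only [e4, e5, integral_zero]
  ring

end Six

end Pool.Agent.Work.MP_6bf1e5_an.H.Ca
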