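import Pool.Agent.Work.MP_6bf1e5_an.H.LmiDat

/-! A test for the pointwise matrix inequality. -/

namespace Pool.Agent.Work.MP_6bf1e5_an.H.Lt.Dat

theorem c00 : chkD 100 1296 9 7 728 600 640 36 dat 0 (700 + 760) = true := by decide +kernel

theorem cw1 : chkW 256 2048 9 dat.b dat.s dat.r1 o1 = true := by decide +kernel

theorem cw2 : chkW 256 2048 9 dat.b dat.s dat.r2 o2 = true := by decide +kernel

theorem cw3 : chkP 256 2048 9 dat.n dat.c dat.b dat.s dat.r2 dat.r3 dat.r4 = true := by
  decide +kernel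

end Pool.Agent.Work.MP_6bf1e5_an.H.Lt.Dat
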