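import Pool.Agent.Work.MP_6bf1e5_an.H.LmiDat

/-! A test for the pointwise matrix inequality. -/

namespace Pool.Agent.Work.MP_6bf1e5_an.H.Lt.Dat

theorem c11 : chkD 100 1296 9 7 728 600 640 36 dat 1 (700 + 660) = true := by decide +kernel

end Pool.Agent.Work.MP_6bf1e5_an.H.Lt.Dat
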