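import Pool.Agent.Work.MP_6bf1e5_an.H.Lmi
import Pool.Agent.Work.MP_6bf1e5_an.H.LmiC00
import Pool.Agent.Work.MP_6bf1e5_an.H.LmiC01
import Pool.Agent.Work.MP_6bf1e5_an.H.LmiC02
import Pool.Agent.Work.MP_6bf1e5_an.H.LmiC11
import Pool.Agent.Work.MP_6bf1e5_an.H.LmiC12
import Pool.Agent.Work.MP_6bf1e5_an.H.LmiC22

/-! The weights and the pointwise matrix inequality for the data (owner helper52). -/

namespace Pool.Agent.Work.MP_6bf1e5_an.H.Lt.Dat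

noncomputable section

/-- The matrix on the vorticity. -/
def Vt : Mc := tabM 4 bV sV vv

/-- The coupling matrix. -/
def Bt : Mc := tabM 6 bB sB bb

/-- The weight on the tail of the vorticity. -/
def mv : Sc := rowQ 4 b1 s1 r1

/-- The weight on the tail of the velocity. -/
def mu : Sc := rowQ 8 b1 s1 r2

/-- The dual weight for the vorticity. -/
def ov : Sc := rowI 4 b1 s1 o1

/-- The dual weight for the velocity. -/
def ou : Sc := rowI 8 b1 s1 o2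

/-- The weight of the multiplier. -/
def Wm : Sc := WW dat.c3 dat.φ

/-- Its gradient. -/
def Gm : Sc := WG dat.c3 dat.φ

/-- The gain. -/
def Pm : Sc := PN 64 dat.c3 dat.φ

theorem vv_symm (a c : Fin 3) : vv a c = vv c a := sy6_symm _ _ _ _ _ _ a c

theorem gain : Gain 64 Wm Gm Pm := dat.gain

theorem bd_Vt (i j : Fin 3) : Bd (-2) (Vt i j) := bd_tabV _ _ _ i j

theorem Vt_symm (i j : Fin 3) : Vt i j = Vt j i := tabM_symm _ _ _ vv_symm i j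

theorem bd_Bt (i j : Fin 3) : Bd (-3) (Bt i j) := bd_tabB _ _ _ i j

theorem all : LMI Vt Bt Wm Gm Pm mv mu ∧
    (Bd (-2) mv ∧ Bd 2 ov ∧ ∀ᵐ y, 0 < ov y ∧ 1 ≤ mv y * ov y) ∧
    (Bd (-4) mu ∧ Bd 4 ou ∧ ∀ᵐ y, 0 < ou y ∧ 1 ≤ mu y * ou y) :=
  LD.sound (p := dat) vv_symm cw1 cw2 cw3 c01 c02 c12 c00 c11 c22

theorem lmi : LMI Vt Bt Wm Gm Pm mv mu := all.1

theorem wv : Bd (-2) mv ∧ Bd 2 ov ∧ ∀ᵐ y, 0 < ov y ∧ 1 ≤ mv y * ov y := all.2.1

theorem wu : Bd (-4) mu ∧ Bd 4 ou ∧ ∀ᵐ y, 0 < ou y ∧ 1 ≤ mu y * ou y := all.2.2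

end

end Pool.Agent.Work.MP_6bf1e5_an.H.Lt.Dat
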