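import Pool.Agent.Work.MP_6bf1e5_an.H.LtF

/-! The vector fields described by literal tables (owner helper80). -/

open Set Polynomial MeasureTheory

namespace Pool.Agent.Work.MP_6bf1e5_an.H.Lt

noncomputable section

/-- The factor `κ` of the two meridional components. -/
def kv (a : Fin 3) : Sc := if a = 2 then fun _ => 1 else kA 1

/-- Frame components of a vector field; component `0` has the cosine type, the others the sine
type. -/
def vecC (p b s : ℕ) (d : Fin 3 → LT) : Vc := fun a y =>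
  tau 1 y ^ p * (kv a y * tbF (decide (a ≠ 0)) b s (d a) y)

/-- The vector field of three literal tables. -/
def vecV (p b s : ℕ) (d : Fin 3 → LT) : Vc := vF (vecC p b s d)

theorem bd_kv (a : Fin 3) : Bd 0 (kv a) := by
  unfold kv
  split_ifs
  · exact ⟨aestronglyMeasurable_const, 1, .of_forall fun y => by simp⟩
  · exact ⟨(meas_kA one_pos).aestronglyMeasurable, 1, .of_forall fun y => by simpa using abs_kA y⟩

theorem bd_vecC (p b s : ℕ) (d : Fin 3 → LT) (a : Fin 3) : Bd (-(p / 2 : ℝ)) (vecC p b s d a) :=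
  ((bd_tau p).mul ((bd_kv a).mul (bd_tbF _ b s _))).of_eq (by simp)

theorem bd_vecV (p b s : ℕ) (d : Fin 3 → LT) (i : Fin 3) : Bd (-(p / 2 : ℝ)) (vecV p b s d i) :=
  Bd.vF (bd_vecC p b s d) i

theorem bd_vecU (b s : ℕ) (d : Fin 3 → LT) (i : Fin 3) : Bd (-1 / 2) (vecV 1 b s d i) :=
  (bd_vecV 1 b s d i).of_eq (by norm_num)

theorem bd_vecW (b s : ℕ) (d : Fin 3 → LT) (i : Fin 3) : Bd (-3 / 2) (vecV 3 b s d i) :=
  (bd_vecV 3 b s d i).of_eq (by norm_num)

end

end Pool.Agent.Work.MP_6bf1e5_an.H.Lt
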