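import Pool.Agent.Work.MP_6bf1e5_an.H.FldX
import Pool.Agent.Work.MP_6bf1e5_an.H.CertSix
import Pool.Agent.Work.MP_6bf1e5_an.H.LmiFin
import Pool.Agent.Work.MP_6bf1e5_an.H.LtV

/-! The meaning of the expressions for the block matrix fields (owner helper56). -/

open MeasureTheory

namespace Pool.Agent.Work.MP_6bf1e5_an.H.Fs

open Pool.Agent.Lib.KTab Lt Ca

noncomputable section

variable (A : Env)

/-- The radial rows. -/
def Env.row (w : ℕ) (t : ℝ) : ℝ :=
  if w = 0 then 1 else (chP A.b A.s (if w = 1 then A.o1 else A.o2)).eval t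

/-- The tables. -/
def Env.tb (i : ℕ) : Tb := A.tl.getD i ⟨false, 0, 0, []⟩

def Env.tab (i : ℕ) (t θ : ℝ) : ℝ := tb2 (A.tb i).e (A.tb i).b (A.tb i).s (A.tb i).l t θ

def Pr.fn (x : Pr) (t θ : ℝ) : ℝ :=
  sv x.g x.c / 2 ^ x.s * (1 - t ^ 4) ^ x.kx * (x.l.map fun i => A.tab i t θ).prod

def Grp.fn (G : Grp) (t θ : ℝ) : ℝ :=
  A.row G.w t * t ^ G.tp * (1 - t ^ 4) ^ G.kq * (G.l.map fun x => x.fn A t θ).sum

/-- The value of an entry as a function of `t` and `θ`. -/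
def phi (E : List Grp) (t θ : ℝ) : ℝ := (E.map fun G => G.fn A t θ).sum

/-- The value of an entry. -/
def evG (E : List Grp) : Sc := fun y => phi A E (tau 1 y) (pa y)

def Tm.ev (x : Tm) : Sc := fun y => sv x.g x.c / 2 ^ x.s * tau 1 y ^ x.p * kA 1 y ^ x.q *
  ((x.r.map fun w => A.row w (tau 1 y) / tau 1 y ^ (4 * w)).prod *
    (x.l.map fun i => A.tab i (tau 1 y) (pa y)).prod)

def ev (E : Ex) : Sc := fun y => (E.map fun x => x.ev A y).sum

def ev1 (U : X1) : Vc := fun i => ev A (U i)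

def ev3 (V : X3) : Mc := fun i j => ev A (V i j)

def ev6 (G : X6) : M6 := fun a c => ev3 A (G a c)

def Env.ov : Sc := rowI 4 A.b A.s A.o1

def Env.ou : Sc := rowI 8 A.b A.s A.o2

end

variable {A : Env} {n : ℕ} {E F : Ex} {x z : Tm} {y : R3}

theorem ev_nil : ev A [] y = 0 := rfl

theorem ev_cons : ev A (x :: E) y = x.ev A y + ev A E y := rfl

theorem ev_app : ev A (E ++ F) y = ev A E y + ev A F y := by simp [ev]

theorem ev_mul : (x.mul z).ev A y = x.ev A y * z.ev A y := by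
  have : (sv (xor x.g z.g) (x.c * z.c) : ℝ) = sv x.g x.c * sv z.g z.c := by
    cases x.g <;> cases z.g <;> simp [sv]
  simp only [Tm.ev, Tm.mul, this, List.map_append, List.prod_append, pow_add]
  ring

theorem ev_sc : ev A (sc x E) y = x.ev A y * ev A E y := by
  simp only [ev, sc, List.map_map, Function.comp_def, ev_mul, List.sum_map_mul_left]

theorem ev_mu : ev A (mu E F) y = ev A E y * ev A F y := by
  induction E with
  | nil => simp [mu, ev]
  | cons x E ih => rw [ev_cons, add_mul, ← ih, ← ev_sc, ← ev_app]; rfl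

theorem ev_ct (g : Bool) (c k : ℕ) : (ct g c k).ev A y = sv g c / 2 ^ k := by
  simp [ct, Tm.ev]

theorem ev_ng : ev A (ng E) y = -ev A E y := by simp [ng, ev_sc, ev_ct, sv]

theorem ev_xM {p b s : ℕ} {k : Fin 3 → Fin 3 → ℕ} {d : Fin 3 → Fin 3 → LT}
    (h : ∀ a c, A.tb (k a c) = ⟨ety a c, b, s, d a c⟩) : ev3 A (xM p k) = tabC p b s d := by
  funext a c y
  simp only [ev3, xM, tabC, kf, ev_cons, ev_nil, Tm.ev, tbF]
  split_ifs <;> simp [sv, Env.tab, h, mul_assoc]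

theorem ev_xV {p b s k : ℕ} {d : Fin 3 → LT}
    (h : ∀ a : Fin 3, A.tb (k + a) = ⟨decide (a ≠ 0), b, s, d a⟩) :
    ev1 A (xV p k) = vecC p b s d := by
  funext a y
  simp only [ev1, xV, vecC, kv, ev_cons, ev_nil, Tm.ev, tbF]
  split_ifs <;> simp [sv, Env.tab, h, mul_assoc]

theorem ev_xo (a : Bool) : (xo a).ev A = oo A.ov A.ou a := by
  funext y
  cases a <;> simp [xo, oo, rowI, Tm.ev, sv, Env.ov, Env.ou, Env.row]

theorem ev_cM (U : X1) (i j : Fin 3) : ev A (cM U i j) y = Ca.cM (ev1 A U) i j y := by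
  unfold cM Ca.cM
  split_ifs
  exacts [rfl, ev_ng, rfl]

theorem ev_dM (i j : Fin 3) : ev A (dM x i j) y = Ca.dM (x.ev A) i j y := by
  unfold dM Ca.dM
  split_ifs
  exacts [add_zero _, rfl]

theorem ev_G0 (V B : X3) : ev6 A (G0 V B) = Ca.G0 (ev3 A V) (ev3 A B) := by
  funext a c i j y
  cases a <;> cases c <;> simp [ev6, ev3, G0, Ca.G0, ev_sc, ev_ct, sv, ev_nil]

theorem ev_F0 (V B : X3) : ev6 A (F0 V B) = Ca.F0 (ev3 A V) (ev3 A B) := by
  funext a c i j y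
  cases a <;> cases c <;> simp [ev6, ev3, F0, Ca.F0, ev_sc, ev_ct, sv, ev_nil, div_eq_inv_mul]

theorem ev_G1 (U W : X1) : ev6 A (G1 U W) = Ca.G1 (ev1 A U) (ev1 A W) := by
  funext a c i j y
  cases a <;> cases c <;>
    simp [ev6, ev3, G1, Ca.G1, ev_ng, ev_cM, ev_dM, Ca.dM, ev_ct, sv, ev_nil]

theorem ev_trG (G : X6) : ev6 A (trG G) = Ca.trG (ev6 A G) := rfl

theorem ev_oI : ev6 A oI = Ca.oI A.ov A.ou := by
  funext a c i j y
  simp only [ev6, ev3, oI, Ca.oI]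
  split_ifs
  exacts [ev_xo (A := A) a ▸ ev_dM i j, rfl]

theorem ev_oG (G : X6) : ev6 A (oG G) = Ca.oG A.ov A.ou (ev6 A G) := by
  funext a c i j y
  simp only [ev6, ev3, oG, Ca.oG, ev_sc, ev_xo]

theorem ev_tG (G G' : X6) : ev6 A (tG G G') = Ca.tG A.ov A.ou (ev6 A G) (ev6 A G') := by
  funext a c i j y
  simp only [ev6, ev3, tG, t3, Ca.tG, ev_app, ev_sc, ev_mu, ev_xo, Fintype.sum_bool,
    Fin.sum_univ_three]

theorem ev_QM (V B : X3) (c k : ℕ) :
    ev6 A (QM V B c k) = Ca.QM (ev3 A V) (ev3 A B) A.ov A.ou (c / 2 ^ k) 1 := by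
  rw [Ca.QM, ← ev_G0, ← ev_F0, ← ev_tG]
  funext a c i j y
  simp [ev6, ev3, QM, cG, ev_app, ev_sc, ev_ct, ev_ng, sv, sub_eq_add_neg]

theorem prod_srt (f : ℕ → ℝ) (l : List ℕ) : ((srt l).map f).prod = (l.map f).prod := by
  unfold srt
  split
  · split_ifs <;> simp [mul_comm]
  · rfl

theorem ev_flt (h : ∀ x ∈ E, x.r.sum ≤ 2) :
    ev A E y = ([0, 1, 2].map fun w => ev A (flt E w) y).sum := by
  induction E with
  | nil => simp [flt, ev]
  | cons x E ih =>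
    have h1 := h x (by simp)
    rw [ev_cons, ih fun z hz => h z (by simp [hz])]
    simp only [flt, List.filter_cons]
    interval_cases x.r.sum <;> simp [ev_cons] <;> ring

theorem ev_grp (h : nf n E = true) (y : R3) : evG A (grp n E) y = ev A E y := by
  simp only [nf, List.all_eq_true, Bool.and_eq_true, Nat.ble_eq, beq_iff_eq] at h
  have e : ∀ l : List Grp, evG A (l.filter fun G => !G.l.isEmpty) y = evG A l y := fun l => by
    induction l with
    | nil => rfl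
    | cons G l ih =>
      simp only [evG, phi, List.filter_cons] at ih ⊢
      split_ifs with k
      · simp only [List.map_cons, List.sum_cons, ih]
      · simp only [Bool.not_eq_true', List.isEmpty_eq_false_iff, ne_eq, not_not] at k
        rw [ih, List.map_cons, List.sum_cons, Grp.fn, k]
        simp
  rw [grp, e, ev_flt fun x hx => (h x hx).1.1.1.1.2, evG, phi, List.map_map]
  congr 1
  refine List.map_congr_left fun w _ => ?_
  simp only [Function.comp, Grp.fn, List.map_map, ev, ← List.sum_map_mul_left]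
  congr 1
  refine List.map_congr_left fun x hx => ?_
  obtain ⟨h0, rfl : x.r.sum = w⟩ := by simpa [flt] using hx
  obtain ⟨⟨⟨⟨⟨h1, -⟩, h3⟩, h4⟩, h5⟩, h6⟩ := h x h0
  have h7 : (x.r.map fun w => A.row w (tau 1 y) / tau 1 y ^ (4 * w)).prod =
      A.row x.r.sum (tau 1 y) / tau 1 y ^ (4 * x.r.sum) := by
    rcases hr : x.r with _ | ⟨w, _ | _⟩
    · simp [Env.row]
    · simp
    · simp [hr] at h1
  obtain ⟨m, hm⟩ := Nat.exists_eq_add_of_le h5
  have h8 := (tau_pos zero_lt_one y).ne'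
  rw [Tm.ev, h7, ← h6, show x.q = 2 * (n + (x.q / 2 - n)) by omega, pow_mul, Lt.kA_sq]
  simp only [Pr.fn, prod_srt, hm, Nat.add_sub_cancel_left, pow_add]
  rw [show 2 * (n + (x.q / 2 - n)) / 2 - n = x.q / 2 - n by omega]
  field_simp

/-- The fields of a moment set. -/
theorem fld {G : M6} {X : X6} (h : Fr6 G (ev6 A X)) {e e' : Bool → ℕ} {c : ℕ}
    (hn : ∀ k < 3, ∀ β < 6, nf (kq k β) (ent X e e' c k β) = true) (σ : ℝ) :
    Gl.Fld G σ e e' c fun k β y => σ * evG A (grp (kq k β) (ent X e e' c k β)) y :=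
  h.fld fun k c' _ k' y _ => by
    have e1 : Fin.ofNat 3 k = k := Fin.ofNat_val_eq_self k
    have e2 : Fin.ofNat 3 (3 * c' + k') = k' := Fin.ext (by simp [Fin.ofNat])
    have e3 : (3 * c' + k') / 3 = c' := by omega
    have e4 : ∀ e c k, (pre e c k).ev A y = Gl.pre e c k y := fun e c k => by
      simp only [pre, Gl.pre, Tm.ev, show slot = Gl.slot from rfl]
      split_ifs <;> simp [sv, mul_comm]
    rw [ev_grp (hn k k.2 _ (by omega)), ent, e1, e2, e3, ev_sc, ev_mul, e4, e4]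
    rfl

open Lt.Dat

noncomputable section

/-- The table of the velocity. -/
def Ut : Vc := vecV 1 bU sU ![u0, u1, u2]

/-- The table of the vorticity. -/
def Wt : Vc := vecV 3 bW sW ![w0, w1, w2]

/-- The seven fields. -/
def sets (i : ℕ) : M6 × (Bool → ℕ) × (Bool → ℕ) :=
  match i with
  | 0 => (Ca.trG (Ca.oG ov ou (Ca.G1 Ut Wt)), pw 6 5, pw 6 8)
  | 1 => (Ca.trG (Ca.oG ov ou (Ca.G0 Vt Bt)), pw 3 3, pw 6 8)
  | 2 => (Ca.oI ov ou, pw 6 8, pw 6 8)
  | 3 => (Ca.tG ov ou (Ca.G1 Ut Wt) (Ca.G1 Ut Wt), pw 6 5, pw 6 5)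
  | 4 => (Ca.trG (Ca.G1 Ut Wt), pw 6 5, pw 3 3)
  | 5 => (Ca.tG ov ou (Ca.G1 Ut Wt) (Ca.G0 Vt Bt), pw 6 5, pw 3 3)
  | _ => (Ca.QM Vt Bt ov ou (795 / 256) 1, pw 3 3, pw 3 3)

end

theorem ev_xv : ev3 env xv = tabC 4 bV sV vv :=
  ev_xM fun a c => by fin_cases a <;> fin_cases c <;> rfl

theorem ev_xb : ev3 env xb = tabC 6 bB sB bb :=
  ev_xM fun a c => by fin_cases a <;> fin_cases c <;> rfl

theorem fr0 : Fr6 (Ca.G0 Vt Bt) (ev6 env x0) := by
  rw [x0, ev_G0, ev_xv, ev_xb]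
  exact fr_G0 _ _

theorem fr1 : Fr6 (Ca.G1 Ut Wt) (ev6 env x1) := by
  rw [x1, ev_G1, ev_xV (d := ![u0, u1, u2]) fun a => by fin_cases a <;> rfl,
    ev_xV (d := ![w0, w1, w2]) fun a => by fin_cases a <;> rfl]
  exact fr_G1 _ _

theorem nf_all : ∀ i < 7, ∀ c < 2, ∀ k < 3, ∀ β < 6, nf (kq k β) (exs i c k β) = true := by
  decide +kernel

/-- The fields of the seven moment sets. -/
theorem fld_set {i c : ℕ} (hi : i < 7) (hc : c < 2) (σ : ℝ) :
    Gl.Fld (sets i).1 σ (sets i).2.1 (sets i).2.2 c fun k β y => σ * evG env (gs i c k β) y := by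
  have h := nf_all i hi c hc
  interval_cases i <;> refine fld ?_ h σ
  · rw [ev_trG, ev_oG]
    exact fr1.oG.trG
  · rw [ev_trG, ev_oG]
    exact fr0.oG.trG
  · rw [ev_oI]
    exact fr_oI _ _
  · rw [ev_tG]
    exact fr1.tG fr1
  · exact fr1.trG
  · rw [ev_tG]
    exact fr1.tG fr0
  · rw [ev_QM, ev_xv, ev_xb, show ((795 : ℕ) : ℝ) / 2 ^ 8 = 795 / 256 by norm_num]
    exact fr_QM _ _ _ _ _ _

end Pool.Agent.Work.MP_6bf1e5_an.H.Fs
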