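import Pool.Agent.Work.MP_6bf1e5_an.H.PassSm

/-! The pass VY (owner helper11). -/

open Finset Pool.Agent.Lib.KBlk Pool.Agent.Lib.KLA

namespace Pool.Agent.Work.MP_6bf1e5_an.H.Pz

open Ps

variable {D : Ps.Dat} {As : Lay} {β : ℕ → ℕ} {P : VyP} {μ c w η l1 l : ℝ} {n0 : ℕ}

theorem asz_spec (ha : asz D As β n0 = true) : (∀ b y, As.Has b y →
    (D.Ah.Has b y ∧ As.J b y ≤ D.Ah.J b y) ∧ D.At.Has b y ∧ As.J b y ≤ D.At.J b y) ∧
    As.N ≤ 16 * D.cR 0 ∧ ∀ s < As.N, n0 < β s := by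
  simp only [asz, bnd_iff, Nat.ble_eq, Nat.mul_eq, Nat.add_eq] at ha
  obtain ⟨⟨⟨a1, a2⟩, a3, a4⟩, ⟨a5, a6⟩, a7⟩ := ha
  refine ⟨fun b y ⟨b1, b2, b3⟩ => ?_, a5, fun s hs =>
    Nat.le_of_ble_eq_true (allR_spec a6 s (Nat.zero_le _) (by omega))⟩
  have := allR_spec a7 b b1 b2
  simp only [bnd_iff, Nat.ble_eq] at this
  refine ⟨⟨⟨by omega, by omega, b3⟩, ?_⟩, ⟨by omega, by omega, b3⟩, ?_⟩ <;> interval_cases y
  exacts [this.1.1, this.1.2, this.2.1, this.2.2]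

theorem rcp_ge {m a : ℕ} (ha : 1 ≤ a) : 2 ^ m ≤ rcp m a * a := by
  have := Nat.lt_div_mul_add (a := 2 ^ m + a - 1) ha
  rw [rcp, shl_eq, one_mul]
  change 2 ^ m ≤ (2 ^ m + a - 1) / a * a
  omega

theorem two_ok {V p K : ℕ} {R : Rows} {g : ℕ → ℕ → ℤ} (hV : 0 < V) (h : Mat V p K (16 * 1) R g) :
    Mat V p K 16 (two23 V K p R) fun k j => if k = 0 then g 2 j else if k = 1 then g 3 j else 0 :=
  (mat_two hV (h.2 2 (by omega)) (h.2 3 (by omega))).force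

theorem sum_two (a b c d : ℤ) : ∑ k ∈ range 16, ((if k = 0 then a else if k = 1 then b else 0 : ℤ) : ℝ)
    * (if k = 0 then c else if k = 1 then d else 0 : ℤ) = a * c + b * d := by
  simp [sum_range_succ]

theorem nb_all (ha : asz D As β n0 = true) (hw : 0 ≤ w) {d : ℕ × ℕ × ℕ}
    (hd : As.Has d.1 d.2.1 ∧ d.2.2 < As.J d.1 d.2.1) :
    |w / β (As.pos d.1 d.2.1 d.2.2)| ≤ w / (n0 + 1) := by
  rw [abs_of_nonneg (by positivity)]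
  exact div_le_div_of_nonneg_left hw (by positivity)
    (by exact_mod_cast (asz_spec ha).2.2 _ (Lay.mem_pos hd.1 hd.2).1)

theorem sr_all (h : D.Ok) (ha : asz D As β n0 = true) : As.N ≤ 16 * D.cR D.nm :=
  (asz_spec ha).2.1.trans (Nat.mul_le_mul_left _ (h.cR _ _ (Nat.zero_le _) le_rfl))

/-- The rounding error. -/
noncomputable def VyP.err (P : VyP) : ℝ :=
  P.S5.c / 2 ^ P.S5.s * (2 ^ P.n * (P.S4.c / 2 ^ P.S4.s * (2 ^ 0 * (1 + 1 + 1)) + 1)) + 1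
    + (P.S6.c / 2 ^ P.S6.s * (2 ^ (P.m + 1) * (1 + 1)) + 1)

/-- The conditions on the parameters of the pass VY. -/
structure VyOk (D : Ps.Dat) (P : VyP) (μ c w η l1 l : ℝ) : Prop where
  c0 : 0 < P.c
  e0 : FinOk D.V (P.c * (ko P.S5 + ko P.S6)) P.e
  s1 : PrOk D.V (16 * D.c1) D.kX D.kK P.e1 P.S1
  s2 : P.S2.Ok D.V D.kX
  s3 : PrOk D.V 16 D.kX D.kX P.e3 P.S3
  f4 : FinOk D.V (ko P.S1 + ko P.S2 + ko P.S3) P.e4
  s4 : P.S4.Ok D.V (2 ^ (0 + P.e4))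
  f5 : FinOk D.V (ko P.S4) P.e5
  s5 : P.S5.Ok D.V (2 ^ (P.n + P.e5))
  sT : P.ST.Ok D.V D.kT
  sR : P.SR.Ok D.V D.kR
  f6 : FinOk D.V (ko P.ST + ko P.SR) P.e6
  s6 : P.S6.Ok D.V (2 ^ (P.m + 1 + P.e6))
  l0 : 0 < l
  v1 : P.S1.val * 2 ^ (D.sX + D.sK) = l1
  v2 : P.S2.val * 2 ^ D.sX = l1 * -(2 * μ)
  v3 : P.S3.val * 2 ^ (D.sX + D.sX) = l1 * -(4 * μ)
  v4 : P.S5.val * P.S4.val * l1 = l * c ^ 2 * w
  vT : P.S6.val * P.ST.val * 2 ^ D.sT = l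
  vR : P.S6.val * P.SR.val * 2 ^ D.sR = -(l * c)
  er : 2 ^ P.e / P.c + P.err ≤ l * 2 ^ P.m * η

/-- The quantity that is bounded in the pass VY. -/
noncomputable def vyE (D : Ps.Dat) (As : Lay) (β : ℕ → ℕ) (μ c w : ℝ) (d : ℕ × ℕ × ℕ) (j : ℕ) : ℝ :=
  c ^ 2 * (w / β (As.pos d.1 d.2.1 d.2.2) *
    (∑ a ∈ range D.Ah.N, D.f (D.Ah.pos d.1 d.2.1 d.2.2) a * D.k (16 + a) j
      - 2 * μ * (D.x (16 + D.Ah.pos d.1 d.2.1 d.2.2) j
        + 2 * ∑ i ∈ range 2, D.z i (D.Ah.pos d.1 d.2.1 d.2.2) * D.x (2 + i) j)))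
    + D.th (D.At.pos d.1 d.2.1 (D.At.J d.1 d.2.1 - As.J d.1 d.2.1 + d.2.2)) j
    - c * D.r (As.pos d.1 d.2.1 d.2.2) j

section

variable (h : D.Ok) (ha : asz D As β n0 = true) (o : VyOk D P μ c w η l1 l)
  (hs : ∀ a < D.Ah.N, ∀ b < D.Ah.N, D.f a b = D.f b a)
  (hz : ∀ j < D.Am.N, (∀ i < 2, D.x (2 + i) j = sp D (D.z i) j) ∧
    ∀ a, D.Ah.N ≤ a → 16 + a < 16 * D.c1 → D.x (16 + a) j = 0)

include h ha o hs hz

theorem tVY_ok {b0 y b q : ℕ} (hb : As.Has b0 y) (f : D.Am.fit b q = true) :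
    TOk D.V (tot D.Am.J q b) (As.J b0 y) (tVY D As β P b0 y b q) (ko P.S5 + ko P.S6)
      (fun i m => l * (rcp P.m (β (As.pos b0 y i)) * β (As.pos b0 y i) : ℕ) *
        vyE D As β μ c w (b0, y, i) (D.Am.st b + m)) P.err := by
  obtain ⟨a1, a2, a3⟩ := asz_spec ha
  obtain ⟨b1, b2⟩ := Lay.fit_has f
  have hV : 0 < D.V := by have := o.e0.1; omega
  have n := h.n1
  obtain ⟨⟨c1, c2⟩, c3, c4⟩ := a1 _ _ hb
  obtain ⟨c5, c6⟩ := h.has _ _ c1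
  obtain ⟨p1, p2, p3, p4⟩ := o.s1
  obtain ⟨q1, q2, q3, q4⟩ := o.s3
  have m1 := pos_le c1
  have m2 := pos_le c3
  have m3 := pos_le hb
  have m4 := D.At.pos_add b0 y (D.At.J b0 y - As.J b0 y)
  have m5 := h.nt
  have m6 := h.cR 0 _ (Nat.zero_le _) (h.nm b 0 ⟨b1, b2, two_pos⟩).le
  have m7 : D.At.pos b0 y (D.At.J b0 y - As.J b0 y) + As.J b0 y ≤ 16 * D.cT := by omega
  have t : 16 * (D.c1 - 1) ≤ 16 * D.c1 := by omega
  have hX := h.X b0 c5.1 c5.2.1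
  refine ((tG_ok (tG_ok (((rows_le (tPro_ok (c0 := 1) (c := D.c1 - 1) p1 hX (h.K b b1 b2)
    (by change _ ≤ 16 * D.c1; omega) (by change _ ≤ 16 * D.c1; omega) c5 f p2
    (lt_of_le_of_lt (by gcongr) p3) (le_trans (by gcongr) p4)) (c2.trans c6)).seq
    (xrow_ok h o.s2 b1 b2 f (r := 16 + D.Ah.pos b0 y 0) (by omega))).seq
    (tP_ok q1 (two_ok hV (mat_ldB (c0 := 0) hX (by change _ ≤ 16 * D.c1; omega) c5)) (c2.trans c6)
      (two_ok hV (mat_ldT (c0 := 0) (h.X b b1 b2) (by change _ ≤ 16 * D.c1; omega) f)) q2 q3 q4))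
    o.f4 o.s4) o.f5 o.s5).seq (tG_ok ((tRow_ok (n := D.cT) o.sT (h.Th b b1 b2) m7 f).seq
      (tRow_ok o.sR (h.R b b1 b2) (by omega) f)) o.f6 o.s6)).congr (fun i hi m hm => ?_)
      le_rfl
  have hi' := hi.trans_le c2
  obtain ⟨e1, e2⟩ := Lay.mem_pos c1 hi'
  have e3 := h.lo_pos c1 hi'
  have e4 := (Lay.mem_pos hb hi).1
  have e5 := fun r hr => ((hz _ (h.lo_mem e1).1).1 r hr).trans (sp_lo h _ e1)
  have e6 : P.S1.val * ∑ r ∈ range (16 * (D.c1 - 1)),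
      (pent D.V D.Am D.X (16 * 1 + r) (D.Am.pos b0 y i) : ℝ) *
        pent D.V D.Am D.K (16 * 1 + r) (D.Am.st b + m) = l1 * ∑ a ∈ range D.Ah.N,
      D.f (D.Ah.pos b0 y i) a * D.k (16 + a) (D.Am.st b + m) := by
    rw [← e3, sum_cut (N := D.Ah.N) fun r r1 r2 => ?_, ← o.v1, mul_assoc, mul_sum _ _ (2 ^ _)]
    · refine congrArg _ (sum_congr rfl fun a ha => ?_)
      have := mem_range.1 ha
      rw [if_pos (by omega), hs _ e1 a this, Dat.f, Dat.x, Dat.k, pow_add]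
      field_simp
    · have := (hz _ (h.lo_mem e1).1).2 r r1 (by omega)
      rw [Dat.x, div_eq_zero_iff] at this
      rw [this.resolve_right (by positivity), zero_mul]
  have e7 : (β (As.pos b0 y i) : ℝ) * (w / β (As.pos b0 y i)) = w :=
    mul_div_cancel₀ _ (Nat.cast_pos.2 (Nat.zero_lt_of_lt (a3 _ e4))).ne'
  have e8 : ∀ {z : ℤ} {s : ℕ} {x : ℝ}, x = z / 2 ^ s → z = x * 2 ^ s := fun e => by
    rw [e]
    field_simp
  have eX : ∀ r k, _ = D.x r k * _ := fun _ _ => e8 rfl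
  have eT : ∀ r k, _ = D.th r k * _ := fun _ _ => e8 rfl
  have eR : _ = D.r (As.pos b0 y i) (D.Am.st b + m) * _ :=
    e8 (if_pos (by rw [pan_st f hm]; omega))
  have e9 : D.At.pos b0 y (D.At.J b0 y - As.J b0 y) + i =
    D.At.pos b0 y (D.At.J b0 y - As.J b0 y + i) := by rw [← m4, add_assoc, Lay.pos_add]
  simp only [e6, row_x o.v2, sum_two, Nat.add_eq, Nat.mul_eq, Lay.pos_add,
    add_assoc 16, vyE, mul_zero, zero_add, strict_eq, e9]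
  rw [sum_range_succ, sum_range_one, ← e5 0 two_pos, ← e5 1 one_lt_two, e3]
  simp only [eX, eT, eR, Nat.reduceAdd, Nat.cast_mul, Nat.cast_one]
  generalize (rcp P.m (β (As.pos b0 y i)) : ℝ) = g
  generalize D.x 2 (D.Am.pos b0 y i) = x2, D.x 3 (D.Am.pos b0 y i) = x3,
    D.x 2 (D.Am.st b + m) = y2, D.x 3 (D.Am.st b + m) = y3, D.th _ _ = t, D.r _ _ = r,
    D.x (16 + _) _ = x, ∑ a ∈ range D.Ah.N, D.f _ a * _ = A
  generalize w / (β (As.pos b0 y i) : ℝ) = u, (β (As.pos b0 y i) : ℝ) = B at e7 ⊢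
  linear_combination P.S5.val * g * P.S4.val * (x2 * y2 + x3 * y3) * o.v3 +
    g * (A - 2 * μ * (x + 2 * (x2 * y2 + x3 * y3))) * (o.v4 - l * c ^ 2 * e7) +
    g * B * (t * o.vT + r * o.vR)

theorem vy_all (k : Job (vy D As β P) As D.Am fun _ => D.Am.b0) {d : ℕ × ℕ × ℕ}
    (hd : As.Has d.1 d.2.1 ∧ d.2.2 < As.J d.1 d.2.1) {j : ℕ} (hj : j < D.Am.N) :
    |vyE D As β μ c w d j| ≤ η := by
  obtain ⟨d1, d2⟩ := Lay.mem_pos hd.1 hd.2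
  have t := pchk_all' (G := fun s j => l * (rcp P.m (β s) * β s : ℕ) * vyE D As β μ c w (As.mem s) j)
    k rfl o.c0 o.e0 (fun b0 y b q hb f _ _ => (tVY_ok h ha o hs hz hb f).congr
      (fun i hi _ _ => by rw [(Lay.mem_pos hb hi).2]) le_rfl) d1 hj
  rw [d2, mul_assoc, abs_mul, abs_mul, abs_of_pos o.l0, Nat.abs_cast] at t
  have t1 : (2 : ℝ) ^ P.m ≤ (rcp P.m (β (As.pos d.1 d.2.1 d.2.2)) *
    β (As.pos d.1 d.2.1 d.2.2) : ℕ) := by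
    exact_mod_cast rcp_ge (Nat.zero_lt_of_lt ((asz_spec ha).2.2 _ d1))
  refine le_of_mul_le_mul_left (le_trans ?_ (t.trans o.er)) (mul_pos o.l0 (by positivity))
  rw [mul_assoc]
  exact mul_le_mul_of_nonneg_left (mul_le_mul_of_nonneg_right t1 (abs_nonneg _)) o.l0.le

end

end Pool.Agent.Work.MP_6bf1e5_an.H.Pz
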