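import Pool.Agent.Work.MP_6bf1e5_an.H.Hand

/-! The final constants. -/

namespace Pool.Agent.Work.MP_6bf1e5_an.H

/-- The constants of the static estimates. -/
noncomputable def K0 : Cst where
  μ := 123 / 2 ^ 14
  μ' := 25 / 10 ^ 5
  b0 := 60
  b1 := 1000
  b2 := 20000
  Cth := 240000
  cl := 2 / 1000
  cz := 9 / 10
  ch := 11
  cb := 1001 / 1000
  e1 := 8 / 10 ^ 20
  e2 := 1 / 10 ^ 11
  c0 := 1
  C0 := 2

/-- The weight of the second level of the energy. -/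
noncomputable def κ0 : ℝ := 12 / 10 ^ 17

theorem num0 : Num κ0 (1 / 64) K0 (87 / 10 ^ 5) (34 / 10 ^ 4) (25 / 10 ^ 34) (32 / 10 ^ 27) := by
  refine ⟨⟨18 / 10 ^ 14, 34 / 10 ^ 4, 117 / 1000, 38 / 100, 69 * 10 ^ 5, 16 / 10 ^ 4, 137 / 1000,
    158 / 10 ^ 4, 4, 224 / 10⟩, ?_, ?_, ?_, ?_, ?_, ?_, ?_, ?_⟩ <;> norm_num [K0, κ0]

theorem blowup_of_K0 {L : Lyap} {Ψ S : Vc} {ψ s : Fin 2 → Vc}
    (hS : Static L (1 / 64) Ψ S ψ s K0) (hκ : L.κ = κ0) {ν : ℝ} (hν : 0 < ν) :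
    ∃ T, 0 < T ∧ BlowUp ν T :=
  blowup_of_static hS (by norm_num) (ϱ := 183 / 10 ^ 17) (x0 := 68 / 10 ^ 31) (em := 33 / 10 ^ 31)
    (η := 1 / 100) (hκ ▸ num0) (by norm_num) (by norm_num) (by norm_num) (by norm_num)
    (by norm_num [K0]) (by norm_num [K0]) (by norm_num) (by norm_num [K0]) (by norm_num)
    (by norm_num) (by norm_num) (by norm_num [K0]) (by norm_num [K0]) (by norm_num [K0])
    (by norm_num [K0]) hν

end Pool.Agent.Work.MP_6bf1e5_an.H
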