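import Pool.Agent.Work.MP_6bf1e5_an.H.NzData
import Pool.Agent.Work.MP_6bf1e5_an.H.DataU
import Pool.Agent.Work.MP_6bf1e5_an.H.DataN

/-! The data of the approximate profile (owner helper60). -/

namespace Pool.Agent.Work.MP_6bf1e5_an.H

/-- The data. -/
noncomputable def dat : Dat :=
  ⟨290, ⟨183, 97, psiD⟩, ⟨183, 92, sD⟩, ⟨239, 106, bD⟩, ⟨239, 109, aD⟩⟩

theorem length_psiD : psiD.length = 240 := by decide +kernel

theorem length_sD : sD.length = 240 := by decide +kernel

theorem length_bD : bD.length = 290 := by decide +kernel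

theorem length_aD : aD.length = 290 := by decide +kernel

theorem nz_chk : 56 * 2 ^ dat.S.s * 256 ^ dat.n ≤ nzS dat.S.b dat.n (ent dat.S.D dat.S.b) := by
  decide +kernel

end Pool.Agent.Work.MP_6bf1e5_an.H
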