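import Pool.Agent.Lib.Dy.HkDefs
import Pool.Agent.Work.MP_6bf1e5_an.H.DataN

/-! Checks of Hankel sums (owner helper60). -/

namespace Pool.Agent.Work.MP_6bf1e5_an.H

open Pool.Agent.Lib.Dy

theorem hk_bb0_0 : job true 1499 0 70 239 8 239 8 2 cOne 0 16
    19058320039194835522654845673381178502715439518724768738314068397321 0 bD bD = true := by
  decide +kernel

theorem hk_bb0_1 : job true 1460 0 70 239 8 239 8 2 cOne 16 35
    958057332079258452427559110911716888295627674612567424333446556942 0 bD bD = true := by
  decide +kernel

theorem hk_bb0_2 : job true 1301 0 70 239 8 239 8 2 cOne 35 58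
    2251012936024620020516754195590404231143919299672212831241351842 0 bD bD = true := by
  decide +kernel

theorem hk_bb0_3 : job true 1215 0 70 239 8 239 8 2 cOne 58 87
    127301900059673891614425695162946987719647121484041571791249 0 bD bD = true := by
  decide +kernel

end Pool.Agent.Work.MP_6bf1e5_an.H
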