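import Pool.Agent.Lib.Dy.HkDefs
import Pool.Agent.Work.MP_6bf1e5_an.H.DataN

/-! Checks of Hankel sums (owner helper60). -/

namespace Pool.Agent.Work.MP_6bf1e5_an.H

open Pool.Agent.Lib.Dy

theorem hk_bb0_4 : job true 1037 0 70 239 8 239 8 2 cOne 87 133
    1191834979678045608363739638005479964881227667576195662 0 bD bD = true := by
  decide +kernel

theorem hk_bb0_5 : job true 751 0 70 239 8 239 8 2 cOne 133 290
    2472187227490585956947721173184003265283762103 0 bD bD = true := by
  decide +kernel

end Pool.Agent.Work.MP_6bf1e5_an.H
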