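import Pool.Agent.Lib.Dy.HkDefs
import Pool.Agent.Work.MP_6bf1e5_an.H.DataN

/-! Checks of Hankel sums (owner helper60). -/

namespace Pool.Agent.Work.MP_6bf1e5_an.H

open Pool.Agent.Lib.Dy

theorem hk_bb2_0 : job true 1465 4 118 239 8 239 8 6 cOne 0 16
    123091071035044111530755347875224378327780412716249321702563952588525 0 bD bD = true := by
  decide +kernel

theorem hk_bb2_1 : job true 1426 4 118 239 8 239 8 6 cOne 16 35
    19707231525875260348302777177441926271144758235670041641048264392278 0 bD bD = true := by
  decide +kernel

theorem hk_bb2_2 : job true 1267 4 118 239 8 239 8 6 cOne 35 58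
    100421440572612523104328912986188475865484707505873219911551199373 0 bD bD = true := by
  decide +kernel

theorem hk_bb2_3 : job true 1181 4 118 239 8 239 8 6 cOne 58 87
    10999943868070049766794135260093750706318829054230619551297786 0 bD bD = true := by
  decide +kernel

end Pool.Agent.Work.MP_6bf1e5_an.H
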