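import Pool.Agent.Lib.Dy.HkDefs
import Pool.Agent.Work.MP_6bf1e5_an.H.DataN

/-! Checks of Hankel sums (owner helper60). -/

namespace Pool.Agent.Work.MP_6bf1e5_an.H

open Pool.Agent.Lib.Dy

theorem hk_bb2_4 : job true 1005 4 118 239 8 239 8 6 cOne 87 133
    134340547080131837522240334231949040175404101542638084000 0 bD bD = true := by
  decide +kernel

theorem hk_bb2_5 : job true 719 4 118 239 8 239 8 6 cOne 133 290
    367115565246254874627992928541927396567279633814 0 bD bD = true := by
  decide +kernel

end Pool.Agent.Work.MP_6bf1e5_an.H
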