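import Pool.Agent.Lib.Dy.HkDefs
import Pool.Agent.Work.MP_6bf1e5_an.H.DataN

/-! Checks of Hankel sums (owner helper60). -/

namespace Pool.Agent.Work.MP_6bf1e5_an.H

open Pool.Agent.Lib.Dy

theorem hk_cc0_4 : job true 1088 4 74 239 6 239 6 2 cOne 88 134
    820114426413308268972135616029931460017683924178152762 0 aD aD = true := by
  decide +kernel

theorem hk_cc0_5 : job true 789 4 74 239 6 239 6 2 cOne 134 290
    1019572718808809202219071323572173425111412419 0 aD aD = true := by
  decide +kernel

end Pool.Agent.Work.MP_6bf1e5_an.H
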