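import Pool.Agent.Lib.Dy.HkDefs
import Pool.Agent.Work.MP_6bf1e5_an.H.DataN

/-! Checks of Hankel sums (owner helper60). -/

namespace Pool.Agent.Work.MP_6bf1e5_an.H

open Pool.Agent.Lib.Dy

theorem hk_cc2_0 : job true 1508 8 122 239 6 239 6 6 cOne 0 17
    995726641428285184713238351791204546683162657357171983337309997491793 0 aD aD = true := by
  decide +kernel

theorem hk_cc2_1 : job true 1472 8 122 239 6 239 6 6 cOne 17 36
    46839301055505475106952463358475365572459259718919525183261179233084 0 aD aD = true := by
  decide +kernel

theorem hk_cc2_2 : job true 1377 8 122 239 6 239 6 6 cOne 36 59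
    77564669440355352618183776178760116644277388260812716813798810427 0 aD aD = true := by
  decide +kernel

theorem hk_cc2_3 : job true 1239 8 122 239 6 239 6 6 cOne 59 88
    26426464179566898688897846039627784081693677909361496546483070 0 aD aD = true := by
  decide +kernel

end Pool.Agent.Work.MP_6bf1e5_an.H
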