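import Pool.Agent.Lib.Dy.HkDefs
import Pool.Agent.Work.MP_6bf1e5_an.H.DataU
import Pool.Agent.Work.MP_6bf1e5_an.H.DataN

/-! Checks of Hankel sums (owner helper60). -/

namespace Pool.Agent.Work.MP_6bf1e5_an.H

open Pool.Agent.Lib.Dy

theorem hk_fb0_0 : job false 1367 7 60 183 3 239 8 4 cS2 0 13
    0 34760463749093413791631709959523855677110385941264087190854181946 psiD bD = true := by
  decide +kernel

theorem hk_fb0_1 : job false 1338 7 60 183 3 239 8 4 cS2 13 27
    0 4289092038877624180878098508717218635983102391448840944170937292 psiD bD = true := by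
  decide +kernel

theorem hk_fb0_2 : job false 1255 7 60 183 3 239 8 4 cS2 27 44
    0 49161163081867708557681001473303403343749499089097547758203129 psiD bD = true := by
  decide +kernel

theorem hk_fb0_3 : job false 1148 7 60 183 3 239 8 4 cS2 44 64
    0 166811480660700315957255269676375417238385300194857880933107 psiD bD = true := by
  decide +kernel

end Pool.Agent.Work.MP_6bf1e5_an.H
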