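import Pool.Agent.Lib.Dy.HkDefs
import Pool.Agent.Work.MP_6bf1e5_an.H.DataU
import Pool.Agent.Work.MP_6bf1e5_an.H.DataN

/-! Checks of Hankel sums (owner helper60). -/

namespace Pool.Agent.Work.MP_6bf1e5_an.H

open Pool.Agent.Lib.Dy

theorem hk_fb0_4 : job false 1053 7 60 183 3 239 8 4 cS2 64 90
    0 49014426899886380544610781724783412414936755832529097747 psiD bD = true := by
  decide +kernel

theorem hk_fb0_5 : job false 895 7 60 183 3 239 8 4 cS2 90 130
    0 1245956525714554847603833343349112745832416170164290 psiD bD = true := by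
  decide +kernel

theorem hk_fb0_6 : job false 664 7 60 183 3 239 8 4 cS2 130 240
    0 14933520348667277061480266700264931683799719 psiD bD = true := by
  decide +kernel

end Pool.Agent.Work.MP_6bf1e5_an.H
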