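import Pool.Agent.Lib.Dy.HkDefs
import Pool.Agent.Work.MP_6bf1e5_an.H.DataU
import Pool.Agent.Work.MP_6bf1e5_an.H.DataN

/-! Checks of Hankel sums (owner helper60). -/

namespace Pool.Agent.Work.MP_6bf1e5_an.H

open Pool.Agent.Lib.Dy

theorem hk_fb2_0 : job false 1334 11 108 183 3 239 8 8 cS2 0 13
    0 190666314774154013794945542455115474860598407527257442119963249966 psiD bD = true := by
  decide +kernel

theorem hk_fb2_1 : job false 1304 11 108 183 3 239 8 8 cS2 13 27
    0 86744503053911235980908699288982897754166743629007193480948923457 psiD bD = true := by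
  decide +kernel

theorem hk_fb2_2 : job false 1221 11 108 183 3 239 8 8 cS2 27 44
    0 1678716090844913971150581739343780740958818488269141425493530380 psiD bD = true := by
  decide +kernel

theorem hk_fb2_3 : job false 1114 11 108 183 3 239 8 8 cS2 44 64
    0 9553870162317907496158128523083997318904143107157505755348085 psiD bD = true := by
  decide +kernel

end Pool.Agent.Work.MP_6bf1e5_an.H
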