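import Pool.Agent.Lib.Dy.HkDefs
import Pool.Agent.Work.MP_6bf1e5_an.H.DataU
import Pool.Agent.Work.MP_6bf1e5_an.H.DataN

/-! Checks of Hankel sums (owner helper60). -/

namespace Pool.Agent.Work.MP_6bf1e5_an.H

open Pool.Agent.Lib.Dy

theorem hk_fb2_4 : job false 1019 11 108 183 3 239 8 8 cS2 64 90
    0 4010727516097654263245451767040687195951703429138245021134 psiD bD = true := by
  decide +kernel

theorem hk_fb2_5 : job false 862 11 108 183 3 239 8 8 cS2 90 130
    0 141785486934710200111645010029440318160500913655727355 psiD bD = true := by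
  decide +kernel

theorem hk_fb2_6 : job false 632 11 108 183 3 239 8 8 cS2 130 240
    0 2432443955775132067274066092333573162021664253 psiD bD = true := by
  decide +kernel

end Pool.Agent.Work.MP_6bf1e5_an.H
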