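import Pool.Agent.Lib.Dy.HkDefs
import Pool.Agent.Work.MP_6bf1e5_an.H.DataU

/-! Checks of Hankel sums (owner helper60). -/

namespace Pool.Agent.Work.MP_6bf1e5_an.H

open Pool.Agent.Lib.Dy

theorem hk_ff0_0 : job true 1243 14 51 183 3 183 3 6 cOne 0 21
    37902560464408815178335305028377101823302493490269221446812927 0 psiD psiD = true := by
  decide +kernel

theorem hk_ff0_1 : job true 1174 14 51 183 3 183 3 6 cOne 21 50
    279933963366628669071012328650770877844169920847046144329174 0 psiD psiD = true := by
  decide +kernel

theorem hk_ff0_2 : job true 989 14 51 183 3 183 3 6 cOne 50 91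
    9294439893768528752653278286752463797155977371390018327 0 psiD psiD = true := by
  decide +kernel

theorem hk_ff0_3 : job true 776 14 51 183 3 183 3 6 cOne 91 240
    716327239222301011395419870763827619326223224918 0 psiD psiD = true := by
  decide +kernel

end Pool.Agent.Work.MP_6bf1e5_an.H
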