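import Pool.Agent.Lib.Dy.HkDefs
import Pool.Agent.Work.MP_6bf1e5_an.H.DataU

/-! Checks of Hankel sums (owner helper60). -/

namespace Pool.Agent.Work.MP_6bf1e5_an.H

open Pool.Agent.Lib.Dy

theorem hk_ff2_0 : job true 1209 18 99 183 3 183 3 10 cOne 0 21
    262116845703254077612989572419864023037495773848420683477025074 0 psiD psiD = true := by
  decide +kernel

theorem hk_ff2_1 : job true 1140 18 99 183 3 183 3 10 cOne 21 50
    10440161172859825161871552117105336692012549514889160213249485 0 psiD psiD = true := by
  decide +kernel

theorem hk_ff2_2 : job true 955 18 99 183 3 183 3 10 cOne 50 91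
    699959684222116861162400343157492088568824375164799479237 0 psiD psiD = true := by
  decide +kernel

theorem hk_ff2_3 : job true 744 18 99 183 3 183 3 10 cOne 91 240
    82522805076931101378240329608862221973449682683967 0 psiD psiD = true := by
  decide +kernel

end Pool.Agent.Work.MP_6bf1e5_an.H
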