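import Pool.Agent.Lib.Dy.HkDefs
import Pool.Agent.Work.MP_6bf1e5_an.H.DataU
import Pool.Agent.Work.MP_6bf1e5_an.H.DataN

/-! Checks of Hankel sums (owner helper60). -/

namespace Pool.Agent.Work.MP_6bf1e5_an.H

open Pool.Agent.Lib.Dy

theorem hk_sc0_0 : job false 1394 7 58 183 5 239 6 4 cS2 0 12
    0 4934207379203173186323516560084338871467769051353378119972412678 sD aD = true := by
  decide +kernel

theorem hk_sc0_1 : job false 1367 7 58 183 5 239 6 4 cS2 12 24
    0 337693478420924204256041367260374159773936729863954390543901041 sD aD = true := by
  decide +kernel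

theorem hk_sc0_2 : job false 1305 7 58 183 5 239 6 4 cS2 24 38
    0 4902542082070232681142920416850492956539223565661506853288686 sD aD = true := by
  decide +kernel

theorem hk_sc0_3 : job false 1225 7 58 183 5 239 6 4 cS2 38 54
    0 17342003536065112493148609867992078450341452616801050973943 sD aD = true := by
  decide +kernel

end Pool.Agent.Work.MP_6bf1e5_an.H
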