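import Pool.Agent.Lib.Dy.HkDefs
import Pool.Agent.Work.MP_6bf1e5_an.H.DataU
import Pool.Agent.Work.MP_6bf1e5_an.H.DataN

/-! Checks of Hankel sums (owner helper60). -/

namespace Pool.Agent.Work.MP_6bf1e5_an.H

open Pool.Agent.Lib.Dy

theorem hk_sc0_4 : job false 1127 7 58 183 5 239 6 4 cS2 54 74
    0 23950365574848450486461718019695594024640126259241266357 sD aD = true := by
  decide +kernel

theorem hk_sc0_5 : job false 1020 7 58 183 5 239 6 4 cS2 74 99
    0 3348579189707616008438451346615513710524366930704648 sD aD = true := by
  decide +kernel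

theorem hk_sc0_6 : job false 874 7 58 183 5 239 6 4 cS2 99 138
    0 149122439040914648664449584320979698015718975256 sD aD = true := by
  decide +kernel

theorem hk_sc0_7 : job false 630 7 58 183 5 239 6 4 cS2 138 240
    0 1614328174523064813205941458366832594933 sD aD = true := by
  decide +kernel

end Pool.Agent.Work.MP_6bf1e5_an.H
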