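import Pool.Agent.Lib.Dy.HkDefs
import Pool.Agent.Work.MP_6bf1e5_an.H.DataU
import Pool.Agent.Work.MP_6bf1e5_an.H.DataN

/-! Checks of Hankel sums (owner helper60). -/

namespace Pool.Agent.Work.MP_6bf1e5_an.H

open Pool.Agent.Lib.Dy

theorem hk_sc2_0 : job false 1360 11 106 183 5 239 6 8 cS2 0 12
    0 23828176277078094118678162169251472718600549277515167012528510768 sD aD = true := by
  decide +kernel

theorem hk_sc2_1 : job false 1333 11 106 183 5 239 6 8 cS2 12 24
    0 7769262837950929743508243065676373843606106193841538438365849562 sD aD = true := by
  decide +kernel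

theorem hk_sc2_2 : job false 1271 11 106 183 5 239 6 8 cS2 24 38
    0 219781261810964528552310951903904343774425118230760136133455460 sD aD = true := by
  decide +kernel

theorem hk_sc2_3 : job false 1191 11 106 183 5 239 6 8 cS2 38 54
    0 1732410067530188497484035449793534688732110021105695318378844 sD aD = true := by
  decide +kernel

end Pool.Agent.Work.MP_6bf1e5_an.H
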