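import Pool.Agent.Lib.Dy.HkDefs
import Pool.Agent.Work.MP_6bf1e5_an.H.DataU
import Pool.Agent.Work.MP_6bf1e5_an.H.DataN

/-! Checks of Hankel sums (owner helper60). -/

namespace Pool.Agent.Work.MP_6bf1e5_an.H

open Pool.Agent.Lib.Dy

theorem hk_sc2_4 : job false 1093 11 106 183 5 239 6 8 cS2 54 74
    0 2705049867563609649484389733312590885690493040446984221689 sD aD = true := by
  decide +kernel

theorem hk_sc2_5 : job false 987 11 106 183 5 239 6 8 cS2 74 99
    0 591798000700148443555698726925464714275861850966957697 sD aD = true := by
  decide +kernel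

theorem hk_sc2_6 : job false 842 11 106 183 5 239 6 8 cS2 99 138
    0 31444215346319563915736148238698914397928289500306 sD aD = true := by
  decide +kernel

theorem hk_sc2_7 : job false 598 11 106 183 5 239 6 8 cS2 138 240
    0 482478305310815540869437977874522931586656 sD aD = true := by
  decide +kernel

end Pool.Agent.Work.MP_6bf1e5_an.H
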