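import Pool.Agent.Lib.Dy.HkDefs
import Pool.Agent.Work.MP_6bf1e5_an.H.DataU

/-! Checks of Hankel sums (owner helper60). -/

namespace Pool.Agent.Work.MP_6bf1e5_an.H

open Pool.Agent.Lib.Dy

theorem hk_ss0_0 : job true 1251 10 43 183 5 183 5 6 cOne 0 21
    80241889373647837931110022779149387923454118227683180225551 0 sD sD = true := by
  decide +kernel

theorem hk_ss0_1 : job true 1156 10 43 183 5 183 5 6 cOne 21 49
    276000497758394334063272444694061829023984827103628241040 0 sD sD = true := by
  decide +kernel

theorem hk_ss0_2 : job true 985 10 43 183 5 183 5 6 cOne 49 91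
    5112471557571434387004906324025054365321088361311589 0 sD sD = true := by
  decide +kernel

theorem hk_ss0_3 : job true 768 10 43 183 5 183 5 6 cOne 91 240
    48168973872206155723492435759043480594227330 0 sD sD = true := by
  decide +kernel

end Pool.Agent.Work.MP_6bf1e5_an.H
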