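import Pool.Agent.Lib.Dy.HkDefs
import Pool.Agent.Work.MP_6bf1e5_an.H.DataU

/-! Checks of Hankel sums (owner helper60). -/

namespace Pool.Agent.Work.MP_6bf1e5_an.H

open Pool.Agent.Lib.Dy

theorem hk_ss2_0 : job true 1217 14 91 183 5 183 5 10 cOne 0 21
    473222854466884771270668071468142326476091775066161869266314 0 sD sD = true := by
  decide +kernel

theorem hk_ss2_1 : job true 1122 14 91 183 5 183 5 10 cOne 21 49
    12295284258434326643893839020357402175336626241141266130764 0 sD sD = true := by
  decide +kernel

theorem hk_ss2_2 : job true 951 14 91 183 5 183 5 10 cOne 49 91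
    591324555855541429509191399690963031541524088278256011 0 sD sD = true := by
  decide +kernel

theorem hk_ss2_3 : job true 742 14 91 183 5 183 5 10 cOne 91 240
    9317597503253559722651000915029956019830500545 0 sD sD = true := by
  decide +kernel

end Pool.Agent.Work.MP_6bf1e5_an.H
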