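import Pool.Agent.Work.MP_6bf1e5_an.H.HkRel
import Pool.Agent.Work.MP_6bf1e5_an.H.Data
import Pool.Agent.Work.MP_6bf1e5_an.H.HkFF0a
import Pool.Agent.Work.MP_6bf1e5_an.H.HkFB0a
import Pool.Agent.Work.MP_6bf1e5_an.H.HkFB0b
import Pool.Agent.Work.MP_6bf1e5_an.H.HkBB0a
import Pool.Agent.Work.MP_6bf1e5_an.H.HkBB0b
import Pool.Agent.Work.MP_6bf1e5_an.H.HkSS0a
import Pool.Agent.Work.MP_6bf1e5_an.H.HkSC0a
import Pool.Agent.Work.MP_6bf1e5_an.H.HkSC0b
import Pool.Agent.Work.MP_6bf1e5_an.H.HkCC0a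
import Pool.Agent.Work.MP_6bf1e5_an.H.HkCC0b
import Pool.Agent.Work.MP_6bf1e5_an.H.HkFF2a
import Pool.Agent.Work.MP_6bf1e5_an.H.HkFB2a
import Pool.Agent.Work.MP_6bf1e5_an.H.HkFB2b
import Pool.Agent.Work.MP_6bf1e5_an.H.HkBB2a
import Pool.Agent.Work.MP_6bf1e5_an.H.HkBB2b
import Pool.Agent.Work.MP_6bf1e5_an.H.HkSS2a
import Pool.Agent.Work.MP_6bf1e5_an.H.HkSC2a
import Pool.Agent.Work.MP_6bf1e5_an.H.HkSC2b
import Pool.Agent.Work.MP_6bf1e5_an.H.HkCC2a
import Pool.Agent.Work.MP_6bf1e5_an.H.HkCC2b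

/-! The bounds for the Fourier side of the residual of the data (owner helper60). -/

open scoped Real

namespace Pool.Agent.Work.MP_6bf1e5_an.H

open Pool.Agent.Lib.Dy

theorem hankel_zero : dat.q (1 / 8) 0 ≤ (197 / 10 ^ 21) ^ 2 := by
  have e := dat.q_eq (1 / 8) 0
  rw [mul_zero, Nat.cast_zero] at e
  simp only [dat, Nat.reduceMul, Nat.reduceAdd] at e
  have ff0 := tsum_le hk_ff0_0 enc_one fun _ => ⟨rfl, rfl, rfl⟩
  have ff1 := tsum_le hk_ff0_1 enc_one fun _ => ⟨rfl, rfl, rfl⟩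
  have ff2 := tsum_le hk_ff0_2 enc_one fun _ => ⟨rfl, rfl, rfl⟩
  have ff3 := tsum_le hk_ff0_3 enc_one fun _ => ⟨rfl, rfl, rfl⟩
  have fb0 := tsum_le hk_fb0_0 enc_s2 (fun h => absurd h Bool.false_ne_true)
  have fb1 := tsum_le hk_fb0_1 enc_s2 (fun h => absurd h Bool.false_ne_true)
  have fb2 := tsum_le hk_fb0_2 enc_s2 (fun h => absurd h Bool.false_ne_true)
  have fb3 := tsum_le hk_fb0_3 enc_s2 (fun h => absurd h Bool.false_ne_true)
  have fb4 := tsum_le hk_fb0_4 enc_s2 (fun h => absurd h Bool.false_ne_true)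
  have fb5 := tsum_le hk_fb0_5 enc_s2 (fun h => absurd h Bool.false_ne_true)
  have fb6 := tsum_le hk_fb0_6 enc_s2 (fun h => absurd h Bool.false_ne_true)
  have bb0 := tsum_le hk_bb0_0 enc_one fun _ => ⟨rfl, rfl, rfl⟩
  have bb1 := tsum_le hk_bb0_1 enc_one fun _ => ⟨rfl, rfl, rfl⟩
  have bb2 := tsum_le hk_bb0_2 enc_one fun _ => ⟨rfl, rfl, rfl⟩
  have bb3 := tsum_le hk_bb0_3 enc_one fun _ => ⟨rfl, rfl, rfl⟩
  have bb4 := tsum_le hk_bb0_4 enc_one fun _ => ⟨rfl, rfl, rfl⟩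
  have bb5 := tsum_le hk_bb0_5 enc_one fun _ => ⟨rfl, rfl, rfl⟩
  have ss0 := tsum_le hk_ss0_0 enc_one fun _ => ⟨rfl, rfl, rfl⟩
  have ss1 := tsum_le hk_ss0_1 enc_one fun _ => ⟨rfl, rfl, rfl⟩
  have ss2 := tsum_le hk_ss0_2 enc_one fun _ => ⟨rfl, rfl, rfl⟩
  have ss3 := tsum_le hk_ss0_3 enc_one fun _ => ⟨rfl, rfl, rfl⟩
  have sc0 := tsum_le hk_sc0_0 enc_s2 (fun h => absurd h Bool.false_ne_true)
  have sc1 := tsum_le hk_sc0_1 enc_s2 (fun h => absurd h Bool.false_ne_true)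
  have sc2 := tsum_le hk_sc0_2 enc_s2 (fun h => absurd h Bool.false_ne_true)
  have sc3 := tsum_le hk_sc0_3 enc_s2 (fun h => absurd h Bool.false_ne_true)
  have sc4 := tsum_le hk_sc0_4 enc_s2 (fun h => absurd h Bool.false_ne_true)
  have sc5 := tsum_le hk_sc0_5 enc_s2 (fun h => absurd h Bool.false_ne_true)
  have sc6 := tsum_le hk_sc0_6 enc_s2 (fun h => absurd h Bool.false_ne_true)
  have sc7 := tsum_le hk_sc0_7 enc_s2 (fun h => absurd h Bool.false_ne_true)
  have cc0 := tsum_le hk_cc0_0 enc_one fun _ => ⟨rfl, rfl, rfl⟩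
  have cc1 := tsum_le hk_cc0_1 enc_one fun _ => ⟨rfl, rfl, rfl⟩
  have cc2 := tsum_le hk_cc0_2 enc_one fun _ => ⟨rfl, rfl, rfl⟩
  have cc3 := tsum_le hk_cc0_3 enc_one fun _ => ⟨rfl, rfl, rfl⟩
  have cc4 := tsum_le hk_cc0_4 enc_one fun _ => ⟨rfl, rfl, rfl⟩
  have cc5 := tsum_le hk_cc0_5 enc_one fun _ => ⟨rfl, rfl, rfl⟩
  rw [tsum_add (A := psiD) (B := psiD) (i := 0) (j := 290) 21 (by norm_num) (by norm_num),
    tsum_add (A := psiD) (B := psiD) (i := 21) (j := 290) 50 (by norm_num) (by norm_num),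
    tsum_add (A := psiD) (B := psiD) (i := 50) (j := 290) 91 (by norm_num) (by norm_num),
    tsum_add (A := psiD) (B := psiD) (i := 91) (j := 290) 240 (by norm_num) (by norm_num),
    tsum_zero (B := psiD) length_psiD,
    tsum_add (A := psiD) (B := bD) (i := 0) (j := 290) 13 (by norm_num) (by norm_num),
    tsum_add (A := psiD) (B := bD) (i := 13) (j := 290) 27 (by norm_num) (by norm_num),
    tsum_add (A := psiD) (B := bD) (i := 27) (j := 290) 44 (by norm_num) (by norm_num),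
    tsum_add (A := psiD) (B := bD) (i := 44) (j := 290) 64 (by norm_num) (by norm_num),
    tsum_add (A := psiD) (B := bD) (i := 64) (j := 290) 90 (by norm_num) (by norm_num),
    tsum_add (A := psiD) (B := bD) (i := 90) (j := 290) 130 (by norm_num) (by norm_num),
    tsum_add (A := psiD) (B := bD) (i := 130) (j := 290) 240 (by norm_num) (by norm_num),
    tsum_zero (B := bD) length_psiD,
    tsum_add (A := bD) (B := bD) (i := 0) (j := 290) 16 (by norm_num) (by norm_num),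
    tsum_add (A := bD) (B := bD) (i := 16) (j := 290) 35 (by norm_num) (by norm_num),
    tsum_add (A := bD) (B := bD) (i := 35) (j := 290) 58 (by norm_num) (by norm_num),
    tsum_add (A := bD) (B := bD) (i := 58) (j := 290) 87 (by norm_num) (by norm_num),
    tsum_add (A := bD) (B := bD) (i := 87) (j := 290) 133 (by norm_num) (by norm_num),
    tsum_add (A := sD) (B := sD) (i := 0) (j := 290) 21 (by norm_num) (by norm_num),
    tsum_add (A := sD) (B := sD) (i := 21) (j := 290) 49 (by norm_num) (by norm_num),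
    tsum_add (A := sD) (B := sD) (i := 49) (j := 290) 91 (by norm_num) (by norm_num),
    tsum_add (A := sD) (B := sD) (i := 91) (j := 290) 240 (by norm_num) (by norm_num),
    tsum_zero (B := sD) length_sD,
    tsum_add (A := sD) (B := aD) (i := 0) (j := 290) 12 (by norm_num) (by norm_num),
    tsum_add (A := sD) (B := aD) (i := 12) (j := 290) 24 (by norm_num) (by norm_num),
    tsum_add (A := sD) (B := aD) (i := 24) (j := 290) 38 (by norm_num) (by norm_num),
    tsum_add (A := sD) (B := aD) (i := 38) (j := 290) 54 (by norm_num) (by norm_num),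
    tsum_add (A := sD) (B := aD) (i := 54) (j := 290) 74 (by norm_num) (by norm_num),
    tsum_add (A := sD) (B := aD) (i := 74) (j := 290) 99 (by norm_num) (by norm_num),
    tsum_add (A := sD) (B := aD) (i := 99) (j := 290) 138 (by norm_num) (by norm_num),
    tsum_add (A := sD) (B := aD) (i := 138) (j := 290) 240 (by norm_num) (by norm_num),
    tsum_zero (B := aD) length_sD,
    tsum_add (A := aD) (B := aD) (i := 0) (j := 290) 17 (by norm_num) (by norm_num),
    tsum_add (A := aD) (B := aD) (i := 17) (j := 290) 36 (by norm_num) (by norm_num),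
    tsum_add (A := aD) (B := aD) (i := 36) (j := 290) 59 (by norm_num) (by norm_num),
    tsum_add (A := aD) (B := aD) (i := 59) (j := 290) 88 (by norm_num) (by norm_num),
    tsum_add (A := aD) (B := aD) (i := 88) (j := 290) 134 (by norm_num) (by norm_num)] at e
  simp only [Nat.cast_ofNat, Nat.cast_zero] at ff0 ff1 ff2 ff3 fb0 fb1 fb2 fb3 fb4 fb5 fb6 bb0 bb1 bb2 bb3 bb4 bb5 ss0 ss1 ss2 ss3 sc0 sc1 sc2 sc3 sc4 sc5 sc6 sc7 cc0 cc1 cc2 cc3 cc4 cc5
  rw [dat, e]
  refine (mul_le_mul_of_nonneg_left (c := 12338 / 10 ^ 42) (by linarith) Real.pi_pos.le).trans ?_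
  linarith [Real.pi_lt_d6]

theorem hankel_two : dat.q (1 / 8) 2 ≤ (1 / 10 ^ 13) ^ 2 := by
  have e := dat.q_eq (1 / 8) 1
  rw [mul_one, Nat.cast_ofNat] at e
  simp only [dat, Nat.reduceMul, Nat.reduceAdd] at e
  have ff0 := tsum_le hk_ff2_0 enc_one fun _ => ⟨rfl, rfl, rfl⟩
  have ff1 := tsum_le hk_ff2_1 enc_one fun _ => ⟨rfl, rfl, rfl⟩
  have ff2 := tsum_le hk_ff2_2 enc_one fun _ => ⟨rfl, rfl, rfl⟩
  have ff3 := tsum_le hk_ff2_3 enc_one fun _ => ⟨rfl, rfl, rfl⟩
  have fb0 := tsum_le hk_fb2_0 enc_s2 (fun h => absurd h Bool.false_ne_true)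
  have fb1 := tsum_le hk_fb2_1 enc_s2 (fun h => absurd h Bool.false_ne_true)
  have fb2 := tsum_le hk_fb2_2 enc_s2 (fun h => absurd h Bool.false_ne_true)
  have fb3 := tsum_le hk_fb2_3 enc_s2 (fun h => absurd h Bool.false_ne_true)
  have fb4 := tsum_le hk_fb2_4 enc_s2 (fun h => absurd h Bool.false_ne_true)
  have fb5 := tsum_le hk_fb2_5 enc_s2 (fun h => absurd h Bool.false_ne_true)
  have fb6 := tsum_le hk_fb2_6 enc_s2 (fun h => absurd h Bool.false_ne_true)
  have bb0 := tsum_le hk_bb2_0 enc_one fun _ => ⟨rfl, rfl, rfl⟩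
  have bb1 := tsum_le hk_bb2_1 enc_one fun _ => ⟨rfl, rfl, rfl⟩
  have bb2 := tsum_le hk_bb2_2 enc_one fun _ => ⟨rfl, rfl, rfl⟩
  have bb3 := tsum_le hk_bb2_3 enc_one fun _ => ⟨rfl, rfl, rfl⟩
  have bb4 := tsum_le hk_bb2_4 enc_one fun _ => ⟨rfl, rfl, rfl⟩
  have bb5 := tsum_le hk_bb2_5 enc_one fun _ => ⟨rfl, rfl, rfl⟩
  have ss0 := tsum_le hk_ss2_0 enc_one fun _ => ⟨rfl, rfl, rfl⟩
  have ss1 := tsum_le hk_ss2_1 enc_one fun _ => ⟨rfl, rfl, rfl⟩
  have ss2 := tsum_le hk_ss2_2 enc_one fun _ => ⟨rfl, rfl, rfl⟩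
  have ss3 := tsum_le hk_ss2_3 enc_one fun _ => ⟨rfl, rfl, rfl⟩
  have sc0 := tsum_le hk_sc2_0 enc_s2 (fun h => absurd h Bool.false_ne_true)
  have sc1 := tsum_le hk_sc2_1 enc_s2 (fun h => absurd h Bool.false_ne_true)
  have sc2 := tsum_le hk_sc2_2 enc_s2 (fun h => absurd h Bool.false_ne_true)
  have sc3 := tsum_le hk_sc2_3 enc_s2 (fun h => absurd h Bool.false_ne_true)
  have sc4 := tsum_le hk_sc2_4 enc_s2 (fun h => absurd h Bool.false_ne_true)
  have sc5 := tsum_le hk_sc2_5 enc_s2 (fun h => absurd h Bool.false_ne_true)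
  have sc6 := tsum_le hk_sc2_6 enc_s2 (fun h => absurd h Bool.false_ne_true)
  have sc7 := tsum_le hk_sc2_7 enc_s2 (fun h => absurd h Bool.false_ne_true)
  have cc0 := tsum_le hk_cc2_0 enc_one fun _ => ⟨rfl, rfl, rfl⟩
  have cc1 := tsum_le hk_cc2_1 enc_one fun _ => ⟨rfl, rfl, rfl⟩
  have cc2 := tsum_le hk_cc2_2 enc_one fun _ => ⟨rfl, rfl, rfl⟩
  have cc3 := tsum_le hk_cc2_3 enc_one fun _ => ⟨rfl, rfl, rfl⟩
  have cc4 := tsum_le hk_cc2_4 enc_one fun _ => ⟨rfl, rfl, rfl⟩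
  have cc5 := tsum_le hk_cc2_5 enc_one fun _ => ⟨rfl, rfl, rfl⟩
  rw [tsum_add (A := psiD) (B := psiD) (i := 0) (j := 290) 21 (by norm_num) (by norm_num),
    tsum_add (A := psiD) (B := psiD) (i := 21) (j := 290) 50 (by norm_num) (by norm_num),
    tsum_add (A := psiD) (B := psiD) (i := 50) (j := 290) 91 (by norm_num) (by norm_num),
    tsum_add (A := psiD) (B := psiD) (i := 91) (j := 290) 240 (by norm_num) (by norm_num),
    tsum_zero (B := psiD) length_psiD,
    tsum_add (A := psiD) (B := bD) (i := 0) (j := 290) 13 (by norm_num) (by norm_num),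
    tsum_add (A := psiD) (B := bD) (i := 13) (j := 290) 27 (by norm_num) (by norm_num),
    tsum_add (A := psiD) (B := bD) (i := 27) (j := 290) 44 (by norm_num) (by norm_num),
    tsum_add (A := psiD) (B := bD) (i := 44) (j := 290) 64 (by norm_num) (by norm_num),
    tsum_add (A := psiD) (B := bD) (i := 64) (j := 290) 90 (by norm_num) (by norm_num),
    tsum_add (A := psiD) (B := bD) (i := 90) (j := 290) 130 (by norm_num) (by norm_num),
    tsum_add (A := psiD) (B := bD) (i := 130) (j := 290) 240 (by norm_num) (by norm_num),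
    tsum_zero (B := bD) length_psiD,
    tsum_add (A := bD) (B := bD) (i := 0) (j := 290) 16 (by norm_num) (by norm_num),
    tsum_add (A := bD) (B := bD) (i := 16) (j := 290) 35 (by norm_num) (by norm_num),
    tsum_add (A := bD) (B := bD) (i := 35) (j := 290) 58 (by norm_num) (by norm_num),
    tsum_add (A := bD) (B := bD) (i := 58) (j := 290) 87 (by norm_num) (by norm_num),
    tsum_add (A := bD) (B := bD) (i := 87) (j := 290) 133 (by norm_num) (by norm_num),
    tsum_add (A := sD) (B := sD) (i := 0) (j := 290) 21 (by norm_num) (by norm_num),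
    tsum_add (A := sD) (B := sD) (i := 21) (j := 290) 49 (by norm_num) (by norm_num),
    tsum_add (A := sD) (B := sD) (i := 49) (j := 290) 91 (by norm_num) (by norm_num),
    tsum_add (A := sD) (B := sD) (i := 91) (j := 290) 240 (by norm_num) (by norm_num),
    tsum_zero (B := sD) length_sD,
    tsum_add (A := sD) (B := aD) (i := 0) (j := 290) 12 (by norm_num) (by norm_num),
    tsum_add (A := sD) (B := aD) (i := 12) (j := 290) 24 (by norm_num) (by norm_num),
    tsum_add (A := sD) (B := aD) (i := 24) (j := 290) 38 (by norm_num) (by norm_num),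
    tsum_add (A := sD) (B := aD) (i := 38) (j := 290) 54 (by norm_num) (by norm_num),
    tsum_add (A := sD) (B := aD) (i := 54) (j := 290) 74 (by norm_num) (by norm_num),
    tsum_add (A := sD) (B := aD) (i := 74) (j := 290) 99 (by norm_num) (by norm_num),
    tsum_add (A := sD) (B := aD) (i := 99) (j := 290) 138 (by norm_num) (by norm_num),
    tsum_add (A := sD) (B := aD) (i := 138) (j := 290) 240 (by norm_num) (by norm_num),
    tsum_zero (B := aD) length_sD,
    tsum_add (A := aD) (B := aD) (i := 0) (j := 290) 17 (by norm_num) (by norm_num),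
    tsum_add (A := aD) (B := aD) (i := 17) (j := 290) 36 (by norm_num) (by norm_num),
    tsum_add (A := aD) (B := aD) (i := 36) (j := 290) 59 (by norm_num) (by norm_num),
    tsum_add (A := aD) (B := aD) (i := 59) (j := 290) 88 (by norm_num) (by norm_num),
    tsum_add (A := aD) (B := aD) (i := 88) (j := 290) 134 (by norm_num) (by norm_num)] at e
  simp only [Nat.cast_ofNat, Nat.cast_zero] at ff0 ff1 ff2 ff3 fb0 fb1 fb2 fb3 fb4 fb5 fb6 bb0 bb1 bb2 bb3 bb4 bb5 ss0 ss1 ss2 ss3 sc0 sc1 sc2 sc3 sc4 sc5 sc6 sc7 cc0 cc1 cc2 cc3 cc4 cc5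
  rw [dat, e]
  refine (mul_le_mul_of_nonneg_left (c := 145 / 10 ^ 29) (by linarith) Real.pi_pos.le).trans ?_
  linarith [Real.pi_lt_d6]

end Pool.Agent.Work.MP_6bf1e5_an.H
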