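import Pool.Agent.Work.MP_6bf1e5_an.H.RkFin
import Pool.Agent.Work.MP_6bf1e5_an.H.Hankel
import Pool.Agent.Work.MP_6bf1e5_an.H.Cst0

/-! The estimates for the approximate profile at the final constants (owner helper1). -/

namespace Pool.Agent.Work.MP_6bf1e5_an.H

theorem pot0 : Pot (-1 / 2) (dat.Ψ 2) (dat.Sw 2) := dat.pot two_pos

theorem res0 : ∀ η > 0, ∃ A0, ∀ A ≥ A0,
    nw Om (Res (1 / 64) (cut A (dat.Ψ 2) (dat.Sw 2))) ≤ (K0.e1 + η) ^ 2 ∧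
      gw 1 (Res (1 / 64) (cut A (dat.Ψ 2) (dat.Sw 2))) ≤ (K0.e2 + η) ^ 2 := by
  have := dat.res (w := 2) (ν := 1 / 8) (η1 := 65 / 10 ^ 21) (η2 := 1 / 10 ^ 15) (e1 := K0.e1)
    (e2 := K0.e2) one_le_two Rk.dat_tP Rk.dat_tT hankel_zero hankel_two (by norm_num) (by norm_num)
    (by norm_num) (by norm_num) (by norm_num) (by norm_num) (by norm_num [K0]) (by norm_num [K0])
  rwa [show (1 / 8 / 2 ^ 3 : ℝ) = 1 / 64 by norm_num] at this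

theorem nz0 (pw1 : ∀ y, ∑ i, ∑ j, ∑ k, pd k (pd j (fld (dat.Ψ 2) (dat.Sw 2) i)) y ^ 2
    ≤ K0.b1 ^ 2 * Om y) :
    ∃ A0, ∀ A ≥ A0, 1 / 10 ^ 6 ≤ nw Om (curl (cut A (dat.Ψ 2) (dat.Sw 2))) :=
  dat.nz (by norm_num) (by norm_num [K0]) (by norm_num [K0]) pw1 nz_chk

end Pool.Agent.Work.MP_6bf1e5_an.H
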