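import Pool.Agent.Work.MP_6bf1e5_an.H.FamU
import Pool.Agent.Work.MP_6bf1e5_an.H.FldS
import Pool.Agent.Work.MP_6bf1e5_an.H.PassVy
import Pool.Agent.Work.MP_6bf1e5_an.H.Prof

/-! The objects that are given by the stored data, and the final assembly (owner helper56). -/

open scoped Real
open Finset MeasureTheory

namespace Pool.Agent.Work.MP_6bf1e5_an.H.Ca

open Pool.Agent.Lib.KLA Pool.Agent.Lib.KBlk Pool.Agent.Lib.KRad Gl Ps Jf Lt.Dat Fs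

/-- The stored data: matrices `D`, big members `As` with the factors `β s / 256`, coefficients of
the modes, the functionals and the tests, tables `e` of the tests with the scale `2 ^ a`. -/
structure Fd where
  D : Ps.Dat
  As : Lay
  β : ℕ → ℕ
  n0 : ℕ
  Md : ℕ → ℕ → Mb
  Th : ℕ → ℕ → Cm
  Te : ℕ → ℕ → Lib.KRad.Tb
  P : Lib.KRad.Pr
  a : ℕ
  e : ℕ → ℕ → ℕ → ℕ → ℤ
  ok : D.Ok
  asz : Pz.asz D As β n0 = true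

/-- The sizes of the blocks of modes. -/
noncomputable def lay (A : Lay) (n : ℕ) : Bool :=
  bnd (bnd (Nat.beq A.b0 1) (Nat.ble n (2 * A.nq))) (bnd (Nat.beq (A.J 0 0 + A.J 0 1) 0)
    (allR (fun b => bnd (Nat.beq (A.J b 0) (n + 1 - 2 * b)) (Nat.beq (A.J b 1) (n + 2 - 2 * b)))
      1 A.nq))

namespace Fd

variable (F : Fd)

def bn (b c m : ℕ) : ℕ := F.β (F.As.pos b c m)

/-- The objects. -/
@[reducible] noncomputable def O : Obj where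
  D := F.D
  As := F.As
  n := 64
  ξ := xi0 F.Md
  θ := th0 F.Th
  x := x0 F.P F.a 8 F.D.At.J (jz F.As) F.bn F.Th F.Te F.e
  β := be0 8 F.bn
  V := Vt
  B := Bt
  U := Ut
  W := Fs.Wt
  ov := ov
  ou := ou
  μ := 123 / 2 ^ 14
  μ' := 5 / 2 ^ 14
  ok := F.ok
  sh b y h := ((Pz.asz_spec F.asz).1 b y h).1
  st b y h := ((Pz.asz_spec F.asz).1 b y h).2
  sr := Pz.sr_all F.ok F.asz

variable {F} {g τ : ℝ}

theorem bs_eq (d : Ix) : (F.O.β d)⁻¹ = 256 / F.β (F.As.pos d.1 d.2.1 d.2.2) := by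
  simp only [be0, bn, inv_div]
  norm_num

theorem mds (hl : lay F.D.Am 64 = true) (det : ∀ b < F.D.Am.nq + 1, ∀ c < 2, (Matrix.of
    fun m m' : Fin (F.D.Am.J b c) => prj (2 * b) (xi0 F.Md (b, c, m)) m').det ≠ 0) :
    Mds 64 (F.D.Am.nq + 1) F.D.Am.J (xi0 F.Md) := by
  simp only [lay, bnd_iff, Nat.beq_eq, Nat.ble_eq] at hl
  obtain ⟨⟨-, h1⟩, h2, h3⟩ := hl
  have sz : ∀ b < F.D.Am.nq + 1, ∀ c < 2,
      F.D.Am.J b c = if b = 0 then 0 else 64 + c + 1 - 2 * b := fun b hb c hc => by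
    split_ifs with e
    · subst e
      interval_cases c <;> omega
    · have := allR_spec h3 b (by omega) (by omega)
      simp only [bnd_iff, Nat.beq_eq] at this
      interval_cases c <;> omega
  refine ⟨by omega, sz, fun d hd => ok_md' d (Nat.pos_of_ne_zero fun e => ?_), det⟩
  have := hd.2.2
  rw [sz _ hd.1 _ hd.2.1, if_pos e] at this
  omega

/-- The properties of the families. -/
theorem ok_of {P P' : Lib.KRad.Pr} {U U' U'' : Rows} {R R' : ℕ → ℕ → Rows} {a a' B d T : ℕ}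
    {Sm : ℕ → ℕ → Cm} {y : ℕ → ℕ → ℕ} (hl : lay F.D.Am 64 = true)
    (det : ∀ b < F.D.Am.nq + 1, ∀ c < 2, (Matrix.of
      fun m m' : Fin (F.D.Am.J b c) => prj (2 * b) (xi0 F.Md (b, c, m)) m').det ≠ 0)
    (jh : JobG (thC P U a 64 F.D.Ah.J F.Th R) F.D.Ah)
    (jt : JobG (tsC F.P U' F.a 64 8 B F.D.At.J (jz F.As) F.bn F.Th F.Te R') F.D.At)
    (js : JobG (smC P' U'' a' 64 d (jz F.As) F.Th Sm y) F.D.Ah) (hW : 0 < P'.W ∧ 0 < P'.Wx ∧ 0 < d)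
    (hU : Lib.KRad.Sub P'.V (16 * P'.c) (Nat.shiftLeft 4 P'.su) P'.nU P'.NU P'.eU P'.LU U''
      (2 ^ P'.su) (1 - .X ^ 4))
    (hT : Nat.ble (smS d F.D.Ah y) T = true) (hτ : 257 * T ≤ τ * 4 ^ a') (h0 : 1 ≤ F.As.b0)
    (sF : ∀ a < F.D.Ah.N, ∀ b < F.D.Ah.N, F.D.f a b = F.D.f b a)
    (gram : ∀ j < F.D.At.N, ∑ m ∈ range F.D.At.N, |pr6 (oI ov ou) (F.O.x (F.D.At.mem j))
      (F.O.x (F.D.At.mem m)) - if j = m then 1 else 0| ≤ g - 1) : F.O.Ok mv Lt.Dat.mu g τ := by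
  refine ⟨by norm_num, Nat.eq_of_beq_eq_true ((bnd_iff ..).1 ((bnd_iff ..).1 hl).1).1, mds hl det,
    fun d _ => sym_th d, fun _ => test_th' jh, sF, bd_Vt, Vt_symm, bd_Bt,
    fun i => (Lt.bd_vecU _ _ _ i).mono (by norm_num),
    fun i => (Lt.bd_vecW _ _ _ i).mono (by norm_num), wv, wu, fun d _ => pb_ts' d,
    fun _ => null_ts' jt, fun d hd => ⟨?_, big_ts' jt F.O.st h0 hd⟩,
    small_th' hW.1 hW.2.1 hU hW.2.2 js hT (by norm_num) ou_le (le_trans ?_ hτ), gram⟩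
  · have := (Pz.asz_spec F.asz).2.2 _ hd.ps.1
    have : 0 < F.bn d.1 d.2.1 d.2.2 := lt_of_le_of_lt (Nat.zero_le _) this
    simp only [be0]
    positivity
  · exact mul_le_mul_of_nonneg_right (by linarith [Real.pi_lt_d4]) (by positivity)

/-- The final assembly. -/
theorem blow {t : HatT} {vth db du dw Cc : ℝ} {ψ s : Fin 2 → Vc} (h : F.O.Ok mv Lt.Dat.mu g τ)
    (p : F.O.Rs t) (k : t.Ok (5 / 2 ^ 14) F.D.Am.N F.D.Ah.N F.D.At.N F.As.N)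
    (k' : (t.tol (5 / 2 ^ 14)).Ok (t.kp * (1 + t.s) / 4) (1 / 64) (123 / 2 ^ 14) (5 / 2 ^ 14) g τ)
    (tail : ∀ w, Adm w → (∀ i, Perp (9 / 4) (64 + 1) (w i)) →
      -(vth * (nw mv (curl w) + nw Lt.Dat.mu w)) ≤ F.O.T.FF w)
    (hsp : 0 < t.kp * (1 + t.s) / 4 ∧ t.kp * (1 + t.s) / 4 + vth ≤ 1)
    (cV : ∀ᵐ y, ∀ q : Fin 3 → ℝ, ∑ i, ∑ j, q i * Vt i j y * q j + 8 / 1000 * Om y * ∑ i, q i ^ 2 ≤
      ∑ i, ∑ j, q i * AA (fld (dat.Ψ 2) (dat.Sw 2)) i j y * q j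
        + 1 / 64 * (lamS 64 * Op (5 / 2) y - cnS 64 * Op (3 / 2) y) * ∑ i, q i ^ 2)
    (cB : ∀ᵐ y, ∑ i, ∑ j, (BB (curl (fld (dat.Ψ 2) (dat.Sw 2))) i j y - Bt i j y) ^ 2
      ≤ db ^ 2 * Om y ^ 3)
    (cU : ∀ᵐ y, ∑ i, (fld (dat.Ψ 2) (dat.Sw 2) i y - Ut i y) ^ 2 ≤ du ^ 2 * Op (1 / 2) y)
    (cW : ∀ᵐ y, ∑ i, (curl (fld (dat.Ψ 2) (dat.Sw 2)) i y - Fs.Wt i y) ^ 2 ≤ dw ^ 2 * Op (3 / 2) y)
    (hc : ∑ a, nw (Op (-1 / 2)) (curl (F.O.L.θF a)) + ∑ a, nw (Op (-1 / 2)) (curl (F.O.L.θZ a))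
      ≤ Cc ^ 2)
    (nn : 0 ≤ db ∧ 0 ≤ du ∧ 0 ≤ dw ∧ 0 ≤ Cc ∧ db ≤ 8 / 10 ^ 5 ∧ (du + 7 / 2 * dw) * Cc ≤ 2 / 10 ^ 4)
    (pw0 : ∀ y, ∑ i, ∑ j, pd j (fld (dat.Ψ 2) (dat.Sw 2) i) y ^ 2 ≤ K0.b0 ^ 2 * Op (3 / 2) y)
    (pw1 : ∀ y, ∑ i, ∑ j, ∑ k, pd k (pd j (fld (dat.Ψ 2) (dat.Sw 2) i)) y ^ 2 ≤ K0.b1 ^ 2 * Om y)
    (pw2 : ∀ y, ∑ i, ∑ j, ∑ k, pd k (pd j (curl (fld (dat.Ψ 2) (dat.Sw 2)) i)) y ^ 2
      ≤ K0.b2 ^ 2 * Om y ^ 2)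
    (pwθ : ∀ y, ∑ a, dot (curl (F.O.L.θF a)) (curl (F.O.L.θF a)) y
      + ∑ a, dot (curl (F.O.L.θZ a)) (curl (F.O.L.θZ a)) y ≤ K0.Cth ^ 2 * Om y ^ 3)
    (coer : F.O.L.Coer K0.cl K0.cz K0.ch K0.cb) (potφ : ∀ k, Pot (-3) (ψ k) (s k))
    (iniE : ∀ a, F.O.L.E (pl (fun k => fld (ψ k) (s k)) a) ≤ -K0.c0 * ∑ k, a k ^ 2)
    (iniX : ∀ a, F.O.L.X (pl (fun k => fld (ψ k) (s k)) a) ≤ K0.C0 * ∑ k, a k ^ 2)
    {ν : ℝ} (hν : 0 < ν) : ∃ T, 0 < T ∧ BlowUp ν T := by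
  obtain ⟨n1, n2, n3, n4, n5, n6⟩ := nn
  refine h.static (le_of_eq rfl) pot0 potφ (h.l1 (s := 1 / 5) gain lmi tail hsp (h.psd p k k') pot0
    cV cB cU cW hc coer.bes ⟨n1, n2, n3, n4, ?_, ?_, ?_⟩ ?_ ?_) pw0 pw1 pw2 pwθ coer res0 iniE iniX
    (nz0 pw1) hν <;> norm_num [K0]
  have : 0 ≤ (du + 7 / 2 * dw) * Cc := by positivity
  nlinarith

end Fd

end Pool.Agent.Work.MP_6bf1e5_an.H.Ca
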