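import Pool.Agent.Work.MP_6bf1e5_an.H.SkRing

/-! Two more families of null pairs. -/

open scoped ContDiff ENNReal FourierTransform Real
open Set MeasureTheory Polynomial

namespace Pool.Agent.Work.MP_6bf1e5_an.H

variable {l n : ℕ} {e m : ℝ} {g : ℝ → ℝ}

theorem nx_solve (he : 0 < e) (R : ℝ[X]) : ∃ S : ℝ[X], S.natDegree ≤ R.natDegree ∧ 2 * dP e S = R := by
  refine ⟨∑ k ∈ (taylor 1 R).support, C (-((taylor 1 R).coeff k / (e + k))) * (X - C 1) ^ k,
    natDegree_sum_le_of_forall_le _ _ fun k hk => (natDegree_C_mul_le _ _).trans ?_, ?_⟩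
  · rw [natDegree_pow, natDegree_X_sub_C, mul_one, ← natDegree_taylor R 1]
    exact le_natDegree_of_mem_supp k hk
  · conv_rhs => rw [← sum_taylor_eq R 1, Polynomial.sum]
    have h2 : (2 : ℝ[X]) * C (-1 / 2 : ℝ) = -1 := by
      rw [← map_ofNat C 2, ← C_mul, ← C_1, ← C_neg]
      norm_num
    rw [dP, ← mul_assoc, h2, derivative_sum, Finset.mul_sum, Finset.mul_sum,
      ← Finset.sum_sub_distrib, Finset.mul_sum]
    refine Finset.sum_congr rfl fun k _ => ?_
    have h : C ((taylor 1 R).coeff k) = C ((taylor 1 R).coeff k / (e + k)) * (C e + k) := by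
      rw [← map_natCast C, ← C_add, ← C_mul, div_mul_cancel₀ _ (by positivity)]
    rw [derivative_C_mul, derivative_X_sub_C_pow, C_neg, h]
    generalize C ((taylor 1 R).coeff k / (e + k)) = c
    cases k <;> simp [pow_succ] <;> ring

theorem nx_dP (e : ℝ) (P : ℝ[X]) : (dP e P).natDegree ≤ P.natDegree := by
  refine (natDegree_C_mul_le _ _).trans ((natDegree_sub_le _ _).trans
    (max_le (natDegree_C_mul_le _ _) ?_))
  rcases Nat.eq_zero_or_pos P.natDegree with h | h
  · rw [derivative_of_natDegree_zero h, mul_zero, natDegree_zero]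
    exact Nat.zero_le _
  · have h1 : (1 - X : ℝ[X]).natDegree ≤ 1 := by compute_degree
    have := natDegree_derivative_le P
    exact natDegree_mul_le.trans (by omega)

theorem Null.of_tO_low {G : ℝ[X]} (hl : 1 ≤ l) (h : l + G.natDegree ≤ n) :
    Null n (tO l (l + 5 / 4) G) 0 := by
  have hl' : (1 : ℝ) ≤ l := by exact_mod_cast hl
  obtain ⟨S, hS, eS⟩ := nx_solve (e := l + 5 / 4) (by positivity)
    (4 * (1 + X) * dP (l + 5 / 4 + 1) (dP (l + 5 / 4) G) + C (4 * l + 6 : ℝ) * dP (l + 5 / 4) G)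
  have hd : S.natDegree ≤ G.natDegree + 1 := by
    refine hS.trans ((natDegree_add_le _ _).trans (max_le (natDegree_mul_le.trans ?_)
      ((natDegree_C_mul_le _ _).trans ((nx_dP _ _).trans (Nat.le_succ _)))))
    have h1 : (4 * (1 + X) : ℝ[X]).natDegree ≤ 1 := by compute_degree
    have := (nx_dP (l + 5 / 4 + 1) _).trans (nx_dP (l + 5 / 4) G)
    omega
  have h1 := Null.of_tO (n := n) (l := l) (e := l + 5 / 4) (P := G) (by linarith)
  have h2 := Null.of_gradu (n := n) (md_sym_mono (sym_sO (l := l) (e := l + 5 / 4) (P := S))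
    (by linarith))
  obtain ⟨k, rfl⟩ := Nat.exists_eq_add_of_le' hl
  have h3 := (Null.of_u (test_mO (l := k) (n := n + 1) (P := S) (P' := 0) (9 / 4)
    (Or.inr (by omega)) (Or.inl rfl))).neg
  rw [show (k : ℝ) + 9 / 4 = (k + 1 : ℕ) + 5 / 4 by push_cast; ring] at h3
  rw [grad_sO, eS] at h2
  convert (h1.add h2).add h3 using 1
  · simp
  · funext i y
    simp [sp_mO_apply]
    ring

theorem Null.of_rad (hg : RadS g) (h : Sym m (rad g)) (hm : m + l + 1 ≤ -3) :
    Null n (mer l 0 g) (tor l g) := by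
  have h0 : RadS 0 := ⟨1, one_pos, contDiffOn_const⟩
  have h1 := Null.of_curl (n := n) (ϑ := mer l 0 g) fun i => md_sym_mono
    (sym_mer (m := m + 2) (md_sym_zero _) (by simpa using h) i) (by linarith)
  rw [curl_mer h0 hg] at h1
  convert h1 using 1
  funext i y
  simp [sp_tor_apply]

end Pool.Agent.Work.MP_6bf1e5_an.H
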