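import Pool.Agent.Work.MP_6bf1e5_an.H.Glue
import Pool.Agent.Work.MP_6bf1e5_an.H.NullX

/-! The radial null pairs. -/

open scoped ContDiff ENNReal FourierTransform Real
open Set MeasureTheory Polynomial

namespace Pool.Agent.Work.MP_6bf1e5_an.H

variable {n p : ℕ}

theorem n0_mer (α β : ℝ → ℝ) : mer 0 α β = sm (rad β) pos := by
  funext i y
  simp [sp_mer_apply, ResHl_pd_const, Hl, sm, rad, pos]

theorem n0_tp (e : ℝ) (R : ℝ[X]) : rad (tF 1 e R) = tp 1 e R := funext (rad_tF one_pos)

theorem null_rad0 (hp : 8 ≤ p) (R : ℝ[X]) : Null n (sm (tp 1 p R) pos) 0 := by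
  have h8 : (8 : ℝ) ≤ p := by exact_mod_cast hp
  have h := Null.of_rad (n := n) (l := 0) (radS_tF one_pos) (sym_tF (e := p) (P := R) one_pos)
    (by push_cast; linarith)
  rw [n0_mer, n0_tp] at h
  convert h using 1
  funext i y
  simp [sp_tor_apply, TT_eq, bl]

theorem null_rad1 (hp : 10 ≤ p) (R : ℝ[X]) : Null n 0 (sm (tp 1 p R) pos) := by
  have h8 : (10 : ℝ) ≤ p := by exact_mod_cast hp
  set S : ℝ[X] := ∑ j ∈ R.support, monomial j (-2 * R.coeff j / (p - 4 + j)) with hS
  have e : C (-(1 / 4) : ℝ) * (C (p - 4 : ℝ) * S + X * derivative S) = C (1 / 2) * R := by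
    conv_rhs => rw [R.as_sum_support]
    simp only [hS, derivative_sum, Finset.mul_sum, ← Finset.sum_add_distrib]
    refine Finset.sum_congr rfl fun j _ => ?_
    have : (p : ℝ) - 4 + j ≠ 0 := by have := j.cast_nonneg (α := ℝ); linarith
    have h : X * derivative (monomial j (-2 * R.coeff j / (p - 4 + j))) =
        monomial j (-2 * R.coeff j / (p - 4 + j) * j) := by
      cases j <;> simp [derivative_monomial, X_mul_monomial]
    rw [h, C_mul_monomial, ← map_add, C_mul_monomial, C_mul_monomial]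
    congr 1
    field_simp
    ring
  have h := Null.of_gradu (n := n) (md_sym_mono (md_sym_mul (sym_tF (e := p - 4) (P := S) one_pos)
    (hom_Hl 0).sym) (by push_cast; linarith))
  rw [show (fun y => rad (tF 1 (p - 4) S) y * Hl 0 y) = rad (tF 1 (p - 4) S) * Hl 0 from rfl,
    grad_rad_Hl (radS_tF one_pos), n0_mer] at h
  convert h using 2
  funext y
  rw [rad, deriv_tF one_pos (lt_of_lt_of_le (by norm_num) (sq_nonneg _)), e, sub_add_cancel,
    ← n0_tp, rad]
  simp only [tF, eval_mul, eval_C]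
  ring

theorem null_jet0 {e : Bool → ℕ} (h6 : 6 ≤ e false) (h8 : 8 ≤ e true) (c : ℕ) (R : ℝ[X]) :
    Null n (Gl.jet0 e c R false) (Gl.jet0 e c R true) := by
  by_cases hc : c = 0
  · simpa [Gl.jet0, hc] using null_rad0 (n := n) (p := e false + 2) (by omega) R
  · simpa [Gl.jet0, hc] using null_rad1 (n := n) (p := e true + 2) (by omega) R

/-- The angular tables whose column `b` belongs to the degree `2 * hf b`. -/
theorem an_H {m nb : ℕ} {N hf : ℕ → ℕ} (hm : ∀ b < nb, hf b < m) (hN : ∀ b < nb, 0 < N b) :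
    Gl.An (anH p N hf) m p N (fun b => 2 * hf b) nb := an_anH hm hN

end Pool.Agent.Work.MP_6bf1e5_an.H
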