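import Pool.Agent.Work.MP_6bf1e5_an.H.AngT
import Pool.Agent.Work.MP_6bf1e5_an.H.Null0

/-! The stored angular tables hold the coefficients of the Legendre functions. -/

open MeasureTheory

namespace Pool.Agent.Work.MP_6bf1e5_an.H.Ang

open Pool.Agent.Lib.KLA Pool.Agent.Lib.KBlk

/-- The true tables. -/
noncomputable def an : Bool → ℕ → ℕ → ℝ := anH 94 Nb dg

theorem t0 : Tb 192 39 (2 ^ 95) 48 (2 ^ 94) T0 (an false) := angChk_sound c0.down

theorem t1 : Tb 192 39 (2 ^ 95) 48 (2 ^ 94) T1 (an true) := angChk_sound c1.down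

theorem deg (b : ℕ) (e : Bool) (k : ℕ) (h : dg b < k) : an e k b = 0 := anH_zero Nb dg e h

theorem dd : ∀ b < 39, ∀ b' < 39, nang (dg b) (dg b') ≤ 80 := fun b hb b' hb' => by
  simp only [nang, dg]
  omega

theorem Nb_eq (b : ℕ) : Nb b = 2 * b + 1 := rfl

theorem an_ok : Gl.An an 48 94 Nb (fun b => 2 * b) 39 :=
  an_H (fun b hb => by simp only [dg]; omega) fun b _ => Nat.succ_pos _

/-- The sources of a tile from the moments. -/
theorem src {P : Par} {Q : Err} {F : ℕ → ℕ → Sc} {M : ℕ → ℕ → Rows} (ok : Ok P Q)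
    (hW : P.W = 192) (hm : P.mK = 47) (hK : P.Ka = 2 ^ 95) (hL : Q.La = 2 ^ 94) (hn : Q.nK = 80)
    (int : ∀ s < 3, ∀ β < 6, Integrable (F s β))
    (mom : ∀ s < 3, ∀ β < 6, Mz P.W (P.St - P.mA) P.Km Q.nK Q.dm (M s β)
      (mo volume (F s β) (phA 1) th2 0 false false (s != 0) (β % 3 != 0))) :
    Src P Q volume (phA 1) th2 F 39 T0 T1 dg M an :=
  ⟨ok, meas_phA one_pos, meas_th2, int, by rw [hW, hm, hK, hL]; exact t0,
    by rw [hW, hm, hK, hL]; exact t1, fun b _ => deg b, hn ▸ dd, mom⟩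

end Pool.Agent.Work.MP_6bf1e5_an.H.Ang
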