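import Mathlib

/-! Finite dimensional algebra: replacing matrices of integrals by data. -/

namespace Pool.Agent.Work.MP_6bf1e5_an.H.Ca

open Finset

variable {ι β I : Type} [Fintype ι] [Fintype β] [Fintype I]

/-- `Φ` is bounded below by a form in approximate arguments. -/
def Low (Φ : ℝ → ℝ → ℝ) (al be ga e1 e2 : ℝ) : Prop :=
  ∀ a b e f, al * a ^ 2 + 2 * be * (a * b) + ga * b ^ 2 - e1 * e ^ 2 - e2 * f ^ 2 ≤ Φ (a + e) (b + f)

theorem two_mul_ge {x Λ σ : ℝ} (hx : |x| ≤ Λ) (hσ : 0 < σ) (a e : ℝ) :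
    -(Λ * (σ * a ^ 2 + e ^ 2 / σ)) ≤ 2 * x * (a * e) := by
  have h1 : 2 * |a * e| ≤ σ * a ^ 2 + e ^ 2 / σ := by
    have : σ * a ^ 2 + e ^ 2 / σ - 2 * (|a| * |e|) = (σ * |a| - |e|) ^ 2 / σ := by
      rw [← sq_abs a, ← sq_abs e]
      field_simp
      ring
    have h2 : 0 ≤ (σ * |a| - |e|) ^ 2 / σ := by positivity
    rw [abs_mul]
    linarith
  have h3 : |x * (a * e)| ≤ Λ * |a * e| := by
    rw [abs_mul x]
    exact mul_le_mul_of_nonneg_right hx (abs_nonneg _)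
  have h4 := neg_abs_le (x * (a * e))
  have h5 := mul_le_mul_of_nonneg_left h1 ((abs_nonneg x).trans hx)
  linarith

/-- Explicit conditions for `Low`. -/
theorem low_quad {Φ : ℝ → ℝ → ℝ} {A B C A1 B1 C1 d σ σ' al be ga e1 e2 : ℝ}
    (hΦ : ∀ a b, Φ a b = A * a ^ 2 + 2 * B * (a * b) + C * b ^ 2) (hA : |A| ≤ A1) (hB : |B| ≤ B1)
    (hC : |C| ≤ C1) (hd : |B - be| ≤ d) (hσ : 0 < σ) (hσ' : 0 < σ')
    (h1 : al + (A1 + B1) * σ + d ≤ A) (h2 : ga + (B1 + C1) * σ' + d ≤ C)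
    (h3 : A1 * (1 + 1 / σ) + B1 * (1 + 1 / σ') ≤ e1)
    (h4 : B1 * (1 + 1 / σ) + C1 * (1 + 1 / σ') ≤ e2) : Low Φ al be ga e1 e2 := by
  intro a b e f
  have k1 := two_mul_ge hA hσ a e
  have k2 := two_mul_ge hB hσ a f
  have k3 := two_mul_ge hB hσ' b e
  have k4 := two_mul_ge hC hσ' b f
  have k5 := two_mul_ge hB one_pos e f
  have k6 := two_mul_ge hd one_pos a b
  have k7 := mul_le_mul_of_nonneg_right (neg_le_of_abs_le hA) (sq_nonneg e)
  have k8 := mul_le_mul_of_nonneg_right (neg_le_of_abs_le hC) (sq_nonneg f)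
  have m1 := mul_le_mul_of_nonneg_right h1 (sq_nonneg a)
  have m2 := mul_le_mul_of_nonneg_right h2 (sq_nonneg b)
  have m3 := mul_le_mul_of_nonneg_right h3 (sq_nonneg e)
  have m4 := mul_le_mul_of_nonneg_right h4 (sq_nonneg f)
  rw [hΦ]
  simp only [div_eq_mul_inv, inv_one] at *
  nlinarith

theorem frob (E : β → ι → ℝ) (c : ι → ℝ) :
    ∑ b, (∑ j, E b j * c j) ^ 2 ≤ (∑ b, ∑ j, E b j ^ 2) * ∑ j, c j ^ 2 := by
  rw [sum_mul]
  exact sum_le_sum fun b _ => sum_mul_sq_le_sq_mul_sq _ _ _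

theorem form_mul (x y c : ι → ℝ) :
    ∑ j, ∑ k, x j * y k * (c j * c k) = (∑ j, x j * c j) * ∑ k, y k * c k := by
  rw [sum_mul_sum]
  exact sum_congr rfl fun j _ => sum_congr rfl fun k _ => by ring

theorem form_gram (R : β → ι → ℝ) (c : ι → ℝ) :
    ∑ j, ∑ k, (∑ r, R r j * R r k) * (c j * c k) = ∑ r, (∑ j, R r j * c j) ^ 2 := by
  simp only [sq, ← form_mul]
  simp only [sum_mul]
  exact (sum_congr rfl fun j _ => sum_comm).trans sum_comm

theorem cs_wt {v : ι → ℝ} (hv : ∀ j, 0 < v j) (c x : ι → ℝ) :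
    (∑ m, c m * x m) ^ 2 ≤ ∑ m, (∑ j, v j * c j ^ 2) / v m * x m ^ 2 := by
  have k := sum_sq_le_sum_mul_sum_of_sq_le_mul univ (r := fun m => c m * x m)
    (f := fun m => v m * c m ^ 2) (g := fun m => x m ^ 2 / v m)
    (fun m _ => mul_nonneg (hv m).le (sq_nonneg _))
    (fun m _ => div_nonneg (sq_nonneg _) (hv m).le) fun m _ => le_of_eq (by
      have := (hv m).ne'
      field_simp)
  rw [mul_sum] at k
  exact k.trans (le_of_eq (sum_congr rfl fun m _ => by ring))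

theorem form_symm (S : ι → ι → ℝ) (c : ι → ℝ) :
    ∑ j, ∑ k, (S j k + S k j) / 2 * (c j * c k) = ∑ j, ∑ k, S j k * (c j * c k) := by
  have e : ∑ j, ∑ k, S k j * (c j * c k) = ∑ j, ∑ k, S j k * (c j * c k) := by
    rw [sum_comm]
    simp only [mul_comm]
  have e2 : ∑ j, ∑ k, (S j k + S k j) / 2 * (c j * c k) =
      (∑ j, ∑ k, S j k * (c j * c k) + ∑ j, ∑ k, S k j * (c j * c k)) / 2 := by
    simp only [← sum_add_distrib, sum_div]
    exact sum_congr rfl fun j _ => sum_congr rfl fun k _ => by ring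
  rw [e2, e]
  ring

/-- One coefficient of a projection, chosen from data. -/
theorem proj_ge {g σ : ℝ} (hσ : 0 < σ) (t θ : ℝ) :
    (2 - g - σ) * t ^ 2 - (θ - t) ^ 2 / σ ≤ 2 * (t * θ) - g * t ^ 2 := by
  have := two_mul_ge (x := 1) (Λ := 1) (by simp) hσ t (θ - t)
  linarith

/-- The matrix built from the symmetric part of `S` and the data. -/
noncomputable def mat (S : ι → ι → ℝ) (Gt Kt : I → ι → ℝ) (Θt : β → ι → ℝ) (al be ga : I → ℝ)
    (ρ : ℝ) (j k : ι) : ℝ :=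
  (S j k + S k j) / 2 + ∑ a, (al a * (Gt a j * Gt a k) + be a * (Gt a j * Kt a k + Kt a j * Gt a k)
    + ga a * (Kt a j * Kt a k)) + ρ * ∑ b, Θt b j * Θt b k

omit [Fintype ι] in
theorem mat_symm (S : ι → ι → ℝ) (Gt Kt : I → ι → ℝ) (Θt : β → ι → ℝ) (al be ga : I → ℝ)
    (ρ : ℝ) (j k : ι) : mat S Gt Kt Θt al be ga ρ j k = mat S Gt Kt Θt al be ga ρ k j := by
  unfold mat
  congr 1
  · congr 1
    · ring
    · exact sum_congr rfl fun a _ => by ring
  · simp only [mul_comm]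

theorem mat_form (S : ι → ι → ℝ) (Gt Kt : I → ι → ℝ) (Θt : β → ι → ℝ) (al be ga : I → ℝ)
    (ρ : ℝ) (c : ι → ℝ) : ∑ j, ∑ k, mat S Gt Kt Θt al be ga ρ j k * (c j * c k) =
      ∑ j, ∑ k, S j k * (c j * c k) + ∑ a, (al a * (∑ j, Gt a j * c j) ^ 2
        + 2 * be a * ((∑ j, Gt a j * c j) * ∑ j, Kt a j * c j) + ga a * (∑ j, Kt a j * c j) ^ 2)
        + ρ * ∑ b, (∑ j, Θt b j * c j) ^ 2 := by
  have sw : ∀ {γ : Type} [Fintype γ] (F : γ → ι → ι → ℝ),
      ∑ j, ∑ k, (∑ a, F a j k) * (c j * c k) = ∑ a, ∑ j, ∑ k, F a j k * (c j * c k) := by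
    intro γ _ F
    simp only [sum_mul]
    exact (sum_congr rfl fun j _ => sum_comm).trans sum_comm
  have e : ∀ a, ∑ j, ∑ k, (al a * (Gt a j * Gt a k) + be a * (Gt a j * Kt a k + Kt a j * Gt a k)
      + ga a * (Kt a j * Kt a k)) * (c j * c k) = al a * (∑ j, Gt a j * c j) ^ 2
        + 2 * be a * ((∑ j, Gt a j * c j) * ∑ j, Kt a j * c j) + ga a * (∑ j, Kt a j * c j) ^ 2 := by
    intro a
    simp only [add_mul, mul_assoc (al _), mul_assoc (be _), mul_assoc (ga _), sum_add_distrib,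
      ← mul_sum, form_mul]
    ring
  have e2 : ∀ b, ∑ j, ∑ k, Θt b j * Θt b k * (c j * c k) = (∑ j, Θt b j * c j) ^ 2 := fun b => by
    rw [form_mul, sq]
  simp only [← e, ← e2, ← sw, ← form_symm S, mul_sum (s := univ) _ ρ, ← sum_add_distrib]
  refine sum_congr rfl fun j _ => sum_congr rfl fun k _ => ?_
  unfold mat
  ring

/-- Row and column sums bound a form. -/
theorem form_le_rc {E : β → β → ℝ} {η : ℝ} (h : ∀ b, ∑ b', |E b b'| ≤ η)
    (h' : ∀ b, ∑ b', |E b' b| ≤ η) (t : β → ℝ) :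
    ∑ b, ∑ b', E b b' * (t b * t b') ≤ η * ∑ b, t b ^ 2 := by
  have k : ∀ b b', E b b' * (t b * t b') ≤ (|E b b'| * t b ^ 2 + |E b b'| * t b' ^ 2) / 2 := by
    intro b b'
    have := two_mul_ge (x := -E b b') (Λ := |E b b'|) (by rw [abs_neg]) one_pos (t b) (t b')
    linarith
  have e : ∑ b, ∑ b', |E b b'| * t b' ^ 2 = ∑ b, ∑ b', |E b' b| * t b ^ 2 := sum_comm
  have k2 : ∀ F : β → β → ℝ, (∀ b, ∑ b', F b b' ≤ η) →
      ∑ b, ∑ b', F b b' * t b ^ 2 ≤ η * ∑ b, t b ^ 2 := fun F hF => by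
    rw [mul_sum]
    refine sum_le_sum fun b _ => ?_
    rw [← sum_mul]
    exact mul_le_mul_of_nonneg_right (hF b) (sq_nonneg _)
  have k3 := sum_le_sum (s := univ) fun b _ => sum_le_sum (s := univ) fun b' _ => k b b'
  simp only [← sum_div, sum_add_distrib] at k3
  linarith [k2 _ h, k2 (fun b b' => |E b' b|) h']

/-- Row sums bound a symmetric form. -/
theorem form_le_rows {E : β → β → ℝ} (hs : ∀ b b', E b b' = E b' b) {η : ℝ}
    (h : ∀ b, ∑ b', |E b b'| ≤ η) (t : β → ℝ) :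
    ∑ b, ∑ b', E b b' * (t b * t b') ≤ η * ∑ b, t b ^ 2 :=
  form_le_rc h (fun b => by simpa only [hs _ b] using h b) t

/-- Entrywise bounds. -/
theorem form_le_ent {E : β → β → ℝ} {η : ℝ} (h : ∀ b b', |E b b'| ≤ η) (t : β → ℝ) :
    ∑ b, ∑ b', E b b' * (t b * t b') ≤ Fintype.card β * η * ∑ b, t b ^ 2 := by
  have k : ∀ F : β → ℝ, (∀ b, F b ≤ η) → ∑ b, F b ≤ Fintype.card β * η := fun F hF => by
    simpa only [sum_const, card_univ, nsmul_eq_mul] using sum_le_sum (s := univ) fun b _ => hF b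
  exact form_le_rc (fun b => k _ (h b)) (fun b => k _ fun b' => h b' b) t

/-- Block diagonal matrices: the bounds hold block by block. -/
theorem form_le_blk {γ : Type} [Fintype γ] {δ : γ → Type} [∀ b, Fintype (δ b)]
    {E : (b : γ) × δ b → (b : γ) × δ b → ℝ} {η : ℝ} (h0 : ∀ j k, j.1 ≠ k.1 → E j k = 0)
    (h : ∀ b (t : δ b → ℝ), ∑ m, ∑ m', E ⟨b, m⟩ ⟨b, m'⟩ * (t m * t m') ≤ η * ∑ m, t m ^ 2)
    (t : (b : γ) × δ b → ℝ) : ∑ j, ∑ k, E j k * (t j * t k) ≤ η * ∑ j, t j ^ 2 := by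
  simp only [Fintype.sum_sigma]
  rw [mul_sum]
  refine sum_le_sum fun b _ => le_trans (le_of_eq ?_) (h b fun m => t ⟨b, m⟩)
  refine sum_congr rfl fun m _ => sum_eq_single b (fun b' _ hb => ?_) (by simp)
  exact sum_eq_zero fun m' _ => by rw [h0 _ _ hb.symm, zero_mul]

/-- A symmetric matrix close to a shifted Gram matrix; `o` orders the indices. -/
theorem psd_of_fac [DecidableEq ι] {M : ι → ι → ℝ} (hs : ∀ j k, M j k = M k j) (R : β → ι → ℝ)
    (o : ι → ℕ) {sh e ε : ℝ} (h : ∀ j k, o j ≤ o k →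
      |M j k - (if j = k then sh else 0) - ∑ r, R r j * R r k| ≤ e)
    (he : ε + Fintype.card ι * e ≤ sh) (c : ι → ℝ) :
    ε * ∑ j, c j ^ 2 ≤ ∑ j, ∑ k, M j k * (c j * c k) := by
  have k := form_le_ent (E := fun j k => -(M j k - (if j = k then sh else 0) - ∑ r, R r j * R r k))
    (η := e) (fun j k => by
      rw [abs_neg]
      rcases le_total (o j) (o k) with hk | hk
      · exact h j k hk
      · simpa only [hs j k, eq_comm (a := j), mul_comm (R _ j)] using h k j hk) c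
  have e1 : ∑ j, ∑ k, (∑ r, R r j * R r k) * (c j * c k) = ∑ r, (∑ j, R r j * c j) ^ 2 := by
    simp only [sq, ← form_mul]
    simp only [sum_mul]
    exact (sum_congr rfl fun j _ => sum_comm).trans sum_comm
  have t0 : 0 ≤ ∑ r, (∑ j, R r j * c j) ^ 2 := sum_nonneg fun j _ => sq_nonneg _
  have hc : 0 ≤ ∑ j, c j ^ 2 := sum_nonneg fun j _ => sq_nonneg _
  simp only [neg_mul, sub_mul, sum_neg_distrib, sum_sub_distrib, e1, ite_mul, zero_mul, sum_ite_eq,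
    mem_univ, if_true, ← sq, ← mul_sum] at k
  nlinarith [mul_le_mul_of_nonneg_right he hc]

/-- A Gram matrix close to the identity. -/
theorem gram_le_rows [DecidableEq β] {Γ : β → β → ℝ} (hs : ∀ b b', Γ b b' = Γ b' b) {η : ℝ}
    (h : ∀ b, ∑ b', |Γ b b' - if b = b' then 1 else 0| ≤ η) (t : β → ℝ) :
    ∑ b, ∑ b', Γ b b' * (t b * t b') ≤ (1 + η) * ∑ b, t b ^ 2 := by
  have k := form_le_rows (E := fun b b' => Γ b b' - if b = b' then 1 else 0)
    (fun b b' => by simp only [hs b b', eq_comm]) h t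
  simp only [sub_mul, sum_sub_distrib, ite_mul, one_mul, zero_mul, sum_ite_eq, mem_univ, if_true,
    ← sq] at k
  linarith

/-- The error of a product with a data matrix. -/
theorem frob_mul (A : I → β → ℝ) (E : β → ι → ℝ) :
    ∑ a, ∑ j, (∑ b, A a b * E b j) ^ 2 ≤ (∑ a, ∑ b, A a b ^ 2) * ∑ b, ∑ j, E b j ^ 2 := by
  rw [sum_comm, sum_comm (f := fun b j => E b j ^ 2), mul_sum]
  exact sum_le_sum fun j _ => frob A fun b => E b j

theorem frob_le {E : β → ι → ℝ} {η : ℝ} (h : ∀ b j, |E b j| ≤ η) :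
    ∑ b, ∑ j, E b j ^ 2 ≤ Fintype.card β * (Fintype.card ι * η ^ 2) := by
  have k : ∑ b, ∑ j, E b j ^ 2 ≤ ∑ _b : β, ∑ _j : ι, η ^ 2 :=
    sum_le_sum fun b _ => sum_le_sum fun j _ => sq_le_sq' (neg_le_of_abs_le (h b j))
      (le_of_abs_le (h b j))
  simpa only [sum_const, card_univ, nsmul_eq_mul] using k

/-- From the conclusion of the kernel check on a scaled and shifted matrix. -/
theorem psd_fin {N : ℕ} {M : ℕ → ℕ → ℝ} {sc sh e ε : ℝ} (hsc : 0 < sc) (he : e + sc * ε ≤ sh)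
    (h : ∀ x : ℕ → ℝ, -e * ∑ i ∈ range N, x i ^ 2 ≤ ∑ i ∈ range N, ∑ j ∈ range N,
      (sc * M i j - if i = j then sh else 0) * (x i * x j)) (c : Fin N → ℝ) :
    ε * ∑ j, c j ^ 2 ≤ ∑ j : Fin N, ∑ k : Fin N, M j k * (c j * c k) := by
  have k := h fun i => if hi : i < N then c ⟨i, hi⟩ else 0
  simp only [← Fin.sum_univ_eq_sum_range (n := N), Fin.is_lt, dif_pos, Fin.eta] at k
  simp only [sub_mul, sum_sub_distrib, ite_mul, zero_mul, Fin.val_inj, sum_ite_eq, mem_univ,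
    if_true, ← sq, mul_assoc sc, ← mul_sum] at k
  have hc : 0 ≤ ∑ j, c j ^ 2 := sum_nonneg fun j _ => sq_nonneg _
  refine le_of_mul_le_mul_left ?_ hsc
  nlinarith [mul_le_mul_of_nonneg_right he hc]

end Pool.Agent.Work.MP_6bf1e5_an.H.Ca
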