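import Pool.Agent.Work.MP_6bf1e5_an.H.CertLin
import Pool.Agent.Work.MP_6bf1e5_an.H.CertMat

/-! Bounds for pairs of fields modulo the null pairs. -/

open scoped ContDiff ENNReal FourierTransform Real
open Set MeasureTheory

namespace Pool.Agent.Work.MP_6bf1e5_an.H.Ca

variable {ι κ β : Type} [Fintype ι] [Fintype κ] [Fintype β] {n : ℕ} {ov ou : Sc} {ϑ ϑ' : β → Vc}
  {g x x' : ℝ} {a a' b b' : Vc} {h h' : ι → Vc}

/-- The pairing of two pairs. -/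
noncomputable def pr (ov ou : Sc) (h h' ϑ ϑ' : Vc) : ℝ := ip (sm ov h) ϑ + ip (sm ou h') ϑ'

/-- The weights. -/
def Wt (ov ou : Sc) : Prop := (Bd 2 ov ∧ ∀ᵐ y, 0 ≤ ov y) ∧ Bd 4 ou ∧ ∀ᵐ y, 0 ≤ ou y

/-- The decay of a pair. -/
def Pb (a a' : Vc) : Prop := (∀ i, Bd (-3) (a i)) ∧ ∀ i, Bd (-4) (a' i)

/-- The pair `(a, a')` is within `x` of a null pair. -/
def TL (n : ℕ) (ov ou : Sc) (a a' : Vc) (x : ℝ) : Prop :=
  ∃ η η', Null n η η' ∧ nw ov (a - η) + nw ou (a' - η') ≤ x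

theorem wt_of {mv mu : Sc} (wv : Bd (-2) mv ∧ Bd 2 ov ∧ ∀ᵐ y, 0 < ov y ∧ 1 ≤ mv y * ov y)
    (wu : Bd (-4) mu ∧ Bd 4 ou ∧ ∀ᵐ y, 0 < ou y ∧ 1 ≤ mu y * ou y) : Wt ov ou :=
  ⟨⟨wv.2.1, wv.2.2.mono fun _ h => h.1.le⟩, wu.2.1, wu.2.2.mono fun _ h => h.1.le⟩

theorem Pb.lc (k : ∀ j, Pb (h j) (h' j)) (c : ι → ℝ) : Pb (lc c h) (lc c h') :=
  ⟨SkCert_lc (fun j => (k j).1) c, SkCert_lc (fun j => (k j).2) c⟩

theorem Pb.add (k : Pb a a') (k' : Pb b b') : Pb (a + b) (a' + b') :=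
  ⟨fun i => (k.1 i).add (k'.1 i), fun i => (k.2 i).add (k'.2 i)⟩

theorem Pb.sub (k : Pb a a') (k' : Pb b b') : Pb (a - b) (a' - b') :=
  ⟨fun i => (k.1 i).sub (k'.1 i), fun i => (k.2 i).sub (k'.2 i)⟩

omit [Fintype ι] [Fintype κ] in
theorem Pb.elim {e e' : κ → Vc} (k : ∀ j, Pb (h j) (h' j)) (k' : ∀ j, Pb (e j) (e' j)) (j : ι ⊕ κ) :
    Pb (Sum.elim h e j) (Sum.elim h' e' j) := by
  cases j with
  | inl j => exact k j
  | inr j => exact k' j

theorem pb_left (k : ∀ i, Bd (-3) (a i)) : Pb a 0 := ⟨k, fun _ => bd_zero _⟩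

theorem null_pb (k : Null n a a') : Pb a a' := ⟨k.bv, k.bu⟩

theorem null_zero (n : ℕ) : Null n 0 0 :=
  ⟨fun _ => bd_zero _, fun _ => bd_zero _, fun _ _ _ => by
    rw [Fn.ip_zero_right, Fn.ip_zero_right, add_zero]⟩

theorem pr_self (ov ou : Sc) (a a' : Vc) : pr ov ou a a' a a' = nw ov a + nw ou a' := by
  rw [pr, nw_eq_ip, nw_eq_ip]

theorem pr_comm (ov ou : Sc) (a a' b b' : Vc) : pr ov ou a a' b b' = pr ov ou b b' a a' := by
  simp only [pr, ip, dot_sm, dot_comm a, dot_comm a']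

theorem pr_lc (w : Wt ov ou) {e e' : κ → Vc} (k : ∀ j, Pb (h j) (h' j)) (k' : ∀ j, Pb (e j) (e' j))
    (c : ι → ℝ) (d : κ → ℝ) : pr ov ou (lc c h) (lc c h') (lc d e) (lc d e') =
      ∑ j, ∑ m, pr ov ou (h j) (h' j) (e m) (e' m) * (c j * d m) := by
  unfold pr
  rw [sm_lc, sm_lc, ip_lc_lc c d fun j m => int_sm w.1.1 (k j).1 (k' m).1 (by norm_num),
    ip_lc_lc c d fun j m => int_sm w.2.1 (k j).2 (k' m).2 (by norm_num)]
  simp only [add_mul, Finset.sum_add_distrib]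

theorem pr_lc_left (w : Wt ov ou) (k : ∀ j, Pb (h j) (h' j)) (k' : Pb b b') (c : ι → ℝ) :
    pr ov ou (lc c h) (lc c h') b b' = ∑ j, pr ov ou (h j) (h' j) b b' * c j := by
  unfold pr
  rw [sm_lc, sm_lc, ip_lc_left c fun j => int_sm w.1.1 (k j).1 k'.1 (by norm_num),
    ip_lc_left c fun j => int_sm w.2.1 (k j).2 k'.2 (by norm_num), ← Finset.sum_add_distrib]
  exact Finset.sum_congr rfl fun j _ => by ring

/-- The Gram bound from row sums. -/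
theorem gram_of_rows [DecidableEq ι] (w : Wt ov ou) (k : ∀ j, Pb (h j) (h' j)) {η : ℝ}
    (e : ∀ j, ∑ m, |pr ov ou (h j) (h' j) (h m) (h' m) - if j = m then 1 else 0| ≤ η)
    (t : ι → ℝ) : nw ov (lc t h) + nw ou (lc t h') ≤ (1 + η) * ∑ b, t b ^ 2 := by
  rw [← pr_self, pr_lc w k k]
  exact gram_le_rows (fun b b' => pr_comm _ _ _ _ _ _) e t

theorem TL.mono (k : TL n ov ou a a' x) (e : x ≤ x') : TL n ov ou a a' x' :=
  let ⟨η, η', k1, k2⟩ := k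
  ⟨η, η', k1, k2.trans e⟩

theorem TL.raw (e : nw ov a + nw ou a' ≤ x) : TL n ov ou a a' x :=
  ⟨0, 0, null_zero n, by rwa [sub_zero, sub_zero]⟩

theorem TL.of_null (k : Null n a a') : TL n ov ou a a' 0 :=
  ⟨a, a', k, by rw [sub_self, sub_self, Fn.nw_zero, Fn.nw_zero, add_zero]⟩

theorem TL.nonneg (w : Wt ov ou) (k : TL n ov ou a a' x) : 0 ≤ x :=
  let ⟨_, _, _, k2⟩ := k
  (add_nonneg (Fn.nw_nonneg w.1.2 _) (Fn.nw_nonneg w.2.2 _)).trans k2

theorem nw_add_le {k m s : ℝ} {o : Sc} (ho : Bd k o ∧ ∀ᵐ y, 0 ≤ o y) (hk : k + (m + m) < -3)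
    (ha : ∀ i, Bd m (a i)) (hb : ∀ i, Bd m (b i)) (hs : 0 < s) :
    nw o (a + b) ≤ (1 + s) * nw o a + (1 + 1 / s) * nw o b := by
  have i1 := (ho.1.int_nw ha ha hk).const_mul (1 + s)
  have i2 := (ho.1.int_nw hb hb hk).const_mul (1 + 1 / s)
  unfold nw
  rw [← integral_const_mul, ← integral_const_mul, ← integral_add i1 i2]
  refine integral_mono_of_nonneg (ho.2.mono fun y hy => mul_nonneg hy (SkCert_dot_nn _ y))
    (i1.add i2) ?_
  filter_upwards [ho.2] with y hy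
  have k := mul_le_mul_of_nonneg_left (Finset.sum_le_sum (s := Finset.univ) fun i _ =>
    SkCert_young hs (a i y) (b i y)) hy
  simp only [dot, Pi.add_apply, ← sq, Fin.sum_univ_three] at k ⊢
  linarith

theorem TL.add (w : Wt ov ou) (ka : Pb a a') (kb : Pb b b') (k : TL n ov ou a a' x)
    (k' : TL n ov ou b b' x') {s : ℝ} (hs : 0 < s) :
    TL n ov ou (a + b) (a' + b') ((1 + s) * x + (1 + 1 / s) * x') := by
  obtain ⟨η, η', k1, k2⟩ := k
  obtain ⟨ζ, ζ', k3, k4⟩ := k'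
  refine ⟨η + ζ, η' + ζ', k1.add k3, ?_⟩
  have p1 := ka.sub (null_pb k1)
  have p2 := kb.sub (null_pb k3)
  have e1 := nw_add_le (m := -3) w.1 (by norm_num) p1.1 p2.1 hs
  have e2 := nw_add_le (m := -4) w.2 (by norm_num) p1.2 p2.2 hs
  rw [add_sub_add_comm, add_sub_add_comm]
  have m1 := mul_le_mul_of_nonneg_left k2 (by positivity : 0 ≤ 1 + s)
  have m2 := mul_le_mul_of_nonneg_left k4 (by positivity : 0 ≤ 1 + 1 / s)
  linarith

/-- Replacing a pair by a nearby pair. -/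
theorem TL.near (w : Wt ov ou) (ka : Pb a a') (kb : Pb b b') (k : TL n ov ou a a' x)
    (e : nw ov (b - a) + nw ou (b' - a') ≤ x') {s : ℝ} (hs : 0 < s) :
    TL n ov ou b b' ((1 + s) * x + (1 + 1 / s) * x') := by
  have := k.add w ka (kb.sub ka) (TL.raw e) hs
  rwa [add_sub_cancel, add_sub_cancel] at this

/-- Projection with arbitrary coefficients. -/
theorem TL.proj (w : Wt ov ou) (ka : Pb a a') (hN : ∀ b, Null n (ϑ b) (ϑ' b))
    (hG : ∀ t : β → ℝ, nw ov (lc t ϑ) + nw ou (lc t ϑ') ≤ g * ∑ b, t b ^ 2) (t : β → ℝ) :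
    TL n ov ou a a' (nw ov a + nw ou a' - 2 * ∑ b, t b * pr ov ou a a' (ϑ b) (ϑ' b)
      + g * ∑ b, t b ^ 2) :=
  let k := proj_gram w.1.1 w.2.1 hN hG ka.1 ka.2 t
  ⟨_, _, k.1, k.2⟩

/-- One pair, from approximate pairings `t`. -/
theorem TL.one (w : Wt ov ou) (ka : Pb a a') (hN : ∀ b, Null n (ϑ b) (ϑ' b))
    (hG : ∀ t : β → ℝ, nw ov (lc t ϑ) + nw ou (lc t ϑ') ≤ g * ∑ b, t b ^ 2) {t : β → ℝ} {σ d : ℝ}
    (hσ : 0 < σ) (hd : ∑ b, (pr ov ou a a' (ϑ b) (ϑ' b) - t b) ^ 2 ≤ d) :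
    TL n ov ou a a' (nw ov a + nw ou a' - (2 - g - σ) * ∑ b, t b ^ 2 + d / σ) := by
  refine (TL.proj w ka hN hG t).mono ?_
  have k := Finset.sum_le_sum (s := Finset.univ) fun b _ =>
    proj_ge (g := g) hσ (t b) (pr ov ou a a' (ϑ b) (ϑ' b))
  simp only [Finset.sum_sub_distrib, ← Finset.mul_sum, ← Finset.sum_div] at k
  linarith [div_le_div_of_nonneg_right hd hσ.le]

/-- A family: the Gram matrix of the tails, with the data `Θt`. -/
theorem TL.gram (w : Wt ov ou) (k : ∀ j, Pb (h j) (h' j)) (hN : ∀ b, Null n (ϑ b) (ϑ' b))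
    (hG : ∀ t : β → ℝ, nw ov (lc t ϑ) + nw ou (lc t ϑ') ≤ g * ∑ b, t b ^ 2) {Θt : β → ι → ℝ}
    {σ ρ d : ℝ} (hσ : 0 < σ) (hρ : ρ ≤ 2 - g - σ)
    (hd : ∑ b, ∑ j, (pr ov ou (h j) (h' j) (ϑ b) (ϑ' b) - Θt b j) ^ 2 ≤ d) (c : ι → ℝ) :
    TL n ov ou (lc c h) (lc c h') (∑ j, ∑ m, (pr ov ou (h j) (h' j) (h m) (h' m)
      - ρ * ∑ b, Θt b j * Θt b m) * (c j * c m) + d / σ * ∑ j, c j ^ 2) := by
  have hc : 0 ≤ ∑ j, c j ^ 2 := Finset.sum_nonneg fun j _ => sq_nonneg _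
  have f := (frob (fun b j => pr ov ou (h j) (h' j) (ϑ b) (ϑ' b) - Θt b j) c).trans
    (mul_le_mul_of_nonneg_right hd hc)
  simp only [sub_mul, Finset.sum_sub_distrib,
    ← pr_lc_left w k (null_pb (hN _))] at f
  refine (TL.one w (Pb.lc k c) hN hG hσ f).mono ?_
  have t0 : 0 ≤ ∑ b, (∑ j, Θt b j * c j) ^ 2 := Finset.sum_nonneg fun j _ => sq_nonneg _
  simp only [sub_mul, Finset.sum_sub_distrib, mul_assoc ρ, ← Finset.mul_sum, form_gram,
    ← pr_lc w k k, pr_self]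
  have := mul_le_mul_of_nonneg_right hρ t0
  rw [mul_div_right_comm]
  linarith

theorem nw_base {I : Type} [Fintype I] {k m : ℝ} {o : Sc} (ho : Bd k o ∧ ∀ᵐ y, 0 ≤ o y)
    (hk : k + (m + m) < -3) {r : κ → Vc} (hr : ∀ a i, Bd m (r a i)) {A : I → κ → ℝ} {w : κ → ℝ}
    (hA : ∀ x : κ → ℝ, ∑ a, (∑ m, A a m * x m) ^ 2 ≤ ∑ m, w m * x m ^ 2) :
    ∑ a, nw o (lc (A a) r) ≤ ∑ m, w m * nw o (r m) := by
  have i1 := fun a => ho.1.int_nw (SkCert_lc hr (A a)) (SkCert_lc hr (A a)) hk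
  have i2 := fun a => ho.1.int_nw (hr a) (hr a) hk
  unfold nw
  rw [← integral_finsetSum _ fun a _ => i1 a, ← int_lin w i2]
  refine integral_mono_ae (integrable_finsetSum _ fun a _ => i1 a)
    (integrable_finsetSum _ fun a _ => (i2 a).const_mul _) ?_
  filter_upwards [ho.2] with y hy
  have k := mul_le_mul_of_nonneg_left (Finset.sum_le_sum (s := Finset.univ) fun i _ =>
    hA fun m => r m i y) hy
  rw [Finset.sum_comm, Finset.sum_comm (f := fun i m => w m * r m i y ^ 2), Finset.mul_sum,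
    Finset.mul_sum] at k
  simp only [dot, lc, ← sq]
  refine k.trans (le_of_eq (Finset.sum_congr rfl fun m _ => ?_))
  rw [← Finset.mul_sum]
  ring

/-- The Cauchy-Schwarz bound for a family with small tails. -/
theorem TL.cauchy (w : Wt ov ou) (k : ∀ j, Pb (h j) (h' j)) {e v : ι → ℝ}
    (he : ∀ j, TL n ov ou (h j) (h' j) (e j)) (hv : ∀ j, 0 < v j) {τ : ℝ}
    (hτ : ∑ j, e j / v j ≤ τ) (c : ι → ℝ) :
    TL n ov ou (lc c h) (lc c h') (τ * ∑ j, v j * c j ^ 2) := by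
  choose η η' hN he using he
  have hc : 0 ≤ ∑ j, v j * c j ^ 2 :=
    Finset.sum_nonneg fun j _ => mul_nonneg (hv j).le (sq_nonneg _)
  have hA : ∀ x : ι → ℝ, ∑ _a : Unit, (∑ m, c m * x m) ^ 2 ≤
      ∑ m, (∑ j, v j * c j ^ 2) / v m * x m ^ 2 := fun x => by
    simpa only [Finset.univ_unique, Finset.sum_singleton] using cs_wt hv c x
  have p := fun j => (k j).sub (null_pb (hN j))
  have k1 := nw_base (m := -3) w.1 (by norm_num) (fun j => (p j).1) hA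
  have k2 := nw_base (m := -4) w.2 (by norm_num) (fun j => (p j).2) hA
  simp only [Finset.univ_unique, Finset.sum_singleton] at k1 k2
  refine ⟨_, _, Null.lc c hN, ?_⟩
  rw [lc_sub, lc_sub]
  refine (add_le_add k1 k2).trans (le_trans ?_ (mul_le_mul_of_nonneg_right hτ hc))
  rw [← Finset.sum_add_distrib, Finset.sum_mul]
  refine Finset.sum_le_sum fun j _ => ?_
  rw [← mul_add]
  refine (mul_le_mul_of_nonneg_left (he j) (div_nonneg hc (hv j).le)).trans (le_of_eq ?_)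
  ring

/-- The trace bound. -/
theorem TL.trace (w : Wt ov ou) (k : ∀ j, Pb (h j) (h' j)) {e : ι → ℝ}
    (he : ∀ j, TL n ov ou (h j) (h' j) (e j)) {τ : ℝ} (hτ : ∑ j, e j ≤ τ) (c : ι → ℝ) :
    TL n ov ou (lc c h) (lc c h') (τ * ∑ j, c j ^ 2) := by
  simpa only [one_mul] using TL.cauchy w k he (v := fun _ => 1) (fun _ => one_pos)
    (by simpa only [div_one] using hτ) c

/-- A family that is of low rank up to small tails. -/
theorem TL.low (w : Wt ov ou) {e e' : κ → Vc} (k : ∀ j, Pb (h j) (h' j)) (k' : ∀ s, Pb (e s) (e' s))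
    (A : ι → κ → ℝ) (c : ι → ℝ)
    (h1 : TL n ov ou (lc (fun s => ∑ j, c j * A j s) e) (lc (fun s => ∑ j, c j * A j s) e') x)
    (h2 : TL n ov ou (lc c fun j => h j - lc (A j) e) (lc c fun j => h' j - lc (A j) e') x')
    {s : ℝ} (hs : 0 < s) : TL n ov ou (lc c h) (lc c h') ((1 + s) * x + (1 + 1 / s) * x') := by
  have := h1.add w (Pb.lc k' _) (Pb.lc (fun j => (k j).sub (Pb.lc k' (A j))) c) h2 hs
  rwa [← lc_sub, ← lc_sub, lc_lc, lc_lc, add_sub_cancel, add_sub_cancel] at this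

/-- Splitting a family by a predicate. -/
theorem TL.split (w : Wt ov ou) (k : ∀ j, Pb (h j) (h' j)) (c : ι → ℝ) (P : ι → Prop)
    [DecidablePred P]
    (h1 : TL n ov ou (lc (fun j : {j // P j} => c j) fun j => h j)
      (lc (fun j : {j // P j} => c j) fun j => h' j) x)
    (h2 : TL n ov ou (lc (fun j : {j // ¬P j} => c j) fun j => h j)
      (lc (fun j : {j // ¬P j} => c j) fun j => h' j) x') {s : ℝ} (hs : 0 < s) :
    TL n ov ou (lc c h) (lc c h') ((1 + s) * x + (1 + 1 / s) * x') := by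
  rw [lc_split c h P, lc_split c h' P]
  exact TL.add w (Pb.lc (h := fun j : {j // P j} => h j) (h' := fun j => h' j) (fun j => k j.1) _)
    (Pb.lc (h := fun j : {j // ¬P j} => h j) (h' := fun j => h' j) (fun j => k j.1) _) h1 h2 hs

end Pool.Agent.Work.MP_6bf1e5_an.H.Ca
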