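import Pool.Agent.Work.MP_6bf1e5_an.H.FinCore
import Pool.Agent.Work.MP_6bf1e5_an.H.CertTail

/-!
The lower bound of the finite rank form on the tails.
-/

open scoped ContDiff ENNReal FourierTransform Real
open Set MeasureTheory

namespace Pool.Agent.Work.MP_6bf1e5_an.H.Ca

open Dyn Fn

variable {L : Lyap} {T : Tab L} {mv mu ov ou : Sc} {n : ℕ}

/-- The product of a row with the matrix. -/
def rF {r : ℕ} (F : Fin r → Fin r → ℝ) (x : Fin r → ℝ) (a : Fin r) : ℝ := ∑ b, x b * F b a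

theorem rF_dot {r : ℕ} (F : Fin r → Fin r → ℝ) (x z : Fin r → ℝ) :
    ∑ a, x a * ∑ b, F a b * z b = ∑ a, rF F x a * z a := by
  simp only [rF, Finset.mul_sum, Finset.sum_mul, mul_assoc]
  exact Finset.sum_comm

/-- The algebra of the tail bound. -/
theorem FA_tail {r : ℕ} {F : Fin r → Fin r → ℝ} (hF : ∀ a b, F a b = F b a) (Z : Fin 2 → Fin r → ℝ)
    {μ μ' : ℝ} (hμ : 0 ≤ μ) (hμ' : 0 ≤ μ') {g k : Fin r → ℝ} {σ : Type} [Fintype σ]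
    (γ : σ → Fin r → ℝ) {c : σ → ℝ} (hc : ∀ s, 0 ≤ c s) {N v1 v2 v3 v4 vth : ℝ} (hN : 0 ≤ N)
    (h1 : 0 ≤ v1) (h2 : 0 ≤ v2)
    (hg : ∀ x : Fin r → ℝ, (∑ a, x a * g a) ^ 2 ≤ N * ∑ s, c s * (∑ a, γ s a * x a) ^ 2)
    (k1 : ∑ s, c s * (∑ a, rF F (γ s) a * k a) ^ 2 ≤ N * v1 ^ 2)
    (k2 : ∑ s, c s * ∑ s', c s' * (∑ a, γ s' a * rF F (γ s) a) ^ 2 ≤ v2 ^ 2)
    (k3 : ∑ i, ∑ s, c s * (∑ a, γ s a * Z i a) ^ 2 ≤ v3)
    (k4 : ∑ i, (∑ a, Z i a * k a) ^ 2 ≤ N * v4)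
    (hv : v1 + μ * (v2 + 2 * v3) + μ' * v4 ≤ vth) : -(vth * N) ≤ FA F Z μ μ' g k := by
  have a1 := hg fun a => ∑ b, F a b * k b
  have a2 := hg fun a => ∑ b, F a b * g b
  simp only [rF_dot] at a1 a2
  have b1 := (abs_le_of_sq_le_sq' ((a1.trans (mul_le_mul_of_nonneg_left k1 hN)).trans_eq
    (show _ = (N * v1) ^ 2 by ring)) (by positivity)).1
  have c2 : ∑ s, c s * (∑ a, rF F (γ s) a * g a) ^ 2 ≤ N * v2 ^ 2 := by
    refine (Finset.sum_le_sum fun s _ => mul_le_mul_of_nonneg_left (hg _) (hc s)).trans ?_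
    simp only [mul_left_comm _ N]
    rw [← Finset.mul_sum]
    exact mul_le_mul_of_nonneg_left k2 hN
  have b2 := (abs_le_of_sq_le_sq' ((a2.trans (mul_le_mul_of_nonneg_left c2 hN)).trans_eq
    (show _ = (N * v2) ^ 2 by ring)) (by positivity)).2
  have b3 : ∑ i, (∑ a, Z i a * g a) ^ 2 ≤ N * v3 := by
    refine (Finset.sum_le_sum fun s _ => hg _).trans ?_
    rw [← Finset.mul_sum]
    exact mul_le_mul_of_nonneg_left k3 hN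
  have d1 := mul_le_mul_of_nonneg_left (add_le_add b2 (mul_le_mul_of_nonneg_left b3 zero_le_two)) hμ
  have d2 := mul_le_mul_of_nonneg_left k4 hμ'
  have d3 := mul_le_mul_of_nonneg_right hv hN
  rw [FA, sum_symm hF g k]
  linarith

/-- The field `tail` of the finite data. The rows `γ s` bound the tails of the test fields. -/
theorem tail_of (hL : L.Good) (hn : 1 ≤ T.n) (bP : ∀ a i, Bd (-3) (T.P a i))
    (bQ : ∀ a i, Bd (-4) (T.Q a i)) (lowθ : ∀ a, Test (3 / 4) T.n (L.θ a))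
    (wv : Bd (-2) mv ∧ Bd 2 ov ∧ ∀ᵐ y, 0 < ov y ∧ 1 ≤ mv y * ov y)
    (wu : Bd (-4) mu ∧ Bd 4 ou ∧ ∀ᵐ y, 0 < ou y ∧ 1 ≤ mu y * ou y)
    (hμ : 0 ≤ T.μ) (hμ' : 0 ≤ T.μ') {σ : Type} [Fintype σ] (γ : σ → Fin L.r → ℝ) {c : σ → ℝ}
    (hc : ∀ s, 0 ≤ c s)
    (HT : ∀ x, TL T.n ov ou (lc x L.θ) 0 (∑ s, c s * (∑ a, γ s a * x a) ^ 2))
    {e : σ → ℝ} (HK : ∀ s, TL T.n ov ou (lc (rF L.F (γ s)) T.P) (lc (rF L.F (γ s)) T.Q) (e s))
    {z : Fin 2 → ℝ} (HZ : ∀ i, TL T.n ov ou (lc (L.Z i) T.P) (lc (L.Z i) T.Q) (z i))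
    {v1 v2 v3 vth : ℝ} (h1 : 0 ≤ v1) (h2 : 0 ≤ v2) (k1 : ∑ s, c s * e s ≤ v1 ^ 2)
    (k2 : ∑ s, c s * ∑ s', c s' * (∑ a, γ s' a * rF L.F (γ s) a) ^ 2 ≤ v2 ^ 2)
    (k3 : ∑ i, ∑ s, c s * (∑ a, γ s a * L.Z i a) ^ 2 ≤ v3)
    (hv : v1 + T.μ * (v2 + 2 * v3) + T.μ' * ∑ i, z i ≤ vth) (w : Vc) (hw : Adm w)
    (hp : ∀ i, Perp (9 / 4) (T.n + 1) (w i)) :
    -(vth * (nw mv (curl w) + nw mu w)) ≤ T.FF w := by
  have hq := hinf_curl hw.hinf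
  have hN : 0 ≤ nw mv (curl w) + nw mu w :=
    add_nonneg (nw_nonneg (w_nonneg wv.2.2).1 _) (nw_nonneg (w_nonneg wu.2.2).1 _)
  have cs : ∀ {h h' : Vc} {τ : ℝ}, (∀ i, Bd (-3) (h i)) → (∀ i, Bd (-4) (h' i)) →
      TL T.n ov ou h h' τ → (ip (curl w) h + ip w h') ^ 2 ≤ (nw mv (curl w) + nw mu w) * τ :=
    fun b1 b2 ⟨_, _, k, k'⟩ =>
      (null_cs wv wu hw hp b1 b2 k).trans (mul_le_mul_of_nonneg_left k' hN)
  have ck : ∀ {x : Fin L.r → ℝ} {τ : ℝ}, TL T.n ov ou (lc x T.P) (lc x T.Q) τ →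
      (∑ a, x a * T.k a w) ^ 2 ≤ (nw mv (curl w) + nw mu w) * τ := fun {x τ} k => by
    have := cs (fun i => bd_lc x fun a => bP a i) (fun i => bd_lc x fun a => bQ a i) k
    rw [ip_lc _ fun b => int_dot hq (bP b) (by norm_num),
      ip_lc _ fun b => int_dot hw.hinf (bQ b) (by norm_num)] at this
    refine le_of_eq_of_le ?_ this
    rw [← Finset.sum_add_distrib]
    congr 1
    refine Finset.sum_congr rfl fun a _ => ?_
    rw [Tab.k, Fn.lam_perp hn hq (perp_curl hw.hinf hp) (good_hinf hL a) (lowθ a)]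
    ring
  rw [FF_eq hL hw.hinf]
  refine FA_tail hL.2.1 L.Z hμ hμ' γ hc hN h1 h2 (fun x => ?_) ?_ k2 k3 ?_ hv
  · have := cs (h := lc x L.θ) (h' := 0) (fun i => bd_lc x fun a => (good_sym hL a i).bd)
      (fun _ => bd_zero _) (HT x)
    rwa [ip_zero_right, add_zero, ← mom, Fn.mom_lc hL hw.hinf] at this
  · refine (Finset.sum_le_sum fun s _ => mul_le_mul_of_nonneg_left (ck (HK s)) (hc s)).trans ?_
    simp only [mul_left_comm _ (nw mv (curl w) + nw mu w)]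
    rw [← Finset.mul_sum]
    exact mul_le_mul_of_nonneg_left k1 hN
  · refine (Finset.sum_le_sum fun s _ => ck (HZ s)).trans ?_
    rw [← Finset.mul_sum]

theorem frob_rF {r : ℕ} (F : Fin r → Fin r → ℝ) (x : Fin r → ℝ) :
    ∑ a, rF F x a ^ 2 ≤ (∑ a, x a ^ 2) * ∑ a, ∑ b, F a b ^ 2 := by
  rw [Finset.sum_comm, Finset.mul_sum]
  exact Finset.sum_le_sum fun a _ => Finset.sum_mul_sq_le_sq_mul_sq _ _ _

/-- The same with few rows `β s` and a small remainder. -/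
theorem tail_of_eps (hL : L.Good) (hn : 1 ≤ T.n) (bP : ∀ a i, Bd (-3) (T.P a i))
    (bQ : ∀ a i, Bd (-4) (T.Q a i)) (lowθ : ∀ a, Test (3 / 4) T.n (L.θ a))
    (wv : Bd (-2) mv ∧ Bd 2 ov ∧ ∀ᵐ y, 0 < ov y ∧ 1 ≤ mv y * ov y)
    (wu : Bd (-4) mu ∧ Bd 4 ou ∧ ∀ᵐ y, 0 < ou y ∧ 1 ≤ mu y * ou y)
    (hμ : 0 ≤ T.μ) (hμ' : 0 ≤ T.μ') {σ : Type} [Fintype σ] (β : σ → Fin L.r → ℝ)
    {c ε f zz bb : ℝ} (hc : 0 ≤ c) (hε : 0 ≤ ε)
    (HT : ∀ x, TL T.n ov ou (lc x L.θ) 0 (c * ∑ s, (∑ a, β s a * x a) ^ 2 + ε * ∑ a, x a ^ 2))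
    {e : σ → ℝ} (HK : ∀ s, TL T.n ov ou (lc (rF L.F (β s)) T.P) (lc (rF L.F (β s)) T.Q) (e s))
    {z : Fin 2 → ℝ} (HZ : ∀ i, TL T.n ov ou (lc (L.Z i) T.P) (lc (L.Z i) T.Q) (z i))
    {d : Fin L.r → ℝ} (HB : ∀ a, TL T.n ov ou (lc (L.F a) T.P) (lc (L.F a) T.Q) (d a))
    (hF : ∑ a, ∑ b, L.F a b ^ 2 ≤ f) (hZ : ∑ i, ∑ a, L.Z i a ^ 2 ≤ zz)
    (hb : ∑ s, ∑ a, β s a ^ 2 ≤ bb) {v1 v2 v3 w2 vth : ℝ} (h1 : 0 ≤ v1) (h2 : 0 ≤ v2)
    (k1 : c * ∑ s, e s + ε * ∑ a, d a ≤ v1 ^ 2)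
    (k2 : ∑ s, ∑ s', (∑ a, β s' a * rF L.F (β s) a) ^ 2 ≤ w2)
    (k2' : c ^ 2 * w2 + ε * (2 * c * bb + ε) * f ≤ v2 ^ 2)
    (k3 : ∑ i, ∑ s, (∑ a, β s a * L.Z i a) ^ 2 ≤ v3)
    (hv : v1 + T.μ * (v2 + 2 * (c * v3 + ε * zz)) + T.μ' * ∑ i, z i ≤ vth) (w : Vc) (hw : Adm w)
    (hp : ∀ i, Perp (9 / 4) (T.n + 1) (w i)) :
    -(vth * (nw mv (curl w) + nw mu w)) ≤ T.FF w := by
  have e1 : ∀ x : Fin L.r → ℝ, ∑ s : σ ⊕ Fin L.r, Sum.elim (fun _ => c) (fun _ => ε) s *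
      (∑ a, Sum.elim β (fun b a => if b = a then 1 else 0) s a * x a) ^ 2
        = c * ∑ s, (∑ a, β s a * x a) ^ 2 + ε * ∑ a, x a ^ 2 := fun x => by
    simp [Fintype.sum_sum_type, Finset.mul_sum]
  have e2 : ∀ b, rF L.F (fun a => if b = a then 1 else 0) = L.F b := fun b => by
    funext a
    simp [rF]
  have f0 : 0 ≤ ∑ a, ∑ b, L.F a b ^ 2 := by positivity
  have b0 : 0 ≤ ∑ s, ∑ a, β s a ^ 2 := by positivity
  have e4 : ∑ s, ∑ a, rF L.F (β s) a ^ 2 ≤ bb * f := by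
    refine (Finset.sum_le_sum fun s _ => frob_rF L.F (β s)).trans ?_
    rw [← Finset.sum_mul]
    exact mul_le_mul hb hF f0 (b0.trans hb)
  refine tail_of hL hn bP bQ lowθ wv wu hμ hμ' (Sum.elim β fun b a => if b = a then 1 else 0)
    (c := Sum.elim (fun _ => c) fun _ => ε) (fun s => by cases s <;> assumption)
    (fun x => (HT x).mono (e1 x).ge) (e := Sum.elim e d)
    (fun s => ?_) HZ h1 h2 ?_ ?_ ?_ hv w hw hp
  · cases s with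
    | inl s => exact HK s
    | inr b =>
      simp only [Sum.elim_inr, e2]
      exact HB _
  · simpa only [Fintype.sum_sum_type, Sum.elim_inl, Sum.elim_inr, ← Finset.mul_sum] using k1
  · simp only [e1]
    simp only [Fintype.sum_sum_type, Sum.elim_inl, Sum.elim_inr, e2, Finset.sum_add_distrib,
      ← Finset.mul_sum]
    have a1 := mul_le_mul_of_nonneg_left hF (mul_nonneg hε hε)
    have a2 := mul_le_mul_of_nonneg_left e4 (mul_nonneg hc hε)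
    have a3 : ∑ b, ∑ s, (∑ a, β s a * L.F b a) ^ 2 ≤ bb * f := by
      refine le_trans (Finset.sum_le_sum fun b _ => Finset.sum_le_sum fun s _ =>
        Finset.sum_mul_sq_le_sq_mul_sq _ _ _) ?_
      simp only [← Finset.sum_mul, ← Finset.mul_sum]
      exact mul_le_mul hb hF f0 (b0.trans hb)
    have a4 := mul_le_mul_of_nonneg_left a3 (mul_nonneg hc hε)
    have a5 := mul_le_mul_of_nonneg_left k2 (mul_nonneg hc hc)
    linarith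
  · simp only [e1, Finset.sum_add_distrib, ← Finset.mul_sum]
    have a1 := mul_le_mul_of_nonneg_left hZ hε
    have a2 := mul_le_mul_of_nonneg_left k3 hc
    linarith

end Pool.Agent.Work.MP_6bf1e5_an.H.Ca
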