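import Pool.Agent.Work.MP_6bf1e5_an.H.Glue
import Pool.Agent.Work.MP_6bf1e5_an.H.CertTail

/-! Pairs of different degrees are orthogonal for radial weights (owner helper89). -/

open scoped Real
open Finset MeasureTheory Polynomial

namespace Pool.Agent.Work.MP_6bf1e5_an.H.Gl

/-- A function of the distance from the origin. -/
def Rd (o : Sc) : Prop := ∃ g : ℝ → ℝ, ∀ y, o y = g ‖y‖

theorem rd_tau (A : ℝ → ℝ) : Rd fun y => A (tau 1 y) :=
  ⟨fun r => A ((1 + 1 * r ^ 2) ^ (-(1 / 4) : ℝ)), fun _ => rfl⟩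

theorem Rd.mul {f g : Sc} (h : Rd f) (h' : Rd g) : Rd fun y => f y * g y :=
  let ⟨a, ha⟩ := h
  let ⟨b, hb⟩ := h'
  ⟨fun r => a r * b r, fun y => by simp only [ha, hb]⟩

theorem rd_pre (e : Bool → ℕ) (c : ℕ) (s : Fin 3) : Rd (pre e c s) :=
  rd_tau fun t => (if s = 2 then 1 else √(1 - t ^ 4)) * t ^ e (slot c s)

theorem int_Pa {l l' : ℕ} (h : l ≠ l') {o : Sc} (ho : Rd o) :
    ∫ y, o y * (Pa l (pa y) * Pa l' (pa y)) = 0 := by
  obtain ⟨g, hg⟩ := ho
  have h1 := polar (Q := fun y => Hl l y * Hl l' y) ((hom_Hl l).mul (hom_Hl l')).hom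
    fun r => g r / r ^ (l + l')
  rw [sph_Hl, if_neg h, zero_mul] at h1
  rw [← h1]
  refine integral_congr_ae (ae_off.mono fun y hy => ?_)
  have := hy.norm_pos.ne'
  simp only [hy.Hl_eq, hg, pow_add]
  field_simp

theorem int_dPa {l l' : ℕ} (h : l ≠ l') {o : Sc} (ho : Rd o) :
    ∫ y, o y * (dPa l (pa y) * dPa l' (pa y)) = 0 := by
  obtain ⟨g, hg⟩ := ho
  have h1 := int_TT l l' fun r => g r / r ^ (l + l')
  rw [if_neg h] at h1
  rw [← h1]
  refine integral_congr_ae (ae_off.mono fun y hy => ?_)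
  have h0 := hy.norm_pos.ne'
  have h2 : dot (TT l) (TT l') y = (rc y * bl l y) * (rc y * bl l' y) := by
    have := rc_sq y
    simp only [dot, TT_eq, Jv, Fin.sum_univ_three]
    simp
    linear_combination (-(bl l y * bl l' y)) * this
  simp only [h2, hy.bl_eq, hg, pow_add]
  field_simp

theorem int_anF {l l' : ℕ} (h : l ≠ l') {o : Sc} (ho : Rd o) (s : Fin 3) :
    ∫ y, o y * (anF l s y * anF l' s y) = 0 := by
  unfold anF
  split_ifs
  exacts [int_Pa h ho, int_dPa h ho]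

variable {e e' : Bool → ℕ} {c c' k k' : ℕ} {R R' : ℕ → ℝ[X]} {x x' : Bool → Vc}

theorem Is.bd (h : Is e c k R x) {a : Bool} {m : ℝ} (hb : ∀ i, Bd m (x a i)) (s : Fin 3) :
    Bd m (cmp e c k R a s) :=
  (Bd.vC hb s).off fun y hy => by
    rw [← hy.vC_vF (cmp e c k R a) s]
    simp only [vC, dot, h y hy]

theorem Is.ip_zero (h : Is e c k R x) (h' : Is e' c' k' R' x') (hk : k ≠ k') {o : Sc} (ho : Rd o)
    {a : Bool} {m m' n : ℝ} (bo : Bd n o) (hb : ∀ i, Bd m (x a i)) (hb' : ∀ i, Bd m' (x' a i))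
    (hm : n + (m + m') < -3) : ip (sm o (x a)) (x' a) = 0 := by
  have h1 : ip (sm o (x a)) (x' a)
      = ∫ y, ∑ s, o y * (cmp e c k R a s y * cmp e' c' k' R' a s y) := by
    refine integral_congr_ae (ae_off.mono fun y hy => ?_)
    have := hy.dot_vF (cmp e c k R a) (cmp e' c' k' R' a)
    simp only [dot] at this
    simp only [dot, sm, h y hy, h' y hy, mul_assoc, ← mul_sum, this]
  rw [h1, integral_finsetSum _ fun s _ => (bo.mul ((h.bd hb s).mul (h'.bd hb' s))).integrable hm]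
  refine sum_eq_zero fun s _ => ?_
  by_cases h2 : slot c s = a ∧ slot c' s = a
  · rw [← int_anF hk (((ho.mul (rd_pre e c s)).mul (rd_pre e' c' s)).mul
      (rd_tau fun t => (R s).eval t * (R' s).eval t)) s]
    refine integral_congr_ae (.of_forall fun y => ?_)
    simp only [cmp, h2.1, h2.2, if_true]
    ring
  · rcases not_and_or.1 h2 with h3 | h3 <;> simp [cmp, h3]

/-- Orthogonality in the pairing of the certificate. -/
theorem Is.pr_zero (h : Is e c k R x) (h' : Is e' c' k' R' x') (hk : k ≠ k') {ov ou : Sc}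
    (w : Ca.Wt ov ou) (rv : Rd ov) (ru : Rd ou) (b : Ca.Pb (x false) (x true))
    (b' : Ca.Pb (x' false) (x' true)) :
    Ca.pr ov ou (x false) (x true) (x' false) (x' true) = 0 := by
  rw [Ca.pr, h.ip_zero h' hk rv w.1.1 b.1 b'.1 (by norm_num),
    h.ip_zero h' hk ru w.2.1 b.2 b'.2 (by norm_num), add_zero]

end Pool.Agent.Work.MP_6bf1e5_an.H.Gl
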