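import Pool.Agent.Lib.KBlk.Lay

/-! The stored matrices and the terms of the passes KK, LL, MM (owner helper15). -/

namespace Pool.Agent.Work.MP_6bf1e5_an.H.Ps

open Pool.Agent.Lib.KLA Pool.Agent.Lib.KBlk

noncomputable section

/-- The layouts of modes, test fields of the functional, and tests; the stored matrices with their
offsets `k` and scales `s`. The extended matrices have `16 * c1` rows, there are `16 * cT` tests,
panel `p` of `U` and of `R` has `16 * cU p` and `16 * cR p` rows. -/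
structure Dat where
  (Am Ah At : Lay)
  (V c1 cT nm nh nt : Nat)
  (cU cR : Nat → Nat)
  (X K La Th R TP U : Nat → Chk)
  (Zc : Chk)
  (kX kK kL kT kR kP kU kZ : Nat)
  (sX sK sL sT sR sP sU sZ : Nat)

/-- The panels `0, ..., m - 1` fit. -/
def pok (V K : Nat) (n : Nat → Nat) (Z : Nat → Chk) (m : Nat) : Bool :=
  allR (fun p => (Z p).ok V K (Nat.mul 16 (n p))) 0 m

/-- The conditions on the sizes. -/
def Dat.szs (D : Dat) : Bool :=
  bnd (bnd (bnd (Nat.ble D.Am.nq (Nat.mul D.Am.q D.nm)) (Nat.ble D.Ah.nq (Nat.mul D.Ah.q D.nh)))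
    (bnd (Nat.ble D.At.nq (Nat.mul D.At.q D.nt)) (Nat.beq D.At.N (Nat.mul 16 D.cT))))
  (bnd (bnd (bnd (Nat.ble (Nat.add 16 D.Ah.N) (Nat.mul 16 D.c1))
      (bnd (Nat.beq D.Ah.b0 D.Am.b0) (Nat.ble D.Ah.nq D.Am.nq)))
    (allR (fun b => bnd (Nat.ble (D.Ah.J b 0) (D.Am.J b 0)) (Nat.ble (D.Ah.J b 1) (D.Am.J b 1)))
      D.Ah.b0 D.Ah.nq))
    (bnd (allR (fun p => bnd (Nat.ble (D.cU p) D.c1)
      (Nat.ble (Nat.add 16 (D.Ah.ps (Nat.add p 1))) (Nat.mul 16 (D.cU p)))) 0 D.nh)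
      (allR (fun p => Nat.ble (D.cR p) (D.cR (Nat.add p 1))) 0 D.nm)))

/-- The terms of the pass KK: the block `B`, and the stored row. -/
def tKK (D : Dat) (SB SK : Scl) (B : Nat → Nat → Rows) (b0 y b q : Nat) : Trm :=
  tS (tBlk D.V (Nat.mul SB.c SB.K) D.Am b0 y b q (tR D.V (D.Am.J b0 y) SB (B b0 y)))
    (tRow D.V D.kK SK D.Am D.K b q (Nat.add 16 (D.Ah.pos b0 y 0)) (D.Ah.J b0 y))

/-- The terms of the pass LL. -/
def tLL (D : Dat) (c e : Nat) (SK SU SL : Scl) (b0 y b q : Nat) : Trm :=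
  tS (tS (tRow D.V D.kK SK D.Am D.K b q (Nat.add 16 (D.Ah.pos b0 y 0)) (D.Ah.J b0 y))
      (tBlk D.V c D.Am b0 y b q (tI D.V (D.Am.J b0 y) 0 c)))
    (tS (tPro D.V D.kU D.kX e SU D.Ah D.U D.Am D.X b0 y b q 0 (D.cU (D.Ah.pb b0)))
      (tRow D.V D.kL SL D.Am D.La b q (Nat.add 16 (D.Ah.pos b0 y 0)) (D.Ah.J b0 y)))

/-- The terms of the pass MM. -/
def tMM (D : Dat) (c eT eX eR : Nat) (SB ST SX SR : Scl) (B : Nat → Nat → Rows)
    (b0 y b q : Nat) : Trm :=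
  tS (tS (tBlk D.V (Nat.add (Nat.mul SB.c SB.K) c) D.Am b0 y b q
        (tS (tR D.V (D.Am.J b0 y) SB (B b0 y)) (tI D.V (D.Am.J b0 y) 0 c)))
      (tPro D.V D.kT D.kT eT ST D.Am D.Th D.Am D.Th b0 y b q 0 D.cT))
    (tS (tS (tPro D.V D.kX D.kL eX SX D.Am D.X D.Am D.La b0 y b q 0 D.c1)
        (tPro D.V D.kL D.kX eX SX D.Am D.La D.Am D.X b0 y b q 0 D.c1))
      (tPro D.V D.kR D.kR eR SR D.Am D.R D.Am D.R b0 y b q 0 (D.cR (D.Am.pb b0))))

end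

end Pool.Agent.Work.MP_6bf1e5_an.H.Ps
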