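import Pool.Agent.Work.MP_6bf1e5_an.H.PassAlg
import Pool.Agent.Work.MP_6bf1e5_an.H.PassDef
import Pool.Agent.Lib.KBlk.LayS

/-! The meaning of the stored matrices (owner helper15). -/

open Finset Pool.Agent.Lib.KBlk Pool.Agent.Lib.KLA

namespace Pool.Agent.Work.MP_6bf1e5_an.H.Ps

noncomputable section

variable (D : Dat)

def Dat.x (h j : ℕ) : ℝ := pent D.V D.Am D.X h j / 2 ^ D.sX

def Dat.k (h j : ℕ) : ℝ := pent D.V D.Am D.K h j / 2 ^ D.sK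

def Dat.la (h j : ℕ) : ℝ := pent D.V D.Am D.La h j / 2 ^ D.sL

def Dat.th (r j : ℕ) : ℝ := pent D.V D.Am D.Th r j / 2 ^ D.sT

def Dat.r (r j : ℕ) : ℝ :=
  if r < 16 * D.cR (D.Am.pan j) then pent D.V D.Am D.R r j / 2 ^ D.sR else 0

def Dat.tp (h r : ℕ) : ℝ := pent D.V D.At D.TP h r / 2 ^ D.sP

def Dat.u (h a : ℕ) : ℝ :=
  if h < 16 * D.cU (D.Ah.pan a) then pent D.V D.Ah D.U h a / 2 ^ D.sU else 0

/-- The matrix `Z`. -/
def Dat.z (i a : ℕ) : ℝ := D.Zc.ent D.V (16 + a) i / 2 ^ D.sZ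

/-- The mode that is dual to a test field. -/
def Dat.lo (a : ℕ) : ℕ := D.Am.pos (D.Ah.mem a).1 (D.Ah.mem a).2.1 (D.Ah.mem a).2.2

/-- The matrix `F`. -/
def Dat.f (a b : ℕ) : ℝ := D.x (16 + a) (D.lo b)

/-- A matrix in panels has the rows and word lengths that are claimed. -/
def Fit (V K : ℕ) (A : Lay) (n : ℕ → ℕ) (Z : ℕ → Chk) : Prop :=
  ∀ b, A.b0 ≤ b → b < A.b0 + A.nq → (Z (A.pb b)).ok V K (16 * n (A.pb b)) = true

/-- The formal conditions on the data. -/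
structure Dat.Ok : Prop where
  X : Fit D.V D.kX D.Am (fun _ => D.c1) D.X
  K : Fit D.V D.kK D.Am (fun _ => D.c1) D.K
  La : Fit D.V D.kL D.Am (fun _ => D.c1) D.La
  Th : Fit D.V D.kT D.Am (fun _ => D.cT) D.Th
  R : Fit D.V D.kR D.Am D.cR D.R
  TP : Fit D.V D.kP D.At (fun _ => D.c1) D.TP
  U : Fit D.V D.kU D.Ah D.cU D.U
  Zc : D.Zc.ok D.V D.kZ (16 * D.c1) = true
  nt : D.At.N = 16 * D.cT
  n1 : 16 + D.Ah.N ≤ 16 * D.c1
  has : ∀ b y, D.Ah.Has b y → D.Am.Has b y ∧ D.Ah.J b y ≤ D.Am.J b y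
  cU : ∀ b y, D.Ah.Has b y → D.cU (D.Ah.pb b) ≤ D.c1 ∧
    16 + D.Ah.ps (D.Ah.pb b + 1) ≤ 16 * D.cU (D.Ah.pb b)
  cR : ∀ p p', p ≤ p' → p' ≤ D.nm → D.cR p ≤ D.cR p'
  nm : ∀ b y, D.Am.Has b y → D.Am.pb b < D.nm

end

variable {D : Dat}

theorem pb_lt {A : Lay} {m b : ℕ} (h : A.nq ≤ A.q * m) (h1 : A.b0 ≤ b) (h2 : b < A.b0 + A.nq) :
    A.pb b < m := Nat.div_lt_of_lt_mul (by omega)

theorem fit_of {V K m : ℕ} {A : Lay} {n : ℕ → ℕ} {Z : ℕ → Chk} (h : A.nq ≤ A.q * m)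
    (k : pok V K n Z m = true) : Fit V K A n Z := fun _ h1 h2 =>
  allR_spec k _ (Nat.zero_le _) (by simpa using pb_lt h h1 h2)

theorem Dat.ok_of (h : D.szs = true) (hX : pok D.V D.kX (fun _ => D.c1) D.X D.nm = true)
    (hK : pok D.V D.kK (fun _ => D.c1) D.K D.nm = true)
    (hL : pok D.V D.kL (fun _ => D.c1) D.La D.nm = true)
    (hT : pok D.V D.kT (fun _ => D.cT) D.Th D.nm = true) (hR : pok D.V D.kR D.cR D.R D.nm = true)
    (hP : pok D.V D.kP (fun _ => D.c1) D.TP D.nt = true) (hU : pok D.V D.kU D.cU D.U D.nh = true)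
    (hZ : D.Zc.ok D.V D.kZ (16 * D.c1) = true) : D.Ok := by
  simp only [Dat.szs, bnd_iff, Nat.ble_eq, Nat.beq_eq, Nat.mul_eq, Nat.add_eq] at h
  obtain ⟨⟨⟨a1, a2⟩, a3, a4⟩, ⟨⟨a5, a6, a7⟩, a8⟩, a9, a10⟩ := h
  refine ⟨fit_of a1 hX, fit_of a1 hK, fit_of a1 hL, fit_of a1 hT, fit_of a1 hR, fit_of a3 hP,
    fit_of a2 hU, hZ, a4, a5, fun b y ⟨b1, b2, b3⟩ => ⟨⟨by omega, by omega, b3⟩, ?_⟩,
    fun b y ⟨b1, b2, _⟩ => ?_, fun p p' h1 h2 => ?_, fun b y ⟨b1, b2, _⟩ => pb_lt a1 b1 b2⟩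
  · have := allR_spec a8 b b1 b2
    simp only [bnd_iff, Nat.ble_eq] at this
    interval_cases y
    exacts [this.1, this.2]
  · simpa only [bnd_iff, Nat.ble_eq] using
      allR_spec a9 _ (Nat.zero_le _) (by simpa using pb_lt a2 b1 b2)
  · induction h1 with
    | refl => exact le_rfl
    | @step m _ ih =>
      exact (ih (by omega)).trans (Nat.le_of_ble_eq_true
        (allR_spec a10 m (Nat.zero_le _) (by omega)))

theorem Dat.Ok.lo_pos (h : D.Ok) {b y m : ℕ} (hb : D.Ah.Has b y) (hm : m < D.Ah.J b y) :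
    D.lo (D.Ah.pos b y m) = D.Am.pos b y m := by rw [Dat.lo, (Lay.mem_pos hb hm).2]

theorem Dat.Ok.lo_mem (h : D.Ok) {a : ℕ} (ha : a < D.Ah.N) :
    D.lo a < D.Am.N ∧ D.Am.mem (D.lo a) = D.Ah.mem a :=
  let ⟨a1, a2, _⟩ := Lay.mem_spec ha
  Lay.mem_pos (h.has _ _ a1).1 (a2.trans_le (h.has _ _ a1).2)

/-- The real matrices. -/
noncomputable def Dat.hat (D : Dat) (h : D.Ok) (L : Lyap) (e : L.r = D.Ah.N)
    (Q : Fin D.Am.N → Fin D.Am.N → ℝ) :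
    Ca.HatD L (Fin D.Am.N) (Fin D.At.N) (Fin (16 * D.c1)) (Fin (16 * D.cR D.nm)) where
  lo a := ⟨D.lo a, (h.lo_mem (e ▸ a.2)).1⟩
  o j := (D.Am.mem j).1
  o' a := D.Ah.pan a
  th a := ⟨16 + a, by have := h.n1; omega⟩
  z0 i := ⟨i, by have := h.n1; omega⟩
  z1 i := ⟨2 + i, by have := h.n1; omega⟩
  X a j := D.x a j
  TP a r := D.tp a r
  Th r j := D.th r j
  K a j := D.k (16 + a) j
  La a j := D.la a j
  U a b := D.u a b
  R r j := D.r r j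
  Q := Q

/-- A family that starts at one, numbered from zero. -/
theorem dec_skip {J : ℕ → ℕ → ℕ} (h0 : J 0 0 = 0) (h1 : J 0 1 = 0) (q n : ℕ) :
    tot J (q + 1) 0 = tot J q 1 ∧ dec J (q + 1) 0 n = dec J q 1 n := by
  simp [tot, dec, h0, h1]

end Pool.Agent.Work.MP_6bf1e5_an.H.Ps
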