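import Pool.Agent.Work.MP_6bf1e5_an.H.Glue
import Pool.Agent.Lib.KBlk.LayS

/-! The common part of the passes with tiles (owner helper15). -/

open Finset MeasureTheory Pool.Agent.Lib.KBlk Pool.Agent.Lib.KLA

namespace Pool.Agent.Work.MP_6bf1e5_an.H.Gl

/-- The tables of a pass: the field `G` between the families `x` (rows) and `x'` (columns). The
entries of a tile are `κ` times the pairings, up to `ε`. -/
structure Til (P : Par) (T0 T1 : Rows) (dg : ℕ → ℕ) (M : ℕ → ℕ → ℕ → Rows) (R D : ℕ → ℕ → Rows)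
    (A B : Lay) (G : Bool → Bool → Mc) (x x' : ℕ × ℕ × ℕ → Bool → Vc) (κ ε : ℝ) : Prop where
  ex : ∃ (Q : Err) (nb p : ℕ) (an : Bool → ℕ → ℕ → ℝ) (N lf : ℕ → ℕ) (e e' : Bool → ℕ)
    (F : ℕ → ℕ → ℕ → Sc) (σ I α α' δ δ' : ℝ), α ≠ 0 ∧ α' ≠ 0 ∧ An an (P.mK + 1) p N lf nb ∧
    A.b0 + A.nq ≤ nb ∧ B.b0 + B.nq ≤ nb ∧
    (∀ c < 2, Src P Q volume (phA 1) th2 (F c) nb T0 T1 dg (M c) an ∧ Fld G σ e e' c (F c) ∧
      ∀ c' < 2, ∑ s ∈ range 3, ∑ s' ∈ range 3, ∫ y, |F c s (3 * c' + s') y| ≤ I) ∧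
    (∀ b c, A.Has b c →
      Blk1 P.W P.Kr (16 * P.dA) (16 * P.cA) Q.Lr N lf e α δ x b c (A.J b c) (R b c)) ∧
    (∀ b c, B.Has b c →
      Blk1 P.W P.Kc (16 * P.dB) (16 * P.cB) Q.Lc N lf e' α' δ' x' b c (B.J b c) (D b c)) ∧
    κ = 8 / 2 ^ (P.s1 + P.s2 + P.s3) * (α * α' * 4 ^ p * σ) ∧ Q.e4 + err P Q I δ δ' ≤ ε

variable {P : Par} {T0 T1 : Rows} {dg : ℕ → ℕ} {M : ℕ → ℕ → ℕ → Rows} {R D : ℕ → ℕ → Rows}
  {A B : Lay} {G : Bool → Bool → Mc} {x x' : ℕ × ℕ × ℕ → Bool → Vc} {κ ε : ℝ}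

/-- The rows of a tile. -/
theorem Til.row (h : Til P T0 T1 dg M R D A B G x x' κ ε) {b0 y b q : ℕ} (hb : A.Has b0 y)
    (hq : B.fit b q = true) {f : Tile → Bool} (hf : tile0 P b0 T0 T1 dg (M y) B.J D q b f = true)
    {S : Scl} (hS : S.Ok P.W P.E4) : ∃ t, f t = true ∧ TOk P.W (tot B.J q b) (A.J b0 y)
      (tC P (tot B.J q b) S (R b0 y) t) (S.c * S.K) (fun j n => S.val * κ *
        pr6 G (x (A.mem (A.pos b0 y j))) (x' (B.mem (B.st b + n)))) (S.c / 2 ^ S.s * ε + 1) := by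
  obtain ⟨Q, nb, p, an, N, lf, e, e', F, σ, I, α, α', δ, δ', hα, hα', hA, n1, n2, hF, hR, hD, rfl,
    hε⟩ := h
  obtain ⟨f1, f2, -⟩ := Lay.fit_iff.1 hq
  obtain ⟨h, hF, hI⟩ := hF y hb.2.2
  have h0 : b0 < nb := hb.2.1.trans_le n1
  obtain ⟨r, S0, t0, q0, m0⟩ := hR b0 y hb
  choose! rc S1 t1 q1 m1 using hD
  obtain ⟨t, ht, h1⟩ := tC_ok' h h0 (f2.trans n2)
    (fun b' a1 a2 c a3 => t1 b' c ⟨by omega, by omega, a3⟩) hf hS t0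
  have h3 : |S.val| = S.c / 2 ^ S.s := by
    unfold Scl.val
    split_ifs <;> simp [abs_div]
  refine ⟨t, ht, (tok_near h1 (ε' := S.c / 2 ^ S.s * err P Q I δ δ') fun j hj n hn => ?_).congr
    (fun _ _ _ _ => rfl) ?_⟩
  · rw [(Lay.mem_pos hb hj).2, (Lay.mem_st f1 f2 hn).2]
    obtain ⟨a1, a2, a3, a4⟩ := dec_spec B.J q b n hn
    generalize dec B.J q b n = d at a1 a2 a3 a4
    obtain ⟨k', c', j'⟩ := d
    have a5 : B.Has k' c' := ⟨f1.trans a1, a2.trans_le f2, a3⟩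
    have h2 := ent_near h hα hα' hF hI hA h0 (a5.2.1.trans_le n2) a3 hj a4 t0 (t1 k' c' a5) q0
      (q1 k' c' a5) (m0 j hj) (m1 k' c' a5 j' a4)
    rw [mul_assoc S.val, ← mul_sub, abs_mul, h3]
    exact mul_le_mul_of_nonneg_left h2 (by positivity)
  · have := mul_le_mul_of_nonneg_left hε (by positivity : (0 : ℝ) ≤ S.c / 2 ^ S.s)
    linarith

/-- A pass with tiles. -/
theorem tchk_all (h : Til P T0 T1 dg M R D A B G x x' κ ε) {V K K0 c e : ℕ} {S : Scl}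
    {T : ℕ → ℕ → ℕ → ℕ → Trm} {lo : ℕ → ℕ} {g : ℕ → ℕ → ℝ} {η : ℝ}
    (hJ : Job (tchk P V K0 c e S T0 T1 dg M R D B T) A B lo) (hS : S.Ok P.W P.E4)
    (hK : K0 = c * (S.c * S.K + K)) (hc : 0 < c) (he : e + 1 ≤ V) (h0 : K0 + 2 ^ (e + 2) ≤ 2 ^ V)
    (hT : ∀ b0 y b q, A.Has b0 y → B.fit b q = true → lo b0 < b + q →
      TOk V (tot B.J q b) (A.J b0 y) (T b0 y b q) K (fun j m => g (A.pos b0 y j) (B.st b + m)) η)
    {j k : ℕ} (hj : j < A.N) (hk : k < B.N) (hl : lo (A.mem j).1 ≤ (B.mem k).1) :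
    |S.val * κ * pr6 G (x (A.mem j)) (x' (B.mem k)) + g j k|
      ≤ 2 ^ e / c + (S.c / 2 ^ S.s * ε + 1 + η) :=
  hJ.all (E := fun j k => |S.val * κ * pr6 G (x (A.mem j)) (x' (B.mem k)) + g j k|
      ≤ 2 ^ e / c + (S.c / 2 ^ S.s * ε + 1 + η)) (fun b0 y b q _ _ hb hl hf => by
    obtain ⟨f1, f2⟩ := (bnd_iff _ _).1 hf
    obtain ⟨t, t1, t2⟩ := h.row hb f1 f2 hS
    have k : 2 * (S.c * S.K) < 2 ^ P.W := lt_of_le_of_lt
      (Nat.mul_le_mul_left 2 (Nat.le_mul_of_pos_left _ (by positivity))) hS.2.2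
    exact ⟨(Lay.fit_iff.1 f1).1, fun _ hj h1 h2 =>
      finN_sound ((tW_ok t2 k).seq (hT b0 y b q hb f1 hl)) hK hc t1 he h0 h1 h2 hj⟩) hj hk hl

end Pool.Agent.Work.MP_6bf1e5_an.H.Gl
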