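import Pool.Agent.Work.MP_6bf1e5_an.H.PassTD
import Pool.Agent.Work.MP_6bf1e5_an.H.PassSem
import Pool.Agent.Work.MP_6bf1e5_an.H.PassTile
import Pool.Agent.Work.MP_6bf1e5_an.H.CertSix
import Pool.Agent.Work.MP_6bf1e5_an.H.GlOrt

/-! The meaning of the passes TP, T0 and GT (owner helper89). -/

open Finset Pool.Agent.Lib.KBlk Pool.Agent.Lib.KLA

namespace Pool.Agent.Work.MP_6bf1e5_an.H.Ps

open Gl Ca

variable {D : Dat} {P : Par} {T0 T1 : Rows} {dg : ℕ → ℕ} {M : ℕ → ℕ → ℕ → Rows}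
  {R C : ℕ → ℕ → Rows} {A : Lay} {G : M6} {x z : ℕ × ℕ × ℕ → V6} {κ ε lam η : ℝ}
  {K0 c e : ℕ} {S SP SX ST : Scl}

theorem pos_le {b y : ℕ} (hb : A.Has b y) : A.pos b y 0 + A.J b y ≤ A.N := by
  obtain ⟨a1, a2, a3⟩ := hb
  obtain ⟨d, hd⟩ : ∃ d, A.nq = b - A.b0 + (d + 1) := ⟨A.nq - (b - A.b0) - 1, by omega⟩
  rw [Lay.N, hd, tot_add, Nat.add_sub_cancel' a1, tot, Lay.pos, enc]
  interval_cases y <;> simp only [if_true, one_ne_zero, if_false] <;> omega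

theorem st_le {b q : ℕ} (hf : A.fit b q = true) : A.st b + tot A.J q b ≤ A.N := by
  obtain ⟨a1, a2, -⟩ := Lay.fit_iff.1 hf
  obtain ⟨d, hd⟩ : ∃ d, A.nq = b - A.b0 + (q + d) := ⟨A.nq - (b - A.b0) - q, by omega⟩
  rw [Lay.N, hd, tot_add, tot_add, Nat.add_sub_cancel' a1, Lay.st]
  omega

theorem unscale {a b : ℝ} (hl : 0 < lam) (h : |lam * a| ≤ b) (hη : b ≤ lam * η) : |a| ≤ η := by
  rw [abs_mul, abs_of_pos hl] at h
  exact le_of_mul_le_mul_left (h.trans hη) hl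

/-- A pass on all columns; the terms are only needed for tiles that are not empty. -/
theorem tchk_full {B : Lay} (h : Til P T0 T1 dg M R C A B G x z κ ε) {V K : ℕ}
    {T : ℕ → ℕ → ℕ → ℕ → Trm} {g : ℕ → ℕ → ℝ}
    (hJ : Job (tchk P V K0 c e S T0 T1 dg M R C B T) A B fun _ => B.b0) (hS : S.Ok P.W P.E4)
    (hK : K0 = c * (S.c * S.K + K)) (hc : 0 < c) (he : e + 1 ≤ V) (h0 : K0 + 2 ^ (e + 2) ≤ 2 ^ V)
    (hT : ∀ b0 y b q, A.Has b0 y → B.fit b q = true → B.b0 ≤ b → b < B.b0 + B.nq →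
      TOk V (tot B.J q b) (A.J b0 y) (T b0 y b q) K (fun j m => g (A.pos b0 y j) (B.st b + m)) η)
    {j k : ℕ} (hj : j < A.N) (hk : k < B.N) :
    |S.val * κ * pr6 G (x (A.mem j)) (z (B.mem k)) + g j k|
      ≤ 2 ^ e / c + (S.c / 2 ^ S.s * ε + 1 + η) :=
  hJ.all (E := fun j k => |S.val * κ * pr6 G (x (A.mem j)) (z (B.mem k)) + g j k|
      ≤ 2 ^ e / c + (S.c / 2 ^ S.s * ε + 1 + η)) (fun b0 y b q _ _ hb _ hf => by
    obtain ⟨f1, f2⟩ := (bnd_iff _ _).1 hf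
    obtain ⟨t, t1, t2⟩ := h.row hb f1 f2 hS
    have k : 2 * (S.c * S.K) < 2 ^ P.W := lt_of_le_of_lt
      (Nat.mul_le_mul_left 2 (Nat.le_mul_of_pos_left _ (by positivity))) hS.2.2
    obtain ⟨a1, a2, -⟩ := Lay.fit_iff.1 f1
    refine ⟨a1, fun _ hj h1 h2 m hm => ?_⟩
    have := dec_spec B.J q b m hm
    exact finN_sound ((tW_ok t2 k).seq (hT b0 y b q hb f1 a1 (by omega))) hK hc t1 he h0 h1 h2 hj
      m hm) hj hk (Lay.mem_spec hk).1.1

/-- The pass TP. -/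
theorem tp_all (d : D.Ok) (h : Til P T0 T1 dg M R C D.Ah D.At G x z κ ε)
    (hJ : Job (tchk P D.V K0 c e S T0 T1 dg M R C D.At (tTP D SP)) D.Ah D.At fun _ => D.At.b0)
    (hS : S.Ok P.W P.E4) (hP : SP.Ok D.V D.kP) (hK : K0 = c * (S.c * S.K + SP.c * SP.K))
    (hc : 0 < c) (he : e + 1 ≤ D.V) (h0 : K0 + 2 ^ (e + 2) ≤ 2 ^ D.V) (hl : 0 < lam)
    (l1 : S.val * κ = lam) (l2 : SP.val * 2 ^ D.sP = -lam)
    (hη : 2 ^ e / c + (S.c / 2 ^ S.s * ε + 2) ≤ lam * η) {a r : ℕ} (ha : a < D.Ah.N)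
    (hr : r < D.At.N) : |pr6 G (x (D.Ah.mem a)) (z (D.At.mem r)) - D.tp (16 + a) r| ≤ η := by
  have t := tchk_full h hJ hS hK hc he h0 (η := 1)
    (g := fun a r => SP.val * pent D.V D.At D.TP (16 + a) r) (fun b0 y b q hb hf h1 h2 =>
      (tRow_ok hP (d.TP b h1 h2) (by
        have := pos_le hb
        have := d.n1
        change 16 + _ + _ ≤ 16 * D.c1
        omega) hf).congr (fun j _ m _ => by rw [← Lay.pos_add _ _ _ j, ← add_assoc]; rfl) le_rfl)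
    ha hr
  refine unscale hl (le_of_eq_of_le (congrArg _ ?_) t) (by linarith)
  rw [Dat.tp, l1, eq_div_of_mul_eq (by positivity) l2]
  ring

/-- The pass T0. -/
theorem t0_all {s : ℕ} (d : D.Ok) (h : Til P T0 T1 dg M R C D.Am D.At G x z κ ε)
    (hJ : Job (tchk P D.V K0 c e S T0 T1 dg M R C D.At (tT0 D s SX ST)) D.Am D.At fun _ => D.At.b0)
    (hS : S.Ok P.W P.E4) (hX : SX.Ok D.V (2 ^ s)) (hT : ST.Ok D.V D.kT)
    (hK : K0 = c * (S.c * S.K + (SX.c * SX.K + ST.c * ST.K))) (hc : 0 < c) (he : e + 1 ≤ D.V)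
    (h0 : K0 + 2 ^ (e + 2) ≤ 2 ^ D.V) (hs : s + 1 ≤ D.V) (k1 : 2 * (16 * D.c1) * D.kX + 1 < 2 ^ D.V)
    (k2 : 16 * D.c1 * (D.kX * D.kP) + 2 ^ (s + 2) ≤ 2 ^ D.V) (k3 : 2 * D.kT < 2 ^ D.V)
    (hl : 0 < lam) (l1 : S.val * κ = lam) (l2 : SX.val * (2 ^ D.sX * 2 ^ D.sP) = lam)
    (l3 : ST.val * 2 ^ D.sT = -lam) (hη : 2 ^ e / c + (S.c / 2 ^ S.s * ε + 3) ≤ lam * η)
    {j r : ℕ} (hj : j < D.Am.N) (hr : r < D.At.N) :
    |pr6 G (x (D.Am.mem j)) (z (D.At.mem r)) + ∑ i ∈ range (16 * D.c1), D.x i j * D.tp i r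
      - D.th r j| ≤ η := by
  have t := tchk_full h hJ hS hK hc he h0 (η := 1 + 1)
    (g := fun j r => SX.val * ∑ i ∈ range (16 * D.c1), (pent D.V D.Am D.X i j : ℝ)
      * pent D.V D.At D.TP i r + ST.val * pent D.V D.Am D.Th r j) (fun b0 y b q hb hf h1 h2 =>
      ((tPro_ok (c0 := 0) hX (d.X b0 hb.1 hb.2.1) (d.TP b h1 h2) (by simp) (by simp) hb hf hs k1
        k2).seq (tCol_ok hT k3 (d.Th b0 hb.1 hb.2.1) (d.nt ▸ st_le hf) hb)).congr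
        (fun j _ m _ => by simp only [mul_zero, zero_add]) le_rfl) hj hr
  refine unscale hl (le_of_eq_of_le (congrArg _ ?_) t) (by linarith)
  rw [l1, eq_div_of_mul_eq (by positivity) l2, eq_div_of_mul_eq (by positivity) l3]
  simp only [Dat.x, Dat.tp, Dat.th, div_mul_div_comm, ← sum_div]
  ring

theorem finL_sound {W p J K B a n j : ℕ} {T : Trm} {g : ℕ → ℕ → ℝ} (h : TOk W p J T K g ε)
    (hf : finL W p K e B T a n = true) (he : e + 1 ≤ W) (hK : K + 2 ^ (e + 2) ≤ 2 ^ W)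
    (hp : p * 2 ^ e + 1 < 2 ^ W) (h1 : a ≤ j) (h2 : j < a + n) (hj : j < J) :
    ∑ m ∈ range p, |g j m| ≤ B + p * ε := by
  obtain ⟨y, y1, v, v1, v2⟩ := h j hj 0 _ 0 _ 0 (apx_nil W p) (allR_spec hf j h1 h2)
  rw [zero_add] at v1
  obtain ⟨z, z1, z2, z3⟩ := tight_sound y1 v1 he hK
  have t1 : ∑ m ∈ range p, |(v m : ℝ)| ≤ dsum W (vabs W e p z) + p := by
    exact_mod_cast abs_sum_le z2 z3 he hp
  have t2 : (dsum W (vabs W e p z) : ℝ) + p ≤ B := by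
    exact_mod_cast Nat.le_of_ble_eq_true z1
  have t3 := sum_const_le (n := p) (f := fun m => |g j m| - |(v m : ℝ)|) (c := ε) fun m hm => by
    have := v2 m hm
    simp only [zero_add] at this
    exact (abs_sub_abs_le_abs_sub _ _).trans (by rwa [abs_sub_comm])
  rw [sum_sub_distrib] at t3
  linarith

/-- A sum over all members of a function that lives on one angular index. -/
theorem sum_blk {b : ℕ} (h1 : A.b0 ≤ b) (h2 : b < A.b0 + A.nq) {f : ℕ → ℝ}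
    (hf : ∀ m < A.N, (A.mem m).1 ≠ b → f m = 0) :
    ∑ m ∈ range A.N, f m = ∑ m ∈ range (tot A.J 1 b), f (A.st b + m) := by
  rw [← sum_image (s := range (tot A.J 1 b)) (g := fun m => A.st b + m) (f := f)
    fun _ _ _ _ => Nat.add_left_cancel]
  refine (sum_subset (fun m hm => ?_) fun m hm hn => hf m (mem_range.1 hm) fun e => hn ?_).symm
  · obtain ⟨n, n1, rfl⟩ := mem_image.1 hm
    exact mem_range.2 (Lay.mem_st h1 h2 (mem_range.1 n1)).1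
  · obtain ⟨n, n1, n2⟩ := Lay.st_of (q := 1) (mem_range.1 hm) h1 e.ge (by omega)
    exact mem_image.2 ⟨n, mem_range.2 n1, n2.symm⟩

/-- The rows of the Gram matrix. -/
theorem gt_all {l B w : ℕ} (h : Til P T0 T1 dg M R C A A G x x κ ε)
    (hJ : JobG (gchk P K0 l e B S T0 T1 dg M R C A) A) (hS : S.Ok P.W P.E4)
    (hK : K0 = S.c * S.K + l) (he : e + 1 ≤ P.W) (h0 : K0 + 2 ^ (e + 2) ≤ 2 ^ P.W)
    (hw : wid A w = true) (hp : w * 2 ^ e + 1 < 2 ^ P.W) (hl : 0 < l) (l1 : S.val * κ = l)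
    (hε : 0 ≤ ε) (hη : B + w * (S.c / 2 ^ S.s * ε + 1) ≤ l * η)
    (hz : ∀ j < A.N, ∀ k < A.N, (A.mem k).1 ≠ (A.mem j).1 → pr6 G (x (A.mem j)) (x (A.mem k)) = 0)
    {j : ℕ} (hj : j < A.N) :
    ∑ k ∈ range A.N, |pr6 G (x (A.mem j)) (x (A.mem k)) - if j = k then 1 else 0| ≤ η := by
  have hl' : (0 : ℝ) < l := by exact_mod_cast hl
  obtain ⟨a1, a2, a3⟩ := Lay.mem_spec hj
  rw [sum_blk a1.1 a1.2.1 fun k hk hn => by
    rw [hz j hj k hk hn, if_neg fun e => hn (by rw [e]), sub_zero, abs_zero]]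
  have t := hJ (2 * ((A.mem j).1 - A.b0) + (A.mem j).2.1) (by obtain ⟨_, _, _⟩ := a1; omega)
  rw [JobD, show A.b0 + (2 * ((A.mem j).1 - A.b0) + (A.mem j).2.1) / 2 = (A.mem j).1 by
    obtain ⟨_, _, _⟩ := a1; omega, show (2 * ((A.mem j).1 - A.b0) + (A.mem j).2.1) % 2 =
    (A.mem j).2.1 by obtain ⟨_, _, _⟩ := a1; omega] at t
  obtain ⟨_, a, n, c1, c2, hf⟩ := t _ a2
  generalize (A.mem j).1 = b, (A.mem j).2.1 = y, (A.mem j).2.2 = i at a1 a2 a3 c1 c2 hf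
  obtain ⟨f1, f2⟩ := (bnd_iff _ _).1 hf
  obtain ⟨t, t1, t2⟩ := h.row a1 f1 f2 hS
  have hw : tot A.J 1 b ≤ w := Nat.le_of_ble_eq_true (allR_spec hw b a1.1 a1.2.1)
  have e1 : A.pos b y i = A.st b + (enc A.J b b y 0 + i) := by
    simp only [Lay.pos, Lay.st, enc, Nat.sub_self, tot, zero_add, add_zero]
  have e2 : enc A.J b b y 0 + A.J b y ≤ tot A.J 1 b := by
    have := a1.2.2
    simp only [enc, Nat.sub_self, tot]
    interval_cases y <;> simp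
  have t3 := finL_sound (t2.seq (tI_ok (c := l) (by omega) e2)) (hK ▸ t1) he (hK ▸ h0)
    (lt_of_le_of_lt (by gcongr) hp) c1 c2 a2
  have t4 : (tot A.J 1 b : ℝ) * (S.c / 2 ^ S.s * ε + 1) ≤ w * (S.c / 2 ^ S.s * ε + 1) :=
    mul_le_mul_of_nonneg_right (by exact_mod_cast hw) (by positivity)
  refine le_of_mul_le_mul_left (le_trans (le_of_eq ?_) (t3.trans (by linarith))) hl'
  rw [mul_sum]
  refine sum_congr rfl fun m _ => ?_
  rw [a3, l1, ← abs_of_pos hl', ← abs_mul, abs_of_pos hl', ← a3, e1]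
  simp only [Nat.add_left_cancel_iff, eq_comm (a := m)]
  split_ifs <;> ring_nf

section hat

variable {L : Lyap} {T : Tab L} {U W : Vc} {ov ou : Sc}

/-- The field `tp` of `Hat`. -/
theorem hat_tp (h : Six T U W ov ou) {a : Fin L.r} {v : V6} {θ : Vc} {t : ℝ} (hθ : L.θ a = θ)
    (hv : Xb mP v) (k : |pr6 (trG (oG ov ou (G1 U W))) (xT θ) v - t| ≤ η) :
    |pP T ov ou a (v false) (v true) - t| ≤ η := by
  rwa [h.pP_eq a hv, ← pr6_trG, hθ]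

/-- The field `t0` of `Hat`. -/
theorem hat_t0 (h : Six T U W ov ou) {w : Vc} (hw : ∀ i, Sym (-2) (w i)) {v : V6} (hv : Xb mP v)
    {n : ℕ} {f : ℕ → ℝ} {t : ℝ}
    (k : |pr6 (trG (oG ov ou (G0 T.V T.B))) (xU w) v + ∑ i ∈ range n, f i - t| ≤ η) :
    |p0 T ov ou w (v false) (v true) + ∑ i : Fin n, f i - t| ≤ η := by
  rwa [h.p0_eq hw hv, ← pr6_trG, ← sum_range]

/-- Members with different angular indices are orthogonal. -/
theorem off_zero (w : Wt ov ou) (rv : Rd ov) (ru : Rd ou) (hx : ∀ r < A.N, Xb mP (x (A.mem r)))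
    (hI : ∀ b y, A.Has b y → ∀ j < A.J b y, ∃ e y' R, Is e y' (2 * b) R (x (b, y, j))) :
    ∀ j < A.N, ∀ k < A.N, (A.mem k).1 ≠ (A.mem j).1 →
      pr6 (oI ov ou) (x (A.mem j)) (x (A.mem k)) = 0 := fun j hj k hk hn => by
  obtain ⟨_, _, _, h1⟩ := hI _ _ (Lay.mem_spec hj).1 _ (Lay.mem_spec hj).2.1
  obtain ⟨_, _, _, h2⟩ := hI _ _ (Lay.mem_spec hk).1 _ (Lay.mem_spec hk).2.1
  rw [← pr_six w (hx j hj) (hx k hk)]
  exact h1.pr_zero h2 (by omega) w rv ru (xb_pb.1 (hx j hj)) (xb_pb.1 (hx k hk))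

/-- The field `gram` of `Fam`. -/
theorem gram_of {α β : Type} [Fintype α] [Fintype β] (w : Wt ov ou) {n : ℕ} {v : ℕ → V6}
    (hx : ∀ r < n, Xb mP (v r))
    (k : ∀ j < n, ∑ m ∈ range n, |pr6 (oI ov ou) (v j) (v m) - if j = m then 1 else 0| ≤ η)
    (i : α ⊕ β ≃ Fin n) (t : α ⊕ β → ℝ) :
    nw ov (lc t (Sum.elim (fun b => v (i (.inl b)) false) fun s => v (i (.inr s)) false))
      + nw ou (lc t (Sum.elim (fun b => v (i (.inl b)) true) fun s => v (i (.inr s)) true))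
      ≤ (1 + η) * ∑ b, t b ^ 2 := by
  classical
  have e : ∀ a, (Sum.elim (fun b => v (i (.inl b)) a) fun s => v (i (.inr s)) a)
      = fun j => v (i j) a := fun a => funext fun j => by cases j <;> rfl
  rw [e, e]
  refine gram_of_rows w (fun j => xb_pb.1 (hx _ (i j).2)) (fun j => ?_) t
  refine le_of_eq_of_le ?_ (k _ (i j).2)
  rw [sum_range, ← i.sum_comp]
  refine sum_congr rfl fun m _ => ?_
  rw [pr_six w (hx _ (i j).2) (hx _ (i m).2)]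
  simp only [Fin.val_inj, i.injective.eq_iff]

end hat

end Pool.Agent.Work.MP_6bf1e5_an.H.Ps
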