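import Pool.Agent.Work.MP_6bf1e5_an.H.FinL1

/-! The level one inequality from finite data (owner helper52). -/

open scoped ContDiff ENNReal FourierTransform Real
open Set MeasureTheory Polynomial

namespace Pool.Agent.Work.MP_6bf1e5_an.H

variable {L : Lyap} {T : Tab L} {ι : Type} [Fintype ι] {u : ι → Vc} {Y : ι → ℕ → Vc}
  {W G P W' G' P' mv mu ov ou : Sc} {vth sp : ℝ}

/-- The tail gains the weight `PN` on the velocity. -/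
theorem tail_gain (n : ℕ) {c3 : ℝ} {φ : ℝ → ℝ} (hc : 0 ≤ c3) (hs : RadS φ) (hb : Sym (-2) (rad φ))
    (h0 : ∀ z, 0 ≤ z → 0 ≤ φ z) : Gain n (WW c3 φ) (WG c3 φ) (PN n c3 φ) :=
  Fn.gain_std n hc hs hb h0

theorem Gain.congr {n : ℕ} (h : Gain n W G P) (hW : ∀ y, W' y = W y) (hG : ∀ y, G' y = G y)
    (hP : ∀ y, P' y = P y) : Gain n W' G' P' :=
  Fn.gain_congr h hW hG hP

theorem Gain.lin {n : ℕ} (h : Gain n W G P) (h' : Gain n W' G' P') {a c : ℝ} (ha : 0 ≤ a)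
    (hc : 0 ≤ c) : Gain n (fun y => a * W y + c * W' y) (fun y => a * G y + c * G' y)
      fun y => a * P y + c * P' y :=
  Fn.gain_lin h h' ha hc

theorem core (hL : L.Good) (h : Fin2 T u Y W G P mv mu ov ou vth sp) : T.Core :=
  Fn.core hL h

theorem L1_of_fin (hL : L.Good) (h : Fin2 T u Y W G P mv mu ov ou vth sp) (hν : 0 ≤ T.ν)
    {U : Vc} (hU : ∀ i, Sym (-1 / 2) (U i)) {d db dp dq μ' e dk cb : ℝ}
    (hC : Close T U d db dp dq) (hdb : 0 ≤ db) (hdp : 0 ≤ dp) (hdq : 0 ≤ dq) (hμ' : 0 ≤ μ')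
    (hcb : 0 ≤ cb)
    (bes : ∀ v : Vc, (∀ i, Hinf (v i)) → ∑ a, ip v (L.θ a) ^ 2 ≤ cb ^ 2 * nw Om v)
    (he : 0 < e) (hk : dp + 7 / 2 * dq ≤ dk) (h1 : μ' * (1 + e) ≤ T.μ')
    (h3 : T.μ + 7 / 2 * db + cb * dk + μ' * (1 + 1 / e) * dk ^ 2 ≤ d) : L1 L T.ν U T.μ μ' :=
  Fn.L1_of_fin hL h hν hU hC hdb hdp hdq hμ' hcb bes he hk h1 h3

end Pool.Agent.Work.MP_6bf1e5_an.H
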