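import Pool.Agent.Work.MP_6bf1e5_an.H.GalFlat
import Pool.Agent.Work.MP_6bf1e5_an.H.PassT
import Pool.Agent.Work.MP_6bf1e5_an.H.CertSix
import Pool.Agent.Work.MP_6bf1e5_an.H.CertTf
import Pool.Agent.Work.MP_6bf1e5_an.H.SkFin
import Pool.Agent.Work.MP_6bf1e5_an.H.Cst0

/-! The objects of the finite problem and the assembly of the static estimates. -/

open scoped ContDiff ENNReal FourierTransform Real
open Set MeasureTheory

namespace Pool.Agent.Work.MP_6bf1e5_an.H.Ca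

open Pool.Agent.Lib.KBlk Gl Ps

noncomputable section

/-- The complement of the range. -/
abbrev Cp {S ϱ : Type} (f : S → ϱ) : Type := {r // r ∉ range f}

instance {S ϱ : Type} [Fintype ϱ] (f : S → ϱ) : Fintype (Cp f) := Fintype.ofFinite _

open Classical in
/-- A type is the range of an injective map and the rest. -/
def sumEq {S ϱ : Type} {f : S → ϱ} (h : Function.Injective f) : Cp f ⊕ S ≃ ϱ :=
  ((Equiv.refl _).sumCongr (Equiv.ofInjective f h)).trans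
    ((Equiv.sumComm _ _).trans (Equiv.sumCompl (· ∈ range f)))

/-- The members of a family. -/
def In (A : Lay) (d : Ix) : Prop := A.Has d.1 d.2.1 ∧ d.2.2 < A.J d.1 d.2.1

/-- The position of a member. -/
def ps (A : Lay) (d : Ix) : ℕ := A.pos d.1 d.2.1 d.2.2

/-- Every block of `A` is an initial part of a block of `B`. -/
def Sub (A B : Lay) : Prop := ∀ b y, A.Has b y → B.Has b y ∧ A.J b y ≤ B.J b y

theorem mem_in {A : Lay} {j : ℕ} (h : j < A.N) : In A (A.mem j) :=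
  ⟨(Lay.mem_spec h).1, (Lay.mem_spec h).2.1⟩

theorem In.ps {A : Lay} {d : Ix} (h : In A d) : ps A d < A.N ∧ A.mem (ps A d) = d :=
  Lay.mem_pos h.1 h.2

theorem In.sub {A B : Lay} {d : Ix} (h : In A d) (k : Sub A B) : In B d :=
  ⟨(k _ _ h.1).1, h.2.trans_le (k _ _ h.1).2⟩

/-- A map of members as a map of positions. -/
def mp {A B : Lay} (f : Ix → Ix) (h : ∀ d, In A d → In B (f d)) (a : Fin A.N) : Fin B.N :=
  ⟨ps B (f (A.mem a)), (h _ (mem_in a.2)).ps.1⟩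

/-- The data. The family `As` consists of the big members; their pairs `om` are the last members
of the blocks of tests. -/
structure Obj where
  D : Dat
  As : Lay
  n : ℕ
  ξ : Ix → ℝ → ℝ
  θ : Ix → Vc
  x : Ix → V6
  β : Ix → ℝ
  (V B : Mc)
  (U W : Vc)
  (ov ou : Sc)
  (μ μ' : ℝ)
  ok : D.Ok
  sh : Sub As D.Ah
  st : Sub As D.At
  sr : As.N ≤ 16 * D.cR D.nm

namespace Obj

variable (O : Obj)

abbrev N : ℕ := O.D.Am.N

abbrev NF : ℕ := O.D.Ah.N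

abbrev Nt : ℕ := O.D.At.N

abbrev NS : ℕ := O.As.N

@[reducible] def L : Lyap :=
  ⟨O.NF, fun a => O.θ (O.D.Ah.mem a), fun a b => O.D.f a b, fun i a => O.D.z i a, κ0⟩

@[reducible] def T : Tab O.L :=
  ⟨1 / 64, O.μ, O.μ', O.n, O.V, O.B, fun a => kp O.U (O.L.θ a), fun a => kqW O.W (O.L.θ a)⟩

/-- The pairs of the modes and of the test fields of the functional. -/
def xm (d : Ix) : V6 := xU (uD O.ξ d)

def xh (d : Ix) : V6 := xT (O.θ d)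

/-- The graded parts. -/
def gr (d : Ix) : ℕ → Vc := (mdD O.D.Am.J O.ξ d).gr

def u (j : Fin O.N) : Vc := uD O.ξ (O.D.Am.mem j)

def Y (j : Fin O.N) : ℕ → Vc := O.gr (O.D.Am.mem j)

def xv (r : Fin O.Nt) : Vc := O.x (O.D.At.mem r) false

def xu (r : Fin O.Nt) : Vc := O.x (O.D.At.mem r) true

/-- The member of the tests that belongs to a big member. -/
def om (d : Ix) : Ix := (d.1, d.2.1, O.D.At.J d.1 d.2.1 - O.As.J d.1 d.2.1 + d.2.2)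

def bg : Fin O.NS → Fin O.NF := mp id fun _ h => h.sub O.sh

def po : Fin O.NS → Fin O.Nt := mp O.om fun d h => ⟨(O.st _ _ h.1).1, by
  have := h.2
  have := (O.st _ _ h.1).2
  simp only [om]
  omega⟩

def bs (s : Fin O.NS) : ℝ := (O.β (O.As.mem s))⁻¹

/-- The matrix of the local form. -/
def Q (kp : ℝ) (j k : ℕ) : ℝ :=
  pr6 (QM O.V O.B O.ov O.ou kp 1) (O.xm (O.D.Am.mem j)) (O.xm (O.D.Am.mem k))

def hat (kp : ℝ) := O.D.hat O.ok O.L rfl fun j k => O.Q kp j k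

end Obj

end

theorem mem_inj {A : Lay} {j k : ℕ} (hj : j < A.N) (hk : k < A.N) (e : A.mem j = A.mem k) :
    j = k := by rw [← (Lay.mem_spec hj).2.2, ← (Lay.mem_spec hk).2.2, e]

theorem sum_sel {J ι : Type} [Fintype J] [DecidableEq ι] {lo : J → ι} (h : Function.Injective lo)
    {φ : J → ℝ} {ψ : ι → ℝ} (h1 : ∀ b, ψ (lo b) = φ b) (h2 : ∀ j, (∀ b, lo b ≠ j) → ψ j = 0)
    (j : ι) : ψ j = ∑ b, φ b * sel lo b j := by
  by_cases k : ∃ b, lo b = j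
  · obtain ⟨b, rfl⟩ := k
    rw [Finset.sum_eq_single b (fun c _ e => by rw [sel, if_neg (h.ne e), mul_zero]) (by simp), h1,
      sel, if_pos rfl, mul_one]
  · rw [h2 j fun b e => k ⟨b, e⟩, Finset.sum_eq_zero fun b _ => by
      rw [sel, if_neg fun e => k ⟨b, e⟩, mul_zero]]

section

variable {A B : Lay} {f : Ix → Ix} (h : ∀ d, In A d → In B (f d))

theorem mem_mp (a : Fin A.N) : B.mem (mp f h a) = f (A.mem a) := (h _ (mem_in a.2)).ps.2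

theorem mp_inj (hf : Function.Injective f) : Function.Injective (mp f h) := fun a b e =>
  Fin.ext (mem_inj a.2 b.2 (hf (by rw [← mem_mp h, ← mem_mp h, e])))

theorem mp_mem {d : Ix} (hd : In A d) {r : Fin B.N} (e : B.mem r = f d) : r ∈ range (mp f h) :=
  ⟨⟨_, hd.ps.1⟩, Fin.ext (mem_inj (mp f h _).2 r.2 (by rw [mem_mp, e, hd.ps.2]))⟩

end

namespace Obj

variable {O : Obj} {g τ : ℝ} {mv mu : Sc}

theorem bg_inj : Function.Injective O.bg := mp_inj _ Function.injective_id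

theorem po_inj : Function.Injective O.po := mp_inj _ fun ⟨_, _, _⟩ ⟨_, _, _⟩ e => by
  simp only [om, Prod.mk.injEq] at e
  obtain ⟨rfl, rfl, e⟩ := e
  rw [Nat.add_left_cancel e]

theorem mem_bg (s : Fin O.NS) : O.D.Ah.mem (O.bg s) = O.As.mem s := mem_mp _ s

theorem mem_po (s : Fin O.NS) : O.D.At.mem (O.po s) = O.om (O.As.mem s) := mem_mp _ s

/-- The tests and the pairs `om`. -/
noncomputable def e (O : Obj) : Cp O.po ⊕ Fin O.NS ≃ Fin O.Nt := sumEq po_inj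

/-- The rows of the factor. -/
noncomputable def e' (O : Obj) : Cp (Fin.castLE O.sr) ⊕ Fin O.NS ≃ Fin (16 * O.D.cR O.D.nm) :=
  sumEq (Fin.castLE_injective O.sr)

/-- The properties of the families and of the tables. -/
structure Ok (O : Obj) (mv mu : Sc) (g τ : ℝ) : Prop where
  hn : 1 ≤ O.n
  b0 : O.D.Am.b0 = 1
  mds : Mds O.n (O.D.Am.nq + 1) O.D.Am.J O.ξ
  sθ : ∀ d, In O.D.Ah d → ∀ i, Sym (-3) (O.θ d i)
  lθ : ∀ d, In O.D.Ah d → Test (3 / 4) O.n (O.θ d)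
  sF : ∀ a < O.NF, ∀ b < O.NF, O.D.f a b = O.D.f b a
  bV : ∀ i j, Bd (-2) (O.V i j)
  sV : ∀ i j, O.V i j = O.V j i
  bB : ∀ i j, Bd (-3) (O.B i j)
  bU : ∀ i, Bd 0 (O.U i)
  bW : ∀ i, Bd 0 (O.W i)
  wv : Bd (-2) mv ∧ Bd 2 O.ov ∧ ∀ᵐ y, 0 < O.ov y ∧ 1 ≤ mv y * O.ov y
  wu : Bd (-4) mu ∧ Bd 4 O.ou ∧ ∀ᵐ y, 0 < O.ou y ∧ 1 ≤ mu y * O.ou y
  pb : ∀ d, In O.D.At d → Pb (O.x d false) (O.x d true)
  null : ∀ d, In O.D.At d → (O.As.Has d.1 d.2.1 → d.2.2 + O.As.J d.1 d.2.1 < O.D.At.J d.1 d.2.1) →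
    Null O.n (O.x d false) (O.x d true)
  big : ∀ d, In O.As d → O.β d ≠ 0 ∧
    Null O.n (fun i y => O.x (O.om d) false i y - O.β d * O.θ d i y) (O.x (O.om d) true)
  small : ∃ e : Ix → ℝ, (∀ d, 0 ≤ e d) ∧ ∑ a ∈ Finset.range O.NF, e (O.D.Ah.mem a) ≤ τ ∧
    ∀ d, In O.D.Ah d → ¬In O.As d → TL O.n O.ov O.ou (O.θ d) 0 (e d)
  gram : ∀ j < O.Nt, ∑ m ∈ Finset.range O.Nt, |pr6 (oI O.ov O.ou) (O.x (O.D.At.mem j))
    (O.x (O.D.At.mem m)) - if j = m then 1 else 0| ≤ g - 1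

/-- The results of the passes. -/
structure Rs (O : Obj) (t : HatT) : Prop where
  sy1 : ∀ a < O.NF, ∀ j < O.N, (∀ b < O.NF, O.D.lo b ≠ j) → O.D.x (16 + a) j = 0
  sy2 : ∀ i < 2, ∀ b < O.NF, O.D.x (2 + i) (O.D.lo b) = O.D.z i b
  sy3 : ∀ i < 2, ∀ j < O.N, (∀ b < O.NF, O.D.lo b ≠ j) → O.D.x (2 + i) j = 0
  tp : ∀ a < O.NF, ∀ r < O.Nt, |pr6 (trG (oG O.ov O.ou (G1 O.U O.W))) (O.xh (O.D.Ah.mem a))
    (O.x (O.D.At.mem r)) - O.D.tp (16 + a) r| ≤ t.eP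
  zt0 : ∀ i < 2, ∀ r < O.Nt,
    |∑ a ∈ Finset.range O.NF, O.D.z i a * O.D.tp (16 + a) r - O.D.tp i r| ≤ t.eP
  zt1 : ∀ h < 16 * O.D.c1, 2 ≤ h → h < 16 ∨ 16 + O.NF ≤ h → ∀ r < O.Nt, |O.D.tp h r| ≤ t.eP
  t0 : ∀ j < O.N, ∀ r < O.Nt, |pr6 (trG (oG O.ov O.ou (G0 O.V O.B))) (O.xm (O.D.Am.mem j))
    (O.x (O.D.At.mem r)) + ∑ h ∈ Finset.range (16 * O.D.c1), O.D.x h j * O.D.tp h r - O.D.th r j|
      ≤ t.eT
  pp : ∀ a < O.NF, ∀ b < O.NF, |wo O.D.Ah.pan a b * pr6 (tG O.ov O.ou (G1 O.U O.W) (G1 O.U O.W))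
    (O.xh (O.D.Ah.mem a)) (O.xh (O.D.Ah.mem b)) - O.D.u (16 + a) b| ≤ t.eU
  zu0 : ∀ i < 2, ∀ b < O.NF,
    |∑ a ∈ Finset.range O.NF, O.D.z i a * O.D.u (16 + a) b - O.D.u i b| ≤ t.eU
  zu1 : ∀ h < 16 * O.D.c1, 2 ≤ h → h < 16 ∨ 16 + O.NF ≤ h → ∀ b < O.NF, |O.D.u h b| ≤ t.eU
  kk : ∀ a < O.NF, ∀ j < O.N,
    |pr6 (trG (G1 O.U O.W)) (O.xh (O.D.Ah.mem a)) (O.xm (O.D.Am.mem j))
      + 1 / 64 * ip (LamV (curl (uD O.ξ (O.D.Am.mem j)))) (O.θ (O.D.Ah.mem a)) - O.D.k (16 + a) j|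
      ≤ t.eK
  ll : ∀ a < O.NF, ∀ j < O.N, |t.kp * O.D.k (16 + a) j - t.kp * O.μ * sel O.D.lo a j
    - 2 * pr6 (tG O.ov O.ou (G1 O.U O.W) (G0 O.V O.B)) (O.xh (O.D.Ah.mem a)) (O.xm (O.D.Am.mem j))
    - ∑ h ∈ Finset.range (16 * O.D.c1), O.D.u h a * O.D.x h j - O.D.la (16 + a) j| ≤ t.eL
  zk : ∀ i < 2, ∀ j < O.N,
    |2 * O.μ' * ∑ a ∈ Finset.range O.NF, O.D.z i a * O.D.k (16 + a) j + O.D.x i j| ≤ t.eZ
  zl0 : ∀ i < 2, ∀ j < O.N, |∑ a ∈ Finset.range O.NF, O.D.z i a * O.D.la (16 + a) j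
    + (t.kp * O.μ * O.D.x (2 + i) j + t.kp / (4 * O.μ') * O.D.x i j) - O.D.la i j| ≤ t.eL
  zl1 : ∀ i < 2, ∀ j < O.N, |-(2 * t.kp * O.μ) * O.D.x (2 + i) j - O.D.la (2 + i) j| ≤ t.eL
  zl2 : ∀ h < 16 * O.D.c1, 4 ≤ h → h < 16 ∨ 16 + O.NF ≤ h → ∀ j < O.N, |O.D.la h j| ≤ t.eL
  vy : ∀ d, In O.As d → ∀ j < O.N, |t.c1 ^ 2 * ((O.β d)⁻¹ *
      (∑ a ∈ Finset.range O.NF, O.D.f (ps O.D.Ah d) a * O.D.k (16 + a) j
        - 2 * O.μ * (O.D.x (16 + ps O.D.Ah d) j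
          + 2 * ∑ i ∈ Finset.range 2, O.D.z i (ps O.D.Ah d) * O.D.x (2 + i) j)))
    + O.D.th (ps O.D.At (O.om d)) j - t.c1 * O.D.r (ps O.As d) j| ≤ t.eY
  mm : ∀ j < O.N, ∀ k < O.N, (O.D.Am.mem j).1 ≤ (O.D.Am.mem k).1 → |O.Q t.kp j k
    + t.kp * (1 / 64) * ((mD O.n (O.gr (O.D.Am.mem j)) (O.gr (O.D.Am.mem k))
      + mD O.n (O.gr (O.D.Am.mem k)) (O.gr (O.D.Am.mem j))) / 2)
    + t.ρ * ∑ r ∈ Finset.range O.Nt, O.D.th r j * O.D.th r k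
    + (∑ h ∈ Finset.range (16 * O.D.c1), O.D.x h j * O.D.la h k
      + ∑ h ∈ Finset.range (16 * O.D.c1), O.D.la h j * O.D.x h k) / 2
    - ∑ r ∈ Finset.range (16 * O.D.cR O.D.nm), O.D.r r j * O.D.r r k - if j = k then t.sh else 0|
      ≤ t.eM
  z1 : ∀ i < 2, ∑ a ∈ Finset.range O.NF, |O.D.z i a| ≤ t.z1
  x1 : 0 ≤ t.x1 ∧ ∑ j ∈ Finset.range O.N, (∑ h ∈ Finset.range (16 * O.D.c1), |O.D.x h j|
    + t.z1 * ∑ i ∈ Finset.range 2, |O.D.x i j|) ^ 2 ≤ t.x1 ^ 2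
  nF : Nm O.L.F t.f
  nZ : Nm O.L.Z t.nZ
  nK : Nm (fun (a : Fin O.NF) (j : Fin O.N) => O.D.k (16 + a) j) t.nK
  nU : Nm (fun a b : Fin O.NF => O.D.u (16 + a) b) t.nU
  nb : 0 ≤ t.b ∧ ∀ d, In O.As d → |(O.β d)⁻¹| ≤ t.b
  hG : Nm (fun (a : Fin O.NF) (j : Fin O.N) => mom (O.L.θ a) (O.u j) - sel O.D.lo a j) t.dG

namespace Ok

variable (h : O.Ok mv mu g τ)

include h

theorem good : O.L.Good :=
  ⟨fun a => h.sθ _ (mem_in a.2), fun a b => h.sF a a.2 b b.2, by norm_num [κ0]⟩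

theorem six : Six O.T O.U O.W O.ov O.ou :=
  ⟨h.good, h.bV, h.sV, h.bB, h.bU, h.bW, fun _ => rfl, fun _ => rfl, wt_of h.wv h.wu⟩

theorem gal : Gal O.n O.u O.Y := by
  have k := dec_skip (h.mds.sz 0 (by omega) 0 (by omega)) (h.mds.sz 0 (by omega) 1 (by omega))
    O.D.Am.nq
  have e : O.N = tot O.D.Am.J (O.D.Am.nq + 1) 0 := by rw [(k 0).1, ← h.b0, N, Lay.N]
  have := h.mds.gal.comp (finCongr e).bijective
  have e2 : ∀ j, dec O.D.Am.J O.D.Am.nq 1 j = O.D.Am.mem j := fun j => by rw [Lay.mem, h.b0]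
  simp only [finCongr_apply, Fin.val_cast, (k _).2, e2] at this
  exact this

theorem xb (r : Fin O.Nt) : Xb mP (O.x (O.D.At.mem r)) := xb_pb.2 (h.pb _ (mem_in r.2))

theorem fam : Fam O.T O.u O.Y O.ov O.ou (fun b => O.xv (O.e (.inl b))) (fun b => O.xu (O.e (.inl b)))
    (fun s => O.xv (O.e (.inr s))) (fun s => O.xu (O.e (.inr s))) O.bg O.bs g τ := by
  refine ⟨h.good, h.bV, h.bB, fun a => (h.six.pb a).1, fun a => (h.six.pb a).2, h.gal, h.six.wt,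
    fun b => h.null _ (mem_in b.1.2) fun k1 => ?_, fun s => h.pb _ (mem_in (O.po s).2), bg_inj,
    fun s => ?_, ?_, fun t => ?_⟩
  · have k := mem_in b.1.2
    have k2 := fun (d : Ix) hd q => b.2 (mp_mem (r := b.1) _ (d := d) hd q)
    change O.As.Has (O.D.At.mem b.1).1 (O.D.At.mem b.1).2.1 at k1
    change (O.D.At.mem b.1).2.2 + O.As.J (O.D.At.mem b.1).1 (O.D.At.mem b.1).2.1 <
      O.D.At.J (O.D.At.mem b.1).1 (O.D.At.mem b.1).2.1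
    generalize O.D.At.mem b.1 = q at k k1 k2
    by_contra hc
    have k3 := k.2
    have k4 := (O.st _ _ k1).2
    refine k2 (q.1, q.2.1, q.2.2 + O.As.J q.1 q.2.1 - O.D.At.J q.1 q.2.1) ⟨k1, ?_⟩
      (Prod.ext rfl (Prod.ext rfl ?_)) <;> simp only [om] <;> omega
  · obtain ⟨k1, k2⟩ := h.big _ (mem_in s.2)
    have := Null.lc (fun _ : Unit => O.bs s) fun _ => k2
    convert this using 1 <;> funext i y
    · simp only [lc, Finset.univ_unique, Finset.sum_singleton, bs, mul_sub, inv_mul_cancel_left₀ k1,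
        mem_bg, ← mem_po]
      rfl
    · simp only [lc, Finset.univ_unique, Finset.sum_singleton, ← mem_po]
      rfl
  · obtain ⟨q, q0, q1, q2⟩ := h.small
    refine ⟨fun a => q (O.D.Ah.mem a), fun _ => q0 _, by rwa [Finset.sum_range] at q1,
      fun a ha => q2 _ (mem_in a.2) fun hc => ?_⟩
    obtain ⟨s, hs⟩ := mp_mem (f := id) _ hc (r := a) rfl
    exact ha s hs
  · have k := gram_of h.six.wt (fun r hr => h.xb ⟨r, hr⟩) h.gram O.e t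
    rwa [add_sub_cancel] at k

theorem hat {t : HatT} (p : O.Rs t) :
    Hat O.T O.u O.Y O.ov O.ou O.xv O.xu O.e O.e' O.bg O.bs (O.hat t.kp) t := by
  have il : Function.Injective (O.hat t.kp).lo := fun a b e => Fin.ext (mem_inj a.2 b.2 (by
    rw [← (O.ok.lo_mem a.2).2, ← (O.ok.lo_mem b.2).2]
    exact congrArg (fun j : Fin O.N => O.D.Am.mem j) e))
  have es : ∀ a j, sel (O.hat t.kp).lo a j = sel O.D.lo a j := fun a j => by
    simp only [sel, Fin.ext_iff]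
    rfl
  have nl : ∀ j, (∀ b, (O.hat t.kp).lo b ≠ j) → ∀ b < O.NF, O.D.lo b ≠ j := fun j k b hb e =>
    k ⟨b, hb⟩ (Fin.ext e)
  have s1 := fun (a : Fin O.NF) => sum_sel il (φ := O.L.F a) (ψ := fun j => O.D.x (16 + a) j)
    (fun _ => rfl) fun j k => p.sy1 a a.2 j j.2 (nl j k)
  have s2 := fun (i : Fin 2) => sum_sel il (φ := O.L.Z i) (ψ := fun j => O.D.x (2 + i) j)
    (fun b => p.sy2 i i.2 b b.2) fun j k => p.sy3 i i.2 j j.2 (nl j k)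
  have pd : ∀ q, (O.hat t.kp).Pad q → 4 ≤ q.1 ∧ (q.1 < 16 ∨ 16 + O.NF ≤ q.1) := fun q k => by
    have k0 := fun i => Fin.val_ne_of_ne (k.2.1 i)
    have k1 := fun i => Fin.val_ne_of_ne (k.2.2 i)
    have a0 : 0 ≠ q.1 := k0 0
    have a1 : 1 ≠ q.1 := k0 1
    have a2 : 2 ≠ q.1 := k1 0
    have a3 : 3 ≠ q.1 := k1 1
    refine ⟨by omega, not_and_or.1 (fun c => k.1 ⟨q - 16, ?_⟩ (Fin.ext ?_)) |>.imp not_le.1 not_lt.1⟩
    · show _ < O.NF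
      omega
    · show 16 + (q - 16) = q.1
      omega
  have z1 : ∀ i : Fin 2, 2 + i.1 < 16 * O.D.c1 ∧ 2 + i.1 < 16 := fun i => by
    have := O.ok.n1
    omega
  have su := h.gal.sym
  refine ⟨il, ?_, s1, s2, fun a r => ?_, fun i r => ?_,
    fun i r => p.zt1 _ (z1 i).1 le_self_add (.inl (z1 i).2) r r.2,
    fun q k r => p.zt1 _ q.2 (by have := (pd q k).1; omega) (pd q k).2 r r.2, fun j r => ?_,
    fun a b => ?_, fun i b => ?_, fun i r => p.zu1 _ (z1 i).1 le_self_add (.inl (z1 i).2) r r.2,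
    fun q k r => p.zu1 _ q.2 (by have := (pd q k).1; omega) (pd q k).2 r r.2, fun a j => ?_,
    fun a j => ?_, fun i j => ?_, fun i j => ?_, fun i j => p.zl1 i i.2 j j.2,
    fun q k j => p.zl2 _ q.2 (pd q k).1 (pd q k).2 j j.2, fun s j => ?_, fun j k o => ?_,
    fun j k => h.six.Q_symm .., fun c => ?_, fun i => ?_, ⟨p.x1.1, ?_⟩, p.nF, p.nZ, p.nK, p.nU,
    ⟨p.nb.1, fun s => p.nb.2 _ (mem_in s.2)⟩, p.hG.congr fun a j => by rw [es]⟩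
  · rintro (a | i | i) (b | j | j) e <;> have e' := congrArg Fin.val e <;>
      simp only [Sum.elim_inl, Sum.elim_inr, Obj.hat, Dat.hat] at e' <;>
      first | omega | (congr; omega)
  · rw [xv, xu, h.six.pP_eq a (h.xb r), ← pr6_trG]
    exact p.tp a a.2 r r.2
  · have q := p.zt0 i i.2 r r.2
    simp only [Finset.sum_range] at q
    exact q
  · rw [xv, xu, h.six.p0_eq (su j) (h.xb r), ← pr6_trG]
    have q := p.t0 j j.2 r r.2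
    simp only [Finset.sum_range] at q
    exact q
  · rw [h.six.pPP_eq]
    exact p.pp a a.2 b b.2
  · have q := p.zu0 i i.2 b b.2
    simp only [Finset.sum_range] at q
    exact q
  · rw [h.six.k_eq a (su j), ← pr6_trG, add_comm]
    exact p.kk a a.2 j j.2
  · rw [h.six.pL_eq a (su j), es]
    have q := p.ll a a.2 j j.2
    simp only [Finset.sum_range] at q
    exact q
  · have q := p.zk i i.2 j j.2
    simp only [Finset.sum_range] at q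
    exact q
  · have q := p.zl0 i i.2 j j.2
    simp only [Finset.sum_range] at q
    exact q
  · rw [Fh_vec, ← s1]
    simp only [← s2]
    have := p.vy _ (mem_in s.2) j j.2
    rw [show ps O.As (O.As.mem s) = s from (Lay.mem_spec s.2).2.2] at this
    simp only [Finset.sum_range] at this
    exact this
  · have q := p.mm j j.2 k k.2 o
    simp only [Finset.sum_range, Fin.val_inj] at q
    exact q
  · exact ((h.six.Q_eq su t.kp 1 c).trans (by rw [one_mul])).le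
  · have q := p.z1 i i.2
    simp only [Finset.sum_range] at q
    exact q
  · have q := p.x1.2
    simp only [Finset.sum_range] at q
    exact q

/-- The field `psd` from the passes. -/
theorem psd {t : HatT} (p : O.Rs t) (k : t.Ok O.μ' O.N O.NF O.Nt O.NS)
    (k' : (t.tol O.μ').Ok (t.kp * (1 + t.s) / 4) (1 / 64) O.μ O.μ' g τ) (c : Fin O.N → ℝ) :
    ∃ η η', Null O.n η η' ∧ nw O.ov (O.T.hV (lc c O.u) - η) + nw O.ou (O.T.hU (lc c O.u) - η')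
      ≤ 4 * (t.kp * (1 + t.s) / 4) * O.T.M0 (lc c O.u) fun k => lc c fun j => O.Y j k := by
  have k1 : (Fintype.card (Cp O.po) : ℝ) ≤ O.Nt := by
    exact_mod_cast (Fintype.card_subtype_le _).trans_eq (Fintype.card_fin _)
  obtain ⟨E, hE⟩ := (h.hat p).pass bg_inj (by
    rw [Fintype.card_fin, Fintype.card_fin]
    exact ⟨k.1, k.2.1, k.2.2.1, k.2.2.2.1, k.2.2.2.2.1, k1.trans k.2.2.2.2.2.1, k.2.2.2.2.2.2⟩)
  exact psd_of_pass h.fam hE k' c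

/-- The field `l1` of `Static`. -/
theorem l1 {W G P : Sc} {vth sp d db du dw Cc cb μ' s : ℝ} {Ψ S : Vc} (gain : Gain O.n W G P)
    (lmi : LMI O.V O.B W G P mv mu)
    (tail : ∀ w, Adm w → (∀ i, Perp (9 / 4) (O.n + 1) (w i)) →
      -(vth * (nw mv (curl w) + nw mu w)) ≤ O.T.FF w) (hsp : 0 < sp ∧ sp + vth ≤ 1)
    (psd : ∀ c : Fin O.N → ℝ, ∃ η η', Null O.n η η' ∧
      nw O.ov (O.T.hV (lc c O.u) - η) + nw O.ou (O.T.hU (lc c O.u) - η')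
        ≤ 4 * sp * O.T.M0 (lc c O.u) fun k => lc c fun j => O.Y j k)
    (pot : Pot (-1 / 2) Ψ S)
    (cV : ∀ᵐ y, ∀ q : Fin 3 → ℝ, ∑ i, ∑ j, q i * O.V i j y * q j + d * Om y * ∑ i, q i ^ 2 ≤
      ∑ i, ∑ j, q i * AA (fld Ψ S) i j y * q j
        + 1 / 64 * (lamS O.n * Op (5 / 2) y - cnS O.n * Op (3 / 2) y) * ∑ i, q i ^ 2)
    (cB : ∀ᵐ y, ∑ i, ∑ j, (BB (curl (fld Ψ S)) i j y - O.B i j y) ^ 2 ≤ db ^ 2 * Om y ^ 3)
    (cU : ∀ᵐ y, ∑ i, (fld Ψ S i y - O.U i y) ^ 2 ≤ du ^ 2 * Op (1 / 2) y)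
    (cW : ∀ᵐ y, ∑ i, (curl (fld Ψ S) i y - O.W i y) ^ 2 ≤ dw ^ 2 * Op (3 / 2) y)
    (hc : ∑ a, nw (Op (-1 / 2)) (curl (O.L.θF a)) + ∑ a, nw (Op (-1 / 2)) (curl (O.L.θZ a))
      ≤ Cc ^ 2)
    (bes : ∀ v : Vc, (∀ i, Hinf (v i)) → ∑ a, ip v (O.L.θ a) ^ 2 ≤ cb ^ 2 * nw Om v)
    (nn : 0 ≤ db ∧ 0 ≤ du ∧ 0 ≤ dw ∧ 0 ≤ Cc ∧ 0 ≤ cb ∧ 0 ≤ μ' ∧ 0 < s) (h1 : μ' * (1 + s) ≤ O.μ')
    (h3 : O.μ + 7 / 2 * db + cb * ((du + 7 / 2 * dw) * Cc)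
      + μ' * (1 + 1 / s) * ((du + 7 / 2 * dw) * Cc) ^ 2 ≤ d) :
    L1 O.L (1 / 64) (fld Ψ S) O.μ μ' := by
  obtain ⟨n1, n2, n3, n4, n5, n6, n7⟩ := nn
  exact L1_of_fin (T := O.T) h.good ⟨h.hn, gain, h.bV, h.sV, h.bB, h.fam.bP, h.fam.bQ, h.gal,
    fun a => h.lθ _ (mem_in a.2), lmi, h.wv, h.wu, tail, hsp, psd⟩ (by norm_num) (Dyn.pot_sym pot)
    ⟨cV, cB, close_P h.good cU hc, close_Q h.good cW hc⟩ n1 (by positivity) (by positivity) n6 n5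
    bes n7 (le_of_eq (by ring)) h1 h3

/-- The static estimates. -/
theorem static {Ψ S : Vc} {ψ s : Fin 2 → Vc} (hμ : K0.μ ≤ O.μ) (pot : Pot (-1 / 2) Ψ S)
    (potφ : ∀ k, Pot (-3) (ψ k) (s k)) (l1 : L1 O.L (1 / 64) (fld Ψ S) O.μ K0.μ')
    (pw0 : ∀ y, ∑ i, ∑ j, pd j (fld Ψ S i) y ^ 2 ≤ K0.b0 ^ 2 * Op (3 / 2) y)
    (pw1 : ∀ y, ∑ i, ∑ j, ∑ k, pd k (pd j (fld Ψ S i)) y ^ 2 ≤ K0.b1 ^ 2 * Om y)
    (pw2 : ∀ y, ∑ i, ∑ j, ∑ k, pd k (pd j (curl (fld Ψ S) i)) y ^ 2 ≤ K0.b2 ^ 2 * Om y ^ 2)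
    (pwθ : ∀ y, ∑ a, dot (curl (O.L.θF a)) (curl (O.L.θF a)) y
      + ∑ a, dot (curl (O.L.θZ a)) (curl (O.L.θZ a)) y ≤ K0.Cth ^ 2 * Om y ^ 3)
    (coer : O.L.Coer K0.cl K0.cz K0.ch K0.cb)
    (res : ∀ η > 0, ∃ A0, ∀ A ≥ A0, nw Om (Res (1 / 64) (cut A Ψ S)) ≤ (K0.e1 + η) ^ 2 ∧
      gw 1 (Res (1 / 64) (cut A Ψ S)) ≤ (K0.e2 + η) ^ 2)
    (iniE : ∀ a, O.L.E (pl (fun k => fld (ψ k) (s k)) a) ≤ -K0.c0 * ∑ k, a k ^ 2)
    (iniX : ∀ a, O.L.X (pl (fun k => fld (ψ k) (s k)) a) ≤ K0.C0 * ∑ k, a k ^ 2)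
    (nz : ∃ A0, ∀ A ≥ A0, 1 / 10 ^ 6 ≤ nw Om (curl (cut A Ψ S))) {ν : ℝ} (hν : 0 < ν) :
    ∃ T, 0 < T ∧ BlowUp ν T := by
  refine blowup_of_K0 ⟨h.good, pot, potφ, fun w hw => le_trans ?_ (l1 w hw), pw0, pw1, pw2, pwθ,
    coer, res, iniE, iniX, nz⟩ rfl hν
  have k1 := coer.lo _ (Dyn.hinf_curl hw.hinf)
  have k2 := Fn.nw_nonneg (.of_forall fun y => (SkBd_Om_pos y).le) (curl w)
  have k3 : 0 ≤ O.L.zv (curl w) := Finset.sum_nonneg fun _ _ => sq_nonneg _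
  have k4 : 0 ≤ O.L.X1 w := le_trans (by simp only [K0]; positivity) k1
  linarith [mul_le_mul_of_nonneg_right hμ k4]

end Ok

end Obj

end Pool.Agent.Work.MP_6bf1e5_an.H.Ca
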