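import Pool.Agent.Work.MP_6bf1e5_an.H.BkD
import Pool.Agent.Lib.KRad.Top

/-! The checks of the blocks: determinant, graded form, dissipation, duality (owner helper84). -/

namespace Pool.Agent.Work.MP_6bf1e5_an.H.Bk

open Pool.Agent.Lib.KLA Pool.Agent.Lib.KBlk Pool.Agent.Lib.KMx Pool.Agent.Lib.Dy
open Pool.Agent.Lib.KRad (Cm Mb jz)

noncomputable section

/-- Stored rows with slots `V` and offset `K`. -/
structure Sr where
  (V K : Nat)
  (R : Rows)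

def Sr.mt (P : Pm) (p : Nat) (S : Sr) : MT := rs S.V 1 P.W p (lit S.V p S.K S.R)

/-- Scales and sizes for one block, and the inverse matrix. -/
structure Bq where
  (L sH xH sL xL y sm st sr b0 b b' uR : Nat)
  (R : Cm)

/-- A block: `J` modes and `Jh` functionals. -/
structure Bm where
  (k J Jh d N c : Nat)
  (A : Mb)
  (T : Cm)
  (Q : Bq)

/-- The coefficients with the offset `2 ^ b`. -/
def cm (P : Pm) (p b : Nat) (A : Cm) : MT :=
  tgt P.W p (Nat.mul 16 A.c) b (Sr.mt P p ⟨A.Ws, A.K, A.raw p⟩)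

/-- `T` alone if `c = 0`. -/
def stz (c n : Nat) (T U : MT) : MT := cnd (Nat.beq c 0) T (stk n T U)

/-- The conditions on the numbers. -/
def Bm.ok (P : Pm) (B : Bm) (r : Nat) : Bool :=
  bnd (bnd (bnd (Nat.ble 1 B.A.A.c) (Nat.beq B.A.r r))
      (bnd (bnd B.A.A.fit (Nat.ble P.s 3072)) (bnd (Nat.ble B.Q.sH 3069) (Nat.ble B.Q.sL 3069))))
    (bnd (Nat.beq (Nat.add B.Q.sH B.A.A.z) (Nat.add (Nat.add (Nat.add B.Q.xH B.Q.y)
        (Nat.add B.Q.sm P.s)) (Nat.add (Nat.add B.d 1) (Nat.mul 2 (Nat.add B.k B.A.k1)))))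
      (cnd (Nat.beq B.A.H.c 0) true (bnd (bnd B.A.H.fit (Nat.beq (Nat.add B.Q.sL B.A.H.z)
        (Nat.add (Nat.add (Nat.add B.Q.xL B.Q.y) (Nat.add B.Q.sm P.s))
          (Nat.add (Nat.add B.d 1) (Nat.add (Nat.mul 8 B.k) (Nat.mul 2 B.A.i))))))
        (allR (fun m => Nat.ble (Nat.mul 2 (dg B.A.I m)) (Nat.add (dg B.A.H.E m) B.Q.xL)) 0
          (Nat.add B.A.H.M 1)))))

/-- The moments of the potentials. -/
def Bm.mu (P : Pm) (B : Bm) (w : Nat) : MT :=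
  strict (Nat.add B.d 1) fun l => strict (Nat.add B.A.A.c B.A.H.c) fun cf =>
    strict (Nat.add B.J 1) fun L => strict (Nat.mul 16 B.A.A.c) fun n =>
    fx P B.J B.c B.Q.sm B.Q.b (mm P.W B.J cf
      (mo2 P l cf L (fun m => Nat.add (P.ep l m) B.Q.y) (stz B.A.H.c n
        (moH P l B.Q.sH (Nat.add w (Nat.add B.A.r (Nat.mul 4 B.A.k1))) (Nat.add L 1) B.A.A.M
          fun m => Nat.add (dg B.A.A.E m) B.Q.xH)
        (moL P l B.Q.sL (Nat.add w B.A.i) (Nat.add L 1) B.A.H.M B.Q.L (dg B.A.I)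
          fun m => Nat.sub (Nat.add (dg B.A.H.E m) B.Q.xL) (Nat.mul 2 (dg B.A.I m)))))
      (stz B.A.H.c n (cm P B.J B.Q.b0 B.A.A) (cm P B.J B.Q.b0 B.A.H)))

def Bm.okt (P : Pm) (B : Bm) : Bool :=
  bnd (bnd (Nat.ble (Nat.add B.T.M 3) B.N) B.T.fit) (Nat.beq (Nat.add (Nat.add B.Q.st B.T.z)
    (Nat.add B.d 1)) (Nat.add (Nat.add B.Q.sr P.s) (Nat.mul 4 B.k)))

/-- The coefficients of the potentials of the functionals. -/
def Bm.th (P : Pm) (B : Bm) : MT :=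
  fx P B.Jh B.c B.Q.sr B.Q.b (dsc P.W B.Jh (Nat.add B.T.M 1) (Nat.shiftLeft 1 B.Q.st) 0 false
    (fun i => Nat.shiftLeft 1 (P.ep (Nat.add B.d 1) i)) (fun i => Nat.shiftLeft 1 (dg B.T.E i))
    (fun i => i) (cm P B.Jh B.T.B B.T))

/-- The two parts of the curl of a toroidal field, and the second curl. -/
def oM (P : Pm) (B : Bm) (p : Nat) (T : MT) : MT :=
  bV P p B.N B.Q.b 3 B.d (Nat.add B.d 2) (Nat.add (Nat.mul 2 B.d) 3) true false T

def oP (P : Pm) (B : Bm) (p : Nat) (T : MT) : MT :=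
  bU P p B.N B.Q.b 3 (Nat.add B.d 1) (Nat.add (Nat.mul 2 B.d) 2) (Nat.add (Nat.mul 2 B.d) 3) true
    false T

def oW (P : Pm) (B : Bm) (p a : Nat) (T : MT) : MT :=
  add (bU P p B.N B.Q.b a B.d 2 1 false true (oM P B p T))
    (bV P p B.N B.Q.b a (Nat.add B.d 1) 1 1 false true (oP P B p T))

/-- `√2 lam 0 / 256` and `π` times it. -/
def cA : Nat := Nat.shiftRight (Nat.mul cS2 cL0) 3080

def cP : Nat := Nat.shiftRight (Nat.mul cPI (Nat.mul cS2 cL0)) 6152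

/-- Twice the symmetric part of the graded form in one solid degree. -/
def fD (P : Pm) (B : Bm) (n d x y : Nat) (T : MT) : MT :=
  (fun A X : MT => add (tm P B.J B.J B.c A X) (tm P B.J B.J B.c X A))
    (fx P B.J B.c P.s B.Q.b' (add (dl P B.J (Nat.sub (Nat.add n 1) d) cA x y d T)
      (dm P B.J (Nat.sub (Nat.add n 1) d) cA x y n T)))
    (bX P B.J B.N B.Q.b d (zr P.W B.J (Nat.sub (Nat.add n 1) d) T))

/-- The dissipation in one solid degree. -/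
def fK (P : Pm) (B : Bm) (p d x y : Nat) (X T : MT) : MT :=
  tm P p B.J B.c X (fx P B.J B.c P.s B.Q.b' (dl P B.J B.N cP x y d T))

/-- `T` is close to `2 ^ u` times the stored matrix. -/
def clo (P : Pm) (p n u e : Nat) (S : Sr) (T : MT) : Bool :=
  fin P.W p n e (add T (neg P.W p (sml (Nat.shiftLeft 1 u) (S.mt P p))))

/-- The stored matrix inverts `T`. -/
def ivt (P : Pm) (B : Bm) (T : MT) : Bool :=
  bnd B.Q.R.fit (l1r P.W B.J B.J B.Q.uR (Nat.sub (Nat.shiftLeft 1 B.Q.uR) 1)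
    (add (tm P B.J B.J B.c T (cm P B.J B.Q.R.B B.Q.R))
      (neg P.W B.J (idm P.W B.J (Nat.shiftLeft 1 B.Q.uR)))))

def nl (B : Bm) : Nat := Nat.mul (Nat.add B.d 1) (Nat.add B.d 2)

def n2 (B : Bm) : Nat := Nat.add (Nat.mul 2 B.d) 3

/-- The coefficients of the projections. -/
def Bm.x (P : Pm) (B : Bm) (w : Nat) : MT := bI P B.J B.J B.Q.b (Nat.add B.d 1) (B.mu P w)

def fD0 (P : Pm) (B : Bm) (n : Nat) (x : MT) : MT :=
  add (fD P B n B.d (Nat.mul 16384 (Nat.add B.d 1)) 1 (oM P B B.J x))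
    (fD P B n (Nat.add B.d 2) (Nat.mul 16384 (Nat.add B.d 2)) 1 (oP P B B.J x))

def fD1 (P : Pm) (B : Bm) (n : Nat) (x : MT) : MT :=
  fD P B n (Nat.add B.d 1) (Nat.mul 16384 (nl B)) (n2 B) (oW P B B.J 3 x)

def fK0 (P : Pm) (B : Bm) (p : Nat) (t x : MT) : MT :=
  add (fK P B p B.d (Nat.mul 48 (Nat.add B.d 1)) 1 (bX P p B.N B.Q.b B.d (oM P B p t)) (oM P B B.J x))
    (fK P B p (Nat.add B.d 2) (Nat.mul 48 (Nat.add B.d 2)) 1
      (bX P p B.N B.Q.b (Nat.add B.d 2) (oP P B p t)) (oP P B B.J x))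

def fK1 (P : Pm) (B : Bm) (p : Nat) (t x : MT) : MT :=
  fK P B p (Nat.add B.d 1) (Nat.mul 96 (nl B)) (n2 B) (bN P p B.N B.Q.b (Nat.add B.d 1) t)
    (oW P B B.J 3 x)

/-- The moments of the modes against the functionals. -/
def fG (P : Pm) (B : Bm) (p a : Nat) (t m : MT) : MT :=
  tm P p B.J B.c (fx P p B.c P.s B.Q.b' (dsc P.W p B.N cPI 4 false (fun _ => Nat.mul 12 (nl B))
    (fun _ => Nat.shiftLeft (n2 B) (Nat.sub 3072 P.s)) (fun i => i) (oW P B p a t))) m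

/-- The data of all blocks. -/
structure Gd where
  (P : Pm)
  (Am Ah : Lay)
  (Md : Nat → Nat → Mb)
  (Th : Nat → Nat → Cm)
  (Q : Nat → Nat → Bq)
  (Dt KL : Nat → Nat → Rows)
  (n V K sD eD sK eK eG g1 g2 : Nat)

/-- The block `(b, y)`. -/
def Gd.on (G : Gd) (f : Nat → Bm → Sr → Sr → Bool) (b y : Nat) : Bool :=
  strict (Nat.sub b 1) fun k => strict (G.Am.J b y) fun J => strict (jz G.Ah b y) fun Jh =>
    strict (Nat.add (Nat.mul 2 k) 1) fun d => strict (Nat.add J 2) fun N =>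
      strict (Nat.div (Nat.add J 17) 16) fun c =>
        f y ⟨k, J, Jh, d, N, c, G.Md b y, G.Th b y, G.Q b y⟩ ⟨G.V, G.K, G.Dt b y⟩
          ⟨G.V, G.K, G.KL b y⟩

/-- Block number `i`. -/
def Gd.at (G : Gd) (f : Nat → Bm → Sr → Sr → Bool) (i : Nat) : Bool :=
  strict (Nat.add 1 (Nat.div i 2)) fun b => strict (Nat.mod i 2) fun y => G.on f b y

/-- Determinant, graded form (cut at the degree `n + 1`) and dissipation. -/
def cA3 (G : Gd) (B : Bm) (D K : Sr) (r w : Nat) (f : MT → MT) (g : MT → MT → MT) : Bool :=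
  (fun x : MT => bnd (bnd (B.ok G.P r) (ivt G.P B x))
    (bnd (clo G.P B.J B.J (Nat.sub (Nat.add (Nat.mul 2 G.P.s) 1) G.sD) G.eD D (f x))
      (cnd (Nat.beq B.Jh 0) true (bnd (B.okt G.P)
        (clo G.P B.J B.Jh (Nat.sub (Nat.mul 2 G.P.s) G.sK) G.eK K (g (B.th G.P) x))))))
    (B.x G.P (Nat.add (Nat.mul 4 B.k) w))

def chkA (G : Gd) (y : Nat) (B : Bm) (D K : Sr) : Bool :=
  cnd (Nat.beq y 1) (cA3 G B D K 1 8 (fD1 G.P B G.n) (fK1 G.P B B.Jh))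
    (cA3 G B D K 3 10 (fD0 G.P B G.n) (fK0 G.P B B.Jh))

/-- Duality: the sums of the errors in rows and in columns. -/
def cG3 (G : Gd) (B : Bm) (r w a : Nat) : Bool :=
  cnd (Nat.beq B.Jh 0) true (bnd (bnd (B.ok G.P r) (B.okt G.P))
    ((fun T : MT => bnd (l1r G.P.W B.J B.Jh G.eG G.g1 T)
        (l1r G.P.W (Nat.mul 16 B.c) B.J G.eG G.g2 (tr G.P.W B.J B.c T)))
      (mem G.P.W B.J B.c (zr G.P.W B.J B.Jh
        (add (fG G.P B B.Jh a (B.th G.P) (B.mu G.P (Nat.add (Nat.mul 4 B.k) w)))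
          (neg G.P.W B.J (idm G.P.W B.J (Nat.shiftLeft 1 (Nat.mul 2 G.P.s)))))))))

def chkG (G : Gd) (y : Nat) (B : Bm) (_ _ : Sr) : Bool :=
  cnd (Nat.beq y 1) (cG3 G B 1 2 3) (cG3 G B 3 8 7)

end

end Pool.Agent.Work.MP_6bf1e5_an.H.Bk
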