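import Pool.Agent.Lib.KMx.Defs
import Pool.Agent.Lib.Dy.Lit

/-! The kernel side of the block diagonal quantities (owner helper84). -/

namespace Pool.Agent.Work.MP_6bf1e5_an.H.Bk

open Pool.Agent.Lib.KLA Pool.Agent.Lib.KBlk Pool.Agent.Lib.KMx Pool.Agent.Lib.Dy

noncomputable section

/-- Digit `m` in base `2 ^ 16`. -/
def dg (E m : Nat) : Nat := Nat.land (Nat.shiftRight E (Nat.mul 16 m)) 65535

/-- `Γ (1 / 2) Γ ((r + 1) / 4) / (2 Γ ((r + 3) / 4))`. -/
def cB (r : Nat) : Nat := lget [Nat.shiftRight (Nat.mul cG2 cR13) 3073, Nat.shiftRight cPI 1,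
  Nat.shiftRight (Nat.mul cG2 cR31) 3071, Nat.shiftLeft 1 3072] r

/-- `2 ^ s Jt d (4 d + 7 + q) 1`. -/
def jq (d s q : Nat) : Nat :=
  strict (Nat.mod q 4) fun r => strict (Nat.div q 4) fun n =>
    Nat.rec (motive := fun _ => Nat) (Nat.div (Nat.mul (cB r) (pq 4 2 (Nat.add d 1)))
        (Nat.shiftLeft (pq 4 (Nat.add r 3) (Nat.add d 1)) (Nat.sub 3072 s)))
      (fun i ih => Nat.div (Nat.mul ih (Nat.add (Nat.add r 1) (Nat.mul 4 i)))
        (Nat.add (Nat.add (Nat.add (Nat.mul 4 d) 7) r) (Nat.mul 4 i))) n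

/-- The vector of the values at `q, q + g, ...`. -/
def jv (W d s q g n : Nat) : MT :=
  tr W 1 (Nat.add (Nat.div n 16) 1) (gen W n (Nat.add (Nat.add q (Nat.mul g n)) 2)
    fun v => strict (Nat.add q (Nat.mul g v)) (jq d s))

/-- The recurrence of the Gegenbauer polynomials. -/
def lg (W h p L d : Nat) (sh : Nat → Nat) (T : MT) : MT :=
  lev W h p L (Nat.add L 1) (fun m => Nat.mul 2 (Nat.add (Nat.add m d) 1))
    (fun m => Nat.mul 4 (Nat.add (Nat.add m d) 1))
    (fun m => Nat.mul (Nat.add (Nat.add m (Nat.mul 2 d)) 1) m) (fun m => m) sh T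

/-- Slots of the two recurrences and of the products; sizes after the recurrences; scale;
exponents that nearly normalise the polynomials. -/
structure Pm where
  (W0 W1 W b1 b2 s : Nat)
  (E : List Nat)

def Pm.ep (P : Pm) (d i : Nat) : Nat := strict d fun d => dg (lget P.E d) i

/-- Moments of `t ^ (4 u)`, `u < p`, against the polynomials `0, ..., M`. -/
def moH (P : Pm) (d s q p M : Nat) (sh : Nat → Nat) : MT :=
  rs P.W0 1 P.W1 p (tgt P.W0 p (Nat.add M 1) P.b1
    (lg P.W0 1 p M d sh (jv P.W0 d s q 4 (Nat.add M p))))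

/-- The same against the powers `ρ 0, ..., ρ M ≤ L` of `1 - t`. -/
def moL (P : Pm) (d s q p M L : Nat) (ρ sh : Nat → Nat) : MT :=
  rs P.W0 4 P.W1 p (tgt P.W0 (Nat.mul 4 p) (Nat.add M 1) P.b1
    (lev P.W0 1 (Nat.mul 4 p) L (Nat.add M 1) (fun _ => 1) (fun _ => 1) (fun _ => 0) ρ sh
      (jv P.W0 d s q 1 (Nat.add L (Nat.mul 4 p)))))

/-- From the moments of `16 c` functions against powers to those against the polynomials
`0, ..., L`. -/
def mo2 (P : Pm) (d c L : Nat) (sh : Nat → Nat) (T : MT) : MT :=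
  (fun h c' : Nat => mem P.W h c' (rs P.W1 1 P.W h (tgt P.W1 h (Nat.add L 1) P.b2
    (mem P.W1 h c' (lg P.W1 h h L d sh (cc P.W1 h c' (tr P.W1 (Nat.add L 1) c T)))))))
    (Nat.mul 16 c) (Nat.add (Nat.div L 16) 1)

/-- The result of a step: rounded, evaluated, with the offset `2 ^ b`. -/
def fx (P : Pm) (p c s b : Nat) (T : MT) : MT :=
  tgt P.W p (Nat.mul 16 c) b (mem P.W p c (rnT P.W p s T))

/-- Row `i < n` is row `σ i` times `± u i / v i` and the change of the exponents. -/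
def ds (P : Pm) (p n d d' : Nat) (sg : Bool) (u v σ : Nat → Nat) (T : MT) : MT :=
  dsc P.W p n (Nat.shiftLeft 1 P.s) 0 sg (fun i => Nat.shiftLeft (u i) (P.ep d' i))
    (fun i => Nat.shiftLeft (v i) (strict (σ i) (P.ep d))) σ T

/-- The matrix `cU (a / 4) d` times `± x / y`. -/
def bU (P : Pm) (p n b a d x y : Nat) (sg sg' : Bool) (T : MT) : MT :=
  (fun (x d' : Nat) => fx P p (Nat.add (Nat.div n 16) 1) P.s b (add (add
    (ds P p n d d' sg' (fun i => Nat.mul x (Nat.add (Nat.mul 4 (Nat.add d i)) a))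
      (fun i => Nat.mul (Nat.mul 8 y) (Nat.add d' i)) (fun i => i) T)
    (ds P p n d d' sg (fun i => Nat.mul x (Nat.add i 1)) (fun _ => y) (fun i => Nat.add i 1) T))
    (ds P p n d d' sg' (fun i => Nat.mul (Nat.mul x (Nat.mul (Nat.add i 2) (Nat.add i 1)))
        (Nat.add (Nat.mul 4 (Nat.add d i)) (Nat.sub 16 a)))
      (fun i => Nat.mul (Nat.mul 8 y) (Nat.add (Nat.add d i) 3)) (fun i => Nat.add i 2) T)))
    (Nat.mul x (Nat.add d 1)) (Nat.add d 1)

/-- One for `i > j`, else zero. -/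
def gt (j i : Nat) : Nat := cnd (Nat.ble i j) 0 1

/-- The matrix `cV (a / 4) d` times `± x / y`. -/
def bV (P : Pm) (p n b a d x y : Nat) (sg sg' : Bool) (T : MT) : MT :=
  (fun (y d' : Nat) => fx P p (Nat.add (Nat.div n 16) 1) P.s b (add (add
    (ds P p n d' d sg (fun i => Nat.mul (Nat.mul x (pq 1 (Nat.add i (Nat.mul 2 d')) 2))
        (Nat.add (Nat.mul 4 (Nat.add d i)) (Nat.sub 12 a)))
      (fun i => Nat.mul (Nat.mul 16 y) (Nat.add (Nat.add d i) 2)) (fun i => i) T)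
    (ds P p n d' d sg' (fun i => Nat.mul (Nat.mul x (gt 0 i)) (Nat.add i (Nat.mul 2 d')))
      (fun _ => Nat.mul 2 y) (fun i => Nat.sub i 1) T))
    (ds P p n d' d sg (fun i => Nat.mul (Nat.mul x (gt 1 i))
        (Nat.add (Nat.mul 4 (Nat.add d (Nat.sub i 1))) a))
      (fun i => Nat.mul (Nat.mul 16 y) (Nat.add d i)) (fun i => Nat.sub i 2) T)))
    (Nat.mul y (Nat.add d 1)) (Nat.add d 1)

/-- Numerator and denominator of the squared norms over `π`. -/
def nu (d i : Nat) : Nat :=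
  Nat.mul (pq 1 1 (Nat.add (Nat.add i (Nat.mul 2 d)) 1)) (pq 1 1 i)

def nv (d i : Nat) : Nat := Nat.shiftLeft (Nat.mul (Nat.add (Nat.add i d) 1)
  (Nat.mul (pq 1 1 d) (pq 1 1 d))) (Nat.add (Nat.mul 2 d) 1)

/-- Coefficients to moments: row `σ i` times `± u i / v i` and the squared norm. -/
def dn (P : Pm) (p n d : Nat) (sg : Bool) (u v σ : Nat → Nat) (T : MT) : MT :=
  dsc P.W p n (Nat.shiftLeft 1 P.s) 0 sg (fun i => Nat.mul (u i) (nu d i)) (fun i =>
    Nat.shiftLeft (Nat.mul (v i) (nv d i)) (Nat.add (P.ep d i) (strict (σ i) (P.ep d)))) σ T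

/-- The moments of `(1 - X)` times a combination, over `π`. -/
def bX (P : Pm) (p n b d : Nat) (T : MT) : MT :=
  fx P p (Nat.add (Nat.div n 16) 1) P.s b (add (add
    (dn P p n d false (fun _ => 1) (fun _ => 1) (fun i => i) T)
    (dn P p n d true (gt 0) (fun i => Nat.mul 2 (Nat.add i d)) (fun i => Nat.sub i 1) T))
    (dn P p n d true (fun i => Nat.mul (Nat.add i (Nat.mul 2 (Nat.add d 1))) (Nat.add i 1))
      (fun i => Nat.mul 2 (Nat.add (Nat.add i d) 2)) (fun i => Nat.add i 1) T))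

/-- The moments of a combination, over `π`. -/
def bN (P : Pm) (p n b d : Nat) (T : MT) : MT :=
  fx P p (Nat.add (Nat.div n 16) 1) P.s b (dn P p n d false (fun _ => 1) (fun _ => 1) (fun i => i) T)

/-- Moments to coefficients, times `π`. -/
def bI (P : Pm) (p n b d : Nat) (T : MT) : MT :=
  fx P p (Nat.add (Nat.div n 16) 1) P.s b (dsc P.W p n (Nat.shiftLeft 1 P.s) 0 false
    (fun i => Nat.shiftLeft (nv d i) (Nat.mul 2 (P.ep d i))) (nu d) (fun i => i) T)

/-- Row `i < n` times `A x / y` times `lam (d + i) / lam 0`, not rounded. -/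
def dl (P : Pm) (p n A x y d : Nat) (T : MT) : MT :=
  dsc P.W p n A 4 false (fun i => Nat.mul x (strict (Nat.add d i) (pq 4 9)))
    (fun i => Nat.shiftLeft (Nat.mul y (strict (Nat.add d i) (pq 4 3))) (Nat.sub 3072 P.s))
    (fun i => i) T

/-- The same with `- lamS (m + 1)`. -/
def dm (P : Pm) (p n A x y m : Nat) (T : MT) : MT :=
  dsc P.W p n A 4 true (fun _ => Nat.mul (Nat.mul x (pq 4 9 m)) (Nat.add (Nat.mul 4 m) 6))
    (fun _ => Nat.shiftLeft (Nat.mul (Nat.mul y (pq 4 3 m)) (Nat.add (Nat.mul 4 m) 3))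
      (Nat.sub 3072 P.s)) (fun i => i) T

/-- `Tᵀ U` for matrices with `16 c` rows and `p`, `q` columns; not rounded. -/
def tm (P : Pm) (p q c : Nat) (T U : MT) : MT := mm P.W q c (tr P.W p c T) U

end

end Pool.Agent.Work.MP_6bf1e5_an.H.Bk
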