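import Pool.Agent.Work.MP_6bf1e5_an.H.FamT
import Pool.Agent.Work.MP_6bf1e5_an.H.LmiFin

/-! The null pairs and the small tails of the stored families (owner helper56). -/

open Finset MeasureTheory Polynomial Pool.Agent.Lib Pool.Agent.Lib.KLA Pool.Agent.Lib.KBlk
  Pool.Agent.Lib.KRad
open scoped Real

namespace Pool.Agent.Work.MP_6bf1e5_an.H.Jf

open Gl Ca Ps

/-- The radial parts `S` describe a null pair plus the functional with the potential `F`. -/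
def Nl (n k c : ℕ) (F : ℝ[X]) (S : ℕ → ℝ[X]) : Prop :=
  ∃ P : ℝ[X], (P = 0 ∨ 2 * k + 2 + P.natDegree ≤ n + c) ∧
    if c = 0 then S 2 = z0 (S 0 + fA k F) (S 1 + fB F) (cS k k P)
    else ∃ H, S 2 = qX * H ∧ S 0 = z1 k (H - 3 * X * F) (S 1) (cS k k P)

/-- The functional with the potential `F` has a tail whose radial part is at most `δ`. -/
def Tn (n k c : ℕ) (F : ℝ[X]) (δ : ℝ) : Prop :=
  ∃ P : ℝ[X], (P = 0 ∨ 2 * k + 2 + P.natDegree ≤ n + c) ∧ ∀ φ,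
    |(if c = 0 then z0 (fA k F) (fB F) (cS k k P) else z1 k (3 * X * F) 0 (cS k k P)).eval
      ((1 + Real.cos φ) / 2)| ≤ δ

section

variable {n k c : ℕ} {F : ℝ[X]} {R : ℕ → ℝ[X]}

theorem thF_zero (i : Fin 3) (y : R3) : thF c k 0 i y = 0 := by
  simpa using thF_C (c := c) (k := k) (P := 0) 0 i y

theorem Nl.null (h : Nl n k c (cS k k F) R) (hc : c < 2) :
    Null n (fun i y => jet e68 c k R false i y - thF c k F i y) (jet e68 c k R true) := by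
  obtain ⟨P, hP, h⟩ := h
  interval_cases c
  · have := null0 (a := R 0) (b := R 1) (Q := F) (β := 1) hP
    simp only [C_1, one_mul, ← (if_pos rfl ▸ h :)] at this
    exact this
  · rw [if_neg one_ne_zero] at h
    obtain ⟨H, h1, h2⟩ := h
    have := null1 (x := H) (b := R 1) (Q := F) (β := 1) hP
    simp only [C_1, one_mul, ← h1, ← h2] at this
    exact this

theorem Tn.tl {ov ou : Sc} {L δ : ℝ} (h : Tn n k c (cS k k F) δ) (hc : c < 2)
    (h0 : ∀ᵐ y, 0 ≤ ou y ∧ ou y * tau 1 y ^ 8 ≤ L) :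
    TL n ov ou (thF c k F) 0 (4 * π * L * ((if c = 0 then lK k else 1) * δ ^ 2) / (4 * k + 5)) := by
  obtain ⟨P, hP, h⟩ := h
  have e : nw ov (jet e68 c k 0 false) = 0 :=
    (nw_off ov (a' := 0) fun y hy i =>
      (is_jet e68 c k 0 y hy false i).trans (by simp [vF, Gl.cmp])).trans (Fn.nw_zero ov)
  interval_cases c
  · refine ⟨_, _, (null0 (a := 0) (b := 0) (Q := F) (β := 1) hP).neg, ?_⟩
    simp only [C_1, one_mul, zero_add, sub_neg_eq_add]
    refine (add_le_add (le_of_eq (Eq.trans ?_ e)) (nw_jT h0 h)).trans_eq (zero_add _)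
    congr 1
    funext i y
    simp [jet, e68]
  · refine ⟨_, _, null1 (x := 0) (b := 0) (Q := F) (β := -1) hP, ?_⟩
    simp only [C_neg, C_1, neg_one_mul, zero_sub, neg_neg, Fn.nw_neg]
    refine (add_le_add (le_of_eq (Eq.trans ?_ e))
      (nw_jM (d' := 0) h0 h (by simp))).trans_eq (by simp)
    rw [← Fn.nw_neg]
    congr 1
    funext i y
    simp [jet, e68]

/-- A sum over the members, block by block. -/
theorem sum_dec (J : ℕ → ℕ → ℕ) (f : Ix → ℝ) : ∀ q b, ∑ a ∈ range (tot J q b), f (dec J q b a) =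
    ∑ i ∈ range q, (∑ m ∈ range (J (b + i) 0), f (b + i, 0, m)
      + ∑ m ∈ range (J (b + i) 1), f (b + i, 1, m))
  | 0, _ => rfl
  | q + 1, b => by
    rw [tot, sum_range_add, sum_range_add, sum_range_succ', add_comm (∑ _ ∈ range q, _), add_assoc]
    simp only [← add_assoc b, add_right_comm b _ 1, ← sum_dec J f q (b + 1), add_zero]
    refine congrArg₂ _ (sum_congr rfl fun a ha => ?_) (congrArg₂ _ (sum_congr rfl fun a ha => ?_)
      (sum_congr rfl fun a _ => ?_))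
    · rw [dec, if_pos (mem_range.1 ha)]
    · rw [dec, if_neg (by omega), Nat.add_sub_cancel_left, if_pos (mem_range.1 ha)]
    · rw [dec, if_neg (by omega), Nat.add_sub_cancel_left, if_neg (by omega),
        Nat.add_sub_cancel_left]

end

variable {P : Pr} {U : Rows} {A As : Lay} {d a n u B b c k k1 j j0 s : ℕ}
  {R : ℕ → ℕ → Rows} {e : ℕ → ℕ → ℕ → ℕ → ℤ} {Md : ℕ → ℕ → Mb} {Th Sm : ℕ → ℕ → Cm}
  {Te : ℕ → ℕ → Tb} {β : ℕ → ℕ → ℕ → ℕ} {M : Cm}

theorem job_at {f : ℕ → ℕ → ℕ → ℕ → Bool} (h : JobG f A) {x : Ix} (hx : In A x) :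
    ∃ j0 q, j0 ≤ x.2.2 ∧ x.2.2 < j0 + q ∧ f x.1 x.2.1 j0 q = true := by
  obtain ⟨⟨h1, h2, h3⟩, h4⟩ := hx
  have t := h (2 * (x.1 - A.b0) + x.2.1) (by omega)
  rw [JobD, show A.b0 + (2 * (x.1 - A.b0) + x.2.1) / 2 = x.1 by omega,
    show (2 * (x.1 - A.b0) + x.2.1) % 2 = x.2.1 by omega] at t
  exact let ⟨_, t⟩ := t _ h4; t

theorem jz_eq (hc : c < 2) [Decidable (As.Has b c)] :
    jz As b c = if As.Has b c then As.J b c else 0 := by
  simp only [jz, cnd_eq, bnd_iff, Nat.ble_eq, Nat.add_eq, Lay.Has, hc, and_true, Nat.add_one_le_iff]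

theorem ok_md' (d : Ix) (h : 1 ≤ d.1) : RadS (xi0 Md d) ∧
    Sym ((if d.2.1 = 1 then -1 else -2) - (2 * d.1 : ℕ)) (rad (xi0 Md d)) := by
  obtain ⟨_ | k, c, m⟩ := d
  · simp at h
  unfold xi0
  split_ifs
  exacts [ok_P, ok_T]

theorem test_th' (hJ : JobG (thC P U a n A.J Th R) A) {d : Ix} (hd : In A d) :
    Test (3 / 4) n (th0 Th d) := by
  obtain ⟨j0, q, -, -, h⟩ := job_at hJ hd
  simp only [thC, onB, strict_eq, bnd_iff, Nat.ble_eq, Nat.add_eq, Nat.mul_eq] at h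
  have h1 : (thQ Th d.1 d.2.1 d.2.2).natDegree ≤ (Th d.1 d.2.1).M := gP_deg
  have h2 := hd.1.2.2
  exact test_θ (by split_ifs <;> omega)

theorem pb_ts' {J Js : ℕ → ℕ → ℕ} (d : Ix) :
    Pb (x0 P a u J Js β Th Te e d false) (x0 P a u J Js β Th Te e d true) := by
  unfold x0
  split_ifs
  · have h : ∀ (S : ℝ[X]) (a : Bool) (m : ℝ), -((e68 a + 2 : ℕ) / 2 : ℝ) + 1 = m →
        ∀ i, Bd m (jet0 e68 d.2.1 S a i) := fun S a m hm i => by
      unfold jet0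
      split_ifs
      exacts [((Lt.bd_tp _ _).mul (Fn.bd_coord i)).of_eq hm, bd_zero _]
    exact ⟨h _ _ _ (by norm_num [e68]), h _ _ _ (by norm_num [e68])⟩
  · exact bd_jet _

theorem deg_of {r : ℝ} (hb : 1 ≤ b) (h : M.deg (2 * b + 1) (n + c + 1) = true) :
    C r * gQ M k k j = 0 ∨ 2 * (b - 1) + 2 + (C r * gQ M k k j).natDegree ≤ n + c := by
  simp only [Cm.deg, cnd_eq, Nat.beq_eq, Nat.add_eq] at h
  split_ifs at h with h0
  · simp [gQ, gP, h0]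
  · have h1 : (gQ M k k j).natDegree ≤ M.M := gP_deg
    have h2 := natDegree_C_mul_le r (gQ M k k j)
    rw [Nat.ble_eq] at h
    omega

theorem null_all (hJ : JobG (tsC P U a n u B A.J (jz As) β Th Te R) A) {d : Ix} (hd : In A d)
    (hb : d.1 ≠ 0) {o : ℕ} (ho : A.J d.1 d.2.1 - jz As d.1 d.2.1 = o) :
    Null n (fun i y => x0 P a u A.J (jz As) β Th Te e d false i y
        - bz u β o d.1 d.2.1 d.2.2 * th0 Th (d.1, d.2.1, d.2.2 - o) i y)
      (x0 P a u A.J (jz As) β Th Te e d true) := by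
  obtain ⟨j0, q, -, -, h⟩ := job_at hJ hd
  simp only [tsC, onB, tsW, strict_eq, bnd_iff, cnd_eq, Nat.beq_eq, hb, if_false] at h
  have h1 : (Te d.1 d.2.1).G.deg (2 * d.1 + 1) (n + d.2.1 + 1) = true := by
    have h := h.2.2
    split_ifs at h <;> simp only [bnd_iff] at h <;> tauto
  simp only [x0, if_neg hb, ho, ← cS_C, th0, ← thF_C]
  refine Nl.null ⟨_, deg_of (r := 1 / (2 * d.1 + 1 : ℕ)) (k := d.1 - 1) (j := d.2.2)
    (Nat.pos_of_ne_zero hb) h1, ?_⟩ hd.1.2.2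
  unfold tsR
  split_ifs
  exacts [rfl, ⟨_, rfl, rfl⟩]

theorem null_ts' (hJ : JobG (tsC P U a n u B A.J (jz As) β Th Te R) A) {d : Ix} (hd : In A d)
    (h : As.Has d.1 d.2.1 → d.2.2 + As.J d.1 d.2.1 < A.J d.1 d.2.1) :
    Null n (x0 P a u A.J (jz As) β Th Te e d false) (x0 P a u A.J (jz As) β Th Te e d true) := by
  classical
  by_cases hb : d.1 = 0
  · simp only [x0, if_pos hb]
    exact null_rad
  · have h1 : d.2.2 < A.J d.1 d.2.1 - jz As d.1 d.2.1 := by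
      have := hd.2
      rw [jz_eq hd.1.2.2]
      split_ifs with k
      · have := h k
        omega
      · omega
    simpa only [bz, if_pos h1, zero_mul, sub_zero] using null_all (e := e) hJ hd hb rfl

theorem big_ts' (hJ : JobG (tsC P U a n u B A.J (jz As) β Th Te R) A)
    (hs : Ca.Sub As A) (h0 : 1 ≤ As.b0) {d : Ix} (hd : In As d) :
    Null n (fun i y => x0 P a u A.J (jz As) β Th Te e
        (d.1, d.2.1, A.J d.1 d.2.1 - As.J d.1 d.2.1 + d.2.2) false i y - be0 u β d * th0 Th d i y)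
      (x0 P a u A.J (jz As) β Th Te e (d.1, d.2.1, A.J d.1 d.2.1 - As.J d.1 d.2.1 + d.2.2) true) := by
  classical
  have h1 := hd.2
  have h2 := hs _ _ hd.1
  have h3 := hd.1.1
  simpa [bz] using null_all (e := e) hJ (d := (d.1, d.2.1, A.J d.1 d.2.1 - As.J d.1 d.2.1 + d.2.2))
    ⟨h2.1, by simp only; omega⟩ (by simp only; omega) (o := A.J d.1 d.2.1 - As.J d.1 d.2.1)
    (by rw [jz_eq hd.1.2.2, if_pos hd.1])

theorem pt_rep (hW : 0 < P.W) (hx : 0 < P.Wx)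
    (hU : KRad.Sub P.V (16 * P.c) (Nat.shiftLeft 4 P.su) P.nU P.NU P.eU P.LU U (2 ^ P.su) (1 - X ^ 4)) :
    KRad.Rep P.W P.J (M.pt P U k k1 (s + a) j0) fun j =>
      C (2 ^ s : ℝ) * (C (2 ^ a : ℝ) * cS k k1 (gQ M k k1 (j0 + j))) := by
  have h : ∀ t, KRad.Rep P.W P.J (M.cf P U k k1 M.K M.z t (M.ld P j0)) fun j =>
      C (2 ^ t : ℝ) * (C (2 ^ 0 : ℝ) * cS k k1 (gQ M k k1 (j0 + j))) := fun t hk => by
    obtain ⟨h1, hk⟩ := (bnd_iff _ _).1 hk
    obtain ⟨h1, h2⟩ := (bnd_iff _ _).1 h1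
    rw [Nat.ble_eq] at h2
    refine rep_cf (G := ⟨k1, M.M, M.E, M.K, _⟩) hW hx (mat_cld h1) hU ?_ hk
    simp only [Nat.add_eq, Nat.sub_eq] at h2 ⊢
    omega
  refine (rep_shl (h _) _).congr fun j _ => ?_
  simp only [← mul_assoc, ← C_mul, ← pow_add, Nat.sub_eq, add_zero, Nat.add_sub_cancel' (Nat.sub_le _ _)]

/-- The small members. -/
theorem small_th' {y : ℕ → ℕ → ℕ} {ov ou : Sc} {L τ : ℝ} {T : ℕ} (hW : 0 < P.W) (hx : 0 < P.Wx)
    (hU : KRad.Sub P.V (16 * P.c) (Nat.shiftLeft 4 P.su) P.nU P.NU P.eU P.LU U (2 ^ P.su) (1 - X ^ 4))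
    (hd : 0 < d) (hJ : JobG (smC P U a n d (jz As) Th Sm y) A) (hT : Nat.ble (smS d A y) T = true)
    (hL : 0 ≤ L) (h0 : ∀ᵐ x, 0 ≤ ou x ∧ ou x * tau 1 x ^ 8 ≤ L) (hτ : 4 * π * L * T ≤ τ * 4 ^ a) :
    ∃ e : Ix → ℝ, (∀ d, 0 ≤ e d) ∧ ∑ a ∈ range A.N, e (A.mem a) ≤ τ ∧
      ∀ d, In A d → ¬In As d → TL n ov ou (th0 Th d) 0 (e d) := by
  classical
  refine ⟨fun x => 4 * π * L / 4 ^ a * ((bits (y x.1 x.2.1) (d * x.2.2) d : ℝ) ^ 2 / dnS x.1 x.2.1),
    fun _ => by positivity, ?_, fun x hx1 hx2 => ?_⟩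
  · have h1 : ∀ y J n : ℕ, ∑ m ∈ range J, (bits y (d * m) d : ℝ) ^ 2 / n ≤ sqS d y J n :=
      fun y J n => by
        simp only [sqS, strict_eq, KRad.sumF_eq, land_shr, Nat.add_eq, Nat.mul_eq, ← sum_div,
          pow_two]
        have := Nat.lt_floor_add_one (((∑ m ∈ range J, bits y (d * m) d * bits y (d * m) d : ℕ) : ℝ) / n)
        rw [Nat.floor_div_eq_div] at this
        push_cast at this ⊢
        exact this.le
    rw [← mul_sum, div_mul_eq_mul_div, div_le_iff₀ (by positivity)]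
    refine le_trans (mul_le_mul_of_nonneg_left ?_ (by positivity)) hτ
    refine (sum_dec A.J (fun x => (bits (y x.1 x.2.1) (d * x.2.2) d : ℝ) ^ 2 / dnS x.1 x.2.1)
      A.nq A.b0).trans_le (le_trans ?_ (Nat.cast_le.2 (Nat.le_of_ble_eq_true hT)))
    simp only [smS, KRad.sumF_eq, strict_eq, Nat.add_eq, Nat.cast_sum, Nat.cast_add]
    exact sum_le_sum fun i _ => add_le_add (h1 ..) (h1 ..)
  obtain ⟨j0, q, h1, h2, h⟩ := job_at hJ hx1
  obtain ⟨b, c, m⟩ := x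
  have hc : c < 2 := hx1.1.2.2
  obtain ⟨j, rfl⟩ := Nat.exists_eq_add_of_le (show j0 ≤ m from h1)
  have hj : j < (P.at q).J := Nat.lt_of_add_lt_add_left h2
  have h3 : ¬j0 + q ≤ jz As b c := fun k => by
    rw [jz_eq hc] at k
    split_ifs at k with k1
    exacts [hx2 ⟨k1, h2.trans_le k⟩, absurd (h2.trans_le k) (Nat.not_lt_zero _)]
  simp only [smC, onB, strict_eq, cnd_eq, Nat.ble_eq, Nat.add_eq, h3, if_false, bnd_iff,
    Nat.mul_eq, Nat.sub_eq, Nat.beq_eq] at h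
  obtain ⟨hb, h4, h⟩ := h
  obtain ⟨k, rfl⟩ : ∃ k, b = k + 1 := ⟨b - 1, by omega⟩
  have hg : ∀ t, KRad.Rep P.W q ((Sm (k + 1) c).pt (P.at q) U k k (t + a) j0) fun j =>
      C (2 ^ t * 2 ^ a * (2 * (k + 1) + 1 : ℕ) : ℝ) *
        cS k k (C (1 / (2 * (k + 1) + 1 : ℕ) : ℝ) * gQ (Sm (k + 1) c) k k (j0 + j)) := fun t =>
    (pt_rep (P := P.at q) hW hx hU).congr fun j _ => by
      rw [cS_C, ← mul_assoc, ← mul_assoc, ← C_mul, ← C_mul, mul_assoc, mul_one_div_cancel, mul_one]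
      positivity
  refine (Tn.tl (δ := bits (y (k + 1) c) (d * (j0 + j)) d / (2 ^ a * (2 * (k + 1) + 1 : ℕ)))
    ⟨_, deg_of (r := 1 / (2 * (k + 1) + 1 : ℕ)) (k := k) (j := j0 + j) hb h4, fun φ => ?_⟩
    hc h0).mono ?_
  · rw [le_div_iff₀' (by positivity), ← abs_of_pos (a := (2 ^ a * (2 * (k + 1) + 1 : ℕ) : ℝ))
      (by positivity), ← abs_mul]
    split_ifs at h ⊢
    · exact sm0_le (P := P.at q) hW hd (pt_rep (P := P.at q) hW hx hU) (hg _) h hj φ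
    · exact sm1_le (P := P.at q) hW hd (pt_rep (P := P.at q) hW hx hU) (hg _) h hj φ
  · rw [show (4 : ℝ) ^ a = (2 ^ a) ^ 2 by rw [← pow_mul, mul_comm, pow_mul]; norm_num]
    interval_cases c <;> simp [dnS, cnd_eq, lK] <;> field_simp
    · generalize (bits (y (k + 1) 0) (d * (j0 + j)) d : ℝ) = z
      have : 0 ≤ L * z ^ 2 * (2 * k + 3) * (4 * k + 5) := by positivity
      nlinarith
    · exact le_of_eq (by ring)

open Lt Lt.Dat

/-- The square, cut and rounded. -/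
noncomputable def sqc (A : KT) (k : KT → Bool) : Bool :=
  KTab.mul A A fun B => KTab.trim 192 1024 400 24 B fun B => KTab.meas 192 1024 B k

theorem sqc_rt {A : KT} {F : ℝ → ℝ → ℝ} (h : Lt.RT false 192 1024 A F) :
    KTab.Ok (sqc A) fun T => Lt.RT false 192 1024 T fun t θ => F t θ ^ 2 := fun k hk => by
  obtain ⟨B, h1, hk⟩ := mul_rt h h _ hk
  obtain ⟨B, h1, hk⟩ := trim_rt _ _ h1 _ hk
  obtain ⟨B, h1, hk⟩ := meas_rt h1 _ hk
  exact ⟨B, h1.congr fun _ _ => pow_two _, hk⟩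

theorem ou_le : ∀ᵐ x, 0 ≤ ou x ∧ ou x * tau 1 x ^ 8 ≤ 102 / 5 := wu.2.2.mono fun x h => ⟨h.1.le, by
  obtain ⟨T, h1, h2⟩ := ld1_rt 192 1024 7 b1 s1 o2 (fun A => sqc A fun A => sqc A fun A =>
    sqc A fun A => sqc A (finS (102 ^ 16) (5 ^ 16))) (by decide +kernel)
  obtain ⟨T, h1, h2⟩ := sqc_rt h1 _ h2
  obtain ⟨T, h1, h2⟩ := sqc_rt h1 _ h2
  obtain ⟨T, h1, h2⟩ := sqc_rt h1 _ h2
  obtain ⟨T, h1, h2⟩ := sqc_rt h1 _ h2
  have := (le_abs_self _).trans (finS_rt h2 h1 (tau_mem x) 0)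
  rw [ou, rowI, div_mul_cancel₀ _ (pow_pos (tau_pos zero_lt_one x) 8).ne']
  refine le_of_pow_le_pow_left₀ (n := 16) (by norm_num) (by norm_num) ?_
  simp only [← pow_mul] at this
  exact this.trans_eq (by norm_num)⟩
end Pool.Agent.Work.MP_6bf1e5_an.H.Jf
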