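import Pool.Agent.Work.MP_6bf1e5_an.H.RadD
import Pool.Agent.Lib.KBlk.Row

/-! The Galerkin family on the flat index of the passes. -/

open scoped ContDiff ENNReal FourierTransform Real
open Set MeasureTheory Polynomial

namespace Pool.Agent.Work.MP_6bf1e5_an.H

open Pool.Agent.Lib.KBlk

noncomputable section

/-- Members: half the degree, class, number. -/
abbrev Ix := ℕ × ℕ × ℕ

/-- The member lies in the family with the sizes `J`. -/
def Ix.In (J : ℕ → ℕ → ℕ) (nb : ℕ) (d : Ix) : Prop := d.1 < nb ∧ d.2.1 < 2 ∧ d.2.2 < J d.1 d.2.1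

/-- The velocity of a member; class one is poloidal. -/
def uD (ξ : Ix → ℝ → ℝ) (d : Ix) : Vc := vel (decide (d.2.1 = 1)) (2 * d.1) (ξ d)

/-- The mode on which it projects. -/
def mdD (J : ℕ → ℕ → ℕ) (ξ : Ix → ℝ → ℝ) (d : Ix) : Mode :=
  ⟨decide (d.2.1 = 1), 2 * d.1, J d.1 d.2.1, prj (2 * d.1) (ξ d)⟩

/-- The conditions on the modes. -/
structure Mds (n nb : ℕ) (J : ℕ → ℕ → ℕ) (ξ : Ix → ℝ → ℝ) : Prop where
  hb : n + 1 < 2 * nb
  sz : ∀ b < nb, ∀ c < 2, J b c = if b = 0 then 0 else n + c + 1 - 2 * b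
  ok : ∀ d : Ix, d.In J nb →
    RadS (ξ d) ∧ Sym ((if d.2.1 = 1 then -1 else -2) - (2 * d.1 : ℕ)) (rad (ξ d))
  det : ∀ b < nb, ∀ c < 2,
    (Matrix.of fun m m' : Fin (J b c) => prj (2 * b) (ξ (b, c, m)) m').det ≠ 0

variable {n nb : ℕ} {J : ℕ → ℕ → ℕ} {ξ : Ix → ℝ → ℝ}

theorem dec_in {j : ℕ} (h : j < tot J nb 0) : Ix.In J nb (dec J nb 0 j) := by
  obtain ⟨-, h1, h2, h3⟩ := dec_spec J nb 0 j h
  exact ⟨by simpa using h1, h2, h3⟩

theorem Ix.In.enc {d : Ix} (h : d.In J nb) :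
    enc J 0 d.1 d.2.1 d.2.2 < tot J nb 0 ∧ dec J nb 0 (enc J 0 d.1 d.2.1 d.2.2) = d :=
  dec_enc J (Nat.zero_le _) (by simpa using h.1) h.2.1 h.2.2

theorem dec_inj {j k : ℕ} (hj : j < tot J nb 0) (hk : k < tot J nb 0)
    (e : dec J nb 0 j = dec J nb 0 k) : j = k := by
  rw [← enc_dec J nb 0 j hj, ← enc_dec J nb 0 k hk, e]

theorem Gal.comp {ι ι' : Type} [Fintype ι] [Fintype ι'] {u : ι → Vc} {Y : ι → ℕ → Vc}
    (h : Gal n u Y) {e : ι' → ι} (he : Function.Bijective e) :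
    Gal n (fun j => u (e j)) fun j => Y (e j) := by
  refine ⟨fun j => h.adm _, fun j => h.sym _, fun j => h.hf _, fun j => h.perp _, fun w hw => ?_⟩
  obtain ⟨c, hc⟩ := h.split w hw
  refine ⟨fun j => c (e j), fun i => ?_⟩
  have e1 : lc (fun j => c (e j)) (fun j => u (e j)) = lc c u := by
    funext i y
    exact he.sum_comp fun j => c j * u j i y
  rw [e1]
  exact hc i

/-- The blocks. -/
def gfB (n nb : ℕ) : Blk n :=
  ⟨2 * (nb - 1), fun β => decide ((β : ℕ) % 2 = 1), fun β => 2 * (β / 2 + 1)⟩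

def gfI (j : (gfB n nb).I) : Ix := (j.1 / 2 + 1, j.1 % 2, j.2)

theorem Mds.pos (h : Mds n nb J ξ) {d : Ix} (hd : d.In J nb) : 1 ≤ d.1 := by
  have := h.sz _ hd.1 _ hd.2.1
  have h2 := hd.2.2
  split_ifs at this <;> omega

theorem Mds.gsz (h : Mds n nb J ξ) (β : Fin (gfB n nb).nb) :
    (gfB n nb).sz β = J (β / 2 + 1) (β % 2) := by
  have hβ : (β : ℕ) < 2 * (nb - 1) := β.2
  rw [h.sz _ (by omega) _ (by omega), if_neg (by omega)]
  simp only [Blk.sz, gfB, decide_eq_true_eq]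
  split_ifs <;> omega

theorem Mds.gin (h : Mds n nb J ξ) (j : (gfB n nb).I) : (gfI j).In J nb := by
  have hβ : (j.1 : ℕ) < 2 * (nb - 1) := j.1.2
  exact ⟨by simp only [gfI]; omega, by simp only [gfI]; omega, h.gsz j.1 ▸ j.2.2⟩

theorem Mds.full (h : Mds n nb J ξ) : (gfB n nb).Full := by
  refine ⟨fun β => ⟨by simp only [gfB]; omega, by simp only [gfB]; omega⟩,
    fun pol l h1 h2 h3 => ?_⟩
  have := h.hb
  cases pol
  · exact ⟨⟨l - 2, by simp only [gfB] at *; simp at h3; omega⟩, by simp only [gfB]; simp; omega,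
      by simp only [gfB]; omega⟩
  · exact ⟨⟨l - 1, by simp only [gfB] at *; simp at h3; omega⟩, by simp only [gfB]; simp; omega,
      by simp only [gfB]; omega⟩

theorem Mds.gok (h : Mds n nb J ξ) : (gfB n nb).OK fun j => ξ (gfI j) := fun j => by
  have k := h.ok _ (h.gin j)
  refine ⟨k.1, ?_⟩
  simp only [gfB, decide_eq_true_eq]
  exact k.2

theorem Mds.gsurj (h : Mds n nb J ξ) {d : Ix} (hd : d.In J nb) : ∃ j : (gfB n nb).I, gfI j = d := by
  obtain ⟨b, c, m⟩ := d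
  have h1 : 1 ≤ b := h.pos hd
  obtain ⟨h2, h3, h4⟩ := hd
  dsimp only at h2 h3 h4
  have e1 : (2 * (b - 1) + c) / 2 + 1 = b := by omega
  have e2 : (2 * (b - 1) + c) % 2 = c := by omega
  refine ⟨⟨⟨2 * (b - 1) + c, by simp only [gfB]; omega⟩, m, ?_⟩, ?_⟩
  · rw [h.gsz]
    simpa only [e1, e2] using h4
  · simp only [gfI, e1, e2]

theorem gfI_inj : Function.Injective (gfI (n := n) (nb := nb)) := by
  rintro ⟨β, m⟩ ⟨β', m'⟩ e
  simp only [gfI, Prod.mk.injEq] at e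
  obtain rfl : β = β' := Fin.ext (by omega)
  rw [Fin.ext e.2.2]

theorem Mds.gmd (h : Mds n nb J ξ) (j : (gfB n nb).I) :
    (gfB n nb).md (fun j => ξ (gfI j)) j = mdD J ξ (gfI j) := by
  simp only [Blk.md, mdD, h.gsz]
  rfl

/-- The Galerkin family. -/
theorem Mds.gal (h : Mds n nb J ξ) : Gal n (fun j : Fin (tot J nb 0) => uD ξ (dec J nb 0 j))
    fun j => (mdD J ξ (dec J nb 0 j)).gr := by
  have g := gal_data h.full h.gok fun β => by
    have hβ : (β : ℕ) < 2 * (nb - 1) := β.2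
    have k : ∀ s, s = J (β / 2 + 1) (β % 2) → (Matrix.of fun m m' : Fin s =>
        prj (2 * (β / 2 + 1)) (ξ (β / 2 + 1, β % 2, m)) m').det ≠ 0 := by
      rintro _ rfl
      exact h.det _ (by omega) _ (by omega)
    exact k _ (h.gsz β)
  choose e he using fun j : Fin (tot J nb 0) => h.gsurj (dec_in j.2)
  have hb : Function.Bijective e := by
    refine ⟨fun j k e1 => Fin.ext (dec_inj j.2 k.2 (by rw [← he, ← he, e1])), fun j => ?_⟩
    have k := (h.gin j).enc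
    exact ⟨⟨_, k.1⟩, gfI_inj (by rw [he, k.2])⟩
  have g' := g.comp hb
  simp only [Blk.Y_eq, h.gmd, he] at g'
  convert g' using 2 with j
  rw [← he]
  rfl

theorem Mds.sym (h : Mds n nb J ξ) {d : Ix} (hd : d.In J nb) (i : Fin 3) : Sym (-2) (uD ξ d i) := by
  have k := h.gal.sym ⟨_, hd.enc.1⟩ i
  simpa only [hd.enc.2] using k

/-- The dissipation term only sees the projection. -/
theorem Mds.lam (h : Mds n nb J ξ) (hn : 1 ≤ n) {θ : Vc} (hθ : Test (3 / 4) n θ)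
    (hs : ∀ i, Sym (-3) (θ i)) {d : Ix} (hd : d.In J nb) :
    ip (LamV (curl (uD ξ d))) θ = ip (mdD J ξ d).lp θ := by
  obtain ⟨j, rfl⟩ := h.gsurj hd
  rw [← h.gmd]
  exact ip_lam_md h.full h.gok hn hθ hs j

end

end Pool.Agent.Work.MP_6bf1e5_an.H
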