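import Pool.Agent.Work.MP_6bf1e5_an.H.IniS
import Pool.Agent.Work.MP_6bf1e5_an.H.FamU
import Pool.Agent.Work.MP_6bf1e5_an.H.GalFlat

/-! The block diagonal quantities vanish off the blocks (owner helper89). -/

open Polynomial Pool.Agent.Lib.KBlk Pool.Agent.Lib.KRad

namespace Pool.Agent.Work.MP_6bf1e5_an.H.Jf

open Ca

variable {A B : Lay} {n : ℕ} {Md : ℕ → ℕ → Mb} {Th : ℕ → ℕ → Cm}

theorem offD (h0 : 1 ≤ A.b0) (ξ : Ix → ℝ → ℝ) (n b y m b' y' m' : ℕ) (h : A.Has b y)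
    (_ : m < A.J b y) (h' : A.Has b' y') (_ : m' < A.J b' y') (e : ¬(b' = b ∧ y' = y)) :
    (mD n (mdD A.J ξ (b, y, m)).gr (mdD A.J ξ (b', y', m')).gr
      + mD n (mdD A.J ξ (b', y', m')).gr (mdD A.J ξ (b, y, m)).gr) / 2 = 0 := by
  obtain ⟨h1, -, h2⟩ := h
  obtain ⟨h3, -, h4⟩ := h'
  rw [mD_off, mD_off, add_zero, zero_div] <;> simp only [mdD, decide_eq_decide] <;> omega

/-- The dissipation of a mode against a functional sees only its projection. -/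
theorem lam_md {J : ℕ → ℕ → ℕ} {d : Ix} {θ : Vc} (hn : 1 ≤ n) (h : 1 ≤ d.1)
    (hJ : n + d.2.1 + 1 ≤ J d.1 d.2.1 + 2 * d.1) (hθ : Test (3 / 4) n θ)
    (hs : ∀ i, Sym (-3) (θ i)) :
    ip (LamV (curl (uD (xi0 Md) d))) θ = ip (mdD J (xi0 Md) d).lp θ := by
  have k := ok_md' (Md := Md) d h
  have hl : 2 ≤ 2 * d.1 := by omega
  have hl' : 2 * d.1 % 2 = 0 := by omega
  have ha := skg_adm (pol := decide (d.2.1 = 1)) k.1 (by simpa using k.2) hl'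
  rw [uD, skg_lam hn ha.1.hinf (Mode.adm (mdD J (xi0 Md) d) hl hl').hinf
    (skg_perp k.1 ha.2.2 hl hl' fun m hm => by
      simp only [decide_eq_true_eq] at hm
      split_ifs at hm <;> omega) (fun i => (hs i).hinf (by norm_num)) hθ, Mode.lam_curl _ hl]

/-- The shape of a functional. -/
theorem thF_shape (c k : ℕ) (P : ℝ[X]) : ∃ Q R : ℝ[X], ∀ V, ip V (thF c k P) =
    if c = 0 then 1 / 2 * ip (sm (Op 1) V) (fM (2 * k + 1) (3 / 4) Q R)
    else ip V (fT (2 * k + 2) (3 / 4) Q) := by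
  by_cases h : c = 0
  · exact ⟨_, _, fun V => by
      rw [thF, if_pos h, if_pos h, Ini.ip_half, Ini.pot_fT, curl_fT0 (d := 2 * k + 1)]⟩
  · exact ⟨_, 0, fun V => by rw [thF, if_neg h, if_neg h, Ini.pot_fT]⟩

theorem offK (hn : 1 ≤ n) (h0 : 1 ≤ A.b0 ∧ 1 ≤ B.b0)
    (hJ : ∀ b < B.b0 + B.nq, ∀ c < 2, n + c + 1 ≤ B.J b c + 2 * b ∨ b < B.b0)
    (ht : ∀ d, In A d → Test (3 / 4) n (th0 Th d)) (r : ℝ) (b y m b' y' m' : ℕ) (h : A.Has b y)
    (hm : m < A.J b y) (h' : B.Has b' y') (_ : m' < B.J b' y') (e : ¬(b' = b ∧ y' = y)) :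
    r * ip (LamV (curl (uD (xi0 Md) (b', y', m')))) (th0 Th (b, y, m)) = 0 := by
  have t := ht (b, y, m) ⟨h, hm⟩
  obtain ⟨h1, -, h2⟩ := h
  obtain ⟨h3, h4, h5⟩ := h'
  have hl : 2 ≤ (mdD B.J (xi0 Md) (b', y', m')).l := by
    simp only [mdD]
    omega
  obtain ⟨P, Q, e1⟩ := gr_shape _ hl lam (2 * b' + B.J b' y' + 2)
  obtain ⟨P', Q', e2⟩ := thF_shape y (b - 1) (thQ Th b y m)
  rw [lam_md (J := B.J) hn (by simp only; omega) ((hJ _ h4 _ h5).resolve_right (by omega)) t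
    (sym_th _), lp_eq _ hl le_rfl, th0, e2, mul_eq_zero]
  simp only [mdD, decide_eq_true_eq] at e1 ⊢
  rw [e1]
  right
  split_ifs
  · rw [sm_fT, sm_fT, ip_fT_fM, mul_zero]
  · rw [sm_fM, sm_fM, ip_fM _ _ _ _ _ _ (by
      linarith [Nat.cast_nonneg (α := ℝ) (2 * b' - 1), Nat.cast_nonneg (α := ℝ) (2 * (b - 1) + 1)]),
      if_neg (by omega), mul_zero]
  · rw [sm_fT, ip_fT, if_neg (by omega)]
  · rw [sm_fM, ip_fM_fT]

theorem thF_eq (c k : ℕ) (P : ℝ[X]) : ∃ Q R : ℝ[X], thF c k P =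
    if c = 0 then fM (2 * k + 1) (3 / 4 + 1) Q R else fT (2 * k + 1 + 1) (3 / 4) Q := by
  have e : ∀ d a Q R, sm (fun y => Om y / 2) (fM d a Q R) =
      fM d (a + 1) (C (1 / 2) * Q) (C (1 / 2) * R) := fun d a Q R => by
    funext i y
    simp only [sm, fM_apply, md_Op_succ, eval_mul, eval_C]
    ring
  by_cases h : c = 0
  · exact ⟨_, _, by rw [thF, if_pos h, if_pos h, Ini.pot_fT, curl_fT0 (d := 2 * k + 1), e]⟩
  · exact ⟨_, 0, by rw [thF, if_neg h, if_neg h, Ini.pot_fT]⟩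

theorem offG {b y m b' y' m' : ℕ} (h : 1 ≤ b ∧ y < 2) (h' : 1 ≤ b' ∧ y' < 2)
    (e : ¬(b' = b ∧ y' = y)) : mom (th0 Th (b, y, m)) (uD (xi0 Md) (b', y', m')) = 0 := by
  have k := ok_md' (Md := Md) (b', y', m') h'.1
  obtain ⟨-, a2, a3⟩ := skg_adm (pol := decide (y' = 1)) k.1 (by simpa using k.2)
    (by omega : 2 * b' % 2 = 0)
  have s := sym_th (Th := Th) (b, y, m)
  obtain ⟨P, Q, e1⟩ := thF_eq y (b - 1) (thQ Th b y m)
  rw [mom, uD, rd_ip_curl a2 s (by norm_num), vel]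
  split_ifs with h1
  · rw [rd_ip_curl a3 (md_sym_curl s) (by norm_num), th0, e1]
    split_ifs
    · rw [curl_fM0, curl_fT0]
      exact ip_tor_mer ..
    · rw [curl_fT0, curl_fM0, fT, tO, ip_tor, if_neg (by simp only [decide_eq_true_eq] at h1; omega)]
  · rw [th0, e1]
    split_ifs
    · rw [curl_fM0, fT, tO, ip_tor, if_neg (by simp only [decide_eq_true_eq] at h1; omega)]
    · rw [curl_fT0]
      exact ip_tor_mer ..

end Pool.Agent.Work.MP_6bf1e5_an.H.Jf
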