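import Pool.Agent.Work.MP_6bf1e5_an.H.BkT
import Pool.Agent.Work.MP_6bf1e5_an.H.BlkZ

/-! The functionals are almost dual to the modes (owner helper56). -/

open Finset

namespace Pool.Agent.Work.MP_6bf1e5_an.H.Bk

open Pool.Agent.Lib.KLA Pool.Agent.Lib.KBlk Pool.Agent.Lib.KMx Jf Ca
open Pool.Agent.Lib.KRad (jz)

/-- A sum over the members of a function that lives on one block. -/
theorem sum_one {A : Lay} {b y : ℕ} (h : A.Has b y) {f : Ix → ℝ}
    (hf : ∀ d, In A d → ¬(d.1 = b ∧ d.2.1 = y) → f d = 0) :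
    ∑ j : Fin A.N, f (A.mem j) = ∑ m ∈ range (A.J b y), f (b, y, m) := by
  rw [← sum_range fun j => f (A.mem j)]
  refine (sum_bij_ne_zero (fun m _ _ => A.pos b y m)
    (fun m hm _ => mem_range.2 (Lay.mem_pos h (mem_range.1 hm)).1) (fun m hm _ m' hm' _ e => ?_)
    (fun j hj e => ?_) fun m hm _ => by rw [(Lay.mem_pos h (mem_range.1 hm)).2]).symm
  · have := (Lay.mem_pos h (mem_range.1 hm)).2
    rw [e, (Lay.mem_pos h (mem_range.1 hm')).2] at this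
    exact (Prod.ext_iff.1 (Prod.ext_iff.1 this).2).2.symm
  · have k := mem_in (mem_range.1 hj)
    obtain ⟨rfl, rfl⟩ := not_not.1 (mt (hf _ k) e)
    exact ⟨_, mem_range.2 k.2, e, (Lay.mem_spec (mem_range.1 hj)).2.2⟩

variable {G : Gd}

/-- From the numbered blocks to all blocks. -/
theorem on_all {f : ℕ → Bm → Sr → Sr → Bool} (h0 : G.Am.b0 = 1)
    (h : AllP (fun i => G.at f i = true) (2 * G.Am.nq)) (b y : ℕ) (k : G.Am.Has b y) :
    G.on f b y = true := by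
  obtain ⟨k1, k2, k3⟩ := k
  have : G.on f (1 + (2 * (b - 1) + y) / 2) ((2 * (b - 1) + y) % 2) = true := h _ (by omega)
  rwa [show 1 + (2 * (b - 1) + y) / 2 = b by omega, show (2 * (b - 1) + y) % 2 = y by omega] at this

theorem cG3_le {B : Bm} {r w a : ℕ} {f : ℕ → ℕ → ℝ} (hP : G.P.Pos) (hB : B.Wf) (hJ : B.Jh ≤ B.J)
    (h0 : B.Jh ≠ 0) (k : cG3 G B r w a = true) (h : B.ok G.P r = true → B.okt G.P = true →
      Rep G.P.W B.J (fG G.P B B.Jh a (B.th G.P) (B.mu G.P (4 * B.k + w)))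
        (up B.Jh fun i j => 2 ^ (2 * G.P.s) * f i j)) :
    (∀ i < B.Jh, ∑ j ∈ range B.J, |f i j - if i = j then 1 else 0| ≤ G.g1 / 4 ^ G.P.s) ∧
      ∀ j < B.J, ∑ i ∈ range B.Jh, |f i j - if i = j then 1 else 0| ≤ G.g2 / 4 ^ G.P.s := by
  rw [cG3, cnd_eq, if_neg (by rwa [Nat.beq_eq])] at k
  simp only [bnd_iff] at k
  obtain ⟨⟨k1, k2⟩, k3, k4⟩ := k
  have W := hP.2.2
  have hc : B.Jh ≤ 16 * B.c := by
    obtain ⟨-, a, b⟩ := hB
    omega
  have r := ((((h k1 k2).add ((rep_idm (p := B.J) (K := Nat.shiftLeft 1 (Nat.mul 2 G.P.s)) W).neg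
    W)).zr W B.Jh).mem W B.c).congr (g' := up B.Jh fun i j =>
      4 ^ G.P.s * (f i j - if i = j then 1 else 0)) fun i j _ => by
        simp only [up, Nat.shiftLeft_eq', Nat.shiftLeft_eq, Nat.mul_eq, pow_mul]
        split_ifs <;> first | rfl | omega | (push_cast; ring)
  have p : (0 : ℝ) < 4 ^ G.P.s := by positivity
  refine ⟨fun i hi => ?_, fun j hj => ?_⟩
  · have := r.l1r k3 hi
    simp only [up, if_pos hi, abs_mul, abs_of_pos p, ← mul_sum] at this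
    rwa [le_div_iff₀' p]
  · have := (r.tr W B.c).l1r k4 hj
    simp only [up, if_pos hj, apply_ite abs, abs_zero, abs_mul, abs_of_pos p] at this
    rwa [sum_up hc, ← mul_sum, ← le_div_iff₀' p] at this

theorem hG_of {D : Ps.Dat} {δ : ℝ} (hP : G.P.Pos) (e1 : G.Am = D.Am) (e2 : G.Ah = D.Ah)
    (h0 : 1 ≤ D.Am.b0) (hs : Sub D.Ah D.Am)
    (k : ∀ b y, G.Am.Has b y → G.on (chkG G) b y = true) (hδ : 0 ≤ δ)
    (e : (G.g1 : ℝ) * G.g2 ≤ (δ * 4 ^ G.P.s) ^ 2) :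
    Nm (fun (a : Fin D.Ah.N) (j : Fin D.Am.N) => mom (th0 G.Th (D.Ah.mem a))
      (uD (xi0 G.Md) (D.Am.mem j)) - sel D.lo a j) δ := by
  classical
  let F : Ix → Ix → ℝ := fun d d' =>
    |mom (th0 G.Th d) (uD (xi0 G.Md) d') - if d = d' then 1 else 0|
  have off : ∀ d d', In D.Ah d → In D.Am d' → ¬(d'.1 = d.1 ∧ d'.2.1 = d.2.1) → F d d' = 0 :=
    fun d d' h h' e => by
      have := (h.sub hs).1
      simp only [F]
      rw [offG ⟨h0.trans this.1, this.2.2⟩ ⟨h0.trans h'.1.1, h'.1.2.2⟩ e,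
        if_neg fun x : d = d' => e (x ▸ ⟨rfl, rfl⟩), sub_zero, abs_zero]
  have blk : ∀ b y, D.Ah.Has b y → D.Ah.J b y ≠ 0 →
      (∀ i < D.Ah.J b y, ∑ j ∈ range (D.Am.J b y), F (b, y, i) (b, y, j) ≤ G.g1 / 4 ^ G.P.s) ∧
      ∀ j < D.Am.J b y, ∑ i ∈ range (D.Ah.J b y), F (b, y, i) (b, y, j) ≤ G.g2 / 4 ^ G.P.s :=
    fun b y h hJ => by
      obtain ⟨h1, h2⟩ := hs b y h
      have k := k b y (e1 ▸ h1)
      obtain ⟨b, rfl⟩ := Nat.exists_eq_add_of_le' (h0.trans h1.1)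
      simp only [Gd.on, strict_eq, e1, e2, jz_eq h.2.2, if_pos h, chkG, cnd_eq, Nat.beq_eq] at k
      simp only [F, Prod.mk.injEq, true_and]
      have hB : Bm.Wf ⟨b, D.Am.J (b + 1) y, D.Ah.J (b + 1) y, 2 * b + 1, D.Am.J (b + 1) y + 2,
          (D.Am.J (b + 1) y + 17) / 16, G.Md (b + 1) y, G.Th (b + 1) y, G.Q (b + 1) y⟩ :=
        ⟨rfl, rfl, by simp only; omega⟩
      have := h.2.2
      interval_cases y
      exacts [cG3_le hP hB h2 hJ k (rep_fG0 hP hB), cG3_le hP hB h2 hJ k (rep_fG1 hP hB)]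
  have eF : ∀ (a : Fin D.Ah.N) (j : Fin D.Am.N), |mom (th0 G.Th (D.Ah.mem a))
      (uD (xi0 G.Md) (D.Am.mem j)) - sel D.lo a j| = F (D.Ah.mem a) (D.Am.mem j) := fun a j => by
    have h := ((mem_in a.2).sub hs).ps
    simp only [F, sel]
    congr 2
    exact if_congr ⟨fun e => by rw [← e]; exact h.2.symm,
      fun e => by rw [Ps.Dat.lo, e]; exact (Lay.mem_spec j.2).2.2⟩ rfl rfl
  refine Nm.of_rc (p := G.g1 / 4 ^ G.P.s) (q := G.g2 / 4 ^ G.P.s) hδ (fun a => ?_) (fun j => ?_)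
    (by positivity)
    (by rwa [div_mul_div_comm, div_le_iff₀ (by positivity), ← pow_two, ← mul_pow])
  · have h := mem_in a.2
    simp only [eF]
    rw [sum_one (h.sub hs).1 fun d hd => off _ d h hd]
    exact (blk _ _ h.1 (Nat.ne_zero_of_lt h.2)).1 _ h.2
  · have h := mem_in j.2
    simp only [eF]
    by_cases c : D.Ah.Has (D.Am.mem j).1 (D.Am.mem j).2.1
    · rw [sum_one (f := fun d => F d (D.Am.mem j)) c fun d hd e =>
        off d _ hd h fun x => e ⟨x.1.symm, x.2.symm⟩]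
      by_cases z : D.Ah.J (D.Am.mem j).1 (D.Am.mem j).2.1 = 0
      · rw [z, sum_range_zero]
        positivity
      · exact (blk _ _ c z).2 _ h.2
    · rw [sum_eq_zero fun a _ => off _ _ (mem_in a.2) h fun x => c (x.1 ▸ x.2 ▸ (mem_in a.2).1)]
      positivity

end Pool.Agent.Work.MP_6bf1e5_an.H.Bk
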