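import Pool.Agent.Work.MP_6bf1e5_an.H.ResDefs
import Pool.Agent.Lib.Dy.Gam

/-! The constants `lam`, `lamS`, `cnS`, `Jc` in terms of `Γ` at quarter integers (owner helper60). -/

open scoped Real

namespace Pool.Agent.Work.MP_6bf1e5_an.H

open Pool.Agent.Lib.Dy

theorem lam_eq_gq (k : ℕ) : lam k = gq (9 + 4 * k) / gq (3 + 4 * k) := by
  rw [lam, gamma_eq_gq (9 + 4 * k) (by push_cast; ring),
    gamma_eq_gq (3 + 4 * k) (by push_cast; ring)]

theorem lam_pos (k : ℕ) : 0 < lam k := by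
  rw [lam_eq_gq]
  exact div_pos (gq_pos (by omega)) (gq_pos (by omega))

theorem lam_eq (k : ℕ) : lam k = lam 0 * pr4 9 k / pr4 3 k := by
  rw [lam_eq_gq, lam_eq_gq, gq_add_mul (by norm_num), gq_add_mul (by norm_num)]
  have h1 := gq_pos (m := 3) (by norm_num)
  have h2 : (0 : ℝ) < pr4 3 k := by exact_mod_cast pr4_pos (by norm_num) k
  simp only [mul_zero, add_zero]
  field_simp

theorem lam_succ (k : ℕ) : lam (k + 1) = lam k * (4 * k + 9) / (4 * k + 3) := by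
  rw [lam_eq (k + 1), lam_eq k, pr4, pr4]
  have h2 : (0 : ℝ) < pr4 3 k := by exact_mod_cast pr4_pos (by norm_num) k
  push_cast
  field_simp
  ring

theorem enc_lam0 : Enc 3072 (lam 0) cL0 2 := enc_l0.congr (lam_eq_gq 0).symm

/-- `lam 0` with fewer bits. -/
theorem enc_lam0' {N d : ℕ} (h : N + d = 3072) (hd : 1 ≤ d) : Enc N (lam 0) (cL0 / 2 ^ d) 2 :=
  Enc.shift (h ▸ enc_lam0) (by simpa using Nat.pow_le_pow_right (n := 2) (by norm_num) hd)

theorem lam0_bounds : (0.92458597 : ℝ) ≤ lam 0 ∧ lam 0 ≤ 0.92458598 := by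
  have h : Enc 40 (lam 0) 1016593030112 2 :=
    (enc_lam0' (N := 40) (d := 3032) rfl (by norm_num)).mono (by decide +kernel) (by decide +kernel)
  obtain ⟨h1, h2⟩ := h
  norm_num at h1 h2
  constructor <;> linarith

/-- `lam k` from an enclosure of `lam 0`. -/
theorem enc_lam {N A e : ℕ} (h : Enc N (lam 0) A e) (k : ℕ) :
    Enc N (lam k) (A * pr4 9 k / pr4 3 k) (e * pr4 9 k / pr4 3 k + 2) := by
  have hp := pr4_pos (a := 3) (by norm_num) k
  refine (h.ratDiv (i := e * pr4 9 k / pr4 3 k + 1) hp ?_).congr (lam_eq k).symm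
  rw [add_mul, one_mul]
  exact (Nat.lt_div_mul_add hp).le

theorem lamS_eq (n : ℕ) : lamS (n + 1) = lam n * (4 * n + 6) / (4 * n + 3) := by
  rw [lamS, Nat.add_sub_cancel, lam_succ]
  field_simp
  ring

theorem cnS_eq (n : ℕ) : cnS (n + 1) = lam n * 3 / ((4 * n + 3) * (4 * n + 7)) := by
  rw [cnS, Nat.add_sub_cancel]
  have h1 : (0 : ℝ) < ((n + 1 : ℕ) : ℝ) - 1 / 4 := by push_cast; linarith [Nat.cast_nonneg (α := ℝ) n]
  rw [div_eq_div_iff (by positivity) (by positivity)]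
  push_cast
  ring

/-- The value of `Jc` at quarter integers; `q` is `m + m' + t - (4 l + 6)`. -/
theorem Jc_eq (a : ℝ) (t l m m' q : ℕ) (h : m + m' + t = 4 * l + 6 + q) :
    Jc a (t / 2) (l + 3 / 2) (m / 4) (m' / 4) = 2 ^ ((t : ℝ) / 2 - 1) * a ^ ((t : ℝ) / 4 - (l + 3 / 2))
      * (gq (m + t) / gq m) * (gq (m' + t) / gq m')
      * (gq (4 * l + 6 + t) * gq q / gq (4 * l + 6 + t + q)) := by
  have h' : (m : ℝ) + m' + t = 4 * l + 6 + q := by exact_mod_cast h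
  rw [Jc, gamma_eq_gq (4 * l + 6 + t) (by push_cast; ring),
    gamma_eq_gq (x := m / 4 + t / 2 / 2) (m + t) (by push_cast; ring),
    gamma_eq_gq (x := m' / 4 + t / 2 / 2) (m' + t) (by push_cast; ring),
    gamma_eq_gq (x := m / 4 + m' / 4 + t / 2 / 2 - (l + 3 / 2)) q (by linarith),
    gamma_eq_gq (x := m / 4 + m' / 4 + t / 2) (4 * l + 6 + t + q) (by push_cast; linarith),
    gamma_eq_gq m rfl, gamma_eq_gq m' rfl, show (t : ℝ) / 2 / 2 = t / 4 by ring]
  ring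

end Pool.Agent.Work.MP_6bf1e5_an.H
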