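import Pool.Agent.Work.MP_6bf1e5_an.H.RadD
import Pool.Agent.Work.MP_6bf1e5_an.H.Const
import Pool.Agent.Work.MP_6bf1e5_an.H.BkD
import Pool.Agent.Lib.KMx.Sound

/-! The meaning of the kernel side of the block diagonal quantities (owner helper84). -/

open scoped Real
open Polynomial Finset

namespace Pool.Agent.Work.MP_6bf1e5_an.H.Bk

open Pool.Agent.Lib.KLA Pool.Agent.Lib.KBlk Pool.Agent.Lib.KMx Pool.Agent.Lib.Dy

noncomputable section

variable {W d s q p n c h L M N b k : ℕ} {P : Pm} {T U : MT} {g g' : ℕ → ℕ → ℝ} {sh : ℕ → ℕ}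

theorem pq_four (a : ℕ) : ∀ n, pq 4 a n = pr4 a n
  | 0 => rfl
  | n + 1 => by rw [pq_succ, pq_four a n, pr4]

theorem enc_cB {r : ℕ} (h : r < 4) : Enc 3072 (gq 2 * gq (r + 1) / (2 * gq (r + 3))) (cB r) 8 := by
  have h1 := (gq_pos (m := 1) one_pos).ne'
  have h2 := (gq_pos (m := 2) two_pos).ne'
  interval_cases r
  · exact (((enc_g2.mul' enc_r13).rat (p := 1) (q := 2) (C := cG2 * cR13 / 2) (i := 6 * 2 ^ 3072)
      two_pos (by decide +kernel) (by decide +kernel)).drop (by decide +kernel) (by decide +kernel)).congr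
      (by ring)
  · exact (enc_pi.rat (p := 1) (q := 2) two_pos (by decide +kernel) (by decide +kernel)).congr
      (by simp [gq_four, gq_two, Real.mul_self_sqrt Real.pi_pos.le])
  · refine (((enc_g2.mul' enc_r31).rat (p := 2) (q := 1) (C := cG2 * cR31 * 2) (i := 5 * 2 ^ 3072)
      one_pos (by decide +kernel) (by decide +kernel)).drop (by decide +kernel)
      (by decide +kernel)).congr ?_
    rw [gq_add_four (m := 1) one_pos]
    field_simp
    ring
  · refine ((Enc.one 3072).mono (by decide +kernel) (by decide +kernel)).congr ?_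
    rw [gq_add_four (m := 2) two_pos, gq_four]
    field_simp
    norm_num

theorem Jt_gq (d q : ℕ) :
    Jt d (4 * d + 7 + q) 1 = gq (2 + 4 * (d + 1)) * gq (q + 1) / (2 * gq (q + 3 + 4 * (d + 1))) := by
  rw [Jt_one (by omega), gamma_eq_gq (2 + 4 * (d + 1)) (by push_cast; ring),
    gamma_eq_gq (q + 1) (by push_cast; ring), gamma_eq_gq (q + 3 + 4 * (d + 1)) (by push_cast; ring)]

theorem pr4_mono {a a' : ℕ} (h : a ≤ a') : ∀ n, pr4 a n ≤ pr4 a' n
  | 0 => le_rfl
  | n + 1 => Nat.mul_le_mul (pr4_mono h n) (by omega)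

theorem jq_enc (hs : s + 3 ≤ 3072) (q : ℕ) : Enc s (Jt d (4 * d + 7 + q) 1) (jq d s q) (q + 2) := by
  obtain ⟨r, n, hr, rfl⟩ : ∃ r n, r < 4 ∧ q = r + 4 * n := ⟨q % 4, q / 4, by omega, by omega⟩
  have e1 : Nat.mod (r + 4 * n) 4 = r := by change (r + 4 * n) % 4 = r; omega
  have e2 : Nat.div (r + 4 * n) 4 = n := by change (r + 4 * n) / 4 = n; omega
  rw [jq, strict_eq, strict_eq, e1, e2]
  refine Enc.mono (k := n + 2) ?_ le_rfl (by omega)
  clear e1 e2
  induction n with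
  | zero =>
    obtain ⟨t, ht⟩ : ∃ t, 3072 = s + (t + 3) := ⟨3072 - s - 3, by omega⟩
    have h := enc_cB hr
    have h' : Enc s (2 ^ (t + 3) * (gq 2 * gq (r + 1) / (2 * gq (r + 3)))) (cB r) 8 := by
      rwa [ht, Enc, pow_add, mul_assoc] at h
    have hp := pr4_pos (a := r + 3) (by omega) (d + 1)
    have := h'.ratDiv (p := pr4 2 (d + 1)) (q := pr4 (r + 3) (d + 1) * 2 ^ (t + 3)) (i := 1)
      (by positivity) (by
        have := pr4_mono (a := 2) (a' := r + 3) (by omega) (d + 1)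
        have := Nat.two_pow_pos t
        rw [pow_add]
        nlinarith)
    simp only [Nat.rec_zero, Nat.add_eq, Nat.mul_eq, shl_eq, pq_four, Nat.sub_eq,
      show 3072 - s = t + 3 by omega]
    refine this.congr ?_
    have := (gq_pos (m := r + 3) (by omega)).ne'
    rw [Jt_gq, gq_add_mul two_pos, mul_zero, add_zero, gq_add_mul (by omega)]
    push_cast
    field_simp
  | succ n ih =>
    refine (ih.ratDiv (i := n + 2) (p := r + 1 + 4 * n) (q := 4 * d + 7 + r + 4 * n) (by omega)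
      (Nat.mul_le_mul_left _ (by omega))).congr ?_
    have := (gq_pos (m := r + 4 * n + 3 + 4 * (d + 1)) (by omega)).ne'
    rw [Jt_gq, Jt_gq, show r + 4 * (n + 1) + 1 = r + 4 * n + 1 + 4 by ring, gq_add_four (by omega),
      show r + 4 * (n + 1) + 3 + 4 * (d + 1) = r + 4 * n + 3 + 4 * (d + 1) + 4 by ring,
      gq_add_four (by omega)]
    push_cast
    field_simp
    ring

theorem rep_jv (hW : 0 < W) (hs : s + 3 ≤ 3072) (g : ℕ) : Rep W (16 * (n / 16 + 1)) (jv W d s q g n)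
    (up 1 fun _ i => if i < n then 2 ^ s * Jt d (4 * d + 7 + q + g * i) 1 else 0) := by
  refine ((rep_gen (y := fun i => 2 ^ s * Jt d (4 * d + 7 + q + g * i) 1) hW fun i hi => ?_).tr hW
    _).congr fun _ _ _ => rfl
  have := (jq_enc (d := d) hs (q + g * i)).abs
  rw [abs_sub_comm, ← add_assoc] at this
  rw [strict_eq]
  refine this.trans ?_
  exact_mod_cast Nat.add_le_add_right (Nat.add_le_add_left (Nat.mul_le_mul_left g hi.le) q) 2

/-- The recurrence of moments against the `gf d m`. -/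
def Tri (d : ℕ) (F : ℕ → ℕ → ℝ) : Prop := ∀ m u, F (m + 1) u = (2 * m + 2 * d + 2) * F m u
  - 2 * (2 * m + 2 * d + 2) * F m (u + 1) - (m + 2 * d + 1) * m * F (m - 1) u

theorem Tri.mul {F : ℕ → ℕ → ℝ} (h : Tri d F) (r : ℝ) : Tri d fun m u => r * F m u := fun m u => by
  simp only [h m u]
  ring

theorem tri_Jt (h : 4 * d + 6 < k) (Q : ℝ[X]) : Tri d fun m u => Jt d (k + 4 * u) (gf d m * Q)
  | 0, u => by simp [Jt_gf_one (show 4 * d + 6 < k + 4 * u by omega), gf_zero, mul_add, add_assoc]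
  | m + 1, u => by
    simp only [Jt_gf_rec (show 4 * d + 6 < k + 4 * u by omega), mul_add 4, mul_one, add_assoc,
      Nat.add_sub_cancel]
    push_cast
    ring

theorem tri_Jl (Q : ℝ[X]) : ∀ (e k : ℕ), 4 * d + 6 < k →
    Tri d fun m u => Jl d (gf d m * Q) e (k + 4 * u)
  | 0, _, h => tri_Jt h Q
  | e + 1, k, h => fun m u => by
    have h1 := tri_Jl Q e k h m u
    have h2 := tri_Jl Q e (k + 1) (by omega) m u
    simp only [Jl, add_right_comm k _ 1] at h1 h2 ⊢
    linarith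

theorem rep_lg {r : ℕ} {F : ℕ → ℕ → ℝ} (hT : Rep W r T g) (hW : 0 < W) (hr : h * L + p ≤ r)
    (h0 : ∀ i < h * L + p, F 0 i = g 0 i) (hF : ∀ m i, F (m + 1) i = (2 * m + 2 * d + 2) * F m i
      - 2 * (2 * m + 2 * d + 2) * F m (h + i) - (m + 2 * d + 1) * m * F (m - 1) i) :
    Rep W p (lg W h p L d sh T) (up (L + 1) fun i j => F i j / 2 ^ sh i) :=
  hT.lev hW hr h0 (by simp) fun m i => by
    simp only [hF, Nat.add_eq, Nat.mul_eq]
    push_cast
    ring

/-- The slots are not empty. -/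
def Pm.Pos (P : Pm) : Prop := 0 < P.W0 ∧ 0 < P.W1 ∧ 0 < P.W

theorem up_up {m : ℕ} (h : n ≤ m) (g : ℕ → ℕ → ℝ) : up m (up n g) = up n g := by
  funext i j
  simp only [up]
  split_ifs <;> first | rfl | omega

theorem rep_moH (hP : P.Pos) (hs : s + 3 ≤ 3072) : Rep P.W1 p (moH P d s q p M sh)
    (up (M + 1) fun m u => 2 ^ s * Jt d (4 * d + 7 + q + 4 * u) (gf d m) / 2 ^ sh m) := by
  have t := rep_lg (sh := sh) (h := 1) (L := M) (p := p) (d := d)
    (F := fun m u => 2 ^ s * Jt d (4 * d + 7 + q + 4 * u) (gf d m))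
    (rep_jv (n := M + p) (d := d) (q := q) hP.1 hs 4) hP.1 (by omega)
    (fun i hi => by simp [up, gf_zero, show i < M + p by omega]) fun m i => by
      simpa only [mul_one, add_comm i 1] using
        (tri_Jt (show 4 * d + 6 < 4 * d + 7 + q by omega) 1).mul (2 ^ s) m i
  refine ((t.tgt (M + 1) P.b1).rs (W := P.W1) (p := p) hP.1 one_pos (by omega)).congr
    fun i j _ => ?_
  rw [up_up le_rfl, one_mul]

theorem rep_moL (hP : P.Pos) (hs : s + 3 ≤ 3072) (ρ : ℕ → ℕ) : Rep P.W1 p (moL P d s q p M L ρ sh)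
    (up (M + 1) fun m u => 2 ^ s * Jl d 1 (ρ m) (4 * d + 7 + q + 4 * u) / 2 ^ sh m) := by
  have t := (rep_jv (n := L + 4 * p) (d := d) (q := q) hP.1 hs 1).lev (n := M + 1) (h := 1) (L := L)
    (p := 4 * p) (ρ := ρ) (sh := sh) (α := fun _ => 1) (β := fun _ => 1) (γ := fun _ => 0)
    (F := fun m u => 2 ^ s * Jl d 1 m (4 * d + 7 + q + u)) hP.1 (by omega)
    (fun i hi => by simp [up, Jl, show i < L + 4 * p by omega]) rfl fun m i => by
      simp [Jl, mul_sub, add_assoc, add_comm i 1]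
  refine ((t.tgt (M + 1) P.b1).rs (W := P.W1) (p := p) hP.1 four_pos le_rfl).congr fun i j _ => ?_
  rw [up_up le_rfl]
  rfl

theorem rep_mo2 {G : ℕ → ℕ → ℕ → ℝ} (hP : P.Pos) (hT : Rep P.W1 (L + 1) T g) (hc : 0 < c)
    (h0 : ∀ f < 16 * c, ∀ u ≤ L, G f 0 u = g f u) (hG : ∀ f < 16 * c, Tri d (G f)) :
    Rep P.W (16 * c) (mo2 P d c L sh T) (up (L + 1) fun m f => G f m 0 / 2 ^ sh m) := by
  have hh : 0 < 16 * c := by omega
  have t := rep_lg (sh := sh) (h := 16 * c) (L := L) (p := 16 * c) (d := d)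
    (F := fun m i => G (i % (16 * c)) m (i / (16 * c)))
    ((hT.tr hP.2.1 c).cc (c := L / 16 + 1) hP.2.1 hh) hP.2.1
    (by rw [← mul_add_one]; exact Nat.mul_le_mul_left _ (by omega))
    (fun i hi => by
      have : i / (16 * c) < L + 1 := Nat.div_lt_of_lt_mul (by rwa [mul_add_one])
      simp only [up, if_pos this]
      exact h0 _ (Nat.mod_lt _ hh) _ (by omega)) fun m i => by
      rw [hG _ (Nat.mod_lt _ hh), Nat.add_mod_left, Nat.add_div_left _ hh]
  refine ((((t.mem hP.2.1 (L / 16 + 1)).tgt (L + 1) P.b2).rs (W := P.W) (p := 16 * c) hP.2.1 one_pos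
    (by omega)).mem hP.2.2 (L / 16 + 1)).congr fun i j hj => ?_
  simp only [up, one_mul, Nat.mod_eq_of_lt hj, Nat.div_eq_of_lt hj]
  split_ifs <;> first | rfl | omega

theorem rep_fx (hP : P.Pos) (h : Rep P.W p T g) (c s b : ℕ) :
    Rep P.W p (fx P p c s b T) (up (16 * c) fun i j => g i j / 2 ^ s) := by
  simpa only [fx, Nat.mul_eq, up_up le_rfl] using ((h.rnT s).mem hP.2.2 c).tgt (16 * c) b

theorem rep_tm (hP : P.Pos) (h : Rep P.W p T g) (h' : Rep P.W q U g') (c : ℕ) :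
    Rep P.W q (tm P p q c T U) (up p fun i j => ∑ k ∈ range (16 * c), g k i * g' k j) :=
  ((h.tr hP.2.2 c).mm h' hP.2.2).congr fun i j _ => by
    simp only [up]
    split_ifs <;> simp

/-! ### Coefficients and moments -/

/-- Column `j` holds the coefficients `c j` with respect to the scaled polynomials. -/
def Cn (P : Pm) (d : ℕ) (κ : ℝ) (c : ℕ → ℕ → ℝ) : ℕ → ℕ → ℝ := fun i j => κ * c j i * 2 ^ P.ep d i

/-- Column `j` holds the moments `x j` against the scaled polynomials. -/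
def Mn (P : Pm) (d : ℕ) (κ : ℝ) (x : ℕ → ℕ → ℝ) : ℕ → ℕ → ℝ := fun i j => κ * x j i / 2 ^ P.ep d i

/-- The vector vanishes from `N` on. -/
def Zs (N : ℕ) (c : ℕ → ℝ) : Prop := ∀ m, N ≤ m → c m = 0

variable {κ : ℝ} {x : ℕ → ℕ → ℝ} {y : ℕ → ℝ}

theorem zs_sp (h : Sp N y) : Zs N y := fun m hm => h m (by omega)

theorem vX_zs (h : Zs N y) (A : ℕ → ℕ → ℝ) (j : ℕ) {S : Finset ℕ} (hS : ∀ m ∉ S, A m j = 0) :
    vX N y A j = ∑ m ∈ S, y m * A m j :=
  (sum_subset (subset_union_left (s₂ := S)) fun m _ hm => by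
    rw [h m (by simpa using hm), zero_mul]).trans (sum_subset (subset_union_right (s₁ := range N))
    fun m _ hm => by rw [hS m hm, mul_zero]).symm

theorem enc_one (s : ℕ) : Enc s 1 (Nat.shiftLeft 1 s) 0 := by
  rw [shl_eq, one_mul]
  exact Enc.one s

theorem sgn_tt : sgn true = -1 := rfl

theorem sgn_ff : sgn false = 1 := rfl

theorem vX_cU (h : Zs N y) (a : ℝ) (i : ℕ) : vX N y (cU a d) i = (d + 1) *
    (-((d + i + a) / (2 * (d + i + 1))) * y i + (i + 1) * y (i + 1)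
      - (i + 2) * (i + 1) * (d + i + 4 - a) / (2 * (d + i + 3)) * y (i + 2)) := by
  rw [vX_zs h _ _ (S := {i, i + 1, i + 2}) fun m hm => by
    simp only [mem_insert, mem_singleton, not_or] at hm
    rw [cU, if_neg (by omega), if_neg (by omega), if_neg (by omega), mul_zero],
    sum_insert (by simp), sum_pair (by simp), cU, cU, cU, if_pos rfl, if_neg (by omega), if_pos rfl,
    if_neg (by omega), if_neg (by omega), if_pos rfl]
  push_cast
  rw [show (d : ℝ) + (i + 2) + 1 = d + i + 3 by ring]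
  ring

theorem gt_eq (j i : ℕ) : gt j i = if i ≤ j then 0 else 1 := by simp [gt, cnd_eq]

theorem vX_cV (h : Zs N y) (a : ℝ) (i : ℕ) : vX N y (cV a d) i = 1 / (d + 1) *
    ((i + 2 * d + 2) * (i + 2 * d + 3) * (d + i + 3 - a) / (4 * (d + i + 2)) * y i
      - gt 0 i * (i + 2 * d + 2) / 2 * y (i - 1)
      + gt 1 i * (d + (i - 1 : ℕ) + a) / (4 * (d + i)) * y (i - 2)) := by
  rcases i with _ | _ | i
  · rw [vX_zs h _ _ (S := {0}) fun m hm => by
      rw [cV, if_neg (by simpa [eq_comm] using hm), if_neg (by omega), if_neg (by omega), mul_zero]]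
    simp [cV, gt_eq]
    ring
  · rw [vX_zs h _ _ (S := {0, 1}) fun m hm => by
      simp only [mem_insert, mem_singleton, not_or] at hm
      rw [cV, if_neg (by omega), if_neg (by omega), if_neg (by omega), mul_zero]]
    simp [cV, gt_eq]
    ring
  · rw [vX_zs h _ _ (S := {i, i + 1, i + 2}) fun m hm => by
      simp only [mem_insert, mem_singleton, not_or] at hm
      rw [cV, if_neg (by omega), if_neg (by omega), if_neg (by omega), mul_zero],
      sum_insert (by simp), sum_pair (by simp), cV, cV, cV, if_neg (by omega), if_neg (by omega),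
      if_pos rfl, if_neg (by omega), if_pos rfl, if_pos rfl, gt_eq, gt_eq, if_neg (by omega),
      if_neg (by omega)]
    simp only [show i + 1 + 1 - 1 = i + 1 from rfl, show i + 1 + 1 - 2 = i from rfl]
    push_cast
    rw [show (d : ℝ) + (i + 1 + 1) = d + i + 2 by ring, show (d : ℝ) + (i + 2) = d + i + 2 by ring]
    ring

theorem rep_ds (hP : P.Pos) (h : Rep P.W p T (Cn P d κ x)) (n d' : ℕ) (sg : Bool)
    (u v σ : ℕ → ℕ) : Rep P.W p (ds P p n d d' sg u v σ T)
      (up n fun i j => 2 ^ P.s * κ * 2 ^ P.ep d' i * (sgn sg * (u i / v i) * x j (σ i))) :=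
  (h.dsc hP.2.2 (enc_one P.s) n sg _ _ σ).congr fun i j _ => by
    simp only [up, Cn, shl_eq, strict_eq]
    split_ifs
    · push_cast
      rw [mul_comm (v i : ℝ), ← div_div]
      field_simp
    · rfl

theorem sgn_not (b : Bool) : sgn (!b) = -sgn b := by cases b <;> simp [sgn]

theorem fx_three (hP : P.Pos) {T1 T2 T3 : MT} {g1 g2 g3 : ℕ → ℕ → ℝ} (h1 : Rep P.W p T1 (up n g1))
    (h2 : Rep P.W p T2 (up n g2)) (h3 : Rep P.W p T3 (up n g3))
    (e : ∀ i < n, ∀ j, g1 i j + g2 i j + g3 i j = 2 ^ P.s * g i j) :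
    Rep P.W p (fx P p (n / 16 + 1) P.s b (add (add T1 T2) T3)) (up n g) :=
  (rep_fx hP ((h1.add h2).add h3) _ _ _).congr fun i j _ => by
    simp only [up]
    split_ifs with h h'
    · rw [e i h, mul_div_cancel_left₀ _ (by positivity)]
    · omega
    · simp
    · rfl

theorem up_Cn (h : ∀ j, Zs N (x j)) : up N (Cn P d κ x) = Cn P d κ x := by
  funext i j
  simp only [up, Cn]
  split_ifs with h1
  · rfl
  · rw [h j i (by omega), mul_zero, zero_mul]

variable {a u v : ℕ} {A : ℕ → ℕ → ℝ} {sg : Bool}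

theorem rep_bU (hP : P.Pos) (h : Rep P.W p T (Cn P d κ x)) (hx : ∀ j, Zs N (x j)) (ha : a ≤ 16)
    (hA : ∀ m j, A m j = sgn sg * (u / v) * cU (a / 4) d m j) :
    Rep P.W p (bU P p N b a d u v sg (!sg) T) (up N (Cn P (d + 1) κ fun j => vX N (x j) A)) := by
  refine fx_three hP (rep_ds hP h _ _ _ _ _ _) (rep_ds hP h _ _ _ _ _ _) (rep_ds hP h _ _ _ _ _ _)
    fun i _ j => ?_
  simp only [Cn, show A = _ from funext₂ hA, vX_mul, vX_cU (hx j), sgn_not, Nat.add_eq, Nat.mul_eq,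
    Nat.sub_eq]
  push_cast [Nat.cast_sub ha]
  rcases eq_or_ne (v : ℝ) 0 with h0 | h0
  · simp [h0]
  field_simp
  ring

theorem rep_bV (hP : P.Pos) (h : Rep P.W p T (Cn P (d + 1) κ x)) (hx : ∀ j, Zs N (x j)) (ha : a ≤ 12)
    (hA : ∀ m j, A m j = sgn sg * (u / v) * cV (a / 4) d m j) :
    Rep P.W p (bV P p N b a d u v sg (!sg) T) (up N (Cn P d κ fun j => vX N (x j) A)) := by
  refine fx_three hP (rep_ds hP h _ _ _ _ _ _) (rep_ds hP h _ _ _ _ _ _) (rep_ds hP h _ _ _ _ _ _)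
    fun i _ j => ?_
  simp only [Cn, show A = _ from funext₂ hA, vX_mul, vX_cV (hx j), sgn_not, Nat.add_eq, Nat.mul_eq,
    Nat.sub_eq, pq_succ 1 _ 1, pq_succ 1 _ 0, show ∀ a, pq 1 a 0 = 1 from fun _ => rfl]
  push_cast [Nat.cast_sub ha]
  rcases eq_or_ne (v : ℝ) 0 with h0 | h0
  · simp [h0]
  rcases eq_or_ne (d + i : ℝ) 0 with h1 | h1
  · have : i = 0 := by
      have : d + i = 0 := by exact_mod_cast h1
      omega
    simp only [this, gt_eq, zero_le, if_true, Nat.cast_zero, mul_zero, zero_mul, zero_div]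
    field_simp
    ring
  field_simp
  ring

theorem zs_low (hA : ∀ m j, m < j → A m j = 0) : Zs N (vX N y A) := fun j hj =>
  sum_eq_zero fun m hm => by rw [hA m j ((mem_range.1 hm).trans_le hj), mul_zero]

theorem zs_cV (h : Sp N y) {r a : ℝ} (hA : ∀ m j, A m j = r * cV a d m j) : Zs N (vX N y A) :=
  fun j hj => sum_eq_zero fun m _ => by
    rcases lt_or_ge (m + 2) N with h1 | h1
    · rw [hA, cV, if_neg (by omega), if_neg (by omega), if_neg (by omega)]
      simp
    · rw [h m h1, zero_mul]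

/-! ### The squared norms -/

theorem Jw_orth (hd : 1 ≤ d) (i j : ℕ) : Jw d 0 (gf d i * gf d j) = if i = j then nF d i else 0 := by
  split_ifs with h
  · have e := ip_eV d i
    rw [eV, sm_tO, sm_tO, ← fT, ← fT, ip_fT, if_pos rfl, mul_right_inj' (nT_pos hd).ne',
      show (3 / 4 + 9 / 4 - 3 : ℝ) = 0 by norm_num] at e
    rw [← h, gf, mul_mul_mul_comm, ← C_mul, Jw_C, e, nF]
    field_simp
  · have h0 : -((d : ℝ) + 3 / 2) < 0 := by linarith [Nat.cast_nonneg (α := ℝ) d]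
    have e := Jw_ibp h0 (derivative (gf d i) * gf d j - gf d i * derivative (gf d j))
    rw [Jw_congr (Q := C ((j - i) * (i + j + 2 * d + 2) : ℝ) * (gf d i * gf d j)) fun x => ?_,
      Jw_C] at e
    · refine (mul_eq_zero.1 e).resolve_left (mul_ne_zero (sub_ne_zero.2 ?_) (by positivity))
      exact_mod_cast Ne.symm h
    simp only [derivative_sub, derivative_mul, eval_add, eval_mul, eval_sub, eval_C, eval_X, eval_one,
      eval_pow]
    linear_combination (gf d j).eval x * gf_ode d i x - (gf d i).eval x * gf_ode d j x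

theorem Jw_gS_gf (hd : 1 ≤ d) (h : Zs N y) (i : ℕ) : Jw d 0 (gS d N y * gf d i) = nF d i * y i := by
  rw [Jw_gS (by linarith [Nat.cast_nonneg (α := ℝ) d])]
  simp only [Jw_orth hd, mul_ite, mul_zero, sum_ite_eq', mem_range]
  split_ifs with h1
  · ring
  · rw [h i (by omega), mul_zero]

theorem Jw_gS_zero (hd : 1 ≤ d) (y z : ℕ → ℝ) :
    Jw d 0 (gS d N y * gS d N z) = ∑ i ∈ range N, y i * (nF d i * z i) := by
  rw [Jw_gS (by linarith [Nat.cast_nonneg (α := ℝ) d])]
  refine sum_congr rfl fun i hi => ?_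
  rw [mul_comm (gf d i), Jw_gS (by linarith [Nat.cast_nonneg (α := ℝ) d])]
  simp only [Jw_orth hd, mul_ite, mul_zero, sum_ite_eq', if_pos hi, mul_comm (z i)]

theorem nF_succ (d i : ℕ) : nF d (i + 1) * (i + d + 2) =
    nF d i * ((i + 2 * d + 2) * (i + 1) * (i + d + 1)) := by
  rw [nF, nF, show i + 1 + 2 * d + 1 = i + 2 * d + 1 + 1 by ring, Nat.factorial_succ,
    Nat.factorial_succ i]
  push_cast
  field_simp
  ring

theorem Jw_one_gf (hd : 1 ≤ d) (h : Zs N y) (i : ℕ) : Jw d 1 (gS d N y * gf d i) = nF d i *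
    (y i - gt 0 i / (2 * (i + d)) * y (i - 1)
      - (i + 2 * (d + 1)) * (i + 1) / (2 * (i + d + 2)) * y (i + 1)) := by
  have h0 : -((d : ℝ) + 3 / 2) < 0 := by linarith [Nat.cast_nonneg (α := ℝ) d]
  have h1 := nF_succ d i
  rcases i with _ | i
  · have := Jw_gf_one h0 (gS d N y)
    have h2 := Jw_gS_gf hd h 0
    rw [mul_comm, Jw_gS_gf hd h, zero_add] at this
    simp only [gf_zero, mul_one, gt_eq, le_rfl, if_true] at h2 ⊢
    push_cast at h1 ⊢
    linear_combination (norm := (field_simp; ring)) 1 / (2 * d + 2) * this + h2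
      - y 1 / ((2 * d + 2) * (d + 2)) * h1
  · have := Jw_gf_rec h0 i (gS d N y)
    have h2 := nF_succ d i
    simp only [mul_comm (gf d _), Jw_gS_gf hd h, zero_add] at this
    simp only [gt_eq, if_neg (Nat.not_succ_le_zero i), Nat.add_sub_cancel]
    push_cast at h1 ⊢
    linear_combination (norm := (field_simp; ring)) 1 / (2 * i + 2 * d + 4) * this
      - y (i + 2) / ((2 * i + 2 * d + 4) * (i + d + 3)) * h1
      + y i / ((2 * i + 2 * d + 4) * (i + d + 1)) * h2

theorem nF_eq (d i : ℕ) : nF d i = π * (nu d i / nv d i) := by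
  simp only [nF, nu, nv, pq_fac, shl_eq, Nat.add_eq, Nat.mul_eq]
  push_cast
  ring

theorem rep_dn (hP : P.Pos) (h : Rep P.W p T (Cn P d κ x)) (n : ℕ) (sg : Bool)
    (u v σ : ℕ → ℕ) : Rep P.W p (dn P p n d sg u v σ T) (up n fun i j =>
      2 ^ P.s * κ / 2 ^ P.ep d i * (nF d i / π * (sgn sg * (u i / v i) * x j (σ i)))) :=
  (h.dsc hP.2.2 (enc_one P.s) n sg _ _ σ).congr fun i j _ => by
    simp only [up, Cn, shl_eq, strict_eq, nF_eq, Nat.add_eq, Nat.mul_eq]
    split_ifs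
    · push_cast
      rw [mul_div_cancel_left₀ _ Real.pi_ne_zero, mul_comm ((v i : ℝ) * _), ← div_div, ← div_div,
        pow_add]
      field_simp
    · rfl

theorem rep_bX (hP : P.Pos) (h : Rep P.W p T (Cn P d κ x)) (hx : ∀ j, Zs N (x j)) (hd : 1 ≤ d) :
    Rep P.W p (bX P p n b d T)
      (up n (Mn P d κ fun j i => Jw d 1 (gS d N (x j) * gf d i) / π)) := by
  refine fx_three hP (rep_dn hP h _ _ _ _ _) (rep_dn hP h _ _ _ _ _) (rep_dn hP h _ _ _ _ _)
    fun i _ j => ?_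
  simp only [Mn, Jw_one_gf hd (hx j), sgn_tt, sgn_ff, Nat.add_eq, Nat.mul_eq, Nat.sub_eq]
  push_cast
  ring

theorem fx_up (hP : P.Pos) (h : Rep P.W p T (up n g')) (e : ∀ i < n, ∀ j, g' i j = 2 ^ s * g i j)
    (hc : n ≤ 16 * c) : Rep P.W p (fx P p c s b T) (up n g) :=
  (rep_fx hP h _ _ _).congr fun i j _ => by
    simp only [up]
    split_ifs with h h'
    · rw [e i h, mul_div_cancel_left₀ _ (by positivity)]
    · omega
    · simp
    · rfl

theorem rep_bN (hP : P.Pos) (h : Rep P.W p T (Cn P d κ x)) :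
    Rep P.W p (bN P p n b d T) (up n (Mn P d κ fun j i => nF d i * x j i / π)) :=
  fx_up hP (rep_dn hP h _ _ _ _ _) (fun i _ j => by simp only [Mn, sgn_ff]; push_cast; ring)
    (by change n ≤ 16 * (n / 16 + 1); omega)

theorem rep_bI (hP : P.Pos) (h : Rep P.W p T (Mn P d κ x)) :
    Rep P.W p (bI P p n b d T) (up n (Cn P d κ fun j i => π * (x j i / nF d i))) :=
  fx_up hP (h.dsc hP.2.2 (enc_one P.s) n _ _ _ _) (fun i _ j => by
    simp only [Mn, Cn, sgn_ff, nF_eq, shl_eq, Nat.mul_eq]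
    push_cast
    rw [two_mul, pow_add]
    field_simp) (by change n ≤ 16 * (n / 16 + 1); omega)

variable {B : ℕ} {r : ℝ}

theorem rep_dl (hP : P.Pos) (h : Rep P.W p T g) (hB : Enc 3072 (r * lam 0) B 4) (hs : P.s ≤ 3072) :
    Rep P.W p (dl P p n B u v d T) (up n fun i j => 2 ^ P.s * (r * (u / v) * lam (d + i)) * g i j) :=
  (h.dsc hP.2.2 hB n _ _ _ _).congr fun i j _ => by
    obtain ⟨t, ht⟩ := Nat.exists_eq_add_of_le hs
    simp only [up, sgn_ff, shl_eq, strict_eq, pq_four, Nat.add_eq, Nat.mul_eq, Nat.sub_eq,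
      lam_eq (d + i), show 3072 - P.s = t by omega]
    split_ifs
    · push_cast
      rw [ht, pow_add, mul_comm _ ((2 : ℝ) ^ t), ← div_div, ← div_div]
      field_simp
    · rfl

theorem rep_dm {m : ℕ} (hP : P.Pos) (h : Rep P.W p T g) (hB : Enc 3072 (r * lam 0) B 4)
    (hs : P.s ≤ 3072) : Rep P.W p (dm P p n B u v m T)
      (up n fun i j => -(2 ^ P.s * (r * (u / v) * lamS (m + 1)) * g i j)) :=
  (h.dsc hP.2.2 hB n _ _ _ _).congr fun i j _ => by
    obtain ⟨t, ht⟩ := Nat.exists_eq_add_of_le hs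
    simp only [up, sgn_tt, shl_eq, pq_four, Nat.add_eq, Nat.mul_eq, Nat.sub_eq, lamS_eq,
      lam_eq m, show 3072 - P.s = t by omega]
    split_ifs
    · push_cast
      rw [ht, pow_add, mul_comm _ ((2 : ℝ) ^ t), ← div_div, ← div_div, ← div_div]
      field_simp
    · rfl

end

end Pool.Agent.Work.MP_6bf1e5_an.H.Bk
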