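import Pool.Agent.Work.MP_6bf1e5_an.H.FamS
import Pool.Agent.Work.MP_6bf1e5_an.H.Asm
import Pool.Agent.Lib.KRad.Top
import Pool.Agent.Lib.KBlk.VrS

/-! The families that are given by the stored coefficients. -/

open Finset Polynomial Pool.Agent.Lib Pool.Agent.Lib.KLA Pool.Agent.Lib.KBlk Pool.Agent.Lib.KRad
open scoped Real

namespace Pool.Agent.Work.MP_6bf1e5_an.H.Jf

open Gl Ca Ps

noncomputable section

/-- Column `j` of the coefficients. -/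
def col (A : Cm) (j i : ℕ) : ℤ := A.T.ent A.Ws A.B i j

/-- The conformal part of member `j`. -/
def gQ (A : Cm) (k k1 j : ℕ) : ℝ[X] := gP k k1 A.M A.E A.z (16 * A.c) (col A j)

/-- The profile of a mode. -/
def mQ (A : Mb) (k j : ℕ) : ℝ[X] :=
  X ^ (A.r + 4 * A.k1) * (gQ A.A k A.k1 j).comp (1 - 2 * X ^ 4)
    + X ^ A.i * lP k A.i A.I A.H.M A.H.E A.H.z (16 * A.H.c) (col A.H j)

/-- The modes. -/
def xi0 (Md : ℕ → ℕ → Mb) (d : Ix) : ℝ → ℝ :=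
  tF 1 (4 * (d.1 - 1) + if d.2.1 = 1 then 6 else 8 : ℕ) (mQ (Md d.1 d.2.1) (d.1 - 1) d.2.2)

/-- The polynomials of the functionals. -/
def thQ (Th : ℕ → ℕ → Cm) (b c m : ℕ) : ℝ[X] := gQ (Th b c) (b - 1) (b - 1) m

/-- The functionals. -/
def th0 (Th : ℕ → ℕ → Cm) (d : Ix) : Vc := thF d.2.1 (d.1 - 1) (thQ Th d.1 d.2.1 d.2.2)

/-- The factors. -/
def be0 (u : ℕ) (β : ℕ → ℕ → ℕ → ℕ) (d : Ix) : ℝ := β d.1 d.2.1 d.2.2 / 2 ^ u

/-- The radial parts of a test; `F` is the potential that is subtracted. -/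
def tsR (P : Pr) (a : ℕ) (A : Tb) (e : ℕ → ℕ → ℤ) (c k v j : ℕ) (F : ℝ[X]) : ℕ → ℝ[X] :=
  if c = 0 then r3 (C (1 / 2 ^ a) * tq P e j 0) (C (1 / (2 ^ a * v : ℝ)) * tq P e j 1)
    (z0 (C (1 / 2 ^ a) * tq P e j 0 + fA k F) (C (1 / (2 ^ a * v : ℝ)) * tq P e j 1 + fB F)
      (cS k k (C (1 / v : ℝ) * gQ A.G k k j)))
  else r3 (z1 k (C (1 / (2 ^ A.w.s * 2 ^ a * v : ℝ)) * tsP (16 * A.w.c) (col A.w j ·) - 3 * X * F)
      (C (1 / (2 ^ a * v : ℝ)) * tq P e j 1) (cS k k (C (1 / v : ℝ) * gQ A.G k k j)))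
    (C (1 / (2 ^ a * v : ℝ)) * tq P e j 1)
    (qX * (C (1 / (2 ^ A.w.s * 2 ^ a * v : ℝ)) * tsP (16 * A.w.c) (col A.w j ·)))

/-- The factor of the functional in a test; the last members start at `o`. -/
def bz (u : ℕ) (β : ℕ → ℕ → ℕ → ℕ) (o b c m : ℕ) : ℝ := if m < o then 0 else be0 u β (b, c, m - o)

/-- The tests; `e b c` is the table of the block `(b, c)`. -/
def x0 (P : Pr) (a u : ℕ) (J Js : ℕ → ℕ → ℕ) (β : ℕ → ℕ → ℕ → ℕ) (Th : ℕ → ℕ → Cm)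
    (Te : ℕ → ℕ → Tb) (e : ℕ → ℕ → ℕ → ℕ → ℤ) (d : Ix) : V6 :=
  if d.1 = 0 then jet0 e68 d.2.1 (C (1 / 2 ^ a) * tq P (e d.1 d.2.1) d.2.2 0)
  else jet e68 d.2.1 (d.1 - 1) (tsR P a (Te d.1 d.2.1) (e d.1 d.2.1) d.2.1 (d.1 - 1) (2 * d.1 + 1)
    d.2.2 (C (bz u β (J d.1 d.2.1 - Js d.1 d.2.1) d.1 d.2.1 d.2.2) * cS (d.1 - 1) (d.1 - 1)
      (thQ Th d.1 d.2.1 (d.2.2 - (J d.1 d.2.1 - Js d.1 d.2.1)))))

/-- The tables of a family. -/
structure Tbs (P : Pr) (U : Rows) (A : Lay) (d : ℕ) (R : ℕ → ℕ → Rows) (e : ℕ → ℕ → ℕ → ℕ → ℤ) :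
    Prop where
  w : 0 < P.W ∧ 0 < P.Wx ∧ 0 < P.W0 ∧ 2 * P.K0 < 2 ^ P.W0 ∧ 3 * P.n ≤ 8 * d
  sub : KRad.Sub P.V (16 * P.c) (Nat.shiftLeft 4 P.su) P.nU P.NU P.eU P.LU U (2 ^ P.su) (1 - X ^ 4)
  mat : ∀ b c, A.Has b c → Mat P.W0 (8 * A.J b c) P.K0 d (R b c) (e b c)

end

variable {P : Pr} {U D : Rows} {A As : Lay} {d a n u B b c k k1 K z t j j0 q i I v s : ℕ}
  {R : ℕ → ℕ → Rows} {e : ℕ → ℕ → ℕ → ℕ → ℤ} {Md : ℕ → ℕ → Mb} {Th Sm : ℕ → ℕ → Cm}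
  {Te : ℕ → ℕ → Tb} {β : ℕ → ℕ → ℕ → ℕ} {M : Cm}

theorem K_eq : M.K = 2 ^ (M.B - 1) := by
  rw [Cm.K, shl_eq, one_mul]
  rfl

theorem fit_K (h : M.fit = true) : 0 < M.B ∧ M.B ≤ M.Ws ∧ 2 * M.K < 2 ^ M.Ws := by
  simp only [Cm.fit, bnd_iff, Nat.ble_eq, Nat.add_eq] at h
  refine ⟨h.1, by omega, ?_⟩
  rw [K_eq, ← pow_succ']
  exact Nat.pow_lt_pow_right (by norm_num) (by omega)

theorem mat_raw (h : M.fit = true) (p : ℕ) :
    Mat M.Ws p M.K (16 * M.c) (M.raw p) fun i j => col M j i :=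
  K_eq (M := M) ▸ mat_vld (fit_K h).1 (fit_K h).2.1 p M.c M.T

theorem mat_cld (h : M.fit = true) :
    Mat P.W P.J M.K (16 * M.c) (M.ld P j0) fun i j => col M (j0 + j) i :=
  mat_rowC (mat_raw h _) ((fit_K h).1.trans_le (fit_K h).2.1) (fit_K h).2.2 le_rfl

theorem rep_okR {W J : ℕ} {x : Bool} {T : RT} {F : ℕ → ℝ[X]} (h : x = true → KRad.Rep W J T F) :
    KRad.Rep W J (okR x T) F := fun hk => h ((bnd_iff _ _).1 hk).1 ((bnd_iff _ _).1 hk).2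

theorem rep_cm {m : ℕ} {c : ℕ → ℕ → ℤ} (hW : 0 < P.W) (hx : 0 < P.Wx)
    (hU : KRad.Sub P.V (16 * P.c) (Nat.shiftLeft 4 P.su) P.nU P.NU P.eU P.LU U (2 ^ P.su) (1 - X ^ 4))
    (hD : M.fit = true → Mat P.W P.J K m D c) : KRad.Rep P.W P.J (M.cf P U k k1 K z t D) fun j =>
      C (2 ^ t : ℝ) * cS k k1 (gP k k1 M.M M.E z m (c · j)) := rep_okR fun h => by
  simp only [bnd_iff, Nat.ble_eq, Nat.add_eq] at h
  refine (rep_cf (G := ⟨k1, M.M, M.E, K, _⟩) (z := z) (s := 0) (a := t) hW hx (hD h.1) hU ?_).congr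
    fun _ _ => by simp
  simp only [Nat.add_eq, Nat.sub_eq]
  omega

theorem rep_pt (hW : 0 < P.W) (hx : 0 < P.Wx)
    (hU : KRad.Sub P.V (16 * P.c) (Nat.shiftLeft 4 P.su) P.nU P.NU P.eU P.LU U (2 ^ P.su) (1 - X ^ 4)) :
    KRad.Rep P.W P.J (M.pt P U k k1 t j0) fun j =>
      C (2 ^ t : ℝ) * cS k k1 (gQ M k k1 (j0 + j)) :=
  (rep_shl (rep_cm hW hx hU mat_cld) _).congr fun _ _ => by
    rw [← mul_assoc, ← C_mul, ← pow_add, Nat.sub_eq, Nat.sub_eq, Nat.add_sub_cancel' (Nat.sub_le ..)]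
    rfl

theorem rep_lad (hW : 0 < P.W) (hx : 0 < P.Wx) : KRad.Rep P.W P.J (M.lad P n k i I t j0) fun j =>
    C (2 ^ t : ℝ) * (qX ^ k * (X ^ i * lP k i I M.M M.E M.z (16 * M.c) (col M (j0 + j)))) := by
  rw [Cm.lad, cnd_eq]
  split_ifs with h
  · exact rep_zr.congr fun _ _ => by simp [lP, Nat.eq_of_beq_eq_true h]
  · refine rep_okR fun h => ?_
    simp only [bnd_iff, Nat.ble_eq, Nat.add_eq] at h
    refine (rep_lP (G := ⟨i, M.M, M.E, M.K, _⟩) (z := M.z) (s := 0) (a := t) hW hx (mat_cld h.1)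
      ?_).congr fun _ _ => by simp
    simp only [Nat.add_eq, Nat.sub_eq]
    omega

theorem vec_mulC {W J x : ℕ} {γ : ℕ → ℕ} {w : ℕ → ℤ} (h : Vec W J K x w) (hK : 2 * K < 2 ^ W)
    (hB : ∀ j < J, γ j ≤ B) : Vec W J (B * K) (mulC W J K B γ x) fun j => γ j * w j := by
  refine ⟨(pack_eq _ _ _).trans (pk_congr fun j hj => ?_), fun j hj => ?_⟩
  · simp only [land_shr, Nat.add_eq, Nat.mul_eq, Nat.sub_eq, Nat.cast_add, Nat.cast_mul,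
      Nat.cast_sub (hB j hj), h.ent hK hj]
    ring
  · rw [abs_mul, Nat.abs_cast, Nat.cast_mul]
    exact mul_le_mul (by exact_mod_cast hB j hj) (h.2 j hj) (abs_nonneg _) (by positivity)

theorem rep_bt {γ : ℕ → ℕ} (hW : 0 < P.W) (hx : 0 < P.Wx)
    (hU : KRad.Sub P.V (16 * P.c) (Nat.shiftLeft 4 P.su) P.nU P.NU P.eU P.LU U (2 ^ P.su) (1 - X ^ 4)) :
    KRad.Rep P.W P.J (M.bt P U k t j0 u B γ) fun j =>
      C (2 ^ t : ℝ) * (C (γ j / 2 ^ u : ℝ) * cS k k (gQ M k k (j0 + j))) := rep_okR fun h => by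
  rw [bnd_iff, Nat.ble_eq] at h
  refine (rep_cm (c := fun i j => γ j * col M (j0 + j) i) hW hx hU fun f => (mat_cld f).map
    fun i hi => vec_mulC ((mat_cld f).2 i hi) ((fit_K f).2.2.trans_le
      (Nat.pow_le_pow_right two_pos h.2)) fun j hj => Nat.le_of_ble_eq_true ((bnd_iff _ _).1
        (allR_spec h.1 j j.zero_le (by omega))).2).congr fun j _ => ?_
  rw [← cS_C]
  congr 2
  simp only [gQ, gP, mul_sum, ← mul_assoc, ← C_mul, cI, Nat.add_eq, pow_add]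
  refine sum_congr rfl fun i _ => ?_
  split_ifs <;> push_cast <;> congr 2 <;> ring

theorem _root_.Pool.Agent.Work.MP_6bf1e5_an.H.Ps.JobG.at {f : ℕ → ℕ → ℕ → ℕ → Bool}
    (hJ : JobG f A) (hb : A.Has b c) (hj : j < A.J b c) :
    ∃ j0 q, j0 ≤ j ∧ j < j0 + q ∧ f b c j0 q = true := by
  obtain ⟨h1, h2, h3⟩ := hb
  have t := hJ (2 * (b - A.b0) + c) (by omega)
  rw [JobD, show A.b0 + (2 * (b - A.b0) + c) / 2 = b by omega,
    show (2 * (b - A.b0) + c) % 2 = c by omega] at t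
  exact (t j hj).choose_spec

theorem onB_spec {f : Pr → ℕ → ℕ → Bool} (h : onB P b q f = true) :
    ∃ k, b = k + 1 ∧ f (P.at q) k (2 * b + 1) = true := by
  rw [onB, bnd_iff, Nat.ble_eq] at h
  exact ⟨b - 1, by omega, h.2⟩

theorem blk_job {f : ℕ → ℕ → ℕ → ℕ → Bool} {g : ℕ → ℕ → Bool} {ε : Bool → ℕ} {x : Ix → V6}
    (h : Tbs P U A d R e) (hJ : JobG f A) (hb : A.Has b c)
    (hf : ∀ j0 q, f b c j0 q = bnd (Nat.ble (j0 + q) (A.J b c)) (g j0 q))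
    (hg : ∀ j0 q, g j0 q = true → St (P.at q) j0 (R b c) (e b c) → ∀ j < q,
      ∃ S, Cl (P.at q) (e b c) (j0 + j) (2 ^ a) (2 * b + 1 : ℕ) S ∧
        Is ε c (2 * b) S (x (b, c, j0 + j))) :
    Blk1 P.W0 P.K0 d P.n P.L (fun b => 2 * b + 1) (fun b => 2 * b) ε (2 ^ a) P.del x b c
      (A.J b c) (R b c) := blk_of (h.mat b c hb) fun j hj => by
  obtain ⟨j0, q, h1, h2, h3⟩ := hJ.at hb hj
  rw [hf, bnd_iff, Nat.ble_eq] at h3
  obtain ⟨i, rfl⟩ := Nat.exists_eq_add_of_le h1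
  exact hg j0 q h3.2 ⟨h.w.1, h.w.2.2.1, h.w.2.2.2.1, _, d, h.mat b c hb, h.w.2.2.2.2, h3.1⟩ i
    (by omega)

theorem xU_eq : xU = pU := funext fun _ => funext fun a => by cases a <;> rfl

theorem xT_eq : xT = pθ := funext fun _ => funext fun a => by cases a <;> rfl

/-- The modes. -/
theorem blk_md (h : Tbs P U A d R e) (hJ : JobG (mdC P U a A.J Md R) A) (hb : A.Has b c) :
    Blk1 P.W0 P.K0 d P.n P.L (fun b => 2 * b + 1) (fun b => 2 * b) e33 (2 ^ a) P.del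
      (fun d => xU (uD (xi0 Md) d)) b c (A.J b c) (R b c) := by
  refine blk_job h hJ hb (fun _ _ => rfl) fun j0 q hf hD j hj => ?_
  obtain ⟨k, rfl, hf⟩ := onB_spec hf
  simp only [strict_eq, cnd_eq, Nat.beq_eq, Nat.add_eq, Nat.mul_eq] at hf
  have hw : ∀ N : Mb, KRad.Rep _ _ (add (itr st2 (N.A.pt (P.at q) U k N.k1 (N.A.s + a) j0) N.r)
      (N.H.lad (P.at q) N.nL k N.i N.I (N.A.s + 2 * N.r + a) j0)) fun j =>
        C (2 ^ (N.A.s + 2 * N.r) : ℝ) * (C (2 ^ a : ℝ) * (qX ^ k * mQ N k (j0 + j))) := fun N =>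
    rep_ev (((rep_pt hD.1 h.w.2.1 h.sub).pw _).add (rep_lad hD.1 h.w.2.1)) fun j t => by
      simp only [mQ, cS_eq, eval_add, eval_mul, eval_C, eval_pow, eval_X, eval_ofNat, pow_add,
        pow_mul, mul_pow]
      norm_num
      ring
  have := hb.2.2
  rw [xU_eq]
  interval_cases c
  · rw [if_pos rfl] at hf
    exact ⟨_, mdT_cl hD (hw _) hf hj, is_T⟩
  · rw [if_neg one_ne_zero] at hf
    exact ⟨_, mdP_cl hD (hw _) hf hj, is_P⟩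

/-- The functionals. -/
theorem blk_th (h : Tbs P U A d R e) (hJ : JobG (thC P U a n A.J Th R) A) (hb : A.Has b c) :
    Blk1 P.W0 P.K0 d P.n P.L (fun b => 2 * b + 1) (fun b => 2 * b) (eth 5) (2 ^ a) P.del
      (fun d => xT (th0 Th d)) b c (A.J b c) (R b c) := by
  refine blk_job h hJ hb (fun _ _ => rfl) fun j0 q hf hD j hj => ?_
  obtain ⟨k, rfl, hf⟩ := onB_spec hf
  simp only [bnd_iff, cnd_eq, Nat.beq_eq, Nat.add_eq] at hf
  have hw : ∀ M : Cm, KRad.Rep _ _ (M.pt (P.at q) U k k (M.s + a) j0) fun j =>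
      C (2 ^ M.s : ℝ) * (C (2 ^ a : ℝ) * cS k k (gQ M k k (j0 + j))) := fun M =>
    (rep_pt hD.1 h.w.2.1 h.sub).congr fun _ _ => by rw [pow_add, C_mul, mul_assoc]
  have := hb.2.2
  rw [xT_eq]
  interval_cases c
  · rw [if_pos rfl] at hf
    exact ⟨_, thM_cl hD (hw _) hf.2 hj, is_θ0 rfl⟩
  · rw [if_neg one_ne_zero] at hf
    exact ⟨_, thT_cl hD (hw _) hf.2 hj, is_θ1 rfl⟩

theorem sym_th (d : Ix) (i : Fin 3) : Sym (-3) (th0 Th d i) := sym_θ i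

theorem tsW_cl {e : ℕ → ℕ → ℤ} {T : Tb} {w : RT} {F : ℕ → ℝ[X]} (hD : St P j0 D e)
    (hx : 0 < P.Wx)
    (hU : KRad.Sub P.V (16 * P.c) (Nat.shiftLeft 4 P.su) P.nU P.NU P.eU P.LU U (2 ^ P.su) (1 - X ^ 4))
    (hv : 0 < v) (hw : KRad.Rep P.W P.J w fun j => C (2 ^ s : ℝ) * (C (2 ^ a : ℝ) * F j))
    (h : tsW P U a n T D c j0 k v s w = true) (hj : j < P.J) :
    Cl P e (j0 + j) (2 ^ a) v (tsR P a T e c k v (j0 + j) (F j)) := by
  have hg : ∀ s, KRad.Rep P.W P.J (T.G.pt P U k k (s + a) j0) fun j => C (2 ^ s * 2 ^ a * v : ℝ) *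
      cS k k (C (1 / v : ℝ) * gQ T.G k k (j0 + j)) := fun s =>
    (rep_pt hD.1 hx hU).congr fun _ _ => by
      rw [cS_C, ← mul_assoc, ← C_mul, mul_one_div, mul_div_cancel_right₀ _ (by positivity), pow_add]
  simp only [tsW, bnd_iff, cnd_eq, Nat.beq_eq, Nat.add_eq, Nat.sub_eq] at h
  unfold tsR
  split_ifs at h ⊢
  · exact (ts0_cl hD (by positivity) hv hw (hg _) h.2 hj :)
  · simp only [bnd_iff, Nat.ble_eq] at h
    obtain ⟨-, ⟨h1, h2⟩, h3⟩ := h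
    have hs : T.w.s + (s + 2 - T.w.s) = s + 2 := Nat.add_sub_cancel' h1
    have f := fit_K h2
    have hx : KRad.Rep _ _ _ fun j => C (2 ^ T.w.s * 2 ^ a * v : ℝ) *
        (C (1 / (2 ^ T.w.s * 2 ^ a * v : ℝ)) * tsP (16 * T.w.c) (col T.w (j0 + j) ·)) :=
      (rep_cw (mat_raw h2 (j0 + P.J)) (f.1.trans_le f.2.1) f.2.2 le_rfl hD.1).congr fun _ _ => by
        rw [← mul_assoc, ← C_mul, mul_one_div_cancel (by positivity), C_1, one_mul]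
    exact (ts1_cl hD (by positivity) hv hs hx hw (by rw [hs]; exact hg _) h3 hj :)

/-- The tests. -/
theorem blk_ts (h : Tbs P U A d R e) (hJ : JobG (tsC P U a n u B A.J (jz As) β Th Te R) A)
    (hb : A.Has b c) : Blk1 P.W0 P.K0 d P.n P.L (fun b => 2 * b + 1) (fun b => 2 * b) e68 (2 ^ a) P.del
      (x0 P a u A.J (jz As) β Th Te e) b c (A.J b c) (R b c) := by
  refine blk_job h hJ hb (fun _ _ => rfl) fun j0 q hf hD j hj => ?_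
  rw [cnd_eq] at hf
  split_ifs at hf with h0
  · obtain rfl := Nat.eq_of_beq_eq_true h0
    exact ⟨fun s => C (1 / 2 ^ a) * tq P (e 0 c) (j0 + j) s,
      ⟨hD.tbl hf hj, fun s _ φ => by simp [tq, Pr.at]⟩, is_jet0 _ _ _⟩
  obtain ⟨k, rfl, hf⟩ := onB_spec hf
  simp only [strict_eq, cnd_eq, Nat.ble_eq, Nat.add_eq, Nat.sub_eq] at hf
  refine ⟨_, ?_, is_jet _ _ _ _⟩
  generalize A.J (k + 1) c - jz As (k + 1) c = o at hf ⊢
  split_ifs at hf with h1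
  · refine tsW_cl (F := fun j => C (bz u β o (k + 1) c (j0 + j)) * cS k k (thQ Th (k + 1) c
      (j0 + j - o))) hD h.w.2.1 h.sub (by omega) (rep_zr.congr fun j hj => ?_) hf hj
    rw [bz, if_pos ((Nat.add_lt_add_left hj _).trans_le h1)]
    simp
  · rw [bnd_iff, Nat.ble_eq] at hf
    refine tsW_cl (F := fun j => C (bz u β o (k + 1) c (j0 + j)) * cS k k (thQ Th (k + 1) c
      (j0 + j - o))) hD h.w.2.1 h.sub (by omega) ((rep_bt hD.1 h.w.2.1 h.sub).congr fun j _ => ?_)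
      hf.2 hj
    rw [bz, if_neg (hf.1.trans (Nat.le_add_right _ _)).not_gt, Nat.sub_add_comm hf.1,
      pow_add, C_mul, mul_assoc]
    rfl

end Pool.Agent.Work.MP_6bf1e5_an.H.Jf
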