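import Pool.Agent.Work.MP_6bf1e5_an.H.PassSem
import Pool.Agent.Work.MP_6bf1e5_an.H.PassTile

/-! The passes KK, LL, MM (owner helper15). -/

open Finset Pool.Agent.Lib.KBlk Pool.Agent.Lib.KLA

namespace Pool.Agent.Work.MP_6bf1e5_an.H.Ps

open Gl

/-- The blocks `Bm b y` (offset `k`, scale `s`) approximate the block diagonal matrix `f`. -/
def Blks (V k s : ℕ) (A B : Lay) (Bm : ℕ → ℕ → Rows) (f : ℕ × ℕ × ℕ → ℕ × ℕ × ℕ → ℝ) (δ : ℝ) :
    Prop :=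
  (∀ b y, A.Has b y → ∃ n z, Mat V (B.J b y) k n (Bm b y) z ∧ A.J b y ≤ n ∧
    ∀ m < A.J b y, ∀ m' < B.J b y, |(z m m' : ℝ) / 2 ^ s - f (b, y, m) (b, y, m')| ≤ δ) ∧
  ∀ b y m b' y' m', A.Has b y → m < A.J b y → B.Has b' y' → m' < B.J b' y' →
    ¬(b' = b ∧ y' = y) → f (b, y, m) (b', y', m') = 0

variable {D : Dat} {V k s b0 y b q : ℕ} {A B : Lay} {Bm : ℕ → ℕ → Rows}
  {f : ℕ × ℕ × ℕ → ℕ × ℕ × ℕ → ℝ} {δ w : ℝ} {S : Scl}

theorem Blks.row (h : Blks V k s A B Bm f δ) (hS : S.Ok V k) (hw : S.val * 2 ^ s = w) (h0 : 0 ≤ w)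
    (hb : A.Has b0 y) : TOk V (B.J b0 y) (A.J b0 y) (tR V (B.J b0 y) S (Bm b0 y)) (S.c * S.K)
      (fun j m => w * f (b0, y, j) (b0, y, m)) (1 + w * δ) := by
  obtain ⟨n, z, h1, h2, h3⟩ := h.1 b0 y hb
  refine tok_near (tR_ok hS h1 h2) fun j hj m hm => ?_
  rw [show S.val * z j m = w * (z j m / 2 ^ s) by rw [← hw]; field_simp, ← mul_sub, abs_mul,
    abs_of_nonneg h0]
  exact mul_le_mul_of_nonneg_left (h3 j hj m hm) h0

theorem Blks.eq (h : Blks V k s A B Bm f δ) (hb : A.Has b0 y) {j n : ℕ} (hj : j < A.J b0 y)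
    (hn : n < B.N) : (if (B.mem n).1 = b0 ∧ (B.mem n).2.1 = y then
      w * f (b0, y, j) (b0, y, (B.mem n).2.2) else 0) = w * f (A.mem (A.pos b0 y j)) (B.mem n) := by
  rw [(Lay.mem_pos hb hj).2]
  split_ifs with e
  · rw [← e.1, ← e.2]
  · obtain ⟨a1, a2, -⟩ := Lay.mem_spec hn
    rw [h.2 _ _ _ _ _ _ hb hj a1 a2 e, mul_zero]

theorem st_lt (hf : B.fit b q = true) {m : ℕ} (hm : m < tot B.J q b) : B.st b + m < B.N :=
  (Lay.mem_st (Lay.fit_iff.1 hf).1 (Lay.fit_iff.1 hf).2.1 hm).1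

/-- The position of a member of a block. -/
theorem blk_iff {j n : ℕ} (hb : B.Has b0 y) (hj : j < B.J b0 y) (hn : n < B.N) :
    B.pos b0 y j = n ↔ ((B.mem n).1 = b0 ∧ (B.mem n).2.1 = y) ∧ (B.mem n).2.2 = j := by
  constructor
  · rintro rfl
    rw [(Lay.mem_pos hb hj).2]
    exact ⟨⟨rfl, rfl⟩, rfl⟩
  · rintro ⟨⟨rfl, rfl⟩, rfl⟩
    exact (Lay.mem_spec hn).2.2

theorem Fit.at {K : ℕ} {n : ℕ → ℕ} {Z : ℕ → Chk} (h : Fit V K B n Z) (hf : B.fit b q = true) :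
    (Z (B.pb b)).ok V K (16 * n (B.pb b)) = true := h b (Lay.fit_has hf).1 (Lay.fit_has hf).2

theorem Fit.blk {K : ℕ} {n : ℕ → ℕ} {Z : ℕ → Chk} (h : Fit V K B n Z) (hb : B.Has b y) :
    (Z (B.pb b)).ok V K (16 * n (B.pb b)) = true := h b hb.1 hb.2.1

theorem pos_lq (hb : A.Has b0 y) : A.pos b0 y 0 + A.J b0 y ≤ A.N := by
  rcases Nat.eq_zero_or_pos (A.J b0 y) with h | h
  · obtain ⟨z, hz⟩ : ∃ z, A.nq = b0 - A.b0 + (z + 1) :=
      ⟨A.nq - (b0 - A.b0) - 1, by obtain ⟨_, _, _⟩ := hb; omega⟩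
    rw [Lay.N, hz, tot_add, Nat.add_sub_cancel' hb.1, tot, Lay.pos, enc, h]
    split_ifs <;> omega
  · have := (Lay.mem_pos hb (Nat.sub_one_lt h.ne')).1
    rw [← Lay.pos_add] at this
    omega

/-- A stored row for a test field of the functional. -/
theorem row_ok (h : D.Ok) {K : ℕ} {Z : ℕ → Chk} (hZ : Fit D.V K D.Am (fun _ => D.c1) Z)
    (hS : S.Ok D.V K) (hw : S.val * 2 ^ s = w) (hb : D.Ah.Has b0 y) (hf : D.Am.fit b q = true) :
    TOk D.V (tot D.Am.J q b) (D.Ah.J b0 y)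
      (tRow D.V K S D.Am Z b q (Nat.add 16 (D.Ah.pos b0 y 0)) (D.Ah.J b0 y)) (S.c * S.K)
      (fun j m => w * (pent D.V D.Am Z (16 + D.Ah.pos b0 y j) (D.Am.st b + m) / 2 ^ s)) 1 :=
  (tRow_ok hS (hZ.at hf) (by
    have := pos_lq hb
    have := h.n1
    simp only [Nat.add_eq]
    omega) hf).congr (fun j _ m _ => by
      rw [← hw, Nat.add_eq, add_assoc, Lay.pos_add]
      field_simp) le_rfl

/-- The conditions for a product. -/
def PrOk (V n K K' e : ℕ) (S : Scl) : Prop :=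
  S.Ok V (2 ^ e) ∧ e + 1 ≤ V ∧ 2 * (16 * n) * K + 1 < 2 ^ V ∧ 16 * n * (K * K') + 2 ^ (e + 2) ≤ 2 ^ V

instance (V n K K' e : ℕ) (S : Scl) : Decidable (PrOk V n K K' e S) := by
  unfold PrOk
  infer_instance

theorem pro_ok {K K' e n c s' : ℕ} {Z Z' : ℕ → Chk} {m m' : ℕ → ℕ} (hZ : Fit V K A m Z)
    (hZ' : Fit V K' B m' Z') (hS : PrOk V n K K' e S) (hw : S.val * 2 ^ (s + s') = w)
    (hb : A.Has b0 y) (hf : B.fit b q = true) (h1 : c ≤ m (A.pb b0)) (h2 : c ≤ m' (B.pb b))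
    (h3 : c ≤ n) : TOk V (tot B.J q b) (A.J b0 y) (tPro V K K' e S A Z B Z' b0 y b q 0 c)
      (S.c * S.K) (fun j i => w * ∑ h ∈ range (16 * c), (pent V A Z h (A.pos b0 y j) : ℝ) / 2 ^ s
        * (pent V B Z' h (B.st b + i) / 2 ^ s')) 1 := by
  obtain ⟨a1, a2, a3, a4⟩ := hS
  have b1 : 2 * (16 * c) * K ≤ 2 * (16 * n) * K := by gcongr
  have b2 : 16 * c * (K * K') ≤ 16 * n * (K * K') := by gcongr
  refine (tPro_ok a1 (hZ.blk hb) (hZ'.at hf) (by omega) (by omega) hb hf a2 (by omega)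
    (by omega)).congr (fun j _ i _ => ?_) le_rfl
  rw [← hw, mul_assoc, mul_sum _ _ ((2 : ℝ) ^ (s + s'))]
  congr 1
  refine sum_congr rfl fun h _ => ?_
  rw [mul_zero, zero_add, pow_add]
  field_simp

theorem div_of {g ε : ℝ} (h0 : 0 < w) (h : |w * g| ≤ ε) : |g| ≤ ε / w := by
  rwa [abs_mul, abs_of_pos h0, ← le_div_iff₀' h0] at h

variable {P : Par} {T0 T1 : Rows} {dg : ℕ → ℕ} {M : ℕ → ℕ → ℕ → Rows} {R C : ℕ → ℕ → Rows}
  {G : Bool → Bool → Mc} {x x' : ℕ × ℕ × ℕ → Bool → Vc} {κ ε : ℝ} {K0 c e : ℕ}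

/-- The pass KK. -/
theorem kk_all (h : D.Ok) (hT : Til P T0 T1 dg M R C D.Ah D.Am G x x' κ ε)
    (hB : Blks D.V k s D.Ah D.Am Bm f δ) {SB SK : Scl}
    (hJ : Job (tchk P D.V K0 c e S T0 T1 dg M R C D.Am (tKK D SB SK Bm)) D.Ah D.Am
      fun _ => D.Am.b0)
    (hS : S.Ok P.W P.E4 ∧ SB.Ok D.V k ∧ SK.Ok D.V D.kK ∧
      K0 = c * (S.c * S.K + (SB.c * SB.K + SK.c * SK.K)) ∧ 0 < c ∧ e + 1 ≤ D.V ∧
      K0 + 2 ^ (e + 2) ≤ 2 ^ D.V)
    (hw : 0 < w ∧ S.val * κ = w ∧ SB.val * 2 ^ s = w ∧ SK.val * 2 ^ D.sK = -w) (hδ : 0 ≤ δ)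
    {a j : ℕ} (ha : a < D.Ah.N) (hj : j < D.Am.N) :
    |pr6 G (x (D.Ah.mem a)) (x' (D.Am.mem j)) + f (D.Ah.mem a) (D.Am.mem j) - D.k (16 + a) j|
      ≤ (2 ^ e / c + (S.c / 2 ^ S.s * ε + 1 + (1 + w * δ + 1))) / w := by
  obtain ⟨s1, s2, s3, s4, s5, s6, s7⟩ := hS
  obtain ⟨w0, w1, w2, w3⟩ := hw
  have t := tchk_all hT hJ s1 s4 s5 s6 s7 (g := fun a j =>
    w * f (D.Ah.mem a) (D.Am.mem j) + -w * D.k (16 + a) j) (fun b0 y b q hb hf _ =>
      ((tBlk_ok (hB.row s2 w2 w0.le hb) (by omega) (by positivity) (h.has _ _ hb).1 hf).seq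
        (row_ok h h.K s3 w3 hb hf)).congr (fun j hj m hm => by
          rw [hB.eq hb hj (st_lt hf hm)]
          rfl) le_rfl) ha hj (Lay.mem_spec hj).1.1
  refine div_of w0 (le_trans (le_of_eq (congrArg _ ?_)) t)
  rw [w1]
  ring

/-- The pass LL. -/
theorem ll_all (h : D.Ok) (hT : Til P T0 T1 dg M R C D.Ah D.Am G x x' κ ε) {SK SU SL : Scl}
    {c0 eU : ℕ} {kp μ : ℝ}
    (hJ : Job (tchk P D.V K0 c e S T0 T1 dg M R C D.Am (tLL D c0 eU SK SU SL)) D.Ah D.Am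
      fun _ => D.Am.b0)
    (hS : S.Ok P.W P.E4 ∧ SK.Ok D.V D.kK ∧ PrOk D.V D.c1 D.kU D.kX eU SU ∧ SL.Ok D.V D.kL ∧
      K0 = c * (S.c * S.K + (SK.c * SK.K + c0 + (SU.c * SU.K + SL.c * SL.K))) ∧ 0 < c ∧
      e + 1 ≤ D.V ∧ K0 + 2 ^ (e + 2) ≤ 2 ^ D.V)
    (hw : 0 < w ∧ S.val * κ = -(2 * w) ∧ SK.val * 2 ^ D.sK = kp * w ∧ |c0 - kp * μ * w| ≤ 1 ∧
      SU.val * 2 ^ (D.sU + D.sX) = -w ∧ SL.val * 2 ^ D.sL = -w)
    {a j : ℕ} (ha : a < D.Ah.N) (hj : j < D.Am.N) :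
    |kp * D.k (16 + a) j - kp * μ * (if D.lo a = j then 1 else 0)
      - 2 * pr6 G (x (D.Ah.mem a)) (x' (D.Am.mem j))
      - ∑ r ∈ range (16 * D.c1), D.u r a * D.x r j - D.la (16 + a) j|
      ≤ (2 ^ e / c + (S.c / 2 ^ S.s * ε + 1 + 4)) / w := by
  obtain ⟨s1, s2, s3, s4, s5, s6, s7, s8⟩ := hS
  obtain ⟨w0, w1, w2, w3, w4, w5⟩ := hw
  have t := tchk_all hT hJ s1 s5 s6 s7 s8 (η := 4) (g := fun a j =>
    kp * w * D.k (16 + a) j - kp * μ * w * (if D.lo a = j then 1 else 0)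
      + (-w * ∑ r ∈ range (16 * D.c1), D.u r a * D.x r j + -w * D.la (16 + a) j))
    (fun b0 y b q hb hf _ => by
      obtain ⟨m1, m2⟩ := h.has _ _ hb
      have t1 := tok_near (tBlk_ok (tI_ok (W := D.V) (p := D.Am.J b0 y) (J := D.Ah.J b0 y) (d := 0)
        (c := c0) (by omega) (by omega)) (by omega) le_rfl m1 hf) (ε' := 1) (g' := fun j m =>
          -(kp * μ * w * if D.lo (D.Ah.pos b0 y j) = D.Am.st b + m then 1 else 0))
        fun j hj m hm => by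
          simp only [h.lo_pos hb hj, blk_iff m1 (hj.trans_le m2) (st_lt hf hm), zero_add]
          split_ifs with e1 e2 e3 e4 e5
          · rw [mul_one, neg_sub_neg, abs_sub_comm]
            exact w3
          · exact absurd ⟨e1, e2⟩ e3
          · exact absurd e4.2 e2
          · simp
          · exact absurd e5.1 e1
          · simp
      refine (((row_ok h h.K s2 w2 hb hf).seq t1).seq ((pro_ok h.U h.X s3 w4 hb hf le_rfl
        (h.cU _ _ hb).1 (h.cU _ _ hb).1).seq (row_ok h h.La s4 w5 hb hf))).congr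
        (fun j hj m _ => ?_) (by norm_num)
      have e1 : ∑ r ∈ range (16 * D.c1), D.u r (D.Ah.pos b0 y j) * D.x r (D.Am.st b + m) =
          ∑ r ∈ range (16 * D.cU (D.Ah.pb b0)), pent D.V D.Ah D.U r (D.Ah.pos b0 y j) / 2 ^ D.sU
            * D.x r (D.Am.st b + m) := by
        rw [← sum_subset (range_subset_range.2 (Nat.mul_le_mul_left 16 (h.cU _ _ hb).1))
          fun r _ hr => by
            rw [Dat.u, Lay.pan, (Lay.mem_pos hb hj).2, if_neg (by simpa using hr), zero_mul]]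
        exact sum_congr rfl fun r hr => by
          rw [Dat.u, Lay.pan, (Lay.mem_pos hb hj).2, if_pos (mem_range.1 hr)]
      rw [e1, sub_eq_add_neg]
      rfl) ha hj (Lay.mem_spec hj).1.1
  refine div_of w0 (le_trans (le_of_eq (congrArg _ ?_)) t)
  rw [w1]
  ring

/-- The pass MM. -/
theorem mm_all (h : D.Ok) (hT : Til P T0 T1 dg M R C D.Am D.Am G x x κ ε)
    (hB : Blks D.V k s D.Am D.Am Bm f δ) {SB ST SX SR : Scl} {c0 eT eX eR : ℕ} {cd ρ : ℝ}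
    (hJ : Job (tchk P D.V K0 c e S T0 T1 dg M R C D.Am (tMM D c0 eT eX eR SB ST SX SR Bm))
      D.Am D.Am fun b => b)
    (hS : S.Ok P.W P.E4 ∧ SB.Ok D.V k ∧ PrOk D.V D.cT D.kT D.kT eT ST ∧
      PrOk D.V D.c1 D.kX D.kL eX SX ∧ PrOk D.V D.c1 D.kL D.kX eX SX ∧
      PrOk D.V (D.cR D.nm) D.kR D.kR eR SR ∧
      K0 = c * (S.c * S.K + (SB.c * SB.K + c0 + ST.c * ST.K
        + (SX.c * SX.K + SX.c * SX.K + SR.c * SR.K))) ∧ 0 < c ∧
      e + 1 ≤ D.V ∧ K0 + 2 ^ (e + 2) ≤ 2 ^ D.V)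
    (hw : 0 < w ∧ 0 ≤ cd ∧ S.val * κ = w ∧ SB.val * 2 ^ s = cd * w ∧
      ST.val * 2 ^ (D.sT + D.sT) = ρ * w ∧ SX.val * 2 ^ (D.sX + D.sL) = w / 2 ∧
      SR.val * 2 ^ (D.sR + D.sR) = -w) (hδ : 0 ≤ δ)
    {j i : ℕ} (hj : j < D.Am.N) (hi : i < D.Am.N) (ho : (D.Am.mem j).1 ≤ (D.Am.mem i).1) :
    |pr6 G (x (D.Am.mem j)) (x (D.Am.mem i)) + cd * f (D.Am.mem j) (D.Am.mem i)
      + ρ * ∑ r ∈ range D.At.N, D.th r j * D.th r i
      + (∑ r ∈ range (16 * D.c1), D.x r j * D.la r i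
        + ∑ r ∈ range (16 * D.c1), D.la r j * D.x r i) / 2
      - ∑ r ∈ range (16 * D.cR D.nm), D.r r j * D.r r i - if j = i then c0 / w else 0|
      ≤ (2 ^ e / c + (S.c / 2 ^ S.s * ε + 1 + (5 + cd * w * δ))) / w := by
  obtain ⟨s1, s2, s3, s4, s5, s6, s7, s8, s9, s10⟩ := hS
  obtain ⟨w0, w', w1, w2, w3, w4, w5⟩ := hw
  have t := tchk_all hT hJ s1 s7 s8 s9 s10 (η := 5 + cd * w * δ) (g := fun j i =>
    cd * w * f (D.Am.mem j) (D.Am.mem i) - (if j = i then (c0 : ℝ) else 0)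
      + ρ * w * ∑ r ∈ range D.At.N, D.th r j * D.th r i
      + (w / 2 * ∑ r ∈ range (16 * D.c1), D.x r j * D.la r i
        + w / 2 * ∑ r ∈ range (16 * D.c1), D.la r j * D.x r i
        + -w * ∑ r ∈ range (16 * D.cR D.nm), D.r r j * D.r r i))
    (fun b0 y b q hb hf hl => by
      have p1 : D.Am.pb b0 ≤ D.Am.pb b := by
        rcases le_total b0 b with a | a
        · exact Nat.div_le_div_right (by omega)
        · exact (Lay.pb_eq hf a hl).le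
      have p2 := h.nm b 0 ⟨(Lay.fit_has hf).1, (Lay.fit_has hf).2, by norm_num⟩
      have p3 := h.cR _ _ p1 p2.le
      have p4 := h.cR _ _ (p1.trans p2.le) le_rfl
      refine (((tBlk_ok ((hB.row s2 w2 (by positivity) hb).seq (tI_ok (d := 0) (c := c0)
        (by omega) (by omega))) (by omega) (by positivity) hb hf).seq
        (pro_ok h.Th h.Th s3 w3 hb hf le_rfl le_rfl le_rfl)).seq
        (((pro_ok h.X h.La s4 w4 hb hf le_rfl le_rfl le_rfl).seq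
          (pro_ok h.La h.X s5 (add_comm D.sX _ ▸ w4) hb hf le_rfl le_rfl le_rfl)).seq
          (pro_ok h.R h.R s6 w5 hb hf le_rfl p3 p4))).congr (fun j hj m hm => ?_)
        (le_of_eq (by ring))
      have hn := st_lt hf hm
      have p5 : D.Am.pan (D.Am.st b + m) = D.Am.pb b := by
        obtain ⟨a3, a4, -⟩ := dec_spec D.Am.J q b m hm
        rw [Lay.pan, (Lay.mem_st (Lay.fit_iff.1 hf).1 (Lay.fit_iff.1 hf).2.1 hm).2,
          Lay.pb_eq hf a3 a4]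
      have e1 : ∑ r ∈ range (16 * D.cR D.nm), D.r r (D.Am.pos b0 y j) * D.r r (D.Am.st b + m) =
          ∑ r ∈ range (16 * D.cR (D.Am.pb b0)),
            (pent D.V D.Am D.R r (D.Am.pos b0 y j) : ℝ) / 2 ^ D.sR
            * (pent D.V D.Am D.R r (D.Am.st b + m) / 2 ^ D.sR) := by
        rw [← sum_subset (range_subset_range.2 (Nat.mul_le_mul_left 16 p4))
          fun r _ hr => by
            rw [Dat.r, Lay.pan, (Lay.mem_pos hb hj).2, if_neg (by simpa using hr), zero_mul]]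
        exact sum_congr rfl fun r hr => by
          have := mem_range.1 hr
          rw [Dat.r, Dat.r, p5, Lay.pan, (Lay.mem_pos hb hj).2, if_pos this, if_pos (by omega)]
      rw [e1, ← hB.eq hb hj hn, h.nt]
      congr 2
      simp only [blk_iff hb hj hn, zero_add]
      split_ifs with e1 e2 e3 e4 e5
      · ring
      · exact absurd ⟨e1, e2⟩ e3
      · exact absurd e4.2 e2
      · ring
      · exact absurd e5.1 e1
      · ring) hj hi ho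
  refine div_of w0 (le_trans (le_of_eq (congrArg _ ?_)) t)
  rw [w1]
  split_ifs
  · field_simp
    ring
  · ring

end Pool.Agent.Work.MP_6bf1e5_an.H.Ps
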