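import Pool.Agent.Work.MP_6bf1e5_an.H.BkS
import Pool.Agent.Work.MP_6bf1e5_an.H.BkC
import Pool.Agent.Work.MP_6bf1e5_an.H.FamT
import Pool.Agent.Work.MP_6bf1e5_an.H.PassKLM

/-! The meaning of the checks of the blocks (owner helper84). -/

open scoped Real
open Polynomial Finset

namespace Pool.Agent.Work.MP_6bf1e5_an.H.Bk

open Pool.Agent.Lib.KLA Pool.Agent.Lib.KBlk Pool.Agent.Lib.KMx Pool.Agent.Lib.Dy Jf
open Pool.Agent.Lib.KRad (Cm Mb jz dig)

noncomputable section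

variable {P : Pm} {B : Bm} {S : Sr} {A : Cm} {T U : MT} {g g' : ℕ → ℕ → ℝ} {p n b c d N a u v : ℕ}
  {z : ℕ → ℕ → ℤ} {κ κ' : ℝ} {x t : ℕ → ℕ → ℝ}

theorem rep_sr (h : Mat S.V p S.K n S.R z) (hV : 0 < S.V) :
    Rep P.W p (S.mt P p) (up n fun i j => z i j) :=
  ((rep_lit hV h).rs hV one_pos (by omega)).congr fun i j _ => by simp only [one_mul, up]

theorem rep_cm (h : A.fit = true) : Rep P.W p (cm P p b A) (up (16 * A.c) fun i j => col A j i) := by
  have h1 := Nat.le_of_ble_eq_true ((bnd_iff _ _).1 h).2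
  simpa only [cm, up_up le_rfl, Nat.mul_eq] using (rep_sr (P := P) (S := ⟨A.Ws, A.K, A.raw p⟩)
    (mat_raw h p) (by simp only [Nat.add_eq] at h1 ⊢; omega)).tgt (16 * A.c) b

theorem rep_stz {W : ℕ} (h : Rep W p T g) (h' : c ≠ 0 → Rep W p U g') (n : ℕ) :
    ∃ G, Rep W p (stz c n T U) G ∧ ∀ i < n + 16 * c, G i = if i < n then g i else g' (i - n) := by
  rw [stz, cnd_eq]
  split_ifs with e
  · exact ⟨g, h, fun i hi => (if_pos (by have := Nat.eq_of_beq_eq_true e; omega)).symm⟩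
  · exact ⟨_, h.stk (h' fun k => e (by simp [k])) n, fun _ _ => rfl⟩

theorem sum_up {m : ℕ} (h : N ≤ m) (f : ℕ → ℝ) :
    ∑ k ∈ range m, (if k < N then f k else 0) = ∑ k ∈ range N, f k := by
  rw [← sum_subset (range_subset_range.2 h) fun k _ hk => if_neg (by simpa using hk)]
  exact sum_congr rfl fun k hk => if_pos (mem_range.1 hk)

theorem Jt_C (d k : ℕ) (r : ℝ) (Q : ℝ[X]) : Jt d k (C r * Q) = r * Jt d k Q := by
  rw [Jt, Jw_C, Jt, mul_div_assoc]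

/-- The moments of a mode. -/
theorem mu_mQ (A : Mb) {k e w : ℕ} (j m : ℕ) (he : 4 * k + 6 ≤ e) (ha : 3 ≤ a) (hw : e + a = w + 7) :
    mu (2 * k + 2) (tF 1 (e : ℕ) (mQ A k j)) (a / 4) m = 2 ^ (a / 4 : ℝ) * 2 ^ (2 * k + 2) *
      (∑ i ∈ range (16 * A.A.c), cI A.A.M A.A.E A.A.z (fun _ => 4 ^ (k + A.k1)) (col A.A j) i *
        Jt (2 * k + 2) (4 * (2 * k + 2) + 7 + (w + (A.r + 4 * A.k1))) (gf (2 * k + 2) m * gf (2 * k + 2) i)
      + ∑ i ∈ range (16 * A.H.c), cI A.H.M A.H.E A.H.z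
        (fun s => 4 ^ dig A.I s * 256 ^ k * 4 ^ A.i) (col A.H j) i *
        Jl (2 * k + 2) (gf (2 * k + 2) m * 1) (dig A.I i) (4 * (2 * k + 2) + 7 + (w + A.i))) := by
  have h1 : (4 * k + 6 : ℝ) ≤ e := by exact_mod_cast he
  have h2 : (3 : ℝ) ≤ a := by exact_mod_cast ha
  rw [mu_sum ((range (16 * A.A.c)).disjSum (range (16 * A.H.c))) (Sum.elim _ _) (f := Sum.elim
    (fun i => tF 1 (e + (A.r + 4 * A.k1) : ℕ) ((geg (4 * k + 6) i).comp (1 - 2 * X ^ 4)))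
    fun i => tF 1 (e + A.i : ℕ) ((1 - X) ^ dig A.I i)) ?_ (by
      push_cast; linarith [Nat.cast_nonneg (α := ℝ) k]) fun y hy => by
      rw [sum_disjSum]
      exact tF_sum _ _ _ _ hy, sum_disjSum, mul_add, mul_sum, mul_sum]
  · have e1 : (2 : ℝ) ^ ((4 * (2 * k + 2) + a : ℕ) / 4 : ℝ) = 2 ^ (a / 4 : ℝ) * 2 ^ (2 * k + 2) := by
      rw [← Real.rpow_natCast, ← Real.rpow_add two_pos]
      congr 1
      push_cast
      ring
    simp only [Sum.elim_inl, Sum.elim_inr, mu_H (show 1 ≤ 2 * k + 2 by omega), e1, mul_one]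
    congr 1 <;> refine sum_congr rfl fun i _ => ?_
    · rw [mul_comm (gf _ m), gf.eq_1 _ i, mul_assoc (C _), Jt_C, show 4 * (2 * k + 2) + 7 + (w +
        (A.r + 4 * A.k1)) = e + (A.r + 4 * A.k1) + (4 * (2 * k + 2) + a) by omega,
        show 2 * (2 * k + 2) + 2 = 4 * k + 6 by ring]
      simp only [cI]
      split_ifs <;> ring
    · rw [mu_L (by omega) m _ _ (by omega), e1,
        show 4 * (2 * k + 2) + 7 + (w + A.i) = e + A.i + (4 * (2 * k + 2) + a) by omega]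
      exact mul_left_comm _ _ _
  · rintro (i | i) - s <;> refine (bd_tF _ _ s).mono ?_ <;> push_cast
    · linarith [Nat.cast_nonneg (α := ℝ) A.r, Nat.cast_nonneg (α := ℝ) A.k1]
    · linarith [Nat.cast_nonneg (α := ℝ) A.i]

/-- The sizes of a block. -/
def Bm.Wf (B : Bm) : Prop := B.d = 2 * B.k + 1 ∧ B.N = B.J + 2 ∧ B.N ≤ 16 * B.c

theorem pw_eq {p q r : ℕ} (h : p + q = r) : (2 : ℝ) ^ p = 2 ^ r / 2 ^ q := by
  rw [← h, pow_add, mul_div_cancel_right₀ _ (by positivity)]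

theorem rep_mu {r e w : ℕ} (hP : P.Pos) (hB : B.Wf) (k : B.ok P r = true) (he : 4 * B.k + 6 ≤ e)
    (ha : 3 ≤ a) (hw : e + a = w + 7) : Rep P.W B.J (B.mu P w) (up B.N (Mn P (B.d + 1)
      (2 ^ P.s / 2 ^ (a / 4 : ℝ)) fun j => mu (B.d + 1) (tF 1 (e : ℕ) (mQ B.A B.k j)) (a / 4))) := by
  obtain ⟨e1, e2, e3⟩ := hB
  simp only [Bm.ok, bnd_iff, cnd_eq, Nat.ble_eq, Nat.beq_eq, Nat.add_eq, Nat.mul_eq] at k
  obtain ⟨⟨⟨k1, -⟩, ⟨k2, -⟩, k3, k4⟩, k5, k6⟩ := k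
  simp only [Bm.mu, strict_eq, Nat.add_eq, Nat.mul_eq, Nat.sub_eq]
  obtain ⟨G, g1, g2⟩ := rep_stz (c := B.A.H.c) (rep_moH (d := B.d + 1) (M := B.A.A.M)
    (q := w + (B.A.r + 4 * B.A.k1)) (p := B.J + 1 + 1) (sh := fun m => dg B.A.A.E m + B.Q.xH) hP
    (show B.Q.sH + 3 ≤ 3072 by omega)) (fun _ => rep_moL (d := B.d + 1) (M := B.A.H.M) (L := B.Q.L)
    (q := w + B.A.i) (sh := fun m => dg B.A.H.E m + B.Q.xL - 2 * dg B.A.I m) hP
    (show B.Q.sL + 3 ≤ 3072 by omega) (dg B.A.I)) (16 * B.A.A.c)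
  obtain ⟨Z, z1, z2⟩ := rep_stz (c := B.A.H.c) (rep_cm (P := P) (p := B.J) (b := B.Q.b0) k2)
    (fun h => rep_cm (b := B.Q.b0) ((bnd_iff _ _).1 ((bnd_iff _ _).1 (by
      simpa only [if_neg h] using k6)).1).1) (16 * B.A.A.c)
  have t := rep_mo2 (sh := fun m => P.ep (B.d + 1) m + B.Q.y) (c := B.A.A.c + B.A.H.c)
    (d := B.d + 1) (G := fun f m u => if f < 16 * B.A.A.c then
      (if f < B.A.A.M + 1 then 2 ^ B.Q.sH / 2 ^ (dg B.A.A.E f + B.Q.xH) else 0) * Jt (B.d + 1)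
        (4 * (B.d + 1) + 7 + (w + (B.A.r + 4 * B.A.k1)) + 4 * u) (gf (B.d + 1) m * gf (B.d + 1) f)
      else (if f - 16 * B.A.A.c < B.A.H.M + 1 then 2 ^ B.Q.sL / 2 ^ (dg B.A.H.E (f - 16 * B.A.A.c)
        + B.Q.xL - 2 * dg B.A.I (f - 16 * B.A.A.c)) else 0) * Jl (B.d + 1) (gf (B.d + 1) m * 1)
        (dg B.A.I (f - 16 * B.A.A.c)) (4 * (B.d + 1) + 7 + (w + B.A.i) + 4 * u)) hP g1 (by omega)
    (fun f hf u _ => by
      rw [g2 f (by omega)]
      simp only [gf_zero, one_mul]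
      split_ifs with h1 h2 h3 <;> simp only [up, *, if_true, if_false, zero_mul] <;> ring)
    fun f _ => by
      split_ifs
      exacts [(tri_Jt (by omega) _).mul _, (tri_Jt (by omega) _).mul _,
        (tri_Jl _ _ _ (by omega)).mul _, (tri_Jl _ _ _ (by omega)).mul _]
  refine fx_up hP ((t.mm z1 hP.2.2).congr fun m j _ => ?_) (fun _ _ _ => rfl) e3
  simp only [up, e2, ite_mul, zero_mul]
  split_ifs with hm
  swap
  · simp
  rw [mul_add 16, sum_range_add, Mn, show B.d + 1 = 2 * B.k + 2 by omega, mu_mQ B.A j m he ha hw,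
    mul_add, mul_add, add_div, mul_add]
  simp only [mul_sum, sum_div]
  have h2 : (2 : ℝ) ^ (a / 4 : ℝ) ≠ 0 := by positivity
  congr 1 <;> refine sum_congr rfl fun i hi => ?_ <;> have hi := mem_range.1 hi
  · rw [z2 i (by omega)]
    simp only [if_pos hi, up, cI, Nat.lt_add_one_iff, add_zero, mul_zero, show dig = dg from rfl]
    split_ifs
    · rw [pw_eq k5, e1, show (4 : ℝ) = 2 ^ 2 by norm_num, ← pow_mul]
      simp only [pow_add]
      field_simp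
    · simp
  · rw [z2 _ (by omega)]
    rw [if_neg (by omega), bnd_iff, bnd_iff] at k6
    simp only [if_neg (show ¬16 * B.A.A.c + i < 16 * B.A.A.c by omega), Nat.add_sub_cancel_left,
      if_pos hi, up, cI, Nat.lt_add_one_iff, add_zero, mul_zero, show dig = dg from rfl]
    split_ifs with h
    · rw [pw_eq (Nat.eq_of_beq_eq_true k6.1.2), pw_eq (Nat.sub_add_cancel
        (Nat.le_of_ble_eq_true (allR_spec k6.2 i (Nat.zero_le _) (by omega)))), e1,
        show (4 : ℝ) = 2 ^ 2 by norm_num, show (256 : ℝ) = 2 ^ 8 by norm_num, ← pow_mul, ← pow_mul,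
        ← pow_mul]
      simp only [pow_add]
      field_simp
    · simp

/-- The coefficients of the polynomial of a functional. -/
def tv (A : Cm) (k j i : ℕ) : ℝ :=
  if i < 16 * A.c then cI A.M A.E A.z (fun _ => 4 ^ (k + k)) (col A j) i else 0

theorem sp_tv {k j : ℕ} (h : A.M + 3 ≤ N) : Sp N (tv A k j) := fun m hm => by
  rw [tv, cI, if_neg (show ¬m ≤ A.M by omega), ite_self]

theorem gQ_eq {k j : ℕ} (h : A.M + 3 ≤ N) : gQ A k k j = gS (2 * k + 2) N (tv A k j) := by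
  have e : ∀ i, C (tv A k j i) * gf (2 * k + 2) i = if i < 16 * A.c then
      C (cI A.M A.E A.z (fun i => i.factorial * 4 ^ (k + k)) (col A j) i) * geg (4 * k + 6) i
      else 0 := fun i => by
    rw [tv, gf, ← mul_assoc, ← C_mul, show 2 * (2 * k + 2) + 2 = 4 * k + 6 by ring]
    simp only [cI]
    split_ifs
    · congr 2
      ring
    all_goals simp
  rw [gS, sum_subset (range_subset_range.2 (le_max_left N (16 * A.c))) fun i _ hi => by
    rw [zs_sp (sp_tv h) i (by simpa using hi), C_0, zero_mul], gQ, gP]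
  rw [sum_congr rfl fun i _ => e i, ← sum_filter]
  congr 1
  ext i
  simp only [mem_range, mem_filter]
  omega

theorem okt_le (k : B.okt P = true) : B.T.M + 3 ≤ B.N :=
  Nat.le_of_ble_eq_true ((bnd_iff _ _).1 ((bnd_iff _ _).1 k).1).1

theorem rep_th (hP : P.Pos) (hB : B.Wf) (k : B.okt P = true) : Rep P.W B.Jh (B.th P)
    (Cn P (B.d + 1) (2 ^ P.s / 2 ^ (B.d + 1)) (tv B.T B.k)) := by
  have h := okt_le k
  simp only [Bm.okt, bnd_iff, Nat.beq_eq, Nat.add_eq, Nat.mul_eq] at k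
  refine (fx_up (g := Cn P (B.d + 1) (2 ^ P.s / 2 ^ (B.d + 1)) (tv B.T B.k)) hP
    ((rep_cm k.1.2).dsc hP.2.2 (enc_one _) _ _ _ _ _) (fun i hi j => ?_)
    (by have := hB.2.2; simp only [Nat.add_eq]; omega)).congr fun i j _ => ?_
  · simp only [Cn, tv, cI, up, sgn_ff, shl_eq, Nat.add_eq, show dig = dg from rfl,
      if_pos (Nat.lt_add_one_iff.1 hi)]
    split_ifs
    · rw [pw_eq ((add_assoc _ _ _).symm.trans k.2), show (4 : ℝ) = 2 ^ 2 by norm_num, ← pow_mul,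
        show 2 * (B.k + B.k) = 4 * B.k by ring]
      simp only [pow_add]
      push_cast
      field_simp
    · simp
  · simp only [up, Cn, Nat.add_eq]
    split_ifs with h1
    · rfl
    · rw [tv, cI, if_neg (show ¬i ≤ B.T.M by omega), ite_self, mul_zero, zero_mul]

theorem zs_kM {y : ℕ → ℝ} {r : ℝ} (h : Sp N y) : Zs N (vX N y (kM r d)) := zs_cV h fun _ _ => rfl

theorem zs_ww {y : ℕ → ℝ} {r r' : ℝ} (h : Sp N y) : Zs N (ww r r' d N y) := fun m hm => by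
  rw [ww, zs_low (fun _ _ h => by rw [hM, cU_low _ _ h, mul_zero]) m hm,
    zs_cV (r := 1) h.kP (fun _ _ => (one_mul _).symm) m hm, add_zero]

theorem rep_oM (hP : P.Pos) (h : Rep P.W p T (Cn P (B.d + 1) κ x)) (hx : ∀ j, Sp B.N (x j)) :
    Rep P.W p (oM P B p T) (Cn P B.d κ fun j => vX B.N (x j) (kM (3 / 4) B.d)) := by
  rw [← up_Cn fun j => zs_kM (hx j)]
  exact rep_bV (sg := true) hP h (fun j => zs_sp (hx j)) (by norm_num) fun m j => by
    simp only [kM, sgn_tt, Nat.add_eq, Nat.mul_eq]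
    push_cast
    ring

theorem rep_oP (hP : P.Pos) (h : Rep P.W p T (Cn P (B.d + 1) κ x)) (hx : ∀ j, Sp B.N (x j)) :
    Rep P.W p (oP P B p T) (Cn P (B.d + 2) κ fun j => vX B.N (x j) (kP (3 / 4) B.d)) := by
  rw [← up_Cn fun j => zs_sp (hx j).kP]
  exact rep_bU (sg := true) hP h (fun j => zs_sp (hx j)) (by norm_num) fun m j => by
    simp only [kP, sgn_tt, Nat.add_eq, Nat.mul_eq]
    push_cast
    ring

theorem rep_oW (hP : P.Pos) (h : Rep P.W p T (Cn P (B.d + 1) κ x)) (hx : ∀ j, Sp B.N (x j))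
    (ha : a ≤ 12) : Rep P.W p (oW P B p a T)
      (Cn P (B.d + 1) κ fun j => ww (3 / 4) (a / 4) B.d B.N (x j)) := by
  have h1 := rep_bU (b := B.Q.b) (sg := false) (a := a) (u := 2) (v := 1) (A := hM (a / 4) B.d) hP
    (rep_oM hP h hx) (fun j => zs_kM (hx j)) (by omega) fun m j => by simp [hM, sgn_ff]
  have h2 := rep_bV (b := B.Q.b) (sg := false) (a := a) (u := 1) (v := 1) (A := cV (a / 4) (B.d + 1))
    hP (rep_oP hP h hx) (fun j => zs_sp (hx j).kP) ha fun m j => by simp [sgn_ff]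
  rw [up_Cn fun j => zs_low fun _ _ h => by rw [hM, cU_low _ _ h, mul_zero]] at h1
  rw [up_Cn fun j => zs_cV (r := 1) (hx j).kP fun _ _ => (one_mul _).symm] at h2
  exact (h1.add h2).congr fun i j _ => by simp only [Cn, ww]; ring

theorem enc_cA : Enc 3072 (√2 / 256 * lam 0) cA 4 :=
  (((enc_s2.mul' enc_lam0).rat (p := 1) (q := 256) (C := cS2 * cL0 / 256) (i := 2 ^ 3072)
    (by norm_num) (by decide +kernel) (by decide +kernel)).drop (by decide +kernel)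
    (by decide +kernel)).congr (by push_cast; ring)

theorem enc_cP : Enc 3072 (π * √2 / 256 * lam 0) cP 4 :=
  (((enc_pi.mul' (enc_s2.mul' enc_lam0)).rat (p := 1) (q := 256) (C := cPI * (cS2 * cL0) / 256)
    (i := 2 ^ 6144) (by norm_num) (by decide +kernel) (by decide +kernel)).drop (by decide +kernel)
    (by decide +kernel)).congr (by push_cast; ring)

/-- The graded form in one solid degree. -/
def dF (n d N : ℕ) (x y : ℕ → ℝ) : ℝ :=
  Jw d 1 (gS d N (ct (fun k => lam k - lamS n) n d x) * gS d N (ct (fun _ => 1) n d y))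

theorem Jw_sum_gf (d N : ℕ) (y : ℕ → ℝ) (Q : ℝ[X]) :
    Jw d 1 (gS d N y * Q) = ∑ i ∈ range N, y i * Jw d 1 (Q * gf d i) := by
  simp only [Jw_gS (show -((d : ℝ) + 3 / 2) < 1 by linarith [Nat.cast_nonneg (α := ℝ) d]),
    mul_comm Q]

theorem rep_fD (hP : P.Pos) (hB : B.Wf) (hs : P.s ≤ 3072) (hd : 1 ≤ d)
    (h : Rep P.W B.J T (Cn P d κ x)) (hx : ∀ j, Zs B.N (x j)) : Rep P.W B.J (fD P B n d u v T)
      (up B.J fun i j => κ ^ 2 * (√2 / 256 * (u / v)) / π *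
        (dF (n + 1) d B.N (x i) (x j) + dF (n + 1) d B.N (x j) (x i))) := by
  have h1 := rep_fx hP ((rep_dl (n := n + 1 - d) (u := u) (v := v) (d := d) hP h enc_cA hs).add
    (rep_dm (n := n + 1 - d) (u := u) (v := v) (m := n) hP h enc_cA hs)) B.c P.s B.Q.b'
  have h2 := rep_bX (n := B.N) (N := B.N) (b := B.Q.b) (κ := κ)
    (x := fun j => ct (fun _ => 1) (n + 1) d (x j)) hP ((h.zr hP.2.2 (n + 1 - d)).congr
    fun i j _ => by
      simp only [up, Cn, ct, one_mul, Nat.lt_sub_iff_add_lt']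
      split_ifs <;> simp) (fun j m hm => by rw [ct, hx j m hm, mul_zero, ite_self]) hd
  refine ((rep_tm hP h1 h2 _).add (rep_tm hP h2 h1 _)).congr fun i j hj => ?_
  simp only [up]
  split_ifs with hi
  swap
  · simp
  simp only [mul_add, dF, Jw_sum_gf _ _ _ (gS _ _ _), mul_sum, ← sum_up hB.2.2]
  congr 1 <;> refine sum_congr rfl fun k hk => ?_ <;>
    simp only [if_pos (mem_range.1 hk), Mn, Cn, ct, Nat.lt_sub_iff_add_lt'] <;> split_ifs <;>
    (field_simp; ring)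

theorem rep_fK {y : ℕ → ℕ → ℝ} (hP : P.Pos) (hB : B.Wf) (hs : P.s ≤ 3072)
    (hU : Rep P.W p U (up B.N (Mn P d κ' y))) (h : Rep P.W B.J T (Cn P d κ x)) :
    Rep P.W B.J (fK P B p d u v U T) (up p fun i j => κ' * κ * (π * √2 / 256 * (u / v)) *
      ∑ k ∈ range B.N, lam (d + k) * x j k * y i k) := by
  refine (rep_tm hP hU (fx_up hP (rep_dl hP h enc_cP hs) (fun _ _ _ => mul_assoc _ _ _) hB.2.2)
    _).congr fun i j _ => ?_
  simp only [up, mul_sum, ← sum_up hB.2.2]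
  split_ifs
  · refine sum_congr rfl fun k _ => ?_
    simp only [Mn, Cn]
    split_ifs
    · field_simp
    · simp
  · rfl

theorem rep_fG {y : ℕ → ℕ → ℝ} (hP : P.Pos) (hB : B.Wf) (hs : P.s ≤ 3072) (ha : a ≤ 12)
    (h : Rep P.W p T (Cn P (B.d + 1) κ' t)) (ht : ∀ j, Sp B.N (t j))
    (hU : Rep P.W B.J U (up B.N (Mn P (B.d + 1) κ y))) : Rep P.W B.J (fG P B p a T U)
      (up p fun i j => κ' * κ * (3 * nT (B.d + 1)) *
        ∑ k ∈ range B.N, ww (3 / 4) (a / 4) B.d B.N (t i) k * y j k) := by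
  obtain ⟨q, hq⟩ := Nat.exists_eq_add_of_le hs
  refine (rep_tm hP (fx_up (g := fun i j => 3 * nT (B.d + 1) * Cn P (B.d + 1) κ'
    (fun j => ww (3 / 4) (a / 4) B.d B.N (t j)) i j) hP ((rep_oW hP h ht ha).dsc hP.2.2 enc_pi _ _ _ _ _)
    (fun i _ j => ?_) hB.2.2) hU _).congr fun i j _ => ?_
  · simp only [sgn_ff, nl, n2, nT, shl_eq, Nat.add_eq, Nat.mul_eq, Nat.sub_eq,
      show 3072 - P.s = q by omega]
    push_cast
    rw [hq, pow_add, show 2 * ((B.d : ℝ) + 1) + 1 = 2 * B.d + 3 by ring]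
    field_simp
    ring
  simp only [up, mul_sum, ← sum_up hB.2.2]
  split_ifs
  · refine sum_congr rfl fun k _ => ?_
    simp only [Mn, Cn]
    split_ifs
    · field_simp
    · simp
  · rfl

theorem clo_le {e : ℕ} (hP : P.Pos) (h : Rep P.W p T g) (hS : Mat S.V p S.K n S.R z) (hV : 0 < S.V)
    {m s i j : ℕ} (k : clo P p m u e S T = true) (hm : m ≤ n) (hi : i < m) (hj : j < p) {f : ℝ}
    (hf : g i j = 2 ^ (u + s) * f) : |z i j / 2 ^ s - f| ≤ 2 ^ (e + 1) / 2 ^ (u + s) := by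
  have := (h.add (((rep_sr hS hV).sml _).neg hP.2.2)).fin k hi hj
  simp only [up, if_pos (hi.trans_le hm), shl_eq, hf] at this
  rw [le_div_iff₀ (by positivity), ← abs_of_pos (show (0 : ℝ) < 2 ^ (u + s) by positivity),
    ← abs_mul, ← abs_neg]
  refine le_trans (le_of_eq (congrArg _ ?_)) this
  push_cast
  rw [pow_add]
  field_simp
  ring

theorem ivt_det (hP : P.Pos) (hB : B.Wf) {y : ℕ → ℕ → ℝ}
    (h : Rep P.W B.J T (Cn P d κ fun j => cf B.J (y j))) (k : ivt P B T = true) :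
    (Matrix.of fun m m' : Fin B.J => y m m').det ≠ 0 := by
  obtain ⟨k1, k2⟩ := (bnd_iff _ _).1 k
  refine det_ne_of_inv _ (Matrix.of fun i m => κ / (i : ℕ).factorial * 2 ^ P.ep d i *
    up (16 * B.Q.R.c) (fun i j => (col B.Q.R j i : ℝ)) i m / 2 ^ B.Q.uR) fun m => ?_
  have := ((rep_tm hP h (rep_cm k1) _).add ((rep_idm hP.2.2).neg hP.2.2)).l1r k2 m.2
  simp only [shl_eq, one_mul, Nat.sub_eq, Nat.cast_pred (Nat.two_pow_pos _), up.eq_1 B.J,
    if_pos m.2, sum_range (n := B.J)] at this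
  push_cast at this
  have h0 : (0 : ℝ) < 2 ^ B.Q.uR := by positivity
  refine lt_of_mul_lt_mul_left (a := 2 ^ B.Q.uR) (lt_of_le_of_lt (le_of_eq ?_)
    (this.trans_lt (by linarith))) h0.le
  rw [mul_sum]
  refine sum_congr rfl fun j _ => ?_
  rw [← abs_of_pos h0, ← abs_mul, abs_of_pos h0]
  congr 1
  simp only [Matrix.sub_apply, Matrix.mul_apply, Matrix.of_apply, Matrix.one_apply, Fin.ext_iff, Cn,
    cf, mul_ite, ite_mul, mul_zero, zero_mul, sum_up (show B.J ≤ 16 * B.c by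
      have := hB.2; omega), sum_range (n := B.J), mul_add, mul_neg, mul_sum, mul_one,
    sub_eq_add_neg]
  congr 1
  exact sum_congr rfl fun i _ => by field_simp

/-! ### One block -/

theorem cf_prj (hl : 1 ≤ d) (J : ℕ) (f : ℝ → ℝ) (i : ℕ) :
    cf J (prj d f) i = if i < J then mu d f (9 / 4) i / nF d i else 0 := by
  rw [cf, prj_eq hl]

theorem rep_x {r e w : ℕ} (hP : P.Pos) (hB : B.Wf) (k : B.ok P r = true) (he : 4 * B.k + 6 ≤ e)
    (hw : e + 9 = w + 7) : Rep P.W B.J (B.x P w) (Cn P (B.d + 1) (2 ^ P.s / 2 ^ (9 / 4 : ℝ) * π)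
      fun j => cf B.J (prj (B.d + 1) (tF 1 (e : ℕ) (mQ B.A B.k j)))) := by
  have h := rep_mu hP hB k he (by norm_num) hw
  rw [show up B.N _ = Mn P (B.d + 1) (2 ^ P.s / 2 ^ (9 / 4 : ℝ)) fun j i => if i < B.N then
    mu (B.d + 1) (tF 1 (e : ℕ) (mQ B.A B.k j)) (9 / 4) i else 0 from funext₂ fun i j => by
      simp only [up, Mn]
      split_ifs <;> simp] at h
  refine (rep_bI hP h).congr fun i j _ => ?_
  simp only [up, Cn, cf_prj (Nat.le_add_left 1 _)]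
  split_ifs with h1 h2
  · ring
  · have := hB.2.1
    omega
  · simp

theorem ok_s {r : ℕ} (k : B.ok P r = true) : P.s ≤ 3072 ∧ B.A.r = r := by
  simp only [Bm.ok, bnd_iff, Nat.ble_eq, Nat.beq_eq] at k
  exact ⟨k.1.2.1.2, k.1.1.2⟩

theorem two_9 : (2 : ℝ) ^ (9 / 4 : ℝ) * 2 ^ (9 / 4 : ℝ) = 16 * √2 := by
  rw [← Real.rpow_add two_pos, Real.sqrt_eq_rpow, show (9 / 4 + 9 / 4 : ℝ) = (4 : ℕ) + 1 / 2 by
    norm_num, Real.rpow_add two_pos, Real.rpow_natCast]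
  norm_num

theorem two_9' : (2 : ℝ) ^ (9 / 4 : ℝ) = 2 ^ (3 / 4 : ℝ) * (2 * √2) := by
  rw [Real.sqrt_eq_rpow, ← Real.rpow_one_add' two_pos.le (by norm_num), ← Real.rpow_add two_pos]
  norm_num

theorem pot_gS {k j : ℕ} (h : A.M + 3 ≤ N) : pot k (gQ A k k j) = fT (2 * k + 1 + 1) (3 / 4)
    (gS (2 * k + 1 + 1) N fun i => 3 / (2 ^ (2 * k + 1 + 1) * 2 ^ (3 / 4 : ℝ)) * tv A k j i) := by
  rw [gS_C, ← gQ_eq h]
  refine sp_tor_congr fun z hz => ?_
  rw [omF_eq_tF hz, mul_comp, C_comp, ← mul_assoc, ← C_mul, Real.rpow_add two_pos,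
    Real.rpow_natCast, mul_div_cancel₀ _ (by positivity), map_ofNat]
  congr 1
  push_cast
  ring

theorem Sp.mul {y : ℕ → ℝ} (h : Sp N y) (r : ℝ) : Sp N fun i => r * y i := fun m hm => by
  simp only [h m hm, mul_zero]

theorem vX_sm (r : ℝ) (y : ℕ → ℝ) (M : ℕ → ℕ → ℝ) :
    vX N (fun i => r * y i) M = fun j => r * vX N y M j := by
  funext j
  simp only [vX, mul_sum, mul_assoc]

theorem ww_sm (r a a' : ℝ) (y : ℕ → ℝ) :
    ww a a' d N (fun i => r * y i) = fun j => r * ww a a' d N y j := by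
  funext j
  simp only [ww, vX_sm, mul_add]

theorem half_Om (V : Vc) : sm (fun y => Om y / 2) V = fun i y => 1 / 2 * sm Om V i y := by
  funext i y
  simp only [sm]
  ring

theorem ip_half (U V : Vc) : ip U (fun i y => 1 / 2 * V i y) = 1 / 2 * ip U V := by
  rw [ip, ip, ← MeasureTheory.integral_const_mul]
  simp only [dot, mul_sum, mul_left_comm]

variable {y : ℕ → ℕ → ℝ}

theorem rep_fD0 (hP : P.Pos) (hB : B.Wf) (hs : P.s ≤ 3072)
    (h : Rep P.W B.J T (Cn P (B.d + 1) (2 ^ P.s / 2 ^ (9 / 4 : ℝ) * π) fun j => cf B.J (y j))) :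
    Rep P.W B.J (fD0 P B n T) (up B.J fun i j => 2 ^ (2 * P.s) *
      (Ca.mD (n + 1) (Mode.gr ⟨false, B.d + 1, B.J, y i⟩) (Mode.gr ⟨false, B.d + 1, B.J, y j⟩)
        + Ca.mD (n + 1) (Mode.gr ⟨false, B.d + 1, B.J, y j⟩) (Mode.gr ⟨false, B.d + 1, B.J, y i⟩))) := by
  have hd : 1 ≤ B.d := by have := hB.1; omega
  have hx := fun j => sp_cf (B := y j) hB.2.1.ge
  have e : ∀ i j, Ca.mD (n + 1) (Mode.gr ⟨false, B.d + 1, B.J, y i⟩)
      (Mode.gr ⟨false, B.d + 1, B.J, y j⟩) = 4 * π * ((B.d + 1) * dF (n + 1) B.d B.N _ _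
        + (B.d + 2) * dF (n + 1) (B.d + 2) B.N _ _) := fun i j => by
    rw [mD_ip, gr_fM _ (by simp only; omega) (curl_md_T hB.2.1.ge),
      gr_fM _ (by simp only; omega) (curl_md_T hB.2.1.ge), sm_fM,
      ip_fM _ _ _ _ _ _ (by linarith [Nat.cast_nonneg (α := ℝ) B.d]), if_pos rfl,
      show (0 + 4 + 0 - 3 : ℝ) = 1 by norm_num]
    rfl
  refine ((rep_fD hP hB hs hd (rep_oM hP h hx) fun j => zs_kM (hx j)).add
    (rep_fD (d := B.d + 2) hP hB hs (by omega) (rep_oP hP h hx) fun j => zs_sp (hx j).kP)).congr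
    fun i j _ => ?_
  simp only [up, e, mul_pow, div_pow, sq ((2 : ℝ) ^ (9 / 4 : ℝ)), two_9, Nat.add_eq, Nat.mul_eq]
  split_ifs
  · push_cast
    field_simp
    ring
  · simp

theorem rep_fD1 (hP : P.Pos) (hB : B.Wf) (hs : P.s ≤ 3072)
    (h : Rep P.W B.J T (Cn P (B.d + 1) (2 ^ P.s / 2 ^ (9 / 4 : ℝ) * π) fun j => cf B.J (y j))) :
    Rep P.W B.J (fD1 P B n T) (up B.J fun i j => 2 ^ (2 * P.s) *
      (Ca.mD (n + 1) (Mode.gr ⟨true, B.d + 1, B.J, y i⟩) (Mode.gr ⟨true, B.d + 1, B.J, y j⟩)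
        + Ca.mD (n + 1) (Mode.gr ⟨true, B.d + 1, B.J, y j⟩) (Mode.gr ⟨true, B.d + 1, B.J, y i⟩))) := by
  have hd : 1 ≤ B.d := by have := hB.1; omega
  have hx := fun j => sp_cf (B := y j) hB.2.1.ge
  have e : ∀ i j, Ca.mD (n + 1) (Mode.gr ⟨true, B.d + 1, B.J, y i⟩)
      (Mode.gr ⟨true, B.d + 1, B.J, y j⟩) = nT (B.d + 1) * dF (n + 1) (B.d + 1) B.N _ _ :=
    fun i j => by
    rw [mD_ip, gr_fT _ (by simp only; omega) (curl_md_P hB.2.1.ge),
      gr_fT _ (by simp only; omega) (curl_md_P hB.2.1.ge), sm_fT, ip_fT, if_pos rfl,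
      show (0 + 4 + 0 - 3 : ℝ) = 1 by norm_num]
    rfl
  have h1 := rep_oW (a := 3) hP h hx (by norm_num)
  rw [Nat.cast_ofNat] at h1
  refine (rep_fD (d := B.d + 1) hP hB hs (by omega) h1 fun j => zs_ww (hx j)).congr fun i j _ => ?_
  simp only [up, e, mul_pow, div_pow, sq ((2 : ℝ) ^ (9 / 4 : ℝ)), two_9, nl, n2, nT, Nat.add_eq,
    Nat.mul_eq]
  split_ifs
  · push_cast
    rw [show 2 * ((B.d : ℝ) + 1) + 1 = 2 * B.d + 3 by ring]
    field_simp
    ring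
  · simp

theorem rep_fK0 (hP : P.Pos) (hB : B.Wf) (hs : P.s ≤ 3072) (k : B.okt P = true)
    (h : Rep P.W B.J T (Cn P (B.d + 1) (2 ^ P.s / 2 ^ (9 / 4 : ℝ) * π) fun j => cf B.J (y j))) :
    Rep P.W B.J (fK0 P B B.Jh (B.th P) T) (up B.Jh fun i j => 2 ^ (2 * P.s) * (1 / 64 *
      ip (Mode.lp ⟨false, B.d + 1, B.J, y j⟩) (thF 0 B.k (gQ B.T B.k B.k i)))) := by
  have hd : 1 ≤ B.d := by have := hB.1; omega
  have hx := fun j => sp_cf (B := y j) hB.2.1.ge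
  have ht := fun j => sp_tv (k := B.k) (j := j) (okt_le k)
  have h1 := rep_th hP hB k
  refine ((rep_fK hP hB hs (rep_bX hP (rep_oM hP h1 ht) (fun j => zs_kM (ht j)) hd)
    (rep_oM hP h hx)).add (rep_fK (d := B.d + 2) hP hB hs (rep_bX hP (rep_oP hP h1 ht)
    (fun j => zs_sp (ht j).kP) (by omega)) (rep_oP hP h hx))).congr fun i j _ => ?_
  simp only [up]
  split_ifs
  swap
  · simp
  rw [lp_fM _ (by simp only; omega) (curl_md_T hB.2.1.ge), thF, if_pos rfl, half_Om, ip_half,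
    pot_gS (okt_le k), ← hB.1, curl_fT (Sp.mul (ht i) _), ← md_Op_one, sm_fM,
    ip_fM _ _ _ _ _ _ (by linarith [Nat.cast_nonneg (α := ℝ) B.d]), if_pos rfl,
    show (9 / 4 + (3 / 4 + 1) - 3 : ℝ) = 1 by norm_num, Jw_sum_gf, Jw_sum_gf, two_9']
  simp only [vX_sm, gS_C, mul_assoc (C _), Jw_C, Nat.add_eq, Nat.mul_eq, mul_add, mul_sum]
  congr 1 <;> refine sum_congr rfl fun _ _ => ?_ <;> push_cast <;> field_simp <;> ring

theorem rep_fK1 (hP : P.Pos) (hB : B.Wf) (hs : P.s ≤ 3072) (k : B.okt P = true)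
    (h : Rep P.W B.J T (Cn P (B.d + 1) (2 ^ P.s / 2 ^ (9 / 4 : ℝ) * π) fun j => cf B.J (y j))) :
    Rep P.W B.J (fK1 P B B.Jh (B.th P) T) (up B.Jh fun i j => 2 ^ (2 * P.s) * (1 / 64 *
      ip (Mode.lp ⟨true, B.d + 1, B.J, y j⟩) (thF 1 B.k (gQ B.T B.k B.k i)))) := by
  have hd : 1 ≤ B.d := by have := hB.1; omega
  have hx := fun j => sp_cf (B := y j) hB.2.1.ge
  have h1 := rep_oW (a := 3) hP h hx (by norm_num)
  rw [Nat.cast_ofNat] at h1
  refine (rep_fK (d := B.d + 1) hP hB hs (rep_bN hP (rep_th hP hB k)) h1).congr fun i j _ => ?_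
  simp only [up]
  split_ifs
  swap
  · simp
  rw [lp_fT _ (by simp only; omega) (curl_md_P hB.2.1.ge), thF, if_neg one_ne_zero,
    pot_gS (okt_le k), ← hB.1, ip_fT, if_pos rfl, show (9 / 4 + 3 / 4 - 3 : ℝ) = 0 by norm_num,
    Jw_gS_zero (by omega), two_9']
  simp only [mul_sum, nl, n2, nT, Nat.add_eq, Nat.mul_eq]
  refine sum_congr rfl fun _ _ => ?_
  push_cast
  rw [show 2 * ((B.d : ℝ) + 1) + 1 = 2 * B.d + 3 by ring]
  field_simp
  ring

theorem rep_fG0 (hP : P.Pos) (hB : B.Wf) (k : B.ok P 3 = true) (k' : B.okt P = true) :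
    Rep P.W B.J (fG P B B.Jh 7 (B.th P) (B.mu P (4 * B.k + 8))) (up B.Jh fun i j => 2 ^ (2 * P.s) *
      mom (thF 0 B.k (gQ B.T B.k B.k i))
        (vel false (B.d + 1) (tF 1 (4 * B.k + 8 : ℕ) (mQ B.A B.k j)))) := by
  have ht := fun j => sp_tv (k := B.k) (j := j) (okt_le k')
  refine (rep_fG hP hB (ok_s k).1 (by norm_num) (rep_th hP hB k') ht
    (rep_mu (a := 7) (e := 4 * B.k + 8) hP hB k (by omega) (by norm_num) (by omega))).congr
    fun i j _ => ?_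
  simp only [up]
  split_ifs
  swap
  · rfl
  have := mom_T (d := B.d) (g := tF 1 (4 * B.k + 8 : ℕ) (mQ B.A B.k j)) (by have := hB.1; omega)
    (Sp.mul (ht i) (3 / (2 ^ (B.d + 1) * 2 ^ (3 / 4 : ℝ)))) fun s => md_sym_mono
      (sym_tor (sym_tF one_pos) s) (by rw [hB.1]; push_cast; linarith)
  rw [mom] at this
  rw [vel, if_neg Bool.false_ne_true, thF, if_pos rfl, half_Om, mom, ip_half, pot_gS (okt_le k'),
    ← hB.1, this, ww_sm, show ((7 : ℕ) / 4 : ℝ) = 7 / 4 by norm_num, show (2 : ℝ) ^ (7 / 4 : ℝ) =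
      2 ^ (3 / 4 : ℝ) * 2 by rw [← Real.rpow_add_one two_ne_zero]; norm_num]
  simp only [mul_sum]
  refine sum_congr rfl fun _ _ => ?_
  field_simp
  ring

theorem rep_fG1 (hP : P.Pos) (hB : B.Wf) (k : B.ok P 1 = true) (k' : B.okt P = true) :
    Rep P.W B.J (fG P B B.Jh 3 (B.th P) (B.mu P (4 * B.k + 2))) (up B.Jh fun i j => 2 ^ (2 * P.s) *
      mom (thF 1 B.k (gQ B.T B.k B.k i))
        (vel true (B.d + 1) (tF 1 (4 * B.k + 6 : ℕ) (mQ B.A B.k j)))) := by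
  have ht := fun j => sp_tv (k := B.k) (j := j) (okt_le k')
  refine (rep_fG hP hB (ok_s k).1 (by norm_num) (rep_th hP hB k') ht
    (rep_mu (a := 3) (e := 4 * B.k + 6) hP hB k (by omega) (by norm_num) (by omega))).congr
    fun i j _ => ?_
  simp only [up]
  split_ifs
  swap
  · rfl
  rw [vel, if_pos rfl, thF, if_neg one_ne_zero, pot_gS (okt_le k'), ← hB.1,
    mom_P (by have := hB.1; omega) (Sp.mul (ht i) _) fun s => md_sym_mono
      (sym_tor (sym_tF one_pos) s) (by rw [hB.1]; push_cast; linarith), ww_sm,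
    show ((3 : ℕ) / 4 : ℝ) = 3 / 4 by norm_num]
  simp only [mul_sum]
  refine sum_congr rfl fun _ _ => ?_
  field_simp
  ring

end

end Pool.Agent.Work.MP_6bf1e5_an.H.Bk
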