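import Pool.Agent.Work.MP_6bf1e5_an.H.BkT
import Pool.Agent.Work.MP_6bf1e5_an.H.BlkZ

/-! Determinants, graded form and dissipation from the checks of the blocks (owner helper84). -/

open scoped Real
open Finset

namespace Pool.Agent.Work.MP_6bf1e5_an.H.Bk

open Pool.Agent.Lib.KLA Pool.Agent.Lib.KBlk Pool.Agent.Lib.KMx Jf Ca Ps
open Pool.Agent.Lib.KRad (jz)

variable {G : Gd} {f : ℕ → Bm → Sr → Sr → Bool} {n c k y : ℕ} {δ : ℝ}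

/-- All blocks pass the check. -/
def Gd.All (G : Gd) (f : ℕ → Bm → Sr → Sr → Bool) : Prop :=
  G.Am.b0 = 1 ∧ ∀ k y, G.Am.Has (k + 1) y → G.on f (k + 1) y = true

theorem Gd.all_of (h : AllP (fun i => G.at f i = true) n) (h0 : G.Am.b0 = 1)
    (hn : 2 * G.Am.nq ≤ n) : G.All f := ⟨h0, fun k y ⟨_, h1, h2⟩ => by
  have := h (2 * k + y) (by omega)
  simp only [Gd.at, strict_eq, Nat.add_eq] at this
  rwa [show 1 + Nat.div (2 * k + y) 2 = k + 1 from show 1 + (2 * k + y) / 2 = k + 1 by omega,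
    show Nat.mod (2 * k + y) 2 = y from show (2 * k + y) % 2 = y by omega] at this⟩

/-- The block `(k + 1, y)`. -/
@[reducible] noncomputable def Gd.blk (G : Gd) (k y : ℕ) : Bm :=
  ⟨k, G.Am.J (k + 1) y, jz G.Ah (k + 1) y, 2 * k + 1, G.Am.J (k + 1) y + 2,
    (G.Am.J (k + 1) y + 17) / 16, G.Md (k + 1) y, G.Th (k + 1) y, G.Q (k + 1) y⟩

theorem Gd.on_eq : G.on f (k + 1) y =
    f y (G.blk k y) ⟨G.V, G.K, G.Dt (k + 1) y⟩ ⟨G.V, G.K, G.KL (k + 1) y⟩ := by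
  simp only [Gd.on, strict_eq]
  rfl

theorem Gd.wf : (G.blk k y).Wf := ⟨rfl, rfl, by simp only; omega⟩

/-- What the check of a block gives. -/
def Gd.Res (G : Gd) (b y : ℕ) : Prop :=
  (Matrix.of fun m m' : Fin (G.Am.J b y) => prj (2 * b) (xi0 G.Md (b, y, m)) m').det ≠ 0 ∧
  (∀ n z, Mat G.V (G.Am.J b y) G.K n (G.Dt b y) z → G.Am.J b y ≤ n → ∀ m < G.Am.J b y,
    ∀ m' < G.Am.J b y, |(z m m' : ℝ) / 2 ^ G.sD -
      (mD (G.n + 1) (mdD G.Am.J (xi0 G.Md) (b, y, m)).gr (mdD G.Am.J (xi0 G.Md) (b, y, m')).gr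
      + mD (G.n + 1) (mdD G.Am.J (xi0 G.Md) (b, y, m')).gr (mdD G.Am.J (xi0 G.Md) (b, y, m)).gr) / 2|
      ≤ 2 ^ (G.eD + 1) / 2 ^ (2 * G.P.s + 1)) ∧
  ∀ n z, Mat G.V (G.Am.J b y) G.K n (G.KL b y) z → jz G.Ah b y ≤ n → ∀ m < jz G.Ah b y,
    ∀ m' < G.Am.J b y, |(z m m' : ℝ) / 2 ^ G.sK -
      1 / 64 * ip (mdD G.Am.J (xi0 G.Md) (b, y, m')).lp (th0 G.Th (b, y, m))|
      ≤ 2 ^ (G.eK + 1) / 2 ^ (2 * G.P.s)

/-- The conditions on the numbers. -/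
def Gd.Ok (G : Gd) : Prop := G.P.Pos ∧ 0 < G.V ∧ G.sD ≤ 2 * G.P.s + 1 ∧ G.sK ≤ 2 * G.P.s

theorem cA3_res {r w e : ℕ} {f : MT → MT} {g : MT → MT → MT} (hG : G.Ok)
    (h : cA3 G (G.blk k y) ⟨G.V, G.K, G.Dt (k + 1) y⟩ ⟨G.V, G.K, G.KL (k + 1) y⟩ r w f g = true)
    (he : e = 4 * k + if y = 1 then 6 else 8) (hw : e + 2 = 4 * k + w)
    (hf : ∀ {T : MT} {x : ℕ → ℕ → ℝ}, G.P.s ≤ 3072 → Rep G.P.W (G.blk k y).J T (Cn G.P (2 * k + 1 + 1)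
      (2 ^ G.P.s / 2 ^ (9 / 4 : ℝ) * π) fun j => cf (G.blk k y).J (x j)) →
      Rep G.P.W (G.blk k y).J (f T) (up (G.blk k y).J fun i j => 2 ^ (2 * G.P.s) *
        (mD (G.n + 1) (Mode.gr ⟨decide (y = 1), 2 * k + 1 + 1, (G.blk k y).J, x i⟩)
          (Mode.gr ⟨decide (y = 1), 2 * k + 1 + 1, (G.blk k y).J, x j⟩)
        + mD (G.n + 1) (Mode.gr ⟨decide (y = 1), 2 * k + 1 + 1, (G.blk k y).J, x j⟩)
          (Mode.gr ⟨decide (y = 1), 2 * k + 1 + 1, (G.blk k y).J, x i⟩))) ∧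
      ((G.blk k y).okt G.P = true → Rep G.P.W (G.blk k y).J (g ((G.blk k y).th G.P) T)
        (up (G.blk k y).Jh fun i j => 2 ^ (2 * G.P.s) * (1 / 64 *
          ip (Mode.lp ⟨decide (y = 1), 2 * k + 1 + 1, (G.blk k y).J, x j⟩)
            (thF y k (gQ (G.blk k y).T k k i)))))) : G.Res (k + 1) y := by
  obtain ⟨hP, hV, hD, hK⟩ := hG
  simp only [cA3, bnd_iff, cnd_eq, Nat.add_eq, Nat.mul_eq, Nat.sub_eq] at h
  obtain ⟨⟨k1, k2⟩, k3, k4⟩ := h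
  have hx := rep_x (e := e) (w := 4 * k + w) hP Gd.wf k1 (by simp only; split_ifs at he <;> omega)
    (by omega)
  obtain ⟨h1, h2⟩ := hf (ok_s k1).1 hx
  subst he
  refine ⟨ivt_det hP Gd.wf hx k2, fun n z hz hn m hm m' hm' => ?_, fun n z hz hn m hm m' hm' => ?_⟩
  · have := clo_le (S := ⟨_, _, _⟩) (s := G.sD) hP h1 hz hV k3 hn hm hm' (f := _ / 2) (by
      rw [up, if_pos hm, Nat.sub_add_cancel hD, pow_succ, mul_assoc, mul_div_cancel₀ _ two_ne_zero])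
    rwa [Nat.sub_add_cancel hD] at this
  · rw [if_neg (by simp only [Nat.beq_eq]; omega), bnd_iff] at k4
    have := clo_le (S := ⟨_, _, _⟩) (s := G.sK) hP (h2 k4.1) hz hV k4.2 hn hm hm' (by
      rw [up, if_pos hm, Nat.sub_add_cancel hK])
    rwa [Nat.sub_add_cancel hK] at this

theorem Gd.res (hG : G.Ok) (h : G.All (chkA G)) {b : ℕ} (hb : G.Am.Has b y) : G.Res b y := by
  obtain ⟨k, rfl⟩ : ∃ k, b = k + 1 := ⟨b - 1, by have := hb.1; have := h.1; omega⟩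
  have h := h.2 k y hb
  rw [Gd.on_eq, chkA, cnd_eq] at h
  obtain rfl | rfl : y = 0 ∨ y = 1 := by have := hb.2.2; omega
  · exact cA3_res hG (by simpa using h) rfl rfl fun hs hx =>
      ⟨rep_fD0 hG.1 Gd.wf hs hx, fun k => rep_fK0 hG.1 Gd.wf hs k hx⟩
  · exact cA3_res hG (by simpa using h) rfl rfl fun hs hx =>
      ⟨rep_fD1 hG.1 Gd.wf hs hx, fun k => rep_fK1 hG.1 Gd.wf hs k hx⟩

theorem Gd.det (hG : G.Ok) (h : G.All (chkA G)) (h0 : ∀ c < 2, G.Am.J 0 c = 0) :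
    ∀ b < G.Am.nq + 1, ∀ c < 2, (Matrix.of fun m m' : Fin (G.Am.J b c) =>
      prj (2 * b) (xi0 G.Md (b, c, m)) m').det ≠ 0 := fun b hb c hc => by
  obtain rfl | h1 := Nat.eq_zero_or_pos b
  · have : IsEmpty (Fin (G.Am.J 0 c)) := ⟨fun i => by have := i.2; have := h0 c hc; omega⟩
    rw [Matrix.det_isEmpty]
    exact one_ne_zero
  · exact (Gd.res hG h ⟨by rw [h.1]; exact h1, by rw [h.1]; omega, hc⟩).1

theorem Gd.blkD (hG : G.Ok) (h : G.All (chkA G))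
    (hM : ∀ b y, ∃ z, Mat G.V (G.Am.J b y) G.K n (G.Dt b y) z)
    (hn : ∀ b < G.Am.b0 + G.Am.nq, ∀ y < 2, G.Am.J b y ≤ n)
    (hδ : 2 ^ (G.eD + 1) / 2 ^ (2 * G.P.s + 1) ≤ δ) : Blks G.V G.K G.sD G.Am G.Am G.Dt
      (fun d d' => (mD (G.n + 1) (mdD G.Am.J (xi0 G.Md) d).gr (mdD G.Am.J (xi0 G.Md) d').gr
        + mD (G.n + 1) (mdD G.Am.J (xi0 G.Md) d').gr (mdD G.Am.J (xi0 G.Md) d).gr) / 2) δ :=
  ⟨fun b y hb => (hM b y).elim fun z hz => ⟨n, z, hz, hn b hb.2.1 y hb.2.2, fun m hm m' hm' =>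
    ((Gd.res hG h hb).2.1 n z hz (hn b hb.2.1 y hb.2.2) m hm m' hm').trans hδ⟩,
    offD h.1.ge _ _⟩

theorem Gd.blkK (hG : G.Ok) (h : G.All (chkA G))
    (hM : ∀ b y, ∃ z, Mat G.V (G.Am.J b y) G.K n (G.KL b y) z)
    (hn : ∀ b < G.Ah.b0 + G.Ah.nq, ∀ y < 2, G.Ah.J b y ≤ n)
    (hA : 1 ≤ G.Ah.b0 ∧ G.Ah.b0 + G.Ah.nq ≤ 1 + G.Am.nq)
    (hJ : ∀ b < G.Am.b0 + G.Am.nq, ∀ c < 2, G.n + 1 + c + 1 ≤ G.Am.J b c + 2 * b ∨ b < G.Am.b0)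
    (ht : ∀ d, In G.Ah d → Test (3 / 4) (G.n + 1) (th0 G.Th d))
    (hδ : 2 ^ (G.eK + 1) / 2 ^ (2 * G.P.s) ≤ δ) : Blks G.V G.K G.sK G.Ah G.Am G.KL
      (fun d d' => 1 / 64 * ip (LamV (curl (uD (xi0 G.Md) d'))) (th0 G.Th d)) δ := by
  refine ⟨fun b y hb => (hM b y).elim fun z hz => ⟨n, z, hz, hn b hb.2.1 y hb.2.2,
    fun m hm m' hm' => ?_⟩, offK (Nat.le_add_left 1 _) ⟨hA.1, h.1.ge⟩ hJ ht _⟩
  have h0 := h.1
  have ⟨h1, h2, h3⟩ := hb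
  classical
  have e : jz G.Ah b y = G.Ah.J b y := by rw [jz_eq h3, if_pos hb]
  beta_reduce
  rw [lam_md (J := G.Am.J) (d := (b, y, m')) (Nat.le_add_left 1 _) (by simp only; omega)
    ((hJ b (by omega) y h3).resolve_right (by omega)) (ht (b, y, m) ⟨hb, hm⟩) (sym_th _)]
  exact ((Gd.res hG h ⟨by omega, by omega, h3⟩).2.2 n z hz (e ▸ hn b h2 y h3) m (e ▸ hm) m'
    hm').trans hδ

end Pool.Agent.Work.MP_6bf1e5_an.H.Bk
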