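import Pool.Agent.Work.MP_6bf1e5_an.H.CertMat

/-! Operator norm bounds for matrices. -/

namespace Pool.Agent.Work.MP_6bf1e5_an.H.Ca

open Finset

variable {ι β I : Type} [Fintype ι] [Fintype β] [Fintype I] {A B : I → ι → ℝ} {a b : ℝ}

/-- The operator norm of `A` is at most `a`. -/
def Nm (A : I → ι → ℝ) (a : ℝ) : Prop :=
  0 ≤ a ∧ ∀ c : ι → ℝ, ∑ i, (∑ j, A i j * c j) ^ 2 ≤ a ^ 2 * ∑ j, c j ^ 2

theorem sq_nn (c : ι → ℝ) : 0 ≤ ∑ j, c j ^ 2 := sum_nonneg fun _ _ => sq_nonneg _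

theorem Nm.mono (h : Nm A a) (e : a ≤ b) : Nm A b :=
  ⟨h.1.trans e, fun c => (h.2 c).trans
    (mul_le_mul_of_nonneg_right (pow_le_pow_left₀ h.1 e 2) (sq_nn c))⟩

theorem Nm.congr (h : Nm A a) (e : ∀ i j, B i j = A i j) : Nm B a := by
  rw [show B = A from funext fun i => funext (e i)]
  exact h

theorem Nm.of_frob (ha : 0 ≤ a) (h : ∑ i, ∑ j, A i j ^ 2 ≤ a ^ 2) : Nm A a :=
  ⟨ha, fun c => (frob A c).trans (mul_le_mul_of_nonneg_right h (sq_nn c))⟩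

theorem Nm.of_ent {η : ℝ} (ha : 0 ≤ a) (h : ∀ i j, |A i j| ≤ η)
    (e : Fintype.card I * (Fintype.card ι * η ^ 2) ≤ a ^ 2) : Nm A a :=
  Nm.of_frob ha ((frob_le h).trans e)

theorem dot_le {x y : I → ℝ} {p : ℝ} (ha : 0 ≤ a) (hb : 0 ≤ b) (hp : 0 ≤ p)
    (hx : ∑ i, x i ^ 2 ≤ a ^ 2 * p) (hy : ∑ i, y i ^ 2 ≤ b ^ 2 * p) :
    |∑ i, x i * y i| ≤ a * b * p := by
  refine abs_le_of_sq_le_sq ((sum_mul_sq_le_sq_mul_sq univ x y).trans ?_) (by positivity)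
  exact (mul_le_mul hx hy (sq_nn y) (by positivity)).trans (le_of_eq (by ring))

theorem Nm.bil (h : Nm A a) (h' : Nm B b) (c : ι → ℝ) :
    |∑ i, (∑ j, A i j * c j) * ∑ j, B i j * c j| ≤ a * b * ∑ j, c j ^ 2 :=
  dot_le h.1 h'.1 (sq_nn c) (h.2 c) (h'.2 c)

theorem Nm.add (h : Nm A a) (h' : Nm B b) : Nm (fun i j => A i j + B i j) (a + b) := by
  refine ⟨add_nonneg h.1 h'.1, fun c => ?_⟩
  have k := le_of_abs_le (h.bil h' c)
  simp only [add_mul, sum_add_distrib, add_sq, mul_assoc (2 : ℝ), ← mul_sum _ _ (2 : ℝ)]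
  linarith [h.2 c, h'.2 c]

theorem Nm.smul (h : Nm A a) (r : ℝ) : Nm (fun i j => r * A i j) (|r| * a) := by
  refine ⟨mul_nonneg (abs_nonneg r) h.1, fun c => ?_⟩
  simp only [mul_assoc r, ← mul_sum, mul_pow, sq_abs, mul_assoc (r ^ 2)]
  exact mul_le_mul_of_nonneg_left (h.2 c) (sq_nonneg r)

theorem Nm.neg (h : Nm A a) : Nm (fun i j => -A i j) a := by
  simpa only [neg_one_mul, abs_neg, abs_one, one_mul] using h.smul (-1)

theorem Nm.sub (h : Nm A a) (h' : Nm B b) : Nm (fun i j => A i j - B i j) (a + b) := by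
  simpa only [sub_eq_add_neg] using h.add h'.neg

theorem mul_vec (f : I → ℝ) (A : I → ι → ℝ) (c : ι → ℝ) :
    ∑ j, (∑ i, f i * A i j) * c j = ∑ i, f i * ∑ j, A i j * c j := by
  simp only [sum_mul, mul_sum, mul_assoc]
  exact sum_comm

theorem Nm.mul {F : β → I → ℝ} {f : ℝ} (h : Nm F f) (h' : Nm A a) :
    Nm (fun r j => ∑ i, F r i * A i j) (f * a) := by
  refine ⟨mul_nonneg h.1 h'.1, fun c => ?_⟩
  simp only [mul_vec]
  refine (h.2 _).trans ?_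
  rw [mul_pow, mul_assoc]
  exact mul_le_mul_of_nonneg_left (h'.2 c) (sq_nonneg f)

theorem Nm.tr (h : Nm A a) : Nm (fun j i => A i j) a := by
  refine ⟨h.1, fun x => ?_⟩
  set y : ι → ℝ := fun j => ∑ i, A i j * x i with hy
  have e : ∑ j, y j ^ 2 = ∑ i, (∑ j, A i j * y j) * x i := by
    simp only [sq, sum_mul]
    rw [sum_comm]
    refine sum_congr rfl fun j _ => ?_
    conv_lhs => rw [hy]
    simp only [sum_mul]
    exact sum_congr rfl fun i _ => by ring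
  have k := sum_mul_sq_le_sq_mul_sq univ (fun i => ∑ j, A i j * y j) x
  rw [← e] at k
  have k2 := k.trans (mul_le_mul_of_nonneg_right (h.2 y) (sq_nn x))
  rcases (sq_nn y).eq_or_lt with h0 | h0
  · rw [← h0]
    exact mul_nonneg (sq_nonneg a) (sq_nn x)
  · exact le_of_mul_le_mul_left (by linarith) h0

theorem Nm.inl {B : β → ι → ℝ} (h : Nm (Sum.elim A B) a) : Nm A a := by
  refine ⟨h.1, fun c => le_trans ?_ (h.2 c)⟩
  simp only [Fintype.sum_sum_type, Sum.elim_inl, Sum.elim_inr]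
  exact le_add_of_nonneg_right (sq_nn _)

theorem Nm.elim {B : β → ι → ℝ} {r : ℝ} (h : Nm A a) (h' : Nm B b) (hr : 0 ≤ r)
    (e : a ^ 2 + b ^ 2 ≤ r ^ 2) : Nm (Sum.elim A B) r := by
  refine ⟨hr, fun c => ?_⟩
  simp only [Fintype.sum_sum_type, Sum.elim_inl, Sum.elim_inr]
  linarith [h.2 c, h'.2 c, mul_le_mul_of_nonneg_right e (sq_nn c)]

/-- The Schur test. -/
theorem Nm.of_rc {p q : ℝ} (ha : 0 ≤ a) (h : ∀ i, ∑ j, |A i j| ≤ p) (h' : ∀ j, ∑ i, |A i j| ≤ q)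
    (hp : 0 ≤ p) (e : p * q ≤ a ^ 2) : Nm A a := by
  refine ⟨ha, fun c => ?_⟩
  have k : ∀ i, (∑ j, A i j * c j) ^ 2 ≤ p * ∑ j, |A i j| * c j ^ 2 := fun i =>
    (sum_sq_le_sum_mul_sum_of_sq_le_mul univ (fun j _ => abs_nonneg (A i j))
      (fun j _ => mul_nonneg (abs_nonneg (A i j)) (sq_nonneg (c j))) fun j _ => le_of_eq (by
        rw [← mul_assoc, abs_mul_abs_self]
        ring)).trans (mul_le_mul_of_nonneg_right (h i)
          (sum_nonneg fun j _ => mul_nonneg (abs_nonneg _) (sq_nonneg _)))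
  refine (sum_le_sum fun i _ => k i).trans
    (le_trans ?_ (mul_le_mul_of_nonneg_right e (sq_nn c)))
  rw [← mul_sum, sum_comm, mul_assoc, mul_sum _ _ q]
  refine mul_le_mul_of_nonneg_left (sum_le_sum fun j _ => ?_) hp
  rw [← sum_mul]
  exact mul_le_mul_of_nonneg_right (h' j) (sq_nonneg _)

theorem Nm.form {E : ι → ι → ℝ} (h : Nm E a) (c : ι → ℝ) :
    |∑ j, ∑ k, E j k * (c j * c k)| ≤ a * ∑ j, c j ^ 2 := by
  have k := dot_le h.1 zero_le_one (sq_nn c) (h.2 c) (y := c) (by simp)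
  rw [mul_one] at k
  refine le_trans (le_of_eq (congrArg _ (sum_congr rfl fun j _ => ?_))) k
  rw [sum_mul]
  exact sum_congr rfl fun k _ => by ring

theorem Low.sum {Φ : ℝ → ℝ → ℝ} {al be ga e1 e2 d1 d2 : ℝ} (h : Low Φ al be ga e1 e2)
    (h1 : 0 ≤ e1) (h2 : 0 ≤ e2) {At Bt : I → ι → ℝ} (hA : Nm (fun i j => A i j - At i j) d1)
    (hB : Nm (fun i j => B i j - Bt i j) d2) (c : ι → ℝ) :
    ∑ i, (al * (∑ j, At i j * c j) ^ 2 + 2 * be * ((∑ j, At i j * c j) * ∑ j, Bt i j * c j)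
      + ga * (∑ j, Bt i j * c j) ^ 2) - (e1 * d1 ^ 2 + e2 * d2 ^ 2) * ∑ j, c j ^ 2 ≤
      ∑ i, Φ (∑ j, A i j * c j) (∑ j, B i j * c j) := by
  have k := sum_le_sum (s := univ) fun i _ => h (∑ j, At i j * c j) (∑ j, Bt i j * c j)
    (∑ j, A i j * c j - ∑ j, At i j * c j) (∑ j, B i j * c j - ∑ j, Bt i j * c j)
  have m1 := mul_le_mul_of_nonneg_left (hA.2 c) h1
  have m2 := mul_le_mul_of_nonneg_left (hB.2 c) h2
  simp only [sub_mul, sum_sub_distrib] at m1 m2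
  simp only [add_sub_cancel, sum_sub_distrib, ← mul_sum] at k
  linarith

end Pool.Agent.Work.MP_6bf1e5_an.H.Ca
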