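import Pool.Agent.Work.MP_6bf1e5_an.H.DynCalc

/-!
Static facts on the class Hinf.
Hints. ibp: integral_mul_fderiv_eq_neg_fderiv_mul_of_integrable (or the bilinear HasLineDerivAt version).
int_act: act M is a linear isometry equivalence of R3 (Matrix.toEuclideanCLM or LinearIsometryEquiv), hence
measure preserving. hinf_act, hinf_scale: induction on the list from the right (List.reverseRecOn,
pds_append, pd_act, pds_sum, pds_cmul), generalising f. lam_sq_le: parseval with RepH.Dp for s = 3/2 and s = 2,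
Dp_two and t ^ 3 ≤ 1 + t ^ 4.
-/

open scoped ContDiff ENNReal FourierTransform Real
open Set MeasureTheory

namespace Pool.Agent.Work.MP_6bf1e5_an.H.Dyn

variable {f g : Sc} {V : Vc}

theorem hinf_add (hf : Hinf f) (hg : Hinf g) : Hinf fun y => f y + g y := by
  exact hf.add hg

theorem hinf_cmul (hf : Hinf f) (c : ℝ) : Hinf fun y => c * f y := by
  exact ⟨contDiff_const.mul hf.1, fun l => by rw [pds_cmul hf.1]; exact (hf.2 l).const_mul c⟩

theorem hinf_sub (hf : Hinf f) (hg : Hinf g) : Hinf fun y => f y - g y := by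
  have := hinf_add hf (hinf_cmul hg (-1))
  simpa only [neg_mul, one_mul, ← sub_eq_add_neg] using this

theorem hinf_mul (hf : Hinf f) (hg : Hinf g) : Hinf fun y => f y * g y := by
  exact hf.mul hg

theorem hinf_sum {ι : Type} (t : Finset ι) {F : ι → Sc} (hF : ∀ i ∈ t, Hinf (F i)) :
    Hinf fun y => ∑ i ∈ t, F i y := by
  refine ⟨ContDiff.sum fun i hi => (hF i hi).1, fun l => ?_⟩
  rw [pds_sum t fun i hi => (hF i hi).1]
  exact memLp_finsetSum t fun i hi => (hF i hi).2 l

theorem hinf_pds (hf : Hinf f) (l : List (Fin 3)) : Hinf (pds l f) := by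
  refine ⟨pds_smooth hf.1 l, fun l' => ?_⟩
  have : pds l' (pds l f) = pds (l' ++ l) f := by simp [pds, List.foldr_append]
  rw [this]
  exact hf.2 _

theorem hinf_curl (hV : ∀ i, Hinf (V i)) (i : Fin 3) : Hinf (curl V i) := by
  exact hinf_sub ((hV _).pd _) ((hV _).pd _)

theorem hinf_lam (hf : Hinf f) : Hinf (Lam f) := by
  exact hf.Dp (by norm_num)

theorem hinf_GG (ν : ℝ) (hV : ∀ i, Hinf (V i)) (i : Fin 3) : Hinf (GG ν V i) := by
  refine hinf_sub (hinf_curl (fun k => ?_) i) (hinf_cmul (hinf_lam (hinf_curl hV i)) ν)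
  exact hinf_sub (hinf_mul (hV _) (hinf_curl hV _)) (hinf_mul (hV _) (hinf_curl hV _))

theorem int_mul (hf : Hinf f) (hg : Hinf g) : Integrable fun y => f y * g y := by
  exact MemLp.integrable_mul (hf.2 []) (hg.2 [])

theorem int_sq (hf : Hinf f) : Integrable fun y => f y ^ 2 := by
  exact (hf.2 []).integrable_sq

theorem int_wmul {w : Sc} (hw : Continuous w) {C : ℝ} (hC : ∀ y, |w y| ≤ C) (hf : Hinf f)
    (hg : Hinf g) : Integrable fun y => w y * (f y * g y) := by
  exact (int_mul hf hg).bdd_mul hw.aestronglyMeasurable (Filter.Eventually.of_forall hC)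

theorem ibp (hf : Hinf f) (hg : Hinf g) (j : Fin 3) :
    ∫ y, pd j f y * g y = -∫ y, f y * pd j g y := by
  have h := integral_mul_fderiv_eq_neg_fderiv_mul_of_integrable (μ := volume) (f := f) (g := g)
    (v := EuclideanSpace.single j 1) (int_mul (hf.pd j) hg) (int_mul hf (hg.pd j)) (int_mul hf hg)
    (fun x _ => hf.1.differentiable (by simp) x) (fun x _ => hg.1.differentiable (by simp) x)
  simp only [pd]
  rw [h, neg_neg]

theorem null_form (hV : ∀ i, Hinf (V i)) (hd : ∀ y, dvg V y = 0) (hf : Hinf f) :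
    ∫ y, ∑ j, V j y * pd j f y * f y = 0 := by
  have i1 : ∀ j, Integrable fun y => V j y * pd j f y * f y := fun j =>
    int_mul (hinf_mul (hV j) (hf.pd j)) hf
  have i2 : ∀ j, Integrable fun y => pd j (V j) y * f y * f y := fun j =>
    int_mul (hinf_mul ((hV j).pd j) hf) hf
  have h1 : ∀ j, 2 * ∫ y, V j y * pd j f y * f y = -∫ y, pd j (V j) y * f y * f y := by
    intro j
    have h := ibp (hinf_mul (hV j) hf) hf j
    rw [pd_mul (hV j).1 hf.1] at h
    simp only [add_mul] at h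
    rw [integral_add (i2 j) (i1 j)] at h
    have e : ∫ y, V j y * f y * pd j f y = ∫ y, V j y * pd j f y * f y :=
      integral_congr_ae (Filter.Eventually.of_forall fun y => by ring)
    linarith
  have h2 : ∑ j, ∫ y, pd j (V j) y * f y * f y = 0 := by
    rw [← integral_finsetSum _ fun j _ => i2 j]
    simp only [← Finset.sum_mul]
    have : ∀ y, ∑ j, pd j (V j) y = 0 := hd
    simp [this]
  rw [integral_finsetSum _ fun j _ => i1 j]
  have h3 := Finset.sum_congr (s₁ := Finset.univ) rfl fun j _ => h1 j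
  rw [← Finset.mul_sum, Finset.sum_neg_distrib, h2] at h3
  linarith

theorem nw_one (hV : ∀ i, Hinf (V i)) : nw 1 V = ∑ i, ∫ y, V i y ^ 2 := by
  rw [← integral_finsetSum _ fun i _ => int_sq (hV i)]
  simp only [nw, dot, Pi.one_apply, one_mul, sq]

theorem gw_one (hV : ∀ i, Hinf (V i)) : gw 1 V = ∑ i, ∑ j, ∫ y, pd j (V i) y ^ 2 := by
  simp only [gw, Pi.one_apply, one_mul]
  rw [integral_finsetSum _ fun i _ => integrable_finsetSum _ fun j _ => int_sq ((hV i).pd j)]
  exact Finset.sum_congr rfl fun i _ => integral_finsetSum _ fun j _ => int_sq ((hV i).pd j)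

theorem ip_eq {W : Vc} (hV : ∀ i, Hinf (V i)) (hW : ∀ i, Hinf (W i)) :
    ip V W = ∑ i, ∫ y, V i y * W i y := by
  rw [← integral_finsetSum _ fun i _ => int_mul (hV i) (hW i)]
  rfl

theorem DynHinf_iso {M : Matrix (Fin 3) (Fin 3) ℝ} (hM : M.transpose * M = 1) :
    ∃ e : R3 ≃ₗᵢ[ℝ] R3, ∀ y, e y = act M y := by
  let T : R3 →ₗ[ℝ] R3 :=
    { toFun := act M
      map_add' := fun x y => by
        ext i
        simp [act, mul_add, Finset.sum_add_distrib]
      map_smul' := fun c x => act_smul M c x }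
  have hT : ∀ x y, inner ℝ (T x) (T y) = inner ℝ x y := by
    intro x y
    have h : ∀ i j, ∑ k, M k i * M k j = if i = j then 1 else 0 := fun i j => by
      have := congrFun (congrFun hM i) j
      simpa [Matrix.mul_apply, Matrix.one_apply] using this
    have h00 := h 0 0
    have h01 := h 0 1
    have h02 := h 0 2
    have h11 := h 1 1
    have h12 := h 1 2
    have h22 := h 2 2
    simp only [Fin.sum_univ_three] at h00 h01 h02 h11 h12 h22
    simp at h00 h01 h02 h11 h12 h22
    simp only [T, act, LinearMap.coe_mk, AddHom.coe_mk, PiLp.inner_apply, Fin.sum_univ_three,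
      RCLike.inner_apply, conj_trivial]
    linear_combination (x 0 * y 0) * h00 + (x 0 * y 1 + x 1 * y 0) * h01 +
      (x 0 * y 2 + x 2 * y 0) * h02 + (x 1 * y 1) * h11 + (x 1 * y 2 + x 2 * y 1) * h12 +
      (x 2 * y 2) * h22
  exact ⟨(T.isometryOfInner hT).toLinearIsometryEquiv rfl, fun y => rfl⟩

theorem int_act {M : Matrix (Fin 3) (Fin 3) ℝ} (hM : M.transpose * M = 1) (f : Sc) :
    ∫ y, f (act M y) = ∫ y, f y := by
  obtain ⟨e, he⟩ := DynHinf_iso hM
  simp only [← he]
  exact e.measurePreserving.integral_comp e.toHomeomorph.measurableEmbedding f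

theorem hinf_act {M : Matrix (Fin 3) (Fin 3) ℝ} (hM : M.transpose * M = 1) (hf : Hinf f) :
    Hinf fun y => f (act M y) := by
  obtain ⟨e, he⟩ := DynHinf_iso hM
  refine ⟨hf.1.comp (act_smooth M), fun l => ?_⟩
  induction l using List.reverseRecOn generalizing f with
  | nil =>
    simp only [← he]
    exact (hf.2 []).comp_measurePreserving e.measurePreserving
  | append_singleton l j ih =>
    have hs : ∀ k, ContDiff ℝ ∞ fun y => pd k f (act M y) := fun k =>
      (hf.pd k).1.comp (act_smooth M)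
    rw [pds_append, pd_act hf.1, pds_sum _ fun k _ => contDiff_const.mul (hs k)]
    refine memLp_finsetSum _ fun k _ => ?_
    rw [pds_cmul (hs k)]
    exact (ih (hf.pd k)).const_mul _

theorem pds_scale (hf : ContDiff ℝ ∞ f) (c : ℝ) (l : List (Fin 3)) :
    pds l (fun y => f (c • y)) = fun y => c ^ l.length * pds l f (c • y) := by
  induction l with
  | nil => simp [pds]
  | cons j l ih =>
    have e : ∀ g : Sc, pds (j :: l) g = pd j (pds l g) := fun _ => rfl
    have hs : ContDiff ℝ ∞ fun y => pds l f (c • y) :=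
      (pds_smooth hf l).comp (contDiff_const_smul c)
    rw [e, e, ih, pd_cmul hs, pd_scale (pds_smooth hf l)]
    funext y
    rw [List.length_cons]
    ring

theorem int_scale (f : Sc) {c : ℝ} (hc : 0 < c) : ∫ y, f (c • y) = (c ^ 3)⁻¹ * ∫ y, f y := by
  rw [Measure.integral_comp_smul, abs_of_pos (by positivity)]
  simp

theorem hinf_scale (hf : Hinf f) {c : ℝ} (hc : 0 < c) : Hinf fun y => f (c • y) := by
  refine ⟨hf.1.comp (contDiff_const_smul c), fun l => ?_⟩
  rw [pds_scale hf.1]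
  refine MemLp.const_mul ?_ _
  exact (memLp_two_iff_integrable_sq
    ((pds_smooth hf.1 l).continuous.comp (continuous_const_smul c)).aestronglyMeasurable).2
    ((hf.2 l).integrable_sq.comp_smul hc.ne')

theorem pds_lam (hf : Hinf f) (l : List (Fin 3)) : pds l (Lam f) = Lam (pds l f) := by
  induction l with
  | nil => rfl
  | cons j l ih =>
    have e : ∀ g : Sc, pds (j :: l) g = pd j (pds l g) := fun _ => rfl
    rw [e, e, ih]
    exact pd_Dp (hinf_pds hf l).inA (by norm_num) j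

theorem lam_sub (hf : Hinf f) (hg : Hinf g) :
    Lam (fun y => f y - g y) = fun y => Lam f y - Lam g y := by
  have h1 := Dp_add (s := 3 / 2) hf.inA (hinf_cmul hg (-1)).inA (by norm_num)
  rw [Dp_smul hg.inA (by norm_num)] at h1
  have e : (fun y => f y - g y) = f + fun y => -1 * g y := by
    funext y
    simp [sub_eq_add_neg]
  rw [e, Lam, h1]
  funext y
  simp [sub_eq_add_neg, Lam]

theorem curl_lam (hV : ∀ i, Hinf (V i)) (i : Fin 3) : curl (LamV V) i = Lam (curl V i) := by
  have h := lam_sub ((hV (i + 2)).pd (i + 1)) ((hV (i + 1)).pd (i + 2))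
  have h1 : ∀ j k, pd j (Lam (V k)) = Lam (pd j (V k)) := fun j k => pds_lam (hV k) [j]
  funext y
  exact (congrArg₂ (· - ·) (congrFun (h1 _ _) y) (congrFun (h1 _ _) y)).trans (congrFun h y).symm

theorem DynHinf_pars {F : R3 → ℂ} (h : RepH f F) :
    Integrable (fun ξ => ‖F ξ‖ ^ 2) ∧ ∫ y, f y ^ 2 = ∫ ξ, ‖F ξ‖ ^ 2 := by
  have hF : MemLp F 2 volume := by simpa using h.2 0
  refine ⟨(memLp_two_iff_integrable_sq_norm hF.1).1 hF, ?_⟩
  have h1 := (parseval h.1 h.1 hF hF).2
  simp only [Complex.mul_conj, integral_complex_ofReal, Complex.ofReal_re, Complex.normSq_eq_norm_sq]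
    at h1
  simpa only [sq] using h1

theorem DynHinf_lap (hf : Hinf f) : ∫ y, lap f y ^ 2 ≤ 3 * ∑ j, ∫ y, pd j (pd j f) y ^ 2 := by
  have i1 : ∀ j, Integrable fun y => pd j (pd j f) y ^ 2 := fun j => int_sq ((hf.pd j).pd j)
  rw [← integral_finsetSum _ fun j _ => i1 j, ← integral_const_mul]
  refine integral_mono (int_sq (hinf_sum _ fun j _ => (hf.pd j).pd j))
    ((integrable_finsetSum _ fun j _ => i1 j).const_mul 3) fun y => ?_
  simp only [lap, Fin.sum_univ_three]
  nlinarith [sq_nonneg (pd 0 (pd 0 f) y - pd 1 (pd 1 f) y),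
    sq_nonneg (pd 0 (pd 0 f) y - pd 2 (pd 2 f) y), sq_nonneg (pd 1 (pd 1 f) y - pd 2 (pd 2 f) y)]

theorem lam_sq_le (hf : Hinf f) :
    ∫ y, Lam f y ^ 2 ≤ (∫ y, f y ^ 2) + 3 * ∑ j, ∫ y, pd j (pd j f) y ^ 2 := by
  obtain ⟨F, hF⟩ := hf.exists_rep
  obtain ⟨i0, e0⟩ := DynHinf_pars hF
  obtain ⟨i1, e1⟩ := DynHinf_pars (hF.Dp (s := 3 / 2) (by norm_num))
  obtain ⟨i2, e2⟩ := DynHinf_pars (hF.Dp (s := 2) (by norm_num))
  rw [Dp_two hf.inA] at e2
  simp only [neg_sq] at e2
  refine le_trans ?_ (add_le_add_right (DynHinf_lap hf) _)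
  rw [Lam, e0, e1, e2, ← integral_add i0 i2]
  refine integral_mono i1 (i0.add i2) fun ξ => ?_
  have ht : 0 ≤ 2 * π * ‖ξ‖ := by positivity
  simp only [sy, norm_mul, Complex.norm_real, Real.norm_eq_abs, mul_pow, sq_abs]
  generalize 2 * π * ‖ξ‖ = t at ht
  have a1 : (t ^ (3 / 2 : ℝ)) ^ 2 = t ^ 3 := by
    rw [← Real.rpow_natCast, ← Real.rpow_mul ht]
    norm_num
  have a2 : (t ^ (2 : ℝ)) ^ 2 = t ^ 4 := by
    rw [Real.rpow_two]
    ring
  have a3 : t ^ 3 ≤ 1 + t ^ 4 := by
    rcases le_total t 1 with h | h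
    · have := pow_le_one₀ (n := 3) ht h
      have := pow_nonneg ht 4
      linarith
    · have := pow_le_pow_right₀ h (show 3 ≤ 4 by norm_num)
      linarith
  rw [a1, a2]
  nlinarith [sq_nonneg ‖F ξ‖]

theorem sup_sq_le (hf : Hinf f) (x : R3) :
    f x ^ 2 ≤ 2 / 19 * ((∑ j, ∫ y, pd j f y ^ 2) + 3 * ∑ j, ∫ y, pd j (pd j f) y ^ 2) := by
  have h := sup_bound2 hf one_pos x
  have h2 := DynHinf_lap hf
  rw [one_mul, div_one] at h
  linarith

theorem DynHinf_pds_yd (hf : ContDiff ℝ ∞ f) (l : List (Fin 3)) :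
    pds l (yd f) = fun y => (l.length : ℝ) * pds l f y + yd (pds l f) y := by
  induction l with
  | nil => simp [pds]
  | cons j l ih =>
    have e : ∀ g : Sc, pds (j :: l) g = pd j (pds l g) := fun _ => rfl
    have hs := pds_smooth hf l
    rw [e, e, ih, pd_add (contDiff_const.mul hs) (yd_smooth hs), pd_cmul hs, pd_yd hs]
    funext y
    rw [List.length_cons]
    push_cast
    ring

theorem sym_yd {m : ℝ} (hf : Sym m f) : Sym m (yd f) := by
  refine ⟨yd_smooth hf.1, fun l => ?_⟩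
  obtain ⟨C, hC⟩ := hf.2 l
  choose D hD using fun j : Fin 3 => hf.2 (j :: l)
  refine ⟨l.length * C + ∑ j, D j, fun y => ?_⟩
  rw [DynHinf_pds_yd hf.1]
  have hp : 0 < 1 + ‖y‖ := by positivity
  have h1 : ∀ j, |y j * pd j (pds l f) y| ≤ D j * (1 + ‖y‖) ^ (m - l.length) := by
    intro j
    have h2 := hD j y
    have h3 : |y j| ≤ 1 + ‖y‖ := (PiLp.norm_apply_le y j).trans (by linarith)
    have h4 : (1 + ‖y‖) ^ (m - l.length) =
        (1 + ‖y‖) * (1 + ‖y‖) ^ (m - ((j :: l).length : ℕ)) := by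
      rw [List.length_cons, mul_comm, ← Real.rpow_add_one hp.ne']
      congr 1
      push_cast
      ring
    rw [abs_mul, h4, mul_left_comm]
    exact mul_le_mul h3 h2 (abs_nonneg _) hp.le
  refine (abs_add_le _ _).trans ?_
  rw [add_mul, Finset.sum_mul, abs_mul, Nat.abs_cast, mul_assoc]
  exact add_le_add (mul_le_mul_of_nonneg_left (hC y) (Nat.cast_nonneg _))
    ((Finset.abs_sum_le_sum_abs _ _).trans (Finset.sum_le_sum fun j _ => h1 j))

end Pool.Agent.Work.MP_6bf1e5_an.H.Dyn
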