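import Pool.Agent.Work.MP_6bf1e5_an.H.ResHom
import Pool.Agent.Work.MP_6bf1e5_an.H.DynHinf

/-! Families of symbols that are uniform in the cut-off radius, and their tails. -/

open scoped ContDiff ENNReal FourierTransform Real
open Set MeasureTheory Filter Topology

namespace Pool.Agent.Work.MP_6bf1e5_an.H

/-- Symbols of order `m`, uniformly in the parameter `A ≥ 1`. -/
def SymU (m : ℝ) (f : ℝ → Sc) : Prop :=
  (∀ A, 1 ≤ A → ContDiff ℝ ∞ (f A)) ∧ ∀ l : List (Fin 3), ∃ C, ∀ A, 1 ≤ A → ∀ y,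
    |pds l (f A) y| ≤ C * (1 + ‖y‖) ^ (m - l.length)

variable {m m' : ℝ} {f g : ℝ → Sc}

theorem Sym.symU {h : Sc} (hh : Sym m h) : SymU m fun _ => h :=
  ⟨fun _ _ => hh.1, fun l => (hh.2 l).imp fun _ hC _ _ => hC⟩

theorem SymU.sym (h : SymU m f) {A : ℝ} (hA : 1 ≤ A) : Sym m (f A) :=
  ⟨h.1 A hA, fun l => (h.2 l).imp fun _ hC => hC A hA⟩

theorem SymU.mono (h : SymU m f) (hm : m ≤ m') : SymU m' f := by
  refine ⟨h.1, fun l => ?_⟩
  obtain ⟨C, hC⟩ := h.2 l
  refine ⟨|C|, fun A hA y => (hC A hA y).trans ?_⟩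
  have h1 : (1 : ℝ) ≤ 1 + ‖y‖ := by linarith [norm_nonneg y]
  exact mul_le_mul (le_abs_self C) (Real.rpow_le_rpow_of_exponent_le h1 (by linarith))
    (by positivity) (abs_nonneg C)

theorem SymU.add (h : SymU m f) (h' : SymU m g) : SymU m fun A y => f A y + g A y := by
  refine ⟨fun A hA => (h.1 A hA).add (h'.1 A hA), fun l => ?_⟩
  obtain ⟨C, hC⟩ := h.2 l
  obtain ⟨C', hC'⟩ := h'.2 l
  refine ⟨C + C', fun A hA y => ?_⟩
  rw [Dyn.pds_add (h.1 A hA) (h'.1 A hA), add_mul]
  exact (abs_add_le _ _).trans (add_le_add (hC A hA y) (hC' A hA y))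

theorem SymU.cmul (h : SymU m f) (c : ℝ) : SymU m fun A y => c * f A y := by
  refine ⟨fun A hA => contDiff_const.mul (h.1 A hA), fun l => ?_⟩
  obtain ⟨C, hC⟩ := h.2 l
  refine ⟨|c| * C, fun A hA y => ?_⟩
  rw [Dyn.pds_cmul (h.1 A hA), abs_mul, mul_assoc]
  exact mul_le_mul_of_nonneg_left (hC A hA y) (abs_nonneg c)

theorem SymU.sub (h : SymU m f) (h' : SymU m g) : SymU m fun A y => f A y - g A y := by
  have := h.add (h'.cmul (-1))
  simpa only [neg_mul, one_mul, ← sub_eq_add_neg] using this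

theorem SymU.pd (h : SymU m f) (j : Fin 3) : SymU (m - 1) fun A => pd j (f A) := by
  refine ⟨fun A hA => Dyn.pd_smooth (h.1 A hA) j, fun l => ?_⟩
  obtain ⟨C, hC⟩ := h.2 (l ++ [j])
  refine ⟨C, fun A hA y => ?_⟩
  have := hC A hA y
  rw [Dyn.pds_append, List.length_append, List.length_singleton] at this
  convert this using 3
  push_cast; ring

theorem SymU.mul (h : SymU m f) (h' : SymU m' g) : SymU (m + m') fun A y => f A y * g A y := by
  refine ⟨fun A hA => (h.1 A hA).mul (h'.1 A hA), fun l => ?_⟩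
  induction l using List.reverseRecOn generalizing m m' f g with
  | nil =>
    obtain ⟨C, hC⟩ := h.2 []
    obtain ⟨C', hC'⟩ := h'.2 []
    refine ⟨C * C', fun A hA y => ?_⟩
    have h1 := hC A hA y
    have h2 := hC' A hA y
    simp only [pds, List.foldr_nil, List.length_nil, Nat.cast_zero, sub_zero] at h1 h2 ⊢
    rw [abs_mul, Real.rpow_add (by positivity), mul_mul_mul_comm]
    exact mul_le_mul h1 h2 (abs_nonneg _) ((abs_nonneg _).trans h1)
  | append_singleton l j ih =>
    obtain ⟨C, hC⟩ := ih (h.pd j) h'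
    obtain ⟨C', hC'⟩ := ih h (h'.pd j)
    refine ⟨C + C', fun A hA y => ?_⟩
    have h1 := hC A hA y
    have h2 := hC' A hA y
    rw [Dyn.pds_append, Dyn.pd_mul (h.1 A hA) (h'.1 A hA),
      Dyn.pds_add ((Dyn.pd_smooth (h.1 A hA) j).mul (h'.1 A hA))
        ((h.1 A hA).mul (Dyn.pd_smooth (h'.1 A hA) j)), add_mul]
    have e1 : m - 1 + m' - (l.length : ℝ) = m + m' - ((l ++ [j]).length : ℕ) := by
      rw [List.length_append, List.length_singleton]; push_cast; ring
    have e2 : m + (m' - 1) - (l.length : ℝ) = m + m' - ((l ++ [j]).length : ℕ) := by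
      rw [List.length_append, List.length_singleton]; push_cast; ring
    rw [e1] at h1
    rw [e2] at h2
    exact (abs_add_le _ _).trans (add_le_add h1 h2)

theorem SymU.yd (h : SymU m f) : SymU m fun A => yd (f A) := by
  have h1 : ∀ j : Fin 3, SymU m fun A y => y j * H.pd j (f A) y := fun j => by
    have := (hom_coord j).sym.symU.mul (h.pd j)
    rwa [show ((1 : ℕ) : ℝ) + (m - 1) = m by push_cast; ring] at this
  have := ((h1 0).add (h1 1)).add (h1 2)
  unfold H.yd
  simpa only [Fin.sum_univ_three] using this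

theorem symU_curl {V : ℝ → Vc} (h : ∀ i, SymU m fun A => V A i) (i : Fin 3) :
    SymU (m - 1) fun A => curl (V A) i :=
  ((h (i + 2)).pd (i + 1)).sub ((h (i + 1)).pd (i + 2))

theorem symU_cross {V W : ℝ → Vc} (h : ∀ i, SymU m fun A => V A i)
    (h' : ∀ i, SymU m' fun A => W A i) (i : Fin 3) : SymU (m + m') fun A => cross (V A) (W A) i :=
  ((h (i + 1)).mul (h' (i + 2))).sub ((h (i + 2)).mul (h' (i + 1)))

theorem symU_loc {V : ℝ → Vc} (h : ∀ i, SymU (-1 / 2) fun A => V A i) (i : Fin 3) :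
    SymU (-3 / 2) fun A => loc (V A) i := by
  have h1 : ∀ i, SymU (-3 / 2) fun A => curl (V A) i := fun i =>
    (symU_curl h i).mono (by norm_num)
  exact ((h1 i).add ((h1 i).yd.cmul (2 / 3))).sub
    ((symU_curl (symU_cross h h1) i).mono (by norm_num))

theorem symU_fld {Ψ S : ℝ → Vc} (h : ∀ i, SymU (m + 1) fun A => Ψ A i)
    (h' : ∀ i, SymU m fun A => S A i) (i : Fin 3) : SymU m fun A => fld (Ψ A) (S A) i :=
  ((symU_curl h i).mono (by linarith)).add (h' i)

theorem resTail_pds_congr {u v : Sc} {y : R3} (h : u =ᶠ[𝓝 y] v) (l : List (Fin 3)) :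
    pds l u =ᶠ[𝓝 y] pds l v := by
  induction l with
  | nil => exact h
  | cons j l ih =>
    filter_upwards [ih.fderiv (𝕜 := ℝ)] with z hz
    simp only [pds, List.foldr_cons, pd] at hz ⊢
    rw [hz]

theorem resTail_pds_zero (l : List (Fin 3)) : pds l (fun _ => 0) = fun _ => 0 := by
  induction l with
  | nil => rfl
  | cons j l ih =>
    have : pds (j :: l) (fun _ => 0) = pd j (pds l fun _ => 0) := rfl
    rw [this, ih, Dyn.pd_const]

theorem chi_smooth (A : ℝ) : ContDiff ℝ ∞ (chi A) :=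
  Real.smoothTransition.contDiff.comp (contDiff_const.sub ((contDiff_norm_sq ℝ).div_const _))

theorem chi_one {A : ℝ} {y : R3} (h : ‖y‖ < A) : chi A y = 1 := by
  refine Real.smoothTransition.one_of_one_le ?_
  have h0 := norm_nonneg y
  have : ‖y‖ ^ 2 / A ^ 2 ≤ 1 := div_le_one_of_le₀ (by gcongr) (by positivity)
  linarith

theorem resTail_chi_far (l : List (Fin 3)) {z : R3} (hz : 2 < ‖z‖) : pds l (chi 1) z = 0 := by
  have h : chi 1 =ᶠ[𝓝 z] fun _ => 0 := by
    filter_upwards [(isOpen_lt continuous_const continuous_norm).mem_nhds hz] with w hw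
    refine Real.smoothTransition.zero_of_nonpos ?_
    have : (2 : ℝ) < ‖w‖ := hw
    nlinarith
  rw [(resTail_pds_congr h l).self_of_nhds, resTail_pds_zero]

theorem symU_chi : SymU 0 chi := by
  refine ⟨fun A _ => chi_smooth A, fun l => ?_⟩
  obtain ⟨C, hC⟩ := (isCompact_closedBall (0 : R3) 2).exists_bound_of_continuousOn
    (Dyn.pds_smooth (chi_smooth 1) l).continuous.continuousOn
  have hC0 : 0 ≤ C := (norm_nonneg _).trans (hC 0 (by simp))
  refine ⟨C * 3 ^ l.length, fun A hA y => ?_⟩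
  have hA0 : 0 < A := by linarith
  have e : chi A = fun y => chi 1 (A⁻¹ • y) := by
    funext y
    simp only [chi, norm_smul, norm_inv, Real.norm_of_nonneg hA0.le]
    congr 1
    field_simp
  rw [e, Dyn.pds_scale (chi_smooth 1)]
  rcases lt_or_ge 2 ‖A⁻¹ • y‖ with h | h
  · simp only [resTail_chi_far l h, mul_zero, abs_zero]
    positivity
  · have h1 := hC _ (mem_closedBall_zero_iff.2 h)
    rw [norm_smul, norm_inv, Real.norm_of_nonneg hA0.le, inv_mul_le_iff₀ hA0] at h
    have h2 : A⁻¹ ≤ 3 * (1 + ‖y‖)⁻¹ := by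
      rw [← div_eq_mul_inv, le_div_iff₀ (by positivity), inv_mul_le_iff₀ hA0]
      linarith
    rw [zero_sub, Real.rpow_neg (by positivity), Real.rpow_natCast, abs_mul,
      abs_of_nonneg (by positivity), mul_assoc, ← inv_pow, ← mul_pow, mul_comm]
    exact mul_le_mul h1 (by gcongr) (by positivity) hC0

theorem symU_cut {Ψ S : Vc} (h : Pot m Ψ S) (i : Fin 3) : SymU m fun A => cut A Ψ S i := by
  refine symU_fld (Ψ := fun A => sm (chi A) Ψ) (S := fun A => sm (chi A) S) (fun i => ?_)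
    (fun i => ?_) i
  · exact (symU_chi.mul (h.sΨ i).symU).mono (by linarith)
  · exact (symU_chi.mul (h.sS i).symU).mono (by linarith)

/-- Agreement on the ball of radius `A`. -/
def Agr (A : ℝ) (u v : Sc) : Prop := ∀ y : R3, ‖y‖ < A → u y = v y

theorem Agr.pds {A : ℝ} {u v : Sc} (h : Agr A u v) (l : List (Fin 3)) :
    Agr A (pds l u) (pds l v) := fun y hy => by
  refine (resTail_pds_congr ?_ l).self_of_nhds
  filter_upwards [(isOpen_lt continuous_norm continuous_const).mem_nhds hy] with z hz using h z hz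

theorem Agr.pd {A : ℝ} {u v : Sc} (h : Agr A u v) (j : Fin 3) : Agr A (pd j u) (pd j v) :=
  h.pds [j]

theorem agr_curl {A : ℝ} {U V : Vc} (h : ∀ i, Agr A (U i) (V i)) (i : Fin 3) :
    Agr A (curl U i) (curl V i) := fun y hy => by
  simp only [curl, fun k j => (h k).pd j y hy]

theorem agr_loc {A : ℝ} {U V : Vc} (h : ∀ i, Agr A (U i) (V i)) (i : Fin 3) :
    Agr A (loc U i) (loc V i) := fun y hy => by
  have h1 := agr_curl h
  have h2 : ∀ k, Agr A (cross U (curl U) k) (cross V (curl V) k) := fun k z hz => by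
    simp only [cross, fun k => h k z hz, fun k => h1 k z hz]
  simp only [loc, yd, h1 i y hy, fun j => (h1 i).pd j y hy, agr_curl h2 i y hy]

theorem agr_cut (A : ℝ) (Ψ S : Vc) (i : Fin 3) : Agr A (cut A Ψ S i) (fld Ψ S i) := fun y hy => by
  have h : ∀ (V : Vc) k, Agr A (sm (chi A) V k) (V k) := fun V k z hz => by
    simp only [sm, chi_one hz, one_mul]
  simp only [cut, fld, Pi.add_apply, agr_curl (h Ψ) i y hy, h S i y hy]

/-- The integral of a function that decays fast and vanishes on a large ball is small. -/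
theorem tail_small {C q : ℝ} (hq : q < -3) (hb : ∀ A, 1 ≤ A → ∀ y, |g A y| ≤ C * (1 + ‖y‖) ^ q)
    (hv : ∀ A, 1 ≤ A → ∀ y, ‖y‖ < A → g A y = 0) {ε : ℝ} (hε : 0 < ε) :
    ∀ᶠ A in atTop, ∫ y, g A y ≤ ε := by
  set δ := (-3 - q) / 2 with hδ
  have hδ0 : 0 < δ := by linarith
  have hI : Integrable fun y : R3 => (1 + ‖y‖) ^ (-(3 + δ)) :=
    integrable_one_add_norm (by simp [hδ0])
  have hT : Tendsto (fun A : ℝ => A ^ (-δ) * (|C| * ∫ y : R3, (1 + ‖y‖) ^ (-(3 + δ)))) atTop
      (𝓝 0) := by simpa using (tendsto_rpow_neg_atTop hδ0).mul_const _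
  filter_upwards [eventually_ge_atTop 1, hT.eventually (ge_mem_nhds hε)] with A hA hA'
  refine le_trans ?_ hA'
  rw [← integral_const_mul, ← integral_const_mul]
  refine (Real.le_norm_self _).trans (norm_integral_le_of_norm_le ((hI.const_mul _).const_mul _)
    (Eventually.of_forall fun y => ?_))
  have hA0 : 0 < A := by linarith
  rcases lt_or_ge ‖y‖ A with h | h
  · rw [hv A hA y h, norm_zero]; positivity
  · refine ((hb A hA y).trans (mul_le_mul_of_nonneg_right (le_abs_self C) (by positivity))).trans ?_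
    rw [show q = -δ + -(3 + δ) by linarith, Real.rpow_add (by positivity), mul_left_comm]
    have : (1 + ‖y‖) ^ (-δ) ≤ A ^ (-δ) :=
      Real.rpow_le_rpow_of_nonpos hA0 (by linarith) (by linarith)
    gcongr

end Pool.Agent.Work.MP_6bf1e5_an.H
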