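import Pool.Agent.Work.MP_6bf1e5_an.H.LocAngB
import Pool.Agent.Work.MP_6bf1e5_an.H.ResTail

/-!
The multiplier identity and the global Hardy inequalities.
Hints. mult_id': g1 u - |curl u|² = ∑ i j, pd i (u j) * pd j (u i); ∫ W pd i (u j) pd j (u i) =
-∫ pd i W * u j * pd j (u i) after summation (ibp, pd_comm, div u = 0); u·∇ u = ∇ |u|² / 2 + curl u × u; ibp again.
All products W * f are Hinf (hinf_smul; pd j W is Sym 0 by ResLoc_pd, ResLoc_mono).
ang_hardy': φ = chi R * Om ^ 2 / 2 is RadW (chi_smooth, pd of a function of the squared norm is a multiple of y j);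
ang_one + ang_two + Jd_sq_le and Om ^ 2 ‖y‖ ^ 2 / 2 ≤ Om give ∫ chi R Om ^ 2 |u|² ≤ gw Om u; let R → ∞ (chi_one,
dominated convergence along the naturals). global_hardy': mult_id' with W = Om, lap Om ≤ Om ^ 2, and pointwise
curl u · (∇ Om × u) ≤ 5 / 2 Om |curl u|² + 1 / 5 Om ^ 2 |u|² (|∇ Om|² ≤ 2 Om ^ 3).
-/

open scoped ContDiff ENNReal FourierTransform Real
open Set MeasureTheory

namespace Pool.Agent.Work.MP_6bf1e5_an.H.Dyn

variable {u : Vc}

theorem LocMult_div {f g : Sc} (hf : Hinf f) (hg : Hinf g) (j : Fin 3) :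
    Integrable (fun y => pd j f y * g y + f y * pd j g y) ∧
      ∫ y, (pd j f y * g y + f y * pd j g y) = 0 := by
  have h1 : Integrable fun y => pd j f y * g y := int_mul (hinf_pds hf [j]) hg
  have h2 : Integrable fun y => f y * pd j g y := int_mul hf (hinf_pds hg [j])
  exact ⟨h1.add h2, by rw [integral_add h1 h2, ibp hf hg, neg_add_cancel]⟩

theorem LocMult_cross (h : ∀ i, Hinf (u i)) {W : Sc} (hW : Sym 0 W) :
    Integrable (dot (curl u) (cross (grad W) u)) :=
  have s0 : ∀ j, Sym 0 (pd j W) := fun j => ResLoc_mono (ResLoc_pd hW j) (by norm_num)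
  integrable_finsetSum _ fun i _ => int_mul (hinf_curl h i)
    (hinf_sub (hinf_smul (s0 _) (h _)) (hinf_smul (s0 _) (h _)))

theorem LocMult_rad {H : ℝ → ℝ} {y : R3} (h : DifferentiableAt ℝ H (‖y‖ ^ 2)) (k : Fin 3) :
    Jd k (fun z => H (‖z‖ ^ 2)) y = 0 := by
  have e : ∀ j, pd j (fun z => H (‖z‖ ^ 2)) y = deriv H (‖y‖ ^ 2) * (2 * y j) := fun j => by
    have h1 := h.hasDerivAt.comp_hasFDerivAt y (hasStrictFDerivAt_norm_sq y).hasFDerivAt
    rw [pd, show (fun z : R3 => H (‖z‖ ^ 2)) = H ∘ fun z => ‖z‖ ^ 2 from rfl, h1.fderiv]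
    simp [EuclideanSpace.inner_single_right]
  rw [Jd, e, e]
  ring

theorem LocMult_radW {R : ℝ} (hR : 0 < R) : RadW fun y => chi R y * Om y ^ 2 := by
  refine ⟨(chi_smooth R).mul (Om_smooth.pow 2), ?_,
    fun y => mul_nonneg (Real.smoothTransition.nonneg _) (sq_nonneg _), fun k y => ?_⟩
  · refine HasCompactSupport.intro (isCompact_closedBall 0 (2 * R)) fun y hy => ?_
    rw [mem_closedBall_zero_iff, not_le] at hy
    have h : 2 ≤ ‖y‖ ^ 2 / R ^ 2 := by
      rw [le_div_iff₀ (by positivity)]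
      nlinarith
    rw [chi, Real.smoothTransition.zero_of_nonpos (by linarith), zero_mul]
  · refine LocMult_rad (H := fun t => Real.smoothTransition (2 - t / R ^ 2) * (2 / (1 + t)) ^ 2)
      (.mul (((Real.smoothTransition.contDiff (n := 1)).differentiable one_ne_zero _).comp _
        (f := fun t : ℝ => 2 - t / R ^ 2) (by fun_prop)) ?_) k
    have h : 1 + ‖y‖ ^ 2 ≠ 0 := by positivity
    fun_prop (disch := exact h)

theorem mult_id' (h : ∀ i, Hinf (u i)) (hd : ∀ y, dvg u y = 0) {W : Sc} (hW : Sym 0 W) :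
    gw W u = nw W (curl u) + 1 / 2 * nw (lap W) u + ip (curl u) (cross (grad W) u) := by
  have s0 : ∀ {V : Sc}, Sym 0 V → ∀ j, Sym 0 (pd j V) := fun hV j =>
    ResLoc_mono (ResLoc_pd hV j) (by norm_num)
  have hp : ∀ i j, Hinf (pd j (u i)) := fun i j => hinf_pds (h i) [j]
  have sl : Sym 0 (lap W) := ResLoc_sum Finset.univ fun j _ => s0 (s0 hW j) j
  obtain ⟨C, hC⟩ := sym_bdd hW
  obtain ⟨D, hD⟩ := sym_bdd sl
  have i1 := int_nw hW.1.continuous hC (hinf_curl h)
  have i2 := (int_nw sl.1.continuous hD h).const_mul (1 / 2)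
  have i3 := LocMult_cross h hW
  have A := fun i j => LocMult_div (h j) (hinf_smul hW (hp i j)) i
  have B := fun i j => LocMult_div (hinf_smul (s0 hW i) (h j)) (h j) i
  have i4 := fun i j => (A i j).1.sub ((B i j).1.const_mul (1 / 2))
  have i5 := fun i => integrable_finsetSum Finset.univ fun j _ => i4 i j
  have e := integral_finsetSum Finset.univ fun i _ => i5 i
  have e' : ∀ i, _ = (0 : ℝ) := fun i =>
    (integral_finsetSum Finset.univ fun j _ => i4 i j).trans (Finset.sum_eq_zero fun j _ =>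
      (integral_sub (A i j).1 ((B i j).1.const_mul (1 / 2))).trans (by
        rw [integral_const_mul, (A i j).2, (B i j).2, mul_zero, sub_zero]))
  rw [Finset.sum_eq_zero fun i _ => e' i] at e
  have e2 := integral_add' ((i1.add i2).add i3) (integrable_finsetSum Finset.univ fun i _ => i5 i)
  rw [e, add_zero, integral_add' (i1.add i2) i3, integral_add' i1 i2, integral_const_mul] at e2
  refine Eq.trans ?_ e2
  refine integral_congr_ae (ae_of_all _ fun y => ?_)
  have d := fun j => dvg_pd (fun i => (h i).1) hd j y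
  simp only [Pi.add_apply, Pi.sub_apply, pd_mul hW.1 (hp _ _).1, pd_mul (s0 hW _).1 (h _).1, dvg, dot, cross,
    curl, grad, lap, Fin.sum_univ_three, Fin.reduceAdd] at d ⊢
  linear_combination -(W y * u 0 y) * d 0 - W y * u 1 y * d 1 - W y * u 2 y * d 2

theorem ang_hardy' (h : ∀ i, Hinf (u i)) (he : Eqv u) : nw (Op 2) u ≤ gw Om u := by
  have hu := fun i => (h i).1
  have c2 : Continuous fun y => Om y ^ 2 := Om_smooth.continuous.pow 2
  have b1 : ∀ y, |Om y| ≤ 2 := fun y => (abs_of_pos (Om_pos y)).trans_le (Om_le y)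
  have b2 : ∀ y, |Om y ^ 2| ≤ 2 ^ 2 := fun y =>
    (abs_pow _ _).trans_le (pow_le_pow_left₀ (abs_nonneg _) (b1 y) 2)
  have d0 : ∀ y, 0 ≤ dot u u y := fun y => Finset.sum_nonneg fun i _ => mul_self_nonneg _
  have k0 : ∀ R y, 0 ≤ chi R y ∧ chi R y ≤ 1 := fun R y =>
    ⟨Real.smoothTransition.nonneg _, Real.smoothTransition.le_one _⟩
  have key : ∀ R : ℝ, 0 < R → ∫ y, chi R y * Om y ^ 2 * dot u u y ≤ gw Om u := fun R hR => by
    have w := LocMult_radW hR
    have c := fun i => (hu i).continuous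
    have cJ : ∀ i, Continuous fun y => ∑ k, Jd k (u i) y ^ 2 := fun i =>
      continuous_finsetSum _ fun k _ => (Jd_smooth (hu i) k).continuous.pow 2
    have a1 := ang_one w hu he
    have a2 := ang_two w (hu 2) fun y hy => eqv_plane he hy
    have e1 : ∫ y, chi R y * Om y ^ 2 * dot u u y =
        (∫ y, chi R y * Om y ^ 2 * (u 0 y ^ 2 + u 1 y ^ 2)) +
          ∫ y, chi R y * Om y ^ 2 * u 2 y ^ 2 := by
      rw [← integral_add (w.int (((c 0).fun_pow 2).fun_add ((c 1).fun_pow 2)))
        (w.int ((c 2).fun_pow 2))]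
      refine integral_congr_ae (ae_of_all _ fun y => ?_)
      simp only [dot, Fin.sum_univ_three]
      ring
    have i1 := w.int ((cJ 0).fun_add (cJ 1))
    have i2 := w.int (cJ 2)
    have e2 := integral_mono (i1.add i2)
      ((int_gw Om_smooth.continuous b1 h).const_mul 2) fun y => by
        have h1 := add_le_add (add_le_add (Jd_sq_le (u 0) y) (Jd_sq_le (u 1) y)) (Jd_sq_le (u 2) y)
        have h2 : 0 ≤ g1 u y := Finset.sum_nonneg fun i _ => Finset.sum_nonneg fun j _ => sq_nonneg _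
        have h3 : chi R y * Om y ^ 2 * ‖y‖ ^ 2 ≤ 2 * Om y := by
          have h4 := mul_le_of_le_one_left (show 0 ≤ Om y ^ 2 * ‖y‖ ^ 2 by positivity) (k0 R y).2
          have h5 : Om y ^ 2 * ‖y‖ ^ 2 = Om y * (2 - Om y) := by rw [← Om_norm]; ring
          linarith [sq_nonneg (Om y)]
        have h4 := mul_le_mul_of_nonneg_right h3 h2
        have h5 := mul_le_mul_of_nonneg_left h1 (w.nn y)
        rw [g1, Fin.sum_univ_three] at h4
        simp only [Pi.add_apply, g1]
        rw [Fin.sum_univ_three fun i => ∑ j, pd j (u i) y ^ 2]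
        linarith
    rw [integral_add' i1 i2, integral_const_mul] at e2
    have e3 : gw Om u = ∫ y, Om y * g1 u y := rfl
    linarith
  have lim := tendsto_integral_of_dominated_convergence (μ := volume)
    (F := fun (n : ℕ) y => chi (n + 1) y * Om y ^ 2 * dot u u y)
    (f := fun y => Op 2 y * dot u u y) (fun y => Om y ^ 2 * dot u u y)
    (fun n => (((chi_smooth _).continuous.mul c2).mul (continuous_finsetSum _ fun i _ =>
      (hu i).continuous.mul (hu i).continuous)).aestronglyMeasurable) (int_nw c2 b2 h)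
    (fun n => ae_of_all _ fun y => by
      have h1 := mul_nonneg (sq_nonneg (Om y)) (d0 y)
      rw [mul_assoc, Real.norm_of_nonneg (mul_nonneg (k0 _ y).1 h1)]
      exact mul_le_of_le_one_left h1 (k0 _ y).2)
    (ae_of_all _ fun y => tendsto_const_nhds.congr' (by
      filter_upwards [tendsto_natCast_atTop_atTop.eventually_ge_atTop ‖y‖] with n hn
      rw [chi_one (by linarith), one_mul, Op_two]))
  exact le_of_tendsto' lim fun n => key _ (by positivity)

theorem global_hardy' (h : Adm u) :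
    nw (Op 2) u ≤ 12 * nw Om (curl u) ∧ gw Om u ≤ 12 * nw Om (curl u) := by
  have s0 : Sym 0 Om := ResLoc_mono sym_Om (by norm_num)
  have h1 := ang_hardy' h.hinf h.eqv
  have h2 := mult_id' h.hinf h.dv s0
  have h3 := nw_nonneg (fun y => (Om_pos y).le) (curl u)
  have d0 : ∀ (v : Vc) y, 0 ≤ dot v v y := fun v y =>
    Finset.sum_nonneg fun i _ => mul_self_nonneg _
  have b1 : ∀ y, |Om y| ≤ 2 := fun y => (abs_of_pos (Om_pos y)).trans_le (Om_le y)
  have b2 : ∀ y, |Op 2 y| ≤ 2 ^ 2 := fun y => by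
    rw [Op_two]
    exact (abs_pow _ _).trans_le (pow_le_pow_left₀ (abs_nonneg _) (b1 y) 2)
  have i1 := int_nw (Op_cont 2) b2 h.hinf
  have i2 := int_nw Om_smooth.continuous b1 (hinf_curl h.hinf)
  have h4 : nw (lap Om) u ≤ nw (Op 2) u := by
    have sl : Sym 0 (lap Om) := ResLoc_sum Finset.univ fun j _ =>
      ResLoc_mono (ResLoc_pd (ResLoc_pd s0 j) j) (by norm_num)
    obtain ⟨D, hD⟩ := sym_bdd sl
    refine integral_mono (int_nw sl.1.continuous hD h.hinf) i1 fun y =>
      mul_le_mul_of_nonneg_right ?_ (d0 u y)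
    rw [lap_Om, Op_two]
    exact mul_le_of_le_one_right (sq_nonneg _) (by linarith [Om_pos y])
  have h5 : ip (curl u) (cross (grad Om) u) ≤ 5 / 2 * nw Om (curl u) + 1 / 5 * nw (Op 2) u := by
    rw [nw, nw, ← integral_const_mul, ← integral_const_mul,
      ← integral_add (i2.const_mul _) (i1.const_mul _)]
    refine integral_mono (LocMult_cross h.hinf s0) ((i2.const_mul _).add (i1.const_mul _))
      fun y => ?_
    have p := mul_nonneg (Om_pos y).le (d0 (curl u) y)
    have q := mul_nonneg (sq_nonneg (Om y)) (d0 u y)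
    have e1 : dot (grad Om) (grad Om) y ≤ 2 * Om y ^ 3 := by
      have e2 : dot (grad Om) (grad Om) y = Om y ^ 3 * (2 - Om y) := by
        rw [← Om_norm, norm_sq_eq]
        simp only [dot, grad, pd_Om, Fin.sum_univ_three]
        ring
      linarith [pow_pos (Om_pos y) 4]
    have e2 := (dot_sq (curl u) _ y).trans (mul_le_mul_of_nonneg_left ((dot_cross_le _ u y).trans
      (mul_le_mul_of_nonneg_right e1 (d0 u y))) (d0 _ y))
    simp only [Op_two]
    refine (le_abs_self _).trans (abs_le_of_sq_le_sq ?_ (by positivity))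
    linarith [sq_nonneg (5 / 2 * (Om y * dot (curl u) (curl u) y) - 1 / 5 * (Om y ^ 2 * dot u u y))]
  constructor <;> linarith

end Pool.Agent.Work.MP_6bf1e5_an.H.Dyn
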