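import Pool.Agent.Work.MP_6bf1e5_an.H.CertTail
import Pool.Agent.Work.MP_6bf1e5_an.H.CertNm
import Pool.Agent.Work.MP_6bf1e5_an.H.LocMult

/-! Matrices of pair integrals. -/

open scoped ContDiff ENNReal FourierTransform Real
open Set MeasureTheory

namespace Pool.Agent.Work.MP_6bf1e5_an.H.Ca

variable {ι κ β I : Type} [Fintype ι] [Fintype κ] [Fintype β] [Fintype I] {L : Lyap} {T : Tab L}
  {n : ℕ} {ov ou : Sc} {ϑ ϑ' : β → Vc} {g : ℝ}

noncomputable section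

/-- The graded form. -/
def mD (n : ℕ) (Y Z : ℕ → Vc) : ℝ :=
  ∫ y, Om y ^ 4 * ∑ i, (∑ k ∈ Finset.range n, (lam k - lamS n) * Y k i y)
    * ∑ k ∈ Finset.range n, Z k i y

/-- The local form. -/
def mA (Fp Fm Fu : Mc) (a b : Vc) : ℝ :=
  (∫ y, bf Fp (curl a) (curl b) y) + (∫ y, bf Fm (curl a) b y) + ∫ y, bf Fu a b y

/-- A scalar times a matrix field. -/
def sM (o : Sc) (M : Mc) : Mc := fun i j y => o y * M i j y

/-- The local pair of a jet `(p, w)`. -/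
def g0 (V B : Mc) (p w : Vc) : Vc := fun i y => 2 * mv3 V p i y + mv3 B w i y

/-- The pointwise inequality for the fields of the local form: `V`, `B` in the linear part and
`V1`, `B1` in the products. -/
def Loc (V B V1 B1 : Mc) (ov ou : Sc) (x z : ℝ) (Fp Fm Fu : Mc) : Prop :=
  ∀ᵐ y, ∀ q v : Fin 3 → ℝ, ∑ i, ∑ j, q i * Fp i j y * q j + ∑ i, ∑ j, q i * Fm i j y * v j
      + ∑ i, ∑ j, v i * Fu i j y * v j ≤
    x * (∑ i, ∑ j, q i * V i j y * q j + ∑ i, ∑ j, q i * B i j y * v j)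
      - z * (ov y * ∑ i, (2 * ∑ j, V1 i j y * q j + ∑ j, B1 i j y * v j) ^ 2
        + ou y * ∑ j, (∑ i, q i * B1 i j y) ^ 2)

/-- The exact fields. -/
def exP (V V1 B1 : Mc) (ov ou : Sc) (x z : ℝ) : Mc := fun i j y =>
  x * V i j y - z * (4 * ov y * ∑ k, V1 k i y * V1 k j y + ou y * ∑ k, B1 i k y * B1 j k y)

def exM (B V1 B1 : Mc) (ov : Sc) (x z : ℝ) : Mc := fun i j y =>
  x * B i j y - z * (4 * ov y * ∑ k, V1 k i y * B1 k j y)

def exU (B1 : Mc) (ov : Sc) (z : ℝ) : Mc := fun i j y =>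
  -(z * (ov y * ∑ k, B1 k i y * B1 k j y))

end

variable {V B V1 B1 : Mc}

theorem hV0_eq (T : Tab L) (w : Vc) : T.hV0 w = g0 T.V T.B (curl w) w := rfl

theorem loc_exact (V B V1 B1 : Mc) (ov ou : Sc) (x z : ℝ) :
    Loc V B V1 B1 ov ou x z (exP V V1 B1 ov ou x z) (exM B V1 B1 ov x z) (exU B1 ov z) :=
  Filter.Eventually.of_forall fun y q v => le_of_eq <| by
    simp only [exP, exM, exU, Fin.sum_univ_three]
    ring

theorem bd_exact (bV : ∀ i j, Bd (-2) (V i j)) (bB : ∀ i j, Bd (-3) (B i j))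
    (bV1 : ∀ i j, Bd (-2) (V1 i j)) (bB1 : ∀ i j, Bd (-3) (B1 i j)) (w : Wt ov ou) (x z : ℝ)
    (i j : Fin 3) : Bd (-2) (exP V V1 B1 ov ou x z i j) ∧ Bd (-3) (exM B V1 B1 ov x z i j) ∧
      Bd (-4) (exU B1 ov z i j) := by
  refine ⟨((bV i j).cmul x).sub (Bd.cmul (Bd.add ?_ ?_) z),
    ((bB i j).cmul x).sub (Bd.cmul ?_ z), (Bd.cmul ?_ z).neg⟩
  · exact Fn.bd_mul (w.1.1.cmul 4) (Bd.sum _ fun k _ => (bV1 k i).mul (bV1 k j)) (by norm_num)
  · exact Fn.bd_mul w.2.1 (Bd.sum _ fun k _ => (bB1 i k).mul (bB1 j k)) (by norm_num)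
  · exact Fn.bd_mul (w.1.1.cmul 4) (Bd.sum _ fun k _ => (bV1 k i).mul (bB1 k j)) (by norm_num)
  · exact Fn.bd_mul w.1.1 (Bd.sum _ fun k _ => (bB1 k i).mul (bB1 k j)) (by norm_num)

theorem pb_g0 (bV : ∀ i j, Bd (-2) (V i j)) (bB : ∀ i j, Bd (-3) (B i j)) {p w : Vc}
    (hp : ∀ i, Bd (-1) (p i)) (hw : ∀ i, Bd 0 (w i)) : Pb (g0 V B p w) (vm3 B p) :=
  ⟨fun i => ((Fn.bd_mv3 bV hp (by norm_num) i).cmul 2).add (Fn.bd_mv3 bB hw (by norm_num) i),
    Fn.bd_vm3 bB hp (by norm_num)⟩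

theorem pb_mode (bV : ∀ i j, Bd (-2) (V i j)) (bB : ∀ i j, Bd (-3) (B i j)) {w : Vc}
    (hw : ∀ i, Sym (-2) (w i)) : Pb (g0 V B (curl w) w) (vm3 B (curl w)) :=
  pb_g0 bV bB (fun i => (Fn.bd_curl hw i).mono (by norm_num)) fun i => (hw i).bd.mono (by norm_num)

theorem g0_lc (V B : Mc) (c : ι → ℝ) (p w : ι → Vc) :
    g0 V B (lc c p) (lc c w) = lc c fun j => g0 V B (p j) (w j) := by
  funext i y
  simp only [g0, mv3_lc]
  simp only [lc, g0, Finset.mul_sum, ← Finset.sum_add_distrib]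
  exact Finset.sum_congr rfl fun j _ => by ring

theorem bd_Om4 : Bd (-8) fun y => Om y ^ 4 :=
  ((bd_Op (4 : ℕ)).of_eq (by norm_num)).congr fun y => (Fn.op_nat 4 y).symm

theorem mD_lc {Y : ι → ℕ → Vc} {Z : κ → ℕ → Vc} (hY : ∀ j k i, Bd 0 (Y j k i))
    (hZ : ∀ j k i, Bd 0 (Z j k i)) (c : ι → ℝ) (d : κ → ℝ) :
    mD n (fun k => lc c fun j => Y j k) (fun k => lc d fun j => Z j k) =
      ∑ j, ∑ k, mD n (Y j) (Z k) * (c j * d k) := by
  have e : ∀ Y Z : ℕ → Vc, mD n Y Z = ip (sm (fun y => Om y ^ 4)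
      fun i y => ∑ k ∈ Finset.range n, (lam k - lamS n) * Y k i y)
      fun i y => ∑ k ∈ Finset.range n, Z k i y := fun Y Z => by
    rw [ip, dot_sm]
    rfl
  have e1 : (fun i y => ∑ k ∈ Finset.range n, (lam k - lamS n) * lc c (fun j => Y j k) i y) =
      lc c fun j i y => ∑ k ∈ Finset.range n, (lam k - lamS n) * Y j k i y := by
    funext i y
    simp only [lc, Finset.mul_sum]
    rw [Finset.sum_comm]
    exact Finset.sum_congr rfl fun j _ => Finset.sum_congr rfl fun k _ => by ring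
  have e2 : (fun i y => ∑ k ∈ Finset.range n, lc d (fun j => Z j k) i y) =
      lc d fun j i y => ∑ k ∈ Finset.range n, Z j k i y := by
    funext i y
    simp only [lc, Finset.mul_sum]
    exact Finset.sum_comm
  simp only [e]
  rw [e1, e2, sm_lc, ip_lc_lc c d fun j k => int_sm (m := 0) (m' := 0) bd_Om4
    (fun i => Bd.sum _ fun k _ => (hY j k i).cmul _) (fun i => Bd.sum _ fun m _ => hZ k m i)
    (by norm_num)]

theorem mD_sum {Y Z : ℕ → Vc} (hY : ∀ k i, Bd 0 (Y k i)) (hZ : ∀ k i, Bd 0 (Z k i)) :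
    mD n Y Z = ∑ k ∈ Finset.range n, ∑ m ∈ Finset.range n,
      (lam k - lamS n) * ip (sm (fun y => Om y ^ 4) (Y k)) (Z m) := by
  have hi := fun k m => (int_sm bd_Om4 (hY k) (hZ m) (by norm_num)).const_mul (lam k - lamS n)
  simp only [ip, ← integral_const_mul]
  simp only [← integral_finsetSum _ fun m _ => hi _ m]
  rw [← integral_finsetSum _ fun k _ => integrable_finsetSum _ fun m _ => hi k m, mD]
  congr 1
  funext y
  simp only [dot, sm, Finset.sum_mul_sum]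
  simp only [Finset.mul_sum]
  rw [Finset.sum_comm]
  refine Finset.sum_congr rfl fun k _ => ?_
  rw [Finset.sum_comm]
  exact Finset.sum_congr rfl fun m _ => Finset.sum_congr rfl fun i _ => by ring

theorem mA_lc {Fp Fm Fu : Mc} (bF : ∀ i j, Bd 0 (Fp i j) ∧ Bd 0 (Fm i j) ∧ Bd 0 (Fu i j))
    {u : ι → Vc} (hu : ∀ j i, Hinf (u j i)) (c : ι → ℝ) :
    mA Fp Fm Fu (lc c u) (lc c u) = ∑ j, ∑ k, mA Fp Fm Fu (u j) (u k) * (c j * c k) := by
  have hc := fun j => Dyn.hinf_curl (hu j)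
  unfold mA
  rw [curl_lc c fun j i => (hu j i).1,
    bf_lc c c fun j k => Fn.int_bf (fun i j => (bF i j).1) le_rfl (hc j) (hc k),
    bf_lc c c fun j k => Fn.int_bf (fun i j => (bF i j).2.1) le_rfl (hc j) (hu k),
    bf_lc c c fun j k => Fn.int_bf (fun i j => (bF i j).2.2) le_rfl (hu j) (hu k)]
  simp only [add_mul, Finset.sum_add_distrib]

theorem int_bf {k m m' : ℝ} {M : Mc} {a b : Vc} (hM : ∀ i j, Bd k (M i j)) (ha : ∀ i, Bd m (a i))
    (hb : ∀ i, Bd m' (b i)) (h : m + (k + m') < -3) : Integrable (bf M a b) := by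
  rw [bf_eq_dot]
  exact (Bd.dot ha (Fn.bd_mv3 hM hb le_rfl)).integrable h

/-- The pairing of a local pair with another pair. -/
theorem pr_loc (bV : ∀ i j, Bd (-2) (V i j)) (bB : ∀ i j, Bd (-3) (B i j)) (hv : Bd 2 ov)
    {p w η η' : Vc} (hp : ∀ i, Bd (-1) (p i)) (hw : ∀ i, Bd 0 (w i)) (hη : ∀ i, Bd (-3) (η i)) :
    pr ov ou (g0 V B p w) (vm3 B p) η η' = 2 * (∫ y, bf (sM ov V) η p y)
      + (∫ y, bf (sM ov B) η w y) + ∫ y, bf (sM ou B) p η' y := by
  have i1 : Integrable (bf (sM ov V) η p) := int_bf (fun i j => hv.mul (bV i j)) hη hp (by norm_num)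
  have i2 : Integrable (bf (sM ov B) η w) := int_bf (fun i j => hv.mul (bB i j)) hη hw (by norm_num)
  rw [← integral_const_mul, ← integral_add (i1.const_mul _) i2, pr, ip, ip]
  congr 2 <;> funext y <;>
    simp only [dot, sm, bf, sM, g0, mv3, vm3, Fin.sum_univ_three] <;> ring

theorem loc_int (bV : ∀ i j, Bd (-2) (V i j)) (bB : ∀ i j, Bd (-3) (B i j))
    (bV1 : ∀ i j, Bd (-2) (V1 i j)) (bB1 : ∀ i j, Bd (-3) (B1 i j)) (wt : Wt ov ou)
    {Fp Fm Fu : Mc} (bF : ∀ i j, Bd 0 (Fp i j) ∧ Bd 0 (Fm i j) ∧ Bd 0 (Fu i j))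
    {x z : ℝ} (hF : Loc V B V1 B1 ov ou x z Fp Fm Fu) {w : Vc} (hw : ∀ i, Hinf (w i))
    (hs : ∀ i, Sym (-2) (w i)) :
    mA Fp Fm Fu w w ≤ x * ((∫ y, bf V (curl w) (curl w) y) + ∫ y, bf B (curl w) w y)
      - z * (nw ov (g0 V1 B1 (curl w) w) + nw ou (vm3 B1 (curl w))) := by
  have hc := Dyn.hinf_curl hw
  have pb := pb_mode bV1 bB1 hs
  have i1 := Fn.int_bf (fun i j => (bF i j).1) le_rfl hc hc
  have i2 := Fn.int_bf (fun i j => (bF i j).2.1) le_rfl hc hw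
  have i3 := Fn.int_bf (fun i j => (bF i j).2.2) le_rfl hw hw
  have i4 := Fn.int_bf bV (by norm_num) hc hc
  have i5 := Fn.int_bf bB (by norm_num) hc hw
  have i6 := wt.1.1.int_nw pb.1 pb.1 (by norm_num)
  have i7 := wt.2.1.int_nw pb.2 pb.2 (by norm_num)
  have j1 : Integrable fun y => bf Fp (curl w) (curl w) y + bf Fm (curl w) w y := i1.add i2
  have j2 : Integrable fun y => x * (bf V (curl w) (curl w) y + bf B (curl w) w y) :=
    (i4.add i5).const_mul x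
  have j3 : Integrable fun y => z * (ov y * dot (g0 V1 B1 (curl w) w) (g0 V1 B1 (curl w) w) y
    + ou y * dot (vm3 B1 (curl w)) (vm3 B1 (curl w)) y) := (i6.add i7).const_mul z
  unfold mA nw
  rw [← integral_add i1 i2, ← integral_add j1 i3, ← integral_add i4 i5, ← integral_add i6 i7,
    ← integral_const_mul, ← integral_const_mul, ← integral_sub j2 j3]
  refine integral_mono_ae (j1.add i3) (j2.sub j3) ?_
  filter_upwards [hF] with y hy
  simpa only [bf, dot, g0, mv3, vm3, sq] using hy (fun i => curl w i y) fun i => w i y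

theorem mv_sq (M : Fin 3 → Fin 3 → ℝ) (q : Fin 3 → ℝ) :
    ∑ i, (∑ j, M i j * q j) ^ 2 ≤ (∑ i, ∑ j, M i j ^ 2) * ∑ j, q j ^ 2 := frob M q

/-- The change of the local pair with the tables. -/
theorem diff_g0 {cv cu dv db : ℝ} (wt : Wt ov ou) (hv : ∀ᵐ y, ov y * Om y ≤ cv)
    (hu : ∀ᵐ y, ou y * Om y ^ 2 ≤ cu)
    (h1 : ∀ᵐ y, ∑ i, ∑ j, (V i j y - V1 i j y) ^ 2 ≤ dv ^ 2 * Om y ^ 2)
    (h2 : ∀ᵐ y, ∑ i, ∑ j, (B i j y - B1 i j y) ^ 2 ≤ db ^ 2 * Om y ^ 3) (hcv : 0 ≤ cv) {w : Vc}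
    (hw : Adm w) : nw ov (g0 V B (curl w) w - g0 V1 B1 (curl w) w)
      + nw ou (vm3 B (curl w) - vm3 B1 (curl w)) ≤
        (8 * cv * dv ^ 2 + (24 * cv + cu) * db ^ 2) * nw Om (curl w) := by
  have hc := Dyn.hinf_curl hw.hinf
  have i1 := Fn.int_nw (Fn.bd_Om (k := 0) (by norm_num)) hc
  have i2 := Fn.int_nw (Fn.bd_op (k := 0) 2 (by norm_num)) hw.hinf
  have k1 : nw ov (g0 V B (curl w) w - g0 V1 B1 (curl w) w) ≤
      8 * cv * dv ^ 2 * nw Om (curl w) + 2 * cv * db ^ 2 * nw (Op 2) w := by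
    unfold nw
    rw [← integral_const_mul, ← integral_const_mul, ← integral_add (i1.const_mul _) (i2.const_mul _)]
    refine integral_mono_of_nonneg (wt.1.2.mono fun y hy => mul_nonneg hy (SkCert_dot_nn _ y))
      ((i1.const_mul _).add (i2.const_mul _)) ?_
    filter_upwards [wt.1.2, hv, h1, h2] with y a0 a1 a2 a3
    have hO := (Dyn.Om_pos y).le
    have p0 := sq_nn fun j => curl w j y
    have p1 := sq_nn fun j => w j y
    have m1 := (mv_sq (fun i j => V i j y - V1 i j y) fun j => curl w j y).trans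
      (mul_le_mul_of_nonneg_right a2 p0)
    have m2 := (mv_sq (fun i j => B i j y - B1 i j y) fun j => w j y).trans
      (mul_le_mul_of_nonneg_right a3 p1)
    have m3 : dot (g0 V B (curl w) w - g0 V1 B1 (curl w) w) (g0 V B (curl w) w - g0 V1 B1 (curl w) w) y
        ≤ 8 * ∑ i, (∑ j, (V i j y - V1 i j y) * curl w j y) ^ 2
          + 2 * ∑ i, (∑ j, (B i j y - B1 i j y) * w j y) ^ 2 := by
      rw [Fn.dot_self, Finset.mul_sum, Finset.mul_sum, ← Finset.sum_add_distrib]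
      refine Finset.sum_le_sum fun i _ => ?_
      have := SkCert_young one_pos (2 * ∑ j, (V i j y - V1 i j y) * curl w j y)
        (∑ j, (B i j y - B1 i j y) * w j y)
      simp only [Pi.sub_apply, g0, mv3, Fin.sum_univ_three] at this ⊢
      linarith
    have m4 := mul_le_mul_of_nonneg_left (m3.trans (add_le_add
      (mul_le_mul_of_nonneg_left m1 (by norm_num)) (mul_le_mul_of_nonneg_left m2 (by norm_num)))) a0
    have m5 := mul_le_mul_of_nonneg_right a1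
      (by positivity : 0 ≤ 8 * dv ^ 2 * Om y * ∑ j, curl w j y ^ 2)
    have m6 := mul_le_mul_of_nonneg_right a1
      (by positivity : 0 ≤ 2 * db ^ 2 * Om y ^ 2 * ∑ j, w j y ^ 2)
    rw [Fn.dot_self (curl w), Fn.dot_self w, show Op 2 y = Om y ^ 2 from Fn.op_nat 2 y]
    linarith
  have k2 : nw ou (vm3 B (curl w) - vm3 B1 (curl w)) ≤ cu * db ^ 2 * nw Om (curl w) := by
    unfold nw
    rw [← integral_const_mul]
    refine integral_mono_of_nonneg (wt.2.2.mono fun y hy => mul_nonneg hy (SkCert_dot_nn _ y))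
      (i1.const_mul _) ?_
    filter_upwards [wt.2.2, hu, h2] with y a0 a1 a3
    have hO := (Dyn.Om_pos y).le
    have p0 := sq_nn fun j => curl w j y
    rw [Finset.sum_comm] at a3
    have m2 := (mv_sq (fun j i => B i j y - B1 i j y) fun j => curl w j y).trans
      (mul_le_mul_of_nonneg_right a3 p0)
    have m4 := mul_le_mul_of_nonneg_left m2 a0
    have m5 := mul_le_mul_of_nonneg_right a1
      (by positivity : 0 ≤ db ^ 2 * Om y * ∑ j, curl w j y ^ 2)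
    simp only [Fn.dot_self, Pi.sub_apply, vm3, Fin.sum_univ_three] at m4 m5 ⊢
    linarith
  have k3 := mul_le_mul_of_nonneg_left (Dyn.global_hardy' hw).1
    (by positivity : 0 ≤ 2 * cv * db ^ 2)
  linarith

end Pool.Agent.Work.MP_6bf1e5_an.H.Ca
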