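import Pool.Agent.Work.MP_6bf1e5_an.H.FinL1

/-!
The two-sided bounds of the level one form from the Gram matrix of the test fields.
-/

open scoped ContDiff ENNReal FourierTransform Real
open Set MeasureTheory

namespace Pool.Agent.Work.MP_6bf1e5_an.H.Fn

open Dyn

variable {L : Lyap} {v : Vc}

theorem ip_lcθ (hL : L.Good) (hv : ∀ i, Hinf (v i)) (c : Fin L.r → ℝ) :
    ip v (lc c L.θ) = ∑ a, c a * ip v (L.θ a) :=
  ip_lc c fun a => int_dot2 hv (good_hinf hL a)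

theorem bes_of_gram (hL : L.Good) {cb : ℝ}
    (hG : ∀ t : Fin L.r → ℝ, nw (Op (-1)) (lc t L.θ) ≤ cb ^ 2 * ∑ a, t a ^ 2)
    (hv : ∀ i, Hinf (v i)) : ∑ a, ip v (L.θ a) ^ 2 ≤ cb ^ 2 * nw Om v := by
  have hN := nw_nonneg (Filter.Eventually.of_forall fun y => (Om_pos y).le) v
  have h1 := cs_v hv (θ := lc (fun a => ip v (L.θ a)) L.θ)
    fun i => bd_lc _ fun a => (good_sym hL a i).bd
  rw [ip_lcθ hL hv] at h1
  simp only [← sq] at h1
  have h2 := h1.trans (mul_le_mul_of_nonneg_left (hG _) hN)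
  have h3 : 0 ≤ ∑ a, ip v (L.θ a) ^ 2 := by positivity
  rcases h3.eq_or_lt with h4 | h4
  · rw [← h4]
    positivity
  · refine le_of_mul_le_mul_right ?_ h4
    linarith

/-- The coercivity from the Gram bound and two matrix inequalities. -/
theorem coer_of_gram (hL : L.Good) {cl cz ch cb p q : ℝ}
    (hG : ∀ t : Fin L.r → ℝ, nw (Op (-1)) (lc t L.θ) ≤ cb ^ 2 * ∑ a, t a ^ 2)
    (hp : 0 ≤ p) (hp' : cl + p * cb ^ 2 ≤ 1)
    (lo : ∀ g : Fin L.r → ℝ, 0 ≤ p * ∑ a, g a ^ 2 + ∑ a, (∑ b, L.F a b * g b) * g a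
      + (2 - cz) * ∑ i, (∑ a, L.Z i a * g a) ^ 2)
    (hq : 0 ≤ q) (hq' : 1 + q * cb ^ 2 ≤ ch ^ 2)
    (hi : ∀ g : Fin L.r → ℝ, ∑ a, (∑ b, L.F a b * g b) * g a
      + 2 * ∑ i, (∑ a, L.Z i a * g a) ^ 2 ≤ q * ∑ a, g a ^ 2) : L.Coer cl cz ch cb := by
  refine ⟨fun v hv => ?_, fun v hv => ?_, fun v hv => bes_of_gram hL hG hv⟩
  · have hN := nw_nonneg (Filter.Eventually.of_forall fun y => (Om_pos y).le) v
    have h1 := mul_le_mul_of_nonneg_left (bes_of_gram hL hG hv) hp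
    have h2 := lo fun a => ip v (L.θ a)
    have h3 := mul_le_mul_of_nonneg_right hp' hN
    simp only [Lyap.Xv, Lyap.zv, Lyap.θF, Lyap.θZ, ip_lcθ hL hv]
    linarith
  · have hN := nw_nonneg (Filter.Eventually.of_forall fun y => (Om_pos y).le) v
    have h1 := mul_le_mul_of_nonneg_left (bes_of_gram hL hG hv) hq
    have h2 := hi fun a => ip v (L.θ a)
    have h3 := mul_le_mul_of_nonneg_right hq' hN
    simp only [Lyap.Xv, Lyap.zv, Lyap.θF, Lyap.θZ, ip_lcθ hL hv]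
    linarith

/-- The upper bound from the Frobenius norms. -/
theorem hi_of_frob {r : ℕ} {F : Fin r → Fin r → ℝ} {Z : Fin 2 → Fin r → ℝ} {f z : ℝ} (hf : 0 ≤ f)
    (hF : ∑ a, ∑ b, F a b ^ 2 ≤ f ^ 2) (hZ : ∑ i, ∑ a, Z i a ^ 2 ≤ z) (g : Fin r → ℝ) :
    ∑ a, (∑ b, F a b * g b) * g a + 2 * ∑ i, (∑ a, Z i a * g a) ^ 2 ≤ (f + 2 * z) * ∑ a, g a ^ 2 := by
  have h0 : 0 ≤ ∑ a, g a ^ 2 := by positivity
  have h1 : ∑ i, (∑ a, Z i a * g a) ^ 2 ≤ z * ∑ a, g a ^ 2 := by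
    refine le_trans (Finset.sum_le_sum fun i _ => Finset.sum_mul_sq_le_sq_mul_sq _ _ _) ?_
    rw [← Finset.sum_mul]
    exact mul_le_mul_of_nonneg_right hZ h0
  have h2 : ∑ a, (∑ b, F a b * g b) ^ 2 ≤ f ^ 2 * ∑ a, g a ^ 2 := by
    refine le_trans (Finset.sum_le_sum fun i _ => Finset.sum_mul_sq_le_sq_mul_sq _ _ _) ?_
    rw [← Finset.sum_mul]
    exact mul_le_mul_of_nonneg_right hF h0
  have h3 := (Finset.sum_mul_sq_le_sq_mul_sq Finset.univ (fun a => ∑ b, F a b * g b) g).trans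
    (mul_le_mul_of_nonneg_right h2 h0)
  have h4 := (abs_le_of_sq_le_sq' (h3.trans_eq (show _ = (f * ∑ a, g a ^ 2) ^ 2 by ring))
    (by positivity)).2
  linarith

end Pool.Agent.Work.MP_6bf1e5_an.H.Fn
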