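import Pool.Agent.Work.MP_6bf1e5_an.H.FinTail

/-! The expansion of the finite form along the Galerkin splitting. -/

open scoped ContDiff ENNReal FourierTransform Real
open Set MeasureTheory

namespace Pool.Agent.Work.MP_6bf1e5_an.H.Fn

open Dyn

variable {L : Lyap} {T : Tab L} {n : ℕ} {p r θ : Vc}

theorem good_sym (hL : L.Good) (a : Fin L.r) (i : Fin 3) : Sym (-3) (L.θ a i) := hL.1 a i

theorem good_hinf (hL : L.Good) (a : Fin L.r) (i : Fin 3) : Hinf (L.θ a i) :=
  (good_sym hL a i).hinf (by norm_num)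

theorem ip_lc {ι : Type} [Fintype ι] (c : ι → ℝ) {a : ι → Vc} (h : ∀ j, Integrable (dot p (a j))) :
    ip p (lc c a) = ∑ j, c j * ip p (a j) := by
  have e : dot p (lc c a) = fun y => ∑ j, c j * dot p (a j) y := by
    funext y
    simp only [dot, lc, Finset.mul_sum]
    rw [Finset.sum_comm]
    simp only [mul_left_comm]
  rw [ip, e, integral_finsetSum _ fun j _ => (h j).const_mul _]
  simp only [integral_const_mul, ip]

theorem mom_lc (hL : L.Good) (hp : ∀ i, Hinf (p i)) (c : Fin L.r → ℝ) :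
    mom (lc c L.θ) p = ∑ a, c a * mom (L.θ a) p :=
  ip_lc c fun a => int_dot2 (hinf_curl hp) (good_hinf hL a)

/-- The finite rank form on vectors. -/
def FA {r : ℕ} (F : Fin r → Fin r → ℝ) (Z : Fin 2 → Fin r → ℝ) (μ μ' : ℝ) (g k : Fin r → ℝ) : ℝ :=
  ∑ a, (∑ b, F a b * g b) * k a
    - μ * (∑ a, (∑ b, F a b * g b) * g a + 2 * ∑ i, (∑ a, Z i a * g a) ^ 2)
    - μ' * ∑ i, (∑ a, Z i a * k a) ^ 2

theorem FF_eq (hL : L.Good) (hp : ∀ i, Hinf (p i)) :
    T.FF p = FA L.F L.Z T.μ T.μ' (fun a => mom (L.θ a) p) fun a => T.k a p := by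
  have e : L.zz p = ∑ i, mom (L.θZ i) p ^ 2 := rfl
  simp only [Tab.FF, FA, e, Lyap.θF, Lyap.θZ, mom_lc hL hp, Tab.kZ]

theorem sum_symm {r : ℕ} {F : Fin r → Fin r → ℝ} (hF : ∀ a b, F a b = F b a) (x z : Fin r → ℝ) :
    ∑ a, (∑ b, F a b * x b) * z a = ∑ a, (∑ b, F a b * z b) * x a := by
  simp only [Finset.sum_mul]
  rw [Finset.sum_comm]
  exact Finset.sum_congr rfl fun a _ => Finset.sum_congr rfl fun b _ => by rw [hF b a]; ring

theorem sum_tr {r : ℕ} (Z : Fin 2 → Fin r → ℝ) (c : Fin 2 → ℝ) (x : Fin r → ℝ) :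
    ∑ a, (∑ i, Z i a * c i) * x a = ∑ i, c i * ∑ a, Z i a * x a := by
  simp only [Finset.sum_mul, Finset.mul_sum]
  rw [Finset.sum_comm]
  exact Finset.sum_congr rfl fun a _ => Finset.sum_congr rfl fun b _ => by ring

theorem FA_add {r : ℕ} {F : Fin r → Fin r → ℝ} (hF : ∀ a b, F a b = F b a) (Z : Fin 2 → Fin r → ℝ)
    (μ μ' : ℝ) (g k α β : Fin r → ℝ) :
    FA F Z μ μ' (fun a => g a + α a) (fun a => k a + β a) = FA F Z μ μ' g k + FA F Z μ μ' α β
      + ∑ a, (∑ b, F a b * g b - 2 * μ' * ∑ i, Z i a * ∑ b, Z i b * k b) * β a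
      + ∑ a, (∑ b, F a b * k b
        - 2 * μ * (∑ b, F a b * g b + 2 * ∑ i, Z i a * ∑ b, Z i b * g b)) * α a := by
  have h1 := sum_symm hF α k
  have h2 := sum_symm hF α g
  have h3 := sum_tr Z (fun i => ∑ b, Z i b * k b) β
  have h4 := sum_tr Z (fun i => ∑ b, Z i b * g b) α
  simp only [FA, mul_add, add_mul, sub_mul, mul_assoc, Finset.sum_add_distrib,
    Finset.sum_sub_distrib, ← Finset.mul_sum, Fin.sum_univ_two] at h1 h2 h3 h4 ⊢
  rw [h1, h2]
  linear_combination (2 * μ') * h3 + (4 * μ) * h4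

theorem bd_Om2 {k : ℝ} (h : -4 ≤ k) : Bd k fun y => Om y ^ 2 := by
  simp only [sq]
  exact bd_mul (bd_Om le_rfl) (bd_Om le_rfl) (by linarith)

/-- The matrix inequality, integrated on a tail. -/
theorem lmi_int {W G P : Sc} (hg : Gain n W G P) {V B : Mc}
    {mv mu : Sc} (hV : ∀ i j, Bd 0 (V i j)) (hB : ∀ i j, Bd 0 (B i j)) (hmv : Bd 0 mv)
    (hmu : Bd 0 mu) (h : LMI V B W G P mv mu) (hr : Adm r)
    (hp : ∀ i, Perp (9 / 4) (n + 1) (r i)) :
    nw mv (curl r) + nw mu r ≤ (∫ y, bf V (curl r) (curl r) y) + ∫ y, bf B (curl r) r y := by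
  have hq := hinf_curl hr.hinf
  have i1 := int_nw hmv hq
  have i2 := int_nw hmu hr.hinf
  have i3 := int_bf hV le_rfl hq hq
  have i4 := int_nw hg.bW hq
  have i5 := int_bf hB le_rfl hq hr.hinf
  have i6 := int_rt hg.bG hr.hinf hq
  have i7 := int_nw hg.bP hr.hinf
  have j1 : Integrable fun y => bf V (curl r) (curl r) y
      - W y * dot (curl r) (curl r) y := i3.sub i4
  have j2 : Integrable fun y => bf V (curl r) (curl r) y
      - W y * dot (curl r) (curl r) y + bf B (curl r) r y := j1.add i5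
  have j3 : Integrable fun y => bf V (curl r) (curl r) y
      - W y * dot (curl r) (curl r) y + bf B (curl r) r y
      + dot (curl r) (sm G (cross pos r)) y := j2.add i6
  have key : ∫ y, mv y * dot (curl r) (curl r) y + mu y * dot r r y ≤
      ∫ y, bf V (curl r) (curl r) y - W y * dot (curl r) (curl r) y + bf B (curl r) r y
        + dot (curl r) (sm G (cross pos r)) y + P y * dot r r y := by
    refine integral_mono_ae (i1.add i2) (j3.add i7) (h.mono fun y hy => ?_)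
    have e : dot (curl r) (sm G (cross pos r)) y = G y *
        ∑ i, curl r i y * (y (i + 1) * r (i + 2) y - y (i + 2) * r (i + 1) y) := by
      simp only [dot, sm, cross, pos, Fin.sum_univ_three]
      ring
    simp only [e, dot_self]
    exact hy (fun i => curl r i y) fun i => r i y
  rw [integral_add i1 i2, integral_add j3 i7, integral_add j2 i6, integral_add j1 i5,
    integral_sub i3 i4] at key
  have t := hg.le r hr hp
  simp only [nw, ip] at t ⊢
  linarith

/-- The dissipation of a tail does not see the low test fields. -/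
theorem lam_perp (hn : 1 ≤ n) (hr : ∀ i, Hinf (r i)) (hp : ∀ i, Perp (9 / 4) n (r i))
    (hθ : ∀ i, Hinf (θ i)) (ht : Test (3 / 4) n θ) : ip (LamV r) θ = 0 := by
  rw [ip_eq (V := LamV r) (fun i => hinf_lam (hr i)) hθ]
  refine Finset.sum_eq_zero fun i _ => ?_
  obtain ⟨g, hg, e⟩ := ht i
  obtain ⟨g', hg', e'⟩ := hg.lam
  have h1 := Dp_symm (hr i) (hθ i) (s := 3 / 2) (by norm_num)
  have h2 : Dp (3 / 2) (θ i) = Op (9 / 4) * g' := by
    rw [e]
    exact e'
  rw [h2] at h1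
  exact h1.trans (hp i (n - 1) (by omega) g' hg')

theorem curl_add (hp : ∀ i, Hinf (p i)) (hr : ∀ i, Hinf (r i)) :
    curl (p + r) = curl p + curl r := by
  funext i y
  have e : ∀ j k, pd j (p k + r k) = fun y => pd j (p k) y + pd j (r k) y := fun j k =>
    pd_add (hp k).1 (hr k).1 j
  simp only [curl, e, Pi.add_apply]
  ring

theorem lamV_add (hp : ∀ i, Hinf (p i)) (hr : ∀ i, Hinf (r i)) :
    LamV (p + r) = LamV p + LamV r := by
  funext i
  exact Dp_add (hp i).inA (hr i).inA (by norm_num)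

theorem mom_add (hp : ∀ i, Hinf (p i)) (hr : ∀ i, Hinf (r i)) (hθ : ∀ i, Hinf (θ i)) :
    mom θ (p + r) = mom θ p + ip (curl r) θ := by
  rw [mom, mom, curl_add hp hr,
    ip_add_left (int_dot2 (hinf_curl hp) hθ) (int_dot2 (hinf_curl hr) hθ)]

theorem k_add (hL : L.Good) (bP : ∀ a i, Bd (-3) (T.P a i)) (bQ : ∀ a i, Bd (-4) (T.Q a i))
    (hp : ∀ i, Hinf (p i)) (hr : ∀ i, Hinf (r i)) (a : Fin L.r)
    (h0 : ip (LamV (curl r)) (L.θ a) = 0) :
    T.k a (p + r) = T.k a p + (ip (curl r) (T.P a) + ip r (T.Q a)) := by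
  have hθ := good_hinf hL a
  have hp' := hinf_curl hp
  have hr' := hinf_curl hr
  rw [Tab.k, Tab.k, curl_add hp hr, lamV_add hp' hr',
    ip_add_left (int_dot2 (q := LamV _) (fun i => hinf_lam (hp' i)) hθ)
      (int_dot2 (q := LamV _) (fun i => hinf_lam (hr' i)) hθ), h0,
    ip_add_left (int_dot hp' (bP a) (by norm_num)) (int_dot hr' (bP a) (by norm_num)),
    ip_add_left (int_dot hp (bQ a) (by norm_num)) (int_dot hr (bQ a) (by norm_num))]
  ring

theorem ip_hV (hL : L.Good) (bV : ∀ i j, Bd 0 (T.V i j)) (bB : ∀ i j, Bd 0 (T.B i j))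
    (bP : ∀ a i, Bd (-3) (T.P a i)) (hp : ∀ i, Hinf (p i)) (hr : ∀ i, Hinf (r i)) :
    ip r (T.hV p) = 2 * (∫ y, bf T.V r (curl p) y) + (∫ y, bf T.B r p y)
      + ∑ a, (T.ca a p * ip r (T.P a) + T.cb a p * ip r (L.θ a)) := by
  have i1 := (int_bf bV le_rfl hr (hinf_curl hp)).const_mul 2
  have i2 := int_bf bB le_rfl hr hp
  have i3 := fun a => (int_dot hr (bP a) (by norm_num)).const_mul (T.ca a p)
  have i4 := fun a => (int_dot2 hr (good_hinf hL a)).const_mul (T.cb a p)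
  have i5 : ∀ a, Integrable fun y => T.ca a p * dot r (T.P a) y + T.cb a p * dot r (L.θ a) y :=
    fun a => (i3 a).add (i4 a)
  have i6 : Integrable fun y => 2 * bf T.V r (curl p) y + bf T.B r p y := i1.add i2
  have e : dot r (T.hV p) = fun y => 2 * bf T.V r (curl p) y + bf T.B r p y
      + ∑ a, (T.ca a p * dot r (T.P a) y + T.cb a p * dot r (L.θ a) y) := by
    funext y
    simp only [dot, Tab.hV, bf, mv3, Fin.sum_univ_three, mul_add, Finset.mul_sum,
      Finset.sum_add_distrib]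
    simp only [mul_left_comm]
    ring
  rw [ip, e, integral_add i6 (integrable_finsetSum _ fun a _ => i5 a), integral_add i1 i2,
    integral_const_mul, integral_finsetSum _ fun a _ => i5 a]
  congr 1
  refine Finset.sum_congr rfl fun a _ => ?_
  rw [integral_add (i3 a) (i4 a), integral_const_mul, integral_const_mul, ip, ip]

theorem ip_hU (bB : ∀ i j, Bd 0 (T.B i j)) (bQ : ∀ a i, Bd (-4) (T.Q a i))
    (hp : ∀ i, Hinf (p i)) (hr : ∀ i, Hinf (r i)) :
    ip r (T.hU p) = (∫ y, bf T.B (curl p) r y) + ∑ a, T.ca a p * ip r (T.Q a) := by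
  have i2 := int_bf bB le_rfl (hinf_curl hp) hr
  have i3 := fun a => (int_dot hr (bQ a) (by norm_num)).const_mul (T.ca a p)
  have e : dot r (T.hU p) = fun y => bf T.B (curl p) r y + ∑ a, T.ca a p * dot r (T.Q a) y := by
    funext y
    simp only [dot, Tab.hU, bf, vm3, Fin.sum_univ_three, mul_add, Finset.mul_sum,
      Finset.sum_add_distrib]
    simp only [mul_left_comm]
    ring
  rw [ip, e, integral_add i2 (integrable_finsetSum _ fun a _ => i3 a),
    integral_finsetSum _ fun a _ => i3 a]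
  simp only [integral_const_mul, ip]

/-- The expansion of the form. -/
theorem M0_add (hL : L.Good) (bV : ∀ i j, Bd 0 (T.V i j)) (sV : ∀ i j, T.V i j = T.V j i)
    (bB : ∀ i j, Bd 0 (T.B i j)) (bP : ∀ a i, Bd (-3) (T.P a i)) (bQ : ∀ a i, Bd (-4) (T.Q a i))
    (hp : ∀ i, Hinf (p i)) (hr : ∀ i, Hinf (r i))
    (h0 : ∀ a, ip (LamV (curl r)) (L.θ a) = 0) (Yw : ℕ → Vc) :
    T.M0 (p + r) Yw = T.M0 p Yw + (ip (curl r) (T.hV p) + ip r (T.hU p))
      + ((∫ y, bf T.V (curl r) (curl r) y) + (∫ y, bf T.B (curl r) r y) + T.FF r) := by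
  have hp' := hinf_curl hp
  have hr' := hinf_curl hr
  have hv : ∀ i, Hinf ((curl p + curl r) i) := fun i => (hp' i).add (hr' i)
  have hw : ∀ i, Hinf ((p + r) i) := fun i => (hp i).add (hr i)
  have e1 : ∫ y, bf T.V (curl p) (curl r) y = ∫ y, bf T.V (curl r) (curl p) y := by
    rw [bf_symm sV]
  have e2 : ∀ a, T.k a r = ip (curl r) (T.P a) + ip r (T.Q a) := fun a => by
    rw [Tab.k, h0, mul_zero, zero_add]
  have e3 : ∀ a, mom (L.θ a) r = ip (curl r) (L.θ a) := fun _ => rfl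
  rw [Tab.M0, Tab.M0, ip_hV hL bV bB bP hp hr', ip_hU bB bQ hp hr, FF_eq hL hw, FF_eq hL hp,
    FF_eq hL hr]
  simp only [mom_add hp hr (good_hinf hL _), fun a => k_add hL bP bQ hp hr a (h0 a), e2, e3]
  rw [FA_add hL.2.1, curl_add hp hr,
    bf_add_left (int_bf bV le_rfl hp' hv) (int_bf bV le_rfl hr' hv),
    bf_add_right (int_bf bV le_rfl hp' hp') (int_bf bV le_rfl hp' hr'),
    bf_add_right (int_bf bV le_rfl hr' hp') (int_bf bV le_rfl hr' hr'),
    bf_add_left (int_bf bB le_rfl hp' hw) (int_bf bB le_rfl hr' hw),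
    bf_add_right (int_bf bB le_rfl hp' hp) (int_bf bB le_rfl hp' hr),
    bf_add_right (int_bf bB le_rfl hr' hp) (int_bf bB le_rfl hr' hr), e1]
  simp only [Tab.ca, Tab.cb, Tab.kZ, Lyap.θF, Lyap.θZ, mom_lc hL hp, mul_add (_ - _),
    Finset.sum_add_distrib]
  ring

end Pool.Agent.Work.MP_6bf1e5_an.H.Fn
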