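import Pool.Agent.Work.MP_6bf1e5_an.H.CertPsd
import Pool.Agent.Work.MP_6bf1e5_an.H.FinExp

/-! The field `psd` of `Fin2` from the results of the passes. -/

open scoped ContDiff ENNReal FourierTransform Real
open Set MeasureTheory

namespace Pool.Agent.Work.MP_6bf1e5_an.H.Ca

variable {ι κ S J I : Type} [Fintype ι] [Fintype κ] [Fintype S] [Fintype J] [Fintype I]
  [DecidableEq ι] {L : Lyap} {T : Tab L} {ov ou : Sc} {u : ι → Vc} {Y : ι → ℕ → Vc}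
  {ϑ ϑ' : κ → Vc} {om om' : S → Vc} {bg : S → Fin L.r} {bs : S → ℝ} {g τ : ℝ}

noncomputable section

/-- The selection matrix of a map. -/
def sel (lo : J → ι) (a : J) (j : ι) : ℝ := if lo a = j then 1 else 0

/-- The weight of the doubled upper triangle. -/
def wo (o : J → ℕ) (j k : J) : ℝ := if o j < o k then 2 else if o j = o k then 1 else 0

def Fh (L : Lyap) (a b : Fin L.r) : ℝ := L.F a b + 2 * ∑ i, L.Z i a * L.Z i b

/-- The approximate coefficients of the pairs `(P a, Q a)`. -/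
def Xt (T : Tab L) (lo : Fin L.r → ι) (KZ : Fin 2 → ι → ℝ) (a : Fin L.r) (j : ι) : ℝ :=
  ∑ b, L.F a b * sel lo b j - 2 * T.μ' * ∑ i, L.Z i a * KZ i j

/-- The pairing of the local pair of a mode with a pair. -/
def p0 (T : Tab L) (ov ou : Sc) (w η η' : Vc) : ℝ := pr ov ou (T.hV0 w) (T.hU0 w) η η'

/-- The pairing of the pair of a functional with a pair. -/
def pP (T : Tab L) (ov ou : Sc) (a : Fin L.r) (η η' : Vc) : ℝ := pr ov ou (T.P a) (T.Q a) η η'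

end

/-- The families: modes `u`, tests `(ϑ, ϑ')`, and the pairs `(om, om')` for the big members. -/
structure Fam (T : Tab L) (u : ι → Vc) (Y : ι → ℕ → Vc) (ov ou : Sc) (ϑ ϑ' : κ → Vc)
    (om om' : S → Vc) (bg : S → Fin L.r) (bs : S → ℝ) (g τ : ℝ) : Prop where
  good : L.Good
  bV : ∀ i j, Bd (-2) (T.V i j)
  bB : ∀ i j, Bd (-3) (T.B i j)
  bP : ∀ a i, Bd (-3) (T.P a i)
  bQ : ∀ a i, Bd (-4) (T.Q a i)
  gal : Gal T.n u Y
  wt : Wt ov ou
  null : ∀ b, Null T.n (ϑ b) (ϑ' b)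
  pom : ∀ s, Pb (om s) (om' s)
  inj : Function.Injective bg
  big : ∀ s, Null T.n (fun i y => bs s * om s i y - L.θ (bg s) i y) fun i y => bs s * om' s i y
  small : ∃ e : Fin L.r → ℝ, (∀ a, 0 ≤ e a) ∧ ∑ a, e a ≤ τ ∧
    ∀ a, (∀ s, bg s ≠ a) → TL T.n ov ou (L.θ a) 0 (e a)
  gram : ∀ t : κ ⊕ S → ℝ,
    nw ov (lc t (Sum.elim ϑ om)) + nw ou (lc t (Sum.elim ϑ' om')) ≤ g * ∑ b, t b ^ 2

/-- The data matrices. `Lt` and `Qt` may be computed or true values. -/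
structure Lit (L : Lyap) (ι κ S I : Type) where
  lo : Fin L.r → ι
  o : ι → ℕ
  o' : Fin L.r → ℕ
  KZ : Fin 2 → ι → ℝ
  Yt : S → ι → ℝ
  Th : κ → ι → ℝ
  Wt : S → ι → ℝ
  U : Fin L.r → Fin L.r → ℝ
  Lt : Fin L.r → ι → ℝ
  Qt : ι → ι → ℝ
  Dt : ι → ι → ℝ
  R : I → ι → ℝ
  Sk : ι → ι → ℝ

/-- The bounds and the parameters; `x = 4 sp` and `z = 1 + s`. -/
structure Tol where
  (s σ σ' ρ g' sh : ℝ)
  (f nZ nU nX nK b : ℝ)
  (dG dZ dY dT dW dU dL dD dM : ℝ)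

/-- The matrix that vanishes nearly in the last pass. -/
noncomputable def Lit.M (D : Lit L ι κ S I) (T : Tab L) (x z ρ g' sh : ℝ) (j k : ι) : ℝ :=
  wo D.o j k * (D.Qt j k + x * T.ν * D.Dt j k + z * ρ * ∑ b, D.Th b j * D.Th b k
      - ∑ r, D.R r j * D.R r k - if j = k then sh else 0)
    + ∑ a, (D.Lt a j - z * ∑ b, Xt T D.lo D.KZ b j * D.U b a) * Xt T D.lo D.KZ a k
    - z * ∑ s, D.Yt s j * (2 * D.Wt s k + g' * D.Yt s k)
    - x * T.μ * ∑ a, sel D.lo a j * ∑ b, Fh L a b * sel D.lo b k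
    + x * T.μ' * ∑ i, D.KZ i j * D.KZ i k - D.Sk j k

/-- The results of the passes. -/
structure Pass (T : Tab L) (u : ι → Vc) (Y : ι → ℕ → Vc) (ov ou : Sc) (ϑ ϑ' : κ → Vc)
    (om om' : S → Vc) (bg : S → Fin L.r) (bs : S → ℝ) (D : Lit L ι κ S I) (sp : ℝ) (t : Tol) :
    Prop where
  lo : Function.Injective D.lo
  sk : ∀ j k, D.Sk j k = -D.Sk k j
  nF : Nm L.F t.f
  nZ : Nm L.Z t.nZ
  nU : Nm D.U t.nU
  nX : Nm (Xt T D.lo D.KZ) t.nX
  nK : Nm (fun a j => T.k a (u j)) t.nK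
  nb : 0 ≤ t.b ∧ ∀ s, |bs s| ≤ t.b
  hG : Nm (fun a j => mom (L.θ a) (u j) - sel D.lo a j) t.dG
  hZ : Nm (fun i j => ∑ a, L.Z i a * T.k a (u j) - D.KZ i j) t.dZ
  hY : Nm (fun s j => bs s * (∑ a, L.F (bg s) a * T.k a (u j)
    - 2 * T.μ * ∑ a, Fh L (bg s) a * sel D.lo a j) - D.Yt s j) t.dY
  hT : Nm (fun b j => p0 T ov ou (u j) (ϑ b) (ϑ' b)
    + ∑ a, pP T ov ou a (ϑ b) (ϑ' b) * Xt T D.lo D.KZ a j - D.Th b j) t.dT
  hW : Nm (fun s j => p0 T ov ou (u j) (om s) (om' s)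
    + ∑ a, pP T ov ou a (om s) (om' s) * Xt T D.lo D.KZ a j - D.Wt s j) t.dW
  hU : Nm (fun a b => wo D.o' a b * pP T ov ou a (T.P b) (T.Q b) - D.U a b) t.dU
  hL : Nm (fun a j => 4 * sp * T.k a (u j)
    - 2 * (1 + t.s) * p0 T ov ou (u j) (T.P a) (T.Q a) - D.Lt a j) t.dL
  sQ : ∀ j k, D.Qt j k = D.Qt k j
  hQ : ∀ c : ι → ℝ, ∑ j, ∑ k, D.Qt j k * (c j * c k) ≤ 4 * sp *
    ((∫ y, bf T.V (curl (lc c u)) (curl (lc c u)) y) + ∫ y, bf T.B (curl (lc c u)) (lc c u) y)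
      - (1 + t.s) * (nw ov (T.hV0 (lc c u)) + nw ou (T.hU0 (lc c u)))
  hD : Nm (fun j k => wo D.o j k * D.Dt j k - mD T.n (Y j) (Y k)) t.dD
  hM : Nm (D.M T (4 * sp) (1 + t.s) t.ρ t.g' t.sh) t.dM

/-- The scalar conditions. -/
def Tol.Ok (t : Tol) (sp ν μ μ' g τ : ℝ) : Prop :=
  (0 ≤ sp ∧ 0 ≤ ν ∧ 0 ≤ μ ∧ 0 ≤ μ' ∧ 0 ≤ g) ∧ (0 < t.s ∧ 0 < t.σ ∧ 0 < t.σ') ∧
  t.ρ ≤ 2 - g - t.σ ∧ g + t.σ' ≤ t.g' ∧
  t.dM + t.dL * t.nX + (1 + t.s) * (t.dU * t.nX ^ 2 + t.dT ^ 2 / t.σ + t.dW ^ 2 / t.σ')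
    + 4 * sp * (ν * t.dD + t.f * t.dG * t.nK + μ * ((t.f + 2 * t.nZ ^ 2) * t.dG * (2 + t.dG))
      + μ' * t.dZ ^ 2)
    + (1 + 1 / t.s) * (3 * ((t.nU + t.dU) * (t.f * t.dG + 2 * μ' * (t.nZ * t.dZ)) ^ 2
      + g * (t.dY + 2 * μ * (t.b * ((t.f + 2 * t.nZ ^ 2) * t.dG))) ^ 2
      + τ * (t.f * t.nK + 2 * μ * ((t.f + 2 * t.nZ ^ 2) * (1 + t.dG))) ^ 2)) ≤ t.sh

theorem form_wo {M : J → J → ℝ} (hs : ∀ j k, M j k = M k j) (o : J → ℕ) (c : J → ℝ) :
    ∑ j, ∑ k, wo o j k * M j k * (c j * c k) = ∑ j, ∑ k, M j k * (c j * c k) := by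
  rw [← form_symm]
  refine Finset.sum_congr rfl fun j _ => Finset.sum_congr rfl fun k _ => ?_
  rw [hs k j, wo, wo]
  split_ifs <;> first | omega | ring

theorem form_skew {M : J → J → ℝ} (hs : ∀ j k, M j k = -M k j) (c : J → ℝ) :
    ∑ j, ∑ k, M j k * (c j * c k) = 0 := by
  rw [← form_symm]
  exact Finset.sum_eq_zero fun j _ => Finset.sum_eq_zero fun k _ => by rw [hs j k]; ring

omit [DecidableEq ι] in
theorem form_rows (A B : J → ι → ℝ) (c : ι → ℝ) : ∑ j, ∑ k, (∑ a, A a j * B a k) * (c j * c k) =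
    ∑ a, (∑ j, A a j * c j) * ∑ j, B a j * c j := by
  simp only [← form_mul]
  simp only [Finset.sum_mul]
  exact (Finset.sum_congr rfl fun j _ => Finset.sum_comm).trans Finset.sum_comm

omit [Fintype J] in
theorem sel_vec (lo : J → ι) (a : J) (c : ι → ℝ) : ∑ j, sel lo a j * c j = c (lo a) := by
  simp [sel]

theorem nm_sel {lo : J → ι} (h : Function.Injective lo) {e : J → ℝ} {b : ℝ} (hb : 0 ≤ b)
    (he : ∀ a, |e a| ≤ b) : Nm (fun a j => e a * sel lo a j) b := ⟨hb, fun c => by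
  simp only [mul_assoc, ← Finset.mul_sum, sel_vec, mul_pow]
  refine (Finset.sum_le_sum fun a _ => mul_le_mul_of_nonneg_right (sq_le_sq' (abs_le.1 (he a)).1
    (abs_le.1 (he a)).2) (sq_nonneg _)).trans ?_
  rw [← Finset.mul_sum, ← Finset.sum_image (f := fun j => c j ^ 2) fun _ _ _ _ k => h k]
  exact mul_le_mul_of_nonneg_left (Finset.sum_le_univ_sum_of_nonneg fun _ => sq_nonneg _)
    (sq_nonneg _)⟩

theorem nm_Fh {f z : ℝ} (h : Nm L.F f) (h' : Nm L.Z z) : Nm (Fh L) (f + 2 * z ^ 2) :=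
  (h.add ((h'.tr.mul h').smul 2)).mono (le_of_eq (by rw [abs_two, sq]))

theorem Fh_vec (x : Fin L.r → ℝ) (a : Fin L.r) : ∑ b, Fh L a b * x b =
    ∑ b, L.F a b * x b + 2 * ∑ i, L.Z i a * ∑ b, L.Z i b * x b := by
  simp only [Fh, add_mul, Finset.sum_add_distrib, mul_assoc, ← Finset.mul_sum, mul_vec]

theorem FA_ge {μ μ' x1 x2 x3 x4 : ℝ} (hμ : 0 ≤ μ) (hμ' : 0 ≤ μ') {q k e : Fin L.r → ℝ}
    {r : Fin 2 → ℝ} (b1 : |∑ a, (∑ b, L.F a b * (q b - e b)) * k a| ≤ x1)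
    (b2 : |∑ a, (q a - e a) * ∑ b, Fh L a b * q b| ≤ x2)
    (b3 : |∑ a, e a * ∑ b, Fh L a b * (q b - e b)| ≤ x3)
    (b4 : ∑ i, (∑ a, L.Z i a * k a - r i) ^ 2 ≤ x4) :
    ∑ a, (∑ b, L.F a b * e b - 2 * μ' * ∑ i, L.Z i a * r i) * k a + μ' * ∑ i, r i * r i
      - μ * ∑ a, e a * ∑ b, Fh L a b * e b - (x1 + μ * (x2 + x3) + μ' * x4)
      ≤ Fn.FA L.F L.Z μ μ' q k := by
  have e1 : ∑ a, q a * ∑ b, Fh L a b * q b =
      ∑ a, (∑ b, L.F a b * q b) * q a + 2 * ∑ i, (∑ a, L.Z i a * q a) ^ 2 := by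
    simp only [Fh_vec, mul_comm (q _)]
    simp only [add_mul, Finset.sum_add_distrib, mul_assoc (2 : ℝ), ← Finset.mul_sum, Fn.sum_tr, sq]
  have c1 := (abs_le.1 b1).1
  have c2 := mul_le_mul_of_nonneg_left (add_le_add (abs_le.1 b2).2 (abs_le.1 b3).2) hμ
  have c4 := mul_le_mul_of_nonneg_left b4 hμ'
  simp only [mul_sub, sub_mul, Finset.sum_sub_distrib] at c1 c2
  simp only [Fn.FA, ← e1, sub_mul, Finset.sum_sub_distrib, mul_assoc (2 * μ'), ← Finset.mul_sum,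
    Fn.sum_tr]
  simp only [Fin.sum_univ_two] at c4 ⊢
  linarith

theorem Lit.form (D : Lit L ι κ S I) (hQ : ∀ j k, D.Qt j k = D.Qt k j)
    (hS : ∀ j k, D.Sk j k = -D.Sk k j) (x z ρ g' sh : ℝ) (c : ι → ℝ) :
    ∑ j, ∑ k, D.M T x z ρ g' sh j k * (c j * c k) = ∑ j, ∑ k, D.Qt j k * (c j * c k)
      + x * T.ν * ∑ j, ∑ k, wo D.o j k * D.Dt j k * (c j * c k)
      + z * ρ * ∑ b, (∑ j, D.Th b j * c j) ^ 2 - ∑ r, (∑ j, D.R r j * c j) ^ 2 - sh * ∑ j, c j ^ 2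
      + ∑ a, (∑ j, D.Lt a j * c j) * ∑ j, Xt T D.lo D.KZ a j * c j
      - z * ∑ a, ∑ b, D.U a b * ((∑ j, Xt T D.lo D.KZ a j * c j) * ∑ j, Xt T D.lo D.KZ b j * c j)
      - z * ∑ s, (∑ j, D.Yt s j * c j) * (2 * ∑ j, D.Wt s j * c j + g' * ∑ j, D.Yt s j * c j)
      - x * T.μ * ∑ a, c (D.lo a) * ∑ b, Fh L a b * c (D.lo b)
      + x * T.μ' * ∑ i, (∑ j, D.KZ i j * c j) * ∑ j, D.KZ i j * c j := by
  have e1 := form_wo (M := fun j k => D.Qt j k + z * ρ * ∑ b, D.Th b j * D.Th b k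
    - ∑ r, D.R r j * D.R r k - if j = k then sh else 0) (fun j k => by
      simp only [hQ j k, mul_comm (D.Th _ j), mul_comm (D.R _ j), eq_comm]) D.o c
  have e2 : ∑ j, ∑ k, (if j = k then sh else 0) * (c j * c k) = sh * ∑ j, c j ^ 2 := by
    simp [Finset.mul_sum, sq]
  have e3 : ∀ j k, D.M T x z ρ g' sh j k * (c j * c k) = wo D.o j k * (D.Qt j k
      + z * ρ * ∑ b, D.Th b j * D.Th b k - ∑ r, D.R r j * D.R r k - if j = k then sh else 0)
      * (c j * c k) + x * T.ν * (wo D.o j k * D.Dt j k * (c j * c k))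
      + (∑ a, (D.Lt a j - z * ∑ b, Xt T D.lo D.KZ b j * D.U b a) * Xt T D.lo D.KZ a k) * (c j * c k)
      - z * ((∑ s, D.Yt s j * (2 * D.Wt s k + g' * D.Yt s k)) * (c j * c k))
      - x * T.μ * ((∑ a, sel D.lo a j * ∑ b, Fh L a b * sel D.lo b k) * (c j * c k))
      + x * T.μ' * ((∑ i, D.KZ i j * D.KZ i k) * (c j * c k)) - D.Sk j k * (c j * c k) :=
    fun j k => by
      rw [Lit.M]
      ring
  have e4 : ∑ a, (∑ j, (∑ b, Xt T D.lo D.KZ b j * D.U b a) * c j) * ∑ j, Xt T D.lo D.KZ a j * c j =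
      ∑ a, ∑ b, D.U a b * ((∑ j, Xt T D.lo D.KZ a j * c j) * ∑ j, Xt T D.lo D.KZ b j * c j) := by
    simp only [mul_comm (Xt T D.lo D.KZ _ _) (D.U _ _), mul_vec]
    rw [Finset.sum_comm]
    simp only [Finset.sum_mul _ _ (Finset.sum _ _), mul_assoc]
  simp only [add_mul, sub_mul, Finset.sum_add_distrib, Finset.sum_sub_distrib, mul_assoc (z * ρ),
    ← Finset.mul_sum _ _ (z * ρ), form_gram, e2] at e1
  simp only [e3, Finset.sum_add_distrib, Finset.sum_sub_distrib, ← Finset.mul_sum, e1, form_rows,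
    form_skew hS]
  simp only [add_mul, sub_mul, Finset.sum_add_distrib, Finset.sum_sub_distrib,
    mul_assoc z, mul_assoc (2 : ℝ), mul_assoc g', ← Finset.mul_sum, e4, mul_vec, sel_vec]
  ring

theorem lc_neg (t : J → ℝ) (v : J → Vc) : lc (fun j => -t j) v = -lc t v := by
  funext i y
  simp [lc]

theorem nw_exp {a a' : Vc} {v v' : J → Vc} (w : Wt ov ou) (ka : Pb a a') (kv : ∀ b, Pb (v b) (v' b))
    (t : J → ℝ) : nw ov (a + lc t v) + nw ou (a' + lc t v') = nw ov a + nw ou a'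
      + 2 * ∑ b, t b * pr ov ou a a' (v b) (v' b) + (nw ov (lc t v) + nw ou (lc t v')) := by
  have e1 := SkCert_exp w.1.1 (by norm_num) ka.1 (fun b => (kv b).1) fun j => -t j
  have e2 := SkCert_exp w.2.1 (by norm_num) ka.2 (fun b => (kv b).2) fun j => -t j
  simp only [lc_neg, sub_neg_eq_add, Fn.nw_neg, neg_mul, Finset.sum_neg_distrib] at e1 e2
  simp only [e1, e2, pr, mul_add, Finset.sum_add_distrib]
  ring

theorem TL.three {n : ℕ} (w : Wt ov ou) {a1 a2 a3 b1 b2 b3 : Vc} {x1 x2 x3 : ℝ} (p1 : Pb a1 b1)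
    (p2 : Pb a2 b2) (p3 : Pb a3 b3) (k1 : TL n ov ou a1 b1 x1) (k2 : TL n ov ou a2 b2 x2)
    (k3 : TL n ov ou a3 b3 x3) : TL n ov ou (a1 + (a2 + a3)) (b1 + (b2 + b3)) (3 * (x1 + x2 + x3)) :=
  (k1.add w p1 (p2.add p3) (k2.add w p2 p3 k3 one_pos) two_pos).mono (le_of_eq (by ring))

namespace Fam

variable (h : Fam T u Y ov ou ϑ ϑ' om om' bg bs g τ)

include h

omit [DecidableEq ι]

theorem pP (a : Fin L.r) : Pb (T.P a) (T.Q a) := ⟨h.bP a, h.bQ a⟩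

theorem pθ (a : Fin L.r) : Pb (L.θ a) 0 := pb_left fun i => (h.good.1 a i).bd

theorem p0 (j : ι) : Pb (T.hV0 (u j)) (T.hU0 (u j)) := pb_mode h.bV h.bB (h.gal.sym j)

theorem gram1 (t : κ → ℝ) : nw ov (lc t ϑ) + nw ou (lc t ϑ') ≤ g * ∑ b, t b ^ 2 := by
  have := h.gram (Sum.elim t fun _ => 0)
  simpa [lc_elim, show ∀ v : S → Vc, lc (fun _ => 0) v = 0 from fun v => by funext i y; simp [lc]]
    using this

theorem gram2 (t : S → ℝ) : nw ov (lc t om) + nw ou (lc t om') ≤ g * ∑ b, t b ^ 2 := by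
  have := h.gram (Sum.elim (fun _ => 0) t)
  simpa [lc_elim, show ∀ v : κ → Vc, lc (fun _ => 0) v = 0 from fun v => by funext i y; simp [lc]]
    using this

theorem main {a a' : Vc} (ka : Pb a a') {t : κ → ℝ} (y : S → ℝ) {r : S → ℝ} {σ σ' ρ g' d d' : ℝ}
    (hσ : 0 < σ) (hσ' : 0 < σ') (hρ : ρ ≤ 2 - g - σ) (hg : g + σ' ≤ g')
    (hd : ∑ b, (pr ov ou a a' (ϑ b) (ϑ' b) - t b) ^ 2 ≤ d)
    (hd' : ∑ s, (pr ov ou a a' (om s) (om' s) - r s) ^ 2 ≤ d') :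
    TL T.n ov ou (a + lc y om) (a' + lc y om') (nw ov a + nw ou a' - ρ * ∑ b, t b ^ 2 + d / σ
      + ∑ s, y s * (2 * r s + g' * y s) + d' / σ') := by
  refine ⟨_, _, Null.lc t h.null, ?_⟩
  have e : ∀ (a : Vc) (v : κ → Vc) (v' : S → Vc), a + lc y v' - lc t v =
      a + lc (Sum.elim (fun b => -t b) y) (Sum.elim v v') := fun a v v' => by
    rw [lc_elim, lc_neg]
    abel
  have k1 := h.gram (Sum.elim (fun b => -t b) y)
  have k2 := Finset.sum_le_sum (s := Finset.univ) fun b _ =>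
    proj_ge (g := g) hσ (t b) (pr ov ou a a' (ϑ b) (ϑ' b))
  have k3 := Finset.sum_le_sum (s := Finset.univ) fun s _ =>
    proj_ge (g := g) hσ' (-y s) (pr ov ou a a' (om s) (om' s) - r s - y s)
  have k4 := div_le_div_of_nonneg_right hd hσ.le
  have k5 := div_le_div_of_nonneg_right hd' hσ'.le
  have k6 := mul_le_mul_of_nonneg_right hρ (sq_nn t)
  have k7 := mul_le_mul_of_nonneg_right hg (sq_nn y)
  rw [e, e, nw_exp h.wt ka (Pb.elim (fun b => null_pb (h.null b)) h.pom)]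
  simp only [Fintype.sum_sum_type, Sum.elim_inl, Sum.elim_inr, neg_sq, neg_mul, sub_neg_eq_add,
    sub_add_cancel, Finset.sum_sub_distrib, Finset.sum_add_distrib, Finset.sum_neg_distrib,
    ← Finset.mul_sum, ← Finset.sum_div, mul_sub (y _), mul_add (y _), mul_left_comm (y _),
    ← sq] at k1 k2 k3 ⊢
  linarith

theorem split (x : Fin L.r → ℝ) : TL T.n ov ou (lc x L.θ - lc (fun s => bs s * x (bg s)) om)
    (0 - lc (fun s => bs s * x (bg s)) om') (τ * ∑ a, x a ^ 2) := by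
  classical
  obtain ⟨e, e0, e1, e2⟩ := h.small
  obtain ⟨η, η', k1, k2⟩ := TL.trace (n := T.n) h.wt (h := fun a => if ∃ s, bg s = a then 0 else L.θ a)
    (h' := fun _ => 0) (fun a => by
      split_ifs
      exacts [null_pb (null_zero 0), h.pθ a]) (fun a => by
      split_ifs with k
      exacts [(TL.of_null (null_zero _)).mono (e0 a), e2 a fun s q => k ⟨s, q⟩]) e1 x
  refine ⟨_, _, k1.add (Null.lc (fun s => -x (bg s)) h.big), le_of_eq_of_le ?_ k2⟩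
  congr 2 <;> funext i y
  · have : ∑ s, x (bg s) * L.θ (bg s) i y = ∑ a, if ∃ s, bg s = a then x a * L.θ a i y else 0 := by
      rw [← Finset.sum_filter, ← Finset.sum_image (f := fun a => x a * L.θ a i y)
        fun _ _ _ _ k => h.inj k]
      congr 1
      ext a
      simp
    have e3 : ∀ a, x a * (if ∃ s, bg s = a then 0 else L.θ a) i y =
        x a * L.θ a i y - if ∃ s, bg s = a then x a * L.θ a i y else 0 := fun a => by
      split_ifs <;> simp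
    simp only [lc, Pi.sub_apply, Pi.add_apply, e3, Finset.sum_sub_distrib, ← this, neg_mul, mul_sub,
      Finset.sum_neg_distrib, mul_left_comm (x _), mul_assoc]
    ring
  · simp only [lc, Pi.sub_apply, Pi.add_apply, Pi.zero_apply, mul_zero, Finset.sum_const_zero,
      neg_mul, Finset.sum_neg_distrib, mul_left_comm (x _), mul_assoc]
    ring

theorem form_P {o : Fin L.r → ℕ} {U : Fin L.r → Fin L.r → ℝ} {dU : ℝ}
    (hU : Nm (fun a b => wo o a b * Ca.pP T ov ou a (T.P b) (T.Q b) - U a b) dU) (x : Fin L.r → ℝ) :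
    nw ov (lc x T.P) + nw ou (lc x T.Q) ≤ ∑ a, ∑ b, U a b * (x a * x b) + dU * ∑ a, x a ^ 2 := by
  have k := (abs_le.1 (hU.form x)).2
  simp only [sub_mul, Finset.sum_sub_distrib] at k
  rw [form_wo (M := fun a b => Ca.pP T ov ou a (T.P b) (T.Q b)) fun a b => pr_comm ..] at k
  rw [← pr_self, pr_lc h.wt h.pP h.pP]
  exact sub_le_iff_le_add'.1 k

/-- The tails of the test fields, for `tail_of_eps`. -/
theorem tail_θ {s : ℝ} (hs : 0 < s) (x : Fin L.r → ℝ) : TL T.n ov ou (lc x L.θ) 0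
    ((1 + s) * g * ∑ r, (∑ a, bs r * sel bg r a * x a) ^ 2 + (1 + 1 / s) * τ * ∑ a, x a ^ 2) := by
  have q := Pb.lc h.pom fun s => bs s * x (bg s)
  have q' := Pb.lc h.pθ x
  rw [lc_zero] at q'
  have := (TL.raw (h.gram2 _)).add h.wt q (q'.sub q) (h.split x) hs
  simpa only [add_sub_cancel, mul_assoc, ← Finset.mul_sum, sel_vec] using this

/-- The tail of one combination of the pairs of the functionals. -/
theorem tail_P {o : Fin L.r → ℕ} {U : Fin L.r → Fin L.r → ℝ} {dU σ ρ d : ℝ}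
    (hU : Nm (fun a b => wo o a b * Ca.pP T ov ou a (T.P b) (T.Q b) - U a b) dU) (hσ : 0 < σ)
    (hρ : ρ ≤ 2 - g - σ) (x : Fin L.r → ℝ) {Ts : κ → ℝ}
    (hd : ∑ b, (∑ a, Ca.pP T ov ou a (ϑ b) (ϑ' b) * x a - Ts b) ^ 2 ≤ d) :
    TL T.n ov ou (lc x T.P) (lc x T.Q) (∑ a, ∑ b, U a b * (x a * x b) + dU * ∑ a, x a ^ 2
      - ρ * ∑ b, Ts b ^ 2 + d / σ) := by
  refine (TL.one h.wt (Pb.lc h.pP x) h.null h.gram1 (t := Ts) (d := d) hσ ?_).mono ?_
  · simpa only [pr_lc_left h.wt h.pP (null_pb (h.null _)), Ca.pP] using hd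
  · have := mul_le_mul_of_nonneg_right hρ (sq_nn Ts)
    linarith [h.form_P hU x]

/-- The same without projection. -/
theorem raw_P {o : Fin L.r → ℕ} {U : Fin L.r → Fin L.r → ℝ} {dU nU : ℝ}
    (hU : Nm (fun a b => wo o a b * Ca.pP T ov ou a (T.P b) (T.Q b) - U a b) dU) (hn : Nm U nU)
    (x : Fin L.r → ℝ) : TL T.n ov ou (lc x T.P) (lc x T.Q) ((nU + dU) * ∑ a, x a ^ 2) :=
  TL.raw (by linarith [h.form_P hU x, (abs_le.1 (hn.form x)).2])

end Fam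

/-- The field `psd` of `Fin2`. -/
theorem psd_of_pass (h : Fam T u Y ov ou ϑ ϑ' om om' bg bs g τ) {D : Lit L ι κ S I} {sp : ℝ}
    {t : Tol} (p : Pass T u Y ov ou ϑ ϑ' om om' bg bs D sp t) (k : t.Ok sp T.ν T.μ T.μ' g τ)
    (c : ι → ℝ) : ∃ η η', Null T.n η η' ∧ nw ov (T.hV (lc c u) - η) + nw ou (T.hU (lc c u) - η')
      ≤ 4 * sp * T.M0 (lc c u) fun k => lc c fun j => Y j k := by
  obtain ⟨⟨hsp, hν, hμ, hμ', hg⟩, ⟨hs, hσ, hσ'⟩, hρ, hg', hb⟩ := k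
  have hH := fun j => (h.gal.adm j).hinf
  have hτ : 0 ≤ τ := let ⟨_, e0, e1, _⟩ := h.small; (Finset.sum_nonneg fun a _ => e0 a).trans e1
  have eg := fun a => mom_lc c hH (fun i => (h.good.1 a i).bd) (by norm_num)
  have ek := k_lc h.good h.bP h.bQ c hH
  have nE : Nm (sel D.lo) 1 := (nm_sel (e := fun _ => 1) p.lo zero_le_one fun _ => by simp).congr
    fun _ _ => (one_mul _).symm
  have nG : Nm (fun a j => mom (L.θ a) (u j)) (1 + t.dG) := (nE.add p.hG).congr fun _ _ => by ring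
  have nH := nm_Fh p.nF p.nZ
  have ecb : ∀ a j, T.cb a (u j) = ∑ b, L.F a b * T.k b (u j)
      - 2 * T.μ * ∑ b, Fh L a b * mom (L.θ b) (u j) := fun a j => by
    simp only [Tab.cb, Fh_vec, Lyap.θF, Lyap.θZ, mom_θ h.good _ (hH j)]
  have a2 : ∀ x : ℝ, 0 ≤ x → |2 * x| = 2 * x := fun x hx => abs_of_nonneg (by positivity)
  have n1 := (((p.nF.mul p.hG).sub ((p.nZ.tr.mul p.hZ).smul (2 * T.μ'))).congr
    (B := fun a j => T.ca a (u j) - Xt T D.lo D.KZ a j) fun a j => by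
      simp only [Tab.ca, Xt, Lyap.θF, mom_θ h.good _ (hH j), Tab.kZ, mul_sub,
        Finset.sum_sub_distrib]
      ring).2 c
  have n2 := ((p.hY.sub (((nm_sel h.inj p.nb.1 p.nb.2).mul (nH.mul p.hG)).smul (2 * T.μ))).congr
    (B := fun s j => bs s * T.cb (bg s) (u j) - D.Yt s j) fun s j => by
      simp only [ecb, mul_assoc (bs s), ← Finset.mul_sum _ _ (bs s), sel_vec]
      simp only [mul_sub, Finset.sum_sub_distrib]
      ring).2 c
  have n3 := (((p.nF.mul p.nK).sub ((nH.mul nG).smul (2 * T.μ))).congr ecb).2 c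
  simp only [a2 _ hμ, a2 _ hμ', sub_mul _ _ (c _), Finset.sum_sub_distrib, mul_assoc (bs _),
    ← Finset.mul_sum, ← ca_lc h.good h.bP h.bQ hH c, ← cb_lc h.good h.bP h.bQ hH c] at n1 n2 n3
  have q := Pb.elim h.p0 h.pP
  have q0 := Pb.lc q (Sum.elim c fun a => ∑ j, Xt T D.lo D.KZ a j * c j)
  have q1 := Pb.lc h.pP fun a => T.ca a (lc c u) - ∑ j, Xt T D.lo D.KZ a j * c j
  have q2 := Pb.lc h.pom fun s => bs s * T.cb (bg s) (lc c u) - ∑ j, D.Yt s j * c j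
  have q3 := Pb.lc h.pθ fun a => T.cb a (lc c u)
  rw [lc_zero] at q3
  have q4 := q3.sub (Pb.lc h.pom fun s => bs s * T.cb (bg s) (lc c u))
  have ep : ∀ {η η'}, Pb η η' → pr ov ou (lc (Sum.elim c fun a => ∑ j, Xt T D.lo D.KZ a j * c j)
      (Sum.elim (fun j => T.hV0 (u j)) T.P)) (lc (Sum.elim c fun a => ∑ j, Xt T D.lo D.KZ a j * c j)
      (Sum.elim (fun j => T.hU0 (u j)) T.Q)) η η' = ∑ j, (p0 T ov ou (u j) η η'
        + ∑ a, pP T ov ou a η η' * Xt T D.lo D.KZ a j) * c j := fun k => by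
    simp only [pr_lc_left h.wt q k, Fintype.sum_sum_type, Sum.elim_inl, Sum.elim_inr, add_mul,
      Finset.sum_add_distrib, mul_vec, p0, pP]
  have m := h.main q0 (fun s => ∑ j, D.Yt s j * c j) (t := fun b => ∑ j, D.Th b j * c j)
    (r := fun s => ∑ j, D.Wt s j * c j) hσ hσ' hρ hg'
    (by simpa only [ep (null_pb (h.null _)), sub_mul, Finset.sum_sub_distrib] using p.hT.2 c)
    (by simpa only [ep (h.pom _), sub_mul, Finset.sum_sub_distrib] using p.hW.2 c)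
  have tt := m.add h.wt (q0.add (Pb.lc h.pom _)) (q1.add (q2.add q4))
    (TL.three h.wt q1 q2 q4 (h.raw_P p.hU p.nU _) (TL.raw (h.gram2 _)) (h.split _)) hs
  have sm := fun j i => (hH j i).1
  have v1 : T.hV (lc c u) = T.hV0 (lc c u) + lc (fun a => T.ca a (lc c u)) T.P
      + lc (fun a => T.cb a (lc c u)) L.θ := by
    funext i y
    simp only [Tab.hV, Tab.hV0, lc, Pi.add_apply, Finset.sum_add_distrib, add_assoc]
  have v2 : T.hU (lc c u) = T.hU0 (lc c u) + lc (fun a => T.ca a (lc c u)) T.Q := rfl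
  have q5 : Pb (T.hV0 (lc c u)) (T.hU0 (lc c u)) := pb_mode h.bV h.bB (sym_lc c h.gal.sym)
  simp only [lc_elim, lc_coef, ← hV0_lc c sm, ← hU0_lc c sm, nw_exp h.wt q5 h.pP] at tt
  rw [v1, v2]
  refine TL.mono (x := _) (by convert tt using 1 <;> abel) ?_
  have bY : ∀ j k i, Bd 0 (Y j k i) := fun j k i => (h.gal.hf j k i).1.sym.bd
  have e0 : T.M0 (lc c u) (fun k => lc c fun j => Y j k) =
      T.ν * ∑ j, ∑ k, mD T.n (Y j) (Y k) * (c j * c k) + ((∫ y, bf T.V (curl (lc c u))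
        (curl (lc c u)) y) + ∫ y, bf T.B (curl (lc c u)) (lc c u) y) + T.FF (lc c u) := by
    rw [← mD_lc bY bY c c, Tab.M0, mD]
    ring
  have hx : 0 ≤ 4 * sp := by positivity
  have k1 := mul_le_mul_of_nonneg_left (FA_ge (L := L) hμ hμ' (q := fun a => mom (L.θ a) (lc c u))
    (k := fun a => T.k a (lc c u)) (e := fun a => c (D.lo a)) (r := fun i => ∑ j, D.KZ i j * c j)
    (by simpa only [mul_vec, sub_mul, Finset.sum_sub_distrib, ← eg, ← ek, sel_vec] using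
      (p.nF.mul p.hG).bil p.nK c)
    (by simpa only [mul_vec, sub_mul _ _ (c _), Finset.sum_sub_distrib, ← eg, sel_vec] using
      p.hG.bil (nH.mul nG) c)
    (by simpa only [mul_vec, sub_mul, Finset.sum_sub_distrib, ← eg, sel_vec] using
      nE.bil (nH.mul p.hG) c)
    (by simpa only [mul_vec, sub_mul, Finset.sum_sub_distrib, ← ek] using p.hZ.2 c)) hx
  have ex : ∀ a, ∑ b, L.F a b * c (D.lo b) - 2 * T.μ' * ∑ i, L.Z i a * ∑ j, D.KZ i j * c j =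
      ∑ j, Xt T D.lo D.KZ a j * c j := fun a => by
    simp only [Xt, sub_mul, Finset.sum_sub_distrib, mul_assoc (2 * T.μ'), ← Finset.mul_sum, mul_vec,
      sel_vec]
  have k2 := (abs_le.1 (p.hM.form c)).1
  have k3 := p.hQ c
  have k4 := mul_le_mul_of_nonneg_left (abs_le.1 (p.hD.form c)).2 (mul_nonneg hx hν)
  have k5 := (abs_le.1 (p.nX.bil p.hL c)).1
  have hz : 0 ≤ 1 + t.s := by positivity
  have k6 := mul_le_mul_of_nonneg_left (h.form_P p.hU fun a => ∑ j, Xt T D.lo D.KZ a j * c j) hz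
  have k7 := mul_le_mul_of_nonneg_left (mul_le_mul_of_nonneg_left (p.nX.2 c) p.hU.1) hz
  have k8 := mul_le_mul_of_nonneg_right hb (sq_nn c)
  have k9 := mul_le_mul_of_nonneg_left (add_le_add (add_le_add
    (mul_le_mul_of_nonneg_left n1 (add_nonneg p.nU.1 p.hU.1)) (mul_le_mul_of_nonneg_left n2 hg))
    (mul_le_mul_of_nonneg_left n3 hτ)) (by positivity : 0 ≤ (1 + 1 / t.s) * 3)
  have k10 := sq_nn fun r => ∑ j, D.R r j * c j
  have e5 : ∀ a, ∑ j, p0 T ov ou (u j) (T.P a) (T.Q a) * c j =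
      pr ov ou (T.hV0 (lc c u)) (T.hU0 (lc c u)) (T.P a) (T.Q a) := fun a => by
    rw [hV0_lc c sm, hU0_lc c sm, pr_lc_left h.wt h.p0 (h.pP a)]
    rfl
  rw [D.form p.sQ p.sk] at k2
  simp only [sub_mul, Finset.sum_sub_distrib] at k4
  simp only [sub_mul _ _ (c _), Finset.sum_sub_distrib, mul_assoc (4 * sp),
    mul_assoc (2 * (1 + t.s)), ← Finset.mul_sum, ← ek, e5, mul_sub (Finset.sum _ _),
    mul_left_comm _ (4 * sp), mul_left_comm _ (2 * (1 + t.s)),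
    mul_comm (∑ j, Xt T D.lo D.KZ _ j * c j) (∑ j, D.Lt _ j * c j)] at k5
  simp only [ex] at k1
  rw [e0, Fn.FF_eq h.good (hinf_lc c hH)]
  simp only [div_eq_mul_inv] at k8 k9 ⊢
  linarith

end Pool.Agent.Work.MP_6bf1e5_an.H.Ca
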