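import Pool.Agent.Work.MP_6bf1e5_an.H.SkMode
import Pool.Agent.Work.MP_6bf1e5_an.H.LocMult
import Pool.Agent.Work.MP_6bf1e5_an.H.DynHinf

/-! Growth bounds, integrability and linearity of the pairings used in the finite step. -/

open scoped ContDiff ENNReal FourierTransform Real
open Set MeasureTheory

namespace Pool.Agent.Work.MP_6bf1e5_an.H.Fn

open Dyn

variable {m b : ℝ} {f g φ : Sc} {q r a c V : Vc} {M : Mc} {n : ℕ}

theorem bd_const (k : ℝ) : Bd 0 fun _ => k :=
  ⟨aestronglyMeasurable_const, |k|, Filter.Eventually.of_forall fun y => by simp⟩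

theorem bd_coord (j : Fin 3) : Bd 1 fun y : R3 => y j := by
  refine ⟨(coord_smooth j).continuous.aestronglyMeasurable, 1,
    Filter.Eventually.of_forall fun y => ?_⟩
  have h : |y j| ≤ ‖y‖ := by simpa using PiLp.norm_apply_le y j
  rw [Real.rpow_one]
  linarith

theorem op_one : Op 1 = Om := by
  funext y
  simp [Op]

theorem op_nat (k : ℕ) (y : R3) : Op k y = Om y ^ k := by
  simp [Op]

theorem op_pos (b : ℝ) (y : R3) : 0 < Op b y := Real.rpow_pos_of_pos (Om_pos y) b

theorem op_add (b b' : ℝ) (y : R3) : Op (b + b') y = Op b y * Op b' y :=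
  Real.rpow_add (Om_pos y) b b'

theorem op_succ (b : ℝ) (y : R3) : Op (b + 1) y = Op b y * Om y := by
  rw [op_add, op_one]

theorem bd_op {k : ℝ} (b : ℝ) (h : -(2 * b) ≤ k) : Bd k (Op b) := (bd_Op b).mono h

theorem bd_Om {k : ℝ} (h : -2 ≤ k) : Bd k Om := by
  rw [← op_one]
  exact bd_op 1 (by linarith)

theorem bd_mul {m m' k : ℝ} (h : Bd m f) (h' : Bd m' g) (hk : m + m' ≤ k) :
    Bd k fun y => f y * g y := (h.mul h').mono hk

theorem bd_pds (h : Sym m f) (l : List (Fin 3)) : Bd (m - l.length) (pds l f) := by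
  obtain ⟨C, hC⟩ := h.2 l
  exact ⟨(pds_smooth h.1 l).continuous.aestronglyMeasurable, C, Filter.Eventually.of_forall hC⟩

theorem bd_pd (h : Sym m f) (j : Fin 3) : Bd (m - 1) (pd j f) := by
  simpa [pds] using bd_pds h [j]

theorem bd_curl (h : ∀ i, Sym m (V i)) (i : Fin 3) : Bd (m - 1) (curl V i) :=
  (bd_pd (h _) _).sub (bd_pd (h _) _)

theorem bd_pd_curl (h : ∀ i, Sym m (V i)) (i j : Fin 3) : Bd (m - 2) (pd j (curl V i)) := by
  have e : pd j (curl V i) = fun y => pds [j, i + 1] (V (i + 2)) y - pds [j, i + 2] (V (i + 1)) y :=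
    pd_sub (pd_smooth (h _).1 _) (pd_smooth (h _).1 _) j
  have h2 : ∀ k l, Bd (m - 2) (pds [j, k] (V l)) := fun k l => by
    have := bd_pds (h l) [j, k]
    norm_num at this
    exact this
  rw [e]
  exact (h2 _ _).sub (h2 _ _)

theorem bd_yd (h : Sym m f) : Bd m (yd f) :=
  Bd.sum _ fun j _ => bd_mul (bd_coord j) (bd_pd h j) (by linarith)

theorem bd_cross {m' k : ℝ} (ha : ∀ i, Bd m (a i)) (hc : ∀ i, Bd m' (c i)) (hk : m + m' ≤ k)
    (i : Fin 3) : Bd k (cross a c i) :=
  (bd_mul (ha _) (hc _) hk).sub (bd_mul (ha _) (hc _) hk)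

theorem bd_mv3 {m' k : ℝ} (hM : ∀ i j, Bd m (M i j)) (hc : ∀ i, Bd m' (c i)) (hk : m + m' ≤ k)
    (i : Fin 3) : Bd k (mv3 M c i) :=
  Bd.sum _ fun j _ => bd_mul (hM i j) (hc j) hk

theorem bd_vm3 {m' k : ℝ} (hM : ∀ i j, Bd m (M i j)) (hc : ∀ i, Bd m' (c i)) (hk : m' + m ≤ k)
    (j : Fin 3) : Bd k (vm3 M c j) :=
  Bd.sum _ fun i _ => bd_mul (hc i) (hM i j) hk

theorem bd_lc {ι : Type} [Fintype ι] (t : ι → ℝ) {W : ι → Vc} {i : Fin 3}
    (h : ∀ j, Bd m (W j i)) : Bd m (lc t W i) :=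
  Bd.sum _ fun j _ => (h j).cmul _

theorem bd_vsub (ha : ∀ i, Bd m (a i)) (hc : ∀ i, Bd m (c i)) (i : Fin 3) : Bd m ((a - c) i) :=
  (ha i).sub (hc i)

theorem hinf_zero : Hinf fun _ => 0 := by
  refine ⟨contDiff_const, fun l => ?_⟩
  have e : pds l (fun _ => 0) = fun _ => 0 := by
    induction l with
    | nil => rfl
    | cons j l ih => exact (congrArg (pd j) ih).trans (pd_const 0 j)
  rw [e]
  exact MemLp.zero'

/-! Integrability -/

theorem int_dot (hq : ∀ i, Hinf (q i)) (ha : ∀ i, Bd m (a i)) (hm : m < -3 / 2) :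
    Integrable (dot q a) :=
  integrable_finsetSum _ fun i _ => (ha i).int_hinf hm (hq i)

theorem int_dot2 (hq : ∀ i, Hinf (q i)) (ha : ∀ i, Hinf (a i)) : Integrable (dot q a) :=
  integrable_finsetSum _ fun i _ => int_mul (hq i) (ha i)

theorem int_bf (hM : ∀ i j, Bd m (M i j)) (hm : m ≤ 0) (hq : ∀ i, Hinf (q i))
    (hr : ∀ i, Hinf (r i)) : Integrable (bf M q r) :=
  integrable_finsetSum _ fun i _ => integrable_finsetSum _ fun j _ =>
    (hM i j).int_hinf2 hm (hq i) (hr j)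

theorem int_wsq (h : Bd 0 φ) (hf : Hinf f) : Integrable fun y => φ y * f y ^ 2 := by
  refine (h.int_hinf2 le_rfl hf hf).congr (Filter.Eventually.of_forall fun y => ?_)
  simp only
  ring

theorem dot_self (q : Vc) (y : R3) : dot q q y = ∑ i, q i y ^ 2 := by
  simp only [dot, sq]

theorem int_nw (h : Bd 0 φ) (hq : ∀ i, Hinf (q i)) : Integrable fun y => φ y * dot q q y := by
  simp only [dot_self, Finset.mul_sum]
  exact integrable_finsetSum _ fun i _ => int_wsq h (hq i)

theorem nw_sum (h : Bd 0 φ) (hq : ∀ i, Hinf (q i)) :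
    nw φ q = ∑ i, ∫ y, φ y * q i y ^ 2 := by
  simp only [nw, dot_self, Finset.mul_sum]
  exact integral_finsetSum _ fun i _ => int_wsq h (hq i)

theorem nw_nonneg (h : ∀ᵐ y, 0 ≤ φ y) (q : Vc) : 0 ≤ nw φ q := by
  refine integral_nonneg_of_ae (h.mono fun y hy => mul_nonneg hy ?_)
  rw [dot_self]
  positivity

theorem nw_neg (φ : Sc) (q : Vc) : nw φ (-q) = nw φ q := by
  simp [nw, dot]

theorem nw_zero (φ : Sc) : nw φ 0 = 0 := by
  simp [nw, dot]

theorem ip_zero_left (q : Vc) : ip 0 q = 0 := by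
  simp [ip, dot]

theorem ip_zero_right (q : Vc) : ip q 0 = 0 := by
  simp [ip, dot]

theorem ip_neg_right (q a : Vc) : ip q (-a) = -ip q a := by
  simp [ip, dot, integral_neg]

theorem ip_add_left (h : Integrable (dot q a)) (h' : Integrable (dot r a)) :
    ip (q + r) a = ip q a + ip r a := by
  rw [ip, ip, ip, ← integral_add h h']
  simp [dot, add_mul, Finset.sum_add_distrib]

theorem ip_sub_right (h : Integrable (dot q a)) (h' : Integrable (dot q c)) :
    ip q (a - c) = ip q a - ip q c := by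
  rw [ip, ip, ip, ← integral_sub h h']
  simp [dot, mul_sub]

theorem bf_add_left (h : Integrable (bf M q a)) (h' : Integrable (bf M r a)) :
    ∫ y, bf M (q + r) a y = (∫ y, bf M q a y) + ∫ y, bf M r a y := by
  rw [← integral_add h h']
  simp [bf, add_mul, Finset.sum_add_distrib]

theorem bf_add_right (h : Integrable (bf M q a)) (h' : Integrable (bf M q c)) :
    ∫ y, bf M q (a + c) y = (∫ y, bf M q a y) + ∫ y, bf M q c y := by
  rw [← integral_add h h']
  simp [bf, mul_add, Finset.sum_add_distrib]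

theorem bf_symm (h : ∀ i j, M i j = M j i) (q a : Vc) : bf M q a = bf M a q := by
  funext y
  rw [bf, bf, Finset.sum_comm]
  refine Finset.sum_congr rfl fun i _ => Finset.sum_congr rfl fun j _ => ?_
  rw [h i j]
  ring

/-! Orthogonality -/

theorem perp_int (hb : 3 / 2 < b) (hf : Bd 0 f) {j : ℕ} (hg : PolyF j g) :
    Integrable fun y => f y * (Op b y * g y) :=
  (hf.mul ((bd_Op b).mul hg.sym.bd)).integrable (by linarith)

theorem perp_add (hb : 3 / 2 < b) (hf : Bd 0 f) (hg : Bd 0 g) (h : Perp b n f) (h' : Perp b n g) :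
    Perp b n fun y => f y + g y := fun j hj p hp => by
  simp only [add_mul]
  rw [integral_add (perp_int hb hf hp) (perp_int hb hg hp), h j hj p hp, h' j hj p hp, add_zero]

theorem perp_sub (hb : 3 / 2 < b) (hf : Bd 0 f) (hg : Bd 0 g) (h : Perp b n f) (h' : Perp b n g) :
    Perp b n fun y => f y - g y := fun j hj p hp => by
  simp only [sub_mul]
  rw [integral_sub (perp_int hb hf hp) (perp_int hb hg hp), h j hj p hp, h' j hj p hp, sub_zero]

theorem perp_lc (hb : 3 / 2 < b) {ι : Type} [Fintype ι] (t : ι → ℝ) {F : ι → Sc}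
    (hF : ∀ j, Bd 0 (F j)) (h : ∀ j, Perp b n (F j)) :
    Perp b n fun y => ∑ j, t j * F j y := fun j hj p hp => by
  simp only [Finset.sum_mul, mul_assoc]
  rw [integral_finsetSum _ fun k _ => (perp_int hb (hF k) hp).const_mul _]
  exact Finset.sum_eq_zero fun k _ => by rw [integral_const_mul, h k j hj p hp, mul_zero]

theorem perp_curl (hr : ∀ i, Hinf (r i)) (h : ∀ i, Perp (9 / 4) (n + 1) (r i)) (i : Fin 3) :
    Perp (9 / 4) n (curl r i) :=
  perp_sub (by norm_num) ((hr _).pd _).bd ((hr _).pd _).bd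
    (Perp.pd (by norm_num) (hr _) (h _) _) (Perp.pd (by norm_num) (hr _) (h _) _)

end Pool.Agent.Work.MP_6bf1e5_an.H.Fn
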