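import Pool.Agent.Work.MP_6bf1e5_an.H.SkCert
import Pool.Agent.Work.MP_6bf1e5_an.H.FinBd

/-! Linearity of the fields and of the pair integrals in the coefficients. -/

open scoped ContDiff ENNReal FourierTransform Real
open Set MeasureTheory

namespace Pool.Agent.Work.MP_6bf1e5_an.H.Ca

variable {ι κ : Type} [Fintype ι] [Fintype κ] {a : ι → Vc} {b : κ → Vc} {p q : Vc} {o : Sc}
  {M : Mc} {L : Lyap} {T : Tab L}

theorem int_lin (c : ι → ℝ) {F : ι → Sc} (h : ∀ j, Integrable (F j)) :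
    ∫ y, ∑ j, c j * F j y = ∑ j, c j * ∫ y, F j y := by
  rw [integral_finsetSum _ fun j _ => (h j).const_mul _]
  simp only [integral_const_mul]

theorem int_bil (c : ι → ℝ) (d : κ → ℝ) {F : ι → κ → Sc} (h : ∀ j k, Integrable (F j k)) :
    ∫ y, ∑ j, ∑ k, F j k y * (c j * d k) = ∑ j, ∑ k, (∫ y, F j k y) * (c j * d k) := by
  rw [integral_finsetSum _ fun j _ => integrable_finsetSum _ fun k _ => (h j k).mul_const _]
  refine Finset.sum_congr rfl fun j _ => ?_
  rw [integral_finsetSum _ fun k _ => (h j k).mul_const _]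
  simp only [integral_mul_const]

theorem dot_comm (p q : Vc) : dot p q = dot q p := by
  funext y
  simp only [dot, mul_comm]

theorem ip_comm (p q : Vc) : ip p q = ip q p := by
  unfold ip
  rw [dot_comm]

theorem dot_lc_left (c : ι → ℝ) (a : ι → Vc) (q : Vc) (y : R3) :
    dot (lc c a) q y = ∑ j, c j * dot (a j) q y := by
  simp only [dot, lc, Finset.mul_sum, Finset.sum_mul, mul_assoc]
  exact Finset.sum_comm

theorem ip_lc_left (c : ι → ℝ) (h : ∀ j, Integrable (dot (a j) q)) :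
    ip (lc c a) q = ∑ j, c j * ip (a j) q := by
  simp only [ip, dot_lc_left]
  exact int_lin c h

theorem ip_lc_right (c : ι → ℝ) (h : ∀ j, Integrable (dot p (a j))) :
    ip p (lc c a) = ∑ j, c j * ip p (a j) := by
  rw [ip_comm, ip_lc_left c fun j => dot_comm p (a j) ▸ h j]
  simp only [ip_comm p]

theorem ip_lc_lc (c : ι → ℝ) (d : κ → ℝ) (h : ∀ j k, Integrable (dot (a j) (b k))) :
    ip (lc c a) (lc d b) = ∑ j, ∑ k, ip (a j) (b k) * (c j * d k) := by
  unfold ip
  rw [← int_bil c d h]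
  congr 1
  funext y
  rw [dot_lc_left]
  refine Finset.sum_congr rfl fun j _ => ?_
  rw [dot_comm, dot_lc_left, Finset.mul_sum]
  exact Finset.sum_congr rfl fun k _ => by rw [dot_comm (b k)]; ring

theorem mv3_lc (c : ι → ℝ) (M : Mc) (a : ι → Vc) :
    mv3 M (lc c a) = lc c fun j => mv3 M (a j) := by
  funext i y
  simp only [mv3, lc, Finset.mul_sum]
  rw [Finset.sum_comm]
  exact Finset.sum_congr rfl fun j _ => Finset.sum_congr rfl fun k _ => by ring

theorem vm3_lc (c : ι → ℝ) (M : Mc) (a : ι → Vc) :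
    vm3 M (lc c a) = lc c fun j => vm3 M (a j) := by
  funext i y
  simp only [vm3, lc, Finset.mul_sum, Finset.sum_mul, mul_assoc]
  exact Finset.sum_comm

theorem bf_eq_dot (M : Mc) (p q : Vc) : bf M p q = dot p (mv3 M q) := by
  funext y
  simp only [bf, dot, mv3, Finset.mul_sum, mul_assoc]

theorem bf_lc (c : ι → ℝ) (d : κ → ℝ) (h : ∀ j k, Integrable (bf M (a j) (b k))) :
    ∫ y, bf M (lc c a) (lc d b) y = ∑ j, ∑ k, (∫ y, bf M (a j) (b k) y) * (c j * d k) := by
  simp only [bf_eq_dot, mv3_lc] at h ⊢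
  exact ip_lc_lc c d h

theorem sm_lc (c : ι → ℝ) (o : Sc) (a : ι → Vc) : sm o (lc c a) = lc c fun j => sm o (a j) := by
  funext i y
  simp only [sm, lc, Finset.mul_sum]
  exact Finset.sum_congr rfl fun j _ => by ring

theorem dot_sm (o : Sc) (p q : Vc) : dot (sm o p) q = fun y => o y * dot p q y := by
  funext y
  simp only [dot, sm, Finset.mul_sum, mul_assoc]

theorem nw_eq_ip (o : Sc) (p : Vc) : nw o p = ip (sm o p) p := by
  unfold nw ip
  rw [dot_sm]

theorem int_sm {k m m' : ℝ} (ho : Bd k o) (hp : ∀ i, Bd m (p i)) (hq : ∀ i, Bd m' (q i))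
    (hk : k + (m + m') < -3) : Integrable (dot (sm o p) q) := by
  rw [dot_sm]
  exact ho.int_nw hp hq hk

/-- The weighted norm of a combination is the form of the Gram matrix. -/
theorem nw_lc {k m : ℝ} (ho : Bd k o) (ha : ∀ j i, Bd m (a j i)) (hk : k + (m + m) < -3)
    (c : ι → ℝ) : nw o (lc c a) = ∑ j, ∑ k, ip (sm o (a j)) (a k) * (c j * c k) := by
  rw [nw_eq_ip, sm_lc, ip_lc_lc c c fun j k => int_sm ho (ha j) (ha k) hk]

theorem lam_sum {ι : Type} (s : Finset ι) (c : ι → ℝ) {F : ι → Sc} (h : ∀ j, Hinf (F j)) :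
    Lam (fun y => ∑ j ∈ s, c j * F j y) = fun y => ∑ j ∈ s, c j * Lam (F j) y := by
  classical
  induction s using Finset.induction_on with
  | empty =>
    have e := Dp_smul (s := 3 / 2) (Fn.hinf_zero).inA (by norm_num) 0
    simpa only [Lam, Finset.sum_empty, zero_mul] using e
  | insert j s hj ih =>
    simp only [Finset.sum_insert hj]
    have e := Dp_add (s := 3 / 2) (Dyn.hinf_cmul (h j) (c j)).inA
      (Dyn.hinf_sum s fun j _ => Dyn.hinf_cmul (h j) (c j)).inA (by norm_num)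
    rw [Dp_smul (h j).inA (by norm_num)] at e
    unfold Lam at ih ⊢
    rw [ih] at e
    exact e

theorem lamV_lc (c : ι → ℝ) (h : ∀ j i, Hinf (a j i)) :
    LamV (lc c a) = lc c fun j => LamV (a j) :=
  funext fun i => lam_sum Finset.univ c fun j => h j i

theorem curl_lc (c : ι → ℝ) (h : ∀ j i, ContDiff ℝ ∞ (a j i)) :
    curl (lc c a) = lc c fun j => curl (a j) := md_curl_lin _ c fun j _ i => h j i

theorem hinf_lc (c : ι → ℝ) (h : ∀ j i, Hinf (a j i)) (i : Fin 3) : Hinf (lc c a i) :=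
  Dyn.hinf_sum _ fun j _ => Dyn.hinf_cmul (h j i) _

theorem sym_lc {m : ℝ} (c : ι → ℝ) (h : ∀ j i, Sym m (a j i)) (i : Fin 3) : Sym m (lc c a i) :=
  md_sym_sum _ fun j _ => md_sym_cmul (h j i) _

theorem lc_lc (c : ι → ℝ) (A : ι → κ → ℝ) (b : κ → Vc) :
    (lc c fun j => lc (A j) b) = lc (fun k => ∑ j, c j * A j k) b := by
  funext i y
  simp only [lc, Finset.mul_sum, Finset.sum_mul, mul_assoc]
  exact Finset.sum_comm

theorem kp_lc (c : ι → ℝ) (U : Vc) (h : ∀ j i, ContDiff ℝ ∞ (a j i)) :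
    kp U (lc c a) = lc c fun j => kp U (a j) := by
  funext i y
  have e : yd (lc c a i) y = ∑ j, c j * yd (a j i) y := by
    simp only [yd, show lc c a i = fun y => ∑ j, c j * a j i y from rfl,
      md_pd_lin _ c fun j _ => h j i, Finset.mul_sum]
    rw [Finset.sum_comm]
    exact Finset.sum_congr rfl fun j _ => Finset.sum_congr rfl fun k _ => by ring
  simp only [kp, cross, e, curl_lc c h, lc, mul_sub, Finset.sum_sub_distrib, Finset.mul_sum,
    Finset.sum_mul, ← Finset.sum_neg_distrib]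
  congr 1
  · congr 1
    · exact Finset.sum_congr rfl fun j _ => by ring
    · exact Finset.sum_congr rfl fun j _ => by ring
  · congr 1
    · exact Finset.sum_congr rfl fun j _ => by ring
    · exact Finset.sum_congr rfl fun j _ => by ring

theorem kqW_lc (c : ι → ℝ) (W : Vc) (h : ∀ j i, ContDiff ℝ ∞ (a j i)) :
    kqW W (lc c a) = lc c fun j => kqW W (a j) := by
  funext i y
  simp only [kqW, cross, curl_lc c h, lc, Finset.mul_sum, ← Finset.sum_sub_distrib,
    ← Finset.sum_neg_distrib]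
  exact Finset.sum_congr rfl fun j _ => by ring

theorem mom_lc {m : ℝ} (c : ι → ℝ) (h : ∀ j i, Hinf (a j i)) (hq : ∀ i, Bd m (q i))
    (hm : m < -3 / 2) : mom q (lc c a) = ∑ j, mom q (a j) * c j := by
  unfold mom
  rw [curl_lc c fun j i => (h j i).1, ip_lc_left c fun j => Fn.int_dot (Dyn.hinf_curl (h j)) hq hm]
  simp only [mul_comm]

theorem mom_lc_left {m : ℝ} (c : ι → ℝ) (h : ∀ j i, Bd m (a j i)) (hm : m < -3 / 2)
    (hq : ∀ i, Hinf (q i)) : mom (lc c a) q = ∑ j, c j * mom (a j) q :=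
  ip_lc_right c fun j => Fn.int_dot (Dyn.hinf_curl hq) (h j) hm

theorem hinf_lamV (h : ∀ i, Hinf (p i)) (i : Fin 3) : Hinf (LamV p i) := Dyn.hinf_lam (h i)

theorem k_lc (hL : L.Good) (bP : ∀ a i, Bd (-3) (T.P a i)) (bQ : ∀ a i, Bd (-4) (T.Q a i))
    (c : ι → ℝ) (h : ∀ j i, Hinf (a j i)) (e : Fin L.r) :
    T.k e (lc c a) = ∑ j, T.k e (a j) * c j := by
  have hc := fun j => Dyn.hinf_curl (h j)
  unfold Tab.k
  rw [curl_lc c fun j i => (h j i).1, lamV_lc c hc,
    ip_lc_left c fun j => Fn.int_dot (hinf_lamV (hc j)) (fun i => (hL.1 e i).bd) (by norm_num),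
    ip_lc_left c fun j => Fn.int_dot (hc j) (bP e) (by norm_num),
    ip_lc_left c fun j => Fn.int_dot (h j) (bQ e) (by norm_num)]
  simp only [Finset.mul_sum, ← Finset.sum_add_distrib]
  exact Finset.sum_congr rfl fun j _ => by ring

theorem curl_add (hp : ∀ i, Hinf (p i)) (hq : ∀ i, Hinf (q i)) :
    curl (p + q) = curl p + curl q := by
  funext i y
  have e : ∀ j k, pd j (p k + q k) = fun y => pd j (p k) y + pd j (q k) y := fun j k =>
    Dyn.pd_add (hp k).1 (hq k).1 j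
  simp only [curl, e, Pi.add_apply]
  ring

theorem lamV_add (hp : ∀ i, Hinf (p i)) (hq : ∀ i, Hinf (q i)) :
    LamV (p + q) = LamV p + LamV q :=
  funext fun i => Dp_add (hp i).inA (hq i).inA (by norm_num)

/-- The dissipation of a tail does not see the low test fields. -/
theorem lam_perp {n : ℕ} (hn : 1 ≤ n) (hp : ∀ i, Hinf (p i)) (h : ∀ i, Perp (9 / 4) n (p i))
    (hq : ∀ i, Hinf (q i)) (ht : Test (3 / 4) n q) : ip (LamV p) q = 0 := by
  rw [Dyn.ip_eq (hinf_lamV hp) hq]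
  refine Finset.sum_eq_zero fun i _ => ?_
  obtain ⟨g, hg, e⟩ := ht i
  obtain ⟨g', hg', e'⟩ := hg.lam
  have h1 := Dp_symm (hp i) (hq i) (s := 3 / 2) (by norm_num)
  have h2 : Dp (3 / 2) (q i) = Op (9 / 4) * g' := by
    rw [e]
    exact e'
  rw [h2] at h1
  exact h1.trans (h i (n - 1) (by omega) g' hg')

/-- The dissipation of a mode, tested with a low field, from the base family. -/
theorem lam_mix {n : ℕ} (hn : 1 ≤ n) (c : ι → ℝ) (h : ∀ j i, Hinf (a j i)) (hp : ∀ i, Hinf (p i))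
    (hA : ∀ i, Perp (9 / 4) (n + 1) fun y => p i y - lc c a i y) (hq : ∀ i, Hinf (q i))
    (ht : Test (3 / 4) n q) :
    ip (LamV (curl p)) q = ∑ j, c j * ip (LamV (curl (a j))) q := by
  have hl := hinf_lc c h
  have hr : ∀ i, Hinf ((p - lc c a) i) := fun i => Dyn.hinf_sub (hp i) (hl i)
  have h0 := lam_perp hn (Dyn.hinf_curl hr) (Fn.perp_curl hr hA) hq ht
  have e : p = lc c a + (p - lc c a) := by abel
  have hc := fun j => Dyn.hinf_curl (h j)
  rw [e, curl_add hl hr, lamV_add (Dyn.hinf_curl hl) (Dyn.hinf_curl hr),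
    Fn.ip_add_left (Fn.int_dot2 (hinf_lamV (Dyn.hinf_curl hl)) hq)
      (Fn.int_dot2 (hinf_lamV (Dyn.hinf_curl hr)) hq), h0, add_zero,
    curl_lc c fun j i => (h j i).1, lamV_lc c hc,
    ip_lc_left c fun j => Fn.int_dot2 (hinf_lamV (hc j)) hq]

theorem lc_sub (c : κ → ℝ) (a b : κ → Vc) : lc c a - lc c b = lc c fun m => a m - b m := by
  funext i y
  simp only [lc, Pi.sub_apply, mul_sub, Finset.sum_sub_distrib]

theorem lc_add (c : κ → ℝ) (a b : κ → Vc) : lc c a + lc c b = lc c fun m => a m + b m := by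
  funext i y
  simp only [lc, Pi.add_apply, mul_add, Finset.sum_add_distrib]

theorem lc_zero (c : κ → ℝ) : (lc c fun _ => 0) = 0 := by
  funext i y
  simp only [lc, Pi.zero_apply, mul_zero, Finset.sum_const_zero]

theorem lc_elim (c : ι → ℝ) (d : κ → ℝ) (a : ι → Vc) (b : κ → Vc) :
    lc (Sum.elim c d) (Sum.elim a b) = lc c a + lc d b := by
  funext i y
  simp only [lc, Fintype.sum_sum_type, Sum.elim_inl, Sum.elim_inr, Pi.add_apply]

/-- Splitting a family by a predicate. -/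
theorem lc_split (c : ι → ℝ) (a : ι → Vc) (P : ι → Prop) [DecidablePred P] :
    lc c a = lc (fun j : {j // P j} => c j) (fun j => a j)
      + lc (fun j : {j // ¬P j} => c j) fun j => a j := by
  funext i y
  simp only [lc, Pi.add_apply]
  exact (Fintype.sum_subtype_add_sum_subtype P fun j => c j * a j i y).symm

theorem hV0_lc (c : ι → ℝ) (h : ∀ j i, ContDiff ℝ ∞ (a j i)) :
    T.hV0 (lc c a) = lc c fun j => T.hV0 (a j) := by
  funext i y
  simp only [Tab.hV0, curl_lc c h, mv3_lc]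
  simp only [lc, Tab.hV0, Finset.mul_sum, ← Finset.sum_add_distrib]
  exact Finset.sum_congr rfl fun j _ => by ring

theorem hU0_lc (c : ι → ℝ) (h : ∀ j i, ContDiff ℝ ∞ (a j i)) :
    T.hU0 (lc c a) = lc c fun j => T.hU0 (a j) := by
  simp only [Tab.hU0, curl_lc c h, vm3_lc]

theorem bd_hV0 (bV : ∀ i j, Bd (-2) (T.V i j)) (bB : ∀ i j, Bd (-3) (T.B i j))
    (h : ∀ i, Sym (-2) (p i)) (i : Fin 3) : Bd (-3) (T.hV0 p i) :=
  ((Fn.bd_mv3 bV (Fn.bd_curl h) (by norm_num) i).cmul 2).add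
    (Fn.bd_mv3 bB (fun i => (h i).bd) (by norm_num) i)

theorem bd_hU0 (bB : ∀ i j, Bd (-3) (T.B i j)) (h : ∀ i, Sym (-2) (p i)) (i : Fin 3) :
    Bd (-4) (T.hU0 p i) := Fn.bd_vm3 bB (Fn.bd_curl h) (by norm_num) i

end Pool.Agent.Work.MP_6bf1e5_an.H.Ca
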