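import Pool.Agent.Work.MP_6bf1e5_an.H.CertAlg

/-! Linearity of the coefficients of the finite problem. -/

open scoped ContDiff ENNReal FourierTransform Real
open Set MeasureTheory

namespace Pool.Agent.Work.MP_6bf1e5_an.H.Ca

variable {ι J : Type} [Fintype ι] [Fintype J] {L : Lyap} {T : Tab L} {u : ι → Vc}

theorem bd_lcθ (hL : L.Good) (t : Fin L.r → ℝ) (i : Fin 3) : Bd (-3) (lc t L.θ i) :=
  SkCert_lc (fun a i => (hL.1 a i).bd) t i

theorem mom_θ (hL : L.Good) (t : Fin L.r → ℝ) {w : Vc} (hw : ∀ i, Hinf (w i)) :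
    mom (lc t L.θ) w = ∑ b, t b * mom (L.θ b) w :=
  mom_lc_left t (fun a i => (hL.1 a i).bd) (by norm_num) hw

section

variable (hL : L.Good) (bP : ∀ a i, Bd (-3) (T.P a i)) (bQ : ∀ a i, Bd (-4) (T.Q a i))
  (hu : ∀ j i, Hinf (u j i)) (c : ι → ℝ)

include hL bP bQ hu

theorem kZ_lc (i : Fin 2) : T.kZ i (lc c u) = ∑ j, T.kZ i (u j) * c j := by
  simp only [Tab.kZ, k_lc hL bP bQ c hu, mul_vec]

theorem ca_lc (a : Fin L.r) : T.ca a (lc c u) = ∑ j, T.ca a (u j) * c j := by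
  simp only [Tab.ca, Lyap.θF, mom_lc c hu (bd_lcθ hL _) (by norm_num), kZ_lc hL bP bQ hu, sub_mul,
    Finset.sum_sub_distrib, mul_assoc (2 * T.μ'), ← Finset.mul_sum, mul_vec]

theorem cb_lc (a : Fin L.r) : T.cb a (lc c u) = ∑ j, T.cb a (u j) * c j := by
  simp only [Tab.cb, Lyap.θF, Lyap.θZ, mom_lc c hu (bd_lcθ hL _) (by norm_num),
    k_lc hL bP bQ c hu, sub_mul, add_mul, Finset.sum_sub_distrib, Finset.sum_add_distrib,
    mul_assoc (2 * T.μ), mul_assoc (2 : ℝ) (Finset.sum _ _), ← Finset.mul_sum, mul_vec]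

end

theorem lc_coef (x y : J → ℝ) (a : J → Vc) : lc (fun j => x j - y j) a = lc x a - lc y a := by
  funext i z
  simp only [lc, Pi.sub_apply, sub_mul, Finset.sum_sub_distrib]

end Pool.Agent.Work.MP_6bf1e5_an.H.Ca
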