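import Pool.Agent.Work.MP_6bf1e5_an.H.RkDefs
import Pool.Agent.Work.MP_6bf1e5_an.H.RkZB
import Pool.Agent.Work.MP_6bf1e5_an.H.ClP
import Pool.Agent.Work.MP_6bf1e5_an.H.LmiDatV
import Pool.Agent.Work.MP_6bf1e5_an.H.LmiDatB

/-! A comparison of tables (owner helper88). -/

namespace Pool.Agent.Work.MP_6bf1e5_an.H.Pw

open Pool.Agent.Lib.KLA Pool.Agent.Lib.KTab Lt.Dat

/-- The check. -/
noncomputable def clB : PLift ((Rk.ldL pB.V 119 958 730 Rk.zB fun l => jt2 pB 5 4 l fun l0 l1 l2 =>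
    bnd (kV2 pB 37 32 eV v02 v12 l0 l1) (kB pB 40 32 eB b00 b01 b10 b11 b22 l0 l1 l2)) = true) :=
  ⟨by decide +kernel⟩

end Pool.Agent.Work.MP_6bf1e5_an.H.Pw
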