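import Pool.Agent.Work.MP_6bf1e5_an.H.RkDefs
import Pool.Agent.Work.MP_6bf1e5_an.H.RkZW
import Pool.Agent.Work.MP_6bf1e5_an.H.ClP
import Pool.Agent.Work.MP_6bf1e5_an.H.LmiDatB

/-! A comparison of tables (owner helper88). -/

namespace Pool.Agent.Work.MP_6bf1e5_an.H.Pw

open Pool.Agent.Lib.KLA Pool.Agent.Lib.KTab Lt.Dat

/-- The check. -/
noncomputable def clC : PLift ((Rk.ldL pC.V 108 964 810 Rk.zW fun l => jt1 pC 7 16 l
    (kB2 pC 40 32 eB b02 b20 b12 b21)) = true) :=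
  ⟨by decide +kernel⟩

end Pool.Agent.Work.MP_6bf1e5_an.H.Pw
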