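import Pool.Agent.Work.MP_6bf1e5_an.H.LtD

/-! Computations with lists of rows for the pointwise bounds and the comparison of tables
(owner helper88). -/

namespace Pool.Agent.Work.MP_6bf1e5_an.H.Pw

open Pool.Agent.Lib.KLA Pool.Agent.Lib.KTab

noncomputable section

/-- The distance of rows. -/
def S1 : Nat := 1000000

/-- The zero row. -/
def z0 : Tab := cst false 0 0

/-- The same digits with the error `e`. -/
def sete (e : Nat) (A : Tab) : Tab := A.use fun g a n m _ s M _ => ⟨g, a, n, m, 0, s, M, e⟩

/-- Division by `i sin ω` after adding a constant. -/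
def dq1 (W : Nat) (A C : Tab) (k : Tab → Bool) : Bool :=
  A.use fun g a n m x s M e =>
    add W S1 ⟨g, a, n, m, 0, s, Nat.add M 1, 0⟩ C fun T => dv W S1 T (sx W) fun Q =>
      Q.use fun g' a' n' m' _ s' M' e' =>
        bnd (bnd (bnd (Nat.beq (Nat.add n' 1) n) (Nat.beq (Nat.add s' 1) s))
            (bnd (Nat.beq (Nat.add (Nat.add m m') e') 0) (Nat.beq (Nat.mod n 2) 0)))
          (mkT g' a' n' 0 x s' M' (Nat.mul (Nat.add (Nat.div n 2) x) e) k)

/-- The row of `(φ ω - φ 0) / (i sin ω)`. -/
def dq (W : Nat) (A : Tab) (k : Tab → Bool) : Bool :=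
  A.use fun g a _ _ _ s M e => cnd (Nat.beq (Nat.add M e) 0) (k z0)
    (strict (Nat.mod a (low W)) fun r => cnd (Nat.ble r (Nat.shiftLeft 1 (Nat.sub W 1)))
      (dq1 W A (cst (nt g) r s) k) (strict (Nat.sub (low W) r) fun r => dq1 W A (cst g r s) k))

/-- Change of sign for lists of sines. -/
def ngs (sg : Bool) (A : Tab) (k : Tab → Bool) : Bool := cnd sg (neg A k) (k A)

/-- A list that starts at the frequency `-2` is made to start at `0`. -/
def fd (sg : Bool) (W d : Nat) (l : List Tab) (k : List Tab → Bool) : Bool :=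
  cnd (Nat.beq d 2)
    (List.casesOn (motive := fun _ => Bool) l (k l)
      fun A r => ngs sg A fun A => addL W S1 r [z0, A] k)
    (k l)

/-- The first row of a list that starts at the frequency `-d`, `d ≤ 1`, is removed if possible. -/
def tg (sg : Bool) (W d : Nat) (l : List Tab) (k : List Tab → Bool) : Bool :=
  List.casesOn (motive := fun _ => Bool) l (k l) fun A r =>
    cnd (Nat.beq d 1) (ngs sg A fun A => addL W S1 r [A] fun r => k (z0 :: r))
      (cnd sg (k (z0 :: r)) (k l))

/-- The sum of the rows and the sums of the tails. -/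
def suf (W : Nat) (l : List Tab) : (Tab → List Tab → Bool) → Bool :=
  List.rec (motive := fun _ => (Tab → List Tab → Bool) → Bool) (fun k => k z0 [])
    (fun A _ ih k => ih fun T r => add W S1 A T fun U => k U (T :: r)) l

/-- Division of a list of sines by `2 i sin θ`. -/
def sufL (W : Nat) (l : List Tab) (k : List Tab → Bool) : Bool := suf W l fun _ r => k r

/-- The operation `f`, except for a zero row. -/
def nz (f : Tab → (Tab → Bool) → Bool) (A : Tab) (k : Tab → Bool) : Bool :=
  A.use fun _ _ _ _ _ _ M e => cnd (Nat.beq (Nat.add M e) 0) (k A) (f A k)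

/-- A bound for the size at the scale `2 ^ c`. -/
def supN (W c : Nat) (l : List Tab) (k : Nat → Bool) : Bool :=
  foldK (fun _ A t k => nz (meas W S1) A fun A => A.use fun _ _ _ _ _ s M e =>
    strict (Nat.add t (Nat.add (Nat.shiftRight (Nat.shiftLeft (Nat.add M e) c) s) 1)) k) l 0 0 k

def mulL (G : Tab) (l : List Tab) (k : List Tab → Bool) : Bool := mapK (fun _ => mul G) l 0 k

def negL (l : List Tab) (k : List Tab → Bool) : Bool := mapK (fun _ => neg) l 0 k

def subL (W : Nat) (l r : List Tab) (k : List Tab → Bool) : Bool :=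
  negL r fun r => addL W S1 l r k

def dblL (l : List Tab) (k : List Tab → Bool) : Bool := mulL (cst false 2 0) l k

/-- Cut, round and measure. -/
def trm (W n s : Nat) : Tab → (Tab → Bool) → Bool :=
  nz fun A k => trim W S1 n s A fun T => meas W S1 T k

/-- Rows are cut to the half widths `n j` and rounded. -/
def trmL (W : Nat) (n : Nat → Nat) (s : Nat) (l : List Tab) (k : List Tab → Bool) : Bool :=
  mapK (fun j A k => strict (n j) fun n => trm W n s A k) l 0 k

/-- The rows of `τ`, `τ ^ 2`, `τ ^ 3`, `τ ^ 4`. -/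
def pw4 (W : Nat) (k : Tab → Tab → Tab → Tab → Bool) : Bool :=
  mul (cx W) (cx W) fun t => mul t t fun t2 => mul t t2 fun t3 => mul t2 t2 fun t4 => k t t2 t3 t4

def one : Tab := cst false 1 0

/-- The radial derivative for the weight `ρ τ ^ q`. -/
def rrL (W L q : Nat) (n : Nat → Nat) (s : Nat) (l : List Tab) (k : List Tab → Bool) : Bool :=
  pw4 W fun t t2 _ t4 => sub W S1 t4 one fun u => mul (cst false q 1) u fun u =>
    add W S1 one u fun G => add W S1 one t fun a => add W S1 one t2 fun b => mul a b fun a =>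
    mul (cx W) a fun a => mul (sx W) a fun a => half 2 a fun H =>
    mapK (fun j A k => th W S1 L A fun T => mul H T fun T => mul G A fun U => add W S1 U T fun T =>
      strict (n j) fun n => trm W n s T k) l 0 k

def cyF (sg : Bool) (W d : Nat) (l : List Tab) (k : List Tab → Bool) : Bool :=
  cyL W S1 l fun r => fd sg W (Nat.add d 1) r k

def syF (sg : Bool) (W d : Nat) (l : List Tab) (k : List Tab → Bool) : Bool :=
  syL W S1 l fun r => fd (nt sg) W (Nat.add d 1) r k

/-- The derivative along the axis, from the lists of `f` and of `y·∇ f`. -/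
def dz (W d : Nat) (l0 l1 : List Tab) (k : List Tab → Bool) : Bool :=
  thL d l0 fun a => syF true W d a fun a => cyF false W d l1 fun b => addL W S1 a b k

/-- Minus the derivative in the direction away from the axis. -/
def pr (W d : Nat) (l0 l1 : List Tab) (k : List Tab → Bool) : Bool :=
  thL d l0 fun a => cyF true W d a fun a => syF false W d l1 fun b => addL W S1 a b k

/-- `rd f` from the result of `pr`. -/
def rdp (W d : Nat) (p : List Tab) (k : List Tab → Bool) : Bool :=
  syF true W d p fun a => negL a k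

/-- The list of `-(2 f + rd f)`. -/
def qL (W : Nat) (l0 l1 : List Tab) (k : List Tab → Bool) : Bool :=
  pr W 1 l0 l1 fun p => syF true W 0 p fun r => dblL l0 fun a => subL W r a k

/-- The first `J` rows and the others. -/
def spl (l : List Tab) : Nat → (List Tab → List Tab → Bool) → Bool :=
  List.rec (motive := fun _ => Nat → (List Tab → List Tab → Bool) → Bool) (fun _ k => k [] [])
    (fun A r ih J k => cnd (Nat.beq J 0) (k [] (A :: r))
      (strict (Nat.sub J 1) fun J => ih J fun u v => k (A :: u) v)) l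

/-- The parameters of the small tables: width, distance of rows, number of rows, half width,
scale. -/
structure Sml : Type where
  V : Nat
  S : Nat
  J : Nat
  n : Nat
  s : Nat

/-- The square of a list, as a small table; the sign is changed if `im`. -/
def sqT (P : Sml) (W e : Nat) (im sg : Bool) (d : Nat) (l : List Tab) (k : Tab → Bool) : Bool :=
  Sml.casesOn (motive := fun _ => Bool) P fun V S J n s => strict (Nat.add n e) fun n =>
    spl l J fun u v => supN W s v fun t => trmL W (fun _ => n) s u fun u =>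
    mapK (fun _ => res W V S1 10) u 0 fun u => flat sg V S1 S 8 n s d u fun T =>
    wide t (Nat.shiftLeft 1 s) T fun T => meas V S T fun T => mul T T fun T => ngs im T k

/-- The square of the size. -/
def wp2 (P : Sml) (W : Nat) (G : Tab) (sg : Bool) (d : Nat) (l : List Tab) (k : Tab → Bool) :
    Bool := mulL G l fun l => sqT P W 0 sg sg d l k

/-- The same after division by `sin ω`. -/
def wq2 (P : Sml) (W : Nat) (G : Tab) (sg : Bool) (d : Nat) (l : List Tab) (k : Tab → Bool) :
    Bool := mapK (fun _ => dq W) l 0 fun l => mulL G l fun l => sqT P W 1 (nt sg) sg d l k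

/-- `A + c B`. -/
def axp (P : Sml) (c : Nat) (A B : Tab) (k : Tab → Bool) : Bool :=
  mul (cst false c 0) B fun B => add P.V P.S A B k

/-- The type of the operations that square a list. -/
abbrev Sq : Type := Bool → Nat → List Tab → (Tab → Bool) → Bool

/-- Four times `nG2`; `d'` is the other parity. -/
def g2 (P : Sml) (W d d' : Nat) (w : Sq) (l0 l1 l2 : List Tab) (k : Tab → Bool) : Bool :=
  pr W d l0 l1 fun p0 => pr W d l1 l2 fun p1 => rdp W d' p0 fun r0 => rdp W d' p1 fun r1 =>
    pr W d r0 r1 fun q => dblL p0 fun p2 => subL W q p2 fun a => w true d' a fun T =>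
    addL W S1 q p2 fun a => w true d' a fun U => axp P 3 T U fun T => dz W d r0 r1 fun e =>
    w false d' e fun U => axp P 4 T U fun T =>
    dz W d l0 l1 fun y0 => dblL y0 fun a => addL W S1 a e fun a => w false d' a fun U =>
    axp P 4 T U fun T => dz W d l1 l2 fun y1 => subL W y1 y0 fun y1 => dz W d' y0 y1 fun a =>
    syF false W d a fun a => w true d' a fun U => axp P 4 T U k

/-- `nH2`, divided by two. -/
def h2 (P : Sml) (W : Nat) (w : Sq) (l0 l1 l2 : List Tab) (k : Tab → Bool) : Bool :=
  pr W 1 l0 l1 fun p0 => pr W 1 l1 l2 fun p1 => rdp W 0 p0 fun r0 => rdp W 0 p1 fun r1 =>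
    pr W 1 r0 r1 fun q => dblL p0 fun p2 => subL W q p2 fun a => sufL W a fun a =>
    w false 1 (z0 :: a) fun T => sufL W q fun a => w false 1 (z0 :: a) fun U =>
    axp P 1 T U fun T => dz W 1 l0 l1 fun y0 => dz W 1 l1 l2 fun y1 => subL W y1 y0 fun y1 =>
    pr W 0 y0 y1 fun a => w true 1 a fun U => axp P 1 T U fun T => dz W 0 y0 y1 fun a =>
    w false 1 a fun U => half 1 U fun U => axp P 1 T U k

/-- Twice `nG1`. -/
def g1 (P : Sml) (W d d' : Nat) (w : Sq) (l0 l1 : List Tab) (k : Tab → Bool) : Bool :=
  pr W d l0 l1 fun p => rdp W d' p fun r => w false d r fun T => dblL l0 fun a =>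
    addL W S1 a r fun a => w false d a fun U => axp P 1 T U fun T => dz W d l0 l1 fun a =>
    syF false W d' a fun a => w true d a fun U => axp P 2 T U k

/-- The first jets of `∂₃ ψ` and of `-(2 ψ + rd ψ)`. -/
def ab1 (W : Nat) (a0 a1 a2 : List Tab)
    (k : List Tab → List Tab → List Tab → List Tab → Bool) : Bool :=
  dz W 1 a0 a1 fun z => dz W 1 a1 a2 fun z1 => subL W z1 z fun z1 =>
    qL W a0 a1 fun b0 => qL W a1 a2 fun b1 => k z z1 b0 b1

/-- The last step: the square of `T` is at most `p / q`. -/
def fin2 (P : Sml) (s p q : Nat) (T : Tab) : Bool :=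
  meas P.V P.S T fun T => trim P.V P.S 100000 s T fun T => mul T T fun T =>
    meas P.V P.S T (Lt.finS p q)

/-- The row of `1 + c T`. -/
def opc (P : Sml) (c : Nat) (T : Tab) (k : Tab → Bool) : Bool := axp P c one T k

/-- Twice the sum of the squares of the first derivatives, with the weight for the scale `r + 1`. -/
def n1 (P : Sml) (W r : Nat) (a0 a1 a2 b0 b1 : List Tab) (k : Tab → Bool) : Bool :=
  ab1 W a0 a1 a2 fun z z1 c0 c1 => g1 P W 0 1 (wp2 P W one) z z1 fun T => pr W 1 c0 c1 fun a =>
    wp2 P W one true 0 a fun U => axp P 2 T U fun T => dz W 1 c0 c1 fun a =>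
    wp2 P W one false 0 a fun U => axp P 2 T U fun T => g1 P W 1 0 (wp2 P W one) b0 b1 fun U =>
    pw4 P.V fun _ t2 _ t4 => sub P.V P.S one t4 fun K => mul K U fun U => axp P 1 T U fun T =>
    opc P (Nat.mul r (Nat.add r 2)) t4 fun G => opc P r t2 fun H => mul G H fun G => mul G T k

/-- Four times the sum of the squares of the second derivatives, with the weights `G`, `H`. -/
def n2 (P : Sml) (W : Nat) (G H : Tab) (a0 a1 a2 a3 b0 b1 b2 : List Tab) (k : Tab → Bool) : Bool :=
  dz W 1 a0 a1 fun z => dz W 1 a1 a2 fun z1 => dz W 1 a2 a3 fun z2 => subL W z2 z1 fun z2 =>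
    subL W z1 z fun z1 => subL W z2 z1 fun z2 => g2 P W 0 1 (wq2 P W H) z z1 z2 fun T =>
    qL W a0 a1 fun c0 => qL W a1 a2 fun c1 => qL W a2 a3 fun c2 =>
    h2 P W (wq2 P W H) c0 c1 c2 fun U => axp P 8 T U fun T =>
    g2 P W 1 0 (wp2 P W G) b0 b1 b2 fun U => axp P 1 T U k

/-- The weights `τ ^ 3 (1 + c τ ^ 4)` and `1 - τ / 2` times this. -/
def wts (W c : Nat) (k : Tab → Tab → Bool) : Bool :=
  pw4 W fun t _ t3 t4 => mul (cst false c 0) t4 fun u => add W S1 one u fun u =>
    mul t3 u fun G => half 1 t fun h => sub W S1 one h fun h => mul h G fun H => k G H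

/-- The parameters of the jets: width, logarithm of the length, half widths, scale. -/
def jet (W L q : Nat) (n : Nat → Nat) (s : Nat) (l : List Tab)
    (k : List Tab → List Tab → Bool) : Bool :=
  rrL W L q n s l fun l1 => rrL W L q n s l1 fun l2 => k l1 l2

/-- The last step: the size is at most `p`. -/
def fin1 (P : Sml) (p : Nat) (T : Tab) : Bool := meas P.V P.S T (Lt.finS p 1)

/-- The check for the first derivatives of the velocity. -/
def pw0K (P : Sml) (W L r : Nat) (n : Nat → Nat) (s p : Nat) (a b : List Tab) : Bool :=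
  trmL W n s a fun a => trmL W n s b fun b =>
    jet W L 3 n s a fun a1 a2 => rrL W L 5 n s b fun b1 => n1 P W r a a1 a2 b b1 (fin1 P p)

/-- The check for the second derivatives of the velocity. -/
def pw1K (P : Sml) (W L r : Nat) (n : Nat → Nat) (s p : Nat) (a b : List Tab) : Bool :=
  trmL W n s a fun a => trmL W n s b fun b =>
    jet W L 3 n s a fun a1 a2 => rrL W L 3 n s a2 fun a3 => jet W L 5 n s b fun b1 b2 =>
    wts W 0 fun G H => n2 P W G H a a1 a2 a3 b b1 b2 fun T => pw4 P.V fun _ _ _ t4 =>
    opc P (Nat.mul r (Nat.add r 2)) t4 fun G => mul G T (fin1 P p)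

/-- The check for the second derivatives of the vorticity. -/
def pw2K (P : Sml) (W L r : Nat) (n : Nat → Nat) (s p : Nat) (b w : List Tab) : Bool :=
  trmL W n s b fun b => trmL W n s w fun w =>
    jet W L 5 n s b fun a1 a2 => rrL W L 5 n s a2 fun a3 => jet W L 7 n s w fun b1 b2 =>
    wts W (Nat.mul r (Nat.add r 2)) fun G H => n2 P W G H b a1 a2 a3 w b1 b2 (fin1 P p)

/-- Half widths that decrease with the number of the row. -/
def stair (c d j : Nat) : Nat :=
  Nat.mul 32 (Nat.add (Nat.div (Nat.sub c (Nat.sub c (Nat.sub d (Nat.div (Nat.mul 5 j) 4)))) 16) 1)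

/-! ### Change of the radial variable -/

/-- One step of the recurrence of the Chebyshev polynomials. -/
def cstep (W s : Nat) (n : Nat → Nat) (U : Tab) (j : Nat) (p : (Tab × Tab) × Nat × Nat)
    (k : (Tab × Tab) × Nat × Nat → Bool) : Bool :=
  usep p fun q r => usep q fun A B => usep r fun D E => mul U B fun T => sub W S1 T A fun T =>
    strict (n (Nat.add j 2)) fun n => trm W n s T fun T => lift W S1 n 0 s T fun T =>
    T.use fun g a n m _ _ M e => strict (Nat.add D e) fun D' => strict (Nat.add E D) fun E' =>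
      k ((B, ⟨g, a, n, m, 0, s, M, 0⟩), D', E')

/-- The rows of `γ T j (u)`, `j < J`, from the rows of `γ` and `u`. -/
def chebR (W s J : Nat) (n : Nat → Nat) (G U : Tab) (k : List Tab → Bool) : Bool :=
  strict (n 0) fun n0 => strict (n 1) fun n1 => trm W n0 s G fun A => lift W S1 n0 0 s A fun A =>
    mul G U fun B => trm W n1 s B fun B => lift W S1 n1 0 s B fun B =>
    mul (cst false 2 0) U fun U =>
    A.use fun g a n' m _ _ M e => B.use fun g' a' n'' m' _ _ M' e' =>
      strict (Nat.add e e') fun D =>
      iterK (cstep W s n U) J 0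
        ((⟨g, a, n', m, 0, s, M, 0⟩, ⟨g', a', n'', m', 0, s, M', 0⟩), D, e) fun l =>
        k (lmap (fun p => usep p fun q r => usep q fun A _ => usep r fun _ E => sete E A) l)

/-- The row `A` of width `V` in the new variable. -/
def conv (V W : Nat) (R : List Tab) (A : Tab) (k : Tab → Bool) : Bool :=
  A.use fun g a n m _ s M e => strict (Nat.sub V 2) fun w => dig V S1 w g a n m M fun _ y =>
    strict (Nat.div n 2) fun h =>
    bnd (bnd (Nat.beq (Nat.add m (Nat.mod n 2)) 0) (Nat.ble (Nat.add h 1) (llen R)))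
      (foldK (fun j B T k => cnd (Nat.ble j h)
          (ssub (Nat.add (dgt V y (Nat.add h j)) (dgt V y (Nat.sub h j))) (Nat.shiftLeft 2 w)
            fun g c => strict (cnd (Nat.beq j 0) (Nat.div c 2) c) fun c =>
              mul (cst g c s) B fun P => add W S1 T P k)
          (k T)) R 0 z0 fun T => wide e (Nat.shiftLeft 1 s) T k)

/-- All rows in the new variable, cut and rounded. -/
def convL (V W : Nat) (R : List Tab) (n : Nat → Nat) (s : Nat) (l : List Tab)
    (k : List Tab → Bool) : Bool :=
  mapK (fun j A k => conv V W R A fun T => strict (n j) fun n => trm W n s T k) l 0 k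

/-- The row of `(a - (a - 1) t ^ 4) ^ (-1/4)` from a stored row, `a` the value of `A`. -/
def gRow (W L b s p q : Nat) (A : Tab) (z : Nat × Nat) (k : Tab → Bool) : Bool :=
  Lt.ld1 W S1 L b s z fun G => pw4 W fun _ _ _ t4 => sub W S1 one t4 fun u => mul A u fun u =>
    add W S1 u t4 fun u => mul G G fun H => trm W 100000 (Nat.add s 8) H fun H => mul H H fun H =>
    trm W 100000 (Nat.add s 8) H fun H => mul H u fun H => sub W S1 H one fun H =>
    meas W S1 H fun H => sub W S1 G (cst false 3 2) fun K => meas W S1 K fun K =>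
    bnd (bnd (Lt.finS p q H) (Lt.finS 3 4 K)) (wide p q G k)

end

end Pool.Agent.Work.MP_6bf1e5_an.H.Pw
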