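import Pool.Agent.Lib.KTab.Defs2
import Pool.Agent.Work.MP_6bf1e5_an.H.PwD

/-! Comparison of the background with the stored tables: the computations (owner helper88). -/

namespace Pool.Agent.Work.MP_6bf1e5_an.H.Pw

open Pool.Agent.Lib.KLA Pool.Agent.Lib.KTab

noncomputable section

/-- The parameters of the change of the radial variable. -/
structure Cp : Type where
  V : Nat
  L : Nat
  n : Nat → Nat
  s : Nat
  n1 : Nat → Nat → Nat
  s1 : Nat
  W : Nat
  J : Nat
  r : Nat → Nat
  sR : Nat
  m : Nat → Nat → Nat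
  sm : Nat
  a : Nat
  gb : Nat
  gp : Nat
  gz : Nat × Nat
  c : Nat

/-- Stored half widths. -/
def wd (q : Nat) (z0 z1 z2 : Nat) (i j : Nat) : Nat :=
  Nat.mul q (dgt 8 (cnd (Nat.beq i 0) z0 (cnd (Nat.beq i 1) z1 z2)) j)

/-- Half widths that increase linearly. -/
def ramp (a b j : Nat) : Nat := Nat.mul 64 (Nat.div (Nat.add (Nat.div (Nat.mul b j) 10) a) 64)

/-- The power `q` of a row. -/
def powK (W n s : Nat) (G : Tab) (q : Nat) : (Tab → Bool) → Bool :=
  Nat.rec (motive := fun _ => (Tab → Bool) → Bool) (fun k => k one)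
    (fun _ ih k => ih fun T => mul T G fun T => trm W n s T k) q

/-- The field `x` of every row is replaced by the number of bits by which the rows before it are
to be shifted. -/
def chn (W s : Nat) (R : List Tab) : Nat → (List Tab → Bool) → Bool :=
  List.rec (motive := fun _ => Nat → (List Tab → Bool) → Bool) (fun _ k => k [])
    (fun B _ ih n k => B.use fun g a n' m _ s' M e => strict (Nat.div (Nat.sub n' n) 2) fun d =>
      strict (Nat.mul W d) fun x => strict a fun a =>
      bnd (bnd (Nat.beq (Nat.add n (Nat.mul 2 d)) n') (bnd (Nat.beq m 0) (Nat.beq s' s)))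
        (ih n' fun r => k (⟨g, a, n', 0, x, s, M, e⟩ :: r))) R

/-- The type of the loop of `conv2`. -/
abbrev Lp : Type := Nat → Nat → Nat → Nat → Nat → Nat → Bool

/-- One more term, after the shift. -/
def cvA (ih : Lp) (g : Bool) (c a n M' e' j P N M e : Nat) : Bool :=
  strict (Nat.add j 1) fun j => strict (Nat.add M (Nat.mul c M')) fun M =>
    strict (Nat.add e (Nat.mul c e')) fun e =>
    cnd g (ih j n P (Nat.add N (Nat.mul c a)) M e) (ih j n (Nat.add P (Nat.mul c a)) N M e)

/-- One more term. -/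
def cvB (ih : Lp) (g : Bool) (c a n x M' e' j P N M e : Nat) : Bool :=
  cnd (Nat.beq x 0) (cvA ih g c a n M' e' j P N M e)
    (cvA ih g c a n M' e' j (Nat.shiftLeft P x) (Nat.shiftLeft N x) M e)

/-- The loop: index, half width, positive and negative part, size, error. -/
def cvL (V y h K : Nat) (k : Nat → Nat → Nat → Nat → Nat → Bool) (R : List Tab) : Lp :=
  List.rec (motive := fun _ => Lp) (fun _ => k)
    (fun B _ ih j n P N M e => cnd (Nat.ble j h)
      (B.use fun g a n' _ x _ M' e' =>
        strict (Nat.add (dgt V y (Nat.add h j)) (dgt V y (Nat.sub h j))) fun u =>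
        cnd (Nat.ble K u)
          (strict (Nat.shiftRight (Nat.sub u K) (Nat.sub 1 j)) fun c =>
            cvB ih g c a n' x M' e' j P N M e)
          (strict (Nat.shiftRight (Nat.sub K u) (Nat.sub 1 j)) fun c =>
            cvB ih (nt g) c a n' x M' e' j P N M e))
      (k n P N M e)) R

/-- A faster `conv`, for rows at the scale `2 ^ t` that have passed `chn`. -/
def conv2 (V t : Nat) (R : List Tab) (A : Tab) (k : Tab → Bool) : Bool :=
  A.use fun g a n m _ s M e => strict (Nat.sub V 2) fun w => dig V S1 w g a n m M fun _ y =>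
    strict (Nat.div n 2) fun h => strict y fun y => strict (Nat.shiftLeft 2 w) fun K =>
    bnd (bnd (Nat.beq (Nat.add m (Nat.mod n 2)) 0) (Nat.ble (Nat.add h 1) (llen R)))
      (cvL V y h K (fun n P N M e' => ssub P N fun g a =>
        mkT g a n 0 0 (Nat.add s t) M (Nat.add e' (Nat.shiftLeft e t)) k) R 0 0 0 0 0 0)

/-- All rows in the new variable, cut and rounded. -/
def convL2 (V W t : Nat) (R : List Tab) (n : Nat → Nat) (s : Nat) (l : List Tab)
    (k : List Tab → Bool) : Bool :=
  mapK (fun j A k => conv2 V t R A fun T => strict (n j) fun n => trm W n s T k) l 0 k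

/-- The rows of `g ^ q T j (2 t g - 1)`. -/
def basR (P : Cp) (q : Nat) (k : List Tab → Bool) : Bool :=
  gRow P.W 10 P.gb P.sR P.gp (Nat.shiftLeft 1 P.sR) (cst false P.a 0) P.gz fun G =>
    powK P.W (P.r 0) P.sR G q fun H => pw4 P.W fun t _ _ _ => mul t G fun U =>
    mul (cst false 2 0) U fun U => sub P.W S1 U one fun U =>
    chebR P.W P.sR P.J P.r H U fun R => chn P.W P.sR R 0 k

/-- A list in the new variable. -/
def cvt (P : Cp) (i : Nat) (R l : List Tab) (k : List Tab → Bool) : Bool :=
  trmL P.V (P.n1 i) P.s1 l fun l => convL2 P.V P.W P.sR R (P.m i) P.sm l k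

/-- The list multiplied by `c`, cut and rounded. -/
def pre (P : Cp) (c : Nat) (l : List Tab) (k : List Tab → Bool) : Bool :=
  mulL (cst false c 0) l fun l => trmL P.V P.n P.s l k

def jt0 (P : Cp) (q c : Nat) (l : List Tab) (k : List Tab → Bool) : Bool :=
  pre P c l fun l => basR P q fun R => cvt P 0 R l k

def jt1 (P : Cp) (q c : Nat) (l : List Tab) (k : List Tab → List Tab → Bool) : Bool :=
  pre P c l fun l => rrL P.V P.L q P.n P.s l fun l1 => basR P q fun R =>
    cvt P 0 R l fun l => cvt P 1 R l1 fun l1 => k l l1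

def jt2 (P : Cp) (q c : Nat) (l : List Tab) (k : List Tab → List Tab → List Tab → Bool) : Bool :=
  pre P c l fun l => jet P.V P.L q P.n P.s l fun l1 l2 => basR P q fun R =>
    cvt P 0 R l fun l => cvt P 1 R l1 fun l1 => cvt P 2 R l2 fun l2 => k l l1 l2

/-- The rows of a stored table. -/
def ldF (W b s : Nat) (D : List (Nat × Nat)) (k : List Tab → Bool) : Bool :=
  mapK (fun _ p k => usep p fun c z => cheb2 W b 9 c s z k) D 0 k

/-- The list differs from the stored table by at most `e / 2 ^ c`. -/
def cmp (W b s c e : Nat) (sg : Bool) (D : List (Nat × Nat)) (l : List Tab) : Bool :=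
  ldF W b s D fun r => subL W l r fun r => tg sg W 0 r fun r => supN W c r fun m => Nat.ble m e

/-- The two meridional components. -/
def mC (W : Nat) (z b : List Tab) (k : List Tab → List Tab → Bool) : Bool :=
  syF false W 0 z fun a => syF true W 1 a fun a => cyF false W 1 b fun c => subL W c a fun c0 =>
    cyF false W 0 z fun a => subL W b a fun a => syF false W 1 a fun c1 => k c0 c1

/-- The meridional entries `J 0 0`, `J 0 1 + J 1 0`, `J 1 1` of the Jacobian matrix. -/
def mJ (W : Nat) (z z1 b b1 : List Tab) (k : List Tab → List Tab → List Tab → Bool) : Bool :=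
  addL W S1 z z1 fun y => syF false W 0 y fun a => syF true W 1 a fun a =>
    cyF false W 1 b1 fun c => subL W c a fun j0 => cyF false W 0 y fun a =>
    subL W b1 a fun a => syF false W 1 a fun j1 => thL 0 z fun a => syF true W 0 a fun a =>
    cyF false W 0 z fun c => subL W c a fun x => thL 1 b fun d => syF false W 1 x fun a =>
    cyF true W 1 d fun c => addL W S1 a c fun a => subL W j1 a fun j1 =>
    cyF false W 1 x fun a => syF true W 1 d fun c => addL W S1 a c fun j2 => k j0 j1 j2

/-- The rows of `t ^ 3` and `1 - t ^ 4`. -/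
def tk (W : Nat) (k : Tab → Tab → Bool) : Bool :=
  pw4 W fun _ _ t3 t4 => sub W S1 one t4 fun K => k t3 K

/-- The meridional components of a curl. -/
def kC (P : Cp) (b s e : Nat) (D0 D1 : List (Nat × Nat)) (l0 l1 : List Tab) : Bool :=
  dz P.W 1 l0 l1 fun z => qL P.W l0 l1 fun q => mC P.W z q fun c0 c1 =>
    bnd (cmp P.W b s P.c e false D0 c0) (cmp P.W b s P.c e true D1 c1)

/-- The component of the swirl. -/
def kS (P : Cp) (b s e : Nat) (D : List (Nat × Nat)) (l : List Tab) : Bool :=
  tk P.W fun _ K => syF false P.W 1 l fun a => mulL K a (cmp P.W b s P.c e true D)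

/-- The row `4 / 3 (1 - t ^ 4) + c1 t ^ 6 - c2 t ^ 2 - c3`. -/
def gV (W : Nat) (c1 c2 c3 : Tab) (k : Tab → Bool) : Bool :=
  pw4 W fun _ t2 t3 t4 => sub W S1 one t4 fun K => rat false 4 3 40 fun c => mul c K fun G =>
    mul t3 t3 fun T => mul c1 T fun T => add W S1 G T fun G => mul c2 t2 fun T =>
    sub W S1 G T fun G => sub W S1 G c3 k

/-- A diagonal entry of `V`. -/
def kD (P : Cp) (b s e : Nat) (D : List (Nat × Nat)) (T G : Tab) (c j : List Tab) : Bool :=
  subL P.W c j fun a => mulL T a fun a => dblL a fun a => addL P.W S1 a [G]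
    (cmp P.W b s P.c e false D)

/-- The meridional entries of `V`. -/
def kV (P : Cp) (b s e : Nat) (c1 c2 c3 : Tab) (D0 D1 D2 D3 : List (Nat × Nat))
    (l0 l1 l2 : List Tab) : Bool :=
  ab1 P.W l0 l1 l2 fun z z1 q q1 => mC P.W z q fun c0 _ => mJ P.W z z1 q q1 fun j0 j1 j2 =>
    tk P.W fun T K => mulL K c0 fun c0 => gV P.W c1 c2 c3 fun G =>
    bnd (bnd (kD P b s e D0 T G c0 j0) (kD P b s e D2 T G c0 j2))
      (bnd (kD P b s e D3 T G c0 z)
        (mulL T j1 fun a => negL a (cmp P.W b s P.c e true D1)))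

/-- The entries of `V` with the swirl. -/
def kV2 (P : Cp) (b s e : Nat) (D0 D1 : List (Nat × Nat)) (l0 l1 : List Tab) : Bool :=
  tk P.W fun T _ => bnd
    (syF false P.W 1 l1 fun a => mulL T a fun a => negL a (cmp P.W b s P.c e true D0))
    (thL 1 l0 fun a => syF true P.W 1 a fun a => mulL T a fun a =>
      negL a (cmp P.W b s P.c e false D1))

/-- The comparison of `2 T l`. -/
def kE (P : Cp) (b s e : Nat) (sg : Bool) (D : List (Nat × Nat)) (T : Tab) (l : List Tab) : Bool :=
  mulL T l fun a => dblL a (cmp P.W b s P.c e sg D)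

/-- The comparison of `2 T (l - 2 K c)`. -/
def kF (P : Cp) (b s e : Nat) (sg : Bool) (D : List (Nat × Nat)) (T K : Tab) (l c : List Tab) :
    Bool := mulL K c fun c => dblL c fun c => subL P.W l c (kE P b s e sg D T)

/-- The meridional entries of `B`. -/
def kB (P : Cp) (b s e : Nat) (D0 D1 D2 D3 D4 : List (Nat × Nat)) (l0 l1 l2 : List Tab) : Bool :=
  ab1 P.W l0 l1 l2 fun z z1 q q1 => mC P.W z q fun c0 c1 => mJ P.W z z1 q q1 fun j0 j1 j2 =>
    tk P.W fun T K =>
    bnd (bnd (dblL j0 fun a => kF P b s e false D0 T K a c0) (kF P b s e true D1 T K j1 c1))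
      (bnd (kE P b s e true D2 T j1) (bnd (dblL j2 (kE P b s e false D3 T))
        (dblL z (kE P b s e false D4 T))))

/-- The entries of `B` with the swirl. -/
def kB2 (P : Cp) (b s e : Nat) (D0 D1 D2 D3 : List (Nat × Nat)) (l0 l1 : List Tab) : Bool :=
  tk P.W fun T K => syF false P.W 1 l0 fun c => syF false P.W 1 l1 fun j =>
    thL 1 l0 fun a => syF true P.W 1 a fun a =>
    bnd (bnd (kF P b s e true D0 T K j c) (kE P b s e true D1 T j))
      (bnd (kE P b s e false D2 T a) (kE P b s e false D3 T a))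

end

end Pool.Agent.Work.MP_6bf1e5_an.H.Pw
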