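import Pool.Agent.Work.MP_6bf1e5_an.H.ClJ
import Pool.Agent.Work.MP_6bf1e5_an.H.LtV

/-! Comparison of the background with the stored tables: the entries (owner helper11). -/

open scoped ContDiff

namespace Pool.Agent.Work.MP_6bf1e5_an.H.Pw

open Pool.Agent.Lib.KLA Pool.Agent.Lib.KTab Pool.Agent.Lib.KBlk Complex Lt

/-- Off the axis `f` and `g` differ by at most `tau 1 ^ k * ε`. -/
def Nr (k : ℕ) (ε : ℝ) (f g : Sc) : Prop := ∀ y, Off y → |f y - g y| ≤ tau 1 y ^ k * ε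

variable {W q k b s c e : ℕ} {p : ℤ} {sg : Bool} {l r z z1 l0 l1 l2 : List KT} {D : LT}
  {f g α β ψ w : Sc} {P : Cp} {T K G : KT} {C : Rg} {ε : ℝ}

theorem Nr.congr {f' g' : Sc} (h : Nr k ε f g) (e : ∀ y, Off y → f' y - g' y = f y - g y) :
    Nr k ε f' g' := fun y hy => (congrArg _ (e y hy)).trans_le (h y hy)

theorem cmp_lr (h : Lr (rg1 W q) p sg 0 l f) (hk : cmp W b s c e sg D l = true) {y : R3}
    (hy : Off y) : |f y - ‖y‖ ^ p * tau 1 y ^ q * tbF sg b s D y| ≤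
      ‖y‖ ^ p * tau 1 y ^ q * (e / 2 ^ c) :=
  (cmp_ok rfl h hk hy).trans_eq (congrArg (· * _) (abs_of_nonneg
    (mul_nonneg (zpow_nonneg (norm_nonneg y) p) (pow_nonneg (tau_mem y).1 q))))

theorem cmp_u (h : Lr (rg1 W (k + 2)) 1 sg 0 l f) (hk : cmp W b s c e sg D l = true) :
    Nr k (e / 2 ^ c) f fun y => tau 1 y ^ k * (kA 1 y * tbF sg b s D y) := fun y hy => by
  have t := cmp_lr h hk hy
  rw [zpow_one, pow_add, mul_left_comm, norm_tau, mul_assoc, mul_assoc] at t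
  exact t.trans (mul_le_mul_of_nonneg_left (mul_le_of_le_one_left (by positivity)
    ((le_abs_self _).trans (abs_kA y))) (pow_nonneg (tau_mem y).1 k))

theorem Nr.tau (h : Nr k ε f g) :
    Nr (k + 1) ε (fun y => tau 1 y * f y) fun y => tau 1 y * g y := fun y hy => by
  rw [← mul_sub, abs_mul, abs_of_nonneg (tau_mem y).1, pow_succ', mul_assoc]
  exact mul_le_mul_of_nonneg_left (h y hy) (tau_mem y).1

theorem cmp_0 (h : Lr (rg1 W k) 0 sg 0 l f) (hk : cmp W b s c e sg D l = true) :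
    Nr (k + 1) (e / 2 ^ c) (fun y => tau 1 y * f y)
      fun y => tau 1 y ^ (k + 1) * (1 * tbF sg b s D y) :=
  (Nr.tau (g := fun y => tau 1 y ^ k * tbF sg b s D y) fun y hy => by
    simpa only [zpow_zero, one_mul] using cmp_lr h hk hy).congr fun _ _ => by ring

theorem cmp_1 (h : Lr (rg1 W (k + 2)) 1 sg 0 l f) (hk : cmp W b s c e sg D l = true) :
    Nr (k + 1) (e / 2 ^ c) (fun y => tau 1 y * f y)
      fun y => tau 1 y ^ (k + 1) * (kA 1 y * tbF sg b s D y) :=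
  (cmp_u h hk).tau.congr fun _ _ => by ring

theorem mC_lr (hz : Lr C 0 false 0 z α) (hb : Lr C 1 false 1 l β) (w : Sc)
    {k : List KT → List KT → Bool} (hk : mC C.W z l k = true) : ∃ c0 c1,
      Lr C 1 false 0 c0 (AxC α β w 0) ∧ Lr C 1 true 0 c1 (AxC α β w 1) ∧ k c0 c1 = true := by
  obtain ⟨_, a, hk⟩ := syF_cos (d' := 1) rfl hz _ hk
  obtain ⟨_, a, hk⟩ := syF_sin (d' := 0) rfl a _ hk
  obtain ⟨_, c, hk⟩ := cyF_lr (d' := 0) rfl hb _ hk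
  obtain ⟨c0, h0, hk⟩ := subL_lr c (a.up rfl) _ hk
  obtain ⟨_, a, hk⟩ := cyF_lr (d' := 1) rfl hz _ hk
  obtain ⟨_, a, hk⟩ := subL_lr hb (a.up rfl) _ hk
  obtain ⟨c1, h1, hk⟩ := syF_cos (d' := 0) rfl a _ hk
  refine ⟨c0, c1, h0.congr fun y _ => ?_, h1.congr fun y _ => ?_, hk⟩ <;> simp [AxC] <;> ring

theorem mJ_lr (hC : C.OK) (hα : ContDiff ℝ ∞ α) (hβ : ContDiff ℝ ∞ β) (hz : Lr C 0 false 0 z α)
    (hz1 : Lr C 0 false 0 z1 (yd α)) (hb : Lr C 1 false 1 l β) (hb1 : Lr C 1 false 1 l1 (yd β))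
    (w : Sc) {k : List KT → List KT → List KT → Bool} (hk : mJ C.W z z1 l l1 k = true) :
    ∃ j0 j1 j2, Lr C 0 false 0 j0 (AxJ α β w 0 0) ∧
      Lr C 0 true 0 j1 (fun y => AxJ α β w 0 1 y + AxJ α β w 1 0 y) ∧
      Lr C 0 false 0 j2 (AxJ α β w 1 1) ∧ k j0 j1 j2 = true := by
  have hb2 := hb1.down (p := 0) rfl
  obtain ⟨_, y, hk⟩ := addL_lr hz hz1 _ hk
  obtain ⟨_, a, hk⟩ := syF_cos (d' := 1) rfl y _ hk
  obtain ⟨_, a, hk⟩ := syF_sin (d' := 0) rfl a _ hk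
  obtain ⟨_, c, hk⟩ := cyF_lr (d' := 0) rfl hb2 _ hk
  obtain ⟨j0, h0, hk⟩ := subL_lr c a _ hk
  obtain ⟨_, a, hk⟩ := cyF_lr (d' := 1) rfl y _ hk
  obtain ⟨_, a, hk⟩ := subL_lr hb2 a _ hk
  obtain ⟨_, h1, hk⟩ := syF_cos (d' := 0) rfl a _ hk
  obtain ⟨_, a, hk⟩ := thL_lr hC hα hz _ hk
  obtain ⟨_, a, hk⟩ := syF_sin (d' := 1) rfl a _ hk
  obtain ⟨_, c, hk⟩ := cyF_lr (d' := 1) rfl hz _ hk
  obtain ⟨_, x, hk⟩ := subL_lr c a _ hk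
  obtain ⟨_, d, hk⟩ := thL_lr hC hβ hb _ hk
  replace d := d.down (p := 0) rfl
  obtain ⟨_, a, hk⟩ := syF_cos (d' := 0) rfl x _ hk
  obtain ⟨_, c, hk⟩ := cyF_lr (d' := 0) rfl d _ hk
  obtain ⟨_, a, hk⟩ := addL_lr a c _ hk
  obtain ⟨j1, h1, hk⟩ := subL_lr h1 a _ hk
  obtain ⟨_, a, hk⟩ := cyF_lr (d' := 0) rfl x _ hk
  obtain ⟨_, c, hk⟩ := syF_sin (d' := 0) rfl d _ hk
  obtain ⟨j2, h2, hk⟩ := addL_lr a c _ hk
  refine ⟨j0, j1, j2, h0.congr fun y _ => ?_, h1.congr fun y _ => ?_, h2.congr fun y _ => ?_, hk⟩ <;>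
    simp [AxJ] <;> ring

theorem one_rep (b : Bool) (W : ℕ) : Rep b W S1 one fun _ _ => (1 : ℝ) :=
  (cst_rep b W S1 false 1 0).congr fun _ _ => by simp [sv]

/-- The row `T` describes `γ (tau 1)`. -/
def Rw (W : ℕ) (T : KT) (γ : ℝ → ℝ) : Prop := Rep false W S1 T fun u _ => γ (Real.cos u ^ 2)

theorem tk_ok {k : KT → KT → Bool} (hk : tk W k = true) : ∃ T K, Rw W T (fun t => t ^ 3) ∧
    Rw W K (fun t => 1 - t ^ 4) ∧ k T K = true := by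
  obtain ⟨_, _, T, _, -, -, h3, h4, hk⟩ := pw4_ok false W S1 hk
  obtain ⟨K, hK, hk⟩ := sub_ok (one_rep false W) h4 _ hk
  exact ⟨T, K, h3, hK.congr fun _ _ => ofReal_sub _ _, hk⟩

theorem Rw.mul {γ : ℝ → ℝ} {d : ℕ} (hT : Rw W T γ) (h : Lr (rg1 W q) p sg d l f) :
    Ok (mulL T l) fun u => Lr (rg1 W q) p sg d u fun y => γ (tau 1 y) * f y :=
  (mulL_lr (C := rg1 W q) (γ := fun u => γ (Real.cos u ^ 2)) hT h).mono fun _ i =>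
    i.congr fun y _ => by rw [← cos_an1_sq one_pos y]; rfl

theorem k_eq (y : R3) : 1 - tau 1 y ^ 4 = ‖y‖ ^ 2 * tau 1 y ^ 4 := by
  linear_combination -tau_four one_pos y

variable {d : Fin 3 → LT} {m : Fin 3 → Fin 3 → LT}

theorem kC_ok (hψ : ContDiff ℝ ∞ ψ) (h0 : Lr (rg1 P.W (k + 2)) 1 false 1 l0 ψ)
    (h1 : Lr (rg1 P.W (k + 2)) 1 false 1 l1 (yd ψ)) (w : Sc)
    (hk : kC P b s e (d 0) (d 1) l0 l1 = true) :
    Nr k (e / 2 ^ P.c) (AxC (pd 2 ψ) (ResAxi_q ψ) w 0) (vecC k b s d 0) ∧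
      Nr k (e / 2 ^ P.c) (AxC (pd 2 ψ) (ResAxi_q ψ) w 1) (vecC k b s d 1) := by
  obtain ⟨_, z, hk⟩ := dz_lr (rg1_ok _ _) (p := 0) (d' := 0) rfl rfl hψ h0 h1 _ hk
  obtain ⟨_, a, hk⟩ := qL_lr (rg1_ok _ _) hψ h0 h1 _ hk
  obtain ⟨_, _, c0, c1, hk⟩ := mC_lr z a w hk
  rw [bnd_iff] at hk
  exact ⟨cmp_u c0 hk.1, cmp_u c1 hk.2⟩

theorem kS_ok (h : Lr (rg1 P.W (k + 4)) 1 false 1 l w) (α β : Sc)
    (hk : kS P b s e (d 2) l = true) : Nr k (e / 2 ^ P.c) (AxC α β w 2) (vecC k b s d 2) := by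
  obtain ⟨_, _, -, hK, hk⟩ := tk_ok hk
  obtain ⟨_, a, hk⟩ := syF_cos (d' := 0) rfl h _ hk
  obtain ⟨_, a, hk⟩ := hK.mul a _ hk
  intro y hy
  have t := cmp_lr a hk hy
  have t0 := mul_pos hy.norm_pos (pow_pos (tau_pos one_pos y) 4)
  refine le_of_mul_le_mul_left (le_of_eq_of_le ?_ (t.trans_eq (by rw [zpow_one]; ring))) t0
  rw [← abs_of_pos t0, ← abs_mul, k_eq, zpow_one]
  congr 1
  simp [AxC, vecC, kv]
  ring

theorem vec_of (hψ : ContDiff ℝ ∞ ψ)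
    (h : ∀ a, Nr k ε (AxC (pd 2 ψ) (ResAxi_q ψ) w a) (vecC k b s d a)) : ∀ᵐ y,
    ∑ i, (fld (sm ψ Jv) (sm w Jv) i y - vecV k b s d i y) ^ 2 ≤ 3 * ε ^ 2 * tau 1 y ^ (2 * k) :=
  ae_off.mono fun y hy => by
    have t := hy.sq_vF (AxC (pd 2 ψ) (ResAxi_q ψ) w - vecC k b s d)
    simp only [vF_sub, Pi.sub_apply] at t
    simp only [fld_AxV hψ, hy.AxV_eq, vecV, t]
    refine (Finset.sum_le_sum fun a _ => sq_le_sq' (abs_le.1 (h a y hy)).1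
      (abs_le.1 (h a y hy)).2).trans_eq ?_
    simp
    ring

theorem kE_ok (hT : Rw P.W T fun t => t ^ 3) (h : Lr (rg1 P.W q) p sg 0 l f)
    (hk : kE P b s e sg D T l = true) : ∃ r, Lr (rg1 P.W q) p sg 0 r
      (fun y => 2 * (tau 1 y ^ 3 * f y)) ∧ cmp P.W b s P.c e sg D r = true :=
  (hT.mul h).bind (fun _ a => dblL_lr a) _ hk

theorem kF_ok (hT : Rw P.W T fun t => t ^ 3) (hK : Rw P.W K fun t => 1 - t ^ 4)
    (h : Lr (rg1 P.W q) p sg 0 l f) (h' : Lr (rg1 P.W q) p sg 0 r g)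
    (hk : kF P b s e sg D T K l r = true) : ∃ r, Lr (rg1 P.W q) p sg 0 r
      (fun y => 2 * (tau 1 y ^ 3 * (f y - 2 * ((1 - tau 1 y ^ 4) * g y)))) ∧
        cmp P.W b s P.c e sg D r = true := by
  obtain ⟨_, a, hk⟩ := hK.mul h' _ hk
  obtain ⟨_, a, hk⟩ := dblL_lr a _ hk
  obtain ⟨_, a, hk⟩ := subL_lr h a _ hk
  exact kE_ok hT a hk

/-- The frame components of `BB`. -/
noncomputable def BC (α β w : Sc) : Mc := fun a c y =>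
  Om y * (AxJ α β w a c y + AxJ α β w c a y) -
    Om y ^ 2 * (if a = 0 then ‖y‖ else 0) * AxC α β w c y

/-- The frame components of `AA`. -/
noncomputable def AC (α β w : Sc) : Mc := fun a c y =>
  Om y * ((if a = c then (2 - Om y) / 3 + Om y * (‖y‖ * AxC α β w 0 y) / 2 else 0)
    - (AxJ α β w a c y + AxJ α β w c a y) / 2)

theorem k_div {y : R3} (hy : Off y) (x : ℝ) :
    (1 - tau 1 y ^ 4) * (x / ‖y‖) = ‖y‖ * tau 1 y ^ 4 * x := by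
  have := hy.norm_pos.ne'
  rw [k_eq]
  field_simp

theorem q_smooth (hψ : ContDiff ℝ ∞ ψ) : ContDiff ℝ ∞ (ResAxi_q ψ) :=
  ((contDiff_const.mul hψ).add (ResAxi_rd_smooth hψ)).neg

theorem kB_ok (hψ : ContDiff ℝ ∞ ψ) (h0 : Lr (rg1 P.W 5) 1 false 1 l0 ψ)
    (h1 : Lr (rg1 P.W 5) 1 false 1 l1 (yd ψ)) (h2 : Lr (rg1 P.W 5) 1 false 1 l2 (yd (yd ψ)))
    (w : Sc) (hk : kB P b s e (m 0 0) (m 0 1) (m 1 0) (m 1 1) (m 2 2) l0 l1 l2 = true)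
    (a c : Fin 3) (h : a = 2 ↔ c = 2) :
    Nr 6 (e / 2 ^ P.c) (BC (pd 2 ψ) (ResAxi_q ψ) w a c) (tabC 6 b s m a c) := by
  obtain ⟨_, _, _, _, z, z1, q, q1, hk⟩ := ab1_lr (rg1_ok _ _) (p := 0) rfl hψ h0 h1 h2 hk
  obtain ⟨_, _, c0, c1, hk⟩ := mC_lr z q w hk
  obtain ⟨_, _, _, j0, j1, j2, hk⟩ := mJ_lr (rg1_ok _ _) (ResHl_sm_pd hψ 2) (q_smooth hψ)
    z z1 q q1 w hk
  obtain ⟨_, _, hT, hK, hk⟩ := tk_ok hk
  simp only [bnd_iff] at hk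
  obtain ⟨⟨k0, k1⟩, k2, k3, k4⟩ := hk
  obtain ⟨_, a0, k0⟩ := dblL_lr j0 _ k0
  obtain ⟨_, a0, k0⟩ := kF_ok hT hK a0 (c0.down rfl) k0
  obtain ⟨_, a1, k1⟩ := kF_ok hT hK j1 (c1.down rfl) k1
  obtain ⟨_, a2, k2⟩ := kE_ok hT j1 k2
  obtain ⟨_, a3, k3⟩ := dblL_lr j2 _ k3
  obtain ⟨_, a3, k3⟩ := kE_ok hT a3 k3
  obtain ⟨_, a4, k4⟩ := dblL_lr z _ k4
  obtain ⟨_, a4, k4⟩ := kE_ok hT a4 k4
  fin_cases a <;> fin_cases c <;> simp at h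
  · exact (cmp_0 a0 k0).congr fun y hy => by
      rw [k_div hy]; simp [BC, tabC, kf, ety, Om_eq_tau]; ring
  · exact (cmp_0 a1 k1).congr fun y hy => by
      rw [k_div hy]; simp [BC, tabC, kf, ety, Om_eq_tau]; ring
  · exact (cmp_0 a2 k2).congr fun y hy => by simp [BC, tabC, kf, ety, Om_eq_tau]; ring
  · exact (cmp_0 a3 k3).congr fun y hy => by simp [BC, tabC, kf, ety, Om_eq_tau]; ring
  · exact (cmp_0 a4 k4).congr fun y hy => by simp [BC, tabC, kf, ety, Om_eq_tau, AxJ]; ring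

theorem kB2_ok (hw : ContDiff ℝ ∞ w) (h0 : Lr (rg1 P.W 7) 1 false 1 l0 w)
    (h1 : Lr (rg1 P.W 7) 1 false 1 l1 (yd w)) (α β : Sc)
    (hk : kB2 P b s e (m 0 2) (m 2 0) (m 1 2) (m 2 1) l0 l1 = true)
    (a c : Fin 3) (h : ¬(a = 2 ↔ c = 2)) :
    Nr 6 (e / 2 ^ P.c) (BC α β w a c) (tabC 6 b s m a c) := by
  obtain ⟨_, _, hT, hK, hk⟩ := tk_ok hk
  obtain ⟨_, x, hk⟩ := syF_cos (d' := 0) rfl h0 _ hk
  obtain ⟨_, j, hk⟩ := syF_cos (d' := 0) rfl h1 _ hk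
  obtain ⟨_, t, hk⟩ := thL_lr (rg1_ok _ _) hw h0 _ hk
  obtain ⟨_, t, hk⟩ := syF_sin (d' := 0) rfl t _ hk
  simp only [bnd_iff] at hk
  obtain ⟨⟨k0, k1⟩, k2, k3⟩ := hk
  obtain ⟨_, a0, k0⟩ := kF_ok hT hK j x k0
  obtain ⟨_, a1, k1⟩ := kE_ok hT j k1
  obtain ⟨_, a2, k2⟩ := kE_ok hT t k2
  obtain ⟨_, a3, k3⟩ := kE_ok hT t k3
  fin_cases a <;> fin_cases c <;> simp at h
  · exact (cmp_1 a0 k0).congr fun y hy => by
      rw [k_eq]; simp [BC, tabC, kf, ety, Om_eq_tau, AxJ, AxC]; ring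
  · exact (cmp_1 a2 k2).congr fun y hy => by simp [BC, tabC, kf, ety, Om_eq_tau, AxJ]; ring
  · exact (cmp_1 a1 k1).congr fun y hy => by simp [BC, tabC, kf, ety, Om_eq_tau, AxJ]; ring
  · exact (cmp_1 a3 k3).congr fun y hy => by simp [BC, tabC, kf, ety, Om_eq_tau, AxJ]; ring

theorem BB_eq {y : R3} (hy : Off y) (hα : Axi α) (hβ : Axi β) (hw : Axi w) (i j : Fin 3) :
    BB (AxV α β w) i j y = mF (BC α β w) i j y := by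
  have h1 := hy.jac_AxV hα hβ hw i j
  have h2 := hy.jac_AxV hα hβ hw j i
  have h3 := hy.pos_eq i
  simp only [jac, pos] at h1 h2 h3
  rw [BB, h1, h2, h3, hy.AxV_eq]
  simp [mF, vF, BC, Fin.sum_univ_three]
  ring

theorem AA_eq {y : R3} (hy : Off y) (hα : Axi α) (hβ : Axi β) (hw : Axi w) (i j : Fin 3) :
    AA (AxV α β w) i j y = mF (AC α β w) i j y := by
  have h1 := hy.jac_AxV hα hβ hw i j
  have h2 := hy.jac_AxV hα hβ hw j i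
  have h3 : dot pos (AxV α β w) y = ‖y‖ * AxC α β w 0 y := by
    simpa [dot, ← hy.pos_eq, ← hy.AxV_eq, Fin.sum_univ_three] using
      hy.dot_vF ![fun y => ‖y‖, 0, 0] (AxC α β w)
  have h4 := hy.one_eq (fun y => (2 - Om y) / 3 + Om y * (‖y‖ * AxC α β w 0 y) / 2) i j
  simp only [jac] at h1 h2
  rw [AA, h1, h2, h3, h4]
  simp [mF, AC, Fin.sum_univ_three]
  ring

theorem mat_of (xψ : Axi ψ) (xw : Axi w)
    (h : ∀ a c, Nr 6 ε (BC (pd 2 ψ) (ResAxi_q ψ) w a c) (tabC 6 b s m a c)) : ∀ᵐ y, ∑ i, ∑ j,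
      (BB (fld (sm ψ Jv) (sm w Jv)) i j y - tabM 6 b s m i j y) ^ 2 ≤ 9 / 8 * ε ^ 2 * Om y ^ 3 :=
  ae_off.mono fun y hy => by
    have t := hy.sq_mF (BC (pd 2 ψ) (ResAxi_q ψ) w - tabC 6 b s m)
    simp only [mF_sub, Pi.sub_apply] at t
    simp only [fld_AxV xψ.smooth, BB_eq hy xψ.pd_two (ResAxi_axi_q xψ) xw, tabM, t]
    refine (Finset.sum_le_sum fun a _ => Finset.sum_le_sum fun c _ =>
      sq_le_sq' (abs_le.1 (h a c y hy)).1 (abs_le.1 (h a c y hy)).2).trans_eq ?_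
    simp [Om_eq_tau]
    ring

variable {c1 c2 c3 : KT} {x1 x2 x3 : ℝ}

theorem gV_ok (h1 : Rw W c1 fun _ => x1) (h2 : Rw W c2 fun _ => x2) (h3 : Rw W c3 fun _ => x3) :
    Ok (gV W c1 c2 c3) fun G =>
      Rw W G fun t => 4 / 3 * (1 - t ^ 4) + x1 * t ^ 6 - x2 * t ^ 2 - x3 := fun k hk => by
  obtain ⟨_, _, _, _, -, t2, t3, t4, hk⟩ := pw4_ok false W S1 hk
  obtain ⟨_, a, hk⟩ := sub_ok (one_rep false W) t4 _ hk
  obtain ⟨_, c, hk⟩ := rat_ok false W S1 false 4 3 40 _ hk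
  obtain ⟨_, a, hk⟩ := mul_ok c a _ hk
  obtain ⟨_, c, hk⟩ := mul_ok t3 t3 _ hk
  obtain ⟨_, c, hk⟩ := mul_ok h1 c _ hk
  obtain ⟨_, a, hk⟩ := add_ok a c _ hk
  obtain ⟨_, c, hk⟩ := mul_ok h2 t2 _ hk
  obtain ⟨_, a, hk⟩ := sub_ok a c _ hk
  refine (sub_ok a h3).mono (fun _ i => i.congr fun _ _ => ?_) k hk
  simp only [sv, Bool.false_eq_true, if_false]
  push_cast
  ring

theorem Rw.lr {γ : ℝ → ℝ} (h : Rw W G γ) (q : ℕ) :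
    Lr (rg1 W q) 0 false 0 [G] fun y => tau 1 y ^ q * γ (tau 1 y) :=
  ⟨_, RepL_cons h (RepL_nil.2 fun _ _ => rfl), fun y _ => by
    simp only [rg1, cos_an1_sq one_pos, io, bas_false]
    simp⟩

theorem kD_ok {γ : ℝ → ℝ} (hT : Rw P.W T fun t => t ^ 3) (hG : Rw P.W G γ)
    (h : Lr (rg1 P.W 3) 0 false 0 l f) (h' : Lr (rg1 P.W 3) 0 false 0 r g)
    (hk : kD P b s e D T G l r = true) : Nr 4 (e / 2 ^ P.c)
      (fun y => tau 1 y * (2 * (tau 1 y ^ 3 * (f y - g y)) + tau 1 y ^ 3 * γ (tau 1 y)))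
      fun y => tau 1 y ^ 4 * (1 * tbF false b s D y) := by
  obtain ⟨_, a, hk⟩ := subL_lr h h' _ hk
  obtain ⟨_, a, hk⟩ := hT.mul a _ hk
  obtain ⟨_, a, hk⟩ := dblL_lr a _ hk
  obtain ⟨_, a, hk⟩ := addL_lr a (hG.lr 3) _ hk
  exact cmp_0 a hk

/-- The matrix that is compared with `V`. -/
noncomputable def VC (x1 x2 x3 : ℝ) (α β w : Sc) : Mc := fun a c y => AC α β w a c y +
  if a = c then tau 1 y ^ 4 * (x1 * tau 1 y ^ 6 - x2 * tau 1 y ^ 2 - x3) else 0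

variable {v0 v1 v2 v3 v4 v5 : LT}

theorem kV_ok (hψ : ContDiff ℝ ∞ ψ) (h0 : Lr (rg1 P.W 3) 1 false 1 l0 ψ)
    (h1 : Lr (rg1 P.W 3) 1 false 1 l1 (yd ψ)) (h2 : Lr (rg1 P.W 3) 1 false 1 l2 (yd (yd ψ)))
    (g1 : Rw P.W c1 fun _ => x1) (g2 : Rw P.W c2 fun _ => x2) (g3 : Rw P.W c3 fun _ => x3)
    (w : Sc) (hk : kV P b s e c1 c2 c3 v0 v1 v3 v5 l0 l1 l2 = true)
    (a c : Fin 3) (h : a = 2 ↔ c = 2) : Nr 4 (e / 2 ^ P.c)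
      (VC x1 x2 x3 (pd 2 ψ) (ResAxi_q ψ) w a c) (tabC 4 b s (sy6 v0 v1 v2 v3 v4 v5) a c) := by
  obtain ⟨_, _, _, _, z, z1, q, q1, hk⟩ := ab1_lr (rg1_ok _ _) (p := 0) rfl hψ h0 h1 h2 hk
  obtain ⟨_, _, c0, -, hk⟩ := mC_lr z q w hk
  obtain ⟨_, _, _, j0, j1, j2, hk⟩ := mJ_lr (rg1_ok _ _) (ResHl_sm_pd hψ 2) (q_smooth hψ)
    z z1 q q1 w hk
  obtain ⟨_, _, hT, hK, hk⟩ := tk_ok hk
  obtain ⟨_, c0, hk⟩ := hK.mul (c0.down (p := 0) rfl) _ hk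
  obtain ⟨_, hG, hk⟩ := gV_ok g1 g2 g3 _ hk
  simp only [bnd_iff] at hk
  obtain ⟨⟨k0, k1⟩, k2, k3⟩ := hk
  obtain ⟨_, a3, k3⟩ := hT.mul j1 _ k3
  obtain ⟨_, a3, k3⟩ := negL_lr a3 _ k3
  fin_cases a <;> fin_cases c <;> simp at h
  · exact (kD_ok hT hG c0 j0 k0).congr fun y hy => by
      rw [k_div hy]; simp [VC, AC, tabC, kf, ety, sy6, Om_eq_tau]; ring
  · exact (cmp_0 a3 k3).congr fun y hy => by simp [VC, AC, tabC, kf, ety, sy6, Om_eq_tau]; ring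
  · exact (cmp_0 a3 k3).congr fun y hy => by simp [VC, AC, tabC, kf, ety, sy6, Om_eq_tau]; ring
  · exact (kD_ok hT hG c0 j2 k1).congr fun y hy => by
      rw [k_div hy]; simp [VC, AC, tabC, kf, ety, sy6, Om_eq_tau]; ring
  · exact (kD_ok hT hG c0 z k2).congr fun y hy => by
      rw [k_div hy]; simp [VC, AC, tabC, kf, ety, sy6, Om_eq_tau, AxJ]; ring

theorem kV2_ok (hw : ContDiff ℝ ∞ w) (h0 : Lr (rg1 P.W 5) 1 false 1 l0 w)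
    (h1 : Lr (rg1 P.W 5) 1 false 1 l1 (yd w)) (α β : Sc) (hk : kV2 P b s e v2 v4 l0 l1 = true)
    (a c : Fin 3) (h : ¬(a = 2 ↔ c = 2)) :
    Nr 4 (e / 2 ^ P.c) (VC x1 x2 x3 α β w a c) (tabC 4 b s (sy6 v0 v1 v2 v3 v4 v5) a c) := by
  obtain ⟨_, _, hT, -, hk⟩ := tk_ok hk
  rw [bnd_iff] at hk
  obtain ⟨k0, k1⟩ := hk
  obtain ⟨_, a0, k0⟩ := syF_cos (d' := 0) rfl h1 _ k0
  obtain ⟨_, a0, k0⟩ := hT.mul a0 _ k0
  obtain ⟨_, a0, k0⟩ := negL_lr a0 _ k0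
  obtain ⟨_, a1, k1⟩ := thL_lr (rg1_ok _ _) hw h0 _ k1
  obtain ⟨_, a1, k1⟩ := syF_sin (d' := 0) rfl a1 _ k1
  obtain ⟨_, a1, k1⟩ := hT.mul a1 _ k1
  obtain ⟨_, a1, k1⟩ := negL_lr a1 _ k1
  fin_cases a <;> fin_cases c <;> simp at h
  · exact (cmp_1 a0 k0).congr fun y hy => by
      simp [VC, AC, tabC, kf, ety, sy6, Om_eq_tau, AxJ]; ring
  · exact (cmp_1 a1 k1).congr fun y hy => by
      simp [VC, AC, tabC, kf, ety, sy6, Om_eq_tau, AxJ]; ring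
  · exact (cmp_1 a0 k0).congr fun y hy => by
      simp [VC, AC, tabC, kf, ety, sy6, Om_eq_tau, AxJ]; ring
  · exact (cmp_1 a1 k1).congr fun y hy => by
      simp [VC, AC, tabC, kf, ety, sy6, Om_eq_tau, AxJ]; ring

theorem quad_le {M : Fin 3 → Fin 3 → ℝ} {η : ℝ} (h : ∀ a c, |M a c| ≤ η) (q : Fin 3 → ℝ) :
    -(3 * η * ∑ a, q a ^ 2) ≤ ∑ a, ∑ c, q a * M a c * q c := by
  have t : ∀ a c, -(η * ((q a ^ 2 + q c ^ 2) / 2)) ≤ q a * M a c * q c := fun a c => by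
    refine neg_le_of_abs_le ?_
    rw [mul_right_comm, abs_mul, mul_comm]
    refine mul_le_mul (h a c) ?_ (abs_nonneg _) ((abs_nonneg _).trans (h a c))
    rw [abs_le]
    constructor <;> nlinarith [sq_nonneg (q a + q c), sq_nonneg (q a - q c)]
  refine le_of_eq_of_le ?_ (Finset.sum_le_sum fun a _ => Finset.sum_le_sum fun c _ => t a c)
  simp only [Fin.sum_univ_three]
  ring

theorem quad_of (xψ : Axi ψ) (xw : Axi w) {A B δ : ℝ}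
    (h : ∀ a c, Nr 4 ε (VC x1 x2 x3 (pd 2 ψ) (ResAxi_q ψ) w a c) (tabC 4 b s m a c))
    (h1 : x1 ≤ 4 * √2 * A) (h2 : 2 * √2 * B ≤ x2) (h3 : 2 * δ + 3 * ε ≤ x3) :
    ∀ᵐ y, ∀ q : Fin 3 → ℝ, ∑ i, ∑ j, q i * tabM 4 b s m i j y * q j + δ * Om y * ∑ i, q i ^ 2 ≤
      ∑ i, ∑ j, q i * AA (fld (sm ψ Jv) (sm w Jv)) i j y * q j
        + (A * Op (5 / 2) y - B * Op (3 / 2) y) * ∑ i, q i ^ 2 :=
  ae_off.mono fun y hy q => by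
    have t := quad_le (fun a c => h a c y hy) fun a => ∑ i, q i * fr a i y
    have o5 : Op (5 / 2) y = 4 * √2 * tau 1 y ^ 10 := by
      rw [show (5 / 2 : ℝ) = (5 : ℕ) / 2 by norm_num, Op_tau,
        show √2 ^ 5 = (√2 ^ 2) ^ 2 * √2 by ring, Real.sq_sqrt zero_le_two]
      norm_num
    have o3 : Op (3 / 2) y = 2 * √2 * tau 1 y ^ 6 := by
      rw [show (3 / 2 : ℝ) = (3 : ℕ) / 2 by norm_num, Op_tau, pow_succ, Real.sq_sqrt zero_le_two]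
    simp only [fld_AxV xψ.smooth, AA_eq hy xψ.pd_two (ResAxi_axi_q xψ) xw, tabM, quad_mF, o5, o3,
      Om_eq_tau, ← hy.sq_comp q]
    have key : ∀ u : Fin 3 → ℝ, ∑ a, ∑ c, u a * (VC x1 x2 x3 (pd 2 ψ) (ResAxi_q ψ) w a c y -
        tabC 4 b s m a c y) * u c = ∑ a, ∑ c, u a * AC (pd 2 ψ) (ResAxi_q ψ) w a c y * u c -
        ∑ a, ∑ c, u a * tabC 4 b s m a c y * u c +
        tau 1 y ^ 4 * (x1 * tau 1 y ^ 6 - x2 * tau 1 y ^ 2 - x3) * ∑ a, u a ^ 2 := fun u => by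
      simp [VC, Fin.sum_univ_three]
      ring
    rw [key] at t
    have t0 : 0 ≤ ∑ a, (∑ i, q i * fr a i y) ^ 2 := by positivity
    have t1 := fun n => mul_nonneg (pow_nonneg (tau_mem y).1 n) t0
    linarith [mul_le_mul_of_nonneg_right h1 (t1 10), mul_le_mul_of_nonneg_right h2 (t1 6),
      mul_le_mul_of_nonneg_right h3 (t1 4)]

section

variable {A B Wt : Tf} {β : Sc} {c : ℕ} {P' : Cp} {e' : ℕ} {la lb : List KT}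

theorem Bk.ja (h : Bk c ψ β w A B Wt) (ha : P.a = c ^ 2) (hl : RepL true false P.V S1 1 la A) :
    Jr P.V P.a (1 : ℕ) 3 la ψ := ⟨A, by simpa [ha] using h.rψ, hl⟩

theorem Bk.jb (h : Bk c ψ β w A B Wt) (ha : P.a = c ^ 2) (hl : RepL true false P.V S1 1 la B) :
    Jr P.V P.a c 5 la β := ⟨B, by simpa [ha] using h.rb, hl⟩

theorem Bk.jw (h : Bk c ψ β w A B Wt) (ha : P.a = c ^ 2) (hl : RepL true false P.V S1 1 la Wt) :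
    Jr P.V P.a (c ^ 2 : ℕ) 7 la w := ⟨Wt, by simpa [ha] using h.rw, hl⟩

theorem Nr.le {ε' : ℝ} (h : Nr k ε f g) (e : ε ≤ ε') : Nr k ε' f g := fun y hy =>
  (h y hy).trans (mul_le_mul_of_nonneg_left e (pow_nonneg (tau_mem y).1 k))

/-- A vector field. -/
theorem vec_fin {c c' : ℕ} (hψ : ContDiff ℝ ∞ ψ) (ha : 1 ≤ P.a) (ha' : 1 ≤ P'.a)
    (h : Jr P.V P.a c (k + 2) la ψ) (h' : Jr P'.V P'.a c' (k + 4) lb w)
    (k1 : jt1 P (k + 2) c la (kC P b s e (d 0) (d 1)) = true)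
    (k2 : jt0 P' (k + 4) c' lb (kS P' b s e' (d 2)) = true) (e1 : e / 2 ^ P.c ≤ ε)
    (e2 : e' / 2 ^ P'.c ≤ ε) : ∀ᵐ y, ∑ i, (fld (sm ψ Jv) (sm w Jv) i y - vecV k b s d i y) ^ 2 ≤
      3 * ε ^ 2 * tau 1 y ^ (2 * k) := by
  obtain ⟨_, _, a0, a1, k1⟩ := jt1_ok ha h k1
  obtain ⟨_, a2, k2⟩ := jt0_ok ha' h' _ k2
  refine vec_of hψ fun a => ?_
  fin_cases a
  exacts [(kC_ok hψ a0 a1 w k1).1.le e1, (kC_ok hψ a0 a1 w k1).2.le e1, (kS_ok a2 _ _ k2).le e2]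

theorem cU_of {du : ℝ} (h : Bk c ψ β w A B Wt) (hc : 1 ≤ c) (ha : P.a = c ^ 2) (ha' : P'.a = c ^ 2)
    (hl : RepL true false P.V S1 1 la A) (hl' : RepL true false P'.V S1 1 lb B)
    (k1 : jt1 P 3 1 la (kC P b s e (d 0) (d 1)) = true)
    (k2 : jt0 P' 5 c lb (kS P' b s e' (d 2)) = true) (e1 : e / 2 ^ P.c ≤ ε)
    (e2 : e' / 2 ^ P'.c ≤ ε) (e3 : 3 * ε ^ 2 ≤ 7 / 5 * du ^ 2) : ∀ᵐ y,
      ∑ i, (fld (sm ψ Jv) (sm β Jv) i y - vecV 1 b s d i y) ^ 2 ≤ du ^ 2 * Op (1 / 2) y :=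
  (vec_fin (k := 1) h.xψ.smooth (ha ▸ Nat.one_le_pow _ _ hc) (ha' ▸ Nat.one_le_pow _ _ hc)
    (h.ja ha hl) (h.jb ha' hl') k1 k2 e1 e2).mono fun y t => by
      have t1 : 7 / 5 ≤ √2 := Real.le_sqrt_of_sq_le (by norm_num)
      rw [show (1 / 2 : ℝ) = (1 : ℕ) / 2 by norm_num, Op_tau, ← mul_assoc]
      exact t.trans (mul_le_mul_of_nonneg_right (by nlinarith [sq_nonneg du])
        (pow_nonneg (tau_mem y).1 _))

theorem cW_of {dw : ℝ} (h : Bk c ψ β w A B Wt) (hc : 1 ≤ c) (ha : P.a = c ^ 2) (ha' : P'.a = c ^ 2)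
    (hl : RepL true false P.V S1 1 la B) (hl' : RepL true false P'.V S1 1 lb Wt)
    (k1 : jt1 P 5 c la (kC P b s e (d 0) (d 1)) = true)
    (k2 : jt0 P' 7 (c ^ 2) lb (kS P' b s e' (d 2)) = true) (e1 : e / 2 ^ P.c ≤ ε)
    (e2 : e' / 2 ^ P'.c ≤ ε) (e3 : 3 * ε ^ 2 ≤ 14 / 5 * dw ^ 2) : ∀ᵐ y, ∑ i,
      (curl (fld (sm ψ Jv) (sm β Jv)) i y - vecV 3 b s d i y) ^ 2 ≤ dw ^ 2 * Op (3 / 2) y := by
  rw [curl_fld_Jv h.xψ.smooth h.xb.smooth h.cc]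
  refine (vec_fin (k := 3) h.xb.smooth (ha ▸ Nat.one_le_pow _ _ hc) (ha' ▸ Nat.one_le_pow _ _ hc)
    (h.jb ha hl) (h.jw ha' hl') k1 k2 e1 e2).mono fun y t => ?_
  have t1 : 7 / 5 ≤ √2 := Real.le_sqrt_of_sq_le (by norm_num)
  rw [show (3 / 2 : ℝ) = (3 : ℕ) / 2 by norm_num, Op_tau, ← mul_assoc, pow_succ √2,
    Real.sq_sqrt zero_le_two]
  exact t.trans (mul_le_mul_of_nonneg_right (by nlinarith [sq_nonneg dw])
    (pow_nonneg (tau_mem y).1 _))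

theorem cB_of {db : ℝ} (h : Bk c ψ β w A B Wt) (hc : 1 ≤ c) (ha : P.a = c ^ 2) (ha' : P'.a = c ^ 2)
    (hl : RepL true false P.V S1 1 la B) (hl' : RepL true false P'.V S1 1 lb Wt)
    (k1 : jt2 P 5 c la (kB P b s e (m 0 0) (m 0 1) (m 1 0) (m 1 1) (m 2 2)) = true)
    (k2 : jt1 P' 7 (c ^ 2) lb (kB2 P' b s e' (m 0 2) (m 2 0) (m 1 2) (m 2 1)) = true)
    (e1 : e / 2 ^ P.c ≤ ε) (e2 : e' / 2 ^ P'.c ≤ ε) (e3 : 9 / 8 * ε ^ 2 ≤ db ^ 2) : ∀ᵐ y, ∑ i, ∑ j,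
      (BB (curl (fld (sm ψ Jv) (sm β Jv))) i j y - tabM 6 b s m i j y) ^ 2 ≤ db ^ 2 * Om y ^ 3 := by
  rw [curl_fld_Jv h.xψ.smooth h.xb.smooth h.cc]
  obtain ⟨_, _, _, a0, a1, a2, k1⟩ := jt2_ok (ha ▸ Nat.one_le_pow _ _ hc) (h.jb ha hl) k1
  obtain ⟨_, _, a3, a4, k2⟩ := jt1_ok (ha' ▸ Nat.one_le_pow _ _ hc) (h.jw ha' hl') k2
  refine (mat_of h.xb h.xw fun a c => ?_).mono fun y t => t.trans
    (mul_le_mul_of_nonneg_right e3 (by rw [Om]; positivity))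
  by_cases t : a = 2 ↔ c = 2
  exacts [(kB_ok h.xb.smooth a0 a1 a2 w k1 a c t).le e1,
    (kB2_ok h.xw.smooth a3 a4 _ _ k2 a c t).le e2]

theorem cV_of {X Y δ : ℝ} (h : Bk c ψ β w A B Wt) (hc : 1 ≤ c) (ha : P.a = c ^ 2)
    (ha' : P'.a = c ^ 2) (hl : RepL true false P.V S1 1 la A) (hl' : RepL true false P'.V S1 1 lb B)
    (g1 : Rw P.W c1 fun _ => x1) (g2 : Rw P.W c2 fun _ => x2) (g3 : Rw P.W c3 fun _ => x3)
    (k1 : jt2 P 3 1 la (kV P b s e c1 c2 c3 v0 v1 v3 v5) = true)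
    (k2 : jt1 P' 5 c lb (kV2 P' b s e' v2 v4) = true) (e1 : e / 2 ^ P.c ≤ ε)
    (e2 : e' / 2 ^ P'.c ≤ ε) (h1 : x1 ≤ 4 * √2 * X) (h2 : 2 * √2 * Y ≤ x2)
    (h3 : 2 * δ + 3 * ε ≤ x3) : ∀ᵐ y, ∀ q : Fin 3 → ℝ,
      ∑ i, ∑ j, q i * tabM 4 b s (sy6 v0 v1 v2 v3 v4 v5) i j y * q j + δ * Om y * ∑ i, q i ^ 2 ≤
      ∑ i, ∑ j, q i * AA (fld (sm ψ Jv) (sm β Jv)) i j y * q j
        + (X * Op (5 / 2) y - Y * Op (3 / 2) y) * ∑ i, q i ^ 2 := by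
  obtain ⟨_, _, _, a0, a1, a2, k1⟩ := jt2_ok (ha ▸ Nat.one_le_pow _ _ hc) (h.ja ha hl) k1
  obtain ⟨_, _, a3, a4, k2⟩ := jt1_ok (ha' ▸ Nat.one_le_pow _ _ hc) (h.jb ha' hl') k2
  refine quad_of h.xψ h.xb (fun a c => ?_) h1 h2 h3
  by_cases t : a = 2 ↔ c = 2
  exacts [(kV_ok h.xψ.smooth a0 a1 a2 g1 g2 g3 β k1 a c t).le e1,
    (kV2_ok h.xb.smooth a3 a4 _ _ k2 a c t).le e2]

end

end Pool.Agent.Work.MP_6bf1e5_an.H.Pw
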