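import Pool.Agent.Work.MP_6bf1e5_an.H.FrB1

/-! Separated fields and their jets in the spherical frame (owner helper18). -/

open scoped ContDiff ENNReal FourierTransform Real Topology
open Set MeasureTheory Polynomial Filter

namespace Pool.Agent.Work.MP_6bf1e5_an.H

variable {y : R3} {f g f' g' : Sc} {l m : ℕ} {a s p : ℝ} {w : ℝ[X]}

/-! ### Jacobians -/

theorem Rdl.diff_z (h : Rdl f f') (hy : Off y) (l : ℕ) (a : Fin 3) :
    DifferentiableAt ℝ ((![0, 0, fun y => f y * dPa l (pa y)] : Vc) a) y := by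
  fin_cases a
  · exact differentiableAt_const _
  · exact differentiableAt_const _
  · exact (h.grad_mul hy (has_dPa l hy.sin_ne)).1

theorem Rdl.diff_r (h : Rdl f f') (h' : Rdl g g') (hy : Off y) (l : ℕ) (a : Fin 3) :
    DifferentiableAt ℝ
      ((![fun y => f y * Pa l (pa y), fun y => g y * dPa l (pa y), 0] : Vc) a) y := by
  fin_cases a
  · exact (h.grad_mul hy (has_Pa l _)).1
  · exact (h'.grad_mul hy (has_dPa l hy.sin_ne)).1
  · exact differentiableAt_const _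

theorem vC_grad_zero (b : Fin 3) (y : R3) : vC (grad 0) b y = 0 := by
  simp [vC, dot, grad, pd]

theorem Rdl.diff_zF (h : Rdl f f') (hy : Off y) (l : ℕ) (i : Fin 3) :
    DifferentiableAt ℝ (zF l f i) y := hy.diff_vF (h.diff_z hy l) i

theorem Rdl.diff_rF (h : Rdl f f') (h' : Rdl g g') (hy : Off y) (l : ℕ) (i : Fin 3) :
    DifferentiableAt ℝ (rF l f g i) y := hy.diff_vF (h.diff_r h' hy l) i

theorem Rdl.jac_zF (h : Rdl f f') (hy : Off y) (l : ℕ) (i j : Fin 3) :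
    jac (zF l f) i j y = mF (zJ l (fun y => f y / ‖y‖) fun y => f' y / ‖y‖) i j y := by
  rw [zF, hy.jac_vF (h.diff_z hy l)]
  refine mF_congr (fun a b => ?_) i j
  have h1 := (h.grad_mul hy (has_dPa l hy.sin_ne)).2 b
  have h2 := hy.cot_dPa l
  fin_cases a <;> fin_cases b <;> simp [jF, zJ, vC_grad_zero] at h1 ⊢ <;>
    first
      | ring1
      | linear_combination h1
      | linear_combination (-(f y / ‖y‖)) * h2

theorem Rdl.jac_rF (h : Rdl f f') (h' : Rdl g g') (hy : Off y) (l : ℕ) (i j : Fin 3) :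
    jac (rF l f g) i j y = mF (rJ l (fun y => f y / ‖y‖) (fun y => f' y / ‖y‖)
      (fun y => g y / ‖y‖) fun y => g' y / ‖y‖) i j y := by
  rw [rF, hy.jac_vF (h.diff_r h' hy l)]
  refine mF_congr (fun a b => ?_) i j
  have h0 := (h.grad_mul hy (has_Pa l (pa y))).2 b
  have h1 := (h'.grad_mul hy (has_dPa l hy.sin_ne)).2 b
  have h2 := hy.cot_dPa l
  fin_cases a <;> fin_cases b <;> simp [jF, rJ, vC_grad_zero] at h0 h1 ⊢ <;>
    first
      | linear_combination h0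
      | linear_combination h1
      | linear_combination (g y / ‖y‖) * h2

theorem Rdl.curl_zF (h : Rdl f f') (hy : Off y) (l : ℕ) (i : Fin 3) :
    curl (zF l f) i y =
      rF l (fun y => -(l * (l + 1)) * (f y / ‖y‖)) (fun y => -((f y + f' y) / ‖y‖)) i y := by
  rw [hy.curl_of_jac (h.jac_zF hy l), rF]
  refine vF_congr (fun a => ?_) i
  fin_cases a <;> simp [axl, zJ] <;> ring

theorem Rdl.curl_rF (h : Rdl f f') (h' : Rdl g g') (hy : Off y) (l : ℕ) (i : Fin 3) :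
    curl (rF l f g) i y = zF l (fun y => (g y + g' y - f y) / ‖y‖) i y := by
  rw [hy.curl_of_jac (h.jac_rF h' hy l), zF]
  refine vF_congr (fun a => ?_) i
  fin_cases a <;> simp [axl, rJ]
  ring

theorem Rdl.yd_zF (h : Rdl f f') (hy : Off y) (l : ℕ) (i : Fin 3) :
    H.yd (zF l f i) y = zF l f' i y := by
  have := hy.norm_pos.ne'
  rw [hy.yd_of_jac (h.jac_zF hy l), zF]
  refine vF_congr (fun a => ?_) i
  fin_cases a <;> simp [zJ]
  field_simp

theorem Rdl.yd_rF (h : Rdl f f') (h' : Rdl g g') (hy : Off y) (l : ℕ) (i : Fin 3) :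
    H.yd (rF l f g i) y = rF l f' g' i y := by
  have := hy.norm_pos.ne'
  rw [hy.yd_of_jac (h.jac_rF h' hy l), rF]
  refine vF_congr (fun a => ?_) i
  fin_cases a <;> simp [rJ] <;> field_simp

/-! ### The ring variable -/

theorem tp_eq (ha : 0 < a) (p : ℝ) (w : ℝ[X]) : tp a p w = rad (tF a p w) :=
  funext fun y => (rad_tF ha y).symm

theorem tp_add (ha : 0 < a) (p : ℝ) (k : ℕ) (w : ℝ[X]) (y : R3) :
    tp a (p + k) w y = tau a y ^ p * (tau a y ^ k * w.eval (tau a y)) := by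
  rw [tp, Real.rpow_add (tau_pos ha y), Real.rpow_natCast, mul_assoc]

theorem tp_add_two (ha : 0 < a) (p : ℝ) (w : ℝ[X]) (y : R3) :
    tp a (p + 2) w y = tau a y ^ p * (tau a y ^ 2 * w.eval (tau a y)) := tp_add ha p 2 w y

theorem tp_add_nat (ha : 0 < a) (p : ℝ) (k : ℕ) (w : ℝ[X]) (y : R3) :
    tp a (p + k) w y = tp a p (X ^ k * w) y := by
  rw [tp_add ha, tp, eval_mul, eval_pow, eval_X]

theorem kA_div (hs : 0 < s) (hy : Off y) (p : ℝ) (w : ℝ[X]) :
    kA (s ^ 2) y * tp (s ^ 2) p w y / ‖y‖ = tp (s ^ 2) (p + 2) (C s * w) y := by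
  have := hy.norm_pos.ne'
  rw [tp_add_two (pow_pos hs 2), kA_eq hs, tp, eval_mul, eval_C]
  field_simp

theorem kA_sq_div (hs : 0 < s) (hy : Off y) (p : ℝ) (w : ℝ[X]) :
    tp (s ^ 2) p ((1 - X ^ 4) * w) y / ‖y‖ = kA (s ^ 2) y * tp (s ^ 2) (p + 2) (C s * w) y := by
  rw [← kA_div hs hy, tp, tp, eval_mul, eval_sub, eval_one, eval_pow, eval_X, ← kA_sq (pow_pos hs 2)]
  ring

theorem rdl_kA_tp (ha : 0 < a) (p : ℝ) (w : ℝ[X]) : Rdl (fun y => kA a y * tp a p w y)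
    fun y => kA a y * tp a p (X ^ 4 * w + Dk p w) y :=
  ((rdl_kA ha).mul (rdl_tp ha p w)).congr (fun _ _ => rfl) fun y _ => by
    simp only [tp, eval_add, eval_mul, eval_pow, eval_X]
    ring

theorem Dk_kap (p : ℝ) (w : ℝ[X]) :
    Dk p ((1 - X ^ 4) * w) = (1 - X ^ 4) * (2 * X ^ 4 * w + Dk p w) := by
  have h : (C (-1 / 2 : ℝ) : ℝ[X]) * 2 = -1 := by
    rw [show (2 : ℝ[X]) = C 2 from rfl, ← C_mul]
    norm_num
  simp only [Dk, derivative_mul, derivative_sub, derivative_one, derivative_X_pow, zero_sub,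
    Nat.cast_ofNat, show (C 4 : ℝ[X]) = 4 from rfl]
  linear_combination (-2 * (1 - X ^ 4) * X ^ 4 * w) * h

theorem norm_pow_tau (hs : 0 < s) (m : ℕ) (y : R3) :
    ‖y‖ ^ (2 * m) * tau (s ^ 2) y ^ (4 * m) = (s ^ (2 * m))⁻¹ * (1 - tau (s ^ 2) y ^ 4) ^ m := by
  rw [← kA_sq (pow_pos hs 2), kA_eq hs]
  field_simp
  ring


/-- A toroidal field with a profile in the ring variable. -/
theorem Off.tor_tF (hy : Off y) (hs : 0 < s) (m : ℕ) (p : ℝ) (P : ℝ[X]) (i : Fin 3) :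
    tor (2 * m) (tF (s ^ 2) (4 * m + p) P) i y =
      zF (2 * m) (tp (s ^ 2) p (C (s ^ (2 * m))⁻¹ * (1 - X ^ 4) ^ m * P)) i y := by
  rw [hy.tor_eq]
  refine zF_congr ?_ i
  have h1 := congrFun (tp_eq (pow_pos hs 2) (p + (4 * m : ℕ)) P) y
  have h2 := norm_pow_tau hs m y
  rw [tp_add (pow_pos hs 2), rad, show p + (4 * m : ℕ) = 4 * m + p by push_cast; ring] at h1
  simp only [← h1, tp, eval_mul, eval_C, eval_pow, eval_sub, eval_one, eval_X]
  linear_combination tau (s ^ 2) y ^ p * P.eval (tau (s ^ 2) y) * h2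

/-- A meridional field with profiles in the ring variable. -/
theorem Off.mer_tF (hy : Off y) (hs : 0 < s) (m : ℕ) (p : ℝ) (A B : ℝ[X]) (i : Fin 3) :
    mer (2 * m + 2) (tF (s ^ 2) (4 * m + 2 + p) A) (tF (s ^ 2) (4 * m + 6 + p) B) i y =
      rF (2 * m + 2)
        (fun y => kA (s ^ 2) y * tp (s ^ 2) p (C (s ^ (2 * m + 1))⁻¹ * (1 - X ^ 4) ^ m *
          (C (2 * m + 2 : ℝ) * A + C (s ^ 2)⁻¹ * (1 - X ^ 4) * B)) y)
        (fun y => kA (s ^ 2) y * tp (s ^ 2) p (C (s ^ (2 * m + 1))⁻¹ * (1 - X ^ 4) ^ m * A) y)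
        i y := by
  have h0 := hy.norm_pos.ne'
  have h1 := congrFun (tp_eq (pow_pos hs 2) (p + (4 * m + 2 : ℕ)) A) y
  have h2 := congrFun (tp_eq (pow_pos hs 2) (p + (4 * m + 6 : ℕ)) B) y
  have h3 := norm_pow_tau hs m y
  have h4 := tau_four (pow_pos hs 2) y
  rw [tp_add (pow_pos hs 2), rad, show p + (4 * m + 2 : ℕ) = 4 * m + 2 + p by push_cast; ring] at h1
  rw [tp_add (pow_pos hs 2), rad, show p + (4 * m + 6 : ℕ) = 4 * m + 6 + p by push_cast; ring] at h2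
  have h5 : (1 - tau (s ^ 2) y ^ 4) ^ m = s ^ (2 * m) * (‖y‖ ^ (2 * m) * tau (s ^ 2) y ^ (4 * m)) := by
    rw [h3]
    field_simp
  rw [hy.mer_eq]
  refine rF_congr ?_ ?_ i
  · simp only [← h1, ← h2, tp, eval_mul, eval_C, eval_pow, eval_sub, eval_one, eval_X, eval_add,
      kA_eq hs, h5]
    rw [show 1 - tau (s ^ 2) y ^ 4 = s ^ 2 * ‖y‖ ^ 2 * tau (s ^ 2) y ^ 4 by linear_combination -h4]
    push_cast
    field_simp
    ring
  · simp only [← h1, tp, eval_mul, eval_C, eval_pow, eval_sub, eval_one, eval_X, kA_eq hs, h5]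
    field_simp
    ring

theorem Off.mer_zero_tF (hy : Off y) (hs : 0 < s) (α : ℝ → ℝ) (p : ℝ) (B : ℝ[X]) (i : Fin 3) :
    mer 0 α (tF (s ^ 2) (p + 2) B) i y =
      rF 0 (fun y => kA (s ^ 2) y * tp (s ^ 2) p (C s⁻¹ * B) y) 0 i y := by
  have h0 := hy.norm_pos.ne'
  have h1 := congrFun (tp_eq (pow_pos hs 2) (p + 2) B) y
  rw [tp_add_two (pow_pos hs 2), rad] at h1
  rw [hy.mer_eq, rF_apply, rF_apply, ← h1, kA_eq hs, tp, eval_mul, eval_C]
  simp only [dPa, geg, derivative_one, eval_zero, mul_zero, zero_mul, add_zero, Nat.cast_zero,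
    zero_add, pow_zero]
  field_simp

/-- The curl of a field whose swirl component is `κ² τ ^ p w dP_l`. -/
theorem Off.curl_swirl (hy : Off y) (hs : 0 < s) {V : Vc}
    (e : ∀ z, Off z → ∀ i, V i z = zF l (tp (s ^ 2) p ((1 - X ^ 4) * w)) i z) (i : Fin 3) :
    curl V i y = rF l
      (fun y => kA (s ^ 2) y * tp (s ^ 2) (p + 2) (C (-(s * (l * (l + 1)))) * w) y)
      (fun y => kA (s ^ 2) y * tp (s ^ 2) (p + 2) (C (-s) * ((1 + 2 * X ^ 4) * w + Dk p w)) y)
      i y := by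
  rw [hy.curl_congr e, (rdl_tp (pow_pos hs 2) p _).curl_zF hy]
  refine rF_congr ?_ ?_ i
  · rw [kA_sq_div hs hy]
    simp only [tp, eval_mul, eval_C]
    ring
  · rw [Dk_kap, add_div, kA_sq_div hs hy, kA_sq_div hs hy]
    simp only [tp, eval_mul, eval_C, eval_add, eval_one, eval_pow, eval_X, eval_ofNat]
    ring

/-- The curl of a field with the components `(κ τ ^ p A P_l, κ τ ^ p B dP_l, 0)`. -/
theorem Off.curl_merid (hy : Off y) (hs : 0 < s) {V : Vc} {A B : ℝ[X]}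
    (e : ∀ z, Off z → ∀ i, V i z = rF l (fun y => kA (s ^ 2) y * tp (s ^ 2) p A y)
      (fun y => kA (s ^ 2) y * tp (s ^ 2) p B y) i z) (i : Fin 3) :
    curl V i y = zF l (tp (s ^ 2) (p + 2) (C s * ((1 + X ^ 4) * B + Dk p B - A))) i y := by
  rw [hy.curl_congr e, (rdl_kA_tp (pow_pos hs 2) p A).curl_rF (rdl_kA_tp (pow_pos hs 2) p B) hy]
  refine zF_congr ?_ i
  rw [sub_div, add_div, kA_div hs hy, kA_div hs hy, kA_div hs hy]
  simp only [tp, eval_mul, eval_C, eval_add, eval_sub, eval_one, eval_pow, eval_X]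
  ring

theorem Off.jac_swirl (hy : Off y) (hs : 0 < s) {V : Vc}
    (e : ∀ z, Off z → ∀ i, V i z = zF l (tp (s ^ 2) p ((1 - X ^ 4) * w)) i z) (i j : Fin 3) :
    jac V i j y = mF (zJ l (fun y => kA (s ^ 2) y * tp (s ^ 2) (p + 2) (C s * w) y)
      fun y => kA (s ^ 2) y * tp (s ^ 2) (p + 2) (C s * (2 * X ^ 4 * w + Dk p w)) y) i j y := by
  rw [hy.jac_congr e, (rdl_tp (pow_pos hs 2) p _).jac_zF hy, Dk_kap]
  refine mF_congr (fun a b => ?_) i j
  fin_cases a <;> fin_cases b <;> simp [zJ, kA_sq_div hs hy]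

theorem Off.jac_merid (hy : Off y) (hs : 0 < s) {V : Vc} {A B : ℝ[X]}
    (e : ∀ z, Off z → ∀ i, V i z = rF l (fun y => kA (s ^ 2) y * tp (s ^ 2) p A y)
      (fun y => kA (s ^ 2) y * tp (s ^ 2) p B y) i z) (i j : Fin 3) :
    jac V i j y = mF (rJ l (tp (s ^ 2) (p + 2) (C s * A))
      (tp (s ^ 2) (p + 2) (C s * (X ^ 4 * A + Dk p A))) (tp (s ^ 2) (p + 2) (C s * B))
      (tp (s ^ 2) (p + 2) (C s * (X ^ 4 * B + Dk p B)))) i j y := by
  rw [hy.jac_congr e, (rdl_kA_tp (pow_pos hs 2) p A).jac_rF (rdl_kA_tp (pow_pos hs 2) p B) hy]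
  refine mF_congr (fun a b => ?_) i j
  fin_cases a <;> fin_cases b <;> simp [rJ, kA_div hs hy]

theorem fr_nn (ha : 0 < a) {z : ℝ} (hz : 0 ≤ z) : -1 / a < z :=
  lt_of_lt_of_le (div_neg_of_neg_of_pos (by norm_num) ha) hz

theorem curl_tor_tF (ha : 0 < a) (l : ℕ) (e : ℝ) (P : ℝ[X]) : curl (tor l (tF a e P)) =
    mer l (tF a e (-(C (l + 1 : ℝ) * P + Dk e P)))
      (tF a (e + 4) (C (-(l * a / 2)) * (C e * P + X * derivative P))) := by
  rw [curl_tor (radS_tF ha)]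
  refine mer_congr (fun z hz => ?_) fun z hz => ?_
  · have h1 := mul_tF (e := e) (P := C e * P + X * derivative P) ha (fr_nn ha hz)
    rw [deriv_tF ha (fr_nn ha hz)]
    simp only [tF, Dk, eval_mul, eval_C, eval_add, eval_neg] at h1 ⊢
    linear_combination 1 / 2 * h1
  · rw [deriv_tF ha (fr_nn ha hz)]
    simp only [tF, eval_mul, eval_C]
    ring

theorem curl_mer_tF (ha : 0 < a) (l : ℕ) (e : ℝ) (A B : ℝ[X]) :
    curl (mer l (tF a e A) (tF a (e + 4) B)) =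
      tor l (tF a (e + 4) (C (-(a / 2)) * (C e * A + X * derivative A) - B)) := by
  rw [curl_mer (radS_tF ha) (radS_tF ha)]
  refine tor_congr fun z hz => ?_
  rw [deriv_tF ha (fr_nn ha hz)]
  simp only [tF, eval_mul, eval_C, eval_sub]
  ring

/-- The double curl of a toroidal field. -/
theorem curl_curl_tF (ha : 0 < a) (l : ℕ) (e : ℝ) (P : ℝ[X]) :
    curl (curl (tor l (tF a e P))) = tor l (tF a (e + 4) (C (a / 4) *
      (X ^ 4 * (C (e * (e + 4)) * P + C (2 * e + 5) * X * derivative P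
          + X ^ 2 * derivative (derivative P))
        + C (e * (4 * l + 2 - e)) * P + C (4 * l + 1 - 2 * e) * X * derivative P
        - X ^ 2 * derivative (derivative P)))) := by
  rw [curl_tor_tF ha, curl_mer_tF ha]
  refine tor_congr fun z _ => ?_
  simp only [tF, Dk, derivative_neg, derivative_add, derivative_mul, derivative_C, derivative_sub,
    derivative_one, derivative_X_pow, derivative_X, eval_mul, eval_C, eval_add, eval_neg, eval_sub,
    eval_one, eval_pow, eval_X, eval_zero, Nat.cast_ofNat]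
  ring

/-! ### The coefficient fields -/

theorem Off.AA_eq (hy : Off y) {U c : Vc} {J : Mc} (e : ∀ i, U i y = vF c i y)
    (e' : ∀ i j, jac U i j y = mF J i j y) (i j : Fin 3) :
    AA U i j y = mF (fun a b y => Om y * ((if a = b then (2 - Om y) / 3 + Om y * (‖y‖ * c 0 y) / 2
      else 0) - (J a b y + J b a y) / 2)) i j y := by
  have h1 : dot pos U y = ‖y‖ * c 0 y := by
    have := hy.dot_vF ![fun y => ‖y‖, 0, 0] c
    simp only [dot, ← hy.pos_eq, ← e] at this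
    simpa [Fin.sum_univ_three, dot] using this
  have h2 := hy.one_eq (fun y => (2 - Om y) / 3 + Om y * (‖y‖ * c 0 y) / 2) i j
  have h3 : pd j (U i) y = _ := e' i j
  have h4 : pd i (U j) y = _ := e' j i
  rw [AA, h1, h2, h3, h4]
  simp only [mF, Fin.sum_univ_three, if_true, Fin.reduceEq, if_false, Pi.zero_apply]
  ring

theorem Off.BB_eq (hy : Off y) {W c : Vc} {J : Mc} (e : ∀ i, W i y = vF c i y)
    (e' : ∀ i j, jac W i j y = mF J i j y) (i j : Fin 3) :
    BB W i j y = mF (fun a b y => Om y * (J a b y + J b a y)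
      - if a = 0 then Om y ^ 2 * (‖y‖ * c b y) else 0) i j y := by
  have h1 : y i = _ := hy.pos_eq i
  have h3 : pd j (W i) y = _ := e' i j
  have h4 : pd i (W j) y = _ := e' j i
  rw [BB, h1, h3, h4, e]
  simp only [mF, vF, Fin.sum_univ_three, if_true, Fin.reduceEq, if_false, Pi.zero_apply,
    Matrix.cons_val]
  ring

/-- The closeness conditions in the frame. -/
theorem cV_of_frame {U : Vc} {V A : Mc} {d : ℝ} {φ : Sc}
    (e : ∀ y, Off y → ∀ i j, AA U i j y = mF A i j y)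
    (h : ∀ y, Off y → ∀ q : Fin 3 → ℝ, ∑ i, ∑ j, q i * V i j y * q j + d * Om y * ∑ i, q i ^ 2 ≤
      ∑ i, ∑ j, q i * A i j y * q j + φ y * ∑ i, q i ^ 2) :
    ∀ᵐ y, ∀ q : Fin 3 → ℝ, ∑ i, ∑ j, q i * mF V i j y * q j + d * Om y * ∑ i, q i ^ 2 ≤
      ∑ i, ∑ j, q i * AA U i j y * q j + φ y * ∑ i, q i ^ 2 := by
  filter_upwards [ae_off] with y hy q
  have h1 := h y hy fun a => ∑ i, q i * fr a i y
  rw [hy.sq_comp, ← quad_mF, ← quad_mF] at h1
  simpa only [e y hy] using h1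

theorem cB_of_frame {M B A : Mc} {φ : Sc} (e : ∀ y, Off y → ∀ i j, M i j y = mF A i j y)
    (h : ∀ y, Off y → ∑ i, ∑ j, (A i j y - B i j y) ^ 2 ≤ φ y) :
    ∀ᵐ y, ∑ i, ∑ j, (M i j y - mF B i j y) ^ 2 ≤ φ y := by
  filter_upwards [ae_off] with y hy
  simp only [e y hy, ← mF_sub, hy.sq_mF]
  exact h y hy

theorem cU_of_frame {U c c' : Vc} {φ : Sc} (e : ∀ y, Off y → ∀ i, U i y = vF c i y)
    (h : ∀ y, Off y → ∑ i, (c i y - c' i y) ^ 2 ≤ φ y) :
    ∀ᵐ y, ∑ i, (U i y - vF c' i y) ^ 2 ≤ φ y := by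
  filter_upwards [ae_off] with y hy
  have h1 := hy.sq_vF (c - c')
  simp only [vF_sub, Pi.sub_apply] at h1
  simp only [e y hy, h1]
  exact h y hy

end Pool.Agent.Work.MP_6bf1e5_an.H
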