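import Pool.Agent.Work.MP_6bf1e5_an.H.LtS
import Pool.Agent.Work.MP_6bf1e5_an.H.FrB
import Pool.Agent.Work.MP_6bf1e5_an.H.FrI

/-! The fields described by literal tables (owner helper52). -/

open Set Polynomial MeasureTheory

namespace Pool.Agent.Work.MP_6bf1e5_an.H.Lt

open Pool.Agent.Lib.KTab Pool.Agent.Lib.KBlk

noncomputable section

/-- Literal tables. -/
abbrev LT := List (ℕ × ℕ)

/-- The scalar field of a literal table. -/
def tbF (e : Bool) (b s : ℕ) (l : LT) : Sc := fun y => tb2 e b s l (tau 1 y) (pa y)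

/-- The type of a frame component of a matrix: `true` for the sine type. -/
def ety (a c : Fin 3) : Bool := xor (decide (a ≠ 0)) (decide (c ≠ 0))

/-- The factor `κ` of the components with exactly one index in the direction of the swirl. -/
def kf (a c : Fin 3) : Sc := if (a = 2 ↔ c = 2) then fun _ => 1 else kA 1

/-- Frame components of a matrix field. -/
def tabC (p b s : ℕ) (d : Fin 3 → Fin 3 → LT) : Mc := fun a c y =>
  tau 1 y ^ p * (kf a c y * tbF (ety a c) b s (d a c) y)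

/-- The matrix field of nine literal tables. -/
def tabM (p b s : ℕ) (d : Fin 3 → Fin 3 → LT) : Mc := mF (tabC p b s d)

/-- A symmetric family of tables. -/
def sy6 (a00 a01 a02 a11 a12 a22 : LT) : Fin 3 → Fin 3 → LT :=
  ![![a00, a01, a02], ![a01, a11, a12], ![a02, a12, a22]]

/-- The radial weight `τ ^ (-p)` times a row. -/
def rowI (p b s : ℕ) (r : ℕ × ℕ) : Sc := fun y => (chP b s r).eval (tau 1 y) / tau 1 y ^ p

/-- The radial weight `τ ^ p` times the square of a row. -/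
def rowQ (p b s : ℕ) (r : ℕ × ℕ) : Sc := fun y => tau 1 y ^ p * (chP b s r).eval (tau 1 y) ^ 2

theorem tau_mem (y : R3) : tau 1 y ∈ Icc (0 : ℝ) 1 :=
  ⟨(tau_pos one_pos y).le, tau_le_one one_pos y⟩

theorem kA_sq (y : R3) : kA 1 y ^ 2 = 1 - tau 1 y ^ 4 :=
  Real.sq_sqrt (sub_nonneg.2 (pow_le_one₀ (tau_mem y).1 (tau_mem y).2))

theorem abs_kA (y : R3) : |kA 1 y| ≤ 1 := by
  rw [← sq_le_one_iff_abs_le_one, kA_sq]
  exact sub_le_self _ (pow_nonneg (tau_mem y).1 _)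

theorem norm_tau (y : R3) : ‖y‖ * tau 1 y ^ 2 = kA 1 y := by
  have h := tau_four one_pos y
  rw [kA, show 1 - tau 1 y ^ 4 = (‖y‖ * tau 1 y ^ 2) ^ 2 by linear_combination -h,
    Real.sqrt_sq (mul_nonneg (norm_nonneg y) (sq_nonneg _))]

theorem bd_tp (p : ℝ) (w : ℝ[X]) : Bd (-(p / 2)) (tp 1 p w) := by
  rw [tp_eq one_pos]
  exact (sym_tF one_pos).bd

theorem bd_poly (w : ℝ[X]) : Bd 0 fun y => w.eval (tau 1 y) :=
  ((bd_tp 0 w).of_eq (by norm_num)).congr fun y => by simp [tp]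

theorem bd_tau (p : ℕ) : Bd (-(p / 2 : ℝ)) fun y => tau 1 y ^ p :=
  (bd_tp p 1).congr fun y => by simp [tp]

theorem bd_cs (e : Bool) (k : ℝ) : Bd 0 fun y => cs e (k * pa y) := by
  refine ⟨?_, 1, .of_forall fun y => ?_⟩
  · cases e
    · exact (Real.measurable_cos.comp (meas_pa.const_mul _)).aestronglyMeasurable
    · exact (Real.measurable_sin.comp (meas_pa.const_mul _)).aestronglyMeasurable
  · cases e
    · simpa [cs] using Real.abs_cos_le_one _
    · simpa [cs] using Real.abs_sin_le_one _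

theorem bd_tbF (e : Bool) (b s : ℕ) (l : LT) : Bd 0 (tbF e b s l) :=
  Bd.sum (Finset.range l.length) fun k _ =>
    ((bd_poly (chP b s (l.getD k (0, 0)))).mul (bd_cs e (2 * k))).of_eq (add_zero 0)

theorem bd_kf (a c : Fin 3) : Bd 0 (kf a c) := by
  unfold kf
  split_ifs
  · exact ⟨aestronglyMeasurable_const, 1, .of_forall fun y => by simp⟩
  · exact ⟨(meas_kA one_pos).aestronglyMeasurable, 1, .of_forall fun y => by simpa using abs_kA y⟩

theorem bd_tabC (p b s : ℕ) (d : Fin 3 → Fin 3 → LT) (a c : Fin 3) :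
    Bd (-(p / 2 : ℝ)) (tabC p b s d a c) :=
  ((bd_tau p).mul ((bd_kf a c).mul (bd_tbF _ b s _))).of_eq (by simp)

theorem bd_tabM (p b s : ℕ) (d : Fin 3 → Fin 3 → LT) (i j : Fin 3) :
    Bd (-(p / 2 : ℝ)) (tabM p b s d i j) := Bd.mF (bd_tabC p b s d) i j

theorem bd_tabV (b s : ℕ) (d : Fin 3 → Fin 3 → LT) (i j : Fin 3) : Bd (-2) (tabM 4 b s d i j) :=
  (bd_tabM 4 b s d i j).of_eq (by norm_num)

theorem bd_tabB (b s : ℕ) (d : Fin 3 → Fin 3 → LT) (i j : Fin 3) : Bd (-3) (tabM 6 b s d i j) :=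
  (bd_tabM 6 b s d i j).of_eq (by norm_num)

theorem sy6_symm (a00 a01 a02 a11 a12 a22 : LT) (a c : Fin 3) :
    sy6 a00 a01 a02 a11 a12 a22 a c = sy6 a00 a01 a02 a11 a12 a22 c a := by
  fin_cases a <;> fin_cases c <;> rfl

theorem tabC_symm (p b s : ℕ) {d : Fin 3 → Fin 3 → LT} (h : ∀ a c, d a c = d c a) (a c : Fin 3) :
    tabC p b s d a c = tabC p b s d c a := by
  funext y
  have h1 : kf a c = kf c a := by simp only [kf, iff_comm (a := a = 2)]
  have h2 : ety a c = ety c a := Bool.xor_comm _ _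
  simp only [tabC, h1, h2, h a c]

theorem tabM_symm (p b s : ℕ) {d : Fin 3 → Fin 3 → LT} (h : ∀ a c, d a c = d c a) (i j : Fin 3) :
    tabM p b s d i j = tabM p b s d j i := mF_symm (tabC_symm p b s h) i j

theorem rowI_eq (p b s : ℕ) (r : ℕ × ℕ) : rowI p b s r = tp 1 (-(p : ℝ)) (chP b s r) := by
  funext y
  rw [rowI, tp, Real.rpow_neg (tau_mem y).1, Real.rpow_natCast, div_eq_inv_mul]

theorem rowQ_eq (p b s : ℕ) (r : ℕ × ℕ) : rowQ p b s r = tp 1 p (chP b s r ^ 2) := by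
  funext y
  simp [rowQ, tp]

theorem bd_rowI (p b s : ℕ) (r : ℕ × ℕ) : Bd (p / 2 : ℝ) (rowI p b s r) := by
  rw [rowI_eq]
  exact (bd_tp _ _).of_eq (by ring)

theorem bd_rowQ (p b s : ℕ) (r : ℕ × ℕ) : Bd (-(p / 2 : ℝ)) (rowQ p b s r) := by
  rw [rowQ_eq]
  exact bd_tp _ _

/-- A pair of weights. -/
theorem row_pair {p b s b' s' : ℕ} {r o : ℕ × ℕ}
    (h : ∀ t ∈ Icc (0 : ℝ) 1, 1 ≤ (chP b s r).eval t ^ 2 * (chP b' s' o).eval t) :
    Bd (-(p / 2 : ℝ)) (rowQ p b s r) ∧ Bd (p / 2 : ℝ) (rowI p b' s' o) ∧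
      ∀ᵐ y, 0 < rowI p b' s' o y ∧ 1 ≤ rowQ p b s r y * rowI p b' s' o y := by
  refine ⟨bd_rowQ .., bd_rowI .., .of_forall fun y => ?_⟩
  have h1 := h _ (tau_mem y)
  have h2 := pow_pos (tau_pos one_pos y) p
  refine ⟨div_pos (lt_of_not_ge fun h3 => ?_) h2, ?_⟩
  · linarith [mul_nonpos_of_nonneg_of_nonpos (sq_nonneg ((chP b s r).eval (tau 1 y))) h3]
  rw [rowQ, rowI]
  refine h1.trans_eq ?_
  field_simp

end

end Pool.Agent.Work.MP_6bf1e5_an.H.Lt
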