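import Pool.Agent.Work.MP_6bf1e5_an.H.PwQ

/-! The pointwise bounds for the background from the checks. -/

open scoped ContDiff

namespace Pool.Agent.Work.MP_6bf1e5_an.H.Pw

open Pool.Agent.Lib.KLA Pool.Agent.Lib.KTab Complex Lt

theorem Dat_bk (d : Dat) {w : ℝ} (hw : 0 < w) : ∃ ψ b w0, d.Ψ w = sm ψ Jv ∧ d.Sw w = sm b Jv ∧
    Bk (w ^ 2) ψ b w0 (TA 1 d.L d.F.g) (TA 1 d.L d.S.g)
      (TA 1 d.L fun l => wp 1 l (d.F.g l)) := by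
  have ρ0 : 0 < w ^ 2 := by positivity
  have hL : ∀ l ∈ d.L, Even l ∧ 1 ≤ l := fun l hl => ⟨(d.ok l hl).1, (d.ok l hl).2.1⟩
  have h2 : ∀ l ∈ d.L, 2 ≤ l := fun l hl => by
    obtain ⟨⟨k, rfl⟩, h1⟩ := hL l hl
    omega
  unfold Dat.Ψ Dat.Sw
  generalize w ^ 2 = ρ at ρ0 ⊢
  have ha : 0 < ρ ^ 2 := by positivity
  have hf : ∀ l ∈ d.L, ∀ x, (scl ρ 2 d.f l).f x =
      x ^ (2 * l - 4 + 3) * (1 * (ρ ^ l / ρ ^ 2) * d.F.g l x) := fun l hl x => by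
    have := h2 l hl
    rw [scl_f, Dat.f, Fml.r_f, show 2 * l - 4 + 3 = 2 * l - 1 by omega]; ring
  have hs : ∀ l ∈ d.L, ∀ x, (scl ρ 1 d.s l).f x =
      x ^ (2 * l - 4 + 5) * (ρ * (ρ ^ l / ρ ^ 2) * d.S.g l x) := fun l hl x => by
    have := h2 l hl
    rw [scl_f, Dat.s, Fml.r_f, show 2 * l - 4 + 5 = 2 * l + 1 by omega]; field_simp
  have sf : ∀ l ∈ d.L, ContDiff ℝ ∞ fun x => 1 * (ρ ^ l / ρ ^ 2) * d.F.g l x := fun l _ =>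
    contDiff_const.mul (d.F.g_smooth l)
  have sw := fun l hl => wp_smooth (ρ ^ 2) l (sf l hl)
  have rA := rp_TS ha hL hf sf
  have rB := rp_TS ha hL hs fun l _ => contDiff_const.mul (d.S.g_smooth l)
  have rW := rp_TS (k := 7) ha hL (F := fun l x => x ^ (2 * l - 4 + 7) *
    wp (ρ ^ 2) l (fun x => 1 * (ρ ^ l / ρ ^ 2) * d.F.g l x) x) (fun _ _ _ => rfl) sw
  have hw := curl_curl_TS ha hL hf sf
  rw [TR, TF_eq_sm] at hw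
  rw [TA_sc ρ0 hL] at rA rB
  have tW : (TA (ρ ^ 2) d.L fun l => wp (ρ ^ 2) l fun x => 1 * (ρ ^ l / ρ ^ 2) * d.F.g l x) =
      cmT (ρ ^ 2) (TA 1 d.L fun l => wp 1 l (d.F.g l)) := by
    rw [← TA_sc ρ0 hL]
    simp only [wp_sc, one_mul]
  rw [tW] at rW
  exact ⟨_, _, _, TF_eq_sm _ _ _, TF_eq_sm _ _ _, axi_TS ha _ _, axi_TS ha _ _,
    axi_TS_of ha fun l hl => (contDiff_id.pow _).mul (sw l hl), hw, rA, rB, rW⟩

/-- The list `l` describes the table of `f`. -/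
def Jr (W : ℕ) (a c : ℝ) (k : ℕ) (l : List KT) (f : Sc) : Prop :=
  ∃ Φ, Rp a 1 k f (cmT c Φ) ∧ RepL true false W S1 (1 : ℕ) l Φ

variable {ψ b w f N : Sc} {A B Wt : Tf} {P : Sml} {W L r s p k k' : ℕ} {n : ℕ → ℕ}
  {la lb lw l a0 a1 a2 a3 b0 b1 b2 : List KT} {a c c' : ℝ} {G H : KT}

theorem Jr.lr (h : Jr W a c k l f) : Lr (rgT W a c k) 1 false 1 l f :=
  let ⟨_, h1, h2⟩ := h
  lr_of_rp h1 h2

theorem Jr.trm (h : Jr W a c k l f) (n : ℕ → ℕ) (s : ℕ) :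
    Ok (trmL W n s l) fun u => Jr W a c k u f :=
  let ⟨Φ, h1, h2⟩ := h
  (trmL_ok n s h2).mono fun _ i => ⟨Φ, h1, i⟩

theorem Jr.rr (ha : 0 < a) (h : Jr W a c k l f) (L : ℕ) (n : ℕ → ℕ) (s : ℕ) :
    Ok (rrL W L k n s l) fun u => Jr W a c k u (yd f) :=
  let ⟨_, h1, h2⟩ := h
  (rrL_ok L k n s h2).mono fun _ i => ⟨_, RR_cm c 1 k _ ▸ h1.yd ha, i⟩

theorem nG1_nonneg (f : Sc) (y : R3) : 0 ≤ nG1 f y := by unfold nG1; positivity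

theorem nG2_nonneg (f : Sc) (y : R3) : 0 ≤ nG2 f y := by unfold nG2; positivity

theorem nH2_nonneg (f : Sc) (y : R3) : 0 ≤ nH2 f y := by unfold nH2; positivity

theorem cont1 {V : Vc} (h : ∀ i, ContDiff ℝ ∞ (V i)) :
    Continuous fun y => ∑ i, ∑ j, pd j (V i) y ^ 2 :=
  continuous_finsetSum _ fun i _ => continuous_finsetSum _ fun j _ =>
    (ResHl_sm_pd (h i) j).continuous.pow 2

theorem cont2 {V : Vc} (h : ∀ i, ContDiff ℝ ∞ (V i)) :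
    Continuous fun y => ∑ i, ∑ j, ∑ k, pd k (pd j (V i)) y ^ 2 :=
  continuous_finsetSum _ fun i _ => cont1 fun j => ResHl_sm_pd (h i) j

theorem cont_Om : Continuous Om :=
  continuous_const.div (by fun_prop) fun y => by positivity

theorem n2_ok (ha : 0 < a) (hc : c ≠ 0) (hc' : c' ≠ 0) (xψ : Axi ψ) (xb : Axi b)
    (w1 : SqOK P (rgT W a c k) (-1) N (wq2 P W H)) (w2 : SqOK P (rgT W a c' k') 0 N (wp2 P W G))
    (h0 : Jr W a c k a0 ψ) (h1 : Jr W a c k a1 (yd ψ)) (h2 : Jr W a c k a2 (yd (yd ψ)))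
    (h3 : Jr W a c k a3 (yd (yd (yd ψ)))) (g0 : Jr W a c' k' b0 b) (g1 : Jr W a c' k' b1 (yd b))
    (g2 : Jr W a c' k' b2 (yd (yd b))) : Ok (n2 P W G H a0 a1 a2 a3 b0 b1 b2) (Qb P (an1 a) N
      fun y => 4 * ∑ i, ∑ j, ∑ k, pd k (pd j (fld (sm ψ Jv) (sm b Jv) i)) y ^ 2) := fun _ hk => by
  have hC := rgT_ok W ha hc k
  have hq : (0 : ℤ) + 1 = 1 := rfl
  have f0 := xψ.smooth
  have f1 := ResAxi_yd_smooth f0
  have f2 := ResAxi_yd_smooth f1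
  have xβ := ResAxi_axi_q xψ
  have E := fun y hy => n2_eq (y := y) xψ.pd_two xβ xb hy
  have K := cont2 (AxV_smooth xψ.pd_two xβ xb)
  rw [fld_AxV f0]
  obtain ⟨_, z, hk⟩ := dz_lr hC (d' := 0) rfl hq f0 h0.lr h1.lr _ hk
  obtain ⟨_, z1, hk⟩ := dz_lr hC (d' := 0) rfl hq f1 h1.lr h2.lr _ hk
  obtain ⟨_, z2, hk⟩ := dz_lr hC (d' := 0) rfl hq f2 h2.lr h3.lr _ hk
  obtain ⟨_, z2, hk⟩ := subL_lr z2 z1 _ hk
  obtain ⟨_, z1, hk⟩ := subL_lr z1 z _ hk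
  rw [← yd_z f1] at z2
  rw [← yd_z f0] at z1
  obtain ⟨_, z2, hk⟩ := subL_lr z2 z1 _ hk
  rw [← yd_sub (ResHl_sm_pd f1 2) (ResHl_sm_pd f0 2), ← yd_z f0] at z2
  obtain ⟨_, t, hk⟩ := g2_ok hC (d' := 1) rfl (by rfl : (-1 : ℤ) + 1 = 0) w1 xψ.pd_two.smooth
    ⟨_, K, fun y hy => by
      linarith [E y hy, nG2_nonneg b y, nH2_nonneg (ResAxi_q ψ) y]⟩ z z1 z2 _ hk
  obtain ⟨_, c0, hk⟩ := qL_lr hC f0 h0.lr h1.lr _ hk
  obtain ⟨_, c1, hk⟩ := qL_lr hC f1 h1.lr h2.lr _ hk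
  obtain ⟨_, c2, hk⟩ := qL_lr hC f2 h2.lr h3.lr _ hk
  rw [← yd_q f1] at c2
  rw [← yd_q f0] at c1 c2
  obtain ⟨_, u, hk⟩ := h2_ok hC w1 xβ.smooth ⟨_, K, fun y hy => by
    linarith [E y hy, nG2_nonneg b y, nG2_nonneg (pd 2 ψ) y]⟩ c0 c1 c2 _ hk
  obtain ⟨_, t, hk⟩ := t.axp 8 u _ hk
  obtain ⟨_, u, hk⟩ := g2_ok (rgT_ok W ha hc' k') (d' := 0) rfl hq w2 xb.smooth
    ⟨_, K, fun y hy => by
      linarith [E y hy, nG2_nonneg (pd 2 ψ) y, nH2_nonneg (ResAxi_q ψ) y]⟩ g0.lr g1.lr g2.lr _ hk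
  exact (Qb.axp 1 t u).mono (fun _ i => i.le fun y hy => le_of_eq (by
    rw [E y hy]; push_cast; ring)) _ hk

theorem wts_ok {m : ℕ} {k : KT → KT → Bool} (h : wts W m k = true) : ∃ G H,
    (Rep true W S1 G fun u _ => ((Real.cos u ^ 2) ^ 3 * (1 + m * (Real.cos u ^ 2) ^ 4) : ℝ)) ∧
    (Rep true W S1 H fun u _ => ((1 - Real.cos u ^ 2 / 2) *
      ((Real.cos u ^ 2) ^ 3 * (1 + m * (Real.cos u ^ 2) ^ 4)) : ℝ)) ∧ k G H = true := by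
  obtain ⟨_, _, _, _, h1, -, h3, h4, h⟩ := pw4_ok true W S1 h
  obtain ⟨_, u, h⟩ := mul_ok (nat_rep _ _ _ m) h4 _ h
  obtain ⟨_, u, h⟩ := add_ok (nat_rep _ _ _ 1) u _ h
  obtain ⟨G, hG, h⟩ := mul_ok h3 u _ h
  obtain ⟨_, u, h⟩ := half_ok 1 h1 _ h
  obtain ⟨_, u, h⟩ := sub_ok (nat_rep _ _ _ 1) u _ h
  obtain ⟨H, hH, h⟩ := mul_ok u hG _ h
  exact ⟨G, H, hG.congr fun _ _ => by push_cast; ring, hH.congr fun _ _ => by push_cast; ring, h⟩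

theorem g4_eq (r : ℕ) (y : R3) : tau 1 y ^ 4 * (1 + (Nat.mul r (Nat.add r 2) : ℕ) *
    tau (((r : ℝ) + 1) ^ 2) y ^ 4) = (r + 1) ^ 2 * tau ((r + 1) ^ 2) y ^ 4 := by
  rw [← tau_one_four (by positivity) y, Nat.mul_eq, Nat.add_eq]
  push_cast
  ring

theorem pw0_of (h : Bk (r + 1) ψ b w A B Wt) (ha : RepL true false W S1 1 la A)
    (hb : RepL true false W S1 1 lb B) (hV : 0 < P.V) (hk : pw0K P W L r n s p la lb = true)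
    (hc : p ≤ 5 * (r + 1) ^ 3 * c ^ 2) (y : R3) :
    ∑ i, ∑ j, pd j (fld (sm ψ Jv) (sm b Jv) i) y ^ 2 ≤ c ^ 2 * Op (3 / 2) y := by
  have s0 : (0 : ℝ) < r + 1 := by positivity
  have a0 : (0 : ℝ) < (r + 1) ^ 2 := by positivity
  have f0 := h.xψ.smooth
  have xβ := ResAxi_axi_q h.xψ
  have E := fun y hy => n1_eq (y := y) h.xψ.pd_two xβ h.xb hy
  have K := cont1 (AxV_smooth h.xψ.pd_two xβ h.xb)
  have hC := rgT_ok W a0 one_ne_zero 3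
  have hD := rgT_ok W a0 s0.ne' 5
  have o : Rep true W S1 one fun u _ => ((fun _ => (1 : ℕ)) u : ℝ) := nat_rep _ _ _ 1
  have hq : (0 : ℤ) + 1 = 1 := rfl
  have w1 := wp2_ok (P := P) (p := 0) (N := fun y => tau ((r + 1) ^ 2) y ^ 6) hC hV o
    fun y _ => le_of_eq (by simp only [rgT, zpow_zero]; push_cast; ring)
  have w2 := wp2_ok (P := P) (p := 1) (N := fun y => (‖y‖ * ((r + 1) * tau ((r + 1) ^ 2) y ^ 5)) ^ 2)
    hD hV o fun y _ => le_of_eq (by simp only [rgT, zpow_one]; push_cast; ring)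
  rw [fld_AxV f0]
  obtain ⟨_, x0, hk⟩ := Jr.trm ⟨_, h.rψ, ha⟩ n s _ hk
  obtain ⟨_, y0, hk⟩ := Jr.trm ⟨_, h.rb, hb⟩ n s _ hk
  obtain ⟨_, x1, hk⟩ := x0.rr a0 L n s _ hk
  obtain ⟨_, x2, hk⟩ := x1.rr a0 L n s _ hk
  obtain ⟨_, y1, hk⟩ := y0.rr a0 L n s _ hk
  obtain ⟨_, _, _, _, z, z1, c0, c1, hk⟩ := ab1_lr hC hq f0 x0.lr x1.lr x2.lr hk
  obtain ⟨_, t, hk⟩ := g1_ok hC (d' := 1) rfl w1 h.xψ.pd_two.smooth ⟨_, K, fun y hy => by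
    linarith [E y hy, nG1_nonneg b y, sq_nonneg (rd (ResAxi_q ψ) y / rc y),
      sq_nonneg (pd 2 (ResAxi_q ψ) y)]⟩ z z1 _ hk
  obtain ⟨_, e, hk⟩ := pr_lr hC (d' := 0) rfl hq xβ.smooth c0 c1 _ hk
  obtain ⟨_, u, hk⟩ := w1 _ _ _ _ e ⟨_, K, fun y hy => by
    linarith [E y hy, nG1_nonneg b y, nG1_nonneg (pd 2 ψ) y, neg_sq (rd (ResAxi_q ψ) y / rc y),
      sq_nonneg (pd 2 (ResAxi_q ψ) y)]⟩ _ hk
  obtain ⟨_, t, hk⟩ := t.axp 2 u _ hk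
  obtain ⟨_, e, hk⟩ := dz_lr hC (d' := 0) rfl hq xβ.smooth c0 c1 _ hk
  obtain ⟨_, u, hk⟩ := w1 _ _ _ _ e ⟨_, K, fun y hy => by
    linarith [E y hy, nG1_nonneg b y, nG1_nonneg (pd 2 ψ) y,
      sq_nonneg (rd (ResAxi_q ψ) y / rc y)]⟩ _ hk
  obtain ⟨_, t, hk⟩ := t.axp 2 u _ hk
  obtain ⟨_, u, hk⟩ := g1_ok hD (d' := 0) rfl w2 h.xb.smooth ⟨_, K, fun y hy => by
    linarith [E y hy, nG1_nonneg (pd 2 ψ) y, sq_nonneg (rd (ResAxi_q ψ) y / rc y),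
      sq_nonneg (pd 2 (ResAxi_q ψ) y)]⟩ y0.lr y1.lr _ hk
  obtain ⟨_, _, _, _, -, t2, -, t4, hk⟩ := pw4_ok false P.V P.S hk
  obtain ⟨_, e, hk⟩ := sub_ok (nat_rep _ _ _ 1) t4 _ hk
  obtain ⟨_, u, hk⟩ := Qb.mul (γ := fun u => 1 - (Real.cos u ^ 2) ^ 4)
    (N' := fun y => tau ((r + 1) ^ 2) y ^ 6) (e.congr fun _ _ => by push_cast; ring) u
    (fun y hy => ⟨by linarith [nG1_nonneg b y], by
      have := hy.norm_pos
      have := tau_pos a0 y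
      positivity, le_of_eq (by
      simp only [rgT, cos_an1_sq a0]
      linear_combination tau ((r + 1) ^ 2) y ^ 6 * tau_four a0 y)⟩) _ hk
  obtain ⟨_, t, hk⟩ := Qb.axp 1 t u _ hk
  obtain ⟨_, g, hk⟩ := opc_ok _ t4 _ hk
  obtain ⟨_, e, hk⟩ := opc_ok _ t2 _ hk
  obtain ⟨_, g, hk⟩ := mul_ok g e _ hk
  replace t := t.le (F' := fun y => 2 * ∑ i, ∑ j, pd j (AxV (pd 2 ψ) (ResAxi_q ψ) b i) y ^ 2)
    fun y hy => le_of_eq (by rw [E y hy]; push_cast; ring)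
  obtain ⟨_, t, hk⟩ := Qb.mul (N' := fun y => tau 1 y ^ 6 / (r + 1) ^ 3)
    (g.congr fun _ _ => ofReal_mul _ _) t (fun y _ => ⟨by positivity,
      pow_pos (tau_pos a0 y) 6, by
      have e := g4_eq r y
      have t0 := tau_pos a0 y
      have t1 := tau_le_one a0 y
      have u0 := tau_pos one_pos y
      simp only [rgT, cos_an1_sq a0]
      generalize tau (((r : ℝ) + 1) ^ 2) y = τ at *
      have e2 : (r + 1) * τ ^ 2 ≤ tau 1 y ^ 2 * (1 + r * τ ^ 2) := by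
        refine (pow_le_pow_iff_left₀ (by positivity) (by positivity) two_ne_zero).1 ?_
        rw [mul_pow, mul_pow, ← pow_mul, ← pow_mul, ← e, Nat.mul_eq, Nat.add_eq]
        refine mul_le_mul_of_nonneg_left ?_ (by positivity)
        push_cast
        nlinarith [mul_nonneg (mul_nonneg (Nat.cast_nonneg (α := ℝ) r) (sq_nonneg τ))
          (sub_nonneg.2 (pow_le_one₀ (n := 2) t0.le t1))]
      rw [div_mul_eq_mul_div, le_div_iff₀ (by positivity)]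
      calc _ = (r + 1) ^ 2 * τ ^ 4 * ((r + 1) * τ ^ 2) := by ring
        _ ≤ (r + 1) ^ 2 * τ ^ 4 * (tau 1 y ^ 2 * (1 + r * τ ^ 2)) := by gcongr
        _ = _ := by rw [← e]; ring⟩) _ hk
  have e : Op (3 / 2) = fun y => √2 ^ 3 * tau 1 y ^ 6 := funext fun y => by
    simpa using Op_tau 3 y
  rw [e]
  refine le_of_off K (continuous_const.mul (continuous_const.mul
    ((tau_smooth one_pos).continuous.pow 6))) (fun y hy => ?_) y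
  have u0 := tau_pos one_pos y
  have e1 := (t.fin hk hy (by positivity)).trans (mul_le_mul_of_nonneg_left hc (by positivity))
  rw [show tau 1 y ^ 6 / (r + 1) ^ 3 * (5 * (r + 1) ^ 3 * c ^ 2) = 5 * (c ^ 2 * tau 1 y ^ 6) by
    field_simp] at e1
  have e2 : (5 / 2 : ℝ) ≤ √2 ^ 3 := by
    have := Real.sq_sqrt (zero_le_two (α := ℝ))
    have : (5 / 4 : ℝ) ≤ √2 := Real.le_sqrt_of_sq_le (by norm_num)
    rw [pow_succ]
    nlinarith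
  change _ ≤ c ^ 2 * (√2 ^ 3 * tau 1 y ^ 6)
  linarith [mul_le_mul_of_nonneg_right e2 (show 0 ≤ c ^ 2 * tau 1 y ^ 6 by positivity)]

theorem fld_smooth (xψ : Axi ψ) (xb : Axi b) (i : Fin 3) :
    ContDiff ℝ ∞ (fld (sm ψ Jv) (sm b Jv) i) :=
  fld_AxV xψ.smooth b ▸ AxV_smooth xψ.pd_two (ResAxi_axi_q xψ) xb i

theorem pw1_of (h : Bk (r + 1) ψ b w A B Wt) (ha : RepL true false W S1 1 la A)
    (hb : RepL true false W S1 1 lb B) (hV : 0 < P.V) (hk : pw1K P W L r n s p la lb = true)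
    (hc : p ≤ 8 * c ^ 2) (y : R3) :
    ∑ i, ∑ j, ∑ k, pd k (pd j (fld (sm ψ Jv) (sm b Jv) i)) y ^ 2 ≤ c ^ 2 * Om y := by
  have s0 : (0 : ℝ) < r + 1 := by positivity
  have a0 : (0 : ℝ) < (r + 1) ^ 2 := by positivity
  obtain ⟨_, x0, hk⟩ := Jr.trm ⟨_, h.rψ, ha⟩ n s _ hk
  obtain ⟨_, y0, hk⟩ := Jr.trm ⟨_, h.rb, hb⟩ n s _ hk
  obtain ⟨_, x1, hk⟩ := x0.rr a0 L n s _ hk
  obtain ⟨_, x2, hk⟩ := x1.rr a0 L n s _ hk
  obtain ⟨_, x3, hk⟩ := x2.rr a0 L n s _ hk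
  obtain ⟨_, y1, hk⟩ := y0.rr a0 L n s _ hk
  obtain ⟨_, y2, hk⟩ := y1.rr a0 L n s _ hk
  obtain ⟨_, _, hG, hH, hk⟩ := wts_ok hk
  obtain ⟨_, t, hk⟩ := n2_ok (N := fun y => (r + 1) ^ 2 * tau ((r + 1) ^ 2) y ^ 4) a0 one_ne_zero
    s0.ne' h.xψ h.xb (wq2_ok s0 one_pos hV hH fun y => le_of_eq (by
      simp only [cos_an1_sq a0]; push_cast; ring))
    (wp2_ok (rgT_ok W a0 s0.ne' 5) hV hG fun y _ => le_of_eq (by
      simp only [rgT, cos_an1_sq a0, zpow_zero]; push_cast; ring)) x0 x1 x2 x3 y0 y1 y2 _ hk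
  obtain ⟨_, _, _, _, -, -, -, t4, hk⟩ := pw4_ok false P.V P.S hk
  obtain ⟨_, g, hk⟩ := opc_ok _ t4 _ hk
  obtain ⟨_, t, hk⟩ := Qb.mul (N' := fun y => tau 1 y ^ 4) g t (fun y _ => ⟨by positivity,
    mul_pos a0 (pow_pos (tau_pos a0 y) 4), by
      simpa only [cos_an1_sq a0] using (g4_eq r y).ge⟩) _ hk
  refine le_of_off (cont2 (fld_smooth h.xψ h.xb)) (continuous_const.mul cont_Om) (fun y hy => ?_) y
  have e1 := (t.fin hk hy (by positivity)).trans (mul_le_mul_of_nonneg_left hc (by positivity))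
  change _ ≤ c ^ 2 * Om y
  rw [Om_eq_tau]
  linarith

theorem pw2_of (h : Bk (r + 1) ψ b w A B Wt) (hb : RepL true false W S1 1 lb B)
    (hw : RepL true false W S1 1 lw Wt) (hV : 0 < P.V) (hk : pw2K P W L r n s p lb lw = true)
    (hc : p ≤ 16 * c ^ 2) (y : R3) :
    ∑ i, ∑ j, ∑ k, pd k (pd j (curl (fld (sm ψ Jv) (sm b Jv)) i)) y ^ 2 ≤ c ^ 2 * Om y ^ 2 := by
  have s0 : (0 : ℝ) < r + 1 := by positivity
  have a0 : (0 : ℝ) < (r + 1) ^ 2 := by positivity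
  rw [curl_fld_Jv h.xψ.smooth h.xb.smooth h.cc]
  obtain ⟨_, x0, hk⟩ := Jr.trm ⟨_, h.rb, hb⟩ n s _ hk
  obtain ⟨_, y0, hk⟩ := Jr.trm ⟨_, h.rw, hw⟩ n s _ hk
  obtain ⟨_, x1, hk⟩ := x0.rr a0 L n s _ hk
  obtain ⟨_, x2, hk⟩ := x1.rr a0 L n s _ hk
  obtain ⟨_, x3, hk⟩ := x2.rr a0 L n s _ hk
  obtain ⟨_, y1, hk⟩ := y0.rr a0 L n s _ hk
  obtain ⟨_, y2, hk⟩ := y1.rr a0 L n s _ hk
  obtain ⟨_, _, hG, hH, hk⟩ := wts_ok hk
  obtain ⟨_, t, hk⟩ := n2_ok (N := fun y => tau 1 y ^ 8) a0 s0.ne' a0.ne' h.xb h.xw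
    (wq2_ok s0 s0 hV hH fun y => le_of_eq (by
      simp only [cos_an1_sq a0]
      rw [show ∀ t u v x : ℝ, t ^ 8 * (u * (v * x)) ^ 2 = (u * v * (t ^ 4 * x)) ^ 2 from
        fun _ _ _ _ => by ring, g4_eq]
      ring))
    (wp2_ok (rgT_ok W a0 a0.ne' 7) hV hG fun y _ => le_of_eq (by
      simp only [rgT, cos_an1_sq a0, zpow_zero]
      rw [show ∀ t v x : ℝ, t ^ 8 * (v * x) ^ 2 = (v * (t ^ 4 * x)) ^ 2 from
        fun _ _ _ => by ring, g4_eq]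
      ring)) x0 x1 x2 x3 y0 y1 y2 _ hk
  refine le_of_off (cont2 (fld_smooth h.xb h.xw)) (continuous_const.mul (cont_Om.pow 2))
    (fun y hy => ?_) y
  have e1 := (t.fin hk hy (by positivity)).trans (mul_le_mul_of_nonneg_left hc (by positivity))
  change _ ≤ c ^ 2 * Om y ^ 2
  rw [Om_eq_tau]
  linarith

end Pool.Agent.Work.MP_6bf1e5_an.H.Pw
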