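import Pool.Agent.Work.MP_6bf1e5_an.H.ClK
import Pool.Agent.Work.MP_6bf1e5_an.H.PwF
import Pool.Agent.Work.MP_6bf1e5_an.H.LtF
import Pool.Agent.Lib.KTab.Fast

/-! The jets of the background in the variable `tau 1`, and the comparison with stored tables
(owner helper2). -/

open scoped ContDiff

namespace Pool.Agent.Work.MP_6bf1e5_an.H.Pw

open Pool.Agent.Lib.KLA Pool.Agent.Lib.KTab Complex Lt Finset

/-- The ring of `tau 1`, with the factor `tau 1 ^ k`. -/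
noncomputable def rg1 (W k : ℕ) : Rg := ⟨false, W, an1 1, fun y => tau 1 y ^ k⟩

theorem rg1_ok (W k : ℕ) : (rg1 W k).OK :=
  ⟨fun _ _ e => by simp only [rg1, an1, tau, e], fun _ _ e => by simp only [rg1, tau, e],
    fun y => (pow_pos (tau_pos one_pos y) k).ne'⟩

variable {P : Cp} {W q c : ℕ} {G : KT} {l R : List KT} {f : Sc} {Φ : Tf} {γ : ℝ → ℝ} {sg : Bool}

theorem powK_ok (n s : ℕ) (h : Rep false W S1 G fun u _ => γ u) :
    ∀ q, Ok (powK W n s G q) fun T => Rep false W S1 T fun u _ => (γ u ^ q : ℝ)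
  | 0 => Ok.pure ((nat_rep _ _ _ 1).congr fun _ _ => by simp)
  | q + 1 => (powK_ok n s h q).bind fun _ i => (mul_ok i h).bind fun _ i =>
      trm_ok n s (i.congr fun _ _ => by rw [pow_succ, ofReal_mul])

/-- The first angle for `tau a` as a function of the first angle for `tau 1`. -/
noncomputable def sg1 (a u : ℝ) : ℝ := Real.arccos √(Real.cos u ^ 2 * gt a (Real.cos u ^ 2))

/-- The rows for the change of variable. -/
def Bas (P : Cp) (q : ℕ) (R : List KT) : Prop :=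
  All (fun j B => Rep false P.W S1 B fun u _ => (gt P.a (Real.cos u ^ 2) ^ q *
    Real.cos (j * (2 * sg1 P.a u)) : ℝ)) 0 R ∧ Chn P.W P.sR 0 R

theorem gt_cos (ha : 1 ≤ P.a) (u : ℝ) :
    0 < gt P.a (Real.cos u ^ 2) ∧ gt P.a (Real.cos u ^ 2) ≤ 1 :=
  gt_mem (Nat.one_le_cast.2 ha) ⟨sq_nonneg _, Real.cos_sq_le_one u⟩

theorem basR_ok (ha : 1 ≤ P.a) (q : ℕ) : Ok (basR P q) (Bas P q) := fun k hk => by
  obtain ⟨G, hG, hk⟩ := gRow_ok _ _ _ _ _ _ (Nat.one_le_cast.2 ha) (nat_rep _ _ _ P.a) _ hk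
  obtain ⟨H, hH, hk⟩ := powK_ok _ _ hG q _ hk
  obtain ⟨_, _, _, _, t, -, -, -, hk⟩ := pw4_ok false P.W S1 hk
  obtain ⟨_, u, hk⟩ := mul_ok t hG _ hk
  obtain ⟨_, u, hk⟩ := mul_ok (nat_rep _ _ _ 2) u _ hk
  obtain ⟨_, u, hk⟩ := sub_ok u (nat_rep _ _ _ 1) _ hk
  obtain ⟨R, hR, hk⟩ := chebR_ok (σ := fun u => 2 * sg1 P.a u) _ _ _ hH (u.congr fun u _ => by
    obtain ⟨g0, g1⟩ := gt_cos ha u
    have h0 : 0 ≤ Real.cos u ^ 2 * gt P.a (Real.cos u ^ 2) := by positivity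
    rw [Real.cos_two_mul, sg1, Real.cos_arccos (neg_one_lt_zero.le.trans (Real.sqrt_nonneg _))
      (Real.sqrt_le_one.2 (mul_le_one₀ (Real.cos_sq_le_one u) g0.le g1)), Real.sq_sqrt h0]
    simp only [ofReal_sub, ofReal_mul, Nat.cast_ofNat, Nat.cast_one, ofReal_ofNat]) _ hk
  exact chn_ok _ R 0 0 hR k hk

theorem cvt_ok (ha : 1 ≤ P.a) (i : ℕ) (hR : Bas P q R) (hf : Rp P.a 1 q f Φ)
    (h : RepL true false P.V S1 (1 : ℕ) l Φ) :
    Ok (cvt P i R l) fun u => Lr (rg1 P.W q) 1 false 1 u f := by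
  have a0 : (0 : ℝ) < P.a := Nat.cast_pos.2 ha
  refine (trmL_ok _ _ h).bind fun _ h => (convL2_ok _ _ _ hR.1 hR.2 (fun u => ?_) h).mono
    fun u hu => ⟨_, hu, fun y hy => ?_⟩
  · obtain ⟨g0, g1⟩ := gt_cos ha u
    rw [abs_of_pos (pow_pos g0 q)]
    exact pow_le_one₀ g0.le g1
  · have e := congrArg re (hf.eq y hy)
    rw [ofReal_re, re_ofReal_mul] at e
    simp only [rg1, sg1, cos_an1_sq one_pos, ← tau_gt a0]
    rw [io, if_neg Bool.false_ne_true, one_mul, ← ofReal_mul, ofReal_inj, e, tau_gt a0 y, mul_pow,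
      ← tau_gt a0 y]
    change _ * (Φ (an1 P.a y) (pa y)).re = _ * (_ * (Φ (an1 P.a y) (pa y)).re)
    ring

theorem pre_ok (h : Jr P.V P.a c q l f) : Ok (pre P c l) fun u =>
    ∃ Φ, Rp P.a 1 q f Φ ∧ RepL true false P.V S1 (1 : ℕ) u Φ :=
  let ⟨_, h1, h2⟩ := h
  (h2.map_mul (nat_rep _ _ _ c)).bind fun _ i => (trmL_ok _ _ i).mono fun _ i => ⟨_, h1, i⟩

theorem jt0_ok (ha : 1 ≤ P.a) (h : Jr P.V P.a c q l f) :
    Ok (jt0 P q c l) fun u => Lr (rg1 P.W q) 1 false 1 u f :=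
  (pre_ok h).bind fun _ ⟨_, h1, h2⟩ => (basR_ok ha q).bind fun _ hR => cvt_ok ha 0 hR h1 h2

theorem jt1_ok (ha : 1 ≤ P.a) (h : Jr P.V P.a c q l f) {k : List KT → List KT → Bool}
    (hk : jt1 P q c l k = true) : ∃ l0 l1, Lr (rg1 P.W q) 1 false 1 l0 f ∧
      Lr (rg1 P.W q) 1 false 1 l1 (yd f) ∧ k l0 l1 = true := by
  obtain ⟨_, ⟨_, h0, g0⟩, hk⟩ := pre_ok h _ hk
  obtain ⟨_, g1, hk⟩ := rrL_ok _ q _ _ g0 _ hk
  obtain ⟨_, hR, hk⟩ := basR_ok ha q _ hk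
  obtain ⟨_, a0, hk⟩ := cvt_ok ha 0 hR h0 g0 _ hk
  obtain ⟨_, a1, hk⟩ := cvt_ok ha 1 hR (h0.yd (Nat.cast_pos.2 ha)) g1 _ hk
  exact ⟨_, _, a0, a1, hk⟩

theorem jt2_ok (ha : 1 ≤ P.a) (h : Jr P.V P.a c q l f) {k : List KT → List KT → List KT → Bool}
    (hk : jt2 P q c l k = true) : ∃ l0 l1 l2, Lr (rg1 P.W q) 1 false 1 l0 f ∧
      Lr (rg1 P.W q) 1 false 1 l1 (yd f) ∧ Lr (rg1 P.W q) 1 false 1 l2 (yd (yd f)) ∧
        k l0 l1 l2 = true := by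
  have a0 : (0 : ℝ) < P.a := Nat.cast_pos.2 ha
  obtain ⟨_, ⟨_, h0, g0⟩, hk⟩ := pre_ok h _ hk
  obtain ⟨_, g1, hk⟩ := rrL_ok _ q _ _ g0 _ hk
  obtain ⟨_, g2, hk⟩ := rrL_ok _ q _ _ g1 _ hk
  obtain ⟨_, hR, hk⟩ := basR_ok ha q _ hk
  obtain ⟨_, b0, hk⟩ := cvt_ok ha 0 hR h0 g0 _ hk
  obtain ⟨_, b1, hk⟩ := cvt_ok ha 1 hR (h0.yd a0) g1 _ hk
  obtain ⟨_, b2, hk⟩ := cvt_ok ha 2 hR ((h0.yd a0).yd a0) g2 _ hk
  exact ⟨_, _, _, b0, b1, b2, hk⟩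

theorem ldF_ok (e : Bool) (W b s : ℕ) (D : Lt.LT) : Ok (ldF W b s D) fun r =>
    RepL false e W S1 (0 : ℕ) r fun u θ => io e * (tb2 e b s D (Real.cos u ^ 2) θ : ℝ) := by
  refine (mapK_ok (Q := fun j T => Rep false W S1 T fun u _ =>
    ((Lt.chP b s (D.getD j (0, 0))).eval (Real.cos u ^ 2) : ℝ)) (fun j a ha => ?_) D 0
      (all_self D (0, 0))).mono fun r hr => ⟨_, hr.1, fun u θ => ?_⟩
  · rw [← ha]
    exact (cheb2_ok false W S1 b 9 a.1 s a.2).mono fun _ i => i.1.congr fun _ _ =>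
      congrArg _ (chP_eval _ _ _ _)
  · simp only [hr.2, tb2]
    push_cast
    rw [mul_sum]
    refine sum_congr rfl fun j _ => ?_
    cases e <;> simp [io, Lib.KBlk.cs, bas_false, bas_true]
    ring

theorem tg_ok {b : Bool} (h : RepL b sg W S1 (0 : ℕ) l Φ) :
    Ok (tg sg W 0 l) fun r => RepL b sg W S1 (0 : ℕ) r Φ := fun k hk => by
  cases l with
  | nil => exact ⟨_, h, hk⟩
  | cons A r =>
    cases sg
    · exact ⟨_, h, hk⟩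
    · obtain ⟨φ, Ψ, -, h2, h3⟩ := RepL_uncons h
      exact ⟨_, (RepL_cons (zero_rep b W S1) h2).congr fun u θ => by rw [h3]; simp [bas_true], hk⟩

theorem cmp_ok {C : Rg} {p : ℤ} {b s c e : ℕ} {D : Lt.LT} (hC : C.al = an1 1)
    (h : Lr C p sg 0 l f) (hk : cmp C.W b s c e sg D l = true) {y : R3} (hy : Off y) :
    |f y - ‖y‖ ^ p * C.n y * tbF sg b s D y| ≤ |‖y‖ ^ p * C.n y| * (e / 2 ^ c) := by
  obtain ⟨Φ, h1, h2⟩ := h
  obtain ⟨_, r, hk⟩ := ldF_ok sg C.W b s D _ hk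
  obtain ⟨_, r, hk⟩ := r.map_neg _ hk
  obtain ⟨_, r, hk⟩ := addL_ok h1.weak r _ hk
  obtain ⟨_, r, hk⟩ := tg_ok r _ hk
  obtain ⟨m, r, hk⟩ := supN_ok c r _ hk
  have e1 := (r (C.al y) (pa y)).trans (div_le_div_of_nonneg_right
    (Nat.cast_le.2 (Nat.le_of_ble_eq_true hk)) (by positivity))
  have e2 : io sg * ((f y - ‖y‖ ^ p * C.n y * tbF sg b s D y : ℝ) : ℂ) = (‖y‖ ^ p * C.n y : ℝ) *
      (Φ (C.al y) (pa y) + -(io sg * (tb2 sg b s D (Real.cos (C.al y) ^ 2) (pa y) : ℝ))) := by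
    rw [ofReal_sub, mul_sub, h2 y hy, ofReal_mul _ (tbF sg b s D y), tbF, hC, cos_an1_sq one_pos]
    ring
  have e3 := congrArg norm e2
  rw [norm_mul, norm_mul, norm_real, norm_real, show ‖io sg‖ = 1 by cases sg <;> simp [io],
    one_mul] at e3
  exact e3.le.trans (mul_le_mul_of_nonneg_left e1 (abs_nonneg _))

theorem cmp_rg1 {b s c e k : ℕ} {D : Lt.LT} (h : Lr (rg1 W k) 0 sg 0 l f)
    (hk : cmp W b s c e sg D l = true) {y : R3} (hy : Off y) :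
    |f y - tau 1 y ^ k * tbF sg b s D y| ≤ tau 1 y ^ k * (e / 2 ^ c) := by
  simpa [rg1, abs_of_pos (tau_pos one_pos y)] using cmp_ok rfl h hk hy

end Pool.Agent.Work.MP_6bf1e5_an.H.Pw
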