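import Pool.Agent.Work.MP_6bf1e5_an.H.LtD
import Pool.Agent.Lib.KTab.Flat
import Pool.Agent.Lib.KBlk.Trig

/-! The meaning of literal tables as real functions of `t` and of the polar angle. -/

open Set Finset Polynomial Complex

namespace Pool.Agent.Work.MP_6bf1e5_an.H.Lt

open Pool.Agent.Lib.KLA Pool.Agent.Lib.KTab Pool.Agent.Lib.KBlk

noncomputable section

/-- The polynomial of a stored row. -/
def chP (b s : ℕ) (p : ℕ × ℕ) : ℝ[X] :=
  ∑ j ∈ range (p.1 + 1), C (sdig b p.2 j / 2 ^ s : ℝ) * (Chebyshev.T ℝ j).comp (2 * X - 1)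

/-- The function of a stored table; row `k` goes with `cos (2 k θ)` or `sin (2 k θ)`. -/
def tb2 (e : Bool) (b s : ℕ) (l : List (ℕ × ℕ)) (t θ : ℝ) : ℝ :=
  ∑ k ∈ range l.length, (chP b s (l.getD k (0, 0))).eval t * cs e (2 * k * θ)

/-- The factor `1` or `i`. -/
def io (e : Bool) : ℂ := if e then I else 1

/-- The table `T` describes the real function `F` of `t` and `θ`, of type `e`. -/
def RT (e : Bool) (W S : ℕ) (T : Tab) (F : ℝ → ℝ → ℝ) : Prop :=
  Rep true W S T fun ω θ => io e * (F (Real.cos ω ^ 2) θ : ℝ)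

theorem chP_eval (b s : ℕ) (p : ℕ × ℕ) (t : ℝ) : (chP b s p).eval t =
    ∑ j ∈ range (p.1 + 1), sdig b p.2 j / 2 ^ s * (Chebyshev.T ℝ j).eval (2 * t - 1) := by
  simp [chP, eval_finsetSum]

variable {e e' : Bool} {W S : ℕ} {A B : Tab} {F G : ℝ → ℝ → ℝ} {f g : ℝ → ℝ}

theorem RT.congr (h : RT e W S A F) (i : ∀ t θ, G t θ = F t θ) : RT e W S A G :=
  Rep.congr h fun ω θ => by rw [i]

theorem RT.of_ang {H : ℝ → ℝ → ℝ} (h : Rep true W S A (ang H))
    (i : ∀ ω θ, F (Real.cos ω ^ 2) θ = H (Real.cos ω) (Real.cos θ)) : RT false W S A F :=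
  Rep.congr h fun ω θ => by simp [io, ang, i]

theorem RT.row (h : RT false W S A fun t _ => f t) :
    Rep true W S A fun ω _ => (f (Real.cos ω ^ 2) : ℝ) :=
  Rep.congr h fun ω θ => by simp [io]

theorem meas_rt (h : RT e W S A F) : Ok (meas W S A) fun T => RT e W S T F := meas_ok h

theorem trim_rt (n s : ℕ) (h : RT e W S A F) : Ok (trim W S n s A) fun T => RT e W S T F :=
  trim_ok n s h

theorem add_rt (h : RT e W S A F) (h' : RT e W S B G) :
    Ok (add W S A B) fun T => RT e W S T fun t θ => F t θ + G t θ :=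
  (add_ok h h').mono fun _ i => Rep.congr i fun ω θ => by push_cast; ring

theorem sub_rt (h : RT e W S A F) (h' : RT e W S B G) :
    Ok (sub W S A B) fun T => RT e W S T fun t θ => F t θ - G t θ :=
  (sub_ok h h').mono fun _ i => Rep.congr i fun ω θ => by push_cast; ring

theorem neg_rt (h : RT e W S A F) : Ok (neg A) fun T => RT e W S T fun t θ => -F t θ :=
  (neg_ok h).mono fun _ i => Rep.congr i fun ω θ => by push_cast; ring

theorem half_rt (j : ℕ) (h : RT e W S A F) :
    Ok (half j A) fun T => RT e W S T fun t θ => F t θ / 2 ^ j :=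
  (half_ok j h).mono fun _ i => Rep.congr i fun ω θ => by push_cast; ring

theorem mul_rt (h : RT false W S A F) (h' : RT e W S B G) :
    Ok (mul A B) fun T => RT e W S T fun t θ => F t θ * G t θ :=
  (mul_ok h h').mono fun _ i => Rep.congr i fun ω θ => by simp only [io]; push_cast; simp; ring

theorem mulT_rt (h : RT e W S A F) (h' : RT e' W S B G) :
    Ok (mulT e e' A B) fun T => RT (xor e e') W S T fun t θ => F t θ * G t θ := fun k hk => by
  obtain ⟨P, hP, hk⟩ := mul_ok h h' _ hk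
  cases e <;> cases e'
  · exact ⟨P, Rep.congr hP fun ω θ => by simp [io], hk⟩
  · exact ⟨P, Rep.congr hP fun ω θ => by simp [io]; ring, hk⟩
  · exact ⟨P, Rep.congr hP fun ω θ => by simp [io]; ring, hk⟩
  · obtain ⟨Q, hQ, hk⟩ := neg_ok hP _ hk
    refine ⟨Q, Rep.congr hQ fun ω θ => ?_, hk⟩
    simp only [io, Bool.xor_self, Bool.false_eq_true, if_false, if_true]
    push_cast
    linear_combination (F (Real.cos ω ^ 2) θ * G (Real.cos ω ^ 2) θ : ℂ) * I_mul_I

theorem cst_rt (W S : ℕ) (g : Bool) (a s : ℕ) :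
    RT false W S (cst g a s) fun _ _ => sv g a / 2 ^ s :=
  Rep.congr (cst_rep true W S g a s) fun ω θ => by simp [io]

theorem nat_rt (W S a : ℕ) : RT false W S (cst false a 0) fun _ _ => a :=
  (cst_rt W S false a 0).congr fun _ _ => by simp [sv]

theorem one_rt (W S : ℕ) : RT false W S (cst false 1 0) fun _ _ => 1 :=
  (nat_rt W S 1).congr fun _ _ => by simp

theorem tT_rt (W S : ℕ) : Ok (tT W) fun T => RT false W S T fun t _ => t :=
  (mul_ok (cx_rep true W S) (cx_rep true W S)).mono fun _ i =>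
    Rep.congr i fun ω θ => by simp [io, ang, sq]

theorem k2T_rt (W S : ℕ) : Ok (k2T W S) fun T => RT false W S T fun t _ => 1 - t ^ 4 :=
  (tT_rt W S).bind fun _ h1 => (mul_rt h1 h1).bind fun _ h2 => (mul_rt h2 h2).bind fun _ h4 =>
    (sub_rt (one_rt W S) h4).mono fun _ i => i.congr fun _ _ => by ring

theorem finS_rt {p q : ℕ} (h : finS p q A = true) (hA : RT e W S A F) {t : ℝ} (ht : t ∈ Icc (0 : ℝ) 1)
    (θ : ℝ) : |F t θ| ≤ p / q := by
  have hs := (Rep.sm' hA).2 (Real.arccos √t) θ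
  obtain ⟨g, a, n, m, x, s, M, e⟩ := A
  simp only [finS, use_mk, bnd_iff, Nat.add_eq, Nat.mul_eq, Nat.ble_eq, shl_eq] at h
  dsimp only at hs
  rw [Real.cos_arccos (by linarith [Real.sqrt_nonneg t]) (Real.sqrt_le_one.2 ht.2),
    Real.sq_sqrt ht.1, norm_mul, show ‖io _‖ = 1 by unfold io; split_ifs <;> simp, one_mul,
    Complex.norm_real, Real.norm_eq_abs] at hs
  refine hs.trans ?_
  rw [div_le_div_iff₀ (by positivity) (by exact_mod_cast h.1)]
  exact_mod_cast h.2

theorem ld1_rt (W S L b s : ℕ) (p : ℕ × ℕ) :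
    Ok (ld1 W S L b s p) fun T => RT false W S T fun t _ => (chP b s p).eval t :=
  (cheb_ok true W S b L p.1 s p.2).bind fun _ h =>
    meas_rt (RT.of_ang h fun _ _ => chP_eval _ _ _ _)

theorem ldR_ok (e : Bool) (W S L b s : ℕ) (l : List (ℕ × ℕ)) : Ok (ldR W S L b s l) fun r =>
    RepL true e W S (0 : ℕ) r fun ω θ => io e * (tb2 e b s l (Real.cos ω ^ 2) θ : ℝ) := by
  refine (mapK_ok (Q := fun j T => Rep true W S T fun ω _ =>
    ((chP b s (l.getD j (0, 0))).eval (Real.cos ω ^ 2) : ℝ)) (fun j a ha => ?_) l 0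
      (all_self l (0, 0))).mono fun r hr => ⟨_, hr.1, fun ω θ => ?_⟩
  · rw [← ha]
    exact (ld1_rt W S L b s a).mono fun _ i => i.row
  · simp only [hr.2, tb2]
    push_cast
    rw [mul_sum]
    refine sum_congr rfl fun j _ => ?_
    cases e <;> simp [io, cs, bas_false, bas_true]
    ring

theorem ld2_rt (e : Bool) (W S L L' n b s : ℕ) (l : List (ℕ × ℕ)) :
    Ok (ld2 e W S L L' n b s l) fun T => RT e W S T (tb2 e b s l) :=
  (ldR_ok e W S L b s l).bind fun _ h => flat_ok S L' n _ h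

theorem ld2m_rt (e : Bool) (L L' n b s s' : ℕ) (hA : RT false W S A fun t _ => g t)
    (l : List (ℕ × ℕ)) : Ok (ld2m e W S L L' n b s s' A l) fun T =>
      RT e W S T fun t θ => g t * tb2 e b s l t θ :=
  (ldR_ok e W S L b s l).bind fun _ h => (h.map_mul hA.row).bind fun _ h =>
    (h.map_id fun _ _ i => trim_ok n s' i).bind fun _ h => (flat_ok S L' n _ h).mono fun _ i =>
      Rep.congr i fun ω θ => by push_cast; ring

theorem dk_rt (L p : ℕ) {w : ℝ[X]} (hA : RT false W S A fun t _ => w.eval t) :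
    Ok (dk W S L p A) fun T => RT false W S T fun t _ =>
      -1 / 2 * ((1 - t ^ 4) * (p * w.eval t + t * (derivative w).eval t)) := by
  have h0 : Rep true W S A (ang fun x _ => w.eval (x ^ 2)) :=
    Rep.congr hA fun ω θ => by simp [io, ang]
  have e : E1 (ang fun x _ => w.eval (x ^ 2)) =
      ang fun x _ => (1 - x ^ 2) * ((derivative w).eval (x ^ 2) * (2 * x)) :=
    E1_ang fun x _ => by
      have := (w.hasDerivAt (x ^ 2)).comp x (hasDerivAt_pow 2 x)
      rw [show ((2 : ℕ) : ℝ) * x ^ (2 - 1) = 2 * x by norm_num] at this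
      exact this
  refine (k2T_rt W S).bind fun _ hK => (mul_rt (nat_rt W S p) hA).bind fun _ hP =>
    (mul_rt hK hP).bind fun _ hP => (dx_ok L h0).bind fun _ hD =>
    (mul_ok (cx_rep true W S) hD).bind fun D hD => ?_
  have hD' : RT false W S D fun t _ => 2 * t * (1 - t) * (derivative w).eval t :=
    Rep.congr hD fun ω θ => by
      simp only [e, ang, io, Bool.false_eq_true, if_false]
      push_cast
      ring
  exact (tT_rt W S).bind fun _ ht => (add_rt (one_rt W S) ht).bind fun _ hu =>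
    (mul_rt ht ht).bind fun _ h2 => (add_rt (one_rt W S) h2).bind fun _ hv =>
    (mul_rt hu hv).bind fun _ hu => (mul_rt hu hD').bind fun _ hD => (half_rt 1 hD).bind fun _ hD =>
    (add_rt hP hD).bind fun _ hP => (half_rt 1 hP).bind fun _ hP => (neg_rt hP).mono fun _ i =>
      i.congr fun _ _ => by ring

/-- The bound for the values of a stored row. -/
theorem abs_chP (b s : ℕ) (p : ℕ × ℕ) {t : ℝ} (ht : t ∈ Icc (0 : ℝ) 1) :
    |(chP b s p).eval t| ≤ (p.1 + 1) * 2 ^ b := by
  rw [chP_eval]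
  refine (abs_sum_le_sum_abs _ _).trans ((sum_le_card_nsmul _ _ (2 ^ b) fun j _ => ?_).trans_eq
    (by simp))
  have h1 : |(sdig b p.2 j : ℝ)| ≤ 2 ^ b := by exact_mod_cast abs_sdig b p.2 j
  have h2 : |(Chebyshev.T ℝ j).eval (2 * t - 1)| ≤ 1 := by
    rw [← Real.cos_arccos (x := 2 * t - 1) (by linarith [ht.1]) (by linarith [ht.2]),
      Chebyshev.T_real_cos]
    exact Real.abs_cos_le_one _
  rw [abs_mul, abs_div, abs_of_pos (show (0 : ℝ) < 2 ^ s by positivity)]
  exact (mul_le_of_le_one_right (by positivity) h2).trans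
    ((div_le_self (abs_nonneg _) (one_le_pow₀ one_le_two)).trans h1)

end

end Pool.Agent.Work.MP_6bf1e5_an.H.Lt
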