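import Pool.Agent.Work.MP_6bf1e5_an.H.TbDefs

/-! The rules for the representation of scalars by functions of two angles. -/

open scoped ContDiff ENNReal FourierTransform Real
open Set MeasureTheory Filter Topology
open Pool.Agent.Lib.KTab

namespace Pool.Agent.Work.MP_6bf1e5_an.H

variable {a : ℝ} {y : R3} {Φ Ψ : Tf} {f g : Sc} {p q : ℤ} {k n : ℕ}

theorem tb_line (y : R3) (j : Fin 3) : HasDerivAt
    (fun t : ℝ => y + t • (EuclideanSpace.single j 1 : R3)) (EuclideanSpace.single j 1) 0 := by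
  simpa using ((hasDerivAt_id (0 : ℝ)).smul_const (EuclideanSpace.single j (1 : ℝ) : R3)).const_add y

theorem tb_hd (hf : DifferentiableAt ℝ f y) (j : Fin 3) : HasDerivAt
    (fun t : ℝ => f (y + t • (EuclideanSpace.single j 1 : R3))) (pd j f y) 0 := by
  have h : HasFDerivAt f (fderiv ℝ f y) (y + (0 : ℝ) • (EuclideanSpace.single j 1 : R3)) := by
    simpa using hf.hasFDerivAt
  exact h.comp_hasDerivAt 0 (tb_line y j)

theorem tb_hd_norm (h : OfA y) (j : Fin 3) : HasDerivAt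
    (fun t : ℝ => ‖y + t • (EuclideanSpace.single j 1 : R3)‖) (y j / ‖y‖) 0 := by
  have h0 := h.norm_pos
  have h1 := (tb_line y j).norm_sq.sqrt (by simpa using h0.ne')
  simp only [Real.sqrt_sq (norm_nonneg _), zero_smul, add_zero, EuclideanSpace.inner_single_right,
    conj_trivial, one_mul] at h1
  exact h1.congr_deriv (by field_simp)

/-- The gradient. -/
theorem Rp.grad (h : Rp a p k f Φ) (ha : 0 < a) (hy : OfA y) (j : Fin 3) :
    (‖y‖ ^ 2 * (1 - (y 2 / ‖y‖) ^ 2) : ℝ) * (pd j f y : ℂ) = (‖y‖ ^ p * tau a y ^ k : ℝ) *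
      (((1 - (y 2 / ‖y‖) ^ 2) * y j : ℝ) * RR p k Φ (an1 a y) (an2 y)
        + ((if j = 2 then ‖y‖ else 0) - y 2 / ‖y‖ * y j : ℝ) * E2 Φ (an1 a y) (an2 y)) := by
  have h0 := hy.norm_pos
  have ht := tau_pos ha y
  have ht1 := hy.tau_lt ha
  have hc := hy.c_lt
  have hc' := abs_lt.1 ((sq_lt_one_iff_abs_lt_one _).1 hc)
  have z : y + (0 : ℝ) • (EuclideanSpace.single j 1 : R3) = y := by simp
  have d0 := (tb_hd (h.sf.differentiable (by simp) y) j).ofReal_comp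
  have dn := tb_hd_norm hy j
  have dk := tb_hd (((tau_smooth ha).pow k).differentiable (by simp) y) j
  have dt := tb_hd (((tau_smooth ha).pow 1).differentiable (by simp) y) j
  have dc := (tb_hd ((Dyn.coord_smooth 2).differentiable (by simp) y) j).div dn
    (by rw [z]; exact h0.ne')
  rw [pd_tau_pow ha] at dk dt
  simp only [pow_one] at dt
  have dp := (hasDerivAt_zpow p ‖y + (0 : ℝ) • (EuclideanSpace.single j 1 : R3)‖
    (Or.inl (by rw [z]; exact h0.ne'))).comp 0 dn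
  have ds := dt.sqrt (by rw [z]; exact ht.ne')
  have hs0 : 0 < √(tau a y) := Real.sqrt_pos.2 ht
  have hs1 : √(tau a y) < 1 := (Real.sqrt_lt' one_pos).2 (by rwa [one_pow])
  have d1 := (Real.hasDerivAt_arccos (x := √(tau a (y + (0 : ℝ) • EuclideanSpace.single j 1)))
    (by rw [z]; linarith) (by rw [z]; exact hs1.ne)).comp 0 ds
  have d2 := (Real.hasDerivAt_arccos
    (x := (y + (0 : ℝ) • (EuclideanSpace.single j 1 : R3)) 2 /
      ‖y + (0 : ℝ) • (EuclideanSpace.single j 1 : R3)‖)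
    (by rw [z]; exact hc'.1.ne') (by rw [z]; exact hc'.2.ne)).comp 0 dc
  have dd := ((dp.mul dk).ofReal_comp).mul (h.smo.chain d1 d2)
  have ev : ∀ᶠ t : ℝ in 𝓝 0, OfA (y + t • (EuclideanSpace.single j 1 : R3)) := by
    have := (tb_line y j).continuousAt
    rw [ContinuousAt, z] at this
    exact this.eventually hy.nhds
  have e := d0.unique (dd.congr_of_eventuallyEq (ev.mono fun t ht => h.eq _ ht))
  simp only [Function.comp_apply, Pi.mul_apply, Pi.div_apply, z, Dyn.pd_coord] at e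
  have s1 : Real.sin (an1 a y) = √(1 - √(tau a y) ^ 2) := Real.sin_arccos _
  have s2 : Real.sin (an2 y) = √(1 - (y 2 / ‖y‖) ^ 2) := Real.sin_arccos _
  have p1 : 0 < 1 - √(tau a y) ^ 2 := by nlinarith
  have p2 : 0 < 1 - (y 2 / ‖y‖) ^ 2 := by linarith
  have q1 := Real.sq_sqrt p1.le
  have q2 := Real.sq_sqrt p2.le
  have r1 := Real.sqrt_pos.2 p1
  have r2 := Real.sqrt_pos.2 p2
  have q3 := Real.sq_sqrt ht.le
  have q4 := tau_four ha y
  rw [e, RR, E1, E2, cos_an1 ha, s1, s2, zpow_sub_one₀ h0.ne']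
  change _ * (_ * Φ (an1 a y) (an2 y) + _ * (_ * deriv (fun α => Φ α (an2 y)) (an1 a y)
    + _ * deriv (fun θ => Φ (an1 a y) θ) (an2 y))) = _
  generalize Φ (an1 a y) (an2 y) = F
  generalize deriv (fun α => Φ α (an2 y)) (an1 a y) = F1
  generalize deriv (fun θ => Φ (an1 a y) θ) (an2 y) = F2
  have w1 : (if j = 2 then ‖y‖ else 0) = (if 2 = j then 1 else 0) * ‖y‖ := by
    by_cases hj : j = 2
    · simp [hj]
    · simp [hj, Ne.symm hj]
  rw [w1]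
  generalize (if 2 = j then (1 : ℝ) else 0) = δ
  generalize √(1 - √(tau a y) ^ 2) = S1 at q1 r1
  generalize √(1 - (y 2 / ‖y‖) ^ 2) = S2 at q2 r2
  generalize √(tau a y) = x at q1 q3 hs0
  have q5 : a * ‖y‖ ^ 2 * tau a y ^ 4 = 1 - x ^ 8 := by
    rw [show x ^ 8 = (x ^ 2) ^ 4 by ring, q3]; linear_combination q4
  have i1 : ‖y‖ ^ 2 * (p * (‖y‖ ^ p * ‖y‖⁻¹) * (y j / ‖y‖) * tau a y ^ k
      + ‖y‖ ^ p * -(k / 2 * a * y j * tau a y ^ (k + 4)))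
      = ‖y‖ ^ p * tau a y ^ k * y j * (p - k / 2 * (1 - x ^ 8)) := by
    rw [← q5]; field_simp; ring
  have i2 : ‖y‖ ^ 2 * (-(1 / S1) * (-(((1 : ℕ) : ℝ) / 2 * a * y j * tau a y ^ (1 + 4)) / (2 * x)))
      = y j * (x * (1 + x ^ 2) * (1 + x ^ 4) / 4 * S1) := by
    have : ‖y‖ ^ 2 * (a * tau a y ^ (1 + 4)) = x ^ 2 * (S1 ^ 2 * (1 + x ^ 2) * (1 + x ^ 4)) := by
      rw [q1]
      linear_combination tau a y * q5 - (1 - x ^ 8) * q3
    field_simp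
    linear_combination y j * 4 * this
  have i3 : ‖y‖ ^ 2 * (1 - (y 2 / ‖y‖) ^ 2) *
      (-(1 / S2) * ((δ * ‖y‖ - y 2 * (y j / ‖y‖)) / ‖y‖ ^ 2))
      = (δ * ‖y‖ - y 2 / ‖y‖ * y j) * -S2 := by
    rw [← q2]; field_simp
  have e1 := congrArg (fun r : ℝ => (r : ℂ)) i1
  have e2 := congrArg (fun r : ℝ => (r : ℂ)) i2
  have e3 := congrArg (fun r : ℝ => (r : ℂ)) i3
  generalize ‖y‖ ^ p = G at e1 ⊢
  push_cast at e1 e2 e3 ⊢
  linear_combination (1 - ((y 2 : ℂ) / ‖y‖) ^ 2) * F * e1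
    + (1 - ((y 2 : ℂ) / ‖y‖) ^ 2) * G * (tau a y : ℂ) ^ k * F1 * e2
    + G * (tau a y : ℂ) ^ k * F2 * e3

theorem Rp.yd (h : Rp a p k f Φ) (ha : 0 < a) : Rp a p k (yd f) (RR p k Φ) := by
  refine ⟨Dyn.yd_smooth h.sf, h.smo.rr p k, fun y hy => ?_⟩
  have h0 := hy.norm_pos
  have hne : ((‖y‖ ^ 2 * (1 - (y 2 / ‖y‖) ^ 2) : ℝ) : ℂ) ≠ 0 :=
    Complex.ofReal_ne_zero.2 (mul_pos (pow_pos h0 2) (by linarith [hy.c_lt])).ne'
  refine mul_left_cancel₀ hne ?_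
  have g0 := h.grad ha hy 0
  have g1 := h.grad ha hy 1
  have g2 := h.grad ha hy 2
  have n2 := congrArg (fun r : ℝ => (r : ℂ)) (tb_norm_sq y)
  have n1 := congrArg (fun r : ℝ => (r : ℂ)) (div_mul_cancel₀ (y 2) h0.ne')
  simp only [H.yd, Fin.sum_univ_three]
  generalize y 2 / ‖y‖ = c at g0 g1 g2 n1 ⊢
  generalize ((‖y‖ ^ p * tau a y ^ k : ℝ) : ℂ) = G at g0 g1 g2 ⊢
  simp only [Fin.reduceEq, if_false, if_true] at g0 g1 g2
  push_cast at g0 g1 g2 n1 n2 ⊢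
  linear_combination (y 0 : ℂ) * g0 + (y 1 : ℂ) * g1 + (y 2 : ℂ) * g2
    - G * ((1 - (c : ℂ) ^ 2) * RR p k Φ (an1 a y) (an2 y) - c * E2 Φ (an1 a y) (an2 y)) * n2
    - G * ‖y‖ * E2 Φ (an1 a y) (an2 y) * n1

theorem Rp.pd_two (h : Rp a (p + 1) k f Φ) (ha : 0 < a) :
    Rp a p k (pd 2 f) (DZ (p + 1) k Φ) := by
  refine ⟨Dyn.pd_smooth h.sf 2, h.smo.dz _ k, fun y hy => ?_⟩
  have h0 := hy.norm_pos
  have hne : ((‖y‖ ^ 2 * (1 - (y 2 / ‖y‖) ^ 2) : ℝ) : ℂ) ≠ 0 :=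
    Complex.ofReal_ne_zero.2 (mul_pos (pow_pos h0 2) (by linarith [hy.c_lt])).ne'
  refine mul_left_cancel₀ hne ?_
  have g2 := h.grad ha hy 2
  have n1 := congrArg (fun r : ℝ => (r : ℂ)) (div_mul_cancel₀ (y 2) h0.ne')
  rw [zpow_add_one₀ h0.ne'] at g2
  rw [DZ, cos_an2 hy]
  generalize y 2 / ‖y‖ = c at g2 n1 ⊢
  generalize ‖y‖ ^ p = G at g2 ⊢
  simp only [if_true] at g2
  push_cast at g2 n1 ⊢
  linear_combination g2 - G * ‖y‖ * (tau a y : ℂ) ^ k * ((1 - (c : ℂ) ^ 2) *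
    RR (p + 1) k Φ (an1 a y) (an2 y) - c * E2 Φ (an1 a y) (an2 y)) * n1

theorem tb_rd_smooth (h : ContDiff ℝ ∞ f) : ContDiff ℝ ∞ (rd f) :=
  ((Dyn.coord_smooth 0).mul (Dyn.pd_smooth h 0)).add ((Dyn.coord_smooth 1).mul (Dyn.pd_smooth h 1))

theorem Rp.rd (h : Rp a p k f Φ) (ha : 0 < a) : Rp a p k (rd f) (DR p k Φ) := by
  refine ⟨tb_rd_smooth h.sf, h.smo.dr p k, fun y hy => ?_⟩
  obtain ⟨q, rfl⟩ : ∃ q, p = q + 1 := ⟨p - 1, by ring⟩
  have h0 := hy.norm_pos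
  have g1 := (h.yd ha).eq y hy
  have g2 := (h.pd_two ha).eq y hy
  have n1 := congrArg (fun r : ℝ => (r : ℂ)) (div_mul_cancel₀ (y 2) h0.ne')
  rw [zpow_add_one₀ h0.ne'] at g1 ⊢
  rw [DZ, cos_an2 hy] at g2
  rw [DR, cos_an2 hy]
  simp only [H.yd, Fin.sum_univ_three] at g1
  simp only [H.rd]
  generalize y 2 / ‖y‖ = c at g2 n1 ⊢
  generalize ‖y‖ ^ q = G at g1 g2 ⊢
  push_cast at g1 g2 n1 ⊢
  linear_combination g1 - (y 2 : ℂ) * g2 + G * (tau a y : ℂ) ^ k * (c *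
    RR (q + 1) k Φ (an1 a y) (an2 y) + E2 Φ (an1 a y) (an2 y)) * n1

theorem Rp.add (h : Rp a p k f Φ) (h' : Rp a p k g Ψ) :
    Rp a p k (fun y => f y + g y) fun α θ => Φ α θ + Ψ α θ :=
  ⟨h.sf.add h'.sf, h.smo.add h'.smo, fun y hy => by
    rw [Complex.ofReal_add, h.eq y hy, h'.eq y hy, mul_add]⟩

theorem Rp.sub (h : Rp a p k f Φ) (h' : Rp a p k g Ψ) :
    Rp a p k (fun y => f y - g y) fun α θ => Φ α θ - Ψ α θ :=
  ⟨h.sf.sub h'.sf, h.smo.sub h'.smo, fun y hy => by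
    rw [Complex.ofReal_sub, h.eq y hy, h'.eq y hy, mul_sub]⟩

theorem Rp.cmul (h : Rp a p k f Φ) (c : ℝ) :
    Rp a p k (fun y => c * f y) fun α θ => c * Φ α θ :=
  ⟨contDiff_const.mul h.sf, (smo_const _).mul h.smo, fun y hy => by
    rw [Complex.ofReal_mul, h.eq y hy, mul_left_comm]⟩

theorem Rp.mul (h : Rp a p k f Φ) (h' : Rp a q n g Ψ) :
    Rp a (p + q) (k + n) (fun y => f y * g y) fun α θ => Φ α θ * Ψ α θ :=
  ⟨h.sf.mul h'.sf, h.smo.mul h'.smo, fun y hy => by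
    rw [Complex.ofReal_mul, h.eq y hy, h'.eq y hy, zpow_add₀ hy.norm_pos.ne', pow_add]
    push_cast; ring⟩

/-- Powers of `tau` may be moved into the table. -/
theorem Rp.shift (h : Rp a p (k + n) f Φ) (ha : 0 < a) :
    Rp a p k f fun α θ => (Real.cos α : ℂ) ^ (2 * n) * Φ α θ :=
  ⟨h.sf, (smo_cx.pow _).mul h.smo, fun y hy => by
    rw [h.eq y hy, pow_mul, ← Complex.ofReal_pow, cos_an1_sq ha, pow_add]
    push_cast; ring⟩

/-- Only the values at interior angles matter. -/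
theorem Rp.congr (h : Rp a p k f Φ) (ha : 0 < a) (hΨ : Smo Ψ)
    (e : ∀ α θ, Real.sin α ≠ 0 → Real.sin θ ≠ 0 → Ψ α θ = Φ α θ) : Rp a p k f Ψ := by
  refine ⟨h.sf, hΨ, fun y hy => ?_⟩
  rw [h.eq y hy, e]
  · intro h1
    have := Real.sin_sq (an1 a y)
    rw [h1, cos_an1_sq ha] at this
    linarith [hy.tau_lt ha]
  · intro h1
    have := sin_an2_sq hy
    rw [h1] at this
    linarith [hy.pos]

theorem Rp.abs_le (h : Rp a p k f Φ) (ha : 0 < a) (hy : OfA y) {η : ℝ}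
    (hη : ‖Φ (an1 a y) (an2 y)‖ ≤ η) : |f y| ≤ ‖y‖ ^ p * tau a y ^ k * η := by
  have h1 := congrArg norm (h.eq y hy)
  have h2 : 0 ≤ ‖y‖ ^ p * tau a y ^ k := by
    have := tau_pos ha y
    positivity
  rw [Complex.norm_real, norm_mul, Complex.norm_real, Real.norm_of_nonneg h2] at h1
  exact h1.le.trans (mul_le_mul_of_nonneg_left hη h2)

end Pool.Agent.Work.MP_6bf1e5_an.H
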