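import Pool.Agent.Work.MP_6bf1e5_an.H.PwD
import Pool.Agent.Work.MP_6bf1e5_an.H.LtS
import Pool.Agent.Work.MP_6bf1e5_an.H.TbRule

/-! Soundness of the operations on lists of rows. -/

namespace Pool.Agent.Work.MP_6bf1e5_an.H.Pw

open Pool.Agent.Lib Pool.Agent.Lib.KLA Pool.Agent.Lib.KTab Complex Finset

/-- The quotient `tau a / tau 1` as a function of `tau 1`. -/
noncomputable def gt (a t : ℝ) : ℝ := (a - (a - 1) * t ^ 4) ^ (-(1 / 4) : ℝ)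

variable {b sg : Bool} {W V : ℕ} {d : ℤ} {l R : List Tab} {A G U : Tab} {Φ : Tf} {φ : ℝ → ℂ}
  {γ σ : ℝ → ℝ} {a : ℝ}

theorem tau_gt (ha : 0 < a) (y : R3) : tau a y = tau 1 y * gt a (tau 1 y) := by
  have h1 : 0 < 1 + 1 * ‖y‖ ^ 2 := by positivity
  have h2 : 0 < 1 + a * ‖y‖ ^ 2 := by positivity
  have h3 : tau 1 y ^ 4 = (1 + 1 * ‖y‖ ^ 2)⁻¹ := by
    rw [tau, ← Real.rpow_natCast, ← Real.rpow_mul h1.le, ← Real.rpow_neg_one]
    norm_num
  rw [gt, h3, tau, tau, ← Real.mul_rpow h1.le]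
  · congr 1
    field_simp
    ring
  · rw [show a - (a - 1) * (1 + 1 * ‖y‖ ^ 2)⁻¹ = (1 + a * ‖y‖ ^ 2) / (1 + 1 * ‖y‖ ^ 2) by
      field_simp; ring]
    positivity

theorem pwk_base (ha : 1 ≤ a) {t : ℝ} (h : t ∈ Set.Icc (0 : ℝ) 1) : 1 ≤ a - (a - 1) * t ^ 4 := by
  nlinarith [pow_le_one₀ (n := 4) h.1 h.2]

theorem gt_mem (ha : 1 ≤ a) {t : ℝ} (h : t ∈ Set.Icc (0 : ℝ) 1) : 0 < gt a t ∧ gt a t ≤ 1 :=
  ⟨Real.rpow_pos_of_pos (one_pos.trans_le (pwk_base ha h)) _,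
    Real.rpow_le_one_of_one_le_of_nonpos (pwk_base ha h) (by norm_num)⟩

theorem pwk_ind {n : ℕ} {η : ℝ} (h : Sm n 0 η Φ) (u θ : ℝ) : Φ u θ = Φ u 0 := by
  obtain ⟨ι, s, c, a, b, h1, -, h3⟩ := h.form
  rw [h3, h3]
  exact sum_congr rfl fun k hk => by simp [Nat.le_zero.1 (h1 k hk).2]

theorem pwk_mon {q j : ℕ} (h : j ≤ q) : Sm q 0 1 fun u _ => ex ((2 * j - q) * u) :=
  Sm.of_form (univ : Finset Unit) (fun _ => 1) (fun _ => j) (fun _ => 0) (by simpa using h)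
    (by simp) fun _ _ => by simp

theorem pwk_tel (q : ℕ) {i j : ℕ} (h : i ≤ j) (u : ℝ) :
    ex ((2 * j - (q + 1 : ℕ)) * u) - ex ((2 * i - (q + 1 : ℕ)) * u) =
      2 * (Real.sin u : ℂ) * I * ∑ k ∈ Ico i j, ex ((2 * k - q) * u) := by
  rw [← sum_Ico_sub (fun k : ℕ => ex ((2 * k - (q + 1 : ℕ)) * u)) h, mul_sum]
  refine sum_congr rfl fun k _ => ?_
  rw [two_sin_ex, sub_mul (ex u), ← ex_add, ← ex_add]
  congr 2 <;> push_cast <;> ring

theorem pwk_div {p q : ℕ} {η : ℝ} (hq : q + 1 = 2 * p) (h : Sm (q + 1) 0 η Φ) :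
    ∃ Ψ, Sm q 0 (p * η) Ψ ∧ ∀ u θ, Φ u θ - Φ 0 θ = 2 * (Real.sin u : ℂ) * I * Ψ u θ := by
  obtain ⟨ι, s, c, a, b, h1, h2, h3⟩ := h.form
  have key : ∀ k ∈ s, Sm q 0 (|c k| * p) fun u _ => c k *
      (∑ i ∈ Ico p (a k), ex ((2 * i - q) * u) + -∑ i ∈ Ico (a k) p, ex ((2 * i - q) * u)) :=
    fun k hk => by
      have t := (h1 k hk).1
      refine Sm.smul (((Sm.sum _ fun i hi => pwk_mon (j := i)
        (by have := mem_Ico.1 hi; omega)).add (Sm.sum _ fun i hi => pwk_mon (j := i)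
        (by have := mem_Ico.1 hi; omega)).neg).le ?_) _
      simp only [sum_const, Nat.card_Ico, nsmul_eq_mul, mul_one]
      exact_mod_cast (by omega : a k - p + (p - a k) ≤ p)
  refine ⟨_, (Sm.sum s key).le ?_, fun u θ => ?_⟩
  · rw [← sum_mul, mul_comm]
    exact mul_le_mul_of_nonneg_left h2 (Nat.cast_nonneg _)
  · rw [h3, h3, ← sum_sub_distrib, mul_sum]
    refine sum_congr rfl fun k hk => ?_
    have e : ex ((2 * p - (q + 1 : ℕ)) * u) = 1 := by rw [hq]; simp [ex_zero]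
    simp only [Nat.le_zero.1 (h1 k hk).2, Nat.cast_zero, mul_zero, sub_zero, zero_mul, add_zero,
      ex_zero]
    rcases le_total p (a k) with t | t
    · have := pwk_tel q t u
      rw [Ico_eq_empty_of_le t, sum_empty]
      linear_combination c k * this + c k * e
    · have := pwk_tel q t u
      rw [Ico_eq_empty_of_le t, sum_empty]
      linear_combination -c k * this + c k * e

/-- The digits of a row describe a function exactly. -/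
theorem pwk_exact {g : Bool} {S a n m x s M e : ℕ} (h : Rep b W S ⟨g, a, n, m, x, s, M, e⟩ Φ) :
    ∃ ρ, (∀ b' M', M ≤ M' → Rep b' W S ⟨g, a, n, m, 0, s, M', 0⟩ ρ) ∧
      Er b (n + 2 * x) m e fun u θ => 2 ^ s * (Φ u θ - ρ u θ) := by
  obtain ⟨G, h1, h2, h3⟩ := h
  refine ⟨fun u θ => tr n m G u θ / 2 ^ s, fun b' M' hM => ⟨G, h1.mono le_rfl le_rfl
    (Nat.cast_le.2 hM), h2, (((Sm.zero _ _).er b').congr fun u θ => ?_).le (by simp)⟩,
    h3.congr fun u θ => ?_⟩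
  · dsimp only
    field_simp
    ring
  · dsimp only
    field_simp

theorem dq1_ok {g : Bool} {c s : ℕ} (h : Rep true W S1 A fun u _ => φ u) :
    Ok (dq1 W A (cst g c s)) fun T => ∃ ψ : ℝ → ℂ, (Rep true W S1 T fun u _ => ψ u) ∧
      ∀ u, φ u - φ 0 = I * Real.sin u * ψ u := fun k hk => by
  obtain ⟨g0, a, n, m, x, s0, M, e⟩ := A
  obtain ⟨ρ, r1, r2⟩ := pwk_exact h
  rw [dq1, use_mk] at hk
  obtain ⟨T, hT, k1⟩ := add_ok (r1 true (M + 1) (Nat.le_succ _)) (cst_rep true W S1 g c s) _ hk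
  obtain ⟨⟨g', a', n', m', x', s', M', e'⟩, ⟨Θ, t1, -, t3⟩, k2⟩ :=
    dv_ok hT (sx_rep true W S1) true _ k1
  clear hk k1
  rw [use_mk] at k2
  simp only [bnd_iff, Nat.beq_eq, Nat.add_eq, Nat.mul_eq, mod_eq', div_eq', mkT_eq] at k2
  obtain ⟨⟨⟨rfl, rfl⟩, h0, h2⟩, hk⟩ := k2
  obtain ⟨rfl, rfl, rfl⟩ : m = 0 ∧ m' = 0 ∧ e' = 0 := by omega
  obtain ⟨E, e1, e2⟩ := pwk_div (p := (n' + 1) / 2 + x) (q := n' + 2 * x) (by omega)
    (by rw [Nat.add_right_comm]; exact r2.sm)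
  obtain ⟨G, g1, g2, g3⟩ := t1
  have hR : Rep true W S1 ⟨g', a', n', 0, x, s', M', ((n' + 1) / 2 + x) * e⟩
      fun u θ => Θ u θ + E u θ / 2 ^ s' := by
    refine ⟨G, g1, g2, ((e1.er true).congr fun u θ => ?_).le (by simp)⟩
    have := Er.eq_zero (by simpa using g3) u θ
    dsimp only at this ⊢
    field_simp
    linear_combination this
  refine ⟨_, ⟨fun u => Θ u 0 + E u 0 / 2 ^ s', hR.congr fun u θ => (pwk_ind hR.sm'.sm u θ).symm,
    fun u => ?_⟩, hk⟩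
  have a1 := t3 u 0
  have a2 := t3 0 0
  have a3 := e2 u 0
  rw [Real.sin_zero, ofReal_zero, mul_zero, mul_zero] at a2
  have : (2 : ℂ) ^ s' ≠ 0 := pow_ne_zero _ two_ne_zero
  refine mul_left_cancel₀ (mul_ne_zero this two_ne_zero) ?_
  rw [pow_succ] at a3
  field_simp
  linear_combination (1 / 2) * a3 + 2 ^ s' * a1 - 2 ^ s' * a2

theorem dq_ok (h : Rep true W S1 A fun u _ => φ u) :
    Ok (dq W A) fun T => ∃ ψ : ℝ → ℂ, (Rep true W S1 T fun u _ => ψ u) ∧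
      ∀ u, φ u - φ 0 = I * Real.sin u * ψ u := fun k hk => by
  obtain ⟨g, a, n, m, x, s, M, e⟩ := A
  simp only [dq, use_mk, cnd_eq, strict_eq, Nat.beq_eq, Nat.add_eq] at hk
  split_ifs at hk with h1 h2
  · exact ⟨_, ⟨fun _ => 0, zero_rep _ _ _, fun u => by
      rw [h.eq_zero h1 u 0, h.eq_zero h1 0 0]; simp⟩, hk⟩
  · exact dq1_ok h k hk
  · exact dq1_ok h k hk

theorem pwk_choose {α β : Type} [Inhabited β] {P : ℕ → α → β → Prop} :
    ∀ {l : List α} {i : ℕ}, All (fun j a => ∃ b, P j a b) i l →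
      ∃ f : ℕ → β, All (fun j a => P j a (f j)) i l
  | [], _, _ => ⟨default, trivial⟩
  | _ :: _, i, h => by
    obtain ⟨b, hb⟩ := h.1
    obtain ⟨f, hf⟩ := pwk_choose h.2
    exact ⟨fun j => if j = i then b else f j, by simpa using hb,
      hf.mono' fun j a h1 _ h2 => by rwa [← if_neg (c := j = i) (by omega) (t := b) (e := f j)] at h2⟩

theorem dqL_ok (h : RepL true sg W S1 d l Φ) : Ok (mapK (fun _ => dq W) l 0) fun r =>
    ∃ Ψ, RepL true sg W S1 d r Ψ ∧ ∀ u θ, Φ u θ - Φ 0 θ = I * Real.sin u * Ψ u θ := by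
  obtain ⟨φ, h1, h2⟩ := h
  refine (mapK_ok (fun j T hT => dq_ok hT) l 0 h1).mono fun r hr => ?_
  obtain ⟨ψ, t⟩ := pwk_choose hr.1
  refine ⟨_, ⟨ψ, t.mono fun _ _ h => h.1, fun _ _ => rfl⟩, fun u θ => ?_⟩
  rw [h2, h2, ← sum_sub_distrib, mul_sum, hr.2]
  refine sum_congr rfl fun j hj => ?_
  rw [← sub_mul, (t.get z0 (hr.2 ▸ mem_range.1 hj)).2, mul_assoc]

theorem RepL_cons {S : ℕ} (hA : Rep b W S A fun u _ => φ u) (h : RepL b sg W S (d - 2) l Φ) :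
    RepL b sg W S d (A :: l) fun u θ => φ u * bas sg (-d) θ + Φ u θ := by
  obtain ⟨ψ, h1, h2⟩ := h
  refine ⟨fun j => Nat.rec φ (fun j _ => ψ j) j, ⟨hA, (all_shift 1).1 h1⟩, fun u θ => ?_⟩
  beta_reduce
  rw [List.length_cons, sum_range_succ', h2, add_comm]
  simp only [Nat.rec_zero, Nat.cast_zero, mul_zero, zero_sub]
  congr 1
  refine sum_congr rfl fun j _ => ?_
  congr 2
  push_cast
  ring

theorem RepL_uncons {S : ℕ} (h : RepL b sg W S d (A :: l) Φ) : ∃ (φ : ℝ → ℂ) (Ψ : Tf),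
    (Rep b W S A fun u _ => φ u) ∧ RepL b sg W S (d - 2) l Ψ ∧
      ∀ u θ, Φ u θ = φ u * bas sg (-d) θ + Ψ u θ := by
  obtain ⟨ψ, h1, h2⟩ := h
  refine ⟨ψ 0, _, h1.1, ⟨fun j => ψ (j + 1), (all_shift 1).2 h1.2, fun _ _ => rfl⟩, fun u θ => ?_⟩
  rw [h2, List.length_cons, sum_range_succ', add_comm]
  simp only [Nat.cast_zero, mul_zero, zero_sub]
  congr 1
  refine sum_congr rfl fun j _ => ?_
  congr 2
  push_cast
  ring

theorem RepL_nil {S : ℕ} : RepL b sg W S d [] Φ ↔ ∀ u θ, Φ u θ = 0 :=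
  ⟨fun ⟨_, _, h⟩ => h, fun h => ⟨0, trivial, h⟩⟩

theorem bas_neg (sg : Bool) (k θ : ℝ) : bas sg (-k) θ = (if sg then -1 else 1) * bas sg k θ := by
  cases sg <;> simp [bas] <;> ring

theorem norm_bas (sg : Bool) (k θ : ℝ) : ‖bas sg k θ‖ ≤ 1 := by
  cases sg
  · rw [bas_false, norm_real]
    exact Real.abs_cos_le_one _
  · rw [bas_true, norm_mul, norm_I, one_mul, norm_real]
    exact Real.abs_sin_le_one _

theorem ngs_ok {S : ℕ} (sg : Bool) (h : Rep b W S A Φ) :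
    Ok (ngs sg A) fun T => Rep b W S T fun u θ => (if sg then -1 else 1) * Φ u θ := by
  cases sg
  · exact Ok.pure (h.congr fun _ _ => by simp)
  · exact (neg_ok h).mono fun _ h => h.congr fun _ _ => by simp

theorem fd_ok {d : ℕ} (hd : d ≤ 2) (h : RepL b sg W S1 d l Φ) :
    Ok (fd sg W d l) fun r => RepL b sg W S1 (d % 2 : ℕ) r Φ := fun k hk => by
  rw [fd, cnd_eq] at hk
  split_ifs at hk with h2
  · obtain rfl := Nat.eq_of_beq_eq_true h2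
    cases l with
    | nil => exact ⟨_, RepL_nil.2 (RepL_nil.1 h), hk⟩
    | cons A r =>
      obtain ⟨φ, Ψ, h1, h3, h4⟩ := RepL_uncons h
      obtain ⟨B, hB, hk⟩ := ngs_ok sg h1 _ hk
      have t : RepL b sg W S1 (0 : ℤ) [z0, B] _ :=
        RepL_cons (zero_rep b W S1) (RepL_cons hB (RepL_nil.2 fun _ _ => rfl))
      refine (addL_ok h3 t).mono (fun r hr => hr.congr fun u θ => ?_) k hk
      rw [h4, bas_neg]
      norm_num
      ring
  · rw [Nat.beq_eq] at h2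
    exact ⟨l, by rwa [Nat.mod_eq_of_lt (by omega)], hk⟩

theorem suf_ok : ∀ (l : List Tab) {d : ℤ} {Φ : Tf}, RepL b true W S1 d l Φ →
    ∀ k, suf W l k = true → ∃ T r, k T r = true ∧ ∃ (τ : ℝ → ℂ) (Ψ : Tf),
      (Rep b W S1 T fun u _ => τ u) ∧ RepL b false W S1 (d - 1) r Ψ ∧
      ∀ u θ, Φ u θ = τ u * bas true (-d) θ + 2 * I * Real.sin θ * Ψ u θ
  | [], _, _, h, _, hk => ⟨_, _, hk, fun _ => 0, fun _ _ => 0, zero_rep _ _ _,
      RepL_nil.2 fun _ _ => rfl, fun u θ => by rw [RepL_nil.1 h]; simp⟩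
  | A :: l, d, Φ, h, k, hk => by
    obtain ⟨φ, Ψ, h1, h2, h3⟩ := RepL_uncons h
    obtain ⟨T, r, hk, τ, Θ, t1, t2, t3⟩ := suf_ok l h2 _ hk
    obtain ⟨U, hU, hk⟩ := add_ok h1 t1 _ hk
    refine ⟨U, _, hk, _, _, hU, RepL_cons t1 (by rwa [sub_right_comm]), fun u θ => ?_⟩
    have := bas_sin false (-(d - 1 : ℤ)) θ
    rw [show -((d - 1 : ℤ) : ℝ) - 1 = -d by push_cast; ring,
      show -((d - 1 : ℤ) : ℝ) + 1 = -(d - 2 : ℤ) by push_cast; ring, Bool.not_false] at this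
    rw [h3, t3]
    linear_combination 2 * τ u * this

theorem sufL_ok (h : RepL b true W S1 0 l Φ) : Ok (sufL W l) fun r =>
    ∃ Ψ, RepL b false W S1 (-1) r Ψ ∧ ∀ u θ, Φ u θ = 2 * I * Real.sin θ * Ψ u θ := fun k hk => by
  obtain ⟨T, r, hk, τ, Ψ, -, t2, t3⟩ := suf_ok l h _ hk
  exact ⟨r, ⟨Ψ, t2, fun u θ => by rw [t3, bas_true]; simp⟩, hk⟩

theorem nz_ok {f : Tab → (Tab → Bool) → Bool} {P : Tab → Prop} (hA : P A) (h : Ok (f A) P) :
    Ok (nz f A) P := fun k hk => by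
  obtain ⟨g, a, n, m, x, s, M, e⟩ := A
  rw [nz, use_mk, cnd_eq] at hk
  split_ifs at hk
  · exact ⟨_, hA, hk⟩
  · exact h k hk

theorem supN_ok (c : ℕ) (h : RepL b sg W S1 d l Φ) :
    Ok (supN W c l) fun m => ∀ u θ, ‖Φ u θ‖ ≤ m / 2 ^ c := by
  obtain ⟨φ, h1, h2⟩ := h
  refine (foldK_ok (J := fun j (t : ℕ) => ∀ u θ,
    ‖∑ i ∈ range j, φ i u * bas sg (2 * i - d) θ‖ ≤ t / 2 ^ c) (fun j A t hA ht k hk => ?_) l 0 0 h1
    (by simp)).mono fun m hm u θ => by rw [h2]; simpa using hm u θ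
  obtain ⟨⟨g, a, n, m, x, s, M, e⟩, hT, hk⟩ := nz_ok (P := fun T => Rep b W S1 T _) hA
    (meas_ok hA) _ hk
  refine ⟨_, fun u θ => ?_, hk⟩
  have t1 := hT.sm'.2 u θ
  have t2 := shr_real ((M + e) * 2 ^ c) s
  have t3 := norm_bas sg (2 * j - d) θ
  have t4 : ((M : ℝ) + e) / 2 ^ s ≤ (Nat.shiftRight ((M + e) * 2 ^ c) s + 1) / 2 ^ c := by
    rw [le_div_iff₀ (by positivity), div_mul_eq_mul_div]
    push_cast at t2
    split_ifs at t2 <;> linarith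
  rw [sum_range_succ, Nat.add_eq, Nat.add_eq, Nat.add_eq, shl_eq, Nat.cast_add, add_div]
  refine (norm_add_le _ _).trans (add_le_add (ht u θ) ?_)
  rw [norm_mul, Nat.cast_add, Nat.cast_one]
  exact (mul_le_of_le_one_right (norm_nonneg _) t3).trans (t1.trans t4)

theorem trm_ok (n s : ℕ) (h : Rep b W S1 A Φ) : Ok (trm W n s A) fun T => Rep b W S1 T Φ :=
  nz_ok h ((trim_ok n s h).bind fun _ h => meas_ok h)

theorem trmL_ok (n : ℕ → ℕ) (s : ℕ) (h : RepL b sg W S1 d l Φ) :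
    Ok (trmL W n s l) fun r => RepL b sg W S1 d r Φ := by
  obtain ⟨φ, h1, h2⟩ := h
  exact (mapK_ok (fun j T hT => trm_ok (n j) s hT) l 0 h1).mono fun r hr => ⟨φ, hr.1, hr.2 ▸ h2⟩

theorem RepL_cont (h : RepL true sg W S1 d l Φ) (θ : ℝ) : Continuous fun u => Φ u θ := by
  obtain ⟨φ, h1, h2⟩ := h
  simp only [h2]
  exact continuous_finsetSum _ fun j hj => (continuous_iff_continuousAt.2 fun u =>
    ((h1.get z0 (mem_range.1 hj)).d1 u θ).continuousAt).mul continuous_const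

theorem pw4_ok (b : Bool) (W S : ℕ) {k : Tab → Tab → Tab → Tab → Bool} (h : pw4 W k = true) :
    ∃ t1 t2 t3 t4, (Rep b W S t1 fun u _ => (Real.cos u ^ 2 : ℝ)) ∧
      (Rep b W S t2 fun u _ => ((Real.cos u ^ 2) ^ 2 : ℝ)) ∧
      (Rep b W S t3 fun u _ => ((Real.cos u ^ 2) ^ 3 : ℝ)) ∧
      (Rep b W S t4 fun u _ => ((Real.cos u ^ 2) ^ 4 : ℝ)) ∧ k t1 t2 t3 t4 = true := by
  obtain ⟨t1, h1, h⟩ := mul_ok (cx_rep b W S) (cx_rep b W S) _ h
  obtain ⟨t2, h2, h⟩ := mul_ok h1 h1 _ h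
  obtain ⟨t3, h3, h⟩ := mul_ok h1 h2 _ h
  obtain ⟨t4, h4, h⟩ := mul_ok h2 h2 _ h
  refine ⟨t1, t2, t3, t4, h1.congr fun _ _ => ?_, h2.congr fun _ _ => ?_, h3.congr fun _ _ => ?_,
    h4.congr fun _ _ => ?_, h⟩ <;> simp only [ang, ofReal_pow] <;> ring

theorem rrL_ok (L q : ℕ) (n : ℕ → ℕ) (s : ℕ) (h : RepL true sg W S1 d l Φ) :
    Ok (rrL W L q n s l) fun r => RepL true sg W S1 d r (RR 1 q Φ) := fun k hk => by
  obtain ⟨t1, t2, t3, t4, h1, h2, -, h4, hk⟩ := pw4_ok true W S1 hk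
  have o := cst_rep true W S1 false 1 0
  obtain ⟨_, a1, hk⟩ := sub_ok h4 o _ hk
  obtain ⟨_, a1, hk⟩ := mul_ok (cst_rep true W S1 false q 1) a1 _ hk
  obtain ⟨G, hG, hk⟩ := add_ok o a1 _ hk
  obtain ⟨_, a1, hk⟩ := add_ok o h1 _ hk
  obtain ⟨_, a2, hk⟩ := add_ok o h2 _ hk
  obtain ⟨_, a1, hk⟩ := mul_ok a1 a2 _ hk
  have hc : Rep true W S1 (cx W) fun u _ => (Real.cos u : ℝ) := cx_rep true W S1
  obtain ⟨_, a1, hk⟩ := mul_ok hc a1 _ hk
  obtain ⟨_, a1, hk⟩ := mul_ok (sx_rep true W S1) a1 _ hk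
  obtain ⟨H, hH, hk⟩ := half_ok 2 a1 _ hk
  obtain ⟨φ, f1, f2⟩ := h
  refine (mapK_ok (P := fun j T => Rep true W S1 T fun u _ => φ j u) (fun j T hT =>
    (th_ok L hT).bind fun _ b1 => (mul_ok hH b1).bind fun _ b1 => (mul_ok hG hT).bind fun _ b2 =>
      (add_ok b2 b1).bind fun _ b1 => trm_ok (n j) s b1) l 0 f1).mono
    (fun r hr => ⟨_, hr.1, fun u θ => ?_⟩) k hk
  simp only [RR, E1, RepL.deriv1 f1 f2, hr.2]
  rw [f2, mul_sum, mul_sum, mul_sum, ← sum_sub_distrib]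
  refine sum_congr rfl fun j _ => ?_
  simp only [sv, Bool.false_eq_true, if_false, ofReal_pow, ofReal_div, Int.cast_natCast,
    ofReal_natCast, ofReal_ofNat]
  push_cast
  linear_combination (cos u * (1 + cos u ^ 2) * (1 + cos u ^ 4) / 4 * sin u * deriv (φ j) u *
    bas sg (2 * j - d) θ) * I_mul_I

theorem spl_ok : ∀ (l : List Tab) (J : ℕ) (k : List Tab → List Tab → Bool), spl l J k = true →
    ∃ u v, l = u ++ v ∧ k u v = true
  | [], _, _, h => ⟨[], [], rfl, h⟩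
  | A :: r, J, k, h => by
    change cnd _ _ _ = true at h
    rw [cnd_eq] at h
    split_ifs at h
    · exact ⟨[], _, rfl, h⟩
    · obtain ⟨u, v, e, h⟩ := spl_ok r _ _ h
      exact ⟨A :: u, v, congrArg _ e, h⟩

theorem RepL_split {S : ℕ} {v : List Tab} : ∀ (u : List Tab) {d : ℤ} {Φ : Tf},
    RepL b sg W S d (u ++ v) Φ → ∃ Φ1 Φ2 d', RepL b sg W S d u Φ1 ∧ RepL b sg W S d' v Φ2 ∧
      ∀ ω θ, Φ ω θ = Φ1 ω θ + Φ2 ω θ
  | [], _, _, h => ⟨fun _ _ => 0, _, _, RepL_nil.2 fun _ _ => rfl, h, fun _ _ => (zero_add _).symm⟩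
  | _ :: u, _, _, h => by
    obtain ⟨φ, Ψ, h1, h2, h3⟩ := RepL_uncons h
    obtain ⟨Φ1, Φ2, d', t1, t2, t3⟩ := RepL_split u h2
    exact ⟨_, Φ2, d', RepL_cons h1 t1, t2, fun ω θ => by rw [h3, t3, add_assoc]⟩

theorem sqT_ok (P : Sml) (e : ℕ) (im : Bool) {d : ℕ} (hV : 0 < P.V) (h : RepL b sg W S1 d l Φ) :
    Ok (sqT P W e im sg d l) fun T =>
      Rep false P.V P.S T fun u θ => (if im then -1 else 1) * Φ u θ ^ 2 := fun k hk => by
  obtain ⟨V, S, J, n, s⟩ := P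
  obtain ⟨u, v, e, hk⟩ := spl_ok _ _ _ hk
  obtain ⟨Φ1, Φ2, d', h1, h2, h3⟩ := RepL_split u (e ▸ h)
  obtain ⟨t, ht, hk⟩ := supN_ok s h2 _ hk
  obtain ⟨u, h1, hk⟩ := trmL_ok _ s h1 _ hk
  obtain ⟨u, h1, hk⟩ := h1.map_id (fun T _ hT => res_ok V 10 hV hT) _ hk
  obtain ⟨T, hT, hk⟩ := flat_ok S 8 _ s h1 _ hk
  obtain ⟨T, hT, hk⟩ := wide_ok (Ψ := Φ) t (Nat.shiftLeft 1 s) hT (fun ω θ => by
    rw [h3, add_sub_cancel_left, shl_eq]
    simpa using ht ω θ) _ hk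
  obtain ⟨T, hT, hk⟩ := meas_ok hT _ hk
  obtain ⟨T, hT, hk⟩ := mul_ok hT hT _ hk
  exact (ngs_ok im hT).mono (fun T h => h.congr fun _ _ => by rw [sq]) k hk

theorem finS_ok {S p q : ℕ} (h : Lt.finS p q A = true) (hA : Rep b W S A Φ) (u θ : ℝ) :
    ‖Φ u θ‖ ≤ p / q := by
  have hs := hA.sm'.2 u θ
  obtain ⟨g, a, n, m, x, s, M, e⟩ := A
  simp only [Lt.finS, use_mk, bnd_iff, Nat.add_eq, Nat.mul_eq, Nat.ble_eq, shl_eq] at h
  refine hs.trans ?_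
  rw [div_le_div_iff₀ (by positivity) (by exact_mod_cast h.1)]
  exact_mod_cast h.2

theorem fin2_ok {P : Sml} {s p q : ℕ} (h : fin2 P s p q A = true) (hA : Rep false P.V P.S A Φ)
    (u θ : ℝ) : ‖Φ u θ‖ ^ 2 ≤ p / q := by
  obtain ⟨T, hT, h⟩ := meas_ok hA _ h
  obtain ⟨T, hT, h⟩ := trim_ok _ _ hT _ h
  obtain ⟨T, hT, h⟩ := mul_ok hT hT _ h
  obtain ⟨T, hT, h⟩ := meas_ok hT _ h
  simpa only [← sq, norm_pow] using finS_ok h hT u θ

theorem pwk_near {n m s e : ℕ} {ρ : Tf} (h : Er b n m e fun u θ => 2 ^ s * (Φ u θ - ρ u θ))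
    (u θ : ℝ) : ‖ρ u θ - Φ u θ‖ ≤ e / 2 ^ s := by
  have := h.2 u θ
  rw [norm_mul, norm_pow, Complex.norm_ofNat, norm_sub_rev] at this
  rwa [le_div_iff₀' (by positivity)]

theorem sete_ok {S E : ℕ} {ρ : Tf} (h : Rep false W S A ρ) (h0 : A.e = 0)
    (hE : ∀ u θ, ‖ρ u θ - Φ u θ‖ ≤ E / 2 ^ A.s) : Rep false W S (sete E A) Φ := by
  obtain ⟨g, a, n, m, x, s, M, e⟩ := A
  obtain rfl : e = 0 := h0
  obtain ⟨G, h1, h2, h3⟩ := h
  refine ⟨G, h1, h2, by simp, fun u θ => ?_⟩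
  have t1 := Er.eq_zero (by simpa using h3) u θ
  have t2 := hE u θ
  rw [le_div_iff₀' (by positivity)] at t2
  change ‖2 ^ s * Φ u θ - tr n m G u θ‖ ≤ E
  dsimp only at t1 t2
  rwa [← sub_eq_zero.1 t1, ← mul_sub, norm_mul, norm_pow, Complex.norm_ofNat, norm_sub_rev]

theorem lift_mk {S n' m' s : ℕ} {k : Tab → Bool} (h : Rep b W S A Φ)
    (hk : lift W S n' m' s A k = true) : ∃ g a n m x M e,
      Rep b W S ⟨g, a, n, m, x, s, M, e⟩ Φ ∧ k ⟨g, a, n, m, x, s, M, e⟩ = true := by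
  obtain ⟨⟨g, a, n, m, x, s', M, e⟩, ⟨h1, -, -, h2⟩, h3⟩ := lift_ok _ _ _ h _ hk
  obtain rfl : s' = s := h2
  exact ⟨g, a, n, m, x, M, e, h1, h3⟩

/-- The invariant of the recurrence. -/
def CI (W s : ℕ) (γ σ : ℝ → ℝ) (j : ℕ) (p : (Tab × Tab) × ℕ × ℕ) : Prop :=
  ∃ ρ ρ' : Tf, Rep false W S1 p.1.1 ρ ∧ Rep false W S1 p.1.2 ρ' ∧ p.1.1.s = s ∧ p.1.2.s = s ∧
    p.1.1.e = 0 ∧ p.1.2.e = 0 ∧ ∀ u θ,
      ‖ρ u θ - (γ u * Real.cos (j * σ u) : ℝ)‖ ≤ p.2.2 / 2 ^ s ∧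
      ‖ρ' u θ - (γ u * Real.cos ((j + 1) * σ u) : ℝ) -
        ex (σ u) * (ρ u θ - (γ u * Real.cos (j * σ u) : ℝ))‖ ≤ p.2.1 / 2 ^ s

theorem cstep_ok (s : ℕ) (n : ℕ → ℕ) (hU : Rep false W S1 U fun u _ => 2 * Real.cos (σ u))
    (j : ℕ) (p : (Tab × Tab) × ℕ × ℕ) (h : CI W s γ σ j p) :
    Ok (cstep W s n U j p) (CI W s γ σ (j + 1)) := fun k hk => by
  obtain ⟨⟨A, B⟩, D, E⟩ := p
  obtain ⟨ρ, ρ', h1, h2, -, h4, -, h6, h7⟩ := h
  simp only [cstep, usep_mk, strict_eq] at hk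
  dsimp only at h1 h2 h4 h6 h7
  obtain ⟨T, hT, hk⟩ := mul_ok hU h2 _ hk
  obtain ⟨T, hT, hk⟩ := sub_ok hT h1 _ hk
  obtain ⟨T, hT, hk⟩ := trm_ok _ s hT _ hk
  obtain ⟨g, a, n', m, x, M, e, hT, hk⟩ := lift_mk hT hk
  rw [use_mk] at hk
  obtain ⟨ρ'', r1, r2⟩ := pwk_exact hT
  refine ⟨_, ?_, hk⟩
  refine ⟨ρ', ρ'', h2, r1 _ _ le_rfl, h4, rfl, h6, rfl, fun u θ => ?_⟩
  obtain ⟨t1, t2⟩ := h7 u θ
  have t3 := pwk_near r2 u θ
  have e1 := two_cos_ex (σ u)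
  have e2 : ex (-σ u) * ex (σ u) = 1 := by rw [← ex_add, neg_add_cancel, ex_zero]
  have e3 : ((γ u * Real.cos ((j + 1 + 1) * σ u) : ℝ) : ℂ) = 2 * Real.cos (σ u) *
      (γ u * Real.cos ((j + 1) * σ u) : ℝ) - (γ u * Real.cos (j * σ u) : ℝ) := by
    have : Real.cos ((j + 1 + 1) * σ u) =
        2 * Real.cos (σ u) * Real.cos ((j + 1) * σ u) - Real.cos (j * σ u) := by
      rw [show (j + 1 + 1) * σ u = (j + 1) * σ u + σ u by ring,
        show j * σ u = (j + 1) * σ u - σ u by ring, Real.cos_add, Real.cos_sub]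
      ring
    rw [this]
    norm_cast
    ring
  simp only [Nat.add_eq, Nat.cast_add, Nat.cast_one, add_div] at t1 t2 t3 ⊢
  rw [e3]
  generalize ((γ u * Real.cos ((j + 1) * σ u) : ℝ) : ℂ) = c1 at *
  generalize ((γ u * Real.cos (j * σ u) : ℝ) : ℂ) = c0 at *
  constructor
  · rw [show ρ' u θ - c1 = ex (σ u) * (ρ u θ - c0) + (ρ' u θ - c1 - ex (σ u) * (ρ u θ - c0))
      by ring]
    refine (norm_add_le _ _).trans (add_le_add ?_ t2)
    rwa [norm_mul, norm_ex, one_mul]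
  · rw [show ρ'' u θ - (2 * Real.cos (σ u) * c1 - c0) - ex (σ u) * (ρ' u θ - c1) =
      ex (-σ u) * (ρ' u θ - c1 - ex (σ u) * (ρ u θ - c0)) +
        (ρ'' u θ - (2 * Real.cos (σ u) * ρ' u θ - ρ u θ)) by
          linear_combination (ρ' u θ - c1) * e1 + (ρ u θ - c0) * e2]
    refine (norm_add_le _ _).trans (add_le_add ?_ t3)
    rwa [norm_mul, norm_ex, one_mul]

theorem chebR_ok (s J : ℕ) (n : ℕ → ℕ) (hG : Rep false W S1 G fun u _ => γ u)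
    (hU : Rep false W S1 U fun u _ => Real.cos (σ u)) : Ok (chebR W s J n G U) fun R =>
      All (fun j B => Rep false W S1 B fun u _ => (γ u * Real.cos (j * σ u) : ℝ)) 0 R := fun k hk => by
  simp only [chebR, strict_eq] at hk
  obtain ⟨A, hA, hk⟩ := trm_ok _ s hG _ hk
  obtain ⟨g, a, n', m, x, M, e, hA, hk⟩ := lift_mk hA hk
  obtain ⟨B, hB, hk⟩ := mul_ok hG hU _ hk
  obtain ⟨B, hB, hk⟩ := trm_ok _ _ hB _ hk
  obtain ⟨g', a', n'', m', x', M', e', hB, hk⟩ := lift_mk hB hk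
  obtain ⟨U, hU, hk⟩ := mul_ok (cst_rep false W S1 false 2 0) hU _ hk
  rw [use_mk, use_mk] at hk
  obtain ⟨ρ, r1, r2⟩ := pwk_exact hA
  obtain ⟨ρ', r3, r4⟩ := pwk_exact hB
  obtain ⟨l, hl, hk⟩ := iterK_ok (cstep_ok (γ := γ) (σ := σ) s n
    (hU.congr fun _ _ => by simp [sv])) J 0
    ((⟨g, a, n', m, 0, s, M, 0⟩, ⟨g', a', n'', m', 0, s, M', 0⟩), Nat.add e e', e)
    ⟨ρ, ρ', r1 _ _ le_rfl, r3 _ _ le_rfl, rfl, rfl, rfl, rfl, fun u θ => by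
      have t1 := pwk_near r2 u θ
      have t2 := pwk_near r4 u θ
      simp only [Nat.cast_zero, zero_mul, Real.cos_zero, mul_one, zero_add, one_mul, Nat.add_eq,
        Nat.cast_add, add_div, ofReal_mul]
      refine ⟨t1, (norm_sub_le _ _).trans ?_⟩
      rw [norm_mul, norm_ex, one_mul, add_comm]
      exact add_le_add t1 t2⟩ _ hk
  refine ⟨_, All.lmap (hl.1.mono ?_), hk⟩
  rintro j ⟨⟨A, B⟩, D, E⟩ ⟨ρ, ρ', h1, -, h3, -, h5, -, h7⟩
  exact sete_ok h1 h5 fun u θ => h3 ▸ (h7 u θ).1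

theorem sv_half {g : Bool} {c : ℕ} {z : ℤ} (h : sv g c = 2 * z) : sv g (c / 2) = z := by
  cases g <;> simp only [sv, if_true, Bool.false_eq_true, if_false] at h ⊢ <;> omega

theorem conv_ok (hR : All (fun j B => Rep false W S1 B fun u _ =>
      (γ u * Real.cos (j * (2 * σ u)) : ℝ)) 0 R) (hγ : ∀ u, |γ u| ≤ 1)
    (h : Rep b V S1 A fun u _ => φ u) : Ok (conv V W R A) fun T =>
      Rep false W S1 T fun u _ => (γ u * (φ (σ u)).re : ℝ) := fun k hk => by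
  obtain ⟨g, a, n, m, x, s, M, e⟩ := A
  obtain ⟨G, h1, h2, h3⟩ := h
  simp only [conv, use_mk, strict_eq, Nat.sub_eq] at hk
  obtain ⟨y, v, k1, hS, hw, -, hy, -, -, -, v3⟩ := dig_ok hk h1 h2
  clear hk
  rw [bnd_iff, bnd_iff, Nat.ble_eq, Nat.beq_eq, llen_eq, div_eq', mod_eq', Nat.add_eq,
    Nat.add_eq] at k1
  obtain ⟨⟨h0, hJ⟩, hk⟩ := k1
  obtain rfl : m = 0 := by omega
  obtain rfl : G = _ := funext fun z => funext fun w => v3 z w
  have dy : ∀ i ≤ n, (dgt V y i : ℤ) = v i + 2 ^ (V - 2) := fun i hi => by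
    rw [dgt, land_shr, Nat.mul_eq, hy.ent (two_mul_lt hw) (by omega)]
    push_cast
    rfl
  have key := fun hf => foldK_ok (J := fun j T => Rep false W S1 T fun u _ =>
    ((∑ i ∈ range j, KTab.fold n (fun i => v i) (2 * i + 0) / 2 ^ s *
      (γ u * Real.cos (i * (2 * σ u))) : ℝ) : ℂ)) hf R 0 z0 hR
      ((zero_rep _ _ _).congr fun _ _ => by simp) _ hk
  obtain ⟨T, hT, hk⟩ := key fun j B T hB hT k hk => by
      clear key h1 h2 h3 v3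
      simp only [cnd_eq (Nat.ble _ _), Nat.ble_eq] at hk
      split_ifs at hk with j1
      · obtain ⟨g', c, hc, hk⟩ := ssub_ok hk
        obtain ⟨P, hP, hk⟩ := mul_ok (cst_rep false W S1 g' _ s) hB _ hk
        refine (add_ok hT hP).mono (fun T h => h.congr fun u _ => ?_) k hk
        rw [Nat.add_eq, Nat.add_eq, Nat.cast_add, dy _ (by omega), dy _ (by omega), shl_eq] at hc
        clear * - hc j1 h0
        beta_reduce
        rw [sum_range_succ, ofReal_add, ofReal_mul, KTab.fold, if_pos (by omega), cnd_eq]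
        simp only [Nat.beq_eq]
        split_ifs with j2 j3 j3
        · rw [div_eq', sv_half (z := v (n / 2))
            (by rw [hc, j3, Nat.sub_zero, Nat.add_zero]; push_cast; ring)]
        · omega
        · omega
        · rw [hc, show (n + (2 * j + 0)) / 2 = n / 2 + j by omega,
            show (n - (2 * j + 0)) / 2 = n / 2 - j by omega]
          push_cast
          ring
      · exact ⟨T, hT.congr fun u _ => by
          rw [sum_range_succ, KTab.fold, if_neg (by omega)]; simp, hk⟩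
  refine wide_ok e _ hT (fun u _ => ?_) k hk
  clear * - hγ h3 hS h0 hJ
  have t1 := (abs_re_le_norm _).trans (h3.2 (σ u) 0)
  dsimp only at t1
  simp only [mul_zero, add_zero] at t1
  rw [tr_row hS, show (2 : ℂ) ^ s = ((2 ^ s : ℝ) : ℂ) by simp] at t1
  simp only [sub_re, re_sum, re_ofReal_mul, ex_re, add_zero] at t1
  rw [fold_sum (ε := 0) (J := R.length) _ zero_le_one (by omega) (by omega)] at t1
  rw [← ofReal_sub, norm_real, Real.norm_eq_abs, shl_eq, one_mul, zero_add, Nat.cast_pow,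
    Nat.cast_ofNat, le_div_iff₀' (by positivity)]
  refine le_trans (le_of_eq ?_) ((mul_le_of_le_one_left (abs_nonneg _) (hγ u)).trans t1)
  refine (congrArg (· * _) (abs_of_pos (by positivity)).symm).trans ?_
  rw [← abs_mul, ← abs_mul, mul_sub, mul_sub, mul_sum, mul_sum]
  clear h3 t1
  refine congrArg _ (congrArg₂ _ ?_ ?_)
  · ring
  · refine sum_congr rfl fun i _ => ?_
    rw [show ((2 : ℝ) * i + (0 : ℕ)) * σ u = i * (2 * σ u) by push_cast; ring]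
    field_simp

theorem convL_ok (n : ℕ → ℕ) (s : ℕ) (hR : All (fun j B => Rep false W S1 B fun u _ =>
      (γ u * Real.cos (j * (2 * σ u)) : ℝ)) 0 R) (hγ : ∀ u, |γ u| ≤ 1)
    (h : RepL b false V S1 d l Φ) : Ok (convL V W R n s l) fun r =>
      RepL false false W S1 d r fun u θ => (γ u * (Φ (σ u) θ).re : ℝ) := by
  obtain ⟨φ, h1, h2⟩ := h
  refine (mapK_ok (P := fun j T => Rep b V S1 T fun u _ => φ j u) (fun j T hT =>
    (conv_ok hR hγ hT).bind fun _ h => trm_ok (n j) s h) l 0 h1).mono fun r hr =>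
    ⟨_, hr.1, fun u θ => ?_⟩
  beta_reduce
  rw [h2, hr.2, re_sum, mul_sum, ofReal_sum]
  refine sum_congr rfl fun j _ => ?_
  rw [bas_false, re_mul_ofReal, ← mul_assoc, ofReal_mul]

theorem gRow_ok (L b s p q : ℕ) (z : ℕ × ℕ) (ha : 1 ≤ a) (hA : Rep true W S1 A fun _ _ => a) :
    Ok (gRow W L b s p q A z) fun T =>
      Rep false W S1 T fun u _ => gt a (Real.cos u ^ 2) := fun k hk => by
  obtain ⟨G, hG, hk⟩ := Lt.ld1_rt W S1 L b s z _ hk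
  replace hG := hG.row
  obtain ⟨_, _, _, t4, -, -, -, h4, hk⟩ := pw4_ok true W S1 hk
  have o : Rep true W S1 one fun _ _ => (1 : ℝ) :=
    (cst_rep true W S1 false 1 0).congr fun _ _ => by simp [sv]
  have o' : Rep true W S1 (cst false 3 2) fun _ _ => (3 / 4 : ℝ) :=
    (cst_rep true W S1 false 3 2).congr fun _ _ => by norm_num [sv]
  obtain ⟨_, a1, hk⟩ := sub_ok o h4 _ hk
  obtain ⟨_, a1, hk⟩ := mul_ok hA a1 _ hk
  obtain ⟨_, a1, hk⟩ := add_ok a1 h4 _ hk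
  obtain ⟨_, a2, hk⟩ := mul_ok hG hG _ hk
  obtain ⟨_, a2, hk⟩ := trm_ok _ _ a2 _ hk
  obtain ⟨_, a2, hk⟩ := mul_ok a2 a2 _ hk
  obtain ⟨_, a2, hk⟩ := trm_ok _ _ a2 _ hk
  obtain ⟨_, a2, hk⟩ := mul_ok a2 a1 _ hk
  obtain ⟨_, a2, hk⟩ := sub_ok a2 o _ hk
  obtain ⟨_, a2, hk⟩ := meas_ok a2 _ hk
  obtain ⟨_, a3, hk⟩ := sub_ok hG o' _ hk
  obtain ⟨_, a3, hk⟩ := meas_ok a3 _ hk
  rw [bnd_iff, bnd_iff] at hk
  refine wide_ok p q hG (fun u θ => ?_) k hk.2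
  have t1 := finS_ok hk.1.1 a2 u θ
  have t2 := finS_ok hk.1.2 a3 u θ
  have ht : Real.cos u ^ 2 ∈ Set.Icc (0 : ℝ) 1 := ⟨sq_nonneg _, Real.cos_sq_le_one u⟩
  obtain ⟨g1, g2⟩ := gt_mem ha ht
  have g3 : gt a (Real.cos u ^ 2) ^ 4 * (a - (a - 1) * (Real.cos u ^ 2) ^ 4) = 1 := by
    have := one_pos.trans_le (pwk_base ha ht)
    rw [gt, ← Real.rpow_natCast, ← Real.rpow_mul this.le, ← Real.rpow_add_one this.ne']
    norm_num
  clear * - t1 t2 g1 g2 g3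
  simp only [← ofReal_mul, ← ofReal_sub, ← ofReal_add, norm_real, Real.norm_eq_abs] at t1 t2 ⊢
  generalize (Lt.chP b s z).eval (Real.cos u ^ 2) = f at *
  generalize gt a (Real.cos u ^ 2) = g at *
  generalize (Real.cos u ^ 2) ^ 4 = t at *
  obtain ⟨r, rfl⟩ : ∃ r, f = r * g := ⟨f / g, by field_simp⟩
  have hr : 0 ≤ r := by
    have := (abs_le.1 t2).1
    push_cast at this
    exact nonneg_of_mul_nonneg_left (by linarith) g1
  rw [show r * g * (r * g) * (r * g * (r * g)) * (a * (1 - t) + t) - 1 =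
    (r - 1) * (r ^ 3 + r ^ 2 + r + 1) by linear_combination r ^ 4 * g3] at t1
  refine le_trans ?_ t1
  rw [show g - r * g = -(r - 1) * g by ring, abs_mul, abs_neg, abs_of_pos g1]
  refine (mul_le_of_le_one_right (abs_nonneg _) g2).trans ?_
  rw [abs_mul]
  exact le_mul_of_one_le_right (abs_nonneg _)
    (le_trans (by linarith [pow_nonneg hr 3, pow_nonneg hr 2]) (le_abs_self _))

end Pool.Agent.Work.MP_6bf1e5_an.H.Pw
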