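import Pool.Agent.Work.MP_6bf1e5_an.H.ClD
import Pool.Agent.Work.MP_6bf1e5_an.H.PwK

/-! Soundness of the faster change of the radial variable. -/

namespace Pool.Agent.Work.MP_6bf1e5_an.H.Pw

open Pool.Agent.Lib Pool.Agent.Lib.KLA Pool.Agent.Lib.KTab Complex Finset

variable {b : Bool} {W V : ℕ} {d : ℤ} {l R : List Tab} {Φ : Tf} {γ σ : ℝ → ℝ}

/-- What `chn` establishes. -/
def Chn (W s : ℕ) : ℕ → List Tab → Prop
  | _, [] => True
  | n, B :: r => (∃ d, B.n = n + 2 * d ∧ B.x = W * d) ∧ B.m = 0 ∧ B.s = s ∧ Chn W s B.n r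

theorem chn_ok (s : ℕ) {ρ : ℕ → Tf} : ∀ (R : List Tab) (n i : ℕ),
    All (fun j B => Rep false W S1 B (ρ j)) i R → Ok (chn W s R n) fun r =>
      All (fun j B => Rep false W S1 B (ρ j)) i r ∧ Chn W s n r
  | [], _, _, _ => fun _ hk => ⟨[], ⟨trivial, trivial⟩, hk⟩
  | ⟨g, a, n', m, x, s', M, e⟩ :: R, n, i, ⟨⟨G, h1, h2, h3⟩, h⟩ => fun k hk => by
    change bnd _ (chn W s R n' _) = true at hk
    simp only [bnd_iff, Nat.beq_eq] at hk
    obtain ⟨⟨k1, rfl, rfl⟩, hk⟩ := hk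
    obtain ⟨r, ⟨r1, r2⟩, hk⟩ := chn_ok s' R n' (i + 1) h _ hk
    refine ⟨_, ?_, hk⟩
    exact ⟨⟨⟨G, h1, h2, h3.weak _ _⟩, r1⟩, ⟨_, k1.symm, rfl⟩, rfl, rfl, r2⟩

/-- The invariant of the loop. -/
def CvI (W t n P N M e : ℕ) (Ψ : Tf) : Prop := ∃ G, Fam ⊥ n 0 M G ∧
  (((P : ℤ) - N : ℤ) : ℂ) = G (2 ^ W) (2 ^ (W * S1)) ∧ ∀ u θ, ‖2 ^ t * Ψ u θ - tr n 0 G u θ‖ ≤ e

theorem cvB_eq {ih : Lp} {g : Bool} {c a n x M' e' j P N M e : ℕ}
    (h : cvB ih g c a n x M' e' j P N M e = true) : ∃ P' N' : ℕ,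
      (P' : ℤ) - N' = (P - N) * 2 ^ x + c * sv g a ∧
        ih (j + 1) n P' N' (M + c * M') (e + c * e') = true := by
  have t : cvA ih g c a n M' e' j (P * 2 ^ x) (N * 2 ^ x) M e = true := by
    rw [cvB, cnd_eq, shl_eq, shl_eq] at h
    split_ifs at h with h1
    · simpa only [Nat.eq_of_beq_eq_true h1, pow_zero, mul_one] using h
    · exact h
  cases g <;> refine ⟨_, _, ?_, t⟩ <;> simp [sv] <;> ring

theorem shr_exact {a r : ℕ} {z : ℤ} (h : (a : ℤ) = z * 2 ^ r) : (Nat.shiftRight a r : ℕ) = z := by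
  rw [show Nat.shiftRight a r = a / 2 ^ r from Nat.shiftRight_eq_div_pow a r, Int.natCast_div, h]
  exact Int.mul_ediv_cancel _ (by positivity)

theorem cvL_ok {y h K t : ℕ} {k : ℕ → ℕ → ℕ → ℕ → ℕ → Bool} {z : ℕ → ℤ} {ρ : ℕ → Tf}
    (hz : ∀ j ≤ h, (dgt V y (h + j) + dgt V y (h - j) : ℤ) - K = z j * 2 ^ (1 - j)) :
    ∀ (R : List Tab) (j n P N M e : ℕ), All (fun j B => Rep false W S1 B (ρ j)) j R →
      Chn W t n R → h + 1 ≤ j + R.length → j ≤ h + 1 →
      CvI W t n P N M e (fun u θ => ∑ i ∈ range j, z i * ρ i u θ) →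
      cvL V y h K k R j n P N M e = true → ∃ n P N M e,
        CvI W t n P N M e (fun u θ => ∑ i ∈ range (h + 1), z i * ρ i u θ) ∧ k n P N M e = true
  | [], j, n, P, N, M, e, _, _, h1, h2, hI, hk =>
    ⟨n, P, N, M, e, le_antisymm h2 h1 ▸ hI, hk⟩
  | ⟨g, a, n', m, x, s', M', e'⟩ :: R, j, n, P, N, M, e, ⟨⟨G', g1, g2, g3⟩, hR⟩,
      ⟨⟨d, c1, c2⟩, c3, c4, hC⟩, h1, h2, hI, hk => by
    change cnd (Nat.ble j h) (cnd (Nat.ble K (dgt V y (h + j) + dgt V y (h - j)))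
      (cvB (cvL V y h K k R) g (Nat.shiftRight (_ - K) (1 - j)) a n' x M' e' j P N M e)
      (cvB (cvL V y h K k R) (nt g) (Nat.shiftRight (K - _) (1 - j)) a n' x M' e' j P N M e))
      (k n P N M e) = true at hk
    simp only [cnd_eq, Nat.ble_eq, Nat.add_eq, Nat.sub_eq] at hk
    by_cases j1 : j ≤ h
    swap
    · rw [if_neg j1] at hk
      exact ⟨n, P, N, M, e, (show j = h + 1 by omega) ▸ hI, hk⟩
    rw [if_pos j1] at hk
    dsimp only at c1 c2 c3 c4 g1 g2 g3 hC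
    subst c1 c2 c3 c4
    have hj := hz j j1
    obtain ⟨c, P', N', e1, e2, hk⟩ : ∃ c P' N' : ℕ, (c : ℤ) = |z j| ∧
        (P' : ℤ) - N' = (P - N) * 2 ^ (W * d) + z j * sv g a ∧ cvL V y h K k R (j + 1)
          (n + 2 * d) P' N' (M + c * M') (e + c * e') = true := by
      split_ifs at hk with j2
      · obtain ⟨P', N', e1, hk⟩ := cvB_eq hk
        have t := shr_exact (((Nat.cast_sub j2).trans (by rw [Nat.cast_add])).trans hj)
        exact ⟨_, P', N', by rw [← t, Nat.abs_cast], by rw [e1, t], hk⟩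
      · obtain ⟨P', N', e1, hk⟩ := cvB_eq hk
        have t := shr_exact (z := -z j) (r := 1 - j) ((Nat.cast_sub (not_le.1 j2).le).trans
          (by rw [Nat.cast_add, neg_mul, ← hj, neg_sub]))
        refine ⟨_, P', N', by rw [← abs_neg, ← t, Nat.abs_cast], ?_, hk⟩
        rw [e1, t]
        cases g <;> simp [sv, nt, cnd]
    obtain ⟨G, i1, i2, i3⟩ := hI
    have e3 : |(z j : ℝ)| = c := by exact_mod_cast e1.symm
    refine cvL_ok hz R _ _ _ _ _ _ hR hC (by simp at h1; omega) (by omega)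
      ⟨_, ((i1.shift d 0).add (g1.smul (int_mem (z j)))).mono le_rfl le_rfl (le_of_eq ?_), ?_,
        fun u θ => ?_⟩ hk
    · rw [e3]
      push_cast
      rfl
    · rw [e2, ← i2, ← g2]
      push_cast
      ring
    · have t1 := (g3.smul (z j)).2 u θ
      have t2 := tr_shift n 0 d 0 G u θ
      rw [e3] at t1
      refine le_trans (le_of_eq (congrArg _ ?_)) (((norm_add_le _ _).trans
        (add_le_add (i3 u θ) t1)).trans_eq (by push_cast; rfl))
      rw [← t2]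
      simp only [tr, sum_range_succ]
      push_cast
      ring

theorem conv2_ok {t : ℕ} {A : Tab} {φ : ℝ → ℂ} (hR : All (fun j B => Rep false W S1 B fun u _ =>
      (γ u * Real.cos (j * (2 * σ u)) : ℝ)) 0 R) (hC : Chn W t 0 R) (hγ : ∀ u, |γ u| ≤ 1)
    (h : Rep b V S1 A fun u _ => φ u) : Ok (conv2 V t R A) fun T =>
      Rep false W S1 T fun u _ => (γ u * (φ (σ u)).re : ℝ) := fun k hk => by
  obtain ⟨g, a, n, m, x, s, M, e⟩ := A
  obtain ⟨G, h1, h2, h3⟩ := h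
  simp only [conv2, use_mk, strict_eq, Nat.sub_eq] at hk
  obtain ⟨y, v, k1, hS, hw, -, hy, -, -, -, v3⟩ := dig_ok hk h1 h2
  clear hk
  rw [bnd_iff, bnd_iff, Nat.ble_eq, Nat.beq_eq, llen_eq, div_eq', mod_eq', Nat.add_eq,
    Nat.add_eq] at k1
  obtain ⟨⟨h0, hJ⟩, hk⟩ := k1
  obtain rfl : m = 0 := by omega
  obtain rfl : G = _ := funext fun z => funext fun w => v3 z w
  have dy : ∀ i ≤ n, (dgt V y i : ℤ) = v i + 2 ^ (V - 2) := fun i hi => by
    rw [dgt, land_shr, Nat.mul_eq, hy.ent (two_mul_lt hw) (by omega)]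
    push_cast
    rfl
  obtain ⟨n', P, N, M', e', ⟨G, i1, i2, i3⟩, hk⟩ := cvL_ok
    (z := fun j => if j = 0 then v (n / 2) else v (n / 2 + j) + v (n / 2 - j)) (fun j hj => by
      rw [dy _ (by omega), dy _ (by omega), shl_eq]
      split_ifs with j1
      · rw [j1, Nat.sub_zero, Nat.add_zero]
        push_cast
        ring
      · rw [show 1 - j = 0 by omega]
        push_cast
        ring) R 0 0 0 0 0 0 hR hC (by omega) (by omega)
    ⟨_, by simpa using Fam.zero ⊥ 0 0, by simp, fun _ _ => by simp [tr]⟩ hk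
  obtain ⟨g', a', s1, hk⟩ := ssub_ok hk
  rw [mkT_eq] at hk
  refine ⟨_, ⟨G, i1, by rw [← i2, ← s1], by simp, fun u θ => ?_⟩, hk⟩
  have t1 := (abs_re_le_norm _).trans (h3.2 (σ u) 0)
  have t2 := i3 u θ
  clear * - hγ hS h0 t1 t2
  dsimp only at t1 t2 ⊢
  simp only [mul_zero, add_zero] at t1
  rw [tr_row hS, show (2 : ℂ) ^ s = ((2 ^ s : ℝ) : ℂ) by simp] at t1
  simp only [sub_re, re_sum, re_ofReal_mul, ex_re, add_zero] at t1
  rw [fold_sum (ε := 0) (J := n / 2 + 1) _ zero_le_one (by omega) (by omega)] at t1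
  have t3 := mul_le_mul_of_nonneg_left ((mul_le_of_le_one_left (abs_nonneg _) (hγ u)).trans t1)
    (abs_nonneg ((2 : ℝ) ^ t))
  rw [← abs_mul, mul_sub (γ u), mul_sum _ _ (γ u), sum_congr rfl (g := fun i => ((if i = 0 then
    v (n / 2) else v (n / 2 + i) + v (n / 2 - i) : ℤ) : ℝ) * (γ u * Real.cos (i * (2 * σ u))))
    fun i hi => ?_, ← abs_mul, ← Real.norm_eq_abs, ← norm_real, abs_of_pos (by positivity)] at t3
  · refine le_trans (le_of_eq (congrArg _ ?_)) (((norm_add_le _ _).trans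
      (add_le_add t2 t3)).trans_eq (by rw [shl_eq, Nat.add_eq]; push_cast; ring))
    simp only [Nat.add_eq, pow_add, ofReal_mul, ofReal_sub, ofReal_sum, ofReal_intCast, ofReal_pow,
      ofReal_ofNat]
    ring
  · have := mem_range.1 hi
    rw [KTab.fold, if_pos (by omega), show ((2 : ℝ) * i + (0 : ℕ)) * σ u = i * (2 * σ u) by
      push_cast; ring, show (n + (2 * i + 0)) / 2 = n / 2 + i by omega,
      show (n - (2 * i + 0)) / 2 = n / 2 - i by omega]
    split_ifs with j1 j2 j2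
    · ring
    · omega
    · omega
    · push_cast
      ring

theorem convL2_ok (t : ℕ) (n : ℕ → ℕ) (s : ℕ) (hR : All (fun j B => Rep false W S1 B fun u _ =>
      (γ u * Real.cos (j * (2 * σ u)) : ℝ)) 0 R) (hC : Chn W t 0 R) (hγ : ∀ u, |γ u| ≤ 1)
    (h : RepL b false V S1 d l Φ) : Ok (convL2 V W t R n s l) fun r =>
      RepL false false W S1 d r fun u θ => (γ u * (Φ (σ u) θ).re : ℝ) := by
  obtain ⟨φ, h1, h2⟩ := h
  refine (mapK_ok (P := fun j T => Rep b V S1 T fun u _ => φ j u) (fun j T hT =>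
    (conv2_ok hR hC hγ hT).bind fun _ h => trm_ok (n j) s h) l 0 h1).mono fun r hr =>
    ⟨_, hr.1, fun u θ => ?_⟩
  beta_reduce
  rw [h2, hr.2, re_sum, mul_sum, ofReal_sum]
  refine sum_congr rfl fun j _ => ?_
  rw [bas_false, re_mul_ofReal, ← mul_assoc, ofReal_mul]

end Pool.Agent.Work.MP_6bf1e5_an.H.Pw
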