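import Pool.Agent.Work.MP_6bf1e5_an.H.RkDefs
import Pool.Agent.Work.MP_6bf1e5_an.H.PwD
import Pool.Agent.Work.MP_6bf1e5_an.H.RkZA
import Pool.Agent.Work.MP_6bf1e5_an.H.RkZB
import Pool.Agent.Work.MP_6bf1e5_an.H.RkZW

/-! The checks for the pointwise bounds of the background (owner helper2). -/

namespace Pool.Agent.Work.MP_6bf1e5_an.H.Rk

/-- First derivatives of the velocity. -/
noncomputable def cw0 : PLift ((ldL 144 119 960 600 zA fun A => ldL 144 119 958 730 zB fun B =>
    Pw.pw0K ⟨72, 104, 24, 40, 12⟩ 144 10 3 (Pw.stair 64 120) 40 1152000 A B) = true) :=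
  ⟨by decide +kernel⟩

/-- Second derivatives of the velocity. -/
noncomputable def cw1 : PLift ((ldL 144 119 960 600 zA fun A => ldL 144 119 958 730 zB fun B =>
    Pw.pw1K ⟨72, 76, 20, 32, 10⟩ 144 10 3 (Pw.stair 128 200) 64 8000000 A B) = true) :=
  ⟨by decide +kernel⟩

/-- Second derivatives of the vorticity. -/
noncomputable def cw2 : PLift ((ldL 144 119 958 730 zB fun B => ldL 144 108 964 810 zW fun C =>
    Pw.pw2K ⟨72, 76, 16, 24, 10⟩ 144 10 3 (Pw.stair 128 200) 64 6400000000 B C) = true) :=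
  ⟨by decide +kernel⟩

end Pool.Agent.Work.MP_6bf1e5_an.H.Rk
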