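import Pool.Agent.Work.MP_6bf1e5_an.H.RkDefs
import Pool.Agent.Work.MP_6bf1e5_an.H.DataU
import Pool.Agent.Work.MP_6bf1e5_an.H.RkZA

/-! The check of a stored table (owner helper2). -/

namespace Pool.Agent.Work.MP_6bf1e5_an.H.Rk

open Pool.Agent.Lib.KTab

/-- The rows from 0 to 54. -/
noncomputable def cA0 : PLift (tabK 462 275 183 97 420 270 526 139 117 psiD
    (chkR 275 S0 9 119 960 600) zA 0 55 = true) := ⟨by decide +kernel⟩

/-- The rows from 55 to 124. -/
noncomputable def cA1 : PLift (tabK 462 275 183 97 420 270 526 139 117 psiD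
    (chkR 275 S0 9 119 960 600) zA 55 70 = true) := ⟨by decide +kernel⟩

/-- The rows from 125 to 239. -/
noncomputable def cA2 : PLift (tabK 462 275 183 97 420 270 526 139 117 psiD
    (chkR 275 S0 9 119 960 600) zA 125 115 = true) := ⟨by decide +kernel⟩

theorem lenA : llen psiD = 240 ∧ llen zA = 240 := by decide +kernel

end Pool.Agent.Work.MP_6bf1e5_an.H.Rk
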