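import Pool.Agent.Work.MP_6bf1e5_an.H.RkDefs
import Pool.Agent.Work.MP_6bf1e5_an.H.DataU
import Pool.Agent.Work.MP_6bf1e5_an.H.RkZB

/-! The check of a stored table (owner helper2). -/

namespace Pool.Agent.Work.MP_6bf1e5_an.H.Rk

open Pool.Agent.Lib.KTab

/-- The rows from 0 to 54. -/
noncomputable def cB0 : PLift (tabK 462 275 183 92 420 270 526 139 117 sD
    (chkR 275 S0 9 119 958 730) zB 0 55 = true) := ⟨by decide +kernel⟩

/-- The rows from 55 to 124. -/
noncomputable def cB1 : PLift (tabK 462 275 183 92 420 270 526 139 117 sD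
    (chkR 275 S0 9 119 958 730) zB 55 70 = true) := ⟨by decide +kernel⟩

/-- The rows from 125 to 239. -/
noncomputable def cB2 : PLift (tabK 462 275 183 92 420 270 526 139 117 sD
    (chkR 275 S0 9 119 958 730) zB 125 115 = true) := ⟨by decide +kernel⟩

theorem lenB : llen sD = 240 ∧ llen zB = 240 := by decide +kernel

end Pool.Agent.Work.MP_6bf1e5_an.H.Rk
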