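import Pool.Agent.Work.MP_6bf1e5_an.H.RkDefs
import Pool.Agent.Work.MP_6bf1e5_an.H.DataN
import Pool.Agent.Work.MP_6bf1e5_an.H.RkZP

/-! The check of a stored table (owner helper2). -/

namespace Pool.Agent.Work.MP_6bf1e5_an.H.Rk

open Pool.Agent.Lib.KTab

/-- The rows from 0 to 29. -/
noncomputable def cP0 : PLift (tabK 544 244 239 109 490 295 636 122 101 aD
    (chkR 244 S0 9 102 1163 780) zP 0 30 = true) := ⟨by decide +kernel⟩

/-- The rows from 30 to 79. -/
noncomputable def cP1 : PLift (tabK 544 244 239 109 490 295 636 122 101 aD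
    (chkR 244 S0 9 102 1163 780) zP 30 50 = true) := ⟨by decide +kernel⟩

/-- The rows from 80 to 149. -/
noncomputable def cP2 : PLift (tabK 544 244 239 109 490 295 636 122 101 aD
    (chkR 244 S0 9 102 1163 780) zP 80 70 = true) := ⟨by decide +kernel⟩

/-- The rows from 150 to 289. -/
noncomputable def cP3 : PLift (tabK 544 244 239 109 490 295 636 122 101 aD
    (chkR 244 S0 9 102 1163 780) zP 150 140 = true) := ⟨by decide +kernel⟩

theorem lenP : llen aD = 290 ∧ llen zP = 290 := by decide +kernel

end Pool.Agent.Work.MP_6bf1e5_an.H.Rk
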