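import Pool.Agent.Work.MP_6bf1e5_an.H.RkDefs
import Pool.Agent.Work.MP_6bf1e5_an.H.DataN
import Pool.Agent.Work.MP_6bf1e5_an.H.RkZT

/-! The check of a stored table (owner helper2). -/

namespace Pool.Agent.Work.MP_6bf1e5_an.H.Rk

open Pool.Agent.Lib.KTab

/-- The rows from 0 to 34. -/
noncomputable def cT0 : PLift (tabK 531 221 239 106 460 282 610 110 90 bD
    (chkR 221 S0 9 90 1161 1000) zT 0 35 = true) := ⟨by decide +kernel⟩

/-- The rows from 35 to 89. -/
noncomputable def cT1 : PLift (tabK 531 221 239 106 460 282 610 110 90 bD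
    (chkR 221 S0 9 90 1161 1000) zT 35 55 = true) := ⟨by decide +kernel⟩

/-- The rows from 90 to 159. -/
noncomputable def cT2 : PLift (tabK 531 221 239 106 460 282 610 110 90 bD
    (chkR 221 S0 9 90 1161 1000) zT 90 70 = true) := ⟨by decide +kernel⟩

/-- The rows from 160 to 289. -/
noncomputable def cT3 : PLift (tabK 531 221 239 106 460 282 610 110 90 bD
    (chkR 221 S0 9 90 1161 1000) zT 160 130 = true) := ⟨by decide +kernel⟩

theorem lenT : llen bD = 290 ∧ llen zT = 290 := by decide +kernel

end Pool.Agent.Work.MP_6bf1e5_an.H.Rk
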