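import Pool.Agent.Work.MP_6bf1e5_an.H.RkDefs
import Pool.Agent.Work.MP_6bf1e5_an.H.DataU
import Pool.Agent.Work.MP_6bf1e5_an.H.RkZW

/-! The check of a stored table (owner helper2). -/

namespace Pool.Agent.Work.MP_6bf1e5_an.H.Rk

open Pool.Agent.Lib.KTab

/-- The rows from 0 to 29. -/
noncomputable def cW0 : PLift (tabW 490 258 183 97 420 270 532 128 108 psiD
    (chkR 258 S0 9 108 964 810) zW 0 30 = true) := ⟨by decide +kernel⟩

/-- The rows from 30 to 94. -/
noncomputable def cW1 : PLift (tabW 490 258 183 97 420 270 532 128 108 psiD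
    (chkR 258 S0 9 108 964 810) zW 30 65 = true) := ⟨by decide +kernel⟩

/-- The rows from 95 to 239. -/
noncomputable def cW2 : PLift (tabW 490 258 183 97 420 270 532 128 108 psiD
    (chkR 258 S0 9 108 964 810) zW 95 145 = true) := ⟨by decide +kernel⟩

theorem lenW : llen psiD = 240 ∧ llen zW = 240 := by decide +kernel

end Pool.Agent.Work.MP_6bf1e5_an.H.Rk
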