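import Pool.Agent.Work.MP_6bf1e5_an.H.RkEP
import Pool.Agent.Work.MP_6bf1e5_an.H.RkZW
import Pool.Agent.Work.MP_6bf1e5_an.H.RkZT

/-! The check of the toroidal error (owner helper2). -/

namespace Pool.Agent.Work.MP_6bf1e5_an.H.Rk

open Pool.Agent.Lib.KTab

/-- The check. -/
noncomputable def eT : PLift ((ldL 222 119 960 600 zA fun A => ldL 222 119 958 730 zB fun B =>
    ldL 222 108 964 810 zW fun C => ldL 222 90 1161 1000 zT fun N => resT 222 10 997 498 99 592 110 A B C N
    (fin 3862 959 99 10000000000000000000000)) = true) := ⟨by decide +kernel⟩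

end Pool.Agent.Work.MP_6bf1e5_an.H.Rk
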