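import Pool.Agent.Work.MP_6bf1e5_an.H.RkRes
import Pool.Agent.Work.MP_6bf1e5_an.H.Data
import Pool.Agent.Work.MP_6bf1e5_an.H.RkCA
import Pool.Agent.Work.MP_6bf1e5_an.H.RkCB
import Pool.Agent.Work.MP_6bf1e5_an.H.RkCW
import Pool.Agent.Work.MP_6bf1e5_an.H.RkCT
import Pool.Agent.Work.MP_6bf1e5_an.H.RkCP
import Pool.Agent.Work.MP_6bf1e5_an.H.RkET

/-! The bounds for the tables of the local residual (owner helper2). -/

namespace Pool.Agent.Work.MP_6bf1e5_an.H.Rk

open Pool.Agent.Lib.KTab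

theorem allA : All1 119 960 600 dat.F dat.F.g zA dat.n :=
  All1.mk' (J := 240) (Good.tabK (F := dat.F) (Good.tabK (F := dat.F) (Good.tabK (F := dat.F) (Good.zero _ _ _ _ _ _) cA0.down rfl)
    cA1.down rfl)
    cA2.down rfl)
    lenA.1 lenA.2 (by decide)

theorem allB : All1 119 958 730 dat.S dat.S.g zB dat.n :=
  All1.mk' (J := 240) (Good.tabK (F := dat.S) (Good.tabK (F := dat.S) (Good.tabK (F := dat.S) (Good.zero _ _ _ _ _ _) cB0.down rfl)
    cB1.down rfl)
    cB2.down rfl)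
    lenB.1 lenB.2 (by decide)

theorem allW : All1 108 964 810 dat.F (fun l => wp 1 l (dat.F.g l)) zW dat.n :=
  All1.mk' (J := 240) (Good.tabW (F := dat.F) (Good.tabW (F := dat.F) (Good.tabW (F := dat.F) (Good.zero _ _ _ _ _ _) cW0.down rfl)
    cW1.down rfl)
    cW2.down rfl)
    lenW.1 lenW.2 (by decide)

theorem allT : All1 90 1161 1000 dat.B dat.B.g zT dat.n :=
  All1.mk' (J := 290) (Good.tabK (F := dat.B) (Good.tabK (F := dat.B) (Good.tabK (F := dat.B) (Good.tabK (F := dat.B) (Good.zero _ _ _ _ _ _) cT0.down rfl)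
    cT1.down rfl)
    cT2.down rfl)
    cT3.down rfl)
    lenT.1 lenT.2 (by decide)

theorem allP : All1 102 1163 780 dat.C dat.C.g zP dat.n :=
  All1.mk' (J := 290) (Good.tabK (F := dat.C) (Good.tabK (F := dat.C) (Good.tabK (F := dat.C) (Good.tabK (F := dat.C) (Good.zero _ _ _ _ _ _) cP0.down rfl)
    cP1.down rfl)
    cP2.down rfl)
    cP3.down rfl)
    lenP.1 lenP.2 (by decide)

theorem dat_tP : Sm 3850 959 (9 / 10 ^ 25) dat.tP :=
  (tP_sm allA allB allP eP.down).le (by norm_num)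

theorem dat_tT : Sm 3862 959 (33 / 10 ^ 22) dat.tT :=
  (tT_sm allA allB allW allT eT.down).le (by norm_num)

end Pool.Agent.Work.MP_6bf1e5_an.H.Rk
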