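import Pool.Agent.Work.MP_6bf1e5_an.H.PwF
import Pool.Agent.Work.MP_6bf1e5_an.H.PwC
import Pool.Agent.Work.MP_6bf1e5_an.H.RkFin
import Pool.Agent.Work.MP_6bf1e5_an.H.Cst0

/-! The pointwise bounds for the approximate profile at the final constants (owner helper2). -/

namespace Pool.Agent.Work.MP_6bf1e5_an.H

open Pool.Agent.Lib.KTab Rk Pw

theorem Rk.All1.ldg {s N e n : ℕ} {F : Fml} {Z : List (ℕ × ℕ × ℕ)} (h : All1 s N e F F.g Z n)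
    (W : ℕ) : Ok (ldL W s N e Z) fun l => RepL true false W S1 1 l (TA 1 (LN n) F.g) :=
  ldL_g W h.1 h.2.1 h.2.2

theorem Rk.All1.ldw {s N e n : ℕ} {F : Fml} {Z : List (ℕ × ℕ × ℕ)}
    (h : All1 s N e F (fun l => wp 1 l (F.g l)) Z n) (W : ℕ) : Ok (ldL W s N e Z) fun l =>
      RepL true false W S1 1 l (TA 1 (LN n) fun l => wp 1 l (F.g l)) :=
  ldL_w W h.1 h.2.1 h.2.2

theorem dat_bk : ∃ ψ b w0, dat.Ψ 2 = sm ψ Jv ∧ dat.Sw 2 = sm b Jv ∧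
    Bk ((3 : ℕ) + 1) ψ b w0 (TA 1 (LN dat.n) dat.F.g) (TA 1 (LN dat.n) dat.S.g)
      (TA 1 (LN dat.n) fun l => wp 1 l (dat.F.g l)) := by
  have h := Dat_bk dat (w := 2) two_pos
  rwa [show (2 : ℝ) ^ 2 = (3 : ℕ) + 1 by norm_num] at h

theorem dat_pw0 (y : R3) :
    ∑ i, ∑ j, pd j (fld (dat.Ψ 2) (dat.Sw 2) i) y ^ 2 ≤ K0.b0 ^ 2 * Op (3 / 2) y := by
  obtain ⟨ψ, b, w0, e1, e2, h⟩ := dat_bk
  obtain ⟨A, hA, c⟩ := allA.ldg 144 _ cw0.down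
  obtain ⟨B, hB, c⟩ := allB.ldg 144 _ c
  rw [e1, e2]
  exact pw0_of h hA hB (by norm_num) c (by norm_num [K0]) y

theorem dat_pw1 (y : R3) :
    ∑ i, ∑ j, ∑ k, pd k (pd j (fld (dat.Ψ 2) (dat.Sw 2) i)) y ^ 2 ≤ K0.b1 ^ 2 * Om y := by
  obtain ⟨ψ, b, w0, e1, e2, h⟩ := dat_bk
  obtain ⟨A, hA, c⟩ := allA.ldg 144 _ cw1.down
  obtain ⟨B, hB, c⟩ := allB.ldg 144 _ c
  rw [e1, e2]
  exact pw1_of h hA hB (by norm_num) c (by norm_num [K0]) y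

theorem dat_pw2 (y : R3) : ∑ i, ∑ j, ∑ k,
    pd k (pd j (curl (fld (dat.Ψ 2) (dat.Sw 2)) i)) y ^ 2 ≤ K0.b2 ^ 2 * Om y ^ 2 := by
  obtain ⟨ψ, b, w0, e1, e2, h⟩ := dat_bk
  obtain ⟨B, hB, c⟩ := allB.ldg 144 _ cw2.down
  obtain ⟨C, hC, c⟩ := allW.ldw 144 _ c
  rw [e1, e2]
  exact pw2_of h hB hC (by norm_num) c (by norm_num [K0]) y

end Pool.Agent.Work.MP_6bf1e5_an.H
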