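import Pool.Agent.Work.MP_6bf1e5_an.H.ClE
import Pool.Agent.Work.MP_6bf1e5_an.H.PwZ
import Pool.Agent.Work.MP_6bf1e5_an.H.FldS
import Pool.Agent.Work.MP_6bf1e5_an.H.Const

/-! Comparison of the background with the stored tables: from the six computations to the four
estimates (owner helper11). -/

namespace Pool.Agent.Work.MP_6bf1e5_an.H.Pw

open Pool.Agent.Lib.KLA Pool.Agent.Lib.KTab Pool.Agent.Lib.KBlk Pool.Agent.Lib.Dy Lt Lt.Dat Rk Fs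

theorem lam63 : (511.99023448302269 : ℝ) ≤ lam 63 ∧ lam 63 ≤ 511.9902344830227 := by
  have h : Enc 80 (lam 63) (590284551484178910119 * 2 ^ 20) (2 ^ 21) :=
    (enc_lam (enc_lam0' (N := 80) (d := 2992) rfl (by norm_num)) 63).mono (by decide +kernel)
      (by decide +kernel)
  obtain ⟨h1, h2⟩ := h
  norm_num at h1 h2
  constructor <;> linarith

theorem s2_bd : (1.414213562373095 : ℝ) ≤ √2 ∧ √2 ≤ 1.4142135623731 :=
  ⟨Real.le_sqrt_of_sq_le (by norm_num), Real.sqrt_le_iff.2 (by norm_num)⟩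

theorem x1_le : ((50342646752854 : ℕ) / 2 ^ 40 : ℝ) ≤ 4 * √2 * (1 / 64 * lamS 64) := by
  rw [lamS_eq 63]
  have := mul_le_mul s2_bd.1 lam63.1 (by norm_num) (Real.sqrt_nonneg 2)
  norm_num at this ⊢
  linarith

theorem le_x2 : 2 * √2 * (1 / 64 * cnS 64) ≤ ((1130076474 : ℕ) / 2 ^ 40 : ℝ) := by
  rw [cnS_eq 63]
  have := mul_le_mul s2_bd.2 lam63.2 (lam_pos _).le (by norm_num)
  norm_num at this ⊢
  linarith

theorem cst_rw (W a s : ℕ) : Rw W (cst false a s) fun _ => a / 2 ^ s :=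
  (cst_rep false W S1 false a s).congr fun _ _ => by simp [sv]

variable {P P' : Cp} {e e' e0 e0' : ℕ} {ε : ℝ}

/-- The computation with the potential of the velocity. -/
abbrev KU (P : Cp) (e : ℕ) : Prop :=
  (ldL P.V 119 960 600 zA fun A => jt1 P 3 1 A (kC P 47 44 e u0 u1)) = true

/-- The first computation with the swirl. -/
abbrev KW (P : Cp) (e e' : ℕ) : Prop := (ldL P.V 119 958 730 zB fun B => jt1 P 5 4 B fun l0 l1 =>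
  bnd (kS P 47 44 e u2 l0) (kC P 51 44 e' w0 w1 l0 l1)) = true

/-- The computation with the swirl of the vorticity. -/
abbrev KX (P : Cp) (e : ℕ) : Prop :=
  (ldL P.V 108 964 810 zW fun C => jt0 P 7 16 C (kS P 51 44 e w2)) = true

/-- The meridional part of `V`. -/
abbrev KV (P : Cp) (e : ℕ) : Prop := (ldL P.V 119 960 600 zA fun A => jt2 P 3 1 A (kV P 37 32 e
  (cst false 50342646752854 40) (cst false 1130076474 40) (cst false 17812088370 40)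
  v00 v01 v11 v22)) = true

/-- The second computation with the swirl. -/
abbrev KB (P : Cp) (e e' : ℕ) : Prop := (ldL P.V 119 958 730 zB fun B => jt2 P 5 4 B
  fun l0 l1 l2 => bnd (kV2 P 37 32 e v02 v12 l0 l1)
    (kB P 40 32 e' b00 b01 b10 b11 b22 l0 l1 l2)) = true

/-- The part of `B` with the swirl. -/
abbrev KC (P : Cp) (e : ℕ) : Prop :=
  (ldL P.V 108 964 810 zW fun C => jt1 P 7 16 C (kB2 P 40 32 e b02 b20 b12 b21)) = true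

theorem dat_jr : ∃ ψ b w, dat.Ψ 2 = sm ψ Jv ∧ dat.Sw 2 = sm b Jv ∧ Axi ψ ∧ Axi b ∧ Axi w ∧
    curl (fld (sm ψ Jv) (sm b Jv)) = fld (sm b Jv) (sm w Jv) ∧ ∀ P : Cp, P.a = 16 →
      Ok (ldL P.V 119 960 600 zA) (fun l => Jr P.V P.a (1 : ℕ) 3 l ψ) ∧
      Ok (ldL P.V 119 958 730 zB) (fun l => Jr P.V P.a (4 : ℕ) 5 l b) ∧
      Ok (ldL P.V 108 964 810 zW) fun l => Jr P.V P.a (16 : ℕ) 7 l w := by
  obtain ⟨ψ, b, w, e1, e2, c⟩ := dat_bk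
  rw [← Nat.cast_succ] at c
  exact ⟨ψ, b, w, e1, e2, c.xψ, c.xb, c.xw, curl_fld_Jv c.xψ.smooth c.xb.smooth c.cc,
    fun P a => ⟨(allA.ldg _).mono fun _ => c.ja a, (allB.ldg _).mono fun _ => c.jb a,
      (allW.ldw _).mono fun _ => c.jw a⟩⟩

theorem s2_ge : (7 / 5 : ℝ) ≤ √2 := le_trans (by norm_num) s2_bd.1

theorem cU_dat {du : ℝ} (k : KU P e) (k' : KW P' e' e0) (a : P.a = 16) (a' : P'.a = 16)
    (h : e / 2 ^ P.c ≤ ε) (h' : e' / 2 ^ P'.c ≤ ε) (hd : 3 * ε ^ 2 ≤ 7 / 5 * du ^ 2) :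
    ∀ᵐ y, ∑ i, (fld (dat.Ψ 2) (dat.Sw 2) i y - Ut i y) ^ 2 ≤ du ^ 2 * Op (1 / 2) y := by
  obtain ⟨ψ, b, w, e1, e2, xψ, -, -, -, c⟩ := dat_jr
  obtain ⟨_, hA, k⟩ := (c P a).1 _ k
  obtain ⟨_, hB, k'⟩ := (c P' a').2.1 _ k'
  obtain ⟨_, _, a0, a1, k⟩ := jt1_ok (by omega) hA k
  obtain ⟨_, _, b0, -, k'⟩ := jt1_ok (by omega) hB k'
  have t := kC_ok (k := 1) (d := ![u0, u1, u2]) xψ.smooth a0 a1 b k
  rw [e1, e2]
  refine (vec_of (k := 1) (ε := ε) (b := 47) (s := 44) (d := ![u0, u1, u2]) (w := b) xψ.smooth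
    fun a => ?_).mono fun y t => ?_
  · fin_cases a
    exacts [t.1.le h, t.2.le h, (kS_ok (k := 1) (d := ![u0, u1, u2]) b0 _ _
      ((bnd_iff ..).1 k').1).le h']
  · rw [show (1 / 2 : ℝ) = (1 : ℕ) / 2 by norm_num, Op_tau, ← mul_assoc]
    exact t.trans (mul_le_mul_of_nonneg_right (by nlinarith [sq_nonneg du, s2_ge])
      (pow_nonneg (tau_mem y).1 _))

theorem cW_dat {dw : ℝ} (k : KW P e0 e) (k' : KX P' e') (a : P.a = 16) (a' : P'.a = 16)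
    (h : e / 2 ^ P.c ≤ ε) (h' : e' / 2 ^ P'.c ≤ ε) (hd : 3 * ε ^ 2 ≤ 14 / 5 * dw ^ 2) : ∀ᵐ y,
      ∑ i, (curl (fld (dat.Ψ 2) (dat.Sw 2)) i y - Fs.Wt i y) ^ 2 ≤ dw ^ 2 * Op (3 / 2) y := by
  obtain ⟨ψ, b, w, e1, e2, -, xb, -, e3, c⟩ := dat_jr
  obtain ⟨_, hA, k⟩ := (c P a).2.1 _ k
  obtain ⟨_, hB, k'⟩ := (c P' a').2.2 _ k'
  obtain ⟨_, _, a0, a1, k⟩ := jt1_ok (by omega) hA k
  obtain ⟨_, b0, k'⟩ := jt0_ok (by omega) hB _ k'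
  have t := kC_ok (k := 3) (d := ![w0, w1, w2]) xb.smooth a0 a1 w ((bnd_iff ..).1 k).2
  rw [e1, e2, e3]
  refine (vec_of (k := 3) (ε := ε) (b := 51) (s := 44) (d := ![w0, w1, w2]) (w := w) xb.smooth
    fun a => ?_).mono fun y t => ?_
  · fin_cases a
    exacts [t.1.le h, t.2.le h, (kS_ok (k := 3) (d := ![w0, w1, w2]) b0 _ _ k').le h']
  · rw [show (3 / 2 : ℝ) = (3 : ℕ) / 2 by norm_num, Op_tau, ← mul_assoc, pow_succ √2,
      Real.sq_sqrt zero_le_two]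
    exact t.trans (mul_le_mul_of_nonneg_right (by nlinarith [sq_nonneg dw, s2_ge])
      (pow_nonneg (tau_mem y).1 _))

theorem cB_dat {db : ℝ} (k : KB P e0 e) (k' : KC P' e') (a : P.a = 16) (a' : P'.a = 16)
    (h : e / 2 ^ P.c ≤ ε) (h' : e' / 2 ^ P'.c ≤ ε) (hd : 9 / 8 * ε ^ 2 ≤ db ^ 2) : ∀ᵐ y, ∑ i, ∑ j,
      (BB (curl (fld (dat.Ψ 2) (dat.Sw 2))) i j y - Bt i j y) ^ 2 ≤ db ^ 2 * Om y ^ 3 := by
  obtain ⟨ψ, b, w, e1, e2, -, xb, xw, e3, c⟩ := dat_jr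
  obtain ⟨_, hA, k⟩ := (c P a).2.1 _ k
  obtain ⟨_, hB, k'⟩ := (c P' a').2.2 _ k'
  obtain ⟨_, _, _, a0, a1, a2, k⟩ := jt2_ok (by omega) hA k
  obtain ⟨_, _, b0, b1, k'⟩ := jt1_ok (by omega) hB k'
  rw [e1, e2, e3]
  refine (mat_of (ε := ε) (b := 40) (s := 32) (m := bb) xb xw fun a c => ?_).mono fun y t =>
    t.trans (mul_le_mul_of_nonneg_right hd (by rw [Om]; positivity))
  by_cases t : a = 2 ↔ c = 2
  exacts [(kB_ok (m := bb) xb.smooth a0 a1 a2 w ((bnd_iff ..).1 k).2 a c t).le h,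
    (kB2_ok (m := bb) xw.smooth b0 b1 _ _ k' a c t).le h']

theorem cV_dat (k : KV P e) (k' : KB P' e' e0) (a : P.a = 16) (a' : P'.a = 16)
    (h : e / 2 ^ P.c ≤ (1 / 15000 : ℝ)) (h' : e' / 2 ^ P'.c ≤ (1 / 15000 : ℝ)) :
    ∀ᵐ y, ∀ q : Fin 3 → ℝ, ∑ i, ∑ j, q i * Vt i j y * q j + 8 / 1000 * Om y * ∑ i, q i ^ 2 ≤
      ∑ i, ∑ j, q i * AA (fld (dat.Ψ 2) (dat.Sw 2)) i j y * q j
        + 1 / 64 * (lamS 64 * Op (5 / 2) y - cnS 64 * Op (3 / 2) y) * ∑ i, q i ^ 2 := by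
  obtain ⟨ψ, b, w, e1, e2, xψ, xb, -, -, c⟩ := dat_jr
  obtain ⟨_, hA, k⟩ := (c P a).1 _ k
  obtain ⟨_, hB, k'⟩ := (c P' a').2.1 _ k'
  obtain ⟨_, _, _, a0, a1, a2, k⟩ := jt2_ok (by omega) hA k
  obtain ⟨_, _, _, b0, b1, -, k'⟩ := jt2_ok (by omega) hB k'
  rw [e1, e2]
  refine (quad_of (ε := 1 / 15000) (b := 37) (s := 32) (m := vv) (δ := 8 / 1000)
    (x3 := (17812088370 : ℕ) / 2 ^ 40) xψ xb (fun a c => ?_) x1_le le_x2
    (by norm_num)).mono fun y t q => (t q).trans_eq (by ring)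
  by_cases t : a = 2 ↔ c = 2
  exacts [(kV_ok xψ.smooth a0 a1 a2 (cst_rw ..) (cst_rw ..) (cst_rw ..) b k a c t).le h,
    (kV2_ok xb.smooth b0 b1 _ _ ((bnd_iff ..).1 k').1 a c t).le h']

end Pool.Agent.Work.MP_6bf1e5_an.H.Pw
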