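import Pool.Agent.Work.MP_6bf1e5_an.H.ClY
import Pool.Agent.Work.MP_6bf1e5_an.H.ClCU
import Pool.Agent.Work.MP_6bf1e5_an.H.ClCW
import Pool.Agent.Work.MP_6bf1e5_an.H.ClCS
import Pool.Agent.Work.MP_6bf1e5_an.H.ClCV
import Pool.Agent.Work.MP_6bf1e5_an.H.ClCB
import Pool.Agent.Work.MP_6bf1e5_an.H.ClCC

/-! The approximate profile is close to the stored tables (owner helper88). -/

namespace Pool.Agent.Work.MP_6bf1e5_an.H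

open Pw Lt.Dat

theorem dat_cU : ∀ᵐ y, ∑ i, (fld (dat.Ψ 2) (dat.Sw 2) i y - Fs.Ut i y) ^ 2 ≤
    (11 / 10 ^ 9) ^ 2 * Op (1 / 2) y :=
  cU_dat (ε := 75 / 10 ^ 10) clU.down clW.down rfl rfl (by norm_num [eU, pU])
    (by norm_num [eU, pW]) (by norm_num)

theorem dat_cW : ∀ᵐ y, ∑ i, (curl (fld (dat.Ψ 2) (dat.Sw 2)) i y - Fs.Wt i y) ^ 2 ≤
    (94 / 10 ^ 10) ^ 2 * Op (3 / 2) y :=
  cW_dat (ε := 9 / 10 ^ 9) clW.down clS.down rfl rfl (by norm_num [eW, pW])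
    (by norm_num [eW, pS]) (by norm_num)

theorem dat_cB : ∀ᵐ y, ∑ i, ∑ j, (BB (curl (fld (dat.Ψ 2) (dat.Sw 2))) i j y - Bt i j y) ^ 2 ≤
    (3 / 10 ^ 5) ^ 2 * Om y ^ 3 :=
  cB_dat (ε := 28 / 10 ^ 6) clB.down clC.down rfl rfl (by norm_num [eB, pB])
    (by norm_num [eB, pC]) (by norm_num)

theorem dat_cV : ∀ᵐ y, ∀ q : Fin 3 → ℝ,
    ∑ i, ∑ j, q i * Vt i j y * q j + 8 / 1000 * Om y * ∑ i, q i ^ 2 ≤
      ∑ i, ∑ j, q i * AA (fld (dat.Ψ 2) (dat.Sw 2)) i j y * q j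
        + 1 / 64 * (lamS 64 * Op (5 / 2) y - cnS 64 * Op (3 / 2) y) * ∑ i, q i ^ 2 :=
  cV_dat clV.down clB.down rfl rfl (by norm_num [Pw.eV, pV]) (by norm_num [Pw.eV, pB])

end Pool.Agent.Work.MP_6bf1e5_an.H
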