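import Pool.Agent.Work.MP_6bf1e5_an.H.ResDefs

/-! Homogeneous functions and solid harmonics. -/

open scoped ContDiff ENNReal FourierTransform Real
open Set MeasureTheory

namespace Pool.Agent.Work.MP_6bf1e5_an.H

variable {d e l : ℕ} {P Q R : Sc}

theorem ResHom_coord (j : Fin 3) : ContDiff ℝ ∞ fun y : R3 => y j :=
  (EuclideanSpace.proj j : R3 →L[ℝ] ℝ).contDiff

theorem ResHom_diff (h : ContDiff ℝ ∞ Q) : Differentiable ℝ Q := h.differentiable (by simp)

theorem ResHom_smooth (h : ContDiff ℝ ∞ Q) (j : Fin 3) : ContDiff ℝ ∞ (pd j Q) :=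
  (h.fderiv_right (m := ∞) (by simp)).clm_apply contDiff_const

theorem ResHom_pd_const (c : ℝ) (j : Fin 3) (y : R3) : pd j (fun _ => c) y = 0 := by
  simp [pd]

theorem ResHom_pd_coord (i j : Fin 3) (y : R3) :
    pd j (fun y => y i) y = if i = j then 1 else 0 := by
  have h : fderiv ℝ (fun y : R3 => y i) y = (EuclideanSpace.proj i : R3 →L[ℝ] ℝ) :=
    (EuclideanSpace.proj i : R3 →L[ℝ] ℝ).fderiv
  rw [pd, h]
  simp

theorem ResHom_pd_add (h : ContDiff ℝ ∞ Q) (h' : ContDiff ℝ ∞ R) (j : Fin 3) (y : R3) :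
    pd j (fun y => Q y + R y) y = pd j Q y + pd j R y := by
  rw [pd, fderiv_fun_add (ResHom_diff h y) (ResHom_diff h' y)]
  rfl

theorem ResHom_pd_sub (h : ContDiff ℝ ∞ Q) (h' : ContDiff ℝ ∞ R) (j : Fin 3) (y : R3) :
    pd j (fun y => Q y - R y) y = pd j Q y - pd j R y := by
  rw [pd, fderiv_fun_sub (ResHom_diff h y) (ResHom_diff h' y)]
  rfl

theorem ResHom_pd_mul (h : ContDiff ℝ ∞ Q) (h' : ContDiff ℝ ∞ R) (j : Fin 3) (y : R3) :
    pd j (fun y => Q y * R y) y = Q y * pd j R y + R y * pd j Q y := by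
  rw [pd, fderiv_fun_mul (ResHom_diff h y) (ResHom_diff h' y)]
  rfl

theorem ResHom_pd_sum {f : Fin 3 → Sc} (h : ∀ i, ContDiff ℝ ∞ (f i)) (j : Fin 3) (y : R3) :
    pd j (fun y => ∑ i, f i y) y = ∑ i, pd j (f i) y := by
  rw [pd, fderiv_fun_sum fun i _ => ResHom_diff (h i) y, _root_.sum_apply]
  rfl

theorem ResHom_pd_comm (h : ContDiff ℝ ∞ Q) (i j : Fin 3) : pd i (pd j Q) = pd j (pd i Q) := by
  funext y
  have h1 : DifferentiableAt ℝ (fderiv ℝ Q) y :=
    (h.fderiv_right (m := ∞) (by simp)).differentiable (by simp) y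
  have h2 : ∀ i j : Fin 3, pd i (pd j Q) y =
      fderiv ℝ (fderiv ℝ Q) y (EuclideanSpace.single i 1) (EuclideanSpace.single j 1) := by
    intro i j
    have h3 := fderiv_clm_apply h1 (differentiableAt_const (c := (EuclideanSpace.single j 1 : R3)))
    change fderiv ℝ (fun x => fderiv ℝ Q x (EuclideanSpace.single j 1)) y _ = _
    rw [h3]
    simp
  rw [h2, h2]
  exact (h.contDiffAt.isSymmSndFDerivAt (by simp; norm_cast)).eq _ _

theorem ResHom_lap_pd (h : ContDiff ℝ ∞ Q) (j : Fin 3) (y : R3) :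
    lap (pd j Q) y = pd j (lap Q) y := by
  unfold lap
  rw [ResHom_pd_sum fun i => ResHom_smooth (ResHom_smooth h i) i]
  refine Finset.sum_congr rfl fun i _ => ?_
  rw [ResHom_pd_comm h i j, ResHom_pd_comm (ResHom_smooth h i) i j]

theorem ResHom_lap_sub (h : ContDiff ℝ ∞ Q) (h' : ContDiff ℝ ∞ R) (y : R3) :
    lap (fun y => Q y - R y) y = lap Q y - lap R y := by
  unfold lap
  rw [← Finset.sum_sub_distrib]
  refine Finset.sum_congr rfl fun i _ => ?_
  rw [funext (ResHom_pd_sub h h' i), ResHom_pd_sub (ResHom_smooth h i) (ResHom_smooth h' i)]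

theorem ResHom_lap_coord (h : ContDiff ℝ ∞ Q) (a : Fin 3) (y : R3) :
    lap (fun y => y a * Q y) y = y a * lap Q y + 2 * pd a Q y := by
  have h1 : ∀ i, pd i (pd i fun y => y a * Q y) y =
      y a * pd i (pd i Q) y + 2 * if a = i then pd i Q y else 0 := by
    intro i
    rw [funext (ResHom_pd_mul (ResHom_coord a) h i), funext (ResHom_pd_coord a i),
      ResHom_pd_add ((ResHom_coord a).mul (ResHom_smooth h i)) (h.mul contDiff_const),
      ResHom_pd_mul (ResHom_coord a) (ResHom_smooth h i), ResHom_pd_mul h contDiff_const,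
      ResHom_pd_coord, ResHom_pd_const]
    split_ifs <;> ring
  unfold lap
  simp only [h1, Finset.sum_add_distrib, ← Finset.mul_sum, Finset.sum_ite_eq, Finset.mem_univ,
    if_true]

theorem hom_const (c : ℝ) : Hom 0 fun _ => c :=
  ⟨contDiff_const, fun r _ y => by simp⟩

theorem hom_coord (j : Fin 3) : Hom 1 fun y => y j :=
  ⟨ResHom_coord j, fun r _ y => by simp⟩

theorem hom_normsq : Hom 2 fun y => ‖y‖ ^ 2 :=
  ⟨contDiff_norm_sq ℝ, fun r hr y => by
    rw [norm_smul, Real.norm_of_nonneg hr.le, mul_pow]⟩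

theorem hom_zero (d : ℕ) : Hom d fun _ => 0 :=
  ⟨contDiff_const, fun r _ y => by simp⟩

theorem Hom.add (h : Hom d Q) (h' : Hom d R) : Hom d fun y => Q y + R y :=
  ⟨h.smooth.add h'.smooth, fun r hr y => by
    rw [h.hom r hr, h'.hom r hr, mul_add]⟩

theorem Hom.sub (h : Hom d Q) (h' : Hom d R) : Hom d fun y => Q y - R y :=
  ⟨h.smooth.sub h'.smooth, fun r hr y => by
    rw [h.hom r hr, h'.hom r hr, mul_sub]⟩

theorem Hom.cmul (h : Hom d Q) (c : ℝ) : Hom d fun y => c * Q y :=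
  ⟨contDiff_const.mul h.smooth, fun r hr y => by
    rw [h.hom r hr, mul_left_comm]⟩

theorem Hom.mul (h : Hom d Q) (h' : Hom e R) : Hom (d + e) fun y => Q y * R y :=
  ⟨h.smooth.mul h'.smooth, fun r hr y => by
    rw [h.hom r hr, h'.hom r hr, pow_add, mul_mul_mul_comm]⟩

theorem Hom.sum {ι : Type} (s : Finset ι) {Q : ι → Sc} (h : ∀ i ∈ s, Hom d (Q i)) :
    Hom d fun y => ∑ i ∈ s, Q i y :=
  ⟨ContDiff.sum fun i hi => (h i hi).smooth, fun r hr y => by
    rw [Finset.mul_sum]
    exact Finset.sum_congr rfl fun i hi => (h i hi).hom r hr y⟩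

/-- Bound on the compact unit sphere; at the origin use `Q 0 = 2 ^ d * Q 0`. -/
theorem Hom.bound (h : Hom d Q) : ∃ C, 0 ≤ C ∧ ∀ y, |Q y| ≤ C * ‖y‖ ^ d := by
  obtain ⟨C, hC⟩ := (isCompact_closedBall (0 : R3) 1).exists_bound_of_continuousOn
    h.smooth.continuous.continuousOn
  have h0 := hC 0 (Metric.mem_closedBall_self zero_le_one)
  refine ⟨C, (norm_nonneg _).trans h0, fun y => ?_⟩
  by_cases hy : y = 0
  · subst hy
    rcases Nat.eq_zero_or_pos d with rfl | hd
    · simpa using h0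
    · have h1 := h.hom 2 two_pos 0
      have h2 : (1 : ℝ) < 2 ^ d := one_lt_pow₀ one_lt_two hd.ne'
      rw [smul_zero] at h1
      have h3 : Q 0 = 0 := by
        by_contra h4
        exact h2.ne (mul_right_cancel₀ h4 (by rw [one_mul, ← h1]))
      rw [h3, norm_zero, zero_pow hd.ne', abs_zero, mul_zero]
  · have hn := norm_pos_iff.2 hy
    have h1 := h.hom _ hn (‖y‖⁻¹ • y)
    rw [smul_inv_smul₀ hn.ne'] at h1
    rw [h1, abs_mul, abs_of_pos (pow_pos hn d), mul_comm]
    refine mul_le_mul_of_nonneg_right (hC _ ?_) (pow_pos hn d).le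
    rw [mem_closedBall_zero_iff, norm_smul, norm_inv, norm_norm, inv_mul_cancel₀ hn.ne']

/-- Differentiate `r ↦ Q (r • y)` at `r = 1`. -/
theorem Hom.euler (h : Hom d Q) (y : R3) : yd Q y = d * Q y := by
  have h1 : HasDerivAt (fun r : ℝ => Q (r • y)) (fderiv ℝ Q y y) 1 := by
    have h2 : HasFDerivAt Q (fderiv ℝ Q y) ((1 : ℝ) • y) := by
      rw [one_smul]
      exact (ResHom_diff h.smooth y).hasFDerivAt
    have h6 := h2.comp_hasDerivAt (1 : ℝ) ((hasDerivAt_id (1 : ℝ)).smul_const y)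
    rw [one_smul] at h6
    exact h6
  have h3 : HasDerivAt (fun r : ℝ => Q (r • y)) (d * Q y) 1 := by
    have h4 := (hasDerivAt_pow d (1 : ℝ)).mul_const (Q y)
    rw [one_pow, mul_one] at h4
    refine h4.congr_of_eventuallyEq ?_
    filter_upwards [Ioi_mem_nhds (zero_lt_one' ℝ)] with r hr using h.hom r hr y
  have h5 : y = ∑ j, y j • (EuclideanSpace.single j 1 : R3) := by
    ext i
    simp [Pi.single_apply]
  rw [← h1.unique h3]
  conv_rhs => rw [congrArg (fderiv ℝ Q y) h5, map_sum]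
  simp only [map_smul, smul_eq_mul]
  rfl

/-- Chain rule for `y ↦ Q (r • y)`. -/
theorem Hom.pd (h : Hom (d + 1) Q) (j : Fin 3) : Hom d (pd j Q) := by
  refine ⟨ResHom_smooth h.smooth j, fun r hr y => mul_left_cancel₀ hr.ne' ?_⟩
  have h1 : HasFDerivAt (fun y => Q (r • y))
      ((fderiv ℝ Q (r • y)).comp (r • ContinuousLinearMap.id ℝ R3)) y :=
    (ResHom_diff h.smooth (r • y)).hasFDerivAt.comp y ((hasFDerivAt_id y).const_smul r)
  have h2 : HasFDerivAt (fun y => Q (r • y)) (r ^ (d + 1) • fderiv ℝ Q y) y := by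
    rw [funext (h.hom r hr)]
    exact (ResHom_diff h.smooth y).hasFDerivAt.const_mul _
  have h3 := DFunLike.congr_fun (h1.unique h2) (EuclideanSpace.single j 1)
  simp only [ContinuousLinearMap.comp_apply, _root_.smul_apply,
    ContinuousLinearMap.id_apply, map_smul, smul_eq_mul] at h3
  rw [← mul_assoc, ← pow_succ']
  exact h3

/-- Continuity at the origin. -/
theorem Hom.const (h : Hom 0 Q) (y : R3) : Q y = Q 0 := by
  have h1 : Filter.Tendsto (fun r : ℝ => Q (r • y)) (nhdsWithin 0 (Ioi 0)) (nhds (Q 0)) := by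
    have h2 : Continuous fun r : ℝ => Q (r • y) :=
      h.smooth.continuous.comp (continuous_id.smul continuous_const)
    simpa using (h2.tendsto 0).mono_left nhdsWithin_le_nhds
  refine tendsto_nhds_unique (tendsto_const_nhds.congr' ?_) h1
  filter_upwards [self_mem_nhdsWithin] with r hr
  rw [h.hom r hr, pow_zero, one_mul]

theorem Hom.pd_zero (h : Hom 0 Q) (j : Fin 3) (y : R3) : H.pd j Q y = 0 := by
  rw [funext h.const]
  exact ResHom_pd_const _ j y

/-- Induction on `d`; derivatives of order above `d` vanish. -/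
theorem Hom.sym (h : Hom d Q) : Sym d Q := by
  have key : ∀ l : List (Fin 3),
      (∃ e, e + l.length = d ∧ Hom e (pds l Q)) ∨ pds l Q = fun _ => 0 := by
    intro l
    induction l with
    | nil => exact Or.inl ⟨d, rfl, h⟩
    | cons j l ih =>
      rcases ih with ⟨e, he, h1⟩ | h1
      · cases e with
        | zero => exact Or.inr (funext (h1.pd_zero j))
        | succ e => exact Or.inl ⟨e, by rw [List.length_cons]; omega, h1.pd j⟩
      · refine Or.inr (funext fun y => ?_)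
        change H.pd j (pds l Q) y = 0
        rw [h1]
        exact ResHom_pd_const _ j y
  refine ⟨h.smooth, fun l => ?_⟩
  rcases key l with ⟨e, he, h1⟩ | h1
  · obtain ⟨C, hC, h2⟩ := h1.bound
    refine ⟨C, fun y => (h2 y).trans (mul_le_mul_of_nonneg_left ?_ hC)⟩
    rw [← he, Nat.cast_add, add_sub_cancel_right, Real.rpow_natCast]
    exact pow_le_pow_left₀ (norm_nonneg y) (le_add_of_nonneg_left zero_le_one) e
  · exact ⟨0, fun y => by simp [h1]⟩

theorem Hom.Jd (h : Hom d Q) (k : Fin 3) : Hom d (Jd k Q) := by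
  cases d with
  | zero =>
    have h1 : H.Jd k Q = fun _ => 0 := funext fun y => by simp [H.Jd, h.pd_zero]
    rw [h1]
    exact hom_zero 0
  | succ e =>
    rw [add_comm]
    rw [add_comm] at h
    exact ((hom_coord _).mul ((add_comm 1 e ▸ h : Hom (e + 1) Q).pd _)).sub
      ((hom_coord _).mul ((add_comm 1 e ▸ h : Hom (e + 1) Q).pd _))

/-- Symmetry of the higher derivatives. -/
theorem Harm.pd (h : Harm (l + 1) P) (j : Fin 3) : Harm l (pd j P) :=
  ⟨h.toHom.pd j, fun y => by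
    rw [ResHom_lap_pd h.smooth, funext h.harm, ResHom_pd_const]⟩

/-- `lap (y_a ∂_b P - y_b ∂_a P) = y_a ∂_b lap P - y_b ∂_a lap P`. -/
theorem Harm.Jd (h : Harm l P) (k : Fin 3) : Harm l (Jd k P) :=
  ⟨h.toHom.Jd k, fun y => by
    have h1 : ∀ j y, lap (H.pd j P) y = 0 := fun j y => by
      rw [ResHom_lap_pd h.smooth, funext h.harm, ResHom_pd_const]
    unfold H.Jd
    rw [ResHom_lap_sub ((ResHom_coord _).mul (ResHom_smooth h.smooth _))
      ((ResHom_coord _).mul (ResHom_smooth h.smooth _)), ResHom_lap_coord (ResHom_smooth h.smooth _),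
      ResHom_lap_coord (ResHom_smooth h.smooth _), h1, h1, ResHom_pd_comm h.smooth (k + 1)]
    ring⟩

end Pool.Agent.Work.MP_6bf1e5_an.H
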