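import Pool.Agent.Work.MP_6bf1e5_an.H.FourB

/-!
Fourier toolkit, part G: the algebra Hinf.
Hints. pds (l ++ [j]) f = pds l (pd j f) (List.foldr_append); pds l is additive on smooth functions.
four_mul: induction on the length of l (List.reverseRecOn), for all f and g at once:
pds (l ++ [j]) (g f) = pds l (pd j g * f) + pds l (g * pd j f); the base case is MemLp.of_le_mul.
Hinf.mul: derivatives of g are bounded by Hinf.bdd. Sym.hinf: integrable_one_add_norm, or
memLp_two_iff_integrable_sq with finite_integral_one_add_norm. hinf_of_supp: HasCompactSupport.fderiv_apply,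
Continuous.memLp_of_hasCompactSupport.
-/

open scoped ContDiff ENNReal FourierTransform Real
open Set MeasureTheory

namespace Pool.Agent.Work.MP_6bf1e5_an.H

variable {f g : Sc} {F G : R3 → ℂ} {s s' : ℝ}

theorem FourG_pd (h : ContDiff ℝ ∞ f) (j : Fin 3) : ContDiff ℝ ∞ (pd j f) :=
  (h.fderiv_right (m := ∞) le_rfl).clm_apply contDiff_const

theorem FourG_app (l : List (Fin 3)) (j : Fin 3) (f : Sc) : pds (l ++ [j]) f = pds l (pd j f) :=
  List.foldr_append

theorem four_pds_smooth (h : ContDiff ℝ ∞ f) (l : List (Fin 3)) : ContDiff ℝ ∞ (pds l f) := by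
  induction l with
  | nil => exact h
  | cons j l ih => exact FourG_pd ih j

theorem Hinf.pd (h : Hinf f) (j : Fin 3) : Hinf (pd j f) :=
  ⟨FourG_pd h.1 j, fun l => FourG_app l j f ▸ h.2 _⟩

theorem FourG_add (h : ContDiff ℝ ∞ f) (h' : ContDiff ℝ ∞ g) (l : List (Fin 3)) :
    pds l (f + g) = pds l f + pds l g := by
  induction l with
  | nil => rfl
  | cons j l ih =>
    funext y
    change pd j (pds l (f + g)) y = pd j (pds l f) y + pd j (pds l g) y
    rw [ih, pd, fderiv_add ((four_pds_smooth h l).differentiable (by simp) y)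
      ((four_pds_smooth h' l).differentiable (by simp) y)]
    rfl

theorem FourG_mul (h : ContDiff ℝ ∞ f) (h' : ContDiff ℝ ∞ g) (j : Fin 3) :
    pd j (g * f) = pd j g * f + g * pd j f := by
  funext y
  rw [pd, fderiv_mul (h'.differentiable (by simp) y) (h.differentiable (by simp) y)]
  simp only [pd, _root_.add_apply, _root_.smul_apply, smul_eq_mul,
    Pi.add_apply, Pi.mul_apply]
  ring

theorem Hinf.add (h : Hinf f) (h' : Hinf g) : Hinf (f + g) :=
  ⟨h.1.add h'.1, fun l => by
    rw [FourG_add h.1 h'.1]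
    exact (h.2 l).add (h'.2 l)⟩

theorem four_mul (h : Hinf f) (hg : ContDiff ℝ ∞ g) (hb : ∀ l, ∃ C, ∀ y, |pds l g y| ≤ C) :
    Hinf (g * f) := by
  refine ⟨hg.mul h.1, fun l => ?_⟩
  induction l using List.reverseRecOn generalizing f g with
  | nil =>
    obtain ⟨C, hC⟩ := hb []
    refine (h.2 []).of_le_mul (c := C) (hg.mul h.1).continuous.aestronglyMeasurable
      (Filter.Eventually.of_forall fun y => ?_)
    exact (norm_mul _ _).trans_le (mul_le_mul_of_nonneg_right (hC y) (norm_nonneg _))
  | append_singleton l j ih =>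
    rw [FourG_app, FourG_mul h.1 hg,
      FourG_add (f := pd j g * f) (g := g * pd j f) ((FourG_pd hg j).mul h.1)
        (hg.mul (FourG_pd h.1 j))]
    exact (ih h (FourG_pd hg j) fun l => FourG_app l j g ▸ hb _).add (ih (h.pd j) hg hb)

theorem Hinf.mul (h : Hinf f) (h' : Hinf g) : Hinf (f * g) := by
  refine four_mul h' h.1 fun l => Hinf.bdd ?_
  induction l with
  | nil => exact h
  | cons j l ih => exact ih.pd j

theorem Hinf.mul_sym (h : Hinf f) (h' : Sym 0 g) : Hinf (g * f) := by
  refine four_mul h h'.1 fun l => ?_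
  obtain ⟨C, hC⟩ := h'.2 l
  refine ⟨|C|, fun y => (hC y).trans ((mul_le_mul_of_nonneg_right (le_abs_self C)
    (by positivity)).trans (mul_le_of_le_one_right (abs_nonneg C) ?_))⟩
  exact Real.rpow_le_one_of_one_le_of_nonpos (le_add_of_nonneg_right (norm_nonneg y)) (by simp)

theorem Sym.hinf {m : ℝ} (h : Sym m f) (hm : m < -3 / 2) : Hinf f := by
  refine ⟨h.1, fun l => ?_⟩
  obtain ⟨C, hC⟩ := h.2 l
  have hc := (four_pds_smooth h.1 l).continuous
  have hl : (0 : ℝ) ≤ l.length := Nat.cast_nonneg _
  rw [memLp_two_iff_integrable_sq hc.aestronglyMeasurable]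
  refine ((integrable_one_add_norm (E := R3) (μ := volume) (r := -(2 * (m - l.length)))
    (by simp; linarith)).const_mul (C ^ 2)).mono' (hc.pow 2).aestronglyMeasurable
    (Filter.Eventually.of_forall fun y => ?_)
  rw [neg_neg, mul_comm 2, Real.rpow_mul (by positivity), Real.rpow_two, ← mul_pow, norm_pow]
  exact pow_le_pow_left₀ (norm_nonneg _) (hC y) 2

theorem hinf_of_supp (h : ContDiff ℝ ∞ f) (h' : HasCompactSupport f) : Hinf f := by
  refine ⟨h, fun l => (four_pds_smooth h l).continuous.memLp_of_hasCompactSupport ?_⟩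
  induction l with
  | nil => exact h'
  | cons j l ih => exact ih.fderiv_apply ℝ _

end Pool.Agent.Work.MP_6bf1e5_an.H
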