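import Pool.Agent.Work.MP_6bf1e5_an.H.FourE

/-!
Fourier toolkit, part H: what the proof uses of a solution.
Hints. repH_of_sq gives RepH (u · t i) (U t i). RepH.Dp and RepH.pds give G with
|G| ≤ (2 π (1 + |ξ|)) ^ n (2 π |ξ|) ^ s |U| ≤ K (1 + |ξ|²) ^ k |U|. four_unif is the uniform statement: RepH.sq and
four_cs with w = (1 + |ξ|²) ^ 2 (integrable_rpow_neg_one_add_norm_sq); pass from the lower integral to the
integral with integral_eq_lintegral_of_nonneg_ae or ofReal_integral_eq_lintegral_ofReal.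
The third part is h.momentum with RepA.Dp_eq (2 * (3 / 4) = 3 / 2).
-/

open scoped ContDiff ENNReal FourierTransform Real
open Set MeasureTheory

namespace Pool.Agent.Work.MP_6bf1e5_an.H

variable {f g : Sc} {F G : R3 → ℂ} {s s' : ℝ}

theorem FourH_wint : Integrable fun ξ : R3 => ((1 + ‖ξ‖ ^ 2) ^ 2)⁻¹ := by
  have h := integrable_rpow_neg_one_add_norm_sq (E := R3) (μ := volume) (r := 4) (by simp; norm_num)
  refine h.congr (Filter.Eventually.of_forall fun ξ => ?_)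
  have h0 : (0 : ℝ) ≤ 1 + ‖ξ‖ ^ 2 := by positivity
  show ((1 : ℝ) + ‖ξ‖ ^ 2) ^ (-4 / 2 : ℝ) = ((1 + ‖ξ‖ ^ 2) ^ 2)⁻¹
  rw [show (-4 / 2 : ℝ) = -((2 : ℕ) : ℝ) by norm_num, Real.rpow_neg h0, Real.rpow_natCast]

theorem FourH_mom (h : RepH g G) : Integrable fun ξ : R3 => (1 + ‖ξ‖ ^ 2) ^ 2 * ‖G ξ‖ ^ 2 := by
  have h2 := (h.2 2).norm.integrable_sq
  have hm : AEStronglyMeasurable G volume := h.mem.1
  refine h2.mono' ?_ (Filter.Eventually.of_forall fun ξ => ?_)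
  · exact (by fun_prop : Continuous fun ξ : R3 => (1 + ‖ξ‖ ^ 2) ^ 2).aestronglyMeasurable.mul
      (hm.norm.pow 2)
  · have hn := norm_nonneg ξ
    rw [Real.norm_of_nonneg (by positivity), norm_mul, Complex.norm_real,
      Real.norm_of_nonneg (by positivity), mul_pow]
    gcongr
    nlinarith

theorem four_unif (k : ℕ) (K : ℝ) {C : ℝ≥0∞} (hC : C < ⊤) : ∃ D : ℝ, ∀ (g : Sc) (G U : R3 → ℂ),
    RepH g G → (∀ ξ, ‖G ξ‖ ≤ K * (1 + ‖ξ‖ ^ 2) ^ k * ‖U ξ‖) →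
    ∫⁻ ξ, ENNReal.ofReal ((1 + ‖ξ‖ ^ 2) ^ (2 * k + 2)) * ‖U ξ‖ₑ ^ 2 ≤ C →
    ∫ y, g y ^ 2 ≤ D ∧ ∀ x, |g x| ≤ D := by
  set I : ℝ := ∫ ξ : R3, ((1 + ‖ξ‖ ^ 2) ^ 2)⁻¹ with hI
  set A : ℝ := K ^ 2 * C.toReal with hA
  have hI0 : 0 ≤ I := integral_nonneg fun ξ => by positivity
  have hA0 : 0 ≤ A := by positivity
  refine ⟨A + 1 + I * A, fun g G U hg hG hU => ?_⟩
  have hint := FourH_mom hg
  have key : ∫ ξ : R3, (1 + ‖ξ‖ ^ 2) ^ 2 * ‖G ξ‖ ^ 2 ≤ A := by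
    rw [integral_eq_lintegral_of_nonneg_ae (Filter.Eventually.of_forall fun ξ => by positivity)
      hint.1]
    have h1 : ∫⁻ ξ : R3, ENNReal.ofReal ((1 + ‖ξ‖ ^ 2) ^ 2 * ‖G ξ‖ ^ 2)
        ≤ ENNReal.ofReal (K ^ 2) * C := by
      calc _ ≤ ∫⁻ ξ : R3, ENNReal.ofReal (K ^ 2) *
            (ENNReal.ofReal ((1 + ‖ξ‖ ^ 2) ^ (2 * k + 2)) * ‖U ξ‖ₑ ^ 2) := by
            refine lintegral_mono fun ξ => ?_
            have e : ‖U ξ‖ₑ ^ 2 = ENNReal.ofReal (‖U ξ‖ ^ 2) := by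
              rw [← ofReal_norm, ENNReal.ofReal_pow (norm_nonneg _)]
            rw [e, ← ENNReal.ofReal_mul (by positivity), ← ENNReal.ofReal_mul (by positivity)]
            refine ENNReal.ofReal_le_ofReal ?_
            have h2 := pow_le_pow_left₀ (norm_nonneg _) (hG ξ) 2
            calc _ ≤ (1 + ‖ξ‖ ^ 2) ^ 2 * (K * (1 + ‖ξ‖ ^ 2) ^ k * ‖U ξ‖) ^ 2 := by gcongr
              _ = _ := by ring
        _ = ENNReal.ofReal (K ^ 2) *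
            ∫⁻ ξ : R3, ENNReal.ofReal ((1 + ‖ξ‖ ^ 2) ^ (2 * k + 2)) * ‖U ξ‖ₑ ^ 2 :=
            lintegral_const_mul' _ _ ENNReal.ofReal_ne_top
        _ ≤ _ := by gcongr
    have h3 := ENNReal.toReal_mono (ENNReal.mul_ne_top ENNReal.ofReal_ne_top hC.ne) h1
    rwa [ENNReal.toReal_mul, ENNReal.toReal_ofReal (sq_nonneg K)] at h3
  have hIA : 0 ≤ I * A := by positivity
  refine ⟨?_, fun x => ?_⟩
  · rw [hg.sq]
    have : ∫ ξ : R3, ‖G ξ‖ ^ 2 ≤ ∫ ξ : R3, (1 + ‖ξ‖ ^ 2) ^ 2 * ‖G ξ‖ ^ 2 := by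
      refine integral_mono hg.isq hint fun ξ => ?_
      have h1 : (1 : ℝ) ≤ (1 + ‖ξ‖ ^ 2) ^ 2 := one_le_pow₀ (by nlinarith [sq_nonneg ‖ξ‖])
      exact le_mul_of_one_le_left (sq_nonneg _) h1
    linarith
  · have h4 := four_cs hg.1 (w := fun ξ => (1 + ‖ξ‖ ^ 2) ^ 2)
      (Filter.Eventually.of_forall fun ξ => by positivity) FourH_wint hint x
    have h5 : g x ^ 2 ≤ I * A := h4.trans (mul_le_mul_of_nonneg_left key hI0)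
    have h6 : |g x| ≤ 1 + g x ^ 2 := by
      rw [← sq_abs]; nlinarith [abs_nonneg (g x), sq_nonneg (|g x| - 1)]
    linarith

theorem FourH_sym (hs : 0 ≤ s) (n : ℕ) (ξ : R3) :
    (2 * π * (1 + ‖ξ‖)) ^ n * (2 * π * ‖ξ‖) ^ s
      ≤ (4 * π) ^ (n + ⌈s⌉₊) * (1 + ‖ξ‖ ^ 2) ^ (n + ⌈s⌉₊) := by
  have hn := norm_nonneg ξ
  have hp := Real.pi_gt_three
  have h1 : (1 : ℝ) ≤ 2 * π * (1 + ‖ξ‖) := by nlinarith
  have h2 : (2 * π * ‖ξ‖) ^ s ≤ (2 * π * (1 + ‖ξ‖)) ^ ⌈s⌉₊ := by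
    calc _ ≤ (2 * π * (1 + ‖ξ‖)) ^ s := by gcongr; linarith
      _ ≤ (2 * π * (1 + ‖ξ‖)) ^ ((⌈s⌉₊ : ℕ) : ℝ) :=
          Real.rpow_le_rpow_of_exponent_le h1 (Nat.le_ceil s)
      _ = _ := Real.rpow_natCast _ _
  calc _ ≤ (2 * π * (1 + ‖ξ‖)) ^ n * (2 * π * (1 + ‖ξ‖)) ^ ⌈s⌉₊ := by gcongr
    _ = (2 * π * (1 + ‖ξ‖)) ^ (n + ⌈s⌉₊) := (pow_add _ _ _).symm
    _ ≤ (4 * π * (1 + ‖ξ‖ ^ 2)) ^ (n + ⌈s⌉₊) := by
        refine pow_le_pow_left₀ (by positivity) ?_ _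
        have : 1 + ‖ξ‖ ≤ 2 * (1 + ‖ξ‖ ^ 2) := by nlinarith [sq_nonneg (‖ξ‖ - 1)]
        nlinarith
    _ = _ := mul_pow _ _ _

theorem FourH_rep {α ν T : ℝ} {u0 : R3 → R3} {u : R3 → ℝ → R3} {p : R3 → ℝ → ℝ}
    {U : ℝ → Fin 3 → R3 → ℂ} (h : FSol α ν u0 T u p U) {t : ℝ} (ht : t ∈ Icc 0 T) (i : Fin 3) :
    RepH (fun y => u y t i) (U t i) := by
  refine repH_of_sq (h.meas t ht i) (fun k => ?_) fun x => h.fourier t ht x i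
  obtain ⟨C, hC, hb⟩ := h.sobolev k
  exact (hb t ht i).trans_lt hC

/-- What the proof uses of a solution. -/
theorem FSol.bounds {ν T : ℝ} {u0 : R3 → R3} {u : R3 → ℝ → R3} {p : R3 → ℝ → ℝ}
    {U : ℝ → Fin 3 → R3 → ℂ} (h : FSol (3 / 4) ν u0 T u p U) :
    (∀ t ∈ Icc 0 T, ∀ i, Hinf fun y => u y t i) ∧
    (∀ l, ∀ s ≥ 0, ∃ C, ∀ t ∈ Icc 0 T, ∀ i, ∫ y, pds l (Dp s fun y => u y t i) y ^ 2 ≤ C ∧
      ∀ x, |pds l (Dp s fun y => u y t i) x| ≤ C) ∧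
    ∀ x, ∀ t ∈ Icc 0 T, ∀ i, derivWithin (fun s => u x s i) (Icc 0 T) t
      + ∑ j, u x t j * pd j (fun y => u y t i) x + pd i (fun y => p y t) x
      = -ν * Lam (fun y => u y t i) x := by
  refine ⟨fun t ht i => (FourH_rep h ht i).hinf, fun l s hs => ?_, fun x t ht i => ?_⟩
  · obtain ⟨C, hC, hb⟩ := h.sobolev (2 * (l.length + ⌈s⌉₊) + 2)
    obtain ⟨D, hD⟩ := four_unif (l.length + ⌈s⌉₊) ((4 * π) ^ (l.length + ⌈s⌉₊)) hC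
    refine ⟨D, fun t ht i => ?_⟩
    obtain ⟨G, hG, hle⟩ := ((FourH_rep h ht i).Dp hs).pds l
    refine hD _ G (U t i) hG (fun ξ => (hle ξ).trans ?_) (hb t ht i)
    rw [norm_mul, sy_norm, ← mul_assoc]
    exact mul_le_mul_of_nonneg_right (FourH_sym hs _ ξ) (norm_nonneg _)
  · rw [h.momentum x t ht i, Lam, (FourH_rep h ht i).1.Dp_eq]
    norm_num [sy]

end Pool.Agent.Work.MP_6bf1e5_an.H
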