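import Pool.Agent.Work.MP_6bf1e5_an.H.FourF
import Pool.Agent.Work.MP_6bf1e5_an.H.FourG
import Pool.Agent.Work.MP_6bf1e5_an.H.FourH

/-! The Fourier toolkit (owner helper39): the statements are in FourA, ..., FourH. -/
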