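import Pool.Agent.Work.MP_6bf1e5_an.H.Sep
import Pool.Agent.Work.MP_6bf1e5_an.H.SkFour

/-! Skeleton: measurable functions of power growth (owner helper56). -/

open scoped ContDiff ENNReal FourierTransform Real
open Set MeasureTheory Polynomial

namespace Pool.Agent.Work.MP_6bf1e5_an.H

variable {m m' : ℝ} {f g : Sc}

theorem Bd.nn (h : Bd m f) : ∃ C, 0 ≤ C ∧ ∀ᵐ y, |f y| ≤ C * (1 + ‖y‖) ^ m := by
  obtain ⟨C, hC⟩ := h.2
  refine ⟨max C 0, le_max_right _ _, ?_⟩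
  filter_upwards [hC] with y hy
  exact hy.trans (mul_le_mul_of_nonneg_right (le_max_left _ _) (by positivity))

theorem Bd.congr (h : Bd m f) (e : ∀ y, g y = f y) : Bd m g := by
  rw [show g = f from funext e]
  exact h

theorem Bd.of_eq (h : Bd m f) (e : m = m') : Bd m' f := e ▸ h

theorem SkBd_Om_pos (y : R3) : 0 < Om y := by
  unfold Om
  positivity

theorem SkBd_Op_cont (b : ℝ) : Continuous (Op b) := by
  have h1 : Continuous Om := by
    unfold Om
    exact continuous_const.div (by fun_prop) fun y => by positivity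
  exact h1.rpow_const fun y => Or.inl (SkBd_Om_pos y).ne'

theorem Sym.bd (h : Sym m f) : Bd m f := by
  refine ⟨h.1.continuous.aestronglyMeasurable, ?_⟩
  obtain ⟨C, hC⟩ := h.2 []
  refine ⟨C, Filter.Eventually.of_forall fun y => ?_⟩
  simpa [pds] using hC y
theorem Hinf.bd (h : Hinf f) : Bd 0 f := by
  refine ⟨h.1.continuous.aestronglyMeasurable, ?_⟩
  obtain ⟨C, hC⟩ := h.bdd
  refine ⟨C, Filter.Eventually.of_forall fun y => ?_⟩
  simpa using hC y
theorem Bd.mono (h : Bd m f) (hm : m ≤ m') : Bd m' f := by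
  obtain ⟨C, h0, hC⟩ := h.nn
  refine ⟨h.1, C, ?_⟩
  filter_upwards [hC] with y hy
  refine hy.trans (mul_le_mul_of_nonneg_left ?_ h0)
  exact Real.rpow_le_rpow_of_exponent_le (by linarith [norm_nonneg y]) hm
theorem Bd.add (h : Bd m f) (h' : Bd m g) : Bd m fun y => f y + g y := by
  obtain ⟨C, hC⟩ := h.2
  obtain ⟨C', hC'⟩ := h'.2
  refine ⟨h.1.add h'.1, C + C', ?_⟩
  filter_upwards [hC, hC'] with y hy hy'
  calc _ ≤ |f y| + |g y| := abs_add_le _ _
    _ ≤ _ := by linarith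
theorem Bd.sub (h : Bd m f) (h' : Bd m g) : Bd m fun y => f y - g y := by
  obtain ⟨C, hC⟩ := h.2
  obtain ⟨C', hC'⟩ := h'.2
  refine ⟨h.1.sub h'.1, C + C', ?_⟩
  filter_upwards [hC, hC'] with y hy hy'
  calc _ ≤ |f y| + |g y| := abs_sub _ _
    _ ≤ _ := by linarith
theorem Bd.neg (h : Bd m f) : Bd m fun y => -f y := by
  obtain ⟨C, hC⟩ := h.2
  refine ⟨h.1.neg, C, ?_⟩
  filter_upwards [hC] with y hy
  rwa [abs_neg]
theorem Bd.cmul (h : Bd m f) (c : ℝ) : Bd m fun y => c * f y := by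
  obtain ⟨C, hC⟩ := h.2
  refine ⟨h.1.const_mul c, |c| * C, ?_⟩
  filter_upwards [hC] with y hy
  rw [abs_mul, mul_assoc]
  exact mul_le_mul_of_nonneg_left hy (abs_nonneg c)
theorem Bd.mul (h : Bd m f) (h' : Bd m' g) : Bd (m + m') fun y => f y * g y := by
  obtain ⟨C, h0, hC⟩ := h.nn
  obtain ⟨C', hC'⟩ := h'.2
  refine ⟨h.1.mul h'.1, C * C', ?_⟩
  filter_upwards [hC, hC'] with y hy hy'
  have hp : 0 < 1 + ‖y‖ := by positivity
  rw [abs_mul, Real.rpow_add hp]
  calc _ ≤ (C * (1 + ‖y‖) ^ m) * (C' * (1 + ‖y‖) ^ m') :=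
        mul_le_mul hy hy' (abs_nonneg _) (by positivity)
    _ = _ := by ring
theorem Bd.sum {ι : Type} (s : Finset ι) {F : ι → Sc} (h : ∀ i ∈ s, Bd m (F i)) :
    Bd m fun y => ∑ i ∈ s, F i y := by
  classical
  induction s using Finset.induction_on with
  | empty => exact ⟨aestronglyMeasurable_const, 0, by simp⟩
  | insert a s ha ih =>
    simp only [Finset.sum_insert ha]
    exact (h a (Finset.mem_insert_self a s)).add
      (ih fun i hi => h i (Finset.mem_insert_of_mem hi))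
theorem bd_zero (m : ℝ) : Bd m fun _ => 0 := by
  exact ⟨aestronglyMeasurable_const, 0, by simp⟩
theorem bd_Op (b : ℝ) : Bd (-(2 * b)) (Op b) := by
  refine ⟨(SkBd_Op_cont b).aestronglyMeasurable, 4 ^ |b|, Filter.Eventually.of_forall fun y => ?_⟩
  have hr := norm_nonneg y
  have hp : 0 < 1 + ‖y‖ := by positivity
  have hO := SkBd_Om_pos y
  have ht1 : 1 ≤ Om y * (1 + ‖y‖) ^ 2 := by
    unfold Om
    rw [div_mul_eq_mul_div, le_div_iff₀ (by positivity)]
    nlinarith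
  have ht4 : Om y * (1 + ‖y‖) ^ 2 ≤ 4 := by
    unfold Om
    rw [div_mul_eq_mul_div, div_le_iff₀ (by positivity)]
    nlinarith [sq_nonneg (1 - ‖y‖)]
  have e : Op b y = (Om y * (1 + ‖y‖) ^ 2) ^ b * (1 + ‖y‖) ^ (-(2 * b)) := by
    unfold Op
    rw [Real.mul_rpow hO.le (by positivity), mul_assoc, ← Real.rpow_natCast,
      ← Real.rpow_mul hp.le, ← Real.rpow_add hp]
    simp
  have hn : 0 ≤ Op b y := Real.rpow_nonneg hO.le b
  rw [abs_of_nonneg hn, e]
  refine mul_le_mul_of_nonneg_right ?_ (by positivity)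
  exact (Real.rpow_le_rpow_of_exponent_le ht1 (le_abs_self b)).trans
    (Real.rpow_le_rpow (by positivity) ht4 (abs_nonneg b))
theorem Bd.integrable (h : Bd m f) (hm : m < -3) : Integrable f := by
  obtain ⟨C, hC⟩ := h.2
  have hi : Integrable fun y : R3 => (1 + ‖y‖) ^ (-(-m)) :=
    integrable_one_add_norm (by simp; linarith)
  rw [neg_neg] at hi
  refine (hi.const_mul C).mono' h.1 ?_
  filter_upwards [hC] with y hy
  rwa [Real.norm_eq_abs]
theorem Bd.memLp (h : Bd m f) (hm : m < -3 / 2) : MemLp f 2 volume := by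
  rw [memLp_two_iff_integrable_sq h.1]
  simp only [sq]
  exact (h.mul h).integrable (by linarith)
theorem Bd.int_hinf (h : Bd m f) (hm : m < -3 / 2) (hg : Hinf g) :
    Integrable fun y => g y * f y := by
  exact MemLp.integrable_mul (hg.2 []) (h.memLp hm)
theorem Bd.int_hinf2 {g' : Sc} (h : Bd m f) (hm : m ≤ 0) (hg : Hinf g) (hg' : Hinf g') :
    Integrable fun y => g y * f y * g' y := by
  obtain ⟨C, h0, hC⟩ := (h.mono hm).nn
  have hi : Integrable fun y => g y * g' y := MemLp.integrable_mul (hg.2 []) (hg'.2 [])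
  refine (hi.norm.const_mul C).mono'
    ((hg.1.continuous.aestronglyMeasurable.mul h.1).mul hg'.1.continuous.aestronglyMeasurable) ?_
  filter_upwards [hC] with y hy
  rw [Real.rpow_zero, mul_one] at hy
  simp only [Real.norm_eq_abs, abs_mul]
  calc |g y| * |f y| * |g' y| ≤ |g y| * C * |g' y| := by gcongr
    _ = _ := by ring

theorem Bd.dot {a b : Vc} (ha : ∀ i, Bd m (a i)) (hb : ∀ i, Bd m' (b i)) :
    Bd (m + m') (dot a b) := Bd.sum Finset.univ fun i _ => (ha i).mul (hb i)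

theorem Bd.int_nw {a b : Vc} {k : ℝ} (h : Bd k f) (ha : ∀ i, Bd m (a i)) (hb : ∀ i, Bd m' (b i))
    (hm : k + (m + m') < -3) : Integrable fun y => f y * H.dot a b y :=
  (h.mul (Bd.dot ha hb)).integrable hm

theorem Bd.int_nwH {a b : Vc} (h : Bd m f) (hm : m ≤ 0) (ha : ∀ i, Hinf (a i))
    (hb : ∀ i, Hinf (b i)) : Integrable fun y => f y * H.dot a b y := by
  have := integrable_finsetSum Finset.univ fun i _ => h.int_hinf2 hm (ha i) (hb i)
  refine this.congr (Filter.Eventually.of_forall fun y => ?_)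
  simp only [H.dot, Finset.mul_sum]
  exact Finset.sum_congr rfl fun i _ => by ring

theorem Bd.int_ipH {a b : Vc} (hb : ∀ i, Bd m (b i)) (hm : m < -3 / 2) (ha : ∀ i, Hinf (a i)) :
    Integrable (H.dot a b) :=
  integrable_finsetSum Finset.univ fun i _ => (hb i).int_hinf hm (ha i)

theorem SkBd_pw {mv ov : ℝ} (h0 : 0 < ov) (h1 : 1 ≤ mv * ov) (q a : Fin 3 → ℝ) (t : ℝ) :
    0 ≤ t ^ 2 * (mv * ∑ i, q i * q i) - 2 * t * ∑ i, q i * a i + ov * ∑ i, a i * a i := by
  refine le_of_mul_le_mul_left ?_ h0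
  have hq : 0 ≤ t ^ 2 * ∑ i, q i * q i :=
    mul_nonneg (sq_nonneg t) (Finset.sum_nonneg fun i _ => mul_self_nonneg _)
  have h2 := mul_le_mul_of_nonneg_left h1 hq
  simp only [Fin.sum_univ_three] at h2 ⊢
  nlinarith [sq_nonneg (t * q 0 - ov * a 0), sq_nonneg (t * q 1 - ov * a 1),
    sq_nonneg (t * q 2 - ov * a 2)]

/-- The weighted Cauchy-Schwarz inequality for pairs. -/
theorem pair_cs {mv mu ov ou : Sc} (wv : Bd (-2) mv ∧ Bd 2 ov ∧ ∀ᵐ y, 0 < ov y ∧ 1 ≤ mv y * ov y)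
    (wu : Bd (-4) mu ∧ Bd 4 ou ∧ ∀ᵐ y, 0 < ou y ∧ 1 ≤ mu y * ou y) {q w a b : Vc}
    (hq : ∀ i, Hinf (q i)) (hw : ∀ i, Hinf (w i)) (ha : ∀ i, Bd (-3) (a i))
    (hb : ∀ i, Bd (-4) (b i)) :
    (ip q a + ip w b) ^ 2 ≤ (nw mv q + nw mu w) * (nw ov a + nw ou b) := by
  have i1 := wv.1.int_nwH (by norm_num) hq hq
  have i2 := wu.1.int_nwH (by norm_num) hw hw
  have i3 := wv.2.1.int_nw ha ha (by norm_num)
  have i4 := wu.2.1.int_nw hb hb (by norm_num)
  have i5 := Bd.int_ipH ha (by norm_num) hq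
  have i6 := Bd.int_ipH hb (by norm_num) hw
  have k1 : ∀ t : ℝ, 0 ≤ t ^ 2 * nw mv q - 2 * t * ip q a + nw ov a := fun t => by
    have j : Integrable fun y => t ^ 2 * (mv y * dot q q y) - 2 * t * dot q a y :=
      (i1.const_mul _).sub (i5.const_mul _)
    unfold nw ip
    rw [← integral_const_mul, ← integral_const_mul,
      ← integral_sub (i1.const_mul _) (i5.const_mul _), ← integral_add j i3]
    refine integral_nonneg_of_ae ?_
    filter_upwards [wv.2.2] with y hy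
    exact SkBd_pw hy.1 hy.2 (fun i => q i y) (fun i => a i y) t
  have k2 : ∀ t : ℝ, 0 ≤ t ^ 2 * nw mu w - 2 * t * ip w b + nw ou b := fun t => by
    have j : Integrable fun y => t ^ 2 * (mu y * dot w w y) - 2 * t * dot w b y :=
      (i2.const_mul _).sub (i6.const_mul _)
    unfold nw ip
    rw [← integral_const_mul, ← integral_const_mul,
      ← integral_sub (i2.const_mul _) (i6.const_mul _), ← integral_add j i4]
    refine integral_nonneg_of_ae ?_
    filter_upwards [wu.2.2] with y hy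
    exact SkBd_pw hy.1 hy.2 (fun i => w i y) (fun i => b i y) t
  have key := discrim_le_zero (a := nw mv q + nw mu w) (b := -2 * (ip q a + ip w b))
    (c := nw ov a + nw ou b) fun t => by nlinarith [k1 t, k2 t]
  unfold discrim at key
  nlinarith

theorem int_Op_five : Integrable (Op (5 / 2)) ∧ ∫ y, Op (5 / 2) y ≤ 24 := by
  refine ⟨(bd_Op (5 / 2)).integrable (by norm_num), ?_⟩
  have e : ∫ y, Op (5 / 2) y = ∫ y : R3, (fun r : ℝ => (2 / (1 + r ^ 2)) ^ (5 / 2 : ℝ)) ‖y‖ := rfl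
  rw [e, integral_fun_norm_addHaar volume (fun r : ℝ => (2 / (1 + r ^ 2)) ^ (5 / 2 : ℝ))]
  have hd : ∀ r ∈ Ici (0 : ℝ), HasDerivAt
      (fun r : ℝ => 2 ^ (5 / 2 : ℝ) / 3 * (1 - (1 + r ^ 2)⁻¹) ^ (3 / 2 : ℝ))
      (r ^ 2 * (2 / (1 + r ^ 2)) ^ (5 / 2 : ℝ)) r := by
    intro r hr
    have hr0 : 0 ≤ r := hr
    have hs : 0 < 1 + r ^ 2 := by positivity
    have d1 : HasDerivAt (fun r : ℝ => 1 + r ^ 2) (2 * r) r := by
      simpa using ((hasDerivAt_pow 2 r).const_add 1)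
    have d2 := ((d1.inv hs.ne').const_sub 1).rpow_const (p := 3 / 2) (Or.inr (by norm_num))
    refine (d2.const_mul (2 ^ (5 / 2 : ℝ) / 3)).congr_deriv ?_
    have e1 : (1 - (1 + r ^ 2)⁻¹) ^ (3 / 2 - 1 : ℝ) = r / √(1 + r ^ 2) := by
      rw [show (3 / 2 - 1 : ℝ) = 1 / 2 by norm_num, ← Real.sqrt_eq_rpow,
        show 1 - (1 + r ^ 2)⁻¹ = r ^ 2 / (1 + r ^ 2) by field_simp; ring,
        Real.sqrt_div (sq_nonneg r), Real.sqrt_sq hr0]
    have e2 : (1 + r ^ 2) ^ (5 / 2 : ℝ) = (1 + r ^ 2) ^ 2 * √(1 + r ^ 2) := by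
      rw [show (5 / 2 : ℝ) = 2 + 1 / 2 by norm_num, Real.rpow_add hs, ← Real.sqrt_eq_rpow]
      norm_num
    simp only [Pi.inv_apply]
    rw [e1, Real.div_rpow (by norm_num) hs.le, e2]
    have hq : 0 < √(1 + r ^ 2) := Real.sqrt_pos.2 hs
    field_simp
  have hl : Filter.Tendsto (fun r : ℝ => 2 ^ (5 / 2 : ℝ) / 3 * (1 - (1 + r ^ 2)⁻¹) ^ (3 / 2 : ℝ))
      Filter.atTop (nhds (2 ^ (5 / 2 : ℝ) / 3 * (1 - 0) ^ (3 / 2 : ℝ))) := by
    have t1 : Filter.Tendsto (fun r : ℝ => 1 + r ^ 2) Filter.atTop Filter.atTop :=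
      Filter.tendsto_atTop_add_const_left _ 1 (Filter.tendsto_pow_atTop two_ne_zero)
    exact ((tendsto_const_nhds.sub t1.inv_tendsto_atTop).rpow_const
      (Or.inr (by norm_num))).const_mul _
  have hI := integral_Ioi_of_hasDerivAt_of_nonneg' hd (fun r _ => by positivity) hl
  have hv : (volume : Measure R3).real (Metric.ball 0 1) = π * 4 / 3 := by
    rw [Measure.real, EuclideanSpace.volume_ball_fin_three]
    simp only [ENNReal.ofReal_one, one_pow, one_mul]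
    exact ENNReal.toReal_ofReal (by positivity)
  have h2 : (2 : ℝ) ^ (5 / 2 : ℝ) ≤ 5.7 := by
    rw [show (5 / 2 : ℝ) = 2 + 1 / 2 by norm_num, Real.rpow_add two_pos, ← Real.sqrt_eq_rpow]
    have : √2 ≤ 1.425 := Real.sqrt_le_iff.2 ⟨by norm_num, by norm_num⟩
    norm_num
    linarith
  simp only [finrank_euclideanSpace, Fintype.card_fin, Nat.add_one_sub_one, smul_eq_mul,
    nsmul_eq_mul, hv]
  rw [hI]
  have h3 : (0 : ℝ) ^ (3 / 2 : ℝ) = 0 := Real.zero_rpow (by norm_num)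
  have h4 : (0 : ℝ) ≤ 2 ^ (5 / 2 : ℝ) := by positivity
  simp only [sub_zero, Real.one_rpow, mul_one]
  norm_num
  nlinarith [Real.pi_lt_d2, Real.pi_pos]

end Pool.Agent.Work.MP_6bf1e5_an.H
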