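import Pool.Agent.Work.MP_6bf1e5_an.H.ResLocA
import Pool.Agent.Work.MP_6bf1e5_an.H.ResHom
import Pool.Agent.Work.MP_6bf1e5_an.H.DynHinf
import Pool.Agent.Work.MP_6bf1e5_an.H.SkBd

/-! Conformal part: definitions, the conformal factor, algebra of the polynomials on the sphere. -/

open scoped ContDiff ENNReal FourierTransform Real
open Set MeasureTheory

namespace Pool.Agent.Work.MP_6bf1e5_an.H

noncomputable section

/-- The gradient fields of the four coordinates of the sphere. -/
def Xs (i : Fin 4) (f : Sc) : Sc := fun y => Fin.lastCases (yd f y) (fun j => Xd j f y) i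

/-- A polynomial in four variables as a function on space. -/
def ev (p : MvPolynomial (Fin 4) ℝ) : Sc := fun y => MvPolynomial.eval (fun i => sig i y) p

/-- Homogeneous polynomials of degree `k` on the sphere. -/
def HomF (k : ℕ) (f : Sc) : Prop := ∃ p : MvPolynomial (Fin 4) ℝ, p.IsHomogeneous k ∧ f = ev p

/-- Smooth, bounded, with bounded gradient. -/
def Cb (f : Sc) : Prop := ContDiff ℝ ∞ f ∧ Bd 0 f ∧ ∀ j, Bd 0 (pd j f)

/-- Square integrable on the sphere. -/
def L2S (u : Sc) : Prop := MemLp (fun y => Op (3 / 2) y * u y) 2 volume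

/-- `Y k` is the component of `φ` of degree `k`. -/
def Gr (φ : Sc) (Y : ℕ → Sc) : Prop := ∀ k, HF k (Y k) ∧ ∀ g, HF k g → ipS φ g = ipS (Y k) g

/-- The Dirichlet form of the sphere. -/
def dirS (f g : Sc) : ℝ := ∫ y, Om y * ∑ j, pd j f y * pd j g y

end

variable {k n : ℕ} {f g : Sc} {ι : Type}

theorem sig_last (y : R3) : sig (Fin.last 3) y = 1 - Om y := by
  simp only [sig, Fin.lastCases_last]
theorem sig_cast (j : Fin 3) (y : R3) : sig j.castSucc y = Om y * y j := by
  simp only [sig, Fin.lastCases_castSucc]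
theorem Xs_last (f : Sc) (y : R3) : Xs (Fin.last 3) f y = yd f y := by
  simp only [Xs, Fin.lastCases_last]
theorem Xs_cast (j : Fin 3) (f : Sc) (y : R3) : Xs j.castSucc f y = Xd j f y := by
  simp only [Xs, Fin.lastCases_castSucc]

theorem cf_Op_pos (b : ℝ) (y : R3) : 0 < Op b y := Real.rpow_pos_of_pos (Dyn.Om_pos y) b
theorem cf_Op_zero (y : R3) : Op 0 y = 1 := Real.rpow_zero _
theorem cf_Op_one : Op 1 = Om := funext fun _ => Real.rpow_one _
theorem cf_Op_add (a b : ℝ) (y : R3) : Op (a + b) y = Op a y * Op b y := 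
  Real.rpow_add (Dyn.Om_pos y) a b
theorem cf_Op_succ (a : ℝ) (y : R3) : Op (a + 1) y = Op a y * Om y := by
  rw [cf_Op_add, cf_Op_one]
theorem cf_Op_nat (k : ℕ) (y : R3) : Op k y = Om y ^ k := Real.rpow_natCast _ k
theorem cf_Op_smooth (b : ℝ) : ContDiff ℝ ∞ (Op b) := 
  Dyn.Om_smooth.rpow_const_of_ne fun y => (Dyn.Om_pos y).ne'
theorem cf_norm_sq (y : R3) : ‖y‖ ^ 2 = ∑ j, y j ^ 2 := EuclideanSpace.real_norm_sq_eq y
theorem cf_Om_norm (y : R3) : Om y * ∑ j, y j ^ 2 = 2 - Om y := by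
  have h0 : 1 + ‖y‖ ^ 2 ≠ 0 := by positivity
  rw [← cf_norm_sq]
  unfold Om
  field_simp
  ring
theorem cf_pd_Op (b : ℝ) (j : Fin 3) (y : R3) : pd j (Op b) y = -(b * Op b y * Om y * y j) := by
  have h0 : 1 + ‖y‖ ^ 2 ≠ 0 := by positivity
  have h := (hasDerivAt_inv h0).comp_hasFDerivAt y
    ((hasStrictFDerivAt_norm_sq y).hasFDerivAt.const_add 1)
  have h1 : HasFDerivAt Om _ y := h.const_mul 2
  have h2 := h1.rpow_const (p := b) (Or.inl (Dyn.Om_pos y).ne')
  rw [pd, show fderiv ℝ (Op b) y = _ from h2.fderiv]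
  have h3 : Om y ^ (b - 1) = Op b y / Om y := Real.rpow_sub_one (Dyn.Om_pos y).ne' b
  have h4 : Om y = 2 / (1 + ‖y‖ ^ 2) := rfl
  rw [h3]
  simp [EuclideanSpace.inner_single_right]
  rw [h4]
  field_simp
theorem cf_pd_Om (j : Fin 3) (y : R3) : pd j Om y = -(Om y ^ 2 * y j) := by
  have h := cf_pd_Op 1 j y
  rw [cf_Op_one] at h
  rw [h]
  ring
theorem cf_sum_sig (y : R3) : ∑ i, sig i y ^ 2 = 1 := by
  have h := cf_Om_norm y
  rw [Fin.sum_univ_castSucc]
  simp only [sig_last, sig_cast, Fin.sum_univ_three] at h ⊢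
  linear_combination Om y * h
theorem cf_sig_smooth (i : Fin 4) : ContDiff ℝ ∞ (sig i) := by
  induction i using Fin.lastCases with
  | last => exact funext sig_last ▸ contDiff_const.sub Dyn.Om_smooth
  | cast j => exact funext (sig_cast j) ▸ Dyn.Om_smooth.mul (Dyn.coord_smooth j)

theorem cf_sym_coord (j : Fin 3) : Sym 1 fun y => y j := by
  simpa using (hom_coord j).sym
theorem cf_sym_const (c : ℝ) : Sym 0 fun _ => c := by
  simpa using (hom_const c).sym

theorem ConfA_Op (l : List (Fin 3)) : ∀ (b m : ℝ) (g : Sc), Sym m g →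
    ∃ C, ∀ y, |pds l (fun y => Op b y * g y) y| ≤ C * (1 + ‖y‖) ^ (m - 2 * b - l.length) := by
  induction l using List.reverseRecOn with
  | nil =>
    intro b m g h
    obtain ⟨C, hC⟩ := h.2 []
    refine ⟨max (2 ^ b) (4 ^ b) * |C|, fun y => ?_⟩
    have h0 : (0 : ℝ) < 1 + ‖y‖ := by positivity
    have hn := norm_nonneg y
    have h1 : Op b y ≤ max (2 ^ b) (4 ^ b) * (1 + ‖y‖) ^ (-(2 * b)) := by
      have e : ∀ c : ℝ, 0 < c → c ^ b * (1 + ‖y‖) ^ (-(2 * b)) = (c / (1 + ‖y‖) ^ 2) ^ b := by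
        intro c hc
        rw [Real.div_rpow hc.le (by positivity), Real.rpow_neg h0.le, Real.rpow_mul h0.le,
          Real.rpow_two, div_eq_mul_inv]
      have hp := Real.rpow_pos_of_pos h0 (-(2 * b))
      rcases le_total 0 b with hb | hb
      · refine le_trans ?_ (mul_le_mul_of_nonneg_right (le_max_right _ _) hp.le)
        rw [e 4 (by norm_num)]
        refine Real.rpow_le_rpow (Dyn.Om_pos y).le ?_ hb
        unfold Om
        rw [div_le_div_iff₀ (by positivity) (by positivity)]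
        nlinarith [sq_nonneg (‖y‖ - 1)]
      · refine le_trans ?_ (mul_le_mul_of_nonneg_right (le_max_left _ _) hp.le)
        rw [e 2 (by norm_num)]
        refine Real.rpow_le_rpow_of_nonpos (by positivity) ?_ hb
        unfold Om
        rw [div_le_div_iff₀ (by positivity) (by positivity)]
        nlinarith
    have h2 : |g y| ≤ |C| * (1 + ‖y‖) ^ m := by
      have h3 := hC y
      simp only [pds, List.foldr_nil, List.length_nil, Nat.cast_zero, sub_zero] at h3
      exact h3.trans (mul_le_mul_of_nonneg_right (le_abs_self C) (Real.rpow_nonneg h0.le _))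
    simp only [pds, List.foldr_nil, List.length_nil, Nat.cast_zero, sub_zero]
    rw [abs_mul, abs_of_pos (cf_Op_pos b y), show m - 2 * b = -(2 * b) + m by ring,
      Real.rpow_add h0, mul_mul_mul_comm]
    exact mul_le_mul h1 h2 (abs_nonneg _) ((cf_Op_pos b y).le.trans h1)
  | append_singleton l j ih =>
    intro b m g h
    have h1 := ResLoc_cmul (ResLoc_mul (cf_sym_coord j) h) (-b)
    have h2 := ResLoc_pd h j
    obtain ⟨C, hC⟩ := ih (b + 1) _ _ h1
    obtain ⟨D, hD⟩ := ih b _ _ h2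
    refine ⟨C + D, fun y => ?_⟩
    have e : pd j (fun y => Op b y * g y) =
        fun y => Op (b + 1) y * (-b * (y j * g y)) + Op b y * pd j g y := by
      rw [Dyn.pd_mul (cf_Op_smooth b) h.1]
      funext y
      rw [cf_pd_Op, cf_Op_succ]
      ring
    rw [Dyn.pds_append, e, Dyn.pds_add ((cf_Op_smooth _).mul h1.1) ((cf_Op_smooth _).mul h2.1),
      List.length_append, List.length_singleton, add_mul]
    have e1 : m - 2 * b - ((l.length + 1 : ℕ) : ℝ) = 1 + m - 2 * (b + 1) - l.length := by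
      push_cast; ring
    have e2 : 1 + m - 2 * (b + 1) = m - 1 - 2 * b := by ring
    rw [e1]
    exact (abs_add_le _ _).trans (add_le_add (hC y) (e2 ▸ hD y))

theorem sym_Op (b : ℝ) : Sym (-(2 * b)) (Op b) := by
  refine ⟨cf_Op_smooth b, fun l => ?_⟩
  simpa only [mul_one, zero_sub] using ConfA_Op l b 0 _ (cf_sym_const 1)
theorem cf_sym_Om : Sym (-2) Om := by
  simpa only [cf_Op_one, mul_one] using sym_Op 1
theorem cf_sym_cast (j : Fin 3) : Sym (-1) (sig j.castSucc) := by
  have h := ResLoc_mul cf_sym_Om (cf_sym_coord j)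
  rw [funext (sig_cast j)]
  norm_num at h
  exact h
theorem cf_sym_sig (i : Fin 4) : Sym 0 (sig i) := by
  induction i using Fin.lastCases with
  | last =>
    rw [funext sig_last]
    exact ResLoc_sub (cf_sym_const 1) (ResLoc_mono cf_sym_Om (by norm_num))
  | cast j => exact ResLoc_mono (cf_sym_cast j) (by norm_num)

theorem ev_poly (p : MvPolynomial (Fin 4) ℝ) : PolyF p.totalDegree (ev p) := ⟨p, le_rfl, rfl⟩
theorem ev_C (c : ℝ) : ev (MvPolynomial.C c) = fun _ => c := by
  funext y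
  simp [ev]
theorem ev_add (p q : MvPolynomial (Fin 4) ℝ) : ev (p + q) = fun y => ev p y + ev q y := by
  funext y
  simp [ev]
theorem ev_mul (p q : MvPolynomial (Fin 4) ℝ) : ev (p * q) = fun y => ev p y * ev q y := by
  funext y
  simp [ev]
theorem ev_X (i : Fin 4) : ev (MvPolynomial.X i) = sig i := by
  funext y
  simp [ev]
theorem ev_sym (p : MvPolynomial (Fin 4) ℝ) : Sym 0 (ev p) := by
  induction p using MvPolynomial.induction_on with
  | C c => exact ev_C c ▸ cf_sym_const c
  | add p q hp hq => exact ev_add p q ▸ ResLoc_add hp hq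
  | mul_X p i hp =>
    rw [ev_mul, ev_X]
    simpa only [add_zero] using ResLoc_mul hp (cf_sym_sig i)
theorem ev_smooth (p : MvPolynomial (Fin 4) ℝ) : ContDiff ℝ ∞ (ev p) := (ev_sym p).1
theorem PolyF.smooth (h : PolyF k f) : ContDiff ℝ ∞ f := by
  obtain ⟨p, -, rfl⟩ := h
  exact ev_smooth p
theorem PolyF.sym (h : PolyF k f) : Sym 0 f := by
  obtain ⟨p, -, rfl⟩ := h
  exact ev_sym p
/-- A polynomial tends to its value at the pole at the rate `1 / |y|`. -/
theorem PolyF.sub_const (h : PolyF k f) : ∃ c : ℝ, Sym (-1) fun y => f y - c := by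
  obtain ⟨p, -, rfl⟩ := h
  change ∃ c : ℝ, Sym (-1) fun y => ev p y - c
  induction p using MvPolynomial.induction_on with
  | C c => exact ⟨c, by simpa only [ev_C, sub_self] using ResLoc_zero (-1)⟩
  | add p q hp hq =>
    obtain ⟨c, hc⟩ := hp
    obtain ⟨d, hd⟩ := hq
    exact ⟨c + d, by simpa only [ev_add, add_sub_add_comm] using ResLoc_add hc hd⟩
  | mul_X p i hp =>
    obtain ⟨c, hc⟩ := hp
    rw [ev_mul, ev_X]
    induction i using Fin.lastCases with
    | last =>
      refine ⟨c, ?_⟩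
      have h1 := ResLoc_sub hc (ResLoc_mono (ResLoc_mul (ev_sym p) cf_sym_Om) (by norm_num))
      convert h1 using 2 with y
      simp only [sig_last]
      ring
    | cast j => exact ⟨0, by simpa only [sub_zero, zero_add] using ResLoc_mul (ev_sym p) (cf_sym_cast j)⟩
theorem PolyF.sym_pd (h : PolyF k f) (j : Fin 3) : Sym (-2) (pd j f) := by
  obtain ⟨c, hc⟩ := h.sub_const
  have h1 := ResLoc_pd hc j
  rw [Dyn.pd_sub h.smooth contDiff_const, Dyn.pd_const] at h1
  norm_num at h1
  exact h1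

theorem PolyF.mono (h : PolyF k f) (hk : k ≤ n) : PolyF n f := by
  obtain ⟨p, hp, e⟩ := h
  exact ⟨p, hp.trans hk, e⟩
theorem polyF_const (k : ℕ) (c : ℝ) : PolyF k fun _ => c := 
  ⟨MvPolynomial.C c, by simp, by simp⟩
theorem PolyF.add (h : PolyF k f) (h' : PolyF k g) : PolyF k fun y => f y + g y := by
  obtain ⟨p, hp, rfl⟩ := h
  obtain ⟨q, hq, rfl⟩ := h'
  exact ⟨p + q, (MvPolynomial.totalDegree_add p q).trans (max_le hp hq), by simp⟩
theorem PolyF.mul (h : PolyF k f) (h' : PolyF n g) : PolyF (k + n) fun y => f y * g y := by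
  obtain ⟨p, hp, rfl⟩ := h
  obtain ⟨q, hq, rfl⟩ := h'
  exact ⟨p * q, (MvPolynomial.totalDegree_mul p q).trans (add_le_add hp hq), by simp⟩
theorem PolyF.cmul (h : PolyF k f) (c : ℝ) : PolyF k fun y => c * f y := by
  simpa only [zero_add] using (polyF_const 0 c).mul h
theorem PolyF.sub (h : PolyF k f) (h' : PolyF k g) : PolyF k fun y => f y - g y := by
  simpa only [neg_one_mul, sub_eq_add_neg] using h.add (h'.cmul (-1))
theorem PolyF.sum (s : Finset ι) {F : ι → Sc} (h : ∀ i ∈ s, PolyF k (F i)) :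
    PolyF k fun y => ∑ i ∈ s, F i y := by
  classical
  induction s using Finset.induction_on with
  | empty => simpa using polyF_const k 0
  | insert a s ha ih =>
    simp only [Finset.sum_insert ha]
    exact (h a (Finset.mem_insert_self a s)).add (ih fun i hi => h i (Finset.mem_insert_of_mem hi))
theorem polyF_sig (i : Fin 4) : PolyF 1 (sig i) := ⟨MvPolynomial.X i, by simp, by simp⟩
theorem polyF_Om : PolyF 1 Om := by
  have h := (polyF_const 1 1).sub (polyF_sig (Fin.last 3))
  simpa only [sig_last, sub_sub_cancel] using h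
theorem PolyF.sig_mul (h : PolyF k f) (i : Fin 4) : PolyF (k + 1) fun y => sig i y * f y := by
  simpa only [add_comm 1 k] using (polyF_sig i).mul h
theorem PolyF.zero_const (h : PolyF 0 f) : ∃ c : ℝ, f = fun _ => c := by
  obtain ⟨p, hp, rfl⟩ := h
  rw [MvPolynomial.totalDegree_eq_zero_iff_eq_C.1 (Nat.le_zero.1 hp)]
  exact ⟨_, ev_C _⟩

theorem Sym.cb (h : Sym 0 f) : Cb f := 
  ⟨h.1, h.bd, fun j => (ResLoc_pd h j).bd.mono (by norm_num)⟩
theorem Hinf.cb (h : Hinf f) : Cb f := ⟨h.1, h.bd, fun j => (h.pd j).bd⟩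
theorem Cb.mul (h : Cb f) (h' : Cb g) : Cb fun y => f y * g y := by
  refine ⟨h.1.mul h'.1, by simpa only [add_zero] using h.2.1.mul h'.2.1, fun j => ?_⟩
  rw [Dyn.pd_mul h.1 h'.1]
  simpa only [add_zero] using ((h.2.2 j).mul h'.2.1).add (h.2.1.mul (h'.2.2 j))

theorem Perp.succ {b : ℝ} (h : Perp b (n + 1) f) : Perp (b + 1) n f := by
  intro j hj g hg
  have h1 := h (1 + j) (by omega) _ (polyF_Om.mul hg)
  simpa only [cf_Op_succ, mul_assoc] using h1

end Pool.Agent.Work.MP_6bf1e5_an.H
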