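import Pool.Agent.Work.MP_6bf1e5_an.H.ConfA

/-!
Conformal part: derivatives of polynomials on the sphere.
Hints. pd_ev: MvPolynomial.induction_on (C, add, mul_X), Dyn.pd_mul, MvPolynomial.pderiv_mul, pderiv_X.
Xs_sig: Fin.lastCases on both indices, cf_pd_Om, Dyn.pd_coord, cf_Om_norm. Xs_ev from pd_ev (Xs is a linear
combination of the pd j) and Xs_sig. Euler: MvPolynomial.IsHomogeneous.sum_X_mul_pderiv; degree of a derivative:
IsHomogeneous.pderiv. PolyF.split: sum_homogeneousComponent (or induction on k, the component of degree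
k + 1 is split off with homogeneousComponent), HomF.up2 moves a term up by two. The statements on PolyF follow
from PolyF.split and those on HomF. HomF.span: Euler gives (k + 1) A = sum of sig i * ev (pderiv i p); induction
on k for the term i = last. PolyF.span: sig last ^ 2 = 1 - sum over j of sig j ^ 2.
-/

open scoped ContDiff ENNReal FourierTransform Real
open Set MeasureTheory

namespace Pool.Agent.Work.MP_6bf1e5_an.H

variable {k n : ℕ} {f g : Sc}

theorem ConfB_add (p q : MvPolynomial (Fin 4) ℝ) : ev (p + q) = fun y => ev p y + ev q y :=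
  funext fun _ => map_add _ _ _

theorem ConfB_mul (p q : MvPolynomial (Fin 4) ℝ) : ev (p * q) = fun y => ev p y * ev q y :=
  funext fun _ => map_mul _ _ _

theorem ConfB_C (c : ℝ) : ev (MvPolynomial.C c) = fun _ => c :=
  funext fun _ => MvPolynomial.eval_C _

theorem ConfB_zero : ev 0 = fun _ => 0 := funext fun _ => map_zero _

theorem ConfB_X (i : Fin 4) : ev (MvPolynomial.X i) = sig i :=
  funext fun _ => MvPolynomial.eval_X _

theorem ConfB_lin (i : Fin 4) (y : R3) :
    ∃ a : Fin 3 → ℝ, ∀ f, Xs i f y = ∑ j, a j * pd j f y := by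
  induction i using Fin.lastCases with
  | last => exact ⟨fun j => y j, fun f => Xs_last f y⟩
  | cast l =>
    refine ⟨fun j => (if j = l then (Om y)⁻¹ else 0) - y l * y j, fun f => ?_⟩
    rw [Xs_cast]
    simp only [Xd, yd, sub_mul, Finset.sum_sub_distrib, ite_mul, zero_mul, Finset.sum_ite_eq',
      Finset.mem_univ, if_true, Finset.mul_sum, mul_assoc]

theorem ConfB_pd_last (j : Fin 3) (y : R3) : pd j (sig (Fin.last 3)) y = Om y ^ 2 * y j := by
  rw [show sig (Fin.last 3) = fun y => 1 - Om y from funext sig_last,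
    Dyn.pd_sub contDiff_const Dyn.Om_smooth, Dyn.pd_const]
  simp only [cf_pd_Om]
  ring

theorem ConfB_pd_cast (l j : Fin 3) (y : R3) :
    pd j (sig l.castSucc) y = (if l = j then Om y else 0) - Om y ^ 2 * y l * y j := by
  rw [show sig l.castSucc = fun y => Om y * y l from funext (sig_cast l),
    Dyn.pd_mul Dyn.Om_smooth (Dyn.coord_smooth l), Dyn.pd_coord]
  simp only [cf_pd_Om]
  split_ifs <;> ring

theorem ConfB_yd_last (y : R3) : yd (sig (Fin.last 3)) y = Om y * (2 - Om y) := by
  simp only [yd, ConfB_pd_last, ← cf_Om_norm, Fin.sum_univ_three]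
  ring

theorem ConfB_yd_cast (l : Fin 3) (y : R3) :
    yd (sig l.castSucc) y = -(Om y * y l * (1 - Om y)) := by
  have h := cf_Om_norm y
  simp only [yd, ConfB_pd_cast, mul_sub, Finset.sum_sub_distrib, mul_ite, mul_zero,
    Finset.sum_ite_eq, Finset.mem_univ, if_true]
  simp only [Fin.sum_univ_three] at h ⊢
  linear_combination (-(Om y * y l)) * h

theorem ConfB_euler {p : MvPolynomial (Fin 4) ℝ} (h : p.IsHomogeneous k) (y : R3) :
    ∑ m, sig m y * ev (MvPolynomial.pderiv m p) y = k * ev p y := by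
  have e := congrArg (MvPolynomial.eval fun i => sig i y) h.sum_X_mul_pderiv
  simpa only [map_sum, map_mul, MvPolynomial.eval_X, map_nsmul, nsmul_eq_mul, map_natCast, ev]
    using e

theorem pd_ev (p : MvPolynomial (Fin 4) ℝ) (j : Fin 3) (y : R3) :
    pd j (ev p) y = ∑ m, ev (MvPolynomial.pderiv m p) y * pd j (sig m) y := by
  induction p using MvPolynomial.induction_on with
  | C a => simp only [ConfB_C, Dyn.pd_const, MvPolynomial.pderiv_C, ConfB_zero, zero_mul,
      Finset.sum_const_zero]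
  | add p q hp hq =>
    rw [ConfB_add, Dyn.pd_add (ev_smooth p) (ev_smooth q)]
    simp only [hp, hq, map_add, ConfB_add, add_mul, Finset.sum_add_distrib]
  | mul_X p n hp =>
    have e : ∀ m, ev (MvPolynomial.pderiv m (MvPolynomial.X n : MvPolynomial (Fin 4) ℝ)) y
        = if n = m then 1 else 0 := fun m => by
      by_cases hm : n = m
      · subst hm
        simp [ev]
      · simp [ev, hm]
    rw [ConfB_mul, ConfB_X, Dyn.pd_mul (ev_smooth p) (cf_sig_smooth n)]
    simp only [hp, MvPolynomial.pderiv_mul, ConfB_add, ConfB_mul, ConfB_X, e, add_mul,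
      Finset.sum_add_distrib, mul_ite, mul_one, mul_zero, ite_mul, zero_mul, Finset.sum_ite_eq,
      Finset.mem_univ, if_true, Finset.sum_mul]
    congr 1
    exact Finset.sum_congr rfl fun m _ => by ring
theorem Xs_sig (i m : Fin 4) (y : R3) :
    Xs i (sig m) y = (if i = m then 1 else 0) - sig i y * sig m y := by
  have h0 := (Dyn.Om_pos y).ne'
  induction i using Fin.lastCases with
  | last =>
    induction m using Fin.lastCases with
    | last =>
      rw [Xs_last, ConfB_yd_last, sig_last, if_pos rfl]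
      ring
    | cast l =>
      rw [Xs_last, ConfB_yd_cast, sig_last, sig_cast, if_neg (Fin.castSucc_ne_last l).symm]
      ring
  | cast j =>
    induction m using Fin.lastCases with
    | last =>
      rw [Xs_cast, Xd, ConfB_yd_last, ConfB_pd_last, sig_last, sig_cast,
        if_neg (Fin.castSucc_ne_last j)]
      field_simp
      ring
    | cast l =>
      rw [Xs_cast, Xd, ConfB_yd_cast, ConfB_pd_cast, sig_cast, sig_cast]
      by_cases hl : l = j
      · subst hl
        simp only [if_true]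
        field_simp
        ring
      · rw [if_neg hl, if_neg fun e => hl (Fin.castSucc_injective _ e).symm]
        field_simp
        ring
theorem Xs_ev (p : MvPolynomial (Fin 4) ℝ) (i : Fin 4) (y : R3) :
    Xs i (ev p) y = ev (MvPolynomial.pderiv i p) y
      - sig i y * ∑ m, sig m y * ev (MvPolynomial.pderiv m p) y := by
  obtain ⟨a, ha⟩ := ConfB_lin i y
  have e : Xs i (ev p) y = ∑ m, ev (MvPolynomial.pderiv m p) y * Xs i (sig m) y := by
    simp only [ha, pd_ev, Finset.mul_sum]
    rw [Finset.sum_comm]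
    exact Finset.sum_congr rfl fun m _ => Finset.sum_congr rfl fun j _ => by ring
  simp only [e, Xs_sig, mul_sub, Finset.sum_sub_distrib, mul_ite, mul_one, mul_zero,
    Finset.sum_ite_eq, Finset.mem_univ, if_true, Finset.mul_sum]
  congr 1
  exact Finset.sum_congr rfl fun m _ => by ring
/-- The rotation in the plane of the indices `j` and last. -/
theorem rot_ev (p : MvPolynomial (Fin 4) ℝ) (j : Fin 3) (y : R3) :
    pd j (ev p) y - Xd j (ev p) y = sig j.castSucc y * ev (MvPolynomial.pderiv (Fin.last 3) p) y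
      - sig (Fin.last 3) y * ev (MvPolynomial.pderiv j.castSucc p) y := by
  rw [← Xs_cast, pd_ev, Xs_ev, Fin.sum_univ_castSucc (n := 3), Fin.sum_univ_castSucc (n := 3)]
  simp only [ConfB_pd_cast, ConfB_pd_last, sig_cast, sig_last, mul_sub, Finset.sum_sub_distrib,
    mul_ite, mul_zero, Finset.sum_ite_eq', Finset.mem_univ, if_true]
  simp only [Fin.sum_univ_three]
  ring
theorem Xs_hom {p : MvPolynomial (Fin 4) ℝ} (h : p.IsHomogeneous k) (i : Fin 4) (y : R3) :
    Xs i (ev p) y = ev (MvPolynomial.pderiv i p) y - k * (sig i y * ev p y) := by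
  rw [Xs_ev, ConfB_euler h]
  ring

theorem Xs_smooth (h : ContDiff ℝ ∞ f) (i : Fin 4) : ContDiff ℝ ∞ (Xs i f) := by
  induction i using Fin.lastCases with
  | last =>
    rw [show Xs (Fin.last 3) f = yd f from funext (Xs_last f)]
    exact Dyn.yd_smooth h
  | cast j =>
    rw [show Xs j.castSucc f = Xd j f from funext (Xs_cast j f)]
    exact ((Dyn.Om_smooth.inv fun y => (Dyn.Om_pos y).ne').mul (Dyn.pd_smooth h j)).sub
      ((Dyn.coord_smooth j).mul (Dyn.yd_smooth h))
theorem Xs_const (c : ℝ) (i : Fin 4) (y : R3) : Xs i (fun _ => c) y = 0 := by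
  obtain ⟨a, ha⟩ := ConfB_lin i y
  simp only [ha, Dyn.pd_const, mul_zero, Finset.sum_const_zero]
theorem Xs_add (h : ContDiff ℝ ∞ f) (h' : ContDiff ℝ ∞ g) (i : Fin 4) (y : R3) :
    Xs i (fun y => f y + g y) y = Xs i f y + Xs i g y := by
  obtain ⟨a, ha⟩ := ConfB_lin i y
  simp only [ha, Dyn.pd_add h h', mul_add, Finset.sum_add_distrib]
theorem Xs_sub (h : ContDiff ℝ ∞ f) (h' : ContDiff ℝ ∞ g) (i : Fin 4) (y : R3) :
    Xs i (fun y => f y - g y) y = Xs i f y - Xs i g y := by
  obtain ⟨a, ha⟩ := ConfB_lin i y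
  simp only [ha, Dyn.pd_sub h h', mul_sub, Finset.sum_sub_distrib]
theorem Xs_cmul (h : ContDiff ℝ ∞ f) (c : ℝ) (i : Fin 4) (y : R3) :
    Xs i (fun y => c * f y) y = c * Xs i f y := by
  obtain ⟨a, ha⟩ := ConfB_lin i y
  simp only [ha, Dyn.pd_cmul h, Fin.sum_univ_three]
  ring
theorem Xs_mul (h : ContDiff ℝ ∞ f) (h' : ContDiff ℝ ∞ g) (i : Fin 4) (y : R3) :
    Xs i (fun y => f y * g y) y = Xs i f y * g y + f y * Xs i g y := by
  obtain ⟨a, ha⟩ := ConfB_lin i y
  simp only [ha, Dyn.pd_mul h h', Fin.sum_univ_three]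
  ring
theorem sum_sig_Xs (f : Sc) (y : R3) : ∑ i, sig i y * Xs i f y = 0 := by
  have h0 := (Dyn.Om_pos y).ne'
  have h := cf_Om_norm y
  have e : ∀ j, Om y * y j * Xd j f y = y j * pd j f y - Om y * y j ^ 2 * yd f y := fun j => by
    rw [Xd]
    field_simp
  have e2 : yd f y = ∑ j, y j * pd j f y := rfl
  rw [Fin.sum_univ_castSucc (n := 3)]
  simp only [sig_cast, sig_last, Xs_cast, Xs_last, e]
  simp only [Fin.sum_univ_three] at h e2 ⊢
  linear_combination (-yd f y) * h - e2

theorem HomF.poly (h : HomF k f) : PolyF k f := by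
  obtain ⟨p, hp, rfl⟩ := h
  exact ⟨p, hp.totalDegree_le, rfl⟩
theorem homF_zero (k : ℕ) : HomF k fun _ => 0 := by
  exact ⟨0, MvPolynomial.isHomogeneous_zero _ _ k, ConfB_zero.symm⟩
theorem homF_const (c : ℝ) : HomF 0 fun _ => c := by
  exact ⟨MvPolynomial.C c, MvPolynomial.isHomogeneous_C _ c, (ConfB_C c).symm⟩
theorem homF_sig (i : Fin 4) : HomF 1 (sig i) := by
  exact ⟨MvPolynomial.X i, MvPolynomial.isHomogeneous_X _ i, (ConfB_X i).symm⟩
theorem HomF.add (h : HomF k f) (h' : HomF k g) : HomF k fun y => f y + g y := by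
  obtain ⟨p, hp, rfl⟩ := h
  obtain ⟨q, hq, rfl⟩ := h'
  exact ⟨p + q, hp.add hq, (ConfB_add p q).symm⟩
theorem HomF.cmul (h : HomF k f) (c : ℝ) : HomF k fun y => c * f y := by
  obtain ⟨p, hp, rfl⟩ := h
  exact ⟨MvPolynomial.C c * p, hp.C_mul c, by rw [ConfB_mul, ConfB_C]⟩
theorem HomF.mul (h : HomF k f) (h' : HomF n g) : HomF (k + n) fun y => f y * g y := by
  obtain ⟨p, hp, rfl⟩ := h
  obtain ⟨q, hq, rfl⟩ := h'
  exact ⟨p * q, hp.mul hq, (ConfB_mul p q).symm⟩
theorem HomF.up2 (h : HomF k f) : HomF (k + 2) f := by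
  have s := fun i => (homF_sig i).mul (homF_sig i)
  have h2 := h.mul ((((s 0).add (s 1)).add (s 2)).add (s 3))
  have e : f = fun y => f y * (sig 0 y * sig 0 y + sig 1 y * sig 1 y + sig 2 y * sig 2 y
      + sig 3 y * sig 3 y) := funext fun y => by
    have := cf_sum_sig y
    simp only [Fin.sum_univ_four] at this
    linear_combination (-f y) * this
  rw [e]
  exact h2
theorem PolyF.hom_zero (h : PolyF 0 f) : HomF 0 f := by
  obtain ⟨p, hp, rfl⟩ := h
  exact ⟨p, (MvPolynomial.totalDegree_zero_iff_isHomogeneous _).1 (Nat.le_zero.1 hp), rfl⟩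

theorem ConfB_up (h : HomF k f) (t : ℕ) : HomF (k + 2 * t) f := by
  induction t with
  | zero => exact h
  | succ t ih => exact ih.up2
theorem PolyF.split (h : PolyF (k + 1) f) :
    ∃ A B, HomF (k + 1) A ∧ HomF k B ∧ f = fun y => A y + B y := by
  obtain ⟨p, hp, rfl⟩ := h
  change ∃ A B, HomF (k + 1) A ∧ HomF k B ∧ ev p = fun y => A y + B y
  rw [← p.sum_homogeneousComponent]
  refine Finset.sum_induction _
    (fun q => ∃ A B, HomF (k + 1) A ∧ HomF k B ∧ ev q = fun y => A y + B y) ?_ ?_ ?_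
  · rintro a b ⟨A, B, hA, hB, e⟩ ⟨A', B', hA', hB', e'⟩
    refine ⟨_, _, hA.add hA', hB.add hB', ?_⟩
    rw [ConfB_add, e, e']
    funext y
    ring
  · exact ⟨_, _, homF_zero _, homF_zero _, by rw [ConfB_zero]; simp only [add_zero]⟩
  · intro i hi
    have hi' : i ≤ k + 1 := (Nat.lt_succ_iff.1 (Finset.mem_range.1 hi)).trans hp
    have hc : HomF i (ev (MvPolynomial.homogeneousComponent i p)) :=
      ⟨_, MvPolynomial.homogeneousComponent_isHomogeneous i p, rfl⟩
    rcases Nat.even_or_odd' (k + 1 - i) with ⟨t, ht | ht⟩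
    · exact ⟨_, _, (show i + 2 * t = k + 1 by omega) ▸ ConfB_up hc t, homF_zero _,
        by simp only [add_zero]⟩
    · exact ⟨_, _, homF_zero _, (show i + 2 * t = k by omega) ▸ ConfB_up hc t,
        by simp only [zero_add]⟩
theorem HomF.down (h : HomF (k + 1) f) (i : Fin 4) :
    HomF k fun y => Xs i f y + (k + 1) * (sig i y * f y) := by
  obtain ⟨p, hp, rfl⟩ := h
  refine ⟨MvPolynomial.pderiv i p, hp.pderiv, funext fun y => ?_⟩
  rw [Xs_hom hp]
  push_cast
  ring

theorem ConfB_xs (h : HomF k f) (i : Fin 4) :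
    PolyF k fun y => Xs i f y + k * (sig i y * f y) := by
  obtain ⟨p, hp, rfl⟩ := h
  refine PolyF.mono (HomF.poly ⟨MvPolynomial.pderiv i p, hp.pderiv, funext fun y => ?_⟩)
    (Nat.sub_le k 1)
  rw [Xs_hom hp]
  ring

theorem ConfB_rot (h : HomF k f) (j : Fin 3) : PolyF k fun y => pd j f y - Xd j f y := by
  cases k with
  | zero =>
    obtain ⟨c, rfl⟩ := h.poly.zero_const
    simp only [← Xs_cast, Xs_const, Dyn.pd_const]
    exact polyF_const _ _
  | succ k =>
    obtain ⟨p, hp, rfl⟩ := h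
    have hd : ∀ i, PolyF k (ev (MvPolynomial.pderiv i p)) := fun i =>
      HomF.poly ⟨_, hp.pderiv, rfl⟩
    simp only [rot_ev]
    exact ((hd _).sig_mul _).sub ((hd _).sig_mul _)

theorem PolyF.xs_add (h : PolyF k f) (i : Fin 4) :
    PolyF k fun y => Xs i f y + k * (sig i y * f y) := by
  cases k with
  | zero => exact ConfB_xs h.hom_zero i
  | succ k =>
    obtain ⟨A, B, hA, hB, rfl⟩ := h.split
    have h3 := ((ConfB_xs hA i).add ((ConfB_xs hB i).mono (Nat.le_succ k))).add (hB.poly.sig_mul i)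
    convert h3 using 2 with y
    rw [Xs_add hA.poly.smooth hB.poly.smooth]
    push_cast
    ring
theorem PolyF.xs (h : PolyF k f) (i : Fin 4) : PolyF (k + 1) (Xs i f) := by
  have h3 := ((h.xs_add i).mono (Nat.le_succ k)).sub ((h.sig_mul i).cmul k)
  simpa only [add_sub_cancel_right] using h3
theorem PolyF.rot (h : PolyF k f) (j : Fin 3) : PolyF k fun y => pd j f y - Xd j f y := by
  cases k with
  | zero => exact ConfB_rot h.hom_zero j
  | succ k =>
    obtain ⟨A, B, hA, hB, rfl⟩ := h.split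
    have h3 := (ConfB_rot hA j).add ((ConfB_rot hB j).mono (Nat.le_succ k))
    convert h3 using 2 with y
    simp only [← Xs_cast]
    rw [Xs_add hA.poly.smooth hB.poly.smooth, Dyn.pd_add hA.poly.smooth hB.poly.smooth]
    ring
theorem PolyF.pd1 (h : PolyF k f) (j : Fin 3) : PolyF (k + 1) (pd j f) := by
  have h3 := ((h.rot j).mono (Nat.le_succ k)).add (h.xs j.castSucc)
  simpa only [Xs_cast, sub_add_cancel] using h3
theorem PolyF.pd_Op (h : PolyF k f) (b : ℝ) (j : Fin 3) :
    ∃ g, PolyF (k + 1) g ∧ pd j (Op b * f) = Op b * g := by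
  refine ⟨_, (h.pd1 j).sub ((h.sig_mul j.castSucc).cmul b), ?_⟩
  rw [show Op b * f = fun y => Op b y * f y from rfl, Dyn.pd_mul (cf_Op_smooth b) h.smooth]
  funext y
  simp only [cf_pd_Op, sig_cast, Pi.mul_apply]
  ring

theorem HomF.span (h : HomF (k + 1) f) : ∃ (c : ℝ) (q : Fin 3 → Sc), (∀ j, PolyF k (q j)) ∧
    f = fun y => c * sig (Fin.last 3) y ^ (k + 1) + ∑ j : Fin 3, sig j.castSucc y * q j y := by
  induction k generalizing f with
  | zero =>
    obtain ⟨p, hp, rfl⟩ := h
    have hd : ∀ i, PolyF 0 (ev (MvPolynomial.pderiv i p)) := fun i =>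
      HomF.poly ⟨_, hp.pderiv, rfl⟩
    obtain ⟨c, hc⟩ := (hd (Fin.last 3)).zero_const
    refine ⟨c, fun j => ev (MvPolynomial.pderiv j.castSucc p), fun j => hd _, funext fun y => ?_⟩
    have e := ConfB_euler hp y
    rw [Fin.sum_univ_castSucc (n := 3), hc] at e
    simp only [Nat.cast_add, Nat.cast_zero, Nat.cast_one] at e
    linear_combination -e
  | succ k ih =>
    obtain ⟨p, hp, rfl⟩ := h
    have hd : ∀ i, HomF (k + 1) (ev (MvPolynomial.pderiv i p)) := fun i => ⟨_, hp.pderiv, rfl⟩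
    obtain ⟨c, q, hq, hc⟩ := ih (hd (Fin.last 3))
    refine ⟨c / (k + 2), fun j y => 1 / (k + 2) * (ev (MvPolynomial.pderiv j.castSucc p) y
      + sig (Fin.last 3) y * q j y), fun j => ((hd _).poly.add ((hq j).sig_mul _)).cmul _,
      funext fun y => ?_⟩
    have e := ConfB_euler hp y
    rw [Fin.sum_univ_castSucc (n := 3), hc] at e
    simp only [Nat.cast_add, Nat.cast_one] at e
    have hk : (k + 2 : ℝ) ≠ 0 := by positivity
    simp only [Fin.sum_univ_three] at e ⊢
    field_simp
    linear_combination -e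

theorem ConfB_pow (i : Fin 4) (k : ℕ) : PolyF k fun y => sig i y ^ k := by
  induction k with
  | zero => simpa only [pow_zero] using polyF_const 0 1
  | succ k ih => simpa only [pow_succ'] using ih.sig_mul i
theorem PolyF.span (h : PolyF (k + 2) f) : ∃ (g : Sc) (q : Fin 3 → Sc), PolyF (k + 1) g ∧
    (∀ j, PolyF (k + 1) (q j)) ∧
    f = fun y => g y + ∑ j : Fin 3, sig j.castSucc y * q j y := by
  obtain ⟨A, B, hA, hB, rfl⟩ := h.split
  obtain ⟨c, q, hq, rfl⟩ := hA.span
  have hw := ConfB_pow (Fin.last 3) k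
  refine ⟨_, fun j y => q j y - c * (sig j.castSucc y * sig (Fin.last 3) y ^ k),
    hB.poly.add ((hw.mono (Nat.le_succ k)).cmul c),
    fun j => (hq j).sub ((hw.sig_mul _).cmul c), funext fun y => ?_⟩
  have e := cf_sum_sig y
  rw [Fin.sum_univ_castSucc (n := 3)] at e
  simp only [Fin.sum_univ_three] at e ⊢
  linear_combination (c * sig (Fin.last 3) y ^ k) * e

end Pool.Agent.Work.MP_6bf1e5_an.H
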