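import Pool.Agent.Work.MP_6bf1e5_an.H.ConfI

/-!
Conformal part: the polynomials are dense.
Hints. unif_poly: let g vanish for |y| >= R and take d > 0 with Om y < 2 d only for |y| > R. On the compact set
K = closed unit ball of Fin 4 -> real (sup norm; it contains all points sig . y since the sum of squares is one)
let G s = cut (1 - s last) * g (toLp fun j => s j.castSucc / max (1 - s last) d), cut t = min 1 (max 0 (t / d - 1)).
G is continuous and G (sig . y) = g y. Apply
ContinuousMap.exists_mem_subalgebra_near_continuous_of_separatesPoints to the range of MvPolynomial.aeval of the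
coordinate maps in C(K, real). dense_poly: MemLp.exists_hasCompactSupport_integral_rpow_sub_le (or the eLpNorm
version) for Op (3/2) * u gives g0; apply unif_poly to Op (-3/2) * g0; (a + b) ^ 2 <= 2 a ^ 2 + 2 b ^ 2 and the
integrability of Om ^ 3 (L2S.int for constants).
-/

open scoped ContDiff ENNReal FourierTransform Real
open Set MeasureTheory

namespace Pool.Agent.Work.MP_6bf1e5_an.H

theorem ConfD_sw (G : C(Fin 4 → ℝ, ℝ)) {ε : ℝ} (hε : 0 < ε) :
    ∃ p : MvPolynomial (Fin 4) ℝ, ∀ y, |G (fun i => sig i y) - ev p y| ≤ ε := by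
  let x : Fin 4 → C(Fin 4 → ℝ, ℝ) := fun i => ⟨fun s => s i, continuous_apply i⟩
  have hx : ∀ (p : MvPolynomial (Fin 4) ℝ) (s : Fin 4 → ℝ),
      MvPolynomial.aeval x p s = MvPolynomial.eval s p := fun p s => by
    induction p using MvPolynomial.induction_on with
    | C a => simp
    | add p q hp hq => simp [hp, hq]
    | mul_X p i hp => simp [hp, x]
  have hA : (MvPolynomial.aeval (R := ℝ) x).range.SeparatesPoints := fun s t hst => by
    obtain ⟨i, hi⟩ := Function.ne_iff.1 hst
    exact ⟨x i, ⟨x i, ⟨MvPolynomial.X i, MvPolynomial.aeval_X x i⟩, rfl⟩, hi⟩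
  obtain ⟨_, ⟨p, rfl⟩, hp⟩ :=
    ContinuousMap.exists_mem_subalgebra_near_continuous_of_isCompact_of_separatesPoints hA G
      (isCompact_closedBall 0 1) hε
  refine ⟨p, fun y => ?_⟩
  have h1 : (fun i => sig i y) ∈ Metric.closedBall (0 : Fin 4 → ℝ) 1 := by
    rw [mem_closedBall_zero_iff, pi_norm_le_iff_of_nonneg zero_le_one]
    intro i
    rw [Real.norm_eq_abs, ← sq_le_one_iff_abs_le_one, ← cf_sum_sig y]
    exact Finset.single_le_sum (f := fun i => sig i y ^ 2) (fun _ _ => sq_nonneg _)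
      (Finset.mem_univ i)
  have h2 := hp _ h1
  rw [Real.norm_eq_abs, abs_sub_comm] at h2
  change |G _ - MvPolynomial.aeval x p _| < ε at h2
  rw [hx] at h2
  exact h2.le

theorem unif_poly {g : Sc} (h : Continuous g) (hc : HasCompactSupport g) {ε : ℝ} (hε : 0 < ε) :
    ∃ k q, PolyF k q ∧ ∀ y, |g y - q y| ≤ ε := by
  obtain ⟨R, hR⟩ := hc.isCompact.isBounded.exists_norm_le
  have hR0 : ∀ y, R < ‖y‖ → g y = 0 := fun y hy =>
    image_eq_zero_of_notMem_tsupport fun h' => (hR y h').not_gt hy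
  obtain ⟨d, hd, hd'⟩ : ∃ d : ℝ, 0 < d ∧ ∀ y, Om y < 2 * d → g y = 0 := by
    refine ⟨1 / (1 + R ^ 2), by positivity, fun y hy => hR0 y ?_⟩
    rw [Om, mul_one_div, div_lt_div_iff_of_pos_left two_pos (by positivity) (by positivity)] at hy
    exact lt_of_pow_lt_pow_left₀ 2 (norm_nonneg y) (by linarith)
  let G : (Fin 4 → ℝ) → ℝ := fun s => min 1 (max 0 ((1 - s (Fin.last 3)) / d - 1)) *
    g (WithLp.toLp 2 fun j : Fin 3 => s j.castSucc / max (1 - s (Fin.last 3)) d)
  have hG : Continuous G := by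
    refine Continuous.mul (by fun_prop) (h.comp ((PiLp.continuous_toLp 2 _).comp
      (continuous_pi fun j => Continuous.div (by fun_prop) (by fun_prop) fun s => ?_)))
    exact (hd.trans_le (le_max_right _ _)).ne'
  have hGs : ∀ y, G (fun i => sig i y) = g y := fun y => by
    simp only [G, sig_last, sig_cast, sub_sub_cancel]
    rcases le_or_gt d (Om y) with h1 | h1
    · have h2 : (WithLp.toLp 2 fun j : Fin 3 => Om y * y j / max (Om y) d) = y := by
        ext j
        rw [max_eq_left h1]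
        exact mul_div_cancel_left₀ _ (hd.trans_le h1).ne'
      rw [h2]
      rcases le_or_gt (2 * d) (Om y) with h3 | h3
      · have h4 : 1 ≤ Om y / d - 1 := by
          rw [le_sub_iff_add_le, le_div_iff₀ hd]
          linarith
        rw [min_eq_left (h4.trans (le_max_right _ _)), one_mul]
      · rw [hd' y h3, mul_zero]
    · have h4 : Om y / d - 1 ≤ 0 := by
        rw [sub_nonpos, div_le_one hd]
        exact h1.le
      rw [max_eq_left h4, min_eq_right zero_le_one, zero_mul, hd' y (by linarith)]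
  obtain ⟨p, hp⟩ := ConfD_sw ⟨G, hG⟩ hε
  exact ⟨_, _, ev_poly p, fun y => hGs y ▸ hp y⟩

theorem dense_poly {u : Sc} (h : L2S u) {ε : ℝ} (hε : 0 < ε) :
    ∃ k q, PolyF k q ∧ ipS (fun y => u y - q y) (fun y => u y - q y) ≤ ε := by
  have h' : MemLp (fun y => Op (3 / 2) y * u y) (ENNReal.ofReal 2) volume := by
    rw [ENNReal.ofReal_ofNat]
    exact h
  obtain ⟨g, hc, hg, hgc, hg2⟩ := h'.exists_hasCompactSupport_integral_rpow_sub_le two_pos
    (ε := ε / 4) (by positivity)
  rw [ENNReal.ofReal_ofNat] at hg2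
  have h1 := (polyF_const 0 1).l2s
  have hI := h1.int h1
  have hI0 := ipS_nonneg fun _ => 1
  set I := ipS (fun _ => 1) fun _ => 1 with hIdef
  obtain ⟨k, q, hq, hq'⟩ := unif_poly (g := fun y => Op (-(3 / 2)) y * g y)
    ((cf_Op_smooth _).continuous.mul hgc) hc.mul_left
    (ε := √(ε / (4 * (I + 1)))) (by positivity)
  refine ⟨k, q, hq, ?_⟩
  have h2 : Integrable fun y => (Op (3 / 2) y * u y - g y) ^ 2 := (MemLp.sub h hg2).integrable_sq
  have h3 : ∫ y, (Op (3 / 2) y * u y - g y) ^ 2 ≤ ε / 4 := by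
    simpa only [Real.rpow_two, Real.norm_eq_abs, sq_abs] using hg
  have h4 : ipS (fun y => u y - q y) (fun y => u y - q y) ≤
      ∫ y, (2 * (Op (3 / 2) y * u y - g y) ^ 2 + 2 * (ε / (4 * (I + 1))) * (Om y ^ 3 * (1 * 1))) := by
    refine integral_mono ((h.sub hq.l2s).int (h.sub hq.l2s)) ((h2.const_mul 2).add (hI.const_mul _))
      fun y => ?_
    have e1 : Op (3 / 2) y * Op (3 / 2) y = Om y ^ 3 := by
      rw [← cf_Op_add, ← cf_Op_nat]
      norm_num
    have e2 : Op (3 / 2) y * Op (-(3 / 2)) y = 1 := by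
      rw [← cf_Op_add, add_neg_cancel, cf_Op_zero]
    have e3 : (Op (-(3 / 2)) y * g y - q y) ^ 2 ≤ ε / (4 * (I + 1)) := by
      rw [← sq_abs, ← Real.sq_sqrt (x := ε / (4 * (I + 1))) (by positivity)]
      exact pow_le_pow_left₀ (abs_nonneg _) (hq' y) 2
    have e4 : Op (3 / 2) y * (u y - q y) =
        (Op (3 / 2) y * u y - g y) + Op (3 / 2) y * (Op (-(3 / 2)) y * g y - q y) := by
      rw [mul_sub (Op (3 / 2) y) (_ * _), ← mul_assoc, e2]
      ring
    have e5 := mul_le_mul_of_nonneg_left e3 (mul_self_nonneg (Op (3 / 2) y))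
    have e6 : Om y ^ 3 * ((u y - q y) * (u y - q y)) = (Op (3 / 2) y * (u y - q y)) ^ 2 := by
      rw [← e1]
      ring
    change Om y ^ 3 * ((u y - q y) * (u y - q y)) ≤ _
    rw [e6, e4, ← e1]
    nlinarith [sq_nonneg ((Op (3 / 2) y * u y - g y) -
      Op (3 / 2) y * (Op (-(3 / 2)) y * g y - q y))]
  rw [integral_add (h2.const_mul 2) (hI.const_mul _), integral_const_mul, integral_const_mul] at h4
  have h5 : 2 * (ε / (4 * (I + 1))) * I ≤ ε / 2 := by
    rw [show 2 * (ε / (4 * (I + 1))) * I = ε / 2 * (I / (I + 1)) by field_simp; ring]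
    exact mul_le_of_le_one_right (by positivity) ((div_le_one (by positivity)).2 (by linarith))
  have h6 : (∫ y, Om y ^ 3 * ((1 : ℝ) * 1)) = I := rfl
  rw [h6] at h4
  linarith

end Pool.Agent.Work.MP_6bf1e5_an.H
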