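import Pool.Agent.Work.MP_6bf1e5_an.H.ConfP

/-!
Conformal part: the Laplacian of the sphere.
Hints. DD_pt: Dyn.pd_mul, cf_pd_Om. DD_eq: with w = Om inverse = (1 + |y|^2) / 2, pd j w = y j, yd w = |y|^2,
Dyn.pd_yd; the sum over j of Xd j (Xd j f) is w^2 lap f - w yd f - yd (yd f). DD_hom: DD_eq, Xs_hom twice, Xs_mul,
Xs_sig, sum_sig_Xs, Euler. PolyF.dd_sub: split and DD_hom (degree of the second derivatives is k - 1 or less).
dir_DD: int_pd_zero for f * Om * pd j g, which is Bd (-4) by PolyF.sym_pd. HF.dd: DD Y - m Y has degree < k and is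
orthogonal to degree < k by the symmetry (dir_DD twice) since DD keeps the degree. of_eig: HF.of_orth_hf, symmetry,
k (k + 2) is injective. dir_gap: 0 <= dirS (phi - S) (phi - S) for the finite sums S of the expansion of phi,
dirS phi (Y k) = k (k + 2) ipS (Y k) (Y k), Y k = 0 for k < n, Gr.tendsto.
-/

open scoped ContDiff ENNReal FourierTransform Real
open Set MeasureTheory

namespace Pool.Agent.Work.MP_6bf1e5_an.H

variable {k n : ℕ} {f g Y φ : Sc}

theorem DD_pt (h : ContDiff ℝ ∞ f) (y : R3) :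
    DD f y = -((Om y)⁻¹ ^ 2 * lap f y) + (Om y)⁻¹ * yd f y := by
    have h0 := (Dyn.Om_pos y).ne'
    simp only [DD, Dyn.pd_mul Dyn.Om_smooth (Dyn.pd_smooth h _), cf_pd_Om, lap, yd,
      Fin.sum_univ_three]
    field_simp
    ring
theorem ConfE_inv : (fun y => (Om y)⁻¹) = Op (-1) := funext fun _ => (Real.rpow_neg_one _).symm

theorem ConfE_pd_Xd (h : ContDiff ℝ ∞ f) (j m : Fin 3) (y : R3) :
    pd m (Xd j f) y = y m * pd j f y + (Om y)⁻¹ * pd m (pd j f) y -
      ((if j = m then 1 else 0) * yd f y + y j * (pd m f y + yd (pd m f) y)) := by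
  have h1 : ContDiff ℝ ∞ fun y => (Om y)⁻¹ := ConfE_inv ▸ cf_Op_smooth (-1)
  have h2 : pd m (fun y => (Om y)⁻¹) y = y m := by
    rw [ConfE_inv, cf_pd_Op, Op, Real.rpow_neg_one, neg_one_mul, neg_mul, neg_mul, neg_neg,
      inv_mul_cancel₀ (Dyn.Om_pos y).ne', one_mul]
  unfold Xd
  rw [Dyn.pd_sub (h1.mul (Dyn.pd_smooth h j)) ((Dyn.coord_smooth j).mul (Dyn.yd_smooth h)),
    Dyn.pd_mul h1 (Dyn.pd_smooth h j), Dyn.pd_mul (Dyn.coord_smooth j) (Dyn.yd_smooth h),
    Dyn.pd_coord, Dyn.pd_yd h]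
  simp only [h2]

theorem DD_eq (h : ContDiff ℝ ∞ f) (y : R3) : DD f y = -∑ i, Xs i (Xs i f) y := by
    have h1 : (Om y)⁻¹ = (1 + ∑ j, y j ^ 2) / 2 := by rw [← cf_norm_sq, Om, inv_div]
    have h2 : ∀ j, Xd j (Xd j f) y = (Om y)⁻¹ * pd j (Xd j f) y - y j * ∑ m, y m * pd m (Xd j f) y :=
      fun j => rfl
    have h3 : yd (yd f) y = ∑ m, y m * pd m (yd f) y := rfl
    rw [DD_pt h, Fin.sum_univ_castSucc, Xs_last, funext (Xs_last f), h3]
    simp only [Xs_cast, funext (Xs_cast _ f), h2, ConfE_pd_Xd h, Dyn.pd_yd h]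
    simp only [h1, lap, yd, Fin.sum_univ_three, Dyn.pd_comm h 1 0, Dyn.pd_comm h 2 0,
      Dyn.pd_comm h 2 1, Fin.reduceEq, if_true, if_false]
    ring
theorem DD_add (h : ContDiff ℝ ∞ f) (h' : ContDiff ℝ ∞ g) (y : R3) :
    DD (fun y => f y + g y) y = DD f y + DD g y := by
    simp only [DD_eq (h.add h'), DD_eq h, DD_eq h', funext (Xs_add h h' _),
      Xs_add (Xs_smooth h _) (Xs_smooth h' _), Finset.sum_add_distrib, neg_add]
theorem DD_sub (h : ContDiff ℝ ∞ f) (h' : ContDiff ℝ ∞ g) (y : R3) :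
    DD (fun y => f y - g y) y = DD f y - DD g y := by
    simp only [DD_eq (h.sub h'), DD_eq h, DD_eq h', funext (Xs_sub h h' _),
      Xs_sub (Xs_smooth h _) (Xs_smooth h' _), Finset.sum_sub_distrib]
    ring
theorem DD_hom {p : MvPolynomial (Fin 4) ℝ} (h : p.IsHomogeneous k) (y : R3) :
    DD (ev p) y = k * (k + 2) * ev p y
      - ∑ i, ev (MvPolynomial.pderiv i (MvPolynomial.pderiv i p)) y := by
    have h1 := sum_sig_Xs (ev p) y
    have h2 := cf_sum_sig y
    have h3 : ((k - 1 : ℕ) : ℝ) * k = (k - 1) * k := by cases k <;> simp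
    have h4 : ∀ i, Xs i (Xs i (ev p)) y =
        ev (MvPolynomial.pderiv i (MvPolynomial.pderiv i p)) y -
          ((k - 1 : ℕ) : ℝ) * (sig i y * ev (MvPolynomial.pderiv i p) y) -
          k * ((1 - sig i y * sig i y) * ev p y + sig i y * Xs i (ev p) y) := by
      intro i
      conv_lhs => rw [funext (Xs_hom h i)]
      rw [Xs_sub (ev_smooth _) (contDiff_const.mul ((cf_sig_smooth i).mul (ev_smooth _))),
        Xs_cmul ((cf_sig_smooth i).mul (ev_smooth _)), Xs_mul (cf_sig_smooth i) (ev_smooth _),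
        Xs_hom (h.pderiv (i := i)), Xs_sig, if_pos rfl]
    have h5 := h1
    simp only [Xs_hom h] at h5
    rw [DD_eq (ev_smooth p)]
    simp only [h4, Fin.sum_univ_four] at h1 h2 h5 ⊢
    linear_combination k * h1 + ((k - 1 : ℕ) : ℝ) * h5 +
      (((k - 1 : ℕ) : ℝ) * k * ev p y - k * ev p y) * h2 + ev p y * h3
theorem ConfE_hom (h : HomF k f) : PolyF (k - 1) fun y => DD f y - k * (k + 2) * f y := by
  obtain ⟨p, hp, rfl⟩ := h
  have h1 := (PolyF.sum Finset.univ fun i _ => (HomF.poly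
    ⟨_, (hp.pderiv (i := i)).pderiv (i := i), rfl⟩).mono (Nat.sub_le _ 1)).cmul (-1)
  convert h1 using 2 with y
  rw [DD_hom hp]
  ring

theorem PolyF.dd_sub (h : PolyF (k + 1) f) :
    PolyF k fun y => DD f y - (k + 1) * (k + 3) * f y := by
    obtain ⟨A, B, hA, hB, rfl⟩ := h.split
    have h1 := ((ConfE_hom hA).add ((ConfE_hom hB).mono (Nat.sub_le k 1))).sub
      (hB.poly.cmul (2 * k + 3))
    convert h1 using 2 with y
    · rfl
    rw [DD_add hA.poly.smooth hB.poly.smooth]
    push_cast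
    ring
theorem PolyF.dd (h : PolyF k f) : PolyF k (DD f) := by
    cases k with
    | zero => simpa using ConfE_hom h.hom_zero
    | succ k => simpa using (h.dd_sub.mono k.le_succ).add (h.cmul ((k + 1) * (k + 3)))
theorem dir_DD (h : Cb f) (hg : PolyF k g) : dirS f g = ipS f (DD g) := by
    have hG := fun j => ResLoc_mul cf_sym_Om (hg.sym_pd j)
    have h1 : ∀ j, Integrable fun y => pd j f y * (Om y * pd j g y) := fun j =>
      ((h.2.2 j).mul (hG j).bd).integrable (by norm_num)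
    have h2 : ∀ j, Integrable fun y => f y * pd j (fun y => Om y * pd j g y) y := fun j =>
      (h.2.1.mul (ResLoc_pd (hG j) j).bd).integrable (by norm_num)
    have h3 : ∀ j, ∫ y, pd j f y * (Om y * pd j g y) =
        ∫ y, -(f y * pd j (fun y => Om y * pd j g y) y) := by
      intro j
      have h4 := int_pd_zero (h.1.mul (hG j).1) j ((h.2.1.mul (hG j).bd).integrable (by norm_num))
        (by rw [Dyn.pd_mul h.1 (hG j).1]; exact (h1 j).add (h2 j))
      rw [Dyn.pd_mul h.1 (hG j).1, integral_add (h1 j) (h2 j)] at h4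
      rw [integral_neg]
      exact eq_neg_of_add_eq_zero_left h4
    calc dirS f g = ∫ y, ∑ j, pd j f y * (Om y * pd j g y) := by
          simp only [dirS, Finset.mul_sum, mul_left_comm]
      _ = ∫ y, ∑ j, -(f y * pd j (fun y => Om y * pd j g y) y) := by
          rw [integral_finsetSum _ fun j _ => h1 j]
          exact (Finset.sum_congr rfl fun j _ => h3 j).trans
            (integral_finsetSum _ fun j _ => (h2 j).neg).symm
      _ = ipS f (DD g) := by
          refine integral_congr_ae (Filter.Eventually.of_forall fun y => ?_)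
          have h0 := (Dyn.Om_pos y).ne'
          simp only [DD, Fin.sum_univ_three]
          field_simp
          ring
theorem ConfE_comm (f g : Sc) : dirS f g = dirS g f := by
  simp only [dirS, mul_comm (pd _ f _)]

theorem ConfE_symm (h : PolyF k f) (hg : PolyF n g) : ipS g (DD f) = ipS f (DD g) := by
  rw [← dir_DD hg.sym.cb h, ← dir_DD h.sym.cb hg, ConfE_comm]

theorem HF.dd (h : HF k Y) (y : R3) : DD Y y = k * (k + 2) * Y y := by
    cases k with
    | zero =>
      obtain ⟨c, rfl⟩ := h.1.zero_const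
      simp [DD_eq contDiff_const, funext (Xs_const _ _), Xs_const]
    | succ k =>
      have h1 := h.1.dd_sub
      have h2 := ipS_self_zero h1 (by
        rw [ipS_sub h1.l2s h.1.dd.l2s (h.1.l2s.cmul _), ipS_cmul, ConfE_symm h.1 h1,
          h.orth_poly h1.dd k.lt_succ_self, ipS_comm, h.orth_poly h1 k.lt_succ_self]
        ring)
      have h3 := congrFun h2 y
      push_cast
      linarith
theorem HF.of_eig (h : PolyF k f) (he : ∀ y, DD f y = k * (k + 2) * f y) : HF k f := by
    refine HF.of_orth_hf h fun j hj Z hZ => ?_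
    have h1 := ConfE_symm h hZ.1
    rw [funext he, funext hZ.dd, ipS_cmul, ipS_cmul, ipS_comm] at h1
    have h2 : (j : ℝ) < k := Nat.cast_lt.2 hj
    have h3 : (j : ℝ) * (j + 2) < k * (k + 2) := by gcongr
    exact (mul_eq_mul_right_iff.1 h1).resolve_left h3.ne'
theorem ConfE_sum {Z : ℕ → Sc} (h : ∀ j, HF j (Z j)) (n : ℕ) :
    PolyF n (fun y => ∑ j ∈ Finset.range (n + 1), Z j y) ∧
      DD (fun y => ∑ j ∈ Finset.range (n + 1), Z j y) =
        fun y => ∑ j ∈ Finset.range (n + 1), j * (j + 2) * Z j y := by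
  refine ⟨PolyF.sum _ fun j hj => (h j).1.mono (Nat.le_of_lt_succ (Finset.mem_range.1 hj)),
    funext fun y => ?_⟩
  induction n with
  | zero => simpa using (h 0).dd y
  | succ n ih =>
    simp only [Finset.sum_range_succ _ (n + 1)]
    rw [DD_add (ContDiff.sum fun j _ => (h j).1.smooth) (h _).1.smooth, ih, (h _).dd]

theorem ConfE_le (h : Hinf φ) (hg : PolyF k g) : 2 * dirS φ g - dirS g g ≤ dirS φ φ := by
  have h1 : Integrable fun y => Om y * ∑ j, pd j φ y * pd j g y :=
    (cf_sym_Om.bd.mul (Bd.sum _ fun j _ => (h.pd j).bd.mul (hg.sym_pd j).bd)).integrable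
      (by norm_num)
  have h2 : Integrable fun y => Om y * ∑ j, pd j g y * pd j g y :=
    (cf_sym_Om.bd.mul (Bd.sum _ fun j _ => (hg.sym_pd j).bd.mul (hg.sym_pd j).bd)).integrable
      (by norm_num)
  have h3 : Integrable fun y => Om y * ∑ j, pd j φ y * pd j φ y := by
    simp only [Finset.mul_sum]
    exact integrable_finsetSum _ fun j _ => Dyn.int_wmul Dyn.Om_smooth.continuous
      (fun y => (abs_of_pos (Dyn.Om_pos y)).trans_le (Dyn.Om_le y)) (h.pd j) (h.pd j)
  unfold dirS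
  rw [← integral_const_mul, ← integral_sub (h1.const_mul 2) h2]
  refine integral_mono ((h1.const_mul 2).sub h2) h3 fun y => ?_
  have h4 : 0 ≤ Om y * ∑ j, (pd j φ y - pd j g y) ^ 2 :=
    mul_nonneg (Dyn.Om_pos y).le (Finset.sum_nonneg fun j _ => sq_nonneg _)
  simp only [Fin.sum_univ_three] at h4 ⊢
  linarith

theorem dir_gap (h : Hinf φ) (hp : ∀ j < n, ∀ g, PolyF j g → ipS φ g = 0) :
    n * (n + 2) * ipS φ φ ≤ dirS φ φ := by
    have hl : L2S φ := h.bd.l2s (by norm_num)
    obtain ⟨Z, hZ⟩ := exists_gr hl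
    refine le_of_tendsto' (((hZ.tendsto hl).comp (Filter.tendsto_add_atTop_nat 1)).const_mul _)
      fun N => ?_
    obtain ⟨h1, h2⟩ := ConfE_sum (fun j => (hZ j).1) N
    have h3 := ConfE_le h h1
    rw [dir_DD h1.sym.cb h1, ← hZ.perp hl h1.dd N.lt_succ_self, dir_DD h.cb h1, h2,
      ipS_sum hl _ fun j _ => (hZ j).1.1.l2s.cmul _] at h3
    refine le_trans ?_ (le_trans (le_of_eq (by ring)) h3)
    rw [Function.comp_apply, Finset.mul_sum]
    refine Finset.sum_le_sum fun j _ => ?_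
    rw [ipS_cmul, ← (hZ j).2 _ (hZ j).1]
    rcases lt_or_ge j n with hj | hj
    · rw [hp j hj _ (hZ j).1.1, mul_zero, mul_zero]
    · rw [(hZ j).2 _ (hZ j).1]
      have h4 : (n : ℝ) ≤ j := Nat.cast_le.2 hj
      have h5 := ipS_nonneg (Z j)
      gcongr

end Pool.Agent.Work.MP_6bf1e5_an.H
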