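import Pool.Agent.Work.MP_6bf1e5_an.H.ResDefs

/-! One-dimensional integrals for the kernels `kap`. -/

open scoped ContDiff ENNReal FourierTransform Real
open Set MeasureTheory

namespace Pool.Agent.Work.MP_6bf1e5_an.H

variable {a D b b' s r : ℝ}

theorem ResGam_int {x c : ℝ} (hx : 0 < x) (hc : 0 < c) :
    IntegrableOn (fun t : ℝ => t ^ (x - 1) * Real.exp (-(c * t))) (Ioi 0) := by
  have h := integrableOn_rpow_mul_exp_neg_mul_rpow (s := x - 1) (p := 1) (b := c) (by linarith)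
    one_pos hc
  simpa using h

theorem ResGam_lint {x c k : ℝ} (hx : 0 < x) (hc : 0 < c) (hk : 0 ≤ k) :
    ∫⁻ t in Ioi (0 : ℝ), ENNReal.ofReal (k * (t ^ (x - 1) * Real.exp (-(c * t)))) =
      ENNReal.ofReal (k * (c ^ (-x) * Real.Gamma x)) := by
  rw [← ofReal_integral_eq_lintegral_ofReal ((ResGam_int hx hc).const_mul k), integral_const_mul,
    Real.integral_rpow_mul_exp_neg_mul_Ioi hx hc, one_div, Real.inv_rpow hc.le,
    Real.rpow_neg hc.le]
  filter_upwards [ae_restrict_mem measurableSet_Ioi] with t ht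
  have ht' : 0 < t := ht
  positivity

theorem ResGam_bound (a : ℝ) (hr : 0 < r) (D b : ℝ) : ∃ C p : ℝ, 1 < p ∧ ∀ t : ℝ, 0 < t →
    t ^ (b - 1) * Real.exp (-(t / a)) * (π / t) ^ D * Real.exp (-(π ^ 2 * r ^ 2 / t)) ≤
      C * (t ^ (p - 1) * Real.exp (-(a⁻¹ * t))) := by
  obtain ⟨n, hn⟩ := exists_nat_gt (1 + D - b)
  have hc : 0 < π ^ 2 * r ^ 2 := by positivity
  generalize π ^ 2 * r ^ 2 = c at hc
  refine ⟨π ^ D * (n.factorial / c ^ n), b - D + n, by linarith, fun t ht => ?_⟩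
  have h1 : Real.exp (-(c / t)) ≤ n.factorial / c ^ n * t ^ n := by
    have h := Real.pow_div_factorial_le_exp (c / t) (by positivity) n
    have hp : 0 < (c / t) ^ n / n.factorial := by positivity
    rw [Real.exp_neg]
    refine (inv_anti₀ hp h).trans (le_of_eq ?_)
    rw [div_pow]
    field_simp
  have h2 : t ^ (b - D + n - 1) = t ^ (b - 1) * (t ^ D)⁻¹ * t ^ n := by
    rw [← Real.rpow_neg ht.le, ← Real.rpow_natCast, ← Real.rpow_add ht, ← Real.rpow_add ht]
    congr 1; ring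
  rw [Real.div_rpow Real.pi_pos.le ht.le, h2, show a⁻¹ * t = t / a by ring]
  calc _ ≤ t ^ (b - 1) * Real.exp (-(t / a)) * (π ^ D / t ^ D) * (n.factorial / c ^ n * t ^ n) :=
        mul_le_mul_of_nonneg_left h1 (by positivity)
    _ = _ := by ring

theorem kap_integrable (ha : 0 < a) (hr : 0 < r) (D b : ℝ) : IntegrableOn (fun t : ℝ =>
    t ^ (b - 1) * Real.exp (-(t / a)) * (π / t) ^ D * Real.exp (-(π ^ 2 * r ^ 2 / t))) (Ioi 0) := by
  obtain ⟨C, p, hp, h⟩ := ResGam_bound a hr D b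
  refine Integrable.mono' ((ResGam_int (x := p) (by linarith) (inv_pos.2 ha)).const_mul C)
    (Measurable.aestronglyMeasurable (by fun_prop)) ?_
  filter_upwards [ae_restrict_mem measurableSet_Ioi] with t ht
  have ht' : 0 < t := ht
  rw [Real.norm_of_nonneg (by positivity)]
  exact h t ht'

theorem kap_nonneg (ha : 0 < a) (hb : 0 < b) (D r : ℝ) : 0 ≤ kap a D b r := by
  have hG := Real.Gamma_pos_of_pos hb
  refine mul_nonneg (by positivity) (setIntegral_nonneg measurableSet_Ioi fun t ht => ?_)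
  have ht' : 0 < t := ht
  positivity

theorem kap_measurable (a D b : ℝ) : Measurable (kap a D b) := by
  have h : StronglyMeasurable (Function.uncurry fun r t : ℝ =>
      t ^ (b - 1) * Real.exp (-(t / a)) * (π / t) ^ D * Real.exp (-(π ^ 2 * r ^ 2 / t))) :=
    Measurable.stronglyMeasurable (by unfold Function.uncurry; fun_prop)
  exact (h.integral_prod_right (ν := volume.restrict (Ioi 0))).measurable.const_mul _

theorem ResGam_ibp (ha : 0 < a) (hb : 0 < b) (hr : 0 < r) (D : ℝ) :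
    (b + 1 - D) * (∫ t in Ioi (0 : ℝ), t ^ (b + 1 - 1) * Real.exp (-(t / a)) * (π / t) ^ D *
      Real.exp (-(π ^ 2 * r ^ 2 / t)))
    - a⁻¹ * (∫ t in Ioi (0 : ℝ), t ^ (b + 2 - 1) * Real.exp (-(t / a)) * (π / t) ^ D *
      Real.exp (-(π ^ 2 * r ^ 2 / t)))
    + π ^ 2 * r ^ 2 * (∫ t in Ioi (0 : ℝ), t ^ (b - 1) * Real.exp (-(t / a)) * (π / t) ^ D *
      Real.exp (-(π ^ 2 * r ^ 2 / t))) = 0 := by
  have i0 := kap_integrable ha hr D b
  have i1 := kap_integrable ha hr D (b + 1)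
  have i2 := kap_integrable ha hr D (b + 2)
  obtain ⟨C, p, hp, hC⟩ := ResGam_bound a hr D (b + 2)
  generalize π ^ 2 * r ^ 2 = c at *
  have i3 := ((i1.const_mul (b + 1 - D)).sub (i2.const_mul a⁻¹)).add (i0.const_mul c)
  have hd : ∀ t ∈ Ioi (0 : ℝ), HasDerivAt (fun t : ℝ =>
      t ^ (b + 2 - 1) * Real.exp (-(t / a)) * (π / t) ^ D * Real.exp (-(c / t)))
      ((b + 1 - D) * (t ^ (b + 1 - 1) * Real.exp (-(t / a)) * (π / t) ^ D * Real.exp (-(c / t)))
        - a⁻¹ * (t ^ (b + 2 - 1) * Real.exp (-(t / a)) * (π / t) ^ D * Real.exp (-(c / t)))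
        + c * (t ^ (b - 1) * Real.exp (-(t / a)) * (π / t) ^ D * Real.exp (-(c / t)))) t := by
    intro t ht
    have ht' : 0 < t := ht
    have d1 := Real.hasDerivAt_rpow_const (x := t) (p := b + 2 - 1) (Or.inl ht'.ne')
    have d2 := ((hasDerivAt_id' t).div_const a).neg.exp
    have d3 := ((hasDerivAt_inv ht'.ne').const_mul π).rpow_const (p := D)
      (Or.inl (by positivity))
    have d4 := ((hasDerivAt_inv ht'.ne').const_mul c).neg.exp
    have d := ((d1.fun_mul d2).fun_mul d3).fun_mul d4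
    have e1 : t ^ (b + 2 - 1) = t ^ (b - 1) * t ^ 2 := by
      rw [← Real.rpow_natCast, ← Real.rpow_add ht']; congr 1; push_cast; ring
    have e2 : t ^ (b + 1 - 1) = t ^ (b - 1) * t := by
      rw [← Real.rpow_add_one ht'.ne']; congr 1; ring
    have e3 : t ^ (b + 2 - 1 - 1) = t ^ (b - 1) * t := by
      rw [← Real.rpow_add_one ht'.ne']; congr 1; ring
    have e4 : (π * t⁻¹) ^ (D - 1) = (π * t⁻¹) ^ D / (π * t⁻¹) :=
      Real.rpow_sub_one (by positivity) D
    refine HasDerivAt.congr_deriv d ?_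
    simp only [Pi.neg_apply, div_eq_mul_inv]
    rw [e1, e2, e3, e4]
    have := Real.pi_pos.ne'
    field_simp
    ring
  have hz : Filter.Tendsto (fun t : ℝ => C * (t ^ (p - 1) * Real.exp (-(a⁻¹ * t))))
      (nhdsWithin 0 (Ioi 0)) (nhds 0) := by
    have h : ContinuousAt (fun t : ℝ => C * (t ^ (p - 1) * Real.exp (-(a⁻¹ * t)))) 0 :=
      ((Real.continuousAt_rpow_const 0 (p - 1) (Or.inr (by linarith))).mul (by fun_prop)).const_mul C
    have h' := h.tendsto.mono_left (nhdsWithin_le_nhds (s := Ioi 0))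
    rwa [Real.zero_rpow (by linarith), zero_mul, mul_zero] at h'
  have hc : ContinuousWithinAt (fun t : ℝ =>
      t ^ (b + 2 - 1) * Real.exp (-(t / a)) * (π / t) ^ D * Real.exp (-(c / t))) (Ici 0) 0 := by
    rw [← continuousWithinAt_Ioi_iff_Ici, ContinuousWithinAt, Real.zero_rpow (by linarith)]
    simp only [zero_mul]
    refine squeeze_zero' ?_ ?_ hz
    · filter_upwards [self_mem_nhdsWithin] with t ht
      have ht' : 0 < t := ht
      positivity
    · filter_upwards [self_mem_nhdsWithin] with t ht using hC t ht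
  have h := integral_Ioi_of_hasDerivAt_of_tendsto hc hd i3
    (tendsto_zero_of_hasDerivAt_of_integrableOn_Ioi hd i3 i2)
  have i4 : IntegrableOn (fun t : ℝ =>
      (b + 1 - D) * (t ^ (b + 1 - 1) * Real.exp (-(t / a)) * (π / t) ^ D * Real.exp (-(c / t)))
        - a⁻¹ * (t ^ (b + 2 - 1) * Real.exp (-(t / a)) * (π / t) ^ D * Real.exp (-(c / t))))
      (Ioi 0) := (i1.const_mul _).sub (i2.const_mul _)
  rw [Real.zero_rpow (by linarith), integral_add i4 (i0.const_mul _), integral_sub (i1.const_mul _) (i2.const_mul _), integral_const_mul,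
    integral_const_mul, integral_const_mul] at h
  simpa using h

/-- Integrate the derivative of `t ^ (b + 1 - D) exp (-t / a - π² r² / t)` over `Ioi 0`. -/
theorem kap_rec (ha : 0 < a) (hb : 0 < b) (hr : 0 < r) (D : ℝ) : (2 * π * r) ^ 2 * kap a D b r =
    a * (4 * b * (b + 1) * kap a D (b + 2) r - 4 * b * (b + 1 - D) * kap a D (b + 1) r) := by
  have h := ResGam_ibp ha hb hr D
  have hG := (Real.Gamma_pos_of_pos hb).ne'
  have g1 : Real.Gamma (b + 1) = b * Real.Gamma b := Real.Gamma_add_one hb.ne'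
  have g2 : Real.Gamma (b + 2) = (b + 1) * (b * Real.Gamma b) := by
    rw [show b + 2 = b + 1 + 1 by ring, Real.Gamma_add_one (by positivity), g1]
  have a1 : a ^ (-(b + 1)) = a ^ (-b) / a := by
    rw [← Real.rpow_sub_one ha.ne']; congr 1; ring
  have a2 : a ^ (-(b + 2)) = a ^ (-b) / a / a := by
    rw [← Real.rpow_sub_one ha.ne', ← Real.rpow_sub_one ha.ne']; congr 1; ring
  unfold kap
  rw [g1, g2, a1, a2]
  generalize (∫ t in Ioi (0 : ℝ), t ^ (b + 1 - 1) * Real.exp (-(t / a)) * (π / t) ^ D *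
      Real.exp (-(π ^ 2 * r ^ 2 / t))) = I1 at h ⊢
  generalize (∫ t in Ioi (0 : ℝ), t ^ (b + 2 - 1) * Real.exp (-(t / a)) * (π / t) ^ D *
      Real.exp (-(π ^ 2 * r ^ 2 / t))) = I2 at h ⊢
  generalize (∫ t in Ioi (0 : ℝ), t ^ (b - 1) * Real.exp (-(t / a)) * (π / t) ^ D *
      Real.exp (-(π ^ 2 * r ^ 2 / t))) = I0 at h ⊢
  have hb1 : b + 1 ≠ 0 := by positivity
  have e : a * (4 * b * (b + 1) * (a ^ (-b) / a / a / ((b + 1) * (b * Real.Gamma b)) * I2) -
      4 * b * (b + 1 - D) * (a ^ (-b) / a / (b * Real.Gamma b) * I1)) =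
      4 * (a ^ (-b) / Real.Gamma b) * (a⁻¹ * I2 - (b + 1 - D) * I1) := by
    field_simp
  rw [e]
  linear_combination 4 * (a ^ (-b) / Real.Gamma b) * h

/-- Write the power (m + w) ^ (-N) as a Gamma integral and use Tonelli. -/
theorem lint_beta {m M N : ℝ} (hm : 0 < m) (hM : 0 < M) (hN : M < N) :
    ∫⁻ w in Ioi (0 : ℝ), ENNReal.ofReal (w ^ (M - 1) * (m + w) ^ (-N)) =
      ENNReal.ofReal (m ^ (M - N) * (Real.Gamma M * Real.Gamma (N - M) / Real.Gamma N)) := by
  have hN0 : 0 < N := hM.trans hN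
  have gN := Real.Gamma_pos_of_pos hN0
  have gM := Real.Gamma_pos_of_pos hM
  have h1 : ∫⁻ w in Ioi (0 : ℝ), ENNReal.ofReal (w ^ (M - 1) * (m + w) ^ (-N)) =
      ∫⁻ w in Ioi (0 : ℝ), ∫⁻ s in Ioi (0 : ℝ), ENNReal.ofReal
        (w ^ (M - 1) / Real.Gamma N * (s ^ (N - 1) * Real.exp (-((m + w) * s)))) := by
    refine setLIntegral_congr_fun measurableSet_Ioi fun w hw => ?_
    have hw' : 0 < w := hw
    rw [ResGam_lint hN0 (by positivity) (by positivity)]
    congr 1
    field_simp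
  rw [h1, lintegral_lintegral_swap (Measurable.aemeasurable (by unfold Function.uncurry; fun_prop))]
  have h2 : ∫⁻ s in Ioi (0 : ℝ), ∫⁻ w in Ioi (0 : ℝ), ENNReal.ofReal
        (w ^ (M - 1) / Real.Gamma N * (s ^ (N - 1) * Real.exp (-((m + w) * s)))) =
      ∫⁻ s in Ioi (0 : ℝ), ENNReal.ofReal
        (Real.Gamma M / Real.Gamma N * (s ^ (N - M - 1) * Real.exp (-(m * s)))) := by
    refine setLIntegral_congr_fun measurableSet_Ioi fun s hs => ?_
    have hs' : 0 < s := hs
    have e : ∀ w : ℝ, w ^ (M - 1) / Real.Gamma N * (s ^ (N - 1) * Real.exp (-((m + w) * s))) =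
        s ^ (N - 1) * Real.exp (-(m * s)) / Real.Gamma N *
          (w ^ (M - 1) * Real.exp (-(s * w))) := by
      intro w
      rw [show -((m + w) * s) = -(m * s) + -(s * w) by ring, Real.exp_add]
      ring
    simp only [e]
    rw [ResGam_lint hM hs' (by positivity), show N - M - 1 = N - 1 + -M by ring,
      Real.rpow_add hs']
    congr 1
    ring
  rw [h2, ResGam_lint (sub_pos.2 hN) hm (by positivity), neg_sub]
  congr 1
  ring

/-- Write the power (t + u) ^ (-M) as a Gamma integral, use Tonelli and `lint_beta`. -/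
theorem lint_two {m M β β' : ℝ} (hm : 0 < m) (hM : 0 < M) (hβ : 0 < β) (hβ' : 0 < β')
    (h : M < β + β') :
    ∫⁻ t in Ioi (0 : ℝ), ∫⁻ u in Ioi (0 : ℝ), ENNReal.ofReal
      (t ^ (β - 1) * u ^ (β' - 1) * (t + u) ^ (-M) * Real.exp (-(m * (t + u)))) =
      ENNReal.ofReal (m ^ (M - (β + β')) * (Real.Gamma β * Real.Gamma β' *
        Real.Gamma (β + β' - M) / Real.Gamma (β + β'))) := by
  have gM := Real.Gamma_pos_of_pos hM
  have gβ := Real.Gamma_pos_of_pos hβ
  have gβ' := Real.Gamma_pos_of_pos hβ'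
  have h1 : ∀ t ∈ Ioi (0 : ℝ), ∫⁻ u in Ioi (0 : ℝ), ENNReal.ofReal
      (t ^ (β - 1) * u ^ (β' - 1) * (t + u) ^ (-M) * Real.exp (-(m * (t + u)))) =
      ∫⁻ w in Ioi (0 : ℝ), ENNReal.ofReal
        (w ^ (M - 1) / Real.Gamma M * ((m + w) ^ (-β') * Real.Gamma β') *
          (t ^ (β - 1) * Real.exp (-((m + w) * t)))) := by
    intro t ht
    have ht' : 0 < t := ht
    have h2 : ∫⁻ u in Ioi (0 : ℝ), ENNReal.ofReal
        (t ^ (β - 1) * u ^ (β' - 1) * (t + u) ^ (-M) * Real.exp (-(m * (t + u)))) =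
        ∫⁻ u in Ioi (0 : ℝ), ∫⁻ w in Ioi (0 : ℝ), ENNReal.ofReal
          (t ^ (β - 1) * u ^ (β' - 1) * Real.exp (-(m * (t + u))) / Real.Gamma M *
            (w ^ (M - 1) * Real.exp (-((t + u) * w)))) := by
      refine setLIntegral_congr_fun measurableSet_Ioi fun u hu => ?_
      have hu' : 0 < u := hu
      rw [ResGam_lint hM (by positivity) (by positivity)]
      congr 1
      field_simp
    rw [h2, lintegral_lintegral_swap
      (Measurable.aemeasurable (by unfold Function.uncurry; fun_prop))]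
    refine setLIntegral_congr_fun measurableSet_Ioi fun w hw => ?_
    have hw' : 0 < w := hw
    have e : ∀ u : ℝ, t ^ (β - 1) * u ^ (β' - 1) * Real.exp (-(m * (t + u))) / Real.Gamma M *
        (w ^ (M - 1) * Real.exp (-((t + u) * w))) =
        w ^ (M - 1) / Real.Gamma M * (t ^ (β - 1) * Real.exp (-((m + w) * t))) *
          (u ^ (β' - 1) * Real.exp (-((m + w) * u))) := by
      intro u
      have e' : Real.exp (-(m * (t + u))) * Real.exp (-((t + u) * w)) =
          Real.exp (-((m + w) * t)) * Real.exp (-((m + w) * u)) := by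
        rw [← Real.exp_add, ← Real.exp_add]; congr 1; ring
      linear_combination t ^ (β - 1) * u ^ (β' - 1) / Real.Gamma M * w ^ (M - 1) * e'
    simp only [e]
    rw [ResGam_lint hβ' (by positivity) (by positivity)]
    congr 1
    ring
  rw [setLIntegral_congr_fun measurableSet_Ioi h1,
    lintegral_lintegral_swap (Measurable.aemeasurable (by unfold Function.uncurry; fun_prop))]
  have h3 : ∀ w ∈ Ioi (0 : ℝ), ∫⁻ t in Ioi (0 : ℝ), ENNReal.ofReal
        (w ^ (M - 1) / Real.Gamma M * ((m + w) ^ (-β') * Real.Gamma β') *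
          (t ^ (β - 1) * Real.exp (-((m + w) * t)))) =
      ENNReal.ofReal (Real.Gamma β * Real.Gamma β' / Real.Gamma M) *
        ENNReal.ofReal (w ^ (M - 1) * (m + w) ^ (-(β + β'))) := by
    intro w hw
    have hw' : 0 < w := hw
    rw [ResGam_lint hβ (by positivity) (by positivity), ← ENNReal.ofReal_mul (by positivity),
      neg_add, Real.rpow_add (by positivity)]
    congr 1
    ring
  rw [setLIntegral_congr_fun measurableSet_Ioi h3, lintegral_const_mul _ (by fun_prop),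
    lint_beta hm hM h, ← ENNReal.ofReal_mul (by positivity)]
  congr 1
  field_simp

end Pool.Agent.Work.MP_6bf1e5_an.H
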