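import Pool.Agent.Work.MP_6bf1e5_an.H.SkFour
import Pool.Agent.Work.MP_6bf1e5_an.H.ResRad
import Pool.Agent.Work.MP_6bf1e5_an.H.ResGam

/-! Fourier transforms of solid harmonics times radial profiles. -/

open scoped ContDiff ENNReal FourierTransform Real
open Set MeasureTheory

namespace Pool.Agent.Work.MP_6bf1e5_an.H

variable {a b t : ℝ} {l : ℕ} {P : Sc}

theorem ResMix_exp (hb : 0 < b) : Integrable fun ξ : R3 => Real.exp (-(b * ‖ξ‖ ^ 2)) := by
  have h := (GaussianFourier.integrable_cexp_neg_mul_sq_norm_add (V := R3) (b := b)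
    (by simpa using hb) 0 0).norm
  refine h.congr (Filter.Eventually.of_forall fun ξ => ?_)
  simp only [zero_mul, add_zero, Complex.norm_exp]
  congr 1
  norm_cast
  rw [neg_mul]

theorem ResMix_int (hb : 0 < b) (n : ℕ) :
    Integrable fun ξ : R3 => (1 + ‖ξ‖) ^ n * Real.exp (-(b * ‖ξ‖ ^ 2)) := by
  have h := (ResMix_exp (half_pos hb)).const_mul (n.factorial * Real.exp (1 + 1 / (2 * b)))
  refine h.mono' (Continuous.aestronglyMeasurable (by fun_prop))
    (Filter.Eventually.of_forall fun ξ => ?_)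
  rw [Real.norm_of_nonneg (by positivity)]
  have h1 := Real.pow_div_factorial_le_exp (1 + ‖ξ‖) (by positivity) n
  rw [div_le_iff₀ (by positivity)] at h1
  have h2 : 1 + ‖ξ‖ + -(b * ‖ξ‖ ^ 2) ≤ 1 + 1 / (2 * b) + -(b / 2 * ‖ξ‖ ^ 2) := by
    have h3 : 1 / (2 * b) + b / 2 * ‖ξ‖ ^ 2 - ‖ξ‖ = (b * ‖ξ‖ - 1) ^ 2 / (2 * b) := by
      field_simp
      ring
    have h4 : 0 ≤ (b * ‖ξ‖ - 1) ^ 2 / (2 * b) := by positivity
    linarith
  have h3 := Real.exp_le_exp.2 h2
  rw [Real.exp_add (1 + ‖ξ‖), Real.exp_add (1 + 1 / (2 * b))] at h3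
  calc (1 + ‖ξ‖) ^ n * Real.exp (-(b * ‖ξ‖ ^ 2))
      ≤ Real.exp (1 + ‖ξ‖) * n.factorial * Real.exp (-(b * ‖ξ‖ ^ 2)) := by gcongr
    _ = n.factorial * (Real.exp (1 + ‖ξ‖) * Real.exp (-(b * ‖ξ‖ ^ 2))) := by ring
    _ ≤ n.factorial * (Real.exp (1 + 1 / (2 * b)) * Real.exp (-(b / 2 * ‖ξ‖ ^ 2))) := by gcongr
    _ = _ := by ring

theorem ResMix_pd_exp (t : ℝ) (j : Fin 3) (y : R3) :
    pd j (fun y => Real.exp (-(t * ‖y‖ ^ 2))) y = -(2 * t * y j) * Real.exp (-(t * ‖y‖ ^ 2)) := by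
  have h := (((hasFDerivAt_id y).norm_sq.const_mul t).neg.exp).fderiv
  simp only [id, Pi.neg_apply] at h
  rw [pd, h]
  simp [EuclideanSpace.inner_single_right]
  ring

theorem ResMix_pd_sum {ι : Type} (s : Finset ι) (c : ι → ℝ) {f : ι → Sc}
    (h : ∀ i, ContDiff ℝ ∞ (f i)) (j : Fin 3) :
    pd j (fun y => ∑ i ∈ s, c i * f i y) = fun y => ∑ i ∈ s, c i * pd j (f i) y := by
  funext y
  rw [pd, fderiv_fun_sum fun i _ => (ResHom_diff (h i) y).const_mul _, _root_.sum_apply]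
  refine Finset.sum_congr rfl fun i _ => ?_
  rw [fderiv_const_mul (ResHom_diff (h i) y)]
  rfl

theorem ResMix_lap_sum {ι : Type} (s : Finset ι) (c : ι → ℝ) {f : ι → Sc}
    (h : ∀ i, ContDiff ℝ ∞ (f i)) (y : R3) :
    lap (fun y => ∑ i ∈ s, c i * f i y) y = ∑ i ∈ s, c i * lap (f i) y := by
  unfold lap
  simp only [ResMix_pd_sum s c h, ResMix_pd_sum s c fun i => ResHom_smooth (h i) _, Finset.mul_sum]
  exact Finset.sum_comm

theorem ResMix_sqrt {c : ℝ} (hc : 0 < c) (k : ℕ) : ∀ x : ℝ, 0 < x →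
    IntegrableOn (fun t : ℝ => (1 + √t) ^ k * (t ^ (x - 1) * Real.exp (-(c * t)))) (Ioi 0) := by
  induction k with
  | zero => exact fun x hx => by simpa using ResGam_int hx hc
  | succ k ih =>
    intro x hx
    refine ((ih x hx).add (ih (x + 1 / 2) (by positivity))).congr_fun (fun t ht => ?_)
      measurableSet_Ioi
    have ht' : 0 < t := ht
    simp only [Pi.add_apply]
    rw [show x + 1 / 2 - 1 = x - 1 + 1 / 2 by ring, Real.rpow_add ht', ← Real.sqrt_eq_rpow]
    ring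

theorem ResMix_prod {φ : ℝ → ℝ} {g : R3 → ℝ} (hφ : Measurable φ) (hg : Measurable g)
    (hi : Integrable g) (h : IntegrableOn (fun t => φ t * √t ^ 3) (Ioi 0)) :
    Integrable (fun z : ℝ × R3 => φ z.1 * g ((√z.1)⁻¹ • z.2))
      ((volume.restrict (Ioi 0)).prod volume) := by
  rw [integrable_prod_iff (Measurable.aestronglyMeasurable (by fun_prop))]
  constructor
  · filter_upwards [ae_restrict_mem measurableSet_Ioi] with t ht
    exact (hi.comp_smul (inv_pos.2 (Real.sqrt_pos.2 ht)).ne').const_mul _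
  · refine (h.norm.mul_const (∫ ξ, ‖g ξ‖)).congr (Filter.Eventually.of_forall fun t => ?_)
    have h1 := Measure.integral_comp_inv_smul_of_nonneg (volume : Measure R3) (fun ξ => ‖g ξ‖)
      (Real.sqrt_nonneg t)
    simp only [norm_mul, integral_const_mul]
    rw [h1, Real.norm_of_nonneg (pow_nonneg (Real.sqrt_nonneg t) 3), mul_assoc]
    simp

theorem ResMix_bound (ht : 0 < t) (k l : ℕ) {r : ℝ} (hr : 0 ≤ r) :
    (1 + r) ^ k * r ^ l * Real.exp (-(π ^ 2 * r ^ 2 / t)) ≤ (1 + √t) ^ k * √t ^ l *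
      ((1 + (√t)⁻¹ * r) ^ (k + l) * Real.exp (-(π ^ 2 * ((√t)⁻¹ * r) ^ 2))) := by
  have hs := Real.sqrt_pos.2 ht
  have e : r ^ 2 / t = ((√t)⁻¹ * r) ^ 2 := by
    rw [mul_pow, inv_pow, Real.sq_sqrt ht.le, div_eq_inv_mul]
  have e' : r = √t * ((√t)⁻¹ * r) := (mul_inv_cancel_left₀ hs.ne' r).symm
  have hρ : 0 ≤ (√t)⁻¹ * r := by positivity
  rw [mul_div_assoc, e]
  generalize (√t)⁻¹ * r = ρ at e' hρ
  generalize √t = s at e' hs
  have h1 : 1 + r ≤ (1 + s) * (1 + ρ) := by rw [e']; nlinarith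
  have h2 : r ≤ s * (1 + ρ) := by rw [e']; nlinarith
  calc _ ≤ ((1 + s) * (1 + ρ)) ^ k * (s * (1 + ρ)) ^ l * Real.exp (-(π ^ 2 * ρ ^ 2)) := by gcongr
    _ = _ := by rw [mul_pow, mul_pow, pow_add]; ring

theorem RepA.congr_ae {f : Sc} {F G : R3 → ℂ} (h : RepA f F) (h' : F =ᵐ[volume] G) :
    RepA f G := by
    refine ⟨fun k => (h.1 k).congr ?_, fun x => (h.2 x).trans (Real.fourierInv_congr_ae h' x)⟩
    filter_upwards [h'] with ξ hξ
    rw [hξ]

theorem repA_zero : RepA (fun _ => 0) fun _ => 0 := by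
    refine ⟨fun k => by simp, fun x => ?_⟩
    rw [Real.fourierInv_eq]
    simp

theorem RepA.sum {ι : Type} (s : Finset ι) {f : ι → Sc} {F : ι → R3 → ℂ}
    (h : ∀ i ∈ s, RepA (f i) (F i)) :
    RepA (fun y => ∑ i ∈ s, f i y) fun ξ => ∑ i ∈ s, F i ξ := by
    classical
    induction s using Finset.induction_on with
    | empty => simpa using repA_zero
    | insert i s hi ih =>
      simp only [Finset.sum_insert hi]
      exact (h i (Finset.mem_insert_self _ _)).add (ih fun j hj => h j (Finset.mem_insert_of_mem hj))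

/-- See `ev_gauss` in the file Ens/Gauss.lean. -/
theorem repA_gauss (ht : 0 < t) : RepA (fun y => Real.exp (-(t * ‖y‖ ^ 2))) fun ξ =>
    (((π / t) ^ (3 / 2 : ℝ) * Real.exp (-(π ^ 2 * ‖ξ‖ ^ 2 / t)) : ℝ) : ℂ) := by
    have hb : 0 < π ^ 2 / t := by positivity
    refine ⟨fun k => ?_, fun y => ?_⟩
    · refine ((ResMix_int hb k).const_mul ((π / t) ^ (3 / 2 : ℝ))).ofReal.congr
        (Filter.Eventually.of_forall fun ξ => ?_)
      beta_reduce
      rw [← Complex.ofReal_mul, mul_div_right_comm, mul_left_comm]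
      rfl
    have e : ∀ ξ : R3, (((π / t) ^ (3 / 2 : ℝ) * Real.exp (-(π ^ 2 * ‖ξ‖ ^ 2 / t)) : ℝ) : ℂ) =
        (((π / t) ^ (3 / 2 : ℝ) : ℝ) : ℂ) *
          Complex.exp (-((π ^ 2 / t : ℝ) : ℂ) * (‖ξ‖ : ℂ) ^ 2) := by
      intro ξ
      rw [mul_div_right_comm]
      push_cast
      rw [neg_mul]
    have e0 : ∀ (c : ℂ) (F : R3 → ℂ), 𝓕⁻ (fun ξ => c * F ξ) y = c * 𝓕⁻ F y := by
      intro c F
      rw [Real.fourierInv_eq', Real.fourierInv_eq', ← integral_const_mul]
      simp only [smul_eq_mul, mul_left_comm c]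
    rw [funext e, e0, Real.fourierInv_eq_fourier_neg,
      fourier_gaussian_innerProductSpace (by rwa [Complex.ofReal_re]), norm_neg]
    have e1 : (π : ℂ) / ((π ^ 2 / t : ℝ) : ℂ) = ((t / π : ℝ) : ℂ) := by
      rw [← Complex.ofReal_div]
      congr 1
      field_simp
    have e2 : ((Module.finrank ℝ R3 : ℕ) / 2 : ℂ) = ((3 / 2 : ℝ) : ℂ) := by simp
    have e3 : -(π : ℂ) ^ 2 * (‖y‖ : ℂ) ^ 2 / ((π ^ 2 / t : ℝ) : ℂ) =
        ((-(t * ‖y‖ ^ 2) : ℝ) : ℂ) := by
      norm_cast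
      field_simp
    rw [e1, e2, e3, ← Complex.ofReal_cpow (by positivity), ← Complex.ofReal_exp, ← mul_assoc,
      ← Complex.ofReal_mul, ← Real.mul_rpow (by positivity) (by positivity),
      show π / t * (t / π) = 1 by field_simp, Real.one_rpow, Complex.ofReal_one, one_mul]

/-- Induction on `l`. With `P_j = pd j P`: `∑ pd j (P_j e) = -2 t (l + 1) P e` and
`∑ ξ_j P_j = (l + 1) P`; use `RepA.pd`, `RepA.sum`, `RepA.smul`. -/
theorem hecke (h : Harm l P) (ht : 0 < t) :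
    RepA (fun y => P y * Real.exp (-(t * ‖y‖ ^ 2))) fun ξ => (-Complex.I) ^ l *
      ((P ξ * ((π / t) ^ (l + 3 / 2 : ℝ) * Real.exp (-(π ^ 2 * ‖ξ‖ ^ 2 / t))) : ℝ) : ℂ) := by
    induction l generalizing P with
    | zero =>
      convert (repA_gauss ht).smul (P 0) using 2 with y ξ
      · rw [h.toHom.const]
      · rw [h.toHom.const, pow_zero, one_mul, Nat.cast_zero, zero_add, Complex.ofReal_mul]
    | succ l ih =>
      have h1 := (RepA.sum Finset.univ fun j _ => (ih (h.pd j)).pd j).smul (-1 / (2 * t * (l + 1)))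
      have he : ContDiff ℝ ∞ fun y : R3 => Real.exp (-(t * ‖y‖ ^ 2)) :=
        (contDiff_const.mul (contDiff_norm_sq ℝ)).neg.exp
      have hl : (l + 1 : ℝ) ≠ 0 := by positivity
      convert h1 using 2 with y ξ
      · have h2 := h.toHom.euler y
        have h3 := h.harm y
        simp only [ResHom_pd_mul (ResHom_smooth h.smooth _) he, ResMix_pd_exp]
        simp only [yd, lap, Fin.sum_univ_three, Nat.cast_add, Nat.cast_one] at h2 h3 ⊢
        field_simp
        linear_combination (-(2 * t)) * h2 + h3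
      · have h2 := h.toHom.euler ξ
        have h3 : (π / t) ^ (((l + 1 : ℕ) : ℝ) + 3 / 2) = (π / t) ^ ((l : ℝ) + 3 / 2) * (π / t) := by
          rw [← Real.rpow_add_one (by positivity)]
          congr 1
          push_cast
          ring
        have h4 : P ξ = (l + 1 : ℝ)⁻¹ * ∑ j, ξ j * pd j P ξ := by
          rw [eq_inv_mul_iff_mul_eq₀ hl]
          simpa [yd] using h2.symm
        have ht' : (t : ℂ) ≠ 0 := Complex.ofReal_ne_zero.2 ht.ne'
        have hl' : (l + 1 : ℂ) ≠ 0 := by exact_mod_cast hl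
        rw [h3, h4]
        generalize (π / t) ^ ((l : ℝ) + 3 / 2) = c
        generalize Real.exp (-(π ^ 2 * ‖ξ‖ ^ 2 / t)) = E
        simp only [Fin.sum_univ_three]
        push_cast
        field_simp
        ring

/-- Fubini. -/
theorem RepA.mix {f : ℝ → Sc} {F : ℝ → R3 → ℂ}
    (hr : ∀ t ∈ Ioi (0 : ℝ), ∀ x, (f t x : ℂ) = 𝓕⁻ (F t) x)
    (hi : ∀ k : ℕ, Integrable (fun z : ℝ × R3 => (((1 + ‖z.2‖) ^ k : ℝ) : ℂ) * F z.1 z.2)
      ((volume.restrict (Ioi 0)).prod volume)) :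
    RepA (fun x => ∫ t in Ioi (0 : ℝ), f t x) fun ξ => ∫ t in Ioi (0 : ℝ), F t ξ := by
    refine ⟨fun k => ?_, fun x => ?_⟩
    · simpa only [integral_const_mul] using (hi k).integral_prod_right
    have h0 : Integrable (fun z : ℝ × R3 => F z.1 z.2) ((volume.restrict (Ioi 0)).prod volume) := by
      simpa using hi 0
    have h1 : Integrable (fun z : ℝ × R3 =>
        Complex.exp (((2 * π * inner ℝ z.2 x : ℝ) : ℂ) * Complex.I) * F z.1 z.2)
        ((volume.restrict (Ioi 0)).prod volume) :=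
      h0.bdd_mul (c := 1) (Continuous.aestronglyMeasurable (by fun_prop))
        (Filter.Eventually.of_forall fun z => (Complex.norm_exp_ofReal_mul_I _).le)
    rw [← integral_complex_ofReal, setIntegral_congr_fun measurableSet_Ioi fun t ht => hr t ht x]
    simp only [Real.fourierInv_eq', smul_eq_mul]
    rw [integral_integral_swap h1]
    simp only [integral_const_mul]

/-- Mixture of `hecke` with the weight `a ^ (-b) / Γ b * t ^ (b - 1) exp (-t / a)`. The integral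
over `ξ` of `|ξ| ^ n (π / t) ^ (l + 3 / 2) exp (-π² |ξ|² / t)` is `C t ^ (n / 2 - l)`, and
`n ≥ l`. -/
theorem rep_pow (ha : 0 < a) (h : Harm l P) (hb : l < 2 * b) :
    RepA (fun y => (1 + a * ‖y‖ ^ 2) ^ (-b) * P y) fun ξ => (-Complex.I) ^ l *
      ((P ξ * kap a (l + 3 / 2) b ‖ξ‖ : ℝ) : ℂ) := by
    have hb0 : 0 < b := by
      have : (0 : ℝ) ≤ l := l.cast_nonneg
      linarith
    have hG := Real.Gamma_pos_of_pos hb0
    have h1 := RepA.mix
      (f := fun t y => a ^ (-b) / Real.Gamma b * (t ^ (b - 1) * Real.exp (-(t / a))) *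
        (P y * Real.exp (-(t * ‖y‖ ^ 2))))
      (F := fun t ξ => (-Complex.I) ^ l * ((P ξ * (a ^ (-b) / Real.Gamma b * (t ^ (b - 1) *
        Real.exp (-(t / a)) * (π / t) ^ (l + 3 / 2 : ℝ) * Real.exp (-(π ^ 2 * ‖ξ‖ ^ 2 / t)))) : ℝ) : ℂ))
      (fun t ht x => ?_) (fun k => ?_)
    · convert h1 using 2 with y ξ
      · have hc : 0 < a⁻¹ + ‖y‖ ^ 2 := by positivity
        have e : ∀ t : ℝ, a ^ (-b) / Real.Gamma b * (t ^ (b - 1) * Real.exp (-(t / a))) *
            (P y * Real.exp (-(t * ‖y‖ ^ 2))) = a ^ (-b) / Real.Gamma b * P y *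
              (t ^ (b - 1) * Real.exp (-((a⁻¹ + ‖y‖ ^ 2) * t))) := by
          intro t
          rw [show -((a⁻¹ + ‖y‖ ^ 2) * t) = -(t / a) + -(t * ‖y‖ ^ 2) by ring, Real.exp_add]
          ring
        simp only [e]
        rw [integral_const_mul, Real.integral_rpow_mul_exp_neg_mul_Ioi hb0 hc, one_div,
          Real.inv_rpow hc.le, ← Real.rpow_neg hc.le,
          show 1 + a * ‖y‖ ^ 2 = a * (a⁻¹ + ‖y‖ ^ 2) by field_simp, Real.mul_rpow ha.le hc.le]
        field_simp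
      · rw [integral_const_mul, integral_complex_ofReal, integral_const_mul, integral_const_mul, kap]
    · rw [((hecke h ht).smul _).2 x]
      refine congrArg (fun G : R3 → ℂ => 𝓕⁻ G x) (funext fun ξ => ?_)
      simp only [Complex.ofReal_mul]
      ring
    · obtain ⟨C, hC, hP⟩ := h.toHom.bound
      have hm : Measurable fun z : ℝ × R3 => P z.2 :=
        h.smooth.continuous.measurable.comp measurable_snd
      have h2 := ResMix_prod (φ := fun t => C * (a ^ (-b) / Real.Gamma b) * (t ^ (b - 1) *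
        Real.exp (-(t / a)) * (π / t) ^ (l + 3 / 2 : ℝ)) * ((1 + √t) ^ k * √t ^ l))
        (g := fun η => (1 + ‖η‖) ^ (k + l) * Real.exp (-(π ^ 2 * ‖η‖ ^ 2))) (by fun_prop)
        (by fun_prop) (ResMix_int (by positivity) _) ?_
      · refine h2.mono' (Measurable.aestronglyMeasurable (Measurable.mul (by fun_prop)
          ((Complex.measurable_ofReal.comp (hm.mul (by fun_prop))).const_mul _))) ?_
        have h3 : ∀ᵐ z : ℝ × R3 ∂(volume.restrict (Ioi 0)).prod volume, z.1 ∈ Ioi (0 : ℝ) :=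
          Measure.quasiMeasurePreserving_fst.ae (ae_restrict_mem measurableSet_Ioi)
        filter_upwards [h3] with z hz
        have ht : 0 < z.1 := hz
        have h4 := ResMix_bound ht k l (norm_nonneg z.2)
        rw [norm_mul, norm_mul, norm_pow, norm_neg, Complex.norm_I, one_pow, one_mul,
          Complex.norm_real, Complex.norm_real, norm_mul, Real.norm_of_nonneg (by positivity),
          Real.norm_eq_abs (P _), Real.norm_of_nonneg (by positivity), norm_smul,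
          Real.norm_of_nonneg (inv_nonneg.2 (Real.sqrt_nonneg _))]
        have h5 : 0 ≤ a ^ (-b) / Real.Gamma b * (z.1 ^ (b - 1) * Real.exp (-(z.1 / a)) *
          (π / z.1) ^ (l + 3 / 2 : ℝ)) := by positivity
        calc _ = a ^ (-b) / Real.Gamma b * (z.1 ^ (b - 1) * Real.exp (-(z.1 / a)) *
              (π / z.1) ^ (l + 3 / 2 : ℝ)) * ((1 + ‖z.2‖) ^ k * |P z.2| *
                Real.exp (-(π ^ 2 * ‖z.2‖ ^ 2 / z.1))) := by ring
          _ ≤ a ^ (-b) / Real.Gamma b * (z.1 ^ (b - 1) * Real.exp (-(z.1 / a)) *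
              (π / z.1) ^ (l + 3 / 2 : ℝ)) * ((1 + ‖z.2‖) ^ k * (C * ‖z.2‖ ^ l) *
                Real.exp (-(π ^ 2 * ‖z.2‖ ^ 2 / z.1))) := by
            gcongr
            exact hP _
          _ = C * (a ^ (-b) / Real.Gamma b * (z.1 ^ (b - 1) * Real.exp (-(z.1 / a)) *
              (π / z.1) ^ (l + 3 / 2 : ℝ))) * ((1 + ‖z.2‖) ^ k * ‖z.2‖ ^ l *
                Real.exp (-(π ^ 2 * ‖z.2‖ ^ 2 / z.1))) := by ring
          _ ≤ _ := (mul_le_mul_of_nonneg_left h4 (mul_nonneg hC h5)).trans_eq (by ring)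
      · refine IntegrableOn.congr_fun ((ResMix_sqrt (inv_pos.2 ha) k (b - l / 2)
          (by linarith)).const_mul (C * (a ^ (-b) / Real.Gamma b) * π ^ (l + 3 / 2 : ℝ)))
          (fun t ht => ?_) measurableSet_Ioi
        have ht' : 0 < t := ht
        have e : t ^ (b - l / 2 - 1) = t ^ (b - 1) / t ^ (l + 3 / 2 : ℝ) * √t ^ (l + 3) := by
          rw [Real.sqrt_eq_rpow, ← Real.rpow_natCast, ← Real.rpow_mul ht'.le, ← Real.rpow_sub ht',
            ← Real.rpow_add ht']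
          congr 1
          push_cast
          ring
        rw [e, Real.div_rpow Real.pi_pos.le ht'.le, show a⁻¹ * t = t / a by ring]
        ring

theorem rep_rad (ha : 0 < a) (h : Harm l P) (R : Rad) (he : 2 * l < R.e) :
    RepA (fun y => R.f (tau a y) * P y) fun ξ => (-Complex.I) ^ l *
      ((P ξ * R.K a l ‖ξ‖ : ℝ) : ℂ) := by
    have he' : (2 * l : ℝ) < R.e := by exact_mod_cast he
    have h1 := RepA.sum (Finset.range R.N) fun j _ =>
      (rep_pow (b := ((R.e + j : ℕ) : ℝ) / 4) ha h (by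
        have : (0 : ℝ) ≤ j := j.cast_nonneg
        push_cast
        linarith)).smul (R.c j)
    convert h1 using 2 with y ξ
    · simp only [Rad.f, tau_pow ha, Finset.sum_mul, mul_assoc]
    · simp only [Rad.K, Finset.mul_sum, Complex.ofReal_sum, Complex.ofReal_mul]
      exact Finset.sum_congr rfl fun j _ => by ring

/-- `lap_tau_mul`, `rep_pow` and `kap_rec` (for `ξ ≠ 0`). -/
theorem rep_lap (ha : 0 < a) (h : Harm l P) (R : Rad) (he0 : 0 < R.e) (he : 2 * l < R.e + 4) :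
    RepA (fun y => -lap (fun y => R.f (tau a y) * P y) y) fun ξ => (-Complex.I) ^ l *
      ((P ξ * ((2 * π * ‖ξ‖) ^ 2 * R.K a l ‖ξ‖) : ℝ) : ℂ) := by
    have he' : (2 * l : ℝ) < R.e + 4 := by exact_mod_cast he
    have he0' : (0 : ℝ) < R.e := by exact_mod_cast he0
    have hj : ∀ j : ℕ, (l : ℝ) < 2 * (((R.e + j : ℕ) : ℝ) / 4 + 1) := fun j => by
      have : (0 : ℝ) ≤ j := j.cast_nonneg
      push_cast
      linarith
    have h1 := RepA.sum (Finset.range R.N) fun j _ =>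
      (((rep_pow (b := ((R.e + j : ℕ) : ℝ) / 4 + 2) ha h (by linarith [hj j])).smul
        (a * (4 * (((R.e + j : ℕ) : ℝ) / 4) * (((R.e + j : ℕ) : ℝ) / 4 + 1)))).add
        ((rep_pow ha h (hj j)).smul (-(a * (4 * (((R.e + j : ℕ) : ℝ) / 4) *
          (((R.e + j : ℕ) : ℝ) / 4 + 1 - (l + 3 / 2))))))).smul (R.c j)
    have h0 : ∀ᵐ ξ : R3, ξ ≠ 0 := by simp [ae_iff]
    refine RepA.congr_ae (Eq.mpr (congrArg (RepA · _) (funext fun y => ?_)) h1) ?_
    · simp only [Rad.f, Finset.sum_mul, mul_assoc]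
      rw [ResMix_lap_sum _ _ fun j => ((tau_smooth ha).pow _).mul h.smooth, ← Finset.sum_neg_distrib]
      refine Finset.sum_congr rfl fun j _ => ?_
      rw [← mul_neg, lap_tau_mul ha h, tau_pow ha, tau_pow ha,
        show ((R.e + j + 8 : ℕ) : ℝ) / 4 = ((R.e + j : ℕ) : ℝ) / 4 + 2 by push_cast; ring,
        show ((R.e + j + 4 : ℕ) : ℝ) / 4 = ((R.e + j : ℕ) : ℝ) / 4 + 1 by push_cast; ring,
        Pi.add_apply]
      ring
    · filter_upwards [h0] with ξ hξ
      simp only [Rad.K, Finset.mul_sum, Complex.ofReal_sum]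
      refine Finset.sum_congr rfl fun j _ => ?_
      rw [mul_left_comm _ (R.c j), kap_rec ha (by positivity) (norm_pos_iff.2 hξ), Pi.add_apply]
      simp only [Complex.ofReal_mul, Complex.ofReal_neg, Complex.ofReal_sub]
      ring

end Pool.Agent.Work.MP_6bf1e5_an.H
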