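import Pool.Agent.Work.MP_6bf1e5_an.H.ConfA
import Pool.Agent.Work.MP_6bf1e5_an.H.ResMix

/-!
Conformal part: the dissipation on two powers of the conformal factor.
Hints. kap_symm: substitution t to A / t, A = (pi r) ^ 2 (integral_comp_rpow_Ioi with p = -1 and
integral_comp_mul_left_Ioi, or integral_image_eq_integral_abs_deriv_smul). rep_Op: rep_pow with a = 1, l = 0, P = 1
and Op b = 2 ^ b (1 + |y|^2) ^ (-b). Dp_eq_of_rep: RepA.Dp, Real.fourierInv_congr_ae, ofReal injective.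
lam_Op3: sy (3/2) * 2 ^ (3/4) kap (3/4) = lam 0 * 2 ^ (9/4) kap (9/4) for xi nonzero (kap_symm, b = 3/4).
lam_Op7: kap_symm with b = 7/4 gives kap (5/4) times (pi r) ^ 2, then kap_rec with b = 5/4;
Gamma (9/4) = 5/4 Gamma (5/4), Gamma (7/4) = 3/4 Gamma (3/4). PolyF.inA: PolyF.sub_const, Sym.hinf, Hinf.inA.
-/

open scoped ContDiff ENNReal FourierTransform Real
open Set MeasureTheory

namespace Pool.Agent.Work.MP_6bf1e5_an.H

variable {k : ℕ} {f g : Sc}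

theorem cf_lam_pos (k : ℕ) : 0 < lam k :=
  div_pos (Real.Gamma_pos_of_pos (by positivity)) (Real.Gamma_pos_of_pos (by positivity))
theorem cf_lam_succ (k : ℕ) : (k + 3 / 4) * lam (k + 1) = (k + 9 / 4) * lam k := by
  have h1 : (k : ℝ) + 3 / 4 ≠ 0 := by positivity
  have h2 := (Real.Gamma_pos_of_pos (show 0 < (k : ℝ) + 3 / 4 by positivity)).ne'
  rw [lam, lam, Nat.cast_succ, add_right_comm, add_right_comm _ 1,
    Real.Gamma_add_one (by positivity), Real.Gamma_add_one h1]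
  field_simp
theorem lam_mono : Monotone lam := by
  refine monotone_nat_of_le_succ fun k => ?_
  refine le_of_mul_le_mul_left ?_ (show 0 < (k : ℝ) + 3 / 4 by positivity)
  rw [cf_lam_succ]
  exact mul_le_mul_of_nonneg_right (by linarith) (cf_lam_pos k).le
theorem lam_le (k : ℕ) : lam k ≤ 2 * lam 0 * (k + 1) ^ 2 := by
  have h0 := cf_lam_pos 0
  induction k with
  | zero => simp only [Nat.cast_zero]; linarith
  | succ k ih =>
    refine le_of_mul_le_mul_left ?_ (show 0 < (k : ℝ) + 3 / 4 by positivity)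
    rw [cf_lam_succ, Nat.cast_succ]
    refine (mul_le_mul_of_nonneg_left ih (by positivity)).trans ?_
    rw [mul_left_comm, mul_left_comm ((k : ℝ) + 3 / 4)]
    refine mul_le_mul_of_nonneg_left ?_ (by positivity)
    have h1 : (0 : ℝ) ≤ k := k.cast_nonneg
    nlinarith [mul_nonneg h1 h1]

theorem ConfL_cnS (n : ℕ) : cnS (n + 1) = 3 / 16 * (lam n / ((n + 3 / 4) * (n + 7 / 4))) := by
  rw [cnS, Nat.add_sub_cancel, mul_div_assoc, Nat.cast_succ]
  congr 3 <;> ring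

theorem ConfL_anti : Antitone fun n : ℕ => lam n / ((n + 3 / 4) * (n + 7 / 4)) := by
  refine antitone_nat_of_succ_le fun n => ?_
  have h1 := cf_lam_pos n
  have h2 : 0 < (n : ℝ) + 3 / 4 := by positivity
  rw [eq_div_of_mul_eq h2.ne' ((mul_comm _ _).trans (cf_lam_succ n)), Nat.cast_succ, div_div,
    div_le_div_iff₀ (by positivity) (by positivity)]
  have h3 : 0 ≤ lam n * ((n + 3 / 4) * (n + 7 / 4)) := by positivity
  nlinarith

theorem lam_diff {n : ℕ} (hn : 1 ≤ n) (hk : n ≤ k) :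
    lam (k + 1) - 2 * lam k + lam (k - 1) ≤ 4 * cnS n := by
  obtain ⟨n, rfl⟩ := Nat.exists_eq_add_of_le' hn
  obtain ⟨m, rfl⟩ := Nat.exists_eq_add_of_le' (hn.trans hk)
  have h1 := ConfL_anti (Nat.le_of_succ_le_succ hk)
  have h2 := cf_lam_succ m
  have h3 := cf_lam_succ (m + 1)
  have h4 : 0 < ((m : ℝ) + 3 / 4) * (m + 7 / 4) := by positivity
  have h5 : lam (m + 1 + 1) - 2 * lam (m + 1) + lam m =
      3 / 4 * (lam m / ((m + 3 / 4) * (m + 7 / 4))) := by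
    rw [← mul_div_assoc, eq_div_iff h4.ne']
    push_cast at h3
    linear_combination ((m : ℝ) + 3 / 4) * h3 + (-(m : ℝ) - 1 / 4) * h2
  rw [Nat.add_sub_cancel, h5, ConfL_cnS]
  linarith
theorem cnS_nonneg {n : ℕ} (hn : 1 ≤ n) : 0 ≤ cnS n := by
  obtain ⟨n, rfl⟩ := Nat.exists_eq_add_of_le' hn
  have h1 := cf_lam_pos n
  rw [ConfL_cnS]
  positivity

theorem kap_symm {D b r : ℝ} (hb : 0 < b) (hb' : b < 2 * D) (hr : 0 < r) :
    Real.Gamma b * kap 1 D b r =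
      (π * r) ^ (2 * (b - D)) * (Real.Gamma (2 * D - b) * kap 1 D (2 * D - b) r) := by
  have h1 := (Real.Gamma_pos_of_pos hb).ne'
  have h2 := (Real.Gamma_pos_of_pos (sub_pos.2 hb')).ne'
  have hA : 0 < π ^ 2 * r ^ 2 := by positivity
  rw [kap, kap, Real.one_rpow, Real.one_rpow, ← mul_assoc, ← mul_assoc (Real.Gamma _),
    mul_one_div_cancel h1, mul_one_div_cancel h2, one_mul, one_mul,
    Real.rpow_mul (by positivity), Real.rpow_two, mul_pow]
  generalize π ^ 2 * r ^ 2 = A at hA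
  have h3 := integral_comp_mul_left_Ioi (fun t : ℝ => t ^ (b - 1) * Real.exp (-(t / 1)) *
    (π / t) ^ D * Real.exp (-(A / t))) 0 hA
  rw [mul_zero, smul_eq_mul, eq_inv_mul_iff_mul_eq₀ hA.ne',
    ← integral_comp_rpow_Ioi _ (show (-1 : ℝ) ≠ 0 by norm_num)] at h3
  rw [← h3, ← integral_const_mul, ← integral_const_mul]
  refine setIntegral_congr_fun measurableSet_Ioi fun u hu => ?_
  have hu' : 0 < u := hu
  simp only [Real.rpow_neg_one, div_one, ← div_eq_mul_inv A u, smul_eq_mul]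
  simp (disch := positivity) only [Real.div_rpow, Real.rpow_sub, two_mul, Real.rpow_add,
    Real.rpow_one, Real.rpow_neg_one, abs_neg, abs_one]
  have h5 : A / (A / u) = u := by field_simp
  rw [h5]
  field_simp
theorem rep_Op {b : ℝ} (hb : 0 < b) :
    RepA (Op b) fun ξ => ((2 ^ b * kap 1 (3 / 2) b ‖ξ‖ : ℝ) : ℂ) := by
  have h1 : Harm 0 fun _ => 1 :=
    ⟨hom_const 1, fun y => by simp [lap, funext (ResHom_pd_const 1 _), ResHom_pd_const]⟩
  have h2 := (rep_pow one_pos h1 (by simpa using hb)).smul (2 ^ b)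
  have h3 : Op b = fun y : R3 => 2 ^ b * ((1 + 1 * ‖y‖ ^ 2) ^ (-b) * 1) := by
    funext y
    rw [Op, Om, Real.div_rpow zero_le_two (by positivity), Real.rpow_neg (by positivity), one_mul,
      mul_one, div_eq_mul_inv]
  rw [h3]
  exact h2.cg (.of_forall fun ξ => by simp)
theorem Dp_eq_of_rep {s : ℝ} (hs : 0 ≤ s) {F G : R3 → ℂ} (h : RepA f F) (h' : RepA g G)
    (he : ∀ ξ, ξ ≠ 0 → sy s ξ * F ξ = G ξ) : Dp s f = g := by
  refine (h.Dp hs).ext h' ?_
  filter_upwards [Measure.ae_ne volume 0] with ξ hξ using he ξ hξ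
theorem lam_Op3 : Lam (Op (3 / 4)) = fun y => lam 0 * Op (9 / 4) y := by
  refine Dp_eq_of_rep (by norm_num) (rep_Op (by norm_num))
    ((rep_Op (b := 9 / 4) (by norm_num)).smul _) fun ξ hξ => ?_
  have h1 := kap_symm (D := 3 / 2) (b := 9 / 4) (by norm_num) (by norm_num) (norm_pos_iff.2 hξ)
  have h2 := (Real.Gamma_pos_of_pos (show (0 : ℝ) < 3 / 4 by norm_num)).ne'
  have h3 : (2 : ℝ) ^ (9 / 4 : ℝ) = 2 ^ (3 / 2 : ℝ) * 2 ^ (3 / 4 : ℝ) := by
    rw [← Real.rpow_add two_pos]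
    norm_num
  rw [sy, ← Complex.ofReal_mul, ← Complex.ofReal_mul, lam, Nat.cast_zero, zero_add, zero_add, h3,
    mul_assoc 2, Real.mul_rpow zero_le_two (by positivity), Complex.ofReal_inj, div_mul_eq_mul_div,
    eq_div_iff h2]
  rw [show 2 * (9 / 4 - 3 / 2 : ℝ) = 3 / 2 by norm_num,
    show 2 * (3 / 2 : ℝ) - 9 / 4 = 3 / 4 by norm_num] at h1
  linear_combination (-(2 ^ (3 / 2 : ℝ) * 2 ^ (3 / 4 : ℝ))) * h1
theorem lam_Op7 : Lam (Op (7 / 4)) = fun y => lam 0 * (3 * Op (13 / 4) y - 2 * Op (9 / 4) y) := by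
  refine Dp_eq_of_rep (by norm_num) (rep_Op (by norm_num))
    ((((rep_Op (b := 13 / 4) (by norm_num)).smul 3).sub
      ((rep_Op (b := 9 / 4) (by norm_num)).smul 2)).smul _) fun ξ hξ => ?_
  have hr := norm_pos_iff.2 hξ
  have h1 := kap_symm (D := 3 / 2) (b := 7 / 4) (by norm_num) (by norm_num) hr
  have h2 := (Real.Gamma_pos_of_pos (show (0 : ℝ) < 3 / 4 by norm_num)).ne'
  have h3 : (2 : ℝ) ^ (13 / 4 : ℝ) = 2 ^ (3 / 2 : ℝ) * 2 ^ (7 / 4 : ℝ) := by
    rw [← Real.rpow_add two_pos]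
    norm_num
  have h4 : (2 : ℝ) ^ (13 / 4 : ℝ) = 2 ^ (9 / 4 : ℝ) * 2 := by
    rw [← Real.rpow_add_one two_ne_zero]
    norm_num
  have h5 := kap_rec (b := 5 / 4) one_pos (by norm_num) hr (3 / 2)
  have h6 := Real.Gamma_add_one (s := 5 / 4) (by norm_num)
  have h7 := Real.Gamma_add_one (s := 3 / 4) (by norm_num)
  have h8 : (π * ‖ξ‖) ^ (3 / 2 : ℝ) * (π * ‖ξ‖) ^ (1 / 2 : ℝ) = (π * ‖ξ‖) ^ 2 := by
    rw [← Real.rpow_add (by positivity), ← Real.rpow_two]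
    norm_num
  rw [sy, ← Complex.ofReal_mul, ← Complex.ofReal_mul, ← Complex.ofReal_mul, ← Complex.ofReal_sub,
    ← Complex.ofReal_mul, lam, Nat.cast_zero, zero_add, zero_add, mul_assoc 2,
    Real.mul_rpow zero_le_two (by positivity), Complex.ofReal_inj, div_mul_eq_mul_div,
    eq_div_iff h2, ← mul_assoc 2, mul_comm 2, ← h4, h3]
  rw [show 2 * (7 / 4 - 3 / 2 : ℝ) = 1 / 2 by norm_num,
    show 2 * (3 / 2 : ℝ) - 7 / 4 = 5 / 4 by norm_num] at h1
  rw [show (5 / 4 : ℝ) + 2 = 13 / 4 by norm_num, show (5 / 4 : ℝ) + 1 = 9 / 4 by norm_num] at h5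
  rw [show (5 / 4 : ℝ) + 1 = 9 / 4 by norm_num] at h6
  rw [show (3 / 4 : ℝ) + 1 = 7 / 4 by norm_num] at h7
  rw [h7] at h1
  rw [h6]
  generalize (2 : ℝ) ^ (3 / 2 : ℝ) = p
  generalize (2 : ℝ) ^ (7 / 4 : ℝ) = q
  linear_combination (4 / 3 * p * q * (π * ‖ξ‖) ^ (3 / 2 : ℝ)) * h1 +
    (4 / 3 * p * q * Real.Gamma (5 / 4) * kap 1 (3 / 2) (5 / 4) ‖ξ‖) * h8 +
    (1 / 3 * p * q * Real.Gamma (5 / 4)) * h5
theorem InA.add (h : InA f) (h' : InA g) : InA fun y => f y + g y :=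
  let ⟨_, h⟩ := h; let ⟨_, h'⟩ := h'; ⟨_, h.add h'⟩
theorem InA.cmul (h : InA f) (c : ℝ) : InA fun y => c * f y :=
  let ⟨_, h⟩ := h; ⟨_, h.smul c⟩
theorem PolyF.inA (h : PolyF k f) : InA (Op (3 / 4) * f) := by
  obtain ⟨c, hc⟩ := h.sub_const
  have h1 := ((ResLoc_mul (sym_Op (3 / 4)) hc).hinf (by norm_num)).inA.add
    (InA.cmul ⟨_, rep_Op (b := 3 / 4) (by norm_num)⟩ c)
  rwa [show (fun y => Op (3 / 4) y * (f y - c) + c * Op (3 / 4) y) = Op (3 / 4) * f from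
    funext fun y => by rw [Pi.mul_apply]; ring] at h1

end Pool.Agent.Work.MP_6bf1e5_an.H
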