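import Pool.Agent.Work.MP_6bf1e5_an.H.ConfP
import Pool.Agent.Work.MP_6bf1e5_an.H.ConfL

/-!
Conformal part: the dissipation is diagonal on spherical harmonics.
Hints. Eig is closed under sums and multiples (Dp_add, Dp_smul, PolyF.inA). pd_Op_split:
pd j (Op a * Y) = Op a * (pd j Y - a sig j Y) and pd j Y = (pd j Y - Xd j Y) + Xd j Y. eig_step: apply pd_Dp to the
equation for Y, use pd_Op_split with a = 3/4 and a = 9/4, the equations for R = pd j Y - Xd j Y (HF.same) and B, and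
cf_lam_succ (for k = 0 the function B vanishes). HF.span: PolyF.span, PolyF.top for each q j, split4 for the top parts;
the difference is in HF (k + 2) and in PolyF (k + 1), HF.eq_zero. Degree 0: zero_const and lam_Op3. Degree 1:
HF.hom, HomF.span with k = 0, zero_const; sig j from eig_step with Y = 1, sig last from lam_Op3 and lam_Op7.
HF.lam: strong induction. PolyF.lam: decomp.
-/

open scoped ContDiff ENNReal FourierTransform Real
open Set MeasureTheory

namespace Pool.Agent.Work.MP_6bf1e5_an.H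

/-- The eigenvalue equation. -/
def Eig (e : ℝ) (Y : Sc) : Prop := Lam (Op (3 / 4) * Y) = fun y => e * (Op (9 / 4) y * Y y)

variable {k n : ℕ} {f Y Z A B : Sc} {e : ℝ}

theorem ConfM_add (hY : PolyF k Y) (hZ : PolyF n Z) (y : R3) :
    Lam (Op (3 / 4) * fun y => Y y + Z y) y = Lam (Op (3 / 4) * Y) y + Lam (Op (3 / 4) * Z) y := by
  rw [show (Op (3 / 4) * fun y => Y y + Z y) = Op (3 / 4) * Y + Op (3 / 4) * Z from mul_add _ Y Z]
  exact congrFun (Dp_add hY.inA hZ.inA (by norm_num)) y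

theorem ConfM_cmul (hY : PolyF k Y) (c : ℝ) (y : R3) :
    Lam (Op (3 / 4) * fun y => c * Y y) y = c * Lam (Op (3 / 4) * Y) y := by
  rw [show (Op (3 / 4) * fun y => c * Y y) = fun y => c * (Op (3 / 4) * Y) y from
    funext fun y => mul_left_comm _ _ _]
  exact congrFun (Dp_smul hY.inA (by norm_num) c) y

theorem Eig.add (h : Eig e Y) (h' : Eig e Z) (hY : PolyF k Y) (hZ : PolyF n Z) :
    Eig e fun y => Y y + Z y := by
  funext y
  rw [ConfM_add hY hZ, h, h']
  ring

theorem Eig.cmul (h : Eig e Y) (hY : PolyF k Y) (c : ℝ) : Eig e fun y => c * Y y := by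
  funext y
  rw [ConfM_cmul hY, h]
  ring

theorem ConfM_sum {F : Fin 3 → Sc} (h : ∀ j, Eig e (F j)) (hF : ∀ j, PolyF k (F j)) :
    Eig e fun y => ∑ j, F j y := by
  simp only [Fin.sum_univ_three]
  exact ((h 0).add (h 1) (hF 0) (hF 1)).add (h 2) ((hF 0).add (hF 1)) (hF 2)

theorem pd_Op_split (hY : ContDiff ℝ ∞ Y) (j : Fin 3) (h1 : ∀ y, sig j.castSucc y * Y y = A y + B y)
    (h2 : ∀ y, Xs j.castSucc Y y = -(k * A y) + (k + 2) * B y) (a : ℝ) (y : R3) :
    pd j (Op a * Y) y =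
      Op a y * ((pd j Y y - Xd j Y y) - (k + a) * A y + (k + 2 - a) * B y) := by
  have h3 := h1 y
  have h4 := h2 y
  rw [sig_cast] at h3
  rw [Xs_cast] at h4
  rw [show Op a * Y = fun y => Op a y * Y y from rfl, Dyn.pd_mul (cf_Op_smooth a) hY]
  simp only [cf_pd_Op]
  linear_combination -(a * Op a y) * h3 + Op a y * h4

theorem eig_step (ih : ∀ m ≤ k, ∀ Z, HF m Z → Eig (lam m) Z) (h : HF k Y) (j : Fin 3)
    (hA : HF (k + 1) A) (hB : HF (k - 1) B) (h0 : k = 0 → B = fun _ => 0)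
    (h1 : ∀ y, sig j.castSucc y * Y y = A y + B y)
    (h2 : ∀ y, Xs j.castSucc Y y = -(k * A y) + (k + 2) * B y) : Eig (lam (k + 1)) A := by
  have hR := h.same j
  have e1 : pd j (Op (3 / 4) * Y) = Op (3 / 4) * fun y =>
      ((pd j Y y - Xd j Y y) + (k + 5 / 4) * B y) + -(k + 3 / 4) * A y := funext fun y => by
    rw [pd_Op_split h.1.smooth j h1 h2, Pi.mul_apply]
    ring
  have e2 : pd j (Lam (Op (3 / 4) * Y)) = Lam (pd j (Op (3 / 4) * Y)) :=
    pd_Dp h.1.inA (by norm_num) j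
  have hBk : PolyF k B := hB.1.mono (Nat.sub_le k 1)
  funext y
  have e3 := congrFun e2 y
  rw [e1, ConfM_add (hR.1.add (hBk.cmul _)) (hA.1.cmul _), ConfM_add hR.1 (hBk.cmul _),
    ConfM_cmul hBk, ConfM_cmul hA.1, ih k le_rfl _ hR, ih _ (Nat.sub_le k 1) _ hB, ih k le_rfl _ h,
    Dyn.pd_cmul ((cf_Op_smooth _).mul h.1.smooth)] at e3
  have e4 := pd_Op_split h.1.smooth j h1 h2 (9 / 4) y
  have e5 : (k - 1 / 4) * lam k * B y = (k + 5 / 4) * lam (k - 1) * B y := by
    rcases k with _ | k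
    · simp [h0 rfl]
    · have := cf_lam_succ k
      rw [Nat.add_sub_cancel]
      push_cast
      linear_combination B y * this
  refine mul_left_cancel₀ (show (k + 3 / 4 : ℝ) ≠ 0 by positivity) ?_
  change lam k * pd j (Op (9 / 4) * Y) y = _ at e3
  linear_combination e3 - lam k * e4 - Op (9 / 4) y * e5 - Op (9 / 4) y * A y * cf_lam_succ k

theorem HF.span (h : HF (k + 2) Y) : ∃ Z A B : Fin 3 → Sc, (∀ j, HF (k + 1) (Z j) ∧
    HF (k + 2) (A j) ∧ HF k (B j) ∧ (∀ y, sig j.castSucc y * Z j y = A j y + B j y) ∧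
    ∀ y, Xs j.castSucc (Z j) y = -((k + 1 : ℕ) * A j y) + ((k + 1 : ℕ) + 2) * B j y) ∧
    Y = fun y => ∑ j, A j y := by
  obtain ⟨g, q, hg, hq, e1⟩ := h.1.span
  choose Z r hZ hr e2 using fun j => (hq j).top
  choose A B hA hB _ h1 h2 using fun j : Fin 3 => (hZ j).split4 j.castSucc
  refine ⟨Z, A, B, fun j => ⟨hZ j, hA j, hB j, h1 j, h2 j⟩, ?_⟩
  have e3 : (fun y => Y y - ∑ j, A j y) =
      fun y => g y + ∑ j : Fin 3, (B j y + sig j.castSucc y * r j y) := funext fun y => by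
    rw [e1]
    simp only [e2, mul_add, h1, Finset.sum_add_distrib]
    ring
  have e4 := (h.sub (HF.sum Finset.univ fun j _ => hA j)).eq_zero (n := k + 1) (by
    rw [e3]
    exact hg.add (PolyF.sum _ fun j _ =>
      ((hB j).1.mono (Nat.le_succ k)).add ((hr j).sig_mul _))) (Nat.lt_succ_self _)
  exact funext fun y => sub_eq_zero.1 (congrFun e4 y)

theorem ConfM_one : Eig (lam 0) fun _ => 1 := by
  rw [Eig, show (Op (3 / 4) * fun _ => 1) = Op (3 / 4) from mul_one _, lam_Op3]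
  simp

theorem eig_zero (h : HF 0 Y) : Eig (lam 0) Y := by
  obtain ⟨c, rfl⟩ := h.1.zero_const
  simpa using ConfM_one.cmul (polyF_const 0 1) c

theorem ConfM_last : Eig (lam 1) (sig (Fin.last 3)) := by
  funext y
  have e1 : Op (3 / 4) * Om = Op (7 / 4) := funext fun y => by
    rw [Pi.mul_apply, ← cf_Op_succ]
    norm_num
  have e2 : Op (13 / 4) y = Op (9 / 4) y * Om y := by
    rw [← cf_Op_succ]
    norm_num
  have e3 := cf_lam_succ 0
  rw [show sig (Fin.last 3) = fun y => 1 + -1 * Om y from funext fun y => by rw [sig_last]; ring,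
    ConfM_add (polyF_const 0 1) (polyF_Om.cmul _), ConfM_cmul polyF_Om, ConfM_one, e1, lam_Op7]
  simp only [e2]
  push_cast at e3
  linear_combination -(4 / 3 * Op (9 / 4) y * (1 - Om y)) * e3

theorem ConfM_sig (j : Fin 3) : Eig (lam 1) (sig j.castSucc) :=
  eig_step (k := 0) (Y := fun _ => 1) (B := fun _ => 0)
    (fun m hm Z hZ => by obtain rfl := Nat.le_zero.1 hm; exact eig_zero hZ)
    (polyF_const 0 1).hf_zero j (hf_sig _) (hf_zero _) (fun _ => rfl) (fun y => by simp)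
    fun y => by simp [Xs_const]

theorem eig_one (h : HF 1 Y) : Eig (lam 1) Y := by
  obtain ⟨c, q, hq, rfl⟩ := HomF.span (k := 0) h.hom
  choose d hd using fun j => (hq j).zero_const
  simp only [hd, zero_add, pow_one, mul_comm (sig _ _)]
  exact (ConfM_last.cmul (polyF_sig _) c).add
    (ConfM_sum (fun j => (ConfM_sig j).cmul (polyF_sig _) (d j)) fun j => (polyF_sig _).cmul _)
    ((polyF_sig _).cmul c) (PolyF.sum _ fun j _ => (polyF_sig _).cmul _)

theorem HF.lam (h : HF k Y) : Lam (Op (3 / 4) * Y) = fun y => lam k * (Op (9 / 4) y * Y y) := by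
  induction k using Nat.strong_induction_on generalizing Y with
  | _ k ih =>
    obtain _ | _ | k := k
    · exact eig_zero h
    · exact eig_one h
    · obtain ⟨Z, A, B, h1, rfl⟩ := h.span
      exact ConfM_sum (fun j => eig_step (fun m hm Z hZ => ih m (by omega) hZ) (h1 j).1 j
        (h1 j).2.1 (h1 j).2.2.1 (fun h0 => absurd h0 (Nat.succ_ne_zero k)) (h1 j).2.2.2.1
        (h1 j).2.2.2.2) fun j => (h1 j).2.1.1

theorem PolyF.lam (h : PolyF k f) :
    ∃ g, PolyF k g ∧ Lam (Op (3 / 4) * f) = Op (9 / 4) * g := by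
  induction k generalizing f with
  | zero =>
    exact ⟨_, h.cmul (lam 0), h.hf_zero.lam.trans (funext fun y => mul_left_comm _ _ _)⟩
  | succ k ih =>
    obtain ⟨Z, r, hZ, hr, rfl⟩ := h.top
    obtain ⟨g, hg, e1⟩ := ih hr
    refine ⟨_, (hZ.1.cmul (lam (k + 1))).add (hg.mono k.le_succ), funext fun y => ?_⟩
    rw [ConfM_add hZ.1 hr, hZ.lam, e1, Pi.mul_apply, Pi.mul_apply]
    ring

end Pool.Agent.Work.MP_6bf1e5_an.H
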