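import Pool.Agent.Work.MP_6bf1e5_an.H.ConfT
import Pool.Agent.Work.MP_6bf1e5_an.H.ConfM

/-!
Conformal part: the tail inequality for the dissipation.
Hints. phi = Op (-3/4) * f, psi = Op (-5/4) * Lam f (Hinf.l2s, Hinf.Dp). tri_lam: ipS psi Z is the integral of
Lam f * (Op (7/4) Z), Op (7/4) Z = Op (3/4) (Z - A - B) is Hinf (Sym.hinf), Dp_symm, then Dp_add, Dp_smul,
PolyF.inA, HF.lam. tail_frac: exists_gr_low (f * Op (9/4) g = Om ^ 3 phi g), tri with lam_mono, lam_le, lam_diff.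
-/

open scoped ContDiff ENNReal FourierTransform Real
open Set MeasureTheory

namespace Pool.Agent.Work.MP_6bf1e5_an.H

variable {n : ℕ} {f : Sc}

theorem ConfF_pow (a b : ℝ) (h : a = 3 + b) (y : R3) : Op a y = Om y ^ 3 * Op b y := by
  rw [h, cf_Op_add, ← cf_Op_nat]
  norm_num

theorem tri_lam (hf : Hinf f) :
    Tri lam (fun y => Op (-3 / 4) y * f y) fun y => Op (-5 / 4) y * Lam f y := by
  intro k Z A B hZ hA hB h1
  have hs : (0 : ℝ) ≤ 3 / 2 := by norm_num
  have hg : Hinf fun y => Op (7 / 4) y * Z y :=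
    (ResLoc_mul (sym_Op (7 / 4)) hZ.1.sym).hinf (by norm_num)
  have e : (fun y => Op (7 / 4) y * Z y) = (Op (3 / 4) * Z + fun y => -1 * (Op (3 / 4) * A) y)
      + fun y => -1 * (Op (3 / 4) * B) y := by
    funext y
    have h2 := h1 y
    rw [sig_last] at h2
    rw [show (7 / 4 : ℝ) = 3 / 4 + 1 by norm_num, cf_Op_succ]
    simp only [Pi.add_apply, Pi.mul_apply]
    linear_combination (-Op (3 / 4) y) * h2
  have hL : Dp (3 / 2) (fun y => Op (7 / 4) y * Z y) = fun y => Op (9 / 4) y *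
      (lam k * Z y - lam (k + 1) * A y - lam (k - 1) * B y) := by
    have a1 := hZ.lam
    have a2 := hA.lam
    have a3 := hB.lam
    unfold Lam at a1 a2 a3
    have i1 : InA (Op (3 / 4) * Z + fun y => -1 * (Op (3 / 4) * A) y) :=
      hZ.1.inA.add (hA.1.inA.cmul _)
    rw [e, Dp_add i1 (hB.1.inA.cmul _) hs,
      Dp_add hZ.1.inA (hA.1.inA.cmul _) hs, Dp_smul hA.1.inA hs, Dp_smul hB.1.inA hs, a1, a2, a3]
    funext y
    simp only [Pi.add_apply]
    ring
  have h3 := Dp_symm hf hg hs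
  rw [hL] at h3
  unfold ipS
  convert h3 using 3 with y y
  · rw [ConfF_pow (7 / 4) (-5 / 4) (by norm_num)]
    unfold Lam
    ring
  · beta_reduce
    rw [ConfF_pow (9 / 4) (-3 / 4) (by norm_num)]
    ring

theorem tail_frac (hn : 1 ≤ n) (hf : Hinf f) (Y : ℕ → Sc) (hY : ∀ k < n, HF k (Y k))
    (hp : Perp (9 / 4) n fun y => f y - Op (3 / 4) y * ∑ k ∈ Finset.range n, Y k y) :
    (∫ y, (lamS n * Op (5 / 2) y - cnS n * Op (3 / 2) y) * f y ^ 2)
      + ∫ y, Om y ^ 4 * ((∑ k ∈ Finset.range n, (lam k - lamS n) * Y k y)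
        * ∑ k ∈ Finset.range n, Y k y) ≤ ∫ y, Lam f y * (Om y * f y) := by
  have hφ := hf.l2s (b := -3 / 4) (by norm_num)
  have hψ := (Dyn.hinf_lam hf).l2s (b := -5 / 4) (by norm_num)
  have hS : L2S fun y => ∑ k ∈ Finset.range n, Y k y :=
    L2S.sum _ fun k hk => (hY k (Finset.mem_range.1 hk)).1.l2s
  have e3 : ∀ y, Op (-3 / 4) y * Op (3 / 4) y = 1 := fun y => by
    rw [← cf_Op_add, show (-3 / 4 + 3 / 4 : ℝ) = 0 by norm_num, cf_Op_zero]
  obtain ⟨Z, hZ, hZY⟩ := exists_gr_low hφ hY fun k hk g hg => by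
    have h1 := hp k hk g hg
    rw [← sub_eq_zero, ipS_comm _ g, ipS_comm _ g, ← ipS_sub hg.l2s hφ hS, ← h1]
    unfold ipS
    congr 1
    funext y
    rw [ConfF_pow (9 / 4) (-3 / 4) (by norm_num)]
    linear_combination (Om y ^ 3 * g y * ∑ k ∈ Finset.range n, Y k y) * e3 y
  have h := tri hn hφ hψ hZ (tri_lam hf) lam_mono (C := 2 * lam 0)
    (fun k => (abs_of_pos (cf_lam_pos k)).trans_le (lam_le k)) (cnS_nonneg hn)
    fun k hk => lam_diff hn hk
  have s1 : ∀ y, ∑ k ∈ Finset.range n, Z k y = ∑ k ∈ Finset.range n, Y k y := fun y =>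
    Finset.sum_congr rfl fun k hk => by rw [hZY k (Finset.mem_range.1 hk)]
  have s2 : ∀ y, ∑ k ∈ Finset.range n, (lam k - (lam (n - 1) + lam n) / 2) * Z k y =
      ∑ k ∈ Finset.range n, (lam k - lamS n) * Y k y := fun y =>
    Finset.sum_congr rfl fun k hk => by rw [hZY k (Finset.mem_range.1 hk), lamS]
  simp only [s1, s2] at h
  have e1 : ∀ y, Op (3 / 2) y = Om y ^ 3 * (Op (-3 / 4) y * Op (-3 / 4) y) := fun y => by
    rw [← cf_Op_add, ConfF_pow (3 / 2) (-3 / 4 + -3 / 4) (by norm_num)]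
  have e2 : ∀ y, Op (5 / 2) y = Op (3 / 2) y * Om y := fun y => by
    rw [← cf_Op_succ]
    norm_num
  have e4 : ∀ y, Om y = Om y ^ 3 * (Op (-5 / 4) y * Op (-3 / 4) y) := fun y => by
    rw [← cf_Op_add, ← ConfF_pow 1 (-5 / 4 + -3 / 4) (by norm_num), cf_Op_one]
  convert h using 2
  · unfold ipS
    rw [← integral_const_mul, ← integral_const_mul, ← integral_sub
      (((hφ.poly_mul polyF_Om).int hφ).const_mul _) ((hφ.int hφ).const_mul _)]
    congr 1
    funext y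
    rw [e2, e1, lamS]
    ring
  · unfold ipS
    congr 1
    funext y
    linear_combination (Lam f y * f y) * e4 y

end Pool.Agent.Work.MP_6bf1e5_an.H
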