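import Pool.Agent.Work.MP_6bf1e5_an.H.ConfT
import Pool.Agent.Work.MP_6bf1e5_an.H.ConfE

/-!
Conformal part: the local tail inequalities.
Hints. int_yd: int_pd_zero for Op b * y_j * f ^ 2 (b >= 1/2 makes Op b * y_j bounded), cf_pd_Op, cf_Om_norm.
dir_conj: pd j (Op (1/4) f) = Op (1/4) (pd j f - Om y_j f / 4), expand the square, int_yd with b = a + 3/2.
tail_loc3: phi = Op (1/4) * f is Hinf (Hinf.mul_sym), dir_gap, dir_conj with a = 1. tri_DD: psi = Om * DD phi is in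
L2S by DD_pt; ipS psi Z = dirS phi (Om Z) by integration by parts, then dir_DD and HF.dd with Om Z = Z - A - B.
dir_weight: ipS (Om DD phi) phi is minus the integral of the sum of pd j (Om pd j phi) * (Om phi); Dyn.ibp, then
int_yd with b = 3. tail_loc5: tri with e k = k (k + 2), c = 1/2, C = 1 and Y k = 0 for k < n (exists_gr_low with
Y = 0), dir_weight, dir_conj with a = 2.
-/

open scoped ContDiff ENNReal FourierTransform Real
open Set MeasureTheory

namespace Pool.Agent.Work.MP_6bf1e5_an.H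

variable {n : ℕ} {f φ : Sc}

theorem ConfG_int {g w : Sc} {m : ℝ} (hw : Sym m w) (hm : m ≤ 0) (hf : Hinf f) (hg : Hinf g) :
    Integrable fun y => w y * (f y * g y) := by
  simpa only [mul_left_comm, mul_assoc] using hw.bd.int_hinf2 hm hf hg

theorem ConfG_wt (hf : Hinf f) {a : ℝ} (ha : 0 ≤ a) (c d : ℝ) {A : Sc}
    (e : ∀ y, A y = Op a y * (c + d * Om y) * f y ^ 2) : Integrable A := by
  rw [funext e]
  simpa only [sq] using ConfG_int (ResLoc_mul (sym_Op a) (ResLoc_add (cf_sym_const c)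
    (ResLoc_cmul (ResLoc_mono cf_sym_Om (by norm_num)) d))) (by linarith) hf hf

theorem ConfG_lin (hf : Hinf f) {a : ℝ} (ha : 0 ≤ a) (c d : ℝ) {A : Sc}
    (e : ∀ y, A y = Op a y * (c + d * Om y) * f y ^ 2) :
    ∫ y, A y = c * (∫ y, Op a y * f y ^ 2) + d * ∫ y, Op a y * Om y * f y ^ 2 := by
  rw [← integral_const_mul, ← integral_const_mul, ← integral_add
    (ConfG_wt hf ha c 0 fun y => by ring) (ConfG_wt hf ha 0 d fun y => by ring)]
  exact integral_congr_ae (ae_of_all _ fun y => (e y).trans (by ring))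

theorem ConfG_grad (hf : Hinf f) {a : ℝ} (ha : 0 ≤ a) :
    Integrable fun y => Op a y * ∑ j, pd j f y ^ 2 := by
  simpa only [sq, Finset.mul_sum] using integrable_finsetSum _ fun j _ =>
    ConfG_int (sym_Op a) (by linarith) (hf.pd j) (hf.pd j)

theorem ConfG_yd (hf : Hinf f) {b : ℝ} (hb : 1 / 2 ≤ b) (c : ℝ) {A B : Sc} (hB : Integrable B)
    (e : ∀ y, A y = B y + c * (Op b y * (3 - b * (2 - Om y)) * f y ^ 2 +
      2 * (Op b y * (f y * yd f y)))) : ∫ y, A y = ∫ y, B y := by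
  have hw := fun j => ResLoc_mul (sym_Op b) (cf_sym_coord j)
  have h1 : ∀ j, pd j (fun y => Op b y * y j * (f y * f y)) = fun y =>
      pd j (fun y => Op b y * y j) y * (f y * f y) + 2 * (Op b y * y j * (f y * pd j f y)) := by
    intro j
    rw [Dyn.pd_mul (hw j).1 (hf.1.mul hf.1), Dyn.pd_mul hf.1 hf.1]
    funext y
    ring
  have h2 : ∀ j, Integrable (pd j fun y => Op b y * y j * (f y * f y)) := fun j => by
    rw [h1]
    exact (ConfG_int (ResLoc_pd (hw j) j) (by linarith) hf hf).add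
      ((ConfG_int (hw j) (by linarith) hf (hf.pd j)).const_mul 2)
  have h3 : ∀ y, A y = B y + c * ∑ j, pd j (fun y => Op b y * y j * (f y * f y)) y := fun y => by
    have h4 := cf_Om_norm y
    simp only [e, h1, Dyn.pd_mul (cf_Op_smooth b) (Dyn.coord_smooth _), Dyn.pd_coord, if_true,
      cf_pd_Op, yd, Fin.sum_univ_three] at h4 ⊢
    linear_combination c * b * Op b y * f y ^ 2 * h4
  rw [funext h3, integral_add hB ((integrable_finsetSum _ fun j _ => h2 j).const_mul c),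
    integral_const_mul, integral_finsetSum _ fun j _ => h2 j,
    Finset.sum_eq_zero fun j _ => int_pd_zero ((hw j).1.mul (hf.1.mul hf.1)) j
      (ConfG_int (hw j) (by linarith) hf hf) (h2 j), mul_zero, add_zero]

theorem int_yd (hf : Hinf f) {b : ℝ} (hb : 1 / 2 ≤ b) :
    ∫ y, Op b y * (f y * yd f y) = -(1 / 2) * ∫ y, Op b y * (3 - b * (2 - Om y)) * f y ^ 2 := by
  rw [← integral_const_mul]
  exact ConfG_yd hf hb (1 / 2) (ConfG_wt hf (by linarith : 0 ≤ b) (b - 3 / 2) (-(b / 2))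
    fun y => by ring) fun y => by ring

theorem dir_conj (hf : Hinf f) {a : ℝ} (ha : 0 ≤ a) :
    ∫ y, Op a y * ∑ j, pd j (fun y => Op (1 / 4) y * f y) y ^ 2 =
      (∫ y, Op (a + 1 / 2) y * ∑ j, pd j f y ^ 2) + ∫ y, Op (a + 3 / 2) y *
        ((3 - (a + 3 / 2) * (2 - Om y)) / 4 + (2 - Om y) / 16) * f y ^ 2 := by
  have h1 := ConfG_grad hf (a := a + 1 / 2) (by linarith)
  have h2 := ConfG_wt hf (a := a + 3 / 2) (by linarith) (-(a / 2) + 1 / 8) (a / 4 + 5 / 16)
    (A := fun y => Op (a + 3 / 2) y * ((3 - (a + 3 / 2) * (2 - Om y)) / 4 + (2 - Om y) / 16) *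
      f y ^ 2) fun y => by ring
  rw [← integral_add h1 h2]
  refine ConfG_yd hf (b := a + 3 / 2) (by linarith) (-(1 / 4)) (h1.add h2) fun y => ?_
  have h3 := cf_Om_norm y
  have h4 : Op (a + 1 / 2) y = Op a y * Op (1 / 4) y ^ 2 := by
    rw [sq, ← cf_Op_add, ← cf_Op_add]
    norm_num
  have h5 : Op (a + 3 / 2) y = Op a y * Op (1 / 4) y ^ 2 * Om y := by
    rw [← h4, ← cf_Op_succ, add_assoc]
    norm_num
  simp only [h4, h5, Dyn.pd_mul (cf_Op_smooth _) hf.1, cf_pd_Op, yd,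
    Fin.sum_univ_three] at h3 ⊢
  linear_combination Op a y * Op (1 / 4) y ^ 2 * Om y * f y ^ 2 / 16 * h3

theorem ConfG_half (k : ℕ) {b : ℝ} (hb : b = k + 1 / 2) (y : R3) :
    Op b y = Om y ^ k * Op (1 / 4) y ^ 2 := by
  rw [sq, ← cf_Op_add, ← cf_Op_nat, ← cf_Op_add, hb]
  norm_num

theorem ConfG_phi (hf : Hinf f) : Hinf fun y => Op (1 / 4) y * f y :=
  hf.mul_sym (ResLoc_mono (sym_Op _) (by norm_num))

theorem ConfG_perp (hp : Perp (13 / 4) n f) : ∀ j < n, ∀ g, PolyF j g →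
    ipS (fun y => Op (1 / 4) y * f y) g = 0 := fun j hj g hg => by
  refine Eq.trans (integral_congr_ae (ae_of_all _ fun y => ?_)) (hp j hj g hg)
  have h : Op (13 / 4) y = Om y ^ 3 * Op (1 / 4) y := by
    rw [← cf_Op_nat, ← cf_Op_add]
    norm_num
  simp only [h]
  ring

theorem tail_loc3 (hf : Hinf f) (hp : Perp (13 / 4) n f) :
    ∫ y, Op (5 / 2) y * (n * (n + 2) * Om y + 3 / 8 - 9 / 16 * Om y) * f y ^ 2
      ≤ ∫ y, Op (3 / 2) y * ∑ j, pd j f y ^ 2 := by
  have h1 := dir_gap (ConfG_phi hf) (ConfG_perp hp)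
  have h2 := dir_conj hf zero_le_one
  have a0 : (0 : ℝ) ≤ 5 / 2 := by norm_num
  simp only [cf_Op_one, show (1 + 1 / 2 : ℝ) = 3 / 2 by norm_num,
    show (1 + 3 / 2 : ℝ) = 5 / 2 by norm_num] at h2
  simp only [dirS, ← sq] at h1
  rw [ipS, ConfG_lin hf a0 0 1 fun y => by rw [ConfG_half 2 (b := 5 / 2) (by norm_num)]; ring, h2,
    ConfG_lin hf a0 (-(3 / 8)) (9 / 16) (A := fun y => Op (5 / 2) y * (_ + _) * f y ^ 2)
      fun y => by ring] at h1
  rw [ConfG_lin hf a0 (3 / 8) (n * (n + 2) - 9 / 16) fun y => by ring]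
  linarith

theorem l2s_DD (h : Hinf φ) : L2S fun y => Om y * DD φ y := by
  have h1 := ((Dyn.hinf_sum Finset.univ fun j _ => (h.pd j).pd j).l2s (b := -1)
    (by norm_num)).cmul (-1)
  have h2 := L2S.sum Finset.univ fun j _ =>
    ((h.pd j).l2s (b := -1) (by norm_num)).poly_mul (polyF_sig j.castSucc)
  convert h1.add h2 using 2 with y
  have h3 := (Dyn.Om_pos y).ne'
  simp only [DD_pt h.1, sig_cast, lap, yd, Op, Real.rpow_neg_one, Fin.sum_univ_three]
  field_simp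

theorem ConfG_Om (h : Hinf φ) : Hinf fun y => Om y * φ y :=
  h.mul_sym (ResLoc_mono cf_sym_Om (by norm_num))

theorem ConfG_dd (h : Hinf φ) {Z : Sc} (hZ : Hinf fun y => Om y * Z y) :
    ipS (fun y => Om y * DD φ y) Z = dirS φ fun y => Om y * Z y := by
  have h1 := fun j => ConfG_Om (h.pd j)
  have h2 : ∀ y, Om y ^ 3 * (Om y * DD φ y * Z y) =
      -∑ j, pd j (fun z => Om z * pd j φ z) y * (Om y * Z y) := fun y => by
    have h3 := (Dyn.Om_pos y).ne'
    rw [DD, ← Finset.sum_mul]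
    field_simp
  simp only [ipS, dirS, h2, Finset.mul_sum, ← mul_assoc]
  simp only [mul_assoc _ (Om _) (Z _)]
  rw [integral_neg, integral_finsetSum _ fun j _ => Dyn.int_mul ((h1 j).pd j) hZ,
    integral_finsetSum _ fun j _ => Dyn.int_mul (h1 j) (hZ.pd j), ← Finset.sum_neg_distrib]
  exact Finset.sum_congr rfl fun j _ => by rw [Dyn.ibp (h1 j) hZ, neg_neg]

theorem tri_DD (h : Hinf φ) : Tri (fun k => k * (k + 2)) φ fun y => Om y * DD φ y := by
  intro k Z A B hZ hA hB e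
  have e1 : (fun y => Om y * Z y) = fun y => Z y - A y - B y := funext fun y => by
    have := e y
    rw [sig_last] at this
    linarith
  rw [ConfG_dd h ((ResLoc_mul cf_sym_Om hZ.1.sym).hinf (by norm_num)),
    dir_DD h.cb (polyF_Om.mul hZ.1), e1]
  congr 1
  funext y
  rw [DD_sub (hZ.1.smooth.sub hA.1.smooth) hB.1.smooth, DD_sub hZ.1.smooth hA.1.smooth, hZ.dd, hA.dd,
    hB.dd]

theorem dir_weight (h : Hinf φ) : ipS (fun y => Om y * DD φ y) φ =
    (∫ y, Om y ^ 2 * ∑ j, pd j φ y ^ 2) - 3 / 2 * ∫ y, Om y ^ 3 * (1 - Om y) * φ y ^ 2 := by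
  have h1 := ConfG_grad h (a := (2 : ℕ)) (by norm_num)
  have h2 := ConfG_wt h (a := (3 : ℕ)) (by norm_num) (3 / 2) (-(3 / 2))
    (A := fun y => 3 / 2 * (Om y ^ 3 * (1 - Om y) * φ y ^ 2)) fun y => by rw [cf_Op_nat]; ring
  simp only [cf_Op_nat] at h1
  rw [ConfG_dd h (ConfG_Om h), ← integral_const_mul, ← integral_sub h1 h2]
  refine ConfG_yd h (b := (3 : ℕ)) (by norm_num) (-(1 / 2)) (h1.sub h2) fun y => ?_
  simp only [cf_Op_nat, Dyn.pd_mul Dyn.Om_smooth h.1, cf_pd_Om, yd,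
    Fin.sum_univ_three]
  push_cast
  ring

theorem tail_loc5 (hn : 1 ≤ n) (hf : Hinf f) (hp : Perp (13 / 4) n f) :
    ∫ y, Op (7 / 2) y * ((n ^ 2 + n - 1 / 2) * Om y + 15 / 8 - 37 / 16 * Om y) * f y ^ 2
      ≤ ∫ y, Op (5 / 2) y * ∑ j, pd j f y ^ 2 := by
  have hφ := ConfG_phi hf
  have l2 : L2S fun y => Op (1 / 4) y * f y := hf.l2s (by norm_num)
  obtain ⟨Y, hY, h0⟩ := exists_gr_low (n := n) (Y := fun _ _ => 0) l2 (fun k _ => hf_zero k)
    fun k hk g hg => (ConfG_perp hp k hk g hg).trans (by simp [ipS])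
  have h1 := tri (c := 1 / 2) (C := 1) hn l2 (l2s_DD hφ) hY (tri_DD hφ)
    (fun a b hab => by gcongr)
    (fun k => by rw [abs_of_nonneg (by positivity)]; nlinarith) (by norm_num) fun k hk => by
      rw [Nat.cast_pred (by omega), Nat.cast_succ]
      linarith
  have h2 := dir_conj hf (a := (2 : ℕ)) (by norm_num)
  have h3 : ∀ y, ∑ k ∈ Finset.range n, Y k y = 0 := fun y =>
    Finset.sum_eq_zero fun k hk => congrFun (h0 k (Finset.mem_range.1 hk)) y
  have a0 : (0 : ℝ) ≤ 7 / 2 := by norm_num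
  have e := ConfG_half 3 (b := 7 / 2) (by norm_num)
  simp only [cf_Op_nat, show ((2 : ℕ) + 1 / 2 : ℝ) = 5 / 2 by norm_num,
    show ((2 : ℕ) + 3 / 2 : ℝ) = 7 / 2 by norm_num] at h2
  simp only [h3, mul_zero, integral_zero] at h1
  rw [dir_weight hφ, h2, ipS, ipS, Nat.cast_pred hn,
    ConfG_lin hf a0 0 1 fun y => by rw [e]; ring,
    ConfG_lin hf a0 1 0 (A := fun y => Om y ^ 3 * _) fun y => by rw [e]; ring,
    ConfG_lin hf a0 1 (-1) (A := fun y => Om y ^ 3 * _ * _) fun y => by rw [e]; ring,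
    ConfG_lin hf a0 (-(7 / 8)) (13 / 16) (A := fun y => Op (7 / 2) y * (_ + _) * f y ^ 2)
      fun y => by ring] at h1
  rw [ConfG_lin hf a0 (15 / 8) (n ^ 2 + n - 1 / 2 - 37 / 16) fun y => by ring]
  linarith

end Pool.Agent.Work.MP_6bf1e5_an.H
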