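import Pool.Agent.Work.MP_6bf1e5_an.H.ConfI

/-!
Conformal part: raising and lowering of spherical harmonics.
Hints. HF.hom: PolyF.split Y = A + B, ipS Y B = 0 and ipS A B = 0 (parity), hence ipS B B = 0.
up4: by ipS_Xs the product with g is ipS Y (Xs i g + (k - 1) sig i g); reduce to g in PolyF k (mono), split
g = A + B with A in HomF k, B in HomF (k - 1) (k = 0: hom_zero); B gives a polynomial of degree < k
(HomF.down, or zero), A gives HomF (k - 1) minus HomF (k + 1), odd against Y. down4: HF.hom and HomF.down for the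
degree, ipS_Xs and PolyF.xs, sig_mul for the orthogonality. same: PolyF.rot, ipS_rot.
half: induction on k. With A, B from split4 for i = last, int_Xs for f = sig i * Y * Y gives
ipS Y Y = (2 k + 4) ipS A A - 2 k ipS B B (Xs_mul, Xs_sig; A and B are orthogonal, for k = 0 B vanishes);
ipS B B = ipS (sig i * B) Y, so the induction hypothesis for 2 B and Y gives 4 ipS B B <= ipS Y Y, hence
4 ipS A A <= ipS Y Y; finally ipS (sig i * Y) Z = ipS A Z and ipS_young with e = 2.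
-/

open scoped ContDiff ENNReal FourierTransform Real
open Set MeasureTheory

namespace Pool.Agent.Work.MP_6bf1e5_an.H

variable {k n : ℕ} {f g Y Z : Sc} {ι : Type}

theorem ConfH_add {m : ℕ} (h : PolyF k Y) (h' : PolyF n Z) (hg : PolyF m g) :
    ipS (fun y => Y y + Z y) g = ipS Y g + ipS Z g := by
  rw [ipS_comm, ipS_add hg.l2s h.l2s h'.l2s, ipS_comm g, ipS_comm g]

theorem ConfH_sub {m : ℕ} (h : PolyF k Y) (h' : PolyF n Z) (hg : PolyF m g) :
    ipS (fun y => Y y - Z y) g = ipS Y g - ipS Z g := by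
  rw [ipS_comm, ipS_sub hg.l2s h.l2s h'.l2s, ipS_comm g, ipS_comm g]

theorem ConfH_cmul (c : ℝ) (Y g : Sc) : ipS (fun y => c * Y y) g = c * ipS Y g := by
  rw [ipS_comm, ipS_cmul, ipS_comm]

theorem HF.orth_poly (h : HF k Y) (hg : PolyF n g) (hn : n < k) : ipS Y g = 0 := h.2 n hn g hg

theorem HF.orth (h : HF k Y) (h' : HF n Z) (hn : k ≠ n) : ipS Y Z = 0 := by
  rcases lt_or_gt_of_ne hn with h1 | h1
  · rw [ipS_comm]
    exact h'.orth_poly h.1 h1
  · exact h.orth_poly h'.1 h1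

theorem HF.eq_zero (h : HF k Y) (hg : PolyF n Y) (hn : n < k) : Y = fun _ => 0 :=
  ipS_self_zero h.1 (h.orth_poly hg hn)

theorem hf_zero (k : ℕ) : HF k fun _ => 0 :=
  ⟨polyF_const k 0, fun _ _ g _ => by rw [ipS_comm]; exact ipS_zero g⟩

theorem PolyF.hf_zero (h : PolyF 0 f) : HF 0 f := ⟨h, fun _ hj => absurd hj (Nat.not_lt_zero _)⟩

theorem HF.of_orth (h : PolyF (k + 1) f) (ho : ∀ g, PolyF k g → ipS f g = 0) : HF (k + 1) f :=
  ⟨h, fun _ hj g hg => ho g (hg.mono (Nat.lt_succ_iff.1 hj))⟩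

theorem HF.add (h : HF k Y) (h' : HF k Z) : HF k fun y => Y y + Z y :=
  ⟨h.1.add h'.1, fun _ hj g hg => by
    rw [ConfH_add h.1 h'.1 hg, h.orth_poly hg hj, h'.orth_poly hg hj, add_zero]⟩

theorem HF.cmul (h : HF k Y) (c : ℝ) : HF k fun y => c * Y y :=
  ⟨h.1.cmul c, fun _ hj g hg => by rw [ConfH_cmul, h.orth_poly hg hj, mul_zero]⟩

theorem HF.sub (h : HF k Y) (h' : HF k Z) : HF k fun y => Y y - Z y :=
  ⟨h.1.sub h'.1, fun _ hj g hg => by
    rw [ConfH_sub h.1 h'.1 hg, h.orth_poly hg hj, h'.orth_poly hg hj, sub_zero]⟩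

theorem HF.sum (s : Finset ι) {F : ι → Sc} (h : ∀ i ∈ s, HF k (F i)) :
    HF k fun y => ∑ i ∈ s, F i y :=
  ⟨PolyF.sum s fun i hi => (h i hi).1, fun _ hj g hg => by
    rw [ipS_comm, ipS_sum hg.l2s s fun i hi => (h i hi).1.l2s]
    exact Finset.sum_eq_zero fun i hi => by rw [ipS_comm]; exact (h i hi).orth_poly hg hj⟩

theorem HF.hom (h : HF k Y) : HomF k Y := by
  cases k with
  | zero => exact h.1.hom_zero
  | succ k =>
    obtain ⟨A, B, hA, hB, e⟩ := h.1.split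
    have h1 := h.orth_poly hB.poly (Nat.lt_succ_self k)
    have h2 := ipS_parity hA hB ⟨k, by ring⟩
    rw [e, ConfH_add hA.poly hB.poly hB.poly, h2, zero_add] at h1
    rw [e, ipS_self_zero hB.poly h1]
    simpa only [add_zero] using hA

theorem hf_sig (i : Fin 4) : HF 1 (sig i) :=
  HF.of_orth (polyF_sig i) fun _ hg => ipS_parity (homF_sig i) hg.hom_zero ⟨0, rfl⟩

theorem ConfH_W (h : HF k Y) (hg : PolyF k g) (i : Fin 4) :
    ipS Y (Xs i g) + (k - 1) * ipS Y (fun y => sig i y * g y) = 0 := by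
  cases k with
  | zero =>
    have h1 := ipS_parity h.hom ((homF_sig i).mul hg.hom_zero) ⟨0, rfl⟩
    obtain ⟨c, rfl⟩ := hg.zero_const
    have h2 : Xs i (fun _ => c) = fun _ => 0 := funext (Xs_const c i)
    rw [h1, h2, ipS_zero, mul_zero, add_zero]
  | succ k =>
    obtain ⟨A, B, hA, hB, rfl⟩ := hg.split
    have h1 := h.orth_poly (hA.down i).poly (Nat.lt_succ_self k)
    have h2 := h.orth_poly (hB.poly.xs_add i) (Nat.lt_succ_self k)
    have h3 := ipS_parity h.hom ((homF_sig i).mul hA) ⟨k + 1, by ring⟩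
    have e1 : Xs i (fun y => A y + B y) = fun y => Xs i A y + Xs i B y :=
      funext (Xs_add hA.poly.smooth hB.poly.smooth i)
    have e2 : (fun y => sig i y * (A y + B y)) = fun y => sig i y * A y + sig i y * B y :=
      funext fun y => mul_add _ _ _
    rw [ipS_add h.1.l2s (hA.poly.xs i).l2s ((hA.poly.sig_mul i).cmul _).l2s, ipS_cmul] at h1
    rw [ipS_add h.1.l2s (hB.poly.xs i).l2s ((hB.poly.sig_mul i).cmul _).l2s, ipS_cmul] at h2
    rw [e1, e2, ipS_add h.1.l2s (hA.poly.xs i).l2s (hB.poly.xs i).l2s,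
      ipS_add h.1.l2s (hA.poly.sig_mul i).l2s (hB.poly.sig_mul i).l2s]
    push_cast
    linear_combination h1 + h2 - h3

theorem ConfH_Xs (h : PolyF k f) (hg : PolyF n g) (i : Fin 4) :
    ipS (Xs i f) g = 3 * ipS f (fun y => sig i y * g y) - ipS f (Xs i g) := by
  rw [ipS_Xs h hg, ipS_sub h.l2s ((hg.sig_mul i).cmul _).l2s (hg.xs i).l2s, ipS_cmul]

theorem HF.up4 (h : HF k Y) (i : Fin 4) :
    HF (k + 1) fun y => (k + 2) * (sig i y * Y y) - Xs i Y y := by
  refine HF.of_orth (((h.1.sig_mul i).cmul _).sub (h.1.xs i)) fun g hg => ?_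
  rw [ConfH_sub ((h.1.sig_mul i).cmul _) (h.1.xs i) hg, ConfH_cmul, ipS_mul, ConfH_Xs h.1 hg]
  linear_combination ConfH_W h hg i

theorem HF.down4 (h : HF (k + 1) Y) (i : Fin 4) :
    HF k fun y => Xs i Y y + (k + 1) * (sig i y * Y y) := by
  refine ⟨(h.hom.down i).poly, fun j hj g hg => ?_⟩
  rw [ConfH_add (h.1.xs i) ((h.1.sig_mul i).cmul _) hg, ConfH_cmul, ipS_mul, ConfH_Xs h.1 hg,
    h.orth_poly (hg.sig_mul i) (Nat.succ_lt_succ hj), h.orth_poly (hg.xs i) (Nat.succ_lt_succ hj)]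
  ring

theorem HF.up (h : HF k Y) (j : Fin 3) :
    HF (k + 1) fun y => (k + 2) * (Om y * y j * Y y) - Xd j Y y := by
  simpa only [sig_cast, Xs_cast] using h.up4 j.castSucc

theorem HF.same (h : HF k Y) (j : Fin 3) : HF k fun y => pd j Y y - Xd j Y y :=
  ⟨h.1.rot j, fun _ hj g hg => by rw [ipS_rot h.1 hg, h.orth_poly (hg.rot j) hj, neg_zero]⟩

theorem HF.down (h : HF (k + 1) Y) (j : Fin 3) :
    HF k fun y => Xd j Y y + (k + 1) * (Om y * y j * Y y) := by
  simpa only [sig_cast, Xs_cast] using h.down4 j.castSucc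

theorem HF.split4 (h : HF k Y) (i : Fin 4) : ∃ A B, HF (k + 1) A ∧ HF (k - 1) B ∧
    (k = 0 → B = fun _ => 0) ∧ (∀ y, sig i y * Y y = A y + B y) ∧
    ∀ y, Xs i Y y = -(k * A y) + (k + 2) * B y := by
  have hk : (2 * (k : ℝ) + 2) ≠ 0 := by positivity
  have h0 : k = 0 → (fun y => (2 * (k : ℝ) + 2)⁻¹ * (Xs i Y y + k * (sig i y * Y y))) =
      fun _ => 0 := by
    rintro rfl
    obtain ⟨c, rfl⟩ := h.1.zero_const
    funext y
    simp [Xs_const]
  refine ⟨_, fun y => (2 * (k : ℝ) + 2)⁻¹ * (Xs i Y y + k * (sig i y * Y y)),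
    (h.up4 i).cmul (2 * (k : ℝ) + 2)⁻¹, ?_, h0, fun y => ?_, fun y => ?_⟩
  · cases k with
    | zero =>
      rw [h0 rfl]
      exact hf_zero _
    | succ k => simpa only [Nat.cast_succ, Nat.add_sub_cancel] using (h.down4 i).cmul _
  · field_simp
    ring
  · field_simp
    ring

theorem ConfH_id (h : PolyF k Y) (i : Fin 4) :
    2 * ipS (Xs i Y) (fun y => sig i y * Y y) =
      4 * ipS (fun y => sig i y * Y y) (fun y => sig i y * Y y) - ipS Y Y := by
  have e : Xs i (fun y => sig i y * Y y) =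
      fun y => (Y y - sig i y * (sig i y * Y y)) + sig i y * Xs i Y y := by
    funext y
    rw [Xs_mul (cf_sig_smooth i) h.smooth, Xs_sig, if_pos rfl]
    ring
  have h2 : PolyF (k + 1 + 1) Y := h.mono (by omega)
  have h3 := (h.sig_mul i).sig_mul i
  have h1 := ConfH_Xs h (h.sig_mul i) i
  rw [e, ipS_add h.l2s (h2.sub h3).l2s ((h.xs i).sig_mul i).l2s, ipS_sub h.l2s h.l2s h3.l2s,
    ← ipS_mul (sig i) Y, ← ipS_mul (sig i) Y, ipS_comm _ (Xs i Y)] at h1
  linear_combination h1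

theorem ConfH_step (h : HF k Y) (h' : HF (k + 1) Z) (i : Fin 4)
    (H : ∀ B, HF (k - 1) B → (k = 0 → B = fun _ => 0) →
      ipS (fun y => sig i y * B y) Y = ipS B B → 4 * ipS B B ≤ ipS Y Y) :
    |ipS (fun y => sig i y * Y y) Z| ≤ (ipS Y Y + ipS Z Z) / 4 := by
  obtain ⟨A, B, hA, hB, hB0, e1, e2⟩ := h.split4 i
  have hAB : ipS A B = 0 := hA.orth hB (by omega)
  have hBA : ipS B A = 0 := by rw [ipS_comm, hAB]
  have hBZ : ipS B Z = 0 := hB.orth h' (by omega)
  have e1' : (fun y => sig i y * Y y) = fun y => A y + B y := funext e1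
  have e2' : Xs i Y = fun y => (-(k : ℝ)) * A y + (k + 2) * B y := funext fun y => by
    rw [e2]
    ring
  have h1 := ConfH_id h.1 i
  have hS : PolyF (k + 1) fun y => A y + B y := e1' ▸ h.1.sig_mul i
  rw [e1', e2', ConfH_add (hA.1.cmul _) (hB.1.cmul _) hS, ConfH_cmul, ConfH_cmul,
    ConfH_add hA.1 hB.1 hS, ipS_add hA.1.l2s hA.1.l2s hB.1.l2s,
    ipS_add hB.1.l2s hA.1.l2s hB.1.l2s, hAB, hBA] at h1
  have h2 := H B hB hB0 (by
    rw [ipS_mul, e1', ipS_add hB.1.l2s hA.1.l2s hB.1.l2s, hBA, zero_add])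
  have hk : (0 : ℝ) ≤ k := Nat.cast_nonneg k
  have h3 : 4 * ipS A A ≤ ipS Y Y := by
    have h4 : ((k : ℝ) + 2) * (4 * ipS A A) ≤ (k + 2) * ipS Y Y := by
      nlinarith [mul_le_mul_of_nonneg_left h2 hk]
    exact le_of_mul_le_mul_left h4 (by positivity)
  have h5 := ipS_young hA.1.l2s h'.1.l2s two_pos
  rw [e1', ConfH_add hA.1 hB.1 h'.1, hBZ, add_zero]
  linarith

theorem HF.half (h : HF k Y) (h' : HF (k + 1) Z) (i : Fin 4) :
    |ipS (fun y => sig i y * Y y) Z| ≤ (ipS Y Y + ipS Z Z) / 4 := by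
  induction k generalizing Y Z with
  | zero => exact ConfH_step h h' i fun _ _ hB0 _ => by rw [hB0 rfl, ipS_zero]; simpa using ipS_nonneg Y
  | succ k ih =>
    refine ConfH_step h h' i fun B hB _ e => ?_
    have h1 := ih (hB.cmul 2) h
    have e1 : (fun y => sig i y * (2 * B y)) = fun y => 2 * (sig i y * B y) :=
      funext fun y => by ring
    rw [e1, ConfH_cmul, ConfH_cmul, ipS_cmul, e] at h1
    have h2 := (abs_le.1 h1).2
    linarith

end Pool.Agent.Work.MP_6bf1e5_an.H
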