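import Pool.Agent.Work.MP_6bf1e5_an.H.ConfB

/-!
Conformal part: the inner product of the sphere, integration by parts, parity.
Hints. L2S.int: MemLp.integrable_mul and Op (3/2) * Op (3/2) = Om ^ 3. Bd toolkit: file SkBd.
int_pd_zero: integral_mul_fderiv_eq_neg_fderiv_mul_of_integrable with the constant one.
int_pd: int_pd_zero for Op 3 * f. int_Xs: last index: sum over m of pd m (Om ^ 3 y_m f) is
Om ^ 3 (yd f - 3 (1 - Om) f); index j: pd j (Om ^ 2 f) - sum over m of pd m (Om ^ 3 y_j y_m f) is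
Om ^ 3 (Xd j f - 3 Om y_j f) (use cf_Om_norm); each function and each derivative is Bd (-4).
parity: induction on the degree by steps of two; by Euler (d + 1) A is the sum of sig i * ev (pderiv i p), and for
q homogeneous of degree d, int_Xs and Xs_hom give (d + 3) int sig i * ev q = int ev (pderiv i q).
ipS_self_zero: a continuous nonnegative integrable function with integral zero vanishes
(Continuous.integral_pos_of_hasCompactSupport is not needed: integral_eq_zero_iff_of_nonneg and
Continuous.ae_eq_iff_eq). Perp.pd: Dyn.ibp, Sym.hinf, PolyF.pd_Op.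
-/

open scoped ContDiff ENNReal FourierTransform Real
open Set MeasureTheory

namespace Pool.Agent.Work.MP_6bf1e5_an.H

variable {k n : ℕ} {f g u v w : Sc} {ι : Type}

theorem ConfI_mul (ha : Bd 0 g) (hw : MemLp w 2 volume) : MemLp (fun y => g y * w y) 2 volume := by
  obtain ⟨C, hC⟩ := ha.2
  refine hw.of_le_mul (c := C) (ha.1.mul hw.1) ?_
  filter_upwards [hC] with y hy
  rw [Real.rpow_zero, mul_one] at hy
  rw [norm_mul]
  exact mul_le_mul_of_nonneg_right hy (norm_nonneg _)

theorem ConfI_two (y : R3) : Op 2 y = Om y ^ 2 := by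
  exact_mod_cast cf_Op_nat 2 y

theorem ConfI_three (y : R3) : Op 3 y = Om y ^ 3 := by
  exact_mod_cast cf_Op_nat 3 y

theorem Bd.l2s {m : ℝ} (h : Bd m u) (hm : m < 3 / 2) : L2S u :=
  ((bd_Op (3 / 2)).mul h).memLp (by linarith)
theorem PolyF.l2s (h : PolyF k f) : L2S f := h.sym.bd.l2s (by norm_num)
/-- For `b ≥ -3 / 2` the product of `Op b` with a function of the class `Hinf`. -/
theorem Hinf.l2s (h : Hinf f) {b : ℝ} (hb : -3 / 2 ≤ b) : L2S fun y => Op b y * f y := by
  have h1 := ConfI_mul ((bd_Op (3 / 2 + b)).mono (by linarith)) (h.2 [])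
  simp only [cf_Op_add, mul_assoc] at h1
  exact h1
theorem L2S.add (h : L2S u) (h' : L2S v) : L2S fun y => u y + v y := by
  simp only [L2S, mul_add]
  exact MemLp.add h h'
theorem L2S.sub (h : L2S u) (h' : L2S v) : L2S fun y => u y - v y := by
  simp only [L2S, mul_sub]
  exact MemLp.sub h h'
theorem L2S.cmul (h : L2S u) (c : ℝ) : L2S fun y => c * u y := by
  simpa only [L2S, mul_left_comm _ c] using MemLp.const_mul h c
theorem L2S.sum (s : Finset ι) {F : ι → Sc} (h : ∀ i ∈ s, L2S (F i)) :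
    L2S fun y => ∑ i ∈ s, F i y := by
  simpa only [L2S, Finset.mul_sum] using memLp_finsetSum s h
theorem L2S.poly_mul (h : L2S u) (h' : PolyF k g) : L2S fun y => g y * u y := by
  simpa only [L2S, mul_left_comm (Op _ _)] using ConfI_mul h'.sym.bd h
theorem L2S.int (h : L2S u) (h' : L2S v) : Integrable fun y => Om y ^ 3 * (u y * v y) := by
  refine (MemLp.integrable_mul h h').congr (Filter.Eventually.of_forall fun y => ?_)
  simp only [Pi.mul_apply]
  rw [mul_mul_mul_comm, ← cf_Op_add, ← ConfI_three]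
  norm_num

theorem ipS_comm (u v : Sc) : ipS u v = ipS v u := by
  simp only [ipS, mul_comm (u _)]
theorem ipS_nonneg (u : Sc) : 0 ≤ ipS u u :=
  integral_nonneg fun y => mul_nonneg (pow_nonneg (Dyn.Om_pos y).le 3) (mul_self_nonneg _)
theorem ipS_cmul (c : ℝ) (u v : Sc) : ipS u (fun y => c * v y) = c * ipS u v := by
  simp only [ipS, mul_left_comm _ c, integral_const_mul]
theorem ipS_zero (u : Sc) : ipS u (fun _ => 0) = 0 := by
  simp [ipS]
theorem ipS_add (h : L2S u) (h1 : L2S v) (h2 : L2S w) :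
    ipS u (fun y => v y + w y) = ipS u v + ipS u w := by
  simp only [ipS, mul_add]
  exact integral_add (h.int h1) (h.int h2)
theorem ipS_sub (h : L2S u) (h1 : L2S v) (h2 : L2S w) :
    ipS u (fun y => v y - w y) = ipS u v - ipS u w := by
  simp only [ipS, mul_sub]
  exact integral_sub (h.int h1) (h.int h2)
theorem ipS_sum (h : L2S u) (s : Finset ι) {F : ι → Sc} (hF : ∀ i ∈ s, L2S (F i)) :
    ipS u (fun y => ∑ i ∈ s, F i y) = ∑ i ∈ s, ipS u (F i) := by
  simp only [ipS, Finset.mul_sum]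
  exact integral_finsetSum s fun i hi => h.int (hF i hi)
theorem ipS_mul (a u v : Sc) : ipS (fun y => a y * u y) v = ipS u fun y => a y * v y := by
  simp only [ipS, mul_assoc, mul_left_comm (a _) (u _)]
theorem ipS_sub_sq (h : L2S u) (h' : L2S v) :
    ipS (fun y => u y - v y) (fun y => u y - v y) = ipS u u - 2 * ipS u v + ipS v v := by
  rw [ipS_sub (h.sub h') h h', ipS_comm _ u, ipS_comm _ v, ipS_sub h h h', ipS_sub h' h h',
    ipS_comm v u]
  ring
theorem ipS_young (h : L2S u) (h' : L2S v) {e : ℝ} (he : 0 < e) :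
    2 * |ipS u v| ≤ e * ipS u u + ipS v v / e := by
  have a : ∀ c : ℝ, 0 ≤ c * (c * ipS u u) - 2 * (c * ipS u v) + ipS v v := fun c => by
    have := ipS_nonneg fun y => c * u y - v y
    rwa [ipS_sub_sq (h.cmul c) h', ipS_cmul, ipS_comm _ u, ipS_cmul, ipS_comm _ v, ipS_cmul,
      ipS_comm v u] at this
  have a1 := a e
  have a2 := a (-e)
  rw [← sub_le_iff_le_add', le_div_iff₀ he]
  rcases abs_cases (ipS u v) with ⟨b, -⟩ | ⟨b, -⟩ <;> rw [b] <;> linarith
theorem ipS_self_zero (h : PolyF k f) (h0 : ipS f f = 0) : f = fun _ => 0 := by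
  have hc := h.smooth.continuous
  have h1 := (integral_eq_zero_iff_of_nonneg
    (fun y => mul_nonneg (pow_nonneg (Dyn.Om_pos y).le 3) (mul_self_nonneg (f y)))
    (h.l2s.int h.l2s)).1 h0
  have h2 := (Continuous.ae_eq_iff_eq volume
    ((Dyn.Om_smooth.continuous.pow 3).mul (hc.mul hc)) continuous_zero).1 h1
  funext y
  exact mul_self_eq_zero.1
    ((mul_eq_zero.1 (congrFun h2 y)).resolve_left (pow_pos (Dyn.Om_pos y) 3).ne')

theorem int_pd_zero (h : ContDiff ℝ ∞ f) (j : Fin 3) (h0 : Integrable f) (h1 : Integrable (pd j f)) :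
    ∫ y, pd j f y = 0 := by
  have h2 := integral_mul_fderiv_eq_neg_fderiv_mul_of_integrable (μ := volume)
    (f := fun _ : R3 => (1 : ℝ)) (g := f) (v := EuclideanSpace.single j 1) (by simp)
    (by simp only [one_mul]; exact h1) (by simpa only [one_mul] using h0)
    (fun _ _ => differentiableAt_const _) fun x _ => h.differentiable (by simp) x
  simpa [pd] using h2
theorem ConfI_div {m : ℝ} (hw : Sym m w) (hm : m < -3) (h : Cb f) (j : Fin 3) :
    Integrable (fun y => pd j w y * f y + w y * pd j f y) ∧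
      ∫ y, (pd j w y * f y + w y * pd j f y) = 0 := by
  have h1 : Integrable fun y => pd j w y * f y + w y * pd j f y :=
    (((ResLoc_pd hw j).bd.mul h.2.1).integrable (by linarith)).add
      ((hw.bd.mul (h.2.2 j)).integrable (by linarith))
  have h2 := int_pd_zero (hw.1.mul h.1) j ((hw.bd.mul h.2.1).integrable (by linarith))
  rw [Dyn.pd_mul hw.1 h.1] at h2
  exact ⟨h1, h2 h1⟩

theorem ConfI_fin (h : Cb f) (i : Fin 4) (hG : Integrable u) (h0 : ∫ y, u y = 0)
    (e : ∀ y, v y = u y + 3 * (Om y ^ 3 * (sig i y * f y))) :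
    ∫ y, v y = 3 * ∫ y, Om y ^ 3 * (sig i y * f y) := by
  have h1 := ((bd_Op 3).mul ((cf_sym_sig i).bd.mul h.2.1)).integrable (by norm_num)
  simp only [ConfI_three] at h1
  simp only [e]
  rw [integral_add hG (h1.const_mul 3), h0, zero_add, integral_const_mul]

theorem int_pd (h : Cb f) (j : Fin 3) :
    ∫ y, Om y ^ 3 * pd j f y = 3 * ∫ y, Om y ^ 3 * (sig j.castSucc y * f y) := by
  obtain ⟨a, b⟩ := ConfI_div (sym_Op 3) (by norm_num) h j
  refine ConfI_fin h _ a b fun y => ?_
  rw [cf_pd_Op, ConfI_three, sig_cast]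
  ring
theorem int_Xs (h : Cb f) (i : Fin 4) :
    ∫ y, Om y ^ 3 * Xs i f y = 3 * ∫ y, Om y ^ 3 * (sig i y * f y) := by
  induction i using Fin.lastCases with
  | last =>
    have a := fun m => ConfI_div (ResLoc_mul (sym_Op 3) (cf_sym_coord m)) (by norm_num) h m
    refine ConfI_fin h _ (integrable_finsetSum Finset.univ fun m _ => (a m).1) ?_ fun y => ?_
    · rw [integral_finsetSum _ fun m _ => (a m).1]
      exact Finset.sum_eq_zero fun m _ => (a m).2
    · have b := cf_Om_norm y
      simp only [fun m j => Dyn.pd_mul (cf_Op_smooth 3) (Dyn.coord_smooth m) j]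
      simp only [cf_pd_Op, Dyn.pd_coord, ConfI_three, Xs_last, sig_last, yd, Fin.sum_univ_three,
        if_true] at b ⊢
      linear_combination 3 * Om y ^ 3 * f y * b
  | cast j =>
    have a := fun m => ConfI_div (ResLoc_mul (sym_Op 3)
      (ResLoc_mul (cf_sym_coord j) (cf_sym_coord m))) (by norm_num) h m
    obtain ⟨a1, a2⟩ := ConfI_div (sym_Op 2) (by norm_num) h j
    have a3 := integrable_finsetSum Finset.univ fun m _ => (a m).1
    refine ConfI_fin h _ (a1.sub a3) ?_ fun y => ?_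
    · simp only [Pi.sub_apply]
      rw [integral_sub a1 a3, a2, integral_finsetSum _ fun m _ => (a m).1, zero_sub, neg_eq_zero]
      exact Finset.sum_eq_zero fun m _ => (a m).2
    · have b := cf_Om_norm y
      have c : ∑ m, (if j = m then 1 else 0) * y m = y j := by simp
      have d := mul_inv_cancel₀ (Dyn.Om_pos y).ne'
      simp only [Pi.sub_apply, fun m i => Dyn.pd_mul (cf_Op_smooth 3)
        ((Dyn.coord_smooth j).mul (Dyn.coord_smooth m)) i,
        fun m i => Dyn.pd_mul (Dyn.coord_smooth j) (Dyn.coord_smooth m) i]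
      simp only [cf_pd_Op, Dyn.pd_coord, ConfI_three, ConfI_two, Xs_cast, sig_cast, Xd, yd,
        Fin.sum_univ_three, if_true] at b c ⊢
      linear_combination (-3 * Om y ^ 3 * y j * f y) * b + Om y ^ 3 * f y * c
        + Om y ^ 2 * pd j f y * d
theorem ipS_Xs (h : PolyF k f) (h' : PolyF n g) (i : Fin 4) :
    ipS (Xs i f) g = ipS f fun y => 3 * (sig i y * g y) - Xs i g y := by
  have e := int_Xs (h.sym.cb.mul h'.sym.cb) i
  simp only [Xs_mul h.smooth h'.smooth, mul_add, mul_left_comm (sig i _) (f _)] at e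
  rw [integral_add ((h.xs i).l2s.int h'.l2s) (h.l2s.int (h'.xs i).l2s)] at e
  rw [ipS_sub h.l2s ((h'.sig_mul i).cmul 3).l2s (h'.xs i).l2s, ipS_cmul]
  unfold ipS
  linarith
theorem ipS_rot (h : PolyF k f) (h' : PolyF n g) (j : Fin 3) :
    ipS (fun y => pd j f y - Xd j f y) g = -ipS f fun y => pd j g y - Xd j g y := by
  have e1 := int_pd (h.sym.cb.mul h'.sym.cb) j
  have e2 := int_Xs (h.sym.cb.mul h'.sym.cb) j.castSucc
  have a : L2S (Xd j f) := funext (Xs_cast j f) ▸ (h.xs j.castSucc).l2s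
  have a' : L2S (Xd j g) := funext (Xs_cast j g) ▸ (h'.xs j.castSucc).l2s
  simp only [Xs_mul h.smooth h'.smooth, Xs_cast, mul_add] at e2
  simp only [Dyn.pd_mul h.smooth h'.smooth, mul_add] at e1
  rw [integral_add ((h.pd1 j).l2s.int h'.l2s) (h.l2s.int (h'.pd1 j).l2s)] at e1
  rw [integral_add (a.int h'.l2s) (h.l2s.int a')] at e2
  rw [ipS_comm, ipS_sub h'.l2s (h.pd1 j).l2s a, ipS_sub h.l2s (h'.pd1 j).l2s a', ipS_comm g,
    ipS_comm g]
  unfold ipS
  linarith
theorem ConfI_step {p : MvPolynomial (Fin 4) ℝ} (hp : p.IsHomogeneous (n + 1))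
    (h0 : ∀ i, ∫ y, Om y ^ 3 * ev (MvPolynomial.pderiv i (MvPolynomial.pderiv i p)) y = 0) :
    ∫ y, Om y ^ 3 * ev p y = 0 := by
  have hI : ∀ {d : ℕ} {a : Sc}, PolyF d a → Integrable fun y => Om y ^ 3 * a y := fun ha => by
    simpa only [one_mul] using (polyF_const 0 1).l2s.int ha.l2s
  have h1 : ∀ i, ∫ y, Om y ^ 3 * (sig i y * ev (MvPolynomial.pderiv i p) y) = 0 := fun i => by
    have hq : (MvPolynomial.pderiv i p).IsHomogeneous n := hp.pderiv
    have a := int_Xs (ev_sym (MvPolynomial.pderiv i p)).cb i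
    simp only [Xs_hom hq, mul_sub, mul_left_comm _ (n : ℝ)] at a
    rw [integral_sub (hI (ev_poly _)) ((hI ((ev_poly _).sig_mul i)).const_mul _), h0,
      integral_const_mul] at a
    have hn : (0 : ℝ) < n + 3 := by positivity
    exact (mul_eq_zero.1 (by linarith : ((n : ℝ) + 3) * _ = 0)).resolve_left hn.ne'
  have h2 : ∀ y, ((n : ℝ) + 1) * (Om y ^ 3 * ev p y)
      = ∑ i, Om y ^ 3 * (sig i y * ev (MvPolynomial.pderiv i p) y) := fun y => by
    have a := congrArg (MvPolynomial.eval fun i => sig i y) hp.sum_X_mul_pderiv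
    simp only [map_sum, map_mul, MvPolynomial.eval_X, nsmul_eq_mul, map_natCast] at a
    rw [← Finset.mul_sum, mul_left_comm]
    unfold ev
    rw [a]
    push_cast
    rfl
  have h3 := integral_const_mul (μ := volume) ((n : ℝ) + 1) fun y => Om y ^ 3 * ev p y
  simp only [h2] at h3
  rw [integral_finsetSum _ fun i _ => hI ((ev_poly _).sig_mul i)] at h3
  simp only [h1, Finset.sum_const_zero] at h3
  exact (mul_eq_zero.1 h3.symm).resolve_left (by positivity)

theorem parity (h : HomF (2 * k + 1) f) : ∫ y, Om y ^ 3 * f y = 0 := by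
  induction k generalizing f with
  | zero =>
    obtain ⟨p, hp, rfl⟩ := h
    refine ConfI_step hp fun i => ?_
    have hq : (MvPolynomial.pderiv i p).IsHomogeneous 0 := hp.pderiv
    rw [MvPolynomial.totalDegree_eq_zero_iff_eq_C.1 (Nat.le_zero.1 hq.totalDegree_le)]
    simp [ev]
  | succ k ih =>
    obtain ⟨p, hp, rfl⟩ := h
    exact ConfI_step hp fun i => ih ⟨_, hp.pderiv.pderiv, rfl⟩
theorem ipS_parity (h : HomF k f) (h' : HomF n g) (ho : Odd (k + n)) : ipS f g = 0 := by
  obtain ⟨m, hm⟩ := ho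
  exact parity (hm ▸ h.mul h')

theorem Perp.pd {b : ℝ} (hb : 3 / 4 < b) (hf : Hinf f) (h : Perp b (n + 1) f) (j : Fin 3) :
    Perp b n (pd j f) := by
  intro i hi g hg
  obtain ⟨g', hg', e⟩ := hg.pd_Op b j
  have h1 := Dyn.ibp hf ((ResLoc_mul (sym_Op b) hg.sym).hinf (by linarith)) j
  rw [show H.pd j (fun y => Op b y * g y) = fun y => Op b y * g' y from e,
    h (i + 1) (by omega) g' hg', neg_zero] at h1
  exact h1

end Pool.Agent.Work.MP_6bf1e5_an.H
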