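import Pool.Agent.Work.MP_6bf1e5_an.H.ConfH
import Pool.Agent.Work.MP_6bf1e5_an.H.ConfD

/-!
Conformal part: expansion in spherical harmonics.
Hints. exists_proj: the linear map from MvPolynomial (Fin 4) real to Lp real 2 volume, p to the class of
Op (3/2) * ev p (MemLp.toLp); the image V of restrictTotalDegree (Fin 4) real k is finite dimensional, so it has an
orthogonal projection (Submodule.starProjection, sub_starProjection_mem_orthogonal); L2.inner_def and
MemLp.coeFn_toLp translate the inner product to ipS. exists_gr: choose q k from exists_proj, Y 0 = q 0,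
Y (k + 1) = q (k + 1) - q k. top: subtract the projection on degree k. decomp: induction on k with top.
Gr.perp: decomp of g and HF.orth. bessel: ipS_sub_sq. Gr.tendsto: best approximation (the difference of the
finite sum and q is a polynomial of degree < K, Pythagoras) and dense_poly. hasSum: summable since
ipS psi (Y k) = ipS (Z k) (Y k) for the parts Z of psi, ipS_young and bessel; then Summable.hasSum_iff_tendsto_nat
and ipS_young with a small parameter.
-/

open scoped ContDiff ENNReal FourierTransform Real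
open Set MeasureTheory

namespace Pool.Agent.Work.MP_6bf1e5_an.H

variable {k n : ℕ} {f g φ ψ : Sc} {Y : ℕ → Sc}

theorem ConfP_sub {u v w : Sc} (h1 : L2S u) (h2 : L2S v) (h : L2S w) :
    ipS (fun y => u y - v y) w = ipS u w - ipS v w := by
  rw [ipS_comm, ipS_sub h h1 h2, ipS_comm w, ipS_comm w]

theorem ConfP_one {Z : Sc} (hY : ∀ j < n, HF j (Y j)) (hZ : HF k Z) (hk : k < n) :
    ipS (fun y => ∑ j ∈ Finset.range n, Y j y) Z = ipS (Y k) Z := by
  rw [ipS_comm, ipS_sum hZ.1.l2s _ fun j hj => (hY j (Finset.mem_range.1 hj)).1.l2s,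
    Finset.sum_eq_single_of_mem k (Finset.mem_range.2 hk)
      fun j hj h => hZ.orth (hY j (Finset.mem_range.1 hj)) h.symm, ipS_comm]

theorem ConfP_l2s (hY : Gr φ Y) (n : ℕ) : L2S fun y => ∑ j ∈ Finset.range n, Y j y :=
  L2S.sum _ fun j _ => (hY j).1.1.l2s

theorem ConfP_self (hY : Gr φ Y) (n : ℕ) : ipS (fun y => ∑ j ∈ Finset.range n, Y j y)
    (fun y => ∑ j ∈ Finset.range n, Y j y) = ∑ j ∈ Finset.range n, ipS (Y j) (Y j) := by
  rw [ipS_sum (ConfP_l2s hY n) _ fun j _ => (hY j).1.1.l2s]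
  exact Finset.sum_congr rfl fun j hj =>
    ConfP_one (fun j _ => (hY j).1) (hY j).1 (Finset.mem_range.1 hj)

theorem exists_proj (h : L2S φ) (k : ℕ) :
    ∃ q, PolyF k q ∧ ∀ g, PolyF k g → ipS φ g = ipS q g := by
  let E : MvPolynomial (Fin 4) ℝ →ₗ[ℝ] Sc :=
    LinearMap.pi fun y => (MvPolynomial.aeval fun i => sig i y).toLinearMap
  let W := (MvPolynomial.restrictTotalDegree (Fin 4) ℝ k).map E
  have hW : ∀ f, f ∈ W ↔ PolyF k f := fun f =>
    ⟨fun ⟨p, hp, e⟩ => ⟨p, (MvPolynomial.mem_restrictTotalDegree _ _ _).1 hp, e.symm⟩,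
      fun ⟨p, hp, e⟩ => ⟨p, (MvPolynomial.mem_restrictTotalDegree _ _ _).2 hp, e.symm⟩⟩
  have hl : ∀ f : W, L2S f := fun f => ((hW _).1 f.2).l2s
  let D : ∀ u, L2S u → Module.Dual ℝ W := fun u hu =>
    { toFun := fun g => ipS u g
      map_add' := fun a b => ipS_add hu (hl a) (hl b)
      map_smul' := fun c a => ipS_cmul c u a }
  let B : W →ₗ[ℝ] Module.Dual ℝ W :=
    { toFun := fun f => D f (hl f)
      map_add' := fun a b => LinearMap.ext fun g => (ipS_comm _ _).trans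
        ((ipS_add (hl g) (hl a) (hl b)).trans (congrArg₂ _ (ipS_comm _ _) (ipS_comm _ _)))
      map_smul' := fun c a => LinearMap.ext fun g => (ipS_comm _ _).trans
        ((ipS_cmul c g a).trans (congrArg _ (ipS_comm _ _))) }
  obtain ⟨q, hq⟩ := (LinearMap.injective_iff_surjective_of_finrank_eq_finrank (f := B)
    Subspace.dual_finrank_eq.symm).1 ((injective_iff_map_eq_zero B).2 fun f hf => Subtype.ext
      (ipS_self_zero ((hW _).1 f.2) (LinearMap.congr_fun hf f))) (D φ h)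
  exact ⟨q, (hW _).1 q.2, fun g hg => (LinearMap.congr_fun hq ⟨g, (hW _).2 hg⟩).symm⟩

theorem exists_gr (h : L2S φ) : ∃ Y, Gr φ Y := by
  choose q hq hq' using exists_proj h
  refine ⟨fun k => Nat.casesOn k (q 0) fun k y => q (k + 1) y - q k y, fun k => ?_⟩
  rcases k with _ | k
  · exact ⟨(hq 0).hf_zero, fun g hg => hq' 0 g hg.1⟩
  refine ⟨HF.of_orth ((hq _).sub ((hq k).mono k.le_succ)) fun g hg => ?_, fun g hg => ?_⟩
  · rw [ConfP_sub (hq _).l2s (hq _).l2s hg.l2s, ← hq' _ g (hg.mono k.le_succ), ← hq' k g hg,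
      sub_self]
  · refine (hq' _ g hg.1).trans (Eq.trans ?_ (ConfP_sub (hq _).l2s (hq _).l2s hg.1.l2s).symm)
    rw [ipS_comm (q k), hg.orth_poly (hq k) k.lt_succ_self, sub_zero]

theorem PolyF.top (h : PolyF (k + 1) f) :
    ∃ Z g, HF (k + 1) Z ∧ PolyF k g ∧ f = fun y => Z y + g y := by
  obtain ⟨q, hq, hq'⟩ := exists_proj h.l2s k
  refine ⟨_, q, HF.of_orth (h.sub (hq.mono k.le_succ)) fun g hg => ?_, hq, by simp⟩
  rw [ConfP_sub h.l2s hq.l2s hg.l2s, hq' g hg, sub_self]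

theorem PolyF.decomp (h : PolyF k f) : ∃ Z : ℕ → Sc, (∀ j, HF j (Z j)) ∧
    f = fun y => ∑ j ∈ Finset.range (k + 1), Z j y := by
  induction k generalizing f with
  | zero =>
    refine ⟨fun j => Nat.casesOn j f fun _ _ => 0, fun j => ?_, by simp⟩
    rcases j with _ | j
    · exact h.hf_zero
    · exact H.hf_zero _
  | succ k ih =>
    obtain ⟨Z, g, hZ, hg, rfl⟩ := h.top
    obtain ⟨X, hX, rfl⟩ := ih hg
    refine ⟨fun j => if j = k + 1 then Z else X j, fun j => ?_, funext fun y => ?_⟩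
    · beta_reduce
      split_ifs with e
      · exact e ▸ hZ
      · exact hX j
    · beta_reduce
      rw [Finset.sum_range_succ _ (k + 1), if_pos rfl, add_comm]
      exact congrArg (· + Z y) (Finset.sum_congr rfl fun j hj => by
        rw [if_neg (Finset.mem_range.1 hj).ne])

/-- Orthogonality to the harmonics of low degree is enough. -/
theorem HF.of_orth_hf (h : PolyF k f) (ho : ∀ j < k, ∀ Z, HF j Z → ipS f Z = 0) : HF k f := by
  refine ⟨h, fun j hj g hg => ?_⟩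
  obtain ⟨Z, hZ, rfl⟩ := hg.decomp
  rw [ipS_sum h.l2s _ fun i _ => (hZ i).1.l2s]
  exact Finset.sum_eq_zero fun i hi =>
    ho i ((Nat.lt_succ_iff.1 (Finset.mem_range.1 hi)).trans_lt hj) _ (hZ i)

theorem Gr.perp (h : L2S φ) (hY : Gr φ Y) (hg : PolyF k g) (hk : k < n) :
    ipS φ g = ipS (fun y => ∑ j ∈ Finset.range n, Y j y) g := by
  obtain ⟨Z, hZ, rfl⟩ := hg.decomp
  rw [ipS_sum h _ fun i _ => (hZ i).1.l2s, ipS_sum (ConfP_l2s hY n) _ fun i _ => (hZ i).1.l2s]
  exact Finset.sum_congr rfl fun i hi => ((hY i).2 _ (hZ i)).trans (ConfP_one (fun j _ => (hY j).1)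
    (hZ i) ((Nat.lt_succ_iff.1 (Finset.mem_range.1 hi)).trans_lt hk)).symm

theorem Gr.bessel (h : L2S φ) (hY : Gr φ Y) (n : ℕ) :
    ipS (fun y => φ y - ∑ j ∈ Finset.range n, Y j y) (fun y => φ y - ∑ j ∈ Finset.range n, Y j y)
      = ipS φ φ - ∑ j ∈ Finset.range n, ipS (Y j) (Y j) := by
  rw [ipS_sub_sq h (ConfP_l2s hY n), ConfP_self hY, ipS_sum h _ fun j _ => (hY j).1.1.l2s,
    Finset.sum_congr rfl fun j _ => (hY j).2 _ (hY j).1]
  ring

theorem Gr.tendsto (h : L2S φ) (hY : Gr φ Y) :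
    Filter.Tendsto (fun n => ∑ j ∈ Finset.range n, ipS (Y j) (Y j)) Filter.atTop (nhds (ipS φ φ)) := by
  refine Metric.tendsto_atTop.2 fun ε hε => ?_
  obtain ⟨k, q, hq, h1⟩ := dense_poly h (half_pos hε)
  refine ⟨k + 1, fun n hn => ?_⟩
  have h2 := ipS_nonneg fun y => ∑ j ∈ Finset.range n, Y j y - q y
  have h3 := ipS_nonneg fun y => φ y - ∑ j ∈ Finset.range n, Y j y
  rw [ipS_sub_sq (ConfP_l2s hY n) hq.l2s, ConfP_self hY, ← hY.perp h hq hn] at h2
  rw [ipS_sub_sq h hq.l2s] at h1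
  rw [hY.bessel h] at h3
  rw [Real.dist_eq, abs_lt]
  constructor <;> linarith

theorem ConfP_sq (h : L2S φ) (hY : Gr φ Y) : HasSum (fun k => ipS (Y k) (Y k)) (ipS φ φ) :=
  (hasSum_iff_tendsto_nat_of_nonneg (fun _ => ipS_nonneg _) _).2 (hY.tendsto h)

theorem Gr.hasSum (h : L2S φ) (h' : L2S ψ) (hY : Gr φ Y) :
    HasSum (fun k => ipS ψ (Y k)) (ipS ψ φ) := by
  obtain ⟨Z, hZ⟩ := exists_gr h'
  have hD : Gr (fun y => ψ y - φ y) fun k y => Z k y - Y k y := fun k =>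
    ⟨(hZ k).1.sub (hY k).1, fun g hg => by
      rw [ConfP_sub h' h hg.1.l2s, ConfP_sub (hZ k).1.1.l2s (hY k).1.1.l2s hg.1.l2s, (hZ k).2 g hg,
        (hY k).2 g hg]⟩
  convert (((ConfP_sq h' hZ).add (ConfP_sq h hY)).sub (ConfP_sq (h'.sub h) hD)).div_const 2 using 1
  · rfl
  · funext k
    rw [ipS_sub_sq (hZ k).1.1.l2s (hY k).1.1.l2s, (hZ k).2 _ (hY k).1]
    ring
  · rw [ipS_sub_sq h' h]
    ring

theorem Gr.hasSum_sq (h : L2S φ) (hY : Gr φ Y) : HasSum (fun k => ipS (Y k) (Y k)) (ipS φ φ) := by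
  exact ConfP_sq h hY

/-- Given low parts can be completed. -/
theorem exists_gr_low (h : L2S φ) (hY : ∀ k < n, HF k (Y k))
    (hp : ∀ k < n, ∀ g, PolyF k g → ipS φ g = ipS (fun y => ∑ j ∈ Finset.range n, Y j y) g) :
    ∃ Z, Gr φ Z ∧ ∀ k < n, Z k = Y k := by
  obtain ⟨Z, hZ⟩ := exists_gr h
  refine ⟨Z, hZ, fun k hk => funext fun y => sub_eq_zero.1 ?_⟩
  have hD := (hZ k).1.sub (hY k hk)
  refine congrFun (ipS_self_zero hD.1 ?_) y
  rw [ConfP_sub (hZ k).1.1.l2s (hY k hk).1.l2s hD.1.l2s, ← (hZ k).2 _ hD, hp k hk _ hD.1,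
    ConfP_one hY hD hk, sub_self]

end Pool.Agent.Work.MP_6bf1e5_an.H
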