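import Mathlib

/-!
Conformal part: a lower bound for a three-diagonal form.
Hints. Weights w N k = (max 0 (1 - k / N)) ^ 2, N >= 1: 0 <= w <= 1, w N 0 = 1, w N k = 0 for k >= N, second
differences w (k + 2) - 2 w (k + 1) + w k <= 2 / N ^ 2, and zero for k >= N. With q the summand, the sum over
k < N + 1 of w k q k equals the sum of w k s k b k minus the sum of (w k s (k + 1) + w (k + 1) s k) a k; use ha;
the coefficient of b k is then at least - c w k - s k (second difference of w at k) / 4. The error is at most the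
sum over k <= N of C (k + 1) ^ 2 / N ^ 2 b k, which tends to zero, and the sum of w k q k tends to Q
(tendsto_tsum_of_dominated_convergence twice).
-/

open Filter

namespace Pool.Agent.Work.MP_6bf1e5_an.H

theorem ConfS_sec (x δ : ℝ) (hδ : 0 ≤ δ) :
    max 0 (x - 2 * δ) ^ 2 - 2 * max 0 (x - δ) ^ 2 + max 0 x ^ 2 ≤ 2 * δ ^ 2 := by
  rcases le_total 0 (x - 2 * δ) with h1 | h1
  · rw [max_eq_right h1, max_eq_right (by linarith), max_eq_right (by linarith)]
    nlinarith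
  · rw [max_eq_left h1]
    rcases le_total 0 (x - δ) with h2 | h2
    · rw [max_eq_right h2, max_eq_right (by linarith)]
      nlinarith [sq_nonneg (x - 2 * δ)]
    · rw [max_eq_left h2]
      rcases le_total 0 x with h3 | h3
      · rw [max_eq_right h3]
        nlinarith
      · rw [max_eq_left h3]
        nlinarith

theorem ConfS_fin {s a b w : ℕ → ℝ} {c : ℝ} (hb : ∀ k, 0 ≤ b k)
    (ha : ∀ k, |a k| ≤ (b k + b (k + 1)) / 4) (hs0 : ∀ k, 0 ≤ s k) (hc : 0 ≤ c)
    (h0 : s 1 - 3 * s 0 ≤ 4 * c) (h2 : ∀ k, s (k + 2) - 2 * s (k + 1) + s k ≤ 4 * c)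
    (w0 : ∀ k, 0 ≤ w k) (w1 : ∀ k, w k ≤ 1) (wz : w 0 = 1) (n : ℕ) :
    -(c * ∑ k ∈ Finset.range (n + 1), b k)
      - ∑ k ∈ Finset.range n, s (k + 1) * (w (k + 2) - 2 * w (k + 1) + w k) * b (k + 1) / 4
      + (w n * s (n + 1) + w (n + 1) * s n) * b n / 4 - w n * s (n + 1) * a n ≤
    ∑ k ∈ Finset.range (n + 1), w k * (s k * b k - s (k + 1) * a k
      - if k = 0 then 0 else s (k - 1) * a (k - 1)) := by
  induction n with
  | zero =>
    simp only [zero_add, Finset.range_one, Finset.sum_singleton, Finset.range_zero,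
      Finset.sum_empty, wz, if_true]
    have e1 : w 1 * s 0 ≤ s 0 := by nlinarith [w1 1, hs0 0]
    nlinarith [mul_nonneg (hb 0) (show 0 ≤ 4 * s 0 + 4 * c - s 1 - w 1 * s 0 by linarith)]
  | succ n ih =>
    rw [Finset.sum_range_succ b (n + 1),
      Finset.sum_range_succ (fun k => s (k + 1) * (w (k + 2) - 2 * w (k + 1) + w k) * b (k + 1) / 4) n,
      Finset.sum_range_succ (fun k => w k * _) (n + 1), if_neg (Nat.succ_ne_zero n),
      Nat.add_sub_cancel]
    have e0 : 0 ≤ w n * s (n + 1) + w (n + 1) * s n :=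
      add_nonneg (mul_nonneg (w0 _) (hs0 _)) (mul_nonneg (w0 _) (hs0 _))
    have e1 := mul_le_mul_of_nonneg_left ((le_abs_self _).trans (ha n)) e0
    have e2 := mul_le_mul_of_nonneg_left (h2 n) (w0 (n + 1))
    have e3 : w (n + 1) * c ≤ c := by nlinarith [w1 (n + 1)]
    have e4 := mul_nonneg (hb (n + 1))
      (show 0 ≤ 4 * c - w (n + 1) * (s (n + 2) - 2 * s (n + 1) + s n) by linarith)
    rw [show n + 1 + 1 = n + 2 from rfl]
    linarith

/-- The weights. -/
noncomputable def ConfS_w (N k : ℕ) : ℝ := max 0 (1 - k * (1 / (N + 1 : ℝ))) ^ 2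

theorem ConfS_w_le (N k : ℕ) : ConfS_w N k ≤ 1 := by
  refine pow_le_one₀ (le_max_left _ _) (max_le zero_le_one ?_)
  have : (0 : ℝ) ≤ k * (1 / (N + 1 : ℝ)) := by positivity
  linarith

theorem ConfS_w_zero {N k : ℕ} (h : N + 1 ≤ k) : ConfS_w N k = 0 := by
  have h1 : (N + 1 : ℝ) ≤ k := by exact_mod_cast h
  have h2 : 1 ≤ k * (1 / (N + 1 : ℝ)) := by
    rw [mul_one_div, le_div_iff₀ (by positivity)]
    linarith
  rw [ConfS_w, max_eq_left (by linarith)]
  simp

theorem ConfS_w_sec (N k : ℕ) :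
    ConfS_w N (k + 2) - 2 * ConfS_w N (k + 1) + ConfS_w N k ≤ 2 * (1 / (N + 1 : ℝ)) ^ 2 := by
  have h := ConfS_sec (1 - k * (1 / (N + 1 : ℝ))) (1 / (N + 1 : ℝ)) (by positivity)
  unfold ConfS_w
  push_cast
  rw [show 1 - ((k : ℝ) + 2) * (1 / (N + 1 : ℝ)) = 1 - k * (1 / (N + 1 : ℝ)) - 2 * (1 / (N + 1 : ℝ)) by ring,
    show 1 - ((k : ℝ) + 1) * (1 / (N + 1 : ℝ)) = 1 - k * (1 / (N + 1 : ℝ)) - 1 / (N + 1 : ℝ) by ring]
  exact h

theorem ConfS_w_lim (k : ℕ) : Tendsto (fun N => ConfS_w N k) atTop (nhds 1) := by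
  have h := ((tendsto_const_nhds (x := (0 : ℝ))).max ((tendsto_const_nhds (x := (1 : ℝ))).sub
    ((tendsto_one_div_add_atTop_nhds_zero_nat (𝕜 := ℝ)).const_mul (k : ℝ)))).pow 2
  simpa [ConfS_w] using h

theorem ConfS_err {b : ℕ → ℝ} (hb : ∀ k, 0 ≤ b k) (hB : Summable b) : Tendsto (fun N : ℕ =>
    ∑ k ∈ Finset.range (N + 1), ((k + 2) * (1 / (N + 1 : ℝ))) ^ 2 * b (k + 1)) atTop (nhds 0) := by
  have h := tendsto_tsum_of_dominated_convergence (𝓕 := atTop)
    (f := fun N k : ℕ => if k < N + 1 then ((k + 2) * (1 / (N + 1 : ℝ))) ^ 2 * b (k + 1) else 0)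
    (g := fun _ => 0) (bound := fun k => 4 * b (k + 1))
    (((summable_nat_add_iff 1).2 hB).mul_left 4) (fun k => ?_) (Eventually.of_forall fun N k => ?_)
  · rw [tsum_zero] at h
    refine h.congr fun N => ?_
    rw [tsum_eq_sum (s := Finset.range (N + 1)) fun k hk => if_neg (by simpa using hk)]
    exact Finset.sum_congr rfl fun k hk => if_pos (by simpa using hk)
  · have h1 := (((tendsto_one_div_add_atTop_nhds_zero_nat (𝕜 := ℝ)).const_mul
      ((k : ℝ) + 2)).pow 2).mul_const (b (k + 1))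
    rw [mul_zero, zero_pow two_ne_zero, zero_mul] at h1
    refine h1.congr' ?_
    filter_upwards [eventually_ge_atTop k] with N hN
    rw [if_pos (by omega)]
  · split_ifs with hk
    · have h1 : (k : ℝ) ≤ N := by exact_mod_cast Nat.lt_succ_iff.1 hk
      have h2 : (k + 2) * (1 / (N + 1 : ℝ)) ≤ 2 := by
        rw [mul_one_div, div_le_iff₀ (by positivity)]
        have : (0 : ℝ) ≤ N := Nat.cast_nonneg N
        linarith
      have h3 : 0 ≤ (k + 2) * (1 / (N + 1 : ℝ)) := by positivity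
      rw [Real.norm_of_nonneg (mul_nonneg (sq_nonneg _) (hb _))]
      exact mul_le_mul_of_nonneg_right (by nlinarith) (hb _)
    · rw [norm_zero]
      exact mul_nonneg (by norm_num) (hb _)

theorem seq_tri {s a b : ℕ → ℝ} {c C Q B : ℝ} (hb : ∀ k, 0 ≤ b k)
    (ha : ∀ k, |a k| ≤ (b k + b (k + 1)) / 4) (hs0 : ∀ k, 0 ≤ s k)
    (hsC : ∀ k : ℕ, s k ≤ C * (k + 1) ^ 2) (hB : HasSum b B) (hc : 0 ≤ c)
    (h0 : s 1 - 3 * s 0 ≤ 4 * c) (h2 : ∀ k, s (k + 2) - 2 * s (k + 1) + s k ≤ 4 * c)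
    (hQ : HasSum (fun k => s k * b k - s (k + 1) * a k
      - if k = 0 then 0 else s (k - 1) * a (k - 1)) Q) : -(c * B) ≤ Q := by
  have w0 : ∀ N k, 0 ≤ ConfS_w N k := fun N k => sq_nonneg _
  have h1 := tendsto_tsum_of_dominated_convergence (𝓕 := atTop)
    (f := fun N k : ℕ => ConfS_w N k * (s k * b k - s (k + 1) * a k
      - if k = 0 then 0 else s (k - 1) * a (k - 1))) hQ.summable.norm
    (fun k => (ConfS_w_lim k).mul_const _) (Eventually.of_forall fun N k => by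
      rw [norm_mul, Real.norm_of_nonneg (w0 N k)]
      exact mul_le_of_le_one_left (norm_nonneg _) (ConfS_w_le N k))
  simp only [one_mul, hQ.tsum_eq] at h1
  have h3 := (tendsto_const_nhds (x := -(c * B))).sub
    ((ConfS_err hb hB.summable).const_mul (C / 2))
  rw [mul_zero, sub_zero] at h3
  refine le_of_tendsto_of_tendsto' h3 h1 fun N => ?_
  rw [tsum_eq_sum (s := Finset.range (N + 1 + 1)) fun k hk => by
    rw [ConfS_w_zero (by simp at hk; omega), zero_mul]]
  refine le_trans ?_ (ConfS_fin hb ha hs0 hc h0 h2 (w0 N) (ConfS_w_le N) (by simp [ConfS_w]) (N + 1))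
  rw [ConfS_w_zero le_rfl, ConfS_w_zero (Nat.le_succ _)]
  have e1 := mul_le_mul_of_nonneg_left
    (sum_le_hasSum (Finset.range (N + 1 + 1)) (fun k _ => hb k) hB) hc
  have e2 : ∑ k ∈ Finset.range (N + 1), s (k + 1) *
      (ConfS_w N (k + 2) - 2 * ConfS_w N (k + 1) + ConfS_w N k) * b (k + 1) / 4 ≤
      C / 2 * ∑ k ∈ Finset.range (N + 1), ((k + 2) * (1 / (N + 1 : ℝ))) ^ 2 * b (k + 1) := by
    rw [Finset.mul_sum]
    refine Finset.sum_le_sum fun k _ => ?_
    have d1 := mul_le_mul_of_nonneg_left (ConfS_w_sec N k) (hs0 (k + 1))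
    have d2 := mul_le_mul_of_nonneg_right (hsC (k + 1))
      (show 0 ≤ 2 * (1 / (N + 1 : ℝ)) ^ 2 by positivity)
    have d3 := mul_le_mul_of_nonneg_right (d1.trans d2) (hb (k + 1))
    push_cast at d3
    calc _ ≤ C * (k + 1 + 1) ^ 2 * (2 * (1 / (N + 1 : ℝ)) ^ 2) * b (k + 1) / 4 := by linarith
      _ = _ := by ring
  linarith

end Pool.Agent.Work.MP_6bf1e5_an.H
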