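import Pool.Agent.Work.MP_6bf1e5_an.H.ConfP
import Pool.Agent.Work.MP_6bf1e5_an.H.ConfS

/-!
Conformal part: the lower bound for a diagonal operator against the weight.
Hints. Let m = (e (n - 1) + e n) / 2, s k = e k - m, b k = ipS (Y k) (Y k), a k = ipS (sig last * Y k) (Y (k + 1)),
psi' = psi - m Om phi. tri_term: split4 for Y k, hT, Om = 1 - sig last, the property Gr for Y k, A, B, and
ipS (Y (k + 1)) A = a k, ipS (Y (k - 1)) B = a (k - 1) by orthogonality. By Gr.hasSum the numbers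
q k = ipS psi' (Y k) have the sum ipS psi' phi; split at n (hasSum_nat_add_iff). tri_low: induction on n or
expansion of the double sum, ipS (sig last * Y k) (Y l) vanishes unless l = k + 1 or k = l + 1. The high part is
seq_tri for the shifted sequences, with s (n - 1) = - s n; HF.half gives ha.
-/

open scoped ContDiff ENNReal FourierTransform Real
open Set MeasureTheory

namespace Pool.Agent.Work.MP_6bf1e5_an.H

variable {e : ℕ → ℝ} {n : ℕ} {c C : ℝ} {φ ψ : Sc} {Y : ℕ → Sc}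

/-- `ψ` is the weight times the operator with eigenvalues `e` applied to `φ`, in the weak sense. -/
def Tri (e : ℕ → ℝ) (φ ψ : Sc) : Prop :=
  ∀ k Z A B, HF k Z → HF (k + 1) A → HF (k - 1) B →
    (∀ y, sig (Fin.last 3) y * Z y = A y + B y) →
    ipS ψ Z = ipS φ fun y => e k * Z y - e (k + 1) * A y - e (k - 1) * B y

theorem Tri.shift (hφ : L2S φ) (hψ : L2S ψ) (hT : Tri e φ ψ) (m : ℝ) :
    Tri (fun k => e k - m) φ fun y => ψ y - m * (Om y * φ y) := by
  intro k Z A B hZ hA hB h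
  have h1 : L2S fun y => e k * Z y - e (k + 1) * A y - e (k - 1) * B y :=
    ((hZ.1.l2s.cmul _).sub (hA.1.l2s.cmul _)).sub (hB.1.l2s.cmul _)
  rw [ipS_comm, ipS_sub hZ.1.l2s hψ ((hφ.poly_mul polyF_Om).cmul m), ipS_cmul, ipS_comm Z,
    ipS_comm Z, ipS_mul, hT k Z A B hZ hA hB h, ← ipS_cmul,
    ← ipS_sub hφ h1 ((hZ.1.l2s.poly_mul polyF_Om).cmul m)]
  congr 1
  funext y
  have h2 := h y
  rw [sig_last] at h2
  linear_combination m * h2

theorem ConfT_symm (u v : Sc) : ipS (fun y => sig (Fin.last 3) y * u y) v =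
    ipS (fun y => sig (Fin.last 3) y * v y) u := by
  rw [ipS_mul, ipS_comm]

theorem ConfT_split {k l : ℕ} {u v A B : Sc} (hv : HF l v) (hA : HF (k + 1) A) (hB : HF (k - 1) B)
    (h : ∀ y, sig (Fin.last 3) y * u y = A y + B y) :
    ipS (fun y => sig (Fin.last 3) y * u y) v = ipS v A + ipS v B := by
  rw [ipS_comm, funext h, ipS_add hv.1.l2s hA.1.l2s hB.1.l2s]

theorem ConfT_van {k l : ℕ} {u v : Sc} (hu : HF k u) (hv : HF l v) (h1 : l ≠ k + 1)
    (h2 : k ≠ l + 1) : ipS (fun y => sig (Fin.last 3) y * u y) v = 0 := by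
  obtain ⟨A, B, hA, hB, h0, h3, -⟩ := hu.split4 (Fin.last 3)
  rw [ConfT_split hv hA hB h3, hv.orth hA h1, zero_add]
  rcases Nat.eq_zero_or_pos k with hk | hk
  · rw [h0 hk, ipS_zero]
  · exact hv.orth hB (by omega)

theorem ConfT_sum {G : ℕ → ℕ → ℝ} {a b : ℕ → ℝ} (h0 : ∀ k, G k k = b k)
    (h1 : ∀ k, G k (k + 1) = -a k) (h2 : ∀ k, G (k + 1) k = -a k)
    (h3 : ∀ k l, k + 1 < l → G k l = 0 ∧ G l k = 0) (e : ℕ → ℝ) (n : ℕ) :
    ∑ k ∈ Finset.range (n + 1), e k * ∑ l ∈ Finset.range (n + 1), G k l =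
      ∑ k ∈ Finset.range (n + 1), (e k * b k - e (k + 1) * a k
        - if k = 0 then 0 else e (k - 1) * a (k - 1)) + e (n + 1) * a n := by
  induction n with
  | zero => simp [h0]
  | succ n ih =>
    have h4 : ∑ k ∈ Finset.range (n + 1), e k * G k (n + 1) = e n * -a n := by
      rw [Finset.sum_range_succ, h1, Finset.sum_eq_zero, zero_add]
      intro k hk
      rw [(h3 k (n + 1) (by simpa using hk)).1, mul_zero]
    have h5 : ∑ l ∈ Finset.range (n + 1), G (n + 1) l = -a n := by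
      rw [Finset.sum_range_succ, h2, Finset.sum_eq_zero, zero_add]
      intro k hk
      exact (h3 k (n + 1) (by simpa using hk)).2
    rw [Finset.sum_range_succ, Finset.sum_range_succ _ (n + 1), Finset.sum_range_succ _ (n + 1),
      h5, h0, if_neg (Nat.succ_ne_zero n), Nat.add_sub_cancel]
    simp only [Finset.sum_range_succ _ (n + 1), mul_add, Finset.sum_add_distrib]
    rw [h4, ih]
    ring

theorem tri_term (hφ : L2S φ) (hY : Gr φ Y) (hT : Tri e φ ψ) (k : ℕ) :
    ipS ψ (Y k) = e k * ipS (Y k) (Y k)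
      - e (k + 1) * ipS (fun y => sig (Fin.last 3) y * Y k y) (Y (k + 1))
      - if k = 0 then 0 else
        e (k - 1) * ipS (fun y => sig (Fin.last 3) y * Y (k - 1) y) (Y k) := by
  obtain ⟨A, B, hA, hB, h0, h1, -⟩ := (hY k).1.split4 (Fin.last 3)
  rw [hT k _ A B (hY k).1 hA hB h1,
    ipS_sub hφ (((hY k).1.1.l2s.cmul _).sub (hA.1.l2s.cmul _)) (hB.1.l2s.cmul _),
    ipS_sub hφ ((hY k).1.1.l2s.cmul _) (hA.1.l2s.cmul _), ipS_cmul, ipS_cmul, ipS_cmul,
    (hY k).2 _ (hY k).1, (hY _).2 _ hA, (hY _).2 _ hB, ConfT_split (hY (k + 1)).1 hA hB h1,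
    (hY (k + 1)).1.orth hB (by omega), add_zero]
  split_ifs with hk
  · rw [h0 hk, ipS_zero, mul_zero]
  · rw [ConfT_symm, ConfT_split (hY (k - 1)).1 hA hB h1, (hY (k - 1)).1.orth hA (by omega),
      zero_add]

theorem tri_low (hY : ∀ k, HF k (Y k)) (e : ℕ → ℝ) (n : ℕ) :
    ∫ y, Om y ^ 4 * ((∑ k ∈ Finset.range (n + 1), e k * Y k y) * ∑ k ∈ Finset.range (n + 1), Y k y)
      = ∑ k ∈ Finset.range (n + 1), (e k * ipS (Y k) (Y k)
        - e (k + 1) * ipS (fun y => sig (Fin.last 3) y * Y k y) (Y (k + 1))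
        - if k = 0 then 0 else
          e (k - 1) * ipS (fun y => sig (Fin.last 3) y * Y (k - 1) y) (Y k))
        + e (n + 1) * ipS (fun y => sig (Fin.last 3) y * Y n y) (Y (n + 1)) := by
  have h1 : ∀ k, L2S (Y k) := fun k => (hY k).1.l2s
  have h2 : ∀ k l, ipS (fun y => Om y * Y k y) (Y l) =
      ipS (Y k) (Y l) - ipS (fun y => sig (Fin.last 3) y * Y k y) (Y l) := by
    intro k l
    rw [ipS_mul, ipS_mul, ← ipS_sub (h1 k) (h1 l) ((h1 l).poly_mul (polyF_sig _))]
    congr 1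
    funext y
    rw [sig_last]
    ring
  have h3 := ConfT_sum (G := fun k l => ipS (fun y => Om y * Y k y) (Y l))
    (a := fun k => ipS (fun y => sig (Fin.last 3) y * Y k y) (Y (k + 1)))
    (b := fun k => ipS (Y k) (Y k))
    (fun k => by rw [h2, ConfT_van (hY k) (hY k) (by omega) (by omega), sub_zero])
    (fun k => by rw [h2, (hY k).orth (hY (k + 1)) (by omega), zero_sub])
    (fun k => by rw [h2, (hY (k + 1)).orth (hY k) (by omega), zero_sub, ConfT_symm])
    (fun k l h => ⟨by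
      rw [h2, (hY k).orth (hY l) (by omega), ConfT_van (hY k) (hY l) (by omega) (by omega),
        sub_zero], by
      rw [h2, (hY l).orth (hY k) (by omega), ConfT_van (hY l) (hY k) (by omega) (by omega),
        sub_zero]⟩) e n
  have h4 : ∫ y, Om y ^ 4 * ((∑ k ∈ Finset.range (n + 1), e k * Y k y) *
      ∑ k ∈ Finset.range (n + 1), Y k y) = ipS (fun y => ∑ k ∈ Finset.range (n + 1), Y k y)
        fun y => ∑ k ∈ Finset.range (n + 1), e k * (Om y * Y k y) := by
    unfold ipS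
    congr 1
    funext y
    simp only [mul_left_comm _ (Om y), ← Finset.mul_sum]
    ring
  rw [h4, ipS_sum (L2S.sum _ fun k _ => h1 k) _ fun k _ => ((h1 k).poly_mul polyF_Om).cmul _]
  refine Eq.trans (Finset.sum_congr rfl fun k _ => ?_) (h3.trans ?_)
  · rw [ipS_cmul, ipS_comm, ipS_sum ((h1 k).poly_mul polyF_Om) _ fun l _ => h1 l]
  · congr 1
    refine Finset.sum_congr rfl fun k _ => ?_
    cases k <;> rfl

theorem tri (hn : 1 ≤ n) (hφ : L2S φ) (hψ : L2S ψ) (hY : Gr φ Y) (hT : Tri e φ ψ)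
    (hm : Monotone e) (hC : ∀ k : ℕ, |e k| ≤ C * (k + 1) ^ 2) (hc : 0 ≤ c)
    (h2 : ∀ k, n ≤ k → e (k + 1) - 2 * e k + e (k - 1) ≤ 4 * c) :
    (e (n - 1) + e n) / 2 * ipS (fun y => Om y * φ y) φ - c * ipS φ φ
      + ∫ y, Om y ^ 4 * ((∑ k ∈ Finset.range n, (e k - (e (n - 1) + e n) / 2) * Y k y)
        * ∑ k ∈ Finset.range n, Y k y) ≤ ipS ψ φ := by
  obtain ⟨n, rfl⟩ : ∃ j, n = j + 1 := ⟨n - 1, by omega⟩
  rw [Nat.add_sub_cancel]
  obtain ⟨m, hm'⟩ : ∃ m, m = (e n + e (n + 1)) / 2 := ⟨_, rfl⟩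
  rw [← hm']
  have hO := (hφ.poly_mul polyF_Om).cmul m
  have h1 := hY.hasSum hφ (hψ.sub hO)
  rw [funext (tri_term hφ hY (hT.shift hφ hψ m)), ipS_comm,
    ipS_sub hφ hψ hO, ipS_cmul, ipS_comm φ, ipS_comm φ] at h1
  rw [tri_low (fun k => (hY k).1) (fun k => e k - m) n]
  have h3 := (hasSum_nat_add_iff' (n + 1)).2 (hY.hasSum_sq hφ)
  have h4 := ((hasSum_nat_add_iff' (n + 1)).2 h1).add (hasSum_ite_eq 0
    ((e n - m) * ipS (fun y => sig (Fin.last 3) y * Y n y) (Y (n + 1))))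
  have h5 := seq_tri (s := fun k => e (k + (n + 1)) - m)
    (a := fun k => ipS (fun y => sig (Fin.last 3) y * Y (k + (n + 1)) y) (Y (k + (n + 1) + 1)))
    (C := |C| * (n + 2) ^ 2 + |m|) (fun k => ipS_nonneg _)
    (fun k => by
      rw [Nat.add_right_comm k 1]
      exact (hY _).1.half (hY _).1 _)
    (fun k => by
      have a1 : e n ≤ e (n + 1) := hm (by omega)
      have a2 : e (n + 1) ≤ e (k + (n + 1)) := hm (by omega)
      linarith)
    (fun k => by
      have a1 := (le_abs_self _).trans (hC (k + (n + 1)))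
      have a2 : (0 : ℝ) ≤ k := k.cast_nonneg
      have a3 : (0 : ℝ) ≤ n := n.cast_nonneg
      have a4 : C * (((k + (n + 1) : ℕ) : ℝ) + 1) ^ 2 ≤ |C| * ((n + 2) * (k + 1)) ^ 2 := by
        refine mul_le_mul (le_abs_self C) (pow_le_pow_left₀ (by positivity) ?_ 2) (by positivity)
          (abs_nonneg C)
        push_cast
        nlinarith
      have a5 : |m| * 1 ≤ |m| * ((k : ℝ) + 1) ^ 2 :=
        mul_le_mul_of_nonneg_left (by nlinarith) (abs_nonneg m)
      linarith [neg_abs_le m])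
    h3 hc
    (by
      have a1 := h2 (n + 1) le_rfl
      rw [Nat.add_sub_cancel] at a1
      rw [Nat.zero_add, Nat.add_comm 1]
      linarith)
    (fun k => by
      have a1 := h2 (k + (n + 1) + 1) (by omega)
      rw [Nat.add_sub_cancel] at a1
      rw [Nat.add_right_comm k 2, Nat.add_right_comm k 1]
      linarith)
    (h4.congr_fun fun k => by
      cases k with
      | zero => simp [Nat.add_comm 1]
      | succ k =>
        simp only [Nat.add_right_comm k 1, Nat.add_right_comm (k + 1) 1, Nat.add_sub_cancel,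
          Nat.succ_ne_zero, if_false, add_zero, ← Nat.add_assoc])
  have h6 : 0 ≤ c * ∑ k ∈ Finset.range (n + 1), ipS (Y k) (Y k) :=
    mul_nonneg hc (Finset.sum_nonneg fun k _ => ipS_nonneg _)
  have h7 : e (n + 1) - m = -(e n - m) := by
    rw [hm']
    ring
  rw [h7]
  linarith

end Pool.Agent.Work.MP_6bf1e5_an.H
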