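import Pool.Agent.Work.MP_6bf1e5_an.H.ResSc
import Pool.Agent.Lib.KTab.Row

/-! The radial profiles given by lists of packed coefficients (helper60, helper11). -/

open scoped ContDiff
open Polynomial Finset

namespace Pool.Agent.Work.MP_6bf1e5_an.H

open Pool.Agent.Lib.KTab

noncomputable section

/-- The shifted Chebyshev polynomials. -/
def chS (j : ℕ) : ℤ[X] := (Chebyshev.T ℤ j).comp (2 * X - 1)

/-- The polynomial with the stored coefficients. -/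
def chP (b c z : ℕ) : ℤ[X] := ∑ j ∈ range (c + 1), C (sdig b z j) * chS j

/-- The profile `κ x ^ e ∑ p j / 2 ^ s T j (2 x - 1)`. -/
def radOf (κ : ℝ) (e b s : ℕ) (p : ℕ × ℕ) : Rad :=
  ⟨e, p.1 + 1, fun j => κ * (chP b p.1 p.2).coeff j / 2 ^ s⟩

/-- The function `∑ p j / 2 ^ s T j (2 x - 1)`. -/
def gOf (b s : ℕ) (p : ℕ × ℕ) (x : ℝ) : ℝ :=
  ∑ j ∈ range (p.1 + 1), (sdig b p.2 j : ℝ) / 2 ^ s * (Chebyshev.T ℝ j).eval (2 * x - 1)

/-- The entry of the degree `l`; zero beyond the end of the list. -/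
def ent (D : List (ℕ × ℕ)) (b l : ℕ) : ℕ × ℕ := D.getD (l / 2 - 1) (0, 2 ^ b)

/-- The degrees `2, 4, ..., 2 n`. -/
def LN (n : ℕ) : Finset ℕ := (range n).image fun i => 2 * i + 2

/-- One family of profiles: digit size, scale, rows. -/
structure Fml where
  b : ℕ
  s : ℕ
  D : List (ℕ × ℕ)

/-- The polynomial part of the profile of degree `l`. -/
def Fml.g (F : Fml) (l : ℕ) : ℝ → ℝ := gOf F.b F.s (ent F.D F.b l)

/-- The profile of degree `l` with leading exponent `e`. -/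
def Fml.r (F : Fml) (e l : ℕ) : Rad := radOf 1 e F.b F.s (ent F.D F.b l)

/-- The data: the number of degrees, the potential, the swirl, and the two families of the
approximate local part. -/
structure Dat where
  n : ℕ
  F : Fml
  S : Fml
  B : Fml
  C : Fml

def Dat.L (d : Dat) : Finset ℕ := LN d.n

def Dat.f (d : Dat) (l : ℕ) : Rad := d.F.r (2 * l - 1) l

def Dat.s (d : Dat) (l : ℕ) : Rad := d.S.r (2 * l + 1) l

def Dat.b (d : Dat) (l : ℕ) : Rad := d.B.r (2 * l + 4) l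

def Dat.c (d : Dat) (l : ℕ) : Rad := d.C.r (2 * l + 2) l

/-- The potential of the background in the scale `w ^ 2`. -/
def Dat.Ψ (d : Dat) (w : ℝ) : Vc := TR ((w ^ 2) ^ 2) d.L (scl (w ^ 2) 2 d.f)

/-- The swirl of the background in the scale `w ^ 2`. -/
def Dat.Sw (d : Dat) (w : ℝ) : Vc := TR ((w ^ 2) ^ 2) d.L (scl (w ^ 2) 1 d.s)

/-- The table of the meridional error. -/
def Dat.tP (d : Dat) : Tf := FPt (TA 1 d.L d.F.g) (TA 1 d.L d.S.g) (TA 1 d.L d.C.g)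

/-- The table of the toroidal error. -/
def Dat.tT (d : Dat) : Tf :=
  FTt (TA 1 d.L d.F.g) (TA 1 d.L d.S.g) (TA 1 d.L fun l => wp 1 l (d.F.g l)) (TA 1 d.L d.B.g)

/-- The quadratic forms of the nonlocal part. -/
def Dat.q (d : Dat) (ν σ : ℝ) : ℝ := ∑ l ∈ d.L, RQ 1 ν σ l (d.f l) (d.s l) (d.b l) (d.c l)

end

theorem chS_zero : chS 0 = 1 := by simp [chS]

theorem chS_one : chS 1 = 2 * X - 1 := by simp [chS]

theorem chS_add_two (j : ℕ) : chS (j + 2) = 2 * (2 * X - 1) * chS (j + 1) - chS j := by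
  simp only [chS]
  push_cast
  rw [Chebyshev.T_add_two]
  simp

theorem natDegree_chS : ∀ j, (chS j).natDegree ≤ j
  | 0 => by simp [chS_zero]
  | 1 => by rw [chS_one]; compute_degree
  | j + 2 => by
    rw [chS_add_two]
    refine (natDegree_sub_le _ _).trans (max_le ?_ ((natDegree_chS j).trans (by omega)))
    refine natDegree_mul_le.trans ?_
    have h1 : (2 * (2 * X - 1) : ℤ[X]).natDegree ≤ 1 := by compute_degree
    have h2 := natDegree_chS (j + 1)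
    omega

theorem natDegree_chP (b c z : ℕ) : (chP b c z).natDegree ≤ c :=
  natDegree_sum_le_of_forall_le _ _ fun j hj => (natDegree_C_mul_le _ _).trans
    ((natDegree_chS j).trans (by have := mem_range.1 hj; omega))

theorem aeval_chS (j : ℕ) (x : ℝ) : aeval x (chS j) = (Chebyshev.T ℝ j).eval (2 * x - 1) := by
  rw [chS, aeval_comp, Chebyshev.aeval_T]
  simp [map_ofNat]

theorem radOf_f (κ : ℝ) (e b s : ℕ) (p : ℕ × ℕ) (x : ℝ) : (radOf κ e b s p).f x = κ * x ^ e *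
    ∑ j ∈ range (p.1 + 1), (sdig b p.2 j : ℝ) / 2 ^ s * (Chebyshev.T ℝ j).eval (2 * x - 1) := by
  have h1 : aeval x (chP b p.1 p.2) = ∑ j ∈ range (p.1 + 1), (chP b p.1 p.2).coeff j • x ^ j :=
    aeval_eq_sum_range' (Nat.lt_succ_of_le (natDegree_chP _ _ _)) x
  have h2 : aeval x (chP b p.1 p.2)
      = ∑ j ∈ range (p.1 + 1), (sdig b p.2 j : ℝ) * (Chebyshev.T ℝ j).eval (2 * x - 1) := by
    simp [chP, aeval_chS]
  have h3 : ∑ j ∈ range (p.1 + 1), (sdig b p.2 j : ℝ) / 2 ^ s * (Chebyshev.T ℝ j).eval (2 * x - 1)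
      = aeval x (chP b p.1 p.2) / 2 ^ s := by
    rw [h2, sum_div]
    exact sum_congr rfl fun j _ => by ring
  rw [h3, h1, sum_div, mul_sum, Rad.f]
  refine sum_congr rfl fun j _ => ?_
  simp only [radOf, zsmul_eq_mul, pow_add]
  ring

theorem sdig_zero (b : ℕ) : sdig b (2 ^ b) 0 = 0 := by
  simp [sdig, Pool.Agent.Lib.KLA.bits, Nat.mod_eq_of_lt (Nat.pow_lt_pow_succ (n := b) one_lt_two)]

theorem chP_zero (b : ℕ) : chP b 0 (2 ^ b) = 0 := by simp [chP, sdig_zero]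

theorem ent_of_le {D : List (ℕ × ℕ)} {b l : ℕ} (h : D.length ≤ l / 2 - 1) :
    ent D b l = (0, 2 ^ b) := List.getD_eq_default _ _ h

theorem ent_eq (D : List (ℕ × ℕ)) (b i : ℕ) : ent D b (2 * i + 2) = D.getD i (0, 2 ^ b) := by
  rw [ent, show (2 * i + 2) / 2 - 1 = i by omega]

theorem radOf_zero (κ : ℝ) (e b s : ℕ) (x : ℝ) : (radOf κ e b s (0, 2 ^ b)).f x = 0 := by
  simp [radOf_f, sdig_zero]

theorem sum_LN (n : ℕ) (g : ℕ → ℝ) : ∑ l ∈ LN n, g l = ∑ i ∈ range n, g (2 * i + 2) :=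
  sum_image fun _ _ _ _ h => by simpa using h

theorem gOf_smooth (b s : ℕ) (p : ℕ × ℕ) : ContDiff ℝ ∞ (gOf b s p) :=
  ContDiff.sum fun j _ => contDiff_const.mul (((Chebyshev.T ℝ j).contDiff_aeval ∞).comp
    ((contDiff_const.mul contDiff_id).sub contDiff_const))

theorem gOf_zero (b s : ℕ) (x : ℝ) : gOf b s (0, 2 ^ b) x = 0 := by simp [gOf, sdig_zero]

theorem Fml.r_f (F : Fml) (e l : ℕ) (x : ℝ) : (F.r e l).f x = x ^ e * F.g l x := by
  rw [Fml.r, radOf_f, one_mul]; rfl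

theorem Fml.g_smooth (F : Fml) (l : ℕ) : ContDiff ℝ ∞ (F.g l) := gOf_smooth _ _ _

theorem Fml.g_eq (F : Fml) (i : ℕ) :
    F.g (2 * i + 2) = gOf F.b F.s (F.D.getD i (0, 2 ^ F.b)) := by rw [Fml.g, ent_eq]

theorem Dat.ok (d : Dat) : ResOK d.L d.f d.s d.b d.c := fun l hl => by
  obtain ⟨i, -, rfl⟩ := mem_image.1 hl
  refine ⟨⟨i + 1, by ring⟩, by omega, ?_, le_rfl, le_rfl, le_rfl⟩
  show 2 * (2 * i + 2) ≤ 2 * (2 * i + 2) - 1 + 1
  omega

theorem Dat.pot (d : Dat) {w : ℝ} (hw : 0 < w) : Pot (-1 / 2) (d.Ψ w) (d.Sw w) :=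
  (d.ok.scl _).pot (by positivity)

/-- The field `res` of `Static` from the four checks. -/
theorem Dat.res (d : Dat) {w ν : ℝ} (hw : 1 ≤ w) {n m n' m' : ℕ} {η η' r1 r2 η1 η2 e1 e2 : ℝ}
    (sP : Sm n m η d.tP) (sT : Sm n' m' η' d.tT) (q1 : d.q ν 0 ≤ r1 ^ 2) (q2 : d.q ν 2 ≤ r2 ^ 2)
    (hr1 : 0 ≤ r1) (hr2 : 0 ≤ r2) (hη1 : 0 ≤ η1) (hη2 : 0 ≤ η2)
    (k1 : 40 * (η' ^ 2 + 5 * ((n + m + 7) * η) ^ 2) ≤ η1 ^ 2)
    (k2 : 20 * ((3 * (n + m + 16) ^ 2 * η) ^ 2 + 5 * ((n' + m' + 7) * η') ^ 2) ≤ η2 ^ 2)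
    (he1 : 3 / 2 * (r1 / w ^ 3) + η1 / w ^ 2 ≤ e1) (he2 : r2 / w + η2 ≤ e2) :
    ∀ δ > 0, ∃ A0, ∀ A ≥ A0, nw Om (Res (ν / w ^ 3) (cut A (d.Ψ w) (d.Sw w))) ≤ (e1 + δ) ^ 2 ∧
      gw 1 (Res (ν / w ^ 3) (cut A (d.Ψ w) (d.Sw w))) ≤ (e2 + δ) ^ 2 :=
  res_scl hw d.ok (fun l _ => d.F.r_f _ l) (fun l _ => d.S.r_f _ l) (fun l _ => d.B.r_f _ l)
    (fun l _ => d.C.r_f _ l) (fun l _ => d.F.g_smooth l) (fun l _ => d.S.g_smooth l)
    (fun l _ => d.B.g_smooth l) (fun l _ => d.C.g_smooth l) sP sT hr1 hr2 hη1 hη2 q1 q2 k1 k2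
    he1 he2

end Pool.Agent.Work.MP_6bf1e5_an.H
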