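import Pool.Agent.Work.MP_6bf1e5_an.H.Stmt

/-!
Working definitions (none of them occurs in the final statement). The plan is in the team store,
file h1_H_plan.md.
-/

open scoped ContDiff ENNReal FourierTransform Real
open Set MeasureTheory

namespace Pool.Agent.Work.MP_6bf1e5_an.H

noncomputable section

/-- Scalar functions. -/
abbrev Sc := R3 → ℝ

/-- Vector fields, by components. -/
abbrev Vc := Fin 3 → R3 → ℝ

/-! ### Calculus -/

/-- Iterated partial derivatives. -/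
def pds (l : List (Fin 3)) (f : Sc) : Sc := l.foldr pd f

/-- `y·∇ f`. -/
def yd (f : Sc) : Sc := fun y => ∑ j, y j * pd j f y

/-- The Laplacian. -/
def lap (f : Sc) : Sc := fun y => ∑ j, pd j (pd j f) y

/-- The rotation fields `J = y × ∇`. -/
def Jd (k : Fin 3) (f : Sc) : Sc := fun y => y (k + 1) * pd (k + 2) f y - y (k + 2) * pd (k + 1) f y

def dvg (V : Vc) : Sc := fun y => ∑ i, pd i (V i) y

def curl (V : Vc) : Vc := fun i y => pd (i + 1) (V (i + 2)) y - pd (i + 2) (V (i + 1)) y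

def cross (a b : Vc) : Vc := fun i y => a (i + 1) y * b (i + 2) y - a (i + 2) y * b (i + 1) y

def dot (a b : Vc) : Sc := fun y => ∑ i, a i y * b i y

def grad (f : Sc) : Vc := fun i => pd i f

/-- The position vector. -/
def pos : Vc := fun i y => y i

/-- Product of a scalar and a vector field. -/
def sm (f : Sc) (V : Vc) : Vc := fun i y => f y * V i y

/-- `∫ a · b`. -/
def ip (a b : Vc) : ℝ := ∫ y, dot a b y

/-- `∫ φ |v|²`. -/
def nw (φ : Sc) (v : Vc) : ℝ := ∫ y, φ y * dot v v y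

/-- `∫ φ |∇ v|²`. -/
def gw (φ : Sc) (v : Vc) : ℝ := ∫ y, φ y * ∑ i, ∑ j, pd j (v i) y ^ 2

/-! ### Function classes -/

/-- Smooth with all derivatives square integrable. -/
def Hinf (f : Sc) : Prop := ContDiff ℝ ∞ f ∧ ∀ l, MemLp (pds l f) 2 volume

/-- Symbols of order `m`. -/
def Sym (m : ℝ) (f : Sc) : Prop :=
  ContDiff ℝ ∞ f ∧ ∀ l : List (Fin 3), ∃ C, ∀ y, |pds l f y| ≤ C * (1 + ‖y‖) ^ (m - l.length)

/-- `f` is the inverse Fourier transform of `F`, all of whose moments are integrable. -/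
def RepA (f : Sc) (F : R3 → ℂ) : Prop :=
  (∀ k : ℕ, Integrable (fun ξ => (((1 + ‖ξ‖) ^ k : ℝ) : ℂ) * F ξ)) ∧ ∀ x, (f x : ℂ) = 𝓕⁻ F x

/-- The same with square integrable moments. -/
def RepH (f : Sc) (F : R3 → ℂ) : Prop :=
  RepA f F ∧ ∀ k : ℕ, MemLp (fun ξ => (((1 + ‖ξ‖) ^ k : ℝ) : ℂ) * F ξ) 2 volume

/-- The symbol `(2 π |ξ|) ^ s`. -/
def sy (s : ℝ) (ξ : R3) : ℂ := (((2 * π * ‖ξ‖) ^ s : ℝ) : ℂ)

open Classical in
/-- The operator `(-Δ) ^ (s / 2)`. -/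
def Dp (s : ℝ) (f : Sc) : Sc := fun x =>
  if h : ∃ F, RepA f F then (𝓕⁻ (fun ξ => sy s ξ * h.choose ξ) x).re else 0

/-- The dissipation `(-Δ) ^ (3 / 4)`. -/
def Lam (f : Sc) : Sc := Dp (3 / 2) f

def LamV (V : Vc) : Vc := fun i => Lam (V i)

/-! ### Symmetry -/

def rotM (θ : ℝ) : Matrix (Fin 3) (Fin 3) ℝ :=
  !![Real.cos θ, -Real.sin θ, 0; Real.sin θ, Real.cos θ, 0; 0, 0, 1]

def flpM : Matrix (Fin 3) (Fin 3) ℝ := !![1, 0, 0; 0, -1, 0; 0, 0, -1]

/-- The action of a matrix on a point. -/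
def act (M : Matrix (Fin 3) (Fin 3) ℝ) (y : R3) : R3 := WithLp.toLp 2 fun i => ∑ j, M i j * y j

/-- Equivariance under one matrix. -/
def EqM (M : Matrix (Fin 3) (Fin 3) ℝ) (V : Vc) : Prop :=
  ∀ y i, V i (act M y) = ∑ j, M i j * V j y

/-- Equivariance under the rotations about the third axis and the half turn about the first. -/
def Eqv (V : Vc) : Prop := (∀ θ, EqM (rotM θ) V) ∧ EqM flpM V

/-- Admissible velocity perturbations. -/
structure Adm (u : Vc) : Prop where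
  hinf : ∀ i, Hinf (u i)
  dv : ∀ y, dvg u y = 0
  eqv : Eqv u

/-! ### The weight and the linearised forms -/

/-- The conformal factor, also the weight of the energy. -/
def Om : Sc := fun y => 2 / (1 + ‖y‖ ^ 2)

/-- A real power of the conformal factor. -/
def Op (b : ℝ) : Sc := fun y => Om y ^ b

def AA (U : Vc) (i j : Fin 3) : Sc := fun y =>
  Om y * ((if i = j then (2 - Om y) / 3 + Om y * dot pos U y / 2 else 0)
    - (pd i (U j) y + pd j (U i) y) / 2)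

def BB (W : Vc) (i j : Fin 3) : Sc := fun y =>
  Om y * (pd i (W j) y + pd j (W i) y) - Om y ^ 2 * y i * W j y

/-- The bilinear form of a matrix field. -/
def bf (M : Fin 3 → Fin 3 → Sc) (a b : Vc) : Sc := fun y => ∑ i, ∑ j, a i y * M i j y * b j y

/-- Minus the weighted energy form of the linearisation at `U`. -/
def aForm (ν : ℝ) (U u : Vc) : ℝ :=
  ν * ip (LamV (curl u)) (sm Om (curl u)) + (∫ y, bf (AA U) (curl u) (curl u) y)
    + ∫ y, bf (BB (curl U)) (curl u) u y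

def kp (U θ : Vc) : Vc := fun i y => -θ i y - 2 / 3 * yd (θ i) y - cross (curl θ) U i y

def kq (U θ : Vc) : Vc := fun i y => -cross (curl U) (curl θ) i y

/-- Minus the linearisation at `U`, tested with `θ`. -/
def kForm (ν : ℝ) (U θ u : Vc) : ℝ :=
  ν * ip (LamV (curl u)) θ + ip (curl u) (kp U θ) + ip u (kq U θ)

/-! ### The energies and their rates of change -/

/-- Linear combinations of fields. -/
def lc {ι : Type} [Fintype ι] (c : ι → ℝ) (V : ι → Vc) : Vc := fun i y => ∑ j, c j * V j i y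

/-- The data of the Lyapunov form. -/
structure Lyap where
  r : ℕ
  θ : Fin r → Vc
  F : Fin r → Fin r → ℝ
  Z : Fin 2 → Fin r → ℝ
  κ : ℝ

/-- The moments of the vorticity. -/
def mom (θ u : Vc) : ℝ := ip (curl u) θ

def Lyap.θF (L : Lyap) (a : Fin L.r) : Vc := lc (L.F a) L.θ

def Lyap.θZ (L : Lyap) (i : Fin 2) : Vc := lc (L.Z i) L.θ

def Lyap.zv (L : Lyap) (v : Vc) : ℝ := ∑ i, ip v (L.θZ i) ^ 2

def Lyap.Xv (L : Lyap) (v : Vc) : ℝ :=
  nw Om v + ∑ a, ip v (L.θF a) * ip v (L.θ a) + 2 * L.zv v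

def Lyap.zz (L : Lyap) (u : Vc) : ℝ := L.zv (curl u)

def Lyap.X1 (L : Lyap) (u : Vc) : ℝ := L.Xv (curl u)

def Lyap.X (L : Lyap) (u : Vc) : ℝ := L.X1 u + L.κ * gw 1 (curl u)

def Lyap.E (L : Lyap) (u : Vc) : ℝ := L.X u - 2 * L.zz u

/-- The test fields decay and the matrix is symmetric. -/
def Lyap.Good (L : Lyap) : Prop :=
  (∀ a i, Sym (-3) (L.θ a i)) ∧ (∀ a b, L.F a b = L.F b a) ∧ 0 < L.κ

/-- Two-sided bounds for the level one form. -/
structure Lyap.Coer (L : Lyap) (cl cz ch cb : ℝ) : Prop where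
  lo : ∀ v : Vc, (∀ i, Hinf (v i)) → cl * nw Om v + cz * L.zv v ≤ L.Xv v
  hi : ∀ v : Vc, (∀ i, Hinf (v i)) → L.Xv v ≤ ch ^ 2 * nw Om v
  bes : ∀ v : Vc, (∀ i, Hinf (v i)) → ∑ a, ip v (L.θ a) ^ 2 ≤ cb ^ 2 * nw Om v

/-- The residual of the background `B` in the profile equation for the vorticity. -/
def Res (ν : ℝ) (B : Vc) : Vc := fun i y =>
  curl B i y + 2 / 3 * yd (curl B i) y + ν * Lam (curl B i) y - curl (cross B (curl B)) i y

/-- The right-hand side of the equation for `curl u`, without the terms `v + γ y·∇ v`. -/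
def NN (ν : ℝ) (B u : Vc) : Vc := fun i y =>
  curl (cross (B + u) (curl (B + u))) i y - ν * Lam (curl (B + u) i) y
    - curl B i y - 2 / 3 * yd (curl B i) y

/-- Half the rate of change of `nw Om (curl u)`. -/
def dW (ν : ℝ) (B u : Vc) : ℝ :=
  -nw (fun y => Om y * (2 - Om y) / 3) (curl u) + ip (NN ν B u) (sm Om (curl u))

/-- The rate of change of `mom θ u`. -/
def dM (ν : ℝ) (B θ u : Vc) : ℝ :=
  ip (curl u) (fun i y => θ i y + 2 / 3 * yd (θ i) y) + ip (NN ν B u) θ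

/-- Half the rate of change of `gw 1 (curl u)`. -/
def dH (ν : ℝ) (B u : Vc) : ℝ :=
  -(2 / 3 * gw 1 (curl u)) + ∫ y, ∑ i, ∑ j, pd j (NN ν B u i) y * pd j (curl u i) y

def Lyap.dZ (L : Lyap) (ν : ℝ) (B u : Vc) : ℝ := 2 * ∑ i, mom (L.θZ i) u * dM ν B (L.θZ i) u

def Lyap.dE (L : Lyap) (ν : ℝ) (B u : Vc) : ℝ :=
  2 * dW ν B u + 2 * ∑ a, mom (L.θF a) u * dM ν B (L.θ a) u + 2 * L.κ * dH ν B u

/-- Compactly supported smooth divergence-free equivariant fields. -/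
structure Bg (B : Vc) : Prop where
  smooth : ∀ i, ContDiff ℝ ∞ (B i)
  supp : ∀ i, HasCompactSupport (B i)
  dv : ∀ y, dvg B y = 0
  eqv : Eqv B

/-- The differential inequalities in the block `X ≤ rr`. -/
structure Master (L : Lyap) (ν : ℝ) (B : Vc) (c m β rr : ℝ) : Prop where
  dE : ∀ u, Adm u → L.X u ≤ rr → L.dE ν B u ≤ -m * L.X u + β
  dM : ∀ u, Adm u → L.X u ≤ rr → L.dE ν B u + c * L.dZ ν B u ≤ -m * L.X u + β

/-- A field of the plane spanned by two fields. -/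
def pl (φ : Fin 2 → Vc) (a : Fin 2 → ℝ) : Vc := fun i y => ∑ k, a k * φ k i y

/-- The conclusion: some Schwartz datum has no solution on `[0, T]`. -/
def Blow (ν T : ℝ) : Prop :=
  ∃ u0 : SchwartzMap R3 R3, (∀ x, ∑ i, pd i (fun y => u0 y i) x = 0) ∧
    ¬∃ u p U, FSol (3 / 4) ν u0 T u p U

/-! ### The uncut background -/

/-- A radial cut-off, one on the ball of radius `A`. -/
def chi (A : ℝ) : Sc := fun y => Real.smoothTransition (2 - ‖y‖ ^ 2 / A ^ 2)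

/-- The field `curl Ψ + S`. -/
def fld (Ψ S : Vc) : Vc := curl Ψ + S

/-- The cut field. -/
def cut (A : ℝ) (Ψ S : Vc) : Vc := fld (sm (chi A) Ψ) (sm (chi A) S)

/-- Potentials of order `m`. -/
structure Pot (m : ℝ) (Ψ S : Vc) : Prop where
  sΨ : ∀ i, Sym (m + 1) (Ψ i)
  sS : ∀ i, Sym m (S i)
  tan : ∀ y, dot pos S y = 0
  dv : ∀ y, dvg S y = 0
  eΨ : Eqv Ψ
  eS : Eqv S

/-- The constants of the static estimates. -/
structure Cst where
  μ : ℝ
  μ' : ℝ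
  b0 : ℝ
  b1 : ℝ
  b2 : ℝ
  Cth : ℝ
  cl : ℝ
  cz : ℝ
  ch : ℝ
  cb : ℝ
  e1 : ℝ
  e2 : ℝ
  c0 : ℝ
  C0 : ℝ

/-- The level one inequality. -/
def L1 (L : Lyap) (ν : ℝ) (U : Vc) (μ μ' : ℝ) : Prop :=
  ∀ u, Adm u → μ * L.X1 u + μ' * ∑ i, kForm ν U (L.θZ i) u ^ 2 ≤
    aForm ν U u + ∑ a, mom (L.θF a) u * kForm ν U (L.θ a) u

/-- The static estimates for the uncut background `fld Ψ S`. -/
structure Static (L : Lyap) (ν : ℝ) (Ψ S : Vc) (ψ s : Fin 2 → Vc) (K : Cst) : Prop where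
  good : L.Good
  pot : Pot (-1 / 2) Ψ S
  potφ : ∀ k, Pot (-3) (ψ k) (s k)
  l1 : L1 L ν (fld Ψ S) K.μ K.μ'
  pw0 : ∀ y, ∑ i, ∑ j, pd j (fld Ψ S i) y ^ 2 ≤ K.b0 ^ 2 * Op (3 / 2) y
  pw1 : ∀ y, ∑ i, ∑ j, ∑ k, pd k (pd j (fld Ψ S i)) y ^ 2 ≤ K.b1 ^ 2 * Om y
  pw2 : ∀ y, ∑ i, ∑ j, ∑ k, pd k (pd j (curl (fld Ψ S) i)) y ^ 2 ≤ K.b2 ^ 2 * Om y ^ 2
  pwθ : ∀ y, ∑ a, dot (curl (L.θF a)) (curl (L.θF a)) y
    + ∑ a, dot (curl (L.θZ a)) (curl (L.θZ a)) y ≤ K.Cth ^ 2 * Om y ^ 3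
  coer : L.Coer K.cl K.cz K.ch K.cb
  res : ∀ η > 0, ∃ A0, ∀ A ≥ A0, nw Om (Res ν (cut A Ψ S)) ≤ (K.e1 + η) ^ 2 ∧
    gw 1 (Res ν (cut A Ψ S)) ≤ (K.e2 + η) ^ 2
  iniE : ∀ a, L.E (pl (fun k => fld (ψ k) (s k)) a) ≤ -K.c0 * ∑ k, a k ^ 2
  iniX : ∀ a, L.X (pl (fun k => fld (ψ k) (s k)) a) ≤ K.C0 * ∑ k, a k ^ 2
  nz : ∃ A0, ∀ A ≥ A0, 1 / 10 ^ 6 ≤ nw Om (curl (cut A Ψ S))

/-! ### The conformal sphere -/

/-- The inverse stereographic projection. -/
def sig (i : Fin 4) : Sc := fun y => Fin.lastCases (1 - Om y) (fun j => Om y * y j) i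

/-- Polynomials of degree at most `k` on the sphere, as functions on space. -/
def PolyF (k : ℕ) (f : Sc) : Prop :=
  ∃ p : MvPolynomial (Fin 4) ℝ, p.totalDegree ≤ k ∧ f = fun y => MvPolynomial.eval (fun i => sig i y) p

/-- The inner product of the sphere. -/
def ipS (f g : Sc) : ℝ := ∫ y, Om y ^ 3 * (f y * g y)

/-- Spherical harmonics of degree `k`. -/
def HF (k : ℕ) (f : Sc) : Prop := PolyF k f ∧ ∀ j < k, ∀ g, PolyF j g → ipS f g = 0

/-- The gradient fields of the first three coordinates of the sphere. -/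
def Xd (j : Fin 3) (f : Sc) : Sc := fun y => (Om y)⁻¹ * pd j f y - y j * yd f y

/-- Minus the Laplacian of the sphere. -/
def DD (f : Sc) : Sc := fun y => -((Om y)⁻¹ ^ 3 * ∑ j, pd j (fun z => Om z * pd j f z) y)

/-- The eigenvalues of the conformal fractional Laplacian. -/
def lam (k : ℕ) : ℝ := Real.Gamma (k + 9 / 4) / Real.Gamma (k + 3 / 4)

def lamS (n : ℕ) : ℝ := (lam (n - 1) + lam n) / 2

def cnS (n : ℕ) : ℝ := 3 / 16 * lam (n - 1) / ((n - 1 / 4) * (n + 3 / 4))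

/-- `f` is orthogonal to `Om ^ b` times the polynomials of degree below `n`. -/
def Perp (b : ℝ) (n : ℕ) (f : Sc) : Prop :=
  ∀ j < n, ∀ g, PolyF j g → ∫ y, f y * (Op b y * g y) = 0

end

end Pool.Agent.Work.MP_6bf1e5_an.H
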