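import Pool.Agent.Work.MP_6bf1e5_an.H.DynDefs

/-!
Pointwise calculus for pd, yd, curl (smooth functions).
Hints. pd j f y = fderiv ℝ f y (EuclideanSpace.single j 1); use fderiv_fun_add, fderiv_fun_mul, HasFDerivAt.comp,
ContDiffAt.isSymmSndFDerivAt for pd_comm. For curl identities: fin_cases i, Fin.sum_univ_three, rewrite with
pd_sub, pd_mul, pd_comm, then ring or linear_combination with the divergence conditions.
-/

open scoped ContDiff ENNReal FourierTransform Real
open Set MeasureTheory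

namespace Pool.Agent.Work.MP_6bf1e5_an.H.Dyn

variable {f g : Sc} {a b V : Vc}

theorem dynCalc_d (hf : ContDiff ℝ ∞ f) (y : R3) : DifferentiableAt ℝ f y :=
  hf.differentiable (by simp) y

theorem dynCalc_sum (f : Sc) (x v : R3) : fderiv ℝ f x v = ∑ j, v j * pd j f x := by
  have e : v = ∑ j, v j • EuclideanSpace.single j (1 : ℝ) := by
    simpa using ((EuclideanSpace.basisFun (Fin 3) ℝ).sum_repr v).symm
  conv_lhs => rw [e]
  simp only [map_sum, map_smul, smul_eq_mul, pd]

theorem pd_smooth (hf : ContDiff ℝ ∞ f) (j : Fin 3) : ContDiff ℝ ∞ (pd j f) :=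
  (hf.fderiv_right (m := ∞) (by simp)).clm_apply contDiff_const

theorem pds_smooth (hf : ContDiff ℝ ∞ f) (l : List (Fin 3)) : ContDiff ℝ ∞ (pds l f) := by
  induction l with
  | nil => exact hf
  | cons j l ih => exact pd_smooth ih j

theorem pds_append (l : List (Fin 3)) (j : Fin 3) (f : Sc) :
    pds (l ++ [j]) f = pds l (pd j f) :=
  List.foldr_append

theorem pd_const (c : ℝ) (j : Fin 3) : pd j (fun _ => c) = fun _ => 0 := by
  funext y
  rw [pd, fderiv_fun_const]
  rfl

theorem pd_add (hf : ContDiff ℝ ∞ f) (hg : ContDiff ℝ ∞ g) (j : Fin 3) :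
    pd j (fun y => f y + g y) = fun y => pd j f y + pd j g y := by
  funext y
  rw [pd, fderiv_fun_add (dynCalc_d hf y) (dynCalc_d hg y)]
  rfl

theorem pd_sub (hf : ContDiff ℝ ∞ f) (hg : ContDiff ℝ ∞ g) (j : Fin 3) :
    pd j (fun y => f y - g y) = fun y => pd j f y - pd j g y := by
  funext y
  rw [pd, fderiv_fun_sub (dynCalc_d hf y) (dynCalc_d hg y)]
  rfl

theorem pd_neg (f : Sc) (j : Fin 3) : pd j (fun y => -f y) = fun y => -pd j f y := by
  funext y
  rw [pd, fderiv_fun_neg]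
  rfl

theorem pd_mul (hf : ContDiff ℝ ∞ f) (hg : ContDiff ℝ ∞ g) (j : Fin 3) :
    pd j (fun y => f y * g y) = fun y => pd j f y * g y + f y * pd j g y := by
  funext y
  rw [pd, fderiv_fun_mul (dynCalc_d hf y) (dynCalc_d hg y), add_comm, mul_comm]
  rfl

theorem pd_cmul (hf : ContDiff ℝ ∞ f) (c : ℝ) (j : Fin 3) :
    pd j (fun y => c * f y) = fun y => c * pd j f y := by
  simp only [pd_mul contDiff_const hf, pd_const, zero_mul, zero_add]

theorem pd_sum {ι : Type} (t : Finset ι) {F : ι → Sc} (hF : ∀ i ∈ t, ContDiff ℝ ∞ (F i))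
    (j : Fin 3) : pd j (fun y => ∑ i ∈ t, F i y) = fun y => ∑ i ∈ t, pd j (F i) y := by
  funext y
  rw [pd, fderiv_fun_sum fun i hi => dynCalc_d (hF i hi) y, sum_apply]
  rfl

theorem pd_comm (hf : ContDiff ℝ ∞ f) (i j : Fin 3) : pd i (pd j f) = pd j (pd i f) := by
  funext x
  have hd : DifferentiableAt ℝ (fderiv ℝ f) x :=
    (hf.fderiv_right (m := ∞) (by simp)).differentiable (by simp) x
  have key : ∀ k l : Fin 3, pd k (pd l f) x = fderiv ℝ (fderiv ℝ f) x (EuclideanSpace.single k 1)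
      (EuclideanSpace.single l 1) := by
    intro k l
    change fderiv ℝ (fun y => fderiv ℝ f y (EuclideanSpace.single l 1)) x _ = _
    rw [fderiv_clm_apply hd (differentiableAt_const _)]
    simp
  rw [key, key]
  exact (hf.contDiffAt.isSymmSndFDerivAt
    (by rw [minSmoothness_of_isRCLikeNormedField]; exact ENat.LEInfty.out)).eq _ _

theorem coord_smooth (i : Fin 3) : ContDiff ℝ ∞ fun y : R3 => y i :=
  (EuclideanSpace.proj (𝕜 := ℝ) i).contDiff

theorem pd_coord (i j : Fin 3) : pd j (fun y => y i) = fun _ => if i = j then 1 else 0 := by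
  funext x
  rw [pd, show fderiv ℝ (fun y : R3 => y i) x = _ from (EuclideanSpace.proj (𝕜 := ℝ) i).fderiv]
  simp

theorem pds_add (hf : ContDiff ℝ ∞ f) (hg : ContDiff ℝ ∞ g) (l : List (Fin 3)) :
    pds l (fun y => f y + g y) = fun y => pds l f y + pds l g y := by
  induction l with
  | nil => rfl
  | cons j l ih => exact (congrArg (pd j) ih).trans (pd_add (pds_smooth hf l) (pds_smooth hg l) j)

theorem pds_cmul (hf : ContDiff ℝ ∞ f) (c : ℝ) (l : List (Fin 3)) :
    pds l (fun y => c * f y) = fun y => c * pds l f y := by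
  induction l with
  | nil => rfl
  | cons j l ih => exact (congrArg (pd j) ih).trans (pd_cmul (pds_smooth hf l) c j)

theorem pds_sum {ι : Type} (t : Finset ι) {F : ι → Sc} (hF : ∀ i ∈ t, ContDiff ℝ ∞ (F i))
    (l : List (Fin 3)) : pds l (fun y => ∑ i ∈ t, F i y) = fun y => ∑ i ∈ t, pds l (F i) y := by
  induction l with
  | nil => rfl
  | cons j l ih =>
    exact (congrArg (pd j) ih).trans (pd_sum t (fun i hi => pds_smooth (hF i hi) l) j)

theorem yd_smooth (hf : ContDiff ℝ ∞ f) : ContDiff ℝ ∞ (yd f) :=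
  ContDiff.sum fun j _ => (coord_smooth j).mul (pd_smooth hf j)

theorem yd_eq (hf : ContDiff ℝ ∞ f) (y : R3) : yd f y = fderiv ℝ f y y :=
  (fun _ => (dynCalc_sum f y y).symm) hf

theorem pd_yd (hf : ContDiff ℝ ∞ f) (j : Fin 3) :
    pd j (yd f) = fun y => pd j f y + yd (pd j f) y := by
  funext y
  rw [show yd f = fun y => ∑ k, y k * pd k f y from rfl,
    pd_sum _ fun k _ => (coord_smooth k).mul (pd_smooth hf k)]
  simp only [fun k => pd_mul (coord_smooth k) (pd_smooth hf k), pd_coord, pd_comm hf j,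
    Finset.sum_add_distrib, yd, ite_mul, one_mul, zero_mul, Finset.sum_ite_eq', Finset.mem_univ,
    if_true]

theorem yd_sub (hf : ContDiff ℝ ∞ f) (hg : ContDiff ℝ ∞ g) :
    yd (fun y => f y - g y) = fun y => yd f y - yd g y := by
  funext y
  simp only [yd, pd_sub hf hg, mul_sub, Finset.sum_sub_distrib]

theorem yd_mul (hf : ContDiff ℝ ∞ f) (hg : ContDiff ℝ ∞ g) :
    yd (fun y => f y * g y) = fun y => yd f y * g y + f y * yd g y := by
  funext y
  simp only [yd, pd_mul hf hg, Fin.sum_univ_three]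
  ring

theorem yd_sum {ι : Type} (t : Finset ι) {F : ι → Sc} (hF : ∀ i ∈ t, ContDiff ℝ ∞ (F i)) :
    yd (fun y => ∑ i ∈ t, F i y) = fun y => ∑ i ∈ t, yd (F i) y := by
  funext y
  simp only [yd, pd_sum t hF, Finset.mul_sum]
  exact Finset.sum_comm

theorem Om_smooth : ContDiff ℝ ∞ Om :=
  contDiff_const.div (contDiff_const.add (contDiff_norm_sq ℝ)) fun _ => by positivity

theorem Om_pos (y : R3) : 0 < Om y := by
  unfold Om
  positivity

theorem Om_le (y : R3) : Om y ≤ 2 :=
  div_le_self zero_le_two (le_add_of_nonneg_right (sq_nonneg _))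

theorem yd_Om (y : R3) : yd Om y = -(Om y * (2 - Om y)) := by
  have h0 : 1 + ‖y‖ ^ 2 ≠ 0 := by positivity
  have h := (hasDerivAt_inv h0).comp_hasFDerivAt y
    ((hasStrictFDerivAt_norm_sq y).hasFDerivAt.const_add 1)
  rw [yd_eq Om_smooth, show fderiv ℝ Om y = _ from (h.const_mul 2).fderiv]
  simp [Om]
  field_simp
  ring

theorem pd_scale (hf : ContDiff ℝ ∞ f) (c : ℝ) (j : Fin 3) :
    pd j (fun y => f (c • y)) = fun y => c * pd j f (c • y) := by
  funext y
  have h := (dynCalc_d hf (c • y)).hasFDerivAt.comp y ((hasFDerivAt_id y).const_smul c)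
  rw [pd, show fderiv ℝ (fun y => f (c • y)) y = _ from h.fderiv]
  simp [pd]

theorem dynCalc_act (M : Matrix (Fin 3) (Fin 3) ℝ) :
    act M = LinearMap.toContinuousLinearMap (Matrix.toEuclideanLin M) := rfl

theorem act_smooth (M : Matrix (Fin 3) (Fin 3) ℝ) : ContDiff ℝ ∞ (act M) := by
  rw [dynCalc_act]
  exact ContinuousLinearMap.contDiff _

theorem act_smul (M : Matrix (Fin 3) (Fin 3) ℝ) (c : ℝ) (y : R3) :
    act M (c • y) = c • act M y := by
  rw [dynCalc_act, map_smul]

theorem pd_act (hf : ContDiff ℝ ∞ f) (M : Matrix (Fin 3) (Fin 3) ℝ) (j : Fin 3) :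
    pd j (fun y => f (act M y)) = fun y => ∑ k, M k j * pd k f (act M y) := by
  funext y
  have h := (dynCalc_d hf (act M y)).hasFDerivAt.comp y
    (LinearMap.toContinuousLinearMap (Matrix.toEuclideanLin M)).hasFDerivAt
  rw [pd, show fderiv ℝ (fun y => f (act M y)) y = _ from h.fderiv,
    ContinuousLinearMap.comp_apply, dynCalc_sum, ← dynCalc_act]
  simp [act]

theorem curl_smooth (hV : ∀ i, ContDiff ℝ ∞ (V i)) (i : Fin 3) : ContDiff ℝ ∞ (curl V i) :=
  (pd_smooth (hV _) _).sub (pd_smooth (hV _) _)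

theorem curl_sub (ha : ∀ i, ContDiff ℝ ∞ (a i)) (hb : ∀ i, ContDiff ℝ ∞ (b i)) :
    curl (a - b) = curl a - curl b := by
  funext i y
  have e : ∀ k j, pd j (a k - b k) = _ := fun k j => pd_sub (ha k) (hb k) j
  simp only [curl, e, Pi.sub_apply]
  ring

theorem curl_neg (a : Vc) : curl (-a) = -curl a := by
  funext i y
  have e : ∀ k j, pd j (-a k) = _ := fun k j => pd_neg (a k) j
  simp only [curl, e, Pi.neg_apply]
  ring

theorem dvg_add (ha : ∀ i, ContDiff ℝ ∞ (a i)) (hb : ∀ i, ContDiff ℝ ∞ (b i)) (y : R3) :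
    dvg (a + b) y = dvg a y + dvg b y := by
  have e : ∀ k j, pd j ((a + b) k) = _ := fun k j => pd_add (ha k) (hb k) j
  simp only [dvg, e, Finset.sum_add_distrib]

theorem dvg_sub (ha : ∀ i, ContDiff ℝ ∞ (a i)) (hb : ∀ i, ContDiff ℝ ∞ (b i)) (y : R3) :
    dvg (a - b) y = dvg a y - dvg b y := by
  have e : ∀ k j, pd j ((a - b) k) = _ := fun k j => pd_sub (ha k) (hb k) j
  simp only [dvg, e, Finset.sum_sub_distrib]

theorem pd_curl (hV : ∀ i, ContDiff ℝ ∞ (V i)) (j i : Fin 3) :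
    pd j (curl V i) = curl (fun k => pd j (V k)) i := by
  refine (pd_sub (pd_smooth (hV _) _) (pd_smooth (hV _) _) j).trans ?_
  rw [pd_comm (hV _) j, pd_comm (hV _) j]
  rfl

theorem dvg_pd (hV : ∀ i, ContDiff ℝ ∞ (V i)) (hd : ∀ y, dvg V y = 0) (j : Fin 3) (y : R3) :
    dvg (fun k => pd j (V k)) y = 0 := by
  have h := pd_sum Finset.univ (fun i _ => pd_smooth (hV i) i) j
  rw [show (fun y => ∑ i, pd i (V i) y) = fun _ => 0 from funext hd, pd_const] at h
  simp only [dvg, fun i => pd_comm (hV i) i j]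
  exact (congrFun h y).symm

theorem dvg_curl (hV : ∀ i, ContDiff ℝ ∞ (V i)) (y : R3) : dvg (curl V) y = 0 := by
  simp only [dvg, pd_curl hV, curl, Fin.sum_univ_three, Fin.reduceAdd, pd_comm (hV 0) 1 2,
    pd_comm (hV 1) 0 2, pd_comm (hV 2) 0 1]
  ring

theorem curl_grad (hf : ContDiff ℝ ∞ f) (i : Fin 3) (y : R3) : curl (grad f) i y = 0 := by
  rw [curl, grad, grad, pd_comm hf, sub_self]

theorem curl_cross (ha : ∀ i, ContDiff ℝ ∞ (a i)) (hb : ∀ i, ContDiff ℝ ∞ (b i))
    (hda : ∀ y, dvg a y = 0) (hdb : ∀ y, dvg b y = 0) (i : Fin 3) (y : R3) :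
    curl (cross a b) i y = ∑ j, (b j y * pd j (a i) y - a j y * pd j (b i) y) := by
  have e : ∀ k j, pd j (cross a b k) = _ := fun k j =>
    pd_sub ((ha _).mul (hb _)) ((ha _).mul (hb _)) j
  have h1 := hda y
  have h2 := hdb y
  simp only [dvg, Fin.sum_univ_three] at h1 h2
  simp only [curl, e, fun k l => pd_mul (ha k) (hb l), Fin.sum_univ_three]
  fin_cases i <;> simp only [Fin.reduceFinMk, Fin.reduceAdd, Fin.isValue]
  · linear_combination a 0 y * h2 - b 0 y * h1
  · linear_combination a 1 y * h2 - b 1 y * h1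
  · linear_combination a 2 y * h2 - b 2 y * h1

theorem curl_adv (hV : ∀ i, ContDiff ℝ ∞ (V i)) (i : Fin 3) (y : R3) :
    curl (fun k z => -∑ j, V j z * pd j (V k) z) i y = curl (cross V (curl V)) i y := by
  have hs : ContDiff ℝ ∞ fun y => 1 / 2 * ∑ j, V j y * V j y :=
    contDiff_const.mul (ContDiff.sum fun j _ => (hV j).mul (hV j))
  have e : (fun k z => -∑ j, V j z * pd j (V k) z) =
      cross V (curl V) - grad fun y => 1 / 2 * ∑ j, V j y * V j y := by
    funext k z
    simp only [Pi.sub_apply, grad, cross, curl,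
      pd_cmul (ContDiff.sum fun j _ => (hV j).mul (hV j)),
      pd_sum _ fun j _ => (hV j).mul (hV j), fun j => pd_mul (hV j) (hV j)]
    fin_cases k <;> simp only [Fin.reduceFinMk, Fin.reduceAdd, Fin.isValue, Fin.sum_univ_three] <;>
      ring
  rw [e, curl_sub (a := cross _ _) (b := grad _) (fun k => ((hV _).mul (curl_smooth hV _)).sub
    ((hV _).mul (curl_smooth hV _))) (pd_smooth hs), Pi.sub_apply, Pi.sub_apply, curl_grad hs, sub_zero]

end Pool.Agent.Work.MP_6bf1e5_an.H.Dyn
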