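import Pool.Agent.Work.MP_6bf1e5_an.H.DynStA

/-!
Continuity of the quadratic forms in the norm ZZ, the initial plane and the final lower bound.
Hints. curl u' = curl u + curl (u' - u) (curl_sub). For squares: |(a + b) ^ 2 - a ^ 2| ≤ η a ^ 2 + (1 + 1 / η) b ^ 2;
0 < Om ≤ 2; |a b| ≤ η a ^ 2 + b ^ 2 / η for the moments (θ i is Hinf by Sym.hinf). Prove one lemma of the form
∀ ε > 0, ∃ δ > 0, ∀ u u', ... for each of nw Om, gw 1, mom θ, mom θ ^ 2 and add them. ZZ_pl: pl φ a is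
a 0 • φ 0 + a 1 • φ 1, (x + y) ^ 2 ≤ 2 x ^ 2 + 2 y ^ 2. nw_lower: pointwise
dot (W - W0) (W - W0) ≥ dot W0 W0 - 2 * η * ∑ i, |W0 i y|; curl B i is continuous with compact support.
-/

open scoped ContDiff ENNReal FourierTransform Real
open Set MeasureTheory

namespace Pool.Agent.Work.MP_6bf1e5_an.H.Dyn

theorem DynCt_hsub {u u' : Vc} (h : ∀ i, Hinf (u i)) (h' : ∀ i, Hinf (u' i)) (i : Fin 3) :
    Hinf ((u' - u) i) := hinf_sub (h' i) (h i)

theorem DynCt_sq_nonneg (f : Sc) : 0 ≤ ∫ y, f y ^ 2 := integral_nonneg fun y => sq_nonneg (f y)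

theorem DynCt_comb {f g : Sc} (hf : Hinf f) (hg : Hinf g) (a b : ℝ) :
    ∫ y, (a * f y + b * g y) ^ 2 ≤ 2 * a ^ 2 * (∫ y, f y ^ 2) + 2 * b ^ 2 * ∫ y, g y ^ 2 := by
  rw [← integral_const_mul, ← integral_const_mul,
    ← integral_add ((int_sq hf).const_mul _) ((int_sq hg).const_mul _)]
  refine integral_mono (int_sq (hinf_add (hinf_cmul hf a) (hinf_cmul hg b)))
    (((int_sq hf).const_mul _).add ((int_sq hg).const_mul _)) fun y => ?_
  show (a * f y + b * g y) ^ 2 ≤ 2 * a ^ 2 * f y ^ 2 + 2 * b ^ 2 * g y ^ 2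
  nlinarith [sq_nonneg (a * f y - b * g y)]

theorem DynCt_sub_sq {f g : Sc} (hf : Hinf f) (hg : Hinf g) :
    ∫ y, (f y - g y) ^ 2 ≤ 2 * (∫ y, f y ^ 2) + 2 * ∫ y, g y ^ 2 := by
  have := DynCt_comb hf hg 1 (-1)
  simpa only [one_mul, neg_mul, ← sub_eq_add_neg, one_pow, mul_one, neg_one_sq] using this

theorem DynCt_mul_le {f g : Sc} (hf : Hinf f) (hg : Hinf g) {η : ℝ} (hη : 0 < η) :
    |∫ y, f y * g y| ≤ (∫ y, f y ^ 2) / η + η * ∫ y, g y ^ 2 := by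
  rw [← integral_const_mul, ← integral_div,
    ← integral_add ((int_sq hf).div_const _) ((int_sq hg).const_mul _)]
  refine abs_integral_le_integral_abs.trans (integral_mono (int_mul hf hg).abs
    (((int_sq hf).div_const _).add ((int_sq hg).const_mul _)) fun y => ?_)
  show |f y * g y| ≤ f y ^ 2 / η + η * g y ^ 2
  have h1 : f y ^ 2 / η + η * g y ^ 2 = (f y ^ 2 + η ^ 2 * g y ^ 2) / η := by
    field_simp
  rw [h1, le_div_iff₀ hη, abs_mul, ← sq_abs (f y), ← sq_abs (g y)]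
  nlinarith [sq_nonneg (|f y| - η * |g y|), abs_nonneg (f y), abs_nonneg (g y),
    mul_nonneg (mul_nonneg (abs_nonneg (f y)) (abs_nonneg (g y))) hη.le]

theorem DynCt_mom_sub {θ u u' : Vc} (hθ : ∀ i, Hinf (θ i)) (h : ∀ i, Hinf (u i))
    (h' : ∀ i, Hinf (u' i)) : mom θ u' - mom θ u = mom θ (u' - u) := by
  unfold mom
  rw [ip_eq (hinf_curl h') hθ, ip_eq (hinf_curl h) hθ, ip_eq (hinf_curl (DynCt_hsub h h')) hθ,
    ← Finset.sum_sub_distrib, curl_sub (fun i => (h' i).1) fun i => (h i).1]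
  refine Finset.sum_congr rfl fun i _ => ?_
  rw [← integral_sub (int_mul (hinf_curl h' i) (hθ i)) (int_mul (hinf_curl h i) (hθ i))]
  refine integral_congr_ae (Filter.Eventually.of_forall fun y => ?_)
  simp only [Pi.sub_apply]
  ring

theorem DynCt_mom_le {θ u : Vc} (hθ : ∀ i, Hinf (θ i)) (h : ∀ i, Hinf (u i)) {η : ℝ} (hη : 0 < η) :
    |mom θ u| ≤ 3 * ZZ u / η + η * ∑ i, ∫ y, θ i y ^ 2 := by
  unfold mom
  rw [ip_eq (hinf_curl h) hθ]
  refine (Finset.abs_sum_le_sum_abs _ _).trans ?_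
  have h1 : ∀ i : Fin 3, |∫ y, curl u i y * θ i y| ≤ ZZ u / η + η * ∫ y, θ i y ^ 2 := fun i =>
    (DynCt_mul_le (hinf_curl h i) (hθ i) hη).trans
      (add_le_add (div_le_div_of_nonneg_right (zz_d h i) hη.le) le_rfl)
  refine (Finset.sum_le_sum fun i _ => h1 i).trans (le_of_eq ?_)
  simp only [Fin.sum_univ_three]
  ring

theorem mom_cont {θ : Vc} (hθ : ∀ i, Sym (-3) (θ i)) {ε : ℝ} (hε : 0 < ε) : ∃ δ > 0,
    ∀ u u' : Vc, (∀ i, Hinf (u i)) → (∀ i, Hinf (u' i)) → ZZ (u' - u) ≤ δ →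
      |mom θ u' - mom θ u| ≤ ε := by
  have hθ' : ∀ i, Hinf (θ i) := fun i => (hθ i).hinf (by norm_num)
  have hN : 0 ≤ ∑ i, ∫ y, θ i y ^ 2 := Finset.sum_nonneg fun i _ => DynCt_sq_nonneg _
  generalize hNe : ∑ i, ∫ y, θ i y ^ 2 = N at hN
  have hη : 0 < ε / (2 * (N + 1)) := by positivity
  generalize hηe : ε / (2 * (N + 1)) = η at hη
  have hη2 : η * (2 * (N + 1)) = ε := by
    rw [← hηe]
    field_simp
  refine ⟨ε * η / 6, by positivity, fun u u' a a' c => ?_⟩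
  rw [DynCt_mom_sub hθ' a a']
  have h1 := DynCt_mom_le hθ' (DynCt_hsub a a') hη
  rw [hNe] at h1
  have h2 : 3 * ZZ (u' - u) / η ≤ ε / 2 := by
    rw [div_le_iff₀ hη]
    linarith
  nlinarith

/-- Uniform continuity on the ball `ZZ ≤ K`. -/
def DynCt_Ct (K : ℝ) (F : Vc → ℝ) : Prop := ∀ ε > 0, ∃ δ > 0,
  ∀ u u' : Vc, (∀ i, Hinf (u i)) → (∀ i, Hinf (u' i)) → ZZ u ≤ K → ZZ (u' - u) ≤ δ →
    |F u' - F u| ≤ ε

theorem DynCt_congr {K : ℝ} {F G : Vc → ℝ} (h : DynCt_Ct K F)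
    (e : ∀ u : Vc, (∀ i, Hinf (u i)) → G u = F u) : DynCt_Ct K G := by
  intro ε hε
  obtain ⟨δ, hδ, H⟩ := h ε hε
  exact ⟨δ, hδ, fun u u' a a' b c => by rw [e u a, e u' a']; exact H u u' a a' b c⟩

theorem DynCt_add {K : ℝ} {F G : Vc → ℝ} (h : DynCt_Ct K F) (h' : DynCt_Ct K G) :
    DynCt_Ct K fun u => F u + G u := by
  intro ε hε
  obtain ⟨δ, hδ, H⟩ := h (ε / 2) (by positivity)
  obtain ⟨δ', hδ', H'⟩ := h' (ε / 2) (by positivity)
  refine ⟨min δ δ', lt_min hδ hδ', fun u u' a a' b c => ?_⟩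
  have h1 := abs_le.1 (H u u' a a' b (c.trans (min_le_left _ _)))
  have h2 := abs_le.1 (H' u u' a a' b (c.trans (min_le_right _ _)))
  exact abs_le.2 ⟨by linarith [h1.1, h2.1], by linarith [h1.2, h2.2]⟩

theorem DynCt_cmul {K : ℝ} {F : Vc → ℝ} (h : DynCt_Ct K F) (c : ℝ) :
    DynCt_Ct K fun u => c * F u := by
  intro ε hε
  obtain ⟨δ, hδ, H⟩ := h (ε / (|c| + 1)) (by positivity)
  refine ⟨δ, hδ, fun u u' a a' b d => ?_⟩
  have h1 := H u u' a a' b d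
  rw [le_div_iff₀ (by positivity)] at h1
  show |c * F u' - c * F u| ≤ ε
  rw [← mul_sub, abs_mul]
  nlinarith [abs_nonneg (F u' - F u)]

theorem DynCt_sum {K : ℝ} {ι : Type} (t : Finset ι) {F : ι → Vc → ℝ}
    (h : ∀ i ∈ t, DynCt_Ct K (F i)) : DynCt_Ct K fun u => ∑ i ∈ t, F i u := by
  classical
  induction t using Finset.induction_on with
  | empty => exact fun ε hε => ⟨1, one_pos, fun _ _ _ _ _ _ => by simpa using hε.le⟩
  | insert a t ha ih =>
    simp only [Finset.sum_insert ha]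
    exact DynCt_add (h a (Finset.mem_insert_self a t))
      (ih fun i hi => h i (Finset.mem_insert_of_mem hi))

theorem DynCt_momsq (K : ℝ) {θ : Vc} (hθ : ∀ i, Sym (-3) (θ i)) :
    DynCt_Ct K fun u => mom θ u ^ 2 := by
  intro ε hε
  have hθ' : ∀ i, Hinf (θ i) := fun i => (hθ i).hinf (by norm_num)
  obtain ⟨M, hM0, hM⟩ : ∃ M : ℝ, 0 ≤ M ∧ ∀ u : Vc, (∀ i, Hinf (u i)) → ZZ u ≤ K →
      |mom θ u| ≤ M := by
    refine ⟨3 * |K| + ∑ i, ∫ y, θ i y ^ 2,
      add_nonneg (by positivity) (Finset.sum_nonneg fun i _ => DynCt_sq_nonneg _),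
      fun u a b => ?_⟩
    have := DynCt_mom_le hθ' a one_pos
    have := le_abs_self K
    linarith
  obtain ⟨δ, hδ, H⟩ := mom_cont hθ (ε := min 1 (ε / (2 * M + 1))) (lt_min one_pos (by positivity))
  refine ⟨δ, hδ, fun u u' a a' b c => ?_⟩
  have h1 := H u u' a a' c
  have h2 := h1.trans (min_le_left _ _)
  have h3 := h1.trans (min_le_right _ _)
  rw [le_div_iff₀ (by positivity)] at h3
  have h4 := hM u a b
  have h5 : |mom θ u' + mom θ u| ≤ 2 * M + 1 := by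
    have := abs_le.1 h2
    have := abs_le.1 h4
    exact abs_le.2 ⟨by linarith [this.1], by linarith [this.2]⟩
  show |mom θ u' ^ 2 - mom θ u ^ 2| ≤ ε
  rw [sq_sub_sq, abs_mul, mul_comm]
  exact (mul_le_mul_of_nonneg_left h5 (abs_nonneg _)).trans h3

theorem DynCt_wsq {w f g : Sc} (hw : Continuous w) (hw2 : ∀ y, |w y| ≤ 2) (hf : Hinf f)
    (hg : Hinf g) {η : ℝ} (hη : 0 < η) :
    |(∫ y, w y * ((f y + g y) * (f y + g y))) - ∫ y, w y * (f y * f y)| ≤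
      2 * η * (∫ y, f y ^ 2) + 2 * (1 + 1 / η) * ∫ y, g y ^ 2 := by
  have i1 := int_wmul hw hw2 (hinf_add hf hg) (hinf_add hf hg)
  have i2 := int_wmul hw hw2 hf hf
  rw [← integral_sub i1 i2, ← integral_const_mul, ← integral_const_mul,
    ← integral_add ((int_sq hf).const_mul _) ((int_sq hg).const_mul _)]
  refine abs_integral_le_integral_abs.trans (integral_mono (i1.sub i2).abs
    (((int_sq hf).const_mul _).add ((int_sq hg).const_mul _)) fun y => ?_)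
  show |w y * ((f y + g y) * (f y + g y)) - w y * (f y * f y)| ≤
    2 * η * f y ^ 2 + 2 * (1 + 1 / η) * g y ^ 2
  have h1 : |(f y + g y) * (f y + g y) - f y * f y| ≤ η * f y ^ 2 + (1 + 1 / η) * g y ^ 2 := by
    have e : 1 / η * η = 1 := by field_simp
    have a1 : 0 ≤ 1 / η * (η * f y - g y) ^ 2 := by positivity
    have a2 : 0 ≤ 1 / η * (η * f y + g y) ^ 2 := by positivity
    have b1 : 1 / η * (η * f y - g y) ^ 2 = η * f y ^ 2 - 2 * (f y * g y) + 1 / η * g y ^ 2 := by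
      field_simp
      ring
    have b2 : 1 / η * (η * f y + g y) ^ 2 = η * f y ^ 2 + 2 * (f y * g y) + 1 / η * g y ^ 2 := by
      field_simp
      ring
    exact abs_le.2 ⟨by nlinarith [sq_nonneg (g y)], by nlinarith [sq_nonneg (g y)]⟩
  rw [← mul_sub, abs_mul]
  have := mul_le_mul (hw2 y) h1 (abs_nonneg _) (by norm_num)
  linarith

theorem DynCt_quad (K : ℝ) {w : Sc} (hw : Continuous w) (hw2 : ∀ y, |w y| ≤ 2) (T : Vc → Sc)
    (hT : ∀ u : Vc, (∀ i, Hinf (u i)) → Hinf (T u))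
    (hl : ∀ u u' : Vc, (∀ i, Hinf (u i)) → (∀ i, Hinf (u' i)) → ∀ y,
      T u' y = T u y + T (u' - u) y)
    (hb : ∀ u : Vc, (∀ i, Hinf (u i)) → ∫ y, T u y ^ 2 ≤ ZZ u) :
    DynCt_Ct K fun u => ∫ y, w y * (T u y * T u y) := by
  intro ε hε
  have hη : 0 < ε / (4 * (|K| + 1)) := by positivity
  generalize hηe : ε / (4 * (|K| + 1)) = η at hη
  have hη2 : η * (4 * (|K| + 1)) = ε := by
    rw [← hηe]
    field_simp
  have hδ : 0 < ε / (4 * (1 + 1 / η)) := by positivity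
  generalize hδe : ε / (4 * (1 + 1 / η)) = δ at hδ
  have hδ2 : δ * (4 * (1 + 1 / η)) = ε := by
    rw [← hδe]
    field_simp
  refine ⟨δ, hδ, fun u u' a a' b c => ?_⟩
  have h1 := DynCt_wsq hw hw2 (hT u a) (hT _ (DynCt_hsub a a')) hη
  simp only [← hl u u' a a'] at h1
  have h2 : ∫ y, T u y ^ 2 ≤ |K| + 1 := by linarith [hb u a, le_abs_self K]
  have h3 : ∫ y, T (u' - u) y ^ 2 ≤ δ := (hb _ (DynCt_hsub a a')).trans c
  have h4 := mul_le_mul_of_nonneg_left h2 (show 0 ≤ 2 * η by positivity)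
  have h5 := mul_le_mul_of_nonneg_left h3 (show 0 ≤ 2 * (1 + 1 / η) by positivity)
  show |(∫ y, w y * (T u' y * T u' y)) - ∫ y, w y * (T u y * T u y)| ≤ ε
  linarith

theorem DynCt_abs_Om (y : R3) : |Om y| ≤ 2 := by
  rw [abs_of_pos (Om_pos y)]
  exact Om_le y

theorem DynCt_nw (K : ℝ) : DynCt_Ct K fun u => nw Om (curl u) := by
  refine DynCt_congr (DynCt_sum Finset.univ fun i _ => DynCt_quad K Om_smooth.continuous DynCt_abs_Om
    (fun u => curl u i) (fun u a => hinf_curl a i) (fun u u' a a' y => ?_)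
    fun u a => zz_d a i) fun u a => ?_
  · rw [curl_sub (fun i => (a' i).1) fun i => (a i).1]
    simp only [Pi.sub_apply]
    ring
  · unfold nw dot
    rw [← integral_finsetSum _ fun i _ =>
      int_wmul Om_smooth.continuous DynCt_abs_Om (hinf_curl a i) (hinf_curl a i)]
    simp only [Finset.mul_sum]

theorem DynCt_gw (K : ℝ) : DynCt_Ct K fun u => gw 1 (curl u) := by
  refine DynCt_congr (DynCt_sum Finset.univ fun i _ => DynCt_sum Finset.univ fun j _ =>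
    DynCt_quad K (w := fun _ => 1) continuous_const (fun _ => by norm_num)
    (fun u => pd j (curl u i)) (fun u a => (hinf_curl a i).pd j) (fun u u' a a' y => ?_)
    fun u a => zz_pd_d a i j) fun u a => ?_
  · rw [curl_sub (fun i => (a' i).1) fun i => (a i).1]
    have : (curl u' - curl u) i = fun y => curl u' i y - curl u i y := rfl
    rw [this, pd_sub (hinf_curl a' i).1 (hinf_curl a i).1]
    ring
  · rw [gw_one (hinf_curl a)]
    simp only [one_mul, sq]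

theorem sym_lc {m : ℝ} {ι : Type} [Fintype ι] (c : ι → ℝ) {θ : ι → Vc}
    (h : ∀ a i, Sym m (θ a i)) (i : Fin 3) : Sym m (lc c θ i) := by
  refine ⟨ContDiff.sum fun a _ => contDiff_const.mul (h a i).1, fun l => ?_⟩
  choose C hC using fun a => (h a i).2 l
  refine ⟨∑ a, |c a| * C a, fun y => ?_⟩
  have e : pds l (lc c θ i) = fun y => ∑ a, pds l (fun y => c a * θ a i y) y :=
    pds_sum Finset.univ (fun a _ => contDiff_const.mul (h a i).1) l
  rw [e, Finset.sum_mul]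
  refine (Finset.abs_sum_le_sum_abs _ _).trans (Finset.sum_le_sum fun a _ => ?_)
  rw [pds_cmul (h a i).1, abs_mul, mul_assoc]
  exact mul_le_mul_of_nonneg_left (hC a y) (abs_nonneg _)

theorem good_F {L : Lyap} (hL : L.Good) (a : Fin L.r) (i : Fin 3) : Sym (-3) (L.θF a i) :=
  sym_lc _ hL.1 i

theorem good_Z {L : Lyap} (hL : L.Good) (a : Fin 2) (i : Fin 3) : Sym (-3) (L.θZ a i) :=
  sym_lc _ hL.1 i

theorem ip_lc {ι : Type} [Fintype ι] (c : ι → ℝ) {θ : ι → Vc} {v : Vc} (hv : ∀ i, Hinf (v i))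
    (h : ∀ a i, Hinf (θ a i)) : ip v (lc c θ) = ∑ a, c a * ip v (θ a) := by
  have hi : ∀ a, Integrable (dot v (θ a)) := fun a =>
    integrable_finsetSum Finset.univ fun i _ => int_mul (hv i) (h a i)
  simp only [ip, ← integral_const_mul]
  rw [← integral_finsetSum _ fun a _ => (hi a).const_mul _]
  refine integral_congr_ae (.of_forall fun y => ?_)
  simp only [dot, lc, Finset.mul_sum]
  rw [Finset.sum_comm]
  exact Finset.sum_congr rfl fun a _ => Finset.sum_congr rfl fun i _ => mul_left_comm _ _ _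

theorem DynCt_F {L : Lyap} (hL : L.Good) {v : Vc} (hv : ∀ i, Hinf (v i)) (a : Fin L.r) :
    ip v (L.θF a) = ∑ b, L.F a b * ip v (L.θ b) :=
  ip_lc _ hv fun b i => (hL.1 b i).hinf (by norm_num)

theorem DynCt_mommul (K : ℝ) {θ η : Vc} (hθ : ∀ i, Sym (-3) (θ i)) (hη : ∀ i, Sym (-3) (η i)) :
    DynCt_Ct K fun u => mom θ u * mom η u := by
  have h := fun c : ℝ => DynCt_momsq K (sym_lc ![1, c] (θ := ![θ, η]) fun a => by
    fin_cases a
    exacts [hθ, hη])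
  refine DynCt_congr (DynCt_add (DynCt_cmul (h 1) (1 / 4)) (DynCt_cmul (h (-1)) (-1 / 4)))
    fun u hu => ?_
  have e := fun c : Fin 2 → ℝ => ip_lc c (θ := ![θ, η]) (hinf_curl hu) fun a i => by
    fin_cases a
    exacts [(hθ i).hinf (by norm_num), (hη i).hinf (by norm_num)]
  simp only [mom, e, Fin.sum_univ_two, Matrix.cons_val_zero, Matrix.cons_val_one]
  ring

theorem DynCt_zz {L : Lyap} (hL : L.Good) (K : ℝ) : DynCt_Ct K L.zz :=
  DynCt_sum Finset.univ fun i _ => DynCt_momsq K (good_Z hL i)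

theorem DynCt_E {L : Lyap} (hL : L.Good) (K : ℝ) : DynCt_Ct K L.E := by
  have hy : DynCt_Ct K fun u => ∑ a, mom (L.θF a) u * mom (L.θ a) u :=
    DynCt_sum Finset.univ fun a _ => DynCt_mommul K (good_F hL a) (hL.1 a)
  refine DynCt_congr (DynCt_add (DynCt_add (DynCt_nw K) hy) (DynCt_cmul (DynCt_gw K) L.κ))
    fun u _ => ?_
  unfold Lyap.E Lyap.X Lyap.X1 Lyap.Xv Lyap.zz mom
  ring

theorem DynCt_X {L : Lyap} (hL : L.Good) (K : ℝ) : DynCt_Ct K L.X :=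
  DynCt_congr (DynCt_add (DynCt_E hL K) (DynCt_cmul (DynCt_zz hL K) 2)) fun u _ => by
    unfold Lyap.E
    ring

theorem E_cont (L : Lyap) (hL : L.Good) (K : ℝ) {ε : ℝ} (hε : 0 < ε) : ∃ δ > 0,
    ∀ u u' : Vc, (∀ i, Hinf (u i)) → (∀ i, Hinf (u' i)) → ZZ u ≤ K → ZZ (u' - u) ≤ δ →
      |L.E u' - L.E u| ≤ ε := DynCt_E hL K ε hε

theorem ZZ_bdd {S : ℝ} {V : ℝ → Vc} (h : ∀ i, ∀ s ∈ Icc 0 S, Hinf (V s i))
    {K : ℝ} (hK : ∀ s ∈ Icc 0 S, Bd K (V s)) : ∃ K', ∀ s ∈ Icc 0 S, ZZ (V s) ≤ K' := by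
  refine ⟨48 * K, fun s hs => ?_⟩
  have hV : ∀ i, Hinf (V s i) := fun i => h i s hs
  have h1 : ∀ i : Fin 3, ∫ y, curl (V s) i y ^ 2 ≤ 4 * K := by
    intro i
    have a0 := DynCt_sub_sq ((hV (i + 2)).pd (i + 1)) ((hV (i + 1)).pd (i + 2))
    have a1 : ∫ y, pd (i + 1) (V s (i + 2)) y ^ 2 ≤ K := (hK s hs [i + 1] (by simp) (i + 2)).1
    have a2 : ∫ y, pd (i + 2) (V s (i + 1)) y ^ 2 ≤ K := (hK s hs [i + 2] (by simp) (i + 1)).1
    unfold curl
    linarith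
  have h2 : ∀ i j : Fin 3, ∫ y, pd j (curl (V s) i) y ^ 2 ≤ 4 * K := by
    intro i j
    rw [pd_curl fun i => (hV i).1]
    have a0 := DynCt_sub_sq (((hV (i + 2)).pd j).pd (i + 1)) (((hV (i + 1)).pd j).pd (i + 2))
    have a1 : ∫ y, pd (i + 1) (pd j (V s (i + 2))) y ^ 2 ≤ K :=
      (hK s hs [i + 1, j] (by simp) (i + 2)).1
    have a2 : ∫ y, pd (i + 2) (pd j (V s (i + 1))) y ^ 2 ≤ K :=
      (hK s hs [i + 2, j] (by simp) (i + 1)).1
    unfold curl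
    linarith
  unfold ZZ
  rw [nw_one (hinf_curl hV), gw_one (hinf_curl hV)]
  simp only [Fin.sum_univ_three]
  linarith [h1 0, h1 1, h1 2, h2 0 0, h2 0 1, h2 0 2, h2 1 0, h2 1 1, h2 1 2, h2 2 0, h2 2 1,
    h2 2 2]

theorem DynCt_pl (φ : Fin 2 → Vc) (a : Fin 2 → ℝ) (i : Fin 3) :
    pl φ a i = fun y => a 0 * φ 0 i y + a 1 * φ 1 i y := by
  funext y
  simp only [pl, Fin.sum_univ_two]

theorem DynCt_pd_comb {f g : Sc} (hf : ContDiff ℝ ∞ f) (hg : ContDiff ℝ ∞ g) (a b : ℝ) (j : Fin 3) :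
    pd j (fun y => a * f y + b * g y) = fun y => a * pd j f y + b * pd j g y := by
  rw [pd_add (contDiff_const.mul hf) (contDiff_const.mul hg), pd_cmul hf, pd_cmul hg]

theorem DynCt_curl_pl {φ : Fin 2 → Vc} (hφ : ∀ k i, ContDiff ℝ ∞ (φ k i)) (a : Fin 2 → ℝ)
    (i : Fin 3) : curl (pl φ a) i = fun y => a 0 * curl (φ 0) i y + a 1 * curl (φ 1) i y := by
  funext y
  unfold curl
  rw [DynCt_pl, DynCt_pl, DynCt_pd_comb (hφ _ _) (hφ _ _), DynCt_pd_comb (hφ _ _) (hφ _ _)]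
  ring

theorem ZZ_pl {φ : Fin 2 → Vc} (hφ : ∀ k i, Hinf (φ k i)) :
    ∃ C > 0, ∀ a : Fin 2 → ℝ, ZZ (pl φ a) ≤ C * ∑ k, a k ^ 2 := by
  have z0 := ZZ_nonneg (φ 0)
  have z1 := ZZ_nonneg (φ 1)
  refine ⟨2 * ZZ (φ 0) + 2 * ZZ (φ 1) + 1, by positivity, fun a => ?_⟩
  have hs : ∀ k i, ContDiff ℝ ∞ (φ k i) := fun k i => (hφ k i).1
  have hp : ∀ i, Hinf (pl φ a i) := fun i => by
    rw [DynCt_pl]
    exact hinf_add (hinf_cmul (hφ 0 i) _) (hinf_cmul (hφ 1 i) _)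
  have h1 : ∀ i : Fin 3, ∫ y, curl (pl φ a) i y ^ 2 ≤ 2 * a 0 ^ 2 * (∫ y, curl (φ 0) i y ^ 2)
      + 2 * a 1 ^ 2 * ∫ y, curl (φ 1) i y ^ 2 := by
    intro i
    rw [DynCt_curl_pl hs]
    exact DynCt_comb (hinf_curl (hφ 0) i) (hinf_curl (hφ 1) i) _ _
  have h2 : ∀ i j : Fin 3, ∫ y, pd j (curl (pl φ a) i) y ^ 2 ≤
      2 * a 0 ^ 2 * (∫ y, pd j (curl (φ 0) i) y ^ 2)
      + 2 * a 1 ^ 2 * ∫ y, pd j (curl (φ 1) i) y ^ 2 := by
    intro i j
    rw [DynCt_curl_pl hs, DynCt_pd_comb (hinf_curl (hφ 0) i).1 (hinf_curl (hφ 1) i).1]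
    exact DynCt_comb ((hinf_curl (hφ 0) i).pd j) ((hinf_curl (hφ 1) i).pd j) _ _
  have h3 : ZZ (pl φ a) ≤ 2 * a 0 ^ 2 * ZZ (φ 0) + 2 * a 1 ^ 2 * ZZ (φ 1) := by
    unfold ZZ
    rw [nw_one (hinf_curl hp), gw_one (hinf_curl hp), nw_one (hinf_curl (hφ 0)),
      gw_one (hinf_curl (hφ 0)), nw_one (hinf_curl (hφ 1)), gw_one (hinf_curl (hφ 1))]
    simp only [Fin.sum_univ_three]
    linarith [h1 0, h1 1, h1 2, h2 0 0, h2 0 1, h2 0 2, h2 1 0, h2 1 1, h2 1 2, h2 2 0, h2 2 1,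
      h2 2 2]
  rw [Fin.sum_univ_two]
  nlinarith [sq_nonneg (a 0), sq_nonneg (a 1), mul_nonneg (sq_nonneg (a 0)) z1,
    mul_nonneg (sq_nonneg (a 1)) z0]

theorem bg_add_pl {B : Vc} (hB : Bg B) {φ : Fin 2 → Vc} (hφ : ∀ k, Bg (φ k)) (a : Fin 2 → ℝ) :
    Bg (B + pl φ a) := by
  have hs : ∀ i, ContDiff ℝ ∞ (pl φ a i) := fun i => by
    rw [DynCt_pl]
    exact (contDiff_const.mul ((hφ 0).smooth i)).add (contDiff_const.mul ((hφ 1).smooth i))
  have he : ∀ M, EqM M B → EqM M (φ 0) → EqM M (φ 1) → EqM M (B + pl φ a) := by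
    intro M h0 h1 h2 y i
    simp only [Pi.add_apply, DynCt_pl]
    rw [h0 y i, h1 y i, h2 y i]
    simp only [Fin.sum_univ_three]
    ring
  refine ⟨fun i => (hB.smooth i).add (hs i), fun i => ?_, fun y => ?_,
    fun θ => he _ (hB.eqv.1 θ) ((hφ 0).eqv.1 θ) ((hφ 1).eqv.1 θ),
    he _ hB.eqv.2 (hφ 0).eqv.2 (hφ 1).eqv.2⟩
  · refine (hB.supp i).add ?_
    rw [DynCt_pl]
    exact (((hφ 0).supp i).mul_left (f := fun _ => a 0)).add
      (((hφ 1).supp i).mul_left (f := fun _ => a 1))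
  · rw [dvg_add hB.smooth hs, hB.dv, zero_add]
    have b0 := (hφ 0).dv y
    have b1 := (hφ 1).dv y
    unfold dvg at b0 b1 ⊢
    simp only [DynCt_pl, DynCt_pd_comb ((hφ 0).smooth _) ((hφ 1).smooth _)]
    rw [Finset.sum_add_distrib, ← Finset.mul_sum, ← Finset.mul_sum, b0, b1]
    ring

theorem eqv_sub {U V : Vc} (hU : Eqv U) (hV : Eqv V) : Eqv (U - V) := by
  have he : ∀ M, EqM M U → EqM M V → EqM M (U - V) := by
    intro M h0 h1 y i
    simp only [Pi.sub_apply]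
    rw [h0 y i, h1 y i]
    simp only [Fin.sum_univ_three]
    ring
  exact ⟨fun θ => he _ (hU.1 θ) (hV.1 θ), he _ hU.2 hV.2⟩

theorem mom_neg (θ u : Vc) : mom θ (-u) = -mom θ u := by
  unfold mom ip dot
  rw [curl_neg, ← integral_neg]
  simp only [Pi.neg_apply, neg_mul, Finset.sum_neg_distrib]

theorem zz_nonneg (L : Lyap) (u : Vc) : 0 ≤ L.zz u := by
  unfold Lyap.zz Lyap.zv
  positivity

theorem zz_le_X {L : Lyap} (hL : L.Good) {cl cz ch cb : ℝ} (hco : L.Coer cl cz ch cb)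
    (hcl : 0 ≤ cl) (hcz : 0 ≤ cz) {u : Vc} (hu : ∀ i, Hinf (u i)) :
    0 ≤ L.X u ∧ cz * L.zz u ≤ L.X u ∧ cl * nw Om (curl u) ≤ L.X u ∧
      L.κ * gw 1 (curl u) ≤ L.X u := by
  have h1 := mul_nonneg hcz (zz_nonneg L u)
  have h2 : cl * nw Om (curl u) + cz * L.zz u ≤ L.X1 u := hco.lo _ (hinf_curl hu)
  have h3 : 0 ≤ nw Om (curl u) := integral_nonneg fun y =>
    mul_nonneg (Om_pos y).le (Finset.sum_nonneg fun i _ => mul_self_nonneg _)
  have h4 : 0 ≤ gw 1 (curl u) := integral_nonneg fun y =>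
    mul_nonneg zero_le_one (Finset.sum_nonneg fun i _ => Finset.sum_nonneg fun j _ => sq_nonneg _)
  have h5 := mul_nonneg hL.2.2.le h4
  have h6 := mul_nonneg hcl h3
  unfold Lyap.X
  exact ⟨by linarith, by linarith, by linarith, by linarith⟩

theorem nw_lower {B : Vc} (hB : Bg B) : ∃ C, ∀ V : Vc, (∀ i, Hinf (V i)) → ∀ η : ℝ,
    (∀ i y, |curl V i y| ≤ η) → nw Om (curl B) - C * η ≤ nw Om (curl (V - B)) := by
  have hB' : ∀ i, Hinf (B i) := fun i => hinf_of_supp (hB.smooth i) (hB.supp i)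
  have hc : ∀ i, Integrable (curl B i) := fun i =>
    (curl_smooth hB.smooth i).continuous.integrable_of_hasCompactSupport
      (((hB.supp (i + 2)).fderiv_apply ℝ _).sub ((hB.supp (i + 1)).fderiv_apply ℝ _))
  have hI : Integrable fun y => 4 * ∑ i, |curl B i y| :=
    (integrable_finsetSum _ fun i _ => (hc i).abs).const_mul 4
  have hN : ∀ W : Vc, (∀ i, Hinf (W i)) → Integrable fun y => Om y * dot W W y := by
    intro W hW
    unfold dot
    simp only [Finset.mul_sum]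
    exact integrable_finsetSum _ fun i _ =>
      int_wmul Om_smooth.continuous DynCt_abs_Om (hW i) (hW i)
  refine ⟨∫ y, 4 * ∑ i, |curl B i y|, fun V hV η hη => ?_⟩
  have hη0 : 0 ≤ η := (abs_nonneg _).trans (hη 0 0)
  unfold nw
  rw [← integral_mul_const, ← integral_sub (hN _ (hinf_curl hB')) (hI.mul_const η)]
  refine integral_mono ((hN _ (hinf_curl hB')).sub (hI.mul_const η))
    (hN _ (hinf_curl (DynCt_hsub hB' hV))) fun y => ?_
  rw [curl_sub (fun i => (hV i).1) hB.smooth]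
  have key : ∀ i, Om y * (curl B i y * curl B i y) - 4 * |curl B i y| * η ≤
      Om y * ((curl V i y - curl B i y) * (curl V i y - curl B i y)) := by
    intro i
    have a1 : curl V i y * curl B i y ≤ η * |curl B i y| :=
      (le_abs_self _).trans (by
        rw [abs_mul]
        exact mul_le_mul_of_nonneg_right (hη i y) (abs_nonneg _))
    have a2 : 0 ≤ η * |curl B i y| := mul_nonneg hη0 (abs_nonneg _)
    have a3 := mul_le_mul_of_nonneg_left a1 (Om_pos y).le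
    have a4 := mul_le_mul_of_nonneg_right (Om_le y) a2
    have a5 := mul_nonneg (Om_pos y).le (mul_self_nonneg (curl V i y))
    nlinarith
  show Om y * dot (curl B) (curl B) y - (4 * ∑ i, |curl B i y|) * η ≤
    Om y * dot (curl V - curl B) (curl V - curl B) y
  unfold dot
  simp only [Fin.sum_univ_three, Pi.sub_apply]
  linarith [key 0, key 1, key 2]

end Pool.Agent.Work.MP_6bf1e5_an.H.Dyn
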