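import Pool.Agent.Work.MP_6bf1e5_an.H.SkFour

/-!
Definitions for the dynamical part (owner helper89).
-/

open scoped ContDiff ENNReal FourierTransform Real
open Set MeasureTheory

namespace Pool.Agent.Work.MP_6bf1e5_an.H.Dyn

noncomputable section

/-- Joint smoothness on the slab `ℝ³ × [0, S]`. -/
def JS (S : ℝ) (f : ℝ → Sc) : Prop :=
  ContDiffOn ℝ ∞ (fun z : R3 × ℝ => f z.2 z.1) (univ ×ˢ Icc 0 S)

/-- Uniform bounds of all Sobolev norms on `[0, S]`. -/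
def UB (S : ℝ) (f : ℝ → Sc) : Prop :=
  (∀ s ∈ Icc 0 S, Hinf (f s)) ∧ ∀ l, ∃ C, ∀ s ∈ Icc 0 S, ∫ y, pds l (f s) y ^ 2 ≤ C

/-- Uniform bound of the `L¹` norm on `[0, S]`. -/
def L1B (S : ℝ) (h : ℝ → Sc) : Prop :=
  ∃ C, ∀ s ∈ Icc 0 S, Integrable (h s) ∧ ∫ y, |h s y| ≤ C

/-- `q` is the derivative of `Q` on `[0, S]` in integrated form. -/
def IDer (S : ℝ) (Q q : ℝ → ℝ) : Prop :=
  IntervalIntegrable q volume 0 S ∧ ∀ s ∈ Icc 0 S, Q s = Q 0 + ∫ σ in (0 : ℝ)..s, q σ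

/-- A solution of `f_s = -a f - (2/3) y·∇ f + G`. -/
structure Evo (S a : ℝ) (f G : ℝ → Sc) : Prop where
  js : JS S f
  ub : UB S f
  ubG : UB S G
  eq : ∀ s ∈ Ioo 0 S, ∀ y,
    HasDerivAt (fun σ => f σ y) (-(a * f s y) - 2 / 3 * yd (f s) y + G s y) s

/-- The same for vector fields, with `a = 1`. -/
def EvoV (S : ℝ) (f G : ℝ → Vc) : Prop := ∀ i, Evo S 1 (fun s => f s i) fun s => G s i

/-- A solution in the physical variables. -/
structure PSol (ν T : ℝ) (u : ℝ → Vc) (p : ℝ → Sc) : Prop where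
  js : ∀ i, JS T fun t => u t i
  sp : ∀ t ∈ Icc 0 T, ContDiff ℝ ∞ (p t)
  ub : ∀ i, UB T fun t => u t i
  dv : ∀ t ∈ Icc 0 T, ∀ y, dvg (u t) y = 0
  eq : ∀ t ∈ Ioo 0 T, ∀ i y, HasDerivAt (fun τ => u τ i y)
    (-(∑ j, u t j y * pd j (u t i) y) - pd i (p t) y - ν * Lam (u t i) y) t

/-- The right-hand side of the vorticity equation. -/
def GG (ν : ℝ) (V : Vc) : Vc := fun i y =>
  curl (cross V (curl V)) i y - ν * Lam (curl V i) y

/-- A solution of the vorticity equation in the self-similar variables. -/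
structure RSol (ν S : ℝ) (V : ℝ → Vc) : Prop where
  js : ∀ i, JS S fun s => V s i
  ub : ∀ i, UB S fun s => V s i
  dv : ∀ s ∈ Icc 0 S, ∀ y, dvg (V s) y = 0
  eq : ∀ s ∈ Ioo 0 S, ∀ i y, HasDerivAt (fun σ => curl (V σ) i y)
    (-curl (V s) i y - 2 / 3 * yd (curl (V s) i) y + GG ν (V s) i y) s

/-- The passage to the self-similar variables. -/
def resc (u : ℝ → Vc) : ℝ → Vc := fun s i y =>
  Real.exp (-(s / 3)) * u (1 - Real.exp (-s)) i (Real.exp (-(2 / 3 * s)) • y)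

/-- The rotated field `Mᵀ V (M y)`. -/
def rot (M : Matrix (Fin 3) (Fin 3) ℝ) (V : Vc) : Vc := fun i y => ∑ j, M j i * V j (act M y)

/-- The square of the `H¹` norm of the vorticity. -/
def ZZ (δ : Vc) : ℝ := nw 1 (curl δ) + gw 1 (curl δ)

/-- The rate of change of `nw 1 d + gw 1 d`. -/
def dZZ (G d : Vc) : ℝ :=
  2 * ip G d + 2 * (-(2 / 3 * gw 1 d) + ∫ y, ∑ i, ∑ j, pd j (G i) y * pd j (d i) y)

/-- The dissipation at the level of `H¹`. -/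
def YY (d : Vc) : ℝ := ∑ i, ∫ y, Dp (7 / 4) (d i) y ^ 2

/-- Bounds for three derivatives. -/
def Bd (K : ℝ) (V : Vc) : Prop :=
  ∀ l : List (Fin 3), l.length ≤ 3 → ∀ i,
    ∫ y, pds l (V i) y ^ 2 ≤ K ∧ ∀ y, |pds l (V i) y| ≤ K

/-- The disc of parameters. -/
def disc (ϱ : ℝ) : Set (Fin 2 → ℝ) := {a | ∑ k, a k ^ 2 ≤ ϱ ^ 2}

end

end Pool.Agent.Work.MP_6bf1e5_an.H.Dyn
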