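import Pool.Agent.Work.MP_6bf1e5_an.H.DynHinf

/-!
Uniformly bounded families.
Hints. (a + b) ^ 2 ≤ 2 a ^ 2 + 2 b ^ 2 and integral_mono with int_sq. sup: sup_sq_le for pds l f, with
pd j (pds l f) = pds (j :: l) f. mul, act: induction on the list from the right (List.reverseRecOn) for all
pairs of families at once, pds_append, pd_mul, pds_add. lam: pds_lam and lam_sq_le. resc: pds_cmul, pds_scale,
int_scale; the continuous factor is bounded on the compact interval. bd: List.finite_length_le.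
-/

open scoped ContDiff ENNReal FourierTransform Real
open Set MeasureTheory

namespace Pool.Agent.Work.MP_6bf1e5_an.H.Dyn

variable {S : ℝ} {f g : ℝ → Sc}

/-- Uniform bound of one derivative. -/
def DynUB_B (l : List (Fin 3)) (S : ℝ) (f : ℝ → Sc) : Prop :=
  ∃ C, ∀ s ∈ Icc 0 S, ∫ y, pds l (f s) y ^ 2 ≤ C

theorem DynUB_sq_add {a b : Sc} (ha : Hinf a) (hb : Hinf b) :
    ∫ y, (a y + b y) ^ 2 ≤ 2 * (∫ y, a y ^ 2) + 2 * ∫ y, b y ^ 2 := by
  have h1 := int_sq ha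
  have h2 := int_sq hb
  have h3 := int_sq (hinf_add ha hb)
  rw [← integral_const_mul, ← integral_const_mul,
    ← integral_add (h1.const_mul 2) (h2.const_mul 2)]
  refine integral_mono h3 ((h1.const_mul 2).add (h2.const_mul 2)) fun y => ?_
  have := sq_nonneg (a y - b y)
  simp only
  nlinarith

theorem DynUB_B_add {l : List (Fin 3)} (hf : ∀ s ∈ Icc 0 S, Hinf (f s))
    (hg : ∀ s ∈ Icc 0 S, Hinf (g s)) (h : DynUB_B l S f) (h' : DynUB_B l S g) :
    DynUB_B l S fun s y => f s y + g s y := by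
  obtain ⟨C, hC⟩ := h
  obtain ⟨D, hD⟩ := h'
  refine ⟨2 * C + 2 * D, fun s hs => ?_⟩
  rw [pds_add (hf s hs).1 (hg s hs).1]
  have := DynUB_sq_add (hinf_pds (hf s hs) l) (hinf_pds (hg s hs) l)
  have h1 := hC s hs
  have h2 := hD s hs
  simp only
  linarith

theorem DynUB_B_cmul {l : List (Fin 3)} (hf : ∀ s ∈ Icc 0 S, Hinf (f s))
    (h : DynUB_B l S f) (c : ℝ) : DynUB_B l S fun s y => c * f s y := by
  obtain ⟨C, hC⟩ := h
  refine ⟨c ^ 2 * C, fun s hs => ?_⟩
  rw [pds_cmul (hf s hs).1]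
  simp only [mul_pow]
  rw [integral_const_mul]
  exact mul_le_mul_of_nonneg_left (hC s hs) (sq_nonneg c)

theorem DynUB_B_congr {l : List (Fin 3)} (h : DynUB_B l S f) (hg : ∀ s ∈ Icc 0 S, f s = g s) :
    DynUB_B l S g := by
  obtain ⟨C, hC⟩ := h
  exact ⟨C, fun s hs => hg s hs ▸ hC s hs⟩

theorem DynUB_B_pd {l : List (Fin 3)} {j : Fin 3} {w : ℝ → Sc}
    (hw : ∀ s ∈ Icc 0 S, pd j (f s) = w s) (h : DynUB_B l S w) : DynUB_B (l ++ [j]) S f := by
  obtain ⟨C, hC⟩ := h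
  refine ⟨C, fun s hs => ?_⟩
  rw [pds_append, hw s hs]
  exact hC s hs

theorem UB.const {w : Sc} (hw : Hinf w) : UB S fun _ => w :=
  ⟨fun _ _ => hw, fun _ => ⟨_, fun _ _ => le_rfl⟩⟩

theorem UB.congr (h : UB S f) (hg : ∀ s ∈ Icc 0 S, f s = g s) : UB S g :=
  ⟨fun s hs => hg s hs ▸ h.1 s hs, fun l => DynUB_B_congr (h.2 l) hg⟩

theorem UB.add (h : UB S f) (h' : UB S g) : UB S fun s y => f s y + g s y :=
  ⟨fun s hs => hinf_add (h.1 s hs) (h'.1 s hs), fun l => DynUB_B_add h.1 h'.1 (h.2 l) (h'.2 l)⟩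

theorem UB.cmul (h : UB S f) (c : ℝ) : UB S fun s y => c * f s y :=
  ⟨fun s hs => hinf_cmul (h.1 s hs) c, fun l => DynUB_B_cmul h.1 (h.2 l) c⟩

theorem UB.sub (h : UB S f) (h' : UB S g) : UB S fun s y => f s y - g s y :=
  (h.add (h'.cmul (-1))).congr fun s _ => by
    funext y
    ring

theorem UB.sum {ι : Type} (t : Finset ι) {F : ι → ℝ → Sc} (h : ∀ i ∈ t, UB S (F i)) :
    UB S fun s y => ∑ i ∈ t, F i s y := by
  classical
  induction t using Finset.induction_on with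
  | empty =>
    have h0 : Hinf fun y : R3 => ∑ i ∈ (∅ : Finset ι), F i 0 y := hinf_sum ∅ (by simp)
    exact (UB.const h0).congr fun s _ => by simp
  | insert a t ha ih =>
    have h1 := h a (Finset.mem_insert_self a t)
    have h2 := ih fun i hi => h i (Finset.mem_insert_of_mem hi)
    exact (h1.add h2).congr fun s _ => by
      funext y
      rw [Finset.sum_insert ha]

theorem UB.pd (h : UB S f) (j : Fin 3) : UB S fun s => pd j (f s) :=
  ⟨fun s hs => (h.1 s hs).pd j, fun l => by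
    obtain ⟨C, hC⟩ := h.2 (l ++ [j])
    exact ⟨C, fun s hs => by rw [← pds_append]; exact hC s hs⟩⟩

theorem UB.sup (h : UB S f) (l : List (Fin 3)) :
    ∃ C, ∀ s ∈ Icc 0 S, ∀ y, |pds l (f s) y| ≤ C := by
  choose C hC using h.2
  refine ⟨1 + 2 / 19 * ((∑ j, C (j :: l)) + 3 * ∑ j, C (j :: j :: l)), fun s hs y => ?_⟩
  have h1 := sup_sq_le (hinf_pds (h.1 s hs) l) y
  have h2 : ∑ j, ∫ z, H.pd j (pds l (f s)) z ^ 2 ≤ ∑ j, C (j :: l) :=
    Finset.sum_le_sum fun j _ => hC (j :: l) s hs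
  have h3 : ∑ j, ∫ z, H.pd j (H.pd j (pds l (f s))) z ^ 2 ≤ ∑ j, C (j :: j :: l) :=
    Finset.sum_le_sum fun j _ => hC (j :: j :: l) s hs
  have h4 : |pds l (f s) y| ≤ 1 + pds l (f s) y ^ 2 := by
    rw [← sq_abs]
    nlinarith [sq_nonneg (|pds l (f s) y| - 1)]
  linarith

theorem DynUB_mul (l : List (Fin 3)) : ∀ {f g : ℝ → Sc}, UB S f → UB S g →
    DynUB_B l S fun s y => f s y * g s y := by
  induction l using List.reverseRecOn with
  | nil =>
    intro f g h h'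
    obtain ⟨C, hC⟩ := h.sup []
    obtain ⟨D, hD⟩ := h'.2 []
    refine ⟨C ^ 2 * D, fun s hs => ?_⟩
    have h1 : ∫ y, (f s y * g s y) ^ 2 ≤ ∫ y, C ^ 2 * g s y ^ 2 := by
      refine integral_mono (int_sq (hinf_mul (h.1 s hs) (h'.1 s hs)))
        ((int_sq (h'.1 s hs)).const_mul _) fun y => ?_
      have h2 : f s y ^ 2 ≤ C ^ 2 := by
        rw [← sq_abs]
        exact pow_le_pow_left₀ (abs_nonneg _) (hC s hs y) 2
      simp only [mul_pow]
      exact mul_le_mul_of_nonneg_right h2 (sq_nonneg _)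
    rw [integral_const_mul] at h1
    exact h1.trans (mul_le_mul_of_nonneg_left (hD s hs) (sq_nonneg C))
  | append_singleton l j ih =>
    intro f g h h'
    refine DynUB_B_pd (fun s hs => pd_mul (h.1 s hs).1 (h'.1 s hs).1 j) ?_
    exact DynUB_B_add (f := fun s y => pd j (f s) y * g s y) (g := fun s y => f s y * pd j (g s) y)
      (fun s hs => hinf_mul ((h.1 s hs).pd j) (h'.1 s hs))
      (fun s hs => hinf_mul (h.1 s hs) ((h'.1 s hs).pd j))
      (ih (h.pd j) h') (ih h (h'.pd j))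

theorem UB.mul (h : UB S f) (h' : UB S g) : UB S fun s y => f s y * g s y :=
  ⟨fun s hs => hinf_mul (h.1 s hs) (h'.1 s hs), fun l => DynUB_mul l h h'⟩

theorem UB.lam (h : UB S f) : UB S fun s => Lam (f s) := by
  refine ⟨fun s hs => hinf_lam (h.1 s hs), fun l => ?_⟩
  choose C hC using h.2
  refine ⟨C l + 3 * ∑ j, C (j :: j :: l), fun s hs => ?_⟩
  rw [pds_lam (h.1 s hs)]
  have h1 := lam_sq_le (hinf_pds (h.1 s hs) l)
  have h3 : ∑ j, ∫ z, H.pd j (H.pd j (pds l (f s))) z ^ 2 ≤ ∑ j, C (j :: j :: l) :=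
    Finset.sum_le_sum fun j _ => hC (j :: j :: l) s hs
  have h2 := hC l s hs
  linarith

theorem UB.curl {V : ℝ → Vc} (h : ∀ i, UB S fun s => V s i) (i : Fin 3) :
    UB S fun s => curl (V s) i :=
  ((h (i + 2)).pd (i + 1)).sub ((h (i + 1)).pd (i + 2))

theorem UB.GG (ν : ℝ) {V : ℝ → Vc} (h : ∀ i, UB S fun s => V s i) (i : Fin 3) :
    UB S fun s => GG ν (V s) i := by
  have hc : ∀ k, UB S fun s => H.curl (V s) k := UB.curl h
  have hx : ∀ k, UB S fun s => cross (V s) (H.curl (V s)) k := fun k =>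
    ((h (k + 1)).mul (hc (k + 2))).sub ((h (k + 2)).mul (hc (k + 1)))
  exact (UB.curl (V := fun s => cross (V s) (H.curl (V s))) hx i).sub ((hc i).lam.cmul ν)

theorem DynUB_act {M : Matrix (Fin 3) (Fin 3) ℝ} (hM : M.transpose * M = 1) (l : List (Fin 3)) :
    ∀ {f : ℝ → Sc}, UB S f → DynUB_B l S fun s y => f s (act M y) := by
  induction l using List.reverseRecOn with
  | nil =>
    intro f h
    obtain ⟨C, hC⟩ := h.2 []
    refine ⟨C, fun s hs => ?_⟩
    have h1 := int_act hM fun y => f s y ^ 2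
    exact h1.le.trans (hC s hs)
  | append_singleton l j ih =>
    intro f h
    refine DynUB_B_pd (fun s hs => pd_act (h.1 s hs).1 M j) ?_
    have hH : ∀ k, ∀ s ∈ Icc 0 S, Hinf fun y => pd k (f s) (act M y) := fun k s hs =>
      hinf_act hM ((h.1 s hs).pd k)
    have hH' : ∀ k, ∀ s ∈ Icc 0 S, Hinf fun y => M k j * pd k (f s) (act M y) := fun k s hs =>
      hinf_cmul (hH k s hs) _
    have hB : ∀ k, DynUB_B l S fun s y => M k j * pd k (f s) (act M y) := fun k =>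
      DynUB_B_cmul (f := fun s y => pd k (f s) (act M y)) (hH k) (ih (h.pd k)) _
    have h01 := DynUB_B_add (hH' 0) (hH' 1) (hB 0) (hB 1)
    have h012 := DynUB_B_add (fun s hs => hinf_add (hH' 0 s hs) (hH' 1 s hs)) (hH' 2) h01 (hB 2)
    refine DynUB_B_congr h012 fun s _ => ?_
    funext y
    rw [Fin.sum_univ_three]

theorem UB.act (h : UB S f) {M : Matrix (Fin 3) (Fin 3) ℝ} (hM : M.transpose * M = 1) :
    UB S fun s y => f s (act M y) :=
  ⟨fun s hs => hinf_act hM (h.1 s hs), fun l => DynUB_act hM l h⟩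

theorem UB.resc {T : ℝ} (h : UB T f) {a c τ : ℝ → ℝ} (ha : Continuous a) (hc : Continuous c)
    (hc0 : ∀ s, 0 < c s) (hm : ∀ s ∈ Icc 0 S, τ s ∈ Icc 0 T) :
    UB S fun s y => a s * f (τ s) (c s • y) := by
  refine ⟨fun s hs => hinf_cmul (hinf_scale (h.1 _ (hm s hs)) (hc0 s)) _, fun l => ?_⟩
  obtain ⟨C, hC⟩ := h.2 l
  have hk : Continuous fun s => (a s * c s ^ l.length) ^ 2 * (c s ^ 3)⁻¹ * C :=
    (((ha.mul (hc.pow _)).pow 2).mul ((hc.pow 3).inv₀ fun s => (pow_pos (hc0 s) 3).ne')).mul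
      continuous_const
  obtain ⟨K, hK⟩ := (isCompact_Icc (a := (0 : ℝ)) (b := S)).bddAbove_image hk.continuousOn
  refine ⟨K, fun s hs => ?_⟩
  have hf := h.1 _ (hm s hs)
  rw [pds_cmul (hinf_scale hf (hc0 s)).1, pds_scale hf.1]
  have h1 : ∫ y, (a s * (c s ^ l.length * pds l (f (τ s)) (c s • y))) ^ 2
      = (a s * c s ^ l.length) ^ 2 * (c s ^ 3)⁻¹ * ∫ y, pds l (f (τ s)) y ^ 2 := by
    rw [mul_assoc, ← int_scale (fun y => pds l (f (τ s)) y ^ 2) (hc0 s), ← integral_const_mul]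
    congr 1
    funext y
    ring
  have h2 : 0 ≤ (a s * c s ^ l.length) ^ 2 * (c s ^ 3)⁻¹ :=
    mul_nonneg (sq_nonneg _) (inv_nonneg.2 (pow_pos (hc0 s) 3).le)
  exact h1.le.trans ((mul_le_mul_of_nonneg_left (hC _ (hm s hs)) h2).trans (hK ⟨s, hs, rfl⟩))

theorem UB.bd {V : ℝ → Vc} (h : ∀ i, UB S fun s => V s i) : ∃ K, ∀ s ∈ Icc 0 S, Bd K (V s) := by
  choose C hC using fun i => (h i).2
  choose D hD using fun i => (h i).sup
  have hfin : ((fun p : List (Fin 3) × Fin 3 => max (C p.2 p.1) (D p.2 p.1)) ''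
      ({l : List (Fin 3) | l.length ≤ 3} ×ˢ univ)).Finite :=
    ((List.finite_length_le (Fin 3) 3).prod finite_univ).image _
  obtain ⟨K, hK⟩ := hfin.bddAbove
  refine ⟨K, fun s hs l hl i => ?_⟩
  have h1 : max (C i l) (D i l) ≤ K := hK ⟨(l, i), ⟨hl, mem_univ _⟩, rfl⟩
  exact ⟨(hC i l s hs).trans ((le_max_left _ _).trans h1),
    fun y => (hD i l s hs y).trans ((le_max_right _ _).trans h1)⟩

theorem L1B.prod {w : Sc} (hw : Continuous w) {C : ℝ} (hC : ∀ y, |w y| ≤ C) (h : UB S f)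
    (h' : UB S g) : L1B S fun s y => w y * (f s y * g s y) := by
  obtain ⟨A, hA⟩ := h.2 []
  obtain ⟨B, hB⟩ := h'.2 []
  have hC0 : 0 ≤ C := (abs_nonneg _).trans (hC 0)
  refine ⟨C * A + C * B, fun s hs => ?_⟩
  have hi := int_wmul hw hC (h.1 s hs) (h'.1 s hs)
  refine ⟨hi, ?_⟩
  have h1 := int_sq (h.1 s hs)
  have h2 := int_sq (h'.1 s hs)
  have h3 : ∫ y, |w y * (f s y * g s y)| ≤ ∫ y, (C * f s y ^ 2 + C * g s y ^ 2) := by
    refine integral_mono hi.abs ((h1.const_mul C).add (h2.const_mul C)) fun y => ?_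
    have h4 : |f s y * g s y| ≤ f s y ^ 2 + g s y ^ 2 := by
      rw [abs_le]
      constructor
      · nlinarith [sq_nonneg (f s y + g s y), sq_nonneg (f s y), sq_nonneg (g s y)]
      · nlinarith [sq_nonneg (f s y - g s y), sq_nonneg (f s y), sq_nonneg (g s y)]
    simp only
    rw [abs_mul, ← mul_add]
    exact mul_le_mul (hC y) h4 (abs_nonneg _) hC0
  rw [integral_add (h1.const_mul C) (h2.const_mul C), integral_const_mul, integral_const_mul] at h3
  have h5 : C * ∫ y, f s y ^ 2 ≤ C * A := mul_le_mul_of_nonneg_left (hA s hs) hC0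
  have h6 : C * ∫ y, g s y ^ 2 ≤ C * B := mul_le_mul_of_nonneg_left (hB s hs) hC0
  linarith

theorem L1B.add (h : L1B S f) (h' : L1B S g) : L1B S fun s y => f s y + g s y := by
  obtain ⟨A, hA⟩ := h
  obtain ⟨B, hB⟩ := h'
  refine ⟨A + B, fun s hs => ?_⟩
  obtain ⟨h1, h2⟩ := hA s hs
  obtain ⟨h3, h4⟩ := hB s hs
  refine ⟨h1.add h3, ?_⟩
  have h5 : ∫ y, |f s y + g s y| ≤ ∫ y, (|f s y| + |g s y|) :=
    integral_mono (h1.add h3).abs (h1.abs.add h3.abs) fun y => abs_add_le _ _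
  rw [integral_add h1.abs h3.abs] at h5
  linarith

theorem L1B.sum {ι : Type} (t : Finset ι) {F : ι → ℝ → Sc} (h : ∀ i ∈ t, L1B S (F i)) :
    L1B S fun s y => ∑ i ∈ t, F i s y := by
  classical
  induction t using Finset.induction_on with
  | empty => exact ⟨0, fun s _ => by simp⟩
  | insert a t ha ih =>
    have h1 := h a (Finset.mem_insert_self a t)
    have h2 := ih fun i hi => h i (Finset.mem_insert_of_mem hi)
    simp only [Finset.sum_insert ha]
    exact h1.add h2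

theorem L1B.congr (h : L1B S f) (hg : ∀ s ∈ Icc 0 S, f s = g s) : L1B S g := by
  obtain ⟨C, hC⟩ := h
  exact ⟨C, fun s hs => hg s hs ▸ hC s hs⟩

end Pool.Agent.Work.MP_6bf1e5_an.H.Dyn
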