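import Pool.Agent.Work.MP_6bf1e5_an.H.DynTr
import Pool.Agent.Work.MP_6bf1e5_an.H.DynUB

/-!
The energy identities.
Hints. Evo.pd: JS.hasDerivAt_pd, pd_yd. Each identity is the lemma transport applied to h s = w * dot (f s) (f s),
dot (f s) θ, or the sum of the squares of pd j (f s i) (Evo.pd, a = 5/3); H is what remains of the time
derivative after -(2/3) yd h is removed (yd_mul, yd_sum, yd_Om); L1B.prod, L1B.add, L1B.sum (weights: constants,
Om, Om * (2 - Om); θ i and yd (θ i) are constant UB families by Sym.hinf, sym_yd); finish with IDer.congr and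
integral_add, integral_const_mul.
-/

open scoped ContDiff ENNReal FourierTransform Real
open Set MeasureTheory

namespace Pool.Agent.Work.MP_6bf1e5_an.H.Dyn

variable {S a : ℝ} {f G : ℝ → Vc}

theorem DynEn_pair {b : ℝ} {f G g K : ℝ → Sc} (h : Evo S a f G) (h' : Evo S b g K) (hS : 0 < S)
    {w v : Sc} (hw : ContDiff ℝ ∞ w) {C : ℝ} (hC : ∀ y, |w y| ≤ C) (hv : Continuous v) {D : ℝ}
    (hD : ∀ y, |v y| ≤ D) (hyd : ∀ y, 2 / 3 * yd w y + (2 - a - b) * w y = v y) :
    IDer S (fun s => ∫ y, w y * (f s y * g s y)) fun s => (∫ y, v y * (f s y * g s y)) +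
      ((∫ y, w y * (G s y * g s y)) + ∫ y, w y * (f s y * K s y)) := by
  have hwc := hw.continuous
  have hu : Continuous fun y => v y - 2 * w y := hv.sub (continuous_const.mul hwc)
  have hb : ∀ y, |v y - 2 * w y| ≤ D + 2 * C := fun y => by
    have h1 := abs_le.1 (hC y)
    have h2 := abs_le.1 (hD y)
    exact abs_le.2 ⟨by linarith [h1.1, h1.2, h2.1, h2.2], by linarith [h1.1, h1.2, h2.1, h2.2]⟩
  have key := transport (h := fun s y => w y * (f s y * g s y))
    (H := fun s y => (v y - 2 * w y) * (f s y * g s y) +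
      (w y * (G s y * g s y) + w y * (f s y * K s y))) hS
    ((JS.const hw).mul (h.js.mul h'.js))
    (fun s hs => int_wmul hwc hC (h.ub.1 s hs) (h'.ub.1 s hs))
    ((L1B.prod hu hb h.ub h'.ub).add ((L1B.prod hwc hC h.ubG h'.ub).add
      (L1B.prod hwc hC h.ub h'.ubG)))
    (fun s hs y => by
      have hs' : s ∈ Icc 0 S := Ioo_subset_Icc_self hs
      have hf := (h.ub.1 s hs').1
      have hg := (h'.ub.1 s hs').1
      have e1 := yd_mul hw (hf.mul hg)
      have e2 := yd_mul hf hg
      have hd := ((h.eq s hs y).mul (h'.eq s hs y)).const_mul (w y)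
      refine hd.congr_deriv ?_
      rw [e1, e2, ← hyd y]
      ring)
  refine key.congr hS.le (fun s _ => rfl) fun s hs => ?_
  have hs' : s ∈ Icc 0 S := Ioo_subset_Icc_self hs
  have i1 := int_wmul hwc hC (h.ub.1 s hs') (h'.ub.1 s hs')
  have i2 := int_wmul hv hD (h.ub.1 s hs') (h'.ub.1 s hs')
  have i3 := int_wmul hwc hC (h.ubG.1 s hs') (h'.ub.1 s hs')
  have i4 := int_wmul hwc hC (h.ub.1 s hs') (h'.ubG.1 s hs')
  have i5 := int_wmul hu hb (h.ub.1 s hs') (h'.ub.1 s hs')
  have e : (fun y => (v y - 2 * w y) * (f s y * g s y)) =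
      fun y => v y * (f s y * g s y) - 2 * (w y * (f s y * g s y)) := by
    funext y
    ring
  have i6 : Integrable fun y => w y * (G s y * g s y) + w y * (f s y * K s y) := i3.add i4
  rw [integral_add i5 i6, integral_add i3 i4, e, integral_sub i2 (i1.const_mul 2),
    integral_const_mul]
  ring

theorem DynEn_int {ι : Type} [Fintype ι] {w : Sc} (hw : Continuous w) {C : ℝ}
    (hC : ∀ y, |w y| ≤ C) {p q : ι → Sc} (hp : ∀ i, Hinf (p i)) (hq : ∀ i, Hinf (q i)) :
    ∑ i, ∫ y, w y * (p i y * q i y) = ∫ y, w y * ∑ i, p i y * q i y := by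
  rw [← integral_finsetSum _ fun i _ => int_wmul hw hC (hp i) (hq i)]
  simp only [Finset.mul_sum]

theorem DynEn_sum {ι : Type} [Fintype ι] {b : ℝ} {f G g K : ι → ℝ → Sc}
    (h : ∀ i, Evo S a (f i) (G i)) (h' : ∀ i, Evo S b (g i) (K i)) (hS : 0 < S)
    {w v : Sc} (hw : ContDiff ℝ ∞ w) {C : ℝ} (hC : ∀ y, |w y| ≤ C) (hv : Continuous v) {D : ℝ}
    (hD : ∀ y, |v y| ≤ D) (hyd : ∀ y, 2 / 3 * yd w y + (2 - a - b) * w y = v y) :
    IDer S (fun s => ∫ y, w y * ∑ i, f i s y * g i s y) fun s =>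
      (∫ y, v y * ∑ i, f i s y * g i s y) +
      ((∫ y, w y * ∑ i, G i s y * g i s y) + ∫ y, w y * ∑ i, f i s y * K i s y) := by
  have hwc := hw.continuous
  refine (IDer.sum Finset.univ (fun i _ => DynEn_pair (h i) (h' i) hS hw hC hv hD hyd)
    hS.le).congr hS.le (fun s hs => ?_) fun s hs => ?_
  · exact DynEn_int hwc hC (fun i => (h i).ub.1 s hs) fun i => (h' i).ub.1 s hs
  · have hs' : s ∈ Icc 0 S := Ioo_subset_Icc_self hs
    rw [Finset.sum_add_distrib, Finset.sum_add_distrib,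
      DynEn_int hv hD (fun i => (h i).ub.1 s hs') fun i => (h' i).ub.1 s hs',
      DynEn_int hwc hC (fun i => (h i).ubG.1 s hs') fun i => (h' i).ub.1 s hs',
      DynEn_int hwc hC (fun i => (h i).ub.1 s hs') fun i => (h' i).ubG.1 s hs']

theorem DynEn_yd_one (y : R3) : yd (fun _ => (1 : ℝ)) y = 0 := by
  simp [yd, pd_const]

theorem DynEn_const {θ : Sc} (hθ : Sym (-3) θ) :
    Evo S 1 (fun _ => θ) fun _ y => θ y + 2 / 3 * yd θ y := by
  have h1 : Hinf θ := hθ.hinf (by norm_num)
  have h2 : Hinf (yd θ) := (sym_yd hθ).hinf (by norm_num)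
  refine ⟨JS.const h1.1, UB.const h1, UB.const (hinf_add h1 (hinf_cmul h2 _)), fun s _ y => ?_⟩
  refine (hasDerivAt_const s (θ y)).congr_deriv ?_
  ring

theorem Evo.pd {f G : ℝ → Sc} (h : Evo S a f G) (hS : 0 < S) (j : Fin 3) :
    Evo S (a + 2 / 3) (fun s => pd j (f s)) fun s => pd j (G s) := by
  refine ⟨h.js.pd hS j, h.ub.pd j, h.ubG.pd j, fun s hs y => ?_⟩
  have hs' : s ∈ Icc 0 S := Ioo_subset_Icc_self hs
  have hf := (h.ub.1 s hs').1
  have hG := (h.ubG.1 s hs').1
  have hy := yd_smooth hf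
  refine (h.js.hasDerivAt_pd hs (h.eq s hs) j y).congr_deriv ?_
  have h1 : ContDiff ℝ ∞ fun y => a * f s y := contDiff_const.mul hf
  have h2 : ContDiff ℝ ∞ fun y => 2 / 3 * yd (f s) y := contDiff_const.mul hy
  rw [pd_add (h1.neg.sub h2) hG, pd_sub h1.neg h2, pd_neg, pd_cmul hf, pd_cmul hy, pd_yd hf]
  ring

theorem EvoV.ider_Om (h : EvoV S f G) (hS : 0 < S) : IDer S (fun s => nw Om (f s)) fun s =>
    2 * (-nw (fun y => Om y * (2 - Om y) / 3) (f s) + ip (G s) (sm Om (f s))) := by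
  have hC : ∀ y, |Om y| ≤ 2 := fun y => by
    rw [abs_of_pos (Om_pos y)]
    exact Om_le y
  have hc := Om_smooth.continuous
  have hD : ∀ y, |-2 * (Om y * (2 - Om y) / 3)| ≤ 4 := fun y => by
    have h1 := Om_pos y
    have h2 := Om_le y
    exact abs_le.2 ⟨by nlinarith, by nlinarith⟩
  have key := DynEn_sum (v := fun y => -2 * (Om y * (2 - Om y) / 3)) h h hS Om_smooth hC
    (continuous_const.mul ((hc.mul (continuous_const.sub hc)).div_const 3)) hD (fun y => by rw [yd_Om]; ring)
  refine key.congr hS.le (fun s _ => rfl) fun s _ => ?_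
  have e1 : (fun y => -2 * (Om y * (2 - Om y) / 3) * ∑ i, f s i y * f s i y) =
      fun y => -2 * (Om y * (2 - Om y) / 3 * dot (f s) (f s) y) := by
    funext y
    rw [dot, mul_assoc]
  have e2 : (fun y => Om y * ∑ i, G s i y * f s i y) = dot (G s) (sm Om (f s)) := by
    funext y
    simp only [dot, sm, Fin.sum_univ_three]
    ring
  have e3 : (fun y => Om y * ∑ i, f s i y * G s i y) = dot (G s) (sm Om (f s)) := by
    funext y
    simp only [dot, sm, Fin.sum_univ_three]
    ring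
  rw [e1, e2, e3, integral_const_mul]
  simp only [nw, ip]
  ring

theorem EvoV.ider_one (h : EvoV S f G) (hS : 0 < S) :
    IDer S (fun s => nw 1 (f s)) fun s => 2 * ip (G s) (f s) := by
  have key := DynEn_sum (w := fun _ => 1) (v := fun _ => 0) (C := 1) (D := 0) h h hS
    contDiff_const (fun y => by simp) continuous_const (fun y => by simp)
    (fun y => by rw [DynEn_yd_one]; ring)
  refine key.congr hS.le (fun s _ => rfl) fun s _ => ?_
  have e3 : (fun y => ∑ i, f s i y * G s i y) = dot (G s) (f s) := by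
    funext y
    simp only [dot, mul_comm]
  simp only [zero_mul, one_mul, integral_zero, zero_add]
  rw [e3, two_mul]
  rfl

theorem EvoV.ider_ip (h : EvoV S f G) (hS : 0 < S) {θ : Vc} (hθ : ∀ i, Sym (-3) (θ i)) :
    IDer S (fun s => ip (f s) θ) fun s =>
      ip (f s) (fun i y => θ i y + 2 / 3 * yd (θ i) y) + ip (G s) θ := by
  have key := DynEn_sum (w := fun _ => 1) (v := fun _ => 0) (C := 1) (D := 0) h
    (fun i => DynEn_const (hθ i)) hS
    contDiff_const (fun y => by simp) continuous_const (fun y => by simp)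
    (fun y => by rw [DynEn_yd_one]; ring)
  refine key.congr hS.le (fun s _ => ?_) fun s _ => ?_
  · simp only [one_mul, ip, dot]
  · simp only [zero_mul, one_mul, integral_zero, zero_add, ip, dot]
    rw [add_comm]

theorem EvoV.ider_gw (h : EvoV S f G) (hS : 0 < S) : IDer S (fun s => gw 1 (f s)) fun s =>
    2 * (-(2 / 3 * gw 1 (f s)) + ∫ y, ∑ i, ∑ j, H.pd j (G s i) y * H.pd j (f s i) y) := by
  have hp : ∀ k : Fin 3 × Fin 3, Evo S (1 + 2 / 3) (fun s => H.pd k.2 (f s k.1))
      fun s => H.pd k.2 (G s k.1) := fun k => (h k.1).pd hS k.2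
  have key := DynEn_sum (w := fun _ => 1) (v := fun _ => -(4 / 3)) (C := 1) (D := 4 / 3) hp hp hS
    contDiff_const (fun y => by simp) continuous_const
    (fun y => by rw [abs_neg, abs_of_pos (by norm_num)])
    (fun y => by rw [DynEn_yd_one]; ring)
  refine key.congr hS.le (fun s _ => ?_) fun s _ => ?_
  · simp only [gw, Fintype.sum_prod_type, sq, Pi.one_apply]
  · have e : (fun y => ∑ i, ∑ j, H.pd j (f s i) y * H.pd j (G s i) y) =
        fun y => ∑ i, ∑ j, H.pd j (G s i) y * H.pd j (f s i) y := by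
      funext y
      simp only [mul_comm]
    simp only [gw, Fintype.sum_prod_type, sq, Pi.one_apply, one_mul, integral_const_mul]
    rw [e]
    ring

end Pool.Agent.Work.MP_6bf1e5_an.H.Dyn
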