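import Pool.Agent.Work.MP_6bf1e5_an.H.DynIDer

/-!
The bootstrap along one orbit.
Hints. Write X = E + 2 zz, M = E + c zz ≤ X. From 4 β ≤ cz m em and β ≤ m x0: 0 < em, 0 < x0.
Claim: if -em < E on Ico 0 s then X < rr on Icc 0 s. Otherwise take the first time s1 ≤ s with rr ≤ X s1
(s1 > 0); X ≤ rr on Icc 0 s1; IDer.barrier for M on Icc 0 s1 gives M s1 ≤ x0; -em ≤ E s1 by continuity; so
c zz ≤ x0 + em and X s1 = M + (2 - c) zz ≤ x0 + 2 / c * (x0 + em) < rr.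
Second part: X s < rr, so X ≤ rr on a small Icc s (s + η). If E s < -em use continuity. If E s = -em shrink η so
that E ≤ -3 em / 4 there; 0 ≤ X = E + 2 zz gives zz ≥ 3 em / 8, X ≥ cz zz, so e ≤ -β / 2 and le_of_le ends.
-/

open scoped ContDiff ENNReal FourierTransform Real
open Set MeasureTheory

namespace Pool.Agent.Work.MP_6bf1e5_an.H.Dyn

theorem DynOde_cont {Q q : ℝ → ℝ} (h : ∀ S > 0, IDer S Q q) : ContinuousOn Q (Ici 0) := by
  intro s hs
  have hs0 : (0 : ℝ) ≤ s := hs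
  have h1 := (h (s + 1) (by linarith)).contOn (by linarith) s ⟨hs0, by linarith⟩
  refine h1.mono_of_mem_nhdsWithin ?_
  rw [← Ici_inter_Iic]
  exact inter_mem_nhdsWithin _ (Iic_mem_nhds (by linarith))

theorem DynOde_le {f : ℝ → ℝ} (hf : ContinuousOn f (Ici 0)) {s a : ℝ} (hs : 0 < s)
    (h : ∀ σ ∈ Ico 0 s, f σ ≤ a) : f s ≤ a := by
  have hc : ContinuousWithinAt f (Ico 0 s) s := (hf s hs.le).mono fun σ hσ => hσ.1
  refine ContinuousWithinAt.closure_le (g := fun _ => a) ?_ hc continuousWithinAt_const h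
  rw [closure_Ico hs.ne]
  exact ⟨hs.le, le_rfl⟩

theorem ode_boot {E zz e z : ℝ → ℝ} {c cz m β rr x0 em : ℝ}
    (hE : ∀ S > 0, IDer S E e) (hZ : ∀ S > 0, IDer S zz z)
    (hz0 : ∀ s ≥ 0, 0 ≤ zz s) (hz : ∀ s ≥ 0, cz * zz s ≤ E s + 2 * zz s)
    (hp : ∀ s ≥ 0, 0 ≤ E s + 2 * zz s) (hcz : 0 ≤ cz)
    (h1 : ∀ s ≥ 0, E s + 2 * zz s ≤ rr → e s ≤ -m * (E s + 2 * zz s) + β)
    (h2 : ∀ s ≥ 0, E s + 2 * zz s ≤ rr → e s + c * z s ≤ -m * (E s + 2 * zz s) + β)
    (hc : 0 < c) (hc2 : c ≤ 2) (hm : 0 < m) (hβ : 0 < β) (hem : 4 * β ≤ cz * m * em)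
    (hx0 : β ≤ m * x0) (hrr : x0 + 2 / c * (x0 + 2 * em) < rr) (h0 : E 0 + 2 * zz 0 ≤ x0)
    (hF : ∃ s ≥ 0, rr < E s + 2 * zz s) :
    (∃ s ≥ 0, E s ≤ -em) ∧ ∀ s ≥ 0, (∀ σ ∈ Ico 0 s, -em < E σ) → E s ≤ -em →
      ∀ ε > 0, ∃ σ ∈ Ioo s (s + ε), E σ < -em := by
  have hem0 : 0 < em := by
    by_contra hn
    have : cz * m * em ≤ 0 := mul_nonpos_of_nonneg_of_nonpos (mul_nonneg hcz hm.le) (not_lt.1 hn)
    linarith
  have hx00 : 0 < x0 := by
    by_contra hn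
    have : m * x0 ≤ 0 := mul_nonpos_of_nonneg_of_nonpos hm.le (not_lt.1 hn)
    linarith
  have hcE := DynOde_cont hE
  have hcX : ContinuousOn (fun s => E s + 2 * zz s) (Ici 0) :=
    hcE.add (continuousOn_const.mul (DynOde_cont hZ))
  have h2c : 0 < 2 / c := by positivity
  have hX0 : E 0 + 2 * zz 0 < rr := by
    have : 0 < 2 / c * (x0 + 2 * em) := by positivity
    linarith
  have hK : ∀ s1 ≥ 0, (∀ σ ∈ Icc 0 s1, E σ + 2 * zz σ ≤ rr) → -em ≤ E s1 →
      E s1 + 2 * zz s1 < rr := by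
    intro s1 hs1 hX hE1
    have hM : IDer s1 (fun s => E s + c * zz s) fun s => e s + c * z s :=
      (((hE (s1 + 1) (by linarith)).add ((hZ (s1 + 1) (by linarith)).const_mul c)
        (by linarith))).mono hs1 (by linarith)
    have hle : ∀ σ ≥ 0, E σ + c * zz σ ≤ E σ + 2 * zz σ := fun σ hσ => by
      have := mul_le_mul_of_nonneg_right hc2 (hz0 σ hσ)
      linarith
    have hb := hM.barrier (x := x0) ((hle 0 le_rfl).trans h0) (fun σ hσ hx => by
      have h3 := h2 σ hσ.1 (hX σ hσ)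
      have h4 : x0 ≤ E σ + 2 * zz σ := hx.trans (hle σ hσ.1)
      have h5 := mul_le_mul_of_nonneg_left h4 hm.le
      linarith) s1 ⟨hs1, le_rfl⟩
    have h6 : c * zz s1 ≤ x0 + em := by linarith
    have h7 : 2 * zz s1 ≤ 2 / c * (x0 + em) := by
      have := mul_le_mul_of_nonneg_left h6 h2c.le
      rwa [← mul_assoc, div_mul_cancel₀ _ hc.ne'] at this
    have h8 : 0 ≤ c * zz s1 := mul_nonneg hc.le (hz0 s1 hs1)
    have h9 : 2 / c * (x0 + em) ≤ 2 / c * (x0 + 2 * em) :=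
      mul_le_mul_of_nonneg_left (by linarith) h2c.le
    linarith
  have hC : ∀ s ≥ 0, (∀ σ ∈ Ico 0 s, -em < E σ) → E s + 2 * zz s < rr := by
    intro s hs hlt
    by_contra hn
    have hcl : IsClosed (Icc 0 s ∩ (fun s => E s + 2 * zz s) ⁻¹' Ici rr) :=
      (hcX.mono fun σ hσ => hσ.1).preimage_isClosed_of_isClosed isClosed_Icc isClosed_Ici
    obtain ⟨s1, ⟨hs1, hr1⟩, hmin⟩ := (isCompact_Icc.of_isClosed_subset hcl
      inter_subset_left).exists_isLeast ⟨s, ⟨hs, le_rfl⟩, not_lt.1 hn⟩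
    have hr1' : rr ≤ E s1 + 2 * zz s1 := hr1
    have hpos : 0 < s1 := by
      rcases hs1.1.eq_or_lt with h | h
      · rw [← h] at hr1'; linarith
      · exact h
    have hbel : ∀ σ ∈ Ico 0 s1, E σ + 2 * zz σ ≤ rr := fun σ hσ => by
      by_contra hn'
      have := hmin ⟨⟨hσ.1, hσ.2.le.trans hs1.2⟩, (not_le.1 hn').le⟩
      exact absurd hσ.2 (not_lt.2 this)
    have hat := DynOde_le hcX hpos hbel
    have hE1 : -E s1 ≤ em := DynOde_le hcE.neg hpos fun σ hσ => by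
      have := hlt σ ⟨hσ.1, hσ.2.trans_le hs1.2⟩
      show -E σ ≤ em
      linarith
    have := hK s1 hs1.1 (fun σ hσ => by
      rcases hσ.2.eq_or_lt with h | h
      · rw [h]; exact hat
      · exact hbel σ ⟨hσ.1, h⟩) (by linarith)
    linarith
  refine ⟨?_, fun s hs hlt hle ε hε => ?_⟩
  · by_contra hn
    push Not at hn
    obtain ⟨s, hs, hr⟩ := hF
    have := hC s hs fun σ hσ => hn σ hσ.1
    linarith
  · have e1 : ∀ᶠ σ in nhdsWithin s (Ici 0), E σ + 2 * zz σ < rr :=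
      (hcX s hs).eventually (gt_mem_nhds (hC s hs hlt))
    have e2 : ∀ᶠ σ in nhdsWithin s (Ici 0), E σ < -(3 / 4 * em) :=
      (hcE s hs).eventually (gt_mem_nhds (by linarith))
    obtain ⟨η, hη, hball⟩ := Metric.mem_nhdsWithin_iff.1 (e1.and e2)
    have hδ : 0 < min η ε := lt_min hη hε
    have hδ1 := min_le_left η ε
    have hδ2 := min_le_right η ε
    refine ⟨s + min η ε / 2, ⟨by linarith, by linarith⟩, ?_⟩
    have key := (hE (s + min η ε / 2) (by linarith)).le_of_le (b := -(β / 2)) hs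
      (by linarith : s ≤ s + min η ε / 2) le_rfl fun σ hσ => by
        have hσ0 : 0 ≤ σ := hs.trans hσ.1.le
        obtain ⟨a1, a2⟩ := hball ⟨by
          rw [Metric.mem_ball, Real.dist_eq, abs_lt]
          constructor <;> linarith [hσ.1, hσ.2], hσ0⟩
        have a3 := h1 σ hσ0 a1.le
        have a4 := hz σ hσ0
        have a7 : 3 / 8 * em ≤ zz σ := by linarith [hp σ hσ0]
        have a5 := (mul_le_mul_of_nonneg_left a7 hcz).trans a4
        have a6 := mul_le_mul_of_nonneg_left a5 hm.le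
        linarith
    have : 0 < β / 2 * (s + min η ε / 2 - s) := mul_pos (by linarith) (by linarith)
    linarith

end Pool.Agent.Work.MP_6bf1e5_an.H.Dyn
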