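import Pool.Agent.Work.MP_6bf1e5_an.H.DynDefs
import Pool.Agent.Lib.BorsukUlam.Basic

/-!
The topological part: a zero in the disc, and continuity of the exit time.
Hints. bu_disc: apply Pool.Agent.Lib.BorsukUlam.borsuk_ulam_l1 with n = 2 to
x ↦ if 0 ≤ x 2 then h (a x) else -h (-(a x)), a x = (ϱ / sqrt (∑ i, x i ^ 2)) • ![x 0, x 1]; the two branches
agree when x 2 = 0 (ContinuousOn.if or continuous_if_le on the subtype).
exit_time: τ a = sInf {s | 0 ≤ s ∧ E a s ≤ e} (closed, nonempty, bounded below). Upper semicontinuity from htr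
and continuity in a at one time; lower semicontinuity from the tube lemma on the compact Icc 0 s1, s1 < τ a0
(IsCompact.eventually_forall_of_forall_eventually, with nhdsWithin or on the subtype D).
-/

open scoped ContDiff ENNReal FourierTransform Real
open Set MeasureTheory

namespace Pool.Agent.Work.MP_6bf1e5_an.H.Dyn

theorem bu_disc {ϱ : ℝ} (hϱ : 0 < ϱ) {h : (Fin 2 → ℝ) → Fin 2 → ℝ} (hc : ContinuousOn h (disc ϱ))
    (ho : ∀ a : Fin 2 → ℝ, ∑ k, a k ^ 2 = ϱ ^ 2 → h (-a) = -h a) : ∃ a ∈ disc ϱ, h a = 0 := by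
  classical
  let A : (Fin 3 → ℝ) → Fin 2 → ℝ := fun x => (ϱ / √(∑ i, x i ^ 2)) • ![x 0, x 1]
  have hpos : ∀ x : Fin 3 → ℝ, ∑ i, |x i| = 1 → 0 < ∑ i, x i ^ 2 := by
    intro x hx
    refine lt_of_le_of_ne (Finset.sum_nonneg fun i _ => sq_nonneg _) fun h0 => ?_
    have h1 := (Finset.sum_eq_zero_iff_of_nonneg fun i _ => sq_nonneg (x i)).1 h0.symm
    have h2 : ∀ i, x i = 0 := fun i => pow_eq_zero_iff two_ne_zero |>.1 (h1 i (Finset.mem_univ i))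
    simp [h2] at hx
  have hA : ∀ x : Fin 3 → ℝ, ∑ i, |x i| = 1 →
      ∑ k, A x k ^ 2 = ϱ ^ 2 - ϱ ^ 2 * x 2 ^ 2 / ∑ i, x i ^ 2 := by
    intro x hx
    have h1 := hpos x hx
    simp only [A, Fin.sum_univ_two, Pi.smul_apply, smul_eq_mul, Matrix.cons_val_zero,
      Matrix.cons_val_one, mul_pow, div_pow, Real.sq_sqrt h1.le]
    field_simp
    rw [Fin.sum_univ_three]
    ring
  have hAd : ∀ x : Fin 3 → ℝ, ∑ i, |x i| = 1 → A x ∈ disc ϱ := by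
    intro x hx
    have h1 := hpos x hx
    change ∑ k, A x k ^ 2 ≤ ϱ ^ 2
    rw [hA x hx]
    exact sub_le_self _ (by positivity)
  have hAb : ∀ x : Fin 3 → ℝ, ∑ i, |x i| = 1 → x 2 = 0 → h (-A x) = -h (A x) := by
    intro x hx h0
    apply ho
    rw [hA x hx, h0]
    simp
  have hAn : ∀ x : Fin 3 → ℝ, A (-x) = -A x := by
    intro x
    ext k
    fin_cases k <;> simp [A]
  have hneg : ∀ a ∈ disc ϱ, -a ∈ disc ϱ := fun a ha => by simpa [disc] using ha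
  have hAc : ContinuousOn A {x | ∑ i, |x i| = 1} := by
    refine ContinuousOn.smul (continuousOn_const.div (by fun_prop) fun x hx =>
      (Real.sqrt_pos.2 (hpos x hx)).ne') (Continuous.continuousOn ?_)
    refine continuous_pi fun k => ?_
    fin_cases k <;> simp <;> fun_prop
  obtain ⟨x, hx, h0⟩ := Pool.Agent.Lib.BorsukUlam.borsuk_ulam_l1 2
    (fun x => if 0 ≤ x 2 then h (A x) else -h (-A x)) (by
      refine ContinuousOn.if (fun x hx => ?_) ((hc.comp hAc hAd).mono inter_subset_left)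
        ((hc.comp hAc.neg fun x hx => hneg _ (hAd x hx)).neg.mono inter_subset_left)
      have h1 : (0 : ℝ) = x 2 :=
        frontier_le_subset_eq (f := fun _ : Fin 3 → ℝ => (0 : ℝ)) (g := fun x => x 2)
          continuous_const (continuous_apply 2) hx.2
      rw [hAb x hx.1 h1.symm, neg_neg]) (by
      intro x hx
      simp only [hAn, Pi.neg_apply, neg_neg]
      rcases lt_trichotomy (x 2) 0 with h1 | h1 | h1
      · rw [if_pos (by linarith), if_neg (by linarith), neg_neg]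
      · rw [if_pos (by linarith), if_pos (by linarith), hAb x hx h1]
      · rw [if_neg (by linarith), if_pos (by linarith)])
  split_ifs at h0
  · exact ⟨_, hAd x hx, h0⟩
  · exact ⟨_, hneg _ (hAd x hx), neg_eq_zero.1 h0⟩

theorem exit_time {D : Set (Fin 2 → ℝ)} {E : (Fin 2 → ℝ) → ℝ → ℝ} {e : ℝ}
    (hc : ContinuousOn (fun z : (Fin 2 → ℝ) × ℝ => E z.1 z.2) (D ×ˢ Ici 0))
    (hex : ∀ a ∈ D, ∃ s ≥ 0, E a s ≤ e)
    (htr : ∀ a ∈ D, ∀ s ≥ 0, (∀ σ ∈ Ico 0 s, e < E a σ) → E a s ≤ e →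
      ∀ ε > 0, ∃ σ ∈ Ioo s (s + ε), E a σ < e) :
    ∃ τ : (Fin 2 → ℝ) → ℝ, ContinuousOn τ D ∧
      ∀ a ∈ D, 0 ≤ τ a ∧ E a (τ a) ≤ e ∧ (E a 0 ≤ e → τ a = 0) := by
  let τ : (Fin 2 → ℝ) → ℝ := fun a => sInf (Ici 0 ∩ E a ⁻¹' Iic e)
  have hb : ∀ a, BddBelow (Ici 0 ∩ E a ⁻¹' Iic e) := fun a => ⟨0, fun _ hs => hs.1⟩
  have hle : ∀ a s, 0 ≤ s → E a s ≤ e → τ a ≤ s := fun a s h1 h2 => csInf_le (hb a) ⟨h1, h2⟩
  have hmem : ∀ a ∈ D, 0 ≤ τ a ∧ E a (τ a) ≤ e := by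
    intro a ha
    have h1 : ContinuousOn (E a) (Ici 0) :=
      hc.comp (f := fun s => (a, s)) (by fun_prop) fun s hs => ⟨ha, hs⟩
    obtain ⟨s, h2, h3⟩ := hex a ha
    exact (h1.preimage_isClosed_of_isClosed isClosed_Ici isClosed_Iic).csInf_mem ⟨s, h2, h3⟩ (hb a)
  have hlt : ∀ a, ∀ σ ∈ Ico 0 (τ a), e < E a σ := fun a σ hσ =>
    lt_of_not_ge fun h => (hle a σ hσ.1 h).not_gt hσ.2
  refine ⟨τ, fun a ha => tendsto_order.2 ⟨fun s hs => ?_, fun s hs => ?_⟩, fun a ha =>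
    ⟨(hmem a ha).1, (hmem a ha).2, fun h => le_antisymm (hle a 0 le_rfl h) (hmem a ha).1⟩⟩
  · have h1 := (isCompact_Icc (a := 0) (b := s)).eventually_forall_of_forall_eventually (x₀ := a)
      (P := fun b σ => (b, σ) ∈ D ×ˢ Ici (0 : ℝ) → e < E b σ) fun σ hσ =>
        eventually_nhdsWithin_iff.1 ((hc (a, σ) ⟨ha, hσ.1⟩).eventually
          (lt_mem_nhds (hlt a σ ⟨hσ.1, hσ.2.trans_lt hs⟩)))
    filter_upwards [nhdsWithin_le_nhds h1, self_mem_nhdsWithin] with b h2 hb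
    exact lt_of_not_ge fun h =>
      (h2 (τ b) ⟨(hmem b hb).1, h⟩ ⟨hb, (hmem b hb).1⟩).not_ge (hmem b hb).2
  · obtain ⟨σ, h1, h2⟩ := htr a ha (τ a) (hmem a ha).1 (hlt a) (hmem a ha).2 _ (sub_pos.2 hs)
    have h3 : 0 ≤ σ := (hmem a ha).1.trans h1.1.le
    have h4 : ContinuousOn (fun b => E b σ) D :=
      hc.comp (f := fun b => (b, σ)) (by fun_prop) fun b hb => ⟨hb, h3⟩
    filter_upwards [(h4 a ha).eventually (gt_mem_nhds h2)] with b hb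
    linarith [hle b σ h3 hb.le, h1.2]

/-- Joint continuity from continuity in time and locally uniform continuity in the parameter. -/
theorem joint_cont {D : Set (Fin 2 → ℝ)} {E : (Fin 2 → ℝ) → ℝ → ℝ}
    (h1 : ∀ a ∈ D, ∀ S > 0, ContinuousOn (E a) (Icc 0 S))
    (h2 : ∀ a ∈ D, ∀ S > 0, ∀ ε > 0, ∃ δ > 0, ∀ b ∈ D, ∑ k, (b k - a k) ^ 2 ≤ δ →
      ∀ s ∈ Icc 0 S, |E b s - E a s| ≤ ε) :
    ContinuousOn (fun z : (Fin 2 → ℝ) × ℝ => E z.1 z.2) (D ×ˢ Ici 0) := by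
  rintro ⟨a, s⟩ ⟨ha, hs⟩
  have hs0 : 0 ≤ s := hs
  have hS : 0 < s + 1 := by linarith
  refine Metric.tendsto_nhds.2 fun ε hε => ?_
  obtain ⟨δ, hδ, h3⟩ := h2 a ha (s + 1) hS (ε / 2) (half_pos hε)
  have h4 : ∀ᶠ z : (Fin 2 → ℝ) × ℝ in nhdsWithin (a, s) (D ×ˢ Ici 0), z.2 ∈ Icc 0 (s + 1) := by
    filter_upwards [self_mem_nhdsWithin, nhdsWithin_le_nhds
      ((continuous_snd.tendsto (a, s)).eventually (gt_mem_nhds (lt_add_one s)))] with z h5 h6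
    exact ⟨h5.2, le_of_lt h6⟩
  have h5 : Filter.Tendsto (fun z : (Fin 2 → ℝ) × ℝ => E a z.2) (nhdsWithin (a, s) (D ×ˢ Ici 0))
      (nhds (E a s)) :=
    (h1 a ha (s + 1) hS s ⟨hs0, by linarith⟩).tendsto.comp (tendsto_nhdsWithin_iff.2
      ⟨(continuous_snd.tendsto (a, s)).mono_left nhdsWithin_le_nhds, h4⟩)
  have h6 : Continuous fun z : (Fin 2 → ℝ) × ℝ => ∑ k, (z.1 k - a k) ^ 2 := by fun_prop
  have h7 : ∀ᶠ z : (Fin 2 → ℝ) × ℝ in nhds (a, s), ∑ k, (z.1 k - a k) ^ 2 < δ :=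
    (h6.tendsto (a, s)).eventually (gt_mem_nhds (by simpa using hδ))
  filter_upwards [self_mem_nhdsWithin, h4, Metric.tendsto_nhds.1 h5 _ (half_pos hε),
    nhdsWithin_le_nhds h7] with z a1 a2 a3 a4
  have h8 := h3 z.1 a1.1 (le_of_lt a4) z.2 a2
  rw [Real.dist_eq] at a3 ⊢
  linarith [abs_sub_le (E z.1 z.2) (E a z.2) (E a s)]

/-- The shooting argument. -/
theorem shoot {ϱ e : ℝ} (hϱ : 0 < ϱ) {E : (Fin 2 → ℝ) → ℝ → ℝ} {g : Fin 2 → (Fin 2 → ℝ) → ℝ → ℝ}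
    (hc : ContinuousOn (fun z : (Fin 2 → ℝ) × ℝ => E z.1 z.2) (disc ϱ ×ˢ Ici 0))
    (hg : ∀ i, ContinuousOn (fun z : (Fin 2 → ℝ) × ℝ => g i z.1 z.2) (disc ϱ ×ˢ Ici 0))
    (hex : ∀ a ∈ disc ϱ, ∃ s ≥ 0, E a s ≤ e)
    (htr : ∀ a ∈ disc ϱ, ∀ s ≥ 0, (∀ σ ∈ Ico 0 s, e < E a σ) → E a s ≤ e →
      ∀ ε > 0, ∃ σ ∈ Ioo s (s + ε), E a σ < e)
    (hnz : ∀ a ∈ disc ϱ, ∀ s ≥ 0, E a s ≤ e → ∃ i, g i a s ≠ 0)
    (h0 : ∀ a : Fin 2 → ℝ, ∑ k, a k ^ 2 = ϱ ^ 2 → E a 0 ≤ e ∧ ∀ i, g i (-a) 0 = -g i a 0) :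
    False := by
  obtain ⟨τ, hτ, h1⟩ := exit_time hc hex htr
  obtain ⟨a, ha, h2⟩ := bu_disc hϱ (h := fun a i => g i a (τ a))
    (continuousOn_pi.2 fun i => (hg i).comp (f := fun a => (a, τ a))
      (continuousOn_id.prodMk hτ) fun a ha => ⟨ha, (h1 a ha).1⟩) (by
      intro a ha
      have ha' : ∑ k, (-a) k ^ 2 = ϱ ^ 2 := by simpa using ha
      ext i
      rw [Pi.neg_apply, (h1 a ha.le).2.2 (h0 a ha).1, (h1 (-a) ha'.le).2.2 (h0 _ ha').1]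
      exact (h0 a ha).2 i)
  obtain ⟨i, hi⟩ := hnz a ha (τ a) (h1 a ha).1 (h1 a ha).2.1
  exact hi (congrFun h2 i)

end Pool.Agent.Work.MP_6bf1e5_an.H.Dyn
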