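import Pool.Agent.Work.MP_6bf1e5_an.H.DynUq
import Pool.Agent.Work.MP_6bf1e5_an.H.DynOde
import Pool.Agent.Work.MP_6bf1e5_an.H.DynTop

/-!
The end of the dynamical part: the shooting argument along the orbits.
-/

open scoped ContDiff ENNReal FourierTransform Real
open Set MeasureTheory

namespace Pool.Agent.Work.MP_6bf1e5_an.H.Dyn

theorem fin_pl_sub (φ : Fin 2 → Vc) (a b : Fin 2 → ℝ) :
    pl φ b - pl φ a = pl φ fun k => b k - a k := by
  funext i y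
  simp only [pl, Pi.sub_apply, Fin.sum_univ_two]
  ring

theorem fin_pl_neg (φ : Fin 2 → Vc) (a : Fin 2 → ℝ) : pl φ (-a) = -pl φ a := by
  funext i y
  simp only [pl, Pi.neg_apply, Fin.sum_univ_two]
  ring

theorem fin_exit {B : Vc} (hB : Bg B) {V : ℝ → Vc} (hV : ∀ s ≥ 0, ∀ i, Hinf (V s i)) {C rr : ℝ}
    (hd : ∀ s ≥ 0, ∀ i y, |curl (V s) i y| ≤ C * Real.exp (-s)) (hnz : rr < nw Om (curl B)) :
    ∃ s ≥ 0, rr < nw Om (curl (V s - B)) := by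
  obtain ⟨D, hD⟩ := nw_lower hB
  have ht : Filter.Tendsto (fun s : ℝ => nw Om (curl B) - D * (C * Real.exp (-s))) Filter.atTop
      (nhds (nw Om (curl B) - D * (C * 0))) :=
    tendsto_const_nhds.sub ((Real.tendsto_exp_neg_atTop_nhds_zero.const_mul C).const_mul D)
  rw [mul_zero, mul_zero, sub_zero] at ht
  obtain ⟨s, hs1, hs2⟩ := ((ht.eventually (lt_mem_nhds hnz)).and (Filter.eventually_ge_atTop 0)).exists
  exact ⟨s, hs2, hs1.trans_le (hD _ (hV s hs2) _ (hd s hs2))⟩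

theorem dyn_main (L : Lyap) (hL : L.Good) {ν : ℝ} (hν : 0 < ν) {B : Vc} (hB : Bg B)
    {φ : Fin 2 → Vc} (hφ : ∀ k, Bg (φ k)) {c m β rr ϱ x0 em cl cz ch cb : ℝ}
    (hM1 : ∀ u, Adm u → L.X u ≤ rr → L.dE ν B u ≤ -m * L.X u + β)
    (hM2 : ∀ u, Adm u → L.X u ≤ rr → L.dE ν B u + c * L.dZ ν B u ≤ -m * L.X u + β)
    (hco : L.Coer cl cz ch cb) (hcl : 0 < cl) (hcz : 0 ≤ cz)
    (hc : 0 < c) (hc2 : c ≤ 2) (hm : 0 < m) (hβ : 0 < β)
    (hϱ : 0 < ϱ) (hem : 4 * β ≤ cz * m * em) (hx0 : β ≤ m * x0)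
    (hrr : x0 + 2 / c * (x0 + 2 * em) < rr)
    (hX : ∀ a : Fin 2 → ℝ, ∑ k, a k ^ 2 ≤ ϱ ^ 2 → L.X (pl φ a) ≤ x0)
    (hE : ∀ a : Fin 2 → ℝ, ∑ k, a k ^ 2 = ϱ ^ 2 → L.E (pl φ a) ≤ -em)
    (hnz : rr < cl * nw Om (curl B)) : Blow ν 1 := by
  by_contra hb
  choose V hV hV0 hVe hVd using fun a : Fin 2 → ℝ => exists_orbit hν hb (bg_add_pl hB hφ a)
  have hBh := bg_hinf hB
  have hmem : ∀ s : ℝ, 0 ≤ s → s ∈ Icc 0 (s + 1) := fun s hs => ⟨hs, by linarith⟩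
  have hin : ∀ a, ∀ s ≥ 0, ∀ i, Hinf (V a s i) := fun a s hs i =>
    ((hV a (s + 1) (by linarith)).ub i).1 s (hmem s hs)
  have hin' : ∀ a, ∀ s ≥ 0, ∀ i, Hinf ((V a s - B) i) := fun a s hs i =>
    hinf_sub (hin a s hs i) (hBh i)
  have hadm : ∀ a, ∀ s ≥ 0, Adm (V a s - B) := fun a s hs =>
    ⟨hin' a s hs, fun y => by
      rw [dvg_sub (fun i => (hin a s hs i).1) hB.smooth,
        (hV a (s + 1) (by linarith)).dv s (hmem s hs), hB.dv, sub_zero],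
      eqv_sub (hVe a s hs) hB.eqv⟩
  have h0 : ∀ a, V a 0 - B = pl φ a := fun a => by rw [hV0]; exact add_sub_cancel_left _ _
  have hXE : ∀ u, L.E u + 2 * L.zz u = L.X u := fun u => by unfold Lyap.E; ring
  have hem0 : 0 < em := by
    by_contra h
    push Not at h
    have := mul_nonpos_of_nonneg_of_nonpos (mul_nonneg hcz hm.le) h
    linarith
  have hboot : ∀ a ∈ disc ϱ, (∃ s ≥ 0, L.E (V a s - B) ≤ -em) ∧ ∀ s ≥ 0,
      (∀ σ ∈ Ico 0 s, -em < L.E (V a σ - B)) → L.E (V a s - B) ≤ -em →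
      ∀ ε > 0, ∃ σ ∈ Ioo s (s + ε), L.E (V a σ - B) < -em := by
    intro a ha
    obtain ⟨C, hC⟩ := hVd a
    refine ode_boot (E := fun s => L.E (V a s - B)) (zz := fun s => L.zz (V a s - B))
      (fun S hS => (hV a S hS).iderE hS hB hL) (fun S hS => (hV a S hS).iderZ hS hB hL)
      (fun s _ => zz_nonneg L _) (fun s hs => ?_) (fun s hs => ?_) hcz (fun s hs => ?_)
      (fun s hs => ?_) hc hc2 hm hβ hem hx0 hrr ?_ ?_
    · rw [hXE]; exact (zz_le_X hL hco hcl.le hcz (hin' a s hs)).2.1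
    · rw [hXE]; exact (zz_le_X hL hco hcl.le hcz (hin' a s hs)).1
    · rw [hXE]; exact hM1 _ (hadm a s hs)
    · rw [hXE]; exact hM2 _ (hadm a s hs)
    · rw [hXE, h0]; exact hX a ha
    · obtain ⟨s, hs, h⟩ := fin_exit hB (hin a) hC ((div_lt_iff₀' hcl).2 hnz)
      exact ⟨s, hs, by
        rw [hXE]
        exact ((div_lt_iff₀' hcl).1 h).trans_le (zz_le_X hL hco hcl.le hcz (hin' a s hs)).2.2.1⟩
  have hclose : ∀ a, ∀ S > 0, ∀ ε > 0, ∃ δ > 0, ∀ b : Fin 2 → ℝ, ∑ k, (b k - a k) ^ 2 ≤ δ →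
      ∀ s ∈ Icc 0 S, ZZ (V b s - B - (V a s - B)) ≤ ε := by
    intro a S hS ε hε
    obtain ⟨δ, hδ, h⟩ := (hV a S hS).stab hν hS hε
    obtain ⟨C, hC, h'⟩ := ZZ_pl (φ := φ) fun k => bg_hinf (hφ k)
    refine ⟨δ / C, div_pos hδ hC, fun b hab s hs => ?_⟩
    rw [sub_sub_sub_cancel_right]
    refine h (V b) (hV b S hS) ?_ s hs
    rw [hV0, hV0, add_sub_add_left_eq_sub, fin_pl_sub]
    refine (h' _).trans ?_
    rw [le_div_iff₀ hC] at hab
    linarith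
  refine shoot hϱ (e := -em) (E := fun a s => L.E (V a s - B))
    (g := fun i a s => mom (L.θZ i) (V a s - B)) ?_ (fun i => ?_) (fun a ha => (hboot a ha).1)
    (fun a ha => (hboot a ha).2) (fun a _ s hs h => ?_) (fun a ha => ?_)
  · refine joint_cont (E := fun a s => L.E (V a s - B))
      (fun a _ S hS => ((hV a S hS).iderE hS hB hL).contOn hS.le) fun a _ S hS ε hε => ?_
    obtain ⟨K, hK⟩ := UB.bd (S := S) (V := fun s => V a s - B)
      fun i => ((hV a S hS).ub i).sub (UB.const (hBh i))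
    obtain ⟨K', hK'⟩ := ZZ_bdd (V := fun s => V a s - B) (fun i s hs => hin' a s hs.1 i) hK
    obtain ⟨η, hη, h1⟩ := E_cont L hL K' hε
    obtain ⟨δ, hδ, h2⟩ := hclose a S hS η hη
    exact ⟨δ, hδ, fun b _ hab s hs =>
      h1 _ _ (hin' a s hs.1) (hin' b s hs.1) (hK' s hs) (h2 b hab s hs)⟩
  · refine joint_cont (E := fun a s => mom (L.θZ i) (V a s - B))
      (fun a _ S hS => ((hV a S hS).ider_mom hS hB (good_Z hL i)).contOn hS.le)
      fun a _ S hS ε hε => ?_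
    obtain ⟨η, hη, h1⟩ := mom_cont (good_Z hL i) hε
    obtain ⟨δ, hδ, h2⟩ := hclose a S hS η hη
    exact ⟨δ, hδ, fun b _ hab s hs => h1 _ _ (hin' a s hs.1) (hin' b s hs.1) (h2 b hab s hs)⟩
  · by_contra hz
    push Not at hz
    have h1 : L.zz (V a s - B) = 0 := by
      show ∑ i, mom (L.θZ i) (V a s - B) ^ 2 = 0
      simp [hz]
    have h2 := hXE (V a s - B)
    have h3 := (zz_le_X hL hco hcl.le hcz (hin' a s hs)).1
    linarith
  · refine ⟨by rw [h0]; exact hE a ha, fun i => ?_⟩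
    rw [h0, h0, fin_pl_neg, mom_neg]

end Pool.Agent.Work.MP_6bf1e5_an.H.Dyn
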