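import Pool.Agent.Work.MP_6bf1e5_an.H.DynDefs

/-!
Derivatives in integrated form: calculus, barrier and Riccati lemmas.
Hints. mul: replace Q by Q 0 + the integral (IntervalIntegrable.absolutelyContinuousOnInterval_intervalIntegral,
IntervalIntegrable.ae_hasDerivAt_integral, AbsolutelyContinuousOnInterval.integral_deriv_mul_eq_sub).
barrier: if Q s > x take s1 = sSup of the closed set of times below s with Q ≤ x, and use le_of_le on (s1, s).
riccati: with C' = |C|, the function exp (-2 C' s) * Z s (of_deriv, mul) does not increase while Z ≤ 1;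
take δ = min ε (1/2) * exp (-2 C' S); first time with Z = 1 gives a contradiction.
-/

open scoped ContDiff ENNReal FourierTransform Real
open Set MeasureTheory

namespace Pool.Agent.Work.MP_6bf1e5_an.H.Dyn

variable {S : ℝ} {Q q P p : ℝ → ℝ}

theorem IDer.contOn (h : IDer S Q q) (hS : 0 ≤ S) : ContinuousOn Q (Icc 0 S) := by
  have h1 : ContinuousOn (fun s => ∫ σ in (0 : ℝ)..s, q σ) (uIcc 0 S) :=
    intervalIntegral.continuousOn_primitive_interval' h.1 left_mem_uIcc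
  rw [uIcc_of_le hS] at h1
  exact (continuousOn_const.add h1).congr h.2

theorem IDer.mono (h : IDer S Q q) {S' : ℝ} (h0 : 0 ≤ S') (h1 : S' ≤ S) : IDer S' Q q :=
  ⟨h.1.mono_set (by
      rw [uIcc_of_le h0, uIcc_of_le (h0.trans h1)]
      exact Icc_subset_Icc le_rfl h1),
    fun s hs => h.2 s ⟨hs.1, hs.2.trans h1⟩⟩

theorem IDer.congr (h : IDer S Q q) (hS : 0 ≤ S) (hQ : ∀ s ∈ Icc 0 S, Q s = P s)
    (hq : ∀ s ∈ Ioo 0 S, q s = p s) : IDer S P p := by
  refine ⟨h.1.congr_uIoo (by rw [uIoo_of_le hS]; exact hq), fun s hs => ?_⟩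
  rw [← hQ s hs, ← hQ 0 ⟨le_rfl, hS⟩, h.2 s hs,
    intervalIntegral.integral_congr_Ioo_of_le hs.1 fun σ hσ => hq σ ⟨hσ.1, hσ.2.trans_le hs.2⟩]

theorem IDer.add (h : IDer S Q q) (h' : IDer S P p) (hS : 0 ≤ S) :
    IDer S (fun s => Q s + P s) fun s => q s + p s := by
  refine ⟨h.1.add h'.1, fun s hs => ?_⟩
  beta_reduce
  rw [intervalIntegral.integral_add (h.mono hs.1 hs.2).1 (h'.mono hs.1 hs.2).1, h.2 s hs, h'.2 s hs]
  ring

theorem IDer.const_mul (h : IDer S Q q) (c : ℝ) :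
    IDer S (fun s => c * Q s) fun s => c * q s := by
  refine ⟨h.1.const_mul c, fun s hs => ?_⟩
  beta_reduce
  rw [intervalIntegral.integral_const_mul, h.2 s hs]
  ring

theorem IDer.sub (h : IDer S Q q) (h' : IDer S P p) (hS : 0 ≤ S) :
    IDer S (fun s => Q s - P s) fun s => q s - p s := by
  refine ⟨h.1.sub h'.1, fun s hs => ?_⟩
  beta_reduce
  rw [intervalIntegral.integral_sub (h.mono hs.1 hs.2).1 (h'.mono hs.1 hs.2).1, h.2 s hs, h'.2 s hs]
  ring

theorem IDer.sum {ι : Type} (t : Finset ι) {Q q : ι → ℝ → ℝ} (h : ∀ i ∈ t, IDer S (Q i) (q i))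
    (hS : 0 ≤ S) : IDer S (fun s => ∑ i ∈ t, Q i s) fun s => ∑ i ∈ t, q i s := by
  classical
  induction t using Finset.induction_on with
  | empty => exact ⟨by simp, fun s _ => by simp⟩
  | insert a t ha ih =>
    simp only [Finset.sum_insert ha]
    exact (h a (Finset.mem_insert_self a t)).add
      (ih fun i hi => h i (Finset.mem_insert_of_mem hi)) hS

theorem DynIDer_ac {s : ℝ} (h : IntervalIntegrable q volume 0 s) (c : ℝ) :
    AbsolutelyContinuousOnInterval (fun x => c + ∫ σ in (0 : ℝ)..x, q σ) 0 s := by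
  have h1 : AbsolutelyContinuousOnInterval (fun _ : ℝ => c) 0 s :=
    (contDiffOn_const (n := 1)).absolutelyContinuousOnInterval
  exact h1.add (h.absolutelyContinuousOnInterval_intervalIntegral left_mem_uIcc)

theorem IDer.mul (h : IDer S Q q) (h' : IDer S P p) (hS : 0 ≤ S) :
    IDer S (fun s => Q s * P s) fun s => q s * P s + Q s * p s := by
  have hQ := h.contOn hS
  have hP := h'.contOn hS
  rw [← uIcc_of_le hS] at hQ hP
  refine ⟨(h.1.mul_continuousOn hP).add (h'.1.continuousOn_mul hQ), fun s hs => ?_⟩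
  have h1 := h.mono hs.1 hs.2
  have h2 := h'.mono hs.1 hs.2
  have a1 := DynIDer_ac h1.1 (Q 0)
  have a2 := DynIDer_ac h2.1 (P 0)
  have a3 := a1.integral_deriv_mul_eq_sub a2
  simp only [intervalIntegral.integral_same, add_zero] at a3
  rw [← h.2 s hs, ← h'.2 s hs] at a3
  have a4 : ∫ σ in (0 : ℝ)..s, (q σ * P σ + Q σ * p σ) =
      ∫ x in (0 : ℝ)..s, (deriv (fun x => Q 0 + ∫ σ in (0 : ℝ)..x, q σ) x *
        (P 0 + ∫ σ in (0 : ℝ)..x, p σ) + (Q 0 + ∫ σ in (0 : ℝ)..x, q σ) *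
          deriv (fun x => P 0 + ∫ σ in (0 : ℝ)..x, p σ) x) := by
    apply intervalIntegral.integral_congr_ae
    filter_upwards [h1.1.ae_hasDerivAt_integral, h2.1.ae_hasDerivAt_integral] with x b1 b2 hx
    have hx' : x ∈ uIcc 0 s := uIoc_subset_uIcc hx
    rw [((b1 hx' 0 left_mem_uIcc).const_add (Q 0)).deriv,
      ((b2 hx' 0 left_mem_uIcc).const_add (P 0)).deriv]
    rw [uIcc_of_le hs.1] at hx'
    rw [← h1.2 x hx', ← h2.2 x hx']
  rw [a4, a3]
  ring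

theorem IDer.of_deriv (hS : 0 ≤ S) (h : ∀ s, HasDerivAt Q (q s) s) (hq : Continuous q) :
    IDer S Q q := by
  refine ⟨hq.intervalIntegrable _ _, fun s _ => ?_⟩
  rw [intervalIntegral.integral_eq_sub_of_hasDerivAt (fun x _ => h x) (hq.intervalIntegrable _ _)]
  ring

theorem IDer.le_of_le (h : IDer S Q q) {s1 s2 b : ℝ} (h0 : 0 ≤ s1) (h1 : s1 ≤ s2) (h2 : s2 ≤ S)
    (hb : ∀ σ ∈ Ioo s1 s2, q σ ≤ b) : Q s2 ≤ Q s1 + b * (s2 - s1) := by
  have i1 := (h.mono h0 (h1.trans h2)).1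
  have i2 := (h.mono (h0.trans h1) h2).1
  have i3 : IntervalIntegrable q volume s1 s2 := i1.symm.trans i2
  have e := intervalIntegral.integral_add_adjacent_intervals i1 i3
  have m := intervalIntegral.integral_mono_on_of_le_Ioo h1 i3 (intervalIntegrable_const (c := b)) hb
  rw [intervalIntegral.integral_const, smul_eq_mul] at m
  rw [h.2 s2 ⟨h0.trans h1, h2⟩, h.2 s1 ⟨h0, h1.trans h2⟩]
  linarith

theorem IDer.barrier (h : IDer S Q q) {x : ℝ} (h0 : Q 0 ≤ x)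
    (hb : ∀ σ ∈ Icc 0 S, x ≤ Q σ → q σ ≤ 0) : ∀ s ∈ Icc 0 S, Q s ≤ x := by
  intro s hs
  have hS : 0 ≤ S := hs.1.trans hs.2
  have hc : ContinuousOn Q (Icc 0 s) := (h.contOn hS).mono (Icc_subset_Icc le_rfl hs.2)
  have hcl : IsClosed (Icc 0 s ∩ Q ⁻¹' Iic x) :=
    hc.preimage_isClosed_of_isClosed isClosed_Icc isClosed_Iic
  have hcp : IsCompact (Icc 0 s ∩ Q ⁻¹' Iic x) :=
    isCompact_Icc.of_isClosed_subset hcl inter_subset_left
  obtain ⟨s1, hs1, hmax⟩ := hcp.exists_isGreatest ⟨0, ⟨le_rfl, hs.1⟩, h0⟩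
  have := h.le_of_le (b := 0) hs1.1.1 hs1.1.2 hs.2 fun σ hσ => by
    refine hb σ ⟨hs1.1.1.trans hσ.1.le, hσ.2.le.trans hs.2⟩ ?_
    by_contra hlt
    exact absurd (hmax ⟨⟨hs1.1.1.trans hσ.1.le, hσ.2.le⟩, (not_le.1 hlt).le⟩) (not_le.2 hσ.1)
  have h2 : Q s1 ≤ x := hs1.2
  linarith

theorem riccati (C : ℝ) (hS : 0 ≤ S) {ε : ℝ} (hε : 0 < ε) : ∃ δ > 0, ∀ Z z : ℝ → ℝ, IDer S Z z →
    (∀ s ∈ Icc 0 S, 0 ≤ Z s ∧ z s ≤ C * (Z s + Z s ^ 2)) → Z 0 ≤ δ →
    ∀ s ∈ Icc 0 S, Z s ≤ ε := by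
  have hη : 0 < min ε (1 / 2) := lt_min hε (by norm_num)
  refine ⟨min ε (1 / 2) * Real.exp (-(2 * |C|) * S), by positivity, fun Z z hZ hz h0 => ?_⟩
  have hE : IDer S (fun s => Real.exp (-(2 * |C|) * s))
      fun s => Real.exp (-(2 * |C|) * s) * (-(2 * |C|)) := by
    refine IDer.of_deriv hS (fun s => ?_) (by fun_prop)
    have := ((hasDerivAt_id s).const_mul (-(2 * |C|))).exp
    simpa using this
  have hW := hE.mul hZ hS
  have key : ∀ t ∈ Icc 0 S, (∀ σ ∈ Ioo 0 t, Z σ ≤ 1) → Z t ≤ min ε (1 / 2) := by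
    intro t ht h1
    have h2 := hW.le_of_le (b := 0) le_rfl ht.1 ht.2 fun σ hσ => by
      obtain ⟨a1, a2⟩ := hz σ ⟨hσ.1.le, hσ.2.le.trans ht.2⟩
      have a3 := h1 σ hσ
      have a4 : C * (Z σ + Z σ ^ 2) ≤ |C| * (Z σ + Z σ ^ 2) :=
        mul_le_mul_of_nonneg_right (le_abs_self C) (by positivity)
      have a5 : |C| * (Z σ + Z σ ^ 2) ≤ |C| * (2 * Z σ) :=
        mul_le_mul_of_nonneg_left (by nlinarith) (abs_nonneg C)
      have a6 : 0 < Real.exp (-(2 * |C|) * σ) := Real.exp_pos _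
      have a7 : z σ - 2 * |C| * Z σ ≤ 0 := by linarith
      have a8 := mul_nonpos_of_nonneg_of_nonpos a6.le a7
      show Real.exp (-(2 * |C|) * σ) * (-(2 * |C|)) * Z σ + Real.exp (-(2 * |C|) * σ) * z σ ≤ 0
      linarith
    simp only [mul_zero, Real.exp_zero, one_mul, zero_mul, add_zero] at h2
    have h3 : Real.exp (-(2 * |C|) * S) ≤ Real.exp (-(2 * |C|) * t) := by
      apply Real.exp_le_exp.2
      have := abs_nonneg C
      nlinarith [ht.2]
    have h4 : Real.exp (-(2 * |C|) * t) * Z t ≤ Real.exp (-(2 * |C|) * t) * min ε (1 / 2) := by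
      have := mul_le_mul_of_nonneg_left h3 hη.le
      linarith
    exact le_of_mul_le_mul_left h4 (Real.exp_pos _)
  have hlt : ∀ σ ∈ Icc 0 S, Z σ ≤ 1 := by
    by_contra hcon
    push Not at hcon
    obtain ⟨σ0, hσ0, hgt⟩ := hcon
    have hcl : IsClosed (Icc 0 S ∩ Z ⁻¹' Ici 1) :=
      (hZ.contOn hS).preimage_isClosed_of_isClosed isClosed_Icc isClosed_Ici
    have hcp : IsCompact (Icc 0 S ∩ Z ⁻¹' Ici 1) :=
      isCompact_Icc.of_isClosed_subset hcl inter_subset_left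
    obtain ⟨t, ht, hmin⟩ := hcp.exists_isLeast ⟨σ0, hσ0, hgt.le⟩
    have h1 := key t ht.1 fun σ hσ => by
      by_contra hlt
      exact absurd (hmin ⟨⟨hσ.1.le, hσ.2.le.trans ht.1.2⟩, (not_le.1 hlt).le⟩) (not_le.2 hσ.2)
    have h2 : (1 : ℝ) ≤ Z t := ht.2
    have h3 : min ε (1 / 2) ≤ 1 / 2 := min_le_right _ _
    linarith
  intro s hs
  exact (key s hs fun σ hσ => hlt σ ⟨hσ.1.le, hσ.2.le.trans hs.2⟩).trans (min_le_left _ _)

end Pool.Agent.Work.MP_6bf1e5_an.H.Dyn
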