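import Pool.Agent.Work.MP_6bf1e5_an.H.DynCalc

/-!
Jointly smooth families.
Hints. JS.pd: on the slab (UniqueDiffOn: uniqueDiffOn_univ.prod (uniqueDiffOn_Icc hS)) one has
pd j (f s) y = fderivWithin ℝ F slab (y, s) (EuclideanSpace.single j 1, 0), by composing HasFDerivWithinAt with
y ↦ (y, s); then ContDiffOn.fderivWithin and ContDiffOn.congr. hasDerivAt_pd: at interior points F is ContDiffAt
on the open set univ ×ˢ Ioo 0 S; g y = fderiv ℝ F (y, s) (0, 1) by uniqueness of the derivative; use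
ContDiffAt.isSymmSndFDerivAt. chain: HasFDerivAt of F at the interior point composed with σ ↦ (c σ • y, τ σ);
split the vector (c' • y, τ') = (c' • y, 0) + τ' • (0, 1); the first part is fderiv of f t at c s • y.
-/

open scoped ContDiff ENNReal FourierTransform Real
open Set MeasureTheory

namespace Pool.Agent.Work.MP_6bf1e5_an.H.Dyn

variable {S : ℝ} {f g : ℝ → Sc}

theorem JS.smooth (h : JS S f) {s : ℝ} (hs : s ∈ Icc 0 S) : ContDiff ℝ ∞ (f s) :=
  ContDiffOn.comp_contDiff (f := fun y : R3 => (y, s)) h (by fun_prop) fun _ => ⟨mem_univ _, hs⟩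

theorem JS.const {w : Sc} (hw : ContDiff ℝ ∞ w) : JS S fun _ => w :=
  (hw.comp contDiff_fst).contDiffOn

theorem JS.add (h : JS S f) (h' : JS S g) : JS S fun s y => f s y + g s y := ContDiffOn.add h h'

theorem JS.sub (h : JS S f) (h' : JS S g) : JS S fun s y => f s y - g s y := ContDiffOn.sub h h'

theorem JS.mul (h : JS S f) (h' : JS S g) : JS S fun s y => f s y * g s y := ContDiffOn.mul h h'

theorem JS.cmul (h : JS S f) (c : ℝ) : JS S fun s y => c * f s y :=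
  ContDiffOn.mul contDiffOn_const h

theorem JS.sum {ι : Type} (t : Finset ι) {F : ι → ℝ → Sc} (h : ∀ i ∈ t, JS S (F i)) :
    JS S fun s y => ∑ i ∈ t, F i s y := ContDiffOn.sum h

theorem JS.congr (h : JS S f) (hg : ∀ s ∈ Icc 0 S, f s = g s) : JS S g :=
  ContDiffOn.congr h fun z hz => by rw [← hg z.2 hz.2]

theorem JS.pd (h : JS S f) (hS : 0 < S) (j : Fin 3) : JS S fun s => pd j (f s) := by
  have hu : UniqueDiffOn ℝ ((univ : Set R3) ×ˢ Icc (0 : ℝ) S) :=
    uniqueDiffOn_univ.prod (uniqueDiffOn_Icc hS)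
  have h1 : ContDiffOn ℝ ∞ (fderivWithin ℝ (fun z : R3 × ℝ => f z.2 z.1) (univ ×ˢ Icc 0 S))
      (univ ×ˢ Icc 0 S) := ContDiffOn.fderivWithin h hu (by simp)
  refine (h1.clm_apply (contDiffOn_const (c := (EuclideanSpace.single j 1, 0)))).congr
    fun z hz => ?_
  have hF := (ContDiffOn.differentiableOn h (by simp) z hz).hasFDerivWithinAt
  have h2 := HasFDerivWithinAt.comp z.1 (f := fun y : R3 => (y, z.2)) (s := univ) hF
    (hasFDerivAt_prodMk_left z.1 z.2).hasFDerivWithinAt fun _ _ => ⟨mem_univ _, hz.2⟩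
  rw [hasFDerivWithinAt_univ] at h2
  exact congrArg (fun L : R3 →L[ℝ] ℝ => L (EuclideanSpace.single j 1)) h2.fderiv

theorem JS.curl {V : ℝ → Vc} (h : ∀ i, JS S fun s => V s i) (hS : 0 < S) (i : Fin 3) :
    JS S fun s => curl (V s) i :=
  ((h (i + 2)).pd hS (i + 1)).sub ((h (i + 1)).pd hS (i + 2))

theorem JS.act (h : JS S f) (M : Matrix (Fin 3) (Fin 3) ℝ) :
    JS S fun s y => f s (act M y) := by
  have hM : ContDiff ℝ ∞ (H.act M) := by
    refine contDiff_euclidean.2 fun i => ?_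
    simp only [H.act]
    fun_prop
  exact ContDiffOn.comp (f := fun z : R3 × ℝ => (H.act M z.1, z.2)) h
    ((hM.comp contDiff_fst).prodMk contDiff_snd).contDiffOn fun z hz => ⟨mem_univ _, hz.2⟩

theorem JS.resc {T : ℝ} (h : JS T f) {a c τ : ℝ → ℝ} (ha : ContDiff ℝ ∞ a) (hc : ContDiff ℝ ∞ c)
    (hτ : ContDiff ℝ ∞ τ) (hm : ∀ s ∈ Icc 0 S, τ s ∈ Icc 0 T) :
    JS S fun s y => a s * f (τ s) (c s • y) :=
  ContDiffOn.mul (ha.comp contDiff_snd).contDiffOn
    (ContDiffOn.comp (f := fun z : R3 × ℝ => (c z.2 • z.1, τ z.2)) h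
      (((hc.comp contDiff_snd).smul contDiff_fst).prodMk (hτ.comp contDiff_snd)).contDiffOn
      fun z hz => ⟨mem_univ _, hm z.2 hz.2⟩)

theorem DynJS_at (h : JS S f) {s : ℝ} (hs : s ∈ Ioo 0 S) (y : R3) :
    ContDiffAt ℝ ∞ (fun z : R3 × ℝ => f z.2 z.1) (y, s) :=
  ContDiffOn.contDiffAt h (prod_mem_nhds Filter.univ_mem (Icc_mem_nhds hs.1 hs.2))

theorem DynJS_time (y : R3) (s : ℝ) : HasDerivAt (fun σ : ℝ => (y, σ)) ((0 : R3), (1 : ℝ)) s :=
  (hasDerivAt_const s y).prodMk (hasDerivAt_id s)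

theorem DynJS_w (h : JS S f) {s : ℝ} (hs : s ∈ Ioo 0 S) {w : Sc}
    (hw : ∀ y, HasDerivAt (fun σ => f σ y) (w y) s) :
    w = fun y => fderiv ℝ (fun z : R3 × ℝ => f z.2 z.1) (y, s) (0, 1) := by
  funext y
  have hF := ((DynJS_at h hs y).differentiableAt (by simp)).hasFDerivAt
  exact (hw y).unique (HasFDerivAt.comp_hasDerivAt s (f := fun σ : ℝ => (y, σ)) hF (DynJS_time y s))

theorem DynJS_fd (h : JS S f) {s : ℝ} (hs : s ∈ Ioo 0 S) (y v : R3) :
    fderiv ℝ (f s) y v = fderiv ℝ (fun z : R3 × ℝ => f z.2 z.1) (y, s) (v, 0) := by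
  have hF := ((DynJS_at h hs y).differentiableAt (by simp)).hasFDerivAt
  have h2 := HasFDerivAt.comp y (f := fun y : R3 => (y, s)) hF (hasFDerivAt_prodMk_left y s)
  exact congrArg (fun L : R3 →L[ℝ] ℝ => L v) h2.fderiv

theorem JS.hasDerivAt_pd (h : JS S f) {s : ℝ} (hs : s ∈ Ioo 0 S) {w : Sc}
    (hw : ∀ y, HasDerivAt (fun σ => f σ y) (w y) s) (j : Fin 3) (y : R3) :
    HasDerivAt (fun σ => H.pd j (f σ) y) (H.pd j w y) s := by
  have hF := DynJS_at h hs y
  have hG : HasFDerivAt (fderiv ℝ fun z : R3 × ℝ => f z.2 z.1)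
      (fderiv ℝ (fderiv ℝ fun z : R3 × ℝ => f z.2 z.1) (y, s)) (y, s) :=
    ((hF.fderiv_right (m := ∞) (by simp)).differentiableAt (by simp)).hasFDerivAt
  have h1 := (HasFDerivAt.comp_hasDerivAt s (f := fun σ : ℝ => (y, σ)) hG
    (DynJS_time y s)).clm_apply (hasDerivAt_const s (EuclideanSpace.single j (1 : ℝ), (0 : ℝ)))
  have h2 := (HasFDerivAt.comp y (f := fun y : R3 => (y, s)) hG
    (hasFDerivAt_prodMk_left y s)).clm_apply (hasFDerivAt_const ((0 : R3), (1 : ℝ)) y)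
  have h3 : H.pd j w y = fderiv ℝ (fderiv ℝ fun z : R3 × ℝ => f z.2 z.1) (y, s)
      (EuclideanSpace.single j 1, 0) (0, 1) := by
    rw [DynJS_w h hs hw]
    refine (congrArg (fun L : R3 →L[ℝ] ℝ => L (EuclideanSpace.single j 1)) h2.fderiv).trans ?_
    simp
  rw [h3, (hF.isSymmSndFDerivAt
    (by rw [minSmoothness_of_isRCLikeNormedField]; exact WithTop.coe_le_coe.2 le_top)).eq]
  refine (h1.congr_of_eventuallyEq ?_).congr_deriv (by simp)
  filter_upwards [Ioo_mem_nhds hs.1 hs.2] with σ hσ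
  exact DynJS_fd h hσ y _

theorem JS.deriv_smooth (h : JS S f) {s : ℝ} (hs : s ∈ Ioo 0 S) {w : Sc}
    (hw : ∀ y, HasDerivAt (fun σ => f σ y) (w y) s) : ContDiff ℝ ∞ w := by
  rw [DynJS_w h hs hw, contDiff_iff_contDiffAt]
  intro y
  exact (ContDiffAt.comp y (f := fun y : R3 => (y, s))
    ((DynJS_at h hs y).fderiv_right (m := ∞) (by simp)) (by fun_prop)).clm_apply contDiffAt_const

theorem JS.chain (h : JS S f) {c τ : ℝ → ℝ} {s c' τ' : ℝ} (hc : HasDerivAt c c' s)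
    (hτ : HasDerivAt τ τ' s) (hs : τ s ∈ Ioo 0 S) {w : Sc}
    (hw : ∀ y, HasDerivAt (fun σ => f σ y) (w y) (τ s)) (y : R3) :
    HasDerivAt (fun σ => f (τ σ) (c σ • y))
      (c' * fderiv ℝ (f (τ s)) (c s • y) y + τ' * w (c s • y)) s := by
  have hF := ((DynJS_at h hs (c s • y)).differentiableAt (by simp)).hasFDerivAt
  have h1 := HasFDerivAt.comp_hasDerivAt s (f := fun σ : ℝ => (c σ • y, τ σ)) hF
    ((hc.smul_const y).prodMk hτ)
  refine HasDerivAt.congr_deriv h1 ?_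
  rw [DynJS_fd h hs, DynJS_w h hs hw, ← smul_eq_mul c', ← smul_eq_mul τ', ← map_smul, ← map_smul,
    ← map_add]
  simp

end Pool.Agent.Work.MP_6bf1e5_an.H.Dyn
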