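import Pool.Agent.Work.MP_6bf1e5_an.H.DynJS
import Pool.Agent.Work.MP_6bf1e5_an.H.DynUB

/-!
Solutions in the physical variables: from FSol, rotation, vorticity equation.
Hints. psol: FSol.bounds; its second part is stated for Dp s, use s = 0 after proving Dp 0 f = f for Hinf f
(RepA.Dp, Real.rpow_zero; f x is real); derivWithin at an interior time is the derivative (DifferentiableWithinAt
from smooth_u, Icc_mem_nhds). rot: pd_act, pd_sum, Dp_act, Dp_add, Dp_smul, and both Mᵀ M = 1 and M Mᵀ = 1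
(mul_eq_one_comm); the pressure is p (act M y). vort: JS.hasDerivAt_pd for the two components, then
curl_adv, curl_grad, curl_lam.
-/

open scoped ContDiff ENNReal FourierTransform Real
open Set MeasureTheory

namespace Pool.Agent.Work.MP_6bf1e5_an.H.Dyn

variable {ν T : ℝ} {u : ℝ → Vc} {p : ℝ → Sc}

theorem DynPS_dot {M : Matrix (Fin 3) (Fin 3) ℝ} (hM : M.transpose * M = 1) (a b : Fin 3 → ℝ) :
    ∑ m, (∑ l, M l m * a l) * ∑ k, M k m * b k = ∑ k, a k * b k := by
  have h := mul_eq_one_comm.1 hM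
  have e : ∀ j k, ∑ i, M j i * M k i = if j = k then 1 else 0 := fun j k => by
    have := congrFun (congrFun h j) k
    rwa [Matrix.mul_apply, Matrix.one_apply] at this
  have e00 := e 0 0
  have e01 := e 0 1
  have e02 := e 0 2
  have e11 := e 1 1
  have e12 := e 1 2
  have e22 := e 2 2
  simp only [Fin.sum_univ_three, Fin.isValue, Fin.reduceEq, if_true, if_false] at *
  linear_combination a 0 * b 0 * e00 + (a 0 * b 1 + a 1 * b 0) * e01
    + (a 0 * b 2 + a 2 * b 0) * e02 + a 1 * b 1 * e11 + (a 1 * b 2 + a 2 * b 1) * e12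
    + a 2 * b 2 * e22

theorem DynPS_lam_sum {F : Vc} (hF : ∀ j, Hinf (F j)) (c : Fin 3 → ℝ) :
    Lam (fun y => ∑ j, c j * F j y) = fun y => ∑ j, c j * Lam (F j) y := by
  have hs : (0 : ℝ) ≤ 3 / 2 := by norm_num
  have h := fun j => hinf_cmul (hF j) (c j)
  have e : (fun y => ∑ j, c j * F j y)
      = (fun y => c 0 * F 0 y) + (fun y => c 1 * F 1 y) + fun y => c 2 * F 2 y := by
    funext y
    simp only [Fin.sum_univ_three, Pi.add_apply]
  unfold Lam
  rw [e, Dp_add ((h 0).add (h 1)).inA (h 2).inA hs, Dp_add (h 0).inA (h 1).inA hs,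
    Dp_smul (hF 0).inA hs, Dp_smul (hF 1).inA hs, Dp_smul (hF 2).inA hs]
  funext y
  simp only [Fin.sum_univ_three, Pi.add_apply]

theorem DynPS_pd_rot (M : Matrix (Fin 3) (Fin 3) ℝ) {V : Vc} (hV : ∀ i, ContDiff ℝ ∞ (V i))
    (m i : Fin 3) (y : R3) :
    pd m (rot M V i) y = ∑ j, M j i * ∑ k, M k m * pd k (V j) (act M y) := by
  have h : ∀ j, ContDiff ℝ ∞ fun y => V j (act M y) := fun j => (hV j).comp (act_smooth M)
  have e := pd_sum Finset.univ (F := fun j y => M j i * V j (act M y))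
    (fun j _ => contDiff_const.mul (h j)) m
  refine (congrFun e y).trans (Finset.sum_congr rfl fun j _ => ?_)
  rw [pd_cmul (h j), pd_act (hV j)]

theorem dp_zero {f : Sc} (hf : Hinf f) : Dp 0 f = f := by
  obtain ⟨F, hF⟩ := hf.exists_rep
  funext x
  have h1 := (hF.1.Dp le_rfl).2 x
  simp only [sy, Real.rpow_zero, Complex.ofReal_one, one_mul] at h1
  exact Complex.ofReal_injective (h1.trans (hF.1.2 x).symm)

theorem psol_of_fsol {u0 : R3 → R3} {w : R3 → ℝ → R3} {q : R3 → ℝ → ℝ} {U : ℝ → Fin 3 → R3 → ℂ}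
    (h : FSol (3 / 4) ν u0 T w q U) : PSol ν T (fun t i y => w y t i) fun t y => q y t := by
  obtain ⟨h1, h2, h3⟩ := h.bounds
  have js : ∀ i, JS T fun t y => w y t i := fun i => contDiffOn_euclidean.1 h.smooth_u i
  refine ⟨js, fun t ht => JS.smooth (f := fun t y => q y t) h.smooth_p ht,
    fun i => ⟨fun s hs => h1 s hs i, fun l => ?_⟩, fun t ht y => h.divFree y t ht,
    fun t ht i y => ?_⟩
  · obtain ⟨C, hC⟩ := h2 l 0 le_rfl
    refine ⟨C, fun s hs => ?_⟩
    have := (hC s hs i).1
    rwa [dp_zero (h1 s hs i)] at this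
  · have ht' := Ioo_subset_Icc_self ht
    have hc : ContDiffOn ℝ ∞ (fun s => w y s i) (Icc 0 T) :=
      ContDiffOn.comp (f := fun s : ℝ => (y, s)) (js i) (by fun_prop)
        fun s hs => ⟨mem_univ _, hs⟩
    have hd := ((hc.differentiableOn (by simp) t ht').hasDerivWithinAt).hasDerivAt
      (Icc_mem_nhds ht.1 ht.2)
    have := h3 y t ht' i
    exact hd.congr_deriv (by linarith)

theorem lam_rot {M : Matrix (Fin 3) (Fin 3) ℝ} (hM : M.transpose * M = 1) {V : Vc}
    (hV : ∀ i, Hinf (V i)) (i : Fin 3) : Lam (rot M V i) = rot M (LamV V) i := by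
  refine (DynPS_lam_sum (F := fun j y => V j (act M y)) (fun j => hinf_act hM (hV j))
    fun j => M j i).trans (funext fun y => Finset.sum_congr rfl fun j _ => ?_)
  unfold LamV Lam
  rw [Dp_act (hV j).inA (by norm_num) hM]

theorem PSol.rot (h : PSol ν T u p) {M : Matrix (Fin 3) (Fin 3) ℝ} (hM : M.transpose * M = 1) :
    PSol ν T (fun t => rot M (u t)) fun t y => p t (act M y) := by
  have hu : ∀ t ∈ Icc 0 T, ∀ i, Hinf (u t i) := fun t ht i => (h.ub i).1 t ht
  refine ⟨fun i => JS.sum Finset.univ (F := fun j t y => M j i * u t j (act M y))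
      fun j _ => ((h.js j).act M).cmul (M j i),
    fun t ht => (h.sp t ht).comp (act_smooth M),
    fun i => UB.sum Finset.univ (F := fun j t y => M j i * u t j (act M y))
      fun j _ => ((h.ub j).act hM).cmul (M j i), fun t ht y => ?_, fun t ht i y => ?_⟩
  · have hd := h.dv t ht (act M y)
    have e := fun j => DynPS_dot hM (Pi.single j 1) fun k => pd k (u t j) (act M y)
    have e0 := e 0
    have e1 := e 1
    have e2 := e 2
    unfold dvg at hd ⊢
    simp only [DynPS_pd_rot M fun i => (hu t ht i).1]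
    simp only [Fin.sum_univ_three, Pi.single_apply, Fin.isValue, Fin.reduceEq, if_true, if_false,
      mul_one, mul_zero, one_mul, zero_mul, add_zero, zero_add] at hd e0 e1 e2 ⊢
    linear_combination hd + e0 + e1 + e2
  · have ht' := Ioo_subset_Icc_self ht
    have hd := HasDerivAt.fun_sum (u := Finset.univ)
      fun j _ => (h.eq t ht j (act M y)).const_mul (M j i)
    refine hd.congr_deriv (Eq.symm ?_)
    have e := fun j => DynPS_dot hM (fun k => u t k (act M y)) fun k => pd k (u t j) (act M y)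
    have e0 := e 0
    have e1 := e 1
    have e2 := e 2
    rw [lam_rot hM (hu t ht'), pd_act (h.sp t ht')]
    simp only [DynPS_pd_rot M fun i => (hu t ht' i).1]
    simp only [Dyn.rot, LamV, Fin.sum_univ_three] at e0 e1 e2 ⊢
    linear_combination (-M 0 i) * e0 - M 1 i * e1 - M 2 i * e2

theorem PSol.vort (h : PSol ν T u p) {t : ℝ} (ht : t ∈ Ioo 0 T) (i : Fin 3) (y : R3) :
    HasDerivAt (fun τ => curl (u τ) i y) (GG ν (u t) i y) t := by
  have ht' := Ioo_subset_Icc_self ht
  have hu : ∀ i, Hinf (u t i) := fun i => (h.ub i).1 t ht'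
  have h1 := fun k j => (h.js k).hasDerivAt_pd ht (h.eq t ht k) j y
  have hA : ∀ k, ContDiff ℝ ∞ fun z => -∑ j, u t j z * pd j (u t k) z := fun k =>
    (ContDiff.sum fun j _ => (hu j).1.mul (pd_smooth (hu k).1 j)).neg
  have hP : ∀ k, ContDiff ℝ ∞ (pd k (p t)) := pd_smooth (h.sp t ht')
  have hL : ∀ k, ContDiff ℝ ∞ (Lam (u t k)) := fun k => (hinf_lam (hu k)).1
  have e : ∀ k j, pd j (fun z => -(∑ j, u t j z * pd j (u t k) z) - pd k (p t) z
      - ν * Lam (u t k) z) y = pd j (fun z => -∑ j, u t j z * pd j (u t k) z) y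
      - pd j (pd k (p t)) y - ν * pd j (Lam (u t k)) y := fun k j => by
    rw [pd_sub ((hA k).sub (hP k)) (contDiff_const.mul (hL k)), pd_sub (hA k) (hP k),
      pd_cmul (hL k)]
  simp only [e] at h1
  refine ((h1 (i + 2) (i + 1)).sub (h1 (i + 1) (i + 2))).congr_deriv (Eq.symm ?_)
  have a1 := curl_adv (fun k => (hu k).1) i y
  have a2 := curl_grad (h.sp t ht') i y
  have a3 := congrFun (curl_lam hu i) y
  unfold GG
  rw [← a1, ← a3]
  simp only [curl, grad, LamV] at a2 ⊢
  linear_combination a2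

theorem rot_eq_iff {M : Matrix (Fin 3) (Fin 3) ℝ} (hM : M.transpose * M = 1) (V : Vc) :
    rot M V = V ↔ EqM M V := by
  have key : ∀ v w : Fin 3 → ℝ, M.transpose.mulVec v = w ↔ v = M.mulVec w := fun v w =>
    ⟨fun h => by rw [← h, Matrix.mulVec_mulVec, mul_eq_one_comm.1 hM, Matrix.one_mulVec],
      fun h => by rw [h, Matrix.mulVec_mulVec, hM, Matrix.one_mulVec]⟩
  refine ⟨fun h y i => congrFun ((key (fun k => V k (act M y)) fun k => V k y).1
    (funext fun k => congrFun (congrFun h k) y)) i, fun h => funext fun i => funext fun y => ?_⟩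
  exact congrFun ((key (fun k => V k (act M y)) fun k => V k y).2 (funext fun k => h y k)) i

theorem rotM_orth (θ : ℝ) : (rotM θ).transpose * rotM θ = 1 := by
  have := Real.sin_sq_add_cos_sq θ
  ext i j
  fin_cases i <;> fin_cases j <;> simp [rotM, Matrix.mul_apply, Fin.sum_univ_three] <;> linarith

theorem flpM_orth : flpM.transpose * flpM = 1 := by
  ext i j
  fin_cases i <;> fin_cases j <;> simp [flpM, Matrix.mul_apply, Fin.sum_univ_three]

end Pool.Agent.Work.MP_6bf1e5_an.H.Dyn
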