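import Pool.Agent.Work.MP_6bf1e5_an.H.DynPS

/-!
Solutions in the self-similar variables.
Hints. With a = exp (-(s / 3)), c = exp (-(2 / 3 * s)): a * c = exp (-s), curl (resc u s) i y =
exp (-s) * curl (u t) i (c • y) (pd_cmul, pd_scale), and GG ν (resc u s) i y = exp (-s) ^ 2 * GG ν (u t) i (c • y)
(Dp_scale, Dp_smul, c ^ (3/2) = exp (-s)). The time derivative: JS.chain for the family curl (u t) i with
PSol.vort, yd_eq; note fderiv (fun y => g (c • y)) y y = c * fderiv g (c • y) y. evo: B + (V s - B) = V s,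
curl_sub, yd_sub; yd (curl B i) has compact support (hinf_of_supp).
-/

open scoped ContDiff ENNReal FourierTransform Real
open Set MeasureTheory

namespace Pool.Agent.Work.MP_6bf1e5_an.H.Dyn

variable {ν S : ℝ} {u V V' : ℝ → Vc} {p : ℝ → Sc}

theorem DynRS_curl_sc {W : Vc} (hW : ∀ i, ContDiff ℝ ∞ (W i)) (a c : ℝ) (i : Fin 3) :
    curl (fun k y => a * W k (c • y)) i = fun y => a * c * curl W i (c • y) := by
  have sc : ∀ k, ContDiff ℝ ∞ fun y : R3 => W k (c • y) := fun k =>
    (hW k).comp (contDiff_const_smul c)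
  funext y
  simp only [curl]
  rw [pd_cmul (sc _), pd_cmul (sc _), pd_scale (hW _), pd_scale (hW _)]
  ring

theorem DynRS_ac (s : ℝ) : Real.exp (-(s / 3)) * Real.exp (-(2 / 3 * s)) = Real.exp (-s) := by
  rw [← Real.exp_add]
  congr 1
  ring

theorem DynRS_mem {s : ℝ} (hs : 0 ≤ s) : 1 - Real.exp (-s) ∈ Icc (0 : ℝ) 1 := by
  have h1 : Real.exp (-s) ≤ 1 := Real.exp_le_one_iff.2 (by linarith)
  have h2 := Real.exp_pos (-s)
  constructor <;> linarith

theorem DynRS_memo {s : ℝ} (hs : 0 < s) : 1 - Real.exp (-s) ∈ Ioo (0 : ℝ) 1 := by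
  have h1 : Real.exp (-s) < 1 := Real.exp_lt_one_iff.2 (by linarith)
  have h2 := Real.exp_pos (-s)
  constructor <;> linarith

theorem resc_zero (u : ℝ → Vc) : resc u 0 = u 0 := by
  funext i y
  simp [resc]

theorem resc_rot (M : Matrix (Fin 3) (Fin 3) ℝ) (u : ℝ → Vc) (s : ℝ) :
    resc (fun t => rot M (u t)) s = rot M (resc u s) := by
  funext i y
  simp only [resc, rot, act_smul, Finset.mul_sum]
  refine Finset.sum_congr rfl fun j _ => ?_
  ring

theorem curl_resc {s : ℝ} (h : ∀ i, ContDiff ℝ ∞ (u (1 - Real.exp (-s)) i)) (i : Fin 3) :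
    curl (resc u s) i = fun y =>
      Real.exp (-s) * curl (u (1 - Real.exp (-s))) i (Real.exp (-(2 / 3 * s)) • y) := by
  rw [← DynRS_ac s]
  have := DynRS_curl_sc h (Real.exp (-(s / 3))) (Real.exp (-(2 / 3 * s))) i
  rw [DynRS_ac s] at this ⊢
  exact this

theorem GG_resc {s : ℝ} (h : ∀ i, Hinf (u (1 - Real.exp (-s)) i)) (i : Fin 3) (y : R3) :
    GG ν (resc u s) i y =
      Real.exp (-s) ^ 2 * GG ν (u (1 - Real.exp (-s))) i (Real.exp (-(2 / 3 * s)) • y) := by
  have hs : ∀ i, ContDiff ℝ ∞ (u (1 - Real.exp (-s)) i) := fun i => (h i).1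
  have hc : 0 < Real.exp (-(2 / 3 * s)) := Real.exp_pos _
  have e1 : curl (resc u s) = fun i y =>
      Real.exp (-s) * curl (u (1 - Real.exp (-s))) i (Real.exp (-(2 / 3 * s)) • y) :=
    funext (curl_resc hs)
  have e2 : cross (resc u s) (curl (resc u s)) = fun i y =>
      (Real.exp (-(s / 3)) * Real.exp (-s)) *
        cross (u (1 - Real.exp (-s))) (curl (u (1 - Real.exp (-s)))) i
          (Real.exp (-(2 / 3 * s)) • y) := by
    rw [e1]
    funext i y
    simp only [cross, resc]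
    ring
  have hx : ∀ i, ContDiff ℝ ∞
      (cross (u (1 - Real.exp (-s))) (curl (u (1 - Real.exp (-s)))) i) := fun i =>
    ((hs _).mul (curl_smooth hs _)).sub ((hs _).mul (curl_smooth hs _))
  have hw := hinf_curl h i
  have e3 : Real.exp (-(2 / 3 * s)) ^ (3 / 2 : ℝ) = Real.exp (-s) := by
    rw [← Real.exp_mul]
    congr 1
    ring
  simp only [GG]
  rw [e2, DynRS_curl_sc hx, curl_resc hs]
  unfold Lam
  rw [Dp_smul (hinf_scale hw hc).inA (by norm_num), Dp_scale hw.inA (by norm_num) hc, e3]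
  have e4 := DynRS_ac s
  simp only []
  rw [mul_right_comm (Real.exp (-(s / 3))), e4]
  ring

theorem DynRS_yd_sc {g : Sc} (hg : ContDiff ℝ ∞ g) (e c : ℝ) (y : R3) :
    yd (fun z => e * g (c • z)) y = e * (c * fderiv ℝ g (c • y) y) := by
  have sc : ContDiff ℝ ∞ fun y : R3 => g (c • y) := hg.comp (contDiff_const_smul c)
  have h1 := yd_eq hg (c • y)
  rw [map_smul, smul_eq_mul] at h1
  rw [← h1]
  simp only [yd, pd_cmul sc, pd_scale hg, Finset.mul_sum]
  refine Finset.sum_congr rfl fun j _ => ?_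
  simp only [PiLp.smul_apply, smul_eq_mul]
  ring

theorem PSol.rsol (h : PSol ν 1 u p) (hS : 0 < S) : RSol ν S (resc u) := by
  have hm : ∀ s ∈ Icc 0 S, 1 - Real.exp (-s) ∈ Icc (0 : ℝ) 1 := fun s hs => DynRS_mem hs.1
  have hh : ∀ s, 0 ≤ s → ∀ i, Hinf (u (1 - Real.exp (-s)) i) := fun s hs i =>
    (h.ub i).1 _ (DynRS_mem hs)
  refine ⟨fun i => ?_, fun i => ?_, fun s hs y => ?_, fun s hs i y => ?_⟩
  · exact JS.resc (h.js i) (a := fun s => Real.exp (-(s / 3)))
      (c := fun s => Real.exp (-(2 / 3 * s))) (τ := fun s => 1 - Real.exp (-s))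
      (by fun_prop) (by fun_prop) (by fun_prop) hm
  · exact UB.resc (h.ub i) (a := fun s => Real.exp (-(s / 3)))
      (c := fun s => Real.exp (-(2 / 3 * s))) (τ := fun s => 1 - Real.exp (-s))
      (by fun_prop) (by fun_prop) (fun _ => Real.exp_pos _) hm
  · have hs' : ∀ i, ContDiff ℝ ∞ (u (1 - Real.exp (-s)) i) := fun i => (hh s hs.1 i).1
    have sc : ∀ k, ContDiff ℝ ∞ fun y : R3 =>
        u (1 - Real.exp (-s)) k (Real.exp (-(2 / 3 * s)) • y) := fun k =>
      (hs' k).comp (contDiff_const_smul _)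
    have hd := h.dv _ (hm s hs) (Real.exp (-(2 / 3 * s)) • y)
    have key : ∀ k, pd k (resc u s k) y = Real.exp (-(s / 3)) * (Real.exp (-(2 / 3 * s)) *
        pd k (u (1 - Real.exp (-s)) k) (Real.exp (-(2 / 3 * s)) • y)) := by
      intro k
      unfold resc
      rw [pd_cmul (sc k), pd_scale (hs' k)]
    simp only [dvg] at hd ⊢
    simp only [key, ← Finset.mul_sum, hd, mul_zero]
  · have hs' : ∀ i, ContDiff ℝ ∞ (u (1 - Real.exp (-s)) i) := fun i => (hh s hs.1.le i).1
    have de : HasDerivAt (fun σ => Real.exp (-σ)) (-Real.exp (-s)) s := by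
      simpa using (hasDerivAt_neg s).exp
    have dτ : HasDerivAt (fun σ => 1 - Real.exp (-σ)) (Real.exp (-s)) s := by
      simpa using de.const_sub 1
    have dc : HasDerivAt (fun σ => Real.exp (-(2 / 3 * σ)))
        (Real.exp (-(2 / 3 * s)) * -(2 / 3)) s := by
      simpa using (((hasDerivAt_id s).const_mul (2 / 3 : ℝ)).neg).exp
    have hc := JS.chain (JS.curl h.js one_pos i) dc dτ (DynRS_memo hs.1)
      (fun z => h.vort (DynRS_memo hs.1) i z) y
    have hp := de.mul hc
    have ev : (fun σ => curl (resc u σ) i y) =ᶠ[nhds s] fun σ => Real.exp (-σ) *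
        curl (u (1 - Real.exp (-σ))) i (Real.exp (-(2 / 3 * σ)) • y) := by
      filter_upwards [Ioi_mem_nhds hs.1] with σ hσ
      rw [curl_resc fun i => (hh σ (le_of_lt hσ) i).1]
    refine (hp.congr_of_eventuallyEq ev).congr_deriv ?_
    rw [GG_resc (hh s hs.1.le), curl_resc hs', DynRS_yd_sc (curl_smooth hs' i)]
    ring

theorem PSol.decay (h : PSol ν 1 u p) :
    ∃ C, ∀ s ≥ 0, ∀ i y, |curl (resc u s) i y| ≤ C * Real.exp (-s) := by
  choose C hC using fun i => (UB.curl h.ub i).sup []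
  refine ⟨∑ i, |C i|, fun s hs i y => ?_⟩
  have hm := DynRS_mem hs
  rw [curl_resc fun i => ((h.ub i).1 _ hm).1]
  simp only []
  rw [abs_mul, abs_of_pos (Real.exp_pos _), mul_comm]
  refine mul_le_mul_of_nonneg_right ?_ (Real.exp_pos _).le
  exact (hC i _ hm _).trans ((le_abs_self _).trans
    (Finset.single_le_sum (f := fun i => |C i|) (fun _ _ => abs_nonneg _) (Finset.mem_univ i)))

theorem bg_hinf {B : Vc} (hB : Bg B) (i : Fin 3) : Hinf (B i) :=
  hinf_of_supp (hB.smooth i) (hB.supp i)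

theorem DynRS_supp_pd {f : Sc} (h : HasCompactSupport f) (j : Fin 3) :
    HasCompactSupport (pd j f) := h.fderiv_apply (𝕜 := ℝ) _

theorem DynRS_hinf_yd {B : Vc} (hB : Bg B) (i : Fin 3) : Hinf (yd (curl B i)) := by
  have h1 : HasCompactSupport (curl B i) :=
    (DynRS_supp_pd (hB.supp (i + 2)) (i + 1)).sub (DynRS_supp_pd (hB.supp (i + 1)) (i + 2))
  have h2 := curl_smooth hB.smooth i
  unfold yd
  refine hinf_sum _ fun j _ => hinf_of_supp ((coord_smooth j).mul (pd_smooth h2 j)) ?_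
  exact (DynRS_supp_pd h1 j).mul_left

theorem RSol.evo (h : RSol ν S V) (hS : 0 < S) {B : Vc} (hB : Bg B) :
    EvoV S (fun s => curl (V s - B)) fun s => NN ν B (V s - B) := by
  intro i
  have hN : ∀ s, NN ν B (V s - B) i =
      fun y => GG ν (V s) i y - curl B i y - 2 / 3 * yd (curl B i) y := by
    intro s
    funext y
    simp only [NN, GG, add_sub_cancel]
  have hc : ∀ s ∈ Icc 0 S, curl (V s - B) i = fun y => curl (V s) i y - curl B i y := by
    intro s hs
    rw [curl_sub (fun k => (h.js k).smooth hs) hB.smooth]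
    rfl
  refine ⟨JS.curl (V := fun s => V s - B) (fun k => (h.js k).sub (JS.const (hB.smooth k))) hS i,
    UB.curl (V := fun s => V s - B) (fun k => (h.ub k).sub (UB.const (bg_hinf hB k))) i, ?_,
    fun s hs y => ?_⟩
  · simp only [hN]
    exact ((UB.GG ν h.ub i).sub (UB.const (hinf_curl (bg_hinf hB) i))).sub
      ((UB.const (DynRS_hinf_yd hB i)).cmul _)
  · have hs' : s ∈ Icc 0 S := Ioo_subset_Icc_self hs
    have ev : (fun σ => curl (V σ - B) i y) =ᶠ[nhds s] fun σ => curl (V σ) i y - curl B i y := by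
      filter_upwards [Icc_mem_nhds hs.1 hs.2] with σ hσ
      rw [hc σ hσ]
    refine (((h.eq s hs i y).sub_const (curl B i y)).congr_of_eventuallyEq ev).congr_deriv ?_
    simp only [hN]
    rw [hc s hs', yd_sub (curl_smooth (fun k => (h.js k).smooth hs') i) (curl_smooth hB.smooth i)]
    ring

theorem RSol.evo_diff (h : RSol ν S V) (h' : RSol ν S V') (hS : 0 < S) :
    EvoV S (fun s => curl (V' s - V s)) fun s => GG ν (V' s) - GG ν (V s) := by
  intro i
  have hc : ∀ s ∈ Icc 0 S, curl (V' s - V s) i = fun y => curl (V' s) i y - curl (V s) i y := by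
    intro s hs
    rw [curl_sub (fun k => (h'.js k).smooth hs) fun k => (h.js k).smooth hs]
    rfl
  refine ⟨JS.curl (V := fun s => V' s - V s) (fun k => (h'.js k).sub (h.js k)) hS i,
    UB.curl (V := fun s => V' s - V s) (fun k => (h'.ub k).sub (h.ub k)) i,
    (UB.GG ν h'.ub i).sub (UB.GG ν h.ub i), fun s hs y => ?_⟩
  have hs' : s ∈ Icc 0 S := Ioo_subset_Icc_self hs
  have ev : (fun σ => curl (V' σ - V σ) i y) =ᶠ[nhds s]
      fun σ => curl (V' σ) i y - curl (V σ) i y := by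
    filter_upwards [Icc_mem_nhds hs.1 hs.2] with σ hσ
    rw [hc σ hσ]
  refine (((h'.eq s hs i y).sub (h.eq s hs i y)).congr_of_eventuallyEq ev).congr_deriv ?_
  beta_reduce
  rw [hc s hs', yd_sub (curl_smooth (fun k => (h'.js k).smooth hs') i)
    (curl_smooth (fun k => (h.js k).smooth hs') i)]
  simp only [Pi.sub_apply]
  ring

end Pool.Agent.Work.MP_6bf1e5_an.H.Dyn
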