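import Pool.Agent.Work.MP_6bf1e5_an.H.DynCalc

/-!
Scaling in the viscosity.
Hints. If (u, p, U) solves with viscosity ν' on [0, T * ν / ν'] and a = ν / ν', then a • u x (a * t),
a ^ 2 * p x (a * t), a * U (a * t) solve with viscosity ν on [0, T] (fsol_scale; derivWithin of
s ↦ g (a * s) on Icc 0 T: if T ≤ 0 the interval is empty or a point and derivWithin vanishes,
derivWithin_zero_of_not_uniqueDiffWithinAt or a direct argument; otherwise HasDerivWithinAt.comp and
uniqueDiffOn_Icc). For blow_scale take the datum a⁻¹ • u0.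
-/

open scoped ContDiff ENNReal FourierTransform Real
open Set MeasureTheory

namespace Pool.Agent.Work.MP_6bf1e5_an.H.Dyn

theorem DynSc_pd (c : ℝ) (f : Sc) (j : Fin 3) (x : R3) :
    pd j (fun y => c * f y) x = c * pd j f x := by
  have : (fun y => c * f y) = c • f := rfl
  rw [pd, this, fderiv_const_smul_field]
  rfl

theorem DynSc_inv (c : ℂ) (F : R3 → ℂ) (x : R3) : 𝓕⁻ (fun ξ => c * F ξ) x = c * 𝓕⁻ F x := by
  simp only [Real.fourierInv_eq, ← integral_const_mul, Circle.smul_def, smul_eq_mul]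
  exact integral_congr_ae (Filter.Eventually.of_forall fun ξ => by ring)

theorem fsol_scale {α ν T a : ℝ} (ha : 0 < a) {u0 : R3 → R3} {u : R3 → ℝ → R3} {p : R3 → ℝ → ℝ}
    {U : ℝ → Fin 3 → R3 → ℂ} (h : FSol α ν u0 (T * a) u p U) :
    FSol α (a * ν) (fun x => a • u0 x) T (fun x t => a • u x (t * a))
      (fun x t => a ^ 2 * p x (t * a)) fun t i ξ => a * U (t * a) i ξ := by
  have hm : ∀ t ∈ Icc 0 T, t * a ∈ Icc 0 (T * a) := fun t ht =>
    ⟨mul_nonneg ht.1 ha.le, mul_le_mul_of_nonneg_right ht.2 ha.le⟩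
  have hs : ContDiff ℝ ∞ fun z : R3 × ℝ => (z.1, z.2 * a) := by fun_prop
  have hmap : MapsTo (fun z : R3 × ℝ => (z.1, z.2 * a)) (univ ×ˢ Icc 0 T) (univ ×ˢ Icc 0 (T * a)) :=
    fun z hz => ⟨trivial, hm _ hz.2⟩
  refine ⟨(h.smooth_u.comp hs.contDiffOn hmap).const_smul a,
    contDiffOn_const.mul (h.smooth_p.comp hs.contDiffOn hmap),
    fun t ht i => (h.meas _ (hm t ht) i).const_mul _, fun k => ?_, fun t ht x i => ?_,
    fun x t ht i => ?_, fun x t ht => ?_, fun x => ?_⟩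
  · obtain ⟨C, hC, hb⟩ := h.sobolev k
    refine ⟨‖(a : ℂ)‖ₑ ^ 2 * C, ENNReal.mul_lt_top (ENNReal.pow_lt_top enorm_lt_top) hC,
      fun t ht i => ?_⟩
    refine le_trans (le_of_eq ?_) (mul_le_mul_right (hb _ (hm t ht) i) _)
    rw [← lintegral_const_mul' _ _ (ENNReal.pow_ne_top enorm_ne_top)]
    refine lintegral_congr fun ξ => ?_
    rw [enorm_mul, mul_pow, mul_left_comm]
  · rw [DynSc_inv, ← h.fourier _ (hm t ht)]
    simp
  · have h1 := h.momentum x _ (hm t ht) i
    have h2 : derivWithin (fun s => (a • u x (s * a)) i) (Icc 0 T) t =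
        a * (a * derivWithin (fun s => u x s i) (Icc 0 (T * a)) (t * a)) := by
      have e : (fun s => (a • u x (s * a)) i) = fun s => a * (fun s => u x s i) (a * s) := by
        funext s
        simp [mul_comm]
      rw [e, derivWithin_const_mul_field, derivWithin_comp_mul_left a (fun s => u x s i),
        LinearOrderedField.smul_Icc ha, mul_zero, mul_comm a T, mul_comm a t, smul_eq_mul]
    have h3 : (fun ξ : R3 => (((2 * π * ‖ξ‖) ^ (2 * α) : ℝ) : ℂ) * (a * U (t * a) i ξ)) =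
        fun ξ => a * ((((2 * π * ‖ξ‖) ^ (2 * α) : ℝ) : ℂ) * U (t * a) i ξ) := by
      funext ξ
      ring
    rw [h2, h3, DynSc_inv, Complex.re_ofReal_mul]
    simp only [PiLp.smul_apply, smul_eq_mul, DynSc_pd, Fin.sum_univ_three] at h1 ⊢
    linear_combination a ^ 2 * h1
  · simp only [PiLp.smul_apply, smul_eq_mul, DynSc_pd, ← Finset.mul_sum]
    rw [h.divFree x _ (hm t ht), mul_zero]
  · simp only [zero_mul, h.initial]

theorem blow_scale {ν ν' T : ℝ} (h : Blow ν T) (hν : 0 < ν) (hν' : 0 < ν') :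
    Blow ν' (T * ν / ν') := by
  obtain ⟨u0, hd, hn⟩ := h
  have ha : 0 < ν / ν' := div_pos hν hν'
  refine ⟨(ν / ν')⁻¹ • u0, fun x => ?_, fun ⟨u, p, U, hs⟩ => hn ?_⟩
  · simp only [smul_apply, PiLp.smul_apply, smul_eq_mul, DynSc_pd, ← Finset.mul_sum]
    rw [hd x, mul_zero]
  · rw [mul_div_assoc] at hs
    have h1 := fsol_scale ha hs
    rw [div_mul_cancel₀ _ hν'.ne'] at h1
    simp only [smul_apply, smul_inv_smul₀ ha.ne'] at h1
    exact ⟨_, _, _, h1⟩

end Pool.Agent.Work.MP_6bf1e5_an.H.Dyn
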