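import Pool.Agent.Work.MP_6bf1e5_an.H.DynHinf

/-!
Static facts for the stability estimate: norms of a divergence-free field by its curl.
Hints. nw_one, gw_one, Finset.single_le_sum; gw_eq_curl (also for the field fun k => pd j (δ k), with dvg_pd and
pd_curl); sup_sq_le; sup_bound with a = b = k = 1 and Dp_grad_eq_curl for s = 7/4; pd_Dp, Dp_sq (s = 3/4) and
sum_Dp_pd_sq for the dissipation; curl_cross and dvg_curl for GG_diff.
-/

open scoped ContDiff ENNReal FourierTransform Real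
open Set MeasureTheory

namespace Pool.Agent.Work.MP_6bf1e5_an.H.Dyn

variable {δ d V V' : Vc}

theorem DynStA_sq (f : Sc) : 0 ≤ ∫ y, f y ^ 2 := integral_nonneg fun _ => sq_nonneg _

theorem DynStA_nw (V : Vc) : 0 ≤ nw 1 V :=
  integral_nonneg fun _ => mul_nonneg zero_le_one (Finset.sum_nonneg fun _ _ => mul_self_nonneg _)

theorem DynStA_gw (V : Vc) : 0 ≤ gw 1 V :=
  integral_nonneg fun _ => mul_nonneg zero_le_one
    (Finset.sum_nonneg fun _ _ => Finset.sum_nonneg fun _ _ => sq_nonneg _)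

theorem DynStA_two {F : Fin 3 → Fin 3 → ℝ} (h : ∀ i j, 0 ≤ F i j) (i j : Fin 3) :
    F i j ≤ ∑ i, ∑ j, F i j :=
  (Finset.single_le_sum (fun j _ => h i j) (Finset.mem_univ j)).trans
    (Finset.single_le_sum (f := fun i => ∑ j, F i j)
      (fun i _ => Finset.sum_nonneg fun j _ => h i j) (Finset.mem_univ i))

theorem DynStA_le (h : ∀ i, Hinf (V i)) (i j : Fin 3) : ∫ y, pd j (V i) y ^ 2 ≤ gw 1 V := by
  rw [gw_one h]
  exact DynStA_two (F := fun i j => ∫ y, pd j (V i) y ^ 2) (fun _ _ => DynStA_sq _) i j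

theorem DynStA_lam {f : Sc} (h : Hinf f) : ∫ y, Lam f y * f y = ∫ y, Dp (3 / 4) f y ^ 2 := by
  rw [← Dp_sq h (by norm_num), Lam]
  norm_num

theorem DynStA_tri {f b c : Sc} (hb : Hinf b) (hc : Hinf c) {p q : ℝ}
    (h : ∀ y, |f y| ≤ p * b y ^ 2 + q * c y ^ 2) :
    |∫ y, f y| ≤ (p * ∫ y, b y ^ 2) + q * ∫ y, c y ^ 2 := by
  have h1 := (int_sq hb).const_mul p
  have h2 := (int_sq hc).const_mul q
  rw [← integral_const_mul, ← integral_const_mul, ← integral_add h1 h2]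
  exact norm_integral_le_of_norm_le (f := f) (h1.add h2) (Filter.Eventually.of_forall h)

theorem ZZ_nonneg (δ : Vc) : 0 ≤ ZZ δ := by
  exact add_nonneg (DynStA_nw _) (DynStA_gw _)

theorem YY_nonneg (d : Vc) : 0 ≤ YY d := by
  exact Finset.sum_nonneg fun _ _ => DynStA_sq _

theorem zz_d (h : ∀ i, Hinf (δ i)) (i : Fin 3) : ∫ y, curl δ i y ^ 2 ≤ ZZ δ := by
  refine le_trans ?_ (le_add_of_nonneg_right (DynStA_gw _))
  rw [nw_one (hinf_curl h)]
  exact Finset.single_le_sum (f := fun i => ∫ y, curl δ i y ^ 2) (fun _ _ => DynStA_sq _)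
    (Finset.mem_univ i)

theorem zz_pd_d (h : ∀ i, Hinf (δ i)) (i j : Fin 3) : ∫ y, pd j (curl δ i) y ^ 2 ≤ ZZ δ := by
  exact (DynStA_le (hinf_curl h) i j).trans (le_add_of_nonneg_left (DynStA_nw _))

theorem zz_pd (h : ∀ i, Hinf (δ i)) (hd : ∀ y, dvg δ y = 0) (i j : Fin 3) :
    ∫ y, pd j (δ i) y ^ 2 ≤ ZZ δ := by
  refine (DynStA_le h i j).trans ?_
  rw [gw_eq_curl h hd]
  exact le_add_of_nonneg_right (DynStA_gw _)

theorem zz_pd_pd (h : ∀ i, Hinf (δ i)) (hd : ∀ y, dvg δ y = 0) (i j k : Fin 3) :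
    ∫ y, pd k (pd j (δ i)) y ^ 2 ≤ ZZ δ := by
  have h1 : ∀ i, Hinf (pd j (δ i)) := fun i => (h i).pd j
  refine (DynStA_le (V := fun i => pd j (δ i)) h1 i k).trans ?_
  rw [gw_eq_curl h1 (dvg_pd (fun i => (h i).1) hd j), nw_one (hinf_curl h1)]
  refine le_trans ?_ (le_add_of_nonneg_left (DynStA_nw _))
  rw [gw_one (hinf_curl h)]
  refine Finset.sum_le_sum fun i _ => ?_
  rw [← pd_curl (fun i => (h i).1)]
  exact Finset.single_le_sum (f := fun j => ∫ y, pd j (curl δ i) y ^ 2) (fun _ _ => DynStA_sq _)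
    (Finset.mem_univ j)

theorem zz_sup (h : ∀ i, Hinf (δ i)) (hd : ∀ y, dvg δ y = 0) (i : Fin 3) (y : R3) :
    δ i y ^ 2 ≤ 2 * ZZ δ := by
  have h1 := sup_sq_le (h i) y
  rw [Fin.sum_univ_three, Fin.sum_univ_three] at h1
  linarith [zz_pd h hd i 0, zz_pd h hd i 1, zz_pd h hd i 2, zz_pd_pd h hd i 0 0,
    zz_pd_pd h hd i 1 1, zz_pd_pd h hd i 2 2, ZZ_nonneg δ]

theorem zz_sup_pd (h : ∀ i, Hinf (δ i)) (hd : ∀ y, dvg δ y = 0) (i j : Fin 3) (y : R3) :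
    pd j (δ i) y ^ 2 ≤ ZZ δ + YY (curl δ) := by
  have h1 := sup_bound ((h i).pd j) one_pos one_pos one_pos y
  have h2 : ∫ y, Dp (7 / 4) (pd j (δ i)) y ^ 2 ≤ YY (curl δ) := by
    rw [YY, ← Dp_grad_eq_curl h hd (by norm_num)]
    exact DynStA_two (F := fun i j => ∫ y, Dp (7 / 4) (pd j (δ i)) y ^ 2)
      (fun _ _ => DynStA_sq _) i j
  rw [Fin.sum_univ_three] at h1
  linarith [zz_pd_pd h hd i j 0, zz_pd_pd h hd i j 1, zz_pd_pd h hd i j 2, ZZ_nonneg δ,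
    YY_nonneg (curl δ)]

theorem diss_zero (h : ∀ i, Hinf (d i)) (i : Fin 3) : 0 ≤ ∫ y, Lam (d i) y * d i y := by
  rw [DynStA_lam (h i)]
  exact DynStA_sq _

theorem diss_one (h : ∀ i, Hinf (d i)) :
    ∑ i, ∑ j, ∫ y, pd j (Lam (d i)) y * pd j (d i) y = YY d := by
  refine Finset.sum_congr rfl fun i _ => ?_
  rw [show (7 / 4 : ℝ) = 3 / 4 + 1 by norm_num, ← sum_Dp_pd_sq (h i) (by norm_num)]
  refine Finset.sum_congr rfl fun j _ => ?_
  rw [← DynStA_lam ((h i).pd j), Lam, pd_Dp (h i).inA (by norm_num), Lam]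

theorem GG_diff (ν : ℝ) (h : ∀ i, Hinf (V i)) (h' : ∀ i, Hinf (V' i)) (hd : ∀ y, dvg V y = 0)
    (hd' : ∀ y, dvg V' y = 0) (i : Fin 3) : (GG ν V' - GG ν V) i = fun y =>
      ∑ j, (curl (V' - V) j y * pd j (V' i) y + curl V j y * pd j ((V' - V) i) y
          - (V' - V) j y * pd j (curl V i) y)
        - ∑ j, V' j y * pd j (curl (V' - V) i) y - ν * Lam (curl (V' - V) i) y := by
  have s : ∀ i, ContDiff ℝ ∞ (V i) := fun i => (h i).1
  have s' : ∀ i, ContDiff ℝ ∞ (V' i) := fun i => (h' i).1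
  have e1 : ∀ i, (curl V' - curl V) i = fun y => curl V' i y - curl V i y := fun _ => rfl
  have e2 : ∀ i, (V' - V) i = fun y => V' i y - V i y := fun _ => rfl
  funext y
  change GG ν V' i y - GG ν V i y = _
  rw [GG, GG, curl_cross s (curl_smooth s) hd (dvg_curl s),
    curl_cross s' (curl_smooth s') hd' (dvg_curl s'), curl_sub s' s]
  simp only [e1, e2, pd_sub (s' i) (s i), pd_sub (curl_smooth s' i) (curl_smooth s i),
    lam_sub (hinf_curl h' i) (hinf_curl h i), Fin.sum_univ_three]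
  ring

theorem tri_sup {a b c : Sc} (ha : Hinf a) (hb : Hinf b) (hc : Hinf c) {Q Z : ℝ}
    (h1 : ∀ y, |a y| ≤ Q) (h2 : ∫ y, b y ^ 2 ≤ Z) (h3 : ∫ y, c y ^ 2 ≤ Z) :
    |∫ y, a y * b y * c y| ≤ Q * Z := by
  have hQ : 0 ≤ Q := (abs_nonneg _).trans (h1 0)
  refine (DynStA_tri hb hc (p := Q / 2) (q := Q / 2) fun y => ?_).trans ?_
  · rw [mul_assoc, abs_mul, abs_mul]
    have h4 : |b y| * |c y| ≤ (b y ^ 2 + c y ^ 2) / 2 := by
      nlinarith [sq_nonneg (|b y| - |c y|), sq_abs (b y), sq_abs (c y)]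
    refine (mul_le_mul (h1 y) h4 (by positivity) hQ).trans_eq (by ring)
  · nlinarith [mul_le_mul_of_nonneg_left h2 hQ, mul_le_mul_of_nonneg_left h3 hQ]

theorem tri_two {a b c : Sc} (ha : Hinf a) (hb : Hinf b) (hc : Hinf c) {K Z : ℝ} (hZ : 0 ≤ Z)
    (h1 : ∀ y, a y ^ 2 ≤ 2 * Z) (h2 : ∫ y, b y ^ 2 ≤ K) (h3 : ∫ y, c y ^ 2 ≤ Z) :
    |∫ y, a y * b y * c y| ≤ (K + 1) * Z := by
  refine (DynStA_tri hb hc (p := Z) (q := 1 / 2) fun y => ?_).trans ?_
  · rw [abs_mul]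
    have h4 := mul_le_mul_of_nonneg_right (h1 y) (sq_nonneg (b y))
    nlinarith [sq_nonneg (|a y * b y| - |c y|), sq_abs (a y * b y), sq_abs (c y)]
  · nlinarith [mul_le_mul_of_nonneg_left h2 hZ]

end Pool.Agent.Work.MP_6bf1e5_an.H.Dyn
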