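import Pool.Agent.Work.MP_6bf1e5_an.H.DynStA

/-!
The static stability estimate.
-/

open scoped ContDiff ENNReal FourierTransform Real
open Set MeasureTheory

namespace Pool.Agent.Work.MP_6bf1e5_an.H.Dyn

variable {a b c f g : Sc} {V V' : Vc}

/-- The pairing of a derivative of `h` with `c`. -/
noncomputable def ph (l : List (Fin 3)) (c h : Sc) : ℝ := ∫ y, pds l h y * c y

theorem ph_add (l : List (Fin 3)) (hc : Hinf c) (hf : Hinf f) (hg : Hinf g) :
    ph l c (fun y => f y + g y) = ph l c f + ph l c g := by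
  unfold ph
  rw [pds_add hf.1 hg.1, ← integral_add (int_mul (hinf_pds hf l) hc) (int_mul (hinf_pds hg l) hc)]
  simp only [add_mul]

theorem ph_cmul (l : List (Fin 3)) (c : Sc) (hf : Hinf f) (r : ℝ) :
    ph l c (fun y => r * f y) = r * ph l c f := by
  unfold ph
  rw [pds_cmul hf.1, ← integral_const_mul]
  simp only [mul_assoc]

theorem ph_sub (l : List (Fin 3)) (hc : Hinf c) (hf : Hinf f) (hg : Hinf g) :
    ph l c (fun y => f y - g y) = ph l c f - ph l c g := by
  have h := ph_add l hc hf (hinf_cmul hg (-1))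
  rw [ph_cmul l c hg] at h
  simp only [neg_mul, one_mul, ← sub_eq_add_neg] at h
  exact h

theorem ph_sum (l : List (Fin 3)) (hc : Hinf c) {F : Fin 3 → Sc} (hF : ∀ j, Hinf (F j)) :
    ph l c (fun y => ∑ j, F j y) = ∑ j, ph l c (F j) := by
  unfold ph
  rw [pds_sum _ fun j _ => (hF j).1,
    ← integral_finsetSum _ fun j _ => int_mul (hinf_pds (hF j) l) hc]
  simp only [Finset.sum_mul]

theorem ph_nil (a b c : Sc) : ph [] c (fun y => a y * b y) = ∫ y, a y * b y * c y := rfl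

theorem ph_one (k : Fin 3) (ha : Hinf a) (hb : Hinf b) (hc : Hinf c) :
    ph [k] c (fun y => a y * b y)
      = (∫ y, pd k a y * b y * c y) + ∫ y, a y * pd k b y * c y := by
  have h : pds [k] (fun y => a y * b y) = pd k fun y => a y * b y := rfl
  unfold ph
  rw [h, pd_mul ha.1 hb.1, ← integral_add (int_mul (hinf_mul (ha.pd k) hb) hc)
    (int_mul (hinf_mul ha (hb.pd k)) hc)]
  simp only [add_mul]

theorem stb_swap (a b c : Sc) : ∫ y, a y * b y * c y = ∫ y, b y * a y * c y := by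
  simp only [mul_comm (a _) (b _)]

theorem stb_split (ν : ℝ) (l : List (Fin 3)) (hc : Hinf c) (h : ∀ i, Hinf (V i))
    (h' : ∀ i, Hinf (V' i)) (hd : ∀ y, dvg V y = 0) (hd' : ∀ y, dvg V' y = 0) (i : Fin 3) :
    ph l c ((GG ν V' - GG ν V) i) =
      ∑ j, (ph l c (fun y => curl (V' - V) j y * pd j (V' i) y)
          + ph l c (fun y => curl V j y * pd j ((V' - V) i) y)
          - ph l c (fun y => (V' - V) j y * pd j (curl V i) y))
        - ∑ j, ph l c (fun y => V' j y * pd j (curl (V' - V) i) y)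
        - ν * ph l c (Lam (curl (V' - V) i)) := by
  have hδ : ∀ i, Hinf ((V' - V) i) := fun i => hinf_sub (h' i) (h i)
  have hv := hinf_curl hδ
  have hW := hinf_curl h
  have t1 := fun j => hinf_mul (hv j) ((h' i).pd j)
  have t2 := fun j => hinf_mul (hW j) ((hδ i).pd j)
  have t3 := fun j => hinf_mul (hδ j) ((hW i).pd j)
  have t4 := fun j => hinf_mul (h' j) ((hv i).pd j)
  have t123 := fun j => hinf_sub (hinf_add (t1 j) (t2 j)) (t3 j)
  rw [GG_diff ν h h' hd hd' i,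
    ph_sub l hc (hinf_sub (hinf_sum _ fun j _ => t123 j) (hinf_sum _ fun j _ => t4 j))
      (hinf_cmul (hinf_lam (hv i)) ν),
    ph_sub l hc (hinf_sum _ fun j _ => t123 j) (hinf_sum _ fun j _ => t4 j),
    ph_sum l hc t123, ph_sum l hc t4, ph_cmul l c (hinf_lam (hv i))]
  congr 2
  refine Finset.sum_congr rfl fun j _ => ?_
  rw [ph_sub l hc (hinf_add (t1 j) (t2 j)) (t3 j), ph_add l hc (t1 j) (t2 j)]

theorem stb_pds_curl (h : ∀ i, Hinf (V i)) (l : List (Fin 3)) (i : Fin 3) :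
    pds l (curl V i) = fun y =>
      pds (l ++ [i + 1]) (V (i + 2)) y - pds (l ++ [i + 2]) (V (i + 1)) y := by
  have e : curl V i = fun y => pd (i + 1) (V (i + 2)) y + -1 * pd (i + 2) (V (i + 1)) y := by
    funext y; simp only [curl]; ring
  rw [e, pds_add ((h _).pd _).1 (hinf_cmul ((h _).pd _) _).1, pds_cmul ((h _).pd _).1,
    pds_append, pds_append]
  funext y; ring

theorem stb_curl_bd {K : ℝ} (h : ∀ i, Hinf (V i)) (hK : Bd K V) (l : List (Fin 3))
    (hl : l.length ≤ 2) (i : Fin 3) :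
    ∫ y, pds l (curl V i) y ^ 2 ≤ 4 * K ∧ ∀ y, |pds l (curl V i) y| ≤ 2 * K := by
  obtain ⟨a1, a2⟩ := hK (l ++ [i + 1]) (by simp; omega) (i + 2)
  obtain ⟨b1, b2⟩ := hK (l ++ [i + 2]) (by simp; omega) (i + 1)
  have ia := int_sq (hinf_pds (h (i + 2)) (l ++ [i + 1]))
  have ib := int_sq (hinf_pds (h (i + 1)) (l ++ [i + 2]))
  refine ⟨?_, fun y => ?_⟩
  · have h1 := integral_mono (int_sq (hinf_pds (hinf_curl h i) l))
      ((ia.const_mul 2).add (ib.const_mul 2)) fun y => by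
        simp only [stb_pds_curl h l i, Pi.add_apply]
        nlinarith [sq_nonneg (pds (l ++ [i + 1]) (V (i + 2)) y + pds (l ++ [i + 2]) (V (i + 1)) y)]
    simp only [Pi.add_apply] at h1
    rw [integral_add (ia.const_mul 2) (ib.const_mul 2), integral_const_mul,
      integral_const_mul] at h1
    linarith
  · rw [stb_pds_curl h l i]
    exact (abs_sub _ _).trans (by linarith [a2 y, b2 y])

theorem stb_null (hV : ∀ i, Hinf (V i)) (hd : ∀ y, dvg V y = 0) (hf : Hinf f) :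
    ∑ j, ∫ y, V j y * pd j f y * f y = 0 := by
  rw [← integral_finsetSum _ fun j _ => int_mul (hinf_mul (hV j) (hf.pd j)) hf]
  exact null_form hV hd hf

theorem stb_main {ν K : ℝ} (hν : 0 < ν) (h : ∀ i, Hinf (V i)) (h' : ∀ i, Hinf (V' i))
    (hd : ∀ y, dvg V y = 0) (hd' : ∀ y, dvg V' y = 0) (hK : Bd K V) {P : ℝ} (hP : 0 ≤ P)
    (hPd : ∀ i j y, |pd j ((V' - V) i) y| ≤ P) :
    ip (GG ν V' - GG ν V) (curl (V' - V))
      + ∫ y, ∑ i, ∑ j, pd j ((GG ν V' - GG ν V) i) y * pd j (curl (V' - V) i) y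
      ≤ 243 * ((4 * K + 1 + 2 * P) * ZZ (V' - V)) - ν * YY (curl (V' - V)) := by
  have hδ : ∀ i, Hinf ((V' - V) i) := fun i => hinf_sub (h' i) (h i)
  have hdδ : ∀ y, dvg (V' - V) y = 0 := fun y => by
    rw [dvg_sub (fun i => (h' i).1) fun i => (h i).1, hd, hd', sub_zero]
  have hG : ∀ i, Hinf ((GG ν V' - GG ν V) i) := fun i =>
    hinf_sub (hinf_GG ν h' i) (hinf_GG ν h i)
  have hv := hinf_curl hδ
  have hW := hinf_curl h
  have hK0 : 0 ≤ K := (abs_nonneg _).trans ((hK [] (by simp) 0).2 0)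
  have hZ := ZZ_nonneg (V' - V)
  have eV : ∀ i j, pd j (V' i) = fun y => pd j (V i) y + pd j ((V' - V) i) y := fun i j => by
    rw [← pd_add (h i).1 (hδ i).1]
    congr 1; funext y; simp
  have z1 := zz_d hδ
  have z2 := zz_pd_d hδ
  have z3 := zz_pd hδ hdδ
  have z4 := zz_pd_pd hδ hdδ
  have z5 := zz_sup hδ hdδ
  generalize ZZ (V' - V) = Z at *
  set Q := 4 * K + 1 + 2 * P with hQ
  have b1 : ∀ i j y, |pd j (V' i) y| ≤ Q := fun i j y => by
    rw [eV]
    exact (abs_add_le _ _).trans (by linarith [(hK [j] (by simp) i).2 y, hPd i j y,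
      (show pds [j] (V i) = pd j (V i) from rfl) ▸ (hK [j] (by simp) i).2 y])
  have b2 : ∀ i j k y, |pd k (pd j (V i)) y| ≤ K := fun i j k y => (hK [k, j] (by simp) i).2 y
  have b3 : ∀ i y, |curl V i y| ≤ Q := fun i y =>
    ((stb_curl_bd h hK [] (by simp) i).2 y).trans (by linarith)
  have b4 : ∀ i j y, |pd j (curl V i) y| ≤ Q := fun i j y =>
    ((stb_curl_bd h hK [j] (by simp) i).2 y).trans (by linarith)
  have b5 : ∀ i j, ∫ y, pd j (curl V i) y ^ 2 ≤ 4 * K := fun i j =>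
    (stb_curl_bd h hK [j] (by simp) i).1
  have b6 : ∀ i j k, ∫ y, pd k (pd j (curl V i)) y ^ 2 ≤ 4 * K := fun i j k =>
    (stb_curl_bd h hK [k, j] (by simp) i).1
  have b7 : ∀ i y, |curl (V' - V) i y| ≤ 2 * P := fun i y =>
    (abs_sub _ _).trans (by linarith [hPd (i + 2) (i + 1) y, hPd (i + 1) (i + 2) y])
  have hQ4 : (4 * K + 1) * Z ≤ Q * Z := mul_le_mul_of_nonneg_right (by linarith) hZ
  have hQ5 : K * Z + 2 * P * Z ≤ Q * Z := by nlinarith
  have l0 : ∀ i, ph [] (curl (V' - V) i) ((GG ν V' - GG ν V) i) ≤ 9 * (Q * Z) := by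
    intro i
    rw [stb_split ν [] (hv i) h h' hd hd' i]
    simp only [ph_nil]
    rw [stb_null h' hd' (hv i)]
    have e : ∀ j, (∫ y, curl (V' - V) j y * pd j (V' i) y * curl (V' - V) i y)
        + (∫ y, curl V j y * pd j ((V' - V) i) y * curl (V' - V) i y)
        - ∫ y, (V' - V) j y * pd j (curl V i) y * curl (V' - V) i y ≤ 3 * (Q * Z) := by
      intro j
      have e1 := tri_sup ((h' i).pd j) (hv j) (hv i) (b1 i j) (z1 j) (z1 i)
      have e2 := tri_sup (hW j) ((hδ i).pd j) (hv i) (b3 j) (z3 i j) (z1 i)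
      have e3 := tri_two (hδ j) ((hW i).pd j) (hv i) hZ (z5 j) (b5 i j) (z1 i)
      rw [stb_swap] at e1
      linarith [(abs_le.1 e1).2, (abs_le.1 e2).2, (abs_le.1 e3).1]
    have e4 : 0 ≤ ν * ph [] (curl (V' - V) i) (Lam (curl (V' - V) i)) :=
      mul_nonneg hν.le (diss_zero hv i)
    rw [Fin.sum_univ_three]
    linarith [e 0, e 1, e 2]
  have l1 : ∀ i k, ph [k] (pd k (curl (V' - V) i)) ((GG ν V' - GG ν V) i) ≤ 21 * (Q * Z)
      - ν * ∫ y, pd k (Lam (curl (V' - V) i)) y * pd k (curl (V' - V) i) y := by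
    intro i k
    have hc := (hv i).pd k
    rw [stb_split ν [k] hc h h' hd hd' i]
    have e : ∀ j, ph [k] (pd k (curl (V' - V) i)) (fun y => curl (V' - V) j y * pd j (V' i) y)
        + ph [k] (pd k (curl (V' - V) i)) (fun y => curl V j y * pd j ((V' - V) i) y)
        - ph [k] (pd k (curl (V' - V) i)) (fun y => (V' - V) j y * pd j (curl V i) y)
        ≤ 6 * (Q * Z) := by
      intro j
      rw [ph_one k (hv j) ((h' i).pd j) hc, ph_one k (hW j) ((hδ i).pd j) hc,
        ph_one k (hδ j) ((hW i).pd j) hc]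
      have e1 := tri_sup ((h' i).pd j) ((hv j).pd k) hc (b1 i j) (z2 j k) (z2 i k)
      have e2 := tri_sup (((h i).pd j).pd k) (hv j) hc (b2 i j k) (z1 j) (z2 i k)
      have e2' := tri_sup (hv j) (((hδ i).pd j).pd k) hc (b7 j) (z4 i j k) (z2 i k)
      have e3 := tri_sup ((hW j).pd k) ((hδ i).pd j) hc (b4 j k) (z3 i j) (z2 i k)
      have e4 := tri_sup (hW j) (((hδ i).pd j).pd k) hc (b3 j) (z4 i j k) (z2 i k)
      have e5 := tri_sup ((hW i).pd j) ((hδ j).pd k) hc (b4 i j) (z3 j k) (z2 i k)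
      have e6 := tri_two (hδ j) (((hW i).pd j).pd k) hc hZ (z5 j) (b6 i j k) (z2 i k)
      rw [stb_swap] at e1 e2 e5
      have e7 : ∫ y, curl (V' - V) j y * pd k (pd j (V' i)) y * pd k (curl (V' - V) i) y
          = (∫ y, curl (V' - V) j y * pd k (pd j (V i)) y * pd k (curl (V' - V) i) y)
          + ∫ y, curl (V' - V) j y * pd k (pd j ((V' - V) i)) y * pd k (curl (V' - V) i) y := by
        rw [eV, pd_add ((h i).pd j).1 ((hδ i).pd j).1,
          ← integral_add (int_mul (hinf_mul (hv j) (((h i).pd j).pd k)) hc)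
            (int_mul (hinf_mul (hv j) (((hδ i).pd j).pd k)) hc)]
        simp only [mul_add, add_mul]
      linarith [(abs_le.1 e1).2, (abs_le.1 e2).2, (abs_le.1 e2').2, (abs_le.1 e3).2,
        (abs_le.1 e4).2, (abs_le.1 e5).1, (abs_le.1 e6).1]
    have e' : ∀ j, ph [k] (pd k (curl (V' - V) i)) (fun y => V' j y * pd j (curl (V' - V) i) y)
        ≥ -(Q * Z)
          + ∫ y, V' j y * pd j (pd k (curl (V' - V) i)) y * pd k (curl (V' - V) i) y := by
      intro j
      rw [ph_one k (h' j) ((hv i).pd j) hc, pd_comm (hv i).1 k j]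
      have e1 := tri_sup ((h' j).pd k) ((hv i).pd j) hc (b1 j k) (z2 i j) (z2 i k)
      linarith [(abs_le.1 e1).1]
    have e0 := stb_null h' hd' hc
    have e8 : ph [k] (pd k (curl (V' - V) i)) (Lam (curl (V' - V) i))
        = ∫ y, pd k (Lam (curl (V' - V) i)) y * pd k (curl (V' - V) i) y := rfl
    rw [Fin.sum_univ_three] at e0
    rw [Fin.sum_univ_three, Fin.sum_univ_three, e8]
    linarith [e 0, e 1, e 2, e' 0, e' 1, e' 2]
  have s0 : ip (GG ν V' - GG ν V) (curl (V' - V))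
      = ∑ i, ph [] (curl (V' - V) i) ((GG ν V' - GG ν V) i) := ip_eq hG hv
  have s1 : ∫ y, ∑ i, ∑ j, pd j ((GG ν V' - GG ν V) i) y * pd j (curl (V' - V) i) y
      = ∑ i, ∑ k, ph [k] (pd k (curl (V' - V) i)) ((GG ν V' - GG ν V) i) := by
    rw [integral_finsetSum _ fun i _ => integrable_finsetSum _ fun j _ =>
      int_mul ((hG i).pd j) ((hv i).pd j)]
    exact Finset.sum_congr rfl fun i _ =>
      integral_finsetSum _ fun j _ => int_mul ((hG i).pd j) ((hv i).pd j)
  have s2 := Finset.sum_le_sum (s := Finset.univ) fun i _ =>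
    Finset.sum_le_sum (s := Finset.univ) fun k _ => l1 i k
  have s3 := Finset.sum_le_sum (s := Finset.univ) fun i _ => l0 i
  simp only [Finset.sum_sub_distrib, ← Finset.mul_sum] at s2
  rw [diss_one hv] at s2
  simp only [Finset.sum_const, Finset.card_univ, Fintype.card_fin, nsmul_eq_mul] at s2 s3
  have hQZ : 0 ≤ Q * Z := mul_nonneg (by linarith) hZ
  rw [s0, s1]
  push_cast at s2 s3
  linarith

theorem stab_static {ν : ℝ} (hν : 0 < ν) (K : ℝ) : ∃ C, ∀ V V' : Vc, (∀ i, Hinf (V i)) →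
    (∀ i, Hinf (V' i)) → (∀ y, dvg V y = 0) → (∀ y, dvg V' y = 0) → Bd K V →
    dZZ (GG ν V' - GG ν V) (curl (V' - V)) ≤ C * (ZZ (V' - V) + ZZ (V' - V) ^ 2) := by
  refine ⟨2 * (243 * (4 * |K| + 1) + ν + 243 ^ 2 / ν), fun V V' h h' hd hd' hK => ?_⟩
  have hδ : ∀ i, Hinf ((V' - V) i) := fun i => hinf_sub (h' i) (h i)
  have hdδ : ∀ y, dvg (V' - V) y = 0 := fun y => by
    rw [dvg_sub (fun i => (h' i).1) fun i => (h i).1, hd, hd', sub_zero]
  have hZ := ZZ_nonneg (V' - V)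
  have hY := YY_nonneg (curl (V' - V))
  have hm := stb_main hν h h' hd hd' hK (Real.sqrt_nonneg (ZZ (V' - V) + YY (curl (V' - V))))
    fun i j y => Real.abs_le_sqrt (zz_sup_pd hδ hdδ i j y)
  have hP := Real.sq_sqrt (add_nonneg hZ hY)
  have hg : 0 ≤ gw 1 (curl (V' - V)) := integral_nonneg fun y => by
    simp only [Pi.one_apply, one_mul, Pi.zero_apply]; positivity
  unfold dZZ
  generalize √(ZZ (V' - V) + YY (curl (V' - V))) = P at hm hP
  generalize ZZ (V' - V) = Z at *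
  generalize YY (curl (V' - V)) = Y at *
  have h1 : 2 * (243 * Z) * P ≤ ν * P ^ 2 + 243 ^ 2 / ν * Z ^ 2 := by
    have : ν * P ^ 2 + 243 ^ 2 / ν * Z ^ 2 - 2 * (243 * Z) * P = (ν * P - 243 * Z) ^ 2 / ν := by
      field_simp; ring
    have h2 : 0 ≤ (ν * P - 243 * Z) ^ 2 / ν := by positivity
    linarith
  have h2 : K * Z ≤ |K| * Z := mul_le_mul_of_nonneg_right (le_abs_self K) hZ
  have h3 : 0 ≤ (243 * (4 * |K| + 1) + ν) * Z ^ 2 := by positivity
  have h4 : 0 ≤ 243 ^ 2 / ν * Z := by positivity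
  rw [hP] at h1
  nlinarith

end Pool.Agent.Work.MP_6bf1e5_an.H.Dyn
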