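import Pool.Agent.Work.MP_6bf1e5_an.H.DynJS
import Pool.Agent.Work.MP_6bf1e5_an.H.DynHinf
import Pool.Agent.Work.MP_6bf1e5_an.H.DynIDer

/-!
The transport lemma: remove the drift by a dilation, then use Fubini.
-/

open scoped ContDiff ENNReal FourierTransform Real
open Set MeasureTheory

namespace Pool.Agent.Work.MP_6bf1e5_an.H.Dyn

/-- Fubini for a jointly smooth family whose time derivative is uniformly integrable. -/
theorem tr_fubini {S : ℝ} (hS : 0 < S) {k H : ℝ → Sc} (hj : JS S k)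
    (hk : ∀ s ∈ Icc 0 S, Integrable (k s)) (hH : L1B S H)
    (he : ∀ s ∈ Ioo 0 S, ∀ y, HasDerivAt (fun σ => k σ y) (H s y) s) :
    IDer S (fun s => ∫ y, k s y) fun s => ∫ y, H s y := by
  obtain ⟨C, hC⟩ := hH
  set sl : Set (R3 × ℝ) := univ ×ˢ Icc 0 S with hsl
  have hu : UniqueDiffOn ℝ sl := uniqueDiffOn_univ.prod (uniqueDiffOn_Icc hS)
  set K : R3 × ℝ → ℝ := fun z => k z.2 z.1 with hK
  set D : R3 × ℝ → ℝ := fun z => fderivWithin ℝ K sl z (0, 1) with hD
  have hDc : ContinuousOn D sl :=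
    (ContDiffOn.continuousOn_fderivWithin hj hu (by simp)).clm_apply continuousOn_const
  have hDH : ∀ s ∈ Ioo 0 S, ∀ y, D (y, s) = H s y := by
    intro s hs y
    have h1 : HasFDerivWithinAt K (fderivWithin ℝ K sl (y, s)) sl (y, s) :=
      ((ContDiffOn.differentiableOn hj (by simp)) (y, s)
        ⟨mem_univ _, Ioo_subset_Icc_self hs⟩).hasFDerivWithinAt
    have h2 : HasDerivWithinAt (fun σ : ℝ => ((y, σ) : R3 × ℝ)) (0, 1) (Icc 0 S) s :=
      ((hasDerivAt_const s y).prodMk (hasDerivAt_id s)).hasDerivWithinAt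
    have h3 := h1.comp_hasDerivWithinAt s h2 fun σ hσ => ⟨mem_univ _, hσ⟩
    exact (h3.hasDerivAt (Icc_mem_nhds hs.1 hs.2)).unique (he s hs y)
  have hsec : ∀ y, ContinuousOn (fun σ : ℝ => D (y, σ)) (Icc 0 S) := fun y =>
    hDc.comp (Continuous.prodMk_right y).continuousOn fun σ hσ => ⟨mem_univ _, hσ⟩
  have hksec : ∀ y, ContinuousOn (fun σ : ℝ => k σ y) (Icc 0 S) := fun y =>
    (ContDiffOn.continuousOn hj).comp (Continuous.prodMk_right y).continuousOn
      fun σ hσ => ⟨mem_univ _, hσ⟩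
  have hae : ∀ s ∈ Icc 0 S, ∀ᵐ σ ∂(volume.restrict (Ioc 0 s)), σ ∈ Ioo 0 S := by
    intro s hs
    rw [← restrict_Ioo_eq_restrict_Ioc]
    filter_upwards [ae_restrict_mem measurableSet_Ioo] with σ hσ
    exact ⟨hσ.1, hσ.2.trans_le hs.2⟩
  have hint : ∀ s ∈ Icc 0 S, Integrable D (volume.prod (volume.restrict (Ioc 0 s))) := by
    intro s hs
    have hm : AEStronglyMeasurable D (volume.prod (volume.restrict (Ioc 0 s))) := by
      have h1 : (volume : Measure R3).prod (volume.restrict (Ioc 0 s))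
          = (volume.prod volume).restrict (univ ×ˢ Ioc 0 s) := by
        rw [← Measure.prod_restrict, Measure.restrict_univ]
      rw [h1]
      exact (hDc.mono (prod_mono Subset.rfl fun σ hσ => ⟨hσ.1.le, hσ.2.trans hs.2⟩)).aestronglyMeasurable
        (MeasurableSet.univ.prod measurableSet_Ioc)
    rw [integrable_prod_iff' hm]
    refine ⟨?_, ?_⟩
    · filter_upwards [hae s hs] with σ hσ
      simp only [hDH σ hσ]
      exact (hC σ (Ioo_subset_Icc_self hσ)).1
    · refine Integrable.mono' (integrable_const C) hm.prod_swap.norm.integral_prod_right' ?_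
      filter_upwards [hae s hs] with σ hσ
      simp only [hDH σ hσ, Real.norm_eq_abs]
      rw [abs_of_nonneg (integral_nonneg fun y => abs_nonneg _)]
      exact (hC σ (Ioo_subset_Icc_self hσ)).2
  have hcong : ∀ s ∈ Icc 0 S, (fun σ => ∫ y, D (y, σ)) =ᵐ[volume.restrict (Ioc 0 s)]
      fun σ => ∫ y, H σ y := by
    intro s hs
    filter_upwards [hae s hs] with σ hσ
    simp only [hDH σ hσ]
  refine ⟨?_, fun s hs => ?_⟩
  · rw [intervalIntegrable_iff_integrableOn_Ioc_of_le hS.le]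
    exact (hint S ⟨hS.le, le_rfl⟩).integral_prod_right.congr (hcong S ⟨hS.le, le_rfl⟩)
  · have h1 : ∀ y, ∫ σ in Ioc 0 s, D (y, σ) = k s y - k 0 y := by
      intro y
      rw [← intervalIntegral.integral_of_le hs.1]
      have hsub : Icc 0 s ⊆ Icc 0 S := Icc_subset_Icc le_rfl hs.2
      refine intervalIntegral.integral_eq_sub_of_hasDerivAt_of_le hs.1 ((hksec y).mono hsub)
        (fun σ hσ => ?_) (((hsec y).mono hsub).intervalIntegrable_of_Icc hs.1)
      have hσ' : σ ∈ Ioo 0 S := ⟨hσ.1, hσ.2.trans_le hs.2⟩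
      rw [hDH σ hσ']
      exact he σ hσ' y
    have h2 := integral_integral_swap (f := fun y σ => D (y, σ)) (hint s hs)
    simp only [h1] at h2
    rw [integral_sub (hk s hs) (hk 0 ⟨le_rfl, hS.le⟩), integral_congr_ae (hcong s hs)] at h2
    rw [intervalIntegral.integral_of_le hs.1]
    linarith

theorem transport {S : ℝ} (hS : 0 < S) {h H : ℝ → Sc} (hj : JS S h)
    (hh : ∀ s ∈ Icc 0 S, Integrable (h s)) (hH : L1B S H)
    (he : ∀ s ∈ Ioo 0 S, ∀ y, HasDerivAt (fun σ => h σ y) (-(2 / 3 * yd (h s) y) + H s y) s) :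
    IDer S (fun s => ∫ y, h s y) fun s => 2 * (∫ y, h s y) + ∫ y, H s y := by
  set c : ℝ → ℝ := fun s => Real.exp (2 / 3 * s) with hc
  have hc0 : ∀ s, 0 < c s := fun s => Real.exp_pos _
  have hc3 : ∀ s, c s ^ 3 = Real.exp (2 * s) := fun s => by
    rw [hc, ← Real.exp_nat_mul]; congr 1; push_cast; ring
  have hcd : ∀ s, HasDerivAt c (2 / 3 * c s) s := fun s => by
    have := ((hasDerivAt_id s).const_mul (2 / 3 : ℝ)).exp
    simpa [hc, mul_comm] using this
  have hk : JS S fun s y => h s (c s • y) :=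
    (hj.resc (a := fun _ => 1) (c := c) (τ := fun s => s) contDiff_const (by rw [hc]; fun_prop)
      contDiff_id fun s hs => hs).congr fun s _ => by simp
  obtain ⟨C, hC⟩ := hH
  have hA := tr_fubini hS hk (H := fun s y => H s (c s • y))
    (fun s hs => (hh s hs).comp_smul (hc0 s).ne')
    ⟨C, fun s hs => ⟨(hC s hs).1.comp_smul (hc0 s).ne', by
      rw [int_scale (fun y => |H s y|) (hc0 s)]
      have h1 : (c s ^ 3)⁻¹ ≤ 1 := inv_le_one_of_one_le₀ (by
        rw [hc3]; exact Real.one_le_exp (by linarith [hs.1]))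
      have h2 : 0 ≤ ∫ y, |H s y| := integral_nonneg fun y => abs_nonneg _
      nlinarith [(hC s hs).2]⟩⟩
    (fun s hs y => by
      have h1 := hj.chain (τ := fun σ => σ) (hcd s) (hasDerivAt_id s) hs (he s hs) y
      convert h1 using 1
      rw [yd_eq (hj.smooth (Ioo_subset_Icc_self hs)), map_smul, smul_eq_mul]
      ring)
  have hB : IDer S (fun s => Real.exp (2 * s)) fun s => 2 * Real.exp (2 * s) :=
    IDer.of_deriv hS.le (fun s => by
      have := ((hasDerivAt_id s).const_mul (2 : ℝ)).exp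
      simpa [mul_comm] using this) (by fun_prop)
  refine (hB.mul hA hS.le).congr hS.le (fun s _ => ?_) fun s _ => ?_
  · rw [int_scale (h s) (hc0 s), hc3]
    field_simp
  · rw [int_scale (h s) (hc0 s), int_scale (H s) (hc0 s), hc3]
    field_simp

end Pool.Agent.Work.MP_6bf1e5_an.H.Dyn
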