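import Pool.Agent.Work.MP_6bf1e5_an.H.DynRS
import Pool.Agent.Work.MP_6bf1e5_an.H.DynEn
import Pool.Agent.Work.MP_6bf1e5_an.H.DynStB
import Pool.Agent.Work.MP_6bf1e5_an.H.DynCt

/-!
Stability, uniqueness, equivariance, and the identities for the Lyapunov form.
Hints. stab: UB.bd for V, stab_static, riccati, with IDer from evo_diff, ider_one, ider_gw. uniq: ZZ 0 = 0, stab
for every ε, zz_sup. orbit: the datum is HasCompactSupport.toSchwartzMap of y ↦ WithLp.toLp 2 (fun i => U0 i y);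
psol_of_fsol, PSol.rsol; equivariance: PSol.rot, resc_rot, rot_eq_iff, uniq on Icc 0 (s + 1). iderZ, iderE:
RSol.evo, IDer.mul for the squares of the moments, IDer.sum, IDer.congr, unfold dW dM dH.
-/

open scoped ContDiff ENNReal FourierTransform Real
open Set MeasureTheory

namespace Pool.Agent.Work.MP_6bf1e5_an.H.Dyn

variable {ν S : ℝ} {V V' : ℝ → Vc}

theorem RSol.stab (h : RSol ν S V) (hν : 0 < ν) (hS : 0 < S) {ε : ℝ} (hε : 0 < ε) : ∃ δ > 0,
    ∀ V' : ℝ → Vc, RSol ν S V' → ZZ (V' 0 - V 0) ≤ δ → ∀ s ∈ Icc 0 S, ZZ (V' s - V s) ≤ ε := by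
  obtain ⟨K, hK⟩ := UB.bd h.ub
  obtain ⟨C, hC⟩ := stab_static hν K
  obtain ⟨δ, hδ, hr⟩ := riccati C hS.le hε
  refine ⟨δ, hδ, fun W h' h0 => ?_⟩
  have he := h.evo_diff h' hS
  refine hr (fun s => ZZ (W s - V s))
    (fun s => dZZ (GG ν (W s) - GG ν (V s)) (curl (W s - V s)))
    ((he.ider_one hS).add (he.ider_gw hS) hS.le) (fun s hs => ⟨ZZ_nonneg _, ?_⟩) h0
  exact hC (V s) (W s) (fun i => (h.ub i).1 s hs) (fun i => (h'.ub i).1 s hs) (h.dv s hs)
    (h'.dv s hs) (hK s hs)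

theorem RSol.uniq (h : RSol ν S V) (h' : RSol ν S V') (hν : 0 < ν) (hS : 0 < S)
    (h0 : V' 0 = V 0) : ∀ s ∈ Icc 0 S, V' s = V s := by
  intro s hs
  have hz : ZZ (V' 0 - V 0) = 0 := by
    rw [h0, sub_self]
    have hc : curl (0 : Vc) = 0 := by
      funext i y
      simp [curl, pd]
    simp [ZZ, nw, gw, hc, dot, pd]
  have hle : ZZ (V' s - V s) ≤ 0 := by
    refine le_of_forall_pos_le_add fun ε hε => ?_
    obtain ⟨δ, hδ, hs'⟩ := h.stab hν hS hε
    rw [zero_add]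
    exact hs' V' h' (hz.le.trans hδ.le) s hs
  have hH : ∀ i, Hinf ((V' s - V s) i) := fun i =>
    hinf_sub ((h'.ub i).1 s hs) ((h.ub i).1 s hs)
  have hd : ∀ y, dvg (V' s - V s) y = 0 := fun y => by
    rw [dvg_sub (fun i => ((h'.ub i).1 s hs).1) (fun i => ((h.ub i).1 s hs).1), h'.dv s hs,
      h.dv s hs, sub_zero]
  funext i y
  have h1 := zz_sup hH hd i y
  have h2 : (V' s - V s) i y = 0 := by
    refine pow_eq_zero_iff (n := 2) (by norm_num) |>.1 (le_antisymm (by linarith) (sq_nonneg _))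
  exact sub_eq_zero.1 h2

theorem exists_orbit (hν : 0 < ν) (hb : ¬Blow ν 1) {U0 : Vc} (hU : Bg U0) : ∃ V : ℝ → Vc,
    (∀ S > 0, RSol ν S V) ∧ V 0 = U0 ∧ (∀ s ≥ 0, Eqv (V s)) ∧
      ∃ C, ∀ s ≥ 0, ∀ i y, |curl (V s) i y| ≤ C * Real.exp (-s) := by
  have hsm : ContDiff ℝ ∞ fun y : R3 => (WithLp.toLp 2 fun i => U0 i y : R3) :=
    contDiff_euclidean.2 fun i => hU.smooth i
  have hcs : HasCompactSupport fun y : R3 => (WithLp.toLp 2 fun i => U0 i y : R3) := by
    refine HasCompactSupport.intro (K := ⋃ i, tsupport (U0 i))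
      (isCompact_iUnion fun i => (hU.supp i).isCompact) fun y hy => ?_
    ext i
    simp only [mem_iUnion, not_exists] at hy
    simpa using image_eq_zero_of_notMem_tsupport (hy i)
  have hex : ∃ u p U, FSol (3 / 4) ν (hcs.toSchwartzMap hsm) 1 u p U := by
    by_contra hne
    exact hb ⟨hcs.toSchwartzMap hsm, fun x => hU.dv x, hne⟩
  obtain ⟨w, q, U, hF⟩ := hex
  have hP := psol_of_fsol hF
  have h0 : resc (fun t i y => w y t i) 0 = U0 := by
    rw [resc_zero]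
    funext i y
    rw [hF.initial y]
    rfl
  have key : ∀ M : Matrix (Fin 3) (Fin 3) ℝ, M.transpose * M = 1 → EqM M U0 →
      ∀ s ≥ 0, EqM M (resc (fun t i y => w y t i) s) := by
    intro M hM hE s hs
    have hS : 0 < s + 1 := by linarith
    have h1 := (hP.rsol hS).uniq ((hP.rot hM).rsol hS) hν hS
      (by rw [resc_rot, h0]; exact (rot_eq_iff hM U0).2 hE) s ⟨hs, by linarith⟩
    rw [resc_rot] at h1
    exact (rot_eq_iff hM _).1 h1
  exact ⟨_, fun S hS => hP.rsol hS, h0, fun s hs =>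
    ⟨fun θ => key _ (rotM_orth θ) (hU.eqv.1 θ) s hs, key _ flpM_orth hU.eqv.2 s hs⟩, hP.decay⟩

theorem RSol.ider_mom (h : RSol ν S V) (hS : 0 < S) {B : Vc} (hB : Bg B) {θ : Vc}
    (hθ : ∀ i, Sym (-3) (θ i)) :
    IDer S (fun s => mom θ (V s - B)) fun s => dM ν B θ (V s - B) :=
  (h.evo hS hB).ider_ip hS hθ

theorem DynUq_sq (h : RSol ν S V) (hS : 0 < S) {B : Vc} (hB : Bg B) {n : ℕ} {θ : Fin n → Vc}
    (hθ : ∀ a i, Sym (-3) (θ a i)) :
    IDer S (fun s => ∑ a, mom (θ a) (V s - B) ^ 2)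
      fun s => 2 * ∑ a, mom (θ a) (V s - B) * dM ν B (θ a) (V s - B) := by
  refine (IDer.sum Finset.univ (fun a _ => (h.ider_mom hS hB (hθ a)).mul
    (h.ider_mom hS hB (hθ a)) hS.le) hS.le).congr hS.le (fun s _ => ?_) fun s _ => ?_
  · exact Finset.sum_congr rfl fun a _ => (sq _).symm
  · rw [Finset.mul_sum]
    exact Finset.sum_congr rfl fun a _ => by ring

theorem RSol.iderZ (h : RSol ν S V) (hS : 0 < S) {B : Vc} (hB : Bg B) {L : Lyap} (hL : L.Good) :
    IDer S (fun s => L.zz (V s - B)) fun s => L.dZ ν B (V s - B) := by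
  refine (DynUq_sq h hS hB (good_Z hL)).congr hS.le (fun s _ => rfl) fun s _ => rfl

theorem DynUq_F (h : RSol ν S V) (hS : 0 < S) {B : Vc} (hB : Bg B) {L : Lyap} (hL : L.Good) :
    IDer S (fun s => ∑ a, mom (L.θF a) (V s - B) * mom (L.θ a) (V s - B))
      fun s => 2 * ∑ a, mom (L.θF a) (V s - B) * dM ν B (L.θ a) (V s - B) := by
  have e : ∀ s ∈ Icc 0 S, ∀ a, mom (L.θF a) (V s - B) = ∑ b, L.F a b * mom (L.θ b) (V s - B) :=
    fun s hs a => DynCt_F hL (hinf_curl fun i => hinf_sub ((h.ub i).1 s hs) (bg_hinf hB i)) a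
  refine (IDer.sum Finset.univ (fun a _ => IDer.sum Finset.univ (fun b _ =>
    ((h.ider_mom hS hB (hL.1 b)).mul (h.ider_mom hS hB (hL.1 a)) hS.le).const_mul (L.F a b))
    hS.le) hS.le).congr hS.le (fun s hs => ?_) fun s hs => ?_
  · simp only [e s hs, Finset.sum_mul, mul_assoc]
  · simp only [e s (Ioo_subset_Icc_self hs), Finset.sum_mul, mul_add, Finset.sum_add_distrib,
      two_mul, mul_assoc, add_left_inj]
    rw [Finset.sum_comm]
    exact Finset.sum_congr rfl fun a _ => Finset.sum_congr rfl fun b _ => by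
      rw [hL.2.1 b a, mul_comm (dM ν B (L.θ a) _)]

theorem RSol.iderE (h : RSol ν S V) (hS : 0 < S) {B : Vc} (hB : Bg B) {L : Lyap} (hL : L.Good) :
    IDer S (fun s => L.E (V s - B)) fun s => L.dE ν B (V s - B) := by
  have he := h.evo hS hB
  have h1 := ((he.ider_Om hS).add (DynUq_F h hS hB hL) hS.le).add
    ((he.ider_gw hS).const_mul L.κ) hS.le
  refine h1.congr hS.le (fun s _ => ?_) fun s _ => ?_
  · unfold Lyap.E Lyap.X Lyap.X1 Lyap.Xv Lyap.zz mom
    ring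
  · simp only [Lyap.dE, dW, dH]
    ring

end Pool.Agent.Work.MP_6bf1e5_an.H.Dyn
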