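import Pool.Agent.Work.MP_6bf1e5_an.H.ExOde

/-!
A priori bounds, uniqueness, regularity.
Hints. apri: Q x := ∀ t ∈ Icc 0 T, Le 4 (x exp (l t)) (U t); NL_le gives ‖NL‖ ≤ 36 π 2 ^ 4 (2 x K) ‖ξ‖ wt 4 ξ exp (l t),
ode1 and sym_small with ε = 1 / (4 * 36 π 16 (|K| + 1)) give the step of halve (1 ≤ exp (l t)); then
le_of_forall_pos_le_add. uniq: the same for W = U - V with a = 0, NL_sub, L1_le (L1 W ≤ c4 x exp (l t)).
bd_all: induction on n for r = 4 + n / 2 with ode1 (l = 1), NL_le, sym_gain, wt_add; then Le.mono.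
dv: z t = ∑ i, ξ i * U t i ξ solves z' = -h z (NL_dv), ode1 with A = 0. hm: PreS.cj and uniq.
-/

open scoped ContDiff ENNReal FourierTransform Real
open Set MeasureTheory

namespace Pool.Agent.Work.MP_6bf1e5_an.H.Ex

variable {ν T : ℝ} {U V : ℝ → Fv}

theorem PreS.mono (h : PreS ν T U) {T' : ℝ} (hT : T' ≤ T) : PreS ν T' U := by
  have hs : Icc 0 T' ⊆ Icc 0 T := Icc_subset_Icc_right hT
  refine ⟨fun i => (h.jc i).mono (prod_mono hs le_rfl), ?_, fun i ξ t ht => (h.ode i ξ t (hs ht)).mono hs⟩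
  obtain ⟨A, hA⟩ := h.bd
  exact ⟨A, fun t ht => hA t (hs ht)⟩

theorem PreS.congr (h : PreS ν T U) (e : ∀ t ∈ Icc 0 T, V t = U t) : PreS ν T V := by
  refine ⟨fun i => (h.jc i).congr fun z hz => ?_, ?_, fun i ξ t ht => ?_⟩
  · show V z.1 i z.2 = U z.1 i z.2
    rw [e z.1 hz.1]
  · obtain ⟨A, hA⟩ := h.bd
    exact ⟨A, fun t ht => by rw [e t ht]; exact hA t ht⟩
  · rw [e t ht]
    exact (h.ode i ξ t ht).congr (fun s hs => by rw [e s hs]) (by rw [e t ht])

theorem PreS.cj (h : PreS ν T U) : PreS ν T fun t => cj (U t) := by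
  refine ⟨fun i => ?_, ?_, fun i ξ t ht => ?_⟩
  · have h1 : ContinuousOn (fun z : ℝ × R3 => U z.1 i (-z.2)) (Icc 0 T ×ˢ univ) :=
      (h.jc i).comp (f := fun z : ℝ × R3 => (z.1, -z.2)) (by fun_prop)
        (fun z hz => ⟨hz.1, mem_univ _⟩)
    exact Complex.continuous_conj.comp_continuousOn h1
  · obtain ⟨A, hA⟩ := h.bd
    exact ⟨A, fun t ht => (hA t ht).cj⟩
  · have h1 := (h.ode i (-ξ) t ht).star
    rw [NL_cj]
    exact h1.congr_deriv (by simp [Ex.cj, hr_neg])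

theorem ExApr_core (hν : 0 < ν) {K : ℝ} (hK : 0 ≤ K) : ∃ l > 0, ∀ (T a : ℝ) (W ρ : ℝ → Fv),
    (∀ i ξ, ∀ t ∈ Icc 0 T, HasDerivWithinAt (fun s => W s i ξ)
      (-((hr ν ξ : ℂ) * W t i ξ) - ρ t i ξ) (Icc 0 T) t) →
    (∃ m, ∀ t ∈ Icc 0 T, Le 4 m (W t)) → Le 4 a (W 0) →
    (∀ t ∈ Icc 0 T, ∀ y, Le 4 y (W t) → ∀ i ξ, ‖ρ t i ξ‖ ≤ K * y * (‖ξ‖ * wt 4 ξ)) →
    ∀ t ∈ Icc 0 T, Le 4 (2 * a * Real.exp (l * t)) (W t) := by
  obtain ⟨l, hl, hs⟩ := sym_small (ε := 1 / (2 * (K + 1))) hν (by positivity)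
  refine ⟨l, hl, ?_⟩
  intro T a W ρ ode ⟨m, hm⟩ ha hρ
  have ha0 : 0 ≤ a := ha.nonneg
  have he : ∀ t ∈ Icc 0 T, 1 ≤ Real.exp (l * t) := fun t ht =>
    Real.one_le_exp (mul_nonneg hl.le ht.1)
  have key := halve (Q := fun x => ∀ t ∈ Icc 0 T, Le 4 (x * Real.exp (l * t)) (W t)) (a := a)
    (m := |m|) ha0 (abs_nonneg m) ?_ ?_ ?_
  · intro t ht i ξ
    have hw := wt_pos 4 ξ
    have hE := Real.exp_pos (l * t)
    refine le_of_forall_pos_le_add fun ε hε => ?_
    have := key (ε / (Real.exp (l * t) * wt 4 ξ)) (by positivity) t ht i ξ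
    refine this.trans (le_of_eq ?_)
    field_simp
  · intro t ht
    refine (hm t ht).mono ?_ le_rfl
    have := he t ht
    have h1 := le_abs_self m
    have h2 := abs_nonneg m
    nlinarith
  · intro x y hxy hx t ht
    exact (hx t ht).mono (mul_le_mul_of_nonneg_right hxy (Real.exp_pos _).le) le_rfl
  · intro x hx hQ t ht i ξ
    have hw := wt_pos 4 ξ
    have hE := Real.exp_pos (l * t)
    have hh := hr_nonneg hν.le ξ
    have h1 := ode1 (T := T) (h := hr ν ξ) (l := l) (A := K * x * (‖ξ‖ * wt 4 ξ))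
      (z := fun s => W s i ξ) (ρ := fun s => ρ s i ξ) hh hl (by positivity) (ode i ξ)
      (fun s hs' => by
        refine (hρ s hs' _ (hQ s hs') i ξ).trans (le_of_eq ?_)
        ring) t ht
    have h2 : K * x * (‖ξ‖ * wt 4 ξ) * Real.exp (l * t) / (hr ν ξ + l)
        = K * x * wt 4 ξ * Real.exp (l * t) * (‖ξ‖ / (hr ν ξ + l)) := by ring
    have h3 : K * x * wt 4 ξ * Real.exp (l * t) * (‖ξ‖ / (hr ν ξ + l))
        ≤ K * x * wt 4 ξ * Real.exp (l * t) * (1 / (2 * (K + 1))) :=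
      mul_le_mul_of_nonneg_left (hs ξ) (by positivity)
    have h4 : K * (1 / (2 * (K + 1))) ≤ 1 / 2 := by
      rw [mul_one_div, div_le_div_iff₀ (by positivity) (by positivity)]
      nlinarith
    have h5 : K * x * wt 4 ξ * Real.exp (l * t) * (1 / (2 * (K + 1)))
        ≤ x * wt 4 ξ * Real.exp (l * t) * (1 / 2) := by
      have : K * x * wt 4 ξ * Real.exp (l * t) * (1 / (2 * (K + 1)))
          = x * wt 4 ξ * Real.exp (l * t) * (K * (1 / (2 * (K + 1)))) := by ring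
      rw [this]
      exact mul_le_mul_of_nonneg_left h4 (by positivity)
    have h6 : ‖W 0 i ξ‖ ≤ a * wt 4 ξ * Real.exp (l * t) := by
      refine (ha i ξ).trans ?_
      exact le_mul_of_one_le_right (by positivity) (he t ht)
    calc ‖W t i ξ‖ ≤ ‖W 0 i ξ‖ + K * x * (‖ξ‖ * wt 4 ξ) * Real.exp (l * t) / (hr ν ξ + l) := h1
      _ ≤ a * wt 4 ξ * Real.exp (l * t) + x * wt 4 ξ * Real.exp (l * t) * (1 / 2) := by
        rw [h2]; linarith
      _ = (a + x / 2) * Real.exp (l * t) * wt 4 ξ := by ring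

theorem apri (hν : 0 < ν) (K : ℝ) : ∃ l > 0, ∀ (T A : ℝ) (U : ℝ → Fv), PreS ν T U →
    Le 4 A (U 0) → (∀ t ∈ Icc 0 T, L1 (U t) ≤ K) →
    ∀ t ∈ Icc 0 T, Le 4 (2 * A * Real.exp (l * t)) (U t) := by
  obtain ⟨l, hl, H⟩ := ExApr_core (K := 36 * π * 2 ^ (4 : ℝ) * (2 * |K|)) hν (by positivity)
  refine ⟨l, hl, fun T A U h hA hK => H T A U (fun t => NL (U t) (U t)) h.ode h.bd hA ?_⟩
  intro t ht y hy i ξ
  have hc := h.jc.ct ht
  refine (NL_le hc hc le_rfl hy hy i ξ).trans ?_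
  have hw := wt_pos 4 ξ
  have hy0 := hy.nonneg
  refine mul_le_mul_of_nonneg_right ?_ (by positivity)
  have h1 : y * L1 (U t) ≤ y * |K| :=
    mul_le_mul_of_nonneg_left ((hK t ht).trans (le_abs_self K)) hy0
  have h2 : 36 * π * 2 ^ (4 : ℝ) * (2 * |K|) * y
      = 36 * π * 2 ^ (4 : ℝ) * (y * |K| + y * |K|) := by ring
  rw [h2]
  exact mul_le_mul_of_nonneg_left (by linarith) (by positivity)

theorem PreS.uniq (h : PreS ν T U) (h' : PreS ν T V) (hν : 0 < ν) (h0 : V 0 = U 0) :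
    ∀ t ∈ Icc 0 T, V t = U t := by
  obtain ⟨A, hA⟩ := h.bd
  obtain ⟨B, hB⟩ := h'.bd
  have hc4 := c4_nonneg
  obtain ⟨l, hl, H⟩ := ExApr_core (K := 36 * π * 2 ^ (4 : ℝ) * (2 * c4 * (|A| + |B|))) hν
    (by positivity)
  have key := H T 0 (fun t => V t - U t) (fun t => NL (V t) (V t) - NL (U t) (U t))
    (fun i ξ t ht => by
      have h1 := (h'.ode i ξ t ht).sub (h.ode i ξ t ht)
      exact h1.congr_deriv (by simp only [Pi.sub_apply]; ring))
    ⟨B + A, fun t ht => (hB t ht).sub (hA t ht)⟩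
    (fun i ξ => by simp [h0]) ?_
  · intro t ht
    funext i ξ
    have h1 := key t ht i ξ
    simp only [mul_zero, zero_mul, Pi.sub_apply, norm_le_zero_iff, sub_eq_zero] at h1
    exact h1
  · intro t ht y hy i ξ
    have hU := h.jc.ct ht
    have hV := h'.jc.ct ht
    have hW := hV.sub hU
    have hw := wt_pos 4 ξ
    have hy0 := hy.nonneg
    have bA := (hA t ht).mono (le_abs_self A) le_rfl
    have bB := (hB t ht).mono (le_abs_self B) le_rfl
    have hA0 := abs_nonneg A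
    have hB0 := abs_nonneg B
    simp only [Pi.sub_apply]
    rw [NL_sub hV hU bB bA]
    refine (norm_add_le _ _).trans ?_
    have h1 := NL_le hW hV le_rfl hy bB i ξ
    have h2 := NL_le hU hW le_rfl bA hy i ξ
    have l1 := L1_le hy
    have l2 := L1_le bA
    have l3 := L1_le bB
    have e1 : y * L1 (V t) + |B| * L1 (V t - U t) ≤ y * (c4 * |B|) + |B| * (c4 * y) :=
      add_le_add (mul_le_mul_of_nonneg_left l3 hy0) (mul_le_mul_of_nonneg_left l1 hB0)
    have e2 : |A| * L1 (V t - U t) + y * L1 (U t) ≤ |A| * (c4 * y) + y * (c4 * |A|) :=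
      add_le_add (mul_le_mul_of_nonneg_left l1 hA0) (mul_le_mul_of_nonneg_left l2 hy0)
    have hp : 0 ≤ 36 * π * 2 ^ (4 : ℝ) := by positivity
    have hq : 0 ≤ ‖ξ‖ * wt 4 ξ := by positivity
    have f1 := h1.trans (mul_le_mul_of_nonneg_right (mul_le_mul_of_nonneg_left e1 hp) hq)
    have f2 := h2.trans (mul_le_mul_of_nonneg_right (mul_le_mul_of_nonneg_left e2 hp) hq)
    refine (add_le_add f1 f2).trans (le_of_eq ?_)
    ring

theorem PreS.bd_all (h : PreS ν T U) (hν : 0 < ν) (h0 : Dat (U 0)) (r : ℝ) :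
    ∃ A, ∀ t ∈ Icc 0 T, Le r A (U t) := by
  obtain ⟨A0, hA0⟩ := h.bd
  obtain ⟨C, hC, hg⟩ := sym_gain hν
  have hc4 := c4_nonneg
  have key : ∀ n : ℕ, ∃ A, ∀ t ∈ Icc 0 T, Le (4 + n / 2) A (U t) := by
    intro n
    induction n with
    | zero => exact ⟨A0, fun t ht => by simpa using hA0 t ht⟩
    | succ n ih =>
      obtain ⟨A, hA⟩ := ih
      obtain ⟨A', hA'⟩ := h0.bd (4 + n / 2 + 1 / 2)
      set r : ℝ := 4 + n / 2 with hr'
      have hr4 : 4 ≤ r := by
        have : (0 : ℝ) ≤ n / 2 := by positivity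
        linarith
      set M : ℝ := 36 * π * 2 ^ r * (2 * (|A| * (c4 * |A0|))) with hM
      have hM0 : 0 ≤ M := by positivity
      refine ⟨A' + M * Real.exp T * C, fun t ht i ξ => ?_⟩
      have e : (4 : ℝ) + ((n + 1 : ℕ) : ℝ) / 2 = r + 1 / 2 := by
        rw [hr']; push_cast; ring
      rw [e]
      have hw := wt_pos r ξ
      have hw' := wt_pos (1 / 2) ξ
      have hh := hr_nonneg hν.le ξ
      have h1 := ode1 (T := T) (h := hr ν ξ) (l := 1) (A := M * (‖ξ‖ * wt r ξ))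
        (z := fun s => U s i ξ) (ρ := fun s => NL (U s) (U s) i ξ) hh one_pos (by positivity)
        (h.ode i ξ)
        (fun s hs => by
          have hc := h.jc.ct hs
          have bA := (hA s hs).mono (le_abs_self A) le_rfl
          have l1 := L1_le ((hA0 s hs).mono (le_abs_self A0) le_rfl)
          have e1 : |A| * L1 (U s) ≤ |A| * (c4 * |A0|) :=
            mul_le_mul_of_nonneg_left l1 (abs_nonneg A)
          refine (NL_le hc hc hr4 bA bA i ξ).trans ?_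
          refine le_trans ?_ (le_mul_of_one_le_right (by positivity)
            (Real.one_le_exp (by simpa using hs.1)))
          refine mul_le_mul_of_nonneg_right ?_ (by positivity)
          exact mul_le_mul_of_nonneg_left (by linarith) (by positivity)) t ht
      have h2 : M * (‖ξ‖ * wt r ξ) * Real.exp (1 * t) / (hr ν ξ + 1)
          = M * wt r ξ * Real.exp (1 * t) * (‖ξ‖ / (hr ν ξ + 1)) := by ring
      have h3 : Real.exp (1 * t) ≤ Real.exp T := Real.exp_le_exp.2 (by simpa using ht.2)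
      have h4 : M * wt r ξ * Real.exp (1 * t) * (‖ξ‖ / (hr ν ξ + 1))
          ≤ M * wt r ξ * Real.exp T * (C * wt (1 / 2) ξ) :=
        mul_le_mul (mul_le_mul_of_nonneg_left h3 (by positivity)) (hg ξ) (by positivity)
          (by positivity)
      have h5 := hA' i ξ
      rw [wt_add] at h5 ⊢
      calc ‖U t i ξ‖ ≤ ‖U 0 i ξ‖ + M * (‖ξ‖ * wt r ξ) * Real.exp (1 * t) / (hr ν ξ + 1) := h1
        _ ≤ A' * (wt r ξ * wt (1 / 2) ξ) + M * wt r ξ * Real.exp T * (C * wt (1 / 2) ξ) := by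
          rw [h2]; linarith
        _ = _ := by ring
  obtain ⟨n, hn⟩ := exists_nat_ge (2 * r)
  obtain ⟨A, hA⟩ := key n
  exact ⟨A, fun t ht => (hA t ht).mono le_rfl (by linarith)⟩

theorem PreS.dat (h : PreS ν T U) (hν : 0 < ν) (h0 : Dat (U 0)) {t : ℝ} (ht : t ∈ Icc 0 T) :
    Dat (U t) := by
  refine ⟨h.jc.ct ht, fun r => ?_, fun ξ => ?_, ?_⟩
  · obtain ⟨A, hA⟩ := h.bd_all hν h0 r
    exact ⟨A, hA t ht⟩
  · have h1 := ode1 (T := T) (h := hr ν ξ) (l := 1) (A := 0)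
      (z := fun s => ∑ i, ((ξ i : ℝ) : ℂ) * U s i ξ) (ρ := fun _ => 0) (hr_nonneg hν.le ξ) one_pos
      le_rfl
      (fun s hs => by
        have h2 := HasDerivWithinAt.fun_sum (u := Finset.univ)
          (fun i _ => (h.ode i ξ s hs).const_mul ((ξ i : ℝ) : ℂ))
        refine h2.congr_deriv ?_
        have h3 := NL_dv (U s) (U s) ξ
        simp only [mul_sub, Finset.sum_sub_distrib, h3, Finset.mul_sum, mul_neg,
          Finset.sum_neg_distrib]
        congr 2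
        exact Finset.sum_congr rfl fun i _ => by ring)
      (fun s _ => by simp) t ht
    have h4 := h0.dv ξ
    simp only [h4, norm_zero, zero_mul, zero_div, add_zero, norm_le_zero_iff] at h1
    exact h1
  · exact h.uniq h.cj hν h0.hm t ht

end Pool.Agent.Work.MP_6bf1e5_an.H.Ex
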