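import Pool.Agent.Work.MP_6bf1e5_an.H.ExLoc
import Pool.Agent.Work.MP_6bf1e5_an.H.ExApr

/-!
Concatenation and the maximal solution on the Fourier side.
Hints. cat: Icc 0 (T1 + T2) = Icc 0 T1 ∪ Icc T1 (T1 + T2); ContinuousOn.union_of_isClosed; HasDerivWithinAt.union (at a
point outside the closure of one piece use hasDerivWithinAt_of_notMem_closure or HasFDerivWithinAt.of_notMem_closure);
on Icc T1 (T1 + T2) the function equals V (t - T1), also at t = T1. maxF: U t := if h : ∃ V, PreS ν t V ∧ V 0 = F then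
h.choose t else F (open Classical). If PreS ν T V and V 0 = F then U = V on Icc 0 T (PreS.mono, PreS.uniq), so PreS ν T U
(PreS.congr). Continuation: Le 4 A F, l from apri K, T0 from loc with R = 2 A exp (l T). If T = 0 use loc for F, else
restart at T' = max (T / 2) (T - T0 / 2) with the datum U T' (JC.ct, Le.mono) and use cat.
-/

open scoped ContDiff ENNReal FourierTransform Real
open Set MeasureTheory

namespace Pool.Agent.Work.MP_6bf1e5_an.H.Ex

variable {ν : ℝ}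

theorem PreS.cat {T1 T2 : ℝ} {U V : ℝ → Fv} (h : PreS ν T1 U) (h' : PreS ν T2 V) (h1 : 0 ≤ T1)
    (h2 : 0 ≤ T2) (e : V 0 = U T1) :
    PreS ν (T1 + T2) fun t => if t ≤ T1 then U t else V (t - T1) := by
  have eq : Icc 0 (T1 + T2) = Icc 0 T1 ∪ Icc T1 (T1 + T2) :=
    (Icc_union_Icc_eq_Icc h1 (le_add_of_nonneg_right h2)).symm
  obtain ⟨W, hW⟩ : ∃ W : ℝ → Fv, W = fun t => if t ≤ T1 then U t else V (t - T1) := ⟨_, rfl⟩
  have e1 : ∀ t ∈ Icc 0 T1, W t = U t := fun t ht => by rw [hW]; exact if_pos ht.2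
  have e2 : ∀ t ∈ Icc T1 (T1 + T2), W t = V (t - T1) := fun t ht => by
    rcases ht.1.eq_or_lt with rfl | h3
    · rw [e1 _ ⟨h1, le_rfl⟩, sub_self, e]
    · rw [hW]
      exact if_neg h3.not_ge
  have m : MapsTo (fun t => t - T1) (Icc T1 (T1 + T2)) (Icc 0 T2) := fun t ht =>
    ⟨sub_nonneg.2 ht.1, sub_le_iff_le_add'.2 ht.2⟩
  rw [← hW]
  refine ⟨fun i => ?_, ?_, fun i ξ t _ => ?_⟩
  · rw [eq, union_prod]
    refine ContinuousOn.union_of_isClosed ((h.jc i).congr fun z hz => by rw [e1 _ hz.1])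
      (((h'.jc i).comp (f := fun z : ℝ × R3 => (z.1 - T1, z.2)) (by fun_prop)
        fun z hz => ⟨m hz.1, trivial⟩).congr fun z hz => by rw [e2 _ hz.1]; rfl)
      (isClosed_Icc.prod isClosed_univ) (isClosed_Icc.prod isClosed_univ)
  · obtain ⟨A, hA⟩ := h.bd
    obtain ⟨B, hB⟩ := h'.bd
    refine ⟨max A B, fun t ht => ?_⟩
    rcases eq.subset ht with ht | ht
    · rw [e1 t ht]
      exact (hA t ht).mono (le_max_left _ _) le_rfl
    · rw [e2 t ht]
      exact (hB _ (m ht)).mono (le_max_right _ _) le_rfl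
  · rw [eq]
    refine HasDerivWithinAt.union ?_ ?_
    · by_cases ht : t ∈ Icc 0 T1
      · rw [e1 t ht]
        exact (h.ode i ξ t ht).congr (fun s hs => by rw [e1 s hs]) (by rw [e1 t ht])
      · exact HasFDerivWithinAt.of_notMem_closure (by rwa [closure_Icc])
    · by_cases ht : t ∈ Icc T1 (T1 + T2)
      · rw [e2 t ht]
        have h3 := (h'.ode i ξ _ (m ht)).scomp t
          ((hasDerivAt_id t).sub_const T1).hasDerivWithinAt m
        rw [one_smul] at h3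
        exact h3.congr (fun s hs => by rw [e2 s hs]; rfl) (by rw [e2 t ht]; rfl)
      · exact HasFDerivWithinAt.of_notMem_closure (by rwa [closure_Icc])

theorem maxF (hν : 0 < ν) {F : Fv} (hc : Ct F) {A : ℝ} (hA : Le 4 A F) : ∃ U : ℝ → Fv, U 0 = F ∧
    ∀ T ≥ 0, ∀ K, (∀ T' ∈ Ioo 0 T, PreS ν T' U ∧ ∀ t ∈ Icc 0 T', L1 (U t) ≤ K) →
      ∃ ε > 0, PreS ν (T + ε) U := by
  classical
  obtain ⟨U, hU⟩ : ∃ U : ℝ → Fv,
      ∀ t, U t = if h : ∃ V, PreS ν t V ∧ V 0 = F then h.choose t else F := ⟨_, fun _ => rfl⟩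
  have h0 : U 0 = F := by
    rw [hU]
    split_ifs with h
    exacts [h.choose_spec.2, rfl]
  have key : ∀ T V, PreS ν T V → V 0 = F → PreS ν T U := fun T V hV e => hV.congr fun t ht => by
    have h : ∃ V, PreS ν t V ∧ V 0 = F := ⟨V, hV.mono ht.2, e⟩
    rw [hU, dif_pos h]
    exact (hV.mono ht.2).uniq h.choose_spec.1 hν (h.choose_spec.2.trans e.symm) t ⟨ht.1, le_rfl⟩
  refine ⟨U, h0, fun T hT K h => ?_⟩
  rcases hT.eq_or_lt with rfl | hT
  · obtain ⟨T0, h1, h2⟩ := loc hν A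
    obtain ⟨V, h3, h4⟩ := h2 F hc hA
    exact ⟨T0, h1, by rw [zero_add]; exact key _ V h3 h4⟩
  obtain ⟨l, l0, hl⟩ := apri hν K
  obtain ⟨T0, h1, h2⟩ := loc hν (2 * A * Real.exp (l * T))
  obtain ⟨S, s0, s1, s2⟩ : ∃ S, 0 < S ∧ S < T ∧ T < S + T0 :=
    ⟨max (T / 2) (T - T0 / 2), lt_max_of_lt_left (half_pos hT),
      max_lt (half_lt_self hT) (by linarith), by linarith [le_max_right (T / 2) (T - T0 / 2)]⟩
  obtain ⟨h3, h4⟩ := h S ⟨s0, s1⟩
  have h5 := hA.nonneg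
  obtain ⟨V, h6, h7⟩ := h2 (U S) (h3.jc.ct ⟨s0.le, le_rfl⟩)
    ((hl S A U h3 (h0 ▸ hA) h4 S ⟨s0.le, le_rfl⟩).mono (by gcongr) le_rfl)
  refine ⟨S + T0 - T, sub_pos.2 s2, ?_⟩
  rw [add_sub_cancel]
  exact key _ _ (h3.cat h6 s0.le h1.le h7) ((if_pos s0.le).trans h0)

end Pool.Agent.Work.MP_6bf1e5_an.H.Ex
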