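import Pool.Agent.Work.MP_6bf1e5_an.H.ExConv
import Pool.Agent.Work.MP_6bf1e5_an.H.DynRS

/-!
Admissible data in physical space.
Hints. repH: repH_of_mem (MemLp by domination with wt 2, whose square wt 4 is integrable; pow_wt), Ens.ev_real with
Dat.hm. div: RepA.pd, RepA.fsum, RepA.ext with four_zero. prod: Ens.ev_cv, cv_le, cv_cont or Ens.integrable_cv_self
for the measurability. nl_split: see Ens.classical_NL. of_bg: F i = 𝓕 of the Schwartz map of FourB_test (its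
inverse transform is B i by the inversion formula for Schwartz maps); SchwartzMap.one_add_le_sup_seminorm_apply or
decay for the bounds (compare wt r with wt ⌈r⌉₊); Dv and cj F = F hold a.e. by four_div and RepA.herm, hence
everywhere (Continuous.ae_eq_iff_eq). L2_eq: RepH.sq, Dyn.nw_one. L1_phys: ‖F‖ ≤ w⁻¹ + w ‖F‖ ^ 2 with
w = 1 + (2 π ‖ξ‖) ^ 4, FourE_lap, RepH.sq; ∑ i, ∫ lap (u i) ^ 2 = gw 1 (curl u) by Dp_grad_eq_curl (s = 1),
sum_Dp_pd_sq (s = 1 and s = 0), Dp_two, Dyn.dp_zero, Dyn.gw_one.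
-/

open scoped ContDiff ENNReal FourierTransform Real
open Set MeasureTheory

namespace Pool.Agent.Work.MP_6bf1e5_an.H.Ex

variable {F : Fv}

theorem ExDat_rep {f : Sc} {G : R3 → ℂ} (hm : AEStronglyMeasurable G volume)
    (hb : ∀ r ≥ 4, ∃ A, ∀ ξ, ‖G ξ‖ ≤ A * wt r ξ) (hf : ∀ x, (f x : ℂ) = 𝓕⁻ G x) : RepH f G := by
  refine repH_of_mem (fun k => ?_) hf
  obtain ⟨A, hA⟩ := hb (4 + k) (le_add_of_nonneg_right k.cast_nonneg)
  have h1 : MemLp (wt 4) 2 volume := by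
    refine (memLp_two_iff_integrable_sq (wt_cont 4).aestronglyMeasurable).2 ?_
    simp only [sq, ← wt_add]
    exact wt_int (by norm_num)
  refine (h1.const_mul A).mono' ((FourA_wt k).aestronglyMeasurable.mul hm)
    (Filter.Eventually.of_forall fun ξ => ?_)
  rw [FourA_norm, ← pow_wt k 4 ξ, mul_left_comm]
  exact mul_le_mul_of_nonneg_left (hA ξ) (by positivity)

theorem ExDat_sch (φ : SchwartzMap R3 ℂ) (r : ℝ) : ∃ A ≥ 0, ∀ ξ, ‖φ ξ‖ ≤ A * wt r ξ := by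
  have h := SchwartzMap.one_add_le_sup_seminorm_apply (𝕜 := ℝ) (m := (⌈r⌉₊, 0)) le_rfl le_rfl φ
  simp only [norm_iteratedFDeriv_zero] at h
  have h0 := le_trans (by positivity) (h 0)
  refine ⟨_, h0, fun ξ => ?_⟩
  have h1 := pow_wt ⌈r⌉₊ 0 ξ
  rw [zero_add, show wt 0 ξ = 1 by simp [wt]] at h1
  calc ‖φ ξ‖ = (1 + ‖ξ‖) ^ ⌈r⌉₊ * ‖φ ξ‖ * wt ⌈r⌉₊ ξ := by rw [mul_right_comm, h1, one_mul]
    _ ≤ _ := mul_le_mul (h ξ) (wt_anti (Nat.le_ceil r) ξ) (wt_pos _ _).le h0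

theorem Dat.repH (h : Dat F) (i : Fin 3) : RepH (ph F i) (F i) := by
  refine ExDat_rep (h.ct i).aestronglyMeasurable (fun r _ => (h.bd r).imp fun A hA => hA i)
    fun x => Ens.ev_real (fun ξ => ?_) x
  have := congrFun (congrFun h.hm i) (-ξ)
  rw [cj, neg_neg] at this
  exact this.symm

theorem Dat.div (h : Dat F) (y : R3) : dvg (ph F) y = 0 := by
  refine congrFun ((RepA.fsum Finset.univ fun i _ => (h.repH i).1.pd i).ext four_zero.1
    (Filter.Eventually.of_forall fun ξ => ?_)) y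
  simp only [mul_assoc, ← Finset.mul_sum, h.dv ξ, mul_zero]

theorem Dat.prod (h : Dat F) (j k : Fin 3) :
    RepH (fun y => ph F j y * ph F k y) (Ens.cv (F j) (F k)) := by
  have hj := (h.repH j).1
  have hk := (h.repH k).1
  refine ExDat_rep (Ens.integrable_cv_self hj.int hk.int).1 (fun r hr => ?_) fun x => ?_
  · obtain ⟨A, hA⟩ := h.bd r
    refine ⟨2 ^ r * (A * (∫ η, ‖F k η‖) + A * ∫ η, ‖F j η‖), fun ξ => ?_⟩
    rw [mul_right_comm]
    exact cv_le hj.int.1 hk.int.1 hr (hA j) (hA k) ξ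
  · rw [Complex.ofReal_mul, hj.2, hk.2]
    exact (Ens.ev_cv hj.int hk.int x).symm

theorem nl_split (F : Fv) (i : Fin 3) (ξ : R3) : NL F F i ξ =
    ∑ j, 2 * π * Complex.I * (ξ j : ℝ) * Ens.cv (F j) (F i) ξ
      + 2 * π * Complex.I * (ξ i : ℝ) * PP F ξ := by
  have e : ∀ k j, 2 * π * Complex.I * (((Ens.lr ξ i k * ξ j : ℝ) : ℂ) * Ens.cv (F j) (F k) ξ) =
      (if i = k then 2 * π * Complex.I * (ξ j : ℝ) * Ens.cv (F j) (F k) ξ else 0) +
      2 * π * Complex.I * (ξ i : ℝ) *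
        (((-(ξ k * ξ j / ‖ξ‖ ^ 2) : ℝ) : ℂ) * Ens.cv (F j) (F k) ξ) := fun k j => by
    simp only [Ens.lr]
    split_ifs <;> push_cast <;> ring
  simp only [NL, PP, Finset.mul_sum, e, Finset.sum_add_distrib]
  rw [Finset.sum_comm]
  simp only [Finset.sum_ite_eq, Finset.mem_univ, if_true]

theorem Dat.adv (h : Dat F) (i : Fin 3) : RepH (fun y => ∑ j, ph F j y * pd j (ph F i) y)
    fun ξ => ∑ j, 2 * π * Complex.I * (ξ j : ℝ) * Ens.cv (F j) (F i) ξ := by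
  have h1 := RepH.fsum Finset.univ fun j _ => (h.prod j i).pd j
  have hs := fun j => (h.repH j).1.smooth
  have e : (fun y => ∑ j, pd j (fun y => ph F j y * ph F i y) y) =
      fun y => ∑ j, ph F j y * pd j (ph F i) y := by
    funext y
    have h2 := h.div y
    simp only [Dyn.pd_mul (hs _) (hs _), Finset.sum_add_distrib, ← Finset.sum_mul]
    rw [dvg] at h2
    rw [h2, zero_mul, zero_add]
  exact e ▸ h1

theorem of_bg {B : Vc} (hB : Bg B) : ∃ F, Dat F ∧ ph F = B := by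
  choose ψ hψ using fun i => FourB_test (hB.smooth i) (hB.supp i)
  have hc : ∀ i, Continuous (𝓕 (ψ i) : SchwartzMap R3 ℂ) := fun i => (𝓕 (ψ i)).continuous
  have hr : ∀ i, RepA (B i) (𝓕 (ψ i) : SchwartzMap R3 ℂ) := fun i => by
    refine (ExDat_rep (hc i).aestronglyMeasurable
      (fun r _ => (ExDat_sch _ r).imp fun A hA => hA.2) fun x => ?_).1
    rw [← SchwartzMap.fourierInv_coe, FourierTransform.fourierInv_fourier_eq, hψ]
  refine ⟨fun i => (𝓕 (ψ i) : SchwartzMap R3 ℂ), ⟨hc, fun r => ?_, fun ξ => ?_, ?_⟩,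
    funext fun i => (FourA_re (hr i)).symm⟩
  · choose A h0 hA using fun i => ExDat_sch (𝓕 (ψ i)) r
    exact ⟨∑ i, A i, fun i ξ => (hA i ξ).trans (mul_le_mul_of_nonneg_right
      (Finset.single_le_sum (fun j _ => h0 j) (Finset.mem_univ i)) (wt_pos r ξ).le)⟩
  · exact congrFun ((Continuous.ae_eq_iff_eq volume (by fun_prop) continuous_const).1
      (four_div hr hB.dv)) ξ
  · funext i ξ
    have h1 := congrFun ((Continuous.ae_eq_iff_eq volume ((hc i).comp continuous_neg)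
      (Complex.continuous_conj.comp (hc i))).1 (hr i).herm) ξ
    exact (congrArg (starRingEnd ℂ) h1).trans (Complex.conj_conj _)

theorem Dat.L2_eq (h : Dat F) : L2 F = nw 1 (ph F) := by
  rw [Dyn.nw_one fun i => (h.repH i).hinf]
  exact Finset.sum_congr rfl fun i _ => (h.repH i).sq.symm

theorem L1_phys : ∃ C, ∀ F, Dat F → L1 F ≤ C + nw 1 (ph F) + gw 1 (curl (ph F)) := by
  refine ⟨∑ _i : Fin 3, ∫ ξ : R3, ((1 + ‖ξ‖ ^ 2) ^ 2)⁻¹, fun F h => ?_⟩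
  have hH := fun i => (h.repH i).hinf
  have hc := Dyn.hinf_curl hH
  have e1 : gw 1 (curl (ph F)) = ∑ i, ∫ y, lap (ph F i) y ^ 2 := by
    have a1 := Dp_grad_eq_curl hH h.div zero_le_one
    have a2 := fun i => sum_Dp_pd_sq (hH i) zero_le_one
    have a3 := fun i => sum_Dp_pd_sq (hc i) le_rfl
    simp only [zero_add, Dp_zero ((hc _).pd _).inA] at a3
    simp only [one_add_one_eq_two, Dp_two (hH _).inA, neg_sq] at a2
    simp only [a2, ← a3] at a1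
    rw [Dyn.gw_one hc, a1]
  rw [e1, Dyn.nw_one hH, ← Finset.sum_add_distrib, ← Finset.sum_add_distrib]
  refine Finset.sum_le_sum fun i _ => ?_
  have b1 := FourE_lap (h.repH i)
  have b2 : Integrable fun ξ : R3 => ((1 + ‖ξ‖ ^ 2) ^ 2)⁻¹ + ‖F i ξ‖ ^ 2 :=
    FourH_wint.add (h.repH i).isq
  rw [(h.repH i).sq, b1.2, ← integral_add FourH_wint (h.repH i).isq, ← integral_add b2 b1.1]
  refine integral_mono (h.repH i).1.int.norm (b2.add b1.1) fun ξ => ?_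
  have c0 : 0 < (1 + ‖ξ‖ ^ 2) ^ 2 := by positivity
  have c1 : ‖ξ‖ ^ 4 ≤ (2 * π * ‖ξ‖) ^ 4 :=
    pow_le_pow_left₀ (norm_nonneg _) (by nlinarith [Real.pi_gt_three, norm_nonneg ξ]) 4
  have c2 : (1 + ‖ξ‖ ^ 2) ^ 2 ≤ 4 * (1 + (2 * π * ‖ξ‖) ^ 4) := by
    nlinarith [sq_nonneg (1 - ‖ξ‖ ^ 2), sq_nonneg (‖ξ‖ ^ 2)]
  have c3 := mul_le_mul_of_nonneg_right c2 (sq_nonneg ‖F i ξ‖)
  change ‖F i ξ‖ ≤ ((1 + ‖ξ‖ ^ 2) ^ 2)⁻¹ + ‖F i ξ‖ ^ 2 + (2 * π * ‖ξ‖) ^ 4 * ‖F i ξ‖ ^ 2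
  generalize (1 + ‖ξ‖ ^ 2) ^ 2 = v at *
  have c4 : ‖F i ξ‖ ≤ v⁻¹ + v * ‖F i ξ‖ ^ 2 / 4 := by
    have c5 : v⁻¹ + v * ‖F i ξ‖ ^ 2 / 4 - ‖F i ξ‖ = (1 - v * ‖F i ξ‖ / 2) ^ 2 / v := by
      field_simp
      ring
    have c6 : 0 ≤ (1 - v * ‖F i ξ‖ / 2) ^ 2 / v := by positivity
    linarith
  linarith

end Pool.Agent.Work.MP_6bf1e5_an.H.Ex
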