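import Pool.Agent.Work.MP_6bf1e5_an.H.ExSm
import Pool.Agent.Work.MP_6bf1e5_an.H.ExDat

/-!
Solutions on the Fourier side are solutions. This is a port of Ens/Classical.
Hints. smooth_u, smooth_p: contDiffOn_infty, Sm.contDiffOn, Complex.reCLM, contDiffOn_euclidean. sobolev: PreS.bd_all
with r = k + 2, (1 + ‖ξ‖ ^ 2) ^ k ≤ (1 + ‖ξ‖) ^ (2 k), wt_int. fourier: Dat.repH. momentum: deriv_ev with the
right-hand side of the equation (UB by Sm.symb, Sm.cv, Sm.sum, Sm.add at n = 0, or PreS.sm 1 and uniqueness of the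
derivative), nl_split, Dat.adv, Ens.pd_re_ev for the pressure (UB.int), 2 * (3 / 4) = 3 / 2.
-/

open scoped ContDiff ENNReal FourierTransform Real
open Set MeasureTheory

namespace Pool.Agent.Work.MP_6bf1e5_an.H.Ex

theorem ExCl_int0 {T : ℝ} {f : ℝ → R3 → ℂ} (h : UB T f) {t : ℝ} (ht : t ∈ Icc 0 T) :
    Integrable (f t) := by
  simpa using h.int ht 0

theorem ExCl_int1 {T : ℝ} {f : ℝ → R3 → ℂ} (h : UB T f) {t : ℝ} (ht : t ∈ Icc 0 T) :
    Integrable fun ξ => ‖ξ‖ * ‖f t ξ‖ := by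
  refine (h.int ht 1).norm.mono'
    (continuous_norm.aestronglyMeasurable.mul (ExCl_int0 h ht).norm.aestronglyMeasurable)
    (Filter.Eventually.of_forall fun ξ => ?_)
  rw [norm_mul, norm_mul, norm_norm, norm_norm, Complex.norm_real, pow_one,
    Real.norm_of_nonneg (by positivity)]
  exact mul_le_mul_of_nonneg_right (by linarith) (norm_nonneg _)

theorem ExCl_int2 {T : ℝ} {f : ℝ → R3 → ℂ} (h : UB T f) {t : ℝ} (ht : t ∈ Icc 0 T) (i : Fin 3) :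
    Integrable fun ξ : R3 => 2 * π * Complex.I * (ξ i : ℝ) * f t ξ := by
  have hc : Continuous fun ξ : R3 => 2 * π * Complex.I * ((ξ i : ℝ) : ℂ) := by fun_prop
  refine ((ExCl_int1 h ht).const_mul (2 * π)).mono'
    (hc.aestronglyMeasurable.mul (ExCl_int0 h ht).aestronglyMeasurable)
    (Filter.Eventually.of_forall fun ξ => ?_)
  have h1 : ‖ξ i‖ ≤ ‖ξ‖ := PiLp.norm_apply_le ξ i
  simp only [norm_mul, Complex.norm_I, Complex.norm_real, Complex.norm_ofNat, mul_one,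
    Real.norm_of_nonneg Real.pi_pos.le]
  rw [mul_assoc (2 * π)]
  exact mul_le_mul_of_nonneg_left (mul_le_mul_of_nonneg_right h1 (norm_nonneg _)) (by positivity)

theorem ExCl_sob {k : ℕ} {A : ℝ} {F : Fv} (h : Le (k + 2) A F) (i : Fin 3) :
    ∫⁻ ξ, ENNReal.ofReal ((1 + ‖ξ‖ ^ 2) ^ k) * ‖F i ξ‖ₑ ^ 2 ≤
      ∫⁻ ξ, ENNReal.ofReal (A ^ 2 * wt 4 ξ) := by
  refine lintegral_mono fun ξ => ?_
  rw [← ofReal_norm, ← ENNReal.ofReal_pow (norm_nonneg _),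
    ← ENNReal.ofReal_mul (by positivity)]
  refine ENNReal.ofReal_le_ofReal ?_
  have h1 : (1 + ‖ξ‖ ^ 2) ^ k ≤ ((1 + ‖ξ‖) ^ k) ^ 2 := by
    rw [← pow_mul, mul_comm, pow_mul]
    exact pow_le_pow_left₀ (by positivity) (by nlinarith [norm_nonneg ξ]) k
  have h2 : ‖F i ξ‖ ^ 2 ≤ (A * wt (k + 2) ξ) ^ 2 := pow_le_pow_left₀ (norm_nonneg _) (h i ξ) 2
  have h3 : (1 + ‖ξ‖) ^ k * wt (k + 2) ξ = wt 2 ξ := by
    rw [add_comm (k : ℝ)]; exact pow_wt k 2 ξ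
  have h4 : wt 4 ξ = wt 2 ξ * wt 2 ξ := by
    rw [← wt_add]; norm_num
  calc (1 + ‖ξ‖ ^ 2) ^ k * ‖F i ξ‖ ^ 2
      ≤ ((1 + ‖ξ‖) ^ k) ^ 2 * (A * wt (k + 2) ξ) ^ 2 :=
        mul_le_mul h1 h2 (by positivity) (by positivity)
    _ = A ^ 2 * ((1 + ‖ξ‖) ^ k * wt (k + 2) ξ) ^ 2 := by ring
    _ = A ^ 2 * wt 4 ξ := by rw [h3, h4, sq (wt 2 ξ)]

theorem PreS.fsol {ν T : ℝ} {U : ℝ → Fv} (h : PreS ν T U) (hν : 0 < ν) (hT : 0 < T)
    (h0 : Dat (U 0)) : FSol (3 / 4) ν (tov (ph (U 0))) T (fun x t => tov (ph (U t)) x)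
      (fun x t => (Ens.ev (PP (U t)) x).re) U := by
  refine ⟨?_, ?_, fun t ht i => ?_, fun k => ?_, fun t ht x i => ?_, fun x t ht i => ?_,
    fun x t ht => ?_, fun _ => rfl⟩
  · refine contDiffOn_euclidean.2 fun i => contDiffOn_infty.2 fun n => ?_
    exact Complex.reCLM.contDiff.comp_contDiffOn (h.sm hν h0 n i).contDiffOn
  · refine contDiffOn_infty.2 fun n => ?_
    exact Complex.reCLM.contDiff.comp_contDiffOn (h.smP hν h0 n).contDiffOn
  · exact ((h.dat hν h0 ht).ct i).aestronglyMeasurable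
  · obtain ⟨A, hA⟩ := h.bd_all hν h0 (k + 2)
    refine ⟨∫⁻ ξ, ENNReal.ofReal (A ^ 2 * wt 4 ξ), ?_, fun t ht i => ExCl_sob (hA t ht) i⟩
    exact ((wt_int (r := 4) (by norm_num)).const_mul (A ^ 2)).lintegral_lt_top
  · exact ((h.dat hν h0 ht).repH i).1.2 x
  · have hD := h.dat hν h0 ht
    obtain ⟨h1, g, h2, h3⟩ := h.sm hν h0 1 i
    have h3' : UB T g := h3
    have h4 := deriv_ev h1 h3' h2 x ht
    have hP : UB T fun t ξ => PP (U t) ξ := (h.smP hν h0 0).ub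
    have hadv := hD.adv i
    have iA : Integrable fun ξ : R3 =>
        ∑ j, 2 * π * Complex.I * (ξ j : ℝ) * Ens.cv (U t j) (U t i) ξ := by
      simpa using hadv.1.1 0
    have iP := ExCl_int2 hP ht i
    have eg : ∀ ξ, g t ξ = -((hr ν ξ : ℂ) * U t i ξ) - NL (U t) (U t) i ξ := fun ξ =>
      (uniqueDiffOn_Icc hT t ht).eq_deriv _ (h2 ξ t ht) (h.ode i ξ t ht)
    have iH : Integrable fun ξ : R3 => (-ν : ℂ) *
        ((((2 * π * ‖ξ‖) ^ (2 * (3 / 4 : ℝ)) : ℝ) : ℂ) * U t i ξ) := by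
      refine (((ExCl_int0 h3' ht).add iA).add iP).congr (Filter.Eventually.of_forall fun ξ => ?_)
      simp only [Pi.add_apply]
      rw [eg, nl_split, hr, show (2 * (3 / 4 : ℝ)) = 3 / 2 by norm_num]
      push_cast
      ring
    have h5 : g t = fun ξ => (-ν : ℂ) *
        ((((2 * π * ‖ξ‖) ^ (2 * (3 / 4 : ℝ)) : ℝ) : ℂ) * U t i ξ) -
        (∑ j, 2 * π * Complex.I * (ξ j : ℝ) * Ens.cv (U t j) (U t i) ξ
          + 2 * π * Complex.I * (ξ i : ℝ) * PP (U t) ξ) := by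
      funext ξ
      rw [eg, nl_split, hr, show (2 * (3 / 4 : ℝ)) = 3 / 2 by norm_num]
      push_cast
      ring
    have iAP : Integrable fun ξ : R3 =>
        ∑ j, 2 * π * Complex.I * (ξ j : ℝ) * Ens.cv (U t j) (U t i) ξ
          + 2 * π * Complex.I * (ξ i : ℝ) * PP (U t) ξ := iA.add iP
    rw [h5, Ens.ev_sub iH iAP, Ens.ev_add iA iP, Ens.ev_const_mul] at h4
    have h6 := Complex.reCLM.hasFDerivAt.comp_hasDerivWithinAt t h4
    have h7 : derivWithin (fun s => tov (ph (U s)) x i) (Icc 0 T) t = _ :=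
      h6.derivWithin (uniqueDiffOn_Icc hT t ht)
    have h8 : pd i (fun y => (Ens.ev (PP (U t)) y).re) x = _ :=
      Ens.pd_re_ev (ExCl_int0 hP ht) (ExCl_int1 hP ht) i x
    have h9 : Ens.ev (fun ξ : R3 =>
        ∑ j, 2 * π * Complex.I * (ξ j : ℝ) * Ens.cv (U t j) (U t i) ξ) x =
        ((∑ j, ph (U t) j x * pd j (ph (U t) i) x : ℝ) : ℂ) := (hadv.1.2 x).symm
    rw [h7, h8, h9, Complex.reCLM_apply, Complex.sub_re, Complex.add_re, Complex.ofReal_re,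
      ← Complex.ofReal_neg, Complex.re_ofReal_mul]
    change _ + ∑ j, ph (U t) j x * pd j (ph (U t) i) x + _ = -ν * (Ens.ev _ x).re
    ring
  · exact (h.dat hν h0 ht).div x

end Pool.Agent.Work.MP_6bf1e5_an.H.Ex
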