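import Pool.Agent.Work.MP_6bf1e5_an.H.ExDefs

/-!
Weights, convolutions and the nonlinearity.
Hints. wt_int: integrable_one_add_norm. cv_le: for each η either ‖ξ - η‖ ≤ ‖η‖, then 1 + ‖ξ‖ ≤ 2 (1 + ‖η‖) and
wt r η ≤ 2 ^ r wt r ξ, or the same with η and ξ - η exchanged; so ‖f η g (ξ - η)‖ ≤ 2 ^ r wt r ξ (A ‖g (ξ - η)‖ +
B ‖f η‖); integral_sub_left_eq_self. cv_cont: continuousWithinAt_of_dominated with the bound A wt 4 η * A, for a.e. η
(Ens.conv_ae, Ens.conv_cwa). sym_cont: at 0 squeeze with Ens.abs_lr_le. NL_cj: Ens.cv_conj, Ens.lr_neg. NL_dv: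
Ens.sum_mul_lr (at ξ = 0 all terms vanish).
-/

open scoped ContDiff ENNReal FourierTransform Real
open Set MeasureTheory

namespace Pool.Agent.Work.MP_6bf1e5_an.H.Ex

variable {r s A B : ℝ} {f g : R3 → ℂ} {F G : Fv}

theorem wt_pos (r : ℝ) (ξ : R3) : 0 < wt r ξ := by
    unfold wt
    positivity

theorem wt_anti (h : r ≤ s) (ξ : R3) : wt s ξ ≤ wt r ξ := by
    exact Real.rpow_le_rpow_of_exponent_le (le_add_of_nonneg_right (norm_nonneg ξ)) (neg_le_neg h)

theorem wt_le_one (h : 0 ≤ r) (ξ : R3) : wt r ξ ≤ 1 := by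
    exact Real.rpow_le_one_of_one_le_of_nonpos (le_add_of_nonneg_right (norm_nonneg ξ))
      (neg_nonpos.2 h)

theorem wt_neg (r : ℝ) (ξ : R3) : wt r (-ξ) = wt r ξ := by
    rw [wt, wt, norm_neg]

theorem wt_cont (r : ℝ) : Continuous (wt r) := by
    exact (continuous_const.add continuous_norm).rpow_const fun ξ =>
      Or.inl (add_pos_of_pos_of_nonneg one_pos (norm_nonneg ξ)).ne'

theorem wt_add (r s : ℝ) (ξ : R3) : wt (r + s) ξ = wt r ξ * wt s ξ := by
    rw [wt, wt, wt, neg_add, Real.rpow_add (by positivity)]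

theorem pow_wt (k : ℕ) (r : ℝ) (ξ : R3) : (1 + ‖ξ‖) ^ k * wt (r + k) ξ = wt r ξ := by
    rw [wt, wt, ← Real.rpow_natCast, ← Real.rpow_add (by positivity)]
    congr 1
    ring

theorem wt_int (h : 3 < r) : Integrable (wt r) := by
    exact integrable_one_add_norm (by simpa using h)

theorem c4_nonneg : 0 ≤ c4 := by
    exact mul_nonneg zero_le_three (integral_nonneg fun ξ => (wt_pos 4 ξ).le)

theorem ExConv_nn (h : ∀ ξ, ‖f ξ‖ ≤ A * wt r ξ) : 0 ≤ A :=
  nonneg_of_mul_nonneg_left ((norm_nonneg _).trans (h 0)) (wt_pos r 0)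

theorem ExConv_mono (h : ∀ ξ, ‖f ξ‖ ≤ A * wt r ξ) (hs : s ≤ r) (ξ : R3) : ‖f ξ‖ ≤ A * wt s ξ :=
  (h ξ).trans (mul_le_mul_of_nonneg_left (wt_anti hs ξ) (ExConv_nn h))

theorem ExConv_bd (h : ∀ ξ, ‖f ξ‖ ≤ A * wt 4 ξ) (ξ : R3) : ‖f ξ‖ ≤ A :=
  (h ξ).trans (mul_le_of_le_one_right (ExConv_nn h) (wt_le_one zero_le_four ξ))

theorem ExConv_half (hr : 0 ≤ r) {ξ η : R3} (h : ‖ξ - η‖ ≤ ‖η‖) : wt r η ≤ 2 ^ r * wt r ξ := by
  have h1 : (1 + ‖ξ‖) / 2 ≤ 1 + ‖η‖ := by
    have := norm_le_norm_sub_add ξ η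
    linarith
  refine (Real.rpow_le_rpow_of_nonpos (by positivity) h1 (neg_nonpos.2 hr)).trans_eq ?_
  rw [Real.div_rpow (by positivity) zero_le_two, Real.rpow_neg zero_le_two, div_inv_eq_mul,
    mul_comm, wt]

theorem Le.nonneg (h : Le r A F) : 0 ≤ A := by
    exact ExConv_nn (h 0)

theorem Le.mono (h : Le r A F) (hA : A ≤ B) (hs : s ≤ r) : Le s B F := by
    exact fun i ξ => (ExConv_mono (h i) hs ξ).trans (mul_le_mul_of_nonneg_right hA (wt_pos s ξ).le)

theorem Le.sub (h : Le r A F) (h' : Le r B G) : Le r (A + B) (F - G) := by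
    intro i ξ
    rw [add_mul]
    exact (norm_sub_le _ _).trans (add_le_add (h i ξ) (h' i ξ))

theorem Le.cj (h : Le r A F) : Le r A (cj F) := by
    intro i ξ
    rw [← wt_neg]
    exact (Complex.norm_conj _).trans_le (h i (-ξ))

theorem Ct.sub (h : Ct F) (h' : Ct G) : Ct (F - G) := by
    exact fun i => (h i).sub (h' i)

theorem int_of_le (hf : AEStronglyMeasurable f volume) (hr : 3 < r)
    (h : ∀ ξ, ‖f ξ‖ ≤ A * wt r ξ) : Integrable f := by
    exact ((wt_int hr).const_mul A).mono' hf (Filter.Eventually.of_forall h)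

theorem L1_nonneg (F : Fv) : 0 ≤ L1 F := by
    exact Finset.sum_nonneg fun i _ => integral_nonneg fun ξ => norm_nonneg _

theorem L1_le (h : Le 4 A F) : L1 F ≤ c4 * A := by
    have h1 : ∀ i, ∫ ξ, ‖F i ξ‖ ≤ A * ∫ ξ, wt 4 ξ := fun i => by
      rw [← integral_const_mul]
      exact integral_mono_of_nonneg (Filter.Eventually.of_forall fun ξ => norm_nonneg _)
        ((wt_int (by norm_num)).const_mul A) (Filter.Eventually.of_forall (h i))
    rw [L1, c4, Fin.sum_univ_three]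
    linarith [h1 0, h1 1, h1 2]

theorem cv_int (hf : AEStronglyMeasurable f volume) (hg : AEStronglyMeasurable g volume)
    (bf : ∀ ξ, ‖f ξ‖ ≤ A * wt 4 ξ) (bg : ∀ ξ, ‖g ξ‖ ≤ B * wt 4 ξ) (ξ : R3) :
    Integrable fun η => f η * g (ξ - η) := by
    exact (int_of_le hf (by norm_num) bf).mul_bdd (hg.comp_quasiMeasurePreserving
      (Measure.measurePreserving_sub_left volume ξ).quasiMeasurePreserving)
      (Filter.Eventually.of_forall fun η => ExConv_bd bg _)

theorem cv_le (hf : AEStronglyMeasurable f volume) (hg : AEStronglyMeasurable g volume)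
    (hr : 4 ≤ r) (bf : ∀ ξ, ‖f ξ‖ ≤ A * wt r ξ) (bg : ∀ ξ, ‖g ξ‖ ≤ B * wt r ξ) (ξ : R3) :
    ‖Ens.cv f g ξ‖ ≤ 2 ^ r * wt r ξ * (A * (∫ η, ‖g η‖) + B * ∫ η, ‖f η‖) := by
    have hr0 : 0 ≤ r := zero_le_four.trans hr
    have h1 := (int_of_le hf (by linarith) bf).norm
    have h2 := ((int_of_le hg (by linarith) bg).comp_sub_left ξ).norm
    have hA := ExConv_nn bf
    have hB := ExConv_nn bg
    have hw := (wt_pos r ξ).le
    rw [← integral_sub_left_eq_self (fun η => ‖g η‖) volume ξ, ← integral_const_mul,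
      ← integral_const_mul, ← integral_add (h2.const_mul A) (h1.const_mul B), ← integral_const_mul]
    refine norm_integral_le_of_norm_le (((h2.const_mul A).add (h1.const_mul B)).const_mul _)
      (Filter.Eventually.of_forall fun η => ?_)
    rw [norm_mul, mul_add]
    rcases le_total ‖ξ - η‖ ‖η‖ with h | h
    · refine le_add_of_le_of_nonneg ?_ (by positivity)
      calc _ ≤ A * (2 ^ r * wt r ξ) * ‖g (ξ - η)‖ := mul_le_mul_of_nonneg_right
            ((bf η).trans (mul_le_mul_of_nonneg_left (ExConv_half hr0 h) hA)) (norm_nonneg _)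
        _ = _ := by ring
    · refine le_add_of_nonneg_of_le (by positivity) ?_
      calc _ ≤ ‖f η‖ * (B * (2 ^ r * wt r ξ)) := mul_le_mul_of_nonneg_left ((bg _).trans
            (mul_le_mul_of_nonneg_left (ExConv_half hr0 (by rwa [sub_sub_cancel])) hB))
            (norm_nonneg _)
        _ = _ := by ring

theorem cv_cont {S : Set ℝ} {f g : ℝ → R3 → ℂ}
    (hf : ContinuousOn (fun z : ℝ × R3 => f z.1 z.2) (S ×ˢ {0}ᶜ))
    (hg : ContinuousOn (fun z : ℝ × R3 => g z.1 z.2) (S ×ˢ {0}ᶜ))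
    (bf : ∀ t ∈ S, ∀ ξ, ‖f t ξ‖ ≤ A * wt 4 ξ) (bg : ∀ t ∈ S, ∀ ξ, ‖g t ξ‖ ≤ A * wt 4 ξ) :
    ContinuousOn (fun z : ℝ × R3 => Ens.cv (f z.1) (g z.1) z.2) (S ×ˢ univ) := by
    intro z0 hz
    have hS : ∀ᶠ z in nhdsWithin z0 (S ×ˢ univ), z.1 ∈ S :=
      Filter.mem_of_superset self_mem_nhdsWithin fun z hz => hz.1
    refine continuousWithinAt_of_dominated (bound := fun η => A * wt 4 η * A) ?_ ?_
      (((wt_int (by norm_num)).const_mul A).mul_const A) ?_
    · filter_upwards [hS] with z hz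
      exact Ens.conv_aesm (Ens.conv_slice hf hz) (Ens.conv_slice hg hz) z.2
    · filter_upwards [hS] with z hz
      refine Filter.Eventually.of_forall fun η => ?_
      rw [norm_mul]
      exact mul_le_mul (bf _ hz η) (ExConv_bd (bg _ hz) _) (norm_nonneg _)
        ((norm_nonneg _).trans (bf _ hz η))
    · filter_upwards [Ens.conv_ae z0.2] with η hη
      exact (Ens.conv_cwa hf hz.1 (φ := fun _ => η) continuous_const hη.1 _).mul
        (Ens.conv_cwa hg hz.1 (φ := fun ξ => ξ - η) (by fun_prop) hη.2 _)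

theorem ExConv_sym (i k j : Fin 3) (ξ : R3) : ‖Ens.lr ξ i k * ξ j‖ ≤ 2 * ‖ξ‖ := by
  rw [norm_mul]
  exact mul_le_mul (Ens.abs_lr_le ξ i k) (Ens.nl_coord ξ j) (norm_nonneg _) zero_le_two

theorem sym_cont (i k j : Fin 3) : Continuous fun ξ : R3 => Ens.lr ξ i k * ξ j := by
    refine continuous_iff_continuousAt.2 fun ξ => ?_
    by_cases h : ξ = 0
    · subst h
      have h1 : Filter.Tendsto (fun ξ : R3 => 2 * ‖ξ‖) (nhds 0) (nhds 0) :=
        (continuous_const.mul continuous_norm).tendsto' _ _ (by simp)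
      have h2 := squeeze_zero_norm (ExConv_sym i k j) h1
      rwa [ContinuousAt, PiLp.zero_apply, mul_zero]
    · exact ((Ens.contDiffOn_lr i k).continuousOn.continuousAt
        (isOpen_compl_singleton.mem_nhds h)).mul (by fun_prop)

theorem hr_cont (ν : ℝ) : Continuous (hr ν) := by
    exact continuous_const.mul ((continuous_const.mul continuous_norm).rpow_const
      fun ξ => Or.inr (by norm_num))

theorem hr_nonneg {ν : ℝ} (hν : 0 ≤ ν) (ξ : R3) : 0 ≤ hr ν ξ := by
    unfold hr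
    positivity

theorem hr_neg (ν : ℝ) (ξ : R3) : hr ν (-ξ) = hr ν ξ := by
    rw [hr, hr, norm_neg]

theorem NL_le (hF : Ct F) (hG : Ct G) (hr : 4 ≤ r) (bF : Le r A F) (bG : Le r B G) (i : Fin 3)
    (ξ : R3) : ‖NL F G i ξ‖ ≤ 36 * π * 2 ^ r * (A * L1 G + B * L1 F) * (‖ξ‖ * wt r ξ) := by
    have hA := bF.nonneg
    have hB := bG.nonneg
    have hw := (wt_pos r ξ).le
    have h1 : ∀ (F : Fv) j, ∫ η, ‖F j η‖ ≤ L1 F := fun F j => Finset.single_le_sum
      (f := fun j => ∫ η, ‖F j η‖) (fun j _ => integral_nonneg fun η => norm_nonneg _)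
      (Finset.mem_univ j)
    have h2 : ∀ k j, ‖((Ens.lr ξ i k * ξ j : ℝ) : ℂ) * Ens.cv (F j) (G k) ξ‖ ≤
        2 * ‖ξ‖ * (2 ^ r * wt r ξ * (A * L1 G + B * L1 F)) := by
      intro k j
      rw [norm_mul, Complex.norm_real]
      refine mul_le_mul (ExConv_sym i k j ξ) ((cv_le (hF j).aestronglyMeasurable
        (hG k).aestronglyMeasurable hr (bF j) (bG k) ξ).trans ?_) (norm_nonneg _) (by positivity)
      gcongr
      exacts [h1 G k, h1 F j]
    have h3 := (norm_sum_le _ _).trans (Finset.sum_le_sum fun k (_ : k ∈ Finset.univ) =>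
      (norm_sum_le _ _).trans (Finset.sum_le_sum fun j (_ : j ∈ Finset.univ) => h2 k j))
    simp only [Finset.sum_const, Finset.card_univ, Fintype.card_fin, nsmul_eq_mul,
      Nat.cast_ofNat] at h3
    rw [NL, norm_mul, norm_mul, norm_mul, Complex.norm_I, Complex.norm_real, Complex.norm_ofNat,
      Real.norm_of_nonneg Real.pi_pos.le, mul_one]
    exact (mul_le_mul_of_nonneg_left h3 (by positivity)).trans_eq (by ring)

theorem NL_sub (hF : Ct F) (hG : Ct G) (bF : Le 4 A F) (bG : Le 4 B G) (i : Fin 3) (ξ : R3) :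
    NL F F i ξ - NL G G i ξ = NL (F - G) F i ξ + NL G (F - G) i ξ := by
    have e : ∀ j k, Ens.cv (F j) (F k) ξ - Ens.cv (G j) (G k) ξ =
        Ens.cv ((F - G) j) (F k) ξ + Ens.cv (G j) ((F - G) k) ξ := by
      intro j k
      have mF := fun j => (hF j).aestronglyMeasurable (μ := volume)
      have mG := fun j => (hG j).aestronglyMeasurable (μ := volume)
      have h1 := cv_int (mF j) (mF k) (bF j) (bF k) ξ
      have h2 := cv_int (mG j) (mF k) (bG j) (bF k) ξ
      have h3 := cv_int (mG j) (mG k) (bG j) (bG k) ξ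
      simp only [Ens.cv, Pi.sub_apply, sub_mul, mul_sub]
      rw [integral_sub h1 h2, integral_sub h2 h3, sub_add_sub_cancel]
    simp only [NL, ← mul_sub, ← mul_add, ← Finset.sum_sub_distrib, ← Finset.sum_add_distrib, e]

theorem NL_cj (F G : Fv) : NL (cj F) (cj G) = cj (NL F G) := by
    funext i ξ
    have e : ∀ j k, Ens.cv (cj F j) (cj G k) ξ = (starRingEnd ℂ) (Ens.cv (F j) (G k) (-ξ)) :=
      fun j k => Ens.cv_conj (F j) (G k) ξ
    change _ = (starRingEnd ℂ) (NL F G i (-ξ))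
    simp only [NL, e, map_mul, map_sum, Complex.conj_ofReal, Complex.conj_I, Ens.lr_neg, map_ofNat,
      PiLp.neg_apply, Finset.mul_sum]
    refine Finset.sum_congr rfl fun k _ => Finset.sum_congr rfl fun j _ => ?_
    push_cast
    ring

theorem NL_dv (F G : Fv) : Dv (NL F G) := by
    intro ξ
    by_cases hξ : ξ = 0
    · simp [hξ]
    have e : ∀ i, (ξ i : ℂ) * NL F G i ξ = ∑ k, ((ξ i * Ens.lr ξ i k : ℝ) : ℂ) *
        ∑ j, 2 * π * Complex.I * ξ j * Ens.cv (F j) (G k) ξ := by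
      intro i
      simp only [NL, Finset.mul_sum]
      refine Finset.sum_congr rfl fun k _ => Finset.sum_congr rfl fun j _ => ?_
      push_cast
      ring
    simp only [e]
    rw [Finset.sum_comm]
    refine Finset.sum_eq_zero fun k _ => ?_
    rw [← Finset.sum_mul, ← Complex.ofReal_sum, Ens.sum_mul_lr hξ, Complex.ofReal_zero, zero_mul]

theorem JC.ct {S : Set ℝ} {U : ℝ → Fv} (h : JC S U) {t : ℝ} (ht : t ∈ S) : Ct (U t) := by
    exact fun i => (h i).comp_continuous (f := fun ξ : R3 => (t, ξ)) (by fun_prop)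
      fun _ => ⟨ht, trivial⟩

theorem JC.nl {S : Set ℝ} {U : ℝ → Fv} (h : JC S U) (b : ∀ t ∈ S, Le 4 A (U t)) :
    JC S fun t => NL (U t) (U t) := by
    intro i
    have h1 := fun j => (h j).mono (prod_mono_right (subset_univ {0}ᶜ))
    exact continuousOn_const.mul (continuousOn_finsetSum _ fun k _ => continuousOn_finsetSum _
      fun j _ => (Complex.continuous_ofReal.comp ((sym_cont i k j).comp
        continuous_snd)).continuousOn.mul (cv_cont (f := fun t => U t j) (g := fun t => U t k)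
          (h1 j) (h1 k) (fun t ht => b t ht j) fun t ht => b t ht k))

end Pool.Agent.Work.MP_6bf1e5_an.H.Ex
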