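import Pool.Agent.Work.MP_6bf1e5_an.H.DynDefs
import Pool.Agent.Work.MP_6bf1e5_an.Ens.NL
import Pool.Agent.Work.MP_6bf1e5_an.Ens.Ev

/-!
Definitions for the existence theory (owner helper39). Solutions are built on the Fourier side, in the class of
continuous functions with pointwise polynomial decay.
-/

open scoped ContDiff ENNReal FourierTransform Real
open Set MeasureTheory

namespace Pool.Agent.Work.MP_6bf1e5_an.H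

noncomputable section

/-- A vector field from its components. -/
def tov (B : Vc) : R3 → R3 := fun x => WithLp.toLp 2 fun i => B i x

/-- The components of a time dependent field. -/
def cmp (u : R3 → ℝ → R3) : ℝ → Vc := fun t i y => u y t i

/-- A maximal solution: `I` is the set of the times up to which it is a solution. -/
structure MaxS (ν : ℝ) (B : Vc) (I : Set ℝ) (u : R3 → ℝ → R3) (p : R3 → ℝ → ℝ)
    (U : ℝ → Fin 3 → R3 → ℂ) : Prop where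
  sol : ∀ T ∈ I, 0 < T ∧ FSol (3 / 4) ν (tov B) T u p U
  down : ∀ T ∈ I, ∀ T', 0 < T' → T' ≤ T → T' ∈ I
  cont : ∀ T ≥ 0, ∀ K, (∀ T' ∈ Ioo 0 T, T' ∈ I ∧ ∀ t ∈ Icc 0 T', gw 1 (curl (cmp u t)) ≤ K) →
    ∃ ε > 0, T + ε ∈ I
  en : ∀ T ∈ I, ∀ t ∈ Icc 0 T, nw 1 (cmp u t) ≤ nw 1 B

/-- The conclusion: a solution on `[0, T)` which blows up at the self-similar rates. -/
def BlowUp (ν T : ℝ) : Prop :=
  ∃ u0 : SchwartzMap R3 R3, (∀ x, ∑ i, pd i (fun y => u0 y i) x = 0) ∧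
    (∃ u p U, (∀ T1, 0 < T1 → T1 < T → FSol (3 / 4) ν u0 T1 u p U) ∧
      (∀ t ∈ Ico 0 T, ∫ x, ‖u x t‖ ^ 2 ≤ ∫ x, ‖u0 x‖ ^ 2) ∧
      ∃ c > 0, ∃ R : ℝ, ∀ t ∈ Ico 0 T,
        (∃ x, ‖x‖ ≤ R * (T - t) ^ (2 / 3 : ℝ) ∧ c * (T - t) ^ (-(1 / 3) : ℝ) ≤ ‖u x t‖) ∧
        ∃ x, ‖x‖ ≤ R * (T - t) ^ (2 / 3 : ℝ) ∧ ∃ i : Fin 3, c / (T - t) ≤
          |pd (i + 1) (fun y => u y t (i + 2)) x - pd (i + 2) (fun y => u y t (i + 1)) x|) ∧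
    ¬∃ u p U, FSol (3 / 4) ν u0 T u p U

namespace Ex

/-- Transforms of vector fields. -/
abbrev Fv := Fin 3 → R3 → ℂ

/-- The polynomial weights. -/
def wt (r : ℝ) (ξ : R3) : ℝ := (1 + ‖ξ‖) ^ (-r)

/-- The pointwise bound. -/
def Le (r A : ℝ) (F : Fv) : Prop := ∀ i ξ, ‖F i ξ‖ ≤ A * wt r ξ

def Ct (F : Fv) : Prop := ∀ i, Continuous (F i)

/-- The projected nonlinearity. -/
def NL (F G : Fv) : Fv := fun i ξ =>
  2 * π * Complex.I * ∑ k, ∑ j, ((Ens.lr ξ i k * ξ j : ℝ) : ℂ) * Ens.cv (F j) (G k) ξ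

/-- The transform of the pressure. -/
def PP (F : Fv) (ξ : R3) : ℂ :=
  ∑ k, ∑ j, ((-(ξ k * ξ j / ‖ξ‖ ^ 2) : ℝ) : ℂ) * Ens.cv (F j) (F k) ξ

/-- The symbol of the dissipation. -/
def hr (ν : ℝ) (ξ : R3) : ℝ := ν * (2 * π * ‖ξ‖) ^ (3 / 2 : ℝ)

def Dv (F : Fv) : Prop := ∀ ξ : R3, ∑ i, ((ξ i : ℝ) : ℂ) * F i ξ = 0

/-- The transform of the complex conjugate. -/
def cj (F : Fv) : Fv := fun i ξ => (starRingEnd ℂ) (F i (-ξ))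

def L1 (F : Fv) : ℝ := ∑ i, ∫ ξ, ‖F i ξ‖

def L2 (F : Fv) : ℝ := ∑ i, ∫ ξ, ‖F i ξ‖ ^ 2

/-- The constant in `L1 F ≤ c4 * A`. -/
def c4 : ℝ := 3 * ∫ ξ, wt 4 ξ

/-- The field in physical space. -/
def ph (F : Fv) : Vc := fun i x => (Ens.ev (F i) x).re

/-- Admissible data. -/
structure Dat (F : Fv) : Prop where
  ct : Ct F
  bd : ∀ r, ∃ A, Le r A F
  dv : Dv F
  hm : cj F = F

/-- Joint continuity. -/
def JC (S : Set ℝ) (U : ℝ → Fv) : Prop :=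
  ∀ i, ContinuousOn (fun z : ℝ × R3 => U z.1 i z.2) (S ×ˢ univ)

/-- Solutions on the Fourier side. -/
structure PreS (ν T : ℝ) (U : ℝ → Fv) : Prop where
  jc : JC (Icc 0 T) U
  bd : ∃ A, ∀ t ∈ Icc 0 T, Le 4 A (U t)
  ode : ∀ i ξ, ∀ t ∈ Icc 0 T, HasDerivWithinAt (fun s => U s i ξ)
    (-((hr ν ξ : ℂ) * U t i ξ) - NL (U t) (U t) i ξ) (Icc 0 T) t

/-- Continuous off `ξ = 0` and bounded by all weights on `[0, T]`. -/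
def UB (T : ℝ) (f : ℝ → R3 → ℂ) : Prop :=
  ContinuousOn (fun z : ℝ × R3 => f z.1 z.2) (Icc 0 T ×ˢ {0}ᶜ) ∧
    ∀ r, ∃ C, ∀ t ∈ Icc 0 T, ∀ ξ, ‖f t ξ‖ ≤ C * wt r ξ

/-- The same for the time derivatives up to order `n`. -/
def Sm (T : ℝ) : ℕ → (ℝ → R3 → ℂ) → Prop
  | 0, f => UB T f
  | n + 1, f => UB T f ∧ ∃ f' : ℝ → R3 → ℂ, (∀ ξ, ∀ t ∈ Icc 0 T,
      HasDerivWithinAt (fun s => f s ξ) (f' t ξ) (Icc 0 T) t) ∧ Sm T n f'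

end Ex

namespace Dyn

/-- A maximal orbit in the self-similar variables. -/
structure Orb (ν : ℝ) (B : Vc) (J : Set ℝ) (V : ℝ → Vc) : Prop where
  sol : ∀ S ∈ J, 0 < S ∧ RSol ν S V
  down : ∀ S ∈ J, ∀ S', 0 < S' → S' ≤ S → S' ∈ J
  cont : ∀ S ≥ 0, ∀ K, (∀ S' ∈ Ioo 0 S, S' ∈ J ∧ ∀ s ∈ Icc 0 S', gw 1 (curl (V s)) ≤ K) →
    ∃ ε > 0, S + ε ∈ J
  init : V 0 = B
  eqv : ∀ S ∈ J, ∀ s ∈ Icc 0 S, Eqv (V s)

/-- The lifetimes in the self-similar time. -/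
def lf (I : Set ℝ) : Set ℝ := {S | 0 < S ∧ 1 - Real.exp (-S) ∈ I}

/-- The pairs (parameter, time) strictly inside the lifespan. -/
def dom (D : Set (Fin 2 → ℝ)) (J : (Fin 2 → ℝ) → Set ℝ) : Set ((Fin 2 → ℝ) × ℝ) :=
  {z | z.1 ∈ D ∧ 0 ≤ z.2 ∧ ∃ S ∈ J z.1, z.2 < S}

end Dyn

end

end Pool.Agent.Work.MP_6bf1e5_an.H
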