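import Pool.Agent.Work.MP_6bf1e5_an.H.ExApr
import Pool.Agent.Work.MP_6bf1e5_an.H.ExDat

/-!
The energy inequality.
Hints. null: by nl_split and Dat.dv (conjugated) the pressure term vanishes pointwise; parseval with Dat.adv and
Dat.repH turns the rest into ∫ ∑ j, u j * pd j (u i) * u i = 0 (Dyn.null_form). energy: differentiate
t ↦ ∫ ‖U t i ξ‖ ^ 2 with Ens.hasDerivWithinAt_integral_convex (bounds from PreS.bd_all and NL_le); the derivative
of the sum is -2 ∑ ∫ hr ‖U‖ ^ 2 - 2 ∑ re ∫ NL * conj U ≤ 0; antitoneOn_of_hasDerivWithinAt_nonpos or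
image_le_of_deriv_right_le_deriv_boundary.
-/

open scoped ContDiff ENNReal FourierTransform Real
open Set MeasureTheory

namespace Pool.Agent.Work.MP_6bf1e5_an.H.Ex

theorem ExEn_bd {ν : ℝ} (hν : 0 ≤ ν) (A : ℝ) : ∃ C, ∀ F : Fv, Ct F → Le 6 A F → ∀ i ξ,
    ‖(hr ν ξ : ℂ) * F i ξ‖ ≤ C * wt 4 ξ ∧ ‖NL F F i ξ‖ ≤ C * wt 4 ξ ∧ ‖F i ξ‖ ≤ A := by
  refine ⟨ν * (2 * π) ^ 2 * A + 36 * π * 2 ^ (6 : ℝ) * (A * (c4 * A) + A * (c4 * A)),
    fun F hF hA i ξ => ?_⟩
  have a0 := hA.nonneg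
  have c0 := c4_nonneg
  have w4 := (wt_pos 4 ξ).le
  have w6 := (wt_pos 6 ξ).le
  have n0 := norm_nonneg ξ
  have e : (1 + ‖ξ‖) ^ 2 * wt 6 ξ = wt 4 ξ := by
    have := pow_wt 2 4 ξ
    rwa [show (4 : ℝ) + (2 : ℕ) = 6 by norm_num] at this
  have p1 : 0 ≤ ν * (2 * π) ^ 2 * A * wt 4 ξ := by positivity
  have p2 : 0 ≤ 36 * π * 2 ^ (6 : ℝ) * (A * (c4 * A) + A * (c4 * A)) * wt 4 ξ := by positivity
  have h1 : (2 * π * ‖ξ‖) ^ (3 / 2 : ℝ) ≤ (2 * π * (1 + ‖ξ‖)) ^ 2 := by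
    have b : 1 ≤ 2 * π * (1 + ‖ξ‖) := by nlinarith [Real.pi_gt_three]
    rw [← Real.rpow_two]
    exact (Real.rpow_le_rpow (by positivity) (by gcongr; linarith) (by norm_num)).trans
      (Real.rpow_le_rpow_of_exponent_le b (by norm_num))
  have l1 := L1_le (hA.mono le_rfl (by norm_num : (4 : ℝ) ≤ 6))
  have l0 := L1_nonneg F
  rw [add_mul]
  refine ⟨le_add_of_le_of_nonneg ?_ p2, le_add_of_nonneg_of_le p1 ?_,
    (hA i ξ).trans (mul_le_of_le_one_right a0 (wt_le_one (by norm_num) ξ))⟩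
  · rw [norm_mul, Complex.norm_of_nonneg (hr_nonneg hν ξ), ← e, hr]
    calc _ ≤ ν * (2 * π * (1 + ‖ξ‖)) ^ 2 * (A * wt 6 ξ) := by
          gcongr
          exact hA i ξ
      _ = _ := by ring
  · refine (NL_le hF hF (by norm_num) hA hA i ξ).trans ?_
    rw [← e]
    gcongr
    nlinarith

theorem ExEn_int {F : Fv} (hF : Ct F) {A : ℝ} (hA : Le 6 A F) (i : Fin 3) :
    Integrable fun ξ => NL F F i ξ * (starRingEnd ℂ) (F i ξ) := by
  obtain ⟨C, hC⟩ := ExEn_bd le_rfl A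
  have hj : JC univ fun _ => F := fun i => ((hF i).comp continuous_snd).continuousOn
  have hn := (hj.nl fun _ _ => hA.mono le_rfl (by norm_num : (4 : ℝ) ≤ 6)).ct (mem_univ 0) i
  refine int_of_le (A := C * A) (r := 4)
    (hn.mul (Complex.continuous_conj.comp (hF i))).aestronglyMeasurable (by norm_num) fun ξ => ?_
  obtain ⟨-, b2, b3⟩ := hC F hF hA i ξ
  rw [norm_mul, Complex.norm_conj, mul_right_comm]
  exact mul_le_mul b2 b3 (norm_nonneg _) ((norm_nonneg _).trans b2)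

theorem Dat.null {F : Fv} (h : Dat F) :
    ∑ i, (∫ ξ, NL F F i ξ * (starRingEnd ℂ) (F i ξ)).re = 0 := by
  obtain ⟨A, hA⟩ := h.bd 6
  have i1 := fun i => ExEn_int h.ct hA i
  have hc : ∀ i, MemLp (fun ξ => (starRingEnd ℂ) (F i ξ)) 2 volume := fun i =>
    (Complex.conjCLE : ℂ →L[ℝ] ℂ).comp_memLp' (h.repH i).mem
  have i2 : ∀ i, Integrable fun ξ : R3 => (∑ j, 2 * π * Complex.I * (ξ j : ℝ) *
      Ens.cv (F j) (F i) ξ) * (starRingEnd ℂ) (F i ξ) := fun i => (h.adv i).mem.integrable_mul (hc i)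
  have hH := fun i => (h.repH i).hinf
  have e : ∀ ξ : R3, ∑ i, NL F F i ξ * (starRingEnd ℂ) (F i ξ) =
      ∑ i, (∑ j, 2 * π * Complex.I * (ξ j : ℝ) * Ens.cv (F j) (F i) ξ) *
        (starRingEnd ℂ) (F i ξ) := fun ξ => by
    have d := congrArg (starRingEnd ℂ) (h.dv ξ)
    simp only [map_add, map_mul, Complex.conj_ofReal, map_zero, Fin.sum_univ_three] at d
    simp only [nl_split, add_mul, Finset.sum_add_distrib]
    rw [add_eq_left, Fin.sum_univ_three]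
    linear_combination 2 * π * Complex.I * PP F ξ * d
  rw [← Complex.re_sum, ← integral_finsetSum _ fun i _ => i1 i, funext e,
    integral_finsetSum _ fun i _ => i2 i, Complex.re_sum]
  refine Finset.sum_eq_zero fun i _ => ?_
  rw [← (parseval (h.adv i).1 (h.repH i).1 (h.adv i).mem (h.repH i).mem).2]
  simp only [Finset.sum_mul]
  exact Dyn.null_form hH h.div (hH i)

theorem PreS.energy {ν T : ℝ} {U : ℝ → Fv} (h : PreS ν T U) (hν : 0 < ν) (h0 : Dat (U 0)) :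
    ∀ t ∈ Icc 0 T, L2 (U t) ≤ L2 (U 0) := by
  obtain ⟨A, hA⟩ := h.bd_all hν h0 6
  obtain ⟨C, hC⟩ := ExEn_bd hν.le A
  have hn := h.jc.nl fun t ht => (hA t ht).mono le_rfl (by norm_num : (4 : ℝ) ≤ 6)
  have hb : ∀ t ∈ Icc 0 T, ∀ i ξ, ‖2 * ((-((hr ν ξ : ℂ) * U t i ξ) - NL (U t) (U t) i ξ) *
      (starRingEnd ℂ) (U t i ξ)).re‖ ≤ 2 * ((C + C) * A) * wt 4 ξ := fun t ht i ξ => by
    obtain ⟨b1, b2, b3⟩ := hC _ (h.jc.ct ht) (hA t ht) i ξ
    have b4 := norm_sub_le (-((hr ν ξ : ℂ) * U t i ξ)) (NL (U t) (U t) i ξ)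
    rw [norm_neg] at b4
    have b5 := mul_le_mul (b4.trans (add_le_add b1 b2)) b3 (norm_nonneg _)
      ((norm_nonneg _).trans (b4.trans (add_le_add b1 b2)))
    have b6 := Complex.abs_re_le_norm ((-((hr ν ξ : ℂ) * U t i ξ) - NL (U t) (U t) i ξ) *
      (starRingEnd ℂ) (U t i ξ))
    rw [norm_mul, Complex.norm_conj] at b6
    rw [norm_mul, Real.norm_two, Real.norm_eq_abs]
    linarith
  have hm : ∀ t ∈ Icc 0 T, ∀ i, Continuous fun ξ => 2 * ((-((hr ν ξ : ℂ) * U t i ξ) -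
      NL (U t) (U t) i ξ) * (starRingEnd ℂ) (U t i ξ)).re := fun t ht i =>
    continuous_const.mul (Complex.continuous_re.comp
      ((((Complex.continuous_ofReal.comp (hr_cont ν)).mul (h.jc.ct ht i)).neg.sub
        (hn.ct ht i)).mul (Complex.continuous_conj.comp (h.jc.ct ht i))))
  have hw : Integrable fun ξ => 2 * ((C + C) * A) * wt 4 ξ := (wt_int (by norm_num)).const_mul _
  have hd : ∀ t ∈ Icc 0 T, HasDerivWithinAt (fun s => L2 (U s))
      (∑ i, ∫ ξ, 2 * ((-((hr ν ξ : ℂ) * U t i ξ) - NL (U t) (U t) i ξ) *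
        (starRingEnd ℂ) (U t i ξ)).re) (Icc 0 T) t := fun t ht =>
    HasDerivWithinAt.fun_sum fun i _ => Ens.hasDerivWithinAt_integral_convex (convex_Icc 0 T)
      (f := fun s ξ => ‖U s i ξ‖ ^ 2)
      (f' := fun s ξ => 2 * ((-((hr ν ξ : ℂ) * U s i ξ) - NL (U s) (U s) i ξ) *
        (starRingEnd ℂ) (U s i ξ)).re) ht
      (fun s hs => ((h.jc.ct hs i).norm.pow 2).aestronglyMeasurable)
      ((h.dat hν h0 ht).repH i).isq (hm t ht i).aestronglyMeasurable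
      (Filter.Eventually.of_forall fun ξ s hs => hb s hs i ξ) hw
      (Filter.Eventually.of_forall fun ξ s hs => (h.ode i ξ s hs).norm_sq)
  have hl : ∀ t ∈ Icc 0 T, ∑ i, ∫ ξ, 2 * ((-((hr ν ξ : ℂ) * U t i ξ) - NL (U t) (U t) i ξ) *
      (starRingEnd ℂ) (U t i ξ)).re ≤ 0 := fun t ht => by
    have e := (h.dat hν h0 ht).null
    have i1 := fun i => ExEn_int (h.jc.ct ht) (hA t ht) i
    refine (Finset.sum_le_sum (g := fun i => -2 *
      (∫ ξ, NL (U t) (U t) i ξ * (starRingEnd ℂ) (U t i ξ)).re) fun i _ => ?_).trans ?_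
    · have e1 := Complex.reCLM.integral_comp_comm (i1 i)
      simp only [Complex.reCLM_apply] at e1
      rw [← e1, ← integral_const_mul]
      refine integral_mono (hw.mono' (hm t ht i).aestronglyMeasurable
        (Filter.Eventually.of_forall (hb t ht i))) ((i1 i).re.const_mul _) fun ξ => ?_
      have p := mul_nonneg (hr_nonneg hν.le ξ) (Complex.normSq_nonneg (U t i ξ))
      simp only [sub_mul, neg_mul, mul_assoc, Complex.mul_conj, ← Complex.ofReal_mul,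
        Complex.sub_re, Complex.neg_re, Complex.ofReal_re]
      linarith
    · rw [← Finset.mul_sum, e, mul_zero]
  have key := antitoneOn_of_hasDerivWithinAt_nonpos (convex_Icc 0 T)
    (fun t ht => (hd t ht).continuousWithinAt)
    (fun t ht => (hd t (interior_subset ht)).mono interior_subset)
    fun t ht => hl t (interior_subset ht)
  exact fun t ht => key ⟨le_rfl, ht.1.trans ht.2⟩ ht ht.1

end Pool.Agent.Work.MP_6bf1e5_an.H.Ex
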