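import Pool.Agent.Work.MP_6bf1e5_an.H.ExOde

/-!
Local existence by the contraction principle.
Hints. X := ℝ × R3 →ᵇ (Fin 3 → ℂ) (BoundedContinuousFunction). For y : X put lift y t i ξ := wt 4 ξ * y (t, ξ) i; it is
jointly continuous and Le 4 ‖y‖ (lift y t). Let R' = |R| + 1, k = 36 π 2 ^ 4 c4, take l from sym_small with
ε = 1 / (48 (k + 1) R') and T = l⁻¹. Φ y (t, ξ) i := (wt 4 ξ)⁻¹ * du (hr ν ξ) (F i ξ) (fun s => NL (lift y s) (lift y s) i ξ)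
(max 0 (min t T)); continuous by JC.nl (S = univ) and du_cont. For ‖y‖ ≤ 2 R': NL_le and L1_le give ‖NL‖ ≤ k 8 R' ^ 2 ‖ξ‖
wt 4 ξ, so du_le gives ‖Φ y‖ ≤ R' + 24 k R' ^ 2 ε ≤ 2 R'. For two points of the ball NL_sub, Le.sub-like bounds
(lift y - lift y' = lift (y - y')), du_sub, du_le give ‖Φ y - Φ y'‖ ≤ 24 k R' ε ‖y - y'‖ ≤ ‖y - y'‖ / 2.
ContractingWith.exists_fixedPoint' on the closed ball (or on its subtype). U := lift y; on Icc 0 T it equals du, so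
du_deriv and HasDerivWithinAt.congr give the equation, du_zero the initial value.
-/

open scoped ContDiff ENNReal FourierTransform Real
open Set MeasureTheory

namespace Pool.Agent.Work.MP_6bf1e5_an.H.Ex

theorem ExLoc_fix {X : Type} [NormedAddCommGroup X] [CompleteSpace X] (Φ : X → X) {ρ : ℝ}
    (hρ : 0 ≤ ρ) (h1 : ∀ y, ‖y‖ ≤ ρ → ‖Φ y‖ ≤ ρ)
    (h2 : ∀ y y', ‖y‖ ≤ ρ → ‖y'‖ ≤ ρ → ‖Φ y - Φ y'‖ ≤ ‖y - y'‖ / 2) : ∃ y, Φ y = y := by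
  have hm : MapsTo Φ (Metric.closedBall 0 ρ) (Metric.closedBall 0 ρ) := fun y hy =>
    mem_closedBall_zero_iff.2 (h1 y (mem_closedBall_zero_iff.1 hy))
  have hc : ContractingWith 2⁻¹ (hm.restrict Φ _ _) := by
    refine ⟨by norm_num, LipschitzWith.of_dist_le_mul fun y y' => ?_⟩
    have := h2 y.1 y'.1 (mem_closedBall_zero_iff.1 y.2) (mem_closedBall_zero_iff.1 y'.2)
    rw [Subtype.dist_eq, Subtype.dist_eq, dist_eq_norm, dist_eq_norm]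
    push_cast
    simp only [MapsTo.val_restrict_apply]
    linarith
  obtain ⟨y, -, hy, -⟩ := hc.exists_fixedPoint' Metric.isClosed_closedBall.isComplete hm
    (Metric.mem_closedBall_self hρ) (edist_ne_top _ _)
  exact ⟨y, hy⟩

/-- The space of the fixed point argument. -/
abbrev ExLoc_X := BoundedContinuousFunction (ℝ × R3) (Fin 3 → ℂ)

/-- Multiplication by the weight. -/
noncomputable def ExLoc_lift (y : ExLoc_X) : ℝ → Fv := fun t i ξ => (wt 4 ξ : ℂ) * y (t, ξ) i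

theorem ExLoc_cont (y : ExLoc_X) (i : Fin 3) :
    Continuous fun z : ℝ × R3 => ExLoc_lift y z.1 i z.2 :=
  (Complex.continuous_ofReal.comp ((wt_cont 4).comp continuous_snd)).mul
    ((continuous_apply i).comp y.continuous)

theorem ExLoc_jc (y : ExLoc_X) (S : Set ℝ) : JC S (ExLoc_lift y) :=
  fun i => (ExLoc_cont y i).continuousOn

theorem ExLoc_ct (y : ExLoc_X) (t : ℝ) : Ct (ExLoc_lift y t) := (ExLoc_jc y univ).ct (mem_univ t)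

theorem ExLoc_le (y : ExLoc_X) (t : ℝ) : Le 4 ‖y‖ (ExLoc_lift y t) := by
  intro i ξ
  rw [ExLoc_lift, norm_mul, Complex.norm_real, Real.norm_of_nonneg (wt_pos 4 ξ).le, mul_comm]
  exact mul_le_mul_of_nonneg_right ((norm_le_pi_norm _ i).trans (y.norm_coe_le_norm _))
    (wt_pos 4 ξ).le

theorem ExLoc_sub (y y' : ExLoc_X) (t : ℝ) :
    ExLoc_lift y t - ExLoc_lift y' t = ExLoc_lift (y - y') t := by
  funext i ξ
  simp only [ExLoc_lift, Pi.sub_apply, BoundedContinuousFunction.coe_sub, mul_sub]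

theorem ExLoc_nl (y : ExLoc_X) (i : Fin 3) :
    Continuous fun z : ℝ × R3 => NL (ExLoc_lift y z.1) (ExLoc_lift y z.1) i z.2 := by
  have h := (ExLoc_jc y univ).nl (fun t _ => ExLoc_le y t) i
  rwa [univ_prod_univ, continuousOn_univ] at h

theorem ExLoc_nl' (y : ExLoc_X) (i : Fin 3) (ξ : R3) :
    Continuous fun s => NL (ExLoc_lift y s) (ExLoc_lift y s) i ξ :=
  (ExLoc_nl y i).comp (f := fun s : ℝ => (s, ξ)) (by fun_prop)

/-- The constant of the bilinear estimate. -/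
noncomputable def ExLoc_k : ℝ := 72 * π * 2 ^ (4 : ℝ) * c4

theorem ExLoc_k_nonneg : 0 ≤ ExLoc_k := mul_nonneg (by positivity) c4_nonneg

theorem ExLoc_bil {F G : Fv} {A B : ℝ} (hF : Ct F) (hG : Ct G) (bF : Le 4 A F) (bG : Le 4 B G)
    (i : Fin 3) (ξ : R3) : ‖NL F G i ξ‖ ≤ ExLoc_k * (A * B) * (‖ξ‖ * wt 4 ξ) := by
  refine (NL_le hF hG le_rfl bF bG i ξ).trans (mul_le_mul_of_nonneg_right ?_
    (mul_nonneg (norm_nonneg _) (wt_pos 4 ξ).le))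
  have h1 := mul_le_mul_of_nonneg_left (L1_le bG) bF.nonneg
  have h2 := mul_le_mul_of_nonneg_left (L1_le bF) bG.nonneg
  calc 36 * π * 2 ^ (4 : ℝ) * (A * L1 G + B * L1 F)
      ≤ 36 * π * 2 ^ (4 : ℝ) * (A * (c4 * B) + B * (c4 * A)) :=
        mul_le_mul_of_nonneg_left (add_le_add h1 h2) (by positivity)
    _ = _ := by
        unfold ExLoc_k
        ring

/-- The map of the fixed point argument. -/
noncomputable def ExLoc_Ψ (ν l : ℝ) (F : Fv) (y : ExLoc_X) (z : ℝ × R3) (i : Fin 3) : ℂ :=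
  (((wt 4 z.2)⁻¹ : ℝ) : ℂ) * du (hr ν z.2) (F i z.2)
    (fun s => NL (ExLoc_lift y s) (ExLoc_lift y s) i z.2) (max 0 (min z.1 l⁻¹))

theorem ExLoc_Ψ_cont (ν l : ℝ) {F : Fv} (hF : Ct F) (y : ExLoc_X) :
    Continuous (ExLoc_Ψ ν l F y) := by
  refine continuous_pi fun i => Continuous.mul (Complex.continuous_ofReal.comp
    (((wt_cont 4).comp continuous_snd).inv₀ fun z => (wt_pos 4 _).ne')) ?_
  exact (du_cont (ρ := fun s ξ => NL (ExLoc_lift y s) (ExLoc_lift y s) i ξ) (hr_cont ν) (hF i)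
    (ExLoc_nl y i)).comp (f := fun z : ℝ × R3 => (max 0 (min z.1 l⁻¹), z.2)) (by fun_prop)

theorem ExLoc_du {ν l ε R A t : ℝ} (hν : 0 < ν) (hl : 0 < l) {ξ : R3}
    (hε : ‖ξ‖ / (hr ν ξ + l) ≤ ε) {z0 : ℂ} (h0 : ‖z0‖ ≤ R * wt 4 ξ) {ρ : ℝ → ℂ}
    (hρ : Continuous ρ) (hA : 0 ≤ A) (hb : ∀ s, ‖ρ s‖ ≤ A * (‖ξ‖ * wt 4 ξ)) :
    ‖(((wt 4 ξ)⁻¹ : ℝ) : ℂ) * du (hr ν ξ) z0 ρ (max 0 (min t l⁻¹))‖ ≤ R + 3 * A * ε := by
  have hw := wt_pos 4 ξ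
  have h1 := du_le z0 hρ (hr_nonneg hν.le ξ) hl hb (t := max 0 (min t l⁻¹))
    ⟨le_max_left _ _, max_le (inv_pos.2 hl).le (min_le_right _ _)⟩
  rw [norm_mul, Complex.norm_real, Real.norm_of_nonneg (inv_pos.2 hw).le, inv_mul_le_iff₀ hw]
  have h2 : 3 * (A * (‖ξ‖ * wt 4 ξ)) / (hr ν ξ + l) = 3 * A * wt 4 ξ * (‖ξ‖ / (hr ν ξ + l)) := by
    ring
  have h3 := mul_le_mul_of_nonneg_left hε (show 0 ≤ 3 * A * wt 4 ξ by positivity)
  linarith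

theorem ExLoc_Ψ_le {ν l ε R : ℝ} (hν : 0 < ν) (hl : 0 < l) (hε0 : 0 ≤ ε)
    (hε : ∀ ξ : R3, ‖ξ‖ / (hr ν ξ + l) ≤ ε) {F : Fv} (bF : Le 4 R F) (y : ExLoc_X) (z : ℝ × R3) :
    ‖ExLoc_Ψ ν l F y z‖ ≤ R + 3 * (ExLoc_k * (‖y‖ * ‖y‖)) * ε := by
  have hA : 0 ≤ ExLoc_k * (‖y‖ * ‖y‖) := mul_nonneg ExLoc_k_nonneg (by positivity)
  refine (pi_norm_le_iff_of_nonneg (add_nonneg bF.nonneg (by positivity))).2 fun i => ?_
  exact ExLoc_du hν hl (hε _) (bF i _) (ExLoc_nl' y i _) hA fun s =>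
    ExLoc_bil (ExLoc_ct y s) (ExLoc_ct y s) (ExLoc_le y s) (ExLoc_le y s) i _

theorem ExLoc_Ψ_sub {ν l ε : ℝ} (hν : 0 < ν) (hl : 0 < l) (hε0 : 0 ≤ ε)
    (hε : ∀ ξ : R3, ‖ξ‖ / (hr ν ξ + l) ≤ ε) (F : Fv) (y y' : ExLoc_X) (z : ℝ × R3) :
    ‖ExLoc_Ψ ν l F y z - ExLoc_Ψ ν l F y' z‖ ≤
      3 * (ExLoc_k * ((‖y‖ + ‖y'‖) * ‖y - y'‖)) * ε := by
  have hA : 0 ≤ ExLoc_k * ((‖y‖ + ‖y'‖) * ‖y - y'‖) := mul_nonneg ExLoc_k_nonneg (by positivity)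
  refine (pi_norm_le_iff_of_nonneg (by positivity)).2 fun i => ?_
  rw [Pi.sub_apply, ExLoc_Ψ, ExLoc_Ψ, ← mul_sub, du_sub _ _ (ExLoc_nl' y i _) (ExLoc_nl' y' i _),
    ← zero_add (3 * _ * ε)]
  refine ExLoc_du hν hl (hε _) (by simp) ((ExLoc_nl' y i _).sub (ExLoc_nl' y' i _)) hA fun s => ?_
  rw [NL_sub (ExLoc_ct y s) (ExLoc_ct y' s) (ExLoc_le y s) (ExLoc_le y' s), ExLoc_sub]
  have h1 := ExLoc_bil (ExLoc_ct (y - y') s) (ExLoc_ct y s) (ExLoc_le _ s) (ExLoc_le y s) i z.2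
  have h2 := ExLoc_bil (ExLoc_ct y' s) (ExLoc_ct (y - y') s) (ExLoc_le _ s) (ExLoc_le _ s) i z.2
  refine (norm_add_le _ _).trans ((add_le_add h1 h2).trans_eq ?_)
  ring

theorem loc {ν : ℝ} (hν : 0 < ν) (R : ℝ) : ∃ T > 0, ∀ F : Fv, Ct F → Le 4 R F →
    ∃ U, PreS ν T U ∧ U 0 = F := by
  have hk := ExLoc_k_nonneg
  obtain ⟨ρ, hρ, hR⟩ : ∃ ρ, 0 < ρ ∧ 2 * R ≤ ρ := ⟨2 * |R| + 1, by positivity, by
    linarith [le_abs_self R]⟩
  obtain ⟨ε, hε0, he⟩ : ∃ ε, 0 < ε ∧ ExLoc_k * ρ * ε ≤ 1 / 12 := by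
    refine ⟨1 / (12 * (ExLoc_k + 1) * ρ), by positivity, ?_⟩
    rw [mul_one_div, div_le_div_iff₀ (by positivity) (by norm_num)]
    nlinarith
  obtain ⟨l, hl, hε⟩ := sym_small hν hε0
  refine ⟨l⁻¹, inv_pos.2 hl, fun F hF bF => ?_⟩
  have hke : 0 ≤ ExLoc_k * ε := mul_nonneg hk hε0.le
  obtain ⟨y, hy⟩ := ExLoc_fix (fun y : ExLoc_X => BoundedContinuousFunction.ofNormedAddCommGroup
    (ExLoc_Ψ ν l F y) (ExLoc_Ψ_cont ν l hF y) _ (ExLoc_Ψ_le hν hl hε0.le hε bF y)) hρ.le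
    (fun y hy => by
      refine (BoundedContinuousFunction.norm_le hρ.le).2 fun z =>
        (ExLoc_Ψ_le hν hl hε0.le hε bF y z).trans ?_
      have h1 := mul_le_mul_of_nonneg_left (mul_le_mul hy hy (norm_nonneg _) hρ.le) hke
      have h2 := mul_le_mul_of_nonneg_right he hρ.le
      linarith)
    (fun y y' hy hy' => by
      refine (BoundedContinuousFunction.norm_le (by positivity)).2 fun z =>
        (ExLoc_Ψ_sub hν hl hε0.le hε F y y' z).trans ?_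
      have h1 := mul_le_mul_of_nonneg_left
        (mul_le_mul_of_nonneg_right (add_le_add hy hy') (norm_nonneg (y - y'))) hke
      have h2 := mul_le_mul_of_nonneg_right he (norm_nonneg (y - y'))
      linarith)
  have hU : ∀ i ξ, ∀ t ∈ Icc 0 l⁻¹, ExLoc_lift y t i ξ = du (hr ν ξ) (F i ξ)
      (fun s => NL (ExLoc_lift y s) (ExLoc_lift y s) i ξ) t := by
    intro i ξ t ht
    have h1 : ExLoc_Ψ ν l F y (t, ξ) = y (t, ξ) := DFunLike.congr_fun hy (t, ξ)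
    rw [ExLoc_lift, ← h1, ExLoc_Ψ, ← mul_assoc, ← Complex.ofReal_mul,
      mul_inv_cancel₀ (wt_pos 4 ξ).ne', Complex.ofReal_one, one_mul, min_eq_left ht.2,
      max_eq_right ht.1]
  refine ⟨ExLoc_lift y, ⟨ExLoc_jc y _, ⟨‖y‖, fun t _ => ExLoc_le y t⟩, fun i ξ t ht => ?_⟩, ?_⟩
  · rw [hU i ξ t ht]
    exact (du_deriv _ _ (ExLoc_nl' y i ξ) t).hasDerivWithinAt.congr (hU i ξ) (hU i ξ t ht)
  · funext i ξ
    rw [hU i ξ 0 ⟨le_rfl, (inv_pos.2 hl).le⟩, du_zero]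

end Pool.Agent.Work.MP_6bf1e5_an.H.Ex
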