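import Pool.Agent.Work.MP_6bf1e5_an.H.ExCat
import Pool.Agent.Work.MP_6bf1e5_an.H.ExCl
import Pool.Agent.Work.MP_6bf1e5_an.H.ExEn

/-!
The maximal solution.
-/

open scoped ContDiff ENNReal FourierTransform Real
open Set MeasureTheory

namespace Pool.Agent.Work.MP_6bf1e5_an.H

theorem exists_max {ν : ℝ} (hν : 0 < ν) {B : Vc} (hB : Bg B) :
    ∃ I u p U, MaxS ν B I u p U := by
  obtain ⟨F, hF, rfl⟩ := Ex.of_bg hB
  obtain ⟨A, hA⟩ := hF.bd 4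
  obtain ⟨U, rfl, hU⟩ := Ex.maxF hν hF.ct hA
  obtain ⟨C, hC⟩ := Ex.L1_phys
  have en : ∀ T, Ex.PreS ν T U → ∀ t ∈ Icc 0 T, nw 1 (Ex.ph (U t)) ≤ nw 1 (Ex.ph (U 0)) := by
    intro T h t ht
    rw [← (h.dat hν hF ht).L2_eq, ← hF.L2_eq]
    exact h.energy hν hF t ht
  refine ⟨{T | 0 < T ∧ Ex.PreS ν T U}, fun x t => tov (Ex.ph (U t)) x,
    fun x t => (Ens.ev (Ex.PP (U t)) x).re, U, fun T hT => ⟨hT.1, hT.2.fsol hν hT.1 hF⟩,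
    fun T hT T' h1 h2 => ⟨h1, hT.2.mono h2⟩, fun T hT K hK => ?_, fun T hT => en T hT.2⟩
  obtain ⟨ε, hε, h⟩ := hU T hT (C + nw 1 (Ex.ph (U 0)) + K) fun T' hT' =>
    ⟨(hK T' hT').1.2, fun t ht => (hC _ ((hK T' hT').1.2.dat hν hF ht)).trans
      (add_le_add (add_le_add le_rfl (en T' (hK T' hT').1.2 t ht)) ((hK T' hT').2 t ht))⟩
  exact ⟨ε, hε, by linarith, h⟩

end Pool.Agent.Work.MP_6bf1e5_an.H
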