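import Pool.Agent.Work.MP_6bf1e5_an.H.ExConv

/-!
Scalar linear equations and the symbol.
Hints. ode1: w t = exp (h t) z t has derivative -(exp (h t) ρ t), of norm at most the derivative of
‖z 0‖ + A exp ((h + l) t) / (h + l); image_norm_le_of_norm_deriv_right_le_deriv_boundary (for t in Ico 0 T the set
Icc 0 T is a neighbourhood of t within Ici t). sym_small: for ‖ξ‖ large ‖ξ‖ ≤ ε ν (2 π ‖ξ‖) ^ (3 / 2), otherwise
‖ξ‖ ≤ ε l. duh: exp (-(h (t - s))) = exp (-(h t)) exp (h s), intervalIntegral.integral_hasDerivAt_right.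
duh_cont: intervalIntegral.continuous_parametric_intervalIntegral_of_continuous.
-/

open scoped ContDiff ENNReal FourierTransform Real
open Set MeasureTheory

namespace Pool.Agent.Work.MP_6bf1e5_an.H.Ex

theorem ExOde_exp (h t : ℝ) : HasDerivAt (fun s => (Real.exp (h * s) : ℂ))
    ((Real.exp (h * t) : ℂ) * h) t := by
  have h1 := (((hasDerivAt_id t).const_mul h).exp).ofReal_comp
  simpa only [id, mul_one, Complex.ofReal_mul] using h1

theorem ode1 {T h l A : ℝ} {z ρ : ℝ → ℂ} (hh : 0 ≤ h) (hl : 0 < l) (hA : 0 ≤ A)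
    (hz : ∀ t ∈ Icc 0 T, HasDerivWithinAt z (-((h : ℂ) * z t) - ρ t) (Icc 0 T) t)
    (hρ : ∀ t ∈ Icc 0 T, ‖ρ t‖ ≤ A * Real.exp (l * t)) :
    ∀ t ∈ Icc 0 T, ‖z t‖ ≤ ‖z 0‖ + A * Real.exp (l * t) / (h + l) := by
  have hw : ∀ t ∈ Icc 0 T, HasDerivWithinAt (fun s => (Real.exp (h * s) : ℂ) * z s)
      (-((Real.exp (h * t) : ℂ) * ρ t)) (Icc 0 T) t := fun t ht => by
    refine ((ExOde_exp h t).hasDerivWithinAt.fun_mul (hz t ht)).congr_deriv ?_
    ring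
  have hhl : 0 < h + l := by linarith
  have hB : ∀ x, HasDerivAt (fun s => ‖z 0‖ + A * Real.exp ((h + l) * s) / (h + l))
      (A * Real.exp ((h + l) * x)) x := fun x => by
    refine (((((hasDerivAt_id' x).const_mul (h + l)).exp.const_mul A).div_const
      (h + l)).const_add ‖z 0‖).congr_deriv ?_
    field_simp
  have key := image_norm_le_of_norm_deriv_right_le_deriv_boundary
    (f := fun s => (Real.exp (h * s) : ℂ) * z s) (a := 0) (b := T)
    (f' := fun t => -((Real.exp (h * t) : ℂ) * ρ t))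
    (fun t ht => (hw t ht).continuousWithinAt)
    (fun t ht => (hw t (Ico_subset_Icc_self ht)).mono_of_mem_nhdsWithin
      (Icc_mem_nhdsGE_of_mem ht))
    (by
      have : 0 ≤ A * Real.exp ((h + l) * 0) / (h + l) := by positivity
      simp only [mul_zero, Real.exp_zero, Complex.ofReal_one, one_mul] at this ⊢
      linarith)
    hB
    (fun t ht => by
      rw [norm_neg, norm_mul, Complex.norm_real, Real.norm_of_nonneg (Real.exp_pos _).le, add_mul,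
        Real.exp_add, mul_left_comm]
      exact mul_le_mul_of_nonneg_left (hρ t (Ico_subset_Icc_self ht)) (Real.exp_pos _).le)
  intro t ht
  have h1 := key ht
  simp only [norm_mul, Complex.norm_real, Real.norm_of_nonneg (Real.exp_pos _).le] at h1
  have h2 : 1 ≤ Real.exp (h * t) := Real.one_le_exp (mul_nonneg hh ht.1)
  refine le_of_mul_le_mul_left (h1.trans ?_) (Real.exp_pos (h * t))
  rw [add_mul h l t, Real.exp_add, mul_add]
  refine add_le_add (le_mul_of_one_le_left (norm_nonneg _) h2) (le_of_eq ?_)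
  ring

theorem ExOde_hr {ν : ℝ} (hν : 0 < ν) (ξ : R3) : ν * (‖ξ‖ * √‖ξ‖) ≤ hr ν ξ := by
  refine mul_le_mul_of_nonneg_left ?_ hν.le
  have h1 : ‖ξ‖ * √‖ξ‖ = ‖ξ‖ ^ (3 / 2 : ℝ) := by
    rw [Real.sqrt_eq_rpow, ← Real.rpow_one_add' (norm_nonneg ξ) (by norm_num)]
    norm_num
  rw [h1]
  refine Real.rpow_le_rpow (norm_nonneg ξ) ?_ (by norm_num)
  have := Real.pi_gt_three
  nlinarith [norm_nonneg ξ]

theorem sym_small {ν ε : ℝ} (hν : 0 < ν) (hε : 0 < ε) :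
    ∃ l > 0, ∀ ξ : R3, ‖ξ‖ / (hr ν ξ + l) ≤ ε := by
  have hp : 0 < ε * ν := mul_pos hε hν
  refine ⟨(ε * ν)⁻¹ ^ 2 / ε, by positivity, fun ξ => ?_⟩
  have h1 := ExOde_hr hν ξ
  have h0 : 0 ≤ ν * (‖ξ‖ * √‖ξ‖) := by positivity
  have hl : 0 < (ε * ν)⁻¹ ^ 2 / ε := by positivity
  rw [div_le_iff₀ (by linarith), mul_add, mul_div_cancel₀ _ hε.ne']
  by_cases hc : ‖ξ‖ ≤ (ε * ν)⁻¹ ^ 2
  · have : 0 ≤ ε * hr ν ξ := mul_nonneg hε.le (h0.trans h1)
    linarith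
  · have h2 : (ε * ν)⁻¹ ≤ √‖ξ‖ := Real.le_sqrt_of_sq_le (not_le.mp hc).le
    have h3 : 1 ≤ ε * ν * √‖ξ‖ := by
      have := mul_le_mul_of_nonneg_left h2 hp.le
      rwa [mul_inv_cancel₀ hp.ne'] at this
    have h4 := mul_le_mul_of_nonneg_left h1 hε.le
    have h5 := mul_le_mul_of_nonneg_left h3 (norm_nonneg ξ)
    have h6 : 0 ≤ (ε * ν)⁻¹ ^ 2 := by positivity
    nlinarith

theorem sym_gain {ν : ℝ} (hν : 0 < ν) :
    ∃ C ≥ 0, ∀ ξ : R3, ‖ξ‖ / (hr ν ξ + 1) ≤ C * wt (1 / 2) ξ := by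
  refine ⟨1 + 2 / ν, by positivity, fun ξ => ?_⟩
  have h1 := ExOde_hr hν ξ
  have h0 : 0 ≤ ν * (‖ξ‖ * √‖ξ‖) := by positivity
  have hr0 : 0 < 1 + ‖ξ‖ := by positivity
  have hw : wt (1 / 2) ξ = (√(1 + ‖ξ‖))⁻¹ := by
    rw [wt, Real.rpow_neg hr0.le, Real.sqrt_eq_rpow]
  have hs := Real.sqrt_nonneg ‖ξ‖
  have hss := Real.mul_self_sqrt (norm_nonneg ξ)
  have hq : √(1 + ‖ξ‖) ≤ 1 + √‖ξ‖ := Real.sqrt_le_iff.mpr ⟨by positivity, by nlinarith⟩
  rw [hw, ← div_eq_mul_inv, div_le_div_iff₀ (by linarith) (Real.sqrt_pos.mpr hr0)]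
  have h2 : ‖ξ‖ ≤ 1 + ‖ξ‖ * √‖ξ‖ := by
    by_cases hc : √‖ξ‖ ≤ 1
    · have : 0 ≤ ‖ξ‖ * √‖ξ‖ := by positivity
      nlinarith
    · nlinarith [norm_nonneg ξ]
  have h3 := mul_le_mul_of_nonneg_left hq (norm_nonneg ξ)
  have h4 : 2 * (‖ξ‖ * √‖ξ‖) ≤ 2 / ν * hr ν ξ := by
    rw [div_mul_eq_mul_div, le_div_iff₀ hν]
    nlinarith
  have h5 : 0 ≤ 2 / ν := by positivity
  nlinarith

theorem halve {Q : ℝ → Prop} {a m : ℝ} (ha : 0 ≤ a) (hm : 0 ≤ m) (h0 : Q m)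
    (mono : ∀ x y, x ≤ y → Q x → Q y) (step : ∀ x ≥ 0, Q x → Q (a + x / 2)) :
    ∀ ε > 0, Q (2 * a + ε) := by
  have key : ∀ n : ℕ, Q (2 * a + m / 2 ^ n) := fun n => by
    induction n with
    | zero => exact mono _ _ (by rw [pow_zero, div_one]; linarith) h0
    | succ n ih =>
      refine mono _ _ (le_of_eq ?_) (step _ (by positivity) ih)
      rw [pow_succ]
      field_simp
      ring
  intro ε hε
  obtain ⟨n, hn⟩ := pow_unbounded_of_one_lt (m / ε) (one_lt_two (α := ℝ))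
  refine mono _ _ ?_ (key n)
  rw [div_lt_iff₀ hε] at hn
  have : m / 2 ^ n ≤ ε := by
    rw [div_le_iff₀ (by positivity)]
    linarith
  linarith

/-- The solution of `z' = -h z - ρ`. -/
noncomputable def du (h : ℝ) (z0 : ℂ) (ρ : ℝ → ℂ) (t : ℝ) : ℂ :=
  (Real.exp (-(h * t)) : ℂ) * z0 - ∫ s in (0 : ℝ)..t, (Real.exp (-(h * (t - s))) : ℂ) * ρ s

theorem du_zero (h : ℝ) (z0 : ℂ) (ρ : ℝ → ℂ) : du h z0 ρ 0 = z0 := by
  simp [du]

theorem du_deriv (h : ℝ) (z0 : ℂ) {ρ : ℝ → ℂ} (hρ : Continuous ρ) (t : ℝ) :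
    HasDerivAt (du h z0 ρ) (-((h : ℂ) * du h z0 ρ t) - ρ t) t := by
  have e : du h z0 ρ = fun t => (Real.exp (-h * t) : ℂ) *
      (z0 - ∫ s in (0 : ℝ)..t, (Real.exp (h * s) : ℂ) * ρ s) := by
    funext t
    rw [du, mul_sub, ← intervalIntegral.integral_const_mul, neg_mul]
    congr 2
    funext s
    rw [← mul_assoc, ← Complex.ofReal_mul, ← Real.exp_add]
    congr 3
    ring
  have hc : Continuous fun s => (Real.exp (h * s) : ℂ) * ρ s := by fun_prop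
  have h1 := (ExOde_exp (-h) t).fun_mul
    ((hc.integral_hasStrictDerivAt 0 t).hasDerivAt.const_sub z0)
  have h2 : (Real.exp (-h * t) : ℂ) * (Real.exp (h * t) : ℂ) = 1 := by
    rw [← Complex.ofReal_mul, ← Real.exp_add]
    simp
  rw [e]
  refine h1.congr_deriv ?_
  simp only [Complex.ofReal_neg]
  linear_combination (-ρ t) * h2

theorem du_sub (h : ℝ) (z0 : ℂ) {ρ σ : ℝ → ℂ} (hρ : Continuous ρ) (hσ : Continuous σ) (t : ℝ) :
    du h z0 ρ t - du h z0 σ t = du h 0 (fun s => ρ s - σ s) t := by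
  have h1 : Continuous fun s => (Real.exp (-(h * (t - s))) : ℂ) * ρ s := by fun_prop
  have h2 : Continuous fun s => (Real.exp (-(h * (t - s))) : ℂ) * σ s := by fun_prop
  simp only [du, mul_sub (_ : ℂ)]
  rw [intervalIntegral.integral_sub (h1.intervalIntegrable _ _) (h2.intervalIntegrable _ _)]
  ring

theorem du_cont {h : R3 → ℝ} {z0 : R3 → ℂ} {ρ : ℝ → R3 → ℂ} (hh : Continuous h)
    (hz : Continuous z0) (hρ : Continuous fun z : ℝ × R3 => ρ z.1 z.2) :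
    Continuous fun z : ℝ × R3 => du (h z.2) (z0 z.2) (fun s => ρ s z.2) z.1 := by
  unfold du
  refine Continuous.sub (by fun_prop) ?_
  refine intervalIntegral.continuous_parametric_intervalIntegral_of_continuous
    (f := fun (z : ℝ × R3) s => (Real.exp (-(h z.2 * (z.1 - s))) : ℂ) * ρ s z.2) ?_ continuous_fst
  have h1 : Continuous fun p : (ℝ × R3) × ℝ => ρ p.2 p.1.2 :=
    hρ.comp (continuous_snd.prodMk (continuous_snd.comp continuous_fst))
  exact Continuous.mul (by fun_prop) h1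

theorem du_le {h l A t : ℝ} (z0 : ℂ) {ρ : ℝ → ℂ} (hρ : Continuous ρ) (hh : 0 ≤ h) (hl : 0 < l)
    (hb : ∀ s, ‖ρ s‖ ≤ A) (ht : t ∈ Icc 0 l⁻¹) : ‖du h z0 ρ t‖ ≤ ‖z0‖ + 3 * A / (h + l) := by
  have hA : 0 ≤ A := (norm_nonneg _).trans (hb 0)
  have h1 := ode1 (T := l⁻¹) (z := du h z0 ρ) hh hl hA
    (fun t _ => (du_deriv h z0 hρ t).hasDerivWithinAt)
    (fun t ht => (hb t).trans
      (le_mul_of_one_le_right hA (Real.one_le_exp (mul_nonneg hl.le ht.1)))) t ht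
  rw [du_zero] at h1
  refine h1.trans (add_le_add le_rfl (div_le_div_of_nonneg_right ?_ (by linarith)))
  have h2 : l * t ≤ 1 := by
    have := mul_le_mul_of_nonneg_left ht.2 hl.le
    rwa [mul_inv_cancel₀ hl.ne'] at this
  have h3 := (Real.exp_le_exp.mpr h2).trans Real.exp_one_lt_three.le
  rw [mul_comm 3 A]
  exact mul_le_mul_of_nonneg_left h3 hA

end Pool.Agent.Work.MP_6bf1e5_an.H.Ex
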