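import Pool.Agent.Work.MP_6bf1e5_an.H.ExApr
import Pool.Agent.Work.MP_6bf1e5_an.Ens.Sm

/-!
Smoothness of the inverse Fourier integral. This is a port of Ens/Sm.lean (read it; smE, smX, smT, sm_norm_E,
sm_cont_E, sm_ev_eq, sm_hasFDerivAt_E, sm_ae_ne can be cited) with the weights wt r instead of the exponential ones.
Hints. symb: pow_wt. cv: cv_le, cv_cont, and Ens.hasDerivWithinAt_integral_convex with the bound 2 C C wt 4 η.
PreS.sm: PreS.bd_all; the symbol hr ν is continuous and at most ν (2 π) ^ (3 / 2) (1 + ‖ξ‖) ^ 2.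
-/

open scoped ContDiff ENNReal FourierTransform Real
open Set MeasureTheory

namespace Pool.Agent.Work.MP_6bf1e5_an.H.Ex

variable {ν T : ℝ} {n : ℕ} {f g : ℝ → R3 → ℂ} {U : ℝ → Fv}

theorem Sm.ub (h : Sm T n f) : UB T f := by
  cases n with
  | zero => exact h
  | succ n => exact h.1
theorem exsm_pred : ∀ {f : ℝ → R3 → ℂ}, Sm T (n + 1) f → Sm T n f := by
  induction n with
  | zero => exact fun h => h.1
  | succ n ih => exact fun ⟨h1, f', h2, h3⟩ => ⟨h1, f', h2, ih h3⟩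

theorem exsm_bound (h : UB T f) (r : ℝ) : ∃ C : ℝ, 0 ≤ C ∧ ∀ C' : ℝ, C ≤ C' →
    ∀ t ∈ Icc 0 T, ∀ ξ, ‖f t ξ‖ ≤ C' * wt r ξ := by
  obtain ⟨C, hb⟩ := h.2 r
  refine ⟨max C 0, le_max_right _ _, fun C' hC t ht ξ => (hb t ht ξ).trans ?_⟩
  exact mul_le_mul_of_nonneg_right ((le_max_left _ _).trans hC) (wt_pos _ _).le

theorem exsm_bound2 (hf : UB T f) (hg : UB T g) (r : ℝ) : ∃ C : ℝ, 0 ≤ C ∧
    (∀ t ∈ Icc 0 T, ∀ ξ, ‖f t ξ‖ ≤ C * wt r ξ) ∧ ∀ t ∈ Icc 0 T, ∀ ξ, ‖g t ξ‖ ≤ C * wt r ξ := by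
  obtain ⟨C, hC, hb⟩ := exsm_bound hf r
  obtain ⟨D, -, hd⟩ := exsm_bound hg r
  exact ⟨max C D, hC.trans (le_max_left _ _), hb _ (le_max_left _ _), hd _ (le_max_right _ _)⟩

theorem exsm_cont (h : UB T f) {t : ℝ} (ht : t ∈ Icc 0 T) : ContinuousOn (f t) {0}ᶜ :=
  Ens.conv_slice h.1 ht

theorem exsm_meas (h : UB T f) {t : ℝ} (ht : t ∈ Icc 0 T) : AEStronglyMeasurable (f t) volume :=
  Ens.aesm_of_continuousOn (exsm_cont h ht)

theorem exsm_integrable (h : UB T f) {t : ℝ} (ht : t ∈ Icc 0 T) : Integrable (f t) := by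
  obtain ⟨C, hb⟩ := h.2 4
  exact int_of_le (exsm_meas h ht) (by norm_num) (hb t ht)

theorem exsm_ub_symb (hf : UB T f) {m : R3 → ℂ} (hm : ContinuousOn m {0}ᶜ) {C : ℝ} {k : ℕ}
    (hb : ∀ ξ, ‖m ξ‖ ≤ C * (1 + ‖ξ‖) ^ k) : UB T fun t ξ => m ξ * f t ξ := by
  refine ⟨(hm.comp continuousOn_snd fun z hz => hz.2).mul hf.1, fun r => ?_⟩
  obtain ⟨D, hD⟩ := hf.2 (r + k)
  refine ⟨C * D, fun t ht ξ => ?_⟩
  calc ‖m ξ * f t ξ‖ = ‖m ξ‖ * ‖f t ξ‖ := norm_mul _ _
    _ ≤ (C * (1 + ‖ξ‖) ^ k) * (D * wt (r + k) ξ) :=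
        mul_le_mul (hb ξ) (hD t ht ξ) (norm_nonneg _) ((norm_nonneg _).trans (hb ξ))
    _ = C * D * ((1 + ‖ξ‖) ^ k * wt (r + k) ξ) := by ring
    _ = _ := by rw [pow_wt]


theorem UB.int (h : UB T f) {t : ℝ} (ht : t ∈ Icc 0 T) (k : ℕ) :
    Integrable fun ξ => (((1 + ‖ξ‖) ^ k : ℝ) : ℂ) * f t ξ := by
  refine exsm_integrable (exsm_ub_symb h (m := fun ξ => (((1 + ‖ξ‖) ^ k : ℝ) : ℂ)) (C := 1)
    (k := k) (by fun_prop) fun ξ => ?_) ht
  rw [Complex.norm_real, Real.norm_eq_abs, abs_of_nonneg (by positivity), one_mul]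
theorem exsm_ub_add (hf : UB T f) (hg : UB T g) : UB T fun t ξ => f t ξ + g t ξ := by
  refine ⟨hf.1.add hg.1, fun r => ?_⟩
  obtain ⟨C, -, h1, h2⟩ := exsm_bound2 hf hg r
  refine ⟨C + C, fun t ht ξ => (norm_add_le _ _).trans ?_⟩
  rw [add_mul]
  exact add_le_add (h1 t ht ξ) (h2 t ht ξ)

theorem exsm_add : ∀ {f g : ℝ → R3 → ℂ}, Sm T n f → Sm T n g →
    Sm T n fun t ξ => f t ξ + g t ξ := by
  induction n with
  | zero => exact exsm_ub_add
  | succ n ih =>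
    rintro f g ⟨h1, f', h2, h3⟩ ⟨g1, g', g2, g3⟩
    exact ⟨exsm_ub_add h1 g1, _, fun ξ t ht => (h2 ξ t ht).add (g2 ξ t ht), ih h3 g3⟩


theorem Sm.add (hf : Sm T n f) (hg : Sm T n g) : Sm T n fun t ξ => f t ξ + g t ξ := by
  exact exsm_add hf hg
theorem exsm_zero : Sm T n fun _ _ => 0 := by
  have ub : UB T fun _ _ => 0 := ⟨continuousOn_const, fun _ => ⟨0, fun t _ ξ => by simp⟩⟩
  induction n with
  | zero => exact ub
  | succ n ih => exact ⟨ub, fun _ _ => 0, fun ξ t _ => hasDerivWithinAt_const _ _ _, ih⟩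


theorem Sm.sum {α : Type} (s : Finset α) {f : α → ℝ → R3 → ℂ} (hf : ∀ a ∈ s, Sm T n (f a)) :
    Sm T n fun t ξ => ∑ a ∈ s, f a t ξ := by
  classical
  induction s using Finset.induction_on with
  | empty => simpa using exsm_zero
  | insert a s ha ih =>
    simp only [Finset.sum_insert ha]
    exact (hf a (Finset.mem_insert_self _ _)).add
      (ih fun b hb => hf b (Finset.mem_insert_of_mem hb))
theorem exsm_symb {m : R3 → ℂ} (hm : ContinuousOn m {0}ᶜ) {C : ℝ} {k : ℕ}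
    (hb : ∀ ξ, ‖m ξ‖ ≤ C * (1 + ‖ξ‖) ^ k) :
    ∀ {f : ℝ → R3 → ℂ}, Sm T n f → Sm T n fun t ξ => m ξ * f t ξ := by
  induction n with
  | zero => exact fun h => exsm_ub_symb h hm hb
  | succ n ih =>
    rintro f ⟨h1, f', h2, h3⟩
    exact ⟨exsm_ub_symb h1 hm hb, _, fun ξ t ht => (h2 ξ t ht).const_mul (m ξ), ih h3⟩


theorem Sm.symb (hf : Sm T n f) {m : R3 → ℂ} (hm : ContinuousOn m {0}ᶜ) {C : ℝ} {k : ℕ}
    (hb : ∀ ξ, ‖m ξ‖ ≤ C * (1 + ‖ξ‖) ^ k) : Sm T n fun t ξ => m ξ * f t ξ := by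
  exact exsm_symb hm hb hf
theorem exsm_l1 {f : R3 → ℂ} {C r : ℝ} (hr : 3 < r) (h : ∀ ξ, ‖f ξ‖ ≤ C * wt r ξ) :
    ∫ η, ‖f η‖ ≤ C * ∫ η, wt r η := by
  rw [← integral_const_mul]
  exact integral_mono_of_nonneg (Filter.Eventually.of_forall fun _ => norm_nonneg _)
    ((wt_int hr).const_mul C) (Filter.Eventually.of_forall h)

theorem exsm_ub_cv (hf : UB T f) (hg : UB T g) : UB T fun t ξ => Ens.cv (f t) (g t) ξ := by
  refine ⟨?_, fun r => ?_⟩
  · obtain ⟨C, -, h1, h2⟩ := exsm_bound2 hf hg 4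
    exact (cv_cont hf.1 hg.1 h1 h2).mono (prod_mono Subset.rfl (subset_univ _))
  · obtain ⟨C, hC, h1, h2⟩ := exsm_bound2 hf hg (max r 4)
    have h3 : (3 : ℝ) < max r 4 := lt_of_lt_of_le (by norm_num) (le_max_right _ _)
    have hI : 0 ≤ ∫ η, wt (max r 4) η := integral_nonneg fun η => (wt_pos _ _).le
    refine ⟨2 ^ max r 4 * (C * (C * ∫ η, wt (max r 4) η) + C * (C * ∫ η, wt (max r 4) η)),
      fun t ht ξ => (cv_le (exsm_meas hf ht) (exsm_meas hg ht) (le_max_right _ _) (h1 t ht)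
        (h2 t ht) ξ).trans ?_⟩
    have h4 := exsm_l1 h3 (h1 t ht)
    have h5 := exsm_l1 h3 (h2 t ht)
    have h6 := wt_anti (le_max_left r 4) ξ
    have h10 : (0 : ℝ) ≤ 2 ^ max r 4 := by positivity
    rw [mul_right_comm]
    exact mul_le_mul (mul_le_mul_of_nonneg_left (add_le_add (mul_le_mul_of_nonneg_left h5 hC)
      (mul_le_mul_of_nonneg_left h4 hC)) h10) h6 (wt_pos _ _).le
      (mul_nonneg h10 (add_nonneg (mul_nonneg hC (mul_nonneg hC hI))
        (mul_nonneg hC (mul_nonneg hC hI))))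

theorem exsm_deriv_cv {f' g' : ℝ → R3 → ℂ} (hf : UB T f) (hf' : UB T f') (hg : UB T g)
    (hg' : UB T g')
    (df : ∀ ξ, ∀ t ∈ Icc 0 T, HasDerivWithinAt (fun s => f s ξ) (f' t ξ) (Icc 0 T) t)
    (dg : ∀ ξ, ∀ t ∈ Icc 0 T, HasDerivWithinAt (fun s => g s ξ) (g' t ξ) (Icc 0 T) t)
    (ξ : R3) {t : ℝ} (ht : t ∈ Icc 0 T) :
    HasDerivWithinAt (fun s => Ens.cv (f s) (g s) ξ)
      (Ens.cv (f' t) (g t) ξ + Ens.cv (f t) (g' t) ξ) (Icc 0 T) t := by
  obtain ⟨C, hC, bf, bf'⟩ := exsm_bound2 hf hf' 4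
  obtain ⟨D, hD, bg, bg'⟩ := exsm_bound2 hg hg' 4
  have i1 := cv_int (exsm_meas hf' ht) (exsm_meas hg ht) (bf' t ht) (bg t ht) ξ
  have i2 := cv_int (exsm_meas hf ht) (exsm_meas hg' ht) (bf t ht) (bg' t ht) ξ
  have hw : ∀ η, C * D * (wt 4 η * wt 4 (ξ - η)) ≤ C * D * wt 4 η := fun η =>
    mul_le_mul_of_nonneg_left (mul_le_of_le_one_right (wt_pos _ _).le
      (wt_le_one (by norm_num) _)) (mul_nonneg hC hD)
  have key := Ens.hasDerivWithinAt_integral_convex (μ := (volume : Measure R3)) (convex_Icc 0 T)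
    (f := fun s η => f s η * g s (ξ - η))
    (f' := fun s η => f' s η * g s (ξ - η) + f s η * g' s (ξ - η))
    (bound := fun η => (C * D + C * D) * wt 4 η) ht
    (fun s hs => Ens.conv_aesm (exsm_cont hf hs) (exsm_cont hg hs) ξ)
    (cv_int (exsm_meas hf ht) (exsm_meas hg ht) (bf t ht) (bg t ht) ξ) (i1.add i2).1
    (Filter.Eventually.of_forall fun η s hs => by
      rw [add_mul]
      exact (norm_add_le _ _).trans (add_le_add
        ((Ens.conv_mul_le (bf' s hs η) (bg s hs _)).trans (hw η))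
        ((Ens.conv_mul_le (bf s hs η) (bg' s hs _)).trans (hw η))))
    ((wt_int (by norm_num)).const_mul _)
    (Filter.Eventually.of_forall fun η s hs => (df η s hs).mul (dg _ s hs))
  rw [integral_add i1 i2] at key
  exact key

theorem exsm_cv : ∀ {f g : ℝ → R3 → ℂ}, Sm T n f → Sm T n g →
    Sm T n fun t ξ => Ens.cv (f t) (g t) ξ := by
  induction n with
  | zero => exact exsm_ub_cv
  | succ n ih =>
    intro f g hf hg
    obtain ⟨h1, f', h2, h3⟩ := id hf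
    obtain ⟨g1, g', g2, g3⟩ := id hg
    exact ⟨exsm_ub_cv h1 g1, fun t ξ => Ens.cv (f' t) (g t) ξ + Ens.cv (f t) (g' t) ξ,
      fun ξ t ht => exsm_deriv_cv h1 h3.ub g1 g3.ub h2 g2 ξ ht,
      (ih h3 (exsm_pred hg)).add (ih (exsm_pred hf) g3)⟩


theorem Sm.cv (hf : Sm T n f) (hg : Sm T n g) : Sm T n fun t ξ => Ens.cv (f t) (g t) ξ := by
  exact exsm_cv hf hg
theorem exsm_hr (hν : 0 < ν) (ξ : R3) : hr ν ξ ≤ ν * (2 * π) ^ 2 * (1 + ‖ξ‖) ^ 2 := by
  have h1 : (1 : ℝ) ≤ 2 * π * (1 + ‖ξ‖) := by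
    have := Real.pi_gt_three
    have := norm_nonneg ξ
    nlinarith
  have h2 : (2 * π * ‖ξ‖) ^ (3 / 2 : ℝ) ≤ (2 * π * (1 + ‖ξ‖)) ^ (3 / 2 : ℝ) := by
    gcongr
    linarith
  have h3 := Real.rpow_le_rpow_of_exponent_le h1 (show (3 / 2 : ℝ) ≤ (2 : ℕ) by norm_num)
  rw [Real.rpow_natCast, mul_pow] at h3
  rw [hr, mul_assoc ν]
  exact mul_le_mul_of_nonneg_left (h2.trans h3) hν.le


theorem PreS.sm (h : PreS ν T U) (hν : 0 < ν) (h0 : Dat (U 0)) (n : ℕ) (i : Fin 3) :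
    Sm T n fun t ξ => U t i ξ := by
  have ub : ∀ i, UB T fun t ξ => U t i ξ := fun i =>
    ⟨(h.jc i).mono (prod_mono Subset.rfl (subset_univ _)), fun r => by
      obtain ⟨A, hA⟩ := h.bd_all hν h0 r
      exact ⟨A, fun t ht ξ => hA t ht i ξ⟩⟩
  induction n generalizing i with
  | zero => exact ub i
  | succ n ih =>
    refine ⟨ub i, fun t ξ => -((hr ν ξ : ℂ) * U t i ξ) - NL (U t) (U t) i ξ,
      fun ξ t ht => h.ode i ξ t ht, ?_⟩
    have h1 : Sm T n fun t ξ => ((-hr ν ξ : ℝ) : ℂ) * U t i ξ := by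
      refine (ih i).symb (C := ν * (2 * π) ^ 2) (k := 2)
        (Complex.continuous_ofReal.comp (hr_cont ν).neg).continuousOn fun ξ => ?_
      rw [Complex.norm_real, norm_neg, Real.norm_eq_abs, abs_of_nonneg (hr_nonneg hν.le ξ)]
      exact exsm_hr hν ξ
    have h2 : ∀ k j, Sm T n fun t ξ =>
        (-(2 * π * Complex.I) * ((Ens.lr ξ i k * ξ j : ℝ) : ℂ)) *
          Ens.cv (U t j) (U t k) ξ := fun k j => by
      refine ((ih j).cv (ih k)).symb (C := ‖(2 * π * Complex.I : ℂ)‖ * 2)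
        (k := 1) ?_ fun ξ => ?_
      · exact (continuous_const.mul
          (Complex.continuous_ofReal.comp (sym_cont i k j))).continuousOn
      · rw [norm_mul, norm_neg, Complex.norm_real, Real.norm_eq_abs, abs_mul, pow_one,
          mul_assoc _ (2 : ℝ)]
        have := Ens.abs_lr_le ξ i k
        have := Ens.sm_abs_coord_le ξ j
        gcongr
        linarith
    have h3 := h1.add (Sm.sum Finset.univ fun k _ => Sm.sum Finset.univ fun j _ => h2 k j)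
    convert h3 using 3 with t ξ
    simp only [NL, Finset.mul_sum, sub_eq_add_neg, ← Finset.sum_neg_distrib, Complex.ofReal_neg,
      neg_mul, mul_assoc]

theorem PreS.smP (h : PreS ν T U) (hν : 0 < ν) (h0 : Dat (U 0)) (n : ℕ) :
    Sm T n fun t ξ => PP (U t) ξ := by
  refine Sm.sum Finset.univ fun k _ => Sm.sum Finset.univ fun j _ =>
    ((h.sm hν h0 n j).cv (h.sm hν h0 n k)).symb
      (m := fun ξ => ((-(ξ k * ξ j / ‖ξ‖ ^ 2) : ℝ) : ℂ)) (C := 1) (k := 0) ?_ fun ξ => ?_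
  · refine Complex.continuous_ofReal.comp_continuousOn (ContinuousOn.neg ?_)
    exact ContinuousOn.div (by fun_prop) (by fun_prop) fun ξ hξ =>
      pow_ne_zero 2 (norm_ne_zero_iff.2 hξ)
  · rw [Complex.norm_real, norm_neg, Real.norm_eq_abs, abs_div, abs_mul, pow_zero, mul_one,
      abs_of_nonneg (sq_nonneg ‖ξ‖), sq]
    exact div_le_one_of_le₀ (mul_le_mul (Ens.sm_abs_coord_le ξ k) (Ens.sm_abs_coord_le ξ j)
      (abs_nonneg _) (norm_nonneg _)) (mul_self_nonneg _)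
theorem exsm_aesm (h : UB T f) (x : R3) {t : ℝ} (ht : t ∈ Icc 0 T) :
    AEStronglyMeasurable (fun ξ => Ens.smE x ξ * f t ξ) volume :=
  (Ens.sm_cont_E.comp (f := fun ξ : R3 => (x, ξ)) (by fun_prop)).aestronglyMeasurable.mul
    (exsm_meas h ht)

theorem exsm_int (h : UB T f) (x : R3) {t : ℝ} (ht : t ∈ Icc 0 T) :
    Integrable fun ξ => Ens.smE x ξ * f t ξ :=
  (exsm_integrable h ht).norm.mono' (exsm_aesm h x ht)
    (Filter.Eventually.of_forall fun ξ => by rw [norm_mul, Ens.sm_norm_E, one_mul])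

theorem exsm_coord {f : ℝ → R3 → ℂ} (h : Sm T n f) (j : Fin 3) :
    Sm T n fun t ξ => 2 * π * Complex.I * (ξ j : ℂ) * f t ξ := by
  refine h.symb (m := fun ξ => 2 * π * Complex.I * (ξ j : ℂ))
    (C := ‖(2 * π * Complex.I : ℂ)‖) (k := 1) (by fun_prop) fun ξ => ?_
  rw [norm_mul, Complex.norm_real, Real.norm_eq_abs, pow_one]
  have := Ens.sm_abs_coord_le ξ j
  gcongr
  linarith

theorem exsm_contDiffOn : ∀ {f : ℝ → R3 → ℂ}, Sm T n f →
    ContDiffOn ℝ n (fun z : R3 × ℝ => Ens.ev (f z.2) z.1) (univ ×ˢ Icc 0 T) := by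
  have hw : Integrable (wt 4) := wt_int (by norm_num)
  induction n with
  | zero =>
    intro f hf
    obtain ⟨C, hb⟩ := hf.2 4
    rw [Nat.cast_zero, contDiffOn_zero]
    simp only [Ens.sm_ev_eq]
    refine continuousOn_of_dominated (bound := fun ξ => C * wt 4 ξ)
      (fun z hz => exsm_aesm hf z.1 hz.2) (fun z hz => ?_) (hw.const_mul C) ?_
    · refine Filter.Eventually.of_forall fun ξ => ?_
      rw [norm_mul, Ens.sm_norm_E, one_mul]
      exact hb _ hz.2 ξ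
    · filter_upwards [Ens.sm_ae_ne] with ξ hξ
      refine (Ens.sm_cont_E.comp (f := fun z : R3 × ℝ => (z.1, ξ))
        (by fun_prop)).continuousOn.mul ?_
      exact hf.1.comp (f := fun z : R3 × ℝ => (z.2, ξ)) (by fun_prop) fun z hz => ⟨hz.2, hξ⟩
  | succ n ih =>
    intro f hf
    obtain ⟨h1, f', h2, h3⟩ := id hf
    have hj := fun j => exsm_coord (exsm_pred hf) j
    rw [Nat.cast_succ, contDiffOn_succ_iff_hasFDerivWithinAt (by simp)]
    intro z hz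
    rw [insert_eq_of_mem hz]
    refine ⟨_, self_mem_nhdsWithin, by simp,
      fun z => ∑ j, Ens.ev (fun ξ => 2 * π * Complex.I * (ξ j : ℂ) * f z.2 ξ) z.1 • Ens.smX j +
        Ens.ev (f' z.2) z.1 • Ens.smT, fun y hy => ?_,
      (ContDiffOn.sum fun j _ => (ih (hj j)).smul contDiffOn_const).add
        ((ih h3).smul contDiffOn_const)⟩
    choose N hN using fun j => (hj j).ub.2 4
    obtain ⟨M, hM⟩ := h3.ub.2 4
    have ij := fun j => (exsm_int (hj j).ub y.1 hy.2).smul_const (Ens.smX j)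
    have i2 := (exsm_int h3.ub y.1 hy.2).smul_const Ens.smT
    have := Ens.hasFDerivWithinAt_integral_convex (μ := (volume : Measure R3))
      (convex_univ.prod (convex_Icc 0 T))
      (f := fun (z : R3 × ℝ) ξ => Ens.smE z.1 ξ * f z.2 ξ)
      (f' := fun z ξ => ∑ j, (Ens.smE z.1 ξ * (2 * π * Complex.I * (ξ j : ℂ) * f z.2 ξ)) •
        Ens.smX j + (Ens.smE z.1 ξ * f' z.2 ξ) • Ens.smT)
      (bound := fun ξ => ∑ j, N j * wt 4 ξ * ‖Ens.smX j‖ + M * wt 4 ξ * ‖Ens.smT‖) hy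
      (fun z hz => exsm_aesm h1 z.1 hz.2) (exsm_int h1 y.1 hy.2)
      ((integrable_finsetSum _ fun j _ => ij j).add i2).aestronglyMeasurable
      (by
        refine Filter.Eventually.of_forall fun ξ z hz => ?_
        refine (norm_add_le _ _).trans (add_le_add ((norm_sum_le _ _).trans
          (Finset.sum_le_sum fun j _ => ?_)) ?_) <;>
          rw [norm_smul, norm_mul, Ens.sm_norm_E, one_mul] <;> gcongr
        exacts [hN j _ hz.2 ξ, hM _ hz.2 ξ])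
      ((integrable_finsetSum _ fun j _ => (hw.const_mul _).mul_const _).add
        ((hw.const_mul _).mul_const _))
      (by
        refine Filter.Eventually.of_forall fun ξ z hz => ?_
        have d1 := (Ens.sm_hasFDerivAt_E ξ z).hasFDerivWithinAt (s := univ ×ˢ Icc 0 T)
        have d2 := (h2 ξ z.2 hz.2).hasFDerivWithinAt.comp z
          (hasFDerivWithinAt_snd (s := (univ : Set R3) ×ˢ Icc 0 T)) fun z hz => hz.2
        refine (d1.mul d2).congr_fderiv (ContinuousLinearMap.ext fun v => ?_)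
        simp [Ens.smT, Fin.sum_univ_three]
        ring)
    rw [integral_add (integrable_finsetSum _ fun j _ => ij j) i2,
      integral_finsetSum _ fun j _ => ij j] at this
    simpa only [Ens.sm_ev_eq, integral_smul_const] using this


theorem Sm.contDiffOn (h : Sm T n f) :
    ContDiffOn ℝ n (fun z : R3 × ℝ => Ens.ev (f z.2) z.1) (univ ×ˢ Icc 0 T) := by
  exact exsm_contDiffOn h

theorem deriv_ev (hf : UB T f) (hg : UB T g)
    (hd : ∀ ξ, ∀ t ∈ Icc 0 T, HasDerivWithinAt (fun s => f s ξ) (g t ξ) (Icc 0 T) t)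
    (x : R3) {t : ℝ} (ht : t ∈ Icc 0 T) :
    HasDerivWithinAt (fun s => Ens.ev (f s) x) (Ens.ev (g t) x) (Icc 0 T) t := by
  obtain ⟨M, hM⟩ := hg.2 4
  simp only [Ens.sm_ev_eq]
  refine Ens.hasDerivWithinAt_integral_convex (convex_Icc 0 T)
    (f := fun s ξ => Ens.smE x ξ * f s ξ)
    (f' := fun s ξ => Ens.smE x ξ * g s ξ) (bound := fun ξ => M * wt 4 ξ) ht
    (fun s hs => exsm_aesm hf x hs) (exsm_int hf x ht) (exsm_aesm hg x ht) ?_
    ((wt_int (by norm_num)).const_mul M) ?_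
  · refine Filter.Eventually.of_forall fun ξ s hs => ?_
    rw [norm_mul, Ens.sm_norm_E, one_mul]
    exact hM s hs ξ
  · exact Filter.Eventually.of_forall fun ξ s hs => (hd ξ s hs).const_mul _

end Pool.Agent.Work.MP_6bf1e5_an.H.Ex
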