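import Pool.Agent.Work.MP_6bf1e5_an.H.JetFam
import Pool.Agent.Lib.KRad.FamA
import Pool.Agent.Lib.KRad.SupS

/-! The meaning of the checks of the radial tables. -/

open Finset Polynomial Pool.Agent.Lib Pool.Agent.Lib.KLA Pool.Agent.Lib.KBlk Pool.Agent.Lib.KRad

namespace Pool.Agent.Work.MP_6bf1e5_an.H.Jf

open Gl

noncomputable section

/-- The real coefficient of base function `i`. -/
def cI (M E z : ℕ) (f : ℕ → ℝ) (col : ℕ → ℤ) (i : ℕ) : ℝ :=
  if i ≤ M then col i * f i / 2 ^ dig E i / 2 ^ z else 0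

/-- A combination of Gegenbauer polynomials. -/
def gP (k k1 M E z m : ℕ) (col : ℕ → ℤ) : ℝ[X] :=
  ∑ i ∈ range m, C (cI M E z (fun i => i.factorial * 4 ^ (k + k1)) col i) * geg (4 * k + 6) i

/-- A combination of powers of `1 - t`. -/
def lP (k i I M E z m : ℕ) (col : ℕ → ℤ) : ℝ[X] :=
  ∑ s ∈ range m, C (cI M E z (fun s => 4 ^ dig I s * 256 ^ k * 4 ^ i) col s) * (1 - X) ^ dig I s

end

variable {P : Pr} {k k1 M E z m n s s' s0 a j j0 v u b y : ℕ} {D U : Rows} {c : ℕ → ℕ → ℤ}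
  {T w g x : RT} {F G H : ℕ → ℝ[X]} {α : ℝ} {col : ℕ → ℤ}

theorem gP_deg : (gP k k1 M E z m col).natDegree ≤ M := by
  refine natDegree_sum_le_of_forall_le _ _ fun i _ => ?_
  unfold cI
  split_ifs with h
  · exact (natDegree_C_mul_le _ _).trans
      ((natDegree_eq_of_degree_eq_some (geg_degree (by omega) i)).le.trans h)
  · simp

theorem gP_mul (r : ℕ) : gP k k1 M E z m (fun i => r * col i) = C (r : ℝ) * gP k k1 M E z m col := by
  simp only [gP, mul_sum, ← mul_assoc, ← C_mul, cI]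
  refine sum_congr rfl fun i _ => ?_
  split_ifs <;> push_cast <;> congr 2 <;> ring

theorem rep_shl {W J : ℕ} (h : KRad.Rep W J T F) (s : ℕ) :
    KRad.Rep W J (sml (Nat.shiftLeft 1 s) T) fun j => C (2 ^ s : ℝ) * F j :=
  (h.sml _).congr fun _ _ => by rw [shl_eq, one_mul, Nat.cast_pow, Nat.cast_ofNat]

theorem rep_gg (hW : 0 < P.Wx) (m : ℕ) : KRad.Rep P.Wx 1 (gg P k k1 m) fun _ => C (2 ^ P.bx : ℝ) *
    ((4 * (1 - X)) ^ k1 * (4 * X) ^ k) * (C (m.factorial : ℝ) * (geg (4 * k + 6) m).comp (2 * X - 1)) := by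
  have h0 := rep_shl (KRad.Rep.itr (fun h => h.stm hW) (rep_one.pw k) k1) P.bx
  rw [mul_one] at h0
  refine (rep_rec3 (g := fun m => C (2 ^ P.bx : ℝ) * ((4 * (1 - X)) ^ k1 * (4 * X) ^ k) *
    (C (m.factorial : ℝ) * (geg (4 * k + 6) m).comp (2 * X - 1))) hW (h0.congr fun _ _ => by simp [geg])
    ((h0.st0.sml _).congr fun _ _ => ?_) (fun m => ?_) m).1
  · simp only [geg, Nat.add_eq, Nat.mul_eq, mul_comp, X_comp, map_natCast,
      Nat.factorial_one, natCast_comp]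
    push_cast
    ring
  · have := congrArg (·.comp (2 * X - 1 : ℝ[X])) (sp_geg_rec (4 * k + 6) m)
    simp only [mul_comp, add_comp, sub_comp, natCast_comp, X_comp, ofNat_comp, Nat.cast_ofNat]
      at this
    simp only [Nat.add_eq, Nat.mul_eq, map_natCast, Nat.factorial_succ]
    push_cast at this ⊢
    linear_combination (C (2 ^ P.bx : ℝ) * ((4 * (1 - X)) ^ k1 * (4 * X) ^ k) *
      ((m + 1) * m.factorial)) * this

theorem fs_pow {p q r : ℕ} (h : z + p = q + r) : (2 : ℝ) ^ p / 2 ^ q = 2 ^ r / 2 ^ z := by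
  rw [div_eq_div_iff (by positivity) (by positivity), ← pow_add, ← pow_add, add_comm p, h, add_comm]

/-- The table in the variable `s`. -/
theorem rep_sT {G : Gc} (hW : 0 < P.W) (hx : 0 < P.Wx) (hD : Mat P.W P.J G.K m D c) {r : ℕ}
    (hz : z + P.bx = G.s1 + r) : KRad.Rep P.W P.J (cmF P n G (gg P k G.k1) D) fun j => C (2 ^ r : ℝ) *
      (X ^ k * (1 - X) ^ G.k1 * (gP k G.k1 G.M G.E z m (c · j)).comp (2 * X - 1)) :=
  (rep_cmF hW (rep_gg hx) hD).congr fun j _ => Polynomial.funext fun t => by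
    simp only [gP, Polynomial.sum_comp, mul_sum, eval_finsetSum, mul_comp, C_comp, eval_mul, eval_C,
      eval_pow, eval_ofNat, eval_X, cG, cI]
    refine sum_congr rfl fun i _ => ?_
    split_ifs
    · linear_combination (-(c i j * i.factorial * 4 ^ (k + G.k1) / 2 ^ dig G.E i * t ^ k *
        eval t (1 - X) ^ G.k1 * eval t ((geg (4 * k + 6) i).comp (2 * X - 1)))) * fs_pow hz
    · simp

theorem rep_cf {G : Gc} (hW : 0 < P.W) (hx : 0 < P.Wx) (hD : Mat P.W P.J G.K m D c)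
    (hU : Sub P.V (16 * P.c) (Nat.shiftLeft 4 P.su) P.nU P.NU P.eU P.LU U (2 ^ P.su) (1 - X ^ 4))
    (hz : z + (P.bx + P.su + 1) = G.s1 + P.s2 + (s + a)) : KRad.Rep P.W P.J (cf P U k G D) fun j =>
      C (2 ^ s : ℝ) * (C (2 ^ a : ℝ) * cS k G.k1 (gP k G.k1 G.M G.E z m (c · j))) := by
  rw [cf, cnd_eq, hD.1]
  split_ifs with h
  · rw [Nat.eq_of_beq_eq_true h]
    exact rep_zr.congr fun _ _ => by simp [gP, cS]
  · refine ((((rep_sT (z := G.s1) (r := P.bx) hW hx hD rfl).sbs hW hU).rnT _).tgt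
      _).congr fun j _ => ?_
    have e : gP k G.k1 G.M G.E z m (c · j) =
        C (2 ^ G.s1 / 2 ^ z : ℝ) * gP k G.k1 G.M G.E G.s1 m (c · j) := by
      simp only [gP, mul_sum, ← mul_assoc, ← C_mul, cI]
      refine sum_congr rfl fun i _ => ?_
      split_ifs <;> congr 2 <;> field_simp
      simp
    rw [e, cS_C, mul_comp, C_comp]
    simp only [← mul_assoc, ← C_mul]
    congr 2
    have := fs_pow hz
    rw [div_eq_div_iff (by positivity) (by positivity)] at this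
    field_simp
    linear_combination -this

theorem rep_lP {G : Gc} {I : ℕ} (hW : 0 < P.W) (hx : 0 < P.Wx) (hD : Mat P.W P.J G.K m D c)
    (hz : z + P.bx = G.s1 + (s + a)) : KRad.Rep P.W P.J (cmF P n G (ld P k G.k1 I) D) fun j =>
      C (2 ^ s : ℝ) * (C (2 ^ a : ℝ) *
        (qX ^ k * (X ^ G.k1 * lP k G.k1 I G.M G.E z m (c · j)))) :=
  (rep_cmF hW (rep_ld hx) hD).congr fun j _ => Polynomial.funext fun t => by
    simp only [lP, qX, mul_sum, eval_finsetSum, eval_mul, eval_C, eval_pow, eval_ofNat, eval_X,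
      cG, cI, mul_pow]
    refine sum_congr rfl fun i _ => ?_
    split_ifs
    · linear_combination (-(c i j * (4 ^ dig I i * 256 ^ k * 4 ^ G.k1) / 2 ^ dig G.E i *
        eval t (1 - X ^ 4) ^ k * t ^ G.k1 * eval t (1 - X) ^ dig I i)) * fs_pow hz
    · simp

theorem rep_lx {W J : ℕ} {r : ℝ} (h : KRad.Rep W J T fun j => C r * F j) (hW : 0 < W) (a b : ℕ) :
    KRad.Rep W J (lop W J a b T) fun j => C (1024 * r) * LX (-a) b (F j) :=
  (h.lop hW a b).congr fun j _ => by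
    rw [C_mul, mul_assoc, ← LX_C, map_ofNat]
    rfl

theorem rep_as (h : KRad.Rep P.W P.J T fun j => C (2 ^ s : ℝ) * (C α * F j)) :
    KRad.Rep P.W P.J T fun j => C (2 ^ s * α) * F j := h.congr fun _ _ => by rw [C_mul, mul_assoc]

theorem rep_ev {W J : ℕ} (h : KRad.Rep W J T F) (e : ∀ j t, (G j).eval t = (F j).eval t) : KRad.Rep W J T G :=
  h.congr fun j _ => Polynomial.funext (e j)

theorem rep_nx {W J : ℕ} {r : ℝ} (h : KRad.Rep W J T fun j => C r * F j) (hW : 0 < W) :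
    KRad.Rep W J (neg W J T) fun j => C (-r) * F j := (h.neg hW).congr fun _ _ => by rw [C_neg, neg_mul]

theorem mdT_cl (hD : St P j0 D c) (hw : KRad.Rep P.W P.J w fun j => C (2 ^ s : ℝ) * (C α * F j))
    (h : mdT P j0 v k s D w = true) (hj : j < P.J) : Cl P c (j0 + j) α v (rT k (F j)) := by
  refine near3_sound (S := fun j => rT k (F j)) hD (rep_ev (((hw.pw 3).sml _).neg hD.1) fun _ _ => ?_)
    (rep_ev (((rep_lx (rep_as hw) hD.1 2 8).pw 3).neg hD.1) fun _ _ => ?_)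
    (rep_ev (hw.mq hD.1).st2 fun _ _ => ?_) h hj <;>
  simp [rT, r3, lk_eq, lK, qX, pow_add] <;> ring

theorem mdP_cl (hD : St P j0 D c) (hw : KRad.Rep P.W P.J w fun j => C (2 ^ s : ℝ) * (C α * F j))
    (h : mdP P j0 v k s D w = true) (hj : j < P.J) : Cl P c (j0 + j) α v (rP k (F j)) := by
  have hb := rep_nx (rep_lx (rep_as hw) hD.1 0 6) hD.1
  refine near3_sound (S := fun j => rP k (F j)) hD (rep_ev ((hw.st2.sml _).neg hD.1) fun _ _ => ?_)
    (rep_ev hb.st2 fun _ _ => ?_)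
    (rep_ev (((rep_lx hb hD.1 2 6).add (hw.sml _)).pw 3) fun _ _ => ?_) h hj <;>
  simp [rP, r3, lk_eq, lK, pow_add, Nat.shiftLeft_eq] <;> ring

theorem thT_cl (hD : St P j0 D c) (hw : KRad.Rep P.W P.J w fun j => C (2 ^ s : ℝ) * (C α * F j))
    (h : thT P j0 v k u s D w = true) (hj : j < P.J) : Cl P c (j0 + j) α v (rθT k u (F j)) := by
  refine near3_sound (S := fun j => rθT k u (F j)) hD
    (rep_ev (((hw.pw u).sml _).neg hD.1) fun _ _ => ?_)
    (rep_ev ((((rep_lx (rep_as hw) hD.1 5 11).pw u).sml 3).neg hD.1) fun _ _ => ?_)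
    (rep_ev (((rep_lx (rep_as hw) hD.1 4 11).mq hD.1).st2.neg hD.1) fun _ _ => ?_) h hj <;>
  simp [rθT, r3, lk_eq, lK, qX, pow_add, pow_mul, mul_pow] <;> ring

theorem thM_cl (hD : St P j0 D c) (hw : KRad.Rep P.W P.J w fun j => C (2 ^ s : ℝ) * (C α * F j))
    (h : thM P j0 v k u s D w = true) (hj : j < P.J) : Cl P c (j0 + j) α v (rθM k u (F j)) := by
  have hb := rep_nx (rep_lx (rep_as hw) hD.1 5 11) hD.1
  refine near3_sound (S := fun j => rθM k u (F j)) hD
    (rep_ev (((rep_lx (rep_as hw) hD.1 10 15).pw 7).sml _) fun _ _ => ?_)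
    (rep_ev (((rep_lx hb hD.1 10 15).pw 7).neg hD.1) fun _ _ => ?_)
    (rep_ev ((((rep_lx hb hD.1 11 15).add (hw.sml _)).pw u).sml 3) fun _ _ => ?_) h hj <;>
  simp [rθM, r3, lk_eq, lK, pow_add, pow_mul, mul_pow, Nat.shiftLeft_eq] <;> ring

theorem rep_nz0 {A B : RT} {r : ℝ} (hW : 0 < P.W) (hA : KRad.Rep P.W P.J A fun j => C r * F j)
    (hB : KRad.Rep P.W P.J B fun j => C (r * v) * G j) (hg : KRad.Rep P.W P.J g fun j => C (r * v) * H j) :
    KRad.Rep P.W P.J (nz0 P v A B g) fun j => C (2 ^ 18 * (r * v)) * z0 (F j) (G j) (H j) :=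
  rep_ev (((hA.sml _).add (((rep_lx hB hW 4 8).sml 128).neg hW)).add ((hg.mq hW).pw 5))
    fun _ _ => by
      simp [z0, qX, Nat.shiftLeft_eq]
      ring

theorem rep_nz1 {B : RT} {r : ℝ} (hW : 0 < P.W) (hw : KRad.Rep P.W P.J w fun j => C r * F j)
    (hB : KRad.Rep P.W P.J B fun j => C r * G j) (hg : KRad.Rep P.W P.J g fun j => C r * H j) :
    KRad.Rep P.W P.J (nz1 P k w B g) fun j => C (2 ^ 22 * r) * z1 k (F j) (G j) (H j) := by
  have t : KRad.Rep P.W P.J _ fun j => C (2048 * r) *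
      (G j - C (1 / 2) * LX (-4) 10 (F j) - X ^ 3 * H j) :=
    rep_ev ((hB.sml 2048).add (((rep_lx hw hW 4 10).add ((hg.pw 3).sml 32)).neg hW)) fun _ _ => by
      simp
      ring
  refine rep_ev (((hw.sml _).add ((hg.pw 3).sml _)).add (rep_lx t hW 6 10)) fun _ _ => ?_
  simp only [z1, eval_add, eval_mul, eval_C, eval_pow, eval_X, eval_ofNat, shl_eq, Nat.cast_mul,
    lk_eq, lK, Nat.add_eq, Nat.mul_eq, Nat.cast_add, Nat.cast_ofNat, Nat.cast_pow]
  ring

theorem rep_fa (hw : KRad.Rep P.W P.J w fun j => C (2 ^ s : ℝ) * (C α * F j)) :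
    KRad.Rep P.W P.J (fa k w) fun j => C (2 ^ (s + 25) * α) * fA k (F j) :=
  rep_ev ((hw.pw 7).sml _) fun _ _ => by
    simp [fA, lk_eq, lK, Nat.shiftLeft_eq]
    ring

theorem rep_fb (hW : 0 < P.W) (hw : KRad.Rep P.W P.J w fun j => C (2 ^ s : ℝ) * (C α * F j)) :
    KRad.Rep P.W P.J (fb P v w) fun j => C (2 ^ (s + 25) * α * v) * fB (F j) :=
  rep_ev (((rep_lx (rep_as hw) hW 5 11).pw 7).sml _) fun _ _ => by
    simp [fB]
    ring

theorem rep_sc {W J : ℕ} {r r' : ℝ} (h : KRad.Rep W J T fun j => C r * F j) (e : 2 ^ s * r' = r) :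
    KRad.Rep W J T fun j => C (2 ^ s : ℝ) * (C r' * F j) :=
  h.congr fun _ _ => by rw [← mul_assoc, ← C_mul, e]

theorem ts0_cl (hD : St P j0 D c) (hα : α ≠ 0) (hv : 0 < v)
    (hw : KRad.Rep P.W P.J w fun j => C (2 ^ s : ℝ) * (C α * F j))
    (hg : KRad.Rep P.W P.J g fun j => C (2 ^ (s + 25) * α * v) * G j)
    (h : ts0 P j0 v k (s + 25) D w g = true) (hj : j < P.J) : Cl P c (j0 + j) α v
      (r3 (C (1 / α) * tq P c (j0 + j) 0) (C (1 / (α * v)) * tq P c (j0 + j) 1)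
        (z0 (C (1 / α) * tq P c (j0 + j) 0 + fA k (F j))
          (C (1 / (α * v)) * tq P c (j0 + j) 1 + fB (F j)) (G j))) := by
  have hv' : (v : ℝ) ≠ 0 := by positivity
  simp only [ts0, bnd_iff, Nat.add_eq] at h
  refine ⟨hD.tbl h.2 hj, fun i hi φ => ?_⟩
  interval_cases i
  · simp [r3, hα]
  · simp [r3, ← mul_assoc, hα, hv']
  · have t := rep_nz0 (r := 2 ^ (s + 25) * α) hD.1
      (F := fun j => C (1 / α) * tq P c (j0 + j) 0 + fA k (F j))
      (G := fun j => C (1 / (α * v)) * tq P c (j0 + j) 1 + fB (F j))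
      (rep_ev ((rep_shl (hD.cp (s := 0) (by norm_num)) (s + 25)).add (rep_fa hw)) fun _ _ => by
        simp only [eval_add, eval_mul, eval_C]
        field_simp)
      (rep_ev ((rep_shl (hD.cp (s := 1) (by norm_num)) (s + 25)).add (rep_fb hD.1 hw))
        fun _ _ => by
          simp only [eval_add, eval_mul, eval_C]
          field_simp) hg
    simpa [r3] using near_sound (rep_sc (s := s + 25 + 18) (r' := α * v) t (by ring))
      (hD.cp (by norm_num)) hD.1 h.1 hj φ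

theorem ts1_cl (hD : St P j0 D c) (hα : α ≠ 0) (hv : 0 < v) (hs : s0 + s = s' + 2)
    (hx : KRad.Rep P.W P.J x fun j => C (2 ^ s0 * α * v) * H j)
    (hw : KRad.Rep P.W P.J w fun j => C (2 ^ s' : ℝ) * (C α * F j))
    (hg : KRad.Rep P.W P.J g fun j => C (2 ^ (s0 + s) * α * v) * G j)
    (h : ts1 P j0 v k s s0 D x w g = true) (hj : j < P.J) : Cl P c (j0 + j) α v
      (r3 (z1 k (H j - 3 * X * F j) (C (1 / (α * v)) * tq P c (j0 + j) 1) (G j))
        (C (1 / (α * v)) * tq P c (j0 + j) 1) (qX * H j)) := by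
  have hv0 : (v : ℝ) ≠ 0 := by positivity
  simp only [ts1, bnd_iff, Nat.add_eq] at h
  refine ⟨hD.tbl h.1.2 hj, fun i hi φ => ?_⟩
  interval_cases i
  · have t := rep_nz1 (k := k) (r := 2 ^ (s0 + s) * α * v) hD.1 (F := fun j => H j - 3 * X * F j)
      (G := fun j => C (1 / (α * v)) * tq P c (j0 + j) 1)
      (rep_ev ((rep_shl hx s).add ((hw.st2.sml (Nat.mul 3 v)).neg hD.1)) fun i t => by
        simp only [eval_add, eval_mul, eval_C, eval_sub, eval_neg, eval_ofNat, eval_X, Nat.mul_eq,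
          Nat.cast_mul, Nat.cast_ofNat]
        linear_combination (-(3 * α * v * t * eval t (F i))) * congrArg ((2 : ℝ) ^ ·) hs)
      (rep_ev (rep_shl (hD.cp (s := 1) (by norm_num)) (s0 + s)) fun _ _ => by
        simp only [eval_mul, eval_C]
        field_simp) hg
    have t2 := near_sound (rep_sc (s := s0 + s + 22) (r' := α * v) t (by ring))
      (hD.cp (by norm_num)) hD.1 h.2 hj φ
    have e : ∀ A B : ℝ, |α * v * A - v * B| = v * |α * A - B| := fun A B => by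
      rw [show α * v * A - v * B = v * (α * A - B) by ring, abs_mul, Nat.abs_cast]
    rw [eval_mul, eval_C, e] at t2
    simp only [r3, if_true, mul_one]
    exact le_of_mul_le_mul_left t2 (by positivity)
  · simp [r3, ← mul_assoc, hα, hv0]
  · simpa [r3] using near_sound (A := fun j => C (α * v) * (qX * H j))
      (rep_ev (hx.mq hD.1) fun _ _ => by
        simp [qX, pow_add]
        ring) (hD.cp (by norm_num)) hD.1 h.1.1 hj φ

theorem sm0_le (hW : 0 < P.W) (hb : 0 < b)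
    (hw : KRad.Rep P.W P.J w fun j => C (2 ^ s : ℝ) * (C α * F j))
    (hg : KRad.Rep P.W P.J g fun j => C (2 ^ (s + 25) * α * v) * G j)
    (h : sm0 P v k s b j0 y w g = true) (hj : j < P.J) (φ : ℝ) :
    |α * v * (z0 (fA k (F j)) (fB (F j)) (G j)).eval ((1 + Real.cos φ) / 2)| ≤
      bits y (b * (j0 + j)) b := by
  simpa using tiny_sound (rep_sc (s := s + 43) (r' := α * v)
    (rep_nz0 hW (rep_fa hw) (rep_fb hW hw) hg) (by ring)) hb h hj φ

theorem sm1_le (hW : 0 < P.W) (hb : 0 < b)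
    (hw : KRad.Rep P.W P.J w fun j => C (2 ^ s : ℝ) * (C α * F j))
    (hg : KRad.Rep P.W P.J g fun j => C (2 ^ (s + 2) * α * v) * G j)
    (h : sm1 P v k s b j0 y w g = true) (hj : j < P.J) (φ : ℝ) :
    |α * v * (z1 k (3 * X * F j) 0 (G j)).eval ((1 + Real.cos φ) / 2)| ≤
      bits y (b * (j0 + j)) b := by
  simpa using tiny_sound (rep_sc (s := s + 24) (r' := α * v)
    (rep_nz1 (k := k) hW (F := fun j => 3 * X * F j) (G := fun _ => 0)
      (rep_ev (hw.st2.sml (Nat.mul 3 v)) fun _ _ => by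
        simp only [eval_mul, eval_C, eval_ofNat, eval_X, Nat.mul_eq, Nat.cast_mul, Nat.cast_ofNat]
        ring) (rep_zr.congr fun _ _ => mul_zero _) hg) (by ring)) hb h hj φ

/-- A block from its members. -/
theorem blk_of {d J cl : ℕ} {N lf : ℕ → ℕ} {e : Bool → ℕ} {x : ℕ × ℕ × ℕ → Bool → Vc}
    (hD : Mat P.W0 (8 * J) P.K0 d D c)
    (h : ∀ j < J, ∃ S, Cl P c j α (N b) S ∧ Is e cl (lf b) S (x (b, cl, j))) :
    Blk1 P.W0 P.K0 d P.n P.L N lf e α P.del x b cl J D := by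
  choose! S h1 h2 using h
  refine ⟨fun a j => ug c a j, S, ⟨ug c, hD.congr fun k _ i _ => (grp_ug c k i).symm,
    fun j hj => (h1 j hj).1, fun _ _ _ _ => by simp⟩, fun j hj s hs φ => ?_, h2⟩
  rw [← tsP_eval]
  exact (h1 j hj).2 s hs φ

end Pool.Agent.Work.MP_6bf1e5_an.H.Jf
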