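import Pool.Agent.Work.MP_6bf1e5_an.H.FinBd

/-! The angular inequality for a general radial weight. -/

open scoped ContDiff ENNReal FourierTransform Real
open Set MeasureTheory Filter

namespace Pool.Agent.Work.MP_6bf1e5_an.H.Fn

open Dyn

variable {u : Vc} {Φ : Sc}

theorem bd_nsq : Bd 2 fun y : R3 => ‖y‖ ^ 2 := by
  simp only [md_norm_sq]
  simp only [sq]
  exact Bd.sum _ fun j _ => bd_mul (bd_coord j) (bd_coord j) (by norm_num)

theorem Jd_chi (R : ℝ) (k : Fin 3) (y : R3) : Jd k (chi R) y = 0 :=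
  LocMult_rad (H := fun t => Real.smoothTransition (2 - t / R ^ 2))
    (((Real.smoothTransition.contDiff (n := 1)).differentiable one_ne_zero _).comp _
      (f := fun t : ℝ => 2 - t / R ^ 2) (by fun_prop)) k

theorem radW_chi (hs : ContDiff ℝ ∞ Φ) (h0 : ∀ y, 0 ≤ Φ y) (hJ : ∀ k y, Jd k Φ y = 0) {R : ℝ}
    (hR : 0 < R) : RadW fun y => chi R y * Φ y := by
  refine ⟨(chi_smooth R).mul hs, ?_,
    fun y => mul_nonneg (Real.smoothTransition.nonneg _) (h0 y), fun k y => ?_⟩
  · refine HasCompactSupport.intro (isCompact_closedBall 0 (2 * R)) fun y hy => ?_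
    rw [mem_closedBall_zero_iff, not_le] at hy
    have h : 2 ≤ ‖y‖ ^ 2 / R ^ 2 := by
      rw [le_div_iff₀ (by positivity)]
      nlinarith
    rw [chi, Real.smoothTransition.zero_of_nonpos (by linarith), zero_mul]
  · rw [Jd_mul (chi_smooth R) hs]
    simp only [Jd_chi, hJ, zero_mul, mul_zero, add_zero]

theorem int_gw' {φ : Sc} (h : Bd 0 φ) (hw : ∀ i, Hinf (u i)) :
    Integrable fun y => φ y * g1 u y := by
  simp only [g1, Finset.mul_sum]
  exact integrable_finsetSum _ fun i _ => integrable_finsetSum _ fun j _ => int_wsq h ((hw i).pd j)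

theorem ang_gen (h : ∀ i, Hinf (u i)) (he : Eqv u) (hs : ContDiff ℝ ∞ Φ) (h0 : ∀ y, 0 ≤ Φ y)
    (hJ : ∀ k y, Jd k Φ y = 0) (hb : Bd (-2) Φ) :
    2 * nw Φ u ≤ gw (fun y => ‖y‖ ^ 2 * Φ y) u := by
  have hu := fun i => (h i).1
  have d0 : ∀ y, 0 ≤ dot u u y := fun y => Finset.sum_nonneg fun i _ => mul_self_nonneg _
  have k0 : ∀ R y, 0 ≤ chi R y ∧ chi R y ≤ 1 := fun R y =>
    ⟨Real.smoothTransition.nonneg _, Real.smoothTransition.le_one _⟩
  have key : ∀ R : ℝ, 0 < R →
      2 * ∫ y, chi R y * Φ y * dot u u y ≤ gw (fun y => ‖y‖ ^ 2 * Φ y) u := fun R hR => by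
    have w := radW_chi hs h0 hJ hR
    have c := fun i => (hu i).continuous
    have cJ : ∀ i, Continuous fun y => ∑ k, Jd k (u i) y ^ 2 := fun i =>
      continuous_finsetSum _ fun k _ => (Jd_smooth (hu i) k).continuous.pow 2
    have a1 := ang_one w hu he
    have a2 := ang_two w (hu 2) fun y hy => eqv_plane he hy
    have e1 : ∫ y, chi R y * Φ y * dot u u y =
        (∫ y, chi R y * Φ y * (u 0 y ^ 2 + u 1 y ^ 2)) + ∫ y, chi R y * Φ y * u 2 y ^ 2 := by
      rw [← integral_add (w.int (((c 0).fun_pow 2).fun_add ((c 1).fun_pow 2)))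
        (w.int ((c 2).fun_pow 2))]
      refine integral_congr_ae (ae_of_all _ fun y => ?_)
      simp only [dot, Fin.sum_univ_three]
      ring
    have i1 := w.int ((cJ 0).fun_add (cJ 1))
    have i2 := w.int (cJ 2)
    have e2 := integral_mono (i1.add i2)
      (int_gw' (bd_mul bd_nsq hb (k := 0) (by norm_num)) h) fun y => by
        have h1 := add_le_add (add_le_add (Jd_sq_le (u 0) y) (Jd_sq_le (u 1) y)) (Jd_sq_le (u 2) y)
        have h2 : 0 ≤ g1 u y := Finset.sum_nonneg fun i _ => Finset.sum_nonneg fun j _ => sq_nonneg _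
        have h3 := mul_le_of_le_one_left (mul_nonneg (sq_nonneg ‖y‖) (h0 y)) (k0 R y).2
        have h4 := mul_le_mul_of_nonneg_right h3 h2
        have h5 := mul_le_mul_of_nonneg_left h1 (w.nn y)
        rw [g1, Fin.sum_univ_three] at h4
        simp only [Pi.add_apply, g1]
        rw [Fin.sum_univ_three fun i => ∑ j, pd j (u i) y ^ 2]
        linarith
    rw [integral_add' i1 i2] at e2
    have e3 : gw (fun y => ‖y‖ ^ 2 * Φ y) u = ∫ y, ‖y‖ ^ 2 * Φ y * g1 u y := rfl
    linarith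
  have lim := tendsto_integral_of_dominated_convergence (μ := volume)
    (F := fun (n : ℕ) y => chi (n + 1) y * Φ y * dot u u y)
    (f := fun y => Φ y * dot u u y) (fun y => Φ y * dot u u y)
    (fun n => (((chi_smooth _).continuous.mul hs.continuous).mul (continuous_finsetSum _ fun i _ =>
      (hu i).continuous.mul (hu i).continuous)).aestronglyMeasurable)
    (int_nw (hb.mono (by norm_num)) h)
    (fun n => ae_of_all _ fun y => by
      have h1 := mul_nonneg (h0 y) (d0 y)
      rw [mul_assoc, Real.norm_of_nonneg (mul_nonneg (k0 _ y).1 h1)]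
      exact mul_le_of_le_one_left h1 (k0 _ y).2)
    (ae_of_all _ fun y => tendsto_const_nhds.congr' (by
      filter_upwards [tendsto_natCast_atTop_atTop.eventually_ge_atTop ‖y‖] with n hn
      rw [chi_one (by linarith), one_mul]))
  exact le_of_tendsto' (lim.const_mul 2) fun n => key _ (by positivity)

theorem ang_rad (h : ∀ i, Hinf (u i)) (he : Eqv u) {φ : ℝ → ℝ} (hs : RadS φ)
    (hb : Bd (-2) (rad φ)) (h0 : ∀ z, 0 ≤ z → 0 ≤ φ z) :
    2 * nw (rad φ) u ≤ gw (fun y => ‖y‖ ^ 2 * rad φ y) u :=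
  ang_gen h he hs.smooth (fun y => h0 _ (sq_nonneg _)) (fun k y => by
    simp only [Jd, hs.pd_rad]
    ring) hb

end Pool.Agent.Work.MP_6bf1e5_an.H.Fn
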