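import Pool.Agent.Work.MP_6bf1e5_an.H.FinExp

/-! The Schur step. -/

open scoped ContDiff ENNReal FourierTransform Real
open Set MeasureTheory

namespace Pool.Agent.Work.MP_6bf1e5_an.H.Fn

open Dyn

variable {L : Lyap} {T : Tab L} {ι : Type} [Fintype ι] {u : ι → Vc} {Y : ι → ℕ → Vc}
  {W G P mv mu ov ou : Sc} {vth sp : ℝ} {n : ℕ} {r a b ϑ ϑ' : Vc}

/-- The Cauchy-Schwarz inequality modulo a null pair. -/
theorem null_cs (wv : Bd (-2) mv ∧ Bd 2 ov ∧ ∀ᵐ y, 0 < ov y ∧ 1 ≤ mv y * ov y)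
    (wu : Bd (-4) mu ∧ Bd 4 ou ∧ ∀ᵐ y, 0 < ou y ∧ 1 ≤ mu y * ou y) (hr : Adm r)
    (hp : ∀ i, Perp (9 / 4) (n + 1) (r i)) (ha : ∀ i, Bd (-3) (a i)) (hb : ∀ i, Bd (-4) (b i))
    (hN : Null n ϑ ϑ') : (ip (curl r) a + ip r b) ^ 2 ≤
      (nw mv (curl r) + nw mu r) * (nw ov (a - ϑ) + nw ou (b - ϑ')) := by
  have hq := hinf_curl hr.hinf
  have h := pair_cs wv wu hq hr.hinf (bd_vsub ha hN.bv) (bd_vsub hb hN.bu)
  have z := hN.zero r hr hp
  rw [ip_sub_right (int_dot hq ha (by norm_num)) (int_dot hq hN.bv (by norm_num)),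
    ip_sub_right (int_dot hr.hinf hb (by norm_num)) (int_dot hr.hinf hN.bu (by norm_num))] at h
  refine le_of_eq_of_le ?_ h
  congr 1
  linarith

theorem w_nonneg (h : ∀ᵐ y, 0 < ov y ∧ 1 ≤ mv y * ov y) :
    (∀ᵐ y, 0 ≤ mv y) ∧ ∀ᵐ y, 0 ≤ ov y :=
  ⟨h.mono fun _ hy => nonneg_of_mul_nonneg_left (zero_le_one.trans hy.2) hy.1,
    h.mono fun _ hy => hy.1.le⟩

/-- The algebra of the Schur step. -/
theorem schur {N M X G H : ℝ} (hN : 0 ≤ N) (hG : N ≤ G) (hH : -(vth * N) ≤ H) (hsp : 0 < sp)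
    (h : sp + vth ≤ 1) (hM : 0 ≤ M) (hX : X ^ 2 ≤ N * (4 * sp * M)) : 0 ≤ M + X + (G + H) := by
  have h7 := mul_le_mul_of_nonneg_left h hN
  have h8 := (abs_le_of_sq_le_sq' (show X ^ 2 ≤ (M + sp * N) ^ 2 by
    nlinarith [sq_nonneg (M - sp * N)]) (by positivity)).1
  linarith

theorem bd_low {Z : ℕ → Sc} (h : ∀ k, HF k (Z k)) (n : ℕ) :
    Bd 0 fun y => Op (3 / 4) y * ∑ k ∈ Finset.range n, Z k y :=
  bd_mul (bd_op (3 / 4) (k := 0) (by norm_num)) (Bd.sum _ fun k _ => (h k).1.sym.bd) (by norm_num)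

theorem core (hL : L.Good) (h : Fin2 T u Y W G P mv mu ov ou vth sp) : T.Core := by
  intro w hw
  obtain ⟨c, hc⟩ := h.gal.split w hw
  obtain ⟨hp, ecurl⟩ := Adm.lc c h.gal.adm
  set p := lc c u with hpdef
  have hr : Adm (w - p) := hw.sub hp
  have hperp : ∀ i, Perp (9 / 4) (T.n + 1) ((w - p) i) := hc
  set r := w - p with hrdef
  have ew : w = p + r := by rw [hrdef, add_sub_cancel]
  have hq := hinf_curl hr.hinf
  have hqp := perp_curl hr.hinf hperp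
  have bV : ∀ i j, Bd 0 (T.V i j) := fun i j => (h.bV i j).mono (by norm_num)
  have bB : ∀ i j, Bd 0 (T.B i j) := fun i j => (h.bB i j).mono (by norm_num)
  have bθ : ∀ a i, Bd (-3) (L.θ a i) := fun a i => (good_sym hL a i).bd
  refine ⟨fun k => lc c fun j => Y j k, fun k i => HF.lc c fun j => h.gal.hf j k i, fun i => ?_, ?_⟩
  · have b1 : ∀ j, Bd 0 fun y =>
        curl (u j) i y - Op (3 / 4) y * ∑ k ∈ Finset.range T.n, Y j k i y := fun j =>
      (hinf_curl (h.gal.adm j).hinf i).bd.sub (bd_low (fun k => h.gal.hf j k i) _)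
    have h1 := perp_add (by norm_num) (Bd.sum _ fun j _ => (b1 j).cmul (c j)) (hq i).bd
      (perp_lc (by norm_num) c b1 fun j => h.gal.perp j i) (hqp i)
    convert h1 using 2 with y
    rw [ew, curl_add hp.hinf hr.hinf, ecurl]
    simp only [lc, Pi.add_apply, mul_sub, Finset.sum_sub_distrib, Finset.mul_sum]
    rw [Finset.sum_comm]
    simp only [mul_left_comm]
    ring
  · obtain ⟨ϑ, ϑ', hN, hM⟩ := h.psd c
    obtain ⟨hsp, hs⟩ := h.hsp
    have hN0 : 0 ≤ nw mv (curl r) + nw mu r :=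
      add_nonneg (nw_nonneg (w_nonneg h.wv.2.2).1 _) (nw_nonneg (w_nonneg h.wu.2.2).1 _)
    have bp : ∀ i, Bd (-3) (curl p i) := fun i => by
      rw [ecurl]
      exact bd_lc c fun j => (bd_curl (h.gal.sym j) i).mono (by norm_num)
    have bhV : ∀ i, Bd (-3) (T.hV p i) := fun i =>
      (((bd_mv3 h.bV bp (by norm_num) i).cmul 2).add
        (bd_mv3 h.bB (fun i => (hp.hinf i).bd) (by norm_num) i)).add
        (Bd.sum _ fun a _ => ((h.bP a i).cmul _).add ((bθ a i).cmul _))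
    have bhU : ∀ i, Bd (-4) (T.hU p i) := fun i =>
      (bd_vm3 h.bB bp (by norm_num) i).add (Bd.sum _ fun a _ => (h.bQ a i).cmul _)
    have hM0 : 0 ≤ T.M0 p fun k => lc c fun j => Y j k :=
      nonneg_of_mul_nonneg_right
        ((add_nonneg (nw_nonneg (w_nonneg h.wv.2.2).2 _)
          (nw_nonneg (w_nonneg h.wu.2.2).2 _)).trans hM) (by positivity)
    rw [ew, M0_add hL bV h.sV bB h.bP h.bQ hp.hinf hr.hinf fun a =>
      lam_perp h.hn hq hqp (good_hinf hL a) (h.lowθ a)]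
    exact schur hN0
      (lmi_int h.gain bV bB (h.wv.1.mono (by norm_num)) (h.wu.1.mono (by norm_num)) h.lmi hr
        hperp) (h.tail r hr hperp) hsp hs hM0
      ((null_cs h.wv h.wu hr hperp bhV bhU hN).trans (mul_le_mul_of_nonneg_left hM hN0))

end Pool.Agent.Work.MP_6bf1e5_an.H.Fn
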