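import Pool.Agent.Work.MP_6bf1e5_an.H.FinCore

/-! From the finite form to the level one inequality. -/

open scoped ContDiff ENNReal FourierTransform Real
open Set MeasureTheory

namespace Pool.Agent.Work.MP_6bf1e5_an.H.Fn

open Dyn

variable {L : Lyap} {T : Tab L} {n : ℕ} {U w v θ : Vc}

theorem bd_AA (hU : ∀ i, Sym (-1 / 2) (U i)) (i j : Fin 3) : Bd 0 (AA U i j) := by
  have h1 : Bd 0 fun y => (2 - Om y) / 3 + Om y * dot pos U y / 2 := by
    simp only [div_eq_inv_mul]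
    exact (((bd_const 2).sub (bd_Om (by norm_num))).cmul _).add
      ((bd_mul (bd_Om le_rfl) (Bd.sum _ fun k _ => (bd_coord k).mul (hU k).bd)
        (by norm_num)).cmul _)
  have h2 : Bd 0 fun y => (pd i (U j) y + pd j (U i) y) / 2 := by
    simp only [div_eq_inv_mul]
    exact (((bd_pd (hU j) i).add (bd_pd (hU i) j)).mono (by norm_num)).cmul _
  have h3 : Bd 0 fun y => if i = j then (2 - Om y) / 3 + Om y * dot pos U y / 2 else 0 := by
    split_ifs
    exacts [h1, bd_zero 0]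
  exact bd_mul (bd_Om (k := 0) (by norm_num)) (h3.sub h2) (by norm_num)

theorem bd_BB (hU : ∀ i, Sym (-1 / 2) (U i)) (i j : Fin 3) : Bd 0 (BB (curl U) i j) :=
  (bd_mul (bd_Om le_rfl) ((bd_pd_curl hU j i).add (bd_pd_curl hU i j)) (by norm_num)).sub
    (bd_mul ((bd_Om2 le_rfl).mul (bd_coord i)) (bd_curl hU j) (by norm_num))

theorem bd_kp (hU : ∀ i, Sym (-1 / 2) (U i)) (hθ : ∀ i, Sym (-3) (θ i)) (i : Fin 3) :
    Bd (-3) (kp U θ i) :=
  ((((hθ i).bd.neg).sub ((bd_yd (hθ i)).cmul _)).sub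
    (bd_cross (bd_curl hθ) (fun k => (hU k).bd) (by norm_num) i)).mono (by norm_num)

theorem bd_kq (hU : ∀ i, Sym (-1 / 2) (U i)) (hθ : ∀ i, Sym (-3) (θ i)) (i : Fin 3) :
    Bd (-4) (kq U θ i) :=
  (bd_cross (bd_curl hU) (bd_curl hθ) (by norm_num) i).neg

/-- The weight given by the dissipation. -/
noncomputable def GW (n : ℕ) : Sc := fun y => lamS n * Op (5 / 2) y - cnS n * Op (3 / 2) y

theorem bd_GW (n : ℕ) : Bd 0 (GW n) :=
  ((bd_op _ (by norm_num)).cmul _).sub ((bd_op _ (by norm_num)).cmul _)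

theorem frac_vec (hn : 1 ≤ n) (hv : ∀ i, Hinf (v i)) {Yw : ℕ → Vc} (hY : ∀ k i, HF k (Yw k i))
    (hp : ∀ i, Perp (9 / 4) n fun y => v i y - Op (3 / 4) y * ∑ k ∈ Finset.range n, Yw k i y) :
    nw (GW n) v + ∫ y, Om y ^ 4 * ∑ i, (∑ k ∈ Finset.range n, (lam k - lamS n) * Yw k i y)
      * ∑ k ∈ Finset.range n, Yw k i y ≤ ip (LamV v) (sm Om v) := by
  have i1 : ∀ i, Integrable fun y => Om y ^ 4 *
      ((∑ k ∈ Finset.range n, (lam k - lamS n) * Yw k i y) * ∑ k ∈ Finset.range n, Yw k i y) :=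
    fun i => by
      have h4 : Bd (-4) fun y => Om y ^ 4 := by
        simp only [← op_nat]
        exact bd_op _ (by norm_num)
      exact (h4.mul ((Bd.sum _ fun k _ => (hY k i).1.sym.bd.cmul _).mul
        (Bd.sum _ fun k _ => (hY k i).1.sym.bd))).integrable (by norm_num)
  have hs : ∀ i, Hinf (sm Om v i) := fun i => by
    have := (hv i).mul_sym (sym_op0 (b := 1) (by norm_num))
    rwa [op_one] at this
  have e : ∫ y, Om y ^ 4 * ∑ i, (∑ k ∈ Finset.range n, (lam k - lamS n) * Yw k i y)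
      * ∑ k ∈ Finset.range n, Yw k i y = ∑ i, ∫ y, Om y ^ 4 *
      ((∑ k ∈ Finset.range n, (lam k - lamS n) * Yw k i y) * ∑ k ∈ Finset.range n, Yw k i y) := by
    rw [← integral_finsetSum _ fun i _ => i1 i]
    exact integral_congr_ae (Filter.Eventually.of_forall fun y => Finset.mul_sum _ _ _)
  rw [nw_sum (bd_GW n) hv, e, ip_eq (V := LamV v) (fun i => hinf_lam (hv i)) hs,
    ← Finset.sum_add_distrib]
  exact Finset.sum_le_sum fun i _ =>
    tail_frac hn (hv i) (fun k => Yw k i) (fun k _ => hY k i) (hp i)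

theorem cV_int (bV : ∀ i j, Bd 0 (T.V i j)) (hU : ∀ i, Sym (-1 / 2) (U i)) {d db dp dq : ℝ}
    (hC : Close T U d db dp dq) (hv : ∀ i, Hinf (v i)) :
    (∫ y, bf T.V v v y) + d * nw Om v ≤ (∫ y, bf (AA U) v v y) + T.ν * nw (GW T.n) v := by
  have i1 := int_bf bV le_rfl hv hv
  have i2 := (int_nw (bd_Om (by norm_num)) hv).const_mul d
  have i3 := int_bf (bd_AA hU) le_rfl hv hv
  have i4 := (int_nw (bd_GW T.n) hv).const_mul T.ν
  rw [nw, nw, ← integral_const_mul, ← integral_const_mul, ← integral_add i1 i2,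
    ← integral_add i3 i4]
  refine integral_mono_ae (i1.add i2) (i3.add i4) (hC.cV.mono fun y hy => ?_)
  have := hy fun i => v i y
  simp only [dot_self, ← mul_assoc, GW, bf]
  exact this

theorem op_two (y : R3) : Op 2 y = Om y ^ 2 := by
  rw [← op_nat]
  norm_num

theorem cB_int (bB : ∀ i j, Bd 0 (T.B i j)) (hU : ∀ i, Sym (-1 / 2) (U i)) {d db dp dq : ℝ}
    (hC : Close T U d db dp dq) (hdb : 0 ≤ db) (hw : Adm w) :
    ∫ y, bf T.B (curl w) w y ≤
      (∫ y, bf (BB (curl U)) (curl w) w y) + 7 / 2 * db * nw Om (curl w) := by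
  have hv := hinf_curl hw.hinf
  have i1 := int_bf bB le_rfl hv hw.hinf
  have i2 := int_bf (bd_BB hU) le_rfl hv hw.hinf
  have i3 := int_nw (bd_Om (by norm_num)) hv
  have i4 := int_nw (bd_op 2 (by norm_num)) hw.hinf
  have i5 : Integrable fun y => 1 * bf (BB (curl U)) (curl w) w y
      + 7 / 4 * db * (Om y * dot (curl w) (curl w) y) + db / 7 * (Op 2 y * dot w w y) :=
    ((i2.const_mul _).add (i3.const_mul _)).add (i4.const_mul _)
  have key := integral_mono_ae i1 i5 (hC.cB.mono fun y hy => by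
    have h1 := Finset.sum_mul_sq_le_sq_mul_sq Finset.univ
      (fun z : Fin 3 × Fin 3 => BB (curl U) z.1 z.2 y - T.B z.1 z.2 y)
      fun z => curl w z.1 y * w z.2 y
    simp only [Fintype.sum_prod_type] at h1
    have e1 : ∑ i, ∑ j, (BB (curl U) i j y - T.B i j y) * (curl w i y * w j y)
        = bf (BB (curl U)) (curl w) w y - bf T.B (curl w) w y := by
      simp only [bf, Fin.sum_univ_three]
      ring
    have e2 : ∑ i, ∑ j, (curl w i y * w j y) ^ 2 = dot (curl w) (curl w) y * dot w w y := by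
      simp only [dot, Fin.sum_univ_three]
      ring
    have p1 : 0 ≤ dot (curl w) (curl w) y := by
      rw [dot_self]
      positivity
    have p2 : 0 ≤ dot w w y := by
      rw [dot_self]
      positivity
    have p3 := (Om_pos y).le
    rw [e1, e2] at h1
    have h2 := h1.trans (mul_le_mul_of_nonneg_right hy (mul_nonneg p1 p2))
    simp only [op_two]
    generalize dot (curl w) (curl w) y = A at *
    generalize dot w w y = B at *
    have h3 : db ^ 2 * Om y ^ 3 * (A * B) ≤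
        (7 / 4 * db * (Om y * A) + db / 7 * (Om y ^ 2 * B)) ^ 2 := by
      nlinarith [sq_nonneg (7 / 4 * db * (Om y * A) - db / 7 * (Om y ^ 2 * B))]
    have h4 := (abs_le_of_sq_le_sq' (h2.trans h3) (by positivity)).1
    linarith)
  rw [int_lin3 i2 i3 i4 _ _ _ fun _ => rfl] at key
  have h5 := mul_le_mul_of_nonneg_left (global_hardy' hw).1 (show 0 ≤ db / 7 by positivity)
  have h6 := mul_nonneg hdb (nw_nonneg (Filter.Eventually.of_forall fun y => (Om_pos y).le) (curl w))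
  simp only [nw] at h5 h6 ⊢
  linarith

theorem w_op (b : ℝ) : ∀ᵐ y, 0 < Op (-b) y ∧ 1 ≤ Op b y * Op (-b) y :=
  Filter.Eventually.of_forall fun y => ⟨op_pos _ y, by rw [← op_add]; simp [Op]⟩

theorem cs_v (hv : ∀ i, Hinf (v i)) (hθ : ∀ i, Bd (-3) (θ i)) :
    ip v θ ^ 2 ≤ nw Om v * nw (Op (-1)) θ := by
  have := pair_cs (mv := Op 1) (ov := Op (-1)) (mu := Op 2) (ou := Op (-2))
    ⟨bd_op _ (by norm_num), bd_op _ (by norm_num), w_op 1⟩
    ⟨bd_op _ (by norm_num), bd_op _ (by norm_num), w_op 2⟩ hv (w := 0) (fun _ => hinf_zero) hθ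
    (b := 0) fun _ => bd_zero _
  simpa only [ip_zero_left, nw_zero, add_zero, op_one] using this

theorem cs_u (hv : ∀ i, Hinf (v i)) (hθ : ∀ i, Bd (-4) (θ i)) :
    ip v θ ^ 2 ≤ nw (Op 2) v * nw (Op (-2)) θ := by
  have := pair_cs (mv := Op 1) (ov := Op (-1)) (mu := Op 2) (ou := Op (-2))
    ⟨bd_op _ (by norm_num), bd_op _ (by norm_num), w_op 1⟩
    ⟨bd_op _ (by norm_num), bd_op _ (by norm_num), w_op 2⟩ (q := 0) (fun _ => hinf_zero) hv
    (a := 0) (fun _ => bd_zero _) hθ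
  simpa only [ip_zero_left, nw_zero, zero_add] using this

theorem mink {κ : Type} [Fintype κ] {x z : κ → ℝ} {s t E dk : ℝ} (hs : 0 ≤ s) (ht : 0 ≤ t)
    (hE : 0 ≤ E) (hx : ∑ a, x a ^ 2 ≤ s ^ 2 * E) (hz : ∑ a, z a ^ 2 ≤ t ^ 2 * E)
    (hk : s + t ≤ dk) : ∑ a, (x a + z a) ^ 2 ≤ dk ^ 2 * E := by
  have h1 := (Finset.sum_mul_sq_le_sq_mul_sq Finset.univ x z).trans
    (mul_le_mul hx hz (by positivity) (by positivity))
  have h2 := (abs_le_of_sq_le_sq' (h1.trans_eq (show _ = (s * t * E) ^ 2 by ring))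
    (by positivity)).2
  have h3 := mul_le_mul_of_nonneg_right (pow_le_pow_left₀ (add_nonneg hs ht) hk 2) hE
  simp only [add_sq, mul_assoc, Finset.sum_add_distrib, ← Finset.mul_sum] at h2 h3 ⊢
  linarith

theorem kForm_lc (hL : L.Good) (hU : ∀ i, Sym (-1 / 2) (U i)) (hw : ∀ i, Hinf (w i)) (ν : ℝ)
    (c : Fin L.r → ℝ) : kForm ν U (lc c L.θ) w = ∑ a, c a * kForm ν U (L.θ a) w := by
  have hv := hinf_curl hw
  have s1 := fun a i => (good_sym hL a i).1
  have e0 : curl (lc c L.θ) = lc c fun a => curl (L.θ a) := md_curl_lin _ c fun a _ i => s1 a i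
  have e1 : kp U (lc c L.θ) = lc c fun a => kp U (L.θ a) := by
    funext i y
    have e : ∀ j, pd j (lc c L.θ i) = fun y => ∑ a, c a * pd j (L.θ a i) y := fun j =>
      md_pd_lin _ c (fun a _ => s1 a i) j
    rw [kp, e0]
    simp only [yd, e]
    simp only [lc, kp, yd, cross, Fin.sum_univ_three, mul_sub, mul_add, mul_neg, Finset.sum_sub_distrib, Finset.sum_add_distrib,
      Finset.sum_neg_distrib, Finset.mul_sum, Finset.sum_mul, mul_assoc, mul_left_comm]
  have e2 : kq U (lc c L.θ) = lc c fun a => kq U (L.θ a) := by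
    funext i y
    rw [kq, e0]
    simp only [lc, kq, cross, mul_sub, mul_neg, Finset.sum_sub_distrib, Finset.sum_neg_distrib,
      Finset.mul_sum, mul_left_comm]
  rw [kForm, e1, e2, ip_lc c fun a => int_dot2 (q := LamV _) (fun i => hinf_lam (hv i))
    (good_hinf hL a), ip_lc c fun a => int_dot hv (bd_kp hU (good_sym hL a)) (by norm_num),
    ip_lc c fun a => int_dot hw (bd_kq hU (good_sym hL a)) (by norm_num)]
  simp only [kForm, mul_add, Finset.sum_add_distrib, Finset.mul_sum, mul_left_comm]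

/-- The error of the approximate test forms. -/
theorem k_err (hL : L.Good) (bP : ∀ a i, Bd (-3) (T.P a i)) (bQ : ∀ a i, Bd (-4) (T.Q a i))
    (hU : ∀ i, Sym (-1 / 2) (U i)) {dp dq dk : ℝ} (hdp : 0 ≤ dp) (hdq : 0 ≤ dq)
    (hk : dp + 7 / 2 * dq ≤ dk) (hw : Adm w) {κ : Type} [Fintype κ] (c : κ → Fin L.r → ℝ)
    (cP : ∑ a, nw (Op (-1)) (lc (c a) fun b => kp U (L.θ b) - T.P b) ≤ dp ^ 2)
    (cQ : ∑ a, nw (Op (-2)) (lc (c a) fun b => kq U (L.θ b) - T.Q b) ≤ dq ^ 2) :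
    ∑ a, (∑ b, c a b * (kForm T.ν U (L.θ b) w - T.k b w)) ^ 2 ≤ dk ^ 2 * nw Om (curl w) := by
  have hv := hinf_curl hw.hinf
  have b1 := fun a => bd_kp hU (good_sym hL a)
  have b2 := fun a => bd_kq hU (good_sym hL a)
  have b3 := fun a => bd_vsub (b1 a) (bP a)
  have b4 := fun a => bd_vsub (b2 a) (bQ a)
  have hE := nw_nonneg (Filter.Eventually.of_forall fun y => (Om_pos y).le) (curl w)
  have e : ∀ a, kForm T.ν U (L.θ a) w - T.k a w =
      ip (curl w) (kp U (L.θ a) - T.P a) + ip w (kq U (L.θ a) - T.Q a) := fun a => by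
    rw [ip_sub_right (int_dot hv (b1 a) (by norm_num)) (int_dot hv (bP a) (by norm_num)),
      ip_sub_right (int_dot hw.hinf (b2 a) (by norm_num)) (int_dot hw.hinf (bQ a) (by norm_num)),
      kForm, Tab.k]
    ring
  have e' : ∀ a, ∑ b, c a b * (kForm T.ν U (L.θ b) w - T.k b w) =
      ip (curl w) (lc (c a) fun b => kp U (L.θ b) - T.P b)
        + ip w (lc (c a) fun b => kq U (L.θ b) - T.Q b) := fun a => by
    rw [ip_lc _ fun b => int_dot hv (b3 b) (by norm_num),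
      ip_lc _ fun b => int_dot hw.hinf (b4 b) (by norm_num)]
    simp only [e, mul_add, Finset.sum_add_distrib]
  simp only [e']
  refine mink hdp (show 0 ≤ 7 / 2 * dq by positivity) hE ?_ ?_ hk
  · refine (Finset.sum_le_sum fun a _ => cs_v hv fun i => bd_lc _ fun b => b3 b i).trans ?_
    rw [← Finset.mul_sum, mul_comm]
    exact mul_le_mul_of_nonneg_right cP hE
  · refine (Finset.sum_le_sum fun a _ => cs_u hw.hinf fun i => bd_lc _ fun b => b4 b i).trans ?_
    rw [← Finset.mul_sum]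
    have h1 := mul_le_mul_of_nonneg_left cQ
      (nw_nonneg (Filter.Eventually.of_forall fun y => (op_pos 2 y).le) w)
    have h2 := mul_le_mul_of_nonneg_right (global_hardy' hw).1 (sq_nonneg dq)
    nlinarith [mul_nonneg hE (sq_nonneg dq)]

theorem sq_split {κ : Type} [Fintype κ] (k δ : κ → ℝ) {e : ℝ} (he : 0 < e) :
    ∑ a, (k a + δ a) ^ 2 ≤ (1 + e) * ∑ a, k a ^ 2 + (1 + 1 / e) * ∑ a, δ a ^ 2 := by
  rw [Finset.mul_sum, Finset.mul_sum, ← Finset.sum_add_distrib]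
  refine Finset.sum_le_sum fun a _ => ?_
  have f1 : (1 + e) * k a ^ 2 + (1 + 1 / e) * δ a ^ 2 - (k a + δ a) ^ 2
      = (e * k a - δ a) ^ 2 / e := by
    field_simp
    ring
  have f2 : 0 ≤ (e * k a - δ a) ^ 2 / e := by positivity
  linarith

variable {ι : Type} [Fintype ι] {u : ι → Vc} {Y : ι → ℕ → Vc}
  {W G P mv mu ov ou : Sc} {vth sp : ℝ}

theorem L1_of_fin (hL : L.Good) (h : Fin2 T u Y W G P mv mu ov ou vth sp) (hν : 0 ≤ T.ν)
    {U : Vc} (hU : ∀ i, Sym (-1 / 2) (U i)) {d db dp dq μ' e dk cb : ℝ}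
    (hC : Close T U d db dp dq) (hdb : 0 ≤ db) (hdp : 0 ≤ dp) (hdq : 0 ≤ dq) (hμ' : 0 ≤ μ')
    (hcb : 0 ≤ cb)
    (bes : ∀ v : Vc, (∀ i, Hinf (v i)) → ∑ a, ip v (L.θ a) ^ 2 ≤ cb ^ 2 * nw Om v)
    (he : 0 < e) (hk : dp + 7 / 2 * dq ≤ dk) (h1 : μ' * (1 + e) ≤ T.μ')
    (h3 : T.μ + 7 / 2 * db + cb * dk + μ' * (1 + 1 / e) * dk ^ 2 ≤ d) : L1 L T.ν U T.μ μ' := by
  intro w hw
  obtain ⟨Yw, hY, hp, hM⟩ := core hL h w hw
  have hv := hinf_curl hw.hinf
  have bV : ∀ i j, Bd 0 (T.V i j) := fun i j => (h.bV i j).mono (by norm_num)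
  have bB : ∀ i j, Bd 0 (T.B i j) := fun i j => (h.bB i j).mono (by norm_num)
  have hE := nw_nonneg (Filter.Eventually.of_forall fun y => (Om_pos y).le) (curl w)
  have hdk : 0 ≤ dk := le_trans (by positivity) hk
  have p1 := fun (c : Fin L.r → ℝ) (V : Fin L.r → Vc) (b : ℝ) =>
    nw_nonneg (Filter.Eventually.of_forall fun y => (op_pos b y).le) (lc c V)
  have f1 := mul_le_mul_of_nonneg_left (frac_vec h.hn hv hY hp) hν
  have f2 := cV_int bV hU hC hv
  have f3 := cB_int bB hU hC hdb hw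
  have f4 := k_err hL h.bP h.bQ hU hdp hdq hk hw L.F
    ((le_add_of_nonneg_right (Finset.sum_nonneg fun _ _ => p1 _ _ _)).trans hC.cP)
    ((le_add_of_nonneg_right (Finset.sum_nonneg fun _ _ => p1 _ _ _)).trans hC.cQ)
  have f5 := k_err hL h.bP h.bQ hU hdp hdq hk hw L.Z
    ((le_add_of_nonneg_left (Finset.sum_nonneg fun _ _ => p1 _ _ _)).trans hC.cP)
    ((le_add_of_nonneg_left (Finset.sum_nonneg fun _ _ => p1 _ _ _)).trans hC.cQ)
  have c1 := (Finset.sum_mul_sq_le_sq_mul_sq Finset.univ _ _).trans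
    (mul_le_mul f4 (bes _ hv) (by positivity) (by positivity))
  have c2 := (abs_le_of_sq_le_sq' (c1.trans_eq (show _ = (cb * dk * nw Om (curl w)) ^ 2 by ring))
    (by positivity)).1
  have e1 : ∑ a, (∑ b, L.F a b * (kForm T.ν U (L.θ b) w - T.k b w)) * ip (curl w) (L.θ a)
      = ∑ a, mom (L.θF a) w * kForm T.ν U (L.θ a) w - ∑ a, mom (L.θF a) w * T.k a w := by
    rw [sum_symm hL.2.1, ← Finset.sum_sub_distrib]
    refine Finset.sum_congr rfl fun a _ => ?_
    rw [Lyap.θF, mom_lc hL hw.hinf, mul_sub]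
    rfl
  have e2 : ∀ i, kForm T.ν U (L.θZ i) w =
      T.kZ i w + ∑ b, L.Z i b * (kForm T.ν U (L.θ b) w - T.k b w) := fun i => by
    rw [Lyap.θZ, kForm_lc hL hU hw.hinf, Tab.kZ, ← Finset.sum_add_distrib]
    exact Finset.sum_congr rfl fun a _ => by ring
  have c4 := (sq_split (fun i => T.kZ i w) _ he).trans (add_le_add le_rfl
    (mul_le_mul_of_nonneg_left f5 (show 0 ≤ 1 + 1 / e by positivity)))
  have c6 := mul_le_mul_of_nonneg_left c4 hμ'
  have c7 := mul_le_mul_of_nonneg_right h1 (show 0 ≤ ∑ i, T.kZ i w ^ 2 by positivity)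
  have c9 := mul_le_mul_of_nonneg_right h3 hE
  have e3 : L.X1 w = nw Om (curl w) + ∑ a, mom (L.θF a) w * mom (L.θ a) w + 2 * L.zz w := rfl
  rw [e1] at c2
  rw [Tab.M0, Tab.FF] at hM
  simp only [e2, e3, aForm]
  linarith

end Pool.Agent.Work.MP_6bf1e5_an.H.Fn
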