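import Pool.Agent.Work.MP_6bf1e5_an.H.FinAng

/-! The gain of the tail on the velocity. -/

open scoped ContDiff ENNReal FourierTransform Real
open Set MeasureTheory

namespace Pool.Agent.Work.MP_6bf1e5_an.H.Fn

open Dyn

variable {b : ℝ} {w : Vc} {n : ℕ}

theorem pd_Om (j : Fin 3) (y : R3) : pd j Om y = -(Om y ^ 2 * y j) := by
  have h0 : 1 + ‖y‖ ^ 2 ≠ 0 := by positivity
  have h := (hasDerivAt_inv h0).comp_hasFDerivAt y
    ((hasStrictFDerivAt_norm_sq y).hasFDerivAt.const_add 1)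
  rw [pd, show fderiv ℝ Om y = _ from (h.const_mul 2).fderiv]
  simp [Om, EuclideanSpace.inner_single_right]
  field_simp

theorem pd_Op (b : ℝ) (j : Fin 3) : pd j (Op b) = fun y => -b * (Op (b + 1) y * y j) := by
  funext y
  have h := (dynCalc_d Om_smooth y).hasFDerivAt.rpow_const (p := b) (Or.inl (Om_pos y).ne')
  have e : pd j (Op b) y = b * Om y ^ (b - 1) * pd j Om y := by
    rw [pd, show fderiv ℝ (Op b) y = _ from h.fderiv]
    simp [pd]
  have e2 : Op (b + 1) y = Om y ^ (b - 1) * Om y ^ 2 := by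
    rw [show b + 1 = (b - 1) + (2 : ℕ) by push_cast; ring, op_add, op_nat]
    rfl
  rw [e, pd_Om, e2]
  ring

theorem Om_sq (y : R3) : Om y * ∑ j, y j ^ 2 = 2 - Om y := by
  rw [← EuclideanSpace.real_norm_sq_eq]
  unfold Om
  field_simp
  ring

theorem lap_Op (b : ℝ) (y : R3) :
    lap (Op b) y = b * Op (b + 1) y * (2 * b - 1 - (b + 1) * Om y) := by
  have e : ∀ j, pd j (pd j (Op b)) y =
      -b * (Op (b + 1) y - (b + 1) * Op (b + 1) y * (Om y * y j ^ 2)) := fun j => by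
    rw [pd_Op, pd_cmul ((sym_Op _).1.mul (coord_smooth j)), pd_mul (sym_Op _).1 (coord_smooth j),
      pd_Op, pd_coord]
    simp only [op_succ (b + 1), if_true]
    ring
  have h := Om_sq y
  simp only [lap, e, Fin.sum_univ_three] at h ⊢
  linear_combination (b * (b + 1) * Op (b + 1) y) * h

theorem sym_op0 (hb : 0 ≤ b) : Sym 0 (Op b) := by
  refine ⟨(sym_Op b).1, fun l => ?_⟩
  obtain ⟨C, hC⟩ := (sym_Op b).2 l
  refine ⟨|C|, fun y => (hC y).trans ?_⟩
  have h1 : 1 ≤ 1 + ‖y‖ := le_add_of_nonneg_right (norm_nonneg _)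
  exact mul_le_mul (le_abs_self C) (Real.rpow_le_rpow_of_exponent_le h1 (by linarith))
    (by positivity) (abs_nonneg C)

/-- The rotation term. -/
noncomputable def rt (φ : Sc) (w : Vc) : ℝ := ip (curl w) (sm φ (cross pos w))

theorem int_rt {φ : Sc} (h : Bd (-1) φ) (hw : ∀ i, Hinf (w i)) {q : Vc} (hq : ∀ i, Hinf (q i)) :
    Integrable (dot q (sm φ (cross pos w))) := by
  have h1 : ∀ i j k, Integrable fun y : R3 => q i y * (φ y * y j) * w k y := fun i j k =>
    (bd_mul h (bd_coord j) (k := 0) (by norm_num)).int_hinf2 le_rfl (hq i) (hw k)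
  refine integrable_finsetSum _ fun i _ => ?_
  refine ((h1 i (i + 1) (i + 2)).sub (h1 i (i + 2) (i + 1))).congr
    (Filter.Eventually.of_forall fun y => ?_)
  simp only [sm, cross, pos, Pi.sub_apply]
  ring

theorem mult_Op (hb : 0 ≤ b) (hw : Adm w) :
    gw (Op b) w - 1 / 2 * nw (fun y => b * Op (b + 1) y * (2 * b - 1 - (b + 1) * Om y)) w
      = nw (Op b) (curl w) - b * rt (Op (b + 1)) w := by
  have h := mult_id' hw.hinf hw.dv (sym_op0 hb)
  have e1 : lap (Op b) = fun y => b * Op (b + 1) y * (2 * b - 1 - (b + 1) * Om y) :=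
    funext (lap_Op b)
  have e2 : ip (curl w) (cross (grad (Op b)) w) = -(b * rt (Op (b + 1)) w) := by
    rw [rt, ip, ip, ← integral_const_mul, ← integral_neg]
    refine integral_congr_ae (Filter.Eventually.of_forall fun y => ?_)
    simp only [dot, cross, grad, pd_Op, sm, pos, Fin.sum_univ_three]
    ring
  rw [e1, e2] at h
  linarith

theorem gw_sum {φ : Sc} (h : Bd 0 φ) (hw : ∀ i, Hinf (w i)) :
    gw φ w = ∑ i, ∫ y, φ y * ∑ j, pd j (w i) y ^ 2 := by
  rw [gw, ← integral_finsetSum]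
  · simp only [Finset.mul_sum]
  · intro i _
    simp only [Finset.mul_sum]
    exact integrable_finsetSum _ fun j _ => int_wsq h ((hw i).pd j)

theorem bd_aff (a c : ℝ) : Bd 0 fun y => a * Om y + c :=
  ((bd_Om (by norm_num)).cmul a).add (bd_const c)

theorem bd_opaff (hb : 0 ≤ b) (a c : ℝ) : Bd 0 fun y => Op b y * (a * Om y + c) :=
  bd_mul (bd_op b (k := 0) (by linarith)) (bd_aff a c) (by norm_num)

theorem nw_opaff (hb : 0 ≤ b) (hw : ∀ i, Hinf (w i)) (a c a' c' t : ℝ) :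
    nw (fun y => Op b y * ((a + t * a') * Om y + (c + t * c'))) w =
      nw (fun y => Op b y * (a * Om y + c)) w + t * nw (fun y => Op b y * (a' * Om y + c')) w := by
  rw [nw, nw, nw, ← integral_const_mul,
    ← integral_add (int_nw (bd_opaff hb a c) hw) ((int_nw (bd_opaff hb a' c') hw).const_mul t)]
  refine integral_congr_ae (Filter.Eventually.of_forall fun y => ?_)
  simp only
  ring

/-- The gain for one power. -/
theorem gain_Op (hb : 0 ≤ b) (hw : Adm w) {a c : ℝ}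
    (h : nw (fun y => Op (b + 1) y * (a * Om y + c)) w ≤ gw (Op b) w) :
    nw (fun y => Op (b + 1) y * ((a + b * (b + 1) / 2) * Om y + (c - b * (2 * b - 1) / 2))) w
      ≤ nw (Op b) (curl w) - b * rt (Op (b + 1)) w := by
  have h1 := nw_opaff (b := b + 1) (by linarith) hw.hinf a c (-(b * (b + 1))) (b * (2 * b - 1))
    (-(1 / 2))
  have h2 := mult_Op hb hw
  have e1 : (fun y => b * Op (b + 1) y * (2 * b - 1 - (b + 1) * Om y))
      = fun y => Op (b + 1) y * (-(b * (b + 1)) * Om y + b * (2 * b - 1)) := by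
    funext y
    ring
  have e2 : (fun y => Op (b + 1) y * ((a + b * (b + 1) / 2) * Om y + (c - b * (2 * b - 1) / 2)))
      = fun y => Op (b + 1) y * ((a + -(1 / 2) * -(b * (b + 1))) * Om y
        + (c + -(1 / 2) * (b * (2 * b - 1)))) := by
    funext y
    ring
  rw [e1] at h2
  rw [e2, h1]
  linarith

theorem int_lin3 {F F1 F2 F3 : Sc} (h1 : Integrable F1) (h2 : Integrable F2) (h3 : Integrable F3)
    (a c d : ℝ) (h : ∀ y, F y = a * F1 y + c * F2 y + d * F3 y) :
    ∫ y, F y = a * (∫ y, F1 y) + c * (∫ y, F2 y) + d * ∫ y, F3 y := by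
  have h12 : Integrable fun y => a * F1 y + c * F2 y := (h1.const_mul a).add (h2.const_mul c)
  rw [← integral_const_mul, ← integral_const_mul, ← integral_const_mul,
    ← integral_add (h1.const_mul a) (h2.const_mul c), ← integral_add h12 (h3.const_mul d)]
  exact integral_congr_ae (Filter.Eventually.of_forall h)

variable {W G P W' G' P' : Sc}

theorem gain_congr (h : Gain n W G P) (hW : ∀ y, W' y = W y) (hG : ∀ y, G' y = G y)
    (hP : ∀ y, P' y = P y) : Gain n W' G' P' := by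
  rw [funext hW, funext hG, funext hP]
  exact h

theorem gain_lin (h : Gain n W G P) (h' : Gain n W' G' P') {a c : ℝ} (ha : 0 ≤ a) (hc : 0 ≤ c) :
    Gain n (fun y => a * W y + c * W' y) (fun y => a * G y + c * G' y)
      fun y => a * P y + c * P' y := by
  refine ⟨(h.bW.cmul a).add (h'.bW.cmul c), (h.bG.cmul a).add (h'.bG.cmul c),
    (h.bP.cmul a).add (h'.bP.cmul c), fun w hw hp => ?_⟩
  have hv := hinf_curl hw.hinf
  have eP : nw (fun y => a * P y + c * P' y) w = _ := int_lin3 (int_nw h.bP hw.hinf)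
    (int_nw h'.bP hw.hinf) (int_nw h.bP hw.hinf) a c 0 fun y => by ring
  have eW : nw (fun y => a * W y + c * W' y) (curl w) = _ := int_lin3 (int_nw h.bW hv)
    (int_nw h'.bW hv) (int_nw h.bW hv) a c 0 fun y => by ring
  have eG : ip (curl w) (sm (fun y => a * G y + c * G' y) (cross pos w)) = _ :=
    int_lin3 (int_rt h.bG hw.hinf hv) (int_rt h'.bG hw.hinf hv) (int_rt h.bG hw.hinf hv) a c 0
      fun y => by
        simp only [dot, sm, Fin.sum_univ_three]
        ring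
  have k1 := mul_le_mul_of_nonneg_left (h.le w hw hp) ha
  have k2 := mul_le_mul_of_nonneg_left (h'.le w hw hp) hc
  rw [eP, eW, eG]
  simp only [nw, ip] at k1 k2
  linarith

theorem rt_cmul (a : ℝ) (φ : Sc) (w : Vc) : rt (fun y => a * φ y) w = a * rt φ w := by
  rw [rt, rt, ip, ip, ← integral_const_mul]
  refine integral_congr_ae (Filter.Eventually.of_forall fun y => ?_)
  simp only [dot, sm, Fin.sum_univ_three]
  ring

theorem perp_succ (hp : ∀ i, Perp (9 / 4) (n + 1) (w i)) (i : Fin 3) : Perp (13 / 4) n (w i) := by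
  have := (hp i).succ
  norm_num at this
  exact this

theorem gain3 (n : ℕ) : Gain n (Op (3 / 2)) (fun y => 3 / 2 * Op (5 / 2) y)
    fun y => Op (5 / 2) y * ((n * (n + 2) + 21 / 16) * Om y + -(9 / 8)) := by
  refine ⟨bd_op _ (by norm_num), (bd_op _ (by norm_num)).cmul _, bd_opaff (by norm_num) _ _,
    fun w hw hp => ?_⟩
  have g3 := gain_Op (b := 3 / 2) (by norm_num) hw (a := n * (n + 2) - 9 / 16)
    (c := 3 / 8) (by
      rw [gw_sum (bd_op _ (by norm_num)) hw.hinf, nw_sum (bd_opaff (by norm_num) _ _) hw.hinf]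
      refine Finset.sum_le_sum fun i _ =>
        le_of_eq_of_le ?_ (tail_loc3 (hw.hinf i) (perp_succ hp i))
      refine integral_congr_ae (Filter.Eventually.of_forall fun y => ?_)
      simp only [show (3 / 2 + 1 : ℝ) = 5 / 2 by norm_num]
      ring)
  rw [show (3 / 2 + 1 : ℝ) = 5 / 2 by norm_num, ← rt_cmul] at g3
  refine le_of_eq_of_le ?_ g3
  congr 1
  funext y
  ring

theorem sym_nsq : Sym 2 fun y : R3 => ‖y‖ ^ 2 := by
  have h1 : Sym 2 (Op (-1)) := md_sym_mono (sym_Op (-1)) (by norm_num)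
  have h2 : Sym 2 (Op 0) := md_sym_mono (sym_Op 0) (by norm_num)
  have e : (fun y : R3 => ‖y‖ ^ 2) = fun y => 2 * Op (-1) y - Op 0 y := by
    funext y
    rw [Op_neg_one, Op, Real.rpow_zero, Om]
    field_simp
    ring
  rw [e]
  exact md_sym_sub (md_sym_cmul h1 2) h2

theorem pd_nsq (j : Fin 3) : pd j (fun y : R3 => ‖y‖ ^ 2) = fun y => 2 * y j := by
  funext y
  rw [pd, (hasStrictFDerivAt_norm_sq y).hasFDerivAt.fderiv]
  simp [EuclideanSpace.inner_single_right]

variable {φ : ℝ → ℝ}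

theorem pd_zrad (hs : RadS φ) (j : Fin 3) : pd j (fun y : R3 => ‖y‖ ^ 2 * rad φ y) =
    fun y => y j * (2 * (rad φ y + ‖y‖ ^ 2 * rad (deriv φ) y)) := by
  rw [pd_mul sym_nsq.1 hs.smooth, pd_nsq]
  funext y
  rw [hs.pd_rad]
  ring

theorem lap_zrad (hs : RadS φ) (y : R3) : lap (fun y : R3 => ‖y‖ ^ 2 * rad φ y) y =
    6 * rad φ y + 14 * ‖y‖ ^ 2 * rad (deriv φ) y
      + 4 * (‖y‖ ^ 2) ^ 2 * rad (deriv (deriv φ)) y := by
  have s1 := sym_nsq.1.mul hs.der.smooth
  have e : ∀ j, pd j (pd j fun y : R3 => ‖y‖ ^ 2 * rad φ y) y =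
      2 * (rad φ y + ‖y‖ ^ 2 * rad (deriv φ) y) + y j ^ 2 * (8 * rad (deriv φ) y
        + 4 * ‖y‖ ^ 2 * rad (deriv (deriv φ)) y) := fun j => by
    rw [pd_zrad hs, pd_mul (coord_smooth j) (contDiff_const.mul (hs.smooth.add s1)), pd_coord,
      pd_cmul (hs.smooth.add s1), pd_add hs.smooth s1, pd_zrad hs.der]
    simp only [hs.pd_rad, if_true]
    ring
  have h := md_norm_sq y
  simp only [lap, e, Fin.sum_univ_three] at h ⊢
  linear_combination (-(8 * rad (deriv φ) y + 4 * ‖y‖ ^ 2 * rad (deriv (deriv φ)) y)) * h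

theorem gain_rad (n : ℕ) (hs : RadS φ) (hb : Sym (-2) (rad φ)) (h0 : ∀ z, 0 ≤ z → 0 ≤ φ z) :
    Gain n (fun y => ‖y‖ ^ 2 * rad φ y) (fun y => -(2 * (rad φ y + ‖y‖ ^ 2 * rad (deriv φ) y)))
      fun y => -rad φ y - 7 * ‖y‖ ^ 2 * rad (deriv φ) y
        - 2 * (‖y‖ ^ 2) ^ 2 * rad (deriv (deriv φ)) y := by
  have sW : Sym 0 fun y : R3 => ‖y‖ ^ 2 * rad φ y := md_sym_mono (md_sym_mul sym_nsq hb) (by norm_num)
  have bl : Bd 0 (lap fun y : R3 => ‖y‖ ^ 2 * rad φ y) :=
    Bd.sum _ fun j _ => (bd_pd (md_sym_pd sW j) j).mono (by norm_num)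
  have b0 : Bd 0 (rad φ) := hb.bd.mono (by norm_num)
  have eG : (fun y => -(2 * (rad φ y + ‖y‖ ^ 2 * rad (deriv φ) y)))
      = fun y => -(2 * rad φ y + yd (rad φ) y) := by
    funext y
    simp only [yd, hs.pd_rad, md_norm_sq, Fin.sum_univ_three]
    ring
  have eP : ∀ y, -rad φ y - 7 * ‖y‖ ^ 2 * rad (deriv φ) y
      - 2 * (‖y‖ ^ 2) ^ 2 * rad (deriv (deriv φ)) y
      = 2 * rad φ y + -(1 / 2) * lap (fun y : R3 => ‖y‖ ^ 2 * rad φ y) y := fun y => by
    rw [lap_zrad hs]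
    ring
  refine ⟨sW.bd, ?_, ?_, fun w hw _ => ?_⟩
  · rw [eG]
    exact (((hb.bd.cmul 2).add (bd_yd hb)).neg).mono (by norm_num)
  · rw [funext eP]
    exact (b0.cmul _).add (bl.cmul _)
  · have h1 := mult_id' hw.hinf hw.dv sW
    have h2 := ang_rad hw.hinf hw.eqv hs hb.bd h0
    have e1 : ip (curl w) (cross (grad fun y : R3 => ‖y‖ ^ 2 * rad φ y) w) = -ip (curl w)
        (sm (fun y => -(2 * (rad φ y + ‖y‖ ^ 2 * rad (deriv φ) y))) (cross pos w)) := by
      rw [ip, ip, ← integral_neg]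
      refine integral_congr_ae (Filter.Eventually.of_forall fun y => ?_)
      simp only [dot, cross, grad, pd_zrad hs, sm, pos, Fin.sum_univ_three]
      ring
    have e2 : nw (fun y => -rad φ y - 7 * ‖y‖ ^ 2 * rad (deriv φ) y
        - 2 * (‖y‖ ^ 2) ^ 2 * rad (deriv (deriv φ)) y) w = _ :=
      int_lin3 (int_nw b0 hw.hinf) (int_nw bl hw.hinf) (int_nw b0 hw.hinf) 2 (-(1 / 2)) 0
        fun y => by
          simp only [eP]
          ring
    rw [e2]
    rw [e1] at h1
    simp only [nw] at h1 h2 ⊢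
    linarith

theorem gain_std (n : ℕ) {c3 : ℝ} (hc : 0 ≤ c3) (hs : RadS φ) (hb : Sym (-2) (rad φ))
    (h0 : ∀ z, 0 ≤ z → 0 ≤ φ z) : Gain n (WW c3 φ) (WG c3 φ) (PN n c3 φ) := by
  refine gain_congr (gain_lin (gain3 n) (gain_rad n hs hb h0) hc zero_le_one) ?_ ?_ ?_ <;>
  · intro y
    simp only [WW, WG, PN, rad]
    ring

end Pool.Agent.Work.MP_6bf1e5_an.H.Fn
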