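import Pool.Agent.Work.MP_6bf1e5_an.H.LocMas

/-! Interface of the local identities and of the master inequality (owner helper89). The numerical
conditions `Num` are in the file LocNum. -/

open scoped ContDiff ENNReal FourierTransform Real
open Set MeasureTheory

namespace Pool.Agent.Work.MP_6bf1e5_an.H

/-- The multiplier identity. -/
theorem mult_id {u : Vc} (h : ∀ i, Hinf (u i)) (hd : ∀ y, dvg u y = 0) {W : Sc} (hW : Sym 0 W) :
    gw W u = nw W (curl u) + 1 / 2 * nw (lap W) u + ip (curl u) (cross (grad W) u) :=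
  Dyn.mult_id' h hd hW

/-- The angular inequality, for the weight used. -/
theorem ang_hardy {u : Vc} (h : ∀ i, Hinf (u i)) (he : Eqv u) : nw (Op 2) u ≤ gw Om u :=
  Dyn.ang_hardy' h he

theorem global_hardy {u : Vc} (h : Adm u) :
    nw (Op 2) u ≤ 12 * nw Om (curl u) ∧ gw Om u ≤ 12 * nw Om (curl u) := Dyn.global_hardy' h

theorem master {L : Lyap} {ν : ℝ} {Ψ S : Vc} {ψ s : Fin 2 → Vc} {K : Cst}
    (hS : Static L ν Ψ S ψ s K) {c m β rr : ℝ} (hN : Num L.κ ν K c m β rr) :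
    ∃ A0, ∀ A ≥ A0, Master L ν (cut A Ψ S) c m β rr := Dyn.master' hS hN

theorem Pot.bg {m : ℝ} {Ψ S : Vc} (h : Pot m Ψ S) {A : ℝ} (hA : 0 < A) : Bg (cut A Ψ S) :=
  Dyn.pot_bg h hA

theorem ini_cut {L : Lyap} {ν : ℝ} {Ψ S : Vc} {ψ s : Fin 2 → Vc} {K : Cst}
    (hS : Static L ν Ψ S ψ s K) {η : ℝ} (hη : 0 < η) : ∃ A0, ∀ A ≥ A0, ∀ a : Fin 2 → ℝ,
      L.E (pl (fun k => cut A (ψ k) (s k)) a) ≤ -(K.c0 - η) * ∑ k, a k ^ 2 ∧
      L.X (pl (fun k => cut A (ψ k) (s k)) a) ≤ (K.C0 + η) * ∑ k, a k ^ 2 := by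
  obtain ⟨A0, h⟩ := Dyn.ini_cut' hS.good hS.potφ hη
  refine ⟨A0, fun A hA a => ⟨?_, ?_⟩⟩
  · linarith [(h A hA a).1, hS.iniE a]
  · linarith [(h A hA a).2, hS.iniX a]

end Pool.Agent.Work.MP_6bf1e5_an.H
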