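import Pool.Agent.Work.MP_6bf1e5_an.H.SkDyn
import Pool.Agent.Work.MP_6bf1e5_an.H.SkLoc

/-! From the static estimates to the breakdown of solutions. -/

open scoped ContDiff ENNReal FourierTransform Real
open Set MeasureTheory

namespace Pool.Agent.Work.MP_6bf1e5_an.H

theorem blow_of_static {L : Lyap} {ν : ℝ} {Ψ S : Vc} {ψ s : Fin 2 → Vc} {K : Cst}
    (hS : Static L ν Ψ S ψ s K) (hν : 0 < ν) {c m β rr ϱ x0 em η : ℝ}
    (hN : Num L.κ ν K c m β rr) (hc : 0 < c) (hc2 : c ≤ 2) (hm : 0 < m) (hβ : 0 < β)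
    (hcl : 0 < K.cl) (hcz : 0 ≤ K.cz) (hϱ : 0 < ϱ) (hem : 4 * β ≤ K.cz * m * em) (hx0 : β ≤ m * x0)
    (hrr : x0 + 2 / c * (x0 + 2 * em) < rr) (hη : 0 < η) (hη' : 0 ≤ K.C0 + η)
    (hX : (K.C0 + η) * ϱ ^ 2 ≤ x0) (hE : em ≤ (K.c0 - η) * ϱ ^ 2) (hnz : rr < K.cl / 10 ^ 6)
    {ν' : ℝ} (hν' : 0 < ν') : ∃ T, 0 < T ∧ Blow ν' T := by
  obtain ⟨A1, h1⟩ := master hS hN
  obtain ⟨A2, h2⟩ := ini_cut hS hη
  obtain ⟨A3, h3⟩ := hS.nz
  set A := max (max A1 A2) (max A3 1) with hA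
  have a1 : A ≥ A1 := le_trans (le_max_left _ _) (le_max_left _ _)
  have a2 : A ≥ A2 := le_trans (le_max_right _ _) (le_max_left _ _)
  have a3 : A ≥ A3 := le_trans (le_max_left _ _) (le_max_right _ _)
  have a4 : 0 < A := lt_of_lt_of_le one_pos (le_trans (le_max_right _ _) (le_max_right _ _))
  have hb : Blow ν 1 := by
    refine dyn L hS.good hν (hS.pot.bg a4) (φ := fun k => cut A (ψ k) (s k))
      (fun k => (hS.potφ k).bg a4) (h1 A a1) hS.coer hcl hcz hc hc2 hm hβ hϱ hem hx0 hrr ?_ ?_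
      (lt_of_lt_of_le hnz ?_)
    · intro a ha
      exact le_trans (h2 A a2 a).2 (le_trans (mul_le_mul_of_nonneg_left ha hη') hX)
    · intro a ha
      have := (h2 A a2 a).1
      rw [ha] at this
      linarith
    · have := mul_le_mul_of_nonneg_left (h3 A a3) hcl.le
      linarith
  exact ⟨1 * ν / ν', by positivity, hb.scale hν hν'⟩

end Pool.Agent.Work.MP_6bf1e5_an.H
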