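/-! The entries of the block matrix fields as sums of products of tables (owner helper56). -/

namespace Pool.Agent.Work.MP_6bf1e5_an.H.Fs

/-- A stored table with its type, width and scale. -/
structure Tb where
  e : Bool
  b : Nat
  s : Nat
  l : List (Nat × Nat)

/-- The two radial rows with width and scale, and the list of tables. -/
structure Env where
  b : Nat
  s : Nat
  o1 : Nat × Nat
  o2 : Nat × Nat
  tl : List Tb

/-- The product of `± c / 2 ^ s`, `(1 - t ^ 4) ^ kx` and the tables with the numbers `l`. -/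
structure Pr where
  g : Bool
  c : Nat
  s : Nat
  kx : Nat
  l : List Nat

/-- The row number `w` times `t ^ tp * (1 - t ^ 4) ^ kq` times the sum of the products `l`. -/
structure Grp where
  w : Nat
  tp : Nat
  kq : Nat
  l : List Pr

/-- The product `± c / 2 ^ s * t ^ p * κ ^ q` times the weights `r` times the tables `l`. -/
structure Tm where
  g : Bool
  c : Nat
  s : Nat
  p : Nat
  q : Nat
  r : List Nat
  l : List Nat

abbrev Ex := List Tm

abbrev X1 := Fin 3 → Ex

abbrev X3 := Fin 3 → Fin 3 → Ex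

abbrev X6 := Bool → Bool → X3

def Tm.mul (x y : Tm) : Tm :=
  ⟨xor x.g y.g, x.c * y.c, x.s + y.s, x.p + y.p, x.q + y.q, x.r ++ y.r, x.l ++ y.l⟩

def sc (x : Tm) (E : Ex) : Ex := E.map x.mul

def mu (E F : Ex) : Ex := E.flatMap fun x => sc x F

/-- A constant. -/
def ct (g : Bool) (c s : Nat) : Tm := ⟨g, c, s, 0, 0, [], []⟩

def ng (E : Ex) : Ex := sc (ct true 1 0) E

/-- A matrix of tables. -/
def xM (p : Nat) (d : Fin 3 → Fin 3 → Nat) : X3 := fun a c =>
  [⟨false, 1, 0, p, if (a = 2 ↔ c = 2) then 0 else 1, [], [d a c]⟩]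

/-- A vector of tables. -/
def xV (p d : Nat) : X1 := fun a => [⟨false, 1, 0, p, if a = 2 then 0 else 1, [], [d + a.val]⟩]

/-- The weights. -/
def xo (a : Bool) : Tm := ⟨false, 1, 0, 0, 0, [bif a then 2 else 1], []⟩

def cM (U : X1) : X3 := fun i j =>
  if j = i + 2 then U (i + 1) else if j = i + 1 then ng (U (i + 2)) else []

def dM (x : Tm) : X3 := fun i j => if i = j then [x] else []

def G0 (V B : X3) : X6 := fun a b i j =>
  bif a then (bif b then [] else B j i) else bif b then B i j else sc (ct false 2 0) (V i j)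

def G1 (U W : X1) : X6 := fun a b i j =>
  bif a then (bif b then ng (cM W i j) else []) else bif b then cM U i j else dM (ct false 1 0) i j

def F0 (V B : X3) : X6 := fun a b i j =>
  bif a then (bif b then [] else sc (ct false 1 1) (B j i))
  else bif b then sc (ct false 1 1) (B i j) else V i j

def oI : X6 := fun a b i j => if a = b then dM (xo a) i j else []

def oG (G : X6) : X6 := fun a b i j => sc (xo a) (G a b i j)

def t3 (A B : X3) : X3 := fun i j => mu (A 0 i) (B 0 j) ++ mu (A 1 i) (B 1 j) ++ mu (A 2 i) (B 2 j)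

def tG (G G' : X6) : X6 := fun a b i j =>
  sc (xo true) (t3 (G true a) (G' true b) i j) ++ sc (xo false) (t3 (G false a) (G' false b) i j)

def trG (G : X6) : X6 := fun a b i j => G b a j i

def QM (V B : X3) (c s : Nat) : X6 := fun a b i j =>
  sc (ct false c s) (F0 V B a b i j) ++ ng (tG (G0 V B) (G0 V B) a b i j)

def slot (c : Nat) (s : Fin 3) : Bool := if c = 0 then decide (s = 2) else decide (s ≠ 2)

def pre (e : Bool → Nat) (c : Nat) (s : Fin 3) : Tm :=
  ⟨false, 1, 0, e (slot c s), if s = 2 then 0 else 1, [], []⟩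

/-- The field whose moments are the table `(s, β)` for rows of the class `c`. -/
def ent (G : X6) (e e' : Bool → Nat) (c s β : Nat) : Ex :=
  sc ((pre e c (Fin.ofNat 3 s)).mul (pre e' (β / 3) (Fin.ofNat 3 β)))
    (G (slot c (Fin.ofNat 3 s)) (slot (β / 3) (Fin.ofNat 3 β)) (Fin.ofNat 3 s) (Fin.ofNat 3 β))

def srt : List Nat → List Nat
  | [a, b] => if a ≤ b then [a, b] else [b, a]
  | l => l

/-- The terms with the weight `w`. -/
def flt (E : Ex) (w : Nat) : Ex := E.filter fun x => x.r.sum == w

/-- Their power of `t`. -/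
def hp (E : Ex) (w : Nat) : Nat := ((flt E w).headD (ct false 0 0)).p

/-- The groups of an expression. -/
def grp (kq : Nat) (E : Ex) : List Grp :=
  ([0, 1, 2].map fun w => (⟨w, hp E w - 4 * w, kq,
    (flt E w).map fun x => ⟨x.g, x.c, x.s, x.q / 2 - kq, srt x.l⟩⟩ : Grp)).filter
      fun G => !G.l.isEmpty

/-- The conditions for the grouping. -/
def nf (kq : Nat) (E : Ex) : Bool :=
  E.all fun x => Nat.ble x.r.length 1 && Nat.ble x.r.sum 2 && x.q % 2 == 0 &&
    Nat.ble (2 * kq) x.q && Nat.ble (4 * x.r.sum) x.p && x.p == hp E x.r.sum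

/-- The power of `1 - t ^ 4` in front. -/
def kq (s β : Nat) : Nat := if s = 2 ∧ β % 3 = 2 then 0 else 1

/-- The powers of `t` that are not stored. -/
def pw (v u : Nat) (a : Bool) : Nat := bif a then u else v

/-- The tables `0, ..., 5`. -/
def xv : X3 := xM 4 fun a c => if a = 0 then c.val else if c = 0 then a.val else a.val + c.val + 1

/-- The tables `6, ..., 14`. -/
def xb : X3 := xM 6 fun a c => 6 + 3 * a.val + c.val

def x0 : X6 := G0 xv xb

/-- The tables `15, ..., 20`. -/
def x1 : X6 := G1 (xV 1 15) (xV 3 18)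

/-- The seven fields: TP, T0, GT, PP, KK, LL, MM. -/
def exs (i : Nat) : Nat → Nat → Nat → Ex :=
  match i with
  | 0 => ent (trG (oG x1)) (pw 6 5) (pw 6 8)
  | 1 => ent (trG (oG x0)) (pw 3 3) (pw 6 8)
  | 2 => ent oI (pw 6 8) (pw 6 8)
  | 3 => ent (tG x1 x1) (pw 6 5) (pw 6 5)
  | 4 => ent (trG x1) (pw 6 5) (pw 3 3)
  | 5 => ent (tG x1 x0) (pw 6 5) (pw 3 3)
  | _ => ent (QM xv xb 795 8) (pw 3 3) (pw 3 3)

/-- The entry `(s, β)` of the set `i` for rows of the class `c`. -/
def gs (i c s β : Nat) : List Grp := grp (kq s β) (exs i c s β)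

end Pool.Agent.Work.MP_6bf1e5_an.H.Fs
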