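import Pool.Agent.Work.MP_6bf1e5_an.H.FldD
import Pool.Agent.Work.MP_6bf1e5_an.H.LmiDatV
import Pool.Agent.Work.MP_6bf1e5_an.H.LmiDatB
import Pool.Agent.Work.MP_6bf1e5_an.H.UwDat

/-! The list of tables (owner helper56). -/

namespace Pool.Agent.Work.MP_6bf1e5_an.H.Fs

open Lt.Dat

/-- The rows and the tables. -/
def env : Env := ⟨b1, s1, o1, o2,
  [⟨false, bV, sV, v00⟩, ⟨true, bV, sV, v01⟩, ⟨true, bV, sV, v02⟩, ⟨false, bV, sV, v11⟩,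
    ⟨false, bV, sV, v12⟩, ⟨false, bV, sV, v22⟩,
    ⟨false, bB, sB, b00⟩, ⟨true, bB, sB, b01⟩, ⟨true, bB, sB, b02⟩, ⟨true, bB, sB, b10⟩,
    ⟨false, bB, sB, b11⟩, ⟨false, bB, sB, b12⟩, ⟨true, bB, sB, b20⟩, ⟨false, bB, sB, b21⟩,
    ⟨false, bB, sB, b22⟩,
    ⟨false, bU, sU, u0⟩, ⟨true, bU, sU, u1⟩, ⟨true, bU, sU, u2⟩,
    ⟨false, bW, sW, w0⟩, ⟨true, bW, sW, w1⟩, ⟨true, bW, sW, w2⟩]⟩

end Pool.Agent.Work.MP_6bf1e5_an.H.Fs
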