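import Pool.Agent.Work.MP_6bf1e5_an.H.Defs
import Pool.Agent.Work.MP_6bf1e5_an.Ens.Planch

/-!
Fourier toolkit, part A: the classes RepA and RepH, multipliers. (Ens.ev F is 𝓕⁻ F and Ens.pd is pd, by rfl.)
-/

open scoped ContDiff ENNReal FourierTransform Real
open Set MeasureTheory

namespace Pool.Agent.Work.MP_6bf1e5_an.H

variable {f g : Sc} {F G : R3 → ℂ} {s s' : ℝ}

theorem FourA_norm (k : ℕ) (F : R3 → ℂ) (ξ : R3) :
    ‖(((1 + ‖ξ‖) ^ k : ℝ) : ℂ) * F ξ‖ = (1 + ‖ξ‖) ^ k * ‖F ξ‖ := by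
  rw [norm_mul, Complex.norm_real, Real.norm_of_nonneg (by positivity)]

theorem FourA_wt (k : ℕ) : Continuous fun ξ : R3 => (((1 + ‖ξ‖) ^ k : ℝ) : ℂ) := by fun_prop

theorem RepA.int (h : RepA f F) : Integrable F := by simpa using h.1 0

theorem RepA.intn (h : RepA f F) (n : ℕ) : Integrable fun ξ => ‖ξ‖ ^ n * ‖F ξ‖ := by
  refine (h.1 n).norm.mono' ((by fun_prop : Continuous fun ξ : R3 => ‖ξ‖ ^ n).aestronglyMeasurable.mul
    h.int.1.norm) (Filter.Eventually.of_forall fun ξ => ?_)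
  rw [FourA_norm, Real.norm_of_nonneg (by positivity)]
  gcongr
  linarith

theorem FourA_re (h : RepA f F) : f = fun x => (Ens.ev F x).re :=
  funext fun x => by rw [Ens.ev, ← h.2 x, Complex.ofReal_re]

theorem RepA.smooth (h : RepA f F) : ContDiff ℝ ∞ f := by
  rw [FourA_re h]
  exact Complex.reCLM.contDiff.comp (Ens.contDiff_ev h.int.1 h.intn)

theorem four_inj (hF : Integrable F) (hG : Integrable G) (h : ∀ x, 𝓕⁻ F x = 𝓕⁻ G x) :
    F =ᵐ[volume] G := by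
  apply ae_eq_of_integral_contDiff_smul_eq hF.locallyIntegrable hG.locallyIntegrable
  intro φ h1 h2
  have hg₁ : HasCompactSupport (Complex.ofRealCLM ∘ φ) := h2.comp_left rfl
  have hg₂ : ContDiff ℝ ∞ (Complex.ofRealCLM ∘ φ) := by fun_prop
  set ψ : SchwartzMap R3 ℂ := hg₁.toSchwartzMap hg₂ with hψ
  have e : ∀ x, Ens.ev (𝓕 ψ : SchwartzMap R3 ℂ) x = (φ x : ℂ) := fun x => by
    have : (𝓕⁻ (𝓕 ψ : SchwartzMap R3 ℂ) : SchwartzMap R3 ℂ) x = ψ x := by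
      rw [FourierTransform.fourierInv_fourier_eq]
    rw [SchwartzMap.fourierInv_coe] at this
    exact this
  have e1 := Ens.planch_fubini hF (𝓕 ψ : SchwartzMap R3 ℂ).integrable
  have e2 := Ens.planch_fubini hG (𝓕 ψ : SchwartzMap R3 ℂ).integrable
  simp only [e, Complex.coe_smul] at e1 e2
  rw [e1, e2]
  simp only [Ens.ev, h]

theorem RepA.unique (h : RepA f F) (h' : RepA f G) : F =ᵐ[volume] G :=
  four_inj h.int h'.int fun x => by rw [← h.2 x, ← h'.2 x]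

theorem RepA.bdd (h : RepA f F) (x : R3) : |f x| ≤ ∫ ξ, ‖F ξ‖ := by
  have := Ens.norm_ev_le F x
  rwa [Ens.ev, ← h.2 x, Complex.norm_real, Real.norm_eq_abs] at this

theorem RepA.cg (h : RepA f F) (e : F =ᵐ[volume] G) : RepA f G :=
  ⟨fun k => (h.1 k).congr (by filter_upwards [e] with ξ hξ; rw [hξ]),
    fun x => by rw [h.2 x, Real.fourierInv_congr_ae e]⟩

theorem RepA.ext (h : RepA f F) (h' : RepA g G) (e : F =ᵐ[volume] G) : f = g :=
  funext fun x => Complex.ofReal_injective (by rw [(h.cg e).2 x, h'.2 x])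

theorem four_zero : RepH (fun _ => 0) fun _ => 0 :=
  ⟨⟨fun k => by simp, fun x => by simp [Real.fourierInv_eq]⟩, fun k => by simp⟩

theorem RepA.add (h : RepA f F) (h' : RepA g G) : RepA (f + g) (F + G) :=
  ⟨fun k => ((h.1 k).add (h'.1 k)).congr (Filter.Eventually.of_forall fun ξ => by simp [mul_add]),
    fun x => by
      rw [Pi.add_apply, Complex.ofReal_add, h.2 x, h'.2 x]
      exact (Ens.ev_add h.int h'.int x).symm⟩

theorem RepA.smul (h : RepA f F) (c : ℝ) : RepA (fun y => c * f y) (fun ξ => c * F ξ) :=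
  ⟨fun k => ((h.1 k).const_mul (c : ℂ)).congr (Filter.Eventually.of_forall fun ξ => by
      simp only []; ring),
    fun x => by
      rw [Complex.ofReal_mul, h.2 x]
      exact (Ens.ev_const_mul c F x).symm⟩

theorem RepA.sub (h : RepA f F) (h' : RepA g G) :
    RepA (fun y => f y - g y) (fun ξ => F ξ - G ξ) :=
  ⟨fun k => ((h.1 k).sub (h'.1 k)).congr (Filter.Eventually.of_forall fun ξ => by simp [mul_sub]),
    fun x => by
      rw [Complex.ofReal_sub, h.2 x, h'.2 x]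
      exact (Ens.ev_sub h.int h'.int x).symm⟩

theorem RepA.fsum {ι : Type} (t : Finset ι) {f : ι → Sc} {F : ι → R3 → ℂ}
    (h : ∀ i ∈ t, RepA (f i) (F i)) :
    RepA (fun y => ∑ i ∈ t, f i y) (fun ξ => ∑ i ∈ t, F i ξ) :=
  ⟨fun k => by
      simp only [Finset.mul_sum]
      exact integrable_finsetSum t fun i hi => (h i hi).1 k,
    fun x => by
      rw [Complex.ofReal_sum, Finset.sum_congr rfl fun i hi => (h i hi).2 x]
      exact (Ens.ev_sum t (fun i hi => (h i hi).int) x).symm⟩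

/-- The transform of a real function is Hermitian. -/
theorem RepA.herm (h : RepA f F) : ∀ᵐ ξ, F (-ξ) = (starRingEnd ℂ) (F ξ) := by
  have hc : Integrable fun ξ => (starRingEnd ℂ) (F ξ) :=
    (Complex.conjCLE : ℂ →L[ℝ] ℂ).integrable_comp h.int
  refine four_inj h.int.comp_neg hc fun x => ?_
  have e1 : Ens.ev (fun ξ => F (-ξ)) x = Ens.ev F (-x) := by
    rw [Ens.ev_eq, Ens.ev_eq, ← integral_neg_eq_self]
    simp
  have e2 : Ens.ev (fun ξ => (starRingEnd ℂ) (F ξ)) x = (starRingEnd ℂ) (Ens.ev F (-x)) := by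
    rw [Ens.ev_eq, Ens.ev_eq, ← integral_conj]
    refine integral_congr_ae (Filter.Eventually.of_forall fun ξ => ?_)
    simp only [map_mul, ← Complex.exp_conj, Complex.conj_ofReal, Complex.conj_I,
      map_ofNat, PiLp.neg_apply, neg_mul, Finset.sum_neg_distrib, Complex.ofReal_neg, mul_neg, map_neg,
      neg_neg]
  change Ens.ev _ x = Ens.ev _ x
  rw [e1, e2, Ens.ev, ← h.2, Complex.conj_ofReal]

theorem four_real (h : ∀ᵐ ξ, F (-ξ) = (starRingEnd ℂ) (F ξ)) (x : R3) :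
    (((𝓕⁻ F x).re : ℝ) : ℂ) = 𝓕⁻ F x := by
  change (((Ens.ev F x).re : ℝ) : ℂ) = Ens.ev F x
  rw [← Complex.conj_eq_iff_re, Ens.ev_eq, ← integral_conj, ← integral_neg_eq_self]
  refine integral_congr_ae ?_
  filter_upwards [h] with ξ hξ
  simp only [map_mul, hξ, Complex.conj_conj, ← Complex.exp_conj, Complex.conj_ofReal, Complex.conj_I,
    map_ofNat, PiLp.neg_apply, neg_mul, Finset.sum_neg_distrib, Complex.ofReal_neg, mul_neg, map_neg,
    neg_neg]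

/-- Hermitian multipliers of polynomial growth. -/
structure Mult (m : R3 → ℂ) : Prop where
  meas : AEStronglyMeasurable m volume
  bd : ∃ C : ℝ, ∃ k : ℕ, ∀ ξ, ‖m ξ‖ ≤ C * (1 + ‖ξ‖) ^ k
  herm : ∀ ξ, m (-ξ) = (starRingEnd ℂ) (m ξ)

theorem FourA_le {m : R3 → ℂ} {C : ℝ} {n : ℕ} (hC : ∀ ξ, ‖m ξ‖ ≤ C * (1 + ‖ξ‖) ^ n) (k : ℕ) (ξ : R3) :
    ‖(((1 + ‖ξ‖) ^ k : ℝ) : ℂ) * (m ξ * F ξ)‖ ≤ C * ‖(((1 + ‖ξ‖) ^ (k + n) : ℝ) : ℂ) * F ξ‖ := by
  rw [FourA_norm k (fun ξ => m ξ * F ξ), FourA_norm, norm_mul, pow_add]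
  calc (1 + ‖ξ‖) ^ k * (‖m ξ‖ * ‖F ξ‖) ≤ (1 + ‖ξ‖) ^ k * (C * (1 + ‖ξ‖) ^ n * ‖F ξ‖) := by
        gcongr
        exact hC ξ
    _ = _ := by ring

theorem FourA_mom (h : RepA f F) {m : R3 → ℂ} (hm : Mult m) (k : ℕ) :
    Integrable fun ξ => (((1 + ‖ξ‖) ^ k : ℝ) : ℂ) * (m ξ * F ξ) := by
  obtain ⟨C, n, hC⟩ := hm.bd
  exact ((h.1 (k + n)).norm.const_mul C).mono'
    ((FourA_wt k).aestronglyMeasurable.mul (hm.meas.mul h.int.1))
    (Filter.Eventually.of_forall (FourA_le hC k))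

theorem RepA.mult (h : RepA f F) {m : R3 → ℂ} (hm : Mult m) :
    RepA (fun x => (𝓕⁻ (fun ξ => m ξ * F ξ) x).re) (fun ξ => m ξ * F ξ) :=
  ⟨FourA_mom h hm, four_real (by filter_upwards [h.herm] with ξ hξ; rw [hξ, hm.herm, map_mul])⟩

theorem RepH.of_mult (h : RepH f F) {m : R3 → ℂ} (hm : Mult m)
    (h' : RepA g fun ξ => m ξ * F ξ) : RepH g fun ξ => m ξ * F ξ := by
  obtain ⟨C, n, hC⟩ := hm.bd
  exact ⟨h', fun k => (h.2 (k + n)).of_le_mul (h'.1 k).1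
    (Filter.Eventually.of_forall (FourA_le hC k))⟩

theorem FourA_pd_mult (j : Fin 3) : Mult fun ξ : R3 => 2 * π * Complex.I * (ξ j : ℝ) where
  meas := (by fun_prop : Continuous fun ξ : R3 => 2 * π * Complex.I * (ξ j : ℝ)).aestronglyMeasurable
  bd := ⟨2 * π, 1, fun ξ => by
    have h1 := PiLp.norm_apply_le ξ j
    simp only [norm_mul, Complex.norm_I, Complex.norm_real, Complex.norm_ofNat, mul_one, pow_one,
      Real.norm_of_nonneg Real.pi_pos.le]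
    gcongr
    linarith⟩
  herm ξ := by simp [Complex.conj_ofReal, map_ofNat]

theorem RepA.pd (h : RepA f F) (j : Fin 3) :
    RepA (pd j f) (fun ξ => 2 * π * Complex.I * (ξ j : ℝ) * F ξ) :=
  ⟨FourA_mom h (FourA_pd_mult j), fun x =>
    (Ens.ev_coord h.int (by simpa using h.intn 1) (fun x => (h.2 x).symm) j x).symm⟩

theorem sy_norm (s : ℝ) (ξ : R3) : ‖sy s ξ‖ = (2 * π * ‖ξ‖) ^ s := by
  rw [sy, Complex.norm_real, Real.norm_of_nonneg (by positivity)]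

theorem sy_conj (s : ℝ) (ξ : R3) : (starRingEnd ℂ) (sy s ξ) = sy s ξ := Complex.conj_ofReal _

theorem sy_add (hs : 0 ≤ s) (hs' : 0 ≤ s') (ξ : R3) : sy (s + s') ξ = sy s ξ * sy s' ξ := by
  rw [sy, sy, sy, Real.rpow_add_of_nonneg (by positivity) hs hs', Complex.ofReal_mul]

theorem sy_zero (ξ : R3) : sy 0 ξ = 1 := by simp [sy]

theorem sy_two (ξ : R3) : sy 2 ξ = -∑ j, (2 * π * Complex.I * (ξ j : ℝ)) ^ 2 := by
  rw [sy, Real.rpow_two, mul_pow, EuclideanSpace.real_norm_sq_eq]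
  simp only [mul_pow, Complex.I_sq, Fin.sum_univ_three]
  push_cast
  ring

theorem sy_mult (hs : 0 ≤ s) : Mult (sy s) where
  meas := (Complex.continuous_ofReal.comp ((by fun_prop : Continuous fun ξ : R3 => 2 * π * ‖ξ‖).rpow_const
    fun _ => Or.inr hs)).aestronglyMeasurable
  bd := ⟨(2 * π) ^ s, ⌈s⌉₊, fun ξ => by
    rw [sy_norm, Real.mul_rpow (by positivity) (norm_nonneg _), ← Real.rpow_natCast]
    have h1 : (1 : ℝ) ≤ 1 + ‖ξ‖ := le_add_of_nonneg_right (norm_nonneg _)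
    gcongr
    exact (Real.rpow_le_rpow (norm_nonneg _) (by linarith) hs).trans
      (Real.rpow_le_rpow_of_exponent_le h1 (Nat.le_ceil s))⟩
  herm ξ := by rw [sy_conj, sy, sy, norm_neg]

theorem RepA.Dp_eq (h : RepA f F) (s : ℝ) (x : R3) :
    Dp s f x = (𝓕⁻ (fun ξ => sy s ξ * F ξ) x).re := by
  have h1 : ∃ F, RepA f F := ⟨F, h⟩
  rw [H.Dp, dif_pos h1, Real.fourierInv_congr_ae (f₂ := fun ξ => sy s ξ * F ξ)]
  filter_upwards [h1.choose_spec.unique h] with ξ hξ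
  rw [hξ]

theorem RepA.Dp (h : RepA f F) (hs : 0 ≤ s) : RepA (Dp s f) (fun ξ => sy s ξ * F ξ) := by
  rw [funext (h.Dp_eq s)]
  exact h.mult (sy_mult hs)

theorem RepH.mem (h : RepH f F) : MemLp F 2 volume := by simpa using h.2 0

theorem RepH.cg (h : RepH f F) (e : F =ᵐ[volume] G) : RepH f G :=
  ⟨h.1.cg e, fun k => (h.2 k).ae_eq (by filter_upwards [e] with ξ hξ; rw [hξ])⟩

theorem RepH.add (h : RepH f F) (h' : RepH g G) : RepH (f + g) (F + G) :=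
  ⟨h.1.add h'.1, fun k => ((h.2 k).add (h'.2 k)).ae_eq
    (Filter.Eventually.of_forall fun ξ => by simp [mul_add])⟩

theorem RepH.smul (h : RepH f F) (c : ℝ) : RepH (fun y => c * f y) (fun ξ => c * F ξ) :=
  ⟨h.1.smul c, fun k => ((h.2 k).const_mul (c : ℂ)).ae_eq
    (Filter.Eventually.of_forall fun ξ => by simp only []; ring)⟩

theorem RepH.sub (h : RepH f F) (h' : RepH g G) :
    RepH (fun y => f y - g y) (fun ξ => F ξ - G ξ) :=
  ⟨h.1.sub h'.1, fun k => ((h.2 k).sub (h'.2 k)).ae_eq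
    (Filter.Eventually.of_forall fun ξ => by simp [mul_sub])⟩

theorem RepH.fsum {ι : Type} (t : Finset ι) {f : ι → Sc} {F : ι → R3 → ℂ}
    (h : ∀ i ∈ t, RepH (f i) (F i)) :
    RepH (fun y => ∑ i ∈ t, f i y) (fun ξ => ∑ i ∈ t, F i ξ) :=
  ⟨RepA.fsum t fun i hi => (h i hi).1, fun k => by
    simp only [Finset.mul_sum]
    exact memLp_finsetSum t fun i hi => (h i hi).2 k⟩

theorem RepH.pd (h : RepH f F) (j : Fin 3) :
    RepH (pd j f) (fun ξ => 2 * π * Complex.I * (ξ j : ℝ) * F ξ) :=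
  h.of_mult (FourA_pd_mult j) (h.1.pd j)

theorem RepH.Dp (h : RepH f F) (hs : 0 ≤ s) : RepH (Dp s f) (fun ξ => sy s ξ * F ξ) :=
  h.of_mult (sy_mult hs) (h.1.Dp hs)

theorem RepH.lap (h : RepH f F) : RepH (lap f) (fun ξ => -(sy 2 ξ * F ξ)) :=
  (RepH.fsum Finset.univ fun j _ => (h.pd j).pd j).cg (Filter.Eventually.of_forall fun ξ => by
    simp only [sy_two, Fin.sum_univ_three]
    ring)

/-- Square integrable moments give integrable moments. -/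
theorem FourA_int (h : ∀ k : ℕ, MemLp (fun ξ => (((1 + ‖ξ‖) ^ k : ℝ) : ℂ) * F ξ) 2 volume)
    (k : ℕ) : Integrable fun ξ => (((1 + ‖ξ‖) ^ k : ℝ) : ℂ) * F ξ := by
  have h1 : Integrable fun ξ : R3 => (1 + ‖ξ‖) ^ (-4 : ℝ) :=
    integrable_one_add_norm (by rw [finrank_euclideanSpace_fin]; norm_num)
  have h2 := (memLp_two_iff_integrable_sq_norm (h (k + 2)).1).1 (h (k + 2))
  refine (h1.add h2).mono' (h k).1 (Filter.Eventually.of_forall fun ξ => ?_)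
  have hp : 0 < 1 + ‖ξ‖ := by positivity
  have e : (1 + ‖ξ‖) ^ (-4 : ℝ) = (((1 + ‖ξ‖) ^ 2)⁻¹) ^ 2 := by
    rw [Real.rpow_neg hp.le, inv_pow, ← pow_mul]
    norm_num
  rw [Pi.add_apply, FourA_norm, FourA_norm, e]
  have e2 : (1 + ‖ξ‖) ^ k * ‖F ξ‖ = ((1 + ‖ξ‖) ^ 2)⁻¹ * ((1 + ‖ξ‖) ^ (k + 2) * ‖F ξ‖) := by
    field_simp
    ring
  rw [e2]
  nlinarith [sq_nonneg (((1 + ‖ξ‖) ^ 2)⁻¹ - (1 + ‖ξ‖) ^ (k + 2) * ‖F ξ‖),
    sq_nonneg ((1 + ‖ξ‖) ^ 2)⁻¹, sq_nonneg ((1 + ‖ξ‖) ^ (k + 2) * ‖F ξ‖)]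

theorem repH_of_mem (h : ∀ k : ℕ, MemLp (fun ξ => (((1 + ‖ξ‖) ^ k : ℝ) : ℂ) * F ξ) 2 volume)
    (hf : ∀ x, (f x : ℂ) = 𝓕⁻ F x) : RepH f F := ⟨⟨FourA_int h, hf⟩, h⟩

theorem repH_of_sq (hm : AEStronglyMeasurable F volume)
    (h : ∀ k : ℕ, ∫⁻ ξ, ENNReal.ofReal ((1 + ‖ξ‖ ^ 2) ^ k) * ‖F ξ‖ₑ ^ 2 < ⊤)
    (hf : ∀ x, (f x : ℂ) = 𝓕⁻ F x) : RepH f F := by
  refine repH_of_mem (fun k => ?_) hf
  have hm' := (FourA_wt k).aestronglyMeasurable.mul hm
  refine (memLp_two_iff_integrable_sq_norm hm').2 ⟨hm'.norm.pow 2, ?_⟩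
  have h2 := ENNReal.mul_lt_top (ENNReal.ofReal_lt_top (r := 2 ^ k)) (h k)
  rw [← lintegral_const_mul' _ _ ENNReal.ofReal_ne_top] at h2
  refine lt_of_le_of_lt (lintegral_mono fun ξ => ?_) h2
  rw [← ofReal_norm, ← ofReal_norm, ← ENNReal.ofReal_pow (norm_nonneg _),
    ← ENNReal.ofReal_mul (by positivity), ← ENNReal.ofReal_mul (by positivity)]
  refine ENNReal.ofReal_le_ofReal ?_
  change ‖‖(((1 + ‖ξ‖) ^ k : ℝ) : ℂ) * F ξ‖ ^ 2‖ ≤ _
  rw [Real.norm_of_nonneg (by positivity), FourA_norm, mul_pow, ← mul_assoc, ← mul_pow 2, ← pow_mul,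
    mul_comm k 2, pow_mul]
  gcongr
  nlinarith [sq_nonneg (1 - ‖ξ‖)]

/-- Membership in the class on which the operators are defined. -/
def InA (f : Sc) : Prop := ∃ F, RepA f F

end Pool.Agent.Work.MP_6bf1e5_an.H
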