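import Pool.Agent.Work.MP_6bf1e5_an.H.FourA

/-!
Fourier toolkit, part B: Plancherel, and the identification of Hinf with RepH.
-/

open scoped ContDiff ENNReal FourierTransform Real
open Set MeasureTheory

namespace Pool.Agent.Work.MP_6bf1e5_an.H

variable {f g : Sc} {F G : R3 → ℂ} {s s' : ℝ}

theorem FourB_ae (h : RepA f F) (hF : MemLp F 2 volume) :
    ((𝓕⁻ (hF.toLp F) : Lp ℂ 2 (volume : Measure R3)) : R3 → ℂ) =ᵐ[volume] fun x => (f x : ℂ) := by
  rw [funext h.2]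
  exact Ens.planch_ae h.int hF

theorem parseval (h : RepA f F) (h' : RepA g G) (hF : MemLp F 2 volume) (hG : MemLp G 2 volume) :
    MemLp f 2 volume ∧ ∫ y, f y * g y = (∫ ξ, F ξ * (starRingEnd ℂ) (G ξ)).re := by
  refine ⟨by simpa using ((Lp.memLp _).ae_eq (FourB_ae h hF)).re, ?_⟩
  have e : inner ℂ (𝓕⁻ (hG.toLp G) : Lp ℂ 2 (volume : Measure R3)) (𝓕⁻ (hF.toLp F))
      = inner ℂ (hG.toLp G) (hF.toLp F) := (Lp.fourierTransformₗᵢ R3 ℂ).symm.inner_map_map _ _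
  rw [L2.inner_def, L2.inner_def] at e
  have e1 : ∫ a, inner ℂ ((hG.toLp G : R3 → ℂ) a) ((hF.toLp F : R3 → ℂ) a)
      = ∫ ξ, F ξ * (starRingEnd ℂ) (G ξ) := by
    apply integral_congr_ae
    filter_upwards [hF.coeFn_toLp, hG.coeFn_toLp] with ξ h1 h2
    rw [h1, h2, RCLike.inner_apply]
  rw [← e1, ← e, ← Complex.ofReal_re (∫ y, f y * g y), ← integral_complex_ofReal]
  congr 1
  apply integral_congr_ae
  filter_upwards [FourB_ae h hF, FourB_ae h' hG] with x h1 h2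
  rw [h1, h2, RCLike.inner_apply, Complex.conj_ofReal]
  exact Complex.ofReal_mul _ _

theorem FourB_flip {a b : R3 → ℂ} (ha : Integrable a) (hb : Integrable b) :
    ∫ x, 𝓕 a x • b x = ∫ x, a x • 𝓕 b x := by
  have h1 := VectorFourier.integral_fourierIntegral_smul_eq_flip (L := innerₗ R3)
    Real.continuous_fourierChar (continuous_inner (𝕜 := ℝ) (E := R3)) ha hb
  have h2 : (innerₗ R3).flip = innerₗ R3 := by
    ext x y
    simp
  rw [h2] at h1
  exact h1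

theorem FourB_test {φ : R3 → ℝ} (h1 : ContDiff ℝ ∞ φ) (h2 : HasCompactSupport φ) :
    ∃ ψ : SchwartzMap R3 ℂ, ∀ x, ψ x = (φ x : ℂ) := by
  have hg₁ : HasCompactSupport (Complex.ofRealCLM ∘ φ) := h2.comp_left rfl
  have hg₂ : ContDiff ℝ ∞ (Complex.ofRealCLM ∘ φ) := by fun_prop
  exact ⟨hg₁.toSchwartzMap hg₂, fun _ => rfl⟩

theorem FourB_eq (h : RepA f F) (hf : Integrable f) : F =ᵐ[volume] 𝓕 fun y => (f y : ℂ) := by
  have hc : Continuous (𝓕 fun y => (f y : ℂ)) :=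
    VectorFourier.fourierIntegral_continuous Real.continuous_fourierChar
      (innerSL ℝ).continuous₂ hf.ofReal
  apply ae_eq_of_integral_contDiff_smul_eq h.int.locallyIntegrable hc.locallyIntegrable
  intro φ h1 h2
  obtain ⟨ψ, hψ⟩ := FourB_test h1 h2
  have e : ∀ x, Ens.ev (𝓕 ψ : SchwartzMap R3 ℂ) x = (φ x : ℂ) := fun x => by
    have : (𝓕⁻ (𝓕 ψ : SchwartzMap R3 ℂ) : SchwartzMap R3 ℂ) x = ψ x := by
      rw [FourierTransform.fourierInv_fourier_eq]
    rw [SchwartzMap.fourierInv_coe, hψ] at this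
    exact this
  have e1 := Ens.planch_fubini h.int (𝓕 ψ : SchwartzMap R3 ℂ).integrable
  have e2 := FourB_flip ψ.integrable (hf.ofReal (𝕜 := ℂ))
  simp only [e, Complex.coe_smul] at e1
  simp only [hψ, Complex.coe_smul] at e2
  rw [e1]
  refine Eq.trans ?_ e2
  simp only [Ens.ev, ← h.2, SchwartzMap.fourier_coe]
  rfl

theorem parsevalA (h : RepA f F) (h' : RepA g G) (hf : Integrable f) :
    Integrable (fun ξ => F ξ * (starRingEnd ℂ) (G ξ)) ∧
      ∫ y, f y * g y = (∫ ξ, F ξ * (starRingEnd ℂ) (G ξ)).re := by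
  have hc : Integrable fun ξ => (starRingEnd ℂ) (G ξ) :=
    (Complex.conjCLE : ℂ →L[ℝ] ℂ).integrable_comp h'.int
  have hF := FourB_eq h hf
  refine ⟨hc.bdd_mul (c := ∫ y, ‖(f y : ℂ)‖) h.int.1 ?_, ?_⟩
  · filter_upwards [hF] with ξ hξ
    rw [hξ]
    exact VectorFourier.norm_fourierIntegral_le_integral_norm _ _ _ _ _
  have e : ∀ x, 𝓕 (fun ξ => (starRingEnd ℂ) (G ξ)) x = (g x : ℂ) := fun x => by
    have e0 := Ens.ev_neg (fun ξ => (starRingEnd ℂ) (G ξ)) (-x)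
    rw [neg_neg] at e0
    rw [← e0, ← Complex.conj_ofReal, h'.2 x]
    change _ = (starRingEnd ℂ) (Ens.ev G x)
    rw [Ens.ev_eq, Ens.ev_eq, ← integral_conj]
    refine integral_congr_ae (Filter.Eventually.of_forall fun ξ => ?_)
    simp only [map_mul, ← Complex.exp_conj, Complex.conj_ofReal, Complex.conj_I,
      map_ofNat, PiLp.neg_apply, neg_mul, Finset.sum_neg_distrib, Complex.ofReal_neg, mul_neg]
  have e2 := FourB_flip hc (hf.ofReal (𝕜 := ℂ))
  have e3 : ∫ ξ, F ξ * (starRingEnd ℂ) (G ξ) = ∫ x, (g x : ℂ) • (f x : ℂ) := by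
    simp only [e] at e2
    refine Eq.trans ?_ e2.symm
    apply integral_congr_ae
    filter_upwards [hF] with ξ hξ
    rw [hξ, smul_eq_mul, mul_comm]
    rfl
  rw [e3, ← Complex.ofReal_re (∫ y, f y * g y), ← integral_complex_ofReal]
  congr 1
  refine integral_congr_ae (Filter.Eventually.of_forall fun x => ?_)
  simp [mul_comm]

theorem RepH.isq (h : RepH f F) : Integrable fun ξ => ‖F ξ‖ ^ 2 :=
  (memLp_two_iff_integrable_sq_norm h.mem.1).1 h.mem

theorem RepH.sq (h : RepH f F) : ∫ y, f y ^ 2 = ∫ ξ, ‖F ξ‖ ^ 2 := by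
  have e := (parseval h.1 h.1 h.mem h.mem).2
  simp only [Complex.mul_conj, Complex.normSq_eq_norm_sq, ← pow_two] at e
  rw [e, integral_complex_ofReal, Complex.ofReal_re]

/-- The weighted form of Plancherel for a multiplier. -/
theorem RepH.sq_mul {m : R3 → ℂ} (h : RepH g fun ξ => m ξ * F ξ) :
    Integrable (fun ξ => ‖m ξ‖ ^ 2 * ‖F ξ‖ ^ 2) ∧
      ∫ y, g y ^ 2 = ∫ ξ, ‖m ξ‖ ^ 2 * ‖F ξ‖ ^ 2 := by
  have h1 := h.isq
  have h2 := h.sq
  simp only [norm_mul, mul_pow] at h1 h2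
  exact ⟨h1, h2⟩

theorem RepH.sq_Dp (h : RepH f F) (hs : 0 ≤ s) :
    Integrable (fun ξ => (2 * π * ‖ξ‖) ^ (2 * s) * ‖F ξ‖ ^ 2) ∧
      ∫ y, H.Dp s f y ^ 2 = ∫ ξ, (2 * π * ‖ξ‖) ^ (2 * s) * ‖F ξ‖ ^ 2 := by
  have e : ∀ ξ : R3, (2 * π * ‖ξ‖) ^ (2 * s) = ‖sy s ξ‖ ^ 2 := fun ξ => by
    rw [sy_norm, mul_comm 2 s, Real.rpow_mul (by positivity), Real.rpow_two]
  simp only [e]
  exact (h.Dp hs).sq_mul

theorem RepH.sq_grad (h : RepH f F) :
    Integrable (fun ξ => (2 * π * ‖ξ‖) ^ 2 * ‖F ξ‖ ^ 2) ∧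
      ∑ j, ∫ y, H.pd j f y ^ 2 = ∫ ξ, (2 * π * ‖ξ‖) ^ 2 * ‖F ξ‖ ^ 2 := by
  have e : ∀ ξ : R3, (2 * π * ‖ξ‖) ^ 2 * ‖F ξ‖ ^ 2
      = ∑ j, ‖2 * π * Complex.I * (ξ j : ℝ)‖ ^ 2 * ‖F ξ‖ ^ 2 := fun ξ => by
    rw [mul_pow, EuclideanSpace.real_norm_sq_eq]
    simp only [norm_mul, Complex.norm_I, Complex.norm_real, Complex.norm_ofNat, mul_one, mul_pow,
      Real.norm_eq_abs, sq_abs, Fin.sum_univ_three]
    ring
  simp only [e]
  have h1 := fun j => RepH.sq_mul (m := fun ξ : R3 => 2 * π * Complex.I * (ξ j : ℝ)) (h.pd j)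
  refine ⟨integrable_finsetSum _ fun j _ => (h1 j).1, ?_⟩
  rw [integral_finsetSum _ fun j _ => (h1 j).1]
  exact Finset.sum_congr rfl fun j _ => (h1 j).2

theorem FourB_coord (j : Fin 3) (ξ : R3) : ‖2 * π * Complex.I * (ξ j : ℝ)‖ = 2 * π * |ξ j| := by
  simp only [norm_mul, Complex.norm_I, Complex.norm_real, Complex.norm_ofNat, mul_one,
    Real.norm_eq_abs, abs_of_pos Real.pi_pos]

theorem RepH.pds (h : RepH f F) (l : List (Fin 3)) : ∃ G, RepH (pds l f) G ∧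
    ∀ ξ, ‖G ξ‖ ≤ (2 * π * (1 + ‖ξ‖)) ^ l.length * ‖F ξ‖ := by
  induction l with
  | nil => exact ⟨F, h, fun ξ => by simp⟩
  | cons j l ih =>
    obtain ⟨G, h1, h2⟩ := ih
    refine ⟨_, h1.pd j, fun ξ => ?_⟩
    have h3 : |ξ j| ≤ 1 + ‖ξ‖ := by
      have := PiLp.norm_apply_le ξ j
      rw [Real.norm_eq_abs] at this
      linarith
    rw [norm_mul, FourB_coord, List.length_cons, pow_succ', mul_assoc _ _ ‖F ξ‖]
    gcongr
    exact h2 ξ

theorem RepH.hinf (h : RepH f F) : Hinf f :=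
  ⟨h.1.smooth, fun l => by
    obtain ⟨G, h1, -⟩ := h.pds l
    exact (parseval h1.1 h1.1 h1.mem h1.mem).1⟩

/-- The transform in the space of square integrable functions. -/
noncomputable def FourB_T (h : MemLp f 2 volume) : R3 → ℂ :=
  (𝓕 ((h.ofReal (K := ℂ)).toLp _) : Lp ℂ 2 (volume : Measure R3))

theorem FourB_pair (h : MemLp f 2 volume) (ψ : SchwartzMap R3 ℂ) :
    ∫ x, ψ x * FourB_T h x = ∫ x, (𝓕 ψ : SchwartzMap R3 ℂ) x * f x := by
  have e1 := congrArg (fun T : TemperedDistribution R3 ℂ => T ψ)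
    (Lp.fourier_toTemperedDistribution_eq ((h.ofReal (K := ℂ)).toLp _))
  simp only [TemperedDistribution.fourier_apply, Lp.toTemperedDistribution_apply, smul_eq_mul] at e1
  rw [FourB_T, ← e1]
  apply integral_congr_ae
  filter_upwards [(h.ofReal (K := ℂ)).coeFn_toLp] with x hx
  rw [hx]
  rfl

open LineDeriv in
theorem FourB_pd (hf : ContDiff ℝ ∞ f) (h : MemLp f 2 volume) (j : Fin 3)
    (h' : MemLp (pd j f) 2 volume) :
    FourB_T h' =ᵐ[volume] fun ξ => 2 * π * Complex.I * (ξ j : ℝ) * FourB_T h ξ := by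
  have hl : ∀ {f : Sc} (h : MemLp f 2 volume), LocallyIntegrable (FourB_T h) volume :=
    fun h => (Lp.memLp _).locallyIntegrable (by norm_num)
  apply ae_eq_of_integral_contDiff_smul_eq (hl h') ((hl h).continuous_mul (by fun_prop))
  intro φ h1 h2
  obtain ⟨ψ, hψ⟩ := FourB_test h1 h2
  have ht : (inner ℝ · (EuclideanSpace.single j (1 : ℝ) : R3)).HasTemperateGrowth := by fun_prop
  have e1 := FourB_pair h' ψ
  have e2 := FourB_pair h (-(2 * π * Complex.I) •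
    SchwartzMap.smulLeftCLM ℂ (inner ℝ · (EuclideanSpace.single j (1 : ℝ) : R3)) ψ)
  rw [← SchwartzMap.lineDerivOp_fourier_eq] at e2
  have hd : Differentiable ℝ f := hf.differentiable (by simp)
  have hD : ∀ x, fderiv ℝ (fun y => (f y : ℂ)) x (EuclideanSpace.single j 1) = (pd j f x : ℝ) :=
    fun x => DFunLike.congr_fun (Complex.ofRealCLM.hasFDerivAt.comp x (hd x).hasFDerivAt).fderiv _
  have i1 : ∀ (a : SchwartzMap R3 ℂ) {g : Sc}, MemLp g 2 volume → Integrable fun x => a x * (g x : ℂ) :=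
    fun a g hg => MemLp.integrable_mul (a.memLp 2) (hg.ofReal (K := ℂ))
  have e3 := integral_mul_fderiv_eq_neg_fderiv_mul_of_integrable (μ := volume)
    (f := (𝓕 ψ : SchwartzMap R3 ℂ)) (g := fun y => (f y : ℂ)) (v := EuclideanSpace.single j 1)
    (i1 (∂_{(EuclideanSpace.single j (1 : ℝ) : R3)} (𝓕 ψ : SchwartzMap R3 ℂ)) h)
    (by simp only [hD]; exact i1 _ h') (i1 _ h) (fun x _ => SchwartzMap.differentiableAt _)
    (fun x _ => (Complex.ofRealCLM.hasFDerivAt.comp x (hd x).hasFDerivAt).differentiableAt)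
  simp only [hD] at e3
  simp only [hψ] at e1
  simp only [Complex.real_smul]
  rw [e1, e3]
  refine (congrArg Neg.neg e2.symm).trans ?_
  rw [← integral_neg]
  refine integral_congr_ae (Filter.Eventually.of_forall fun ξ => ?_)
  simp only [smul_apply, SchwartzMap.smulLeftCLM_apply_apply ht, hψ]
  simp [EuclideanSpace.inner_single_right]
  ring

theorem FourB_hpd (h : Hinf f) (j : Fin 3) : Hinf (pd j f) :=
  ⟨(h.1.fderiv_right (m := ∞) le_rfl).clm_apply contDiff_const, fun l => by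
    have := h.2 (l ++ [j])
    rwa [pds, List.foldr_append] at this⟩

theorem FourB_mem (h : Hinf f) : MemLp f 2 volume := h.2 []

theorem FourB_memT (h : MemLp f 2 volume) : MemLp (FourB_T h) 2 volume := Lp.memLp _

theorem FourB_mom (k : ℕ) : ∀ {f : Sc} (h : Hinf f),
    MemLp (fun ξ => (((1 + ‖ξ‖) ^ k : ℝ) : ℂ) * FourB_T (FourB_mem h) ξ) 2 volume := by
  induction k with
  | zero => exact fun h => by simpa using FourB_memT _
  | succ k ih =>
    intro f h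
    have h1 := (ih h).norm.add (memLp_finsetSum Finset.univ fun j _ => (ih (FourB_hpd h j)).norm)
    refine h1.mono' ((FourA_wt _).aestronglyMeasurable.mul (Lp.aestronglyMeasurable _)) ?_
    have h2 := ae_all_iff.2 fun j => FourB_pd h.1 (FourB_mem h) j (FourB_mem (FourB_hpd h j))
    filter_upwards [h2] with ξ hξ
    simp only [Pi.add_apply, FourA_norm]
    have h3 : ∀ j, |ξ j| * ‖FourB_T (FourB_mem h) ξ‖ ≤ ‖FourB_T (FourB_mem (FourB_hpd h j)) ξ‖ := fun j => by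
      refine le_trans ?_ (congrArg norm (hξ j)).ge
      rw [norm_mul, FourB_coord]
      exact mul_le_mul_of_nonneg_right (by nlinarith [Real.pi_gt_three, abs_nonneg (ξ j)])
        (norm_nonneg _)
    have h4 : ‖ξ‖ ≤ ∑ j, |ξ j| := by
      rw [EuclideanSpace.norm_eq, Real.sqrt_le_left (by positivity)]
      simp only [Fin.sum_univ_three, Real.norm_eq_abs]
      nlinarith [mul_nonneg (abs_nonneg (ξ 0)) (abs_nonneg (ξ 1)),
        mul_nonneg (abs_nonneg (ξ 0)) (abs_nonneg (ξ 2)), mul_nonneg (abs_nonneg (ξ 1)) (abs_nonneg (ξ 2))]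
    rw [← Finset.mul_sum, ← mul_add, pow_succ, mul_assoc]
    gcongr
    calc (1 + ‖ξ‖) * ‖FourB_T (FourB_mem h) ξ‖ ≤ (1 + ∑ j, |ξ j|) * ‖FourB_T (FourB_mem h) ξ‖ := by gcongr
      _ ≤ _ := by
        rw [add_mul, one_mul, Finset.sum_mul]
        gcongr with j
        exact h3 j

theorem Hinf.exists_rep (h : Hinf f) : ∃ F, RepH f F := by
  have hm := fun k => FourB_mom k h
  have hi : Integrable (FourB_T (FourB_mem h)) := by simpa using FourA_int hm 0
  refine ⟨_, repH_of_mem hm (congrFun ?_)⟩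
  have hc : Continuous fun x => (f x : ℂ) := Complex.continuous_ofReal.comp h.1.continuous
  refine (hc.ae_eq_iff_eq volume (Ens.planch_cont hi)).1 ?_
  have e := Ens.planch_ae hi (FourB_memT _)
  have e2 : (FourB_memT (FourB_mem h)).toLp _ = 𝓕 (((FourB_mem h).ofReal (K := ℂ)).toLp _) :=
    Lp.toLp_coeFn _ _
  rw [e2, FourierTransform.fourierInv_fourier_eq] at e
  exact (((FourB_mem h).ofReal (K := ℂ)).coeFn_toLp.symm).trans e

theorem Hinf.inA (h : Hinf f) : InA f := h.exists_rep.imp fun _ h => h.1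

theorem Hinf.Dp (h : Hinf f) (hs : 0 ≤ s) : Hinf (Dp s f) :=
  h.exists_rep.elim fun _ h => (h.Dp hs).hinf

theorem Hinf.bdd (h : Hinf f) : ∃ C, ∀ x, |f x| ≤ C :=
  h.exists_rep.elim fun _ h => ⟨_, h.1.bdd⟩

end Pool.Agent.Work.MP_6bf1e5_an.H
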