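import Pool.Agent.Work.MP_6bf1e5_an.H.FourA

/-!
Fourier toolkit, part C: algebra of the operators Dp.
Hints. Every identity is RepA.ext applied to two representations (RepA.Dp, RepA.add, RepA.smul, RepA.pd,
RepA.fsum) with a pointwise identity of symbols (sy_add, sy_two, ring).
RepA.scale: Ens.ev_scale with l = L⁻¹, Ens.ev_const_mul; moments by Integrable.comp_smul and
1 + |L η| ≤ (1 + L) (1 + |η|). sy s ξ = L ^ s * sy s (L⁻¹ • ξ) by Real.mul_rpow.
RepA.act: build a LinearIsometryEquiv A of R3 with A y = act M y (Matrix.toEuclideanLin, or a LinearMap with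
LinearMap.isometryOfInner and LinearIsometry.toLinearIsometryEquiv; inner (act M x) (act M y) = inner x y from
M.transpose * M = 1), then Real.fourierInv_comp_linearIsometry, A.measurePreserving, A.norm_map.
-/

open scoped ContDiff ENNReal FourierTransform Real
open Set MeasureTheory

namespace Pool.Agent.Work.MP_6bf1e5_an.H

variable {f g : Sc} {F G : R3 → ℂ} {s s' : ℝ}

theorem Dp_add (h : InA f) (h' : InA g) (hs : 0 ≤ s) : Dp s (f + g) = Dp s f + Dp s g := by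
  obtain ⟨F, hF⟩ := h
  obtain ⟨G, hG⟩ := h'
  refine ((hF.add hG).Dp hs).ext ((hF.Dp hs).add (hG.Dp hs)) (.of_forall fun ξ => ?_)
  simp only [Pi.add_apply]
  ring

theorem Dp_smul (h : InA f) (hs : 0 ≤ s) (c : ℝ) :
    Dp s (fun y => c * f y) = fun y => c * Dp s f y := by
  obtain ⟨F, hF⟩ := h
  refine ((hF.smul c).Dp hs).ext ((hF.Dp hs).smul c) (.of_forall fun ξ => ?_)
  simp only
  ring

theorem pd_Dp (h : InA f) (hs : 0 ≤ s) (j : Fin 3) : pd j (Dp s f) = Dp s (pd j f) := by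
  obtain ⟨F, hF⟩ := h
  refine ((hF.Dp hs).pd j).ext ((hF.pd j).Dp hs) (.of_forall fun ξ => ?_)
  simp only
  ring

theorem Dp_Dp (h : InA f) (hs : 0 ≤ s) (hs' : 0 ≤ s') : Dp s (Dp s' f) = Dp (s + s') f := by
  obtain ⟨F, hF⟩ := h
  refine ((hF.Dp hs').Dp hs).ext (hF.Dp (add_nonneg hs hs')) (.of_forall fun ξ => ?_)
  simp only
  rw [sy_add hs hs', mul_assoc]

theorem Dp_zero (h : InA f) : Dp 0 f = f := by
  obtain ⟨F, hF⟩ := h
  refine (hF.Dp le_rfl).ext hF (.of_forall fun ξ => ?_)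
  simp only
  rw [sy_zero, one_mul]

theorem Dp_two (h : InA f) : Dp 2 f = fun y => -lap f y := by
  obtain ⟨F, hF⟩ := h
  have h1 := (RepA.fsum Finset.univ fun j _ => (hF.pd j).pd j).smul (-1)
  have h2 := (hF.Dp zero_le_two).ext h1 (.of_forall fun ξ => by
    simp only
    rw [sy_two, Fin.sum_univ_three, Fin.sum_univ_three]
    push_cast
    ring)
  rw [h2]
  funext y
  rw [neg_one_mul]
  rfl

theorem RepA.scale (h : RepA f F) {L : ℝ} (hL : 0 < L) :
    RepA (fun y => f (L • y)) (fun ξ => (((L ^ 3)⁻¹ : ℝ) : ℂ) * F (L⁻¹ • ξ)) := by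
  have hL' : L⁻¹ ≠ 0 := inv_ne_zero hL.ne'
  refine ⟨fun k => ?_, fun x => ?_⟩
  · have h1 : Integrable fun ξ : R3 => (((1 + ‖L⁻¹ • ξ‖) ^ k : ℝ) : ℂ) * F (L⁻¹ • ξ) :=
      (h.1 k).comp_smul hL'
    have h2 : Integrable fun ξ : R3 => F (L⁻¹ • ξ) := h.int.comp_smul hL'
    refine (h1.norm.const_mul ((1 + L) ^ k * (L ^ 3)⁻¹)).mono' ?_ (.of_forall fun ξ => ?_)
    · refine AEStronglyMeasurable.mul (Continuous.aestronglyMeasurable (by fun_prop)) ?_
      exact h2.aestronglyMeasurable.const_mul _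
    · have h3 : 1 + ‖ξ‖ ≤ (1 + L) * (1 + ‖L⁻¹ • ξ‖) := by
        have h4 : ‖ξ‖ = L * ‖L⁻¹ • ξ‖ := by
          rw [norm_smul, Real.norm_eq_abs, abs_of_pos (inv_pos.2 hL), ← mul_assoc,
            mul_inv_cancel₀ hL.ne', one_mul]
        have h5 := norm_nonneg (L⁻¹ • ξ)
        nlinarith
      have h6 : (1 + ‖ξ‖) ^ k ≤ (1 + L) ^ k * (1 + ‖L⁻¹ • ξ‖) ^ k := by
        rw [← mul_pow]
        exact pow_le_pow_left₀ (by positivity) h3 k
      have h7 : 0 ≤ (L ^ 3)⁻¹ := by positivity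
      simp only [norm_mul, Complex.norm_real, Real.norm_eq_abs]
      rw [abs_of_nonneg (by positivity), abs_of_nonneg h7, abs_of_nonneg (by positivity)]
      calc (1 + ‖ξ‖) ^ k * ((L ^ 3)⁻¹ * ‖F (L⁻¹ • ξ)‖)
          ≤ (1 + L) ^ k * (1 + ‖L⁻¹ • ξ‖) ^ k * ((L ^ 3)⁻¹ * ‖F (L⁻¹ • ξ)‖) :=
            mul_le_mul_of_nonneg_right h6 (by positivity)
        _ = _ := by ring
  · have h1 := Ens.ev_const_mul (((L ^ 3)⁻¹ : ℝ) : ℂ) (fun ξ => F (L⁻¹ • ξ)) x
    have h2 := Ens.ev_scale F (inv_pos.2 hL) x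
    rw [h2, inv_inv, ← mul_assoc, ← Complex.ofReal_mul, inv_pow, inv_inv,
      inv_mul_cancel₀ (pow_pos hL 3).ne', Complex.ofReal_one, one_mul] at h1
    exact (h.2 (L • x)).trans h1.symm

theorem Dp_scale (h : InA f) (hs : 0 ≤ s) {L : ℝ} (hL : 0 < L) :
    Dp s (fun y => f (L • y)) = fun y => L ^ s * Dp s f (L • y) := by
  obtain ⟨F, hF⟩ := h
  refine ((hF.scale hL).Dp hs).ext (((hF.Dp hs).scale hL).smul (L ^ s)) (.of_forall fun ξ => ?_)
  have h1 : sy s ξ = ((L ^ s : ℝ) : ℂ) * sy s (L⁻¹ • ξ) := by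
    unfold sy
    rw [← Complex.ofReal_mul, ← Real.mul_rpow hL.le (by positivity), norm_smul, Real.norm_eq_abs,
      abs_of_pos (inv_pos.2 hL)]
    congr 2
    field_simp
  simp only
  rw [h1]
  ring

theorem four_iso {M : Matrix (Fin 3) (Fin 3) ℝ} (hM : M.transpose * M = 1) :
    ∃ A : R3 ≃ₗᵢ[ℝ] R3, ∀ y, A y = act M y := by
  let T : R3 →ₗ[ℝ] R3 := Matrix.toLpLin 2 2 M
  have hT : ∀ y, T y = act M y := fun y => rfl
  have hin : ∀ x y : R3, inner ℝ (T x) (T y) = inner ℝ x y := by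
    intro x y
    have h1 : ∀ a b : R3, inner ℝ a b = a.ofLp ⬝ᵥ b.ofLp := fun a b => Ens.ev_inner a b
    have h2 : ∀ a : R3, (T a).ofLp = M.mulVec a.ofLp := fun a => rfl
    rw [h1, h1, h2, h2, Matrix.dotProduct_mulVec, Matrix.vecMul_mulVec, hM, Matrix.vecMul_one]
  exact ⟨(T.isometryOfInner hin).toLinearIsometryEquiv rfl, fun y => hT y⟩

theorem RepA.act (h : RepA f F) {M : Matrix (Fin 3) (Fin 3) ℝ} (hM : M.transpose * M = 1) :
    RepA (fun y => f (act M y)) (fun ξ => F (act M ξ)) := by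
  obtain ⟨A, hA⟩ := four_iso hM
  simp only [← hA]
  refine ⟨fun k => ?_, fun x => ?_⟩
  · have h1 := (A.measurePreserving.integrable_comp_emb
      A.toHomeomorph.measurableEmbedding).2 (h.1 k)
    refine h1.congr (.of_forall fun ξ => ?_)
    simp only [Function.comp_apply, A.norm_map]
  · exact (h.2 (A x)).trans (Real.fourierInv_comp_linearIsometry A F x).symm

theorem Dp_act (h : InA f) (hs : 0 ≤ s) {M : Matrix (Fin 3) (Fin 3) ℝ} (hM : M.transpose * M = 1) :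
    Dp s (fun y => f (act M y)) = fun y => Dp s f (act M y) := by
  obtain ⟨F, hF⟩ := h
  obtain ⟨A, hA⟩ := four_iso hM
  refine ((hF.act hM).Dp hs).ext ((hF.Dp hs).act hM) (.of_forall fun ξ => ?_)
  simp only [sy, ← hA, A.norm_map]

end Pool.Agent.Work.MP_6bf1e5_an.H
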