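import Pool.Agent.Work.MP_6bf1e5_an.H.FourB
import Pool.Agent.Work.MP_6bf1e5_an.H.FourC

/-!
Fourier toolkit, part D: quadratic identities.
Hints. Take Hinf.exists_rep, then parseval (with RepH.mem, RepH.Dp, RepH.lap) or RepH.sq_Dp, RepH.sq_mul,
RepH.sq_grad, and compare symbols pointwise (sy_conj, sy_add, sy_norm, EuclideanSpace.real_norm_sq_eq).
interp_quarter: with r = 2 π |ξ|, r ^ (1 / 2) ≤ e ^ 3 r ^ 2 + 1 / e (put r = q ^ 2, cases q ≤ 1 / e or not).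
four_div: dvg u = 0 has the representations four_zero and RepA.fsum of RepA.pd, so RepA.unique.
Dp_grad_eq_curl: Lagrange identity ∑ i j |ξ j|² |U i|² = |ξ × U|² + |ξ·U|² for real ξ, complex U (write norms
with Complex.sq_norm, Complex.normSq_apply; Fin.sum_univ_three); curl u i is a RepH.sub of RepH.pd.
gw_eq_curl: the case s = 0 with Dp_zero and integral_finsetSum (squares of Hinf functions are integrable:
MemLp.integrable_sq of the second component at the empty list).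
-/

open scoped ContDiff ENNReal FourierTransform Real
open Set MeasureTheory

namespace Pool.Agent.Work.MP_6bf1e5_an.H

variable {f g : Sc} {F G : R3 → ℂ} {s s' : ℝ}

theorem FourD_quarter {r e : ℝ} (hr : 0 ≤ r) (he : 0 < e) :
    r ^ (2 * (1 / 4 : ℝ)) ≤ e ^ 3 * r ^ 2 + 1 / e := by
  have e1 : r ^ (2 * (1 / 4 : ℝ)) = √r := by
    rw [Real.sqrt_eq_rpow]; norm_num
  rw [e1]
  set q := √r with hq
  have hq0 : 0 ≤ q := Real.sqrt_nonneg r
  have hrq : r = q ^ 2 := (Real.sq_sqrt hr).symm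
  rw [hrq]
  have hie : 0 < 1 / e := by positivity
  by_cases hc : q ≤ 1 / e
  · have : 0 ≤ e ^ 3 * (q ^ 2) ^ 2 := by positivity
    linarith
  · push Not at hc
    have h1 : 1 ≤ e * q := by
      rw [div_lt_iff₀ he] at hc
      linarith
    have h3 : 1 ≤ (e * q) ^ 3 := one_le_pow₀ h1
    have h4 : q ≤ e ^ 3 * (q ^ 2) ^ 2 := by
      calc q = q * 1 := (mul_one q).symm
        _ ≤ q * (e * q) ^ 3 := mul_le_mul_of_nonneg_left h3 hq0
        _ = e ^ 3 * (q ^ 2) ^ 2 := by ring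
    linarith

theorem FourD_lagr (ξ : R3) (U : Fin 3 → ℂ) (h : ∑ i, ((ξ i : ℝ) : ℂ) * U i = 0) :
    ∑ i, ∑ j, ‖2 * π * Complex.I * (ξ j : ℝ) * U i‖ ^ 2 =
      ∑ i : Fin 3, ‖2 * π * Complex.I * (ξ (i + 1) : ℝ) * U (i + 2)
        - 2 * π * Complex.I * (ξ (i + 2) : ℝ) * U (i + 1)‖ ^ 2 := by
  have hre := congrArg Complex.re h
  have him := congrArg Complex.im h
  simp only [Fin.sum_univ_three, Complex.add_re, Complex.add_im, Complex.mul_re, Complex.mul_im,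
    Complex.ofReal_re, Complex.ofReal_im, Complex.zero_re, Complex.zero_im, zero_mul, sub_zero,
    add_zero] at hre him
  have a01 : ((0 : Fin 3) + 1) = 1 := rfl
  have a02 : ((0 : Fin 3) + 2) = 2 := rfl
  have a11 : ((1 : Fin 3) + 1) = 2 := rfl
  have a12 : ((1 : Fin 3) + 2) = 0 := rfl
  have a21 : ((2 : Fin 3) + 1) = 0 := rfl
  have a22 : ((2 : Fin 3) + 2) = 1 := rfl
  simp only [Fin.sum_univ_three, a01, a02, a11, a12, a21, a22, Complex.sq_norm,
    Complex.normSq_apply, Complex.sub_re, Complex.sub_im, Complex.mul_re, Complex.mul_im,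
    Complex.ofReal_re, Complex.ofReal_im, Complex.I_re, Complex.I_im, Complex.re_ofNat,
    Complex.im_ofNat]
  linear_combination (4 * π ^ 2 * (ξ 0 * (U 0).re + ξ 1 * (U 1).re + ξ 2 * (U 2).re)) * hre
    + (4 * π ^ 2 * (ξ 0 * (U 0).im + ξ 1 * (U 1).im + ξ 2 * (U 2).im)) * him

theorem Dp_symm (h : Hinf f) (h' : Hinf g) (hs : 0 ≤ s) :
    ∫ y, Dp s f y * g y = ∫ y, f y * Dp s g y := by
  obtain ⟨F, hF⟩ := h.exists_rep
  obtain ⟨G, hG⟩ := h'.exists_rep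
  rw [(parseval (hF.Dp hs).1 hG.1 (hF.Dp hs).mem hG.mem).2,
    (parseval hF.1 (hG.Dp hs).1 hF.mem (hG.Dp hs).mem).2]
  congr 1
  refine integral_congr_ae (Filter.Eventually.of_forall fun ξ => ?_)
  simp only [map_mul, sy_conj]
  ring
theorem Dp_sq (h : Hinf f) (hs : 0 ≤ s) : ∫ y, Dp (2 * s) f y * f y = ∫ y, Dp s f y ^ 2 := by
  have e : Dp (2 * s) f = Dp s (Dp s f) := by rw [Dp_Dp h.inA hs hs, two_mul]
  rw [e, Dp_symm (h.Dp hs) h hs]
  simp only [sq]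
theorem sum_Dp_pd_sq (h : Hinf f) (hs : 0 ≤ s) :
    ∑ j, ∫ y, Dp s (pd j f) y ^ 2 = ∫ y, Dp (s + 1) f y ^ 2 := by
  obtain ⟨F, hF⟩ := h.exists_rep
  have e : ∀ j, Dp s (pd j f) = pd j (Dp s f) := fun j => (pd_Dp h.inA hs j).symm
  simp only [e]
  rw [(hF.Dp hs).sq_grad.2, (hF.sq_Dp (s := s + 1) (by linarith)).2]
  refine integral_congr_ae (Filter.Eventually.of_forall fun ξ => ?_)
  have hr : 0 ≤ 2 * π * ‖ξ‖ := by positivity
  simp only [norm_mul, sy_norm]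
  have e2 : (2 * π * ‖ξ‖) ^ (2 * (s + 1)) = ((2 * π * ‖ξ‖) ^ s) ^ 2 * (2 * π * ‖ξ‖) ^ 2 := by
    rw [show 2 * (s + 1) = s * 2 + 2 by ring, Real.rpow_add' hr (by linarith), Real.rpow_mul hr]
    norm_num
  rw [e2]
  ring
theorem interp_quarter (h : Hinf f) {e : ℝ} (he : 0 < e) :
    ∫ y, Dp (1 / 4) f y ^ 2 ≤ e ^ 3 * (∑ j, ∫ y, pd j f y ^ 2) + (∫ y, f y ^ 2) / e := by
  obtain ⟨F, hF⟩ := h.exists_rep
  obtain ⟨i1, e1⟩ := hF.sq_Dp (s := 1 / 4) (by norm_num)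
  obtain ⟨i2, e2⟩ := hF.sq_grad
  rw [e1, e2, hF.sq, ← integral_const_mul, ← integral_div,
    ← integral_add (i2.const_mul _) (hF.isq.div_const _)]
  refine integral_mono i1 ((i2.const_mul _).add (hF.isq.div_const _)) fun ξ => ?_
  have hr : 0 ≤ 2 * π * ‖ξ‖ := by positivity
  have := mul_le_mul_of_nonneg_right (FourD_quarter hr he) (sq_nonneg ‖F ξ‖)
  calc _ ≤ _ := this
    _ = _ := by ring
theorem dual_quarter (h : Hinf f) (h' : Hinf g) :
    -∫ y, f y * lap g y = ∫ y, Dp (1 / 4) f y * Dp (7 / 4) g y := by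
  have e : Dp (1 / 4) (Dp (7 / 4) g) = fun y => -lap g y := by
    rw [Dp_Dp h'.inA (by norm_num) (by norm_num), ← Dp_two h'.inA]
    norm_num
  rw [Dp_symm h (h'.Dp (by norm_num)) (by norm_num), e, ← integral_neg]
  simp only [mul_neg]
theorem four_div {u : Vc} {U : Fin 3 → R3 → ℂ} (h : ∀ i, RepA (u i) (U i)) (hd : ∀ y, dvg u y = 0) :
    ∀ᵐ ξ : R3, ∑ i, ((ξ i : ℝ) : ℂ) * U i ξ = 0 := by
  have h1 : RepA (fun y => ∑ i ∈ Finset.univ, pd i (u i) y)
      (fun ξ => ∑ i ∈ Finset.univ, 2 * π * Complex.I * (ξ i : ℝ) * U i ξ) :=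
    RepA.fsum Finset.univ (f := fun i => pd i (u i))
      (F := fun i ξ => 2 * π * Complex.I * (ξ i : ℝ) * U i ξ) fun i _ => (h i).pd i
  have e : (fun y => ∑ i ∈ Finset.univ, pd i (u i) y) = fun _ => 0 := funext hd
  rw [e] at h1
  filter_upwards [h1.unique four_zero.1] with ξ hξ
  have hc : (2 * π * Complex.I : ℂ) ≠ 0 := Complex.two_pi_I_ne_zero
  refine mul_left_cancel₀ hc ?_
  rw [mul_zero, Finset.mul_sum, ← hξ]
  exact Finset.sum_congr rfl fun i _ => by ring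
theorem Dp_grad_eq_curl {u : Vc} (h : ∀ i, Hinf (u i)) (hd : ∀ y, dvg u y = 0) (hs : 0 ≤ s) :
    ∑ i, ∑ j, ∫ y, Dp s (pd j (u i)) y ^ 2 = ∑ i, ∫ y, Dp s (curl u i) y ^ 2 := by
  choose U hU using fun i => (h i).exists_rep
  have hc : ∀ i : Fin 3, RepH (curl u i) (fun ξ =>
      2 * π * Complex.I * (ξ (i + 1) : ℝ) * U (i + 2) ξ
        - 2 * π * Complex.I * (ξ (i + 2) : ℝ) * U (i + 1) ξ) :=
    fun i => ((hU (i + 2)).pd (i + 1)).sub ((hU (i + 1)).pd (i + 2))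
  have h1 := fun i j => ((hU i).pd j).sq_Dp hs
  have h2 := fun i => (hc i).sq_Dp hs
  simp only [fun i j => (h1 i j).2, fun i => (h2 i).2]
  have e1 : ∀ i, ∑ j, ∫ ξ : R3, (2 * π * ‖ξ‖) ^ (2 * s) * ‖2 * π * Complex.I * (ξ j : ℝ) * U i ξ‖ ^ 2
      = ∫ ξ : R3, ∑ j, (2 * π * ‖ξ‖) ^ (2 * s) * ‖2 * π * Complex.I * (ξ j : ℝ) * U i ξ‖ ^ 2 :=
    fun i => (integral_finsetSum _ fun j _ => (h1 i j).1).symm
  simp only [e1]
  rw [← integral_finsetSum _ fun i _ => integrable_finsetSum _ fun j _ => (h1 i j).1,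
    ← integral_finsetSum _ fun i _ => (h2 i).1]
  refine integral_congr_ae ?_
  filter_upwards [four_div (fun i => (hU i).1) hd] with ξ hξ
  simp only [← Finset.mul_sum]
  rw [FourD_lagr ξ (fun i => U i ξ) hξ]
theorem gw_eq_curl {u : Vc} (h : ∀ i, Hinf (u i)) (hd : ∀ y, dvg u y = 0) :
    gw 1 u = nw 1 (curl u) := by
  have key := Dp_grad_eq_curl (s := 0) h hd le_rfl
  choose U hU using fun i => (h i).exists_rep
  have hp : ∀ i j, Hinf (pd j (u i)) := fun i j => ((hU i).pd j).hinf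
  have hc : ∀ i : Fin 3, Hinf (curl u i) :=
    fun i => (((hU (i + 2)).pd (i + 1)).sub ((hU (i + 1)).pd (i + 2))).hinf
  have hq : ∀ {f : Sc}, Hinf f → Integrable fun y => f y ^ 2 := fun hf => (hf.2 []).integrable_sq
  simp only [fun i j => Dp_zero (hp i j).inA, fun i => Dp_zero (hc i).inA] at key
  unfold gw nw dot
  simp only [Pi.one_apply, one_mul, ← sq]
  rw [integral_finsetSum _ fun i _ => integrable_finsetSum _ fun j _ => hq (hp i j),
    integral_finsetSum _ fun i _ => hq (hc i), ← key]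
  exact Finset.sum_congr rfl fun i _ => integral_finsetSum _ fun j _ => hq (hp i j)

end Pool.Agent.Work.MP_6bf1e5_an.H
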