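import Pool.Agent.Work.MP_6bf1e5_an.H.FourB

/-!
Fourier toolkit, part E: pointwise bounds by Cauchy-Schwarz in the frequency variable.
Hints. four_cs: |f x| ≤ ∫ |F| (RepA.bdd) and, for each t > 0, |F| ≤ (t w |F|² + 1 / (t w)) / 2 where w > 0; optimise
in t (or integral_mul_le_Lp_mul_Lq, or discriminant: discrim_le_zero).
four_rad: polar coordinates, MeasureTheory.integral_fun_norm_addHaar and integrable_fun_norm_addHaar (or
integrableOn_fun_norm_addHaar), EuclideanSpace.volume_ball_fin_three; then the substitution r = 2 π ρ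
(integral_comp_mul_left_Ioi). The factor is 4 π / (2 π) ^ 3 = 1 / (2 π ^ 2) ≤ 1 / 19 (Real.pi_gt_d2).
sup_bound: w = a r ^ 2 + b r ^ (7 / 2), r ^ 2 / w = 1 / (a + b r ^ (3 / 2)) ≤ 1 / a on (0, k ^ 2], ≤ r ^ (-3 / 2) / b
beyond (integral_Ioi_rpow_of_lt). sup_bound2: w = k r ^ 2 + r ^ 4 / k, split at r = k; RepH.lap, RepH.sq.
low_high: m = indicator of 2 π |ξ| ≤ 1 is a Mult; f1 from RepA.mult and RepH.of_mult, f2 = f - f1 (RepH.sub);
for f1 use ∫ |m F| ≤ Cauchy-Schwarz with r ^ (-2) on the ball (for instance four_cs for m F with the weight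
w = r ^ 2 + r ^ 4, since w |m F|² ≤ 2 r² |F|² and ∫ 1 / (1 + r²) dr ≤ 2); for f2 use |(1 - m) F|² ≤ r² |F|².
-/

open scoped ContDiff ENNReal FourierTransform Real
open Set MeasureTheory

namespace Pool.Agent.Work.MP_6bf1e5_an.H

variable {f g : Sc} {F G : R3 → ℂ} {s s' : ℝ}

theorem four_cs (h : RepA f F) {w : R3 → ℝ} (hw : ∀ᵐ ξ, 0 < w ξ) (h1 : Integrable fun ξ => (w ξ)⁻¹)
    (h2 : Integrable fun ξ => w ξ * ‖F ξ‖ ^ 2) (x : R3) :
    f x ^ 2 ≤ (∫ ξ, (w ξ)⁻¹) * ∫ ξ, w ξ * ‖F ξ‖ ^ 2 := by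
  have h3 := h.int.norm
  have h4 : ∀ t : ℝ, 0 ≤ (∫ ξ, (w ξ)⁻¹) * (t * t) + (-2 * ∫ ξ, ‖F ξ‖) * t +
      ∫ ξ, w ξ * ‖F ξ‖ ^ 2 := fun t => by
    have i1 := h1.mul_const (t * t)
    have i2 := (h3.const_mul (-2)).mul_const t
    have i3 : Integrable fun ξ => (w ξ)⁻¹ * (t * t) + -2 * ‖F ξ‖ * t := i1.add i2
    rw [← integral_mul_const, ← integral_const_mul, ← integral_mul_const, ← integral_add i1 i2,
      ← integral_add i3 h2]
    refine integral_nonneg_of_ae (hw.mono fun ξ hξ => ?_)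
    have e : (w ξ)⁻¹ * (t * t) + -2 * ‖F ξ‖ * t + w ξ * ‖F ξ‖ ^ 2 =
        (t - w ξ * ‖F ξ‖) ^ 2 / w ξ := by
      field_simp
      ring
    show 0 ≤ (w ξ)⁻¹ * (t * t) + -2 * ‖F ξ‖ * t + w ξ * ‖F ξ‖ ^ 2
    rw [e]
    positivity
  have h5 := discrim_le_zero h4
  rw [discrim] at h5
  have h6 := pow_le_pow_left₀ (abs_nonneg _) (h.bdd x) 2
  rw [sq_abs] at h6
  linarith

theorem four_rad {φ : ℝ → ℝ} (h : IntegrableOn (fun r => r ^ 2 * φ r) (Ioi 0)) :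
    Integrable (fun ξ : R3 => φ (2 * π * ‖ξ‖)) ∧
      ∫ ξ : R3, φ (2 * π * ‖ξ‖) = 1 / (2 * π ^ 2) * ∫ r in Ioi 0, r ^ 2 * φ r := by
  have hp : 0 < 2 * π := Real.two_pi_pos
  have hπ := Real.pi_pos
  have hd : Module.finrank ℝ R3 = 3 := by simp
  have e : ∀ y : ℝ, y ^ (3 - 1) • φ (2 * π * y) =
      ((2 * π) ^ 2)⁻¹ * ((2 * π * y) ^ 2 * φ (2 * π * y)) := fun y => by
    rw [smul_eq_mul]
    field_simp
  constructor
  · rw [integrable_fun_norm_addHaar (μ := volume) (f := fun y => φ (2 * π * y)), hd]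
    simp only [e]
    refine Integrable.const_mul ?_ _
    exact (integrableOn_Ioi_comp_mul_left_iff (fun r => r ^ 2 * φ r) 0 hp).2 (by simpa using h)
  · rw [integral_fun_norm_addHaar volume (fun y => φ (2 * π * y)), hd]
    simp only [e]
    rw [integral_const_mul, integral_comp_mul_left_Ioi (fun r => r ^ 2 * φ r) 0 hp, mul_zero,
      Measure.real, EuclideanSpace.volume_ball_fin_three, ENNReal.toReal_mul, ENNReal.toReal_pow,
      ENNReal.toReal_ofReal zero_le_one, ENNReal.toReal_ofReal (by positivity)]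
    simp only [smul_eq_mul, nsmul_eq_mul]
    field_simp
    norm_num

theorem FourE_split {W : ℝ → ℝ} {c A B p : ℝ} (hW : Measurable W) (h0 : ∀ r, 0 < r → 0 < W r)
    (hc : 0 < c) (hp : p < -1) (h1 : ∀ r, 0 < r → r ≤ c → r ^ 2 * (W r)⁻¹ ≤ A)
    (h2 : ∀ r, c < r → r ^ 2 * (W r)⁻¹ ≤ B * r ^ p) :
    IntegrableOn (fun r => r ^ 2 * (W r)⁻¹) (Ioi 0) ∧
      ∫ r in Ioi 0, r ^ 2 * (W r)⁻¹ ≤ c * A + B * (-c ^ (p + 1) / (p + 1)) := by
  have hm : Measurable fun r => r ^ 2 * (W r)⁻¹ := by fun_prop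
  have hn : ∀ r, 0 < r → ‖r ^ 2 * (W r)⁻¹‖ = r ^ 2 * (W r)⁻¹ := fun r hr => by
    have := h0 r hr
    exact Real.norm_of_nonneg (by positivity)
  have c1 : IntegrableOn (fun _ : ℝ => A) (Ioc 0 c) := integrableOn_const (by simp)
  have c2 : IntegrableOn (fun r : ℝ => B * r ^ p) (Ioi c) :=
    (integrableOn_Ioi_rpow_of_lt hp hc).const_mul B
  have i1 : IntegrableOn (fun r => r ^ 2 * (W r)⁻¹) (Ioc 0 c) :=
    c1.mono' hm.aestronglyMeasurable ((ae_restrict_mem measurableSet_Ioc).mono fun r hr => by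
      rw [hn r hr.1]; exact h1 r hr.1 hr.2)
  have i2 : IntegrableOn (fun r => r ^ 2 * (W r)⁻¹) (Ioi c) :=
    c2.mono' hm.aestronglyMeasurable ((ae_restrict_mem measurableSet_Ioi).mono fun r hr => by
      rw [hn r (hc.trans hr)]; exact h2 r hr)
  rw [← Ioc_union_Ioi_eq_Ioi hc.le]
  refine ⟨i1.union i2, ?_⟩
  rw [setIntegral_union (Ioc_disjoint_Ioi le_rfl) measurableSet_Ioi i1 i2]
  have a1 := setIntegral_mono_on i1 c1 measurableSet_Ioc fun r hr => h1 r hr.1 hr.2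
  have a2 := setIntegral_mono_on i2 c2 measurableSet_Ioi fun r hr => h2 r hr
  rw [integral_const_mul, integral_Ioi_rpow_of_lt hp hc] at a2
  rw [setIntegral_const, Real.volume_real_Ioc_of_le hc.le, sub_zero, smul_eq_mul] at a1
  linarith

theorem FourE_main (h : RepA f F) {W : ℝ → ℝ} {I : ℝ} (h0 : ∀ r, 0 < r → 0 < W r)
    (h1 : IntegrableOn (fun r => r ^ 2 * (W r)⁻¹) (Ioi 0) ∧ ∫ r in Ioi 0, r ^ 2 * (W r)⁻¹ ≤ I)
    (h2 : Integrable fun ξ => W (2 * π * ‖ξ‖) * ‖F ξ‖ ^ 2) (x : R3) :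
    f x ^ 2 ≤ I / 19 * ∫ ξ, W (2 * π * ‖ξ‖) * ‖F ξ‖ ^ 2 := by
  have hπ := Real.pi_gt_d2
  have hw : ∀ᵐ ξ : R3, 0 < W (2 * π * ‖ξ‖) := by
    filter_upwards [compl_mem_ae_iff.2 (measure_singleton (0 : R3))] with ξ hξ
    have : 0 < ‖ξ‖ := norm_pos_iff.2 hξ
    exact h0 _ (by positivity)
  obtain ⟨a1, a2⟩ := four_rad (φ := fun r => (W r)⁻¹) h1.1
  refine (four_cs h hw a1 h2 x).trans (mul_le_mul_of_nonneg_right ?_
    (integral_nonneg_of_ae (hw.mono fun ξ hξ => mul_nonneg hξ.le (sq_nonneg _))))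
  rw [a2]
  have a3 : 0 ≤ ∫ r in Ioi (0 : ℝ), r ^ 2 * (W r)⁻¹ :=
    setIntegral_nonneg measurableSet_Ioi fun r hr => by
      have := h0 r hr
      positivity
  have a4 : 1 / (2 * π ^ 2) ≤ 1 / 19 := one_div_le_one_div_of_le (by norm_num) (by nlinarith)
  have a5 := mul_le_mul_of_nonneg_right a4 a3
  linarith [h1.2]

theorem sup_bound (h : Hinf f) {a b k : ℝ} (ha : 0 < a) (hb : 0 < b) (hk : 0 < k) (x : R3) :
    f x ^ 2 ≤ (k ^ 2 / a + 2 / (b * k)) / 19 *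
      (a * (∑ j, ∫ y, pd j f y ^ 2) + b * ∫ y, Dp (7 / 4) f y ^ 2) := by
  obtain ⟨F, hF⟩ := h.exists_rep
  obtain ⟨g1, g2⟩ := hF.sq_grad
  obtain ⟨d1, d2⟩ := hF.sq_Dp (s := 7 / 4) (by norm_num)
  have h0 : ∀ r : ℝ, 0 < r → 0 < a * r ^ 2 + b * r ^ (2 * (7 / 4) : ℝ) := fun r hr => by positivity
  have i1 := g1.const_mul a
  have i2 := d1.const_mul b
  have e : ∀ ξ : R3, (a * (2 * π * ‖ξ‖) ^ 2 + b * (2 * π * ‖ξ‖) ^ (2 * (7 / 4) : ℝ)) * ‖F ξ‖ ^ 2 =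
      a * ((2 * π * ‖ξ‖) ^ 2 * ‖F ξ‖ ^ 2) +
        b * ((2 * π * ‖ξ‖) ^ (2 * (7 / 4) : ℝ) * ‖F ξ‖ ^ 2) := fun ξ => by ring
  have m := FourE_main hF.1 (W := fun r => a * r ^ 2 + b * r ^ (2 * (7 / 4) : ℝ)) h0
    (FourE_split (c := k ^ 2) (A := a⁻¹) (B := b⁻¹) (p := -(3 / 2)) (by fun_prop) h0
      (by positivity) (by norm_num) (fun r hr _ => by
        have : 0 ≤ b * r ^ (2 * (7 / 4) : ℝ) := by positivity
        rw [← div_eq_mul_inv, div_le_iff₀ (h0 r hr), mul_add, inv_mul_cancel_left₀ ha.ne']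
        have := mul_nonneg (inv_pos.2 ha).le this
        linarith)
      (fun r hr => by
        have r0 : 0 < r := lt_trans (by positivity) hr
        have e1 : r ^ (-(3 / 2) : ℝ) * r ^ (2 * (7 / 4) : ℝ) = r ^ 2 := by
          rw [← Real.rpow_add r0, ← Real.rpow_natCast]
          norm_num
        have e2 : b⁻¹ * r ^ (-(3 / 2) : ℝ) * (b * r ^ (2 * (7 / 4) : ℝ)) = r ^ 2 := by
          rw [← e1]
          field_simp
        have : 0 ≤ b⁻¹ * r ^ (-(3 / 2) : ℝ) * (a * r ^ 2) := by positivity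
        rw [← div_eq_mul_inv, div_le_iff₀ (h0 r r0), mul_add, e2]
        linarith))
    (by
      simp only [e]
      exact i1.add i2) x
  simp only [e] at m
  rw [integral_add i1 i2, integral_const_mul, integral_const_mul, ← g2, ← d2] at m
  have e3 : (k ^ 2) ^ (-(3 / 2) + 1 : ℝ) = k⁻¹ := by
    rw [← Real.rpow_natCast, ← Real.rpow_mul hk.le, ← Real.rpow_neg_one]
    norm_num
  rw [e3] at m
  refine m.trans (le_of_eq ?_)
  congr 2
  field_simp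
  ring

theorem FourE_lap (h : RepH f F) : Integrable (fun ξ => (2 * π * ‖ξ‖) ^ 4 * ‖F ξ‖ ^ 2) ∧
    ∫ y, lap f y ^ 2 = ∫ ξ, (2 * π * ‖ξ‖) ^ 4 * ‖F ξ‖ ^ 2 := by
  have e : ∀ ξ : R3, ‖-(sy 2 ξ * F ξ)‖ ^ 2 = (2 * π * ‖ξ‖) ^ 4 * ‖F ξ‖ ^ 2 := fun ξ => by
    rw [norm_neg, norm_mul, sy_norm, Real.rpow_two]
    ring
  have a1 := h.lap.isq
  have a2 := h.lap.sq
  simp only [e] at a1 a2
  exact ⟨a1, a2⟩

theorem sup_bound2 (h : Hinf f) {k : ℝ} (hk : 0 < k) (x : R3) :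
    f x ^ 2 ≤ 2 / 19 * (k * (∑ j, ∫ y, pd j f y ^ 2) + (∫ y, lap f y ^ 2) / k) := by
  obtain ⟨F, hF⟩ := h.exists_rep
  obtain ⟨g1, g2⟩ := hF.sq_grad
  obtain ⟨d1, d2⟩ := FourE_lap hF
  have h0 : ∀ r : ℝ, 0 < r → 0 < k * r ^ 2 + k⁻¹ * r ^ 4 := fun r hr => by positivity
  have i1 := g1.const_mul k
  have i2 := d1.const_mul k⁻¹
  have e : ∀ ξ : R3, (k * (2 * π * ‖ξ‖) ^ 2 + k⁻¹ * (2 * π * ‖ξ‖) ^ 4) * ‖F ξ‖ ^ 2 =
      k * ((2 * π * ‖ξ‖) ^ 2 * ‖F ξ‖ ^ 2) + k⁻¹ * ((2 * π * ‖ξ‖) ^ 4 * ‖F ξ‖ ^ 2) :=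
    fun ξ => by ring
  have m := FourE_main hF.1 (W := fun r => k * r ^ 2 + k⁻¹ * r ^ 4) h0
    (FourE_split (c := k) (A := k⁻¹) (B := k) (p := -2) (by fun_prop) h0 hk (by norm_num)
      (fun r hr _ => by
        have : 0 ≤ k⁻¹ * (k⁻¹ * r ^ 4) := by positivity
        rw [← div_eq_mul_inv, div_le_iff₀ (h0 r hr), mul_add, inv_mul_cancel_left₀ hk.ne']
        linarith)
      (fun r hr => by
        have r0 : 0 < r := hk.trans hr
        have e2 : k * r ^ (-2 : ℝ) * (k⁻¹ * r ^ 4) = r ^ 2 := by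
          rw [Real.rpow_neg r0.le, Real.rpow_two]
          field_simp
        have : 0 ≤ k * r ^ (-2 : ℝ) * (k * r ^ 2) := by positivity
        rw [← div_eq_mul_inv, div_le_iff₀ (h0 r r0), mul_add, e2]
        linarith))
    (by
      simp only [e]
      exact i1.add i2) x
  simp only [e] at m
  rw [integral_add i1 i2, integral_const_mul, integral_const_mul, ← g2, ← d2] at m
  have e3 : k ^ (-2 + 1 : ℝ) = k⁻¹ := by
    rw [← Real.rpow_neg_one]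
    norm_num
  rw [e3] at m
  refine m.trans (le_of_eq ?_)
  rw [inv_mul_eq_div (a := k) (b := ∫ y, lap f y ^ 2)]
  congr 2
  field_simp
  ring

theorem low_high (h : Hinf f) : ∃ f1 f2 : Sc, f = f1 + f2 ∧ Hinf f1 ∧ Hinf f2 ∧
    (∀ x, f1 x ^ 2 ≤ ∑ j, ∫ y, pd j f y ^ 2) ∧ ∫ y, f2 y ^ 2 ≤ ∑ j, ∫ y, pd j f y ^ 2 := by
  obtain ⟨F, hF⟩ := h.exists_rep
  obtain ⟨g1, g2⟩ := hF.sq_grad
  have hm : Mult fun ξ : R3 => if 2 * π * ‖ξ‖ ≤ 1 then (1 : ℂ) else 0 :=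
    ⟨(Measurable.ite (measurableSet_le (by fun_prop) measurable_const) measurable_const
      measurable_const).aestronglyMeasurable, ⟨1, 0, fun ξ => by split_ifs <;> simp⟩,
      fun ξ => by rw [norm_neg]; split_ifs <;> simp⟩
  have h1 := hF.of_mult hm (hF.1.mult hm)
  have h2 := hF.sub h1
  refine ⟨_, _, by funext y; simp, h1.hinf, h2.hinf, fun x => ?_, ?_⟩
  · obtain ⟨a1, a2⟩ := h1.sq_grad
    obtain ⟨b1, b2⟩ := FourE_lap h1
    have m := sup_bound2 h1.hinf one_pos x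
    rw [a2, b2] at m
    have c1 := integral_mono a1 g1 fun ξ => by
      split_ifs <;> simp
      positivity
    have c2 := integral_mono b1 g1 fun ξ => by
      have r0 : 0 ≤ 2 * π * ‖ξ‖ := by have := Real.pi_pos; positivity
      split_ifs with hξ
      · simp only [one_mul]
        exact mul_le_mul_of_nonneg_right (pow_le_pow_of_le_one r0 hξ (by norm_num)) (sq_nonneg _)
      · simp
        positivity
    have c3 : 0 ≤ ∫ ξ, (2 * π * ‖ξ‖) ^ 2 * ‖F ξ‖ ^ 2 := integral_nonneg fun ξ => by positivity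
    rw [g2]
    linarith
  · rw [h2.sq, g2]
    refine integral_mono h2.isq g1 fun ξ => ?_
    split_ifs with hξ
    · simp
      positivity
    · simp only [zero_mul, sub_zero]
      exact le_mul_of_one_le_left (sq_nonneg _) (one_le_pow₀ (le_of_not_ge hξ))

end Pool.Agent.Work.MP_6bf1e5_an.H
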