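import Pool.Agent.Work.MP_6bf1e5_an.H.FourD

/-!
Fourier toolkit, part F: the vector potential.
Hints. U i from Hinf.exists_rep. P i ξ = (2 π i (ξ × U) i) / (2 π |ξ|) ^ 2, so |P i| ≤ (|U (i+1)| + |U (i+2)|) / |ξ|.
four_int_div: (1 + |ξ|) ^ k |F| / |ξ| ≤ (w² + ((1 + |ξ|) ^ (k + 1) |F|)²) / 2 with w = 1 / (|ξ| (1 + |ξ|)), and w² is
integrable on R3 (integrable_fun_norm_addHaar: r² w² = (1 + r) ^ (-2); or split at |ξ| = 1).
Ψ i = real part of 𝓕⁻ (P i); it is real by four_real with RepA.herm. curl Ψ i and u i have representations that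
agree almost everywhere: ξ × (ξ × U) = ξ (ξ·U) - |ξ|² U with four_div and ξ ≠ 0 a.e.; RepA.sub, RepA.pd, RepA.ext.
-/

open scoped ContDiff ENNReal FourierTransform Real
open Set MeasureTheory

namespace Pool.Agent.Work.MP_6bf1e5_an.H

variable {f g : Sc} {F G : R3 → ℂ} {s s' : ℝ}

theorem FourF_w : MemLp (fun ξ : R3 => (‖ξ‖ * (1 + ‖ξ‖))⁻¹) 2 volume := by
  refine (memLp_two_iff_integrable_sq (Measurable.aestronglyMeasurable (by fun_prop))).2 ?_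
  refine (integrable_fun_norm_addHaar volume (f := fun r : ℝ => (r * (1 + r))⁻¹ ^ 2)).2 ?_
  refine Integrable.mono' integrable_inv_one_add_sq.integrableOn
    (Measurable.aestronglyMeasurable (by fun_prop)) ?_
  filter_upwards [ae_restrict_mem measurableSet_Ioi] with r hr
  have h0 : 0 < r := hr
  have h1 : r ^ (Module.finrank ℝ R3 - 1) • (r * (1 + r))⁻¹ ^ 2 = ((1 + r) ^ 2)⁻¹ := by
    rw [finrank_euclideanSpace_fin, smul_eq_mul]
    field_simp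
  rw [h1, Real.norm_of_nonneg (by positivity)]
  exact inv_anti₀ (by positivity) (by nlinarith)

theorem four_int_div (h : RepH f F) (k : ℕ) :
    Integrable fun ξ => (1 + ‖ξ‖) ^ k * (‖F ξ‖ / ‖ξ‖) := by
  refine (FourF_w.integrable_mul (h.2 (k + 1)).norm).congr (ae_of_all _ fun ξ => ?_)
  have h1 : 0 < 1 + ‖ξ‖ := by positivity
  simp only [Pi.mul_apply, norm_mul, Complex.norm_real, Real.norm_of_nonneg (pow_pos h1 _).le]
  rw [mul_inv, div_eq_mul_inv, pow_succ]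
  field_simp

theorem FourF_rep (h : RepH f F) (j : Fin 3) : ∃ g, RepA g fun ξ =>
    2 * π * Complex.I * (ξ j : ℝ) * F ξ / ((2 * π * ‖ξ‖) ^ 2 : ℝ) := by
  refine ⟨_, fun k => ?_, four_real ?_⟩
  · refine (four_int_div h k).mono' ?_ (ae_of_all _ fun ξ => ?_)
    · have h1 := h.1.int.1.aemeasurable
      exact AEMeasurable.aestronglyMeasurable (by fun_prop)
    · have h1 : 0 < 1 + ‖ξ‖ := by positivity
      have h2 : |ξ j| ≤ ‖ξ‖ := PiLp.norm_apply_le ξ j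
      have h3 := Real.pi_gt_three
      simp only [norm_mul, norm_div, Complex.norm_real, Real.norm_of_nonneg (pow_pos h1 _).le,
        Real.norm_of_nonneg (sq_nonneg _), Complex.norm_I, Complex.norm_ofNat, Real.norm_eq_abs,
        abs_of_pos Real.pi_pos, mul_one]
      refine mul_le_mul_of_nonneg_left ?_ (pow_pos h1 _).le
      rcases (norm_nonneg ξ).eq_or_lt with h4 | h4
      · simp [← h4]
      · rw [div_le_div_iff₀ (by positivity) h4]
        calc 2 * π * |ξ j| * ‖F ξ‖ * ‖ξ‖ ≤ 2 * π * ‖ξ‖ * ‖F ξ‖ * ‖ξ‖ := by gcongr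
          _ = ‖F ξ‖ * (2 * π * ‖ξ‖ ^ 2) * 1 := by ring
          _ ≤ ‖F ξ‖ * (2 * π * ‖ξ‖ ^ 2) * (2 * π) := by
              gcongr
              linarith
          _ = _ := by ring
  · filter_upwards [h.1.herm] with ξ hξ
    simp only [hξ, norm_neg, map_div₀, map_mul, Complex.conj_ofReal, Complex.conj_I,
      Complex.conj_ofNat, PiLp.neg_apply, Complex.ofReal_neg]
    ring

theorem exists_potential {u : Vc} (h : ∀ i, Hinf (u i)) (hd : ∀ y, dvg u y = 0) :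
    ∃ Ψ : Vc, (∀ i, InA (Ψ i)) ∧ curl Ψ = u := by
  choose U hU using fun i => (h i).exists_rep
  choose ψ hψ using fun i j => FourF_rep (hU i) j
  have h1 := fun i : Fin 3 => (hψ (i + 2) (i + 1)).sub (hψ (i + 1) (i + 2))
  refine ⟨_, fun i => ⟨_, h1 i⟩, funext fun i => ?_⟩
  refine (((h1 (i + 2)).pd (i + 1)).sub ((h1 (i + 1)).pd (i + 2))).ext (hU i).1 ?_
  filter_upwards [four_div (fun i => (hU i).1) hd, Measure.ae_ne volume (0 : R3)] with ξ h2 h3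
  have h4 : (‖ξ‖ : ℂ) ^ 2 = (ξ 0 : ℂ) ^ 2 + (ξ 1 : ℂ) ^ 2 + (ξ 2 : ℂ) ^ 2 := by
    have h5 := EuclideanSpace.real_norm_sq_eq ξ
    rw [Fin.sum_univ_three] at h5
    exact_mod_cast h5
  have h5 : (‖ξ‖ : ℂ) ≠ 0 := by exact_mod_cast norm_ne_zero_iff.2 h3
  have h6 : (π : ℂ) ≠ 0 := by exact_mod_cast Real.pi_ne_zero
  rw [Fin.sum_univ_three] at h2
  push_cast
  field_simp
  rw [Complex.I_sq, h4]
  fin_cases i
  · change -1 * ((ξ 1 : ℂ) * (ξ 0 * U 1 ξ - ξ 1 * U 0 ξ) - ξ 2 * (ξ 2 * U 0 ξ - ξ 0 * U 2 ξ)) =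
      _ * U 0 ξ
    linear_combination (-ξ 0 : ℂ) * h2
  · change -1 * ((ξ 2 : ℂ) * (ξ 1 * U 2 ξ - ξ 2 * U 1 ξ) - ξ 0 * (ξ 0 * U 1 ξ - ξ 1 * U 0 ξ)) =
      _ * U 1 ξ
    linear_combination (-ξ 1 : ℂ) * h2
  · change -1 * ((ξ 0 : ℂ) * (ξ 2 * U 0 ξ - ξ 0 * U 2 ξ) - ξ 1 * (ξ 1 * U 2 ξ - ξ 2 * U 1 ξ)) =
      _ * U 2 ξ
    linear_combination (-ξ 2 : ℂ) * h2

end Pool.Agent.Work.MP_6bf1e5_an.H
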