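import Pool.Agent.Work.MP_6bf1e5_an.H.Sep

/-! The spherical frame off the axis: definitions (owner helper18). -/

open scoped ContDiff ENNReal FourierTransform Real
open Set MeasureTheory Polynomial

namespace Pool.Agent.Work.MP_6bf1e5_an.H

noncomputable section

/-- Points off the axis. -/
def Off (y : R3) : Prop := y 0 ^ 2 + y 1 ^ 2 ≠ 0

/-- The distance from the axis. -/
def rc : Sc := fun y => √(y 0 ^ 2 + y 1 ^ 2)

/-- The polar angle. -/
def pa : Sc := fun y => Real.arccos (y 2 / ‖y‖)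

/-- The frame `e_ρ`, `e_θ`, `e_φ`. -/
def fr (a : Fin 3) : Vc := fun i y =>
  ![![y 0 / ‖y‖, y 1 / ‖y‖, y 2 / ‖y‖],
    ![y 0 * y 2 / (‖y‖ * rc y), y 1 * y 2 / (‖y‖ * rc y), -(rc y / ‖y‖)],
    ![-(y 1 / rc y), y 0 / rc y, 0]] a i

/-- The vector field with the frame components `c`. -/
def vF (c : Vc) : Vc := fun i y => ∑ a, c a y * fr a i y

/-- The matrix field with the frame components `m`. -/
def mF (m : Mc) : Mc := fun i j y => ∑ a, ∑ b, m a b y * (fr a i y * fr b j y)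

/-- The frame components of a vector field. -/
def vC (V : Vc) : Vc := fun a => dot V (fr a)

/-- The frame components of a matrix field. -/
def mC (M : Mc) : Mc := fun a b => bf M (fr a) (fr b)

/-- The Jacobian matrix. -/
def jac (V : Vc) : Mc := fun i j => pd j (V i)

/-- The Legendre function of the angle. -/
def Pa (l : ℕ) (θ : ℝ) : ℝ := (geg 1 l).eval (Real.cos θ)

/-- Its derivative. -/
def dPa (l : ℕ) (θ : ℝ) : ℝ := -Real.sin θ * (derivative (geg 1 l)).eval (Real.cos θ)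

/-- The derivative times the cotangent. -/
def cPa (l : ℕ) (θ : ℝ) : ℝ := -Real.cos θ * (derivative (geg 1 l)).eval (Real.cos θ)

/-- The square root of `1 - τ ^ 4`. -/
def kA (a : ℝ) : Sc := fun y => √(1 - tau a y ^ 4)

/-- The angle of the shifted Chebyshev polynomials: `cos (phA a y) = 2 τ - 1`. -/
def phA (a : ℝ) : Sc := fun y => Real.arccos (2 * tau a y - 1)

/-- Half of it: `cos (omA a y) ^ 2 = τ`. -/
def omA (a : ℝ) : Sc := fun y => Real.arccos √(tau a y)

/-- Twice the polar angle. -/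
def th2 : Sc := fun y => 2 * pa y

/-- `f` is radial off the axis and `f'` is `y·∇ f`. -/
def Rdl (f f' : Sc) : Prop :=
  ∀ y, Off y → DifferentiableAt ℝ f y ∧ ∀ j, pd j f y = f' y / ‖y‖ * fr 0 j y

/-- The function `τ ^ p * w τ`. -/
def tp (a p : ℝ) (w : ℝ[X]) : Sc := fun y => tau a y ^ p * w.eval (tau a y)

/-- The radial Euler operator: `y·∇ (τ ^ p * w τ) = τ ^ p * Dk p w τ`. -/
def Dk (p : ℝ) (w : ℝ[X]) : ℝ[X] := C (-1 / 2 : ℝ) * ((1 - X ^ 4) * (C p * w + X * derivative w))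

/-- The swirl field `(0, 0, f dP_l)`. -/
def zF (l : ℕ) (f : Sc) : Vc := vF ![0, 0, fun y => f y * dPa l (pa y)]

/-- The meridional field `(f P_l, g dP_l, 0)`. -/
def rF (l : ℕ) (f g : Sc) : Vc := vF ![fun y => f y * Pa l (pa y), fun y => g y * dPa l (pa y), 0]

/-- The Jacobian of `zF l f`, where `A = f / ρ` and `A' = (y·∇ f) / ρ`. -/
def zJ (l : ℕ) (A A' : Sc) : Mc :=
  ![![0, 0, fun y => -(A y * dPa l (pa y))], ![0, 0, fun y => -(A y * cPa l (pa y))],
    ![fun y => A' y * dPa l (pa y),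
      fun y => -(A y * (l * (l + 1) * Pa l (pa y) + cPa l (pa y))), 0]]

/-- The Jacobian of `rF l f g`, where `A = f / ρ`, `A' = (y·∇ f) / ρ`, `B = g / ρ`,
`B' = (y·∇ g) / ρ`. -/
def rJ (l : ℕ) (A A' B B' : Sc) : Mc :=
  ![![fun y => A' y * Pa l (pa y), fun y => (A y - B y) * dPa l (pa y), 0],
    ![fun y => B' y * dPa l (pa y),
      fun y => (A y - l * (l + 1) * B y) * Pa l (pa y) - B y * cPa l (pa y), 0],
    ![0, 0, fun y => A y * Pa l (pa y) + B y * cPa l (pa y)]]

end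

end Pool.Agent.Work.MP_6bf1e5_an.H
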