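import Pool.Agent.Work.MP_6bf1e5_an.H.ResHl

/-! Pointwise vector calculus for separated fields (owner helper84). -/

open scoped ContDiff ENNReal FourierTransform Real
open Set MeasureTheory

namespace Pool.Agent.Work.MP_6bf1e5_an.H

variable {f g φ : Sc} {V W : Vc} {y : R3}

theorem sp_pd_mul (hf : DifferentiableAt ℝ f y) (hg : DifferentiableAt ℝ g y) (j : Fin 3) :
    pd j (fun z => f z * g z) y = pd j f y * g y + f y * pd j g y := by
  rw [pd, fderiv_fun_mul hf hg]
  simp only [pd, add_apply, smul_apply, smul_eq_mul]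
  ring

theorem sp_pd_add (hf : DifferentiableAt ℝ f y) (hg : DifferentiableAt ℝ g y) (j : Fin 3) :
    pd j (fun z => f z + g z) y = pd j f y + pd j g y := by
  rw [pd, fderiv_fun_add hf hg]
  rfl

theorem sp_pd_sub (hf : DifferentiableAt ℝ f y) (hg : DifferentiableAt ℝ g y) (j : Fin 3) :
    pd j (fun z => f z - g z) y = pd j f y - pd j g y := by
  rw [pd, fderiv_fun_sub hf hg]
  rfl

theorem sp_pd_cmul (hf : DifferentiableAt ℝ f y) (c : ℝ) (j : Fin 3) :
    pd j (fun z => c * f z) y = c * pd j f y := by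
  rw [sp_pd_mul (differentiableAt_const c) hf, ResHom_pd_const]
  ring

theorem sp_pd_sum {ι : Type} (s : Finset ι) {F : ι → Sc}
    (h : ∀ i ∈ s, DifferentiableAt ℝ (F i) y) (j : Fin 3) :
    pd j (fun z => ∑ i ∈ s, F i z) y = ∑ i ∈ s, pd j (F i) y := by
  rw [pd, fderiv_fun_sum h, _root_.sum_apply]
  rfl

theorem sp_coord (i : Fin 3) (y : R3) : DifferentiableAt ℝ (fun z : R3 => z i) y :=
  ResHom_diff (ResHom_coord i) y

theorem sp_normsq (y : R3) : ‖y‖ ^ 2 = y 0 ^ 2 + y 1 ^ 2 + y 2 ^ 2 := by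
  rw [EuclideanSpace.real_norm_sq_eq, Fin.sum_univ_three]

theorem sp_pd_normsq (j : Fin 3) (y : R3) : pd j (fun z : R3 => ‖z‖ ^ 2) y = 2 * y j := by
  rw [pd, (hasStrictFDerivAt_norm_sq y).hasFDerivAt.fderiv]
  simp [EuclideanSpace.inner_single_right]

/-- The chain rule for a function of `|y|²`. -/
theorem sp_pd_rad {a : ℝ → ℝ} {a' : ℝ} (h : HasDerivAt a a' (‖y‖ ^ 2)) (j : Fin 3) :
    pd j (fun z : R3 => a (‖z‖ ^ 2)) y = 2 * a' * y j := by
  have h1 := h.comp_hasFDerivAt y (hasStrictFDerivAt_norm_sq y).hasFDerivAt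
  have h2 : fderiv ℝ (fun z : R3 => a (‖z‖ ^ 2)) y = _ := h1.fderiv
  rw [pd, h2]
  simp [EuclideanSpace.inner_single_right]
  ring

theorem sp_diff_rad {a : ℝ → ℝ} (h : DifferentiableAt ℝ a (‖y‖ ^ 2)) :
    DifferentiableAt ℝ (fun z : R3 => a (‖z‖ ^ 2)) y :=
  (h.hasDerivAt.comp_hasFDerivAt y (hasStrictFDerivAt_norm_sq y).hasFDerivAt).differentiableAt

theorem sp_curl_sm (hφ : DifferentiableAt ℝ φ y) (hV : ∀ i, DifferentiableAt ℝ (V i) y)
    (i : Fin 3) : curl (sm φ V) i y = cross (grad φ) V i y + φ y * curl V i y := by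
  have h : ∀ a b, pd a (sm φ V b) y = pd a φ y * V b y + φ y * pd a (V b) y :=
    fun a b => sp_pd_mul hφ (hV b) a
  simp only [curl, cross, grad, h]
  ring

theorem sp_dvg_sm (hφ : DifferentiableAt ℝ φ y) (hV : ∀ i, DifferentiableAt ℝ (V i) y) :
    dvg (sm φ V) y = dot (grad φ) V y + φ y * dvg V y := by
  have h : ∀ a b, pd a (sm φ V b) y = pd a φ y * V b y + φ y * pd a (V b) y :=
    fun a b => sp_pd_mul hφ (hV b) a
  simp only [dvg, dot, grad, h, Fin.sum_univ_three]
  ring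

theorem sp_yd_mul (hf : DifferentiableAt ℝ f y) (hg : DifferentiableAt ℝ g y) :
    yd (fun z => f z * g z) y = yd f y * g y + f y * yd g y := by
  simp only [yd, sp_pd_mul hf hg, Fin.sum_univ_three]
  ring

theorem sp_yd_add (hf : DifferentiableAt ℝ f y) (hg : DifferentiableAt ℝ g y) :
    yd (fun z => f z + g z) y = yd f y + yd g y := by
  simp only [yd, sp_pd_add hf hg, Fin.sum_univ_three]
  ring

theorem sp_curl_add (hV : ∀ i, DifferentiableAt ℝ (V i) y) (hW : ∀ i, DifferentiableAt ℝ (W i) y)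
    (i : Fin 3) : curl (V + W) i y = curl V i y + curl W i y := by
  have h : ∀ a b, pd a ((V + W) b) y = pd a (V b) y + pd a (W b) y :=
    fun a b => sp_pd_add (hV b) (hW b) a
  simp only [curl, h]
  ring

theorem sp_dvg_add (hV : ∀ i, DifferentiableAt ℝ (V i) y) (hW : ∀ i, DifferentiableAt ℝ (W i) y) :
    dvg (V + W) y = dvg V y + dvg W y := by
  have h : ∀ a b, pd a ((V + W) b) y = pd a (V b) y + pd a (W b) y :=
    fun a b => sp_pd_add (hV b) (hW b) a
  simp only [dvg, h, Finset.sum_add_distrib]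

theorem sp_yd_rad {a : ℝ → ℝ} {a' : ℝ} (h : HasDerivAt a a' (‖y‖ ^ 2)) :
    yd (fun z : R3 => a (‖z‖ ^ 2)) y = 2 * ‖y‖ ^ 2 * a' := by
  simp only [yd, sp_pd_rad h, Fin.sum_univ_three]
  rw [sp_normsq]
  ring

theorem sp_curl_grad (h : ContDiff ℝ ∞ f) (i : Fin 3) (y : R3) : curl (grad f) i y = 0 := by
  simp only [curl, grad]
  rw [ResHom_pd_comm h (i + 1) (i + 2), sub_self]

theorem sp_dvg_curl (h : ∀ i, ContDiff ℝ ∞ (V i)) (y : R3) : dvg (curl V) y = 0 := by
  have h1 : ∀ a b c d e, pd a (fun z => pd b (V c) z - pd d (V e) z) y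
      = pd a (pd b (V c)) y - pd a (pd d (V e)) y :=
    fun a b c d e => ResHom_pd_sub (ResHom_smooth (h c) b) (ResHom_smooth (h e) d) a y
  unfold dvg curl
  simp only [h1, Fin.sum_univ_three]
  have e1 := congrFun (ResHom_pd_comm (h 0) 1 2) y
  have e2 := congrFun (ResHom_pd_comm (h 1) 0 2) y
  have e3 := congrFun (ResHom_pd_comm (h 2) 0 1) y
  simp only [Fin.isValue, Fin.reduceAdd]
  linarith

theorem sp_curl_pos (i : Fin 3) (y : R3) : curl pos i y = 0 := by
  have h : ∀ a b, pd a (pos b) y = if b = a then 1 else 0 := fun a b => ResHom_pd_coord b a y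
  simp only [curl, h]
  fin_cases i <;> simp

theorem sp_dvg_pos (y : R3) : dvg pos y = 3 := by
  have h : ∀ a b, pd a (pos b) y = if b = a then 1 else 0 := fun a b => ResHom_pd_coord b a y
  simp [dvg, h]

/-- The gradient of a homogeneous function of degree `l` is homogeneous of degree `l - 1`. -/
theorem Hom.yd_pd {l : ℕ} {P : Sc} (h : Hom l P) (i : Fin 3) (y : R3) :
    yd (H.pd i P) y = (l - 1) * H.pd i P y := by
  cases l with
  | zero =>
    have : H.pd i P = fun _ => 0 := funext fun z => h.pd_zero i z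
    simp [this, yd, ResHom_pd_const]
  | succ l => rw [(h.pd i).euler]; push_cast; ring

/-- `curl (y × ∇ P) = -(l + 1) ∇ P` for a solid harmonic. -/
theorem Harm.curl_cross {l : ℕ} {P : Sc} (h : Harm l P) (i : Fin 3) (y : R3) :
    curl (cross pos (grad P)) i y = -(l + 1) * H.pd i P y := by
  have hs : ∀ a, DifferentiableAt ℝ (H.pd a P) y := fun a => ResHom_diff (ResHom_smooth h.smooth a) y
  have h1 : ∀ a b, H.pd a (cross pos (grad P) b) y =
      ((if b + 1 = a then 1 else 0) * H.pd (b + 2) P y + y (b + 1) * H.pd a (H.pd (b + 2) P) y)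
      - ((if b + 2 = a then 1 else 0) * H.pd (b + 1) P y + y (b + 2) * H.pd a (H.pd (b + 1) P) y) := by
    intro a b
    have := sp_pd_sub ((sp_coord (b + 1) y).mul (hs (b + 2))) ((sp_coord (b + 2) y).mul (hs (b + 1))) a
    rw [← ResHom_pd_coord (b + 1) a y, ← ResHom_pd_coord (b + 2) a y,
      ← sp_pd_mul (sp_coord (b + 1) y) (hs (b + 2)), ← sp_pd_mul (sp_coord (b + 2) y) (hs (b + 1))]
    exact this
  have h2 := h.toHom.yd_pd i y
  have h3 := h.harm y
  simp only [yd, lap, Fin.sum_univ_three] at h2 h3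
  simp only [curl, h1]
  fin_cases i <;> simp at h2 ⊢
  · linear_combination -h2 + y 0 * h3
  · linear_combination -h2 + y 1 * h3
  · linear_combination -h2 + y 2 * h3

theorem curl_TT (l : ℕ) (i : Fin 3) (y : R3) : curl (TT l) i y = -(l + 1) * pd i (Hl l) y :=
  (harm_Hl l).curl_cross i y

/-- `y × (y × ∇ H) = l H y - |y|² ∇ H`. -/
theorem cross_pos_TT (l : ℕ) (i : Fin 3) (y : R3) :
    cross pos (TT l) i y = l * (Hl l y * y i) - ‖y‖ ^ 2 * pd i (Hl l) y := by
  have h := (hom_Hl l).euler y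
  simp only [yd, Fin.sum_univ_three] at h
  simp only [TT, cross, pos, grad, sp_normsq]
  fin_cases i <;> simp
  · linear_combination y 0 * h
  · linear_combination y 1 * h
  · linear_combination y 2 * h

theorem sp_diff_Hl (l : ℕ) (y : R3) : DifferentiableAt ℝ (Hl l) y :=
  ResHom_diff (hom_Hl l).smooth y

theorem sp_diff_pd_Hl (l : ℕ) (i : Fin 3) (y : R3) : DifferentiableAt ℝ (pd i (Hl l)) y :=
  ResHom_diff (ResHom_smooth (hom_Hl l).smooth i) y

theorem sp_diff_TT (l : ℕ) (i : Fin 3) (y : R3) : DifferentiableAt ℝ (TT l i) y :=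
  ResHom_diff (harm_TT l i).smooth y

end Pool.Agent.Work.MP_6bf1e5_an.H
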