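import Pool.Agent.Work.MP_6bf1e5_an.H.Fr
import Pool.Agent.Work.MP_6bf1e5_an.H.SkBd
import Pool.Agent.Work.MP_6bf1e5_an.H.SepA

/-! Algebra of the spherical frame (owner helper18). -/

open scoped ContDiff ENNReal FourierTransform Real
open Set MeasureTheory Polynomial

namespace Pool.Agent.Work.MP_6bf1e5_an.H

variable {y : R3}

theorem ae_off : ∀ᵐ y : R3, Off y := by
  have h : volume ((LinearMap.ker (EuclideanSpace.projₗ (𝕜 := ℝ) (0 : Fin 3)) :
      Submodule ℝ R3) : Set R3) = 0 := by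
    refine Measure.addHaar_submodule _ _ fun h => ?_
    have : EuclideanSpace.single (0 : Fin 3) (1 : ℝ) ∈
        LinearMap.ker (EuclideanSpace.projₗ (𝕜 := ℝ) (0 : Fin 3)) := h ▸ Submodule.mem_top
    simp at this
  filter_upwards [measure_eq_zero_iff_ae_notMem.1 h] with y hy h0
  refine hy ?_
  have : y 0 = 0 := by nlinarith [sq_nonneg (y 0), sq_nonneg (y 1)]
  simpa using this

theorem rc_sq (y : R3) : rc y ^ 2 = y 0 ^ 2 + y 1 ^ 2 := Real.sq_sqrt (by positivity)

theorem rc_nonneg (y : R3) : 0 ≤ rc y := Real.sqrt_nonneg _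

theorem norm_sq_rc (y : R3) : ‖y‖ ^ 2 = rc y ^ 2 + y 2 ^ 2 := by rw [rc_sq, sp_normsq]

theorem Off.rc_pos (h : Off y) : 0 < rc y :=
  Real.sqrt_pos.2 (lt_of_le_of_ne (by positivity) (Ne.symm h))

theorem Off.norm_pos (h : Off y) : 0 < ‖y‖ := by
  have h1 := norm_sq_rc y
  have h2 := h.rc_pos
  refine lt_of_le_of_ne (norm_nonneg y) fun e => ?_
  rw [← e] at h1
  nlinarith [sq_nonneg (y 2)]

theorem Off.ne_zero (h : Off y) : y ≠ 0 := norm_pos_iff.1 h.norm_pos

theorem abs_two_div_le (y : R3) : |y 2 / ‖y‖| ≤ 1 := by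
  rw [abs_div, abs_norm]
  exact div_le_one_of_le₀ (by simpa using PiLp.norm_apply_le y 2) (norm_nonneg y)

theorem cos_pa (y : R3) : Real.cos (pa y) = y 2 / ‖y‖ :=
  Real.cos_arccos (abs_le.1 (abs_two_div_le y)).1 (abs_le.1 (abs_two_div_le y)).2

theorem Off.sin_pa (h : Off y) : Real.sin (pa y) = rc y / ‖y‖ := by
  have h1 := h.norm_pos
  rw [pa, Real.sin_arccos, show 1 - (y 2 / ‖y‖) ^ 2 = (rc y / ‖y‖) ^ 2 by
    field_simp
    linarith [norm_sq_rc y], Real.sqrt_sq (div_nonneg (rc_nonneg y) h1.le)]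

theorem pa_mem (y : R3) : pa y ∈ Icc 0 π := ⟨Real.arccos_nonneg _, Real.arccos_le_pi _⟩

theorem meas_pa : Measurable pa := by
  unfold pa
  exact Real.continuous_arccos.measurable.comp
    ((by fun_prop : Continuous fun y : R3 => y 2).measurable.div continuous_norm.measurable)

theorem meas_rc : Measurable rc := by
  unfold rc
  fun_prop

theorem Off.orth (h : Off y) (a b : Fin 3) :
    ∑ i, fr a i y * fr b i y = if a = b then 1 else 0 := by
  have h1 := h.norm_pos.ne'
  have h2 := h.rc_pos.ne'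
  have h3 := rc_sq y
  have h4 := norm_sq_rc y
  fin_cases a <;> fin_cases b <;> simp [fr, Fin.sum_univ_three] <;> field_simp <;>
    first
      | ring1
      | linear_combination -h3 - h4
      | linear_combination (-y 2) * h3
      | linear_combination (-y 2 ^ 2) * h3 - rc y ^ 2 * h4
      | linear_combination -h3

theorem Off.comp (h : Off y) (i j : Fin 3) :
    ∑ a, fr a i y * fr a j y = if i = j then 1 else 0 := by
  have h1 : (Matrix.of fun a i => fr a i y) * (Matrix.of fun a i => fr a i y).transpose = 1 := by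
    ext a b
    simpa [Matrix.mul_apply, Matrix.one_apply] using h.orth a b
  have h2 := mul_eq_one_comm.1 h1
  have h3 := congrFun (congrFun h2 i) j
  simpa [Matrix.mul_apply, Matrix.one_apply] using h3

theorem Off.cross_fr (h : Off y) (a i : Fin 3) :
    fr (a + 1) (i + 1) y * fr (a + 2) (i + 2) y - fr (a + 1) (i + 2) y * fr (a + 2) (i + 1) y
      = fr a i y := by
  have h1 := h.norm_pos.ne'
  have h2 := h.rc_pos.ne'
  have h3 := rc_sq y
  have h4 := norm_sq_rc y
  fin_cases a <;> fin_cases i <;> simp [fr] <;> field_simp <;>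
    first
      | ring1
      | linear_combination (-y 2) * h3
      | linear_combination h3
      | linear_combination y 1 * h4
      | linear_combination (-y 0) * h4

theorem Off.abs_fr (h : Off y) (a i : Fin 3) : |fr a i y| ≤ 1 := by
  have h1 := h.orth a a
  rw [if_pos rfl] at h1
  have h2 : fr a i y * fr a i y ≤ ∑ i, fr a i y * fr a i y :=
    Finset.single_le_sum (f := fun i => fr a i y * fr a i y) (fun _ _ => mul_self_nonneg _)
      (Finset.mem_univ i)
  rw [h1] at h2
  exact abs_le_one_iff_mul_self_le_one.2 h2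

theorem bd_fr (a i : Fin 3) : Bd 0 (fr a i) := by
  refine ⟨Measurable.aestronglyMeasurable ?_, 1, ae_off.mono fun y hy => by simpa using hy.abs_fr a i⟩
  have h0 : ∀ j, Measurable fun y : R3 => y j := fun j =>
    (by fun_prop : Continuous fun y : R3 => y j).measurable
  have h1 : Measurable fun y : R3 => ‖y‖ := continuous_norm.measurable
  have h2 := meas_rc
  fin_cases a <;> fin_cases i
  · exact (h0 0).div h1
  · exact (h0 1).div h1
  · exact (h0 2).div h1
  · exact ((h0 0).mul (h0 2)).div (h1.mul h2)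
  · exact ((h0 1).mul (h0 2)).div (h1.mul h2)
  · exact (h2.div h1).neg
  · exact ((h0 1).div h2).neg
  · exact (h0 0).div h2
  · exact measurable_const

theorem Bd.vF {m : ℝ} {c : Vc} (h : ∀ a, Bd m (c a)) (i : Fin 3) : Bd m (vF c i) :=
  Bd.sum _ fun a _ => ((h a).mul (bd_fr a i)).of_eq (add_zero m)

theorem Bd.mF {m : ℝ} {c : Mc} (h : ∀ a b, Bd m (c a b)) (i j : Fin 3) : Bd m (mF c i j) :=
  Bd.sum _ fun a _ => Bd.sum _ fun b _ =>
    ((h a b).mul ((bd_fr a i).mul (bd_fr b j))).of_eq (by ring)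

theorem Bd.vC {m : ℝ} {V : Vc} (h : ∀ i, Bd m (V i)) (a : Fin 3) : Bd m (vC V a) :=
  (Bd.dot h (bd_fr a)).of_eq (add_zero m)

theorem mF_symm {c : Mc} (h : ∀ a b, c a b = c b a) (i j : Fin 3) : mF c i j = mF c j i := by
  funext y
  simp only [mF]
  rw [Finset.sum_comm]
  exact Finset.sum_congr rfl fun a _ => Finset.sum_congr rfl fun b _ => by rw [h, mul_comm (fr b i y)]

theorem mF_transpose (c : Mc) (i j : Fin 3) (y : R3) : mF c j i y = mF (fun a b => c b a) i j y := by
  simp only [mF, Fin.sum_univ_three]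
  ring

theorem vF_add (a b : Vc) : vF (a + b) = vF a + vF b := by
  funext i y
  simp only [vF, Pi.add_apply, add_mul, Finset.sum_add_distrib]

theorem vF_sub (a b : Vc) : vF (a - b) = vF a - vF b := by
  funext i y
  simp only [vF, Pi.sub_apply, sub_mul, Finset.sum_sub_distrib]

theorem vF_neg (a : Vc) : vF (-a) = -vF a := by
  funext i y
  simp only [vF, Pi.neg_apply, neg_mul, Finset.sum_neg_distrib]

theorem vF_sm (f : Sc) (a : Vc) : vF (sm f a) = sm f (vF a) := by
  funext i y
  simp only [vF, sm, Finset.mul_sum, mul_assoc]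

theorem vF_sum {ι : Type} (s : Finset ι) (c : ι → Vc) (i : Fin 3) (y : R3) :
    vF (fun a y => ∑ j ∈ s, c j a y) i y = ∑ j ∈ s, vF (c j) i y := by
  simp only [vF, Finset.sum_mul]
  exact Finset.sum_comm

theorem vF_lc {ι : Type} [Fintype ι] (c : ι → ℝ) (V : ι → Vc) :
    vF (lc c V) = lc c fun j => vF (V j) := by
  funext i y
  simp only [vF, lc, Finset.sum_mul, Finset.mul_sum, mul_assoc]
  exact Finset.sum_comm

theorem vF_congr {a b : Vc} (h : ∀ k, a k y = b k y) (i : Fin 3) : vF a i y = vF b i y := by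
  simp only [vF, h]

theorem mF_congr {a b : Mc} (h : ∀ k l, a k l y = b k l y) (i j : Fin 3) :
    mF a i j y = mF b i j y := by
  simp only [mF, h]

theorem mF_add (a b : Mc) (i j : Fin 3) (y : R3) : mF (a + b) i j y = mF a i j y + mF b i j y := by
  simp only [mF, Pi.add_apply, add_mul, Finset.sum_add_distrib]

theorem mF_sub (a b : Mc) (i j : Fin 3) (y : R3) : mF (a - b) i j y = mF a i j y - mF b i j y := by
  simp only [mF, Pi.sub_apply, sub_mul, Finset.sum_sub_distrib]

theorem mF_sum {ι : Type} (s : Finset ι) (c : ι → Mc) (i j : Fin 3) (y : R3) :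
    mF (fun a b y => ∑ k ∈ s, c k a b y) i j y = ∑ k ∈ s, mF (c k) i j y := by
  simp only [mF, Fin.sum_univ_three, Finset.sum_mul, Finset.sum_add_distrib]

theorem Off.vC_vF (h : Off y) (c : Vc) (a : Fin 3) : vC (vF c) a y = c a y := by
  simp only [vC, dot, vF, Finset.sum_mul, mul_assoc]
  rw [Finset.sum_comm]
  simp only [← Finset.mul_sum, h.orth]
  simp

theorem Off.vF_vC (h : Off y) (V : Vc) (i : Fin 3) : vF (vC V) i y = V i y := by
  simp only [vC, dot, vF, Finset.sum_mul, mul_assoc]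
  rw [Finset.sum_comm]
  simp only [← Finset.mul_sum, h.comp]
  simp

theorem Off.dot_vF (h : Off y) (a b : Vc) : dot (vF a) (vF b) y = dot a b y := by
  calc _ = ∑ k, b k y * vC (vF a) k y := by
        simp only [vC, dot, vF, Fin.sum_univ_three]
        ring
    _ = _ := by simp only [h.vC_vF, dot, mul_comm]

theorem Off.mv3_mF (h : Off y) (m : Mc) (a : Vc) (i : Fin 3) :
    mv3 (mF m) (vF a) i y = vF (mv3 m a) i y := by
  calc _ = ∑ k, ∑ l, m k l y * vC (vF a) l y * fr k i y := by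
        simp only [vC, dot, mv3, mF, Fin.sum_univ_three]
        ring
    _ = _ := by simp only [h.vC_vF, vF, mv3, Finset.sum_mul]

theorem Off.vm3_mF (h : Off y) (m : Mc) (a : Vc) (j : Fin 3) :
    vm3 (mF m) (vF a) j y = vF (vm3 m a) j y := by
  calc _ = ∑ l, ∑ k, vC (vF a) k y * m k l y * fr l j y := by
        simp only [vC, dot, vm3, mF, Fin.sum_univ_three]
        ring
    _ = _ := by simp only [h.vC_vF, vF, vm3, Finset.sum_mul]

theorem bf_mF (m : Mc) (a b : Vc) (y : R3) : bf (mF m) a b y = bf m (vC a) (vC b) y := by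
  simp only [bf, vC, dot, mF, Fin.sum_univ_three]
  ring

theorem Off.bf_mF (h : Off y) (m : Mc) (a b : Vc) : bf (mF m) (vF a) (vF b) y = bf m a b y := by
  rw [H.bf_mF]
  simp only [bf, h.vC_vF]

theorem Off.mC_mF (h : Off y) (m : Mc) (a b : Fin 3) : mC (mF m) a b y = m a b y := by
  rw [mC, H.bf_mF]
  simp only [bf, vC, dot, h.orth]
  simp

theorem Off.mF_mC (h : Off y) (M : Mc) (i j : Fin 3) : mF (mC M) i j y = M i j y := by
  calc _ = ∑ k, ∑ l, M k l y * ((∑ a, fr a k y * fr a i y) * ∑ b, fr b l y * fr b j y) := by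
        simp only [mF, mC, bf, Fin.sum_univ_three]
        ring
    _ = _ := by
        simp only [h.comp]
        simp

theorem Off.cross_vF (h : Off y) (a b : Vc) (i : Fin 3) :
    cross (vF a) (vF b) i y = vF (cross a b) i y := by
  have h0 := h.cross_fr 0 i
  have h1 := h.cross_fr 1 i
  have h2 := h.cross_fr 2 i
  simp only [cross, vF, Fin.sum_univ_three, zero_add, Fin.reduceAdd] at h0 h1 h2 ⊢
  linear_combination (a 1 y * b 2 y - a 2 y * b 1 y) * h0 + (a 2 y * b 0 y - a 0 y * b 2 y) * h1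
    + (a 0 y * b 1 y - a 1 y * b 0 y) * h2

theorem Off.pos_eq (h : Off y) (i : Fin 3) : pos i y = vF ![fun y => ‖y‖, 0, 0] i y := by
  have h1 := h.norm_pos.ne'
  fin_cases i <;> simp [pos, vF, fr, Fin.sum_univ_three] <;> field_simp

theorem Off.one_eq (h : Off y) (f : Sc) (i j : Fin 3) :
    (if i = j then f y else 0) = mF (fun a b => if a = b then f else 0) i j y := by
  have := h.comp i j
  simp only [Fin.sum_univ_three] at this
  simp only [mF, Fin.sum_univ_three]
  simp
  split_ifs at this ⊢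
  · linear_combination (-f y) * this
  · linear_combination (-f y) * this

theorem Off.sq_vF (h : Off y) (c : Vc) : ∑ i, vF c i y ^ 2 = ∑ a, c a y ^ 2 := by
  simpa only [dot, sq] using h.dot_vF c c

theorem Off.sq_mF (h : Off y) (m : Mc) : ∑ i, ∑ j, mF m i j y ^ 2 = ∑ a, ∑ b, m a b y ^ 2 := by
  calc _ = ∑ a, ∑ b, m a b y * mC (mF m) a b y := by
        simp only [mC, bf, sq]
        conv_lhs => enter [2, i, 2, j, 1]; rw [mF]
        simp only [Fin.sum_univ_three]
        ring
    _ = _ := by simp only [h.mC_mF, sq]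

theorem ip_vF (a b : Vc) : ip (vF a) (vF b) = ip a b :=
  integral_congr_ae (ae_off.mono fun _ h => h.dot_vF a b)

theorem nw_vF (φ : Sc) (a : Vc) : nw φ (vF a) = nw φ a :=
  integral_congr_ae (ae_off.mono fun y h => by simp only [h.dot_vF])

theorem ip_off {a b a' b' : Vc} (h : ∀ y, Off y → ∀ i, a i y = a' i y)
    (h' : ∀ y, Off y → ∀ i, b i y = b' i y) : ip a b = ip a' b' :=
  integral_congr_ae (ae_off.mono fun y hy => by simp only [dot, h y hy, h' y hy])

theorem nw_off (φ : Sc) {a a' : Vc} (h : ∀ y, Off y → ∀ i, a i y = a' i y) : nw φ a = nw φ a' :=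
  integral_congr_ae (ae_off.mono fun y hy => by simp only [dot, h y hy])

theorem int_bf_off (m : Mc) {a b a' b' : Vc} (h : ∀ y, Off y → ∀ i, a i y = vF a' i y)
    (h' : ∀ y, Off y → ∀ i, b i y = vF b' i y) : ∫ y, bf (mF m) a b y = ∫ y, bf m a' b' y :=
  integral_congr_ae (ae_off.mono fun y hy => by
    refine Eq.trans ?_ (hy.bf_mF m a' b')
    simp only [bf, h y hy, h' y hy])

/-- A quadratic form in frame components. -/
theorem quad_mF (m : Mc) (q u : Fin 3 → ℝ) (y : R3) :
    ∑ i, ∑ j, q i * mF m i j y * u j =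
      ∑ a, ∑ b, (∑ i, q i * fr a i y) * m a b y * ∑ j, u j * fr b j y :=
  H.bf_mF m (fun i _ => q i) (fun i _ => u i) y

theorem Off.sq_comp (h : Off y) (q : Fin 3 → ℝ) :
    ∑ a, (∑ i, q i * fr a i y) ^ 2 = ∑ i, q i ^ 2 := by
  have h1 := h.sq_vF (vC fun i _ => q i)
  simp only [h.vF_vC] at h1
  exact h1.symm

/-- The matrix inequality in the frame. -/
theorem LMI.of_frame {V B : Mc} {W G P mv mu : Sc}
    (h : ∀ y, Off y → ∀ q u : Fin 3 → ℝ, mv y * ∑ i, q i ^ 2 + mu y * ∑ i, u i ^ 2 ≤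
      ∑ i, ∑ j, q i * V i j y * q j - W y * ∑ i, q i ^ 2 + ∑ i, ∑ j, q i * B i j y * u j
        + G y * (‖y‖ * (q 2 * u 1 - q 1 * u 2)) + P y * ∑ i, u i ^ 2) :
    LMI (mF V) (mF B) W G P mv mu := by
  filter_upwards [ae_off] with y hy q u
  have h1 := h y hy (fun a => ∑ i, q i * fr a i y) fun a => ∑ i, u i * fr a i y
  rw [hy.sq_comp, hy.sq_comp, ← quad_mF, ← quad_mF] at h1
  have h2 : ∑ i, q i * (y (i + 1) * u (i + 2) - y (i + 2) * u (i + 1)) =
      dot (vF (vC fun i _ => q i)) (cross (vF ![fun y => ‖y‖, 0, 0]) (vF (vC fun i _ => u i))) y := by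
    simp only [dot, cross, hy.vF_vC, ← hy.pos_eq, pos]
  have h3 : dot (vF (vC fun i _ => q i))
      (cross (vF ![fun y => ‖y‖, 0, 0]) (vF (vC fun i _ => u i))) y =
      dot (vC fun i _ => q i) (cross ![fun y => ‖y‖, 0, 0] (vC fun i _ => u i)) y := by
    rw [← hy.dot_vF (vC _)]
    simp only [dot, hy.cross_vF]
  rw [h2, h3]
  refine h1.trans (le_of_eq ?_)
  simp only [dot, cross, vC, Fin.sum_univ_three, zero_add, Fin.reduceAdd, Matrix.cons_val,
    Pi.zero_apply]
  ring

end Pool.Agent.Work.MP_6bf1e5_an.H
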