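import Pool.Agent.Work.MP_6bf1e5_an.H.SkMode
import Pool.Agent.Work.MP_6bf1e5_an.H.ResOrt

/-! Skeleton: profiles in the ring variable, more null pairs (owner helper13). -/

open scoped ContDiff ENNReal FourierTransform Real
open Set MeasureTheory Polynomial

namespace Pool.Agent.Work.MP_6bf1e5_an.H

variable {l n : ℕ} {a e : ℝ} {P Q : ℝ[X]} {g : ℝ → ℝ}

theorem rg_pos (ha : 0 < a) {z : ℝ} (hz : -1 / a < z) : 0 < 1 + a * z := by
  rw [div_lt_iff₀ ha] at hz
  linarith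

theorem rg_lt (ha : 0 < a) (y : R3) : -1 / a < ‖y‖ ^ 2 :=
  (div_neg_of_neg_of_pos neg_one_lt_zero ha).trans_le (sq_nonneg _)

theorem rg_has (ha : 0 < a) {z : ℝ} (hz : -1 / a < z) : HasDerivAt (tF a e P)
    (tF a (e + 4) (C (-(a / 4)) * (C e * P + X * derivative P)) z) z := by
  have h0 := rg_pos ha hz
  have h1 : HasDerivAt (fun z : ℝ => 1 + a * z) a z := by
    simpa using ((hasDerivAt_id' z).const_mul a).const_add 1
  have h2 := h1.rpow_const (p := -(e / 4)) (Or.inl h0.ne')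
  have h3 := (P.hasDerivAt _).comp z (h1.rpow_const (p := -(1 / 4)) (Or.inl h0.ne'))
  refine (h2.fun_mul h3).congr_deriv ?_
  simp only [tF, eval_mul, eval_add, eval_C, eval_X, Function.comp_apply]
  rw [show -((e + 4) / 4) = -(e / 4) - 1 by ring, Real.rpow_sub_one h0.ne',
    Real.rpow_sub_one h0.ne']
  ring

theorem radS_tF (ha : 0 < a) : RadS (tF a e P) := by
  have h1 : ContDiffOn ℝ ∞ (fun z : ℝ => 1 + a * z) (Ioi (-(1 / a))) :=
    contDiffOn_const.add (contDiffOn_const.mul contDiffOn_id)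
  have h0 : ∀ z ∈ Ioi (-(1 / a)), 1 + a * z ≠ 0 := fun z hz =>
    (rg_pos ha (by rw [neg_div]; exact hz)).ne'
  have h2 : ContDiff ℝ ∞ fun x : ℝ => P.eval x := by
    simpa using P.contDiff_aeval (𝕜 := ℝ) ∞
  exact ⟨1 / a, one_div_pos.2 ha, (h1.rpow_const_of_ne h0).mul
    (h2.comp_contDiffOn (h1.rpow_const_of_ne h0))⟩

theorem rad_tF (ha : 0 < a) (y : R3) : rad (tF a e P) y = tau a y ^ e * P.eval (tau a y) := by
  have h0 : 0 ≤ 1 + a * ‖y‖ ^ 2 := by positivity
  rw [rad, tF, tau, ← Real.rpow_mul h0]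
  congr 2
  ring

theorem rg_bound (ha : 0 < a) (e : ℝ) (P : ℝ[X]) :
    ∃ C, 0 ≤ C ∧ ∀ y, |rad (tF a e P) y| ≤ C * (1 + ‖y‖) ^ (-(e / 2)) := by
  obtain ⟨C, hC⟩ := (isCompact_Icc (a := (0 : ℝ)) (b := 1)).exists_bound_of_continuousOn
    P.continuous.continuousOn
  have hC0 : 0 ≤ C := (norm_nonneg _).trans (hC 0 (by simp))
  have c1 : 0 < min 1 a / 2 := by positivity
  have c2 : 0 < 1 + a := by positivity
  refine ⟨((min 1 a / 2) ^ (-(e / 4)) + (1 + a) ^ (-(e / 4))) * C, by positivity, fun y => ?_⟩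
  have hn := norm_nonneg y
  have h1 : 0 < 1 + ‖y‖ := by positivity
  have h2 : 0 < 1 + a * ‖y‖ ^ 2 := by positivity
  have h3 : min 1 a / 2 ≤ (1 + a * ‖y‖ ^ 2) / (1 + ‖y‖) ^ 2 := by
    rw [div_le_div_iff₀ two_pos (by positivity)]
    have e1 := min_le_left 1 a
    have e2 := mul_le_mul_of_nonneg_right (min_le_right 1 a) (sq_nonneg ‖y‖)
    have e3 := mul_nonneg c1.le (sq_nonneg (1 - ‖y‖))
    nlinarith
  have h4 : (1 + a * ‖y‖ ^ 2) / (1 + ‖y‖) ^ 2 ≤ 1 + a := by
    rw [div_le_iff₀ (by positivity)]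
    nlinarith [mul_nonneg ha.le hn, sq_nonneg ‖y‖]
  have h5 : ((1 + a * ‖y‖ ^ 2) / (1 + ‖y‖) ^ 2) ^ (-(e / 4)) ≤
      (min 1 a / 2) ^ (-(e / 4)) + (1 + a) ^ (-(e / 4)) := by
    rcases le_total 0 (-(e / 4)) with he | he
    · exact (Real.rpow_le_rpow (by positivity) h4 he).trans (le_add_of_nonneg_left (by positivity))
    · exact (Real.rpow_le_rpow_of_nonpos c1 h3 he).trans (le_add_of_nonneg_right (by positivity))
  have h6 : (1 + a * ‖y‖ ^ 2) ^ (-(e / 4)) =
      ((1 + a * ‖y‖ ^ 2) / (1 + ‖y‖) ^ 2) ^ (-(e / 4)) * (1 + ‖y‖) ^ (-(e / 2)) := by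
    rw [show -(e / 2) = 2 * -(e / 4) by ring, Real.rpow_mul h1.le, Real.rpow_two,
      ← Real.mul_rpow (by positivity) (by positivity), div_mul_cancel₀ _ (by positivity)]
  have h7 := hC ((1 + a * ‖y‖ ^ 2) ^ (-(1 / 4) : ℝ)) ⟨by positivity,
    Real.rpow_le_one_of_one_le_of_nonpos (le_add_of_nonneg_right (by positivity)) (by norm_num)⟩
  rw [rad, tF, abs_mul, abs_of_nonneg (by positivity), h6, mul_right_comm]
  rw [Real.norm_eq_abs] at h7
  gcongr

theorem rg_sym_mul (ha : 0 < a) {d : ℕ} {Q : Sc} (h : Hom d Q) :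
    Sym (d - e / 2) fun y => rad (tF a e P) y * Q y := by
  refine sp_sym_of_closed (S := fun r f => ∃ (e : ℝ) (P : ℝ[X]) (d : ℕ) (Q : Sc), Hom d Q ∧
    r = d - e / 2 ∧ f = fun y => rad (tF a e P) y * Q y) ?_ ?_ ?_ ⟨e, P, d, Q, h, rfl, rfl⟩
  · rintro r f ⟨e, P, d, Q, h, -, rfl⟩
    exact (radS_tF ha).smooth.mul h.smooth
  · rintro r f ⟨e, P, d, Q, h, rfl, rfl⟩
    obtain ⟨C, hC, hb⟩ := h.bound
    obtain ⟨C', hC', hb'⟩ := rg_bound ha e P
    refine ⟨C' * C, fun y => ?_⟩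
    have h1 : 0 < 1 + ‖y‖ := by positivity
    have h2 : |Q y| ≤ C * (1 + ‖y‖) ^ (d : ℝ) := by
      rw [Real.rpow_natCast]
      exact (hb y).trans (by gcongr; linarith)
    rw [abs_mul, sub_eq_neg_add (d : ℝ), Real.rpow_add h1, mul_mul_mul_comm]
    exact mul_le_mul (hb' y) h2 (abs_nonneg _) (by positivity)
  · rintro r f ⟨e, P, d, Q, h, rfl, rfl⟩ j
    have hp : pd j (fun y => rad (tF a e P) y * Q y) = fun y =>
        rad (tF a (e + 4) (C (-(a / 4)) * (C e * P + X * derivative P))) y * (2 * (y j * Q y))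
          + rad (tF a e P) y * pd j Q y := by
      rw [Dyn.pd_mul (radS_tF ha).smooth h.smooth]
      funext y
      rw [(radS_tF ha).pd_rad, rad, (rg_has ha (rg_lt ha y)).deriv]
      simp only [rad]
      ring
    refine ⟨_, _, ⟨e + 4, _, 1 + d, _, ((hom_coord j).mul h).cmul 2, by push_cast; ring, rfl⟩,
      ?_, hp⟩
    cases d with
    | zero =>
      refine ⟨e + 2, P, 0, _, hom_zero 0, by ring, funext fun y => ?_⟩
      rw [h.pd_zero, mul_zero, mul_zero]
    | succ d => exact ⟨e, P, d, _, h.pd j, by push_cast; ring, rfl⟩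

theorem sym_tF (ha : 0 < a) : Sym (-(e / 2)) (rad (tF a e P)) := by
  simpa using rg_sym_mul (e := e) (P := P) ha (hom_const 1)

theorem deriv_tF (ha : 0 < a) {z : ℝ} (hz : -1 / a < z) : deriv (tF a e P) z =
    tF a (e + 4) (C (-(a / 4)) * (C e * P + X * derivative P)) z :=
  (rg_has ha hz).deriv

theorem deriv2_tF (ha : 0 < a) {z : ℝ} (hz : -1 / a < z) : deriv (deriv (tF a e P)) z =
    deriv (tF a (e + 4) (C (-(a / 4)) * (C e * P + X * derivative P))) z :=
  Filter.EventuallyEq.deriv_eq ((eventually_gt_nhds hz).mono fun _ hw => deriv_tF ha hw)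

theorem mul_tF (ha : 0 < a) {z : ℝ} (hz : -1 / a < z) :
    a * z * tF a (e + 4) P z = tF a e ((1 - X ^ 4) * P) z := by
  have h0 := rg_pos ha hz
  have h1 : ((1 + a * z) ^ (-(1 / 4) : ℝ)) ^ 4 = (1 + a * z)⁻¹ := by
    rw [← Real.rpow_natCast, ← Real.rpow_mul h0.le, ← Real.rpow_neg_one]
    norm_num
  simp only [tF, eval_mul, eval_sub, eval_one, eval_pow, eval_X, h1]
  rw [show -((e + 4) / 4) = -(e / 4) - 1 by ring, Real.rpow_sub_one h0.ne']
  field_simp
  ring

theorem tF_succ (ha : 0 < a) {z : ℝ} (hz : -1 / a < z) : tF a (e + 1) P z = tF a e (X * P) z := by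
  simp only [tF, eval_mul, eval_X]
  rw [show -((e + 1) / 4) = -(e / 4) + -(1 / 4) by ring, Real.rpow_add (rg_pos ha hz), mul_assoc]

theorem omF_eq_tF {z : ℝ} (hz : -1 < z) :
    omF e P z = tF 1 (4 * e) (C ((2 : ℝ) ^ e) * P.comp (1 - 2 * X ^ 4)) z := by
  have h0 : 0 < 1 + z := by linarith
  have h1 : ((1 + z) ^ (-(1 / 4) : ℝ)) ^ 4 = (1 + z)⁻¹ := by
    rw [← Real.rpow_natCast, ← Real.rpow_mul h0.le, ← Real.rpow_neg_one]
    norm_num
  simp only [omF, tF, eval_mul, eval_C, eval_comp, eval_sub, eval_one, eval_pow, eval_X, one_mul,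
    h1, eval_ofNat]
  rw [Real.div_rpow zero_le_two h0.le, show -(4 * e / 4) = -e by ring, Real.rpow_neg h0.le,
    div_eq_mul_inv, div_eq_mul_inv]
  ring

theorem tor_congr {f : ℝ → ℝ} (h : ∀ z, 0 ≤ z → f z = g z) : tor l f = tor l g := by
  funext i y
  rw [sp_tor_apply, sp_tor_apply, h _ (sq_nonneg _)]

theorem mer_congr {α β α' β' : ℝ → ℝ} (h : ∀ z, 0 ≤ z → α z = α' z) (h' : ∀ z, 0 ≤ z → β z = β' z) :
    mer l α β = mer l α' β' := by
  funext i y
  rw [sp_mer_apply, sp_mer_apply, h _ (sq_nonneg _), h' _ (sq_nonneg _)]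

theorem sym_tor {m : ℝ} (h : Sym m (rad g)) (i : Fin 3) : Sym (m + l) (tor l g i) :=
  md_sym_mul h (harm_TT l i).toHom.sym

theorem sym_mer {m : ℝ} {α β : ℝ → ℝ} (h : Sym m (rad α)) (h' : Sym (m - 2) (rad β)) (i : Fin 3) :
    Sym (m + l - 1) (mer l α β i) := by
  have h1 := md_sym_mul h (md_sym_pd (hom_Hl l).sym i)
  have h2 := md_sym_mul h' ((hom_Hl l).mul (hom_coord i)).sym
  exact md_sym_add (md_sym_mono h1 (by linarith)) (md_sym_mono h2 (by push_cast; linarith))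

theorem adm_tor {m : ℝ} (hg : RadS g) (h : Sym m (rad g)) (hl : l % 2 = 0) (hm : m + l ≤ -2) :
    Adm (tor l g) :=
  ⟨fun i => (sym_tor h i).hinf (by linarith), dvg_tor hg, eqv_tor hl⟩

theorem adm_curl_tor {m : ℝ} (hg : RadS g) (h : Sym m (rad g)) (hl : l % 2 = 0)
    (hm : m + l ≤ -1) : Adm (curl (tor l g)) ∧ ∀ i, Sym (-2) (curl (tor l g) i) :=
  ⟨⟨fun i => (md_sym_curl (sym_tor h) i).hinf (by linarith),
    Dyn.dvg_curl fun i => (sym_tor h i).1,
    eqv_curl (eqv_tor hl) fun i => (sym_tor h i).1.differentiable (by simp)⟩,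
    fun i => md_sym_mono (md_sym_curl (sym_tor h) i) (by linarith)⟩

/-- `curl (g T) = y lap (g H) - grad (g H + y·∇ (g H))`. -/
theorem Null.of_tor {m : ℝ} (hg : RadS g) (h : Sym m (rad g)) (hm : m + l ≤ -3) :
    Null n (tor l g)
      (mer l 0 fun z => -(4 * z * deriv (deriv g) z + (4 * l + 6) * deriv g z)) := by
  have hf : RadS fun z => -((l + 1) * g z + 2 * z * deriv g z) := by
    obtain ⟨b, hb, h1⟩ := hg
    exact ⟨b, hb, ((contDiffOn_const.mul h1).add ((contDiffOn_const.mul contDiffOn_id).mul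
      (h1.deriv_of_isOpen isOpen_Ioi (by simp)))).neg⟩
  have hs : Sym m (rad fun z => -((l + 1) * g z + 2 * z * deriv g z)) := by
    refine (congrArg _ ?_).mp (md_sym_neg (md_sym_add (md_sym_cmul h (l + 1)) (Dyn.sym_yd h)))
    funext y
    rw [show yd (rad g) y = _ from sp_yd_rad (hg.sp_has y)]
    rfl
  have h1 := (Null.of_curl (n := n) fun i => md_sym_mono (sym_tor h i) hm).add
    (Null.of_gradu (φ := rad _ * Hl l) (md_sym_mono (md_sym_mul hs (hom_Hl l).sym) hm))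
  rw [add_zero, curl_tor hg, grad_rad_Hl hf] at h1
  refine (congrArg _ ?_).mp h1
  funext i y
  have h2 := ((((hg.sp_has y).const_mul ((l : ℝ) + 1)).fun_add
    (((hasDerivAt_id' (‖y‖ ^ 2)).const_mul 2).fun_mul (hg.der.sp_has y))).fun_neg).deriv
  simp only [Pi.add_apply, Pi.neg_apply, sp_mer_apply, h2, Pi.zero_apply]
  ring

theorem Null.of_tO (h : l - 2 * e ≤ -3) : Null n (tO l e P)
    (mO l e 0 (-(4 * (1 + X) * dP (e + 1) (dP e P) + C (4 * l + 6 : ℝ) * dP e P))) := by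
  have h1 := Null.of_tor (n := n) (l := l) radS_omF (sym_omF (e := e) (P := P)) (by linarith)
  refine (congrArg _ (sp_mer_congr (fun z _ => by simp [omF]) fun z hz => ?_)).mp h1
  have h2 : deriv (deriv (omF e P)) z = deriv (omF (e + 1) (dP e P)) z :=
    Filter.EventuallyEq.deriv_eq ((eventually_gt_nhds hz).mono fun _ hw => deriv_omF hw)
  rw [h2, deriv_omF hz, deriv_omF hz, mul_assoc, sp_mul_omF hz, sp_omF_neg, sp_omF_add, sp_omF_C,
    mul_assoc, ← sp_omF_C 4]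
  rfl

theorem Null.of_sO (h : l - 2 * e ≤ -2) : Null n (mO l e P (2 * dP e P)) 0 :=
  grad_sO ▸ Null.of_gradv (md_sym_mono sym_sO h)

theorem Null.neg {ϑ ϑ' : Vc} (h : Null n ϑ ϑ') : Null n (-ϑ) (-ϑ') :=
  ⟨fun i => (h.bv i).neg, fun i => (h.bu i).neg, fun w hw hp => by
    rw [md_ip_neg, md_ip_neg, ← neg_add, h.zero w hw hp, neg_zero]⟩

/-- Radial integrals of separated fields. -/
theorem ip_tor (l l' : ℕ) (f g : ℝ → ℝ) : ip (tor l f) (tor l' g) =
    if l = l' then nT l * ∫ r in Ioi (0 : ℝ), r ^ (2 * l + 2) * (f (r ^ 2) * g (r ^ 2)) else 0 := by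
  rw [← int_TT l l' fun r => f (r ^ 2) * g (r ^ 2)]
  refine integral_congr_ae (Filter.Eventually.of_forall fun y => ?_)
  simp only [dot, sp_tor_apply, Fin.sum_univ_three]
  ring

theorem rg_int {m : ℝ} {d : ℕ} (h : Bd m (rad g)) (hm : d + m < -3) :
    IntegrableOn (fun r : ℝ => r ^ (d + 2) * g (r ^ 2)) (Ioi 0) := by
  have h1 : Bd d fun y : R3 => ‖y‖ ^ d :=
    ⟨(continuous_norm.pow d).aestronglyMeasurable, 1, Filter.Eventually.of_forall fun y => by
      rw [one_mul, Real.rpow_natCast, abs_of_nonneg (by positivity)]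
      exact pow_le_pow_left₀ (norm_nonneg y) (le_add_of_nonneg_left zero_le_one) d⟩
  have h2 := (integrable_fun_norm_addHaar (volume : Measure R3)
    (f := fun r => r ^ d * g (r ^ 2))).1 ((h1.mul h).integrable hm)
  refine (congrArg (fun F => IntegrableOn F (Ioi 0) volume) ?_).mp h2
  funext r
  rw [finrank_euclideanSpace_fin, smul_eq_mul]
  ring

theorem rg_polar_grad (l l' : ℕ) (g : ℝ → ℝ) :
    ∫ y, dot (grad (Hl l)) (grad (Hl l')) y * g ‖y‖ =
      if l = l' then 4 * π * l * ∫ r in Ioi (0 : ℝ), r ^ (l + l') * g r else 0 := by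
  have h0 : ∀ i y, pd i (Hl 0) y = 0 := (hom_Hl 0).pd_zero
  rcases l with _ | l
  · simp [dot, grad, h0]
  rcases l' with _ | l'
  · simp [dot, grad, h0]
  have h1 : Hom (l + l') (dot (grad (Hl (l + 1))) (grad (Hl (l' + 1)))) :=
    Hom.sum _ fun i _ => ((hom_Hl (l + 1)).pd i).mul ((hom_Hl (l' + 1)).pd i)
  rw [polar h1.hom, sph_grad_Hl, show l + 1 + (l' + 1) = l + l' + 2 by ring, ite_mul, zero_mul]

theorem ip_mer (l l' : ℕ) {α β α' β' : ℝ → ℝ} {m m' : ℝ} (h1 : Bd m (rad α))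
    (h2 : Bd (m - 2) (rad β)) (h3 : Bd m' (rad α')) (h4 : Bd (m' - 2) (rad β'))
    (hm : m + m' + l + l' < -1) : ip (mer l α β) (mer l' α' β') =
    if l = l' then 4 * π / (2 * l + 1) * ∫ r in Ioi (0 : ℝ), r ^ (2 * l) *
      (l * (l + 1) * (α (r ^ 2) * α' (r ^ 2))
        + (l * α (r ^ 2) + r ^ 2 * β (r ^ 2)) * (l * α' (r ^ 2) + r ^ 2 * β' (r ^ 2))) else 0 := by
  have b1 : Bd (m + m') (rad fun z => α z * α' z) := h1.mul h3
  have b2 : Bd (m + m' - 2) (rad fun z => l * (α z * β' z) + l' * (β z * α' z)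
      + z * (β z * β' z)) :=
    ((((h1.mul h4).mono (by linarith)).cmul _).add (((h2.mul h3).mono (by linarith)).cmul _)).add
      ((hom_normsq.sym.bd.mul (h2.mul h4)).mono (by push_cast; linarith))
  have i1 : Integrable fun y => dot (grad (Hl l)) (grad (Hl l')) y * rad (fun z => α z * α' z) y :=
    ((Bd.sum _ fun i _ => (md_sym_pd (hom_Hl l).sym i).bd.mul
      (md_sym_pd (hom_Hl l').sym i).bd).mul b1).integrable (by linarith)
  have i2 := ((((hom_Hl l).mul (hom_Hl l')).sym.bd).mul b2).integrable (by push_cast; linarith)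
  have e := (integral_add i1 i2).symm
  replace e : _ = ip (mer l α β) (mer l' α' β') := e.trans <| by
    refine integral_congr_ae (Filter.Eventually.of_forall fun y => ?_)
    have e1 := (hom_Hl l).euler y
    have e2 := (hom_Hl l').euler y
    have e3 := sp_normsq y
    simp only [yd, Fin.sum_univ_three] at e1 e2
    simp only [dot, grad, sp_mer_apply, rad, Fin.sum_univ_three]
    generalize ‖y‖ ^ 2 = z at e3 ⊢
    linear_combination -(α z * β' z * Hl l' y) * e1 - (β z * α' z * Hl l y) * e2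
      + (β z * β' z * Hl l y * Hl l' y) * e3
  have p1 := rg_polar_grad l l' fun r => α (r ^ 2) * α' (r ^ 2)
  have p2 := polar (Q := fun y => Hl l y * Hl l' y) ((hom_Hl l).mul (hom_Hl l')).hom fun r =>
    l * (α (r ^ 2) * β' (r ^ 2))
    + l' * (β (r ^ 2) * α' (r ^ 2)) + r ^ 2 * (β (r ^ 2) * β' (r ^ 2))
  rw [← e]
  refine (congrArg₂ _ p1 p2).trans ?_
  rw [sph_Hl]
  split_ifs with hl
  · subst hl
    have j1 : IntegrableOn (fun r : ℝ => (2 * l + 1) * (l * (r ^ (l + l) *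
        (α (r ^ 2) * α' (r ^ 2))))) (Ioi 0) := by
      refine Integrable.const_mul ?_ _
      rcases l with _ | l
      · simp
      · refine Integrable.const_mul ?_ _
        rw [show l + 1 + (l + 1) = l + l + 2 by ring]
        exact rg_int b1 (by push_cast at hm ⊢; linarith)
    have j2 := rg_int (d := l + l) b2 (by push_cast; linarith)
    have h0 : (2 * l + 1 : ℝ) ≠ 0 := by positivity
    have e1 := integral_add j1 j2
    rw [integral_const_mul, integral_const_mul] at e1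
    have e2 : ∀ x y : ℝ, 4 * π * l * x + 4 * π / (2 * l + 1) * y =
        4 * π / (2 * l + 1) * ((2 * l + 1) * (l * x) + y) := fun x y => by
      field_simp
    rw [e2, ← e1]
    congr 1
    refine integral_congr_ae (Filter.Eventually.of_forall fun r => ?_)
    ring
  · rw [zero_mul, add_zero]

end Pool.Agent.Work.MP_6bf1e5_an.H
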