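import Pool.Agent.Work.MP_6bf1e5_an.H.FrD
import Pool.Agent.Work.MP_6bf1e5_an.H.SkRing

/-! Components and radial calculus in the spherical frame (owner helper18). -/

open scoped ContDiff ENNReal FourierTransform Real Topology
open Set MeasureTheory Polynomial Filter

namespace Pool.Agent.Work.MP_6bf1e5_an.H

variable {y : R3} {f g f' g' : Sc} {l m : ℕ} {a s p : ℝ} {w : ℝ[X]}

/-! ### Angular functions -/

theorem has_Pa (l : ℕ) (θ : ℝ) : HasDerivAt (Pa l) (dPa l θ) θ :=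
  (((geg 1 l).hasDerivAt (Real.cos θ)).comp θ (Real.hasDerivAt_cos θ)).congr_deriv (by
    rw [dPa, mul_comm])

theorem has_dPa (l : ℕ) {θ : ℝ} (_h : Real.sin θ ≠ 0) :
    HasDerivAt (dPa l) (-(l * (l + 1) * Pa l θ + cPa l θ)) θ := by
  have h1 := ((derivative (geg 1 l)).hasDerivAt (Real.cos θ)).comp θ (Real.hasDerivAt_cos θ)
  have h2 := congrArg (eval (Real.cos θ)) (geg_ode 1 l)
  simp only [eval_add, eval_sub, eval_mul, eval_pow, eval_C, eval_X, eval_one, eval_zero] at h2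
  refine ((Real.hasDerivAt_sin θ).neg.mul h1).congr_deriv ?_
  simp only [Pa, cPa, Pi.neg_apply, Function.comp_apply]
  push_cast at h2
  linear_combination h2 + (derivative (derivative (geg 1 l))).eval (Real.cos θ) *
    Real.sin_sq_add_cos_sq θ

theorem cont_Pa (l : ℕ) : Continuous (Pa l) := (geg 1 l).continuous.comp Real.continuous_cos

theorem cont_dPa (l : ℕ) : Continuous (dPa l) :=
  Real.continuous_sin.neg.mul ((derivative (geg 1 l)).continuous.comp Real.continuous_cos)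

theorem cont_cPa (l : ℕ) : Continuous (cPa l) :=
  Real.continuous_cos.neg.mul ((derivative (geg 1 l)).continuous.comp Real.continuous_cos)

theorem Off.cot_dPa (h : Off y) (l : ℕ) : y 2 / rc y * dPa l (pa y) = cPa l (pa y) := by
  have h1 := h.norm_pos.ne'
  have h2 := h.rc_pos.ne'
  rw [dPa, cPa, h.sin_pa, cos_pa]
  field_simp

theorem Off.sin_ne (h : Off y) : Real.sin (pa y) ≠ 0 := by
  rw [h.sin_pa]
  exact (div_pos h.rc_pos h.norm_pos).ne'

/-! ### Components -/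

theorem Off.Hl_eq (h : Off y) (l : ℕ) : Hl l y = ‖y‖ ^ l * Pa l (pa y) := by
  rw [Pa, cos_pa]
  exact H.Hl_eq l h.ne_zero

theorem Off.bl_eq (h : Off y) (l : ℕ) : rc y * bl l y = -(‖y‖ ^ l * dPa l (pa y)) := by
  have h1 := (sp_bl_eq l h.ne_zero).1
  have h2 := h.norm_pos.ne'
  rw [dPa, cos_pa, h.sin_pa]
  field_simp
  linear_combination rc y * h1

theorem zF_apply (l : ℕ) (f : Sc) (i : Fin 3) (y : R3) :
    zF l f i y = f y * dPa l (pa y) * fr 2 i y := by
  simp [zF, vF, Fin.sum_univ_three]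

theorem rF_apply (l : ℕ) (f g : Sc) (i : Fin 3) (y : R3) :
    rF l f g i y = f y * Pa l (pa y) * fr 0 i y + g y * dPa l (pa y) * fr 1 i y := by
  simp [rF, vF, Fin.sum_univ_three]

theorem Off.tor_eq (h : Off y) (l : ℕ) (f : ℝ → ℝ) (i : Fin 3) :
    tor l f i y = zF l (fun y => f (‖y‖ ^ 2) * ‖y‖ ^ l) i y := by
  have h1 := h.bl_eq l
  have h2 := h.rc_pos.ne'
  have h3 : Jv i y = -(rc y * fr 2 i y) := by
    fin_cases i <;> simp [Jv, fr] <;> field_simp
  rw [sp_tor_apply, TT_eq, zF_apply, h3]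
  linear_combination (-(f (‖y‖ ^ 2) * fr 2 i y)) * h1

theorem Off.pd_Hl (h : Off y) (l : ℕ) (i : Fin 3) : pd i (Hl l) y =
    ‖y‖ ^ l / ‖y‖ * (l * Pa l (pa y) * fr 0 i y + dPa l (pa y) * fr 1 i y) := by
  have h1 := h.bl_eq l
  have h2 := h.rc_pos.ne'
  have h3 := h.norm_pos.ne'
  have h4 := norm_sq_rc y
  have h5 := sp_grad_Hl l i y
  have h6 : (if i = 2 then ‖y‖ ^ 2 else 0) - y 2 * y i = -(‖y‖ * rc y * fr 1 i y) := by
    fin_cases i <;> simp [fr] <;> field_simp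
    linear_combination h4
  rw [h6, h.Hl_eq] at h5
  rw [fr_zero]
  field_simp
  linear_combination h5 - ‖y‖ * fr 1 i y * h1

theorem Off.mer_eq (h : Off y) (l : ℕ) (α β : ℝ → ℝ) (i : Fin 3) :
    mer l α β i y = rF l (fun y => (l * α (‖y‖ ^ 2) + ‖y‖ ^ 2 * β (‖y‖ ^ 2)) * ‖y‖ ^ l / ‖y‖)
      (fun y => α (‖y‖ ^ 2) * ‖y‖ ^ l / ‖y‖) i y := by
  have h3 := h.norm_pos.ne'
  rw [sp_mer_apply, rF_apply, h.pd_Hl, h.Hl_eq, fr_zero]
  field_simp
  ring

theorem zF_congr (e : f y = g y) (i : Fin 3) : zF l f i y = zF l g i y := by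
  simp only [zF_apply, e]

theorem rF_congr (e : f y = f' y) (e' : g y = g' y) (i : Fin 3) :
    rF l f g i y = rF l f' g' i y := by
  simp only [rF_apply, e, e']

/-! ### Radial functions -/

theorem Rdl.congr (h : Rdl f f') (e : ∀ y, Off y → g y = f y) (e' : ∀ y, Off y → g' y = f' y) :
    Rdl g g' := fun y hy =>
  ⟨hy.diff_congr e (h y hy).1, fun j => by rw [hy.pd_congr e, (h y hy).2, e' y hy]⟩

theorem rdl_const (c : ℝ) : Rdl (fun _ => c) 0 := fun y _ =>
  ⟨differentiableAt_const _, fun j => by simp [fr_pd_const]⟩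

theorem Rdl.add (h : Rdl f f') (h' : Rdl g g') :
    Rdl (fun y => f y + g y) fun y => f' y + g' y := fun y hy =>
  ⟨(h y hy).1.add (h' y hy).1, fun j => by
    rw [sp_pd_add (h y hy).1 (h' y hy).1, (h y hy).2, (h' y hy).2]
    ring⟩

theorem Rdl.sub (h : Rdl f f') (h' : Rdl g g') :
    Rdl (fun y => f y - g y) fun y => f' y - g' y := fun y hy =>
  ⟨(h y hy).1.sub (h' y hy).1, fun j => by
    rw [sp_pd_sub (h y hy).1 (h' y hy).1, (h y hy).2, (h' y hy).2]
    ring⟩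

theorem Rdl.mul (h : Rdl f f') (h' : Rdl g g') :
    Rdl (fun y => f y * g y) fun y => f' y * g y + f y * g' y := fun y hy =>
  ⟨(h y hy).1.mul (h' y hy).1, fun j => by
    rw [sp_pd_mul (h y hy).1 (h' y hy).1, (h y hy).2, (h' y hy).2]
    ring⟩

theorem Rdl.cmul (h : Rdl f f') (c : ℝ) : Rdl (fun y => c * f y) fun y => c * f' y :=
  ((rdl_const c).mul h).congr (fun _ _ => rfl) fun _ _ => by simp

theorem Rdl.sum {ι : Type} (t : Finset ι) {F F' : ι → Sc} (h : ∀ k ∈ t, Rdl (F k) (F' k)) :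
    Rdl (fun y => ∑ k ∈ t, F k y) fun y => ∑ k ∈ t, F' k y := fun y hy =>
  ⟨DifferentiableAt.fun_sum fun k hk => (h k hk y hy).1, fun j => by
    rw [sp_pd_sum t fun k hk => (h k hk y hy).1, Finset.sum_div, Finset.sum_mul]
    exact Finset.sum_congr rfl fun k hk => (h k hk y hy).2 j⟩

theorem Rdl.comp (h : Rdl f f') {φ φ' : ℝ → ℝ} (hφ : ∀ y, Off y → HasDerivAt φ (φ' (f y)) (f y)) :
    Rdl (fun y => φ (f y)) fun y => φ' (f y) * f' y := fun y hy =>
  ⟨(hφ y hy).differentiableAt.comp y (h y hy).1, fun j => by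
    rw [fr_pd_comp (hφ y hy) (h y hy).1, (h y hy).2]
    ring⟩

theorem rdl_norm : Rdl (fun y => ‖y‖) fun y => ‖y‖ := fun y hy =>
  ⟨hy.diff_norm, fun j => by rw [hy.pd_norm, div_self hy.norm_pos.ne', one_mul]⟩

theorem Rdl.div_norm (h : Rdl f f') : Rdl (fun y => f y / ‖y‖) fun y => (f' y - f y) / ‖y‖ :=
  fun y hy => ⟨fr_diff_div (h y hy).1 hy.diff_norm hy.norm_pos.ne', fun j => by
    have := hy.norm_pos.ne'
    rw [fr_pd_div (h y hy).1 hy.diff_norm this, (h y hy).2, hy.pd_norm]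
    field_simp⟩

theorem RadS.rdl {φ : ℝ → ℝ} (h : RadS φ) :
    Rdl (rad φ) fun y => 2 * ‖y‖ ^ 2 * deriv φ (‖y‖ ^ 2) := fun y hy =>
  ⟨h.smooth.differentiable (by simp) y, fun j => by
    have := hy.norm_pos.ne'
    rw [h.pd_rad, fr_zero, rad]
    field_simp⟩

theorem rdl_tau (ha : 0 < a) :
    Rdl (tau a) fun y => -1 / 2 * ((1 - tau a y ^ 4) * tau a y) := fun y hy =>
  ⟨(tau_smooth ha).differentiable (by simp) y, fun j => by
    have h0 := hy.norm_pos.ne'
    have h1 := pd_tau_pow ha 1 j y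
    have h2 := tau_four ha y
    simp only [pow_one] at h1
    rw [h1, fr_zero]
    push_cast
    field_simp
    linear_combination (-(y j * tau a y)) * h2⟩

theorem rdl_tp (ha : 0 < a) (p : ℝ) (w : ℝ[X]) : Rdl (tp a p w) (tp a p (Dk p w)) := by
  refine ((rdl_tau ha).comp (φ := fun t => t ^ p * w.eval t)
    (φ' := fun t => p * t ^ (p - 1) * w.eval t + t ^ p * (derivative w).eval t) fun y _ =>
      (Real.hasDerivAt_rpow_const (Or.inl (tau_pos ha y).ne')).mul (w.hasDerivAt _)).congr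
    (fun _ _ => rfl) fun y _ => ?_
  have h0 := (tau_pos ha y).ne'
  simp only [tp, Dk, eval_mul, eval_add, eval_sub, eval_C, eval_X, eval_pow, eval_one,
    Real.rpow_sub_one h0]
  field_simp

theorem kA_nonneg (a : ℝ) (y : R3) : 0 ≤ kA a y := Real.sqrt_nonneg _

theorem kA_le_one (a : ℝ) (y : R3) : kA a y ≤ 1 :=
  Real.sqrt_le_one.2 (by linarith [show 0 ≤ tau a y ^ 4 by positivity])

theorem kA_sq (ha : 0 < a) (y : R3) : kA a y ^ 2 = 1 - tau a y ^ 4 :=
  Real.sq_sqrt (sub_nonneg.2 (pow_le_one₀ (tau_pos ha y).le (tau_le_one ha y)))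

theorem kA_eq (hs : 0 < s) (y : R3) : kA (s ^ 2) y = s * ‖y‖ * tau (s ^ 2) y ^ 2 := by
  have h2 := tau_four (pow_pos hs 2) y
  rw [kA, show 1 - tau (s ^ 2) y ^ 4 = (s * ‖y‖ * tau (s ^ 2) y ^ 2) ^ 2 by
    linear_combination -h2, Real.sqrt_sq (by positivity)]

theorem rdl_kA (ha : 0 < a) : Rdl (kA a) fun y => kA a y * tau a y ^ 4 := by
  obtain ⟨s, hs, rfl⟩ : ∃ s, 0 < s ∧ a = s ^ 2 := ⟨√a, Real.sqrt_pos.2 ha, (Real.sq_sqrt ha.le).symm⟩
  refine ((rdl_norm.cmul s).mul ((rdl_tau ha).mul (rdl_tau ha))).congr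
    (fun y _ => by rw [kA_eq hs, sq (tau _ y)]) fun y _ => ?_
  rw [kA_eq hs]
  ring

theorem rdl_Op (b : ℝ) : Rdl (Op b) fun y => -(b * (2 - Om y)) * Op b y := by
  refine (radS_omF (e := b) (P := 1)).rdl.congr (fun y _ => by simp [rad_omF]) fun y _ => ?_
  have h1 : -1 < ‖y‖ ^ 2 := by linarith [sq_nonneg ‖y‖]
  have h2 := sp_yd_omF (e := b) (P := 1) 0 h1
  have h3 := rad_omF (e := b) (P := 2 * (1 + X) * dP b 1 + C 0 * 1) y
  rw [rad, ← h2] at h3
  simp only [dP, eval_mul, eval_add, eval_sub, eval_C, eval_X, eval_one, eval_ofNat, derivative_one,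
    eval_zero] at h3
  linear_combination -h3

theorem Rdl.gC (h : Rdl f f') (hy : Off y) (b : Fin 3) :
    vC (grad f) b y = ![f' y, 0, 0] b / ‖y‖ := by
  simp only [vC, dot, grad, (h y hy).2, mul_assoc, ← Finset.mul_sum, hy.orth]
  fin_cases b <;> simp

theorem Rdl.yd (h : Rdl f f') (hy : Off y) : yd f y = f' y := by
  rw [hy.yd_eq, h.gC hy]
  exact mul_div_cancel₀ _ hy.norm_pos.ne'

theorem Rdl.grad_mul (h : Rdl f f') (hy : Off y) {B : ℝ → ℝ} {B' : ℝ} (hB : HasDerivAt B B' (pa y)) :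
    DifferentiableAt ℝ (fun z => f z * B (pa z)) y ∧ ∀ b, vC (grad fun z => f z * B (pa z)) b y =
      ![f' y * B (pa y), f y * B', 0] b / ‖y‖ := by
  have h1 : DifferentiableAt ℝ (fun z => B (pa z)) y := hB.differentiableAt.comp y hy.diff_pa
  refine ⟨(h y hy).1.mul h1, fun b => ?_⟩
  have o0 := hy.orth 0 b
  have o1 := hy.orth 1 b
  simp only [vC, dot, grad, sp_pd_mul (h y hy).1 h1, fr_pd_comp hB hy.diff_pa, hy.pd_pa, (h y hy).2]
  calc _ = (f' y * B (pa y) * ∑ i, fr 0 i y * fr b i y + f y * B' * ∑ i, fr 1 i y * fr b i y) / ‖y‖ := by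
        simp only [Fin.sum_univ_three]
        ring
    _ = _ := by
        rw [o0, o1]
        fin_cases b <;> simp

/-- Functions of `τ` and the polar angle. -/
theorem Off.grad_two (hy : Off y) (ha : 0 < a) {F : ℝ → ℝ → ℝ}
    (hF : DifferentiableAt ℝ (fun q : ℝ × ℝ => F q.1 q.2) (tau a y, pa y)) :
    DifferentiableAt ℝ (fun z => F (tau a z) (pa z)) y ∧
      ∀ b, vC (grad fun z => F (tau a z) (pa z)) b y =
        ![-1 / 2 * ((1 - tau a y ^ 4) * tau a y) * deriv (fun t => F t (pa y)) (tau a y),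
          deriv (F (tau a y)) (pa y), 0] b / ‖y‖ := by
  have h0 := rdl_tau ha y hy
  have h1 := (h0.1.hasFDerivAt.prodMk hy.diff_pa.hasFDerivAt)
  have h2 := hF.hasFDerivAt.comp y h1
  set L := fderiv ℝ (fun q : ℝ × ℝ => F q.1 q.2) (tau a y, pa y) with hL
  have d1 : deriv (fun t => F t (pa y)) (tau a y) = L (1, 0) :=
    (hF.hasFDerivAt.comp_hasDerivAt (f := fun t => (t, pa y)) (tau a y)
      ((hasDerivAt_id (tau a y)).prodMk (hasDerivAt_const (tau a y) (pa y)))).deriv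
  have d2 : deriv (F (tau a y)) (pa y) = L (0, 1) :=
    (hF.hasFDerivAt.comp_hasDerivAt (f := fun t => (tau a y, t)) (pa y)
      ((hasDerivAt_const (pa y) (tau a y)).prodMk (hasDerivAt_id (pa y)))).deriv
  refine ⟨h2.differentiableAt, fun b => ?_⟩
  have e : ∀ j, pd j (fun z => F (tau a z) (pa z)) y =
      pd j (tau a) y * L (1, 0) + pd j pa y * L (0, 1) := fun j => by
    have h3 : pd j (fun z => F (tau a z) (pa z)) y = L (pd j (tau a) y, pd j pa y) :=
      congrArg (fun T : R3 →L[ℝ] ℝ => T (EuclideanSpace.single j 1)) h2.fderiv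
    rw [h3, ← smul_eq_mul, ← smul_eq_mul, ← L.map_smul, ← L.map_smul, ← L.map_add]
    simp
  have o0 := hy.orth 0 b
  have o1 := hy.orth 1 b
  simp only [vC, dot, grad, e, h0.2, hy.pd_pa, d1, d2]
  calc _ = (-1 / 2 * ((1 - tau a y ^ 4) * tau a y) * L (1, 0) * ∑ i, fr 0 i y * fr b i y
        + L (0, 1) * ∑ i, fr 1 i y * fr b i y) / ‖y‖ := by
        simp only [Fin.sum_univ_three]
        ring
    _ = _ := by
        rw [o0, o1]
        fin_cases b <;> simp

end Pool.Agent.Work.MP_6bf1e5_an.H
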