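import Pool.Agent.Work.MP_6bf1e5_an.H.FrA

/-! Derivatives in the spherical frame (owner helper18). -/

open scoped ContDiff ENNReal FourierTransform Real Topology
open Set MeasureTheory Polynomial Filter

namespace Pool.Agent.Work.MP_6bf1e5_an.H

variable {y : R3} {f g : Sc}

theorem Off.ev (h : Off y) : ∀ᶠ z in 𝓝 y, Off z :=
  (by fun_prop : Continuous fun z : R3 => z 0 ^ 2 + z 1 ^ 2).continuousAt.eventually_ne h

theorem Off.pd_congr (h : Off y) (e : ∀ z, Off z → f z = g z) (j : Fin 3) : pd j f y = pd j g y := by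
  unfold pd
  rw [EventuallyEq.fderiv_eq (h.ev.mono e)]

theorem Off.diff_congr (h : Off y) (e : ∀ z, Off z → f z = g z) (hg : DifferentiableAt ℝ g y) :
    DifferentiableAt ℝ f y := hg.congr_of_eventuallyEq (h.ev.mono e)

theorem fr_pd_comp {a : ℝ → ℝ} {a' : ℝ} (ha : HasDerivAt a a' (f y)) (hf : DifferentiableAt ℝ f y)
    (j : Fin 3) : pd j (fun z => a (f z)) y = a' * pd j f y := by
  unfold pd
  rw [(ha.comp_hasFDerivAt y hf.hasFDerivAt).fderiv.symm.symm |> fun e => (e :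
    fderiv ℝ (fun z => a (f z)) y = a' • fderiv ℝ f y)]
  rfl

theorem fr_pd_const (c : ℝ) (j : Fin 3) (y : R3) : pd j (fun _ => c) y = 0 := by simp [pd]

theorem fr_pd_coord (i j : Fin 3) (y : R3) : pd j (fun z => z i) y = if i = j then 1 else 0 :=
  ResHom_pd_coord i j y

theorem fr_pd_inv (hf : DifferentiableAt ℝ f y) (h0 : f y ≠ 0) (j : Fin 3) :
    pd j (fun z => (f z)⁻¹) y = -(f y ^ 2)⁻¹ * pd j f y :=
  fr_pd_comp (hasDerivAt_inv h0) hf j

theorem fr_pd_div (hf : DifferentiableAt ℝ f y) (hg : DifferentiableAt ℝ g y) (h0 : g y ≠ 0)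
    (j : Fin 3) : pd j (fun z => f z / g z) y = pd j f y / g y - f y / g y ^ 2 * pd j g y := by
  simp only [div_eq_mul_inv]
  rw [sp_pd_mul hf (hg.fun_inv h0), fr_pd_inv hg h0]
  ring

theorem fr_diff_div (hf : DifferentiableAt ℝ f y) (hg : DifferentiableAt ℝ g y) (h0 : g y ≠ 0) :
    DifferentiableAt ℝ (fun z => f z / g z) y := by
  simp only [div_eq_mul_inv]
  exact hf.mul (hg.fun_inv h0)

theorem Off.diff_norm (h : Off y) : DifferentiableAt ℝ (fun z : R3 => ‖z‖) y :=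
  differentiableAt_id.norm ℝ h.ne_zero

theorem Off.diff_rc (h : Off y) : DifferentiableAt ℝ rc y :=
  (((sp_coord 0 y).pow 2).add ((sp_coord 1 y).pow 2)).sqrt h

theorem fr_zero (i : Fin 3) (y : R3) : fr 0 i y = y i / ‖y‖ := by fin_cases i <;> rfl

theorem Off.pd_norm (h : Off y) (j : Fin 3) : pd j (fun z : R3 => ‖z‖) y = fr 0 j y := by
  have h1 := sp_pd_normsq j y
  simp only [sq] at h1
  rw [sp_pd_mul h.diff_norm h.diff_norm] at h1
  have h2 := h.norm_pos.ne'
  rw [fr_zero]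
  field_simp
  linarith

theorem Off.pd_rc (h : Off y) (j : Fin 3) : pd j rc y = ![y 0, y 1, 0] j / rc y := by
  have h1 : pd j (fun z => rc z * rc z) y = pd j (fun z : R3 => z 0 * z 0 + z 1 * z 1) y := by
    simp only [← sq, rc_sq]
  rw [sp_pd_mul h.diff_rc h.diff_rc, sp_pd_add ((sp_coord 0 y).fun_mul (sp_coord 0 y))
    ((sp_coord 1 y).fun_mul (sp_coord 1 y)), sp_pd_mul (sp_coord 0 y) (sp_coord 0 y),
    sp_pd_mul (sp_coord 1 y) (sp_coord 1 y), fr_pd_coord, fr_pd_coord] at h1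
  have h2 := h.rc_pos.ne'
  rw [eq_div_iff h2, show pd j rc y * rc y = (pd j rc y * rc y + rc y * pd j rc y) / 2 by ring, h1]
  fin_cases j <;> simp

theorem Off.diff_fr (h : Off y) (a i : Fin 3) : DifferentiableAt ℝ (fr a i) y := by
  have h0 := fun j => sp_coord j y
  have h1 := h.diff_norm
  have h2 := h.diff_rc
  have h3 := h.norm_pos.ne'
  have h4 := h.rc_pos.ne'
  fin_cases a <;> fin_cases i
  · exact fr_diff_div (h0 0) h1 h3
  · exact fr_diff_div (h0 1) h1 h3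
  · exact fr_diff_div (h0 2) h1 h3
  · exact fr_diff_div ((h0 0).fun_mul (h0 2)) (h1.fun_mul h2) (mul_ne_zero h3 h4)
  · exact fr_diff_div ((h0 1).fun_mul (h0 2)) (h1.fun_mul h2) (mul_ne_zero h3 h4)
  · exact (fr_diff_div h2 h1 h3).neg
  · exact (fr_diff_div (h0 1) h2 h4).neg
  · exact fr_diff_div (h0 0) h2 h4
  · exact differentiableAt_const _

theorem Off.pd_fr0 (h : Off y) (i j : Fin 3) :
    pd j (fr 0 i) y = (fr 1 i y * fr 1 j y + fr 2 i y * fr 2 j y) / ‖y‖ := by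
  have h1 := h.comp i j
  have h2 := h.norm_pos.ne'
  rw [show fr 0 i = fun z => z i / ‖z‖ from funext (fr_zero i),
    fr_pd_div (sp_coord i y) h.diff_norm h2, fr_pd_coord, h.pd_norm, ← h1, Fin.sum_univ_three,
    fr_zero i]
  field_simp
  ring

theorem Off.fr_er (h : Off y) (i : Fin 3) :
    fr 0 i y + y 2 / rc y * fr 1 i y = ![y 0, y 1, 0] i * ‖y‖ / rc y ^ 2 := by
  have h1 := h.norm_pos.ne'
  have h2 := h.rc_pos.ne'
  have h4 := norm_sq_rc y
  fin_cases i <;> simp [fr] <;> field_simp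
  · linear_combination (-y 0) * h4
  · linear_combination (-y 1) * h4
  · ring

theorem Off.pd_fr2 (h : Off y) (i j : Fin 3) :
    pd j (fr 2 i) y = -((fr 0 i y + y 2 / rc y * fr 1 i y) * fr 2 j y) / ‖y‖ := by
  have h1 := h.norm_pos.ne'
  have h2 := h.rc_pos.ne'
  have h3 := rc_sq y
  have e : ∀ k, pd j (fun z => z k / rc z) y = _ := fun k =>
    fr_pd_div (sp_coord k y) h.diff_rc h2 j
  simp only [fr_pd_coord, h.pd_rc] at e
  have e0 : pd j (fr 2 0) y = -pd j (fun z => z 1 / rc z) y := by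
    have := sp_pd_cmul (fr_diff_div (sp_coord 1 y) h.diff_rc h2) (-1) j
    simp only [neg_one_mul] at this
    exact this
  have e1 : pd j (fr 2 1) y = pd j (fun z => z 0 / rc z) y := rfl
  have e2 : pd j (fr 2 2) y = 0 := fr_pd_const 0 j y
  rw [h.fr_er]
  fin_cases i
  · refine e0.trans ?_
    rw [e]
    fin_cases j <;> simp [fr] <;> field_simp
    linear_combination -h3
  · refine e1.trans ?_
    rw [e]
    fin_cases j <;> simp [fr] <;> field_simp
    linear_combination h3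
  · refine e2.trans ?_
    simp

theorem Off.pd_orth (h : Off y) (a b j : Fin 3) :
    ∑ i, pd j (fr a i) y * fr b i y + ∑ i, fr a i y * pd j (fr b i) y = 0 := by
  have h1 := h.pd_congr (fun z hz => hz.orth a b) j
  rw [fr_pd_const, sp_pd_sum _ fun i _ => (h.diff_fr a i).fun_mul (h.diff_fr b i)] at h1
  simp only [sp_pd_mul (h.diff_fr a _) (h.diff_fr b _), Finset.sum_add_distrib] at h1
  exact h1

theorem Off.pd_fr1 (h : Off y) (i j : Fin 3) :
    pd j (fr 1 i) y = (y 2 / rc y * (fr 2 i y * fr 2 j y) - fr 0 i y * fr 1 j y) / ‖y‖ := by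
  have h0 := h.pd_orth 1 0 j
  have h1 := h.pd_orth 1 1 j
  have h2 := h.pd_orth 1 2 j
  have o1 := h.orth 1 0
  have o2 := h.orth 1 1
  have o3 := h.orth 1 2
  rw [← h.vF_vC (fun i => pd j (fr 1 i)) i]
  simp only [h.pd_fr0, h.pd_fr2, vF, vC, dot, Fin.sum_univ_three, if_true, Fin.reduceEq, if_false]
    at h0 h1 h2 o1 o2 o3 ⊢
  linear_combination fr 0 i y * h0 + fr 1 i y / 2 * h1 + fr 2 i y * h2
    - fr 0 i y / ‖y‖ * (fr 1 j y * o2 + fr 2 j y * o3)
    + fr 2 i y * fr 2 j y / ‖y‖ * (o1 + y 2 / rc y * o2)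

/-- The Jacobian in the frame. -/
noncomputable def jF (c : Vc) : Mc := fun a b y => vC (grad (c a)) b y +
  ![![0, -c 1 y, -c 2 y], ![0, c 0 y, -(y 2 / rc y * c 2 y)],
    ![0, 0, c 0 y + y 2 / rc y * c 1 y]] a b / ‖y‖

theorem Off.diff_vF (h : Off y) {c : Vc} (hc : ∀ a, DifferentiableAt ℝ (c a) y) (i : Fin 3) :
    DifferentiableAt ℝ (vF c i) y :=
  DifferentiableAt.fun_sum fun a _ => (hc a).fun_mul (h.diff_fr a i)

theorem Off.jac_vF (h : Off y) {c : Vc} (hc : ∀ a, DifferentiableAt ℝ (c a) y) (i j : Fin 3) :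
    jac (vF c) i j y = mF (jF c) i j y := by
  have e : ∀ a, pd j (c a) y = vF (vC (grad (c a))) j y := fun a => (h.vF_vC (grad (c a)) j).symm
  unfold jac vF
  rw [sp_pd_sum _ fun a _ => (hc a).fun_mul (h.diff_fr a i)]
  simp only [sp_pd_mul (hc _) (h.diff_fr _ i), e]
  simp only [Fin.sum_univ_three, h.pd_fr0, h.pd_fr1, h.pd_fr2, mF, jF, vF, Matrix.cons_val]
  ring

/-- The axial vector of a matrix. -/
def axl (m : Mc) : Vc := fun a y => m (a + 2) (a + 1) y - m (a + 1) (a + 2) y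

theorem Off.axl_mF (h : Off y) (m : Mc) (i : Fin 3) : axl (mF m) i y = vF (axl m) i y := by
  have h0 := h.cross_fr 0 i
  have h1 := h.cross_fr 1 i
  have h2 := h.cross_fr 2 i
  simp only [axl, mF, vF, Fin.sum_univ_three, zero_add, Fin.reduceAdd] at h0 h1 h2 ⊢
  linear_combination (m 2 1 y - m 1 2 y) * h0 + (m 0 2 y - m 2 0 y) * h1 + (m 1 0 y - m 0 1 y) * h2

theorem Off.curl_of_jac (h : Off y) {V : Vc} {m : Mc} (e : ∀ i j, jac V i j y = mF m i j y)
    (i : Fin 3) : curl V i y = vF (axl m) i y := by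
  rw [← h.axl_mF, axl, ← e, ← e]
  rfl

theorem Off.dvg_of_jac (h : Off y) {V : Vc} {m : Mc} (e : ∀ i j, jac V i j y = mF m i j y) :
    dvg V y = ∑ a, m a a y := by
  calc _ = ∑ a, ∑ b, m a b y * ∑ i, fr a i y * fr b i y := by
        have : dvg V y = ∑ i, jac V i i y := rfl
        simp only [this, e, mF, Fin.sum_univ_three]
        ring
    _ = _ := by
        simp only [h.orth]
        simp

theorem Off.yd_of_jac (h : Off y) {V : Vc} {m : Mc} (e : ∀ i j, jac V i j y = mF m i j y)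
    (i : Fin 3) : yd (V i) y = vF (fun a y => ‖y‖ * m a 0 y) i y := by
  have h1 : yd (V i) y = mv3 (mF m) (vF ![fun y => ‖y‖, 0, 0]) i y := by
    simp only [yd, mv3, ← e, ← h.pos_eq, jac, pos, mul_comm]
  rw [h1, h.mv3_mF]
  refine vF_congr (fun k => ?_) i
  simp [mv3, Fin.sum_univ_three, mul_comm]

theorem Off.jac_congr (h : Off y) {V V' : Vc} (e : ∀ z, Off z → ∀ i, V i z = V' i z) (i j : Fin 3) :
    jac V i j y = jac V' i j y := h.pd_congr (fun z hz => e z hz i) j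

theorem Off.curl_congr (h : Off y) {V V' : Vc} (e : ∀ z, Off z → ∀ i, V i z = V' i z) (i : Fin 3) :
    curl V i y = curl V' i y := by
  simp only [curl, fun k j => h.pd_congr (fun z hz => e z hz k) j]

theorem Off.yd_congr (h : Off y) (e : ∀ z, Off z → f z = g z) : yd f y = yd g y := by
  simp only [yd, h.pd_congr e]

theorem Off.yd_eq (h : Off y) (f : Sc) : yd f y = ‖y‖ * vC (grad f) 0 y := by
  have h1 := h.norm_pos.ne'
  simp only [yd, vC, dot, grad, fr_zero, Fin.sum_univ_three]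
  field_simp

theorem Off.yd_vF (h : Off y) {c : Vc} (hc : ∀ a, DifferentiableAt ℝ (c a) y) (i : Fin 3) :
    yd (vF c i) y = vF (fun a => yd (c a)) i y := by
  rw [h.yd_of_jac (h.jac_vF hc)]
  refine vF_congr (fun k => ?_) i
  rw [h.yd_eq]
  fin_cases k <;> simp [jF]

theorem Off.cos_lt (h : Off y) : |y 2 / ‖y‖| < 1 := by
  have h1 := h.norm_pos
  have h2 := h.rc_pos
  rw [abs_div, abs_norm, div_lt_one h1]
  refine abs_lt_of_sq_lt_sq ?_ h1.le
  nlinarith [norm_sq_rc y]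

theorem Off.has_arccos (h : Off y) : HasDerivAt Real.arccos (-(‖y‖ / rc y)) (y 2 / ‖y‖) := by
  have h1 := abs_lt.1 h.cos_lt
  have h2 := Real.hasDerivAt_arccos h1.1.ne' h1.2.ne
  rwa [← Real.sin_arccos, show Real.arccos (y 2 / ‖y‖) = pa y from rfl, h.sin_pa, one_div_div] at h2

theorem Off.diff_pa (h : Off y) : DifferentiableAt ℝ pa y :=
  h.has_arccos.differentiableAt.comp y (h.diff_fr 0 2)

theorem Off.pd_pa (h : Off y) (j : Fin 3) : pd j pa y = fr 1 j y / ‖y‖ := by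
  have h1 := h.norm_pos.ne'
  have h2 := h.rc_pos.ne'
  have h3 : pd j pa y = _ := fr_pd_comp (f := fr 0 2) h.has_arccos (h.diff_fr 0 2) j
  rw [h3, h.pd_fr0, show fr 1 2 y = -(rc y / ‖y‖) from rfl, show fr 2 2 y = 0 from rfl]
  field_simp
  ring

end Pool.Agent.Work.MP_6bf1e5_an.H
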