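import Pool.Agent.Work.MP_6bf1e5_an.H.ResHom

/-! The zonal harmonics and the toroidal fields. -/

open scoped ContDiff ENNReal FourierTransform Real
open Set MeasureTheory

namespace Pool.Agent.Work.MP_6bf1e5_an.H

section Calc

variable {f g : Sc}

theorem ResHl_diff (h : ContDiff ℝ ∞ f) (y : R3) : DifferentiableAt ℝ f y :=
  h.differentiable (by simp) y

theorem ResHl_sm_pd (h : ContDiff ℝ ∞ f) (j : Fin 3) : ContDiff ℝ ∞ (pd j f) := by
  unfold pd
  exact (h.fderiv_right (m := ∞) (by simp)).clm_apply contDiff_const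

theorem ResHl_pd_const (c : ℝ) (j : Fin 3) (y : R3) : pd j (fun _ => c) y = 0 := by
  simp [pd]

theorem ResHl_pd_lin (hf : ContDiff ℝ ∞ f) (hg : ContDiff ℝ ∞ g) (a b c : ℝ) (j : Fin 3)
    (y : R3) : pd j (fun z => (a * f z - b * g z) / c) y = (a * pd j f y - b * pd j g y) / c := by
  have h := ((((ResHl_diff hf y).hasFDerivAt.const_mul a).sub
    ((ResHl_diff hg y).hasFDerivAt.const_mul b)).const_mul c⁻¹)
  have e : (fun z => (a * f z - b * g z) / c) = fun z => c⁻¹ * (a * f z - b * g z) := by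
    funext z
    ring
  unfold pd
  rw [e]
  erw [h.fderiv]
  simp
  ring

theorem ResHl_pd_add (hf : ContDiff ℝ ∞ f) (hg : ContDiff ℝ ∞ g) (j : Fin 3) (y : R3) :
    pd j (fun z => f z + g z) y = pd j f y + pd j g y := by
  have h := ResHl_pd_lin hf hg 1 (-1) 1 j y
  simpa using h

theorem ResHl_pd_sub (hf : ContDiff ℝ ∞ f) (hg : ContDiff ℝ ∞ g) (j : Fin 3) (y : R3) :
    pd j (fun z => f z - g z) y = pd j f y - pd j g y := by
  have h := ResHl_pd_lin hf hg 1 1 1 j y
  simpa using h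

theorem ResHl_pd_mul (hf : ContDiff ℝ ∞ f) (hg : ContDiff ℝ ∞ g) (j : Fin 3) (y : R3) :
    pd j (fun z => f z * g z) y = pd j f y * g y + f y * pd j g y := by
  have h := (ResHl_diff hf y).hasFDerivAt.mul (ResHl_diff hg y).hasFDerivAt
  unfold pd
  erw [h.fderiv]
  simp
  ring

theorem ResHl_pd_coord (i j : Fin 3) (y : R3) :
    pd j (fun z => z i) y = if i = j then 1 else 0 := by
  have h : HasFDerivAt (fun z : R3 => z i) (EuclideanSpace.proj i : R3 →L[ℝ] ℝ) y :=
    (EuclideanSpace.proj i : R3 →L[ℝ] ℝ).hasFDerivAt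
  unfold pd
  rw [h.fderiv]
  simp

theorem ResHl_normsq (y : R3) : ‖y‖ ^ 2 = y 0 * y 0 + y 1 * y 1 + y 2 * y 2 := by
  rw [EuclideanSpace.real_norm_sq_eq, Fin.sum_univ_three]
  ring

theorem ResHl_sm_coord (i : Fin 3) : ContDiff ℝ ∞ fun z : R3 => z i := (hom_coord i).smooth

theorem ResHl_pd_normsq (j : Fin 3) (y : R3) : pd j (fun z => ‖z‖ ^ 2) y = 2 * y j := by
  have e : (fun z : R3 => ‖z‖ ^ 2) = fun z => z 0 * z 0 + z 1 * z 1 + z 2 * z 2 :=
    funext ResHl_normsq
  have s := ResHl_sm_coord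
  rw [e, ResHl_pd_add (((s 0).mul (s 0)).add ((s 1).mul (s 1))) ((s 2).mul (s 2)),
    ResHl_pd_add ((s 0).mul (s 0)) ((s 1).mul (s 1)), ResHl_pd_mul (s 0) (s 0),
    ResHl_pd_mul (s 1) (s 1), ResHl_pd_mul (s 2) (s 2)]
  simp only [ResHl_pd_coord]
  fin_cases j <;> simp <;> ring

theorem ResHl_pd_comm (h : ContDiff ℝ ∞ f) (i j : Fin 3) (y : R3) :
    pd i (pd j f) y = pd j (pd i f) y := by
  have hd : DifferentiableAt ℝ (fderiv ℝ f) y :=
    (h.fderiv_right (m := ∞) (by simp)).differentiable (by simp) y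
  have key : ∀ a b : Fin 3, pd a (pd b f) y =
      fderiv ℝ (fderiv ℝ f) y (EuclideanSpace.single a 1) (EuclideanSpace.single b 1) := by
    intro a b
    unfold pd
    rw [fderiv_clm_apply hd (differentiableAt_const _)]
    simp
  have hs : IsSymmSndFDerivAt ℝ f y := by
    refine h.contDiffAt.isSymmSndFDerivAt ?_
    simp only [minSmoothness_of_isRCLikeNormedField]
    exact WithTop.coe_le_coe.2 (le_top : (2 : ℕ∞) ≤ ⊤)
  rw [key, key]
  exact hs.eq _ _

theorem ResHl_lap_mul (hf : ContDiff ℝ ∞ f) (hg : ContDiff ℝ ∞ g) (y : R3) :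
    lap (fun z => f z * g z) y =
      lap f y * g y + 2 * ∑ j, pd j f y * pd j g y + f y * lap g y := by
  have key : ∀ j, pd j (pd j fun z => f z * g z) y =
      pd j (pd j f) y * g y + 2 * (pd j f y * pd j g y) + f y * pd j (pd j g) y := by
    intro j
    have e : (pd j fun z => f z * g z) = fun z => pd j f z * g z + f z * pd j g z :=
      funext fun z => ResHl_pd_mul hf hg j z
    rw [e, ResHl_pd_add ((ResHl_sm_pd hf j).mul hg) (hf.mul (ResHl_sm_pd hg j)),
      ResHl_pd_mul (ResHl_sm_pd hf j) hg, ResHl_pd_mul hf (ResHl_sm_pd hg j)]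
    ring
  simp only [lap, key, Fin.sum_univ_three]
  ring

theorem ResHl_lap_lin (hf : ContDiff ℝ ∞ f) (hg : ContDiff ℝ ∞ g) (a b c : ℝ) (y : R3) :
    lap (fun z => (a * f z - b * g z) / c) y = (a * lap f y - b * lap g y) / c := by
  have key : ∀ j, pd j (pd j fun z => (a * f z - b * g z) / c) y =
      (a * pd j (pd j f) y - b * pd j (pd j g) y) / c := by
    intro j
    have e : (pd j fun z => (a * f z - b * g z) / c) =
        fun z => (a * pd j f z - b * pd j g z) / c :=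
      funext fun z => ResHl_pd_lin hf hg a b c j z
    rw [e, ResHl_pd_lin (ResHl_sm_pd hf j) (ResHl_sm_pd hg j)]
  simp only [lap, key, Fin.sum_univ_three]
  ring

theorem ResHl_lap_coord (i : Fin 3) (y : R3) : lap (fun z => z i) y = 0 := by
  have e : ∀ j, (pd j fun z : R3 => z i) = fun _ => if i = j then 1 else 0 :=
    fun j => funext fun z => ResHl_pd_coord i j z
  simp only [lap, e, ResHl_pd_const, Finset.sum_const_zero]

theorem ResHl_lap_normsq (y : R3) : lap (fun z => ‖z‖ ^ 2) y = 6 := by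
  have e : ∀ j, (pd j fun z : R3 => ‖z‖ ^ 2) = fun z => 2 * z j :=
    fun j => funext fun z => ResHl_pd_normsq j z
  have e2 : ∀ j, pd j (fun z : R3 => 2 * z j) y = 2 := by
    intro j
    rw [ResHl_pd_mul contDiff_const (ResHl_sm_coord j), ResHl_pd_const, ResHl_pd_coord]
    simp
  simp only [lap, e, e2, Fin.sum_univ_three]
  norm_num

end Calc

theorem ResHl_Hl_succ (n : ℕ) : Hl (n + 2) = fun y =>
    ((2 * n + 3) * (y 2 * Hl (n + 1) y) - (n + 1) * (‖y‖ ^ 2 * Hl n y)) / (n + 2) := by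
  rw [Hl]

theorem ResHl_bl_succ (n : ℕ) : bl (n + 2) = fun y =>
    ((2 * n + 3) * (y 2 * bl (n + 1) y + Hl (n + 1) y) - (n + 1) * (‖y‖ ^ 2 * bl n y)) /
      (n + 2) := by
  rw [bl]

theorem ResHl_hom_lin {d : ℕ} {P Q : Sc} (h : Hom d P) (h' : Hom d Q) (a b c : ℝ) :
    Hom d fun y => (a * P y - b * Q y) / c := by
  have e : (fun y => (a * P y - b * Q y) / c) = fun y => c⁻¹ * (a * P y - b * Q y) := by
    funext y
    ring
  rw [e]
  exact ((h.cmul a).sub (h'.cmul b)).cmul c⁻¹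

theorem hom_Hl (l : ℕ) : Hom l (Hl l) := by
  induction l using Nat.twoStepInduction with
  | zero => exact hom_const 1
  | one => exact hom_coord 2
  | more n h0 h1 =>
    rw [ResHl_Hl_succ]
    have a := (hom_coord 2).mul h1
    have b := hom_normsq.mul h0
    rw [show 1 + (n + 1) = n + 2 by ring] at a
    rw [show 2 + n = n + 2 by ring] at b
    exact ResHl_hom_lin a b _ _ _

theorem hom_bl (l : ℕ) : Hom l (bl (l + 1)) := by
  induction l using Nat.twoStepInduction with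
  | zero => exact hom_const 1
  | one =>
    rw [show 1 + 1 = 0 + 2 from rfl, ResHl_bl_succ]
    have a := ((hom_coord 2).mul (hom_const 1)).add (hom_Hl 1)
    have b : Hom 1 fun y : R3 => ‖y‖ ^ 2 * bl 0 y := by
      have e : (fun y : R3 => ‖y‖ ^ 2 * bl 0 y) = fun _ => 0 := by
        funext y
        simp [bl]
      rw [e]
      exact hom_zero 1
    exact ResHl_hom_lin a b _ _ _
  | more n h0 h1 =>
    rw [show n + 2 + 1 = (n + 1) + 2 from rfl, ResHl_bl_succ]
    have a := (hom_coord 2).mul h1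
    have b := hom_normsq.mul h0
    rw [show 1 + (n + 1) = n + 2 by ring] at a
    rw [show 2 + n = n + 2 by ring] at b
    exact ResHl_hom_lin (a.add (hom_Hl (n + 2))) b _ _ _

theorem ResHl_pd_succ (n : ℕ) (j : Fin 3) (y : R3) : pd j (Hl (n + 2)) y =
    ((2 * n + 3) * ((if 2 = j then 1 else 0) * Hl (n + 1) y + y 2 * pd j (Hl (n + 1)) y)
      - (n + 1) * (2 * y j * Hl n y + ‖y‖ ^ 2 * pd j (Hl n) y)) / (n + 2) := by
  rw [ResHl_Hl_succ, ResHl_pd_lin ((ResHl_sm_coord 2).mul (hom_Hl (n + 1)).smooth)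
    (hom_normsq.smooth.mul (hom_Hl n).smooth),
    ResHl_pd_mul (ResHl_sm_coord 2) (hom_Hl (n + 1)).smooth,
    ResHl_pd_mul hom_normsq.smooth (hom_Hl n).smooth, ResHl_pd_coord, ResHl_pd_normsq]

theorem ResHl_pd_zero (j : Fin 3) (y : R3) : pd j (Hl 0) y = 0 := ResHl_pd_const 1 j y

theorem ResHl_pd_one (j : Fin 3) (y : R3) : pd j (Hl 1) y = if 2 = j then 1 else 0 :=
  ResHl_pd_coord 2 j y

/-- Two-step induction on the recurrence. -/
theorem pd_two_Hl (l : ℕ) (y : R3) : pd 2 (Hl (l + 1)) y = (l + 1) * Hl l y := by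
  induction l using Nat.twoStepInduction with
  | zero =>
    rw [zero_add, ResHl_pd_one]
    simp [Hl]
  | one =>
    rw [show 1 + 1 = 0 + 2 from rfl, ResHl_pd_succ, zero_add, ResHl_pd_one, ResHl_pd_zero]
    simp [Hl]
    ring
  | more n h0 h1 =>
    rw [show n + 2 + 1 = (n + 1) + 2 from rfl, ResHl_pd_succ, h0, h1]
    have e := congrFun (ResHl_Hl_succ n) y
    have hn : (n : ℝ) + 2 ≠ 0 := by positivity
    have hn' : (n : ℝ) + 1 + 2 ≠ 0 := by positivity
    rw [eq_div_iff hn] at e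
    rw [show n + 1 + 1 = n + 2 from rfl]
    push_cast
    rw [div_eq_iff hn']
    linear_combination (-(n + 2 : ℝ)) * e

/-- `lap (y₃ H) = y₃ lap H + 2 ∂₃ H`, `lap (|y|² H) = |y|² lap H + 4 y·∇ H + 6 H`, then
`pd_two_Hl` and `Hom.euler`. -/
theorem harm_Hl (l : ℕ) : Harm l (Hl l) := by
  refine ⟨hom_Hl l, fun y => ?_⟩
  induction l using Nat.twoStepInduction with
  | zero =>
    have e : ∀ j, pd j (Hl 0) = fun _ => 0 := fun j => funext fun z => ResHl_pd_zero j z
    simp only [lap, e, ResHl_pd_const, Finset.sum_const_zero]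
  | one => exact ResHl_lap_coord 2 y
  | more n h0 h1 =>
    have eu := (hom_Hl n).euler y
    have p2 := pd_two_Hl n y
    rw [ResHl_Hl_succ, ResHl_lap_lin ((ResHl_sm_coord 2).mul (hom_Hl (n + 1)).smooth)
      (hom_normsq.smooth.mul (hom_Hl n).smooth),
      ResHl_lap_mul (ResHl_sm_coord 2) (hom_Hl (n + 1)).smooth,
      ResHl_lap_mul hom_normsq.smooth (hom_Hl n).smooth, h0, h1, ResHl_lap_coord,
      ResHl_lap_normsq]
    simp only [ResHl_pd_coord, ResHl_pd_normsq, yd, Fin.sum_univ_three] at eu ⊢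
    rw [div_eq_zero_iff]
    left
    simp only [Fin.reduceEq, if_false, if_true]
    rw [p2]
    linear_combination (-4 * (n + 1 : ℝ)) * eu

theorem TT_eq_Jd (l : ℕ) (i : Fin 3) : TT l i = Jd i (Hl l) := rfl

theorem harm_TT (l : ℕ) (i : Fin 3) : Harm l (TT l i) := by
  rw [TT_eq_Jd]
  exact (harm_Hl l).Jd i

/-- `J (y₃ H) = y₃ J H + H Jv`, `J (|y|² H) = |y|² J H`. -/
theorem TT_eq (l : ℕ) (i : Fin 3) (y : R3) : TT l i y = bl l y * Jv i y := by
  rw [TT_eq_Jd]
  induction l using Nat.twoStepInduction with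
  | zero => simp [Jd, ResHl_pd_zero, bl]
  | one =>
    simp only [Jd, ResHl_pd_one, bl, Jv]
    fin_cases i <;> simp
  | more n h0 h1 =>
    have hn : (n : ℝ) + 2 ≠ 0 := by positivity
    have key : y (i + 1) * (if 2 = i + 2 then 1 else 0) - y (i + 2) * (if 2 = i + 1 then 1 else 0)
        = Jv i y := by
      simp only [Jv]
      fin_cases i <;> simp
    simp only [Jd] at h0 h1 ⊢
    rw [ResHl_pd_succ, ResHl_pd_succ, ResHl_bl_succ]
    field_simp
    linear_combination (2 * n + 3 : ℝ) * Hl (n + 1) y * key + (2 * n + 3 : ℝ) * y 2 * h1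
      - (n + 1 : ℝ) * ‖y‖ ^ 2 * h0

theorem dot_pos_TT (l : ℕ) (y : R3) : dot pos (TT l) y = 0 := by
  simp only [dot, pos, TT_eq, Jv, Fin.sum_univ_three]
  simp
  ring

theorem dvg_TT (l : ℕ) (y : R3) : dvg (TT l) y = 0 := by
  have s := (hom_Hl l).smooth
  have key : ∀ i, pd i (TT l i) y = y (i + 1) * pd i (pd (i + 2) (Hl l)) y
      - y (i + 2) * pd i (pd (i + 1) (Hl l)) y := by
    intro i
    rw [TT_eq_Jd]
    unfold Jd
    rw [ResHl_pd_sub ((ResHl_sm_coord _).mul (ResHl_sm_pd s _))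
      ((ResHl_sm_coord _).mul (ResHl_sm_pd s _)),
      ResHl_pd_mul (ResHl_sm_coord _) (ResHl_sm_pd s _),
      ResHl_pd_mul (ResHl_sm_coord _) (ResHl_sm_pd s _), ResHl_pd_coord, ResHl_pd_coord]
    fin_cases i <;> simp
  have c01 := ResHl_pd_comm s 0 1 y
  have c02 := ResHl_pd_comm s 0 2 y
  have c12 := ResHl_pd_comm s 1 2 y
  simp only [dvg, key, Fin.sum_univ_three]
  simp only [Fin.isValue, zero_add, Fin.reduceAdd]
  rw [c01, c02, c12]
  ring

/-- Lagrange's identity and Euler's relation. -/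
theorem dot_TT (l l' : ℕ) (y : R3) : dot (TT l) (TT l') y =
    ‖y‖ ^ 2 * dot (grad (Hl l)) (grad (Hl l')) y - l * l' * (Hl l y * Hl l' y) := by
  have e := (hom_Hl l).euler y
  have e' := (hom_Hl l').euler y
  have r : (l : ℝ) * l' * (Hl l y * Hl l' y) = yd (Hl l) y * yd (Hl l') y := by
    rw [e, e']
    ring
  rw [r, ResHl_normsq]
  simp only [dot, TT, cross, pos, grad, yd, Fin.sum_univ_three]
  simp only [Fin.isValue, zero_add, Fin.reduceAdd]
  ring

theorem ResHl_rot (θ : ℝ) (y : R3) :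
    act (rotM θ) y 0 = Real.cos θ * y 0 - Real.sin θ * y 1 ∧
    act (rotM θ) y 1 = Real.sin θ * y 0 + Real.cos θ * y 1 ∧ act (rotM θ) y 2 = y 2 := by
  refine ⟨?_, ?_, ?_⟩ <;> simp [act, rotM, Fin.sum_univ_three]
  ring

theorem ResHl_flp (y : R3) :
    act flpM y 0 = y 0 ∧ act flpM y 1 = -y 1 ∧ act flpM y 2 = -y 2 := by
  refine ⟨?_, ?_, ?_⟩ <;> simp [act, flpM, Fin.sum_univ_three]

theorem norm_act_rot (θ : ℝ) (y : R3) : ‖act (rotM θ) y‖ = ‖y‖ := by
  obtain ⟨a, b, c⟩ := ResHl_rot θ y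
  rw [← sq_eq_sq₀ (norm_nonneg _) (norm_nonneg _), ResHl_normsq, ResHl_normsq, a, b, c]
  linear_combination (y 0 * y 0 + y 1 * y 1) * Real.sin_sq_add_cos_sq θ

theorem norm_act_flp (y : R3) : ‖act flpM y‖ = ‖y‖ := by
  obtain ⟨a, b, c⟩ := ResHl_flp y
  rw [← sq_eq_sq₀ (norm_nonneg _) (norm_nonneg _), ResHl_normsq, ResHl_normsq, a, b, c]
  ring

theorem Hl_rot (l : ℕ) (θ : ℝ) (y : R3) : Hl l (act (rotM θ) y) = Hl l y := by
  induction l using Nat.twoStepInduction with
  | zero => rfl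
  | one => exact (ResHl_rot θ y).2.2
  | more n h0 h1 => simp only [ResHl_Hl_succ, h0, h1, norm_act_rot, (ResHl_rot θ y).2.2]

theorem bl_rot (l : ℕ) (θ : ℝ) (y : R3) : bl l (act (rotM θ) y) = bl l y := by
  induction l using Nat.twoStepInduction with
  | zero => rfl
  | one => rfl
  | more n h0 h1 => simp only [ResHl_bl_succ, h0, h1, Hl_rot, norm_act_rot, (ResHl_rot θ y).2.2]

theorem Hl_flp (l : ℕ) (y : R3) : Hl l (act flpM y) = (-1) ^ l * Hl l y := by
  induction l using Nat.twoStepInduction with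
  | zero => simp [Hl]
  | one =>
    rw [pow_one, neg_one_mul]
    exact (ResHl_flp y).2.2
  | more n h0 h1 =>
    simp only [ResHl_Hl_succ n, h0, h1, norm_act_flp, (ResHl_flp y).2.2]
    ring

theorem bl_flp (l : ℕ) (y : R3) : bl l (act flpM y) = (-1) ^ (l + 1) * bl l y := by
  induction l using Nat.twoStepInduction with
  | zero => simp [bl]
  | one => simp [bl]
  | more n h0 h1 =>
    simp only [ResHl_bl_succ n, h0, h1, Hl_flp, norm_act_flp, (ResHl_flp y).2.2]
    ring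

theorem eqv_TT {l : ℕ} (hl : Even l) : Eqv (TT l) := by
  refine ⟨fun θ y i => ?_, fun y i => ?_⟩
  · obtain ⟨a, b, -⟩ := ResHl_rot θ y
    simp only [TT_eq, bl_rot, Jv, a, b, Fin.sum_univ_three]
    fin_cases i <;> simp [rotM] <;> ring
  · obtain ⟨a, b, -⟩ := ResHl_flp y
    simp only [TT_eq, bl_flp, Jv, a, b, Fin.sum_univ_three, pow_succ, hl.neg_one_pow]
    fin_cases i <;> simp [flpM]

theorem eqv_TF (a : ℝ) {L : Finset ℕ} (hL : ∀ l ∈ L, Even l) (f : ℕ → ℝ → ℝ) :
    Eqv (TF a L f) := by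
  have key : ∀ M, (∀ y, ‖act M y‖ = ‖y‖) → (∀ l ∈ L, EqM M (TT l)) → EqM M (TF a L f) := by
    intro M hn hM y i
    simp only [TF, tau, hn, Finset.mul_sum]
    rw [Finset.sum_comm]
    refine Finset.sum_congr rfl fun l hl => ?_
    rw [hM l hl y i, Finset.mul_sum]
    refine Finset.sum_congr rfl fun j _ => ?_
    ring
  exact ⟨fun θ => key _ (norm_act_rot θ) fun l hl => (eqv_TT (hL l hl)).1 θ,
    key _ norm_act_flp fun l hl => (eqv_TT (hL l hl)).2⟩

end Pool.Agent.Work.MP_6bf1e5_an.H
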