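import Pool.Agent.Work.MP_6bf1e5_an.H.SkSep
import Pool.Agent.Work.MP_6bf1e5_an.H.ResHl
import Pool.Agent.Work.MP_6bf1e5_an.H.DynCalc

/-! Algebra for the Galerkin splitting: spans of axisymmetric monomials, triangular systems. -/

open scoped ContDiff ENNReal FourierTransform Real
open Set MeasureTheory Polynomial

namespace Pool.Agent.Work.MP_6bf1e5_an.H

noncomputable section

/-- Axisymmetric monomials. -/
def GalS (a c : ℕ) : Sc := fun y => (Om y * y 2) ^ a * (1 - Om y) ^ c

/-- Their spans, by parity, degree in the third coordinate and total degree. -/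
def GalW (p A d : ℕ) : Submodule ℝ Sc :=
  Submodule.span ℝ {f | ∃ a c, a % 2 = p % 2 ∧ a < A ∧ a + c ≤ d ∧ f = GalS a c}

/-- The functions annihilated by integration against `F`. -/
def GalK {𝕜 : Type} [RCLike 𝕜] (F : R3 → 𝕜) : Submodule 𝕜 (R3 → 𝕜) where
  carrier := {f | Integrable (fun y => F y * f y) ∧ ∫ y, F y * f y = 0}
  add_mem' := by
    rintro f g ⟨h, h'⟩ ⟨k, k'⟩
    simp only [mem_setOf_eq, Pi.add_apply, mul_add]
    exact ⟨h.add k, by rw [integral_add h k, h', k', add_zero]⟩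
  zero_mem' := by simp
  smul_mem' := by
    rintro c f ⟨h, h'⟩
    simp only [mem_setOf_eq, Pi.smul_apply, smul_eq_mul, mul_left_comm _ c]
    exact ⟨h.const_mul c, by rw [integral_const_mul, h', mul_zero]⟩

end

variable {p p' A A' d d' a c : ℕ} {x : Sc}

theorem Gal_sig (y : R3) : sig 0 y = Om y * y 0 ∧ sig 1 y = Om y * y 1 ∧ sig 2 y = Om y * y 2 ∧
    sig 3 y = 1 - Om y :=
  ⟨Fin.lastCases_castSucc (0 : Fin 3), Fin.lastCases_castSucc (1 : Fin 3),
    Fin.lastCases_castSucc (2 : Fin 3), Fin.lastCases_last⟩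

theorem Gal_r (y : R3) : Om y ^ 2 * ‖y‖ ^ 2 = 1 - (1 - Om y) ^ 2 := by
  unfold Om
  field_simp
  ring

theorem GalW_mem (hp : a % 2 = p % 2) (ha : a < A) (hd : a + c ≤ d) : GalS a c ∈ GalW p A d :=
  Submodule.subset_span ⟨a, c, hp, ha, hd, rfl⟩

theorem GalW_le {K : Submodule ℝ Sc}
    (h : ∀ a c, a % 2 = p % 2 → a < A → a + c ≤ d → GalS a c ∈ K) : GalW p A d ≤ K := by
  refine Submodule.span_le.2 ?_
  rintro _ ⟨a, c, h1, h2, h3, rfl⟩
  exact h a c h1 h2 h3

theorem GalW_mono (h : x ∈ GalW p A d) (hp : p % 2 = p' % 2) (hA : A ≤ A') (hd : d ≤ d') :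
    x ∈ GalW p' A' d' :=
  GalW_le (fun a c h1 h2 h3 => GalW_mem (by omega) (by omega) (by omega)) h

theorem GalW_mul (h : x ∈ GalW p A d) (a c : ℕ) (hp : (p + a) % 2 = p' % 2) (hA : A + a ≤ A')
    (hd : d + a + c ≤ d') : GalS a c * x ∈ GalW p' A' d' := by
  refine GalW_le (K := (GalW p' A' d').comap (LinearMap.mulLeft ℝ (GalS a c))) ?_ h
  intro a' c' h1 h2 h3
  have e : GalS a c * GalS a' c' = GalS (a + a') (c + c') := by
    funext y
    simp only [GalS, Pi.mul_apply]
    ring
  rw [Submodule.mem_comap, LinearMap.mulLeft_apply, e]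
  exact GalW_mem (by omega) (by omega) (by omega)

theorem GalW_r (h : x ∈ GalW p A d) (hp : p % 2 = p' % 2) (hA : A ≤ A') (hd : d + 2 ≤ d') :
    (fun y => Om y ^ 2 * ‖y‖ ^ 2 * x y) ∈ GalW p' A' d' := by
  have e : (fun y => Om y ^ 2 * ‖y‖ ^ 2 * x y) = x - GalS 0 2 * x := by
    funext y
    simp only [Gal_r, GalS, Pi.mul_apply, Pi.sub_apply]
    ring
  rw [e]
  exact sub_mem (GalW_mono h hp hA (by omega)) (GalW_mul h 0 2 (by omega) (by omega) (by omega))

theorem Gal_Hl (l : ℕ) : ∃ κ > 0, (fun y => Om y ^ l * Hl l y - κ * GalS l 0 y) ∈ GalW l l l := by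
  induction l using Nat.twoStepInduction with
  | zero => exact ⟨1, one_pos, by simp [Hl, GalS, ← Pi.zero_def]⟩
  | one => exact ⟨1, one_pos, by simp [Hl, GalS, ← Pi.zero_def]⟩
  | more n h0 h1 =>
    obtain ⟨k0, -, h0⟩ := h0
    obtain ⟨k1, p1, h1⟩ := h1
    refine ⟨(2 * n + 3) / (n + 2) * k1, by positivity, ?_⟩
    have a1 := GalW_mul h1 1 0 (p' := n + 2) (A' := n + 2) (d' := n + 2) (by omega) (by omega)
      (by omega)
    have a0 := GalW_r h0 (p' := n + 2) (A' := n + 2) (d' := n + 2) (by omega) (by omega) (by omega)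
    have a2 := GalW_r (GalW_mem (a := n) (c := 0) (p := n) (A := n + 1) (d := n) rfl (by omega)
      (by omega)) (p' := n + 2) (A' := n + 2) (d' := n + 2) (by omega) (by omega) (by omega)
    convert sub_mem (Submodule.smul_mem _ ((2 * n + 3) / (n + 2) : ℝ) a1)
      (Submodule.smul_mem _ ((n + 1) / (n + 2) : ℝ)
        (add_mem a0 (Submodule.smul_mem _ k0 a2))) using 1
    funext y
    simp only [ResHl_Hl_succ, GalS, Pi.mul_apply, Pi.sub_apply, Pi.add_apply, Pi.smul_apply,
      smul_eq_mul]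
    ring

theorem Gal_bl (l : ℕ) :
    ∃ κ > 0, (fun y => Om y ^ l * bl (l + 1) y - κ * GalS l 0 y) ∈ GalW l l l := by
  induction l using Nat.twoStepInduction with
  | zero => exact ⟨1, one_pos, by simp [bl, GalS, ← Pi.zero_def]⟩
  | one =>
    refine ⟨3, by norm_num, ?_⟩
    convert zero_mem (GalW 1 1 1) using 1
    funext y
    simp [bl, Hl, GalS]
    ring
  | more n h0 h1 =>
    obtain ⟨k0, -, h0⟩ := h0
    obtain ⟨k1, p1, h1⟩ := h1
    obtain ⟨k2, p2, h2⟩ := Gal_Hl (n + 2)
    refine ⟨(2 * n + 5) / (n + 3) * (k1 + k2), by positivity, ?_⟩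
    have a1 := GalW_mul h1 1 0 (p' := n + 2) (A' := n + 2) (d' := n + 2) (by omega) (by omega)
      (by omega)
    have a0 := GalW_r h0 (p' := n + 2) (A' := n + 2) (d' := n + 2) (by omega) (by omega) (by omega)
    have a2 := GalW_r (GalW_mem (a := n) (c := 0) (p := n) (A := n + 1) (d := n) rfl (by omega)
      (by omega)) (p' := n + 2) (A' := n + 2) (d' := n + 2) (by omega) (by omega) (by omega)
    convert sub_mem (Submodule.smul_mem _ ((2 * n + 5) / (n + 3) : ℝ) (add_mem a1 h2))
      (Submodule.smul_mem _ ((n + 2) / (n + 3) : ℝ)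
        (add_mem a0 (Submodule.smul_mem _ k0 a2))) using 1
    funext y
    rw [show n + 2 + 1 = (n + 1) + 2 from rfl, ResHl_bl_succ]
    simp only [GalS, Pi.mul_apply, Pi.sub_apply, Pi.add_apply, Pi.smul_apply, smul_eq_mul]
    push_cast
    have : (n : ℝ) + 1 + 2 ≠ 0 := by positivity
    have : (n : ℝ) + 3 ≠ 0 := by positivity
    field_simp
    ring

/-- The toroidal harmonics span the odd axisymmetric polynomials. -/
theorem Gal_span_tor {K : Submodule ℝ Sc} {N : ℕ} (h : ∀ a m, a % 2 = 1 → a + 1 + m ≤ N →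
    (fun y => Om y ^ a * bl (a + 1) y * (geg (2 * (a + 1) + 2) m).eval (1 - Om y)) ∈ K)
    (A : ℕ) (hd : d + 1 ≤ N) : GalW 1 A d ≤ K := by
  have h1 : ∀ a c, a % 2 = 1 → a + 1 + c ≤ N →
      (fun y => Om y ^ a * bl (a + 1) y * (1 - Om y) ^ c) ∈ K := by
    intro a c ha hc
    let T : ℝ[X] →ₗ[ℝ] Sc :=
      { toFun := fun P y => Om y ^ a * bl (a + 1) y * P.eval (1 - Om y)
        map_add' := fun P Q => by
          funext y
          simp [mul_add]
        map_smul' := fun r P => by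
          funext y
          simp
          ring }
    let S : Polynomial.Sequence ℝ := ⟨geg (2 * (a + 1) + 2), geg_degree (by omega)⟩
    have e := S.span_degreeLE (m := c) fun i _ =>
      (leadingCoeff_ne_zero.2 (S.ne_zero i)).isUnit
    have le : degreeLE ℝ c ≤ K.comap T := by
      rw [← e, Submodule.span_le]
      rintro _ ⟨m, hm, rfl⟩
      exact h a m ha (by have : m ≤ c := hm; omega)
    have := le (mem_degreeLE.2 (degree_X_pow_le (R := ℝ) c))
    simpa [T] using this
  induction A generalizing d with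
  | zero => exact GalW_le fun a c _ h => absurd h (by omega)
  | succ A ih =>
    refine GalW_le fun a c ha hA hc => ?_
    rcases Nat.lt_succ_iff_lt_or_eq.1 hA with hA | rfl
    · exact ih hd (GalW_mem ha hA hc)
    obtain ⟨k, pk, hk⟩ := Gal_bl a
    have a1 := ih hd (GalW_mul hk 0 c (p' := 1) (A' := a) (d' := d) (by omega) (by omega)
      (by omega))
    convert K.smul_mem k⁻¹ (sub_mem (h1 a c (by omega) (by omega)) a1) using 1
    funext y
    simp only [GalS, Pi.mul_apply, Pi.sub_apply, Pi.smul_apply, smul_eq_mul]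
    field_simp
    ring

/-- Triangular linear systems are solvable. -/
theorem Gal_tri {ι I : Type} [Fintype ι] (S : Finset I) (r : I → ℕ) (A : ι → I → ℝ)
    (h : ∀ a ∈ S, ∃ j, A j a ≠ 0 ∧ ∀ a' ∈ S, a' ≠ a → A j a' ≠ 0 → r a < r a') (t : I → ℝ) :
    ∃ c : ι → ℝ, ∀ a ∈ S, ∑ j, c j * A j a = t a := by
  classical
  induction S using Finset.induction_on_max_value r with
  | empty => exact ⟨0, by simp⟩
  | insert a s ha hm ih =>
    obtain ⟨c, hc⟩ := ih fun b hb => by
      obtain ⟨j, h1, h2⟩ := h b (Finset.mem_insert_of_mem hb)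
      exact ⟨j, h1, fun b' hb' => h2 b' (Finset.mem_insert_of_mem hb')⟩
    obtain ⟨j, h1, h2⟩ := h a (Finset.mem_insert_self a s)
    refine ⟨fun i => c i + if i = j then (t a - ∑ j, c j * A j a) / A j a else 0, fun b hb => ?_⟩
    simp only [add_mul, Finset.sum_add_distrib, ite_mul, zero_mul, Finset.sum_ite_eq',
      Finset.mem_univ, if_true]
    rcases Finset.mem_insert.1 hb with rfl | hb
    · field_simp
      ring
    · have : A j b = 0 := by
        by_contra h0
        have := h2 b (Finset.mem_insert_of_mem hb) (fun e => ha (e ▸ hb)) h0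
        have := hm b hb
        omega
      rw [hc b hb, this, mul_zero, add_zero]

end Pool.Agent.Work.MP_6bf1e5_an.H
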