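import Pool.Agent.Work.MP_6bf1e5_an.H.GalAlg
import Pool.Agent.Work.MP_6bf1e5_an.H.SkConf
import Pool.Agent.Work.MP_6bf1e5_an.H.SkBd

/-! The meridional tests of a curl are toroidal tests of its potential. -/

open scoped ContDiff ENNReal FourierTransform Real
open Set MeasureTheory Polynomial

namespace Pool.Agent.Work.MP_6bf1e5_an.H

/-- Smooth and bounded with bounded first derivatives. -/
def GalB (f : Sc) : Prop := ContDiff ℝ ∞ f ∧ Bd 0 f ∧ ∀ j, Bd 0 (pd j f)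

variable {f g : Sc} {k : ℕ}

theorem Gal_inA_bd (h : InA f) : Bd 0 f := by
  obtain ⟨F, h⟩ := h
  exact ⟨h.smooth.continuous.aestronglyMeasurable, _, .of_forall fun y => by simpa using h.bdd y⟩

theorem Gal_inA_B (h : InA f) : GalB f :=
  ⟨h.choose_spec.smooth, Gal_inA_bd h, fun j => Gal_inA_bd ⟨_, h.choose_spec.pd j⟩⟩

theorem Gal_inA_sub (h : InA f) (h' : InA g) : InA fun y => f y - g y := by
  obtain ⟨F, h⟩ := h
  obtain ⟨G, h'⟩ := h'
  refine ⟨_, by convert h.add (h'.smul (-1)) using 1; funext y; simp [sub_eq_add_neg]⟩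

theorem Gal_bd_test (hg : PolyF k g) (b : ℝ) : Bd (-(2 * b)) fun y => Op b y * g y := by
  simpa using (bd_Op b).mul hg.sym.bd

theorem Gal_int_test (hf : Bd 0 f) (hg : PolyF k g) :
    Integrable fun y => f y * (Op (9 / 4) y * g y) :=
  (hf.mul (Gal_bd_test hg _)).integrable (by norm_num)

theorem GalK_one : f ∈ GalK (fun _ => (1 : ℝ)) ↔ Integrable f ∧ ∫ y, f y = 0 := by
  change Integrable (fun y => 1 * f y) ∧ ∫ y, 1 * f y = 0 ↔ _
  simp only [one_mul]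

theorem Gal_ibp (hf : GalB f) (hg : PolyF k g) (j : Fin 3) : (fun y => pd j f y *
    (Op (9 / 4) y * g y) + f y * pd j (Op (9 / 4) * g) y) ∈ GalK fun _ => (1 : ℝ) := by
  obtain ⟨g', hg', e⟩ := hg.pd_Op (9 / 4) j
  have i0 := Gal_int_test hf.2.1 hg
  have i1 := Gal_int_test (hf.2.2 j) hg
  have i2 : Integrable fun y => f y * pd j (Op (9 / 4) * g) y := by
    rw [e]
    exact Gal_int_test hf.2.1 hg'
  refine GalK_one.2 ⟨i1.add i2, ?_⟩
  have := integral_mul_fderiv_eq_neg_fderiv_mul_of_integrable (g := Op (9 / 4) * g) i1 i2 i0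
    (fun y _ => ResHl_diff hf.1 y) (fun y _ => ResHl_diff ((sym_Op _).1.mul hg.sym.1) y)
  rw [integral_add i1 i2]
  exact add_eq_zero_iff_eq_neg'.2 this

theorem Gal_polyF (j : Fin 4) (e a c : ℕ) : ∃ k, PolyF k fun y => sig j y ^ e * GalS a c y :=
  ⟨_, MvPolynomial.X j ^ e * (MvPolynomial.X 2 ^ a * MvPolynomial.X 3 ^ c), le_rfl, by
    funext y
    simp [GalS, Gal_sig y]⟩

theorem Gal_pd_comp {φ : ℝ → ℝ} {d : ℝ} {y : R3} (hf : ContDiff ℝ ∞ f) (h : HasDerivAt φ d (f y))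
    (j : Fin 3) : pd j (fun z => φ (f z)) y = d * pd j f y := by
  have := (h.comp_hasFDerivAt y (ResHl_diff hf y).hasFDerivAt).fderiv
  rw [pd, show fderiv ℝ (fun z => φ (f z)) y = _ from this]
  rfl

theorem Gal_pd_Om (j : Fin 3) (y : R3) : pd j Om y = -(Om y ^ 2 * y j) := by
  have h0 : 1 + ‖y‖ ^ 2 ≠ 0 := by positivity
  have := Gal_pd_comp (φ := fun t => 2 / (1 + t)) (f := fun z => ‖z‖ ^ 2) (y := y)
    (contDiff_norm_sq ℝ) ((hasDerivAt_const _ 2).div ((hasDerivAt_id _).const_add 1) h0) j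
  rw [ResHl_pd_normsq] at this
  refine this.trans ?_
  simp only [Om, id]
  field_simp
  ring

theorem Gal_smooth_S (a c : ℕ) : ContDiff ℝ ∞ (GalS a c) :=
  ((Dyn.Om_smooth.mul (Dyn.coord_smooth 2)).pow a).mul ((contDiff_const.sub Dyn.Om_smooth).pow c)

theorem Gal_pd_test (e : ℝ) (a c : ℕ) (j : Fin 3) (y : R3) :
    pd j (fun z => Op e z * GalS a c z) y = Op e y * Om y *
      (y j * (c * GalS a (c - 1) y - (e + a + c) * GalS a c y)
        + if 2 = j then a * GalS (a - 1) c y else 0) := by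
  have s3 := Dyn.Om_smooth.mul (Dyn.coord_smooth 2)
  have s4 := (contDiff_const (c := (1 : ℝ))).sub Dyn.Om_smooth
  have hO := Dyn.Om_pos y
  have d0 : pd j (Op e) y = _ :=
    Gal_pd_comp Dyn.Om_smooth (Real.hasDerivAt_rpow_const (p := e) (Or.inl hO.ne')) j
  have d3 := Gal_pd_comp (y := y) s3 (hasDerivAt_pow a _) j
  have d4 := Gal_pd_comp (y := y) s4 (hasDerivAt_pow c _) j
  rw [ResHl_pd_mul Dyn.Om_smooth (Dyn.coord_smooth 2), ResHl_pd_coord] at d3
  rw [ResHl_pd_sub contDiff_const Dyn.Om_smooth, ResHl_pd_const] at d4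
  rw [ResHl_pd_mul (sym_Op e).1 (Gal_smooth_S a c), d0]
  unfold GalS
  rw [ResHl_pd_mul (s3.pow a) (s4.pow c), d3, d4, Gal_pd_Om, Real.rpow_sub_one hO.ne']
  have e3 : a * (Om y * y 2) ^ (a - 1) * (Om y * y 2) = a * (Om y * y 2) ^ a := by
    cases a <;> simp [pow_succ, mul_assoc]
  have e4 : c * (1 - Om y) ^ (c - 1) * (1 - Om y) = c * (1 - Om y) ^ c := by
    cases c <;> simp [pow_succ, mul_assoc]
  simp only [Op]
  have : Om y ^ e / Om y = Om y ^ e * (Om y)⁻¹ := div_eq_mul_inv _ _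
  have i := mul_inv_cancel₀ hO.ne'
  split_ifs <;>
    linear_combination (-(Om y ^ e * Om y * y j * (1 - Om y) ^ c)) * e3
      - Om y ^ e * Om y * y j * (Om y * y 2) ^ a * e4
      - e * Om y ^ e * Om y * y j * (Om y * y 2) ^ a * (1 - Om y) ^ c * i

variable {Ψ : Vc} {n : ℕ}

theorem Gal_mer2 (hΨ : ∀ i, GalB (Ψ i)) (h : ∀ A, GalW 1 A n ≤
      GalK fun y => Op (9 / 4) y * (Om y * (Ψ 0 y * y 1 - Ψ 1 y * y 0)))
    (a c : ℕ) (ha : a % 2 = 1) (hn : a + c ≤ n) :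
    ∫ y, Op (9 / 4) y * curl Ψ 2 y * GalS a c y = 0 := by
  obtain ⟨k, hk⟩ := Gal_polyF 0 0 a c
  simp only [pow_zero, one_mul] at hk
  have m := h (a + 1) (sub_mem (Submodule.smul_mem _ (c : ℝ)
    (GalW_mem (a := a) (c := c - 1) ha (by omega) (by omega)))
    (Submodule.smul_mem _ (9 / 4 + a + c : ℝ) (GalW_mem (a := a) (c := c) ha (by omega) hn)))
  have := GalK_one.1 (add_mem (sub_mem (Gal_ibp (hΨ 1) hk 0) (Gal_ibp (hΨ 0) hk 1))
    (GalK_one.2 m))
  refine (integral_congr_ae (.of_forall fun y => ?_)).trans this.2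
  have d0 : pd 0 (Op (9 / 4) * GalS a c) y = _ := Gal_pd_test (9 / 4) a c 0 y
  have d1 : pd 1 (Op (9 / 4) * GalS a c) y = _ := Gal_pd_test (9 / 4) a c 1 y
  simp only [curl, Pi.add_apply, Pi.sub_apply, Pi.smul_apply, smul_eq_mul, d0, d1]
  simp
  ring

theorem Gal_mer1 (hΨ : ∀ i, GalB (Ψ i)) (h : ∀ A, GalW 1 A n ≤
      GalK fun y => Op (9 / 4) y * (Om y * (Ψ 0 y * y 1 - Ψ 1 y * y 0)))
    (a c : ℕ) (ha : a % 2 = 0) (hn : a + c + 1 ≤ n) :
    ∫ y, Op (9 / 4) y * (Om y * (curl Ψ 0 y * y 0 + curl Ψ 1 y * y 1)) * GalS a c y = 0 := by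
  obtain ⟨k0, h0⟩ := Gal_polyF 0 1 a c
  obtain ⟨k1, h1⟩ := Gal_polyF 1 1 a c
  simp only [pow_one, Gal_sig] at h0 h1
  have m1 := GalW_mul (sub_mem (Submodule.smul_mem _ (c : ℝ)
    (GalW_mem (a := a) (c := c - 1) (p := a) (A := a + 1) (d := a + c) rfl (by omega) (by omega)))
    (Submodule.smul_mem _ (9 / 4 + 1 + a + c : ℝ) (GalW_mem (a := a) (c := c) rfl (by omega)
      le_rfl))) 1 0 (p' := 1) (A' := a + 2) (d' := n) (by omega) (by omega) (by omega)
  have m2 : (a : ℝ) • (GalS (a - 1) c - GalS (a - 1) (c + 1)) ∈ GalW 1 (a + 2) n := by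
    rcases Nat.eq_zero_or_pos a with rfl | hp
    · simp
    · exact Submodule.smul_mem _ _ (sub_mem (GalW_mem (by omega) (by omega) (by omega))
        (GalW_mem (by omega) (by omega) (by omega)))
  have := GalK_one.1 (sub_mem (add_mem (sub_mem (Gal_ibp (hΨ 2) h0 1) (Gal_ibp (hΨ 1) h0 2))
    (sub_mem (Gal_ibp (hΨ 0) h1 2) (Gal_ibp (hΨ 2) h1 0))) (GalK_one.2 (h _ (add_mem m1 m2))))
  refine (integral_congr_ae (.of_forall fun y => ?_)).trans this.2
  have e : ∀ z, Op (9 / 4 + 1) z = Op (9 / 4) z * Om z := fun z =>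
    Real.rpow_add_one (Dyn.Om_pos z).ne' _
  have d : ∀ i j, pd j (Op (9 / 4) * fun z => Om z * z i * GalS a c z) y =
      pd j (fun z => Op (9 / 4 + 1) z * GalS a c z) y * y i
        + Op (9 / 4 + 1) y * GalS a c y * if i = j then 1 else 0 := fun i j => by
    rw [← ResHl_pd_coord i j y,
      ← ResHl_pd_mul ((sym_Op _).1.mul (Gal_smooth_S a c)) (Dyn.coord_smooth i)]
    congr 1
    funext z
    simp only [e, Pi.mul_apply]
    ring
  simp only [curl, Pi.add_apply, Pi.sub_apply, Pi.mul_apply, Pi.smul_apply, smul_eq_mul, d,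
    Gal_pd_test]
  simp [GalS, e]
  ring

end Pool.Agent.Work.MP_6bf1e5_an.H
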