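import Pool.Agent.Work.MP_6bf1e5_an.H.GalTor

/-! The norms of the toroidal harmonics. -/

open scoped ContDiff ENNReal FourierTransform Real
open Set MeasureTheory Polynomial

namespace Pool.Agent.Work.MP_6bf1e5_an.H

/-- The weighted integral of a polynomial in the fourth coordinate. -/
noncomputable def GalL (l : ℕ) (P : ℝ[X]) : ℝ :=
  ∫ y, Om y ^ (2 * l + 3) * dot (TT l) (TT l) y * P.eval (1 - Om y)

theorem Gal_E_eq (l m m' : ℕ) (y : R3) : ∑ i, GalE l m i y * (Op (9 / 4) y * eV l m' i y) =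
    Om y ^ (2 * l + 3) * dot (TT l) (TT l) y *
      (geg (2 * l + 2) m * geg (2 * l + 2) m').eval (1 - Om y) := by
  simp only [GalE, eV, sp_tO_apply, md_Op_nat, dot, Fin.sum_univ_three, eval_mul, pow_add,
    ← Gal_Op]
  ring

theorem GalL_E (l m m' : ℕ) :
    GalP (GalE l m) l m' = GalL l (geg (2 * l + 2) m * geg (2 * l + 2) m') :=
  integral_congr_ae (.of_forall (Gal_E_eq l m m'))

theorem GalL_int (l : ℕ) (P : ℝ[X]) :
    Integrable fun y => Om y ^ (2 * l + 3) * dot (TT l) (TT l) y * P.eval (1 - Om y) := by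
  have h := (Gal_int_P (Gal_bd_GalE l 0) l 0).congr (.of_forall (Gal_E_eq l 0 0))
  obtain ⟨m, C, hC⟩ := (sp_polyF_eval P).sym.bd
  simp only [geg, mul_one, eval_one] at h
  exact h.mul_bdd m (c := C) (hC.mono fun y hy => by simpa using hy)

theorem GalL_lin (l : ℕ) (a b : ℝ) (P Q : ℝ[X]) :
    GalL l (C a * P - C b * Q) = a * GalL l P - b * GalL l Q := by
  simp only [GalL, ← integral_const_mul]
  rw [← integral_sub ((GalL_int l P).const_mul a) ((GalL_int l Q).const_mul b)]
  exact integral_congr_ae (.of_forall fun y => by simp; ring)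

theorem GalL_rec (l m k : ℕ) : (m + 1) * GalL l (geg (2 * l + 2) (m + 1) * geg (2 * l + 2) k) =
    (2 * m + 2 * l + 2) * GalL l (X * geg (2 * l + 2) m * geg (2 * l + 2) k)
      - if m = 0 then 0 else (m + 2 * l + 1) * GalL l (geg (2 * l + 2) (m - 1) * geg (2 * l + 2) k) := by
  cases m with
  | zero =>
    have := GalL_lin l (2 * l + 2) 0 (X * geg (2 * l + 2) 0 * geg (2 * l + 2) k) 0
    simp only [geg] at this ⊢
    simp at this ⊢
    rw [← this]
    congr 1
    ring
  | succ m =>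
    have h0 : (m : ℝ) + 2 ≠ 0 := by positivity
    have := GalL_lin l (1 / (m + 2) * (2 * m + 2 + (2 * l + 2 : ℕ))) (1 / (m + 2) * (m + (2 * l + 2 : ℕ)))
      (X * geg (2 * l + 2) (m + 1) * geg (2 * l + 2) k) (geg (2 * l + 2) m * geg (2 * l + 2) k)
    rw [if_neg (Nat.succ_ne_zero m), geg, Nat.add_sub_cancel]
    rw [C_mul, C_mul] at this
    have e : ∀ a b c p q r : ℝ[X], a * (b * X * p - c * q) * r = a * b * (X * p * r) - a * c * (q * r) :=
      fun _ _ _ _ _ _ => by ring
    rw [e, this]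
    push_cast
    field_simp
    ring

theorem Gal_norm (l m : ℕ) : GalP (GalE l m) l m = nT l * (π * (m + 2 * l + 1).factorial
      / (2 ^ (2 * l + 1) * m.factorial * (m + l + 1) * l.factorial ^ 2)) := by
  have hl : (l.factorial : ℝ) ≠ 0 := by positivity
  induction m with
  | zero =>
    have e := int_TT l l fun r => (2 / (1 + r ^ 2)) ^ (2 * l + 3)
    obtain ⟨-, b⟩ := int_beta (a := 1) (q := (2 * l + 2 : ℕ)) (b := (2 * l + 3 : ℕ)) one_pos
      (by have : (0 : ℝ) ≤ (2 * l + 2 : ℕ) := Nat.cast_nonneg _; linarith)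
      (by push_cast; have : (0 : ℝ) ≤ l := Nat.cast_nonneg _; linarith)
    have d := Real.Gamma_mul_Gamma_add_half (l + 1)
    rw [show (2 * (l + 1) : ℝ) = (2 * l + 1 : ℕ) + 1 by push_cast; ring, Real.Gamma_nat_eq_factorial,
      Real.Gamma_nat_eq_factorial, show (1 - (((2 * l + 1 : ℕ) : ℝ) + 1)) = -((2 * l + 1 : ℕ) : ℝ) by ring,
      Real.rpow_neg zero_le_two, Real.rpow_natCast] at d
    rw [show (((2 * l + 2 : ℕ) : ℝ) + 1) / 2 = l + 1 + 1 / 2 by push_cast; ring,
      show ((2 * l + 3 : ℕ) : ℝ) - (l + 1 + 1 / 2) = l + 1 + 1 / 2 by push_cast; ring, Real.one_rpow,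
      show Real.Gamma (2 * l + 3 : ℕ) = (2 * l + 2).factorial by
        rw [← Real.Gamma_nat_eq_factorial]; congr 1; push_cast; ring] at b
    rw [GalL_E, GalL]
    simp only [geg, mul_one, eval_one, mul_comm (Om _ ^ _)]
    refine e.trans ?_
    rw [if_pos rfl]
    congr 1
    have e2 : ∫ r in Ioi (0 : ℝ), r ^ (2 * l + 2) * (2 / (1 + r ^ 2)) ^ (2 * l + 3) =
        2 ^ (2 * l + 3) * ∫ r in Ioi (0 : ℝ), r ^ ((2 * l + 2 : ℕ) : ℝ) *
          (1 + 1 * r ^ 2) ^ (-((2 * l + 3 : ℕ) : ℝ)) := by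
      rw [← integral_const_mul]
      refine integral_congr_ae (.of_forall fun r => ?_)
      simp only [one_mul, Real.rpow_neg (show 0 ≤ 1 + r ^ 2 by positivity), Real.rpow_natCast,
        div_pow]
      rw [div_eq_mul_inv, mul_left_comm]
    have g : Real.Gamma (l + 1 + 1 / 2) = (2 * l + 1).factorial * (2 ^ (2 * l + 1))⁻¹ * √π /
      l.factorial := by rw [← d]; field_simp
    rw [e2, b, g, Nat.factorial_succ (2 * l + 1)]
    have s := Real.mul_self_sqrt Real.pi_pos.le
    have : ((2 * l + 1).factorial : ℝ) ≠ 0 := by positivity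
    simp only [zero_add, Nat.factorial_zero]
    push_cast
    field_simp
    rw [Real.sq_sqrt Real.pi_pos.le]
    ring
  | succ m ih =>
    have r1 := GalL_rec l m (m + 1)
    have r2 := GalL_rec l (m + 1) m
    have o : ∀ a b, a ≠ b → GalL l (geg (2 * l + 2) a * geg (2 * l + 2) b) = 0 := fun a b h => by
      rw [← GalL_E, Gal_ort fun e => h e.2]
    rw [o (m - 1) (m + 1) (by omega), mul_zero, ite_self, sub_zero, ← GalL_E] at r1
    rw [o _ _ (by omega), if_neg (Nat.succ_ne_zero m), Nat.add_sub_cancel, ← GalL_E, ih,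
      mul_right_comm X] at r2
    have h1 : (m : ℝ) + 1 ≠ 0 := by positivity
    have h2 : (m : ℝ) + l + 2 ≠ 0 := by positivity
    have h3 : (m : ℝ) + l + 1 ≠ 0 := by positivity
    have h4 : (m.factorial : ℝ) ≠ 0 := by positivity
    rw [show m + 1 + 2 * l + 1 = (m + 2 * l + 1) + 1 by ring, Nat.factorial_succ, Nat.factorial_succ m]
    push_cast at r2 ⊢
    generalize GalL l (X * geg (2 * l + 2) m * geg (2 * l + 2) (m + 1)) = x at r1 r2
    have hx : x = ((m + 1 + 2 * l + 1) * (nT l * (π * (m + 2 * l + 1).factorial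
      / (2 ^ (2 * l + 1) * m.factorial * (m + l + 1) * l.factorial ^ 2)))) / (2 * (m + l + 2)) := by
      rw [eq_div_iff (by positivity)]
      linarith
    rw [← mul_left_cancel_iff_of_pos (show (0 : ℝ) < m + 1 by positivity), r1, hx]
    have h5 : (m : ℝ) + 1 + l + 1 ≠ 0 := by positivity
    field_simp
    ring

end Pool.Agent.Work.MP_6bf1e5_an.H
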