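import Pool.Agent.Work.MP_6bf1e5_an.H.GalAlg
import Pool.Agent.Work.MP_6bf1e5_an.H.DynHinf

/-! Reduction of the Cartesian polynomial tests to axisymmetric tests, for equivariant fields. -/

open scoped ContDiff ENNReal FourierTransform Real ComplexConjugate
open Set MeasureTheory Polynomial Complex

namespace Pool.Agent.Work.MP_6bf1e5_an.H

/-- The complex coordinate of the sphere. -/
noncomputable def GalZ (y : R3) : ℂ := (Om y * y 0 : ℝ) + (Om y * y 1 : ℝ) * I

theorem Gal_span_poly {K : Submodule ℂ (R3 → ℂ)} {n j : ℕ} {g : Sc}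
    (h : ∀ a b c d, a + b + c + d ≤ n →
      (fun y => GalZ y ^ a * conj (GalZ y) ^ b * (GalS c d y : ℂ)) ∈ K)
    (hj : j ≤ n) (hg : PolyF j g) : (fun y => (g y : ℂ)) ∈ K := by
  have h1 : ∀ m a b c d, m + a + b + c + d ≤ n → (fun y => ((Om y * y 1 : ℝ) : ℂ) ^ m *
      (GalZ y ^ a * conj (GalZ y) ^ b * (GalS c d y : ℂ))) ∈ K := by
    intro m
    induction m with
    | zero => exact fun a b c d hn => by simpa using h a b c d (by omega)
    | succ m ih =>
      intro a b c d hn
      convert K.smul_mem (-I / 2) (sub_mem (ih (a + 1) b c d (by omega))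
        (ih a (b + 1) c d (by omega))) using 1
      funext y
      have e : ((Om y * y 1 : ℝ) : ℂ) = -I / 2 * (GalZ y - conj (GalZ y)) := by
        simp only [GalZ, map_add, map_mul, conj_ofReal, conj_I]
        linear_combination ((Om y * y 1 : ℝ) : ℂ) * I_mul_I
      simp only [Pi.smul_apply, Pi.sub_apply, smul_eq_mul]
      rw [pow_succ]
      nth_rewrite 2 [e]
      ring
  have h0 : ∀ k m a b c d, k + m + a + b + c + d ≤ n → (fun y => ((Om y * y 0 : ℝ) : ℂ) ^ k *
      (((Om y * y 1 : ℝ) : ℂ) ^ m * (GalZ y ^ a * conj (GalZ y) ^ b * (GalS c d y : ℂ)))) ∈ K := by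
    intro k
    induction k with
    | zero => exact fun m a b c d hn => by simpa using h1 m a b c d (by omega)
    | succ k ih =>
      intro m a b c d hn
      convert K.smul_mem (1 / 2) (add_mem (ih m (a + 1) b c d (by omega))
        (ih m a (b + 1) c d (by omega))) using 1
      funext y
      have e : ((Om y * y 0 : ℝ) : ℂ) = 1 / 2 * (GalZ y + conj (GalZ y)) := by
        simp only [GalZ, map_add, map_mul, conj_ofReal, conj_I]
        ring
      simp only [Pi.smul_apply, Pi.add_apply, smul_eq_mul]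
      rw [pow_succ]
      nth_rewrite 2 [e]
      ring
  obtain ⟨p, hp, rfl⟩ := hg
  convert K.sum_mem (t := p.support) fun s hs => K.smul_mem ((p.coeff s : ℝ) : ℂ)
    (h0 (s 0) (s 1) 0 0 (s 2) (s 3) (by
      have := MvPolynomial.le_totalDegree hs
      rw [Finsupp.sum_fintype _ _ fun _ => rfl, Fin.sum_univ_four] at this
      omega)) using 1
  funext y
  obtain ⟨e0, e1, e2, e3⟩ := Gal_sig y
  simp only [MvPolynomial.eval_eq', Fin.prod_univ_four, e0, e1, e2, e3, Finset.sum_apply,
    Pi.smul_apply, smul_eq_mul, GalS]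
  push_cast
  exact Finset.sum_congr rfl fun _ _ => by ring

theorem Gal_int_act {E : Type} [NormedAddCommGroup E] [NormedSpace ℝ E]
    {M : Matrix (Fin 3) (Fin 3) ℝ} (hM : M.transpose * M = 1) (f : R3 → E) :
    ∫ y, f (act M y) = ∫ y, f y := by
  obtain ⟨e, he⟩ := Dyn.DynHinf_iso hM
  simp only [← he]
  exact e.measurePreserving.integral_comp e.toHomeomorph.measurableEmbedding f

theorem Gal_rot_zero {F : R3 → ℂ} {p b : ℕ} (hne : p ≠ b)
    (h : ∀ (θ : ℝ) y, F (act (rotM θ) y) = exp (θ * I) ^ p * conj (exp (θ * I)) ^ b * F y) :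
    ∫ y, F y = 0 := by
  have hM : ∀ θ, (rotM θ).transpose * rotM θ = 1 := fun θ => by
    ext i j
    have := Real.sin_sq_add_cos_sq θ
    fin_cases i <;> fin_cases j <;> simp [rotM, Matrix.mul_apply, Fin.sum_univ_three] <;> linarith
  have h0 : (p : ℝ) - b ≠ 0 := sub_ne_zero.2 (by exact_mod_cast hne)
  have e := Gal_int_act (hM (π / (p - b))) F
  simp only [h, integral_const_mul] at e
  have u : exp ((π / (p - b) : ℝ) * I) ^ p * conj (exp ((π / (p - b) : ℝ) * I)) ^ b = -1 := by
    rw [← exp_conj, ← exp_nat_mul, ← exp_nat_mul, ← exp_add, ← exp_pi_mul_I]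
    congr 1
    have h1 : (p : ℂ) - b ≠ 0 := by exact_mod_cast h0
    simp only [map_mul, conj_ofReal, conj_I]
    push_cast
    field_simp
    ring
  rw [u] at e
  linear_combination (-1 / 2 : ℂ) * e

theorem Gal_flp_zero {F : Sc} (h : ∀ y, F (act flpM y) = -F y) : ∫ y, F y = 0 := by
  have hM : flpM.transpose * flpM = 1 := by
    ext i j
    fin_cases i <;> fin_cases j <;> simp [flpM, Matrix.mul_apply, Fin.sum_univ_three]
  have e := Gal_int_act hM F
  simp only [h, integral_neg] at e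
  linarith

theorem Gal_Om_rot (θ : ℝ) (y : R3) : Om (act (rotM θ) y) = Om y := by
  simp only [Om, norm_act_rot]

theorem Gal_Om_flp (y : R3) : Om (act flpM y) = Om y := by
  simp only [Om, norm_act_flp]

theorem GalZ_rot (θ : ℝ) (y : R3) : GalZ (act (rotM θ) y) = exp (θ * I) * GalZ y := by
  obtain ⟨a, b, -⟩ := ResHl_rot θ y
  simp only [GalZ, Gal_Om_rot, a, b, exp_mul_I]
  push_cast
  linear_combination (-(Om y : ℂ) * sin θ * y 1) * I_mul_I

theorem GalS_rot (a c : ℕ) (θ : ℝ) (y : R3) : GalS a c (act (rotM θ) y) = GalS a c y := by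
  simp only [GalS, Gal_Om_rot, (ResHl_rot θ y).2.2]

theorem GalS_flp (a c : ℕ) (y : R3) : GalS a c (act flpM y) = (-1) ^ a * GalS a c y := by
  simp only [GalS, Gal_Om_flp, (ResHl_flp y).2.2]
  ring

theorem Gal_abs (j : Fin 3) (y : R3) : |Om y * y j| ≤ 1 := by
  have h := Gal_r y
  rw [ResHl_normsq] at h
  rw [← sq_le_one_iff_abs_le_one]
  have := sq_nonneg (1 - Om y)
  have := sq_nonneg (Om y * y 0)
  have := sq_nonneg (Om y * y 1)
  have := sq_nonneg (Om y * y 2)
  have h0 : (Om y * y 0) ^ 2 ≤ 1 := by nlinarith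
  have h1 : (Om y * y 1) ^ 2 ≤ 1 := by nlinarith
  have h2 : (Om y * y 2) ^ 2 ≤ 1 := by nlinarith
  fin_cases j
  exacts [h0, h1, h2]

theorem GalS_abs (a c : ℕ) (y : R3) : |GalS a c y| ≤ 1 := by
  have : |1 - Om y| ≤ 1 := abs_le.2 ⟨by linarith [Dyn.Om_le y], by linarith [Dyn.Om_pos y]⟩
  rw [GalS, abs_mul, abs_pow, abs_pow]
  exact mul_le_one₀ (pow_le_one₀ (abs_nonneg _) (Gal_abs 2 y)) (by positivity)
    (pow_le_one₀ (abs_nonneg _) this)

theorem Gal_cont (j : Fin 3) : Continuous fun y : R3 => Om y * y j :=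
  (Dyn.Om_smooth.mul (Dyn.coord_smooth j)).continuous

theorem GalS_cont (a c : ℕ) : Continuous (GalS a c) :=
  ((Gal_cont 2).pow a).mul ((continuous_const.sub Dyn.Om_smooth.continuous).pow c)

theorem Gal_int_S {F : Sc} (h : Integrable F) (a c : ℕ) : Integrable fun y => F y * GalS a c y :=
  h.mul_bdd (GalS_cont a c).aestronglyMeasurable (c := 1) (.of_forall (GalS_abs a c))

theorem Gal_int_c {F : Sc} (h : Integrable F) (j : Fin 3) :
    Integrable fun y => F y * (Om y * y j) :=
  h.mul_bdd (Gal_cont j).aestronglyMeasurable (c := 1) (.of_forall (Gal_abs j))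

theorem Gal_int_Z {F : R3 → ℂ} (h : Integrable F) (a b c d : ℕ) :
    Integrable fun y => F y * (GalZ y ^ a * conj (GalZ y) ^ b * (GalS c d y : ℂ)) := by
  have hZ : Continuous GalZ := (continuous_ofReal.comp (Gal_cont 0)).add
    ((continuous_ofReal.comp (Gal_cont 1)).mul continuous_const)
  refine h.mul_bdd (((hZ.pow a).mul ((continuous_conj.comp hZ).pow b)).mul
    (continuous_ofReal.comp (GalS_cont c d))).aestronglyMeasurable (c := 2 ^ a * 2 ^ b * 1)
    (.of_forall fun y => ?_)
  have : ‖GalZ y‖ ≤ 2 := by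
    refine (norm_add_le _ _).trans ?_
    rw [norm_mul, norm_I, norm_real, norm_real, Real.norm_eq_abs, Real.norm_eq_abs]
    linarith [Gal_abs 0 y, Gal_abs 1 y]
  rw [norm_mul, norm_mul, norm_pow, norm_pow, norm_conj, norm_real, Real.norm_eq_abs]
  gcongr
  exact GalS_abs c d y

theorem Gal_ZZ (a c d : ℕ) : ∃ x ∈ GalW c (2 * a + c + 1) (2 * a + c + d), ∀ y,
    GalZ y ^ a * conj (GalZ y) ^ a * (GalS c d y : ℂ) = (x y : ℝ) := by
  induction a with
  | zero => exact ⟨_, GalW_mem (a := c) (c := d) rfl (by omega) (by omega), by simp⟩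
  | succ a ih =>
    obtain ⟨x, hx, e⟩ := ih
    refine ⟨_, sub_mem (GalW_r hx rfl (by omega) (by omega))
      (GalW_mul hx 2 0 (by omega) (by omega) (by omega)), fun y => ?_⟩
    have z : GalZ y * conj (GalZ y) = ((Om y ^ 2 * ‖y‖ ^ 2 - GalS 2 0 y : ℝ) : ℂ) := by
      rw [ResHl_normsq]
      simp only [GalZ, GalS, map_add, map_mul, conj_ofReal, conj_I]
      push_cast
      linear_combination (-((Om y : ℂ) * y 1) ^ 2) * I_mul_I
    simp only [Pi.sub_apply, Pi.mul_apply, ← sub_mul]
    rw [ofReal_mul, ← z, ← e]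
    ring

theorem Gal_cplx {A B : Sc} (hA : Integrable A) (hB : Integrable B) :
    ∫ y, ((A y : ℂ) + B y * I) = (∫ y, A y : ℝ) + (∫ y, B y : ℝ) * I := by
  rw [← integral_complex_ofReal, ← integral_complex_ofReal, ← integral_mul_const]
  exact integral_add hA.ofReal (hB.ofReal.mul_const I)

/-- Odd or even weights annihilate all monomials once they annihilate those of their parity. -/
theorem Gal_par {F : Sc} {e n p A : ℕ} (hF : Integrable F)
    (h : ∀ y, F (act flpM y) = (-1) ^ e * F y)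
    (h' : ∀ a c, a % 2 = e % 2 → a + c ≤ n → ∫ y, F y * GalS a c y = 0) :
    GalW p A n ≤ GalK F := by
  refine GalW_le fun a c _ _ hn => ⟨Gal_int_S hF a c, ?_⟩
  by_cases ha : a % 2 = e % 2
  · exact h' a c ha hn
  refine Gal_flp_zero fun y => ?_
  have : (-1 : ℝ) ^ (e + a) = -1 := Odd.neg_one_pow (Nat.odd_iff.2 (by omega))
  rw [h, GalS_flp]
  linear_combination F y * GalS a c y * this - F y * GalS a c y * pow_add (-1 : ℝ) e a

/-- The reduction to axisymmetric tests. -/
theorem Gal_red {q : Vc} {b : ℝ} {n : ℕ} (he : Eqv q) (hi : ∀ i, Integrable fun y => Op b y * q i y)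
    (hT : ∀ a c, a % 2 = 1 → a + c + 1 ≤ n →
      ∫ y, Op b y * (Om y * (q 0 y * y 1 - q 1 y * y 0)) * GalS a c y = 0)
    (hM : ∀ a c, a % 2 = 0 → a + c + 1 ≤ n →
      ∫ y, Op b y * (Om y * (q 0 y * y 0 + q 1 y * y 1)) * GalS a c y = 0)
    (h2 : ∀ a c, a % 2 = 1 → a + c ≤ n → ∫ y, Op b y * q 2 y * GalS a c y = 0) (i : Fin 3) :
    Perp b (n + 1) (q i) := by
  have fl : ∀ y, q 0 (act flpM y) = q 0 y ∧ q 1 (act flpM y) = -q 1 y ∧
      q 2 (act flpM y) = -q 2 y := fun y => by
    refine ⟨?_, ?_, ?_⟩ <;> rw [he.2 y] <;> simp [flpM, Fin.sum_univ_three]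
  have ro : ∀ θ y, q 0 (act (rotM θ) y) = Real.cos θ * q 0 y - Real.sin θ * q 1 y ∧
      q 1 (act (rotM θ) y) = Real.sin θ * q 0 y + Real.cos θ * q 1 y ∧
      q 2 (act (rotM θ) y) = q 2 y := fun θ y => by
    refine ⟨?_, ?_, ?_⟩ <;> rw [he.1 θ y] <;> simp [rotM, Fin.sum_univ_three]
    ring
  have iT : Integrable fun y => Op b y * (Om y * (q 0 y * y 1 - q 1 y * y 0)) :=
    ((Gal_int_c (hi 0) 1).sub (Gal_int_c (hi 1) 0)).congr (.of_forall fun y => by simp; ring)
  have iM : Integrable fun y => Op b y * (Om y * (q 0 y * y 0 + q 1 y * y 1)) :=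
    ((Gal_int_c (hi 0) 0).add (Gal_int_c (hi 1) 1)).congr (.of_forall fun y => by simp; ring)
  intro j hj g hg
  have k2 := Gal_span_poly (K := GalK fun y => ((Op b y * q 2 y : ℝ) : ℂ)) (n := n)
    (fun a a' c d hn => ⟨Gal_int_Z (hi 2).ofReal a a' c d, by
      by_cases ha : a = a'
      · subst ha
        obtain ⟨x, hx, e⟩ := Gal_ZZ a c d
        have := Gal_par (e := 1) (hi 2) (fun y => by simp [Op, Gal_Om_flp, (fl y).2.2])
          (fun a c h => h2 a c h) (GalW_mono hx rfl le_rfl (by omega))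
        simp only [e, ← ofReal_mul]
        rw [integral_complex_ofReal, this.2, ofReal_zero]
      · refine Gal_rot_zero ha fun θ y => ?_
        simp only [Op, Gal_Om_rot, (ro θ y).2.2, GalZ_rot, GalS_rot, map_mul]
        ring⟩) (Nat.lt_succ_iff.1 hj) hg
  have k0 := Gal_span_poly
    (K := GalK fun y => ((Op b y * q 0 y : ℝ) : ℂ) + ((Op b y * q 1 y : ℝ) : ℂ) * I) (n := n)
    (fun a a' c d hn => ⟨Gal_int_Z ((hi 0).ofReal.add ((hi 1).ofReal.mul_const I)) a a' c d, by
      by_cases ha : a + 1 = a'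
      · subst ha
        obtain ⟨x, hx, e⟩ := Gal_ZZ a c d
        have hx' := GalW_mono hx rfl le_rfl (show _ ≤ n - 1 by omega)
        have t := Gal_par (e := 1) iT (fun y => by
          obtain ⟨a, b, -⟩ := ResHl_flp y
          simp only [Op, Gal_Om_flp, (fl y).1, (fl y).2.1, a, b]
          ring) (fun a c h h' => hT a c h (by omega)) hx'
        have m := Gal_par (e := 0) iM (fun y => by
          obtain ⟨a, b, -⟩ := ResHl_flp y
          simp only [Op, Gal_Om_flp, (fl y).1, (fl y).2.1, a, b]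
          ring) (fun a c h h' => hM a c h (by omega)) hx'
        have z := Gal_cplx m.1 t.1.neg
        simp only [Pi.neg_apply, integral_neg, m.2, t.2] at z
        refine (integral_congr_ae (.of_forall fun y => ?_)).trans (z.trans (by simp))
        have e' := e y
        simp only [GalZ, map_add, map_mul, conj_ofReal, conj_I, pow_succ] at e' ⊢
        push_cast at e' ⊢
        linear_combination ((Op b y : ℂ) * q 0 y + Op b y * q 1 y * I) *
          (Om y * y 0 - Om y * y 1 * I) * e' - (Op b y : ℂ) * q 1 y * Om y * y 1 * x y * I_mul_I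
      · refine Gal_rot_zero ha fun θ y => ?_
        simp only [Op, Gal_Om_rot, (ro θ y).1, (ro θ y).2.1, GalZ_rot, GalS_rot, map_mul]
        have e : ((Om y ^ b * (Real.cos θ * q 0 y - Real.sin θ * q 1 y) : ℝ) : ℂ) +
            ((Om y ^ b * (Real.sin θ * q 0 y + Real.cos θ * q 1 y) : ℝ) : ℂ) * I =
            exp (θ * I) * (((Om y ^ b * q 0 y : ℝ) : ℂ) + ((Om y ^ b * q 1 y : ℝ) : ℂ) * I) := by
          rw [exp_mul_I]
          push_cast
          linear_combination (-((Om y ^ b : ℝ) : ℂ) * sin θ * q 1 y) * I_mul_I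
        rw [e]
        ring⟩) (Nat.lt_succ_iff.1 hj) hg
  have r0 := integral_re k0.1
  have r1 := integral_im k0.1
  have r2 := integral_re k2.1
  rw [k0.2] at r0 r1
  rw [k2.2] at r2
  simp at r0 r1 r2
  fin_cases i
  · exact (integral_congr_ae (.of_forall fun y => by simp; ring)).trans r0
  · exact (integral_congr_ae (.of_forall fun y => by simp; ring)).trans r1
  · exact (integral_congr_ae (.of_forall fun y => by simp; ring)).trans r2

end Pool.Agent.Work.MP_6bf1e5_an.H
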