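import Pool.Agent.Work.MP_6bf1e5_an.H.SkConf
import Pool.Agent.Work.MP_6bf1e5_an.H.SkBd
import Pool.Agent.Work.MP_6bf1e5_an.H.DynHinf

/-! Algebra of the classes `Sym`, `PolyF`, `HF`, and integration by parts for `curl`. -/

open scoped ContDiff ENNReal FourierTransform Real
open Set MeasureTheory

namespace Pool.Agent.Work.MP_6bf1e5_an.H

variable {m m' : ℝ} {f g : Sc} {k n : ℕ} {ι : Type}

/-! ### Symbols -/

theorem md_sym_mono (h : Sym m f) (hm : m ≤ m') : Sym m' f := by
  refine ⟨h.1, fun l => ?_⟩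
  obtain ⟨C, hC⟩ := h.2 l
  refine ⟨|C|, fun y => (hC y).trans ?_⟩
  have h1 : (1 : ℝ) ≤ 1 + ‖y‖ := le_add_of_nonneg_right (norm_nonneg y)
  exact mul_le_mul (le_abs_self C) (Real.rpow_le_rpow_of_exponent_le h1 (by linarith))
    (Real.rpow_nonneg (by linarith) _) (abs_nonneg C)

theorem md_sym_pd (h : Sym m f) (j : Fin 3) : Sym (m - 1) (pd j f) := by
  refine ⟨Dyn.pd_smooth h.1 j, fun l => ?_⟩
  obtain ⟨C, hC⟩ := h.2 (l ++ [j])
  refine ⟨C, fun y => ?_⟩
  have h1 := hC y
  rw [Dyn.pds_append, List.length_append, List.length_singleton] at h1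
  convert h1 using 3
  push_cast
  ring

theorem md_sym_add (h : Sym m f) (h' : Sym m g) : Sym m fun y => f y + g y := by
  refine ⟨h.1.add h'.1, fun l => ?_⟩
  obtain ⟨C, hC⟩ := h.2 l
  obtain ⟨D, hD⟩ := h'.2 l
  refine ⟨C + D, fun y => ?_⟩
  rw [Dyn.pds_add h.1 h'.1, add_mul]
  exact (abs_add_le _ _).trans (add_le_add (hC y) (hD y))

theorem md_sym_cmul (h : Sym m f) (c : ℝ) : Sym m fun y => c * f y := by
  refine ⟨contDiff_const.mul h.1, fun l => ?_⟩
  obtain ⟨C, hC⟩ := h.2 l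
  refine ⟨|c| * C, fun y => ?_⟩
  rw [Dyn.pds_cmul h.1, abs_mul, mul_assoc]
  exact mul_le_mul_of_nonneg_left (hC y) (abs_nonneg c)

theorem md_sym_neg (h : Sym m f) : Sym m fun y => -f y := by
  simpa only [neg_one_mul] using md_sym_cmul h (-1)

theorem md_sym_sub (h : Sym m f) (h' : Sym m g) : Sym m fun y => f y - g y := by
  simpa only [sub_eq_add_neg] using md_sym_add h (md_sym_neg h')

theorem md_sym_zero (m : ℝ) : Sym m fun _ => 0 := by
  refine ⟨contDiff_const, fun l => ⟨0, fun y => ?_⟩⟩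
  have h := congrFun (Dyn.pds_cmul (f := fun _ => 0) contDiff_const 0 l) y
  simp only [zero_mul] at h
  rw [h, abs_zero, zero_mul]

theorem md_sym_sum (s : Finset ι) {F : ι → Sc} (h : ∀ i ∈ s, Sym m (F i)) :
    Sym m fun y => ∑ i ∈ s, F i y := by
  classical
  induction s using Finset.induction_on with
  | empty => simpa using md_sym_zero m
  | insert a s ha ih =>
    simp only [Finset.sum_insert ha]
    exact md_sym_add (h a (Finset.mem_insert_self a s))
      (ih fun i hi => h i (Finset.mem_insert_of_mem hi))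

theorem md_sym_mul (h : Sym m f) (h' : Sym m' g) : Sym (m + m') fun y => f y * g y := by
  refine ⟨h.1.mul h'.1, fun l => ?_⟩
  induction l using List.reverseRecOn generalizing f g m m' with
  | nil =>
    obtain ⟨C, hC⟩ := h.2 []
    obtain ⟨D, hD⟩ := h'.2 []
    refine ⟨C * D, fun y => ?_⟩
    have h1 := mul_le_mul (hC y) (hD y) (abs_nonneg _) ((abs_nonneg _).trans (hC y))
    have h2 : (0 : ℝ) < 1 + ‖y‖ := by positivity
    simp only [pds, List.foldr_nil, List.length_nil, Nat.cast_zero, sub_zero] at h1 ⊢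
    rw [abs_mul, Real.rpow_add h2, mul_mul_mul_comm]
    exact h1
  | append_singleton l j ih =>
    obtain ⟨C, hC⟩ := ih (md_sym_pd h j) h'
    obtain ⟨D, hD⟩ := ih h (md_sym_pd h' j)
    refine ⟨C + D, fun y => ?_⟩
    rw [Dyn.pds_append, Dyn.pd_mul h.1 h'.1, Dyn.pds_add ((Dyn.pd_smooth h.1 j).mul h'.1)
      (h.1.mul (Dyn.pd_smooth h'.1 j)), List.length_append, List.length_singleton, add_mul]
    have e1 : m + m' - ((l.length + 1 : ℕ) : ℝ) = m - 1 + m' - l.length := by push_cast; ring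
    have e2 : m - 1 + m' = m + (m' - 1) := by ring
    rw [e1]
    exact (abs_add_le _ _).trans (add_le_add (hC y) (e2 ▸ hD y))

theorem md_sym_curl {V : Vc} (h : ∀ i, Sym m (V i)) (i : Fin 3) : Sym (m - 1) (curl V i) :=
  md_sym_sub (md_sym_pd (h _) _) (md_sym_pd (h _) _)

/-! ### The conformal factor -/

theorem md_Op_one : Op 1 = Om := funext fun _ => Real.rpow_one _

theorem md_Op_add (a b : ℝ) (y : R3) : Op (a + b) y = Op a y * Op b y :=
  Real.rpow_add (Dyn.Om_pos y) a b

theorem md_Op_succ (a : ℝ) (y : R3) : Op (a + 1) y = Op a y * Om y := by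
  rw [md_Op_add, md_Op_one]

theorem md_Op_nat (k : ℕ) (y : R3) : Op k y = Om y ^ k := Real.rpow_natCast _ k

theorem md_sym_Om : Sym (-2) Om := by
  simpa only [md_Op_one, mul_one] using sym_Op 1

theorem md_Om_norm (y : R3) : Om y * ‖y‖ ^ 2 = 2 - Om y := by
  have h0 : 1 + ‖y‖ ^ 2 ≠ 0 := by positivity
  unfold Om
  field_simp
  ring

theorem md_norm_sq (y : R3) : ‖y‖ ^ 2 = ∑ j, y j ^ 2 := EuclideanSpace.real_norm_sq_eq y

theorem md_pd_Op (b : ℝ) (j : Fin 3) (y : R3) : pd j (Op b) y = -(b * Op b y * Om y * y j) := by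
  have h0 : 1 + ‖y‖ ^ 2 ≠ 0 := by positivity
  have h := (hasDerivAt_inv h0).comp_hasFDerivAt y
    ((hasStrictFDerivAt_norm_sq y).hasFDerivAt.const_add 1)
  have h1 : HasFDerivAt Om _ y := h.const_mul 2
  have h2 := h1.rpow_const (p := b) (Or.inl (Dyn.Om_pos y).ne')
  rw [pd, show fderiv ℝ (Op b) y = _ from h2.fderiv]
  have h3 : Om y ^ (b - 1) = Op b y / Om y := Real.rpow_sub_one (Dyn.Om_pos y).ne' b
  have h4 : Om y = 2 / (1 + ‖y‖ ^ 2) := rfl
  rw [h3]
  simp [EuclideanSpace.inner_single_right]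
  rw [h4]
  field_simp

/-! ### Polynomials on the sphere -/

theorem md_poly_mono (h : PolyF k f) (hk : k ≤ n) : PolyF n f := by
  obtain ⟨p, hp, e⟩ := h
  exact ⟨p, hp.trans hk, e⟩

theorem md_poly_const (k : ℕ) (c : ℝ) : PolyF k fun _ => c :=
  ⟨MvPolynomial.C c, by simp, by simp⟩

theorem md_poly_add (h : PolyF k f) (h' : PolyF k g) : PolyF k fun y => f y + g y := by
  obtain ⟨p, hp, rfl⟩ := h
  obtain ⟨q, hq, rfl⟩ := h'
  exact ⟨p + q, (MvPolynomial.totalDegree_add p q).trans (max_le hp hq), by simp⟩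

theorem md_poly_mul (h : PolyF k f) (h' : PolyF n g) : PolyF (k + n) fun y => f y * g y := by
  obtain ⟨p, hp, rfl⟩ := h
  obtain ⟨q, hq, rfl⟩ := h'
  exact ⟨p * q, (MvPolynomial.totalDegree_mul p q).trans (add_le_add hp hq), by simp⟩

theorem md_poly_cmul (h : PolyF k f) (c : ℝ) : PolyF k fun y => c * f y := by
  simpa only [zero_add] using md_poly_mul (md_poly_const 0 c) h

theorem md_poly_sub (h : PolyF k f) (h' : PolyF k g) : PolyF k fun y => f y - g y := by
  simpa only [neg_one_mul, sub_eq_add_neg] using md_poly_add h (md_poly_cmul h' (-1))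

theorem md_poly_sum (s : Finset ι) {F : ι → Sc} (h : ∀ i ∈ s, PolyF k (F i)) :
    PolyF k fun y => ∑ i ∈ s, F i y := by
  classical
  induction s using Finset.induction_on with
  | empty => simpa using md_poly_const k 0
  | insert a s ha ih =>
    simp only [Finset.sum_insert ha]
    exact md_poly_add (h a (Finset.mem_insert_self a s))
      (ih fun i hi => h i (Finset.mem_insert_of_mem hi))

theorem md_poly_sig (i : Fin 4) : PolyF 1 (sig i) :=
  ⟨MvPolynomial.X i, by simp, by simp⟩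

theorem md_poly_Om : PolyF 1 Om := by
  have h := md_poly_sub (md_poly_const 1 1) (md_poly_sig (Fin.last 3))
  simpa only [sig, Fin.lastCases_last, sub_sub_cancel] using h

theorem md_int_ipS (h : PolyF k f) (h' : PolyF n g) : Integrable fun y => Om y ^ 3 * (f y * g y) := by
  have h1 := ((bd_Op 3).mul (h.sym.bd.mul h'.sym.bd)).integrable (by norm_num)
  simpa only [show (3 : ℝ) = (3 : ℕ) by norm_num, md_Op_nat] using h1

theorem md_hf_zero (k : ℕ) : HF k fun _ => 0 :=
  ⟨md_poly_const k 0, fun _ _ _ _ => by simp [ipS]⟩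

theorem md_hf_add (h : HF k f) (h' : HF k g) : HF k fun y => f y + g y := by
  refine ⟨md_poly_add h.1 h'.1, fun j hj q hq => ?_⟩
  have h1 := integral_add (md_int_ipS h.1 hq) (md_int_ipS h'.1 hq)
  have h2 := h.2 j hj q hq
  have h3 := h'.2 j hj q hq
  unfold ipS at h2 h3 ⊢
  rw [h2, h3, add_zero] at h1
  simpa only [add_mul, mul_add] using h1

theorem md_hf_cmul (h : HF k f) (c : ℝ) : HF k fun y => c * f y := by
  refine ⟨md_poly_cmul h.1 c, fun j hj q hq => ?_⟩
  have h2 := h.2 j hj q hq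
  unfold ipS at h2 ⊢
  simp only [mul_assoc, mul_left_comm _ c]
  rw [integral_const_mul, h2, mul_zero]

theorem md_hf_sub (h : HF k f) (h' : HF k g) : HF k fun y => f y - g y := by
  simpa only [neg_one_mul, sub_eq_add_neg] using md_hf_add h (md_hf_cmul h' (-1))

theorem md_hf_sum (s : Finset ι) {F : ι → Sc} (h : ∀ i ∈ s, HF k (F i)) :
    HF k fun y => ∑ i ∈ s, F i y := by
  classical
  induction s using Finset.induction_on with
  | empty => simpa using md_hf_zero k
  | insert a s ha ih =>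
    simp only [Finset.sum_insert ha]
    exact md_hf_add (h a (Finset.mem_insert_self a s))
      (ih fun i hi => h i (Finset.mem_insert_of_mem hi))

theorem md_hf_ite (p : Prop) [Decidable p] (h : p → HF k f) :
    HF k fun y => if p then f y else 0 := by
  by_cases hp : p
  · simpa only [if_pos hp] using h hp
  · simpa only [if_neg hp] using md_hf_zero k

/-- The dissipation on a finite sum of harmonics. -/
theorem md_lam_sum (s : Finset ι) {d : ι → ℕ} {F : ι → Sc} (h : ∀ i ∈ s, HF (d i) (F i)) :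
    InA (fun y => Op (3 / 4) y * ∑ i ∈ s, F i y) ∧
      Lam (fun y => Op (3 / 4) y * ∑ i ∈ s, F i y) =
        fun y => Op (9 / 4) y * ∑ i ∈ s, lam (d i) * F i y := by
  have hA : ∀ t : Finset ι, (∀ i ∈ t, HF (d i) (F i)) →
      InA fun y => Op (3 / 4) y * ∑ i ∈ t, F i y := fun t ht =>
    (md_poly_sum (k := t.sup d) t fun i hi => md_poly_mono (ht i hi).1 (Finset.le_sup hi)).inA
  refine ⟨hA s h, ?_⟩
  classical
  induction s using Finset.induction_on with
  | empty =>
    have h1 := (md_hf_zero 0).lam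
    simp only [Finset.sum_empty, mul_zero] at h1 ⊢
    convert h1 using 2
    funext y
    simp
  | insert a s ha ih =>
    have h1 := h a (Finset.mem_insert_self a s)
    have h2 := fun i hi => h i (Finset.mem_insert_of_mem hi)
    have h3 := Dp_add h1.1.inA (hA s h2) (show (0 : ℝ) ≤ 3 / 2 by norm_num)
    have e : (fun y => Op (3 / 4) y * ∑ i ∈ insert a s, F i y) =
        Op (3 / 4) * F a + fun y => Op (3 / 4) y * ∑ i ∈ s, F i y := by
      funext y
      simp only [Finset.sum_insert ha, Pi.add_apply, Pi.mul_apply, mul_add]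
    rw [e]
    refine h3.trans ?_
    funext y
    have h4 := congrFun h1.lam y
    have h5 := congrFun (ih h2) y
    unfold Lam at h4 h5
    rw [Pi.add_apply, h4, h5, Finset.sum_insert ha]
    ring

/-! ### Vector calculus of finite sums -/

theorem md_pd_lin (s : Finset ι) (c : ι → ℝ) {F : ι → Sc} (h : ∀ a ∈ s, ContDiff ℝ ∞ (F a))
    (j : Fin 3) : pd j (fun y => ∑ a ∈ s, c a * F a y) = fun y => ∑ a ∈ s, c a * pd j (F a) y := by
  rw [Dyn.pd_sum s fun a ha => contDiff_const.mul (h a ha)]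
  funext y
  exact Finset.sum_congr rfl fun a ha => by rw [Dyn.pd_cmul (h a ha)]

theorem md_curl_lin (s : Finset ι) (c : ι → ℝ) {V : ι → Vc}
    (h : ∀ a ∈ s, ∀ i, ContDiff ℝ ∞ (V a i)) :
    curl (fun i y => ∑ a ∈ s, c a * V a i y) = fun i y => ∑ a ∈ s, c a * curl (V a) i y := by
  funext i y
  simp only [curl, fun i j => md_pd_lin s c (fun a ha => h a ha i) j, mul_sub,
    Finset.sum_sub_distrib]

theorem md_dvg_lin (s : Finset ι) (c : ι → ℝ) {V : ι → Vc}
    (h : ∀ a ∈ s, ∀ i, ContDiff ℝ ∞ (V a i)) (y : R3) :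
    dvg (fun i y => ∑ a ∈ s, c a * V a i y) y = ∑ a ∈ s, c a * dvg (V a) y := by
  simp only [dvg, fun i j => md_pd_lin s c (fun a ha => h a ha i) j, Finset.mul_sum]
  exact Finset.sum_comm

theorem md_eqv_lin (s : Finset ι) (c : ι → ℝ) {V : ι → Vc} (h : ∀ a ∈ s, Eqv (V a)) :
    Eqv fun i y => ∑ a ∈ s, c a * V a i y := by
  have key : ∀ M, (∀ a ∈ s, EqM M (V a)) → EqM M fun i y => ∑ a ∈ s, c a * V a i y := by
    intro M hM y i
    simp only [Finset.mul_sum]
    rw [Finset.sum_comm]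
    refine Finset.sum_congr rfl fun a ha => ?_
    rw [hM a ha y i, Finset.mul_sum]
    exact Finset.sum_congr rfl fun j _ => mul_left_comm _ _ _
  exact ⟨fun θ => key _ fun a ha => (h a ha).1 θ, key _ fun a ha => (h a ha).2⟩

theorem md_eqv_zero : Eqv 0 := ⟨fun _ _ _ => by simp, fun _ _ => by simp⟩

theorem md_ip_zero (a : Vc) : ip a 0 = 0 := by simp [ip, dot]

theorem md_ip_curl {a b : Vc} (ha : ∀ i, Hinf (a i)) (hb : ∀ i, Hinf (b i)) :
    ip (curl a) b = ip a (curl b) := by
  rw [Dyn.ip_eq (Dyn.hinf_curl ha) hb, Dyn.ip_eq ha (Dyn.hinf_curl hb)]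
  have h1 : ∀ i, ∫ y, curl a i y * b i y = -(∫ y, a (i + 2) y * pd (i + 1) (b i) y)
      + ∫ y, a (i + 1) y * pd (i + 2) (b i) y := fun i => by
    simp only [curl, sub_mul]
    rw [integral_sub (Dyn.int_mul ((ha _).pd _) (hb _)) (Dyn.int_mul ((ha _).pd _) (hb _)),
      Dyn.ibp (ha _) (hb _), Dyn.ibp (ha _) (hb _), sub_neg_eq_add]
  have h2 : ∀ i, ∫ y, a i y * curl b i y = (∫ y, a i y * pd (i + 1) (b (i + 2)) y)
      - ∫ y, a i y * pd (i + 2) (b (i + 1)) y := fun i => by
    simp only [curl, mul_sub]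
    exact integral_sub (Dyn.int_mul (ha _) ((hb _).pd _)) (Dyn.int_mul (ha _) ((hb _).pd _))
  simp only [h1, h2, Fin.sum_univ_three, Fin.reduceAdd]
  ring

theorem md_int_dot {a b : Vc} (ha : ∀ i, Hinf (a i)) (hb : ∀ i, Bd m (b i)) (hm : m < -3 / 2) :
    Integrable (dot a b) :=
  integrable_finsetSum _ fun i _ => (hb i).int_hinf hm (ha i)

theorem md_ip_sum {a b : Vc} (ha : ∀ i, Hinf (a i)) (hb : ∀ i, Bd m (b i)) (hm : m < -3 / 2) :
    ip a b = ∑ i, ∫ y, a i y * b i y :=
  integral_finsetSum _ fun i _ => (hb i).int_hinf hm (ha i)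

theorem md_ip_lin (s : Finset ι) (c : ι → ℝ) {a : Vc} {V : ι → Vc} (ha : ∀ i, Hinf (a i))
    (hV : ∀ j ∈ s, ∀ i, Bd m (V j i)) (hm : m < -3 / 2) :
    ip a (fun i y => ∑ j ∈ s, c j * V j i y) = ∑ j ∈ s, c j * ip a (V j) := by
  have e : dot a (fun i y => ∑ j ∈ s, c j * V j i y) = fun y => ∑ j ∈ s, c j * dot a (V j) y := by
    funext y
    simp only [dot, Finset.mul_sum]
    rw [Finset.sum_comm]
    exact Finset.sum_congr rfl fun j _ => Finset.sum_congr rfl fun i _ => mul_left_comm _ _ _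
  rw [ip, e, integral_finsetSum _ fun j hj => (md_int_dot ha (hV j hj) hm).const_mul _]
  exact Finset.sum_congr rfl fun j _ => integral_const_mul _ _

theorem md_ip_add {a b c : Vc} (ha : ∀ i, Hinf (a i)) (hb : ∀ i, Bd m (b i))
    (hc : ∀ i, Bd m (c i)) (hm : m < -3 / 2) : ip a (b + c) = ip a b + ip a c := by
  have e : dot a (b + c) = fun y => dot a b y + dot a c y := by
    funext y
    simp only [dot, Pi.add_apply, mul_add, Finset.sum_add_distrib]
  rw [ip, e]
  exact integral_add (md_int_dot ha hb hm) (md_int_dot ha hc hm)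

theorem md_ip_neg (a b : Vc) : ip a (-b) = -ip a b := by
  simp only [ip, dot, Pi.neg_apply, mul_neg, Finset.sum_neg_distrib, integral_neg]

end Pool.Agent.Work.MP_6bf1e5_an.H
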