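import Pool.Agent.Work.MP_6bf1e5_an.H.SkSep
import Pool.Agent.Work.MP_6bf1e5_an.H.SkConf
import Pool.Agent.Work.MP_6bf1e5_an.H.SkBd
import Pool.Agent.Work.MP_6bf1e5_an.H.MdAlg
import Pool.Agent.Work.MP_6bf1e5_an.H.ResHl

/-! Skeleton: graded parts of the modes and null pairs (owner helper13). -/

open scoped ContDiff ENNReal FourierTransform Real
open Set MeasureTheory Polynomial

namespace Pool.Agent.Work.MP_6bf1e5_an.H

theorem md_tO (l : ℕ) (e : ℝ) (P : ℝ[X]) (i : Fin 3) (y : R3) :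
    tO l e P i y = Op e y * P.eval (1 - Om y) * TT l i y := by
  rw [← rad_omF]
  rfl

theorem md_pd_rad (e : ℝ) (P : ℝ[X]) (j : Fin 3) :
    pd j (rad (omF e P)) = fun y => 2 * (y j * rad (omF (e + 1) (dP e P)) y) := by
  funext y
  rw [radS_omF.pd_rad, rad, deriv_omF (by have := sq_nonneg ‖y‖; linarith), mul_assoc]
  rfl

/-- The Laplacian of the sphere on a separated function. -/
theorem md_DD {l : ℕ} {Q : Sc} (h : Harm l Q) (e : ℝ) (P : ℝ[X]) (y : R3) :
    DD (fun y => rad (omF e P) y * Q y) y = -((Om y)⁻¹ * Op e y * Q y *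
      ((6 + 2 * l) * (dP e P).eval (1 - Om y)
        + 4 * (2 - Om y) * (dP (e + 1 + 1) (dP e P)).eval (1 - Om y)
        + 2 * l * (dP (e + 1) P).eval (1 - Om y))) := by
  have hs : ∀ e P, ContDiff ℝ ∞ (rad (omF e P)) := fun _ _ => radS_omF.smooth
  have h1 : ∀ j, (fun z => Om z * pd j (fun y => rad (omF e P) y * Q y) z) = fun z =>
      2 * (z j * (rad (omF (e + 1 + 1) (dP e P)) z * Q z)) + rad (omF (e + 1) P) z * pd j Q z := by
    intro j
    funext z
    rw [Dyn.pd_mul (hs _ _) h.smooth, md_pd_rad]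
    simp only [rad_omF, md_Op_succ]
    ring
  have h2 := h.toHom.euler y
  have h3 := h.harm y
  have h4 := md_Om_norm y
  have h0 := (Dyn.Om_pos y).ne'
  rw [md_norm_sq] at h4
  simp only [yd, lap, Fin.sum_univ_three] at h2 h3 h4
  have h5 : ∀ j, pd j (fun z => 2 * (z j * (rad (omF (e + 1 + 1) (dP e P)) z * Q z))
      + rad (omF (e + 1) P) z * pd j Q z) y =
      2 * (rad (omF (e + 1 + 1) (dP e P)) y * Q y + y j *
        (2 * (y j * rad (omF (e + 1 + 1 + 1) (dP (e + 1 + 1) (dP e P))) y) * Q y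
          + rad (omF (e + 1 + 1) (dP e P)) y * pd j Q y))
      + (2 * (y j * rad (omF (e + 1 + 1) (dP (e + 1) P)) y) * pd j Q y
        + rad (omF (e + 1) P) y * pd j (pd j Q) y) := fun j => by
    have a1 := (hs (e + 1 + 1) (dP e P)).mul h.smooth
    have a2 := (Dyn.coord_smooth j).mul a1
    rw [Dyn.pd_add (contDiff_const.mul a2) ((hs _ _).mul (Dyn.pd_smooth h.smooth j)),
      Dyn.pd_cmul a2, Dyn.pd_mul (Dyn.coord_smooth j) a1, Dyn.pd_mul (hs _ _) h.smooth,
      Dyn.pd_mul (hs _ _) (Dyn.pd_smooth h.smooth j), Dyn.pd_coord, md_pd_rad, md_pd_rad]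
    simp only [if_true, one_mul]
  simp only [DD, h1, h5]
  simp only [rad_omF, md_Op_succ, Fin.sum_univ_three]
  generalize (dP (e + 1 + 1) (dP e P)).eval (1 - Om y) = c2
  generalize (dP (e + 1) P).eval (1 - Om y) = c3
  generalize (dP e P).eval (1 - Om y) = c1
  field_simp
  linear_combination (-(4 * Om y * c2 * Q y * Op e y)) * h4
    - (2 * Om y * (c1 + c3) * Op e y) * h2 - (P.eval (1 - Om y) * Op e y) * h3

theorem md_Xx (Y : Vc) (i : Fin 3) (y : R3) :
    Xx Y i y = Xd (i + 1) (Y (i + 2)) y - Xd (i + 2) (Y (i + 1)) y := by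
  simp only [Xx, Xd, curl, cross, pos]
  ring

theorem md_sum_ite {N a c : ℕ} (x : ℝ) (h1 : c ≤ a) (h2 : a < N + c) :
    ∑ k ∈ Finset.range N, (if a = k + c then x else 0) = x := by
  rw [Finset.sum_eq_single_of_mem (a - c) (Finset.mem_range.2 (by omega))
    fun k _ hk => if_neg (by omega), if_pos (by omega)]

theorem hf_eV (l m : ℕ) (i : Fin 3) : HF (l + m) (eV l m i) := by
  have hd : (geg (2 * l + 2) m).natDegree = m :=
    natDegree_eq_of_degree_eq_some (geg_degree (by omega) m)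
  refine HF.of_eig (polyF_tO (by rw [hd]) i) fun y => ?_
  have ho := congrArg (eval (1 - Om y)) (geg_ode (2 * l + 2) m)
  simp only [eval_add, eval_sub, eval_mul, eval_pow, eval_C, eval_X, eval_one, eval_zero] at ho
  have e : eV l m i = fun y => rad (omF l (geg (2 * l + 2) m)) y * TT l i y := rfl
  rw [e, md_DD (harm_TT l i)]
  simp only [rad_omF, dP, derivative_mul, derivative_sub, derivative_C, derivative_one, derivative_X,
    eval_add, eval_sub, eval_mul, eval_C, eval_X, eval_one, eval_zero]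
  have h0 := (Dyn.Om_pos y).ne'
  push_cast at ho ⊢
  field_simp
  linear_combination (-(4 * Om y * Op l y * TT l i y)) * ho

theorem hf_cg {k : ℕ} (hk : 1 ≤ k) {Y : Vc} (h : ∀ i, HF k (Y i)) (d i : Fin 3) :
    HF (k + d - 1) (cg k d Y i) := by
  obtain ⟨k, rfl⟩ := Nat.exists_eq_add_of_le' hk
  fin_cases d
  · have h1 := md_hf_cmul (md_hf_sub ((h (i + 2)).down (i + 1)) ((h (i + 1)).down (i + 2)))
      ((((k + 1 : ℕ) : ℝ) + 5 / 4) / (2 * ((k + 1 : ℕ) : ℝ) + 2))
    refine (congrArg _ ?_).mp h1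
    funext y
    simp only [cg, md_Xx, Sx, sm, cross, pos, Fin.zero_eta, Matrix.cons_val_zero]
    push_cast
    ring
  · have h1 := md_hf_sub ((h (i + 2)).same (i + 1)) ((h (i + 1)).same (i + 2))
    refine (congrArg _ ?_).mp h1
    funext y
    simp only [cg, md_Xx, curl, Fin.mk_one, Matrix.cons_val_one, Matrix.cons_val_zero]
    ring
  · have h1 := md_hf_cmul (md_hf_sub ((h (i + 2)).up (i + 1)) ((h (i + 1)).up (i + 2)))
      (-(((k + 1 : ℕ) : ℝ) + 3 / 4) / (2 * ((k + 1 : ℕ) : ℝ) + 2))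
    refine (congrArg _ ?_).mp h1
    funext y
    simp only [cg, md_Xx, Sx, sm, cross, pos, Fin.reduceFinMk, Matrix.cons_val]
    ring

theorem curl_cg {k : ℕ} {Y : Vc} (h : ∀ i, HF k (Y i)) :
    curl (sm (Op (3 / 4)) Y) = sm (Op (3 / 4)) fun i y => ∑ d, cg k d Y i y := by
  funext i y
  have e : ∀ a j, pd j (sm (Op (3 / 4)) Y a) = _ := fun a j =>
    Dyn.pd_mul (sym_Op (3 / 4)).1 (h a).1.sym.1 j
  have h0 : (2 * k + 2 : ℝ) ≠ 0 := by positivity
  simp only [curl, e, md_pd_Op, sm, cg, Fin.sum_univ_three, Matrix.cons_val, Sx, cross, pos]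
  generalize Xx Y i y = x
  field_simp
  ring

theorem md_curl_sum {ι : Type} (s : Finset ι) (c : ι → ℝ) {k : ι → ℕ} {Y : ι → Vc}
    (h : ∀ a ∈ s, ∀ i, HF (k a) (Y a i)) :
    curl (sm (Op (3 / 4)) fun i y => ∑ a ∈ s, c a * Y a i y) =
      sm (Op (3 / 4)) fun i y => ∑ a ∈ s, c a * ∑ d, cg (k a) d (Y a) i y := by
  have e : (sm (Op (3 / 4)) fun i y => ∑ a ∈ s, c a * Y a i y) =
      fun i y => ∑ a ∈ s, c a * sm (Op (3 / 4)) (Y a) i y := by
    funext i y
    simp only [sm, Finset.mul_sum]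
    exact Finset.sum_congr rfl fun a _ => mul_left_comm _ _ _
  rw [e, md_curl_lin s c (V := fun a => sm (Op (3 / 4)) (Y a))
    fun a ha i => (sym_Op (3 / 4)).1.mul (h a ha i).1.sym.1]
  funext i y
  rw [sm, Finset.mul_sum]
  refine Finset.sum_congr rfl fun a ha => ?_
  rw [curl_cg (h a ha), sm, mul_left_comm]

theorem Mode.pot_eq (a : Mode) : a.pot =
    tO a.l (a.l + 3 / 4) (∑ m ∈ Finset.range a.M, C (a.B m) * geg (2 * a.l + 2) m) := by
  funext i y
  simp only [Mode.pot, eV, md_tO, md_Op_add, eval_finsetSum, eval_mul, eval_C, Finset.mul_sum,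
    Finset.sum_mul]
  exact Finset.sum_congr rfl fun m _ => by ring

theorem Mode.lpot_eq (a : Mode) : a.lpot = tO a.l (a.l + 9 / 4)
    (∑ m ∈ Finset.range a.M, C (a.B m * lam (a.l + m)) * geg (2 * a.l + 2) m) := by
  funext i y
  simp only [Mode.lpot, eV, md_tO, md_Op_add, eval_finsetSum, eval_mul, eval_C, Finset.mul_sum,
    Finset.sum_mul]
  exact Finset.sum_congr rfl fun m _ => by ring

theorem Mode.sym_pot (a : Mode) (h : 2 ≤ a.l) (i : Fin 3) : Sym (-7 / 2) (a.pot i) := by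
  have h2 : (2 : ℝ) ≤ a.l := by exact_mod_cast h
  rw [a.pot_eq]
  exact md_sym_mono (sym_tO i) (by linarith)

theorem Mode.sym_u (a : Mode) (h : 2 ≤ a.l) (i : Fin 3) : Sym (-7 / 2) (a.u i) := by
  unfold Mode.u
  split_ifs
  · exact md_sym_mono (md_sym_curl (a.sym_pot h) i) (by norm_num)
  · exact a.sym_pot h i

theorem Mode.adm (a : Mode) (h : 2 ≤ a.l) (h' : a.l % 2 = 0) : Adm a.u := by
  have h1 : Eqv a.pot := a.pot_eq ▸ eqv_tor h'
  refine ⟨fun i => (a.sym_u h i).hinf (by norm_num), fun y => ?_, ?_⟩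
  · unfold Mode.u
    split_ifs
    · exact Dyn.dvg_curl (fun i => (a.sym_pot h i).1) y
    · rw [a.pot_eq]
      exact dvg_tor radS_omF y
  · unfold Mode.u
    split_ifs
    · exact eqv_curl h1 fun i => (a.sym_pot h i).1.differentiable (by simp)
    · exact h1

theorem Mode.lam_curl (a : Mode) (h : 2 ≤ a.l) : LamV (curl a.u) = a.lp := by
  have h1 : ∀ i, Hinf (a.pot i) := fun i => (a.sym_pot h i).hinf (by norm_num)
  have h2 : LamV a.pot = a.lpot := by
    funext i
    refine (md_lam_sum (d := fun m => a.l + m) (F := fun m y => a.B m * eV a.l m i y) _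
      fun m _ => md_hf_cmul (hf_eV a.l m i) _).2.trans ?_
    funext y
    simp only [Mode.lpot, mul_assoc, mul_left_comm (lam _)]
  have h3 : ∀ V : Vc, (∀ i, Hinf (V i)) → LamV (curl V) = curl (LamV V) := fun V hV =>
    funext fun i => (Dyn.curl_lam hV i).symm
  unfold Mode.u Mode.lp
  split_ifs
  · rw [h3 _ (Dyn.hinf_curl h1), h3 _ h1, h2]
  · rw [h3 _ h1, h2]

theorem Mode.curl_gr (a : Mode) (h : 2 ≤ a.l) (i : Fin 3) (y : R3) :
    curl a.u i y = Op (3 / 4) y * ∑ k ∈ Finset.range (a.l + a.M + 2), a.gr k i y := by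
  have h1 : curl a.pot = sm (Op (3 / 4)) fun i y => ∑ m ∈ Finset.range a.M,
      a.B m * ∑ d, cg (a.l + m) d (eV a.l m) i y :=
    md_curl_sum (Finset.range a.M) a.B fun m _ => hf_eV a.l m
  unfold Mode.u Mode.gr
  split_ifs
  · have h2 := md_curl_sum (Finset.range a.M ×ˢ Finset.univ) (fun p : ℕ × Fin 3 => a.B p.1)
      fun p _ => hf_cg (by omega) (hf_eV a.l p.1) p.2
    simp only [Finset.sum_product, ← Finset.mul_sum] at h2
    rw [h1, h2, sm]
    congr 1
    rw [Finset.sum_comm]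
    refine Finset.sum_congr rfl fun m hm => ?_
    rw [← Finset.mul_sum, Finset.sum_comm (s := Finset.range _)]
    congr 1
    refine Finset.sum_congr rfl fun d _ => ?_
    rw [Finset.sum_comm]
    refine Finset.sum_congr rfl fun d' _ => (md_sum_ite _ ?_ ?_).symm
    · omega
    · have := Finset.mem_range.1 hm
      omega
  · rw [h1, sm]
    congr 1
    rw [Finset.sum_comm]
    refine Finset.sum_congr rfl fun m hm => ?_
    rw [← Finset.mul_sum, Finset.sum_comm]
    congr 1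
    refine Finset.sum_congr rfl fun d _ => (md_sum_ite _ ?_ ?_).symm
    · omega
    · have := Finset.mem_range.1 hm
      omega

theorem Mode.gr_zero (a : Mode) {k : ℕ} (h : a.l + a.M + 2 ≤ k) : a.gr k = 0 := by
  funext i y
  refine Finset.sum_eq_zero fun m hm => mul_eq_zero_of_right _ ?_
  have := Finset.mem_range.1 hm
  split_ifs
  · exact Finset.sum_eq_zero fun d _ => Finset.sum_eq_zero fun d' _ => if_neg (by omega)
  · exact Finset.sum_eq_zero fun d _ => if_neg (by omega)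

theorem Mode.hf_gr (a : Mode) (h : 2 ≤ a.l) (k : ℕ) (i : Fin 3) : HF k (a.gr k i) := by
  unfold Mode.gr
  refine md_hf_sum _ fun m _ => md_hf_cmul ?_ _
  split_ifs
  · refine md_hf_sum _ fun d _ => md_hf_sum _ fun d' _ => md_hf_ite _ fun e => ?_
    have h1 := hf_cg (k := a.l + m + d - 1) (by omega) (hf_cg (by omega) (hf_eV a.l m) d) d' i
    rwa [show a.l + m + d - 1 + d' - 1 = k by omega] at h1
  · refine md_hf_sum _ fun d _ => md_hf_ite _ fun e => ?_
    have h1 := hf_cg (by omega) (hf_eV a.l m) d i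
    rwa [show a.l + m + d - 1 = k by omega] at h1

theorem Mode.lp_gr (a : Mode) (h : 2 ≤ a.l) (i : Fin 3) (y : R3) :
    a.lp i y = Op (9 / 4) y * ∑ k ∈ Finset.range (a.l + a.M + 2), lam k * a.gr k i y := by
  rw [← a.lam_curl h, LamV, funext (a.curl_gr h i),
    (md_lam_sum (d := fun k => k) _ fun k _ => a.hf_gr h k i).2]

theorem Mode.test (a : Mode) (h : 2 ≤ a.l) {n : ℕ} (hn : a.l + a.M + 3 ≤ n) :
    Test (3 / 4) n (sm Om (curl a.u)) ∧ ∀ i, Sym (-4) (sm Om (curl a.u) i) := by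
  refine ⟨fun i => ⟨_, md_poly_mono (md_poly_mul md_poly_Om (md_poly_sum (k := a.l + a.M + 1)
    (Finset.range (a.l + a.M + 2)) fun k hk => md_poly_mono (a.hf_gr h k i).1
      (Nat.lt_succ_iff.1 (Finset.mem_range.1 hk)))) (by omega), ?_⟩, fun i => ?_⟩
  · funext y
    rw [sm, a.curl_gr h, Pi.mul_apply, mul_left_comm]
  · exact md_sym_mono (md_sym_mul md_sym_Om (md_sym_curl (a.sym_u h) i)) (by norm_num)

theorem Mode.pot_fld (a : Mode) (h : 2 ≤ a.l) (h' : a.l % 2 = 0) :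
    Pot (-3) (if a.pol then a.pot else 0) (if a.pol then 0 else a.pot) := by
  have h1 : Eqv a.pot := a.pot_eq ▸ eqv_tor h'
  split_ifs
  · exact ⟨fun i => md_sym_mono (a.sym_pot h i) (by norm_num), fun _ => md_sym_zero _,
      fun y => by simp [dot], fun y => by simp [dvg, pd], h1, md_eqv_zero⟩
  · refine ⟨fun _ => md_sym_zero _, fun i => md_sym_mono (a.sym_pot h i) (by norm_num),
      fun y => ?_, fun y => ?_, md_eqv_zero, h1⟩
    · rw [a.pot_eq]
      exact dot_pos_tor y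
    · rw [a.pot_eq]
      exact dvg_tor radS_omF y

theorem Test.lc {b : ℝ} {n : ℕ} {ι : Type} [Fintype ι] (c : ι → ℝ) {V : ι → Vc}
    (h : ∀ j, Test b n (V j)) : Test b n (lc c V) := fun i => by
  choose g hg e using fun j => h j i
  refine ⟨_, md_poly_sum Finset.univ fun j _ => md_poly_cmul (hg j) (c j), ?_⟩
  funext y
  simp only [H.lc, e, Pi.mul_apply, Finset.mul_sum]
  exact Finset.sum_congr rfl fun j _ => mul_left_comm _ _ _

theorem Pot.lc {m : ℝ} {ι : Type} [Fintype ι] (c : ι → ℝ) {Ψ S : ι → Vc}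
    (h : ∀ j, Pot m (Ψ j) (S j)) : Pot m (lc c Ψ) (lc c S) ∧
      fld (lc c Ψ) (lc c S) = lc c fun j => fld (Ψ j) (S j) := by
  refine ⟨⟨fun i => md_sym_sum _ fun j _ => md_sym_cmul ((h j).sΨ i) _,
    fun i => md_sym_sum _ fun j _ => md_sym_cmul ((h j).sS i) _, fun y => ?_, fun y => ?_,
    md_eqv_lin _ c fun j _ => (h j).eΨ, md_eqv_lin _ c fun j _ => (h j).eS⟩, ?_⟩
  · have e : dot pos (H.lc c S) y = ∑ j, c j * dot pos (S j) y := by
      simp only [dot, H.lc, Finset.mul_sum]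
      rw [Finset.sum_comm]
      exact Finset.sum_congr rfl fun j _ => Finset.sum_congr rfl fun i _ => mul_left_comm _ _ _
    rw [e]
    exact Finset.sum_eq_zero fun j _ => by rw [(h j).tan, mul_zero]
  · refine (md_dvg_lin _ c (fun j _ i => ((h j).sS i).1) y).trans ?_
    exact Finset.sum_eq_zero fun j _ => by rw [(h j).dv, mul_zero]
  · have e : curl (H.lc c Ψ) = _ := md_curl_lin _ c fun j _ i => ((h j).sΨ i).1
    rw [fld, e]
    funext i y
    simp only [H.lc, fld, Pi.add_apply, mul_add, Finset.sum_add_distrib]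

theorem Adm.sub {u w : Vc} (h : Adm u) (h' : Adm w) : Adm (u - w) := by
  refine ⟨fun i => Dyn.hinf_sub (h.hinf i) (h'.hinf i), fun y => ?_, ?_⟩
  · rw [Dyn.dvg_sub (fun i => (h.hinf i).1) fun i => (h'.hinf i).1, h.dv, h'.dv, sub_self]
  · have key : ∀ M, EqM M u → EqM M w → EqM M (u - w) := fun M h1 h2 y i => by
      simp only [Pi.sub_apply, h1 y i, h2 y i, mul_sub, Finset.sum_sub_distrib]
    exact ⟨fun θ => key _ (h.eqv.1 θ) (h'.eqv.1 θ), key _ h.eqv.2 h'.eqv.2⟩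

theorem Adm.lc {ι : Type} [Fintype ι] (c : ι → ℝ) {V : ι → Vc} (h : ∀ j, Adm (V j)) :
    Adm (lc c V) ∧ curl (lc c V) = lc c fun j => curl (V j) := by
  refine ⟨⟨fun i => Dyn.hinf_sum _ fun j _ => Dyn.hinf_cmul ((h j).hinf i) _, fun y => ?_,
    md_eqv_lin _ c fun j _ => (h j).eqv⟩, md_curl_lin _ c fun j _ i => ((h j).hinf i).1⟩
  refine (md_dvg_lin _ c (fun j _ i => ((h j).hinf i).1) y).trans ?_
  exact Finset.sum_eq_zero fun j _ => by rw [(h j).dv, mul_zero]

theorem HF.lc {k : ℕ} {ι : Type} [Fintype ι] (c : ι → ℝ) {V : ι → Vc} {i : Fin 3}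
    (h : ∀ j, HF k (V j i)) : HF k (lc c V i) :=
  md_hf_sum _ fun j _ => md_hf_cmul (h j) _

variable {n : ℕ} {ϑ ϑ' η η' : Vc}

theorem Null.of_v (h : Test (9 / 4) n ϑ) (hn : 1 ≤ n) : Null n ϑ 0 := by
  choose g hg e using h
  have h1 : ∀ i, Sym (-9 / 2) (ϑ i) := fun i =>
    e i ▸ md_sym_mono (md_sym_mul (sym_Op (9 / 4)) (hg i).sym) (by norm_num)
  refine ⟨fun i => (h1 i).bd.mono (by norm_num), fun _ => bd_zero _, fun w hw hp => ?_⟩
  have h2 : ∀ i, Hinf (ϑ i) := fun i => (h1 i).hinf (by norm_num)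
  rw [md_ip_zero, add_zero, md_ip_curl hw.hinf h2, Dyn.ip_eq hw.hinf (Dyn.hinf_curl h2)]
  refine Finset.sum_eq_zero fun i _ => ?_
  obtain ⟨g1, p1, e1⟩ := (hg (i + 2)).pd_Op (9 / 4) (i + 1)
  obtain ⟨g2, p2, e2⟩ := (hg (i + 1)).pd_Op (9 / 4) (i + 2)
  have h3 := hp i _ (by omega) _ (md_poly_sub p1 p2)
  simpa only [curl, e, e1, e2, Pi.mul_apply, mul_sub] using h3
theorem Null.of_u (h : Test (9 / 4) (n + 1) ϑ') : Null n 0 ϑ' := by
  choose g hg e using h
  have h1 : ∀ i, Sym (-9 / 2) (ϑ' i) := fun i =>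
    e i ▸ md_sym_mono (md_sym_mul (sym_Op (9 / 4)) (hg i).sym) (by norm_num)
  refine ⟨fun _ => bd_zero _, fun i => (h1 i).bd.mono (by norm_num), fun w hw hp => ?_⟩
  rw [md_ip_zero, zero_add, Dyn.ip_eq hw.hinf fun i => (h1 i).hinf (by norm_num)]
  refine Finset.sum_eq_zero fun i _ => ?_
  simpa only [e, Pi.mul_apply] using hp i _ (by omega) _ (hg i)
theorem Null.of_curl (h : ∀ i, Sym (-3) (ϑ i)) : Null n ϑ (-curl ϑ) := by
  refine ⟨fun i => (h i).bd, fun i => ((md_sym_curl h i).bd.mono (by norm_num)).neg,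
    fun w hw _ => ?_⟩
  rw [md_ip_neg, md_ip_curl hw.hinf fun i => (h i).hinf (by norm_num), add_neg_cancel]
theorem Null.of_gradv {φ : Sc} (h : Sym (-2) φ) : Null n (grad φ) 0 := by
  refine ⟨fun i => (md_sym_pd h i).bd.mono (by norm_num), fun _ => bd_zero _, fun w hw _ => ?_⟩
  have e : curl (grad φ) = 0 := funext fun i => funext fun y => Dyn.curl_grad h.1 i y
  rw [md_ip_zero, add_zero,
    md_ip_curl (b := grad φ) hw.hinf fun i => (md_sym_pd h i).hinf (by norm_num), e,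
    md_ip_zero]
theorem Null.of_gradu {φ : Sc} (h : Sym (-3) φ) : Null n 0 (grad φ) := by
  refine ⟨fun _ => bd_zero _, fun i => (md_sym_pd h i).bd.mono (by norm_num), fun w hw _ => ?_⟩
  have h1 : Hinf φ := h.hinf (by norm_num)
  have h2 := integral_finsetSum Finset.univ fun i _ => Dyn.int_mul ((hw.hinf i).pd i) h1
  simp only [← Finset.sum_mul, show ∀ y, ∑ i, pd i (w i) y = 0 from hw.dv, zero_mul,
    integral_zero, fun i => Dyn.ibp (hw.hinf i) h1, Finset.sum_neg_distrib, zero_eq_neg] at h2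
  rw [md_ip_zero, zero_add, Dyn.ip_eq (W := grad φ) hw.hinf fun i => h1.pd i]
  exact h2
theorem Null.add (h : Null n ϑ ϑ') (h' : Null n η η') : Null n (ϑ + η) (ϑ' + η') := by
  refine ⟨fun i => (h.bv i).add (h'.bv i), fun i => (h.bu i).add (h'.bu i), fun w hw hp => ?_⟩
  rw [md_ip_add (Dyn.hinf_curl hw.hinf) h.bv h'.bv (by norm_num),
    md_ip_add hw.hinf h.bu h'.bu (by norm_num)]
  linarith [h.zero w hw hp, h'.zero w hw hp]
theorem Null.lc {ι : Type} [Fintype ι] (c : ι → ℝ) {V V' : ι → Vc} (h : ∀ j, Null n (V j) (V' j)) :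
    Null n (lc c V) (lc c V') := by
  refine ⟨fun i => Bd.sum _ fun j _ => ((h j).bv i).cmul _,
    fun i => Bd.sum _ fun j _ => ((h j).bu i).cmul _, fun w hw hp => ?_⟩
  have h1 : ip (curl w) (H.lc c V) = _ :=
    md_ip_lin _ c (Dyn.hinf_curl hw.hinf) (fun j _ => (h j).bv) (by norm_num)
  have h2 : ip w (H.lc c V') = _ := md_ip_lin _ c hw.hinf (fun j _ => (h j).bu) (by norm_num)
  rw [h1, h2, ← Finset.sum_add_distrib]
  exact Finset.sum_eq_zero fun j _ => by rw [← mul_add, (h j).zero w hw hp, mul_zero]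

end Pool.Agent.Work.MP_6bf1e5_an.H
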