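import Pool.Agent.Work.MP_6bf1e5_an.H.GalIbp
import Pool.Agent.Work.MP_6bf1e5_an.H.SkMode
import Pool.Agent.Work.MP_6bf1e5_an.H.ResOrt

/-! The toroidal tests and the triangular system of the modes. -/

open scoped ContDiff ENNReal FourierTransform Real
open Set MeasureTheory Polynomial

namespace Pool.Agent.Work.MP_6bf1e5_an.H

/-- The pairing with a toroidal harmonic. -/
noncomputable def GalP (V : Vc) (l m : ℕ) : ℝ := ∫ y, ∑ i, V i y * (Op (9 / 4) y * eV l m i y)

/-- The potentials of single harmonics. -/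
noncomputable def GalE (l m : ℕ) : Vc := fun i y => Op (3 / 4) y * eV l m i y

variable {V W : Vc} {Y g : Sc} {j k l m l' m' : ℕ}

theorem Gal_int_P (hV : ∀ i, Bd 0 (V i)) (l m : ℕ) :
    Integrable fun y => ∑ i, V i y * (Op (9 / 4) y * eV l m i y) :=
  integrable_finsetSum _ fun i _ => Gal_int_test (hV i) (hf_eV l m i).1

theorem GalP_sub (hV : ∀ i, Bd 0 (V i)) (hW : ∀ i, Bd 0 (W i)) :
    GalP (fun i y => V i y - W i y) l m = GalP V l m - GalP W l m := by
  simp only [GalP, sub_mul, Finset.sum_sub_distrib]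
  exact integral_sub (Gal_int_P hV l m) (Gal_int_P hW l m)

theorem GalP_sum {ι : Type} (s : Finset ι) (c : ι → ℝ) {U : ι → Vc} (h : ∀ j i, Bd 0 (U j i)) :
    GalP (fun i y => ∑ j ∈ s, c j * U j i y) l m = ∑ j ∈ s, c j * GalP (U j) l m := by
  simp only [GalP, ← integral_const_mul]
  rw [← integral_finsetSum _ fun j _ => (Gal_int_P (h j) l m).const_mul (c j)]
  simp only [Finset.sum_mul, Finset.mul_sum, mul_assoc]
  exact integral_congr_ae (.of_forall fun y => Finset.sum_comm)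

theorem Gal_tor {N d : ℕ} (hV : ∀ i, Bd 0 (V i))
    (h : ∀ l m, 2 ≤ l → l % 2 = 0 → l + m ≤ N → GalP V l m = 0) (hd : d + 1 ≤ N) (A : ℕ) :
    GalW 1 A d ≤ GalK fun y => Op (9 / 4) y * (Om y * (V 0 y * y 1 - V 1 y * y 0)) := by
  refine Gal_span_tor (N := N) (fun a m ha hm => ?_) A hd
  have e : ∀ y, ∑ i, V i y * (Op (9 / 4) y * eV (a + 1) m i y) =
      Op (9 / 4) y * (Om y * (V 0 y * y 1 - V 1 y * y 0)) *
        (Om y ^ a * bl (a + 1) y * (geg (2 * (a + 1) + 2) m).eval (1 - Om y)) := fun y => by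
    have : Op ((a + 1 : ℕ) : ℝ) y = Om y ^ (a + 1) := Real.rpow_natCast _ _
    simp only [eV, tO, tor, sm, rad_omF, TT_eq, this, Fin.sum_univ_three]
    simp [Jv]
    ring
  exact ⟨(Gal_int_P hV _ _).congr (.of_forall e),
    (integral_congr_ae (.of_forall e)).symm.trans (h _ _ (by omega) (by omega) hm)⟩

theorem Gal_Op (y : R3) : Op (3 / 4) y * Op (9 / 4) y = Om y ^ 3 := by
  rw [Op, Op, ← Real.rpow_add (Dyn.Om_pos y), ← Real.rpow_natCast]
  norm_num

theorem Gal_ipS (Y g : Sc) : ∫ y, Op (3 / 4) y * Y y * (Op (9 / 4) y * g y) = ipS Y g :=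
  integral_congr_ae (.of_forall fun y => by simp only [← Gal_Op]; ring)

theorem Gal_bd_E (h : PolyF k Y) : Bd 0 fun y => Op (3 / 4) y * Y y :=
  (Gal_bd_test h _).mono (by norm_num)

theorem Gal_bd_GalE (l m : ℕ) (i : Fin 3) : Bd 0 (GalE l m i) := Gal_bd_E (hf_eV l m i).1

theorem Gal_ort (h : ¬(l = l' ∧ m = m')) : GalP (GalE l m) l' m' = 0 := by
  by_cases hl : l = l'
  · subst hl
    rw [GalP, integral_finsetSum _ fun i _ => Gal_int_test (Gal_bd_GalE l m i) (hf_eV l m' i).1]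
    refine Finset.sum_eq_zero fun i _ => (Gal_ipS _ _).trans ?_
    rcases lt_or_gt_of_ne (show m ≠ m' from fun e => h ⟨rfl, e⟩) with hm | hm
    · rw [← (hf_eV l m' i).2 _ (by omega) _ (hf_eV l m i).1]
      simp only [ipS, mul_comm]
    · exact (hf_eV l m i).2 _ (by omega) _ (hf_eV l m' i).1
  · have := int_TT l l' fun r => (2 / (1 + r ^ 2)) ^ (3 / 4 : ℝ) * omF l (geg (2 * l + 2) m) (r ^ 2)
      * ((2 / (1 + r ^ 2)) ^ (9 / 4 : ℝ) * omF l' (geg (2 * l' + 2) m') (r ^ 2))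
    rw [if_neg hl] at this
    refine (integral_congr_ae (.of_forall fun y => ?_)).trans this
    simp only [GalE, eV, tO, tor, sm, rad, Op, Om, dot, Fin.sum_univ_three]
    ring

theorem Gal_deg (h : GalP (GalE l m) l m = 0) (V : Vc) : GalP V l m = 0 := by
  have p : ∀ y i, 0 ≤ GalE l m i y * (Op (9 / 4) y * eV l m i y) := fun y i => by
    have := mul_nonneg (pow_pos (Dyn.Om_pos y) 3).le (sq_nonneg (eV l m i y))
    rw [← Gal_Op] at this
    exact this.trans_eq (by simp only [GalE]; ring)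
  have := (integral_eq_zero_iff_of_nonneg (fun y => Finset.sum_nonneg fun i _ => p y i)
    (Gal_int_P (Gal_bd_GalE l m) l m)).1 h
  refine integral_eq_zero_of_ae (this.mono fun y hy => Finset.sum_eq_zero fun i _ => ?_)
  have h0 := (Finset.sum_eq_zero_iff_of_nonneg fun i _ => p y i).1 hy i (Finset.mem_univ i)
  have h1 : Op (3 / 4) y ≠ 0 := (Real.rpow_pos_of_pos (Dyn.Om_pos y) _).ne'
  rcases mul_eq_zero.1 h0 with h0 | h0
  · rw [(mul_eq_zero.1 h0).resolve_left h1, mul_zero, mul_zero]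
  · rw [h0, mul_zero]

theorem GalP_pot (a : Mode) (l m : ℕ) :
    GalP a.pot l m = if a.l = l ∧ m < a.M then a.B m * GalP (GalE l m) l m else 0 := by
  have e : a.pot = fun i y => ∑ m ∈ Finset.range a.M, a.B m * GalE a.l m i y := by
    funext i y
    simp only [Mode.pot, GalE, Finset.mul_sum, mul_left_comm]
  rw [e, GalP_sum _ _ (Gal_bd_GalE a.l)]
  split_ifs with h
  · rw [Finset.sum_eq_single_of_mem m (Finset.mem_range.2 h.2) fun m' _ h' => by
      rw [Gal_ort fun e => h' e.2, mul_zero], h.1]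
  · refine Finset.sum_eq_zero fun m' h' => ?_
    rw [Gal_ort (l' := l) (m' := m) fun e => h ⟨e.1, e.2 ▸ Finset.mem_range.1 h'⟩, mul_zero]

theorem Gal_solve {n : ℕ} {ι : Type} [Fintype ι] {md : ι → Mode} (h : Spans n md) (V : Bool → Vc) :
    ∃ c : ι → ℝ, ∀ pol l m, 2 ≤ l → l % 2 = 0 → l + m ≤ n + (if pol then 1 else 0) →
      ∑ j, (if (md j).pol = pol then c j else 0) * GalP (md j).pot l m = GalP (V pol) l m := by
  classical
  obtain ⟨c, hc⟩ := Gal_tri (I := Bool × ℕ × ℕ)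
    ((Finset.univ ×ˢ Finset.range (n + 2) ×ˢ Finset.range (n + 2)).filter fun a =>
      2 ≤ a.2.1 ∧ a.2.1 % 2 = 0 ∧ a.2.1 + a.2.2 ≤ n + (if a.1 then 1 else 0) ∧
        GalP (GalE a.2.1 a.2.2) a.2.1 a.2.2 ≠ 0) (fun a => a.2.2)
    (fun j a => if (md j).pol = a.1 then GalP (md j).pot a.2.1 a.2.2 else 0) (by
      rintro ⟨pol, l, m⟩ ha
      obtain ⟨-, h1, h2, h3, h4⟩ := Finset.mem_filter.1 ha
      obtain ⟨j, e1, e2, e3, e4, e5⟩ := h.2 pol l m h1 h2 h3
      refine ⟨j, ?_, ?_⟩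
      · simp only [GalP_pot]
        rw [if_pos e1, if_pos ⟨e2, e3⟩]
        exact mul_ne_zero e4 h4
      · rintro ⟨pol', l', m'⟩ - hne h0
        simp only [GalP_pot] at h0
        split_ifs at h0 with k1 k2
        · by_contra hm
          rcases (not_lt.1 hm).lt_or_eq with hm | hm
          · exact h0 (by rw [e5 m' hm, zero_mul])
          · exact hne (by rw [← e1, ← e2, ← k1, ← k2.1, show m' = m from hm])
        all_goals exact absurd rfl h0) fun a => GalP (V a.1) a.2.1 a.2.2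
  refine ⟨c, fun pol l m h1 h2 h3 => ?_⟩
  by_cases h4 : GalP (GalE l m) l m = 0
  · simp only [Gal_deg h4, mul_zero, Finset.sum_const_zero]
  have := hc (pol, l, m) (Finset.mem_filter.2 ⟨by
    have : l + m ≤ n + 1 := h3.trans (by split_ifs <;> omega)
    simp only [Finset.mem_product, Finset.mem_univ, Finset.mem_range, true_and]
    omega, h1, h2, h3, h4⟩)
  simpa only [mul_ite, ite_mul, mul_zero, zero_mul] using this

theorem Gal_tor_mer (l : ℕ) (g : ℝ → ℝ) (y : R3) :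
    tor l g 0 y * y 0 + tor l g 1 y * y 1 = 0 ∧ tor l g 2 y = 0 := by
  simp only [tor, sm, TT_eq]
  simp [Jv]
  ring

theorem Gal_pot_mer (a : Mode) (y : R3) : a.pot 0 y * y 0 + a.pot 1 y * y 1 = 0 ∧ a.pot 2 y = 0 := by
  rw [a.pot_eq]
  exact Gal_tor_mer _ _ y

theorem Gal_mer_tor (l : ℕ) (α β : ℝ → ℝ) (y : R3) :
    mer l α β 0 y * y 1 - mer l α β 1 y * y 0 = 0 := by
  rw [← dot_tor_mer (l := 1) (f := fun _ => 1) (α := α) (β := β) (l' := l) y]
  generalize mer l α β = V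
  simp only [dot, tor, sm, TT_eq, Fin.sum_univ_three]
  simp [Jv, bl, rad]
  ring

theorem Gal_curl_tor (a : Mode) (y : R3) : curl a.pot 0 y * y 1 - curl a.pot 1 y * y 0 = 0 := by
  rw [a.pot_eq, curl_tO]
  exact Gal_mer_tor _ _ _ y

end Pool.Agent.Work.MP_6bf1e5_an.H
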