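import Pool.Agent.Work.MP_6bf1e5_an.H.UpFin

/-!
The statement of the hand-in, unfolded.
-/

open scoped ContDiff ENNReal FourierTransform Real
open Set MeasureTheory

namespace Pool.Agent.Work.MP_6bf1e5_an.H

theorem hand_of_blowup {ν : ℝ} (h : ∃ T, 0 < T ∧ BlowUp ν T) :
    ∃ T > 0, ∃ u0 : SchwartzMap R3 R3, (∀ x, ∑ i, pd i (fun y => u0 y i) x = 0) ∧
      (∃ u p U, (∀ T1, 0 < T1 → T1 < T → FSol (3 / 4) ν u0 T1 u p U) ∧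
        (∀ t ∈ Ico 0 T, ∫ x, ‖u x t‖ ^ 2 ≤ ∫ x, ‖u0 x‖ ^ 2) ∧
        ∃ c > 0, ∃ R : ℝ, ∀ t ∈ Ico 0 T,
          (∃ x, ‖x‖ ≤ R * (T - t) ^ (2 / 3 : ℝ) ∧ c * (T - t) ^ (-(1 / 3) : ℝ) ≤ ‖u x t‖) ∧
          ∃ x, ‖x‖ ≤ R * (T - t) ^ (2 / 3 : ℝ) ∧ ∃ i : Fin 3, c / (T - t) ≤
            |pd (i + 1) (fun y => u y t (i + 2)) x - pd (i + 2) (fun y => u y t (i + 1)) x|) ∧
      ¬∃ u p U, FSol (3 / 4) ν u0 T u p U := h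

end Pool.Agent.Work.MP_6bf1e5_an.H
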