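import Pool.Agent.Lib.Dy.HkDefs
import Pool.Agent.Work.MP_6bf1e5_an.H.DataN

/-! Checks of Hankel sums (owner helper60). -/

namespace Pool.Agent.Work.MP_6bf1e5_an.H

open Pool.Agent.Lib.Dy

theorem hk_cc0_0 : job true 1542 4 74 239 6 239 6 2 cOne 0 17
    171873775695698896056084043035069170094678663187268808263147574225797 0 aD aD = true := by
  decide +kernel

theorem hk_cc0_1 : job true 1506 4 74 239 6 239 6 2 cOne 17 36
    1036181233461180542822951994388036073102284585190037272696892038885 0 aD aD = true := by
  decide +kernel

theorem hk_cc0_2 : job true 1411 4 74 239 6 239 6 2 cOne 36 59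
    905723496703904014607290462546348925846015539052464550299573014 0 aD aD = true := by
  decide +kernel

theorem hk_cc0_3 : job true 1273 4 74 239 6 239 6 2 cOne 59 88
    196601280129230285851387001479785325393948423123977666010077 0 aD aD = true := by
  decide +kernel

end Pool.Agent.Work.MP_6bf1e5_an.H
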