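import Pool.Agent.Lib.Dy.HkDefs
import Pool.Agent.Work.MP_6bf1e5_an.H.DataN

/-! Checks of Hankel sums (owner helper60). -/

namespace Pool.Agent.Work.MP_6bf1e5_an.H

open Pool.Agent.Lib.Dy

theorem hk_cc2_4 : job true 1056 8 122 239 6 239 6 6 cOne 88 134
    157501639781821758992658231288661222182899871513887597207 0 aD aD = true := by
  decide +kernel

theorem hk_cc2_5 : job true 758 8 122 239 6 239 6 6 cOne 134 290
    290037250583465236952256709830613114057129371147 0 aD aD = true := by
  decide +kernel

end Pool.Agent.Work.MP_6bf1e5_an.H
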