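import Pool.Agent.Work.MP_6bf1e5_an.H.Const
import Pool.Agent.Work.MP_6bf1e5_an.H.DataDefs
import Pool.Agent.Lib.Dy.HkCore

/-! The forms `RQ` of the data as weighted Hankel forms (owner helper60). -/

open scoped Real
open Finset

namespace Pool.Agent.Work.MP_6bf1e5_an.H

open Pool.Agent.Lib.Dy

theorem chP_eq : chP = Pool.Agent.Lib.Dy.chP := rfl

theorem JQ_hank {s c σ : ℝ} {t l e e' b b' r r' q : ℕ} (p p' : ℕ × ℕ) (hs : s = t / 2)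
    (hq : e + e' + t = 4 * l + 6 + q) (hc : (2 : ℝ) ^ ((t : ℝ) / 2 - 1) = c * σ) :
    JQ 1 s l (radOf 1 e b r p) (radOf 1 e' b' r' p')
      = c / (2 ^ r * 2 ^ r') * hank σ t b e p b' e' p' (4 * l + 6 + t) q := by
  rw [JQ, hank, mul_sum, hs]
  refine sum_congr rfl fun j _ => ?_
  rw [mul_sum]
  refine sum_congr rfl fun k _ => ?_
  simp only [radOf]
  rw [Jc_eq 1 t l (e + j) (e' + k) (q + (j + k)) (by omega), hc, Real.one_rpow, ug, ug, bt, chP_eq]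
  ring

theorem nT_JQ (F G : Fml) {s c σ : ℝ} {t i e e' a0 b0 q : ℕ} (hs : s = t / 2)
    (he : e = 4 * i + a0) (he' : e' = 4 * i + b0) (hq : a0 + b0 + t = 14 + q)
    (hc : (2 : ℝ) ^ ((t : ℝ) / 2 - 1) = c * σ) :
    nT (2 * i + 2) * JQ 1 s (2 * i + 2) (F.r e (2 * i + 2)) (G.r e' (2 * i + 2))
      = π * (c / (2 ^ F.s * 2 ^ G.s) * term σ t F.b a0 G.b b0 q i (F.D.getD i (0, 2 ^ F.b))
        (G.D.getD i (0, 2 ^ G.b))) := by
  rw [Fml.r, Fml.r, ent_eq, ent_eq, JQ_hank (q := q) _ _ hs (by omega) hc, term, nT, he, he',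
    show 4 * (2 * i + 2) + 6 + t = 8 * i + (t + 14) by ring]
  push_cast
  rw [show (2 : ℝ) * (2 * i + 2) + 1 = 4 * i + 5 by ring]
  ring

theorem two_even (k : ℕ) : (2 : ℝ) ^ (((2 * k : ℕ) : ℝ) / 2 - 1) = 2 ^ k / 2 * 1 := by
  rw [Real.rpow_sub (by norm_num), show ((2 * k : ℕ) : ℝ) / 2 = k by push_cast; ring,
    Real.rpow_natCast]
  norm_num

theorem two_odd (k : ℕ) : (2 : ℝ) ^ (((2 * k + 1 : ℕ) : ℝ) / 2 - 1) = 2 ^ k / 2 * √2 := by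
  rw [Real.rpow_sub (by norm_num), show ((2 * k + 1 : ℕ) : ℝ) / 2 = k + 1 / 2 by push_cast; ring,
    Real.rpow_add (by norm_num), Real.rpow_natCast, Real.sqrt_eq_rpow]
  norm_num
  ring

/-- The sum of the terms of one kind. -/
noncomputable def tsum (σ : ℝ) (t b a0 b' b0 q : ℕ) (A B : List (ℕ × ℕ)) (i0 n : ℕ) : ℝ :=
  ∑ i ∈ Ico i0 n, term σ t b a0 b' b0 q i (A.getD i (0, 2 ^ b)) (B.getD i (0, 2 ^ b'))

theorem tsum_add {σ : ℝ} {t b a0 b' b0 q : ℕ} {A B : List (ℕ × ℕ)} {i j : ℕ} (k : ℕ) (h : i ≤ k)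
    (h' : k ≤ j) : tsum σ t b a0 b' b0 q A B i j
      = tsum σ t b a0 b' b0 q A B i k + tsum σ t b a0 b' b0 q A B k j :=
  (sum_Ico_consecutive _ h h').symm

theorem tsum_zero {σ : ℝ} {t b a0 b' b0 q : ℕ} {A B : List (ℕ × ℕ)} {i j : ℕ} (h : A.length = i) :
    tsum σ t b a0 b' b0 q A B i j = 0 :=
  sum_eq_zero fun k hk => by
    rw [List.getD_eq_default _ _ (h ▸ (mem_Ico.1 hk).1)]
    simp [term, hank, ← chP_eq, chP_zero]

theorem tsum_le {same : Bool} {N t cF bA a0 bB b0 q c i0 n Rp Rn : ℕ} {A B : List (ℕ × ℕ)} {s : ℝ}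
    (H : job same N t cF bA a0 bB b0 q c i0 n Rp Rn A B = true) (hs : Enc 3072 s c 1)
    (h : same = true → bB = bA ∧ b0 = a0 ∧ B = A) :
    tsum s t bA a0 bB b0 q A B i0 n ≤ Rp - Rn := job_ok _ _ hs h H

theorem Dat.q_eq (d : Dat) (ν : ℝ) (k : ℕ) : d.q ν (2 * k : ℕ) = π * (4 ^ k *
    (ν ^ 2 * 64 * tsum 1 (2 * (7 + 2 * k)) d.F.b 3 d.F.b 3 (6 + 4 * k) d.F.D d.F.D 0 d.n
        / (2 ^ d.F.s * 2 ^ d.F.s)
      + ν * 8 * tsum √2 (2 * (3 + 2 * k) + 1) d.F.b 3 d.B.b 8 (4 + 4 * k) d.F.D d.B.D 0 d.n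
        / (2 ^ d.F.s * 2 ^ d.B.s)
      + 1 / 2 * tsum 1 (2 * (2 * k)) d.B.b 8 d.B.b 8 (2 + 4 * k) d.B.D d.B.D 0 d.n
        / (2 ^ d.B.s * 2 ^ d.B.s)
      + ν ^ 2 * 16 * tsum 1 (2 * (5 + 2 * k)) d.S.b 5 d.S.b 5 (6 + 4 * k) d.S.D d.S.D 0 d.n
        / (2 ^ d.S.s * 2 ^ d.S.s)
      + ν * 8 * tsum √2 (2 * (3 + 2 * k) + 1) d.S.b 5 d.C.b 6 (4 + 4 * k) d.S.D d.C.D 0 d.n
        / (2 ^ d.S.s * 2 ^ d.C.s)
      + 2 * tsum 1 (2 * (2 + 2 * k)) d.C.b 6 d.C.b 6 (2 + 4 * k) d.C.D d.C.D 0 d.n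
        / (2 ^ d.C.s * 2 ^ d.C.s))) := by
  simp only [Dat.q, Dat.L, sum_LN, tsum, ← range_eq_Ico, sum_div, ← sum_add_distrib, mul_sum]
  refine sum_congr rfl fun i _ => ?_
  have e1 := nT_JQ d.F d.F (s := 7 + (2 * k : ℕ)) (i := i) (e := 2 * (2 * i + 2) - 1)
    (e' := 2 * (2 * i + 2) - 1) (a0 := 3) (b0 := 3) (q := 6 + 4 * k) (by push_cast; ring)
    (by omega) (by omega) (by omega) (two_even (7 + 2 * k))
  have e2 := nT_JQ d.F d.B (s := 7 / 2 + (2 * k : ℕ)) (i := i) (e := 2 * (2 * i + 2) - 1)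
    (e' := 2 * (2 * i + 2) + 4) (a0 := 3) (b0 := 8) (q := 4 + 4 * k) (by push_cast; ring)
    (by omega) (by omega) (by omega) (two_odd (3 + 2 * k))
  have e3 := nT_JQ d.B d.B (s := (2 * k : ℕ)) (i := i) (e := 2 * (2 * i + 2) + 4)
    (e' := 2 * (2 * i + 2) + 4) (a0 := 8) (b0 := 8) (q := 2 + 4 * k) (by push_cast; ring)
    (by omega) (by omega) (by omega) (two_even (2 * k))
  have e4 := nT_JQ d.S d.S (s := 5 + (2 * k : ℕ)) (i := i) (e := 2 * (2 * i + 2) + 1)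
    (e' := 2 * (2 * i + 2) + 1) (a0 := 5) (b0 := 5) (q := 6 + 4 * k) (by push_cast; ring)
    (by omega) (by omega) (by omega) (two_even (5 + 2 * k))
  have e5 := nT_JQ d.S d.C (s := 7 / 2 + (2 * k : ℕ)) (i := i) (e := 2 * (2 * i + 2) + 1)
    (e' := 2 * (2 * i + 2) + 2) (a0 := 5) (b0 := 6) (q := 4 + 4 * k) (by push_cast; ring)
    (by omega) (by omega) (by omega) (two_odd (3 + 2 * k))
  have e6 := nT_JQ d.C d.C (s := 2 + (2 * k : ℕ)) (i := i) (e := 2 * (2 * i + 2) + 2)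
    (e' := 2 * (2 * i + 2) + 2) (a0 := 6) (b0 := 6) (q := 2 + 4 * k) (by push_cast; ring)
    (by omega) (by omega) (by omega) (two_even (2 + 2 * k))
  simp only [RQ, Dat.f, Dat.s, Dat.b, Dat.c]
  have e7 : (4 : ℝ) ^ k = 2 ^ (2 * k) := by rw [pow_mul]; norm_num
  rw [e7]
  linear_combination ν ^ 2 * e1 + 2 * ν * e2 + e3 + ν ^ 2 * e4 + 2 * ν * e5 + e6

end Pool.Agent.Work.MP_6bf1e5_an.H
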