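import Pool.Agent.Work.MP_6bf1e5_an.H.PassDef
import Pool.Agent.Lib.KRad.Top

/-! The check for the plane of initial perturbations (owner helper52). -/

namespace Pool.Agent.Work.MP_6bf1e5_an.H.Ini

open Pool.Agent.Lib.KLA Pool.Agent.Lib.KBlk Ps

/-- The weights of the first four coefficients of a functional. -/
def wt (c m : Nat) : Int :=
  (if c = 0 then [8705, -22515, 39858, -35700] else [13090, -28560, 29988, 0]).getD m 0

noncomputable section

/-- The same number, evaluated. -/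
def evI (e : Int) : Int :=
  Int.rec (motive := fun _ => Int) (fun n => strict n Int.ofNat) (fun n => strict n Int.negSucc) e

/-- The sum of `f j` over `j < n`. -/
def sumI (f : Nat → Int) (n : Nat) : Int :=
  Nat.rec (motive := fun _ => Int) (Int.ofNat 0) (fun m ih => evI (Int.add ih (f m))) n

/-- Entry `j` of a vector with offset `K`. -/
def entI (W K x j : Nat) : Int :=
  Int.subNatNat (Nat.land (Nat.shiftRight x (Nat.mul W j)) (low W)) K

/-- `x ≤ 0`. -/
def nonp (x : Int) : Bool :=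
  Int.rec (motive := fun _ => Bool) (fun n => Nat.ble n 0) (fun _ => true) x

/-- `2 ^ s`. -/
def p2 (s : Nat) : Int := Int.ofNat (Nat.shiftLeft 1 s)

/-- The moment of member `j` of class `c`; `r c m` is the vector of the coefficients number `m`,
`t c m` their factor. -/
def gI (W K : Nat → Nat) (t r : Nat → Nat → Nat) (c j : Nat) : Int :=
  sumI (fun m => Int.mul (Int.mul (wt c m) (Int.ofNat (t c m))) (entI (W c) (K c) (r c m) j)) 4

/-- The form of `F` between two classes. -/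
def sF (D : Dat) (n : Nat) (g : Nat → Nat → Int) (c d : Nat) : Int :=
  (fun R : Rows => strict (D.Ah.pos 1 c 0) fun o => sumI (fun j => Int.mul
    (strict (R.get (Nat.add o j)) fun x =>
      sumI (fun i => Int.mul (entI D.V D.kX x i) (g d i)) (D.Ah.J 1 d)) (g c j)) (D.Ah.J 1 c))
    (ldB D.V D.kX D.Am D.X 1 d 1 n)

/-- Row `i` of `Z` on a class. -/
def sZ (D : Dat) (n : Nat) (g : Nat → Nat → Int) (i c : Nat) : Int :=
  (fun R : Rows => strict (D.Ah.pos 1 c 0) fun o =>
    sumI (fun j => Int.mul (entI D.V D.kZ (R.get (Nat.add o j)) i) (g c j)) (D.Ah.J 1 c))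
    (ld D.V D.kZ 0 2 1 n D.Zc)

/-- The total scale. -/
def tS (D : Dat) (E : Nat) : Nat :=
  Nat.add (Nat.add (Nat.mul 2 (Nat.add E 9)) D.sX) (Nat.mul 2 D.sZ)

/-- The matrix of the energy. -/
def mE (D : Dat) (n E : Nat) (g : Nat → Nat → Int) (c d : Nat) : Int :=
  Int.add (Int.mul (if c = d then if c = 0 then 50 else 1301 else 0) (p2 (tS D E)))
    (Int.mul (sF D n g c d) (p2 (Nat.mul 2 D.sZ)))

/-- The matrix of the positive form. -/
def mX (D : Dat) (n E : Nat) (g : Nat → Nat → Int) (c d : Nat) : Int :=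
  Int.add (mE D n E g c d)
    (Int.mul (sumI (fun i => Int.mul (sZ D n g i c) (sZ D n g i d)) 2) (p2 (Nat.add D.sX 1)))

/-- A matrix in the basis `a`. -/
def bas (a M : Nat → Nat → Int) (k l : Nat) : Int :=
  sumI (fun c => sumI (fun d => Int.mul (Int.mul (a k c) (a l d)) (M c d)) 2) 2

/-- `B + u` is negative. -/
def neg2 (B : Nat → Nat → Int) (u : Int) : Bool :=
  (fun s x y : Int => bnd (bnd (nonp (Int.add x s)) (nonp (Int.sub x s)))
    (bnd (nonp (Int.add y s)) (nonp (Int.sub y s))))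
    (Int.add (B 0 1) (B 1 0)) (Int.mul 2 (Int.add (B 0 0) u)) (Int.mul 2 (Int.add (B 1 1) u))

/-- The check; the basis of the plane is `a / 2 ^ s`. -/
def chk (D : Dat) (n : Nat) (W K : Nat → Nat) (t r : Nat → Nat → Nat) (E : Nat)
    (a : Nat → Nat → Int) (s : Nat) : Bool :=
  bnd (bnd (bnd (bnd (Nat.beq D.Ah.b0 1) (Nat.ble 1 D.Ah.nq))
      (bnd (Nat.ble (D.Ah.pos 1 1 (D.Ah.J 1 1)) (Nat.mul 16 n)) (Nat.ble (Nat.add 1 n) D.c1)))
    (bnd (bnd (Nat.ble (Nat.mul 2 D.kX) (low D.V)) (Nat.ble (Nat.mul 2 D.kZ) (low D.V)))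
      (bnd (Nat.ble (Nat.mul 2 (K 0)) (low (W 0))) (Nat.ble (Nat.mul 2 (K 1)) (low (W 1))))))
    (bnd (neg2 (bas a (mE D n E (gI W K t r))) (p2 (Nat.add (tS D E) (Nat.mul 2 s))))
      (neg2 (bas a (mX D n E (gI W K t r)))
        (Int.mul (-2) (p2 (Nat.add (tS D E) (Nat.mul 2 s))))))

/-- The check for stored coefficients of the functionals. -/
def chkT (D : Dat) (n : Nat) (Th : Nat → Nat → Lib.KRad.Cm) (E : Nat) (a : Nat → Nat → Int)
    (s : Nat) : Bool :=
  bnd (allR (fun c => bnd (bnd (Th 1 c).fit (Nat.ble 1 (Th 1 c).c)) (allR (fun m =>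
      Nat.ble (Nat.add (Lib.KRad.dig (Th 1 c).E m) (Th 1 c).z) E) 0 4)) 0 2)
    (chk D n (fun c => (Th 1 c).Ws) (fun c => (Th 1 c).K)
      (fun c m => cnd (Nat.ble m (Th 1 c).M) (Nat.shiftLeft 1
        (Nat.sub E (Nat.add (Lib.KRad.dig (Th 1 c).E m) (Th 1 c).z))) 0)
      (fun c => ((Th 1 c).raw (D.Ah.J 1 c)).get) E a s)

/-- The check with the basis that is used. -/
def chk0 (D : Dat) (Th : Nat → Nat → Lib.KRad.Cm) : Bool :=
  chkT D 8 Th 88 (fun k c => (if k = 0 then [4040, 772] else [-3845, 364]).getD c 0) 16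

end

end Pool.Agent.Work.MP_6bf1e5_an.H.Ini
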