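import Pool.Agent.Work.MP_6bf1e5_an.H.IniS
import Pool.Agent.Work.MP_6bf1e5_an.H.PassT
import Pool.Agent.Work.MP_6bf1e5_an.H.Asm
import Pool.Agent.Work.MP_6bf1e5_an.H.FamT

/-! The plane of initial perturbations from the check (owner helper52). -/

open Finset Polynomial Pool.Agent.Lib.KLA Pool.Agent.Lib.KBlk

namespace Pool.Agent.Work.MP_6bf1e5_an.H.Ini

open Ps

theorem evI_eq : ∀ e, evI e = e
  | .ofNat _ => rfl
  | .negSucc _ => rfl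

theorem sumI_eq (f : ℕ → ℤ) : ∀ n, sumI f n = ∑ j ∈ range n, f j
  | 0 => rfl
  | n + 1 => by
    rw [sum_range_succ, ← sumI_eq f n]
    exact evI_eq _

theorem entI_eq {W p K x j : ℕ} {v : ℕ → ℤ} (h : Vec W p K x v) (hK : 2 * K ≤ low W) (hj : j < p) :
    entI W K x j = v j := by
  have : 0 < 2 ^ W := by positivity
  rw [entI, Int.subNatNat_eq_coe, land_shr, Nat.mul_eq, h.ent (by rw [low_eq] at hK; omega) hj,
    add_sub_cancel_right]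

theorem nonp_le : ∀ {x : ℤ}, nonp x = true → x ≤ 0
  | .ofNat _, h => Int.ofNat_le.2 (Nat.le_of_ble_eq_true h)
  | .negSucc n, _ => (Int.negSucc_lt_zero n).le

theorem p2_eq (s : ℕ) : (p2 s : ℝ) = 2 ^ s := by
  rw [p2, shl_eq]
  simp

theorem neg2_le {a M : ℕ → ℕ → ℤ} {u : ℤ} (h : neg2 (bas a M) u = true) {v : Fin 2 → ℝ}
    {Y : ℕ → ℝ} (hY : ∀ c, Y c = ∑ k, v k * a k c) :
    ∑ c ∈ range 2, ∑ d ∈ range 2, Y c * Y d * M c d ≤ -u * ∑ k, v k ^ 2 := by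
  simp only [neg2, bnd_iff, hY] at h ⊢
  obtain ⟨⟨h1, h2⟩, h3, h4⟩ := h
  have k1 := (Int.cast_le (R := ℝ)).2 (nonp_le h1)
  have k2 := (Int.cast_le (R := ℝ)).2 (nonp_le h2)
  have k3 := (Int.cast_le (R := ℝ)).2 (nonp_le h3)
  have k4 := (Int.cast_le (R := ℝ)).2 (nonp_le h4)
  have e : ∑ c ∈ range 2, ∑ d ∈ range 2, (∑ k, v k * a k c) * (∑ k, v k * a k d) * M c d =
      v 0 ^ 2 * bas a M 0 0 + v 0 * v 1 * (bas a M 0 1 + bas a M 1 0) + v 1 ^ 2 * bas a M 1 1 := by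
    simp only [bas, sumI_eq, Int.mul_def, sum_range_succ, range_zero, sum_empty, Fin.sum_univ_two,
      Fin.val_zero, Fin.val_one]
    push_cast
    ring
  simp only [Int.add_def, show ∀ x y : ℤ, x.sub y = x - y from fun _ _ => rfl, Int.mul_def]
    at k1 k2 k3 k4
  push_cast at k1 k2 k3 k4
  rw [e, Fin.sum_univ_two]
  generalize (bas a M 0 1 + bas a M 1 0 : ℝ) = s at *
  rcases le_total 0 s with hs | hs
  · nlinarith [mul_nonneg hs (sq_nonneg (v 0 - v 1)), mul_nonneg (neg_nonneg.2 k1) (sq_nonneg (v 0)),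
      mul_nonneg (neg_nonneg.2 k3) (sq_nonneg (v 1))]
  · nlinarith [mul_nonneg (neg_nonneg.2 hs) (sq_nonneg (v 0 + v 1)),
      mul_nonneg (neg_nonneg.2 k2) (sq_nonneg (v 0)), mul_nonneg (neg_nonneg.2 k4) (sq_nonneg (v 1))]

/-- Sums over the two blocks of degree two. -/
theorem sum_two {A : Lay} (h0 : A.b0 = 1) (h1 : 1 ≤ A.nq) {r : ℕ} (hr : r = A.N) {f : ℕ → ℝ}
    (hf : ∀ m < A.N, (A.mem m).1 ≠ 1 → f m = 0) :
    ∑ a : Fin r, f a = ∑ c ∈ range 2, ∑ j ∈ range (A.J 1 c), f (A.pos 1 c j) := by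
  rw [Fin.sum_univ_eq_sum_range, hr, sum_blk (b := 1) h0.le (by omega) hf]
  simp only [tot, add_zero, sum_range_add, sum_range_succ, range_zero, sum_empty, zero_add, Lay.pos,
    enc, Lay.st, if_true, one_ne_zero, if_false]

variable {D : Dat} {n c d : ℕ} {g : ℕ → ℕ → ℤ}

theorem pos_lt (hn : D.Ah.pos 1 1 (D.Ah.J 1 1) ≤ 16 * n) (hc : c < 2) {j : ℕ}
    (hj : j < D.Ah.J 1 c) : D.Ah.pos 1 c 0 + j < 16 * n := by
  simp only [Lay.pos, enc] at hn ⊢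
  interval_cases c <;> simp at hn ⊢ <;> omega

theorem sF_eq (ok : D.Ok) (hb : ∀ c < 2, D.Ah.Has 1 c) (hn : D.Ah.pos 1 1 (D.Ah.J 1 1) ≤ 16 * n)
    (h1 : 1 + n ≤ D.c1) (hK : 2 * D.kX ≤ low D.V) (hc : c < 2) (hd : d < 2) :
    (sF D n g c d : ℝ) = 2 ^ D.sX * ∑ j ∈ range (D.Ah.J 1 c),
      (∑ i ∈ range (D.Ah.J 1 d), D.f (D.Ah.pos 1 c j) (D.Ah.pos 1 d i) * g d i) * g c j := by
  obtain ⟨a1, a2⟩ := ok.has _ _ (hb d hd)
  have hM := mat_ldB (c0 := 1) (c := n) (ok.X 1 a1.1 a1.2.1) (Nat.mul_le_mul_left _ h1) a1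
  simp only [sF, strict_eq, sumI_eq, Int.mul_def, Nat.add_eq, mul_sum, sum_mul]
  push_cast
  refine sum_congr rfl fun j hj => sum_congr rfl fun i hi => ?_
  rw [entI_eq (hM.2 _ (pos_lt hn hc (mem_range.1 hj))) hK ((mem_range.1 hi).trans_le a2),
    Lay.pos_add, Dat.f, ok.lo_pos (hb d hd) (mem_range.1 hi), Dat.x, mul_one]
  field_simp

theorem sZ_eq (ok : D.Ok) (hn : D.Ah.pos 1 1 (D.Ah.J 1 1) ≤ 16 * n) (h1 : 1 + n ≤ D.c1)
    (hK : 2 * D.kZ ≤ low D.V) (hc : c < 2) {i : ℕ} (hi : i < 2) : (sZ D n g i c : ℝ) =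
      2 ^ D.sZ * ∑ j ∈ range (D.Ah.J 1 c), D.z i (D.Ah.pos 1 c j) * g c j := by
  have hM := mat_ld (c0 := 1) (c := n) ok.Zc 0 2 (by omega)
  simp only [sZ, strict_eq, sumI_eq, Int.mul_def, Nat.add_eq, mul_sum]
  push_cast
  refine sum_congr rfl fun j hj => ?_
  rw [entI_eq (hM.2 _ (pos_lt hn hc (mem_range.1 hj))) hK hi, Lay.pos_add, Dat.z]
  simp only [mul_one, zero_add]
  field_simp

/-- The fields of `Static` on the initial perturbations. `r c m` holds the coefficients number `m`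
of the functionals of degree two and class `c`. -/
theorem ini_dat {L : Lyap} (hL : L.Good) (hκ : L.κ ≤ 1 / 10 ^ 10) (ok : D.Ok)
    {Q : ℕ → ℕ → ℕ → ℝ[X]} (hr : L.r = D.Ah.N) (hθ : ∀ a : Fin L.r, L.θ a =
      Jf.thF (D.Ah.mem a).2.1 ((D.Ah.mem a).1 - 1) (Q (D.Ah.mem a).1 (D.Ah.mem a).2.1 (D.Ah.mem a).2.2))
    (hF : ∀ a b, L.F a b = D.f a b) (hZ : ∀ i a, L.Z i a = D.z i a) {E s : ℕ} {W K : ℕ → ℕ}
    {t r : ℕ → ℕ → ℕ} {a : ℕ → ℕ → ℤ} {cm : ℕ → ℕ → ℕ → ℤ}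
    (hC : ∀ c < 2, ∀ m < 4, Vec (W c) (D.Ah.J 1 c) (K c) (r c m) (cm c m))
    (hQ : ∀ c < 2, ∀ j < D.Ah.J 1 c, ∃ N q, 4 ≤ N ∧ Q 1 c j = gS 2 N q ∧
      ∀ m < 4, q m = t c m * cm c m j / 2 ^ E)
    (h : chk D n W K t r E a s = true) : ∃ ψ σ : Fin 2 → Vc, (∀ k, Pot (-3) (ψ k) (σ k)) ∧
      (∀ v, L.E (pl (fun k => fld (ψ k) (σ k)) v) ≤ -1 * ∑ k, v k ^ 2) ∧
      ∀ v, L.X (pl (fun k => fld (ψ k) (σ k)) v) ≤ 2 * ∑ k, v k ^ 2 := by
  simp only [chk, bnd_iff, Nat.ble_eq, Nat.beq_eq, Nat.mul_eq, Nat.add_eq] at h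
  obtain ⟨⟨⟨⟨b0, b1⟩, hn, h1⟩, ⟨kX, kZ⟩, k0, k1⟩, hE, hX⟩ := h
  have hb : ∀ c < 2, D.Ah.Has 1 c := fun c hc => ⟨b0.le, by omega, hc⟩
  set g := gI W K t r with hg
  refine ⟨fun k => sc (a k 1 / 2 ^ s), fun k => sc (a k 0 / 2 ^ s), fun k => pot_sc _ _, ?_⟩
  rw [← forall_and]
  intro v
  obtain ⟨Y, hY⟩ : ∃ Y : ℕ → ℝ, ∀ c, Y c = ∑ k, v k * a k c := ⟨_, fun _ => rfl⟩
  have eu : pl (fun k => fld (sc (a k 1 / 2 ^ s)) (sc (a k 0 / 2 ^ s))) v =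
      lc (fun j : Fin 2 => rho * (Y j / 2 ^ s)) uB := by
    refine (pl_eq (fun k j => a k j / 2 ^ s) v).trans ?_
    simp only [hY, sum_div, mul_div_assoc]
  set γ : ℕ → ℝ := fun b => ∑ j : Fin 2, Y j / 2 ^ s * (rho * mom (Jf.thF (D.Ah.mem b).2.1
    ((D.Ah.mem b).1 - 1) (Q (D.Ah.mem b).1 (D.Ah.mem b).2.1 (D.Ah.mem b).2.2)) (uB j)) with hγ
  obtain ⟨e1, e2⟩ := ini_sem (x := fun j => Y j / 2 ^ s) hL hκ (g := fun b => γ b) fun b => by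
    rw [hθ]
  have z : ∀ m < D.Ah.N, (D.Ah.mem m).1 ≠ 1 → γ m = 0 := fun m hm h => by
    have := (Lay.mem_spec hm).1.1
    exact sum_eq_zero fun j _ => by rw [mom_far (by omega), mul_zero, mul_zero]
  have w : ∀ c ∈ range 2, ∀ j ∈ range (D.Ah.J 1 c),
      γ (D.Ah.pos 1 c j) = Y c / 2 ^ s / 2 ^ (E + 9) * g c j := fun c hc j hj => by
    have hc := mem_range.1 hc
    obtain ⟨N, q, hN, eq, hq⟩ := hQ c hc j (mem_range.1 hj)
    have : (∑ m ∈ range 4, wt c m * q m) / 512 = g c j / 2 ^ (E + 9) := by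
      simp only [hg, gI, sumI_eq, Int.mul_def, sum_div]
      push_cast
      rw [sum_div]
      refine sum_congr rfl fun m hm => ?_
      rw [hq m (mem_range.1 hm), entI_eq (hC c hc m (mem_range.1 hm))
        (by interval_cases c <;> assumption) (mem_range.1 hj), pow_add]
      simp only [Int.ofNat_eq_natCast, Int.cast_natCast]
      ring
    simp only [hγ, (Lay.mem_pos (hb c hc) (mem_range.1 hj)).2, Nat.sub_self, eq, mom_low hc hN, this,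
      Fin.sum_univ_two, Fin.val_zero, Fin.val_one]
    interval_cases c <;> simp <;> ring
  have f1 : ∑ a : Fin L.r, (∑ b : Fin L.r, L.F a b * γ b) * γ a = (∑ c ∈ range 2, ∑ d ∈ range 2,
      Y c * Y d * sF D n g c d) / (2 ^ s * 2 ^ (E + 9)) ^ 2 / 2 ^ D.sX := by
    simp only [hF]
    rw [sum_two b0 b1 hr (f := fun a => (∑ b : Fin L.r, D.f a b * γ b) * γ a) fun m hm h => by
      rw [z m hm h, mul_zero], sum_div, sum_div]
    refine sum_congr rfl fun c hc => ?_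
    rw [sum_congr rfl fun d hd => congrArg (Y c * Y d * ·)
      (sF_eq ok hb hn h1 kX (mem_range.1 hc) (mem_range.1 hd))]
    simp only [mul_sum _ _ (2 ^ D.sX : ℝ), mul_sum _ _ (Y c * _)]
    rw [sum_comm, sum_div, sum_div]
    refine sum_congr rfl fun j hj => ?_
    rw [sum_two b0 b1 hr (f := fun b => D.f (D.Ah.pos 1 c j) b * γ b) fun m hm h => by
      rw [z m hm h, mul_zero], w c hc j hj, sum_mul, sum_div, sum_div]
    refine sum_congr rfl fun d hd => ?_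
    rw [sum_congr rfl fun i hi => congrArg (D.f (D.Ah.pos 1 c j) (D.Ah.pos 1 d i) * ·) (w d hd i hi)]
    simp only [mul_left_comm _ (Y d / 2 ^ s / 2 ^ (E + 9)), ← mul_sum]
    field_simp
  have f2 : ∀ i : Fin 2, ∑ a : Fin L.r, L.Z i a * γ a =
      (∑ c ∈ range 2, Y c * sZ D n g i c) / (2 ^ s * 2 ^ (E + 9)) / 2 ^ D.sZ := fun i => by
    simp only [hZ]
    rw [sum_two b0 b1 hr (f := fun a => D.z i a * γ a) fun m hm h => by
      rw [z m hm h, mul_zero], sum_div, sum_div]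
    refine sum_congr rfl fun c hc => ?_
    rw [sZ_eq ok hn h1 kZ (mem_range.1 hc) i.2,
      sum_congr rfl fun j hj => congrArg (D.z i (D.Ah.pos 1 c j) * ·) (w c hc j hj)]
    simp only [mul_left_comm _ (Y c / 2 ^ s / 2 ^ (E + 9)), ← mul_sum]
    field_simp
  have g1 := neg2_le hE hY
  have g2 := neg2_le hX hY
  have eX : ∀ u, L.X u = L.E u + 2 * L.zz u := fun u => by rw [Lyap.E]; ring
  simp only [f1, f2] at e1 e2
  rw [eu, eX, e2]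
  simp only [mX, mE, tS, sumI_eq, Int.add_def, Int.mul_def, Nat.add_eq, Nat.mul_eq,
    sum_range_succ, range_zero, sum_empty, zero_add] at g1 g2
  push_cast at g1 g2
  simp only [p2_eq, Fin.sum_univ_two, sum_range_succ, range_zero, sum_empty, zero_add, Fin.val_zero,
    Fin.val_one, pow_add _ _ (2 * s), pow_add _ _ (2 * D.sZ), pow_add _ _ D.sX, pow_mul',
    pow_succ _ D.sX] at g1 g2 e1 ⊢
  have p1 : (0 : ℝ) < 2 ^ s := by positivity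
  have p2 : (0 : ℝ) < 2 ^ (E + 9) := by positivity
  have p3 : (0 : ℝ) < 2 ^ D.sX := by positivity
  have p4 : (0 : ℝ) < 2 ^ D.sZ := by positivity
  generalize (2 : ℝ) ^ s = A at *
  generalize (2 : ℝ) ^ (E + 9) = B at *
  generalize (2 : ℝ) ^ D.sX = C at *
  generalize (2 : ℝ) ^ D.sZ = F at *
  have p : 0 < B ^ 2 * C * F ^ 2 * A ^ 2 := by positivity
  constructor
  · refine e1.trans (le_of_mul_le_mul_right (le_of_eq_of_le ?_ (g1.trans_eq ?_)) p)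
    · field_simp
      ring
    · ring
  · refine (add_le_add_left e1 _).trans
      (le_of_mul_le_mul_right (le_of_eq_of_le ?_ (g2.trans_eq ?_)) p)
    · field_simp
      ring
    · ring

/-- The same for the objects of the assembly. -/
theorem ini_obj (O : Ca.Obj) (hL : O.L.Good) {Q : ℕ → ℕ → ℕ → ℝ[X]}
    (hθ : ∀ d, Ca.In O.D.Ah d → O.θ d = Jf.thF d.2.1 (d.1 - 1) (Q d.1 d.2.1 d.2.2))
    {E s : ℕ} {W K : ℕ → ℕ} {t r : ℕ → ℕ → ℕ} {a : ℕ → ℕ → ℤ} {cm : ℕ → ℕ → ℕ → ℤ}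
    (hC : ∀ c < 2, ∀ m < 4, Vec (W c) (O.D.Ah.J 1 c) (K c) (r c m) (cm c m))
    (hQ : ∀ c < 2, ∀ j < O.D.Ah.J 1 c, ∃ N q, 4 ≤ N ∧ Q 1 c j = gS 2 N q ∧
      ∀ m < 4, q m = t c m * cm c m j / 2 ^ E)
    (h : chk O.D n W K t r E a s = true) : ∃ ψ σ : Fin 2 → Vc, (∀ k, Pot (-3) (ψ k) (σ k)) ∧
      (∀ v, O.L.E (pl (fun k => fld (ψ k) (σ k)) v) ≤ -K0.c0 * ∑ k, v k ^ 2) ∧
      ∀ v, O.L.X (pl (fun k => fld (ψ k) (σ k)) v) ≤ K0.C0 * ∑ k, v k ^ 2 :=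
  ini_dat hL (by norm_num [κ0]) O.ok rfl
    (fun a => hθ _ ⟨(Lay.mem_spec a.2).1, (Lay.mem_spec a.2).2.1⟩) (fun _ _ => rfl) (fun _ _ => rfl)
    hC hQ h

/-- The same for the stored data. -/
theorem ini_th (O : Ca.Obj) (hL : O.L.Good) {Th : ℕ → ℕ → Lib.KRad.Cm} (hθ : O.θ = Jf.th0 Th)
    {E s : ℕ} {a : ℕ → ℕ → ℤ}
    (h : chkT O.D n Th E a s = true) : ∃ ψ σ : Fin 2 → Vc, (∀ k, Pot (-3) (ψ k) (σ k)) ∧
      (∀ v, O.L.E (pl (fun k => fld (ψ k) (σ k)) v) ≤ -K0.c0 * ∑ k, v k ^ 2) ∧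
      ∀ v, O.L.X (pl (fun k => fld (ψ k) (σ k)) v) ≤ K0.C0 * ∑ k, v k ^ 2 := by
  obtain ⟨h1, h2⟩ := (bnd_iff _ _).1 h
  have k := fun c (hc : c < 2) => allR_spec h1 c c.zero_le hc
  simp only [bnd_iff, Nat.ble_eq] at k
  refine ini_obj O hL (Q := Jf.thQ Th) (fun _ _ => congrFun hθ _)
    (cm := fun c m j => Jf.col (Th 1 c) j m)
    (fun c hc m hm => (Jf.mat_raw (k c hc).1.1 _).2 m (by have := (k c hc).1.2; omega))
    (fun c hc j _ => ⟨16 * (Th 1 c).c, Jf.cI (Th 1 c).M (Th 1 c).E (Th 1 c).z (fun _ => 1)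
      (Jf.col (Th 1 c) j), by have := (k c hc).1.2; omega, ?_, fun m hm => ?_⟩) h2
  · rw [Jf.thQ, Jf.gQ, Jf.gP, gS]
    refine sum_congr rfl fun i _ => ?_
    rw [gf, ← mul_assoc, ← C_mul]
    congr 2
    simp only [Jf.cI]
    split_ifs <;> ring
  · have := Nat.le_of_ble_eq_true (allR_spec (k c hc).2 m m.zero_le hm)
    obtain ⟨e, rfl⟩ := Nat.exists_eq_add_of_le this
    simp only [Jf.cI, cnd_eq, Nat.ble_eq, shl_eq, Nat.add_eq, Nat.sub_eq, Nat.add_sub_cancel_left]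
    split_ifs
    · push_cast
      field_simp
      ring
    · simp

theorem ini0 (O : Ca.Obj) (hL : O.L.Good) {Th : ℕ → ℕ → Lib.KRad.Cm} (hθ : O.θ = Jf.th0 Th)
    (h : chk0 O.D Th = true) : ∃ ψ σ : Fin 2 → Vc, (∀ k, Pot (-3) (ψ k) (σ k)) ∧
      (∀ v, O.L.E (pl (fun k => fld (ψ k) (σ k)) v) ≤ -K0.c0 * ∑ k, v k ^ 2) ∧
      ∀ v, O.L.X (pl (fun k => fld (ψ k) (σ k)) v) ≤ K0.C0 * ∑ k, v k ^ 2 :=
  ini_th O hL hθ h

end Pool.Agent.Work.MP_6bf1e5_an.H.Ini
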