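import Pool.Agent.Work.MP_6bf1e5_an.H.JetA

/-! Null pairs that are only Lipschitz at the origin. -/

open scoped ContDiff ENNReal FourierTransform Real Topology
open Set MeasureTheory Polynomial Filter

namespace Pool.Agent.Work.MP_6bf1e5_an.H

noncomputable section

variable {k p n K : ℕ} {a b c w P : ℝ[X]} {y : R3} {ϑ ϑ' ζ : Vc} {r : ℝ}

theorem jb_ae : ∀ᵐ y : R3, y ≠ 0 := (countable_singleton (0 : R3)).ae_notMem volume

theorem jb_bd {m : ℝ} {f g : Sc} (h : Bd m f) (e : ∀ y ≠ 0, g y = f y) : Bd m g := by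
  obtain ⟨h1, C, h2⟩ := h
  refine ⟨h1.congr (jb_ae.mono fun y hy => (e y hy).symm), C, ?_⟩
  filter_upwards [h2, jb_ae] with y h hy
  rwa [e y hy]

theorem Null.congr_ne {ϑ ϑ' η η' : Vc} (h : Null n ϑ ϑ') (e : ∀ y ≠ 0, ∀ i, η i y = ϑ i y)
    (e' : ∀ y ≠ 0, ∀ i, η' i y = ϑ' i y) : Null n η η' := by
  refine ⟨fun i => jb_bd (h.bv i) fun y hy => e y hy i, fun i => jb_bd (h.bu i) fun y hy => e' y hy i,
    fun w hw hp => ?_⟩
  rw [← h.zero w hw hp]
  congr 1 <;> refine integral_congr_ae (jb_ae.mono fun y hy => ?_) <;> simp only [dot, e y hy, e' y hy]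

/-- The cut-off at the origin. -/
def jbE (K : ℕ) (r : ℝ) : Sc := fun y => (r * ‖y‖ ^ 2 / (1 + r * ‖y‖ ^ 2)) ^ K

/-- Its radial derivative. -/
def jbG (K : ℕ) (r : ℝ) : Sc := fun y => 2 * K * jbE K r y / (1 + r * ‖y‖ ^ 2)

theorem jbE_smooth (hr : 0 < r) : ContDiff ℝ ∞ (jbE K r) :=
  ((contDiff_const.mul (contDiff_norm_sq ℝ)).div (contDiff_const.add
    (contDiff_const.mul (contDiff_norm_sq ℝ))) fun _ => by positivity).pow K

theorem jbE_pd (hr : 0 < r) (j : Fin 3) (y : R3) :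
    ‖y‖ ^ 2 * pd j (jbE K r) y = jbG K r y * y j := by
  have h0 : 1 + r * ‖y‖ ^ 2 ≠ 0 := by positivity
  have h := ((((hasDerivAt_id (‖y‖ ^ 2)).const_mul r).div
    (((hasDerivAt_id (‖y‖ ^ 2)).const_mul r).const_add 1) h0).pow K).comp_hasFDerivAt y
    (hasStrictFDerivAt_norm_sq y).hasFDerivAt
  rw [pd, show fderiv ℝ (jbE K r) y = _ from h.fderiv]
  cases K <;> simp [jbG, jbE, pow_succ, EuclideanSpace.inner_single_right]
  field_simp
  ring

theorem jb_lim (hv : ∀ i, Bd (-3) (ϑ i)) (hu : ∀ i, Bd (-4) (ϑ' i)) (hz : ∀ i, Bd (-4) (ζ i))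
    (h : ∀ r > 0, Null n (sm (jbE K r) ϑ) (sm (jbE K r) ϑ' + sm (jbG K r) ζ)) : Null n ϑ ϑ' := by
  refine ⟨hv, hu, fun w hw hp => ?_⟩
  have hc := Dyn.hinf_curl hw.hinf
  have i1 := md_int_dot hc hv (by norm_num)
  have i2 := md_int_dot hw.hinf hu (by norm_num)
  have i3 := md_int_dot hw.hinf hz (by norm_num)
  have pr : ∀ j : ℕ, (0 : ℝ) < j + 1 := fun j => by positivity
  have e1 : ∀ (j : ℕ) y, 0 ≤ jbE K (j + 1) y ∧ jbE K (j + 1) y ≤ 1 := fun j y =>
    ⟨by unfold jbE; positivity, pow_le_one₀ (by positivity)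
      ((div_le_one (by positivity)).2 (by linarith))⟩
  have e2 : ∀ (j : ℕ) y, 0 ≤ jbG K (j + 1) y ∧ jbG K (j + 1) y ≤ 2 * K := fun j y =>
    ⟨by have := (e1 j y).1; unfold jbG; positivity, (div_le_self (by have := (e1 j y).1; positivity)
      (le_add_of_nonneg_right (by positivity))).trans
        (mul_le_of_le_one_right (by positivity) (e1 j y).2)⟩
  have m1 := fun j : ℕ => (jbE_smooth (K := K) (pr j)).continuous
  have m2 : ∀ j : ℕ, Continuous (jbG K (j + 1)) := fun j => (continuous_const.mul (m1 j)).div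
    (by fun_prop) fun _ => by positivity
  have t := tendsto_integral_of_dominated_convergence (μ := volume)
    (F := fun (j : ℕ) y => jbE K (j + 1) y * (dot (curl w) ϑ y + dot w ϑ' y)
      + jbG K (j + 1) y * dot w ζ y) (f := fun y => dot (curl w) ϑ y + dot w ϑ' y)
    (fun y => ‖dot (curl w) ϑ y + dot w ϑ' y‖ + 2 * K * ‖dot w ζ y‖)
    (fun j => ((m1 j).aestronglyMeasurable.mul (i1.add i2).1).add
      ((m2 j).aestronglyMeasurable.mul i3.1)) ((i1.add i2).norm.add (i3.norm.const_mul _))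
    (fun j => .of_forall fun y => by
      refine (norm_add_le _ _).trans ?_
      rw [norm_mul, norm_mul, Real.norm_of_nonneg (e1 j y).1, Real.norm_of_nonneg (e2 j y).1]
      exact add_le_add (mul_le_of_le_one_left (norm_nonneg _) (e1 j y).2)
        (mul_le_mul_of_nonneg_right (e2 j y).2 (norm_nonneg _)))
    (jb_ae.mono fun y hy => by
      have z : 0 < ‖y‖ ^ 2 := by positivity
      have l0 : Tendsto (fun j : ℕ => (1 + ((j : ℝ) + 1) * ‖y‖ ^ 2)⁻¹) atTop (𝓝 0) :=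
        tendsto_inv_atTop_zero.comp (tendsto_atTop_add_const_left _ _ ((tendsto_atTop_add_const_right
          _ _ tendsto_natCast_atTop_atTop).atTop_mul_const z))
      have l1 : Tendsto (fun j : ℕ => jbE K (j + 1) y) atTop (𝓝 1) := by
        have := (l0.const_sub 1).pow K
        rw [sub_zero, one_pow] at this
        refine this.congr fun j => ?_
        rw [jbE]
        congr 1
        field_simp
        ring
      have := (l1.mul_const (dot (curl w) ϑ y + dot w ϑ' y)).add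
        (((l1.const_mul (2 * K : ℝ)).mul l0).mul_const (dot w ζ y))
      simpa [jbG, div_eq_mul_inv] using this)
  have z : ∀ j : ℕ, ∫ y, (jbE K (j + 1) y * (dot (curl w) ϑ y + dot w ϑ' y)
      + jbG K (j + 1) y * dot w ζ y) = 0 := fun j => by
    rw [← (h _ (pr j)).zero w hw hp, ip, ip, ← integral_add
      (md_int_dot hc (h _ (pr j)).bv (by norm_num))
      (md_int_dot hw.hinf (h _ (pr j)).bu (by norm_num))]
    refine integral_congr_ae (.of_forall fun y => ?_)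
    simp only [dot, sm, Pi.add_apply, Fin.sum_univ_three]
    ring
  simp only [z] at t
  rw [ip, ip, ← integral_add i1 i2]
  exact tendsto_nhds_unique t tendsto_const_nhds ▸ rfl

theorem jb_diff {f V : Sc} (hV : ContDiff ℝ ∞ V) (e : ∀ y ≠ 0, V y = jbE K 1 y * f y) (hy : y ≠ 0) :
    DifferentiableAt ℝ f y := by
  have h0 : ∀ z : R3, z ≠ 0 → jbE K 1 z ≠ 0 := fun z hz => by
    unfold jbE
    positivity
  refine ((Dyn.dynCalc_d hV y).mul
    ((Dyn.dynCalc_d (jbE_smooth one_pos) y).inv (h0 y hy))).congr_of_eventuallyEq ?_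
  filter_upwards [isOpen_ne.mem_nhds hy] with z hz
  simp only [Pi.mul_apply, Pi.inv_apply, e z hz]
  field_simp [h0 z hz]

theorem jb_curl (hv : ∀ i, Bd (-3) (ϑ i)) (hu : ∀ i, Bd (-4) (ϑ' i)) (hz : ∀ i, Bd (-4) (ζ i))
    (hc : ∀ y ≠ 0, ∀ i, curl ϑ i y = -ϑ' i y)
    (hx : ∀ y ≠ 0, ∀ i, cross pos ϑ i y = -(‖y‖ ^ 2 * ζ i y))
    (hs : ∀ r > 0, ∃ V : Vc, (∀ i, Sym (-3) (V i)) ∧ ∀ y ≠ 0, ∀ i, V i y = jbE K r y * ϑ i y) :
    Null n ϑ ϑ' := by
  obtain ⟨U, hU, eU⟩ := hs 1 one_pos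
  refine jb_lim (K := K) hv hu hz fun r hr => ?_
  obtain ⟨V, hV, eV⟩ := hs r hr
  refine (Null.of_curl hV).congr_ne (fun y hy i => (eV y hy i).symm) fun y hy i => ?_
  have z : ‖y‖ ^ 2 ≠ 0 := by positivity
  have := hx y hy i
  rw [Pi.neg_apply, Pi.neg_apply, curl_congr_ne (W := sm (jbE K r) ϑ) eV hy, sp_curl_sm
    (Dyn.dynCalc_d (jbE_smooth hr) y) fun i => jb_diff (hU i).1 (fun y hy => eU y hy i) hy,
    hc y hy]
  refine mul_left_cancel₀ z ?_
  simp only [cross, pos, grad, sm, Pi.add_apply] at this ⊢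
  linear_combination ϑ (i + 2) y * jbE_pd hr (i + 1) y - ϑ (i + 1) y * jbE_pd hr (i + 2) y
    + jbG K r y * this

theorem jb_grad {φ : Sc} (hu : ∀ i, Bd (-4) (ϑ' i)) (hz : ∀ i, Bd (-4) (ζ i))
    (hc : ∀ y ≠ 0, ∀ i, grad φ i y = ϑ' i y) (hx : ∀ y ≠ 0, ∀ i, φ y * y i = ‖y‖ ^ 2 * ζ i y)
    (hs : ∀ r > 0, ∃ V : Sc, Sym (-3) V ∧ ∀ y ≠ 0, V y = jbE K r y * φ y) : Null n 0 ϑ' := by
  obtain ⟨U, hU, eU⟩ := hs 1 one_pos
  refine jb_lim (K := K) (fun _ => bd_zero _) hu hz fun r hr => ?_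
  obtain ⟨V, hV, eV⟩ := hs r hr
  refine (Null.of_gradu hV).congr_ne (fun y hy i => mul_zero _) fun y hy i => ?_
  have z : ‖y‖ ^ 2 ≠ 0 := by positivity
  have e : pd i V y = pd i (fun z => jbE K r z * φ z) y := by
    unfold pd
    rw [Filter.EventuallyEq.fderiv_eq ((isOpen_ne.eventually_mem hy).mono eV)]
  have h1 := hc y hy i
  simp only [grad, sm, Pi.add_apply] at h1 ⊢
  rw [e, sp_pd_mul (Dyn.dynCalc_d (jbE_smooth hr) y) (jb_diff hU.1 eU hy), h1]
  refine mul_left_cancel₀ z ?_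
  linear_combination -φ y * jbE_pd hr i y - jbG K r y * hx y hy i

/-- The profile times the cut-off. -/
def jbR (K p : ℕ) (r : ℝ) (P : ℝ[X]) : ℝ → ℝ := fun z => r ^ K * (tF r (4 * K) 1 z * tF 1 p P z)

theorem jbR_sym (hr : 0 < r) : Sym (-(2 * K) - p / 2) (rad (jbR K p r P)) :=
  md_sym_mono (md_sym_cmul (md_sym_mul (sym_tF (P := 1) (e := 4 * K) hr)
    (sym_tF (P := P) (e := p) one_pos)) (r ^ K)) (by linarith)

theorem jbR_eq (hr : 0 < r) (hy : y ≠ 0) :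
    jbR K p r P (‖y‖ ^ 2) = jbE K r y * sF K p P (‖y‖ ^ 2) := by
  have h0 : 0 < 1 + r * ‖y‖ ^ 2 := by positivity
  have z : ‖y‖ ^ 2 ≠ 0 := by positivity
  have : tF r (4 * K) 1 (‖y‖ ^ 2) = ((1 + r * ‖y‖ ^ 2) ^ K)⁻¹ := by
    rw [tF, eval_one, mul_one, Real.rpow_neg h0.le, mul_div_cancel_left₀ _ four_ne_zero,
      Real.rpow_natCast]
  rw [jbR, jbE, sF, this, div_pow, mul_pow]
  field_simp

theorem jb_sF (hy : y ≠ 0) : ‖y‖ ^ 2 * sF (k + 1) p P (‖y‖ ^ 2) = sF k p P (‖y‖ ^ 2) := by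
  have z : ‖y‖ ^ 2 ≠ 0 := by positivity
  rw [sF, sF, pow_succ _ k]
  field_simp

theorem jb_q (y : R3) : sF k 6 (qX * w) (‖y‖ ^ 2) = ‖y‖ ^ 2 * sF k 10 w (‖y‖ ^ 2) := by
  have := mul_tF (a := 1) (e := 6) (P := w) (z := ‖y‖ ^ 2) one_pos
    (lt_of_lt_of_le (by norm_num) (sq_nonneg _))
  rw [sF, sF, qX, Nat.cast_ofNat, Nat.cast_ofNat, ← this, one_mul, mul_div_assoc]
  norm_num

theorem jb_C (r : ℝ) (z : ℝ) : sF k p (C r * P) z = r * sF k p P z := by
  simp only [sF, tF, eval_mul, eval_C]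
  ring

theorem jb_bT (c : ℝ[X]) (i : Fin 3) : Bd (-4) (jT k 8 c i) := (bd_jT i).mono (by norm_num)

theorem jb_bM (a b : ℝ[X]) (i : Fin 3) : Bd (-4) (jM k 8 a b i) := (bd_jM i).mono (by norm_num)

theorem null_jM : Null n (jM k 6 a b) (jT k 8 (a - C (1 / 2) * LX (-4) 8 b)) := by
  refine jb_curl (K := k + 1) (fun i => (bd_jM i).mono (by norm_num)) (jb_bT _)
    (jb_bT (k := k) (C (-1) * b))
    (fun y hy i => ?_) (fun y hy i => ?_) fun r hr => ⟨mer (2 * k + 2)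
      (fun z => z * jbR (k + 1) 8 r b z) (jbR (k + 1) 8 r (a - C (2 * k + 2 : ℝ) * b)),
      fun i => md_sym_mono (sym_mer (m := -(2 * k) - 4) ?_
        (md_sym_mono (jbR_sym hr) (by push_cast; linarith)) i) (by push_cast; linarith),
      fun y hy i => ?_⟩
  · rw [curl_jM hy, ← neg_one_mul, ← jT_C]
    norm_num
  · rw [jT_C, jM, cross_pos_mer, jT, sp_tor_apply, sp_tor_apply, ← jb_sF hy]
    ring
  · exact md_sym_mono (md_sym_mul hom_normsq.sym (jbR_sym (K := k + 1) (p := 8) (P := b) hr))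
      (by push_cast; linarith)
  · simp only [jM, sp_mer_apply, jbR_eq hr hy, ← jb_sF (k := k) hy]
    ring

theorem null_jT : Null n (jT k 6 (qX * w))
    (jM k 8 (C (lK k) * w) (C (1 / 2) * LX (-4) 10 w)) := by
  refine jb_curl (K := k + 1) (fun i => (bd_jT i).mono (by norm_num)) (jb_bM _ _)
    (jb_bM (k := k) 0 w)
    (fun y hy i => ?_) (fun y hy i => ?_) fun r hr => ⟨tor (2 * k + 2) (jbR (k + 1) 6 r (qX * w)),
      fun i => md_sym_mono (sym_tor (jbR_sym hr) i) (by push_cast; linarith), fun y hy i => ?_⟩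
  · rw [curl_jT hy, ← neg_one_mul (jM _ _ _ _ _ _), ← jM_C, ← mul_assoc, ← mul_assoc, ← C_mul, ← C_mul]
    norm_num
  · rw [jT, cross_pos_tor, jM, zero_sub, ← neg_mul _ w, ← C_neg]
    simp only [sp_mer_apply, jb_q, jb_C, ← jb_sF (k := k) hy]
    push_cast
    ring
  · simp only [jT, sp_tor_apply, jbR_eq hr hy]
    ring

theorem null_jS : Null n 0 (jM k 8 (C (1 / 2) * LX (-6) 10 w) w) := by
  refine jb_grad (K := k + 1) (φ := jS k 6 (qX * w)) (jb_bM _ _) (jb_bM (k := k) w 0)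
    (fun y hy i => ?_) (fun y hy i => ?_) fun r hr => ⟨rad (jbR (k + 1) 6 r (qX * w)) * Hl (2 * k + 2),
      md_sym_mono (md_sym_mul (jbR_sym hr) (hom_Hl _).sym) (by push_cast; linarith), fun y hy => ?_⟩
  · rw [grad_jS hy]
    norm_num
  · simp [jS, jM, rad, sp_mer_apply, jb_q, show sF k 10 0 = 0 from funext fun z => by simp [sF, tF]]
    ring
  · simp only [jS, rad, Pi.mul_apply, jbR_eq hr hy]
    ring

theorem jb_sub (s : ℝ) (hs : s ≠ 0) (P : ℝ[X]) : ∃ Q : ℝ[X], Q.natDegree ≤ P.natDegree ∧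
    C s * X ^ k * (1 - X) ^ k * Q.comp (2 * X - 1) = X ^ k * (1 - X) ^ k * P := by
  refine ⟨C s⁻¹ * P.comp (C (1 / 2) * (X + 1)), (natDegree_C_mul_le _ _).trans
    (natDegree_comp_le.trans (mul_le_of_le_one_right' (by compute_degree))), ?_⟩
  have h : C (1 / 2 : ℝ) * 2 = 1 := by
    rw [← map_ofNat C 2, ← C_mul]
    norm_num
  have h' : C s * C s⁻¹ = 1 := by rw [← C_mul, mul_inv_cancel₀ hs, C_1]
  rw [mul_comp, C_comp, comp_assoc, mul_comp, C_comp, add_comp, X_comp, one_comp, sub_add_cancel,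
    ← mul_assoc _ 2, h, one_mul, comp_X]
  linear_combination X ^ k * (1 - X) ^ k * P * h'

theorem null_uT (h : 2 * k + 2 + P.natDegree ≤ n) :
    Null n 0 (jT k 8 (X ^ 5 * (qX * (X ^ k * (1 - X) ^ k * P).comp qX))) := by
  obtain ⟨Q, hQ, e⟩ := jb_sub (k := k) ((2 : ℝ) ^ ((2 * k + 2 : ℕ) + (9 : ℕ) / 4 : ℝ))
    (by positivity) P
  have := Null.of_u (n := n) (test_tO (l := 2 * k + 2) (P := Q) (9 / 4) (by omega))
  rw [← jT_pow, ← e, ← tO_jT (p := 9)]
  exact_mod_cast this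

theorem null_uM (h : 2 * k + 2 + P.natDegree ≤ n + 1) :
    Null n 0 (jM k 8 (C (2 * k + 2 : ℝ) * (X ^ 3 * (X ^ k * (1 - X) ^ k * P).comp qX))
      (X ^ 3 * (X ^ k * (1 - X) ^ k * P).comp qX)) := by
  obtain ⟨Q, hQ, e⟩ := jb_sub (k := k) ((2 : ℝ) ^ ((2 * k + 2 : ℕ) + 5 / 4 : ℝ)) (by positivity) P
  have := Null.of_u (n := n) (test_mO (l := 2 * k + 1) (P := Q) (P' := 0) (9 / 4)
    (Or.inr (by omega)) (Or.inl rfl))
  rw [mul_zero, show ((2 * k + 1 : ℕ) : ℝ) + 9 / 4 = (2 * k + 2 : ℕ) + 5 / 4 by push_cast; ring]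
    at this
  rw [mul_left_comm, ← jM_pow, ← e, ← mO_jM]
  exact this

/-- The tests of class zero: `a`, `b` are arbitrary. -/
theorem null_zero (h : 2 * k + 2 + P.natDegree ≤ n) : Null n (jM k 6 a b)
    (jT k 8 (a - C (1 / 2) * LX (-4) 8 b
      + X ^ 5 * (qX * (X ^ k * (1 - X) ^ k * P).comp qX))) := by
  simpa only [add_zero, ← jT_add] using (null_jM (k := k) (a := a) (b := b)).add (null_uT h)

/-- The tests of class one: `w`, `b` are arbitrary. -/
theorem null_one (h : 2 * k + 2 + P.natDegree ≤ n + 1)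
    (hc : c = X ^ 3 * (X ^ k * (1 - X) ^ k * P).comp qX) : Null n (jT k 6 (qX * w))
    (jM k 8 (C (lK k) * w + C (2 * k + 2 : ℝ) * c
      + C (1 / 2) * LX (-6) 10 (b - C (1 / 2) * LX (-4) 10 w - c)) b) := by
  have := ((null_jT (k := k) (w := w)).add (null_uM h)).add
    (null_jS (k := k) (w := b - C (1 / 2) * LX (-4) 10 w - c))
  rw [← hc, add_zero, add_zero, ← jM_add, ← jM_add] at this
  convert this using 2
  ring

end

end Pool.Agent.Work.MP_6bf1e5_an.H
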