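import Pool.Agent.Work.MP_6bf1e5_an.H.SkExt

/-! The Galerkin family with arbitrary radial profiles. -/

open scoped ContDiff ENNReal FourierTransform Real
open Set MeasureTheory Polynomial

namespace Pool.Agent.Work.MP_6bf1e5_an.H

noncomputable section

/-- The blocks of modes: type and angular degree. -/
structure Blk (n : ℕ) where
  nb : ℕ
  pol : Fin nb → Bool
  l : Fin nb → ℕ

variable {n : ℕ}

/-- The number of modes in a block. -/
def Blk.sz (G : Blk n) (b : Fin G.nb) : ℕ := n + (if G.pol b then 1 else 0) + 1 - G.l b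

/-- The index set of the modes. -/
abbrev Blk.I (G : Blk n) : Type := (b : Fin G.nb) × Fin (G.sz b)

/-- Every admissible pair of type and degree is a block. -/
def Blk.Full (G : Blk n) : Prop :=
  (∀ b, 2 ≤ G.l b ∧ G.l b % 2 = 0) ∧
  ∀ (pol : Bool) (l : ℕ), 2 ≤ l → l % 2 = 0 → l ≤ n + (if pol then 1 else 0) →
    ∃ b, G.pol b = pol ∧ G.l b = l

/-- The base mode: one harmonic. -/
def base (pol : Bool) (l m : ℕ) : Mode := ⟨pol, l, m + 1, fun m' => if m' = m then 1 else 0⟩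

/-- The velocity with potential profile `g`. -/
def vel (pol : Bool) (l : ℕ) (g : ℝ → ℝ) : Vc := if pol then curl (tor l g) else tor l g

/-- The velocities of the modes. -/
def Blk.u (G : Blk n) (ξ : G.I → ℝ → ℝ) (j : G.I) : Vc := vel (G.pol j.1) (G.l j.1) (ξ j)

/-- The coefficients on the base modes of the block. -/
def Blk.A (G : Blk n) (ξ : G.I → ℝ → ℝ) (b : Fin G.nb) : Matrix (Fin (G.sz b)) (Fin (G.sz b)) ℝ :=
  fun m m' => prj (G.l b) (ξ ⟨b, m⟩) m'

/-- The low graded parts of the vorticities of the modes. -/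
def Blk.Y (G : Blk n) (ξ : G.I → ℝ → ℝ) (j : G.I) (k : ℕ) : Vc :=
  lc (G.A ξ j.1 j.2) fun m' => (base (G.pol j.1) (G.l j.1) m').gr k

/-- Admissible profiles. -/
def Blk.OK (G : Blk n) (ξ : G.I → ℝ → ℝ) : Prop :=
  ∀ j, RadS (ξ j) ∧ Sym ((if G.pol j.1 then -1 else -2) - G.l j.1) (rad (ξ j))

variable {pol : Bool} {l M : ℕ} {g : ℝ → ℝ}

theorem skg_pot (pol : Bool) (l M : ℕ) (B : ℕ → ℝ) : Mode.pot ⟨pol, l, M, B⟩ =
    lc (fun m : Fin M => B m) fun m => (base pol l m).pot := by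
  funext i y
  simp only [Mode.pot, lc, base, ite_mul, one_mul, zero_mul, Finset.sum_ite_eq',
    Finset.self_mem_range_succ, if_true, Finset.mul_sum]
  rw [Finset.sum_range]
  exact Finset.sum_congr rfl fun m _ => by ring

theorem skg_lpot (pol : Bool) (l M : ℕ) (B : ℕ → ℝ) : Mode.lpot ⟨pol, l, M, B⟩ =
    lc (fun m : Fin M => B m) fun m => (base pol l m).lpot := by
  funext i y
  simp only [Mode.lpot, lc, base, ite_mul, one_mul, zero_mul, Finset.sum_ite_eq',
    Finset.self_mem_range_succ, if_true, Finset.mul_sum]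
  rw [Finset.sum_range]
  exact Finset.sum_congr rfl fun m _ => by ring

theorem skg_curl {ι : Type} [Fintype ι] (c : ι → ℝ) {V : ι → Vc}
    (h : ∀ j i, ContDiff ℝ ∞ (V j i)) : curl (lc c V) = lc c fun j => curl (V j) :=
  md_curl_lin Finset.univ c fun j _ => h j

theorem skg_u (pol : Bool) (l M : ℕ) (B : ℕ → ℝ) : Mode.u ⟨pol, l, M, B⟩ =
    lc (fun m : Fin M => B m) fun m => (base pol l m).u := by
  have h : ∀ (m : Fin M) i, ContDiff ℝ ∞ ((base pol l m).pot i) := fun m i => by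
    rw [Mode.pot_eq]
    exact (sym_tO i).1
  cases pol
  · exact skg_pot false l M B
  · exact (congrArg curl (skg_pot true l M B)).trans (skg_curl _ h)

theorem skg_lp (pol : Bool) (l M : ℕ) (B : ℕ → ℝ) : Mode.lp ⟨pol, l, M, B⟩ =
    lc (fun m : Fin M => B m) fun m => (base pol l m).lp := by
  have h : ∀ (m : Fin M) i, ContDiff ℝ ∞ ((base pol l m).lpot i) := fun m i => by
    rw [Mode.lpot_eq]
    exact (sym_tO i).1
  have e := (congrArg curl (skg_lpot pol l M B)).trans (skg_curl _ h)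
  cases pol
  · exact e
  · exact (congrArg curl e).trans (skg_curl _ fun m => Dyn.curl_smooth (h m))

theorem skg_adm (hg : RadS g) (hs : Sym ((if pol then -1 else -2) - l) (rad g)) (hl : l % 2 = 0) :
    Adm (vel pol l g) ∧ (∀ i, Sym (-2) (vel pol l g i)) ∧ ∀ i, Sym (-1) (tor l g i) := by
  cases pol
  · have h : ∀ i, Sym (-2) (tor l g i) := fun i => md_sym_mono (sym_tor hs i) (by simp)
    exact ⟨adm_tor hg hs hl (by simp), h, fun i => md_sym_mono (h i) (by norm_num)⟩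
  · have h := adm_curl_tor hg hs hl (by simp)
    exact ⟨h.1, h.2, fun i => md_sym_mono (sym_tor hs i) (by simp)⟩

theorem skg_res (pol : Bool) (l M : ℕ) (g : ℝ → ℝ) :
    tor l (res l M g) = tor l g - Mode.pot ⟨pol, l, M, prj l g⟩ := by
  funext i y
  rw [Mode.pot_eq]
  simp only [tO, sp_tor_apply, res, Pi.sub_apply, sub_mul]

theorem skg_radS (hg : RadS g) : RadS (res l M g) := by
  obtain ⟨a, ha, h⟩ := hg
  obtain ⟨b, hb, h'⟩ := radS_omF (e := l + 3 / 4)
    (P := ∑ m ∈ Finset.range M, C (prj l g m) * geg (2 * l + 2) m)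
  exact ⟨min a b, lt_min ha hb,
    (h.mono (Ioi_subset_Ioi (neg_le_neg (min_le_left a b)))).sub
      (h'.mono (Ioi_subset_Ioi (neg_le_neg (min_le_right a b))))⟩

/-- The velocity minus its projection on the base modes is a tail. -/
theorem skg_perp (hg : RadS g) (hs : ∀ i, Sym (-1) (tor l g i)) (hl : 2 ≤ l) (hl' : l % 2 = 0)
    (hM : ∀ m, l + m ≤ n + (if pol then 1 else 0) → m < M) (i : Fin 3) :
    Perp (9 / 4) (n + 1) ((vel pol l g - Mode.u ⟨pol, l, M, prj l g⟩) i) := by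
  have hp := Mode.sym_pot ⟨pol, l, M, prj l g⟩ hl
  have hr : ∀ i, Sym (-1) (tor l (res l M g) i) := fun i => by
    rw [skg_res pol]
    exact md_sym_sub (hs i) (md_sym_mono (hp i) (by norm_num))
  have h0 := fun m hm => ip_res hg hs (by omega) (hM m hm)
  cases pol
  · have h := perp_tor (skg_radS hg) hr hl' h0 i
    rwa [skg_res false] at h
  · have h := perp_curl_tor (skg_radS hg) hr hl' h0 i
    rwa [skg_res true, Dyn.curl_sub (fun i => (hs i).1) fun i => (hp i).1] at h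

theorem skg_sz {G : Blk n} (b : Fin G.nb) (m : ℕ)
    (h : G.l b + m ≤ n + (if G.pol b then 1 else 0)) : m < G.sz b := by
  unfold Blk.sz
  omega

theorem skg_spans {G : Blk n} (hG : G.Full) :
    Spans n fun j : G.I => base (G.pol j.1) (G.l j.1) j.2 := by
  refine ⟨fun j => hG.1 j.1, fun pol l m h1 h2 h3 => ?_⟩
  obtain ⟨b, rfl, rfl⟩ := hG.2 pol l h1 h2 (by omega)
  refine ⟨⟨b, m, skg_sz b m h3⟩, rfl, rfl, Nat.lt_succ_self m, ?_, fun m' hm => if_neg hm.ne⟩
  simp [base]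

theorem skg_lc {G : Blk n} (A : ∀ b, Matrix (Fin (G.sz b)) (Fin (G.sz b)) ℝ) (j : G.I)
    (V : G.I → Vc) : lc (Matrix.blockDiagonal' A j) V = lc (A j.1 j.2) fun m => V ⟨j.1, m⟩ := by
  obtain ⟨b, m⟩ := j
  funext i y
  rw [lc, Fintype.sum_sigma, Fintype.sum_eq_single b fun b' hb => Finset.sum_eq_zero fun m' _ => by
    rw [Matrix.blockDiagonal'_apply_ne _ _ _ hb.symm, zero_mul]]
  simp only [Matrix.blockDiagonal'_apply_eq, lc]

theorem skg_det {G : Blk n} {A : ∀ b, Matrix (Fin (G.sz b)) (Fin (G.sz b)) ℝ}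
    (hA : ∀ b, (A b).det ≠ 0) : (Matrix.blockDiagonal' A).det ≠ 0 := by
  refine Matrix.det_ne_zero_of_right_inverse (B := Matrix.blockDiagonal' fun b => (A b)⁻¹) ?_
  rw [← Matrix.blockDiagonal'_mul, ← Matrix.blockDiagonal'_one]
  exact congrArg _ (funext fun b => Matrix.mul_nonsing_inv _ (hA b).isUnit)

theorem skg_ip {ι : Type} [Fintype ι] (c : ι → ℝ) {V : ι → Vc} {θ : Vc}
    (h : ∀ j, Integrable (dot (V j) θ)) : ip (lc c V) θ = ∑ j, c j * ip (V j) θ := by
  have e : dot (lc c V) θ = fun y => ∑ j, c j * dot (V j) θ y := by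
    funext y
    simp only [dot, lc, Finset.sum_mul, Finset.mul_sum, mul_assoc]
    exact Finset.sum_comm
  rw [ip, e, integral_finsetSum _ fun j _ => (h j).const_mul _]
  simp only [integral_const_mul, ip]

/-- The dissipation of a tail does not see the low test fields. -/
theorem skg_lam {u p θ : Vc} (hn : 1 ≤ n) (hu : ∀ i, Hinf (u i)) (hp : ∀ i, Hinf (p i))
    (h : ∀ i, Perp (9 / 4) (n + 1) ((u - p) i)) (hθ : ∀ i, Hinf (θ i)) (ht : Test (3 / 4) n θ) :
    ip (LamV (curl u)) θ = ip (LamV (curl p)) θ := by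
  have hu' := Dyn.hinf_curl hu
  have hp' := Dyn.hinf_curl hp
  have hr : ∀ i, Hinf ((u - p) i) := fun i => Dyn.hinf_sub (hu i) (hp i)
  have hq : ∀ i j, pd j ((u - p) i) ∈ GalQ n := fun i j =>
    ⟨((hr i).pd j).bd, Perp.pd (by norm_num) (hr i) (h i) j⟩
  rw [Dyn.ip_eq (V := LamV _) (fun i => Dyn.hinf_lam (hu' i)) hθ,
    Dyn.ip_eq (V := LamV _) (fun i => Dyn.hinf_lam (hp' i)) hθ]
  refine Finset.sum_congr rfl fun i _ => ?_
  obtain ⟨g, hg, e⟩ := ht i
  obtain ⟨g', hg', e'⟩ := hg.lam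
  have h1 := Dp_symm (hu' i) (hθ i) (s := 3 / 2) (by norm_num)
  have h2 := Dp_symm (hp' i) (hθ i) (s := 3 / 2) (by norm_num)
  have h3 : Dp (3 / 2) (θ i) = Op (9 / 4) * g' := e ▸ e'
  have h4 : Perp (9 / 4) n (curl (u - p) i) := ((GalQ n).sub_mem (hq _ _) (hq _ _)).2
  have h5 := h4 (n - 1) (by omega) g' hg'
  rw [Dyn.curl_sub (fun i => (hu i).1) fun i => (hp i).1] at h5
  simp only [Pi.sub_apply, sub_mul] at h5
  rw [integral_sub (Gal_int_test (hu' i).bd hg') (Gal_int_test (hp' i).bd hg'), sub_eq_zero] at h5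
  rw [h3] at h1 h2
  exact h1.trans (h5.trans h2.symm)

theorem gal_data {G : Blk n} (hG : G.Full) {ξ : G.I → ℝ → ℝ} (hξ : G.OK ξ)
    (hA : ∀ b, (G.A ξ b).det ≠ 0) : Gal n (G.u ξ) (G.Y ξ) := by
  have ha := fun j => skg_adm (hξ j).1 (hξ j).2 (hG.1 j.1).2
  have h := (gal_modes (skg_spans hG)).mix (u := G.u ξ) (fun j => (ha j).1) (fun j => (ha j).2.1)
    (Matrix.blockDiagonal' (G.A ξ)) (fun j i => by
      have h := skg_perp (hξ j).1 (ha j).2.2 (hG.1 j.1).1 (hG.1 j.1).2 (skg_sz j.1) i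
      rw [skg_u] at h
      rw [skg_lc]
      exact h) (skg_det hA)
  simp only [skg_lc] at h
  exact h

/-- The dissipation term of `Tab.k` only sees the base modes. -/
theorem ip_lam_data {G : Blk n} (hG : G.Full) {ξ : G.I → ℝ → ℝ} (hξ : G.OK ξ) (hn : 1 ≤ n) {θ : Vc}
    (hθ : Test (3 / 4) n θ) (hs : ∀ i, Sym (-3) (θ i)) (j : G.I) :
    ip (LamV (curl (G.u ξ j))) θ =
      ∑ m', G.A ξ j.1 j.2 m' * ip (base (G.pol j.1) (G.l j.1) m').lp θ := by
  obtain ⟨hl, hl'⟩ := hG.1 j.1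
  have ha := skg_adm (hξ j).1 (hξ j).2 hl'
  have hr := skg_perp (hξ j).1 ha.2.2 hl hl' (skg_sz j.1)
  have ht : ∀ i, Hinf (θ i) := fun i => (hs i).hinf (by norm_num)
  have hh : ∀ M B i, Hinf (Mode.u ⟨G.pol j.1, G.l j.1, M, B⟩ i) := fun M B =>
    (Mode.adm _ hl hl').hinf
  rw [Blk.u, skg_lam hn ha.1.hinf (hh _ _) hr ht hθ, Mode.lam_curl _ hl, skg_lp]
  refine skg_ip _ fun m => ?_
  rw [← Mode.lam_curl _ hl]
  exact integrable_finsetSum _ fun i _ =>
    Dyn.int_mul (Dyn.hinf_lam (Dyn.hinf_curl (hh _ _) i)) (ht i)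

/-- Invertibility from scaled diagonal dominance. -/
theorem det_ne_of_dom {k : ℕ} (A : Matrix (Fin k) (Fin k) ℝ) (w : Fin k → ℝ)
    (h : ∀ m, ∑ m' ∈ Finset.univ.erase m, |A m m' * w m'| < |A m m * w m|) : A.det ≠ 0 := by
  have h1 := det_ne_zero_of_sum_row_lt_diag (A := A * Matrix.diagonal w) fun m => by
    simpa only [Matrix.mul_diagonal, Real.norm_eq_abs] using h m
  rw [Matrix.det_mul] at h1
  exact left_ne_zero_of_mul h1

/-- Invertibility from an approximate inverse. -/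
theorem det_ne_of_inv {k : ℕ} (A C : Matrix (Fin k) (Fin k) ℝ)
    (h : ∀ m, ∑ m', |(A * C - 1) m m'| < 1) : A.det ≠ 0 := by
  have h1 := det_ne_zero_of_sum_row_lt_diag (A := A * C) fun m => by
    have h2 := h m
    rw [← Finset.add_sum_erase _ _ (Finset.mem_univ m), Finset.sum_congr rfl fun m' hm => by
      rw [Matrix.sub_apply, Matrix.one_apply_ne (Finset.ne_of_mem_erase hm).symm, sub_zero],
      Matrix.sub_apply, Matrix.one_apply_eq] at h2
    have h3 := abs_sub_abs_le_abs_sub 1 ((A * C) m m)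
    rw [abs_one, abs_sub_comm] at h3
    simp only [Real.norm_eq_abs]
    linarith
  rw [Matrix.det_mul] at h1
  exact left_ne_zero_of_mul h1

end

end Pool.Agent.Work.MP_6bf1e5_an.H
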