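import Pool.Agent.Work.MP_6bf1e5_an.H.Null0
import Pool.Agent.Work.MP_6bf1e5_an.H.Jet
import Pool.Agent.Work.MP_6bf1e5_an.H.SkGal

/-! The families of modes, functionals and tests with their radial parts. -/

open scoped Real
open Finset MeasureTheory Polynomial

namespace Pool.Agent.Work.MP_6bf1e5_an.H.Jf

open Gl

noncomputable section

/-- The powers of `t` that are not stored: modes, tests, functionals. -/
def e33 : Bool → ℕ := fun _ => 3

def e68 : Bool → ℕ := fun a => if a then 8 else 6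

def eth (p : ℕ) : Bool → ℕ := fun a => if a then p else 6

/-- Three radial parts. -/
def r3 (a b c : ℝ[X]) : ℕ → ℝ[X] := fun s => if s = 0 then a else if s = 1 then b else c

/-- Vorticity and velocity. -/
def pU (u : Vc) : Bool → Vc := fun a => if a then u else curl u

/-- The two fields that enter `kp` and `kq`. -/
def pθ (θ : Vc) : Bool → Vc := fun a =>
  if a then curl θ else fun i y => -θ i y - 2 / 3 * yd (θ i) y

/-- A polynomial on the sphere in the variable `t`. -/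
def cS (k k1 : ℕ) (P : ℝ[X]) : ℝ[X] := (X ^ k * (1 - X) ^ k1 * P.comp (2 * X - 1)).comp qX

def rT (k : ℕ) (w : ℝ[X]) : ℕ → ℝ[X] :=
  r3 (C (-lK k) * (X ^ 3 * w)) (C (-1 / 2) * (X ^ 3 * LX (-2) 8 w)) (X * (qX * w))

def rP (k : ℕ) (w : ℝ[X]) : ℕ → ℝ[X] :=
  r3 (C (-lK k) * (X * w)) (C (-1 / 2) * (X * LX 0 6 w))
    (X ^ 3 * (C (-1 / 4) * LX (-2) 6 (LX 0 6 w) + C (lK k) * w))

def rθT (k u : ℕ) (w : ℝ[X]) : ℕ → ℝ[X] :=
  r3 (C (-3 * lK k) * (X ^ u * w)) (C (-3 / 2) * (X ^ u * LX (-5) 11 w))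
    (-(X * (qX * LX (-4) 11 w)))

def rθM (k u : ℕ) (w : ℝ[X]) : ℕ → ℝ[X] :=
  r3 (C (lK k) * (X ^ 7 * LX (-10) 15 w)) (C (1 / 2) * (X ^ 7 * LX (-10) 15 (LX (-5) 11 w)))
    (3 * (X ^ u * (C (-1 / 4) * LX (-11) 15 (LX (-5) 11 w) + C (lK k) * w)))

/-- The potential of a functional. -/
def pot (k : ℕ) (P : ℝ[X]) : Vc :=
  tor (2 * k + 2) (tF 1 (8 * k + 11 : ℕ) (3 * P.comp (1 - 2 * X ^ 4)))

/-- The functionals of the classes zero and one. -/
def thF (c k : ℕ) (P : ℝ[X]) : Vc :=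
  if c = 0 then sm (fun y => Om y / 2) (curl (pot k P)) else pot k P

/-- The third part of a null pair of class zero. -/
def z0 (a b g : ℝ[X]) : ℝ[X] := a - C (1 / 2) * LX (-4) 8 b + X ^ 5 * (qX * g)

/-- The first part of a null pair of class one. -/
def z1 (k : ℕ) (w b g : ℝ[X]) : ℝ[X] :=
  C (lK k) * w + C (2 * k + 2 : ℝ) * (X ^ 3 * g)
    + C (1 / 2) * LX (-6) 10 (b - C (1 / 2) * LX (-4) 10 w - X ^ 3 * g)

/-- Minus the two parts of a functional of class zero. -/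
def fA (k : ℕ) (w : ℝ[X]) : ℝ[X] := C (3 * lK k) * (X ^ 7 * w)

def fB (w : ℝ[X]) : ℝ[X] := C (3 / 2) * (X ^ 7 * LX (-5) 11 w)

end

variable {k k1 n p u c : ℕ} {P Q a b x R : ℝ[X]} {β : ℝ} {y : R3}

theorem cS_eq : cS k k1 P = qX ^ k * (X ^ (4 * k1) * P.comp (1 - 2 * X ^ 4)) := by
  have h : (2 * X - 1 : ℝ[X]).comp qX = 1 - 2 * X ^ 4 := by
    simp only [qX, sub_comp, mul_comp, X_comp, one_comp, ofNat_comp]
    ring
  have h2 : (1 - qX) ^ k1 = X ^ (4 * k1) := by rw [qX, sub_sub_cancel, pow_mul]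
  simp only [cS, mul_comp, pow_comp, X_comp, sub_comp, one_comp, comp_assoc, h, h2, mul_assoc]

theorem cS_C (r : ℝ) : cS k k1 (C r * P) = C r * cS k k1 P := by
  simp only [cS_eq, mul_comp, C_comp]
  ring

theorem is_of_ne {e : Bool → ℕ} {S : ℕ → ℝ[X]} {z : Bool → Vc}
    (h : ∀ y ≠ 0, ∀ a i, z a i y = jet e c k S a i y) : Is e c (2 * k + 2) S z :=
  (is_jet e c k S).congr fun y hy => h y hy.ne_zero

theorem jM_eq {a' b' : ℝ[X]} (h : a = a') (h' : b = b') (i : Fin 3) :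
    jM k p a b i y = jM k p a' b' i y := by rw [h, h']

theorem jT_eq {a' : ℝ[X]} (h : a = a') (i : Fin 3) : jT k p a i y = jT k p a' i y := by rw [h]

theorem LX_C (s t r : ℝ) (w : ℝ[X]) : LX s t (C r * w) = C r * LX s t w := by
  simp only [LX, derivative_C_mul]
  ring

theorem C4 (w : ℝ[X]) : C (1 / 2 : ℝ) * (C (-1 / 2 : ℝ) * w) = C (-1 / 4) * w := by
  rw [← mul_assoc, ← C_mul]
  norm_num

theorem curlT (p : ℕ) {s t : ℝ} (hs : s = 2 - p) (ht : t = 4 + p) (hy : y ≠ 0) (i : Fin 3) :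
    curl (jT k p (qX * x)) i y = jM k (p + 2) (C (-lK k) * x) (C (-1 / 2) * LX s t x) i y := by
  rw [curl_jT hy, hs, ht]

theorem curlM (p : ℕ) {s t : ℝ} (hs : s = 2 - p) (ht : t = 2 + p) (hy : y ≠ 0) (i : Fin 3) :
    curl (jM k p a b) i y = jT k (p + 2) (C (1 / 2) * LX s t b - a) i y := by
  rw [curl_jM hy, hs, ht]

theorem is_T : Is e33 0 (2 * k + 2) (rT k (qX ^ k * P))
    (pU (vel false (2 * k + 2) (tF 1 (4 * k + 8 : ℕ) P))) := by
  refine is_of_ne fun y hy a i => ?_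
  rw [vel, if_neg Bool.false_ne_true, show 4 * k + 8 = 4 * k + 4 + 4 from rfl, tor_tF]
  cases a
  · refine (curlT 4 (s := -2) (t := 8) (by norm_num) (by norm_num) hy i).trans ?_
    rw [jM_pow (p := 3) 3]
    exact jM_eq (mul_left_comm ..) (mul_left_comm ..) i
  · rw [jT_pow (p := 3) 1, pow_one]
    rfl

theorem is_P : Is e33 1 (2 * k + 2) (rP k (qX ^ k * P))
    (pU (vel true (2 * k + 2) (tF 1 (4 * k + 6 : ℕ) P))) := by
  refine is_of_ne fun y hy a i => ?_
  rw [vel, if_pos rfl, show 4 * k + 6 = 4 * k + 4 + 2 from rfl, tor_tF]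
  have h := fun y hy => curlT (k := k) (x := qX ^ k * P) (y := y) 2 (s := 0) (t := 6)
    (by norm_num) (by norm_num) hy
  cases a
  · refine (curl_congr_ne h hy i).trans
      ((curlM 4 (s := -2) (t := 6) (by norm_num) (by norm_num) hy i).trans ?_)
    rw [jT_pow (p := 3) 3, LX_C, C4, C_neg, neg_mul, sub_neg_eq_add]
    rfl
  · refine (h y hy i).trans ?_
    rw [jM_pow (p := 3) 1, pow_one]
    exact jM_eq (mul_left_comm ..) (mul_left_comm ..) i

theorem ok_T : RadS (tF 1 (4 * k + 8 : ℕ) P) ∧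
    Sym (-2 - (2 * k + 2 : ℕ)) (rad (tF 1 (4 * k + 8 : ℕ) P)) :=
  ⟨radS_tF one_pos, md_sym_mono (sym_tF one_pos) (by push_cast; linarith)⟩

theorem ok_P : RadS (tF 1 (4 * k + 6 : ℕ) P) ∧
    Sym (-1 - (2 * k + 2 : ℕ)) (rad (tF 1 (4 * k + 6 : ℕ) P)) :=
  ⟨radS_tF one_pos, md_sym_mono (sym_tF one_pos) (by push_cast; linarith)⟩

/-- The profile of a mode as a sum. -/
theorem tF_sum {e r i m m' : ℕ} (cH cL : ℕ → ℝ) (g : ℕ → ℝ[X]) (d : ℕ → ℕ) {z : ℝ} (hz : 0 ≤ z) :
    tF 1 (e : ℕ) (X ^ r * (∑ j ∈ range m, C (cH j) * g j).comp (1 - 2 * X ^ 4)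
      + X ^ i * ∑ j ∈ range m', C (cL j) * (1 - X) ^ d j) z =
    ∑ j ∈ range m, cH j * tF 1 (e + r : ℕ) ((g j).comp (1 - 2 * X ^ 4)) z
      + ∑ j ∈ range m', cL j * tF 1 (e + i : ℕ) ((1 - X) ^ d j) z := by
  simp only [tF_sF, sF_eq hz, eval_add, eval_mul, eval_pow, eval_X, eval_comp, eval_finset_sum,
    eval_C, pow_zero, div_one, mul_add, mul_sum, pow_add]
  congr 1 <;> exact sum_congr rfl fun j _ => by ring

theorem pot_eq : pot k P = jT k 7 (qX * (C 3 * cS k k P)) := by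
  rw [pot, show 8 * k + 11 = 4 * k + 4 + (7 + 4 * k) by ring, tor_tF, jT_pow, cS_eq, map_ofNat]
  congr 1
  ring

theorem pot_tO : ∃ r, pot k P = tO (2 * k + 2) ((2 * k + 2 : ℕ) + 3 / 4) (C r * P) := by
  refine ⟨3 / 2 ^ ((2 * k + 2 : ℕ) + 3 / 4 : ℝ), tor_congr fun z hz => ?_⟩
  rw [omF_eq_tF (by linarith), mul_comp, C_comp, ← mul_assoc, ← C_mul,
    mul_div_cancel₀ _ (by positivity), map_ofNat]
  congr 1
  push_cast
  ring

theorem th1_eq : thF 1 k P = jT k 6 (qX * (3 * X * cS k k P)) := by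
  rw [thF, if_neg one_ne_zero, pot_eq, jT_pow (p := 6) 1, map_ofNat]
  congr 1
  ring

theorem th0_eq' (hy : y ≠ 0) (i : Fin 3) : thF 0 k P i y =
    jM k 13 (C (-3 * lK k) * cS k k P) (C (-3 / 2) * LX (-5) 11 (cS k k P)) i y := by
  have h1 := congrFun (congrFun (sm_Om_jM (k := k) (p := 9) (a := C (-3 * lK k) * cS k k P)
    (b := C (-3 / 2) * LX (-5) 11 (cS k k P))) i) y
  rw [← map_ofNat C 2, jM_C, sm] at h1
  rw [thF, if_pos rfl, sm, pot_eq, curlT 7 (s := -5) (t := 11) (by norm_num) (by norm_num) hy,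
    LX_C, ← mul_assoc, ← mul_assoc, ← C_mul, ← C_mul, show -lK k * 3 = -3 * lK k by ring,
    show (-1 / 2 * 3 : ℝ) = -3 / 2 by norm_num]
  linarith

theorem th0_eq (hy : y ≠ 0) (i : Fin 3) :
    thF 0 k P i y = jM k 6 (-fA k (cS k k P)) (-fB (cS k k P)) i y := by
  rw [th0_eq' hy, jM_pow (p := 6) 7, fA, fB, ← neg_mul, ← neg_mul, ← C_neg, ← C_neg, neg_mul,
    neg_div]
  exact jM_eq (mul_left_comm ..) (mul_left_comm ..) i

theorem yd_congr_ne {f g : Sc} (h : ∀ y ≠ 0, f y = g y) (hy : y ≠ 0) : yd f y = yd g y := by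
  have : f =ᶠ[nhds y] g := (isOpen_ne.eventually_mem hy).mono h
  simp only [yd, pd, this.fderiv_eq]

theorem phi_eq {s s' r r' : ℝ} (h : s' = s + 3) (h' : r' = -3 * r) (t : ℝ) (w : ℝ[X]) :
    C r * LX s' t w
      = C (-1) * (C r' * w) + C (-(2 / 3)) * (C (1 / 2) * LX s t (C r' * w)) := by
  subst h'
  have e : C (-(2 / 3) : ℝ) * (C (1 / 2) * C (-3 * r)) = C r := by
    rw [← C_mul, ← C_mul]
    congr 1
    ring
  have e' : C (-1 : ℝ) * C (-3 * r) = C r * C 3 := by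
    rw [← C_mul, ← C_mul]
    congr 1
    ring
  rw [LX_C, h]
  simp only [LX, C_add]
  linear_combination -e' * w - e * ((C s + C t * X ^ 4) * w
    - (1 + X + X ^ 2 + X ^ 3) * (X * (1 - X) * derivative w))

theorem is_θ1 (h : p + u = 9) : Is (eth p) 1 (2 * k + 2) (rθT k u (cS k k P)) (pθ (thF 1 k P)) := by
  refine is_of_ne fun y hy a i => ?_
  rw [thF, if_neg one_ne_zero, pot_eq]
  generalize cS k k P = w
  cases a
  · have e : jet (eth p) 1 k (rθT k u w) false = jT k (6 + 1) (qX * (C (-1) * LX (-4) 11 w)) := by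
      rw [jT_pow]
      simp [jet, rθT, r3, eth]
    rw [e, phi_eq (s := -7) (r' := 3) (by norm_num) (by norm_num), mul_add,
      mul_left_comm qX (C (-1)), mul_left_comm qX (C (-(2 / 3))), jT_add, Pi.add_apply,
      Pi.add_apply, jT_C, jT_C]
    simp only [pθ, Bool.false_eq_true, if_false, yd_jT hy]
    norm_num
    ring
  · refine (curlT 7 (s := -5) (t := 11) (by norm_num) (by norm_num) hy i).trans ?_
    rw [show 7 + 2 = p + u from h.symm, jM_pow, LX_C, ← mul_assoc (C _), ← mul_assoc (C _),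
      ← C_mul, ← C_mul, show -lK k * 3 = -3 * lK k by ring,
      show (-1 / 2 * 3 : ℝ) = -3 / 2 by norm_num]
    exact jM_eq (mul_left_comm ..) (mul_left_comm ..) i

theorem is_θ0 (h : p + u = 15) :
    Is (eth p) 0 (2 * k + 2) (rθM k u (cS k k P)) (pθ (thF 0 k P)) := by
  refine is_of_ne fun y hy a i => ?_
  have h0 := fun y hy => th0_eq' (k := k) (P := P) (y := y) hy
  generalize cS k k P = w at *
  cases a
  · have e : jet (eth p) 0 k (rθM k u w) false = jM k (6 + 7) (C (lK k) * LX (-10) 15 w)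
        (C (1 / 2) * LX (-10) 15 (LX (-5) 11 w)) := by
      rw [jM_pow, mul_left_comm, mul_left_comm _ (C _)]
      rfl
    rw [e, phi_eq (s := -13) (s' := -10) (by norm_num) rfl, phi_eq (s := -13) (s' := -10)
      (r' := -3 / 2) (by norm_num) (by norm_num), jM_add, Pi.add_apply, Pi.add_apply, jM_C, jM_C]
    simp only [pθ, Bool.false_eq_true, if_false, h0 y hy,
      yd_congr_ne (fun y hy => h0 y hy i) hy, yd_jM hy]
    norm_num
    ring
  · refine (curl_congr_ne h0 hy i).trans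
      ((curlM 13 (s := -11) (t := 15) (by norm_num) (by norm_num) hy i).trans ?_)
    rw [show 13 + 2 = p + u from h.symm, jT_pow, show (-3 / 2 : ℝ) = -1 / 2 * 3 by norm_num, C_mul,
      mul_assoc, LX_C, C4, LX_C, neg_mul, C_neg, C_mul, map_ofNat]
    exact jT_eq (by simp only [rθM, r3]; norm_num; ring) i

theorem test_θ (h : 2 * k + 2 + P.natDegree + (if c = 0 then 3 else 1) ≤ n) :
    Test (3 / 4) n (thF c k P) := by
  obtain ⟨r, e⟩ := pot_tO (k := k) (P := P)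
  have hQ := natDegree_C_mul_le r P
  rw [thF, e]
  split_ifs at h ⊢ with hc
  · choose g hg eg using test_tO (n := n - 2) (l := 2 * k + 2) (P := C r * P) (3 / 4) (by omega)
    intro i
    obtain ⟨g1, h1, e1⟩ := (hg (i + 2)).pd_Op (3 / 4) (i + 1)
    obtain ⟨g2, h2, e2⟩ := (hg (i + 1)).pd_Op (3 / 4) (i + 2)
    refine ⟨_, md_poly_mono (md_poly_cmul (md_poly_mul md_poly_Om (md_poly_sub h1 h2)) (1 / 2))
      (by omega), funext fun y => ?_⟩
    simp only [sm, curl, eg, e1, e2, Pi.mul_apply]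
    ring
  · exact test_tO _ (by omega)

theorem sym_pot (i : Fin 3) : Sym (-3) (pot k P i) := by
  obtain ⟨r, e⟩ := pot_tO (k := k) (P := P)
  exact e ▸ md_sym_mono (sym_tO i) (by push_cast; linarith [k.cast_nonneg (α := ℝ)])

theorem sym_θ (i : Fin 3) : Sym (-3) (thF c k P i) := by
  unfold thF
  split_ifs
  · have := md_sym_mul (md_sym_cmul md_sym_Om (1 / 2)) (md_sym_curl (sym_pot (k := k) (P := P)) i)
    simp only [one_div_mul_eq_div] at this
    exact md_sym_mono this (by norm_num)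
  · exact sym_pot i

theorem thF_C (r : ℝ) (i : Fin 3) (y : R3) : thF c k (C r * P) i y = r * thF c k P i y := by
  have e : pot k (C r * P) = fun i y => r * pot k P i y := by
    funext i y
    rw [pot_eq, pot_eq, cS_C, ← jT_C]
    exact jT_eq (by ring) i
  unfold thF
  split_ifs
  · simp only [e, sm, curl, Dyn.pd_cmul (sym_pot _).1]
    ring
  · rw [e]

theorem cS_zero : cS k k1 0 = 0 := by simp [cS]

/-- Tests (`β = 0`) and tails of functionals, class zero. -/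
theorem null0 (h : P = 0 ∨ 2 * k + 2 + P.natDegree ≤ n) :
    Null n (fun i y => jM k 6 a b i y - β * thF 0 k Q i y)
      (jT k 8 (z0 (a + C β * fA k (cS k k Q)) (b + C β * fB (cS k k Q)) (cS k k P))) := by
  have h1 : ∀ a b, Null n (jM k 6 a b) (jT k 8 (z0 a b (cS k k P))) := fun a b => by
    rcases h with rfl | h
    · simpa only [z0, cS_zero, mul_zero, add_zero] using null_jM
    · exact null_zero ((add_le_add_right (natDegree_comp_le.trans
        (mul_le_of_le_one_right' (by compute_degree))) _).trans h)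
  refine (h1 _ _).congr_ne (fun y hy i => ?_) fun _ _ _ => rfl
  have h2 := jM_C (k := k) (p := 6) (a := fA k (cS k k Q)) (b := fB (cS k k Q)) (-1) i y
  rw [C_neg, C_1, neg_one_mul, neg_one_mul] at h2
  rw [jM_add, Pi.add_apply, Pi.add_apply, jM_C, th0_eq hy, h2]
  ring

/-- The same in class one. -/
theorem null1 (h : P = 0 ∨ 2 * k + 2 + P.natDegree ≤ n + 1) :
    Null n (fun i y => jT k 6 (qX * x) i y - β * thF 1 k Q i y)
      (jM k 8 (z1 k (x - C β * (3 * X * cS k k Q)) b (cS k k P)) b) := by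
  have h1 : ∀ x, Null n (jT k 6 (qX * x)) (jM k 8 (z1 k x b (cS k k P)) b) := fun x => by
    rcases h with rfl | h
    · have := (null_jT (n := n) (k := k) (w := x)).add
        (null_jS (k := k) (w := b - C (1 / 2) * LX (-4) 10 x))
      rw [add_zero, ← jM_add, add_sub_cancel] at this
      simpa only [z1, cS_zero, mul_zero, add_zero, sub_zero] using this
    · exact null_one ((add_le_add_right (natDegree_comp_le.trans
        (mul_le_of_le_one_right' (by compute_degree))) _).trans h) rfl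
  refine (h1 _).congr_ne (fun y hy i => ?_) fun _ _ _ => rfl
  rw [th1_eq, sub_eq_add_neg, ← neg_mul, ← jT_C, ← Pi.add_apply, ← Pi.add_apply (jT _ _ _), ← jT_add,
    C_neg]
  exact jT_eq (by ring) i

theorem null_rad : Null n (jet0 e68 c R false) (jet0 e68 c R true) := null_jet0 le_rfl le_rfl c R

/-- The decay of the pairs in the format of the tests. -/
theorem bd_jet (S : ℕ → ℝ[X]) :
    (∀ i, Bd (-3) (jet e68 c k S false i)) ∧ ∀ i, Bd (-4) (jet e68 c k S true i) := by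
  have h : ∀ a i, Bd (-(e68 a / 2 : ℝ)) (jet e68 c k S a i) := fun a i => by
    unfold jet
    split_ifs
    exacts [bd_jM i, bd_jT i]
  exact ⟨fun i => (h false i).mono (by norm_num [e68]), fun i => (h true i).mono (by norm_num [e68])⟩

theorem rad8 (l : ℕ) : ∫ r in Set.Ioi (0 : ℝ), r ^ (2 * l + 2)
    * (((1 + 1 * r ^ 2) ^ (-(1 / 4) : ℝ)) ^ 8 / r ^ (2 * l)) ≤ 1 := by
  have h := (FrI_sub one_pos fun t => t ^ 8).2
  rw [one_pow, one_pow] at h
  rw [setIntegral_congr_fun (g := fun r => r ^ 2 * ((1 + 1 * r ^ 2) ^ (-(1 / 4) : ℝ)) ^ 8)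
    measurableSet_Ioi fun r hr => by have := hr.out.ne'; field_simp; ring, ← h]
  refine (integral_mono_of_nonneg (g := fun t => 2 * t) ?_ ?_ ?_).trans_eq ?_
  · exact (ae_restrict_mem measurableSet_Ioo).mono fun t ht => by have := ht.1; positivity
  · exact (continuous_const.mul continuous_id).integrableOn_Icc.mono_set Set.Ioo_subset_Icc_self
  · refine (ae_restrict_mem measurableSet_Ioo).mono fun t ht => ?_
    have h0 := ht.1
    have h1 : √(1 - t ^ 4) ≤ 1 := Real.sqrt_le_one.2 (sub_le_self _ (by positivity))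
    have : t ^ 8 * (2 * √(1 - t ^ 4) / (1 * t ^ 7)) = 2 * t * √(1 - t ^ 4) := by field_simp
    exact this.trans_le (mul_le_of_le_one_right (by positivity) h1)
  · rw [← integral_Ioc_eq_integral_Ioo, ← intervalIntegral.integral_of_le zero_le_one,
      intervalIntegral.integral_const_mul, integral_id]
    norm_num

theorem int8 {B : ℝ → ℝ} (h : Continuous B) : Integrable fun y => tau 1 y ^ 8 * B (pa y) ^ 2 :=
  (((bd_tp 8 1).mul (bd_ang (h.pow 2))).integrable (by norm_num)).congr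
    (.of_forall fun y => by simp [tp])

theorem P8 (l : ℕ) : ∫ y, tau 1 y ^ 8 * Pa l (pa y) ^ 2 ≤ 4 * π / (2 * l + 1) := by
  have h1 := polar (Q := fun y => Hl l y * Hl l y) ((hom_Hl l).mul (hom_Hl l)).hom
    fun r => ((1 + 1 * r ^ 2) ^ (-(1 / 4) : ℝ)) ^ 8 / r ^ (2 * l)
  rw [sph_Hl, if_pos rfl, ← two_mul] at h1
  refine le_trans (le_of_eq ((integral_congr_ae (ae_off.mono fun y hy => ?_)).trans h1))
    (mul_le_of_le_one_right (by positivity) (rad8 l))
  have := hy.norm_pos.ne'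
  simp only [hy.Hl_eq, tau, pow_mul']
  field_simp

theorem D8 (l : ℕ) : ∫ y, tau 1 y ^ 8 * dPa l (pa y) ^ 2 ≤ nT l := by
  have h1 := int_TT l l fun r => ((1 + 1 * r ^ 2) ^ (-(1 / 4) : ℝ)) ^ 8 / r ^ (2 * l)
  rw [if_pos rfl] at h1
  refine le_trans (le_of_eq ((integral_congr_ae (ae_off.mono fun y hy => ?_)).trans h1))
    (mul_le_of_le_one_right (by unfold nT; positivity) (rad8 l))
  have h0 := hy.norm_pos.ne'
  have h2 : dot (TT l) (TT l) y = (rc y * bl l y) ^ 2 := by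
    have := rc_sq y
    simp only [dot, TT_eq, Jv, Fin.sum_univ_three]
    simp
    linear_combination (-(bl l y * bl l y)) * this
  simp only [h2, hy.bl_eq, tau, pow_mul']
  field_simp

theorem ev_sq {d : ℝ} (h : ∀ φ, |R.eval ((1 + Real.cos φ) / 2)| ≤ d) (y : R3) :
    R.eval (tau 1 y) ^ 2 ≤ d ^ 2 := by
  have := h (phA 1 y)
  rw [cos_phA one_pos, add_sub_cancel, mul_div_cancel_left₀ _ two_ne_zero] at this
  exact sq_le_sq' (abs_le.1 this).1 (abs_le.1 this).2

theorem nw_le {ou : Sc} {L d d' : ℝ} {V : Vc} (h0 : ∀ᵐ y, 0 ≤ ou y ∧ ou y * tau 1 y ^ 8 ≤ L)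
    (h : ∀ y, Off y → dot V V y ≤ tau 1 y ^ 16
      * (d ^ 2 * Pa (2 * k + 2) (pa y) ^ 2 + d' ^ 2 * dPa (2 * k + 2) (pa y) ^ 2)) :
    nw ou V ≤ 4 * π * L * (d ^ 2 + lK k * d' ^ 2) / (4 * k + 5) := by
  have hL : 0 ≤ L := let ⟨y, h1, h2⟩ := h0.exists; le_trans (by have := tau_pos one_pos y; positivity) h2
  have i1 := (int8 (cont_Pa (2 * k + 2))).const_mul (L * d ^ 2)
  have i2 := (int8 (cont_dPa (2 * k + 2))).const_mul (L * d' ^ 2)
  refine (integral_mono_of_nonneg (h0.mono fun y hy => mul_nonneg hy.1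
    (sum_nonneg fun _ _ => mul_self_nonneg _)) (i1.add i2) ?_).trans ?_
  · filter_upwards [h0, ae_off] with y h1 h2
    refine (mul_le_mul_of_nonneg_left (h y h2) h1.1).trans ?_
    have := mul_le_mul_of_nonneg_right h1.2 (show 0 ≤ tau 1 y ^ 8 * (d ^ 2
      * Pa (2 * k + 2) (pa y) ^ 2 + d' ^ 2 * dPa (2 * k + 2) (pa y) ^ 2) by positivity)
    simp only [Pi.add_apply]
    linarith
  · rw [integral_add' i1 i2, integral_const_mul, integral_const_mul]
    refine (add_le_add (mul_le_mul_of_nonneg_left (P8 _) (by positivity))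
      (mul_le_mul_of_nonneg_left (D8 _) (by positivity))).trans_eq ?_
    simp only [nT, lK]
    push_cast
    field_simp
    ring

theorem nw_jT {ou : Sc} {L d : ℝ} (h0 : ∀ᵐ y, 0 ≤ ou y ∧ ou y * tau 1 y ^ 8 ≤ L)
    (hR : ∀ φ, |R.eval ((1 + Real.cos φ) / 2)| ≤ d) :
    nw ou (jT k 8 R) ≤ 4 * π * L * (lK k * d ^ 2) / (4 * k + 5) := by
  simpa using nw_le (k := k) (d := 0) (d' := d) (V := jT k 8 R) h0 fun y hy => by
    simp only [dot, ← sq, hy.jT_eq, zF, hy.sq_vF, Fin.sum_univ_three, tp, Real.rpow_natCast]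
    simp only [Matrix.cons_val, Pi.zero_apply, mul_pow, ← pow_mul, Nat.reduceMul]
    linarith [mul_le_mul_of_nonneg_left (ev_sq hR y) (show 0 ≤ tau 1 y ^ 16
      * dPa (2 * k + 2) (pa y) ^ 2 by positivity)]

theorem nw_jM {ou : Sc} {L d d' : ℝ} (h0 : ∀ᵐ y, 0 ≤ ou y ∧ ou y * tau 1 y ^ 8 ≤ L)
    (ha : ∀ φ, |a.eval ((1 + Real.cos φ) / 2)| ≤ d)
    (hb : ∀ φ, |b.eval ((1 + Real.cos φ) / 2)| ≤ d') :
    nw ou (jM k 8 a b) ≤ 4 * π * L * (d ^ 2 + lK k * d' ^ 2) / (4 * k + 5) :=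
  nw_le h0 fun y hy => by
    have h1 : kA 1 y ^ 2 ≤ 1 := pow_le_one₀ (kA_nonneg 1 y) (kA_le_one 1 y)
    have h2 := mul_le_mul h1 (ev_sq ha y) (sq_nonneg _) zero_le_one
    have h3 := mul_le_mul h1 (ev_sq hb y) (sq_nonneg _) zero_le_one
    simp only [dot, ← sq, hy.jM_eq, rF, hy.sq_vF, Fin.sum_univ_three, tp, Real.rpow_natCast]
    simp only [Matrix.cons_val, Pi.zero_apply, mul_pow, ← pow_mul, Nat.reduceMul]
    linarith [mul_le_mul_of_nonneg_left h2 (show 0 ≤ tau 1 y ^ 16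
      * Pa (2 * k + 2) (pa y) ^ 2 by positivity), mul_le_mul_of_nonneg_left h3
      (show 0 ≤ tau 1 y ^ 16 * dPa (2 * k + 2) (pa y) ^ 2 by positivity)]

end Pool.Agent.Work.MP_6bf1e5_an.H.Jf
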