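import Pool.Agent.Work.MP_6bf1e5_an.H.RadD
import Pool.Agent.Work.MP_6bf1e5_an.H.JetFam
import Pool.Agent.Work.MP_6bf1e5_an.H.IniD

/-! The plane of initial perturbations: closed forms (owner helper52). -/

open scoped Real ContDiff
open Finset MeasureTheory Polynomial

namespace Pool.Agent.Work.MP_6bf1e5_an.H.Ini

noncomputable section

/-- The polynomial of `curl (Om ^ (b - a) curl (fT 2 a P))`. -/
def cc (a b : ℝ) (P : ℝ[X]) : ℝ[X] :=
  C 2 * dP (1 + b) (C (-(3 / 5)) * oV 1 a P) + oV 2 b (C (-(4 / 5)) * dP (2 + a) P)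

/-- The potential. -/
def p0 : Vc := fT 2 (9 / 4) 1

def WT : ℝ[X] := cc (9 / 4) (9 / 4 + 1) 1

def WP : ℝ[X] := cc (9 / 4) (9 / 4) 1

/-- The normalisation. -/
def rho : ℝ := 5 * 2 ^ (11 / 4 : ℝ) / (9 * π ^ 2)

/-- The two velocities. -/
def uB : Fin 2 → Vc := ![p0, curl p0]

/-- Multiples of the potential. -/
def sc (x : ℝ) : Vc := fun i y => rho * x * p0 i y

end

variable {a b w : ℝ} {P Q R : ℝ[X]} {d c k N : ℕ} {q : ℕ → ℝ}

theorem curl_two : curl (fT 2 a P) =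
    fM 1 a (C (-(3 / 5)) * oV 1 a P) (C (-(4 / 5)) * dP (2 + a) P) := by
  rw [show fT 2 a P = fT (1 + 1) a P from rfl, curl_fT0]
  norm_num

theorem curl_cc : curl (sm (Op w) (curl (fT 2 a P))) = fT 2 (a + w) (cc a (a + w) P) := by
  rw [curl_two, sm_fM, curl_fM0, cc]
  norm_num

theorem curl_cc0 : curl (curl (fT 2 a P)) = fT 2 a (cc a a P) := by
  rw [curl_two, curl_fM0, cc]
  norm_num

theorem WT_ev (x : ℝ) : WT.eval x = -(163 / 8) * (1 - x) + 425 / 16 * (1 - x) ^ 2 := by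
  simp [WT, cc, dP, oV]
  ring

theorem WP_ev (x : ℝ) : WP.eval x = -(119 / 8) * (1 - x) + 357 / 16 * (1 - x) ^ 2 := by
  simp [WP, cc, dP, oV]
  ring

theorem W2_ev (x : ℝ) : (cc (9 / 4) (9 / 4) WP).eval x =
    27489 / 64 * (1 - x) ^ 2 - 98175 / 64 * (1 - x) ^ 3 + 258825 / 256 * (1 - x) ^ 4 := by
  have e : WP = C (-(119 / 8)) * (1 - X) + C (357 / 16) * ((1 - X) * (1 - X)) :=
    Polynomial.funext fun x => by
      rw [WP_ev]
      simp
      ring
  rw [e]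
  simp [cc, dP, oV]
  ring

theorem Jw_pow (a : ℝ) (P : ℝ[X]) : ∀ j : ℕ, Jw d (a + j) P = Jw d a ((1 - X) ^ j * P)
  | 0 => by simp
  | j + 1 => by
    rw [Nat.cast_succ, ← add_assoc, Jw_succ, Jw_pow a _ j, pow_succ, mul_assoc]

theorem Jw_pw (ha : -(d + 3 / 2) < a) {n : ℕ} (c : Fin n → ℝ) (j0 : ℕ) (P : ℝ[X])
    (h : ∀ x, R.eval x = ∑ j, c j * ((1 - x) ^ (j0 + j) * P.eval x)) :
    Jw d a R = ∑ j, c j * Jw d (a + (j0 + j : ℕ)) P := by
  rw [Jw_congr (Q := ∑ j, C (c j) * ((1 - X) ^ (j0 + j) * P)) fun x => by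
    simp [h, eval_finsetSum], Jw_sum ha]
  simp only [Jw_C, Jw_pow]

theorem gf_step (ha : 0 ≤ a) (m : ℕ) :
    Jw 2 a (gf 2 (m + 1)) = (m - a) * (m + 6) / (m + 7 + a) * Jw 2 a (gf 2 m) := by
  have := Jw_gf (d := 2) (a := a) (by push_cast; linarith) m
  have h : (0 : ℝ) < m + 7 + a := by positivity
  push_cast at this
  field_simp
  linear_combination this

theorem J_step (ha : 0 ≤ a) (e : b = a + 1) : Jw 2 b 1 = (7 + 2 * a) / (7 + a) * Jw 2 a 1 := by
  have h1 := gf_step ha 0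
  have h2 := Jw_gf_one (d := 2) (a := a) (by push_cast; linarith) 1
  have h : (0 : ℝ) < 7 + a := by positivity
  simp only [gf_zero, mul_one, Nat.cast_zero, zero_add, zero_sub, Nat.cast_ofNat] at h1 h2
  rw [h2] at h1
  subst e
  field_simp at h1 ⊢
  linear_combination (-1 / 6) * h1

theorem gam72 : Real.Gamma (2 + 3 / 2) = 15 / 8 * √π := by
  rw [show (2 + 3 / 2 : ℝ) = 1 / 2 + 1 + 1 + 1 by norm_num, Real.Gamma_add_one (by norm_num),
    Real.Gamma_add_one (by norm_num), Real.Gamma_add_one (by norm_num), Real.Gamma_one_half_eq]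
  ring

theorem J_zero : Jw 2 0 1 = 5 / 16 * π := by
  have h := Real.Gamma_nat_eq_factorial 6
  rw [Jw_one (by norm_num), add_zero, add_zero, add_zero]
  push_cast at h ⊢
  rw [gam72, show (2 * 2 + 3 : ℝ) = 6 + 1 by norm_num, h, show (2 * 2 + 2 : ℝ) = (6 : ℕ) by norm_num,
    Real.rpow_natCast]
  have := Real.mul_self_sqrt Real.pi_pos.le
  simp only [Nat.factorial]
  push_cast
  linear_combination 5 / 16 * this

theorem J_half : Jw 2 (1 / 2) 1 = 32 / 3003 * 2 ^ (13 / 2 : ℝ) := by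
  have h := Real.Gamma_nat_eq_factorial 3
  have hp : 0 < Real.Gamma (2 + 3 / 2) := Real.Gamma_pos_of_pos (by norm_num)
  rw [Jw_one (by norm_num)]
  push_cast at h ⊢
  rw [show (2 + 3 / 2 + 1 / 2 : ℝ) = 3 + 1 by norm_num, h,
    show (2 * 2 + 3 + 1 / 2 : ℝ) = 2 + 3 / 2 + 1 + 1 + 1 + 1 by norm_num,
    Real.Gamma_add_one (by norm_num), Real.Gamma_add_one (by norm_num),
    Real.Gamma_add_one (by norm_num), Real.Gamma_add_one (by norm_num),
    show (2 * 2 + 2 + 1 / 2 : ℝ) = 13 / 2 by norm_num]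
  simp only [Nat.factorial]
  push_cast
  field_simp
  norm_num

theorem gf_big (a : ℕ) : ∀ m, a < m → Jw 2 a (gf 2 m) = 0
  | m + 1, h => by
    rw [gf_step a.cast_nonneg]
    rcases (Nat.lt_succ_iff.1 h).eq_or_lt with rfl | h'
    · simp
    · rw [gf_big a m h', mul_zero]

theorem Jw_four (a : ℕ) (ha : a ≤ 3) (hN : 4 ≤ N) :
    Jw 2 a (gS 2 N q) = ∑ m ∈ range 4, q m * Jw 2 a (gf 2 m) := by
  have := Jw_gS (d := 2) (a := a) (N := N) (c := q) (by
    have : (0 : ℝ) ≤ a := a.cast_nonneg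
    push_cast
    linarith) 1
  simp only [mul_one] at this
  rw [this]
  refine (sum_subset (range_subset_range.2 hN) fun m _ hm => ?_).symm
  rw [gf_big a m (by simp at hm; omega), mul_zero]

theorem J_int (hN : 4 ≤ N) : Jw 2 1 (gS 2 N q) = π * (5 / 16 * (q 0 - 3 / 4 * q 1)) ∧
    Jw 2 2 (gS 2 N q) = π * (45 / 128 * (q 0 - 4 / 3 * q 1 + 14 / 15 * q 2)) ∧
    Jw 2 3 (gS 2 N q) = π * (55 / 128 * (q 0 - 9 / 5 * q 1 + 126 / 55 * q 2 - 84 / 55 * q 3)) := by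
  have j1 := J_step (a := 0) (b := 1) le_rfl (by norm_num)
  have j2 := J_step (a := 1) (b := 2) (by norm_num) (by norm_num)
  have j3 := J_step (a := 2) (b := 3) (by norm_num) (by norm_num)
  have h := fun (a : ℕ) ha => Jw_four (q := q) a ha hN
  have g := fun (a : ℕ) => gf_step (a := a) a.cast_nonneg
  simp only [sum_range_succ, range_zero, sum_empty, g, gf_zero] at h
  have h1 := h 1 (by norm_num)
  have h2 := h 2 (by norm_num)
  have h3 := h 3 (by norm_num)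
  push_cast at h1 h2 h3
  rw [j3, j2] at h3
  rw [j2] at h2
  rw [j1, J_zero] at h1 h2 h3
  refine ⟨h1.trans ?_, h2.trans ?_, h3.trans ?_⟩ <;> ring

theorem nT_two : nT 2 = 24 / 5 * π := by
  simp only [nT]
  push_cast
  ring

theorem pot_fT : Jf.pot k P =
    fT (2 * k + 2) (3 / 4) (C (3 / 2 ^ ((2 * k + 2 : ℕ) + 3 / 4 : ℝ)) * P) := by
  refine tor_congr fun z hz => ?_
  rw [omF_eq_tF (by linarith), mul_comp, C_comp, ← mul_assoc, ← C_mul,
    mul_div_cancel₀ _ (by positivity), map_ofNat]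
  congr 1
  push_cast
  ring

theorem ip_half (U V : Vc) : ip V (sm (fun y => Om y / 2) U) = 1 / 2 * ip (sm (Op 1) V) U := by
  rw [ip, ip, ← integral_const_mul, md_Op_one]
  simp only [dot, sm, mul_sum]
  exact integral_congr_ae (.of_forall fun y => sum_congr rfl fun i _ => by ring)

theorem sym_fT (h : 0 ≤ a) (i : Fin 3) : Sym (-2) (fT 2 a P i) :=
  md_sym_mono (bd_fT i) (by push_cast; linarith)

theorem sym_p0 (i : Fin 3) : Sym (-6) (p0 i) := md_sym_mono (bd_fT i) (by norm_num)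

theorem sym_sm (i : Fin 3) : Sym (-3) (sm (Op 1) (curl p0) i) := by
  rw [p0, curl_two, sm_fM]
  exact md_sym_mono (bd_fM i) (by norm_num)

theorem rho_r : rho * (π * π * (3 / 2 ^ ((2 * 0 + 2 : ℕ) + 3 / 4 : ℝ))) = 5 / 3 := by
  rw [rho, show ((2 * 0 + 2 : ℕ) + 3 / 4 : ℝ) = 11 / 4 by norm_num]
  have := Real.pi_pos
  field_simp
  norm_num

theorem mom_T0 : mom (Jf.thF 0 k P) p0 = if k = 0 then 1 / 2 * (nT 2 *
    Jw 2 1 (WT * (C (3 / 2 ^ ((2 * k + 2 : ℕ) + 3 / 4 : ℝ)) * P))) else 0 := by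
  rw [mom, Jf.thF, if_pos rfl, ip_half, ← rd_ip_curl sym_sm Jf.sym_pot (by norm_num), p0, curl_cc,
    pot_fT, ip_fT, show (9 / 4 + 1 + 3 / 4 - 3 : ℝ) = 1 by norm_num]
  by_cases h : k = 0
  · rw [if_pos (by omega), if_pos h, WT]
  · rw [if_neg (by omega), if_neg h, mul_zero]

theorem mom_P1 (hc : c ≠ 0) : mom (Jf.thF c k P) (curl p0) = if k = 0 then nT 2 *
    Jw 2 0 (WP * (C (3 / 2 ^ ((2 * k + 2 : ℕ) + 3 / 4 : ℝ)) * P)) else 0 := by
  rw [mom, Jf.thF, if_neg hc, p0, curl_cc0, pot_fT, ip_fT,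
    show (9 / 4 + 3 / 4 - 3 : ℝ) = 0 by norm_num]
  by_cases h : k = 0
  · rw [if_pos (by omega), if_pos h, WP]
  · rw [if_neg (by omega), if_neg h]

theorem mom_T1 (hc : c ≠ 0) : mom (Jf.thF c k P) p0 = 0 := by
  rw [mom, Jf.thF, if_neg hc, p0, curl_two, pot_fT, ip_fM_fT]

theorem mom_P0 : mom (Jf.thF 0 k P) (curl p0) = 0 := by
  rw [mom, Jf.thF, if_pos rfl, ip_half, p0, curl_cc0, sm_fT, pot_fT,
    show fT (2 * k + 2) = fT (2 * k + 1 + 1) from rfl, curl_fT0, ip_fT_fM, mul_zero]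

/-- The functionals of higher angular degree vanish on the plane. -/
theorem mom_far (hk : k ≠ 0) (j : Fin 2) : mom (Jf.thF c k P) (uB j) = 0 := by
  rcases eq_or_ne c 0 with rfl | hc <;> fin_cases j
  exacts [mom_T0.trans (if_neg hk), mom_P0, mom_T1 hc, (mom_P1 hc).trans (if_neg hk)]

/-- The functionals of degree two. -/
theorem mom_low (hc : c < 2) (hN : 4 ≤ N) (j : Fin 2) : rho * mom (Jf.thF c 0 (gS 2 N q)) (uB j) =
    if c = j then (∑ m ∈ range 4, wt c m * q m) / 512 else 0 := by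
  obtain ⟨j1, j2, j3⟩ := J_int (q := q) hN
  have r := rho_r
  interval_cases c <;> fin_cases j
  · refine (congrArg _ mom_T0).trans ?_
    rw [if_pos rfl, mul_left_comm WT, Jw_C, Jw_pw (by norm_num) ![-(163 / 8), 425 / 16] 1 (gS 2 N q)
      fun x => by simp [WT_ev]; ring]
    generalize (3 / 2 ^ ((2 * 0 + 2 : ℕ) + 3 / 4 : ℝ) : ℝ) = t at r ⊢
    simp only [Fin.sum_univ_two, sum_range_succ, range_zero, sum_empty, wt]
    norm_num [j2, j3, nT_two]
    linear_combination (5223 / 512 * q 0 - 13509 / 512 * q 1 + 59787 / 1280 * q 2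
      - 5355 / 128 * q 3) * r
  · exact (congrArg _ mom_P0).trans (by simp)
  · exact (congrArg _ (mom_T1 one_ne_zero)).trans (by simp)
  · refine (congrArg _ (mom_P1 one_ne_zero)).trans ?_
    rw [if_pos rfl, mul_left_comm WP, Jw_C, Jw_pw (by norm_num) ![-(119 / 8), 357 / 16] 1 (gS 2 N q)
      fun x => by simp [WP_ev]; ring]
    generalize (3 / 2 ^ ((2 * 0 + 2 : ℕ) + 3 / 4 : ℝ) : ℝ) = t at r ⊢
    simp only [Fin.sum_univ_two, sum_range_succ, range_zero, sum_empty, wt]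
    norm_num [j1, j2, nT_two]
    linear_combination (3927 / 256 * q 0 - 1071 / 32 * q 1 + 22491 / 640 * q 2) * r

theorem J_hf : Jw 2 (7 / 2) 1 = 512 / 323 * Jw 2 (1 / 2) 1 ∧
    Jw 2 (9 / 2) 1 = 2048 / 969 * Jw 2 (1 / 2) 1 ∧
    Jw 2 (11 / 2) 1 = 65536 / 22287 * Jw 2 (1 / 2) 1 ∧
    Jw 2 (13 / 2) 1 = 786432 / 185725 * Jw 2 (1 / 2) 1 ∧
    Jw 2 (15 / 2) 1 = 2097152 / 334305 * Jw 2 (1 / 2) 1 := by
  have j1 := J_step (a := 1 / 2) (b := 3 / 2) (by norm_num) (by norm_num)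
  have j2 := J_step (a := 3 / 2) (b := 5 / 2) (by norm_num) (by norm_num)
  have j3 := J_step (a := 5 / 2) (b := 7 / 2) (by norm_num) (by norm_num)
  have j4 := J_step (a := 7 / 2) (b := 9 / 2) (by norm_num) (by norm_num)
  have j5 := J_step (a := 9 / 2) (b := 11 / 2) (by norm_num) (by norm_num)
  have j6 := J_step (a := 11 / 2) (b := 13 / 2) (by norm_num) (by norm_num)
  have j7 := J_step (a := 13 / 2) (b := 15 / 2) (by norm_num) (by norm_num)
  refine ⟨?_, ?_, ?_, ?_, ?_⟩ <;> simp only [j7, j6, j5, j4, j3, j2, j1] <;> ring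

/-- The constant in the norms. -/
theorem rho_le : 0 ≤ rho ^ 2 * (nT 2 * Jw 2 (1 / 2) 1) ∧
    rho ^ 2 * (nT 2 * Jw 2 (1 / 2) 1) ≤ 20855 / 10000 := by
  have h := Real.pi_gt_d6
  have h3 : (3.141592 : ℝ) ^ 3 < π ^ 3 := pow_lt_pow_left₀ h (by norm_num) (by norm_num)
  have e : ((2 : ℝ) ^ (11 / 4 : ℝ)) ^ 2 * 2 ^ (13 / 2 : ℝ) = 4096 := by
    rw [← Real.rpow_natCast, ← Real.rpow_mul (by norm_num), ← Real.rpow_add (by norm_num),
      show (11 / 4 * (2 : ℕ) + 13 / 2 : ℝ) = (12 : ℕ) by norm_num, Real.rpow_natCast]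
    norm_num
  have hp := Real.pi_pos
  have e2 : rho ^ 2 * (nT 2 * Jw 2 (1 / 2) 1) = 25 * 24 * 32 * 4096 / (81 * 5 * 3003) / π ^ 3 := by
    rw [rho, nT_two, J_half, ← e]
    field_simp
    norm_num
  rw [e2]
  refine ⟨by positivity, ?_⟩
  rw [div_le_iff₀ (by positivity)]
  norm_num at h3 ⊢
  linarith

theorem nw_T : ip (sm Om (curl p0)) (curl p0) = 1216 / 51 * (nT 2 * Jw 2 (1 / 2) 1) := by
  obtain ⟨j3, j4, -⟩ := J_hf
  rw [← md_Op_one, ← rd_ip_curl sym_sm sym_p0 (by norm_num), p0, curl_cc, ip_fT, if_pos rfl,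
    Jw_pw (by norm_num) ![-(163 / 8), 425 / 16] 1 1 fun x => by
      rw [← WT]; simp [WT_ev]]
  norm_num [Fin.sum_univ_two, j3, j4]
  ring

theorem nw_P : ip (sm Om (curl (curl p0))) (curl (curl p0)) =
    20445152 / 32775 * (nT 2 * Jw 2 (1 / 2) 1) := by
  obtain ⟨-, j4, j5, j6, -⟩ := J_hf
  rw [← md_Op_one, p0, curl_cc0, sm_fT, ip_fT, if_pos rfl,
    Jw_pw (by norm_num) ![14161 / 64, -(42483 / 64), 127449 / 256] 2 1 fun x => by
      rw [← WP]; simp [WP_ev, Fin.sum_univ_three]; ring]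
  norm_num [Fin.sum_univ_succ, j4, j5, j6]
  ring

theorem gw_T : ip (curl (curl p0)) (curl (curl p0)) = 179928 / 437 * (nT 2 * Jw 2 (1 / 2) 1) := by
  obtain ⟨j3, j4, j5, -⟩ := J_hf
  rw [p0, curl_cc0, ip_fT, if_pos rfl,
    Jw_pw (by norm_num) ![14161 / 64, -(42483 / 64), 127449 / 256] 2 1 fun x => by
      rw [← WP]; simp [WP_ev, Fin.sum_univ_three]; ring]
  norm_num [Fin.sum_univ_succ, j3, j4, j5]
  ring

theorem gw_P : ip (curl (curl (curl p0))) (curl (curl (curl p0))) =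
    6414100 / 437 * (nT 2 * Jw 2 (1 / 2) 1) := by
  obtain ⟨-, j4, j5, j6, j7⟩ := J_hf
  rw [p0, curl_cc0, ← WP, rd_ip_curl (sym_fT (by norm_num)) (md_sym_curl (sym_fT (by norm_num)))
    (by norm_num), curl_cc0, ip_fT, if_pos rfl, Jw_pw (by norm_num)
      ![-(3271191 / 512), 33179223 / 1024, -(100897125 / 2048), 92400525 / 4096] 3 1 fun x => by
      simp [WP_ev, W2_ev, Fin.sum_univ_four]; ring]
  norm_num [Fin.sum_univ_succ, j4, j5, j6, j7]
  ring

theorem sym_uB (j : Fin 2) (i : Fin 3) : Sym (-6) (uB j i) := by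
  fin_cases j
  exacts [sym_p0 i, md_sym_mono (md_sym_curl sym_p0 i) (by norm_num)]

theorem pot_sc (x x' : ℝ) : Pot (-3) (sc x) (sc x') := by
  have e : ∀ x, sc x = fT 2 (9 / 4) (C (rho * x) * 1) := fun x => by
    funext i y
    rw [sc, p0, fT, fT, tO_smul]
  rw [e, e]
  refine ⟨fun i => md_sym_mono (bd_fT i) (by norm_num), fun i => md_sym_mono (bd_fT i) (by norm_num),
    ?_, ?_, ?_, ?_⟩ <;> rw [fT, tO]
  exacts [dot_pos_tor, dvg_tor radS_omF, eqv_tor (by norm_num), eqv_tor (by norm_num)]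

theorem pl_eq (A : Fin 2 → Fin 2 → ℝ) (a : Fin 2 → ℝ) :
    pl (fun k => fld (sc (A k 1)) (sc (A k 0))) a = lc (fun j => rho * ∑ k, a k * A k j) uB := by
  have e : ∀ x, curl (sc x) = fun i y => rho * x * curl p0 i y := fun x => by
    have := md_curl_lin {()} (fun _ => rho * x) (V := fun _ => p0) fun _ _ i => (sym_p0 i).1
    simp only [sum_singleton] at this
    exact this
  funext i y
  simp only [pl, fld, lc, e, Pi.add_apply, sc, Fin.sum_univ_two, uB, Matrix.cons_val_zero,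
    Matrix.cons_val_one]
  ring

variable {x : Fin 2 → ℝ}

theorem nw_le : nw Om (curl (lc (fun j => rho * x j) uB)) ≤
    4973 / 100 * x 0 ^ 2 + 13009999 / 10000 * x 1 ^ 2 := by
  obtain ⟨h0, h1⟩ := rho_le
  have z : ip (sm Om (curl p0)) (curl (curl p0)) = 0 := by
    rw [← md_Op_one, p0, curl_cc0, curl_two, sm_fM, ip_fM_fT]
  have z' : ip (sm Om (curl (curl p0))) (curl p0) = 0 := by
    rw [← md_Op_one, p0, curl_cc0, curl_two, sm_fT, ip_fT_fM]
  rw [Ca.curl_lc _ fun j i => (sym_uB j i).1, Ca.nw_lc md_sym_Om.bd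
    (fun j i => (md_sym_curl (sym_uB j) i).bd) (by norm_num)]
  simp only [Fin.sum_univ_two, uB, Matrix.cons_val_zero, Matrix.cons_val_one, z, z', nw_T, nw_P]
  nlinarith [mul_le_mul_of_nonneg_right h1 (sq_nonneg (x 0)),
    mul_le_mul_of_nonneg_right h1 (sq_nonneg (x 1)), sq_nonneg (x 0), sq_nonneg (x 1)]

theorem gw_le : gw 1 (curl (lc (fun j => rho * x j) uB)) ≤ 10 ^ 5 * (x 0 ^ 2 + x 1 ^ 2) := by
  obtain ⟨h0, h1⟩ := rho_le
  have z' : ip (curl (curl p0)) (curl (curl (curl p0))) = 0 := by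
    rw [p0, curl_cc0, curl_two, ip_fT_fM]
  have z : ip (curl (curl (curl p0))) (curl (curl p0)) = 0 := (rj_ip_comm _ _).trans z'
  have s := Ca.sym_lc (fun j => rho * x j) sym_uB
  have e : ∀ V : Vc, sm 1 V = V := fun V => funext fun i => funext fun y => one_mul _
  have b : Bd 0 (1 : Sc) := ⟨aestronglyMeasurable_const, 1, .of_forall fun y => by simp⟩
  rw [gw_eq_curl (fun i => (md_sym_curl s i).hinf (by norm_num)) (sp_dvg_curl fun i => (s i).1),
    Ca.curl_lc _ fun j i => (sym_uB j i).1, Ca.curl_lc _ fun j i => (md_sym_curl (sym_uB j) i).1,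
    Ca.nw_lc b (fun j i => (md_sym_curl (md_sym_curl (sym_uB j)) i).bd) (by norm_num)]
  simp only [Fin.sum_univ_two, uB, Matrix.cons_val_zero, Matrix.cons_val_one, e, z, z', gw_T, gw_P]
  nlinarith [mul_le_mul_of_nonneg_right h1 (sq_nonneg (x 0)),
    mul_le_mul_of_nonneg_right h1 (sq_nonneg (x 1)), sq_nonneg (x 0), sq_nonneg (x 1)]

/-- The energies on the plane in terms of the moments `g`. -/
theorem ini_sem {L : Lyap} (hL : L.Good) (hκ : L.κ ≤ 1 / 10 ^ 10) {g : Fin L.r → ℝ}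
    (hg : ∀ a, g a = ∑ j, x j * (rho * mom (L.θ a) (uB j))) :
    L.E (lc (fun j => rho * x j) uB) ≤ 50 * x 0 ^ 2 + 1301 * x 1 ^ 2
      + ∑ a, (∑ b, L.F a b * g b) * g a ∧
    L.zz (lc (fun j => rho * x j) uB) = ∑ i, (∑ a, L.Z i a * g a) ^ 2 := by
  have s := Ca.sym_lc (fun j => rho * x j) sym_uB
  have e : ∀ a, ip (curl (lc (fun j => rho * x j) uB)) (L.θ a) = g a := fun a => by
    rw [hg, ← mom, Ca.mom_lc _ (fun j i => (sym_uB j i).hinf (by norm_num))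
      (fun i => (hL.1 a i).bd) (by norm_num)]
    exact sum_congr rfl fun j _ => by ring
  have e2 : ∀ c : Fin L.r → ℝ, ip (curl (lc (fun j => rho * x j) uB)) (lc c L.θ) = ∑ a, c a * g a :=
    fun c => by
      rw [Ca.ip_lc_right _ fun a => md_int_dot (fun i => (md_sym_curl s i).hinf (by norm_num))
        (fun i => (hL.1 a i).bd) (by norm_num)]
      simp only [e]
  refine ⟨?_, by simp only [Lyap.zz, Lyap.zv, Lyap.θZ, e2]⟩
  simp only [Lyap.E, Lyap.X, Lyap.X1, Lyap.Xv, Lyap.zz, Lyap.θF, e, e2]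
  have h1 := nw_le (x := x)
  have h2 := mul_le_mul hκ (gw_le (x := x)) (integral_nonneg fun y =>
    mul_nonneg zero_le_one (sum_nonneg fun _ _ => sum_nonneg fun _ _ => sq_nonneg _)) (by norm_num)
  nlinarith [sq_nonneg (x 0), sq_nonneg (x 1)]

end Pool.Agent.Work.MP_6bf1e5_an.H.Ini
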