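import Pool.Agent.Work.MP_6bf1e5_an.H.PassDef

/-! The terms of the pass PP (owner helper39). -/

namespace Pool.Agent.Work.MP_6bf1e5_an.H.Ps

open Pool.Agent.Lib.KLA Pool.Agent.Lib.KBlk

noncomputable section

/-- The first angular index of the panel of `b`. -/
def loP (A : Lay) (b : Nat) : Nat := Nat.add A.b0 (Nat.mul A.q (A.pb b))

/-- The term of the pass PP: the stored row, twice inside the panel of the row. -/
def tPP (D : Dat) (S : Scl) (b0 y b q : Nat) : Trm :=
  strict (tot D.Ah.J q b) fun p => (fun T : Trm => cnd (Nat.beq (D.Ah.pb b0) (D.Ah.pb b)) (tN 2 T)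
      (tS T (tK D.V p (Nat.mul S.c S.K))))
    (tRow D.V D.kU S D.Ah D.U b q (Nat.add 16 (D.Ah.pos b0 y 0)) (D.Ah.J b0 y))

/-- The stored rows below the triangle are small. -/
def upad (D : Dat) (e : Nat) (S : Scl) : Bool :=
  allR (fun i => strict (Nat.add D.Ah.b0 (Nat.mul D.Ah.q i)) fun b =>
    strict (Nat.min D.Ah.q (Nat.sub D.Ah.nq (Nat.mul D.Ah.q i))) fun q =>
    bnd (D.Ah.fit b q) (strict (tot D.Ah.J q b) fun p =>
      strict (Nat.add 16 (D.Ah.ps (Nat.add i 1))) fun h =>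
      strict (Nat.sub (Nat.mul 16 (D.cU i)) h) fun J =>
        fin D.V p (Nat.mul S.c S.K) e (tRow D.V D.kU S D.Ah D.U b q h J) 0 J)) 0 D.nh

end

end Pool.Agent.Work.MP_6bf1e5_an.H.Ps
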