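import Pool.Agent.Work.MP_6bf1e5_an.H.PassKLM
import Pool.Agent.Work.MP_6bf1e5_an.H.PassPD

/-! The pass PP (owner helper39). -/

open Finset Pool.Agent.Lib.KBlk Pool.Agent.Lib.KLA

namespace Pool.Agent.Work.MP_6bf1e5_an.H.Ps

open Gl

variable {D : Dat} {A : Lay} {b0 y b q : ℕ}

theorem ps_mono (A : Lay) {i j : ℕ} (h : i ≤ j) : A.ps i ≤ A.ps j := by
  obtain ⟨d, rfl⟩ := Nat.exists_eq_add_of_le h
  rw [Lay.ps, Lay.ps, mul_add, tot_add]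
  omega

theorem lt_pb (hq : 0 < A.q) (hb : A.b0 ≤ b) : b < A.b0 + A.q * (A.pb b + 1) := by
  have := Nat.lt_mul_div_succ (b - A.b0) hq
  rw [Lay.pb]
  omega

theorem loP_le (hb : A.b0 ≤ b) : loP A b ≤ b := by
  have := Nat.mul_div_le (b - A.b0) A.q
  change A.b0 + A.q * ((b - A.b0) / A.q) ≤ b
  omega

/-- A block ends inside its panel. -/
theorem blk_le (hq : 0 < A.q) (hb : A.Has b0 y) :
    A.pos b0 y 0 + A.J b0 y ≤ A.ps (A.pb b0 + 1) := by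
  have := lt_pb hq hb.1
  obtain ⟨a1, -, a3⟩ := hb
  obtain ⟨d, hd⟩ : ∃ d, A.q * (A.pb b0 + 1) = b0 - A.b0 + (d + 1) :=
    ⟨A.q * (A.pb b0 + 1) - (b0 - A.b0) - 1, by omega⟩
  rw [Lay.ps, hd, tot_add, Nat.add_sub_cancel' a1, tot, Lay.pos, enc]
  interval_cases y <;> simp only [if_true, one_ne_zero, if_false] <;> omega

theorem fit_q (hf : A.fit b q = true) : 0 < A.q := by
  obtain ⟨a1, -, a3, a4⟩ := Lay.fit_iff.1 hf
  refine Nat.pos_of_ne_zero fun h => ?_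
  rw [h, zero_mul] at a3
  omega

theorem pb_le (hf : A.fit b q = true) (h : loP A b0 < b + q) : A.pb b0 ≤ A.pb b := by
  obtain ⟨-, -, a3, -⟩ := Lay.fit_iff.1 hf
  change A.b0 + A.q * A.pb b0 < b + q at h
  exact Nat.lt_add_one_iff.1 (Nat.lt_of_mul_lt_mul_left (a := A.q) (by omega))

theorem pan_st (hf : A.fit b q = true) {m : ℕ} (hm : m < tot A.J q b) :
    A.pan (A.st b + m) = A.pb b := by
  obtain ⟨a1, a2, -⟩ := Lay.fit_iff.1 hf
  obtain ⟨a3, a4, -⟩ := dec_spec A.J q b m hm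
  rw [Lay.pan, (Lay.mem_st a1 a2 hm).2, Lay.pb_eq hf a3 a4]

theorem ps_pan {j : ℕ} (hj : j < A.N) : A.ps (A.pan j) ≤ j := by
  conv_rhs => rw [← (Lay.mem_spec hj).2.2]
  exact (A.ps_le _).trans (A.st_le _ _ _)

/-- The rows below the triangle. -/
theorem upad_all (h : D.Ok) (hn : D.Ah.nq ≤ D.Ah.q * D.nh) {e : ℕ} {S : Scl} {w η : ℝ}
    (hf : upad D e S = true) (hS : S.Ok D.V D.kU) (he : e + 1 ≤ D.V)
    (h0 : S.c * S.K + 2 ^ (e + 2) ≤ 2 ^ D.V) (hw : 0 < w) (w1 : S.val * 2 ^ D.sU = w)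
    (hη : 2 ^ e + 1 ≤ w * η) {a k : ℕ} (ha : a < D.Ah.N) (hk : k < D.Ah.N)
    (ho : D.Ah.pan k < D.Ah.pan a) : |D.u (16 + a) k| ≤ η := by
  have η0 : 0 ≤ η := nonneg_of_mul_nonneg_right (le_trans (by positivity) hη) hw
  rw [Dat.u]
  split_ifs with hr
  swap
  · rwa [abs_zero]
  obtain ⟨k1, -, -⟩ := Lay.mem_spec hk
  have t := allR_spec hf (D.Ah.pan k) (Nat.zero_le _) (by rw [zero_add]; exact pb_lt hn k1.1 k1.2.1)
  simp only [strict_eq, Nat.add_eq, Nat.mul_eq, Nat.sub_eq] at t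
  obtain ⟨f1, f2⟩ := (bnd_iff _ _).1 t
  have q0 := fit_q f1
  have e1 : D.Ah.pb (D.Ah.b0 + D.Ah.q * D.Ah.pan k) = D.Ah.pan k := by
    rw [Lay.pb, Nat.add_sub_cancel_left, Nat.mul_div_cancel_left _ q0]
  have a1 := (ps_mono D.Ah (show D.Ah.pan k + 1 ≤ D.Ah.pan a from ho)).trans (ps_pan ha)
  have a2 := lt_pb q0 k1.1
  have a3 : D.Ah.b0 + D.Ah.q * D.Ah.pan k ≤ (D.Ah.mem k).1 := loP_le k1.1
  obtain ⟨m, m1, m2⟩ := Lay.st_of (q := Nat.min D.Ah.q (D.Ah.nq - D.Ah.q * D.Ah.pan k)) hk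
    (Nat.le_add_right _ _) a3 (by
      have := k1.2.1
      rw [mul_add, mul_one] at a2
      change _ < _ + min _ _
      change _ < _ + (D.Ah.q * D.Ah.pan k + _) at a2
      omega)
  have t2 := fin_sound (tRow_ok (n := D.cU (D.Ah.pan k)) hS (by
      have := h.U.at f1
      rwa [e1] at this ⊢) (by omega) f1) f2 he h0
    (j := a - D.Ah.ps (D.Ah.pan k + 1)) (Nat.zero_le _) (by omega) (by omega) m m1
  rw [← m2, show 16 + D.Ah.ps (D.Ah.pan k + 1) + (a - D.Ah.ps (D.Ah.pan k + 1)) = 16 + a by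
    omega] at t2
  refine le_of_mul_le_mul_left (le_trans (le_of_eq ?_) (t2.trans hη)) hw
  rw [← abs_of_pos hw, ← abs_mul, ← w1]
  congr 1
  field_simp

variable {P : Par} {T0 T1 : Rows} {dg : ℕ → ℕ} {M : ℕ → ℕ → ℕ → Rows} {R C : ℕ → ℕ → Rows}
  {G : Bool → Bool → Mc} {x : ℕ × ℕ × ℕ → Bool → Vc} {κ ε : ℝ} {K0 c e : ℕ}

/-- The pass PP: the field `pp`. -/
theorem pp_all (h : D.Ok) (hn : D.Ah.nq ≤ D.Ah.q * D.nh)
    (hT : Til P T0 T1 dg M R C D.Ah D.Ah G x x κ ε) {S SU S0 : Scl} {e0 : ℕ} {w w0 η : ℝ}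
    (hJ : Job (tchk P D.V K0 c e S T0 T1 dg M R C D.Ah (tPP D SU)) D.Ah D.Ah (loP D.Ah))
    (hS : S.Ok P.W P.E4 ∧ SU.Ok D.V D.kU ∧ K0 = c * (S.c * S.K + 2 * (SU.c * SU.K)) ∧ 0 < c ∧
      e + 1 ≤ D.V ∧ K0 + 2 ^ (e + 2) ≤ 2 ^ D.V)
    (hw : 0 < w ∧ S.val * κ = 2 * w ∧ SU.val * 2 ^ D.sU = -w ∧
      2 ^ e / c + (S.c / 2 ^ S.s * ε + 3) ≤ w * η)
    (hf : upad D e0 S0 = true) (h0 : S0.Ok D.V D.kU ∧ e0 + 1 ≤ D.V ∧
      S0.c * S0.K + 2 ^ (e0 + 2) ≤ 2 ^ D.V)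
    (hw0 : 0 < w0 ∧ S0.val * 2 ^ D.sU = w0 ∧ 2 ^ e0 + 1 ≤ w0 * η)
    {a k : ℕ} (ha : a < D.Ah.N) (hk : k < D.Ah.N) :
    |Ca.wo D.Ah.pan a k * pr6 G (x (D.Ah.mem a)) (x (D.Ah.mem k)) - D.u (16 + a) k| ≤ η := by
  obtain ⟨s1, s2, s3, s4, s5, s6⟩ := hS
  obtain ⟨w0, w1, w2, w3⟩ := hw
  rcases lt_or_ge (D.Ah.pan k) (D.Ah.pan a) with ho | ho
  · rw [Ca.wo, if_neg (by omega), if_neg (by omega), zero_mul, zero_sub, abs_neg]
    exact upad_all h hn hf h0.1 h0.2.1 h0.2.2 hw0.1 hw0.2.1 hw0.2.2 ha hk ho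
  have t := tchk_all hT hJ s1 s3 s4 s5 s6 (η := 2) (g := fun a k =>
    -((if D.Ah.pan a = D.Ah.pan k then 2 else 1) * w * D.u (16 + a) k))
    (fun b0 y b q hb hf hl => by
      have q0 := fit_q hf
      have a1 := (blk_le q0 hb).trans (ps_mono D.Ah (Nat.add_le_add_right (pb_le hf hl) 1))
      have a2 := (h.cU b 0 ⟨(Lay.fit_has hf).1, (Lay.fit_has hf).2, two_pos⟩).2
      have t1 : TOk D.V (tot D.Ah.J q b) (D.Ah.J b0 y) (tRow D.V D.kU SU D.Ah D.U b q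
          (Nat.add 16 (D.Ah.pos b0 y 0)) (D.Ah.J b0 y)) (SU.c * SU.K)
          (fun j m => -w * D.u (16 + D.Ah.pos b0 y j) (D.Ah.st b + m)) 1 :=
        (tRow_ok s2 (h.U.at hf) (by rw [Nat.add_eq]; omega) hf).congr (fun j hj m hm => by
          rw [Dat.u, pan_st hf hm, if_pos (by rw [← Lay.pos_add]; omega), ← w2, Nat.add_eq,
            add_assoc, Lay.pos_add]
          field_simp) le_rfl
      rw [tPP, strict_eq]
      refine TOk.cnd _ (fun k => ((tN_ok t1 2).congr (fun j hj m hm => ?_) (by norm_num)))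
        fun k => ?_
      · rw [pan_st hf hm, Lay.pan, (Lay.mem_pos hb hj).2, if_pos (Nat.eq_of_beq_eq_true k)]
        push_cast
        ring
      · rw [two_mul]
        refine (t1.seq (tK_ok (by omega))).congr (fun j hj m hm => ?_) (by norm_num)
        rw [pan_st hf hm, Lay.pan, (Lay.mem_pos hb hj).2, if_neg (Nat.ne_of_beq_eq_false k)]
        ring) ha hk (by
      have := loP_le (Lay.mem_spec hk).1.1
      exact le_trans (Nat.add_le_add_left (Nat.mul_le_mul_left _ ho) _) this)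
  rw [w1] at t
  have η0 : 0 ≤ w * η := (abs_nonneg _).trans (t.trans (by linarith))
  rw [Ca.wo]
  split_ifs with h1 h2
  · rw [if_neg h1.ne] at t
    refine le_of_mul_le_mul_left (le_trans (le_of_eq ?_) (t.trans (by linarith))) w0
    rw [← abs_of_pos w0, ← abs_mul, abs_of_pos w0]
    congr 1
    ring
  · rw [if_pos h2] at t
    refine le_of_mul_le_mul_left (a := 2 * w) (le_trans (le_of_eq ?_) (t.trans (by linarith)))
      (by positivity)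
    rw [← abs_of_pos (mul_pos two_pos w0), ← abs_mul, abs_of_pos (mul_pos two_pos w0)]
    congr 1
    ring
  · omega

end Pool.Agent.Work.MP_6bf1e5_an.H.Ps
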