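import Pool.Agent.Work.MP_6bf1e5_an.H.PassT
import Pool.Agent.Work.MP_6bf1e5_an.H.PassKLM
import Pool.Agent.Work.MP_6bf1e5_an.H.PassP
import Pool.Agent.Work.MP_6bf1e5_an.H.FldS
import Pool.Agent.Work.MP_6bf1e5_an.H.AngS

/-! The tables of the passes with tiles from their sources (owner helper89). -/

open Finset MeasureTheory Pool.Agent.Lib.KBlk Pool.Agent.Lib.KLA

namespace Pool.Agent.Work.MP_6bf1e5_an.H.Ins

open Gl Ca Ps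

/-- The scalar fields of the set `i`. -/
noncomputable def fl (i sc c s β : ℕ) : Sc := fun y => 2 ^ sc * Fs.evG Fs.env (Fs.gs i c s β) y

/-- The moments of the set `i`. -/
structure Mos (i sc K dm I : ℕ) (M : ℕ → ℕ → ℕ → Rows) : Prop where
  mom : ∀ c < 2, ∀ s < 3, ∀ β < 6, Mz 192 415 K 80 dm (M c s β)
    (mo volume (fl i sc c s β) (phA 1) th2 0 false false (s != 0) (β % 3 != 0))
  int : ∀ c < 2, ∀ s < 3, ∀ β < 6, Integrable (fl i sc c s β)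
  bd : ∀ c < 2, ∀ c' < 2,
    ∑ s ∈ range 3, ∑ s' ∈ range 3, ∫ y, |fl i sc c s (3 * c' + s') y| ≤ 2 ^ sc * I

/-- A family with its radial tables. -/
def Fm (K L a δ : ℕ) (e : Bool → ℕ) (x : ℕ × ℕ × ℕ → V6) (A : Lay) (R : ℕ → ℕ → Rows) : Prop :=
  ∀ b c, A.Has b c → Blk1 192 K 80 208 L (fun b => 2 * b + 1) (fun b => 2 * b) e (2 ^ a) δ x b c
    (A.J b c) (R b c)

/-- The conditions on the numbers. -/
def Sh (P : Par) (Q : Err) (A B : Lay) (a a' sc I δ δ' k ε : ℕ) : Prop :=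
  (P.W = 192 ∧ P.mK = 47 ∧ P.Ka = 2 ^ 95 ∧ Q.La = 2 ^ 94 ∧ Q.nK = 80 ∧ P.St - P.mA = 415) ∧
  (16 * P.dA = 80 ∧ 16 * P.cA = 208 ∧ 16 * P.dB = 80 ∧ 16 * P.cB = 208) ∧
  (A.b0 + A.nq ≤ 39 ∧ B.b0 + B.nq ≤ 39) ∧ k + (P.s1 + P.s2 + P.s3) = 3 + (a + a' + 2 * 94 + sc) ∧
  Q.e4 * 2 ^ (P.s1 + P.s2 + P.s3) + 8 * (2 ^ sc * I * (((Q.Lr + 16 * P.cA) * δ'
    + δ * (Q.Lc + 16 * P.cB + δ')) * (Q.La + (P.mK + 1)) ^ 2)) ≤ ε * 2 ^ (P.s1 + P.s2 + P.s3)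

instance (P : Par) (Q : Err) (A B : Lay) (a a' sc I δ δ' k ε : ℕ) :
    Decidable (Sh P Q A B a a' sc I δ δ' k ε) := by
  unfold Sh
  infer_instance

variable {P : Par} {A B : Lay} {i a a' sc I δ δ' k ε : ℕ} {M : ℕ → ℕ → ℕ → Rows}
  {R C : ℕ → ℕ → Rows} {x x' : ℕ × ℕ × ℕ → V6} {e e' : Bool → ℕ}

theorem til {Km dm K L K' L' : ℕ} (Q : Err) (hM : Mos i sc Km dm I M) (hR : Fm K L a δ e x A R)
    (hC : Fm K' L' a' δ' e' x' B C) (ok : Ok P Q) (h : Sh P Q A B a a' sc I δ δ' k ε)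
    (hk : i < 7 ∧ Km = P.Km ∧ dm = Q.dm ∧ K = P.Kr ∧ L = Q.Lr ∧ K' = P.Kc ∧ L' = Q.Lc)
    (he : ∀ b, e b = (Fs.sets i).2.1 b ∧ e' b = (Fs.sets i).2.2 b) :
    Til P Ang.T0 Ang.T1 Ang.dg M R C A B (Fs.sets i).1 x x' (2 ^ k) ε := by
  obtain ⟨⟨a1, a2, a3, a4, a5, a6⟩, ⟨b1, b2, b3, b4⟩, ⟨c1, c2⟩, d1, d2⟩ := h
  obtain ⟨hi, rfl, rfl, rfl, rfl, rfl, rfl⟩ := hk
  obtain rfl : e = _ := funext fun b => (he b).1
  obtain rfl : e' = _ := funext fun b => (he b).2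
  refine ⟨Q, 39, 94, Ang.an, Ang.Nb, fun b => 2 * b, _, _, fl i sc, 2 ^ sc, 2 ^ sc * I, 2 ^ a, 2 ^ a',
    δ, δ', by positivity, by positivity, by rw [a2]; exact Ang.an_ok, c1, c2, fun c hc =>
      ⟨Ang.src ok a1 a2 a3 a4 a5 (hM.int c hc) (by rw [a1, a6, a5]; exact hM.mom c hc),
        Fs.fld_set hi hc _, hM.bd c hc⟩, ?_, ?_, ?_, ?_⟩
  · rw [a1, b1, b2]
    exact hR
  · rw [a1, b3, b4]
    exact hC
  · rw [div_mul_eq_mul_div, eq_div_iff (by positivity), ← pow_add, d1,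
      show (4 : ℝ) = 2 ^ 2 by norm_num, show (8 : ℝ) = 2 ^ 3 by norm_num, ← pow_mul]
    simp only [pow_add]
  · have d3 : (Q.e4 : ℝ) * 2 ^ (P.s1 + P.s2 + P.s3) + 8 * (2 ^ sc * I * (((Q.Lr + 16 * P.cA) * δ'
        + δ * (Q.Lc + 16 * P.cB + δ')) * (Q.La + (P.mK + 1)) ^ 2))
        ≤ ε * 2 ^ (P.s1 + P.s2 + P.s3) := by exact_mod_cast d2
    rw [err, div_mul_eq_mul_div, add_div' _ _ _ (by positivity), div_le_iff₀ (by positivity)]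
    linarith

theorem Fm.is {K L : ℕ} (h : Fm K L a δ e x A R) (b y : ℕ) (hb : A.Has b y) (j : ℕ)
    (hj : j < A.J b y) : ∃ e y' R, Is e y' (2 * b) R (x (b, y, j)) :=
  let ⟨_, _, _, _, h1⟩ := h b y hb
  ⟨_, _, _, h1 j hj⟩

theorem rd_rowI (p b s : ℕ) (r : ℕ × ℕ) : Rd (Lt.rowI p b s r) :=
  rd_tau fun t => (Lt.chP b s r).eval t / t ^ p

/-- Tests with different angular indices are orthogonal. -/
theorem Fm.off {K L : ℕ} (h : Fm K L a δ e x A R)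
    (hx : ∀ d, Pb (x d false) (x d true)) : ∀ j < A.N, ∀ k < A.N, (A.mem k).1 ≠ (A.mem j).1 →
      pr6 (oI Lt.Dat.ov Lt.Dat.ou) (x (A.mem j)) (x (A.mem k)) = 0 :=
  off_zero (wt_of Lt.Dat.wv Lt.Dat.wu) (rd_rowI ..) (rd_rowI ..) (fun _ _ => xb_pb.2 (hx _)) h.is

end Pool.Agent.Work.MP_6bf1e5_an.H.Ins
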