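import Pool.Agent.Work.MP_6bf1e5_an.H.Sep
import Pool.Agent.Work.MP_6bf1e5_an.H.ResHl

/-! The Gegenbauer polynomials (owner helper84). -/

open scoped ContDiff ENNReal FourierTransform Real
open Set MeasureTheory Polynomial

namespace Pool.Agent.Work.MP_6bf1e5_an.H

theorem sp_geg_rec (b m : ℕ) : ((m : ℝ[X]) + 2) * geg b (m + 2) =
    (2 * m + 2 + b : ℝ[X]) * X * geg b (m + 1) - (m + b : ℝ[X]) * geg b m := by
  have h : ((m : ℝ[X]) + 2) * C (1 / (m + 2) : ℝ) = 1 := by
    have h1 : ((m : ℝ[X]) + 2) = C ((m : ℝ) + 2) := by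
      rw [map_add, map_natCast]; rfl
    rw [h1, ← C_mul, mul_one_div_cancel (by positivity), C_1]
  have h2 : C (2 * m + 2 + b : ℝ) = (2 * m + 2 + b : ℝ[X]) := by
    rw [map_add, map_add, map_mul, map_natCast, map_natCast]; rfl
  have h3 : C (m + b : ℝ) = (m + b : ℝ[X]) := by rw [map_add, map_natCast, map_natCast]
  rw [geg, ← mul_assoc, h, one_mul, h2, h3]

theorem sp_cast_ne (m : ℕ) : ((m : ℝ[X]) + 2) ≠ 0 := by
  have h1 : ((m : ℝ[X]) + 2) = C ((m : ℝ) + 2) := by
    rw [map_add, map_natCast]; rfl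
  rw [h1]
  exact C_ne_zero.2 (by positivity)

/-- The two first-order relations between neighbouring polynomials. -/
theorem sp_geg_der (b m : ℕ) :
    derivative (geg b (m + 1)) = X * derivative (geg b m) + (m + b : ℝ[X]) * geg b m ∧
      X * derivative (geg b (m + 1)) - derivative (geg b m) = (m + 1 : ℝ[X]) * geg b (m + 1) := by
  induction m with
  | zero => simp [geg, mul_comm]
  | succ m ih =>
    obtain ⟨hD, hE⟩ := ih
    have h := sp_geg_rec b m
    have h' := congrArg derivative h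
    simp only [derivative_mul, derivative_sub, derivative_add, derivative_natCast, derivative_X,
      derivative_ofNat, zero_mul, mul_zero, add_zero, zero_add, mul_one] at h'
    have hD' : derivative (geg b (m + 2)) =
        X * derivative (geg b (m + 1)) + (m + 1 + b : ℝ[X]) * geg b (m + 1) := by
      apply mul_left_cancel₀ (sp_cast_ne m)
      linear_combination h' + (m + b : ℝ[X]) * hE
    refine ⟨by push_cast; exact hD', ?_⟩
    push_cast
    linear_combination X * hD' - h + X * hE - hD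

theorem geg_ode (b m : ℕ) : (1 - X ^ 2) * derivative (derivative (geg b m))
    - C (b + 1 : ℝ) * X * derivative (geg b m) + C (m * (m + b) : ℝ) * geg b m = 0 := by
  have h2 : C (b + 1 : ℝ) = (b + 1 : ℝ[X]) := by rw [map_add, map_natCast, C_1]
  have h3 : C (m * (m + b) : ℝ) = (m * (m + b) : ℝ[X]) := by
    rw [map_mul, map_add, map_natCast, map_natCast]
  rw [h2, h3]
  cases m with
  | zero => simp [geg]
  | succ m =>
    obtain ⟨hD, hE⟩ := sp_geg_der b m
    have hA : (1 - X ^ 2) * derivative (geg b (m + 1)) =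
        -((m + 1 : ℝ[X]) * X * geg b (m + 1)) + (m + b : ℝ[X]) * geg b m := by
      linear_combination hD - X * hE
    have h' := congrArg derivative hA
    simp only [derivative_mul, derivative_sub, derivative_add, derivative_natCast, derivative_X,
      derivative_neg, derivative_one, derivative_X_sq, zero_mul, add_zero, zero_add, mul_one,
      zero_sub] at h'
    have h4 : (C 2 : ℝ[X]) = 2 := rfl
    rw [h4] at h'
    push_cast
    linear_combination h' - (m + b : ℝ[X]) * hE

theorem sp_geg_lead {b : ℕ} (hb : 0 < b) (m : ℕ) :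
    ((geg b m).natDegree ≤ m ∧ 0 < (geg b m).coeff m) ∧
      (geg b (m + 1)).natDegree ≤ m + 1 ∧ 0 < (geg b (m + 1)).coeff (m + 1) := by
  induction m with
  | zero =>
    refine ⟨by simp [geg], ?_, ?_⟩
    · exact (natDegree_C_mul_le _ _).trans natDegree_X_le
    · simpa [geg] using hb
  | succ m ih =>
    obtain ⟨⟨h1, -⟩, h3, h4⟩ := ih
    refine ⟨⟨h3, h4⟩, ?_, ?_⟩
    · rw [geg]
      refine (natDegree_C_mul_le _ _).trans ((natDegree_sub_le _ _).trans (max_le ?_ ?_))
      · rw [mul_assoc]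
        refine (natDegree_C_mul_le _ _).trans (natDegree_mul_le.trans ?_)
        have := natDegree_X_le (R := ℝ)
        omega
      · exact (natDegree_C_mul_le _ _).trans (by omega)
    · rw [geg, coeff_C_mul, coeff_sub, mul_assoc, coeff_C_mul, coeff_C_mul, coeff_X_mul,
        coeff_eq_zero_of_natDegree_lt (show (geg b m).natDegree < m + 1 + 1 by omega)]
      rw [mul_zero, sub_zero]
      positivity

theorem geg_degree {b : ℕ} (hb : 0 < b) (m : ℕ) : (geg b m).degree = m := by
  obtain ⟨⟨h1, h2⟩, -⟩ := sp_geg_lead hb m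
  exact degree_eq_of_le_of_coeff_ne_zero (degree_le_of_natDegree_le h1) h2.ne'

theorem sp_geg_eval (b m : ℕ) (x : ℝ) : (geg b (m + 2)).eval x =
    ((2 * m + 2 + b) * (x * (geg b (m + 1)).eval x) - (m + b) * (geg b m).eval x) / (m + 2) := by
  rw [geg]
  simp only [eval_mul, eval_sub, eval_C, eval_X]
  ring

theorem sp_geg_eval' (b m : ℕ) (x : ℝ) : (derivative (geg b (m + 2))).eval x =
    ((2 * m + 2 + b) * (x * (derivative (geg b (m + 1))).eval x + (geg b (m + 1)).eval x)
      - (m + b) * (derivative (geg b m)).eval x) / (m + 2) := by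
  rw [geg]
  simp only [derivative_mul, derivative_sub, derivative_C, derivative_X, eval_mul, eval_sub,
    eval_add, eval_C, eval_X, eval_zero, eval_one]
  ring

theorem sp_Hl_eq (l : ℕ) {y : R3} (hy : y ≠ 0) :
    Hl l y = ‖y‖ ^ l * (geg 1 l).eval (y 2 / ‖y‖) ∧
      Hl (l + 1) y = ‖y‖ ^ (l + 1) * (geg 1 (l + 1)).eval (y 2 / ‖y‖) := by
  have hn : ‖y‖ ≠ 0 := norm_ne_zero_iff.2 hy
  induction l with
  | zero =>
    refine ⟨by simp [Hl, geg], ?_⟩
    simp only [Hl, geg, eval_mul, eval_C, eval_X]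
    field_simp
    simp
  | succ l ih =>
    refine ⟨ih.2, ?_⟩
    rw [sp_geg_eval, Hl]
    beta_reduce
    rw [ih.1, ih.2]
    push_cast
    field_simp
    ring

theorem Hl_eq (l : ℕ) {y : R3} (hy : y ≠ 0) :
    Hl l y = ‖y‖ ^ l * (geg 1 l).eval (y 2 / ‖y‖) := (sp_Hl_eq l hy).1

theorem sp_bl_eq (l : ℕ) {y : R3} (hy : y ≠ 0) :
    ‖y‖ * bl l y = ‖y‖ ^ l * (derivative (geg 1 l)).eval (y 2 / ‖y‖) ∧
      bl (l + 1) y = ‖y‖ ^ l * (derivative (geg 1 (l + 1))).eval (y 2 / ‖y‖) := by
  have hn : ‖y‖ ≠ 0 := norm_ne_zero_iff.2 hy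
  induction l with
  | zero => simp [bl, geg]
  | succ l ih =>
    refine ⟨by rw [ih.2]; ring, ?_⟩
    have h := ih.1
    rw [sp_geg_eval', bl]
    beta_reduce
    rw [ih.2, Hl_eq _ hy, sq, mul_assoc ‖y‖, h]
    push_cast
    field_simp
    ring

theorem bl_eq (l : ℕ) {y : R3} (hy : y ≠ 0) :
    bl (l + 1) y = ‖y‖ ^ l * (derivative (geg 1 (l + 1))).eval (y 2 / ‖y‖) := (sp_bl_eq l hy).2

end Pool.Agent.Work.MP_6bf1e5_an.H
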