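import Pool.Agent.Work.MP_6bf1e5_an.H.Fr
import Pool.Agent.Work.MP_6bf1e5_an.H.SepG
import Pool.Agent.Lib.KBlk.AngD
import Pool.Agent.Lib.KBlk.Sem

/-! The angular tables. -/

open scoped Real
open Finset Pool.Agent.Lib.KBlk Pool.Agent.Lib.KLA

namespace Pool.Agent.Work.MP_6bf1e5_an.H

/-- The scaled coefficients of `P_(2 * hf b) (cos x)` and of its derivative. -/
noncomputable def anH (p : ℕ) (N hf : ℕ → ℕ) (e : Bool) (k b : ℕ) : ℝ :=
  (if e then -(2 * k / N b : ℝ) else 1) * (2 ^ p * (lgn k (hf b) / 2 ^ (4 * hf b)))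

/-- The case of the degrees `2 * b + 2`. -/
noncomputable def anP (p : ℕ) (N : ℕ → ℕ) : Bool → ℕ → ℕ → ℝ := anH p N fun b => b + 1

/-- The coefficients of `(1 - x) ^ (-1/2)`. -/
noncomputable def ja_g (i : ℕ) : ℝ := i.centralBinom / 4 ^ i

theorem ja_g_succ (i : ℕ) : (2 * i + 2) * ja_g (i + 1) = (2 * i + 1) * ja_g i := by
  have h : ((i : ℝ) + 1) * (i + 1).centralBinom = 2 * (2 * i + 1) * i.centralBinom := by
    exact_mod_cast Nat.succ_mul_centralBinom_succ i
  simp only [ja_g, pow_succ]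
  field_simp
  linarith

open PowerSeries in
theorem ja_sum {u v : ℂ} {x : ℝ} (h : u * v = 1) (hx : u + v = 2 * x) (l : ℕ) :
    ∑ p ∈ antidiagonal l, ja_g p.1 * u ^ p.1 * (ja_g p.2 * v ^ p.2) =
      ((geg 1 l).eval x : ℝ) := by
  set G : ℂ → ℂ⟦X⟧ := fun u => mk fun i => ja_g i * u ^ i with hG
  have d : ∀ u, 2 * (1 - C u * X) * d⁄dX ℂ (G u) = C u * G u := fun u => by
    have e : 2 * (1 - C u * X) * d⁄dX ℂ (G u) =
        C 2 * d⁄dX ℂ (G u) - C (2 * u) * (X * d⁄dX ℂ (G u)) := by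
      rw [map_mul, map_ofNat]
      ring
    ext n
    have g : ((2 * n + 2 : ℂ)) * ja_g (n + 1) = (2 * n + 1) * ja_g n := by
      exact_mod_cast congrArg Complex.ofReal (ja_g_succ n)
    rw [e]
    cases n with
    | zero =>
      simp only [map_sub, coeff_C_mul, coeff_zero_X_mul, coeff_derivative, hG, coeff_mk]
      push_cast at g ⊢
      linear_combination u * g
    | succ n =>
      simp only [map_sub, coeff_C_mul, coeff_succ_X_mul, coeff_derivative, hG, coeff_mk]
      push_cast at g ⊢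
      linear_combination u ^ (n + 2) * g
  set F := G u * G v with hF
  have c : ∀ l, coeff l F = ∑ p ∈ antidiagonal l, ja_g p.1 * u ^ p.1 * (ja_g p.2 * v ^ p.2) :=
    fun l => by simp only [hF, hG, coeff_mul, coeff_mk]
  have o : d⁄dX ℂ F - C (2 * x : ℂ) * (X * d⁄dX ℂ F) + X * (X * d⁄dX ℂ F) =
      C (x : ℂ) * F - X * F := by
    have e1 : C u * C v = (1 : ℂ⟦X⟧) := by rw [← map_mul, h, map_one]
    have e2 : C u + C v = (2 * C (x : ℂ) : ℂ⟦X⟧) := by rw [← map_add, hx, map_mul, map_ofNat]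
    have e3 : (2 : ℂ⟦X⟧) ≠ 0 := fun h => by simpa [map_ofNat] using congrArg constantCoeff h
    refine mul_left_cancel₀ e3 ?_
    rw [hF, Derivation.leibniz, map_mul, map_ofNat, smul_eq_mul, smul_eq_mul]
    linear_combination (1 - C v * X) * G v * d u + (1 - C u * X) * G u * d v
      + (2 * X * (G u * d⁄dX ℂ (G v) + G v * d⁄dX ℂ (G u)) + G u * G v) * e2
      - (2 * X ^ 2 * (G u * d⁄dX ℂ (G v) + G v * d⁄dX ℂ (G u)) + 2 * X * G u * G v) * e1
  have t : ∀ l, coeff l (X * d⁄dX ℂ F) = l * coeff l F := fun l => by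
    cases l with
    | zero => simp
    | succ l =>
      rw [coeff_succ_X_mul, coeff_derivative]
      push_cast
      ring
  rw [← c]
  induction l using Nat.twoStepInduction with
  | zero => simp [c, ja_g, geg]
  | one =>
    have := congrArg (coeff 0) o
    simp only [map_add, map_sub, coeff_C_mul, coeff_zero_X_mul, coeff_derivative] at this
    rw [c 0] at this
    simpa [ja_g, geg] using this
  | more l h0 h1 =>
    have := congrArg (coeff (l + 1)) o
    simp only [map_add, map_sub, coeff_C_mul, coeff_succ_X_mul, t, coeff_derivative] at this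
    have h2 : (l : ℂ) + 2 ≠ 0 := by exact_mod_cast (by omega : l + 2 ≠ 0)
    rw [sp_geg_eval]
    push_cast at this ⊢
    rw [← h0, ← h1, eq_div_iff h2]
    linear_combination this

theorem ja_Pa (l : ℕ) (θ : ℝ) : Pa l θ =
    ∑ i ∈ range (l + 1), ja_g i * ja_g (l - i) * Real.cos ((i - (l - i : ℕ)) * θ) := by
  have := congrArg Complex.re (ja_sum (u := Complex.exp (θ * Complex.I))
    (v := Complex.exp (-(θ * Complex.I))) (x := Real.cos θ)
    (by rw [← Complex.exp_add, add_neg_cancel, Complex.exp_zero])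
    (by rw [Complex.ofReal_cos, Complex.two_cos, neg_mul]) l)
  rw [Complex.ofReal_re, Complex.re_sum, Nat.sum_antidiagonal_eq_sum_range_succ_mk] at this
  rw [Pa, ← this]
  refine sum_congr rfl fun i _ => ?_
  rw [← Complex.exp_ofReal_mul_I_re, ← Complex.re_ofReal_mul, ← Complex.exp_nat_mul,
    ← Complex.exp_nat_mul, mul_mul_mul_comm, ← Complex.exp_add]
  congr 2
  · push_cast
    ring
  · congr 1
    push_cast
    ring

theorem ja_cbn (i : ℕ) : cbn i = i.centralBinom := by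
  induction i with
  | zero => rfl
  | succ i ih =>
    change 2 * (2 * i + 1) * cbn i / (i + 1) = _
    rw [ih, ← Nat.succ_mul_centralBinom_succ, Nat.mul_div_cancel_left _ i.succ_pos]

theorem ja_lgn (k h : ℕ) : (lgn k h / 2 ^ (4 * h) : ℝ) =
    if k ≤ h then wk k * (ja_g (h - k) * ja_g (h + k)) else 0 := by
  simp only [lgn, cnd_eq, Nat.ble_eq, Nat.beq_eq, ja_cbn, Nat.add_eq, Nat.sub_eq, Nat.mul_eq, wk]
  split_ifs with h0 h'
  all_goals try simp only [Nat.cast_zero, zero_div]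
  all_goals
    have e : (2 : ℝ) ^ (4 * h) = 4 ^ (h - k) * 4 ^ (h + k) := by
      rw [← pow_add, show (4 : ℝ) = 2 ^ 2 by norm_num, ← pow_mul]
      congr 1
      omega
    rw [e, ja_g, ja_g]
    push_cast
    field_simp

theorem anH_zero {p k b : ℕ} (N hf : ℕ → ℕ) (e : Bool) (h : hf b < k) : anH p N hf e k b = 0 := by
  rw [anH, ja_lgn, if_neg (not_le.2 h), mul_zero, mul_zero]

theorem ts_PaH {p n b : ℕ} (N : ℕ → ℕ) {hf : ℕ → ℕ} (hn : hf b < n) (θ : ℝ) :
    ts false n (fun k => anH p N hf false k b) (2 * θ) = 2 ^ p * Pa (2 * hf b) θ := by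
  obtain ⟨m, rfl⟩ := Nat.exists_eq_add_of_lt hn
  rw [ts, show hf b + m + 1 = hf b + 1 + m by ring, sum_range_add,
    sum_eq_zero (s := range m) fun k _ => by rw [anH_zero N hf _ (by omega), zero_mul], add_zero,
    ja_Pa, show 2 * hf b + 1 = hf b + (hf b + 1) by ring, sum_range_add _ (hf b) (hf b + 1),
    ← sum_range_reflect _ (hf b), sum_range_succ' _ (hf b), sum_range_succ' _ (hf b), ← add_assoc,
    ← sum_add_distrib, mul_add, mul_sum]
  simp only [anH, ja_lgn, cs, wk]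
  generalize hf b = h
  congr 1
  · refine sum_congr rfl fun k hk => ?_
    obtain ⟨j, rfl⟩ := Nat.exists_eq_add_of_lt (mem_range.1 hk)
    rw [if_pos (show k + 1 ≤ k + j + 1 by omega), show k + j + 1 - (k + 1) = j by omega,
      show k + j + 1 - 1 - k = j by omega,
      show 2 * (k + j + 1) - j = k + j + 1 + (k + 1) by omega,
      show 2 * (k + j + 1) - (k + j + 1 + (k + 1)) = j by omega, ← Real.cos_neg ((j - _) * θ)]
    push_cast
    ring_nf
  · rw [show 2 * h - (h + 0) = h by omega]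
    simp

theorem ts_dPaH {p n b : ℕ} (N : ℕ → ℕ) {hf : ℕ → ℕ} (hn : hf b < n) (θ : ℝ) :
    ts true n (fun k => anH p N hf true k b) (2 * θ) = 2 ^ p / N b * dPa (2 * hf b) θ := by
  have h1 : HasDerivAt (fun θ => 2 ^ p * Pa (2 * hf b) θ) (2 ^ p * dPa (2 * hf b) θ) θ := by
    have := (((geg 1 (2 * hf b)).hasDerivAt (Real.cos θ)).comp θ (Real.hasDerivAt_cos θ)).const_mul
      ((2 : ℝ) ^ p)
    rw [mul_comm _ (-Real.sin θ)] at this
    exact this
  have h2 : HasDerivAt (fun θ => ts false n (fun k => anH p N hf false k b) (2 * θ))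
      (∑ k ∈ range n, anH p N hf false k b * (-Real.sin (k * (2 * θ)) * (k * (2 * 1)))) θ :=
    HasDerivAt.fun_sum fun k _ =>
      ((((hasDerivAt_id θ).const_mul 2).const_mul (k : ℝ)).cos).const_mul _
  simp only [ts_PaH N hn] at h2
  rw [div_mul_eq_mul_div, h1.unique h2, ts, sum_div]
  refine sum_congr rfl fun k _ => ?_
  simp [anH, cs]
  ring

/-- The two identities for all columns. -/
theorem an_anH {p m nb : ℕ} {N hf : ℕ → ℕ} (hm : ∀ b < nb, hf b < m) (hN : ∀ b < nb, 0 < N b) :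
    ∀ b < nb, ∀ θ, ts false m (fun k => anH p N hf false k b) (2 * θ) = 2 ^ p * Pa (2 * hf b) θ ∧
      N b * ts true m (fun k => anH p N hf true k b) (2 * θ) = 2 ^ p * dPa (2 * hf b) θ :=
  fun b hb θ => by
    have : (N b : ℝ) ≠ 0 := by exact_mod_cast (hN b hb).ne'
    rw [ts_PaH N (hm b hb), ts_dPaH N (hm b hb)]
    exact ⟨rfl, by field_simp⟩

theorem ts_Pa {p n b : ℕ} (N : ℕ → ℕ) (hn : b + 1 < n) (θ : ℝ) :
    ts false n (fun k => anP p N false k b) (2 * θ) = 2 ^ p * Pa (2 * b + 2) θ :=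
  ts_PaH N (hf := fun b => b + 1) hn θ

theorem ts_dPa {p n b : ℕ} (N : ℕ → ℕ) (hn : b + 1 < n) (θ : ℝ) :
    ts true n (fun k => anP p N true k b) (2 * θ) = 2 ^ p / N b * dPa (2 * b + 2) θ :=
  ts_dPaH N (hf := fun b => b + 1) hn θ

theorem ja_row {W K : ℕ} {e : Bool} {f : ℕ → ℕ} : ∀ {q : ℕ}, (∀ b < q, f b ≤ K) →
    (rowF W K e f q : ℤ) = pk W q fun b => (if e then -(f b : ℤ) else f b) + K
  | 0, _ => rfl
  | q + 1, h => by
    change ((rowF W K e f q + Nat.shiftLeft (cnd e (K - f q) (K + f q)) (W * q) : ℕ) : ℤ) = _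
    rw [Nat.cast_add, ja_row fun b hb => h b (by omega), shl_eq, pk, pk, sum_range_succ]
    have := h q q.lt_succ_self
    cases e <;> simp [cnd, Nat.cast_sub this] <;> ring

theorem ja_sumF (f : ℕ → ℕ) : ∀ q, sumF f q = ∑ k ∈ range q, f k
  | 0 => rfl
  | q + 1 => by rw [sum_range_succ, ← ja_sumF f q]; rfl

theorem ja_ang (p : ℕ) {N hf : ℕ → ℕ} (e : Bool) (k : ℕ) {b : ℕ} (h : 1 ≤ N b) :
    |((if e then -(ang p N hf e k b : ℤ) else ang p N hf e k b : ℤ) : ℝ) - anH p N hf e k b| ≤ 1 := by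
  have key : ∀ x y : ℕ, |((x / y : ℕ) : ℝ) - x / y| ≤ 1 := fun x y => by
    rw [← Nat.floor_div_eq_div (K := ℝ), abs_sub_comm]
    exact (Nat.abs_sub_floor_le (by positivity))
  have h0 : (N b : ℝ) ≠ 0 := by positivity
  have a : ang p N hf e k b =
      cnd e (2 * k) 1 * lgn k (hf b) * 2 ^ p / (cnd e (N b) 1 * 2 ^ (4 * hf b)) := by
    rw [ang, shl_eq, shl_eq]
    rfl
  have := key (cnd e (2 * k) 1 * lgn k (hf b) * 2 ^ p) (cnd e (N b) 1 * 2 ^ (4 * hf b))
  rw [← a] at this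
  generalize ang p N hf e k b = z at this
  cases e
  · convert this using 2
    simp [anH, cnd]
    ring
  · rw [← abs_neg]
    convert this using 2
    simp [anH, cnd]
    ring

/-- A stored table that passes the check holds the coefficients. -/
theorem angChk_sound {W K L p nb n : ℕ} {N hf : ℕ → ℕ} {e : Bool} {T : Rows}
    (h : angChk W K L p N hf e nb n T = true) : Tb W nb K n L T (anH p N hf e) := by
  simp only [angChk, bnd_iff, Nat.beq_eq, Nat.ble_eq] at h
  obtain ⟨⟨h1, h2⟩, h3, h4⟩ := h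
  have h5 : ∀ b < nb, 1 ≤ N b ∧ ∑ k ∈ range n, ang p N hf e k b ≤ L := fun b hb => by
    simpa only [bnd_iff, Nat.ble_eq, ja_sumF] using allR_spec h4 b b.zero_le (by omega)
  have h6 : ∀ k < n, ∀ b < nb, ang p N hf e k b ≤ K := fun k hk b hb =>
    ((single_le_sum (f := fun k => ang p N hf e k b) (fun _ _ => Nat.zero_le _)
      (mem_range.2 hk)).trans (h5 b hb).2).trans h2
  have a : ∀ k b, |(if e then -(ang p N hf e k b : ℤ) else ang p N hf e k b : ℤ)| = ang p N hf e k b :=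
    fun k b => by cases e <;> simp
  refine ⟨fun k b => if e then -(ang p N hf e k b : ℤ) else ang p N hf e k b, ⟨h1, fun k hk => ⟨?_,
    fun b hb => ?_⟩⟩, fun b hb => ?_, fun k _ b hb => ja_ang p e k (h5 b hb).1⟩
  · rw [Nat.beq_eq.mp (allR_spec h3 k k.zero_le (by omega)), ja_row (h6 k hk)]
  · rw [a]
    exact_mod_cast h6 k hk b hb
  · simp only [a]
    exact_mod_cast (h5 b hb).2

end Pool.Agent.Work.MP_6bf1e5_an.H
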