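import Pool.Agent.Work.MP_6bf1e5_an.H.JetA

/-! Weighted norms of the separated fields `jT`, `jM`. -/

open scoped Real
open Set MeasureTheory Polynomial

namespace Pool.Agent.Work.MP_6bf1e5_an.H.Jf

variable {k l : ℕ} {a b R : ℝ[X]}

theorem nw_rad : ∫ r in Ioi (0 : ℝ), r ^ 2 * ((1 + 1 * r ^ 2) ^ (-(1 / 4) : ℝ)) ^ 8 ≤ 1 := by
  have h := (FrI_sub one_pos fun t => t ^ 8).2
  rw [one_pow 2] at h
  rw [← h]
  have h1 : ∫ t in Ioo (0 : ℝ) 1, 2 * t = 1 := by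
    rw [← integral_Ioc_eq_integral_Ioo, ← intervalIntegral.integral_of_le zero_le_one,
      intervalIntegral.integral_const_mul, integral_id]
    norm_num
  refine (integral_mono_of_nonneg ?_ ?_ ?_).trans h1.le
  · filter_upwards [ae_restrict_mem measurableSet_Ioo] with t ht
    have := ht.1
    positivity
  · exact ((continuous_const.mul continuous_id).integrableOn_Icc (a := 0) (b := 1)).mono_set
      Ioo_subset_Icc_self
  · filter_upwards [ae_restrict_mem measurableSet_Ioo] with t ht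
    have h0 := ht.1
    have h2 : √(1 - t ^ 4) ≤ 1 := Real.sqrt_le_one.2 (sub_le_self _ (by positivity))
    have h3 : t ^ 8 * (2 * √(1 - t ^ 4) / (1 ^ 3 * t ^ 7)) = 2 * t * √(1 - t ^ 4) := by
      field_simp
    rw [h3]
    exact mul_le_of_le_one_right (by positivity) h2

theorem nw_rad' (l : ℕ) : ∫ r in Ioi (0 : ℝ),
    r ^ (l + l + 2) * (((1 + 1 * r ^ 2) ^ (-(1 / 4) : ℝ)) ^ 8 / r ^ (l + l)) ≤ 1 := by
  refine (setIntegral_congr_fun measurableSet_Ioi fun r hr => ?_).trans_le nw_rad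
  have : r ≠ 0 := hr.out.ne'
  simp only [pow_add]
  field_simp

theorem nw_Pa (l : ℕ) : ∫ y, tau 1 y ^ 8 * Pa l (pa y) ^ 2 ≤ 4 * π / (2 * l + 1) := by
  have h1 := polar (Q := fun y => Hl l y * Hl l y) ((hom_Hl l).mul (hom_Hl l)).hom
    fun r => ((1 + 1 * r ^ 2) ^ (-(1 / 4) : ℝ)) ^ 8 / r ^ (l + l)
  rw [sph_Hl, if_pos rfl] at h1
  refine (Eq.trans (integral_congr_ae (ae_off.mono fun y hy => ?_)) h1).trans_le
    (mul_le_of_le_one_right (by positivity) (nw_rad' l))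
  have := hy.norm_pos.ne'
  simp only [hy.Hl_eq, tau, pow_add]
  field_simp

theorem nw_dPa (l : ℕ) :
    ∫ y, tau 1 y ^ 8 * dPa l (pa y) ^ 2 ≤ 4 * π * (l * (l + 1)) / (2 * l + 1) := by
  have h1 := int_TT l l fun r => ((1 + 1 * r ^ 2) ^ (-(1 / 4) : ℝ)) ^ 8 / r ^ (l + l)
  rw [if_pos rfl, two_mul] at h1
  have h3 : nT l = 4 * π * (l * (l + 1)) / (2 * l + 1) := by
    rw [nT, mul_assoc (4 * π)]
  rw [h3] at h1
  refine (Eq.trans (integral_congr_ae (ae_off.mono fun y hy => ?_)) h1).trans_le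
    (mul_le_of_le_one_right (by positivity) (nw_rad' l))
  have h0 := hy.norm_pos.ne'
  have h2 : dot (TT l) (TT l) y = (rc y * bl l y) * (rc y * bl l y) := by
    have := rc_sq y
    simp only [dot, TT_eq, Jv, Fin.sum_univ_three]
    simp
    linear_combination (-(bl l y * bl l y)) * this
  simp only [h2, hy.bl_eq, tau, pow_add]
  field_simp

theorem nw_int {B : ℝ → ℝ} (hB : Continuous B) : Integrable fun y => tau 1 y ^ 8 * B (pa y) := by
  refine integrable_sep_one (A := fun t => t ^ 8) ?_ hB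
  refine (((by fun_prop : Continuous fun t : ℝ => 2 * t * √(1 - t ^ 4)).integrableOn_Icc
    (a := 0) (b := 1)).mono_set Ioo_subset_Icc_self).congr_fun (fun t ht => ?_) measurableSet_Ioo
  have := ht.1.ne'
  field_simp

theorem nw_sq {d : ℝ} (hR : ∀ φ, |R.eval ((1 + Real.cos φ) / 2)| ≤ d) (y : R3) :
    tp 1 (8 : ℕ) R y ^ 2 ≤ tau 1 y ^ 8 * (tau 1 y ^ 8 * d ^ 2) := by
  have h0 := tau_pos one_pos y
  have h1 := tau_le_one one_pos y
  have h := hR (Real.arccos (2 * tau 1 y - 1))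
  rw [Real.cos_arccos (by linarith) (by linarith), show (1 + (2 * tau 1 y - 1)) / 2 = tau 1 y by ring]
    at h
  rw [tp, Real.rpow_natCast, mul_pow, ← mul_assoc, ← sq, ← sq_abs (R.eval _)]
  gcongr

theorem nw_jM0 {ou : Sc} {L d d' : ℝ} (h0 : ∀ᵐ y, 0 ≤ ou y ∧ ou y * tau 1 y ^ 8 ≤ L)
    (ha : ∀ φ, |a.eval ((1 + Real.cos φ) / 2)| ≤ d)
    (hb : ∀ φ, |b.eval ((1 + Real.cos φ) / 2)| ≤ d') :
    nw ou (jM k 8 a b) ≤ 4 * π * L * (d ^ 2 + lK k * d' ^ 2) / (4 * k + 5) := by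
  obtain ⟨z, z1, z2⟩ := h0.exists
  have hL : 0 ≤ L := le_trans (by positivity) z2
  have i1 := (nw_int ((cont_Pa (2 * k + 2)).pow 2)).const_mul (L * d ^ 2)
  have i2 := (nw_int ((cont_dPa (2 * k + 2)).pow 2)).const_mul (L * d' ^ 2)
  refine (integral_mono_of_nonneg ?_ (i1.add i2) ?_).trans ?_
  · filter_upwards [h0] with y h
    exact mul_nonneg h.1 (Finset.sum_nonneg fun i _ => mul_self_nonneg _)
  · filter_upwards [h0, ae_off] with y h hy
    have k1 : kA 1 y ^ 2 ≤ 1 := pow_le_one₀ (kA_nonneg _ _) (kA_le_one _ _)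
    have k2 : ∀ {R : ℝ[X]} {d : ℝ}, (∀ φ, |R.eval ((1 + Real.cos φ) / 2)| ≤ d) →
        ou y * (kA 1 y * tp 1 (8 : ℕ) R y) ^ 2 ≤ L * d ^ 2 * tau 1 y ^ 8 := fun {R d} hR => by
      have h1 : (kA 1 y * tp 1 (8 : ℕ) R y) ^ 2 ≤ tau 1 y ^ 8 * (tau 1 y ^ 8 * d ^ 2) := by
        rw [mul_pow]
        exact (mul_le_of_le_one_left (sq_nonneg _) k1).trans (nw_sq hR y)
      nlinarith [mul_le_mul_of_nonneg_left h1 h.1,
        mul_le_mul_of_nonneg_right h.2 (show 0 ≤ tau 1 y ^ 8 * d ^ 2 by positivity)]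
    simp only [dot, ← sq, hy.jM_eq, rF, hy.sq_vF, Fin.sum_univ_three, Pi.add_apply, Pi.pow_apply,
      Matrix.cons_val, Pi.zero_apply]
    nlinarith [mul_le_mul_of_nonneg_right (k2 ha) (sq_nonneg (Pa (2 * k + 2) (pa y))),
      mul_le_mul_of_nonneg_right (k2 hb) (sq_nonneg (dPa (2 * k + 2) (pa y)))]
  · rw [integral_add' i1 i2, integral_const_mul, integral_const_mul]
    have h1 := mul_le_mul_of_nonneg_left (nw_Pa (2 * k + 2)) (show 0 ≤ L * d ^ 2 by positivity)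
    have h2 := mul_le_mul_of_nonneg_left (nw_dPa (2 * k + 2)) (show 0 ≤ L * d' ^ 2 by positivity)
    refine (add_le_add h1 h2).trans_eq ?_
    rw [lK]
    push_cast
    field_simp
    ring

theorem nw_jT0 {ou : Sc} {L d : ℝ} (h0 : ∀ᵐ y, 0 ≤ ou y ∧ ou y * tau 1 y ^ 8 ≤ L)
    (hR : ∀ φ, |R.eval ((1 + Real.cos φ) / 2)| ≤ d) :
    nw ou (jT k 8 R) ≤ 4 * π * L * (lK k * d ^ 2) / (4 * k + 5) := by
  obtain ⟨z, z1, z2⟩ := h0.exists
  have hL : 0 ≤ L := le_trans (by positivity) z2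
  have i2 := (nw_int ((cont_dPa (2 * k + 2)).pow 2)).const_mul (L * d ^ 2)
  refine (integral_mono_of_nonneg ?_ i2 ?_).trans ?_
  · filter_upwards [h0] with y h
    exact mul_nonneg h.1 (Finset.sum_nonneg fun i _ => mul_self_nonneg _)
  · filter_upwards [h0, ae_off] with y h hy
    have k2 : ou y * tp 1 (8 : ℕ) R y ^ 2 ≤ L * d ^ 2 * tau 1 y ^ 8 := by
      nlinarith [mul_le_mul_of_nonneg_left (nw_sq hR y) h.1,
        mul_le_mul_of_nonneg_right h.2 (show 0 ≤ tau 1 y ^ 8 * d ^ 2 by positivity)]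
    simp only [dot, ← sq, hy.jT_eq, zF, hy.sq_vF, Fin.sum_univ_three, Pi.pow_apply,
      Matrix.cons_val, Pi.zero_apply]
    nlinarith [mul_le_mul_of_nonneg_right k2 (sq_nonneg (dPa (2 * k + 2) (pa y)))]
  · rw [integral_const_mul]
    refine (mul_le_mul_of_nonneg_left (nw_dPa (2 * k + 2))
      (show 0 ≤ L * d ^ 2 by positivity)).trans_eq ?_
    rw [lK]
    push_cast
    field_simp
    ring

end Pool.Agent.Work.MP_6bf1e5_an.H.Jf
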