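import Pool.Agent.Work.MP_6bf1e5_an.H.PassDef

/-! The terms of the passes TP, T0 and the check GT (owner helper89). -/

namespace Pool.Agent.Work.MP_6bf1e5_an.H.Ps

open Pool.Agent.Lib.KLA Pool.Agent.Lib.KBlk

noncomputable section

/-- The term of the pass TP. -/
def tTP (D : Dat) (SP : Scl) (b0 y b q : Nat) : Trm :=
  tRow D.V D.kP SP D.At D.TP b q (Nat.add 16 (D.Ah.pos b0 y 0)) (D.Ah.J b0 y)

/-- The terms of the pass T0. -/
def tT0 (D : Dat) (e : Nat) (SX ST : Scl) (b0 y b q : Nat) : Trm :=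
  tS (tPro D.V D.kX D.kP e SX D.Am D.X D.At D.TP b0 y b q 0 D.c1)
    (tCol D.V D.kT ST D.Am D.Th b0 y (D.At.st b) (tot D.At.J q b))

/-- The rows `a, ..., a + q - 1` have `l1` norm at most `B`. -/
def finL (W p K e B : Nat) (T : Trm) (a q : Nat) : Bool :=
  allR (fun j => T j 0 fun x => tight W p K e x fun y =>
    Nat.ble (Nat.add (dsum W (vabs W e p y)) p) B) a q

/-- The rows `a, ..., a + r - 1` of the block `(b, y)` of the diagonal tile are near `lam` times
the rows of the identity. -/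
def gchk (P : Par) (K lam e B : Nat) (S : Scl) (T0 T1 : Rows) (dg : Nat → Nat)
    (M : Nat → Nat → Nat → Rows) (R D : Nat → Nat → Rows) (A : Lay) (b y a r : Nat) : Bool :=
  strict b fun b => strict y fun y => bnd (A.fit b 1)
    (tile0 P b T0 T1 dg (M y) A.J D 1 b fun t => strict (tot A.J 1 b) fun p =>
      strict (enc A.J b b y 0) fun d =>
        finL P.W p K e B (tS (tC P p S (R b y) t) (tI P.W p d lam)) a r)

/-- All rows of the block number `i`. -/
def JobD (f : Nat → Nat → Nat → Nat → Bool) (A : Lay) (i : Nat) : Prop :=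
  Cov (fun _ a r => f (A.b0 + i / 2) (i % 2) a r) (A.J (A.b0 + i / 2) (i % 2))

/-- All blocks. -/
def JobG (f : Nat → Nat → Nat → Nat → Bool) (A : Lay) : Prop := AllP (JobD f A) (2 * A.nq)

/-- No angular index has more than `w` members. -/
def wid (A : Lay) (w : Nat) : Bool := allR (fun b => Nat.ble (tot A.J 1 b) w) A.b0 A.nq

end

end Pool.Agent.Work.MP_6bf1e5_an.H.Ps
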