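import Pool.Agent.Lib.KBlk.Jobs
import Pool.Agent.Work.MP_6bf1e5_an.H.PassTD

/-! Chains of checks that cover all rows of the diagonal pass (owner helper80). -/

namespace Pool.Agent.Work.MP_6bf1e5_an.H.Ps

open Pool.Agent.Lib.KLA Pool.Agent.Lib.KBlk

/-- The rows below `n` of the block `(b, y)`. -/
def CvD (f : Nat → Nat → Nat → Nat → Bool) (b y n : Nat) : Prop :=
  Cov (fun _ a r => f b y a r) n

variable {f : Nat → Nat → Nat → Nat → Bool} {b y n a r i : Nat}

theorem CvD.zero : CvD f b y 0 := Cov.zero _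

theorem CvD.step (hf : PLift (f b y a r = true)) (e : Nat.beq (a + r) n = true)
    (h : CvD f b y a) : CvD f b y n :=
  Cov.step (c := 0) hf.down (Nat.eq_of_beq_eq_true e) h

/-- The numbers that describe the block number `i`. -/
noncomputable def jobM (A : Lay) (i b y n : Nat) : Bool :=
  bnd (bnd (Nat.beq (A.b0 + i / 2) b) (Nat.beq (i % 2) y)) (Nat.beq (A.J b y) n)

theorem CvD.job {A : Lay} (h : CvD f b y n) (e : jobM A i b y n = true) : JobD f A i := by
  have e1 := Nat.eq_of_beq_eq_true (bnd_l (bnd_l e))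
  have e2 := Nat.eq_of_beq_eq_true (bnd_r (bnd_l e))
  have e3 := Nat.eq_of_beq_eq_true (bnd_r e)
  subst e3
  unfold JobD
  rw [e1, e2]
  exact h

theorem jobG_of {A : Lay} (h : AllP (JobD f A) n) (e : Nat.beq (2 * A.nq) n = true) :
    JobG f A := by
  have e1 := Nat.eq_of_beq_eq_true e
  subst e1
  exact h

end Pool.Agent.Work.MP_6bf1e5_an.H.Ps
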