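import Pool.Agent.Work.MP_6bf1e5_an.H.LmiA
import Pool.Agent.Work.MP_6bf1e5_an.H.SkFin

/-! The pointwise matrix inequality from the tests (owner helper52). -/

open Set Polynomial

namespace Pool.Agent.Work.MP_6bf1e5_an.H.Lt

noncomputable section

theorem lmi_pair {e h : ℝ} (k : |e| ≤ h) (x y : ℝ) : 0 ≤ h * (x ^ 2 + y ^ 2) + 2 * e * (x * y) := by
  obtain ⟨k1, k2⟩ := abs_le.1 k
  nlinarith [mul_nonneg (neg_le_iff_add_nonneg.1 k1) (sq_nonneg (x + y)),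
    mul_nonneg (sub_nonneg.2 k2) (sq_nonneg (x - y))]

theorem lmi_col {P r : ℝ} (h : 1 ≤ P * r ^ 2) (x u : ℝ) :
    0 ≤ x * u + P * u ^ 2 + (r / 2 * x) ^ 2 := by
  have h0 : 0 < P := lt_of_not_ge fun k => by
    linarith [mul_nonpos_of_nonpos_of_nonneg k (sq_nonneg r)]
  refine nonneg_of_mul_nonneg_right (?_ : 0 ≤ (4 * P) * _) (by positivity)
  nlinarith [sq_nonneg (2 * P * u + x), mul_nonneg (sub_nonneg.2 h) (sq_nonneg x)]

theorem lmi_alg {V B X Y E : Fin 3 → Fin 3 → ℝ} (hV : ∀ i j, V i j = V j i) {w P r h1 h2 h3 : ℝ}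
    (hP : 1 ≤ P * r ^ 2)
    (hE : ∀ i j, i = 0 ∨ j ≠ 0 → E i j = V i j - ∑ c, r / 2 * B i c * (r / 2 * B j c)
      - ∑ c, (X i c * X j c + Y i c * Y j c))
    (k1 : |E 0 1| ≤ h1) (k2 : |E 0 2| ≤ h2) (k3 : |E 1 2| ≤ h3) (d0 : h1 + h2 ≤ E 0 0 - w)
    (d1 : h1 + h3 ≤ E 1 1 - w) (d2 : h2 + h3 ≤ E 2 2 - w) (q u : Fin 3 → ℝ) :
    w * ∑ i, q i ^ 2 ≤ ∑ i, ∑ j, q i * V i j * q j + ∑ i, ∑ j, q i * B i j * u j
      + P * ∑ i, u i ^ 2 := by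
  have a1 := lmi_pair k1 (q 0) (q 1)
  have a2 := lmi_pair k2 (q 0) (q 2)
  have a3 := lmi_pair k3 (q 1) (q 2)
  have b0 := mul_nonneg (sub_nonneg.2 d0) (sq_nonneg (q 0))
  have b1 := mul_nonneg (sub_nonneg.2 d1) (sq_nonneg (q 1))
  have b2 := mul_nonneg (sub_nonneg.2 d2) (sq_nonneg (q 2))
  have c := fun c => lmi_col hP (q 0 * B 0 c + q 1 * B 1 c + q 2 * B 2 c) (u c)
  have x := fun c => sq_nonneg (q 0 * X 0 c + q 1 * X 1 c + q 2 * X 2 c)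
  have y := fun c => sq_nonneg (q 0 * Y 0 c + q 1 * Y 1 c + q 2 * Y 2 c)
  simp only [hE 0 _ (.inl rfl), hE _ 1 (.inr (by decide)), hE _ 2 (.inr (by decide)),
    Fin.sum_univ_three] at a1 a2 a3 b0 b1 b2
  simp only [Fin.sum_univ_three, hV 1 0, hV 2 0, hV 2 1]
  linarith [c 0, c 1, c 2, x 0, x 1, x 2, y 0, y 1, y 2]

theorem om_tau (y : R3) : Om y = 2 * tau 1 y ^ 4 := by
  have h := tau_four one_pos y
  rw [Om, div_eq_iff (by positivity)]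
  linear_combination -2 * h

theorem op_tau (k : ℕ) (y : R3) : Op (k / 2) y = (√2 * tau 1 y ^ 2) ^ k := by
  have h : Om y = (√2 * tau 1 y ^ 2) ^ (2 : ℝ) := by
    rw [om_tau, Real.rpow_two, mul_pow, Real.sq_sqrt (by norm_num)]
    ring
  rw [Op, h, ← Real.rpow_mul (by positivity), mul_div_cancel₀ _ two_ne_zero, Real.rpow_natCast]

theorem op_c (c : ℝ) (k : ℕ) (y : R3) :
    c / √2 * Op ((2 * k + 1 : ℕ) / 2) y = 2 ^ k * c * tau 1 y ^ (4 * k + 2) := by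
  have h : (√2 : ℝ) ≠ 0 := by positivity
  rw [op_tau, mul_pow, pow_succ, pow_mul, Real.sq_sqrt (by norm_num), ← pow_mul]
  field_simp
  rw [show 2 * (2 * k + 1) = 4 * k + 2 by ring]

theorem tF_eight (w : ℝ[X]) (y : R3) : tF 1 8 w (‖y‖ ^ 2) = tau 1 y ^ 8 * w.eval (tau 1 y) := by
  have h := rad_tF (e := 8) (P := w) one_pos y
  rwa [show (8 : ℝ) = (8 : ℕ) by norm_num, Real.rpow_natCast] at h

theorem tF_d1 (w : ℝ[X]) (y : R3) : ‖y‖ ^ 2 * deriv (tF 1 8 w) (‖y‖ ^ 2) =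
    tau 1 y ^ 8 * (Dh w).eval (tau 1 y) := by
  have h := mul_tF (e := 8) (P := C (-(1 / 4) : ℝ) * (C (8 : ℝ) * w + X * derivative w)) one_pos
    (rg_lt one_pos y)
  rw [deriv_tF one_pos (rg_lt one_pos y), ← tF_eight, Dh, ← h, one_mul]

theorem tF_d2 (w : ℝ[X]) (y : R3) : (‖y‖ ^ 2) ^ 2 * deriv (deriv (tF 1 8 w)) (‖y‖ ^ 2) =
    tau 1 y ^ 8 * ((Dh (Dh w)).eval (tau 1 y) - (Dh w).eval (tau 1 y)) := by
  have h := fun e P => mul_tF (e := e) (P := P) one_pos (rg_lt one_pos y)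
  simp only [one_mul] at h
  rw [deriv2_tF one_pos (rg_lt one_pos y), deriv_tF one_pos (rg_lt one_pos y), sq (‖y‖ ^ 2),
    mul_assoc, h, h, tF_eight]
  simp [Dh]
  ring

variable (p : LD)

/-- The constant of the multiplier. -/
def LD.c3 : ℝ := p.c / 128 / √2

/-- The profile of the multiplier. -/
def LD.φ : ℝ → ℝ := tF 1 8 p.w

theorem LD.gain : Gain p.n (WW p.c3 p.φ) (WG p.c3 p.φ) (PN p.n p.c3 p.φ) :=
  tail_gain p.n (by unfold LD.c3; positivity) (radS_tF one_pos)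
    (md_sym_mono (sym_tF (e := 8) (P := p.w) one_pos) (by norm_num)) fun z hz => by
      rw [LD.φ, tF, LD.w, eval_pow]
      positivity

theorem LD.WW_eq (y : R3) : WW p.c3 p.φ y = tau 1 y ^ 4 * wH (p.c / 128) p.w (tau 1 y) := by
  have h := op_c (p.c / 128) 1 y
  have h4 := tau_four one_pos y
  norm_num at h
  rw [WW, LD.c3, h, LD.φ, tF_eight, wH]
  linear_combination tau 1 y ^ 4 * p.w.eval (tau 1 y) * h4

theorem LD.WG_eq (y : R3) : WG p.c3 p.φ y = tau 1 y ^ 8 * gH (p.c / 128) p.w (tau 1 y) := by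
  have h := op_c (p.c / 128) 2 y
  norm_num at h
  rw [WG, mul_assoc, LD.c3, h, LD.φ, tF_eight, tF_d1, gH]
  ring

theorem LD.PN_eq (y : R3) :
    PN p.n p.c3 p.φ y = tau 1 y ^ 8 * pH p.n (p.c / 128) p.w (tau 1 y) := by
  have h := op_c (p.c / 128) 2 y
  norm_num at h
  rw [PN, LD.c3, h, LD.φ, tF_eight, mul_assoc 7, mul_assoc 2 ((‖y‖ ^ 2) ^ 2), tF_d1, tF_d2, pH,
    om_tau]
  ring

theorem kf_mul (i j c : Fin 3) (y : R3) :
    kf i c y * kf j c y = kf i j y * kk (kq i j c) (tau 1 y) := by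
  have h := kA_sq y
  fin_cases i <;> fin_cases j <;> fin_cases c <;> simp [kf, kk, kq, ← h, sq]

theorem abs_kf (i j : Fin 3) (y : R3) : |kf i j y| ≤ 1 := by
  unfold kf
  split_ifs
  · simp
  · exact abs_kA y

variable {p}

theorem LD.lmi (hv : ∀ a c, p.v a c = p.v c a) {h1 h2 h3 : ℝ}
    (hP : ∀ t ∈ Icc (0 : ℝ) 1, 1 ≤ (pH p.n (p.c / 128) p.w t - (chP p.b p.s p.r2).eval t ^ 2)
      * (chP p.b p.s p.r3).eval t ^ 2)
    (k1 : ∀ t ∈ Icc (0 : ℝ) 1, ∀ θ, |p.E 0 1 t θ| ≤ h1)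
    (k2 : ∀ t ∈ Icc (0 : ℝ) 1, ∀ θ, |p.E 0 2 t θ| ≤ h2)
    (k3 : ∀ t ∈ Icc (0 : ℝ) 1, ∀ θ, |p.E 1 2 t θ| ≤ h3)
    (d0 : ∀ t ∈ Icc (0 : ℝ) 1, ∀ θ,
      h1 + h2 ≤ p.E 0 0 t θ - wH (p.c / 128) p.w t - (chP p.b p.s p.r1).eval t ^ 2)
    (d1 : ∀ t ∈ Icc (0 : ℝ) 1, ∀ θ,
      h1 + h3 ≤ p.E 1 1 t θ - wH (p.c / 128) p.w t - (chP p.b p.s p.r1).eval t ^ 2)
    (d2 : ∀ t ∈ Icc (0 : ℝ) 1, ∀ θ,
      h2 + h3 ≤ p.E 2 2 t θ - wH (p.c / 128) p.w t - (chP p.b p.s p.r1).eval t ^ 2) :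
    LMI (tabM 4 p.bV p.sV p.v) (tabM 6 p.bB p.sB p.d) (WW p.c3 p.φ) (WG p.c3 p.φ)
      (PN p.n p.c3 p.φ) (rowQ 4 p.b p.s p.r1) (rowQ 8 p.b p.s p.r2) := by
  refine LMI.of_frame fun y _ q u => ?_
  have ht := tau_mem y
  have key : ∀ i j, i = 0 ∨ j ≠ 0 → kf i j y * p.E i j (tau 1 y) (pa y) =
      kf i j y * tbF (ety i j) p.bV p.sV (p.v i j) y
      - ∑ c, (chP p.b p.s p.r3).eval (tau 1 y) / 2 * (kf i c y * (tbF (ety i c) p.bB p.sB (p.d i c) y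
          + gs i c * gH (p.c / 128) p.w (tau 1 y)))
        * ((chP p.b p.s p.r3).eval (tau 1 y) / 2 * (kf j c y * (tbF (ety j c) p.bB p.sB (p.d j c) y
          + gs j c * gH (p.c / 128) p.w (tau 1 y))))
      - ∑ c, (kf i c y * tbF (decide (i ≠ 0)) p.bL p.sL (p.l i c) y
          * (kf j c y * tbF (decide (j ≠ 0)) p.bL p.sL (p.l j c) y)
        + kf i c y * ((if i = 0 then -1 else 1) * tbF (decide (i = 0)) p.bL p.sL (p.l i c) y)
          * (kf j c y * ((if j = 0 then -1 else 1)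
            * tbF (decide (j = 0)) p.bL p.sL (p.l j c) y))) := fun i j hij => by
    rw [LD.E, mul_sub, mul_sub, Finset.mul_sum, Finset.mul_sum]
    congr 1
    · congr 1
      refine Finset.sum_congr rfl fun c _ => ?_
      rw [← mul_assoc, ← kf_mul]
      simp only [LD.Bh, bH, LD.gh, tbF]
      ring
    · refine Finset.sum_congr rfl fun c _ => ?_
      rw [← mul_assoc, ← kf_mul]
      by_cases hi : i = 0 <;> by_cases hj : j = 0
      · simp [hH, ety, hi, hj, tbF]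
        ring
      · simp [hH, ety, hi, hj, tbF]
        ring
      · exact absurd hij (by simp [hi, hj])
      · simp [hH, ety, hi, hj, tbF]
        ring
  have hd : ∀ i, kf i i y = 1 := fun i => by simp [kf]
  have ho : ∀ i j {h : ℝ}, |p.E i j (tau 1 y) (pa y)| ≤ h →
      |kf i j y * p.E i j (tau 1 y) (pa y)| ≤ h := fun i j h k => by
    rw [abs_mul]
    exact (mul_le_of_le_one_left (abs_nonneg _) (abs_kf i j y)).trans k
  have main := lmi_alg (E := fun i j => kf i j y * p.E i j (tau 1 y) (pa y))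
    (w := wH (p.c / 128) p.w (tau 1 y) + (chP p.b p.s p.r1).eval (tau 1 y) ^ 2)
    (fun i j => by
      have := congrFun (tabC_symm 0 p.bV p.sV hv i j) y
      simpa [tabC] using this)
    (hP _ ht) key (ho 0 1 (k1 _ ht _)) (ho 0 2 (k2 _ ht _)) (ho 1 2 (k3 _ ht _))
    (by rw [hd]; linarith [d0 _ ht (pa y)]) (by rw [hd]; linarith [d1 _ ht (pa y)])
    (by rw [hd]; linarith [d2 _ ht (pa y)]) q fun i => tau 1 y ^ 2 * u i
  have h4 := mul_le_mul_of_nonneg_left main (pow_nonneg ht.1 4)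
  have e1 : kf 1 2 y = ‖y‖ * tau 1 y ^ 2 := by simp [kf, norm_tau]
  have e2 : kf 2 1 y = ‖y‖ * tau 1 y ^ 2 := by simp [kf, norm_tau]
  rw [p.WW_eq, p.WG_eq, p.PN_eq]
  simp only [Fin.sum_univ_three, tabC, rowQ, e1, e2] at h4 ⊢
  simp only [gs, Fin.reduceEq, and_true, and_false, and_self, if_true, if_false] at h4
  linarith

/-- The fields of the finite data that concern the weights. -/
theorem LD.sound {W S L L' nV nB nL s' W1 S1 W2 h1 h2 h3 : ℕ} {o1 o2 : ℕ × ℕ}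
    (hv : ∀ a c, p.v a c = p.v c a) (c1 : chkW W1 S1 L p.b p.s p.r1 o1 = true)
    (c2 : chkW W1 S1 L p.b p.s p.r2 o2 = true)
    (c3 : chkP W1 S1 L p.n p.c p.b p.s p.r2 p.r3 p.r4 = true)
    (k1 : chkO W S L L' nV nB nL s' p 0 1 h1 = true) (k2 : chkO W S L L' nV nB nL s' p 0 2 h2 = true)
    (k3 : chkO W S L L' nV nB nL s' p 1 2 h3 = true)
    (d0 : chkD W2 S L L' nV nB nL s' p 0 (h1 + h2) = true)
    (d1 : chkD W2 S L L' nV nB nL s' p 1 (h1 + h3) = true)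
    (d2 : chkD W2 S L L' nV nB nL s' p 2 (h2 + h3) = true) :
    LMI (tabM 4 p.bV p.sV p.v) (tabM 6 p.bB p.sB p.d) (WW p.c3 p.φ) (WG p.c3 p.φ)
      (PN p.n p.c3 p.φ) (rowQ 4 p.b p.s p.r1) (rowQ 8 p.b p.s p.r2) ∧
    (Bd (-2) (rowQ 4 p.b p.s p.r1) ∧ Bd 2 (rowI 4 p.b p.s o1) ∧
      ∀ᵐ y, 0 < rowI 4 p.b p.s o1 y ∧ 1 ≤ rowQ 4 p.b p.s p.r1 y * rowI 4 p.b p.s o1 y) ∧
    (Bd (-4) (rowQ 8 p.b p.s p.r2) ∧ Bd 4 (rowI 8 p.b p.s o2) ∧
      ∀ᵐ y, 0 < rowI 8 p.b p.s o2 y ∧ 1 ≤ rowQ 8 p.b p.s p.r2 y * rowI 8 p.b p.s o2 y) := by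
  have a := row_pair (p := 4) (chkW_sound c1)
  have b := row_pair (p := 8) (chkW_sound c2)
  refine ⟨LD.lmi hv (chkP_sound c3) (fun _ ht => chkO_sound k1 ht) (fun _ ht => chkO_sound k2 ht)
    (fun _ ht => chkO_sound k3 ht) (fun _ ht θ => ?_) (fun _ ht θ => ?_) fun _ ht θ => ?_,
    ⟨a.1.of_eq (by norm_num), a.2.1.of_eq (by norm_num), a.2.2⟩,
    b.1.of_eq (by norm_num), b.2.1.of_eq (by norm_num), b.2.2⟩
  · simpa [add_div] using chkD_sound d0 ht θ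
  · simpa [add_div] using chkD_sound d1 ht θ
  · simpa [add_div] using chkD_sound d2 ht θ

end

end Pool.Agent.Work.MP_6bf1e5_an.H.Lt
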