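import Pool.Agent.Work.MP_6bf1e5_an.H.LmiD

/-! Soundness of the table operations for the matrix inequality (owner helper52). -/

open Set Polynomial

namespace Pool.Agent.Work.MP_6bf1e5_an.H.Lt

open Pool.Agent.Lib.KLA Pool.Agent.Lib.KTab Pool.Agent.Lib.KBlk

noncomputable section

/-- The operator `z d / dz` on profiles `τ ^ 8 w`. -/
def Dh (w : ℝ[X]) : ℝ[X] := (1 - X ^ 4) * (C (-(1 / 4) : ℝ) * (C (8 : ℝ) * w + X * derivative w))

/-- The weight on the vorticity divided by `τ ^ 4`. -/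
def wH (c : ℝ) (w : ℝ[X]) (t : ℝ) : ℝ := 2 * c * t ^ 2 + (1 - t ^ 4) * w.eval t

/-- Its gradient divided by `τ ^ 8`. -/
def gH (c : ℝ) (w : ℝ[X]) (t : ℝ) : ℝ := 6 * c * t ^ 2 - 2 * (w.eval t + (Dh w).eval t)

/-- The weight on the velocity divided by `τ ^ 8`. -/
def pH (n : ℕ) (c : ℝ) (w : ℝ[X]) (t : ℝ) : ℝ :=
  4 * c * t ^ 2 * ((n * (n + 2) + 21 / 16) * (2 * t ^ 4) - 9 / 8) - w.eval t - 5 * (Dh w).eval t
    - 2 * (Dh (Dh w)).eval t

/-- `κ ^ 2` or `1`. -/
def kk (q : Bool) (t : ℝ) : ℝ := if q then 1 - t ^ 4 else 1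

/-- The sign of the gradient term. -/
def gs (i c : Fin 3) : ℝ := if i = 2 ∧ c = 1 then 1 else if i = 1 ∧ c = 2 then -1 else 0

/-- The product of two entries of the factor. -/
def hH (e : Bool) (b s : ℕ) (l l' : LT) (t θ : ℝ) : ℝ :=
  if e then tb2 false b s l t θ * tb2 true b s l' t θ - tb2 false b s l' t θ * tb2 true b s l t θ
  else tb2 false b s l t θ * tb2 false b s l' t θ + tb2 true b s l t θ * tb2 true b s l' t θ

/-- An entry of the coupling matrix. -/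
def bH (b s : ℕ) (g z : ℝ → ℝ) (d : Fin 3 → Fin 3 → LT) (i c : Fin 3) (t θ : ℝ) : ℝ :=
  g t * tb2 (ety i c) b s (d i c) t θ + gs i c * z t

variable {e : Bool} {W S : ℕ} {A B G Z X P : KT} {F F' : ℝ → ℝ → ℝ} {g z : ℝ → ℝ}

theorem dh_rt (L : ℕ) {w : ℝ[X]} (h : RT false W S A fun t _ => w.eval t) :
    Ok (dh W S L A) fun T => RT false W S T fun t _ => (Dh w).eval t :=
  (dk_rt L 8 h).bind fun _ h1 => (half_rt 1 h1).mono fun _ i => i.congr fun t _ => by
    simp [Dh]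
    ring

theorem sqT_rt (W S L b s : ℕ) (r : ℕ × ℕ) :
    Ok (sqT W S L b s r) fun T => RT false W S T fun t _ => (chP b s r ^ 2).eval t :=
  (ld1_rt W S L b s r).bind fun _ h => (mul_rt h h).mono fun _ i => i.congr fun t _ => by
    simp [sq]

theorem t2T_rt (W S a s : ℕ) :
    Ok (t2T W a s) fun T => RT false W S T fun t _ => a / 2 ^ s * t ^ 2 :=
  (tT_rt W S).bind fun _ h => (mul_rt h h).bind fun _ h =>
    (mul_rt (cst_rt W S false a s) h).mono fun _ i => i.congr fun t _ => by simp [sv, sq]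

theorem wT_rt (W S L c b s : ℕ) (r : ℕ × ℕ) :
    Ok (wT W S L c b s r) fun T => RT false W S T fun t _ => wH (c / 128) (chP b s r ^ 2) t :=
  (sqT_rt W S L b s r).bind fun _ h => (k2T_rt W S).bind fun _ h1 => (mul_rt h1 h).bind fun _ h =>
    (t2T_rt W S c 6).bind fun _ h1 => (add_rt h1 h).mono fun _ i => i.congr fun t _ => by
      rw [wH]
      ring

theorem gT_rt (W S L c b s : ℕ) (r : ℕ × ℕ) :
    Ok (gT W S L c b s r) fun T => RT false W S T fun t _ => gH (c / 128) (chP b s r ^ 2) t :=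
  (sqT_rt W S L b s r).bind fun _ h => (dh_rt L h).bind fun _ h1 => (add_rt h h1).bind fun _ h =>
    (mul_rt (nat_rt W S 2) h).bind fun _ h => (t2T_rt W S _ 6).bind fun _ h1 =>
      (sub_rt h1 h).mono fun _ i => i.congr fun t _ => by
        rw [gH, Nat.mul_eq]
        push_cast
        ring

theorem pT_rt (W S L n c b s : ℕ) (r : ℕ × ℕ) :
    Ok (pT W S L n c b s r) fun T => RT false W S T fun t _ => pH n (c / 128) (chP b s r ^ 2) t :=
  (sqT_rt W S L b s r).bind fun _ h0 => (dh_rt L h0).bind fun _ h1 => (dh_rt L h1).bind fun _ h2 =>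
    (t2T_rt W S 1 0).bind fun _ u => (t2T_rt W S _ 0).bind fun _ v => (mul_rt u v).bind fun _ v =>
    (sub_rt v (nat_rt W S 9)).bind fun _ v => (t2T_rt W S c 8).bind fun _ u =>
    (mul_rt u v).bind fun _ v => (sub_rt v h0).bind fun _ v =>
    (mul_rt (nat_rt W S 5) h1).bind fun _ h1 => (sub_rt v h1).bind fun _ v =>
    (mul_rt (nat_rt W S 2) h2).bind fun _ h2 => (sub_rt v h2).mono fun _ i => i.congr fun t _ => by
      simp only [pH, Nat.mul_eq, Nat.add_eq]
      push_cast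
      ring

theorem geq_rt {h : ℕ} (hX : RT false W S X F) (c : geq W S h X = true) {t : ℝ}
    (ht : t ∈ Icc (0 : ℝ) 1) (θ : ℝ) : h / 1048576 ≤ F t θ := by
  obtain ⟨_, h1, c⟩ := sub_rt hX (cst_rt W S false _ 20) _ c
  obtain ⟨_, h1, c⟩ := meas_rt h1 _ c
  have h2 := (abs_le.1 (finS_rt c h1 ht θ)).1
  simp only [sv, Nat.add_eq, Bool.false_eq_true, if_false] at h2
  push_cast at h2
  linarith

theorem chkW_sound {L b s : ℕ} {r o : ℕ × ℕ} (c : chkW W S L b s r o = true) :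
    ∀ t ∈ Icc (0 : ℝ) 1, 1 ≤ (chP b s r).eval t ^ 2 * (chP b s o).eval t := fun t ht => by
  obtain ⟨_, h1, c⟩ := sqT_rt W S L b s r _ c
  obtain ⟨_, h2, c⟩ := ld1_rt W S L b s o _ c
  obtain ⟨_, h1, c⟩ := mul_rt h1 h2 _ c
  simpa using geq_rt h1 c ht 0

theorem chkP_sound {L n c b s : ℕ} {r2 r3 r4 : ℕ × ℕ} (k : chkP W S L n c b s r2 r3 r4 = true) :
    ∀ t ∈ Icc (0 : ℝ) 1, 1 ≤ (pH n (c / 128) (chP b s r4 ^ 2) t - (chP b s r2).eval t ^ 2)
      * (chP b s r3).eval t ^ 2 := fun t ht => by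
  obtain ⟨_, h1, k⟩ := pT_rt W S L n c b s r4 _ k
  obtain ⟨_, h2, k⟩ := sqT_rt W S L b s r2 _ k
  obtain ⟨_, h1, k⟩ := sub_rt h1 h2 _ k
  obtain ⟨_, h2, k⟩ := sqT_rt W S L b s r3 _ k
  obtain ⟨_, h1, k⟩ := mul_rt h1 h2 _ k
  simpa using geq_rt h1 k ht 0

theorem cnd_t {α : Type} (x y : α) : cnd true x y = x := rfl

theorem cnd_f {α : Type} (x y : α) : cnd false x y = y := rfl

theorem usep_eq {α β γ : Type} (p : α × β) (f : α → β → γ) : usep p f = f p.1 p.2 := rfl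

theorem subK_rt (q : Bool) (hX : RT e W S X F) (hP : RT e W S P F') :
    Ok (subK q W S X P) fun T => RT e W S T fun t θ => F t θ - kk q t * F' t θ := by
  intro k c
  unfold subK at c
  cases q
  · rw [cnd_f] at c
    exact (sub_rt hX hP).mono (fun _ i => i.congr fun t θ => by simp [kk]) k c
  · rw [cnd_t] at c
    exact (k2T_rt W S).bind (fun _ h => (mul_rt h hP).bind fun _ h => sub_rt hX h) k c

theorem ldR_all (W S L b s : ℕ) (l : LT) : Ok (ldR W S L b s l) fun r => ∀ e,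
    RepL true e W S (0 : ℕ) r fun ω θ => io e * (tb2 e b s l (Real.cos ω ^ 2) θ : ℝ) := by
  refine (mapK_ok (Q := fun j T => Rep true W S T fun ω _ =>
    ((chP b s (l.getD j (0, 0))).eval (Real.cos ω ^ 2) : ℝ)) (fun j a ha => ?_) l 0
      (all_self l (0, 0))).mono fun r hr e => ⟨_, hr.1, fun ω θ => ?_⟩
  · rw [← ha]
    exact (ld1_rt W S L b s a).mono fun _ i => i.row
  · simp only [hr.2, tb2]
    push_cast
    rw [Finset.mul_sum]
    refine Finset.sum_congr rfl fun j _ => ?_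
    cases e <;> simp [io, cs, bas_false, bas_true]
    ring

theorem ldP_rt (W S L L' n b s : ℕ) (l : LT) : Ok (ldP W S L L' n b s l) fun p =>
    RT false W S p.1 (tb2 false b s l) ∧ RT true W S p.2 (tb2 true b s l) := fun k c => by
  obtain ⟨r, h, c⟩ := ldR_all W S L b s l _ c
  obtain ⟨C, hC, c⟩ := flat_ok S L' n _ (h false) _ c
  obtain ⟨D, hD, c⟩ := flat_ok S L' n _ (h true) _ c
  exact ⟨(C, D), ⟨hC, hD⟩, c⟩

theorem prH_rt (e : Bool) {b s : ℕ} {l l' : LT} {p q : KT × KT}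
    (hp : RT false W S p.1 (tb2 false b s l) ∧ RT true W S p.2 (tb2 true b s l))
    (hq : RT false W S q.1 (tb2 false b s l') ∧ RT true W S q.2 (tb2 true b s l')) :
    Ok (prH e W S p q) fun T => RT e W S T (hH e b s l l') := by
  intro k c
  unfold prH at c
  rw [usep_eq, usep_eq] at c
  cases e
  · rw [cnd_f] at c
    exact (mul_rt hp.1 hq.1).bind
      (fun _ h => (mulT_rt hp.2 hq.2).bind fun _ h' => add_rt h h') k c
  · rw [cnd_t] at c
    exact (mul_rt hp.1 hq.2).bind (fun _ h => (mul_rt hq.1 hp.2).bind fun _ h' => sub_rt h h') k c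

theorem Ok.same {α : Type} {i j : Fin 3} {Q : Fin 3 → α → Prop} {a : α} (h : Q i a)
    {f : (α → Bool) → Bool} (hf : Ok f (Q j)) :
    Ok (cnd (decide (i = j)) (fun k => k a) f) (Q j) := by
  by_cases e : i = j
  · rw [decide_eq_true e, cnd_t]
    exact fun k c => ⟨a, e ▸ h, c⟩
  · rw [decide_eq_false e, cnd_f]
    exact hf

theorem colH_rt (L L' n b s : ℕ) (l : Fin 3 → Fin 3 → LT) (i j c : Fin 3)
    (hX : RT (ety i j) W S X F) : Ok (colH W S L L' n b s l i j c X) fun T => RT (ety i j) W S T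
      fun t θ => F t θ - kk (kq i j c) t * hH (ety i j) b s (l i c) (l j c) t θ :=
  (ldP_rt W S L L' n b s (l i c)).bind fun _ h =>
    (Ok.same (Q := fun j (p : KT × KT) => RT false W S p.1 (tb2 false b s (l j c)) ∧
      RT true W S p.2 (tb2 true b s (l j c))) h (ldP_rt W S L L' n b s (l j c))).bind fun _ h' =>
    (prH_rt _ h h').bind fun _ h => subK_rt _ hX h

theorem ldB_rt (L L' n b s s' : ℕ) (hG : RT false W S G fun t _ => g t)
    (hZ : RT false W S Z fun t _ => z t) (d : Fin 3 → Fin 3 → LT) (i c : Fin 3) :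
    Ok (ldB W S L L' n b s s' G Z d i c) fun T => RT (ety i c) W S T (bH b s g z d i c) := by
  intro k q0
  obtain ⟨_, h0, q1⟩ := ld2m_rt _ L L' n b s s' hG (d i c) _ q0
  obtain ⟨T, h, q⟩ := meas_rt h0 _ q1
  clear q0 q1
  by_cases e1 : i = 2 ∧ c = 1
  · rw [decide_eq_true e1, cnd_t] at q
    obtain ⟨rfl, rfl⟩ := e1
    exact (add_rt h hZ).mono (fun _ i => i.congr fun t θ => by simp [bH, gs]) k q
  · rw [decide_eq_false e1, cnd_f] at q
    by_cases e2 : i = 1 ∧ c = 2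
    · rw [decide_eq_true e2, cnd_t] at q
      obtain ⟨rfl, rfl⟩ := e2
      exact (sub_rt h hZ).mono
        (fun _ i => i.congr fun t θ => by simp [bH, gs, sub_eq_add_neg]) k q
    · rw [decide_eq_false e2, cnd_f] at q
      exact ⟨T, h.congr fun t θ => by simp [bH, gs, e1, e2], q⟩

theorem ety_xor (i j c : Fin 3) : xor (ety i c) (ety j c) = ety i j := by
  revert i j c
  decide

theorem colB_rt (L L' n b s s' : ℕ) (hG : RT false W S G fun t _ => g t)
    (hZ : RT false W S Z fun t _ => z t) (d : Fin 3 → Fin 3 → LT) (i j c : Fin 3)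
    (hX : RT (ety i j) W S X F) : Ok (colB W S L L' n b s s' G Z d i j c X) fun T =>
      RT (ety i j) W S T
        fun t θ => F t θ - kk (kq i j c) t * (bH b s g z d i c t θ * bH b s g z d j c t θ) :=
  (ldB_rt L L' n b s s' hG hZ d i c).bind fun _ h =>
    (Ok.same (Q := fun j T => RT (ety j c) W S T (bH b s g z d j c)) h
      (ldB_rt L L' n b s s' hG hZ d j c)).bind fun _ h' =>
    (mulT_rt h h').bind fun _ h => subK_rt _ hX (ety_xor i j c ▸ h)

/-- Half of the third row. -/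
def LD.gh (p : LD) (t : ℝ) : ℝ := (chP p.b p.s p.r3).eval t / 2

/-- The profile of the multiplier. -/
def LD.w (p : LD) : ℝ[X] := chP p.b p.s p.r4 ^ 2

/-- The entries of the scaled coupling matrix. -/
def LD.Bh (p : LD) : Fin 3 → Fin 3 → ℝ → ℝ → ℝ :=
  bH p.bB p.sB p.gh (fun t => p.gh t * gH (p.c / 128) p.w t) p.d

/-- The remainder. -/
def LD.E (p : LD) (i j : Fin 3) (t θ : ℝ) : ℝ :=
  tb2 (ety i j) p.bV p.sV (p.v i j) t θ - ∑ c, kk (kq i j c) t * (p.Bh i c t θ * p.Bh j c t θ)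
    - ∑ c, kk (kq i j c) t * hH (ety i j) p.bL p.sL (p.l i c) (p.l j c) t θ

theorem entL_rt (L L' nB nL s' : ℕ) (p : LD) (i j : Fin 3)
    (hX : RT (ety i j) W S X (tb2 (ety i j) p.bV p.sV (p.v i j))) :
    Ok (entL W S L L' nB nL s' p i j X) fun T => RT (ety i j) W S T (p.E i j) :=
  (ld1_rt W S L p.b p.s p.r3).bind fun _ g => (half_rt 1 g).bind fun _ g =>
    (gT_rt W S L p.c p.b p.s p.r4).bind fun _ z => (trim_rt nB 40 z).bind fun _ z =>
    (mul_rt g z).bind fun _ z => (trim_rt nB s' z).bind fun _ z => (meas_rt z).bind fun _ z =>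
    (colB_rt L L' nB p.bB p.sB s' g z p.d i j 0 hX).bind fun _ h =>
    (colB_rt L L' nB p.bB p.sB s' g z p.d i j 1 h).bind fun _ h =>
    (colB_rt L L' nB p.bB p.sB s' g z p.d i j 2 h).bind fun _ h =>
    (colH_rt L L' nL p.bL p.sL p.l i j 0 h).bind fun _ h =>
    (colH_rt L L' nL p.bL p.sL p.l i j 1 h).bind fun _ h =>
    (colH_rt L L' nL p.bL p.sL p.l i j 2 h).mono fun _ h => h.congr fun t θ => by
      simp only [LD.E, LD.Bh, LD.w, Fin.sum_univ_three, pow_one]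
      unfold LD.gh
      ring

variable {L L' nV nB nL s' h : ℕ} {p : LD} {i j : Fin 3} {t : ℝ}

theorem chkO_sound (c : chkO W S L L' nV nB nL s' p i j h = true) (ht : t ∈ Icc (0 : ℝ) 1)
    (θ : ℝ) : |p.E i j t θ| ≤ h / 1048576 := by
  obtain ⟨_, h1, c⟩ := ld2_rt _ W S L L' nV p.bV p.sV _ _ c
  obtain ⟨_, h1, c⟩ := entL_rt L L' nB nL s' p i j h1 _ c
  obtain ⟨_, h1, c⟩ := meas_rt h1 _ c
  simpa using finS_rt c h1 ht θ

theorem chkD_sound (c : chkD W S L L' nV nB nL s' p i h = true) (ht : t ∈ Icc (0 : ℝ) 1) (θ : ℝ) :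
    h / 1048576 ≤ p.E i i t θ - wH (p.c / 128) p.w t - (chP p.b p.s p.r1).eval t ^ 2 := by
  obtain ⟨_, h1, c⟩ := ld2_rt _ W S L L' nV p.bV p.sV _ _ c
  obtain ⟨_, h1, c⟩ := entL_rt L L' nB nL s' p i i h1 _ c
  rw [show ety i i = false from Bool.xor_self _] at h1
  obtain ⟨_, h2, c⟩ := wT_rt W S L p.c p.b p.s p.r4 _ c
  obtain ⟨_, h1, c⟩ := sub_rt h1 h2 _ c
  obtain ⟨_, h2, c⟩ := sqT_rt W S L p.b p.s p.r1 _ c
  obtain ⟨_, h1, c⟩ := sub_rt h1 h2 _ c
  simpa [LD.w] using geq_rt h1 c ht θ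

end

end Pool.Agent.Work.MP_6bf1e5_an.H.Lt
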