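import Pool.Agent.Work.MP_6bf1e5_an.H.LtF

/-! The tests for the pointwise matrix inequality (owner helper52). -/

namespace Pool.Agent.Work.MP_6bf1e5_an.H.Lt

open Pool.Agent.Lib.KLA Pool.Agent.Lib.KTab

/-- Packed tables. -/
abbrev KT := Pool.Agent.Lib.KTab.Tab

noncomputable section

/-- Half of the radial Euler operator for the power `8`. -/
def dh (W S L : Nat) (A : KT) (k : KT → Bool) : Bool := dk W S L 8 A fun D => half 1 D k

/-- The square of a row. -/
def sqT (W S L b s : Nat) (r : Nat × Nat) (k : KT → Bool) : Bool :=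
  ld1 W S L b s r fun A => mul A A k

/-- `± a / 2 ^ s * t ^ 2`. -/
def t2T (W a s : Nat) (k : KT → Bool) : Bool :=
  tT W fun t => mul t t fun u => mul (cst false a s) u k

/-- The weight on the vorticity. -/
def wT (W S L c b s : Nat) (r : Nat × Nat) (k : KT → Bool) : Bool :=
  sqT W S L b s r fun F => k2T W S fun K => mul K F fun F => t2T W c 6 fun u => add W S u F k

/-- Its gradient. -/
def gT (W S L c b s : Nat) (r : Nat × Nat) (k : KT → Bool) : Bool :=
  sqT W S L b s r fun F => dh W S L F fun D => add W S F D fun D => mul (cst false 2 0) D fun D =>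
    t2T W (Nat.mul 3 c) 6 fun u => sub W S u D k

/-- The weight on the velocity. -/
def pT (W S L n c b s : Nat) (r : Nat × Nat) (k : KT → Bool) : Bool :=
  sqT W S L b s r fun F => dh W S L F fun D => dh W S L D fun E =>
    t2T W 1 0 fun u => t2T W (Nat.add (Nat.mul 16 (Nat.mul n (Nat.add n 2))) 21) 0 fun v =>
    mul u v fun v => sub W S v (cst false 9 0) fun v => t2T W c 8 fun u => mul u v fun v =>
    sub W S v F fun v => mul (cst false 5 0) D fun D => sub W S v D fun v =>
    mul (cst false 2 0) E fun E => sub W S v E k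

/-- The table is at least `h / 2 ^ 20`. -/
def geq (W S h : Nat) (X : KT) : Bool :=
  sub W S X (cst false (Nat.add h 1048576) 20) fun X => meas W S X fun X => finS 1 1 X

/-- `1 ≤ r ^ 2 * o`. -/
def chkW (W S L b s : Nat) (r o : Nat × Nat) : Bool :=
  sqT W S L b s r fun A => ld1 W S L b s o fun B => mul A B fun A => geq W S 1048576 A

/-- `1 ≤ (P - r2 ^ 2) * r3 ^ 2`. -/
def chkP (W S L n c b s : Nat) (r2 r3 r4 : Nat × Nat) : Bool :=
  pT W S L n c b s r4 fun P => sqT W S L b s r2 fun A => sub W S P A fun P =>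
    sqT W S L b s r3 fun B => mul P B fun P => geq W S 1048576 P

/-- Both components carry the factor `κ`. -/
def kq (a b c : Fin 3) : Bool := decide (¬(a = 2 ↔ c = 2) ∧ ¬(b = 2 ↔ c = 2))

/-- `X - P` or `X - κ ^ 2 P`. -/
def subK (q : Bool) (W S : Nat) (X P : KT) (k : KT → Bool) : Bool :=
  cnd q (k2T W S fun K => mul K P fun P => sub W S X P k) (sub W S X P k)

/-- A table as a cosine and as a sine series. -/
def ldP (W S L L' n b s : Nat) (l : LT) (k : KT × KT → Bool) : Bool :=
  ldR W S L b s l fun r => flat false W S S L' n (Nat.add s 1) 0 r fun C =>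
    flat true W S S L' n (Nat.add s 1) 0 r fun D => k (C, D)

/-- The real or the imaginary part of a product with a conjugate. -/
def prH (e : Bool) (W S : Nat) (A B : KT × KT) (k : KT → Bool) : Bool :=
  usep A fun C D => usep B fun C' D' =>
    cnd e (mul C D' fun P => mul C' D fun Q => sub W S P Q k)
      (mul C C' fun P => mulT true true D D' fun Q => add W S P Q k)

/-- One column of the factor. -/
def colH (W S L L' n b s : Nat) (l : Fin 3 → Fin 3 → LT) (i j c : Fin 3) (X : KT)
    (k : KT → Bool) : Bool :=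
  ldP W S L L' n b s (l i c) fun A =>
    (cnd (decide (i = j)) (fun k => k A) (ldP W S L L' n b s (l j c)) :
      (KT × KT → Bool) → Bool) fun B =>
    prH (ety i j) W S A B fun P => subK (kq i j c) W S X P k

/-- An entry of the coupling matrix. -/
def ldB (W S L L' n b s s' : Nat) (G Z : KT) (d : Fin 3 → Fin 3 → LT) (i c : Fin 3)
    (k : KT → Bool) : Bool :=
  ld2m (ety i c) W S L L' n b s s' G (d i c) fun T => meas W S T fun T =>
    cnd (decide (i = 2 ∧ c = 1)) (add W S T Z k) (cnd (decide (i = 1 ∧ c = 2)) (sub W S T Z k) (k T))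

/-- One column of the coupling matrix. -/
def colB (W S L L' n b s s' : Nat) (G Z : KT) (d : Fin 3 → Fin 3 → LT) (i j c : Fin 3) (X : KT)
    (k : KT → Bool) : Bool :=
  ldB W S L L' n b s s' G Z d i c fun A =>
    (cnd (decide (i = j)) (fun k => k A) (ldB W S L L' n b s s' G Z d j c) :
      (KT → Bool) → Bool) fun B =>
    mulT (ety i c) (ety j c) A B fun P => subK (kq i j c) W S X P k

/-- The data of the matrix inequality. -/
structure LD : Type where
  n : Nat
  c : Nat
  b : Nat
  s : Nat
  r1 : Nat × Nat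
  r2 : Nat × Nat
  r3 : Nat × Nat
  r4 : Nat × Nat
  bV : Nat
  sV : Nat
  v : Fin 3 → Fin 3 → LT
  bB : Nat
  sB : Nat
  d : Fin 3 → Fin 3 → LT
  bL : Nat
  sL : Nat
  l : Fin 3 → Fin 3 → LT

/-- All columns. -/
def entL (W S L L' nB nL s' : Nat) (p : LD) (i j : Fin 3) (X : KT) (k : KT → Bool) : Bool :=
  ld1 W S L p.b p.s p.r3 fun G => half 1 G fun G => gT W S L p.c p.b p.s p.r4 fun Z =>
    trim W S nB 40 Z fun Z => mul G Z fun Z => trim W S nB s' Z fun Z => meas W S Z fun Z =>
    colB W S L L' nB p.bB p.sB s' G Z p.d i j 0 X fun X =>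
    colB W S L L' nB p.bB p.sB s' G Z p.d i j 1 X fun X =>
    colB W S L L' nB p.bB p.sB s' G Z p.d i j 2 X fun X =>
    colH W S L L' nL p.bL p.sL p.l i j 0 X fun X =>
    colH W S L L' nL p.bL p.sL p.l i j 1 X fun X =>
    colH W S L L' nL p.bL p.sL p.l i j 2 X k

/-- The test for an entry off the diagonal. -/
def chkO (W S L L' nV nB nL s' : Nat) (p : LD) (i j : Fin 3) (h : Nat) : Bool :=
  ld2 (ety i j) W S L L' nV p.bV p.sV (p.v i j) fun X => entL W S L L' nB nL s' p i j X fun X =>
    meas W S X fun X => finS h 1048576 X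

/-- The test for an entry on the diagonal. -/
def chkD (W S L L' nV nB nL s' : Nat) (p : LD) (i : Fin 3) (h : Nat) : Bool :=
  ld2 (ety i i) W S L L' nV p.bV p.sV (p.v i i) fun X => entL W S L L' nB nL s' p i i X fun X =>
    wT W S L p.c p.b p.s p.r4 fun A => sub W S X A fun X => sqT W S L p.b p.s p.r1 fun A =>
    sub W S X A fun X => geq W S h X

end

end Pool.Agent.Work.MP_6bf1e5_an.H.Lt
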