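import Pool.Agent.Work.MP_6bf1e5_an.H.LmiD
import Pool.Agent.Work.MP_6bf1e5_an.H.LmiDatV
import Pool.Agent.Work.MP_6bf1e5_an.H.LmiDatB
import Pool.Agent.Work.MP_6bf1e5_an.H.LmiDatL

/-! The data of the pointwise matrix inequality. -/

namespace Pool.Agent.Work.MP_6bf1e5_an.H.Lt.Dat

/-- The tables of `V`. -/
def vv : Fin 3 → Fin 3 → LT := sy6 v00 v01 v02 v11 v12 v22

/-- The tables of `B`. -/
def bb : Fin 3 → Fin 3 → LT := ![![b00, b01, b02], ![b10, b11, b12], ![b20, b21, b22]]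

/-- The tables of the factor. -/
def ll : Fin 3 → Fin 3 → LT := ![![l00, l01, l02], ![l10, l11, l12], ![l20, l21, l22]]

/-- All data. -/
def dat : LD := ⟨64, c3n, b1, s1, r1, r2, r3, r4, bV, sV, vv, bB, sB, bb, bL, sL, ll⟩

end Pool.Agent.Work.MP_6bf1e5_an.H.Lt.Dat
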