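import Pool.Agent.Work.MP_6bf1e5_an.H.LocBase

/-!
The rotation fields, and the angular inequality for the first two components.
Hints. Jd_ibp: Jd k (φ f g) integrates to zero (compact support; integral_fderiv or
integral_mul_fderiv_eq_neg_fderiv_mul_of_integrable for y (k+1) * pd (k+2) h), and Jd k φ = 0.
Jd_comm: pd_mul, pd_coord, pd_comm. eqv_J: differentiate θ ↦ u i (act (rotM θ) y) at θ = 0.
ang_one: expand 0 ≤ (J0 u0 - J1 u1) ^ 2 + (J0 u1 + J1 u0) ^ 2; the integral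
of φ (J0 u0 J1 u1 - J1 u0 J0 u1) equals both ∫ φ u0 ^ 2 and ∫ φ u1 ^ 2 by Jd_ibp, Jd_comm, eqv_J; the terms
with J2 give exactly u0 ^ 2 + u1 ^ 2.
-/

open scoped ContDiff ENNReal FourierTransform Real
open Set MeasureTheory

namespace Pool.Agent.Work.MP_6bf1e5_an.H.Dyn

variable {φ f g : Sc} {u : Vc}

theorem Jd_smooth (hf : ContDiff ℝ ∞ f) (k : Fin 3) : ContDiff ℝ ∞ (Jd k f) :=
  ((coord_smooth _).mul (pd_smooth hf _)).sub ((coord_smooth _).mul (pd_smooth hf _))

theorem Jd_mul (hf : ContDiff ℝ ∞ f) (hg : ContDiff ℝ ∞ g) (k : Fin 3) :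
    Jd k (fun y => f y * g y) = fun y => Jd k f y * g y + f y * Jd k g y := by
  funext y
  simp only [Jd, pd_mul hf hg]
  ring

theorem RadW.int (h : RadW φ) (hf : Continuous f) : Integrable fun y => φ y * f y :=
  (h.smooth.continuous.mul hf).integrable_of_hasCompactSupport h.supp.mul_right

theorem LocAngA_int (hf : ContDiff ℝ ∞ f) (hs : HasCompactSupport f) (i j : Fin 3) :
    Integrable fun y : R3 => y i * pd j f y :=
  ((coord_smooth i).mul (pd_smooth hf j)).continuous.integrable_of_hasCompactSupport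
    (hs.fderiv_apply ℝ _).mul_left

theorem LocAngA_coord (hf : ContDiff ℝ ∞ f) (hs : HasCompactSupport f) {i j : Fin 3} (h : i ≠ j) :
    ∫ y : R3, y i * pd j f y = 0 := by
  have h0 : ∀ y : R3, fderiv ℝ (fun y : R3 => y i) y (EuclideanSpace.single j 1) = 0 := fun y =>
    (congrFun (pd_coord i j) y).trans (if_neg h)
  have := integral_mul_fderiv_eq_neg_fderiv_mul_of_integrable (μ := volume) (𝕜 := ℝ)
    (f := fun y : R3 => y i) (g := f) (v := EuclideanSpace.single j 1) (by simp [h0])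
    (LocAngA_int hf hs i j)
    (((coord_smooth i).mul hf).continuous.integrable_of_hasCompactSupport hs.mul_left)
    (fun y _ => dynCalc_d (coord_smooth i) y) fun y _ => dynCalc_d hf y
  simpa [h0, pd] using this

theorem LocAngA_zero (hf : ContDiff ℝ ∞ f) (hs : HasCompactSupport f) (k : Fin 3) :
    ∫ y, Jd k f y = 0 := by
  have h : ∀ k : Fin 3, k + 1 ≠ k + 2 := by decide
  simp only [Jd]
  rw [integral_sub (LocAngA_int hf hs _ _) (LocAngA_int hf hs _ _), LocAngA_coord hf hs (h k),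
    LocAngA_coord hf hs (h k).symm, sub_zero]

theorem Jd_ibp (h : RadW φ) (hf : ContDiff ℝ ∞ f) (hg : ContDiff ℝ ∞ g) (k : Fin 3) :
    ∫ y, φ y * (Jd k f y * g y) = -∫ y, φ y * (f y * Jd k g y) := by
  have h1 := LocAngA_zero (h.smooth.mul (hf.mul hg)) h.supp.mul_right k
  rw [Jd_mul h.smooth (hf.mul hg), Jd_mul hf hg] at h1
  simp only [h.rad, zero_mul, zero_add, mul_add] at h1
  rw [integral_add (h.int ((Jd_smooth hf k).mul hg).continuous)
    (h.int (hf.mul (Jd_smooth hg k)).continuous)] at h1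
  exact eq_neg_of_add_eq_zero_left h1

theorem Jd_comm (hf : ContDiff ℝ ∞ f) (y : R3) :
    Jd 0 (Jd 1 f) y - Jd 1 (Jd 0 f) y = -Jd 2 f y := by
  have e : ∀ j k y, pd j (Jd k f) y = (if k + 1 = j then 1 else 0) * pd (k + 2) f y +
      y (k + 1) * pd j (pd (k + 2) f) y - ((if k + 2 = j then 1 else 0) * pd (k + 1) f y +
        y (k + 2) * pd j (pd (k + 1) f) y) := fun j k y => by
    have := congrFun (pd_sub ((coord_smooth (k + 1)).mul (pd_smooth hf (k + 2)))
      ((coord_smooth (k + 2)).mul (pd_smooth hf (k + 1))) j) y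
    rwa [pd_mul (coord_smooth _) (pd_smooth hf _), pd_mul (coord_smooth _) (pd_smooth hf _),
      pd_coord, pd_coord] at this
  rw [Jd, Jd, Jd, e, e, e, e]
  simp only [Fin.isValue, Fin.reduceAdd, Fin.reduceEq, if_true, if_false, pd_comm hf 2 0,
    pd_comm hf 1 0, pd_comm hf 2 1]
  ring

theorem Jd_sq_le (f : Sc) (y : R3) : ∑ k, Jd k f y ^ 2 ≤ ‖y‖ ^ 2 * ∑ j, pd j f y ^ 2 := by
  simp only [Jd, EuclideanSpace.real_norm_sq_eq, Fin.sum_univ_three, Fin.isValue, Fin.reduceAdd]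
  nlinarith [sq_nonneg (y 0 * pd 0 f y + y 1 * pd 1 f y + y 2 * pd 2 f y)]

theorem LocAngA_rot (hf : ContDiff ℝ ∞ f) (y : R3) :
    HasDerivAt (fun θ => f (act (rotM θ) y)) (Jd 2 f y) 0 := by
  have e : ∀ θ, act (rotM θ) y = Real.cos θ • (!₂[y 0, y 1, 0] : R3) +
      Real.sin θ • (!₂[-y 1, y 0, 0] : R3) + !₂[0, 0, y 2] := fun θ => by
    ext i
    fin_cases i <;> simp [act, rotM, Fin.sum_univ_three, add_comm]
  have e0 : act (rotM 0) y = y := by
    ext i
    fin_cases i <;> simp [act, rotM, Fin.sum_univ_three]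
  have h1 : HasDerivAt (fun θ => act (rotM θ) y) (!₂[-y 1, y 0, 0] : R3) 0 := by
    simp only [e]
    simpa using (((Real.hasDerivAt_cos 0).smul_const (!₂[y 0, y 1, 0] : R3)).add
      ((Real.hasDerivAt_sin 0).smul_const (!₂[-y 1, y 0, 0] : R3))).add_const !₂[0, 0, y 2]
  refine ((dynCalc_d hf y).hasFDerivAt.comp_hasDerivAt_of_eq 0 h1 e0.symm).congr_deriv ?_
  rw [dynCalc_sum]
  simp [Jd, Fin.sum_univ_three]
  ring

theorem eqv_J (hu : ∀ i, ContDiff ℝ ∞ (u i)) (he : Eqv u) (y : R3) :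
    Jd 2 (u 0) y = -u 1 y ∧ Jd 2 (u 1) y = u 0 y := by
  have hc : HasDerivAt Real.cos 0 0 := by simpa using Real.hasDerivAt_cos 0
  have hs : HasDerivAt Real.sin 1 0 := by simpa using Real.hasDerivAt_sin 0
  have h1 : ∀ i θ, u i (act (rotM θ) y) = ∑ j, rotM θ i j * u j y := fun i θ => he.1 θ y i
  have h2 := fun i => LocAngA_rot (hu i) y
  simp only [h1] at h2
  constructor
  · refine (h2 0).unique ?_
    simpa [rotM, Fin.sum_univ_three] using
      (hc.mul_const (u 0 y)).fun_add (hs.mul_const (u 1 y)).fun_neg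
  · refine (h2 1).unique ?_
    simpa [rotM, Fin.sum_univ_three] using (hs.mul_const (u 0 y)).fun_add (hc.mul_const (u 1 y))

theorem LocAngA_comm (h : RadW φ) (hf : ContDiff ℝ ∞ f) (hg : ContDiff ℝ ∞ g) :
    ∫ y, φ y * (Jd 0 f y * Jd 1 g y - Jd 1 f y * Jd 0 g y) = ∫ y, φ y * (f y * Jd 2 g y) := by
  simp only [mul_sub]
  rw [integral_sub (h.int ((Jd_smooth hf 0).mul (Jd_smooth hg 1)).continuous)
    (h.int ((Jd_smooth hf 1).mul (Jd_smooth hg 0)).continuous), Jd_ibp h hf (Jd_smooth hg 1),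
    Jd_ibp h hf (Jd_smooth hg 0), neg_sub_neg,
    ← integral_sub (h.int (hf.mul (Jd_smooth (Jd_smooth hg 0) 1)).continuous)
      (h.int (hf.mul (Jd_smooth (Jd_smooth hg 1) 0)).continuous)]
  refine integral_congr_ae (.of_forall fun y => ?_)
  simp only
  linear_combination (-φ y * f y) * Jd_comm hg y

theorem ang_one (h : RadW φ) (hu : ∀ i, ContDiff ℝ ∞ (u i)) (he : Eqv u) :
    2 * ∫ y, φ y * (u 0 y ^ 2 + u 1 y ^ 2)
      ≤ ∫ y, φ y * ((∑ k, Jd k (u 0) y ^ 2) + ∑ k, Jd k (u 1) y ^ 2) := by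
  have c := fun k i => (Jd_smooth (hu i) k).continuous
  have c' := fun i => (hu i).continuous
  have i1 := fun i j => h.int (((c 0 i).fun_mul (c 1 j)).fun_sub ((c 1 i).fun_mul (c 0 j)))
  have i2 := h.int (((c' 0).fun_pow 2).fun_add ((c' 1).fun_pow 2))
  have i3 := (i1 0 1).sub' (i1 1 0)
  have h1 := LocAngA_comm h (hu 0) (hu 1)
  have h2 := LocAngA_comm h (hu 1) (hu 0)
  have h3 : ∫ y, φ y * (u 0 y ^ 2 + u 1 y ^ 2) =
      (∫ y, φ y * (u 0 y * Jd 2 (u 1) y)) - ∫ y, φ y * (u 1 y * Jd 2 (u 0) y) := by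
    rw [← integral_sub (h.int ((c' 0).fun_mul (c 2 1))) (h.int ((c' 1).fun_mul (c 2 0)))]
    refine integral_congr_ae (.of_forall fun y => ?_)
    simp only [eqv_J hu he y]
    ring
  rw [← h1, ← h2, ← integral_sub (i1 0 1) (i1 1 0)] at h3
  rw [two_mul]
  nth_rw 1 [h3]
  rw [← integral_add i3 i2]
  have c2 := fun i => continuous_finsetSum Finset.univ fun k _ => (c k i).fun_pow 2
  refine integral_mono (i3.add i2) (h.int ((c2 0).fun_add (c2 1))) fun y => ?_
  simp only [Fin.sum_univ_three, eqv_J hu he y, ← mul_sub, ← mul_add]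
  refine mul_le_mul_of_nonneg_left ?_ (h.nn y)
  nlinarith [sq_nonneg (Jd 0 (u 0) y - Jd 1 (u 1) y), sq_nonneg (Jd 0 (u 1) y + Jd 1 (u 0) y)]

end Pool.Agent.Work.MP_6bf1e5_an.H.Dyn
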