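import Pool.Agent.Work.MP_6bf1e5_an.H.LocAngA

/-!
The angular inequality for a function that vanishes on the plane y 2 = 0.
Hints. eqv_plane: the point act flpM y = (y 0, -y 1, 0) is act (rotM θ) y for a suitable θ (Complex.arg of the
square of the conjugate of y 0 + i y 1, or cos θ = (y0² - y1²) / ρ², sin θ = -2 y0 y1 / ρ²; if ρ = 0 then y = 0).
ang_two: n k = Jd k (fun y => y 2), that is y 1, -y 0, 0, with ∑ k, Jd k (n k) = -2 y 2; q = y 2 / (y 2 ^ 2 + ε).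
Expand 0 ≤ ∑ k, (Jd k f - q f n k) ^ 2, use Jd_ibp for f ^ 2 and q * n k: ∫ φ ∑ (Jd k f) ^ 2 ≥
2 ∫ φ f ^ 2 y2² / (y2² + ε) - ∫ φ f ^ 2 (y0² + y1²) ε / (y2² + ε) ^ 2. On the support of φ the mean value
inequality gives f ^ 2 ≤ C y2²; so the first term is within C ε ∫ φ of the claim, and the second tends to zero as
ε → 0 by dominated convergence (bound C φ (y0² + y1²), sequence ε = 1 / (n + 1)).
-/

open scoped ContDiff ENNReal FourierTransform Real
open Set MeasureTheory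

namespace Pool.Agent.Work.MP_6bf1e5_an.H.Dyn

variable {φ f : Sc} {u : Vc}

theorem eqv_plane (he : Eqv u) {y : R3} (hy : y 2 = 0) : u 2 y = 0 := by
  obtain ⟨r, a, h0, h1⟩ : ∃ r a : ℝ, y 0 = r * Real.cos a ∧ y 1 = r * Real.sin a :=
    ⟨_, _, (Complex.norm_mul_cos_arg ⟨y 0, y 1⟩).symm, (Complex.norm_mul_sin_arg ⟨y 0, y 1⟩).symm⟩
  have e : act (rotM (-(2 * a))) y = act flpM y := by
    have h2 := Real.sin_sq_add_cos_sq a
    ext i
    fin_cases i
    · simp [act, rotM, flpM, Fin.sum_univ_three, h0, h1, Real.cos_two_mul, Real.sin_two_mul]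
      linear_combination (2 * r * Real.cos a) * h2
    · simp [act, rotM, flpM, Fin.sum_univ_three, h0, h1, Real.cos_two_mul, Real.sin_two_mul]
      ring
    · simp [act, rotM, flpM, Fin.sum_univ_three, hy]
  have h3 := he.1 (-(2 * a)) y 2
  rw [e, he.2 y 2] at h3
  simp [rotM, flpM, Fin.sum_univ_three] at h3
  linarith

theorem locAngB_n0 : Jd 0 (fun y : R3 => y 2) = fun y => y 1 := by
  funext y
  simp [Jd, pd_coord]

theorem locAngB_n1 : Jd 1 (fun y : R3 => y 2) = fun y => -y 0 := by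
  funext y
  simp [Jd, pd_coord]

theorem locAngB_n2 : Jd 2 (fun y : R3 => y 2) = fun _ => 0 := by
  funext y
  simp [Jd, pd_coord]

theorem locAngB_m0 (y : R3) : Jd 0 (fun y : R3 => y 1) y = -y 2 := by
  simp [Jd, pd_coord]

theorem locAngB_m1 (y : R3) : Jd 1 (fun y : R3 => -y 0) y = -y 2 := by
  simp [Jd, pd_neg, pd_coord]

theorem locAngB_m2 (y : R3) : Jd 2 (fun _ : R3 => (0 : ℝ)) y = 0 := by
  simp [Jd, pd_const]

theorem locAngB_qs {ε : ℝ} (hε : 0 < ε) :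
    ContDiff ℝ ∞ fun y : R3 => y 2 * (y 2 ^ 2 + ε)⁻¹ :=
  (coord_smooth 2).mul ((((coord_smooth 2).pow 2).add contDiff_const).inv fun y => by positivity)

theorem locAngB_Jq {ε : ℝ} (hε : 0 < ε) (k : Fin 3) (y : R3) :
    Jd k (fun y : R3 => y 2 * (y 2 ^ 2 + ε)⁻¹) y =
      (ε - y 2 ^ 2) * (y 2 ^ 2 + ε)⁻¹ ^ 2 * Jd k (fun y : R3 => y 2) y := by
  have h0 : y 2 ^ 2 + ε ≠ 0 := by positivity
  have h1 : HasDerivAt (fun t : ℝ => t * (t ^ 2 + ε)⁻¹)
      ((ε - y 2 ^ 2) * (y 2 ^ 2 + ε)⁻¹ ^ 2) (y 2) := by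
    have h2 := (hasDerivAt_id (y 2)).mul (((hasDerivAt_pow 2 (y 2)).add_const ε).inv h0)
    refine h2.congr_deriv ?_
    simp only [id, Pi.inv_apply]
    field_simp
    ring
  have h3 := (h1.comp_hasFDerivAt y (dynCalc_d (coord_smooth 2) y).hasFDerivAt).fderiv
  have h4 : ∀ j, pd j (fun y : R3 => y 2 * (y 2 ^ 2 + ε)⁻¹) y =
      (ε - y 2 ^ 2) * (y 2 ^ 2 + ε)⁻¹ ^ 2 * pd j (fun y : R3 => y 2) y := by
    intro j
    have h5 := congrArg (fun L : R3 →L[ℝ] ℝ => L (EuclideanSpace.single j 1)) h3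
    exact h5
  simp only [Jd, h4]
  ring

theorem locAngB_eps (h : RadW φ) (hf : ContDiff ℝ ∞ f) {ε : ℝ} (hε : 0 < ε) :
    ∫ y, φ y * (f y ^ 2 * (2 * y 2 ^ 2 * (y 2 ^ 2 + ε)⁻¹
      - (y 0 ^ 2 + y 1 ^ 2) * ε * (y 2 ^ 2 + ε)⁻¹ ^ 2)) ≤ ∫ y, φ y * ∑ k, Jd k f y ^ 2 := by
  have hq := locAngB_qs hε
  have hn : ∀ k, ContDiff ℝ ∞ (Jd k fun y : R3 => y 2) := Jd_smooth (coord_smooth 2)
  obtain ⟨w, hw⟩ : ∃ w : Vc, w = fun k y =>
    y 2 * (y 2 ^ 2 + ε)⁻¹ * Jd k (fun y : R3 => y 2) y := ⟨_, rfl⟩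
  have hws : ∀ k, ContDiff ℝ ∞ (w k) := fun k => by rw [hw]; exact hq.mul (hn k)
  have hff : ContDiff ℝ ∞ fun y => f y * f y := hf.mul hf
  have i1 : ∀ k, Integrable fun y => φ y * (Jd k (fun y => f y * f y) y * w k y) := fun k =>
    h.int ((Jd_smooth hff k).continuous.mul (hws k).continuous)
  have i2 : ∀ k, Integrable fun y => φ y * (f y * f y * Jd k (w k) y) := fun k =>
    h.int (hff.continuous.mul (Jd_smooth (hws k) k).continuous)
  have e0 : ∫ y, ∑ k, (φ y * (Jd k (fun y => f y * f y) y * w k y)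
      + φ y * (f y * f y * Jd k (w k) y)) = 0 := by
    refine (integral_finsetSum _ fun k _ => (i1 k).add (i2 k)).trans ?_
    refine Finset.sum_eq_zero fun k _ => (integral_add (i1 k) (i2 k)).trans ?_
    rw [Jd_ibp h hff (hws k) k, neg_add_cancel]
  have c2 : ∀ i, Continuous fun y : R3 => y i := fun i => (coord_smooth i).continuous
  have c3 : Continuous fun y : R3 => (y 2 ^ 2 + ε)⁻¹ :=
    (((c2 2).pow 2).add continuous_const).inv₀ fun y =>
      (add_pos_of_nonneg_of_pos (sq_nonneg _) hε).ne'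
  have i3 : Integrable fun y => φ y * (f y ^ 2 * (2 * y 2 ^ 2 * (y 2 ^ 2 + ε)⁻¹
      - (y 0 ^ 2 + y 1 ^ 2) * ε * (y 2 ^ 2 + ε)⁻¹ ^ 2)) :=
    h.int ((hf.continuous.pow 2).mul (((continuous_const.mul ((c2 2).pow 2)).mul c3).sub
      (((((c2 0).pow 2).add ((c2 1).pow 2)).mul continuous_const).mul (c3.pow 2))))
  have i4 := integrable_finsetSum Finset.univ fun k _ => (i1 k).add (i2 k)
  refine le_trans (le_of_eq ?_) (integral_mono (i3.add i4)
    (h.int (continuous_finsetSum _ fun k _ => (Jd_smooth hf k).continuous.pow 2)) fun y => ?_)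
  · have e1 := integral_add i3 i4
    simp only [Pi.add_apply] at e1 ⊢
    rw [e1, e0, add_zero]
  · have hJ : ∀ k, Jd k (w k) y =
        (ε - y 2 ^ 2) * (y 2 ^ 2 + ε)⁻¹ ^ 2 * Jd k (fun y : R3 => y 2) y
          * Jd k (fun y : R3 => y 2) y
        + y 2 * (y 2 ^ 2 + ε)⁻¹ * Jd k (Jd k fun y : R3 => y 2) y := fun k => by
      rw [hw, ← locAngB_Jq hε]
      exact congrFun (Jd_mul hq (hn k) k) y
    have hp := mul_nonneg (h.nn y)
      (Finset.sum_nonneg (s := Finset.univ) fun k _ => sq_nonneg (Jd k f y - f y * w k y))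
    simp only [Pi.add_apply, Fin.sum_univ_three, hJ, Jd_mul hf hf] at hp ⊢
    simp only [hw, locAngB_n0, locAngB_n1, locAngB_n2, locAngB_m0, locAngB_m1, locAngB_m2] at hp ⊢
    linarith

theorem locAngB_lip (h : RadW φ) (hf : ContDiff ℝ ∞ f) (h0 : ∀ y : R3, y 2 = 0 → f y = 0) :
    ∃ C, 0 ≤ C ∧ ∀ y, φ y * f y ^ 2 ≤ φ y * (C * y 2 ^ 2) := by
  obtain ⟨R, hR⟩ := h.supp.isBounded.subset_closedBall 0
  obtain ⟨K, hK⟩ := LocallyLipschitzOn.exists_lipschitzOnWith_of_compact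
    (isCompact_closedBall (0 : R3) R)
    ((hf.of_le (m := 1) (by norm_cast)).locallyLipschitz.locallyLipschitzOn)
  refine ⟨K ^ 2, by positivity, fun y => ?_⟩
  by_cases hy : φ y = 0
  · simp [hy]
  refine mul_le_mul_of_nonneg_left ?_ (h.nn y)
  have h1 : y ∈ Metric.closedBall (0 : R3) R := hR (subset_tsupport _ hy)
  have h2 : y - EuclideanSpace.single 2 (y 2) ∈ Metric.closedBall (0 : R3) R := by
    rw [mem_closedBall_zero_iff] at h1 ⊢
    refine le_trans (abs_le_of_sq_le_sq' ?_ (norm_nonneg _)).2 h1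
    rw [norm_sq_eq, norm_sq_eq]
    simp [Fin.sum_univ_three, sq_nonneg]
  have h3 := hK.dist_le_mul _ h1 _ h2
  rw [h0 (y - EuclideanSpace.single 2 (y 2)) (by simp), dist_zero_right, dist_eq_norm,
    sub_sub_cancel, PiLp.norm_single, Real.norm_eq_abs, Real.norm_eq_abs] at h3
  have h4 := pow_le_pow_left₀ (abs_nonneg _) h3 2
  rwa [mul_pow, sq_abs, sq_abs] at h4

theorem ang_two (h : RadW φ) (hf : ContDiff ℝ ∞ f) (h0 : ∀ y : R3, y 2 = 0 → f y = 0) :
    2 * ∫ y, φ y * f y ^ 2 ≤ ∫ y, φ y * ∑ k, Jd k f y ^ 2 := by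
  obtain ⟨C, hC, hL⟩ := locAngB_lip h hf h0
  have c2 : ∀ i, Continuous fun y : R3 => y i := fun i => (coord_smooth i).continuous
  have hε : ∀ n : ℕ, (0 : ℝ) < 1 / ((n : ℝ) + 1) := fun n => Nat.one_div_pos_of_nat
  have hl := tendsto_one_div_add_atTop_nhds_zero_nat (𝕜 := ℝ)
  obtain ⟨e, hε, hl⟩ : ∃ e : ℕ → ℝ, (∀ n, 0 < e n) ∧ Filter.Tendsto e Filter.atTop (nhds 0) :=
    ⟨_, hε, hl⟩
  have c3 : ∀ n, Continuous fun y : R3 => (y 2 ^ 2 + e n)⁻¹ := fun n =>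
    (((c2 2).pow 2).add continuous_const).inv₀ fun y =>
      (add_pos_of_nonneg_of_pos (sq_nonneg _) (hε n)).ne'
  rw [← integral_const_mul]
  refine le_of_tendsto' (tendsto_integral_of_dominated_convergence
    (fun y => φ y * (2 * f y ^ 2 + (y 0 ^ 2 + y 1 ^ 2) * C)) (fun n => ?_) (h.int ?_)
    (fun n => Filter.Eventually.of_forall fun y => ?_) (Filter.Eventually.of_forall fun y => ?_))
    fun n => locAngB_eps h hf (hε n)
  · exact (h.smooth.continuous.mul ((hf.continuous.pow 2).mul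
      (((continuous_const.mul ((c2 2).pow 2)).mul (c3 n)).sub
      (((((c2 0).pow 2).add ((c2 1).pow 2)).mul continuous_const).mul
        ((c3 n).pow 2))))).aestronglyMeasurable
  · exact (continuous_const.mul (hf.continuous.pow 2)).add
      ((((c2 0).pow 2).add ((c2 1).pow 2)).mul continuous_const)
  · have h1 := hε n
    have h2 : 0 < y 2 ^ 2 + e n := by positivity
    have h3 : y 2 ^ 2 * (y 2 ^ 2 + e n)⁻¹ ≤ 1 := by
      rw [← div_eq_mul_inv, div_le_one h2]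
      linarith
    have h4 : e n * (y 2 ^ 2 + e n)⁻¹ ≤ 1 := by
      rw [← div_eq_mul_inv, div_le_one h2]
      linarith [sq_nonneg (y 2)]
    have h5 : 0 ≤ y 2 ^ 2 * (y 2 ^ 2 + e n)⁻¹ := by positivity
    have h6 := mul_le_one₀ h3 (by positivity) h4
    have h7 : 0 ≤ φ y * f y ^ 2 := mul_nonneg (h.nn y) (sq_nonneg _)
    have h8 : 0 ≤ (y 0 ^ 2 + y 1 ^ 2) * e n * (y 2 ^ 2 + e n)⁻¹ ^ 2 := by positivity
    have h9 : 0 ≤ φ y * ((y 0 ^ 2 + y 1 ^ 2) * C) := mul_nonneg (h.nn y) (by positivity)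
    have a1 := mul_le_mul_of_nonneg_left h3 h7
    have a2 := mul_nonneg h7 h5
    have a3 := mul_le_mul_of_nonneg_right (hL y) h8
    have a4 := mul_le_mul_of_nonneg_left h6 h9
    have a5 := mul_nonneg h7 h8
    rw [Real.norm_eq_abs, abs_le]
    constructor <;> linarith
  · by_cases hy : y 2 = 0
    · simp [h0 y hy]
    have h1 : y 2 ^ 2 + 0 ≠ 0 := by positivity
    have h2 := (hl.const_add (y 2 ^ 2)).inv₀ h1
    have h3 := (((h2.const_mul (2 * y 2 ^ 2)).sub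
      ((hl.const_mul (y 0 ^ 2 + y 1 ^ 2)).mul (h2.pow 2))).const_mul (f y ^ 2)).const_mul (φ y)
    convert h3 using 2
    field_simp
    ring

end Pool.Agent.Work.MP_6bf1e5_an.H.Dyn
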