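import Pool.Agent.Work.MP_6bf1e5_an.H.DynCalc

/-! The algebra of the symbol classes. -/

open scoped ContDiff ENNReal FourierTransform Real
open Set MeasureTheory

namespace Pool.Agent.Work.MP_6bf1e5_an.H

variable {m n : ℝ} {f g : Sc} {U V : Vc}

theorem ResLoc_mono (h : Sym m f) (hm : m ≤ n) : Sym n f := by
  refine ⟨h.1, fun l => ?_⟩
  obtain ⟨C, hC⟩ := h.2 l
  refine ⟨|C|, fun y => (hC y).trans ?_⟩
  have : 1 ≤ 1 + ‖y‖ := le_add_of_nonneg_right (norm_nonneg y)
  gcongr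
  exact le_abs_self C

theorem ResLoc_add (h : Sym m f) (h' : Sym m g) : Sym m fun y => f y + g y := by
  refine ⟨h.1.add h'.1, fun l => ?_⟩
  obtain ⟨C, hC⟩ := h.2 l
  obtain ⟨D, hD⟩ := h'.2 l
  refine ⟨C + D, fun y => ?_⟩
  rw [Dyn.pds_add h.1 h'.1, add_mul]
  exact (abs_add_le _ _).trans (add_le_add (hC y) (hD y))

theorem ResLoc_cmul (h : Sym m f) (c : ℝ) : Sym m fun y => c * f y := by
  refine ⟨contDiff_const.mul h.1, fun l => ?_⟩
  obtain ⟨C, hC⟩ := h.2 l
  refine ⟨|c| * C, fun y => ?_⟩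
  rw [Dyn.pds_cmul h.1, abs_mul, mul_assoc]
  exact mul_le_mul_of_nonneg_left (hC y) (abs_nonneg c)

theorem ResLoc_sub (h : Sym m f) (h' : Sym m g) : Sym m fun y => f y - g y := by
  simpa only [neg_one_mul, sub_eq_add_neg] using ResLoc_add h (ResLoc_cmul h' (-1))

theorem ResLoc_zero (m : ℝ) : Sym m fun _ => 0 := by
  refine ⟨contDiff_const, fun l => ⟨0, fun y => ?_⟩⟩
  have h := congrFun (Dyn.pds_cmul (f := fun _ => 0) contDiff_const 0 l) y
  simp only [zero_mul] at h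
  rw [h, zero_mul, abs_zero]

theorem ResLoc_sum {ι : Type} (t : Finset ι) {F : ι → Sc} (h : ∀ i ∈ t, Sym m (F i)) :
    Sym m fun y => ∑ i ∈ t, F i y := by
  classical
  induction t using Finset.induction_on with
  | empty => exact ResLoc_zero m
  | insert i t hi ih =>
    simp only [Finset.sum_insert hi]
    exact ResLoc_add (h i (Finset.mem_insert_self i t))
      (ih fun k hk => h k (Finset.mem_insert_of_mem hk))

theorem ResLoc_pd (h : Sym m f) (j : Fin 3) : Sym (m - 1) (pd j f) := by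
  refine ⟨Dyn.pd_smooth h.1 j, fun l => ?_⟩
  have := h.2 (l ++ [j])
  rwa [Dyn.pds_append, List.length_append, List.length_singleton, Nat.cast_succ,
    sub_add_eq_sub_sub_swap] at this

theorem ResLoc_mul (h : Sym m f) (h' : Sym n g) : Sym (m + n) fun y => f y * g y := by
  refine ⟨h.1.mul h'.1, fun l => ?_⟩
  induction l using List.reverseRecOn generalizing m n f g with
  | nil =>
    obtain ⟨C, hC⟩ := h.2 []
    obtain ⟨D, hD⟩ := h'.2 []
    refine ⟨C * D, fun y => ?_⟩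
    simp only [List.length_nil, Nat.cast_zero, sub_zero] at hC hD ⊢
    rw [Real.rpow_add (by positivity), mul_mul_mul_comm]
    exact (abs_mul _ _).trans_le (mul_le_mul (hC y) (hD y) (abs_nonneg _)
      ((abs_nonneg _).trans (hC y)))
  | append_singleton l j ih =>
    obtain ⟨C, hC⟩ := ih (ResLoc_pd h j) h'
    obtain ⟨D, hD⟩ := ih h (ResLoc_pd h' j)
    refine ⟨C + D, fun y => ?_⟩
    rw [Dyn.pds_append, Dyn.pd_mul h.1 h'.1, Dyn.pds_add ((Dyn.pd_smooth h.1 j).mul h'.1)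
      (h.1.mul (Dyn.pd_smooth h'.1 j)), add_mul, List.length_append, List.length_singleton,
      Nat.cast_succ]
    refine (abs_add_le _ _).trans (add_le_add ((hC y).trans_eq ?_) ((hD y).trans_eq ?_)) <;>
      congr 2 <;> ring

theorem ResLoc_curl (h : ∀ i, Sym m (V i)) (i : Fin 3) : Sym (m - 1) (curl V i) :=
  ResLoc_sub (ResLoc_pd (h _) _) (ResLoc_pd (h _) _)

theorem ResLoc_cross (h : ∀ i, Sym m (U i)) (h' : ∀ i, Sym n (V i)) (i : Fin 3) :
    Sym (m + n) (cross U V i) :=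
  ResLoc_sub (ResLoc_mul (h _) (h' _)) (ResLoc_mul (h _) (h' _))

end Pool.Agent.Work.MP_6bf1e5_an.H
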