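import Pool.Agent.Work.MP_6bf1e5_an.H.LocDefs
import Pool.Agent.Work.MP_6bf1e5_an.H.DynHinf
import Pool.Agent.Work.MP_6bf1e5_an.H.ResLocA
import Pool.Agent.Work.MP_6bf1e5_an.H.ResRad

/-!
Basic tools: the weight, Cauchy-Schwarz inequalities, integration by parts.
Hints. sym_Om: sym_tau_mul with a = 1, k = 4, Q = 1 (tau_four). cs_int: |f| ≤ (t p + q / t) / 2 with
t = (b + ε) / (a + ε), then ε → 0 (le_of_forall_pos_le_add or continuity). t1_sq .. t3_sq, fro_add: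
Finset.sum_mul_sq_le_sq_mul_sq, twice. int_Om_sq: integrable_rpow_neg_one_add_norm_sq or integrable_one_add_norm.
ip_curl, ip_grad: ip_eq, ibp, Fin.sum_univ_three.
-/

open scoped ContDiff ENNReal FourierTransform Real
open Set MeasureTheory

namespace Pool.Agent.Work.MP_6bf1e5_an.H.Dyn

variable {f g w : Sc} {a b v : Vc}

theorem LocBase_Om : Om = fun y => 2 * tau 1 y ^ 4 := by
  funext y
  have h := tau_four one_pos y
  rw [Om, div_eq_iff (by positivity)]
  linear_combination (-2) * h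

theorem sym_Om : Sym (-2) Om := by
  have h := sym_tau_mul one_pos (Q := fun _ => 2) (d := 0) ⟨contDiff_const, fun r _ y => by simp⟩ 4
  rw [LocBase_Om]
  convert h using 1
  · norm_num
  · exact funext fun y => mul_comm _ _

theorem Om_norm (y : R3) : Om y * ‖y‖ ^ 2 = 2 - Om y := by
  unfold Om
  field_simp
  ring

theorem norm_sq_eq (y : R3) : ‖y‖ ^ 2 = ∑ j, y j ^ 2 := EuclideanSpace.real_norm_sq_eq y

theorem pd_Om (j : Fin 3) : pd j Om = fun y => -(Om y ^ 2 * y j) := by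
  funext y
  rw [LocBase_Om, pd_cmul ((tau_smooth one_pos).pow 4)]
  simp only [pd_tau_pow one_pos]
  push_cast
  ring

theorem lap_Om (y : R3) : lap Om y = Om y ^ 2 * (1 - 2 * Om y) := by
  have h : ∀ j, pd j (pd j Om) y = 2 * Om y ^ 3 * y j ^ 2 - Om y ^ 2 := fun j => by
    rw [pd_Om, pd_neg]
    simp only [sq]
    rw [pd_mul (Om_smooth.mul Om_smooth) (coord_smooth j), pd_mul Om_smooth Om_smooth, pd_coord,
      pd_Om]
    simp only [if_true]
    ring
  have h1 := Om_norm y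
  rw [norm_sq_eq, Fin.sum_univ_three] at h1
  simp only [lap, h, Fin.sum_univ_three]
  linear_combination 2 * Om y ^ 2 * h1

theorem Op_two (y : R3) : Op 2 y = Om y ^ 2 := Real.rpow_two _

theorem Op_neg_one (y : R3) : Op (-1) y = (Om y)⁻¹ := Real.rpow_neg_one _

theorem Op_cont (e : ℝ) : Continuous (Op e) :=   Om_smooth.continuous.rpow_const fun y => .inl (Om_pos y).ne'

theorem Op_pos (e : ℝ) (y : R3) : 0 < Op e y := Real.rpow_pos_of_pos (Om_pos y) e

theorem Op_sq (y : R3) : Op (3 / 4) y ^ 2 = Op (3 / 2) y := by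
  rw [Op, Op, ← Real.rpow_natCast, ← Real.rpow_mul (Om_pos y).le]
  norm_num

theorem Op_le (y : R3) : |Op (3 / 4) y| ≤ 2 := by
  rw [abs_of_pos (Op_pos _ y)]
  refine (Real.rpow_le_rpow (Om_pos y).le (Om_le y) (by norm_num)).trans ?_
  exact (Real.rpow_le_rpow_of_exponent_le one_le_two (by norm_num)).trans_eq (Real.rpow_one 2)

theorem Op_young {t : ℝ} (ht : 0 < t) (y : R3) :
    Op (3 / 4) y ≤ t ^ 3 / 4 + 3 / (4 * t) * Om y := by
  have h1 : Op (3 / 4) y = Op (1 / 4) y ^ 3 := by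
    rw [Op, Op, ← Real.rpow_natCast, ← Real.rpow_mul (Om_pos y).le]
    norm_num
  have h2 : Om y = Op (1 / 4) y ^ 4 := by
    rw [Op, ← Real.rpow_natCast, ← Real.rpow_mul (Om_pos y).le]
    norm_num
  have h3 := Op_pos (1 / 4) y
  rw [h1, h2]
  generalize Op (1 / 4) y = s at h3
  have h4 : t ^ 3 / 4 + 3 / (4 * t) * s ^ 4 - s ^ 3 =
      (t - s) ^ 2 * (t ^ 2 + 2 * t * s + 3 * s ^ 2) / (4 * t) := by
    field_simp
    ring
  rw [← sub_nonneg, h4]
  positivity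

theorem rpow_sq_le (n : ℕ) (y : R3) :
    ((1 + ‖y‖) ^ (-(n : ℝ))) ^ 2 ≤ (Om y / 2) ^ n := by
  rw [Real.rpow_neg (by positivity), Real.rpow_natCast, ← inv_pow, pow_right_comm]
  refine pow_le_pow_left₀ (by positivity) ?_ n
  rw [Om, inv_pow, div_div_cancel_left' two_ne_zero]
  exact inv_anti₀ (by positivity) (by nlinarith [norm_nonneg y])

theorem int_Om_sq : Integrable fun y => Om y ^ 2 := by
  have h := (integrable_rpow_neg_one_add_norm_sq (E := R3) (μ := volume) (r := 4)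
    (by simp; norm_num)).const_mul 4
  refine h.congr (.of_forall fun y => ?_)
  have e : (-4 / 2 : ℝ) = -((2 : ℕ) : ℝ) := by norm_num
  simp only [Om]
  rw [e, Real.rpow_neg (by positivity), Real.rpow_natCast, div_pow, div_eq_mul_inv]
  norm_num

theorem sym_bdd (hw : Sym 0 w) : ∃ C, ∀ y, |w y| ≤ C := by
  simpa [pds] using hw.2 []

theorem hinf_smul (hw : Sym 0 w) (hf : Hinf f) : Hinf fun y => w y * f y := hf.mul_sym hw

theorem hinf_Om (hf : Hinf f) : Hinf fun y => Om y * f y :=   hinf_smul (ResLoc_mono sym_Om (by norm_num)) hf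

theorem hinf_cross (ha : ∀ i, Hinf (a i)) (hb : ∀ i, Hinf (b i)) (i : Fin 3) :
    Hinf (cross a b i) := hinf_sub (hinf_mul (ha _) (hb _)) (hinf_mul (ha _) (hb _))

theorem int_nw (hw : Continuous w) {C : ℝ} (hC : ∀ y, |w y| ≤ C) (hv : ∀ i, Hinf (v i)) :
    Integrable fun y => w y * dot v v y := by
  simp only [dot, Finset.mul_sum]
  exact integrable_finsetSum _ fun i _ => int_wmul hw hC (hv i) (hv i)

theorem int_gw (hw : Continuous w) {C : ℝ} (hC : ∀ y, |w y| ≤ C) (hv : ∀ i, Hinf (v i)) :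
    Integrable fun y => w y * g1 v y := by
  simp only [g1, Finset.mul_sum, sq]
  exact integrable_finsetSum _ fun i _ => integrable_finsetSum _ fun j _ =>
    int_wmul hw hC ((hv i).pd j) ((hv i).pd j)

theorem nw_nonneg (hw : ∀ y, 0 ≤ w y) (v : Vc) : 0 ≤ nw w v :=   integral_nonneg fun y => mul_nonneg (hw y) (Finset.sum_nonneg fun _ _ => mul_self_nonneg _)

theorem gw_nonneg (hw : ∀ y, 0 ≤ w y) (v : Vc) : 0 ≤ gw w v :=   integral_nonneg fun y => mul_nonneg (hw y)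
    (Finset.sum_nonneg fun _ _ => Finset.sum_nonneg fun _ _ => sq_nonneg _)

theorem LocBase_cs {p q : Sc} (hp : Integrable p) (hq : Integrable q) (hp0 : ∀ y, 0 ≤ p y)
    (hq0 : ∀ y, 0 ≤ q y) (h : ∀ y, f y ^ 2 ≤ p y * q y) :
    (∫ y, f y) ^ 2 ≤ (∫ y, p y) * ∫ y, q y := by
  have h1 := discrim_le_zero (a := ∫ y, p y) (b := 2 * ∫ y, f y) (c := ∫ y, q y) fun x => by
    have h2 := norm_integral_le_of_norm_le (f := fun y => 2 * x * f y)
      ((hp.const_mul (x ^ 2)).add hq) (.of_forall fun y => abs_le_of_sq_le_sq (by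
        have := mul_le_mul_of_nonneg_left (h y) (sq_nonneg (2 * x))
        simp only [Pi.add_apply]
        nlinarith [sq_nonneg (x ^ 2 * p y - q y)])
        (add_nonneg (mul_nonneg (sq_nonneg x) (hp0 y)) (hq0 y)))
    rw [integral_add' (hp.const_mul _) hq, integral_const_mul, integral_const_mul] at h2
    linarith [(abs_le.1 h2).1]
  rw [discrim] at h1
  linarith

theorem cs_int {p q : Sc} (hp : Integrable p) (hq : Integrable q) (hp0 : ∀ y, 0 ≤ p y)
    (hq0 : ∀ y, 0 ≤ q y) (h : ∀ y, f y ^ 2 ≤ p y * q y) {s t : ℝ} (hs : 0 ≤ s) (ht : 0 ≤ t)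
    (h1 : ∫ y, p y ≤ s ^ 2) (h2 : ∫ y, q y ≤ t ^ 2) : |∫ y, f y| ≤ s * t := by
  refine abs_le_of_sq_le_sq ((LocBase_cs hp hq hp0 hq0 h).trans ?_) (mul_nonneg hs ht)
  rw [mul_pow]
  exact mul_le_mul h1 h2 (integral_nonneg hq0) (sq_nonneg s)

theorem cs_int_sq {p q : Sc} (hp : Integrable p) (hq : Integrable q) (hp0 : ∀ y, 0 ≤ p y)
    (hq0 : ∀ y, 0 ≤ q y) (h : ∀ y, f y ^ 2 ≤ p y * q y) :
    (∫ y, f y) ^ 2 ≤ (∫ y, p y) * ∫ y, q y := LocBase_cs hp hq hp0 hq0 h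

theorem fro_add {ι : Type} [Fintype ι] {x z : ι → ℝ} {s t : ℝ} (hs : 0 ≤ s) (ht : 0 ≤ t)
    (hx : ∑ i, x i ^ 2 ≤ s ^ 2) (hz : ∑ i, z i ^ 2 ≤ t ^ 2) :
    ∑ i, (x i + z i) ^ 2 ≤ (s + t) ^ 2 := by
  have h : ∑ i, x i * z i ≤ s * t := by
    refine le_of_sq_le_sq ((Finset.sum_mul_sq_le_sq_mul_sq _ x z).trans ?_) (mul_nonneg hs ht)
    rw [mul_pow]
    exact mul_le_mul hx hz (Finset.sum_nonneg fun _ _ => sq_nonneg _) (sq_nonneg s)
  simp only [add_sq, Finset.sum_add_distrib, mul_assoc, ← Finset.mul_sum]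
  linarith

theorem dot_sq (a b : Vc) (y : R3) : dot a b y ^ 2 ≤ dot a a y * dot b b y := by
  simpa only [dot, sq] using
    Finset.sum_mul_sq_le_sq_mul_sq Finset.univ (fun i => a i y) fun i => b i y

theorem dot_cross_le (a b : Vc) (y : R3) :
    dot (cross a b) (cross a b) y ≤ dot a a y * dot b b y := by
  simp only [dot, cross, Fin.sum_univ_three, Fin.isValue, Fin.reduceAdd]
  nlinarith [sq_nonneg (a 0 y * b 0 y + a 1 y * b 1 y + a 2 y * b 2 y)]

theorem dot_curl_le (v : Vc) (y : R3) : dot (curl v) (curl v) y ≤ 2 * g1 v y := by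
  simp only [dot, curl, g1, Fin.sum_univ_three, Fin.isValue, Fin.reduceAdd]
  nlinarith [sq_nonneg (pd 1 (v 2) y + pd 2 (v 1) y), sq_nonneg (pd 2 (v 0) y + pd 0 (v 2) y),
    sq_nonneg (pd 0 (v 1) y + pd 1 (v 0) y), sq_nonneg (pd 0 (v 0) y), sq_nonneg (pd 1 (v 1) y),
    sq_nonneg (pd 2 (v 2) y)]

theorem g1_curl_le (hv : ∀ i, ContDiff ℝ ∞ (v i)) (y : R3) : g1 (curl v) y ≤ 2 * g2 v y := by
  rw [g1, g2, Finset.sum_comm, Finset.sum_comm (f := fun i j => ∑ k, pd k (pd j (v i)) y ^ 2),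
    Finset.mul_sum]
  refine Finset.sum_le_sum fun j _ => ?_
  simpa only [dot, g1, pd_curl hv, sq] using dot_curl_le (fun k => pd j (v k)) y

theorem LocBase_tri (x z : Fin 3 → Fin 3 → Fin 3 → ℝ) (u : Fin 3 → Fin 3 → ℝ) :
    (∑ i, ∑ j, ∑ k, x i j k * z i j k * u i k) ^ 2 ≤
      (∑ i, ∑ k, (∑ j, x i j k ^ 2) * ∑ j, z i j k ^ 2) * ∑ i, ∑ k, u i k ^ 2 := by
  have h := Finset.sum_mul_sq_le_sq_mul_sq Finset.univ
    (fun p : Fin 3 × Fin 3 => ∑ j, x p.1 j p.2 * z p.1 j p.2) fun p => u p.1 p.2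
  simp only [Fintype.sum_prod_type, Finset.sum_mul] at h
  rw [Finset.sum_congr rfl fun i _ => Finset.sum_comm]
  refine h.trans ?_
  simp only [← Finset.sum_mul]
  exact mul_le_mul_of_nonneg_right (Finset.sum_le_sum fun i _ => Finset.sum_le_sum fun k _ =>
    Finset.sum_mul_sq_le_sq_mul_sq _ _ _)
    (Finset.sum_nonneg fun _ _ => Finset.sum_nonneg fun _ _ => sq_nonneg _)

theorem t1_sq (a b v : Vc) (y : R3) : t1 a b v y ^ 2 ≤ g1 a y * g1 b y * g1 v y := by
  refine (LocBase_tri (fun _ j k => pd k (a j) y) (fun i j _ => pd j (b i) y)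
    fun i k => pd k (v i) y).trans_eq ?_
  simp only [g1, Fin.sum_univ_three]
  ring

theorem t2_sq (a b v : Vc) (y : R3) : t2 a b v y ^ 2 ≤ dot a a y * g2 b y * g1 v y := by
  refine (LocBase_tri (fun _ j _ => a j y) (fun i j k => pd k (pd j (b i)) y)
    fun i k => pd k (v i) y).trans_eq ?_
  simp only [g1, g2, dot, Fin.sum_univ_three]
  ring

theorem t3_sq (a b v : Vc) (y : R3) : t3 a b v y ^ 2 ≤ g1 a y * g1 b y * g1 v y := by
  refine (LocBase_tri (fun _ j k => pd k (a j) y) (fun i j _ => pd i (b j) y)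
    fun i k => pd k (v i) y).trans_eq ?_
  simp only [g1, Fin.sum_univ_three]
  ring

theorem ip_curl (ha : ∀ i, Hinf (a i)) (hb : ∀ i, Hinf (b i)) : ip (curl a) b = ip a (curl b) := by
  rw [ip_eq (hinf_curl ha) hb, ip_eq ha (hinf_curl hb)]
  simp only [curl, sub_mul, mul_sub, integral_sub (int_mul ((ha _).pd _) (hb _))
    (int_mul ((ha _).pd _) (hb _)), integral_sub (int_mul (ha _) ((hb _).pd _))
    (int_mul (ha _) ((hb _).pd _)), ibp (ha _) (hb _), Fin.sum_univ_three, Fin.isValue,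
    Fin.reduceAdd]
  ring

theorem ip_grad (hv : ∀ i, Hinf (v i)) (hd : ∀ y, dvg v y = 0) (hf : Hinf f) :
    ∫ y, ∑ i, v i y * pd i f y = 0 := by
  have h : ∀ i, ∫ y, v i y * pd i f y = -∫ y, pd i (v i) y * f y := fun i => by
    rw [ibp (hv i) hf, neg_neg]
  have h1 : ∀ y, ∑ j, pd j (v j) y = 0 := hd
  rw [integral_finsetSum _ fun i _ => int_mul (hv i) (hf.pd i)]
  simp only [h, Finset.sum_neg_distrib]
  rw [← integral_finsetSum _ fun i _ => int_mul ((hv i).pd i) hf]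
  simp only [← Finset.sum_mul, h1, zero_mul, integral_zero, neg_zero]

end Pool.Agent.Work.MP_6bf1e5_an.H.Dyn
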