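import Pool.Agent.Work.MP_6bf1e5_an.H.ResDefs

/-!
Separated fields, the Galerkin modes, and the finite data from which the level one inequality
follows.
-/

open scoped ContDiff ENNReal FourierTransform Real
open Set MeasureTheory Polynomial

namespace Pool.Agent.Work.MP_6bf1e5_an.H

noncomputable section

/-! ### Separated fields -/

/-- The Gegenbauer polynomials with parameter `b / 2`; `geg 1` are the Legendre polynomials. -/
def geg (b : ℕ) : ℕ → ℝ[X]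
  | 0 => 1
  | 1 => C (b : ℝ) * X
  | m + 2 => C (1 / (m + 2) : ℝ) *
    (C (2 * m + 2 + b : ℝ) * X * geg b (m + 1) - C (m + b : ℝ) * geg b m)

/-- A function of `|y|²`. -/
def rad (f : ℝ → ℝ) : Sc := fun y => f (‖y‖ ^ 2)

/-- Smooth radial profiles. -/
def RadS (f : ℝ → ℝ) : Prop := ∃ a > 0, ContDiffOn ℝ ∞ f (Ioi (-a))

def tor (l : ℕ) (f : ℝ → ℝ) : Vc := sm (rad f) (TT l)

def mer (l : ℕ) (α β : ℝ → ℝ) : Vc := sm (rad α) (grad (Hl l)) + sm (rad β) (sm (Hl l) pos)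

/-- The profile of `Om ^ e * P (1 - Om)`. -/
def omF (e : ℝ) (P : ℝ[X]) : ℝ → ℝ := fun z => (2 / (1 + z)) ^ e * P.eval (1 - 2 / (1 + z))

/-- The derivative of `omF e P` is `omF (e + 1) (dP e P)`. -/
def dP (e : ℝ) (P : ℝ[X]) : ℝ[X] := C (-1 / 2 : ℝ) * (C e * P - (1 - X) * derivative P)

/-- The field `Om ^ e P (σ₄) T_l`. -/
def tO (l : ℕ) (e : ℝ) (P : ℝ[X]) : Vc := tor l (omF e P)

/-- The field `Om ^ e P (σ₄) ∇ H_l + Om ^ (e + 1) P' (σ₄) H_l y`. -/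
def mO (l : ℕ) (e : ℝ) (P P' : ℝ[X]) : Vc := mer l (omF e P) (omF (e + 1) P')

/-- The scalar `Om ^ e P (σ₄) H_l`. -/
def sO (l : ℕ) (e : ℝ) (P : ℝ[X]) : Sc := rad (omF e P) * Hl l

/-- The profile `τ ^ e * P τ`, `τ = (1 + a z) ^ (-1/4)`. -/
def tF (a e : ℝ) (P : ℝ[X]) : ℝ → ℝ := fun z =>
  (1 + a * z) ^ (-(e / 4)) * P.eval ((1 + a * z) ^ (-(1 / 4) : ℝ))

/-! ### Galerkin modes -/

/-- The toroidal harmonic of degree `l + m` of the sphere. -/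
def eV (l m : ℕ) : Vc := tO l l (geg (2 * l + 2) m)

/-- `X × Y`. -/
def Xx (Y : Vc) : Vc := fun i y => (Om y)⁻¹ * curl Y i y - cross pos (fun j => yd (Y j)) i y

/-- `σ × Y`. -/
def Sx (Y : Vc) : Vc := sm Om (cross pos Y)

/-- The part of degree `k + d - 1` of `Om ^ (-3/4) curl (Om ^ (3/4) Y)`, `Y` of degree `k`. -/
def cg (k : ℕ) (d : Fin 3) (Y : Vc) : Vc := fun i y =>
  ![(k + 5 / 4) / (2 * k + 2) * (Xx Y i y + k * Sx Y i y), curl Y i y - Xx Y i y,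
    -(k + 3 / 4) / (2 * k + 2) * ((k + 2) * Sx Y i y - Xx Y i y)] d

/-- A mode: type (`true` for a poloidal velocity), `l`, and the coefficients of the potential. -/
structure Mode where
  pol : Bool
  l : ℕ
  M : ℕ
  B : ℕ → ℝ

/-- The potential of a mode. -/
def Mode.pot (a : Mode) : Vc := fun i y =>
  Op (3 / 4) y * ∑ m ∈ Finset.range a.M, a.B m * eV a.l m i y

/-- The dissipation applied to the potential. -/
def Mode.lpot (a : Mode) : Vc := fun i y =>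
  Op (9 / 4) y * ∑ m ∈ Finset.range a.M, a.B m * lam (a.l + m) * eV a.l m i y

/-- The velocity of a mode. -/
def Mode.u (a : Mode) : Vc := if a.pol then curl a.pot else a.pot

/-- The dissipation applied to the vorticity of a mode. -/
def Mode.lp (a : Mode) : Vc := if a.pol then curl (curl a.lpot) else curl a.lpot

/-- The part of degree `k` of `Om ^ (-3/4)` times the vorticity of a mode. -/
def Mode.gr (a : Mode) (k : ℕ) : Vc := fun i y =>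
  ∑ m ∈ Finset.range a.M, a.B m *
    if a.pol then ∑ d : Fin 3, ∑ d' : Fin 3,
      if a.l + m + d + d' = k + 2 then cg (a.l + m + d - 1) d' (cg (a.l + m) d (eV a.l m)) i y else 0
    else ∑ d : Fin 3, if a.l + m + d = k + 1 then cg (a.l + m) d (eV a.l m) i y else 0

/-- The modes are triangular: for every even `l` and every degree up to the cut there is a mode
whose potential starts with a nonzero multiple of that harmonic. -/
def Spans (n : ℕ) {ι : Type} (md : ι → Mode) : Prop :=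
  (∀ j, 2 ≤ (md j).l ∧ (md j).l % 2 = 0) ∧
  ∀ (pol : Bool) (l m : ℕ), 2 ≤ l → l % 2 = 0 → l + m ≤ n + (if pol then 1 else 0) →
    ∃ j, (md j).pol = pol ∧ (md j).l = l ∧ m < (md j).M ∧ (md j).B m ≠ 0 ∧
      ∀ m' < m, (md j).B m' = 0

/-! ### The finite data -/

/-- A Galerkin family: admissible fields, the graded parts of their vorticities, and the splitting. -/
structure Gal (n : ℕ) {ι : Type} [Fintype ι] (u : ι → Vc) (Y : ι → ℕ → Vc) : Prop where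
  adm : ∀ j, Adm (u j)
  sym : ∀ j i, Sym (-2) (u j i)
  hf : ∀ j k i, HF k (Y j k i)
  perp : ∀ j i, Perp (9 / 4) n fun y =>
    curl (u j) i y - Op (3 / 4) y * ∑ k ∈ Finset.range n, Y j k i y
  split : ∀ w, Adm w → ∃ c : ι → ℝ, ∀ i, Perp (9 / 4) (n + 1) fun y => w i y - lc c u i y

/-- Measurable functions of growth `m`. -/
def Bd (m : ℝ) (f : Sc) : Prop :=
  AEStronglyMeasurable f volume ∧ ∃ C, ∀ᵐ y, |f y| ≤ C * (1 + ‖y‖) ^ m

/-- Test fields: `Om ^ b` times polynomials of degree below `n`. -/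
def Test (b : ℝ) (n : ℕ) (ϑ : Vc) : Prop :=
  ∀ i, ∃ g, PolyF (n - 1) g ∧ ϑ i = Op b * g

/-- Pairs of fields that annihilate the tails (vorticity, velocity). -/
structure Null (n : ℕ) (ϑ ϑ' : Vc) : Prop where
  bv : ∀ i, Bd (-3) (ϑ i)
  bu : ∀ i, Bd (-4) (ϑ' i)
  zero : ∀ w, Adm w → (∀ i, Perp (9 / 4) (n + 1) (w i)) → ip (curl w) ϑ + ip w ϑ' = 0

/-- The weight of the multiplier identity. -/
def WW (c3 : ℝ) (φ : ℝ → ℝ) : Sc := fun y => c3 * Op (3 / 2) y + ‖y‖ ^ 2 * φ (‖y‖ ^ 2)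

/-- Its gradient is `- WG` times the position. -/
def WG (c3 : ℝ) (φ : ℝ → ℝ) : Sc := fun y =>
  3 / 2 * c3 * Op (5 / 2) y - 2 * (φ (‖y‖ ^ 2) + ‖y‖ ^ 2 * deriv φ (‖y‖ ^ 2))

/-- The weight gained on the velocity. -/
def PN (n : ℕ) (c3 : ℝ) (φ : ℝ → ℝ) : Sc := fun y =>
  c3 * Op (5 / 2) y * ((n * (n + 2) + 21 / 16) * Om y - 9 / 8) - φ (‖y‖ ^ 2)
    - 7 * ‖y‖ ^ 2 * deriv φ (‖y‖ ^ 2) - 2 * (‖y‖ ^ 2) ^ 2 * deriv (deriv φ) (‖y‖ ^ 2)

/-- Matrix fields. -/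
abbrev Mc := Fin 3 → Fin 3 → Sc

/-- Weights for which the tails gain `P` on the velocity. -/
structure Gain (n : ℕ) (W G P : Sc) : Prop where
  bW : Bd 0 W
  bG : Bd (-1) G
  bP : Bd 0 P
  le : ∀ w, Adm w → (∀ i, Perp (9 / 4) (n + 1) (w i)) →
    nw P w ≤ nw W (curl w) - ip (curl w) (sm G (cross pos w))

/-- The pointwise matrix inequality. -/
def LMI (Vt Bt : Mc) (W G P mv mu : Sc) : Prop :=
  ∀ᵐ y, ∀ q u : Fin 3 → ℝ, mv y * ∑ i, q i ^ 2 + mu y * ∑ i, u i ^ 2 ≤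
    ∑ i, ∑ j, q i * Vt i j y * q j - W y * ∑ i, q i ^ 2
      + ∑ i, ∑ j, q i * Bt i j y * u j
      + G y * ∑ i, q i * (y (i + 1) * u (i + 2) - y (i + 2) * u (i + 1))
      + P y * ∑ i, u i ^ 2

/-- A matrix field applied to a vector field. -/
def mv3 (M : Mc) (a : Vc) : Vc := fun i y => ∑ j, M i j y * a j y

/-- The transposed matrix field applied to a vector field. -/
def vm3 (M : Mc) (a : Vc) : Vc := fun j y => ∑ i, a i y * M i j y

/-- The approximate coefficient fields and the parameters of the finite problem. -/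
structure Tab (L : Lyap) where
  ν : ℝ
  μ : ℝ
  μ' : ℝ
  n : ℕ
  V : Mc
  B : Mc
  P : Fin L.r → Vc
  Q : Fin L.r → Vc

variable {L : Lyap}

/-- The approximate `kForm`. -/
def Tab.k (T : Tab L) (a : Fin L.r) (w : Vc) : ℝ :=
  T.ν * ip (LamV (curl w)) (L.θ a) + ip (curl w) (T.P a) + ip w (T.Q a)

def Tab.kZ (T : Tab L) (i : Fin 2) (w : Vc) : ℝ := ∑ a, L.Z i a * T.k a w

/-- The finite rank part of the form. -/
def Tab.FF (T : Tab L) (w : Vc) : ℝ :=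
  ∑ a, mom (L.θF a) w * T.k a w - T.μ * (∑ a, mom (L.θF a) w * mom (L.θ a) w + 2 * L.zz w)
    - T.μ' * ∑ i, T.kZ i w ^ 2

/-- The form on a field `w` whose vorticity has the low graded parts `Yw`. -/
def Tab.M0 (T : Tab L) (w : Vc) (Yw : ℕ → Vc) : ℝ :=
  T.ν * (∫ y, Om y ^ 4 * ∑ i, (∑ k ∈ Finset.range T.n, (lam k - lamS T.n) * Yw k i y)
      * ∑ k ∈ Finset.range T.n, Yw k i y)
    + (∫ y, bf T.V (curl w) (curl w) y) + (∫ y, bf T.B (curl w) w y) + T.FF w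

/-- The coefficient of `P a` and `Q a`. -/
def Tab.ca (T : Tab L) (a : Fin L.r) (w : Vc) : ℝ :=
  mom (L.θF a) w - 2 * T.μ' * ∑ i, L.Z i a * T.kZ i w

/-- The coefficient of `θ a`. -/
def Tab.cb (T : Tab L) (a : Fin L.r) (w : Vc) : ℝ :=
  ∑ b, L.F a b * T.k b w - 2 * T.μ * (mom (L.θF a) w + 2 * ∑ i, L.Z i a * mom (L.θZ i) w)

/-- The field paired with the tail of the vorticity. -/
def Tab.hV (T : Tab L) (w : Vc) : Vc := fun i y =>
  2 * mv3 T.V (curl w) i y + mv3 T.B w i y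
    + ∑ a, (T.ca a w * T.P a i y + T.cb a w * L.θ a i y)

/-- The field paired with the tail of the velocity. -/
def Tab.hU (T : Tab L) (w : Vc) : Vc := fun i y =>
  vm3 T.B (curl w) i y + ∑ a, T.ca a w * T.Q a i y

/-- The finite data. -/
structure Fin2 (T : Tab L) {ι : Type} [Fintype ι] (u : ι → Vc) (Y : ι → ℕ → Vc)
    (W G P mv mu ov ou : Sc) (vth sp : ℝ) : Prop where
  hn : 1 ≤ T.n
  gain : Gain T.n W G P
  bV : ∀ i j, Bd (-2) (T.V i j)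
  sV : ∀ i j, T.V i j = T.V j i
  bB : ∀ i j, Bd (-3) (T.B i j)
  bP : ∀ a i, Bd (-3) (T.P a i)
  bQ : ∀ a i, Bd (-4) (T.Q a i)
  gal : Gal T.n u Y
  lowθ : ∀ a, Test (3 / 4) T.n (L.θ a)
  lmi : LMI T.V T.B W G P mv mu
  wv : Bd (-2) mv ∧ Bd 2 ov ∧ ∀ᵐ y, 0 < ov y ∧ 1 ≤ mv y * ov y
  wu : Bd (-4) mu ∧ Bd 4 ou ∧ ∀ᵐ y, 0 < ou y ∧ 1 ≤ mu y * ou y
  tail : ∀ w, Adm w → (∀ i, Perp (9 / 4) (T.n + 1) (w i)) →
    -(vth * (nw mv (curl w) + nw mu w)) ≤ T.FF w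
  hsp : 0 < sp ∧ sp + vth ≤ 1
  psd : ∀ c : ι → ℝ, ∃ ϑ ϑ', Null T.n ϑ ϑ' ∧
    nw ov (T.hV (lc c u) - ϑ) + nw ou (T.hU (lc c u) - ϑ')
      ≤ 4 * sp * T.M0 (lc c u) fun k => lc c fun j => Y j k

/-- The conclusion drawn from the finite data. -/
def Tab.Core (T : Tab L) : Prop :=
  ∀ w, Adm w → ∃ Yw : ℕ → Vc, (∀ k i, HF k (Yw k i)) ∧
    (∀ i, Perp (9 / 4) T.n fun y =>
      curl w i y - Op (3 / 4) y * ∑ k ∈ Finset.range T.n, Yw k i y) ∧ 0 ≤ T.M0 w Yw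

/-- The approximate fields are close to the true ones. -/
structure Close (T : Tab L) (U : Vc) (d db dp dq : ℝ) : Prop where
  cV : ∀ᵐ y, ∀ q : Fin 3 → ℝ, ∑ i, ∑ j, q i * T.V i j y * q j + d * Om y * ∑ i, q i ^ 2 ≤
    ∑ i, ∑ j, q i * AA U i j y * q j
      + T.ν * (lamS T.n * Op (5 / 2) y - cnS T.n * Op (3 / 2) y) * ∑ i, q i ^ 2
  cB : ∀ᵐ y, ∑ i, ∑ j, (BB (curl U) i j y - T.B i j y) ^ 2 ≤ db ^ 2 * Om y ^ 3
  cP : ∑ a, nw (Op (-1)) (lc (L.F a) fun b => kp U (L.θ b) - T.P b)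
    + ∑ i, nw (Op (-1)) (lc (L.Z i) fun b => kp U (L.θ b) - T.P b) ≤ dp ^ 2
  cQ : ∑ a, nw (Op (-2)) (lc (L.F a) fun b => kq U (L.θ b) - T.Q b)
    + ∑ i, nw (Op (-2)) (lc (L.Z i) fun b => kq U (L.θ b) - T.Q b) ≤ dq ^ 2

end

end Pool.Agent.Work.MP_6bf1e5_an.H
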