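import Pool.Agent.Work.MP_6bf1e5_an.H.SepB
import Pool.Agent.Work.MP_6bf1e5_an.H.Sep

/-! The separated calculus for smooth radial profiles, and equivariance (owner helper84). -/

open scoped ContDiff ENNReal FourierTransform Real
open Set MeasureTheory Polynomial

namespace Pool.Agent.Work.MP_6bf1e5_an.H

variable {l : ℕ} {f α β : ℝ → ℝ}

/-- The gradient in terms of the position and the axis. -/
theorem grad_Hl (l : ℕ) (i : Fin 3) (y : R3) : ‖y‖ ^ 2 * grad (Hl l) i y =
    (l * Hl l y - y 2 * bl l y) * y i + if i = 2 then ‖y‖ ^ 2 * bl l y else 0 := by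
  have h := sp_grad_Hl l i y
  rw [grad, h]
  split_ifs <;> ring

theorem RadS.der (h : RadS f) : RadS (deriv f) := by
  obtain ⟨a, ha, h⟩ := h
  exact ⟨a, ha, h.deriv_of_isOpen isOpen_Ioi (by simp)⟩

theorem RadS.smooth (h : RadS f) : ContDiff ℝ ∞ (rad f) := by
  obtain ⟨a, ha, h⟩ := h
  refine h.comp_contDiff (contDiff_norm_sq ℝ) fun y => ?_
  exact lt_of_lt_of_le (neg_lt_zero.2 ha) (sq_nonneg _)

theorem RadS.sp_has (h : RadS f) (y : R3) : HasDerivAt f (deriv f (‖y‖ ^ 2)) (‖y‖ ^ 2) := by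
  obtain ⟨a, ha, h⟩ := h
  have hy : ‖y‖ ^ 2 ∈ Ioi (-a) := lt_of_lt_of_le (neg_lt_zero.2 ha) (sq_nonneg _)
  exact ((h.contDiffAt (isOpen_Ioi.mem_nhds hy)).differentiableAt (by simp)).hasDerivAt

theorem RadS.pd_rad (h : RadS f) (j : Fin 3) (y : R3) :
    pd j (rad f) y = 2 * y j * rad (deriv f) y := by
  have := sp_pd_rad (h.sp_has y) j
  refine Eq.trans this ?_
  rw [rad]
  ring

theorem sp_tor_apply (l : ℕ) (f : ℝ → ℝ) (i : Fin 3) (y : R3) :
    tor l f i y = f (‖y‖ ^ 2) * TT l i y := rfl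

theorem sp_mer_apply (l : ℕ) (α β : ℝ → ℝ) (i : Fin 3) (y : R3) :
    mer l α β i y = α (‖y‖ ^ 2) * pd i (Hl l) y + β (‖y‖ ^ 2) * (Hl l y * y i) := rfl

theorem sp_mer_eq (l : ℕ) (α β : ℝ → ℝ) : mer l α β =
    fun i z => α (‖z‖ ^ 2) * pd i (Hl l) z + β (‖z‖ ^ 2) * (z i * Hl l z) := by
  funext i z
  rw [sp_mer_apply, mul_comm (Hl l z)]

theorem curl_tor (h : RadS f) : curl (tor l f) =
    mer l (fun z => -((l + 1) * f z + 2 * z * deriv f z)) (fun z => 2 * l * deriv f z) := by
  funext i y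
  rw [sp_mer_apply, mul_comm (Hl l y)]
  exact sp_curl_tor (h.sp_has y) l i

theorem curl_mer (h : RadS α) (h' : RadS β) :
    curl (mer l α β) = tor l fun z => 2 * deriv α z - β z := by
  funext i y
  rw [sp_mer_eq, sp_tor_apply]
  exact sp_curl_mer (h.sp_has y) (h'.sp_has y) l i

theorem grad_rad_Hl (h : RadS f) : grad (rad f * Hl l) = mer l f fun z => 2 * deriv f z := by
  funext i y
  have := sp_pd_mul (ResHom_diff h.smooth y) (sp_diff_Hl l y) i
  refine Eq.trans this ?_
  rw [h.pd_rad, sp_mer_apply, rad, rad]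
  ring

theorem cross_pos_tor : cross pos (tor l f) = mer l (fun z => -(z * f z)) (fun z => l * f z) := by
  funext i y
  have h := cross_pos_TT l i y
  rw [sp_mer_apply]
  simp only [cross, pos, sp_tor_apply] at h ⊢
  linear_combination f (‖y‖ ^ 2) * h

theorem cross_pos_mer : cross pos (mer l α β) = tor l α := by
  funext i y
  simp only [cross, pos, sp_tor_apply, sp_mer_apply, TT, grad]
  ring

theorem yd_tor (h : RadS f) :
    (fun i => yd (tor l f i)) = tor l fun z => 2 * z * deriv f z + l * f z := by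
  funext i y
  exact sp_yd_tor (h.sp_has y) l i

theorem yd_mer (h : RadS α) (h' : RadS β) : (fun i => yd (mer l α β i)) =
    mer l (fun z => 2 * z * deriv α z + (l - 1) * α z) (fun z => 2 * z * deriv β z + (l + 1) * β z) := by
  funext i y
  rw [sp_mer_eq, sp_mer_eq]
  exact sp_yd_mer (h.sp_has y) (h'.sp_has y) l i

theorem dvg_tor (h : RadS f) (y : R3) : dvg (tor l f) y = 0 := sp_dvg_tor (h.sp_has y) l

theorem sp_dvg_mer' (h : RadS α) (h' : RadS β) (y : R3) : dvg (mer l α β) y =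
    rad (fun z => 2 * l * deriv α z + 2 * z * deriv β z + (l + 3) * β z) y * Hl l y := by
  rw [sp_mer_eq]
  exact sp_dvg_mer (h.sp_has y) (h'.sp_has y) l

theorem dot_pos_tor (y : R3) : dot pos (tor l f) y = 0 := by
  have h := dot_pos_TT l y
  simp only [dot, pos, sp_tor_apply, Fin.sum_univ_three] at h ⊢
  linear_combination f (‖y‖ ^ 2) * h

theorem dot_tor_mer {l' : ℕ} (y : R3) : dot (tor l f) (mer l' α β) y = 0 := by
  have h := dot_pos_TT l y
  have h' := dot_TT_grad l l' y
  simp only [dot, pos, grad, sp_tor_apply, sp_mer_apply, Fin.sum_univ_three] at h h' ⊢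
  linear_combination f (‖y‖ ^ 2) * β (‖y‖ ^ 2) * Hl l' y * h + f (‖y‖ ^ 2) * α (‖y‖ ^ 2) * h'

/-- The action of a matrix as a continuous linear map. -/
noncomputable def spAct (M : Matrix (Fin 3) (Fin 3) ℝ) : R3 →L[ℝ] R3 :=
  LinearMap.toContinuousLinearMap (Matrix.toEuclideanLin M)

theorem spAct_apply (M : Matrix (Fin 3) (Fin 3) ℝ) (y : R3) : spAct M y = act M y := by
  ext i
  simp [spAct, act, Matrix.toLpLin_apply, Matrix.mulVec, dotProduct]

theorem sp_pd_act {g : Sc} (M : Matrix (Fin 3) (Fin 3) ℝ) {y : R3}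
    (h : DifferentiableAt ℝ g (act M y)) (j : Fin 3) :
    pd j (fun z => g (act M z)) y = ∑ i, M i j * pd i g (act M y) := by
  have h1 : HasFDerivAt (fun z => g (act M z)) ((fderiv ℝ g (act M y)).comp (spAct M)) y := by
    have h2 := h.hasFDerivAt
    rw [← spAct_apply] at h2
    have h3 := h2.comp y (spAct M).hasFDerivAt
    rw [spAct_apply] at h3
    have h5 : (fun z => g (act M z)) = g ∘ spAct M := funext fun z => by
      rw [Function.comp_apply, spAct_apply]
    rw [h5]
    exact h3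
  have h4 : act M (EuclideanSpace.single j 1) = ∑ i, M i j • EuclideanSpace.single i (1 : ℝ) := by
    ext i
    simp [act, Pi.single_apply]
  rw [pd, h1.fderiv, ContinuousLinearMap.comp_apply, spAct_apply, h4, map_sum]
  simp [pd]

theorem sp_eqM_grad {g : Sc} {M : Matrix (Fin 3) (Fin 3) ℝ} (hM : M * M.transpose = 1)
    (hg : Differentiable ℝ g) (h : ∀ y, g (act M y) = g y) : EqM M (grad g) := by
  intro y i
  have h1 : ∀ j, pd j g y = ∑ a, M a j * pd a g (act M y) := fun j => by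
    rw [← sp_pd_act M (hg _) j, funext h]
  have h2 : ∀ a, ∑ j, M i j * M a j = if i = a then 1 else 0 := fun a => by
    have := congrFun (congrFun hM i) a
    simpa [Matrix.mul_apply, Matrix.one_apply] using this
  simp only [grad, h1, Finset.mul_sum, ← mul_assoc]
  rw [Finset.sum_comm]
  simp [← Finset.sum_mul, h2]

theorem sp_rot_orth (θ : ℝ) : rotM θ * (rotM θ).transpose = 1 := by
  have h := Real.cos_sq_add_sin_sq θ
  ext i j
  fin_cases i <;> fin_cases j <;> simp [rotM, Matrix.mul_apply, Fin.sum_univ_three] <;> nlinarith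

theorem sp_flp_orth : flpM * flpM.transpose = 1 := by
  ext i j
  fin_cases i <;> fin_cases j <;> simp [flpM, Matrix.mul_apply, Fin.sum_univ_three]

theorem sp_eqM_sm {φ : Sc} {V : Vc} {M : Matrix (Fin 3) (Fin 3) ℝ} (h : ∀ y, φ (act M y) = φ y)
    (hV : EqM M V) : EqM M (sm φ V) := by
  intro y i
  simp only [sm, h, hV y i, Finset.mul_sum]
  exact Finset.sum_congr rfl fun j _ => by ring

theorem sp_eqM_add {V W : Vc} {M : Matrix (Fin 3) (Fin 3) ℝ} (hV : EqM M V) (hW : EqM M W) :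
    EqM M (V + W) := by
  intro y i
  simp only [Pi.add_apply, hV y i, hW y i, mul_add, Finset.sum_add_distrib]

theorem sp_eqM_pos (M : Matrix (Fin 3) (Fin 3) ℝ) : EqM M pos := fun _ _ => rfl

theorem eqv_tor (hl : l % 2 = 0) : Eqv (tor l f) := by
  have h := eqv_TT (Nat.even_iff.2 hl)
  exact ⟨fun θ => sp_eqM_sm (fun y => by rw [rad, rad, norm_act_rot]) (h.1 θ),
    sp_eqM_sm (fun y => by rw [rad, rad, norm_act_flp]) h.2⟩

theorem eqv_mer (hl : l % 2 = 0) : Eqv (mer l α β) := by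
  have hd := ResHom_diff (hom_Hl l).smooth
  have hf : ∀ y, Hl l (act flpM y) = Hl l y := fun y => by
    rw [Hl_flp, (Nat.even_iff.2 hl).neg_one_pow, one_mul]
  refine ⟨fun θ => sp_eqM_add
    (sp_eqM_sm (fun y => by rw [rad, rad, norm_act_rot])
      (sp_eqM_grad (sp_rot_orth θ) hd (Hl_rot l θ)))
    (sp_eqM_sm (fun y => by rw [rad, rad, norm_act_rot]) (sp_eqM_sm (Hl_rot l θ) (sp_eqM_pos _))),
    sp_eqM_add (sp_eqM_sm (fun y => by rw [rad, rad, norm_act_flp]) (sp_eqM_grad sp_flp_orth hd hf))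
    (sp_eqM_sm (fun y => by rw [rad, rad, norm_act_flp]) (sp_eqM_sm hf (sp_eqM_pos _)))⟩

/-- The derivative of an equivariant field is conjugated by the matrix. -/
theorem EqM.sp_pd {V : Vc} {M : Matrix (Fin 3) (Fin 3) ℝ} (h : EqM M V)
    (hM : M * M.transpose = 1) (hV : ∀ i, Differentiable ℝ (V i)) (y : R3) (i a : Fin 3) :
    pd a (V i) (act M y) = ∑ j, ∑ k, M i j * M a k * pd k (V j) y := by
  have h1 : ∀ k, ∑ b, M b k * pd b (V i) (act M y) = ∑ j, M i j * pd k (V j) y := fun k => by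
    rw [← sp_pd_act M (hV i _) k, funext fun z => h z i,
      sp_pd_sum _ fun j _ => (hV j y).const_mul _]
    exact Finset.sum_congr rfl fun j _ => sp_pd_cmul (hV j y) _ k
  have h2 : ∀ b, ∑ k, M a k * M b k = if a = b then 1 else 0 := fun b => by
    have := congrFun (congrFun hM a) b
    simpa [Matrix.mul_apply, Matrix.one_apply] using this
  calc pd a (V i) (act M y) = ∑ b, (∑ k, M a k * M b k) * pd b (V i) (act M y) := by simp [h2]
    _ = ∑ k, M a k * ∑ b, M b k * pd b (V i) (act M y) := by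
      simp only [Finset.sum_mul, Finset.mul_sum, mul_assoc]
      exact Finset.sum_comm
    _ = _ := by
      simp only [h1, Finset.mul_sum]
      rw [Finset.sum_comm]
      exact Finset.sum_congr rfl fun j _ => Finset.sum_congr rfl fun k _ => by ring

theorem eqv_curl {V : Vc} (h : Eqv V) (hV : ∀ i, Differentiable ℝ (V i)) : Eqv (curl V) := by
  refine ⟨fun θ y i => ?_, fun y i => ?_⟩
  · have h1 := (h.1 θ).sp_pd (sp_rot_orth θ) hV y
    have h2 := Real.cos_sq_add_sin_sq θ
    simp only [curl, h1, Fin.sum_univ_three]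
    fin_cases i <;> simp [rotM]
    · ring
    · ring
    · linear_combination (pd 0 (V 1) y - pd 1 (V 0) y) * h2
  · have h1 := h.2.sp_pd sp_flp_orth hV y
    simp only [curl, h1, Fin.sum_univ_three]
    fin_cases i <;> simp [flpM] <;> ring

end Pool.Agent.Work.MP_6bf1e5_an.H
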