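import Pool.Agent.Work.MP_6bf1e5_an.H.ResTail
import Pool.Agent.Work.MP_6bf1e5_an.H.SepC

/-! The cut field is a compactly supported admissible background. -/

open scoped ContDiff ENNReal FourierTransform Real
open Set MeasureTheory Filter Topology

namespace Pool.Agent.Work.MP_6bf1e5_an.H

theorem chi_zero {A : ℝ} (hA : 0 < A) {y : R3} (h : 2 * A < ‖y‖) : chi A y = 0 := by
  refine Real.smoothTransition.zero_of_nonpos ?_
  have : 2 ≤ ‖y‖ ^ 2 / A ^ 2 := by
    rw [le_div_iff₀ (by positivity)]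
    nlinarith
  linarith

theorem pd_chi (A : ℝ) (y : R3) : ∃ c, ∀ j, pd j (chi A) y = c * y j := by
  have h1 : HasFDerivAt (fun y : R3 => 2 - ‖y‖ ^ 2 / A ^ 2) _ y :=
    (((hasStrictFDerivAt_norm_sq y).hasFDerivAt).mul_const (A ^ 2)⁻¹).const_sub 2
  have h2 := (((Real.smoothTransition.contDiff (n := 1)).differentiable (by simp))
    (2 - ‖y‖ ^ 2 / A ^ 2)).hasDerivAt.comp_hasFDerivAt y h1
  refine ⟨deriv Real.smoothTransition (2 - ‖y‖ ^ 2 / A ^ 2) * -((A ^ 2)⁻¹ * 2), fun j => ?_⟩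
  have h3 : fderiv ℝ (chi A) y = _ := h2.fderiv
  rw [pd, h3]
  simp [EuclideanSpace.inner_single_right]
  ring

theorem pot_bg {m : ℝ} {Ψ S : Vc} (h : Pot m Ψ S) {A : ℝ} (hA : 0 < A) : Bg (cut A Ψ S) := by
  have s1 : ∀ i, ContDiff ℝ ∞ (sm (chi A) Ψ i) := fun i => (chi_smooth A).mul (h.sΨ i).1
  have s2 : ∀ i, ContDiff ℝ ∞ (sm (chi A) S i) := fun i => (chi_smooth A).mul (h.sS i).1
  have hr : ∀ θ y, chi A (act (rotM θ) y) = chi A y := fun θ y => by rw [chi, chi, norm_act_rot]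
  have hf : ∀ y, chi A (act flpM y) = chi A y := fun y => by rw [chi, chi, norm_act_flp]
  refine ⟨fun i => (Dyn.curl_smooth s1 i).add (s2 i), fun i => ?_, fun y => ?_, ?_⟩
  · refine HasCompactSupport.intro (isCompact_closedBall (0 : R3) (2 * A)) fun y hy => ?_
    rw [mem_closedBall_zero_iff, not_le] at hy
    have h1 : ∀ k j, pd j (sm (chi A) Ψ k) y = 0 := fun k j => by
      have e : sm (chi A) Ψ k =ᶠ[𝓝 y] fun _ => 0 := by
        filter_upwards [(isOpen_lt continuous_const continuous_norm).mem_nhds hy] with z hz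
        simp only [sm, chi_zero hA hz, zero_mul]
      exact ((resTail_pds_congr e [j]).self_of_nhds).trans (congrFun (resTail_pds_zero [j]) y)
    simp only [cut, fld, Pi.add_apply, curl, h1, sub_zero, zero_add]
    simp only [sm, chi_zero hA hy, zero_mul]
  · obtain ⟨c, hc⟩ := pd_chi A y
    rw [cut, fld, Dyn.dvg_add (Dyn.curl_smooth s1) s2, Dyn.dvg_curl s1,
      sp_dvg_sm ((chi_smooth A).differentiable (by simp) y)
        (fun i => (h.sS i).1.differentiable (by simp) y), h.dv]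
    have := h.tan y
    simp only [dot, pos, grad, hc, mul_assoc, ← Finset.mul_sum] at this ⊢
    rw [this]; ring
  · have e1 : Eqv (curl (sm (chi A) Ψ)) :=
      eqv_curl ⟨fun θ => sp_eqM_sm (hr θ) (h.eΨ.1 θ), sp_eqM_sm hf h.eΨ.2⟩
        fun i => (s1 i).differentiable (by simp)
    exact ⟨fun θ => sp_eqM_add (e1.1 θ) (sp_eqM_sm (hr θ) (h.eS.1 θ)),
      sp_eqM_add e1.2 (sp_eqM_sm hf h.eS.2)⟩

end Pool.Agent.Work.MP_6bf1e5_an.H
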