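import Pool.Agent.Work.MP_6bf1e5_an.H.LocBase
import Pool.Agent.Work.MP_6bf1e5_an.H.ResTail
import Pool.Agent.Work.MP_6bf1e5_an.H.DynCt
import Pool.Agent.Work.MP_6bf1e5_an.H.DynRS

/-!
The cut background and the initial plane.
Hints. cut_small: symU_cut, agr_cut, Agr.pds (file ResTail); for ‖y‖ ≥ A use
(1 + ‖y‖) ^ (m - n) ≤ A ^ (m - m') (1 + ‖y‖) ^ (m' - n); finitely many lists (List.finite_length_le).
eqv_curl': pd_act; check the two kinds of matrices separately (fin_cases, cos² + sin² = 1), or use det = 1.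
cut_ZZ: cut_small with m' = -2, n = 2 and the integrability of (1 + ‖y‖) ^ (-4), or tail_small.
ini_cut': E_cont, mom_cont of DynCt (X = E + 2 zz; the lemmas DynCt_Ct may help) on the unit circle, then homogeneity
L.E (pl φ (t • a)) = t ^ 2 * L.E (pl φ a); ZZ (pl φ a) ≤ 2 (ZZ (φ 0) + ZZ (φ 1)) ∑ a k ^ 2 as in ZZ_pl.
-/

open scoped ContDiff ENNReal FourierTransform Real
open Set MeasureTheory Filter Topology

namespace Pool.Agent.Work.MP_6bf1e5_an.H.Dyn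

variable {m : ℝ} {Ψ S : Vc}

theorem pot_sym (h : Pot m Ψ S) (i : Fin 3) : Sym m (fld Ψ S i) :=
  (symU_fld (Ψ := fun _ => Ψ) (S := fun _ => S) (fun i => (h.sΨ i).symU)
    (fun i => (h.sS i).symU) i).sym le_rfl

theorem LocCut_small {F : ℝ → Sc} (hF : SymU m F) (hv : ∀ A, Agr A (F A) fun _ => 0) {m' : ℝ}
    (hm : m < m') (l : List (Fin 3)) {η : ℝ} (hη : 0 < η) :
    ∀ᶠ A in atTop, ∀ y, |pds l (F A) y| ≤ η * (1 + ‖y‖) ^ (m' - l.length) := by
  obtain ⟨C, hC⟩ := hF.2 l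
  have hT : Tendsto (fun A : ℝ => |C| * A ^ (-(m' - m))) atTop (𝓝 0) := by
    simpa using (tendsto_rpow_neg_atTop (sub_pos.2 hm)).const_mul |C|
  filter_upwards [eventually_ge_atTop 1, hT.eventually (ge_mem_nhds hη)] with A hA hA' y
  have hA0 : 0 < A := by linarith
  rcases lt_or_ge ‖y‖ A with h | h
  · rw [(hv A).pds l y h, resTail_pds_zero, abs_zero]
    positivity
  · refine ((hC A hA y).trans (mul_le_mul_of_nonneg_right (le_abs_self C) (by positivity))).trans ?_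
    rw [show m - (l.length : ℝ) = -(m' - m) + (m' - l.length) by ring,
      Real.rpow_add (by positivity), ← mul_assoc]
    refine mul_le_mul_of_nonneg_right (le_trans ?_ hA') (by positivity)
    exact mul_le_mul_of_nonneg_left
      (Real.rpow_le_rpow_of_nonpos hA0 (by linarith) (by linarith)) (abs_nonneg C)

theorem cut_small (h : Pot m Ψ S) {m' : ℝ} (hm : m < m') (n : ℕ) {η : ℝ} (hη : 0 < η) :
    ∃ A0 > 0, ∀ A ≥ A0, ∀ l : List (Fin 3), l.length ≤ n → ∀ i y,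
      |pds l ((fld Ψ S - cut A Ψ S) i) y| ≤ η * (1 + ‖y‖) ^ (m' - l.length) := by
  have h1 : ∀ᶠ A in atTop, ∀ l ∈ {l : List (Fin 3) | l.length ≤ n}, ∀ i y,
      |pds l ((fld Ψ S - cut A Ψ S) i) y| ≤ η * (1 + ‖y‖) ^ (m' - l.length) := by
    refine (eventually_all_finite (List.finite_length_le (Fin 3) n)).2 fun l _ => ?_
    refine eventually_all.2 fun i => ?_
    exact LocCut_small (F := fun A => (fld Ψ S - cut A Ψ S) i)
      ((pot_sym h i).symU.sub (symU_cut h i))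
      (fun A y hy => sub_eq_zero.2 (agr_cut A Ψ S i y hy).symm) hm l hη
  obtain ⟨A0, hA0⟩ := eventually_atTop.1 h1
  exact ⟨max A0 1, lt_max_of_lt_right one_pos, fun A hA l hl =>
    hA0 A ((le_max_left _ _).trans hA) l hl⟩

theorem near_cut (h : Pot (-1 / 2) Ψ S) {η : ℝ} (hη : 0 < η) :
    ∃ A0 > 0, ∀ A ≥ A0, Near η (fld Ψ S) (cut A Ψ S) := by
  obtain ⟨A0, -, hA0⟩ := cut_small h (m' := 0) (by norm_num) 3 hη
  refine ⟨max A0 1, lt_max_of_lt_right one_pos, fun A hA => ⟨hη.le,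
    fun i => ResLoc_mono (pot_sym h i) (by norm_num),
    fun i => ResLoc_mono ((symU_cut h i).sym ((le_max_right _ _).trans hA)) (by norm_num),
    fun l hl i y => ?_⟩⟩
  have := hA0 A ((le_max_left _ _).trans hA) l hl i y
  rwa [zero_sub] at this

theorem LocCut_pd {V : Vc} {M : Matrix (Fin 3) (Fin 3) ℝ} (hM : M.transpose * M = 1) (h : EqM M V)
    (hV : ∀ i, ContDiff ℝ ∞ (V i)) (y : R3) (i l : Fin 3) :
    pd l (V i) (act M y) = ∑ k, M l k * ∑ j, M i j * pd k (V j) y := by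
  have h1 : ∀ k, ∑ l, M l k * pd l (V i) (act M y) = ∑ j, M i j * pd k (V j) y := fun k => by
    have e : (fun y => V i (act M y)) = fun y => ∑ j, M i j * V j y := funext fun y => h y i
    have := congrFun (pd_act (hV i) M k) y
    rw [e, pd_sum _ fun j _ => contDiff_const.mul (hV j)] at this
    simp only [fun j => pd_cmul (hV j) (M i j) k] at this
    exact this.symm
  have h2 : ∀ l', ∑ k, M l k * M l' k = if l = l' then 1 else 0 := fun l' => by
    have h3 : M * M.transpose = 1 := mul_eq_one_comm.1 hM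
    have : (M * M.transpose) l l' = (1 : Matrix (Fin 3) (Fin 3) ℝ) l l' := by rw [h3]
    rwa [Matrix.mul_apply, Matrix.one_apply] at this
  simp only [← h1, Finset.mul_sum, ← mul_assoc]
  rw [Finset.sum_comm]
  simp only [← Finset.sum_mul, h2]
  simp

theorem eqv_curl' {V : Vc} (h : Eqv V) (hV : ∀ i, ContDiff ℝ ∞ (V i)) : Eqv (curl V) := by
  refine ⟨fun θ y i => ?_, fun y i => ?_⟩
  · have hc := Real.sin_sq_add_cos_sq θ
    unfold curl
    rw [LocCut_pd (rotM_orth θ) (h.1 θ) hV, LocCut_pd (rotM_orth θ) (h.1 θ) hV]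
    fin_cases i
    · simp [rotM, Fin.sum_univ_three]
      ring
    · simp [rotM, Fin.sum_univ_three]
      ring
    · simp [rotM, Fin.sum_univ_three]
      linear_combination (pd 0 (V 1) y - pd 1 (V 0) y) * hc
  · unfold curl
    rw [LocCut_pd flpM_orth h.2 hV, LocCut_pd flpM_orth h.2 hV]
    fin_cases i <;> simp [flpM, Fin.sum_univ_three] <;> ring

theorem LocCut_pd_chi (A : ℝ) (y : R3) : ∃ c, ∀ j, pd j (chi A) y = c * y j := by
  have h1 : ContDiff ℝ ∞ fun t : ℝ => Real.smoothTransition (2 - t / A ^ 2) :=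
    Real.smoothTransition.contDiff.comp (contDiff_const.sub (contDiff_id.div_const _))
  have h2 := (h1.differentiable (by simp) (‖y‖ ^ 2)).hasDerivAt
  generalize deriv (fun t : ℝ => Real.smoothTransition (2 - t / A ^ 2)) (‖y‖ ^ 2) = c at h2
  have h3 : DifferentiableAt ℝ (fun z : R3 => ‖z‖ ^ 2) y :=
    dynCalc_d (contDiff_norm_sq ℝ) y
  have h4 := (h2.comp_hasFDerivAt y h3.hasFDerivAt).fderiv
  refine ⟨c * 2, fun j => ?_⟩
  have h5 := ResHl_pd_normsq j y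
  unfold pd at h5 ⊢
  change fderiv ℝ ((fun t : ℝ => Real.smoothTransition (2 - t / A ^ 2)) ∘ fun z : R3 => ‖z‖ ^ 2) y _
    = _
  rw [h4, smul_apply, h5, smul_eq_mul, mul_assoc]

theorem LocCut_supp {A : ℝ} (hA : 0 < A) : HasCompactSupport (chi A) := by
  refine HasCompactSupport.intro (isCompact_closedBall (0 : R3) (2 * A)) fun y hy => ?_
  refine Real.smoothTransition.zero_of_nonpos ?_
  rw [mem_closedBall_zero_iff, not_le] at hy
  rw [sub_nonpos, le_div_iff₀ (by positivity)]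
  nlinarith

theorem LocCut_eqv (A : ℝ) {V : Vc} (h : Eqv V) : Eqv (sm (chi A) V) := by
  have key : ∀ M, (∀ y, ‖act M y‖ = ‖y‖) → EqM M V → EqM M (sm (chi A) V) := by
    intro M h0 h1 y i
    simp only [sm, chi, h0, h1 y i, Fin.sum_univ_three]
    ring
  exact ⟨fun θ => key _ (norm_act_rot θ) (h.1 θ), key _ norm_act_flp h.2⟩

theorem pot_bg (h : Pot m Ψ S) {A : ℝ} (hA : 0 < A) : Bg (cut A Ψ S) := by
  have s1 : ∀ i, ContDiff ℝ ∞ (sm (chi A) Ψ i) := fun i => (chi_smooth A).mul (h.sΨ i).1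
  have s2 : ∀ i, ContDiff ℝ ∞ (sm (chi A) S i) := fun i => (chi_smooth A).mul (h.sS i).1
  have c1 : ∀ (V : Vc) i, HasCompactSupport (sm (chi A) V i) := fun V i =>
    (LocCut_supp hA).mul_right (f' := V i)
  have he : ∀ (M) (U V : Vc), EqM M U → EqM M V → EqM M (U + V) := by
    intro M U V h0 h1 y i
    simp only [Pi.add_apply]
    rw [h0 y i, h1 y i]
    simp only [Fin.sum_univ_three]
    ring
  have e1 := eqv_curl' (LocCut_eqv A h.eΨ) s1
  have e2 := LocCut_eqv A h.eS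
  refine ⟨fun i => (curl_smooth s1 i).add (s2 i), fun i => ?_, fun y => ?_,
    fun θ => he _ _ _ (e1.1 θ) (e2.1 θ), he _ _ _ e1.2 e2.2⟩
  · exact ((DynRS_supp_pd (c1 Ψ (i + 2)) (i + 1)).sub (DynRS_supp_pd (c1 Ψ (i + 1)) (i + 2))).add
      (c1 S i)
  · obtain ⟨c, hc⟩ := LocCut_pd_chi A y
    have h1 := h.tan y
    have h2 := h.dv y
    unfold cut fld
    rw [dvg_add (curl_smooth s1) s2, dvg_curl s1, zero_add]
    have h3 : ∀ i, pd i (sm (chi A) S i) y = c * y i * S i y + chi A y * pd i (S i) y := fun i => by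
      rw [← hc]
      exact congrFun (pd_mul (chi_smooth A) (h.sS i).1 i) y
    simp only [dvg, dot, pos, Fin.sum_univ_three] at h1 h2 ⊢
    rw [h3, h3, h3]
    linear_combination c * h1 + chi A y * h2

theorem LocCut_tail {F : ℝ → Sc} (hF : SymU m F) (hm : m < -3)
    (hv : ∀ A, Agr A (F A) fun _ => 0) {η : ℝ} (hη : 0 < η) :
    ∀ᶠ A in atTop, ∫ y, F A y ≤ η := by
  obtain ⟨C, hC⟩ := hF.2 []
  exact tail_small (C := C) (q := m) hm (fun A hA y => by simpa [pds] using hC A hA y)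
    (fun A _ y hy => hv A y hy) hη

theorem cut_ZZ (h : Pot (-3) Ψ S) {η : ℝ} (hη : 0 < η) :
    ∃ A0 > 0, ∀ A ≥ A0, ZZ (cut A Ψ S - fld Ψ S) ≤ η := by
  have s0 : ∀ i, SymU (-3) fun A => (cut A Ψ S - fld Ψ S) i := fun i =>
    (symU_cut h i).sub (pot_sym h i).symU
  have s1 := symU_curl s0
  have a1 : ∀ A i, Agr A (curl (cut A Ψ S - fld Ψ S) i) fun _ => 0 := fun A i y hy => by
    have := agr_curl (U := cut A Ψ S - fld Ψ S) (V := fun _ _ => 0)
      (fun i z hz => sub_eq_zero.2 (agr_cut A Ψ S i z hz)) i y hy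
    rw [this]
    simp [curl, pd_const]
  have a2 : ∀ A i j, Agr A (pd j (curl (cut A Ψ S - fld Ψ S) i)) fun _ => 0 := fun A i j y hy => by
    rw [(a1 A i).pd j y hy, pd_const]
  have t1 : ∀ᶠ A in atTop, ∀ i, ∫ y, curl (cut A Ψ S - fld Ψ S) i y *
      curl (cut A Ψ S - fld Ψ S) i y ≤ η / 12 := eventually_all.2 fun i =>
    LocCut_tail ((s1 i).mul (s1 i)) (by norm_num)
      (fun A y hy => by simp only [a1 A i y hy, mul_zero]) (by positivity)
  have t2 : ∀ᶠ A in atTop, ∀ i j, ∫ y, pd j (curl (cut A Ψ S - fld Ψ S) i) y *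
      pd j (curl (cut A Ψ S - fld Ψ S) i) y ≤ η / 12 :=
    eventually_all.2 fun i => eventually_all.2 fun j =>
      LocCut_tail (((s1 i).pd j).mul ((s1 i).pd j)) (by norm_num)
        (fun A y hy => by simp only [a2 A i j y hy, mul_zero]) (by positivity)
  obtain ⟨A0, hA0⟩ := eventually_atTop.1 (t1.and t2)
  refine ⟨max A0 1, lt_max_of_lt_right one_pos, fun A hA => ?_⟩
  obtain ⟨b1, b2⟩ := hA0 A ((le_max_left _ _).trans hA)
  have hH : ∀ i, Hinf (curl (cut A Ψ S - fld Ψ S) i) := fun i =>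
    ((s1 i).sym ((le_max_right _ _).trans hA)).hinf (by norm_num)
  unfold ZZ
  rw [nw_one hH, gw_one hH]
  simp only [Fin.sum_univ_three, sq]
  linarith [b1 0, b1 1, b1 2, b2 0 0, b2 0 1, b2 0 2, b2 1 0, b2 1 1, b2 1 2, b2 2 0, b2 2 1,
    b2 2 2]

theorem LocCut_hinf {φ : Fin 2 → Vc} (hφ : ∀ k i, Hinf (φ k i)) (a : Fin 2 → ℝ) (i : Fin 3) :
    Hinf (pl φ a i) := by
  rw [DynCt_pl]
  exact hinf_add (hinf_cmul (hφ 0 i) _) (hinf_cmul (hφ 1 i) _)

theorem LocCut_ZZ {φ : Fin 2 → Vc} (hφ : ∀ k i, Hinf (φ k i)) (a : Fin 2 → ℝ) :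
    ZZ (pl φ a) ≤ 2 * a 0 ^ 2 * ZZ (φ 0) + 2 * a 1 ^ 2 * ZZ (φ 1) := by
  have hs : ∀ k i, ContDiff ℝ ∞ (φ k i) := fun k i => (hφ k i).1
  have hp := LocCut_hinf hφ a
  have h1 : ∀ i : Fin 3, ∫ y, curl (pl φ a) i y ^ 2 ≤ 2 * a 0 ^ 2 * (∫ y, curl (φ 0) i y ^ 2)
      + 2 * a 1 ^ 2 * ∫ y, curl (φ 1) i y ^ 2 := by
    intro i
    rw [DynCt_curl_pl hs]
    exact DynCt_comb (hinf_curl (hφ 0) i) (hinf_curl (hφ 1) i) _ _
  have h2 : ∀ i j : Fin 3, ∫ y, pd j (curl (pl φ a) i) y ^ 2 ≤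
      2 * a 0 ^ 2 * (∫ y, pd j (curl (φ 0) i) y ^ 2)
      + 2 * a 1 ^ 2 * ∫ y, pd j (curl (φ 1) i) y ^ 2 := by
    intro i j
    rw [DynCt_curl_pl hs, DynCt_pd_comb (hinf_curl (hφ 0) i).1 (hinf_curl (hφ 1) i).1]
    exact DynCt_comb ((hinf_curl (hφ 0) i).pd j) ((hinf_curl (hφ 1) i).pd j) _ _
  unfold ZZ
  rw [nw_one (hinf_curl hp), gw_one (hinf_curl hp), nw_one (hinf_curl (hφ 0)),
    gw_one (hinf_curl (hφ 0)), nw_one (hinf_curl (hφ 1)), gw_one (hinf_curl (hφ 1))]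
  simp only [Fin.sum_univ_three]
  linarith [h1 0, h1 1, h1 2, h2 0 0, h2 0 1, h2 0 2, h2 1 0, h2 1 1, h2 1 2, h2 2 0, h2 2 1,
    h2 2 2]

theorem LocCut_hom (L : Lyap) {φ : Fin 2 → Vc} (hφ : ∀ k i, ContDiff ℝ ∞ (φ k i)) (t : ℝ)
    (a : Fin 2 → ℝ) : L.E (pl φ (t • a)) = t ^ 2 * L.E (pl φ a) ∧
      L.X (pl φ (t • a)) = t ^ 2 * L.X (pl φ a) := by
  have h1 : ∀ i, curl (pl φ (t • a)) i = fun y => t * curl (pl φ a) i y := fun i => by
    rw [DynCt_curl_pl hφ, DynCt_curl_pl hφ]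
    funext y
    simp only [Pi.smul_apply, smul_eq_mul]
    ring
  have hs : ∀ i, ContDiff ℝ ∞ (curl (pl φ a) i) := curl_smooth fun i => by
    rw [DynCt_pl]
    exact (contDiff_const.mul (hφ 0 i)).add (contDiff_const.mul (hφ 1 i))
  have h2 : ∀ θ, ip (curl (pl φ (t • a))) θ = t * ip (curl (pl φ a)) θ := fun θ => by
    unfold ip
    rw [← integral_const_mul]
    congr 1
    funext y
    simp only [dot, h1, Fin.sum_univ_three]
    ring
  have h3 : nw Om (curl (pl φ (t • a))) = t ^ 2 * nw Om (curl (pl φ a)) := by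
    unfold nw
    rw [← integral_const_mul]
    congr 1
    funext y
    simp only [dot, h1, Fin.sum_univ_three]
    ring
  have h4 : gw 1 (curl (pl φ (t • a))) = t ^ 2 * gw 1 (curl (pl φ a)) := by
    unfold gw
    rw [← integral_const_mul]
    congr 1
    funext y
    simp only [h1, fun i j => pd_cmul (hs i) t j, Fin.sum_univ_three]
    ring
  have h5 : ∀ p q : ℝ, t * p * (t * q) = t ^ 2 * (p * q) := fun p q => by ring
  unfold Lyap.E Lyap.X Lyap.X1 Lyap.zz Lyap.Xv Lyap.zv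
  simp only [h2, h3, h4, h5, mul_pow, ← Finset.mul_sum]
  constructor <;> ring

theorem ini_cut' {L : Lyap} (hL : L.Good) {ψ s : Fin 2 → Vc} (h : ∀ k, Pot (-3) (ψ k) (s k))
    {η : ℝ} (hη : 0 < η) : ∃ A0, ∀ A ≥ A0, ∀ a : Fin 2 → ℝ,
      L.E (pl (fun k => cut A (ψ k) (s k)) a)
        ≤ L.E (pl (fun k => fld (ψ k) (s k)) a) + η * ∑ k, a k ^ 2 ∧
      L.X (pl (fun k => cut A (ψ k) (s k)) a)
        ≤ L.X (pl (fun k => fld (ψ k) (s k)) a) + η * ∑ k, a k ^ 2 := by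
  have hf : ∀ k i, Hinf (fld (ψ k) (s k) i) := fun k i => (pot_sym (h k) i).hinf (by norm_num)
  obtain ⟨K, -, hK⟩ := ZZ_pl (φ := fun k => fld (ψ k) (s k)) hf
  obtain ⟨δ1, p1, hδ1⟩ := E_cont L hL K hη
  obtain ⟨δ2, p2, hδ2⟩ := DynCt_X hL K η hη
  have p3 : 0 < min δ1 δ2 / 2 := by positivity
  obtain ⟨A0, q0, hA0⟩ := cut_ZZ (h 0) p3
  obtain ⟨A1, -, hA1⟩ := cut_ZZ (h 1) p3
  refine ⟨max A0 A1, fun A hA a => ?_⟩
  have z0 := hA0 A ((le_max_left _ _).trans hA)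
  have z1 := hA1 A ((le_max_right _ _).trans hA)
  have hc : ∀ k i, Hinf (cut A (ψ k) (s k) i) := fun k i =>
    bg_hinf (pot_bg (h k) (q0.trans_le ((le_max_left _ _).trans hA))) i
  obtain ⟨t, b, rfl, hb⟩ : ∃ (t : ℝ) (b : Fin 2 → ℝ), a = t • b ∧ ∑ k, b k ^ 2 = 1 := by
    by_cases h0 : ∑ k, a k ^ 2 = 0
    · refine ⟨0, ![1, 0], ?_, by simp⟩
      rw [zero_smul]
      funext k
      exact pow_eq_zero_iff two_ne_zero |>.1
        ((Finset.sum_eq_zero_iff_of_nonneg fun k _ => sq_nonneg (a k)).1 h0 k (Finset.mem_univ k))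
    · have h1 : 0 < ∑ k, a k ^ 2 :=
        lt_of_le_of_ne (Finset.sum_nonneg fun k _ => sq_nonneg (a k)) (Ne.symm h0)
      have h2 := (Real.sqrt_pos.2 h1).ne'
      refine ⟨√(∑ k, a k ^ 2), (√(∑ k, a k ^ 2))⁻¹ • a, by rw [smul_inv_smul₀ h2], ?_⟩
      simp only [Pi.smul_apply, smul_eq_mul, mul_pow, ← Finset.mul_sum, inv_pow,
        Real.sq_sqrt h1.le]
      exact inv_mul_cancel₀ h0
  have e0 : ∑ k, (t • b) k ^ 2 = t ^ 2 := by
    simp only [Pi.smul_apply, smul_eq_mul, mul_pow, ← Finset.mul_sum, hb, mul_one]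
  have e1 : pl (fun k => cut A (ψ k) (s k)) b - pl (fun k => fld (ψ k) (s k)) b =
      pl (fun k => cut A (ψ k) (s k) - fld (ψ k) (s k)) b := by
    funext i y
    simp only [pl, Pi.sub_apply, Fin.sum_univ_two]
    ring
  have e2 : ZZ (pl (fun k => cut A (ψ k) (s k)) b - pl (fun k => fld (ψ k) (s k)) b)
      ≤ min δ1 δ2 := by
    rw [e1]
    refine (LocCut_ZZ (fun k => DynCt_hsub (hf k) (hc k)) b).trans ?_
    rw [Fin.sum_univ_two] at hb
    nlinarith [mul_le_mul_of_nonneg_left z0 (sq_nonneg (b 0)),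
      mul_le_mul_of_nonneg_left z1 (sq_nonneg (b 1))]
  have e3 : ZZ (pl (fun k => fld (ψ k) (s k)) b) ≤ K := by simpa [hb] using hK b
  have b1 := (abs_le.1 (hδ1 _ _ (LocCut_hinf hf b) (LocCut_hinf hc b) e3
    (e2.trans (min_le_left _ _)))).2
  have b2 := (abs_le.1 (hδ2 _ _ (LocCut_hinf hf b) (LocCut_hinf hc b) e3
    (e2.trans (min_le_right _ _)))).2
  obtain ⟨c1, c2⟩ := LocCut_hom L (fun k i => (hc k i).1) t b
  obtain ⟨c3, c4⟩ := LocCut_hom L (fun k i => (hf k i).1) t b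
  rw [c1, c2, c3, c4, e0]
  constructor <;> nlinarith [sq_nonneg t]

end Pool.Agent.Work.MP_6bf1e5_an.H.Dyn
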