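import Pool.Agent.Work.MP_6bf1e5_an.H.DynDefs

/-!
Definitions for the local estimates (owner helper89).
-/

open scoped ContDiff ENNReal FourierTransform Real
open Set MeasureTheory

namespace Pool.Agent.Work.MP_6bf1e5_an.H.Dyn

noncomputable section

/-- The pairing of the gradients. -/
def hp (G v : Vc) : ℝ := ∫ y, ∑ i, ∑ j, pd j (G i) y * pd j (v i) y

/-- `|∇ V|²`. -/
def g1 (V : Vc) : Sc := fun y => ∑ i, ∑ j, pd j (V i) y ^ 2

/-- `|∇² V|²`. -/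
def g2 (V : Vc) : Sc := fun y => ∑ i, ∑ j, ∑ k, pd k (pd j (V i)) y ^ 2

def t1 (a b v : Vc) : Sc := fun y => ∑ i, ∑ j, ∑ k, pd k (a j) y * pd j (b i) y * pd k (v i) y

def t2 (a b v : Vc) : Sc := fun y => ∑ i, ∑ j, ∑ k, a j y * pd k (pd j (b i)) y * pd k (v i) y

def t3 (a b v : Vc) : Sc := fun y => ∑ i, ∑ j, ∑ k, pd k (a j) y * pd i (b j) y * pd k (v i) y

/-- `B` is close to `U` with three derivatives. -/
structure Near (η : ℝ) (U B : Vc) : Prop where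
  nn : 0 ≤ η
  sU : ∀ i, Sym 0 (U i)
  sB : ∀ i, Sym 0 (B i)
  le : ∀ l : List (Fin 3), l.length ≤ 3 → ∀ i y,
    |pds l ((U - B) i) y| ≤ η * (1 + ‖y‖) ^ (-(l.length : ℝ))

/-- Compactly supported radial weights. -/
structure RadW (φ : Sc) : Prop where
  smooth : ContDiff ℝ ∞ φ
  supp : HasCompactSupport φ
  nn : ∀ y, 0 ≤ φ y
  rad : ∀ k y, Jd k φ y = 0

end

end Pool.Agent.Work.MP_6bf1e5_an.H.Dyn
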