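import Pool.Agent.Work.MP_6bf1e5_an.H.LocId
import Pool.Agent.Work.MP_6bf1e5_an.H.DynStB

/-!
Exact identities at level two.
Hints. The pairing ph of DynStB may help (hp G v = ∑ i k, ph [k] (pd k (v i)) (G i)). hp_curl_cross: curl_cross,
pd_sum, pd_sub, pd_mul. t2_self: null_form, pd_comm. t2_curl: for fixed k put f = fun i => pd k (u i), g = curl f
(pd_curl); pointwise ∑ i j, b j pd j (f i) g i = ∑ i j, b j pd i (f j) g i; then ibp and div g = 0. dH_eq: NN_eq,
diss_one.
-/

open scoped ContDiff ENNReal FourierTransform Real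
open Set MeasureTheory

namespace Pool.Agent.Work.MP_6bf1e5_an.H.Dyn

variable {a b u v B : Vc}

theorem int_t1 (ha : ∀ i, Hinf (a i)) (hb : ∀ i, Hinf (b i)) (hv : ∀ i, Hinf (v i)) :
    Integrable (t1 a b v) :=
  integrable_finsetSum _ fun i _ => integrable_finsetSum _ fun j _ =>
    integrable_finsetSum _ fun k _ =>
      int_mul (hinf_mul ((ha j).pd k) ((hb i).pd j)) ((hv i).pd k)

theorem int_t2 (ha : ∀ i, Hinf (a i)) (hb : ∀ i, Hinf (b i)) (hv : ∀ i, Hinf (v i)) :
    Integrable (t2 a b v) :=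
  integrable_finsetSum _ fun i _ => integrable_finsetSum _ fun j _ =>
    integrable_finsetSum _ fun k _ =>
      int_mul (hinf_mul (ha j) (((hb i).pd j).pd k)) ((hv i).pd k)

theorem int_t3 (ha : ∀ i, Hinf (a i)) (hb : ∀ i, Hinf (b i)) (hv : ∀ i, Hinf (v i)) :
    Integrable (t3 a b v) :=
  integrable_finsetSum _ fun i _ => integrable_finsetSum _ fun j _ =>
    integrable_finsetSum _ fun k _ =>
      int_mul (hinf_mul ((ha j).pd k) ((hb j).pd i)) ((hv i).pd k)

theorem LocH1_pd (ha : ∀ i, Hinf (a i)) (hb : ∀ i, Hinf (b i))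
    (hda : ∀ y, dvg a y = 0) (hdb : ∀ y, dvg b y = 0) (i k : Fin 3) (y : R3) :
    pd k (curl (cross a b) i) y = ∑ j, (pd k (b j) y * pd j (a i) y + b j y * pd k (pd j (a i)) y
      - (pd k (a j) y * pd j (b i) y + a j y * pd k (pd j (b i)) y)) := by
  have e : curl (cross a b) i = fun y => ∑ j, (b j y * pd j (a i) y - a j y * pd j (b i) y) :=
    funext (curl_cross (fun i => (ha i).1) (fun i => (hb i).1) hda hdb i)
  have s1 := fun j => (hinf_mul (hb j) ((ha i).pd j)).1
  have s2 := fun j => (hinf_mul (ha j) ((hb i).pd j)).1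
  rw [e, pd_sum _ fun j _ => (s1 j).sub (s2 j)]
  refine Finset.sum_congr rfl fun j _ => ?_
  rw [pd_sub (s1 j) (s2 j), pd_mul (hb j).1 ((ha i).pd j).1, pd_mul (ha j).1 ((hb i).pd j).1]

theorem hp_curl_cross (ha : ∀ i, Hinf (a i)) (hb : ∀ i, Hinf (b i)) (hv : ∀ i, Hinf (v i))
    (hda : ∀ y, dvg a y = 0) (hdb : ∀ y, dvg b y = 0) : hp (curl (cross a b)) v =
      (∫ y, t1 b a v y) + (∫ y, t2 b a v y) - (∫ y, t1 a b v y) - ∫ y, t2 a b v y := by
  have i1 := int_t1 hb ha hv
  have i2 := int_t2 hb ha hv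
  have i3 := int_t1 ha hb hv
  have i4 := int_t2 ha hb hv
  have i12 : Integrable fun y => t1 b a v y + t2 b a v y := i1.add i2
  have i123 : Integrable fun y => t1 b a v y + t2 b a v y - t1 a b v y := i12.sub i3
  rw [← integral_add i1 i2, ← integral_sub i12 i3, ← integral_sub i123 i4]
  refine integral_congr_ae (Filter.Eventually.of_forall fun y => ?_)
  simp only [LocH1_pd ha hb hda hdb, t1, t2, Fin.sum_univ_three]
  ring

theorem t2_self (ha : ∀ i, Hinf (a i)) (hv : ∀ i, Hinf (v i)) (hda : ∀ y, dvg a y = 0) :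
    ∫ y, t2 a v v y = 0 := by
  have e : t2 a v v = fun y => ∑ i, ∑ k, ∑ j, a j y * pd j (pd k (v i)) y * pd k (v i) y := by
    funext y
    refine Finset.sum_congr rfl fun i _ => Finset.sum_comm.trans ?_
    refine Finset.sum_congr rfl fun k _ => Finset.sum_congr rfl fun j _ => ?_
    rw [pd_comm (hv i).1 k j]
  have it : ∀ i k, Integrable fun y => ∑ j, a j y * pd j (pd k (v i)) y * pd k (v i) y :=
    fun i k => integrable_finsetSum _ fun j _ =>
      int_mul (hinf_mul (ha j) (((hv i).pd k).pd j)) ((hv i).pd k)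
  rw [e, integral_finsetSum _ fun i _ => integrable_finsetSum _ fun k _ => it i k]
  refine Finset.sum_eq_zero fun i _ => ?_
  rw [integral_finsetSum _ fun k _ => it i k]
  exact Finset.sum_eq_zero fun k _ => null_form ha hda ((hv i).pd k)

theorem LocH1_alg (β : Fin 3 → ℝ) (D : Fin 3 → Fin 3 → ℝ) :
    ∑ i, ∑ j, β j * D j i * (D (i + 1) (i + 2) - D (i + 2) (i + 1))
      = ∑ j, ∑ i, (D (i + 1) (i + 2) - D (i + 2) (i + 1)) * (β j * D i j) := by
  simp only [Fin.sum_univ_three, Fin.reduceAdd, Fin.isValue]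
  ring

theorem t2_curl (hb : ∀ i, Hinf (b i)) (hu : ∀ i, Hinf (u i)) :
    ∫ y, t2 b u (curl u) y = -∫ y, t3 u b (curl u) y := by
  have hc := hinf_curl hu
  have su : ∀ i, ContDiff ℝ ∞ (u i) := fun i => (hu i).1
  have hf : ∀ k j, Hinf fun y => b j y * pd k (u j) y := fun k j => hinf_mul (hb j) ((hu j).pd k)
  have e : ∀ y, t2 b u (curl u) y + t3 u b (curl u) y = ∑ k, ∑ j, ∑ i,
      pd k (curl u i) y * pd i (fun y => b j y * pd k (u j) y) y := by
    intro y
    have e2 : t2 b u (curl u) y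
        = ∑ k, ∑ j, ∑ i, pd k (curl u i) y * (b j y * pd i (pd k (u j)) y) := by
      have e3 : t2 b u (curl u) y
          = ∑ k, ∑ i, ∑ j, b j y * pd k (pd j (u i)) y * pd k (curl u i) y := by
        simp only [t2, Fin.sum_univ_three]; ring
      rw [e3]
      refine Finset.sum_congr rfl fun k _ => ?_
      have h := LocH1_alg (fun j => b j y) fun j i => pd j (pd k (u i)) y
      simp only [pd_curl su k]
      refine Eq.trans ?_ h
      refine Finset.sum_congr rfl fun i _ => Finset.sum_congr rfl fun j _ => ?_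
      rw [pd_comm (su i) k j]
      rfl
    rw [e2]
    simp only [fun k j => pd_mul (hb j).1 ((hu j).pd k).1, t3, Fin.sum_univ_three]
    ring
  have it : ∀ k j, Integrable fun y =>
      ∑ i, pd k (curl u i) y * pd i (fun y => b j y * pd k (u j) y) y := fun k j =>
    integrable_finsetSum _ fun i _ => int_mul ((hc i).pd k) ((hf k j).pd i)
  rw [eq_neg_iff_add_eq_zero, ← integral_add (int_t2 hb hu hc) (int_t3 hu hb hc)]
  simp only [e]
  rw [integral_finsetSum _ fun k _ => integrable_finsetSum _ fun j _ => it k j]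
  refine Finset.sum_eq_zero fun k _ => ?_
  rw [integral_finsetSum _ fun j _ => it k j]
  exact Finset.sum_eq_zero fun j _ => ip_grad (v := fun i => pd k (curl u i))
    (fun i => (hc i).pd k) (dvg_pd (curl_smooth su) (dvg_curl su) k) (hf k j)

theorem LocH1_hp (ha : ∀ i, Hinf (a i)) (hv : ∀ i, Hinf (v i)) :
    hp a v = ∑ i, ∑ k, ph [k] (pd k (v i)) (a i) := by
  rw [hp, integral_finsetSum _ fun i _ => integrable_finsetSum _ fun j _ =>
    int_mul ((ha i).pd j) ((hv i).pd j)]
  exact Finset.sum_congr rfl fun i _ =>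
    integral_finsetSum _ fun j _ => int_mul ((ha i).pd j) ((hv i).pd j)

theorem dH_eq (ν : ℝ) (hB : Bg B) (hu : ∀ i, Hinf (u i)) :
    dH ν B u = -(2 / 3 * gw 1 (curl u)) - hp (Res ν B) (curl u)
      + hp (curl (cross B (curl u))) (curl u) + hp (curl (cross u (curl B))) (curl u)
      + hp (curl (cross u (curl u))) (curl u) - ν * YY (curl u) := by
  have hc := hinf_curl hu
  have hB' := bg_hinf hB
  have h0 := hinf_Res ν hB
  have h1 := hinf_curl (hinf_cross hB' hc)
  have h2 := hinf_curl (hinf_cross hu (hinf_curl hB'))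
  have h3 := hinf_curl (hinf_cross hu hc)
  have h4 := fun i => hinf_cmul (hinf_lam (hc i)) ν
  have e : ∀ i, NN ν B u i = fun y => -1 * Res ν B i y + curl (cross B (curl u)) i y
      + curl (cross u (curl B)) i y + curl (cross u (curl u)) i y - ν * Lam (curl u i) y := by
    intro i
    simp only [NN_eq ν hB hu i, neg_mul, one_mul]
  have a1 := fun i => hinf_add (hinf_cmul (h0 i) (-1)) (h1 i)
  have a2 := fun i => hinf_add (a1 i) (h2 i)
  have a3 := fun i => hinf_add (a2 i) (h3 i)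
  have hN : ∀ i, Hinf (NN ν B u i) := fun i => by rw [e]; exact hinf_sub (a3 i) (h4 i)
  have key : ∀ i k, ph [k] (pd k (curl u i)) (NN ν B u i) =
      -ph [k] (pd k (curl u i)) (Res ν B i) + ph [k] (pd k (curl u i)) (curl (cross B (curl u)) i)
        + ph [k] (pd k (curl u i)) (curl (cross u (curl B)) i)
        + ph [k] (pd k (curl u i)) (curl (cross u (curl u)) i)
        - ν * ∫ y, pd k (Lam (curl u i)) y * pd k (curl u i) y := by
    intro i k
    have hk := (hc i).pd k
    rw [e, ph_sub _ hk (a3 i) (h4 i), ph_add _ hk (a2 i) (h3 i), ph_add _ hk (a1 i) (h2 i),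
      ph_add _ hk (hinf_cmul (h0 i) (-1)) (h1 i), ph_cmul _ _ (h0 i), ph_cmul _ _ (hinf_lam (hc i)),
      neg_one_mul]
    rfl
  have e0 : dH ν B u = -(2 / 3 * gw 1 (curl u)) + hp (NN ν B u) (curl u) := rfl
  rw [e0, LocH1_hp hN hc, LocH1_hp h0 hc, LocH1_hp h1 hc, LocH1_hp h2 hc, LocH1_hp h3 hc,
    ← diss_one hc]
  simp only [key, Finset.sum_sub_distrib, Finset.sum_add_distrib, Finset.sum_neg_distrib,
    ← Finset.mul_sum]
  ring

end Pool.Agent.Work.MP_6bf1e5_an.H.Dyn
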