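import Pool.Agent.Work.MP_6bf1e5_an.H.LocH1
import Pool.Agent.Work.MP_6bf1e5_an.H.LocMult

/-!
Estimates at level two.
Hints. hp_curl_cross, t2_self, t2_curl, then t1_sq, t2_sq, t3_sq with abs_le_of_sq_le or cs_int. In hp_W use
g1_curl_le (g1 (curl B) ≤ 2 b1² Om), global_hardy', 24 ≤ 5² and 12 ≤ (7/2)².
-/

open scoped ContDiff ENNReal FourierTransform Real
open Set MeasureTheory

namespace Pool.Agent.Work.MP_6bf1e5_an.H.Dyn

variable {R u v B : Vc} {w h : ℝ}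

theorem LocH2_g1 (v : Vc) (y : R3) : 0 ≤ g1 v y := by
  unfold g1
  positivity

theorem LocH2_dot (v : Vc) (y : R3) : 0 ≤ dot v v y :=
  Finset.sum_nonneg fun _ _ => mul_self_nonneg _

theorem LocH2_Om (y : R3) : |Om y| ≤ 2 := by
  rw [abs_of_pos (Om_pos y)]
  exact Om_le y

theorem LocH2_int (hv : ∀ i, Hinf (v i)) : Integrable (g1 v) := by
  have := int_gw (w := fun _ => 1) (C := 1) continuous_const (fun _ => by simp) hv
  simpa using this

theorem LocH2_gw1 (v : Vc) : gw 1 v = ∫ y, g1 v y := by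
  simp only [gw, g1, Pi.one_apply, one_mul]

theorem LocH2_gw (φ : Sc) (v : Vc) : gw φ v = ∫ y, φ y * g1 v y := rfl

/-- Cauchy and Schwarz against the gradient of `v`. -/
theorem LocH2_cs {f p : Sc} (hv : ∀ i, Hinf (v i)) (hp : Integrable p) (hp0 : ∀ y, 0 ≤ p y)
    (hf : ∀ y, f y ^ 2 ≤ p y * g1 v y) {s : ℝ} (hs : 0 ≤ s) (hh : 0 ≤ h) (h1 : ∫ y, p y ≤ s ^ 2)
    (h3 : gw 1 v ≤ h ^ 2) : |∫ y, f y| ≤ s * h :=
  cs_int hp (LocH2_int hv) hp0 (LocH2_g1 v) hf hs hh h1 (LocH2_gw1 v ▸ h3)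

/-- A pointwise bound by a weight times the gradient squared. -/
theorem LocH2_pt {f φ : Sc} (hφ : Integrable fun y => φ y * g1 v y) (hφ0 : ∀ y, 0 ≤ φ y)
    (hf : ∀ y, f y ^ 2 ≤ φ y ^ 2 * g1 v y * g1 v y) : |∫ y, f y| ≤ ∫ y, φ y * g1 v y := by
  refine (abs_integral_le_integral_abs).trans ?_
  refine integral_mono_of_nonneg (Filter.Eventually.of_forall fun y => abs_nonneg _) hφ
    (Filter.Eventually.of_forall fun y => ?_)
  refine abs_le_of_sq_le_sq' ?_ (mul_nonneg (hφ0 y) (LocH2_g1 v y)) |> abs_le.2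
  calc f y ^ 2 ≤ φ y ^ 2 * g1 v y * g1 v y := hf y
    _ = (φ y * g1 v y) ^ 2 := by ring

theorem hp_R (hR : ∀ i, Hinf (R i)) (hv : ∀ i, Hinf (v i)) {e : ℝ} (he : 0 ≤ e) (hh : 0 ≤ h)
    (h1 : gw 1 R ≤ e ^ 2) (h2 : gw 1 v ≤ h ^ 2) : |hp R v| ≤ e * h := by
  refine LocH2_cs hv (LocH2_int hR) (LocH2_g1 R) (fun y => ?_) he hh (LocH2_gw1 R ▸ h1) h2
  have := Finset.sum_mul_sq_le_sq_mul_sq (Finset.univ : Finset (Fin 3 × Fin 3))
    (fun p => pd p.2 (R p.1) y) (fun p => pd p.2 (v p.1) y)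
  simpa only [g1, Fintype.sum_prod_type] using this

theorem hp_B (hB : ∀ i, Hinf (B i)) (hdB : ∀ y, dvg B y = 0) (hv : ∀ i, Hinf (v i))
    (hdv : ∀ y, dvg v y = 0) {b0 η b1 : ℝ} (hb0 : 0 ≤ b0) (hη : 0 ≤ η) (hb1 : 0 ≤ b1) (hw : 0 ≤ w)
    (hh : 0 ≤ h) (h0 : ∀ y, g1 B y ≤ (b0 * Op (3 / 4) y + η) ^ 2)
    (h1 : ∀ y, g2 B y ≤ b1 ^ 2 * Om y) (h2 : nw Om v ≤ w ^ 2) (h3 : gw 1 v ≤ h ^ 2) :
    hp (curl (cross B v)) v ≤ 2 * b0 * gw (Op (3 / 4)) v + 2 * η * gw 1 v + b1 * w * h := by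
  have i1 := int_gw (Op_cont (3 / 4)) Op_le hv
  have i2 := LocH2_int hv
  have i3 : Integrable fun y => (b0 * Op (3 / 4) y + η) * g1 v y := by
    refine ((i1.const_mul b0).add (i2.const_mul η)).congr (Filter.Eventually.of_forall fun y => ?_)
    simp only [Pi.add_apply]
    ring
  have e3 : ∫ y, (b0 * Op (3 / 4) y + η) * g1 v y = b0 * gw (Op (3 / 4)) v + η * gw 1 v := by
    rw [LocH2_gw1, LocH2_gw, ← integral_const_mul, ← integral_const_mul,
      ← integral_add (i1.const_mul b0) (i2.const_mul η)]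
    exact integral_congr_ae (Filter.Eventually.of_forall fun y => by ring)
  have p3 : ∀ y, 0 ≤ b0 * Op (3 / 4) y + η := fun y =>
    add_nonneg (mul_nonneg hb0 (Op_pos _ y).le) hη
  have k : ∀ y, g1 B y * g1 v y * g1 v y ≤ (b0 * Op (3 / 4) y + η) ^ 2 * g1 v y * g1 v y :=
    fun y => mul_le_mul_of_nonneg_right (mul_le_mul_of_nonneg_right (h0 y) (LocH2_g1 v y))
      (LocH2_g1 v y)
  have a1 := LocH2_pt (f := t1 v B v) i3 p3 fun y =>
    (t1_sq v B v y).trans (by rw [mul_comm (g1 v y) (g1 B y)]; exact k y)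
  have a2 := LocH2_pt (f := t1 B v v) i3 p3 fun y => (t1_sq B v v y).trans (k y)
  have i4 := int_nw Om_smooth.continuous LocH2_Om hv
  have a3 : |∫ y, t2 v B v y| ≤ b1 * w * h := by
    refine LocH2_cs (p := fun y => b1 ^ 2 * (Om y * dot v v y)) hv (i4.const_mul _)
      (fun y => mul_nonneg (sq_nonneg _) (mul_nonneg (Om_pos y).le (LocH2_dot v y)))
      (fun y => (t2_sq v B v y).trans ?_) (mul_nonneg hb1 hw) hh ?_ h3
    · refine mul_le_mul_of_nonneg_right ?_ (LocH2_g1 v y)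
      calc dot v v y * g2 B y ≤ dot v v y * (b1 ^ 2 * Om y) :=
            mul_le_mul_of_nonneg_left (h1 y) (LocH2_dot v y)
        _ = b1 ^ 2 * (Om y * dot v v y) := by ring
    · rw [integral_const_mul, mul_pow]
      exact mul_le_mul_of_nonneg_left h2 (sq_nonneg _)
  rw [hp_curl_cross hB hv hv hdB hdv, t2_self hB hv hdB]
  rw [e3] at a1 a2
  linarith [le_abs_self (∫ y, t1 v B v y), neg_abs_le (∫ y, t1 B v v y),
    le_abs_self (∫ y, t2 v B v y)]

theorem hp_W (hB : ∀ i, Hinf (B i)) (hu : Adm u) {b1 b2 : ℝ} (hb1 : 0 ≤ b1) (hb2 : 0 ≤ b2)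
    (hw : 0 ≤ w) (hh : 0 ≤ h) (h1 : ∀ y, g2 B y ≤ b1 ^ 2 * Om y)
    (h1' : ∀ y, g2 (curl B) y ≤ b2 ^ 2 * Om y ^ 2) (h2 : nw Om (curl u) ≤ w ^ 2)
    (h3 : gw 1 (curl u) ≤ h ^ 2) :
    hp (curl (cross u (curl B))) (curl u) ≤ (15 * b1 + 7 / 2 * b2) * w * h := by
  have hW := hinf_curl hB
  have hv := hinf_curl hu.hinf
  obtain ⟨g1', g2'⟩ := global_hardy' hu
  have i1 := int_gw Om_smooth.continuous LocH2_Om hu.hinf
  have k : ∀ f : Sc, (∀ y, f y ^ 2 ≤ g1 (curl B) y * g1 u y * g1 (curl u) y) →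
      |∫ y, f y| ≤ 5 * b1 * w * h := by
    intro f hf
    refine LocH2_cs (p := fun y => 2 * b1 ^ 2 * (Om y * g1 u y)) hv (i1.const_mul _)
      (fun y => mul_nonneg (by positivity) (mul_nonneg (Om_pos y).le (LocH2_g1 u y)))
      (fun y => (hf y).trans ?_) (by positivity) hh ?_ h3
    · refine mul_le_mul_of_nonneg_right ?_ (LocH2_g1 _ y)
      have := (g1_curl_le (fun i => (hB i).1) y).trans
        (mul_le_mul_of_nonneg_left (h1 y) zero_le_two)
      calc g1 (curl B) y * g1 u y ≤ 2 * (b1 ^ 2 * Om y) * g1 u y :=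
            mul_le_mul_of_nonneg_right this (LocH2_g1 u y)
        _ = 2 * b1 ^ 2 * (Om y * g1 u y) := by ring
    · rw [integral_const_mul, ← LocH2_gw]
      have : gw Om u ≤ 12 * w ^ 2 := by linarith
      nlinarith [mul_le_mul_of_nonneg_left this (sq_nonneg b1), sq_nonneg (b1 * w)]
  have a1 := k (t1 (curl B) u (curl u)) (t1_sq _ _ _)
  have a2 := k (t3 u (curl B) (curl u)) fun y => by
    rw [mul_comm (g1 (curl B) y)]; exact t3_sq _ _ _ y
  have a3 := k (t1 u (curl B) (curl u)) fun y => by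
    rw [mul_comm (g1 (curl B) y)]; exact t1_sq _ _ _ y
  have i2 : Integrable fun y => Op 2 y * dot u u y :=
    int_nw (C := 4) (Op_cont 2) (fun y => by
      rw [Op_two, abs_of_nonneg (sq_nonneg _)]
      nlinarith [Om_pos y, Om_le y]) hu.hinf
  have a4 : |∫ y, t2 u (curl B) (curl u) y| ≤ 7 / 2 * b2 * w * h := by
    refine LocH2_cs (p := fun y => b2 ^ 2 * (Op 2 y * dot u u y)) hv (i2.const_mul _)
      (fun y => mul_nonneg (sq_nonneg _) (mul_nonneg (Op_pos _ y).le (LocH2_dot u y)))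
      (fun y => (t2_sq _ _ _ y).trans ?_) (by positivity) hh ?_ h3
    · refine mul_le_mul_of_nonneg_right ?_ (LocH2_g1 _ y)
      calc dot u u y * g2 (curl B) y ≤ dot u u y * (b2 ^ 2 * Om y ^ 2) :=
            mul_le_mul_of_nonneg_left (h1' y) (LocH2_dot u y)
        _ = b2 ^ 2 * (Op 2 y * dot u u y) := by rw [Op_two]; ring
    · rw [integral_const_mul]
      have : nw (Op 2) u ≤ 12 * w ^ 2 := by linarith
      have h4 := mul_le_mul_of_nonneg_left this (sq_nonneg b2)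
      unfold nw at h4
      nlinarith [sq_nonneg (b2 * w)]
  rw [hp_curl_cross hu.hinf hW hv hu.dv (dvg_curl fun i => (hB i).1), t2_curl hW hu.hinf]
  linarith [le_abs_self (∫ y, t1 (curl B) u (curl u) y), neg_abs_le (∫ y, t3 u (curl B) (curl u) y),
    neg_abs_le (∫ y, t1 u (curl B) (curl u) y), neg_abs_le (∫ y, t2 u (curl B) (curl u) y)]

theorem hp_N (hu : ∀ i, Hinf (u i)) (hd : ∀ y, dvg u y = 0) {P : ℝ} (hP : 0 ≤ P)
    (h1 : ∀ y, g1 u y ≤ P ^ 2) :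
    hp (curl (cross u (curl u))) (curl u) ≤ 3 * P * gw 1 (curl u) := by
  have hv := hinf_curl hu
  have k : ∀ f : Sc, (∀ y, f y ^ 2 ≤ g1 u y * g1 (curl u) y * g1 (curl u) y) →
      |∫ y, f y| ≤ P * gw 1 (curl u) := by
    intro f hf
    rw [LocH2_gw1, ← integral_const_mul]
    exact LocH2_pt (φ := fun _ => P) ((LocH2_int hv).const_mul P) (fun _ => hP) fun y =>
      (hf y).trans (mul_le_mul_of_nonneg_right
        (mul_le_mul_of_nonneg_right (h1 y) (LocH2_g1 _ y)) (LocH2_g1 _ y))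
  have a1 := k (t1 (curl u) u (curl u)) fun y => by
    rw [mul_comm (g1 u y)]; exact t1_sq _ _ _ y
  have a2 := k (t3 u (curl u) (curl u)) (t3_sq _ _ _)
  have a3 := k (t1 u (curl u) (curl u)) (t1_sq _ _ _)
  rw [hp_curl_cross hu hv hv hd (dvg_curl fun i => (hu i).1), t2_curl hv hu, t2_self hu hv hd]
  linarith [le_abs_self (∫ y, t1 (curl u) u (curl u) y), neg_abs_le (∫ y, t3 u (curl u) (curl u) y),
    neg_abs_le (∫ y, t1 u (curl u) (curl u) y)]

theorem gw_Op_le (hv : ∀ i, Hinf (v i)) {t : ℝ} (ht : 0 < t) :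
    gw (Op (3 / 4)) v ≤ t ^ 3 / 4 * gw 1 v + 3 / (4 * t) * gw Om v := by
  have i1 := int_gw (Op_cont (3 / 4)) Op_le hv
  have i2 := (LocH2_int hv).const_mul (t ^ 3 / 4)
  have i3 := (int_gw Om_smooth.continuous LocH2_Om hv).const_mul (3 / (4 * t))
  rw [LocH2_gw1, LocH2_gw, LocH2_gw, ← integral_const_mul, ← integral_const_mul,
    ← integral_add i2 i3]
  refine integral_mono i1 (i2.add i3) fun y => ?_
  calc Op (3 / 4) y * g1 v y ≤ (t ^ 3 / 4 + 3 / (4 * t) * Om y) * g1 v y :=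
        mul_le_mul_of_nonneg_right (Op_young ht y) (LocH2_g1 v y)
    _ = t ^ 3 / 4 * g1 v y + 3 / (4 * t) * (Om y * g1 v y) := by ring

end Pool.Agent.Work.MP_6bf1e5_an.H.Dyn
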