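import Pool.Agent.Work.MP_6bf1e5_an.H.LocBase
import Pool.Agent.Work.MP_6bf1e5_an.H.DynRS

/-!
Exact identities for the rates of change at level one.
Hints. NN_eq: cross and curl are additive, Lam is additive on Hinf (Dp_add). ip_curl_B: curl_cross; the transport
term by ibp, ∫ Om B·∇ |v|² / 2 = -∫ (B·∇ Om) |v|² / 2, pd_Om; v i v j pd j (B i) is symmetric. ip_curl_W: curl_cross;
pointwise ∑ i j, v i W j pd j (u i) = ∑ i j, v i W j pd i (u j) because v = curl u; then
∫ Om v i W j pd i (u j) = -∫ pd i (Om v i W j) u j and div v = 0. dM_eq: ip_curl and the cyclic identity of the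
triple product; θ i, yd (θ i), curl θ i are Hinf (Sym.hinf, sym_yd).
-/

open scoped ContDiff ENNReal FourierTransform Real
open Set MeasureTheory

namespace Pool.Agent.Work.MP_6bf1e5_an.H.Dyn

variable {ν : ℝ} {B u v θ : Vc}

theorem LocId_curl_add {a b : Vc} (ha : ∀ i, ContDiff ℝ ∞ (a i)) (hb : ∀ i, ContDiff ℝ ∞ (b i)) :
    curl (a + b) = curl a + curl b := by
  funext i y
  have e : ∀ k j, pd j (a k + b k) = _ := fun k j => pd_add (ha k) (hb k) j
  simp only [curl, e, Pi.add_apply]
  ring

theorem LocId_dot {a b : Vc} (ha : ∀ i, Hinf (a i)) (hb : ∀ i, Hinf (b i)) :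
    Hinf (dot a b) := hinf_sum _ fun i _ => hinf_mul (ha i) (hb i)

theorem LocId_int {a b : Vc} (ha : ∀ i, Hinf (a i)) (hb : ∀ i, Hinf (b i)) :
    Integrable (dot a b) := integrable_finsetSum _ fun i _ => int_mul (ha i) (hb i)

theorem LocId_pd {a b : Vc} (ha : ∀ i, Hinf (a i)) (hb : ∀ i, Hinf (b i)) (j : Fin 3) (y : R3) :
    pd j (fun y => Om y * dot a b y) y = -(Om y ^ 2 * y j) * dot a b y
      + Om y * ∑ i, (pd j (a i) y * b i y + a i y * pd j (b i) y) := by
  have e : pd j (dot a b) = _ := pd_sum Finset.univ (fun i _ => (hinf_mul (ha i) (hb i)).1) j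
  rw [pd_mul Om_smooth (LocId_dot ha hb).1, pd_Om, e]
  simp only [pd_mul (ha _).1 (hb _).1]

theorem hinf_Res (ν : ℝ) (hB : Bg B) (i : Fin 3) : Hinf (Res ν B i) := by
  have h := bg_hinf hB
  exact hinf_sub (hinf_add (hinf_add (hinf_curl h i) (hinf_cmul (DynRS_hinf_yd hB i) _))
    (hinf_cmul (hinf_lam (hinf_curl h i)) ν)) (hinf_curl (hinf_cross h (hinf_curl h)) i)

theorem NN_eq (ν : ℝ) (hB : Bg B) (hu : ∀ i, Hinf (u i)) (i : Fin 3) : NN ν B u i = fun y =>
    -Res ν B i y + curl (cross B (curl u)) i y + curl (cross u (curl B)) i y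
      + curl (cross u (curl u)) i y - ν * Lam (curl u i) y := by
  have h := bg_hinf hB
  have h1 := hinf_cross h (hinf_curl h)
  have h2 := hinf_cross h (hinf_curl hu)
  have h3 := hinf_cross hu (hinf_curl h)
  have h4 := hinf_cross hu (hinf_curl hu)
  have e1 : curl (B + u) = curl B + curl u := LocId_curl_add hB.smooth fun i => (hu i).1
  have e2 : cross (B + u) (curl B + curl u) = cross B (curl B) + cross B (curl u)
      + (cross u (curl B) + cross u (curl u)) := by
    funext i y
    simp only [cross, Pi.add_apply]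
    ring
  have e3 : Lam ((curl B + curl u) i) = Lam (curl B i) + Lam (curl u i) :=
    Dp_add (hinf_curl h i).inA (hinf_curl hu i).inA (by norm_num)
  funext y
  rw [NN, Res, e1, e2, e3, LocId_curl_add (a := _ + _) (b := _ + _)
    (fun i => ((h1 i).add (h2 i)).1)
    fun i => ((h3 i).add (h4 i)).1, LocId_curl_add (fun i => (h1 i).1) fun i => (h2 i).1,
    LocId_curl_add (fun i => (h3 i).1) fun i => (h4 i).1]
  simp only [Pi.add_apply]
  ring

theorem LocId_ip (ν : ℝ) (hB : Bg B) (hu : ∀ i, Hinf (u i)) (hv : ∀ i, Hinf (v i)) :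
    ip (NN ν B u) v = -ip (Res ν B) v + ip (curl (cross B (curl u))) v
      + ip (curl (cross u (curl B))) v + ip (curl (cross u (curl u))) v
      - ν * ip (LamV (curl u)) v := by
  have h := bg_hinf hB
  have i1 := (LocId_int (hinf_Res ν hB) hv).fun_neg
  have i2 := LocId_int (hinf_curl (hinf_cross h (hinf_curl hu))) hv
  have i3 := LocId_int (hinf_curl (hinf_cross hu (hinf_curl h))) hv
  have i4 := LocId_int (hinf_curl (hinf_cross hu (hinf_curl hu))) hv
  have i5 := (LocId_int (a := LamV (curl u)) (fun i => hinf_lam (hinf_curl hu i)) hv).const_mul ν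
  simp only [ip]
  rw [← integral_neg, ← integral_const_mul, ← integral_add i1 i2,
    ← integral_add (i1.fun_add i2) i3, ← integral_add ((i1.fun_add i2).fun_add i3) i4,
    ← integral_sub (((i1.fun_add i2).fun_add i3).fun_add i4) i5]
  refine integral_congr_ae (.of_forall fun y => ?_)
  simp only [dot, NN_eq ν hB hu, Fin.sum_univ_three, LamV]
  ring

theorem ip_curl_B (hB : ∀ i, Hinf (B i)) (hdB : ∀ y, dvg B y = 0) (hv : ∀ i, Hinf (v i))
    (hdv : ∀ y, dvg v y = 0) : ip (curl (cross B v)) (sm Om v)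
      = nw (fun y => Om y * (2 - Om y) / 3) v - ∫ y, bf (AA B) v v y := by
  have hf : Hinf fun y => Om y * dot v v y := hinf_Om (LocId_dot hv hv)
  have i1 : Integrable fun y => Om y * (2 - Om y) / 3 * dot v v y :=
    int_nw (C := 2) ((Om_smooth.continuous.mul (continuous_const.sub Om_smooth.continuous)).div_const 3)
      (fun y => by
      have h1 := Om_pos y
      have h2 := Om_le y
      rw [abs_le]
      constructor <;> nlinarith) hv
  have i2 := LocId_int (b := sm Om v) (hinf_curl (hinf_cross hB hv)) fun i => hinf_Om (hv i)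
  have i3 := (LocId_int (b := fun i => pd i fun y => Om y * dot v v y) hB
    fun i => hf.pd i).const_mul (1 / 2)
  have e : ∀ y, bf (AA B) v v y = Om y * (2 - Om y) / 3 * dot v v y
      - dot (curl (cross B v)) (sm Om v) y
      - 1 / 2 * dot B (fun i => pd i fun y => Om y * dot v v y) y := fun y => by
    rw [dot.eq_1 B]
    simp only [LocId_pd hv hv]
    simp only [bf, AA, dot, sm, pos, Fin.sum_univ_three,
      curl_cross (fun i => (hB i).1) (fun i => (hv i).1) hdB hdv]
    simp
    ring
  have e2 : ∫ y, dot B (fun i => pd i fun y => Om y * dot v v y) y = 0 := ip_grad hB hdB hf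
  simp only [e]
  rw [integral_sub (i1.sub' i2) i3, integral_sub i1 i2, integral_const_mul, e2, ip, nw]
  ring

theorem ip_curl_W (hB : ∀ i, Hinf (B i)) (hu : ∀ i, Hinf (u i)) (hdu : ∀ y, dvg u y = 0) :
    ip (curl (cross u (curl B))) (sm Om (curl u)) = -∫ y, bf (BB (curl B)) (curl u) u y := by
  have hW := hinf_curl hB
  have hv := hinf_curl hu
  have hf : Hinf fun y => Om y * dot (curl B) u y := hinf_Om (LocId_dot hW hu)
  have i2 := LocId_int (b := sm Om (curl u)) (hinf_curl (hinf_cross hu hW)) fun i => hinf_Om (hv i)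
  have i3 := LocId_int (b := fun i => pd i fun y => Om y * dot (curl B) u y) hv fun i => hf.pd i
  have e : ∀ y, bf (BB (curl B)) (curl u) u y =
      dot (curl u) (fun i => pd i fun y => Om y * dot (curl B) u y) y
      - dot (curl (cross u (curl B))) (sm Om (curl u)) y := fun y => by
    have hd := dvg_curl fun i => (hB i).1
    generalize curl B = W at *
    rw [dot.eq_1 (curl u)]
    simp only [LocId_pd hW hu]
    simp only [bf, BB, dot, sm, curl_cross (fun i => (hu i).1) (fun i => (hW i).1) hdu hd]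
    simp only [Fin.sum_univ_three, curl, Fin.reduceAdd]
    ring
  have e2 : ∫ y, dot (curl u) (fun i => pd i fun y => Om y * dot (curl B) u y) y = 0 :=
    ip_grad hv (dvg_curl fun i => (hu i).1) hf
  simp only [e]
  rw [integral_sub i3 i2, e2, ip]
  ring

theorem dW_eq (ν : ℝ) (hB : Bg B) (hu : ∀ i, Hinf (u i)) (hdu : ∀ y, dvg u y = 0) :
    dW ν B u = -aForm ν B u - ip (Res ν B) (sm Om (curl u))
      + ip (curl (cross u (curl u))) (sm Om (curl u)) := by
  have h := bg_hinf hB
  rw [dW, aForm, LocId_ip ν hB hu (v := sm Om (curl u)) fun i => hinf_Om (hinf_curl hu i),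
    ip_curl_B h hB.dv (hinf_curl hu) (dvg_curl fun i => (hu i).1), ip_curl_W h hu hdu]
  ring

theorem dM_eq (ν : ℝ) (hB : Bg B) (hu : ∀ i, Hinf (u i)) (hθ : ∀ i, Sym (-3) (θ i)) :
    dM ν B θ u = -kForm ν B θ u - ip (Res ν B) θ + ip (cross u (curl u)) (curl θ) := by
  have h := bg_hinf hB
  have hv := hinf_curl hu
  have ht : ∀ i, Hinf (θ i) := fun i => (hθ i).hinf (by norm_num)
  have hy : ∀ i, Hinf fun y => θ i y + 2 / 3 * yd (θ i) y := fun i =>
    hinf_add (ht i) (hinf_cmul ((sym_yd (hθ i)).hinf (by norm_num)) _)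
  have e1 : ip (curl u) (kp B θ) = -ip (curl u) (fun i y => θ i y + 2 / 3 * yd (θ i) y)
      - ip (cross B (curl u)) (curl θ) := by
    have i1 := (LocId_int hv hy).fun_neg
    have i2 := LocId_int (hinf_cross h hv) (hinf_curl ht)
    simp only [ip]
    rw [← integral_neg, ← integral_sub i1 i2]
    refine integral_congr_ae (.of_forall fun y => ?_)
    simp only [dot, kp, cross, Fin.sum_univ_three, Fin.reduceAdd]
    ring
  have e2 : ip u (kq B θ) = -ip (cross u (curl B)) (curl θ) := by
    simp only [ip]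
    rw [← integral_neg]
    refine integral_congr_ae (.of_forall fun y => ?_)
    simp only [dot, kq, cross, Fin.sum_univ_three, Fin.reduceAdd]
    ring
  rw [dM, kForm, LocId_ip ν hB hu ht, e1, e2, ip_curl (hinf_cross h hv) ht,
    ip_curl (hinf_cross hu (hinf_curl h)) ht, ip_curl (hinf_cross hu hv) ht]
  ring

end Pool.Agent.Work.MP_6bf1e5_an.H.Dyn
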