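import Pool.Agent.Work.MP_6bf1e5_an.H.LocMult
import Pool.Agent.Work.MP_6bf1e5_an.H.LocId
import Pool.Agent.Work.MP_6bf1e5_an.H.DynStA

/-!
Level one estimates of the residual and of the nonlinear terms; the sup bound; the interpolation.
Hints. w_res, m_res, m_nl: cs_int, cs_int_sq (for m_nl p = Om |v|², q = |u|² |curl θ|² / Om, sum over a, then
global_hardy'). dot_pos_le: u 0 = 0 (rotM π and flpM), mean value theorem for t ↦ ∑ i, y i * u i (t • y).
w_nl: ip_curl_B of LocId with B = u; the pointwise form is Om (v·S v - Om (y·u) |v|² / 2). sup_grad: sup_bound with a = 1, b = ν summed over the nine functions pd j (u i), gw_eq_curl for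
fun i => pd j (u i), Dp_grad_eq_curl. gw_Om_le: for each component ∫ Om |∇ f|² = -∫ Om f lap f + ∫ lap Om f² / 2,
lap Om / 2 ≤ Om / 16, dual_quarter, a b ≤ 2 e³ a² + b² / (8 e³), interp_quarter for Om * f,
∑ j, (pd j (Om f))² ≤ 4 Om |∇ f|² + 5 / 2 Om f².
-/

open scoped ContDiff ENNReal FourierTransform Real
open Set MeasureTheory

namespace Pool.Agent.Work.MP_6bf1e5_an.H.Dyn

variable {R u v θ : Vc} {P : ℝ}

theorem LocW_Om (y : R3) : |Om y| ≤ 2 := (abs_of_pos (Om_pos y)).trans_le (Om_le y)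

theorem LocW_dot (v : Vc) (y : R3) : 0 ≤ dot v v y :=
  Finset.sum_nonneg fun _ _ => mul_self_nonneg _

theorem LocW_nn (v : Vc) (y : R3) : 0 ≤ Om y * dot v v y :=
  mul_nonneg (Om_pos y).le (LocW_dot v y)

theorem LocW_nw (hv : ∀ i, Hinf (v i)) : Integrable fun y => Om y * dot v v y :=
  int_nw Om_smooth.continuous LocW_Om hv

theorem w_res (hR : ∀ i, Hinf (R i)) (hv : ∀ i, Hinf (v i)) {e w : ℝ} (he : 0 ≤ e) (hw : 0 ≤ w)
    (h1 : nw Om R ≤ e ^ 2) (h2 : nw Om v ≤ w ^ 2) : |ip R (sm Om v)| ≤ e * w := by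
  refine cs_int (LocW_nw hR) (LocW_nw hv) (LocW_nn R) (LocW_nn v) (fun y => ?_) he hw h1 h2
  have e : dot R (sm Om v) y = Om y * dot R v y := by
    simp only [dot, sm, Fin.sum_univ_three]
    ring
  rw [e]
  linarith [mul_le_mul_of_nonneg_left (dot_sq R v y) (sq_nonneg (Om y))]

theorem m_nl (hu : Adm u) {ι : Type} [Fintype ι] {θ : ι → Vc} (hθ : ∀ a i, Sym (-3) (θ a i))
    {c : ℝ} (hc : ∀ y, ∑ a, dot (curl (θ a)) (curl (θ a)) y ≤ c ^ 2 * Om y ^ 3) :
    ∑ a, ip (cross u (curl u)) (curl (θ a)) ^ 2 ≤ 12 * c ^ 2 * nw Om (curl u) ^ 2 := by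
  have hv := hinf_curl hu.hinf
  have h1 : ∀ y, (Om y)⁻¹ * ∑ a, dot (curl (θ a)) (curl (θ a)) y ≤ c ^ 2 * Om y ^ 2 := fun y => by
    rw [inv_mul_le_iff₀ (Om_pos y)]
    linarith [hc y]
  have h2 : ∀ a y, 0 ≤ (Om y)⁻¹ * dot (curl (θ a)) (curl (θ a)) y := fun a y =>
    mul_nonneg (inv_pos.2 (Om_pos y)).le (LocW_dot _ y)
  have h5 : ∀ y, Om y ^ 2 ≤ 2 ^ 2 := fun y => pow_le_pow_left₀ (Om_pos y).le (Om_le y) 2
  have h3 : ∀ a, Integrable fun y => (Om y)⁻¹ * dot (curl (θ a)) (curl (θ a)) y * dot u u y :=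
    fun a => by
      have := fun i => (curl_smooth (fun i => (hθ a i).1) i).continuous
      refine int_nw (C := c ^ 2 * 2 ^ 2) ((Om_smooth.continuous.inv₀ fun y => (Om_pos y).ne').mul
        (continuous_finsetSum _ fun i _ => (this i).mul (this i))) (fun y => ?_) hu.hinf
      refine (abs_of_nonneg (h2 a y)).trans_le (le_trans ?_ ((h1 y).trans
        (mul_le_mul_of_nonneg_left (h5 y) (sq_nonneg c))))
      rw [Finset.mul_sum]
      exact Finset.single_le_sum (fun a _ => h2 a y) (Finset.mem_univ a)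
  have h4 : ∑ a, ∫ y, (Om y)⁻¹ * dot (curl (θ a)) (curl (θ a)) y * dot u u y ≤
      c ^ 2 * nw (Op 2) u := by
    rw [← integral_finsetSum _ fun a _ => h3 a, nw, ← integral_const_mul]
    refine integral_mono (integrable_finsetSum _ fun a _ => h3 a) ((int_nw (C := 2 ^ 2) (Op_cont 2)
      (fun y => by rw [abs_of_pos (Op_pos 2 y), Op_two]; exact h5 y) hu.hinf).const_mul _)
      fun y => ?_
    simp only [← Finset.sum_mul, ← Finset.mul_sum, Op_two, ← mul_assoc]
    exact mul_le_mul_of_nonneg_right (h1 y) (LocW_dot u y)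
  have h6 := mul_le_mul_of_nonneg_left (h4.trans (mul_le_mul_of_nonneg_left (global_hardy' hu).1
    (sq_nonneg c))) (nw_nonneg (fun y => (Om_pos y).le) (curl u))
  rw [Finset.mul_sum] at h6
  refine (Finset.sum_le_sum fun a _ => cs_int_sq (LocW_nw hv) (h3 a) (LocW_nn _)
    (fun y => mul_nonneg (h2 a y) (LocW_dot u y)) fun y => ?_).trans (h6.trans_eq (by ring))
  refine (dot_sq _ _ y).trans ((mul_le_mul_of_nonneg_right (dot_cross_le u _ y)
    (LocW_dot _ y)).trans_eq ?_)
  have := (Om_pos y).ne'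
  field_simp

theorem LocW_quad {A : Fin 3 → Fin 3 → ℝ} (hP : 0 ≤ P) (h : ∑ i, ∑ j, A i j ^ 2 ≤ P ^ 2)
    (x : Fin 3 → ℝ) : |∑ i, x i * ∑ j, x j * A i j| ≤ P * ∑ i, x i ^ 2 := by
  refine abs_le_of_sq_le_sq ?_ (by positivity)
  have h1 := Finset.sum_mul_sq_le_sq_mul_sq Finset.univ (fun p : Fin 3 × Fin 3 => x p.1 * x p.2)
    fun p => A p.1 p.2
  have h2 := mul_le_mul_of_nonneg_left h (sq_nonneg (∑ i, x i ^ 2))
  simp only [Fintype.sum_prod_type, Fin.sum_univ_three] at h1 h2 ⊢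
  linarith

theorem dot_pos_le (hu : Adm u) (hP : 0 ≤ P) (h : ∀ y, g1 u y ≤ P ^ 2) (y : R3) :
    |dot pos u y| ≤ P * ‖y‖ ^ 2 := by
  have h0 : ∀ M, act M 0 = 0 := fun M => by simpa using act_smul M 0 0
  have h1 := hu.eqv.1 π 0 0
  have h2 := hu.eqv.2 0 1
  have h3 := hu.eqv.2 0 2
  rw [h0] at h1 h2 h3
  simp [rotM, flpM, Fin.sum_univ_three] at h1 h2 h3
  have h4 := norm_image_sub_le_of_norm_deriv_le_segment_01' (f := fun t : ℝ => ∑ i, y i * u i (t • y))
    (f' := fun t => ∑ i, y i * ∑ j, y j * pd j (u i) (t • y)) (C := P * ‖y‖ ^ 2)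
    (fun t _ => (HasDerivAt.fun_sum fun i _ => HasDerivAt.const_mul _
      (((dynCalc_d (hu.hinf i).1 (t • y)).hasFDerivAt.comp_hasDerivAt t
        ((hasDerivAt_id t).smul_const y)).congr_deriv
          (by rw [one_smul, dynCalc_sum]))).hasDerivWithinAt) fun t _ => by
      rw [norm_sq_eq]
      exact LocW_quad hP (h _) _
  rw [one_smul, zero_smul, Fin.sum_univ_three fun i => y i * u i 0, show u 0 0 = 0 by linarith,
    show u 1 0 = 0 by linarith, show u 2 0 = 0 by linarith] at h4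
  simpa [dot, pos] using h4

theorem w_nl (hu : Adm u) (hP : 0 ≤ P) (h : ∀ y, g1 u y ≤ P ^ 2) :
    ip (curl (cross u (curl u))) (sm Om (curl u)) ≤ 2 * P * nw Om (curl u) := by
  have hv := hinf_curl hu.hinf
  rw [ip_curl_B hu.hinf hu.dv hv (dvg_curl fun i => (hu.hinf i).1)]
  generalize curl u = v at hv
  have hO := Om_smooth.continuous
  have hc := fun i => (hv i).1.continuous
  have h1 : ∀ y, |Om y * (∑ i, v i y * ∑ j, v j y * pd j (u i) y -
      Om y * dot pos u y / 2 * dot v v y)| ≤ 2 * P * (Om y * dot v v y) := fun y => by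
    have h2 := abs_le.1 (LocW_quad hP (h y) fun i => v i y)
    have h3 := mul_le_mul_of_nonneg_left (dot_pos_le hu hP h y) (Om_pos y).le
    rw [mul_left_comm, Om_norm, ← abs_of_pos (Om_pos y), ← abs_mul] at h3
    have h4 := abs_le.1 (h3.trans (mul_le_mul_of_nonneg_left (sub_le_self 2 (abs_nonneg _)) hP))
    have h5 := mul_le_mul_of_nonneg_right h4.1 (LocW_dot v y)
    have h6 := mul_le_mul_of_nonneg_right h4.2 (LocW_dot v y)
    rw [abs_mul, abs_of_pos (Om_pos y), mul_left_comm]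
    simp only [sq] at h2
    exact mul_le_mul_of_nonneg_left (abs_le.2 ⟨by linarith!, by linarith!⟩) (Om_pos y).le
  have h2 : Integrable fun y => Om y * (∑ i, v i y * ∑ j, v j y * pd j (u i) y -
      Om y * dot pos u y / 2 * dot v v y) :=
    ((LocW_nw hv).const_mul (2 * P)).mono' (hO.mul ((continuous_finsetSum _ fun i _ => (hc i).mul
      (continuous_finsetSum _ fun j _ => (hc j).mul (pd_smooth (hu.hinf i).1 j).continuous)).sub
      (((hO.mul (continuous_finsetSum _ fun i _ => (coord_smooth i).continuous.mul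
        (hu.hinf i).1.continuous)).div_const 2).mul (continuous_finsetSum _ fun i _ =>
          (hc i).mul (hc i))))).aestronglyMeasurable (ae_of_all _ h1)
  have h3 := int_nw (w := fun y => Om y * (2 - Om y) / 3) (C := 1)
    ((hO.mul (continuous_const.sub hO)).div_const 3) (fun y => abs_le.2
      ⟨by nlinarith [Om_pos y, Om_le y], by linarith [sq_nonneg (Om y - 1)]⟩) hv
  rw [nw, nw, ← integral_const_mul]
  refine le_trans (le_of_eq ?_) (integral_mono h2 ((LocW_nw hv).const_mul _) fun y =>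
    (le_abs_self _).trans (h1 y))
  rw [sub_eq_iff_eq_add', ← sub_eq_iff_eq_add, ← integral_sub h3 h2]
  refine integral_congr_ae (ae_of_all _ fun y => ?_)
  simp [bf, AA, dot, Fin.sum_univ_three]
  ring

theorem sup_grad (hu : ∀ i, Hinf (u i)) (hd : ∀ y, dvg u y = 0) {ν k : ℝ} (hν : 0 < ν)
    (hk : 0 < k) (y : R3) :
    g1 u y ≤ (k ^ 2 + 2 / (ν * k)) / 19 * (gw 1 (curl u) + ν * YY (curl u)) := by
  have h1 : gw 1 (curl u) = ∑ i, ∑ j, ∑ l, ∫ y, pd l (pd j (u i)) y ^ 2 := by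
    rw [gw_one (hinf_curl hu), Finset.sum_comm, Finset.sum_comm (f := fun i j => ∑ l : Fin 3, _)]
    refine Finset.sum_congr rfl fun j _ => ?_
    have h2 := fun i => (hu i).pd j
    rw [← gw_one h2, gw_eq_curl h2 (dvg_pd (fun i => (hu i).1) hd j), nw_one (hinf_curl h2)]
    simp only [pd_curl fun i => (hu i).1]
  rw [h1, YY, ← Dp_grad_eq_curl hu hd (by norm_num)]
  simp only [Finset.mul_sum, ← Finset.sum_add_distrib]
  refine Finset.sum_le_sum fun i _ => Finset.sum_le_sum fun j _ => ?_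
  simpa using sup_bound ((hu i).pd j) one_pos hν hk y

theorem LocW_i1 {f : Sc} (hf : Hinf f) : Integrable fun y => Om y * ∑ j, pd j f y ^ 2 := by
  simp only [Finset.mul_sum, sq]
  exact integrable_finsetSum _ fun j _ => int_wmul Om_smooth.continuous LocW_Om (hf.pd j) (hf.pd j)

theorem LocW_ibp {f g : Sc} (hf : Hinf f) (hg : Hinf g) (j : Fin 3) :
    Integrable (fun y => pd j f y * g y + f y * pd j g y) ∧
      ∫ y, (pd j f y * g y + f y * pd j g y) = 0 :=
  ⟨(int_mul (hf.pd j) hg).add (int_mul hf (hg.pd j)), by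
    rw [integral_add (int_mul (hf.pd j) hg) (int_mul hf (hg.pd j)), ibp hf hg, neg_add_cancel]⟩

theorem LocW_one {f : Sc} (hf : Hinf f) {e : ℝ} (he : 0 < e) :
    ∫ y, Om y * ∑ j, pd j f y ^ 2 ≤ 4 * e ^ 3 * (∫ y, Dp (7 / 4) f y ^ 2) +
      (3 / 4 + 1 / (2 * e ^ 4)) * ∫ y, Om y * (f y * f y) := by
  have hg := hinf_Om hf
  have i1 := LocW_i1 hf
  have i2 := int_wmul Om_smooth.continuous LocW_Om hf hf
  have i3 := int_mul hg (hinf_sum Finset.univ fun j _ => (hf.pd j).pd j)
  have z1 := fun j => LocW_ibp hg (hf.pd j) j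
  have z2 := fun j =>
    LocW_ibp (hinf_smul (ResLoc_mono (ResLoc_pd sym_Om j) (by norm_num)) hf) hf j
  have i4 := fun j => (z1 j).1.sub ((z2 j).1.div_const 2)
  have h1 := integral_mono ((i1.add i3).sub (i2.div_const 16)) (integrable_finsetSum Finset.univ
    fun j _ => i4 j) fun y => by
      have h1 := lap_Om y
      have h2 : Om y ^ 2 * (1 - 2 * Om y) ≤ Om y / 8 := by
        nlinarith [mul_nonneg (Om_pos y).le (sq_nonneg (4 * Om y - 1))]
      simp only [pd_mul Om_smooth hf.1, pd_mul (pd_smooth Om_smooth _) hf.1, lap, Pi.sub_apply,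
        Pi.add_apply, Fin.sum_univ_three] at h1 ⊢
      linarith [mul_le_mul_of_nonneg_right (h1.trans_le h2) (mul_self_nonneg (f y))]
  rw [integral_finsetSum _ fun j _ => i4 j, integral_sub' (i1.add i3) (i2.div_const 16),
    integral_add' i1 i3, integral_div, Finset.sum_eq_zero fun j _ => by
      rw [integral_sub' (z1 j).1 ((z2 j).1.div_const 2), integral_div, (z1 j).2, (z2 j).2,
        zero_div, sub_zero]] at h1
  have h2 : -∫ y, Om y * f y * ∑ j, pd j (pd j f) y = _ := dual_quarter hg hf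
  have ha := hg.Dp (s := 1 / 4) (by norm_num)
  have hb := hf.Dp (s := 7 / 4) (by norm_num)
  have i5 := (int_sq ha).div_const (8 * e ^ 3)
  have i6 := (int_sq hb).const_mul (2 * e ^ 3)
  have h3 := integral_mono (int_mul ha hb) (i5.add i6) fun y => by
    simp only [Pi.add_apply]
    rw [← sub_le_iff_le_add, le_div_iff₀ (by positivity)]
    linarith [sq_nonneg (Dp (1 / 4) (fun y => Om y * f y) y - 4 * e ^ 3 * Dp (7 / 4) f y)]
  rw [integral_add' i5 i6, integral_div, integral_const_mul] at h3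
  have i7 := fun j => int_sq (hg.pd j)
  have h4 := integral_mono (integrable_finsetSum Finset.univ fun j _ => i7 j)
    ((i1.const_mul 4).add (i2.const_mul (5 / 2))) fun y => by
      have h1 := Om_norm y
      have h2 := mul_le_mul_of_nonneg_right (Om_le y)
        (mul_nonneg (Om_pos y).le (Finset.sum_nonneg (s := Finset.univ) fun j _ =>
          sq_nonneg (pd j f y)))
      have h3 : Om y ^ 2 * (2 - Om y) ≤ 5 / 4 := by
        nlinarith [mul_nonneg (Om_pos y).le (sq_nonneg (3 * Om y - 4)), sq_nonneg (3 * Om y - 4)]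
      have h4 := mul_le_mul_of_nonneg_right h3 (mul_nonneg (Om_pos y).le (mul_self_nonneg (f y)))
      have h5 := fun j => sq_nonneg (Om y ^ 2 * y j * f y + Om y * pd j f y)
      rw [← h1, norm_sq_eq] at h4
      simp only [pd_mul Om_smooth hf.1, pd_Om, Pi.add_apply, Fin.sum_univ_three] at h2 h4 ⊢
      linarith [h5 0, h5 1, h5 2]
  rw [integral_finsetSum _ fun j _ => i7 j, integral_add' (i1.const_mul 4) (i2.const_mul _),
    integral_const_mul, integral_const_mul] at h4
  have h5 := integral_mono (int_sq hg) (i2.const_mul 2) fun y => by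
    linarith [mul_le_mul_of_nonneg_right (Om_le y) (mul_nonneg (Om_pos y).le (mul_self_nonneg (f y)))]
  rw [integral_const_mul] at h5
  have h6 := div_le_div_of_nonneg_right ((interp_quarter hg he).trans (add_le_add
    (mul_le_mul_of_nonneg_left h4 (by positivity)) (div_le_div_of_nonneg_right h5 he.le)))
    (show 0 ≤ 8 * e ^ 3 by positivity)
  have h7 : ∀ I N : ℝ, (e ^ 3 * (4 * I + 5 / 2 * N) + 2 * N / e) / (8 * e ^ 3) =
      I / 2 + 5 / 16 * N + 1 / (2 * e ^ 4) * N / 2 := fun I N => by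
    field_simp
    ring
  rw [h7] at h6
  linarith

theorem gw_Om_le (hv : ∀ i, Hinf (v i)) {e : ℝ} (he : 0 < e) :
    gw Om v ≤ 4 * e ^ 3 * YY v + (3 / 4 + 1 / (2 * e ^ 4)) * nw Om v := by
  unfold gw nw YY dot
  simp only [fun y => Finset.mul_sum Finset.univ (fun i => ∑ j, pd j (v i) y ^ 2) (Om y),
    fun y => Finset.mul_sum Finset.univ (fun i => v i y * v i y) (Om y)]
  rw [integral_finsetSum _ fun i _ => LocW_i1 (hv i), integral_finsetSum _ fun i _ =>
    int_wmul Om_smooth.continuous LocW_Om (hv i) (hv i), Finset.mul_sum, Finset.mul_sum,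
    ← Finset.sum_add_distrib]
  exact Finset.sum_le_sum fun i _ => LocW_one (hv i) he

end Pool.Agent.Work.MP_6bf1e5_an.H.Dyn
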