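import Pool.Agent.Work.MP_6bf1e5_an.H.LocNear
import Pool.Agent.Work.MP_6bf1e5_an.H.LocW
import Pool.Agent.Work.MP_6bf1e5_an.H.DynCt

/-!
Linearity in the test fields, and the bilinear form of the level one energy.
-/

open scoped ContDiff ENNReal FourierTransform Real
open Set MeasureTheory

namespace Pool.Agent.Work.MP_6bf1e5_an.H.Dyn

variable {ι : Type} [Fintype ι] {a : ι → Vc} {p u v R U : Vc} {L : Lyap}

theorem lin_int (hp : ∀ i, Hinf (p i)) (hv : ∀ i, Hinf (v i)) : Integrable (dot p v) :=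
  integrable_finsetSum _ fun i _ => int_mul (hp i) (hv i)

theorem lin_pd (c : ι → ℝ) (h : ∀ j i, ContDiff ℝ ∞ (a j i)) (i k : Fin 3) :
    pd k (lc c a i) = fun y => ∑ j, c j * pd k (a j i) y := by
  have e : lc c a i = fun y => ∑ j, c j * a j i y := rfl
  rw [e, pd_sum _ fun j _ => contDiff_const.mul (h j i)]
  simp only [fun j => pd_cmul (h j i) (c j) k]

theorem lin_curl (c : ι → ℝ) (h : ∀ j i, ContDiff ℝ ∞ (a j i)) :
    curl (lc c a) = lc c fun j => curl (a j) := by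
  funext i y
  simp only [curl, lin_pd c h, lc, mul_sub, Finset.sum_sub_distrib]

theorem lin_kp (c : ι → ℝ) (U : Vc) (h : ∀ j i, ContDiff ℝ ∞ (a j i)) :
    kp U (lc c a) = lc c fun j => kp U (a j) := by
  funext i y
  have e : yd (lc c a i) y = ∑ j, c j * yd (a j i) y := by
    simp only [yd, lin_pd c h, Finset.mul_sum]
    rw [Finset.sum_comm]
    exact Finset.sum_congr rfl fun j _ => Finset.sum_congr rfl fun k _ => by ring
  simp only [kp, cross, e, lin_curl c h, lc, Finset.mul_sum, Finset.sum_mul,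
    ← Finset.sum_neg_distrib, ← Finset.sum_sub_distrib]
  exact Finset.sum_congr rfl fun j _ => by ring

theorem lin_kq (c : ι → ℝ) (U : Vc) (h : ∀ j i, ContDiff ℝ ∞ (a j i)) :
    kq U (lc c a) = lc c fun j => kq U (a j) := by
  funext i y
  simp only [kq, cross, lin_curl c h, lc, Finset.mul_sum, ← Finset.sum_sub_distrib,
    ← Finset.sum_neg_distrib]
  exact Finset.sum_congr rfl fun j _ => by ring

theorem lin_kForm (ν : ℝ) (c : ι → ℝ) (hU : ∀ i, Sym 0 (U i)) (hu : ∀ i, Hinf (u i))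
    (h : ∀ j i, Sym (-3) (a j i)) : kForm ν U (lc c a) u = ∑ j, c j * kForm ν U (a j) u := by
  have hv := hinf_curl hu
  unfold kForm
  rw [lin_kp c U fun j i => (h j i).1, lin_kq c U fun j i => (h j i).1,
    ip_lc c (v := LamV (curl u)) (fun i => hinf_lam (hv i)) fun j i => (h j i).hinf (by norm_num),
    ip_lc c hv fun j => LocNear_kp hU (h j), ip_lc c hu fun j => LocNear_kq hU (h j)]
  simp only [Finset.mul_sum, ← Finset.sum_add_distrib]
  exact Finset.sum_congr rfl fun j _ => by ring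

theorem good_θ (hL : L.Good) (a : Fin L.r) (i : Fin 3) : Hinf (L.θ a i) :=
  (hL.1 a i).hinf (by norm_num)

/-- The symmetric matrix moves from one factor to the other. -/
theorem lin_swap (hL : L.Good) (hv : ∀ i, Hinf (v i)) {ρ ρ' : Fin L.r → ℝ}
    (h : ∀ b, ρ' b = ∑ a, L.F b a * ρ a) :
    ∑ a, ip v (L.θF a) * ρ a = ∑ b, ip v (L.θ b) * ρ' b := by
  simp only [Lyap.θF, ip_lc _ hv (good_θ hL), h, Finset.sum_mul, Finset.mul_sum]
  rw [Finset.sum_comm]
  exact Finset.sum_congr rfl fun b _ => Finset.sum_congr rfl fun a _ => by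
    rw [hL.2.1 a b]; ring

theorem lin_ip_add (hv : ∀ i, Hinf (v i)) (hR : ∀ i, Hinf (R i)) (hp : ∀ i, Hinf (p i)) (t : ℝ) :
    ip (fun i y => v i y + t * R i y) p = ip v p + t * ip R p := by
  unfold ip
  rw [← integral_const_mul, ← integral_add (lin_int hv hp) ((lin_int hR hp).const_mul t)]
  refine integral_congr_ae (.of_forall fun y => ?_)
  simp only [dot, Fin.sum_univ_three]
  ring

theorem lin_nw_add (hv : ∀ i, Hinf (v i)) (hR : ∀ i, Hinf (R i)) (t : ℝ) :
    nw Om (fun i y => v i y + t * R i y)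
      = nw Om v + 2 * t * ip R (sm Om v) + t ^ 2 * nw Om R := by
  have i1 : Integrable (dot R (sm Om v)) := lin_int hR fun i => hinf_Om (hv i)
  have i2 : Integrable fun y => Om y * dot v v y + 2 * t * dot R (sm Om v) y :=
    (LocW_nw hv).add (i1.const_mul _)
  unfold nw ip
  rw [← integral_const_mul, ← integral_const_mul, ← integral_add (LocW_nw hv) (i1.const_mul _),
    ← integral_add i2 ((LocW_nw hR).const_mul _)]
  refine integral_congr_ae (.of_forall fun y => ?_)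
  simp only [dot, sm, Fin.sum_univ_three]
  ring

/-- The residual terms. -/
theorem res_le (hL : L.Good) {cl cz ch cb c x e : ℝ} (hco : L.Coer cl cz ch cb) (hcl : 0 ≤ cl)
    (hcz : 0 < cz) (hch : 0 ≤ ch) (h0 : 0 ≤ c) (h2 : c ≤ 2) (hv : ∀ i, Hinf (v i))
    (hR : ∀ i, Hinf (R i)) (hx : 0 ≤ x) (hx2 : x ^ 2 = L.Xv v) (he : 0 ≤ e)
    (h1 : nw Om R ≤ e ^ 2) :
    -(ip R (sm Om v) + ∑ a, ip v (L.θF a) * ip R (L.θ a)
      + c * ∑ i, ip v (L.θZ i) * ip R (L.θZ i)) ≤ (1 + 2 / cz) * ch * e * x := by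
  have hF := fun a i => (good_F hL a i).hinf (by norm_num : (-3 : ℝ) < -3 / 2)
  have hZ := fun a i => (good_Z hL a i).hinf (by norm_num : (-3 : ℝ) < -3 / 2)
  have n0 : ∀ V : Vc, 0 ≤ nw Om V := nw_nonneg fun y => (Om_pos y).le
  have z0 : ∀ V : Vc, 0 ≤ L.zv V := fun V => Finset.sum_nonneg fun i _ => sq_nonneg _
  have hz : ∀ V : Vc, (∀ i, Hinf (V i)) → cz * L.zv V ≤ L.Xv V := fun V hV => by
    linarith [hco.lo V hV, mul_nonneg hcl (n0 V)]
  have hρ : L.Xv R ≤ (ch * e) ^ 2 := by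
    rw [mul_pow]
    exact (hco.hi R hR).trans (mul_le_mul_of_nonneg_left h1 (sq_nonneg _))
  have sw : ∑ a, ip R (L.θF a) * ip v (L.θ a) = ∑ a, ip v (L.θF a) * ip R (L.θ a) := by
    rw [lin_swap hL hR (ρ' := fun b => ip v (L.θF b)) fun b => ip_lc _ hv (good_θ hL)]
    exact Finset.sum_congr rfl fun a _ => mul_comm _ _
  generalize hb : ip R (sm Om v) + ∑ a, ip v (L.θF a) * ip R (L.θ a)
    + 2 * ∑ i, ip v (L.θZ i) * ip R (L.θZ i) = b
  have q : ∀ t : ℝ, 0 ≤ L.Xv R * (t * t) + 2 * b * t + x ^ 2 := fun t => by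
    have hV : ∀ i, Hinf fun y => v i y + t * R i y := fun i => hinf_add (hv i) (hinf_cmul (hR i) t)
    have h3 := (mul_nonneg hcz.le (z0 _)).trans (hz (fun i y => v i y + t * R i y) hV)
    refine h3.trans_eq ?_
    rw [hx2, ← hb]
    unfold Lyap.Xv Lyap.zv
    simp only [lin_nw_add hv hR, lin_ip_add hv hR (hF _), lin_ip_add hv hR (hZ _),
      lin_ip_add hv hR (good_θ hL _), Fin.sum_univ_two]
    have e1 : ∑ a, (ip v (L.θF a) + t * ip R (L.θF a)) * (ip v (L.θ a) + t * ip R (L.θ a))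
        = ∑ a, ip v (L.θF a) * ip v (L.θ a) + t * ∑ a, ip v (L.θF a) * ip R (L.θ a)
          + t * ∑ a, ip R (L.θF a) * ip v (L.θ a) + t ^ 2 * ∑ a, ip R (L.θF a) * ip R (L.θ a) := by
      simp only [Finset.mul_sum, ← Finset.sum_add_distrib]
      exact Finset.sum_congr rfl fun a _ => by ring
    rw [e1, sw]
    ring
  have d := discrim_le_zero q
  have b1 : b ^ 2 ≤ (ch * e * x) ^ 2 := by
    unfold discrim at d
    nlinarith [mul_le_mul_of_nonneg_right hρ (sq_nonneg x)]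
  have b2 := (abs_le_of_sq_le_sq' b1 (by positivity)).1
  have s1 := Finset.sum_mul_sq_le_sq_mul_sq Finset.univ (fun i => ip v (L.θZ i))
    fun i => ip R (L.θZ i)
  have s2 : (cz * ∑ i, ip v (L.θZ i) * ip R (L.θZ i)) ^ 2 ≤ (ch * e * x) ^ 2 := by
    have a1 : cz * L.zv v ≤ x ^ 2 := hx2 ▸ hz v hv
    have a2 := (hz R hR).trans hρ
    have a3 := mul_le_mul a1 a2 (mul_nonneg hcz.le (z0 R)) (sq_nonneg x)
    have a4 := mul_le_mul_of_nonneg_left s1 (sq_nonneg cz)
    unfold Lyap.zv at a3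
    nlinarith
  generalize ∑ i, ip v (L.θZ i) * ip R (L.θZ i) = z at hb s2 ⊢
  have s3 : z ≤ ch * e * x / cz := by
    rw [le_div_iff₀ hcz]
    linarith [(abs_le_of_sq_le_sq' s2 (by positivity)).2]
  have s4 : (2 - c) * z ≤ 2 * (ch * e * x / cz) := by
    have : 0 ≤ ch * e * x / cz := by positivity
    nlinarith
  have s5 : (1 + 2 / cz) * ch * e * x = ch * e * x + 2 * (ch * e * x / cz) := by ring
  linarith

end Pool.Agent.Work.MP_6bf1e5_an.H.Dyn
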