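import Pool.Agent.Work.MP_6bf1e5_an.H.LocNum
import Pool.Agent.Work.MP_6bf1e5_an.H.LocLin
import Pool.Agent.Work.MP_6bf1e5_an.H.LocH2
import Pool.Agent.Work.MP_6bf1e5_an.H.LocCut

/-!
The master inequality.
-/

open scoped ContDiff ENNReal FourierTransform Real
open Set MeasureTheory

namespace Pool.Agent.Work.MP_6bf1e5_an.H.Dyn

theorem mas_young (a b : ℝ) {g : ℝ} (hg : 0 < g) : 2 * a * b ≤ g * a ^ 2 + b ^ 2 / g := by
  have h : g * a ^ 2 + b ^ 2 / g - 2 * a * b = (g * a - b) ^ 2 / g := by field_simp; ring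
  have h2 : 0 ≤ (g * a - b) ^ 2 / g := by positivity
  linarith

theorem le_of_sq_le_sq_aux {a b : ℝ} (hb : 0 ≤ b) (h : a ^ 2 ≤ b ^ 2) : a ≤ b :=
  (abs_le_of_sq_le_sq' h hb).2

theorem mas_arith {κ ν μ cz m β r g1 g2 g3 s s' t e cs ce b0 cl Cth cg er e2 a1 a2 a3 A : ℝ}
    {x h Y w P T D : ℝ} (hκ : 0 < κ) (hr : 0 < r) (hg1 : 0 < g1) (hg2 : 0 < g2) (hg3 : 0 < g3)
    (hs : 0 < s) (hs' : 0 < s') (ht : 0 < t) (hce : 0 ≤ ce) (hb0 : 0 ≤ b0) (hCth : 0 ≤ Cth)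
    (hcg : 0 ≤ cg) (hA : 0 < A) (ha1 : 0 ≤ a1) (ha2 : 0 ≤ a2) (hY : 0 ≤ Y) (hx : 0 ≤ x)
    (hP : 0 ≤ P) (hwx : A * w ^ 2 ≤ x ^ 2) (hxr : x ≤ r) (hh : κ * h ^ 2 ≤ r ^ 2)
    (hPP : P ^ 2 ≤ cs * (h ^ 2 + ν * Y))
    (hT : T ≤ -2 * μ * x ^ 2 + cz * x ^ 2 + 2 * (a1 * w ^ 2 + 2 * P * w ^ 2) + 2 * (er * x)
      + 2 * (cg * x * (a2 * w + 7 / 2 * Cth * w ^ 2)) + 2 * κ * D)
    (hD : D ≤ -(2 / 3 * h ^ 2) + e2 * h
      + 2 * b0 * (t ^ 3 / 4 * h ^ 2 + 3 / (4 * t) * (4 * e ^ 3 * Y + ce * w ^ 2))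
      + 2 * a3 * h ^ 2 + cl * w * h + 3 * P * h ^ 2 - ν * Y)
    (n1 : m + cz + g1 + (7 * Cth * cg * r + 2 * r * s + κ * cl ^ 2 / g3 + κ * (3 * b0 / t) * ce
      + 2 * a1 + cg * a2) / A + cg * a2 ≤ 2 * μ)
    (n2 : m + b0 * t ^ 3 + g2 + g3 + cs * (2 * r / (s * κ * A) + 3 * s') + 3 * r ^ 2 / (κ * s')
      + 4 * a3 ≤ 4 / 3)
    (n3 : 12 * b0 * e ^ 3 / t + ν * (cs * (2 * r / (s * κ * A) + 3 * s')) ≤ 2 * ν)
    (n4 : er ^ 2 / g1 + κ * e2 ^ 2 / g2 ≤ β) :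
    T ≤ -m * (x ^ 2 + κ * h ^ 2) + β := by
  have hw2 : w ^ 2 ≤ x ^ 2 / A := by rw [le_div_iff₀ hA]; linarith
  have A1 := mas_young x er hg1
  have A2 : cg * x * (Cth * w ^ 2) ≤ cg * r * (Cth * w ^ 2) := by gcongr
  have A3 : 4 * (P * w ^ 2) ≤ 2 * r * s * (x ^ 2 / A) + 2 * r / (s * A) * P ^ 2 := by
    have h1 : w ^ 2 ≤ r * x / A := hw2.trans (by gcongr; nlinarith)
    have h2 := mul_le_mul_of_nonneg_left (mas_young x P hs) (by positivity : 0 ≤ 2 * r / A)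
    have h3 : P * w ^ 2 ≤ P * (r * x / A) := by gcongr
    have h4 : 2 * r / A * (s * x ^ 2 + P ^ 2 / s)
        = 2 * r * s * (x ^ 2 / A) + 2 * r / (s * A) * P ^ 2 := by field_simp
    have h5 : 2 * r / A * (2 * x * P) = 4 * (P * (r * x / A)) := by ring
    linarith
  have A4 : 6 * κ * (P * h ^ 2) ≤ 3 * κ * s' * P ^ 2 + 3 * r ^ 2 / (κ * s') * (κ * h ^ 2) := by
    have h1 := mul_le_mul_of_nonneg_left (mas_young P (h ^ 2) hs') (by positivity : 0 ≤ 3 * κ)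
    have h2 : 3 * κ * ((h ^ 2) ^ 2 / s') = 3 / s' * h ^ 2 * (κ * h ^ 2) := by ring
    have h3 : 3 / s' * h ^ 2 * (κ * h ^ 2) ≤ 3 / s' * h ^ 2 * r ^ 2 := by gcongr
    have h4 : 3 * r ^ 2 / (κ * s') * (κ * h ^ 2) = 3 / s' * h ^ 2 * r ^ 2 := by field_simp
    linarith
  have A5 : 2 * κ * (e2 * h) ≤ g2 * (κ * h ^ 2) + κ * e2 ^ 2 / g2 := by
    have h1 := mul_le_mul_of_nonneg_left (mas_young h e2 hg2) hκ.le
    have h2 : κ * (g2 * h ^ 2 + e2 ^ 2 / g2) = g2 * (κ * h ^ 2) + κ * e2 ^ 2 / g2 := by ring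
    linarith
  have A6 : 2 * κ * (cl * w * h) ≤ g3 * (κ * h ^ 2) + κ * cl ^ 2 / g3 * w ^ 2 := by
    have h1 := mul_le_mul_of_nonneg_left (mas_young h (cl * w) hg3) hκ.le
    have h2 : κ * (g3 * h ^ 2 + (cl * w) ^ 2 / g3)
        = g3 * (κ * h ^ 2) + κ * cl ^ 2 / g3 * w ^ 2 := by ring
    linarith
  have A7 : 2 * (cg * a2) * (x * w) ≤ cg * a2 * (x ^ 2 + w ^ 2) := by
    nlinarith [mul_nonneg (mul_nonneg hcg ha2) (sq_nonneg (x - w))]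
  have A8 : (7 * Cth * cg * r + κ * cl ^ 2 / g3 + κ * (3 * b0 / t) * ce + 2 * a1 + cg * a2) * w ^ 2
      ≤ (7 * Cth * cg * r + κ * cl ^ 2 / g3 + κ * (3 * b0 / t) * ce + 2 * a1 + cg * a2)
        * (x ^ 2 / A) := by gcongr
  have A9 : (2 * r / (s * A) + 3 * κ * s') * P ^ 2
      ≤ cs * (2 * r / (s * κ * A) + 3 * s') * (κ * h ^ 2)
        + ν * (cs * (2 * r / (s * κ * A) + 3 * s')) * (κ * Y) := by
    have h1 := mul_le_mul_of_nonneg_left hPP (by positivity : 0 ≤ 2 * r / (s * A) + 3 * κ * s')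
    have h2 : (2 * r / (s * A) + 3 * κ * s') * (cs * (h ^ 2 + ν * Y))
        = cs * (2 * r / (s * κ * A) + 3 * s') * (κ * h ^ 2)
          + ν * (cs * (2 * r / (s * κ * A) + 3 * s')) * (κ * Y) := by field_simp
    linarith
  have B1 := mul_le_mul_of_nonneg_right n1 (sq_nonneg x)
  have B2 := mul_le_mul_of_nonneg_right n2 (by positivity : 0 ≤ κ * h ^ 2)
  have B3 := mul_le_mul_of_nonneg_right n3 (by positivity : 0 ≤ κ * Y)
  have B4 := mul_le_mul_of_nonneg_left hD (by positivity : 0 ≤ 2 * κ)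
  have B5 : 2 * κ * (2 * b0 * (t ^ 3 / 4 * h ^ 2 + 3 / (4 * t) * (4 * e ^ 3 * Y + ce * w ^ 2)))
      = b0 * t ^ 3 * (κ * h ^ 2) + 12 * b0 * e ^ 3 / t * (κ * Y)
        + κ * (3 * b0 / t) * ce * w ^ 2 := by field_simp; ring
  have B6 : (m + cz + g1 + (7 * Cth * cg * r + 2 * r * s + κ * cl ^ 2 / g3 + κ * (3 * b0 / t) * ce
      + 2 * a1 + cg * a2) / A + cg * a2) * x ^ 2 = (m + cz + g1 + cg * a2) * x ^ 2
        + 2 * r * s * (x ^ 2 / A) + (7 * Cth * cg * r + κ * cl ^ 2 / g3 + κ * (3 * b0 / t) * ce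
          + 2 * a1 + cg * a2) * (x ^ 2 / A) := by ring
  linarith

theorem mas_fin {r : ℕ} {g ρF : Fin r → ℝ} {z k ρZ : Fin 2 → ℝ} {c c' μ' G ρ : ℝ}
    (hμ' : 0 < μ') (h0 : 0 ≤ c') (h1 : c' ≤ c) (hG : 0 ≤ G) (hρ : 0 ≤ ρ)
    (hg : ∑ i, g i ^ 2 + c ^ 2 * ∑ i, z i ^ 2 ≤ G ^ 2)
    (hr : ∑ i, ρF i ^ 2 + ∑ i, ρZ i ^ 2 ≤ ρ ^ 2) :
    ∑ i, g i * ρF i + c' * ∑ i, z i * ρZ i - c' * ∑ i, z i * k i
      ≤ μ' * ∑ i, k i ^ 2 + c ^ 2 / (2 * μ') / 2 * ∑ i, z i ^ 2 + G * ρ := by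
  have e1 := Finset.sum_mul_sq_le_sq_mul_sq Finset.univ
    (Sum.elim g fun i => c' * z i) (Sum.elim ρF ρZ)
  simp only [Fintype.sum_sum_type, Sum.elim_inl, Sum.elim_inr] at e1
  have e2 : ∑ i, (c' * z i) ^ 2 ≤ c ^ 2 * ∑ i, z i ^ 2 := by
    rw [Finset.mul_sum]
    refine Finset.sum_le_sum fun i _ => ?_
    rw [mul_pow]
    gcongr
  have e3 : (∑ i, g i * ρF i + ∑ i, c' * z i * ρZ i) ^ 2 ≤ (G * ρ) ^ 2 := by
    rw [mul_pow]
    exact e1.trans (mul_le_mul (by linarith) hr (by positivity) (by positivity))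
  have e4 := (abs_le_of_sq_le_sq' e3 (mul_nonneg hG hρ)).2
  have e5 : ∀ i, -(2 * c' * (z i * k i)) ≤ 2 * μ' * k i ^ 2 + c ^ 2 / (2 * μ') * z i ^ 2 := by
    intro i
    have a1 := mas_young (k i) (-(c' * z i)) (by positivity : 0 < 2 * μ')
    have a2 : (-(c' * z i)) ^ 2 / (2 * μ') = c' ^ 2 / (2 * μ') * z i ^ 2 := by ring
    have a3 : c' ^ 2 / (2 * μ') * z i ^ 2 ≤ c ^ 2 / (2 * μ') * z i ^ 2 := by gcongr
    linarith
  simp only [Fin.sum_univ_two] at e4 ⊢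
  linarith [e5 0, e5 1]

/-- The remainder in the rate of change of a moment. -/
noncomputable def rmd (ν : ℝ) (U B u θ : Vc) : ℝ :=
  kForm ν U θ u - kForm ν B θ u + ip (cross u (curl u)) (curl θ)

theorem mas_rem {ν : ℝ} {U B u : Vc} {ι : Type} [Fintype ι] {θ : ι → Vc}
    (hθ : ∀ a i, Sym (-3) (θ a i)) (hu : Adm u) {a2 Cth w : ℝ} (ha2 : 0 ≤ a2) (hCth : 0 ≤ Cth)
    (hw : 0 ≤ w) (hw2 : w ^ 2 = nw Om (curl u))
    (hc : ∀ y, ∑ a, dot (curl (θ a)) (curl (θ a)) y ≤ Cth ^ 2 * Om y ^ 3)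
    (hk : ∑ a, (kForm ν U (θ a) u - kForm ν B (θ a) u) ^ 2 ≤ a2 ^ 2 * nw Om (curl u)) :
    ∑ a, rmd ν U B u (θ a) ^ 2 ≤ (a2 * w + 7 / 2 * Cth * w ^ 2) ^ 2 := by
  refine fro_add (by positivity) (by positivity) (by rw [mul_pow, hw2]; exact hk)
    ((m_nl hu hθ hc).trans ?_)
  rw [← hw2]
  nlinarith [sq_nonneg (Cth * w ^ 2)]

theorem mas_dM {L : Lyap} {ν : ℝ} {U B u : Vc} (hL : L.Good) (hB : Bg B) (hU : ∀ i, Sym 0 (U i))
    (hB' : ∀ i, Sym 0 (B i)) (hu : ∀ i, Hinf (u i)) :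
    ∑ a, mom (L.θF a) u * dM ν B (L.θ a) u = -∑ a, mom (L.θF a) u * kForm ν U (L.θ a) u
      - ∑ a, mom (L.θF a) u * ip (Res ν B) (L.θ a)
      + ∑ a, mom (L.θ a) u * rmd ν U B u (L.θF a) := by
  have h := lin_swap hL (hinf_curl hu) (ρ := fun a => rmd ν U B u (L.θ a))
    (ρ' := fun a => rmd ν U B u (L.θF a)) fun b => by
      unfold rmd Lyap.θF
      rw [lin_kForm ν _ hU hu hL.1, lin_kForm ν _ hB' hu hL.1, lin_curl _ fun j i => (hL.1 j i).1,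
        ip_lc _ (hinf_cross hu (hinf_curl hu)) fun j => hinf_curl (good_θ hL j)]
      simp only [← Finset.sum_sub_distrib, ← Finset.sum_add_distrib]
      exact Finset.sum_congr rfl fun j _ => by ring
  unfold mom
  rw [← h]
  simp only [← Finset.sum_neg_distrib, ← Finset.sum_sub_distrib, ← Finset.sum_add_distrib]
  exact Finset.sum_congr rfl fun a _ => by rw [dM_eq ν hB hu (hL.1 a), rmd]; ring

theorem master' {L : Lyap} {ν : ℝ} {Ψ S : Vc} {ψ s : Fin 2 → Vc} {K : Cst}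
    (hS : Static L ν Ψ S ψ s K) {c m β rr : ℝ} (hN : Num L.κ ν K c m β rr) :
    ∃ A0, ∀ A ≥ A0, Master L ν (cut A Ψ S) c m β rr := by
  obtain ⟨Y, ⟨hr, hg1, hg2, hg3, hs, hs', ht, he, hk, hcg⟩,
    ⟨hν, hμ', hb0, hb1, hb2, hCth, hcl, hcz, hch, he1, he2, hc0, hc2⟩, hrr, ⟨k1, k2⟩,
    n1, n2, n3, n4⟩ := hN
  obtain ⟨C1, hC1, ha⟩ := near_a
  obtain ⟨C2, hC2, hkk⟩ := near_k
  have hL := hS.good
  have hκ := hL.2.2
  set cs := (Y.k ^ 2 + 2 / (ν * Y.k)) / 19 with hcs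
  set ce := 3 / 4 + 1 / (2 * Y.e ^ 4) with hce
  obtain ⟨η, ⟨m1, m2, m4⟩, hη⟩ : ∃ η : ℝ, (m + c ^ 2 / (2 * K.μ') / K.cz + Y.g1
      + (7 * K.Cth * Y.cg * Y.r + 2 * Y.r * Y.s
        + L.κ * (16 * (K.b1 + 6 * η) + 7 / 2 * (K.b2 + 12 * η)) ^ 2 / Y.g3
        + L.κ * (3 * K.b0 / Y.t) * ce + 2 * (C1 * η) + Y.cg * (C2 * η * K.Cth)) / K.cl
      + Y.cg * (C2 * η * K.Cth) < 2 * K.μ ∧
      m + K.b0 * Y.t ^ 3 + Y.g2 + Y.g3 + cs * (2 * Y.r / (Y.s * L.κ * K.cl) + 3 * Y.s')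
        + 3 * Y.r ^ 2 / (L.κ * Y.s') + 4 * (3 * η) < 4 / 3 ∧
      ((1 + 2 / K.cz) * K.ch * (K.e1 + η)) ^ 2 / Y.g1 + L.κ * (K.e2 + η) ^ 2 / Y.g2 < β) ∧
      η ∈ Ioi 0 := by
    refine (Filter.Eventually.and (f := nhdsWithin (0 : ℝ) (Ioi 0))
      (Filter.Eventually.filter_mono nhdsWithin_le_nhds ?_) self_mem_nhdsWithin).exists
    refine Filter.Eventually.and ?_ (Filter.Eventually.and ?_ ?_) <;>
      refine ContinuousAt.eventually_lt (by fun_prop) continuousAt_const ?_ <;>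
      simpa using by assumption
  replace hη : 0 < η := hη
  obtain ⟨A1, hA1, hnear⟩ := near_cut hS.pot hη
  obtain ⟨A2, hres⟩ := hS.res η hη
  refine ⟨max A1 A2, fun A hA => ?_⟩
  have hn := hnear A ((le_max_left _ _).trans hA)
  obtain ⟨hR1, hR2⟩ := hres A ((le_max_right _ _).trans hA)
  have hB := pot_bg hS.pot (hA1.trans_le ((le_max_left _ _).trans hA))
  have hpw := near_g hn hb0 hb1 hb2 hS.pw0 hS.pw1 hS.pw2
  generalize cut A Ψ S = B at hn hR1 hR2 hB hpw ⊢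
  have hBh := bg_hinf hB
  have hθ : ∀ a i, Sym (-3) (Sum.elim L.θF L.θZ a i) := by
    rintro (a | a) i
    exacts [good_F hL a i, good_Z hL a i]
  have hc : ∀ y, ∑ a, dot (curl (Sum.elim L.θF L.θZ a)) (curl (Sum.elim L.θF L.θZ a)) y
      ≤ K.Cth ^ 2 * Om y ^ 3 := fun y => by
    rw [Fintype.sum_sum_type]; exact hS.pwθ y
  have key : ∀ u, Adm u → L.X u ≤ rr → ∀ c', 0 ≤ c' → c' ≤ c → L.dE ν B u + c' * L.dZ ν B u
      ≤ -m * L.X u + β := by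
    intro u hu hX c' h0 h1
    have hv := hinf_curl hu.hinf
    have hdv := dvg_curl fun i => (hu.hinf i).1
    have hw0 : 0 ≤ nw Om (curl u) := nw_nonneg (fun y => (Om_pos y).le) _
    have hH0 : 0 ≤ gw 1 (curl u) := gw_nonneg (fun _ => zero_le_one) _
    have hY0 := YY_nonneg (curl u)
    have hz0 : 0 ≤ ∑ i, mom (L.θZ i) u ^ 2 := by positivity
    have hlo : K.cl * nw Om (curl u) + K.cz * ∑ i, mom (L.θZ i) u ^ 2 ≤ L.X1 u := hS.coer.lo _ hv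
    have hbe : ∑ a, mom (L.θ a) u ^ 2 ≤ K.cb ^ 2 * nw Om (curl u) := hS.coer.bes _ hv
    have hXX : L.X u = L.X1 u + L.κ * gw 1 (curl u) := rfl
    have hP0 : 0 ≤ cs * (gw 1 (curl u) + ν * YY (curl u)) := by positivity
    have p1 := mul_nonneg hcl.le hw0
    have p2 := mul_nonneg hcz.le hz0
    obtain ⟨w, hw, hw2⟩ : ∃ w, 0 ≤ w ∧ w ^ 2 = nw Om (curl u) :=
      ⟨_, Real.sqrt_nonneg _, Real.sq_sqrt hw0⟩
    obtain ⟨h, hh, hh2⟩ : ∃ h, 0 ≤ h ∧ h ^ 2 = gw 1 (curl u) :=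
      ⟨_, Real.sqrt_nonneg _, Real.sq_sqrt hH0⟩
    obtain ⟨x, hx, hx2⟩ : ∃ x, 0 ≤ x ∧ x ^ 2 = L.X1 u :=
      ⟨_, Real.sqrt_nonneg _, Real.sq_sqrt (by linarith)⟩
    obtain ⟨P, hP, hP2⟩ : ∃ P, 0 ≤ P ∧ P ^ 2 = cs * (gw 1 (curl u) + ν * YY (curl u)) :=
      ⟨_, Real.sqrt_nonneg _, Real.sq_sqrt hP0⟩
    have hPu : ∀ y, g1 u y ≤ P ^ 2 := fun y => hP2 ▸ sup_grad hu.hinf hu.dv hν hk y
    have hκH : 0 ≤ L.κ * gw 1 (curl u) := by positivity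
    have d1 := (abs_le.1 (ha ν η _ B u hn hu)).1
    have d2 := res_le hL hS.coer hcl.le hcz hch h0 (h1.trans hc2) hv (hinf_Res ν hB) hx hx2
      (by linarith) hR1
    have d3 := w_nl hu hP hPu
    have d0 := mas_rem hθ hu (by positivity) hCth hw hw2 hc (hkk ν η K.Cth _ B u _ _ hn hu hθ hc)
    rw [Fintype.sum_sum_type] at d0
    have d4 := mas_fin (g := fun a => mom (L.θ a) u) (z := fun i => mom (L.θZ i) u)
      (k := fun i => kForm ν (fld Ψ S) (L.θZ i) u) (G := Y.cg * x) hμ' h0 h1 (by positivity)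
      (by positivity) (by
        have a1 := mul_le_mul_of_nonneg_right k1 hw0
        have a2 := mul_le_mul_of_nonneg_right k2 hz0
        have a3 := mul_le_mul_of_nonneg_left hlo (sq_nonneg Y.cg)
        rw [mul_pow, hx2]
        linarith) d0
    have d5 := hS.l1 u hu
    have d6 : c ^ 2 / (2 * K.μ') * ∑ i, mom (L.θZ i) u ^ 2
        ≤ c ^ 2 / (2 * K.μ') / K.cz * x ^ 2 := by
      rw [div_mul_eq_mul_div _ K.cz, mul_div_assoc]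
      gcongr
      rw [le_div_iff₀ hcz]
      linarith
    have d7 := mas_dM (ν := ν) hL hB hn.sU hn.sB hu.hinf
    have d8 : ∑ i, mom (L.θZ i) u * dM ν B (L.θZ i) u
        = -∑ i, mom (L.θZ i) u * kForm ν (fld Ψ S) (L.θZ i) u
          - ∑ i, mom (L.θZ i) u * ip (Res ν B) (L.θZ i)
          + ∑ i, mom (L.θZ i) u * rmd ν (fld Ψ S) B u (L.θZ i) := by
      simp only [Fin.sum_univ_two, dM_eq ν hB hu.hinf (good_Z hL _), rmd]
      ring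
    have f1 := (abs_le.1 (hp_R (hinf_Res ν hB) hv (by linarith) hh hR2 hh2.ge)).1
    have f2 := hp_B hBh hB.dv hv hdv hb0 (by positivity) (by positivity) hw hh
      (fun y => (hpw y).1) (fun y => (hpw y).2.1) hw2.ge hh2.ge
    have f3 := hp_W hBh hu (by positivity) (by positivity) hw hh (fun y => (hpw y).2.1)
      (fun y => (hpw y).2.2) hw2.ge hh2.ge
    have f4 := hp_N hu.hinf hu.dv hP hPu
    have f5 : gw (Op (3 / 4)) (curl u) ≤ Y.t ^ 3 / 4 * h ^ 2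
        + 3 / (4 * Y.t) * (4 * Y.e ^ 3 * YY (curl u) + ce * w ^ 2) := by
      rw [hh2, hw2]
      exact (gw_Op_le hv ht).trans (add_le_add le_rfl
        (mul_le_mul_of_nonneg_left (gw_Om_le hv he) (by positivity)))
    have f6 := mul_le_mul_of_nonneg_left f5 (by positivity : 0 ≤ 2 * K.b0)
    have := mas_arith (T := L.dE ν B u + c' * L.dZ ν B u) (D := dH ν B u) (x := x) (h := h)
      (w := w) (P := P) (Y := YY (curl u)) (e := Y.e) hκ hr hg1 hg2 hg3 hs hs' ht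
      (by positivity) hb0 hCth hcg hcl (by positivity) (by positivity) hY0 hx hP
      (by rw [hw2, hx2]; linarith) (le_of_sq_le_sq_aux hr.le (by rw [hx2]; linarith))
      (by rw [hh2]; linarith [sq_nonneg x]) (by rw [hP2, hh2]) ?_ ?_ m1.le m2.le n3 m4.le
    · rw [hx2, hh2, ← hXX] at this
      exact this
    · unfold Lyap.dE Lyap.dZ
      rw [dW_eq ν hB hu.hinf hu.dv, d7, d8]
      rw [← hw2] at d1 d3
      rw [← hx2] at d5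
      simp only [Sum.elim_inl, Sum.elim_inr] at d4
      unfold mom at *
      linarith
    · rw [dH_eq ν hB hu.hinf]
      rw [← hh2] at f2 f4 ⊢
      linarith
  refine ⟨fun u hu hX => ?_, fun u hu hX => key u hu hX c hc0 le_rfl⟩
  have := key u hu hX 0 le_rfl hc0
  linarith

end Pool.Agent.Work.MP_6bf1e5_an.H.Dyn
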