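import Pool.Agent.Work.MP_6bf1e5_an.H.LocMult

/-!
The effect of the cut-off on the forms and on the pointwise bounds.
Hints. With D = U - B: |D i| ≤ η, (pd j (D i))² ≤ η² Om / 2, second derivatives ≤ η² (Om / 2)², third ≤ η² (Om / 2)³
(rpow_sq_le). near_a: AA U - AA B has entries ≤ C η Om (Om ‖y‖ ≤ 1), BB (curl U) - BB (curl B) has squared entries
≤ C η² Om ^ 3; |v i M u j| ≤ C η (Om v i ^ 2 + Om ^ 2 u j ^ 2); global_hardy'. near_k: the difference is
ip v (cross (curl θ) D) + ip u (cross (curl D) (curl θ)) up to sign; cs_int_sq with p = Om |v|², q = |curl θ|² |D|² / Om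
and with p = Om² |u|², q = |curl D|² |curl θ|² / Om²; sum over a, int_Om_sq. near_g: fro_add on product index types.
-/

open scoped ContDiff ENNReal FourierTransform Real
open Set MeasureTheory

namespace Pool.Agent.Work.MP_6bf1e5_an.H.Dyn

theorem LocNear_pds {f g : Sc} (hf : ContDiff ℝ ∞ f) (hg : ContDiff ℝ ∞ g) (l : List (Fin 3)) :
    pds l (fun y => f y - g y) = fun y => pds l f y - pds l g y := by
  induction l with
  | nil => rfl
  | cons j l ih =>
    change pd j (pds l fun y => f y - g y) = _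
    rw [ih, pd_sub (pds_smooth hf l) (pds_smooth hg l)]
    rfl

theorem LocNear_d {η : ℝ} {U B : Vc} (h : Near η U B) (l : List (Fin 3)) (hl : l.length ≤ 3)
    (i : Fin 3) (y : R3) :
    (pds l (U i) y - pds l (B i) y) ^ 2 ≤ η ^ 2 * (Om y / 2) ^ l.length := by
  have h1 := h.le l hl i y
  rw [show (U - B) i = fun y => U i y - B i y from rfl, LocNear_pds (h.sU i).1 (h.sB i).1] at h1
  calc _ ≤ (η * (1 + ‖y‖) ^ (-(l.length : ℝ))) ^ 2 := by
        rw [← sq_abs]
        exact pow_le_pow_left₀ (abs_nonneg _) h1 2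
    _ ≤ _ := by
        rw [mul_pow]
        exact mul_le_mul_of_nonneg_left (rpow_sq_le _ y) (sq_nonneg η)

theorem LocNear_c {η : ℝ} {U B : Vc} (h : Near η U B) (l : List (Fin 3)) (hl : l.length ≤ 2)
    (i : Fin 3) (y : R3) :
    (pds l (curl U i) y - pds l (curl B i) y) ^ 2 ≤ 4 * (η ^ 2 * (Om y / 2) ^ (l.length + 1)) := by
  have e : ∀ V : Vc, (∀ i, Sym 0 (V i)) → pds l (curl V i) y =
      pds (l ++ [i + 1]) (V (i + 2)) y - pds (l ++ [i + 2]) (V (i + 1)) y := fun V hV => by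
    rw [pds_append, pds_append]
    exact congrFun (LocNear_pds (pd_smooth (hV _).1 _) (pd_smooth (hV _).1 _) l) y
  have h1 := LocNear_d h (l ++ [i + 1]) (by simp; omega) (i + 2) y
  have h2 := LocNear_d h (l ++ [i + 2]) (by simp; omega) (i + 1) y
  rw [List.length_append, List.length_singleton] at h1 h2
  rw [e U h.sU, e B h.sB]
  linarith [sq_nonneg (pds (l ++ [i + 1]) (U (i + 2)) y - pds (l ++ [i + 1]) (B (i + 2)) y +
    (pds (l ++ [i + 2]) (U (i + 1)) y - pds (l ++ [i + 2]) (B (i + 1)) y))]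

theorem LocNear_const (c : ℝ) : Sym 0 fun _ => c := ResLoc_mono (hom_const c).sym (by simp)

theorem LocNear_coord (j : Fin 3) : Sym 1 fun y => y j := ResLoc_mono (hom_coord j).sym (by simp)

theorem LocNear_AA {U : Vc} (hU : ∀ i, Sym 0 (U i)) (i j : Fin 3) : Sym 0 (AA U i j) := by
  have h1 : Sym 0 fun y => (2 - Om y) / 3 + Om y * dot pos U y / 2 := by
    simp only [div_eq_inv_mul]
    exact ResLoc_add (ResLoc_cmul (ResLoc_sub (LocNear_const 2) (ResLoc_mono sym_Om (by norm_num))) _)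
      (ResLoc_cmul (ResLoc_mono (ResLoc_mul sym_Om
        (ResLoc_sum _ fun k _ => ResLoc_mul (LocNear_coord k) (hU k))) (by norm_num)) _)
  have h2 : Sym 0 fun y => (pd i (U j) y + pd j (U i) y) / 2 := by
    simp only [div_eq_inv_mul]
    exact ResLoc_cmul (ResLoc_mono (ResLoc_add (ResLoc_pd (hU j) i) (ResLoc_pd (hU i) j))
      (by norm_num)) _
  have h3 : Sym 0 fun y => if i = j then (2 - Om y) / 3 + Om y * dot pos U y / 2 else 0 := by
    split_ifs
    exacts [h1, ResLoc_zero 0]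
  exact ResLoc_mono (ResLoc_mul sym_Om (ResLoc_sub h3 h2)) (by norm_num)

theorem LocNear_BB {U : Vc} (hU : ∀ i, Sym 0 (U i)) (i j : Fin 3) : Sym 0 (BB (curl U) i j) := by
  have hW := ResLoc_curl hU
  unfold BB
  simp only [sq]
  exact ResLoc_sub (ResLoc_mono (ResLoc_mul sym_Om (ResLoc_add (ResLoc_pd (hW j) i)
    (ResLoc_pd (hW i) j))) (by norm_num)) (ResLoc_mono (ResLoc_mul (ResLoc_mul
      (ResLoc_mul sym_Om sym_Om) (LocNear_coord i)) (hW j)) (by norm_num))

theorem LocNear_int {M : Fin 3 → Fin 3 → Sc} {a b : Vc} (hM : ∀ i j, Sym 0 (M i j))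
    (ha : ∀ i, Hinf (a i)) (hb : ∀ i, Hinf (b i)) : Integrable (bf M a b) :=
  integrable_finsetSum _ fun i _ => integrable_finsetSum _ fun j _ => by
    simpa only [mul_comm (a i _)] using int_mul (hinf_smul (hM i j) (ha i)) (hb j)

theorem LocNear_Om (y : R3) : |Om y| ≤ 2 := (abs_of_pos (Om_pos y)).trans_le (Om_le y)

theorem LocNear_Op (y : R3) : |Op 2 y| ≤ 4 := by
  rw [abs_of_pos (Op_pos 2 y), Op_two]
  nlinarith [Om_pos y, Om_le y]

theorem LocNear_bf {M N : Fin 3 → Fin 3 → Sc} {a b : Vc} {p q : Sc} {e : ℝ} (he : 0 ≤ e)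
    (hM : ∀ i j, Sym 0 (M i j)) (hN : ∀ i j, Sym 0 (N i j)) (ha : ∀ i, Hinf (a i))
    (hb : ∀ i, Hinf (b i)) (hp : ∀ y, 0 ≤ p y) (hq : ∀ y, 0 ≤ q y)
    (ip : Integrable fun y => p y * dot a a y) (iq : Integrable fun y => q y * dot b b y)
    (h : ∀ i j y, (M i j y - N i j y) ^ 2 ≤ e ^ 2 * (p y * q y)) :
    |(∫ y, bf M a b y) - ∫ y, bf N a b y| ≤ 3 * e / 2 * (nw p a + nw q b) := by
  rw [← integral_sub (LocNear_int hM ha hb) (LocNear_int hN ha hb), nw, nw, ← integral_add ip iq,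
    ← integral_const_mul, ← Real.norm_eq_abs]
  refine norm_integral_le_of_norm_le ((ip.add iq).const_mul _)
    (Filter.Eventually.of_forall fun y => ?_)
  have k : ∀ i j, |a i y * M i j y * b j y - a i y * N i j y * b j y| ≤
      e / 2 * (p y * (a i y * a i y) + q y * (b j y * b j y)) := fun i j => by
    refine abs_le_of_sq_le_sq ?_ (mul_nonneg (by linarith) (add_nonneg
      (mul_nonneg (hp y) (mul_self_nonneg _)) (mul_nonneg (hq y) (mul_self_nonneg _))))
    linarith [mul_le_mul_of_nonneg_left (h i j y) (sq_nonneg (a i y * b j y)),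
      sq_nonneg (e * (p y * (a i y * a i y) - q y * (b j y * b j y)))]
  rw [Real.norm_eq_abs, bf, bf, ← Finset.sum_sub_distrib]
  refine (Finset.abs_sum_le_sum_abs _ _).trans ((Finset.sum_le_sum fun i _ => ?_).trans_eq
    (b := ∑ i, ∑ j, e / 2 * (p y * (a i y * a i y) + q y * (b j y * b j y))) ?_)
  · rw [← Finset.sum_sub_distrib]
    exact (Finset.abs_sum_le_sum_abs _ _).trans (Finset.sum_le_sum fun j _ => k i j)
  · simp only [dot, Fin.sum_univ_three]
    ring

theorem LocNear_dd {η : ℝ} {U B : Vc} (h : Near η U B) (y : R3) :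
    dot (U - B) (U - B) y ≤ 3 * η ^ 2 := by
  have k := fun i => LocNear_d h [] (by simp) i y
  simp only [pds, List.foldr_nil, List.length_nil, pow_zero, mul_one] at k
  simp only [dot, Fin.sum_univ_three, Pi.sub_apply]
  linarith [k 0, k 1, k 2]

theorem near_a : ∃ C ≥ 0, ∀ (ν η : ℝ) (U B u : Vc), Near η U B → Adm u →
    |aForm ν B u - aForm ν U u| ≤ C * η * nw Om (curl u) := by
  refine ⟨123, by norm_num, fun ν η U B u h hu => ?_⟩
  have hv := hinf_curl hu.hinf
  have i1 := int_nw Om_smooth.continuous LocNear_Om hv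
  have i2 := int_nw (Op_cont 2) LocNear_Op hu.hinf
  have h0 := h.nn
  have a1 := LocNear_bf (e := 2 * η) (by linarith) (LocNear_AA h.sB) (LocNear_AA h.sU) hv hv
    (fun y => (Om_pos y).le) (fun y => (Om_pos y).le) i1 i1 fun i j y => by
      have b1 := LocNear_d h [i] (by simp) j y
      have b2 := LocNear_d h [j] (by simp) i y
      have b3 := (dot_sq pos (U - B) y).trans (mul_le_mul_of_nonneg_left (LocNear_dd h y)
        (Finset.sum_nonneg fun _ _ => mul_self_nonneg _))
      have b4 : dot pos pos y = ‖y‖ ^ 2 := by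
        rw [norm_sq_eq]
        simp only [dot, pos, sq]
      have b5 : dot pos B y = dot pos U y - dot pos (U - B) y := by
        simp only [dot, Fin.sum_univ_three, Pi.sub_apply]
        ring
      have b6 : Om y ^ 2 * ‖y‖ ^ 2 ≤ 1 := by
        rw [sq (Om y), mul_assoc, Om_norm]
        linarith [sq_nonneg (1 - Om y)]
      have b7 := mul_le_mul_of_nonneg_left (Om_le y) (sq_nonneg η)
      have b8 : (Om y * dot pos (U - B) y) ^ 2 ≤ 3 * η ^ 2 := by
        rw [b4] at b3
        linarith [mul_le_mul_of_nonneg_left b3 (sq_nonneg (Om y)),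
          mul_le_mul_of_nonneg_left b6 (sq_nonneg η)]
      simp only [pds, List.foldr_cons, List.foldr_nil, List.length_singleton, pow_one] at b1 b2
      unfold AA
      rw [← mul_sub, mul_pow, mul_comm, ← sq, b5]
      refine mul_le_mul_of_nonneg_right ?_ (sq_nonneg _)
      generalize pd i (U j) y = x1 at *
      generalize pd i (B j) y = x2 at *
      generalize pd j (U i) y = z1 at *
      generalize pd j (B i) y = z2 at *
      split_ifs
      · linarith [sq_nonneg (Om y * dot pos (U - B) y + (x1 - x2)), sq_nonneg (x1 - x2 - (z1 - z2)),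
          sq_nonneg (Om y * dot pos (U - B) y + (z1 - z2)), sq_nonneg η]
      · linarith [sq_nonneg (x1 - x2 - (z1 - z2)), sq_nonneg η]
  have a2 := LocNear_bf (e := 6 * η) (by linarith) (LocNear_BB h.sB) (LocNear_BB h.sU) hv hu.hinf
    (fun y => (Om_pos y).le) (fun y => (Op_pos 2 y).le) i1 i2 fun i j y => by
      have b1 := LocNear_c h [i] (by simp) j y
      have b2 := LocNear_c h [j] (by simp) i y
      have b3 := LocNear_c h [] (by simp) j y
      have b4 : Om y * y i ^ 2 ≤ 2 := by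
        have := Finset.single_le_sum (f := fun j => y j ^ 2) (fun _ _ => sq_nonneg _)
          (Finset.mem_univ i)
        rw [← norm_sq_eq] at this
        linarith [mul_le_mul_of_nonneg_left this (Om_pos y).le, Om_norm y, Om_pos y]
      simp only [pds, List.foldr_cons, List.foldr_nil, List.length_singleton, List.length_nil,
        zero_add, pow_one] at b1 b2 b3
      unfold BB
      rw [Op_two]
      have b5 := Om_pos y
      have b6 := Om_le y
      generalize pd i (curl U j) y = x1 at *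
      generalize pd i (curl B j) y = x2 at *
      generalize pd j (curl U i) y = z1 at *
      generalize pd j (curl B i) y = z2 at *
      generalize curl U j y = w1 at *
      generalize curl B j y = w2 at *
      generalize Om y = o at *
      have c1 : (o * y i * (w1 - w2)) ^ 2 ≤ 4 * η ^ 2 * o ^ 2 := by
        linarith [mul_le_mul_of_nonneg_left b3 (sq_nonneg (o * y i)),
          mul_le_mul_of_nonneg_left b4 (sq_nonneg (η * o))]
      have c2 : (x1 - x2 + (z1 - z2) - o * y i * (w1 - w2)) ^ 2 ≤ 18 * η ^ 2 * o ^ 2 := by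
        linarith [sq_nonneg (x1 - x2 - (z1 - z2)), sq_nonneg (x1 - x2 + o * y i * (w1 - w2)),
          sq_nonneg (z1 - z2 + o * y i * (w1 - w2))]
      linarith [mul_le_mul_of_nonneg_left c2 (sq_nonneg o),
        mul_le_mul_of_nonneg_left b6 (show 0 ≤ η ^ 2 * o ^ 3 by positivity)]
  have a3 := mul_le_mul_of_nonneg_left (global_hardy' hu).1 h0
  unfold aForm
  rw [abs_le] at a1 a2 ⊢
  constructor <;> linarith [a1.1, a1.2, a2.1, a2.2]

theorem LocNear_ip {a b b' : Vc} {w q : Sc} {K : ℝ} (hK : 0 ≤ K) (ha : ∀ i, Hinf (a i))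
    (hb : ∀ i, Hinf (b i)) (hb' : ∀ i, Hinf (b' i)) (hw : ∀ y, 0 ≤ w y) (hq : ∀ y, 0 ≤ q y)
    (iw : Integrable fun y => w y * dot a a y) (iq : Integrable q)
    (h : ∀ y, (dot a b y - dot a b' y) ^ 2 ≤ w y * dot a a y * (K * q y)) :
    (ip a b - ip a b') ^ 2 ≤ nw w a * (K * ∫ y, q y) := by
  have i : ∀ b : Vc, (∀ i, Hinf (b i)) → Integrable (dot a b) := fun b hb =>
    integrable_finsetSum _ fun i _ => int_mul (ha i) (hb i)
  rw [ip, ip, ← integral_sub (i b hb) (i b' hb'), ← integral_const_mul]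
  exact cs_int_sq iw (iq.const_mul K) (fun y => mul_nonneg (hw y)
    (Finset.sum_nonneg fun _ _ => mul_self_nonneg _)) (fun y => mul_nonneg hK (hq y)) h

theorem LocNear_kp {U θ : Vc} (hU : ∀ i, Sym 0 (U i)) (hθ : ∀ i, Sym (-3) (θ i)) (i : Fin 3) :
    Hinf (kp U θ i) := by
  have h := ResLoc_sub (ResLoc_sub (ResLoc_cmul (hθ i) (-1)) (ResLoc_cmul (sym_yd (hθ i)) (2 / 3)))
    (ResLoc_mono (ResLoc_cross (ResLoc_curl hθ) hU i) (by norm_num))
  simp only [neg_one_mul] at h
  exact h.hinf (by norm_num)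

theorem LocNear_kq {U θ : Vc} (hU : ∀ i, Sym 0 (U i)) (hθ : ∀ i, Sym (-3) (θ i)) (i : Fin 3) :
    Hinf (kq U θ i) := by
  have h := ResLoc_cmul (ResLoc_cross (ResLoc_curl hU) (ResLoc_curl hθ) i) (-1)
  simp only [neg_one_mul] at h
  exact h.hinf (by norm_num)

theorem near_k : ∃ C ≥ 0, ∀ (ν η c : ℝ) (U B u : Vc) (ι : Type) [Fintype ι] (θ : ι → Vc),
    Near η U B → Adm u → (∀ a i, Sym (-3) (θ a i)) →
    (∀ y, ∑ a, dot (curl (θ a)) (curl (θ a)) y ≤ c ^ 2 * Om y ^ 3) →
    ∑ a, (kForm ν U (θ a) u - kForm ν B (θ a) u) ^ 2 ≤ (C * η * c) ^ 2 * nw Om (curl u) := by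
  have hI : 0 ≤ ∫ y, Om y ^ 2 := integral_nonneg fun y => sq_nonneg _
  refine ⟨150 * (∫ y, Om y ^ 2) + 1, by linarith, fun ν η c U B u ι _ θ h hu hθ hc => ?_⟩
  have hv := hinf_curl hu.hinf
  have n0 : ∀ (V : Vc) y, 0 ≤ dot V V y := fun V y => Finset.sum_nonneg fun _ _ => mul_self_nonneg _
  have q0 : ∀ a y, 0 ≤ dot (curl (θ a)) (curl (θ a)) y / Om y := fun a y =>
    div_nonneg (n0 _ y) (Om_pos y).le
  have q1 : ∀ y, ∑ a, dot (curl (θ a)) (curl (θ a)) y / Om y ≤ c ^ 2 * Om y ^ 2 := fun y => by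
    rw [← Finset.sum_div, div_le_iff₀ (Om_pos y)]
    exact (hc y).trans_eq (by ring)
  have q2 : ∀ a, Integrable fun y => dot (curl (θ a)) (curl (θ a)) y / Om y := fun a => by
    have s := fun i => (ResLoc_curl (hθ a) i).1.continuous
    refine (int_Om_sq.const_mul (c ^ 2)).mono' (Continuous.div (continuous_finsetSum _ fun i _ =>
      (s i).mul (s i)) Om_smooth.continuous fun y => (Om_pos y).ne').aestronglyMeasurable
      (Filter.Eventually.of_forall fun y => ?_)
    rw [Real.norm_of_nonneg (q0 a y)]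
    exact (Finset.single_le_sum (fun a _ => q0 a y) (Finset.mem_univ a)).trans (q1 y)
  have q3 : ∑ a, ∫ y, dot (curl (θ a)) (curl (θ a)) y / Om y ≤ c ^ 2 * ∫ y, Om y ^ 2 := by
    rw [← integral_finsetSum _ fun a _ => q2 a, ← integral_const_mul]
    exact integral_mono (integrable_finsetSum _ fun a _ => q2 a) (int_Om_sq.const_mul _) q1
  have hN := nw_nonneg (fun y => (Om_pos y).le) (curl u)
  have k : ∀ a, (kForm ν U (θ a) u - kForm ν B (θ a) u) ^ 2 ≤ 150 * η ^ 2 * nw Om (curl u) *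
      ∫ y, dot (curl (θ a)) (curl (θ a)) y / Om y := fun a => by
    have a1 := LocNear_ip (K := 3 * η ^ 2) (by positivity) hv (LocNear_kp h.sU (hθ a))
      (LocNear_kp h.sB (hθ a)) (fun y => (Om_pos y).le) (q0 a)
      (int_nw Om_smooth.continuous LocNear_Om hv) (q2 a) fun y => by
        have b1 : dot (curl u) (kp U (θ a)) y - dot (curl u) (kp B (θ a)) y =
            -dot (curl u) (cross (curl (θ a)) (U - B)) y := by
          simp only [dot, kp, cross, Fin.sum_univ_three, Pi.sub_apply]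
          ring
        rw [b1, neg_sq]
        refine (dot_sq _ _ y).trans ((mul_le_mul_of_nonneg_left ((dot_cross_le _ _ y).trans
          (mul_le_mul_of_nonneg_left (LocNear_dd h y) (n0 _ y))) (n0 _ y)).trans_eq ?_)
        have := (Om_pos y).ne'
        field_simp
    have a2 := LocNear_ip (K := 6 * η ^ 2) (by positivity) hu.hinf (LocNear_kq h.sU (hθ a))
      (LocNear_kq h.sB (hθ a)) (fun y => (Op_pos 2 y).le) (q0 a)
      (int_nw (Op_cont 2) LocNear_Op hu.hinf) (q2 a) fun y => by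
        have b1 : dot u (kq U (θ a)) y - dot u (kq B (θ a)) y =
            -dot u (cross (curl U - curl B) (curl (θ a))) y := by
          simp only [dot, kq, cross, Fin.sum_univ_three, Pi.sub_apply]
          ring
        have b2 : dot (curl U - curl B) (curl U - curl B) y ≤ 6 * η ^ 2 * Om y := by
          have k := fun i => LocNear_c h [] (by simp) i y
          simp only [pds, List.foldr_nil, List.length_nil, zero_add, pow_one] at k
          simp only [dot, Fin.sum_univ_three, Pi.sub_apply]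
          linarith [k 0, k 1, k 2]
        rw [b1, neg_sq, Op_two]
        refine (dot_sq _ _ y).trans ((mul_le_mul_of_nonneg_left ((dot_cross_le _ _ y).trans
          (mul_le_mul_of_nonneg_right b2 (n0 _ y))) (n0 _ y)).trans_eq ?_)
        have := (Om_pos y).ne'
        field_simp
    have a3 := mul_le_mul_of_nonneg_right (global_hardy' hu).1
      (mul_nonneg (sq_nonneg η) (integral_nonneg (μ := volume) (q0 a)))
    unfold kForm
    linarith [sq_nonneg (ip (curl u) (kp U (θ a)) - ip (curl u) (kp B (θ a)) -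
      (ip u (kq U (θ a)) - ip u (kq B (θ a))))]
  refine (Finset.sum_le_sum fun a _ => k a).trans ?_
  rw [← Finset.mul_sum]
  refine (mul_le_mul_of_nonneg_left q3 (by positivity)).trans ?_
  generalize ∫ y, Om y ^ 2 = I at *
  have : 0 ≤ (η * c) ^ 2 * nw Om (curl u) * ((150 * I) ^ 2 + 150 * I + 1) := by positivity
  linarith

theorem LocNear_fro {ι : Type} [Fintype ι] {x z : ι → ℝ} {s t e : ℝ} (hs : 0 ≤ s) (ht : 0 ≤ t)
    (hx : ∑ i, x i ^ 2 ≤ s ^ 2) (hz : ∀ i, (x i - z i) ^ 2 ≤ e) (he : Fintype.card ι * e ≤ t ^ 2) :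
    ∑ i, z i ^ 2 ≤ (s + t) ^ 2 := by
  have h := fro_add (z := fun i => z i - x i) hs ht hx (le_trans ?_ he)
  · simpa using h
  · refine (Finset.sum_le_card_nsmul _ _ e fun i _ => ?_).trans_eq (by simp)
    linarith [hz i]

theorem near_g {η b0 b1 b2 : ℝ} {U B : Vc} (h : Near η U B) (hb0 : 0 ≤ b0) (hb1 : 0 ≤ b1)
    (hb2 : 0 ≤ b2) (h0 : ∀ y, g1 U y ≤ b0 ^ 2 * Op (3 / 2) y) (h1 : ∀ y, g2 U y ≤ b1 ^ 2 * Om y)
    (h2 : ∀ y, g2 (curl U) y ≤ b2 ^ 2 * Om y ^ 2) (y : R3) :
    g1 B y ≤ (b0 * Op (3 / 4) y + 3 * η) ^ 2 ∧ g2 B y ≤ (b1 + 6 * η) ^ 2 * Om y ∧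
      g2 (curl B) y ≤ (b2 + 12 * η) ^ 2 * Om y ^ 2 := by
  have o1 := Om_pos y
  have o2 := Om_le y
  have h3 := h.nn
  have e2 : ∀ V : Vc, g2 V y =
      ∑ p : Fin 3 × Fin 3 × Fin 3, pds [p.2.2, p.2.1] (V p.1) y ^ 2 := fun V => by
    simp only [Fintype.sum_prod_type]
    rfl
  refine ⟨?_, ?_, ?_⟩
  · have e1 : ∀ V : Vc, g1 V y = ∑ p : Fin 3 × Fin 3, pds [p.2] (V p.1) y ^ 2 := fun V => by
      simp only [Fintype.sum_prod_type]
      rfl
    rw [e1]
    refine LocNear_fro (e := η ^ 2 * (Om y / 2) ^ 1) (mul_nonneg hb0 (Op_pos _ y).le) (by linarith) (by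
      rw [← e1 U, mul_pow, Op_sq]
      exact h0 y) (fun p => LocNear_d h [p.2] (by simp) p.1 y) ?_
    simp only [Fintype.card_prod, Fintype.card_fin]
    push_cast
    linarith [mul_le_mul_of_nonneg_left o2 (sq_nonneg η)]
  · have s := Real.sq_sqrt o1.le
    rw [e2, ← s, ← mul_pow, add_mul]
    refine LocNear_fro (e := η ^ 2 * (Om y / 2) ^ 2) (by positivity) (by positivity) (by
      rw [← e2 U, mul_pow, s]
      exact h1 y) (fun p => LocNear_d h [p.2.2, p.2.1] (by simp) p.1 y) ?_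
    rw [mul_pow, s]
    simp only [Fintype.card_prod, Fintype.card_fin]
    push_cast
    linarith [mul_le_mul_of_nonneg_left o2 (mul_nonneg (sq_nonneg η) o1.le),
      mul_nonneg (sq_nonneg η) o1.le]
  · rw [e2, ← mul_pow, add_mul]
    refine LocNear_fro (e := 4 * (η ^ 2 * (Om y / 2) ^ 3)) (by positivity) (by positivity) (by
      rw [← e2 (curl U), mul_pow]
      exact h2 y) (fun p => LocNear_c h [p.2.2, p.2.1] (by simp) p.1 y) ?_
    simp only [Fintype.card_prod, Fintype.card_fin]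
    push_cast
    linarith [mul_le_mul_of_nonneg_left o2 (sq_nonneg (η * Om y)), sq_nonneg (η * Om y)]

end Pool.Agent.Work.MP_6bf1e5_an.H.Dyn
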