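import Pool.Agent.Work.MP_6bf1e5_an.H.Defs

/-! The numerical conditions of the master inequality. -/

namespace Pool.Agent.Work.MP_6bf1e5_an.H

/-- The free parameters of the Young inequalities. -/
structure Yng where
  r : ℝ
  g1 : ℝ
  g2 : ℝ
  g3 : ℝ
  s : ℝ
  s' : ℝ
  t : ℝ
  e : ℝ
  k : ℝ
  cg : ℝ

/-- The numerical conditions for given parameters. -/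
structure NumY (κ ν : ℝ) (K : Cst) (c m β rr : ℝ) (Y : Yng) : Prop where
  pos : 0 < Y.r ∧ 0 < Y.g1 ∧ 0 < Y.g2 ∧ 0 < Y.g3 ∧ 0 < Y.s ∧ 0 < Y.s' ∧ 0 < Y.t ∧ 0 < Y.e ∧
    0 < Y.k ∧ 0 ≤ Y.cg
  nn : 0 < ν ∧ 0 < K.μ' ∧ 0 ≤ K.b0 ∧ 0 ≤ K.b1 ∧ 0 ≤ K.b2 ∧ 0 ≤ K.Cth ∧ 0 < K.cl ∧ 0 < K.cz ∧
    0 ≤ K.ch ∧ 0 ≤ K.e1 ∧ 0 ≤ K.e2 ∧ 0 ≤ c ∧ c ≤ 2
  hr : rr ≤ Y.r ^ 2
  hg : K.cb ^ 2 ≤ Y.cg ^ 2 * K.cl ∧ c ^ 2 ≤ Y.cg ^ 2 * K.cz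
  n1 : m + c ^ 2 / (2 * K.μ') / K.cz + Y.g1 + (7 * K.Cth * Y.cg * Y.r + 2 * Y.r * Y.s
    + κ * (16 * K.b1 + 7 / 2 * K.b2) ^ 2 / Y.g3
    + κ * (3 * K.b0 / Y.t) * (3 / 4 + 1 / (2 * Y.e ^ 4))) / K.cl < 2 * K.μ
  n2 : m + K.b0 * Y.t ^ 3 + Y.g2 + Y.g3
    + (Y.k ^ 2 + 2 / (ν * Y.k)) / 19 * (2 * Y.r / (Y.s * κ * K.cl) + 3 * Y.s')
    + 3 * Y.r ^ 2 / (κ * Y.s') < 4 / 3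
  n3 : 12 * K.b0 * Y.e ^ 3 / Y.t
    + ν * ((Y.k ^ 2 + 2 / (ν * Y.k)) / 19 * (2 * Y.r / (Y.s * κ * K.cl) + 3 * Y.s')) ≤ 2 * ν
  n4 : ((1 + 2 / K.cz) * K.ch * K.e1) ^ 2 / Y.g1 + κ * K.e2 ^ 2 / Y.g2 < β

/-- The numerical conditions. -/
def Num (κ ν : ℝ) (K : Cst) (c m β rr : ℝ) : Prop := ∃ Y, NumY κ ν K c m β rr Y

end Pool.Agent.Work.MP_6bf1e5_an.H
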