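import Pool.Agent.Lib.KTab.Defs

/-! Loading of literal tables, and products of tables of cosine or sine type (owner helper52). -/

namespace Pool.Agent.Work.MP_6bf1e5_an.H.Lt

open Pool.Agent.Lib.KLA Pool.Agent.Lib.KTab

noncomputable section

/-- A row: `p = (c, z)`, `c + 1 ≤ 2 ^ L` digits of `b + 1` bits at the scale `2 ^ s`. -/
def ld1 (W S L b s : Nat) (p : Nat × Nat) (k : Tab → Bool) : Bool :=
  usep p fun c z => cheb W b L c s z fun T => meas W S T k

/-- The list of rows of a table. -/
def ldR (W S L b s : Nat) (l : List (Nat × Nat)) (k : List Tab → Bool) : Bool :=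
  mapK (fun _ => ld1 W S L b s) l 0 k

/-- A table of at most `2 ^ L'` rows of half width at most `n`. -/
def ld2 (e : Bool) (W S L L' n b s : Nat) (l : List (Nat × Nat)) (k : Tab → Bool) : Bool :=
  ldR W S L b s l fun r => flat e W S S L' n (Nat.add s 1) 0 r k

/-- The same, with all rows multiplied by `G`, cut to the half width `n` and rounded to the scale
`2 ^ s'`. -/
def ld2m (e : Bool) (W S L L' n b s s' : Nat) (G : Tab) (l : List (Nat × Nat)) (k : Tab → Bool) :
    Bool :=
  ldR W S L b s l fun r => mapK (fun _ => mul G) r 0 fun r =>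
    mapK (fun _ => trim W S n s') r 0 fun r => flat e W S S L' n s' 0 r k

/-- The product of tables of the types `e`, `e'`. -/
def mulT (e e' : Bool) (A B : Tab) (k : Tab → Bool) : Bool :=
  mul A B fun P => cnd (bnd e e') (neg P k) (k P)

/-- The size is at most `p / q`. -/
def finS (p q : Nat) (A : Tab) : Bool :=
  A.use fun _ _ _ _ _ s M e =>
    bnd (Nat.ble 1 q) (Nat.ble (Nat.mul (Nat.add M e) q) (Nat.shiftLeft p s))

/-- The variable `t`. -/
def tT (W : Nat) (k : Tab → Bool) : Bool := mul (cx W) (cx W) k

/-- The function `1 - t ^ 4`. -/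
def k2T (W S : Nat) (k : Tab → Bool) : Bool :=
  tT W fun t => mul t t fun t2 => mul t2 t2 fun t4 => sub W S (cst false 1 0) t4 k

/-- The radial Euler operator on a row, for the power `p` of `t`. -/
def dk (W S L p : Nat) (A : Tab) (k : Tab → Bool) : Bool :=
  k2T W S fun K => mul (cst false p 0) A fun P => mul K P fun P =>
    dx W S L A fun D => mul (cx W) D fun D => tT W fun t => add W S (cst false 1 0) t fun u =>
    mul t t fun t2 => add W S (cst false 1 0) t2 fun v => mul u v fun u => mul u D fun D =>
    half 1 D fun D => add W S P D fun P => half 1 P fun P => neg P k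

end

end Pool.Agent.Work.MP_6bf1e5_an.H.Lt
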