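import Pool.Agent.Work.MP_6bf1e5_an.H.MoAD
import Pool.Agent.Work.MP_6bf1e5_an.H.LtS
import Pool.Agent.Lib.Dy.Gam

/-! The meaning of the row of the weight of the volume (owner helper2). -/

open scoped Real

namespace Pool.Agent.Work.MP_6bf1e5_an.H.Mw

open Pool.Agent.Lib.KLA Pool.Agent.Lib.KTab Lt

theorem ahP_rt (W S : ℕ) : RT false W S ahP fun _ _ => π := by
  refine (rep_const true W S false _ 128 2 (c := π) ?_).congr fun _ _ => by simp [io]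
  obtain ⟨h1, h2⟩ := Lib.Dy.enc_pi
  have h3 := shr_real Lib.Dy.cPI 2944
  have h4 : (Nat.shiftRight Lib.Dy.cPI 2944 : ℝ) ≤ Lib.Dy.cPI / 2 ^ 2944 := by
    rw [shr_eq]
    exact_mod_cast Nat.cast_div_le (α := ℝ)
  rw [if_neg (by decide)] at h3
  rw [show 3072 = 2944 + 128 from rfl, pow_add, mul_assoc] at h1 h2
  have p : (4 : ℝ) ≤ 2 ^ 2944 := by
    calc (4 : ℝ) = 2 ^ 2 := by norm_num
      _ ≤ _ := pow_le_pow_right₀ (by norm_num) (by decide)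
  simp only [sv, Bool.false_eq_true, if_false, Int.cast_natCast]
  generalize (Nat.shiftRight Lib.Dy.cPI 2944 : ℝ) = a at *
  generalize (Lib.Dy.cPI : ℝ) = A at *
  generalize (2 : ℝ) ^ 2944 = q at *
  generalize (2 : ℝ) ^ 128 * π = y at *
  have q0 : 0 < q := by linarith
  rw [le_div_iff₀ q0] at h4
  rw [div_le_iff₀ q0] at h3
  push_cast at h2 ⊢
  rw [abs_le]
  constructor <;> nlinarith

theorem ahC_true : ahC = true := by decide +kernel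

theorem ah_near {t : ℝ} (ht : t ∈ Set.Icc (0 : ℝ) 1) :
    |16 * π * √((1 + t) * (1 + t ^ 2)) - (chP 119 112 ahZ).eval t| ≤ 1 / 2 ^ 104 := by
  obtain ⟨Q, hQ, h⟩ := ld1_rt 320 200 6 119 112 ahZ _ ahC_true
  obtain ⟨U, hU, h⟩ := sub_rt hQ (nat_rt 320 200 72) _ h
  obtain ⟨U, hU, h⟩ := meas_rt hU _ h
  obtain ⟨h1, h⟩ := (bnd_iff _ _).1 h
  obtain ⟨Q2, hQ2, h⟩ := mul_rt hQ hQ _ h
  obtain ⟨T, hT, h⟩ := tT_rt 320 200 _ h
  obtain ⟨u, hu, h⟩ := add_rt (one_rt 320 200) hT _ h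
  obtain ⟨v, hv, h⟩ := mul_rt hT hT _ h
  obtain ⟨v, hv, h⟩ := add_rt (one_rt 320 200) hv _ h
  obtain ⟨u, hu, h⟩ := mul_rt hu hv _ h
  obtain ⟨P, hP, h⟩ := mul_rt (ahP_rt 320 200) (ahP_rt 320 200) _ h
  obtain ⟨P, hP, h⟩ := mul_rt (nat_rt 320 200 256) hP _ h
  obtain ⟨u, hu, h⟩ := mul_rt hP hu _ h
  obtain ⟨u, hu, h⟩ := sub_rt hQ2 hu _ h
  obtain ⟨u, hu, h⟩ := meas_rt hu _ h
  have a := abs_le.1 (finS_rt h1 hU ht 0)
  have b := finS_rt h hu ht 0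
  rw [shl_eq, one_mul] at b
  generalize (chP 119 112 ahZ).eval t = q at *
  have s0 : 0 ≤ 16 * π * √((1 + t) * (1 + t ^ 2)) := by positivity
  have s1 : (16 * π * √((1 + t) * (1 + t ^ 2))) ^ 2 = 256 * (π * π) * ((1 + t) * (1 + t * t)) := by
    rw [mul_pow, Real.sq_sqrt (by have := ht.1; positivity)]
    ring
  push_cast at a b
  rw [← s1] at b
  generalize 16 * π * √((1 + t) * (1 + t ^ 2)) = y at *
  rw [show q * q - y ^ 2 = (q - y) * (q + y) by ring, abs_mul, abs_sub_comm,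
    abs_of_nonneg (a := q + y) (by linarith [a.1])] at b
  nlinarith [abs_nonneg (y - q), a.1]

theorem ahK_rep (W S s : ℕ) : Ok (ahK W S s) fun T => Rep false W S T fun ω _ =>
    ((16 * π * (1 - Real.cos ω ^ 2) * √((1 + Real.cos ω ^ 2) * (1 + (Real.cos ω ^ 2) ^ 2)) : ℝ) : ℂ) :=
  (ld1_rt W S 6 119 112 ahZ).bind fun _ hQ => (wide_ok 1 _ hQ.row (Ψ := fun ω _ =>
    ((16 * π * √((1 + Real.cos ω ^ 2) * (1 + (Real.cos ω ^ 2) ^ 2)) : ℝ) : ℂ)) fun ω _ => by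
      rw [← Complex.ofReal_sub, Complex.norm_real, shl_eq, one_mul]
      exact_mod_cast ah_near ⟨sq_nonneg _, Real.cos_sq_le_one ω⟩).bind fun _ hQ =>
    (tT_rt W S).bind fun _ ht => (sub_rt (one_rt W S) ht).bind fun _ hu =>
    (mul_ok hu.row.weak hQ).bind fun _ h => (trim_ok 98 s h).bind fun _ h =>
    meas_ok (h.congr fun _ _ => by push_cast; ring)

end Pool.Agent.Work.MP_6bf1e5_an.H.Mw
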