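import Pool.Agent.Work.MP_6bf1e5_an.H.LtD
import Pool.Agent.Lib.Dy.Lit

/-! The row of the weight of the volume in the variable `t` (owner helper2). -/

namespace Pool.Agent.Work.MP_6bf1e5_an.H.Mw

open Pool.Agent.Lib.KLA Pool.Agent.Lib.KTab Lt

noncomputable section

/-- Coefficients of a polynomial near `16 π √((1 + t) (1 + t ^ 2))`. -/
def ahZ : Nat × Nat := (48, Nat.add (nat_lit 0x7ff780000000000000000000432ce13c977ffffffffffffffffffe9563d72b137fffffffffffffffffff8d4d6f67de800000000000000000230c3d4283607fffffffffffffffff7d4ee7f3de697ffffffffffffffffed2cd2f573acf800000000000000010e5bae4b21e227fffffffffffffffd75eadc36ad2157fffffffffffffff11403c1ecdfeb580000000000000079cca108c7bb8c27ffffffffffffff77b0295cd1ae2037fffffffffffff69423f63464d576780000000000003411f14973a5f7ad880000000000000f962054d9d799e427fffffffffffab8ff2fd17d8a462b78000000000014555965082c72663338000000000031526367aba4ff847dd7fffffffffd1f6a24681d2437c3d0280000000007787004aa83d2ddadb198000000002a23f601d5b195ca40cfe7fffffffe8a5053bb9f71381194b8a800000001b72d5905cc5d4b421d4398000000226855ef725988619f6c4877ffffff28f1773dee85e7fafbf497180000003484da675e0a6ad93f316b88000016da672d0ab8886ecaf3caeef7ffff96b93cdc6056b0a6e44e11bb37fffe9c9a7ef67600e8327de73182c8001b28f776216d208896b8855bf747ff6fe89d0a873e16619c47f5b64897ffb0f8ceb31022f2ca3c40159c5be8348f79dabe8f4f57437228db0e80799253fc6f5d9e3a90850980e22315cc82610ab5493e2c001bbc4245351cd)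 (Nat.shiftLeft (nat_lit 0x7ffffffffffffffffffffffffffff57fffffffffffffffffffffffffffc28000000000000000000000000001f97ffffffffffffffffffffffffffdbf7fffffffffffffffffffffffffdc0c80000000000000000000000000c1c78000000000000000000000000034ae7fffffffffffffffffffffffeddfb080000000000000000000000043444280000000000000000000000094ad117ffffffffffffffffffffff7a51461800000000000000000000013e816aa80000000000000000000007191cd337ffffffffffffffffffffc6d983d888000000000000000000003fc80) (nat_lit 4096)))

/-- The number `π`. -/
def ahP : Tab := ⟨false, Nat.shiftRight Lib.Dy.cPI 2944, 0, 0, 0, 128, Nat.shiftRight Lib.Dy.cPI 2944, 2⟩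

/-- The check of the polynomial. -/
def ahC : Bool :=
  ld1 320 200 6 119 112 ahZ fun Q => sub 320 200 Q (cst false 72 0) fun U => meas 320 200 U fun U =>
    bnd (finS 30 1 U) (mul Q Q fun Q => tT 320 fun t => add 320 200 (cst false 1 0) t fun u =>
      mul t t fun v => add 320 200 (cst false 1 0) v fun v => mul u v fun u => mul ahP ahP fun P =>
      mul (cst false 256 0) P fun P => mul P u fun u => sub 320 200 Q u fun u =>
      meas 320 200 u (finS 42 (Nat.shiftLeft 1 104)))

/-- The row of `16 π (1 - t) √((1 + t) (1 + t ^ 2))` at the scale `2 ^ s`. -/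
def ahK (W S s : Nat) (k : Tab → Bool) : Bool :=
  ld1 W S 6 119 112 ahZ fun Q => wide 1 (Nat.shiftLeft 1 104) Q fun Q => tT W fun t =>
    sub W S (cst false 1 0) t fun u => mul u Q fun P => trim W S 98 s P fun P => meas W S P k

end

end Pool.Agent.Work.MP_6bf1e5_an.H.Mw
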