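import Pool.Agent.Work.MP_6bf1e5_an.H.FldD
import Pool.Agent.Work.MP_6bf1e5_an.H.MoAD
import Pool.Agent.Lib.KMom.Defs
import Pool.Agent.Lib.KTab.Defs2

/-! The check of the moment tables (owner helper64). -/

namespace Pool.Agent.Work.MP_6bf1e5_an.H.Mw

open Pool.Agent.Lib.KLA Pool.Agent.Lib.KTab Pool.Agent.Lib.KBlk Pool.Agent.Lib.KMom Lt Fs

noncomputable section

/-- The table number `i`. -/
def tbl {α : Type} (A : Env) (i : Nat) (k : Bool → Nat → Nat → List (Nat × Nat) → α) : α :=
  Tb.casesOn (motive := fun _ => α) (A.tl.getD i ⟨false, 0, 0, []⟩) k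

/-- Its type. -/
def ty (A : Env) (i : Nat) : Bool := tbl A i fun e _ _ _ => e

/-- Its half width. -/
def wid (A : Env) (i : Nat) : Nat := tbl A i fun _ _ _ l =>
  List.rec (motive := fun _ => Nat) 0 (fun p _ ih => usep p fun c _ => mx (Nat.mul 2 c) ih) l

def one : Tab := cst false 1 0

/-- Powers. -/
def pwT (B : Tab) (n : Nat) : (Tab → Bool) → Bool :=
  Nat.rec (motive := fun _ => (Tab → Bool) → Bool) (fun k => k one)
    (fun _ ih k => ih fun T => mul B T k) n

/-- The radial row number `w`. -/
def rowW (W S : Nat) (A : Env) (w : Nat) (k : Tab → Bool) : Bool :=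
  cnd (Nat.beq w 0) (k one) (ld1 W S 7 A.b A.s (cnd (Nat.beq w 1) A.o1 A.o2) k)

/-- The radial factor of a group, divided by `t ^ 7`. -/
def rowG (W S : Nat) (A : Env) (G : Grp) (k : Tab → Bool) : Bool :=
  bnd (Nat.ble 7 G.tp) (rowW W S A G.w fun R => tT W fun t => pwT t (Nat.sub G.tp 7) fun T =>
    mul R T fun R => k2T W S fun K => pwT K G.kq fun K => mul R K fun R => meas W S R k)

/-- The product of at most two tables. -/
def prT (f g : Nat → (Tab → Bool) → Bool) (U : Tab) (A : Env) (e : Bool) (l : List Nat)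
    (k : Tab → Bool) : Bool :=
  List.casesOn (motive := fun _ => Bool) l (cnd e false (k U)) fun i l =>
    List.casesOn (motive := fun _ => Bool) l (cnd (bx e (ty A i)) false (f i k)) fun j l =>
      List.casesOn (motive := fun _ => Bool) l (cnd (bx e (bx (ty A i) (ty A j))) false
        (f i fun X => g j fun Y => mulT (ty A i) (ty A j) X Y k)) fun _ _ => false

/-- The factor of a product. -/
def fac (W S : Nat) (x : Pr) (P : Tab) (k : Tab → Bool) : Bool :=
  (fun k' : Tab → Bool => cnd (Nat.beq (Nat.add (Nat.mul 2 x.kx) x.c) 1) (k' P)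
    (k2T W S fun K => pwT K x.kx fun K => mul (cst false x.c 0) K fun K => mul K P k'))
  fun P => half x.s P fun P => cnd x.g (neg P k) (k P)

/-- The sum over a list. -/
def sumT {α : Type} (W S : Nat) (f : α → (Tab → Bool) → Bool) (l : List α) (k : Tab → Bool) :
    Bool :=
  foldK (fun _ x T k => f x fun P => add W S T P k) l 0 (cst false 0 0) k

/-- The rows of a table. -/
def ldQ (W b s : Nat) (l : List (Nat × Nat)) (k : List Tab → Bool) : Bool :=
  mapK (fun _ p k => usep p fun c z => cheb2 W b 9 c s z fun T => meas W 1999 T k) l 0 k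

/-- A table in full. -/
def ldT (W S : Nat) (A : Env) (i : Nat) (k : Tab → Bool) : Bool :=
  tbl A i fun e b s l => strict (wid A i) fun n => ldQ W b s l fun r =>
    flat e W 1999 S 7 n (Nat.add s 1) 0 r k

/-- The distance of the rows for a group. -/
def gS (A : Env) (l : List Pr) : Nat :=
  List.rec (motive := fun _ => Nat) 1 (fun x _ ih => mx ih
    (List.rec (motive := fun _ => Nat) (Nat.add (Nat.mul 8 x.kx) 1)
      (fun i _ ih => Nat.add (wid A i) ih) x.l)) l

/-- The moments of a group; `sT`, `sR` are the scales of the table and of the row. -/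
def mgrp (P : Lib.KMom.Par) (sT sR : Nat) (A : Env) (e ng : Bool) (G : Grp)
    (k : (Nat → Nat) → Bool) : Bool :=
  strict P.W fun W => strict (gS A G.l) fun S =>
    rowG W 999 A G fun R => ahK W 999 115 fun H => mul H R fun R => trim W 999 999 sR R fun R =>
    meas W 999 R fun R =>
    sumT W S (fun x k => prT (ldT W S A) (ldT W S A) one A e x.l fun T => fac W S x T k) G.l
      fun T => T.use fun _ _ n m _ _ _ _ => lift W S n m sT T fun T => Lib.KMom.grp P S ng T R k

/-- The moments of all groups. -/
def ments (P : Lib.KMom.Par) (sT sR : Nat) (A : Env) (e ng : Bool) (E : List Grp) :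
    (Nat → (Nat → Nat) → Bool) → Bool :=
  List.rec (motive := fun _ => (Nat → (Nat → Nat) → Bool) → Bool) (fun k => k 0 fun _ => 0)
    (fun G _ ih k => mgrp P sT sR A e ng G fun f => ih fun n g => k (Nat.add 1 n) (plus f g)) E

/-- The check of the table `M`, which is stored with `x` bits less. -/
def chk (P : Lib.KMom.Par) (x dm sT sR : Nat) (A : Env) (e ng : Bool) (E : List Grp) (M : Rows) :
    Bool :=
  ments P sT sR A e ng E fun n f => strict n fun n => fitx P x dm n f M

/-- A table times the row `G`, cut and rounded. -/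
def ldC (W S n s' : Nat) (G : Tab) (A : Env) (i : Nat) (k : Tab → Bool) : Bool :=
  tbl A i fun e b s l => ldQ W b s l fun r => mapK (fun _ => mul G) r 0 fun r =>
    tmL W 1999 n s' r fun r => flat e W 1999 S 7 n s' 0 r k

/-- A group at low precision. -/
def lgrp (W S n s1 s2 s3 : Nat) (A : Env) (e : Bool) (G : Grp) (k : Tab → Bool) : Bool :=
  rowG W 1999 A G fun R => tT W fun t => mul t t fun t => sub W 1999 one t fun t =>
    mul t R fun R => sumT W S (fun x k => fac W 1999 x R fun U => trim W 1999 n s1 U fun U =>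
      meas W 1999 U fun U => U.use fun _ _ _ m _ _ _ _ => bnd (Nat.beq m 0)
        (prT (ldC W S n s2 U A) (ldC W S n s3 one A) U A e x.l k)) G.l k

/-- The bound `I` for the size of an entry. -/
def sup (W n s1 s2 s3 I : Nat) (A : Env) (e : Bool) (E : List Grp) : Bool :=
  strict (Nat.add (Nat.mul 2 n) 1) fun S => sumT W S (lgrp W S n s1 s2 s3 A e) E fun T =>
    meas W S T (finS (Nat.mul 10 I) 503)

/-- The opposite of an entry. -/
def ngE (E : List Grp) : List Grp :=
  E.map fun G => ⟨G.w, G.tp, G.kq, G.l.map fun x => ⟨!x.g, x.c, x.s, x.kx, x.l⟩⟩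

end

end Pool.Agent.Work.MP_6bf1e5_an.H.Mw
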