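import Pool.Agent.Work.MP_6bf1e5_an.H.MoD
import Pool.Agent.Work.MP_6bf1e5_an.H.FldX
import Pool.Agent.Lib.KBlk.Vr

/-! The checks for one moment table (owner helper64). -/

namespace Pool.Agent.Work.MP_6bf1e5_an.H.Mw

open Pool.Agent.Lib.KLA Pool.Agent.Lib.KBlk Fs

/-- The moments of the entry `E` at the scale `2 ^ sc` are in `T`. -/
noncomputable def ck1 (W s0 C s1 s2 r F eg sT sR sc B : Nat) (e ng : Bool) (E : List Grp) (T : Vr) :
    Bool :=
  chk ⟨W, 80, 0, 415, 192, 26, Nat.pow 2 (Nat.sub B 1), s0, C, Nat.add (Nat.mul 2 C) 415, 12, s1, s2,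
    10, r, Nat.add sc 3, F, eg, Nat.pow 2 44, 3⟩ 3 3 sT sR env e ng E (vld 192 B 415 5 T)

/-- The size of the entry `E` is at most `I`. -/
noncomputable def ck2 (I : Nat) (e : Bool) (E : List Grp) : Bool := sup 96 200 30 26 20 I env e E

end Pool.Agent.Work.MP_6bf1e5_an.H.Mw
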