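import Pool.Agent.Lib.KMom.Defs
import Pool.Agent.Lib.KBlk.Vr

/-! Stored moment tables with a sign (owner helper64). -/

namespace Pool.Agent.Work.MP_6bf1e5_an.H.Mw

open Pool.Agent.Lib.KLA Pool.Agent.Lib.KTab Pool.Agent.Lib.KBlk Pool.Agent.Lib.KMom

/-- No table, a table or its opposite. -/
noncomputable def fam (B : Nat) (x : Nat × Vr) : Rows := usep x fun g m =>
  cnd (Nat.beq g 0) Rows.nil (cnd (Nat.beq g 1) (vld 192 B 415 5 m)
    (rng 192 415 (Nat.pow 2 (Nat.sub B 1)) 5 (vld 192 B 415 5 m)))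

/-- The number of an entry. -/
def ixe (c s b : Nat) : Nat := Nat.add (Nat.add (Nat.mul 18 c) (Nat.mul 6 s)) b

end Pool.Agent.Work.MP_6bf1e5_an.H.Mw
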