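import Pool.Agent.Work.MP_6bf1e5_an.H.MoS
import Pool.Agent.Work.MP_6bf1e5_an.H.MoE
import Pool.Agent.Work.MP_6bf1e5_an.H.MoFam
import Pool.Agent.Lib.KBlk.VrS

/-! From single tables to a set of moment tables (owner helper64). -/

open MeasureTheory Finset

namespace Pool.Agent.Work.MP_6bf1e5_an.H.Mw

open Pool.Agent.Lib.KBlk Pool.Agent.Lib.KLA Pool.Agent.Lib.KMom Fs

instance : DecidableEq Pr := fun a b =>
  decidable_of_iff (a.g = b.g ∧ a.c = b.c ∧ a.s = b.s ∧ a.kx = b.kx ∧ a.l = b.l)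
    (by cases a; cases b; simp)

instance : DecidableEq Grp := fun a b =>
  decidable_of_iff (a.w = b.w ∧ a.tp = b.tp ∧ a.kq = b.kq ∧ a.l = b.l) (by cases a; cases b; simp)

/-- Stored moments, or no table for zero moments. -/
def Mn (W p K n δ : ℕ) (M : Rows) (m : ℕ → ℕ → ℝ) : Prop :=
  Mo W p K n δ M m ∨ (M = Rows.nil ∧ ∀ k t, m k t = 0)

/-- The table `M` holds the moments of the entry `E`, whose size is at most `I`. -/
def Good (sc B I : ℕ) (e ng : Bool) (E : List Grp) (M : Rows) : Prop :=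
  (∀ p q, xor p q = e → (p || q) = ng → Mn 192 415 (2 ^ (B - 1)) 80 3 M
    (mo volume (fun y => 2 ^ sc * evG env E y) (phA 1) th2 0 false false p q)) ∧
  Integrable (fun y => 2 ^ sc * evG env E y) ∧ ∫ y, |2 ^ sc * evG env E y| ≤ 2 ^ sc * I

variable {W s0 C s1 s2 r F eg sT sR sc B I : ℕ} {e ng : Bool} {E : List Grp} {T : Vr}

theorem fam_eq (g : ℕ) : fam B (g, T) = if g = 0 then Rows.nil else if g = 1 then
    vld 192 B 415 5 T else rng 192 415 (2 ^ (B - 1)) 5 (vld 192 B 415 5 T) := by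
  simp only [fam, Lib.KTab.usep_mk, cnd_eq, Nat.pow_eq, Nat.sub_eq, Nat.beq_eq]

theorem ck1_ok {p q : Bool} (hB : 0 < B ∧ B ≤ 192)
    (h : ck1 W s0 C s1 s2 r F eg sT sR sc B (xor p q) (p || q) E T = true) :
    Mo 192 415 (2 ^ (B - 1)) 80 3 (vld 192 B 415 5 T)
      (mo volume (fun y => 2 ^ sc * evG env E y) (phA 1) th2 0 false false p q) := by
  have h1 := mat_vld hB.1 hB.2 415 5 T
  rw [ck1] at h
  generalize vld 192 B 415 5 T = M at *
  exact chk_ok h h1 rfl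

theorem good1 (h : ck1 W s0 C s1 s2 r F eg sT sR sc B e ng E T = true) (h' : ck2 I e E = true)
    (hB : 0 < B ∧ B ≤ 192) : Good sc B I e ng E (fam B (1, T)) := by
  rw [ck2] at h'
  rw [fam_eq, if_neg one_ne_zero, if_pos rfl]
  exact ⟨fun p q e1 e2 => .inl (ck1_ok hB (by rw [e1, e2, h])), sup_ok h' (by positivity)⟩

theorem good2 (h : ck1 W s0 C s1 s2 r F eg sT sR sc B e ng E T = true) (h' : ck2 I e E = true)
    (hB : 0 < B ∧ B ≤ 192) : Good sc B I e ng (ngE E) (fam B (2, T)) := by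
  rw [ck2] at h'
  have h1 := sup_ok h' (σ := 2 ^ sc) (by positivity)
  rw [fam_eq, if_neg two_ne_zero, if_neg (by norm_num)]
  simp only [Good, ev_ngE, mul_neg, abs_neg]
  exact ⟨fun p q e1 e2 => .inl (mo_neg (c := 5) (by norm_num) (ck1_ok hB (by rw [e1, e2, h]))),
    h1.1.neg, h1.2⟩

theorem good0 (e ng : Bool) : Good sc B 0 e ng [] (fam B (0, Vr.nil)) := by
  rw [fam_eq, if_pos rfl]
  exact ⟨fun p q _ _ => .inr ⟨rfl, by simp [mo, evG, phi]⟩, by simp [evG, phi], by simp [evG, phi]⟩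

theorem Good.cast {x x' : ℕ × Vr} {I' : ℕ} {e' ng' : Bool} {E' : List Grp}
    (h : Good sc B I e ng E (fam B x)) (h1 : I' = I ∧ e' = e ∧ ng' = ng ∧ E' = E) (h2 : x' = x) :
    Good sc B I' e' ng' E' (fam B x') := by
  obtain ⟨rfl, rfl, rfl, rfl⟩ := h1
  exact h2 ▸ h

/-- The fields whose moments are stored. -/
noncomputable def FF (i sc c k β : ℕ) : Sc := fun y => 2 ^ sc * evG env (gs i c k β) y

/-- A set of moment tables. -/
structure MSet (i sc B I : ℕ) (M : ℕ → ℕ → ℕ → Rows) : Prop where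
  fld : ∀ c < 2, Gl.Fld (sets i).1 (2 ^ sc) (sets i).2.1 (sets i).2.2 c (FF i sc c)
  int : ∀ c < 2, ∀ s < 3, ∀ β < 6, Integrable (FF i sc c s β)
  mom : ∀ c < 2, ∀ s < 3, ∀ β < 6, Mn 192 415 (2 ^ (B - 1)) 80 3 (M c s β)
    (mo volume (FF i sc c s β) (phA 1) th2 0 false false (s != 0) (β % 3 != 0))
  hI : ∀ c < 2, ∀ c' < 2,
    ∑ s ∈ range 3, ∑ s' ∈ range 3, ∫ y, |FF i sc c s (3 * c' + s') y| ≤ 2 ^ sc * I

theorem mset {i : ℕ} {t : Tr (ℕ × Vr)} (l : List ℕ) (hi : i < 7)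
    (h : ∀ c < 2, ∀ s < 3, ∀ β < 6, Good sc B (l.getD (ixe c s β) 0) (xor (s != 0) (β % 3 != 0))
      (s != 0 || β % 3 != 0) (gs i c s β) (fam B (t.get (ixe c s β))))
    (hs : ∀ c < 2, ∀ c' < 2,
      ∑ s ∈ range 3, ∑ s' ∈ range 3, l.getD (ixe c s (3 * c' + s')) 0 ≤ I) :
    MSet i sc B I fun c s β => fam B (t.get (ixe c s β)) where
  fld _ hc := fld_set hi hc _
  int c hc s hs β hβ := (h c hc s hs β hβ).2.1
  mom c hc s hs β hβ := (h c hc s hs β hβ).1 _ _ rfl rfl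
  hI c hc c' hc' := by
    refine (sum_le_sum fun s hs => sum_le_sum fun s' hs' => (h c hc s (mem_range.1 hs) _
      (by have := mem_range.1 hs'; omega)).2.2).trans ?_
    simp only [← mul_sum]
    exact mul_le_mul_of_nonneg_left (by exact_mod_cast hs c hc c' hc') (by positivity)

end Pool.Agent.Work.MP_6bf1e5_an.H.Mw
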