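import Pool.Agent.Work.MP_6bf1e5_an.H.LtF
import Pool.Agent.Lib.KMom.Mom

/-! The weight with rational moments (owner helper64). -/

open scoped Real
open Set MeasureTheory

namespace Pool.Agent.Work.MP_6bf1e5_an.H.Mw

open Pool.Agent.Lib.KMom

/-- The weight as a function of `t`. -/
noncomputable def wr (t : ℝ) : ℝ := t ^ 7 / (16 * π * √(1 - t ^ 4) * √(1 - t))

/-- The weight. -/
noncomputable def wt : Sc := fun y => wr (tau 1 y)

theorem den (i : ℤ) : (1 - 4 * (i : ℝ) ^ 2) ≠ 0 := by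
  have : (1 - 4 * i ^ 2 : ℤ) ≠ 0 := by omega
  exact_mod_cast this

theorem ang (k : ℤ) : ∫ θ in (0 : ℝ)..π, Real.cos (k * (2 * θ)) * Real.sin θ =
    2 / (1 - 4 * (k : ℝ) ^ 2) := by
  have h := den k
  rw [intervalIntegral.integral_eq_sub_of_hasDerivAt (f := fun θ => (-(Real.cos (k * (2 * θ)) *
    Real.cos θ) - 2 * k * (Real.sin (k * (2 * θ)) * Real.sin θ)) / (1 - 4 * (k : ℝ) ^ 2))
    (fun x _ => ?_) (Continuous.intervalIntegrable (by fun_prop) _ _)]
  · simp only [Real.cos_int_mul_two_pi, Real.cos_pi, Real.sin_pi, mul_zero, Real.cos_zero,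
      Real.sin_zero]
    ring
  have h1 := ((hasDerivAt_id' x).const_mul 2).const_mul (k : ℝ)
  refine HasDerivAt.congr_deriv (((h1.cos.mul (Real.hasDerivAt_cos x)).neg.sub
    ((h1.sin.mul (Real.hasDerivAt_sin x)).const_mul _)).div_const _) ?_
  rw [div_eq_iff h]
  ring

theorem rad0 (i : ℤ) : ∫ ω in (0 : ℝ)..π / 2, Real.cos (i * (2 * ω)) * Real.cos ω =
    kr true i := by
  have h := den i
  rw [intervalIntegral.integral_eq_sub_of_hasDerivAt (f := fun θ => (Real.cos (i * (2 * θ)) *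
    Real.sin θ - 2 * i * (Real.sin (i * (2 * θ)) * Real.cos θ)) / (1 - 4 * (i : ℝ) ^ 2))
    (fun x _ => ?_) (Continuous.intervalIntegrable (by fun_prop) _ _)]
  · simp only [Real.cos_pi_div_two, Real.sin_pi_div_two, mul_zero, Real.cos_zero, Real.sin_zero,
      show 2 * (π / 2) = π by ring, Real.cos_int_mul_pi, kr, if_true]
    rcases Int.even_or_odd i with e | e
    · simp [e.neg_one_zpow, (Int.natAbs_even.2 e).neg_one_pow]
    · simp [e.neg_one_zpow, (Int.natAbs_odd.2 e).neg_one_pow]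
  have h1 := ((hasDerivAt_id' x).const_mul 2).const_mul (i : ℝ)
  refine HasDerivAt.congr_deriv (((h1.cos.mul (Real.hasDerivAt_sin x)).sub
    ((h1.sin.mul (Real.hasDerivAt_cos x)).const_mul _)).div_const _) ?_
  rw [div_eq_iff h]
  ring

theorem rad (i : ℤ) :
    IntegrableOn (fun t => wr t * Real.cos (i * Real.arccos (2 * t - 1)) *
      (2 * √(1 - t ^ 4) / t ^ 7)) (Ioo 0 1) ∧
    ∫ t in Ioo (0 : ℝ) 1, wr t * Real.cos (i * Real.arccos (2 * t - 1)) *
      (2 * √(1 - t ^ 4) / t ^ 7) = kr true i / (4 * π) := by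
  have hπ := Real.pi_pos
  have hc : ∀ ω ∈ Ioo (0 : ℝ) (π / 2), 0 < Real.cos ω ∧ 0 < Real.sin ω := fun ω h =>
    ⟨Real.cos_pos_of_mem_Ioo ⟨by linarith [h.1], h.2⟩,
      Real.sin_pos_of_pos_of_lt_pi h.1 (by linarith [h.2])⟩
  have hd : ∀ ω ∈ Ioo (0 : ℝ) (π / 2), HasDerivWithinAt (fun ω => Real.cos ω ^ 2)
      (-(2 * Real.cos ω * Real.sin ω)) (Ioo 0 (π / 2)) ω := fun ω _ =>
    (((Real.hasDerivAt_cos ω).pow 2).congr_deriv (by simp)).hasDerivWithinAt
  have hi : InjOn (fun ω => Real.cos ω ^ 2) (Ioo 0 (π / 2)) := fun a ha b hb e =>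
    Real.injOn_cos ⟨ha.1.le, by linarith [ha.2]⟩ ⟨hb.1.le, by linarith [hb.2]⟩
      ((pow_left_inj₀ (hc a ha).1.le (hc b hb).1.le two_ne_zero).1 e)
  have him : (fun ω => Real.cos ω ^ 2) '' Ioo 0 (π / 2) = Ioo 0 1 := by
    ext x
    constructor
    · rintro ⟨ω, h, rfl⟩
      have := hc ω h
      exact ⟨pow_pos this.1 2, by nlinarith [Real.sin_sq_add_cos_sq ω, pow_pos this.2 2]⟩
    · rintro ⟨x0, x1⟩
      have h1 : √x < 1 := (Real.sqrt_lt' one_pos).2 (by simpa using x1)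
      refine ⟨Real.arccos √x, ⟨Real.arccos_pos.2 h1,
        Real.arccos_lt_pi_div_two.2 (Real.sqrt_pos.2 x0)⟩, ?_⟩
      simp only
      rw [Real.cos_arccos (by linarith [Real.sqrt_nonneg x]) h1.le, Real.sq_sqrt x0.le]
  have hp : ∀ ω ∈ Ioo (0 : ℝ) (π / 2), |-(2 * Real.cos ω * Real.sin ω)| •
      (wr (Real.cos ω ^ 2) * Real.cos (i * Real.arccos (2 * Real.cos ω ^ 2 - 1)) *
        (2 * √(1 - (Real.cos ω ^ 2) ^ 4) / (Real.cos ω ^ 2) ^ 7)) =
      1 / (4 * π) * (Real.cos (i * (2 * ω)) * Real.cos ω) := fun ω h => by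
    obtain ⟨h1, h2⟩ := hc ω h
    have h3 : 0 < √(1 - (Real.cos ω ^ 2) ^ 4) := Real.sqrt_pos.2 (sub_pos.2
      (pow_lt_one₀ (sq_nonneg _) (him ▸ mem_image_of_mem _ h : _ ∈ Ioo (0 : ℝ) 1).2 four_ne_zero))
    rw [abs_neg, abs_of_pos (by positivity), ← Real.cos_two_mul,
      Real.arccos_cos (by linarith [h.1]) (by linarith [h.2]), wr, ← Real.sin_sq,
      Real.sqrt_sq h2.le, smul_eq_mul]
    generalize √(1 - _) = q at *
    field_simp
    ring
  rw [← him, integrableOn_image_iff_integrableOn_abs_deriv_smul measurableSet_Ioo hd hi,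
    integrableOn_congr_fun hp measurableSet_Ioo,
    integral_image_eq_integral_abs_deriv_smul measurableSet_Ioo hd hi,
    setIntegral_congr_fun measurableSet_Ioo hp, integral_const_mul, ← integral_Ioc_eq_integral_Ioo,
    ← intervalIntegral.integral_of_le (by positivity), rad0]
  exact ⟨(Continuous.integrableOn_Icc (by fun_prop)).mono_set Ioo_subset_Icc_self, by ring⟩

theorem wt_ok : Wt volume wt (phA 1) th2 where
  nn := .of_forall fun y => div_nonneg (pow_nonneg (Lt.tau_mem y).1 _) (by positivity)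
  int := by
    have := integrable_sep_one (A := wr) (B := fun _ => 1) (by simpa using (rad 0).1)
      continuous_const
    simp only [mul_one] at this
    exact this
  mχ := meas_phA one_pos
  mθ := meas_th2
  val i k := by
    have := int_sep_one (fun t => wr t * Real.cos (i * Real.arccos (2 * t - 1)))
      (B := fun θ => Real.cos (k * (2 * θ))) (by fun_prop)
    rw [(rad i).2, ang] at this
    simp only [wt, phA, th2, ← mul_assoc] at this ⊢
    rw [this]
    simp only [kr, Bool.false_eq_true, if_false]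
    have := Real.pi_pos
    field_simp
    ring

/-- The reciprocal of the weight. -/
theorem wt_mul {y : R3} (h : Off y) : wt y * (16 * π * (1 - tau 1 y) *
    √((1 + tau 1 y) * (1 + tau 1 y ^ 2))) = tau 1 y ^ 7 := by
  have h0 := (Lt.tau_mem y).1
  have h1 : tau 1 y < 1 := by
    have : 0 < ‖y‖ := norm_pos_iff.2 fun e => h (by simp [e])
    exact Real.rpow_lt_one_of_one_lt_of_neg (by nlinarith) (by norm_num)
  have h2 : 0 < 1 - tau 1 y := sub_pos.2 h1
  have h3 : 0 < √((1 + tau 1 y) * (1 + tau 1 y ^ 2)) := Real.sqrt_pos.2 (by positivity)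
  have := Real.pi_pos
  rw [wt, wr, show 1 - tau 1 y ^ 4 = (1 - tau 1 y) * ((1 + tau 1 y) * (1 + tau 1 y ^ 2)) by ring,
    Real.sqrt_mul h2.le, mul_assoc, mul_right_comm (√_), Real.mul_self_sqrt h2.le]
  field_simp

end Pool.Agent.Work.MP_6bf1e5_an.H.Mw
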