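import Pool.Agent.Work.MP_6bf1e5_an.H.MoD
import Pool.Agent.Work.MP_6bf1e5_an.H.MoA
import Pool.Agent.Work.MP_6bf1e5_an.H.MoW
import Pool.Agent.Work.MP_6bf1e5_an.H.FldS
import Pool.Agent.Lib.KTab.Fast

/-! The check of the moment tables is sound (owner helper64). -/

open scoped Real
open MeasureTheory

namespace Pool.Agent.Work.MP_6bf1e5_an.H.Mw

open Pool.Agent.Lib.KBlk hiding Ok
open Pool.Agent.Lib.KLA Pool.Agent.Lib.KTab Pool.Agent.Lib.KMom Lt Fs

variable {W S : ℕ} {A : Env} {e ng : Bool} {B U : Lib.KTab.Tab} {u : ℝ → ℝ} {F : ℝ → ℝ → ℝ}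

/-- The radial factor of a group. -/
noncomputable def rad7 (A : Env) (G : Grp) (t : ℝ) : ℝ :=
  A.row G.w t * t ^ (G.tp - 7) * (1 - t ^ 4) ^ G.kq

/-- The sum of the products of a group. -/
noncomputable def tsum (A : Env) (G : Grp) (t θ : ℝ) : ℝ := (G.l.map fun x => x.fn A t θ).sum

/-- An entry divided by `t ^ 7`. -/
noncomputable def ph7 (A : Env) (E : List Grp) (t θ : ℝ) : ℝ :=
  (E.map fun G => rad7 A G t * tsum A G t θ).sum

/-- The reciprocal of the weight, without the power of `t`. -/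
noncomputable def ah (t : ℝ) : ℝ := 16 * π * (1 - t) * √((1 + t) * (1 + t ^ 2))

theorem pwT_rt (h : RT false W S B fun t _ => u t) :
    ∀ n, Ok (pwT B n) fun T => RT false W S T fun t _ => u t ^ n
  | 0 => fun _ hk => ⟨_, (one_rt W S).congr fun _ _ => pow_zero _, hk⟩
  | n + 1 => (pwT_rt h n).bind fun _ i => (mul_rt h i).mono fun _ i =>
      i.congr fun _ _ => pow_succ' _ _

theorem rowW_rt (w : ℕ) : Ok (rowW W S A w) fun T => RT false W S T fun t _ => A.row w t :=
  fun k hk => by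
    simp only [rowW, cnd_eq, Nat.beq_eq] at hk
    by_cases h : w = 0
    · rw [if_pos h] at hk
      exact ⟨_, (one_rt W S).congr fun _ _ => if_pos h, hk⟩
    · rw [if_neg h] at hk
      exact (ld1_rt W S 7 _ _ _ k hk).imp fun _ i => ⟨i.1.congr fun _ _ => if_neg h, i.2⟩

theorem rowG_rt (G : Grp) :
    Ok (rowG W S A G) fun T => 7 ≤ G.tp ∧ RT false W S T fun t _ => rad7 A G t := fun k hk => by
  rw [rowG, bnd_iff, Nat.ble_eq] at hk
  exact ((rowW_rt G.w).bind fun _ h1 => (tT_rt W S).bind fun _ h2 => (pwT_rt h2 _).bind fun _ h2 =>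
    (mul_rt h1 h2).bind fun _ h1 => (k2T_rt W S).bind fun _ h2 => (pwT_rt h2 _).bind fun _ h2 =>
    (mul_rt h1 h2).bind fun _ h1 => (meas_rt h1).mono fun _ i => ⟨hk.1, i⟩) k hk.2

theorem prT_rt {f g : ℕ → (Lib.KTab.Tab → Bool) → Bool}
    (hf : ∀ i, Ok (f i) fun T => RT (ty A i) W S T fun t θ => u t * A.tab i t θ)
    (hg : ∀ i, Ok (g i) fun T => RT (ty A i) W S T (A.tab i))
    (hU : RT false W S U fun t _ => u t) : ∀ l : List ℕ, Ok (prT f g U A e l) fun T =>
      RT e W S T fun t θ => u t * (l.map fun i => A.tab i t θ).prod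
  | [] => fun k hk => by
    cases e
    · exact ⟨U, hU.congr fun _ _ => by simp, hk⟩
    · cases hk
  | [i] => fun k hk => by
    have : e = ty A i ∧ f i k = true := by
      revert hk
      simp only [prT]
      cases e <;> cases ty A i <;> simp [cnd, bx, nt]
    exact (hf i k this.2).imp fun _ j => ⟨this.1 ▸ j.1.congr fun _ _ => by simp, j.2⟩
  | [i, j] => fun k hk => by
    have : e = xor (ty A i) (ty A j) ∧
        (f i fun X => g j fun Y => mulT (ty A i) (ty A j) X Y k) = true := by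
      revert hk
      simp only [prT]
      cases e <;> cases ty A i <;> cases ty A j <;> simp [cnd, bx, nt]
    exact (((hf i).bind fun _ h1 => (hg j).bind fun _ h2 => mulT_rt h1 h2) k this.2).imp
      fun _ j => ⟨this.1 ▸ j.1.congr fun _ _ => by simp [mul_assoc], j.2⟩
  | _ :: _ :: _ :: _ => fun _ hk => by cases hk

theorem fac_rt (x : Pr) (h : RT e W S B F) : Ok (fac W S x B) fun T =>
    RT e W S T fun t θ => sv x.g x.c / 2 ^ x.s * (1 - t ^ 4) ^ x.kx * F t θ := fun k hk => by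
  have h1 : Ok (fun k' : Lib.KTab.Tab → Bool => cnd (Nat.beq (Nat.add (Nat.mul 2 x.kx) x.c) 1) (k' B)
      (k2T W S fun K => pwT K x.kx fun K => mul (cst false x.c 0) K fun K => mul K B k'))
      fun T => RT e W S T fun t θ => x.c * (1 - t ^ 4) ^ x.kx * F t θ := fun k hk => by
    simp only [cnd_eq, Nat.beq_eq, Nat.add_eq, Nat.mul_eq] at hk
    split_ifs at hk with c
    · refine ⟨B, h.congr fun _ _ => ?_, hk⟩
      rw [show x.kx = 0 by omega, show x.c = 1 by omega]
      simp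
    · exact ((k2T_rt W S).bind fun _ h1 => (pwT_rt h1 _).bind fun _ h1 =>
        (mul_rt (nat_rt W S _) h1).bind fun _ h1 => mul_rt h1 h) k hk
  obtain ⟨T, h2, hk⟩ := h1 _ hk
  obtain ⟨T, h2, hk⟩ := half_rt _ h2 _ hk
  cases hg : x.g <;> rw [hg] at hk
  · exact ⟨T, h2.congr fun _ _ => by simp [sv]; ring, hk⟩
  · exact (neg_rt h2 k hk).imp fun _ i => ⟨i.1.congr fun _ _ => by simp [sv]; ring, i.2⟩

theorem sumT_rt {α : Type} {f : α → (Lib.KTab.Tab → Bool) → Bool} {φ : α → ℝ → ℝ → ℝ} {Q : α → Prop}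
    (hf : ∀ x, Ok (f x) fun T => Q x ∧ RT e W S T (φ x)) (l : List α) :
    Ok (sumT W S f l) fun T => (∀ x ∈ l, Q x) ∧
      RT e W S T fun t θ => (l.map fun x => φ x t θ).sum := by
  have : ∀ (l : List α) (i : ℕ) (B : Lib.KTab.Tab) (F : ℝ → ℝ → ℝ), RT e W S B F →
      Ok (foldK (fun _ x T k => f x fun P => add W S T P k) l i B) fun T => (∀ x ∈ l, Q x) ∧
        RT e W S T fun t θ => F t θ + (l.map fun x => φ x t θ).sum := fun l => by
    induction l with
    | nil => exact fun _ B _ h _ hk => ⟨B, ⟨by simp, h.congr fun _ _ => by simp⟩, hk⟩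
    | cons x l ih =>
      intro i B F h k hk
      obtain ⟨P, h1, hk⟩ := hf x _ hk
      obtain ⟨T, h2, hk⟩ := add_rt h h1.2 _ hk
      exact (ih _ T _ h2 k hk).imp fun _ j => ⟨⟨List.forall_mem_cons.2 ⟨h1.1, j.1.1⟩,
        j.1.2.congr fun _ _ => by simp [add_assoc]⟩, j.2⟩
  exact (this l 0 _ (fun _ _ => 0) (Rep.congr (cst_rep true W S false 0 0) fun _ _ => by
    simp [sv])).mono fun _ i => ⟨i.1, i.2.congr fun _ _ => (zero_add _).symm⟩

theorem ldQ_ok (e : Bool) (W b s : ℕ) (l : List (ℕ × ℕ)) : Ok (ldQ W b s l) fun r =>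
    RepL true e W 1999 (0 : ℕ) r fun ω θ => io e * (tb2 e b s l (Real.cos ω ^ 2) θ : ℝ) := by
  refine (mapK_ok (Q := fun j T => Rep true W 1999 T fun ω _ =>
    ((chP b s (l.getD j (0, 0))).eval (Real.cos ω ^ 2) : ℝ)) (fun j a ha => ?_) l 0
      (all_self l (0, 0))).mono fun r hr => ⟨_, hr.1, fun ω θ => ?_⟩
  · rw [← ha]
    exact (cheb2_ok true W 1999 b 9 a.1 s a.2).bind fun _ h =>
      (meas_rt (RT.of_ang (F := fun t _ => (chP b s a).eval t) h.1 fun _ _ =>
        chP_eval _ _ _ _)).mono fun _ i => i.row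
  · simp only [hr.2, tb2]
    push_cast
    rw [Finset.mul_sum]
    refine Finset.sum_congr rfl fun j _ => ?_
    cases e <;> simp [io, cs, bas_false, bas_true]
    ring

theorem ldT_rt (i : ℕ) : Ok (ldT W S A i) fun T => RT (ty A i) W S T (A.tab i) :=
  (ldQ_ok _ W _ _ (A.tb i).l).bind fun _ h => flat_ok S 7 (wid A i) _ h

theorem ldC_rt (n s : ℕ) (h : RT false W 1999 U fun t _ => u t) (i : ℕ) :
    Ok (ldC W S n s U A i) fun T => RT (ty A i) W S T fun t θ => u t * A.tab i t θ :=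
  (ldQ_ok (A.tb i).e W (A.tb i).b (A.tb i).s (A.tb i).l).bind fun _ j =>
    (j.map_mul h.row).bind fun _ j => (tmL_ok n s j).bind fun _ j =>
    (flat_ok S 7 n _ j).mono fun _ j => Rep.congr j fun ω θ => by
      rw [Complex.ofReal_mul, mul_left_comm]
      rfl

theorem meas_sum {α : Type} {f : α → Sc} (l : List α) (h : ∀ x, Measurable (f x)) :
    Measurable fun y => (l.map fun x => f x y).sum := by
  induction l with
  | nil => exact measurable_const
  | cons x l ih => exact (h x).add ih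

theorem meas_tab (A : Env) (G : Grp) : Measurable fun y => tsum A G (tau 1 y) (pa y) := by
  have h0 := meas_tau one_pos
  refine meas_sum _ fun x => (((h0.pow_const 4).const_sub 1).pow_const _).const_mul _ |>.mul ?_
  induction x.l with
  | nil => exact measurable_const
  | cons i l ih =>
    refine Measurable.mul (f := fun y => A.tab i (tau 1 y) (pa y)) ?_ ih
    simp only [Env.tab, tb2]
    exact Finset.measurable_sum _ fun k _ =>
      ((Polynomial.continuous _).measurable.comp h0).mul ((continuous_cs _).measurable.comp (meas_pa.const_mul _))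

theorem meas_rad7 (A : Env) (G : Grp) : Measurable fun y => rad7 A G (tau 1 y) := by
  have h0 := meas_tau one_pos
  refine (Measurable.mul ?_ (h0.pow_const _)).mul (((h0.pow_const 4).const_sub 1).pow_const _)
  unfold Env.row
  split_ifs
  exacts [measurable_const, (Polynomial.continuous _).measurable.comp h0,
    (Polynomial.continuous _).measurable.comp h0]

theorem meas_ah : Measurable fun y => ah (tau 1 y) := by
  have h0 := meas_tau one_pos
  exact ((h0.const_sub 1).const_mul _).mul ((h0.const_add 1).mul ((h0.pow_const 2).const_add 1)).sqrt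

theorem cos_half (y : R3) : Real.cos (phA 1 y / 2) ^ 2 = tau 1 y := by
  rw [phA_eq one_pos, mul_div_cancel_left₀ _ two_ne_zero, cos_omA_sq one_pos]

variable {P : Lib.KMom.Par} {sT sR : ℕ}

theorem gtab_rt (G : Grp) : Ok (sumT W S (fun x k => prT (ldT W S A) (ldT W S A) one A e x.l
    fun T => fac W S x T k) G.l) fun T => RT e W S T (tsum A G) :=
  (sumT_rt (Q := fun _ => True) (φ := fun x => x.fn A) (fun x => (prT_rt
    (u := fun _ => 1) (fun i => (ldT_rt i).mono fun _ j => j.congr fun _ _ => one_mul _) ldT_rt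
    (one_rt _ _) x.l).bind fun _ j => (fac_rt x j).mono fun _ j =>
      ⟨trivial, j.congr fun _ _ => by rw [one_mul, Pr.fn]⟩) G.l).mono fun _ j => j.2

theorem mgrp_ok (G : Grp) : Ok (mgrp P sT sR A e ng G) fun r => 7 ≤ G.tp ∧ Gk P volume wt (phA 1)
    th2 1 e ng (fun y => ah (tau 1 y) * (rad7 A G (tau 1 y) * tsum A G (tau 1 y) (pa y))) r := by
  intro k hk
  simp only [mgrp, strict_eq] at hk
  obtain ⟨R, h1, hk⟩ := rowG_rt G _ hk
  obtain ⟨H, h2, hk⟩ := ahK_rep _ _ _ _ hk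
  obtain ⟨R, h2, hk⟩ := mul_ok h2 h1.2.row.weak _ hk
  obtain ⟨R, h2, hk⟩ := trim_ok _ _ h2 _ hk
  obtain ⟨R, h2, hk⟩ := meas_ok h2 _ hk
  obtain ⟨⟨g, a, n, m, x, s, M, ε⟩, h3, hk⟩ := gtab_rt G _ hk
  rw [use_mk] at hk
  obtain ⟨T, h3, hk⟩ := lift_ok _ _ _ h3 _ hk
  exact (grp_ok wt_ok (f := fun y => ah (tau 1 y) * (rad7 A G (tau 1 y) *
    tsum A G (tau 1 y) (pa y))) (φ := fun ω θ => tsum A G (Real.cos ω ^ 2) θ)
    (r := fun ω => ah (Real.cos ω ^ 2) * rad7 A G (Real.cos ω ^ 2)) h3.1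
    (h2.congr fun _ _ => by rw [ah, Complex.ofReal_mul]) (fun _ _ => by rw [Real.cos_neg])
    (fun _ => by rw [Real.cos_neg])
    (fun y => by rw [cos_half, th2, mul_div_cancel_left₀ _ two_ne_zero, mul_assoc])
    (meas_ah.mul ((meas_rad7 A G).mul (meas_tab A G))).aestronglyMeasurable k hk).imp
      fun _ i => ⟨⟨h1.1, i.1⟩, i.2⟩

theorem ments_ok : ∀ (E : List Grp) (k : ℕ → (ℕ → ℕ) → Bool), ments P sT sR A e ng E k = true →
    ∃ n r, (∀ G ∈ E, 7 ≤ G.tp) ∧ Gk P volume wt (phA 1) th2 n e ng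
      (fun y => ah (tau 1 y) * ph7 A E (tau 1 y) (pa y)) r ∧ k n r = true
  | [], _, h => ⟨0, _, by simp, by simpa [ph7] using Gk.zero P e ng, h⟩
  | G :: E, k, h => by
    obtain ⟨r, h1, h⟩ := mgrp_ok G _ h
    obtain ⟨n, r', h2, h3, h⟩ := ments_ok E _ h
    exact ⟨_, _, List.forall_mem_cons.2 ⟨h1.1, h2⟩, by
      simpa [ph7, mul_add] using h1.2.plus wt_ok h3, h⟩

theorem ev_ae {E : List Grp} (h : ∀ G ∈ E, 7 ≤ G.tp) (σ : ℝ) : (fun y => σ * evG A E y)
    =ᵐ[volume] fun y => σ * (wt y * (ah (tau 1 y) * ph7 A E (tau 1 y) (pa y))) :=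
  ae_off.mono fun y hy => by
    beta_reduce
    rw [← mul_assoc (wt y), ah, wt_mul hy, evG, phi, ph7, ← List.sum_map_mul_left _ _ (_ ^ 7)]
    refine congrArg _ (congrArg _ (List.map_congr_left fun G hG => ?_))
    rw [Grp.fn, rad7, tsum, ← Nat.add_sub_cancel' (h G hG), pow_add, Nat.add_sub_cancel_left]
    ring

/-- The moments of an entry. -/
theorem chk_ok {x dm sc : ℕ} {p q : Bool} {E : List Grp} {M : Rows} {c : ℕ → ℕ → ℤ}
    (h : chk P x dm sT sR A (xor p q) (p || q) E M = true) (hM : Mat P.Wb P.St P.Km P.nK M c)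
    (hs : P.sc = sc + x) : Mo P.Wb P.St P.Km P.nK dm M
      (mo volume (fun y => 2 ^ sc * evG A E y) (phA 1) th2 P.mA false false p q) := by
  obtain ⟨n, r, h1, h2, h3⟩ := ments_ok E _ h
  exact fitx_ok h2 h3 hM hs (ev_ae h1 _)

theorem lgrp_rt (n s1 s2 s3 : ℕ) (G : Grp) : Ok (lgrp W S n s1 s2 s3 A e G) fun T => 7 ≤ G.tp ∧
    RT e W S T fun t θ => (1 - t * t) * (rad7 A G t * tsum A G t θ) :=
  (rowG_rt G).bind fun _ h1 => (tT_rt _ _).bind fun _ h2 => (mul_rt h2 h2).bind fun _ h2 =>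
    (sub_rt (one_rt _ _) h2).bind fun _ h2 => (mul_rt h2 h1.2).bind fun _ h2 =>
    (sumT_rt (Q := fun _ => True) (φ := fun x t θ => (1 - t * t) * rad7 A G t * x.fn A t θ)
      (fun x => (fac_rt x h2).bind fun _ j => (trim_rt _ _ j).bind fun _ j =>
        (meas_rt j).bind fun U j k hk => by
          obtain ⟨g, a, n, m, x', s, M, ε⟩ := U
          rw [use_mk, bnd_iff, Nat.beq_eq] at hk
          exact (prT_rt (ldC_rt _ _ j) (fun i => (ldC_rt _ _ (one_rt _ _) i).mono fun _ j =>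
            j.congr fun _ _ => (one_mul _).symm) (rep_stride j hk.1 S) x.l k hk.2).imp
            fun _ j => ⟨⟨trivial, j.1.congr fun _ _ => by rw [Pr.fn]; ring⟩, j.2⟩) G.l).mono
      fun _ j => ⟨h1.1, j.2.congr fun _ _ => by rw [List.sum_map_mul_left, tsum, mul_assoc]⟩

/-- The size of an entry. -/
theorem sup_ok {n s1 s2 s3 I : ℕ} {E : List Grp} (h : sup W n s1 s2 s3 I A e E = true) {σ : ℝ}
    (hσ : 0 ≤ σ) : Integrable (fun y => σ * evG A E y) ∧ ∫ y, |σ * evG A E y| ≤ σ * I := by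
  obtain ⟨T, h1, h⟩ := sumT_rt (lgrp_rt n s1 s2 s3) E _ h
  obtain ⟨T, h2, h⟩ := meas_rt h1.2 _ h
  refine wt_ok.size hσ (meas_ah.mul ?_).aestronglyMeasurable (fun y => ?_) (ev_ae h1.1 σ)
  · exact meas_sum _ fun G => (meas_rad7 A G).mul (meas_tab A G)
  have h3 := finS_rt h h2 (tau_mem y) (pa y)
  obtain ⟨t0, t1⟩ := tau_mem y
  rw [List.sum_map_mul_left, abs_mul, abs_of_nonneg (by nlinarith)] at h3
  have h4 : ah (tau 1 y) ≤ 503 / 10 * (1 - tau 1 y * tau 1 y) := by
    have : √((1 + tau 1 y) * (1 + tau 1 y ^ 2)) ≤ 1 + tau 1 y :=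
      Real.sqrt_le_iff.2 ⟨by linarith, by nlinarith [mul_nonneg t0 (sub_nonneg.2 t1)]⟩
    refine (mul_le_mul (mul_le_mul_of_nonneg_right (show 16 * π ≤ 503 / 10 by
      linarith [Real.pi_lt_d4]) (sub_nonneg.2 t1)) this (Real.sqrt_nonneg _)
      (mul_nonneg (by norm_num) (sub_nonneg.2 t1))).trans_eq (by ring)
  have h5 : 0 ≤ ah (tau 1 y) :=
    mul_nonneg (mul_nonneg (by positivity) (sub_nonneg.2 t1)) (Real.sqrt_nonneg _)
  rw [Pi.mul_apply, abs_mul, abs_of_nonneg h5]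
  refine (mul_le_mul_of_nonneg_right h4 (abs_nonneg _)).trans ?_
  push_cast [Nat.mul_eq] at h3
  rw [mul_assoc, ph7]
  linarith

theorem ev_ngE (E : List Grp) (y : R3) : evG A (ngE E) y = -evG A E y := by
  simp only [evG, phi, ngE, List.map_map, Function.comp_def, Grp.fn, Pr.fn]
  rw [List.sum_neg, List.map_map]
  refine congrArg _ (List.map_congr_left fun G _ => ?_)
  rw [Function.comp, ← mul_neg, List.sum_neg, List.map_map]
  refine congrArg _ (congrArg _ (List.map_congr_left fun x _ => ?_))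
  rw [Function.comp]
  cases x.g <;> simp [sv, neg_div]

end Pool.Agent.Work.MP_6bf1e5_an.H.Mw
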