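import Pool.Agent.Work.MP_6bf1e5_an.H.SkNz
import Pool.Agent.Work.MP_6bf1e5_an.H.DataDefs

/-! The background given by stored Chebyshev coefficients does not vanish: an integer test. -/

open scoped ContDiff
open Finset Polynomial

namespace Pool.Agent.Work.MP_6bf1e5_an.H

open Pool.Agent.Lib.KTab

/-- Twice the values of the Chebyshev polynomials at one half. -/
def nzT (j : ℕ) : ℤ := [2, 1, -1, -2, -1, 1].getD (j % 6) 0

/-- The scaled vorticity at the point of the axis where `tau = 3 / 4`. -/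
def nzS (b N : ℕ) (E : ℕ → ℕ × ℕ) : ℤ := ∑ i ∈ range N,
  ((2 * i + 2) * (2 * i + 3) * 175 ^ (i + 1) * 256 ^ (N - (i + 1)) : ℕ) *
    ∑ j ∈ range ((E (2 * i + 2)).1 + 1), sdig b (E (2 * i + 2)).2 j * nzT j

theorem nzT_add (j : ℕ) : nzT (j + 2) = nzT (j + 1) - nzT j := by
  have h : ∀ k < 6, [2, 1, -1, -2, -1, 1].getD ((k + 2) % 6) (0 : ℤ) =
      [2, 1, -1, -2, -1, 1].getD ((k + 1) % 6) 0 - [2, 1, -1, -2, -1, 1].getD k 0 := by decide
  rw [nzT, nzT, nzT, ← Nat.mod_add_mod, ← Nat.mod_add_mod j]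
  exact h _ (Nat.mod_lt _ (by norm_num))

theorem nzT_eq (j : ℕ) : (Chebyshev.T ℝ j).eval (2 * (3 / 4) - 1) = nzT j / 2 := by
  induction j using Nat.twoStepInduction with
  | zero => simp [nzT]
  | one => norm_num [nzT]
  | more n h1 h2 =>
    rw [nzT_add]
    push_cast at h2 ⊢
    rw [Chebyshev.T_add_two, eval_sub, eval_mul, h1, h2]
    simp only [eval_mul, eval_ofNat, eval_X]
    ring

theorem nz_data {a ρ b1 : ℝ} (ha : a = ρ ^ 2) (hρ : 2 ≤ ρ) {N b sc : ℕ} {E : ℕ → ℕ × ℕ}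
    {L : Finset ℕ} (hL : L = (range N).image fun i => 2 * i + 2) {f s : ℕ → Rad}
    (hs : ∀ l x, (s l).f x = ρ ^ l / ρ * x ^ (2 * l + 1) * ∑ j ∈ range ((E l).1 + 1),
      (sdig b (E l).2 j : ℝ) / 2 ^ sc * (Chebyshev.T ℝ j).eval (2 * x - 1))
    (hp : Pot (-1 / 2) (TR a L f) (TR a L s)) (hb : 0 ≤ b1) (hb' : b1 ≤ 1400)
    (pw1 : ∀ y, ∑ i, ∑ j, ∑ k, pd k (pd j (fld (TR a L f) (TR a L s) i)) y ^ 2 ≤ b1 ^ 2 * Om y)
    (chk : 56 * 2 ^ sc * 256 ^ N ≤ nzS b N E) :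
    ∃ A0, ∀ A ≥ A0, 1 / 10 ^ 6 ≤ nw Om (curl (cut A (TR a L f) (TR a L s))) := by
  have h0 : 0 < ρ := by linarith
  obtain ⟨q, hq0, hq⟩ : ∃ q : ℝ, 0 < q ∧ q ^ 2 = 175 := ⟨√175, by positivity, by norm_num⟩
  have hq1 : q ≤ 27 / 2 := by nlinarith
  have hz : q / (9 * ρ) ≤ 1 := by
    rw [div_le_one (by positivity)]
    linarith
  have e1 : (1 + a * (q / (9 * ρ)) ^ 2) ^ (-(1 / 4) : ℝ) = 3 / 4 := by
    have : 1 + a * (q / (9 * ρ)) ^ 2 = (3 / 4 : ℝ) ^ (-4 : ℝ) := by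
      rw [ha, div_pow, hq]
      field_simp
      norm_num
    rw [this, ← Real.rpow_mul (by norm_num)]
    norm_num
  have h1 := curl_axis (a := a) (by rw [ha]; positivity) L f s (q / (9 * ρ))
  have e2 : ∑ l ∈ L, (l * (l + 1) : ℝ) * (s l).f (3 / 4) * (q / (9 * ρ)) ^ l =
      3 / (8 * ρ) * (nzS b N E / (2 ^ sc * 256 ^ N)) := by
    rw [hL, sum_image fun _ _ _ _ h => by simpa using h, nzS]
    push_cast
    rw [sum_div, mul_sum]
    refine sum_congr rfl fun i hi => ?_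
    obtain ⟨k, rfl⟩ := Nat.exists_eq_add_of_lt (mem_range.1 hi)
    have e3 : ∑ j ∈ range ((E (2 * i + 2)).1 + 1), (sdig b (E (2 * i + 2)).2 j : ℝ) / 2 ^ sc *
        (Chebyshev.T ℝ j).eval (2 * (3 / 4) - 1) = (∑ j ∈ range ((E (2 * i + 2)).1 + 1),
          (sdig b (E (2 * i + 2)).2 j : ℝ) * nzT j) / (2 * 2 ^ sc) := by
      rw [sum_div]
      exact sum_congr rfl fun j _ => by rw [nzT_eq]; ring
    have e4 : ρ ^ (2 * i + 2) * (3 / 4) ^ (2 * (2 * i + 2)) * (q / (9 * ρ)) ^ (2 * i + 2) =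
        175 ^ (i + 1) / 256 ^ (i + 1) := by
      rw [pow_mul (3 / 4 : ℝ), ← mul_pow, ← mul_pow, show 2 * i + 2 = 2 * (i + 1) by ring, pow_mul,
        ← div_pow, ← hq]
      congr 1
      field_simp
      norm_num
    rw [hs, e3, show i + k + 1 - (i + 1) = k by omega, show i + k + 1 = i + 1 + k by omega,
      pow_add (256 : ℝ) (i + 1), pow_succ (3 / 4 : ℝ)]
    generalize ∑ j ∈ range ((E (2 * i + 2)).1 + 1),
      (sdig b (E (2 * i + 2)).2 j : ℝ) * nzT j = X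
    have e5 : (175 : ℝ) ^ (i + 1) = _ := (div_eq_iff (by positivity)).1 e4.symm
    rw [e5]
    field_simp
    ring
  have h2 : (56 : ℝ) ≤ nzS b N E / (2 ^ sc * 256 ^ N) := by
    rw [le_div_iff₀ (by positivity), ← mul_assoc]
    exact_mod_cast chk
  rw [e1, e2] at h1
  refine nz_of_point hp hb pw1 (w0 := 14) (z0 := q / (9 * ρ)) (δ := 1 / 400) ?_
    ((abs_of_pos (by positivity)).trans_le hz) (by norm_num) (by norm_num) (by linarith)
    (by norm_num)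
  generalize curl (fld (TR a L f) (TR a L s)) 2 (EuclideanSpace.single 2 (q / (9 * ρ))) = W at h1
  generalize (nzS b N E : ℝ) / (2 ^ sc * 256 ^ N) = X at h1 h2
  field_simp at h1
  refine le_trans ?_ (neg_le_abs W)
  by_contra h
  nlinarith

/-- The field `nz` of `Static` from one integer inequality. -/
theorem Dat.nz (d : Dat) {w b1 : ℝ} (hw : 3 / 2 ≤ w) (hb : 0 ≤ b1) (hb' : b1 ≤ 1400)
    (pw1 : ∀ y, ∑ i, ∑ j, ∑ k, pd k (pd j (fld (d.Ψ w) (d.Sw w) i)) y ^ 2 ≤ b1 ^ 2 * Om y)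
    (chk : 56 * 2 ^ d.S.s * 256 ^ d.n ≤ nzS d.S.b d.n (ent d.S.D d.S.b)) :
    ∃ A0, ∀ A ≥ A0, 1 / 10 ^ 6 ≤ nw Om (curl (cut A (d.Ψ w) (d.Sw w))) :=
  nz_data rfl (by nlinarith) rfl
    (fun l x => by rw [scl_f, Dat.s, Fml.r_f, pow_one, ← mul_assoc]; rfl)
    (d.pot (by linarith)) hb hb' pw1 chk

end Pool.Agent.Work.MP_6bf1e5_an.H
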