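import Pool.Agent.Work.MP_6bf1e5_an.H.CertFin

/-! From the entrywise results of the passes to `Pass` (owner helper15). -/

open Finset

namespace Pool.Agent.Work.MP_6bf1e5_an.H.Ca

variable {ι κ S I τ η ϱ : Type} [Fintype ι] [Fintype κ] [Fintype S] [Fintype I] [Fintype τ]
  [Fintype η] [Fintype ϱ] [DecidableEq ι] {L : Lyap} {T : Tab L} {ov ou : Sc} {u : ι → Vc}
  {Y : ι → ℕ → Vc} {x x' : τ → Vc} {bg : S → Fin L.r} {bs : S → ℝ}

/-- The stored matrices as real matrices. Modes `ι`, tests and the pairs `om` together `τ`, rows of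
the extended matrices `η`, rows of the factor `ϱ`. -/
structure HatD (L : Lyap) (ι τ η ϱ : Type) where
  lo : Fin L.r → ι
  o : ι → ℕ
  o' : Fin L.r → ℕ
  th : Fin L.r → η
  z0 : Fin 2 → η
  z1 : Fin 2 → η
  X : η → ι → ℝ
  TP : η → τ → ℝ
  Th : τ → ι → ℝ
  K : Fin L.r → ι → ℝ
  La : η → ι → ℝ
  U : η → Fin L.r → ℝ
  R : ϱ → ι → ℝ
  Q : ι → ι → ℝ

/-- The parameters and the bounds for the entries. -/
structure HatT where
  (kp s σ ρ c1 sh : ℝ)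
  (eP eT eU eK eL eZ eY eM : ℝ)
  (z1 x1 f nZ nK nU b dG : ℝ)
  (n nF nt nS : ℝ)

/-- Rows without a meaning. -/
def HatD.Pad (D : HatD L ι τ η ϱ) (h : η) : Prop :=
  (∀ a, D.th a ≠ h) ∧ (∀ i, D.z0 i ≠ h) ∧ ∀ i, D.z1 i ≠ h

/-- The matrix of the last pass. -/
noncomputable def HatD.C (D : HatD L ι τ η ϱ) (T : Tab L) (Y : ι → ℕ → Vc) (kp ρ sh : ℝ)
    (j k : ι) : ℝ :=
  D.Q j k + kp * T.ν * ((mD T.n (Y j) (Y k) + mD T.n (Y k) (Y j)) / 2)
    + ρ * ∑ r, D.Th r j * D.Th r k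
    + (∑ h, D.X h j * D.La h k + ∑ h, D.La h j * D.X h k) / 2
    - ∑ r, D.R r j * D.R r k - if j = k then sh else 0

/-- The results of the passes. -/
structure Hat (T : Tab L) (u : ι → Vc) (Y : ι → ℕ → Vc) (ov ou : Sc) (x x' : τ → Vc)
    (e : κ ⊕ S ≃ τ) (e' : I ⊕ S ≃ ϱ) (bg : S → Fin L.r) (bs : S → ℝ) (D : HatD L ι τ η ϱ)
    (t : HatT) : Prop where
  lo : Function.Injective D.lo
  inj : Function.Injective (Sum.elim D.th (Sum.elim D.z0 D.z1))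
  sy1 : ∀ a j, D.X (D.th a) j = ∑ b, L.F a b * sel D.lo b j
  sy2 : ∀ i j, D.X (D.z1 i) j = ∑ b, L.Z i b * sel D.lo b j
  tp : ∀ a r, |pP T ov ou a (x r) (x' r) - D.TP (D.th a) r| ≤ t.eP
  zt0 : ∀ i r, |∑ a, L.Z i a * D.TP (D.th a) r - D.TP (D.z0 i) r| ≤ t.eP
  zt1 : ∀ i r, |D.TP (D.z1 i) r| ≤ t.eP
  zt2 : ∀ h, D.Pad h → ∀ r, |D.TP h r| ≤ t.eP
  t0 : ∀ j r, |p0 T ov ou (u j) (x r) (x' r) + ∑ h, D.X h j * D.TP h r - D.Th r j| ≤ t.eT
  pp : ∀ a b, |wo D.o' a b * pP T ov ou a (T.P b) (T.Q b) - D.U (D.th a) b| ≤ t.eU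
  zu0 : ∀ i b, |∑ a, L.Z i a * D.U (D.th a) b - D.U (D.z0 i) b| ≤ t.eU
  zu1 : ∀ i b, |D.U (D.z1 i) b| ≤ t.eU
  zu2 : ∀ h, D.Pad h → ∀ b, |D.U h b| ≤ t.eU
  kk : ∀ a j, |T.k a (u j) - D.K a j| ≤ t.eK
  ll : ∀ a j, |t.kp * D.K a j - t.kp * T.μ * sel D.lo a j - 2 * p0 T ov ou (u j) (T.P a) (T.Q a)
    - ∑ h, D.U h a * D.X h j - D.La (D.th a) j| ≤ t.eL
  zk : ∀ i j, |2 * T.μ' * ∑ a, L.Z i a * D.K a j + D.X (D.z0 i) j| ≤ t.eZ
  zl0 : ∀ i j, |∑ a, L.Z i a * D.La (D.th a) j + (t.kp * T.μ * D.X (D.z1 i) j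
    + t.kp / (4 * T.μ') * D.X (D.z0 i) j) - D.La (D.z0 i) j| ≤ t.eL
  zl1 : ∀ i j, |-(2 * t.kp * T.μ) * D.X (D.z1 i) j - D.La (D.z1 i) j| ≤ t.eL
  zl2 : ∀ h, D.Pad h → ∀ j, |D.La h j| ≤ t.eL
  vy : ∀ s j, |t.c1 ^ 2 * (bs s * (∑ a, L.F (bg s) a * D.K a j
      - 2 * T.μ * ∑ a, Fh L (bg s) a * sel D.lo a j))
    + D.Th (e (.inr s)) j - t.c1 * D.R (e' (.inr s)) j| ≤ t.eY
  mm : ∀ j k, D.o j ≤ D.o k → |D.C T Y t.kp t.ρ t.sh j k| ≤ t.eM
  sQ : ∀ j k, D.Q j k = D.Q k j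
  hQ : ∀ c : ι → ℝ, ∑ j, ∑ k, D.Q j k * (c j * c k) ≤ t.kp *
    ((∫ y, bf T.V (curl (lc c u)) (curl (lc c u)) y) + ∫ y, bf T.B (curl (lc c u)) (lc c u) y)
      - (nw ov (T.hV0 (lc c u)) + nw ou (T.hU0 (lc c u)))
  z1 : ∀ i, ∑ a, |L.Z i a| ≤ t.z1
  x1 : 0 ≤ t.x1 ∧ ∑ j, (∑ h, |D.X h j| + t.z1 * ∑ i, |D.X (D.z0 i) j|) ^ 2 ≤ t.x1 ^ 2
  nF : Nm L.F t.f
  nZ : Nm L.Z t.nZ
  nK : Nm D.K t.nK
  nU : Nm (fun a => D.U (D.th a)) t.nU
  nb : 0 ≤ t.b ∧ ∀ s, |bs s| ≤ t.b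
  hG : Nm (fun a j => mom (L.θ a) (u j) - sel D.lo a j) t.dG

/-- The sizes and signs. -/
def HatT.Ok (t : HatT) (μ' : ℝ) (n nF nt nS : ℕ) : Prop :=
  (0 < μ' ∧ 0 ≤ t.kp ∧ 0 < t.s ∧ 1 ≤ t.c1 ∧ t.ρ * t.c1 ^ 2 ≤ 1) ∧
  (0 ≤ t.eP ∧ 0 ≤ t.eT ∧ 0 ≤ t.eU ∧ 0 ≤ t.eK ∧ 0 ≤ t.eL ∧ 0 ≤ t.eZ ∧ 0 ≤ t.eY ∧ 0 ≤ t.eM) ∧
  (0 ≤ t.n ∧ 0 ≤ t.nF ∧ 0 ≤ t.nt ∧ 0 ≤ t.nS) ∧
  n ≤ t.n ^ 2 ∧ nF ≤ t.nF ^ 2 ∧ nt ≤ t.nt ^ 2 ∧ nS ≤ t.nS ^ 2

/-- The bounds of `Pass`. -/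
noncomputable def HatT.tol (t : HatT) (μ' : ℝ) : Tol where
  s := t.s
  σ := t.σ
  σ' := t.σ
  ρ := t.ρ
  g' := t.c1 ^ 2
  sh := (1 + t.s) * t.sh
  f := t.f
  nZ := t.nZ
  nU := t.nU + t.nF ^ 2 * t.eU
  nX := t.x1
  nK := t.nK + t.nF * t.n * t.eK
  b := t.b
  dG := t.dG
  dZ := 2 * t.n * t.eZ / (2 * μ') + t.nZ * (t.nF * t.n * t.eK)
  dY := t.nS * t.n * t.eY + t.b * (t.f * (t.nF * t.n * t.eK))
  dT := t.nt * (t.n * t.eT + t.x1 * t.eP)
  dW := t.nS * (t.n * t.eT + t.x1 * t.eP)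
  dU := 0
  dL := 0
  dD := 0
  dM := (1 + t.s) * (t.n ^ 2 * t.eM + (t.n * (t.eL + t.kp * t.eK) + t.x1 * t.eU) * t.x1)

section

variable {α β : Type} [Fintype α] [Fintype β] {A : α → β → ℝ}

theorem Nm.of_le {p : α → ℝ} {q : β → ℝ} {a b : ℝ} (ha : 0 ≤ a) (hb : 0 ≤ b)
    (h : ∀ i j, |A i j| ≤ p i * q j) (hp : ∑ i, p i ^ 2 ≤ a ^ 2) (hq : ∑ j, q j ^ 2 ≤ b ^ 2) :
    Nm A (a * b) := by
  refine Nm.of_frob (mul_nonneg ha hb) ((sum_le_sum fun i _ => sum_le_sum fun j _ =>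
    sq_le_sq' (abs_le.1 (h i j)).1 (abs_le.1 (h i j)).2).trans ?_)
  simp only [mul_pow, ← mul_sum, ← sum_mul]
  exact mul_le_mul hp hq (sq_nn q) (sq_nonneg a)

theorem csq {n : ℝ} (h : Fintype.card α ≤ n ^ 2) (d : ℝ) : ∑ _i : α, d ^ 2 ≤ (n * d) ^ 2 := by
  rw [sum_const, card_univ, nsmul_eq_mul, mul_pow]
  exact mul_le_mul_of_nonneg_right h (sq_nonneg d)

theorem Nm.ent {m n d : ℝ} (hm : 0 ≤ m) (hn : 0 ≤ n) (hd : 0 ≤ d) (h : ∀ i j, |A i j| ≤ d)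
    (h1 : Fintype.card α ≤ m ^ 2) (h2 : Fintype.card β ≤ n ^ 2) : Nm A (m * n * d) := by
  simpa only [mul_one, mul_assoc] using Nm.of_le (p := fun _ => 1) (q := fun _ => d) (by positivity)
    (by positivity) (fun i j => by simpa using h i j) (csq h1 1) (csq h2 d)

theorem nm_zero (h : ∀ i j, A i j = 0) : Nm A 0 := Nm.of_frob le_rfl (by simp [h])

end

theorem dot1 {α : Type} {s : Finset α} {v : α → ℝ} {d : ℝ} (h : ∀ i ∈ s, |v i| ≤ d) (w : α → ℝ) :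
    |∑ i ∈ s, w i * v i| ≤ d * ∑ i ∈ s, |w i| := by
  rw [mul_sum]
  refine (abs_sum_le_sum_abs _ _).trans (sum_le_sum fun i hi => ?_)
  rw [abs_mul, mul_comm]
  exact mul_le_mul_of_nonneg_right (h i hi) (abs_nonneg _)

/-- The coefficients of the pairs of the functionals. -/
def HatD.Xt (D : HatD L ι τ η ϱ) (a : Fin L.r) (j : ι) : ℝ :=
  D.X (D.th a) j + ∑ i, L.Z i a * D.X (D.z0 i) j

/-- The weight of a column. -/
def HatD.l (D : HatD L ι τ η ϱ) (z : ℝ) (j : ι) : ℝ := ∑ h, |D.X h j| + z * ∑ i, |D.X (D.z0 i) j|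

variable {e : κ ⊕ S ≃ τ} {e' : I ⊕ S ≃ ϱ} {D : HatD L ι τ η ϱ} {t : HatT}

open Classical in
theorem HatD.split (h : Function.Injective (Sum.elim D.th (Sum.elim D.z0 D.z1))) (φ : η → ℝ) :
    ∑ x, φ x = ∑ a, φ (D.th a) + (∑ i, φ (D.z0 i) + ∑ i, φ (D.z1 i)) + ∑ x with D.Pad x, φ x := by
  rw [← sum_filter_not_add_sum_filter univ D.Pad, show filter (fun x => ¬D.Pad x) univ =
    univ.image (Sum.elim D.th (Sum.elim D.z0 D.z1)) by
      ext x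
      simp only [HatD.Pad, mem_filter, mem_univ, true_and, mem_image, Sum.exists, Sum.elim_inl,
        Sum.elim_inr, not_and_or, not_forall, not_not],
    sum_image fun _ _ _ _ k => h k]
  simp only [Fintype.sum_sum_type, Sum.elim_inl, Sum.elim_inr]

theorem Hat.lift (h : Hat T u Y ov ou x x' e e' bg bs D t) {f : η → ℝ} {g : Fin L.r → ℝ}
    {b0 b1 : Fin 2 → ℝ} {d : ℝ} (h1 : ∀ a, |g a - f (D.th a)| ≤ d)
    (h2 : ∀ i, |∑ a, L.Z i a * f (D.th a) + b0 i - f (D.z0 i)| ≤ d)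
    (h3 : ∀ i, |b1 i - f (D.z1 i)| ≤ d) (h4 : ∀ x, D.Pad x → |f x| ≤ d) (j : ι) :
    |∑ a, D.Xt a j * g a + (∑ i, D.X (D.z0 i) j * b0 i + ∑ i, D.X (D.z1 i) j * b1 i)
      - ∑ x, D.X x j * f x| ≤ d * D.l t.z1 j := by
  classical
  have hd : 0 ≤ d := (abs_nonneg _).trans (h3 0)
  have a1 := abs_le.1 (dot1 (s := univ) (fun a _ => h1 a) fun a => D.X (D.th a) j)
  have a2 := abs_le.1 (dot1 (s := univ) (fun a _ => h2 a) fun a => D.X (D.z0 a) j)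
  have a3 := abs_le.1 (dot1 (s := univ) (fun a _ => h3 a) fun a => D.X (D.z1 a) j)
  have a4 := abs_le.1 (dot1 (s := univ.filter D.Pad) (fun a k => h4 a (mem_filter.1 k).2)
    fun a => D.X a j)
  have a5 := abs_le.1 (dot1 (s := univ) (fun i _ => (dot1 (s := univ) (fun a _ => h1 a)
    (L.Z i)).trans (mul_le_mul_of_nonneg_left (h.z1 i) hd)) fun a => D.X (D.z0 a) j)
  have e1 : ∑ a, D.Xt a j * g a
      = ∑ a, D.X (D.th a) j * g a + ∑ i, D.X (D.z0 i) j * ∑ a, L.Z i a * g a := by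
    simp only [HatD.Xt, add_mul, sum_add_distrib, Fin.sum_univ_two, mul_sum, mul_assoc]
    simp only [mul_left_comm]
  rw [HatD.l, D.split h.inj, D.split h.inj fun x => |D.X x j|, e1]
  simp only [mul_sub, mul_add, sum_sub_distrib, sum_add_distrib] at a1 a2 a3 a5
  rw [abs_le]
  constructor <;> linarith [a1.1, a1.2, a2.1, a2.2, a3.1, a3.2, a4.1, a4.2, a5.1, a5.2]

theorem Hat.lift0 (h : Hat T u Y ov ou x x' e e' bg bs D t) {f : η → ℝ} {g : Fin L.r → ℝ} {d : ℝ}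
    (h1 : ∀ a, |g a - f (D.th a)| ≤ d) (h2 : ∀ i, |∑ a, L.Z i a * f (D.th a) - f (D.z0 i)| ≤ d)
    (h3 : ∀ i, |f (D.z1 i)| ≤ d) (h4 : ∀ x, D.Pad x → |f x| ≤ d) (j : ι) :
    |∑ a, D.Xt a j * g a - ∑ x, D.X x j * f x| ≤ d * D.l t.z1 j := by
  simpa using h.lift (b0 := 0) (b1 := 0) h1 (by simpa using h2) (by simpa using h3) h4 j

theorem Hat.l1 (h : Hat T u Y ov ou x x' e e' bg bs D t) (j : ι) :
    ∑ a, |D.Xt a j| ≤ D.l t.z1 j := by
  have := h.lift0 (f := 0) (g := fun a => SignType.sign (D.Xt a j)) (d := 1)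
    (fun a => by cases SignType.sign (D.Xt a j) <;> simp) (by simp) (by simp) (by simp) j
  simp only [self_mul_sign, Pi.zero_apply, mul_zero, sum_const_zero, sub_zero, one_mul] at this
  exact le_of_abs_le this

theorem Hat.test (h : Hat T u Y ov ou x x' e e' bg bs D t) {m : ℝ} (hm : 0 ≤ m) (hn : 0 ≤ t.n)
    (hT : 0 ≤ t.eT) (hP : 0 ≤ t.eP) (h2 : Fintype.card ι ≤ t.n ^ 2) {J : Type}
    [Fintype J] (h1 : Fintype.card J ≤ m ^ 2) (r : J → τ) :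
    Nm (fun b j => p0 T ov ou (u j) (x (r b)) (x' (r b))
      + ∑ a, pP T ov ou a (x (r b)) (x' (r b)) * D.Xt a j - D.Th (r b) j)
      (m * (t.n * t.eT + t.x1 * t.eP)) := by
  refine (((Nm.ent hm hn hT (fun b j => h.t0 j (r b)) h1 h2).add (Nm.of_le (by positivity) h.x1.1
    (fun b j => h.lift0 (fun a => h.tp a (r b)) (h.zt0 · _) (h.zt1 · _) (h.zt2 · · _) j)
    (csq h1 _) h.x1.2)).congr fun b j => ?_).mono (le_of_eq (by ring))
  simp only [mul_comm (D.Xt _ _)]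
  ring

/-- The part of the last matrix that contains the pairs of the functionals. -/
noncomputable def HatD.N (D : HatD L ι τ η ϱ) (T : Tab L) (G : Fin L.r → ι → ℝ)
    (U : Fin L.r → Fin L.r → ℝ) (kp : ℝ) (j k : ι) : ℝ :=
  ∑ a, (G a j - ∑ b, D.Xt b j * U b a) * D.Xt a k
    - kp * T.μ * ∑ a, sel D.lo a j * ∑ b, Fh L a b * sel D.lo b k
    + kp / (4 * T.μ') * ∑ i, D.X (D.z0 i) j * D.X (D.z0 i) k - ∑ h, D.La h j * D.X h k

theorem Hat.err (h : Hat T u Y ov ou x x' e e' bg bs D t) (hn : 0 ≤ t.n) (hp : 0 ≤ t.kp)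
    (hK : 0 ≤ t.eK) (hL : 0 ≤ t.eL) (hU : 0 ≤ t.eU) (h2 : Fintype.card ι ≤ t.n ^ 2) :
    Nm (D.N T (fun a j => t.kp * T.k a (u j) - 2 * p0 T ov ou (u j) (T.P a) (T.Q a))
      (fun a b => wo D.o' a b * pP T ov ou a (T.P b) (T.Q b)) t.kp)
      ((t.n * (t.eL + t.kp * t.eK) + t.x1 * t.eU) * t.x1) := by
  have hd : t.eL ≤ t.eL + t.kp * t.eK := le_add_of_nonneg_right (mul_nonneg hp hK)
  have a1 := fun j k => h.lift (f := fun r => D.La r j) (g := fun a => t.kp * T.k a (u j)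
      - t.kp * T.μ * sel D.lo a j - 2 * p0 T ov ou (u j) (T.P a) (T.Q a) - ∑ r, D.U r a * D.X r j)
    (fun a => by
      have b1 := abs_le.1 (h.ll a j)
      have b2 := abs_le.1 (h.kk a j)
      exact abs_le.2 ⟨by nlinarith [b1.1, b2.1], by nlinarith [b1.2, b2.2]⟩)
    (fun i => (h.zl0 i j).trans hd) (fun i => (h.zl1 i j).trans hd)
    (fun r hr => (h.zl2 r hr j).trans hd) k
  have a2 := fun j k => (dot1 (s := univ) (fun a _ => h.lift0 (fun b => h.pp b a) (h.zu0 · _)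
    (h.zu1 · _) (h.zu2 · · _) j) fun a => D.Xt a k).trans (mul_le_mul_of_nonneg_left (h.l1 k)
      (mul_nonneg hU ((sum_nonneg fun _ _ => abs_nonneg _).trans (h.l1 j))))
  refine (((Nm.of_le (by positivity) h.x1.1 a1 (csq h2 _) h.x1.2).sub (Nm.of_le
    (mul_nonneg hU h.x1.1) h.x1.1 a2 ?_ h.x1.2)).congr fun j k => ?_).mono (le_of_eq (by ring))
  · simp only [mul_pow, ← mul_sum]
    exact mul_le_mul_of_nonneg_left h.x1.2 (sq_nonneg _)
  · have e1 : ∑ a, sel D.lo a j * D.Xt a k = ∑ a, sel D.lo a j * D.X (D.th a) k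
        + ∑ i, D.X (D.z0 i) k * D.X (D.z1 i) j := by
      simp only [HatD.Xt, h.sy2, Fin.sum_univ_two, mul_sum, ← sum_add_distrib]
      exact sum_congr rfl fun _ _ => by ring
    have e2 : ∑ a, sel D.lo a j * ∑ b, Fh L a b * sel D.lo b k = ∑ a, sel D.lo a j
        * D.X (D.th a) k + 2 * ∑ i, D.X (D.z1 i) k * D.X (D.z1 i) j := by
      have : ∀ a, ∑ b, Fh L a b * sel D.lo b k
          = D.X (D.th a) k + 2 * ∑ i, D.X (D.z1 i) k * L.Z i a := fun a => by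
        simp only [Fh, h.sy1, h.sy2, Fin.sum_univ_two, sum_mul, ← sum_add_distrib, mul_sum]
        exact sum_congr rfl fun _ _ => by ring
      simp only [this, h.sy2 _ j, Fin.sum_univ_two, ← sum_add_distrib, mul_sum]
      exact sum_congr rfl fun _ _ => by ring
    simp only [HatD.N, e2, mul_sub, sub_mul, mul_add, sum_sub_distrib, sum_add_distrib,
      mul_comm (D.Xt _ k), mul_assoc (t.kp * T.μ), ← mul_sum, e1, mul_comm (D.U _ _),
      mul_comm (D.La _ _), Fin.sum_univ_two]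
    ring

theorem Hat.pass (h : Hat T u Y ov ou x x' e e' bg bs D t) (hb : Function.Injective bg)
    (k : t.Ok T.μ' (Fintype.card ι) L.r (Fintype.card κ) (Fintype.card S)) :
    ∃ E : Lit L ι κ S (I ⊕ S), Pass T u Y ov ou (fun b => x (e (.inl b))) (fun b => x' (e (.inl b)))
      (fun s => x (e (.inr s))) (fun s => x' (e (.inr s))) bg bs E (t.kp * (1 + t.s) / 4)
      (t.tol T.μ') := by
  obtain ⟨⟨hμ, hp, hs, hc, hρ⟩, ⟨hP, hT, hU, hK, hL, hZ, hY, hM⟩, ⟨hn, hF, ht, hS⟩,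
    c1, c2, c3, c4⟩ := k
  rw [← Fintype.card_fin L.r] at c2
  have hz : 0 ≤ 1 + t.s := by linarith
  have hc0 : 0 < t.c1 := by linarith
  have hX : Xt T D.lo (fun i j => -D.X (D.z0 i) j / (2 * T.μ')) = D.Xt := by
    funext a j
    simp only [Xt, HatD.Xt, h.sy1, Fin.sum_univ_two]
    field_simp
    ring
  have nk := Nm.ent hF hn hK h.kk c2 c1
  let E : (ι → ι → ℝ) → Lit L ι κ S (I ⊕ S) := fun Sk =>
    ⟨D.lo, fun _ => 0, D.o', fun i j => -D.X (D.z0 i) j / (2 * T.μ'),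
      fun s j => (t.c1 * D.R (e' (.inr s)) j - D.Th (e (.inr s)) j) / t.c1 ^ 2,
      fun b => D.Th (e (.inl b)), fun s => D.Th (e (.inr s)),
      fun a b => wo D.o' a b * pP T ov ou a (T.P b) (T.Q b),
      fun a j => 4 * (t.kp * (1 + t.s) / 4) * T.k a (u j)
        - 2 * (1 + t.s) * p0 T ov ou (u j) (T.P a) (T.Q a),
      fun j k => (1 + t.s) * D.Q j k, fun j k => mD T.n (Y j) (Y k),
      Sum.elim (fun r j => √(1 + t.s) * D.R (e' (.inl r)) j)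
        fun s j => √((1 + t.s) * (1 / t.c1 ^ 2 - t.ρ)) * D.Th (e (.inr s)) j, Sk⟩
  let N := (E 0).M T (4 * (t.kp * (1 + t.s) / 4)) (1 + t.s) t.ρ (t.c1 ^ 2) ((1 + t.s) * t.sh)
  refine ⟨E fun j k => (N j k - N k j) / 2, h.lo, fun j k => by simp only [E]; ring, h.nF, h.nZ,
    ?_, ?_, ?_, h.nb, h.hG, ?_, ?_, ?_, ?_, nm_zero fun _ _ => sub_self _,
    nm_zero fun _ _ => sub_self _, fun j k => congrArg _ (h.sQ j k), fun c => ?_,
    nm_zero fun j k => by simp [E, wo], ?_⟩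
  · exact ((h.nU.add (Nm.ent hF hF hU h.pp c2 c2)).congr fun a b => by simp only [E]; ring).mono
      (le_of_eq (by simp only [HatT.tol]; ring))
  · simp only [E, hX]
    refine Nm.of_frob h.x1.1 (sum_comm.trans_le ((sum_le_sum fun j _ => ?_).trans h.x1.2))
    simp only [← sq_abs (D.Xt _ j)]
    exact (sum_sq_le_sq_sum_of_nonneg fun _ _ => abs_nonneg _).trans
      (pow_le_pow_left₀ (sum_nonneg fun _ _ => abs_nonneg _) (h.l1 j) 2)
  · exact (h.nK.add nk).congr fun a j => by ring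
  · refine ((((Nm.ent zero_le_two hn hZ h.zk (by norm_num) c1).smul (1 / (2 * T.μ'))).add
      (h.nZ.mul nk)).congr fun i j => ?_).mono (le_of_eq ?_)
    · simp only [E, mul_sub, sum_sub_distrib]
      field_simp
      ring
    · rw [abs_of_pos (by positivity), HatT.tol, one_div_mul_eq_div]
  · refine ((((Nm.ent hS hn hY h.vy c4 c1).smul (1 / t.c1 ^ 2)).add
      ((nm_sel hb h.nb.1 h.nb.2).mul (h.nF.mul nk))).congr fun s j => ?_).mono ?_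
    · simp only [E, mul_assoc (bs s), ← mul_sum, sel_vec]
      simp only [mul_sub, sum_sub_distrib]
      field_simp
      ring
    · rw [abs_of_pos (by positivity), one_div_mul_eq_div]
      exact add_le_add_left (div_le_self (by positivity) (one_le_pow₀ hc)) _
  · simpa only [E, hX, HatT.tol] using h.test ht hn hT hP c1 c3 fun b => e (.inl b)
  · simpa only [E, hX, HatT.tol] using h.test hS hn hT hP c1 c4 fun b => e (.inr b)
  · have := mul_le_mul_of_nonneg_left (h.hQ c) hz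
    simp only [E, mul_assoc (1 + t.s), ← mul_sum, HatT.tol]
    linarith
  · have nC : Nm (D.C T Y t.kp t.ρ t.sh) (t.n * t.n * t.eM) := Nm.ent hn hn hM (fun j k => by
      rcases le_total (D.o j) (D.o k) with o | o
      · exact h.mm j k o
      · convert h.mm k j o using 2
        simp only [HatD.C, h.sQ j k, eq_comm (a := j), mul_comm (D.Th _ j), mul_comm (D.R _ j),
          mul_comm (D.X _ j), mul_comm (D.La _ j)]
        ring) c1 c1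
    have nE := h.err hn hp hK hL hU c1
    refine (((nC.add ((nE.add nE.tr).smul (1 / 2))).smul (1 + t.s)).congr fun j k => ?_).mono
      (le_of_eq ?_)
    · have e0 : (E fun j k => (N j k - N k j) / 2).M T (4 * (t.kp * (1 + t.s) / 4)) (1 + t.s) t.ρ
          (t.c1 ^ 2) ((1 + t.s) * t.sh) j k = N j k - (N j k - N k j) / 2 := by
        simp only [N, E, Lit.M, Pi.zero_apply, sub_zero]
      have e1 : ∀ (r : ℝ) (A : ι → ℝ) (j k : ι), 0 ≤ r → √r * A j * (√r * A k) = r * (A j * A k) :=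
        fun r A j k hr => by rw [mul_mul_mul_comm, Real.mul_self_sqrt hr]
      have h1 : 0 ≤ (1 + t.s) * (1 / t.c1 ^ 2 - t.ρ) :=
        mul_nonneg hz (sub_nonneg.2 ((le_div_iff₀ (by positivity)).2 hρ))
      have e2 : ∀ j k, N j k = (1 + t.s) * (D.Q j k + t.kp * T.ν * mD T.n (Y j) (Y k)
          + t.ρ * ∑ r, D.Th r j * D.Th r k - ∑ r, D.R r j * D.R r k - (if j = k then t.sh else 0)
          + ∑ r, D.La r j * D.X r k + D.N T (fun a j => t.kp * T.k a (u j)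
            - 2 * p0 T ov ou (u j) (T.P a) (T.Q a))
            (fun a b => wo D.o' a b * pP T ov ou a (T.P b) (T.Q b)) t.kp j k
          + (∑ s, D.Th (e (.inr s)) j * D.R (e' (.inr s)) k
            - ∑ s, D.Th (e (.inr s)) k * D.R (e' (.inr s)) j) / t.c1) := fun j k => by
        have e3 : ∀ s, (t.c1 * D.R (e' (.inr s)) j - D.Th (e (.inr s)) j) / t.c1 ^ 2
            * (2 * D.Th (e (.inr s)) k + t.c1 ^ 2
              * ((t.c1 * D.R (e' (.inr s)) k - D.Th (e (.inr s)) k) / t.c1 ^ 2))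
            = D.R (e' (.inr s)) j * D.R (e' (.inr s)) k
              - 1 / t.c1 ^ 2 * (D.Th (e (.inr s)) j * D.Th (e (.inr s)) k)
              - 1 / t.c1 * (D.Th (e (.inr s)) j * D.R (e' (.inr s)) k)
              + 1 / t.c1 * (D.Th (e (.inr s)) k * D.R (e' (.inr s)) j) := fun s => by
          field_simp
          ring
        have e4 : ∀ a, (4 * (t.kp * (1 + t.s) / 4) * T.k a (u j)
            - 2 * (1 + t.s) * p0 T ov ou (u j) (T.P a) (T.Q a) - (1 + t.s)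
              * ∑ b, D.Xt b j * (wo D.o' b a * pP T ov ou b (T.P a) (T.Q a))) * D.Xt a k
            = (1 + t.s) * ((t.kp * T.k a (u j) - 2 * p0 T ov ou (u j) (T.P a) (T.Q a)
              - ∑ b, D.Xt b j * (wo D.o' b a * pP T ov ou b (T.P a) (T.Q a))) * D.Xt a k) :=
          fun a => by ring
        simp only [N, E, Lit.M, hX, HatD.N, ← e.sum_comp, ← e'.sum_comp, Fintype.sum_sum_type,
          Sum.elim_inl, Sum.elim_inr, e1 _ _ _ _ hz, e1 _ _ _ _ h1, e3, e4, Pi.zero_apply,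
          sum_add_distrib, sum_sub_distrib, ← mul_sum, Fin.sum_univ_two,
          show wo (fun _ : ι => 0) j k = 1 by simp [wo]]
        split_ifs <;> field_simp <;> ring
      refine e0.trans ?_
      simp only [e2, HatD.C, h.sQ k j, eq_comm (a := k), mul_comm (D.Th _ k) (D.Th _ j),
        mul_comm (D.R _ k) (D.R _ j), mul_comm (D.X _ j)]
      ring
    · rw [abs_of_nonneg hz, abs_of_pos one_half_pos, HatT.tol]
      ring

end Pool.Agent.Work.MP_6bf1e5_an.H.Ca
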