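import Pool.Agent.Work.MP_6bf1e5_an.H.PwTh
import Pool.Agent.Work.MP_6bf1e5_an.H.JetFam
import Pool.Agent.Work.MP_6bf1e5_an.H.PassSem
import Pool.Agent.Lib.KRad.SupS

/-! The pointwise bound for the curls of the functionals, from the checks. -/

open Set Polynomial Pool.Agent.Lib.KLA Pool.Agent.Lib.KBlk Pool.Agent.Lib.KRad

namespace Pool.Agent.Work.MP_6bf1e5_an.H

variable {W J k b q K x j : ℕ} {T : RT} {P : ℕ → ℝ[X]} {σ : ℝ} {s : ℕ → ℤ} {y : R3}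

theorem rep_ls (h : Rep W J T fun j => C σ * P j) (hW : 0 < W) (a b : ℕ) :
    Rep W J (ls W J a b T) fun j => C (4 * σ) * LS (-a) b (P j) :=
  (h.ls hW a b).congr fun j _ => by
    simp only [LS, derivative_C_mul, map_mul, map_ofNat]
    ring

/-- A block of class one; the table holds `σ` times the profiles in the variable `1 - t ^ 4`. -/
theorem pt_blk1 (hT : Rep W J T fun j => C σ * P j) (hσ : 0 < σ) (hW : 0 < W) (hx : Vec W J K x s)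
    (h : pw1 W J k b q K x T = true) (hj : j < J) (hy : Off y) :
    dot (curl (jT k 7 (qX * (P j).comp qX))) (curl (jT k 7 (qX * (P j).comp qX))) y
      ≤ (2 ^ q * (s j + K) / (512 * σ)) ^ 2 * tau 1 y ^ 12 := by
  rw [pw1, bnd_iff] at h
  have h0 : (0 : ℝ) < (512 * σ) ^ 2 := by positivity
  refine pt_one (fun z hz => ?_) (fun z hz => ?_) hy
  · rw [div_pow, le_div_iff₀ h0]
    refine le_of_eq_of_le ?_ (hT.sup_sn hW h.1 hx hj hz)
    simp only [Nat.mul_eq, Nat.cast_mul, lk_eq, lK, eval_mul, eval_C, Nat.cast_ofNat]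
    ring
  · rw [div_pow, le_div_iff₀ h0]
    refine le_of_eq_of_le ?_ ((rep_ls hT hW 5 11).sup_sn hW h.2 hx hj hz)
    simp only [Nat.mul_eq, Nat.add_eq, eval_mul, eval_C]
    push_cast
    ring

/-- A block of class zero. -/
theorem pt_blk0 (hT : Rep W J T fun j => C σ * P j) (hσ : 0 < σ) (hW : 0 < W) (hx : Vec W J K x s)
    (h : pw0 W J k b q K x T = true) (hj : j < J) (hy : Off y) :
    dot (curl (jM k 13 (C (-lK k) * (P j).comp qX) (C (-1 / 2) * LX (-5) 11 ((P j).comp qX))))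
      (curl (jM k 13 (C (-lK k) * (P j).comp qX) (C (-1 / 2) * LX (-5) 11 ((P j).comp qX)))) y
      ≤ (2 ^ q * (s j + K) / (512 * σ)) ^ 2 * tau 1 y ^ 12 := by
  refine pt_zero (fun z hz => ?_) hy
  have h0 : (0 : ℝ) < 512 * σ := by positivity
  rw [le_div_iff₀ h0, ← abs_of_pos h0, ← abs_mul]
  refine le_of_eq_of_le ?_ (((((hT.sml _).add ((rep_ls (rep_ls hT hW 5 11) hW 11 15).neg hW)).stm
    hW).stm hW).sup_l1 h hx hj hz)
  rw [← Nat.abs_cast (R := ℝ) (Nat.add k 1), ← abs_mul]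
  simp only [Nat.mul_eq, Nat.add_eq, Nat.cast_mul, lk_eq, lK, eval_mul, eval_C, eval_add, eval_neg,
    eval_sub, eval_ofNat, eval_one, eval_X]
  push_cast
  congr 1
  ring

/-- A block of the family of functionals. -/
theorem pt_thF {V d c o z : ℕ}
    (hT : Rep W J T fun j => C σ * (X ^ k * (1 - X) ^ k * (P j).comp (2 * X - 1))) (hσ : 0 < σ)
    (hW : 0 < W) (hd : 0 < d) (hV : d ≤ V) (hc : c < 2) (h : pwB V W J d b q c k o z T = true)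
    (hj : j < J) (hy : Off y) : dot (curl (Jf.thF c k (P j))) (curl (Jf.thF c k (P j))) y
      ≤ (3 * 2 ^ q / (512 * σ) * bits z (V * (o + j)) d) ^ 2 * tau 1 y ^ 12 := by
  have hT' : Rep W J T fun j => C (σ / 3) * (3 * (X ^ k * (1 - X) ^ k * (P j).comp (2 * X - 1))) :=
    hT.congr fun j _ => by
      rw [← mul_assoc, ← map_ofNat C, ← map_mul, div_mul_cancel₀ _ three_ne_zero]
  have e : (3 * (X ^ k * (1 - X) ^ k * (P j).comp (2 * X - 1))).comp qX = 3 * Jf.cS k k (P j) := by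
    rw [mul_comp, ofNat_comp, Jf.cS]
    rfl
  have e' : (3 * 2 ^ q / (512 * σ) * bits z (V * (o + j)) d : ℝ) =
      2 ^ q * ((((bits z (V * (o + j)) d : ℤ) - 2 ^ (d - 1) : ℤ) : ℝ) + (2 ^ (d - 1) : ℕ))
        / (512 * (σ / 3)) := by
    push_cast
    field_simp
    ring
  simp only [pwB, strict_eq, cnd_eq, Nat.beq_eq, shl_eq, one_mul, Nat.mul_eq, Nat.sub_eq] at h
  rw [e']
  split_ifs at h with h0
  · have := pt_blk0 hT' (by positivity) hW (vec_dig hd hV W o J z) h hj hy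
    refine le_of_eq_of_le ?_ this
    have e1 : ∀ i, curl (Jf.thF c k (P j)) i y = curl (jM k (6 + 7)
        (C (-lK k) * (3 * Jf.cS k k (P j))) (C (-1 / 2) * LX (-5) 11 (3 * Jf.cS k k (P j)))) i y :=
      curl_congr_ne (fun y hy i => by
        rw [h0, Jf.th0_eq hy, jM_pow]
        congr 1
        · simp only [Jf.fA, map_mul, map_neg, map_ofNat]
          ring
        · rw [Jf.fB, show (3 / 2 : ℝ) = -(-1 / 2 * 3) by norm_num]
          simp only [LX, map_mul, map_neg, map_ofNat, derivative_mul, derivative_ofNat]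
          ring) hy.ne_zero
    simp only [dot, e1, e]
  · have := pt_blk1 hT' (by positivity) hW (vec_dig hd hV W o J z) h hj hy
    rw [e] at this
    rw [show c = 1 by omega, Jf.th1_eq, show qX * (3 * X * Jf.cS k k (P j))
      = X ^ 1 * (qX * (3 * Jf.cS k k (P j))) by ring, ← jT_pow]
    exact this

theorem pt_inj {r N : ℕ} {π : Fin r → ℕ} (hπ : Function.Injective π) (hN : ∀ a, π a < N)
    {f : ℕ → ℝ} (hf : ∀ j, 0 ≤ f j) : ∑ a, f (π a) ≤ ∑ j ∈ Finset.range N, f j := by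
  rw [← Finset.sum_image (s := Finset.univ) (g := π) fun _ _ _ _ h => hπ h]
  refine Finset.sum_le_sum_of_subset_of_nonneg (fun j hj => ?_) fun j _ _ => hf j
  obtain ⟨a, -, rfl⟩ := Finset.mem_image.1 hj
  exact Finset.mem_range.2 (hN a)

/-- The field of `Static` from stored matrices: row `ρ a` and column `π a` belong to member `a`. -/
theorem pwθ_mat {L : Lyap} (hL : L.Good) {n N : ℕ} {ρ π : Fin L.r → ℕ} (hρ : Function.Injective ρ)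
    (hn : ∀ a, ρ a < n) (hπ : Function.Injective π) (hN : ∀ a, π a < N) {A Z : ℕ → ℕ → ℤ}
    {α ζ κ : ℝ} (hκ : 0 ≤ κ) (hF : ∀ a b, |L.F a b| ≤ α * |A (ρ a) (π b)|)
    (hZ : ∀ i a, |L.Z i a| ≤ ζ * |Z (ρ a) i|) (hα : 0 ≤ α) (hζ : 0 ≤ ζ) {w : ℕ → ℕ}
    (h : ∀ a y, Off y → dot (curl (L.θ a)) (curl (L.θ a)) y ≤ (κ * w (ρ a)) ^ 2 * tau 1 y ^ 12)
    {c c' : ℕ} (h1 : ∑ j ∈ Finset.range N, (∑ k ∈ Finset.range n, |A k j| * w k) ^ 2 ≤ c)
    (h2 : ∑ j ∈ Finset.range 2, (∑ k ∈ Finset.range n, |Z k j| * w k) ^ 2 ≤ c') {D : ℝ}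
    (hD : κ ^ 2 * (α ^ 2 * c + ζ ^ 2 * c') ≤ 8 * D ^ 2) (y : R3) :
    ∑ a, dot (curl (L.θF a)) (curl (L.θF a)) y + ∑ a, dot (curl (L.θZ a)) (curl (L.θZ a)) y
      ≤ D ^ 2 * Om y ^ 3 := by
  have s0 : ∀ a, 0 ≤ κ * w (ρ a) := fun a => mul_nonneg hκ (Nat.cast_nonneg _)
  refine pwθ_of hL s0 h (le_trans ?_ hD) y
  have key : ∀ (M : ℕ → ℕ → ℤ) (β : ℝ) (j : ℕ) (f : Fin L.r → ℝ), 0 ≤ β →
      (∀ b, |f b| ≤ β * |M (ρ b) j|) → (∑ b, |f b| * (κ * w (ρ b))) ^ 2 ≤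
        κ ^ 2 * (β ^ 2 * (∑ k ∈ Finset.range n, |(M k j : ℝ)| * w k) ^ 2) := by
    intro M β j f hβ hf
    have t := pt_inj hρ hn (f := fun k => |(M k j : ℝ)| * w k) fun _ => by positivity
    rw [← mul_pow, ← mul_pow, ← mul_assoc]
    refine pow_le_pow_left₀ (Finset.sum_nonneg fun b _ => mul_nonneg (abs_nonneg _) (s0 b))
      (le_trans ?_ (mul_le_mul_of_nonneg_left t (mul_nonneg hκ hβ))) 2
    rw [Finset.mul_sum]
    refine Finset.sum_le_sum fun b _ => (mul_le_mul_of_nonneg_right (hf b) (s0 b)).trans_eq ?_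
    push_cast
    ring
  have k1 : ∑ j ∈ Finset.range N, (∑ k ∈ Finset.range n, |(A k j : ℝ)| * w k) ^ 2 ≤ c := by
    exact_mod_cast h1
  have k2 : ∑ j ∈ Finset.range 2, (∑ k ∈ Finset.range n, |(Z k j : ℝ)| * w k) ^ 2 ≤ c' := by
    exact_mod_cast h2
  rw [Finset.sum_range] at k2
  rw [mul_add]
  refine add_le_add ((Finset.sum_le_sum fun a _ => key A α (π a) _ hα fun b => by
    rw [hL.2.1]; exact hF b a).trans ?_) ((Finset.sum_le_sum fun (i : Fin 2) _ =>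
      key Z ζ i _ hζ (hZ i)).trans ?_)
  all_goals
    rw [← Finset.mul_sum, ← Finset.mul_sum]
    refine mul_le_mul_of_nonneg_left (mul_le_mul_of_nonneg_left ?_ (sq_nonneg _)) (sq_nonneg _)
  exacts [(pt_inj hπ hN fun _ => sq_nonneg _).trans k1, k2]

/-- The check of a block of `J` members, whose bounds are stored from position `o` on. -/
def PwB (U d z : ℕ) (κ : ℝ) (J c k o : ℕ) (P : ℕ → ℝ[X]) : Prop :=
  ∃ (W b q : ℕ) (T : RT) (σ : ℝ), 0 < σ ∧ 0 < W ∧ 3 * 2 ^ q ≤ κ * (512 * σ) ∧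
    Rep W J T (fun j => C σ * (X ^ k * (1 - X) ^ k * (P j).comp (2 * X - 1))) ∧
    pwB U W J d b q c k o z T = true

/-- The field of `Static` from the checks. -/
theorem pwθ_lay {L : Lyap} (hL : L.Good) {H A : Lay} {Q : ℕ → ℕ → ℕ → ℝ[X]} (hr : L.r ≤ H.N)
    (hθ : ∀ a : Fin L.r, L.θ a = Jf.thF (H.mem a).2.1 ((H.mem a).1 - 1)
      (Q (H.mem a).1 (H.mem a).2.1 (H.mem a).2.2))
    {U d z : ℕ} {κ : ℝ} (hκ : 0 ≤ κ) (hd : 0 < d) (hU : d ≤ U)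
    (hB : ∀ b c, H.Has b c → 0 < H.J b c →
      PwB U d z κ (H.J b c) c (b - 1) (16 + H.pos b c 0) (Q b c))
    {π : Fin L.r → ℕ} (hπ : Function.Injective π) (hN : ∀ a, π a < A.N) {V n sF sZ : ℕ}
    {Xh : ℕ → Chk} {Zc : Chk} (hn : 16 + L.r ≤ 16 * n)
    (hF : ∀ a b, L.F a b = pent V A Xh (16 + a) (π b) / 2 ^ sF)
    (hZ : ∀ i a, L.Z i a = Zc.ent V (16 + a) i / 2 ^ sZ) {K e t w p K' e' t' w' B' : ℕ}
    {B : List ℕ} (h1 : All (pwP U V K e d t w n A Xh z B) p)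
    (h2 : pwZ U V K' e' d t' n Zc z B' = true)
    (k1 : A.nq ≤ A.q * p ∧ K < 2 ^ e ∧ e + 1 ≤ V ∧ 16 * n * 2 ^ (d + e) ≤ 2 ^ (w + t) ∧ w + t < V)
    (k2 : K' < 2 ^ e' ∧ e' + 1 ≤ V ∧ 16 * n * 2 ^ (d + e') ≤ 2 ^ (w' + t') ∧ w' + t' < V ∧
      2 * (2 ^ w' + 1) ^ 2 + 1 < 2 ^ V) {D : ℝ}
    (hD : κ ^ 2 * (4 ^ t * (Lib.KRad.sumF (lget B) p : ℕ) / 4 ^ sF + 4 ^ t' * B' / 4 ^ sZ) ≤ 8 * D ^ 2)
    (y : R3) :
    ∑ a, dot (curl (L.θF a)) (curl (L.θF a)) y + ∑ a, dot (curl (L.θZ a)) (curl (L.θZ a)) y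
      ≤ D ^ 2 * Om y ^ 3 := by
  have e : ∀ (x : ℤ) (s : ℕ), |(x / 2 ^ s : ℝ)| ≤ 1 / 2 ^ s * (|x| : ℤ) := fun x s => by
    rw [abs_div, abs_of_pos (by positivity : (0 : ℝ) < 2 ^ s), Int.cast_abs, one_div_mul_eq_div]
  refine pwθ_mat hL (ρ := fun a => 16 + a) (fun a b h => Fin.ext (by simpa using h))
    (fun a => by have := a.2; omega) hπ hN hκ (fun a b => hF a b ▸ e _ _) (fun i a => hZ i a ▸ e _ _)
    (by positivity) (by positivity) (w := fun k => bits z (U * k) d) (fun a y hy => ?_)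
    (pwP_sound h1 k1.1 k1.2.1 k1.2.2.1 (by omega) hU k1.2.2.2.1 k1.2.2.2.2)
    (pwZ_sound h2 k2.1 k2.2.1 (by omega) hU k2.2.2.1 k2.2.2.2.1 k2.2.2.2.2) (le_of_eq_of_le ?_ hD) y
  · obtain ⟨m1, m2, m3⟩ := Lay.mem_spec (a.2.trans_le hr)
    obtain ⟨W, b, q, T, σ, hσ, hW, c1, c2, c3⟩ := hB _ _ m1 (by omega)
    have := pt_thF c2 hσ hW hd hU m1.2.2 c3 m2 hy
    rw [add_assoc, Lay.pos_add, m3, ← hθ] at this
    refine this.trans (mul_le_mul_of_nonneg_right (pow_le_pow_left₀ (by positivity)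
      (mul_le_mul_of_nonneg_right ?_ (Nat.cast_nonneg _)) 2) (by positivity))
    exact (div_le_iff₀ (by positivity)).2 c1
  · have e4 : ∀ s : ℕ, (1 / 2 ^ s : ℝ) ^ 2 = 1 / 4 ^ s := fun s => by
      rw [div_pow, one_pow, ← pow_mul, mul_comm, pow_mul]
      norm_num
    rw [e4, e4]
    push_cast
    ring

/-- The same for the stored matrices of the passes. -/
theorem pwθ_dat {L : Lyap} (hL : L.Good) {D : Ps.Dat} (ok : D.Ok) {Q : ℕ → ℕ → ℕ → ℝ[X]}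
    (hr : L.r = D.Ah.N) (hθ : ∀ a : Fin L.r, L.θ a = Jf.thF (D.Ah.mem a).2.1 ((D.Ah.mem a).1 - 1)
      (Q (D.Ah.mem a).1 (D.Ah.mem a).2.1 (D.Ah.mem a).2.2))
    (hF : ∀ a b, L.F a b = D.f a b) (hZ : ∀ i a, L.Z i a = D.z i a)
    {U d z : ℕ} {κ : ℝ} (hκ : 0 ≤ κ) (hd : 0 < d) (hU : d ≤ U)
    (hB : ∀ b c, D.Ah.Has b c → 0 < D.Ah.J b c →
      PwB U d z κ (D.Ah.J b c) c (b - 1) (16 + D.Ah.pos b c 0) (Q b c))
    {e t w e' t' w' B' : ℕ} {B : List ℕ} (h1 : All (pwP U D.V D.kX e d t w D.c1 D.Am D.X z B) D.nm)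
    (h2 : pwZ U D.V D.kZ e' d t' D.c1 D.Zc z B' = true)
    (k1 : D.Am.nq ≤ D.Am.q * D.nm ∧ D.kX < 2 ^ e ∧ e + 1 ≤ D.V ∧
      16 * D.c1 * 2 ^ (d + e) ≤ 2 ^ (w + t) ∧ w + t < D.V)
    (k2 : D.kZ < 2 ^ e' ∧ e' + 1 ≤ D.V ∧ 16 * D.c1 * 2 ^ (d + e') ≤ 2 ^ (w' + t') ∧ w' + t' < D.V ∧
      2 * (2 ^ w' + 1) ^ 2 + 1 < 2 ^ D.V) {C : ℝ}
    (hC : κ ^ 2 * (4 ^ t * (Lib.KRad.sumF (lget B) D.nm : ℕ) / 4 ^ D.sX + 4 ^ t' * B' / 4 ^ D.sZ)
      ≤ 8 * C ^ 2) (y : R3) :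
    ∑ a, dot (curl (L.θF a)) (curl (L.θF a)) y + ∑ a, dot (curl (L.θZ a)) (curl (L.θZ a)) y
      ≤ C ^ 2 * Om y ^ 3 := by
  have m := fun a : Fin L.r => ok.lo_mem (a.2.trans_eq hr)
  refine pwθ_lay hL hr.le hθ hκ hd hU hB (π := fun a => D.lo a) (fun a b h => Fin.ext ?_)
    (fun a => (m a).1) (hr ▸ ok.n1) hF hZ h1 h2 k1 k2 hC y
  rw [← (Lay.mem_spec (a.2.trans_eq hr)).2.2, ← (Lay.mem_spec (b.2.trans_eq hr)).2.2, ← (m a).2,
    ← (m b).2, show D.lo a = D.lo b from h]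

end Pool.Agent.Work.MP_6bf1e5_an.H
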