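import Pool.Agent.Work.MP_6bf1e5_an.H.PassND
import Pool.Agent.Work.MP_6bf1e5_an.H.PassP
import Pool.Agent.Work.MP_6bf1e5_an.H.PassT
import Pool.Agent.Work.MP_6bf1e5_an.H.PwThK
import Pool.Agent.Work.MP_6bf1e5_an.H.CertCoer
import Pool.Agent.Work.MP_6bf1e5_an.H.Asm
import Pool.Agent.Lib.KRad.FroS

/-! The norms of the stored matrices and the coercivity (owner helper77). -/

open Finset Pool.Agent.Lib Pool.Agent.Lib.KBlk Pool.Agent.Lib.KLA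

namespace Pool.Agent.Work.MP_6bf1e5_an.H.Ps

open Ca

/-- The conditions for a sum of squares. -/
def FrOk (V K s d : ℕ) : Prop :=
  0 < s ∧ 0 < d ∧ s + d + 1 ≤ V ∧ K + 2 ^ (s + d + 2) ≤ 2 ^ V ∧ 2 * K < 2 ^ V

instance (V K s d : ℕ) : Decidable (FrOk V K s d) := by
  unfold FrOk
  infer_instance

variable {D : Dat} {V K s d R g P e b q a r : ℕ} {B : List ℕ} {A : Lay} {Z : ℕ → Chk} {f : ℝ}

theorem sI_ok (hV : 0 < V) (hK : 2 * K < 2 ^ V) : (sI K).Ok V K :=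
  ⟨hV, by simp [sI], by simpa [sI] using hK⟩

theorem tNm_ok {n : ℕ} (hV : 0 < V) (hK : 2 * K < 2 ^ V)
    (hZ : (Z (A.pb b)).ok V K (16 * n) = true) (hn : 16 + a + r ≤ 16 * n) (hf : A.fit b q = true) :
    TOk V (tot A.J q b) r (tNm V K A Z b q a r) K
      (fun k m => pent V A Z (16 + (a + k)) (A.st b + m)) 1 := by
  have := tRow_ok (sI_ok hV hK) hZ hn hf
  simp only [sI, Scl.val, one_mul, add_assoc] at this
  exact this.congr (fun _ _ _ _ => by simp) le_rfl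

theorem nm_all {m n : ℕ → ℕ} (hZ : Fit V K A m Z) (k : FrOk V K s d) (hg : 0 < g)
    (h : All (KRad.froP V K s d R g A (tNm V K A Z) n B) (g * P)) (hP : A.nq ≤ A.q * P)
    (hn : ∀ b q, A.fit b q = true → 16 + n (A.pb b) ≤ 16 * m (A.pb b)) {t : ℕ}
    (hf : 4 ^ s * (KRad.sumF (lget B) (g * P) : ℕ) ≤ f ^ 2 * 4 ^ t) :
    ∑ j ∈ range A.N, ∑ k ∈ range (n (A.pan j)), ((pent V A Z (16 + k) j : ℝ) / 2 ^ t) ^ 2
      ≤ f ^ 2 := by
  obtain ⟨k1, k2, k3, k4, k5⟩ := k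
  have := (KRad.froP_sound (G := fun k j => pent V A Z (16 + k) j) h hP hg (fun b q a r hb hr =>
    tNm_ok (by omega) k5 (hZ.at hb) (by have := hn b q hb; omega) hb) (one_le_pow₀ one_le_two)
    k2 k3 k4).trans hf
  simp only [div_pow, ← sum_div]
  rwa [div_le_iff₀ (by positivity), ← pow_mul, mul_comm t, pow_mul, show (2 : ℝ) ^ 2 = 4 by norm_num]

theorem fro_lo (h : D.Ok) {G : ℕ → ℕ → ℝ}
    (k : ∑ j ∈ range D.Am.N, ∑ a ∈ range D.Ah.N, G a j ^ 2 ≤ f) :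
    ∑ a : Fin D.Ah.N, ∑ b : Fin D.Ah.N, G a (D.lo b) ^ 2 ≤ f := by
  rw [sum_comm]
  simp only [sum_range (n := D.Ah.N)] at k
  exact (pt_inj (π := fun b : Fin D.Ah.N => D.lo b) (fun a b e => Fin.ext (mem_inj a.2 b.2 (by
    rw [← (h.lo_mem a.2).2, ← (h.lo_mem b.2).2]
    exact congrArg _ e))) (fun b => (h.lo_mem b.2).1) fun _ => by positivity).trans k

/-- The squares of the entries of `F`. -/
theorem fro_F (h : D.Ok) (k : FrOk D.V D.kX s d) (hg : 0 < g) (c : All (fNF D s d R g B) (g * P))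
    (hP : D.Am.nq ≤ D.Am.q * P)
    (hf : 4 ^ s * (KRad.sumF (lget B) (g * P) : ℕ) ≤ f ^ 2 * 4 ^ D.sX) :
    ∑ a : Fin D.Ah.N, ∑ b : Fin D.Ah.N, D.f a b ^ 2 ≤ f ^ 2 :=
  fro_lo h (G := fun a j => D.x (16 + a) j) (nm_all h.X k hg c hP (fun _ _ _ => h.n1) hf)

theorem nF_all (h : D.Ok) (k : FrOk D.V D.kX s d) (hg : 0 < g) (c : All (fNF D s d R g B) (g * P))
    (hP : D.Am.nq ≤ D.Am.q * P) (h0 : 0 ≤ f)
    (hf : 4 ^ s * (KRad.sumF (lget B) (g * P) : ℕ) ≤ f ^ 2 * 4 ^ D.sX) :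
    Nm (fun a b : Fin D.Ah.N => D.f a b) f := .of_frob h0 (fro_F h k hg c hP hf)

theorem nK_all (h : D.Ok) (k : FrOk D.V D.kK s d) (hg : 0 < g) (c : All (fNK D s d R g B) (g * P))
    (hP : D.Am.nq ≤ D.Am.q * P) (h0 : 0 ≤ f)
    (hf : 4 ^ s * (KRad.sumF (lget B) (g * P) : ℕ) ≤ f ^ 2 * 4 ^ D.sK) :
    Nm (fun (a : Fin D.Ah.N) (j : Fin D.Am.N) => D.k (16 + a) j) f := by
  have := nm_all h.K k hg c hP (fun _ _ _ => h.n1) hf
  simp only [sum_range] at this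
  exact .of_frob h0 (sum_comm.trans_le this)

theorem nU_all (h : D.Ok) (k : FrOk D.V D.kU s d) (hg : 0 < g) (c : All (fNU D s d R g B) (g * P))
    (hP : D.Ah.nq ≤ D.Ah.q * P) (h0 : 0 ≤ f)
    (hf : 4 ^ s * (KRad.sumF (lget B) (g * P) : ℕ) ≤ f ^ 2 * 4 ^ D.sU) :
    Nm (fun a b : Fin D.Ah.N => D.u (16 + a) b) f := by
  have := nm_all h.U k hg c hP (fun b _ hb => by
    have := (h.cU b 0 ⟨(Lay.fit_has hb).1, (Lay.fit_has hb).2, two_pos⟩).2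
    simp only [Nat.mul_eq, Nat.sub_eq]
    omega) hf
  rw [sum_range] at this
  refine .of_frob h0 (sum_comm.trans_le (le_trans (sum_le_sum fun j _ => ?_) this))
  rw [← sum_range fun a => D.u (16 + a) j ^ 2]
  simp only [Dat.u, ite_pow, zero_pow two_ne_zero, ← sum_filter, Nat.mul_eq, Nat.sub_eq]
  exact sum_le_sum_of_subset_of_nonneg (fun a ha => by
    simp only [mem_filter, mem_range] at ha ⊢
    omega) fun _ _ _ => sq_nonneg _

theorem mat_zR (h : D.Ok) : Mat D.V 2 D.kZ (16 * D.c1) (zR D) fun k j => D.Zc.ent D.V k j := by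
  simpa [zR] using mat_ld (c0 := 0) (c := D.c1) h.Zc 0 2 (by omega)

theorem tZc_ok (h : D.Ok) (hV : 0 < D.V) (hK : 2 * D.kZ < 2 ^ D.V) :
    TOk D.V D.Ah.N 2 (tZc D) D.kZ (fun i a => 2 ^ D.sZ * D.z i a) 1 := by
  have := tL_ok (J := 2) (sI_ok hV hK) (mat_zR h) le_rfl hK h.n1
  rw [show (sI D.kZ).c * (sI D.kZ).K = D.kZ from one_mul _] at this
  rw [tZc, strict_eq]
  exact this.congr (fun _ _ _ _ => by simp [sI, Scl.val, Dat.z, mul_div_cancel₀]) le_rfl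

/-- The squares of the entries of `Z`. -/
theorem fro_Z {B : ℕ} (h : D.Ok) (k : FrOk D.V D.kZ s d) (c : fNZ D s d B = true)
    (h1 : D.Ah.N * 2 ^ (2 * d + 2) + 1 < 2 ^ D.V) (hf : 4 ^ s * (B : ℝ) ≤ f ^ 2 * 4 ^ D.sZ) :
    ∑ i : Fin 2, ∑ a : Fin D.Ah.N, D.z i a ^ 2 ≤ f ^ 2 := by
  obtain ⟨k1, k2, k3, k4, k5⟩ := k
  rw [fNZ, strict_eq] at c
  have := (KRad.froA_sound (tZc_ok h (by omega) k5) (one_le_pow₀ one_le_two) k2 k3 k4 h1 2 0
    le_rfl c).trans hf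
  simp only [Nat.cast_zero, mul_zero, zero_add, mul_pow, ← mul_sum, sum_range] at this
  rw [← pow_mul, mul_comm D.sZ, pow_mul, show (2 : ℝ) ^ 2 = 4 by norm_num, mul_comm] at this
  exact le_of_mul_le_mul_right this (by positivity)

theorem nZ_all {B : ℕ} (h : D.Ok) (k : FrOk D.V D.kZ s d) (c : fNZ D s d B = true)
    (h1 : D.Ah.N * 2 ^ (2 * d + 2) + 1 < 2 ^ D.V) (h0 : 0 ≤ f)
    (hf : 4 ^ s * (B : ℝ) ≤ f ^ 2 * 4 ^ D.sZ) :
    Nm (fun (i : Fin 2) (a : Fin D.Ah.N) => D.z i a) f := .of_frob h0 (fro_Z h k c h1 hf)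

theorem z1_all {B : ℕ} (h : D.Ok) (c : fZ1 D e B = true) (k : e + 1 ≤ D.V ∧
    D.kZ + 2 ^ (e + 2) ≤ 2 ^ D.V ∧ 2 * D.kZ < 2 ^ D.V ∧ D.Ah.N * 2 ^ e + 1 < 2 ^ D.V)
    (hf : (B + D.Ah.N : ℝ) ≤ f * 2 ^ D.sZ) : ∀ i < 2, ∑ a ∈ range D.Ah.N, |D.z i a| ≤ f :=
  fun i hi => by
    rw [fZ1, strict_eq] at c
    have := finL_sound (tZc_ok h (by omega) k.2.2.1) c k.1 k.2.1 k.2.2.2 i.zero_le (by omega) hi
    simp only [abs_mul, abs_pow, abs_two, ← mul_sum, mul_one] at this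
    exact le_of_mul_le_mul_left (this.trans (hf.trans_eq (mul_comm _ _))) (by positivity)

theorem x1_all {U t w z : ℕ} {z1 : ℝ} (h : D.Ok) (c : All (fX1 D U e d t w z B) P)
    (hP : D.Am.nq ≤ D.Am.q * P) (k : D.kX < 2 ^ e ∧ e + 1 ≤ D.V ∧ 0 < U ∧ d ≤ U ∧ 1 + z < 2 ^ d ∧
      16 * D.c1 * 2 ^ (d + e) ≤ 2 ^ (w + t) ∧ w + t < D.V) (hz : 0 ≤ z1 ∧ z1 ≤ z) (h0 : 0 ≤ f)
    (hf : 4 ^ t * (KRad.sumF (lget B) P : ℕ) ≤ f ^ 2 * 4 ^ D.sX) :
    0 ≤ f ∧ ∑ j ∈ range D.Am.N, (∑ h ∈ range (16 * D.c1), |D.x h j|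
      + z1 * ∑ i ∈ range 2, |D.x i j|) ^ 2 ≤ f ^ 2 := by
  obtain ⟨k1, k2, k3, k4, k5, k6, k7⟩ := k
  have n2 : 2 ≤ 16 * D.c1 := by have := h.n1; omega
  have t1 : ∑ j ∈ range D.Am.N, (∑ k ∈ range (16 * D.c1), |(pent D.V D.Am D.X k j : ℝ)|
      * bits (KRad.wgt U (16 * D.c1) z) (U * k) d) ^ 2
      ≤ 4 ^ t * (KRad.sumF (lget B) P : ℕ) := by
    exact_mod_cast KRad.pwP_sound c hP k1 k2 k3 k4 k6 k7
  refine ⟨h0, le_of_mul_le_mul_right (le_trans ?_ (t1.trans hf)) (by positivity)⟩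
  rw [sum_mul]
  refine sum_le_sum fun j _ => ?_
  rw [show (4 : ℝ) = 2 ^ 2 by norm_num, ← pow_mul, mul_comm 2, pow_mul, ← mul_pow]
  refine pow_le_pow_left₀ (by have := hz.1; positivity) ?_ 2
  have e1 : ∀ k, |D.x k j| * 2 ^ D.sX = |(pent D.V D.Am D.X k j : ℝ)| := fun k => by
    rw [Dat.x, abs_div, abs_pow, abs_two, div_mul_cancel₀ _ (by positivity)]
  obtain ⟨m, hm⟩ := Nat.exists_eq_add_of_le n2
  rw [sum_congr (f := fun k => _ * ((_ : ℕ) : ℝ)) rfl fun k hk => by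
      rw [KRad.bits_wgt k4 k5 n2 (mem_range.1 hk)],
    add_mul, mul_assoc, sum_mul, sum_mul, hm, sum_range_add, sum_range_add]
  simp only [e1, sum_range_succ, sum_range_zero, fun x => Nat.not_lt.2 (Nat.le_add_right 2 x)]
  have := mul_le_mul_of_nonneg_right hz.2 (add_nonneg (abs_nonneg (pent D.V D.Am D.X 0 j : ℝ))
    (abs_nonneg (pent D.V D.Am D.X 1 j : ℝ)))
  simp
  linarith

theorem quad_eq {n : ℕ} (F : Fin n → Fin n → ℝ) (Z : Fin 2 → Fin n → ℝ) (c : ℝ) (x : Fin n → ℝ) :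
    ∑ a, ∑ b, (F a b + c * ∑ i, Z i a * Z i b) * (x a * x b)
      = ∑ a, (∑ b, F a b * x b) * x a + c * ∑ i, (∑ a, Z i a * x a) ^ 2 := by
  simp only [Fin.sum_univ_two, pow_two, sum_mul_sum, mul_add, sum_mul, mul_sum, ← sum_add_distrib]
  exact sum_congr rfl fun a _ => sum_congr rfl fun b _ => by ring

/-- The upper bound of the matrix of the form. -/
theorem hi_all {S : Scl} (h : D.Ok) (k : FrOk D.V (D.kX + S.c * S.K) s d) (hg : 0 < g)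
    (c : All (fHi D e S s d R g B) (g * P)) (hP : D.Am.nq ≤ D.Am.q * P)
    (hS : PrOk D.V 1 D.kZ D.kX e S) (hw : S.val * 2 ^ D.sZ = 2)
    (sy : ∀ i < 2, ∀ b < D.Ah.N, D.x (2 + i) (D.lo b) = D.z i b) (h0 : 0 ≤ f)
    (hf : 4 ^ s * (KRad.sumF (lget B) (g * P) : ℕ) ≤ f ^ 2 * 4 ^ D.sX) (x : Fin D.Ah.N → ℝ) :
    ∑ a : Fin D.Ah.N, (∑ b : Fin D.Ah.N, D.f a b * x b) * x a
      + 2 * ∑ i : Fin 2, (∑ a : Fin D.Ah.N, D.z i a * x a) ^ 2 ≤ f * ∑ a, x a ^ 2 := by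
  obtain ⟨k1, k2, k3, k4, k5⟩ := k
  have n1 := h.n1
  have t := (KRad.froP_sound (ε := 1 + 1) (G := fun a j => 2 ^ D.sX * (D.x (16 + a) j
      + 2 * ∑ i : Fin 2, D.z i a * D.x (2 + i) j)) c hP hg (fun b q a r hb hr => by
    have m := mat_ldT (c0 := 0) (c := 1) (h.X.at hb) (by omega) hb
    simp only [tHi, strict_eq]
    refine ((tNm_ok (by omega) (by omega) (h.X.at hb) (by omega) hb).seq (KRad.tOut_ok hS.1 h.Zc
      (m.2 2 (by omega)) (m.2 3 (by omega)) (by simp only [Nat.add_eq]; omega) hS.2.1 hS.2.2.1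
      hS.2.2.2)).congr (fun j _ i _ => ?_) le_rfl
    simp only [Fin.sum_univ_two, Dat.x, Dat.z, eq_div_of_mul_eq (by positivity) hw, Nat.add_eq,
      add_assoc]
    simp
    field_simp) (by
      rw [one_add_one_eq_two]
      exact le_self_pow₀ one_le_two k1.ne') k2 k3 k4).trans hf
  simp only [mul_pow, ← mul_sum] at t
  rw [← pow_mul, mul_comm D.sX, pow_mul, show (2 : ℝ) ^ 2 = 4 by norm_num, mul_comm] at t
  have t2 := fro_lo h (le_of_mul_le_mul_right t (by positivity))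
  rw [← quad_eq]
  refine le_of_abs_le ((Nm.of_frob h0 (le_of_eq_of_le ?_ t2)).form x)
  refine sum_congr rfl fun a _ => sum_congr rfl fun b _ => ?_
  simp only [fun i : Fin 2 => sy i i.2 b b.2, Dat.f]

theorem cB_mono {j k : ℕ} (h : j ≤ k) (hk : k < A.N) : (A.mem j).1 ≤ (A.mem k).1 ∧
    cB A (A.mem j).1 (A.mem j).2.1 ≤ cB A (A.mem k).1 (A.mem k).2.1 := by
  obtain ⟨a1, a2, a3⟩ := Lay.mem_spec (h.trans_lt hk)
  obtain ⟨b1, b2, b3⟩ := Lay.mem_spec hk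
  refine ⟨not_lt.1 fun c => ?_, Nat.div_le_div_right (Nat.add_le_add_right (not_lt.1 fun c => ?_) _)⟩
  · obtain ⟨n, n1, n2⟩ := Lay.st_of (q := (A.mem j).1 - (A.mem k).1) hk b1.1 le_rfl (by omega)
    have e1 := Lay.st_add b1.1 ((A.mem j).1 - (A.mem k).1)
    have e2 := A.st_le (A.mem j).1 (A.mem j).2.1 (A.mem j).2.2
    rw [Nat.add_sub_cancel' c.le] at e1
    omega
  · rw [← Lay.pos_add] at a3 b3
    simp only [Nat.add_eq] at c
    have e1 := (Lay.mem_pos a1 (m := k - A.pos (A.mem j).1 (A.mem j).2.1 0) (by omega)).2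
    rw [← Lay.pos_add, Nat.add_sub_cancel' (by omega)] at e1
    rw [e1] at c
    exact lt_irrefl _ c

/-- The lower bound of the matrix of the form: the pass CO. -/
theorem lo_all {SF SZ SC : Scl} {Rc : ℕ → Chk} {c0 eZ eC K0 c t : ℕ} {w z p z' : ℝ} (h : D.Ok)
    (hJ : Job (pchk D.V K0 c e D.Ah (tCO D K c0 eZ eC SF SZ SC Rc)) D.Ah D.Ah fun b => b)
    (hS : SF.Ok D.V D.kX ∧ 2 * D.kX < 2 ^ D.V ∧ 2 * D.kZ < 2 ^ D.V ∧ PrOk D.V 1 D.kZ D.kZ eZ SZ ∧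
      PrOk D.V D.c1 K K eC SC ∧ K0 = c * (SF.c * SF.K + c0 + (SZ.c * SZ.K + SC.c * SC.K)) ∧ 0 < c ∧
      e + 1 ≤ D.V ∧ K0 + 2 ^ (e + 2) ≤ 2 ^ D.V)
    (hw : 0 < w ∧ SF.val * 2 ^ D.sX = w ∧ SZ.val * 2 ^ (D.sZ + D.sZ) = z * w ∧
      SC.val * 2 ^ (t + t) = -w ∧ c0 + D.Ah.N * (2 ^ e / c + 3) ≤ p * w ∧ z ≤ z')
    (sF : ∀ a < D.Ah.N, ∀ b < D.Ah.N, D.f a b = D.f b a) (x : Fin D.Ah.N → ℝ) :
    0 ≤ p * ∑ a, x a ^ 2 + ∑ a : Fin D.Ah.N, (∑ b : Fin D.Ah.N, D.f a b * x b) * x a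
      + z' * ∑ i : Fin 2, (∑ a : Fin D.Ah.N, D.z i a * x a) ^ 2 := by
  obtain ⟨s1, s2, s3, s4, ⟨c1, c2, c3, c4⟩, s6, s7, s8, s9⟩ := hS
  obtain ⟨w0, w1, w2, w3, w4, w5⟩ := hw
  have n1 := h.n1
  have l1 : ∀ b y, D.Ah.Has b y → cB D.Ah b y ≤ D.c1 := fun b y hb => by
    have := pos_le hb
    show (_ + _ + 15) / 16 ≤ _
    omega
  have t1 := fun {j k} => pchk_all (j := j) (k := k) hJ s6 s7 s8 s9 (ε := 1 + 0 + (1 + 1))
    (G := fun j k => w * (D.f k j + z * ∑ i : Fin 2, D.z i k * D.z i j + (if j = k then c0 / w else 0)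
      - ∑ r ∈ range (16 * cB D.Ah (D.Ah.mem j).1 (D.Ah.mem j).2.1),
        (pent D.V D.Ah Rc r j : ℝ) / 2 ^ t * (pent D.V D.Ah Rc r k / 2 ^ t)))
    fun b0 y b q hb hf _ => by
      obtain ⟨m1, m2⟩ := h.has _ _ hb
      have a1 := st_le hf
      have a2 := pos_le hb
      have a3 := l1 _ _ hb
      have v : ∀ i < 2, Vec D.V (tot D.Ah.J q b) D.kZ (rnd D.V 0 (Nat.add 16 (D.Ah.st b))
          (tot D.Ah.J q b) (col D.V i (zR D))) fun m => D.Zc.ent D.V (16 + (D.Ah.st b + m)) i :=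
        fun i hi => by
          simpa [add_assoc] using Vec.rnd (s := 0) (K := D.kZ) (d := 16 + D.Ah.st b)
            (q := tot D.Ah.J q b) (by simpa using (mat_zR h).col hi s3) (by omega)
            (by simpa using s3) (by omega)
      have b1 : 2 * (16 * cB D.Ah b0 y) * K ≤ 2 * (16 * D.c1) * K := by gcongr
      have b2 : 16 * cB D.Ah b0 y * (K * K) ≤ 16 * D.c1 * (K * K) := by gcongr
      simp only [tCO, strict_eq]
      refine ((TOk.seq (fun j hj => tCol_ok s1 s2 (h.X.blk m1) (by simp only [Nat.add_eq]; omega)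
        m1 j (hj.trans_le m2)) (tBlk_ok (tJ_ok (by omega) (by omega)) (by omega) le_rfl hb hf)).seq
        ((KRad.tOut_ok s4.1 h.Zc (v 0 two_pos) (v 1 one_lt_two) (by simp only [Nat.add_eq]; omega)
          s4.2.1 s4.2.2.1 s4.2.2.2).seq (TOk.cnd _ (fun k => tPro_ok c1 ((bnd_iff _ _).1 k).1
            ((bnd_iff _ _).1 k).2 (by simp) (by simp) hb hf c2 (by omega) (by omega))
            fun _ _ _ _ _ _ _ _ _ k => absurd k Bool.false_ne_true))).congr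
        (fun j hj m hm => ?_) le_rfl
      simp only [(Lay.mem_pos hb hj).2, blk_iff hb hj (st_lt hf hm), Dat.f, h.lo_pos hb hj, Dat.x,
        Dat.z, Fin.sum_univ_two, eq_div_of_mul_eq (by positivity) w1,
        eq_div_of_mul_eq (by positivity) w2, eq_div_of_mul_eq (by positivity) w3, Nat.add_eq,
        add_assoc, Lay.pos_add, mul_zero, zero_add, div_mul_div_comm, ← sum_div, pow_add,
        Fin.val_zero, Fin.val_one, ite_and]
      split_ifs <;> field_simp <;> ring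
  have t2 := psd_of_close (N := D.Ah.N) (n := 16 * D.c1) (ε := (2 ^ e / c + 3) / w)
    (M := fun j k => D.f j k + z * ∑ i : Fin 2, D.z i j * D.z i k + if j = k then c0 / w else 0)
    (F := fun r j => if r < 16 * cB D.Ah (D.Ah.mem j).1 (D.Ah.mem j).2.1 then
      (pent D.V D.Ah Rc r j : ℝ) / 2 ^ t else 0)
    (fun i hi j hj => by simp only [sF i hi j hj, mul_comm (D.z _ i), eq_comm (a := i)])
    (fun i j hij hj => by
      have hi := hij.trans_lt hj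
      obtain ⟨o1, o2⟩ := cB_mono hij hj
      have o3 := l1 _ _ (Lay.mem_spec hi).1
      refine le_of_eq_of_le ?_ ((div_of w0 (t1 hi hj o1)).trans_eq (by norm_num))
      rw [← sum_subset (range_subset_range.2 (Nat.mul_le_mul_left 16 o3)) fun r _ hr => by
        rw [if_neg (by simpa using hr), zero_mul]]
      simp only [sF i hi j hj, mul_comm (D.z _ i)]
      congr 2
      exact sum_congr rfl fun r hr => by
        have := mem_range.1 hr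
        rw [if_pos this, if_pos (by omega)])
    fun a => if k : a < D.Ah.N then x ⟨a, k⟩ else 0
  simp only [sum_range, Fin.is_lt, dite_true, Fin.eta, add_mul (_ + _), sum_add_distrib, quad_eq,
    Fin.val_inj, ite_mul, zero_mul, sum_ite_eq, mem_univ, mem_range, if_true, ← mul_sum,
    ← pow_two] at t2
  have t3 := mul_le_mul_of_nonneg_right ((div_le_iff₀ w0).2 w4) (sq_nn x)
  have t4 := mul_le_mul_of_nonneg_right w5 (sq_nn fun i : Fin 2 => ∑ a : Fin D.Ah.N, D.z i a * x a)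
  rw [add_div, mul_div_assoc] at t3
  linarith

/-- The coercivity from the Gram bound and the two matrix bounds. -/
theorem coer_of {L : Lyap} (hL : L.Good) {γ p cl cz ch cb : ℝ}
    (hG : ∀ t : Fin L.r → ℝ, nw (Op (-1)) (lc t L.θ) ≤ γ * ∑ a, t a ^ 2)
    (lo : ∀ x : Fin L.r → ℝ, 0 ≤ p * ∑ a, x a ^ 2 + ∑ a, (∑ b, L.F a b * x b) * x a
      + (2 - cz) * ∑ i, (∑ a, L.Z i a * x a) ^ 2)
    (hi : ∀ x : Fin L.r → ℝ, ∑ a, (∑ b, L.F a b * x b) * x a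
      + 2 * ∑ i, (∑ a, L.Z i a * x a) ^ 2 ≤ f * ∑ a, x a ^ 2)
    (k : 0 ≤ γ ∧ 0 ≤ p ∧ 0 ≤ f ∧ cl + p * γ ≤ 1 ∧ 1 + f * γ ≤ ch ^ 2 ∧ γ ≤ cb ^ 2) :
    L.Coer cl cz ch cb := by
  obtain ⟨k1, k2, k3, k4, k5, k6⟩ := k
  have e := Real.sq_sqrt k1
  have := Fn.coer_of_gram hL (e.symm ▸ hG) k2 (e.symm ▸ k4) lo k3 (e.symm ▸ k5) hi
  exact ⟨this.lo, this.hi, fun v hv => Fn.bes_of_gram hL (fun t => (hG t).trans
    (mul_le_mul_of_nonneg_right k6 (sq_nn t))) hv⟩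

end Pool.Agent.Work.MP_6bf1e5_an.H.Ps
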