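import Pool.Agent.Work.MP_6bf1e5_an.H.PassTD
import Pool.Agent.Lib.KRad.Fro

/-! The checks of the norms and of the coercivity (owner helper77). -/

namespace Pool.Agent.Work.MP_6bf1e5_an.H.Ps

open Pool.Agent.Lib Pool.Agent.Lib.KLA Pool.Agent.Lib.KBlk

noncomputable section

/-- No scaling. -/
def sI (K : Nat) : Scl := ⟨1, 0, K, false⟩

/-- The rows `16 + a, ..., 16 + a + r - 1`. -/
def tNm (V K : Nat) (A : Lay) (Z : Nat → Chk) (b q a r : Nat) : Trm :=
  tRow V K (sI K) A Z b q (Nat.add 16 a) r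

/-- The squares of the entries of `F`, `K`, `U`. -/
def fNF (D : Dat) (s d R G : Nat) : List Nat → Nat → Bool :=
  KRad.froP D.V D.kX s d R G D.Am (tNm D.V D.kX D.Am D.X) fun _ => D.Ah.N

def fNK (D : Dat) (s d R G : Nat) : List Nat → Nat → Bool :=
  KRad.froP D.V D.kK s d R G D.Am (tNm D.V D.kK D.Am D.K) fun _ => D.Ah.N

def fNU (D : Dat) (s d R G : Nat) : List Nat → Nat → Bool :=
  KRad.froP D.V D.kU s d R G D.Ah (tNm D.V D.kU D.Ah D.U) fun p =>
    Nat.sub (Nat.mul 16 (D.cU p)) 16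

/-- The two columns of `Zc`. -/
def zR (D : Dat) : Rows := ld D.V D.kZ 0 2 0 D.c1 D.Zc

/-- The rows of `Z`. -/
def tZc (D : Dat) : Trm := strict D.Ah.N fun n => tL D.V n 16 (sI D.kZ) (zR D)

/-- The squares and the absolute values of the entries of `Z`. -/
def fNZ (D : Dat) (s d B : Nat) : Bool :=
  strict D.Ah.N fun n => KRad.froA D.V n D.kZ s d (tZc D) 0 B 2 0

def fZ1 (D : Dat) (e B : Nat) : Bool := strict D.Ah.N fun n => finL D.V n D.kZ e B (tZc D) 0 2

/-- The columns of `X`, with the weight `1 + z` on the first two rows. -/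
def fX1 (D : Dat) (U e d t w z : Nat) : List Nat → Nat → Bool :=
  KRad.pwP U D.V D.kX e d t w D.c1 D.Am D.X (KRad.wgt U (Nat.mul 16 D.c1) z)

/-- The rows of `F + 2 Z Z`. -/
def tHi (D : Dat) (e : Nat) (S : Scl) (b q a r : Nat) : Trm :=
  tS (tNm D.V D.kX D.Am D.X b q a r) ((fun Y : Rows => strict (tot D.Am.J q b) fun p =>
    KRad.tOut D.V p D.kZ D.kX e D.c1 S D.Zc (Nat.add 16 a) (Y.get 2) (Y.get 3))
      (ldT D.V D.kX D.Am D.X b q 0 1))

def fHi (D : Dat) (e : Nat) (S : Scl) (s d R G : Nat) : List Nat → Nat → Bool :=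
  KRad.froP D.V (Nat.add D.kX (Nat.mul S.c S.K)) s d R G D.Am (tHi D e S) fun _ => D.Ah.N

/-- The number of cells of rows up to the end of a block. -/
def cB (A : Lay) (b y : Nat) : Nat := Nat.div (Nat.add (Nat.add (A.pos b y 0) (A.J b y)) 15) 16

/-- The terms of the pass CO: `F + c + c' Z Z - R R`. -/
def tCO (D : Dat) (K c eZ eC : Nat) (SF SZ SC : Scl) (R : Nat → Chk) (b0 y b q : Nat) : Trm :=
  strict (tot D.Ah.J q b) fun p => strict (Nat.add 16 (D.Ah.st b)) fun h =>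
    strict (cB D.Ah b0 y) fun n => tS
      (tS (tCol D.V D.kX SF D.Am D.X b0 y h p)
        (tBlk D.V c D.Ah b0 y b q (tJ D.V (D.Ah.J b0 y) 0 c)))
      (tS (KRad.tOut D.V p D.kZ D.kZ eZ D.c1 SZ D.Zc (Nat.add 16 (D.Ah.pos b0 y 0))
          (rnd D.V 0 h p (col D.V 0 (zR D))) (rnd D.V 0 h p (col D.V 1 (zR D))))
        (cnd (bnd ((R (D.Ah.pb b0)).ok D.V K (Nat.mul 16 n))
            ((R (D.Ah.pb b)).ok D.V K (Nat.mul 16 n)))
          (tPro D.V K K eC SC D.Ah R D.Ah R b0 y b q 0 n) fun _ _ _ => false))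

end

end Pool.Agent.Work.MP_6bf1e5_an.H.Ps
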