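import Pool.Agent.Work.MP_6bf1e5_an.H.PassDef
import Pool.Agent.Lib.KBlk.Qf

/-! The checks for the tails (owner helper39). -/

namespace Pool.Agent.Work.MP_6bf1e5_an.H.Ps

open Pool.Agent.Lib.KLA Pool.Agent.Lib.KBlk

noncomputable section

/-- The weight of a member. -/
def wAt (A : Lay) (w : Nat → Nat) (b y m : Nat) : Nat := w (A.pos b y m)

/-- The weights `2 ^ k / β ^ 2`, rounded down and up. -/
def wLo (k : Nat) (β : Nat → Nat) (s : Nat) : Nat := Nat.div (Nat.shiftLeft 1 k) (Nat.mul (β s) (β s))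

def wUp (k : Nat) (β : Nat → Nat) (s : Nat) : Nat := Nat.add (wLo k β s) 1

/-- Lower bounds for the squares of the pairings with the tests: the tile number `t % n`, and the
blocks from `u j` to `u (j + 1)` with `j = t / n`. -/
def tailA (D : Dat) (As Ab : Lay) (g n e b : Nat) (S : Scl) (w u : Nat → Nat) (B : List Nat)
    (t : Nat) : Bool :=
  strict (u (Nat.div t n)) fun a => strict (u (Nat.add (Nat.div t n) 1)) fun a' =>
    bnd (bnd (Nat.ble a a') (Nat.ble a' (Nat.mul 2 Ab.nq)))
      (atT D.At g (Nat.mod t n) fun c q p => strict (keep D.V D.At.J As.J q c) fun k =>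
        strict (Nat.sub D.c1 1) fun m =>
          wfam Ab (fun b0 y => lsq D.V p (Nat.mul S.c S.K) b k
              (tPro D.V D.kX D.kP e S D.Am D.X D.At D.TP b0 y c q 1 m))
            (wAt As w) a (Nat.sub a' a) 0 fun acc => Nat.ble (lget B t) acc)

/-- The same for the first two rows, on the tile number `i`. -/
def tailY (D : Dat) (As : Lay) (g z : Nat) (S : Scl) (B : List Nat) (i : Nat) : Bool :=
  atT D.At g i fun c q p => strict (keep D.V D.At.J As.J q c) fun k =>
    wsum (lsq D.V p (Nat.mul S.c S.K) z k (tRow D.V D.kP S D.At D.TP c q 0 2))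
      (fun _ => 1) 2 0 fun acc => Nat.ble (lget B i) acc

/-- A column of `A` times a panel of `U`. -/
def tXU (D : Dat) (e : Nat) (S : Scl) (A : Rows) (c q : Nat) : Trm :=
  strict (tot D.Ah.J q c) fun p => strict (Nat.sub (D.cU (D.Ah.pb c)) 1) fun n =>
    tP D.V p (Nat.mul 16 n) D.kX D.kU e S (rtake A n) (ldT D.V D.kU D.Ah D.U c q 1 n)

/-- Upper bounds for the form of `U` and for the squares, on the group number `i` of blocks. -/
def tailB (D : Dat) (As : Lay) (g e b : Nat) (S : Scl) (w : Nat → Nat) (B1 B2 B3 : List Nat)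
    (i : Nat) : Bool :=
  strict (stp g (Nat.mul 2 As.nq) i) fun a =>
  strict (Nat.sub (stp g (Nat.mul 2 As.nq) (Nat.add i 1)) a) fun q =>
  strict (Nat.sub D.c1 1) fun n => bnd
    (wfam As (fun b0 y m => qval D.V D.kX (Nat.mul S.c S.K) b D.Ah
        (tXU D e S (ldB D.V D.kX D.Am D.X b0 y 1 n)) D.nh m
        (col D.V m (ldB D.V D.kX D.Am D.X b0 y 1 n)))
      (wAt As w) a q 0 fun acc => Nat.ble acc (lget B1 i))
    (bnd (wfam As (fun b0 y m f => strict (col D.V m (ldB D.V D.kX D.Am D.X b0 y 1 n)) fun x =>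
          strict (sq D.V n (Nat.mul 16 n) D.kX x) f)
        (wAt As w) a q 0 fun acc => Nat.ble acc (lget B2 i))
      (wfam As (fun b0 y m f =>
          strict (rnd D.V 0 2 2 (col D.V m (ldB D.V D.kX D.Am D.X b0 y 0 1))) fun x =>
            strict (sq D.V 1 2 D.kX x) f)
        (wAt As w) a q 0 fun acc => Nat.ble acc (lget B3 i)))

/-- The form of `U` on `Z`, and the sum of the weights. -/
def tailZ (D : Dat) (As : Lay) (b : Nat) (S : Scl) (w : Nat → Nat) (Bz B4 : Nat) : Bool :=
  strict (Nat.sub D.c1 1) fun n => bnd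
    (wsum (fun i => qval D.V D.kZ (Nat.mul S.c S.K) b D.Ah
        (fun c q => tRow D.V D.kU S D.Ah D.U c q 0 2) D.nh i (col D.V i (ld D.V D.kZ 0 2 1 n D.Zc)))
      (fun _ => 1) 2 0 fun acc => Nat.ble acc Bz)
    (wfam As (fun _ _ _ f => f 1) (wAt As w) 0 (Nat.mul 2 As.nq) 0 fun acc => Nat.ble acc B4)

end

end Pool.Agent.Work.MP_6bf1e5_an.H.Ps
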