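import Pool.Agent.Work.MP_6bf1e5_an.H.Asm
import Pool.Agent.Work.MP_6bf1e5_an.H.PassP
import Pool.Agent.Work.MP_6bf1e5_an.H.PassQD
import Pool.Agent.Lib.KBlk.QfS

/-! The meaning of the checks for the tails (owner helper39). -/

open Finset Pool.Agent.Lib.KBlk Pool.Agent.Lib.KLA

namespace Pool.Agent.Work.MP_6bf1e5_an.H.Ca

open Ps

noncomputable section

/-- A column of `X` times a column of `TP` or of `U`. -/
def yT (D : Dat) (j r : ℕ) : ℝ := ∑ k ∈ range (16 * (D.c1 - 1)), D.x (16 + k) j * D.tp (16 + k) r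

def yU (D : Dat) (j b : ℕ) : ℝ := ∑ k ∈ range (16 * (D.c1 - 1)), D.x (16 + k) j * D.u (16 + k) b

/-- The weighted sum over the big members. -/
def Obj.ws (O : Obj) (g : Ix → ℝ) : ℝ :=
  ∑ s ∈ range O.NS, (O.β (O.As.mem s))⁻¹ ^ 2 * g (O.As.mem s)

/-- The sum of squares over the tests. -/
def Obj.kq (O : Obj) (g : ℕ → ℝ) (r : ℕ) : ℝ :=
  if Kept O.D.At.J O.As.J (O.D.At.mem r) then g r ^ 2 else 0

def Obj.ks (O : Obj) (g : ℕ → ℝ) : ℝ := ∑ r ∈ range O.Nt, O.kq g r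

/-- The numbers of the tails. -/
structure TlT where
  (a1 a2 b1 b2 b3 b4 bz : ℝ)

/-- The results of the checks for the tails. -/
structure Obj.Tl (O : Obj) (t : TlT) : Prop where
  a1 : t.a1 ≤ O.ws fun d => O.ks (yT O.D (ps O.D.Am d))
  a2 : t.a2 ≤ ∑ i ∈ range 2, O.ks (O.D.tp i)
  b1 : (O.ws fun d => ∑ b ∈ range O.NF, O.D.x (16 + b) (ps O.D.Am d) * yU O.D (ps O.D.Am d) b) ≤ t.b1
  b2 : (O.ws fun d => ∑ k ∈ range (16 * (O.D.c1 - 1)), O.D.x (16 + k) (ps O.D.Am d) ^ 2) ≤ t.b2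
  b3 : (O.ws fun d => ∑ i ∈ range 2, O.D.x (2 + i) (ps O.D.Am d) ^ 2) ≤ t.b3
  b4 : (O.ws fun _ => 1) ≤ t.b4
  bz : ∑ i ∈ range 2, ∑ b ∈ range O.NF, O.D.z i b * O.D.u i b ≤ t.bz

/-- The weights are below or above `c / β ^ 2`. -/
def Obj.Lo (O : Obj) (c : ℝ) (w : ℕ → ℕ) : Prop :=
  ∀ d, In O.As d → w (ps O.As d) ≤ c * (O.β d)⁻¹ ^ 2

def Obj.Up (O : Obj) (c : ℝ) (w : ℕ → ℕ) : Prop :=
  ∀ d, In O.As d → c * (O.β d)⁻¹ ^ 2 ≤ w (ps O.As d)

end

variable {O : Obj} {c : ℝ} {w : ℕ → ℕ}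

theorem w_of {k t : ℕ} {β : ℕ → ℕ} (h : ∀ d, In O.As d → O.β d = β (ps O.As d) / 2 ^ t ∧
    0 < β (ps O.As d)) : O.Lo (2 ^ k) (wLo (k + 2 * t) β) ∧ O.Up (2 ^ k) (wUp (k + 2 * t) β) := by
  have e : ∀ d, In O.As d → 2 ^ k * (O.β d)⁻¹ ^ 2 =
      ((2 ^ (k + 2 * t) : ℕ) : ℝ) / (β (ps O.As d) * β (ps O.As d) : ℕ) := fun d hd => by
    rw [(h d hd).1, inv_div]
    push_cast
    ring
  have e' : ∀ s, wLo (k + 2 * t) β s = 2 ^ (k + 2 * t) / (β s * β s) := fun s => by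
    rw [wLo, shl_eq, one_mul]
    rfl
  refine ⟨fun d hd => ?_, fun d hd => ?_⟩
  · rw [e d hd, e']
    exact Nat.cast_div_le
  · have p := Nat.mul_pos (h d hd).2 (h d hd).2
    rw [e d hd, wUp, e', div_le_iff₀ (by exact_mod_cast p)]
    exact_mod_cast (Nat.lt_div_mul_add p).le.trans (by rw [Nat.add_eq, add_mul, one_mul])

theorem sum_sub {A B : Lay} (h : Sub A B) {g : Ix → ℝ} (hg : ∀ d, 0 ≤ g d) :
    ∑ s ∈ range A.N, g (A.mem s) ≤ ∑ s ∈ range B.N, g (B.mem s) := by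
  have i := mp_inj (f := id) (fun _ k => In.sub k h) Function.injective_id
  rw [sum_range, sum_range]
  refine le_trans (le_of_eq ?_) (sum_le_sum_of_subset_of_nonneg (subset_univ (univ.map ⟨_, i⟩))
    fun _ _ _ => hg _)
  rw [sum_map]
  exact sum_congr rfl fun a _ => congrArg g (mem_mp (f := id) (fun _ k => In.sub k h) a).symm

theorem ws_le (h : O.Up c w) {g : Ix → ℝ} (hg : ∀ d, 0 ≤ g d) :
    c * O.ws g ≤ ∑ i ∈ range (2 * O.As.nq), bsum O.As (fun d => wAt O.As w d.1 d.2.1 d.2.2 * g d) i := by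
  rw [← sum_mem, Obj.ws, mul_sum]
  refine sum_le_sum fun s hs => ?_
  rw [← mul_assoc]
  exact mul_le_mul_of_nonneg_right (h _ (mem_in (mem_range.1 hs))) (hg _)

theorem le_ws (h : O.Lo c w) (hc : 0 ≤ c) {A : Lay} (hA : Sub A O.As) {g : Ix → ℝ}
    (hg : ∀ d, 0 ≤ g d) :
    ∑ i ∈ range (2 * A.nq), bsum A (fun d => wAt O.As w d.1 d.2.1 d.2.2 * g d) i ≤ c * O.ws g := by
  rw [← sum_mem, Obj.ws, mul_sum]
  refine le_trans (sum_le_sum fun s hs => ?_) (sum_sub hA (g := fun d => c * ((O.β d)⁻¹ ^ 2 * g d))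
    fun d => by have := hg d; positivity)
  rw [← mul_assoc]
  exact mul_le_mul_of_nonneg_right (h _ ((mem_in (mem_range.1 hs)).sub hA)) (hg _)

theorem ws_mono {g g' : Ix → ℝ} (h : ∀ d, In O.As d → g d ≤ g' d) : O.ws g ≤ O.ws g' :=
  sum_le_sum fun _ hs => mul_le_mul_of_nonneg_left (h _ (mem_in (mem_range.1 hs))) (sq_nonneg _)

theorem ws_lin (a b : ℝ) (g g' : Ix → ℝ) :
    O.ws (fun d => a * g d + b * g' d) = a * O.ws g + b * O.ws g' := by
  simp only [Obj.ws, mul_sum, ← sum_add_distrib]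
  exact sum_congr rfl fun _ _ => by ring

theorem ws_mul (a : ℝ) (g : Ix → ℝ) : O.ws (fun d => a * g d) = a * O.ws g := by
  simpa using ws_lin (O := O) a 0 g g

theorem ws_sum (n : ℕ) (g : ℕ → Ix → ℝ) :
    ∑ i ∈ range n, O.ws (g i) = O.ws fun d => ∑ i ∈ range n, g i d := by
  simp only [Obj.ws, mul_sum]
  exact sum_comm

theorem kq_nn (g : ℕ → ℝ) (r : ℕ) : 0 ≤ O.kq g r := by
  unfold Obj.kq
  split_ifs <;> positivity

theorem has_m {b y : ℕ} (h : O.As.Has b y) : O.D.Am.Has b y ∧ O.As.J b y ≤ O.D.Am.J b y :=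
  ⟨(O.ok.has _ _ (O.sh _ _ h).1).1, (O.sh _ _ h).2.trans (O.ok.has _ _ (O.sh _ _ h).1).2⟩

/-- Groups of blocks. -/
theorem up_all (h : O.Up c w) {v : ℕ → ℕ → ℕ → (ℕ → Bool) → Bool} {g : Ix → ℝ} (hg : ∀ d, 0 ≤ g d)
    (hv : ∀ b y, O.As.Has b y → ∀ m < O.As.J b y, ∀ f, v b y m f = true →
      ∃ x, f x = true ∧ g (b, y, m) ≤ x) {q n : ℕ} {B : List ℕ} (hn : 2 * O.As.nq ≤ q * n)
    (hf : ∀ i < n, wfam O.As v (wAt O.As w) (stp q (2 * O.As.nq) i)
      (stp q (2 * O.As.nq) (i + 1) - stp q (2 * O.As.nq) i) 0 (fun x => Nat.ble x (lget B i)) = true) :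
    c * O.ws g ≤ lsum B n := by
  refine (ws_le h hg).trans ?_
  conv_lhs => rw [← min_eq_right hn, ← stp_eq, sum_stp]
  rw [lsum_eq]
  refine sum_le_sum fun i hi => ?_
  obtain ⟨x, x1, x2⟩ := wfam_sound (s := 1) (g := g) (by simpa only [one_mul] using hv) _ _ (by
    rw [Nat.add_sub_cancel' (stp_le _ _ _), stp_eq]
    omega) (hf i (mem_range.1 hi))
  simp only [one_mul, Nat.cast_zero, zero_add] at x2
  exact x2.trans (Nat.cast_le.2 (Nat.le_of_ble_eq_true x1))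

/-- The conditions for a sum of squares or a scalar product of length at most `n`. -/
def SqOk (V n b : ℕ) (S : Scl) : Prop := b + 1 ≤ V ∧ S.c * S.K + 2 ^ (b + 2) ≤ 2 ^ V ∧
  n * (2 * 2 ^ b) ^ 2 + 2 * n * 2 ^ b + 2 * 2 ^ b + 1 < 2 ^ V

def DtOk (V n K b : ℕ) (S : Scl) : Prop := b + 1 ≤ V ∧ S.c * S.K + 2 ^ (b + 2) ≤ 2 ^ V ∧
  n * (2 * K * (2 * 2 ^ b)) + 1 < 2 ^ V ∧ 2 * n * K + 2 * K + 1 < 2 ^ V ∧
  2 * n * 2 ^ b + 2 * 2 ^ b + 1 < 2 ^ V

instance (V n b : ℕ) (S : Scl) : Decidable (SqOk V n b S) := by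
  unfold SqOk
  infer_instance

instance (V n K b : ℕ) (S : Scl) : Decidable (DtOk V n K b S) := by
  unfold DtOk
  infer_instance

theorem ks_tile (g : ℕ → ℝ) (q n : ℕ) : ∑ i ∈ range n, ∑ m ∈ range (tot O.D.At.J
      (stp q O.D.At.nq (i + 1) - stp q O.D.At.nq i) (O.D.At.b0 + stp q O.D.At.nq i)),
      O.kq g (O.D.At.st (O.D.At.b0 + stp q O.D.At.nq i) + m) ≤ O.ks g := by
  rw [← sum_atT]
  exact sum_le_sum_of_subset_of_nonneg (range_subset_range.2 (st_stp _ _ _)) fun _ _ _ => kq_nn _ _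

theorem n_tile (A : Lay) (q n : ℕ) : ∑ i ∈ range n,
    (tot A.J (stp q A.nq (i + 1) - stp q A.nq i) (A.b0 + stp q A.nq i) : ℝ) ≤ A.N := by
  have := sum_atT A q (fun _ => 1) n
  simp only [sum_const, card_range, nsmul_eq_mul, mul_one] at this
  rw [← this]
  exact_mod_cast st_stp A q n

/-- One row on one tile. -/
theorem lsq_tile {b c q j J : ℕ} {S : Scl} {T : Trm} {g : ℕ → ℝ} {G : ℕ → ℕ → ℝ} {l σ : ℝ}
    (hσ : 0 < σ) (hS : SqOk O.D.V O.Nt b S) (hf : O.D.At.fit c q = true)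
    (hT : TOk O.D.V (tot O.D.At.J q c) J T (S.c * S.K) G 1) (hj : j < J)
    (hG : ∀ m < tot O.D.At.J q c, G j m = l * g (O.D.At.st c + m)) {f : ℕ → Bool}
    (h : lsq O.D.V (tot O.D.At.J q c) (S.c * S.K) b (keep O.D.V O.D.At.J O.As.J q c) T j f = true) :
    ∃ x, f x = true ∧ -1 * ((1 + σ) * l ^ 2 * ∑ m ∈ range (tot O.D.At.J q c),
      O.kq g (O.D.At.st c + m) + (1 + 1 / σ) * tot O.D.At.J q c) ≤ -1 * x := by
  have hp : tot O.D.At.J q c ≤ O.Nt := le_trans (Nat.le_add_left _ _) (fit_le hf)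
  obtain ⟨x, x1, x2⟩ := lsq_sound hT hj hS.1 hS.2.1 (lt_of_le_of_lt (by gcongr) hS.2.2)
    (vec_keep (by have := hS.1; omega) _ _ q c) hσ h
  refine ⟨x, x1, ?_⟩
  rw [neg_one_mul, neg_one_mul, neg_le_neg_iff, mul_assoc, mul_sum _ _ (l ^ 2)]
  refine x2.trans (le_of_eq ?_)
  rw [one_pow, mul_one]
  congr 2
  refine sum_congr rfl fun m hm => ?_
  obtain ⟨a1, a2, -⟩ := Lay.fit_iff.1 hf
  rw [Obj.kq, (Lay.mem_st a1 a2 (mem_range.1 hm)).2, hG m (mem_range.1 hm)]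
  split_ifs
  exacts [mul_pow _ _ _, (mul_zero _).symm]

theorem sum_flat (n : ℕ) (f : ℕ → ℝ) :
    ∀ m, ∑ t ∈ range (m * n), f t = ∑ i ∈ range n, ∑ j ∈ range m, f (j * n + i)
  | 0 => by simp
  | m + 1 => by
    simp only [add_mul, one_mul, sum_range_add _ (m * n), sum_flat n f m, sum_range_succ,
      sum_add_distrib]

theorem sum_cut {u : ℕ → ℕ} {f : ℕ → ℝ} (hf : ∀ i, 0 ≤ f i) {N : ℕ} : ∀ m,
    (∀ j < m, u j ≤ u (j + 1) ∧ u (j + 1) ≤ N) →
    ∑ j ∈ range m, ∑ i ∈ range (u (j + 1) - u j), f (u j + i) ≤ ∑ i ∈ range (min (u m) N), f i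
  | 0, _ => by simpa using sum_nonneg fun i _ => hf i
  | m + 1, h => by
    obtain ⟨a, b⟩ := h m (by omega)
    have := sum_cut hf m fun j hj => h j (by omega)
    rw [min_eq_left (a.trans b)] at this
    rw [sum_range_succ, min_eq_left b, ← Nat.add_sub_cancel' a, sum_range_add,
      Nat.add_sub_cancel_left]
    linarith

/-- The lower bounds. -/
theorem tailA_all (hw : O.Lo c w) (hc : 0 < c) {Ab : Lay} (hA : Sub Ab O.As) {g e b n m : ℕ}
    {S : Scl} {u : ℕ → ℕ} {B : List ℕ} (h : All (tailA O.D O.As Ab g n e b S w u B) (m * n))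
    (h1 : PrOk O.D.V O.D.c1 O.D.kX O.D.kP e S ∧ SqOk O.D.V O.Nt b S) {l σ a1 b4 : ℝ} (hσ : 0 < σ)
    (hl : 0 < l ∧ S.val * 2 ^ (O.D.sX + O.D.sP) = l) (h4 : (O.ws fun _ => 1) ≤ b4)
    (k1 : c * ((1 + σ) * l ^ 2 * a1 + (1 + 1 / σ) * O.Nt * b4) ≤ lsum B (m * n)) :
    a1 ≤ O.ws fun d => O.ks (yT O.D (ps O.D.Am d)) := by
  obtain ⟨⟨s1, s2, s3, s4⟩, s5⟩ := h1
  obtain ⟨l0, l1⟩ := hl
  have n1 := O.ok.n1
  have hσ' : 0 ≤ 1 + 1 / σ := by positivity
  have nt := mul_le_mul_of_nonneg_left (n_tile O.D.At g n) hσ'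
  refine le_of_mul_le_mul_left (a := c * ((1 + σ) * l ^ 2)) ?_ (by positivity)
  have k : (lsum B (m * n) : ℝ) ≤ c * O.ws fun d => (1 + σ) * l ^ 2 * O.ks (yT O.D (ps O.D.Am d))
      + (1 + 1 / σ) * O.Nt * 1 := by
    rw [lsum_eq, sum_flat]
    refine (sum_le_sum (g := fun i => c * O.ws fun d => (1 + σ) * l ^ 2 * ∑ m ∈ range (tot O.D.At.J
      (stp g O.D.At.nq (i + 1) - stp g O.D.At.nq i) (O.D.At.b0 + stp g O.D.At.nq i)),
      O.kq (yT O.D (ps O.D.Am d)) (O.D.At.st (O.D.At.b0 + stp g O.D.At.nq i) + m)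
      + (1 + 1 / σ) * tot O.D.At.J (stp g O.D.At.nq (i + 1) - stp g O.D.At.nq i)
        (O.D.At.b0 + stp g O.D.At.nq i)) fun i hi => ?_).trans ?_
    · have hi := mem_range.1 hi
      have t := fun j (hj : j < m) => h (j * n + i) (by nlinarith)
      have e1 : ∀ j, Nat.div (j * n + i) n = j := fun j => by
        change (j * n + i) / n = j
        rw [add_comm, Nat.add_mul_div_right _ _ (by omega), Nat.div_eq_of_lt hi, zero_add]
      have e2 : ∀ j, Nat.mod (j * n + i) n = i := fun j => by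
        change (j * n + i) % n = i
        rw [add_comm, Nat.add_mul_mod_self_right, Nat.mod_eq_of_lt hi]
      simp only [tailA, e1, e2, strict_eq, bnd_iff, atT_iff, Nat.ble_eq, Nat.add_eq, Nat.mul_eq,
        Nat.sub_eq] at t
      generalize stp g O.D.At.nq (i + 1) - stp g O.D.At.nq i = q at *
      generalize O.D.At.b0 + stp g O.D.At.nq i = a at *
      obtain ⟨G, hG⟩ : ∃ G : Ix → ℝ, G = fun d => (1 + σ) * l ^ 2 * ∑ m ∈ range (tot O.D.At.J q a),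
          O.kq (yT O.D (ps O.D.Am d)) (O.D.At.st a + m) + (1 + 1 / σ) * tot O.D.At.J q a := ⟨_, rfl⟩
      have nn : ∀ d, 0 ≤ G d := fun d => by
        have := sum_nonneg fun m (_ : m ∈ range (tot O.D.At.J q a)) =>
          kq_nn (O := O) (yT O.D (ps O.D.Am d)) (O.D.At.st a + m)
        rw [hG]
        positivity
      rw [← hG]
      refine le_trans ?_ (le_ws hw hc.le hA nn)
      have p : ∀ i, 0 ≤ bsum Ab (fun d => wAt O.As w d.1 d.2.1 d.2.2 * G d) i := fun i =>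
        sum_nonneg fun _ _ => mul_nonneg (Nat.cast_nonneg _) (nn _)
      refine le_trans (sum_le_sum fun j hj => ?_) ((sum_cut p m fun j hj => (t j hj).1).trans
        (sum_le_sum_of_subset_of_nonneg (range_subset_range.2 (min_le_right _ _)) fun _ _ _ => p _))
      obtain ⟨⟨f3, f4⟩, f1, f2⟩ := t j (mem_range.1 hj)
      subst hG
      obtain ⟨x, x1, x2⟩ := wfam_sound (s := -1) (g := fun d => (1 + σ) * l ^ 2 *
        ∑ m ∈ range (tot O.D.At.J q a), O.kq (yT O.D (ps O.D.Am d)) (O.D.At.st a + m)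
          + (1 + 1 / σ) * tot O.D.At.J q a) (fun b0 y hb m hm f hf => lsq_tile (l := l)
        (g := yT O.D (ps O.D.Am (b0, y, m))) hσ s5 f1 (tPro_ok (c0 := 1) (c := O.D.c1 - 1) s1
          (O.ok.X.blk (has_m (hA _ _ hb).1).1) (O.ok.TP.at f1) (by omega) (by omega)
          (has_m (hA _ _ hb).1).1 f1 s2 (lt_of_le_of_lt (by gcongr; omega) s3)
          (le_trans (by gcongr; omega) s4))
        (hm.trans_le ((hA _ _ hb).2.trans (has_m (hA _ _ hb).1).2)) (fun r _ => by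
          rw [← l1, yT, mul_assoc, mul_sum _ _ ((2 : ℝ) ^ _)]
          congr 1
          refine sum_congr rfl fun k _ => ?_
          rw [Dat.x, Dat.tp, pow_add, mul_one, ps]
          field_simp) hf) _ 0 (by omega) f2
      simp only [neg_one_mul, neg_le_neg_iff, Nat.cast_zero, zero_add] at x2
      exact (Nat.cast_le.2 (Nat.le_of_ble_eq_true x1)).trans x2
    · rw [← mul_sum, ws_sum]
      refine mul_le_mul_of_nonneg_left (ws_mono fun d _ => ?_) hc.le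
      rw [sum_add_distrib, ← mul_sum, ← mul_sum, mul_one]
      exact add_le_add (mul_le_mul_of_nonneg_left (ks_tile _ g n) (by positivity)) nt
  rw [ws_lin] at k
  nlinarith [mul_le_mul_of_nonneg_left h4 (show 0 ≤ c * ((1 + 1 / σ) * O.Nt) by positivity)]

theorem tailY_all {g z n : ℕ} {S : Scl} {B : List ℕ} (h : All (tailY O.D O.As g z S B) n)
    (h1 : S.Ok O.D.V O.D.kP ∧ SqOk O.D.V O.Nt z S) {l σ a2 : ℝ} (hσ : 0 < σ)
    (hl : 0 < l ∧ S.val * 2 ^ O.D.sP = l)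
    (k2 : (1 + σ) * l ^ 2 * a2 + (1 + 1 / σ) * O.Nt * 2 ≤ lsum B n) :
    a2 ≤ ∑ i ∈ range 2, O.ks (O.D.tp i) := by
  obtain ⟨s6, s7⟩ := h1
  obtain ⟨l2, l3⟩ := hl
  have n1 := O.ok.n1
  have hσ' : 0 ≤ 1 + 1 / σ := by positivity
  have nt := mul_le_mul_of_nonneg_left (n_tile O.D.At g n) hσ'
  refine le_of_mul_le_mul_left (a := (1 + σ) * l ^ 2) ?_ (by positivity)
  have k : (lsum B n : ℝ) ≤ ∑ j ∈ range 2, ((1 + σ) * l ^ 2 * O.ks (O.D.tp j)
      + (1 + 1 / σ) * O.Nt) := by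
    rw [lsum_eq]
    refine (sum_le_sum (g := fun i => ∑ j ∈ range 2, ((1 + σ) * l ^ 2 * ∑ m ∈ range (tot O.D.At.J
      (stp g O.D.At.nq (i + 1) - stp g O.D.At.nq i) (O.D.At.b0 + stp g O.D.At.nq i)),
      O.kq (O.D.tp j) (O.D.At.st (O.D.At.b0 + stp g O.D.At.nq i) + m)
      + (1 + 1 / σ) * tot O.D.At.J (stp g O.D.At.nq (i + 1) - stp g O.D.At.nq i)
        (O.D.At.b0 + stp g O.D.At.nq i))) fun i hi => ?_).trans ?_
    · have t := h i (mem_range.1 hi)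
      rw [tailY, atT_iff, strict_eq] at t
      obtain ⟨f1, f2⟩ := t
      generalize stp g O.D.At.nq (i + 1) - stp g O.D.At.nq i = q at *
      generalize O.D.At.b0 + stp g O.D.At.nq i = a at *
      obtain ⟨x, x1, x2⟩ := wsum_sound (s := -1) 2 0 (fun j hj f hf => lsq_tile (l := l)
        (g := O.D.tp j) hσ s7 f1 (tRow_ok (h := 0) (J := 2) s6 (O.ok.TP.at f1) (by omega) f1) hj
        (fun r _ => by
          rw [← l3, Dat.tp, zero_add]
          field_simp) hf) f2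
      simp only [neg_one_mul, neg_le_neg_iff, Nat.cast_zero, zero_add, Nat.cast_one, one_mul] at x2
      exact (Nat.cast_le.2 (Nat.le_of_ble_eq_true x1)).trans x2
    · rw [sum_comm]
      refine sum_le_sum fun j _ => ?_
      rw [sum_add_distrib, ← mul_sum, ← mul_sum]
      exact add_le_add (mul_le_mul_of_nonneg_left (ks_tile _ g n) (by positivity)) nt
  rw [sum_add_distrib, ← mul_sum, sum_const, card_range, nsmul_eq_mul] at k
  push_cast at k
  linarith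

theorem nf_le (O : Obj) : O.NF ≤ 16 * (O.D.c1 - 1) := by
  have := O.ok.n1
  change O.D.Ah.N ≤ _
  omega

theorem abs_le_sq {n : ℕ} (x : ℕ → ℝ) :
    ∑ b ∈ range n, |x b| ≤ 1 / 2 * ∑ b ∈ range n, x b ^ 2 + n / 2 * 1 := by
  have := sum_le_sum (s := range n) (g := fun b => 1 / 2 * x b ^ 2 + 1 / 2) fun b _ =>
    show |x b| ≤ _ by nlinarith [sq_nonneg (|x b| - 1), sq_abs (x b)]
  rw [sum_add_distrib, ← mul_sum, sum_const, card_range, nsmul_eq_mul] at this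
  linarith

/-- The columns of a block. -/
theorem col_x {b y m c0 n : ℕ} (hb : O.As.Has b y) (hm : m < O.As.J b y) (hn : c0 + n ≤ O.D.c1)
    (hK : 2 * O.D.kX < 2 ^ O.D.V) : Vec O.D.V (16 * n) O.D.kX
      (col O.D.V m (ldB O.D.V O.D.kX O.D.Am O.D.X b y c0 n))
      fun k => pent O.D.V O.D.Am O.D.X (16 * c0 + k) (O.D.Am.pos b y m) :=
  (mat_ldB (O.ok.X.blk (has_m hb).1) (by omega) (has_m hb).1).col (hm.trans_le (has_m hb).2) hK

/-- The upper bounds. -/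
theorem tailB_all (hw : O.Up c w) (hc : 0 < c) (hn : O.D.Ah.nq ≤ O.D.Ah.q * O.D.nh) {g e b n : ℕ}
    {S : Scl} {B1 B2 B3 : List ℕ} (h : All (tailB O.D O.As g e b S w B1 B2 B3) n)
    (hg : 2 * O.As.nq ≤ g * n) (h1 : PrOk O.D.V O.D.c1 O.D.kX O.D.kU e S ∧
      DtOk O.D.V O.NF O.D.kX b S ∧ 16 * O.D.c1 * (2 * O.D.kX) ^ 2 + 2 * (16 * O.D.c1) * O.D.kX
        + 2 * O.D.kX + 1 < 2 ^ O.D.V) {l b1 b2 b3 b4 : ℝ}
    (hl : 0 < l ∧ S.val * 2 ^ (O.D.sX + O.D.sU) = l) (h4 : (O.ws fun _ => 1) ≤ b4)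
    (k2 : lsum B2 n ≤ c * (4 ^ O.D.sX * b2)) (k3 : lsum B3 n ≤ c * (4 ^ O.D.sX * b3))
    (k1 : lsum B1 n + c * (2 ^ O.D.sX * (b2 / 2 + O.NF / 2 * b4)) ≤ c * (2 ^ O.D.sX * (l * b1))) :
    (O.ws fun d => ∑ b ∈ range O.NF, O.D.x (16 + b) (ps O.D.Am d) * yU O.D (ps O.D.Am d) b) ≤ b1 ∧
    (O.ws fun d => ∑ k ∈ range (16 * (O.D.c1 - 1)), O.D.x (16 + k) (ps O.D.Am d) ^ 2) ≤ b2 ∧
    (O.ws fun d => ∑ i ∈ range 2, O.D.x (2 + i) (ps O.D.Am d) ^ 2) ≤ b3 := by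
  obtain ⟨⟨s1, s2, s3, s4⟩, ⟨d1, d2, d3, d4, d5⟩, s5⟩ := h1
  obtain ⟨l0, l1⟩ := hl
  have n1 := O.ok.n1
  have hK : 2 * O.D.kX < 2 ^ O.D.V := by omega
  have sc : ∀ (p : ℕ) (r : ℕ → ℕ) (j : ℕ), ∑ k ∈ range p, (pent O.D.V O.D.Am O.D.X (r k) j : ℝ) ^ 2
      = 4 ^ O.D.sX * ∑ k ∈ range p, O.D.x (r k) j ^ 2 := fun p r j => by
    rw [mul_sum]
    refine sum_congr rfl fun k _ => ?_
    rw [Dat.x, show (4 : ℝ) = 2 ^ 2 by norm_num, ← pow_mul, mul_comm 2, pow_mul]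
    field_simp
  have r2 : (O.ws fun d => ∑ k ∈ range (16 * (O.D.c1 - 1)), O.D.x (16 + k) (ps O.D.Am d) ^ 2) ≤ b2 := by
    have k := (up_all hw (g := fun d => ∑ k ∈ range (16 * (O.D.c1 - 1)),
      (pent O.D.V O.D.Am O.D.X (16 + k) (ps O.D.Am d) : ℝ) ^ 2) (fun _ => by positivity)
      (fun b0 y hb m hm f hf => ⟨_, hf, by
        exact_mod_cast (sq_eq (col_x (c0 := 1) (n := O.D.c1 - 1) hb hm (by omega) hK) le_rfl
          (lt_of_le_of_lt (by gcongr <;> omega) s5)).ge⟩) hg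
      fun i hi => ((bnd_iff _ _).1 ((bnd_iff _ _).1 (h i hi)).2).1).trans k2
    simp only [sc, ws_mul] at k
    exact le_of_mul_le_mul_left (le_of_mul_le_mul_left k hc) (by positivity)
  refine ⟨?_, r2, ?_⟩
  · have k := up_all hw (g := fun d => max (2 ^ O.D.sX * (l * ∑ b ∈ range O.NF,
        O.D.x (16 + b) (ps O.D.Am d) * yU O.D (ps O.D.Am d) b
          - ∑ b ∈ range O.NF, |O.D.x (16 + b) (ps O.D.Am d)|)) 0) (fun _ => le_max_right _ _)
      (fun b0 y hb m hm f hf => by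
        obtain ⟨x, x1, x2⟩ := qval_sound (e := 1) (g := fun b => l * yU O.D (O.D.Am.pos b0 y m) b)
          (col_x (c0 := 1) (n := O.D.c1 - 1) hb hm (by omega) hK) (nf_le O)
          (hm.trans_le (has_m hb).2) (fun a q hf => by
            obtain ⟨u1, u2⟩ := O.ok.cU a 0 ⟨(Lay.fit_has hf).1, (Lay.fit_has hf).2, two_pos⟩
            refine ⟨_, tP_ok (n := 16 * (O.D.cU (O.D.Ah.pb a) - 1)) s1 (mat_rtake (mat_ldB (c0 := 1)
              (c := O.D.c1 - 1) (O.ok.X.blk (has_m hb).1) (by omega) (has_m hb).1) (by omega)) le_rfl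
              (mat_ldT (c0 := 1) (O.ok.U.at hf) (by omega) hf) s2
              (lt_of_le_of_lt (by gcongr; omega) s3) (le_trans (by gcongr; omega) s4), fun r hr => ?_⟩
            rw [← l1, yU, mul_assoc, ← sum_subset (range_subset_range.2 (show 16 * (O.D.cU
              (O.D.Ah.pb a) - 1) ≤ 16 * (O.D.c1 - 1) by omega)) fun k _ hk => by
                rw [Dat.u, pan_st hf hr, if_neg (by have := mem_range.not.1 hk; omega), mul_zero],
              mul_sum _ _ ((2 : ℝ) ^ _)]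
            congr 1
            refine sum_congr rfl fun k hk => ?_
            rw [Dat.x, Dat.u, pan_st hf hr, if_pos (by have := mem_range.1 hk; omega), pow_add,
              mul_one]
            field_simp) d1 d2 d3 d4 d5 hn hf
        refine ⟨x, x1, max_le (le_of_eq_of_le ?_ x2) (Nat.cast_nonneg x)⟩
        rw [one_mul, mul_sub, mul_sum, mul_sum, mul_sum]
        congr 1 <;> refine sum_congr rfl fun k _ => ?_
        · rw [Dat.x, ps, mul_one]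
          field_simp
        · rw [Dat.x, ps, mul_one, abs_div, abs_of_pos (show (0 : ℝ) < 2 ^ O.D.sX by positivity)]
          field_simp) hg fun i hi => ((bnd_iff _ _).1 (h i hi)).1
    have k' := mul_le_mul_of_nonneg_left (ws_mono (O := O)
      (g := fun d => 2 ^ O.D.sX * l * ∑ b ∈ range O.NF, O.D.x (16 + b) (ps O.D.Am d)
        * yU O.D (ps O.D.Am d) b + -2 ^ O.D.sX * (1 / 2 * ∑ k ∈ range (16 * (O.D.c1 - 1)),
          O.D.x (16 + k) (ps O.D.Am d) ^ 2 + O.NF / 2 * 1)) fun d _ => le_max_of_le_left (by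
      have a1 := abs_le_sq (n := O.NF) fun b => O.D.x (16 + b) (ps O.D.Am d)
      have a2 := sum_le_sum_of_subset_of_nonneg (range_subset_range.2 (nf_le O))
        (f := fun k => O.D.x (16 + k) (ps O.D.Am d) ^ 2) fun _ _ _ => sq_nonneg _
      have a3 : (0 : ℝ) < 2 ^ O.D.sX := by positivity
      nlinarith)) hc.le |>.trans k
    rw [ws_lin, ws_lin] at k'
    refine le_of_mul_le_mul_left (a := c * (2 ^ O.D.sX * l)) ?_ (by positivity)
    have a1 := mul_le_mul_of_nonneg_left r2 (show 0 ≤ c * 2 ^ O.D.sX by positivity)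
    have a2 := mul_le_mul_of_nonneg_left h4 (show 0 ≤ c * 2 ^ O.D.sX * O.NF by positivity)
    linarith
  · have k := (up_all hw (g := fun d => ∑ k ∈ range 2,
      (pent O.D.V O.D.Am O.D.X (2 + k) (ps O.D.Am d) : ℝ) ^ 2) (fun _ => by positivity)
      (fun b0 y hb m hm f hf => ⟨_, hf, by
        exact_mod_cast (sq_eq (n := 1) ((col_x (c0 := 0) (n := 1) hb hm (by omega) hK).cut (d := 2)
          (q := 2) (by omega) hK (by omega)) (by omega)
          (lt_of_le_of_lt (by gcongr <;> omega) s5)).ge⟩) hg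
      fun i hi => ((bnd_iff _ _).1 ((bnd_iff _ _).1 (h i hi)).2).2).trans k3
    simp only [sc, ws_mul] at k
    exact le_of_mul_le_mul_left (le_of_mul_le_mul_left k hc) (by positivity)

/-- The form on `Z` and the sum of the weights. -/
theorem tailZ_all (hw : O.Up c w) (hc : 0 < c) (hn : O.D.Ah.nq ≤ O.D.Ah.q * O.D.nh) {b Bz B4 : ℕ}
    {S : Scl} (h : tailZ O.D O.As b S w Bz B4 = true)
    (h1 : S.Ok O.D.V O.D.kU ∧ DtOk O.D.V O.NF O.D.kZ b S) {l z1 bz b4 : ℝ}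
    (hl : 0 < l ∧ S.val * 2 ^ O.D.sU = l) (hz : ∀ i < 2, ∑ a ∈ range O.NF, |O.D.z i a| ≤ z1)
    (k1 : Bz + 2 ^ O.D.sZ * (2 * z1) ≤ 2 ^ O.D.sZ * (l * bz)) (k4 : B4 ≤ c * b4) :
    ∑ i ∈ range 2, ∑ b ∈ range O.NF, O.D.z i b * O.D.u i b ≤ bz ∧ (O.ws fun _ => 1) ≤ b4 := by
  obtain ⟨s1, d1, d2, d3, d4, d5⟩ := h1
  obtain ⟨l0, l1⟩ := hl
  obtain ⟨f1, f2⟩ := (bnd_iff _ _).1 h
  have n1 := O.ok.n1
  constructor
  · obtain ⟨x, x1, x2⟩ := wsum_sound (s := 1) (g := fun i => 2 ^ O.D.sZ *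
      (l * ∑ b ∈ range O.NF, O.D.z i b * O.D.u i b - z1)) 2 0 (fun i hi f hf => by
        obtain ⟨x, x1, x2⟩ := qval_sound (e := 1) (g := fun b => l * O.D.u i b)
          ((mat_ld (c0 := 1) (c := O.D.c1 - 1) O.ok.Zc 0 2 (by omega)).col hi (by omega)) (nf_le O)
          hi (fun a q hf => by
            obtain ⟨u1, u2⟩ := O.ok.cU a 0 ⟨(Lay.fit_has hf).1, (Lay.fit_has hf).2, two_pos⟩
            refine ⟨_, tRow_ok (h := 0) (J := 2) s1 (O.ok.U.at hf) (by omega) hf, fun r hr => ?_⟩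
            rw [← l1, Dat.u, pan_st hf hr, if_pos (by omega), zero_add]
            field_simp) d1 d2 d3 d4 d5 hn hf
        refine ⟨x, x1, ?_⟩
        have e : ∀ a, (O.D.Zc.ent O.D.V (16 * 1 + a) (0 + i) : ℝ) = 2 ^ O.D.sZ * O.D.z i a :=
          fun a => by
            rw [Dat.z, zero_add, mul_one]
            field_simp
        simp only [e, abs_mul, abs_pow, abs_two, ← mul_sum, mul_assoc, mul_left_comm _ l] at x2
        have := mul_le_mul_of_nonneg_left (hz i hi) (show (0 : ℝ) ≤ 2 ^ O.D.sZ by positivity)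
        linarith) f1
    have x3 : (x : ℝ) ≤ Bz := Nat.cast_le.2 (Nat.le_of_ble_eq_true x1)
    refine le_of_mul_le_mul_left (a := 2 ^ O.D.sZ * l) ?_ (by positivity)
    simp only [sum_range_succ, sum_range_zero] at x2 ⊢
    push_cast at x2
    linarith
  · obtain ⟨x, x1, x2⟩ := wfam_sound (s := 1) (g := fun _ => 1) (A := O.As)
      (fun _ _ _ _ _ f hf => ⟨1, hf, by simp⟩) _ 0 (zero_add _).le f2
    simp only [one_mul, Nat.cast_zero, zero_add] at x2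
    exact le_of_mul_le_mul_left ((ws_le hw fun _ => zero_le_one).trans (x2.trans
      ((Nat.cast_le.2 (Nat.le_of_ble_eq_true x1)).trans k4))) hc

end Pool.Agent.Work.MP_6bf1e5_an.H.Ca
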