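import Pool.Agent.Work.MP_6bf1e5_an.H.PassSmA

/-! The results of the small passes (owner helper11). -/

open Finset Pool.Agent.Lib.KBlk Pool.Agent.Lib.KLA

namespace Pool.Agent.Work.MP_6bf1e5_an.H.Pz

open Ps

variable {D : Ps.Dat} {S S' : Scl} {c e e1 : ℕ} {l η : ℝ}

theorem int_zero {z : ℤ} (h : |l * z| ≤ η) (h' : η < l) : z = 0 := by
  by_contra t
  have t1 : (1 : ℝ) ≤ |(z : ℝ)| := by exact_mod_cast Int.one_le_abs t
  have t2 := (abs_nonneg _).trans h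
  rw [abs_mul, abs_of_pos (t2.trans_lt h')] at h
  nlinarith

theorem abs_of_mul {x : ℝ} (hl : 0 < l) (h : |l * x| ≤ l * η) : |x| ≤ η := by
  rw [abs_mul, abs_of_pos hl] at h
  exact le_of_mul_le_mul_left h hl

/-- The last rows of `Zc` are zero. -/
def ZP (D : Ps.Dat) : Prop :=
  ∀ a, D.Ah.N ≤ a → 16 + a < 16 * D.c1 → ∀ i < 2, D.Zc.ent D.V (16 + a) i = 0

theorem zp_all (h : D.Ok) (k : zp D S = true) (hS : S.Ok D.V D.kZ) (he : FinOk D.V (ko S) 0)
    (hl : 2 < S.val) : ZP D := fun a h1 h2 i hi => by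
  have t := cchk_one (j := a - D.Ah.N) (n := i) k (one_mul _).symm one_pos he
    (fun f => tPad_ok (A := A1) (M := fun _ => D.Zc) hS h.Zc f) (by rw [np_eq]; omega) hi
  rw [show A1.st 0 + i = i from Nat.zero_add _, pent_A1 _ _ _ hi,
    show 16 + D.Ah.N + (a - D.Ah.N) = 16 + a by omega] at t
  exact int_zero t (by norm_num; linarith)

theorem sum_cut {N n : ℕ} {f : ℕ → ℝ} (h : ∀ k, N ≤ k → k < n → f k = 0) :
    ∑ k ∈ range n, f k = ∑ k ∈ range N, if k < n then f k else 0 := by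
  rw [← sum_filter]
  refine (sum_subset (fun k hk => mem_range.2 (mem_filter.1 hk).2) fun k hk hk' => ?_).symm
  refine h k (not_lt.1 fun t => hk' ?_) (mem_range.1 hk)
  exact mem_filter.2 ⟨mem_range.2 t, mem_range.1 hk⟩

theorem zsum (h : D.Ok) (hz : ZP D) {s i : ℕ} (hi : i < 2) (hc : c ≤ D.c1) (w : ℕ → ℤ) {u : ℕ → ℝ}
    (hu : ∀ r < 16 * D.c1, u r = if r < 16 * c then (w r : ℝ) / 2 ^ s else 0)
    (h1 : S.val * 2 ^ (D.sZ + s) = l) :
    S.val * ∑ k ∈ range (16 * (c - 1)), (D.Zc.ent D.V (16 + k) i : ℝ) * w (16 + k) =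
      l * ∑ a ∈ range D.Ah.N, D.z i a * u (16 + a) := by
  rw [sum_cut (N := D.Ah.N) fun k k1 k2 => by rw [hz k k1 (by omega) i hi]; simp, ← h1, mul_assoc,
    mul_sum _ _ (2 ^ _)]
  refine congrArg _ (sum_congr rfl fun a ha => ?_)
  have := mem_range.1 ha
  have := h.n1
  rw [hu _ (by omega), Dat.z, pow_add]
  by_cases t : a < 16 * (c - 1)
  · rw [if_pos t, if_pos (by omega)]
    field_simp
  · rw [if_neg t, if_neg (by omega)]
    simp

theorem hat_real (h : D.Ok) (hz : ZP D) {s : ℕ} (hc : c ≤ D.c1) (hc' : 1 ≤ c) (w : ℕ → ℤ)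
    {u X : ℕ → ℝ} (hu : ∀ r < 16 * D.c1, u r = if r < 16 * c then (w r : ℝ) / 2 ^ s else 0)
    (hl : 0 < l) (h1 : S.val * 2 ^ (D.sZ + s) = l) (h2 : S'.val * 2 ^ s = -l)
    (hB : ∀ j < 16 + np D c, |(if j < 2 then S.val * ∑ k ∈ range (16 * (c - 1)),
      (D.Zc.ent D.V (16 + k) j : ℝ) * w (16 + k) else 0) + S'.val * w (hrow D j) + l * X j| ≤ l * η)
    (hX : ∀ j, 4 ≤ j → X j = 0) :
    (∀ i < 2, |∑ a ∈ range D.Ah.N, D.z i a * u (16 + a) + X i - u i| ≤ η) ∧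
    (∀ i < 2, |X (2 + i) - u (2 + i)| ≤ η) ∧
    ∀ r < 16 * D.c1, 4 ≤ r → (r < 16 ∨ 16 + D.Ah.N ≤ r) → |u r| ≤ η := by
  have e : ∀ r < 16 * c, S'.val * w r = -l * u r := fun r hr => by
    rw [hu r (by omega), if_pos hr, ← h2]
    field_simp
  have e' : ∀ j < 16, hrow D j = j := fun j hj => if_pos hj
  refine ⟨fun i hi => abs_of_mul hl ?_, fun i hi => abs_of_mul hl ?_, fun r h3 h4 h5 => ?_⟩
  · have t := hB i (by omega)
    rw [if_pos hi, zsum h hz hi hc w hu h1, e' i (by omega), e i (by omega)] at t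
    exact (congrArg _ (by ring)).trans_le t
  · have t := hB (2 + i) (by omega)
    rw [if_neg (by omega), e' _ (by omega), e _ (by omega)] at t
    exact (congrArg _ (by ring)).trans_le t
  by_cases h6 : r < 16 * c
  · obtain ⟨j, j1, j2, j3⟩ : ∃ j < 16 + np D c, 4 ≤ j ∧ hrow D j = r := by
      rcases h5 with h5 | h5
      · exact ⟨r, by omega, h4, e' r h5⟩
      · exact ⟨r - D.Ah.N, by rw [np_eq]; omega, by omega, by rw [hrow, if_neg (by omega)]; omega⟩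
    have t := hB j j1
    rw [if_neg (by omega), hX j j2, j3, e r h6] at t
    refine abs_of_mul hl ((abs_neg _).symm.trans_le ((congrArg _ (by ring)).trans_le t))
  · rw [hu r h3, if_neg h6, abs_zero]
    exact (abs_nonneg _).trans (abs_of_mul (x := 0) hl (by
      simpa using (abs_nonneg _).trans (hB 0 (by omega))))

/-- The special rows of the matrix `u` with `n` columns. -/
def Spec (D : Ps.Dat) (u X : ℕ → ℕ → ℝ) (n : ℕ) (η : ℝ) : Prop := ∀ k < n,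
  (∀ i < 2, |∑ a ∈ range D.Ah.N, D.z i a * u (16 + a) k + X i k - u i k| ≤ η) ∧
  (∀ i < 2, |X (2 + i) k - u (2 + i) k| ≤ η) ∧
  ∀ r < 16 * D.c1, 4 ≤ r → (r < 16 ∨ 16 + D.Ah.N ≤ r) → |u r k| ≤ η

theorem c1_pos (h : D.Ok) : 1 ≤ D.c1 := by have := h.n1; omega

theorem zt_all (h : D.Ok) (hz : ZP D) (k : Col (zt D c e e1 S S') D.At) (hc : 0 < c)
    (he : FinOk D.V (c * (ko S + ko S')) e) (hS : PrOk D.V (16 * D.c1) D.kZ D.kP e1 S)
    (hS' : S'.Ok D.V D.kP) (hl : 0 < l) (h1 : S.val * 2 ^ (D.sZ + D.sP) = l)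
    (h2 : S'.val * 2 ^ D.sP = -l) (h3 : 2 ^ e / c + 2 ≤ l * η) :
    Spec D D.tp (fun _ _ => 0) D.At.N η := fun r hr =>
  hat_real h hz le_rfl (c1_pos h) (fun j => pent D.V D.At D.TP j r) (fun _ t => (if_pos t).symm)
    hl h1 h2 (fun j hj => by
      rw [mul_zero, add_zero]
      exact (cchk_all (G := fun j k => (if j < 2 then S.val *
        ∑ i ∈ range (16 * (D.c1 - 1)), (D.Zc.ent D.V (16 + i) j : ℝ) *
          pent D.V D.At D.TP (16 + i) k else 0) + S'.val * pent D.V D.At D.TP (hrow D j) k)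
        k rfl hc he (fun b q f b1 b2 =>
        tH_ok h hS hS' le_rfl (c1_pos h) (h.TP b b1 b2) f) hr hj).trans h3) fun _ _ => rfl

theorem zu_all (h : D.Ok) (hz : ZP D) (k : Col (zu D c e e1 S S') D.Ah) (hc : 0 < c)
    (he : FinOk D.V (c * (ko S + ko S')) e) (hS : PrOk D.V (16 * D.c1) D.kZ D.kU e1 S)
    (hS' : S'.Ok D.V D.kU) (hl : 0 < l) (h1 : S.val * 2 ^ (D.sZ + D.sU) = l)
    (h2 : S'.val * 2 ^ D.sU = -l) (h3 : 2 ^ e / c + 2 ≤ l * η) :
    Spec D D.u (fun _ _ => 0) D.Ah.N η := fun r hr => by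
  have t := h.cU _ _ (Lay.mem_spec hr).1
  have t' : 1 ≤ D.cU (D.Ah.pb (D.Ah.mem r).1) := by omega
  refine hat_real h hz (c := D.cU (D.Ah.pan r)) (u := fun i => D.u i r) (X := fun _ => 0) t.1 t'
    (fun j => pent D.V D.Ah D.U j r) (fun _ _ => rfl) hl h1 h2 (fun j hj => ?_) fun _ _ => rfl
  rw [mul_zero, add_zero]
  refine (cchk_all (G := fun j k => (if j < 2 then S.val *
    ∑ i ∈ range (16 * (D.cU (D.Ah.pan k) - 1)), (D.Zc.ent D.V (16 + i) j : ℝ) *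
      pent D.V D.Ah D.U (16 + i) k else 0) + S'.val * pent D.V D.Ah D.U (hrow D j) k)
    k rfl hc he (fun b q f b1 b2 => ?_) hr hj).trans h3
  have t := h.cU b 0 ⟨b1, b2, two_pos⟩
  exact (tH_ok h hS hS' t.1 (by omega) (h.U b b1 b2) f).congr
    (fun j _ n hn => by rw [pan_st f hn]) le_rfl

theorem xrow_ok (h : D.Ok) (hS : S.Ok D.V D.kX) {b q : ℕ} (b1 : D.Am.b0 ≤ b)
    (b2 : b < D.Am.b0 + D.Am.nq) (f : D.Am.fit b q = true) {r J : ℕ} (hn : r + J ≤ 16 * D.c1) :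
    TOk D.V (tot D.Am.J q b) J (tRow D.V D.kX S D.Am D.X b q r J) (ko S)
      (fun j m => S.val * pent D.V D.Am D.X (r + j) (D.Am.st b + m)) 1 :=
  tRow_ok hS (h.X b b1 b2) hn f

theorem row_x (h1 : S.val * 2 ^ D.sX = l) (r k : ℕ) :
    S.val * pent D.V D.Am D.X r k = l * D.x r k := by
  rw [← h1, Dat.x]
  field_simp

theorem zk_all (h : D.Ok) (hz : ZP D) (k : Col (zk D c e e1 S S') D.Am) (hc : 0 < c)
    (he : FinOk D.V (c * (ko S + ko S')) e) (hS : PrOk D.V (16 * D.c1) D.kZ D.kK e1 S)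
    (hS' : S'.Ok D.V D.kX) (hl : 0 < l) {μ' : ℝ} (h1 : S.val * 2 ^ (D.sZ + D.sK) = l * (2 * μ'))
    (h2 : S'.val * 2 ^ D.sX = l) (h3 : 2 ^ e / c + 2 ≤ l * η) (i : ℕ) (hi : i < 2)
    (j : ℕ) (hj : j < D.Am.N) :
    |2 * μ' * ∑ a ∈ range D.Ah.N, D.z i a * D.k (16 + a) j + D.x i j| ≤ η := by
  have t := cchk_all (G := fun i j => S.val * ∑ k ∈ range (16 * (D.c1 - 1)),
      (D.Zc.ent D.V (16 + k) i : ℝ) * pent D.V D.Am D.K (16 + k) j +
      S'.val * pent D.V D.Am D.X (0 + i) j) k rfl hc he (fun b q f b1 b2 =>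
    (tZM_ok h hS le_rfl (c1_pos h) (h.K b b1 b2) f).seq
      (xrow_ok h hS' b1 b2 f (by have := c1_pos h; omega))) hj hi
  rw [zsum h hz hi le_rfl (fun r => pent D.V D.Am D.K r j) (u := fun r => D.k r j)
    (fun _ t => (if_pos t).symm) h1, zero_add, row_x h2] at t
  refine abs_of_mul hl ((congrArg _ (by ring)).trans_le (t.trans ?_))
  linarith

theorem zl_all (h : D.Ok) (hz : ZP D) {S1 S2 S3 : Scl}
    (k : Col (zl D c e e1 S S' S1 S2 S3) D.Am) (hc : 0 < c)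
    (he : FinOk D.V (c * (ko S + ko S' + (ko S1 + ko S2 + ko S3))) e)
    (hS : PrOk D.V (16 * D.c1) D.kZ D.kL e1 S) (hS' : S'.Ok D.V D.kL) (hS1 : S1.Ok D.V D.kX)
    (hS2 : S2.Ok D.V D.kX) (hS3 : S3.Ok D.V D.kX) (hl : 0 < l) {r1 r2 r3 : ℝ}
    (h1 : S.val * 2 ^ (D.sZ + D.sL) = l) (h2 : S'.val * 2 ^ D.sL = -l)
    (h4 : S1.val * 2 ^ D.sX = l * r1) (h5 : S2.val * 2 ^ D.sX = l * r2)
    (h6 : S3.val * 2 ^ D.sX = l * r3) (h3 : 2 ^ e / c + 5 ≤ l * η) :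
    Spec D D.la (fun i j => if i < 2 then r1 * D.x (2 + i) j + r2 * D.x i j
      else if i < 4 then r3 * D.x i j else 0) D.Am.N η := fun r hr => by
  refine hat_real h hz le_rfl (c1_pos h) (fun j => pent D.V D.Am D.La j r)
    (fun _ t => (if_pos t).symm) hl h1 h2 (fun j hj => ?_)
    fun j hj => (if_neg (by omega)).trans (if_neg (by omega))
  have hV : 0 < D.V := by have := he.1; omega
  have n := c1_pos h
  refine (cchk_all (ε := 5) (G := fun j k => (if j < 2 then S.val *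
    ∑ i ∈ range (16 * (D.c1 - 1)), (D.Zc.ent D.V (16 + i) j : ℝ) *
      pent D.V D.Am D.La (16 + i) k else 0) + S'.val * pent D.V D.Am D.La (hrow D j) k +
      l * if j < 2 then r1 * D.x (2 + j) k + r2 * D.x j k else if j < 4 then r3 * D.x j k else 0)
    k rfl hc he (fun b q f b1 b2 => ?_) hr hj).trans h3
  refine ((tH_ok h hS hS' le_rfl n (h.La b b1 b2) f).seq ((tF_ok
    ((xrow_ok h hS1 b1 b2 f (r := 2) (by omega)).seq (xrow_ok h hS2 b1 b2 f (r := 0) (by omega)))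
      hV (by norm_num) _).seq
    (rows_le (tU_ok ((tK_ok hV).congr (fun _ _ _ _ => rfl) zero_le_one)
      (tF_ok (xrow_ok h hS3 b1 b2 f (r := 2) (by omega)) hV zero_le_one (16 + np D D.c1)))
      (Nat.le_add_left _ _)))).congr (fun j _ m _ => congrArg _ ?_) (by norm_num)
  simp only [row_x h4, row_x h5, row_x h6]
  by_cases t : j < 2
  · simp only [if_pos t, zero_add]
    ring
  · by_cases t' : j < 4
    · simp only [if_neg t, if_pos t', if_pos (show j - 2 < 2 by omega),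
        show 2 + (j - 2) = j by omega]
      ring
    · simp only [if_neg t, if_neg t', if_neg (show ¬ j - 2 < 2 by omega)]
      ring

theorem sp_mul (r : ℝ) (w : ℕ → ℤ) (k : ℕ) : sp D (fun a => r * w a) k =
    r * (∑ a ∈ range D.Ah.N, w a * if D.lo a = k then 1 else 0 : ℤ) := by
  simp only [sp, Int.cast_sum, Int.cast_mul, Int.cast_ite, Int.cast_one, Int.cast_zero, mul_sum,
    mul_assoc]

theorem sp_exact {z : ℤ} {w : ℕ → ℤ} {k : ℕ} (h2 : S'.val = -S.val)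
    (h : |S.val * z + sp D (fun a => S'.val * w a) k| ≤ η) (h' : η < S.val) (s : ℕ) :
    (z : ℝ) / 2 ^ s = sp D (fun a => w a / 2 ^ s) k := by
  rw [sp_mul, h2, neg_mul, ← sub_eq_add_neg, ← mul_sub, ← Int.cast_sub] at h
  rw [sub_eq_zero.1 (int_zero h h'), div_eq_inv_mul, ← sp_mul]
  simp only [div_eq_inv_mul]

theorem s2_all (h : D.Ok) (k : Col (s2 D S S') D.Am)
    (he : FinOk D.V (ko S + 2 * D.Am.q * ko S') 0) (hS : S.Ok D.V D.kX) (hS' : S'.Ok D.V D.kZ)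
    (hK : 2 * D.kZ < 2 ^ D.V) (hs : D.sX = D.sZ) (h2 : S'.val = -S.val)
    (h3 : 2 + 2 * D.Am.q < S.val) (j : ℕ) (hj : j < D.Am.N) :
    (∀ i < 2, D.x (2 + i) j = sp D (D.z i) j) ∧
      ∀ a, D.Ah.N ≤ a → 16 + a < 16 * D.c1 → D.x (16 + a) j = 0 := by
  have hV : 0 < D.V := by have := he.1; omega
  have n := h.n1
  have t := fun i (hi : i < 2 + np D D.c1) => cchk_all (j := i) (ε := 1 + 2 * D.Am.q)
    (G := fun i k => S.val * pent D.V D.Am D.X (if i < 2 then 2 + i else 16 + D.Ah.N + (i - 2)) k +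
      if i < 2 then sp D (fun a => S'.val * D.Zc.ent D.V (16 + a) i) k else 0)
    k (one_mul _).symm one_pos he (fun b q f b1 b2 => ((tU_ok
      (xrow_ok h hS b1 b2 f (r := 2) (by omega)) (tPad_ok hS (h.X b b1 b2) f)).seq
      (tF_ok (tSp_ok (G := fun i a => S'.val * D.Zc.ent D.V (16 + a) i) h hV f fun b' y hb =>
        (tCol_ok (A := A1) (Z := fun _ => D.Zc) hS' hK h.Zc
        (by have := pos_le hb; omega) has_A1).congr (fun i hi m _ => by
          rw [pos_A1, pent_A1 _ _ _ hi, add_assoc, Lay.pos_add]) le_rfl) hV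
        (by positivity) _)).congr (fun i _ m _ => by split_ifs <;> rfl) le_rfl) hj hi
  refine ⟨fun i hi => ?_, fun a h1 h4 => ?_⟩
  · have t := t i (by omega)
    rw [if_pos hi, if_pos hi] at t
    rw [Dat.x, hs]
    exact sp_exact h2 t (by norm_num; linarith) _
  · have t := t (2 + (a - D.Ah.N)) (by rw [np_eq]; omega)
    rw [if_neg (by omega), if_neg (by omega), add_zero,
      show 16 + D.Ah.N + (2 + (a - D.Ah.N) - 2) = 16 + a by omega] at t
    rw [Dat.x, int_zero t (by norm_num; linarith), Int.cast_zero, zero_div]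

theorem s1_all (h : D.Ok) (k : Job (s1 D S S') D.Ah D.Am fun _ => D.Am.b0)
    (he : FinOk D.V (ko S + 2 * D.Am.q * ko S') 0) (hS : S.Ok D.V D.kX) (hS' : S'.Ok D.V D.kX)
    (hK : 2 * D.kX < 2 ^ D.V) (h2 : S'.val = -S.val) (h3 : 2 + 2 * D.Am.q < S.val) :
    (∀ a < D.Ah.N, ∀ b < D.Ah.N, D.f a b = D.f b a) ∧
      ∀ a < D.Ah.N, ∀ j < D.Am.N, D.x (16 + a) j = sp D (D.f a) j := by
  have hV : 0 < D.V := by have := he.1; omega
  have n := h.n1
  have t : ∀ a < D.Ah.N, ∀ j < D.Am.N, D.x (16 + a) j = sp D (fun b => D.f b a) j :=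
    fun a ha j hj => sp_exact h2 (pchk_all' (ε := 1 + 2 * D.Am.q)
      (G := fun a k => S.val * pent D.V D.Am D.X (16 + a) k +
        sp D (fun b => S'.val * pent D.V D.Am D.X (16 + b) (D.lo a)) k)
      k (one_mul _).symm one_pos he (fun b0 y b q hb f b1 b2 =>
        have hm := h.has _ _ hb
        ((xrow_ok h hS b1 b2 f (r := 16 + D.Ah.pos b0 y 0) (by have := pos_le hb; omega)).seq
        (tSp_ok (G := fun j a => S'.val * pent D.V D.Am D.X (16 + a) (D.lo (D.Ah.pos b0 y j)))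
          h hV f fun b' y' hb' => (rows_le (tCol_ok (h := 16 + D.Ah.pos b' y' 0)
          (n := D.c1) (p := D.Ah.J b' y') hS' hK (h.X b0 hm.1.1 hm.1.2.1)
          (by have := pos_le hb'; omega) hm.1) hm.2).congr (fun i hi m _ => by
            rw [add_assoc, Lay.pos_add, h.lo_pos hb hi]) le_rfl)).congr
          (fun i _ m _ => by rw [add_assoc, Lay.pos_add]) le_rfl) ha hj)
      (by norm_num; linarith) _
  have s : ∀ a < D.Ah.N, ∀ b < D.Ah.N, D.f a b = D.f b a := fun a ha b hb => by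
    rw [Dat.f, t a ha _ (h.lo_mem hb).1, sp_lo h _ hb]
  refine ⟨s, fun a ha j hj => (t a ha j hj).trans (sum_congr rfl fun b hb => ?_)⟩
  rw [s a ha b (mem_range.1 hb)]

theorem sp_off (g : ℕ → ℝ) {k : ℕ} (hk : ∀ b < D.Ah.N, D.lo b ≠ k) : sp D g k = 0 :=
  sum_eq_zero fun a ha => by rw [if_neg (hk a (mem_range.1 ha)), mul_zero]

theorem sy1_of (h : ∀ a < D.Ah.N, ∀ j < D.Am.N, D.x (16 + a) j = sp D (D.f a) j) :
    ∀ a < D.Ah.N, ∀ j < D.Am.N, (∀ b < D.Ah.N, D.lo b ≠ j) → D.x (16 + a) j = 0 :=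
  fun a ha j hj k => (h a ha j hj).trans (sp_off _ k)

theorem sy23_of (h : D.Ok) {p : ℕ → Prop}
    (hz : ∀ j < D.Am.N, (∀ i < 2, D.x (2 + i) j = sp D (D.z i) j) ∧ p j) :
    (∀ i < 2, ∀ b < D.Ah.N, D.x (2 + i) (D.lo b) = D.z i b) ∧
      ∀ i < 2, ∀ j < D.Am.N, (∀ b < D.Ah.N, D.lo b ≠ j) → D.x (2 + i) j = 0 :=
  ⟨fun i hi _ hb => ((hz _ (h.lo_mem hb).1).1 i hi).trans (sp_lo h _ hb),
    fun i hi j hj k => ((hz j hj).1 i hi).trans (sp_off _ k)⟩

theorem Spec.zero {u : ℕ → ℕ → ℝ} {n : ℕ} (h : Spec D u (fun _ _ => 0) n η) :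
    (∀ i < 2, ∀ r < n, |∑ a ∈ range D.Ah.N, D.z i a * u (16 + a) r - u i r| ≤ η) ∧
      ∀ q < 16 * D.c1, 2 ≤ q → q < 16 ∨ 16 + D.Ah.N ≤ q → ∀ r < n, |u q r| ≤ η := by
  refine ⟨fun i hi r hr => by simpa only [add_zero] using (h r hr).1 i hi,
    fun q h1 h2 h3 r hr => ?_⟩
  by_cases t : q < 4
  · simpa only [zero_sub, abs_neg, Nat.add_sub_cancel' h2] using (h r hr).2.1 (q - 2) (by omega)
  · exact (h r hr).2.2 q h1 (by omega) h3

theorem Spec.la {r1 r2 r3 : ℝ} (h : Spec D D.la (fun i j => if i < 2 then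
      r1 * D.x (2 + i) j + r2 * D.x i j else if i < 4 then r3 * D.x i j else 0) D.Am.N η) :
    (∀ i < 2, ∀ j < D.Am.N, |∑ a ∈ range D.Ah.N, D.z i a * D.la (16 + a) j
      + (r1 * D.x (2 + i) j + r2 * D.x i j) - D.la i j| ≤ η) ∧
    (∀ i < 2, ∀ j < D.Am.N, |r3 * D.x (2 + i) j - D.la (2 + i) j| ≤ η) ∧
    ∀ q < 16 * D.c1, 4 ≤ q → q < 16 ∨ 16 + D.Ah.N ≤ q → ∀ j < D.Am.N, |D.la q j| ≤ η :=
  ⟨fun i hi j hj => by simpa only [if_pos hi] using (h j hj).1 i hi, fun i hi j hj => by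
    simpa only [if_neg (show ¬2 + i < 2 by omega), if_pos (show 2 + i < 4 by omega)] using
      (h j hj).2.1 i hi, fun q h1 h2 h3 j hj => (h j hj).2.2 q h1 h2 h3⟩

end Pool.Agent.Work.MP_6bf1e5_an.H.Pz
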