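import Pool.Agent.Work.MP_6bf1e5_an.H.PassDef

/-! The checks of the small passes (owner helper11). -/

namespace Pool.Agent.Work.MP_6bf1e5_an.H.Pz

open Pool.Agent.Lib.KLA Pool.Agent.Lib.KBlk Ps

noncomputable section

/-- The layout of the two columns of `Zc`. -/
def A1 : Lay := ⟨0, 1, fun _ y => cnd (Nat.beq y 0) 2 0, 1⟩

/-- The offset after a scaling. -/
def ko (S : Scl) : Nat := Nat.mul S.c S.K

/-- Row `j` of `T` times `c j ≤ 2 ^ m`, scaled; the entries of `T` are less than `2 ^ e`. -/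
def tG (V p K e m : Nat) (S : Scl) (c : Nat → Nat) (T : Trm) : Trm := fun j x f =>
  T j 0 fun y => tight V p K e y fun z => strict (c j) fun a => bnd (Nat.ble a (Nat.shiftLeft 1 m))
    (strict (Nat.add (Nat.mul a z)
      (Nat.mul (Nat.shiftLeft (Nat.sub (Nat.shiftLeft 1 m) a) e) (ones V p))) fun w =>
      scl V p S w x f)

/-- The first `m` rows of `T`, then the rows of `U`. -/
def tU (m : Nat) (T U : Trm) : Trm := fun j => cnd (Nat.ble m j) (strict (Nat.sub j m) U) (T j)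

/-- The first two rows of `T`, then zero. -/
def tF (V K : Nat) (A : Lay) (b q : Nat) (T : Trm) : Trm :=
  strict (tot A.J q b) fun p => tU 2 T (tK V p K)

/-- The number of rows after the last test field. -/
def np (D : Dat) (c : Nat) : Nat := Nat.sub (Nat.mul 16 c) (Nat.add 16 D.Ah.N)

/-- The rows after the last test field. -/
def tPad (D : Dat) (K : Nat) (S : Scl) (A : Lay) (M : Nat → Chk) (c b q : Nat) : Trm :=
  strict (Nat.add 16 D.Ah.N) fun h => strict (np D c) fun n => tRow D.V K S A M b q h n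

/-- `Z` times the rows from `16` on. -/
def tZM (D : Dat) (K e : Nat) (S : Scl) (A : Lay) (M : Nat → Chk) (c b q : Nat) : Trm :=
  tPro D.V D.kZ K e S A1 (fun _ => D.Zc) A M 0 0 b q 1 (Nat.sub c 1)

/-- `Z` times the matrix, and the special rows of the matrix. -/
def tH (D : Dat) (K e : Nat) (S S' : Scl) (A : Lay) (M : Nat → Chk) (c b q : Nat) : Trm :=
  tS (tF D.V (ko S) A b q (tZM D K e S A M c b q))
    (tU 16 (tRow D.V K S' A M b q 0 16) (tPad D K S' A M c b q))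

/-- A vector indexed by the test fields, placed at the dual modes; `C h p` has the entries
`h - 16, ..., h - 16 + p - 1`. -/
def tSp (D : Dat) (K : Nat) (C : Nat → Nat → Trm) (b q : Nat) : Trm :=
  strict (tot D.Am.J q b) fun p => tA (fun r => strict (Nat.add b (Nat.div r 2)) fun b' =>
    strict (Nat.mod r 2) fun y => cnd
      (bnd (Nat.ble D.Ah.b0 b') (Nat.ble (Nat.add b' 1) (Nat.add D.Ah.b0 D.Ah.nq)))
      (strict (D.Ah.J b' y) fun n => strict (D.Am.J b' y) fun n' =>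
        strict (Nat.add 16 (D.Ah.pos b' y 0)) fun h =>
          tBlk D.V K D.Am b' y b q (tE D.V n' 0 n K (C h n)))
      (tK D.V p K)) (Nat.mul 2 D.Am.q)

/-- The check of the first `J` rows on a range of columns. -/
def cchk (V K c e : Nat) (A : Lay) (J : Nat → Nat) (T : Nat → Nat → Trm) (b q : Nat) : Bool :=
  strict (J (A.pb b)) fun r => pchk V K c e A (fun _ _ => T) 0 0 b q 0 r

/-- All columns. -/
def Col (f : Nat → Nat → Bool) (A : Lay) : Prop :=
  CovP (fun b q => f b q = true) A.b0 (A.b0 + A.nq)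

/-- The last rows of `Zc` are zero. -/
def zp (D : Dat) (S : Scl) : Bool :=
  cchk D.V (ko S) 1 0 A1 (fun _ => np D D.c1) (tPad D D.kZ S A1 (fun _ => D.Zc) D.c1) 0 1

/-- The pass ZT. -/
def zt (D : Dat) (c e e1 : Nat) (S S' : Scl) : Nat → Nat → Bool :=
  cchk D.V (Nat.mul c (Nat.add (ko S) (ko S'))) c e D.At (fun _ => Nat.add 16 (np D D.c1))
    (tH D D.kP e1 S S' D.At D.TP D.c1)

/-- The pass ZU. -/
def zu (D : Dat) (c e e1 : Nat) (S S' : Scl) : Nat → Nat → Bool :=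
  cchk D.V (Nat.mul c (Nat.add (ko S) (ko S'))) c e D.Ah (fun p => Nat.add 16 (np D (D.cU p)))
    fun b => tH D D.kU e1 S S' D.Ah D.U (D.cU (D.Ah.pb b)) b

/-- The pass ZK. -/
def zk (D : Dat) (c e e1 : Nat) (S S' : Scl) : Nat → Nat → Bool :=
  cchk D.V (Nat.mul c (Nat.add (ko S) (ko S'))) c e D.Am (fun _ => 2) fun b q =>
    tS (tZM D D.kK e1 S D.Am D.K D.c1 b q) (tRow D.V D.kX S' D.Am D.X b q 0 2)

/-- The pass ZL. -/
def zl (D : Dat) (c e e1 : Nat) (S S' S1 S2 S3 : Scl) : Nat → Nat → Bool :=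
  cchk D.V (Nat.mul c (Nat.add (Nat.add (ko S) (ko S'))
      (Nat.add (Nat.add (ko S1) (ko S2)) (ko S3)))) c e D.Am (fun _ => Nat.add 16 (np D D.c1))
    fun b q => tS (tH D D.kL e1 S S' D.Am D.La D.c1 b q)
      (tS (tF D.V (Nat.add (ko S1) (ko S2)) D.Am b q
          (tS (tRow D.V D.kX S1 D.Am D.X b q 2 2) (tRow D.V D.kX S2 D.Am D.X b q 0 2)))
        (strict (tot D.Am.J q b) fun p => tU 2 (tK D.V p (ko S3))
          (tF D.V (ko S3) D.Am b q (tRow D.V D.kX S3 D.Am D.X b q 2 2))))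

/-- The rows `2`, `3` and the last rows of `X`. -/
def s2 (D : Dat) (S S' : Scl) : Nat → Nat → Bool :=
  cchk D.V (Nat.add (ko S) (Nat.mul (Nat.mul 2 D.Am.q) (ko S'))) 1 0 D.Am
    (fun _ => Nat.add 2 (np D D.c1)) fun b q =>
    tS (tU 2 (tRow D.V D.kX S D.Am D.X b q 2 2) (tPad D D.kX S D.Am D.X D.c1 b q))
      (tF D.V (Nat.mul (Nat.mul 2 D.Am.q) (ko S')) D.Am b q
        (tSp D (ko S') (tCol D.V D.kZ S' A1 (fun _ => D.Zc) 0 0) b q))

/-- The rows of `X` are the columns. -/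
def s1 (D : Dat) (S S' : Scl) : Nat → Nat → Nat → Nat → Nat → Nat → Bool :=
  pchk D.V (Nat.add (ko S) (Nat.mul (Nat.mul 2 D.Am.q) (ko S'))) 1 0 D.Am fun b0 y b q =>
    tS (tRow D.V D.kX S D.Am D.X b q (Nat.add 16 (D.Ah.pos b0 y 0)) (D.Ah.J b0 y))
      (tSp D (ko S') (tCol D.V D.kX S' D.Am D.X b0 y) b q)

/-- The rows `2`, `3`, and zeros. -/
def two23 (V K p : Nat) (R : Rows) : Rows := (two (R.get 2) (R.get 3) (Nat.mul K (ones V p))).force

/-- The parameters of the pass VY. -/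
structure VyP where
  (c e e1 e3 e4 e5 e6 m n : Nat)
  (S1 S2 S3 S4 S5 S6 ST SR : Scl)

/-- The quotient `2 ^ m / a`, rounded up. -/
def rcp (m a : Nat) : Nat := Nat.div (Nat.sub (Nat.add (Nat.shiftLeft 1 m) a) 1) a

/-- The terms of the pass VY. -/
def tVY (D : Dat) (As : Lay) (β : Nat → Nat) (P : VyP) (b0 y b q : Nat) : Trm :=
  strict (tot D.Am.J q b) fun p => strict (As.J b0 y) fun J => strict (As.pos b0 y 0) fun s =>
  tS (tG D.V p (ko P.S4) P.e5 P.n P.S5 (fun j => rcp P.m (β (Nat.add s j)))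
      (tG D.V p (Nat.add (Nat.add (ko P.S1) (ko P.S2)) (ko P.S3)) P.e4 0 P.S4 (fun _ => 1)
        (tS (tS (tPro D.V D.kX D.kK P.e1 P.S1 D.Am D.X D.Am D.K b0 y b q 1 (Nat.sub D.c1 1))
            (tRow D.V D.kX P.S2 D.Am D.X b q (Nat.add 16 (D.Ah.pos b0 y 0)) J))
          (tP D.V p 16 D.kX D.kX P.e3 P.S3
            (two23 D.V D.kX (D.Am.J b0 y) (ldB D.V D.kX D.Am D.X b0 y 0 1))
            (two23 D.V D.kX p (ldT D.V D.kX D.Am D.X b q 0 1))))))
    (tG D.V p (Nat.add (ko P.ST) (ko P.SR)) P.e6 (Nat.add P.m 1) P.S6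
      (fun j => strict (β (Nat.add s j)) fun a => Nat.mul (rcp P.m a) a)
      (tS (tRow D.V D.kT P.ST D.Am D.Th b q (D.At.pos b0 y (Nat.sub (D.At.J b0 y) J)) J)
        (tRow D.V D.kR P.SR D.Am D.R b q s J)))

/-- The pass VY. -/
def vy (D : Dat) (As : Lay) (β : Nat → Nat) (P : VyP) : Nat → Nat → Nat → Nat → Nat → Nat → Bool :=
  pchk D.V (Nat.mul P.c (Nat.add (ko P.S5) (ko P.S6))) P.c P.e D.Am (tVY D As β P)

/-- The conditions on the layout of the pairs `om` and on the numbers `β > n`. -/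
def asz (D : Dat) (As : Lay) (β : Nat → Nat) (n : Nat) : Bool :=
  bnd (bnd (bnd (Nat.ble D.Ah.b0 As.b0) (Nat.ble (Nat.add As.b0 As.nq) (Nat.add D.Ah.b0 D.Ah.nq)))
      (bnd (Nat.ble D.At.b0 As.b0) (Nat.ble (Nat.add As.b0 As.nq) (Nat.add D.At.b0 D.At.nq))))
    (bnd (bnd (Nat.ble As.N (Nat.mul 16 (D.cR 0)))
      (allR (fun s => Nat.ble (Nat.succ n) (β s)) 0 As.N))
      (allR (fun b => bnd (bnd (Nat.ble (As.J b 0) (D.Ah.J b 0)) (Nat.ble (As.J b 1) (D.Ah.J b 1)))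
        (bnd (Nat.ble (As.J b 0) (D.At.J b 0)) (Nat.ble (As.J b 1) (D.At.J b 1)))) As.b0 As.nq))

end

end Pool.Agent.Work.MP_6bf1e5_an.H.Pz
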