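import Pool.Agent.Work.MP_6bf1e5_an.H.PassSem
import Pool.Agent.Work.MP_6bf1e5_an.H.PassSmD

/-! The terms of the small passes (owner helper11). -/

open Finset Pool.Agent.Lib.KBlk Pool.Agent.Lib.KLA

namespace Pool.Agent.Work.MP_6bf1e5_an.H.Pz

open Ps

/-- The final check fits. -/
def FinOk (V K e : ℕ) : Prop := e + 1 ≤ V ∧ K + 2 ^ (e + 2) ≤ 2 ^ V

/-- A product with at most `n` summands fits. -/
def PrOk (V n K K' e : ℕ) (S : Scl) : Prop :=
  S.Ok V (2 ^ e) ∧ e + 1 ≤ V ∧ 2 * n * K + 1 < 2 ^ V ∧ n * (K * K') + 2 ^ (e + 2) ≤ 2 ^ V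

instance (V K e : ℕ) : Decidable (FinOk V K e) := by
  unfold FinOk
  infer_instance

instance (V n K K' e : ℕ) (S : Scl) : Decidable (PrOk V n K K' e S) := by
  unfold PrOk
  infer_instance

variable {V p J J' K K0 e m c b q y n : ℕ} {S S' : Scl} {T U : Trm} {G G' : ℕ → ℕ → ℝ} {ε : ℝ}
  {A : Lay} {M : ℕ → Chk} {D : Ps.Dat}

theorem rows_le (h : TOk V p J T K G ε) (hJ : J' ≤ J) : TOk V p J' T K G ε :=
  fun j hj => h j (hj.trans_le hJ)

theorem tG_ok {a : ℕ → ℕ} (h : TOk V p J T K G ε) (hK : FinOk V K e) (hS : S.Ok V (2 ^ (m + e))) :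
    TOk V p J (tG V p K e m S a T) (ko S) (fun j n => S.val * (a j * G j n))
      (S.c / 2 ^ S.s * (2 ^ m * ε) + 1) := fun j hj x f K0 g0 e0 hx hf => by
  obtain ⟨y, y1, v, v1, v2⟩ := h j hj 0 _ 0 _ 0 (apx_nil V p) hf
  simp only [zero_add] at v1 v2
  obtain ⟨z, z1, z2, -⟩ := tight_sound y1 v1 hK.1 hK.2
  rw [strict_eq, bnd_iff, strict_eq, Nat.ble_eq, shl_eq, shl_eq, one_mul, Nat.sub_eq] at z1
  have t := (z2.smul (a j)).add (vec_zero (by have := hK.1; omega) p ((2 ^ m - a j) * 2 ^ e))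
  rw [← add_mul, Nat.add_sub_cancel' z1.1, ← pow_add] at t
  refine scl_sound (g' := fun n => a j * G j n) hS ⟨_, t, fun n hn => ?_⟩ hx z1.2
  push_cast
  rw [add_zero, ← mul_sub, abs_mul, Nat.abs_cast]
  exact mul_le_mul (by exact_mod_cast z1.1) (v2 n hn) (abs_nonneg _) (by positivity)

theorem tU_ok (h : TOk V p m T K G ε) (h' : TOk V p J U K G' ε) :
    TOk V p (m + J) (tU m T U) K (fun j => if j < m then G j else G' (j - m)) ε :=
  fun j hj x f K0 g0 e0 hx hf => by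
    rw [tU, cnd_eq] at hf
    by_cases hm : j < m
    · rw [if_neg (by rw [Nat.ble_eq]; omega)] at hf
      simpa only [if_pos hm] using h j hm x f K0 g0 e0 hx hf
    · rw [if_pos (by rw [Nat.ble_eq]; omega)] at hf
      simpa only [if_neg hm] using h' (j - m) (by omega) x f K0 g0 e0 hx hf

theorem tF_ok (h : TOk V (tot A.J q b) 2 T K G ε) (hV : 0 < V) (hε : 0 ≤ ε) (J : ℕ) :
    TOk V (tot A.J q b) J (tF V K A b q T) K (fun j n => if j < 2 then G j n else 0) ε :=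
  (rows_le (tU_ok h ((tK_ok (J := J) hV).congr (fun _ _ _ _ => rfl) hε))
    (Nat.le_add_left _ _)).congr (fun j _ n _ => by split_ifs <;> rfl) le_rfl

theorem np_eq (D : Ps.Dat) (c : ℕ) : np D c = 16 * c - (16 + D.Ah.N) := rfl

theorem tPad_ok (hS : S.Ok D.V K) (hM : (M (A.pb b)).ok D.V K (16 * c) = true)
    (hf : A.fit b q = true) : TOk D.V (tot A.J q b) (np D c) (tPad D K S A M c b q) (ko S)
      (fun j n => S.val * pent D.V A M (16 + D.Ah.N + j) (A.st b + n)) 1 := fun j hj =>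
  tRow_ok hS hM (by rw [np_eq] at hj ⊢; change 16 + D.Ah.N + _ ≤ _; omega) hf j hj

theorem pent_A1 (V : ℕ) (Z : Chk) (k : ℕ) {i : ℕ} (hi : i < 2) :
    pent V A1 (fun _ => Z) k i = Z.ent V k i := by
  interval_cases i <;> rfl

theorem has_A1 : A1.Has 0 0 := ⟨le_rfl, one_pos, two_pos⟩

theorem pos_A1 (i : ℕ) : A1.pos 0 0 i = i := Nat.zero_add _ |>.trans (Nat.zero_add _)

theorem tZM_ok (h : D.Ok) (hS : PrOk D.V (16 * D.c1) D.kZ K e S) (hc : c ≤ D.c1) (hc' : 1 ≤ c)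
    (hM : (M (A.pb b)).ok D.V K (16 * c) = true) (hf : A.fit b q = true) :
    TOk D.V (tot A.J q b) 2 (tZM D K e S A M c b q) (ko S) (fun i n => S.val *
      ∑ k ∈ range (16 * (c - 1)), (D.Zc.ent D.V (16 + k) i : ℝ) *
        pent D.V A M (16 + k) (A.st b + n)) 1 := by
  obtain ⟨h1, h2, h3, h4⟩ := hS
  have t : 16 * (c - 1) ≤ 16 * D.c1 := by omega
  exact (tPro_ok (A := A1) (Z := fun _ => D.Zc) (c0 := 1) (c := c - 1) h1 h.Zc hM (by omega)
    (by omega) has_A1 hf h2 (lt_of_le_of_lt (by gcongr) h3) (le_trans (by gcongr) h4)).congr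
    (fun i hi n _ => by simp only [pos_A1, pent_A1 _ _ _ hi, mul_one]) le_rfl

/-- The row that is checked at place `j`. -/
def hrow (D : Ps.Dat) (j : ℕ) : ℕ := if j < 16 then j else D.Ah.N + j

theorem tH_ok (h : D.Ok) (hS : PrOk D.V (16 * D.c1) D.kZ K e S) (hS' : S'.Ok D.V K)
    (hc : c ≤ D.c1) (hc' : 1 ≤ c) (hM : (M (A.pb b)).ok D.V K (16 * c) = true)
    (hf : A.fit b q = true) : TOk D.V (tot A.J q b) (16 + np D c) (tH D K e S S' A M c b q)
      (ko S + ko S') (fun j n => (if j < 2 then S.val * ∑ k ∈ range (16 * (c - 1)),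
        (D.Zc.ent D.V (16 + k) j : ℝ) * pent D.V A M (16 + k) (A.st b + n) else 0) +
        S'.val * pent D.V A M (hrow D j) (A.st b + n)) 2 :=
  ((tF_ok (tZM_ok h hS hc hc' hM hf) (by have := hS.2.1; omega) zero_le_one _).seq
    (tU_ok (tRow_ok hS' hM (by omega) hf) (tPad_ok hS' hM hf))).congr (fun j _ n _ => by
      rw [hrow]
      by_cases t : j < 16
      · simp only [if_pos t, zero_add]
      · simp only [if_neg t, show 16 + D.Ah.N + (j - 16) = D.Ah.N + j by omega]) (by norm_num)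

theorem pos_le (hb : A.Has b y) : A.pos b y 0 + A.J b y ≤ A.N := by
  obtain ⟨h1, h2, h3⟩ := hb
  obtain ⟨z, hz⟩ : ∃ z, A.nq = b - A.b0 + (z + 1) := ⟨A.nq - (b - A.b0) - 1, by omega⟩
  rw [Lay.N, Lay.pos, hz, tot_add, Nat.add_sub_cancel' h1, tot, enc]
  interval_cases y <;> simp <;> omega

theorem pan_st (hf : A.fit b q = true) (hn : n < tot A.J q b) : A.pan (A.st b + n) = A.pb b := by
  obtain ⟨a1, a2, -⟩ := Lay.fit_iff.1 hf
  obtain ⟨a3, a4, -⟩ := dec_spec A.J q b n hn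
  rw [Lay.pan, (Lay.mem_st a1 a2 hn).2, Lay.pb_eq hf a3 a4]

/-- A vector placed at the dual modes. -/
noncomputable def sp (D : Ps.Dat) (g : ℕ → ℝ) (k : ℕ) : ℝ :=
  ∑ a ∈ range D.Ah.N, g a * if D.lo a = k then 1 else 0

theorem sp_pos (h : D.Ok) (g : ℕ → ℝ) (hb : D.Ah.Has b y) (hm : m < D.Ah.J b y) :
    sp D g (D.Am.pos b y m) = g (D.Ah.pos b y m) := by
  rw [sp, sum_eq_single (D.Ah.pos b y m) (fun a ha hne => ?_)
    fun t => absurd (mem_range.2 (Lay.mem_pos hb hm).1) t, if_pos (h.lo_pos hb hm), mul_one]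
  rw [if_neg, mul_zero]
  intro e
  have t := (h.lo_mem (mem_range.1 ha)).2
  rw [e, (Lay.mem_pos (h.has _ _ hb).1 (hm.trans_le (h.has _ _ hb).2)).2] at t
  have t' := (Lay.mem_spec (mem_range.1 ha)).2.2
  rw [← t] at t'
  exact hne t'.symm

theorem sp_lo (h : D.Ok) (g : ℕ → ℝ) {a : ℕ} (ha : a < D.Ah.N) : sp D g (D.lo a) = g a := by
  obtain ⟨a1, a2, a3⟩ := Lay.mem_spec ha
  rw [Dat.lo, sp_pos h g a1 a2, a3]

theorem sp_zero (h : D.Ok) (g : ℕ → ℝ) {k : ℕ} (hk : ¬ (D.Ah.Has (D.Am.mem k).1 (D.Am.mem k).2.1 ∧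
    (D.Am.mem k).2.2 < D.Ah.J (D.Am.mem k).1 (D.Am.mem k).2.1)) : sp D g k = 0 :=
  sum_eq_zero fun a ha => by
    rw [if_neg, mul_zero]
    rintro rfl
    rw [(h.lo_mem (mem_range.1 ha)).2] at hk
    exact hk ⟨(Lay.mem_spec (mem_range.1 ha)).1, (Lay.mem_spec (mem_range.1 ha)).2.1⟩

theorem tSp_ok (h : D.Ok) {C : ℕ → ℕ → Trm} (hV : 0 < D.V) (hf : D.Am.fit b q = true)
    (hC : ∀ b y, D.Ah.Has b y → TOk D.V (D.Ah.J b y) J (C (16 + D.Ah.pos b y 0) (D.Ah.J b y)) K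
      (fun j m => G j (D.Ah.pos b y m)) 1) :
    TOk D.V (tot D.Am.J q b) J (tSp D K C b q) (2 * D.Am.q * K)
      (fun j n => sp D (G j) (D.Am.st b + n)) (2 * D.Am.q) := by
  have t := tA_ok (W := D.V) (p := tot D.Am.J q b) (J := J) (K := fun _ => K) (e := fun _ => 1)
    (T := fun r => cnd (bnd (Nat.ble D.Ah.b0 (b + r / 2))
        (Nat.ble (b + r / 2 + 1) (D.Ah.b0 + D.Ah.nq)))
      (tBlk D.V K D.Am (b + r / 2) (r % 2) b q (tE D.V (D.Am.J (b + r / 2) (r % 2)) 0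
        (D.Ah.J (b + r / 2) (r % 2)) K
        (C (16 + D.Ah.pos (b + r / 2) (r % 2) 0) (D.Ah.J (b + r / 2) (r % 2)))))
      (tK D.V (tot D.Am.J q b) K))
    (G := fun r j n => if (D.Am.mem (D.Am.st b + n)).1 = b + r / 2 ∧
      (D.Am.mem (D.Am.st b + n)).2.1 = r % 2 then sp D (G j) (D.Am.st b + n) else 0)
    (2 * D.Am.q) fun r _ => ?_
  · simp only [sum_const, card_range, smul_eq_mul, nsmul_eq_mul, mul_one, Nat.cast_mul,
      Nat.cast_ofNat] at t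
    refine t.congr (fun j _ n hn => ?_) le_rfl
    obtain ⟨a1, a2, a3⟩ := Lay.fit_iff.1 hf
    obtain ⟨a4, a5, a6, -⟩ := dec_spec D.Am.J q b n hn
    rw [← (Lay.mem_st a1 a2 hn).2] at a4 a5 a6
    have a7 := Nat.mul_div_le (b - D.Am.b0) D.Am.q
    rw [Lay.pb, mul_add] at a3
    rw [sum_eq_single (2 * ((D.Am.mem (D.Am.st b + n)).1 - b) + (D.Am.mem (D.Am.st b + n)).2.1)
      (fun r _ hr => if_neg (by omega)) fun t => absurd (mem_range.2 (by omega)) t,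
      if_pos (by omega)]
  · obtain ⟨a1, a2, -⟩ := Lay.fit_iff.1 hf
    refine TOk.cnd _ (fun hc => ?_) fun hc => ?_
    · rw [bnd_iff, Nat.ble_eq, Nat.ble_eq] at hc
      have hb : D.Ah.Has (b + r / 2) (r % 2) := ⟨hc.1, hc.2, Nat.mod_lt _ two_pos⟩
      refine (tBlk_ok (tE_ok (d := 0) (hC _ _ hb) hV zero_le_one
        (by simpa using (h.has _ _ hb).2)) hV zero_le_one (h.has _ _ hb).1 hf).congr
        (fun j _ n hn => ?_) le_rfl
      have a3 := (Lay.mem_spec (Lay.mem_st a1 a2 hn).1).2.2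
      split_ifs with c1 c2
      · rw [c1.1, c1.2] at a3
        exact (sp_pos h _ hb (by simpa using c2.2)).symm.trans (congrArg _ a3)
      · rw [sp_zero h _ fun t => c2 ⟨Nat.zero_le _, by simpa [c1.1, c1.2] using t.2⟩]
      · rfl
    · refine (tK_ok hV).congr (fun j _ n hn => ?_) zero_le_one
      split_ifs with c1
      · refine (sp_zero h _ fun t => ?_).symm
        have : bnd (Nat.ble D.Ah.b0 (b + r / 2)) (Nat.ble (b + r / 2 + 1) (D.Ah.b0 + D.Ah.nq)) =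
            true := by
          rw [bnd_iff, Nat.ble_eq, Nat.ble_eq, ← c1.1]
          exact ⟨t.1.1, t.1.2.1⟩
        rw [hc] at this
        exact Bool.false_ne_true this
      · rfl

theorem cchk_one {J : ℕ → ℕ} {T : ℕ → ℕ → Trm} (h : cchk V K0 c e A J T b q = true)
    (hK : K0 = c * K) (hc : 0 < c) (he : FinOk V K0 e) (hT : A.fit b q = true →
      TOk V (tot A.J q b) (J (A.pb b)) (T b q) K G ε) {j : ℕ} (hj : j < J (A.pb b))
    (hn : n < tot A.J q b) : |G j n| ≤ 2 ^ e / c + ε :=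
  let ⟨f1, f2⟩ := (bnd_iff _ _).1 h
  finN_sound (hT f1) hK hc f2 he.1 he.2 (Nat.zero_le _) (by simpa using hj) hj n hn

theorem cchk_all {J : ℕ → ℕ} {T : ℕ → ℕ → Trm} (h : Col (cchk V K0 c e A J T) A)
    (hK : K0 = c * K) (hc : 0 < c) (he : FinOk V K0 e)
    (hT : ∀ b q, A.fit b q = true → A.b0 ≤ b → b < A.b0 + A.nq →
      TOk V (tot A.J q b) (J (A.pb b)) (T b q) K (fun j n => G j (A.st b + n)) ε)
    {j k : ℕ} (hk : k < A.N) (hj : j < J (A.pan k)) : |G j k| ≤ 2 ^ e / c + ε := by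
  obtain ⟨⟨a1, a2, -⟩, -⟩ := Lay.mem_spec hk
  obtain ⟨b, q, b1, b2, t⟩ := h _ a1 a2
  have f1 := ((bnd_iff _ _).1 t).1
  have f2 := (Lay.fit_iff.1 f1).1
  obtain ⟨n, n1, rfl⟩ := Lay.st_of hk f2 b1 b2
  rw [pan_st f1 n1] at hj
  exact cchk_one t hK hc he (fun f => hT b q f f2 (b1.trans_lt a2)) hj n1

theorem pchk_all' {B : Lay} {T : ℕ → ℕ → ℕ → ℕ → Trm}
    (h : Job (pchk V K0 c e B T) A B fun _ => B.b0) (hK : K0 = c * K) (hc : 0 < c)
    (he : FinOk V K0 e) (hT : ∀ b0 y b q, A.Has b0 y → B.fit b q = true → B.b0 ≤ b →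
      b < B.b0 + B.nq → TOk V (tot B.J q b) (A.J b0 y) (T b0 y b q) K
        (fun j n => G (A.pos b0 y j) (B.st b + n)) ε)
    {j k : ℕ} (hj : j < A.N) (hk : k < B.N) : |G j k| ≤ 2 ^ e / c + ε :=
  h.all (E := fun j k => |G j k| ≤ 2 ^ e / c + ε) (fun b0 y b q _ _ hb _ hf =>
    let ⟨f1, f2⟩ := (bnd_iff _ _).1 hf
    let ⟨f3, f4, _⟩ := Lay.fit_iff.1 f1
    ⟨f3, fun _ hj h1 h2 n hn => finN_sound (hT b0 y b q hb f1 f3 (by
      have := dec_spec B.J q b n hn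
      omega)) hK hc f2 he.1 he.2 h1 h2 hj n hn⟩) hj hk (Lay.mem_spec hk).1.1

end Pool.Agent.Work.MP_6bf1e5_an.H.Pz
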