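import Pool.Agent.Work.MP_6bf1e5_an.H.PassQ

/-! The field `tail` from the checks (owner helper39). -/

open Finset Pool.Agent.Lib.KBlk

namespace Pool.Agent.Work.MP_6bf1e5_an.H.Ca

open Ps

theorem ext_err {N n : ℕ} (h : N ≤ n) {t : ℕ → ℝ} {p : Fin N → ℝ} {e : ℝ}
    (h1 : ∀ a : Fin N, |p a - t a| ≤ e) (h2 : ∀ k, N ≤ k → k < n → |t k| ≤ e) (X : ℕ → ℝ) :
    |∑ a : Fin N, p a * X a - ∑ k ∈ range n, X k * t k| ≤ e * ∑ k ∈ range n, |X k| := by
  refine le_of_eq_of_le (congrArg _ ?_) (dot1 (s := range n)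
    (v := fun k => (if h : k < N then p ⟨k, h⟩ else 0) - t k) (fun k hk => ?_) X)
  · simp only [mul_sub, sum_sub_distrib]
    congr 1
    rw [← sum_subset (range_subset_range.2 h) fun k _ hk => by
      rw [dif_neg (mem_range.not.1 hk), mul_zero], sum_range]
    exact sum_congr rfl fun a _ => by rw [dif_pos a.2, mul_comm]
  · split_ifs with k1
    · exact h1 ⟨k, k1⟩
    · rw [zero_sub, abs_neg]
      exact h2 k (not_lt.1 k1) (mem_range.1 hk)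

theorem l1_sq {n : ℕ} {m : ℝ} (h : n ≤ m) (X : ℕ → ℝ) :
    (∑ k ∈ range n, |X k|) ^ 2 ≤ m * ∑ k ∈ range n, X k ^ 2 := by
  have := sq_sum_le_card_mul_sum_sq (s := range n) (f := fun k => |X k|)
  simp only [card_range, sq_abs] at this
  exact this.trans (mul_le_mul_of_nonneg_right h (by positivity))

variable {O : Obj} {mv mu : Sc} {g τ : ℝ}

theorem ks_le {G : ℕ → ℝ} {T : Fin O.Nt → ℝ} {δ σ : ℝ} (hσ : 0 < σ) (h : ∀ r, |T r - G r| ≤ δ) :
    O.ks G ≤ (1 + σ) * ∑ b, T (O.e (.inl b)) ^ 2 + (1 + 1 / σ) * (O.Nt * δ ^ 2) := by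
  have k : O.ks G ≤ ∑ r : Fin O.Nt, ((1 + σ) * (if Kept O.D.At.J O.As.J (O.D.At.mem r) then
      T r ^ 2 else 0) + (1 + 1 / σ) * δ ^ 2) := by
    rw [Obj.ks, sum_range]
    refine sum_le_sum fun r _ => ?_
    unfold Obj.kq
    split_ifs
    exacts [sq_young hσ (h r), by positivity]
  rw [sum_add_distrib, ← mul_sum, sum_const, card_univ, Fintype.card_fin, nsmul_eq_mul,
    mul_left_comm, ← O.e.sum_comp, Fintype.sum_sum_type,
    sum_eq_zero (s := univ (α := Fin O.NS)) fun s _ => if_neg (by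
      change ¬Kept _ _ (O.D.At.mem (O.po s))
      have := (O.st _ _ (mem_in s.2).1).2
      simp only [Obj.mem_po, Kept, Obj.om]
      omega), add_zero] at k
  refine k.trans (add_le_add_left (mul_le_mul_of_nonneg_left (sum_le_sum fun b _ => ?_)
    (by positivity)) _)
  split_ifs
  exacts [le_rfl, sq_nonneg _]

theorem ws_fin (g : Ix → ℝ) : O.ws g = ∑ s, O.bs s ^ 2 * g (O.As.mem s) := sum_range _

/-- The scalar conditions; `m` bounds the number of rows. -/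
def TlT.Ok (q : TlT) (t : HatT) (μ μ' g τ nt m s σ ρ l1 l2 v1 v2 vth : ℝ) : Prop :=
  (0 ≤ μ ∧ 0 ≤ μ' ∧ 0 ≤ g ∧ 0 ≤ τ ∧ 0 ≤ t.eU) ∧ (0 < s ∧ 0 < σ ∧ 0 ≤ ρ ∧ ρ + g < 2) ∧
  (0 ≤ v1 ∧ 0 ≤ v2) ∧
  (1 + σ) * l1 + (1 + 1 / σ) * (nt * (t.eP ^ 2 * m)) * q.b2 ≤ q.a1 ∧
  (1 + σ) * l2 + (1 + 1 / σ) * (nt * (t.eP * t.z1 + t.eP) ^ 2) * 2 ≤ q.a2 ∧
  (1 + s) * g * (q.b1 + 2 * m * t.eU * q.b2 - ρ * l1)
    + (1 + 1 / s) * τ * ((t.nU + m * t.eU) * t.f ^ 2) ≤ v1 ^ 2 ∧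
  ((1 + s) * g) ^ 2 * (t.b ^ 2 * q.b2)
    + (1 + 1 / s) * τ * (2 * ((1 + s) * g) * q.b4 + (1 + 1 / s) * τ) * t.f ^ 2 ≤ v2 ^ 2 ∧
  v1 + μ * (v2 + 2 * ((1 + s) * g * q.b3 + (1 + 1 / s) * τ * t.nZ ^ 2))
    + μ' * (q.bz + 2 * (t.eU * t.z1) + m * t.eU * t.nZ ^ 2 - ρ * l2) ≤ vth

theorem TlT.Ok.mono {q : TlT} {t t' : HatT} {μ μ' g g' τ τ' nt m s σ ρ l1 l2 v1 v2 vth : ℝ}
    (k : q.Ok t' μ μ' g' τ' nt m s σ ρ l1 l2 v1 v2 vth)
    (hq : 0 ≤ q.b2 ∧ 0 ≤ q.b3 ∧ 0 ≤ q.b4 ∧ 0 ≤ nt ∧ 0 ≤ m ∧ ρ * l1 ≤ q.b1)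
    (hg : 0 ≤ g ∧ g ≤ g') (hτ : 0 ≤ τ ∧ τ ≤ τ') (eP : 0 ≤ t.eP ∧ t.eP ≤ t'.eP)
    (eU : 0 ≤ t.eU ∧ t.eU ≤ t'.eU) (z1 : 0 ≤ t.z1 ∧ t.z1 ≤ t'.z1) (f : 0 ≤ t.f ∧ t.f ≤ t'.f)
    (nZ : 0 ≤ t.nZ ∧ t.nZ ≤ t'.nZ) (nU : 0 ≤ t.nU ∧ t.nU ≤ t'.nU) (b : 0 ≤ t.b ∧ t.b ≤ t'.b) :
    q.Ok t μ μ' g τ nt m s σ ρ l1 l2 v1 v2 vth := by
  obtain ⟨⟨n1, n2, -, -, -⟩, ⟨n6, n7, n8, n9⟩, n10, k1, k2, k3, k4, k5⟩ := k
  obtain ⟨q2, q3, q4, q5, q6, q7⟩ := hq
  obtain ⟨g0, g1⟩ := hg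
  obtain ⟨τ0, τ1⟩ := hτ
  obtain ⟨a0, a1⟩ := eP
  obtain ⟨b0, b1⟩ := eU
  obtain ⟨c0, c1⟩ := z1
  obtain ⟨d0, d1⟩ := f
  obtain ⟨e0, e1⟩ := nZ
  obtain ⟨f0, f1⟩ := nU
  obtain ⟨h0, h1⟩ := b
  have := g0.trans g1
  have := τ0.trans τ1
  have := a0.trans a1
  have := b0.trans b1
  have := f0.trans f1
  have : 0 ≤ q.b1 + 2 * m * t.eU * q.b2 - ρ * l1 := by
    have : 0 ≤ 2 * m * t.eU * q.b2 := by positivity
    linarith
  refine ⟨⟨n1, n2, g0, τ0, b0⟩, ⟨n6, n7, n8, by linarith⟩, n10, le_trans ?_ k1, le_trans ?_ k2,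
    le_trans ?_ k3, le_trans ?_ k4, le_trans ?_ k5⟩ <;> gcongr

/-- The hypothesis `tail` of `Obj.Ok.l1`. -/
theorem Obj.Ok.tail (h : O.Ok mv mu g τ) {t : HatT} (p : O.Rs t) {q : TlT} (r : O.Tl q)
    (hF : ∑ a : Fin O.NF, ∑ b : Fin O.NF, O.D.f a b ^ 2 ≤ t.f ^ 2)
    (hZ : ∑ i : Fin 2, ∑ a : Fin O.NF, O.D.z i a ^ 2 ≤ t.nZ ^ 2) {m s σ ρ l1 l2 v1 v2 vth : ℝ}
    (hm : (16 * O.D.c1 : ℕ) ≤ m) (k : q.Ok t O.μ O.μ' g τ O.Nt m s σ ρ l1 l2 v1 v2 vth) (w : Vc)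
    (hw : Adm w) (hp : ∀ i, Perp (9 / 4) (O.n + 1) (w i)) :
    -(vth * (nw mv (curl w) + nw mu w)) ≤ O.T.FF w := by
  obtain ⟨⟨n1, n2, n3, n4, n5⟩, ⟨n6, n7, n8, n9⟩, ⟨n10, n11⟩, k1, k2, k3, k4, k5⟩ := k
  have H := h.hat p
  have hn : ((16 * (O.D.c1 - 1) : ℕ) : ℝ) ≤ m := le_trans (Nat.cast_le.2 (by omega)) hm
  have hN : (O.NF : ℝ) ≤ m := (Nat.cast_le.2 (nf_le O)).trans hn
  have m0 : 0 ≤ m := (Nat.cast_nonneg _).trans hN
  have hU := Nm.of_ent (a := m * t.eU) (by positivity) H.pp (by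
    rw [Fintype.card_fin, mul_pow, sq m, mul_assoc]
    exact mul_le_mul hN (mul_le_mul_of_nonneg_right hN (sq_nonneg _)) (by positivity) m0)
  have lo : ∀ s, O.D.lo (O.bg s) = ps O.D.Am (O.As.mem s) := fun s => by
    rw [Dat.lo, Obj.mem_bg, ps]
  have eF : ∀ s, rF O.L.F (fun a => O.bs s * sel O.bg s a) =
      fun a : Fin O.NF => O.bs s * O.D.x (16 + a) (ps O.D.Am (O.As.mem s)) := fun s => by
    funext a
    simp only [rF, mul_assoc, ← mul_sum, sel_vec]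
    rw [h.sF _ (O.bg s).2 _ a.2, Dat.f, lo]
  have sub : ∀ X : ℕ → ℝ, ∑ a : Fin O.NF, X a ^ 2 ≤ ∑ k ∈ range (16 * (O.D.c1 - 1)), X k ^ 2 :=
    fun X => by
      rw [← sum_range fun a => X a ^ 2]
      exact sum_le_sum_of_subset_of_nonneg (range_subset_range.2 (nf_le O)) fun _ _ _ => sq_nonneg _
  have tl := fun x => h.fam.tail_P hU (σ := 2 - g - ρ) (ρ := ρ) (d := 0) (by linarith)
    (by linarith) x (Ts := fun b => ∑ a, pP O.T O.ov O.ou a (O.xv (O.e (.inl b)))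
      (O.xu (O.e (.inl b))) * x a) (by simp)
  refine tail_of_eps h.good h.hn h.fam.bP h.fam.bQ (fun a => h.lθ _ (mem_in a.2)) h.wv h.wu n1 n2
    (fun s a => O.bs s * sel O.bg s a) (by positivity) (by positivity) (h.fam.tail_θ n6)
    (fun s => tl _) (fun i => tl _) (fun a => h.fam.raw_P hU p.nU _) hF hZ (bb := q.b4) ?_ n10 n11
    (le_trans (add_le_add (mul_le_mul_of_nonneg_left ?_ (by positivity))
      (mul_le_mul_of_nonneg_left ?_ (by positivity))) k3) ?_ k4 ?_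
    (le_trans (add_le_add_right (mul_le_mul_of_nonneg_left ?_ n2) _) k5) w hw hp
  · refine le_of_eq_of_le ?_ r.b4
    rw [ws_fin]
    exact sum_congr rfl fun s _ => by simp [sel]
  · have a1 := r.a1
    have b1 := r.b1
    have b2 := r.b2
    rw [ws_fin] at a1 b1 b2
    have e1 : l1 ≤ ∑ s, ∑ b, (∑ a, pP O.T O.ov O.ou a (O.xv (O.e (.inl b))) (O.xu (O.e (.inl b)))
        * rF O.L.F (fun a => O.bs s * sel O.bg s a) a) ^ 2 := by
      refine le_of_mul_le_mul_left (a := 1 + σ) ?_ (by positivity)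
      have := a1.trans (sum_le_sum (g := fun s => (1 + σ) * ∑ b, (∑ a, pP O.T O.ov O.ou a
          (O.xv (O.e (.inl b))) (O.xu (O.e (.inl b))) * rF O.L.F (fun a => O.bs s * sel O.bg s a) a) ^ 2
          + (1 + 1 / σ) * (O.Nt * (t.eP ^ 2 * m)) * (O.bs s ^ 2 * ∑ k ∈ range (16 * (O.D.c1 - 1)),
            O.D.x (16 + k) (ps O.D.Am (O.As.mem s)) ^ 2)) fun s _ => by
        have c1 := mul_le_mul_of_nonneg_left (ks_le n7 (G := yT O.D (ps O.D.Am (O.As.mem s)))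
          fun r => ext_err (nf_le O) (t := fun k => O.D.tp (16 + k) r) (fun a => H.tp a r)
            (fun k a1 a2 => p.zt1 _ (by omega) (by omega) (.inr (by omega)) r r.2)
            fun k => O.D.x (16 + k) (ps O.D.Am (O.As.mem s))) (sq_nonneg (O.bs s))
        have c2 := mul_le_mul_of_nonneg_left (l1_sq hn fun k => O.D.x (16 + k)
          (ps O.D.Am (O.As.mem s))) (show 0 ≤ O.bs s ^ 2 * ((1 + 1 / σ) * (O.Nt * t.eP ^ 2)) by
            positivity)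
        simp only [eF, mul_left_comm _ (O.bs s), ← mul_sum, mul_pow] at c1 ⊢
        linarith)
      rw [sum_add_distrib, ← mul_sum, ← mul_sum] at this
      linarith [mul_le_mul_of_nonneg_left b2
        (show 0 ≤ (1 + 1 / σ) * (O.Nt * (t.eP ^ 2 * m)) by positivity)]
    have e2 := sum_le_sum (s := univ) (f := fun s => ∑ a : Fin O.NF, ∑ b : Fin O.NF,
        O.D.u (16 + a) b * (rF O.L.F (fun a => O.bs s * sel O.bg s a) a
          * rF O.L.F (fun a => O.bs s * sel O.bg s a) b)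
        + m * t.eU * ∑ a, rF O.L.F (fun a => O.bs s * sel O.bg s a) a ^ 2)
      (g := fun s => O.bs s ^ 2 * ∑ b ∈ range O.NF, O.D.x (16 + b) (ps O.D.Am (O.As.mem s))
          * yU O.D (ps O.D.Am (O.As.mem s)) b + 2 * m * t.eU * (O.bs s ^ 2 *
        ∑ k ∈ range (16 * (O.D.c1 - 1)), O.D.x (16 + k) (ps O.D.Am (O.As.mem s)) ^ 2)) fun s _ => by
      rw [eF]
      generalize ps O.D.Am (O.As.mem s) = j
      have c1 := (abs_le.1 (dot1 (s := univ) (fun (b : Fin O.NF) _ => ext_err (nf_le O)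
        (t := fun k => O.D.u (16 + k) b) (p := fun a => O.D.u (16 + a) b) (fun a => by simpa using n5)
        (fun k a1 a2 => p.zu1 _ (by omega) (by omega) (.inr (by omega)) b b.2)
        fun k => O.D.x (16 + k) j) fun b => O.D.x (16 + b) j)).2
      have c2 : ∑ b : Fin O.NF, |O.D.x (16 + b) j| ≤ ∑ k ∈ range (16 * (O.D.c1 - 1)),
          |O.D.x (16 + k) j| := by
        rw [← sum_range fun a => |O.D.x (16 + a) j|]
        exact sum_le_sum_of_subset_of_nonneg (range_subset_range.2 (nf_le O))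
          fun _ _ _ => abs_nonneg _
      have c3 := mul_le_mul_of_nonneg_left (l1_sq hn fun k => O.D.x (16 + k) j) n5
      have c4 := mul_le_mul_of_nonneg_left c2 (show 0 ≤ t.eU * ∑ k ∈ range (16 * (O.D.c1 - 1)),
        |O.D.x (16 + k) j| by positivity)
      have c5 := mul_le_mul_of_nonneg_left (sub fun k => O.D.x (16 + k) j) (mul_nonneg m0 n5)
      have c6 : ∑ a : Fin O.NF, ∑ b : Fin O.NF, O.D.u (16 + a) b *
          (O.bs s * O.D.x (16 + a) j * (O.bs s * O.D.x (16 + b) j)) = O.bs s ^ 2 *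
          ∑ b : Fin O.NF, O.D.x (16 + b) j * ∑ a : Fin O.NF, O.D.u (16 + a) b * O.D.x (16 + a) j := by
        rw [sum_comm]
        simp only [mul_sum]
        exact sum_congr rfl fun _ _ => sum_congr rfl fun _ _ => by ring
      simp only [mul_sub, sum_sub_distrib] at c1
      simp only [c6, mul_pow, ← mul_sum, sum_range fun b => O.D.x (16 + b) j * yU O.D j b]
      have c7 : ∑ b : Fin O.NF, O.D.x (16 + b) j * ∑ a : Fin O.NF, O.D.u (16 + a) b * O.D.x (16 + a) j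
          + m * t.eU * ∑ a : Fin O.NF, O.D.x (16 + a) j ^ 2 ≤ ∑ b : Fin O.NF, O.D.x (16 + b) j
            * yU O.D j b + 2 * m * t.eU * ∑ k ∈ range (16 * (O.D.c1 - 1)), O.D.x (16 + k) j ^ 2 := by
        simp only [yU]
        linarith
      linarith [mul_le_mul_of_nonneg_left c7 (sq_nonneg (O.bs s))]
    simp only [zero_div, add_zero, sum_sub_distrib, ← mul_sum _ _ ρ]
    rw [sum_add_distrib (s := univ) (f := fun s => O.bs s ^ 2 * _), ← mul_sum] at e2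
    refine sub_le_sub (e2.trans (add_le_add b1 (mul_le_mul_of_nonneg_left b2 (by positivity))))
      (mul_le_mul_of_nonneg_left e1 n8)
  · rw [← mul_sum]
    exact mul_le_mul_of_nonneg_left hF (add_nonneg p.nU.1 hU.1)
  · have b2 := mul_le_mul_of_nonneg_left r.b2 (sq_nonneg t.b)
    rw [ws_fin, mul_sum] at b2
    refine le_trans (sum_le_sum fun s _ => ((nm_sel Obj.bg_inj H.nb.1 H.nb.2).2 _).trans
      (mul_le_mul_of_nonneg_left ?_ (sq_nonneg _))) b2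
    simp only [eF, mul_pow, ← mul_sum]
    exact mul_le_mul_of_nonneg_left (sub fun k => O.D.x (16 + k) _) (sq_nonneg _)
  · refine le_of_eq_of_le ?_ r.b3
    rw [ws_fin, sum_comm]
    refine sum_congr rfl fun s _ => ?_
    simp only [mul_assoc, ← mul_sum, sel_vec, mul_pow, sum_range]
    exact congrArg _ (sum_congr rfl fun i _ => by rw [← lo, p.sy2 i i.2 _ (O.bg s).2])
  · have z1 : ∀ i : Fin 2, ∑ a : Fin O.NF, |O.D.z i a| ≤ t.z1 := H.z1
    have e1 : l2 ≤ ∑ i : Fin 2, ∑ b, (∑ a, pP O.T O.ov O.ou a (O.xv (O.e (.inl b)))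
        (O.xu (O.e (.inl b))) * O.L.Z i a) ^ 2 := by
      refine le_of_mul_le_mul_left (a := 1 + σ) ?_ (by positivity)
      have a2 := r.a2
      rw [sum_range] at a2
      have := a2.trans (sum_le_sum fun i _ => ks_le n7 (δ := t.eP * t.z1 + t.eP) (T := fun r =>
        ∑ a, pP O.T O.ov O.ou a (O.xv r) (O.xu r) * O.L.Z i a) fun r => by
          have c1 := (dot1 (s := univ) (fun a _ => H.tp a r) (O.L.Z i)).trans
            (mul_le_mul_of_nonneg_left (z1 i) ((abs_nonneg _).trans (H.zt0 i r)))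
          refine le_of_eq_of_le (congrArg _ ?_) ((abs_add_le _ _).trans (add_le_add c1 (H.zt0 i r)))
          simp only [mul_sub, sum_sub_distrib, sub_add_sub_cancel]
          simp only [mul_comm (O.D.z _ _)]
          rfl)
      rw [sum_add_distrib, ← mul_sum, sum_const, card_univ, Fintype.card_fin, nsmul_eq_mul] at this
      push_cast at this
      linarith
    have e2 := sum_le_sum (s := univ) (f := fun i : Fin 2 => ∑ a : Fin O.NF, ∑ b : Fin O.NF,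
        O.D.u (16 + a) b * (O.D.z i a * O.D.z i b))
      (g := fun i => ∑ b : Fin O.NF, O.D.z i b * O.D.u i b + t.eU * t.z1) fun i _ => by
      have c1 := (abs_le.1 ((dot1 (s := univ) (fun b _ => H.zu0 i b) (O.L.Z i)).trans
        (mul_le_mul_of_nonneg_left (z1 i) n5))).2
      simp only [mul_sub, sum_sub_distrib, mul_sum] at c1
      rw [sum_comm]
      refine le_of_eq_of_le ?_ (sub_le_iff_le_add'.1 c1)
      exact sum_congr rfl fun _ _ => sum_congr rfl fun _ _ => (mul_comm _ _).trans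
        ((congrArg (· * _) (mul_comm _ _)).trans (mul_assoc _ _ _))
    have bz := r.bz
    simp only [sum_range] at bz
    rw [sum_add_distrib, sum_const, card_univ, Fintype.card_fin, nsmul_eq_mul] at e2
    simp only [zero_div, add_zero, sum_sub_distrib, sum_add_distrib, ← mul_sum]
    exact sub_le_sub (add_le_add (e2.trans (add_le_add bz (by norm_num)))
      (mul_le_mul_of_nonneg_left hZ hU.1)) (mul_le_mul_of_nonneg_left e1 n8)

end Pool.Agent.Work.MP_6bf1e5_an.H.Ca
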