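import Pool.Agent.Work.MP_6bf1e5_an.H.TbRule
import Pool.Agent.Work.MP_6bf1e5_an.H.FrD

/-! Axisymmetric vector fields: squares of the derivatives and frame components. -/

open scoped ContDiff Topology
open Set Filter

namespace Pool.Agent.Work.MP_6bf1e5_an.H

noncomputable section

/-- The field `(y₀ α + y₁ b, y₁ α - y₀ b, β)`. -/
def AxV (α β b : Sc) : Vc := ResAxi_M α β + sm b Jv

/-- The derivative in the polar angle. -/
def dth (f : Sc) : Sc := fun y => ‖y‖ * vC (grad f) 1 y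

def nG1 (γ : Sc) : Sc := fun y =>
  rd γ y ^ 2 / 2 + (2 * γ y + rd γ y) ^ 2 / 2 + (rc y * pd 2 γ y) ^ 2

def nG2 (γ : Sc) : Sc := fun y =>
  ((rd (rd γ) y - 2 * rd γ y) / rc y) ^ 2 / 4 + 3 * ((rd (rd γ) y + 2 * rd γ y) / rc y) ^ 2 / 4
    + rd (pd 2 γ) y ^ 2 + (2 * pd 2 γ y + rd (pd 2 γ) y) ^ 2 + (rc y * pd 2 (pd 2 γ) y) ^ 2

def nH2 (β : Sc) : Sc := fun y =>
  ((rd (rd β) y - 2 * rd β y) / rc y ^ 2) ^ 2 / 2 + (rd (rd β) y / rc y ^ 2) ^ 2 / 2
    + 2 * (rd (pd 2 β) y / rc y) ^ 2 + pd 2 (pd 2 β) y ^ 2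

/-- The frame components of `AxV`. -/
def AxC (α β b : Sc) : Vc :=
  ![fun y => ‖y‖ * Real.sin (pa y) ^ 2 * α y + Real.cos (pa y) * β y,
    fun y => ‖y‖ * Real.sin (pa y) * Real.cos (pa y) * α y - Real.sin (pa y) * β y,
    fun y => -(‖y‖ * Real.sin (pa y) * b y)]

/-- The frame components of its Jacobian matrix. -/
def AxJ (α β b : Sc) : Mc :=
  ![![fun y => Real.sin (pa y) ^ 2 * (α y + yd α y) + Real.cos (pa y) * yd β y / ‖y‖,
      fun y => Real.sin (pa y) * (Real.cos (pa y) * α y + Real.sin (pa y) * dth α y)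
        + Real.cos (pa y) * dth β y / ‖y‖,
      fun y => Real.sin (pa y) * b y],
    ![fun y => Real.sin (pa y) * Real.cos (pa y) * (α y + yd α y) - Real.sin (pa y) * yd β y / ‖y‖,
      fun y => Real.cos (pa y) * (Real.cos (pa y) * α y + Real.sin (pa y) * dth α y)
        - Real.sin (pa y) * dth β y / ‖y‖,
      fun y => Real.cos (pa y) * b y],
    ![fun y => -(Real.sin (pa y) * (b y + yd b y)),
      fun y => -(Real.cos (pa y) * b y + Real.sin (pa y) * dth b y), α]]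

end

variable {α β b ψ f : Sc} {y : R3} {a : ℝ}

theorem fld_AxV (h : ContDiff ℝ ∞ ψ) (b : Sc) :
    fld (sm ψ Jv) (sm b Jv) = AxV (pd 2 ψ) (ResAxi_q ψ) b := by
  rw [fld, ResAxi_curl_J h, AxV]

theorem AxV_zero (α β b : Sc) : AxV α β b 0 = fun y => y 0 * α y + 1 * (y 1 * b y) := by
  funext y; simp [AxV, ResAxi_M, sm, Jv, mul_comm]

theorem AxV_one (α β b : Sc) : AxV α β b 1 = fun y => y 1 * α y + -1 * (y 0 * b y) := by
  funext y; simp [AxV, ResAxi_M, sm, Jv, mul_comm]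

theorem AxV_two (α β b : Sc) : AxV α β b 2 = β := by
  funext y; simp [AxV, ResAxi_M, sm, Jv]

theorem pd_lin_x (hα : ContDiff ℝ ∞ α) (hb : ContDiff ℝ ∞ b) (i i' j : Fin 3) (c : ℝ) :
    pd j (fun y => y i * α y + c * (y i' * b y)) = fun y =>
      (if i = j then 1 else 0) * α y + c * (if i' = j then 1 else 0) * b y
        + (y i * pd j α y + c * (y i' * pd j b y)) := by
  funext y
  rw [ResHl_pd_add ((ResHl_sm_coord i).mul hα) (contDiff_const.mul ((ResHl_sm_coord i').mul hb)),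
    ResAxi_cmul ((ResHl_sm_coord i').mul hb), ResAxi_xmul hα]
  simp only [ResAxi_xmul hb]
  ring

theorem pd_pd_lin_x (hα : ContDiff ℝ ∞ α) (hb : ContDiff ℝ ∞ b) (i i' j k : Fin 3) (c : ℝ)
    (y : R3) : pd k (pd j fun y => y i * α y + c * (y i' * b y)) y =
      (if i = j then 1 else 0) * pd k α y + c * (if i' = j then 1 else 0) * pd k b y
        + ((if i = k then 1 else 0) * pd j α y + c * (if i' = k then 1 else 0) * pd j b y
        + (y i * pd k (pd j α) y + c * (y i' * pd k (pd j b) y))) := by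
  have h1 := ResHl_sm_pd hα j
  have h2 := ResHl_sm_pd hb j
  rw [pd_lin_x hα hb, ResHl_pd_add ((contDiff_const.mul hα).add (contDiff_const.mul hb))
    (((ResHl_sm_coord i).mul h1).add (contDiff_const.mul ((ResHl_sm_coord i').mul h2))),
    pd_lin_x h1 h2, ResHl_pd_add (contDiff_const.mul hα) (contDiff_const.mul hb),
    ResAxi_cmul hα, ResAxi_cmul hb]

theorem jet_one (h : Axi f) (hy : Off y) : ∃ p, pd 0 f y = y 0 * p ∧ pd 1 f y = y 1 * p ∧
    rd f y = (y 0 ^ 2 + y 1 ^ 2) * p := by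
  have hu : y 0 ^ 2 + y 1 ^ 2 ≠ 0 := hy
  have e := h.axi y
  refine ⟨rd f y / (y 0 ^ 2 + y 1 ^ 2), ?_, ?_, by field_simp⟩
  · rw [rd]; field_simp; linear_combination (-y 1) * e
  · rw [rd]; field_simp; linear_combination y 0 * e

theorem jet_two (h : Axi f) (hy : Off y) : ∃ p q g, (pd 0 f y = y 0 * p ∧ pd 1 f y = y 1 * p ∧
    rd f y = (y 0 ^ 2 + y 1 ^ 2) * p) ∧ (pd 0 (pd 0 f) y = p + y 0 ^ 2 * q ∧
    pd 0 (pd 1 f) y = y 0 * y 1 * q ∧ pd 1 (pd 0 f) y = y 0 * y 1 * q ∧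
    pd 1 (pd 1 f) y = p + y 1 ^ 2 * q ∧
    rd (rd f) y = (y 0 ^ 2 + y 1 ^ 2) ^ 2 * q + 2 * (y 0 ^ 2 + y 1 ^ 2) * p) ∧
    pd 0 (pd 2 f) y = y 0 * g ∧ pd 1 (pd 2 f) y = y 1 * g ∧ pd 2 (pd 0 f) y = y 0 * g ∧
    pd 2 (pd 1 f) y = y 1 * g ∧ rd (pd 2 f) y = (y 0 ^ 2 + y 1 ^ 2) * g := by
  have hu : y 0 ^ 2 + y 1 ^ 2 ≠ 0 := hy
  obtain ⟨p, h0, h1, hr⟩ := jet_one h hy
  obtain ⟨g, g0, g1, gr⟩ := jet_one h.pd_two hy
  have e0 := ResAxi_daxi h 0 y
  have e1 := ResAxi_daxi h 1 y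
  have c := ResHl_pd_comm h.smooth 1 0 y
  have e2 : rd (rd f) y = y 0 * pd 0 (rd f) y + y 1 * pd 1 (rd f) y := rfl
  rw [ResAxi_pd_rd h.smooth, ResAxi_pd_rd h.smooth] at e2
  simp only [if_true, show ((0 : Fin 3) = 1) = False by decide,
    show ((1 : Fin 3) = 0) = False by decide, if_false, h0, h1, c] at e0 e1 e2
  have k : pd 0 (pd 1 f) y = y 0 * y 1 *
      ((rd (rd f) y - 2 * (y 0 ^ 2 + y 1 ^ 2) * p) / (y 0 ^ 2 + y 1 ^ 2) ^ 2) := by
    rw [e2]; field_simp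
    linear_combination (y 0 ^ 3) * e0 - y 1 ^ 3 * e1
  refine ⟨p, (rd (rd f) y - 2 * (y 0 ^ 2 + y 1 ^ 2) * p) / (y 0 ^ 2 + y 1 ^ 2) ^ 2, g,
    ⟨h0, h1, hr⟩, ⟨?_, k, c.trans k, ?_, by field_simp; ring⟩, g0, g1,
    (ResHl_pd_comm h.smooth 2 0 y).trans g0, (ResHl_pd_comm h.smooth 2 1 y).trans g1, gr⟩
  · rw [e2]; field_simp
    linear_combination (-(2 * y 0 ^ 2 * y 1 + y 1 ^ 3)) * e0 - y 0 * y 1 ^ 2 * e1
  · rw [e2]; field_simp
    linear_combination (y 0 ^ 2 * y 1) * e0 + (2 * y 0 * y 1 ^ 2 + y 0 ^ 3) * e1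

theorem n1_eq (hα : Axi α) (hβ : Axi β) (hb : Axi b) (hy : Off y) :
    ∑ i, ∑ j, pd j (AxV α β b i) y ^ 2 =
      nG1 α y + nG1 b y + (rd β y / rc y) ^ 2 + pd 2 β y ^ 2 := by
  obtain ⟨p, h0, h1, hr⟩ := jet_one hα hy
  obtain ⟨q, k0, k1, kr⟩ := jet_one hb hy
  obtain ⟨g, g0, g1, gr⟩ := jet_one hβ hy
  have hu : y 0 ^ 2 + y 1 ^ 2 ≠ 0 := hy
  simp only [Fin.sum_univ_three, AxV_zero, AxV_one, AxV_two, pd_lin_x hα.smooth hb.smooth, nG1,
    mul_pow, div_pow, rc_sq, h0, h1, hr, k0, k1, kr, g0, g1, gr]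
  simp
  field_simp
  ring

theorem n2_eq (hα : Axi α) (hβ : Axi β) (hb : Axi b) (hy : Off y) :
    ∑ i, ∑ j, ∑ k, pd k (pd j (AxV α β b i)) y ^ 2 = nG2 α y + nG2 b y + nH2 β y := by
  obtain ⟨p, p', g, ⟨h0, h1, hr⟩, ⟨h2, h3, h4, h5, h6⟩, h7, h8, h9, h10, h11⟩ := jet_two hα hy
  obtain ⟨q, q', k, ⟨k0, k1, kr⟩, ⟨k2, k3, k4, k5, k6⟩, k7, k8, k9, k10, k11⟩ := jet_two hb hy
  obtain ⟨s, s', t, ⟨g0, g1, gr⟩, ⟨g2, g3, g4, g5, g6⟩, g7, g8, g9, g10, g11⟩ := jet_two hβ hy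
  have hu : y 0 ^ 2 + y 1 ^ 2 ≠ 0 := hy
  simp only [Fin.sum_univ_three, AxV_zero, AxV_one, AxV_two, pd_pd_lin_x hα.smooth hb.smooth, nG2,
    nH2, mul_pow, div_pow, rc_sq, h0, h1, hr, h2, h3, h4, h5, h6, h7, h8, h9, h10, h11,
    k0, k1, kr, k2, k3, k4, k5, k6, k7, k8, k9, k10, k11,
    gr, g2, g3, g4, g5, g6, g7, g8, g9, g10, g11]
  simp
  field_simp
  ring

theorem AxV_smooth (hα : Axi α) (hβ : Axi β) (hb : Axi b) (i : Fin 3) :
    ContDiff ℝ ∞ (AxV α β b i) :=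
  (ResAxi_M_smooth hα.smooth hβ.smooth i).add (ResAxi_J_smooth hb.smooth i)

theorem le_of_off {F G : Sc} (hF : Continuous F) (hG : Continuous G)
    (h : ∀ y, Off y → F y ≤ G y) (y : R3) : F y ≤ G y :=
  closure_minimal subset_rfl (isClosed_le hF hG)
    (MeasureTheory.Measure.dense_of_ae (ae_off.mono h) y)

theorem Off.AxV_eq (hy : Off y) (α β b : Sc) (i : Fin 3) :
    AxV α β b i y = vF (AxC α β b) i y := by
  have h1 := hy.norm_pos.ne'
  have h2 := hy.rc_pos.ne'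
  have h4 := norm_sq_rc y
  fin_cases i <;> simp [AxV_zero, AxV_one, AxV_two, vF, AxC, fr, Fin.sum_univ_three, hy.sin_pa,
    cos_pa] <;> field_simp
  · linear_combination y 0 * α y * h4
  · linear_combination y 1 * α y * h4
  · linear_combination β y * h4

theorem dth_eq (hy : Off y) (f : Sc) :
    dth f y = (y 0 * pd 0 f y + y 1 * pd 1 f y) * y 2 / rc y - rc y * pd 2 f y := by
  have r1 := hy.norm_pos.ne'
  have r2 := hy.rc_pos.ne'
  simp [dth, vC, dot, grad, fr, Fin.sum_univ_three]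
  field_simp
  ring

theorem Off.jac_AxV (hy : Off y) (hα : Axi α) (hβ : Axi β) (hb : Axi b) (i j : Fin 3) :
    jac (AxV α β b) i j y = mF (AxJ α β b) i j y := by
  obtain ⟨p, h0, h1, -⟩ := jet_one hα hy
  obtain ⟨q, k0, k1, -⟩ := jet_one hb hy
  obtain ⟨g, g0, g1, -⟩ := jet_one hβ hy
  have r1 := hy.norm_pos.ne'
  have r2 := hy.rc_pos.ne'
  have h3 := rc_sq y
  have h6 : rc y ^ 4 = (y 0 ^ 2 + y 1 ^ 2) ^ 2 := by rw [← h3]; ring
  refine (hy.mF_mC (jac (AxV α β b)) i j).symm.trans (mF_congr (fun k l => ?_) i j)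
  fin_cases k <;> fin_cases l <;> simp [mC, bf, jac, AxV_zero, AxV_one, AxV_two, AxJ, fr,
    Fin.sum_univ_three, hy.sin_pa, cos_pa, pd_lin_x hα.smooth hb.smooth, -one_mul, -neg_mul, dth_eq hy,
    yd, h0, h1, k0, k1, g0, g1] <;> field_simp <;> ring_nf <;>
    (try simp only [h3, h6]) <;> ring

theorem Off.pd_two_eq (hy : Off y) (f : Sc) :
    ‖y‖ * pd 2 f y = Real.cos (pa y) * yd f y - Real.sin (pa y) * dth f y := by
  have r1 := hy.norm_pos.ne'
  have r2 := hy.rc_pos.ne'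
  simp only [dth_eq hy, hy.sin_pa, cos_pa, yd, Fin.sum_univ_three]
  field_simp
  linear_combination pd 2 f y * norm_sq_rc y

theorem Off.rd_eq (hy : Off y) (f : Sc) :
    rd f y = Real.sin (pa y) * (Real.sin (pa y) * yd f y + Real.cos (pa y) * dth f y) := by
  have r1 := hy.norm_pos.ne'
  have r2 := hy.rc_pos.ne'
  simp only [dth_eq hy, hy.sin_pa, cos_pa, yd, rd, Fin.sum_univ_three]
  field_simp
  linear_combination (y 0 * pd 0 f y + y 1 * pd 1 f y) * norm_sq_rc y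

theorem Off.has_dth (hy : Off y) (hf : DifferentiableAt ℝ f y) {Ψ : ℝ → ℂ}
    (h : ∀ z, Off z → ‖z‖ = ‖y‖ → (f z : ℂ) = Ψ (pa z)) : HasDerivAt Ψ (dth f y) (pa y) := by
  have r1 := hy.norm_pos
  have r2 := hy.rc_pos
  set u : R3 := !₂[‖y‖ * (y 0 / rc y), ‖y‖ * (y 1 / rc y), 0] with hu
  set v : R3 := !₂[0, 0, ‖y‖] with hv
  have hs : 0 < Real.sin (pa y) := by rw [hy.sin_pa]; positivity
  have hd : HasDerivAt (fun t => Real.sin t • u + Real.cos t • v)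
      (Real.cos (pa y) • u + -Real.sin (pa y) • v) (pa y) :=
    ((Real.hasDerivAt_sin _).smul_const u).add ((Real.hasDerivAt_cos _).smul_const v)
  have e0 : Real.sin (pa y) • u + Real.cos (pa y) • v = y := by
    ext i
    fin_cases i <;> simp [hu, hv, hy.sin_pa, cos_pa] <;> field_simp
  have h1 : HasFDerivAt f (fderiv ℝ f y) (Real.sin (pa y) • u + Real.cos (pa y) • v) := by
    rw [e0]; exact hf.hasFDerivAt
  have h2 := (h1.comp_hasDerivAt _ hd).ofReal_comp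
  have e1 : fderiv ℝ f y (Real.cos (pa y) • u + -Real.sin (pa y) • v) = dth f y := by
    rw [Dyn.dynCalc_sum, dth_eq hy]
    simp [hu, hv, hy.sin_pa, cos_pa, Fin.sum_univ_three]
    field_simp
    ring
  rw [e1] at h2
  refine h2.congr_of_eventuallyEq ?_
  have m : pa y ∈ Ioo 0 Real.pi := by
    refine ⟨(pa_mem y).1.lt_of_ne fun e => ?_, (pa_mem y).2.lt_of_ne fun e => ?_⟩
    · simp [← e] at hs
    · simp [e] at hs
  filter_upwards [Ioo_mem_nhds m.1 m.2] with t ht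
  have s0 := Real.sin_pos_of_mem_Ioo ht
  have e2 : (Real.sin t • u + Real.cos t • v) 0 ^ 2 + (Real.sin t • u + Real.cos t • v) 1 ^ 2 =
      (Real.sin t * ‖y‖) ^ 2 := by
    simp [hu, hv]
    field_simp
    rw [rc_sq]
  have e3 : (Real.sin t • u + Real.cos t • v) 2 = Real.cos t * ‖y‖ := by simp [hu, hv]
  have e4 : ‖Real.sin t • u + Real.cos t • v‖ = ‖y‖ := by
    rw [← sq_eq_sq₀ (norm_nonneg _) r1.le, tb_norm_sq, e2, e3]
    linear_combination ‖y‖ ^ 2 * Real.sin_sq_add_cos_sq t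
  have e5 := h _ (by rw [Off, e2]; positivity) e4
  rw [pa, e3, e4, mul_div_cancel_right₀ _ r1.ne', Real.arccos_cos ht.1.le ht.2.le] at e5
  exact e5.symm

theorem Off.ray_zero (hy : Off y) (ha : 0 < a) {Φ : Tf} (hΦ : ∀ θ, Continuous fun u => Φ u θ)
    {C : Sc} (hC : Continuous C) (k : ℕ)
    (h : ∀ z, Off z → tau a z ^ k * ‖Φ (an1 a z) (pa z)‖ ≤ ‖z‖ * C z) : Φ 0 (pa y) = 0 := by
  have ct : Continuous fun t : ℝ => tau a (t • y) := (tau_smooth ha).continuous.comp (by fun_prop)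
  have c1 : Continuous fun t : ℝ => tau a (t • y) ^ k * ‖Φ (an1 a (t • y)) (pa y)‖ :=
    (ct.pow k).mul ((hΦ _).comp (Real.continuous_arccos.comp ct.sqrt)).norm
  have c2 : Continuous fun t : ℝ => ‖t • y‖ * C (t • y) :=
    (continuous_id.smul continuous_const).norm.mul (hC.comp (continuous_id.smul continuous_const))
  have := le_of_tendsto_of_tendsto (b := 𝓝[>] (0 : ℝ)) (c1.continuousWithinAt (x := 0))
    (c2.continuousWithinAt (x := 0)) (eventually_nhdsWithin_of_forall fun t (ht : 0 < t) => by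
      have e : pa (t • y) = pa y := by
        simp only [pa, norm_smul, PiLp.smul_apply, smul_eq_mul, Real.norm_eq_abs, abs_of_pos ht,
          mul_div_mul_left _ _ ht.ne']
      have := h (t • y) (by
        simp only [Off, PiLp.smul_apply, smul_eq_mul, mul_pow, ← mul_add]
        exact mul_ne_zero (by positivity) hy)
      rwa [e] at this)
  simpa [tau, an1] using this

/-- The sine of the first angle. -/
theorem sin_an1_le {s : ℝ} (hs : 0 < s) (y : R3) : Real.sin (an1 (s ^ 2) y) ≤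
    s * ‖y‖ * tau (s ^ 2) y ^ 2 * (1 - tau (s ^ 2) y / 2) := by
  have ha : 0 < s ^ 2 := by positivity
  have h0 := tau_pos ha y
  have h1 := tau_le_one ha y
  have h4 := tau_four ha y
  rw [an1, Real.sin_arccos, Real.sq_sqrt h0.le]
  set t := tau (s ^ 2) y
  refine Real.sqrt_le_iff.2 ⟨mul_nonneg (by positivity) (by linarith), ?_⟩
  have e : (s * ‖y‖ * t ^ 2 * (1 - t / 2)) ^ 2 =
      1 - t + (1 - t) ^ 2 * (t ^ 2 / 4 * (1 + t + t * (1 - t))) := by
    linear_combination (1 - t / 2) ^ 2 * h4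
  have : 0 ≤ t * (1 - t) := mul_nonneg h0.le (by linarith)
  rw [e]
  exact le_add_of_nonneg_right (by positivity)

theorem tau_one_four (ha : 0 < a) (y : R3) :
    tau 1 y ^ 4 * (1 + (a - 1) * tau a y ^ 4) = a * tau a y ^ 4 := by
  linear_combination a * tau a y ^ 4 * tau_four one_pos y - tau 1 y ^ 4 * tau_four ha y

theorem Om_eq_tau (y : R3) : Om y = 2 * tau 1 y ^ 4 := by
  rw [Om, div_eq_iff (by positivity)]
  linear_combination -2 * tau_four one_pos y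

theorem wt_one {s : ℝ} (hs : 1 ≤ s) (y : R3) :
    s * tau (s ^ 2) y ^ 2 ≤ (1 + s * tau (s ^ 2) y ^ 2) * tau 1 y ^ 2 := by
  have s0 : 0 < s := by linarith
  have h := tau_one_four (a := s ^ 2) (by positivity) y
  refine (pow_le_pow_iff_left₀ (by positivity) (by positivity) two_ne_zero).1 ?_
  have h1 : 0 ≤ tau 1 y ^ 4 * (2 * s * tau (s ^ 2) y ^ 2 + tau (s ^ 2) y ^ 4) := by positivity
  nlinarith

theorem wt_zero {s : ℝ} (hs : 1 ≤ s) (y : R3) : 2 * s ^ 2 * tau (s ^ 2) y ^ 3 ≤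
    (1 + (s ^ 2 - 1) * tau (s ^ 2) y ^ 4 + s * (1 + s * tau (s ^ 2) y ^ 2)) * tau 1 y ^ 3 := by
  have s0 : 0 < s := by linarith
  have t0 := tau_pos one_pos y
  have h := tau_one_four (a := s ^ 2) (by positivity) y
  have h1 := mul_le_mul_of_nonneg_left (wt_one hs y) (by positivity : 0 ≤ s * tau 1 y ^ 2)
  refine le_of_mul_le_mul_right ?_ t0
  nlinarith [sq_nonneg (s * tau (s ^ 2) y * (tau (s ^ 2) y - tau 1 y))]

theorem Op_tau (j : ℕ) (y : R3) : Op (j / 2) y = √2 ^ j * tau 1 y ^ (2 * j) := by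
  have t0 := tau_pos one_pos y
  have e : Om y = (√2 * tau 1 y ^ 2) ^ (2 : ℝ) := by
    rw [Om_eq_tau, Real.rpow_two, mul_pow, Real.sq_sqrt zero_le_two]; ring
  rw [Op, e, ← Real.rpow_mul (by positivity), mul_div_cancel₀ _ two_ne_zero, Real.rpow_natCast,
    mul_pow, ← pow_mul]

end Pool.Agent.Work.MP_6bf1e5_an.H
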