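import Pool.Agent.Work.MP_6bf1e5_an.H.PwK
import Pool.Agent.Work.MP_6bf1e5_an.H.PwM
import Pool.Agent.Work.MP_6bf1e5_an.H.DataDefs

/-! Lists of rows that describe scalar fields off the axis (owner helper88). -/

open scoped ContDiff

namespace Pool.Agent.Work.MP_6bf1e5_an.H.Pw

open Pool.Agent.Lib.KLA Pool.Agent.Lib.KTab Complex Lt

/-- Packed tables. -/
abbrev KT := Lib.KTab.Tab

/-- The ring: kind of error, width, first angle, radial factor. -/
structure Rg where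
  b : Bool
  W : ℕ
  al : Sc
  n : Sc

/-- The angle and the factor are radial, and the factor does not vanish. -/
structure Rg.OK (C : Rg) : Prop where
  al : ∀ y z : R3, ‖z‖ = ‖y‖ → C.al z = C.al y
  n : ∀ y z : R3, ‖z‖ = ‖y‖ → C.n z = C.n y
  ne : ∀ y, C.n y ≠ 0

/-- The list `l` describes `f`, up to the factor `|y| ^ p * n`. -/
def Lr (C : Rg) (p : ℤ) (sg : Bool) (d : ℕ) (l : List KT) (f : Sc) : Prop :=
  ∃ Φ, RepL C.b sg C.W S1 d l Φ ∧
    ∀ y, Off y → io sg * (f y : ℂ) = (‖y‖ ^ p * C.n y : ℝ) * Φ (C.al y) (pa y)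

variable {C : Rg} {p q : ℤ} {sg : Bool} {d d' : ℕ} {l r l0 l1 : List KT} {f g : Sc} {G : KT}

theorem nt_eq (sg : Bool) : nt sg = !sg := by cases sg <;> rfl

theorem Lr.congr (h : Lr C p sg d l f) (e : ∀ y, Off y → g y = f y) : Lr C p sg d l g :=
  h.imp fun _ h => ⟨h.1, fun y hy => by rw [e y hy, h.2 y hy]⟩

theorem Lr.up (h : Lr C p sg d l f) (hq : p + 1 = q) : Lr C q sg d l fun y => ‖y‖ * f y :=
  h.imp fun _ h => ⟨h.1, fun y hy => by
    have := h.2 y hy
    rw [← hq, zpow_add_one₀ hy.norm_pos.ne']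
    push_cast at this ⊢
    linear_combination (‖y‖ : ℂ) * this⟩

theorem Lr.down (h : Lr C q sg d l f) (hq : p + 1 = q) : Lr C p sg d l fun y => f y / ‖y‖ :=
  h.imp fun _ h => ⟨h.1, fun y hy => by
    have := h.2 y hy
    have h0 : (‖y‖ : ℂ) ≠ 0 := ofReal_ne_zero.2 hy.norm_pos.ne'
    rw [← hq, zpow_add_one₀ hy.norm_pos.ne'] at this
    push_cast at this ⊢
    field_simp
    linear_combination this⟩

theorem addL_lr (h : Lr C p sg d l f) (h' : Lr C p sg d r g) :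
    Ok (addL C.W S1 l r) fun u => Lr C p sg d u fun y => f y + g y := by
  obtain ⟨Φ, h1, h2⟩ := h
  obtain ⟨Ψ, g1, g2⟩ := h'
  exact (addL_ok h1 g1).mono fun u hu => ⟨_, hu, fun y hy => by
    rw [ofReal_add, mul_add, h2 y hy, g2 y hy, mul_add]⟩

theorem negL_lr (h : Lr C p sg d l f) : Ok (negL l) fun u => Lr C p sg d u fun y => -f y := by
  obtain ⟨Φ, h1, h2⟩ := h
  exact h1.map_neg.mono fun u hu => ⟨_, hu, fun y hy => by
    rw [ofReal_neg, mul_neg, h2 y hy, mul_neg]⟩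

theorem subL_lr (h : Lr C p sg d l f) (h' : Lr C p sg d r g) :
    Ok (subL C.W l r) fun u => Lr C p sg d u fun y => f y - g y :=
  (negL_lr h').bind fun _ i => (addL_lr h i).mono fun _ i => i.congr fun _ _ => sub_eq_add_neg _ _

theorem mulL_lr {γ : ℝ → ℝ} (hG : Rep C.b C.W S1 G fun u _ => γ u) (h : Lr C p sg d l f) :
    Ok (mulL G l) fun u => Lr C p sg d u fun y => γ (C.al y) * f y := by
  obtain ⟨Φ, h1, h2⟩ := h
  exact (h1.map_mul hG).mono fun u hu => ⟨_, hu, fun y hy => by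
    rw [ofReal_mul, mul_left_comm, h2 y hy, mul_left_comm]⟩

theorem nat_rep (b : Bool) (W S c : ℕ) : Rep b W S (cst false c 0) fun _ _ => ((c : ℝ) : ℂ) :=
  (cst_rep b W S false c 0).congr fun _ _ => by simp [sv]

theorem dblL_lr (h : Lr C p sg d l f) : Ok (dblL l) fun u => Lr C p sg d u fun y => 2 * f y :=
  (mulL_lr (γ := fun _ => (2 : ℕ)) (nat_rep _ _ _ 2) h).mono fun _ i => i.congr fun _ _ => by simp

theorem par (hd : d + d' = 1) : d + 1 ≤ 2 ∧ (d + 1) % 2 = d' := by omega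

theorem cyF_lr (hd : d + d' = 1) (h : Lr C p sg d l f) :
    Ok (cyF sg C.W d l) fun u => Lr C p sg d' u fun y => Real.cos (pa y) * f y := by
  obtain ⟨Φ, h1, h2⟩ := h
  refine (cyL_ok h1).bind fun u hu => (fd_ok (d := d + 1) (par hd).1 (by exact_mod_cast hu)).mono
    fun v hv => ⟨_, (par hd).2 ▸ hv, fun y hy => ?_⟩
  rw [ofReal_mul, mul_left_comm, h2 y hy, mul_left_comm]

theorem syF_lr (hd : d + d' = 1) (h : Lr C p sg d l f) :
    Ok (syF sg C.W d l) fun u => Lr C p (!sg) d' u fun y =>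
      (if sg then 1 else -1) * (Real.sin (pa y) * f y) := by
  obtain ⟨Φ, h1, h2⟩ := h
  unfold syF
  rw [nt_eq]
  refine (syL_ok h1).bind fun u hu => (fd_ok (d := d + 1) (par hd).1 (by exact_mod_cast hu)).mono
    fun v hv => ⟨_, (par hd).2 ▸ hv, fun y hy => ?_⟩
  have := h2 y hy
  cases sg <;> simp only [io] at this ⊢ <;> push_cast at this ⊢
  · simp only [Bool.not_false, if_true] at this ⊢
    linear_combination (-I * Complex.sin (pa y)) * this
  · simp only [Bool.not_true, Bool.false_eq_true, if_false] at this ⊢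
    linear_combination (-I * Complex.sin (pa y)) * this
      + Complex.sin (pa y) * (f y : ℂ) * I_mul_I

theorem syF_cos (hd : d + d' = 1) (h : Lr C p false d l f) :
    Ok (syF false C.W d l) fun u => Lr C p true d' u fun y => -(Real.sin (pa y) * f y) :=
  (syF_lr hd h).mono fun _ i => i.congr fun _ _ => by simp

theorem syF_sin (hd : d + d' = 1) (h : Lr C p true d l f) :
    Ok (syF true C.W d l) fun u => Lr C p false d' u fun y => Real.sin (pa y) * f y :=
  (syF_lr hd h).mono fun _ i => i.congr fun _ _ => by simp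

theorem thL_lr (hC : C.OK) (hf : ContDiff ℝ ∞ f) (h : Lr C p false d l f) :
    Ok (thL d l) fun u => Lr C p true d u fun y => -dth f y := by
  obtain ⟨Φ, h1, h2⟩ := h
  refine (thL_ok h1).mono fun u hu => ⟨_, hu, fun y hy => ?_⟩
  have := (hy.has_dth (hf.differentiable (by simp) y)
    (Ψ := fun θ => (‖y‖ ^ p * C.n y : ℝ) * Φ (C.al y) θ) fun z hz e => by
      have := h2 z hz
      rwa [io, if_neg Bool.false_ne_true, one_mul, e, hC.n y z e, hC.al y z e] at this).deriv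
  rw [deriv_const_mul_field] at this
  rw [io, if_pos rfl, ofReal_neg, ← this]
  ring

theorem dz_lr (hC : C.OK) (hd : d + d' = 1) (hq : p + 1 = q) (hf : ContDiff ℝ ∞ f)
    (h0 : Lr C q false d l0 f) (h1 : Lr C q false d l1 (yd f)) :
    Ok (dz C.W d l0 l1) fun u => Lr C p false d' u (pd 2 f) :=
  (thL_lr hC hf h0).bind fun _ a => (syF_sin hd a).bind fun _ a => (cyF_lr hd h1).bind fun _ b =>
    (addL_lr a b).mono fun _ i => (i.down hq).congr fun y hy => by
      rw [eq_div_iff hy.norm_pos.ne']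
      linear_combination hy.pd_two_eq f

theorem rc_eq {y : R3} (hy : Off y) : rc y = ‖y‖ * Real.sin (pa y) := by
  rw [hy.sin_pa, mul_div_cancel₀ _ hy.norm_pos.ne']

theorem sin_ne {y : R3} (hy : Off y) : Real.sin (pa y) ≠ 0 := fun h =>
  hy.rc_pos.ne' (by rw [rc_eq hy, h, mul_zero])

theorem pr_lr (hC : C.OK) (hd : d + d' = 1) (hq : p + 1 = q) (hf : ContDiff ℝ ∞ f)
    (h0 : Lr C q false d l0 f) (h1 : Lr C q false d l1 (yd f)) :
    Ok (pr C.W d l0 l1) fun u => Lr C p true d' u fun y => -(rd f y / rc y) :=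
  (thL_lr hC hf h0).bind fun _ a => (cyF_lr hd a).bind fun _ a => (syF_cos hd h1).bind fun _ b =>
    (addL_lr a b).mono fun _ i => (i.down hq).congr fun y hy => by
      have h1 := hy.norm_pos.ne'
      have h2 := sin_ne hy
      rw [hy.rd_eq f, rc_eq hy]
      field_simp
      ring

theorem syF_rc (hd : d + d' = 1) (hq : p + 1 = q) (h : Lr C p true d l fun y => -(f y / rc y)) :
    Ok (syF true C.W d l) fun u => Lr C q false d' u fun y => -f y :=
  (syF_sin hd h).mono fun _ i => (i.up hq).congr fun y hy => by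
    have h1 := hy.norm_pos.ne'
    have h2 := sin_ne hy
    rw [rc_eq hy]
    field_simp

theorem rdp_lr (hd : d + d' = 1) (hq : p + 1 = q) (h : Lr C p true d l fun y => -(f y / rc y)) :
    Ok (rdp C.W d l) fun u => Lr C q false d' u f :=
  (syF_rc hd hq h).bind fun _ a => (negL_lr a).mono fun _ i => i.congr fun _ _ => (neg_neg _).symm

theorem qL_lr (hC : C.OK) (hf : ContDiff ℝ ∞ f) (h0 : Lr C q false 1 l0 f)
    (h1 : Lr C q false 1 l1 (yd f)) :
    Ok (qL C.W l0 l1) fun u => Lr C q false 1 u (ResAxi_q f) :=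
  (pr_lr (p := q - 1) hC (d' := 0) rfl (by ring) hf h0 h1).bind fun _ a =>
    (syF_rc (d' := 1) rfl (by ring) a).bind fun _ a => (dblL_lr h0).bind fun _ b =>
      (subL_lr a b).mono fun _ i => i.congr fun y _ => by
        rw [ResAxi_q]
        ring

theorem sufL_lr (hq : p + 1 = q) (h : Lr C q true 0 l f) :
    Ok (sufL C.W l) fun u => Lr C p false 1 (z0 :: u) fun y => f y / rc y / 2 := by
  obtain ⟨Φ, h1, h2⟩ := h
  refine (sufL_ok h1).mono fun u ⟨Ψ, g1, g2⟩ => Lr.congr (Lr.down (f := fun y =>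
    f y / Real.sin (pa y) / 2) ⟨Ψ, g1.cons, fun y hy => ?_⟩ hq) fun y hy => ?_
  · have := h2 y hy
    have h3 : (Real.sin (pa y) : ℂ) ≠ 0 := ofReal_ne_zero.2 (sin_ne hy)
    rw [g2, io, if_pos rfl] at this
    rw [io, if_neg Bool.false_ne_true, ofReal_div, ofReal_div, one_mul, div_div,
      div_eq_iff (by simpa using h3)]
    refine mul_left_cancel₀ I_ne_zero (this.trans ?_)
    push_cast
    ring
  · rw [rc_eq hy]
    ring

theorem yd_q (hf : ContDiff ℝ ∞ f) : yd (ResAxi_q f) = ResAxi_q (yd f) := by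
  funext y
  unfold ResAxi_q
  rw [ResAxi_yd_neg, ResAxi_yd_add (contDiff_const.mul hf) (ResAxi_rd_smooth hf),
    ResAxi_yd_cmul hf, ResAxi_rd_yd hf]

theorem yd_z (hf : ContDiff ℝ ∞ f) : yd (pd 2 f) = fun y => pd 2 (yd f) y - pd 2 f y := by
  funext y
  rw [ResAxi_pd_two_yd hf]
  ring

theorem yd_sub (hf : ContDiff ℝ ∞ f) (hg : ContDiff ℝ ∞ g) :
    yd (fun y => f y - g y) = fun y => yd f y - yd g y := by
  funext y
  simp only [yd, ResAxi_sub hf hg, Fin.sum_univ_three]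
  ring

theorem ab1_lr (hC : C.OK) (hq : p + 1 = q) (hf : ContDiff ℝ ∞ f) {l2 : List KT}
    (h0 : Lr C q false 1 l0 f) (h1 : Lr C q false 1 l1 (yd f)) (h2 : Lr C q false 1 l2 (yd (yd f)))
    {k : List KT → List KT → List KT → List KT → Bool} (hk : ab1 C.W l0 l1 l2 k = true) :
    ∃ z z1 b0 b1, Lr C p false 0 z (pd 2 f) ∧ Lr C p false 0 z1 (yd (pd 2 f)) ∧
      Lr C q false 1 b0 (ResAxi_q f) ∧ Lr C q false 1 b1 (yd (ResAxi_q f)) ∧
        k z z1 b0 b1 = true := by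
  have hy := ResAxi_yd_smooth hf
  obtain ⟨z, a1, hk⟩ := dz_lr hC (d' := 0) rfl hq hf h0 h1 _ hk
  obtain ⟨_, a2, hk⟩ := dz_lr hC (d' := 0) rfl hq hy h1 h2 _ hk
  obtain ⟨z1, a2, hk⟩ := subL_lr a2 a1 _ hk
  obtain ⟨b0, a3, hk⟩ := qL_lr hC hf h0 h1 _ hk
  obtain ⟨b1, a4, hk⟩ := qL_lr hC hy h1 h2 _ hk
  exact ⟨z, z1, b0, b1, a1, yd_z hf ▸ a2, a3, yd_q hf ▸ a4, hk⟩

/-- The ring of `tau a`, with the factor `c * tau a ^ k`. -/
noncomputable def rgT (W : ℕ) (a c : ℝ) (k : ℕ) : Rg := ⟨true, W, an1 a, fun y => c * tau a y ^ k⟩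

theorem rgT_ok (W : ℕ) {a c : ℝ} (ha : 0 < a) (hc : c ≠ 0) (k : ℕ) : (rgT W a c k).OK :=
  ⟨fun _ _ e => by simp only [rgT, an1, tau, e], fun _ _ e => by simp only [rgT, tau, e],
    fun y => mul_ne_zero hc (pow_pos (tau_pos ha y) k).ne'⟩

theorem RR_cm (c : ℝ) (p : ℤ) (k : ℕ) (Φ : Tf) : RR p k (cmT c Φ) = cmT c (RR p k Φ) := by
  funext α θ
  rw [RR, E1_cm, cmT, cmT, RR]
  ring

theorem lr_of_rp {W k : ℕ} {a c : ℝ} {Φ : Tf} (h : Rp a p k f (cmT c Φ))
    (hl : RepL true false W S1 d l Φ) : Lr (rgT W a c k) p false d l f :=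
  ⟨Φ, hl, fun y hy => by
    rw [io, if_neg Bool.false_ne_true, one_mul, h.eq y hy, cmT]
    simp only [rgT]
    push_cast
    change _ * (_ * Φ _ (pa y)) = _
    ring⟩

/-- The three scalars of the background in the scale `s`, and their tables. -/
structure Bk (s : ℝ) (ψ b w : Sc) (A B Wt : Tf) : Prop where
  xψ : Axi ψ
  xb : Axi b
  xw : Axi w
  cc : curl (curl (sm ψ Jv)) = sm w Jv
  rψ : Rp (s ^ 2) 1 3 ψ (cmT 1 A)
  rb : Rp (s ^ 2) 1 5 b (cmT s B)
  rw : Rp (s ^ 2) 1 7 w (cmT (s ^ 2) Wt)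

end Pool.Agent.Work.MP_6bf1e5_an.H.Pw
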