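import Pool.Agent.Work.MP_6bf1e5_an.H.PwL

/-! Small tables that bound sums of squares of scalar fields (owner helper2). -/

open scoped ContDiff

namespace Pool.Agent.Work.MP_6bf1e5_an.H.Pw

open Pool.Agent.Lib.KLA Pool.Agent.Lib.KTab Complex Lt

/-- Off the axis, `F` is at most `N` times the function of the small table `T`. -/
def Qb (P : Sml) (al N F : Sc) (T : KT) : Prop :=
  ∃ Φ, Rep false P.V P.S T Φ ∧ ∀ y, Off y → F y ≤ N y * (Φ (al y) (pa y)).re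

/-- Off the axis, `F` has a continuous bound. -/
def Bdd (F : Sc) : Prop := ∃ K, Continuous K ∧ ∀ y, Off y → F y ≤ K y

/-- The operation `w` gives bounds for squares. -/
def SqOK (P : Sml) (C : Rg) (p : ℤ) (N : Sc) (w : Sq) : Prop :=
  ∀ sg d l f, Lr C p sg d l f → Bdd (fun y => f y ^ 2) →
    Ok (w sg d l) (Qb P C.al N fun y => f y ^ 2)

variable {P : Sml} {C : Rg} {p q : ℤ} {sg : Bool} {d d' W : ℕ} {l l0 l1 l2 : List KT}
  {f al N N' F F' : Sc} {G T U : KT} {γ : ℝ → ℝ} {w : Sq}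

theorem Bdd.le (h : Bdd F) (c : ℝ) (hc : 0 ≤ c) (e : ∀ y, Off y → F' y ≤ c * F y) : Bdd F' :=
  let ⟨_, h1, h2⟩ := h
  ⟨_, continuous_const.mul h1, fun y hy =>
    (e y hy).trans (mul_le_mul_of_nonneg_left (h2 y hy) hc)⟩

theorem Qb.le (h : Qb P al N F T) (e : ∀ y, Off y → F' y ≤ F y) : Qb P al N F' T :=
  h.imp fun _ h => ⟨h.1, fun y hy => (e y hy).trans (h.2 y hy)⟩

theorem Qb.axp (c : ℕ) (h : Qb P al N F T) (h' : Qb P al N F' U) :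
    Ok (axp P c T U) (Qb P al N fun y => F y + c * F' y) := by
  obtain ⟨Φ, h1, h2⟩ := h
  obtain ⟨Ψ, g1, g2⟩ := h'
  refine (mul_ok (nat_rep _ _ _ c) g1).bind fun _ i => (add_ok h1 i).mono fun _ i =>
    ⟨_, i, fun y hy => ?_⟩
  have := mul_le_mul_of_nonneg_left (g2 y hy) (Nat.cast_nonneg (α := ℝ) c)
  rw [add_re, re_ofReal_mul]
  linarith [h2 y hy]

theorem Qb.half (h : Qb P al N F T) : Ok (half 1 T) (Qb P al N fun y => F y / 2) := by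
  obtain ⟨Φ, h1, h2⟩ := h
  refine (half_ok 1 h1).mono fun _ i => ⟨_, i, fun y hy => ?_⟩
  rw [pow_one, div_ofNat_re]
  linarith [h2 y hy]

theorem Qb.mul (hG : Rep false P.V P.S G fun u _ => γ u) (h : Qb P al N F T)
    (e : ∀ y, Off y → 0 ≤ F y ∧ 0 < N y ∧ N y ≤ N' y * γ (al y)) :
    Ok (mul G T) (Qb P al N' F) := by
  obtain ⟨Φ, h1, h2⟩ := h
  refine (mul_ok hG h1).mono fun _ i => ⟨_, i, fun y hy => ?_⟩
  obtain ⟨e1, e2, e3⟩ := e y hy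
  rw [re_ofReal_mul, ← mul_assoc]
  exact (h2 y hy).trans (mul_le_mul_of_nonneg_right e3
    (nonneg_of_mul_nonneg_right (e1.trans (h2 y hy)) e2))

theorem Qb.fin {m : ℕ} (h : Qb P al N F T) (hk : fin1 P m T = true) {y : R3} (hy : Off y)
    (hN : 0 ≤ N y) : F y ≤ N y * m := by
  obtain ⟨Φ, h1, h2⟩ := h
  obtain ⟨_, i, hk⟩ := meas_ok h1 _ hk
  have := finS_ok hk i (al y) (pa y)
  rw [Nat.cast_one, div_one] at this
  exact (h2 y hy).trans (mul_le_mul_of_nonneg_left ((re_le_norm _).trans this) hN)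

theorem opc_ok (c : ℕ) (hG : Rep false P.V P.S G fun u _ => γ u) :
    Ok (opc P c G) fun T => Rep false P.V P.S T fun u _ => (1 + c * γ u : ℝ) :=
  (mul_ok (nat_rep _ _ _ c) hG).bind fun _ i => (add_ok (nat_rep _ _ _ 1) i).mono fun _ i =>
    i.congr fun _ _ => by push_cast; ring

theorem sq_q {b : Bool} {Ψ : Tf} {σ : Sc} (e : ℕ) (im : Bool) (hV : 0 < P.V)
    (hG : Rep b W S1 G fun u _ => γ u) (h : RepL b sg W S1 d l Ψ)
    (hf : ∀ y, Off y → σ y ≠ 0 ∧ io im * (f y : ℂ) = σ y * Ψ (al y) (pa y) ∧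
      σ y ^ 2 ≤ N y * γ (al y) ^ 2) :
    Ok (fun k => mulL G l fun l => sqT P W e im sg d l k) (Qb P al N fun y => f y ^ 2) := by
  refine (h.map_mul hG).bind fun _ i => (sqT_ok P e im hV i).mono fun _ i => ⟨_, i, fun y hy => ?_⟩
  obtain ⟨h1, h2, h3⟩ := hf y hy
  have h4 : (σ y : ℂ) ≠ 0 := ofReal_ne_zero.2 h1
  have h5 : (if im = true then -1 else 1) * (γ (al y) * Ψ (al y) (pa y)) ^ 2 =
      ((γ (al y) ^ 2 * (f y / σ y) ^ 2 : ℝ) : ℂ) := by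
    rw [show Ψ (al y) (pa y) = io im * f y / σ y by rw [h2, mul_div_cancel_left₀ _ h4]]
    cases im <;> simp [io, mul_pow, div_pow, neg_div]
  rw [h5, ofReal_re, ← mul_assoc]
  refine le_trans (le_of_eq ?_) (mul_le_mul_of_nonneg_right h3 (sq_nonneg _))
  field_simp

theorem wp2_ok (hC : C.OK) (hV : 0 < P.V) (hG : Rep C.b C.W S1 G fun u _ => γ u)
    (hN : ∀ y, Off y → (‖y‖ ^ p * C.n y) ^ 2 ≤ N y * γ (C.al y) ^ 2) :
    SqOK P C p N (wp2 P C.W G) := fun sg _ _ _ ⟨_, h1, h2⟩ _ =>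
  sq_q (σ := fun y => ‖y‖ ^ p * C.n y) 0 sg hV hG h1 fun y hy =>
    ⟨mul_ne_zero (zpow_ne_zero _ hy.norm_pos.ne') (hC.ne y), h2 y hy, hN y hy⟩

theorem wq2_ok {s c : ℝ} {k : ℕ} (hs : 0 < s) (hc : 0 < c) (hV : 0 < P.V)
    (hG : Rep true W S1 G fun u _ => γ u)
    (hN : ∀ y, (s * c * tau (s ^ 2) y ^ (k + 2) * (1 - tau (s ^ 2) y / 2)) ^ 2 ≤
      N y * γ (an1 (s ^ 2) y) ^ 2) :
    SqOK P (rgT W (s ^ 2) c k) (-1) N (wq2 P W G) := fun sg d l f ⟨Φ, h1, h2⟩ ⟨K, k1, k2⟩ => by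
  have ha : 0 < s ^ 2 := by positivity
  simp only [rgT] at h1 h2
  have h0 : ∀ y, Off y → Φ 0 (pa y) = 0 := fun y hy => by
    refine hy.ray_zero ha (RepL_cont h1) (C := fun z => (1 + K z) / c) (by fun_prop) k
      fun z hz => ?_
    have e := congrArg norm (h2 z hz)
    have r := hz.norm_pos
    have t := tau_pos ha z
    rw [norm_mul, norm_mul, norm_real, norm_real, show ‖io sg‖ = 1 by cases sg <;> simp [io],
      one_mul, Real.norm_eq_abs, zpow_neg_one, Real.norm_of_nonneg (by positivity)] at e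
    rw [show tau (s ^ 2) z ^ k * ‖Φ (an1 (s ^ 2) z) (pa z)‖ = ‖z‖ * (|f z| / c) by
      rw [e]; field_simp]
    gcongr
    nlinarith [k2 z hz, sq_abs (f z), sq_nonneg (|f z| - 1)]
  refine (dqL_ok h1).bind fun r ⟨Ψ, g1, g2⟩ => sq_q (σ := fun y => (if sg then 1 else -1) *
    (‖y‖⁻¹ * (c * tau (s ^ 2) y ^ k) * Real.sin (an1 (s ^ 2) y))) 1 (nt sg) hV hG g1 fun y hy => ?_
  have r := hy.norm_pos
  have t := tau_pos ha y
  have s0 : 0 ≤ Real.sin (an1 (s ^ 2) y) := Real.sin_arccos _ ▸ Real.sqrt_nonneg _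
  have s1 : Real.sin (an1 (s ^ 2) y) ≠ 0 := fun h => by
    have := Real.sin_sq (an1 (s ^ 2) y)
    rw [h, cos_an1_sq ha] at this
    linarith [OfA.tau_lt hy ha]
  refine ⟨mul_ne_zero (by cases sg <;> simp) (by positivity), ?_, le_trans ?_ (hN y)⟩
  · have e1 := h2 y hy
    have e2 := g2 (an1 (s ^ 2) y) (pa y)
    rw [h0 y hy, sub_zero] at e2
    rw [e2, zpow_neg_one] at e1
    simp only [rgT]
    generalize Real.sin (an1 (s ^ 2) y) = σ at e1 ⊢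
    cases sg <;> simp only [io, nt_eq, Bool.not_false, Bool.not_true, if_true, Bool.false_eq_true,
      if_false] at e1 ⊢ <;> push_cast at e1 ⊢
    · linear_combination I * e1 + (‖y‖ : ℂ)⁻¹ * (c * tau (s ^ 2) y ^ k) * σ *
        Ψ (an1 (s ^ 2) y) (pa y) * I_mul_I
    · exact mul_left_cancel₀ I_ne_zero (by linear_combination e1)
  · rw [mul_pow, show ((if sg = true then 1 else -1 : ℝ)) ^ 2 = 1 by cases sg <;> simp, one_mul]
    refine pow_le_pow_left₀ (by positivity) ((mul_le_mul_of_nonneg_left (sin_an1_le hs y)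
      (by positivity)).trans_eq ?_) 2
    field_simp
    ring

theorem Lr.rc (hd : d + d' = 1) (hq : p + 1 = q) (h : Lr C p false d l f) :
    Ok (syF false C.W d l) fun u => Lr C q true d' u fun y => -(rc y * f y) :=
  (syF_cos hd h).mono fun _ i => (i.up hq).congr fun y hy => by rw [rc_eq hy]; ring

theorem yd_rd (hf : ContDiff ℝ ∞ f) : rd (yd f) = yd (rd f) := funext (ResAxi_rd_yd hf)

theorem g1_ok (hC : C.OK) (hd : d + d' = 1) (hw : SqOK P C q N w) (hf : ContDiff ℝ ∞ f)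
    (hb : Bdd (nG1 f)) (h0 : Lr C q false d l0 f) (h1 : Lr C q false d l1 (yd f)) :
    Ok (g1 P C.W d d' w l0 l1) (Qb P C.al N fun y => 2 * nG1 f y) := fun k hk => by
  have hd' : d' + d = 1 := by omega
  have hq : q - 1 + 1 = q := by ring
  have B : ∀ {g : Sc}, (∀ y, g y ^ 2 ≤ 2 * nG1 f y) → Bdd fun y => g y ^ 2 := fun h =>
    hb.le 2 zero_le_two fun y _ => h y
  obtain ⟨_, a, hk⟩ := pr_lr hC hd hq hf h0 h1 _ hk
  obtain ⟨_, r, hk⟩ := rdp_lr hd' hq a _ hk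
  obtain ⟨_, t, hk⟩ := hw _ _ _ _ r (B fun y => by
    simp only [nG1]; nlinarith [sq_nonneg (2 * f y + rd f y), sq_nonneg (rc y * pd 2 f y)]) _ hk
  obtain ⟨_, a, hk⟩ := dblL_lr h0 _ hk
  obtain ⟨_, a, hk⟩ := addL_lr a r _ hk
  obtain ⟨_, u, hk⟩ := hw _ _ _ _ a (B fun y => by
    simp only [nG1]; nlinarith [sq_nonneg (rd f y), sq_nonneg (rc y * pd 2 f y)]) _ hk
  obtain ⟨_, t, hk⟩ := t.axp 1 u _ hk
  obtain ⟨_, a, hk⟩ := dz_lr hC hd hq hf h0 h1 _ hk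
  obtain ⟨_, a, hk⟩ := a.rc hd' hq _ hk
  obtain ⟨_, u, hk⟩ := hw _ _ _ _ a (B fun y => by
    simp only [nG1]
    nlinarith [sq_nonneg (rd f y), sq_nonneg (2 * f y + rd f y), sq_nonneg (rc y * pd 2 f y)]) _ hk
  exact (t.axp 2 u).mono (fun _ i => i.le fun y _ => le_of_eq (by simp only [nG1]; ring)) k hk

theorem g2_ok (hC : C.OK) (hd : d + d' = 1) (hq : p + 1 = q) (hw : SqOK P C p N w)
    (hf : ContDiff ℝ ∞ f) (hb : Bdd (nG2 f)) (h0 : Lr C q false d l0 f)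
    (h1 : Lr C q false d l1 (yd f)) (h2 : Lr C q false d l2 (yd (yd f))) :
    Ok (g2 P C.W d d' w l0 l1 l2) (Qb P C.al N fun y => 4 * nG2 f y) := fun k hk => by
  have hd' : d' + d = 1 := by omega
  have hp : p - 1 + 1 = p := by ring
  have hy := ResAxi_yd_smooth hf
  have hr := ResAxi_rd_smooth hf
  have B : ∀ {g : Sc}, (∀ y, g y ^ 2 = ((rd (rd f) y - 2 * rd f y) / rc y) ^ 2 ∨
      g y ^ 2 = ((rd (rd f) y + 2 * rd f y) / rc y) ^ 2 ∨ g y ^ 2 = rd (pd 2 f) y ^ 2 ∨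
      g y ^ 2 = (2 * pd 2 f y + rd (pd 2 f) y) ^ 2 ∨ g y ^ 2 = (rc y * pd 2 (pd 2 f) y) ^ 2) →
      Bdd fun y => g y ^ 2 := fun h => hb.le 4 (by norm_num) fun y _ => by
    have t1 := sq_nonneg ((rd (rd f) y - 2 * rd f y) / rc y)
    have t2 := sq_nonneg ((rd (rd f) y + 2 * rd f y) / rc y)
    have t3 := sq_nonneg (rd (pd 2 f) y)
    have t4 := sq_nonneg (2 * pd 2 f y + rd (pd 2 f) y)
    have t5 := sq_nonneg (rc y * pd 2 (pd 2 f) y)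
    simp only [nG2]
    rcases h y with h | h | h | h | h <;> linarith
  obtain ⟨_, p0, hk⟩ := pr_lr hC hd hq hf h0 h1 _ hk
  obtain ⟨_, p1, hk⟩ := pr_lr hC hd hq hy h1 h2 _ hk
  obtain ⟨_, r0, hk⟩ := rdp_lr hd' hq p0 _ hk
  obtain ⟨_, r1, hk⟩ := rdp_lr hd' hq p1 _ hk
  rw [yd_rd hf] at r1
  obtain ⟨_, q0, hk⟩ := pr_lr hC hd hq hr r0 r1 _ hk
  obtain ⟨_, p2, hk⟩ := dblL_lr p0 _ hk
  obtain ⟨_, a, hk⟩ := subL_lr q0 p2 _ hk
  obtain ⟨_, t, hk⟩ := hw _ _ _ _ a (B fun y => .inl (by ring)) _ hk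
  obtain ⟨_, a, hk⟩ := addL_lr q0 p2 _ hk
  obtain ⟨_, u, hk⟩ := hw _ _ _ _ a (B fun y => .inr (.inl (by ring))) _ hk
  obtain ⟨_, t, hk⟩ := t.axp 3 u _ hk
  obtain ⟨_, e, hk⟩ := dz_lr hC hd hq hr r0 r1 _ hk
  rw [show pd 2 (rd f) = rd (pd 2 f) from funext (ResAxi_pd_two_rd hf)] at e
  obtain ⟨_, u, hk⟩ := hw _ _ _ _ e (B fun y => .inr (.inr (.inl rfl))) _ hk
  obtain ⟨_, t, hk⟩ := t.axp 4 u _ hk
  obtain ⟨_, y0, hk⟩ := dz_lr hC hd hq hf h0 h1 _ hk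
  obtain ⟨_, a, hk⟩ := dblL_lr y0 _ hk
  obtain ⟨_, a, hk⟩ := addL_lr a e _ hk
  obtain ⟨_, u, hk⟩ := hw _ _ _ _ a (B fun y => .inr (.inr (.inr (.inl rfl)))) _ hk
  obtain ⟨_, t, hk⟩ := t.axp 4 u _ hk
  obtain ⟨_, y1, hk⟩ := dz_lr hC hd hq hy h1 h2 _ hk
  obtain ⟨_, y1, hk⟩ := subL_lr y1 y0 _ hk
  rw [← yd_z hf] at y1
  obtain ⟨_, a, hk⟩ := dz_lr hC hd' hp (ResHl_sm_pd hf 2) y0 y1 _ hk
  obtain ⟨_, a, hk⟩ := a.rc hd hp _ hk
  obtain ⟨_, u, hk⟩ := hw _ _ _ _ a (B fun y => .inr (.inr (.inr (.inr (by ring))))) _ hk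
  exact (t.axp 4 u).mono (fun _ i => i.le fun y _ => le_of_eq (by
    simp only [nG2]; push_cast; ring)) k hk

theorem h2_ok (hC : C.OK) (hw : SqOK P C (-1) N w) (hf : ContDiff ℝ ∞ f) (hb : Bdd (nH2 f))
    (h0 : Lr C 1 false 1 l0 f) (h1 : Lr C 1 false 1 l1 (yd f))
    (h2 : Lr C 1 false 1 l2 (yd (yd f))) :
    Ok (Pw.h2 P C.W w l0 l1 l2) (Qb P C.al N fun y => nH2 f y / 2) := fun k hk => by
  have hq : (0 : ℤ) + 1 = 1 := rfl
  have hp : (-1 : ℤ) + 1 = 0 := rfl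
  have hy := ResAxi_yd_smooth hf
  have hr := ResAxi_rd_smooth hf
  have B : ∀ {g : Sc}, (∀ y, g y ^ 2 = ((rd (rd f) y - 2 * rd f y) / rc y ^ 2) ^ 2 / 4 ∨
      g y ^ 2 = (rd (rd f) y / rc y ^ 2) ^ 2 / 4 ∨ g y ^ 2 = (rd (pd 2 f) y / rc y) ^ 2 ∨
      g y ^ 2 = pd 2 (pd 2 f) y ^ 2) →
      Bdd fun y => g y ^ 2 := fun h => hb.le 1 zero_le_one fun y _ => by
    have t1 := sq_nonneg ((rd (rd f) y - 2 * rd f y) / rc y ^ 2)
    have t2 := sq_nonneg (rd (rd f) y / rc y ^ 2)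
    have t3 := sq_nonneg (rd (pd 2 f) y / rc y)
    have t4 := sq_nonneg (pd 2 (pd 2 f) y)
    simp only [nH2]
    rcases h y with h | h | h | h <;> linarith
  obtain ⟨_, p0, hk⟩ := pr_lr hC (d' := 0) rfl hq hf h0 h1 _ hk
  obtain ⟨_, p1, hk⟩ := pr_lr hC (d' := 0) rfl hq hy h1 h2 _ hk
  obtain ⟨_, r0, hk⟩ := rdp_lr (d' := 1) rfl hq p0 _ hk
  obtain ⟨_, r1, hk⟩ := rdp_lr (d' := 1) rfl hq p1 _ hk
  rw [yd_rd hf] at r1
  obtain ⟨_, q0, hk⟩ := pr_lr hC (d' := 0) rfl hq hr r0 r1 _ hk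
  obtain ⟨_, p2, hk⟩ := dblL_lr p0 _ hk
  obtain ⟨_, a, hk⟩ := subL_lr q0 p2 _ hk
  obtain ⟨_, a, hk⟩ := sufL_lr hp a _ hk
  obtain ⟨_, t, hk⟩ := hw _ _ _ _ a (B fun y => .inl (by ring)) _ hk
  obtain ⟨_, a, hk⟩ := sufL_lr hp q0 _ hk
  obtain ⟨_, u, hk⟩ := hw _ _ _ _ a (B fun y => .inr (.inl (by ring))) _ hk
  obtain ⟨_, t, hk⟩ := t.axp 1 u _ hk
  obtain ⟨_, y0, hk⟩ := dz_lr hC (d' := 0) rfl hq hf h0 h1 _ hk
  obtain ⟨_, y1, hk⟩ := dz_lr hC (d' := 0) rfl hq hy h1 h2 _ hk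
  obtain ⟨_, y1, hk⟩ := subL_lr y1 y0 _ hk
  rw [← yd_z hf] at y1
  obtain ⟨_, a, hk⟩ := pr_lr hC (d' := 1) rfl hp (ResHl_sm_pd hf 2) y0 y1 _ hk
  obtain ⟨_, u, hk⟩ := hw _ _ _ _ a (B fun y => .inr (.inr (.inl (by ring)))) _ hk
  obtain ⟨_, t, hk⟩ := t.axp 1 u _ hk
  obtain ⟨_, a, hk⟩ := dz_lr hC (d' := 1) rfl hp (ResHl_sm_pd hf 2) y0 y1 _ hk
  obtain ⟨_, u, hk⟩ := hw _ _ _ _ a (B fun y => .inr (.inr (.inr rfl))) _ hk
  obtain ⟨_, u, hk⟩ := u.half _ hk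
  exact (t.axp 1 u).mono (fun _ i => i.le fun y _ => le_of_eq (by
    simp only [nH2]; push_cast; ring)) k hk

end Pool.Agent.Work.MP_6bf1e5_an.H.Pw
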