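import Pool.Agent.Work.MP_6bf1e5_an.H.JetA
import Pool.Agent.Work.MP_6bf1e5_an.H.JetAng
import Pool.Agent.Work.MP_6bf1e5_an.H.MdAlg

/-! The pointwise bound for the curls of the functionals, from bounds for the members. -/

open scoped ContDiff Real
open Set MeasureTheory Polynomial

namespace Pool.Agent.Work.MP_6bf1e5_an.H

variable {k : ℕ} {y : R3} {W : ℝ[X]} {A : ℝ}

theorem geg_one (l : ℕ) : (geg 1 l).eval 1 = 1 := by
  induction l using Nat.twoStepInduction with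
  | zero => simp [geg]
  | one => simp [geg]
  | more l h0 h1 =>
    rw [sp_geg_eval, h0, h1, div_eq_one_iff_eq (by positivity)]
    push_cast
    ring

theorem pt_jensen {s : Finset ℕ} {c : ℕ → ℝ} (hc : ∀ i, 0 ≤ c i) (h1 : ∑ i ∈ s, c i = 1)
    (x : ℕ → ℝ) : (∑ i ∈ s, c i * x i) ^ 2 ≤ ∑ i ∈ s, c i * x i ^ 2 := by
  have h : 0 ≤ ∑ i ∈ s, c i * (x i - ∑ j ∈ s, c j * x j) ^ 2 :=
    Finset.sum_nonneg fun i _ => mul_nonneg (hc i) (sq_nonneg _)
  generalize hm : ∑ j ∈ s, c j * x j = m at h ⊢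
  have e : ∑ i ∈ s, c i * (x i - m) ^ 2 = ∑ i ∈ s, c i * x i ^ 2
      - 2 * m * ∑ i ∈ s, c i * x i + m ^ 2 * ∑ i ∈ s, c i := by
    simp only [Finset.mul_sum, ← Finset.sum_sub_distrib, ← Finset.sum_add_distrib]
    exact Finset.sum_congr rfl fun i _ => by ring
  rw [e, hm, h1] at h
  linarith

/-- The angular bound. -/
theorem Pa_dPa_le (l : ℕ) (θ : ℝ) : (l : ℝ) ^ 2 * Pa l θ ^ 2 + dPa l θ ^ 2 ≤ (l : ℝ) ^ 2 := by
  set c : ℕ → ℝ := fun i => ja_g i * ja_g (l - i) with hc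
  set m : ℕ → ℝ := fun i => i - (l - i : ℕ) with hm
  have c0 : ∀ i, 0 ≤ c i := fun i => by
    simp only [hc, ja_g]
    positivity
  have e : ∀ θ, Pa l θ = ∑ i ∈ Finset.range (l + 1), c i * Real.cos (m i * θ) := ja_Pa l
  have c1 : ∑ i ∈ Finset.range (l + 1), c i = 1 := by
    have := e 0
    simp only [Pa, Real.cos_zero, geg_one, mul_zero, mul_one] at this
    exact this.symm
  have d : HasDerivAt (fun θ => ∑ i ∈ Finset.range (l + 1), c i * Real.cos (m i * θ))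
      (∑ i ∈ Finset.range (l + 1), c i * (-Real.sin (m i * θ) * (m i * 1))) θ :=
    HasDerivAt.fun_sum fun i _ => (((hasDerivAt_id θ).const_mul (m i)).cos).const_mul _
  simp only [← e] at d
  rw [(has_Pa l θ).unique d, e]
  refine (add_le_add (mul_le_mul_of_nonneg_left (pt_jensen c0 c1 _) (sq_nonneg _))
    (pt_jensen c0 c1 _)).trans ?_
  rw [Finset.mul_sum, ← Finset.sum_add_distrib]
  refine (Finset.sum_le_sum (g := fun i => c i * (l : ℝ) ^ 2) fun i hi => ?_).trans_eq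
    (by rw [← Finset.sum_mul, c1, one_mul])
  have hi : i ≤ l := Nat.lt_succ_iff.1 (Finset.mem_range.1 hi)
  have h1 : m i ^ 2 ≤ (l : ℝ) ^ 2 := by
    have h2 : (i : ℝ) ≤ l := by exact_mod_cast hi
    have h3 : (0 : ℝ) ≤ i := i.cast_nonneg
    simp only [hm, Nat.cast_sub hi]
    nlinarith [mul_nonneg h3 (sub_nonneg.2 h2)]
  have h2 := Real.sin_sq_add_cos_sq (m i * θ)
  have h3 := mul_le_mul_of_nonneg_right h1 (sq_nonneg (Real.sin (m i * θ)))
  have h4 : (l : ℝ) ^ 2 * Real.cos (m i * θ) ^ 2 + (-Real.sin (m i * θ) * (m i * 1)) ^ 2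
      ≤ (l : ℝ) ^ 2 := by
    have : (l : ℝ) ^ 2 * Real.cos (m i * θ) ^ 2
        = (l : ℝ) ^ 2 - (l : ℝ) ^ 2 * Real.sin (m i * θ) ^ 2 := by
      linear_combination (l : ℝ) ^ 2 * h2
    nlinarith
  have := mul_le_mul_of_nonneg_left h4 (c0 i)
  linarith

theorem pt_cs (a b : Vc) (y : R3) : dot a b y ^ 2 ≤ dot a a y * dot b b y := by
  simpa only [dot, sq] using
    Finset.sum_mul_sq_le_sq_mul_sq Finset.univ (fun i => a i y) fun i => b i y

theorem pt_nn (a : Vc) (y : R3) : 0 ≤ dot a a y := Finset.sum_nonneg fun _ _ => mul_self_nonneg _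

/-- The triangle inequality. -/
theorem pt_lc {ι : Type} [Fintype ι] {V : ι → Vc} {s : ι → ℝ} {m : ℝ} (hs : ∀ b, 0 ≤ s b)
    (hm : 0 ≤ m) (h : ∀ b, dot (V b) (V b) y ≤ s b ^ 2 * m) (c : ι → ℝ) :
    dot (lc c V) (lc c V) y ≤ (∑ b, |c b| * s b) ^ 2 * m := by
  have e : dot (lc c V) (lc c V) y = ∑ a, ∑ b, c a * c b * dot (V a) (V b) y := by
    simp only [dot, lc, Finset.sum_mul_sum]
    simp only [Finset.mul_sum]
    rw [Finset.sum_comm]
    refine Finset.sum_congr rfl fun a _ => ?_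
    rw [Finset.sum_comm]
    exact Finset.sum_congr rfl fun b _ => Finset.sum_congr rfl fun i _ => by ring
  rw [e, sq, Finset.sum_mul_sum, Finset.sum_mul]
  refine Finset.sum_le_sum fun a _ => ?_
  rw [Finset.sum_mul]
  refine Finset.sum_le_sum fun b _ => (le_abs_self _).trans ?_
  have h1 : |dot (V a) (V b) y| ≤ s a * s b * m := by
    refine abs_le_of_sq_le_sq' ?_ (mul_nonneg (mul_nonneg (hs a) (hs b)) hm) |> abs_le.2
    refine (pt_cs _ _ y).trans ((mul_le_mul (h a) (h b) (pt_nn _ y)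
      (mul_nonneg (sq_nonneg _) hm)).trans_eq (by ring))
  rw [abs_mul, abs_mul]
  have := mul_le_mul_of_nonneg_left h1 (mul_nonneg (abs_nonneg (c a)) (abs_nonneg (c b)))
  linarith

theorem pt_Om (y : R3) : Om y = 2 * tau 1 y ^ 4 := by
  have h := tau_four one_pos y
  rw [Om, div_eq_iff (by positivity)]
  linear_combination (-2) * h

/-- The field of `Static` from bounds for the members and the row sums. -/
theorem pwθ_of {L : Lyap} (hL : L.Good) {s : Fin L.r → ℝ} (hs : ∀ b, 0 ≤ s b)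
    (h : ∀ b y, Off y → dot (curl (L.θ b)) (curl (L.θ b)) y ≤ s b ^ 2 * tau 1 y ^ 12) {C : ℝ}
    (hC : ∑ a, (∑ b, |L.F a b| * s b) ^ 2 + ∑ i, (∑ b, |L.Z i b| * s b) ^ 2 ≤ 8 * C ^ 2) (y : R3) :
    ∑ a, dot (curl (L.θF a)) (curl (L.θF a)) y + ∑ a, dot (curl (L.θZ a)) (curl (L.θZ a)) y
      ≤ C ^ 2 * Om y ^ 3 := by
  have e : ∀ c, curl (lc c L.θ) = lc c fun b => curl (L.θ b) := fun c =>
    md_curl_lin _ c fun b _ i => (hL.1 b i).1
  have ct : Continuous (tau 1) := (tau_smooth one_pos).continuous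
  have h' : ∀ b, dot (curl (L.θ b)) (curl (L.θ b)) y ≤ s b ^ 2 * tau 1 y ^ 12 := fun b => by
    have cc : ∀ i, Continuous (curl (L.θ b) i) := fun i =>
      (FourG_pd (hL.1 b _).1 _).continuous.sub (FourG_pd (hL.1 b _).1 _).continuous
    exact (Measure.dense_of_ae ae_off).induction (h b) (isClosed_le
      (continuous_finsetSum _ fun i _ => (cc i).mul (cc i)) (continuous_const.mul (ct.pow 12))) y
  have t0 : 0 ≤ tau 1 y ^ 12 := by positivity
  simp only [Lyap.θF, Lyap.θZ, e]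
  refine (add_le_add (Finset.sum_le_sum fun a _ => pt_lc hs t0 h' _)
    (Finset.sum_le_sum fun a _ => pt_lc hs t0 h' _)).trans ?_
  rw [← Finset.sum_mul, ← Finset.sum_mul, ← add_mul, pt_Om]
  exact (mul_le_mul_of_nonneg_right hC t0).trans_eq (by ring)

/-- The operator `LX` in the variable `1 - t ^ 4`. -/
noncomputable def LS (a b : ℝ) (W : ℝ[X]) : ℝ[X] :=
  (C a + C b * (1 - X)) * W + 4 * (X * (1 - X) * derivative W)

theorem LX_comp (a b : ℝ) (W : ℝ[X]) : LX a b (W.comp qX) = (LS a b W).comp qX := by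
  simp only [LX, LS, qX, derivative_comp, add_comp, mul_comp, sub_comp, C_comp, X_comp, one_comp,
    ofNat_comp, derivative_sub, derivative_one, derivative_X_pow, map_natCast]
  push_cast
  ring

theorem pt_q (W : ℝ[X]) (t : ℝ) : (W.comp qX).eval t = W.eval (1 - t ^ 4) := by
  simp [qX, eval_comp]

theorem pt_mem (y : R3) : 1 - tau 1 y ^ 4 ∈ Icc (0 : ℝ) 1 :=
  ⟨sub_nonneg.2 (pow_le_one₀ (tau_pos one_pos y).le (tau_le_one one_pos y)),
    sub_le_self _ (by positivity)⟩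

theorem pt_tau (y : R3) (h : 0 ≤ A) : A * tau 1 y ^ 14 ≤ A * tau 1 y ^ 12 :=
  mul_le_mul_of_nonneg_left
    (pow_le_pow_of_le_one (tau_pos one_pos y).le (tau_le_one one_pos y) (by norm_num)) h

/-- The members of class one. -/
theorem pt_one (ha : ∀ s ∈ Icc (0 : ℝ) 1, s * (1 - s) * (lK k * W.eval s) ^ 2 ≤ A ^ 2)
    (hb : ∀ s ∈ Icc (0 : ℝ) 1,
      s * (1 - s) * ((k + 1) * (LS (-5) 11 W).eval s) ^ 2 ≤ A ^ 2) (hy : Off y) :
    dot (curl (jT k 7 (qX * W.comp qX))) (curl (jT k 7 (qX * W.comp qX))) y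
      ≤ A ^ 2 * tau 1 y ^ 12 := by
  refine le_trans ?_ (pt_tau y (sq_nonneg A))
  simp only [dot, ← sq, curl_jT hy.ne_zero, hy.jM_eq, rF, hy.sq_vF]
  have e1 : ((2 : ℝ) - (7 : ℕ)) = -5 := by norm_num
  have e2 : ((4 : ℝ) + (7 : ℕ)) = 11 := by norm_num
  have h1 := ha _ (pt_mem y)
  have h2 := hb _ (pt_mem y)
  have h3 := Pa_dPa_le (2 * k + 2) (pa y)
  have h4 := kA_sq one_pos y
  simp only [Fin.sum_univ_three, Matrix.cons_val_zero, Matrix.cons_val_one, Matrix.cons_val, e1, e2,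
    LX_comp, tp, Real.rpow_natCast, eval_mul, eval_C, pt_q, Pi.zero_apply]
  push_cast at h3
  generalize W.eval (1 - tau 1 y ^ 4) = u at *
  generalize (LS (-5) 11 W).eval (1 - tau 1 y ^ 4) = v at *
  generalize Pa (2 * k + 2) (pa y) = P at *
  generalize dPa (2 * k + 2) (pa y) = D at *
  have l0 : (0 : ℝ) < (2 * k + 2) ^ 2 := by positivity
  refine le_of_mul_le_mul_left ?_ l0
  have t0 : 0 ≤ tau 1 y ^ 14 := by positivity
  have k1 := mul_le_mul_of_nonneg_left h1 (mul_nonneg t0 (mul_nonneg l0.le (sq_nonneg P)))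
  have k2 := mul_le_mul_of_nonneg_left h2 (mul_nonneg t0 (sq_nonneg D))
  have k3 := mul_le_mul_of_nonneg_left h3 (mul_nonneg t0 (sq_nonneg A))
  simp only [mul_pow, h4] at *
  generalize tau 1 y = t at *
  nlinarith

/-- The members of class zero. -/
theorem pt_zero (hc : ∀ s ∈ Icc (0 : ℝ) 1, |(k + 1) / 2 * ((1 - s) ^ 2 *
      (4 * lK k * W.eval s - (LS (-11) 15 (LS (-5) 11 W)).eval s))| ≤ A) (hy : Off y) :
    dot (curl (jM k 13 (C (-lK k) * W.comp qX) (C (-1 / 2) * LX (-5) 11 (W.comp qX))))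
      (curl (jM k 13 (C (-lK k) * W.comp qX) (C (-1 / 2) * LX (-5) 11 (W.comp qX)))) y
      ≤ A ^ 2 * tau 1 y ^ 12 := by
  refine le_trans ?_ (pt_tau y (sq_nonneg A))
  simp only [dot, ← sq, curl_jM hy.ne_zero, hy.jT_eq, zF, hy.sq_vF]
  have e1 : ((2 : ℝ) - (13 : ℕ)) = -11 := by norm_num
  have e2 : ((2 : ℝ) + (13 : ℕ)) = 15 := by norm_num
  have e3 : ∀ (a b r : ℝ) (P : ℝ[X]), LX a b (C r * P) = C r * LX a b P := fun a b r P => by
    simp only [LX, derivative_C_mul]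
    ring
  have h1 := sq_le_sq' (abs_le.1 (hc _ (pt_mem y))).1 (abs_le.1 (hc _ (pt_mem y))).2
  have h3 := Pa_dPa_le (2 * k + 2) (pa y)
  simp only [Fin.sum_univ_three, Matrix.cons_val_zero, Matrix.cons_val_one, Matrix.cons_val, e1, e2,
    e3, LX_comp, tp, Real.rpow_natCast, eval_mul, eval_sub, eval_C, pt_q, Pi.zero_apply]
  push_cast at h3
  generalize W.eval (1 - tau 1 y ^ 4) = u at *
  generalize (LS (-11) 15 (LS (-5) 11 W)).eval (1 - tau 1 y ^ 4) = v at *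
  generalize Pa (2 * k + 2) (pa y) = P at *
  generalize dPa (2 * k + 2) (pa y) = D at *
  have t0 : 0 ≤ tau 1 y ^ 14 := by positivity
  have h4 : D ^ 2 ≤ (2 * k + 2) ^ 2 := by nlinarith [mul_nonneg (sq_nonneg (2 * k + 2 : ℝ)) (sq_nonneg P)]
  have k1 := mul_le_mul_of_nonneg_left h1 t0
  generalize tau 1 y = t at *
  have k2 := mul_le_mul_of_nonneg_left h4 (sq_nonneg (t ^ 15 * (4 * lK k * u - v) / 4))
  nlinarith

end Pool.Agent.Work.MP_6bf1e5_an.H
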