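import Pool.Agent.Lib.KRad.Top
import Pool.Agent.Work.MP_6bf1e5_an.H.PassDef

/-! The checks of the pointwise bound for the curls of the functionals (owner helper77). -/

namespace Pool.Agent.Work.MP_6bf1e5_an.H.Ps

open Pool.Agent.Lib.KLA Pool.Agent.Lib.KBlk Pool.Agent.Lib.KRad

noncomputable section

/-- The bounds of the members of block `i` are the digits of `z`; the tables have scale `2 ^ r`. -/
def pwC (P : Pr) (n r U d e q z : Nat) (A : Lay) (Th : Nat → Nat → Cm) (i : Nat) : Bool :=
  strict (Nat.add A.b0 (Nat.div i 2)) fun b => strict (Nat.mod i 2) fun c =>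
    strict (A.J b c) fun J => strict (Nat.sub b 1) fun k =>
      strict (Nat.add 16 (A.pos b c 0)) fun o => (fun M : Cm =>
        strict (Nat.add M.z P.bx) fun x => strict (Nat.sub x r) fun s =>
          bnd (bnd M.fit (Nat.ble r x)) (pwB U P.W J d e q c k o z (cmF (P.at J) n
            ⟨k, M.M, M.E, M.K, s⟩ (gg (P.at J) k k) (M.ld (P.at J) 0)))) (Th b c)

/-- The columns of `X` and of `Zc`, weighted by the digits of `z`. -/
def pwX (D : Dat) (U e d t w z : Nat) : List Nat → Nat → Bool :=
  pwP U D.V D.kX e d t w D.c1 D.Am D.X z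

def pwY (D : Dat) (U e d t z B : Nat) : Bool := pwZ U D.V D.kZ e d t D.c1 D.Zc z B

end

end Pool.Agent.Work.MP_6bf1e5_an.H.Ps
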