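import Pool.Agent.Work.MP_6bf1e5_an.H.PwThD
import Pool.Agent.Work.MP_6bf1e5_an.H.PwThK
import Pool.Agent.Work.MP_6bf1e5_an.H.FamT

/-! The pointwise bound for the curls of the stored functionals (owner helper77). -/

open Polynomial Pool.Agent.Lib Pool.Agent.Lib.KLA Pool.Agent.Lib.KBlk Pool.Agent.Lib.KRad

namespace Pool.Agent.Work.MP_6bf1e5_an.H.Ps

open Ca Jf

variable {P : Pr} {n r U d e q z b c : ℕ} {A : Lay} {Th : ℕ → ℕ → Cm} {κ : ℝ}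

theorem pwC_sound (h : All (pwC P n r U d e q z A Th) (2 * A.nq)) (hW : 0 < P.W) (hx : 0 < P.Wx)
    (hκ : 3 * 2 ^ q ≤ κ * (512 * 2 ^ r)) (hb : A.Has b c) :
    PwB U d z κ (A.J b c) c (b - 1) (16 + A.pos b c 0) (thQ Th b c) := by
  obtain ⟨b1, b2, b3⟩ := hb
  have k := h (2 * (b - A.b0) + c) (by omega)
  have e1 : Nat.add A.b0 (Nat.div (2 * (b - A.b0) + c) 2) = b := by
    show _ + (_ + _) / 2 = _
    omega
  have e2 : Nat.mod (2 * (b - A.b0) + c) 2 = c := by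
    show (_ + _) % 2 = _
    omega
  simp only [pwC, strict_eq, e1, e2, bnd_iff, Nat.ble_eq] at k
  refine ⟨P.W, e, q, _, 2 ^ r, by positivity, hW, hκ, ?_, k.2⟩
  have := rep_sT (P := P.at (A.J b c)) (n := n) (k := b - 1) (z := (Th b c).z) (r := r)
    (G := ⟨b - 1, (Th b c).M, (Th b c).E, (Th b c).K, Nat.sub (Nat.add (Th b c).z P.bx) r⟩) hW hx
    (mat_cld (j0 := 0) k.1.1) (Nat.sub_add_cancel k.1.2).symm
  simp only [zero_add] at this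
  exact this

/-- The field `pwθ`. -/
theorem pwθ_fam {O : Obj} (hL : O.L.Good) (hθ : O.θ = th0 Th)
    (h : All (pwC P n r U d e q z O.D.Ah Th) (2 * O.D.Ah.nq))
    (k0 : 0 < P.W ∧ 0 < P.Wx ∧ 0 < d ∧ d ≤ U) {x t w x' t' w' B' : ℕ} {B : List ℕ}
    (h1 : All (pwX O.D U x d t w z B) O.D.nm) (h2 : pwY O.D U x' d t' z B' = true)
    (k1 : O.D.Am.nq ≤ O.D.Am.q * O.D.nm ∧ O.D.kX < 2 ^ x ∧ x + 1 ≤ O.D.V ∧
      16 * O.D.c1 * 2 ^ (d + x) ≤ 2 ^ (w + t) ∧ w + t < O.D.V)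
    (k2 : O.D.kZ < 2 ^ x' ∧ x' + 1 ≤ O.D.V ∧ 16 * O.D.c1 * 2 ^ (d + x') ≤ 2 ^ (w' + t') ∧
      w' + t' < O.D.V ∧ 2 * (2 ^ w' + 1) ^ 2 + 1 < 2 ^ O.D.V) {C : ℝ}
    (hC : (3 * 2 ^ q / (512 * 2 ^ r)) ^ 2 * (4 ^ t * (KRad.sumF (lget B) O.D.nm : ℕ) / 4 ^ O.D.sX
      + 4 ^ t' * B' / 4 ^ O.D.sZ) ≤ 8 * C ^ 2) (y : R3) :
    ∑ a, dot (curl (O.L.θF a)) (curl (O.L.θF a)) y + ∑ a, dot (curl (O.L.θZ a)) (curl (O.L.θZ a)) y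
      ≤ C ^ 2 * Om y ^ 3 :=
  pwθ_dat hL O.ok (Q := thQ Th) rfl (fun a => congrFun hθ _) (fun _ _ => rfl) (fun _ _ => rfl)
    (by positivity) k0.2.2.1 k0.2.2.2 (fun _ _ hb _ => pwC_sound h k0.1 k0.2.1
      (div_mul_cancel₀ _ (by positivity)).ge hb) h1 h2 k1 k2 hC y

end Pool.Agent.Work.MP_6bf1e5_an.H.Ps
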