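import Pool.Agent.Work.MP_6bf1e5_an.H.RadG
import Pool.Agent.Work.MP_6bf1e5_an.H.SkGal
import Pool.Agent.Work.MP_6bf1e5_an.H.CertAlg

/-! The block diagonal quantities in closed form (owner helper84). -/

open scoped ContDiff ENNReal FourierTransform Real
open Set MeasureTheory Polynomial Filter

namespace Pool.Agent.Work.MP_6bf1e5_an.H

noncomputable section

variable {a : ℝ} {P Q : ℝ[X]} {l d N M n : ℕ} {c p q B : ℕ → ℝ} {g : ℝ → ℝ}

theorem hf_uniq {Y : ℕ → Sc} (h : ∀ k, HF k (Y k)) : ∀ {K : ℕ},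
    (∀ y, ∑ k ∈ Finset.range K, Y k y = 0) → ∀ k < K, ∀ y, Y k y = 0
  | 0, _, _, hk => absurd hk (Nat.not_lt_zero _)
  | K + 1, e, k, hk => by
    simp only [Finset.sum_range_succ] at e
    have h0 : ∀ y, Y K y = 0 := by
      cases K with
      | zero => simpa using e
      | succ K =>
        have h1 := (PolyF.sum (k := K) (Finset.range (K + 1)) fun j hj =>
          (h j).1.mono (Nat.lt_succ_iff.1 (Finset.mem_range.1 hj))).cmul (-1)
        rw [show (fun y => -1 * ∑ j ∈ Finset.range (K + 1), Y j y) = Y (K + 1) from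
          funext fun y => by linarith [e y]] at h1
        exact congrFun ((h _).eq_zero h1 K.lt_succ_self)
    rcases Nat.lt_succ_iff_lt_or_eq.1 hk with h1 | rfl
    · exact hf_uniq h (fun y => by simpa [h0] using e y) k h1
    · exact h0

/-- The graded parts of a mode from any expansion of its vorticity in harmonics. -/
theorem gr_sum (A : Mode) (h : 2 ≤ A.l) {ι : Type} (S : Finset ι) {dg : ι → ℕ} {E : ι → Sc}
    {x : ι → ℝ} {i : Fin 3} (hE : ∀ s, HF (dg s) (E s))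
    (e : ∀ y, curl A.u i y = Op (3 / 4) y * ∑ s ∈ S, x s * E s y) (φ : ℕ → ℝ) (n : ℕ) (y : R3) :
    ∑ k ∈ Finset.range n, φ k * A.gr k i y =
      ∑ s ∈ S, (if dg s < n then φ (dg s) * x s else 0) * E s y := by
  have key : ∀ k, A.gr k i y = ∑ s ∈ S, if dg s = k then x s * E s y else 0 := fun k => by
    refine sub_eq_zero.1 (hf_uniq (Y := fun k y => A.gr k i y
      - ∑ s ∈ S, if dg s = k then x s * E s y else 0) (fun k => (A.hf_gr h k i).sub
        (HF.sum S fun s _ => md_hf_ite _ fun e => (e ▸ hE s).cmul _))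
      (K := A.l + A.M + 2 + (S.sup dg + 1 + (k + 1))) (fun y => ?_) k (by omega) y)
    have h1 := (A.curl_gr h i y).symm.trans (e y)
    rw [Finset.sum_sub_distrib, Finset.sum_range_add, Finset.sum_eq_zero (s := Finset.range
      (S.sup dg + 1 + (k + 1))) fun j _ => by rw [A.gr_zero (by omega)]; rfl, add_zero,
      mul_left_cancel₀ (Real.rpow_pos_of_pos (sp_Om_pos y) _).ne' h1, Finset.sum_comm, sub_eq_zero]
    refine Finset.sum_congr rfl fun s hs => ?_
    have := Finset.le_sup (f := dg) hs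
    rw [Finset.sum_ite_eq, if_pos (Finset.mem_range.2 (by omega))]
  simp only [key, Finset.mul_sum, mul_ite, mul_zero]
  rw [Finset.sum_comm]
  refine Finset.sum_congr rfl fun s _ => ?_
  simp only [Finset.sum_ite_eq, Finset.mem_range, ite_mul, zero_mul, mul_assoc]

/-- Coefficients times a function of the degree, cut at the degree `n`. -/
def ct (φ : ℕ → ℝ) (n d : ℕ) (p : ℕ → ℝ) : ℕ → ℝ := fun i =>
  if d + i < n then φ (d + i) * p i else 0

theorem gr_fT (A : Mode) (h : 2 ≤ A.l) (e : curl A.u = fT l (3 / 4) (gS l N p)) (φ : ℕ → ℝ)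
    (n : ℕ) : (fun i y => ∑ k ∈ Finset.range n, φ k * A.gr k i y) =
      fT l 0 (gS l N (ct φ n l p)) := by
  funext i y
  rw [gr_sum A h (Finset.range N) (x := p) (hf_sep (harm_TT l i)) fun y => ?_]
  all_goals simp only [e, fT_apply, gS_eval, Finset.mul_sum, ct]
  · simp only [Op, Real.rpow_zero]
    exact Finset.sum_congr rfl fun s _ => by ring
  · exact Finset.sum_congr rfl fun s _ => by ring

theorem gr_fM (A : Mode) (h : 2 ≤ A.l)
    (e : curl A.u = fM d (3 / 4) (gS d N p) (gS (d + 2) N q)) (φ : ℕ → ℝ) (n : ℕ) :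
    (fun i y => ∑ k ∈ Finset.range n, φ k * A.gr k i y) =
      fM d 0 (gS d N (ct φ n d p)) (gS (d + 2) N (ct φ n (d + 2) q)) := by
  funext i y
  rw [gr_sum A h ((Finset.range N).disjSum (Finset.range N)) (x := Sum.elim p q)
    (dg := Sum.elim (d + ·) (d + 2 + ·)) (E := Sum.elim _ _) (Sum.forall.2
      ⟨hf_sep ((harm_Hl (d + 1)).pd i), hf_sep (harm_up (harm_Hl (d + 1)) i)⟩) fun y => ?_]
  all_goals simp only [e, fM_apply, gS_eval, Finset.mul_sum, ct, Finset.sum_disjSum, Sum.elim_inl,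
    Sum.elim_inr, mul_add]
  · simp only [Op, Real.rpow_zero]
    congr 1 <;> exact Finset.sum_congr rfl fun s _ => by ring
  · congr 1 <;> exact Finset.sum_congr rfl fun s _ => by ring

/-- The coefficients of the potential of a mode. -/
def cf (M : ℕ) (B : ℕ → ℝ) : ℕ → ℝ := fun m => if m < M then B m / m.factorial else 0

theorem sp_cf (h : M + 2 ≤ N) : Sp N (cf M B) := fun _ _ => if_neg (by omega)

theorem pot_fT (pol : Bool) (h : M ≤ N) :
    Mode.pot ⟨pol, l, M, B⟩ = fT l (3 / 4) (gS l N (cf M B)) := by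
  obtain ⟨k, rfl⟩ := Nat.exists_eq_add_of_le h
  rw [Mode.pot_eq, fT, gS, Finset.sum_range_add, Finset.sum_eq_zero (s := Finset.range k)
    fun j _ => by simp [cf], add_zero]
  refine congrArg (tO _ _) (Finset.sum_congr rfl fun m hm => ?_)
  rw [cf, if_pos (Finset.mem_range.1 hm), gf, ← mul_assoc, ← C_mul,
    div_mul_cancel₀ _ (by positivity)]

/-- The coefficients of `curl (Om ^ (b - a) curl (fT (d + 1) a ..))`. -/
def ww (a b : ℝ) (d N : ℕ) (c : ℕ → ℝ) : ℕ → ℝ := fun j =>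
  vX N (vX N c (kM a d)) (hM b d) j + vX N (vX N c (kP a d)) (cV b (d + 1)) j

theorem curl_curl (h : Sp N c) : curl (curl (fT (d + 1) a (gS (d + 1) N c))) =
    fT (d + 1) a (gS (d + 1) N (ww a a d N c)) := by
  rw [curl_fT h, curl_fM h.kP]
  rfl

theorem gr_lc (pol : Bool) (l M : ℕ) (B : ℕ → ℝ) (k : ℕ) : Mode.gr ⟨pol, l, M, B⟩ k =
    lc (fun m : Fin M => B m) fun m => (base pol l m).gr k := by
  funext i y
  simp only [Mode.gr, lc, base, ite_mul, one_mul, zero_mul, Finset.sum_ite_eq',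
    Finset.self_mem_range_succ, if_true]
  exact Finset.sum_range _

/-- The mode on which member `j` projects. -/
def Blk.md (G : Blk n) (ξ : G.I → ℝ → ℝ) (j : G.I) : Mode :=
  ⟨G.pol j.1, G.l j.1, G.sz j.1, prj (G.l j.1) (ξ j)⟩

theorem Blk.Y_eq (G : Blk n) (ξ : G.I → ℝ → ℝ) (j : G.I) : G.Y ξ j = (G.md ξ j).gr :=
  funext fun k => (gr_lc _ _ _ _ k).symm

theorem mD_ip (n : ℕ) (Y Z : ℕ → Vc) : Ca.mD n Y Z =
    ip (sm (Op 4) fun i y => ∑ k ∈ Finset.range n, (lam k - lamS n) * Y k i y)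
      fun i y => ∑ k ∈ Finset.range n, 1 * Z k i y := by
  simp only [Ca.mD, ip, dot, sm, one_mul, show (4 : ℝ) = (4 : ℕ) by norm_num, sp_Op_nat,
    Finset.mul_sum Finset.univ, mul_assoc]

theorem lp_eq (A : Mode) (h : 2 ≤ A.l) {K : ℕ} (hK : A.l + A.M + 2 ≤ K) :
    A.lp = sm (Op (9 / 4)) fun i y => ∑ k ∈ Finset.range K, lam k * A.gr k i y := by
  funext i y
  obtain ⟨k, rfl⟩ := Nat.exists_eq_add_of_le hK
  rw [A.lp_gr h, sm, Finset.sum_range_add _ _ k, Finset.sum_eq_zero (s := Finset.range k)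
    fun j _ => by rw [A.gr_zero (by omega)]; simp, add_zero]

theorem ct_big (φ : ℕ → ℝ) (h : d + N ≤ n) :
    gS d N (ct φ n d p) = gS d N fun i => φ (d + i) * p i :=
  gS_congr fun _ _ => if_pos (by omega)

theorem lp_fT (A : Mode) (h : 2 ≤ A.l) (e : curl A.u = fT l (3 / 4) (gS l N p)) :
    A.lp = fT l (9 / 4) (gS l N fun i => lam (l + i) * p i) := by
  rw [lp_eq A h (K := A.l + A.M + 2 + (l + N)) (by omega), gr_fT A h e, sm_fT, zero_add,
    ct_big _ (by omega)]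

theorem lp_fM (A : Mode) (h : 2 ≤ A.l) (e : curl A.u = fM d (3 / 4) (gS d N p) (gS (d + 2) N q)) :
    A.lp = fM d (9 / 4) (gS d N fun i => lam (d + i) * p i)
      (gS (d + 2) N fun i => lam (d + 2 + i) * q i) := by
  rw [lp_eq A h (K := A.l + A.M + 2 + (d + 2 + N)) (by omega), gr_fM A h e, sm_fM, zero_add,
    ct_big _ (by omega), ct_big _ (by omega)]

theorem ip_lam_md {G : Blk n} (hG : G.Full) {ξ : G.I → ℝ → ℝ} (hξ : G.OK ξ) (hn : 1 ≤ n) {θ : Vc}
    (hθ : Test (3 / 4) n θ) (hs : ∀ i, Sym (-3) (θ i)) (j : G.I) :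
    ip (LamV (curl (G.u ξ j))) θ = ip (G.md ξ j).lp θ := by
  obtain ⟨hl, hl'⟩ := hG.1 j.1
  have ha := skg_adm (hξ j).1 (hξ j).2 hl'
  rw [Blk.u, skg_lam hn ha.1.hinf (Mode.adm (G.md ξ j) hl hl').hinf
    (skg_perp (hξ j).1 ha.2.2 hl hl' (skg_sz j.1)) (fun i => (hs i).hinf (by norm_num)) hθ,
    Mode.lam_curl _ hl]

theorem curl_md_T (h : M + 2 ≤ N) : curl (Mode.u ⟨false, d + 1, M, B⟩) = fM d (3 / 4)
    (gS d N (vX N (cf M B) (kM (3 / 4) d))) (gS (d + 2) N (vX N (cf M B) (kP (3 / 4) d))) := by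
  rw [← curl_fT (sp_cf h), ← pot_fT false (by omega)]
  rfl

theorem curl_md_P (h : M + 2 ≤ N) : curl (Mode.u ⟨true, d + 1, M, B⟩) =
    fT (d + 1) (3 / 4) (gS (d + 1) N (ww (3 / 4) (3 / 4) d N (cf M B))) := by
  rw [← curl_curl (sp_cf h), ← pot_fT true (by omega)]
  rfl

/-- The vorticity of a mode is meridional or toroidal. -/
theorem gr_shape (A : Mode) (h : 2 ≤ A.l) (φ : ℕ → ℝ) (n : ℕ) : ∃ P Q : ℝ[X],
    (fun i y => ∑ k ∈ Finset.range n, φ k * A.gr k i y) =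
      if A.pol then fT A.l 0 P else fM (A.l - 1) 0 P Q := by
  obtain ⟨pol, l, M, B⟩ := A
  obtain ⟨d, rfl⟩ : ∃ d, l = d + 1 := ⟨l - 1, by simp only at h; omega⟩
  cases pol
  · exact ⟨_, _, gr_fM _ h (curl_md_T le_rfl) φ n⟩
  · exact ⟨_, 0, gr_fT _ h (curl_md_P le_rfl) φ n⟩

/-- The graded form vanishes off the blocks. -/
theorem mD_off (A A' : Mode) (h : 2 ≤ A.l) (h' : 2 ≤ A'.l) (e : ¬(A.pol = A'.pol ∧ A.l = A'.l))
    (n : ℕ) : Ca.mD n A.gr A'.gr = 0 := by
  obtain ⟨P, Q, e1⟩ := gr_shape A h (fun k => lam k - lamS n) n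
  obtain ⟨P', Q', e2⟩ := gr_shape A' h' (fun _ => 1) n
  rw [mD_ip, e1, e2]
  cases h1 : A.pol <;> cases h2 : A'.pol <;>
    simp only [h1, h2, true_and, Bool.false_eq_true, if_false, if_true, sm_fT, sm_fM] at e ⊢
  · rw [ip_fM _ _ _ _ _ _ (by
      linarith [Nat.cast_nonneg (α := ℝ) (A.l - 1), Nat.cast_nonneg (α := ℝ) (A'.l - 1)]),
      if_neg (by omega)]
  · exact ip_fM_fT _ _ _ _ _ _ _
  · exact ip_fT_fM _ _ _ _ _ _ _
  · rw [ip_fT, if_neg e]

/-! ### Moments of the potentials -/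

theorem bd_fT (i : Fin 3) : Sym (-(l + 2 * a)) (fT l a P i) := by
  have h := sym_tO (l := l) (e := l + a) (P := P) i
  rwa [show (l : ℝ) - 2 * (l + a) = -(l + 2 * a) by ring] at h

theorem bd_fM (i : Fin 3) : Sym (-(d + 2 * a)) (fM d a P Q i) := by
  have h := sym_mO (l := d + 1) (e := d + a) (P := P + (1 - X) * ((1 + X) * Q))
    (P' := (1 - X) * (C (-(2 * d + 3) : ℝ) * Q)) i
  rwa [show ((d + 1 : ℕ) : ℝ) - 1 - 2 * (d + a) = -(d + 2 * a) by push_cast; ring] at h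

theorem rd_ip_sum {ι : Type} (S : Finset ι) (c : ι → ℝ) {V : ι → Vc} {θ : Vc}
    (h : ∀ s ∈ S, Integrable (dot (V s) θ)) :
    ip (fun i y => ∑ s ∈ S, c s * V s i y) θ = ∑ s ∈ S, c s * ip (V s) θ := by
  have e : dot (fun i y => ∑ s ∈ S, c s * V s i y) θ = fun y => ∑ s ∈ S, c s * dot (V s) θ y := by
    funext y
    simp only [dot, Finset.sum_mul, Finset.mul_sum, mul_assoc]
    exact Finset.sum_comm
  rw [ip, e, integral_finsetSum _ fun j hj => (h j hj).const_mul _]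
  simp only [integral_const_mul, ip]

/-- Integration by parts for symbols. -/
theorem rd_ip_curl {U V : Vc} {m m' : ℝ} (hU : ∀ i, Sym m (U i)) (hV : ∀ i, Sym m' (V i))
    (h : m + m' < -3) : ip (curl U) V = ip U (curl V) := by
  have i1 : ∀ i j k, Integrable fun y => pd k (U i) y * V j y := fun i j k =>
    ((md_sym_pd (hU i) k).bd.mul (hV j).bd).integrable (by linarith)
  have i2 : ∀ i j k, Integrable fun y => U i y * pd k (V j) y := fun i j k =>
    ((hU i).bd.mul (md_sym_pd (hV j) k).bd).integrable (by linarith)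
  have b : ∀ i j k, ∫ y, U i y * pd k (V j) y = -∫ y, pd k (U i) y * V j y := fun i j k =>
    integral_mul_fderiv_eq_neg_fderiv_mul_of_integrable (i1 i j k) (i2 i j k)
      (((hU i).bd.mul (hV j).bd).integrable h) (fun y _ => ResHl_diff (hU i).1 y)
      fun y _ => ResHl_diff (hV j).1 y
  unfold ip dot
  rw [integral_finsetSum _ fun i _ =>
      ((md_sym_curl hU i).bd.mul (hV i).bd).integrable (by linarith),
    integral_finsetSum _ fun i _ => ((hU i).bd.mul (md_sym_curl hV i).bd).integrable (by linarith)]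
  simp only [curl, sub_mul, mul_sub, integral_sub (i1 _ _ _) (i1 _ _ _),
    integral_sub (i2 _ _ _) (i2 _ _ _), b, Fin.sum_univ_three, Fin.reduceAdd]
  ring

/-- The moments of a potential profile. -/
def mu (l : ℕ) (g : ℝ → ℝ) (a : ℝ) (m : ℕ) : ℝ := ip (tor l g) (fT l a (gf l m)) / nT l

theorem nT_pos (h : 1 ≤ l) : 0 < nT l := by
  have : (0 : ℝ) < l := by exact_mod_cast h
  unfold nT
  positivity

theorem ip_tor_gS (hl : 1 ≤ l) (hg : ∀ i, Bd (-1) (tor l g i)) (ha : 2 < l + 2 * a) :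
    ip (tor l g) (fT l a (gS l N p)) = nT l * ∑ i ∈ Finset.range N, p i * mu l g a i := by
  have e : fT l a (gS l N p) = fun i y => ∑ s ∈ Finset.range N, p s * fT l a (gf l s) i y := by
    funext i y
    simp only [fT_apply, gS_eval, Finset.mul_sum]
    exact Finset.sum_congr rfl fun s _ => by ring
  rw [e, rj_ip_comm, rd_ip_sum _ _ fun s _ =>
    (Bd.dot (fun i => (bd_fT i).bd) hg).integrable (by linarith), Finset.mul_sum]
  refine Finset.sum_congr rfl fun s _ => ?_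
  rw [mu, rj_ip_comm, mul_left_comm, mul_div_cancel₀ _ (nT_pos hl).ne']

/-- The squared norms of the `gf l m`. -/
def nF (l m : ℕ) : ℝ := π * ((m + 2 * l + 1).factorial * m.factorial)
  / (2 ^ (2 * l + 1) * (m + l + 1) * l.factorial ^ 2)

theorem prj_eq (hl : 1 ≤ l) (m : ℕ) : prj l g m / m.factorial = mu l g (9 / 4) m / nF l m := by
  have e : fT l (9 / 4) (gf l m) = fun i y => ∑ _s ∈ ({0} : Finset ℕ),
      m.factorial * sm (Op (9 / 4)) (eV l m) i y := by
    funext i y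
    rw [Finset.sum_singleton, eV, sm_tO, fT, gf, tO_smul]
  have e2 : ip (tor l g) (fT l (9 / 4) (gf l m)) =
      m.factorial * ip (tor l g) (sm (Op (9 / 4)) (eV l m)) := by
    rw [e, ip, ip, ← integral_const_mul]
    simp only [dot, Finset.sum_singleton, Finset.mul_sum, mul_left_comm]
  have := (nT_pos hl).ne'
  rw [prj, ip_eV, mu, e2, nF]
  field_simp

theorem mom_T (hl : 1 ≤ d) (h : Sp N c) (hg : ∀ i, Sym (-2) (tor (d + 1) g i)) :
    mom (sm Om (curl (fT (d + 1) (3 / 4) (gS (d + 1) N c)))) (tor (d + 1) g) = nT (d + 1) *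
      ∑ i ∈ Finset.range N, ww (3 / 4) (7 / 4) d N c i * mu (d + 1) g (7 / 4) i := by
  have : (1 : ℝ) ≤ d := by exact_mod_cast hl
  rw [mom, curl_fT h, ← md_Op_one, sm_fM, rd_ip_curl hg bd_fM (by linarith), curl_fM h.kP,
    show (3 / 4 + 1 : ℝ) = 7 / 4 by norm_num, ip_tor_gS (by omega)
      (fun i => (hg i).bd.mono (by norm_num)) (by push_cast; linarith)]
  rfl

theorem mom_P (hl : 1 ≤ d) (h : Sp N c) (hg : ∀ i, Sym (-1) (tor (d + 1) g i)) :
    mom (fT (d + 1) (3 / 4) (gS (d + 1) N c)) (curl (tor (d + 1) g)) = nT (d + 1) *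
      ∑ i ∈ Finset.range N, ww (3 / 4) (3 / 4) d N c i * mu (d + 1) g (3 / 4) i := by
  have : (1 : ℝ) ≤ d := by exact_mod_cast hl
  rw [mom, rd_ip_curl (md_sym_curl hg) bd_fT (by push_cast; linarith),
    rd_ip_curl hg (md_sym_curl bd_fT) (by push_cast; linarith), curl_curl h,
    ip_tor_gS (by omega) (fun i => (hg i).bd) (by push_cast; linarith)]

/-! ### Moments of powers of `t` -/

/-- `∫ r ^ (2 d + 2) t ^ k P (1 - 2 t ^ 4)`. -/
def Jt (d k : ℕ) (P : ℝ[X]) : ℝ := Jw d (k / 4 - (2 * d + 3)) P / 2 ^ (k / 4 : ℝ)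

/-- The same with the factor `(1 - t) ^ m`. -/
def Jl (d : ℕ) (P : ℝ[X]) : ℕ → ℕ → ℝ
  | 0, k => Jt d k P
  | m + 1, k => Jl d P m k - Jl d P m (k + 1)

variable {k : ℕ}

theorem rd_lt (h : 4 * d + 6 < k) : -((d : ℝ) + 3 / 2) < k / 4 - (2 * d + 3) := by
  have : (4 * d + 6 : ℝ) < k := by exact_mod_cast h
  linarith

theorem Jt_four : Jw d (k / 4 - (2 * d + 3) + 1) P / 2 ^ (k / 4 : ℝ) = 2 * Jt d (k + 4) P := by
  rw [Jt, show ((k + 4 : ℕ) : ℝ) / 4 = k / 4 + 1 by push_cast; ring,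
    Real.rpow_add_one (by norm_num), add_sub_right_comm]
  field_simp

theorem Jt_gf (h : 4 * d + 6 < k) (m : ℕ) : (4 * m + k) * Jt d k (gf d (m + 1)) =
    (4 * m + 8 * d + 12 - k) * (m + 2 * d + 2) * Jt d k (gf d m) := by
  have := Jw_gf (rd_lt h) m
  rw [Jt, Jt]
  linear_combination 4 / 2 ^ (k / 4 : ℝ) * this

theorem Jt_gf_one (h : 4 * d + 6 < k) (P : ℝ[X]) : Jt d k (gf d 1 * P) =
    (2 * d + 2) * Jt d k P - 2 * (2 * d + 2) * Jt d (k + 4) P := by
  have := Jt_four (d := d) (k := k) (P := P)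
  rw [Jt, Jt, Jw_gf_one (rd_lt h)]
  linear_combination (-(2 * d + 2)) * this

theorem Jt_gf_rec (h : 4 * d + 6 < k) (m : ℕ) (P : ℝ[X]) : Jt d k (gf d (m + 2) * P) =
    (2 * m + 2 * d + 4) * Jt d k (gf d (m + 1) * P)
      - 2 * (2 * m + 2 * d + 4) * Jt d (k + 4) (gf d (m + 1) * P)
      - (m + 2 * d + 2) * (m + 1) * Jt d k (gf d m * P) := by
  have := Jt_four (d := d) (k := k) (P := gf d (m + 1) * P)
  rw [Jt, Jt.eq_1 d k, Jt.eq_1 d k, Jw_gf_rec (rd_lt h)]
  linear_combination (-(2 * m + 2 * d + 4)) * this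

theorem Jt_one (h : 4 * d + 6 < k) : Jt d k 1 = Real.Gamma (d + 3 / 2)
    * Real.Gamma (k / 4 - (d + 3 / 2)) / (2 * Real.Gamma (k / 4)) := by
  rw [Jt, Jw_one (rd_lt h), show (2 * d + 2 + (k / 4 - (2 * d + 3)) : ℝ) = k / 4 - 1 by ring,
    show (d + 3 / 2 + (k / 4 - (2 * d + 3)) : ℝ) = k / 4 - (d + 3 / 2) by ring,
    show (2 * d + 3 + (k / 4 - (2 * d + 3)) : ℝ) = k / 4 by ring, Real.rpow_sub_one (by norm_num)]
  field_simp

theorem Jw_Jt {α : ℕ} (P : ℝ[X]) :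
    Jw d (α / 4 - 3) P = 2 ^ ((8 * d + α : ℕ) / 4 : ℝ) * Jt d (8 * d + α) P := by
  rw [Jt, mul_div_cancel₀ _ (by positivity)]
  congr 1
  push_cast
  ring

/-- The profiles that are polynomials on the sphere. -/
theorem mu_H (hl : 1 ≤ l) (k α : ℕ) (P : ℝ[X]) (m : ℕ) :
    mu l (tF 1 k (P.comp (1 - 2 * X ^ 4))) (α / 4) m =
      2 ^ ((4 * l + α : ℕ) / 4 : ℝ) * Jt l (k + (4 * l + α)) (P * gf l m) := by
  have e : tor l (tF 1 k (P.comp (1 - 2 * X ^ 4))) =
      fT l (k / 4 - l) (C (1 / 2 ^ (k / 4 : ℝ)) * P) := by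
    refine sp_tor_congr fun z hz => ?_
    rw [omF_eq_tF hz, add_sub_cancel, mul_div_cancel₀ _ (by norm_num), mul_comp, C_comp,
      ← mul_assoc, ← C_mul, mul_one_div_cancel (by positivity), C_1, one_mul]
  rw [mu, e, ip_fT, if_pos rfl, mul_div_cancel_left₀ _ (nT_pos hl).ne', mul_assoc, Jw_C, Jt,
    Nat.cast_add k, add_div, Real.rpow_add (by norm_num),
    show (k / 4 + (4 * l + α : ℕ) / 4 - (2 * l + 3) : ℝ) = k / 4 - l + α / 4 - 3 by push_cast; ring]
  field_simp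

theorem bd_tF (k : ℕ) (P : ℝ[X]) (i : Fin 3) : Bd (-(k / 2) + l) (tor l (tF 1 k P) i) :=
  (sym_tor (sym_tF one_pos) i).bd

/-- The ladder profiles. -/
theorem mu_L (hl : 1 ≤ l) {α : ℕ} (m : ℕ) : ∀ (e k : ℕ), 6 < k + α →
    mu l (tF 1 k ((1 - X) ^ e)) (α / 4) m =
      2 ^ ((4 * l + α : ℕ) / 4 : ℝ) * Jl l (gf l m) e (k + (4 * l + α))
  | 0, k, _ => by simpa [Jl] using mu_H hl k α 1 m
  | e + 1, k, h => by
    have h' : (6 : ℝ) < k + α := by exact_mod_cast h
    have e1 : tor l (tF 1 k ((1 - X) ^ (e + 1))) = fun i y => ∑ s ∈ Finset.range 2,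
        (-1) ^ s * tor l (tF 1 (k + s : ℕ) ((1 - X) ^ e)) i y := by
      funext i y
      simp only [Finset.sum_range_succ, Finset.range_zero, Finset.sum_empty, sp_tor_apply,
        Nat.cast_succ, add_zero, tF_succ one_pos (rg_lt one_pos y)]
      simp only [tF, eval_mul, eval_pow, eval_sub, eval_one, eval_X]
      ring
    rw [Jl, mul_sub, add_right_comm k, ← mu_L hl m e k h, ← mu_L hl m e (k + 1) (by omega), mu, e1,
      rd_ip_sum _ _ fun s _ => (Bd.dot (bd_tF _ _) fun i => (bd_fT i).bd).integrable (by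
        push_cast; linarith [Nat.cast_nonneg (α := ℝ) s])]
    simp [Finset.sum_range_succ, mu, add_div, neg_div, sub_eq_add_neg]

theorem mu_sum {ι : Type} (S : Finset ι) (c : ι → ℝ) {f : ι → ℝ → ℝ}
    (hf : ∀ s ∈ S, ∀ i, Bd (-1) (tor l (f s) i)) (ha : 2 < l + 2 * a)
    (e : ∀ z, 0 ≤ z → g z = ∑ s ∈ S, c s * f s z) (m : ℕ) :
    mu l g a m = ∑ s ∈ S, c s * mu l (f s) a m := by
  have e1 : tor l g = fun i y => ∑ s ∈ S, c s * tor l (f s) i y := by
    funext i y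
    simp only [sp_tor_apply, e _ (sq_nonneg _), Finset.sum_mul, mul_assoc]
  rw [mu, e1, rd_ip_sum _ _ fun s hs =>
    (Bd.dot (hf s hs) fun i => (bd_fT i).bd).integrable (by linarith), Finset.sum_div]
  simp only [mu, mul_div_assoc]

end

end Pool.Agent.Work.MP_6bf1e5_an.H
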