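import Pool.Agent.Work.MP_6bf1e5_an.H.RadJ

/-! Expansions of curls in Gegenbauer polynomials (owner helper84). -/

open scoped ContDiff ENNReal FourierTransform Real
open Set MeasureTheory Polynomial Filter

namespace Pool.Agent.Work.MP_6bf1e5_an.H

noncomputable section

variable {a e : ℝ} {P Q P' Q' : ℝ[X]} {l d N : ℕ} {c p q : ℕ → ℝ} {Z : Sc}

theorem rg_der (b m : ℕ) : derivative (geg b (m + 1)) = (b : ℝ[X]) * geg (b + 2) m := by
  induction m using Nat.twoStepInduction with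
  | zero => simp [geg]
  | one =>
    rw [(sp_geg_der b 1).1]
    simp [geg, map_ofNat]
    ring
  | more m h0 h1 =>
    have r := sp_geg_rec (b + 2) m
    have e1 := (sp_geg_der b (m + 2)).1
    have e2 := (sp_geg_der b (m + 1)).2
    apply mul_left_cancel₀ (sp_cast_ne m)
    rw [h0, h1] at e2
    rw [h1] at e1
    push_cast at r e1 e2
    linear_combination ((m : ℝ[X]) + 2) * e1 - (m + 2 + b : ℝ[X]) * e2 - (b : ℝ[X]) * r

/-- The Gegenbauer polynomials of the harmonics with a solid part of degree `d`, times `m!`. -/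
def gf (d m : ℕ) : ℝ[X] := C (m.factorial : ℝ) * geg (2 * d + 2) m

theorem gf_zero (d : ℕ) : gf d 0 = 1 := by simp [gf, geg]

theorem gf_one (d : ℕ) (x : ℝ) : (gf d 1).eval x = (2 * d + 2) * x := by simp [gf, geg]

theorem gf_rec (d m : ℕ) (x : ℝ) : (gf d (m + 2)).eval x =
    (2 * m + 2 * d + 4) * x * (gf d (m + 1)).eval x - (m + 2 * d + 2) * (m + 1) * (gf d m).eval x := by
  simp only [gf, eval_mul, eval_C, sp_geg_eval, Nat.factorial_succ]
  push_cast
  field_simp
  ring

theorem gf_der (d m : ℕ) (x : ℝ) : (derivative (gf d (m + 1))).eval x =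
    (m + 1) * (2 * d + 2) * (gf (d + 1) m).eval x := by
  simp only [gf, derivative_C_mul, rg_der, eval_mul, eval_C, eval_natCast, Nat.factorial_succ,
    show 2 * (d + 1) + 2 = 2 * d + 2 + 2 by ring]
  push_cast
  ring

theorem gf_rel (d m : ℕ) (x : ℝ) : (derivative (gf d (m + 1))).eval x =
    (m + 1) * (x * (derivative (gf d m)).eval x + (m + 2 * d + 2) * (gf d m).eval x) ∧
    x * (derivative (gf d (m + 1))).eval x - (m + 1) * (derivative (gf d m)).eval x =
      (m + 1) * (gf d (m + 1)).eval x := by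
  have o3 := congrArg (eval x) (sp_geg_der (2 * d + 2) m).1
  have o4 := congrArg (eval x) (sp_geg_der (2 * d + 2) m).2
  simp only [gf, derivative_C_mul, eval_add, eval_mul, eval_sub, eval_C, eval_X, eval_one,
    eval_natCast, Nat.factorial_succ] at o3 o4 ⊢
  push_cast at o3 o4 ⊢
  constructor
  · linear_combination (m + 1) * (m.factorial : ℝ) * o3
  · linear_combination (m + 1) * (m.factorial : ℝ) * o4

theorem gf_ode (d m : ℕ) (x : ℝ) : (1 - x ^ 2) * (derivative (derivative (gf d m))).eval x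
    - (2 * d + 3) * x * (derivative (gf d m)).eval x + m * (m + 2 * d + 2) * (gf d m).eval x = 0 := by
  have o := congrArg (eval x) (geg_ode (2 * d + 2) m)
  simp only [gf, derivative_C_mul, eval_add, eval_mul, eval_sub, eval_C, eval_X, eval_one, eval_pow,
    eval_zero] at o ⊢
  push_cast at o
  linear_combination (m.factorial : ℝ) * o

theorem gf_deg (d m : ℕ) : (gf d m).natDegree ≤ m :=
  (natDegree_C_mul_le _ _).trans (natDegree_eq_of_degree_eq_some (geg_degree (by omega) m)).le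

/-- The moments against a power of `Om`. -/
theorem Jw_gf (ha : -(d + 3 / 2) < a) (m : ℕ) : (m + 2 * d + 3 + a) * Jw d a (gf d (m + 1)) =
    (m - a) * (m + 2 * d + 2) * Jw d a (gf d m) := by
  have h := Jw_geg ha m
  simp only [gf, Jw_C, Nat.factorial_succ]
  push_cast
  linear_combination (m.factorial : ℝ) * h

/-- The recurrence in one factor. -/
theorem Jw_gf_one (ha : -(d + 3 / 2) < a) (P : ℝ[X]) : Jw d a (gf d 1 * P) =
    (2 * d + 2) * Jw d a P - (2 * d + 2) * Jw d (a + 1) P := by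
  rw [Jw_succ, sub_eq_add_neg, ← neg_mul]
  exact Jw_lin ha fun x => by simp only [eval_mul, eval_sub, eval_one, eval_X, gf_one]; ring

theorem Jw_gf_rec (ha : -(d + 3 / 2) < a) (m : ℕ) (P : ℝ[X]) : Jw d a (gf d (m + 2) * P) =
    (2 * m + 2 * d + 4) * Jw d a (gf d (m + 1) * P)
      - (2 * m + 2 * d + 4) * Jw d (a + 1) (gf d (m + 1) * P)
      - (m + 2 * d + 2) * (m + 1) * Jw d a (gf d m * P) := by
  rw [Jw_succ, Jw_lin ha (R := gf d (m + 2) * P) (P := X * (gf d (m + 1) * P)) (Q := gf d m * P)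
    (c := 2 * m + 2 * d + 4) (c' := -((m + 2 * d + 2) * (m + 1))) fun x => by
      simp only [eval_mul, eval_X, gf_rec]; ring,
    Jw_lin ha (R := (1 - X) * (gf d (m + 1) * P)) (P := gf d (m + 1) * P)
      (Q := X * (gf d (m + 1) * P)) (c := 1) (c' := -1) fun x => by simp; ring]
  ring

/-! ### Banded matrices -/

/-- The coefficients of `dP (d + a) (gf d m)`. -/
def cU (a : ℝ) (d m j : ℕ) : ℝ := (d + 1) *
  if j = m then -((d + m + a) / (2 * (d + m + 1))) else if j + 1 = m then m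
  else if j + 2 = m then -(m * (m - 1) * (d + m + 2 - a) / (2 * (d + m + 1))) else 0

/-- The operator that lowers the solid degree. -/
def oV (d : ℕ) (a : ℝ) (P : ℝ[X]) : ℝ[X] :=
  (1 - X) * (C (2 * d + 3 : ℝ) * P + 2 * (1 + X) * dP (d + 1 + a) P)

/-- The coefficients of `oV d a (gf (d + 1) m)`. -/
def cV (a : ℝ) (d m j : ℕ) : ℝ := 1 / (d + 1) *
  if j = m then (m + 2 * d + 2) * (m + 2 * d + 3) * (d + m + 3 - a) / (4 * (d + m + 2))
  else if j = m + 1 then -((m + 2 * d + 3) / 2)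
  else if j = m + 2 then (d + m + 1 + a) / (4 * (d + m + 2)) else 0

theorem dP_gf (a : ℝ) (d m : ℕ) (x : ℝ) : (dP (d + a) (gf d m)).eval x =
    cU a d m m * (gf (d + 1) m).eval x + (d + 1) * m * (gf (d + 1) (m - 1)).eval x
      - (d + 1) * (m * (m - 1) * (d + m + 2 - a) / (2 * (d + m + 1)))
        * (gf (d + 1) (m - 2)).eval x := by
  simp only [dP, cU, if_true, eval_mul, eval_sub, eval_C, eval_X, eval_one]
  obtain _ | _ | m := m
  · simp only [gf_zero, derivative_one, eval_zero, eval_one, Nat.cast_zero]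
    field_simp
    ring
  · simp only [gf_der, Nat.sub_self, gf_zero, eval_one, zero_add, gf_one]
    push_cast
    field_simp
    ring
  · have h1 := (gf_rel d (m + 2) x).1
    have h2 := (gf_rel d (m + 1) x).2
    rw [show m + 1 + 1 - 1 = m + 1 from rfl, show m + 1 + 1 - 2 = m from rfl]
    simp only [gf_der] at h1 h2 ⊢
    push_cast at h1 h2 ⊢
    have h3 : (2 * (d + m + 3)) * (gf d (m + 2)).eval x = (2 * d + 2) *
        ((gf (d + 1) (m + 2)).eval x - (m + 2) * (m + 1) * (gf (d + 1) m).eval x) :=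
      mul_left_cancel₀ (by positivity : (m : ℝ) + 3 ≠ 0) (by linear_combination -h1 - (m + 3) * h2)
    linear_combination (norm := (field_simp; ring)) (-1 / 2) * h2
      - (d + m + 2 + a) / (4 * (d + m + 3)) * h3

theorem oV_gf (a : ℝ) (d m : ℕ) (x : ℝ) : (oV d a (gf (d + 1) m)).eval x =
    cV a d m m * (gf d m).eval x + cV a d m (m + 1) * (gf d (m + 1)).eval x
      + cV a d m (m + 2) * (gf d (m + 2)).eval x := by
  have e : derivative (gf d (m + 1)) = C ((m + 1) * (2 * d + 2) : ℝ) * gf (d + 1) m :=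
    Polynomial.funext fun x => by rw [gf_der, eval_mul, eval_C]
  have h1 := gf_ode d (m + 1) x
  obtain ⟨h2, h3⟩ := gf_rel d m x
  have h4 := gf_rec d m x
  rw [e] at h1 h2 h3
  simp only [oV, dP, cV, if_true, left_eq_add, add_eq_left, add_right_inj, one_ne_zero,
    OfNat.ofNat_ne_zero, OfNat.ofNat_ne_one, if_false, derivative_C_mul, eval_mul, eval_sub,
    eval_add, eval_C, eval_X, eval_one, eval_ofNat] at h1 h2 h3 ⊢
  push_cast at h1
  linear_combination (norm := (field_simp; ring)) (1 - x) / ((m + 1) * (2 * d + 2)) * h1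
    + (d + 2 - a) / ((m + 1) * (2 * d + 2)) * (h2 - x * h3)
    - (d + m + 1 + a) / (4 * (d + 1) * (d + m + 2)) * h4

/-- Combinations of the polynomials. -/
def gS (d N : ℕ) (c : ℕ → ℝ) : ℝ[X] := ∑ i ∈ Finset.range N, C (c i) * gf d i

/-- Vector times matrix. -/
def vX (N : ℕ) (c : ℕ → ℝ) (M : ℕ → ℕ → ℝ) : ℕ → ℝ := fun j => ∑ m ∈ Finset.range N, c m * M m j

/-- The vector vanishes from two places before `N` on. -/
def Sp (N : ℕ) (c : ℕ → ℝ) : Prop := ∀ m, N ≤ m + 2 → c m = 0

theorem gS_eval (d N : ℕ) (c : ℕ → ℝ) (x : ℝ) :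
    (gS d N c).eval x = ∑ i ∈ Finset.range N, c i * (gf d i).eval x := by
  simp only [gS, eval_finsetSum, eval_mul, eval_C]

theorem gS_congr (h : ∀ i < N, p i = q i) : gS d N p = gS d N q :=
  Finset.sum_congr rfl fun i hi => by rw [h i (Finset.mem_range.1 hi)]

theorem gS_add : gS d N (fun i => p i + q i) = gS d N p + gS d N q := by
  simp only [gS, C_add, add_mul, Finset.sum_add_distrib]

theorem gS_C (r : ℝ) : gS d N (fun i => r * p i) = C r * gS d N p := by
  simp only [gS, C_mul, Finset.mul_sum, mul_assoc]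

theorem gS_map {L : ℝ[X] → ℝ[X]} {d' : ℕ} {M : ℕ → ℕ → ℝ}
    (h0 : ∀ P Q, L (P + Q) = L P + L Q) (h1 : ∀ r P, L (C r * P) = C r * L P)
    (h : ∀ m < N, c m = 0 ∨ L (gf d m) = gS d' N (M m)) : L (gS d N c) = gS d' N (vX N c M) := by
  have e : ∀ s : Finset ℕ, L (∑ i ∈ s, C (c i) * gf d i) = ∑ i ∈ s, C (c i) * L (gf d i) := by
    intro s
    induction s using Finset.induction_on with
    | empty => simpa using h1 0 0
    | insert i s hi ih => rw [Finset.sum_insert hi, Finset.sum_insert hi, h0, h1, ih]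
  rw [gS, e, Finset.sum_congr rfl (g := fun i => C (c i) * gS d' N (M i)) fun i hi => ?_]
  · simp only [gS, vX, map_sum, C_mul, Finset.mul_sum, Finset.sum_mul, mul_assoc]
    exact Finset.sum_comm
  · rcases h i (Finset.mem_range.1 hi) with h | h
    · simp [h]
    · rw [h]

theorem rg_three (A B D : ℝ) {i j k : ℕ} (hi : i < N) (hj : j < N) (hk : k < N) (f : ℕ → ℝ) :
    ∑ n ∈ Finset.range N, ((if n = i then A else 0) + (if n = j then B else 0)
      + if n = k then D else 0) * f n = A * f i + B * f j + D * f k := by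
  simp [add_mul, Finset.sum_add_distrib, hi, hj, hk]

theorem dP_gS : dP (d + a) (gS d N c) = gS (d + 1) N (vX N c (cU a d)) := by
  refine gS_map (fun P Q => ?_) (fun r P => ?_) fun m hm => Or.inr (Polynomial.funext fun x => ?_)
  · simp only [dP, derivative_add]
    ring
  · simp only [dP, derivative_C_mul]
    ring
  rw [dP_gf, gS_eval, sub_eq_add_neg, ← neg_mul, ← rg_three _ _ _ hm (j := m - 1) (k := m - 2)
    (by omega) (by omega) fun i => (gf (d + 1) i).eval x]
  refine Finset.sum_congr rfl fun j _ => ?_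
  congr 1
  by_cases h0 : j = m
  · subst h0
    obtain _ | _ | j := j <;> simp [show ∀ j : ℕ, ¬j + 1 + 1 = j by omega]
  rw [if_neg h0, cU, if_neg h0]
  by_cases h1 : j + 1 = m
  · subst h1
    cases j <;> simp
  rw [if_neg h1]
  by_cases h2 : j + 2 = m
  · subst h2
    simp
  · rw [if_neg h2, if_neg (by omega), if_neg (by omega)]
    simp

theorem oV_gS (h : Sp N c) : oV d a (gS (d + 1) N c) = gS d N (vX N c (cV a d)) := by
  refine gS_map (fun P Q => ?_) (fun r P => ?_) fun m hm => ?_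
  · simp only [oV, dP, derivative_add]
    ring
  · simp only [oV, dP, derivative_C_mul]
    ring
  refine (le_or_gt N (m + 2)).imp (h m) fun h2 => Polynomial.funext fun x => ?_
  rw [oV_gf, gS_eval, ← rg_three _ _ _ hm (j := m + 1) (by omega) h2 fun i => (gf d i).eval x]
  refine Finset.sum_congr rfl fun j _ => ?_
  congr 1
  by_cases h0 : j = m
  · simp [h0]
  by_cases h1 : j = m + 1
  · simp [h1]
  by_cases h2 : j = m + 2
  · simp [h2]
  · simp [cV, h0, h1, h2]

theorem Sp.low (h : Sp N c) {M : ℕ → ℕ → ℝ} (hM : ∀ m j, m < j → M m j = 0) : Sp N (vX N c M) :=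
  fun j hj => Finset.sum_eq_zero fun m _ => by
    rcases lt_or_ge m j with h1 | h1
    · rw [hM m j h1, mul_zero]
    · rw [h m (by omega), zero_mul]

theorem cU_low (a : ℝ) (d : ℕ) {m j : ℕ} (h : m < j) : cU a d m j = 0 := by
  rw [cU, if_neg (by omega), if_neg (by omega), if_neg (by omega), mul_zero]

/-- Products under the integral. -/
theorem Jw_gS (ha : -(d + 3 / 2) < a) (P : ℝ[X]) :
    Jw d a (gS d N c * P) = ∑ i ∈ Finset.range N, c i * Jw d a (gf d i * P) := by
  rw [gS, Finset.sum_mul, Jw_sum ha]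
  simp only [mul_assoc, Jw_C]

theorem Jw_gS_gS (ha : -(d + 3 / 2) < a) : Jw d a (gS d N p * gS d N q) =
    ∑ j ∈ Finset.range N, vX N p (fun i j => Jw d a (gf d i * gf d j)) j * q j := by
  rw [mul_comm, Jw_gS ha]
  refine Finset.sum_congr rfl fun j _ => ?_
  rw [mul_comm (gf d j), Jw_gS ha, mul_comm, vX]

/-! ### The fields -/

/-- Toroidal fields. -/
def fT (l : ℕ) (a : ℝ) (P : ℝ[X]) : Vc := tO l (l + a) P

/-- Meridional fields of angular degree `d + 1`, split by the solid degrees `d` and `d + 2`. -/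
def fM (d : ℕ) (a : ℝ) (P Q : ℝ[X]) : Vc :=
  mO (d + 1) (d + a) (P + (1 - X) * ((1 + X) * Q)) ((1 - X) * (C (-(2 * d + 3) : ℝ) * Q))

theorem sm_fT (w : ℝ) : sm (Op w) (fT l a P) = fT l (a + w) P := by
  rw [fT, sm_tO, add_assoc, fT]

theorem sm_fM (w : ℝ) : sm (Op w) (fM d a P Q) = fM d (a + w) P Q := by
  rw [fM, sm_mO, add_assoc, fM]

theorem fT_apply (i : Fin 3) (y : R3) :
    fT l a P i y = Op a y * (Om y ^ l * TT l i y) * P.eval (1 - Om y) := by
  rw [fT, sp_tO_apply, sp_Op_add, sp_Op_nat]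
  ring

theorem fM_apply (i : Fin 3) (y : R3) : fM d a P Q i y =
    Op a y * (Om y ^ d * pd i (Hl (d + 1)) y) * P.eval (1 - Om y) + Op a y * (Om y ^ (d + 2) *
      (‖y‖ ^ 2 * pd i (Hl (d + 1)) y - (2 * d + 3) * (y i * Hl (d + 1) y))) * Q.eval (1 - Om y) := by
  have h := md_Om_norm y
  rw [fM, sp_mO_apply, md_Op_succ, sp_Op_add, sp_Op_nat]
  simp only [eval_add, eval_mul, eval_sub, eval_one, eval_X, eval_C]
  linear_combination (-(Op a y * Om y ^ (d + 1) * pd i (Hl (d + 1)) y * Q.eval (1 - Om y))) * h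

theorem curl_fT0 : curl (fT (d + 1) a P) = fM d a (C (-((d + 2) / (2 * d + 3)) : ℝ) * oV d a P)
    (C (-((2 * d + 2) / (2 * d + 3)) : ℝ) * dP (d + 1 + a) P) := by
  rw [fT, curl_tO, fM, show ((d + 1 : ℕ) : ℝ) + a = d + a + 1 by push_cast; ring, mO_succ,
    show (d : ℝ) + a + 1 = d + 1 + a by ring]
  refine congrArg₂ (mO _ _) (Polynomial.funext fun x => ?_) (Polynomial.funext fun x => ?_)
  all_goals
    simp only [oV, eval_add, eval_mul, eval_neg, eval_sub, eval_one, eval_X, eval_C, eval_ofNat]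
    push_cast
    field_simp
  ring

theorem curl_fM0 : curl (fM d a P Q) = fT (d + 1) a (C 2 * dP (d + a) P + oV (d + 1) a Q) := by
  rw [fM, curl_mO, fT, show ((d + 1 : ℕ) : ℝ) + a = d + a + 1 by push_cast; ring]
  refine congrArg (tO _ _) (Polynomial.funext fun x => ?_)
  simp only [oV, dP, derivative_add, derivative_mul, derivative_sub, derivative_one, derivative_X,
    eval_add, eval_mul, eval_sub, eval_one, eval_X, eval_C, eval_ofNat, eval_zero]
  push_cast
  ring

/-- The matrices of the curl. -/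
def kM (a : ℝ) (d m j : ℕ) : ℝ := -((d + 2) / (2 * d + 3)) * cV a d m j

def kP (a : ℝ) (d m j : ℕ) : ℝ := -((2 * d + 2) / (2 * d + 3)) * cU a (d + 1) m j

def hM (a : ℝ) (d m j : ℕ) : ℝ := 2 * cU a d m j

theorem vX_mul (r : ℝ) (M : ℕ → ℕ → ℝ) :
    vX N c (fun m j => r * M m j) = fun j => r * vX N c M j := by
  funext j
  simp only [vX, Finset.mul_sum, mul_left_comm]

theorem curl_fT (h : Sp N c) : curl (fT (d + 1) a (gS (d + 1) N c)) =
    fM d a (gS d N (vX N c (kM a d))) (gS (d + 2) N (vX N c (kP a d))) := by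
  rw [curl_fT0, oV_gS h, ← Nat.cast_succ, dP_gS, ← gS_C, ← gS_C, ← vX_mul, ← vX_mul]
  rfl

theorem curl_fM (h : Sp N q) : curl (fM d a (gS d N p) (gS (d + 2) N q)) =
    fT (d + 1) a (gS (d + 1) N fun j => vX N p (hM a d) j + vX N q (cV a (d + 1)) j) := by
  rw [curl_fM0, oV_gS h, dP_gS, ← gS_C, ← vX_mul, ← gS_add]
  rfl

theorem Sp.kP (h : Sp N c) : Sp N (vX N c (kP a d)) :=
  h.low fun _ _ h => by rw [H.kP, cU_low _ _ h, mul_zero]

theorem ip_fT (l l' : ℕ) (a a' : ℝ) (P Q : ℝ[X]) : ip (fT l a P) (fT l' a' Q) =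
    if l = l' then nT l * Jw l (a + a' - 3) (P * Q) else 0 := by
  rw [fT, fT, ip_tO]
  split_ifs with h
  · rw [← h, Jw, show (l : ℝ) + a + (l + a') - (l + 1) = l + 2 + (a + a' - 3) by ring]
  · rfl

theorem ip_fM (d d' : ℕ) {a a' : ℝ} (P Q P' Q' : ℝ[X]) (h : 3 < d + d' + 2 * (a + a')) :
    ip (fM d a P Q) (fM d' a' P' Q') = if d = d' then 4 * π * ((d + 1) * Jw d (a + a' - 3) (P * P')
      + (d + 2) * Jw (d + 2) (a + a' - 3) (Q * Q')) else 0 := by
  rw [fM, fM, ip_mO _ _ _ _ _ _ (by push_cast; linarith)]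
  simp only [add_left_inj]
  split_ifs with e
  · subst e
    rw [Jw, Jw, show ((d + 2 : ℕ) : ℝ) + 2 + (a + a' - 3) = d + 2 + (a + a' - 3) + 1 + 1 by
      push_cast; ring, Jm_succ, Jm_succ, show (d : ℝ) + a + (d + a') - (d + 1 : ℕ) =
      d + 2 + (a + a' - 3) by push_cast; ring, Jm_lin (by linarith)
      (P := (1 + X) ^ (d + 1) * (P * P'))
      (Q := (1 - X) * ((1 - X) * ((1 + X) ^ (d + 2 + 1) * (Q * Q'))))
      (c := (d + 1) * (2 * d + 3)) (c' := (d + 2) * (2 * d + 3)) fun x => ?_]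
    · push_cast
      field_simp
      ring
    · simp only [eval_add, eval_mul, eval_sub, eval_one, eval_X, eval_C, eval_pow]
      push_cast
      ring
  · rfl

theorem ip_fT_fM (l d : ℕ) (a a' : ℝ) (P Q Q' : ℝ[X]) : ip (fT l a P) (fM d a' Q Q') = 0 :=
  ip_tor_mer _ _ _ _ _

theorem ip_fM_fT (l d : ℕ) (a a' : ℝ) (P Q Q' : ℝ[X]) : ip (fM d a' Q Q') (fT l a P) = 0 :=
  ip_mer_tor _ _ _ _ _

/-! ### Harmonics -/

theorem hf_sep {Z : Sc} (h : Harm d Z) (m : ℕ) :
    HF (d + m) fun y => Om y ^ d * Z y * (gf d m).eval (1 - Om y) := by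
  refine HF.of_eig ((sp_polyF_mul (sp_polyF_hom h.toHom) (sp_polyF_eval _)).mono
    (Nat.add_le_add_left (gf_deg d m) d)) fun y => ?_
  have ho := gf_ode d m (1 - Om y)
  have e : (fun y => Om y ^ d * Z y * (gf d m).eval (1 - Om y)) =
      fun y => rad (omF d (gf d m)) y * Z y := by
    funext y
    rw [rad_omF, sp_Op_nat]
    ring
  rw [e, md_DD h, sp_Op_nat]
  simp only [dP, derivative_mul, derivative_sub, derivative_C, derivative_one, derivative_X,
    eval_add, eval_sub, eval_mul, eval_C, eval_X, eval_one, eval_zero]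
  have h0 := (Dyn.Om_pos y).ne'
  push_cast
  field_simp
  linear_combination (-(4 * Om y * Z y)) * ho

theorem harm_up (h : Harm (d + 1) Z) (i : Fin 3) :
    Harm (d + 2) fun y => ‖y‖ ^ 2 * pd i Z y - (2 * d + 3) * (y i * Z y) := by
  have h1 := h.pd i
  have h2 := (hom_normsq.mul h1.toHom)
  have h3 := ((hom_coord i).mul h.toHom).cmul (2 * d + 3)
  rw [add_comm] at h2
  rw [add_comm 1] at h3
  refine ⟨h2.sub h3, fun y => ?_⟩
  have e := ResHl_lap_lin h2.smooth ((hom_coord i).mul h.toHom).smooth 1 (2 * d + 3) 1 y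
  have eu := h1.toHom.euler y
  simp only [one_mul, div_one] at e
  rw [e, ResHl_lap_mul hom_normsq.smooth h1.smooth, ResHom_lap_coord h.smooth, h.harm, h1.harm,
    ResHl_lap_normsq]
  simp only [ResHl_pd_normsq, yd, Fin.sum_univ_three] at eu ⊢
  linear_combination 4 * eu

end

end Pool.Agent.Work.MP_6bf1e5_an.H
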