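import Pool.Agent.Work.MP_6bf1e5_an.H.SkRing

/-! Radial integrals of the profiles `Om ^ e * P (1 - Om)` (owner helper84). -/

open scoped ContDiff ENNReal FourierTransform Real
open Set MeasureTheory Polynomial Filter

namespace Pool.Agent.Work.MP_6bf1e5_an.H

noncomputable section

/-- The radial integral of `Om ^ e * P (1 - Om)`. -/
def Jm (e : ℝ) (P : ℝ[X]) : ℝ := ∫ r in Ioi (0 : ℝ), omF e P (r ^ 2)

variable {e a : ℝ} {P Q R : ℝ[X]} {l l' d : ℕ}

theorem rj_lt (r : ℝ) : -1 < r ^ 2 := by nlinarith [sq_nonneg r]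

theorem rj_bdd (P : ℝ[X]) : ∃ C, 0 ≤ C ∧ ∀ r : ℝ, |P.eval (1 - 2 / (1 + r ^ 2))| ≤ C := by
  obtain ⟨C, h0, hC⟩ := sp_eval_bdd P
  refine ⟨C, h0, fun r => ?_⟩
  have := hC (EuclideanSpace.single 0 r)
  simpa [Om] using this

theorem rj_pow (e r : ℝ) : (2 / (1 + r ^ 2)) ^ e = 2 ^ e * (1 + r ^ 2) ^ (-e) := by
  have h : 0 < 1 + r ^ 2 := by positivity
  rw [Real.div_rpow (by norm_num) h.le, Real.rpow_neg h.le, div_eq_mul_inv]

theorem rj_cont (e : ℝ) (P : ℝ[X]) : Continuous fun r : ℝ => omF e P (r ^ 2) :=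
  continuous_iff_continuousAt.2 fun r =>
    ContinuousAt.comp (f := fun r : ℝ => r ^ 2) (sp_has_omF (rj_lt r)).continuousAt (by fun_prop)

theorem Jm_int (he : 1 / 2 < e) (P : ℝ[X]) :
    IntegrableOn (fun r : ℝ => omF e P (r ^ 2)) (Ioi 0) := by
  obtain ⟨C, -, hC⟩ := rj_bdd P
  have h := (int_beta (a := 1) (q := 0) (b := e) one_pos (by norm_num) (by linarith)).1
  refine Integrable.mono' (h.const_mul (2 ^ e * C)) (rj_cont e P).aestronglyMeasurable
    (Eventually.of_forall fun r => ?_)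
  have h1 : 0 < 1 + r ^ 2 := by positivity
  rw [Real.norm_eq_abs, omF, rj_pow, abs_mul, abs_of_nonneg (by positivity), Real.rpow_zero,
    one_mul, one_mul, mul_right_comm, mul_assoc, mul_assoc]
  gcongr
  exact hC r

theorem Jm_congr (h : ∀ x, P.eval x = Q.eval x) : Jm e P = Jm e Q := by
  rw [Polynomial.funext h]

theorem Jm_add (he : 1 / 2 < e) (P Q : ℝ[X]) : Jm e (P + Q) = Jm e P + Jm e Q := by
  simp only [Jm, sp_omF_add]
  exact integral_add (Jm_int he P) (Jm_int he Q)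

theorem Jm_C (c : ℝ) (P : ℝ[X]) : Jm e (C c * P) = c * Jm e P := by
  simp only [Jm, sp_omF_C]
  exact integral_const_mul _ _

theorem Jm_zero : Jm e 0 = 0 := by simpa using Jm_C (e := e) 0 0

theorem Jm_sum (he : 1 / 2 < e) {ι : Type} (s : Finset ι) (P : ι → ℝ[X]) :
    Jm e (∑ i ∈ s, P i) = ∑ i ∈ s, Jm e (P i) := by
  classical
  induction s using Finset.induction_on with
  | empty => simpa using Jm_zero
  | insert i s hi ih => rw [Finset.sum_insert hi, Finset.sum_insert hi, Jm_add he, ih]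

theorem Jm_succ (e : ℝ) (P : ℝ[X]) : Jm (e + 1) P = Jm e ((1 - X) * P) := by
  simp only [Jm, sp_omF_succ (rj_lt _)]

/-- Two terms. -/
theorem Jm_lin (he : 1 / 2 < e) {c c' : ℝ} (h : ∀ x, R.eval x = c * P.eval x + c' * Q.eval x) :
    Jm e R = c * Jm e P + c' * Jm e Q := by
  rw [← Jm_C, ← Jm_C, ← Jm_add he]
  exact Jm_congr fun x => by simp [h]

theorem Jm_one (he : 1 / 2 < e) :
    Jm e 1 = 2 ^ (e - 1) * (Real.Gamma (1 / 2) * Real.Gamma (e - 1 / 2) / Real.Gamma e) := by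
  have h := (int_beta (a := 1) (q := 0) (b := e) one_pos (by norm_num) (by linarith)).2
  simp only [Real.rpow_zero, one_mul, Real.one_rpow, zero_add, mul_one] at h
  simp only [Jm, omF, eval_one, mul_one, rj_pow]
  rw [integral_const_mul, h, Real.rpow_sub_one (by norm_num)]
  ring

/-- Integration by parts. -/
theorem Jm_ibp (he : 1 / 2 < e) (P : ℝ[X]) :
    Jm e ((C (1 - e) - C e * X) * P + (1 - X ^ 2) * derivative P) = 0 := by
  have hd : ∀ r ∈ Ioi (0 : ℝ), HasDerivAt (fun r : ℝ => r * omF e P (r ^ 2))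
      (omF e ((C (1 - e) - C e * X) * P + (1 - X ^ 2) * derivative P) (r ^ 2)) r := fun r _ => by
    have h1 := HasDerivAt.comp (h₂ := omF e P) (h := fun r : ℝ => r ^ 2) r
      (sp_has_omF (rj_lt r)) (hasDerivAt_pow 2 r)
    refine ((hasDerivAt_id' r).fun_mul h1).congr_deriv ?_
    have h2 := sp_mul_omF (e := e) (P := dP e P) (rj_lt r)
    have h3 : omF e ((C (1 - e) - C e * X) * P + (1 - X ^ 2) * derivative P) (r ^ 2) =
        omF e P (r ^ 2) + 2 * omF e ((1 + X) * dP e P) (r ^ 2) := by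
      simp only [omF, dP, eval_add, eval_mul, eval_sub, eval_C, eval_X, eval_one, eval_pow]
      ring
    rw [h3, ← h2]
    simp only [Function.comp_apply]
    ring
  obtain ⟨K, hK0, hK⟩ := rj_bdd P
  have ht : Tendsto (fun r : ℝ => r * omF e P (r ^ 2)) atTop (nhds 0) := by
    have h1 := (tendsto_rpow_neg_atTop (y := 2 * e - 1) (by linarith)).const_mul (2 ^ e * K)
    rw [mul_zero] at h1
    refine squeeze_zero_norm' ?_ h1
    filter_upwards [eventually_gt_atTop (0 : ℝ)] with r hr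
    have h2 : (1 + r ^ 2) ^ (-e) ≤ r ^ (-(2 * e)) := by
      rw [show -(2 * e) = ((2 : ℕ) : ℝ) * -e by push_cast; ring, Real.rpow_natCast_mul hr.le]
      exact Real.rpow_le_rpow_of_nonpos (by positivity) (by linarith) (by linarith)
    rw [Real.norm_eq_abs, abs_mul, abs_of_pos hr, omF, rj_pow, abs_mul,
      abs_of_nonneg (by positivity), show -(2 * e - 1) = -(2 * e) + 1 by ring,
      Real.rpow_add_one hr.ne']
    calc r * (2 ^ e * (1 + r ^ 2) ^ (-e) * |eval (1 - 2 / (1 + r ^ 2)) P|)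
        ≤ r * (2 ^ e * r ^ (-(2 * e)) * K) := by
          gcongr
          exact hK r
      _ = _ := by ring
  have := integral_Ioi_of_hasDerivAt_of_tendsto
    (continuous_id.mul (rj_cont e P)).continuousWithinAt hd (Jm_int he _) ht
  simpa [Jm] using this

theorem rj_mul (e e' : ℝ) (P Q : ℝ[X]) {z : ℝ} (hz : -1 < z) :
    omF e P z * omF e' Q z = omF (e + e') (P * Q) z := by
  have h0 : 0 < 1 + z := by linarith
  simp only [omF, eval_mul]
  rw [Real.rpow_add (by positivity)]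
  ring

theorem rj_pow_mul (k : ℕ) (e : ℝ) (P : ℝ[X]) {z : ℝ} (hz : -1 < z) :
    z ^ k * omF (e + k) P z = omF e ((1 + X) ^ k * P) z := by
  induction k generalizing P with
  | zero => simp
  | succ k ih =>
    rw [pow_succ, mul_assoc, Nat.cast_succ, ← add_assoc, sp_mul_omF hz, ih, pow_succ, mul_assoc]

/-- The product of two toroidal fields. -/
theorem ip_tO (l l' : ℕ) (e e' : ℝ) (P Q : ℝ[X]) : ip (tO l e P) (tO l' e' Q) =
    if l = l' then nT l * Jm (e + e' - (l + 1)) ((1 + X) ^ (l + 1) * (P * Q)) else 0 := by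
  rw [tO, tO, ip_tor]
  congr 2
  refine setIntegral_congr_fun measurableSet_Ioi fun r _ => ?_
  rw [rj_mul _ _ _ _ (rj_lt r), ← rj_pow_mul _ _ _ (rj_lt r), ← pow_mul]
  congr 2
  push_cast
  ring

/-- The product of two meridional fields. -/
theorem ip_mO (l l' : ℕ) {e e' : ℝ} (P Q P' Q' : ℝ[X]) (h : l + l' + 1 < 2 * (e + e')) :
    ip (mO l e P Q) (mO l' e' P' Q') = if l = l' then 4 * π / (2 * l + 1) * Jm (e + e' - l)
      ((1 + X) ^ l * (C (l * (l + 1) : ℝ) * (P * P')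
        + (C (l : ℝ) * P + (1 + X) * Q) * (C (l : ℝ) * P' + (1 + X) * Q'))) else 0 := by
  rw [mO, mO, ip_mer l l' (m := -(2 * e)) (m' := -(2 * e')) sym_omF.bd
    (sym_omF.bd.of_eq (by ring)) sym_omF.bd (sym_omF.bd.of_eq (by ring)) (by linarith)]
  congr 2
  refine setIntegral_congr_fun measurableSet_Ioi fun r _ => ?_
  have hz := rj_lt r
  rw [sp_mul_omF hz, sp_mul_omF hz, ← sp_omF_C (l : ℝ), ← sp_omF_C (l : ℝ), ← sp_omF_add,
    ← sp_omF_add, rj_mul _ _ _ _ hz, rj_mul _ _ _ _ hz, ← sp_omF_C, ← sp_omF_add,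
    ← rj_pow_mul _ _ _ hz, ← pow_mul, sub_add_cancel]

theorem ip_tor_mer (l l' : ℕ) (f α β : ℝ → ℝ) : ip (tor l f) (mer l' α β) = 0 := by
  simp [ip, dot_tor_mer]

theorem rj_ip_comm (U V : Vc) : ip U V = ip V U := by
  simp only [ip, dot, mul_comm]

theorem ip_mer_tor (l l' : ℕ) (f α β : ℝ → ℝ) : ip (mer l' α β) (tor l f) = 0 := by
  rw [rj_ip_comm, ip_tor_mer]

/-! ### The weight of the harmonics with a solid part of degree `d` -/

/-- `∫ r ^ (2 d + 2) * Om ^ (2 d + 3 + a) * P (1 - Om)`. -/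
def Jw (d : ℕ) (a : ℝ) (P : ℝ[X]) : ℝ := Jm (d + 2 + a) ((1 + X) ^ (d + 1) * P)

theorem Jw_congr (h : ∀ x, P.eval x = Q.eval x) : Jw d a P = Jw d a Q := by
  rw [Polynomial.funext h]

theorem Jw_lin (ha : -(d + 3 / 2) < a) {c c' : ℝ}
    (h : ∀ x, R.eval x = c * P.eval x + c' * Q.eval x) :
    Jw d a R = c * Jw d a P + c' * Jw d a Q :=
  Jm_lin (by linarith) fun x => by
    simp only [eval_mul, h]
    ring

theorem Jw_C (c : ℝ) (P : ℝ[X]) : Jw d a (C c * P) = c * Jw d a P := by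
  rw [Jw, mul_left_comm, Jm_C, Jw]

theorem Jw_sum (ha : -(d + 3 / 2) < a) {ι : Type} (s : Finset ι) (P : ι → ℝ[X]) :
    Jw d a (∑ i ∈ s, P i) = ∑ i ∈ s, Jw d a (P i) := by
  rw [Jw, Finset.mul_sum, Jm_sum (by linarith)]
  rfl

theorem Jw_succ (d : ℕ) (a : ℝ) (P : ℝ[X]) : Jw d (a + 1) P = Jw d a ((1 - X) * P) := by
  rw [Jw, ← add_assoc, Jm_succ, Jw, mul_left_comm]

theorem Jw_ibp (ha : -(d + 3 / 2) < a) (R : ℝ[X]) : Jw d a
    ((1 - X ^ 2) * derivative R - C (2 * d + 3 : ℝ) * X * R - C a * (1 + X) * R) = 0 := by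
  rw [← Jm_ibp (e := d + 2 + a) (by linarith) ((1 + X) ^ (d + 1) * R)]
  refine Jm_congr fun x => ?_
  simp only [derivative_mul, derivative_pow_succ, derivative_add, derivative_one, derivative_X,
    eval_add, eval_mul, eval_sub, eval_C, eval_X, eval_one, eval_pow, eval_zero]
  ring

theorem Jw_one (ha : -(d + 3 / 2) < a) : Jw d a 1 = 2 ^ (2 * d + 2 + a) *
    (Real.Gamma (d + 3 / 2) * Real.Gamma (d + 3 / 2 + a) / Real.Gamma (2 * d + 3 + a)) := by
  have h := (int_beta (a := 1) (q := 2 * d + 2) (b := 2 * d + 3 + a) one_pos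
    (by linarith [Nat.cast_nonneg (α := ℝ) d]) (by linarith)).2
  rw [Real.one_rpow, mul_one, show (2 * d + 2 + 1 : ℝ) / 2 = d + 3 / 2 by ring,
    show (2 * d + 3 + a - (d + 3 / 2) : ℝ) = d + 3 / 2 + a by ring] at h
  have e1 : Jw d a 1 = 2 ^ (2 * d + 3 + a) *
      ∫ r in Ioi (0 : ℝ), r ^ (2 * d + 2 : ℝ) * (1 + 1 * r ^ 2) ^ (-(2 * d + 3 + a)) := by
    rw [← integral_const_mul]
    refine setIntegral_congr_fun measurableSet_Ioi fun r _ => ?_
    rw [← rj_pow_mul _ _ _ (rj_lt r), ← pow_mul, omF, rj_pow, eval_one,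
      show (2 * d + 2 : ℝ) = ((2 * (d + 1) : ℕ) : ℝ) by push_cast; ring, Real.rpow_natCast,
      show (d : ℝ) + 2 + a + ((d + 1 : ℕ) : ℝ) = 2 * d + 3 + a by push_cast; ring]
    ring
  rw [e1, h, show (2 * d + 3 + a : ℝ) = 2 * d + 2 + a + 1 by ring, Real.rpow_add_one (by norm_num)]
  ring

/-- The moments of the Gegenbauer polynomials against a power of `Om`. -/
theorem Jw_geg (ha : -(d + 3 / 2) < a) (m : ℕ) :
    (m + 1) * (m + 2 * d + 3 + a) * Jw d a (geg (2 * d + 2) (m + 1)) =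
      (m - a) * (m + 2 * d + 2) * Jw d a (geg (2 * d + 2) m) := by
  have h := Jw_ibp ha (derivative (geg (2 * d + 2) (m + 1)) - derivative (geg (2 * d + 2) m))
  rw [Jw_lin ha (P := geg (2 * d + 2) (m + 1)) (Q := geg (2 * d + 2) m)
    (c := -((m + 1) * (m + 2 * d + 3 + a))) (c' := (m - a) * (m + 2 * d + 2)) fun x => ?_] at h
  · linarith
  have o1 := congrArg (eval x) (geg_ode (2 * d + 2) (m + 1))
  have o2 := congrArg (eval x) (geg_ode (2 * d + 2) m)
  have o3 := congrArg (eval x) (sp_geg_der (2 * d + 2) m).1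
  have o4 := congrArg (eval x) (sp_geg_der (2 * d + 2) m).2
  simp only [derivative_sub, eval_add, eval_mul, eval_sub, eval_C, eval_X, eval_one, eval_pow,
    eval_zero, eval_natCast] at o1 o2 o3 o4 ⊢
  push_cast at o1 o2 o3 o4 ⊢
  linear_combination o1 - o2 - a * o3 - a * o4

end

end Pool.Agent.Work.MP_6bf1e5_an.H
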