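import Pool.Agent.Work.MP_6bf1e5_an.H.ResRad

/-! Axisymmetric fields in terms of scalars. -/

open scoped ContDiff ENNReal FourierTransform Real
open Set MeasureTheory

namespace Pool.Agent.Work.MP_6bf1e5_an.H

/-- The horizontal Euler operator. -/
noncomputable def rd (f : Sc) : Sc := fun y => y 0 * pd 0 f y + y 1 * pd 1 f y

/-- Smooth axisymmetric scalars. -/
structure Axi (f : Sc) : Prop where
  smooth : ContDiff ℝ ∞ f
  axi : ∀ y, y 0 * pd 1 f y = y 1 * pd 0 f y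

variable {ψ b w : Sc}

/-- The scalar of a sum of toroidal fields. -/
noncomputable def TS (a : ℝ) (L : Finset ℕ) (f : ℕ → ℝ → ℝ) : Sc :=
  fun y => ∑ l ∈ L, f l (tau a y) * bl l y

section Rules

variable {f g : Sc}

theorem ResAxi_add (hf : ContDiff ℝ ∞ f) (hg : ContDiff ℝ ∞ g) (j : Fin 3) :
    pd j (fun y => f y + g y) = fun y => pd j f y + pd j g y := funext (ResHl_pd_add hf hg j)

theorem ResAxi_sub (hf : ContDiff ℝ ∞ f) (hg : ContDiff ℝ ∞ g) (j : Fin 3) :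
    pd j (fun y => f y - g y) = fun y => pd j f y - pd j g y := funext (ResHl_pd_sub hf hg j)

theorem ResAxi_mul (hf : ContDiff ℝ ∞ f) (hg : ContDiff ℝ ∞ g) (j : Fin 3) :
    pd j (fun y => f y * g y) = fun y => pd j f y * g y + f y * pd j g y :=
  funext (ResHl_pd_mul hf hg j)

theorem ResAxi_const (c : ℝ) (j : Fin 3) : pd j (fun _ => c) = fun _ => 0 :=
  funext (ResHl_pd_const c j)

theorem ResAxi_coord (i j : Fin 3) : pd j (fun y => y i) = fun _ => if i = j then 1 else 0 :=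
  funext (ResHl_pd_coord i j)

theorem ResAxi_neg (f : Sc) (j : Fin 3) : pd j (fun y => -f y) = fun y => -pd j f y := by
  funext y
  rw [pd, fderiv_fun_neg]
  rfl

theorem ResAxi_cmul (hf : ContDiff ℝ ∞ f) (c : ℝ) (j : Fin 3) :
    pd j (fun y => c * f y) = fun y => c * pd j f y := by
  simp only [ResAxi_mul contDiff_const hf, ResAxi_const, zero_mul, zero_add]

/-- The product rule for a coordinate factor. -/
theorem ResAxi_xmul (hf : ContDiff ℝ ∞ f) (i j : Fin 3) (y : R3) :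
    pd j (fun y => y i * f y) y = (if i = j then 1 else 0) * f y + y i * pd j f y := by
  rw [ResHl_pd_mul (ResHl_sm_coord i) hf, ResHl_pd_coord]

theorem ResAxi_sum {ι : Type} (t : Finset ι) {F : ι → Sc} (hF : ∀ i ∈ t, ContDiff ℝ ∞ (F i))
    (j : Fin 3) : pd j (fun y => ∑ i ∈ t, F i y) = fun y => ∑ i ∈ t, pd j (F i) y := by
  funext y
  rw [pd, fderiv_fun_sum fun i hi => ResHl_diff (hF i hi) y, _root_.sum_apply]
  rfl

theorem ResAxi_lap_sum {ι : Type} (t : Finset ι) {F : ι → Sc}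
    (hF : ∀ i ∈ t, ContDiff ℝ ∞ (F i)) (y : R3) :
    lap (fun y => ∑ i ∈ t, F i y) y = ∑ i ∈ t, lap (F i) y := by
  unfold lap
  rw [Finset.sum_comm]
  refine Finset.sum_congr rfl fun j _ => ?_
  rw [ResAxi_sum t hF, ResAxi_sum t fun i hi => ResHl_sm_pd (hF i hi) j]

theorem ResAxi_lap_cmul (hf : ContDiff ℝ ∞ f) (c : ℝ) (y : R3) :
    lap (fun y => c * f y) y = c * lap f y := by
  unfold lap
  rw [Finset.mul_sum]
  refine Finset.sum_congr rfl fun j _ => ?_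
  rw [ResAxi_cmul hf, ResAxi_cmul (ResHl_sm_pd hf j)]

theorem ResAxi_rd_smooth (hf : ContDiff ℝ ∞ f) : ContDiff ℝ ∞ (rd f) :=
  ((ResHl_sm_coord 0).mul (ResHl_sm_pd hf 0)).add ((ResHl_sm_coord 1).mul (ResHl_sm_pd hf 1))

theorem ResAxi_pd_rd (hf : ContDiff ℝ ∞ f) (j : Fin 3) (y : R3) :
    pd j (rd f) y = (if 0 = j then 1 else 0) * pd 0 f y + y 0 * pd j (pd 0 f) y +
      ((if 1 = j then 1 else 0) * pd 1 f y + y 1 * pd j (pd 1 f) y) := by
  unfold rd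
  rw [ResHl_pd_add ((ResHl_sm_coord 0).mul (ResHl_sm_pd hf 0))
    ((ResHl_sm_coord 1).mul (ResHl_sm_pd hf 1)), ResAxi_xmul (ResHl_sm_pd hf 0),
    ResAxi_xmul (ResHl_sm_pd hf 1)]

theorem ResAxi_pd_two_rd (hf : ContDiff ℝ ∞ f) (y : R3) : pd 2 (rd f) y = rd (pd 2 f) y := by
  rw [ResAxi_pd_rd hf, ResHl_pd_comm hf 2 0, ResHl_pd_comm hf 2 1]
  simp [rd]

theorem ResAxi_yd_eq (f : Sc) : yd f = fun y => rd f y + y 2 * pd 2 f y := by
  funext y
  simp only [yd, rd, Fin.sum_univ_three]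

theorem ResAxi_yd_smooth (hf : ContDiff ℝ ∞ f) : ContDiff ℝ ∞ (yd f) := by
  rw [ResAxi_yd_eq]
  exact (ResAxi_rd_smooth hf).add ((ResHl_sm_coord 2).mul (ResHl_sm_pd hf 2))

theorem ResAxi_rd_add (hf : ContDiff ℝ ∞ f) (hg : ContDiff ℝ ∞ g) (y : R3) :
    rd (fun y => f y + g y) y = rd f y + rd g y := by
  simp only [rd, ResAxi_add hf hg]
  ring

theorem ResAxi_rd_sub (hf : ContDiff ℝ ∞ f) (hg : ContDiff ℝ ∞ g) (y : R3) :
    rd (fun y => f y - g y) y = rd f y - rd g y := by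
  simp only [rd, ResAxi_sub hf hg]
  ring

theorem ResAxi_rd_mul (hf : ContDiff ℝ ∞ f) (hg : ContDiff ℝ ∞ g) (y : R3) :
    rd (fun y => f y * g y) y = rd f y * g y + f y * rd g y := by
  simp only [rd, ResAxi_mul hf hg]
  ring

theorem ResAxi_rd_cmul (hf : ContDiff ℝ ∞ f) (c : ℝ) (y : R3) :
    rd (fun y => c * f y) y = c * rd f y := by
  simp only [rd, ResAxi_cmul hf]
  ring

theorem ResAxi_rd_neg (f : Sc) (y : R3) : rd (fun y => -f y) y = -rd f y := by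
  simp only [rd, ResAxi_neg]
  ring

theorem ResAxi_yd_add (hf : ContDiff ℝ ∞ f) (hg : ContDiff ℝ ∞ g) (y : R3) :
    yd (fun y => f y + g y) y = yd f y + yd g y := by
  simp only [yd, ResAxi_add hf hg, Fin.sum_univ_three]
  ring

theorem ResAxi_yd_cmul (hf : ContDiff ℝ ∞ f) (c : ℝ) (y : R3) :
    yd (fun y => c * f y) y = c * yd f y := by
  simp only [yd, ResAxi_cmul hf, Fin.sum_univ_three]
  ring

theorem ResAxi_yd_neg (f : Sc) (y : R3) : yd (fun y => -f y) y = -yd f y := by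
  simp only [yd, ResAxi_neg, Fin.sum_univ_three]
  ring

theorem ResAxi_yd_xmul (hf : ContDiff ℝ ∞ f) (i : Fin 3) (y : R3) :
    yd (fun y => y i * f y) y = y i * (f y + yd f y) := by
  simp only [yd, ResAxi_xmul hf, Fin.sum_univ_three]
  fin_cases i <;> simp <;> ring

theorem ResAxi_pd_two_yd (hf : ContDiff ℝ ∞ f) (y : R3) :
    pd 2 (yd f) y = pd 2 f y + yd (pd 2 f) y := by
  rw [ResAxi_yd_eq f, ResAxi_yd_eq (pd 2 f), ResHl_pd_add (ResAxi_rd_smooth hf)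
    ((ResHl_sm_coord 2).mul (ResHl_sm_pd hf 2)), ResAxi_xmul (ResHl_sm_pd hf 2),
    ResAxi_pd_two_rd hf]
  simp only [if_true]
  ring

theorem ResAxi_rd_yd (hf : ContDiff ℝ ∞ f) (y : R3) : rd (yd f) y = yd (rd f) y := by
  rw [ResAxi_yd_eq f, ResAxi_yd_eq (rd f), ResAxi_rd_add (ResAxi_rd_smooth hf)
    ((ResHl_sm_coord 2).mul (ResHl_sm_pd hf 2)), ResAxi_rd_mul (ResHl_sm_coord 2)
    (ResHl_sm_pd hf 2)]
  simp only [ResAxi_pd_two_rd hf]
  simp [rd, ResAxi_coord]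

/-- The third component of `curl (f Jv)`. -/
noncomputable def ResAxi_q (f : Sc) : Sc := fun y => -(2 * f y + rd f y)

theorem ResAxi_q_smooth (hf : ContDiff ℝ ∞ f) : ContDiff ℝ ∞ (ResAxi_q f) :=
  ((contDiff_const.mul hf).add (ResAxi_rd_smooth hf)).neg

theorem ResAxi_rd_q (hf : ContDiff ℝ ∞ f) (y : R3) :
    rd (ResAxi_q f) y = -(2 * rd f y + rd (rd f) y) := by
  unfold ResAxi_q
  rw [ResAxi_rd_neg, ResAxi_rd_add (contDiff_const.mul hf) (ResAxi_rd_smooth hf),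
    ResAxi_rd_cmul hf]

theorem ResAxi_pd_q (hf : ContDiff ℝ ∞ f) (y : R3) :
    pd 2 (ResAxi_q f) y = -(2 * pd 2 f y + rd (pd 2 f) y) := by
  unfold ResAxi_q
  rw [ResAxi_neg, ResAxi_add (contDiff_const.mul hf) (ResAxi_rd_smooth hf), ResAxi_cmul hf]
  simp only [ResAxi_pd_two_rd hf]

/-- Meridional fields. -/
def ResAxi_M (p q : Sc) : Vc := fun i y => ![y 0 * p y, y 1 * p y, q y] i

theorem ResAxi_M_smooth (hf : ContDiff ℝ ∞ f) (hg : ContDiff ℝ ∞ g) (i : Fin 3) :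
    ContDiff ℝ ∞ (ResAxi_M f g i) := by
  fin_cases i
  · exact (ResHl_sm_coord 0).mul hf
  · exact (ResHl_sm_coord 1).mul hf
  · exact hg

theorem ResAxi_J_smooth (hf : ContDiff ℝ ∞ f) (i : Fin 3) : ContDiff ℝ ∞ (sm f Jv i) := by
  fin_cases i
  · exact hf.mul (ResHl_sm_coord 1)
  · exact hf.mul (ResHl_sm_coord 0).neg
  · exact hf.mul contDiff_const

theorem ResAxi_curl_M (hf : ContDiff ℝ ∞ f) (g : Sc) (i : Fin 3) (y : R3) :
    curl (ResAxi_M f g) i y = ![pd 1 g y - y 1 * pd 2 f y, y 0 * pd 2 f y - pd 0 g y,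
      y 1 * pd 0 f y - y 0 * pd 1 f y] i := by
  fin_cases i
  · change pd 1 g y - pd 2 (fun y => y 1 * f y) y = _
    rw [ResAxi_xmul hf]
    simp
  · change pd 2 (fun y => y 0 * f y) y - pd 0 g y = _
    rw [ResAxi_xmul hf]
    simp
  · change pd 0 (fun y => y 1 * f y) y - pd 1 (fun y => y 0 * f y) y = _
    rw [ResAxi_xmul hf, ResAxi_xmul hf]
    simp

theorem ResAxi_curl_add {U V : Vc} (hU : ∀ i, ContDiff ℝ ∞ (U i)) (hV : ∀ i, ContDiff ℝ ∞ (V i)) :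
    curl (U + V) = curl U + curl V := by
  funext i y
  have e : ∀ k j, pd j (U k + V k) = _ := fun k j => ResAxi_add (hU k) (hV k) j
  simp only [curl, e, Pi.add_apply]
  ring

end Rules

theorem TF_eq_sm (a : ℝ) (L : Finset ℕ) (f : ℕ → ℝ → ℝ) : TF a L f = sm (TS a L f) Jv := by
  funext i y
  simp only [TF, sm, TS, TT_eq, Finset.sum_mul, mul_assoc]

theorem Axi.add (h : Axi ψ) (h' : Axi b) : Axi fun y => ψ y + b y :=
  ⟨h.smooth.add h'.smooth, fun y => by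
    simp only [ResAxi_add h.smooth h'.smooth]
    linear_combination h.axi y + h'.axi y⟩
theorem Axi.sub (h : Axi ψ) (h' : Axi b) : Axi fun y => ψ y - b y :=
  ⟨h.smooth.sub h'.smooth, fun y => by
    simp only [ResAxi_sub h.smooth h'.smooth]
    linear_combination h.axi y - h'.axi y⟩
theorem Axi.mul (h : Axi ψ) (h' : Axi b) : Axi fun y => ψ y * b y :=
  ⟨h.smooth.mul h'.smooth, fun y => by
    simp only [ResAxi_mul h.smooth h'.smooth]
    linear_combination b y * h.axi y + ψ y * h'.axi y⟩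
theorem Axi.cmul (h : Axi ψ) (c : ℝ) : Axi fun y => c * ψ y :=
  ⟨contDiff_const.mul h.smooth, fun y => by
    simp only [ResAxi_cmul h.smooth]
    linear_combination c * h.axi y⟩

theorem ResAxi_axi_const (c : ℝ) : Axi fun _ => c :=
  ⟨contDiff_const, fun y => by simp [ResAxi_const]⟩

theorem ResAxi_axi_two : Axi fun y => y 2 :=
  ⟨ResHl_sm_coord 2, fun y => by simp [ResAxi_coord]⟩

theorem ResAxi_axi_normsq : Axi fun y => ‖y‖ ^ 2 :=
  ⟨contDiff_norm_sq ℝ, fun y => by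
    rw [ResHl_pd_normsq, ResHl_pd_normsq]
    ring⟩

theorem ResAxi_axi_lin (h : Axi ψ) (h' : Axi b) (a c d : ℝ) :
    Axi fun y => (a * ψ y - c * b y) / d := by
  have e : (fun y => (a * ψ y - c * b y) / d) = fun y => d⁻¹ * (a * ψ y - c * b y) := by
    funext y
    ring
  rw [e]
  exact ((h.cmul a).sub (h'.cmul c)).cmul _

theorem ResAxi_axi_sum {ι : Type} (t : Finset ι) {F : ι → Sc} (hF : ∀ i ∈ t, Axi (F i)) :
    Axi fun y => ∑ i ∈ t, F i y :=
  ⟨ContDiff.sum fun i hi => (hF i hi).smooth, fun y => by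
    simp only [ResAxi_sum t fun i hi => (hF i hi).smooth, Finset.mul_sum]
    exact Finset.sum_congr rfl fun i hi => (hF i hi).axi y⟩

theorem ResAxi_axi_Hl (l : ℕ) : Axi (Hl l) := by
  induction l using Nat.twoStepInduction with
  | zero => exact ResAxi_axi_const 1
  | one => exact ResAxi_axi_two
  | more n h1 h2 =>
    rw [ResHl_Hl_succ]
    exact ResAxi_axi_lin (ResAxi_axi_two.mul h2) (ResAxi_axi_normsq.mul h1) _ _ _

/-- The derivative of the symmetry relation. -/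
theorem ResAxi_daxi (h : Axi ψ) (j : Fin 3) (y : R3) :
    (if 0 = j then 1 else 0) * pd 1 ψ y + y 0 * pd j (pd 1 ψ) y =
      (if 1 = j then 1 else 0) * pd 0 ψ y + y 1 * pd j (pd 0 ψ) y := by
  rw [← ResAxi_xmul (ResHl_sm_pd h.smooth 1), ← ResAxi_xmul (ResHl_sm_pd h.smooth 0),
    funext h.axi]

theorem axi_bl (l : ℕ) : Axi (bl l) := by
  induction l using Nat.twoStepInduction with
  | zero => exact ResAxi_axi_const 0
  | one => exact ResAxi_axi_const 1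
  | more n h1 h2 =>
    rw [ResHl_bl_succ]
    exact ResAxi_axi_lin ((ResAxi_axi_two.mul h2).add (ResAxi_axi_Hl _))
      (ResAxi_axi_normsq.mul h1) _ _ _
theorem axi_Hl (l : ℕ) : Axi (Hl l) := ResAxi_axi_Hl l
theorem axi_radial {g : ℝ → ℝ} (h : ContDiff ℝ ∞ fun y : R3 => g (‖y‖ ^ 2))
    (hg : DifferentiableOn ℝ g (Ioi 0)) : Axi fun y => g (‖y‖ ^ 2) := by
  refine ⟨h, fun y => ?_⟩
  by_cases hy : y = 0
  · simp [hy]
  · have h0 : 0 < ‖y‖ ^ 2 := pow_pos (norm_pos_iff.2 hy) 2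
    have h1 := (hg.differentiableAt (Ioi_mem_nhds h0)).hasDerivAt.comp_hasFDerivAt y
      (ResHl_diff (contDiff_norm_sq ℝ) y).hasFDerivAt
    have h2 : ∀ j, pd j (fun y : R3 => g (‖y‖ ^ 2)) y = deriv g (‖y‖ ^ 2) * (2 * y j) := by
      intro j
      rw [← ResHl_pd_normsq, pd, show fderiv ℝ (fun y : R3 => g (‖y‖ ^ 2)) y = _ from h1.fderiv]
      rfl
    rw [h2, h2]
    ring
theorem Axi.pd_two (h : Axi ψ) : Axi (pd 2 ψ) :=
  ⟨ResHl_sm_pd h.smooth 2, fun y => by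
    have e := ResAxi_daxi h 2 y
    rw [ResHl_pd_comm h.smooth 1 2, ResHl_pd_comm h.smooth 0 2]
    simpa using e⟩
theorem Axi.rd (h : Axi ψ) : Axi (rd ψ) :=
  ⟨ResAxi_rd_smooth h.smooth, fun y => by
    have e0 := ResAxi_daxi h 0 y
    have e1 := ResAxi_daxi h 1 y
    rw [ResAxi_pd_rd h.smooth, ResAxi_pd_rd h.smooth]
    rw [ResHl_pd_comm h.smooth 1 0] at e1 ⊢
    simp only [if_true, show ((0 : Fin 3) = 1) = False by decide,
      show ((1 : Fin 3) = 0) = False by decide, if_false] at e0 e1 ⊢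
    linear_combination y 0 * e0 + y 1 * e1⟩
theorem Axi.yd (h : Axi ψ) : Axi (yd ψ) := by
  rw [ResAxi_yd_eq]
  exact h.rd.add (ResAxi_axi_two.mul h.pd_two)

theorem ResAxi_axi_q (h : Axi ψ) : Axi (ResAxi_q ψ) := by
  have e : ResAxi_q ψ = fun y => -1 * (2 * ψ y + rd ψ y) := by
    funext y
    rw [ResAxi_q, neg_one_mul]
  rw [e]
  exact ((h.cmul 2).add h.rd).cmul _

theorem axi_tau_pow {a : ℝ} (ha : 0 < a) (k : ℕ) : Axi fun y => tau a y ^ k :=
  ⟨(tau_smooth ha).pow k, fun y => by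
    rw [pd_tau_pow ha, pd_tau_pow ha]
    ring⟩
theorem axi_TS {a : ℝ} (ha : 0 < a) (L : Finset ℕ) (R : ℕ → Rad) :
    Axi (TS a L fun l => (R l).f) :=
  ResAxi_axi_sum L fun l _ =>
    (ResAxi_axi_sum _ fun j _ => (axi_tau_pow ha ((R l).e + j)).cmul ((R l).c j)).mul (axi_bl l)

/-- `curl_curl_of_dvg`, `lap_tau_mul`, `TT_eq`. -/
theorem exists_curl_curl_TR {a : ℝ} (ha : 0 < a) (L : Finset ℕ) (R : ℕ → Rad) :
    ∃ w, Axi w ∧ curl (curl (TR a L R)) = sm w Jv := by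
  refine ⟨fun y => ∑ l ∈ L, ∑ j ∈ Finset.range (R l).N, (R l).c j *
    (a * ((((R l).e + j : ℕ) : ℝ) * ((((R l).e + j : ℕ) : ℝ) + 4) / 4 * tau a y ^ ((R l).e + j + 8)
      + (((R l).e + j : ℕ) : ℝ) * (4 * l + 2 - (((R l).e + j : ℕ) : ℝ)) / 4 *
        tau a y ^ ((R l).e + j + 4)) * bl l y), ?_, ?_⟩
  · exact ResAxi_axi_sum L fun l _ => ResAxi_axi_sum _ fun j _ =>
      (((((axi_tau_pow ha _).cmul _).add ((axi_tau_pow ha _).cmul _)).cmul a).mul
        (axi_bl l)).cmul _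
  · funext i y
    have hs : ∀ i, ContDiff ℝ ∞ (TR a L R i) := fun i => by
      rw [TR, TF_eq_sm]
      exact ResAxi_J_smooth (axi_TS ha L R).smooth i
    have e : TR a L R i = fun y => ∑ l ∈ L, ∑ j ∈ Finset.range (R l).N,
        (R l).c j * (tau a y ^ ((R l).e + j) * TT l i y) := by
      funext y
      simp only [TR, TF, Rad.f, Finset.sum_mul, mul_assoc]
    have s1 : ∀ l k, ContDiff ℝ ∞ fun y => tau a y ^ k * TT l i y := fun l k =>
      ((tau_smooth ha).pow k).mul (harm_TT l i).smooth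
    rw [curl_curl_of_dvg hs (dvg_TR ha L R), e, ResAxi_lap_sum L fun l _ =>
      ContDiff.sum fun j _ => contDiff_const.mul (s1 l _), sm, Finset.sum_mul,
      ← Finset.sum_neg_distrib]
    refine Finset.sum_congr rfl fun l _ => ?_
    rw [ResAxi_lap_sum _ fun j _ => contDiff_const.mul (s1 l _), Finset.sum_mul,
      ← Finset.sum_neg_distrib]
    refine Finset.sum_congr rfl fun j _ => ?_
    rw [ResAxi_lap_cmul (s1 l _), ← mul_neg, lap_tau_mul ha (harm_TT l i), TT_eq]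
    ring

theorem curl_sm_Jv (h : ContDiff ℝ ∞ ψ) (i : Fin 3) (y : R3) : curl (sm ψ Jv) i y =
    ![y 0 * pd 2 ψ y, y 1 * pd 2 ψ y, -(2 * ψ y + rd ψ y)] i := by
  have s0 := ResHl_sm_coord 0
  have s1 := ResHl_sm_coord 1
  fin_cases i
  · change pd 1 (fun y => ψ y * 0) y - pd 2 (fun y => ψ y * -y 0) y = _
    simp [ResAxi_const, ResAxi_neg, ResAxi_mul h s0, ResAxi_coord, mul_comm]
  · change pd 2 (fun y => ψ y * y 1) y - pd 0 (fun y => ψ y * 0) y = _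
    simp [ResAxi_const, ResAxi_mul h s1, ResAxi_coord, mul_comm]
  · change pd 0 (fun y => ψ y * -y 0) y - pd 1 (fun y => ψ y * y 1) y = _
    simp [ResAxi_neg, ResAxi_mul h s0, ResAxi_mul h s1, ResAxi_coord, rd]
    ring

theorem ResAxi_curl_J (h : ContDiff ℝ ∞ ψ) :
    curl (sm ψ Jv) = ResAxi_M (pd 2 ψ) (ResAxi_q ψ) :=
  funext fun i => funext fun y => curl_sm_Jv h i y

theorem ResAxi_curlJ_smooth (h : ContDiff ℝ ∞ ψ) (i : Fin 3) :
    ContDiff ℝ ∞ (curl (sm ψ Jv) i) := by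
  rw [ResAxi_curl_J h]
  exact ResAxi_M_smooth (ResHl_sm_pd h 2) (ResAxi_q_smooth h) i

theorem dot_fld_Jv (h : ContDiff ℝ ∞ ψ) (b : Sc) (y : R3) :
    dot (fld (sm ψ Jv) (sm b Jv)) (fld (sm ψ Jv) (sm b Jv)) y =
      (y 0 ^ 2 + y 1 ^ 2) * (b y ^ 2 + pd 2 ψ y ^ 2) + (2 * ψ y + rd ψ y) ^ 2 := by
  simp only [dot, fld, Pi.add_apply, curl_sm_Jv h, Fin.sum_univ_three]
  simp [sm, Jv]
  ring

theorem curl_fld_Jv (h : ContDiff ℝ ∞ ψ) (hb : ContDiff ℝ ∞ b)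
    (hw : curl (curl (sm ψ Jv)) = sm w Jv) :
    curl (fld (sm ψ Jv) (sm b Jv)) = fld (sm b Jv) (sm w Jv) := by
  rw [fld, ResAxi_curl_add (ResAxi_curlJ_smooth h) (ResAxi_J_smooth hb), hw, fld, add_comm]

/-- Off the axis the scalar of `curl (curl (ψ Jv))` is minus the five-dimensional Laplacian. -/
theorem curl_curl_Jv (h : Axi ψ) (i : Fin 3) (y : R3) :
    (y 0 ^ 2 + y 1 ^ 2) * curl (curl (sm ψ Jv)) i y =
      -((y 0 ^ 2 + y 1 ^ 2) * pd 2 (pd 2 ψ) y + rd (rd ψ) y + 2 * rd ψ y) * Jv i y := by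
  have e1 := ResAxi_rd_q h.smooth y
  have e2 := (ResAxi_axi_q h).axi y
  have e3 := h.pd_two.axi y
  rw [rd] at e1
  rw [ResAxi_curl_J h.smooth, ResAxi_curl_M (ResHl_sm_pd h.smooth 2)]
  fin_cases i
  · simp [Jv]
    linear_combination y 1 * e1 + y 0 * e2
  · simp [Jv]
    linear_combination -y 0 * e1 + y 1 * e2
  · simp [Jv, e3]

theorem dot_curl_fld_Jv (h : Axi ψ) (hb : ContDiff ℝ ∞ b) {y : R3} (hy : y 0 ^ 2 + y 1 ^ 2 ≠ 0) :
    dot (curl (fld (sm ψ Jv) (sm b Jv))) (curl (fld (sm ψ Jv) (sm b Jv))) y =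
      ((y 0 ^ 2 + y 1 ^ 2) * pd 2 (pd 2 ψ) y + rd (rd ψ) y + 2 * rd ψ y) ^ 2 / (y 0 ^ 2 + y 1 ^ 2)
        + (y 0 ^ 2 + y 1 ^ 2) * pd 2 b y ^ 2 + (2 * b y + rd b y) ^ 2 := by
  have e : ∀ i, curl (curl (sm ψ Jv)) i y = -((y 0 ^ 2 + y 1 ^ 2) * pd 2 (pd 2 ψ) y
      + rd (rd ψ) y + 2 * rd ψ y) / (y 0 ^ 2 + y 1 ^ 2) * Jv i y := fun i => by
    rw [div_mul_eq_mul_div, eq_div_iff hy, mul_comm, curl_curl_Jv h]
  rw [fld, ResAxi_curl_add (ResAxi_curlJ_smooth h.smooth) (ResAxi_J_smooth hb)]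
  simp only [dot, Pi.add_apply, e, curl_sm_Jv hb, Fin.sum_univ_three]
  generalize (y 0 ^ 2 + y 1 ^ 2) * pd 2 (pd 2 ψ) y + rd (rd ψ) y + 2 * rd ψ y = E
  simp [Jv]
  field_simp
  ring

theorem fld_sub_Jv {ψ' b' : Sc} (h : ContDiff ℝ ∞ ψ) (h' : ContDiff ℝ ∞ ψ') :
    fld (sm ψ Jv) (sm b Jv) - fld (sm ψ' Jv) (sm b' Jv) =
      fld (sm (fun y => ψ y - ψ' y) Jv) (sm (fun y => b y - b' y) Jv) := by
  funext i y
  simp only [fld, Pi.add_apply, Pi.sub_apply, curl_sm_Jv h, curl_sm_Jv h', curl_sm_Jv (h.sub h'),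
    ResAxi_sub h h', ResAxi_rd_sub h h']
  fin_cases i <;> simp [sm] <;> ring

theorem ResAxi_cross (p q p' q' b w : Sc) :
    cross (ResAxi_M p q + sm b Jv) (ResAxi_M p' q' + sm w Jv) =
      sm (fun y => p y * q' y - q y * p' y) Jv + ResAxi_M (fun y => w y * q y - b y * q' y)
        fun y => -(y 0 * (y 0 * (w y * p y - b y * p' y)) + y 1 * (y 1 * (w y * p y - b y * p' y))) := by
  funext i y
  fin_cases i
  · change (y 1 * p y + b y * -y 0) * (q' y + w y * 0) - (q y + b y * 0) * (y 1 * p' y + w y * -y 0)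
      = (p y * q' y - q y * p' y) * y 1 + y 0 * (w y * q y - b y * q' y)
    ring
  · change (q y + b y * 0) * (y 0 * p' y + w y * y 1) - (y 0 * p y + b y * y 1) * (q' y + w y * 0)
      = (p y * q' y - q y * p' y) * -y 0 + y 1 * (w y * q y - b y * q' y)
    ring
  · change (y 0 * p y + b y * y 1) * (y 1 * p' y + w y * -y 0)
      - (y 1 * p y + b y * -y 0) * (y 0 * p' y + w y * y 1) = (p y * q' y - q y * p' y) * 0 +
        -(y 0 * (y 0 * (w y * p y - b y * p' y)) + y 1 * (y 1 * (w y * p y - b y * p' y)))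
    ring

theorem ResAxi_curl_rho {P Q : Sc} (hP : Axi P) (hQ : Axi Q) (i : Fin 3) (y : R3) :
    curl (ResAxi_M Q fun y => -(y 0 * (y 0 * P y) + y 1 * (y 1 * P y))) i y =
      -(2 * P y + rd P y + pd 2 Q y) * Jv i y := by
  have s0 := (ResHl_sm_coord 0).mul hP.smooth
  have s1 := (ResHl_sm_coord 1).mul hP.smooth
  have e1 := hP.axi y
  have e2 := hQ.axi y
  rw [ResAxi_curl_M hQ.smooth]
  simp only [ResAxi_neg, ResAxi_add ((ResHl_sm_coord 0).mul s0) ((ResHl_sm_coord 1).mul s1),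
    ResAxi_xmul s0, ResAxi_xmul s1, ResAxi_xmul hP.smooth]
  fin_cases i
  · simp [Jv, rd]
    linear_combination -y 0 * e1
  · simp [Jv, rd]
    linear_combination -y 1 * e1
  · simp [Jv, e2]

theorem ResAxi_yd_curl (h : ContDiff ℝ ∞ b) (i : Fin 3) (y : R3) :
    yd (curl (sm b Jv) i) y = curl (sm (yd b) Jv) i y := by
  rw [curl_sm_Jv (ResAxi_yd_smooth h), ResAxi_curl_J h, ResAxi_pd_two_yd h, ResAxi_rd_yd h]
  fin_cases i
  · exact ResAxi_yd_xmul (ResHl_sm_pd h 2) 0 y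
  · exact ResAxi_yd_xmul (ResHl_sm_pd h 2) 1 y
  · change yd (fun y => -(2 * b y + rd b y)) y = -(2 * yd b y + yd (rd b) y)
    rw [ResAxi_yd_neg, ResAxi_yd_add (contDiff_const.mul h) (ResAxi_rd_smooth h),
      ResAxi_yd_cmul h]

theorem ResAxi_yd_J (h : ContDiff ℝ ∞ w) (i : Fin 3) (y : R3) :
    yd (sm w Jv i) y = (yd w y + w y) * Jv i y := by
  fin_cases i
  · have e : sm w Jv 0 = fun y => y 1 * w y := funext fun y => mul_comm _ _
    change yd (sm w Jv 0) y = (yd w y + w y) * y 1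
    rw [e, ResAxi_yd_xmul h]
    ring
  · have e : sm w Jv 1 = fun y => -(y 0 * w y) := funext fun y => by
      change w y * -y 0 = _
      ring
    change yd (sm w Jv 1) y = (yd w y + w y) * -y 0
    rw [e, ResAxi_yd_neg, ResAxi_yd_xmul h]
    ring
  · have e : sm w Jv 2 = fun y => 0 * w y := funext fun y => mul_comm _ _
    change yd (sm w Jv 2) y = (yd w y + w y) * 0
    rw [e, ResAxi_yd_cmul h]
    ring

theorem ResAxi_curl_lin {f g k : Sc} (hf : ContDiff ℝ ∞ f) (hg : ContDiff ℝ ∞ g)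
    (hk : ContDiff ℝ ∞ k) (c : ℝ) (i : Fin 3) (y : R3) :
    curl (sm (fun y => f y + c * g y - k y) Jv) i y =
      curl (sm f Jv) i y + c * curl (sm g Jv) i y - curl (sm k Jv) i y := by
  have s1 := contDiff_const (c := c).mul hg
  rw [curl_sm_Jv ((hf.add s1).sub hk), curl_sm_Jv hf, curl_sm_Jv hg, curl_sm_Jv hk,
    ResAxi_rd_sub (hf.add s1) hk, ResAxi_rd_add hf s1, ResAxi_rd_cmul hg,
    ResAxi_sub (hf.add s1) hk, ResAxi_add hf s1, ResAxi_cmul hg]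
  fin_cases i <;> simp <;> ring

/-- With `U = m + b Jv`, `W = m' + w Jv`, `m = curl (ψ Jv)`, `m' = curl (b Jv)`: the product
`m × m'` is a multiple of `Jv`, and `curl (V × Jv) = -(div V) Jv` for `V = w m - b m'`. Work with
the explicit components from `curl_sm_Jv`. -/
theorem loc_axi (hψ : Axi ψ) (hb : Axi b) (hw : Axi w) (h : curl (curl (sm ψ Jv)) = sm w Jv) :
    loc (fld (sm ψ Jv) (sm b Jv)) = fld
      (sm (fun y => b y + 2 / 3 * yd b y
        - ((2 * ψ y + rd ψ y) * pd 2 b y - pd 2 ψ y * (2 * b y + rd b y))) Jv)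
      (sm (fun y => w y + 2 / 3 * (yd w y + w y)
        + (pd 2 ψ y * rd w y - (2 * ψ y + rd ψ y) * pd 2 w y) + 2 * b y * pd 2 b y) Jv) := by
  have hP : Axi fun y => w y * pd 2 ψ y - b y * pd 2 b y := (hw.mul hψ.pd_two).sub (hb.mul hb.pd_two)
  have hQ : Axi fun y => w y * ResAxi_q ψ y - b y * ResAxi_q b y :=
    (hw.mul (ResAxi_axi_q hψ)).sub (hb.mul (ResAxi_axi_q hb))
  have hG : Axi fun y => pd 2 ψ y * ResAxi_q b y - ResAxi_q ψ y * pd 2 b y :=
    (hψ.pd_two.mul (ResAxi_axi_q hb)).sub ((ResAxi_axi_q hψ).mul hb.pd_two)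
  have eG : (fun y => (2 * ψ y + rd ψ y) * pd 2 b y - pd 2 ψ y * (2 * b y + rd b y)) =
      fun y => pd 2 ψ y * ResAxi_q b y - ResAxi_q ψ y * pd 2 b y := by
    funext y
    simp only [ResAxi_q]
    ring
  have e1 := ResAxi_cross (pd 2 ψ) (ResAxi_q ψ) (pd 2 b) (ResAxi_q b) b w
  rw [← ResAxi_curl_J hψ.smooth, ← ResAxi_curl_J hb.smooth] at e1
  have s0 := (ResHl_sm_coord 0).mul ((ResHl_sm_coord 0).mul hP.smooth)
  have s1 := (ResHl_sm_coord 1).mul ((ResHl_sm_coord 1).mul hP.smooth)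
  funext i y
  have e2 := ResAxi_curl_lin hb.smooth hb.yd.smooth (eG ▸ hG.smooth) (2 / 3) i y
  have e3 : yd (fld (sm b Jv) (sm w Jv) i) y = _ :=
    ResAxi_yd_add (ResAxi_curlJ_smooth hb.smooth i) (ResAxi_J_smooth hw.smooth i) y
  rw [loc, curl_fld_Jv hψ.smooth hb.smooth h, e3, ResAxi_yd_curl hb.smooth,
    ResAxi_yd_J hw.smooth]
  simp only [fld, Pi.add_apply]
  rw [e1, ResAxi_curl_add (ResAxi_J_smooth hG.smooth) (ResAxi_M_smooth hQ.smooth (s0.add s1).neg),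
    e2, eG]
  simp only [Pi.add_apply]
  rw [ResAxi_curl_rho hP hQ, ResAxi_rd_sub (hw.mul hψ.pd_two).smooth (hb.mul hb.pd_two).smooth,
    ResAxi_rd_mul hw.smooth hψ.pd_two.smooth, ResAxi_rd_mul hb.smooth hb.pd_two.smooth,
    ResHl_pd_sub (hw.mul (ResAxi_axi_q hψ)).smooth (hb.mul (ResAxi_axi_q hb)).smooth,
    ResHl_pd_mul hw.smooth (ResAxi_q_smooth hψ.smooth),
    ResHl_pd_mul hb.smooth (ResAxi_q_smooth hb.smooth), ResAxi_pd_q hψ.smooth,
    ResAxi_pd_q hb.smooth]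
  simp only [sm, ResAxi_q]
  ring

end Pool.Agent.Work.MP_6bf1e5_an.H
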