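import Pool.Agent.Work.MP_6bf1e5_an.H.ResTail

/-! Weighted square norms: the triangle inequality, tails, and the dissipation. -/

open scoped ContDiff ENNReal FourierTransform Real
open Set MeasureTheory Filter Topology

namespace Pool.Agent.Work.MP_6bf1e5_an.H

/-- The weighted square norm of a finite family is finite and at most `e`. -/
def SqLe {ι : Type} [Fintype ι] (w : Sc) (X : ι → Sc) (e : ℝ) : Prop :=
  Integrable (fun y => w y * ∑ i, X i y ^ 2) ∧ ∫ y, w y * ∑ i, X i y ^ 2 ≤ e ^ 2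

variable {ι : Type} [Fintype ι] {w : Sc} {X Y : ι → Sc} {e e' : ℝ}

theorem resSq_meas (hw : Continuous w) (hX : ∀ i, Continuous (X i)) :
    AEStronglyMeasurable (fun y => w y * ∑ i, X i y ^ 2) volume :=
  (hw.mul (continuous_finsetSum _ fun i _ => (hX i).pow 2)).aestronglyMeasurable

theorem SqLe.mono (h : SqLe w X e) (he : 0 ≤ e) (he' : e ≤ e') : SqLe w X e' :=
  ⟨h.1, h.2.trans (by gcongr)⟩

theorem SqLe.add (h : SqLe w X e) (h' : SqLe w Y e') (hw : Continuous w) (hw0 : ∀ y, 0 ≤ w y)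
    (hX : ∀ i, Continuous (X i)) (hY : ∀ i, Continuous (Y i)) (he : 0 ≤ e) (he' : 0 ≤ e') :
    SqLe w (fun i y => X i y + Y i y) (e + e') := by
  have key : ∀ δ : ℝ, 0 < δ → ∀ y, w y * ∑ i, (X i y + Y i y) ^ 2 ≤
      (1 + δ) * (w y * ∑ i, X i y ^ 2) + (1 + 1 / δ) * (w y * ∑ i, Y i y ^ 2) := by
    intro δ hδ y
    rw [mul_left_comm, mul_left_comm (1 + 1 / δ), ← mul_add]
    refine mul_le_mul_of_nonneg_left ?_ (hw0 y)
    rw [Finset.mul_sum, Finset.mul_sum, ← Finset.sum_add_distrib]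
    refine Finset.sum_le_sum fun i _ => ?_
    have : (1 + δ) * X i y ^ 2 + (1 + 1 / δ) * Y i y ^ 2 - (X i y + Y i y) ^ 2
        = (δ * X i y - Y i y) ^ 2 / δ := by field_simp; ring
    have h2 : 0 ≤ (δ * X i y - Y i y) ^ 2 / δ := by positivity
    linarith
  have h0 : ∀ y, 0 ≤ w y * ∑ i, (X i y + Y i y) ^ 2 := fun y =>
    mul_nonneg (hw0 y) (by positivity)
  have hI : Integrable fun y => w y * ∑ i, (X i y + Y i y) ^ 2 := by
    refine ((h.1.const_mul (1 + 1)).add (h'.1.const_mul (1 + 1 / 1))).mono'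
      (resSq_meas hw fun i => (hX i).add (hY i)) (Eventually.of_forall fun y => ?_)
    rw [Real.norm_of_nonneg (h0 y)]
    exact key 1 one_pos y
  refine ⟨hI, ?_⟩
  have hT : Tendsto (fun t : ℝ => (e + e' + 2 * t) ^ 2) (𝓝[>] 0) (𝓝 ((e + e') ^ 2)) := by
    have : Continuous fun t : ℝ => (e + e' + 2 * t) ^ 2 := by fun_prop
    simpa using (this.tendsto 0).mono_left nhdsWithin_le_nhds
  refine ge_of_tendsto hT ?_
  filter_upwards [self_mem_nhdsWithin] with t ht
  have ht0 : 0 < t := ht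
  have hδ : 0 < (e' + t) / (e + t) := by positivity
  have i1 := h.1.const_mul (1 + (e' + t) / (e + t))
  have i2 := h'.1.const_mul (1 + 1 / ((e' + t) / (e + t)))
  refine (integral_mono hI (i1.add i2) (key _ hδ)).trans ?_
  simp only [Pi.add_apply]
  rw [integral_add i1 i2, integral_const_mul, integral_const_mul]
  have h1 : ∫ y, w y * ∑ i, X i y ^ 2 ≤ (e + t) ^ 2 := h.2.trans (by gcongr; linarith)
  have h2 : ∫ y, w y * ∑ i, Y i y ^ 2 ≤ (e' + t) ^ 2 := h'.2.trans (by gcongr; linarith)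
  calc _ ≤ (1 + (e' + t) / (e + t)) * (e + t) ^ 2
        + (1 + 1 / ((e' + t) / (e + t))) * (e' + t) ^ 2 := by gcongr
    _ = _ := by field_simp; ring

theorem SqLe.cmul (h : SqLe w X e) (c : ℝ) : SqLe w (fun i y => c * X i y) (|c| * e) := by
  have e1 : ∀ y, w y * ∑ i, (c * X i y) ^ 2 = c ^ 2 * (w y * ∑ i, X i y ^ 2) := fun y => by
    simp only [mul_pow, ← Finset.mul_sum]; ring
  simp only [SqLe, e1]
  refine ⟨h.1.const_mul _, ?_⟩
  rw [integral_const_mul, mul_pow, sq_abs]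
  exact mul_le_mul_of_nonneg_left h.2 (sq_nonneg c)

theorem SqLe.om (h : SqLe 1 X e) (hX : ∀ i, Continuous (X i)) : SqLe Om X (3 / 2 * e) := by
  have hc := Dyn.Om_smooth.continuous
  have key : ∀ y, Om y * ∑ i, X i y ^ 2 ≤ 2 * ((1 : Sc) y * ∑ i, X i y ^ 2) := fun y => by
    rw [Pi.one_apply, one_mul]
    exact mul_le_mul_of_nonneg_right (Dyn.Om_le y) (by positivity)
  have hI : Integrable fun y => Om y * ∑ i, X i y ^ 2 := by
    refine (h.1.const_mul 2).mono' (resSq_meas hc hX)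
      (Eventually.of_forall fun y => ?_)
    rw [Real.norm_of_nonneg (mul_nonneg (Dyn.Om_pos y).le (by positivity))]
    exact key y
  refine ⟨hI, (integral_mono hI (h.1.const_mul 2) key).trans ?_⟩
  rw [integral_const_mul]
  nlinarith [h.2, sq_nonneg e]

theorem sqLe_one (hI : ∀ i, Integrable fun y => X i y ^ 2) (h : ∑ i, ∫ y, X i y ^ 2 ≤ e ^ 2) :
    SqLe 1 X e := by
  simp only [SqLe, Pi.one_apply, one_mul]
  exact ⟨integrable_finsetSum _ fun i _ => hI i, by rwa [integral_finsetSum _ fun i _ => hI i]⟩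

theorem nw_eq_sq (w : Sc) (V : Vc) : nw w V = ∫ y, w y * ∑ i, V i y ^ 2 := by
  simp only [nw, dot, sq]

theorem gw_eq_sq (w : Sc) (V : Vc) :
    gw w V = ∫ y, w y * ∑ p : Fin 3 × Fin 3, pd p.2 (V p.1) y ^ 2 := by
  simp only [gw, Fintype.sum_prod_type]

/-- Tails of uniform symbols. -/
theorem sqLe_tail {m p Cw : ℝ} {F : ℝ → ι → Sc} (h : ∀ i, SymU m fun A => F A i)
    (hv : ∀ A i, Agr A (F A i) fun _ => 0) (hw : Continuous w) (hw0 : ∀ y, 0 ≤ w y)
    (hb : ∀ y, w y ≤ Cw * (1 + ‖y‖) ^ p) (hq : p + 2 * m < -3) (he : 0 < e) :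
    ∀ᶠ A in atTop, SqLe w (F A) e := by
  choose C hC using fun i => (h i).2 []
  have key : ∀ A, 1 ≤ A → ∀ y, |w y * ∑ i, F A i y ^ 2| ≤
      (Cw * ∑ i, C i ^ 2) * (1 + ‖y‖) ^ (p + 2 * m) := by
    intro A hA y
    rw [abs_of_nonneg (mul_nonneg (hw0 y) (by positivity)), Real.rpow_add (by positivity),
      mul_mul_mul_comm]
    refine mul_le_mul (hb y) ?_ (by positivity) ((hw0 y).trans (hb y))
    rw [Finset.sum_mul]
    refine Finset.sum_le_sum fun i _ => ?_
    have h1 := hC i A hA y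
    simp only [pds, List.foldr_nil, List.length_nil, Nat.cast_zero, sub_zero] at h1
    rw [mul_comm 2 m, Real.rpow_mul (by positivity), Real.rpow_two, ← mul_pow, ← sq_abs]
    gcongr
  filter_upwards [eventually_ge_atTop 1, tail_small hq key (fun A _ y hy => by
    simp only [fun i => hv A i y hy]; simp) (pow_pos he 2)] with A hA hA'
  refine ⟨?_, hA'⟩
  have hc := fun i => ((h i).1 A hA).continuous
  have hI : Integrable fun y : R3 => (1 + ‖y‖) ^ (-(-(p + 2 * m))) :=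
    integrable_one_add_norm (by simp; linarith)
  rw [neg_neg] at hI
  exact (hI.const_mul _).mono' (resSq_meas hw hc)
    (Eventually.of_forall (key A hA))

theorem resSq_sq_int {g : Sc} {F : R3 → ℂ} (h : RepA g F) (hF : MemLp F 2 volume) :
    Integrable (fun y => g y ^ 2) ∧ ∫ y, g y ^ 2 = ∫ ξ, ‖F ξ‖ ^ 2 := by
  obtain ⟨h0, h1⟩ := parseval h h hF hF
  refine ⟨h0.integrable_sq, ?_⟩
  simp only [Complex.mul_conj, Complex.normSq_eq_norm_sq] at h1
  rw [integral_complex_ofReal, Complex.ofReal_re] at h1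
  simpa only [pow_two] using h1

theorem resSq_memLp {g : Sc} {F : R3 → ℂ} (h : RepA g F) (hg : Hinf g) : MemLp F 2 volume := by
  obtain ⟨G, hG⟩ := hg.exists_rep
  have : MemLp G 2 volume := by simpa using hG.2 0
  exact this.ae_eq (hG.1.unique h)

/-- The dissipation is square integrable as soon as the gradient is. -/
theorem lam_sq_le_of_pd {g : Sc} (h : InA g) (h' : ∀ j, Hinf (pd j g)) :
    Integrable (fun y => Lam g y ^ 2) ∧ ∫ y, Lam g y ^ 2 ≤
      (∑ j, ∫ y, pd j g y ^ 2) + ∑ p : Fin 3 × Fin 3, ∫ y, pd p.2 (pd p.1 g) y ^ 2 := by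
  obtain ⟨F, hF⟩ := h
  have m1 := fun j => resSq_memLp (hF.pd j) (h' j)
  have m2 := fun p : Fin 3 × Fin 3 => resSq_memLp ((hF.pd p.1).pd p.2) ((h' p.1).pd p.2)
  have i1 := fun j => (memLp_two_iff_integrable_sq_norm (m1 j).1).1 (m1 j)
  have i2 := fun p => (memLp_two_iff_integrable_sq_norm (m2 p).1).1 (m2 p)
  have hL := hF.Dp (s := 3 / 2) (by norm_num)
  have hm : AEStronglyMeasurable (fun ξ => sy (3 / 2) ξ * F ξ) volume := by
    simpa using (hL.1 0).aestronglyMeasurable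
  have j1 := integrable_finsetSum Finset.univ fun j _ => i1 j
  have j2 := integrable_finsetSum Finset.univ fun p _ => i2 p
  have key : ∀ ξ : R3, ‖sy (3 / 2) ξ * F ξ‖ ^ 2 ≤
      ∑ j, ‖2 * π * Complex.I * (ξ j : ℝ) * F ξ‖ ^ 2 + ∑ p : Fin 3 × Fin 3,
        ‖2 * π * Complex.I * (ξ p.2 : ℝ) * (2 * π * Complex.I * (ξ p.1 : ℝ) * F ξ)‖ ^ 2 := by
    intro ξ
    have e1 : ∀ z : ℂ, ∑ j, ‖2 * π * Complex.I * (ξ j : ℝ) * z‖ ^ 2
        = (2 * π * ‖ξ‖) ^ 2 * ‖z‖ ^ 2 := fun z => by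
      simp only [norm_mul, Complex.norm_I, Complex.norm_real, Complex.norm_ofNat, mul_pow,
        Real.norm_eq_abs, sq_abs, EuclideanSpace.real_norm_sq_eq, Finset.mul_sum, Finset.sum_mul,
        mul_one]
    have h0 : 0 ≤ 2 * π * ‖ξ‖ := by positivity
    have e2 : ‖sy (3 / 2) ξ‖ ^ 2 = (2 * π * ‖ξ‖) ^ 3 := by
      rw [sy, Complex.norm_real, Real.norm_eq_abs, sq_abs, ← Real.rpow_natCast,
        ← Real.rpow_mul h0, ← Real.rpow_natCast]
      norm_num
    rw [Fintype.sum_prod_type]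
    simp only [e1]
    rw [← Finset.mul_sum, e1, norm_mul, mul_pow, e2]
    generalize 2 * π * ‖ξ‖ = x at h0
    have : x ^ 3 ≤ x ^ 2 + x ^ 2 * x ^ 2 := by nlinarith [sq_nonneg (x * (x - 1)), pow_nonneg h0 3]
    nlinarith [sq_nonneg ‖F ξ‖]
  have hI : Integrable fun ξ => ‖sy (3 / 2) ξ * F ξ‖ ^ 2 :=
    (j1.add j2).mono' (hm.norm.pow 2) (Eventually.of_forall fun ξ => by
      rw [Real.norm_of_nonneg (by positivity)]; exact key ξ)
  obtain ⟨k1, k2⟩ := resSq_sq_int hL ((memLp_two_iff_integrable_sq_norm hm).2 hI)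
  refine ⟨k1, k2.trans_le ((integral_mono hI (j1.add j2) key).trans_eq ?_)⟩
  simp only [Pi.add_apply]
  rw [integral_add j1 j2, integral_finsetSum _ fun j _ => i1 j, integral_finsetSum _ fun p _ => i2 p]
  congr 1
  · exact Finset.sum_congr rfl fun j _ => (resSq_sq_int (hF.pd j) (m1 j)).2.symm
  · exact Finset.sum_congr rfl fun p _ => (resSq_sq_int ((hF.pd p.1).pd p.2) (m2 p)).2.symm

end Pool.Agent.Work.MP_6bf1e5_an.H
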