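import Pool.Agent.Work.MP_6bf1e5_an.H.LocBg
import Pool.Agent.Work.MP_6bf1e5_an.H.ResSq

/-! The residual of the cut background. -/

open scoped ContDiff ENNReal FourierTransform Real
open Set MeasureTheory Filter Topology

namespace Pool.Agent.Work.MP_6bf1e5_an.H

variable {ι : Type} [Fintype ι] {e m : ℝ}

theorem InA.sub {f g : Sc} (h : InA f) (h' : InA g) : InA fun y => f y - g y := by
  obtain ⟨F, hF⟩ := h
  obtain ⟨G, hG⟩ := h'
  have := hF.add (hG.smul (-1))
  have e : (f + fun y => -1 * g y) = fun y => f y - g y := by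
    funext y; simp only [Pi.add_apply]; ring
  rw [e] at this
  exact ⟨_, this⟩

theorem InA.lam_smooth {f : Sc} (h : InA f) : ContDiff ℝ ∞ (Lam f) := by
  obtain ⟨F, hF⟩ := h
  exact (hF.Dp (s := 3 / 2) (by norm_num)).smooth

theorem SqLe.sum_le {X : ι → Sc} (h : SqLe 1 X e) (hX : ∀ i, Hinf (X i)) :
    ∑ i, ∫ y, X i y ^ 2 ≤ e ^ 2 := by
  have := h.2
  simp only [Pi.one_apply, one_mul] at this
  rwa [integral_finsetSum _ fun i _ => Dyn.int_sq (hX i)] at this

theorem sqLe_om_of_hinf {X : Vc} (hX : ∀ i, Hinf (X i)) (h : nw Om X ≤ e ^ 2) : SqLe Om X e := by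
  have h1 : SqLe 1 X √(∑ i, ∫ y, X i y ^ 2) := sqLe_one (fun i => Dyn.int_sq (hX i))
    (Real.sq_sqrt (Finset.sum_nonneg fun i _ => integral_nonneg fun y => sq_nonneg _)).ge
  exact ⟨(h1.om fun i => (hX i).1.continuous).1, by rwa [nw_eq_sq] at h⟩

theorem sqLe_grad_of_hinf {X : Vc} (hX : ∀ i, Hinf (X i)) (h : gw 1 X ≤ e ^ 2) :
    SqLe 1 (fun p : Fin 3 × Fin 3 => pd p.2 (X p.1)) e := by
  refine ⟨?_, by rwa [gw_eq_sq] at h⟩
  simp only [Pi.one_apply, one_mul]
  exact integrable_finsetSum _ fun p _ => Dyn.int_sq ((hX p.1).pd p.2)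

theorem Agr.pd_zero {A : ℝ} {u : Sc} (h : Agr A u fun _ => 0) (j : Fin 3) :
    Agr A (H.pd j u) fun _ => 0 := by
  have := h.pd j
  rwa [Dyn.pd_const] at this

theorem sqLe_tail_one {F : ℝ → ι → Sc} (h : ∀ i, SymU m fun A => F A i)
    (hv : ∀ A i, Agr A (F A i) fun _ => 0) (hm : m < -3 / 2) (he : 0 < e) :
    ∀ᶠ A in atTop, SqLe 1 (F A) e :=
  sqLe_tail (p := 0) (Cw := 1) h hv continuous_const (fun _ => zero_le_one) (fun y => by simp)
    (by linarith) he

theorem sqLe_tail_om {F : ℝ → ι → Sc} (h : ∀ i, SymU m fun A => F A i)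
    (hv : ∀ A i, Agr A (F A i) fun _ => 0) (hm : m < -1 / 2) (he : 0 < e) :
    ∀ᶠ A in atTop, SqLe Om (F A) e := by
  refine sqLe_tail (p := -2) (Cw := 4) h hv Dyn.Om_smooth.continuous (fun y => (Dyn.Om_pos y).le)
    (fun y => ?_) (by linarith) he
  rw [Real.rpow_neg (by positivity), Real.rpow_two, Om, ← div_eq_mul_inv,
    div_le_div_iff₀ (by positivity) (by positivity)]
  nlinarith [sq_nonneg (‖y‖ - 1)]

theorem sqLe_tail_lam {F : ℝ → ι → Sc} (h : ∀ i, SymU m fun A => F A i)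
    (hv : ∀ A i, Agr A (F A i) fun _ => 0) (hm : m < -1 / 2)
    (hA : ∀ A, 1 ≤ A → ∀ i, InA (F A i)) (he : 0 < e) :
    ∀ᶠ A in atTop, SqLe 1 (fun i => Lam (F A i)) e := by
  have h1 := sqLe_tail_one (F := fun A (p : ι × Fin 3) => pd p.2 (F A p.1))
    (fun p => (h p.1).pd p.2) (fun A p => (hv A p.1).pd_zero p.2) (by linarith) (half_pos he)
  have h2 := sqLe_tail_one
    (F := fun A (p : ι × Fin 3 × Fin 3) => pd p.2.2 (pd p.2.1 (F A p.1)))
    (fun p => ((h p.1).pd p.2.1).pd p.2.2)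
    (fun A p => ((hv A p.1).pd_zero p.2.1).pd_zero p.2.2) (by linarith) (half_pos he)
  filter_upwards [eventually_ge_atTop 1, h1, h2] with A hA1 k1 k2
  have hH : ∀ i j, Hinf (pd j (F A i)) := fun i j =>
    (((h i).pd j).sym hA1).hinf (by linarith)
  have hl := fun i => lam_sq_le_of_pd (hA A hA1 i) (hH i)
  refine sqLe_one (fun i => (hl i).1) ((Finset.sum_le_sum fun i _ => (hl i).2).trans ?_)
  have s1 := k1.sum_le fun p => hH p.1 p.2
  have s2 := k2.sum_le fun p => (hH p.1 p.2.1).pd p.2.2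
  rw [Fintype.sum_prod_type] at s1 s2
  rw [Finset.sum_add_distrib]
  nlinarith [sq_nonneg e]

theorem res_cut {ν e1 e2 : ℝ} {Ψ S : Vc} (hp : Pot (-1 / 2) Ψ S)
    (hW : ∀ i, InA (curl (fld Ψ S) i)) (hX : ∀ i, Hinf (Res ν (fld Ψ S) i)) (he1 : 0 ≤ e1)
    (he2 : 0 ≤ e2) (h1 : nw Om (Res ν (fld Ψ S)) ≤ e1 ^ 2) (h2 : gw 1 (Res ν (fld Ψ S)) ≤ e2 ^ 2) :
    ∀ η > 0, ∃ A0, ∀ A ≥ A0, nw Om (Res ν (cut A Ψ S)) ≤ (e1 + η) ^ 2 ∧
      gw 1 (Res ν (cut A Ψ S)) ≤ (e2 + η) ^ 2 := by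
  intro η hη
  rw [← eventually_atTop]
  have sB : ∀ i, SymU (-1 / 2) fun _ => fld Ψ S i :=
    symU_fld (Ψ := fun _ => Ψ) (S := fun _ => S) (fun i => (hp.sΨ i).symU) fun i => (hp.sS i).symU
  set Y : ℝ → Vc := fun A i y => loc (cut A Ψ S) i y - loc (fld Ψ S) i y with hY
  set D : ℝ → Vc := fun A i y => curl (cut A Ψ S) i y - curl (fld Ψ S) i y with hD
  have sY : ∀ i, SymU (-3 / 2) fun A => Y A i := fun i =>
    (symU_loc (symU_cut hp) i).sub (symU_loc (V := fun _ => fld Ψ S) sB i)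
  have sD : ∀ i, SymU (-1 / 2 - 1) fun A => D A i := fun i =>
    (symU_curl (symU_cut hp) i).sub (symU_curl (V := fun _ => fld Ψ S) sB i)
  have vY : ∀ A i, Agr A (Y A i) fun _ => 0 := fun A i y hy =>
    sub_eq_zero.2 (agr_loc (agr_cut A Ψ S) i y hy)
  have vD : ∀ A i, Agr A (D A i) fun _ => 0 := fun A i y hy =>
    sub_eq_zero.2 (agr_curl (agr_cut A Ψ S) i y hy)
  have aD : ∀ A, 1 ≤ A → ∀ i, InA (D A i) := fun A hA i => by
    have hb := pot_bg hp (A := A) (by linarith)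
    exact (Dyn.hinf_curl (fun k => hinf_of_supp (hb.smooth k) (hb.supp k)) i).inA.sub (hW i)
  have aD' : ∀ A, 1 ≤ A → ∀ p : Fin 3 × Fin 3, InA (pd p.2 (D A p.1)) := fun A hA p =>
    ((((sD p.1).pd p.2).sym hA).hinf (by norm_num)).inA
  have hε : 0 < η / (3 * (|ν| + 1)) := by positivity
  have hνε : |ν| * (η / (3 * (|ν| + 1))) ≤ η / 3 := by
    rw [← mul_div_assoc, div_le_div_iff₀ (by positivity) (by norm_num)]
    nlinarith [abs_nonneg ν]
  filter_upwards [eventually_ge_atTop 1, sqLe_tail_om sY vY (by norm_num) (half_pos hη),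
    sqLe_tail_lam sD vD (by norm_num) aD hε,
    sqLe_tail_one (F := fun A (p : Fin 3 × Fin 3) => pd p.2 (Y A p.1)) (fun p => (sY p.1).pd p.2)
      (fun A p => (vY A p.1).pd_zero p.2) (by norm_num) (half_pos hη),
    sqLe_tail_lam (F := fun A (p : Fin 3 × Fin 3) => pd p.2 (D A p.1)) (fun p => (sD p.1).pd p.2)
      (fun A p => (vD A p.1).pd_zero p.2) (by norm_num) aD' hε] with A hA k1 k2 k3 k4
  have cX := fun i => (hX i).1
  have cY := fun i => (sY i).1 A hA
  have cL := fun i => (aD A hA i).lam_smooth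
  have cL' := fun p => (aD' A hA p).lam_smooth
  have eR : ∀ i, Res ν (cut A Ψ S) i =
      fun y => Res ν (fld Ψ S) i y + (Y A i y + ν * Lam (D A i) y) := by
    intro i
    have e1 : curl (cut A Ψ S) i = curl (fld Ψ S) i + D A i := by
      funext y; simp only [hD, Pi.add_apply]; ring
    have e2 : Lam (curl (cut A Ψ S) i) = Lam (curl (fld Ψ S) i) + Lam (D A i) := by
      rw [e1]; exact Dp_add (hW i) (aD A hA i) (by norm_num)
    funext y
    simp only [Res, hY, loc, e2, Pi.add_apply]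
    ring
  have hOm := Dyn.Om_smooth.continuous
  have hOm0 := fun y => (Dyn.Om_pos y).le
  have cν : ∀ {f : Sc}, ContDiff ℝ ∞ f → ContDiff ℝ ∞ fun y => ν * f y := fun h =>
    contDiff_const.mul h
  constructor
  · have k5 := (k2.cmul ν).om fun i => (cν (cL i)).continuous
    have k6 := k1.add k5 hOm hOm0 (fun i => (cY i).continuous) (fun i => (cν (cL i)).continuous)
      (by positivity) (by positivity)
    have k7 := (sqLe_om_of_hinf hX h1).add k6 hOm hOm0 (fun i => (cX i).continuous)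
      (fun i => ((cY i).add (cν (cL i))).continuous) he1 (by positivity)
    rw [nw_eq_sq]
    simp only [eR]
    exact (k7.mono (by positivity) (by linarith)).2
  · have k6 := k3.add (k4.cmul ν) continuous_const (fun _ => zero_le_one)
      (fun p => (Dyn.pd_smooth (cY p.1) p.2).continuous) (fun p => (cν (cL' p)).continuous)
      (by positivity) (by positivity)
    have k7 := (sqLe_grad_of_hinf hX h2).add k6 continuous_const (fun _ => zero_le_one)
      (fun p => (Dyn.pd_smooth (cX p.1) p.2).continuous)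
      (fun p => ((Dyn.pd_smooth (cY p.1) p.2).add (cν (cL' p))).continuous) he2 (by positivity)
    have eP : ∀ i j, pd j (Res ν (cut A Ψ S) i) = fun y => pd j (Res ν (fld Ψ S) i) y
        + (pd j (Y A i) y + ν * Lam (pd j (D A i)) y) := by
      intro i j
      rw [eR, Dyn.pd_add (cX i) ((cY i).add (cν (cL i))), Dyn.pd_add (cY i) (cν (cL i)),
        Dyn.pd_cmul (cL i), Lam, pd_Dp (aD A hA i) (by norm_num)]
      rfl
    rw [gw_eq_sq]
    simp only [eP]
    exact (k7.mono (by positivity) (by linarith)).2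

end Pool.Agent.Work.MP_6bf1e5_an.H
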