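import Pool.Agent.Work.MP_6bf1e5_an.H.Defs

/-! Working definitions for separated fields and for the residual estimate (owner helper11). -/

open scoped ContDiff ENNReal FourierTransform Real
open Set MeasureTheory

namespace Pool.Agent.Work.MP_6bf1e5_an.H

noncomputable section

/-- Smooth and positively homogeneous of degree `d`. -/
structure Hom (d : ℕ) (Q : Sc) : Prop where
  smooth : ContDiff ℝ ∞ Q
  hom : ∀ r : ℝ, 0 < r → ∀ y, Q (r • y) = r ^ d * Q y

/-- Solid harmonics of degree `l`. -/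
structure Harm (l : ℕ) (P : Sc) : Prop extends Hom l P where
  harm : ∀ y, lap P y = 0

/-- The integral over the unit sphere. -/
def sph (Q : Sc) : ℝ := ∫ x : Metric.sphere (0 : R3) 1, Q x ∂(volume : Measure R3).toSphere

/-- The zonal solid harmonics `ρ ^ l P_l (y₃ / ρ)`. -/
def Hl : ℕ → Sc
  | 0 => fun _ => 1
  | 1 => fun y => y 2
  | n + 2 => fun y =>
    ((2 * n + 3) * (y 2 * Hl (n + 1) y) - (n + 1) * (‖y‖ ^ 2 * Hl n y)) / (n + 2)

/-- The polynomials `ρ ^ (l - 1) P_l' (y₃ / ρ)`. -/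
def bl : ℕ → Sc
  | 0 => fun _ => 0
  | 1 => fun _ => 1
  | n + 2 => fun y =>
    ((2 * n + 3) * (y 2 * bl (n + 1) y + Hl (n + 1) y) - (n + 1) * (‖y‖ ^ 2 * bl n y)) / (n + 2)

/-- The field `y × e₃`. -/
def Jv : Vc := fun i y => ![y 1, -y 0, 0] i

/-- The toroidal fields `y × ∇ H_l`. -/
def TT (l : ℕ) : Vc := cross pos (grad (Hl l))

/-- The squared norm of `T_l` on the unit sphere. -/
def nT (l : ℕ) : ℝ := 4 * π * l * (l + 1) / (2 * l + 1)

/-- The radial variable. -/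
def tau (a : ℝ) : Sc := fun y => (1 + a * ‖y‖ ^ 2) ^ (-(1 / 4) : ℝ)

/-- Finite sums of toroidal fields with radial profiles. -/
def TF (a : ℝ) (L : Finset ℕ) (f : ℕ → ℝ → ℝ) : Vc :=
  fun i y => ∑ l ∈ L, f l (tau a y) * TT l i y

/-- The monomial coefficients of a radial profile `x ^ e * (polynomial of degree < N)`. -/
structure Rad where
  e : ℕ
  N : ℕ
  c : ℕ → ℝ

/-- The profile. -/
def Rad.f (R : Rad) (x : ℝ) : ℝ := ∑ j ∈ Finset.range R.N, R.c j * x ^ (R.e + j)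

/-- The field of a family of profiles. -/
def TR (a : ℝ) (L : Finset ℕ) (R : ℕ → Rad) : Vc := TF a L fun l => (R l).f

/-- The radial part of the Fourier transform of `P (y) (1 + a |y|²) ^ (-b)`, `D = deg P + 3 / 2`. -/
def kap (a D b r : ℝ) : ℝ :=
  a ^ (-b) / Real.Gamma b * ∫ t in Ioi (0 : ℝ),
    t ^ (b - 1) * Real.exp (-(t / a)) * (π / t) ^ D * Real.exp (-(π ^ 2 * r ^ 2 / t))

/-- The radial part of the Fourier transform of a profile. -/
def Rad.K (R : Rad) (a : ℝ) (l : ℕ) (r : ℝ) : ℝ :=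
  ∑ j ∈ Finset.range R.N, R.c j * kap a (l + 3 / 2) (((R.e + j : ℕ) : ℝ) / 4) r

/-- The value of `∫ r ^ (2 D - 1) (2 π r) ^ s kap a D b r * kap a D b' r`. -/
def Jc (a s D b b' : ℝ) : ℝ :=
  2 ^ (s - 1) * a ^ (s / 2 - D) * Real.Gamma (D + s / 2) *
    (Real.Gamma (b + s / 2) / Real.Gamma b) * (Real.Gamma (b' + s / 2) / Real.Gamma b') *
    (Real.Gamma (b + b' + s / 2 - D) / Real.Gamma (b + b' + s))

/-- The bilinear form on monomial coefficients. -/
def JQ (a s : ℝ) (l : ℕ) (R R' : Rad) : ℝ :=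
  ∑ j ∈ Finset.range R.N, ∑ k ∈ Finset.range R'.N,
    R.c j * R'.c k * Jc a s (l + 3 / 2) (((R.e + j : ℕ) : ℝ) / 4) (((R'.e + k : ℕ) : ℝ) / 4)

/-- The contribution of the degree `l` to the squared seminorm of order `σ / 2` of
`ν Λ curl (curl (f T) + s T) + curl (c T) + b T`. -/
def RQ (a ν σ : ℝ) (l : ℕ) (f s b c : Rad) : ℝ :=
  nT l * (ν ^ 2 * JQ a (7 + σ) l f f + 2 * ν * JQ a (7 / 2 + σ) l f b + JQ a σ l b b
    + (ν ^ 2 * JQ a (5 + σ) l s s + 2 * ν * JQ a (7 / 2 + σ) l s c + JQ a (2 + σ) l c c))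

/-- The local part of the residual. -/
def loc (B : Vc) : Vc := fun i y =>
  curl B i y + 2 / 3 * yd (curl B i) y - curl (cross B (curl B)) i y

end

end Pool.Agent.Work.MP_6bf1e5_an.H
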