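import Pool.Agent.Work.MP_6bf1e5_an.H.ResOrt

/-! Toroidal fields on the Fourier side. -/

open scoped ContDiff ENNReal FourierTransform Real
open Set MeasureTheory

namespace Pool.Agent.Work.MP_6bf1e5_an.H

/-- A sum of toroidal fields with radial coefficients and the phases of the Fourier transform. -/
noncomputable def FV (L : Finset ℕ) (α : ℕ → ℝ → ℝ) (i : Fin 3) (ξ : R3) : ℂ :=
  ∑ l ∈ L, (-Complex.I) ^ l * ((TT l i ξ * α l ‖ξ‖ : ℝ) : ℂ)

/-- The symbol of the curl. -/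
noncomputable def FC (F : Fin 3 → R3 → ℂ) (i : Fin 3) (ξ : R3) : ℂ :=
  2 * π * Complex.I * (ξ (i + 1) : ℝ) * F (i + 2) ξ - 2 * π * Complex.I * (ξ (i + 2) : ℝ) * F (i + 1) ξ

variable {L : Finset ℕ} {α β : ℕ → ℝ → ℝ} {w : ℝ → ℝ}

theorem ResFV_eq (L : Finset ℕ) (α : ℕ → ℝ → ℝ) (ξ : R3) :
    ∃ z : ℂ, ∀ i, FV L α i ξ = z * (Jv i ξ : ℝ) :=
  ⟨∑ l ∈ L, (-Complex.I) ^ l * ((bl l ξ * α l ‖ξ‖ : ℝ) : ℂ), fun i => by
    rw [FV, Finset.sum_mul]
    refine Finset.sum_congr rfl fun l _ => ?_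
    rw [TT_eq]
    push_cast
    ring⟩

/-- By `TT_eq` both fields are complex multiples `z Jv`, `z' Jv`; `ξ × Jv` is orthogonal to `Jv`
and has the squared length `|ξ|² |Jv|²`. -/
theorem sq_FC_add (ξ : R3) : ∑ i, ‖FC (FV L β) i ξ + FV L α i ξ‖ ^ 2 =
    (2 * π * ‖ξ‖) ^ 2 * ∑ i, ‖FV L β i ξ‖ ^ 2 + ∑ i, ‖FV L α i ξ‖ ^ 2 := by
  obtain ⟨z, hz⟩ := ResFV_eq L α ξ
  obtain ⟨z', hz'⟩ := ResFV_eq L β ξ
  simp only [FC, hz, hz', Fin.sum_univ_three, Jv, Complex.sq_norm, Complex.normSq_apply, mul_pow,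
    ResHl_normsq]
  simp
  ring

theorem sq_FV (ξ : R3) : ∑ i, ‖FV L α i ξ‖ ^ 2 = ∑ l ∈ L, ∑ l' ∈ L,
    ((-Complex.I) ^ l * Complex.I ^ l').re * (dot (TT l) (TT l') ξ * (α l ‖ξ‖ * α l' ‖ξ‖)) := by
  have h : ∀ i, ‖FV L α i ξ‖ ^ 2 = ∑ l ∈ L, ∑ l' ∈ L, ((-Complex.I) ^ l * Complex.I ^ l').re *
      (TT l i ξ * TT l' i ξ * (α l ‖ξ‖ * α l' ‖ξ‖)) := by
    intro i
    rw [Complex.sq_norm, ← Complex.ofReal_re (Complex.normSq _), ← Complex.mul_conj, FV, map_sum,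
      Finset.sum_mul_sum, Complex.re_sum]
    refine Finset.sum_congr rfl fun l _ => ?_
    rw [Complex.re_sum]
    refine Finset.sum_congr rfl fun l' _ => ?_
    rw [map_mul, map_pow, map_neg, Complex.conj_I, neg_neg, Complex.conj_ofReal, mul_mul_mul_comm,
      ← Complex.ofReal_mul, Complex.re_mul_ofReal]
    ring
  simp only [h, dot, Finset.sum_mul, Finset.mul_sum]
  rw [Finset.sum_comm]
  exact Finset.sum_congr rfl fun l _ => Finset.sum_comm

theorem FV_measurable (hm : ∀ l ∈ L, Measurable (α l)) (i : Fin 3) : Measurable (FV L α i) :=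
  Finset.measurable_sum _ fun l hl => measurable_const.mul (Complex.measurable_ofReal.comp
    ((harm_TT l i).smooth.continuous.measurable.mul ((hm l hl).comp measurable_norm)))

/-- `sq_FV`, `integrable_polar` (the mixed terms by `2 |x x'| ≤ x² + x'²`), `int_TT`. -/
theorem int_FV (hm : ∀ l ∈ L, Measurable (α l)) (hw : Measurable w) (hw0 : ∀ r, 0 < r → 0 ≤ w r)
    (hi : ∀ l ∈ L, IntegrableOn (fun r => r ^ (2 * l + 2) * (w r * α l r ^ 2)) (Ioi 0)) :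
    Integrable (fun ξ : R3 => w ‖ξ‖ * ∑ i, ‖FV L α i ξ‖ ^ 2) ∧
    ∫ ξ : R3, w ‖ξ‖ * ∑ i, ‖FV L α i ξ‖ ^ 2 =
      ∑ l ∈ L, nT l * ∫ r in Ioi (0 : ℝ), r ^ (2 * l + 2) * (w r * α l r ^ 2) := by
  have h1 : ∀ l ∈ L, ∀ l' ∈ L, Integrable fun ξ : R3 => ((-Complex.I) ^ l * Complex.I ^ l').re *
      (dot (TT l) (TT l') ξ * (w ‖ξ‖ * (α l ‖ξ‖ * α l' ‖ξ‖))) := by
    intro l hl l' hl'
    refine (integrable_polar (g := fun r => w r * (α l r * α l' r)) (hom_dot_TT l l')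
      (((hi l hl).add (hi l' hl')).mono' ?_ ?_)).const_mul _
    · exact ((measurable_id.pow_const _).mul
        (hw.mul ((hm l hl).mul (hm l' hl')))).aestronglyMeasurable
    · refine (ae_restrict_iff' measurableSet_Ioi).2 (.of_forall fun r hr => ?_)
      have h2 := mul_nonneg (hw0 r hr) (sq_nonneg (r ^ (l + 1) * α l r + r ^ (l' + 1) * α l' r))
      have h3 := mul_nonneg (hw0 r hr) (sq_nonneg (r ^ (l + 1) * α l r - r ^ (l' + 1) * α l' r))
      have h4 := mul_nonneg (hw0 r hr) (sq_nonneg (r ^ (l + 1) * α l r))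
      have h5 := mul_nonneg (hw0 r hr) (sq_nonneg (r ^ (l' + 1) * α l' r))
      rw [Real.norm_eq_abs, abs_le, Pi.add_apply, show 2 * l + 2 = (l + 1) * 2 by ring,
        show 2 * l' + 2 = (l' + 1) * 2 by ring, show l + l' + 2 = l + 1 + (l' + 1) by ring,
        pow_mul, pow_mul, pow_add r (l + 1)]
      constructor <;> linarith
  have h2 : (fun ξ : R3 => w ‖ξ‖ * ∑ i, ‖FV L α i ξ‖ ^ 2) = fun ξ => ∑ l ∈ L, ∑ l' ∈ L,
      ((-Complex.I) ^ l * Complex.I ^ l').re *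
        (dot (TT l) (TT l') ξ * (w ‖ξ‖ * (α l ‖ξ‖ * α l' ‖ξ‖))) := by
    funext ξ
    simp only [sq_FV, Finset.mul_sum]
    exact Finset.sum_congr rfl fun l _ => Finset.sum_congr rfl fun l' _ => by ring
  rw [h2]
  refine ⟨integrable_finsetSum _ fun l hl => integrable_finsetSum _ (h1 l hl), ?_⟩
  rw [integral_finsetSum _ fun l hl => integrable_finsetSum _ (h1 l hl)]
  refine Finset.sum_congr rfl fun l hl => ?_
  rw [integral_finsetSum _ (h1 l hl), Finset.sum_eq_single_of_mem l hl fun l' _ hl' => by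
    rw [integral_const_mul, int_TT l l' fun r => w r * (α l r * α l' r), if_neg hl'.symm, mul_zero],
    integral_const_mul, int_TT l l fun r => w r * (α l r * α l r), if_pos rfl, ← mul_pow]
  simp [sq]

end Pool.Agent.Work.MP_6bf1e5_an.H
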