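import Pool.Agent.Work.MP_6bf1e5_an.H.ResGam

/-! The radial bilinear form. -/

open scoped ContDiff ENNReal FourierTransform Real
open Set MeasureTheory

namespace Pool.Agent.Work.MP_6bf1e5_an.H

variable {a D b b' s : ℝ}

/-- The integrand of `kap`. -/
noncomputable def ResJ_G (a D b r t : ℝ) : ℝ :=
  t ^ (b - 1) * Real.exp (-(t / a)) * (π / t) ^ D * Real.exp (-(π ^ 2 * r ^ 2 / t))

theorem ResJ_G_nonneg (a D b r : ℝ) {t : ℝ} (ht : 0 < t) : 0 ≤ ResJ_G a D b r t := by
  unfold ResJ_G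
  have := Real.pi_pos
  positivity

theorem ResJ_lint (ha : 0 < a) {r : ℝ} (hr : 0 < r) (D b : ℝ) :
    ENNReal.ofReal (∫ t in Ioi (0 : ℝ), ResJ_G a D b r t)
      = ∫⁻ t in Ioi (0 : ℝ), ENNReal.ofReal (ResJ_G a D b r t) :=
  ofReal_integral_eq_lintegral_ofReal (kap_integrable ha hr D b)
    ((ae_restrict_mem measurableSet_Ioi).mono fun _ ht => ResJ_G_nonneg a D b r ht)

theorem ResJ_inner (hD : 0 < D) (hs : 0 ≤ s) {t u : ℝ} (ht : 0 < t) (hu : 0 < u) :
    ∫⁻ r in Ioi (0 : ℝ), ENNReal.ofReal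
        (r ^ (2 * D - 1) * (2 * π * r) ^ s * ResJ_G a D b r t * ResJ_G a D b' r u)
      = ENNReal.ofReal (2 ^ (s - 1) * Real.Gamma (D + s / 2)) * ENNReal.ofReal
        (t ^ (b + s / 2 - 1) * u ^ (b' + s / 2 - 1) * (t + u) ^ (-(D + s / 2)) *
          Real.exp (-(1 / a * (t + u)))) := by
  have hπ := Real.pi_pos
  have hc : 0 < π ^ 2 * (t + u) / (t * u) := by positivity
  have hq : -1 < 2 * D - 1 + s := by linarith
  set K : ℝ := (2 * π) ^ s * (t ^ (b - 1) * Real.exp (-(t / a)) * (π / t) ^ D) *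
    (u ^ (b' - 1) * Real.exp (-(u / a)) * (π / u) ^ D) with hK
  have hK0 : 0 ≤ K := by positivity
  have h1 : ∀ r ∈ Ioi (0 : ℝ),
      r ^ (2 * D - 1) * (2 * π * r) ^ s * ResJ_G a D b r t * ResJ_G a D b' r u
        = K * (r ^ (2 * D - 1 + s) * Real.exp (-(π ^ 2 * (t + u) / (t * u)) * r ^ (2 : ℝ))) := by
    intro r hr
    have hr : 0 < r := hr
    have he : Real.exp (-(π ^ 2 * (t + u) / (t * u)) * r ^ (2 : ℝ))
        = Real.exp (-(π ^ 2 * r ^ 2 / t)) * Real.exp (-(π ^ 2 * r ^ 2 / u)) := by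
      rw [← Real.exp_add, Real.rpow_two]
      congr 1
      field_simp
      ring
    rw [he, Real.rpow_add hr, Real.mul_rpow (by positivity) hr.le, hK]
    unfold ResJ_G
    ring
  rw [setLIntegral_congr_fun measurableSet_Ioi fun r hr => congrArg ENNReal.ofReal (h1 r hr),
    ← ofReal_integral_eq_lintegral_ofReal
      ((integrableOn_rpow_mul_exp_neg_mul_rpow hq (by norm_num) hc).const_mul K)
      ((ae_restrict_mem measurableSet_Ioi).mono fun r hr => by
        have hr : 0 < r := hr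
        positivity),
    integral_const_mul, integral_rpow_mul_exp_neg_mul_rpow two_pos hq hc,
    ← ENNReal.ofReal_mul (mul_nonneg (by positivity) (Real.Gamma_nonneg_of_nonneg (by positivity)))]
  congr 1
  have h2 : (1 / 2 : ℝ) = Real.exp (-Real.log 2) := by
    rw [Real.exp_neg, Real.exp_log two_pos, one_div]
  rw [show (2 * D - 1 + s + 1) / 2 = D + s / 2 by ring, hK, h2, Real.rpow_def_of_pos hc,
    Real.rpow_def_of_pos (by positivity : 0 < 2 * π), Real.rpow_def_of_pos ht,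
    Real.rpow_def_of_pos ht, Real.rpow_def_of_pos hu, Real.rpow_def_of_pos hu,
    Real.rpow_def_of_pos (by positivity : 0 < π / t),
    Real.rpow_def_of_pos (by positivity : 0 < π / u), Real.rpow_def_of_pos two_pos,
    Real.rpow_def_of_pos (add_pos ht hu),
    Real.log_div (x := π ^ 2 * (t + u)) (by positivity) (by positivity),
    Real.log_mul (x := π ^ 2) (by positivity) (by positivity), Real.log_mul ht.ne' hu.ne',
    Real.log_mul two_ne_zero hπ.ne', Real.log_div hπ.ne' ht.ne', Real.log_div hπ.ne' hu.ne',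
    Real.log_pow]
  simp only [← Real.exp_add, ← mul_assoc]
  rw [mul_right_comm _ (Real.Gamma _), ← Real.exp_add]
  congr 2
  push_cast
  ring

theorem ResJ_total (ha : 0 < a) (hD : 0 < D) (hs : 0 ≤ s) (hb : 0 < b) (hb' : 0 < b')
    (h : D < b + b' + s / 2) :
    ∫⁻ r in Ioi (0 : ℝ), ENNReal.ofReal
      (r ^ (2 * D - 1) * ((2 * π * r) ^ s * (kap a D b r * kap a D b' r)))
      = ENNReal.ofReal (Jc a s D b b') := by
  have hπ := Real.pi_pos
  have g1 := Real.Gamma_pos_of_pos hb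
  have g2 := Real.Gamma_pos_of_pos hb'
  have g3 := Real.Gamma_pos_of_pos (show 0 < D + s / 2 by positivity)
  set C : ℝ := a ^ (-b) / Real.Gamma b * (a ^ (-b') / Real.Gamma b') with hC
  have hC0 : 0 ≤ C := by positivity
  have hm : ∀ b : ℝ, Measurable fun z : ℝ × ℝ => ResJ_G a D b z.1 z.2 := fun b => by
    unfold ResJ_G
    fun_prop
  have hH : Measurable fun z : (ℝ × ℝ) × ℝ => ENNReal.ofReal (z.1.1 ^ (2 * D - 1) *
      (2 * π * z.1.1) ^ s * ResJ_G a D b z.1.1 z.1.2 * ResJ_G a D b' z.1.1 z.2) := by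
    unfold ResJ_G
    fun_prop
  have h1 : ∀ r ∈ Ioi (0 : ℝ), ENNReal.ofReal
      (r ^ (2 * D - 1) * ((2 * π * r) ^ s * (kap a D b r * kap a D b' r)))
      = ENNReal.ofReal C * ∫⁻ t in Ioi (0 : ℝ), ∫⁻ u in Ioi (0 : ℝ), ENNReal.ofReal
        (r ^ (2 * D - 1) * (2 * π * r) ^ s * ResJ_G a D b r t * ResJ_G a D b' r u) := by
    intro r hr
    have hr : 0 < r := hr
    have hw : 0 ≤ r ^ (2 * D - 1) * (2 * π * r) ^ s := by positivity
    have e1 : r ^ (2 * D - 1) * ((2 * π * r) ^ s * (kap a D b r * kap a D b' r))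
        = C * (r ^ (2 * D - 1) * (2 * π * r) ^ s * (∫ t in Ioi (0 : ℝ), ResJ_G a D b r t) *
          ∫ u in Ioi (0 : ℝ), ResJ_G a D b' r u) := by
      unfold kap ResJ_G
      rw [hC]
      ring
    have hI : 0 ≤ ∫ t in Ioi (0 : ℝ), ResJ_G a D b r t :=
      setIntegral_nonneg measurableSet_Ioi fun t ht => ResJ_G_nonneg a D b r ht
    have m1 : Measurable fun t => ENNReal.ofReal (ResJ_G a D b r t) :=
      ((hm b).comp (measurable_const.prodMk measurable_id)).ennreal_ofReal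
    have m2 : Measurable fun t => ENNReal.ofReal (ResJ_G a D b' r t) :=
      ((hm b').comp (measurable_const.prodMk measurable_id)).ennreal_ofReal
    rw [e1, ENNReal.ofReal_mul hC0, ENNReal.ofReal_mul (mul_nonneg hw hI), ENNReal.ofReal_mul hw,
      ResJ_lint ha hr, ResJ_lint ha hr, ← lintegral_const_mul _ m1,
      ← lintegral_mul_const _ (m1.const_mul _)]
    congr 1
    refine setLIntegral_congr_fun measurableSet_Ioi fun t ht => ?_
    have hG := ResJ_G_nonneg a D b r ht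
    rw [← lintegral_const_mul _ m2]
    refine lintegral_congr fun u => ?_
    rw [ENNReal.ofReal_mul (mul_nonneg hw hG), ENNReal.ofReal_mul hw]
  rw [setLIntegral_congr_fun measurableSet_Ioi h1,
    lintegral_const_mul' _ _ ENNReal.ofReal_ne_top,
    lintegral_lintegral_swap (hH.lintegral_prod_right'.aemeasurable)]
  have h2 : ∀ t ∈ Ioi (0 : ℝ), ∫⁻ r in Ioi (0 : ℝ), ∫⁻ u in Ioi (0 : ℝ), ENNReal.ofReal
        (r ^ (2 * D - 1) * (2 * π * r) ^ s * ResJ_G a D b r t * ResJ_G a D b' r u)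
      = ENNReal.ofReal (2 ^ (s - 1) * Real.Gamma (D + s / 2)) * ∫⁻ u in Ioi (0 : ℝ), ENNReal.ofReal
        (t ^ (b + s / 2 - 1) * u ^ (b' + s / 2 - 1) * (t + u) ^ (-(D + s / 2)) *
          Real.exp (-(1 / a * (t + u)))) := by
    intro t ht
    rw [lintegral_lintegral_swap (f := fun r u => ENNReal.ofReal
      (r ^ (2 * D - 1) * (2 * π * r) ^ s * ResJ_G a D b r t * ResJ_G a D b' r u))
      ((hH.comp (f := fun z : ℝ × ℝ => ((z.1, t), z.2)) (by fun_prop)).aemeasurable),
      ← lintegral_const_mul' _ _ ENNReal.ofReal_ne_top]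
    exact setLIntegral_congr_fun measurableSet_Ioi fun u hu => ResJ_inner hD hs ht hu
  rw [setLIntegral_congr_fun measurableSet_Ioi h2, lintegral_const_mul' _ _ ENNReal.ofReal_ne_top,
    lint_two (one_div_pos.2 ha) (by positivity) (by positivity) (by positivity) (by linarith),
    ← ENNReal.ofReal_mul (by positivity), ← ENNReal.ofReal_mul hC0]
  congr 1
  have e2 : a ^ (s / 2 - D) = a ^ (-b) * a ^ (-b') *
      (1 / a) ^ (D + s / 2 - (b + s / 2 + (b' + s / 2))) := by
    rw [one_div, Real.inv_rpow ha.le, ← Real.rpow_neg ha.le, ← Real.rpow_add ha,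
      ← Real.rpow_add ha]
    congr 1
    ring
  unfold Jc
  rw [e2, hC, show b + s / 2 + (b' + s / 2) - (D + s / 2) = b + b' + s / 2 - D by ring,
    show b + b' + s = b + s / 2 + (b' + s / 2) by ring]
  ring

/-- Tonelli in r, t, u; the `r` integral is Gaussian
(`integral_rpow_mul_exp_neg_mul_rpow`), then `lint_two` with `m = 1 / a`, `M = D + s / 2`,
`β = b + s / 2`, `β' = b' + s / 2`. -/
theorem int_kap (ha : 0 < a) (hD : 0 < D) (hs : 0 ≤ s) (hb : 0 < b) (hb' : 0 < b')
    (h : D < b + b' + s / 2) :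
    IntegrableOn (fun r : ℝ => r ^ (2 * D - 1) * ((2 * π * r) ^ s * (kap a D b r * kap a D b' r)))
      (Ioi 0) ∧
    ∫ r in Ioi (0 : ℝ), r ^ (2 * D - 1) * ((2 * π * r) ^ s * (kap a D b r * kap a D b' r))
      = Jc a s D b b' := by
  have hπ := Real.pi_pos
  have hn : 0 ≤ᵐ[volume.restrict (Ioi (0 : ℝ))] fun r : ℝ =>
      r ^ (2 * D - 1) * ((2 * π * r) ^ s * (kap a D b r * kap a D b' r)) :=
    (ae_restrict_mem measurableSet_Ioi).mono fun r hr => by
      have hr : 0 < r := hr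
      have k1 := kap_nonneg ha hb D r
      have k2 := kap_nonneg ha hb' D r
      positivity
  have k1 := kap_measurable a D b
  have k2 := kap_measurable a D b'
  have hm : Measurable fun r : ℝ =>
      r ^ (2 * D - 1) * ((2 * π * r) ^ s * (kap a D b r * kap a D b' r)) := by fun_prop
  have hT := ResJ_total ha hD hs hb hb' h
  have hJ : 0 ≤ Jc a s D b b' := by
    have g1 := Real.Gamma_pos_of_pos hb
    have g2 := Real.Gamma_pos_of_pos hb'
    have g3 := Real.Gamma_pos_of_pos (show 0 < D + s / 2 by positivity)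
    have g4 := Real.Gamma_pos_of_pos (show 0 < b + s / 2 by positivity)
    have g5 := Real.Gamma_pos_of_pos (show 0 < b' + s / 2 by positivity)
    have g6 := Real.Gamma_pos_of_pos (show 0 < b + b' + s / 2 - D by linarith)
    have g7 := Real.Gamma_pos_of_pos (show 0 < b + b' + s by positivity)
    unfold Jc
    positivity
  refine ⟨⟨hm.aestronglyMeasurable, (hasFiniteIntegral_iff_ofReal hn).2 ?_⟩, ?_⟩
  · rw [hT]
    exact ENNReal.ofReal_lt_top
  · rw [integral_eq_lintegral_of_nonneg_ae hn hm.aestronglyMeasurable, hT,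
      ENNReal.toReal_ofReal hJ]

theorem int_K (ha : 0 < a) (hs : 0 ≤ s) (l : ℕ) (R R' : Rad) (he : 0 < R.e) (he' : 0 < R'.e)
    (h : 4 * (l : ℝ) + 6 < R.e + R'.e + 2 * s) :
    IntegrableOn (fun r : ℝ => r ^ (2 * l + 2) * ((2 * π * r) ^ s * (R.K a l r * R'.K a l r)))
      (Ioi 0) ∧
    ∫ r in Ioi (0 : ℝ), r ^ (2 * l + 2) * ((2 * π * r) ^ s * (R.K a l r * R'.K a l r))
      = JQ a s l R R' := by
  have key : ∀ j k : ℕ, _ := fun j k => int_kap (D := l + 3 / 2) (b := ((R.e + j : ℕ) : ℝ) / 4)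
    (b' := ((R'.e + k : ℕ) : ℝ) / 4) ha (by positivity) hs
    (div_pos (Nat.cast_pos.2 (by omega)) (by norm_num))
    (div_pos (Nat.cast_pos.2 (by omega)) (by norm_num)) (by
      have hj : (0 : ℝ) ≤ j := j.cast_nonneg
      have hk : (0 : ℝ) ≤ k := k.cast_nonneg
      push_cast
      linarith)
  have e : (fun r : ℝ => r ^ (2 * l + 2) * ((2 * π * r) ^ s * (R.K a l r * R'.K a l r)))
      = fun r : ℝ => ∑ j ∈ Finset.range R.N, ∑ k ∈ Finset.range R'.N, R.c j * R'.c k *
        (r ^ (2 * ((l : ℝ) + 3 / 2) - 1) * ((2 * π * r) ^ s *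
          (kap a (l + 3 / 2) (((R.e + j : ℕ) : ℝ) / 4) r *
            kap a (l + 3 / 2) (((R'.e + k : ℕ) : ℝ) / 4) r))) := by
    funext r
    rw [show 2 * ((l : ℝ) + 3 / 2) - 1 = ((2 * l + 2 : ℕ) : ℝ) by push_cast; ring,
      Real.rpow_natCast]
    unfold Rad.K
    rw [Finset.sum_mul_sum]
    simp only [Finset.mul_sum]
    exact Finset.sum_congr rfl fun j _ => Finset.sum_congr rfl fun k _ => by ring
  rw [e]
  refine ⟨integrable_finsetSum _ fun j _ => integrable_finsetSum _ fun k _ =>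
    (key j k).1.const_mul _, ?_⟩
  rw [integral_finsetSum _ fun j _ => integrable_finsetSum _ fun k _ => (key j k).1.const_mul _]
  refine Finset.sum_congr rfl fun j _ => ?_
  rw [integral_finsetSum _ fun k _ => (key j k).1.const_mul _]
  exact Finset.sum_congr rfl fun k _ => by rw [integral_const_mul, (key j k).2]

theorem Rad.K_measurable (R : Rad) (a : ℝ) (l : ℕ) : Measurable (R.K a l) :=
  Finset.measurable_sum _ fun _ _ => (kap_measurable _ _ _).const_mul _

end Pool.Agent.Work.MP_6bf1e5_an.H
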