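import Pool.Agent.Work.MP_6bf1e5_an.H.ResFV
import Pool.Agent.Work.MP_6bf1e5_an.H.ResMix
import Pool.Agent.Work.MP_6bf1e5_an.H.ResJ
import Pool.Agent.Work.MP_6bf1e5_an.H.DynHinf

/-! The squared norms of the nonlocal part of the residual. -/

open scoped ContDiff ENNReal FourierTransform Real
open Set MeasureTheory

namespace Pool.Agent.Work.MP_6bf1e5_an.H

variable {a ν : ℝ} {L : Finset ℕ} {f s b c : ℕ → Rad}

/-- The conditions on the leading exponents. -/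
def ResOK (L : Finset ℕ) (f s b c : ℕ → Rad) : Prop :=
  ∀ l ∈ L, Even l ∧ 1 ≤ l ∧ 2 * l ≤ (f l).e + 1 ∧ 2 * l + 1 ≤ (s l).e ∧ 2 * l + 4 ≤ (b l).e ∧
    2 * l + 2 ≤ (c l).e

/-- The nonlocal part plus the approximate local part. -/
noncomputable def resR (a ν : ℝ) (L : Finset ℕ) (f s b c : ℕ → Rad) : Vc := fun i y =>
  ν * Lam (curl (fld (TR a L f) (TR a L s)) i) y + fld (TR a L c) (TR a L b) i y

theorem RepA.congr_fun {g g' : Sc} {F F' : R3 → ℂ} (h : RepA g F) (h1 : ∀ y, g y = g' y)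
    (h2 : ∀ ξ, F ξ = F' ξ) : RepA g' F' := by
  rw [← funext h1, ← funext h2]; exact h

theorem rep_curl {V : Vc} {F : Fin 3 → R3 → ℂ} (h : ∀ i, RepA (V i) (F i)) (i : Fin 3) :
    RepA (curl V i) (FC F i) := by
  refine (((h (i + 2)).pd (i + 1)).add (((h (i + 1)).pd (i + 2)).smul (-1))).congr_fun
    (fun y => ?_) fun ξ => ?_
  · simp only [Pi.add_apply, curl]; ring
  · simp only [Pi.add_apply, FC]; push_cast; ring

theorem rep_TR (ha : 0 < a) {R : ℕ → Rad} (h : ∀ l ∈ L, 2 * l < (R l).e) (i : Fin 3) :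
    RepA (TR a L R i) (FV L (fun l => (R l).K a l) i) :=
  RepA.sum L fun l hl => rep_rad ha (harm_TT l i) (R l) (h l hl)

theorem resForm_term_smooth (ha : 0 < a) (R : Rad) (l : ℕ) (i : Fin 3) :
    ContDiff ℝ ∞ fun y => R.f (tau a y) * TT l i y :=
  (ContDiff.sum fun _ _ => contDiff_const.mul ((tau_smooth ha).pow _)).mul (harm_TT l i).smooth

theorem TR_smooth (ha : 0 < a) (L : Finset ℕ) (R : ℕ → Rad) (i : Fin 3) :
    ContDiff ℝ ∞ (TR a L R i) :=
  ContDiff.sum fun l _ => resForm_term_smooth ha (R l) l i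

theorem resForm_lap_sum {ι : Type} (t : Finset ι) {F : ι → Sc} (hF : ∀ i ∈ t, ContDiff ℝ ∞ (F i))
    (y : R3) : lap (fun y => ∑ i ∈ t, F i y) y = ∑ i ∈ t, lap (F i) y := by
  unfold lap
  rw [Finset.sum_comm]
  refine Finset.sum_congr rfl fun j _ => ?_
  rw [Dyn.pd_sum t hF, Dyn.pd_sum t fun i hi => Dyn.pd_smooth (hF i hi) j]

theorem resForm_curl_add {U V : Vc} (hU : ∀ i, ContDiff ℝ ∞ (U i)) (hV : ∀ i, ContDiff ℝ ∞ (V i))
    (i : Fin 3) (y : R3) : curl (U + V) i y = curl U i y + curl V i y := by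
  have h : ∀ k j, pd j ((U + V) k) y = pd j (U k) y + pd j (V k) y := fun k j =>
    congrFun (Dyn.pd_add (hU k) (hV k) j) y
  simp only [curl, h]; ring

theorem rep_W (ha : 0 < a) (h : ResOK L f s b c) (i : Fin 3) :
    RepA (curl (fld (TR a L f) (TR a L s)) i) fun ξ => FC (FV L fun l => (s l).K a l) i ξ
      + FV L (fun l r => (2 * π * r) ^ 2 * (f l).K a l r) i ξ := by
  have h1 := rep_curl (fun i => rep_TR ha (R := s) (L := L)
    (fun l hl => by have := (h l hl).2.2.2.1; omega) i) i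
  have h2 := RepA.sum L fun l hl => rep_lap ha (harm_TT l i) (f l)
    (by have := (h l hl).2.2.1; have := (h l hl).2.1; omega)
    (by have := (h l hl).2.2.1; omega)
  refine (h1.add h2).congr_fun (fun y => ?_) fun ξ => rfl
  rw [fld, resForm_curl_add (Dyn.curl_smooth (TR_smooth ha L f)) (TR_smooth ha L s),
    curl_curl_of_dvg (TR_smooth ha L f) (dvg_TR ha L f), Pi.add_apply, add_comm]
  congr 1
  have h3 := resForm_lap_sum L (fun l _ => resForm_term_smooth ha (f l) l i) y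
  rw [Finset.sum_neg_distrib, ← h3]
  rfl

theorem resForm_FV_lin (μ : ℝ → ℝ) (α β : ℕ → ℝ → ℝ) (i : Fin 3) (ξ : R3) :
    FV L (fun l r => μ r * α l r + β l r) i ξ = (μ ‖ξ‖ : ℝ) * FV L α i ξ + FV L β i ξ := by
  simp only [FV, Finset.mul_sum, ← Finset.sum_add_distrib]
  refine Finset.sum_congr rfl fun l _ => ?_
  push_cast; ring

theorem rep_resR (ha : 0 < a) (h : ResOK L f s b c) (i : Fin 3) :
    RepA (resR a ν L f s b c i) fun ξ =>
      FC (FV L fun l r => ν * (2 * π * r) ^ (3 / 2 : ℝ) * (s l).K a l r + (c l).K a l r) i ξ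
      + FV L (fun l r => ν * (2 * π * r) ^ (7 / 2 : ℝ) * (f l).K a l r + (b l).K a l r) i ξ := by
  have h1 := ((rep_W ha h i).Dp (s := 3 / 2) (by norm_num)).smul ν
  have h2 := rep_curl (fun i => rep_TR ha (R := c) (L := L)
    (fun l hl => by have := (h l hl).2.2.2.2.2; omega) i) i
  have h3 := rep_TR ha (R := b) (L := L) (fun l hl => by have := (h l hl).2.2.2.2.1; omega) i
  refine (h1.add (h2.add h3)).congr_fun (fun y => rfl) fun ξ => ?_
  have e1 : ∀ k, FV L (fun l r => ν * (2 * π * r) ^ (3 / 2 : ℝ) * (s l).K a l r + (c l).K a l r) k ξ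
      = _ := fun k => resForm_FV_lin (fun r => ν * (2 * π * r) ^ (3 / 2 : ℝ)) _ _ k ξ
  have e2 : FV L (fun l r => ν * (2 * π * r) ^ (7 / 2 : ℝ) * (f l).K a l r + (b l).K a l r) i ξ
      = _ := resForm_FV_lin (fun r => ν * (2 * π * r) ^ (7 / 2 : ℝ)) _ _ i ξ
  have e3 : FV L (fun l r => (2 * π * r) ^ 2 * (f l).K a l r) i ξ
      = (((2 * π * ‖ξ‖) ^ 2 : ℝ) : ℂ) * FV L (fun l => (f l).K a l) i ξ := by
    simp only [FV, Finset.mul_sum]
    refine Finset.sum_congr rfl fun l _ => ?_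
    push_cast; ring
  have e4 : (2 * π * ‖ξ‖) ^ (7 / 2 : ℝ) = (2 * π * ‖ξ‖) ^ (3 / 2 : ℝ) * (2 * π * ‖ξ‖) ^ 2 := by
    rw [← Real.rpow_natCast, ← Real.rpow_add' (by positivity) (by norm_num)]; norm_num
  simp only [Pi.add_apply, FC, e1, e2, e3, e4, sy]
  push_cast; ring

theorem resForm_quad (ha : 0 < a) {p σ : ℝ} (hp : 0 ≤ p) (hσ : 0 ≤ σ) (l : ℕ) (R R' : Rad)
    (he : 0 < R.e) (he' : 0 < R'.e) (h1 : 4 * (l : ℝ) + 6 < R.e + R.e + 2 * (2 * p + σ))
    (h2 : 4 * (l : ℝ) + 6 < R'.e + R'.e + 2 * σ) :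
    IntegrableOn (fun r : ℝ => r ^ (2 * l + 2) *
      ((2 * π * r) ^ σ * (ν * (2 * π * r) ^ p * R.K a l r + R'.K a l r) ^ 2)) (Ioi 0) ∧
    ∫ r in Ioi (0 : ℝ), r ^ (2 * l + 2) *
      ((2 * π * r) ^ σ * (ν * (2 * π * r) ^ p * R.K a l r + R'.K a l r) ^ 2) =
      ν ^ 2 * JQ a (2 * p + σ) l R R + 2 * ν * JQ a (p + σ) l R R' + JQ a σ l R' R' := by
  obtain ⟨i1, v1⟩ := int_K ha (s := 2 * p + σ) (by positivity) l R R he he h1
  obtain ⟨i2, v2⟩ := int_K ha (s := p + σ) (by positivity) l R R' he he' (by linarith)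
  obtain ⟨i3, v3⟩ := int_K ha hσ l R' R' he' he' h2
  have e : EqOn (fun r : ℝ => ν ^ 2 * (r ^ (2 * l + 2) * ((2 * π * r) ^ (2 * p + σ) *
      (R.K a l r * R.K a l r))) + 2 * ν * (r ^ (2 * l + 2) * ((2 * π * r) ^ (p + σ) *
      (R.K a l r * R'.K a l r))) + r ^ (2 * l + 2) * ((2 * π * r) ^ σ * (R'.K a l r * R'.K a l r)))
      (fun r : ℝ => r ^ (2 * l + 2) *
        ((2 * π * r) ^ σ * (ν * (2 * π * r) ^ p * R.K a l r + R'.K a l r) ^ 2)) (Ioi 0) := by
    intro r hr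
    have h0 : 0 < 2 * π * r := by have : 0 < r := hr; positivity
    simp only [two_mul p, Real.rpow_add h0]
    ring
  have j1 := i1.const_mul (ν ^ 2)
  have j2 := i2.const_mul (2 * ν)
  refine ⟨IntegrableOn.congr_fun ((j1.add j2).add i3) e measurableSet_Ioi, ?_⟩
  rw [← setIntegral_congr_fun measurableSet_Ioi e, integral_add (j1.fun_add j2) i3, integral_add j1 j2,
    integral_const_mul, integral_const_mul, v1, v2, v3]

/-- The Fourier transform of `resR`. -/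
noncomputable def resF (a ν : ℝ) (L : Finset ℕ) (f s b c : ℕ → Rad) (i : Fin 3) (ξ : R3) : ℂ :=
  FC (FV L fun l r => ν * (2 * π * r) ^ (3 / 2 : ℝ) * (s l).K a l r + (c l).K a l r) i ξ
    + FV L (fun l r => ν * (2 * π * r) ^ (7 / 2 : ℝ) * (f l).K a l r + (b l).K a l r) i ξ

theorem resForm_meas (ν p : ℝ) (R R' : Rad) (l : ℕ) :
    Measurable fun r => ν * (2 * π * r) ^ p * R.K a l r + R'.K a l r :=
  ((measurable_const.mul ((measurable_const.mul measurable_id).pow_const p)).mul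
    (R.K_measurable a l)).add (R'.K_measurable a l)

theorem resF_int (ha : 0 < a) (h : ResOK L f s b c) {σ : ℝ} (hσ : 0 ≤ σ) :
    Integrable (fun ξ : R3 => (2 * π * ‖ξ‖) ^ σ * ∑ i, ‖resF a ν L f s b c i ξ‖ ^ 2) ∧
    ∫ ξ : R3, (2 * π * ‖ξ‖) ^ σ * ∑ i, ‖resF a ν L f s b c i ξ‖ ^ 2 =
      ∑ l ∈ L, RQ a ν σ l (f l) (s l) (b l) (c l) := by
  have hw : ∀ q : ℝ, Measurable fun r : ℝ => (2 * π * r) ^ q := fun q =>
    (measurable_const.mul measurable_id).pow_const q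
  have hw0 : ∀ q r : ℝ, 0 < r → 0 ≤ (2 * π * r) ^ q := fun q r hr => by positivity
  have hT := fun l (hl : l ∈ L) => resForm_quad (ν := ν) ha (p := 7 / 2) (by norm_num) hσ l (f l)
    (b l) (by have := (h l hl).2.2.1; have := (h l hl).2.1; omega)
    (by have := (h l hl).2.2.2.2.1; omega)
    (by have : (2 * l : ℝ) ≤ (f l).e + 1 := by exact_mod_cast (h l hl).2.2.1
        linarith)
    (by have : (2 * l + 4 : ℝ) ≤ (b l).e := by exact_mod_cast (h l hl).2.2.2.2.1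
        linarith)
  have hP := fun l (hl : l ∈ L) => resForm_quad (ν := ν) ha (p := 3 / 2) (σ := 2 + σ)
    (by norm_num) (by linarith) l (s l) (c l) (by have := (h l hl).2.2.2.1; omega)
    (by have := (h l hl).2.2.2.2.2; omega)
    (by have : (2 * l + 1 : ℝ) ≤ (s l).e := by exact_mod_cast (h l hl).2.2.2.1
        linarith)
    (by have : (2 * l + 2 : ℝ) ≤ (c l).e := by exact_mod_cast (h l hl).2.2.2.2.2
        linarith)
  obtain ⟨i1, v1⟩ := int_FV (L := L) (fun l _ => resForm_meas ν (7 / 2) (f l) (b l) l) (hw σ)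
    (hw0 σ) fun l hl => (hT l hl).1
  obtain ⟨i2, v2⟩ := int_FV (L := L) (fun l _ => resForm_meas ν (3 / 2) (s l) (c l) l)
    (hw (2 + σ)) (hw0 (2 + σ)) fun l hl => (hP l hl).1
  have e : ∀ ξ : R3, (2 * π * ‖ξ‖) ^ σ * ∑ i, ‖resF a ν L f s b c i ξ‖ ^ 2 =
      (2 * π * ‖ξ‖) ^ σ * ∑ i, ‖FV L (fun l r => ν * (2 * π * r) ^ (7 / 2 : ℝ) * (f l).K a l r
        + (b l).K a l r) i ξ‖ ^ 2 + (2 * π * ‖ξ‖) ^ (2 + σ) * ∑ i, ‖FV L (fun l r =>
        ν * (2 * π * r) ^ (3 / 2 : ℝ) * (s l).K a l r + (c l).K a l r) i ξ‖ ^ 2 := by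
    intro ξ
    unfold resF
    rw [sq_FC_add, Real.rpow_add' (by positivity) (by linarith), Real.rpow_two]
    ring
  simp only [e]
  refine ⟨i1.add i2, ?_⟩
  rw [integral_add i1 i2, v1, v2, ← Finset.sum_add_distrib]
  refine Finset.sum_congr rfl fun l hl => ?_
  rw [(hT l hl).2, (hP l hl).2, RQ, ← mul_add]
  rw [show 2 * (7 / 2 : ℝ) + σ = 7 + σ by ring, show 2 * (3 / 2 : ℝ) + (2 + σ) = 5 + σ by ring,
    show (3 / 2 : ℝ) + (2 + σ) = 7 / 2 + σ by ring]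

theorem RepH.sq_int {g : Sc} {F : R3 → ℂ} (h : RepH g F) :
    Integrable (fun ξ => ‖F ξ‖ ^ 2) ∧ ∫ y, g y ^ 2 = ∫ ξ, ‖F ξ‖ ^ 2 := by
  have hF : MemLp F 2 volume := by simpa using h.2 0
  refine ⟨(memLp_two_iff_integrable_sq_norm hF.1).1 hF, ?_⟩
  have h1 := (parseval h.1 h.1 hF hF).2
  simp only [Complex.mul_conj, Complex.normSq_eq_norm_sq] at h1
  rw [integral_complex_ofReal, Complex.ofReal_re] at h1
  simpa only [pow_two] using h1

theorem repH_resR (ha : 0 < a) (h : ResOK L f s b c) (i : Fin 3) :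
    RepH (resR a ν L f s b c i) (resF a ν L f s b c i) := by
  have hr : RepA (resR a ν L f s b c i) (resF a ν L f s b c i) := rep_resR ha h i
  have hm : AEStronglyMeasurable (resF a ν L f s b c i) volume := by
    simpa using (hr.1 0).aestronglyMeasurable
  refine repH_of_sq hm (fun k => ?_) hr.2
  have i0 := (resF_int (ν := ν) ha h (σ := 0) le_rfl).1
  have ik := (resF_int (ν := ν) ha h (σ := (2 * k : ℕ)) (by positivity)).1
  have hI := ((i0.add ik).const_mul (2 ^ (k - 1))).2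
  refine lt_of_le_of_lt (lintegral_mono fun ξ => ?_) hI
  have h0 : (0 : ℝ) ≤ ∑ i, ‖resF a ν L f s b c i ξ‖ ^ 2 := by positivity
  have h1 : ‖resF a ν L f s b c i ξ‖ ^ 2 ≤ ∑ i, ‖resF a ν L f s b c i ξ‖ ^ 2 :=
    Finset.single_le_sum (f := fun i => ‖resF a ν L f s b c i ξ‖ ^ 2) (fun _ _ => by positivity)
      (Finset.mem_univ i)
  have h2 : (1 + ‖ξ‖ ^ 2) ^ k ≤ 2 ^ (k - 1) * (1 + (2 * π * ‖ξ‖) ^ (2 * k)) := by
    refine (add_pow_le zero_le_one (by positivity) k).trans ?_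
    rw [one_pow, pow_mul]
    have : ‖ξ‖ ≤ 2 * π * ‖ξ‖ := by nlinarith [Real.pi_gt_three, norm_nonneg ξ]
    gcongr
  rw [← ofReal_norm, ← ENNReal.ofReal_pow (norm_nonneg _),
    ← ENNReal.ofReal_mul (by positivity), ← ofReal_norm]
  refine ENNReal.ofReal_le_ofReal (le_trans ?_ (le_abs_self _))
  simp only [Pi.add_apply, Real.rpow_zero, Real.rpow_natCast]
  calc _ ≤ 2 ^ (k - 1) * (1 + (2 * π * ‖ξ‖) ^ (2 * k)) * ∑ i, ‖resF a ν L f s b c i ξ‖ ^ 2 := by
        gcongr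
    _ = _ := by ring

theorem res_form (ha : 0 < a) (h : ResOK L f s b c) :
    (∀ i, Hinf (resR a ν L f s b c i)) ∧
    nw 1 (resR a ν L f s b c) = ∑ l ∈ L, RQ a ν 0 l (f l) (s l) (b l) (c l) ∧
    gw 1 (resR a ν L f s b c) = ∑ l ∈ L, RQ a ν 2 l (f l) (s l) (b l) (c l) := by
  have hH := fun i => repH_resR (ν := ν) ha h i
  refine ⟨fun i => (hH i).hinf, ?_, ?_⟩
  · rw [Dyn.nw_one fun i => (hH i).hinf, ← (resF_int ha h le_rfl).2]
    simp only [Real.rpow_zero, one_mul]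
    rw [integral_finsetSum _ fun i _ => (hH i).sq_int.1]
    exact Finset.sum_congr rfl fun i _ => (hH i).sq_int.2
  · rw [Dyn.gw_one fun i => (hH i).hinf, ← (resF_int ha h zero_le_two).2]
    have e : ∀ ξ : R3, (2 * π * ‖ξ‖) ^ (2 : ℝ) * ∑ i, ‖resF a ν L f s b c i ξ‖ ^ 2 = ∑ i, ∑ j,
        ‖2 * π * Complex.I * (ξ j : ℝ) * resF a ν L f s b c i ξ‖ ^ 2 := by
      intro ξ
      rw [Real.rpow_two, Finset.mul_sum]
      refine Finset.sum_congr rfl fun i _ => ?_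
      simp only [norm_mul, Complex.norm_I, Complex.norm_real, Complex.norm_ofNat, mul_pow,
        Real.norm_eq_abs, sq_abs, EuclideanSpace.real_norm_sq_eq, Finset.mul_sum, Finset.sum_mul,
        mul_one]
    simp only [e]
    rw [integral_finsetSum _ fun i _ => integrable_finsetSum _ fun j _ => ((hH i).pd j).sq_int.1]
    refine Finset.sum_congr rfl fun i _ => ?_
    rw [integral_finsetSum _ fun j _ => ((hH i).pd j).sq_int.1]
    exact Finset.sum_congr rfl fun j _ => ((hH i).pd j).sq_int.2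

end Pool.Agent.Work.MP_6bf1e5_an.H
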