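import Pool.Agent.Work.MP_6bf1e5_an.H.ResRad
import Pool.Agent.Work.MP_6bf1e5_an.H.ResLocA

/-! The local part of the residual decays like `|y| ^ (-2)`. -/

open scoped ContDiff ENNReal FourierTransform Real
open Set MeasureTheory

namespace Pool.Agent.Work.MP_6bf1e5_an.H

variable {a : ℝ} {l : ℕ} {P : Sc} {L : Finset ℕ}

theorem ResLoc_scal (ha : 0 < a) (h : Hom l P) {c m : ℝ} {k : ℕ}
    (h1 : c + 2 / 3 * (l - k / 2) = 0 ∨ (l : ℝ) - k / 2 ≤ m) (h2 : (l : ℝ) - k / 2 - 2 ≤ m) :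
    Sym m fun y => c * (tau a y ^ k * P y) + 2 / 3 * yd (fun y => tau a y ^ k * P y) y := by
  have e : (fun y => c * (tau a y ^ k * P y) + 2 / 3 * yd (fun y => tau a y ^ k * P y) y) =
      fun y => (c + 2 / 3 * (l - k / 2)) * (tau a y ^ k * P y) +
        k / 3 * (tau a y ^ (k + 4) * P y) := by
    funext y
    rw [yd_tau_mul ha h]
    ring
  rw [e]
  refine ResLoc_add ?_ (ResLoc_cmul (ResLoc_mono (sym_tau_mul ha h _) (by push_cast; linarith)) _)
  rcases h1 with h1 | h1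
  · simpa only [h1, zero_mul] using ResLoc_zero m
  · exact ResLoc_cmul (ResLoc_mono (sym_tau_mul ha h k) h1) _

/-- By `yd_tau_mul` the coefficient of `tau ^ k * P` vanishes for `k = 2 l + 3`. -/
theorem sym_scal_tor (ha : 0 < a) (h : Hom l P) {k : ℕ} (hk : 2 * l + 3 ≤ k) :
    Sym (-2) fun y => tau a y ^ k * P y + 2 / 3 * yd (fun y => tau a y ^ k * P y) y := by
  have h1 : (2 * l + 3 : ℝ) ≤ k := by exact_mod_cast hk
  have h2 := ResLoc_scal ha h (c := 1) (m := -2) (k := k) (hk.eq_or_lt.imp (fun e => by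
    rw [← e]
    push_cast
    ring) fun e => by
      have : (2 * l + 3 + 1 : ℝ) ≤ k := by exact_mod_cast e
      linarith) (by linarith)
  simpa only [one_mul] using h2

/-- The coefficient of `tau ^ k * P` vanishes for `k = 2 l + 1`. -/
theorem sym_scal_pol (ha : 0 < a) (h : Hom l P) {k : ℕ} (hk : 2 * l + 1 ≤ k) :
    Sym (-1) fun y => 1 / 3 * (tau a y ^ k * P y) + 2 / 3 * yd (fun y => tau a y ^ k * P y) y := by
  have h1 : (2 * l + 1 : ℝ) ≤ k := by exact_mod_cast hk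
  refine ResLoc_scal ha h (hk.eq_or_lt.imp (fun e => ?_) fun e => ?_) (by linarith)
  · rw [← e]
    push_cast
    ring
  · have : (2 * l + 1 + 1 : ℝ) ≤ k := by exact_mod_cast e
    linarith

theorem yd_pd {f : Sc} (hf : ContDiff ℝ ∞ f) (j : Fin 3) (y : R3) :
    yd (pd j f) y = pd j (yd f) y - pd j f y := by
  rw [Dyn.pd_yd hf, add_sub_cancel_left]

theorem ResLoc_TR (a : ℝ) (L : Finset ℕ) (R : ℕ → Rad) (i : Fin 3) : TR a L R i = fun y =>
    ∑ x ∈ L.sigma fun l => Finset.range (R l).N,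
      (R x.1).c x.2 * (tau a y ^ ((R x.1).e + x.2) * TT x.1 i y) := by
  funext y
  simp only [TR, TF, Rad.f, Finset.sum_sigma, Finset.sum_mul, mul_assoc]

theorem ResLoc_lin {ι : Type} (t : Finset ι) {F : ι → Sc} (b : ι → ℝ) {c m : ℝ}
    (hF : ∀ i ∈ t, ContDiff ℝ ∞ (F i))
    (h : ∀ i ∈ t, Sym m fun y => c * F i y + 2 / 3 * yd (F i) y) :
    Sym m fun y => c * ∑ i ∈ t, b i * F i y + 2 / 3 * yd (fun y => ∑ i ∈ t, b i * F i y) y := by
  convert ResLoc_sum t fun i hi => ResLoc_cmul (h i hi) (b i) using 2 with y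
  rw [Dyn.yd_sum t fun i hi => contDiff_const.mul (hF i hi), Finset.mul_sum, Finset.mul_sum,
    ← Finset.sum_add_distrib]
  refine Finset.sum_congr rfl fun i hi => ?_
  simp only [yd, Dyn.pd_cmul (hF i hi), Fin.sum_univ_three]
  ring

theorem ResLoc_lap {ι : Type} (t : Finset ι) {F : ι → Sc} (b : ι → ℝ)
    (hF : ∀ i ∈ t, ContDiff ℝ ∞ (F i)) (y : R3) :
    lap (fun y => ∑ i ∈ t, b i * F i y) y = ∑ i ∈ t, b i * lap (F i) y := by
  have e : ∀ j {G : ι → Sc}, (∀ i ∈ t, ContDiff ℝ ∞ (G i)) →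
      pd j (fun y => ∑ i ∈ t, b i * G i y) = fun y => ∑ i ∈ t, b i * pd j (G i) y :=
    fun j G hG => by
      rw [Dyn.pd_sum t fun i hi => contDiff_const.mul (hG i hi)]
      exact funext fun y => Finset.sum_congr rfl fun i hi => by rw [Dyn.pd_cmul (hG i hi)]
  simp only [lap, fun j => e j hF, fun j => e j fun i hi => Dyn.pd_smooth (hF i hi) j,
    Finset.mul_sum]
  exact Finset.sum_comm

/-- `curl (curl Ψ) = -lap Ψ` is a sum of terms `tau ^ k * T_l` with `2 l + 3 ≤ k`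
(`curl_curl_of_dvg`, `lap_tau_mul`); `curl S + 2 / 3 yd (curl S) = curl (S / 3 + 2 / 3 yd S)`
by `yd_pd`; the quadratic term has order `-3`. -/
theorem sym_loc (ha : 0 < a) {f s : ℕ → Rad}
    (h : ∀ l ∈ L, 2 * l ≤ (f l).e + 1 ∧ 2 * l + 1 ≤ (s l).e) (i : Fin 3) :
    Sym (-2) (loc (fld (TR a L f) (TR a L s)) i) := by
  have sm : ∀ (k l : ℕ) i, ContDiff ℝ ∞ fun y => tau a y ^ k * TT l i y := fun k l i =>
    (sym_tau_mul ha (harm_TT l i).toHom k).1
  have s1 : ∀ i, Sym (1 / 2) (TR a L f i) := sym_TR ha fun l hl => by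
    have : (2 * l : ℝ) ≤ (f l).e + 1 := by exact_mod_cast (h l hl).1
    linarith
  have s2 : ∀ i, Sym (1 / 2 - 1) (TR a L s i) := sym_TR ha fun l hl => by
    have : (2 * l + 1 : ℝ) ≤ (s l).e := by exact_mod_cast (h l hl).2
    linarith
  have s3 : ∀ i, Sym (1 / 2 - 1) (fld (TR a L f) (TR a L s) i) := fun i =>
    ResLoc_add (ResLoc_curl s1 i) (s2 i)
  have s4 := ResLoc_mono (ResLoc_curl (ResLoc_cross s3 (ResLoc_curl s3)) i)
    (show _ ≤ (-2 : ℝ) by norm_num)
  have p1 : ∀ i j, Sym (-1 - 1) fun y =>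
      pd j (TR a L s i) y + 2 / 3 * yd (pd j (TR a L s i)) y := fun i j => by
    have h1 := ResLoc_pd (ResLoc_lin (L.sigma fun l => Finset.range (s l).N)
      (fun x => (s x.1).c x.2) (fun x _ => sm ((s x.1).e + x.2) x.1 i) fun x hx =>
      sym_scal_pol ha (harm_TT x.1 i).toHom
        ((h _ (Finset.mem_sigma.1 hx).1).2.trans (Nat.le_add_right _ _))) j
    simp only [← congrFun (ResLoc_TR a L s i)] at h1
    rw [Dyn.pd_add (contDiff_const.mul (s2 i).1) (contDiff_const.mul (Dyn.yd_smooth (s2 i).1)),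
      Dyn.pd_cmul (s2 i).1, Dyn.pd_cmul (Dyn.yd_smooth (s2 i).1), Dyn.pd_yd (s2 i).1] at h1
    convert h1 using 2 with y
    ring
  have p2 : Sym (-2) fun y => 1 * curl (curl (TR a L f)) i y +
      2 / 3 * yd (curl (curl (TR a L f)) i) y := by
    have e : curl (curl (TR a L f)) i = fun y =>
        ∑ x ∈ (L.sigma fun l => Finset.range (f l).N) ×ˢ Finset.range 2,
          (f x.1.1).c x.1.2 * a * ((f x.1.1).e + x.1.2 : ℕ) / 4 * (if x.2 = 0 then
            4 * x.1.1 + 2 - ((f x.1.1).e + x.1.2 : ℕ) else ((f x.1.1).e + x.1.2 : ℕ) + 4 : ℝ) *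
          (tau a y ^ ((f x.1.1).e + x.1.2 + 4 + 4 * x.2) * TT x.1.1 i y) := by
      funext y
      rw [curl_curl_of_dvg (fun i => (s1 i).1) (dvg_TR ha L f), ResLoc_TR,
        ResLoc_lap _ _ fun x _ => sm _ _ _, Finset.sum_product, ← Finset.sum_neg_distrib]
      refine Finset.sum_congr rfl fun x _ => ?_
      rw [← mul_neg, lap_tau_mul ha (harm_TT _ i), Finset.sum_range_succ, Finset.sum_range_one,
        if_pos rfl, if_neg one_ne_zero]
      ring
    rw [e]
    refine ResLoc_lin _ _ (fun x _ => sm _ _ _) fun x hx => ?_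
    have := (h _ (Finset.mem_sigma.1 (Finset.mem_product.1 hx).1).1).1
    simpa only [one_mul] using sym_scal_tor ha (harm_TT x.1.1 i).toHom (by omega)
  have e : curl (fld (TR a L f) (TR a L s)) i = fun y => curl (curl (TR a L f)) i y +
      (pd (i + 1) (TR a L s (i + 2)) y - pd (i + 2) (TR a L s (i + 1)) y) := by
    have e1 : ∀ k j, pd j (fld (TR a L f) (TR a L s) k) = _ := fun k j =>
      Dyn.pd_add (ResLoc_curl s1 k).1 (s2 k).1 j
    funext y
    rw [curl, e1, e1, curl]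
    ring
  have q := fun i j => Dyn.pd_smooth (s2 i).1 j
  refine ResLoc_sub ?_ s4
  convert ResLoc_add p2 (ResLoc_mono (ResLoc_sub (p1 (i + 2) (i + 1)) (p1 (i + 1) (i + 2)))
    (by norm_num)) using 2 with y
  simp only [e, yd, Dyn.pd_add (ResLoc_curl (ResLoc_curl s1) i).1 ((q _ _).sub (q _ _)),
    Dyn.pd_sub (q _ _) (q _ _), Fin.sum_univ_three]
  ring

end Pool.Agent.Work.MP_6bf1e5_an.H
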