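import Pool.Agent.Work.MP_6bf1e5_an.H.TbRes

/-! The residual estimate in any scale, from checks in the unit scale (owner helper11). -/

open scoped ContDiff ENNReal FourierTransform Real
open Set MeasureTheory Filter Topology
open Pool.Agent.Lib.KTab

namespace Pool.Agent.Work.MP_6bf1e5_an.H

/-- A multiple of a profile. -/
def Rad.sc (κ : ℝ) (R : Rad) : Rad := ⟨R.e, R.N, fun j => κ * R.c j⟩

/-- The profiles in the scale `ρ`. -/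
noncomputable def scl (ρ : ℝ) (k : ℕ) (f : ℕ → Rad) (l : ℕ) : Rad := (f l).sc (ρ ^ l / ρ ^ k)

theorem Rad.sc_f (κ : ℝ) (R : Rad) (x : ℝ) : (R.sc κ).f x = κ * R.f x := by
  simp only [Rad.f, Rad.sc, Finset.mul_sum, mul_assoc]

theorem scl_f (ρ : ℝ) (k : ℕ) (f : ℕ → Rad) (l : ℕ) (x : ℝ) :
    (scl ρ k f l).f x = ρ ^ l / ρ ^ k * (f l).f x := Rad.sc_f _ _ _

variable {ρ w ν : ℝ} {L : Finset ℕ} {f s b c : ℕ → Rad} {g gf gs gb gc : ℕ → ℝ → ℝ}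

theorem ResOK.scl (h : ResOK L f s b c) (ρ : ℝ) :
    ResOK L (scl ρ 2 f) (scl ρ 1 s) (scl ρ 0 b) (scl ρ 1 c) := h

theorem JQ_sc (hw : 0 < w) (κ κ' σ : ℝ) (l : ℕ) (R R' : Rad) :
    JQ ((w ^ 2) ^ 2) σ l (R.sc κ) (R'.sc κ') =
      κ * κ' * (w ^ (2 * σ) / ((w ^ 2) ^ l) ^ 2 / w ^ 6) * JQ 1 σ l R R' := by
  have e : ((w ^ 2) ^ 2) ^ (σ / 2 - (l + 3 / 2)) = w ^ (2 * σ) / ((w ^ 2) ^ l) ^ 2 / w ^ 6 := by
    rw [← pow_mul, ← pow_mul, ← pow_mul, ← Real.rpow_natCast, ← Real.rpow_natCast,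
      ← Real.rpow_natCast, ← Real.rpow_mul hw.le, ← Real.rpow_sub hw, ← Real.rpow_sub hw]
    congr 1
    push_cast
    ring
  simp only [JQ, Rad.sc, Finset.mul_sum, Jc, e, Real.one_rpow]
  exact Finset.sum_congr rfl fun _ _ => Finset.sum_congr rfl fun _ _ => by ring

theorem RQ_sc (hw : 0 < w) (ν σ : ℝ) (l : ℕ) :
    RQ ((w ^ 2) ^ 2) (ν / w ^ 3) σ l (scl (w ^ 2) 2 f l) (scl (w ^ 2) 1 s l) (scl (w ^ 2) 0 b l)
      (scl (w ^ 2) 1 c l) = w ^ (2 * σ) / w ^ 6 * RQ 1 ν σ l (f l) (s l) (b l) (c l) := by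
  have e : ∀ (k : ℕ) (t : ℝ), 2 * t = k → w ^ (2 * (t + σ)) = w ^ k * w ^ (2 * σ) := fun k t h => by
    rw [mul_add, Real.rpow_add hw, h, Real.rpow_natCast]
  simp only [RQ, scl, JQ_sc hw, e 14 7 (by norm_num), e 7 (7 / 2) (by norm_num),
    e 10 5 (by norm_num), e 4 2 (by norm_num)]
  field_simp

/-- A multiple of a table. -/
noncomputable def cmT (κ : ℝ) (Φ : Tf) : Tf := fun α θ => κ * Φ α θ

theorem E1_cm (κ : ℝ) (Φ : Tf) (α θ : ℝ) : E1 (cmT κ Φ) α θ = κ * E1 Φ α θ := by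
  simp only [E1, cmT, deriv_const_mul_field]; ring

theorem E2_cm (κ : ℝ) (Φ : Tf) (α θ : ℝ) : E2 (cmT κ Φ) α θ = κ * E2 Φ α θ := by
  simp only [E2, cmT, deriv_const_mul_field]; ring

theorem FPt_cm (κ : ℝ) (A B N : Tf) (α θ : ℝ) :
    FPt A (cmT κ B) (cmT κ N) α θ = κ * FPt A B N α θ := by
  simp only [FPt, D2, DZ, DR, RR, E1_cm, E2_cm]
  simp only [cmT]
  ring

theorem FTt_cm (κ : ℝ) (A B W N : Tf) (α θ : ℝ) :
    FTt A (cmT κ B) (cmT (κ ^ 2) W) (cmT (κ ^ 2) N) α θ = (κ ^ 2 : ℝ) * FTt A B W N α θ := by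
  simp only [FTt, D2, DZ, DR, RR, E1_cm, E2_cm]
  simp only [cmT]
  push_cast
  ring

theorem TA_sc (hρ : 0 < ρ) (hL : ∀ l ∈ L, Even l ∧ 1 ≤ l) (κ : ℝ) :
    TA (ρ ^ 2) L (fun l x => κ * (ρ ^ l / ρ ^ 2) * g l x) = cmT κ (TA 1 L g) := by
  funext α θ
  simp only [TA, ang, cmT]
  rw [← Complex.ofReal_mul, Finset.mul_sum]
  congr 1
  refine Finset.sum_congr rfl fun l hl => ?_
  obtain ⟨⟨k, rfl⟩, h1⟩ := hL l hl
  obtain ⟨j, rfl⟩ : ∃ j, k = j + 1 := ⟨k - 1, by omega⟩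
  rw [show (j + 1 + (j + 1)) / 2 - 1 = j by omega, div_pow, div_one]
  field_simp
  ring

theorem wp_sc (a κ : ℝ) (l : ℕ) (φ : ℝ → ℝ) :
    wp a l (fun x => κ * φ x) = fun x => a * κ * wp 1 l φ x := by
  have e : ∀ φ : ℝ → ℝ, thx (fun x => κ * φ x) = fun x => κ * thx φ x := fun φ => by
    funext x; simp only [thx, deriv_const_mul_field]; ring
  have e' : hp l (fun x => κ * φ x) = fun x => κ * hp l φ x := by
    funext x; simp only [hp, e]; ring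
  funext x
  simp only [wp, e', e]
  ring

/-- The residual estimate in the scale `ρ = w ^ 2`. -/
theorem res_scl (hw : 1 ≤ w) (h : ResOK L f s b c)
    (hf : ∀ l ∈ L, ∀ x, (f l).f x = x ^ (2 * l - 1) * gf l x)
    (hs : ∀ l ∈ L, ∀ x, (s l).f x = x ^ (2 * l + 1) * gs l x)
    (hb : ∀ l ∈ L, ∀ x, (b l).f x = x ^ (2 * l + 4) * gb l x)
    (hc : ∀ l ∈ L, ∀ x, (c l).f x = x ^ (2 * l + 2) * gc l x)
    (sf : ∀ l ∈ L, ContDiff ℝ ∞ (gf l)) (ss : ∀ l ∈ L, ContDiff ℝ ∞ (gs l))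
    (sb : ∀ l ∈ L, ContDiff ℝ ∞ (gb l)) (sc : ∀ l ∈ L, ContDiff ℝ ∞ (gc l))
    {n m n' m' : ℕ} {η η' r1 r2 η1 η2 e1 e2 : ℝ}
    (sP : Sm n m η (FPt (TA 1 L gf) (TA 1 L gs) (TA 1 L gc)))
    (sT : Sm n' m' η' (FTt (TA 1 L gf) (TA 1 L gs) (TA 1 L fun l => wp 1 l (gf l)) (TA 1 L gb)))
    (hr1 : 0 ≤ r1) (hr2 : 0 ≤ r2) (hη1 : 0 ≤ η1) (hη2 : 0 ≤ η2)
    (q1 : ∑ l ∈ L, RQ 1 ν 0 l (f l) (s l) (b l) (c l) ≤ r1 ^ 2)
    (q2 : ∑ l ∈ L, RQ 1 ν 2 l (f l) (s l) (b l) (c l) ≤ r2 ^ 2)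
    (k1 : 40 * (η' ^ 2 + 5 * ((n + m + 7) * η) ^ 2) ≤ η1 ^ 2)
    (k2 : 20 * ((3 * (n + m + 16) ^ 2 * η) ^ 2 + 5 * ((n' + m' + 7) * η') ^ 2) ≤ η2 ^ 2)
    (he1 : 3 / 2 * (r1 / w ^ 3) + η1 / w ^ 2 ≤ e1) (he2 : r2 / w + η2 ≤ e2) :
    ∀ δ > 0, ∃ A0, ∀ A ≥ A0,
      nw Om (Res (ν / w ^ 3) (cut A (TR ((w ^ 2) ^ 2) L (scl (w ^ 2) 2 f))
        (TR ((w ^ 2) ^ 2) L (scl (w ^ 2) 1 s)))) ≤ (e1 + δ) ^ 2 ∧
      gw 1 (Res (ν / w ^ 3) (cut A (TR ((w ^ 2) ^ 2) L (scl (w ^ 2) 2 f))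
        (TR ((w ^ 2) ^ 2) L (scl (w ^ 2) 1 s)))) ≤ (e2 + δ) ^ 2 := by
  have w0 : 0 < w := by linarith
  have ρ0 : 0 < w ^ 2 := by positivity
  have hL : ∀ l ∈ L, Even l ∧ 1 ≤ l := fun l hl => ⟨(h l hl).1, (h l hl).2.1⟩
  have h2 : ∀ l ∈ L, 2 ≤ l := fun l hl => by
    obtain ⟨⟨k, rfl⟩, h1⟩ := hL l hl
    omega
  set ρ := w ^ 2 with hρ
  have tA : TA (ρ ^ 2) L (fun l x => 1 * (ρ ^ l / ρ ^ 2) * gf l x) = TA 1 L gf := by
    rw [TA_sc ρ0 hL]; funext α θ; simp [cmT]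
  have tW : (TA (ρ ^ 2) L fun l => wp (ρ ^ 2) l fun x => 1 * (ρ ^ l / ρ ^ 2) * gf l x) =
      cmT (ρ ^ 2) (TA 1 L fun l => wp 1 l (gf l)) := by
    rw [← TA_sc ρ0 hL]
    simp only [wp_sc, one_mul]
  have key := resD_le (a := ρ ^ 2) (one_le_pow₀ (one_le_pow₀ hw)) (h.scl ρ)
    (gf := fun l x => 1 * (ρ ^ l / ρ ^ 2) * gf l x) (gs := fun l x => ρ * (ρ ^ l / ρ ^ 2) * gs l x)
    (gb := fun l x => ρ ^ 2 * (ρ ^ l / ρ ^ 2) * gb l x)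
    (gc := fun l x => ρ * (ρ ^ l / ρ ^ 2) * gc l x)
    (fun l hl x => by
      have := h2 l hl
      rw [scl_f, hf l hl, show 2 * l - 4 + 3 = 2 * l - 1 by omega]; ring)
    (fun l hl x => by
      have := h2 l hl
      rw [scl_f, hs l hl, show 2 * l - 4 + 5 = 2 * l + 1 by omega]; field_simp)
    (fun l hl x => by
      have := h2 l hl
      rw [scl_f, hb l hl, show 2 * l - 4 + 8 = 2 * l + 4 by omega]; field_simp)
    (fun l hl x => by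
      have := h2 l hl
      rw [scl_f, hc l hl, show 2 * l - 4 + 6 = 2 * l + 2 by omega]; field_simp)
    (fun l hl => contDiff_const.mul (sf l hl)) (fun l hl => contDiff_const.mul (ss l hl))
    (fun l hl => contDiff_const.mul (sb l hl)) (fun l hl => contDiff_const.mul (sc l hl))
    (n := n) (m := m) (n' := n') (m' := m') (η := |ρ| * η) (η' := |ρ ^ 2| * η')
    (by rw [tA, TA_sc ρ0 hL, TA_sc ρ0 hL]; exact (sP.smul ρ).congr (FPt_cm ρ _ _ _))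
    (by rw [tA, tW, TA_sc ρ0 hL, TA_sc ρ0 hL]; exact (sT.smul (ρ ^ 2)).congr (FTt_cm ρ _ _ _ _))
  rw [abs_of_pos ρ0, abs_of_pos (pow_pos ρ0 2)] at key
  refine res_main (pow_pos ρ0 2) (h.scl ρ) (r1 := r1 / w ^ 3) (r2 := r2 / w) (η1 := η1 / ρ)
    (by positivity) (by positivity) (by positivity) hη2 ?_ ?_ (key.1.trans ?_) (key.2.trans ?_)
    he1 he2
  · simp only [hρ, RQ_sc w0, ← Finset.mul_sum, mul_zero, Real.rpow_zero]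
    refine (mul_le_mul_of_nonneg_left q1 (by positivity)).trans_eq ?_
    field_simp
  · simp only [hρ, RQ_sc w0, ← Finset.mul_sum]
    refine (mul_le_mul_of_nonneg_left q2 (by positivity)).trans_eq ?_
    rw [show (2 * 2 : ℝ) = (4 : ℕ) by norm_num, Real.rpow_natCast]
    field_simp
  · rw [div_pow, le_div_iff₀ (by positivity)]
    refine le_trans (le_of_eq ?_) k1
    field_simp
  · refine le_trans (le_of_eq ?_) k2
    field_simp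
    ring

end Pool.Agent.Work.MP_6bf1e5_an.H
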