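import Pool.Agent.Work.MP_6bf1e5_an.H.SepG
import Pool.Agent.Lib.KTab.Flat

/-! The derivatives of the Legendre polynomials as sums of cosines (owner helper2). -/

open Finset
open Polynomial (derivative)

namespace Pool.Agent.Work.MP_6bf1e5_an.H.Rk

open Pool.Agent.Lib.KTab

/-- `4 ^ i` times the coefficients of `(1 - x) ^ (-3/2)`. -/
def hh (i : ℕ) : ℕ := (2 * i + 1) * i.centralBinom

theorem hh_succ (i : ℕ) : (i + 1) * hh (i + 1) = (4 * i + 6) * hh i := by
  have := Nat.succ_mul_centralBinom_succ i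
  simp only [hh]
  nlinarith

/-- The coefficients of `(1 - x) ^ (-3/2)`. -/
noncomputable def hr (i : ℕ) : ℝ := hh i / 4 ^ i

theorem hr_succ (i : ℕ) : (2 * i + 2) * hr (i + 1) = (2 * i + 3) * hr i := by
  have h : ((i : ℝ) + 1) * hh (i + 1) = (4 * i + 6) * hh i := by exact_mod_cast hh_succ i
  simp only [hr, pow_succ]
  field_simp
  linarith

open Polynomial in
theorem dgeg_rec (m : ℕ) (x : ℝ) : (m + 2) * (derivative (geg 1 (m + 3))).eval x =
    (2 * m + 5) * x * (derivative (geg 1 (m + 2))).eval x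
      - (m + 3) * (derivative (geg 1 (m + 1))).eval x := by
  have h1 := congrArg (eval x) (sp_geg_der 1 (m + 2)).1
  have h2 := congrArg (eval x) (sp_geg_der 1 (m + 1)).2
  simp only [eval_add, eval_sub, eval_mul, eval_X, eval_natCast, eval_one] at h1 h2
  push_cast at h1 h2
  linear_combination (m + 2) * h1 - (m + 3) * h2

open PowerSeries in
theorem hr_sum {u v : ℂ} {x : ℝ} (h : u * v = 1) (hx : u + v = 2 * x) (l : ℕ) :
    ∑ p ∈ antidiagonal l, hr p.1 * u ^ p.1 * (hr p.2 * v ^ p.2) =
      ((derivative (geg 1 (l + 1))).eval x : ℝ) := by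
  set G : ℂ → ℂ⟦X⟧ := fun u => mk fun i => hr i * u ^ i with hG
  have d : ∀ u, 2 * (1 - C u * X) * d⁄dX ℂ (G u) = 3 * C u * G u := fun u => by
    have e : 2 * (1 - C u * X) * d⁄dX ℂ (G u) =
        C 2 * d⁄dX ℂ (G u) - C (2 * u) * (X * d⁄dX ℂ (G u)) := by
      rw [map_mul, map_ofNat]
      ring
    ext n
    have g : ((2 * n + 2 : ℂ)) * hr (n + 1) = (2 * n + 3) * hr n := by
      exact_mod_cast congrArg Complex.ofReal (hr_succ n)
    rw [e, show (3 : ℂ⟦X⟧) * C u = C (3 * u) by rw [map_mul, map_ofNat]]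
    cases n with
    | zero =>
      simp only [map_sub, PowerSeries.coeff_C_mul, coeff_zero_X_mul, PowerSeries.coeff_derivative,
        hG, coeff_mk]
      push_cast at g ⊢
      linear_combination u * g
    | succ n =>
      simp only [map_sub, PowerSeries.coeff_C_mul, coeff_succ_X_mul, PowerSeries.coeff_derivative,
        hG, coeff_mk]
      push_cast at g ⊢
      linear_combination u ^ (n + 2) * g
  set F := G u * G v with hF
  have c : ∀ l, coeff l F = ∑ p ∈ antidiagonal l, hr p.1 * u ^ p.1 * (hr p.2 * v ^ p.2) :=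
    fun l => by simp only [hF, hG, PowerSeries.coeff_mul, coeff_mk]
  have o : d⁄dX ℂ F - C (2 * x : ℂ) * (X * d⁄dX ℂ F) + X * (X * d⁄dX ℂ F) =
      C (3 * x : ℂ) * F - C 3 * (X * F) := by
    have e1 : C u * C v = (1 : ℂ⟦X⟧) := by rw [← map_mul, h, map_one]
    have e2 : C u + C v = (2 * C (x : ℂ) : ℂ⟦X⟧) := by rw [← map_add, hx, map_mul, map_ofNat]
    have e3 : (2 : ℂ⟦X⟧) ≠ 0 := fun h => by simpa [map_ofNat] using congrArg constantCoeff h
    refine mul_left_cancel₀ e3 ?_
    rw [hF, Derivation.leibniz, map_mul, map_mul, map_ofNat, map_ofNat, smul_eq_mul, smul_eq_mul]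
    linear_combination (1 - C v * X) * G v * d u + (1 - C u * X) * G u * d v
      + (2 * X * (G u * d⁄dX ℂ (G v) + G v * d⁄dX ℂ (G u)) + 3 * G u * G v) * e2
      - (2 * X ^ 2 * (G u * d⁄dX ℂ (G v) + G v * d⁄dX ℂ (G u)) + 6 * X * G u * G v) * e1
  have t : ∀ l, coeff l (X * d⁄dX ℂ F) = l * coeff l F := fun l => by
    cases l with
    | zero => simp
    | succ l =>
      rw [coeff_succ_X_mul, PowerSeries.coeff_derivative]
      push_cast
      ring
  rw [← c]
  induction l using Nat.twoStepInduction with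
  | zero => simp [c, hr, hh, geg]
  | one =>
    have := congrArg (coeff 0) o
    simp only [map_add, map_sub, PowerSeries.coeff_C_mul, coeff_zero_X_mul,
      PowerSeries.coeff_derivative] at this
    rw [c 0] at this
    rw [sp_geg_eval' 1 0]
    simp [hr, hh, geg] at this ⊢
    linear_combination this
  | more l h0 h1 =>
    have := congrArg (coeff (l + 1)) o
    simp only [map_add, map_sub, PowerSeries.coeff_C_mul, coeff_succ_X_mul, t,
      PowerSeries.coeff_derivative] at this
    have h2 : (l : ℂ) + 2 ≠ 0 := by exact_mod_cast (by omega : l + 2 ≠ 0)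
    have h3 := congrArg Complex.ofReal (dgeg_rec l x)
    push_cast at this h3
    rw [← h0, ← h1] at h3
    refine mul_left_cancel₀ h2 ?_
    linear_combination this - h3

/-- The coefficient of `cos ((2 j + 1) θ)` in the derivative of the Legendre polynomial of degree
`2 i + 2`. -/
noncomputable def co (i j : ℕ) : ℝ :=
  if j ≤ i then hh (i - j) * hh (i + j + 1) / 2 ^ (4 * i + 1) else 0

theorem dP_cos {i J : ℕ} (h : i < J) (θ : ℝ) : (derivative (geg 1 (2 * i + 2))).eval (Real.cos θ) =
    ∑ j ∈ range J, co i j * Real.cos ((2 * j + 1) * θ) := by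
  have := congrArg Complex.re (hr_sum (u := ex θ) (v := ex (-θ)) (x := Real.cos θ)
    (by rw [← ex_add, add_neg_cancel, ex_zero]) (two_cos_ex θ).symm (2 * i + 1))
  rw [Complex.ofReal_re, Complex.re_sum, Nat.sum_antidiagonal_eq_sum_range_succ_mk] at this
  have f := fold_sum (n := 2 * i + 1) (ε := 1) (J := J) (fun k => hr k * hr (2 * i + 1 - k)) le_rfl
    (by omega) (by omega) θ
  rw [← this]
  refine (sum_congr rfl fun k hk => ?_).trans (f.trans (sum_congr rfl fun j _ => ?_))
  · have hk : k ≤ 2 * i + 1 := Nat.lt_succ_iff.1 (mem_range.1 hk)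
    rw [← ex_re, ← Complex.re_ofReal_mul, ex_pow, ex_pow, mul_mul_mul_comm, ← ex_add,
      Complex.ofReal_mul, Nat.cast_sub hk]
    congr 3
    ring
  · rw [Nat.cast_one]
    congr 1
    rw [Lib.KTab.fold, co]
    by_cases hj : j ≤ i
    · obtain ⟨r, rfl⟩ := Nat.exists_eq_add_of_le hj
      rw [if_pos (by omega), if_neg (by omega), if_pos hj,
        show (2 * (j + r) + 1 + (2 * j + 1)) / 2 = j + r + j + 1 by omega,
        show (2 * (j + r) + 1 - (2 * j + 1)) / 2 = r by omega,
        show 2 * (j + r) + 1 - (j + r + j + 1) = r by omega,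
        show 2 * (j + r) + 1 - r = j + r + j + 1 by omega, Nat.add_sub_cancel_left, hr, hr,
        show (4 : ℝ) = 2 ^ 2 by norm_num, ← pow_mul, ← pow_mul]
      field_simp
      ring
    · rw [if_neg (by omega), if_neg hj]

end Pool.Agent.Work.MP_6bf1e5_an.H.Rk
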