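import Pool.Agent.Lib.KTab.Defs2

/-! The computations with tables for the local residual (owner helper2). -/

namespace Pool.Agent.Work.MP_6bf1e5_an.H.Rk

open Pool.Agent.Lib.KLA Pool.Agent.Lib.KTab

noncomputable section

/-- The distance of rows used for tables with one row. -/
def S0 : Nat := 1000000

/-- The row of `x ^ 2`. -/
def x2 (W : Nat) (k : Tab → Bool) : Bool := mul (cx W) (cx W) k

/-- The row of `± a + x ^ 8`. -/
def p8 (W : Nat) (g : Bool) (a : Nat) (k : Tab → Bool) : Bool :=
  x2 W fun T => mul T T fun T => mul T T fun T => add W S0 (cst g a 0) T fun T => meas W S0 T k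

/-- The powers of `1 - x ^ 8`, cut at the half width `n` and rounded at the scale `2 ^ s`. -/
def kpow (W n s J : Nat) (k : List Tab → Bool) : Bool :=
  p8 W true 1 fun K => neg K fun K => iterK (fun _ A k => mul K A fun T => trim W S0 n s T fun T =>
    meas W S0 T k) J 0 (cst false 1 0) k

/-- The operator `x / 2 * d / dx`. -/
def thK (W L : Nat) (P : Tab) (k : Tab → Bool) : Bool :=
  dX W S0 L P fun T => mul (cx W) T fun T => half 1 T k

/-- The operator of the double curl for the degree `2 i + 2`; `K`, `K'` are the rows of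
`x ^ 8 - 1`, `x ^ 8 + 1`. -/
def wpK (W L : Nat) (K K' : Tab) (i : Nat) (P : Tab) (k : Tab → Bool) : Bool :=
  meas W S0 P fun P => thK W L P fun T =>
    mul (cst false (Nat.add (Nat.mul 4 i) 3) 0) P fun U => add W S0 T U fun H =>
    thK W L H fun T => mul K T fun T => mul (cst false (Nat.add (Nat.mul 4 i) 7) 0) K' fun C =>
    mul C H fun U => add W S0 U T fun T => half 2 T k

/-- The radial rows from number `j0` on: power times `op` of the stored polynomial, brought to the
width `W`. -/
def radK (W1 W b s0 nk sk n s j0 : Nat) (op : Nat → Tab → (Tab → Bool) → Bool)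
    (D : List (Nat × Nat)) (k : List Tab → Bool) : Bool :=
  kpow W1 nk sk (llen D) fun K => mapK (fun i q k => usep q fun K p => usep p fun c z =>
    cheb2 W1 b 9 c s0 z fun P => op i P fun P => meas W1 S0 P fun P => mul K P fun T =>
    trim W1 S0 n s T fun T => meas W1 S0 T fun T => res2 W1 W S0 (Nat.add (Nat.log2 n) 1) T fun T =>
    lift W S0 n 0 s T k)
    (ldrop (lzip K D) j0) j0 k

/-- The numbers `(2 i + 1) * centralBinom i` times `a`. -/
def hl (n a : Nat) (k : List Nat → Bool) : Bool :=
  iterK (fun i a k => strict (Nat.div (Nat.mul a (Nat.add (Nat.mul 4 i) 6)) (Nat.add i 1)) k) n 0 a k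

/-- The sum of the rows times the coefficients `h * h' / 2 ^ t`, positive and negative terms
apart. -/
def dotH (K : Nat) (l : List Tab) :
    List Nat → List Nat → Nat → Nat → Nat → (Nat → Nat → Bool) → Bool :=
  List.rec (motive := fun _ => List Nat → List Nat → Nat → Nat → Nat → (Nat → Nat → Bool) → Bool)
    (fun _ _ _ P Q k => k P Q)
    (fun A _ ih H H' t P Q k => List.casesOn (motive := fun _ => Bool) H false fun h H =>
      List.casesOn (motive := fun _ => Bool) H' false fun h' H' => strict t fun t =>
      strict (Nat.shiftRight (Nat.mul h h') t) fun d => A.use fun g y _ _ _ _ _ _ =>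
      bnd (Nat.ble d K) (cnd g (ih H H' (Nat.add t 4) P (Nat.add Q (Nat.mul d y)) k)
        (ih H H' (Nat.add t 4) (Nat.add P (Nat.mul d y)) Q k))) l

/-- A test on all elements of a list, with the index and the remaining rows and numbers. -/
def allH {α : Type} (f : Nat → List Tab → List Nat → α → Bool) (Z : List α) :
    Nat → List Tab → List Nat → Bool :=
  List.rec (motive := fun _ => Nat → List Tab → List Nat → Bool) (fun _ _ _ => true)
    (fun z _ ih j l H => strict j fun j =>
      bnd (f j l H z) (ih (Nat.add j 1) (ltl l) (ltl (ltl H)))) Z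

/-- The coefficients of `cos ((2 j + 1) θ)`, `j = j0, j0 + 1, ...`, in the sum of the rows number
`i = j0, j0 + 1, ...` times the derivatives of the Legendre polynomials of degree `2 i + 2` are
tested. -/
def synH {α : Type} (sA bA n s j0 : Nat) (t : α → Tab → Bool) (Z : List α) (R : List Tab) : Bool :=
  sums n s R 0 0 0 fun x M e => strict (Nat.mul 2 (Nat.add j0 (llen R))) fun J =>
    strict (Nat.shiftLeft 1 (Nat.add sA bA)) fun K => strict (Nat.add s sA) fun s =>
    strict (Nat.mul K M) fun M' => strict (Nat.add (Nat.mul K e) (Nat.add M e)) fun e' =>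
    hl J 1 fun H => hl J (Nat.shiftLeft 1 sA) fun H' =>
    allH (fun j l H' z => dotH K l H H' (Nat.add (Nat.mul 4 j) 1) 0 0 fun P Q =>
        ssub P Q fun g a => t z ⟨g, a, n, 0, x, s, M', e'⟩)
      Z j0 R (ldrop H' (Nat.add (Nat.mul 2 j0) 1))

/-- The rows `j0, ..., j0 + q - 1` of the table of the family `D` are tested. -/
def tabK {α : Type} (W1 W b s0 nk sk n s sA : Nat) (D : List (Nat × Nat)) (t : α → Tab → Bool)
    (Z : List α) (j0 q : Nat) : Bool :=
  radK W1 W b s0 nk sk n s j0 (fun _ P k => k P) D (synH sA 10 n s j0 t (ltake q (ldrop Z j0)))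

/-- The same for the double curl. -/
def tabW {α : Type} (W1 W b s0 nk sk n s sA : Nat) (D : List (Nat × Nat)) (t : α → Tab → Bool)
    (Z : List α) (j0 q : Nat) : Bool :=
  p8 W1 true 1 fun K => p8 W1 false 1 fun K' =>
    radK W1 W b s0 nk sk n s j0 (wpK W1 9 K K') D (synH sA 10 n s j0 t (ltake q (ldrop Z j0)))

/-- A stored table as a list of rows that starts at the frequency `-1`. -/
def ldL (W s N e : Nat) (Z : List (Nat × Nat × Nat)) (k : List Tab → Bool) : Bool :=
  mapK (fun _ => ldR W 9 s N e) Z 0 fun l => k (cst false 0 0 :: l)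

/-- `± a` times a list of rows. -/
def smL (g : Bool) (a : Nat) (l : List Tab) (k : List Tab → Bool) : Bool :=
  mapK (fun _ => mul (cst g a 0)) l 0 k

/-- `RR 1 c + a - 1` times the row `F`. -/
def rrL (W L c a : Nat) (F : Tab) (l : List Tab) (k : List Tab → Bool) : Bool :=
  p8 W true 1 fun K => mul (cst false c 1) K fun K => add W S0 (cst false a 0) K fun G0 =>
    x2 W fun X => add W S0 (cst false 1 0) X fun U => mul X X fun X =>
    add W S0 (cst false 1 0) X fun V => mul U V fun U => mul (cx W) U fun U =>
    mul (cst true 1 2) U fun G1 => mul F G0 fun G0 => mul F G1 fun G1 => opL W S0 L G0 G1 l k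

/-- `E2 - 2 c`. -/
def vL (W : Nat) (l : List Tab) (k : List Tab → Bool) : Bool :=
  dyL W S0 1 l fun u => cyL W S0 l fun v => smL true 2 v fun v => addL W S0 u v k

/-- The row of `a x ^ 6`. -/
def x6 (W a : Nat) (k : Tab → Bool) : Bool :=
  x2 W fun X => mul X X fun Y => mul X Y fun Y => mul (cst false a 0) Y k

/-- A factor: rounded, cut, measured and put into one number. -/
def fac (W S n s d : Nat) (l : List Tab) (k : Tab → Bool) : Bool :=
  tmL W S0 n s l fun l => flat false W S0 S 8 n s d l k

/-- The sum of a list of rows and `-3 x ^ 2` times another one, in one number. -/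
def lin (W S n s : Nat) (l N : List Tab) (k : Tab → Bool) : Bool :=
  x2 W fun X => mul (cst true 3 0) X fun X => mapK (fun _ => mul X) N 0 fun N =>
    addL W S0 l N fun l => tmL W S0 n s l fun l => flat false W S0 S 9 n s 1 l k

/-- Three times the table of the potential of the meridional error. -/
def resP (W L S n s n' s' : Nat) (A B N : List Tab) (k : Tab → Bool) : Bool :=
  x6 W 3 fun X => rrL W L 3 3 X A fun U => fac W S n s 1 U fun UA =>
    vL W A fun V => mapK (fun _ => mul X) V 0 fun V => fac W S n s 2 V fun VA =>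
    rrL W L 5 3 (cst false 1 0) B fun U => fac W S n s 1 U fun UB =>
    vL W B fun V => fac W S n s 2 V fun VB =>
    smL false 2 U fun U => smL true 1 B fun B => addL W S0 U B fun U => lin W S n' s' U N fun L =>
    mul VA UB fun P => mul UA VB fun Q => sub W S P Q fun P => add W S P L fun P => meas W S P k

/-- Three times the table of the toroidal error. -/
def resT (W L S n s n' s' : Nat) (A B C N : List Tab) (k : Tab → Bool) : Bool :=
  x6 W 3 fun X => rrL W L 3 3 X A fun U => fac W S n s 1 U fun UA =>
    vL W A fun V => mapK (fun _ => mul X) V 0 fun V => fac W S n s 2 V fun VA =>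
    rrL W L 5 1 (cst false 1 0) B fun U => cyL W S0 U fun U => dyL W S0 1 B fun V =>
    addL W S0 U V fun V => fac W S n s 2 V fun ZB =>
    x6 W 6 fun X => mapK (fun _ => mul X) B 0 fun B => fac W S n s 1 B fun B =>
    rrL W L 7 1 (cst false 1 0) C fun R => fac W S n s 1 R fun RW =>
    dyL W S0 1 C fun E => fac W S n s 2 E fun EW =>
    smL false 2 R fun R => smL false 5 C fun C => addL W S0 R C fun U => lin W S n' s' U N fun L =>
    mul RW VA fun P => mul EW UA fun Q => sub W S P Q fun P => mul B ZB fun Q =>
    add W S P Q fun P => add W S P L fun P => meas W S P k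

end

end Pool.Agent.Work.MP_6bf1e5_an.H.Rk
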