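import Pool.Agent.Work.MP_6bf1e5_an.H.RkDefs
import Pool.Agent.Work.MP_6bf1e5_an.H.RkZA
import Pool.Agent.Work.MP_6bf1e5_an.H.RkZB
import Pool.Agent.Work.MP_6bf1e5_an.H.RkZP

/-! The check of the meridional error (owner helper2). -/

namespace Pool.Agent.Work.MP_6bf1e5_an.H.Rk

open Pool.Agent.Lib.KTab

/-- The check. -/
noncomputable def eP : PLift ((ldL 229 119 960 600 zA fun A => ldL 229 119 958 730 zB fun B =>
    ldL 229 102 1163 780 zP fun N => resP 229 10 1001 500 105 612 120 A B N
    (fin 3850 959 27 10000000000000000000000000)) = true) := ⟨by decide +kernel⟩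

end Pool.Agent.Work.MP_6bf1e5_an.H.Rk
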