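import Pool.Agent.Work.MP_6bf1e5_an.H.RkSyn

/-! The bounds for the two tables of the local residual from the checks (owner helper2). -/

namespace Pool.Agent.Work.MP_6bf1e5_an.H.Rk

open Pool.Agent.Lib.KLA Pool.Agent.Lib.KTab

/-- The list of rows, starting at the frequency `-d`, describes `Φ`. -/
abbrev Rws (W d : ℕ) (l : List Tab) (Φ : Tf) : Prop := RepL true false W S0 d l Φ

variable {W d : ℕ} {l l' A B C N : List Tab} {Φ Ψ ΦA ΦB ΦC ΦN : Tf} {F : Tab} {f : ℝ → ℝ}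

theorem Row.mulL (hF : Row W F f) (h : Rws W d l Φ) :
    Ok (mapK (fun _ => Lib.KTab.mul F) l 0) (Rws W d · fun ω θ => f (Real.cos ω) * Φ ω θ) :=
  RepL.map_mul (g := fun ω => f (Real.cos ω)) hF h

theorem smL_ok (g : Bool) (a : ℕ) (h : Rws W d l Φ) :
    Ok (smL g a l) (Rws W d · fun ω θ => sv g a * Φ ω θ) :=
  ((row_cst W g a 0).mulL h).mono fun _ h => h.congr fun _ _ => by simp

theorem Row.opL {G : Tab} {g : ℝ → ℝ} (L : ℕ) (hF : Row W F f) (hG : Row W G g) (h : Rws W d l Φ) :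
    Ok (opL W S0 L F G l)
      (Rws W d · fun ω θ => f (Real.cos ω) * Φ ω θ + g (Real.cos ω) * E1 Φ ω θ) :=
  opL_ok L (g0 := fun ω => f (Real.cos ω)) (g1 := fun ω => g (Real.cos ω)) hF hG h

theorem rrL_ok (L c a : ℕ) (hF : Row W F f) (h : Rws W d l Φ) : Ok (rrL W L c a F l)
    (Rws W d · fun ω θ => f (Real.cos ω) * (RR 1 c Φ ω θ + (a - 1) * Φ ω θ)) :=
  (p8_ok W true 1).bind fun _ hK => ((row_cst W false c 1).mul hK).bind fun _ hK =>
    ((row_nat W a).add hK).bind fun _ h0 => (x2_ok W).bind fun _ hX =>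
    ((row_nat W 1).add hX).bind fun _ hU => (hX.mul hX).bind fun _ hX =>
    ((row_nat W 1).add hX).bind fun _ hV => (hU.mul hV).bind fun _ hU =>
    ((row_x W).mul hU).bind fun _ hU => ((row_cst W true 1 2).mul hU).bind fun _ h1 =>
    (hF.mul h0).bind fun _ h0 => (hF.mul h1).bind fun _ h1 =>
    (h0.opL L h1 h).mono fun _ h => h.congr fun ω θ => by
      simp only [RR, sv]
      push_cast
      ring

theorem cyL_ok' (h : Rws W 1 l Φ) :
    Ok (cyL W S0 l) (Rws W 2 · fun ω θ => Real.cos θ * Φ ω θ) :=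
  (cyL_ok h).mono fun _ h => by
    rwa [show ((1 : ℕ) + 1 : ℤ) = (2 : ℕ) by norm_num] at h

theorem dyL_ok' (h : Rws W 1 l Φ) : Ok (dyL W S0 1 l) (Rws W 2 · (E2 Φ)) := dyL_ok h

theorem vL_ok (h : Rws W 1 l Φ) :
    Ok (vL W l) (Rws W 2 · fun ω θ => E2 Φ ω θ - 2 * (Real.cos θ * Φ ω θ)) :=
  (dyL_ok' h).bind fun _ hu => (cyL_ok' h).bind fun _ hv => (smL_ok true 2 hv).bind fun _ hv =>
    (addL_ok hu hv).mono fun _ h => h.congr fun _ _ => by simp [sv, sub_eq_add_neg]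

theorem x6_ok (W a : ℕ) : Ok (x6 W a) (Row W · fun x => a * x ^ 6) :=
  (x2_ok W).bind fun _ hX => (hX.mul hX).bind fun _ hY => (hX.mul hY).bind fun _ hY =>
    ((row_nat W a).mul hY).mono fun _ h => h.congr fun x => by ring

theorem fac_ok (S n s : ℕ) (h : Rws W d l Φ) : Ok (fac W S n s d l) (Rep true W S · Φ) :=
  (tmL_ok n s h).bind fun _ h => flat_ok S 8 n s h

theorem lin_ok (S n s : ℕ) (h : Rws W 1 l Φ) (hN : Rws W 1 N ΦN) : Ok (lin W S n s l N)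
    (Rep true W S · fun ω θ => Φ ω θ - 3 * (Real.cos ω : ℂ) ^ 2 * ΦN ω θ) :=
  (x2_ok W).bind fun _ hX => ((row_cst W true 3 0).mul hX).bind fun _ hX =>
    (hX.mulL hN).bind fun _ hN => (addL_ok h hN).bind fun _ h => (tmL_ok n s h).bind fun _ h =>
    (flat_ok S 9 n s h).mono fun _ h => h.congr fun _ _ => by simp [sv, sub_eq_add_neg]

theorem resP_ok (L S n s n' s' : ℕ) (hA : Rws W 1 A ΦA) (hB : Rws W 1 B ΦB) (hN : Rws W 1 N ΦN) :
    Ok (resP W L S n s n' s' A B N) (Rep true W S · fun ω θ => 3 * FPt ΦA ΦB ΦN ω θ) :=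
  (x6_ok W 3).bind fun _ hX => (rrL_ok L 3 3 hX hA).bind fun _ h => (fac_ok S n s h).bind
    fun _ UA => (vL_ok hA).bind fun _ h => (hX.mulL h).bind fun _ h => (fac_ok S n s h).bind
    fun _ VA => (rrL_ok L 5 3 (row_nat W 1) hB).bind fun _ hU => (fac_ok S n s hU).bind
    fun _ UB => (vL_ok hB).bind fun _ h => (fac_ok S n s h).bind fun _ VB =>
    (smL_ok false 2 hU).bind fun _ hU => (smL_ok true 1 hB).bind fun _ hB =>
    (addL_ok hU hB).bind fun _ hU => (lin_ok S n' s' hU hN).bind fun _ hL =>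
    (mul_ok VA UB).bind fun _ hP => (mul_ok UA VB).bind fun _ hQ => (sub_ok hP hQ).bind fun _ hP =>
    (add_ok hP hL).bind fun _ hP => meas_ok (hP.congr fun ω θ => by
      simp only [FPt, D2, DZ, DR, sv]
      push_cast
      ring)

theorem resT_ok (L S n s n' s' : ℕ) (hA : Rws W 1 A ΦA) (hB : Rws W 1 B ΦB) (hC : Rws W 1 C ΦC)
    (hN : Rws W 1 N ΦN) :
    Ok (resT W L S n s n' s' A B C N) (Rep true W S · fun ω θ => 3 * FTt ΦA ΦB ΦC ΦN ω θ) :=
  (x6_ok W 3).bind fun _ hX => (rrL_ok L 3 3 hX hA).bind fun _ h => (fac_ok S n s h).bind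
    fun _ UA => (vL_ok hA).bind fun _ h => (hX.mulL h).bind fun _ h => (fac_ok S n s h).bind
    fun _ VA => (rrL_ok L 5 1 (row_nat W 1) hB).bind fun _ hU => (cyL_ok' hU).bind fun _ hU =>
    (dyL_ok' hB).bind fun _ hV => (addL_ok hU hV).bind fun _ h => (fac_ok S n s h).bind
    fun _ ZB => (x6_ok W 6).bind fun _ hX => (hX.mulL hB).bind fun _ h => (fac_ok S n s h).bind
    fun _ BB => (rrL_ok L 7 1 (row_nat W 1) hC).bind fun _ hR => (fac_ok S n s hR).bind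
    fun _ RW => (dyL_ok' hC).bind fun _ h => (fac_ok S n s h).bind fun _ EW =>
    (smL_ok false 2 hR).bind fun _ hR => (smL_ok false 5 hC).bind fun _ hC =>
    (addL_ok hR hC).bind fun _ hU => (lin_ok S n' s' hU hN).bind fun _ hL =>
    (mul_ok RW VA).bind fun _ hP => (mul_ok EW UA).bind fun _ hQ => (sub_ok hP hQ).bind fun _ hP =>
    (mul_ok BB ZB).bind fun _ hQ => (add_ok hP hQ).bind fun _ hP =>
    (add_ok hP hL).bind fun _ hP => meas_ok (hP.congr fun ω θ => by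
      simp only [FTt, D2, DZ, DR, sv]
      push_cast
      ring)

theorem sm_third {n m p q : ℕ} (h : Er true n m (p / q) fun ω θ => 3 * Φ ω θ) :
    Sm n m (p / q / 3) Φ :=
  ((h.sm.smul (1 / 3)).congr fun ω θ => by push_cast; ring).le (le_of_eq (by
    rw [abs_of_pos (by norm_num)]; ring))

/-- The whole stored table `Z` is near the table of the family. -/
def All1 (s N e : ℕ) (F : Fml) (g : ℕ → ℝ → ℝ) (Z : List (ℕ × ℕ × ℕ)) (n : ℕ) : Prop :=
  Good s N e F.D.length g Z F.D.length ∧ llen Z = F.D.length ∧ F.D.length ≤ n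

theorem All1.mk' {s N e J n : ℕ} {F : Fml} {g : ℕ → ℝ → ℝ} {Z : List (ℕ × ℕ × ℕ)}
    (h : Good s N e F.D.length g Z J) (h1 : llen F.D = J) (h2 : llen Z = J) (h3 : J ≤ n) :
    All1 s N e F g Z n := by
  rw [llen_eq] at h1
  subst h1
  exact ⟨h, h2, h3⟩

variable {D : Dat} {sA NA eA sB NB eB sC NC eC sN NN eN L S n s n' s' n0 m0 p q : ℕ}
  {zA zB zC zN : List (ℕ × ℕ × ℕ)}

theorem tP_sm (hA : All1 sA NA eA D.F D.F.g zA D.n) (hB : All1 sB NB eB D.S D.S.g zB D.n)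
    (hN : All1 sN NN eN D.C D.C.g zN D.n)
    (h : (ldL W sA NA eA zA fun A => ldL W sB NB eB zB fun B => ldL W sN NN eN zN fun N =>
      resP W L S n s n' s' A B N (fin n0 m0 p q)) = true) : Sm n0 m0 (p / q / 3) D.tP := by
  obtain ⟨A, hA, h⟩ := ldL_g W hA.1 hA.2.1 hA.2.2 _ h
  obtain ⟨B, hB, h⟩ := ldL_g W hB.1 hB.2.1 hB.2.2 _ h
  obtain ⟨N, hN, h⟩ := ldL_g W hN.1 hN.2.1 hN.2.2 _ h
  obtain ⟨T, hT, h⟩ := resP_ok L S n s n' s' hA hB hN _ h
  exact sm_third (fin_ok h hT)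

theorem tT_sm (hA : All1 sA NA eA D.F D.F.g zA D.n) (hB : All1 sB NB eB D.S D.S.g zB D.n)
    (hC : All1 sC NC eC D.F (fun l => wp 1 l (D.F.g l)) zC D.n)
    (hN : All1 sN NN eN D.B D.B.g zN D.n)
    (h : (ldL W sA NA eA zA fun A => ldL W sB NB eB zB fun B => ldL W sC NC eC zC fun C =>
      ldL W sN NN eN zN fun N => resT W L S n s n' s' A B C N (fin n0 m0 p q)) = true) :
    Sm n0 m0 (p / q / 3) D.tT := by
  obtain ⟨A, hA, h⟩ := ldL_g W hA.1 hA.2.1 hA.2.2 _ h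
  obtain ⟨B, hB, h⟩ := ldL_g W hB.1 hB.2.1 hB.2.2 _ h
  obtain ⟨C, hC, h⟩ := ldL_w W hC.1 hC.2.1 hC.2.2 _ h
  obtain ⟨N, hN, h⟩ := ldL_g W hN.1 hN.2.1 hN.2.2 _ h
  obtain ⟨T, hT, h⟩ := resT_ok L S n s n' s' hA hB hC hN _ h
  exact sm_third (fin_ok h hT)

end Pool.Agent.Work.MP_6bf1e5_an.H.Rk
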