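import Pool.Agent.Work.MP_6bf1e5_an.H.RkAng
import Pool.Agent.Work.MP_6bf1e5_an.H.RkDefs
import Pool.Agent.Work.MP_6bf1e5_an.H.DataDefs
import Pool.Agent.Lib.KTab.Fast

/-! The stored tables describe the sums over the degrees (owner helper2). -/

open Finset
open Polynomial (derivative)

namespace Pool.Agent.Work.MP_6bf1e5_an.H.Rk

open Pool.Agent.Lib.KLA Pool.Agent.Lib.KTab

export Pool.Agent.Lib.KTab (Tab Bd)

variable {W n s x K sA j : ℕ} {R : ℕ → ℝ → ℂ}

theorem hl_ok (n a : ℕ) : Ok (hl n a) (All (fun q h => h = hh q * a) 0) :=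
  (iterK_ok (P := fun q h => h = hh q * a) (f := fun i a k =>
    strict (Nat.div (Nat.mul a (Nat.add (Nat.mul 4 i) 6)) (Nat.add i 1)) k)
    (fun i h e k hk => ⟨_, by
      rw [e, div_eq', Nat.mul_eq, Nat.add_eq, Nat.add_eq, Nat.mul_eq, mul_right_comm,
        mul_comm (hh i), ← hh_succ, mul_assoc, Nat.mul_div_cancel_left _ i.succ_pos], hk⟩)
    n 0 a (by simp [hh])).mono fun _ h => h.1

theorem co_near (j r sA : ℕ) : |2 ^ sA * co (j + r) j -
    (hh r * (hh (2 * j + r + 1) * 2 ^ sA) / 2 ^ (4 * (j + r) + 1) : ℕ)| ≤ 1 := by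
  have := ediv_err (hh r * (hh (2 * j + r + 1) * 2 ^ sA) : ℕ) (4 * (j + r) + 1)
  rw [co, if_pos (by omega), Nat.add_sub_cancel_left, show j + r + j + 1 = 2 * j + r + 1 by ring,
    abs_sub_comm]
  convert this using 3
  · rw [← Int.cast_natCast, Int.natCast_div]
    norm_num
  · push_cast
    ring

theorem dotH_ok {k : ℕ → ℕ → Bool} : ∀ (l : List Tab) (r : ℕ) (H H' : List ℕ) (P Q : ℕ),
    All (fun i T => Rep true W S0 T fun ω _ => R i ω) (j + r) l →
    (∀ T ∈ l, T.n = n ∧ T.m = 0 ∧ T.s = s ∧ T.x ≤ x) → All (fun q h => h = hh q * 1) r H →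
    All (fun q h => h = hh q * 2 ^ sA) (2 * j + r + 1) H' →
    dotH K l H H' (4 * (j + r) + 1) P Q k = true → ∃ (P' Q' : ℕ) (G : ℂ → ℂ → ℂ), k P' Q' = true ∧
      Fam ⊥ n 0 (K * (l.map Tab.M).sum) G ∧ (P' : ℂ) - Q' = P - Q + G (2 ^ W) (2 ^ (W * S0)) ∧
      Sm (n + 2 * x) 0 (K * (l.map Tab.e).sum + ((l.map Tab.M).sum + (l.map Tab.e).sum))
        fun ω θ => 2 ^ (s + sA) * ∑ q ∈ range l.length, co (j + r + q) j * R (j + r + q) ω -
          tr n 0 G ω θ
  | [], _, _, _, P, Q, _, _, _, _, h => ⟨P, Q, _, h, by simpa using Fam.zero ⊥ n 0, by simp,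
      by simpa [tr] using Sm.zero (n + 2 * x) 0⟩
  | _ :: _, _, [], _, _, _, _, _, _, _, h => absurd h Bool.false_ne_true
  | _ :: _, _, _ :: _, [], _, _, _, _, _, _, h => absurd h Bool.false_ne_true
  | ⟨g, y, n', m, x', s', M, e⟩ :: l, r, h1 :: H, h2 :: H', P, Q, hl, hb, hH, hH', h => by
    obtain ⟨e1, rfl, e3, hx⟩ : n' = n ∧ m = 0 ∧ s' = s ∧ x' ≤ x := hb _ List.mem_cons_self
    subst n' s'
    have c := co_near j r sA
    obtain rfl : h1 = hh r * 1 := hH.1
    obtain rfl : h2 = hh (2 * j + r + 1) * 2 ^ sA := hH'.1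
    change bnd (Nat.ble (Nat.shiftRight (_ * _) _) K) (cnd g
      (dotH K l H H' (4 * (j + (r + 1)) + 1) P (Q + Nat.shiftRight (_ * _) _ * y) k)
      (dotH K l H H' (4 * (j + (r + 1)) + 1) (P + Nat.shiftRight (_ * _) _ * y) Q k)) = true at h
    rw [mul_one, shr_eq, bnd_iff, Nat.ble_eq] at h
    generalize hh r * (hh (2 * j + r + 1) * 2 ^ sA) / 2 ^ (4 * (j + r) + 1) = d at h c
    obtain ⟨hd, h⟩ := h
    obtain ⟨P1, Q1, e1, h⟩ : ∃ P1 Q1 : ℕ, (P1 : ℂ) - Q1 = P - Q + d * sv g y ∧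
        dotH K l H H' (4 * (j + (r + 1)) + 1) P1 Q1 k = true := by
      cases g
      · exact ⟨_, _, by simp [sv]; ring, h⟩
      · exact ⟨_, _, by simp [sv]; ring, h⟩
    obtain ⟨P', Q', G', hk, f1, f2, f3⟩ := dotH_ok l (r + 1) H H' P1 Q1 hl.2
      (fun T hT => hb T (List.mem_cons_of_mem _ hT)) hH.2 hH'.2 h
    have g0 := hl.1.sm.sm
    obtain ⟨G, g1, g2, g3⟩ := hl.1
    dsimp only at *
    have hd' : (d : ℝ) ≤ K := by exact_mod_cast hd
    refine ⟨P', Q', _, hk, ((g1.smul (int_mem d)).add f1).mono le_rfl le_rfl ?_, ?_, ?_⟩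
    · simp only [List.map_cons, List.sum_cons, Int.cast_natCast, Nat.abs_cast]
      push_cast
      nlinarith [Nat.cast_nonneg (α := ℝ) M]
    · rw [f2, e1, g2]
      push_cast
      ring
    · refine (((((g3.sm.smul d).add (g0.smul (2 ^ sA * co (j + r) j - d))).box (n' := n + 2 * x)
        (by omega) (by omega) le_rfl rfl).add f3).congr fun ω θ => ?_).le ?_
      · rw [List.length_cons, sum_range_succ']
        simp only [tr, add_assoc, add_comm 1, add_zero]
        push_cast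
        ring
      · simp only [List.map_cons, List.sum_cons, Nat.abs_cast]
        push_cast
        nlinarith [Nat.cast_nonneg (α := ℝ) M, Nat.cast_nonneg (α := ℝ) e]

theorem allH_ok {α : Type} {f : ℕ → List Tab → List ℕ → α → Bool} {I : ℕ → List Tab → List ℕ → Prop}
    (hI : ∀ j l H, I j l H → I (j + 1) l.tail H.tail.tail) : ∀ (Z : List α) (j : ℕ) (l : List Tab)
      (H : List ℕ), I j l H → allH f Z j l H = true →
      All (fun j z => ∃ l H, I j l H ∧ f j l H z = true) j Z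
  | [], _, _, _, _, _ => trivial
  | z :: Z, j, l, H, i, h => by
    change bnd (f j l H z) (allH f Z (j + 1) (ltl l) (ltl (ltl H))) = true at h
    rw [bnd_iff, ltl_eq, ltl_eq, ltl_eq] at h
    exact ⟨⟨l, H, i, h.1⟩, allH_ok hI Z _ _ _ (hI _ _ _ i) h.2⟩

theorem synH_ok {α : Type} {bA j0 J : ℕ} {t : α → Tab → Bool} {Z : List α} {l : List Tab}
    (h : synH sA bA n s j0 t Z l = true)
    (hl : All (fun i T => Rep true W S0 T fun ω _ => R i ω) j0 l) (hJ : l.length = J - j0) :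
    All (fun j z => ∃ T, Rep true W S0 T (fun ω _ => ∑ i ∈ range J, co i j * R i ω) ∧
      t z T = true) j0 Z := by
  obtain ⟨x, h, -, hb⟩ := sums_ok h
  simp only [strict_eq, add_zero] at h
  obtain ⟨H, hH, h⟩ := hl_ok _ _ _ h
  obtain ⟨H', hH', h⟩ := hl_ok _ _ _ h
  simp only [shl_eq, one_mul, Nat.add_eq, Nat.mul_eq, ldrop_eq] at h hH'
  have b : Bd n s x (l.map Tab.M).sum (l.map Tab.e).sum l := ⟨hb, le_rfl, le_rfl⟩
  generalize (l.map Tab.M).sum = M at h b
  generalize (l.map Tab.e).sum = e at h b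
  refine (allH_ok (I := fun j l H' => All (fun i T => Rep true W S0 T fun ω _ => R i ω) j l ∧
    Bd n s x M e l ∧ l.length = J - j ∧ All (fun q h => h = hh q * 2 ^ sA) (2 * j + 0 + 1) H')
    (fun j l H i => ⟨i.1.tail, i.2.1.tail, by rw [List.length_tail, i.2.2.1, Nat.sub_sub],
      i.2.2.2.tail.tail⟩) Z j0 l _ ⟨hl, b, hJ, by simpa using hH'.drop (2 * j0 + 1)⟩ h).mono'
    fun j z _ _ => ?_
  rintro ⟨l, H', ⟨i1, i2, i3, i4⟩, h⟩
  obtain ⟨P, Q, G, h, f1, f2, f3⟩ := dotH_ok (j := j) l 0 H H' 0 0 i1 i2.1 hH i4 h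
  obtain ⟨g, a, ha, h⟩ := ssub_ok h
  have m1 : ((l.map Tab.M).sum : ℝ) ≤ M := by exact_mod_cast i2.2.1
  have m2 : ((l.map Tab.e).sum : ℝ) ≤ e := by exact_mod_cast i2.2.2
  refine ⟨_, ?_, h⟩
  refine ⟨G, f1.mono le_rfl le_rfl ?_, ?_, ((f3.congr fun ω θ => ?_).le ?_).er true⟩ <;> dsimp only
  · rw [Nat.cast_mul]
    gcongr
  · rw [ha]
    push_cast
    simpa using f2
  · congr 2
    rw [i3]
    rcases le_total j J with hj | hj
    · obtain ⟨r, rfl⟩ := Nat.exists_eq_add_of_le hj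
      rw [sum_range_add, Nat.add_sub_cancel_left, sum_eq_zero fun i hi => by
        rw [co, if_neg (by have := mem_range.1 hi; omega)]; simp, zero_add]
      rfl
    · rw [Nat.sub_eq_zero_of_le hj, sum_range_zero]
      exact sum_eq_zero fun i hi => by rw [co, if_neg (by have := mem_range.1 hi; omega)]; simp
  · rw [Nat.cast_add, Nat.cast_add, Nat.cast_mul]
    gcongr

/-- The row describes the function `f` of the cosine of the first angle. -/
abbrev Row (W : ℕ) (T : Tab) (f : ℝ → ℝ) : Prop := Rep true W S0 T (ang fun x _ => f x)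

variable {A B : Tab} {f g : ℝ → ℝ}

theorem Row.congr (h : Row W A f) (e : ∀ x, g x = f x) : Row W A g := by
  rwa [show g = f from funext e]

theorem Row.mul (h : Row W A f) (h' : Row W B g) : Ok (mul A B) (Row W · fun x => f x * g x) :=
  (mul_ok h h').mono fun _ h => Rep.congr h fun _ _ => Complex.ofReal_mul _ _

theorem Row.add (h : Row W A f) (h' : Row W B g) :
    Ok (add W S0 A B) (Row W · fun x => f x + g x) :=
  (add_ok h h').mono fun _ h => Rep.congr h fun _ _ => Complex.ofReal_add _ _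

theorem Row.half (h : Row W A f) (t : ℕ) : Ok (half t A) (Row W · fun x => f x / 2 ^ t) :=
  (half_ok t h).mono fun _ h => Rep.congr h fun _ _ => by simp [ang]

theorem row_cst (W : ℕ) (g : Bool) (a s : ℕ) : Row W (cst g a s) fun _ => sv g a / 2 ^ s :=
  cst_rep true W S0 g a s

theorem row_nat (W a : ℕ) : Row W (cst false a 0) fun _ => a :=
  (row_cst W false a 0).congr fun _ => by simp [sv]

theorem row_x (W : ℕ) : Row W (cx W) fun x => x := cx_rep true W S0

theorem x2_ok (W : ℕ) : Ok (x2 W) (Row W · fun x => x ^ 2) :=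
  ((row_x W).mul (row_x W)).mono fun _ h => h.congr sq

theorem p8_ok (W : ℕ) (g : Bool) (a : ℕ) : Ok (p8 W g a) (Row W · fun x => sv g a + x ^ 8) :=
  (x2_ok W).bind fun _ h => (h.mul h).bind fun _ h => (h.mul h).bind fun _ h =>
    ((row_cst W g a 0).add h).bind fun _ h => meas_ok (h.congr fun x => by ring)

theorem kpow_ok (W n s J : ℕ) : Ok (kpow W n s J) fun K =>
    All (fun i T => Row W T fun x => (1 - x ^ 8) ^ i) 0 K ∧ K.length = J :=
  (p8_ok W true 1).bind fun _ h => (neg_ok h).bind fun K h => by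
    have hK : Row W K fun x => 1 - x ^ 8 := Rep.congr h fun _ _ => by simp [ang, sv]; ring
    exact iterK_ok (P := fun i T => Row W T fun x => (1 - x ^ 8) ^ i)
      (f := fun _ A k => mul K A fun T => trim W S0 n s T fun T => meas W S0 T k)
      (fun i A hA => (hK.mul hA).bind fun _ h => (trim_ok n s h).bind fun _ h =>
        meas_ok (Row.congr h fun x => pow_succ' _ _)) J 0 _
      ((row_nat W 1).congr fun _ => by simp)

theorem thK_ok (L : ℕ) (hf : ContDiff ℝ (⊤ : ℕ∞) f) (h : Row W A fun x => f (x ^ 2)) :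
    Ok (thK W L A) (Row W · fun x => thx f (x ^ 2)) :=
  (dX_ok (F' := fun x _ => deriv f (x ^ 2) * (2 * x)) L h (fun x _ =>
      ((hf.differentiable (by simp) (x ^ 2)).hasDerivAt.comp x (hasDerivAt_pow 2 x)).congr_deriv
        (by simp))
    fun _ => ((hf.continuous_deriv (by simp)).comp (continuous_pow 2)).mul (by fun_prop)).bind
    fun _ h => ((row_x W).mul h).bind fun _ h => (h.half 1).mono fun _ h => h.congr fun x => by
      rw [thx]; ring

theorem wpK_ok (L i : ℕ) {K K' : Tab} (hK : Row W K fun x => sv true 1 + x ^ 8)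
    (hK' : Row W K' fun x => sv false 1 + x ^ 8) (hf : ContDiff ℝ (⊤ : ℕ∞) f)
    (h : Row W A fun x => f (x ^ 2)) :
    Ok (wpK W L K K' i A) (Row W · fun x => wp 1 (2 * i + 2) f (x ^ 2)) :=
  (meas_ok h).bind fun _ h => (thK_ok L hf h).bind fun _ hT => ((row_nat W _).mul h).bind
    fun _ hU => (hT.add hU).bind fun H hH => by
      have hH : Row W H fun x => hp (2 * i + 2) f (x ^ 2) := hH.congr fun x => by
        simp only [hp, Nat.add_eq, Nat.mul_eq]; push_cast; ring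
      exact (thK_ok L (hp_smooth _ hf) hH).bind fun _ hT => (hK.mul hT).bind fun _ hT =>
        ((row_nat W _).mul hK').bind fun _ hC => (hC.mul hH).bind fun _ hU =>
        (hU.add hT).bind fun _ h => (h.half 2).mono fun _ h => h.congr fun x => by
          simp only [wp, sv, Nat.add_eq, Nat.mul_eq]; push_cast; ring

theorem radK_ok (W1 W b s0 nk sk n s j0 : ℕ) {op : ℕ → Tab → (Tab → Bool) → Bool}
    {D : List (ℕ × ℕ)} {g : ℕ → ℝ → ℝ}
    (hop : ∀ i P, Row W1 P (fun x => gOf b s0 (D.getD i (0, 2 ^ b)) (x ^ 2)) →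
      Ok (op i P) (Row W1 · fun x => g i (x ^ 2))) :
    Ok (radK W1 W b s0 nk sk n s j0 op D) fun l =>
      All (fun i T => Row W T fun x => (1 - x ^ 8) ^ i * g i (x ^ 2)) j0 l ∧
        l.length = D.length - j0 :=
  (kpow_ok W1 nk sk _).bind fun K hK => by
    have h1 := (hK.1.lzip (all_self D (0, 2 ^ b))).drop j0
    rw [zero_add, ← ldrop_eq] at h1
    refine (mapK_ok (f := fun i (q : Tab × ℕ × ℕ) k => usep q fun K p => usep p fun c z =>
      cheb2 W1 b 9 c s0 z fun P => op i P fun P => meas W1 S0 P fun P => mul K P fun T =>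
      trim W1 S0 n s T fun T => meas W1 S0 T fun T =>
      res2 W1 W S0 (Nat.add (Nat.log2 n) 1) T fun T => lift W S0 n 0 s T k) ?_ _ j0 h1).mono
      fun l h => ⟨h.1, by rw [h.2, ldrop_eq, List.length_drop, lzip_len, hK.2, llen_eq, min_self]⟩
    rintro i ⟨K, c, z⟩ ⟨h1, h2⟩
    exact (cheb2_ok true W1 S0 b 9 c s0 z).bind fun P hP => (hop i P (by rw [← h2]; exact hP.1)).bind
      fun _ h => (meas_ok h).bind fun _ h => (Row.mul h1 h).bind fun _ h => (trim_ok n s h).bind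
      fun _ h => (meas_ok h).bind fun _ h => (res2_ok W _ h).bind fun _ h =>
      (lift_ok n 0 s h).mono fun _ h => h.1

/-- The coefficient of `cos ((2 j + 1) θ)` in the table of the family `g`. -/
noncomputable def col (J : ℕ) (g : ℕ → ℝ → ℝ) (j : ℕ) (ω : ℝ) : ℂ := ∑ i ∈ range J,
  co i j * (((1 - Real.cos ω ^ 8) ^ i * g (2 * i + 2) (Real.cos ω ^ 2) : ℝ) : ℂ)

/-- The first `q` stored rows are near the rows of the table of `g`. -/
def Good (s N e J : ℕ) (g : ℕ → ℝ → ℝ) (Z : List (ℕ × ℕ × ℕ)) (q : ℕ) : Prop :=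
  Upto (fun j p => Near s N e p (col J g j)) Z q

theorem Good.zero (s N e J : ℕ) (g : ℕ → ℝ → ℝ) (Z : List (ℕ × ℕ × ℕ)) : Good s N e J g Z 0 :=
  trivial

variable {W1 nk sk sD N e L j0 q J : ℕ} {F : Fml} {Z : List (ℕ × ℕ × ℕ)}

theorem Good.tabK (hG : Good sD N e F.D.length F.g Z j0)
    (h : tabK W1 W F.b F.s nk sk n s sA F.D (chkR W S0 L sD N e) Z j0 q = true)
    (hJ : j0 + q = J) : Good sD N e F.D.length F.g Z J := by
  subst hJ
  obtain ⟨l, hl, h⟩ := radK_ok W1 W F.b F.s nk sk n s j0 (g := fun i => F.g (2 * i + 2))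
    (fun i P hP => Ok.pure (by rw [F.g_eq]; exact hP)) _ h
  exact hG.step ((synH_ok h hl.1 hl.2).mono' fun j z _ _ ⟨T, h1, h2⟩ => chkR_ok h2 h1)

theorem Good.tabW (hG : Good sD N e F.D.length (fun l => wp 1 l (F.g l)) Z j0)
    (h : tabW W1 W F.b F.s nk sk n s sA F.D (chkR W S0 L sD N e) Z j0 q = true)
    (hJ : j0 + q = J) : Good sD N e F.D.length (fun l => wp 1 l (F.g l)) Z J := by
  subst hJ
  obtain ⟨K, hK, h⟩ := p8_ok _ _ _ _ h
  obtain ⟨K', hK', h⟩ := p8_ok _ _ _ _ h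
  obtain ⟨l, hl, h⟩ := radK_ok W1 W F.b F.s nk sk n s j0
    (g := fun i => wp 1 (2 * i + 2) (F.g (2 * i + 2)))
    (fun i P hP => wpK_ok 9 i hK hK' (F.g_smooth _) (by rw [F.g_eq]; exact hP)) _ h
  exact hG.step ((synH_ok h hl.1 hl.2).mono' fun j z _ _ ⟨T, h1, h2⟩ => chkR_ok h2 h1)

/-- Loading of a stored table, at any width of the digits. -/
theorem ldL_ok (W : ℕ) {g : ℕ → ℝ → ℝ} {n : ℕ} (hG : Good s N e J g Z J) (hZ : llen Z = J)
    (hn : J ≤ n) (h0 : ∀ i, J ≤ i → ∀ x, g (2 * i + 2) x = 0) :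
    Ok (ldL W s N e Z) fun l => RepL true false W S0 (1 : ℕ) l (TA 1 (LN n) g) := fun k h => by
  obtain ⟨l, hl, h⟩ := mapK_ok (Q := fun j T => Rep true W S0 T fun ω _ => col J g j ω)
    (f := fun _ => ldR W 9 s N e) (fun j p hp => ldR_ok W S0 9 hp) Z 0 (hG.all hZ) _ h
  refine ⟨_, ?_, h⟩
  refine (by norm_num : (-1 + 2 : ℤ) = (1 : ℕ)) ▸ RepL.cons (d := -1) ?_
  refine ⟨col J g, hl.1, fun ω θ => ?_⟩
  obtain ⟨r, rfl⟩ := Nat.exists_eq_add_of_le hn
  rw [hl.2, ← llen_eq, hZ, TA, ang, sum_LN, sum_range_add, sum_eq_zero (s := range r) fun i _ => by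
    rw [h0 _ (by omega), mul_zero, zero_mul], add_zero]
  simp only [col, sum_mul, bas_false]
  rw [sum_comm, Complex.ofReal_sum]
  refine sum_congr rfl fun i hi => ?_
  rw [dP_cos (mem_range.1 hi), mul_sum, Complex.ofReal_sum,
    show (2 * i + 2) / 2 - 1 = i by omega, div_one]
  refine sum_congr rfl fun j _ => ?_
  push_cast
  ring_nf

theorem g_zero (F : Fml) (i : ℕ) (hi : F.D.length ≤ i) : F.g (2 * i + 2) = fun _ => 0 := by
  rw [F.g_eq, List.getD_eq_default _ _ hi]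
  exact funext (gOf_zero _ _)

theorem ldL_g (W : ℕ) {n : ℕ} (hG : Good s N e F.D.length F.g Z F.D.length)
    (hZ : llen Z = F.D.length) (hn : F.D.length ≤ n) :
    Ok (ldL W s N e Z) fun l => RepL true false W S0 (1 : ℕ) l (TA 1 (LN n) F.g) :=
  ldL_ok W hG hZ hn fun i hi x => by rw [g_zero F i hi]

theorem ldL_w (W : ℕ) {n : ℕ} (hG : Good s N e F.D.length (fun l => wp 1 l (F.g l)) Z F.D.length)
    (hZ : llen Z = F.D.length) (hn : F.D.length ≤ n) : Ok (ldL W s N e Z) fun l =>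
      RepL true false W S0 (1 : ℕ) l (TA 1 (LN n) fun l => wp 1 l (F.g l)) :=
  ldL_ok W hG hZ hn fun i hi x => by
    have e : ∀ l, hp l (fun _ => 0) = fun _ => 0 := fun l => funext fun x => by simp [hp, thx]
    simp [g_zero F i hi, wp, e, thx]

end Pool.Agent.Work.MP_6bf1e5_an.H.Rk
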