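import Pool.Agent.Work.MP_6bf1e5_an.H.SepA

/-! The separated calculus at a point, for explicit radial factors (owner helper84). -/

open scoped ContDiff ENNReal FourierTransform Real
open Set MeasureTheory

namespace Pool.Agent.Work.MP_6bf1e5_an.H

variable {a b : ℝ → ℝ} {a' b' : ℝ} {y : R3}

theorem sp_curl_tor (h : HasDerivAt a a' (‖y‖ ^ 2)) (l : ℕ) (i : Fin 3) :
    curl (sm (fun z => a (‖z‖ ^ 2)) (TT l)) i y =
      -((l + 1) * a (‖y‖ ^ 2) + 2 * ‖y‖ ^ 2 * a') * pd i (Hl l) y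
        + 2 * l * a' * (y i * Hl l y) := by
  rw [sp_curl_sm (sp_diff_rad h.differentiableAt) (fun i => sp_diff_TT l i y), curl_TT]
  have h1 := cross_pos_TT l i y
  simp only [cross, grad, pos, sp_pd_rad h] at h1 ⊢
  linear_combination 2 * a' * h1

theorem sp_dvg_tor (h : HasDerivAt a a' (‖y‖ ^ 2)) (l : ℕ) :
    dvg (sm (fun z => a (‖z‖ ^ 2)) (TT l)) y = 0 := by
  rw [sp_dvg_sm (sp_diff_rad h.differentiableAt) (fun i => sp_diff_TT l i y), dvg_TT]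
  have h1 := dot_pos_TT l y
  simp only [dot, grad, pos, sp_pd_rad h, Fin.sum_univ_three] at h1 ⊢
  linear_combination 2 * a' * h1

theorem sp_yd_tor (h : HasDerivAt a a' (‖y‖ ^ 2)) (l : ℕ) (i : Fin 3) :
    yd (sm (fun z => a (‖z‖ ^ 2)) (TT l) i) y =
      (2 * ‖y‖ ^ 2 * a' + l * a (‖y‖ ^ 2)) * TT l i y := by
  have h1 := sp_yd_mul (sp_diff_rad h.differentiableAt) (sp_diff_TT l i y)
  rw [sp_yd_rad h, (harm_TT l i).toHom.euler] at h1
  refine Eq.trans h1 ?_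
  ring

theorem sp_pd_mer (ha : HasDerivAt a a' (‖y‖ ^ 2)) (hb : HasDerivAt b b' (‖y‖ ^ 2)) (l : ℕ)
    (i j : Fin 3) :
    pd j (fun z => a (‖z‖ ^ 2) * pd i (Hl l) z + b (‖z‖ ^ 2) * (z i * Hl l z)) y =
      2 * a' * y j * pd i (Hl l) y + a (‖y‖ ^ 2) * pd j (pd i (Hl l)) y
        + (2 * b' * y j * (y i * Hl l y)
          + b (‖y‖ ^ 2) * ((if i = j then 1 else 0) * Hl l y + y i * pd j (Hl l) y)) := by
  have da := sp_diff_rad ha.differentiableAt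
  have db := sp_diff_rad hb.differentiableAt
  have d1 := (sp_coord i y).fun_mul (sp_diff_Hl l y)
  rw [sp_pd_add (da.fun_mul (sp_diff_pd_Hl l i y)) (db.fun_mul d1), sp_pd_mul da (sp_diff_pd_Hl l i y),
    sp_pd_mul db d1, sp_pd_mul (sp_coord i y) (sp_diff_Hl l y), sp_pd_rad ha, sp_pd_rad hb,
    ResHom_pd_coord]

theorem sp_curl_mer (ha : HasDerivAt a a' (‖y‖ ^ 2)) (hb : HasDerivAt b b' (‖y‖ ^ 2)) (l : ℕ)
    (i : Fin 3) :
    curl (fun i z => a (‖z‖ ^ 2) * pd i (Hl l) z + b (‖z‖ ^ 2) * (z i * Hl l z)) i y =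
      (2 * a' - b (‖y‖ ^ 2)) * TT l i y := by
  have e := congrFun (ResHom_pd_comm (hom_Hl l).smooth (i + 1) (i + 2)) y
  simp only [curl, sp_pd_mer ha hb, TT, cross, pos, grad, e]
  fin_cases i <;> simp <;> ring

theorem sp_dvg_mer (ha : HasDerivAt a a' (‖y‖ ^ 2)) (hb : HasDerivAt b b' (‖y‖ ^ 2)) (l : ℕ) :
    dvg (fun i z => a (‖z‖ ^ 2) * pd i (Hl l) z + b (‖z‖ ^ 2) * (z i * Hl l z)) y =
      (2 * l * a' + 2 * ‖y‖ ^ 2 * b' + (l + 3) * b (‖y‖ ^ 2)) * Hl l y := by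
  have h1 := (hom_Hl l).euler y
  have h2 := (harm_Hl l).harm y
  simp only [yd, lap, Fin.sum_univ_three] at h1 h2
  simp only [dvg, sp_pd_mer ha hb, Fin.sum_univ_three, if_true]
  have h3 := sp_normsq y
  linear_combination (2 * a' + b (‖y‖ ^ 2)) * h1 + a (‖y‖ ^ 2) * h2 - 2 * b' * Hl l y * h3

theorem sp_yd_mer (ha : HasDerivAt a a' (‖y‖ ^ 2)) (hb : HasDerivAt b b' (‖y‖ ^ 2)) (l : ℕ)
    (i : Fin 3) :
    yd (fun z => a (‖z‖ ^ 2) * pd i (Hl l) z + b (‖z‖ ^ 2) * (z i * Hl l z)) y =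
      (2 * ‖y‖ ^ 2 * a' + (l - 1) * a (‖y‖ ^ 2)) * pd i (Hl l) y
        + (2 * ‖y‖ ^ 2 * b' + (l + 1) * b (‖y‖ ^ 2)) * (y i * Hl l y) := by
  have da := sp_diff_rad ha.differentiableAt
  have db := sp_diff_rad hb.differentiableAt
  have d1 := (sp_coord i y).fun_mul (sp_diff_Hl l y)
  have h1 := ((hom_coord i).mul (hom_Hl l)).euler y
  rw [sp_yd_add (da.fun_mul (sp_diff_pd_Hl l i y)) (db.fun_mul d1), sp_yd_mul da (sp_diff_pd_Hl l i y),
    sp_yd_mul db d1, sp_yd_rad ha, sp_yd_rad hb, (hom_Hl l).yd_pd, h1]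
  push_cast
  ring

/-- The zonal harmonics are axially symmetric. -/
theorem sp_dot_Jv_grad (l : ℕ) (y : R3) : y 1 * pd 0 (Hl l) y - y 0 * pd 1 (Hl l) y = 0 := by
  have h := TT_eq l 2 y
  simp [TT, cross, pos, grad, Jv] at h
  linarith

theorem dot_TT_grad (l l' : ℕ) (y : R3) : dot (TT l) (grad (Hl l')) y = 0 := by
  have h := sp_dot_Jv_grad l' y
  simp only [dot, TT_eq, Jv, grad, Fin.sum_univ_three]
  simp
  linear_combination bl l y * h

theorem sp_grad_Hl (l : ℕ) (i : Fin 3) (y : R3) : ‖y‖ ^ 2 * pd i (Hl l) y =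
    l * (Hl l y * y i) + bl l y * ((if i = 2 then ‖y‖ ^ 2 else 0) - y 2 * y i) := by
  have h := cross_pos_TT l i y
  simp only [cross, pos, TT_eq, Jv] at h
  have h3 := sp_normsq y
  fin_cases i <;> simp at h ⊢
  · linear_combination h
  · linear_combination h
  · linear_combination h - bl l y * h3

end Pool.Agent.Work.MP_6bf1e5_an.H
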