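import Pool.Agent.Work.MP_6bf1e5_an.H.SepC

/-! The profiles `Om ^ e * P (1 - Om)`: calculus and algebra (owner helper84). -/

open scoped ContDiff ENNReal FourierTransform Real
open Set MeasureTheory Polynomial

namespace Pool.Agent.Work.MP_6bf1e5_an.H

variable {l : ℕ} {f g α β α' β' : ℝ → ℝ} {P P' Q Q' : ℝ[X]} {e a : ℝ}

theorem radS_omF : RadS (omF e P) := by
  have h1 : ContDiffOn ℝ ∞ (fun z : ℝ => 2 / (1 + z)) (Ioi (-1)) :=
    contDiffOn_const.div (contDiffOn_const.add contDiffOn_id) fun z hz => by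
      have : -1 < z := hz
      linarith
  have h2 : ContDiff ℝ ∞ fun x : ℝ => P.eval x := by
    simpa using P.contDiff_aeval (𝕜 := ℝ) ∞
  refine ⟨1, one_pos, (h1.rpow_const_of_ne fun z hz => ?_).mul
    (h2.comp_contDiffOn (contDiffOn_const.sub h1))⟩
  have : -1 < z := hz
  have : 0 < 1 + z := by linarith
  positivity

theorem rad_omF (y : R3) : rad (omF e P) y = Op e y * P.eval (1 - Om y) := rfl

theorem sp_has_omF {z : ℝ} (hz : -1 < z) : HasDerivAt (omF e P) (omF (e + 1) (dP e P) z) z := by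
  have h0 : 0 < 1 + z := by linarith
  have hw : 0 < 2 / (1 + z) := by positivity
  have h1 : HasDerivAt (fun z : ℝ => 2 / (1 + z)) (-((2 / (1 + z)) ^ 2 / 2)) z := by
    have := (hasDerivAt_const z (2 : ℝ)).fun_div ((hasDerivAt_id' z).const_add 1) h0.ne'
    refine this.congr_deriv ?_
    field_simp
    ring
  have h2 := h1.rpow_const (p := e) (Or.inl hw.ne')
  have h3 := (P.hasDerivAt (1 - 2 / (1 + z))).comp z (h1.const_sub 1)
  refine (h2.fun_mul h3).congr_deriv ?_
  simp only [omF, dP, eval_mul, eval_sub, eval_C, eval_one, eval_X, Function.comp_apply]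
  rw [Real.rpow_add_one hw.ne', Real.rpow_sub_one hw.ne']
  generalize 2 / (1 + z) = w at hw
  field_simp
  ring

theorem deriv_omF {z : ℝ} (hz : -1 < z) : deriv (omF e P) z = omF (e + 1) (dP e P) z :=
  (sp_has_omF hz).deriv

theorem sp_omF_succ {z : ℝ} (hz : -1 < z) : omF (e + 1) P z = omF e ((1 - X) * P) z := by
  have h0 : 0 < 1 + z := by linarith
  have hw : 0 < 2 / (1 + z) := by positivity
  simp only [omF, eval_mul, eval_sub, eval_one, eval_X]
  rw [Real.rpow_add_one hw.ne']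
  ring

theorem sp_mul_omF {z : ℝ} (hz : -1 < z) : z * omF (e + 1) P z = omF e ((1 + X) * P) z := by
  have h0 : 0 < 1 + z := by linarith
  have hw : 0 < 2 / (1 + z) := by positivity
  have h1 : z * (2 / (1 + z)) = 2 - 2 / (1 + z) := by field_simp; ring
  simp only [omF, eval_mul, eval_add, eval_one, eval_X]
  rw [Real.rpow_add_one hw.ne']
  linear_combination (2 / (1 + z)) ^ e * eval (1 - 2 / (1 + z)) P * h1

theorem sp_omF_add (z : ℝ) : omF e (P + Q) z = omF e P z + omF e Q z := by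
  simp only [omF, eval_add]; ring

theorem sp_omF_sub (z : ℝ) : omF e (P - Q) z = omF e P z - omF e Q z := by
  simp only [omF, eval_sub]; ring

theorem sp_omF_neg (z : ℝ) : omF e (-P) z = -omF e P z := by
  simp only [omF, eval_neg]; ring

theorem sp_omF_C (c z : ℝ) : omF e (C c * P) z = c * omF e P z := by
  simp only [omF, eval_mul, eval_C]; ring

theorem sp_omF_two (z : ℝ) : omF e (2 * P) z = 2 * omF e P z := by
  simp only [omF, eval_mul, eval_ofNat]; ring

theorem sp_tor_congr (h : ∀ z, -1 < z → f z = g z) : tor l f = tor l g := by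
  funext i y
  rw [sp_tor_apply, sp_tor_apply, h _ (lt_of_lt_of_le (by norm_num) (sq_nonneg _))]

theorem sp_mer_congr (h : ∀ z, -1 < z → α z = α' z) (h' : ∀ z, -1 < z → β z = β' z) :
    mer l α β = mer l α' β' := by
  funext i y
  have hy : -1 < ‖y‖ ^ 2 := lt_of_lt_of_le (by norm_num) (sq_nonneg _)
  rw [sp_mer_apply, sp_mer_apply, h _ hy, h' _ hy]

/-- The radial Euler operator on the profiles. -/
theorem sp_yd_omF (c : ℝ) {z : ℝ} (hz : -1 < z) : 2 * z * deriv (omF e P) z + c * omF e P z =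
    omF e (2 * (1 + X) * dP e P + C c * P) z := by
  rw [deriv_omF hz, sp_omF_add, sp_omF_C, mul_assoc 2 (1 + X), sp_omF_two, ← sp_mul_omF hz]
  ring

theorem curl_tO : curl (tO l e P) =
    mO l e (-(C (l + 1 : ℝ) * P + 2 * (1 + X) * dP e P)) (C (2 * l : ℝ) * dP e P) := by
  rw [tO, curl_tor radS_omF]
  refine sp_mer_congr (fun z hz => ?_) fun z hz => ?_
  · rw [sp_omF_neg, add_comm (C _ * P), ← sp_yd_omF _ hz]; ring
  · rw [sp_omF_C, deriv_omF hz]

theorem curl_mO : curl (mO l e P P') = tO l (e + 1) (2 * dP e P - P') := by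
  rw [mO, curl_mer radS_omF radS_omF]
  refine sp_tor_congr fun z hz => ?_
  rw [sp_omF_sub, sp_omF_two, deriv_omF hz]

theorem grad_sO : grad (sO l e P) = mO l e P (2 * dP e P) := by
  rw [sO, grad_rad_Hl radS_omF]
  refine sp_mer_congr (fun _ _ => rfl) fun z hz => ?_
  rw [sp_omF_two, deriv_omF hz]

theorem cross_pos_tO :
    cross pos (tO l (e + 1) P) = mO l e (-((1 + X) * P)) (C (l : ℝ) * P) := by
  rw [tO, cross_pos_tor]
  refine sp_mer_congr (fun z hz => ?_) fun z _ => ?_
  · rw [sp_omF_neg, sp_mul_omF hz]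
  · rw [sp_omF_C]

theorem cross_pos_mO : cross pos (mO l e P P') = tO l e P := cross_pos_mer

theorem yd_tO :
    (fun i => yd (tO l e P i)) = tO l e (2 * (1 + X) * dP e P + C (l : ℝ) * P) := by
  rw [tO, yd_tor radS_omF]
  exact sp_tor_congr fun z hz => sp_yd_omF _ hz

theorem yd_mO : (fun i => yd (mO l e P P' i)) = mO l e (2 * (1 + X) * dP e P + C (l - 1 : ℝ) * P)
    (2 * (1 + X) * dP (e + 1) P' + C (l + 1 : ℝ) * P') := by
  rw [mO, yd_mer radS_omF radS_omF]
  exact sp_mer_congr (fun z hz => sp_yd_omF _ hz) fun z hz => sp_yd_omF _ hz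

theorem sp_Om_pos (y : R3) : 0 < Om y := by
  unfold Om
  positivity

theorem sp_Op_add (a b : ℝ) (y : R3) : Op (a + b) y = Op a y * Op b y :=
  Real.rpow_add (sp_Om_pos y) a b

theorem sp_tO_apply (l : ℕ) (e : ℝ) (P : ℝ[X]) (i : Fin 3) (y : R3) :
    tO l e P i y = Op e y * P.eval (1 - Om y) * TT l i y := rfl

theorem sp_mO_apply (l : ℕ) (e : ℝ) (P P' : ℝ[X]) (i : Fin 3) (y : R3) :
    mO l e P P' i y = Op e y * P.eval (1 - Om y) * pd i (Hl l) y
      + Op (e + 1) y * P'.eval (1 - Om y) * (Hl l y * y i) := rfl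

theorem sp_sO_apply (l : ℕ) (e : ℝ) (P : ℝ[X]) (y : R3) :
    sO l e P y = Op e y * P.eval (1 - Om y) * Hl l y := rfl

theorem sm_tO : sm (Op a) (tO l e P) = tO l (e + a) P := by
  funext i y
  rw [sm, sp_tO_apply, sp_tO_apply, sp_Op_add]
  ring

theorem sm_mO : sm (Op a) (mO l e P P') = mO l (e + a) P P' := by
  funext i y
  rw [sm, sp_mO_apply, sp_mO_apply, add_right_comm e a 1, sp_Op_add e a, sp_Op_add (e + 1) a]
  ring

theorem tO_succ : tO l (e + 1) P = tO l e ((1 - X) * P) := sp_tor_congr fun _ hz => sp_omF_succ hz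

theorem mO_succ : mO l (e + 1) P P' = mO l e ((1 - X) * P) ((1 - X) * P') :=
  sp_mer_congr (fun _ hz => sp_omF_succ hz) fun _ hz => sp_omF_succ hz

theorem tO_add : tO l e (P + Q) = tO l e P + tO l e Q := by
  funext i y
  simp only [Pi.add_apply, sp_tO_apply, eval_add]
  ring

theorem mO_add : mO l e (P + Q) (P' + Q') = mO l e P P' + mO l e Q Q' := by
  funext i y
  simp only [Pi.add_apply, sp_mO_apply, eval_add]
  ring

theorem tO_smul (c : ℝ) (i : Fin 3) (y : R3) : tO l e (C c * P) i y = c * tO l e P i y := by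
  simp only [sp_tO_apply, eval_mul, eval_C]
  ring

theorem mO_smul (c : ℝ) (i : Fin 3) (y : R3) :
    mO l e (C c * P) (C c * P') i y = c * mO l e P P' i y := by
  simp only [sp_mO_apply, eval_mul, eval_C]
  ring

end Pool.Agent.Work.MP_6bf1e5_an.H
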