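import Pool.Agent.Work.MP_6bf1e5_an.H.SepD

/-! Symbol classes and polynomial degrees of the separated fields (owner helper84). -/

open scoped ContDiff ENNReal FourierTransform Real
open Set MeasureTheory Polynomial

namespace Pool.Agent.Work.MP_6bf1e5_an.H

variable {l m n d k k' : ℕ} {f g : Sc} {P P' : ℝ[X]} {e r : ℝ}

theorem sp_pds_smooth (h : ContDiff ℝ ∞ f) (L : List (Fin 3)) : ContDiff ℝ ∞ (pds L f) := by
  induction L with
  | nil => exact h
  | cons j L ih => exact ResHom_smooth ih j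

theorem sp_pds_add (h : ContDiff ℝ ∞ f) (h' : ContDiff ℝ ∞ g) (L : List (Fin 3)) :
    pds L (fun y => f y + g y) = fun y => pds L f y + pds L g y := by
  induction L with
  | nil => rfl
  | cons j L ih =>
    funext y
    change pd j (pds L fun y => f y + g y) y = _
    rw [ih]
    exact ResHom_pd_add (sp_pds_smooth h L) (sp_pds_smooth h' L) j y

theorem sp_sym_add (h : Sym r f) (h' : Sym r g) : Sym r fun y => f y + g y := by
  refine ⟨h.1.add h'.1, fun L => ?_⟩
  obtain ⟨C, hC⟩ := h.2 L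
  obtain ⟨C', hC'⟩ := h'.2 L
  refine ⟨C + C', fun y => ?_⟩
  rw [sp_pds_add h.1 h'.1, add_mul]
  exact (abs_add_le _ _).trans (add_le_add (hC y) (hC' y))

/-- A family closed under derivatives consists of symbols. -/
theorem sp_sym_of_closed {S : ℝ → Sc → Prop} (h1 : ∀ r f, S r f → ContDiff ℝ ∞ f)
    (h2 : ∀ r f, S r f → ∃ C, ∀ y, |f y| ≤ C * (1 + ‖y‖) ^ r)
    (h3 : ∀ r f, S r f → ∀ j, ∃ g h, S (r - 1) g ∧ S (r - 1) h ∧ pd j f = fun y => g y + h y)
    (h : S r f) : Sym r f := by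
  refine ⟨h1 r f h, fun L => ?_⟩
  induction L using List.reverseRecOn generalizing r f with
  | nil => simpa [pds] using h2 r f h
  | append_singleton L j ih =>
    obtain ⟨g, g', hg, hg', hs⟩ := h3 r f h j
    obtain ⟨C, hC⟩ := ih hg
    obtain ⟨C', hC'⟩ := ih hg'
    refine ⟨C + C', fun y => ?_⟩
    have e1 : pds (L ++ [j]) f = pds L (pd j f) := by simp [pds]
    have e2 : r - ((L ++ [j]).length : ℕ) = r - 1 - L.length := by simp; ring
    rw [e1, e2, hs, sp_pds_add (h1 _ _ hg) (h1 _ _ hg'), add_mul]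
    exact (abs_add_le _ _).trans (add_le_add (hC y) (hC' y))

theorem sp_Op_le (e : ℝ) (y : R3) : Op e y ≤ (2 ^ e + 4 ^ e) * (1 + ‖y‖) ^ (-(2 * e)) := by
  have hn := norm_nonneg y
  have h1 : 0 < 1 + ‖y‖ := by positivity
  have h2 : Om y = Om y * (1 + ‖y‖) ^ 2 * (1 + ‖y‖) ^ (-2 : ℝ) := by
    rw [Real.rpow_neg h1.le, Real.rpow_two]
    field_simp
  have h3 : 2 ≤ Om y * (1 + ‖y‖) ^ 2 := by
    rw [Om, div_mul_eq_mul_div, le_div_iff₀ (by positivity)]
    nlinarith
  have h4 : Om y * (1 + ‖y‖) ^ 2 ≤ 4 := by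
    rw [Om, div_mul_eq_mul_div, div_le_iff₀ (by positivity)]
    nlinarith [sq_nonneg (1 - ‖y‖)]
  have h5 : (Om y * (1 + ‖y‖) ^ 2) ^ e ≤ 2 ^ e + 4 ^ e := by
    rcases le_total 0 e with he | he
    · exact (Real.rpow_le_rpow (by linarith) h4 he).trans (le_add_of_nonneg_left (by positivity))
    · exact (Real.rpow_le_rpow_of_nonpos (by norm_num) h3 he).trans
        (le_add_of_nonneg_right (by positivity))
  rw [Op, h2, Real.mul_rpow (by linarith) (by positivity), ← Real.rpow_mul h1.le, neg_mul]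
  exact mul_le_mul_of_nonneg_right h5 (by positivity)

theorem sp_eval_bdd (P : ℝ[X]) : ∃ C, 0 ≤ C ∧ ∀ y, |P.eval (1 - Om y)| ≤ C := by
  obtain ⟨C, hC⟩ := (isCompact_Icc (a := (-1 : ℝ)) (b := 1)).exists_bound_of_continuousOn
    P.continuous.continuousOn
  refine ⟨C, (norm_nonneg _).trans (hC 0 (by simp)), fun y => hC _ ⟨?_, ?_⟩⟩
  · have : Om y ≤ 2 := div_le_self (by norm_num) (le_add_of_nonneg_right (sq_nonneg _))
    linarith
  · linarith [sp_Om_pos y]

theorem sp_sym_mul {Q : Sc} (h : Hom d Q) :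
    Sym (d - 2 * e) fun y => rad (omF e P) y * Q y := by
  refine sp_sym_of_closed (S := fun r f => ∃ (e : ℝ) (P : ℝ[X]) (d : ℕ) (Q : Sc), Hom d Q ∧
    r = d - 2 * e ∧ f = fun y => rad (omF e P) y * Q y) ?_ ?_ ?_ ⟨e, P, d, Q, h, rfl, rfl⟩
  · rintro r f ⟨e, P, d, Q, h, -, rfl⟩
    exact radS_omF.smooth.mul h.smooth
  · rintro r f ⟨e, P, d, Q, h, rfl, rfl⟩
    obtain ⟨C, hC, hb⟩ := h.bound
    obtain ⟨C', hC', hb'⟩ := sp_eval_bdd P
    refine ⟨(2 ^ e + 4 ^ e) * C' * C, fun y => ?_⟩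
    have h1 : 0 < 1 + ‖y‖ := by positivity
    have h2 : |Q y| ≤ C * (1 + ‖y‖) ^ (d : ℝ) := by
      rw [Real.rpow_natCast]
      exact (hb y).trans (by gcongr; linarith)
    have h3 : 0 ≤ Op e y := Real.rpow_nonneg (sp_Om_pos y).le _
    beta_reduce
    rw [rad_omF, abs_mul, abs_mul, abs_of_nonneg h3, sub_eq_neg_add (d : ℝ), Real.rpow_add h1]
    calc _ ≤ ((2 ^ e + 4 ^ e) * (1 + ‖y‖) ^ (-(2 * e))) * C' * (C * (1 + ‖y‖) ^ (d : ℝ)) := by
          have := sp_Op_le e y
          have := hb' y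
          gcongr
      _ = _ := by ring
  · rintro r f ⟨e, P, d, Q, h, rfl, rfl⟩ j
    have hp : pd j (fun y => rad (omF e P) y * Q y) = fun y =>
        rad (omF (e + 1) (dP e P)) y * (2 * (y j * Q y)) + rad (omF e P) y * pd j Q y := by
      funext y
      rw [sp_pd_mul (ResHom_diff radS_omF.smooth y) (ResHom_diff h.smooth y), radS_omF.pd_rad, rad,
        deriv_omF (lt_of_lt_of_le (by norm_num) (sq_nonneg _))]
      simp only [rad]
      ring
    refine ⟨_, _, ⟨e + 1, dP e P, 1 + d, _, ((hom_coord j).mul h).cmul 2, by push_cast; ring, rfl⟩,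
      ?_, hp⟩
    cases d with
    | zero =>
      refine ⟨e + 1 / 2, P, 0, _, hom_zero 0, by ring, funext fun y => ?_⟩
      rw [h.pd_zero, mul_zero, mul_zero]
    | succ d => exact ⟨e, P, d, _, h.pd j, by push_cast; ring, rfl⟩

theorem sym_omF : Sym (-(2 * e)) (rad (omF e P)) := by
  simpa using sp_sym_mul (e := e) (P := P) (hom_const 1)

theorem sym_tO (i : Fin 3) : Sym (l - 2 * e) (tO l e P i) := sp_sym_mul (harm_TT l i).toHom

theorem sym_mO (i : Fin 3) : Sym (l - 1 - 2 * e) (mO l e P P' i) := by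
  have h2 := sp_sym_mul (e := e + 1) (P := P') ((hom_Hl l).mul (hom_coord i))
  rw [show ((l + 1 : ℕ) : ℝ) - 2 * (e + 1) = l - 1 - 2 * e by push_cast; ring] at h2
  have h1 : Sym (l - 1 - 2 * e) fun y => rad (omF e P) y * pd i (Hl l) y := by
    cases l with
    | zero =>
      have h := sp_sym_mul (e := e + 1 / 2) (P := P) (hom_zero 0)
      rw [show ((0 : ℕ) : ℝ) - 2 * (e + 1 / 2) = (0 : ℕ) - 1 - 2 * e by ring] at h
      simpa only [(hom_Hl 0).pd_zero, mul_zero] using h
    | succ l =>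
      have h := sp_sym_mul (e := e) (P := P) ((hom_Hl (l + 1)).pd i)
      rwa [show (l : ℝ) - 2 * e = (l + 1 : ℕ) - 1 - 2 * e by push_cast; ring] at h
  exact sp_sym_add h1 h2

theorem sym_sO : Sym (l - 2 * e) (sO l e P) := sp_sym_mul (hom_Hl l)

theorem sp_polyF_mono (h : PolyF k f) (hk : k ≤ k') : PolyF k' f := by
  obtain ⟨p, hp, rfl⟩ := h
  exact ⟨p, hp.trans hk, rfl⟩

theorem sp_polyF_const (c : ℝ) (k : ℕ) : PolyF k fun _ => c :=
  ⟨MvPolynomial.C c, by simp, by simp⟩

theorem sp_polyF_sig (i : Fin 4) : PolyF 1 (sig i) :=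
  ⟨MvPolynomial.X i, by simp, by simp⟩

theorem sp_polyF_add (h : PolyF k f) (h' : PolyF k g) : PolyF k fun y => f y + g y := by
  obtain ⟨p, hp, rfl⟩ := h
  obtain ⟨q, hq, rfl⟩ := h'
  exact ⟨p + q, (MvPolynomial.totalDegree_add p q).trans (max_le hp hq), by simp⟩

theorem sp_polyF_mul (h : PolyF k f) (h' : PolyF k' g) : PolyF (k + k') fun y => f y * g y := by
  obtain ⟨p, hp, rfl⟩ := h
  obtain ⟨q, hq, rfl⟩ := h'
  exact ⟨p * q, (MvPolynomial.totalDegree_mul p q).trans (add_le_add hp hq), by simp⟩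

theorem sp_polyF_sum {ι : Type} (s : Finset ι) {F : ι → Sc} (h : ∀ i ∈ s, PolyF k (F i)) :
    PolyF k fun y => ∑ i ∈ s, F i y := by
  classical
  induction s using Finset.induction_on with
  | empty => simpa using sp_polyF_const 0 k
  | insert a s ha ih =>
    simp only [Finset.sum_insert ha]
    exact sp_polyF_add (h a (by simp)) (ih fun i hi => h i (by simp [hi]))

theorem sp_polyF_pow (h : PolyF 1 f) (k : ℕ) : PolyF k fun y => f y ^ k := by
  induction k with
  | zero => simpa using sp_polyF_const 1 0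
  | succ k ih => simpa only [pow_succ] using sp_polyF_mul ih h

theorem sp_polyF_coord (j : Fin 3) : PolyF 1 fun y => Om y * y j := by
  have h : sig j.castSucc = fun y => Om y * y j := funext fun y => by simp [sig]
  rw [← h]
  exact sp_polyF_sig _

theorem sp_polyF_four : PolyF 1 fun y => 1 - Om y := by
  have h : sig (Fin.last 3) = fun y => 1 - Om y := funext fun y => by simp only [sig, Fin.lastCases_last]
  rw [← h]
  exact sp_polyF_sig _

theorem sp_polyF_eval (P : ℝ[X]) : PolyF P.natDegree fun y => P.eval (1 - Om y) := by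
  simp only [eval_eq_sum_range]
  refine sp_polyF_sum _ fun i hi => ?_
  refine sp_polyF_mono (sp_polyF_mul (sp_polyF_const _ 0) (sp_polyF_pow sp_polyF_four i)) ?_
  have := Finset.mem_range.1 hi
  omega

/-- Smooth homogeneous functions are polynomials. -/
theorem sp_polyF_hom {Q : Sc} (h : Hom d Q) : PolyF d fun y => Om y ^ d * Q y := by
  induction d generalizing Q with
  | zero =>
    convert sp_polyF_const (Q 0) 0 using 2 with y
    rw [pow_zero, one_mul, h.const]
  | succ d ih =>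
    have h1 := sp_polyF_mul (sp_polyF_const (1 / (d + 1 : ℝ)) 0)
      (sp_polyF_sum Finset.univ fun j _ => sp_polyF_mul (ih (h.pd j)) (sp_polyF_coord j))
    rw [zero_add] at h1
    convert h1 using 2 with y
    have h2 := h.euler y
    simp only [yd, Fin.sum_univ_three] at h2 ⊢
    push_cast at h2
    field_simp
    linear_combination -(Om y ^ d * Om y) * h2

theorem sp_Op_nat (k : ℕ) (y : R3) : Op k y = Om y ^ k := Real.rpow_natCast _ _

theorem polyF_tO (h : l + P.natDegree ≤ n) (i : Fin 3) : PolyF n (tO l l P i) := by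
  have h1 := sp_polyF_mul (sp_polyF_hom (harm_TT l i).toHom) (sp_polyF_eval P)
  refine sp_polyF_mono ?_ h
  convert h1 using 2 with y
  rw [sp_tO_apply, sp_Op_nat]
  ring

theorem polyF_mO (h : P = 0 ∨ l + P.natDegree ≤ n) (h' : P' = 0 ∨ l + 2 + P'.natDegree ≤ n)
    (i : Fin 3) : PolyF n (mO (l + 1) l P ((1 - X) * P') i) := by
  have h1 : PolyF n fun y => Om y ^ l * pd i (Hl (l + 1)) y * P.eval (1 - Om y) := by
    rcases h with rfl | h
    · simpa using sp_polyF_const 0 n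
    · exact sp_polyF_mono (sp_polyF_mul (sp_polyF_hom ((hom_Hl (l + 1)).pd i)) (sp_polyF_eval P)) h
  have h2 : PolyF n fun y => Om y ^ (l + 1 + 1) * (Hl (l + 1) y * y i) * P'.eval (1 - Om y) := by
    rcases h' with rfl | h'
    · simpa using sp_polyF_const 0 n
    · exact sp_polyF_mono (sp_polyF_mul (sp_polyF_hom ((hom_Hl (l + 1)).mul (hom_coord i)))
        (sp_polyF_eval P')) h'
  convert sp_polyF_add h1 h2 using 2 with y
  rw [sp_mO_apply, ← Nat.cast_succ, sp_Op_nat, sp_Op_nat]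
  simp only [eval_mul, eval_sub, eval_one, eval_X, Nat.succ_eq_add_one]
  ring

theorem test_tO (b : ℝ) (h : l + P.natDegree + 1 ≤ n) : Test b n (tO l (l + b) P) := by
  intro i
  refine ⟨_, polyF_tO (l := l) (P := P) (by omega) i, ?_⟩
  rw [← sm_tO]
  rfl

theorem test_mO (b : ℝ) (h : P = 0 ∨ l + P.natDegree + 1 ≤ n)
    (h' : P' = 0 ∨ l + 3 + P'.natDegree ≤ n) :
    Test b n (mO (l + 1) (l + b) P ((1 - X) * P')) := by
  intro i
  refine ⟨_, polyF_mO (l := l) (P := P) (P' := P') (h.imp id fun h => by omega)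
    (h'.imp id fun h => by omega) i, ?_⟩
  rw [← sm_mO]
  rfl

theorem test_rad (b : ℝ) (h : 2 + P.natDegree ≤ n) : Test b n (mO 0 b 0 P) := by
  intro i
  refine ⟨_, sp_polyF_mono (sp_polyF_mul (sp_polyF_coord i) (sp_polyF_eval P)) (by omega), ?_⟩
  funext y
  rw [sp_mO_apply, sp_Op_add, Pi.mul_apply]
  simp only [Hl, Op, Real.rpow_one, eval_zero]
  ring

end Pool.Agent.Work.MP_6bf1e5_an.H
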