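import Pool.Agent.Work.MP_6bf1e5_an.H.SkMode

/-! Skeleton: from matrices to the finite data (owner helper56). -/

open scoped ContDiff ENNReal FourierTransform Real
open Set MeasureTheory Polynomial

namespace Pool.Agent.Work.MP_6bf1e5_an.H

variable {L : Lyap} {T : Tab L} {n : ℕ} {ov ou : Sc}

theorem SkCert_pd {m : ℝ} {f : Sc} (h : Sym m f) (j : Fin 3) : Bd (m - 1) (pd j f) := by
  refine ⟨(FourG_pd h.1 j).continuous.aestronglyMeasurable, ?_⟩
  obtain ⟨C, hC⟩ := h.2 [j]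
  refine ⟨C, Filter.Eventually.of_forall fun y => ?_⟩
  simpa [pds] using hC y

theorem SkCert_pos (j : Fin 3) : Bd 1 fun y => y j := by
  refine ⟨(by fun_prop : Continuous fun y : R3 => y j).aestronglyMeasurable, 1,
    Filter.Eventually.of_forall fun y => ?_⟩
  rw [Real.rpow_one, one_mul]
  have h2 : |y j| ≤ ‖y‖ := by simpa using PiLp.norm_apply_le y j
  linarith

theorem SkCert_curl {θ : Vc} (h : ∀ i, Sym (-3) (θ i)) (i : Fin 3) : Bd (-4) (curl θ i) :=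
  ((SkCert_pd (h _) _).sub (SkCert_pd (h _) _)).of_eq (by norm_num)

theorem SkCert_cross {m m' : ℝ} {a b : Vc} (ha : ∀ i, Bd m (a i)) (hb : ∀ i, Bd m' (b i))
    (i : Fin 3) : Bd (m + m') (cross a b i) :=
  ((ha _).mul (hb _)).sub ((ha _).mul (hb _))

theorem SkCert_lagr (a b : Fin 3 → ℝ) :
    ∑ i : Fin 3, (a (i + 1) * b (i + 2) - a (i + 2) * b (i + 1)) ^ 2
      ≤ (∑ i, a i ^ 2) * ∑ i, b i ^ 2 := by
  have a01 : ((0 : Fin 3) + 1) = 1 := rfl
  have a02 : ((0 : Fin 3) + 2) = 2 := rfl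
  have a11 : ((1 : Fin 3) + 1) = 2 := rfl
  have a12 : ((1 : Fin 3) + 2) = 0 := rfl
  have a21 : ((2 : Fin 3) + 1) = 0 := rfl
  have a22 : ((2 : Fin 3) + 2) = 1 := rfl
  simp only [Fin.sum_univ_three, a01, a02, a11, a12, a21, a22]
  nlinarith [sq_nonneg (a 0 * b 0 + a 1 * b 1 + a 2 * b 2)]

theorem SkCert_Op_add (b c : ℝ) (y : R3) : Op b y * Op c y = Op (b + c) y :=
  (Real.rpow_add (SkBd_Om_pos y) b c).symm

theorem SkCert_Op_nn (b : ℝ) (y : R3) : 0 ≤ Op b y := Real.rpow_nonneg (SkBd_Om_pos y).le b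

theorem SkCert_dot_nn (a : Vc) (y : R3) : 0 ≤ dot a a y :=
  Finset.sum_nonneg fun _ _ => mul_self_nonneg _

theorem SkCert_close {θ D E : Vc} (hθ : ∀ i, Sym (-3) (θ i)) {o : Sc} (ho : ∀ᵐ y, 0 ≤ o y) {d : ℝ}
    (h : ∀ᵐ y, o y * ∑ i, D i y ^ 2 ≤ d * Op (-1 / 2) y)
    (hE : ∀ i y, E i y ^ 2 = cross (curl θ) D i y ^ 2) :
    nw o E ≤ d * nw (Op (-1 / 2)) (curl θ) := by
  unfold nw
  rw [← integral_const_mul]
  refine integral_mono_of_nonneg (ho.mono fun y hy => mul_nonneg hy (SkCert_dot_nn _ y))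
    (((bd_Op _).int_nw (SkCert_curl hθ) (SkCert_curl hθ) (by norm_num)).const_mul _) ?_
  filter_upwards [h, ho] with y hy hy'
  have h1 := SkCert_lagr (fun i => curl θ i y) (fun i => D i y)
  have h2 : dot E E y ≤ dot (curl θ) (curl θ) y * ∑ i, D i y ^ 2 := by
    simp only [dot, ← sq, hE]
    exact h1
  have h3 := mul_le_mul_of_nonneg_left hy (SkCert_dot_nn (curl θ) y)
  have h4 := mul_le_mul_of_nonneg_left h2 hy'
  linarith

theorem SkCert_lc {β : Type} [Fintype β] {m : ℝ} {V : β → Vc} (h : ∀ b i, Bd m (V b i))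
    (t : β → ℝ) (i : Fin 3) : Bd m (lc t V i) :=
  Bd.sum Finset.univ fun b _ => (h b i).cmul (t b)

theorem SkCert_exp {β : Type} [Fintype β] {k m : ℝ} {o : Sc} (ho : Bd k o) (hk : k + (m + m) < -3)
    {h : Vc} {V : β → Vc} (hh : ∀ i, Bd m (h i)) (hV : ∀ b i, Bd m (V b i)) (t : β → ℝ) :
    nw o (h - lc t V) = nw o h - 2 * ∑ b, t b * ip (sm o h) (V b) + nw o (lc t V) := by
  have i1 := ho.int_nw hh hh hk
  have i2 := fun b => ho.int_nw hh (hV b) hk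
  have i3 := ho.int_nw (SkCert_lc hV t) (SkCert_lc hV t) hk
  have e1 : ∀ b, ip (sm o h) (V b) = ∫ y, o y * dot h (V b) y := fun b => by
    unfold ip
    congr 1
    funext y
    simp only [dot, sm, Finset.mul_sum, mul_assoc]
  have i4 : Integrable fun y => 2 * ∑ b, t b * (o y * dot h (V b) y) :=
    (integrable_finsetSum _ fun b _ => (i2 b).const_mul _).const_mul _
  have i5 : Integrable fun y => o y * dot h h y - 2 * ∑ b, t b * (o y * dot h (V b) y) := i1.sub i4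
  simp only [e1, ← integral_const_mul]
  rw [← integral_finsetSum _ fun b _ => (i2 b).const_mul _, ← integral_const_mul]
  unfold nw
  rw [← integral_sub i1 i4, ← integral_add i5 i3]
  congr 1
  funext y
  have e2 : ∑ b, t b * (o y * dot h (V b) y) = o y * dot h (lc t V) y := by
    simp only [dot, lc, Finset.mul_sum]
    rw [Finset.sum_comm]
    exact Finset.sum_congr rfl fun i _ => Finset.sum_congr rfl fun b _ => by ring
  rw [e2]
  simp only [dot, Pi.sub_apply, Fin.sum_univ_three]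
  ring

theorem SkCert_young {s : ℝ} (hs : 0 < s) (x z : ℝ) :
    (x + z) ^ 2 ≤ (1 + s) * x ^ 2 + (1 + 1 / s) * z ^ 2 := by
  have : (1 + s) * x ^ 2 + (1 + 1 / s) * z ^ 2 - (x + z) ^ 2 = (s * x - z) ^ 2 / s := by
    field_simp
    ring
  have h2 : 0 ≤ (s * x - z) ^ 2 / s := by positivity
  linarith

/-- Minus the cross product of an approximate vorticity with `curl θ`. -/
noncomputable def kqW (W θ : Vc) : Vc := fun i y => -cross W (curl θ) i y

theorem bd_kp {θ U : Vc} (h : ∀ i, Sym (-3) (θ i)) (hU : ∀ i, Bd 0 (U i)) (i : Fin 3) :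
    Bd (-3) (kp U θ i) := by
  have h2 : Bd (-3) (yd (θ i)) := Bd.sum Finset.univ fun j _ =>
    ((SkCert_pos j).mul (SkCert_pd (h i) j)).mono (by norm_num)
  exact ((h i).bd.neg.sub (h2.cmul _)).sub
    ((SkCert_cross (SkCert_curl h) hU i).mono (by norm_num))

theorem bd_kqW {θ W : Vc} (h : ∀ i, Sym (-3) (θ i)) (hW : ∀ i, Bd 0 (W i)) (i : Fin 3) :
    Bd (-4) (kqW W θ i) := ((SkCert_cross hW (SkCert_curl h) i).mono (by norm_num)).neg

theorem SkCert_sym_lc {β : Type} [Fintype β] {m : ℝ} {θ : β → Vc} (h : ∀ a i, Sym m (θ a i))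
    (t : β → ℝ) (i : Fin 3) : Sym m (lc t θ i) := md_sym_sum _ fun j _ => md_sym_cmul (h j i) _

theorem SkCert_curl_lc {β : Type} [Fintype β] {m : ℝ} {θ : β → Vc} (h : ∀ a i, Sym m (θ a i))
    (t : β → ℝ) : curl (lc t θ) = lc t fun j => curl (θ j) := md_curl_lin _ t fun j _ i => (h j i).1

/-- The change of `kp` with the velocity table, in any weight. -/
theorem diff_P {β : Type} [Fintype β] {θ : β → Vc} (hθ : ∀ a i, Sym (-3) (θ a i)) {U Ut : Vc}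
    {o : Sc} (ho : ∀ᵐ y, 0 ≤ o y) {d : ℝ}
    (h : ∀ᵐ y, o y * ∑ i, (U i y - Ut i y) ^ 2 ≤ d * Op (-1 / 2) y) (t : β → ℝ) :
    nw o (lc t fun b => kp U (θ b) - kp Ut (θ b)) ≤ d * nw (Op (-1 / 2)) (curl (lc t θ)) := by
  refine SkCert_close (SkCert_sym_lc hθ t) ho (D := U - Ut) h fun i y => ?_
  rw [← neg_sq]
  congr 1
  simp only [SkCert_curl_lc hθ, lc, kp, cross, Pi.sub_apply, Finset.sum_mul,
    ← Finset.sum_sub_distrib, ← Finset.sum_neg_distrib]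
  exact Finset.sum_congr rfl fun b _ => by ring

theorem diff_Q {β : Type} [Fintype β] {θ : β → Vc} (hθ : ∀ a i, Sym (-3) (θ a i)) {W Wt : Vc}
    {o : Sc} (ho : ∀ᵐ y, 0 ≤ o y) {d : ℝ}
    (h : ∀ᵐ y, o y * ∑ i, (W i y - Wt i y) ^ 2 ≤ d * Op (-1 / 2) y) (t : β → ℝ) :
    nw o (lc t fun b => kqW W (θ b) - kqW Wt (θ b)) ≤ d * nw (Op (-1 / 2)) (curl (lc t θ)) := by
  refine SkCert_close (SkCert_sym_lc hθ t) ho (D := W - Wt) h fun i y => ?_
  congr 1
  simp only [SkCert_curl_lc hθ, lc, kqW, cross, Pi.sub_apply, Finset.sum_mul,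
    ← Finset.sum_sub_distrib]
  exact Finset.sum_congr rfl fun b _ => by ring

theorem SkCert_wt {D : Sc} {b d : ℝ} (h : ∀ᵐ y, D y ≤ d ^ 2 * Op (-1 / 2 - b) y) :
    ∀ᵐ y, Op b y * D y ≤ d ^ 2 * Op (-1 / 2) y := by
  filter_upwards [h] with y hy
  have h3 : Op b y * Op (-1 / 2 - b) y = Op (-1 / 2) y := by
    rw [SkCert_Op_add]
    congr 1
    ring
  have := mul_le_mul_of_nonneg_left hy (SkCert_Op_nn b y)
  rw [← h3]
  linarith

theorem close_P (hL : L.Good) {U Ut : Vc} {du Cc : ℝ}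
    (h : ∀ᵐ y, ∑ i, (U i y - Ut i y) ^ 2 ≤ du ^ 2 * Op (1 / 2) y)
    (hc : ∑ a, nw (Op (-1 / 2)) (curl (L.θF a)) + ∑ a, nw (Op (-1 / 2)) (curl (L.θZ a)) ≤ Cc ^ 2) :
    ∑ a, nw (Op (-1)) (lc (L.F a) fun b => kp U (L.θ b) - kp Ut (L.θ b))
      + ∑ i, nw (Op (-1)) (lc (L.Z i) fun b => kp U (L.θ b) - kp Ut (L.θ b)) ≤ (du * Cc) ^ 2 := by
  have k := diff_P hL.1 (Filter.Eventually.of_forall (SkCert_Op_nn (-1)))
    (SkCert_wt (by rw [show (-1 / 2 - -1 : ℝ) = 1 / 2 by norm_num]; exact h))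
  refine le_trans (add_le_add (Finset.sum_le_sum fun a _ => k _)
    (Finset.sum_le_sum fun a _ => k _)) ?_
  rw [← Finset.mul_sum, ← Finset.mul_sum, ← mul_add, mul_pow]
  exact mul_le_mul_of_nonneg_left hc (sq_nonneg du)

theorem close_Q (hL : L.Good) {U Wt : Vc} {dw Cc : ℝ}
    (h : ∀ᵐ y, ∑ i, (curl U i y - Wt i y) ^ 2 ≤ dw ^ 2 * Op (3 / 2) y)
    (hc : ∑ a, nw (Op (-1 / 2)) (curl (L.θF a)) + ∑ a, nw (Op (-1 / 2)) (curl (L.θZ a)) ≤ Cc ^ 2) :
    ∑ a, nw (Op (-2)) (lc (L.F a) fun b => kq U (L.θ b) - kqW Wt (L.θ b))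
      + ∑ i, nw (Op (-2)) (lc (L.Z i) fun b => kq U (L.θ b) - kqW Wt (L.θ b)) ≤ (dw * Cc) ^ 2 := by
  have k := diff_Q hL.1 (Filter.Eventually.of_forall (SkCert_Op_nn (-2)))
    (SkCert_wt (by rw [show (-1 / 2 - -2 : ℝ) = 3 / 2 by norm_num]; exact h))
  refine le_trans (add_le_add (Finset.sum_le_sum fun a _ => k _)
    (Finset.sum_le_sum fun a _ => k _)) ?_
  rw [← Finset.mul_sum, ← Finset.mul_sum, ← mul_add, mul_pow]
  exact mul_le_mul_of_nonneg_left hc (sq_nonneg dw)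

theorem curl_int_of_pw {Cth : ℝ} (hL : L.Good)
    (h : ∀ y, ∑ a, dot (curl (L.θF a)) (curl (L.θF a)) y
      + ∑ a, dot (curl (L.θZ a)) (curl (L.θZ a)) y ≤ Cth ^ 2 * Om y ^ 3) :
    ∑ a, nw (Op (-1 / 2)) (curl (L.θF a)) + ∑ a, nw (Op (-1 / 2)) (curl (L.θZ a))
      ≤ (5 * Cth) ^ 2 := by
  have i1 := fun t : Fin L.r → ℝ => (bd_Op (-1 / 2)).int_nw (SkCert_curl (SkCert_sym_lc hL.1 t))
    (SkCert_curl (SkCert_sym_lc hL.1 t)) (by norm_num)
  have j1 := integrable_finsetSum Finset.univ fun a _ => i1 (L.F a)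
  have j2 := integrable_finsetSum Finset.univ fun a _ => i1 (L.Z a)
  unfold nw Lyap.θF Lyap.θZ at *
  rw [← integral_finsetSum _ fun a _ => i1 _, ← integral_finsetSum _ fun a _ => i1 _,
    ← integral_add j1 j2]
  calc _ ≤ ∫ y, Cth ^ 2 * Op (5 / 2) y := by
        refine integral_mono (j1.add j2) (int_Op_five.1.const_mul _) fun y => ?_
        have h3 : Op (-1 / 2) y * Om y ^ 3 = Op (5 / 2) y := by
          rw [show (5 / 2 : ℝ) = -1 / 2 + (3 : ℕ) by norm_num, ← SkCert_Op_add]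
          simp only [Op, Real.rpow_natCast]
        have h4 := mul_le_mul_of_nonneg_left (h y) (SkCert_Op_nn (-1 / 2) y)
        simp only [← Finset.mul_sum]
        rw [← h3]
        linarith
    _ ≤ _ := by
        rw [integral_const_mul]
        nlinarith [int_Op_five.2, sq_nonneg Cth]

/-- Projection on a nearly orthonormal family of null pairs, with any coefficients `t`. -/
theorem proj_gram (hv : Bd 2 ov) (hu : Bd 4 ou) {β : Type} [Fintype β] {ϑ ϑ' : β → Vc}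
    (hN : ∀ b, Null n (ϑ b) (ϑ' b)) {g : ℝ}
    (hG : ∀ t : β → ℝ, nw ov (lc t ϑ) + nw ou (lc t ϑ') ≤ g * ∑ b, t b ^ 2) {h h' : Vc}
    (hh : ∀ i, Bd (-3) (h i)) (hh' : ∀ i, Bd (-4) (h' i)) (t : β → ℝ) :
    Null n (lc t ϑ) (lc t ϑ') ∧ nw ov (h - lc t ϑ) + nw ou (h' - lc t ϑ') ≤ nw ov h + nw ou h'
      - 2 * ∑ b, t b * (ip (sm ov h) (ϑ b) + ip (sm ou h') (ϑ' b)) + g * ∑ b, t b ^ 2 := by
  refine ⟨Null.lc t hN, ?_⟩
  rw [SkCert_exp hv (by norm_num) hh (fun b => (hN b).bv) t,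
    SkCert_exp hu (by norm_num) hh' (fun b => (hN b).bu) t]
  have := hG t
  simp only [mul_add, Finset.sum_add_distrib]
  linarith

/-- The local parts of `hV` and `hU`. -/
noncomputable def Tab.hV0 (T : Tab L) (w : Vc) : Vc := fun i y =>
  2 * mv3 T.V (curl w) i y + mv3 T.B w i y

noncomputable def Tab.hU0 (T : Tab L) (w : Vc) : Vc := vm3 T.B (curl w)

end Pool.Agent.Work.MP_6bf1e5_an.H
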