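import Pool.Agent.Work.MP_6bf1e5_an.H.DynFin
import Pool.Agent.Work.MP_6bf1e5_an.H.DynSc

/-! Interface of the dynamical part (owner helper89). -/

open scoped ContDiff ENNReal FourierTransform Real
open Set MeasureTheory

namespace Pool.Agent.Work.MP_6bf1e5_an.H

theorem dyn (L : Lyap) (hL : L.Good) {ν : ℝ} (hν : 0 < ν) {B : Vc} (hB : Bg B)
    {φ : Fin 2 → Vc} (hφ : ∀ k, Bg (φ k)) {c m β rr ϱ x0 em cl cz ch cb : ℝ}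
    (hM : Master L ν B c m β rr) (hco : L.Coer cl cz ch cb) (hcl : 0 < cl) (hcz : 0 ≤ cz)
    (hc : 0 < c) (hc2 : c ≤ 2) (hm : 0 < m) (hβ : 0 < β)
    (hϱ : 0 < ϱ) (hem : 4 * β ≤ cz * m * em) (hx0 : β ≤ m * x0)
    (hrr : x0 + 2 / c * (x0 + 2 * em) < rr)
    (hX : ∀ a : Fin 2 → ℝ, ∑ k, a k ^ 2 ≤ ϱ ^ 2 → L.X (pl φ a) ≤ x0)
    (hE : ∀ a : Fin 2 → ℝ, ∑ k, a k ^ 2 = ϱ ^ 2 → L.E (pl φ a) ≤ -em)
    (hnz : rr < cl * nw Om (curl B)) : Blow ν 1 :=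
  Dyn.dyn_main L hL hν hB hφ hM.dE hM.dM hco hcl hcz hc hc2 hm hβ hϱ hem hx0 hrr hX hE hnz

theorem Blow.scale {ν ν' T : ℝ} (h : Blow ν T) (hν : 0 < ν) (hν' : 0 < ν') :
    Blow ν' (T * ν / ν') := Dyn.blow_scale h hν hν'

end Pool.Agent.Work.MP_6bf1e5_an.H
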