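import Pool.Agent.Work.MP_6bf1e5_an.H.SkSplit
import Pool.Agent.Work.MP_6bf1e5_an.H.SkRing
import Pool.Agent.Work.MP_6bf1e5_an.H.GalNrm

/-! Modes with extension fields. -/

open scoped ContDiff ENNReal FourierTransform Real
open Set MeasureTheory Polynomial

namespace Pool.Agent.Work.MP_6bf1e5_an.H

variable {l n : ℕ} {g : ℝ → ℝ}

theorem Gal_tor_K {N d : ℕ} (hs : ∀ i, Sym (-1) (tor l g i))
    (h : ∀ m, l + m ≤ N → ip (tor l g) (sm (Op (9 / 4)) (eV l m)) = 0) (hd : d + 1 ≤ N) (A : ℕ) :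
    GalW 1 A d ≤ GalK fun y => Op (9 / 4) y * (Om y * (tor l g 0 y * y 1 - tor l g 1 y * y 0)) := by
  refine Gal_tor (fun i => (hs i).bd.mono (by norm_num)) (fun l' m _ _ hm => ?_) hd A
  by_cases e : l = l'
  · subst e
    exact h m hm
  have := int_TT l l' fun r => g (r ^ 2) *
    ((2 / (1 + r ^ 2)) ^ (9 / 4 : ℝ) * omF l' (geg (2 * l' + 2) m) (r ^ 2))
  rw [if_neg e] at this
  refine (integral_congr_ae (.of_forall fun y => ?_)).trans this
  simp only [eV, tO, tor, sm, rad, Op, Om, dot, Fin.sum_univ_three]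
  ring

theorem perp_tor (hg : RadS g) (hs : ∀ i, Sym (-1) (tor l g i)) (hl : l % 2 = 0)
    (h : ∀ m, l + m ≤ n → ip (tor l g) (sm (Op (9 / 4)) (eV l m)) = 0) (i : Fin 3) :
    Perp (9 / 4) (n + 1) (tor l g i) :=
  Gal_red (eqv_tor hl) (fun i => ((bd_Op _).mul (hs i).bd).integrable (by norm_num))
    (fun a c ha hn => (Gal_tor_K hs h hn (a + 1) (GalW_mem ha (by omega) le_rfl)).2)
    (fun a c _ _ => by simp only [(Gal_tor_mer l g _).1, mul_zero, zero_mul, integral_zero])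
    (fun a c _ _ => by simp only [(Gal_tor_mer l g _).2, mul_zero, zero_mul, integral_zero]) i

theorem perp_curl_tor (hg : RadS g) (hs : ∀ i, Sym (-1) (tor l g i)) (hl : l % 2 = 0)
    (h : ∀ m, l + m ≤ n + 1 → ip (tor l g) (sm (Op (9 / 4)) (eV l m)) = 0) (i : Fin 3) :
    Perp (9 / 4) (n + 1) (curl (tor l g) i) := by
  have hB : ∀ i, GalB (tor l g i) := fun i => ⟨(hs i).1, (hs i).bd.mono (by norm_num),
    fun j => (md_sym_pd (hs i) j).bd.mono (by norm_num)⟩
  exact Gal_red (eqv_curl (eqv_tor hl) fun i y => ResHl_diff (hs i).1 y)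
    (fun i => ((bd_Op _).mul (md_sym_curl hs i).bd).integrable (by norm_num))
    (fun a c _ _ => by simp only [curl_tor hg, Gal_mer_tor, mul_zero, zero_mul, integral_zero])
    (Gal_mer1 hB (Gal_tor_K hs h le_rfl)) (Gal_mer2 hB (Gal_tor_K hs h le_rfl)) i

/-- The coefficient of the projection on `eV l m`. -/
noncomputable def prj (l : ℕ) (g : ℝ → ℝ) (m : ℕ) : ℝ :=
  ip (tor l g) (sm (Op (9 / 4)) (eV l m)) / ip (sm (Op (3 / 4)) (eV l m)) (sm (Op (9 / 4)) (eV l m))

/-- The profile with the projection on the first `M` harmonics removed. -/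
noncomputable def res (l M : ℕ) (g : ℝ → ℝ) : ℝ → ℝ := fun z =>
  g z - omF (l + 3 / 4) (∑ m ∈ Finset.range M, C (prj l g m) * geg (2 * l + 2) m) z

theorem ip_res (hg : RadS g) (hs : ∀ i, Sym (-1) (tor l g i)) (hl : 1 ≤ l) {M m : ℕ} (hm : m < M) :
    ip (tor l (res l M g)) (sm (Op (9 / 4)) (eV l m)) = 0 := by
  change GalP _ l m = 0
  by_cases h0 : GalP (GalE l m) l m = 0
  · exact Gal_deg h0 _
  let a : Mode := ⟨false, l, M, prj l g⟩
  have e : tor l (res l M g) = fun i y => tor l g i y - a.pot i y := by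
    funext i y
    rw [a.pot_eq]
    simp only [tO, tor, sm, rad, res, sub_mul, a]
  have b : ∀ i, Bd 0 (a.pot i) := fun i => by
    rw [a.pot_eq]
    exact (sym_tO i).bd.mono (by have : (0 : ℝ) ≤ a.l := Nat.cast_nonneg _; linarith)
  rw [e, GalP_sub (fun i => (hs i).bd.mono (by norm_num)) b, GalP_pot, if_pos ⟨rfl, hm⟩,
    sub_eq_zero]
  exact (div_mul_cancel₀ _ h0).symm

/-- The norms of the harmonics. -/
theorem ip_eV (l m : ℕ) : ip (sm (Op (3 / 4)) (eV l m)) (sm (Op (9 / 4)) (eV l m)) =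
    nT l * (π * (m + 2 * l + 1).factorial
      / (2 ^ (2 * l + 1) * m.factorial * (m + l + 1) * l.factorial ^ 2)) := Gal_norm l m

/-- Bounded functions orthogonal to the tests. -/
def GalQ (n : ℕ) : Submodule ℝ Sc where
  carrier := {f | Bd 0 f ∧ Perp (9 / 4) n f}
  add_mem' := by
    rintro f g ⟨h, h'⟩ ⟨k, k'⟩
    refine ⟨h.add k, fun j hj q hq => ?_⟩
    simp only [Pi.add_apply, add_mul]
    rw [integral_add (Gal_int_test h hq) (Gal_int_test k hq), h' j hj q hq, k' j hj q hq, add_zero]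
  zero_mem' := ⟨bd_zero 0, fun _ _ _ _ => by simp⟩
  smul_mem' := by
    rintro c f ⟨h, h'⟩
    refine ⟨h.cmul c, fun j hj q hq => ?_⟩
    simp only [Pi.smul_apply, smul_eq_mul, mul_assoc]
    rw [integral_const_mul, h' j hj q hq, mul_zero]

theorem Gal.mix {ι : Type} [Fintype ι] [DecidableEq ι] {b u : ι → Vc} {Y : ι → ℕ → Vc}
    (h : Gal n b Y) (hu : ∀ j, Adm (u j)) (hs : ∀ j i, Sym (-2) (u j i)) (A : Matrix ι ι ℝ)
    (hA : ∀ j i, Perp (9 / 4) (n + 1) fun y => u j i y - lc (A j) b i y) (hd : A.det ≠ 0) :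
    Gal n u fun j k => lc (A j) fun i => Y i k := by
  have w : ∀ j, Adm (u j - lc (A j) b) := fun j => (hu j).sub (Adm.lc _ h.adm).1
  refine ⟨hu, hs, fun j k i => HF.lc _ fun a => h.hf a k i, fun j i => ?_, fun v hv => ?_⟩
  · have p : ∀ a c, pd c ((u j - lc (A j) b) a) ∈ GalQ n := fun a c =>
      ⟨(((w j).hinf a).pd c).bd, Perp.pd (by norm_num) ((w j).hinf a) (hA j a) c⟩
    have q : ∀ a, (fun y => curl (b a) i y - Op (3 / 4) y * ∑ k ∈ Finset.range n, Y a k i y) ∈
        GalQ n := fun a => ⟨(Dyn.hinf_curl (h.adm a).hinf i).bd.sub (by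
      simp only [Finset.mul_sum]
      exact Bd.sum _ fun k _ => Gal_bd_E (h.hf a k i).1), h.perp a i⟩
    convert (add_mem (sub_mem (p (i + 2) (i + 1)) (p (i + 1) (i + 2)))
      ((GalQ n).sum_mem (t := Finset.univ) fun a _ => (GalQ n).smul_mem (A j a) (q a))).2 using 1
    funext y
    have e := congrFun (congrFun (Dyn.curl_sub (fun i => ((hu j).hinf i).1)
      fun i => ((Adm.lc (A j) h.adm).1.hinf i).1) i) y
    rw [(Adm.lc _ h.adm).2] at e
    change _ = curl (u j - lc (A j) b) i y + _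
    rw [e]
    simp only [lc, Pi.sub_apply, Finset.sum_apply, Pi.smul_apply, smul_eq_mul, mul_sub,
      Finset.sum_sub_distrib, Finset.mul_sum]
    rw [Finset.sum_comm]
    simp only [mul_left_comm]
    ring
  · obtain ⟨c, hc⟩ := h.split v hv
    refine ⟨Matrix.vecMul c A⁻¹, fun i => ?_⟩
    have q0 : (fun y => v i y - lc c b i y) ∈ GalQ (n + 1) :=
      ⟨((hv.sub (Adm.lc c h.adm).1).hinf i).bd, hc i⟩
    have q : ∀ j, (fun y => u j i y - lc (A j) b i y) ∈ GalQ (n + 1) := fun j =>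
      ⟨((w j).hinf i).bd, hA j i⟩
    convert (sub_mem q0 ((GalQ (n + 1)).sum_mem (t := Finset.univ) fun j _ =>
      (GalQ (n + 1)).smul_mem (Matrix.vecMul c A⁻¹ j) (q j))).2 using 1
    funext y
    have e : ∀ a, ∑ j, Matrix.vecMul c A⁻¹ j * A j a = c a := fun a => by
      have := congrFun (Matrix.vecMul_vecMul c A⁻¹ A) a
      rw [Matrix.nonsing_inv_mul A hd.isUnit, Matrix.vecMul_one] at this
      exact this
    simp only [lc, Pi.sub_apply, Finset.sum_apply, Pi.smul_apply, smul_eq_mul, mul_sub,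
      Finset.sum_sub_distrib, Finset.mul_sum]
    rw [Finset.sum_comm]
    simp only [← mul_assoc, ← Finset.sum_mul, e]
    ring

theorem Gal.ext {ι : Type} [Fintype ι] {b x : ι → Vc} {Y : ι → ℕ → Vc}
    (h : Gal n b Y) (hx : ∀ j, Adm (x j)) (hs : ∀ j i, Sym (-2) (x j i))
    (hp : ∀ j i, Perp (9 / 4) (n + 1) (x j i)) : Gal n (fun j => b j + x j) Y := by
  classical
  have e : ∀ (V : ι → Vc) j, lc ((1 : Matrix ι ι ℝ) j) V = V j := fun V j => by
    funext i y
    simp [lc, Matrix.one_apply]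
  have := h.mix (u := fun j => b j + x j) (fun j => by
    have := (Adm.lc ![1, 1] (V := ![b j, x j]) (Fin.forall_fin_two.2 ⟨h.adm j, hx j⟩)).1
    convert this using 1
    funext i y
    simp [lc]) (fun j i => md_sym_add (h.sym j i) (hs j i)) 1
    (fun j i => by simpa [e] using hp j i) (by simp)
  simpa only [e] using this

end Pool.Agent.Work.MP_6bf1e5_an.H
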