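import Pool.Agent.Work.MP_6bf1e5_an.H.LocBg
import Pool.Agent.Work.MP_6bf1e5_an.H.ResAxi

/-! The background does not vanish. -/

open scoped ContDiff ENNReal FourierTransform Real
open Set MeasureTheory

namespace Pool.Agent.Work.MP_6bf1e5_an.H

theorem nz_lip {f : Sc} (hf : ContDiff ℝ ∞ f) {C : ℝ} (hC : 0 ≤ C)
    (h : ∀ y, ∑ k, pd k f y ^ 2 ≤ C ^ 2) (x y : R3) : |f y - f x| ≤ C * ‖y - x‖ := by
  refine convex_univ.norm_image_sub_le_of_norm_fderiv_le (𝕜 := ℝ)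
    (fun z _ => Dyn.dynCalc_d hf z) (fun z _ => ?_) (mem_univ x) (mem_univ y)
  refine ContinuousLinearMap.opNorm_le_bound _ hC fun v => ?_
  rw [Dyn.dynCalc_sum, Real.norm_eq_abs]
  refine abs_le_of_sq_le_sq' ?_ (by positivity) |> abs_le.2
  refine (Finset.sum_mul_sq_le_sq_mul_sq _ _ _).trans ?_
  rw [mul_pow, mul_comm, EuclideanSpace.real_norm_sq_eq]
  exact mul_le_mul_of_nonneg_right (h z) (by positivity)

theorem nz_grad {U : Vc} (hU : ∀ i, ContDiff ℝ ∞ (U i)) (y : R3) :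
    ∑ k, pd k (curl U 2) y ^ 2 ≤ 2 * ∑ i, ∑ j, ∑ k, pd k (pd j (U i)) y ^ 2 := by
  have e : ∀ k, pd k (curl U 2) = fun y => pd k (pd 0 (U 1)) y - pd k (pd 1 (U 0)) y := fun k =>
    Dyn.pd_sub (Dyn.pd_smooth (hU 1) 0) (Dyn.pd_smooth (hU 0) 1) k
  have h : ∀ i j, 0 ≤ ∑ k, pd k (pd j (U i)) y ^ 2 := fun i j => by positivity
  have h1 : ∑ k, pd k (curl U 2) y ^ 2 ≤
      2 * (∑ k, pd k (pd 0 (U 1)) y ^ 2 + ∑ k, pd k (pd 1 (U 0)) y ^ 2) := by
    rw [← Finset.sum_add_distrib, Finset.mul_sum]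
    refine Finset.sum_le_sum fun k _ => ?_
    rw [e]
    nlinarith [sq_nonneg (pd k (pd 0 (U 1)) y + pd k (pd 1 (U 0)) y)]
  generalize ∑ k, pd k (curl U 2) y ^ 2 = X at h1
  have h2 : ∀ F : Fin 3 → Fin 3 → ℝ, (∀ i j, 0 ≤ F i j) → F 1 0 + F 0 1 ≤ ∑ i, ∑ j, F i j := by
    intro F hF
    simp only [Fin.sum_univ_three]
    linarith [hF 0 0, hF 0 2, hF 1 1, hF 1 2, hF 2 0, hF 2 1, hF 2 2]
  linarith [h2 _ h]

/-- One value of the vorticity on the axis and the gradient bound give a lower bound on a ball. -/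
theorem nz_of_point {Ψ S : Vc} (hp : Pot (-1 / 2) Ψ S) {b1 w0 z0 δ : ℝ} (hb : 0 ≤ b1)
    (pw1 : ∀ y, ∑ i, ∑ j, ∑ k, pd k (pd j (fld Ψ S i)) y ^ 2 ≤ b1 ^ 2 * Om y)
    (h0 : w0 ≤ |curl (fld Ψ S) 2 (EuclideanSpace.single 2 z0)|) (hz : |z0| ≤ 1) (hδ : 0 < δ)
    (hδ1 : δ ≤ 1) (h : 4 * b1 * δ ≤ w0) (hv : 1 / 10 ^ 6 ≤ 2 / 5 * w0 ^ 2 * δ ^ 3) :
    ∃ A0, ∀ A ≥ A0, 1 / 10 ^ 6 ≤ nw Om (curl (cut A Ψ S)) := by
  refine ⟨2, fun A hA => hv.trans ?_⟩
  set x : R3 := EuclideanSpace.single 2 z0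
  have hU : ∀ i, ContDiff ℝ ∞ (fld Ψ S i) := fun i =>
    (Dyn.curl_smooth (fun i => (hp.sΨ i).1) i).add (hp.sS i).1
  have hl := nz_lip (Dyn.curl_smooth hU 2) (C := 2 * b1) (by positivity) (fun y => by
    nlinarith [nz_grad hU y, pw1 y, mul_le_mul_of_nonneg_left (Dyn.Om_le y) (sq_nonneg b1)]) x
  have hB := pot_bg hp (A := A) (by linarith)
  have hh := Dyn.hinf_curl fun i => hinf_of_supp (hB.smooth i) (hB.supp i)
  have hi : Integrable fun y => Om y * dot (curl (cut A Ψ S)) (curl (cut A Ψ S)) y := by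
    simp only [dot, Finset.mul_sum]
    exact integrable_finsetSum _ fun i _ => Dyn.int_wmul Dyn.Om_smooth.continuous
      (fun y => (abs_of_pos (Dyn.Om_pos y)).trans_le (Dyn.Om_le y)) (hh i) (hh i)
  have hw : 0 ≤ w0 := le_trans (by positivity) h
  have h1 := setIntegral_ge_of_const_le_real (μ := volume) (s := Metric.ball x δ)
    (c := w0 ^ 2 / 10) measurableSet_ball measure_ball_lt_top.ne (fun y hy => ?_) hi.integrableOn
  · have h2 := setIntegral_le_integral (s := Metric.ball x δ) hi (.of_forall fun y =>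
      mul_nonneg (Dyn.Om_pos y).le (Finset.sum_nonneg fun i _ => mul_self_nonneg _))
    have h3 : volume.real (Metric.ball x δ) = δ ^ 3 * (π * 4 / 3) := by
      rw [Measure.real, EuclideanSpace.volume_ball_fin_three, ENNReal.toReal_mul,
        ENNReal.toReal_pow, ENNReal.toReal_ofReal hδ.le, ENNReal.toReal_ofReal (by positivity)]
    rw [h3] at h1
    refine le_trans ?_ (h1.trans h2)
    nlinarith [mul_le_mul_of_nonneg_left Real.pi_gt_three.le
      (show 0 ≤ w0 ^ 2 * δ ^ 3 by positivity)]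
  · rw [mem_ball_iff_norm] at hy
    have hx : ‖x‖ ≤ 1 := by simpa [x] using hz
    have hn : ‖y‖ < 2 := by linarith [norm_le_norm_add_norm_sub' y x]
    have h2 : 2 / 5 ≤ Om y :=
      div_le_div_of_nonneg_left (by norm_num) (by positivity) (by nlinarith [norm_nonneg y])
    have h3 : w0 / 2 ≤ |curl (fld Ψ S) 2 y| := by
      have h4 := abs_sub_abs_le_abs_sub (curl (fld Ψ S) 2 x) (curl (fld Ψ S) 2 y)
      rw [abs_sub_comm] at h4
      nlinarith [hl y, mul_le_mul_of_nonneg_left hy.le hb]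
    rw [← agr_curl (agr_cut A Ψ S) 2 y (by linarith)] at h3
    have h4 := pow_le_pow_left₀ (by positivity) h3 2
    rw [sq_abs] at h4
    have h5 : curl (cut A Ψ S) 2 y ^ 2 ≤ dot (curl (cut A Ψ S)) (curl (cut A Ψ S)) y := by
      simp only [dot, Fin.sum_univ_three]
      nlinarith [mul_self_nonneg (curl (cut A Ψ S) 0 y), mul_self_nonneg (curl (cut A Ψ S) 1 y)]
    nlinarith [mul_le_mul h2 (h4.trans h5) (by positivity) (Dyn.Om_pos y).le]

theorem nz_axis {y : R3} {z : ℝ} (h : y 2 = z) (h' : ‖y‖ ^ 2 = z ^ 2) (l : ℕ) :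
    Hl l y = z ^ l ∧ 2 * z * bl l y = l * (l + 1) * z ^ l := by
  induction l using Nat.twoStepInduction with
  | zero => simp [Hl, bl]
  | one => simp [Hl, bl, h, one_add_one_eq_two]
  | more n h1 h2 =>
    have hn : (n + 2 : ℝ) ≠ 0 := by positivity
    simp only [ResHl_Hl_succ, ResHl_bl_succ, h, h', h1.1, h2.1]
    push_cast at h2 ⊢
    refine ⟨by field_simp; ring, ?_⟩
    field_simp
    linear_combination (2 * n + 3) * z * h2.2 - (n + 1) * z ^ 2 * h1.2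

/-- The vorticity on the axis. -/
theorem curl_axis {a : ℝ} (ha : 0 < a) (L : Finset ℕ) (f s : ℕ → Rad) (z0 : ℝ) :
    z0 * curl (fld (TR a L f) (TR a L s)) 2 (EuclideanSpace.single 2 z0) =
      -∑ l ∈ L, (l * (l + 1) : ℝ) * (s l).f ((1 + a * z0 ^ 2) ^ (-(1 / 4) : ℝ)) * z0 ^ l := by
  obtain ⟨w, -, hw⟩ := exists_curl_curl_TR ha L f
  have hb := (axi_TS ha L s).smooth
  set x : R3 := EuclideanSpace.single 2 z0
  have h0 : x 0 = 0 := by simp [x]
  have h1 : x 1 = 0 := by simp [x]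
  have h2 : x 2 = z0 := by simp [x]
  have h3 : ‖x‖ ^ 2 = z0 ^ 2 := by simp [x]
  simp only [TR, TF_eq_sm] at hw ⊢
  rw [curl_fld_Jv (axi_TS ha L f).smooth hb hw, fld, Pi.add_apply, Pi.add_apply, curl_sm_Jv hb]
  simp only [sm, Jv, rd, h0, h1, TS, tau, h3, Matrix.cons_val, zero_mul, mul_zero, add_zero,
    mul_neg, Finset.mul_sum, neg_inj]
  refine Finset.sum_congr rfl fun l _ => ?_
  linear_combination (s l).f ((1 + a * z0 ^ 2) ^ (-(1 / 4) : ℝ)) * (nz_axis h2 h3 l).2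

end Pool.Agent.Work.MP_6bf1e5_an.H
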