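import Pool.Agent.Work.MP_6bf1e5_an.H.ResForm
import Pool.Agent.Work.MP_6bf1e5_an.H.ResCut
import Pool.Agent.Work.MP_6bf1e5_an.H.ResLoc
import Pool.Agent.Work.MP_6bf1e5_an.H.ResAxi

/-! Interface of the residual estimate (owner helper11). -/

open scoped ContDiff ENNReal FourierTransform Real
open Set MeasureTheory

namespace Pool.Agent.Work.MP_6bf1e5_an.H

variable {a ν : ℝ} {L : Finset ℕ} {f s b c : ℕ → Rad}

/-- The error of the approximate local part. -/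
noncomputable def resD (a : ℝ) (L : Finset ℕ) (f s b c : ℕ → Rad) : Vc :=
  loc (fld (TR a L f) (TR a L s)) - fld (TR a L c) (TR a L b)

theorem ResOK.pot (h : ResOK L f s b c) (ha : 0 < a) : Pot (-1 / 2) (TR a L f) (TR a L s) := by
  refine pot_TR ha (fun l hl => (h l hl).1) (fun l hl => ?_) fun l hl => ?_
  · have : (2 * l : ℝ) ≤ (f l).e + 1 := by exact_mod_cast (h l hl).2.2.1
    linarith
  · have : (2 * l + 1 : ℝ) ≤ (s l).e := by exact_mod_cast (h l hl).2.2.2.1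
    linarith

theorem ResOK.inA (h : ResOK L f s b c) (ha : 0 < a) (i : Fin 3) :
    InA (curl (fld (TR a L f) (TR a L s)) i) := ⟨_, rep_W ha h i⟩

theorem ResOK.sym (h : ResOK L f s b c) (ha : 0 < a) (i : Fin 3) :
    Sym (-2) (resD a L f s b c i) := by
  have h1 := sym_loc ha (f := f) (s := s) (L := L)
    (fun l hl => ⟨(h l hl).2.2.1, (h l hl).2.2.2.1⟩) i
  have h2 : ∀ i, Sym (-2 + 1) (TR a L c i) := sym_TR ha fun l hl => by
    have : (2 * l + 2 : ℝ) ≤ (c l).e := by exact_mod_cast (h l hl).2.2.2.2.2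
    linarith
  have h3 : ∀ i, Sym (-2) (TR a L b i) := sym_TR ha fun l hl => by
    have : (2 * l + 4 : ℝ) ≤ (b l).e := by exact_mod_cast (h l hl).2.2.2.2.1
    linarith
  exact (h1.symU.sub (symU_fld (Ψ := fun _ => TR a L c) (S := fun _ => TR a L b)
    (fun i => (h2 i).symU) (fun i => (h3 i).symU) i)).sym le_rfl

theorem ae_off_axis : ∀ᵐ y : R3, y 0 ^ 2 + y 1 ^ 2 ≠ 0 := by
  have h : volume ((LinearMap.ker (EuclideanSpace.projₗ (𝕜 := ℝ) (0 : Fin 3)) :
      Submodule ℝ R3) : Set R3) = 0 := by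
    refine Measure.addHaar_submodule _ _ fun h => ?_
    have : EuclideanSpace.single (0 : Fin 3) (1 : ℝ) ∈
        LinearMap.ker (EuclideanSpace.projₗ (𝕜 := ℝ) (0 : Fin 3)) := h ▸ Submodule.mem_top
    simp at this
  filter_upwards [measure_eq_zero_iff_ae_notMem.1 h] with y hy h0
  refine hy ?_
  have : y 0 = 0 := by nlinarith [sq_nonneg (y 0), sq_nonneg (y 1)]
  simpa using this

/-- From a pointwise bound off the axis to an integral bound. -/
theorem int_le_of_pt {g : Sc} {η : ℝ} (hg : ∀ y, 0 ≤ g y)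
    (h : ∀ y : R3, y 0 ^ 2 + y 1 ^ 2 ≠ 0 → g y ≤ η ^ 2 * (Om y ^ 2 / ‖y‖ ^ 2)) :
    ∫ y, g y ≤ (7 * η) ^ 2 := by
  refine (integral_mono_of_nonneg (Filter.Eventually.of_forall hg)
    (int_Om_sq_div.1.const_mul (η ^ 2)) (ae_off_axis.mono h)).trans ?_
  rw [integral_const_mul, int_Om_sq_div.2]
  have : π ^ 2 ≤ 3.5 ^ 2 := by
    gcongr
    linarith [Real.pi_lt_d2]
  nlinarith [sq_nonneg η]

theorem dvg_loc {B : Vc} (hB : ∀ i, ContDiff ℝ ∞ (B i)) (y : R3) : dvg (loc B) y = 0 := by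
  have hW := Dyn.curl_smooth hB
  have hC : ∀ i, ContDiff ℝ ∞ (cross B (curl B) i) := fun i =>
    ((hB _).mul (hW _)).sub ((hB _).mul (hW _))
  have e : ∀ i, pd i (loc B i) y = pd i (curl B i) y
      + 2 / 3 * (pd i (curl B i) y + yd (pd i (curl B i)) y)
      - pd i (curl (cross B (curl B)) i) y := fun i => by
    have h1 := contDiff_const (c := (2 / 3 : ℝ)).mul (Dyn.yd_smooth (hW i))
    unfold loc
    rw [Dyn.pd_sub ((hW i).add h1) (Dyn.curl_smooth hC i), Dyn.pd_add (hW i) h1,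
      Dyn.pd_cmul (Dyn.yd_smooth (hW i)), Dyn.pd_yd (hW i)]
  have h1 : ∑ i, pd i (curl B i) y = 0 := Dyn.dvg_curl hB y
  have h2 : ∑ i, pd i (curl (cross B (curl B)) i) y = 0 := Dyn.dvg_curl hC y
  have h3 : ∑ i, yd (pd i (curl B i)) y = 0 := by
    have h4 := congrFun (Dyn.yd_sum Finset.univ fun i _ => Dyn.pd_smooth (hW i) i) y
    have h5 : (fun y => ∑ i, pd i (curl B i) y) = fun _ => 0 := funext (Dyn.dvg_curl hB)
    rw [← h4, h5]
    simp only [yd, Dyn.pd_const, mul_zero, Finset.sum_const_zero]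
  simp only [dvg, e, Finset.sum_sub_distrib, Finset.sum_add_distrib, ← Finset.mul_sum, h1, h2, h3]
  norm_num

theorem dvg_resD (ha : 0 < a) (y : R3) : dvg (resD a L f s b c) y = 0 := by
  have hF : ∀ (p q : ℕ → Rad) i, ContDiff ℝ ∞ (fld (TR a L p) (TR a L q) i) := fun p q i =>
    (Dyn.curl_smooth (TR_smooth ha L p) i).add (TR_smooth ha L q i)
  have hW := Dyn.curl_smooth (hF f s)
  have hl : ∀ i, ContDiff ℝ ∞ (loc (fld (TR a L f) (TR a L s)) i) := fun i =>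
    ((hW i).add (contDiff_const.mul (Dyn.yd_smooth (hW i)))).sub
      (Dyn.curl_smooth (fun _ => ((hF f s _).mul (hW _)).sub ((hF f s _).mul (hW _))) i)
  rw [resD, Dyn.dvg_sub hl (hF c b), dvg_loc (hF f s), fld,
    Dyn.dvg_add (Dyn.curl_smooth (TR_smooth ha L c)) (TR_smooth ha L b),
    Dyn.dvg_curl (TR_smooth ha L c), dvg_TR ha]
  norm_num

theorem res_main (ha : 0 < a) (h : ResOK L f s b c) {r1 r2 η1 η2 e1 e2 : ℝ} (hr1 : 0 ≤ r1)
    (hr2 : 0 ≤ r2) (hη1 : 0 ≤ η1) (hη2 : 0 ≤ η2)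
    (q1 : ∑ l ∈ L, RQ a ν 0 l (f l) (s l) (b l) (c l) ≤ r1 ^ 2)
    (q2 : ∑ l ∈ L, RQ a ν 2 l (f l) (s l) (b l) (c l) ≤ r2 ^ 2)
    (p1 : nw Om (resD a L f s b c) ≤ η1 ^ 2) (p2 : nw 1 (curl (resD a L f s b c)) ≤ η2 ^ 2)
    (he1 : 3 / 2 * r1 + η1 ≤ e1) (he2 : r2 + η2 ≤ e2) :
    ∀ η > 0, ∃ A0, ∀ A ≥ A0, nw Om (Res ν (cut A (TR a L f) (TR a L s))) ≤ (e1 + η) ^ 2 ∧
      gw 1 (Res ν (cut A (TR a L f) (TR a L s))) ≤ (e2 + η) ^ 2 := by
  obtain ⟨hR, n1, n2⟩ := res_form (ν := ν) ha h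
  have hD : ∀ i, Hinf (resD a L f s b c i) := fun i => (h.sym ha i).hinf (by norm_num)
  have e : ∀ i, Res ν (fld (TR a L f) (TR a L s)) i =
      fun y => resR a ν L f s b c i y + resD a L f s b c i y := fun i => by
    funext y
    simp only [Res, resR, resD, loc, Pi.sub_apply]
    ring
  have k1 : SqLe 1 (resR a ν L f s b c) r1 :=
    sqLe_one (fun i => Dyn.int_sq (hR i)) (by rw [← Dyn.nw_one hR, n1]; exact q1)
  have k2 := (k1.om fun i => (hR i).1.continuous).add (sqLe_om_of_hinf hD p1)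
    Dyn.Om_smooth.continuous (fun y => (Dyn.Om_pos y).le) (fun i => (hR i).1.continuous)
    (fun i => (hD i).1.continuous) (by positivity) hη1
  have k3 := (sqLe_grad_of_hinf hR (n2.trans_le q2)).add
    (sqLe_grad_of_hinf hD ((gw_eq_curl hD (dvg_resD ha)).trans_le p2)) continuous_const
    (fun _ => zero_le_one) (fun p => ((hR p.1).pd p.2).1.continuous)
    (fun p => ((hD p.1).pd p.2).1.continuous) hr2 hη2
  refine res_cut (h.pot ha) (h.inA ha) (fun i => ?_) (le_trans (by positivity) he1)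
    (le_trans (by positivity) he2) ?_ ?_
  · rw [e]; exact Dyn.hinf_add (hR i) (hD i)
  · rw [nw_eq_sq]
    simp only [e]
    exact (k2.mono (by positivity) he1).2
  · rw [gw_eq_sq]
    simp only [e, fun i j => Dyn.pd_add (hR i).1 (hD i).1 j]
    exact (k3.mono (by positivity) he2).2

end Pool.Agent.Work.MP_6bf1e5_an.H
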