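import Pool.Agent.Work.MP_6bf1e5_an.H.SepE
import Pool.Agent.Work.MP_6bf1e5_an.H.SepG

/-!
Interface of the separated calculus (owner helper84). All statements are proved in the files
SepA (pointwise calculus), SepB, SepC (tor, mer, equivariance), SepD (tO, mO, sO), SepE (symbol
classes, polynomial degrees, tests) and SepG (Gegenbauer polynomials).
-/
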