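import Pool.Agent.Work.MP_6bf1e5_an.H.GalTor
import Pool.Agent.Work.MP_6bf1e5_an.H.GalRed

/-! The Galerkin splitting. -/

open scoped ContDiff ENNReal FourierTransform Real
open Set MeasureTheory Polynomial

namespace Pool.Agent.Work.MP_6bf1e5_an.H

theorem split_modes {n : ℕ} {ι : Type} [Fintype ι] {md : ι → Mode} (h : Spans n md) {w : Vc}
    (hw : Adm w) : ∃ c : ι → ℝ, ∀ i,
      Perp (9 / 4) (n + 1) fun y => w i y - lc c (fun j => (md j).u) i y := by
  obtain ⟨Ψ, hΨ, eΨ⟩ := exists_potential hw.hinf hw.dv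
  obtain ⟨c, hc⟩ := Gal_solve h fun pol => if pol then Ψ else w
  have hp : ∀ j, Adm (md j).pot := fun j =>
    Mode.adm { md j with pol := false } (h.1 j).1 (h.1 j).2
  have hq := hw.sub (Adm.lc c fun j => (md j).adm (h.1 j).1 (h.1 j).2).1
  set P : Bool → Vc := fun pol => lc (fun j => if (md j).pol = pol then c j else 0)
    fun j => (md j).pot with hP
  have aP : ∀ pol, Adm (P pol) := fun pol => (Adm.lc _ hp).1
  have tor : ∀ (pol : Bool) (V : Vc), (∀ i, Bd 0 (V i)) → V = (if pol then Ψ else w) → ∀ d A,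
      d + 1 ≤ n + (if pol then 1 else 0) → GalW 1 A d ≤ GalK fun y => Op (9 / 4) y *
        (Om y * ((V 0 y - P pol 0 y) * y 1 - (V 1 y - P pol 1 y) * y 0)) := by
    intro pol V hV e d A hd
    refine Gal_tor (V := fun i y => V i y - P pol i y)
      (fun i => (hV i).sub ((aP pol).hinf i).bd) (fun l m h1 h2 h3 => ?_) hd A
    rw [GalP_sub hV fun i => ((aP pol).hinf i).bd, e, ← hc pol l m h1 h2 h3, sub_eq_zero]
    exact (GalP_sum _ _ fun j i => ((hp j).hinf i).bd).symm
  have eu : ∀ i y, lc c (fun j => (md j).u) i y = P false i y + curl (P true) i y := by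
    intro i y
    rw [hP, (Adm.lc _ hp).2]
    simp only [lc, ← Finset.sum_add_distrib, Mode.u]
    refine Finset.sum_congr rfl fun j _ => ?_
    cases (md j).pol <;> simp
  have eT : ∀ y, curl (P true) 0 y * y 1 - curl (P true) 1 y * y 0 = 0 := by
    intro y
    rw [hP, (Adm.lc _ hp).2]
    simp only [lc, Finset.sum_mul, ← Finset.sum_sub_distrib, mul_assoc, ← mul_sub, Gal_curl_tor,
      mul_zero, Finset.sum_const_zero]
  have eM : ∀ y, P false 0 y * y 0 + P false 1 y * y 1 = 0 ∧ P false 2 y = 0 := by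
    intro y
    simp only [hP, lc, Finset.sum_mul, ← Finset.sum_add_distrib, mul_assoc, ← mul_add,
      Gal_pot_mer, mul_zero, Finset.sum_const_zero, and_self]
  have iA : ∀ i, GalB fun y => Ψ i y - P true i y := fun i =>
    Gal_inA_B (Gal_inA_sub (hΨ i) ((aP true).hinf i).inA)
  have eC : ∀ i y, curl (fun i y => Ψ i y - P true i y) i y = w i y - curl (P true) i y := by
    intro i y
    rw [← eΨ]
    exact congrFun (congrFun (Dyn.curl_sub (fun i => (hΨ i).choose_spec.smooth)
      fun i => ((aP true).hinf i).1) i) y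
  have tP := fun A => tor true Ψ (fun i => Gal_inA_bd (hΨ i)) rfl n A le_rfl
  refine ⟨c, Gal_red hq.eqv (fun i => ((bd_Op _).mul (hq.hinf i).bd).integrable (by norm_num))
    (fun a k ha hn => ?_) (fun a k ha hn => ?_) fun a k ha hn => ?_⟩
  · refine (integral_congr_ae (.of_forall fun y => ?_)).trans
      (tor false w (fun i => (hw.hinf i).bd) rfl (a + k) (a + 1) hn
        (GalW_mem ha (by omega) le_rfl)).2
    simp only [eu]
    linear_combination (-(Op (9 / 4) y * Om y * GalS a k y)) * eT y
  · refine (integral_congr_ae (.of_forall fun y => ?_)).trans (Gal_mer1 iA tP a k ha hn)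
    simp only [eu, eC]
    linear_combination (-(Op (9 / 4) y * Om y * GalS a k y)) * (eM y).1
  · refine (integral_congr_ae (.of_forall fun y => ?_)).trans (Gal_mer2 iA tP a k ha hn)
    simp only [eu, eC, (eM y).2, zero_add]

theorem gal_modes {n : ℕ} {ι : Type} [Fintype ι] {md : ι → Mode} (h : Spans n md) :
    Gal n (fun j => (md j).u) fun j => (md j).gr where
  adm j := (md j).adm (h.1 j).1 (h.1 j).2
  sym j i := md_sym_mono ((md j).sym_u (h.1 j).1 i) (by norm_num)
  hf j k i := (md j).hf_gr (h.1 j).1 k i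
  perp j i k hk g hg := by
    have hf := fun k => (md j).hf_gr (h.1 j).1 k i
    have e : ∀ y, (curl (md j).u i y - Op (3 / 4) y * ∑ k ∈ Finset.range n, (md j).gr k i y) *
        (Op (9 / 4) y * g y) = ∑ k ∈ Finset.Ico n (n + ((md j).l + (md j).M + 2)),
          Op (3 / 4) y * (md j).gr k i y * (Op (9 / 4) y * g y) := fun y => by
      rw [(md j).curl_gr (h.1 j).1, ← Finset.sum_mul, ← Finset.mul_sum,
        Finset.sum_Ico_eq_sub _ (Nat.le_add_right _ _), mul_sub,
        Finset.sum_subset (Finset.range_subset_range.2 (Nat.le_add_left _ n)) fun k _ hk => by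
          rw [(md j).gr_zero (by simpa using hk)]
          rfl]
    simp only [e]
    rw [integral_finsetSum _ fun k _ => Gal_int_test (Gal_bd_E (hf k).1) hg]
    exact Finset.sum_eq_zero fun k' hk' => (Gal_ipS _ _).trans
      ((hf k').2 k (hk.trans_le (Finset.mem_Ico.1 hk').1) g hg)
  split w hw := split_modes h hw

end Pool.Agent.Work.MP_6bf1e5_an.H
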