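import Mathlib

/-!
Definitions used in the statement about the three-dimensional Navier-Stokes equations with the
fractional dissipation `(-Δ) ^ α`.
-/

open scoped ContDiff ENNReal FourierTransform Real
open Set MeasureTheory

namespace Pool.Agent.Work.MP_6bf1e5_an.H

noncomputable section

/-- Euclidean three-space. -/
abbrev R3 := EuclideanSpace ℝ (Fin 3)

/-- The derivative of `f` at `x` in the `j`-th coordinate direction. -/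
def pd (j : Fin 3) (f : R3 → ℝ) (x : R3) : ℝ := fderiv ℝ f x (EuclideanSpace.single j 1)

/-- `(u, p)` is a smooth solution on `ℝ³ × [0, T]` of
`∂ₜ u + (u·∇) u + ∇ p = -ν (-Δ) ^ α u`, `div u = 0`, `u(·,0) = u0`, all of whose spatial Sobolev
norms are bounded on `[0, T]`. Here `U t` is the Fourier transform of `u(·,t)`, and `(-Δ) ^ α` is
the Fourier multiplier `(2 π |ξ|) ^ (2 α)`. -/
structure FSol (α ν : ℝ) (u0 : R3 → R3) (T : ℝ) (u : R3 → ℝ → R3) (p : R3 → ℝ → ℝ)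
    (U : ℝ → Fin 3 → R3 → ℂ) : Prop where
  smooth_u : ContDiffOn ℝ ∞ (fun z : R3 × ℝ => u z.1 z.2) (univ ×ˢ Icc 0 T)
  smooth_p : ContDiffOn ℝ ∞ (fun z : R3 × ℝ => p z.1 z.2) (univ ×ˢ Icc 0 T)
  meas : ∀ t ∈ Icc 0 T, ∀ i, AEStronglyMeasurable (U t i) volume
  sobolev : ∀ k : ℕ, ∃ C < (⊤ : ℝ≥0∞), ∀ t ∈ Icc 0 T, ∀ i,
    ∫⁻ ξ, ENNReal.ofReal ((1 + ‖ξ‖ ^ 2) ^ k) * ‖U t i ξ‖ₑ ^ 2 ≤ C
  fourier : ∀ t ∈ Icc 0 T, ∀ x i, (u x t i : ℂ) = 𝓕⁻ (U t i) x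
  momentum : ∀ x, ∀ t ∈ Icc 0 T, ∀ i,
    derivWithin (fun s => u x s i) (Icc 0 T) t + ∑ j, u x t j * pd j (fun y => u y t i) x
      + pd i (fun y => p y t) x
      = -ν * (𝓕⁻ (fun ξ => (((2 * π * ‖ξ‖) ^ (2 * α) : ℝ) : ℂ) * U t i ξ) x).re
  divFree : ∀ x, ∀ t ∈ Icc 0 T, ∑ i, pd i (fun y => u y t i) x = 0
  initial : ∀ x, u x 0 = u0 x

end

end Pool.Agent.Work.MP_6bf1e5_an.H
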