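import Pool.Agent.Work.MP_6bf1e5_an.H.TbRule
import Pool.Agent.Work.MP_6bf1e5_an.H.SkSep

/-! The tables of sums of toroidal fields, and of their double curl. -/

open scoped ContDiff ENNReal FourierTransform Real
open Set MeasureTheory Filter Topology Polynomial
open Pool.Agent.Lib.KTab

namespace Pool.Agent.Work.MP_6bf1e5_an.H

/-- The table of a family of profiles. -/
noncomputable def TA (a : ℝ) (L : Finset ℕ) (g : ℕ → ℝ → ℝ) : Tf := ang fun x c =>
  ∑ l ∈ L, ((1 - x ^ 8) / a) ^ (l / 2 - 1) * g l (x ^ 2) * (derivative (geg 1 l)).eval c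

/-- The operator `x d / dx`. -/
noncomputable def thx (g : ℝ → ℝ) : ℝ → ℝ := fun x => x * deriv g x

/-- The operator `x d / dx + 2 l - 1`. -/
noncomputable def hp (l : ℕ) (g : ℝ → ℝ) : ℝ → ℝ := fun x => thx g x + (2 * l - 1) * g x

/-- The profile of the double curl. -/
noncomputable def wp (a : ℝ) (l : ℕ) (g : ℝ → ℝ) : ℝ → ℝ := fun x =>
  a / 4 * ((2 * l + 3) * (1 + x ^ 4) * hp l g x - (1 - x ^ 4) * thx (hp l g) x)

variable {a : ℝ} {L : Finset ℕ} {F g : ℕ → ℝ → ℝ} {φ : ℝ → ℝ} {k l : ℕ} {P : Sc}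

theorem thx_smooth (h : ContDiff ℝ ∞ φ) : ContDiff ℝ ∞ (thx φ) :=
  contDiff_id.mul (contDiff_infty_iff_deriv.1 h).2

theorem hp_smooth (l : ℕ) (h : ContDiff ℝ ∞ φ) : ContDiff ℝ ∞ (hp l φ) :=
  (thx_smooth h).add (contDiff_const.mul h)

theorem wp_smooth (a : ℝ) (l : ℕ) (h : ContDiff ℝ ∞ φ) : ContDiff ℝ ∞ (wp a l φ) :=
  contDiff_const.mul (((contDiff_const.mul (contDiff_const.add (contDiff_id.pow 4))).mul
    (hp_smooth l h)).sub ((contDiff_const.sub (contDiff_id.pow 4)).mul (thx_smooth (hp_smooth l h))))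

theorem thx_pow_mul (h : ContDiff ℝ ∞ φ) (n : ℕ) :
    thx (fun x => x ^ n * φ x) = fun x => x ^ n * (thx φ x + n * φ x) := by
  funext x
  have h1 := ((hasDerivAt_pow n x).mul (h.differentiable (by simp) x).hasDerivAt).deriv
  simp only [thx]
  rw [show (fun x => x ^ n * φ x) = (fun x => x ^ n) * φ from rfl, h1]
  cases n with
  | zero => simp
  | succ n => simp only [Nat.add_sub_cancel]; ring

theorem pd_comp_tau (ha : 0 < a) (h : ContDiff ℝ ∞ φ) (j : Fin 3) :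
    pd j (fun y => φ (tau a y)) = fun y => -(a / 2) * (y j * (tau a y ^ 4 * thx φ (tau a y))) := by
  funext y
  have h1 := pd_tau_pow ha 1 j y
  simp only [pow_one] at h1
  have h2 := (h.differentiable (by simp) (tau a y)).hasDerivAt.comp_hasFDerivAt y
    ((tau_smooth ha).differentiable (by simp) y).hasFDerivAt
  have h3 : fderiv ℝ (fun y => φ (tau a y)) y = _ := h2.fderiv
  rw [pd, h3, _root_.smul_apply, smul_eq_mul]
  change _ * pd j (tau a) y = _
  rw [h1, thx]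
  push_cast
  ring

theorem axi_comp_tau (ha : 0 < a) (h : ContDiff ℝ ∞ φ) : Axi fun y => φ (tau a y) :=
  ⟨h.comp (tau_smooth ha), fun y => by
    rw [pd_comp_tau ha h, pd_comp_tau ha h]
    ring⟩

theorem axi_TS_of (ha : 0 < a) (h : ∀ l ∈ L, ContDiff ℝ ∞ (F l)) : Axi (TS a L F) :=
  ResAxi_axi_sum L fun l hl => (axi_comp_tau ha (h l hl)).mul (axi_bl l)

theorem smo_TA (a : ℝ) (hg : ∀ l ∈ L, ContDiff ℝ ∞ (g l)) : Smo (TA a L g) := by
  refine smo_ang (ContDiff.sum fun l hl => ?_)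
  refine ((((contDiff_const.sub (contDiff_fst.pow 8)).div_const a).pow _).mul
    ((hg l hl).comp (contDiff_fst.pow 2))).mul ?_
  exact (Polynomial.contDiff_aeval (𝕜 := ℝ) (derivative (geg 1 l)) ∞).comp contDiff_snd

theorem rp_TS (ha : 0 < a) (hL : ∀ l ∈ L, Even l ∧ 1 ≤ l)
    (hF : ∀ l ∈ L, ∀ x, F l x = x ^ (2 * l - 4 + k) * g l x) (hg : ∀ l ∈ L, ContDiff ℝ ∞ (g l)) :
    Rp a 1 k (TS a L F) (TA a L g) := by
  have hs : ∀ l ∈ L, ContDiff ℝ ∞ (F l) := fun l hl => by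
    rw [funext (hF l hl)]
    exact (contDiff_id.pow _).mul (hg l hl)
  refine ⟨(axi_TS_of ha hs).smooth, smo_TA a hg, fun y hy => ?_⟩
  have h0 := hy.norm_pos
  rw [TA, ang, ← Complex.ofReal_mul, Complex.ofReal_inj, TS, Finset.mul_sum, cos_an2 hy,
    show Real.cos (an1 a y) ^ 8 = (Real.cos (an1 a y) ^ 2) ^ 4 by ring, cos_an1_sq ha]
  refine Finset.sum_congr rfl fun l hl => ?_
  obtain ⟨⟨i, hi⟩, h1⟩ := hL l hl
  obtain ⟨m, rfl⟩ : ∃ m, l = 2 * m + 1 + 1 := ⟨i - 1, by omega⟩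
  have e : (1 - tau a y ^ 4) / a = ‖y‖ ^ 2 * tau a y ^ 4 := by
    rw [div_eq_iff ha.ne']; linear_combination -tau_four ha y
  rw [hF _ hl, bl_eq _ (norm_pos_iff.1 h0), e, show (2 * m + 1 + 1) / 2 - 1 = m by omega,
    show 2 * (2 * m + 1 + 1) - 4 + k = 4 * m + k by omega, zpow_one]
  ring

theorem lap_comp_tau (ha : 0 < a) (h : ContDiff ℝ ∞ φ) (hP : Harm l P) (y : R3) :
    -lap (fun y => φ (tau a y) * P y) y = a / 4 * ((4 * l + 6) * (tau a y ^ 4 * thx φ (tau a y))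
      - (1 - tau a y ^ 4) * thx (fun x => x ^ 4 * thx φ x) (tau a y)) * P y := by
  have hψ : ContDiff ℝ ∞ fun x => x ^ 4 * thx φ x := (contDiff_id.pow 4).mul (thx_smooth h)
  have u1 : ContDiff ℝ ∞ fun y => φ (tau a y) := h.comp (tau_smooth ha)
  have u2 : ContDiff ℝ ∞ fun y => tau a y ^ 4 * thx φ (tau a y) := hψ.comp (tau_smooth ha)
  have e : ∀ j, pd j (pd j fun y => φ (tau a y) * P y) y =
      -(a / 2) * (tau a y ^ 4 * thx φ (tau a y) - a / 2 * y j ^ 2 * (tau a y ^ 4 *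
        thx (fun x => x ^ 4 * thx φ x) (tau a y))) * P y
      - a * (tau a y ^ 4 * thx φ (tau a y)) * (y j * pd j P y) + φ (tau a y) * pd j (pd j P) y := by
    intro j
    have c1 := (Dyn.coord_smooth j).mul u2
    have c2 := contDiff_const (c := -(a / 2)).mul c1
    have c3 := Dyn.pd_smooth hP.smooth j
    rw [Dyn.pd_mul u1 hP.smooth, pd_comp_tau ha h, Dyn.pd_add (c2.mul hP.smooth) (u1.mul c3),
      Dyn.pd_mul c2 hP.smooth, Dyn.pd_mul u1 c3, Dyn.pd_cmul c1, Dyn.pd_mul (Dyn.coord_smooth j) u2,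
      pd_comp_tau ha h, Dyn.pd_coord, pd_comp_tau ha hψ]
    simp only [if_true]
    ring
  have h1 := hP.toHom.euler y
  have h2 := hP.harm y
  have h3 := tb_norm_sq y
  have h4 := tau_four ha y
  simp only [lap, yd, Fin.sum_univ_three] at h1 h2 ⊢
  rw [e, e, e]
  linear_combination a * (tau a y ^ 4 * thx φ (tau a y)) * h1 - φ (tau a y) * h2
    + a ^ 2 / 4 * tau a y ^ 4 * thx (fun x => x ^ 4 * thx φ x) (tau a y) * P y * h3
    - a / 4 * thx (fun x => x ^ 4 * thx φ x) (tau a y) * P y * h4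

theorem curl_curl_TS (ha : 0 < a) (hL : ∀ l ∈ L, Even l ∧ 1 ≤ l) {R : ℕ → Rad}
    (hF : ∀ l ∈ L, ∀ x, (R l).f x = x ^ (2 * l - 4 + 3) * g l x)
    (hg : ∀ l ∈ L, ContDiff ℝ ∞ (g l)) : curl (curl (TR a L R)) =
      sm (TS a L fun l x => x ^ (2 * l - 4 + 7) * wp a l (g l) x) Jv := by
  have hs : ∀ l ∈ L, ContDiff ℝ ∞ (R l).f := fun l hl => by
    rw [funext (hF l hl)]
    exact (contDiff_id.pow _).mul (hg l hl)
  have ht : ∀ i, ∀ l ∈ L, ContDiff ℝ ∞ fun y => (R l).f (tau a y) * TT l i y := fun i l hl =>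
    ((hs l hl).comp (tau_smooth ha)).mul (harm_TT l i).smooth
  funext i y
  rw [curl_curl_of_dvg (V := TR a L R) (fun i => ContDiff.sum (ht i)) (dvg_TR ha L R)]
  have e : lap (TR a L R i) y = ∑ l ∈ L, lap (fun y => (R l).f (tau a y) * TT l i y) y := by
    unfold lap
    rw [Finset.sum_comm]
    refine Finset.sum_congr rfl fun j _ => ?_
    rw [show TR a L R i = fun y => ∑ l ∈ L, (R l).f (tau a y) * TT l i y from rfl,
      Dyn.pd_sum L (ht i), Dyn.pd_sum L fun l hl => Dyn.pd_smooth (ht i l hl) j]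
  rw [e, ← Finset.sum_neg_distrib, sm, TS, Finset.sum_mul]
  refine Finset.sum_congr rfl fun l hl => ?_
  obtain ⟨⟨m, hm⟩, h1⟩ := hL l hl
  have c1 : ((2 * l - 4 + 3 : ℕ) : ℝ) = 2 * l - 1 := by
    rw [show 2 * l - 4 + 3 = 2 * l - 1 by omega, Nat.cast_sub (by omega)]; push_cast; ring
  have e1 : thx (R l).f = fun x => x ^ (2 * l - 4 + 3) * hp l (g l) x := by
    rw [funext (hF l hl), thx_pow_mul (hg l hl), c1]; rfl
  have e2 : (fun x => x ^ 4 * thx (R l).f x) = fun x => x ^ (2 * l - 4 + 7) * hp l (g l) x := by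
    funext x; rw [e1]; ring
  have c2 : ((2 * l - 4 + 7 : ℕ) : ℝ) = 2 * l + 3 := by
    rw [show 2 * l - 4 + 7 = 2 * l + 3 by omega]; push_cast; ring
  rw [lap_comp_tau ha (hs l hl) (harm_TT l i), congrFun e2 (tau a y), e2,
    thx_pow_mul (hp_smooth l (hg l hl)), c2, TT_eq, wp]
  ring

end Pool.Agent.Work.MP_6bf1e5_an.H
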