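import Pool.Agent.Lib.KTab.Fam
import Pool.Agent.Work.MP_6bf1e5_an.H.ResAxi
import Pool.Agent.Work.MP_6bf1e5_an.H.DynCalc

/-! Axisymmetric scalars as functions of two angles: definitions and the chain rule. -/

open scoped ContDiff ENNReal FourierTransform Real
open Set MeasureTheory Filter Topology
open Pool.Agent.Lib.KTab

namespace Pool.Agent.Work.MP_6bf1e5_an.H

noncomputable section

/-- Functions of the two angles. -/
abbrev Tf := ℝ → ℝ → ℂ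

/-- The first angle, with `cos α ^ 2 = tau`. -/
def an1 (a : ℝ) (y : R3) : ℝ := Real.arccos √(tau a y)

/-- The polar angle. -/
def an2 (y : R3) : ℝ := Real.arccos (y 2 / ‖y‖)

/-- Points off the axis. -/
def OfA (y : R3) : Prop := y 0 ^ 2 + y 1 ^ 2 ≠ 0

/-- Smooth functions of the angles. -/
def Smo (Φ : Tf) : Prop := ContDiff ℝ ∞ fun z : ℝ × ℝ => Φ z.1 z.2

/-- Off the axis, `f` is `|y| ^ p * tau ^ k` times `Φ` of the angles. -/
structure Rp (a : ℝ) (p : ℤ) (k : ℕ) (f : Sc) (Φ : Tf) : Prop where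
  sf : ContDiff ℝ ∞ f
  smo : Smo Φ
  eq : ∀ y, OfA y → (f y : ℂ) = (‖y‖ ^ p * tau a y ^ k : ℝ) * Φ (an1 a y) (an2 y)

/-- The table of `y·∇ f`. -/
def RR (p : ℤ) (k : ℕ) (Φ : Tf) : Tf := fun α θ =>
  (p - k / 2 * (1 - (Real.cos α : ℂ) ^ 8)) * Φ α θ
    - Real.cos α * (1 + (Real.cos α : ℂ) ^ 2) * (1 + (Real.cos α : ℂ) ^ 4) / 4 * E1 Φ α θ

/-- The table of `∂₃ f`. -/
def DZ (p : ℤ) (k : ℕ) (Φ : Tf) : Tf := fun α θ => Real.cos θ * RR p k Φ α θ + E2 Φ α θ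

/-- The table of `rd f`. -/
def DR (p : ℤ) (k : ℕ) (Φ : Tf) : Tf := fun α θ =>
  (1 - (Real.cos θ : ℂ) ^ 2) * RR p k Φ α θ - Real.cos θ * E2 Φ α θ

end

variable {a : ℝ} {y : R3} {Φ Ψ : Tf}

theorem tb_norm_sq (y : R3) : ‖y‖ ^ 2 = y 0 ^ 2 + y 1 ^ 2 + y 2 ^ 2 := by
  rw [EuclideanSpace.real_norm_sq_eq, Fin.sum_univ_three]

theorem OfA.pos (h : OfA y) : 0 < y 0 ^ 2 + y 1 ^ 2 :=
  lt_of_le_of_ne (by positivity) (Ne.symm h)

theorem OfA.norm_pos (h : OfA y) : 0 < ‖y‖ := by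
  have h1 := h.pos
  have h2 := tb_norm_sq y
  by_contra h3
  have : ‖y‖ = 0 := le_antisymm (not_lt.1 h3) (norm_nonneg y)
  rw [this] at h2
  nlinarith [sq_nonneg (y 2)]

theorem OfA.c_lt (h : OfA y) : (y 2 / ‖y‖) ^ 2 < 1 := by
  rw [div_pow, div_lt_one (pow_pos h.norm_pos 2), tb_norm_sq]
  linarith [h.pos]

theorem OfA.tau_lt (h : OfA y) (ha : 0 < a) : tau a y < 1 :=
  Real.rpow_lt_one_of_one_lt_of_neg (by have := h.norm_pos; nlinarith [mul_pos ha (pow_pos this 2)])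
    (by norm_num)

theorem OfA.nhds (h : OfA y) : ∀ᶠ z in 𝓝 y, OfA z :=
  (isOpen_ne_fun (f := fun z : R3 => z 0 ^ 2 + z 1 ^ 2) (by fun_prop) continuous_const).mem_nhds h

theorem cos_an1 (ha : 0 < a) (y : R3) : Real.cos (an1 a y) = √(tau a y) :=
  Real.cos_arccos (by linarith [Real.sqrt_nonneg (tau a y)]) (Real.sqrt_le_one.2 (tau_le_one ha y))

theorem cos_an1_sq (ha : 0 < a) (y : R3) : Real.cos (an1 a y) ^ 2 = tau a y := by
  rw [cos_an1 ha, Real.sq_sqrt (tau_pos ha y).le]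

theorem cos_an2 (h : OfA y) : Real.cos (an2 y) = y 2 / ‖y‖ :=
  have := abs_lt.1 ((sq_lt_one_iff_abs_lt_one _).1 h.c_lt)
  Real.cos_arccos this.1.le this.2.le

theorem sin_an2_sq (h : OfA y) : ‖y‖ ^ 2 * Real.sin (an2 y) ^ 2 = y 0 ^ 2 + y 1 ^ 2 := by
  have := h.norm_pos
  rw [Real.sin_sq, cos_an2 h, div_pow, mul_sub, mul_div_cancel₀ _ (by positivity), mul_one,
    tb_norm_sq]
  ring

theorem Smo.d1 (h : Smo Φ) (α θ : ℝ) : HasDerivAt (fun α => Φ α θ)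
    (fderiv ℝ (fun z : ℝ × ℝ => Φ z.1 z.2) (α, θ) (1, 0)) α :=
  (h.differentiable (by simp) (α, θ)).hasFDerivAt.comp_hasDerivAt α
    (f := fun α => (α, θ)) ((hasDerivAt_id α).prodMk (hasDerivAt_const α θ))

theorem Smo.d2 (h : Smo Φ) (α θ : ℝ) : HasDerivAt (fun θ => Φ α θ)
    (fderiv ℝ (fun z : ℝ × ℝ => Φ z.1 z.2) (α, θ) (0, 1)) θ :=
  (h.differentiable (by simp) (α, θ)).hasFDerivAt.comp_hasDerivAt θ
    ((hasDerivAt_const θ α).prodMk (hasDerivAt_id θ))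

theorem Smo.chain (h : Smo Φ) {u v : ℝ → ℝ} {u' v' t : ℝ} (hu : HasDerivAt u u' t)
    (hv : HasDerivAt v v' t) : HasDerivAt (fun t => Φ (u t) (v t))
      (u' * deriv (fun α => Φ α (v t)) (u t) + v' * deriv (fun θ => Φ (u t) θ) (v t)) t := by
  refine ((h.differentiable (by simp) (u t, v t)).hasFDerivAt.comp_hasDerivAt t
    (hu.prodMk hv)).congr_deriv ?_
  rw [(h.d1 _ _).deriv, (h.d2 _ _).deriv, ← Complex.real_smul, ← Complex.real_smul, ← map_smul,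
    ← map_smul, ← map_add]
  simp

theorem smo_const (c : ℂ) : Smo fun _ _ => c := contDiff_const
theorem Smo.add (h : Smo Φ) (h' : Smo Ψ) : Smo fun α θ => Φ α θ + Ψ α θ := ContDiff.add h h'
theorem Smo.sub (h : Smo Φ) (h' : Smo Ψ) : Smo fun α θ => Φ α θ - Ψ α θ := ContDiff.sub h h'
theorem Smo.mul (h : Smo Φ) (h' : Smo Ψ) : Smo fun α θ => Φ α θ * Ψ α θ := ContDiff.mul h h'
theorem Smo.pow (h : Smo Φ) (n : ℕ) : Smo fun α θ => Φ α θ ^ n := ContDiff.pow h n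
theorem Smo.div (h : Smo Φ) (c : ℂ) : Smo fun α θ => Φ α θ / c := ContDiff.div_const h c

theorem smo_real {F : ℝ × ℝ → ℝ} (h : ContDiff ℝ ∞ F) : Smo fun α θ => (F (α, θ) : ℂ) :=
  Complex.ofRealCLM.contDiff.comp h

theorem smo_cx : Smo fun α _ => (Real.cos α : ℂ) := smo_real (Real.contDiff_cos.comp contDiff_fst)
theorem smo_cy : Smo fun _ θ => (Real.cos θ : ℂ) := smo_real (Real.contDiff_cos.comp contDiff_snd)

theorem smo_ang {F : ℝ → ℝ → ℝ} (h : ContDiff ℝ ∞ fun z : ℝ × ℝ => F z.1 z.2) : Smo (ang F) :=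
  smo_real (h.comp ((Real.contDiff_cos.comp contDiff_fst).prodMk
    (Real.contDiff_cos.comp contDiff_snd)))

theorem Smo.e1 (h : Smo Φ) : Smo (E1 Φ) := by
  have e : E1 Φ = fun α θ => (0 - (Real.sin α : ℂ)) *
      fderiv ℝ (fun z : ℝ × ℝ => Φ z.1 z.2) (α, θ) (1, 0) := by
    funext α θ; rw [E1, (h.d1 α θ).deriv, zero_sub]
  rw [e]
  exact ((smo_const 0).sub (smo_real (Real.contDiff_sin.comp contDiff_fst))).mul
    ((ContDiff.fderiv_right h (m := ∞) (by simp)).clm_apply contDiff_const)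

theorem Smo.e2 (h : Smo Φ) : Smo (E2 Φ) := by
  have e : E2 Φ = fun α θ => (0 - (Real.sin θ : ℂ)) *
      fderiv ℝ (fun z : ℝ × ℝ => Φ z.1 z.2) (α, θ) (0, 1) := by
    funext α θ; rw [E2, (h.d2 α θ).deriv, zero_sub]
  rw [e]
  exact ((smo_const 0).sub (smo_real (Real.contDiff_sin.comp contDiff_snd))).mul
    ((ContDiff.fderiv_right h (m := ∞) (by simp)).clm_apply contDiff_const)

theorem Smo.rr (h : Smo Φ) (p : ℤ) (k : ℕ) : Smo (RR p k Φ) :=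
  (((smo_const _).sub ((smo_const _).mul ((smo_const 1).sub (smo_cx.pow 8)))).mul h).sub
    ((((smo_cx.mul ((smo_const 1).add (smo_cx.pow 2))).mul
      ((smo_const 1).add (smo_cx.pow 4))).div 4).mul h.e1)

theorem Smo.dz (h : Smo Φ) (p : ℤ) (k : ℕ) : Smo (DZ p k Φ) := (smo_cy.mul (h.rr p k)).add h.e2

theorem Smo.dr (h : Smo Φ) (p : ℤ) (k : ℕ) : Smo (DR p k Φ) :=
  (((smo_const 1).sub (smo_cy.pow 2)).mul (h.rr p k)).sub (smo_cy.mul h.e2)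

end Pool.Agent.Work.MP_6bf1e5_an.H
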