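import Pool.Agent.Work.MP_6bf1e5_an.H.TbSm
import Pool.Agent.Work.MP_6bf1e5_an.H.TbBase
import Pool.Agent.Work.MP_6bf1e5_an.H.SkRes

/-! The error of the approximate local part, from bounds for two tables. -/

open scoped ContDiff ENNReal FourierTransform Real
open Set MeasureTheory Filter Topology
open Pool.Agent.Lib.KTab

namespace Pool.Agent.Work.MP_6bf1e5_an.H

/-- The table of the toroidal error. -/
noncomputable def FTt (A B W N : Tf) : Tf := fun α θ =>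
  W α θ + 2 / 3 * (RR 1 7 W α θ + W α θ)
    + (Real.cos α : ℂ) ^ 6 * (DZ 1 3 A α θ * DR 1 7 W α θ - D2 3 A α θ * DZ 1 7 W α θ
      + 2 * B α θ * DZ 1 5 B α θ) - (Real.cos α : ℂ) ^ 2 * N α θ

/-- The table of the potential of the meridional error. -/
noncomputable def FPt (A B N : Tf) : Tf := fun α θ =>
  B α θ + 2 / 3 * RR 1 5 B α θ
    - (Real.cos α : ℂ) ^ 6 * (D2 3 A α θ * DZ 1 5 B α θ - DZ 1 3 A α θ * D2 5 B α θ)
    - (Real.cos α : ℂ) ^ 2 * N α θ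

variable {a : ℝ} {ψ b w nt np dT dP : Sc} {A B W NT NP FT FP : Tf}

theorem rp_FT (ha : 0 < a) (hA : Rp a 1 3 ψ A) (hB : Rp a 1 5 b B) (hW : Rp a 1 7 w W)
    (hN : Rp a 1 8 nt NT) : Rp a 1 7 (fun y => w y + 2 / 3 * (yd w y + w y)
      + (pd 2 ψ y * rd w y - (2 * ψ y + rd ψ y) * pd 2 w y) + 2 * b y * pd 2 b y - nt y)
      (FTt A B W NT) := by
  have h1 : Rp a 1 (7 + 3) _ _ := (hA.dz ha).mul (hW.rd ha)
  have h2 : Rp a 1 (7 + 3) _ _ := (hA.d2 ha).mul (hW.dz ha)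
  have h3 : Rp a 1 (7 + 3) _ _ := (hB.cmul 2).mul (hB.dz ha)
  have h4 := ((hW.add (((hW.yd ha).add hW).cmul (2 / 3))).add (((h1.sub h2).add h3).shift ha)).sub
    (Rp.shift (k := 7) (n := 1) hN ha)
  have e : ∀ {f g : Sc} {Φ Ψ : Tf}, Rp a 1 7 f Φ → (∀ y, g y = f y) → (∀ α θ, Ψ α θ = Φ α θ) →
      Rp a 1 7 g Ψ := fun h h1 h2 => by
    rwa [funext h1, funext fun α => funext (h2 α)]
  exact e h4 (fun y => by ring) fun α θ => by rw [FTt]; push_cast; ring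

theorem rp_FP (ha : 0 < a) (hA : Rp a 1 3 ψ A) (hB : Rp a 1 5 b B) (hN : Rp a 1 6 np NP) :
    Rp a 1 5 (fun y => b y + 2 / 3 * yd b y
      - ((2 * ψ y + rd ψ y) * pd 2 b y - pd 2 ψ y * (2 * b y + rd b y)) - np y) (FPt A B NP) := by
  have h1 : Rp a 1 (5 + 3) _ _ := (hA.d2 ha).mul (hB.dz ha)
  have h2 : Rp a 1 (5 + 3) _ _ := (hA.dz ha).mul (hB.d2 ha)
  have h4 := ((hB.add ((hB.yd ha).cmul (2 / 3))).sub ((h1.sub h2).shift ha)).sub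
    (Rp.shift (k := 5) (n := 1) hN ha)
  have e : ∀ {f : Sc} {Φ Ψ : Tf}, Rp a 1 5 f Φ → (∀ α θ, Ψ α θ = Φ α θ) → Rp a 1 5 f Ψ :=
    fun h h2 => by rwa [funext fun α => funext (h2 α)]
  exact e h4 fun α θ => by rw [FPt]; push_cast; ring

theorem int_le_of_pt' {g : Sc} {C : ℝ} (hg : ∀ y, 0 ≤ g y) (hC : 0 ≤ C)
    (h : ∀ y : R3, OfA y → g y ≤ C * (Om y / ‖y‖ ^ 2)) : ∫ y, g y ≤ 40 * C := by
  refine (integral_mono_of_nonneg (Filter.Eventually.of_forall hg)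
    (int_Om_div.1.const_mul C) (ae_off_axis.mono h)).trans ?_
  rw [integral_const_mul, int_Om_div.2]
  have : π ^ 2 ≤ 3.15 ^ 2 := by
    gcongr
    linarith [Real.pi_lt_d2]
  nlinarith

theorem tb_sq_le {x y : ℝ} (h : |x| ≤ y) : x ^ 2 ≤ y ^ 2 := by
  rw [← sq_abs]
  exact pow_le_pow_left₀ (abs_nonneg x) h 2

/-- First order part: `r² (∂₃ f)² + (2 f + rd f)²`. -/
theorem rp_first {k n m : ℕ} {η : ℝ} {f : Sc} {Φ : Tf} (h : Rp a 1 k f Φ) (ha : 0 < a)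
    (hs : Sm n m η Φ) (hk : |((1 : ℤ) : ℝ) - k / 2| + k / 2 ≤ 6) {y : R3} (hy : OfA y) :
    (y 0 ^ 2 + y 1 ^ 2) * pd 2 f y ^ 2 + (2 * f y + rd f y) ^ 2 ≤
      ‖y‖ ^ 2 * (tau a y ^ k) ^ 2 * (5 * ((n + m + 7) * η) ^ 2) := by
  have h0 := hs.nonneg
  have h1 := tb_sq_le ((h.dz ha).abs_le ha hy ((sm_dz hs hk).norm_le _ _))
  have h2 := tb_sq_le ((h.d2 ha).abs_le ha hy ((sm_d2 hs hk).norm_le _ _))
  rw [zpow_zero, one_mul] at h1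
  rw [zpow_one] at h2
  have h3 : y 0 ^ 2 + y 1 ^ 2 ≤ ‖y‖ ^ 2 := by rw [tb_norm_sq]; nlinarith [sq_nonneg (y 2)]
  have h4 := mul_le_mul h3 h1 (sq_nonneg _) (sq_nonneg _)
  have h5 : ((n + m + 6) * η) ^ 2 + ((2 * n + m + 14) * η) ^ 2 ≤ 5 * ((n + m + 7) * η) ^ 2 := by
    have k1 : ((n + m + 6) * η) ^ 2 ≤ ((n + m + 7) * η) ^ 2 := by gcongr; norm_num
    have k2 : ((2 * n + m + 14) * η) ^ 2 ≤ (2 * ((n + m + 7) * η)) ^ 2 := by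
      refine pow_le_pow_left₀ (by positivity) ?_ 2
      nlinarith [mul_nonneg (Nat.cast_nonneg (α := ℝ) m) h0]
    nlinarith
  have h6 := mul_le_mul_of_nonneg_left h5 (show 0 ≤ ‖y‖ ^ 2 * (tau a y ^ k) ^ 2 by positivity)
  nlinarith

/-- Second order part. -/
theorem rp_second {n m : ℕ} {η : ℝ} {f : Sc} {Φ : Tf} (h : Rp a 1 5 f Φ) (ha : 0 < a)
    (hs : Sm n m η Φ) {y : R3} (hy : OfA y) :
    ((y 0 ^ 2 + y 1 ^ 2) * pd 2 (pd 2 f) y + rd (rd f) y + 2 * rd f y) ^ 2 / (y 0 ^ 2 + y 1 ^ 2) ≤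
      (tau a y ^ 5) ^ 2 * (3 * (n + m + 16) ^ 2 * η) ^ 2 := by
  have h0 := hs.nonneg
  have hρ := hy.norm_pos
  have ht := tau_pos ha y
  have k1 : |((1 : ℤ) : ℝ) - (5 : ℕ) / 2| + (5 : ℕ) / 2 ≤ 6 := by norm_num [abs_le]
  have k0 : |((-1 + 1 : ℤ) : ℝ) - (5 : ℕ) / 2| + (5 : ℕ) / 2 ≤ 6 := by norm_num [abs_le]
  have h1 := (Rp.pd_two (p := -1) (h.dz ha) ha).abs_le ha hy
    ((sm_dz (sm_dz hs k1) k0).norm_le _ _)
  have h2 := ((h.d2 ha).rd ha).abs_le ha hy (sm_dr_le (sm_d2 hs k1) k1 _ _)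
  have e : rd (fun y => 2 * f y + rd f y) y = rd (rd f) y + 2 * rd f y := by
    have c1 := contDiff_const (c := (2 : ℝ)).mul h.sf
    have c2 := tb_rd_smooth h.sf
    rw [rd, Dyn.pd_add c1 c2, Dyn.pd_add c1 c2, Dyn.pd_cmul h.sf, Dyn.pd_cmul h.sf]
    simp only [rd]
    ring
  rw [e, zpow_one] at h2
  rw [zpow_neg_one] at h1
  push_cast at h1 h2
  have s := sin_an2_sq hy
  have s1 := Real.abs_sin_le_one (an2 y)
  have s0 := abs_nonneg (Real.sin (an2 y))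
  rw [← sq_abs (Real.sin _)] at s
  generalize |Real.sin (an2 y)| = σ at h2 s s0 s1
  rw [div_le_iff₀ hy.pos, ← s, add_assoc]
  have h3 : |‖y‖ ^ 2 * σ ^ 2 * pd 2 (pd 2 f) y| ≤
      ‖y‖ * tau a y ^ 5 * (σ * ((n + 8 + (m + 1) + 6) * ((n + m + 6) * η))) := by
    rw [abs_mul, abs_of_nonneg (by positivity)]
    calc _ ≤ ‖y‖ ^ 2 * σ * (‖y‖⁻¹ * tau a y ^ 5 * ((n + 8 + (m + 1) + 6) * ((n + m + 6) * η))) := by
          gcongr; nlinarith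
      _ = _ := by field_simp
  have h4 : (n + 8 + (m + 1) + 6) * ((n + m + 6) * η)
      + (n + 8 + (m + 2) + 6) * ((2 * n + m + 14) * η) ≤ 3 * (n + m + 16) ^ 2 * η := by
    have a1 := Nat.cast_nonneg (α := ℝ) n
    have a2 := Nat.cast_nonneg (α := ℝ) m
    have : (n + 8 + (m + 1) + 6) * (n + m + 6) + (n + 8 + (m + 2) + 6) * (2 * n + m + 14)
        ≤ 3 * (n + m + 16 : ℝ) ^ 2 := by nlinarith
    nlinarith
  have h5 := (abs_add_le _ _).trans (add_le_add h3 h2)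
  rw [← mul_add, ← mul_add] at h5
  have h6 := tb_sq_le (h5.trans (mul_le_mul_of_nonneg_left
    (mul_le_mul_of_nonneg_left h4 s0) (by positivity)))
  exact h6.trans_eq (by ring)

theorem nw_fld_le (ha : 1 ≤ a) (hP : Rp a 1 5 dP FP) (hT : Rp a 1 7 dT FT) (hx : Axi dP)
    {n m n' m' : ℕ} {η η' : ℝ} (sP : Sm n m η FP) (sT : Sm n' m' η' FT) :
    nw Om (fld (sm dP Jv) (sm dT Jv)) ≤ 40 * (η' ^ 2 / a ^ 3 + 5 * ((n + m + 7) * η) ^ 2 / a ^ 2) ∧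
    nw 1 (curl (fld (sm dP Jv) (sm dT Jv))) ≤ 40 * ((3 * (n + m + 16) ^ 2 * η) ^ 2 / (2 * a)
      + 5 * ((n' + m' + 7) * η') ^ 2 / (2 * a ^ 2)) := by
  have ha0 : 0 < a := by linarith
  have dn : ∀ (V : Vc) y, 0 ≤ dot V V y := fun V y =>
    Finset.sum_nonneg fun i _ => mul_self_nonneg _
  have key : ∀ y : R3, OfA y → ‖y‖ ^ 2 * tau a y ^ 4 ≤ 1 / a ∧ tau a y ^ 4 ≤ 1 / a / ‖y‖ ^ 2 ∧
      tau a y ^ 4 ≤ Om y / 2 := fun y hy => by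
    have h0 := hy.norm_pos
    have h1 := tau_four ha0 y
    have h2 := pow_pos (tau_pos ha0 y) 4
    have h3 : ‖y‖ ^ 2 * tau a y ^ 4 ≤ 1 / a := by rw [le_div_iff₀ ha0]; nlinarith
    refine ⟨h3, by rwa [le_div_iff₀ (by positivity), mul_comm], ?_⟩
    rw [Om, div_div_cancel_left' two_ne_zero, ← one_div, le_div_iff₀ (by positivity)]
    nlinarith [mul_nonneg h2.le (mul_nonneg (sub_nonneg.2 ha) (sq_nonneg ‖y‖))]
  constructor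
  · refine int_le_of_pt' (fun y => mul_nonneg (Dyn.Om_pos y).le (dn _ y)) (by positivity)
      fun y hy => ?_
    obtain ⟨k1, k2, -⟩ := key y hy
    have t0 := tau_pos ha0 y
    have t1 := tau_le_one ha0 y
    have h1 := rp_first hP ha0 sP (by norm_num [abs_le]) hy
    have h2 := tb_sq_le (hT.abs_le ha0 hy (sT.norm_le _ _))
    rw [zpow_one] at h2
    have h3 : y 0 ^ 2 + y 1 ^ 2 ≤ ‖y‖ ^ 2 := by rw [tb_norm_sq]; nlinarith [sq_nonneg (y 2)]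
    have h4 := mul_le_mul h3 h2 (sq_nonneg _) (sq_nonneg _)
    have t2 : tau a y ^ 2 ≤ 1 := pow_le_one₀ t0.le t1
    have h5 : ‖y‖ ^ 2 * (‖y‖ * tau a y ^ 7 * η') ^ 2 ≤ η' ^ 2 / a ^ 3 / ‖y‖ ^ 2 :=
      calc _ = (‖y‖ ^ 2 * tau a y ^ 4) ^ 2 * tau a y ^ 4 * tau a y ^ 2 * η' ^ 2 := by ring
        _ ≤ (1 / a) ^ 2 * (1 / a / ‖y‖ ^ 2) * 1 * η' ^ 2 := by gcongr
        _ = _ := by field_simp
    have h6 : ‖y‖ ^ 2 * (tau a y ^ 5) ^ 2 * (5 * ((n + m + 7) * η) ^ 2) ≤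
        5 * ((n + m + 7) * η) ^ 2 / a ^ 2 / ‖y‖ ^ 2 :=
      calc _ = (‖y‖ ^ 2 * tau a y ^ 4) * tau a y ^ 4 * tau a y ^ 2 * (5 * ((n + m + 7) * η) ^ 2) := by
            ring
        _ ≤ (1 / a) * (1 / a / ‖y‖ ^ 2) * 1 * (5 * ((n + m + 7) * η) ^ 2) := by gcongr
        _ = _ := by field_simp
    rw [dot_fld_Jv hP.sf, ← mul_div_assoc, mul_comm _ (Om y), mul_div_assoc, add_div]
    exact mul_le_mul_of_nonneg_left (by linarith) (Dyn.Om_pos y).le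
  · refine int_le_of_pt' (fun y => mul_nonneg zero_le_one (dn _ y)) (by positivity) fun y hy => ?_
    obtain ⟨k1, k2, k3⟩ := key y hy
    have t0 := tau_pos ha0 y
    have t1 := tau_le_one ha0 y
    have o0 := Dyn.Om_pos y
    have h1 := rp_first hT ha0 sT (by norm_num [abs_le]) hy
    have h2 := rp_second hP ha0 sP hy
    have t2 : tau a y ^ 2 ≤ 1 := pow_le_one₀ t0.le t1
    have h5 : (tau a y ^ 5) ^ 2 ≤ 1 / (2 * a) * (Om y / ‖y‖ ^ 2) :=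
      calc _ = tau a y ^ 4 * tau a y ^ 4 * tau a y ^ 2 := by ring
        _ ≤ Om y / 2 * (1 / a / ‖y‖ ^ 2) * 1 := by gcongr
        _ = _ := by field_simp
    have h6 : ‖y‖ ^ 2 * (tau a y ^ 7) ^ 2 ≤ 1 / a * (1 / (2 * a) * (Om y / ‖y‖ ^ 2)) :=
      calc _ = (‖y‖ ^ 2 * tau a y ^ 4) * (tau a y ^ 5) ^ 2 := by ring
        _ ≤ _ := by gcongr
    have h7 := mul_le_mul_of_nonneg_right h5 (sq_nonneg (3 * (n + m + 16 : ℝ) ^ 2 * η))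
    have h8 := mul_le_mul_of_nonneg_right h6
      (show 0 ≤ 5 * ((n' + m' + 7 : ℝ) * η') ^ 2 by positivity)
    rw [Pi.one_apply, one_mul, dot_curl_fld_Jv hx hT.sf hy]
    refine le_trans (by linarith) ((add_le_add h7 h8).trans_eq ?_)
    field_simp

variable {L : Finset ℕ} {f s bb c : ℕ → Rad} {gf gs gb gc : ℕ → ℝ → ℝ}

/-- The hypotheses `p1`, `p2` of `res_main` from bounds for two tables. -/
theorem resD_le (ha : 1 ≤ a) (h : ResOK L f s bb c)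
    (hf : ∀ l ∈ L, ∀ x, (f l).f x = x ^ (2 * l - 4 + 3) * gf l x)
    (hs : ∀ l ∈ L, ∀ x, (s l).f x = x ^ (2 * l - 4 + 5) * gs l x)
    (hb : ∀ l ∈ L, ∀ x, (bb l).f x = x ^ (2 * l - 4 + 8) * gb l x)
    (hc : ∀ l ∈ L, ∀ x, (c l).f x = x ^ (2 * l - 4 + 6) * gc l x)
    (sf : ∀ l ∈ L, ContDiff ℝ ∞ (gf l)) (ss : ∀ l ∈ L, ContDiff ℝ ∞ (gs l))
    (sb : ∀ l ∈ L, ContDiff ℝ ∞ (gb l)) (sc : ∀ l ∈ L, ContDiff ℝ ∞ (gc l))
    {n m n' m' : ℕ} {η η' : ℝ} (sP : Sm n m η (FPt (TA a L gf) (TA a L gs) (TA a L gc)))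
    (sT : Sm n' m' η'
      (FTt (TA a L gf) (TA a L gs) (TA a L fun l => wp a l (gf l)) (TA a L gb))) :
    nw Om (resD a L f s bb c) ≤ 40 * (η' ^ 2 / a ^ 3 + 5 * ((n + m + 7) * η) ^ 2 / a ^ 2) ∧
    nw 1 (curl (resD a L f s bb c)) ≤ 40 * ((3 * (n + m + 16) ^ 2 * η) ^ 2 / (2 * a)
      + 5 * ((n' + m' + 7) * η') ^ 2 / (2 * a ^ 2)) := by
  have ha0 : 0 < a := by linarith
  have hL : ∀ l ∈ L, Even l ∧ 1 ≤ l := fun l hl => ⟨(h l hl).1, (h l hl).2.1⟩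
  have sw := fun l hl => wp_smooth a l (sf l hl)
  have rA := rp_TS ha0 hL hf sf
  have rB := rp_TS ha0 hL hs ss
  have rT := rp_TS ha0 hL hb sb
  have rP := rp_TS ha0 hL hc sc
  have rW := rp_TS (k := 7) ha0 hL (F := fun l x => x ^ (2 * l - 4 + 7) * wp a l (gf l) x)
    (fun _ _ _ => rfl) sw
  have xA := axi_TS ha0 L f
  have xB := axi_TS ha0 L s
  have xP := axi_TS ha0 L c
  have xW := axi_TS_of (L := L) (F := fun l x => x ^ (2 * l - 4 + 7) * wp a l (gf l) x) ha0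
    fun l hl => (contDiff_id.pow _).mul (sw l hl)
  have hw := curl_curl_TS ha0 hL hf sf
  rw [TR, TF_eq_sm] at hw
  have xd := (xB.add (xB.yd.cmul (2 / 3))).sub ((((xA.cmul 2).add xA.rd).mul xB.pd_two).sub
    (xA.pd_two.mul ((xB.cmul 2).add xB.rd)))
  have := nw_fld_le ha (rp_FP ha0 rA rB rP) (rp_FT ha0 rA rB rW rT) (xd.sub xP) sP sT
  rw [resD, TR, TR, TR, TR, TF_eq_sm, TF_eq_sm, TF_eq_sm, TF_eq_sm, loc_axi xA xB xW hw,
    fld_sub_Jv xd.smooth xP.smooth]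
  exact this

end Pool.Agent.Work.MP_6bf1e5_an.H
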