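import Pool.Agent.Work.MP_6bf1e5_an.H.TbRule
import Pool.Agent.Work.MP_6bf1e5_an.H.ResSph

/-! Bounds for the tables of derivatives from the sum of the absolute values of the coefficients. -/

open scoped ContDiff ENNReal FourierTransform Real
open Set MeasureTheory Filter Topology
open Pool.Agent.Lib.KTab

namespace Pool.Agent.Work.MP_6bf1e5_an.H

/-- The table of `2 f + rd f`. -/
noncomputable def D2 (k : ℕ) (Φ : Tf) : Tf := fun α θ => 2 * Φ α θ + DR 1 k Φ α θ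

variable {n m k : ℕ} {p : ℤ} {η : ℝ} {Φ : Tf}

theorem sm_cx : Sm 1 0 1 fun α _ => (Real.cos α : ℂ) := by
  refine Sm.of_form (Finset.univ : Finset Bool) (fun _ => 1 / 2) (fun k => if k then 1 else 0)
    (fun _ => 0) (by simp) (by norm_num) fun α θ => ?_
  have := two_cos_ex α
  norm_num at this ⊢
  linear_combination (1 / 2 : ℂ) * this

theorem sm_cy : Sm 0 1 1 fun _ θ => (Real.cos θ : ℂ) := sm_cx.swap

theorem sm_cx_pow (h : Sm n m η Φ) (j : ℕ) :
    Sm (n + j) m η fun α θ => (Real.cos α : ℂ) ^ j * Φ α θ := by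
  induction j with
  | zero => simpa using h
  | succ j ih =>
    have := ih.mul sm_cx
    rw [mul_one] at this
    exact this.congr fun α θ => by ring

theorem sm_cy_mul (h : Sm n m η Φ) : Sm n (m + 1) η fun α θ => (Real.cos θ : ℂ) * Φ α θ := by
  have := h.mul sm_cy
  rw [mul_one] at this
  exact this.congr fun α θ => by ring

theorem sm_rr (h : Sm n m η Φ) (hp : |(p : ℝ) - k / 2| + k / 2 ≤ 6) :
    Sm (n + 8) m ((n + 6) * η) (RR p k Φ) := by
  have h0 := h.nonneg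
  have h1 := (h.smul (p - k / 2)).box (n' := n + 8) (m' := m) (by omega) (by omega) le_rfl (by omega)
  have h2 := (sm_cx_pow h 8).smul (k / 2)
  have h3 := fun j (hj : j ≤ 7) (hj' : j % 2 = 1) => (sm_cx_pow h.e1 j).box (n' := n + 8) (m' := m)
    (by omega) (by omega) le_rfl (by omega)
  have h4 := ((((h3 1 (by omega) rfl).add (h3 3 (by omega) rfl)).add (h3 5 (by omega) rfl)).add
    (h3 7 le_rfl rfl)).smul (-1 / 4)
  refine (((h1.add h2).add h4).congr fun α θ => ?_).le ?_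
  · rw [RR]; push_cast; ring
  · rw [abs_of_nonneg (show (0 : ℝ) ≤ k / 2 by positivity), show |(-1 / 4 : ℝ)| = 1 / 4 by norm_num]
    nlinarith

theorem sm_dz (h : Sm n m η Φ) (hp : |(p : ℝ) - k / 2| + k / 2 ≤ 6) :
    Sm (n + 8) (m + 1) ((n + m + 6) * η) (DZ p k Φ) :=
  ((sm_cy_mul (sm_rr h hp)).add (h.e2.box (by omega) (by omega) le_rfl (by omega))).le
    (le_of_eq (by ring))

theorem sm_d2 (h : Sm n m η Φ) (hp : |((1 : ℤ) : ℝ) - k / 2| + k / 2 ≤ 6) :
    Sm (n + 8) (m + 2) ((2 * n + m + 14) * η) (D2 k Φ) := by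
  have h1 := sm_rr h hp
  have h2 := (h.smul 2).box (n' := n + 8) (m' := m + 2) (by omega) (by omega) (by omega) (by omega)
  have h3 := h1.box (n' := n + 8) (m' := m + 2) le_rfl (by omega) (by omega) (by omega)
  have h4 := (sm_cy_mul (sm_cy_mul h1)).neg
  have h5 := (sm_cy_mul h.e2).neg.box (n' := n + 8) (m' := m + 2) (by omega) (by omega) le_rfl
    (by omega)
  refine ((((h2.add h3).add h4).add h5).congr fun α θ => ?_).le (le_of_eq ?_)
  · rw [D2, DR]; push_cast; ring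
  · rw [abs_two]; ring

theorem sm_e2_le (h : Sm n m η Φ) (α θ : ℝ) : ‖E2 Φ α θ‖ ≤ |Real.sin θ| * (m * η) := by
  obtain ⟨Ψ, h1, h2⟩ := h.d2
  rw [E2, (h2 α θ).deriv, norm_mul, norm_neg, Complex.norm_real, norm_mul, Complex.norm_I, one_mul]
  exact mul_le_mul_of_nonneg_left (h1.norm_le α θ) (abs_nonneg _)

theorem sm_dr_le (h : Sm n m η Φ) (hp : |(p : ℝ) - k / 2| + k / 2 ≤ 6) (α θ : ℝ) :
    ‖DR p k Φ α θ‖ ≤ |Real.sin θ| * ((n + m + 6) * η) := by
  have h0 := h.nonneg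
  have h1 := (sm_rr h hp).norm_le α θ
  have h2 := sm_e2_le h α θ
  have e : (1 - (Real.cos θ : ℂ) ^ 2) = ((Real.sin θ ^ 2 : ℝ) : ℂ) := by
    rw [Real.sin_sq]; push_cast; ring
  have s1 := Real.abs_sin_le_one θ
  have s0 := abs_nonneg (Real.sin θ)
  rw [DR, e]
  refine (norm_sub_le _ _).trans ?_
  rw [norm_mul, norm_mul, Complex.norm_real, Complex.norm_real, Real.norm_eq_abs, Real.norm_eq_abs,
    abs_pow]
  have k1 : |Real.sin θ| ^ 2 * ‖RR p k Φ α θ‖ ≤ |Real.sin θ| * ((n + 6) * η) :=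
    mul_le_mul (by nlinarith) h1 (norm_nonneg _) s0
  have k2 : |Real.cos θ| * ‖E2 Φ α θ‖ ≤ 1 * (|Real.sin θ| * (m * η)) :=
    mul_le_mul (Real.abs_cos_le_one θ) h2 (norm_nonneg _) zero_le_one
  linarith

theorem Rp.d2 {a : ℝ} {f : Sc} (h : Rp a 1 k f Φ) (ha : 0 < a) :
    Rp a 1 k (fun y => 2 * f y + H.rd f y) (D2 k Φ) := by
  have := (h.cmul 2).add (h.rd ha)
  simp only [Complex.ofReal_ofNat] at this
  exact this

theorem Rp.dz {a : ℝ} {f : Sc} (h : Rp a 1 k f Φ) (ha : 0 < a) :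
    Rp a 0 k (pd 2 f) (DZ 1 k Φ) := Rp.pd_two (p := 0) h ha

theorem int_Om_div : Integrable (fun y : R3 => Om y / ‖y‖ ^ 2) ∧
    ∫ y : R3, Om y / ‖y‖ ^ 2 = 4 * π ^ 2 := by
  obtain ⟨h1, h2⟩ := int_beta (a := 1) (q := 0) (b := 1) one_pos (by norm_num) (by norm_num)
  have e : ∀ r ∈ Ioi (0 : ℝ), r ^ (0 + 2) * (2 / (1 + r ^ 2) / r ^ 2) =
      2 * (r ^ (0 : ℝ) * (1 + 1 * r ^ 2) ^ (-1 : ℝ)) := fun r hr => by
    have : r ≠ 0 := hr.out.ne'
    rw [Real.rpow_neg (by positivity), Real.rpow_one, Real.rpow_zero]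
    field_simp
  have h3 := integrable_polar (hom_const 1) (g := fun r => 2 / (1 + r ^ 2) / r ^ 2)
    ((integrableOn_congr_fun e measurableSet_Ioi).2 (h1.const_mul 2))
  have h4 := polar (Q := fun _ => 1) (d := 0) (hom_const 1).hom fun r => 2 / (1 + r ^ 2) / r ^ 2
  rw [setIntegral_congr_fun measurableSet_Ioi e, integral_const_mul, integral_const_mul, h2, sph_one,
    show ((0 : ℝ) + 1) / 2 = 1 / 2 by norm_num, show (1 : ℝ) - 1 / 2 = 1 / 2 by norm_num,
    Real.Gamma_one_half_eq, Real.one_rpow, Real.Gamma_one] at h4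
  simp only [one_mul] at h3 h4
  refine ⟨h3, h4.trans ?_⟩
  have := Real.mul_self_sqrt Real.pi_pos.le
  linear_combination 4 * π * this

end Pool.Agent.Work.MP_6bf1e5_an.H
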