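import Pool.Agent.Work.MP_6bf1e5_an.H.RadD
import Pool.Agent.Work.MP_6bf1e5_an.H.JetFam
import Pool.Agent.Work.MP_6bf1e5_an.H.Asm

/-! The Gram matrices of the functionals and of their curls (owner helper60). -/

open scoped Real
open Finset MeasureTheory Polynomial Pool.Agent.Lib.KBlk

namespace Pool.Agent.Work.MP_6bf1e5_an.H.Tg

open Jf Ca

noncomputable section

/-- The factor of the potential. -/
def rr (c l : ℕ) : ℝ := (if c = 0 then 3 / 2 else 3) / 2 ^ (l + 3 / 4 : ℝ)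

/-- The two products. -/
def gT (U V : Vc) : ℝ := ip (sm (Op (-1)) U) V

def gC (U V : Vc) : ℝ := ip (sm (Op (-1 / 2)) (curl U)) (curl V)

/-- The second factors. -/
def wT (c d N : ℕ) (q : ℕ → ℝ) : ℕ → ℝ := if c = 0 then ww (3 / 4) (7 / 4) d N q else q

def wC (c d N : ℕ) (q : ℕ → ℝ) : ℕ → ℝ := ww (3 / 4) (if c = 0 then 7 / 4 else 1 / 4) d N q

end

variable {k k' c c' d l N : ℕ} {P Q : ℝ[X]} {p q : ℕ → ℝ} {a w r : ℝ} {U V : Vc}

theorem pot_fT : pot k P = fT (2 * k + 1 + 1) (3 / 4) (C (rr 1 (2 * k + 2)) * P) := by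
  refine tor_congr fun z hz => ?_
  rw [omF_eq_tF (by linarith), mul_comp, C_comp, ← mul_assoc, ← C_mul, rr, if_neg one_ne_zero,
    mul_div_cancel₀ _ (by positivity), map_ofNat]
  congr 1
  push_cast
  ring

theorem th_one (h : c ≠ 0) :
    thF c k P = fT (2 * k + 1 + 1) (3 / 4) (C (rr c (2 * k + 2)) * P) := by
  rw [thF, if_neg h, pot_fT, rr, rr, if_neg h, if_neg one_ne_zero]

theorem th_zero :
    thF 0 k P = sm (Op 1) (curl (fT (2 * k + 1 + 1) (3 / 4) (C (rr 0 (2 * k + 2)) * P))) := by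
  have h := thF_C (c := 1) (k := k) (P := P) (1 / 2)
  have e : C (rr 0 (2 * k + 2)) * P = C (rr 1 (2 * k + 2)) * (C (1 / 2) * P) := by
    rw [← mul_assoc, ← C_mul, rr, rr, if_pos rfl, if_neg one_ne_zero, mul_one_div, div_right_comm]
  have h' : pot k (C (1 / 2) * P) = fun i y => 1 / 2 * pot k P i y := by
    funext i y
    simpa only [thF, if_neg one_ne_zero] using h i y
  rw [e, ← pot_fT, h', thF, if_pos rfl]
  have s := fun i => (sym_pot (k := k) (P := P) i).1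
  generalize pot k P = U at s
  funext i y
  simp only [sm, curl, Dyn.pd_cmul (s _), md_Op_one]
  ring

theorem sm_sm : sm (Op a) (sm (Op w) U) = sm (Op (a + w)) U := by
  funext i y
  simp only [sm, md_Op_add, mul_assoc]

theorem sm_zero : sm (Op 0) U = U := by
  funext i y
  simp only [sm, Op, Real.rpow_zero, one_mul]

theorem curl_ww (h : Sp N q) : curl (sm (Op w) (curl (fT (d + 1) a (gS (d + 1) N q)))) =
    fT (d + 1) (a + w) (gS (d + 1) N (ww a (a + w) d N q)) := by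
  rw [curl_fT h, sm_fM, curl_fM h.kP]
  rfl

theorem sp_mul (h : Sp N q) (r : ℝ) : Sp N fun i => r * q i := fun m hm => by simp [h m hm]

theorem vX_smul (r : ℝ) (M : ℕ → ℕ → ℝ) :
    vX N (fun i => r * q i) M = fun j => r * vX N q M j := by
  funext j
  simp only [vX, mul_sum, mul_assoc]

theorem ww_mul (r a b : ℝ) : ww a b d N (fun i => r * q i) = fun j => r * ww a b d N q j := by
  funext j
  simp only [ww, vX_smul, mul_add]

/-- By parts. -/
theorem ip_ww (hd : 1 ≤ d) (hw : -1 / 2 ≤ w) (h : Sp N q) :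
    ip (curl (fT (d + 1) (3 / 4) (C r * P)))
      (sm (Op w) (curl (fT (d + 1) (3 / 4) (C r * gS (d + 1) N q)))) = r ^ 2 * (nT (d + 1) *
      Jw (d + 1) (w - 3 / 2) (P * gS (d + 1) N (ww (3 / 4) (3 / 4 + w) d N q))) := by
  have : (1 : ℝ) ≤ d := by exact_mod_cast hd
  have s : ∀ i, Sym (-(d + 2 * (3 / 4 + w)))
      (sm (Op w) (curl (fT (d + 1) (3 / 4) (C r * gS (d + 1) N q))) i) := by
    rw [curl_fT0, sm_fM]
    exact bd_fM
  rw [rd_ip_curl bd_fT s (by push_cast; linarith), ← gS_C r, curl_ww (sp_mul h r), ww_mul, gS_C,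
    ip_fT, if_pos rfl, mul_mul_mul_comm, ← C_mul, Jw_C,
    show (3 / 4 + (3 / 4 + w) - 3 : ℝ) = w - 3 / 2 by ring]
  ring

theorem gT_eq (h : Sp N q) : gT (thF c k P) (thF c k (gS (2 * k + 2) N q)) =
    rr c (2 * k + 2) ^ 2 * (nT (2 * k + 2) * Jw (2 * k + 2) (if c = 0 then -1 / 2 else -5 / 2)
      (P * gS (2 * k + 2) N (wT c (2 * k + 1) N q))) := by
  unfold gT wT
  split_ifs with hc
  · subst hc
    rw [th_zero, th_zero, sm_sm, neg_add_cancel, sm_zero, ip_ww (by omega) (by norm_num) h]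
    norm_num
  · rw [th_one hc, th_one hc, sm_fT, ip_fT, if_pos rfl, mul_mul_mul_comm, ← C_mul, Jw_C]
    norm_num
    ring

theorem gC_one (hc : c ≠ 0) (h : Sp N q) : gC (thF c k (gS (2 * k + 2) N q)) (thF c k P) =
    rr c (2 * k + 2) ^ 2 * (nT (2 * k + 2) * Jw (2 * k + 2) (-2)
      (P * gS (2 * k + 2) N (wC c (2 * k + 1) N q))) := by
  rw [gC, th_one hc, th_one hc, ip_comm, ip_ww (by omega) le_rfl h, wC, if_neg hc]
  norm_num

theorem gC_zero (h' : Sp N p) (h : Sp N q) :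
    gC (thF 0 k (gS (2 * k + 2) N p)) (thF 0 k (gS (2 * k + 2) N q)) =
    rr 0 (2 * k + 2) ^ 2 * (nT (2 * k + 2) * Jw (2 * k + 2) 0
      (gS (2 * k + 2) N (wC 0 (2 * k + 1) N p) * gS (2 * k + 2) N (wC 0 (2 * k + 1) N q))) := by
  rw [gC, th_zero, th_zero, ← gS_C, ← gS_C, curl_ww (sp_mul h _), curl_ww (sp_mul h' _), ww_mul,
    ww_mul, gS_C, gS_C, sm_fT, ip_fT, if_pos rfl, mul_mul_mul_comm, ← C_mul, Jw_C]
  simp only [wC, if_true]
  norm_num
  ring

theorem shape (c k : ℕ) (P : ℝ[X]) : ∃ A B D : ℝ[X],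
    (thF c k P = if c = 0 then fM (2 * k + 1) (7 / 4) A B else fT (2 * k + 2) (3 / 4) D) ∧
    curl (thF c k P) = if c = 0 then fT (2 * k + 2) (7 / 4) D else fM (2 * k + 1) (3 / 4) A B := by
  split_ifs with hc
  · subst hc
    rw [th_zero, curl_fT0, sm_fM, show (3 / 4 + 1 : ℝ) = 7 / 4 by norm_num]
    exact ⟨_, _, _, rfl, curl_fM0⟩
  · rw [th_one hc]
    exact ⟨_, _, _, rfl, curl_fT0⟩

/-- Different blocks are orthogonal. -/
theorem off (hc : c < 2) (hc' : c' < 2) (h : ¬(k = k' ∧ c = c')) :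
    gT (thF c k P) (thF c' k' Q) = 0 ∧ gC (thF c k P) (thF c' k' Q) = 0 := by
  obtain ⟨A, B, D, e1, e2⟩ := shape c k P
  obtain ⟨A', B', D', e3, e4⟩ := shape c' k' Q
  have h1 : (0 : ℝ) ≤ k := k.cast_nonneg
  have h2 : (0 : ℝ) ≤ k' := k'.cast_nonneg
  rw [gT, gC, e2, e4, e1, e3]
  split_ifs <;> simp only [sm_fT, sm_fM, ip_fT_fM, ip_fM_fT, and_self]
  all_goals rw [ip_fT, ip_fM _ _ _ _ _ _ (by push_cast; linarith), if_neg (by omega),
    if_neg (by omega), and_self]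

theorem sum_dec (J : ℕ → ℕ → ℕ) (f : Ix → ℝ) : ∀ q b, ∑ n ∈ range (tot J q b), f (dec J q b n) =
    ∑ i ∈ range (2 * q), ∑ m ∈ range (J (b + i / 2) (i % 2)), f (b + i / 2, i % 2, m)
  | 0, _ => rfl
  | q + 1, b => by
    rw [tot, sum_range_add, sum_range_add, mul_add_one 2 q, add_comm (2 * q), sum_range_add _ 2,
      sum_range_succ, sum_range_one, add_assoc]
    refine congrArg₂ _ (sum_congr rfl fun n hn => ?_) (congrArg₂ _ (sum_congr rfl fun n hn => ?_) ?_)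
    · rw [dec, if_pos (show n < J b 0 from mem_range.1 hn)]
      rfl
    · rw [dec, if_neg (by omega), Nat.add_sub_cancel_left,
        if_pos (show n < J b 1 from mem_range.1 hn)]
      rfl
    · simp only [dec, add_lt_iff_neg_left, Nat.not_lt_zero, if_false, Nat.add_sub_cancel_left,
        sum_dec J f q, Nat.add_div_left _ two_pos, Nat.add_mod_left, add_assoc, add_comm 1]

variable {A : Lay} {θ : Ix → Vc}

/-- The members of the family. -/
def Th (A : Lay) (θ : Ix → Vc) : Prop :=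
  ∀ b c, A.Has b c → 1 ≤ b ∧ ∀ j < A.J b c, ∃ P, θ (b, c, j) = thF c (b - 1) P

theorem Th.sym (h : Th A θ) (a : Fin A.N) (i : Fin 3) : Sym (-3) (θ (A.mem a) i) := by
  obtain ⟨P, e⟩ := (h _ _ (mem_in a.2).1).2 _ (mem_in a.2).2
  exact (show θ (A.mem a) = _ from e) ▸ sym_θ i

/-- A sum over one block. -/
theorem Th.sum (h : Th A θ) {G : Vc → Vc → ℝ} (hG : G = gT ∨ G = gC) {u : ℝ → Ix → ℝ}
    (h0 : ∀ e, u 0 e = 0) {e : Ix} (he : In A e) :
    ∑ a : Fin A.N, u (G (θ e) (θ (A.mem a))) (A.mem a) =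
      ∑ j ∈ range (A.J e.1 e.2.1), u (G (θ e) (θ (e.1, e.2.1, j))) (e.1, e.2.1, j) := by
  obtain ⟨b, c, i⟩ := e
  obtain ⟨b1, e1⟩ := h _ _ he.1
  obtain ⟨P, e1⟩ := e1 _ he.2
  obtain ⟨⟨a1, a2, a3⟩, -⟩ := he
  simp only at a1 a2 a3
  rw [← sum_range fun a => u (G (θ (b, c, i)) (θ (A.mem a))) (A.mem a)]
  simp only [Lay.N, Lay.mem]
  rw [sum_dec A.J fun e => u (G (θ (b, c, i)) (θ e)) e,
    sum_eq_single_of_mem (2 * (b - A.b0) + c) (mem_range.2 (by omega)) fun n hn hne => ?_,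
    show A.b0 + (2 * (b - A.b0) + c) / 2 = b by omega, show (2 * (b - A.b0) + c) % 2 = c by omega]
  have := mem_range.1 hn
  refine sum_eq_zero fun m hm => ?_
  obtain ⟨b2, e2⟩ := h (A.b0 + n / 2) (n % 2) ⟨by omega, by omega, by omega⟩
  obtain ⟨Q, e2⟩ := e2 _ (mem_range.1 hm)
  have t := off (P := P) (Q := Q) (k := b - 1) (k' := A.b0 + n / 2 - 1) a3 (c' := n % 2) (by omega)
    (by omega)
  rw [e1, e2]
  rcases hG with rfl | rfl
  · rw [t.1, h0]
  · rw [t.2, h0]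

/-- The bound for the Gram matrix from the rows of the blocks. -/
theorem Th.gram (h : Th A θ) {g : ℝ} (k : ∀ b c, A.Has b c → ∀ i < A.J b c,
    ∑ j ∈ range (A.J b c), |gT (θ (b, c, i)) (θ (b, c, j))| ≤ g) (t : Fin A.N → ℝ) :
    nw (Op (-1)) (lc t fun a => θ (A.mem a)) ≤ g * ∑ a, t a ^ 2 := by
  rw [nw_lc (bd_Op _) (fun a i => (h.sym a i).bd) (by norm_num)]
  refine form_le_rows (fun a b => ?_) (fun a => ?_) t
  · simp only [ip, dot_sm, dot_comm (θ (A.mem a))]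
  · exact (h.sum (.inl rfl) (u := fun x _ => |x|) (fun _ => abs_zero) (mem_in a.2)).trans_le
      (k _ _ (mem_in a.2).1 _ (mem_in a.2).2)

theorem Th.curl (h : Th A θ) (x : Ix → ℝ) :
    nw (Op (-1 / 2)) (curl (lc (fun a : Fin A.N => x (A.mem a)) fun a => θ (A.mem a))) =
      ∑ n ∈ range (2 * A.nq), ∑ i ∈ range (A.J (A.b0 + n / 2) (n % 2)),
        ∑ j ∈ range (A.J (A.b0 + n / 2) (n % 2)), gC (θ (A.b0 + n / 2, n % 2, i))
          (θ (A.b0 + n / 2, n % 2, j)) * (x (A.b0 + n / 2, n % 2, i) * x (A.b0 + n / 2, n % 2, j)) := by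
  rw [curl_lc _ fun a i => (h.sym a i).1, nw_lc (bd_Op _)
    (fun a i => (md_sym_curl (h.sym a) i).bd) (by norm_num),
    ← sum_dec A.J fun e => ∑ j ∈ range (A.J e.1 e.2.1), gC (θ e) (θ (e.1, e.2.1, j)) *
      (x e * x (e.1, e.2.1, j)), sum_range]
  exact sum_congr rfl fun a _ => h.sum (.inr rfl) (u := fun y e => y * (x (A.mem a) * x e))
    (fun _ => zero_mul _) (mem_in a.2)

/-- The hypothesis `hc` of `Obj.Ok.l1` from the traces of the blocks. -/
theorem hc_of {O : Obj} (h : Th O.D.Ah O.θ)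
    (sy : ∀ i < 2, ∀ b < O.NF, O.D.x (2 + i) (O.D.lo b) = O.D.z i b) {B : ℕ → ℝ}
    (k : ∀ b c, O.D.Ah.Has b c → ∑ i ∈ range (O.D.Ah.J b c), ∑ j ∈ range (O.D.Ah.J b c),
      gC (O.θ (b, c, i)) (O.θ (b, c, j)) * ∑ n ∈ range (16 * O.D.c1),
        O.D.x n (O.D.Am.pos b c i) * O.D.x n (O.D.Am.pos b c j) ≤ B (2 * (b - O.D.Ah.b0) + c))
    {Cc : ℝ} (hB : ∑ n ∈ range (2 * O.D.Ah.nq), B n ≤ Cc ^ 2) :
    ∑ a, nw (Op (-1 / 2)) (curl (O.L.θF a)) + ∑ a, nw (Op (-1 / 2)) (curl (O.L.θZ a)) ≤ Cc ^ 2 := by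
  set f : ℕ → ℝ := fun n => nw (Op (-1 / 2)) (curl (lc (fun a : Fin O.NF => O.D.x n (O.D.lo a)) O.L.θ))
    with hf
  have f0 : ∀ n, 0 ≤ f n := fun n => Fn.nw_nonneg (.of_forall (SkCert_Op_nn _)) _
  have e1 : ∑ a, nw (Op (-1 / 2)) (curl (O.L.θF a)) = ∑ a ∈ range O.NF, f (16 + a) :=
    (sum_range fun a => f (16 + a)).symm
  have e2 : ∑ a, nw (Op (-1 / 2)) (curl (O.L.θZ a)) = ∑ a ∈ range 2, f (2 + a) := by
    rw [sum_range]
    refine sum_congr rfl fun i _ => ?_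
    simp only [hf, sy i i.2 _ (Fin.is_lt _)]
    rfl
  have e3 : ∑ a ∈ range O.NF, f (16 + a) + ∑ a ∈ range 2, f (2 + a)
      ≤ ∑ n ∈ range (16 * O.D.c1), f n := by
    refine le_trans ?_ (sum_le_sum_of_subset_of_nonneg (range_subset_range.2 O.ok.n1)
      fun n _ _ => f0 n)
    rw [sum_range_add, show 16 = 2 + 2 + 12 from rfl, sum_range_add, sum_range_add]
    linarith [sum_nonneg fun n (_ : n ∈ range 2) => f0 n,
      sum_nonneg fun n (_ : n ∈ range 12) => f0 (2 + 2 + n)]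
  rw [e1, e2]
  refine e3.trans (le_trans ?_ hB)
  rw [sum_congr (g := _) rfl fun n _ => show f n = _ from
    h.curl fun e => O.D.x n (O.D.Am.pos e.1 e.2.1 e.2.2), sum_comm]
  refine sum_le_sum fun n hn => ?_
  have := mem_range.1 hn
  have t := k (O.D.Ah.b0 + n / 2) (n % 2) ⟨by omega, by omega, by omega⟩
  rw [show 2 * (O.D.Ah.b0 + n / 2 - O.D.Ah.b0) + n % 2 = n by omega] at t
  refine le_of_eq_of_le ?_ t
  rw [sum_comm]
  refine sum_congr rfl fun i _ => ?_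
  rw [sum_comm]
  simp only [mul_sum]

end Pool.Agent.Work.MP_6bf1e5_an.H.Tg
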