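import Pool.Agent.Work.MP_6bf1e5_an.H.BkD
import Pool.Agent.Work.MP_6bf1e5_an.H.PassDef
import Pool.Agent.Lib.KRad.Top

/-! The checks of the Gram matrices of the functionals (owner helper60). -/

namespace Pool.Agent.Work.MP_6bf1e5_an.H.Tg

open Pool.Agent.Lib Pool.Agent.Lib.KLA Pool.Agent.Lib.KBlk Pool.Agent.Lib.KMx Bk

noncomputable section

/-- A block: the stored coefficients; cells, guard bits, scales and shifts of the products; sizes
of the intermediate results. -/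
structure Cf where
  (A : KRad.Cm)
  (P : Pm)
  (c t u s u2 s1 s2 a1 a2 a3 a4 a5 : Nat)

/-- The coefficients times `2 ^ u`. -/
def ldT (F : Cf) (J : Nat) : MT :=
  mem F.P.W J F.c (sml (Nat.shiftLeft 1 F.u)
    (zr F.P.W J (Nat.add F.A.M 1) (rs F.A.Ws 1 F.P.W J (lit F.A.Ws J F.A.K (F.A.raw J)))))

/-- The matrix of `ww (3 / 4) (a / 4)`. -/
def bW (F : Cf) (J a d : Nat) (T : MT) : MT :=
  (fun N : Nat => add
    (bU F.P J N F.a2 a d 2 1 false true
      (bV F.P J N F.a1 3 d (Nat.add d 2) (Nat.add (Nat.mul 2 d) 3) true false T))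
    (bV F.P J N F.a2 a (Nat.add d 1) 1 1 false true (bU F.P J N F.a1 3 (Nat.add d 1)
      (Nat.add (Nat.mul 2 d) 2) (Nat.add (Nat.mul 2 d) 3) true false T))) (Nat.mul 16 F.c)

/-- `Tᵀ A U` for the Gram matrix `A` of `Jt l (4 l + 7 + q)`. -/
def qf (F : Cf) (J l q : Nat) (T U : MT) : MT :=
  tm F.P J J F.c T (fx F.P J F.c F.s1 F.a3 (mm F.P.W J F.c
    (mo2 F.P l F.c F.A.M (fun i => Nat.add (F.P.ep l i) F.u2)
      (moH F.P l F.s q (Nat.add F.A.M 1) (Nat.sub (Nat.mul 16 F.c) 1) (F.P.ep l))) U))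

/-- `x (2 l + 1) 2 ^ a / (y l (l + 1) 2 ^ b)`. -/
def thr (l x y a b : Nat) : Nat :=
  Nat.div (Nat.shiftLeft (Nat.mul x (Nat.add (Nat.mul 2 l) 1)) a)
    (Nat.shiftLeft (Nat.mul y (Nat.mul l (Nat.add l 1))) b)

/-- The formal conditions. -/
def Cf.ok (F : Cf) (l : Nat) : Bool :=
  bnd (bnd (bnd (Nat.ble 1 F.P.W0) (Nat.ble 1 F.P.W1)) (bnd (Nat.ble 1 F.P.W) F.A.fit))
    (bnd (bnd (Nat.ble (Nat.add F.A.M 3) (Nat.mul 16 F.c)) (Nat.ble (Nat.add F.s 3) 3072))
      (allR (fun m => Nat.beq (dg F.A.E m) (Nat.add (F.P.ep l m) F.t)) 0 (Nat.add F.A.M 1)))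

/-- Twice the exponent of the scale of the coefficients. -/
def Cf.e (F : Cf) : Nat := Nat.mul 2 (Nat.add (Nat.add F.u F.A.z) F.t)

/-- The shifts. -/
def Cf.b (F : Cf) (k : Nat) : Nat := Nat.add (Nat.add F.u2 F.s1) (Nat.mul 8 k)

/-- The rows of the Gram matrix have norms at most `G / 10 ^ 9`. -/
def gchk (F : Cf) (G J k y : Nat) : Bool :=
  strict (Nat.add (Nat.mul 2 k) 1) fun d => strict (Nat.add d 1) fun l =>
    (fun T : MT => bnd (F.ok l) (l1r F.P.W J J F.a4 (thr l G 56548667765 (Nat.add F.e F.s) (F.b k))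
      (cnd (Nat.beq y 0) (qf F J l (Nat.add (Nat.mul 8 k) 11) T (bW F J 7 d T))
        (qf F J l (Nat.add (Nat.mul 8 k) 3) T T)))) (ldT F J)

/-- The trace is at most `B`. -/
def trc (W n B : Nat) (T : MT) : Bool :=
  bnd (bnd T.ok (fit W T.K)) (Nat.ble (Nat.add (Nat.rec (motive := fun _ => Nat) 0 (fun i ih =>
    Nat.add ih (Nat.land (Nat.shiftRight (T.f i) (Nat.mul W i)) (low W))) n) (Nat.mul n T.e))
    (Nat.add B (Nat.mul n T.K)))

/-- `Xᵀ X` for the first `J` columns of a block. -/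
def sq (D : Ps.Dat) (W J b y : Nat) : MT :=
  (fun X : MT => rs D.V 1 W J (mem D.V J (Nat.add (Nat.div J 16) 1)
    (mm D.V J D.c1 (tr D.V J D.c1 X) X)))
    (lit D.V J D.kX (ldR D.V D.kX D.Am D.X b (D.Am.pos b y 0) J 0 D.c1))

/-- The contribution of a block to the norm of the curls is at most `B`. -/
def cchk (F : Cf) (D : Ps.Dat) (B J k y : Nat) : Bool :=
  strict (Nat.add (Nat.mul 2 k) 1) fun d => strict (Nat.add d 1) fun l =>
    strict (Nat.add (Nat.div J 16) 1) fun c =>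
    strict (Nat.add F.e (Nat.mul 2 D.sX)) fun e =>
    (fun (T : MT) (g : Nat → MT → Bool) => bnd (bnd (F.ok l) (Nat.ble 1 D.V)) (cnd (Nat.beq y 0)
      ((fun U : MT => g (thr l B 2 e (Nat.add (Nat.mul 4 k) F.s2))
        (tm F.P J J F.c U (bN F.P J (Nat.mul 16 F.c) F.a5 l U))) (bW F J 7 d T))
      (g (thr l B 80 (Nat.add e F.s) (Nat.add (F.b k) F.s2))
        (qf F J l (Nat.add (Nat.mul 8 k) 5) T (bW F J 1 d T)))))
      (ldT F J) fun x H => trc F.P.W J x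
        (tm F.P J J c (fx F.P J c F.s2 F.a4 H) (sq D F.P.W J (Nat.add k 1) y))

/-- The check `f` on the block number `i`. -/
def blk (A : Lay) (f : Nat → Nat → Nat → Bool) (i : Nat) : Bool :=
  strict (Nat.add A.b0 (Nat.div i 2)) fun b => strict (Nat.mod i 2) fun y =>
    strict (A.J b y) fun J => cnd (Nat.beq J 0) true (f b y J)

def gJ (A : Lay) (F : Nat → Nat → Cf) (G : Nat) : Nat → Bool :=
  blk A fun b y J => gchk (F b y) G J (Nat.sub b 1) y

def cJ (D : Ps.Dat) (F : Nat → Nat → Cf) (B : List Nat) (i : Nat) : Bool :=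
  blk D.Ah (fun b y J => cchk (F b y) D (lget B i) J (Nat.sub b 1) y) i

end

end Pool.Agent.Work.MP_6bf1e5_an.H.Tg
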