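import Pool.Agent.Work.MP_6bf1e5_an.H.ThG
import Pool.Agent.Work.MP_6bf1e5_an.H.ThGD
import Pool.Agent.Work.MP_6bf1e5_an.H.BkT

/-! The meaning of the checks of the Gram matrices of the functionals (owner helper60). -/

open scoped Real
open Finset Polynomial Pool.Agent.Lib.KLA Pool.Agent.Lib.KBlk Pool.Agent.Lib.KMx

namespace Pool.Agent.Work.MP_6bf1e5_an.H.Tg

open Jf Ca Bk Pool.Agent.Lib

variable {F : Cf} {J k l d a q n y N G B W p : ℕ} {T U : MT} {κ : ℝ} {x z g : ℕ → ℕ → ℝ}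

theorem ok_iff (h : F.ok l = true) : F.P.Pos ∧ F.A.fit = true ∧ F.A.M + 3 ≤ 16 * F.c ∧
    F.s + 3 ≤ 3072 ∧ ∀ m ≤ F.A.M, KRad.dig F.A.E m = F.P.ep l m + F.t := by
  simp only [Cf.ok, bnd_iff, Nat.ble_eq] at h
  exact ⟨⟨h.1.1.1, h.1.1.2, h.1.2.1⟩, h.1.2.2, h.2.1.1, h.2.1.2, fun m hm =>
    Nat.eq_of_beq_eq_true (allR_spec h.2.2 m m.zero_le (by change m < 0 + (F.A.M + 1); omega))⟩

theorem rep_ldT (h : F.ok l = true) : Rep F.P.W J (ldT F J)
    (Cn F.P l (2 ^ (F.u + F.A.z + F.t) / 4 ^ (k + k)) (tv F.A k)) := by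
  obtain ⟨h1, h2, h3, -, h5⟩ := ok_iff h
  have h4 : 0 < F.A.Ws := by
    have := Nat.le_of_ble_eq_true ((bnd_iff _ _).1 h2).2
    simp only [Nat.add_eq] at this
    omega
  refine ((((((rep_lit h4 (mat_raw h2 J)).rs h4 one_pos (by omega)).zr h1.2.2 _).sml _).mem h1.2.2
    _).congr fun i j _ => ?_)
  simp only [up, Cn, tv, cI, shl_eq, Nat.add_eq, one_mul, Nat.lt_succ_iff]
  by_cases h6 : i ≤ F.A.M
  · rw [if_pos (by omega : i < 16 * F.c), h5 i h6]
    simp only [h6, if_true]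
    split_ifs
    · push_cast
      field_simp
      ring
    · simp
  · simp [h6]

theorem rep_bW (hP : F.P.Pos) (h : Rep F.P.W J T (Cn F.P (d + 1) κ x))
    (hx : ∀ j, Sp (16 * F.c) (x j)) (ha : a ≤ 12) : Rep F.P.W J (bW F J a d T)
      (Cn F.P (d + 1) κ fun j => ww (3 / 4) (a / 4) d (16 * F.c) (x j)) := by
  rw [← up_Cn fun j => zs_ww (hx j)]
  have h1 := rep_bV (b := F.a1) (a := 3) (u := d + 2) (v := 2 * d + 3) (sg := true)
    (A := kM (3 / 4) d) hP h (fun j => zs_sp (hx j)) (by norm_num) fun m j => by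
      simp [kM, sgn_tt]
  have h2 := rep_bU (b := F.a1) (a := 3) (u := 2 * d + 2) (v := 2 * d + 3) (sg := true)
    (A := kP (3 / 4) d) hP h (fun j => zs_sp (hx j)) (by norm_num) fun m j => by
      simp [kP, sgn_tt]
  have z1 := fun j => zs_cV (A := kM (3 / 4) d) (hx j) fun _ _ => rfl
  have z2 := fun j => zs_sp ((hx j).kP (a := 3 / 4) (d := d))
  rw [up_Cn z1] at h1
  rw [up_Cn z2] at h2
  refine ((rep_bU (b := F.a2) (u := 2) (v := 1) (sg := false) (A := hM (a / 4) d) hP h1 z1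
    (by omega) fun m j => by simp [hM, sgn_ff]).add (rep_bV (b := F.a2) (u := 1) (v := 1)
    (sg := false) (A := cV (a / 4) (d + 1)) hP h2 z2 ha fun m j => by simp [sgn_ff])).congr
    fun i j _ => ?_
  simp only [up, Cn, ww]
  split_ifs
  · ring
  · simp

theorem Jt_gS (h : 4 * d + 6 < k) (u v : ℕ → ℝ) : Jt d k (gS d N u * gS d N v) =
    ∑ m ∈ range N, u m * ∑ f ∈ range N, Jt d k (gf d m * gf d f) * v f := by
  simp only [Jt, Jw_gS (rd_lt h), mul_comm (gf d _) (gS _ _ _), sum_div, mul_sum]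
  exact sum_congr rfl fun m _ => sum_congr rfl fun f _ => by
    rw [mul_comm (gf d f)]
    ring

theorem rep_qf (h : F.ok l = true) (hT : Rep F.P.W J T (Cn F.P l κ x))
    (hx : ∀ j m, F.A.M < m → x j m = 0) (hU : Rep F.P.W J U (Cn F.P l κ z)) :
    Rep F.P.W J (qf F J l q T U) (up J fun i j => κ ^ 2 * 2 ^ F.s / 2 ^ (F.u2 + F.s1) *
      Jt l (4 * l + 7 + q) (gS l (16 * F.c) (x i) * gS l (16 * F.c) (z j))) := by
  obtain ⟨h1, -, h3, h4, -⟩ := ok_iff h
  have t := rep_mo2 (c := F.c) (sh := fun i => F.P.ep l i + F.u2) (G := fun f m u =>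
    1 / 2 ^ F.P.ep l f * (2 ^ F.s * Jt l (4 * l + 7 + q + 4 * u) (gf l m * gf l f))) h1
    (rep_moH (d := l) (q := q) (p := F.A.M + 1) (M := 16 * F.c - 1) (sh := F.P.ep l) h1 h4) (by omega)
    (fun f hf u _ => by
      rw [up, if_pos (by omega), gf_zero, one_mul]
      ring) fun f _ => ((tri_Jt (by omega) _).mul _).mul _
  refine (rep_tm h1 hT (rep_fx h1 (t.mm hU h1.2.2) _ _ _) _).congr fun i j _ => ?_
  simp only [up]
  split_ifs
  · rw [Jt_gS (by omega), mul_sum]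
    refine sum_congr rfl fun m hm => ?_
    rw [if_pos (mem_range.1 hm), Cn]
    by_cases h6 : m < F.A.M + 1
    · simp only [if_pos h6, mul_sum, sum_div]
      refine sum_congr rfl fun f hf => ?_
      rw [Cn, mul_zero, add_zero, pow_add, pow_add]
      field_simp
    · rw [hx i m (by omega)]
      simp
  · rfl

theorem thr_le {u v a b : ℕ} {S κ r : ℝ} (hl : 0 < l) (h0 : 0 ≤ κ) (hr : 0 ≤ r) (hκ : κ ≤ v * r)
    (h : 2 ^ a / 2 ^ b * S ≤ thr l u v a b) : κ * (l * (l + 1) / (2 * l + 1)) * S ≤ r * u := by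
  have h1 : (thr l u v a b : ℝ) * (v * (l * (l + 1)) * 2 ^ b) ≤ u * (2 * l + 1) * 2 ^ a := by
    have := Nat.div_mul_le_self (u * (2 * l + 1) * 2 ^ a) (v * (l * (l + 1)) * 2 ^ b)
    simp only [thr, shl_eq]
    exact_mod_cast this
  rw [div_mul_eq_mul_div, div_le_iff₀ (by positivity)] at h
  have h2 : S ≤ thr l u v a b * 2 ^ b / 2 ^ a := by
    rw [le_div_iff₀ (by positivity)]
    linarith
  calc _ ≤ v * r * (l * (l + 1) / (2 * l + 1)) * (thr l u v a b * 2 ^ b / 2 ^ a) :=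
        (mul_le_mul_of_nonneg_left h2 (by positivity)).trans (by gcongr)
    _ = r * (thr l u v a b * (v * (l * (l + 1)) * 2 ^ b) / ((2 * l + 1) * 2 ^ a)) := by
        field_simp
    _ ≤ _ := mul_le_mul_of_nonneg_left ((div_le_iff₀ (by positivity)).2 (by linarith)) hr

theorem rr_sq (c l : ℕ) (s : ℝ) : rr c l ^ 2 * 2 ^ (2 * l + 3 / 2 + s) =
    (if c = 0 then 9 / 4 else 9) * 2 ^ s := by
  have : (2 : ℝ) ^ (2 * l + 3 / 2 + s) = (2 ^ (l + 3 / 4 : ℝ)) ^ 2 * 2 ^ s := by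
    rw [pow_two, ← Real.rpow_add two_pos, ← Real.rpow_add two_pos]
    congr 1
    ring
  rw [this, rr]
  split_ifs <;> field_simp <;> norm_num

theorem kap_sq (F : Cf) (k : ℕ) : (2 ^ (F.u + F.A.z + F.t) / 4 ^ (k + k) : ℝ) ^ 2 * 2 ^ F.s /
    2 ^ (F.u2 + F.s1) = 2 ^ (F.e + F.s) / 2 ^ F.b k := by
  simp only [Cf.e, Cf.b, Nat.add_eq, Nat.mul_eq, show (4 : ℝ) = 2 ^ 2 by norm_num, ← pow_mul,
    div_pow]
  field_simp
  ring

theorem tv_zero (A : KRad.Cm) (k j m : ℕ) (h : A.M < m) : tv A k j m = 0 := by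
  rw [tv, cI, if_neg h.not_ge, ite_self]

theorem abs_gT (P : ℝ[X]) {α : ℕ} (h : α = if y = 0 then 10 else 2) :
    |rr y l ^ 2 * (nT l * Jw l (if y = 0 then -1 / 2 else -5 / 2) P)| =
      72 * π * (l * (l + 1) / (2 * l + 1)) * |Jt l (8 * l + α) P| / 4 := by
  have e : (if y = 0 then -1 / 2 else -5 / 2 : ℝ) = α / 4 - 3 := by
    rw [h]
    split_ifs <;> norm_num
  have t := rr_sq y l (if y = 0 then 1 else -1)
  have e2 : ((8 * l + α : ℕ) / 4 : ℝ) = 2 * l + 3 / 2 + if y = 0 then 1 else -1 := by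
    rw [h]
    split_ifs <;> push_cast <;> ring
  have e3 : (if y = 0 then 9 / 4 else 9 : ℝ) * 2 ^ (if y = 0 then 1 else -1 : ℝ) = 9 / 2 := by
    split_ifs
    · norm_num
    · rw [Real.rpow_neg_one]
      norm_num
  rw [e, Jw_Jt, e2, mul_left_comm, ← mul_assoc (rr y l ^ 2), t, e3, ← mul_assoc, abs_mul, nT,
    abs_of_nonneg (by positivity)]
  ring

theorem gchk_sound (h : gchk F G J k y = true) {i : ℕ} (hi : i < J) :
    ∑ j ∈ range J, |gT (thF y k (gQ F.A k k i)) (thF y k (gQ F.A k k j))| ≤ G / 10 ^ 9 := by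
  simp only [gchk, strict_eq, bnd_iff, cnd_eq, Nat.beq_eq, Nat.add_eq, Nat.mul_eq] at h
  obtain ⟨h1, -, h3, -, -⟩ := ok_iff h.1
  have hT := rep_ldT (k := k) (J := J) h.1
  have hs := fun j => sp_tv (k := k) (j := j) h3
  obtain ⟨α, hα⟩ : ∃ α : ℕ, α = if y = 0 then 10 else 2 := ⟨_, rfl⟩
  have t : ∑ j ∈ range J, |2 ^ (F.e + F.s) / 2 ^ F.b k * Jt (2 * k + 2) (8 * (2 * k + 2) + α)
      (gQ F.A k k i * gS (2 * k + 2) (16 * F.c) (wT y (2 * k + 1) (16 * F.c) (tv F.A k j)))|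
      ≤ thr (2 * k + 2) G 56548667765 (F.e + F.s) (F.b k) := by
    have h2 := h.2
    rw [gQ_eq h3, ← kap_sq]
    unfold wT
    split_ifs at h2 hα ⊢
    · have := (rep_qf h.1 hT (tv_zero _ _) (rep_bW h1 hT hs (by norm_num))).l1r h2 hi
      simpa only [up, if_pos hi, hα, Nat.cast_ofNat, Nat.add_eq, show 4 * (2 * k + 1 + 1) + 7
        + (8 * k + 11) = 8 * (2 * k + 2) + 10 by ring] using this
    · have := (rep_qf h.1 hT (tv_zero _ _) hT).l1r h2 hi
      simpa only [up, if_pos hi, hα, Nat.add_eq, show 4 * (2 * k + 1 + 1) + 7 + (8 * k + 3)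
        = 8 * (2 * k + 2) + 2 by ring] using this
  simp only [abs_mul, ← mul_sum, abs_of_pos (show (0 : ℝ) < 2 ^ (F.e + F.s) / 2 ^ F.b k by
    positivity)] at t
  have := thr_le (κ := 18 * π) (r := 1 / 10 ^ 9) (by omega) (by positivity) (by positivity)
    (by push_cast; linarith [Real.pi_lt_d20]) t
  rw [sum_congr rfl fun j _ => by rw [gQ_eq (j := j) h3, gT_eq (hs j), abs_gT _ hα], ← sum_div,
    ← mul_sum]
  linarith

theorem trc_sound (h : Rep W n T g) (k : trc W n B T = true) : ∑ i ∈ range n, g i i ≤ B := by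
  simp only [trc, bnd_iff, fit_iff, Nat.ble_eq, Nat.add_eq, Nat.mul_eq] at k
  have e : ∀ m ≤ n, ∑ i ∈ range m, g i i + m * T.K ≤ (Nat.rec (motive := fun _ => ℕ) 0 (fun i ih =>
      ih + Nat.land (Nat.shiftRight (T.f i) (W * i)) (low W)) m : ℕ) + m * T.e := fun m hm => by
    induction m with
    | zero => simp
    | succ m ih =>
      obtain ⟨v, v1, v2⟩ := h k.1.1 m
      have a1 := v1.ent k.1.2 (show m < n by omega)
      have a2 := (abs_le.1 (v2 m (by omega))).1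
      have a3 : ((Nat.land (Nat.shiftRight (T.f m) (W * m)) (low W) : ℕ) : ℝ) = v m + T.K := by
        rw [land_low, shr_eq, ← bits]
        exact_mod_cast a1
      rw [sum_range_succ]
      push_cast
      linarith [ih (by omega)]
  have := (Nat.cast_le (α := ℝ)).2 k.2
  push_cast at this
  linarith [e n le_rfl]

theorem rep_sq {D : Ps.Dat} {b : ℕ} (h : D.Ok) (hV : 0 < D.V) (hb : D.Am.Has b y)
    (hJ : J ≤ D.Am.J b y) : Rep W J (sq D W J b y) (up J fun i j => 2 ^ (2 * D.sX) *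
      ∑ n ∈ range (16 * D.c1), D.x n (D.Am.pos b y i) * D.x n (D.Am.pos b y j)) := by
  have t := rep_lit hV (mat_ldR (c0 := 0) (c := D.c1) (p := J) (h.X b hb.1 hb.2.1) (by simp)
    ((D.Am.ps_le b).trans (D.Am.st_le b y 0)) fun m hm => by
      rw [Lay.pos_add, Lay.pan, (Lay.mem_pos hb (hm.trans_le hJ)).2])
  refine (((((t.tr hV _).mm t hV).mem hV _).rs hV one_pos (by omega)).congr fun i j _ => ?_)
  simp only [up, Ps.Dat.x, one_mul, Lay.pos_add, mul_zero, zero_add, Nat.add_eq]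
  split_ifs with h1 h2
  · rw [mul_sum]
    refine sum_congr rfl fun m hm => ?_
    simp only [mem_range.1 hm, if_true]
    field_simp
    ring
  · exact absurd (show i < 16 * (J / 16 + 1) by omega) h2
  · simp
  · rfl

theorem gC_le {S : ℕ → ℕ → ℝ} {r : ℝ} {H : MT} {D : Ps.Dat} {b s : ℕ} (hP : F.P.Pos)
    (h : Rep F.P.W J H (up J fun i j => r * g i j))
    (h' : Rep F.P.W J (sq D F.P.W J b y) (up J fun i j => 2 ^ s * S i j))
    (k : trc F.P.W J B (tm F.P J J (J / 16 + 1) (fx F.P J (J / 16 + 1) F.s2 F.a4 H)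
      (sq D F.P.W J b y)) = true) :
    r * 2 ^ s / 2 ^ F.s2 * ∑ i ∈ range J, ∑ j ∈ range J, g i j * S i j ≤ B := by
  refine le_of_eq_of_le ?_ (trc_sound (rep_tm hP (rep_fx hP h _ _ _) h' _) k)
  rw [sum_comm, mul_sum]
  refine sum_congr rfl fun j hj => ?_
  rw [up, if_pos (mem_range.1 hj), mul_sum, ← sum_up (show J ≤ 16 * (J / 16 + 1) by omega)]
  refine sum_congr rfl fun i hi => ?_
  simp only [up, if_pos (mem_range.1 hi)]
  split_ifs
  · ring
  · simp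

theorem gC_comm (U V : Vc) : gC U V = gC V U := by
  simp only [gC, ip, dot_sm, dot_comm (curl U)]

theorem cchk_sound {D : Ps.Dat} (hD : D.Ok) (hb : D.Am.Has (k + 1) y) (hJ : J ≤ D.Am.J (k + 1) y)
    (h : cchk F D B J k y = true) : ∑ i ∈ range J, ∑ j ∈ range J,
      gC (thF y k (gQ F.A k k i)) (thF y k (gQ F.A k k j)) * ∑ n ∈ range (16 * D.c1),
        D.x n (D.Am.pos (k + 1) y i) * D.x n (D.Am.pos (k + 1) y j) ≤ B := by
  simp only [cchk, strict_eq, bnd_iff, cnd_eq, Nat.beq_eq, Nat.ble_eq, Nat.add_eq, Nat.mul_eq] at h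
  obtain ⟨⟨h0, hV⟩, h⟩ := h
  obtain ⟨h1, -, h3, -, -⟩ := ok_iff h0
  have hT := rep_ldT (k := k) (J := J) h0
  have hs := fun j => sp_tv (k := k) (j := j) h3
  have hq := rep_sq (W := F.P.W) hD hV hb hJ
  have s2 : 1.41421 < √2 ∧ √2 < 1.41422 :=
    ⟨Real.lt_sqrt_of_sq_lt (by norm_num), (Real.sqrt_lt' (by norm_num)).2 (by norm_num)⟩
  have p2 := Real.pi_lt_d4
  have p0 := Real.pi_pos
  split_ifs at h with c
  · subst c
    have hU := rep_bW (a := 7) h1 hT hs (by norm_num)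
    have t := gC_le (r := (2 ^ (F.u + F.A.z + F.t) / 4 ^ (k + k)) ^ 2 / π) (g := fun i j =>
      Jw (2 * k + 2) 0 (gS (2 * k + 2) (16 * F.c) (wC 0 (2 * k + 1) (16 * F.c) (tv F.A k i)) *
        gS (2 * k + 2) (16 * F.c) (wC 0 (2 * k + 1) (16 * F.c) (tv F.A k j)))) h1
      ((rep_tm h1 hU (rep_bN h1 hU) _).congr fun i j _ => by
        simp only [up, Jw_gS_zero (show 1 ≤ 2 * k + 2 by omega), wC, if_true, mul_sum, Cn, Mn,
          Nat.cast_ofNat]
        refine if_congr Iff.rfl (sum_congr rfl fun m hm => ?_) rfl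
        rw [if_pos (mem_range.1 hm)]
        field_simp) hq h
    simp only [gQ_eq h3, gC_zero (hs _) (hs _), mul_assoc, ← mul_sum]
    generalize ∑ i ∈ range J, ∑ j ∈ range J, Jw _ _ _ * _ = S at t ⊢
    have := thr_le (κ := 9 * π ^ 2 / (32 * √2)) (r := 1) (S := S / (π * 2 ^ (4 * k))) (by omega)
      (by positivity) zero_le_one (by
        rw [div_le_iff₀ (by positivity)]
        push_cast
        nlinarith) (le_of_eq_of_le (by
        simp only [Cf.e, Nat.add_eq, Nat.mul_eq, show (4 : ℝ) = 2 ^ 2 by norm_num, ← pow_mul,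
          div_pow]
        field_simp
        ring) t)
    have e := rr_sq 0 (2 * k + 2) 0
    rw [if_pos rfl, Real.rpow_zero, add_zero, show (2 * (2 * k + 2 : ℕ) + 3 / 2 : ℝ) =
      (4 * k + 5 : ℕ) + 1 / 2 by push_cast; ring, Real.rpow_add two_pos, Real.rpow_natCast,
      ← Real.sqrt_eq_rpow, ← eq_div_iff (by positivity)] at e
    rw [e, nT]
    refine le_of_eq_of_le ?_ (this.trans_eq (one_mul _))
    push_cast
    field_simp
    ring
  · have t := gC_le h1 (rep_qf h0 hT (tv_zero _ _) (rep_bW (a := 1) h1 hT hs (by norm_num))) hq h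
    rw [kap_sq, div_mul_eq_mul_div (2 ^ _), div_div, ← pow_add, ← pow_add, add_right_comm] at t
    have := thr_le (κ := 36 * π / √2) (r := 1) (by omega) (by positivity) zero_le_one (by
      rw [div_le_iff₀ (by positivity)]
      push_cast
      nlinarith) t
    have e := rr_sq y (2 * k + 2) (-(1 / 2))
    rw [if_neg c, Real.rpow_neg zero_le_two, ← Real.sqrt_eq_rpow] at e
    refine le_of_eq_of_le ?_ (this.trans_eq (one_mul _))
    simp only [mul_sum]
    refine sum_congr rfl fun i _ => sum_congr rfl fun j _ => ?_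
    rw [gC_comm, gQ_eq (j := j) h3, gC_one c (hs j), gQ_eq h3, show (-2 : ℝ) = (4 : ℕ) / 4 - 3 by
      norm_num, Jw_Jt, show ((8 * (2 * k + 2) + 4 : ℕ) / 4 : ℝ) = 2 * (2 * k + 2 : ℕ) + 3 / 2
        + -(1 / 2) by push_cast; ring, mul_left_comm, ← mul_assoc (rr _ _ ^ 2), e, nT, wC, if_neg c,
      show 4 * (2 * k + 1 + 1) + 7 + (8 * k + 5) = 8 * (2 * k + 2) + 4 by ring, Nat.cast_one]
    ring

variable {A : Lay} {F : ℕ → ℕ → Cf} {f : ℕ → ℕ → ℕ → Bool}

theorem blk_spec {b : ℕ} (hb : A.Has b y) (h : blk A f (2 * (b - A.b0) + y) = true)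
    (hJ : A.J b y ≠ 0) : f b y (A.J b y) = true := by
  obtain ⟨h1, -, h2⟩ := hb
  have e1 : Nat.add A.b0 (Nat.div (2 * (b - A.b0) + y) 2) = b := by
    change A.b0 + (2 * (b - A.b0) + y) / 2 = b
    omega
  have e2 : Nat.mod (2 * (b - A.b0) + y) 2 = y := by
    change (2 * (b - A.b0) + y) % 2 = y
    omega
  simpa only [blk, strict_eq, e1, e2, cnd_eq, Nat.beq_eq, if_neg hJ] using h

theorem blk_lt {b : ℕ} (hb : A.Has b y) : 2 * (b - A.b0) + y < 2 * A.nq := by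
  obtain ⟨_, _, _⟩ := hb
  omega

theorem th_th0 (h : 1 ≤ A.b0) (C : ℕ → ℕ → KRad.Cm) : Th A (th0 C) :=
  fun _ _ hb => ⟨h.trans hb.1, fun _ _ => ⟨_, rfl⟩⟩

/-- The Gram matrix of the functionals. -/
theorem gram_of (h0 : 1 ≤ A.b0) (h : All (gJ A F G) (2 * A.nq)) (t : Fin A.N → ℝ) :
    nw (Op (-1)) (lc t fun a => th0 (fun b c => (F b c).A) (A.mem a)) ≤ G / 10 ^ 9 * ∑ a, t a ^ 2 := by
  refine (th_th0 h0 _).gram (fun b c hb i hi => ?_) t
  have k := blk_spec (f := fun b y J => gchk (F b y) G J (b - 1) y) hb (h _ (blk_lt hb)) (by omega)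
  simp only [th0, thQ]
  exact gchk_sound k hi

/-- The hypothesis `hc` of `Obj.Ok.l1`. -/
theorem hc {O : Obj} {B : List ℕ} {Cc : ℕ} (h0 : 1 ≤ O.D.Ah.b0)
    (hθ : O.θ = th0 fun b c => (F b c).A)
    (sy : ∀ i < 2, ∀ b < O.NF, O.D.x (2 + i) (O.D.lo b) = O.D.z i b)
    (h : All (cJ O.D F B) (2 * O.D.Ah.nq))
    (hB : Nat.ble (KRad.sumF (lget B) (2 * O.D.Ah.nq)) (Cc ^ 2) = true) :
    ∑ a, nw (Op (-1 / 2)) (curl (O.L.θF a)) + ∑ a, nw (Op (-1 / 2)) (curl (O.L.θZ a))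
      ≤ (Cc : ℝ) ^ 2 := by
  refine hc_of (B := fun i => lget B i) (hθ ▸ th_th0 h0 _) sy (fun b c hb => ?_) ?_
  · rcases eq_or_ne (O.D.Ah.J b c) 0 with e | e
    · simp [e]
    · obtain ⟨k, rfl⟩ := Nat.exists_eq_add_of_le' (h0.trans hb.1)
      rw [hθ]
      exact cchk_sound (F := F (k + 1) c) (k := k) O.ok (O.ok.has _ _ hb).1 (O.ok.has _ _ hb).2
        (blk_spec (f := fun b y J => cchk (F b y) O.D _ J (b - 1) y) hb (h _ (blk_lt hb)) e)
  · have := Nat.le_of_ble_eq_true hB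
    rw [KRad.sumF_eq] at this
    exact_mod_cast this

end Pool.Agent.Work.MP_6bf1e5_an.H.Tg
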