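import Pool.Agent.Work.MP_6bf1e5_an.H.Top
import Pool.Agent.Work.MP_6bf1e5_an.H.PassTl
import Pool.Agent.Work.MP_6bf1e5_an.H.PassN
import Pool.Agent.Work.MP_6bf1e5_an.H.PwZ

/-! The results of the passes in the form in which the checks give them (owner helper56). -/

open Finset MeasureTheory

namespace Pool.Agent.Work.MP_6bf1e5_an.H.Ca.Fd

open Gl Ps Pz Jf Lt.Dat Fs

variable {F : Fd} {t : HatT}

theorem rs {μ μ' kp c η1 η2 η3 η4 η5 : ℝ}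
    (e : μ = 123 / 2 ^ 14 ∧ μ' = 5 / 2 ^ 14 ∧ kp = t.kp ∧ c = t.c1)
    (le : η1 ≤ t.eP ∧ η2 ≤ t.eU ∧ η3 ≤ t.eZ ∧ η4 ≤ t.eL ∧ η5 ≤ t.eY ∧ 256 / (F.n0 + 1) ≤ t.b)
    (s1 : ∀ a < F.D.Ah.N, ∀ j < F.D.Am.N, F.D.x (16 + a) j = sp F.D (F.D.f a) j)
    (s2 : ∀ j < F.D.Am.N, (∀ i < 2, F.D.x (2 + i) j = sp F.D (F.D.z i) j) ∧
      ∀ a, F.D.Ah.N ≤ a → 16 + a < 16 * F.D.c1 → F.D.x (16 + a) j = 0)
    (zt : Spec F.D F.D.tp (fun _ _ => 0) F.D.At.N η1)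
    (zu : Spec F.D F.D.u (fun _ _ => 0) F.D.Ah.N η2)
    (zk : ∀ i < 2, ∀ j < F.D.Am.N,
      |2 * μ' * ∑ a ∈ range F.D.Ah.N, F.D.z i a * F.D.k (16 + a) j + F.D.x i j| ≤ η3)
    (zl : Spec F.D F.D.la (fun i j => if i < 2 then kp * μ * F.D.x (2 + i) j
      + kp / (4 * μ') * F.D.x i j else if i < 4 then -(2 * kp * μ) * F.D.x i j else 0) F.D.Am.N η4)
    (vy : ∀ d : ℕ × ℕ × ℕ, F.As.Has d.1 d.2.1 ∧ d.2.2 < F.As.J d.1 d.2.1 → ∀ j < F.D.Am.N,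
      |vyE F.D F.As F.β μ c 256 d j| ≤ η5)
    (tp : ∀ a < F.D.Ah.N, ∀ r < F.D.At.N, |pr6 (sets 0).1 (xT (th0 F.Th (F.D.Ah.mem a)))
      (F.O.x (F.D.At.mem r)) - F.D.tp (16 + a) r| ≤ t.eP)
    (t0 : ∀ j < F.D.Am.N, ∀ r < F.D.At.N, |pr6 (sets 1).1 (xU (uD (xi0 F.Md) (F.D.Am.mem j)))
      (F.O.x (F.D.At.mem r)) + ∑ h ∈ range (16 * F.D.c1), F.D.x h j * F.D.tp h r - F.D.th r j|
        ≤ t.eT)
    (pp : ∀ a < F.D.Ah.N, ∀ b < F.D.Ah.N, |wo F.D.Ah.pan a b * pr6 (sets 3).1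
      (xT (th0 F.Th (F.D.Ah.mem a))) (xT (th0 F.Th (F.D.Ah.mem b))) - F.D.u (16 + a) b| ≤ t.eU)
    (kk : ∀ a < F.D.Ah.N, ∀ j < F.D.Am.N, |pr6 (sets 4).1 (xT (th0 F.Th (F.D.Ah.mem a)))
      (xU (uD (xi0 F.Md) (F.D.Am.mem j))) + 1 / 64 * ip (LamV (curl (uD (xi0 F.Md) (F.D.Am.mem j))))
        (th0 F.Th (F.D.Ah.mem a)) - F.D.k (16 + a) j| ≤ t.eK)
    (ll : ∀ a < F.D.Ah.N, ∀ j < F.D.Am.N, |kp * F.D.k (16 + a) j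
      - kp * μ * (if F.D.lo a = j then 1 else 0) - 2 * pr6 (sets 5).1
        (xT (th0 F.Th (F.D.Ah.mem a))) (xU (uD (xi0 F.Md) (F.D.Am.mem j)))
      - ∑ h ∈ range (16 * F.D.c1), F.D.u h a * F.D.x h j - F.D.la (16 + a) j| ≤ t.eL)
    (hk : t.kp = 795 / 256)
    (mm : ∀ j < F.D.Am.N, ∀ k < F.D.Am.N, (F.D.Am.mem j).1 ≤ (F.D.Am.mem k).1 →
      |pr6 (sets 6).1 (xU (uD (xi0 F.Md) (F.D.Am.mem j))) (xU (uD (xi0 F.Md) (F.D.Am.mem k)))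
      + t.kp * (1 / 64) * ((mD 64 (F.O.gr (F.D.Am.mem j)) (F.O.gr (F.D.Am.mem k))
        + mD 64 (F.O.gr (F.D.Am.mem k)) (F.O.gr (F.D.Am.mem j))) / 2)
      + t.ρ * ∑ r ∈ range F.D.At.N, F.D.th r j * F.D.th r k
      + (∑ h ∈ range (16 * F.D.c1), F.D.x h j * F.D.la h k
        + ∑ h ∈ range (16 * F.D.c1), F.D.la h j * F.D.x h k) / 2
      - ∑ r ∈ range (16 * F.D.cR F.D.nm), F.D.r r j * F.D.r r k - if j = k then t.sh else 0|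
        ≤ t.eM)
    (z1 : ∀ i < 2, ∑ a ∈ range F.D.Ah.N, |F.D.z i a| ≤ t.z1)
    (x1 : 0 ≤ t.x1 ∧ ∑ j ∈ range F.D.Am.N, (∑ h ∈ range (16 * F.D.c1), |F.D.x h j|
      + t.z1 * ∑ i ∈ range 2, |F.D.x i j|) ^ 2 ≤ t.x1 ^ 2)
    (nF : Nm (fun a b : Fin F.D.Ah.N => F.D.f a b) t.f)
    (nZ : Nm (fun (i : Fin 2) (a : Fin F.D.Ah.N) => F.D.z i a) t.nZ)
    (nK : Nm (fun (a : Fin F.D.Ah.N) (j : Fin F.D.Am.N) => F.D.k (16 + a) j) t.nK)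
    (nU : Nm (fun a b : Fin F.D.Ah.N => F.D.u (16 + a) b) t.nU)
    (hG : Nm (fun (a : Fin F.D.Ah.N) (j : Fin F.D.Am.N) => mom (th0 F.Th (F.D.Ah.mem a))
      (uD (xi0 F.Md) (F.D.Am.mem j)) - sel F.D.lo a j) t.dG) : F.O.Rs t := by
  obtain ⟨rfl, rfl, rfl, rfl⟩ := e
  obtain ⟨l1, l2, l3, l4, l5, l6⟩ := le
  refine ⟨sy1_of s1, (sy23_of F.ok s2).1, (sy23_of F.ok s2).2, tp,
    fun i hi r hr => (zt.zero.1 i hi r hr).trans l1,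
    fun h a b c r hr => (zt.zero.2 h a b c r hr).trans l1, t0, pp,
    fun i hi r hr => (zu.zero.1 i hi r hr).trans l2,
    fun h a b c r hr => (zu.zero.2 h a b c r hr).trans l2, kk, ll,
    fun i hi j hj => (zk i hi j hj).trans l3, fun i hi j hj => (zl.la.1 i hi j hj).trans l4,
    fun i hi j hj => (zl.la.2.1 i hi j hj).trans l4,
    fun h a b c j hj => (zl.la.2.2 h a b c j hj).trans l4, fun d hd j hj => ?_,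
    fun j hj k hk' o => ?_, z1, x1, nF, nZ, nK, nU, ⟨le_trans (by positivity) l6, fun d hd => ?_⟩,
    hG⟩
  · rw [bs_eq]
    exact (vy d hd j hj).trans l5
  · have := mm j hj k hk' o
    rw [Obj.Q, hk]
    rw [hk] at this
    exact this
  · rw [bs_eq]
    exact (nb_all F.asz (by norm_num) hd).trans l6

end Pool.Agent.Work.MP_6bf1e5_an.H.Ca.Fd
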