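import Pool.Agent.Work.MP_6bf1e5_an.H.ExDefs
import Pool.Agent.Work.MP_6bf1e5_an.H.DynUq

/-!
Maximal orbits in the self-similar variables.
Hints. rsol': copy the proof of PSol.rsol (T > 0 because 0 < 1 - exp (-S)). RSol.mono: ContDiffOn.mono. orb: psol_of_fsol
and rsol'; gw_resc turns the bound for the orbit into the bound exp (4 / 3 S) |K| in physical time (t = 1 - exp (-s),
s = -log (1 - t)); equivariance as in exists_orbit (PSol.rot, resc_rot, rot_eq_iff, RSol.uniq). all: let T be the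
supremum of the closed set {T ∈ Icc 0 S | ∀ T' ∈ Ioo 0 T, T' ∈ J}; Orb.cont at T gives T + ε ∈ J, so T = S.
riccati': copy riccati (the same δ works for S' ≤ S).
-/

open scoped ContDiff ENNReal FourierTransform Real
open Set MeasureTheory

namespace Pool.Agent.Work.MP_6bf1e5_an.H.Dyn

variable {ν T S : ℝ} {u : ℝ → Vc} {p : ℝ → Sc} {V : ℝ → Vc}

theorem UpOrb_mono {s s' : ℝ} (h : s ≤ s') : 1 - Real.exp (-s) ≤ 1 - Real.exp (-s') :=
  sub_le_sub_left (Real.exp_le_exp.2 (neg_le_neg h)) 1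

theorem PSol.rsol' (h : PSol ν T u p) (hS : 0 < S) (hT : 1 - Real.exp (-S) ≤ T) :
    RSol ν S (resc u) := by
  have hT0 : 0 < T := (DynRS_memo hS).1.trans_le hT
  have hm : ∀ s ∈ Icc 0 S, 1 - Real.exp (-s) ∈ Icc (0 : ℝ) T := fun s hs =>
    ⟨(DynRS_mem hs.1).1, (UpOrb_mono hs.2).trans hT⟩
  have hmo : ∀ s ∈ Ioo 0 S, 1 - Real.exp (-s) ∈ Ioo (0 : ℝ) T := fun s hs =>
    ⟨(DynRS_memo hs.1).1, (sub_lt_sub_left (Real.exp_lt_exp.2 (neg_lt_neg hs.2)) 1).trans_le hT⟩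
  have hh : ∀ s ∈ Icc 0 S, ∀ i, Hinf (u (1 - Real.exp (-s)) i) := fun s hs i =>
    (h.ub i).1 _ (hm s hs)
  refine ⟨fun i => ?_, fun i => ?_, fun s hs y => ?_, fun s hs i y => ?_⟩
  · exact JS.resc (h.js i) (a := fun s => Real.exp (-(s / 3)))
      (c := fun s => Real.exp (-(2 / 3 * s))) (τ := fun s => 1 - Real.exp (-s))
      (by fun_prop) (by fun_prop) (by fun_prop) hm
  · exact UB.resc (h.ub i) (a := fun s => Real.exp (-(s / 3)))
      (c := fun s => Real.exp (-(2 / 3 * s))) (τ := fun s => 1 - Real.exp (-s))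
      (by fun_prop) (by fun_prop) (fun _ => Real.exp_pos _) hm
  · have hs' : ∀ i, ContDiff ℝ ∞ (u (1 - Real.exp (-s)) i) := fun i => (hh s hs i).1
    have sc : ∀ k, ContDiff ℝ ∞ fun y : R3 =>
        u (1 - Real.exp (-s)) k (Real.exp (-(2 / 3 * s)) • y) := fun k =>
      (hs' k).comp (contDiff_const_smul _)
    have hd := h.dv _ (hm s hs) (Real.exp (-(2 / 3 * s)) • y)
    have key : ∀ k, pd k (resc u s k) y = Real.exp (-(s / 3)) * (Real.exp (-(2 / 3 * s)) *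
        pd k (u (1 - Real.exp (-s)) k) (Real.exp (-(2 / 3 * s)) • y)) := by
      intro k
      unfold resc
      rw [pd_cmul (sc k), pd_scale (hs' k)]
    simp only [dvg] at hd ⊢
    simp only [key, ← Finset.mul_sum, hd, mul_zero]
  · have hs' : ∀ i, ContDiff ℝ ∞ (u (1 - Real.exp (-s)) i) := fun i => (hh s (Ioo_subset_Icc_self hs) i).1
    have de : HasDerivAt (fun σ => Real.exp (-σ)) (-Real.exp (-s)) s := by
      simpa using (hasDerivAt_neg s).exp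
    have dτ : HasDerivAt (fun σ => 1 - Real.exp (-σ)) (Real.exp (-s)) s := by
      simpa using de.const_sub 1
    have dc : HasDerivAt (fun σ => Real.exp (-(2 / 3 * σ)))
        (Real.exp (-(2 / 3 * s)) * -(2 / 3)) s := by
      simpa using (((hasDerivAt_id s).const_mul (2 / 3 : ℝ)).neg).exp
    have hc := JS.chain (JS.curl h.js hT0 i) dc dτ (hmo s hs)
      (fun z => h.vort (hmo s hs) i z) y
    have hp := de.mul hc
    have ev : (fun σ => curl (resc u σ) i y) =ᶠ[nhds s] fun σ => Real.exp (-σ) *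
        curl (u (1 - Real.exp (-σ))) i (Real.exp (-(2 / 3 * σ)) • y) := by
      filter_upwards [Icc_mem_nhds hs.1 hs.2] with σ hσ
      rw [curl_resc fun i => (hh σ hσ i).1]
    refine (hp.congr_of_eventuallyEq ev).congr_deriv ?_
    rw [GG_resc (hh s (Ioo_subset_Icc_self hs)), curl_resc hs', DynRS_yd_sc (curl_smooth hs' i)]
    ring

theorem RSol.mono (h : RSol ν S V) {S' : ℝ} (h' : S' ≤ S) : RSol ν S' V := by
  have k : Icc 0 S' ⊆ Icc 0 S := Icc_subset_Icc_right h'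
  refine ⟨fun i => ContDiffOn.mono (h.js i) (prod_mono subset_rfl k),
    fun i => ⟨fun s hs => (h.ub i).1 s (k hs), fun l => ?_⟩, fun s hs => h.dv s (k hs),
    fun s hs => h.eq s (Ioo_subset_Ioo_right h' hs)⟩
  obtain ⟨C, hC⟩ := (h.ub i).2 l
  exact ⟨C, fun s hs => hC s (k hs)⟩

theorem gw_resc {s : ℝ} (h : ∀ i, Hinf (u (1 - Real.exp (-s)) i)) :
    gw 1 (curl (u (1 - Real.exp (-s)))) = Real.exp (4 / 3 * s) * gw 1 (curl (resc u s)) := by
  have hs : ∀ i, ContDiff ℝ ∞ (u (1 - Real.exp (-s)) i) := fun i => (h i).1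
  have hc : 0 < Real.exp (-(2 / 3 * s)) := Real.exp_pos _
  have e1 : ∀ i j y, pd j (curl (resc u s) i) y = Real.exp (-s) * (Real.exp (-(2 / 3 * s)) *
      pd j (curl (u (1 - Real.exp (-s))) i) (Real.exp (-(2 / 3 * s)) • y)) := fun i j y => by
    have sc : ContDiff ℝ ∞ fun y : R3 =>
        curl (u (1 - Real.exp (-s))) i (Real.exp (-(2 / 3 * s)) • y) :=
      (curl_smooth hs i).comp (contDiff_const_smul _)
    rw [curl_resc hs, pd_cmul sc, pd_scale (curl_smooth hs i)]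
  have e2 : gw 1 (curl (resc u s)) = (Real.exp (-s) * Real.exp (-(2 / 3 * s))) ^ 2 *
      ((Real.exp (-(2 / 3 * s)) ^ 3)⁻¹ * gw 1 (curl (u (1 - Real.exp (-s))))) := by
    unfold gw
    rw [← int_scale _ hc, ← integral_const_mul]
    congr 1
    funext y
    simp only [e1, Pi.one_apply, Fin.sum_univ_three]
    ring
  have e3 : Real.exp (4 / 3 * s) * ((Real.exp (-s) * Real.exp (-(2 / 3 * s))) ^ 2 *
      (Real.exp (-(2 / 3 * s)) ^ 3)⁻¹) = 1 := by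
    rw [← Real.exp_add, ← Real.exp_nat_mul, ← Real.exp_nat_mul, ← Real.exp_neg, ← Real.exp_add,
      ← Real.exp_add, Real.exp_eq_one_iff]
    push_cast
    ring
  rw [e2, ← mul_assoc, ← mul_assoc, mul_assoc (Real.exp (4 / 3 * s)), e3, one_mul]

theorem orb_of_max (hν : 0 < ν) {B : Vc} (hB : Bg B) {I : Set ℝ} {w : R3 → ℝ → R3}
    {q : R3 → ℝ → ℝ} {U : ℝ → Fin 3 → R3 → ℂ} (h : MaxS ν B I w q U) :
    Orb ν B (lf I) (resc (cmp w)) := by
  have hP : ∀ T ∈ I, PSol ν T (cmp w) fun t y => q y t := fun T hT => psol_of_fsol (h.sol T hT).2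
  have h0 : resc (cmp w) 0 = B := by
    obtain ⟨ε, -, hε⟩ := h.cont 0 le_rfl 0 fun T' hT' => absurd hT'.2 hT'.1.not_gt
    rw [resc_zero]
    funext i y
    unfold cmp
    rw [(h.sol _ hε).2.initial y]
    rfl
  have key : ∀ M : Matrix (Fin 3) (Fin 3) ℝ, M.transpose * M = 1 → EqM M B →
      ∀ S ∈ lf I, ∀ s ∈ Icc 0 S, EqM M (resc (cmp w) s) := by
    intro M hM hE S hS s hs
    have h1 := ((hP _ hS.2).rsol' hS.1 le_rfl).uniq (((hP _ hS.2).rot hM).rsol' hS.1 le_rfl) hν hS.1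
      (by rw [resc_rot, h0]; exact (rot_eq_iff hM B).2 hE) s hs
    rw [resc_rot] at h1
    exact (rot_eq_iff hM _).1 h1
  refine ⟨fun S hS => ⟨hS.1, (hP _ hS.2).rsol' hS.1 le_rfl⟩, fun S hS S' h1 h2 =>
    ⟨h1, h.down _ hS.2 _ (DynRS_memo h1).1 (UpOrb_mono h2)⟩, fun S hS K hK => ?_, h0,
    fun S hS s hs => ⟨fun θ => key _ (rotM_orth θ) (hB.eqv.1 θ) S hS s hs,
      key _ flpM_orth hB.eqv.2 S hS s hs⟩⟩
  have hl : ∀ t < 1, 1 - Real.exp (- -Real.log (1 - t)) = t := fun t ht => by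
    rw [neg_neg, Real.exp_log (sub_pos.2 ht), sub_sub_cancel]
  have hS1 := Real.exp_pos (-S)
  obtain ⟨ε, hε, hI⟩ := h.cont (1 - Real.exp (-S)) (DynRS_mem hS).1 (Real.exp (4 / 3 * S) * |K|)
    fun T' hT' => by
      have a1 : T' < 1 := by linarith [hT'.2]
      have a2 : -Real.log (1 - T') < S := by
        rw [neg_lt, Real.lt_log_iff_exp_lt (sub_pos.2 a1)]
        linarith [hT'.2]
      obtain ⟨b1, b2⟩ := hK (-Real.log (1 - T'))
        ⟨neg_pos.2 (Real.log_neg (sub_pos.2 a1) (by linarith [hT'.1])), a2⟩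
      have b3 : T' ∈ I := hl T' a1 ▸ b1.2
      refine ⟨b3, fun t ht => ?_⟩
      have a3 : t < 1 := ht.2.trans_lt a1
      have a4 : -Real.log (1 - t) ≤ -Real.log (1 - T') :=
        neg_le_neg (Real.log_le_log (sub_pos.2 a1) (by linarith [ht.2]))
      have b4 := b2 (-Real.log (1 - t))
        ⟨neg_nonneg.2 (Real.log_nonpos (sub_pos.2 a3).le (by linarith [ht.1])), a4⟩
      have b5 := gw_resc (u := cmp w) (s := -Real.log (1 - t))
        (by rw [hl t a3]; exact fun i => ((hP _ b3).ub i).1 t ht)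
      rw [hl t a3] at b5
      rw [b5]
      exact mul_le_mul (Real.exp_le_exp.2 (by linarith)) (b4.trans (le_abs_self K))
        (DynStA_gw _) (Real.exp_pos _).le
  have c0 : 0 < S + ε := by linarith
  refine ⟨ε, hε, c0, h.down _ hI _ (DynRS_memo c0).1 ?_⟩
  have c1 := Real.add_one_le_exp (-ε)
  have c2 := (DynRS_mem hS).1
  rw [neg_add, Real.exp_add]
  nlinarith

theorem Orb.all {B : Vc} {J : Set ℝ} (h : Orb ν B J V) (hS : 0 < S) {K : ℝ}
    (hK : ∀ S' ∈ J, S' ≤ S → ∀ s ∈ Icc 0 S', gw 1 (curl (V s)) ≤ K) : S ∈ J := by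
  have hb : BddAbove {T ∈ Icc 0 S | ∀ T' ∈ Ioo 0 T, T' ∈ J} := ⟨S, fun T hT => hT.1.2⟩
  have h0 : (0 : ℝ) ∈ {T ∈ Icc 0 S | ∀ T' ∈ Ioo 0 T, T' ∈ J} :=
    ⟨⟨le_rfl, hS.le⟩, fun T' hT' => absurd hT'.2 hT'.1.not_gt⟩
  obtain ⟨ε, hε, hJ⟩ := h.cont (sSup {T ∈ Icc 0 S | ∀ T' ∈ Ioo 0 T, T' ∈ J}) (le_csSup hb h0) K
    fun S' hS' => by
      obtain ⟨T, hT, h1⟩ := exists_lt_of_lt_csSup ⟨0, h0⟩ hS'.2
      have h2 := hT.2 S' ⟨hS'.1, h1⟩
      exact ⟨h2, hK S' h2 (h1.le.trans hT.1.2)⟩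
  refine h.down _ hJ S hS (not_lt.1 fun hlt => ?_)
  have := le_csSup hb (a := sSup {T ∈ Icc 0 S | ∀ T' ∈ Ioo 0 T, T' ∈ J} + ε)
    ⟨⟨(h.sol _ hJ).1.le, hlt.le⟩, fun T' hT' => h.down _ hJ T' hT'.1 hT'.2.le⟩
  linarith

theorem riccati' (C : ℝ) (S : ℝ) {ε : ℝ} (hε : 0 < ε) : ∃ δ > 0, ∀ S' ∈ Icc 0 S, ∀ Z z : ℝ → ℝ,
    IDer S' Z z → (∀ s ∈ Icc 0 S', 0 ≤ Z s ∧ z s ≤ C * (Z s + Z s ^ 2)) → Z 0 ≤ δ →
    ∀ s ∈ Icc 0 S', Z s ≤ ε := by
  have hη : 0 < min ε (1 / 2) := lt_min hε (by norm_num)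
  refine ⟨min ε (1 / 2) * Real.exp (-(2 * |C|) * S), by positivity,
    fun S' hS' Z z hZ hz h0 => ?_⟩
  have hS := hS'.1
  have hE : IDer S' (fun s => Real.exp (-(2 * |C|) * s))
      fun s => Real.exp (-(2 * |C|) * s) * (-(2 * |C|)) := by
    refine IDer.of_deriv hS (fun s => ?_) (by fun_prop)
    have := ((hasDerivAt_id s).const_mul (-(2 * |C|))).exp
    simpa using this
  have hW := hE.mul hZ hS
  have key : ∀ t ∈ Icc 0 S', (∀ σ ∈ Ioo 0 t, Z σ ≤ 1) → Z t ≤ min ε (1 / 2) := by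
    intro t ht h1
    have h2 := hW.le_of_le (b := 0) le_rfl ht.1 ht.2 fun σ hσ => by
      obtain ⟨a1, a2⟩ := hz σ ⟨hσ.1.le, hσ.2.le.trans ht.2⟩
      have a3 := h1 σ hσ
      have a4 : C * (Z σ + Z σ ^ 2) ≤ |C| * (Z σ + Z σ ^ 2) :=
        mul_le_mul_of_nonneg_right (le_abs_self C) (by positivity)
      have a5 : |C| * (Z σ + Z σ ^ 2) ≤ |C| * (2 * Z σ) :=
        mul_le_mul_of_nonneg_left (by nlinarith) (abs_nonneg C)
      have a6 : 0 < Real.exp (-(2 * |C|) * σ) := Real.exp_pos _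
      have a7 : z σ - 2 * |C| * Z σ ≤ 0 := by linarith
      have a8 := mul_nonpos_of_nonneg_of_nonpos a6.le a7
      show Real.exp (-(2 * |C|) * σ) * (-(2 * |C|)) * Z σ + Real.exp (-(2 * |C|) * σ) * z σ ≤ 0
      linarith
    simp only [mul_zero, Real.exp_zero, one_mul, zero_mul, add_zero] at h2
    have h3 : Real.exp (-(2 * |C|) * S) ≤ Real.exp (-(2 * |C|) * t) := by
      apply Real.exp_le_exp.2
      have := abs_nonneg C
      nlinarith [ht.2.trans hS'.2]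
    have h4 : Real.exp (-(2 * |C|) * t) * Z t ≤ Real.exp (-(2 * |C|) * t) * min ε (1 / 2) := by
      have := mul_le_mul_of_nonneg_left h3 hη.le
      linarith
    exact le_of_mul_le_mul_left h4 (Real.exp_pos _)
  have hlt : ∀ σ ∈ Icc 0 S', Z σ ≤ 1 := by
    by_contra hcon
    push Not at hcon
    obtain ⟨σ0, hσ0, hgt⟩ := hcon
    have hcl : IsClosed (Icc 0 S' ∩ Z ⁻¹' Ici 1) :=
      (hZ.contOn hS).preimage_isClosed_of_isClosed isClosed_Icc isClosed_Ici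
    have hcp : IsCompact (Icc 0 S' ∩ Z ⁻¹' Ici 1) :=
      isCompact_Icc.of_isClosed_subset hcl inter_subset_left
    obtain ⟨t, ht, hmin⟩ := hcp.exists_isLeast ⟨σ0, hσ0, hgt.le⟩
    have h1 := key t ht.1 fun σ hσ => by
      by_contra hlt
      exact absurd (hmin ⟨⟨hσ.1.le, hσ.2.le.trans ht.1.2⟩, (not_le.1 hlt).le⟩) (not_le.2 hσ.2)
    have h2 : (1 : ℝ) ≤ Z t := ht.2
    have h3 : min ε (1 / 2) ≤ 1 / 2 := min_le_right _ _
    linarith
  intro s hs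
  exact (key s hs fun σ hσ => hlt σ ⟨hσ.1.le, hσ.2.le.trans hs.2⟩).trans (min_le_left _ _)

theorem RSol.stab' (h : RSol ν S V) (hν : 0 < ν) {ε : ℝ} (hε : 0 < ε) : ∃ δ > 0,
    ∀ S', 0 < S' → S' ≤ S → ∀ V' : ℝ → Vc, RSol ν S' V' → ZZ (V' 0 - V 0) ≤ δ →
      ∀ s ∈ Icc 0 S', ZZ (V' s - V s) ≤ ε := by
  obtain ⟨K, hK⟩ := UB.bd h.ub
  obtain ⟨C, hC⟩ := stab_static hν K
  obtain ⟨δ, hδ, hr⟩ := riccati' C S hε
  refine ⟨δ, hδ, fun S' hS hS' W h' h0 => ?_⟩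
  have h1 := h.mono hS'
  have he := h1.evo_diff h' hS
  refine hr S' ⟨hS.le, hS'⟩ (fun s => ZZ (W s - V s))
    (fun s => dZZ (GG ν (W s) - GG ν (V s)) (curl (W s - V s)))
    ((he.ider_one hS).add (he.ider_gw hS) hS.le) (fun s hs => ⟨ZZ_nonneg _, ?_⟩) h0
  exact hC (V s) (W s) (fun i => (h1.ub i).1 s hs) (fun i => (h'.ub i).1 s hs) (h1.dv s hs)
    (h'.dv s hs) (hK s ⟨hs.1, hs.2.trans hS'⟩)

theorem gw_tri {a b : Vc} (ha : ∀ i, Hinf (a i)) (hb : ∀ i, Hinf (b i)) :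
    gw 1 (curl a) ≤ 2 * gw 1 (curl (a - b)) + 2 * gw 1 (curl b) := by
  have hd := hinf_curl (DynCt_hsub hb ha)
  have h1 : ∀ i j : Fin 3, ∫ y, pd j (curl a i) y ^ 2 ≤
      2 * (∫ y, pd j (curl (a - b) i) y ^ 2) + 2 * ∫ y, pd j (curl b i) y ^ 2 := fun i j => by
    have e : curl a i = fun y => curl (a - b) i y + curl b i y := by
      rw [curl_sub (fun i => (ha i).1) fun i => (hb i).1]
      funext y
      simp
    rw [e, pd_add (hd i).1 (hinf_curl hb i).1]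
    exact DynUB_sq_add ((hd i).pd j) ((hinf_curl hb i).pd j)
  rw [gw_one (hinf_curl ha), gw_one hd, gw_one (hinf_curl hb)]
  simp only [Fin.sum_univ_three]
  linarith [h1 0 0, h1 0 1, h1 0 2, h1 1 0, h1 1 1, h1 1 2, h1 2 0, h1 2 1, h1 2 2]

/-- Nearby data have solutions on the same interval, and these stay close. -/
theorem Orb.near (h : RSol ν S V) (hν : 0 < ν) (hS : 0 < S) {ε : ℝ} (hε : 0 < ε) : ∃ δ > 0,
    ∀ (B' : Vc) (J' : Set ℝ) (V' : ℝ → Vc), Orb ν B' J' V' → ZZ (B' - V 0) ≤ δ →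
      S ∈ J' ∧ ∀ s ∈ Icc 0 S, ZZ (V' s - V s) ≤ ε := by
  obtain ⟨δ, hδ, hs⟩ := h.stab' hν hε
  obtain ⟨K, hK⟩ := UB.bd h.ub
  obtain ⟨K', hK'⟩ := ZZ_bdd (fun i => (h.ub i).1) hK
  have hg : ∀ W : Vc, gw 1 (curl W) ≤ ZZ W := fun W => le_add_of_nonneg_left (DynStA_nw _)
  refine ⟨δ, hδ, fun B' J' V' hO h0 => ?_⟩
  rw [← hO.init] at h0
  have h1 : S ∈ J' := hO.all hS (K := 2 * ε + 2 * K') fun S' hJ hS' s hs' => by
    obtain ⟨a1, a2⟩ := hO.sol S' hJ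
    have a3 : s ∈ Icc 0 S := ⟨hs'.1, hs'.2.trans hS'⟩
    have := gw_tri (fun i => (a2.ub i).1 s hs') fun i => (h.ub i).1 s a3
    linarith [hg (V' s - V s), hg (V s), hs S' a1 hS' V' a2 h0 s hs', hK' s a3]
  exact ⟨h1, hs S hS le_rfl V' (hO.sol S h1).2 h0⟩

end Pool.Agent.Work.MP_6bf1e5_an.H.Dyn
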