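import Pool.Agent.Work.MP_6bf1e5_an.H.ExDefs
import Pool.Agent.Work.MP_6bf1e5_an.H.DynUq
import Pool.Agent.Work.MP_6bf1e5_an.H.DynSc
import Pool.Agent.Work.MP_6bf1e5_an.H.UpOrb

/-!
Lower bounds near the origin, and the passage to the physical variables.
Hints. low_curl: copy nw_lower; curl B vanishes outside a ball. low_vel: nw Om (curl (V - B)) ≥ nw Om (curl B) -
2 ip (curl V) (sm Om (curl B)), and ip (curl V) Φ = ip V (curl Φ) (ibp) for the compactly supported Φ = sm Om (curl B).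
low: take c with (|C| + 1) c < nw Om (curl B) - rr. blowup_one: the datum is HasCompactSupport.toSchwartzMap of tov B0 as in
exists_orbit; t = 1 - exp (-s), x = exp (-(2 / 3 s)) • y, curl_resc, PiLp.norm_apply_le; energy: nw 1 (cmp u t) =
∫ ‖u x t‖ ^ 2 (EuclideanSpace.norm_sq_eq); no solution on [0, 1]: psol_of_fsol, PSol.rsol, RSol.uniq, PSol.decay.
scale: fsol_scale with a = ν' / ν, and as in blow_scale; Real.mul_rpow.
-/

open scoped ContDiff ENNReal FourierTransform Real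
open Set MeasureTheory

namespace Pool.Agent.Work.MP_6bf1e5_an.H.Dyn

theorem UpLow_pair {W : Vc} (hs : ∀ i, ContDiff ℝ ∞ (W i)) (hc : ∀ i, HasCompactSupport (W i)) :
    ∃ C R : ℝ, ∀ V : Vc, (∀ i, Hinf (V i)) → ∀ η ≥ 0, (∀ i y, ‖y‖ ≤ R → |V i y| ≤ η) →
      ip V W ≤ C * η := by
  have hK : IsCompact (⋃ i, tsupport (W i)) := isCompact_iUnion fun i => (hc i).isCompact
  obtain ⟨R, hR⟩ := hK.isBounded.exists_norm_le
  have hW : ∀ i, Hinf (W i) := fun i => hinf_of_supp (hs i) (hc i)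
  have hi : ∀ i, Integrable (W i) := fun i =>
    (hs i).continuous.integrable_of_hasCompactSupport (hc i)
  refine ⟨∑ i, ∫ y, |W i y|, R, fun V hV η hη hb => ?_⟩
  rw [ip_eq hV hW, Finset.sum_mul]
  refine Finset.sum_le_sum fun i _ => ?_
  rw [← integral_mul_const]
  refine integral_mono (int_mul (hV i) (hW i)) ((hi i).abs.mul_const η) fun y => ?_
  show V i y * W i y ≤ |W i y| * η
  by_cases hy : ‖y‖ ≤ R
  · refine (le_abs_self _).trans ?_
    rw [abs_mul, mul_comm]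
    exact mul_le_mul_of_nonneg_left (hb i y hy) (abs_nonneg _)
  · have : W i y = 0 := image_eq_zero_of_notMem_tsupport fun h =>
      hy (hR y (mem_iUnion.2 ⟨i, h⟩))
    simp [this]

theorem UpLow_supp_curl {W : Vc} (hc : ∀ i, HasCompactSupport (W i)) (i : Fin 3) :
    HasCompactSupport (curl W i) :=
  (DynRS_supp_pd (hc (i + 2)) (i + 1)).sub (DynRS_supp_pd (hc (i + 1)) (i + 2))

theorem UpLow_exp {B V : Vc} (hB : Bg B) (hV : ∀ i, Hinf (V i)) :
    nw Om (curl B) - 2 * ip (curl V) (sm Om (curl B)) ≤ nw Om (curl (V - B)) := by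
  have hB' : ∀ i, Hinf (B i) := bg_hinf hB
  have hN : ∀ a b : Vc, (∀ i, Hinf (a i)) → (∀ i, Hinf (b i)) →
      Integrable fun y => Om y * dot a b y := by
    intro a b ha hb
    unfold dot
    simp only [Finset.mul_sum]
    exact integrable_finsetSum _ fun i _ =>
      int_wmul Om_smooth.continuous DynCt_abs_Om (ha i) (hb i)
  have e : ip (curl V) (sm Om (curl B)) = ∫ y, Om y * dot (curl V) (curl B) y := by
    unfold ip
    refine integral_congr_ae (Filter.Eventually.of_forall fun y => ?_)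
    simp only [dot, sm, Fin.sum_univ_three]
    ring
  have i1 := hN _ _ (hinf_curl hB') (hinf_curl hB')
  have i2 := (hN _ _ (hinf_curl hV) (hinf_curl hB')).const_mul 2
  rw [e]
  unfold nw
  rw [← integral_const_mul, ← integral_sub i1 i2]
  refine integral_mono (i1.sub i2)
    (hN _ _ (hinf_curl (DynCt_hsub hB' hV)) (hinf_curl (DynCt_hsub hB' hV))) fun y => ?_
  rw [curl_sub (fun i => (hV i).1) hB.smooth]
  show Om y * dot (curl B) (curl B) y - 2 * (Om y * dot (curl V) (curl B) y) ≤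
    Om y * dot (curl V - curl B) (curl V - curl B) y
  have h0 : 0 ≤ Om y * dot (curl V) (curl V) y :=
    mul_nonneg (Om_pos y).le (Finset.sum_nonneg fun i _ => mul_self_nonneg _)
  simp only [dot, Fin.sum_univ_three, Pi.sub_apply] at h0 ⊢
  linarith

theorem UpLow_adj {V W : Vc} (hV : ∀ i, Hinf (V i)) (hW : ∀ i, Hinf (W i)) :
    ip (curl V) W = ip V (curl W) := by
  rw [ip_eq (hinf_curl hV) hW, ip_eq hV (hinf_curl hW)]
  have h1 : ∀ i, ∫ y, curl V i y * W i y = (∫ y, pd (i + 1) (V (i + 2)) y * W i y)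
      - ∫ y, pd (i + 2) (V (i + 1)) y * W i y := fun i => by
    rw [← integral_sub (int_mul ((hV _).pd _) (hW _)) (int_mul ((hV _).pd _) (hW _))]
    simp only [curl, sub_mul]
  have h2 : ∀ i, ∫ y, V i y * curl W i y = (∫ y, V i y * pd (i + 1) (W (i + 2)) y)
      - ∫ y, V i y * pd (i + 2) (W (i + 1)) y := fun i => by
    rw [← integral_sub (int_mul (hV _) ((hW _).pd _)) (int_mul (hV _) ((hW _).pd _))]
    simp only [curl, mul_sub]
  simp only [h1, h2, ibp (hV _) (hW _), Fin.sum_univ_three]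
  have e1 : (0 : Fin 3) + 1 = 1 := rfl
  have e2 : (0 : Fin 3) + 2 = 2 := rfl
  have e3 : (1 : Fin 3) + 1 = 2 := rfl
  have e4 : (1 : Fin 3) + 2 = 0 := rfl
  have e5 : (2 : Fin 3) + 1 = 0 := rfl
  have e6 : (2 : Fin 3) + 2 = 1 := rfl
  simp only [e1, e2, e3, e4, e5, e6]
  ring

theorem UpLow_sm {B : Vc} (hB : Bg B) : (∀ i, ContDiff ℝ ∞ (sm Om (curl B) i)) ∧
    ∀ i, HasCompactSupport (sm Om (curl B) i) :=
  ⟨fun i => Om_smooth.mul (curl_smooth hB.smooth i),
    fun i => (UpLow_supp_curl hB.supp i).mul_left⟩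

theorem UpLow_en (u : R3 → ℝ → R3) (t : ℝ) : nw 1 (cmp u t) = ∫ x, ‖u x t‖ ^ 2 := by
  simp only [nw, dot, cmp, Pi.one_apply, one_mul, EuclideanSpace.norm_sq_eq, Real.norm_eq_abs,
    sq_abs]
  simp only [sq]

theorem low_curl {B : Vc} (hB : Bg B) : ∃ C R : ℝ, ∀ V : Vc, (∀ i, Hinf (V i)) → ∀ η ≥ 0,
    (∀ i y, ‖y‖ ≤ R → |curl V i y| ≤ η) → nw Om (curl B) - C * η ≤ nw Om (curl (V - B)) := by
  obtain ⟨C, R, h⟩ := UpLow_pair (UpLow_sm hB).1 (UpLow_sm hB).2
  refine ⟨2 * C, R, fun V hV η hη hb => ?_⟩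
  have h1 := h (curl V) (hinf_curl hV) η hη hb
  have h2 := UpLow_exp hB hV
  linarith

theorem low_vel {B : Vc} (hB : Bg B) : ∃ C R : ℝ, ∀ V : Vc, (∀ i, Hinf (V i)) → ∀ η ≥ 0,
    (∀ i y, ‖y‖ ≤ R → |V i y| ≤ η) → nw Om (curl B) - C * η ≤ nw Om (curl (V - B)) := by
  obtain ⟨C, R, h⟩ := UpLow_pair (curl_smooth (UpLow_sm hB).1) (UpLow_supp_curl (UpLow_sm hB).2)
  refine ⟨2 * C, R, fun V hV η hη hb => ?_⟩
  have h1 := h V hV η hη hb
  have h2 := UpLow_exp hB hV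
  rw [UpLow_adj hV fun i => hinf_of_supp ((UpLow_sm hB).1 i) ((UpLow_sm hB).2 i)] at h2
  linarith

theorem low {B : Vc} (hB : Bg B) {rr : ℝ} (hnz : rr < nw Om (curl B)) : ∃ c > 0, ∃ R : ℝ,
    ∀ V : Vc, (∀ i, Hinf (V i)) → nw Om (curl (V - B)) ≤ rr →
      (∃ y i, ‖y‖ ≤ R ∧ c ≤ |V i y|) ∧ ∃ y i, ‖y‖ ≤ R ∧ c ≤ |curl V i y| := by
  obtain ⟨C1, R1, h1⟩ := low_vel hB
  obtain ⟨C2, R2, h2⟩ := low_curl hB
  have hd : 0 < nw Om (curl B) - rr := sub_pos.2 hnz
  have hD : 0 < |C1| + |C2| + 1 := by positivity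
  have hc : 0 < (nw Om (curl B) - rr) / (|C1| + |C2| + 1) := div_pos hd hD
  have he : (|C1| + |C2| + 1) * ((nw Om (curl B) - rr) / (|C1| + |C2| + 1)) =
      nw Om (curl B) - rr := mul_div_cancel₀ _ hD.ne'
  generalize (nw Om (curl B) - rr) / (|C1| + |C2| + 1) = c at hc he
  have a1 := mul_le_mul_of_nonneg_right (le_abs_self C1) hc.le
  have a2 := mul_le_mul_of_nonneg_right (le_abs_self C2) hc.le
  have a3 := mul_nonneg (abs_nonneg C1) hc.le
  have a4 := mul_nonneg (abs_nonneg C2) hc.le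
  refine ⟨c, hc, max R1 R2, fun V hV hr => ⟨?_, ?_⟩⟩
  · by_contra hn
    push Not at hn
    have := h1 V hV c hc.le fun i y hy => (hn y i (hy.trans (le_max_left _ _))).le
    nlinarith
  · by_contra hn
    push Not at hn
    have := h2 V hV c hc.le fun i y hy => (hn y i (hy.trans (le_max_right _ _))).le
    nlinarith

theorem blowup_one {ν : ℝ} (hν : 0 < ν) {B0 : Vc} (hB : Bg B0) {I : Set ℝ} {w : R3 → ℝ → R3}
    {q : R3 → ℝ → ℝ} {U : ℝ → Fin 3 → R3 → ℂ} (h : MaxS ν B0 I w q U) (hI : ∀ S > 0, S ∈ lf I)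
    {c R : ℝ} (hc : 0 < c) (hl : ∀ s ≥ 0, (∃ y i, ‖y‖ ≤ R ∧ c ≤ |resc (cmp w) s i y|) ∧
      ∃ y i, ‖y‖ ≤ R ∧ c ≤ |curl (resc (cmp w) s) i y|) : BlowUp ν 1 := by
  have hsm : ContDiff ℝ ∞ (tov B0) := contDiff_euclidean.2 fun i => hB.smooth i
  have hcs : HasCompactSupport (tov B0) := by
    refine HasCompactSupport.intro (K := ⋃ i, tsupport (B0 i))
      (isCompact_iUnion fun i => (hB.supp i).isCompact) fun y hy => ?_
    ext i
    simp only [mem_iUnion, not_exists] at hy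
    simpa [tov] using image_eq_zero_of_notMem_tsupport (hy i)
  have hlog : ∀ t : ℝ, t < 1 → Real.exp (-(-Real.log (1 - t))) = 1 - t := fun t ht => by
    rw [neg_neg, Real.exp_log (by linarith)]
  have hmem : ∀ T1, 0 < T1 → T1 < 1 → T1 ∈ I := fun T1 h0 h1 => by
    have hS : 0 < -Real.log (1 - T1) := neg_pos.2 (Real.log_neg (by linarith) (by linarith))
    have := (hI _ hS).2
    rwa [hlog T1 h1, sub_sub_cancel] at this
  have hF : ∀ T1, 0 < T1 → T1 < 1 → FSol (3 / 4) ν (tov B0) T1 w q U := fun T1 h0 h1 =>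
    (h.sol T1 (hmem T1 h0 h1)).2
  have hsw : ∀ t ∈ Ico (0 : ℝ) 1, ∀ i, ContDiff ℝ ∞ (cmp w t i) := fun t ht i =>
    (((psol_of_fsol (hF ((t + 1) / 2) (by linarith [ht.1]) (by linarith [ht.2]))).ub i).1 t
      ⟨ht.1, by linarith [ht.2]⟩).1
  refine ⟨hcs.toSchwartzMap hsm, fun x => hB.dv x, ⟨w, q, U, hF, fun t ht => ?_, c, hc, R,
    fun t ht => ?_⟩, ?_⟩
  · have h1 := h.en _ (hmem ((t + 1) / 2) (by linarith [ht.1]) (by linarith [ht.2])) t
      ⟨ht.1, by linarith [ht.2]⟩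
    have h2 := UpLow_en (fun x _ => tov B0 x) 0
    rw [UpLow_en] at h1
    exact h1.trans (le_of_eq h2)
  · have h1t : 0 < 1 - t := by linarith [ht.2]
    have hs : 0 ≤ -Real.log (1 - t) := neg_nonneg.2 (Real.log_nonpos h1t.le (by linarith [ht.1]))
    have e0 := hlog t ht.2
    have e1 : Real.exp (-(2 / 3 * -Real.log (1 - t))) = (1 - t) ^ (2 / 3 : ℝ) := by
      rw [Real.rpow_def_of_pos h1t]
      congr 1
      ring
    have e2 : Real.exp (-(-Real.log (1 - t) / 3)) * (1 - t) ^ (-(1 / 3) : ℝ) = 1 := by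
      rw [Real.rpow_def_of_pos h1t, ← Real.exp_add, Real.exp_eq_one_iff]
      ring
    have p1 : 0 < (1 - t) ^ (2 / 3 : ℝ) := Real.rpow_pos_of_pos h1t _
    have p2 : 0 < (1 - t) ^ (-(1 / 3) : ℝ) := Real.rpow_pos_of_pos h1t _
    have hn : ∀ y : R3, ‖y‖ ≤ R → ‖(1 - t) ^ (2 / 3 : ℝ) • y‖ ≤ R * (1 - t) ^ (2 / 3 : ℝ) :=
      fun y hy => by
        rw [norm_smul, Real.norm_of_nonneg p1.le, mul_comm]
        exact mul_le_mul_of_nonneg_right hy p1.le
    obtain ⟨⟨y, i, hy, h1⟩, y', i', hy', h2⟩ := hl _ hs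
    refine ⟨⟨_, hn y hy, ?_⟩, _, hn y' hy', i', ?_⟩
    · simp only [resc] at h1
      rw [e0, e1, sub_sub_cancel, abs_mul, abs_of_pos (Real.exp_pos _)] at h1
      have h3 := mul_le_mul_of_nonneg_right h1 p2.le
      rw [mul_right_comm, e2, one_mul] at h3
      exact h3.trans (PiLp.norm_apply_le (w _ t) i)
    · rw [curl_resc (by rw [e0, sub_sub_cancel]; exact hsw t ht)] at h2
      simp only [] at h2
      rw [e0, e1, sub_sub_cancel, abs_mul, abs_of_pos h1t] at h2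
      rw [div_le_iff₀ h1t, mul_comm]
      exact h2
  · rintro ⟨w', q', U', hF'⟩
    have hP := psol_of_fsol hF'
    obtain ⟨C, hC⟩ := hP.decay
    have key : ∀ s ≥ 0, c ≤ C * Real.exp (-s) := by
      intro s hs
      have hS : 0 < s + 1 := by linarith
      have hm := DynRS_memo hS
      have hQ := psol_of_fsol (hF _ hm.1 hm.2)
      have h1 := (hP.rsol hS).uniq (hQ.rsol' hS le_rfl) hν hS (by
        rw [resc_zero, resc_zero]
        funext i y
        rw [hF'.initial y, (hF _ hm.1 hm.2).initial y]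
        rfl) s ⟨hs, by linarith⟩
      obtain ⟨y, i, _, h2⟩ := (hl s hs).2
      have h3 := hC s hs i y
      rw [← h1] at h3
      exact h2.trans h3
    have ht : Filter.Tendsto (fun s : ℝ => C * Real.exp (-s)) Filter.atTop (nhds (C * 0)) :=
      Real.tendsto_exp_neg_atTop_nhds_zero.const_mul C
    have := ge_of_tendsto ht ((Filter.eventually_ge_atTop 0).mono key)
    linarith

theorem blowup_scale {ν ν' T : ℝ} (h : BlowUp ν T) (hν : 0 < ν) (hν' : 0 < ν') :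
    BlowUp ν' (T * ν / ν') := by
  obtain ⟨u0, hd, ⟨u, p, U, hF, hE, c, hc, R, hr⟩, hn⟩ := h
  have ha : 0 < ν' / ν := div_pos hν' hν
  have hb : 0 < ν / ν' := div_pos hν hν'
  have hab : ν / ν' * (ν' / ν) = 1 := by field_simp
  have hinv : (ν / ν')⁻¹ = ν' / ν := inv_div _ _
  have hT : T * ν / ν' * (ν' / ν) = T := by field_simp
  have haν : ν' / ν * ν = ν' := div_mul_cancel₀ _ hν.ne'
  generalize ν' / ν = a at ha hab hinv hT haν
  have hm : ∀ t ∈ Ico 0 (T * ν / ν'), t * a ∈ Ico 0 T := fun t ht =>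
    ⟨mul_nonneg ht.1 ha.le, hT ▸ mul_lt_mul_of_pos_right ht.2 ha⟩
  have hc' : 0 < a * c * a ^ (-(1 / 3) : ℝ) := by positivity
  refine ⟨a • u0, fun x => ?_, ⟨fun x t => a • u x (t * a), fun x t => a ^ 2 * p x (t * a),
    fun t i ξ => a * U (t * a) i ξ, fun T1 h0 h1 => ?_, fun t ht => ?_,
    min c (a * c * a ^ (-(1 / 3) : ℝ)), lt_min hc hc', R * a ^ (2 / 3 : ℝ), fun t ht => ?_⟩,
    fun ⟨u, p, U, hs⟩ => hn ?_⟩
  · simp only [smul_apply, PiLp.smul_apply, smul_eq_mul, DynSc_pd, ← Finset.mul_sum]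
    rw [hd x, mul_zero]
  · have h2 := fsol_scale ha (hF (T1 * a) (mul_pos h0 ha) (hT ▸ mul_lt_mul_of_pos_right h1 ha))
    rw [haν] at h2
    exact h2
  · simp only [smul_apply, norm_smul, mul_pow, integral_const_mul]
    exact mul_le_mul_of_nonneg_left (hE _ (hm t ht)) (sq_nonneg _)
  · have h0 : 0 < T * ν / ν' - t := sub_pos.2 ht.2
    have e : T - t * a = a * (T * ν / ν' - t) := by linarith
    obtain ⟨⟨x, hx, h1⟩, x', hx', i, h2⟩ := hr _ (hm t ht)
    rw [e, Real.mul_rpow ha.le h0.le, ← mul_assoc] at hx hx' h1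
    rw [e] at h2
    refine ⟨⟨x, hx, ?_⟩, x', hx', i, ?_⟩
    · rw [norm_smul, Real.norm_of_nonneg ha.le]
      refine (mul_le_mul_of_nonneg_right (min_le_right _ _)
        (Real.rpow_pos_of_pos h0 _).le).trans ?_
      have := mul_le_mul_of_nonneg_left h1 ha.le
      linarith
    · simp only [PiLp.smul_apply, smul_eq_mul, DynSc_pd]
      rw [← mul_sub, abs_mul, abs_of_pos ha]
      refine (div_le_div_of_nonneg_right (min_le_left _ _) h0.le).trans ?_
      rw [div_le_iff₀ (mul_pos ha h0)] at h2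
      rw [div_le_iff₀ h0]
      linarith
  · rw [mul_div_assoc] at hs
    have h1 := fsol_scale hb hs
    rw [div_mul_cancel₀ _ hν'.ne'] at h1
    simp only [smul_apply, smul_smul, hab, one_smul] at h1
    exact ⟨_, _, _, h1⟩

end Pool.Agent.Work.MP_6bf1e5_an.H.Dyn
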