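import Pool.Agent.Work.MP_6bf1e5_an.H.ExDefs
import Pool.Agent.Work.MP_6bf1e5_an.H.DynOde
import Pool.Agent.Work.MP_6bf1e5_an.H.DynTop

/-!
The bootstrap on a finite interval and the shooting argument on the domain of a local flow.
Hints. boot: copy the proof of ode_boot with Icc 0 S in place of Ici 0. exit', joint', shoot': copy exit_time,
joint_cont, shoot; τ a = sInf {s | (a, s) ∈ W ∧ E a s ≤ e}; the infimum is attained because, for a point s0 of this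
set, the set meets Icc 0 s0 in a closed set (hdn, hc); (a, σ) ∈ W for 0 ≤ σ ≤ τ a.
-/

open scoped ContDiff ENNReal FourierTransform Real
open Set MeasureTheory

namespace Pool.Agent.Work.MP_6bf1e5_an.H.Dyn

theorem UpTop_le {f : ℝ → ℝ} {S s a : ℝ} (hf : ContinuousOn f (Icc 0 S)) (hs : 0 < s) (hS : s ≤ S)
    (h : ∀ σ ∈ Ico 0 s, f σ ≤ a) : f s ≤ a := by
  have hc : ContinuousWithinAt f (Ico 0 s) s :=
    (hf s ⟨hs.le, hS⟩).mono fun σ hσ => ⟨hσ.1, hσ.2.le.trans hS⟩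
  refine ContinuousWithinAt.closure_le (g := fun _ => a) ?_ hc continuousWithinAt_const h
  rw [closure_Ico hs.ne]
  exact ⟨hs.le, le_rfl⟩

theorem boot {E zz e z : ℝ → ℝ} {S c cz m β rr x0 em : ℝ} (hS : 0 < S)
    (hE : IDer S E e) (hZ : IDer S zz z)
    (hz0 : ∀ s ∈ Icc 0 S, 0 ≤ zz s) (hz : ∀ s ∈ Icc 0 S, cz * zz s ≤ E s + 2 * zz s)
    (hp : ∀ s ∈ Icc 0 S, 0 ≤ E s + 2 * zz s) (hcz : 0 ≤ cz)
    (h1 : ∀ s ∈ Icc 0 S, E s + 2 * zz s ≤ rr → e s ≤ -m * (E s + 2 * zz s) + β)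
    (h2 : ∀ s ∈ Icc 0 S, E s + 2 * zz s ≤ rr → e s + c * z s ≤ -m * (E s + 2 * zz s) + β)
    (hc : 0 < c) (hc2 : c ≤ 2) (hm : 0 < m) (hβ : 0 < β) (hem : 4 * β ≤ cz * m * em)
    (hx0 : β ≤ m * x0) (hrr : x0 + 2 / c * (x0 + 2 * em) < rr) (h0 : E 0 + 2 * zz 0 ≤ x0) :
    ∀ s ∈ Icc 0 S, (∀ σ ∈ Ico 0 s, -em < E σ) → E s + 2 * zz s < rr ∧
      (s < S → E s ≤ -em → ∀ ε > 0, ∃ σ ∈ Ioo s (s + ε), σ < S ∧ E σ < -em) := by
  have hem0 : 0 < em := by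
    by_contra hn
    have : cz * m * em ≤ 0 := mul_nonpos_of_nonneg_of_nonpos (mul_nonneg hcz hm.le) (not_lt.1 hn)
    linarith
  have hx00 : 0 < x0 := by
    by_contra hn
    have : m * x0 ≤ 0 := mul_nonpos_of_nonneg_of_nonpos hm.le (not_lt.1 hn)
    linarith
  have hcE := hE.contOn hS.le
  have hcX : ContinuousOn (fun s => E s + 2 * zz s) (Icc 0 S) :=
    hcE.add (continuousOn_const.mul (hZ.contOn hS.le))
  have h2c : 0 < 2 / c := by positivity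
  have hX0 : E 0 + 2 * zz 0 < rr := by
    have : 0 < 2 / c * (x0 + 2 * em) := by positivity
    linarith
  have hK : ∀ s1 ∈ Icc 0 S, (∀ σ ∈ Icc 0 s1, E σ + 2 * zz σ ≤ rr) → -em ≤ E s1 →
      E s1 + 2 * zz s1 < rr := by
    intro s1 hs1 hX hE1
    have hM : IDer s1 (fun s => E s + c * zz s) fun s => e s + c * z s :=
      (hE.add (hZ.const_mul c) hS.le).mono hs1.1 hs1.2
    have hle : ∀ σ ∈ Icc 0 S, E σ + c * zz σ ≤ E σ + 2 * zz σ := fun σ hσ => by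
      have := mul_le_mul_of_nonneg_right hc2 (hz0 σ hσ)
      linarith
    have hb := hM.barrier (x := x0) ((hle 0 ⟨le_rfl, hS.le⟩).trans h0) (fun σ hσ hx => by
      have h3 := h2 σ ⟨hσ.1, hσ.2.trans hs1.2⟩ (hX σ hσ)
      have h4 : x0 ≤ E σ + 2 * zz σ := hx.trans (hle σ ⟨hσ.1, hσ.2.trans hs1.2⟩)
      have h5 := mul_le_mul_of_nonneg_left h4 hm.le
      linarith) s1 ⟨hs1.1, le_rfl⟩
    have h6 : c * zz s1 ≤ x0 + em := by linarith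
    have h7 : 2 * zz s1 ≤ 2 / c * (x0 + em) := by
      have := mul_le_mul_of_nonneg_left h6 h2c.le
      rwa [← mul_assoc, div_mul_cancel₀ _ hc.ne'] at this
    have h8 : 0 ≤ c * zz s1 := mul_nonneg hc.le (hz0 s1 hs1)
    have h9 : 2 / c * (x0 + em) ≤ 2 / c * (x0 + 2 * em) :=
      mul_le_mul_of_nonneg_left (by linarith) h2c.le
    linarith
  have hC : ∀ s ∈ Icc 0 S, (∀ σ ∈ Ico 0 s, -em < E σ) → E s + 2 * zz s < rr := by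
    intro s hs hlt
    by_contra hn
    have hcl : IsClosed (Icc 0 s ∩ (fun s => E s + 2 * zz s) ⁻¹' Ici rr) :=
      (hcX.mono (Icc_subset_Icc_right hs.2)).preimage_isClosed_of_isClosed isClosed_Icc isClosed_Ici
    obtain ⟨s1, ⟨hs1, hr1⟩, hmin⟩ := (isCompact_Icc.of_isClosed_subset hcl
      inter_subset_left).exists_isLeast ⟨s, ⟨hs.1, le_rfl⟩, not_lt.1 hn⟩
    have hr1' : rr ≤ E s1 + 2 * zz s1 := hr1
    have hpos : 0 < s1 := by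
      rcases hs1.1.eq_or_lt with h | h
      · rw [← h] at hr1'; linarith
      · exact h
    have hbel : ∀ σ ∈ Ico 0 s1, E σ + 2 * zz σ ≤ rr := fun σ hσ => by
      by_contra hn'
      have := hmin ⟨⟨hσ.1, hσ.2.le.trans hs1.2⟩, (not_le.1 hn').le⟩
      exact absurd hσ.2 (not_lt.2 this)
    have hat := UpTop_le hcX hpos (hs1.2.trans hs.2) hbel
    have hE1 : -E s1 ≤ em := UpTop_le (f := fun s => -E s) hcE.neg hpos (hs1.2.trans hs.2) fun σ hσ => by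
      have := hlt σ ⟨hσ.1, hσ.2.trans_le hs1.2⟩
      show -E σ ≤ em
      linarith
    have := hK s1 ⟨hs1.1, hs1.2.trans hs.2⟩ (fun σ hσ => by
      rcases hσ.2.eq_or_lt with h | h
      · rw [h]; exact hat
      · exact hbel σ ⟨hσ.1, h⟩) (by linarith)
    linarith
  refine fun s hs hlt => ⟨hC s hs hlt, fun hsS hle ε hε => ?_⟩
  have e1 : ∀ᶠ σ in nhdsWithin s (Icc 0 S), E σ + 2 * zz σ < rr :=
    (hcX s hs).eventually (gt_mem_nhds (hC s hs hlt))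
  have e2 : ∀ᶠ σ in nhdsWithin s (Icc 0 S), E σ < -(3 / 4 * em) :=
    (hcE s hs).eventually (gt_mem_nhds (by linarith))
  obtain ⟨η, hη, hball⟩ := Metric.mem_nhdsWithin_iff.1 (e1.and e2)
  obtain ⟨δ, hδ, hδ1, hδ2, hδ3⟩ : ∃ δ > 0, δ ≤ η ∧ δ ≤ ε ∧ δ ≤ S - s :=
    ⟨min η (min ε (S - s)), lt_min hη (lt_min hε (sub_pos.2 hsS)), min_le_left _ _,
      (min_le_right _ _).trans (min_le_left _ _), (min_le_right _ _).trans (min_le_right _ _)⟩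
  refine ⟨s + δ / 2, ⟨by linarith, by linarith⟩, by linarith, ?_⟩
  have key := hE.le_of_le (b := -(β / 2)) hs.1 (by linarith : s ≤ s + δ / 2) (by linarith)
    fun σ hσ => by
      have hσ0 : σ ∈ Icc 0 S := ⟨hs.1.trans hσ.1.le, by linarith [hσ.2]⟩
      obtain ⟨a1, a2⟩ := hball ⟨by
        rw [Metric.mem_ball, Real.dist_eq, abs_lt]
        constructor <;> linarith [hσ.1, hσ.2], hσ0⟩
      have a3 := h1 σ hσ0 a1.le
      have a4 := hz σ hσ0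
      have a7 : 3 / 8 * em ≤ zz σ := by linarith [hp σ hσ0]
      have a5 := (mul_le_mul_of_nonneg_left a7 hcz).trans a4
      have a6 := mul_le_mul_of_nonneg_left a5 hm.le
      linarith
  have : 0 < β / 2 * (s + δ / 2 - s) := mul_pos (by linarith) (by linarith)
  linarith

theorem exit' {D : Set (Fin 2 → ℝ)} {W : Set ((Fin 2 → ℝ) × ℝ)} {E : (Fin 2 → ℝ) → ℝ → ℝ} {e : ℝ}
    (hW : W ⊆ D ×ˢ Ici 0) (hop : ∀ z ∈ W, W ∈ nhdsWithin z (D ×ˢ Ici 0))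
    (hdn : ∀ a s, (a, s) ∈ W → ∀ σ ∈ Icc 0 s, (a, σ) ∈ W)
    (hc : ContinuousOn (fun z : (Fin 2 → ℝ) × ℝ => E z.1 z.2) W)
    (hex : ∀ a ∈ D, ∃ s, (a, s) ∈ W ∧ E a s ≤ e)
    (htr : ∀ a s, (a, s) ∈ W → (∀ σ ∈ Ico 0 s, e < E a σ) → E a s ≤ e →
      ∀ ε > 0, ∃ σ ∈ Ioo s (s + ε), (a, σ) ∈ W ∧ E a σ < e) :
    ∃ τ : (Fin 2 → ℝ) → ℝ, ContinuousOn τ D ∧
      ∀ a ∈ D, (a, τ a) ∈ W ∧ E a (τ a) ≤ e ∧ (E a 0 ≤ e → τ a = 0) := by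
  let τ : (Fin 2 → ℝ) → ℝ := fun a => sInf {s | (a, s) ∈ W ∧ E a s ≤ e}
  have hle : ∀ a s, (a, s) ∈ W → E a s ≤ e → τ a ≤ s := fun a s h1 h2 =>
    csInf_le ⟨0, fun _ hs => (hW hs.1).2⟩ ⟨h1, h2⟩
  have hmem : ∀ a ∈ D, (a, τ a) ∈ W ∧ E a (τ a) ≤ e := by
    intro a ha
    obtain ⟨s, h2, h3⟩ := hex a ha
    have h1 : ContinuousOn (E a) (Icc 0 s) :=
      hc.comp (f := fun s => (a, s)) (by fun_prop) (hdn a s h2)
    obtain ⟨s1, ⟨h4, h5⟩, h6⟩ := (isCompact_Icc.of_isClosed_subset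
      (h1.preimage_isClosed_of_isClosed isClosed_Icc (isClosed_Iic (a := e)))
      inter_subset_left).exists_isLeast ⟨s, ⟨(hW h2).2, le_rfl⟩, h3⟩
    have h7 : IsLeast {s | (a, s) ∈ W ∧ E a s ≤ e} s1 := ⟨⟨hdn a s h2 s1 h4, h5⟩, fun σ hσ =>
      (le_total σ s).elim (fun h => h6 ⟨⟨(hW hσ.1).2, h⟩, hσ.2⟩) h4.2.trans⟩
    exact h7.csInf_mem
  have hlt : ∀ a ∈ D, ∀ σ ∈ Ico 0 (τ a), e < E a σ := fun a ha σ hσ =>
    lt_of_not_ge fun h => (hle a σ (hdn a _ (hmem a ha).1 σ ⟨hσ.1, hσ.2.le⟩) h).not_gt hσ.2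
  have hpos : ∀ a ∈ D, 0 ≤ τ a := fun a ha => (hW (hmem a ha).1).2
  have hc' : ∀ z ∈ W, ContinuousWithinAt (fun z : (Fin 2 → ℝ) × ℝ => E z.1 z.2) (D ×ˢ Ici 0) z :=
    fun z hz => (hc z hz).mono_of_mem_nhdsWithin (hop z hz)
  refine ⟨τ, fun a ha => tendsto_order.2 ⟨fun s hs => ?_, fun s hs => ?_⟩, fun a ha =>
    ⟨(hmem a ha).1, (hmem a ha).2, fun h => le_antisymm
      (hle a 0 (hdn a _ (hmem a ha).1 0 ⟨le_rfl, hpos a ha⟩) h) (hpos a ha)⟩⟩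
  · have h1 := (isCompact_Icc (a := 0) (b := s)).eventually_forall_of_forall_eventually (x₀ := a)
      (P := fun b σ => (b, σ) ∈ D ×ˢ Ici (0 : ℝ) → e < E b σ) fun σ hσ =>
        eventually_nhdsWithin_iff.1
          ((hc' (a, σ) (hdn a _ (hmem a ha).1 σ ⟨hσ.1, hσ.2.trans hs.le⟩)).eventually
            (lt_mem_nhds (hlt a ha σ ⟨hσ.1, hσ.2.trans_lt hs⟩)))
    filter_upwards [nhdsWithin_le_nhds h1, self_mem_nhdsWithin] with b h2 hb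
    exact lt_of_not_ge fun h => (h2 (τ b) ⟨hpos b hb, h⟩ ⟨hb, hpos b hb⟩).not_ge (hmem b hb).2
  · obtain ⟨σ, h1, h2, h3⟩ := htr a (τ a) (hmem a ha).1 (hlt a ha) (hmem a ha).2 _ (sub_pos.2 hs)
    have h4 : Filter.Tendsto (fun b => (b, σ)) (nhdsWithin a D) (nhdsWithin (a, σ) (D ×ˢ Ici 0)) :=
      ContinuousWithinAt.tendsto_nhdsWithin (by fun_prop) fun b hb => ⟨hb, (hW h2).2⟩
    filter_upwards [h4 (hop _ h2), h4.eventually ((hc' _ h2).eventually (gt_mem_nhds h3))]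
      with b h5 h6
    linarith [hle b σ h5 h6.le, h1.2]

theorem UpTop_near (a : Fin 2 → ℝ) (s : ℝ) {δ : ℝ} (hδ : 0 < δ) :
    ∀ᶠ z : (Fin 2 → ℝ) × ℝ in nhds (a, s), ∑ k, (z.1 k - a k) ^ 2 < δ := by
  have h : Continuous fun z : (Fin 2 → ℝ) × ℝ => ∑ k, (z.1 k - a k) ^ 2 := by fun_prop
  exact (h.tendsto (a, s)).eventually (gt_mem_nhds (by simpa using hδ))

theorem dom_open {D : Set (Fin 2 → ℝ)} {J : (Fin 2 → ℝ) → Set ℝ}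
    (h : ∀ a ∈ D, ∀ S ∈ J a, ∃ δ > 0, ∀ b ∈ D, ∑ k, (b k - a k) ^ 2 ≤ δ → S ∈ J b) :
    ∀ z ∈ dom D J, dom D J ∈ nhdsWithin z (D ×ˢ Ici 0) := by
  rintro ⟨a, s⟩ ⟨ha, -, S, hS, hs⟩
  obtain ⟨δ, hδ, h1⟩ := h a ha S hS
  filter_upwards [self_mem_nhdsWithin, nhdsWithin_le_nhds (UpTop_near a s hδ), nhdsWithin_le_nhds
    ((continuous_snd.tendsto (a, s)).eventually (gt_mem_nhds hs))] with z h2 h3 h4
  exact ⟨h2.1, h2.2, S, h1 _ h2.1 (le_of_lt h3), h4⟩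

theorem joint' {D : Set (Fin 2 → ℝ)} {J : (Fin 2 → ℝ) → Set ℝ} {E : (Fin 2 → ℝ) → ℝ → ℝ}
    (h1 : ∀ a ∈ D, ∀ S ∈ J a, ContinuousOn (E a) (Icc 0 S))
    (h2 : ∀ a ∈ D, ∀ S ∈ J a, ∀ ε > 0, ∃ δ > 0, ∀ b ∈ D, ∑ k, (b k - a k) ^ 2 ≤ δ →
      ∀ s ∈ Icc 0 S, |E b s - E a s| ≤ ε) :
    ContinuousOn (fun z : (Fin 2 → ℝ) × ℝ => E z.1 z.2) (dom D J) := by
  rintro ⟨a, s⟩ ⟨ha, hs0, S, hS, hs⟩
  refine Metric.tendsto_nhds.2 fun ε hε => ?_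
  obtain ⟨δ, hδ, h3⟩ := h2 a ha S hS (ε / 2) (half_pos hε)
  have h4 : ∀ᶠ z : (Fin 2 → ℝ) × ℝ in nhdsWithin (a, s) (dom D J), z.2 ∈ Icc 0 S := by
    filter_upwards [self_mem_nhdsWithin, nhdsWithin_le_nhds
      ((continuous_snd.tendsto (a, s)).eventually (gt_mem_nhds hs))] with z h5 h6
    exact ⟨h5.2.1, le_of_lt h6⟩
  have h5 : Filter.Tendsto (fun z : (Fin 2 → ℝ) × ℝ => E a z.2) (nhdsWithin (a, s) (dom D J))
      (nhds (E a s)) :=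
    (h1 a ha S hS s ⟨hs0, le_of_lt hs⟩).tendsto.comp (tendsto_nhdsWithin_iff.2
      ⟨(continuous_snd.tendsto (a, s)).mono_left nhdsWithin_le_nhds, h4⟩)
  filter_upwards [self_mem_nhdsWithin, h4, Metric.tendsto_nhds.1 h5 _ (half_pos hε),
    nhdsWithin_le_nhds (UpTop_near a s hδ)] with z a1 a2 a3 a4
  have h8 := h3 z.1 a1.1 (le_of_lt a4) z.2 a2
  rw [Real.dist_eq] at a3 ⊢
  linarith [abs_sub_le (E z.1 z.2) (E a z.2) (E a s)]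

theorem shoot' {ϱ e : ℝ} (hϱ : 0 < ϱ) {W : Set ((Fin 2 → ℝ) × ℝ)} {E : (Fin 2 → ℝ) → ℝ → ℝ}
    {g : Fin 2 → (Fin 2 → ℝ) → ℝ → ℝ}
    (hW : W ⊆ disc ϱ ×ˢ Ici 0) (hop : ∀ z ∈ W, W ∈ nhdsWithin z (disc ϱ ×ˢ Ici 0))
    (hdn : ∀ a s, (a, s) ∈ W → ∀ σ ∈ Icc 0 s, (a, σ) ∈ W)
    (hc : ContinuousOn (fun z : (Fin 2 → ℝ) × ℝ => E z.1 z.2) W)
    (hg : ∀ i, ContinuousOn (fun z : (Fin 2 → ℝ) × ℝ => g i z.1 z.2) W)
    (hex : ∀ a ∈ disc ϱ, ∃ s, (a, s) ∈ W ∧ E a s ≤ e)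
    (htr : ∀ a s, (a, s) ∈ W → (∀ σ ∈ Ico 0 s, e < E a σ) → E a s ≤ e →
      ∀ ε > 0, ∃ σ ∈ Ioo s (s + ε), (a, σ) ∈ W ∧ E a σ < e)
    (hnz : ∀ a s, (a, s) ∈ W → E a s ≤ e → ∃ i, g i a s ≠ 0)
    (h0 : ∀ a : Fin 2 → ℝ, ∑ k, a k ^ 2 = ϱ ^ 2 → E a 0 ≤ e ∧ ∀ i, g i (-a) 0 = -g i a 0) :
    False := by
  obtain ⟨τ, hτ, h1⟩ := exit' hW hop hdn hc hex htr
  obtain ⟨a, ha, h2⟩ := bu_disc hϱ (h := fun a i => g i a (τ a))
    (continuousOn_pi.2 fun i => (hg i).comp (f := fun a => (a, τ a))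
      (continuousOn_id.prodMk hτ) fun a ha => (h1 a ha).1) (by
      intro a ha
      have ha' : ∑ k, (-a) k ^ 2 = ϱ ^ 2 := by simpa using ha
      ext i
      rw [Pi.neg_apply, (h1 a ha.le).2.2 (h0 a ha).1, (h1 (-a) ha'.le).2.2 (h0 _ ha').1]
      exact (h0 a ha).2 i)
  obtain ⟨i, hi⟩ := hnz a (τ a) (h1 a ha).1 (h1 a ha).2.1
  exact hi (congrFun h2 i)

end Pool.Agent.Work.MP_6bf1e5_an.H.Dyn
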