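import Pool.Agent.Work.MP_6bf1e5_an.H.ExMain
import Pool.Agent.Work.MP_6bf1e5_an.H.UpOrb
import Pool.Agent.Work.MP_6bf1e5_an.H.UpTop
import Pool.Agent.Work.MP_6bf1e5_an.H.UpLow
import Pool.Agent.Work.MP_6bf1e5_an.H.DynFin

/-!
The shooting argument on the local flow gives an orbit that stays in the block for all times.
-/

open scoped ContDiff ENNReal FourierTransform Real
open Set MeasureTheory

namespace Pool.Agent.Work.MP_6bf1e5_an.H

namespace Dyn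

theorem dyn_up (L : Lyap) (hL : L.Good) {ν : ℝ} (hν : 0 < ν) {B : Vc} (hB : Bg B)
    {φ : Fin 2 → Vc} (hφ : ∀ k, Bg (φ k)) {c m β rr ϱ x0 em cl cz ch cb : ℝ}
    (hM1 : ∀ u, Adm u → L.X u ≤ rr → L.dE ν B u ≤ -m * L.X u + β)
    (hM2 : ∀ u, Adm u → L.X u ≤ rr → L.dE ν B u + c * L.dZ ν B u ≤ -m * L.X u + β)
    (hco : L.Coer cl cz ch cb) (hcl : 0 < cl) (hcz : 0 ≤ cz)
    (hc : 0 < c) (hc2 : c ≤ 2) (hm : 0 < m) (hβ : 0 < β)
    (hϱ : 0 < ϱ) (hem : 4 * β ≤ cz * m * em) (hx0 : β ≤ m * x0)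
    (hrr : x0 + 2 / c * (x0 + 2 * em) < rr)
    (hX : ∀ a : Fin 2 → ℝ, ∑ k, a k ^ 2 ≤ ϱ ^ 2 → L.X (pl φ a) ≤ x0)
    (hE : ∀ a : Fin 2 → ℝ, ∑ k, a k ^ 2 = ϱ ^ 2 → L.E (pl φ a) ≤ -em)
    (hnz : rr < cl * nw Om (curl B)) : BlowUp ν 1 := by
  choose I w q U hmax using fun a : Fin 2 → ℝ => exists_max hν (bg_add_pl hB hφ a)
  obtain ⟨V, hVe⟩ : ∃ V : (Fin 2 → ℝ) → ℝ → Vc, V = fun a => resc (cmp (w a)) := ⟨_, rfl⟩
  obtain ⟨J, hJe⟩ : ∃ J : (Fin 2 → ℝ) → Set ℝ, J = fun a => lf (I a) := ⟨_, rfl⟩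
  have hO : ∀ a, Orb ν (B + pl φ a) (J a) (V a) := fun a => by
    rw [hVe, hJe]
    exact orb_of_max hν (bg_add_pl hB hφ a) (hmax a)
  have hBh := bg_hinf hB
  have hin : ∀ a, ∀ S ∈ J a, ∀ s ∈ Icc 0 S, ∀ i, Hinf (V a s i) := fun a S hS s hs i =>
    (((hO a).sol S hS).2.ub i).1 s hs
  have hin' : ∀ a, ∀ S ∈ J a, ∀ s ∈ Icc 0 S, ∀ i, Hinf ((V a s - B) i) :=
    fun a S hS s hs i => hinf_sub (hin a S hS s hs i) (hBh i)
  have hadm : ∀ a, ∀ S ∈ J a, ∀ s ∈ Icc 0 S, Adm (V a s - B) := fun a S hS s hs =>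
    ⟨hin' a S hS s hs, fun y => by
      rw [dvg_sub (fun i => (hin a S hS s hs i).1) hB.smooth, ((hO a).sol S hS).2.dv s hs, hB.dv,
        sub_zero], eqv_sub ((hO a).eqv S hS s hs) hB.eqv⟩
  have h0 : ∀ a, V a 0 - B = pl φ a := fun a => by
    rw [(hO a).init]
    exact add_sub_cancel_left _ _
  have hXE : ∀ u, L.E u + 2 * L.zz u = L.X u := fun u => by unfold Lyap.E; ring
  have hXl := fun a S hS s hs => zz_le_X hL hco hcl.le hcz (hin' a S hS s hs)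
  have hem0 : 0 < em := by
    by_contra h
    push Not at h
    have := mul_nonpos_of_nonneg_of_nonpos (mul_nonneg hcz hm.le) h
    linarith
  have hboot : ∀ a ∈ disc ϱ, ∀ S ∈ J a, ∀ s ∈ Icc 0 S,
      (∀ σ ∈ Ico 0 s, -em < L.E (V a σ - B)) → L.E (V a s - B) + 2 * L.zz (V a s - B) < rr ∧
      (s < S → L.E (V a s - B) ≤ -em →
        ∀ ε > 0, ∃ σ ∈ Ioo s (s + ε), σ < S ∧ L.E (V a σ - B) < -em) := by
    intro a ha S hS
    obtain ⟨hS0, hR⟩ := (hO a).sol S hS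
    refine boot (E := fun s => L.E (V a s - B)) (zz := fun s => L.zz (V a s - B)) hS0
      (hR.iderE hS0 hB hL) (hR.iderZ hS0 hB hL)
      (fun s _ => zz_nonneg L _) (fun s hs => ?_) (fun s hs => ?_) hcz (fun s hs => ?_)
      (fun s hs => ?_) hc hc2 hm hβ hem hx0 hrr ?_
    · rw [hXE]; exact (hXl a S hS s hs).2.1
    · rw [hXE]; exact (hXl a S hS s hs).1
    · rw [hXE]; exact hM1 _ (hadm a S hS s hs)
    · rw [hXE]; exact hM2 _ (hadm a S hS s hs)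
    · rw [hXE, h0]; exact hX a ha
  have hclose : ∀ a, ∀ S ∈ J a, ∀ ε > 0, ∃ δ > 0, ∀ b : Fin 2 → ℝ, ∑ k, (b k - a k) ^ 2 ≤ δ →
      S ∈ J b ∧ ∀ s ∈ Icc 0 S, ZZ (V b s - B - (V a s - B)) ≤ ε := by
    intro a S hS ε hε
    obtain ⟨δ, hδ, h⟩ := Orb.near ((hO a).sol S hS).2 hν ((hO a).sol S hS).1 hε
    obtain ⟨C, hC, h'⟩ := ZZ_pl (φ := φ) fun k => bg_hinf (hφ k)
    refine ⟨δ / C, div_pos hδ hC, fun b hab => ?_⟩
    simp only [sub_sub_sub_cancel_right]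
    refine h _ _ _ (hO b) ?_
    rw [(hO a).init, add_sub_add_left_eq_sub, fin_pl_sub]
    refine (h' _).trans ?_
    rw [le_div_iff₀ hC] at hab
    linarith
  have main : ∃ a, (∀ S > 0, S ∈ J a) ∧ ∀ s ≥ 0, L.X (V a s - B) ≤ rr := by
    by_contra hcon
    refine shoot' hϱ (e := -em) (W := dom (disc ϱ) J) (E := fun a s => L.E (V a s - B))
      (g := fun i a s => mom (L.θZ i) (V a s - B)) (fun z hz => ⟨hz.1, hz.2.1⟩)
      (dom_open fun a _ S hS => ?_) ?_ ?_ (fun i => ?_) (fun a ha => ?_) ?_ (fun a s hs h => ?_)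
      fun a ha => ?_
    · obtain ⟨δ, hδ, h⟩ := hclose a S hS 1 one_pos
      exact ⟨δ, hδ, fun b _ hab => (h b hab).1⟩
    · rintro a s ⟨h1, _, S, hS, h3⟩ σ hσ
      exact ⟨h1, hσ.1, S, hS, hσ.2.trans_lt h3⟩
    · refine joint' (E := fun a s => L.E (V a s - B)) (fun a _ S hS =>
        (((hO a).sol S hS).2.iderE ((hO a).sol S hS).1 hB hL).contOn ((hO a).sol S hS).1.le)
        fun a _ S hS ε hε => ?_
      obtain ⟨K, hK⟩ := UB.bd (S := S) (V := fun s => V a s - B)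
        fun i => (((hO a).sol S hS).2.ub i).sub (UB.const (hBh i))
      obtain ⟨K', hK'⟩ := ZZ_bdd (V := fun s => V a s - B) (fun i s hs => hin' a S hS s hs i) hK
      obtain ⟨η, hη, h1⟩ := E_cont L hL K' hε
      obtain ⟨δ, hδ, h2⟩ := hclose a S hS η hη
      exact ⟨δ, hδ, fun b _ hab s hs => h1 _ _ (hin' a S hS s hs)
        (hin' b S (h2 b hab).1 s hs) (hK' s hs) ((h2 b hab).2 s hs)⟩
    · refine joint' (E := fun a s => mom (L.θZ i) (V a s - B)) (fun a _ S hS =>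
        (((hO a).sol S hS).2.ider_mom ((hO a).sol S hS).1 hB (good_Z hL i)).contOn
          ((hO a).sol S hS).1.le) fun a _ S hS ε hε => ?_
      obtain ⟨η, hη, h1⟩ := mom_cont (good_Z hL i) hε
      obtain ⟨δ, hδ, h2⟩ := hclose a S hS η hη
      exact ⟨δ, hδ, fun b _ hab s hs => h1 _ _ (hin' a S hS s hs)
        (hin' b S (h2 b hab).1 s hs) ((h2 b hab).2 s hs)⟩
    · by_contra hne
      push Not at hne
      have hx : ∀ S ∈ J a, ∀ s ∈ Icc 0 S, L.X (V a s - B) ≤ rr := fun S hS s hs => by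
        rw [← hXE]
        exact (hboot a ha S hS s hs fun σ hσ =>
          hne σ ⟨ha, hσ.1, S, hS, hσ.2.trans_le hs.2⟩).1.le
      have hall : ∀ S > 0, S ∈ J a := fun S hS =>
        (hO a).all hS (K := 2 * (rr / L.κ) + 2 * gw 1 (curl B)) fun S' h1 _ s hs => by
          refine (gw_tri (hin a S' h1 s hs) hBh).trans ?_
          have h2 : gw 1 (curl (V a s - B)) ≤ rr / L.κ := by
            rw [le_div_iff₀ hL.2.2, mul_comm]
            exact (hXl a S' h1 s hs).2.2.2.trans (hx S' h1 s hs)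
          linarith
      exact hcon ⟨a, hall, fun s hs => hx (s + 1) (hall _ (by linarith)) s ⟨hs, by linarith⟩⟩
    · rintro a s ⟨h1, h2, S, hS, h3⟩ hlt hle ε hε
      obtain ⟨σ, h4, h5, h6⟩ := (hboot a h1 S hS s ⟨h2, h3.le⟩ hlt).2 h3 hle ε hε
      exact ⟨σ, h4, ⟨h1, le_trans h2 h4.1.le, S, hS, h5⟩, h6⟩
    · by_contra hz
      push Not at hz
      have h1 : L.zz (V a s - B) = 0 := by
        show ∑ i, mom (L.θZ i) (V a s - B) ^ 2 = 0
        simp [hz]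
      have h2 := hXE (V a s - B)
      obtain ⟨_, h4, S, hS, h5⟩ := hs
      have h3 := (hXl a S hS s ⟨h4, h5.le⟩).1
      linarith
    · refine ⟨by rw [h0]; exact hE a ha, fun i => ?_⟩
      rw [h0, h0, fin_pl_neg, mom_neg]
  obtain ⟨a, h1, h2⟩ := main
  obtain ⟨c', hc', R, hl⟩ := low hB ((div_lt_iff₀' hcl).2 hnz)
  have h3 := fun s (hs : s ≥ 0) => hl _ (hin a (s + 1) (h1 _ (by linarith)) s ⟨hs, by linarith⟩)
    ((le_div_iff₀' hcl).2
      ((hXl a (s + 1) (h1 _ (by linarith)) s ⟨hs, by linarith⟩).2.2.1.trans (h2 s hs)))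
  rw [hVe] at h3
  rw [hJe] at h1
  exact blowup_one hν (bg_add_pl hB hφ a) (hmax a) h1 hc' h3

end Dyn

end Pool.Agent.Work.MP_6bf1e5_an.H
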