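import Pool.Agent.Work.MP_6bf1e5_an.H.WidePress

/-!
The rate of change of the localised energy of the difference of two solutions.
-/

open scoped ContDiff ENNReal FourierTransform Topology
open Set MeasureTheory Filter Metric

namespace Pool.Agent.Work.MP_6bf1e5_an.Ens.Wide

open H (Lam Hinf)

variable {ν T E0 M t lam : ℝ} {u v : R3 → ℝ → R3} {p q : R3 → ℝ → ℝ} {η : R3 → ℝ}

theorem pair_le {F g : R3 → ℝ} (hF : MemLp F 2 volume) (hg : MemLp g 2 volume) {a b : ℝ}
    (ha : 0 ≤ a) (hb : 0 ≤ b) (h1 : ∫ x, F x ^ 2 ≤ a ^ 2) (h2 : ∫ x, g x ^ 2 ≤ b ^ 2) :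
    |∫ x, F x * g x| ≤ a * b := by
  have i0 : Integrable fun x => F x * g x := hF.integrable_mul hg
  have key := discrim_le_zero (a := ∫ x, F x ^ 2) (b := 2 * ∫ x, F x * g x) (c := ∫ x, g x ^ 2)
    fun r => by
      have h3 : 0 ≤ ∫ x, (r ^ 2 * F x ^ 2 + 2 * r * (F x * g x) + g x ^ 2) :=
        integral_nonneg fun x => by
          simp only [Pi.zero_apply]
          nlinarith [sq_nonneg (r * F x + g x)]
      rw [integral_add ((hF.integrable_sq.const_mul _).fun_add (i0.const_mul _)) hg.integrable_sq,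
        integral_add (hF.integrable_sq.const_mul _) (i0.const_mul _), integral_const_mul,
        integral_const_mul] at h3
      linarith
  rw [discrim] at key
  refine abs_le_of_sq_le_sq' ?_ (mul_nonneg ha hb) |> abs_le.2
  have h4 := mul_le_mul h1 h2 (integral_nonneg fun x => sq_nonneg _) (sq_nonneg a)
  nlinarith

theorem mem_of_le {F B : R3 → ℝ} (hc : Continuous F) (hB : Integrable B)
    (h : ∀ x, F x ^ 2 ≤ B x) : MemLp F 2 volume ∧ ∫ x, F x ^ 2 ≤ ∫ x, B x := by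
  have h1 : Integrable fun x => F x ^ 2 :=
    hB.mono' (hc.pow 2).aestronglyMeasurable (Eventually.of_forall fun x => by
      rw [Real.norm_of_nonneg (sq_nonneg _)]
      exact h x)
  exact ⟨(memLp_two_iff_integrable_sq hc.aestronglyMeasurable).2 h1, integral_mono h1 hB h⟩

theorem test_sq (hη : Test η) : Test fun x => η x ^ 2 := by
  simp only [sq]
  exact hη.mul hη.1

theorem pd_sq {f : R3 → ℝ} (hf : ContDiff ℝ ∞ f) (j : Fin 3) (x : R3) :
    pd j (fun y => f y ^ 2) x = 2 * f x * pd j f x := by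
  simp only [sq]
  rw [pd_mul (hf.differentiable (by simp) x) (hf.differentiable (by simp) x)]
  ring

theorem pd_sq_le (hη : Test η) (h01 : ∀ x, 0 ≤ η x ∧ η x ≤ 1) (hd : ∀ x, ‖fderiv ℝ η x‖ ≤ lam)
    (j : Fin 3) (x : R3) : pd j (fun y => η y ^ 2) x ^ 2 ≤ 4 * lam ^ 2 := by
  have h1 : pd j η x ^ 2 ≤ lam ^ 2 := by
    rw [← sq_abs]
    exact pow_le_pow_left₀ (abs_nonneg _) ((abs_pd_le η j x).trans (hd x)) 2
  have h2 : η x ^ 2 ≤ 1 := pow_le_one₀ (h01 x).1 (h01 x).2
  rw [pd_sq hη.1]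
  nlinarith [sq_nonneg (pd j η x), sq_nonneg (η x)]

/-- The energy of the difference. -/
noncomputable def en (u v : R3 → ℝ → R3) (t : ℝ) : ℝ := ∑ i, ∫ x, (u x t i - v x t i) ^ 2

theorem en_one (i : Fin 3) : ∫ x, (u x t i - v x t i) ^ 2 ≤ en u v t :=
  Finset.single_le_sum (f := fun i => ∫ x, (u x t i - v x t i) ^ 2)
    (fun _ _ => integral_nonneg fun _ => sq_nonneg _) (Finset.mem_univ i)

theorem WS.nonneg (hu : WS ν T E0 u p) (ht : t ∈ Icc 0 T) : 0 ≤ E0 :=
  (integral_nonneg fun _ => sq_nonneg _).trans (hu.le t ht)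

theorem dif_mem (hu : WS ν T E0 u p) (hv : WS ν T E0 v q) (ht : t ∈ Icc 0 T) (i : Fin 3) :
    MemLp (fun x => u x t i - v x t i) 2 volume := (hu.mem ht i).sub (hv.mem ht i)

theorem en_le (hu : WS ν T E0 u p) (hv : WS ν T E0 v q) (ht : t ∈ Icc 0 T) :
    en u v t ≤ 4 * E0 := by
  have hi := fun i => (dif_mem hu hv ht i).integrable_sq
  rw [en, ← integral_finsetSum _ fun i _ => hi i]
  have h1 : _ ≤ ∫ x, (2 * ‖u x t‖ ^ 2 + 2 * ‖v x t‖ ^ 2) :=
    integral_mono (integrable_finsetSum Finset.univ fun i _ => hi i)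
      (((hu.ie t ht).const_mul 2).add ((hv.ie t ht).const_mul 2)) fun x => by
        simp only [norm_sq_eq_sum, Fin.sum_univ_three]
        nlinarith [sq_nonneg (u x t 0 + v x t 0), sq_nonneg (u x t 1 + v x t 1),
          sq_nonneg (u x t 2 + v x t 2)]
  rw [integral_add ((hu.ie t ht).const_mul 2) ((hv.ie t ht).const_mul 2), integral_const_mul,
    integral_const_mul] at h1
  linarith [hu.le t ht, hv.le t ht]

/-- The quadratic terms are square integrable. -/
theorem quad (hu : WS ν T E0 u p) (hv : WS ν T E0 v q) (ht : t ∈ Icc 0 T) (hM : 0 ≤ M) {β : ℝ}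
    (hβ : 0 ≤ β) (i4 : Integrable fun x => ‖u x t‖ ^ 4) (h4 : ∫ x, ‖u x t‖ ^ 4 ≤ β ^ 2)
    {F : R3 → ℝ} (hc : Continuous F)
    (hF : ∀ x, F x ^ 2 ≤ 2 * ‖u x t‖ ^ 4 + 2 * M ^ 2 * (‖u x t‖ ^ 2 + ‖v x t‖ ^ 2)) :
    MemLp F 2 volume ∧ ∫ x, F x ^ 2 ≤ (2 * β + 2 * M * (E0 + 1)) ^ 2 := by
  have i2 := ((hu.ie t ht).fun_add (hv.ie t ht)).const_mul (2 * M ^ 2)
  obtain ⟨h1, h2⟩ := mem_of_le hc ((i4.const_mul 2).fun_add i2) hF
  refine ⟨h1, h2.trans ?_⟩
  rw [integral_add (i4.const_mul 2) i2, integral_const_mul, integral_const_mul,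
    integral_add (hu.ie t ht) (hv.ie t ht)]
  have h0 := hu.nonneg ht
  have h3 := mul_le_mul_of_nonneg_left (add_le_add (hu.le t ht) (hv.le t ht))
    (by positivity : 0 ≤ 2 * M ^ 2)
  have h5 : 0 ≤ β * M * (E0 + 1) := by positivity
  have h6 : 0 ≤ M ^ 2 * (E0 ^ 2 + E0 + 1) := by positivity
  nlinarith [sq_nonneg β]

theorem press_term (hu : WS ν T E0 u p) (hv : WS ν T E0 v q) (hT : 0 < T) (ht : t ∈ Icc 0 T)
    (hη : Test η) (h01 : ∀ x, 0 ≤ η x ∧ η x ≤ 1) (hl : 0 ≤ lam) (hd : ∀ x, ‖fderiv ℝ η x‖ ≤ lam)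
    {a : ℝ} (ha : 0 ≤ a) (hF : ∀ i j, MemLp (fun x => u x t j * u x t i - v x t j * v x t i) 2 volume
      ∧ ∫ x, (u x t j * u x t i - v x t j * v x t i) ^ 2 ≤ a ^ 2) :
    (∑ i, ∫ x, pd i (fun y => q y t) x * (η x ^ 2 * (u x t i - v x t i)))
      - ∑ i, ∫ x, pd i (fun y => p y t) x * (η x ^ 2 * (u x t i - v x t i))
      ≤ 63 * (a * (lam * (E0 + 1))) := by
  have hw : ∀ i, ContDiff ℝ ∞ fun x => u x t i - v x t i := fun i => (hu.sm ht i).sub (hv.sm ht i)
  have hΦ : ∀ i, Test fun x => η x ^ 2 * (u x t i - v x t i) := fun i => (test_sq hη).mul (hw i)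
  rw [hu.pressure hT hΦ ht, hv.pressure hT hΦ ht]
  have hD := Test.sum Finset.univ fun k _ => (hΦ k).pd k
  have e : ∀ y, ∑ k, pd k (fun x => η x ^ 2 * (u x t k - v x t k)) y
      = ∑ k, pd k (fun x => η x ^ 2) y * (u y t k - v y t k) := fun y => by
    rw [Finset.sum_congr rfl fun k _ => pd_mul ((test_sq hη).1.differentiable (by simp) y)
      ((hw k).differentiable (by simp) y) k, Finset.sum_add_distrib, ← Finset.mul_sum,
      Finset.sum_congr rfl fun k _ => pd_sub ((hu.sm ht k).differentiable (by simp) y)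
        ((hv.sm ht k).differentiable (by simp) y) k, Finset.sum_sub_distrib, hu.dv y t ht,
      hv.dv y t ht, sub_zero, mul_zero, add_zero]
  have hi := fun i => (dif_mem hu hv ht i).integrable_sq
  have h1 := (mem_of_le hD.1.continuous
    ((integrable_finsetSum Finset.univ fun i _ => hi i).const_mul (12 * lam ^ 2)) fun y => by
      rw [e]
      have h2 := fun k => mul_le_mul_of_nonneg_right (pd_sq_le hη h01 hd k y)
        (sq_nonneg (u y t k - v y t k))
      simp only [Fin.sum_univ_three]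
      have := h2 0
      have := h2 1
      have := h2 2
      generalize pd 0 (fun x => η x ^ 2) y = a0 at *
      generalize pd 1 (fun x => η x ^ 2) y = a1 at *
      generalize pd 2 (fun x => η x ^ 2) y = a2 at *
      generalize u y t 0 - v y t 0 = b0 at *
      generalize u y t 1 - v y t 1 = b1 at *
      generalize u y t 2 - v y t 2 = b2 at *
      nlinarith [sq_nonneg (a0 * b0 - a1 * b1), sq_nonneg (a0 * b0 - a2 * b2),
        sq_nonneg (a1 * b1 - a2 * b2)]).2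
  rw [integral_const_mul, integral_finsetSum _ fun i _ => hi i] at h1
  have h0 := hu.nonneg ht
  have h2 : 12 * lam ^ 2 * en u v t ≤ (7 * (lam * (E0 + 1))) ^ 2 := by
    have h3 := mul_le_mul_of_nonneg_left (en_le hu hv ht) (by positivity : 0 ≤ 12 * lam ^ 2)
    have h4 : 0 ≤ lam ^ 2 * (49 * E0 ^ 2 + 50 * E0 + 49) := by positivity
    nlinarith
  have key : ∀ {D : R3 → ℝ}, Test D → ∫ y, D y ^ 2 ≤ (7 * (lam * (E0 + 1))) ^ 2 → ∀ i j,
      (∫ x, v x t j * v x t i * pd i (pd j (nw D)) x)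
        - ∫ x, u x t j * u x t i * pd i (pd j (nw D)) x ≤ a * (7 * (lam * (E0 + 1))) := by
    intro D hD hD2 i j
    obtain ⟨h3, h4⟩ := integral_hess_nw_le hD i j
    have hs := contDiff_pd (contDiff_pd (contDiff_nw hD) j) i
    have h5 := (memLp_two_iff_integrable_sq hs.continuous.aestronglyMeasurable).2 h3
    have h6 := pair_le (hF i j).1 h5 ha (by positivity) (hF i j).2 (h4.trans hD2)
    obtain ⟨C, hC⟩ : ∃ C, ∀ x, ‖pd i (pd j (nw D)) x‖ ≤ C := by
      obtain ⟨C, hC⟩ := (nice_pd_nw hD j).bdd 1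
      refine ⟨C, fun x => ?_⟩
      rw [← norm_iteratedFDeriv_zero (𝕜 := ℝ)]
      exact (norm_iteratedFDeriv_pd_le (nice_pd_nw hD j).smooth i 0 x).trans (hC x)
    have i1 : Integrable fun x => u x t j * u x t i := (hu.mem ht j).integrable_mul (hu.mem ht i)
    have i2 : Integrable fun x => v x t j * v x t i := (hv.mem ht j).integrable_mul (hv.mem ht i)
    simp only [sub_mul] at h6
    rw [integral_sub (i1.mul_bdd hs.continuous.aestronglyMeasurable (Eventually.of_forall hC))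
      (i2.mul_bdd hs.continuous.aestronglyMeasurable (Eventually.of_forall hC))] at h6
    linarith [(abs_le.1 h6).1]
  have h7 := key hD (h1.trans h2)
  simp only [← Finset.sum_sub_distrib]
  refine (Finset.sum_le_sum fun i _ => Finset.sum_le_sum fun j _ => h7 i j).trans_eq ?_
  simp only [Fin.sum_univ_three]
  ring

theorem trans_term (hu : WS ν T E0 u p) (hv : WS ν T E0 v q) (ht : t ∈ Icc 0 T)
    (hη : Test η) (h01 : ∀ x, 0 ≤ η x ∧ η x ≤ 1) (hl : 0 ≤ lam) (hd : ∀ x, ‖fderiv ℝ η x‖ ≤ lam)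
    (hM : 0 ≤ M) (hb : ∀ x i j, |pd j (fun y => v y t i) x| ≤ M) {a : ℝ} (ha : 0 ≤ a)
    (hF : ∀ i j, MemLp (fun x => u x t j * (u x t i - v x t i)) 2 volume
      ∧ ∫ x, (u x t j * (u x t i - v x t i)) ^ 2 ≤ a ^ 2) (i : Fin 3) :
    (∫ x, (∑ j, v x t j * pd j (fun y => v y t i) x) * (η x ^ 2 * (u x t i - v x t i)))
      - ∫ x, (∑ j, u x t j * pd j (fun y => u y t i) x) * (η x ^ 2 * (u x t i - v x t i))
      ≤ 3 * M * en u v t + 6 * (a * (lam * (E0 + 1))) := by
  have hw : ∀ i, ContDiff ℝ ∞ fun x => u x t i - v x t i := fun i => (hu.sm ht i).sub (hv.sm ht i)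
  have hΦ : Test fun x => η x ^ 2 * (u x t i - v x t i) := (test_sq hη).mul (hw i)
  have h0 := hu.nonneg ht
  have c1 : ∀ {a : Fin 3 → R3 → ℝ} {b : R3 → ℝ}, (∀ j, ContDiff ℝ ∞ (a j)) → ContDiff ℝ ∞ b →
      Continuous fun x => ∑ j, a j x * pd j b x := fun ha hb =>
    continuous_finsetSum _ fun j _ => (ha j).continuous.mul (contDiff_pd hb j).continuous
  have i1 := hΦ.integrable_mul (c1 (hv.sm ht) (hv.sm ht i))
  have i2 := hΦ.integrable_mul (c1 (hu.sm ht) (hu.sm ht i))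
  have i3 := (test_sq hη).integrable_mul (c1 (hu.sm ht) ((hw i).pow 2))
  have i4 := hΦ.integrable_mul (c1 hw (hv.sm ht i))
  have e : ∀ x, (∑ j, v x t j * pd j (fun y => v y t i) x) * (η x ^ 2 * (u x t i - v x t i))
      - (∑ j, u x t j * pd j (fun y => u y t i) x) * (η x ^ 2 * (u x t i - v x t i))
      = -(1 / 2) * ((∑ j, u x t j * pd j (fun y => (u y t i - v y t i) ^ 2) x) * η x ^ 2)
        - (∑ j, (u x t j - v x t j) * pd j (fun y => v y t i) x)
          * (η x ^ 2 * (u x t i - v x t i)) := fun x => by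
    simp only [pd_sq (hw i), pd_sub ((hu.sm ht i).differentiable (by simp) x)
      ((hv.sm ht i).differentiable (by simp) x), Fin.sum_univ_three]
    ring
  rw [← integral_sub i1 i2]
  simp only [e]
  rw [integral_sub (i3.const_mul _) i4, integral_const_mul, hu.flux ht (test_sq hη) ((hw i).pow 2)]
  have hi := fun i => (dif_mem hu hv ht i).integrable_sq
  have k1 : ∀ j, ∫ x, u x t j * (u x t i - v x t i) ^ 2 * pd j (fun y => η y ^ 2) x
      ≤ a * (4 * (lam * (E0 + 1))) := fun j => by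
    obtain ⟨h1, h2⟩ := mem_of_le
      (F := fun x => (u x t i - v x t i) * pd j (fun y => η y ^ 2) x)
      ((hw i).continuous.mul (contDiff_pd (test_sq hη).1 j).continuous)
      ((hi i).const_mul (4 * lam ^ 2)) fun x => by
        rw [mul_pow, mul_comm]
        exact mul_le_mul_of_nonneg_right (pd_sq_le hη h01 hd j x) (sq_nonneg _)
    rw [integral_const_mul] at h2
    have h3 := mul_le_mul_of_nonneg_left ((en_one i).trans (en_le hu hv ht))
      (by positivity : 0 ≤ 4 * lam ^ 2)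
    have h4 : 0 ≤ lam ^ 2 * (E0 ^ 2 + E0 + 1) := by positivity
    have h5 := pair_le (hF i j).1 h1 ha (b := 4 * (lam * (E0 + 1))) (by positivity) (hF i j).2
      (h2.trans (by nlinarith))
    refine le_trans (le_of_eq ?_) (abs_le.1 h5).2
    congr 1
    funext x
    ring
  have k2 : -∫ x, (∑ j, (u x t j - v x t j) * pd j (fun y => v y t i) x)
      * (η x ^ 2 * (u x t i - v x t i)) ≤ 3 * M * en u v t := by
    rw [← integral_neg, en, ← integral_finsetSum _ fun i _ => hi i, ← integral_const_mul]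
    refine integral_mono i4.neg ((integrable_finsetSum _ fun i _ => hi i).const_mul _) fun x => ?_
    have h1 : ∀ j, (u x t j - v x t j) ^ 2 ≤ ∑ k, (u x t k - v x t k) ^ 2 := fun j =>
      Finset.single_le_sum (f := fun k => (u x t k - v x t k) ^ 2) (fun _ _ => sq_nonneg _)
        (Finset.mem_univ j)
    have h2 : ∀ j, -((u x t j - v x t j) * pd j (fun y => v y t i) x
        * (η x ^ 2 * (u x t i - v x t i))) ≤ M * ∑ k, (u x t k - v x t k) ^ 2 := fun j => by
      refine (neg_le_abs _).trans ?_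
      have h3 : |u x t j - v x t j| * |u x t i - v x t i| ≤ ∑ k, (u x t k - v x t k) ^ 2 := by
        nlinarith [h1 i, h1 j, sq_abs (u x t j - v x t j), sq_abs (u x t i - v x t i),
          sq_nonneg (|u x t j - v x t j| - |u x t i - v x t i|)]
      have h4 : |pd j (fun y => v y t i) x| * η x ^ 2 ≤ M * 1 :=
        mul_le_mul (hb x i j) (pow_le_one₀ (h01 x).1 (h01 x).2) (sq_nonneg _) hM
      have h5 := mul_le_mul h4 h3 (by positivity) (by positivity)
      rw [abs_mul, abs_mul, abs_mul, abs_sq]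
      linarith
    simp only [Finset.sum_mul]
    generalize ∑ k, (u x t k - v x t k) ^ 2 = s at h2
    simp only [Fin.sum_univ_three]
    linarith [h2 0, h2 1, h2 2]
  simp only [Fin.sum_univ_three] at k2 ⊢
  linarith [k1 0, k1 1, k1 2]

theorem rate : ∃ C : ℝ, 0 ≤ C ∧ ∀ {ν T E0 M t lam β : ℝ} {u v : R3 → ℝ → R3} {p q : R3 → ℝ → ℝ}
    {η : R3 → ℝ}, 0 ≤ ν → WS ν T E0 u p → WS ν T E0 v q → 0 < T → t ∈ Icc 0 T → Test η →
    (∀ x, 0 ≤ η x ∧ η x ≤ 1) → 0 ≤ lam → lam ≤ 1 → (∀ x, ‖fderiv ℝ η x‖ ≤ lam) → 0 ≤ M →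
    (∀ x i, |v x t i| ≤ M) → (∀ x i j, |pd j (fun y => v y t i) x| ≤ M) → 0 ≤ β →
    (Integrable fun x => ‖u x t‖ ^ 4) → ∫ x, ‖u x t‖ ^ 4 ≤ β ^ 2 →
    ∑ i, ((∫ x, derivWithin (fun s => u x s i) (Icc 0 T) t * (η x ^ 2 * (u x t i - v x t i)))
      - ∫ x, derivWithin (fun s => v x s i) (Icc 0 T) t * (η x ^ 2 * (u x t i - v x t i)))
      ≤ (ν * C + 9 * M) * en u v t + 81 * ((2 * β + 2 * M * (E0 + 1)) * (lam * (E0 + 1))) := by
  obtain ⟨C, hC, hpos⟩ := H.Wide.lam_pos
  refine ⟨C, hC, ?_⟩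
  intro ν T E0 M t lam β u v p q η hν hu hv hT ht hη h01 hl hl1 hd hM hb0 hb1 hβ i4 h4
  have hw : ∀ i, ContDiff ℝ ∞ fun x => u x t i - v x t i := fun i => (hu.sm ht i).sub (hv.sm ht i)
  have hΦ : ∀ i, Test fun x => η x ^ 2 * (u x t i - v x t i) := fun i => (test_sq hη).mul (hw i)
  have h0 := hu.nonneg ht
  have ha : 0 ≤ 2 * β + 2 * M * (E0 + 1) := by positivity
  have hv2 : ∀ x i, v x t i ^ 2 ≤ M ^ 2 := fun x i => by
    rw [← sq_abs]
    exact pow_le_pow_left₀ (abs_nonneg _) (hb0 x i) 2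
  have hu4 : ∀ x i j, (u x t j * u x t i) ^ 2 ≤ ‖u x t‖ ^ 4 := fun x i j => by
    have := mul_le_mul (sq_le (u x t) j) (sq_le (u x t) i) (sq_nonneg _) (sq_nonneg _)
    nlinarith
  have k1 := press_term hu hv hT ht hη h01 hl hd ha fun i j =>
    quad hu hv ht hM hβ i4 h4 (((hu.sm ht j).mul (hu.sm ht i)).sub
      ((hv.sm ht j).mul (hv.sm ht i))).continuous fun x => by
      have h1 := mul_le_mul (hv2 x j) (sq_le (v x t) i) (sq_nonneg _) (sq_nonneg _)
      have h2 := mul_nonneg (sq_nonneg M) (sq_nonneg ‖u x t‖)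
      nlinarith [hu4 x i j, sq_nonneg (u x t j * u x t i + v x t j * v x t i)]
  have k2 := trans_term hu hv ht hη h01 hl hd hM hb1 ha fun i j =>
    quad hu hv ht hM hβ i4 h4 ((hu.sm ht j).mul (hw i)).continuous fun x => by
      have h1 := mul_le_mul (hv2 x i) (sq_le (u x t) j) (sq_nonneg _) (sq_nonneg _)
      have h2 := mul_nonneg (sq_nonneg M) (sq_nonneg ‖v x t‖)
      nlinarith [hu4 x i j, sq_nonneg (u x t j * u x t i + u x t j * v x t i)]
  have k3 : ∀ i, -ν * (∫ x, u x t i * Lam (fun x => η x ^ 2 * (u x t i - v x t i)) x)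
      - -ν * ∫ x, v x t i * Lam (fun x => η x ^ 2 * (u x t i - v x t i)) x
      ≤ ν * C * ∫ x, (u x t i - v x t i) ^ 2 := fun i => by
    have h1 := hpos _ η (hw i) (dif_mem hu hv ht i) hη h01 fun x => (hd x).trans hl1
    have i1 : Integrable fun x => u x t i * Lam (fun x => η x ^ 2 * (u x t i - v x t i)) x :=
      (hu.mem ht i).integrable_mul (lam_mem (hΦ i))
    have i2 : Integrable fun x => v x t i * Lam (fun x => η x ^ 2 * (u x t i - v x t i)) x :=
      (hv.mem ht i).integrable_mul (lam_mem (hΦ i))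
    simp only [sub_mul] at h1
    rw [integral_sub i1 i2] at h1
    nlinarith [mul_le_mul_of_nonneg_left h1 hν]
  simp only [fun i => hu.one hT ht (hΦ i) i, fun i => hv.one hT ht (hΦ i) i]
  have k4 := k2 0
  have k5 := k2 1
  have k6 := k2 2
  have k7 : ν * C * en u v t = ∑ i, ν * C * ∫ x, (u x t i - v x t i) ^ 2 := by
    rw [en, Finset.mul_sum]
  rw [Fin.sum_univ_three] at k7
  rw [Fin.sum_univ_three, Fin.sum_univ_three] at k1
  rw [Fin.sum_univ_three]
  linarith [k3 0, k3 1, k3 2]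

end Pool.Agent.Work.MP_6bf1e5_an.Ens.Wide
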