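import Pool.Agent.Work.MP_6bf1e5_an.H.WideUq
import Pool.Agent.Work.MP_6bf1e5_an.H.WideStmt
import Pool.Agent.Work.MP_6bf1e5_an.H.FourH
import Pool.Agent.Work.MP_6bf1e5_an.H.ExDefs

/-!
Uniqueness and non-existence in the wide class.
-/

open scoped ContDiff ENNReal FourierTransform Real Topology
open Set MeasureTheory Filter Metric

namespace Pool.Agent.Work.MP_6bf1e5_an.H

variable {α ν T : ℝ} {u0 : R3 → R3} {u v : R3 → ℝ → R3} {p q : R3 → ℝ → ℝ}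
  {U : ℝ → Fin 3 → R3 → ℂ}

theorem wide_lam {φ : Sc} (h1 : ContDiff ℝ ∞ φ) (h2 : HasCompactSupport φ) (x : R3) :
    (𝓕⁻ (fun ξ => (((2 * π * ‖ξ‖) ^ (2 * (3 / 4) : ℝ) : ℝ) : ℂ) * 𝓕 (fun y => (φ y : ℂ)) ξ) x).re
      = Lam φ x := by
  obtain ⟨F, hF⟩ := (hinf_of_supp h1 h2).exists_rep
  rw [Lam, (hF.1.cg (FourB_eq hF.1 (h1.continuous.integrable_of_hasCompactSupport h2))).Dp_eq]
  norm_num [sy]

theorem wide_cont (h : ContDiffOn ℝ ∞ (fun z : R3 × ℝ => u z.1 z.2) (univ ×ˢ Icc 0 T)) {t : ℝ}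
    (ht : t ∈ Icc 0 T) : Continuous fun x => u x t :=
  h.continuousOn.comp_continuous (f := fun x : R3 => (x, t)) (by fun_prop) fun _ => ⟨trivial, ht⟩

theorem wide_pow (w : R3 → R3) (n : ℕ) :
    ∫⁻ x, ‖w x‖ₑ ^ n = ∫⁻ x, ENNReal.ofReal (‖w x‖ ^ n) :=
  lintegral_congr fun x => by rw [ENNReal.ofReal_pow (norm_nonneg _), ofReal_norm]

theorem WSol.ws (h : WSol (3 / 4) ν u0 T u p) :
    ∃ E, ∀ E0, E ≤ E0 → Ens.Wide.WS ν T E0 u p := by
  obtain ⟨C, hC, he⟩ := h.energy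
  have hn : ∀ t, 0 ≤ᵐ[volume] fun x => ‖u x t‖ ^ 2 := fun t =>
    Eventually.of_forall fun x => sq_nonneg _
  have hm := fun t ht => ((wide_cont h.smooth_u (t := t) ht).norm.pow 2).aestronglyMeasurable
    (μ := volume)
  refine ⟨C.toReal, fun E0 hE => ⟨Ens.contDiffOn_vec.1 h.smooth_u, h.smooth_p, fun t ht =>
    ⟨hm t ht, (hasFiniteIntegral_iff_ofReal (hn t)).2 (wide_pow _ 2 ▸ (he t ht).trans_lt hC)⟩,
    fun t ht => le_trans ?_ hE, fun t ht i φ hφ => ?_, h.divFree⟩⟩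
  · rw [integral_eq_lintegral_of_nonneg_ae (hn t) (hm t ht), ← wide_pow]
    exact ENNReal.toReal_mono hC.ne (he t ht)
  · have h1 := h.momentum t ht i φ hφ.1 hφ.2
    simp only [wide_lam hφ.1 hφ.2] at h1
    exact h1

theorem WSol.mono (h : WSol α ν u0 T u p) {T1 : ℝ} (h0 : 0 < T1) (h1 : T1 ≤ T) :
    WSol α ν u0 T1 u p := by
  have hs : Icc 0 T1 ⊆ Icc 0 T := Icc_subset_Icc_right h1
  obtain ⟨C, hC, he⟩ := h.energy
  refine ⟨h.smooth_u.mono (prod_mono subset_rfl hs), h.smooth_p.mono (prod_mono subset_rfl hs),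
    ⟨C, hC, fun t ht => he t (hs ht)⟩, (lintegral_mono_set hs).trans_lt h.four,
    fun t ht i φ h2 h3 => ?_, fun x t ht => h.divFree x t (hs ht), h.initial⟩
  simp only [fun x => (((Ens.contDiffOn_vec.1 h.smooth_u i).hasDerivWithinAt x (hs ht)).mono
    hs).derivWithin (uniqueDiffOn_Icc h0 t ht)]
  exact h.momentum t (hs ht) i φ h2 h3

theorem FSol.wsol (h : FSol (3 / 4) ν u0 T u p U) : WSol (3 / 4) ν u0 T u p := by
  obtain ⟨h1, h2, h3⟩ := h.bounds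
  obtain ⟨C, hC⟩ := h2 [] 0 le_rfl
  have hb : ∀ t ∈ Icc 0 T, ∀ i, ∫ y, u y t i ^ 2 ≤ C ∧ ∀ x, |u x t i| ≤ C := fun t ht i => by
    have := hC t ht i
    rwa [Dp_zero (h1 t ht i).inA] at this
  have he : ∀ t ∈ Icc 0 T, ∫⁻ x, ‖u x t‖ₑ ^ 2 ≤ ENNReal.ofReal (3 * C) := fun t ht => by
    have hi := fun i => Dyn.int_sq (h1 t ht i)
    rw [wide_pow]
    simp only [Ens.norm_sq_eq_sum]
    rw [← ofReal_integral_eq_lintegral_ofReal (integrable_finsetSum _ fun i _ => hi i)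
      (Eventually.of_forall fun x => Finset.sum_nonneg fun i _ => sq_nonneg _),
      integral_finsetSum _ fun i _ => hi i, Fin.sum_univ_three]
    exact ENNReal.ofReal_le_ofReal (by linarith [(hb t ht 0).1, (hb t ht 1).1, (hb t ht 2).1])
  refine ⟨h.smooth_u, h.smooth_p, ⟨_, ENNReal.ofReal_lt_top, he⟩, ?_, fun t ht i φ a1 a2 => ?_,
    h.divFree, h.initial⟩
  · refine setLIntegral_lt_top_of_le_nnreal measure_Icc_lt_top.ne
      ⟨((ENNReal.ofReal (3 * C ^ 2) * ENNReal.ofReal (3 * C)) ^ (1 / 2 : ℝ)).toNNReal,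
        fun t ht => ?_⟩
    rw [ENNReal.coe_toNNReal (ENNReal.rpow_ne_top_of_nonneg (by norm_num)
      (ENNReal.mul_ne_top ENNReal.ofReal_ne_top ENNReal.ofReal_ne_top))]
    refine ENNReal.rpow_le_rpow (le_trans ?_ (mul_le_mul_right (he t ht) _)) (by norm_num)
    rw [← lintegral_const_mul' _ _ ENNReal.ofReal_ne_top]
    refine lintegral_mono fun x => ?_
    have h4 : ∀ i, u x t i ^ 2 ≤ C ^ 2 := fun i => by
      rw [← sq_abs]
      exact pow_le_pow_left₀ (abs_nonneg _) ((hb t ht i).2 x) 2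
    rw [show 4 = 2 + 2 from rfl, pow_add]
    refine mul_le_mul_left ?_ _
    rw [← ofReal_norm, ← ENNReal.ofReal_pow (norm_nonneg _), Ens.norm_sq_eq_sum, Fin.sum_univ_three]
    exact ENNReal.ofReal_le_ofReal (by linarith [h4 0, h4 1, h4 2])
  · simp only [wide_lam a1 a2, fun x => h3 x t ht i]
    simp only [mul_assoc]
    rw [integral_const_mul]
    exact congrArg _ (Dp_symm (h1 t ht i) (hinf_of_supp a1 a2) (by norm_num))

theorem FSol.wide_unique (hν : 0 ≤ ν) (hT : 0 < T) (h : FSol (3 / 4) ν u0 T u p U)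
    (g : WSol (3 / 4) ν u0 T v q) : ∀ t ∈ Icc 0 T, ∀ x, v x t = u x t := by
  obtain ⟨E, hE⟩ := g.ws
  obtain ⟨E', hE'⟩ := h.wsol.ws
  obtain ⟨h1, h2, -⟩ := h.bounds
  obtain ⟨C, hC⟩ := h2 [] 0 le_rfl
  choose D hD using fun j : Fin 3 => h2 [j] 0 le_rfl
  refine (hE _ (le_max_left E E')).unique hν (hE' _ (le_max_right E E')) hT
    (M := |C| + ∑ j, |D j|) (by positivity) (fun t ht x i => ⟨?_, fun j => ?_⟩) g.four
    fun x => by rw [g.initial, h.initial]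
  · have := (hC t ht i).2 x
    rw [Dp_zero (h1 t ht i).inA] at this
    exact this.trans ((le_abs_self C).trans (le_add_of_nonneg_right (by positivity)))
  · have := (hD j t ht i).2 x
    rw [Dp_zero (h1 t ht i).inA] at this
    exact this.trans ((le_abs_self _).trans ((Finset.single_le_sum (f := fun j => |D j|)
      (fun _ _ => abs_nonneg _) (Finset.mem_univ j)).trans (le_add_of_nonneg_left (abs_nonneg C))))

theorem wide_of_blowup (hν : 0 < ν) (h : ∃ T, 0 < T ∧ BlowUp ν T) :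
    ∃ T > 0, ∃ u0 : SchwartzMap R3 R3, (∀ x, ∑ i, pd i (fun y => u0 y i) x = 0) ∧
      (∃ u p U, (∀ T1, 0 < T1 → T1 < T → FSol (3 / 4) ν u0 T1 u p U ∧ WSol (3 / 4) ν u0 T1 u p ∧
          ∀ v q, WSol (3 / 4) ν u0 T1 v q → ∀ t ∈ Icc 0 T1, ∀ x, v x t = u x t) ∧
        (∀ t ∈ Ico 0 T, ∫ x, ‖u x t‖ ^ 2 ≤ ∫ x, ‖u0 x‖ ^ 2) ∧
        ∃ c > 0, ∃ R : ℝ, ∀ t ∈ Ico 0 T,
          (∃ x, ‖x‖ ≤ R * (T - t) ^ (2 / 3 : ℝ) ∧ c * (T - t) ^ (-(1 / 3) : ℝ) ≤ ‖u x t‖) ∧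
          ∃ x, ‖x‖ ≤ R * (T - t) ^ (2 / 3 : ℝ) ∧ ∃ i : Fin 3, c / (T - t) ≤
            |pd (i + 1) (fun y => u y t (i + 2)) x - pd (i + 2) (fun y => u y t (i + 1)) x|) ∧
      ¬∃ u p, WSol (3 / 4) ν u0 T u p := by
  obtain ⟨T, hT, u0, hd, ⟨u, p, U, hs, he, c, hc, R, hr⟩, -⟩ := h
  refine ⟨T, hT, u0, hd, ⟨u, p, U, fun T1 a1 a2 => ⟨hs T1 a1 a2, (hs T1 a1 a2).wsol,
    fun v q g => (hs T1 a1 a2).wide_unique hν.le a1 g⟩, he, c, hc, R, hr⟩, ?_⟩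
  rintro ⟨v, q, g⟩
  obtain ⟨B, hB⟩ := ((isCompact_closedBall (0 : R3) (|R| * T ^ (2 / 3 : ℝ))).prod
    (isCompact_Icc (a := 0) (b := T))).exists_bound_of_continuousOn
    (g.smooth_u.continuousOn.mono (prod_mono (subset_univ _) subset_rfl))
  have l1 : Tendsto (fun s : ℝ => c * s ^ (-(1 / 3) : ℝ)) (𝓝[>] 0) atTop :=
    (tendsto_rpow_neg_nhdsGT_zero (by norm_num)).const_mul_atTop hc
  obtain ⟨s, h1, h2, h3⟩ := ((l1.eventually_gt_atTop B).and (Ioo_mem_nhdsGT hT)).exists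
  obtain ⟨⟨x, h4, h5⟩, -⟩ := hr (T - s) ⟨by linarith, by linarith⟩
  rw [sub_sub_cancel] at h4 h5
  have h6 := (hs (T - s) (by linarith) (by linarith)).wide_unique hν.le (by linarith)
    (g.mono (by linarith) (by linarith)) (T - s) ⟨by linarith, le_rfl⟩ x
  have h7 := hB (x, T - s) ⟨mem_closedBall_zero_iff.2 (h4.trans (mul_le_mul (le_abs_self R)
    (Real.rpow_le_rpow h2.le h3.le (by norm_num)) (by positivity) (abs_nonneg R))),
    by linarith, by linarith⟩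
  simp only [h6] at h7
  linarith

end Pool.Agent.Work.MP_6bf1e5_an.H
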