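import Pool.Agent.Work.MP_6bf1e5_an.H.Stmt

/-!
The Sobolev inequality for the double integral form of the dissipation: `H ^ (3 / 4)` embeds in `L⁴`.
-/

open scoped ContDiff ENNReal Topology
open Set MeasureTheory Filter Metric

namespace Pool.Agent.Work.MP_6bf1e5_an.H.Wide

theorem sob_pt : ∃ K : ℝ, 0 < K ∧ ∀ (f : R3 → ℝ) (n : ℝ), Continuous f → 0 < n →
    ∫⁻ y, ENNReal.ofReal (f y ^ 4) ≤ ENNReal.ofReal (n ^ 2) → ∀ x, ENNReal.ofReal (f x ^ 4)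
      ≤ ENNReal.ofReal (K * n) * ∫⁻ y, ‖f x - f y‖ₑ ^ 2 / ‖x - y‖ₑ ^ (9 / 2 : ℝ) := by
  obtain ⟨c, hc, hv⟩ : ∃ c : ℝ, 0 < c ∧ volume (ball (0 : R3) 1) = ENNReal.ofReal c :=
    ⟨_, ENNReal.toReal_pos (measure_ball_pos volume (0 : R3) one_pos).ne' measure_ball_lt_top.ne,
      (ENNReal.ofReal_toReal measure_ball_lt_top.ne).symm⟩
  have hk : 0 < √(8 / c) := Real.sqrt_pos.2 (by positivity)
  have hk2 : √(8 / c) ^ 2 * c = 8 := by
    rw [Real.sq_sqrt (by positivity)]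
    field_simp
  generalize √(8 / c) = k at hk hk2
  refine ⟨k ^ 3, by positivity, fun f n hf hn h4 x => ?_⟩
  rcases eq_or_ne (f x) 0 with h0 | h0
  · simp [h0]
  have ha : 0 < f x ^ 2 := by positivity
  set s : ℝ := k * n / f x ^ 2 with hs
  have hs0 : 0 < s := by positivity
  set G := ∫⁻ y, ‖f x - f y‖ₑ ^ 2 / ‖x - y‖ₑ ^ (9 / 2 : ℝ) with hG
  have h1 : volume (ball x (s ^ (2 / 3 : ℝ))) = ENNReal.ofReal (s ^ 2 * c) := by
    rw [Measure.addHaar_ball _ _ (by positivity), hv, finrank_euclideanSpace_fin,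
      ← Real.rpow_natCast, ← Real.rpow_mul hs0.le, ENNReal.ofReal_mul (sq_nonneg _)]
    norm_num
  have h2 : ∫⁻ _ in ball x (s ^ (2 / 3 : ℝ)), ENNReal.ofReal (f x ^ 2 / 4)
      ≤ ∫⁻ y in ball x (s ^ (2 / 3 : ℝ)),
        (ENNReal.ofReal (s ^ 3) * (‖f x - f y‖ₑ ^ 2 / ‖x - y‖ₑ ^ (9 / 2 : ℝ))
          + ENNReal.ofReal (1 / f x ^ 2) * ENNReal.ofReal (f y ^ 4)) := by
    refine setLIntegral_mono' measurableSet_ball fun y hy => ?_
    have h3 : f x ^ 2 / 4 ≤ (f x - f y) ^ 2 + 1 / f x ^ 2 * f y ^ 4 := by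
      rw [one_div, ← div_eq_inv_mul, ← sub_le_iff_le_add', le_div_iff₀ ha]
      nlinarith [sq_nonneg (f x ^ 2 / 2 - f y ^ 2), mul_nonneg ha.le (sq_nonneg (f x - 2 * f y))]
    refine (ENNReal.ofReal_le_ofReal h3).trans ?_
    rw [ENNReal.ofReal_add (sq_nonneg _) (by positivity), ENNReal.ofReal_mul (by positivity)]
    refine add_le_add_left ?_ _
    rcases eq_or_ne x y with rfl | hxy
    · simp
    have h5 : ‖x - y‖ₑ ^ (9 / 2 : ℝ) ≤ ENNReal.ofReal (s ^ 3) := by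
      rw [← ofReal_norm, ENNReal.ofReal_rpow_of_nonneg (norm_nonneg _) (by norm_num)]
      refine ENNReal.ofReal_le_ofReal ?_
      rw [mem_ball, dist_comm, dist_eq_norm] at hy
      refine (Real.rpow_le_rpow (norm_nonneg _) hy.le (by norm_num)).trans_eq ?_
      rw [← Real.rpow_mul hs0.le, ← Real.rpow_natCast]
      norm_num
    refine le_trans (le_of_eq ?_) (mul_le_mul_left h5 _)
    rw [ENNReal.mul_div_cancel (ENNReal.rpow_pos (by simpa [sub_eq_zero] using hxy)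
      enorm_ne_top).ne' (h5.trans_lt ENNReal.ofReal_lt_top).ne, ← ofReal_norm,
      ← ENNReal.ofReal_pow (norm_nonneg _), Real.norm_eq_abs, sq_abs]
  rw [setLIntegral_const, h1, ← ENNReal.ofReal_mul (by positivity),
    lintegral_add_right _ (by fun_prop), lintegral_const_mul' _ _ ENNReal.ofReal_ne_top,
    lintegral_const_mul' _ _ ENNReal.ofReal_ne_top] at h2
  have h6 := h2.trans (add_le_add (mul_le_mul_right (setLIntegral_le_lintegral _ _) _)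
    (mul_le_mul_right ((setLIntegral_le_lintegral _ _).trans h4) _))
  have e : f x ^ 2 / 4 * (s ^ 2 * c) = 1 / f x ^ 2 * n ^ 2 + 1 / f x ^ 2 * n ^ 2 := by
    rw [hs]
    field_simp
    linarith
  rw [← ENNReal.ofReal_mul (by positivity), e, ENNReal.ofReal_add (by positivity) (by positivity),
    ENNReal.add_le_add_iff_right ENNReal.ofReal_ne_top] at h6
  have h7 := mul_le_mul_right h6 (ENNReal.ofReal (f x ^ 6 / n ^ 2))
  rw [← mul_assoc, ← ENNReal.ofReal_mul (by positivity), ← ENNReal.ofReal_mul (by positivity)] at h7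
  convert h7 using 3
  · field_simp
  · rw [hs]
    field_simp

theorem sob_four : ∃ K : ℝ, ∀ w : R3 → R3, Continuous w → ∫⁻ x, ‖w x‖ₑ ^ 2 < ⊤ →
    (∫⁻ x, ‖w x‖ₑ ^ 4) ^ (1 / 2 : ℝ)
      ≤ ENNReal.ofReal K * ∫⁻ x, ∫⁻ y, ‖w x - w y‖ₑ ^ 2 / ‖x - y‖ₑ ^ (9 / 2 : ℝ) := by
  obtain ⟨K, hK, hp⟩ := sob_pt
  refine ⟨K, fun w hw h2 => ?_⟩
  set D := ∫⁻ x, ∫⁻ y, ‖w x - w y‖ₑ ^ 2 / ‖x - y‖ₑ ^ (9 / 2 : ℝ) with hD
  have hc : ∀ m : ℕ, Continuous fun x => min ‖w x‖ (m : ℝ) := fun m => hw.norm.min continuous_const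
  have h0 : ∀ (m : ℕ) x, 0 ≤ min ‖w x‖ (m : ℝ) := fun m x => le_min (norm_nonneg _) m.cast_nonneg
  have key : ∀ m : ℕ, ∫⁻ x, ENNReal.ofReal (min ‖w x‖ (m : ℝ) ^ 4) ≤ (ENNReal.ofReal K * D) ^ 2 := by
    intro m
    have h3 : ∫⁻ x, ENNReal.ofReal (min ‖w x‖ (m : ℝ) ^ 4) ≠ ⊤ := by
      refine ne_top_of_le_ne_top (ENNReal.mul_ne_top (ENNReal.ofReal_ne_top (r := (m : ℝ) ^ 2))
        h2.ne) ?_
      rw [← lintegral_const_mul' _ _ ENNReal.ofReal_ne_top]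
      refine lintegral_mono fun x => ?_
      rw [← ofReal_norm, ← ENNReal.ofReal_pow (norm_nonneg _), ← ENNReal.ofReal_mul (sq_nonneg _),
        show 4 = 2 + 2 from rfl, pow_add]
      exact ENNReal.ofReal_le_ofReal (mul_le_mul (pow_le_pow_left₀ (h0 m x) (min_le_right _ _) 2)
        (pow_le_pow_left₀ (h0 m x) (min_le_left _ _) 2) (sq_nonneg _) (sq_nonneg _))
    rcases eq_or_ne (∫⁻ x, ENNReal.ofReal (min ‖w x‖ (m : ℝ) ^ 4)) 0 with h4 | h4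
    · rw [h4]
      exact zero_le
    obtain ⟨n, hn, e⟩ : ∃ n : ℝ, 0 < n ∧
        ∫⁻ x, ENNReal.ofReal (min ‖w x‖ (m : ℝ) ^ 4) = ENNReal.ofReal (n ^ 2) :=
      ⟨_, Real.sqrt_pos.2 (ENNReal.toReal_pos h4 h3), by
        rw [Real.sq_sqrt ENNReal.toReal_nonneg, ENNReal.ofReal_toReal h3]⟩
    have h5 : ∫⁻ x, ENNReal.ofReal (min ‖w x‖ (m : ℝ) ^ 4) ≤ ENNReal.ofReal (K * n) * D := by
      rw [hD, ← lintegral_const_mul' _ _ ENNReal.ofReal_ne_top]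
      refine lintegral_mono fun x => (hp _ n (hc m) hn e.le x).trans
        (mul_le_mul_right (lintegral_mono fun y => ENNReal.div_le_div_right ?_ _) _)
      refine pow_le_pow_left' ?_ 2
      rw [← ofReal_norm, ← ofReal_norm]
      refine ENNReal.ofReal_le_ofReal ((abs_min_sub_min_le_max _ _ _ _).trans ?_)
      rw [sub_self, abs_zero]
      exact max_le (abs_norm_sub_norm_le _ _) (norm_nonneg _)
    rw [e, sq, ENNReal.ofReal_mul hn.le, mul_comm K, ENNReal.ofReal_mul hn.le, mul_assoc,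
      ENNReal.mul_le_mul_iff_right (ENNReal.ofReal_pos.2 hn).ne' ENNReal.ofReal_ne_top] at h5
    rw [e, ENNReal.ofReal_pow hn.le]
    exact pow_le_pow_left' h5 2
  have h6 : ∫⁻ x, ‖w x‖ₑ ^ 4 ≤ (ENNReal.ofReal K * D) ^ 2 := by
    refine le_of_tendsto' (lintegral_tendsto_of_tendsto_of_monotone
      (fun m => ((hc m).pow 4).measurable.ennreal_ofReal.aemeasurable)
      (Eventually.of_forall fun x a b hab => ?_) (Eventually.of_forall fun x => ?_)) key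
    · exact ENNReal.ofReal_le_ofReal (pow_le_pow_left₀ (h0 a x)
        (min_le_min_left _ (Nat.cast_le.2 hab)) 4)
    · refine tendsto_const_nhds.congr' ?_
      filter_upwards [tendsto_natCast_atTop_atTop.eventually_ge_atTop ‖w x‖] with m hm
      rw [Pi.pow_apply, min_eq_left hm, ENNReal.ofReal_pow (norm_nonneg _), ofReal_norm]
  refine (ENNReal.rpow_le_rpow h6 (by norm_num)).trans_eq ?_
  rw [← ENNReal.rpow_natCast, ← ENNReal.rpow_mul]
  norm_num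

/-- Bounded energy and finite dissipation give the integrability condition of the wide class. -/
theorem four_of_dissip {T : ℝ} {u : R3 → ℝ → R3}
    (hs : ContDiffOn ℝ ∞ (fun z : R3 × ℝ => u z.1 z.2) (univ ×ˢ Icc 0 T))
    (he : ∃ C < (⊤ : ℝ≥0∞), ∀ t ∈ Icc 0 T, ∫⁻ x, ‖u x t‖ₑ ^ 2 ≤ C)
    (hd : ∫⁻ t in Icc 0 T, ∫⁻ x, ∫⁻ y, ‖u x t - u y t‖ₑ ^ 2 / ‖x - y‖ₑ ^ (9 / 2 : ℝ) < ⊤) :
    ∫⁻ t in Icc 0 T, (∫⁻ x, ‖u x t‖ₑ ^ 4) ^ (1 / 2 : ℝ) < ⊤ := by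
  obtain ⟨K, hK⟩ := sob_four
  obtain ⟨C, hC, he⟩ := he
  refine lt_of_le_of_lt ?_ (ENNReal.mul_lt_top (ENNReal.ofReal_lt_top (r := K)) hd)
  rw [← lintegral_const_mul' _ _ ENNReal.ofReal_ne_top]
  exact setLIntegral_mono' measurableSet_Icc fun t ht => hK _
    (hs.continuousOn.comp_continuous (f := fun x : R3 => (x, t)) (by fun_prop)
      fun _ => ⟨trivial, ht⟩) ((he t ht).trans_lt hC)

end Pool.Agent.Work.MP_6bf1e5_an.H.Wide
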