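import Pool.Agent.Work.MP_6bf1e5_an.H.Stmt

/-!
The energy class: smooth, bounded energy, and finite dissipation or `u ∈ L²(0, T; L⁴)`.
-/

open scoped ContDiff ENNReal FourierTransform Real
open Set MeasureTheory

namespace Pool.Agent.Work.MP_6bf1e5_an.H

noncomputable section

/-- `(u, p)` is smooth on `ℝ³ × [0, T]`, has bounded energy, has finite dissipation (the double
integral form of `∫₀ᵀ ‖(-Δ) ^ (α / 2) u‖²`) or lies in `L²(0, T; L⁴)`, and solves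
`∂ₜ u + (u·∇) u + ∇ p = -ν (-Δ) ^ α u`, `div u = 0`, `u(·,0) = u0`. No decay of `p` or of the
derivatives of `u` is assumed. The term `(-Δ) ^ α u` is the distribution
`φ ↦ ∫ u (-Δ) ^ α φ`, with the Fourier multiplier `(2 π |ξ|) ^ (2 α)` acting on the test function. -/
structure ESol (α ν : ℝ) (u0 : R3 → R3) (T : ℝ) (u : R3 → ℝ → R3) (p : R3 → ℝ → ℝ) : Prop where
  smooth_u : ContDiffOn ℝ ∞ (fun z : R3 × ℝ => u z.1 z.2) (univ ×ˢ Icc 0 T)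
  smooth_p : ContDiffOn ℝ ∞ (fun z : R3 × ℝ => p z.1 z.2) (univ ×ˢ Icc 0 T)
  energy : ∃ C < (⊤ : ℝ≥0∞), ∀ t ∈ Icc 0 T, ∫⁻ x, ‖u x t‖ₑ ^ 2 ≤ C
  dissip : ∫⁻ t in Icc 0 T, ∫⁻ x, ∫⁻ y, ‖u x t - u y t‖ₑ ^ 2 / ‖x - y‖ₑ ^ (3 + 2 * α) < ⊤ ∨
    ∫⁻ t in Icc 0 T, (∫⁻ x, ‖u x t‖ₑ ^ 4) ^ (1 / 2 : ℝ) < ⊤
  momentum : ∀ t ∈ Icc 0 T, ∀ i, ∀ φ : R3 → ℝ, ContDiff ℝ ∞ φ → HasCompactSupport φ →
    ∫ x, (derivWithin (fun s => u x s i) (Icc 0 T) t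
        + ∑ j, u x t j * pd j (fun y => u y t i) x + pd i (fun y => p y t) x) * φ x
      = -ν * ∫ x, u x t i *
        (𝓕⁻ (fun ξ => (((2 * π * ‖ξ‖) ^ (2 * α) : ℝ) : ℂ) * 𝓕 (fun y => (φ y : ℂ)) ξ) x).re
  divFree : ∀ x, ∀ t ∈ Icc 0 T, ∑ i, pd i (fun y => u y t i) x = 0
  initial : ∀ x, u x 0 = u0 x

end

end Pool.Agent.Work.MP_6bf1e5_an.H
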