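import Pool.Agent.Work.MP_6bf1e5_an.H.WideFin
import Pool.Agent.Work.MP_6bf1e5_an.H.WideSob
import Pool.Agent.Work.MP_6bf1e5_an.H.WideStmt2

/-!
Uniqueness and non-existence in the energy class.
-/

open scoped ContDiff ENNReal FourierTransform Real Topology
open Set MeasureTheory Filter Metric

namespace Pool.Agent.Work.MP_6bf1e5_an.H

variable {α ν T : ℝ} {u0 : R3 → R3} {u : R3 → ℝ → R3} {p : R3 → ℝ → ℝ}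

theorem WSol.esol (h : WSol α ν u0 T u p) : ESol α ν u0 T u p :=
  ⟨h.smooth_u, h.smooth_p, h.energy, Or.inr h.four, h.momentum, h.divFree, h.initial⟩

theorem ESol.wsol (h : ESol (3 / 4) ν u0 T u p) : WSol (3 / 4) ν u0 T u p := by
  refine ⟨h.smooth_u, h.smooth_p, h.energy, h.dissip.elim (fun h1 => ?_) id, h.momentum, h.divFree,
    h.initial⟩
  rw [show (3 + 2 * (3 / 4) : ℝ) = 9 / 2 by norm_num] at h1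
  exact Wide.four_of_dissip h.smooth_u h.energy h1

theorem energy_of_blowup (hν : 0 < ν) (h : ∃ T, 0 < T ∧ BlowUp ν T) :
    ∃ T > 0, ∃ u0 : SchwartzMap R3 R3, (∀ x, ∑ i, pd i (fun y => u0 y i) x = 0) ∧
      (∃ u p U, (∀ T1, 0 < T1 → T1 < T → FSol (3 / 4) ν u0 T1 u p U ∧ ESol (3 / 4) ν u0 T1 u p ∧
          ∀ v q, ESol (3 / 4) ν u0 T1 v q → ∀ t ∈ Icc 0 T1, ∀ x, v x t = u x t) ∧
        (∀ t ∈ Ico 0 T, ∫ x, ‖u x t‖ ^ 2 ≤ ∫ x, ‖u0 x‖ ^ 2) ∧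
        ∃ c > 0, ∃ R : ℝ, ∀ t ∈ Ico 0 T,
          (∃ x, ‖x‖ ≤ R * (T - t) ^ (2 / 3 : ℝ) ∧ c * (T - t) ^ (-(1 / 3) : ℝ) ≤ ‖u x t‖) ∧
          ∃ x, ‖x‖ ≤ R * (T - t) ^ (2 / 3 : ℝ) ∧ ∃ i : Fin 3, c / (T - t) ≤
            |pd (i + 1) (fun y => u y t (i + 2)) x - pd (i + 2) (fun y => u y t (i + 1)) x|) ∧
      ¬∃ u p, ESol (3 / 4) ν u0 T u p := by
  obtain ⟨T, hT, u0, hd, ⟨u, p, U, hs, hr⟩, hn⟩ := wide_of_blowup hν h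
  exact ⟨T, hT, u0, hd, ⟨u, p, U, fun T1 a1 a2 => ⟨(hs T1 a1 a2).1, (hs T1 a1 a2).2.1.esol,
    fun v q g => (hs T1 a1 a2).2.2 v q g.wsol⟩, hr⟩, fun ⟨v, q, g⟩ => hn ⟨v, q, g.wsol⟩⟩

/-- The same with the energy class alone. -/
theorem slim_of_blowup (hν : 0 < ν) (h : ∃ T, 0 < T ∧ BlowUp ν T) :
    ∃ T > 0, ∃ u0 : SchwartzMap R3 R3, (∀ x, ∑ i, pd i (fun y => u0 y i) x = 0) ∧
      (∃ u p, (∀ T1, 0 < T1 → T1 < T → ESol (3 / 4) ν u0 T1 u p ∧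
          ∀ v q, ESol (3 / 4) ν u0 T1 v q → ∀ t ∈ Icc 0 T1, ∀ x, v x t = u x t) ∧
        (∀ t ∈ Ico 0 T, ∫ x, ‖u x t‖ ^ 2 ≤ ∫ x, ‖u0 x‖ ^ 2) ∧
        ∃ c > 0, ∃ R : ℝ, ∀ t ∈ Ico 0 T,
          (∃ x, ‖x‖ ≤ R * (T - t) ^ (2 / 3 : ℝ) ∧ c * (T - t) ^ (-(1 / 3) : ℝ) ≤ ‖u x t‖) ∧
          ∃ x, ‖x‖ ≤ R * (T - t) ^ (2 / 3 : ℝ) ∧ ∃ i : Fin 3, c / (T - t) ≤
            |pd (i + 1) (fun y => u y t (i + 2)) x - pd (i + 2) (fun y => u y t (i + 1)) x|) ∧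
      ¬∃ u p, ESol (3 / 4) ν u0 T u p := by
  obtain ⟨T, hT, u0, hd, ⟨u, p, U, hs, hr⟩, hn⟩ := energy_of_blowup hν h
  exact ⟨T, hT, u0, hd, ⟨u, p, fun T1 a1 a2 => (hs T1 a1 a2).2, hr⟩, hn⟩

/-- The same with the decay of the datum written out. -/
theorem plain_of_blowup (hν : 0 < ν) (h : ∃ T, 0 < T ∧ BlowUp ν T) :
    ∃ T > 0, ∃ u0 : R3 → R3, ContDiff ℝ ∞ u0 ∧
      (∀ n K : ℕ, ∃ C, ∀ x, (1 + ‖x‖) ^ K * ‖iteratedFDeriv ℝ n u0 x‖ ≤ C) ∧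
      (∀ x, ∑ i, pd i (fun y => u0 y i) x = 0) ∧
      (∃ u p, (∀ T1, 0 < T1 → T1 < T → ESol (3 / 4) ν u0 T1 u p ∧
          ∀ v q, ESol (3 / 4) ν u0 T1 v q → ∀ t ∈ Icc 0 T1, ∀ x, v x t = u x t) ∧
        (∀ t ∈ Ico 0 T, ∫ x, ‖u x t‖ ^ 2 ≤ ∫ x, ‖u0 x‖ ^ 2) ∧
        ∃ c > 0, ∃ R : ℝ, ∀ t ∈ Ico 0 T,
          (∃ x, ‖x‖ ≤ R * (T - t) ^ (2 / 3 : ℝ) ∧ c * (T - t) ^ (-(1 / 3) : ℝ) ≤ ‖u x t‖) ∧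
          ∃ x, ‖x‖ ≤ R * (T - t) ^ (2 / 3 : ℝ) ∧ ∃ i : Fin 3, c / (T - t) ≤
            |pd (i + 1) (fun y => u y t (i + 2)) x - pd (i + 2) (fun y => u y t (i + 1)) x|) ∧
      ¬∃ u p, ESol (3 / 4) ν u0 T u p := by
  obtain ⟨T, hT, u0, h1⟩ := slim_of_blowup hν h
  exact ⟨T, hT, u0, u0.smooth ⊤, fun n K =>
    ⟨_, SchwartzMap.one_add_le_sup_seminorm_apply (𝕜 := ℝ) (m := (K, n)) le_rfl le_rfl u0⟩, h1⟩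

end Pool.Agent.Work.MP_6bf1e5_an.H
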