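import Pool.Agent.Work.MP_6bf1e5_an.H.DynHinf

/-!
The symbol `|ξ| ^ (3 / 2)` is a superposition of the symbols of second differences.
-/

open scoped ContDiff ENNReal FourierTransform Real
open Set MeasureTheory Filter Metric

namespace Pool.Agent.Work.MP_6bf1e5_an.H.Wide

noncomputable section

/-- The kernel. -/
def kk (h : R3) : ℝ := ‖h‖ ^ (-(9 / 2) : ℝ)

/-- The symbol of the second difference. -/
def mm (ξ h : R3) : ℝ := 2 - 2 * Real.cos (2 * π * inner ℝ ξ h)

/-- The normalising constant. -/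
def kap : ℝ := (∫ h, mm (EuclideanSpace.single 0 1) h * kk h) / (2 * π) ^ (3 / 2 : ℝ)

theorem kk_nonneg (h : R3) : 0 ≤ kk h := Real.rpow_nonneg (norm_nonneg _) _

theorem kk_meas : Measurable kk := measurable_norm.pow_const _

theorem min_nonneg (h : R3) : 0 ≤ min (‖h‖ ^ 2) 1 := le_min (sq_nonneg _) zero_le_one

theorem int_min : Integrable fun h : R3 => min (‖h‖ ^ 2) 1 * kk h := by
  have hm : AEStronglyMeasurable (fun h : R3 => min (‖h‖ ^ 2) 1 * kk h) volume :=
    (((measurable_norm.pow_const 2).min measurable_const).mul kk_meas).aestronglyMeasurable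
  rw [← integrableOn_univ, ← union_compl_self (ball (0 : R3) 1)]
  refine IntegrableOn.union ?_ ?_
  · refine integrableOn_ball_of_norm_le_rpow (C := 1) (α := 5 / 2) (by simp) (by simp; norm_num)
      (Eventually.of_forall fun h => ?_) hm
    rw [Real.norm_of_nonneg (mul_nonneg (min_nonneg h) (kk_nonneg h)), one_mul]
    refine (mul_le_mul_of_nonneg_right (min_le_left _ _) (kk_nonneg h)).trans_eq ?_
    rw [kk, ← Real.rpow_two, ← Real.rpow_add' (norm_nonneg _) (by norm_num)]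
    norm_num
  · have h1 : Integrable fun h : R3 => (1 + ‖h‖) ^ (-(9 / 2) : ℝ) :=
      integrable_one_add_norm (by simp; norm_num)
    refine (h1.const_mul ((2 : ℝ) ^ (9 / 2 : ℝ))).integrableOn.mono' hm.restrict ?_
    filter_upwards [ae_restrict_mem measurableSet_ball.compl] with h hh
    rw [mem_compl_iff, mem_ball_zero_iff, not_lt] at hh
    rw [Real.norm_of_nonneg (mul_nonneg (min_nonneg h) (kk_nonneg h))]
    refine (mul_le_of_le_one_left (kk_nonneg h) (min_le_right _ _)).trans ?_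
    have h2 : kk h = 2 ^ (9 / 2 : ℝ) * (2 * ‖h‖) ^ (-(9 / 2) : ℝ) := by
      rw [Real.mul_rpow zero_le_two (norm_nonneg _), ← mul_assoc, ← Real.rpow_add two_pos, kk]
      norm_num
    rw [h2]
    refine mul_le_mul_of_nonneg_left ?_ (by positivity)
    exact Real.rpow_le_rpow_of_nonpos (by positivity) (by linarith) (by norm_num)

theorem mm_nonneg (ξ h : R3) : 0 ≤ mm ξ h := by
  have := Real.cos_le_one (2 * π * inner ℝ ξ h)
  unfold mm
  linarith

theorem mm_four (ξ h : R3) : mm ξ h ≤ 4 := by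
  have := Real.neg_one_le_cos (2 * π * inner ℝ ξ h)
  unfold mm
  linarith

theorem mm_le (ξ h : R3) : mm ξ h ≤ ((2 * π * ‖ξ‖) ^ 2 + 4) * min (‖h‖ ^ 2) 1 := by
  rcases le_total (‖h‖ ^ 2) 1 with h1 | h1
  · rw [min_eq_left h1]
    have h2 := Real.one_sub_sq_div_two_le_cos (x := 2 * π * inner ℝ ξ h)
    have h3 : (inner ℝ ξ h) ^ 2 ≤ (‖ξ‖ * ‖h‖) ^ 2 := by
      rw [← sq_abs]
      exact pow_le_pow_left₀ (abs_nonneg _) (abs_real_inner_le_norm ξ h) 2
    have h4 := mul_le_mul_of_nonneg_left h3 (sq_nonneg (2 * π))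
    unfold mm
    nlinarith [sq_nonneg ‖h‖]
  · rw [min_eq_right h1]
    nlinarith [mm_four ξ h, sq_nonneg (2 * π * ‖ξ‖)]

theorem mm_cont : Continuous fun z : R3 × R3 => mm z.1 z.2 := by
  unfold mm
  fun_prop

theorem mm_cont1 (ξ : R3) : Continuous (mm ξ) := by
  unfold mm
  fun_prop

theorem int_mm (ξ : R3) : Integrable fun h => mm ξ h * kk h := by
  refine (int_min.const_mul ((2 * π * ‖ξ‖) ^ 2 + 4)).mono'
    ((mm_cont1 ξ).measurable.mul kk_meas).aestronglyMeasurable
    (Eventually.of_forall fun h => ?_)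
  rw [Real.norm_of_nonneg (mul_nonneg (mm_nonneg ξ h) (kk_nonneg h)), ← mul_assoc]
  exact mul_le_mul_of_nonneg_right (mm_le ξ h) (kk_nonneg h)

theorem mm_iso (A : R3 ≃ₗᵢ[ℝ] R3) (ξ : R3) :
    ∫ h, mm (A ξ) h * kk h = ∫ h, mm ξ h * kk h := by
  rw [← A.measurePreserving.integral_comp A.toHomeomorph.measurableEmbedding]
  simp only [mm, kk, A.inner_map_map, A.norm_map]

theorem mm_smul {r : ℝ} (hr : 0 < r) (ξ : R3) :
    ∫ h, mm (r • ξ) h * kk h = r ^ (3 / 2 : ℝ) * ∫ h, mm ξ h * kk h := by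
  have h1 := Measure.integral_comp_smul_of_nonneg (volume : Measure R3)
    (fun h => mm ξ h * kk h) r (hR := hr.le)
  have h2 : ∀ h : R3, mm (r • ξ) h * kk h
      = r ^ (9 / 2 : ℝ) * (mm ξ (r • h) * kk (r • h)) := fun h => by
    simp only [mm, kk, real_inner_smul_left, real_inner_smul_right, norm_smul,
      Real.norm_of_nonneg hr.le, Real.mul_rpow hr.le (norm_nonneg h)]
    have h3 : r ^ (9 / 2 : ℝ) * r ^ (-(9 / 2) : ℝ) = 1 := by
      rw [← Real.rpow_add hr]
      norm_num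
    linear_combination (-(2 - 2 * Real.cos (2 * π * (r * inner ℝ ξ h))) * ‖h‖ ^ (-(9 / 2) : ℝ)) * h3
  simp only [h2]
  rw [integral_const_mul, h1, smul_eq_mul, ← mul_assoc]
  congr 1
  rw [finrank_euclideanSpace_fin, ← Real.rpow_natCast, ← Real.rpow_neg hr.le, ← Real.rpow_add hr]
  norm_num

theorem mm_int (ξ : R3) : ∫ h, mm ξ h * kk h = kap * (2 * π * ‖ξ‖) ^ (3 / 2 : ℝ) := by
  rcases eq_or_ne ξ 0 with rfl | h0
  · simp [mm]
  · have hr : 0 < ‖ξ‖ := norm_pos_iff.2 h0
    have hn : ‖‖ξ‖ • (EuclideanSpace.single 0 1 : R3)‖ = ‖ξ‖ := by simp [norm_smul]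
    have h1 := Submodule.reflection_sub hn
    have hp : (0 : ℝ) < (2 * π) ^ (3 / 2 : ℝ) := by positivity
    rw [Real.mul_rpow (by positivity) hr.le, kap]
    conv_lhs => rw [← h1]
    rw [mm_iso, mm_smul hr]
    field_simp

theorem kap_pos : 0 < kap := by
  refine div_pos ?_ (by positivity)
  rw [integral_pos_iff_support_of_nonneg (fun h => mul_nonneg (mm_nonneg _ h) (kk_nonneg h))
    (int_mm _)]
  have ho : IsOpen {h : R3 | 0 < mm (EuclideanSpace.single 0 1) h} :=
    isOpen_lt continuous_const (mm_cont1 _)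
  refine lt_of_lt_of_le (ho.measure_pos volume ⟨EuclideanSpace.single 0 (1 / 2), ?_⟩)
    (measure_mono fun h hh => ?_)
  · have e : 2 * π * inner ℝ (EuclideanSpace.single 0 1 : R3)
        (EuclideanSpace.single 0 (1 / 2) : R3) = π := by
      simp [EuclideanSpace.inner_single_left]
      ring
    simp only [mem_ofPred_eq, mm, e, Real.cos_pi]
    norm_num
  · have h1 : 0 < mm (EuclideanSpace.single 0 1) h := hh
    have h2 : h ≠ 0 := by
      rintro rfl
      simp [mm] at h1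
    exact (mul_pos h1 (Real.rpow_pos_of_pos (norm_pos_iff.2 h2) _)).ne'

end

end Pool.Agent.Work.MP_6bf1e5_an.H.Wide
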