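import Pool.Agent.Work.MP_6bf1e5_an.H.WideKer
import Pool.Agent.Work.MP_6bf1e5_an.Ens.Basic

/-!
The localised dissipation is bounded below by a multiple of the energy.
-/

open scoped ContDiff ENNReal FourierTransform Real
open Set MeasureTheory Filter Metric

namespace Pool.Agent.Work.MP_6bf1e5_an.H.Wide

variable {w f g η : Sc} {F G : R3 → ℂ}

theorem pars2 (hw : MemLp w 2 volume) (h : RepH f F) :
    ∫ y, w y * f y = (∫ ξ, F ξ * (starRingEnd ℂ) (FourB_T hw ξ)).re := by
  have hF := h.mem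
  set W : Lp ℂ 2 (volume : Measure R3) := (hw.ofReal (K := ℂ)).toLp _ with hW
  have e : inner ℂ (𝓕⁻ (𝓕 W : Lp ℂ 2 (volume : Measure R3)) : Lp ℂ 2 (volume : Measure R3))
      (𝓕⁻ (hF.toLp F)) = inner ℂ (𝓕 W : Lp ℂ 2 (volume : Measure R3)) (hF.toLp F) :=
    (Lp.fourierTransformₗᵢ R3 ℂ).symm.inner_map_map _ _
  have e0 : (𝓕⁻ (𝓕 W : Lp ℂ 2 (volume : Measure R3)) : Lp ℂ 2 (volume : Measure R3)) = W :=
    (Lp.fourierTransformₗᵢ R3 ℂ).symm_apply_apply W
  rw [e0, L2.inner_def, L2.inner_def] at e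
  have e1 : ∫ a, inner ℂ ((𝓕 W : Lp ℂ 2 (volume : Measure R3)) a) ((hF.toLp F : R3 → ℂ) a)
      = ∫ ξ, F ξ * (starRingEnd ℂ) (FourB_T hw ξ) := by
    apply integral_congr_ae
    filter_upwards [hF.coeFn_toLp] with ξ h1
    rw [h1, RCLike.inner_apply]
    rfl
  rw [← e1, ← e, ← Complex.ofReal_re (∫ y, w y * f y), ← integral_complex_ofReal]
  congr 1
  apply integral_congr_ae
  filter_upwards [FourB_ae h.1 hF, (hw.ofReal (K := ℂ)).coeFn_toLp] with x h1 h2
  rw [h1, h2, RCLike.inner_apply, mul_comm (w x), Complex.ofReal_mul]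
  exact congrArg _ (Complex.conj_ofReal _).symm

theorem mm_mult (h : R3) : Mult fun ξ => (mm ξ h : ℂ) where
  meas := (by unfold mm; fun_prop : Continuous fun ξ : R3 => (mm ξ h : ℂ)).aestronglyMeasurable
  bd := ⟨4, 0, fun ξ => by
    rw [Complex.norm_real, Real.norm_of_nonneg (mm_nonneg ξ h), pow_zero, mul_one]
    exact mm_four ξ h⟩
  herm := fun ξ => by
    rw [Complex.conj_ofReal]
    simp only [mm, inner_neg_left, mul_neg, Real.cos_neg]

theorem int_exp (hG : Integrable G) (y : R3) : Integrable fun v : R3 =>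
    Complex.exp (((2 * π * inner ℝ v y : ℝ) : ℂ) * Complex.I) • G v :=
  hG.mono ((by fun_prop : Continuous fun v : R3 =>
    Complex.exp (((2 * π * inner ℝ v y : ℝ) : ℂ) * Complex.I)).aestronglyMeasurable.smul hG.1)
    (Eventually.of_forall fun v => by rw [norm_smul, Complex.norm_exp_ofReal_mul_I, one_mul])

theorem rep_diff (hg : RepH g G) (h : R3) :
    RepH (fun x => 2 * g x - g (x + h) - g (x - h)) fun ξ => (mm ξ h : ℂ) * G ξ := by
  refine hg.of_mult (mm_mult h) ⟨FourA_mom hg.1 (mm_mult h), fun x => ?_⟩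
  have hi := int_exp hg.1.int
  rw [Complex.ofReal_sub, Complex.ofReal_sub, Complex.ofReal_mul, hg.1.2, hg.1.2, hg.1.2]
  simp only [Real.fourierInv_eq']
  rw [← integral_const_mul, ← integral_sub ((hi x).const_mul _) (hi _),
    ← integral_sub (((hi x).const_mul _).sub' (hi _)) (hi _)]
  refine integral_congr_ae (Eventually.of_forall fun v => ?_)
  simp only [mm, inner_add_right, inner_sub_right, smul_eq_mul]
  generalize inner ℝ v x = a
  generalize inner ℝ v h = b
  have e1 : Complex.exp (((2 * π * (a + b) : ℝ) : ℂ) * Complex.I)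
      = Complex.exp (((2 * π * a : ℝ) : ℂ) * Complex.I)
        * Complex.exp (((2 * π * b : ℝ) : ℂ) * Complex.I) := by
    rw [← Complex.exp_add]
    push_cast
    ring_nf
  have e2 : Complex.exp (((2 * π * (a - b) : ℝ) : ℂ) * Complex.I)
      = Complex.exp (((2 * π * a : ℝ) : ℂ) * Complex.I)
        * Complex.exp (-((2 * π * b : ℝ) : ℂ) * Complex.I) := by
    rw [← Complex.exp_add]
    push_cast
    ring_nf
  rw [e1, e2, Complex.ofReal_sub, Complex.ofReal_mul 2 (Real.cos _), Complex.ofReal_cos,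
    Complex.ofReal_ofNat, Complex.two_cos]
  ring

theorem fub {Z : R3 → ℂ} (hm : AEStronglyMeasurable Z volume)
    (hZ : Integrable fun ξ => sy (3 / 2) ξ * Z ξ) :
    Integrable (fun h => (∫ ξ, (mm ξ h : ℂ) * Z ξ).re * kk h) ∧
    ∫ h, (∫ ξ, (mm ξ h : ℂ) * Z ξ).re * kk h = kap * (∫ ξ, sy (3 / 2) ξ * Z ξ).re := by
  have hΦ : Integrable (Function.uncurry fun ξ h : R3 => ((mm ξ h * kk h : ℝ) : ℂ) * Z ξ)
      (volume.prod volume) := by
    have m1 : Measurable fun z : R3 × R3 => ((mm z.1 z.2 * kk z.2 : ℝ) : ℂ) :=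
      Complex.measurable_ofReal.comp (mm_cont.measurable.mul (kk_meas.comp measurable_snd))
    refine (integrable_prod_iff (m1.aestronglyMeasurable.mul hm.comp_fst)).2
      ⟨Eventually.of_forall fun ξ => (int_mm ξ).ofReal.mul_const (Z ξ), ?_⟩
    refine (hZ.norm.const_mul kap).congr (Eventually.of_forall fun ξ => ?_)
    simp only [Pi.mul_apply, norm_mul, Complex.norm_real, sy_norm,
      Real.norm_of_nonneg (mm_nonneg ξ _), Real.norm_of_nonneg (kk_nonneg _)]
    rw [integral_mul_const, mm_int, mul_assoc kap]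
  have e1 : ∀ h, (∫ ξ, (mm ξ h : ℂ) * Z ξ).re * kk h
      = (∫ ξ, ((mm ξ h * kk h : ℝ) : ℂ) * Z ξ).re := fun h => by
    rw [mul_comm, ← Complex.re_ofReal_mul, ← integral_const_mul]
    congr 2
    funext ξ
    push_cast
    ring
  have e2 : ∀ ξ, ∫ h, ((mm ξ h * kk h : ℝ) : ℂ) * Z ξ = kap * (sy (3 / 2) ξ * Z ξ) := fun ξ => by
    rw [integral_mul_const, integral_complex_ofReal, mm_int, sy, Complex.ofReal_mul, mul_assoc]
  have h1 : Integrable fun h => ∫ ξ, ((mm ξ h * kk h : ℝ) : ℂ) * Z ξ := hΦ.integral_prod_right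
  simp only [e1]
  refine ⟨h1.re, ?_⟩
  have h2 := integral_re (𝕜 := ℂ) h1
  simp only [RCLike.re_to_complex] at h2
  rw [h2, ← integral_integral_swap hΦ]
  simp only [e2]
  rw [integral_const_mul, Complex.re_ofReal_mul]

theorem lam_pair (hw : MemLp w 2 volume) (hg : Hinf g) :
    Integrable (fun h => (∫ x, w x * (2 * g x - g (x + h) - g (x - h))) * kk h) ∧
    ∫ h, (∫ x, w x * (2 * g x - g (x + h) - g (x - h))) * kk h = kap * ∫ x, w x * Lam g x := by
  obtain ⟨G, hG⟩ := hg.exists_rep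
  have hL := hG.Dp (s := 3 / 2) (by norm_num)
  have hW : MemLp (fun ξ => (starRingEnd ℂ) (FourB_T hw ξ)) 2 volume :=
    (Complex.conjCLE : ℂ →L[ℝ] ℂ).comp_memLp' (FourB_memT hw)
  simp only [fun h => pars2 hw (rep_diff hG h)]
  rw [Lam, pars2 hw hL]
  simp only [mul_assoc]
  refine fub (hG.mem.1.mul hW.1) ?_
  simp only [← mul_assoc]
  exact hL.mem.integrable_mul hW

theorem diff_ge (hw : MemLp w 2 volume) (hη : Continuous η)
    (h01 : ∀ x, 0 ≤ η x ∧ η x ≤ 1) (h : R3) (hl : ∀ x, |η (x + h) - η x| ≤ ‖h‖) :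
    -(min (‖h‖ ^ 2) 1 * ∫ x, w x ^ 2) ≤ ∫ x, w x * (2 * (η x ^ 2 * w x)
      - η (x + h) ^ 2 * w (x + h) - η (x - h) ^ 2 * w (x - h)) := by
  have hg : MemLp (fun x => η x ^ 2 * w x) 2 volume :=
    hw.of_le ((hη.pow 2).aestronglyMeasurable.mul hw.1) (Eventually.of_forall fun x => by
      rw [norm_mul, Real.norm_of_nonneg (sq_nonneg _)]
      exact mul_le_of_le_one_left (norm_nonneg _) (pow_le_one₀ (h01 x).1 (h01 x).2))
  have sh : ∀ {f : Sc}, MemLp f 2 volume → ∀ y, MemLp (fun x => f (x + y)) 2 volume :=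
    fun hf y => hf.comp_measurePreserving (measurePreserving_add_right volume y)
  have i0 : Integrable fun x => w x * (η x ^ 2 * w x) := hw.integrable_mul hg
  have i1 : Integrable fun x => w x * (η (x + h) ^ 2 * w (x + h)) := hw.integrable_mul (sh hg h)
  have i2 : Integrable fun x => w x * (η (x - h) ^ 2 * w (x - h)) := by
    simp only [sub_eq_add_neg]
    exact hw.integrable_mul (sh hg (-h))
  have i3 : Integrable fun x => w (x + h) * (η x ^ 2 * w x) := (sh hw h).integrable_mul hg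
  have i4 : Integrable fun x => w (x + h) * (η (x + h) ^ 2 * w (x + h)) :=
    (sh hw h).integrable_mul (sh hg h)
  have i5 := hw.integrable_sq
  have i6 := (sh hw h).integrable_sq
  have e0 := integral_add_right_eq_self (μ := (volume : Measure R3))
    (fun x => w x * (η x ^ 2 * w x)) h
  have e2 := integral_add_right_eq_self (μ := (volume : Measure R3))
    (fun x => w x * (η (x - h) ^ 2 * w (x - h))) h
  have e5 := integral_add_right_eq_self (μ := (volume : Measure R3)) (fun x => w x ^ 2) h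
  simp only [add_sub_cancel_right] at e2
  set m := min (‖h‖ ^ 2) 1 with hm
  have key : ∫ x, (-(m / 2) * w x ^ 2 + -(m / 2) * w (x + h) ^ 2)
      ≤ ∫ x, (w x * (η x ^ 2 * w x) + w (x + h) * (η (x + h) ^ 2 * w (x + h))
        - w x * (η (x + h) ^ 2 * w (x + h)) - w (x + h) * (η x ^ 2 * w x)) := by
    refine integral_mono ((i5.const_mul _).add (i6.const_mul _)) (((i0.add i4).sub i1).sub i3)
      fun x => ?_
    have h1 : (η (x + h) - η x) ^ 2 ≤ m := by
      refine le_min ?_ ?_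
      · rw [← sq_abs]
        exact pow_le_pow_left₀ (abs_nonneg _) (hl x) 2
      · nlinarith [h01 x, h01 (x + h)]
    have h2 := mul_le_mul_of_nonneg_right h1 (add_nonneg (sq_nonneg (w x)) (sq_nonneg (w (x + h))))
    have h3 := mul_nonneg (sq_nonneg (η (x + h) - η x)) (sq_nonneg (w x - w (x + h)))
    have h4 := sq_nonneg (η (x + h) * w (x + h) - η x * w x)
    simp only
    nlinarith
  rw [integral_add (i5.const_mul _) (i6.const_mul _), integral_const_mul, integral_const_mul,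
    integral_sub ((i0.fun_add i4).sub' i1) i3, integral_sub (i0.fun_add i4) i1, integral_add i0 i4,
    e0, e2, e5] at key
  simp only [mul_sub, mul_left_comm (w _) 2]
  rw [integral_sub ((i0.const_mul 2).sub' i1) i2, integral_sub (i0.const_mul 2) i1,
    integral_const_mul]
  linarith

theorem lam_pos : ∃ C : ℝ, 0 ≤ C ∧ ∀ w η : Sc, ContDiff ℝ ∞ w → MemLp w 2 volume → Ens.Test η →
    (∀ x, 0 ≤ η x ∧ η x ≤ 1) → (∀ x, ‖fderiv ℝ η x‖ ≤ 1) →
    -(C * ∫ x, w x ^ 2) ≤ ∫ x, w x * Lam (fun y => η y ^ 2 * w y) x := by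
  refine ⟨(∫ h : R3, min (‖h‖ ^ 2) 1 * kk h) / kap, div_nonneg (integral_nonneg fun h =>
    mul_nonneg (min_nonneg h) (kk_nonneg h)) kap_pos.le, fun w η hs hw hη h01 hd => ?_⟩
  have hg : Hinf fun y => η y ^ 2 * w y := by
    refine hinf_of_supp ((hη.1.pow 2).mul hs) (HasCompactSupport.mul_right ?_)
    simp only [sq]
    exact hη.2.mul_right
  obtain ⟨h1, h2⟩ := lam_pair hw hg
  have h3 : ∫ h : R3, -(∫ x, w x ^ 2) * (min (‖h‖ ^ 2) 1 * kk h) ≤ _ :=
    integral_mono (int_min.const_mul _) h1 fun h => by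
      have h4 := diff_ge hw hη.1.continuous h01 h fun x => by
        simpa using convex_univ.norm_image_sub_le_of_norm_fderiv_le (𝕜 := ℝ) (f := η)
          (fun y _ => hη.1.differentiable (by simp) y) (fun y _ => hd y) (mem_univ x)
          (mem_univ (x + h))
      have h5 := mul_le_mul_of_nonneg_right h4 (kk_nonneg h)
      simp only
      linarith
  rw [h2, integral_const_mul] at h3
  rw [div_mul_eq_mul_div, ← neg_div, div_le_iff₀ kap_pos]
  linarith

end Pool.Agent.Work.MP_6bf1e5_an.H.Wide
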