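import Pool.Agent.Work.MP_6bf1e5_an.H.WideEn
import Pool.Agent.Work.MP_6bf1e5_an.Ens.Uniq

/-!
Uniqueness in the wide class, in the presence of a solution with bounded gradient.
-/

open scoped ContDiff ENNReal FourierTransform Topology
open Set MeasureTheory Filter Metric

namespace Pool.Agent.Work.MP_6bf1e5_an.Ens.Wide

open H (Lam Hinf)

variable {ν T E0 M t lam : ℝ} {u v : R3 → ℝ → R3} {p q : R3 → ℝ → ℝ} {η : R3 → ℝ}

theorem WS.cont (hu : WS ν T E0 u p) (ht : t ∈ Icc 0 T) : Continuous fun x => u x t :=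
  (contDiffOn_vec.2 hu.ju).continuousOn.comp_continuous (f := fun x : R3 => (x, t)) (by fun_prop)
    fun _ => ⟨trivial, ht⟩

theorem four_real (hu : WS ν T E0 u p) (ht : t ∈ Icc 0 T)
    (h : (∫⁻ x, ‖u x t‖ₑ ^ 4) ^ (1 / 2 : ℝ) ≠ ⊤) : (Integrable fun x => ‖u x t‖ ^ 4) ∧
      ∫ x, ‖u x t‖ ^ 4 ≤ ((∫⁻ x, ‖u x t‖ₑ ^ 4) ^ (1 / 2 : ℝ)).toReal ^ 2 := by
  have e : ∫⁻ x, ‖u x t‖ₑ ^ 4 = ∫⁻ x, ENNReal.ofReal (‖u x t‖ ^ 4) :=
    lintegral_congr fun x => by rw [ENNReal.ofReal_pow (norm_nonneg _), ofReal_norm]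
  have hn : 0 ≤ᵐ[volume] fun x => ‖u x t‖ ^ 4 := Eventually.of_forall fun x => by positivity
  have hm := ((hu.cont ht).norm.pow 4).aestronglyMeasurable (μ := volume)
  have h1 : ∫⁻ x, ‖u x t‖ₑ ^ 4 < ⊤ := (ENNReal.rpow_lt_top_iff_of_pos (by norm_num)).1 h.lt_top
  refine ⟨⟨hm, (hasFiniteIntegral_iff_ofReal hn).2 (e ▸ h1)⟩, le_of_eq ?_⟩
  rw [integral_eq_lintegral_of_nonneg_ae hn hm, ← e, ← ENNReal.toReal_pow, ← ENNReal.rpow_natCast,
    ← ENNReal.rpow_mul]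
  norm_num

theorem int_le {g : ℝ → ℝ} {b : ℝ → ℝ≥0∞} {c t0 t1 : ℝ} (h0 : 0 ≤ t0) (h01 : t0 ≤ t1) (h1 : t1 ≤ T)
    (hc : 0 < c) (hg : ContinuousOn g (Icc t0 t1)) (hb : ∫⁻ t in Icc 0 T, b t < ⊤)
    (h : ∀ t ∈ Icc t0 t1, b t ≠ ⊤ → g t ≤ c * (b t).toReal) :
    ∫ t in t0..t1, g t ≤ c * (∫⁻ t in Icc 0 T, b t).toReal := by
  rw [intervalIntegral.integral_of_le h01, ← integral_Icc_eq_integral_Ioc,
    integral_eq_lintegral_pos_part_sub_lintegral_neg_part hg.integrableOn_Icc]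
  refine (sub_le_self _ ENNReal.toReal_nonneg).trans ?_
  rw [← ENNReal.toReal_ofReal hc.le, ← ENNReal.toReal_mul]
  refine ENNReal.toReal_mono (ENNReal.mul_ne_top ENNReal.ofReal_ne_top hb.ne) ?_
  rw [← lintegral_const_mul' _ _ ENNReal.ofReal_ne_top]
  refine le_trans (setLIntegral_mono' measurableSet_Icc fun t ht => ?_)
    (lintegral_mono_set (Icc_subset_Icc h0 h1))
  rcases eq_or_ne (b t) ⊤ with h2 | h2
  · rw [h2, ENNReal.mul_top (ENNReal.ofReal_pos.2 hc).ne']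
    exact le_top
  · refine (ENNReal.ofReal_le_ofReal (h t ht h2)).trans_eq ?_
    rw [ENNReal.ofReal_mul hc.le, ENNReal.ofReal_toReal h2]

theorem loc_step (hν : 0 ≤ ν) (hu : WS ν T E0 u p) (hv : WS ν T E0 v q) (hT : 0 < T) (hM : 0 ≤ M)
    (hb : ∀ t ∈ Icc 0 T, ∀ x i, |v x t i| ≤ M ∧ ∀ j, |pd j (fun y => v y t i) x| ≤ M)
    (h4 : ∫⁻ t in Icc 0 T, (∫⁻ x, ‖u x t‖ₑ ^ 4) ^ (1 / 2 : ℝ) < ⊤) :
    ∃ L K : ℝ, 0 ≤ L ∧ ∀ (η : R3 → ℝ) (lam t0 t1 S : ℝ), Test η → (∀ x, 0 ≤ η x ∧ η x ≤ 1) →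
      0 < lam → lam ≤ 1 → (∀ x, ‖fderiv ℝ η x‖ ≤ lam) → 0 ≤ t0 → t0 ≤ t1 → t1 ≤ T →
      (∀ t ∈ Icc t0 t1, en u v t ≤ S) →
      ∑ i, ∫ x, (u x t1 i - v x t1 i) ^ 2 * η x ^ 2
        ≤ (∑ i, ∫ x, (u x t0 i - v x t0 i) ^ 2 * η x ^ 2) + L * (t1 - t0) * S + lam * K := by
  obtain ⟨C, hC, hr⟩ := rate
  have hE := hu.nonneg ⟨le_rfl, hT.le⟩
  refine ⟨2 * (ν * C + 9 * M), 324 * (E0 + 1) * (M * (E0 + 1) * T
    + (∫⁻ t in Icc 0 T, (∫⁻ x, ‖u x t‖ₑ ^ 4) ^ (1 / 2 : ℝ)).toReal), by positivity,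
    fun η lam t0 t1 S hη h01 hl hl1 hd h0 h01' h1 hS => ?_⟩
  have hI := uniqueDiffOn_Icc hT
  have jw : ∀ i, JS (Icc 0 T) fun x t => (u x t i - v x t i) ^ 2 := fun i => by
    simp only [sq]
    exact ((hu.ju i).sub (hv.ju i)).mul ((hu.ju i).sub (hv.ju i))
  set D : ℝ → ℝ := fun t => ∑ i, ∫ x,
    derivWithin (fun s => (u x s i - v x s i) ^ 2) (Icc 0 T) t * η x ^ 2 with hD
  have hsub : Icc t0 t1 ⊆ Icc 0 T := Icc_subset_Icc h0 h1
  have d1 : ∀ t ∈ Icc 0 T, HasDerivWithinAt (fun s => ∑ i, ∫ x, (u x s i - v x s i) ^ 2 * η x ^ 2)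
      (D t) (Icc 0 T) t := fun t ht => HasDerivWithinAt.fun_sum fun i _ =>
    JS.hasDerivWithinAt_integral hT (jw i) (test_sq hη) ht
  have d2 : ContinuousOn D (Icc t0 t1) := (continuousOn_finsetSum _ fun i _ =>
    ((jw i).time hI).continuousOn_integral (test_sq hη)).mono hsub
  have d3 := intervalIntegral.integral_eq_sub_of_hasDerivAt_of_le h01'
    (fun t ht => ((d1 t (hsub ht)).continuousWithinAt).mono hsub)
    (fun t ht => (d1 t (hsub (Ioo_subset_Icc_self ht))).hasDerivAt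
      (Icc_mem_nhds (h0.trans_lt ht.1) (ht.2.trans_le h1)))
    (d2.intervalIntegrable_of_Icc h01')
  have d4 := int_le (g := fun t => D t - (2 * (ν * C + 9 * M) * S
      + lam * (324 * (E0 + 1) * (M * (E0 + 1))))) h0 h01' h1
    (c := lam * (324 * (E0 + 1))) (by positivity) (d2.sub continuousOn_const) h4 fun t ht hne => by
      obtain ⟨i4, e4⟩ := four_real hu (hsub ht) hne
      have h2 := hr hν hu hv hT (hsub ht) hη h01 hl.le hl1 hd hM
        (fun x i => (hb t (hsub ht) x i).1) (fun x i => (hb t (hsub ht) x i).2)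
        ENNReal.toReal_nonneg i4 e4
      have h3 : D t = 2 * ∑ i,
          ((∫ x, derivWithin (fun s => u x s i) (Icc 0 T) t * (η x ^ 2 * (u x t i - v x t i)))
          - ∫ x, derivWithin (fun s => v x s i) (Icc 0 T) t
            * (η x ^ 2 * (u x t i - v x t i))) := by
        rw [hD, Finset.mul_sum]
        refine Finset.sum_congr rfl fun i _ => ?_
        have hΦ : Test fun x => η x ^ 2 * (u x t i - v x t i) :=
          (test_sq hη).mul ((hu.sm (hsub ht) i).sub (hv.sm (hsub ht) i))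
        rw [← integral_sub (hΦ.integrable_mul (((hu.ju i).time hI).slice (hsub ht)).continuous)
          (hΦ.integrable_mul (((hv.ju i).time hI).slice (hsub ht)).continuous),
          ← integral_const_mul]
        congr 1
        funext x
        have h5 := ((((hu.ju i).hasDerivWithinAt x (hsub ht)).fun_sub
          ((hv.ju i).hasDerivWithinAt x (hsub ht))).fun_pow 2).derivWithin (hI t (hsub ht))
        rw [h5]
        push_cast
        ring
      have h6 := mul_le_mul_of_nonneg_left (hS t ht) (by positivity : 0 ≤ ν * C + 9 * M)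
      rw [h3]
      linarith
  rw [intervalIntegral.integral_sub (d2.intervalIntegrable_of_Icc h01') intervalIntegrable_const,
    d3, intervalIntegral.integral_const, smul_eq_mul] at d4
  have h7 := mul_le_mul_of_nonneg_right (show t1 - t0 ≤ T by linarith)
    (by positivity : 0 ≤ lam * (324 * (E0 + 1) * (M * (E0 + 1))))
  linarith

theorem WS.unique (hν : 0 ≤ ν) (hu : WS ν T E0 u p) (hv : WS ν T E0 v q) (hT : 0 < T) (hM : 0 ≤ M)
    (hb : ∀ t ∈ Icc 0 T, ∀ x i, |v x t i| ≤ M ∧ ∀ j, |pd j (fun y => v y t i) x| ≤ M)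
    (h4 : ∫⁻ t in Icc 0 T, (∫⁻ x, ‖u x t‖ₑ ^ 4) ^ (1 / 2 : ℝ) < ⊤) (h0 : ∀ x, u x 0 = v x 0) :
    ∀ t ∈ Icc 0 T, ∀ x, u x t = v x t := by
  obtain ⟨L, K, hL, hs⟩ := loc_step hν hu hv hT hM hb h4
  obtain ⟨A, hA, hcut⟩ := exists_cut
  have hd : ∀ n : ℕ, 0 < (n : ℝ) + (A + 1) := fun n => by positivity
  choose η hη h01 h1 h2 h3 using fun n : ℕ => hcut _ _ (hd n) le_rfl
  have hi := fun t ht i => (dif_mem hu hv (t := t) ht i).integrable_sq
  have hle : ∀ t n i x, (u x t i - v x t i) ^ 2 * η n x ^ 2 ≤ (u x t i - v x t i) ^ 2 :=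
    fun t n i x => mul_le_of_le_one_right (sq_nonneg _) (pow_le_one₀ (h01 n x).1 (h01 n x).2)
  have hc : ∀ t ∈ Icc 0 T, ∀ i, Continuous fun x => (u x t i - v x t i) ^ 2 := fun t ht i =>
    ((hu.sm ht i).sub (hv.sm ht i)).continuous.pow 2
  have key := uniq_gronwall (e := en u v) (T := T) hL (by simp [en, h0])
    (fun t ht => en_le hu hv ht) fun t0 t1 S a0 a1 a2 hS => by
      have m0 : t0 ∈ Icc 0 T := ⟨a0, a1.trans a2⟩
      have m1 : t1 ∈ Icc 0 T := ⟨a0.trans a1, a2⟩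
      have l1 : Tendsto (fun n => ∑ i, ∫ x, (u x t1 i - v x t1 i) ^ 2 * η n x ^ 2) atTop
          (𝓝 (en u v t1)) := by
        refine tendsto_finsetSum _ fun i _ => tendsto_integral_of_dominated_convergence _
          (fun n => ((test_sq (hη n)).integrable_mul (hc t1 m1 i)).1) (hi t1 m1 i)
          (fun n => Eventually.of_forall fun x => ?_) (Eventually.of_forall fun x => ?_)
        · rw [Real.norm_of_nonneg (by positivity)]
          exact hle t1 n i x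
        · refine tendsto_const_nhds.congr' ?_
          filter_upwards [tendsto_natCast_atTop_atTop.eventually_ge_atTop ‖x‖] with n hn
          rw [h1 n x (by linarith), one_pow, mul_one]
      have l2 : Tendsto (fun n : ℕ => en u v t0 + L * (t1 - t0) * S
          + (A + 1) / ((n : ℝ) + (A + 1)) * K) atTop (𝓝 (en u v t0 + L * (t1 - t0) * S + 0 * K)) :=
        ((tendsto_const_nhds.div_atTop (tendsto_atTop_add_const_right _ _
          tendsto_natCast_atTop_atTop)).mul_const K).const_add _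
      rw [zero_mul, add_zero] at l2
      refine le_of_tendsto_of_tendsto' l1 l2 fun n => ?_
      refine (hs (η n) ((A + 1) / ((n : ℝ) + (A + 1))) t0 t1 S (hη n) (h01 n)
        (div_pos (by linarith) (hd n)) ((div_le_one (hd n)).2 (le_add_of_nonneg_left n.cast_nonneg))
        (fun x => (h3 n x).trans (div_le_div_of_nonneg_right (by linarith) (hd n).le))
        a0 a1 a2 hS).trans ?_
      have h5 : ∑ i, ∫ x, (u x t0 i - v x t0 i) ^ 2 * η n x ^ 2 ≤ en u v t0 :=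
        Finset.sum_le_sum fun i _ => integral_mono
          ((test_sq (hη n)).integrable_mul (hc t0 m0 i)) (hi t0 m0 i) (hle t0 n i)
      linarith
  intro t ht x
  ext i
  have h5 := (integral_eq_zero_iff_of_nonneg (fun _ => sq_nonneg _) (hi t ht i)).1
    (le_antisymm ((en_one i).trans (key t ht)) (integral_nonneg fun _ => sq_nonneg _))
  have h6 := congrFun (((hc t ht i).ae_eq_iff_eq volume continuous_zero).1 h5) x
  exact sub_eq_zero.1 (pow_eq_zero_iff two_ne_zero |>.1 h6)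

end Pool.Agent.Work.MP_6bf1e5_an.Ens.Wide
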