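import Pool.Agent.Work.MP_6bf1e5_an.H.WidePos
import Pool.Agent.Work.MP_6bf1e5_an.Ens.Press

/-!
The working form of the wide class and the equation tested with compactly supported fields.
-/

open scoped ContDiff ENNReal FourierTransform Topology
open Set MeasureTheory Filter Metric

namespace Pool.Agent.Work.MP_6bf1e5_an.Ens.Wide

open H (Lam Hinf)

/-- The working form of a solution. -/
structure WS (ν T E0 : ℝ) (u : R3 → ℝ → R3) (p : R3 → ℝ → ℝ) : Prop where
  ju : ∀ i, JS (Icc 0 T) fun x t => u x t i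
  jp : JS (Icc 0 T) p
  ie : ∀ t ∈ Icc 0 T, Integrable fun x => ‖u x t‖ ^ 2
  le : ∀ t ∈ Icc 0 T, ∫ x, ‖u x t‖ ^ 2 ≤ E0
  mom : ∀ t ∈ Icc 0 T, ∀ i φ, Test φ →
    ∫ x, (derivWithin (fun s => u x s i) (Icc 0 T) t
        + ∑ j, u x t j * pd j (fun y => u y t i) x + pd i (fun y => p y t) x) * φ x
      = -ν * ∫ x, u x t i * Lam φ x
  dv : ∀ x, ∀ t ∈ Icc 0 T, ∑ i, pd i (fun y => u y t i) x = 0

variable {ν T E0 t : ℝ} {u : R3 → ℝ → R3} {p : R3 → ℝ → ℝ} {φ ψ f : R3 → ℝ}

theorem hinf (h : Test φ) : Hinf φ := H.hinf_of_supp h.1 h.2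

theorem nice_of_hinf (h : Hinf f) : Nice f := by
  refine pot_nice_iff.2 ⟨h.1, fun n => pot_class Hinf (fun f hf => hf.1) (fun f hf j => hf.pd j)
    (fun f hf => ?_) n f h⟩
  obtain ⟨F, hF⟩ := hf.exists_rep
  rw [H.FourA_re hF.1]
  exact pot_ev hF.1.int hF.isq

theorem lam_pd (h : Test φ) (i : Fin 3) : Lam (pd i φ) = pd i (Lam φ) :=
  (H.pd_Dp (hinf h).inA (by norm_num) i).symm

theorem lam_add (h : Test φ) (g : Test ψ) :
    Lam (fun x => φ x + ψ x) = fun x => Lam φ x + Lam ψ x :=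
  H.Dp_add (hinf h).inA (hinf g).inA (by norm_num)

theorem lam_hinf (h : Test φ) : Hinf (Lam φ) := (hinf h).Dp (by norm_num)

theorem lam_mem (h : Test φ) : MemLp (Lam φ) 2 volume := (lam_hinf h).2 []

theorem lam_sq (h : Test φ) :
    ∫ y, Lam φ y ^ 2 ≤ (∫ y, φ y ^ 2) + 3 * ∑ j, ∫ y, pd j (pd j φ) y ^ 2 :=
  H.Dyn.lam_sq_le (hinf h)

theorem sq_le (v : R3) (i : Fin 3) : v i ^ 2 ≤ ‖v‖ ^ 2 := by
  rw [← sq_abs]
  exact pow_le_pow_left₀ (abs_nonneg _) (newton_coord v i) 2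

theorem WS.sm (h : WS ν T E0 u p) (ht : t ∈ Icc 0 T) (i : Fin 3) :
    ContDiff ℝ ∞ fun x => u x t i := (h.ju i).slice ht

theorem WS.mem (h : WS ν T E0 u p) (ht : t ∈ Icc 0 T) (i : Fin 3) :
    MemLp (fun x => u x t i) 2 volume := by
  have hc := (h.sm ht i).continuous
  refine (memLp_two_iff_integrable_sq hc.aestronglyMeasurable).2 ((h.ie t ht).mono'
    (hc.pow 2).aestronglyMeasurable (Eventually.of_forall fun x => ?_))
  rw [Real.norm_of_nonneg (sq_nonneg _)]
  exact sq_le _ i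

theorem WS.grad0 (h : WS ν T E0 u p) (ht : t ∈ Icc 0 T) (hφ : Test φ) :
    ∑ i, ∫ x, u x t i * pd i φ x = 0 := by
  have e : ∀ i, ∫ x, u x t i * pd i φ x = -∫ x, pd i (fun y => u y t i) x * φ x := fun i => by
    rw [integral_pd_mul (h.sm ht i) hφ i, neg_neg]
  simp only [e]
  rw [Finset.sum_neg_distrib, ← integral_finsetSum _ fun i _ =>
    hφ.integrable_mul (contDiff_pd (h.sm ht i) i).continuous]
  simp only [← Finset.sum_mul, h.dv _ t ht, zero_mul, integral_zero, neg_zero]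

theorem mem_pd (hf : Nice f) (i : Fin 3) : MemLp (pd i f) 2 volume := by
  have hc := (contDiff_pd hf.smooth i).continuous
  refine (memLp_two_iff_integrable_sq hc.aestronglyMeasurable).2 ((hf.sq 1).mono'
    (hc.pow 2).aestronglyMeasurable (Eventually.of_forall fun x => ?_))
  rw [Real.norm_of_nonneg (sq_nonneg _), ← sq_abs, ← norm_iteratedFDeriv_fderiv,
    norm_iteratedFDeriv_zero]
  exact pow_le_pow_left₀ (abs_nonneg _) (abs_pd_le f i x) 2

theorem WS.grad1 (h : WS ν T E0 u p) (ht : t ∈ Icc 0 T) (hf : Nice f) :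
    ∑ i, ∫ x, u x t i * pd i f x = 0 := by
  obtain ⟨θ, hθ, hS⟩ := press_cut
  have h1 := (press_unif_sum fun i => press_pair_sq (w := fun x s => u x s i)
    ((hS f hf).pd i).s0 (fun s _ x => sq_le _ i) h.ie h.le).tendsto_at ht
  refine tendsto_nhds_unique (tendsto_const_nhds.congr fun n => ?_) h1
  have tf : Test fun y => θ n y * f y := (hθ n).mul hf.smooth
  rw [← sub_zero (∑ i, ∫ x, u x t i * pd i f x), ← h.grad0 ht tf, ← Finset.sum_sub_distrib]
  refine Finset.sum_congr rfl fun i _ => ?_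
  have i1 : Integrable fun x => u x t i * pd i f x := (h.mem ht i).integrable_mul (mem_pd hf i)
  rw [← integral_sub i1 ((tf.pd i).integrable_mul (h.sm ht i).continuous)]
  congr 1
  funext x
  rw [press_split (hθ n).1 hf.smooth i x]
  ring

theorem WS.one (h : WS ν T E0 u p) (hT : 0 < T) (ht : t ∈ Icc 0 T) (hφ : Test φ) (i : Fin 3) :
    ∫ x, derivWithin (fun s => u x s i) (Icc 0 T) t * φ x
      = -ν * (∫ x, u x t i * Lam φ x) - (∫ x, (∑ j, u x t j * pd j (fun y => u y t i) x) * φ x)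
        - ∫ x, pd i (fun y => p y t) x * φ x := by
  have i1 := hφ.integrable_mul (((h.ju i).time (uniqueDiffOn_Icc hT)).slice ht).continuous
  have i2 := hφ.integrable_mul (f := fun x => ∑ j, u x t j * pd j (fun y => u y t i) x)
    (continuous_finsetSum _ fun j _ =>
      (h.sm ht j).continuous.mul (contDiff_pd (h.sm ht i) j).continuous)
  have i3 := hφ.integrable_mul (contDiff_pd (h.jp.slice ht) i).continuous
  rw [← h.mom t ht i φ hφ]
  simp only [add_mul]
  rw [integral_add (i1.fun_add i2) i3, integral_add i1 i2]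
  ring

theorem WS.flux (h : WS ν T E0 u p) (ht : t ∈ Icc 0 T) (hφ : Test φ) {g : R3 → ℝ}
    (hg : ContDiff ℝ ∞ g) :
    ∫ x, (∑ j, u x t j * pd j g x) * φ x = -∑ j, ∫ x, u x t j * g x * pd j φ x := by
  have e : ∀ x, ∑ j, u x t j * pd j g x = ∑ j, pd j (fun y => u y t j * g y) x := fun x => by
    rw [Finset.sum_congr rfl fun j _ => pd_mul ((h.sm ht j).differentiable (by simp) x)
      (hg.differentiable (by simp) x) j, Finset.sum_add_distrib, ← Finset.sum_mul, h.dv x t ht,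
      zero_mul, zero_add]
  simp only [e, Finset.sum_mul]
  rw [integral_finsetSum _ fun j _ =>
    hφ.integrable_mul (contDiff_pd ((h.sm ht j).mul hg) j).continuous, ← Finset.sum_neg_distrib]
  exact Finset.sum_congr rfl fun j _ => integral_pd_mul ((h.sm ht j).mul hg) hφ j

/-- Pairing of a square integrable family with a sequence that is small in the square mean. -/
theorem pair_sq {S : Set ℝ} {w e : R3 → ℝ → ℝ} {g : ℕ → R3 → ℝ}
    (hi : ∀ n, Integrable fun x => g n x ^ 2) (hl : Tendsto (fun n => ∫ x, g n x ^ 2) atTop (𝓝 0))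
    (hw : ∀ t ∈ S, ∀ x, w x t ^ 2 ≤ e x t) (ie : ∀ t ∈ S, Integrable fun x => e x t)
    (he : ∀ t ∈ S, ∫ x, e x t ≤ E0) :
    TendstoUniformlyOn (fun n t => ∫ x, w x t * g n x) (fun _ => 0) atTop S := by
  rw [Metric.tendstoUniformlyOn_iff]
  intro ε hε
  set δ : ℝ := ε / (|E0| + 1) with hδ
  have hE : 0 < |E0| + 1 := by positivity
  have hδ0 : 0 < δ := by positivity
  have hδE : δ * E0 < ε := by
    have h1 : δ * (|E0| + 1) = ε := div_mul_cancel₀ _ hE.ne'
    nlinarith [le_abs_self E0]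
  filter_upwards [hl.eventually (gt_mem_nhds (mul_pos hδ0 hε))] with n hn t ht
  rw [dist_comm, dist_zero_right]
  have i1 := (ie t ht).const_mul (δ / 2)
  have i2 := (hi n).const_mul (1 / (2 * δ))
  have h1 : ‖∫ x, w x t * g n x‖ ≤ ∫ x, (δ / 2 * e x t + 1 / (2 * δ) * g n x ^ 2) := by
    refine norm_integral_le_of_norm_le (i1.add i2) (Eventually.of_forall fun x => ?_)
    have h2 := hw t ht x
    have h3 : 0 ≤ 1 / (2 * δ) * (δ * |w x t| - |g n x|) ^ 2 := by positivity
    have h4 : 1 / (2 * δ) * (δ * |w x t| - |g n x|) ^ 2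
        = δ / 2 * |w x t| ^ 2 - |w x t| * |g n x| + 1 / (2 * δ) * |g n x| ^ 2 := by
      field_simp
      ring
    rw [h4, sq_abs, sq_abs] at h3
    rw [Real.norm_eq_abs, abs_mul]
    nlinarith
  rw [integral_add i1 i2, integral_const_mul, integral_const_mul] at h1
  have h5 : 1 / (2 * δ) * ∫ x, g n x ^ 2 < ε / 2 := by
    rw [one_div, inv_mul_lt_iff₀ (by positivity)]
    linarith
  have h6 := mul_le_mul_of_nonneg_left (he t ht) (half_pos hδ0).le
  linarith

theorem lam_small {Ξ : ℕ → R3 → ℝ} (hs : press_Small Ξ) (ht : ∀ n, Test (Ξ n)) :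
    Tendsto (fun n => ∫ x, Lam (Ξ n) x ^ 2) atTop (𝓝 0) := by
  refine squeeze_zero (fun n => integral_nonneg fun x => sq_nonneg _) (fun n => lam_sq (ht n)) ?_
  simpa using hs.s0.l2.add ((tendsto_finsetSum Finset.univ fun j _ =>
    ((hs.pd j).pd j).s0.l2).const_mul 3)

end Pool.Agent.Work.MP_6bf1e5_an.Ens.Wide
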